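import Mathlib

/-! Merged copies (to shorten the build) of Lib.H44W.W0, Lib.H44W.V1, Lib.H44W.V2, Lib.H44W.E1, Lib.H44W.E2, Lib.H44W.E3, Lib.H44W.E4, Lib.H44W.E5, Lib.H44W.V3, Lib.H44W.V4, Lib.H44W.V5, Lib.H44W.V6, Lib.H44W.V7, Lib.H44W.V8, Lib.H44W.D1. -/

-- from Lib.H44W.W0
section
/-!
H44W: near-diagonal pieces, part D1 + D2 (MP_443e5f, candidate T). Definitions.

TF n F W f g is the bilinear form sum over x, y in [1,n] of f x * g y * F (x+y) * W (x-y).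
pd q I1 I2 is the near-diagonal piece: m is sent to the number of (a,b) in I1 x I2 with q*a*b = m.
WL l w: w is locally linear on the windows of length l of a partition of the integers.
-/
namespace Pool.Agent.H44W
open Finset

/-- e(x) = exp(2 pi i x). -/
noncomputable def ee (x : ℝ) : ℂ := Complex.exp (2 * Real.pi * x * Complex.I)

/-- The bilinear form. -/
noncomputable def TF (n : ℕ) (F W f g : ℤ → ℂ) : ℂ :=
  ∑ x ∈ Icc (1:ℤ) n, ∑ y ∈ Icc (1:ℤ) n, f x * g y * F (x + y) * W (x - y)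

/-- The near-diagonal piece. -/
noncomputable def pd (q : ℕ) (I1 I2 : Finset ℤ) (m : ℤ) : ℂ :=
  (((I1 ×ˢ I2).filter (fun p => (q:ℤ) * p.1 * p.2 = m)).card : ℂ)

/-- Window-linear functions: windows of length l, one linear phase on each window. -/
def WL (l : ℕ) (w : ℤ → ℂ) : Prop :=
  ∃ (r : ℤ) (ep : ℤ → ℂ) (th : ℤ → ℝ), (∀ k, ‖ep k‖ ≤ 1) ∧
    ∀ y, w y = ep ((y - r) / l) * ee (th ((y - r) / l) * y)

/-- Truncation to [1,n]. -/
noncomputable def cut (n : ℕ) (f : ℤ → ℂ) (x : ℤ) : ℂ := if x ∈ Icc (1:ℤ) n then f x else 0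

/-- Correlation of Th with its translate by t. -/
noncomputable def Cor (S : Finset (ℤ × ℤ)) (V : Finset ℤ) (Th : ℤ × ℤ → ℤ → ℂ) (t : ℤ × ℤ) : ℂ :=
  ∑ p ∈ S, ∑ v ∈ V, Th (p + t) v * (starRingEnd ℂ) (Th p v)

/-- Largest Fourier coefficient (frequencies k/l) of G on the window [z, z+l). -/
noncomputable def amp (l : ℕ) (G : ℤ → ℂ) (z : ℤ) : ℝ :=
  ⨆ k : Fin l, ‖∑ w ∈ range l, G (z + w) * ee ((k:ℝ) * w / l)‖

/-- C_G(D, D'), the fourfold correlation. -/
noncomputable def CG (n : ℕ) (G : ℤ → ℂ) (D E : ℤ) : ℂ :=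
  ∑ y ∈ Icc (1:ℤ) n, G y * (starRingEnd ℂ) (G (y + D)) * (starRingEnd ℂ) (G (y + E)) * G (y + D + E)

/-- The shift D of the first van der Corput step. -/
def sD (q : ℕ) (s t : ℤ) (p : ℤ × ℤ) : ℤ := (q:ℤ) * (p.1 * t + p.2 * s + 2 * s * t)

/-- The shift D' of the second van der Corput step. -/
def sE (q : ℕ) (s t h : ℤ) (p : ℤ × ℤ) : ℤ := (q:ℤ) * (h * (s * p.2 - t * p.1) - h ^ 2 * s * t)

/-- The function of the first step (v = x - y; the parity condition makes x, y integers). -/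
noncomputable def Th1 (n q : ℕ) (S : Finset (ℤ × ℤ)) (f g : ℤ → ℂ) (p : ℤ × ℤ) (v : ℤ) : ℂ :=
  if p ∈ S ∧ Even ((q:ℤ) * p.1 * p.2 + v) then
    cut n f (((q:ℤ) * p.1 * p.2 + v) / 2) * cut n g (((q:ℤ) * p.1 * p.2 - v) / 2) else 0

/-- The weight of the second step. -/
noncomputable def w2 (n q : ℕ) (s t : ℤ) (f : ℤ → ℂ) (p : ℤ × ℤ) (x : ℤ) : ℂ :=
  cut n f (x + sD q s t p) * (starRingEnd ℂ) (cut n f x)

/-- The function of the second step. -/
noncomputable def Th2 (n q : ℕ) (S : Finset (ℤ × ℤ)) (s t : ℤ) (g : ℤ → ℂ) (p : ℤ × ℤ) (x : ℤ) : ℂ :=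
  if p ∈ S then
    cut n g ((q:ℤ) * p.1 * p.2 - x + sD q s t p) *
      (starRingEnd ℂ) (cut n g ((q:ℤ) * p.1 * p.2 - x)) else 0

/-- A box. -/
noncomputable def bx (a1 b1 a2 b2 : ℤ) : Finset (ℤ × ℤ) := Ico a1 b1 ×ˢ Ico a2 b2

end Pool.Agent.H44W
end

-- from Lib.H44W.V1
section
/-!
CHUNK V1 (M). General van der Corput inequality with an invariant weight.
S, S' finite sets of Z x Z, V finite, J a finite index set with shifts ta i. Th p v = 0 for p not in S; for p in S, i in J the point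
p - ta i lies in S'; the weight w is invariant: w (p + ta i) v = w p v for i in J.
Proof. For i in J: sum_{p in S} sum_{v in V} w p v * Th p v = sum_{p in S'} sum_{v in V} w (p + ta i) v * Th (p + ta i) v
(the map p -> p + ta i is injective, its image of S' contains S, and Th = 0 off S) = sum_{p in S'} sum_v w p v * Th (p + ta i) v.
Summing over i: |J| T = sum_{p in S', v in V} w p v * (sum_i Th (p + ta i) v). Cauchy-Schwarz on the product S' x V:
|J|^2 |T|^2 <= (sum |w|^2) * sum_{p in S', v} |sum_i Th(p + ta i) v|^2, and the last sum is the real number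
sum_{i,j} sum_{p in S', v} Th(p + ta i) v * conj Th(p + ta j) v = sum_{i,j} Cor S V Th (ta i - ta j)
(translate p by - ta j: the terms with p + ta j not in S vanish, and p - ta j is in S' for p in S). Take norms (norm_sum_le).
Finset tools: Finset.sum_bij_ne_zero or sum_subset after Finset.sum_map with the embedding of the translation.
-/
namespace Pool.Agent.H44W
open Finset

theorem v1_tr (S S' : Finset (ℤ × ℤ)) (t : ℤ × ℤ) (G : ℤ × ℤ → ℂ) (hG : ∀ p, p ∉ S → G p = 0)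
    (hS' : ∀ p ∈ S, p - t ∈ S') : ∑ p ∈ S, G p = ∑ p ∈ S', G (p + t) := by
  have h1 : ∑ p ∈ S.image (fun p => p - t), G (p + t) = ∑ p ∈ S, G p := by
    rw [Finset.sum_image]
    · exact Finset.sum_congr rfl fun p _ => by rw [sub_add_cancel]
    · intro a _ b _ h
      exact sub_left_injective h
  rw [← h1]
  apply Finset.sum_subset
  · intro p hp
    obtain ⟨q, hq, rfl⟩ := Finset.mem_image.1 hp
    exact hS' q hq
  · intro p _ hp
    apply hG
    intro h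
    exact hp (Finset.mem_image.2 ⟨p + t, h, by simp⟩)

theorem v1_sq (z : ℂ) : ((‖z‖ ^ 2 : ℝ) : ℂ) = z * (starRingEnd ℂ) z := by
  rw [Complex.mul_conj, Complex.normSq_eq_norm_sq]

theorem vdc {ι : Type*} (S S' : Finset (ℤ × ℤ)) (V : Finset ℤ) (J : Finset ι) (ta : ι → ℤ × ℤ)
    (Th w : ℤ × ℤ → ℤ → ℂ) (hTh : ∀ p v, p ∉ S → Th p v = 0)
    (hS' : ∀ p ∈ S, ∀ i ∈ J, p - ta i ∈ S')
    (hw : ∀ p v, ∀ i ∈ J, w (p + ta i) v = w p v) (B : ℝ)
    (hB : ∑ p ∈ S', ∑ v ∈ V, ‖w p v‖ ^ 2 ≤ B) :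
    (J.card : ℝ) ^ 2 * ‖∑ p ∈ S, ∑ v ∈ V, w p v * Th p v‖ ^ 2 ≤
      B * ∑ i ∈ J, ∑ j ∈ J, ‖Cor S V Th (ta i - ta j)‖ := by
  set T : ℂ := ∑ p ∈ S, ∑ v ∈ V, w p v * Th p v with hT
  set A : ℤ × ℤ → ℤ → ℂ := fun p v => ∑ i ∈ J, Th (p + ta i) v with hA
  have h1 : (J.card : ℂ) * T = ∑ p ∈ S', ∑ v ∈ V, w p v * A p v := by
    have h2 : ∀ i ∈ J, T = ∑ p ∈ S', ∑ v ∈ V, w p v * Th (p + ta i) v := by
      intro i hi
      rw [hT, v1_tr S S' (ta i) (fun p => ∑ v ∈ V, w p v * Th p v)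
        (fun p hp => Finset.sum_eq_zero fun v _ => by rw [hTh p v hp, mul_zero])
        (fun p hp => hS' p hp i hi)]
      exact Finset.sum_congr rfl fun p _ => Finset.sum_congr rfl fun v _ => by rw [hw p v i hi]
    rw [← nsmul_eq_mul, ← Finset.sum_const, Finset.sum_congr rfl h2, Finset.sum_comm]
    refine Finset.sum_congr rfl fun p _ => ?_
    rw [Finset.sum_comm]
    refine Finset.sum_congr rfl fun v _ => ?_
    rw [hA, Finset.mul_sum]
  have h3 : (J.card : ℝ) * ‖T‖ ≤ ∑ x ∈ S' ×ˢ V, ‖w x.1 x.2‖ * ‖A x.1 x.2‖ := by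
    have h4 : (J.card : ℝ) * ‖T‖ = ‖(J.card : ℂ) * T‖ := by
      rw [norm_mul, Complex.norm_natCast]
    rw [h4, h1, ← Finset.sum_product']
    refine (norm_sum_le _ _).trans (Finset.sum_le_sum fun x _ => ?_)
    rw [norm_mul]
  have h5 : ((J.card : ℝ) * ‖T‖) ^ 2 ≤
      (∑ x ∈ S' ×ˢ V, ‖w x.1 x.2‖ ^ 2) * ∑ x ∈ S' ×ˢ V, ‖A x.1 x.2‖ ^ 2 :=
    (pow_le_pow_left₀ (by positivity) h3 2).trans (Finset.sum_mul_sq_le_sq_mul_sq _ _ _)
  have h6 : ∑ x ∈ S' ×ˢ V, ‖w x.1 x.2‖ ^ 2 ≤ B := by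
    rw [Finset.sum_product]
    exact hB
  have h7 : ((∑ x ∈ S' ×ˢ V, ‖A x.1 x.2‖ ^ 2 : ℝ) : ℂ) = ∑ i ∈ J, ∑ j ∈ J, Cor S V Th (ta i - ta j) := by
    have h8 : ∀ i ∈ J, ∀ j ∈ J, Cor S V Th (ta i - ta j) =
        ∑ x ∈ S' ×ˢ V, Th (x.1 + ta i) x.2 * (starRingEnd ℂ) (Th (x.1 + ta j) x.2) := by
      intro i _ j hj
      rw [Cor, v1_tr S S' (ta j) (fun p => ∑ v ∈ V, Th (p + (ta i - ta j)) v * (starRingEnd ℂ) (Th p v))
        (fun p hp => Finset.sum_eq_zero fun v _ => by rw [hTh p v hp, map_zero, mul_zero])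
        (fun p hp => hS' p hp j hj), Finset.sum_product]
      refine Finset.sum_congr rfl fun p _ => Finset.sum_congr rfl fun v _ => ?_
      rw [add_add_sub_cancel]
    rw [Complex.ofReal_sum]
    have h9 : ∀ x ∈ S' ×ˢ V, ((‖A x.1 x.2‖ ^ 2 : ℝ) : ℂ) =
        ∑ i ∈ J, ∑ j ∈ J, Th (x.1 + ta i) x.2 * (starRingEnd ℂ) (Th (x.1 + ta j) x.2) := by
      intro x _
      rw [v1_sq, hA, map_sum, Finset.sum_mul_sum]
    rw [Finset.sum_congr rfl h9, Finset.sum_comm]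
    refine Finset.sum_congr rfl fun i hi => ?_
    rw [Finset.sum_comm]
    refine Finset.sum_congr rfl fun j hj => ?_
    rw [h8 i hi j hj]
  have h10 : ∑ x ∈ S' ×ˢ V, ‖A x.1 x.2‖ ^ 2 ≤ ∑ i ∈ J, ∑ j ∈ J, ‖Cor S V Th (ta i - ta j)‖ := by
    have h11 : ∑ x ∈ S' ×ˢ V, ‖A x.1 x.2‖ ^ 2 = ‖((∑ x ∈ S' ×ˢ V, ‖A x.1 x.2‖ ^ 2 : ℝ) : ℂ)‖ := by
      rw [Complex.norm_real, Real.norm_of_nonneg (Finset.sum_nonneg fun _ _ => by positivity)]
    rw [h11, h7]
    exact (norm_sum_le _ _).trans (Finset.sum_le_sum fun i _ => norm_sum_le _ _)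
  have h12 : 0 ≤ ∑ x ∈ S' ×ˢ V, ‖A x.1 x.2‖ ^ 2 := Finset.sum_nonneg fun _ _ => by positivity
  have h13 : 0 ≤ B := le_trans (Finset.sum_nonneg fun _ _ => by positivity) h6
  calc (J.card : ℝ) ^ 2 * ‖T‖ ^ 2 = ((J.card : ℝ) * ‖T‖) ^ 2 := by ring
    _ ≤ _ := h5
    _ ≤ B * ∑ x ∈ S' ×ˢ V, ‖A x.1 x.2‖ ^ 2 := mul_le_mul_of_nonneg_right h6 h12
    _ ≤ _ := mul_le_mul_of_nonneg_left h10 h13

end Pool.Agent.H44W
end

-- from Lib.H44W.V2
section
/-!
CHUNK V2 (M). The form TF of a near-diagonal piece in the variables (a,b), v = x - y.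
Proof. Unfold TF, pd: the cardinality is the sum over p in I1 x I2 of the indicator of q p1 p2 = x + y (Finset.card_filter,
push_cast), so TF = sum_{p} sum_{x,y in [1,n], x + y = q p1 p2} f x g y W(x - y). For fixed p (m := q p1 p2) the map
(x,y) -> x - y is a bijection from {(x,y) in [1,n]^2, x + y = m} onto the set of v in [-n,n] with m + v even and
(m+v)/2, (m-v)/2 in [1,n]; inverse v -> ((m+v)/2, (m-v)/2). In the sum over v the other v contribute 0 (parity or cut).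
Use Finset.sum_bij_ne_zero or: sum over (x,y) in the filtered product, sum_nbij' to the filtered Icc (-n) n, then
Finset.sum_filter. omega for the arithmetic (write m for the product first, generalize).
-/
namespace Pool.Agent.H44W
open Finset

theorem v2_cut_ne {n : ℕ} {f : ℤ → ℂ} {x : ℤ} (h : cut n f x ≠ 0) : 1 ≤ x ∧ x ≤ n := by
  unfold cut at h
  by_cases hx : x ∈ Icc (1:ℤ) n
  · exact Finset.mem_Icc.1 hx
  · rw [if_neg hx] at h
    exact absurd rfl h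

theorem v2_cut_eq {n : ℕ} {f : ℤ → ℂ} {x : ℤ} (h1 : 1 ≤ x) (h2 : x ≤ n) : cut n f x = f x := by
  unfold cut
  rw [if_pos (Finset.mem_Icc.2 ⟨h1, h2⟩)]

theorem v2_inner (n : ℕ) (m : ℤ) (W f g : ℤ → ℂ) :
    ∑ x ∈ Icc (1:ℤ) n, ∑ y ∈ Icc (1:ℤ) n, (if m = x + y then f x * g y * W (x - y) else 0) =
      ∑ v ∈ Icc (-(n:ℤ)) n, W v * (if Even (m + v) then cut n f ((m + v) / 2) * cut n g ((m - v) / 2) else 0) := by
  have h1 : ∀ x : ℤ, ∑ y ∈ Icc (1:ℤ) n, (if m = x + y then f x * g y * W (x - y) else 0)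
      = f x * cut n g (m - x) * W (2 * x - m) := by
    intro x
    by_cases hx : m - x ∈ Icc (1:ℤ) n
    · rw [Finset.sum_eq_single (m - x)]
      · rw [if_pos (by ring), v2_cut_eq (Finset.mem_Icc.1 hx).1 (Finset.mem_Icc.1 hx).2]
        congr 2
        ring
      · intro y _ hy
        rw [if_neg]
        intro h
        exact hy (by omega)
      · intro h
        exact absurd hx h
    · unfold cut
      rw [if_neg hx, mul_zero, zero_mul]
      refine Finset.sum_eq_zero fun y hy => ?_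
      rw [if_neg]
      intro h
      apply hx
      have : m - x = y := by omega
      rw [this]
      exact hy
  rw [Finset.sum_congr rfl fun x _ => h1 x]
  refine Finset.sum_bij_ne_zero (fun x _ _ => 2 * x - m) ?_ ?_ ?_ ?_
  · intro x hx h
    have h2 := v2_cut_ne (right_ne_zero_of_mul (left_ne_zero_of_mul h))
    have h3 := Finset.mem_Icc.1 hx
    exact Finset.mem_Icc.2 ⟨by omega, by omega⟩
  · intro x _ _ y _ _ h
    omega
  · intro v hv h
    have h2 := right_ne_zero_of_mul h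
    by_cases he : Even (m + v)
    · rw [if_pos he] at h2
      obtain ⟨c, hc⟩ := he
      have e1 : (m + v) / 2 = c := by omega
      have e2 : (m - v) / 2 = m - c := by omega
      have e3 : 2 * c - m = v := by omega
      rw [e1, e2] at h2
      have h3 := v2_cut_ne (left_ne_zero_of_mul h2)
      refine ⟨c, Finset.mem_Icc.2 h3, ?_, e3⟩
      rw [e3]
      rw [v2_cut_eq h3.1 h3.2] at h2
      exact mul_ne_zero h2 (left_ne_zero_of_mul h)
    · rw [if_neg he] at h2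
      exact absurd rfl h2
  · intro x hx _
    have h3 := Finset.mem_Icc.1 hx
    have e1 : m + (2 * x - m) = 2 * x := by ring
    have e2 : m - (2 * x - m) = 2 * (m - x) := by ring
    rw [e1, e2, if_pos (even_two_mul x), Int.mul_ediv_cancel_left _ two_ne_zero, Int.mul_ediv_cancel_left _ two_ne_zero,
      v2_cut_eq h3.1 h3.2]
    ring

theorem TF_pd (n q : ℕ) (I1 I2 : Finset ℤ) (W f g : ℤ → ℂ) :
    TF n (pd q I1 I2) W f g =
      ∑ p ∈ I1 ×ˢ I2, ∑ v ∈ Icc (-(n:ℤ)) n, W v * Th1 n q (I1 ×ˢ I2) f g p v := by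
  have h1 : ∀ p ∈ I1 ×ˢ I2, ∑ v ∈ Icc (-(n:ℤ)) n, W v * Th1 n q (I1 ×ˢ I2) f g p v
      = ∑ x ∈ Icc (1:ℤ) n, ∑ y ∈ Icc (1:ℤ) n, (if (q:ℤ) * p.1 * p.2 = x + y then f x * g y * W (x - y) else 0) := by
    intro p hp
    rw [v2_inner]
    refine Finset.sum_congr rfl fun v _ => ?_
    unfold Th1
    simp only [hp, true_and]
  rw [Finset.sum_congr rfl h1, Finset.sum_comm]
  unfold TF pd
  refine Finset.sum_congr rfl fun x _ => ?_
  rw [Finset.sum_comm]
  refine Finset.sum_congr rfl fun y _ => ?_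
  rw [← Finset.sum_filter, Finset.sum_const, nsmul_eq_mul]
  ring

end Pool.Agent.H44W
end

-- from Lib.H44W.E1
section
/-!
CHUNK E1 (S). Rules for ee.
Proof: all by unfolding ee, Complex.exp_add, Complex.norm_exp (real part of 2 pi x I is 0), Complex.exp_int_mul_two_pi_mul_I,
Complex.exp_conj. ee_orth: if l does not divide m the sum is geometric with ratio ee(m/l), which is not 1
(Complex.exp_eq_one_iff) and ratio^l = ee(m) = 1 (geom_sum / mul_neg_geom_sum); if l divides m every term is 1.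
-/
namespace Pool.Agent.H44W
open Finset

theorem norm_ee (x : ℝ) : ‖ee x‖ = 1 := by
  have h : (2 * Real.pi * x * Complex.I : ℂ) = ((2 * Real.pi * x : ℝ) : ℂ) * Complex.I := by
    push_cast; ring
  rw [ee, h, Complex.norm_exp_ofReal_mul_I]

theorem ee_add (x y : ℝ) : ee (x + y) = ee x * ee y := by
  rw [ee, ee, ee, ← Complex.exp_add]
  congr 1
  push_cast
  ring

theorem ee_neg (x : ℝ) : ee (-x) = (starRingEnd ℂ) (ee x) := by
  rw [ee, ee, ← Complex.exp_conj]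
  congr 1
  simp only [map_mul, Complex.conj_ofReal, Complex.conj_I, map_ofNat]
  push_cast
  ring

theorem ee_zero : ee 0 = 1 := by
  simp [ee]

theorem ee_int (m : ℤ) : ee m = 1 := by
  rw [ee, Complex.exp_eq_one_iff]
  exact ⟨m, by push_cast; ring⟩

theorem ee_half (m : ℤ) : ee ((m:ℝ) / 2) = if Even m then 1 else -1 := by
  by_cases h : Even m
  · rw [if_pos h]
    obtain ⟨k, rfl⟩ := h
    have : (((k + k : ℤ):ℝ) / 2) = ((k:ℤ):ℝ) := by push_cast; ring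
    rw [this, ee_int]
  · rw [if_neg h]
    obtain ⟨k, rfl⟩ := Int.not_even_iff_odd.1 h
    have : (((2 * k + 1 : ℤ):ℝ) / 2) = ((k:ℤ):ℝ) + 1 / 2 := by push_cast; ring
    rw [this, ee_add, ee_int, one_mul, ee]
    have h2 : (2 * Real.pi * ((1 / 2 : ℝ) : ℂ) * Complex.I : ℂ) = Real.pi * Complex.I := by
      push_cast; ring
    rw [h2, Complex.exp_pi_mul_I]

theorem ee_orth (l : ℕ) (hl : 0 < l) (m : ℤ) :
    ∑ k ∈ range l, ee ((k:ℝ) * m / l) = if (l:ℤ) ∣ m then (l:ℂ) else 0 := by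
  have hl' : (l:ℝ) ≠ 0 := by positivity
  have hpow : ∀ k : ℕ, ee ((k:ℝ) * m / l) = (ee ((m:ℝ) / l)) ^ k := by
    intro k
    induction k with
    | zero => simp [ee_zero]
    | succ k ih =>
      have : (((k + 1 : ℕ):ℝ) * m / l) = (k:ℝ) * m / l + (m:ℝ) / l := by push_cast; ring
      rw [this, ee_add, ih, pow_succ]
  rw [Finset.sum_congr rfl fun k _ => hpow k]
  by_cases h : (l:ℤ) ∣ m
  · rw [if_pos h]
    obtain ⟨t, rfl⟩ := h
    have h1 : (((l:ℤ) * t : ℤ):ℝ) / l = ((t:ℤ):ℝ) := by push_cast; field_simp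
    rw [h1, ee_int]
    simp
  · rw [if_neg h]
    have hne : ee ((m:ℝ) / l) ≠ 1 := by
      intro h1
      apply h
      rw [ee, Complex.exp_eq_one_iff] at h1
      obtain ⟨t, ht⟩ := h1
      refine ⟨t, ?_⟩
      have hpi : (2 * Real.pi * Complex.I : ℂ) ≠ 0 := Complex.two_pi_I_ne_zero
      have h2 : (((m:ℝ) / l : ℝ) : ℂ) = (t : ℂ) := by
        have h3 : (2 * Real.pi * Complex.I : ℂ) * (((m:ℝ) / l : ℝ) : ℂ) = (2 * Real.pi * Complex.I) * t := by
          rw [mul_comm _ (t:ℂ), ← ht]; ring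
        exact mul_left_cancel₀ hpi h3
      have h4 : ((m:ℝ) / l) = (t:ℝ) := by exact_mod_cast h2
      rw [div_eq_iff hl'] at h4
      have h5 : (m:ℝ) = ((l * t : ℤ):ℝ) := by rw [h4]; push_cast; ring
      exact_mod_cast h5
    have hp : (ee ((m:ℝ) / l)) ^ l = 1 := by
      rw [← hpow l]
      have : ((l:ℝ) * m / l) = ((m:ℤ):ℝ) := by field_simp
      rw [this, ee_int]
    have := mul_neg_geom_sum (ee ((m:ℝ) / l)) l
    rw [hp, sub_self] at this
    rcases mul_eq_zero.1 this with h1 | h1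
    · exact absurd (sub_eq_zero.1 h1).symm hne
    · exact h1

end Pool.Agent.H44W
end

-- from Lib.H44W.E2
section
/-!
CHUNK E2 (S/M). Discrete Parseval for a sparse progression and Fourier inversion on a window.
(a) parseval_prog: expand the square: the sum over k of |sum_j A j * ee(k P j / l)|^2 is the sum over j, j' of A j * conj (A j')
times sum_k ee(k P (j - j') / l) = l if l divides P (j - j'), else 0 (ee_orth). Since |P (j-j')| < l and P is not 0, only j = j'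
contributes: the total is l * sum |A j|^2 <= l * N. (use Complex.mul_conj / Complex.normSq_eq_norm_sq, finite sums commute.)
(b) inversion: G (z+w) = (1/l) sum_k (sum_w' G (z+w') ee(k w'/l)) * ee(-(k w/l)) for w < l: exchange the sums, ee_orth with
m = w' - w, and |w' - w| < l, so only w' = w contributes.
-/
namespace Pool.Agent.H44W
open Finset

theorem parseval_prog (l N : ℕ) (hl : 0 < l) (P : ℤ) (hP : P ≠ 0) (hPl : (N:ℤ) * |P| ≤ l)
    (A : ℕ → ℂ) (hA : ∀ j, ‖A j‖ ≤ 1) :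
    ∑ k ∈ range l, ‖∑ j ∈ range N, A j * ee (-((k:ℝ) * (P * j) / l))‖ ^ 2 ≤ (l:ℝ) * N := by
  have key : ∀ j j' : ℕ, ∑ k ∈ range l, ee (-((k:ℝ) * (P * j) / l)) * (starRingEnd ℂ) (ee (-((k:ℝ) * (P * j') / l))) =
      if (l:ℤ) ∣ P * ((j':ℤ) - j) then (l:ℂ) else 0 := by
    intro j j'
    rw [← ee_orth l hl]
    refine sum_congr rfl fun k _ => ?_
    rw [← ee_neg, ← ee_add]
    congr 1
    push_cast
    ring
  have hdiag : ∀ j ∈ range N, ∀ j' ∈ range N, (l:ℤ) ∣ P * ((j':ℤ) - j) → j' = j := by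
    intro j hj j' hj' hd
    rw [mem_range] at hj hj'
    by_contra hne
    have h1 : P * ((j':ℤ) - j) ≠ 0 := by
      refine mul_ne_zero hP ?_
      intro h0
      exact hne (by omega)
    have h2 := Int.le_of_dvd (abs_pos.2 h1) ((dvd_abs _ _).2 hd)
    rw [abs_mul] at h2
    have h3 : |((j':ℤ) - j)| < N := by
      rw [abs_lt]
      constructor <;> omega
    have h4 : 0 < |P| := abs_pos.2 hP
    nlinarith
  have h0 : ((∑ k ∈ range l, ‖∑ j ∈ range N, A j * ee (-((k:ℝ) * (P * j) / l))‖ ^ 2 : ℝ) : ℂ) =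
      ((∑ j ∈ range N, (l:ℝ) * ‖A j‖ ^ 2 : ℝ) : ℂ) := by
    push_cast
    have h1 : ∀ k ∈ range l, ((‖∑ j ∈ range N, A j * ee (-((k:ℝ) * (P * j) / l))‖ : ℂ)) ^ 2 =
        ∑ j ∈ range N, ∑ j' ∈ range N, A j * (starRingEnd ℂ) (A j') *
          (ee (-((k:ℝ) * (P * j) / l)) * (starRingEnd ℂ) (ee (-((k:ℝ) * (P * j') / l)))) := by
      intro k _
      rw [← Complex.mul_conj', map_sum, sum_mul_sum]
      refine sum_congr rfl fun j _ => sum_congr rfl fun j' _ => ?_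
      rw [map_mul]
      ring
    rw [sum_congr rfl h1, sum_comm]
    refine sum_congr rfl fun j hj => ?_
    rw [sum_comm]
    have h2 : ∀ j' ∈ range N, ∑ k ∈ range l, A j * (starRingEnd ℂ) (A j') *
          (ee (-((k:ℝ) * (P * j) / l)) * (starRingEnd ℂ) (ee (-((k:ℝ) * (P * j') / l)))) =
        if j' = j then (l:ℂ) * (‖A j‖ : ℂ) ^ 2 else 0 := by
      intro j' hj'
      rw [← mul_sum, key j j']
      by_cases h3 : j' = j
      · subst h3
        rw [if_pos rfl, sub_self, mul_zero, if_pos (dvd_zero _), Complex.mul_conj']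
        ring
      · rw [if_neg h3, if_neg (fun hd => h3 (hdiag j hj j' hj' hd)), mul_zero]
    rw [sum_congr rfl h2, sum_ite_eq' (range N) j, if_pos hj]
  have h1 : ∑ k ∈ range l, ‖∑ j ∈ range N, A j * ee (-((k:ℝ) * (P * j) / l))‖ ^ 2 = ∑ j ∈ range N, (l:ℝ) * ‖A j‖ ^ 2 := by
    exact_mod_cast h0
  rw [h1]
  have h2 : ∀ j ∈ range N, (l:ℝ) * ‖A j‖ ^ 2 ≤ (l:ℝ) := by
    intro j _
    have h3 : ‖A j‖ ^ 2 ≤ 1 := pow_le_one₀ (norm_nonneg _) (hA j)
    have h4 : (0:ℝ) ≤ l := Nat.cast_nonneg l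
    nlinarith
  refine (sum_le_sum h2).trans ?_
  rw [sum_const, card_range, nsmul_eq_mul, mul_comm]

theorem inversion (l : ℕ) (hl : 0 < l) (G : ℤ → ℂ) (z : ℤ) (w : ℤ) (h0 : 0 ≤ w) (hw : w < l) :
    G (z + w) = (1 / (l:ℂ)) * ∑ k ∈ range l,
      (∑ w' ∈ range l, G (z + w') * ee ((k:ℝ) * w' / l)) * ee (-((k:ℝ) * w / l)) := by
  have hl0 : (l:ℂ) ≠ 0 := Nat.cast_ne_zero.2 hl.ne'
  obtain ⟨w₀, rfl⟩ := Int.eq_ofNat_of_zero_le h0
  have hw₀ : w₀ < l := by exact_mod_cast hw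
  have h1 : ∑ k ∈ range l, (∑ w' ∈ range l, G (z + w') * ee ((k:ℝ) * w' / l)) * ee (-((k:ℝ) * ((w₀:ℤ):ℝ) / l)) =
      ∑ w' ∈ range l, G (z + w') * ∑ k ∈ range l, ee ((k:ℝ) * (((w':ℤ) - (w₀:ℤ) : ℤ) : ℝ) / l) := by
    have h2 : ∀ k ∈ range l, (∑ w' ∈ range l, G (z + w') * ee ((k:ℝ) * w' / l)) * ee (-((k:ℝ) * ((w₀:ℤ):ℝ) / l)) =
        ∑ w' ∈ range l, G (z + w') * ee ((k:ℝ) * (((w':ℤ) - (w₀:ℤ) : ℤ) : ℝ) / l) := by
      intro k _
      rw [sum_mul]
      refine sum_congr rfl fun w' _ => ?_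
      rw [mul_assoc, ← ee_add]
      congr 2
      push_cast
      ring
    rw [sum_congr rfl h2, sum_comm]
    exact sum_congr rfl fun w' _ => by rw [mul_sum]
  rw [h1]
  have h3 : ∀ w' ∈ range l, G (z + w') * ∑ k ∈ range l, ee ((k:ℝ) * (((w':ℤ) - (w₀:ℤ) : ℤ) : ℝ) / l) =
      if w' = w₀ then (l:ℂ) * G (z + w₀) else 0 := by
    intro w' hw'
    rw [mem_range] at hw'
    rw [ee_orth l hl]
    by_cases h4 : w' = w₀
    · subst h4
      rw [if_pos rfl, sub_self, if_pos (dvd_zero _), mul_comm]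
    · rw [if_neg h4, if_neg, mul_zero]
      intro hd
      have h5 : (w':ℤ) - w₀ ≠ 0 := by
        intro h6
        exact h4 (by omega)
      have h6 := Int.le_of_dvd (abs_pos.2 h5) ((dvd_abs _ _).2 hd)
      have h7 : |((w':ℤ) - w₀)| < l := by
        rw [abs_lt]
        constructor <;> omega
      omega
  rw [sum_congr rfl h3, sum_ite_eq' (range l) w₀, if_pos (mem_range.2 hw₀)]
  field_simp

end Pool.Agent.H44W
end

-- from Lib.H44W.E3
section
/-!
CHUNK E3 (M). The local U^2 step (one line of Parseval).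
Put X = N (|P| + |P'|), so 2 X <= l. For i, j < N: |P j + P' i| <= (N-1)(|P|+|P'|) < X, so w_ij := X + P j + P' i lies in
[0, l), and z0 + P j + P' i = (z0 - X) + w_ij. Insert inversion (E2) with z = z0 - X:
sum_ij G1 j G2 i G(z0 + P j + P' i)
 = (1/l) sum_k Ghat(k) * ee(-(k X / l)) * (sum_j G1 j ee(-(k (P j)/l))) * (sum_i G2 i ee(-(k (P' i)/l))),
with |Ghat(k)| <= amp l G z for k < l (le_ciSup, the range over Fin l is finite hence bounded: Set.finite_range .. bddAbove).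
Cauchy-Schwarz over k (Finset.sum_mul_sq_le_sq_mul_sq or inner_mul_le_norm_mul_norm) and parseval_prog for both
factors (N |P| <= l and N |P'| <= l): the absolute value is <= (1/l) * amp * sqrt(l N) * sqrt(l N) = N * amp.
amp_nonneg: Real.iSup_nonneg. amp_le: for k < l the k-th coefficient is at most amp.
-/
namespace Pool.Agent.H44W
open Finset

theorem amp_nonneg (l : ℕ) (G : ℤ → ℂ) (z : ℤ) : 0 ≤ amp l G z :=
  Real.iSup_nonneg fun _ => norm_nonneg _

theorem le_amp (l : ℕ) (G : ℤ → ℂ) (z : ℤ) (k : ℕ) (hk : k < l) :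
    ‖∑ w ∈ range l, G (z + w) * ee ((k:ℝ) * w / l)‖ ≤ amp l G z :=
  le_ciSup (f := fun k : Fin l => ‖∑ w ∈ range l, G (z + w) * ee ((k:ℝ) * w / l)‖)
    (Set.finite_range _).bddAbove ⟨k, hk⟩

theorem e3_bound (N : ℕ) (P Q : ℤ) (hP : P ≠ 0) (i j : ℕ) (hi : i < N) (hj : j < N) :
    |P * j + Q * i| < (N:ℤ) * (|P| + |Q|) := by
  have h1 : |P * j| ≤ |P| * (N - 1) := by
    rw [abs_mul, abs_of_nonneg (Int.natCast_nonneg j)]
    exact mul_le_mul_of_nonneg_left (by omega) (abs_nonneg _)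
  have h2 : |Q * i| ≤ |Q| * (N - 1) := by
    rw [abs_mul, abs_of_nonneg (Int.natCast_nonneg i)]
    exact mul_le_mul_of_nonneg_left (by omega) (abs_nonneg _)
  have h3 : 0 < |P| := abs_pos.2 hP
  have h4 : 0 ≤ |Q| := abs_nonneg _
  have h5 := abs_add_le (P * j) (Q * i)
  nlinarith

theorem local_u2 (l N : ℕ) (hN : 0 < N) (P Q : ℤ) (hP : P ≠ 0) (hQ : Q ≠ 0)
    (hl : 2 * ((N:ℤ) * (|P| + |Q|)) ≤ l) (G : ℤ → ℂ) (G1 G2 : ℕ → ℂ) (h1 : ∀ j, ‖G1 j‖ ≤ 1)
    (h2 : ∀ j, ‖G2 j‖ ≤ 1) (z : ℤ) :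
    ‖∑ i ∈ range N, ∑ j ∈ range N, G1 j * G2 i * G (z + P * j + Q * i)‖ ≤
      (N:ℝ) * amp l G (z - (N:ℤ) * (|P| + |Q|)) := by
  have hP0 : 0 < |P| := abs_pos.2 hP
  have hQ0 : 0 < |Q| := abs_pos.2 hQ
  have hN0 : (0:ℤ) < N := by exact_mod_cast hN
  have hNP : 0 < (N:ℤ) * |P| := mul_pos hN0 hP0
  have hNQ : 0 < (N:ℤ) * |Q| := mul_pos hN0 hQ0
  have hl' : 2 * ((N:ℤ) * |P| + (N:ℤ) * |Q|) ≤ l := by
    rw [← mul_add]
    exact hl
  have hlz : (0:ℤ) < l := by linarith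
  have hl0 : 0 < l := by exact_mod_cast hlz
  have hlR : (0:ℝ) < l := by exact_mod_cast hl0
  have hbd := e3_bound N P Q hP
  generalize hX : (N:ℤ) * (|P| + |Q|) = X at *
  set A : ℕ → ℂ := fun k => ∑ j ∈ range N, G1 j * ee (-((k:ℝ) * (P * j) / l)) with hA
  set B : ℕ → ℂ := fun k => ∑ i ∈ range N, G2 i * ee (-((k:ℝ) * (Q * i) / l)) with hB
  set H : ℕ → ℂ := fun k => ∑ w ∈ range l, G (z - X + w) * ee ((k:ℝ) * w / l) with hH
  have e1 : ∀ i ∈ range N, ∀ j ∈ range N, G1 j * G2 i * G (z + P * j + Q * i)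
      = (1 / (l:ℂ)) * ∑ k ∈ range l, H k * ee (-((k:ℝ) * X / l)) *
        ((G1 j * ee (-((k:ℝ) * (P * j) / l))) * (G2 i * ee (-((k:ℝ) * (Q * i) / l)))) := by
    intro i hi j hj
    have h3 := abs_lt.1 (hbd i j (Finset.mem_range.1 hi) (Finset.mem_range.1 hj))
    have h4 := inversion l hl0 G (z - X) (X + P * j + Q * i) (by linarith) (by linarith)
    have e2 : z + P * j + Q * i = z - X + (X + P * j + Q * i) := by ring
    rw [e2, h4, ← mul_assoc, mul_comm (G1 j * G2 i) (1 / (l:ℂ)), mul_assoc, Finset.mul_sum]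
    congr 1
    refine Finset.sum_congr rfl fun k _ => ?_
    have e3 : -((k:ℝ) * ((X + P * j + Q * i : ℤ) : ℝ) / l)
        = -((k:ℝ) * X / l) + (-((k:ℝ) * (P * j) / l) + -((k:ℝ) * (Q * i) / l)) := by
      push_cast
      ring
    rw [e3, ee_add, ee_add]
    ring
  have e4 : ∑ i ∈ range N, ∑ j ∈ range N, G1 j * G2 i * G (z + P * j + Q * i)
      = (1 / (l:ℂ)) * ∑ k ∈ range l, H k * ee (-((k:ℝ) * X / l)) * (A k * B k) := by
    rw [Finset.sum_congr rfl fun i hi => Finset.sum_congr rfl fun j hj => e1 i hi j hj]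
    simp only [← Finset.mul_sum]
    congr 1
    rw [Finset.sum_congr rfl fun i _ => Finset.sum_comm, Finset.sum_comm]
    refine Finset.sum_congr rfl fun k _ => ?_
    simp only [← Finset.mul_sum, ← Finset.sum_mul]
    rfl
  have e5 : ∀ k ∈ range l, ‖H k * ee (-((k:ℝ) * X / l)) * (A k * B k)‖
      ≤ amp l G (z - X) * ((‖A k‖ ^ 2 + ‖B k‖ ^ 2) / 2) := by
    intro k hk
    rw [norm_mul, norm_mul, norm_ee, mul_one, norm_mul]
    have h3 : ‖H k‖ ≤ amp l G (z - X) := le_amp l G (z - X) k (Finset.mem_range.1 hk)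
    have h4 : ‖A k‖ * ‖B k‖ ≤ (‖A k‖ ^ 2 + ‖B k‖ ^ 2) / 2 := by nlinarith [sq_nonneg (‖A k‖ - ‖B k‖)]
    exact mul_le_mul h3 h4 (mul_nonneg (norm_nonneg _) (norm_nonneg _)) (amp_nonneg _ _ _)
  have hpA : ∑ k ∈ range l, ‖A k‖ ^ 2 ≤ (l:ℝ) * N := parseval_prog l N hl0 P hP (by linarith) G1 h1
  have hpB : ∑ k ∈ range l, ‖B k‖ ^ 2 ≤ (l:ℝ) * N := parseval_prog l N hl0 Q hQ (by linarith) G2 h2
  have e6 : ∑ k ∈ range l, (‖A k‖ ^ 2 + ‖B k‖ ^ 2) / 2 ≤ (l:ℝ) * N := by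
    rw [← Finset.sum_div, Finset.sum_add_distrib]
    linarith
  rw [e4, norm_mul, norm_div, norm_one, Complex.norm_natCast]
  have e7 : ‖∑ k ∈ range l, H k * ee (-((k:ℝ) * X / l)) * (A k * B k)‖ ≤ amp l G (z - X) * ((l:ℝ) * N) := by
    refine (norm_sum_le _ _).trans ((Finset.sum_le_sum e5).trans ?_)
    rw [← Finset.mul_sum]
    exact mul_le_mul_of_nonneg_left e6 (amp_nonneg _ _ _)
  calc (1 / (l:ℝ)) * ‖∑ k ∈ range l, H k * ee (-((k:ℝ) * X / l)) * (A k * B k)‖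
      ≤ (1 / (l:ℝ)) * (amp l G (z - X) * ((l:ℝ) * N)) := mul_le_mul_of_nonneg_left e7 (by positivity)
    _ = (N:ℝ) * amp l G (z - X) := by
      field_simp

end Pool.Agent.H44W
end

-- from Lib.H44W.E4
section
/-!
CHUNK E4 (M). From windows at all positions to one window-linear function (pigeonhole over residue classes).
Let G = cut n g, hypothesis hm: no WL l function w has |sum_{y in [1,n]} g y * w y| > m. Claim: the sum of amp l G z over n
consecutive integers z = y + ka, y in [1,n], is at most l * m.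
Proof. For every z choose k_z < l with amp l G z = |sum_w G(z+w) ee(k_z w / l)| (the supremum over the finite nonempty type
Fin l is attained: exists_eq_ciSup_of_finite) and a phase c_z, |c_z| <= 1, with c_z * sum_w G(z+w) ee(k_z w/l) = amp l G z
(c_z = conj(S)/|S|, or 0 if S = 0). For r in range l put
 w_r y := (if z in Z then c_z * ee(-(th z)) else 0) * ee(th_z y), where j = (y - r)/l (floor), z = r + j l, th_z = k_z / l,
 Z = {y + ka : y in [1,n]}; that is, w_r (z + w) = c_z ee(k_z w/l) on the window [z, z+l), z = r mod l. It is WL l with this r: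
 ep j = if r + j l in Z then c_z * ee(-(k_z/l * z)) else 0, th j = k_z/l.
Then sum_{y in [1,n]} g y * w_r y = sum over all y of G y * w_r y = sum over z in Z, z = r mod l, of
 sum_{w < l} G(z+w) c_z ee(k_z w / l) = sum over those z of amp l G z
(only windows z with z in Z have a nonzero coefficient; each y lies in exactly one window). Hence for each r the sum of amp l G z
over z in Z, z = r mod l is <= m, and summing over r in range l gives the claim (Finset.sum_fiberwise / sum over z of the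
residue z mod l).
-/
namespace Pool.Agent.H44W
open Finset

theorem e4_phase (l : ℕ) (hl : 0 < l) (G : ℤ → ℂ) (z : ℤ) : ∃ (k : ℕ) (c : ℂ), ‖c‖ ≤ 1 ∧
    c * ∑ w ∈ range l, G (z + w) * ee ((k:ℝ) * w / l) = ((amp l G z : ℝ) : ℂ) := by
  have hne : Nonempty (Fin l) := ⟨⟨0, hl⟩⟩
  obtain ⟨k, hk⟩ := exists_eq_ciSup_of_finite
    (f := fun k : Fin l => ‖∑ w ∈ range l, G (z + w) * ee (((k : ℕ):ℝ) * w / l)‖)
  obtain ⟨S, hS⟩ : ∃ S : ℂ, S = ∑ w ∈ range l, G (z + w) * ee (((k : ℕ):ℝ) * w / l) := ⟨_, rfl⟩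
  have hamp : amp l G z = ‖S‖ := by
    rw [hS]
    exact hk.symm
  refine ⟨k, (‖S‖ : ℂ) / S, ?_, ?_⟩
  · rw [norm_div, Complex.norm_real, norm_norm]
    exact div_self_le_one _
  · rw [← hS, hamp]
    by_cases h0 : S = 0
    · rw [h0]
      simp
    · exact div_mul_cancel₀ _ h0

theorem e4_win (l n : ℕ) (g F : ℤ → ℂ) (z : ℤ) :
    ∑ y ∈ Icc (1:ℤ) n, (if z ≤ y ∧ y < z + l then g y * F y else 0) =
      ∑ w ∈ range l, cut n g (z + w) * F (z + w) := by
  classical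
  have h1 : ∑ w ∈ range l, cut n g (z + w) * F (z + w) =
      ∑ y ∈ (range l).image (fun w : ℕ => z + (w : ℤ)), cut n g y * F y := by
    rw [Finset.sum_image]
    intro a _ b _ hab
    have : z + (a : ℤ) = z + (b : ℤ) := hab
    omega
  have h2 : (range l).image (fun w : ℕ => z + (w : ℤ)) = Ico z (z + l) := by
    ext y
    rw [Finset.mem_image, Finset.mem_Ico]
    constructor
    · rintro ⟨w, hw, rfl⟩
      rw [Finset.mem_range] at hw
      omega
    · rintro ⟨h3, h4⟩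
      exact ⟨(y - z).toNat, by rw [Finset.mem_range]; omega, by omega⟩
  have h3 : ∀ y, cut n g y * F y = if y ∈ Icc (1:ℤ) n then g y * F y else 0 := by
    intro y
    unfold cut
    split_ifs
    · rfl
    · exact zero_mul _
  rw [h1, h2, Finset.sum_congr rfl (fun y _ => h3 y), ← Finset.sum_filter, ← Finset.sum_filter]
  refine Finset.sum_congr ?_ fun y _ => rfl
  ext y
  rw [Finset.mem_filter, Finset.mem_filter, Finset.mem_Ico]
  exact and_comm

theorem e4_key (l n : ℕ) (hl : 0 < l) (g : ℤ → ℂ) (m : ℝ)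
    (hm : ∀ w : ℤ → ℂ, WL l w → ‖∑ y ∈ Icc (1:ℤ) n, g y * w y‖ ≤ m) (Z : Finset ℤ) (r : ℤ) :
    ∑ z ∈ Z.filter (fun z => (l:ℤ) ∣ z - r), amp l (cut n g) z ≤ m := by
  classical
  choose k c hc hck using e4_phase l hl (cut n g)
  have hl' : (0:ℤ) < l := by exact_mod_cast hl
  have hlR : (l:ℝ) ≠ 0 := by exact_mod_cast hl.ne'
  obtain ⟨w, hw⟩ : ∃ w : ℤ → ℂ, ∀ y, w y = (if r + ((y - r) / l) * l ∈ Z then
      c (r + ((y - r) / l) * l) * ee (-((k (r + ((y - r) / l) * l) : ℝ) / l * ((r + ((y - r) / l) * l : ℤ) : ℝ)))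
      else 0) * ee ((k (r + ((y - r) / l) * l) : ℝ) / l * y) := ⟨_, fun y => rfl⟩
  have hWL : WL l w := by
    refine ⟨r, fun j => if r + j * l ∈ Z then
      c (r + j * l) * ee (-((k (r + j * l) : ℝ) / l * ((r + j * l : ℤ) : ℝ))) else 0,
      fun j => (k (r + j * l) : ℝ) / l, fun j => ?_, fun y => hw y⟩
    dsimp only
    split_ifs
    · rw [norm_mul, norm_ee, mul_one]
      exact hc _
    · rw [norm_zero]
      exact zero_le_one
  have hpt : ∀ y, g y * w y = ∑ z ∈ Z.filter (fun z => (l:ℤ) ∣ z - r),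
      if z ≤ y ∧ y < z + l then g y * (c z * ee ((k z : ℝ) * ((y - z : ℤ) : ℝ) / l)) else 0 := by
    intro y
    obtain ⟨z₀, hz₀⟩ : ∃ z₀ : ℤ, z₀ = r + ((y - r) / l) * l := ⟨_, rfl⟩
    have h1 : z₀ ≤ y ∧ y < z₀ + l := by
      have h2 := Int.emod_add_mul_ediv (y - r) l
      have h3 := Int.emod_nonneg (y - r) hl'.ne'
      have h4 := Int.emod_lt_of_pos (y - r) hl'
      rw [hz₀]
      constructor <;> nlinarith
    have h2 : (l:ℤ) ∣ z₀ - r := by
      rw [hz₀]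
      exact ⟨(y - r) / l, by ring⟩
    have h3 : ∀ z ∈ Z.filter (fun z => (l:ℤ) ∣ z - r),
        (if z ≤ y ∧ y < z + l then g y * (c z * ee ((k z : ℝ) * ((y - z : ℤ) : ℝ) / l)) else 0) =
        if z = z₀ then g y * (c z₀ * ee ((k z₀ : ℝ) * ((y - z₀ : ℤ) : ℝ) / l)) else 0 := by
      intro z hz
      have h4 := (Finset.mem_filter.1 hz).2
      by_cases h5 : z = z₀
      · rw [if_pos h5, h5, if_pos h1]
      · rw [if_neg h5, if_neg]
        rintro ⟨h6, h7⟩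
        apply h5
        have h8 : (l:ℤ) ∣ z - z₀ := by
          have := dvd_sub h4 h2
          rwa [sub_sub_sub_cancel_right] at this
        obtain ⟨d, hd⟩ := h8
        have h9 : -(l:ℤ) < z - z₀ := by linarith [h1.2]
        have h10 : z - z₀ < l := by linarith [h1.1]
        have h11 : d = 0 := by
          rw [hd] at h9 h10
          have h12 : -1 < d := by nlinarith
          have h13 : d < 1 := by nlinarith
          omega
        rw [h11, mul_zero] at hd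
        linarith
    rw [Finset.sum_congr rfl h3, Finset.sum_ite_eq', hw y, ← hz₀]
    by_cases h4 : z₀ ∈ Z
    · rw [if_pos h4, if_pos (Finset.mem_filter.2 ⟨h4, h2⟩), mul_assoc (c z₀), ← ee_add]
      congr 3
      push_cast
      field_simp
      ring
    · rw [if_neg h4, if_neg (fun h => h4 (Finset.mem_filter.1 h).1), zero_mul, mul_zero]
  have hsum : ∑ y ∈ Icc (1:ℤ) n, g y * w y =
      ((∑ z ∈ Z.filter (fun z => (l:ℤ) ∣ z - r), amp l (cut n g) z : ℝ) : ℂ) := by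
    rw [Finset.sum_congr rfl (fun y _ => hpt y), Finset.sum_comm, Complex.ofReal_sum]
    refine Finset.sum_congr rfl fun z _ => ?_
    rw [e4_win l n g (fun y => c z * ee ((k z : ℝ) * ((y - z : ℤ) : ℝ) / l)) z, ← hck z, Finset.mul_sum]
    refine Finset.sum_congr rfl fun u _ => ?_
    have e : z + (u:ℤ) - z = (u:ℤ) := by ring
    rw [e, Int.cast_natCast]
    ring
  have h1 := hm w hWL
  rw [hsum, Complex.norm_real, Real.norm_of_nonneg (Finset.sum_nonneg fun z _ => amp_nonneg l _ z)] at h1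
  exact h1

theorem amp_sum_le (l n : ℕ) (hl : 0 < l) (g : ℤ → ℂ) (m : ℝ)
    (hm : ∀ w : ℤ → ℂ, WL l w → ‖∑ y ∈ Icc (1:ℤ) n, g y * w y‖ ≤ m) (ka : ℤ) :
    ∑ y ∈ Icc (1:ℤ) n, amp l (cut n g) (y + ka) ≤ (l:ℝ) * m := by
  classical
  have hl' : (0:ℤ) < l := by exact_mod_cast hl
  obtain ⟨Z, hZ⟩ : ∃ Z : Finset ℤ, Z = (Icc (1:ℤ) n).image (fun y => y + ka) := ⟨_, rfl⟩
  have h1 : ∑ y ∈ Icc (1:ℤ) n, amp l (cut n g) (y + ka) = ∑ z ∈ Z, amp l (cut n g) z := by
    rw [hZ, Finset.sum_image]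
    intro a _ b _ hab
    have : a + ka = b + ka := hab
    omega
  have h2 : ∀ z ∈ Z, (z % l).toNat ∈ range l := by
    intro z _
    rw [Finset.mem_range]
    have h3 := Int.emod_nonneg z hl'.ne'
    have h4 := Int.emod_lt_of_pos z hl'
    omega
  rw [h1, ← Finset.sum_fiberwise_of_maps_to h2]
  have h3 : ∀ r ∈ range l, ∑ z ∈ Z.filter (fun z : ℤ => (z % (l:ℤ)).toNat = r), amp l (cut n g) z ≤ m := by
    intro r hr
    have h4 : Z.filter (fun z : ℤ => (z % (l:ℤ)).toNat = r) = Z.filter (fun z => (l:ℤ) ∣ z - r) := by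
      refine Finset.filter_congr fun z _ => ?_
      have h5 := Int.emod_nonneg z hl'.ne'
      have h6 : (r:ℤ) < l := by exact_mod_cast Finset.mem_range.1 hr
      rw [← Int.emod_emod_of_dvd z (dvd_refl (l:ℤ))] at h5
      have h7 : (z % l).toNat = r ↔ z % l = r := by
        have := Int.emod_nonneg z hl'.ne'
        omega
      rw [h7]
      constructor
      · intro h8
        have h9 := Int.emod_add_mul_ediv z l
        rw [h8] at h9
        exact ⟨z / l, by linarith⟩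
      · rintro ⟨d, hd⟩
        have h8 : z = r + l * d := by linarith
        rw [h8, Int.add_mul_emod_self_left]
        exact Int.emod_eq_of_lt (Int.natCast_nonneg r) h6
    rw [h4]
    exact e4_key l n hl g m hm Z r
  refine (Finset.sum_le_sum h3).trans ?_
  rw [Finset.sum_const, Finset.card_range, nsmul_eq_mul]

end Pool.Agent.H44W
end

-- from Lib.H44W.E5
section
/-!
CHUNK E5 (S/M). The fourfold correlation summed over two independent progressions.
CG n G (D + P j) (E + Q i) = sum_{y in [1,n]} G y * conj G(y + D + P j) * conj G(y + E + Q i) * G(y + D + E + P j + Q i).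
Exchange sums: the sum over i, j is sum_y G y * [sum_ij G1 j * G2 i * G(z_y + P j + Q i)] with z_y = y + D + E,
G1 j = conj G(y + D + P j), G2 i = conj G(y + E + Q i), all of norm <= 1 (G = cut n g, norm_cut below). local_u2 (E3) gives
<= N amp l G (y + D + E - X), X = N(|P|+|Q|); sum over y in [1,n] with amp_sum_le (E4), ka = D + E - X: <= N * (l * m).
-/
namespace Pool.Agent.H44W
open Finset

theorem norm_cut (n : ℕ) (f : ℤ → ℂ) (hf : ∀ x, ‖f x‖ ≤ 1) (x : ℤ) : ‖cut n f x‖ ≤ 1 := by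
  unfold cut
  split_ifs
  · exact hf x
  · rw [norm_zero]
    exact zero_le_one

theorem CG_prog (l n N : ℕ) (hN : 0 < N) (P Q : ℤ) (hP : P ≠ 0) (hQ : Q ≠ 0)
    (hl : 2 * ((N:ℤ) * (|P| + |Q|)) ≤ l) (g : ℤ → ℂ) (hg : ∀ x, ‖g x‖ ≤ 1) (m : ℝ)
    (hm : ∀ w : ℤ → ℂ, WL l w → ‖∑ y ∈ Icc (1:ℤ) n, g y * w y‖ ≤ m) (D E : ℤ) :
    ‖∑ i ∈ range N, ∑ j ∈ range N, CG n (cut n g) (D + P * j) (E + Q * i)‖ ≤ (N:ℝ) * (l * m) := by
  have hl0 : 0 < l := by
    have hN' : (1:ℤ) ≤ N := by exact_mod_cast hN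
    have hP' : 1 ≤ |P| := Int.one_le_abs hP
    have hQ' : 1 ≤ |Q| := Int.one_le_abs hQ
    have h1 : (1:ℤ) * 2 ≤ (N:ℤ) * (|P| + |Q|) :=
      mul_le_mul hN' (by linarith) (by norm_num) (by linarith)
    have h2 : (0:ℤ) < l := by linarith
    exact_mod_cast h2
  obtain ⟨G, hG⟩ : ∃ G, G = cut n g := ⟨_, rfl⟩
  have hG1 : ∀ x, ‖G x‖ ≤ 1 := by
    intro x
    rw [hG]
    exact norm_cut n g hg x
  have hconj : ∀ x, ‖(starRingEnd ℂ) (G x)‖ ≤ 1 := by
    intro x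
    rw [RCLike.norm_conj]
    exact hG1 x
  have hamp := amp_sum_le l n hl0 g m hm (D + E - (N:ℤ) * (|P| + |Q|))
  rw [← hG] at hamp ⊢
  have e1 : ∑ i ∈ range N, ∑ j ∈ range N, CG n G (D + P * j) (E + Q * i) =
      ∑ y ∈ Icc (1:ℤ) n, G y * ∑ i ∈ range N, ∑ j ∈ range N,
        (starRingEnd ℂ) (G (y + (D + P * j))) * (starRingEnd ℂ) (G (y + (E + Q * i))) *
          G ((y + D + E) + P * j + Q * i) := by
    unfold CG
    have e2 : ∀ i ∈ range N, ∑ j ∈ range N, ∑ y ∈ Icc (1:ℤ) n,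
        G y * (starRingEnd ℂ) (G (y + (D + P * j))) * (starRingEnd ℂ) (G (y + (E + Q * i))) *
          G (y + (D + P * j) + (E + Q * i)) =
        ∑ y ∈ Icc (1:ℤ) n, ∑ j ∈ range N, G y *
          ((starRingEnd ℂ) (G (y + (D + P * j))) * (starRingEnd ℂ) (G (y + (E + Q * i))) *
          G ((y + D + E) + P * j + Q * i)) := by
      intro i _
      rw [Finset.sum_comm]
      refine Finset.sum_congr rfl fun y _ => Finset.sum_congr rfl fun j _ => ?_
      have e3 : y + (D + P * j) + (E + Q * i) = (y + D + E) + P * j + Q * i := by ring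
      rw [e3]
      ring
    rw [Finset.sum_congr rfl e2, Finset.sum_comm]
    refine Finset.sum_congr rfl fun y _ => ?_
    rw [Finset.mul_sum]
    refine Finset.sum_congr rfl fun i _ => ?_
    rw [Finset.mul_sum]
  rw [e1]
  refine (norm_sum_le _ _).trans ?_
  have h1 : ∀ y ∈ Icc (1:ℤ) n, ‖G y * ∑ i ∈ range N, ∑ j ∈ range N,
        (starRingEnd ℂ) (G (y + (D + P * j))) * (starRingEnd ℂ) (G (y + (E + Q * i))) *
          G ((y + D + E) + P * j + Q * i)‖ ≤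
      (N:ℝ) * amp l G (y + (D + E - (N:ℤ) * (|P| + |Q|))) := by
    intro y _
    rw [norm_mul]
    have h2 := local_u2 l N hN P Q hP hQ hl G (fun j => (starRingEnd ℂ) (G (y + (D + P * j))))
      (fun i => (starRingEnd ℂ) (G (y + (E + Q * i)))) (fun j => hconj _) (fun i => hconj _)
      (y + D + E)
    have e4 : y + D + E - (N:ℤ) * (|P| + |Q|) = y + (D + E - (N:ℤ) * (|P| + |Q|)) := by ring
    rw [e4] at h2
    calc ‖G y‖ * _ ≤ 1 * ((N:ℝ) * amp l G (y + (D + E - (N:ℤ) * (|P| + |Q|)))) :=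
          mul_le_mul (hG1 y) h2 (norm_nonneg _) zero_le_one
      _ = _ := one_mul _
  refine (Finset.sum_le_sum h1).trans ?_
  rw [← Finset.mul_sum]
  exact mul_le_mul_of_nonneg_left hamp (Nat.cast_nonneg N)

end Pool.Agent.H44W
end

-- from Lib.H44W.V3
section
/-!
CHUNK V3 (M). First van der Corput step, shifts (2s, 2t), 0 <= s, t < L.
Apply vdc with S = bx A1 A1' A2 A2' (S = Ico x Ico by unfolding bx), S' = bx (A1 - 2L) A1' (A2 - 2L) A2', V = Icc (-n) n,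
J = range L x range L, ta (s,t) = (2s, 2t), Th = Th1 .. (zero off S by definition), w p v = W v.
B: sum over p in S', v in V of |W v|^2 <= card S' * (2n+1) <= (A1' - A1 + 2L)(A2' - A2 + 2L)(2n+1) <= (2 A1)(2 A2)(3n)
= 12 n A1 A2 (A1' <= 2 A1, 2L <= A1, 1 <= n; if A1' < A1 - 2L the box is empty and the bound is trivial: card of Ico is
toNat of the difference; use card <= 2 A1 and card <= 2 A2 for the two factors).
The double sum over J x J: for pairs (s,t),(s',t') with s = s' or t = t' (at most 2 L^3 pairs) use the trivial bound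
|Cor| <= card S * (2n+1) <= A1 A2 * 3n (norm_Th1_le, card S <= A1 A2); for the others ta i - ta j = (2(s-s'), 2(t-t')) with
0 < |s - s'| < L etc., so |Cor| <= M by hypothesis. Total <= 2 L^3 * 3 n A1 A2 + L^4 M. Divide by L^4 (card J = L^2).
-/
namespace Pool.Agent.H44W
open Finset

theorem norm_Th1_le (n q : ℕ) (S : Finset (ℤ × ℤ)) (f g : ℤ → ℂ) (hf : ∀ x, ‖f x‖ ≤ 1)
    (hg : ∀ x, ‖g x‖ ≤ 1) (p : ℤ × ℤ) (v : ℤ) : ‖Th1 n q S f g p v‖ ≤ 1 := by
  unfold Th1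
  split_ifs
  · rw [norm_mul]
    exact mul_le_one₀ (norm_cut n f hf _) (norm_nonneg _) (norm_cut n g hg _)
  · rw [norm_zero]
    exact zero_le_one

theorem v3_cor (n q : ℕ) (A1 A2 B1 B2 : ℕ) (hn : 1 ≤ n) (hB1 : B1 ≤ 2 * A1) (hB2 : B2 ≤ 2 * A2)
    (f g : ℤ → ℂ) (hf : ∀ x, ‖f x‖ ≤ 1) (hg : ∀ x, ‖g x‖ ≤ 1) (t : ℤ × ℤ) :
    ‖Cor (bx A1 B1 A2 B2) (Icc (-(n:ℤ)) n) (Th1 n q (bx A1 B1 A2 B2) f g) t‖ ≤ 3 * n * A1 * A2 := by
  unfold Cor
  refine (norm_sum_le _ _).trans ?_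
  have h1 : ∀ p ∈ bx (A1:ℤ) B1 A2 B2, ‖∑ v ∈ Icc (-(n:ℤ)) n,
      Th1 n q (bx A1 B1 A2 B2) f g (p + t) v *
        (starRingEnd ℂ) (Th1 n q (bx A1 B1 A2 B2) f g p v)‖ ≤ 3 * n := by
    intro p _
    refine (norm_sum_le _ _).trans ((Finset.sum_le_sum (g := fun _ => (1:ℝ)) fun v _ => ?_).trans ?_)
    · rw [norm_mul, RCLike.norm_conj]
      exact mul_le_one₀ (norm_Th1_le n q _ f g hf hg _ _) (norm_nonneg _)
        (norm_Th1_le n q _ f g hf hg _ _)
    · rw [Finset.sum_const, nsmul_eq_mul, mul_one]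
      have h2 : (Icc (-(n:ℤ)) n).card ≤ 3 * n := by
        rw [Int.card_Icc]
        omega
      exact_mod_cast h2
  refine (Finset.sum_le_sum h1).trans ?_
  rw [Finset.sum_const, nsmul_eq_mul]
  have hcard : ((bx (A1:ℤ) B1 A2 B2).card : ℝ) ≤ (A1:ℝ) * A2 := by
    have h3 : (bx (A1:ℤ) B1 A2 B2).card ≤ A1 * A2 := by
      unfold bx
      rw [Finset.card_product, Int.card_Ico, Int.card_Ico]
      exact Nat.mul_le_mul (by omega) (by omega)
    exact_mod_cast h3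
  calc ((bx (A1:ℤ) B1 A2 B2).card : ℝ) * (3 * n) ≤ (A1:ℝ) * A2 * (3 * n) :=
        mul_le_mul_of_nonneg_right hcard (by positivity)
    _ = 3 * n * A1 * A2 := by ring

theorem step1 (n q L A1 A2 B1 B2 : ℕ) (hn : 1 ≤ n) (hL : 1 ≤ L) (hA1 : 2 * L ≤ A1)
    (hA2 : 2 * L ≤ A2) (hB1 : B1 ≤ 2 * A1) (hB2 : B2 ≤ 2 * A2) (W f g : ℤ → ℂ)
    (hW : ∀ x, ‖W x‖ ≤ 1) (hf : ∀ x, ‖f x‖ ≤ 1) (hg : ∀ x, ‖g x‖ ≤ 1) (M : ℝ) (hM0 : 0 ≤ M)
    (hM : ∀ s t : ℤ, s ≠ 0 → t ≠ 0 → |s| < L → |t| < L →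
      ‖Cor (bx A1 B1 A2 B2) (Icc (-(n:ℤ)) n) (Th1 n q (bx A1 B1 A2 B2) f g) (2 * s, 2 * t)‖ ≤ M) :
    ‖TF n (pd q (Ico (A1:ℤ) B1) (Ico (A2:ℤ) B2)) W f g‖ ^ 2 ≤
      12 * n * A1 * A2 * (6 * n * A1 * A2 / L + M) := by
  classical
  have hLr : (0:ℝ) < L := by
    have : 0 < L := by omega
    exact_mod_cast this
  obtain ⟨S, hS⟩ : ∃ S, S = bx (A1:ℤ) B1 A2 B2 := ⟨_, rfl⟩
  obtain ⟨V, hV⟩ : ∃ V, V = Icc (-(n:ℤ)) n := ⟨_, rfl⟩
  have hTF : TF n (pd q (Ico (A1:ℤ) B1) (Ico (A2:ℤ) B2)) W f g =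
      ∑ p ∈ S, ∑ v ∈ V, W v * Th1 n q S f g p v := by
    rw [TF_pd, hS, hV]
    rfl
  rw [← hS, ← hV] at hM
  have hcor := v3_cor n q A1 A2 B1 B2 hn hB1 hB2 f g hf hg
  rw [← hS, ← hV] at hcor
  have hv := vdc S (bx ((A1:ℤ) - 2 * L) B1 ((A2:ℤ) - 2 * L) B2) V (range L ×ˢ range L)
    (fun i => (2 * (i.1 : ℤ), 2 * (i.2 : ℤ))) (Th1 n q S f g) (fun _ v => W v) ?_ ?_
    (fun _ _ _ _ => rfl) (12 * n * A1 * A2) ?_
  rotate_left
  · intro p v hp
    unfold Th1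
    rw [if_neg]
    exact fun h => hp h.1
  · intro p hp i hi
    rw [hS] at hp
    unfold bx at hp ⊢
    rw [Finset.mem_product, mem_Ico, mem_Ico] at hp ⊢
    rw [Finset.mem_product, mem_range, mem_range] at hi
    simp only [Prod.fst_sub, Prod.snd_sub]
    omega
  · have h1 : ∀ p ∈ bx ((A1:ℤ) - 2 * L) B1 ((A2:ℤ) - 2 * L) B2, ∑ v ∈ V, ‖W v‖ ^ 2 ≤ 3 * (n:ℝ) := by
      intro p _
      refine (Finset.sum_le_sum (g := fun _ => (1:ℝ)) fun v _ => ?_).trans ?_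
      · exact pow_le_one₀ (norm_nonneg _) (hW v)
      · rw [Finset.sum_const, nsmul_eq_mul, mul_one]
        have h2 : V.card ≤ 3 * n := by
          rw [hV, Int.card_Icc]
          omega
        exact_mod_cast h2
    refine (Finset.sum_le_sum h1).trans ?_
    rw [Finset.sum_const, nsmul_eq_mul]
    have hcard : ((bx ((A1:ℤ) - 2 * L) B1 ((A2:ℤ) - 2 * L) B2).card : ℝ) ≤ (2 * A1:ℝ) * (2 * A2) := by
      have h3 : (bx ((A1:ℤ) - 2 * L) B1 ((A2:ℤ) - 2 * L) B2).card ≤ (2 * A1) * (2 * A2) := by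
        unfold bx
        rw [Finset.card_product, Int.card_Ico, Int.card_Ico]
        exact Nat.mul_le_mul (by omega) (by omega)
      exact_mod_cast h3
    calc _ ≤ (2 * A1:ℝ) * (2 * A2) * (3 * n) :=
          mul_le_mul_of_nonneg_right hcard (by positivity)
      _ = 12 * n * A1 * A2 := by ring
  rw [← hTF, Finset.card_product, card_range] at hv
  -- the double sum
  obtain ⟨T, hT⟩ : ∃ T : ℝ, T = 3 * n * A1 * A2 := ⟨_, rfl⟩
  rw [← hT] at hcor
  have hT0 : 0 ≤ T := by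
    rw [hT]
    positivity
  let z : (ℕ × ℕ) → (ℕ × ℕ) → ℝ := fun i j =>
    ‖Cor S V (Th1 n q S f g) ((2 * (i.1 : ℤ), 2 * (i.2 : ℤ)) - (2 * (j.1 : ℤ), 2 * (j.2 : ℤ)))‖
  have hz1 : ∀ i ∈ range L ×ˢ range L, ∀ j ∈ range L ×ˢ range L,
      z i j ≤ (if i.1 = j.1 then T else 0) + (if i.2 = j.2 then T else 0) + M := by
    intro i hi j hj
    rw [Finset.mem_product, mem_range, mem_range] at hi hj
    have hz := hcor ((2 * (i.1 : ℤ), 2 * (i.2 : ℤ)) - (2 * (j.1 : ℤ), 2 * (j.2 : ℤ)))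
    by_cases h1 : i.1 = j.1
    · rw [if_pos h1]
      have : (0:ℝ) ≤ if i.2 = j.2 then T else 0 := by
        split_ifs
        · exact hT0
        · exact le_rfl
      simp only [z]
      linarith
    · by_cases h2 : i.2 = j.2
      · rw [if_neg h1, if_pos h2]
        simp only [z]
        linarith
      · rw [if_neg h1, if_neg h2]
        have e : ((2 * (i.1 : ℤ), 2 * (i.2 : ℤ)) - (2 * (j.1 : ℤ), 2 * (j.2 : ℤ)) : ℤ × ℤ) =
            (2 * ((i.1 : ℤ) - j.1), 2 * ((i.2 : ℤ) - j.2)) := by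
          ext
          · simp only [Prod.fst_sub]
            ring
          · simp only [Prod.snd_sub]
            ring
        have h3 := hM ((i.1 : ℤ) - j.1) ((i.2 : ℤ) - j.2) (by omega) (by omega)
          (by rw [abs_lt]; omega) (by rw [abs_lt]; omega)
        simp only [z]
        rw [e]
        linarith
  have hin : ∀ i ∈ range L ×ˢ range L, ∑ j ∈ range L ×ˢ range L, z i j ≤
      L * T + L * T + (L:ℝ) * L * M := by
    intro i hi
    refine (Finset.sum_le_sum fun j hj => hz1 i hi j hj).trans (le_of_eq ?_)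
    rw [Finset.mem_product, mem_range, mem_range] at hi
    rw [Finset.sum_add_distrib, Finset.sum_add_distrib]
    have s1 : ∑ j ∈ range L ×ˢ range L, (if i.1 = j.1 then T else 0) = L * T := by
      rw [Finset.sum_product]
      have : ∀ a ∈ range L, ∑ b ∈ range L, (if i.1 = (a, b).1 then T else 0) =
          if i.1 = a then L * T else 0 := by
        intro a _
        simp only
        split_ifs
        · rw [Finset.sum_const, card_range, nsmul_eq_mul]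
        · rw [Finset.sum_const_zero]
      rw [Finset.sum_congr rfl this, Finset.sum_ite_eq, if_pos (mem_range.2 hi.1)]
    have s2 : ∑ j ∈ range L ×ˢ range L, (if i.2 = j.2 then T else 0) = L * T := by
      rw [Finset.sum_product]
      have : ∀ a ∈ range L, ∑ b ∈ range L, (if i.2 = (a, b).2 then T else 0) = T := by
        intro a _
        simp only
        rw [Finset.sum_ite_eq, if_pos (mem_range.2 hi.2)]
      rw [Finset.sum_congr rfl this, Finset.sum_const, card_range, nsmul_eq_mul]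
    rw [s1, s2, Finset.sum_const, Finset.card_product, card_range, nsmul_eq_mul]
    push_cast
    ring
  have hdouble : ∑ i ∈ range L ×ˢ range L, ∑ j ∈ range L ×ˢ range L, z i j ≤
      (L:ℝ) * L * (L * T + L * T + (L:ℝ) * L * M) := by
    refine (Finset.sum_le_sum hin).trans (le_of_eq ?_)
    rw [Finset.sum_const, Finset.card_product, card_range, nsmul_eq_mul]
    push_cast
    ring
  have hB0 : (0:ℝ) ≤ 12 * n * A1 * A2 := by positivity
  have hv2 := hv.trans (mul_le_mul_of_nonneg_left hdouble hB0)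
  have hL4 : (0:ℝ) < (L:ℝ) ^ 4 := by positivity
  refine le_of_mul_le_mul_left ?_ hL4
  calc (L:ℝ) ^ 4 * ‖TF n (pd q (Ico (A1:ℤ) B1) (Ico (A2:ℤ) B2)) W f g‖ ^ 2
      = ((L * L : ℕ) : ℝ) ^ 2 * ‖TF n (pd q (Ico (A1:ℤ) B1) (Ico (A2:ℤ) B2)) W f g‖ ^ 2 := by
        push_cast
        ring
    _ ≤ 12 * n * A1 * A2 * ((L:ℝ) * L * (L * T + L * T + (L:ℝ) * L * M)) := hv2
    _ = (L:ℝ) ^ 4 * (12 * n * A1 * A2 * (6 * n * A1 * A2 / L + M)) := by
        rw [hT]
        field_simp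
        ring

end Pool.Agent.H44W
end

-- from Lib.H44W.V4
section
/-!
CHUNK V4 (M). The first correlation in the variable x = (q a b + v)/2.
Let S2 = S.filter (p + (2s,2t) in S). For p in S2 and v with q p1 p2 + v even put x = (q p1 p2 + v)/2, y = (q p1 p2 - v)/2
= q p1 p2 - x. Since q (p1+2s)(p2+2t) = q p1 p2 + 2 sD q s t p, the shifted pair is x + sD, y + sD. Hence
Cor S (Icc (-n) n) (Th1 ..) (2s,2t) = sum_{p in S2} sum_{v: parity} cut f (x + sD) cut g (y + sD) conj(cut f x) conj(cut g y)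
= sum_{p in S2} sum_{x in V2} w2 .. p x * Th2 .. p x, where V2 = Icc (-n) (M) is ANY interval containing [1,n]
(here n <= M): terms with x not in [1,n] vanish because of conj(cut f x); terms with y not in [1,n] vanish because of cut g;
and x, y in [1,n] imply v = x - y in [-n,n]. Bijection v -> x, inverse x -> v = 2x - q p1 p2
(Finset.sum_bij_ne_zero). For p not in S2 (p in S) the Th1 factor is 0.
-/
namespace Pool.Agent.H44W
open Finset

theorem v4_cut_ne {n : ℕ} {f : ℤ → ℂ} {x : ℤ} (h : cut n f x ≠ 0) : 1 ≤ x ∧ x ≤ n := by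
  unfold cut at h
  by_cases hx : x ∈ Icc (1:ℤ) n
  · exact Finset.mem_Icc.1 hx
  · rw [if_neg hx] at h
    exact absurd rfl h

theorem v4_conj_ne {z : ℂ} (h : (starRingEnd ℂ) z ≠ 0) : z ≠ 0 := by
  rintro rfl
  exact h (map_zero _)

theorem v4_inner (n : ℕ) (M m D : ℤ) (hM : (n:ℤ) ≤ M) (f g : ℤ → ℂ) :
    ∑ v ∈ Icc (-(n:ℤ)) n, (if Even (m + 2 * D + v) then
        cut n f ((m + 2 * D + v) / 2) * cut n g ((m + 2 * D - v) / 2) else 0) *
      (starRingEnd ℂ) (if Even (m + v) then cut n f ((m + v) / 2) * cut n g ((m - v) / 2) else 0)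
    = ∑ x ∈ Icc (-(n:ℤ)) M, (cut n f (x + D) * (starRingEnd ℂ) (cut n f x)) *
      (cut n g (m - x + D) * (starRingEnd ℂ) (cut n g (m - x))) := by
  symm
  refine Finset.sum_bij_ne_zero (fun x _ _ => 2 * x - m) ?_ ?_ ?_ ?_
  · intro x _ h
    have h2 := v4_cut_ne (v4_conj_ne (right_ne_zero_of_mul (left_ne_zero_of_mul h)))
    have h3 := v4_cut_ne (v4_conj_ne (right_ne_zero_of_mul (right_ne_zero_of_mul h)))
    exact Finset.mem_Icc.2 ⟨by omega, by omega⟩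
  · intro x _ _ y _ _ h
    omega
  · intro v hv h
    have h2 := v4_conj_ne (right_ne_zero_of_mul h)
    have h1 := left_ne_zero_of_mul h
    by_cases he : Even (m + v)
    · have he' : Even (m + 2 * D + v) := by
        have e : m + 2 * D + v = (m + v) + 2 * D := by ring
        rw [e]
        exact he.add (even_two_mul D)
      rw [if_pos he] at h2
      rw [if_pos he'] at h1
      obtain ⟨c, hc⟩ := he
      have e1 : (m + v) / 2 = c := by omega
      have e2 : (m - v) / 2 = m - c := by omega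
      have e3 : 2 * c - m = v := by omega
      have e4 : (m + 2 * D + v) / 2 = c + D := by omega
      have e5 : (m + 2 * D - v) / 2 = m - c + D := by omega
      rw [e1, e2] at h2
      rw [e4, e5] at h1
      have h3 := v4_cut_ne (left_ne_zero_of_mul h2)
      refine ⟨c, Finset.mem_Icc.2 ⟨by omega, by omega⟩, ?_, e3⟩
      refine mul_ne_zero (mul_ne_zero (left_ne_zero_of_mul h1) ?_) (mul_ne_zero (right_ne_zero_of_mul h1) ?_)
      · exact (map_ne_zero _).2 (left_ne_zero_of_mul h2)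
      · exact (map_ne_zero _).2 (right_ne_zero_of_mul h2)
    · rw [if_neg he] at h2
      exact absurd rfl h2
  · intro x _ _
    have e1 : m + (2 * x - m) = 2 * x := by ring
    have e2 : m - (2 * x - m) = 2 * (m - x) := by ring
    have e3 : m + 2 * D + (2 * x - m) = 2 * (x + D) := by ring
    have e4 : m + 2 * D - (2 * x - m) = 2 * (m - x + D) := by ring
    rw [e1, e2, e3, e4, if_pos (even_two_mul x), if_pos (even_two_mul _), Int.mul_ediv_cancel_left _ two_ne_zero,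
      Int.mul_ediv_cancel_left _ two_ne_zero, Int.mul_ediv_cancel_left _ two_ne_zero,
      Int.mul_ediv_cancel_left _ two_ne_zero, map_mul]
    ring

theorem cor1_eq (n q : ℕ) (M : ℤ) (hM : (n:ℤ) ≤ M) (S : Finset (ℤ × ℤ)) (f g : ℤ → ℂ) (s t : ℤ) :
    Cor S (Icc (-(n:ℤ)) n) (Th1 n q S f g) (2 * s, 2 * t) =
      ∑ p ∈ S.filter (fun p => p + (2 * s, 2 * t) ∈ S), ∑ x ∈ Icc (-(n:ℤ)) M,
        w2 n q s t f p x * Th2 n q (S.filter (fun p => p + (2 * s, 2 * t) ∈ S)) s t g p x := by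
  unfold Cor
  rw [← Finset.sum_filter_add_sum_filter_not S (fun p => p + (2 * s, 2 * t) ∈ S)]
  have h0 : ∑ p ∈ S.filter (fun p => ¬ (p + (2 * s, 2 * t) ∈ S)), ∑ v ∈ Icc (-(n:ℤ)) n,
      Th1 n q S f g (p + (2 * s, 2 * t)) v * (starRingEnd ℂ) (Th1 n q S f g p v) = 0 := by
    refine Finset.sum_eq_zero fun p hp => Finset.sum_eq_zero fun v _ => ?_
    have h1 := (Finset.mem_filter.1 hp).2
    unfold Th1
    rw [if_neg (fun h => h1 h.1), zero_mul]
  rw [h0, add_zero]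
  refine Finset.sum_congr rfl fun p hp => ?_
  obtain ⟨hp1, hp2⟩ := Finset.mem_filter.1 hp
  have h3 := v4_inner n M ((q:ℤ) * p.1 * p.2) (sD q s t p) hM f g
  have h4 : ∀ x ∈ Icc (-(n:ℤ)) M, w2 n q s t f p x * Th2 n q (S.filter (fun p => p + (2 * s, 2 * t) ∈ S)) s t g p x
      = (cut n f (x + sD q s t p) * (starRingEnd ℂ) (cut n f x)) *
      (cut n g ((q:ℤ) * p.1 * p.2 - x + sD q s t p) * (starRingEnd ℂ) (cut n g ((q:ℤ) * p.1 * p.2 - x))) := by
    intro x _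
    unfold w2 Th2
    rw [if_pos hp]
  rw [Finset.sum_congr rfl h4, ← h3]
  refine Finset.sum_congr rfl fun v _ => ?_
  have e : (q:ℤ) * (p + (2 * s, 2 * t)).1 * (p + (2 * s, 2 * t)).2 = (q:ℤ) * p.1 * p.2 + 2 * sD q s t p := by
    unfold sD
    simp only [Prod.fst_add, Prod.snd_add]
    ring
  unfold Th1
  rw [e]
  simp only [hp1, hp2, true_and]

end Pool.Agent.H44W
end

-- from Lib.H44W.V5
section
/-!
CHUNK V5 (M). Second van der Corput step, shifts h (s, -t), 0 <= h < H; the weight w2 is invariant.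
S2 = S.filter (p + (2s,2t) in S), S = bx A1 B1 A2 B2. By cor1_eq (V4) with M = any integer >= n the correlation is
sum_{p in S2} sum_{x in V2} w2 p x * Th2 p x, V2 = Icc (-n) M.
sD q s t (p + (h s, -h t)) = sD q s t p (ring), so w2 is invariant. Apply vdc with J = range H, ta h = (h s, -(h t)),
S' = bx (A1 - H L) (B1 + H L) (A2 - H L) (B2 + H L) (|h s| <= H L; the coordinates of p - ta h are in these intervals),
B = 9 n A1 A2: |w2 p x|^2 <= 1 if x in [1,n] and = 0 otherwise (norm_cut), so the sum is <= card S' * n <= (3 A1)(3 A2) n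
because B1 - A1 + 2 H L <= A1 + 2 A1. The double sum: pairs h = h': H of them, |Cor S2 V2 Th2 0| <= n A1 A2
(for fixed p: |Th2 p x|^2 <= 1 and it vanishes unless q p1 p2 - x in [1,n], so at most n values of x; card S2 <= A1 A2);
pairs h # h': ta h - ta h' = ((h-h') s, -((h-h') t)), hypothesis: <= M2. Total <= H n A1 A2 + H^2 M2. Divide by H^2.
-/
namespace Pool.Agent.H44W
open Finset

theorem v5_norm_cut {n : ℕ} {f : ℤ → ℂ} (hf : ∀ x, ‖f x‖ ≤ 1) (x : ℤ) : ‖cut n f x‖ ≤ 1 := by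
  unfold cut
  split_ifs
  · exact hf x
  · rw [norm_zero]; exact zero_le_one

theorem v5_cut_zero {n : ℕ} {f : ℤ → ℂ} {x : ℤ} (hx : x ∉ Icc (1:ℤ) n) : cut n f x = 0 := by
  unfold cut
  rw [if_neg hx]

/-- A function bounded by 1, supported on [1,n] after a reflection: sum of squares over any interval. -/
theorem v5_sum {n : ℕ} (V : Finset ℤ) (e : ℤ → ℤ) (he : Function.Injective e) (F : ℤ → ℝ) (hF : ∀ x, F x ≤ 1) (hF0 : ∀ x, 0 ≤ F x)
    (hz : ∀ x, e x ∉ Icc (1:ℤ) n → F x = 0) : ∑ x ∈ V, F x ≤ n := by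
  classical
  have h1 : ∑ x ∈ V, F x = ∑ x ∈ V.filter (fun x => e x ∈ Icc (1:ℤ) n), F x := by
    rw [Finset.sum_filter]
    refine Finset.sum_congr rfl fun x _ => ?_
    split_ifs with h
    · rfl
    · exact hz x h
  rw [h1]
  calc ∑ x ∈ V.filter (fun x => e x ∈ Icc (1:ℤ) n), F x ≤ ∑ x ∈ V.filter (fun x => e x ∈ Icc (1:ℤ) n), (1 : ℝ) :=
        Finset.sum_le_sum fun x _ => hF x
    _ = ((V.filter (fun x => e x ∈ Icc (1:ℤ) n)).card : ℝ) := by rw [Finset.sum_const, nsmul_eq_mul, mul_one]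
    _ ≤ ((Icc (1:ℤ) n).card : ℝ) := by
        have : (V.filter (fun x => e x ∈ Icc (1:ℤ) n)).card ≤ (Icc (1:ℤ) n).card :=
          Finset.card_le_card_of_injOn e (fun x hx => (Finset.mem_filter.1 hx).2) (he.injOn)
        exact_mod_cast this
    _ = n := by rw [Int.card_Icc]; simp

theorem v5_card (a b : ℤ) (c : ℕ) (h : b - a ≤ c) : ((Ico a b).card : ℝ) ≤ c := by
  rw [Int.card_Ico]
  have : (b - a).toNat ≤ c := by omega
  exact_mod_cast this

theorem step2 (n q L H A1 A2 B1 B2 : ℕ) (hn : 1 ≤ n) (hH : 1 ≤ H) (hA1 : H * L ≤ A1)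
    (hA2 : H * L ≤ A2) (hB1 : B1 ≤ 2 * A1) (hB2 : B2 ≤ 2 * A2) (M : ℤ) (hM : (n:ℤ) ≤ M)
    (f g : ℤ → ℂ) (hf : ∀ x, ‖f x‖ ≤ 1) (hg : ∀ x, ‖g x‖ ≤ 1) (s t : ℤ) (hs : |s| < L)
    (ht : |t| < L) (M2 : ℝ) (hM20 : 0 ≤ M2)
    (hM2 : ∀ h : ℤ, h ≠ 0 → |h| < H →
      ‖Cor ((bx A1 B1 A2 B2).filter (fun p => p + (2 * s, 2 * t) ∈ bx A1 B1 A2 B2))
        (Icc (-(n:ℤ)) M)
        (Th2 n q ((bx A1 B1 A2 B2).filter (fun p => p + (2 * s, 2 * t) ∈ bx A1 B1 A2 B2)) s t g)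
        (h * s, -(h * t))‖ ≤ M2) :
    ‖Cor (bx A1 B1 A2 B2) (Icc (-(n:ℤ)) n) (Th1 n q (bx A1 B1 A2 B2) f g) (2 * s, 2 * t)‖ ^ 2 ≤
      9 * n * A1 * A2 * (n * A1 * A2 / H + M2) := by
  rw [cor1_eq n q M hM]
  set S2 := (bx A1 B1 A2 B2).filter (fun p => p + (2 * s, 2 * t) ∈ bx A1 B1 A2 B2) with hS2
  set V := Icc (-(n:ℤ)) M with hV
  have hsub : S2 ⊆ bx A1 B1 A2 B2 := Finset.filter_subset _ _
  -- cardinality of S2
  have hcS : (S2.card : ℝ) ≤ A1 * A2 := by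
    have h1 : (S2.card : ℝ) ≤ ((bx A1 B1 A2 B2).card : ℝ) := by exact_mod_cast Finset.card_le_card hsub
    refine h1.trans ?_
    unfold bx
    rw [Finset.card_product, Nat.cast_mul]
    exact mul_le_mul (v5_card _ _ _ (by omega)) (v5_card _ _ _ (by omega)) (by positivity) (by positivity)
  have hHL : (0:ℤ) ≤ (H:ℤ) * L := by positivity
  have hshift : ∀ i ∈ range H, ∀ u : ℤ, |u| < L → |(i:ℤ) * u| ≤ (H:ℤ) * L := by
    intro i hi u hu
    rw [abs_mul, Nat.abs_cast]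
    have h1 : (i:ℤ) ≤ H := by have := Finset.mem_range.1 hi; omega
    exact mul_le_mul h1 hu.le (abs_nonneg _) (by positivity)
  have hvdc := vdc S2 (bx ((A1:ℤ) - H * L) ((B1:ℤ) + H * L) ((A2:ℤ) - H * L) ((B2:ℤ) + H * L)) V (range H)
    (fun i => ((i:ℤ) * s, -((i:ℤ) * t))) (Th2 n q S2 s t g) (w2 n q s t f)
    (fun p v hp => by unfold Th2; rw [if_neg hp])
    (by
      intro p hp i hi
      have h1 := hsub hp
      unfold bx at h1 ⊢
      rw [Finset.mem_product, Finset.mem_Ico, Finset.mem_Ico] at h1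
      have h2 := abs_le.1 (hshift i hi s hs)
      have h3 := abs_le.1 (hshift i hi t ht)
      rw [Finset.mem_product, Finset.mem_Ico, Finset.mem_Ico]
      obtain ⟨⟨a1, a2⟩, a3, a4⟩ := h1
      obtain ⟨b1, b2⟩ := h2
      obtain ⟨c1, c2⟩ := h3
      change ((A1:ℤ) - H * L ≤ p.1 - (i:ℤ) * s ∧ p.1 - (i:ℤ) * s < (B1:ℤ) + H * L) ∧
        ((A2:ℤ) - H * L ≤ p.2 - (-((i:ℤ) * t)) ∧ p.2 - (-((i:ℤ) * t)) < (B2:ℤ) + H * L)
      refine ⟨⟨?_, ?_⟩, ?_, ?_⟩ <;> linarith)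
    (by
      intro p v i _
      have h1 : sD q s t (p + ((i:ℤ) * s, -((i:ℤ) * t))) = sD q s t p := by
        unfold sD
        change (q:ℤ) * ((p.1 + (i:ℤ) * s) * t + (p.2 + -((i:ℤ) * t)) * s + 2 * s * t) = _
        ring
      unfold w2
      rw [h1])
    (9 * n * A1 * A2)
    (by
      have h1 : ∀ p : ℤ × ℤ, ∑ v ∈ V, ‖w2 n q s t f p v‖ ^ 2 ≤ n := by
        intro p
        refine v5_sum V id Function.injective_id _ ?_ (fun _ => sq_nonneg _) ?_
        · intro x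
          unfold w2
          rw [norm_mul, RCLike.norm_conj]
          have := mul_le_one₀ (v5_norm_cut (n := n) hf (x + sD q s t p)) (norm_nonneg _) (v5_norm_cut (n := n) hf x)
          exact pow_le_one₀ (by positivity) this
        · intro x hx
          unfold w2
          rw [v5_cut_zero (f := f) (x := x) hx, map_zero, mul_zero, norm_zero]
          norm_num
      refine (Finset.sum_le_sum fun p _ => h1 p).trans ?_
      rw [Finset.sum_const, nsmul_eq_mul]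
      unfold bx
      rw [Finset.card_product, Nat.cast_mul]
      have hc1 : ((Ico ((A1:ℤ) - H * L) ((B1:ℤ) + H * L)).card : ℝ) ≤ (3 * A1 : ℕ) := by
        refine v5_card _ _ _ ?_
        have h2 : (H:ℤ) * L ≤ A1 := by exact_mod_cast hA1
        push_cast
        have h3 : (B1:ℤ) ≤ 2 * A1 := by exact_mod_cast hB1
        linarith
      have hc2 : ((Ico ((A2:ℤ) - H * L) ((B2:ℤ) + H * L)).card : ℝ) ≤ (3 * A2 : ℕ) := by
        refine v5_card _ _ _ ?_
        have h2 : (H:ℤ) * L ≤ A2 := by exact_mod_cast hA2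
        push_cast
        have h3 : (B2:ℤ) ≤ 2 * A2 := by exact_mod_cast hB2
        linarith
      have h4 := mul_le_mul hc1 hc2 (by positivity) (by positivity)
      push_cast at h4
      have h5 : (0:ℝ) ≤ n := by positivity
      nlinarith)
  rw [Finset.card_range] at hvdc
  -- double sum
  have hdiag : ‖Cor S2 V (Th2 n q S2 s t g) 0‖ ≤ n * A1 * A2 := by
    unfold Cor
    have h1 : ∀ p ∈ S2, ‖∑ v ∈ V, Th2 n q S2 s t g (p + 0) v * (starRingEnd ℂ) (Th2 n q S2 s t g p v)‖ ≤ n := by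
      intro p hp
      refine (norm_sum_le _ _).trans ?_
      refine v5_sum V (fun x => (q:ℤ) * p.1 * p.2 - x) (fun a b h => by
        have h' : (q:ℤ) * p.1 * p.2 - a = (q:ℤ) * p.1 * p.2 - b := h
        omega) _ ?_ (fun _ => norm_nonneg _) ?_
      · intro x
        rw [add_zero, norm_mul, RCLike.norm_conj]
        have h2 : ‖Th2 n q S2 s t g p x‖ ≤ 1 := by
          unfold Th2
          rw [if_pos hp, norm_mul, RCLike.norm_conj]
          exact mul_le_one₀ (v5_norm_cut hg _) (norm_nonneg _) (v5_norm_cut hg _)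
        exact mul_le_one₀ h2 (norm_nonneg _) h2
      · intro x hx
        have h2 : Th2 n q S2 s t g p x = 0 := by
          unfold Th2
          rw [if_pos hp, v5_cut_zero hx, map_zero, mul_zero]
        rw [h2, map_zero, mul_zero, norm_zero]
    refine (norm_sum_le _ _).trans ((Finset.sum_le_sum h1).trans ?_)
    rw [Finset.sum_const, nsmul_eq_mul]
    have h5 : (0:ℝ) ≤ n := by positivity
    nlinarith
  have hdouble : ∑ i ∈ range H, ∑ j ∈ range H, ‖Cor S2 V (Th2 n q S2 s t g)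
      (((i:ℤ) * s, -((i:ℤ) * t)) - ((j:ℤ) * s, -((j:ℤ) * t)))‖ ≤ H * (n * A1 * A2) + (H:ℝ) ^ 2 * M2 := by
    have h1 : ∀ i ∈ range H, ∑ j ∈ range H, ‖Cor S2 V (Th2 n q S2 s t g)
        (((i:ℤ) * s, -((i:ℤ) * t)) - ((j:ℤ) * s, -((j:ℤ) * t)))‖ ≤ n * A1 * A2 + H * M2 := by
      intro i hi
      have h2 : ∀ j ∈ range H, ‖Cor S2 V (Th2 n q S2 s t g)
          (((i:ℤ) * s, -((i:ℤ) * t)) - ((j:ℤ) * s, -((j:ℤ) * t)))‖ ≤ (if i = j then (n * A1 * A2 : ℝ) else 0) + M2 := by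
        intro j hj
        split_ifs with hij
        · rw [hij, sub_self]
          linarith
        · rw [zero_add]
          have h3 : (((i:ℤ) * s, -((i:ℤ) * t)) - ((j:ℤ) * s, -((j:ℤ) * t)) : ℤ × ℤ) =
              (((i:ℤ) - j) * s, -(((i:ℤ) - j) * t)) := by
            rw [Prod.mk_sub_mk]
            congr 1 <;> ring
          rw [h3]
          have hi' := Finset.mem_range.1 hi
          have hj' := Finset.mem_range.1 hj
          exact hM2 _ (by omega) (by rw [abs_lt]; constructor <;> omega)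
      refine (Finset.sum_le_sum h2).trans ?_
      rw [Finset.sum_add_distrib, Finset.sum_ite_eq, if_pos hi, Finset.sum_const, Finset.card_range, nsmul_eq_mul]
    refine (Finset.sum_le_sum h1).trans ?_
    rw [Finset.sum_const, Finset.card_range, nsmul_eq_mul]
    apply le_of_eq
    ring
  have hH0 : (0:ℝ) < H := by exact_mod_cast hH
  have hfin := hvdc.trans (mul_le_mul_of_nonneg_left hdouble (by positivity))
  have h9 : (H:ℝ) ^ 2 * ‖∑ p ∈ S2, ∑ v ∈ V, w2 n q s t f p v * Th2 n q S2 s t g p v‖ ^ 2 ≤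
      (H:ℝ) ^ 2 * (9 * n * A1 * A2 * (n * A1 * A2 / H + M2)) := by
    refine hfin.trans (le_of_eq ?_)
    field_simp
  exact le_of_mul_le_mul_left h9 (by positivity)

end Pool.Agent.H44W
end

-- from Lib.H44W.V6
section
/-!
CHUNK V6 (M). The second correlation is a sum of fourfold correlations CG over a box.
Let S2 = S.filter (p + (2s,2t) in S), S = bx A1 B1 A2 B2, tau = (h s, -(h t)). For p and y := q p1 p2 - x:
Th2 (p + tau) x * conj (Th2 p x) = [p + tau in S2][p in S2] G(y' + sD) conj G(y') * conj G(y + sD) * G(y), with G = cut n g,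
y' = q (p1 + h s)(p2 - h t) - x = y + sE q s t h p (ring), and sD (p + tau) = sD p. For p in S2 the map x -> y = q p1 p2 - x
sends the x with y in [1,n] into V2 = Icc (-n) M provided q p1 p2 <= M + 1 and q p1 p2 >= 0 - fine for p in S when
q B1 B2 <= M; terms with y outside [1,n] vanish (factor G y). So the sum over x in V2 is CG n G (sD p) (sE p)
(CG n G D E = sum_{y in [1,n]} G y conj G(y+D) conj G(y+E) G(y+D+E)).
The set of p with p, p + (2s,2t), p + tau, p + tau + (2s,2t) all in S = Ico x Ico is again a product of two Ico's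
(intersection of four translates of intervals): Ico a1 b1 x Ico a2 b2 with a1 = max of A1, A1 - 2s, A1 - h s, A1 - h s - 2s, b1 = min of
B1, B1 - 2s, .. etc.
-/
namespace Pool.Agent.H44W
open Finset

theorem v6_cut_zero {n : ℕ} {f : ℤ → ℂ} {x : ℤ} (hx : x ∉ Icc (1:ℤ) n) : cut n f x = 0 := by
  unfold cut
  rw [if_neg hx]

theorem v6_inner (n : ℕ) (M m : ℤ) (hm : 0 ≤ m) (hmM : m ≤ M) (G : ℤ → ℂ) (hG : ∀ y, y ∉ Icc (1:ℤ) n → G y = 0) (D E : ℤ) :
    ∑ x ∈ Icc (-(n:ℤ)) M, G (m + E - x + D) * (starRingEnd ℂ) (G (m + E - x)) *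
      (starRingEnd ℂ) (G (m - x + D) * (starRingEnd ℂ) (G (m - x))) = CG n G D E := by
  unfold CG
  symm
  refine Finset.sum_bij_ne_zero (fun y _ _ => m - y) ?_ ?_ ?_ ?_
  · intro y hy _
    rw [Finset.mem_Icc] at hy ⊢
    omega
  · intro a _ _ b _ _ h
    omega
  · intro x hx h
    have h1 : G (m - x) ≠ 0 := by
      intro h0
      apply h
      rw [h0, map_zero, mul_zero, map_zero, mul_zero]
    have h2 : m - x ∈ Icc (1:ℤ) n := by
      by_contra h3
      exact h1 (hG _ h3)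
    refine ⟨m - x, h2, ?_, by ring⟩
    intro h4
    apply h
    rw [map_mul, Complex.conj_conj]
    have e1 : m + E - x + D = m - x + D + E := by ring
    have e2 : m + E - x = m - x + E := by ring
    rw [e1, e2]
    linear_combination h4
  · intro y _ _
    rw [map_mul, Complex.conj_conj]
    have e1 : m + E - (m - y) + D = y + D + E := by ring
    have e2 : m + E - (m - y) = y + E := by ring
    have e3 : m - (m - y) = y := by ring
    rw [e1, e2, e3]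
    ring

theorem cor2_eq (n q A1 A2 B1 B2 : ℕ) (M : ℤ) (hM : (q:ℤ) * B1 * B2 ≤ M) (g : ℤ → ℂ)
    (s t h : ℤ) :
    ∃ a1 b1 a2 b2 : ℤ, (A1:ℤ) ≤ a1 ∧ b1 ≤ B1 ∧ (A2:ℤ) ≤ a2 ∧ b2 ≤ B2 ∧
      Cor ((bx A1 B1 A2 B2).filter (fun p => p + (2 * s, 2 * t) ∈ bx A1 B1 A2 B2))
        (Icc (-(n:ℤ)) M)
        (Th2 n q ((bx A1 B1 A2 B2).filter (fun p => p + (2 * s, 2 * t) ∈ bx A1 B1 A2 B2)) s t g)
        (h * s, -(h * t)) =
      ∑ p ∈ bx a1 b1 a2 b2, CG n (cut n g) (sD q s t p) (sE q s t h p) := by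
  set S := bx A1 B1 A2 B2 with hS
  set S2 := S.filter (fun p => p + (2 * s, 2 * t) ∈ S) with hS2
  refine ⟨max (max (A1:ℤ) (A1 - 2 * s)) (max (A1 - h * s) (A1 - h * s - 2 * s)),
    min (min (B1:ℤ) (B1 - 2 * s)) (min (B1 - h * s) (B1 - h * s - 2 * s)),
    max (max (A2:ℤ) (A2 - 2 * t)) (max (A2 + h * t) (A2 + h * t - 2 * t)),
    min (min (B2:ℤ) (B2 - 2 * t)) (min (B2 + h * t) (B2 + h * t - 2 * t)),
    le_trans (le_max_left _ _) (le_max_left _ _), le_trans (min_le_left _ _) (min_le_left _ _),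
    le_trans (le_max_left _ _) (le_max_left _ _), le_trans (min_le_left _ _) (min_le_left _ _), ?_⟩
  have hbox : bx (max (max (A1:ℤ) (A1 - 2 * s)) (max (A1 - h * s) (A1 - h * s - 2 * s)))
      (min (min (B1:ℤ) (B1 - 2 * s)) (min (B1 - h * s) (B1 - h * s - 2 * s)))
      (max (max (A2:ℤ) (A2 - 2 * t)) (max (A2 + h * t) (A2 + h * t - 2 * t)))
      (min (min (B2:ℤ) (B2 - 2 * t)) (min (B2 + h * t) (B2 + h * t - 2 * t))) =
      S2.filter (fun p => p + (h * s, -(h * t)) ∈ S2) := by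
    ext ⟨x, y⟩
    rw [hS2, hS]
    unfold bx
    simp only [Finset.mem_filter, Finset.mem_product, Finset.mem_Ico, Prod.mk_add_mk, max_le_iff, lt_min_iff]
    constructor
    · rintro ⟨⟨⟨⟨h1, h2⟩, h3, h4⟩, ⟨h5, h6⟩, h7, h8⟩, ⟨⟨h9, h10⟩, h11, h12⟩, ⟨h13, h14⟩, h15, h16⟩
      refine ⟨⟨⟨⟨?_, ?_⟩, ?_, ?_⟩, ⟨?_, ?_⟩, ?_, ?_⟩, ⟨⟨?_, ?_⟩, ?_, ?_⟩, ⟨?_, ?_⟩, ?_, ?_⟩ <;> linarith
    · rintro ⟨⟨⟨⟨h1, h2⟩, h3, h4⟩, ⟨h5, h6⟩, h7, h8⟩, ⟨⟨h9, h10⟩, h11, h12⟩, ⟨h13, h14⟩, h15, h16⟩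
      refine ⟨⟨⟨⟨?_, ?_⟩, ?_, ?_⟩, ⟨?_, ?_⟩, ?_, ?_⟩, ⟨⟨?_, ?_⟩, ?_, ?_⟩, ⟨?_, ?_⟩, ?_, ?_⟩ <;> linarith
  rw [hbox, Finset.sum_filter]
  unfold Cor
  refine Finset.sum_congr rfl fun p hp => ?_
  by_cases hp2 : p + (h * s, -(h * t)) ∈ S2
  · rw [if_pos hp2]
    have hpS : p ∈ S := (Finset.mem_filter.1 hp).1
    have hpb : ((A1:ℤ) ≤ p.1 ∧ p.1 < B1) ∧ (A2:ℤ) ≤ p.2 ∧ p.2 < B2 := by
      rw [hS] at hpS
      unfold bx at hpS
      rw [Finset.mem_product, Finset.mem_Ico, Finset.mem_Ico] at hpS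
      exact hpS
    obtain ⟨⟨p1, p2⟩, p3, p4⟩ := hpb
    have hp10 : 0 ≤ p.1 := le_trans (by positivity) p1
    have hp20 : 0 ≤ p.2 := le_trans (by positivity) p3
    have hm0 : 0 ≤ (q:ℤ) * p.1 * p.2 := by positivity
    have hmM : (q:ℤ) * p.1 * p.2 ≤ M := by
      refine le_trans ?_ hM
      gcongr
    rw [← v6_inner n M ((q:ℤ) * p.1 * p.2) hm0 hmM (cut n g) (fun y hy => v6_cut_zero hy) (sD q s t p) (sE q s t h p)]
    refine Finset.sum_congr rfl fun x _ => ?_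
    have e1 : (q:ℤ) * (p + (h * s, -(h * t))).1 * (p + (h * s, -(h * t))).2 = (q:ℤ) * p.1 * p.2 + sE q s t h p := by
      unfold sE
      change (q:ℤ) * (p.1 + h * s) * (p.2 + -(h * t)) = _
      ring
    have e2 : sD q s t (p + (h * s, -(h * t))) = sD q s t p := by
      unfold sD
      change (q:ℤ) * ((p.1 + h * s) * t + (p.2 + -(h * t)) * s + 2 * s * t) = _
      ring
    unfold Th2
    rw [if_pos hp2, if_pos hp, e1, e2]
  · rw [if_neg hp2]
    refine Finset.sum_eq_zero fun x _ => ?_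
    unfold Th2
    rw [if_neg hp2, zero_mul]

end Pool.Agent.H44W
end

-- from Lib.H44W.V7
section
/-!
CHUNK V7 (S/M). Averaging over translates of a box.
(a) box_shift: for one translation u = (u1,u2) with |u1|, |u2| <= U the sums of ph over the box and over the translated box
differ by at most n * 2U * (A1 + A2) when |ph| <= n everywhere and the sides of the box are <= A1, A2.
Proof: one variable: |sum_{a in Ico a1 b1} psi a - sum_{a in Ico a1 b1} psi (a + u)| <= 2 |u| * sup |psi| (both sums are sums of psi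
over intervals Ico a1 b1 and Ico (a1+u) (b1+u); the symmetric difference has at most 2|u| elements; also true if the
interval is empty or shorter than |u|). Two variables: change a first (error card(Ico a2 b2) * 2 U n <= 2 U n A2), then b.
(b) box_avg: average (a) over the N^2 translations u = ((i + j) s, (j - i) t), i, j < N, |s|, |t| <= L: |u1|, |u2| <= 2 N L.
N^2 |sum_p ph p| = |sum_ij sum_p ph p| <= N^2 * n * 4 N L (A1 + A2) + |sum_ij sum_p ph (p + u_ij)| and exchange the sums,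
then the triangle inequality over p.
-/
namespace Pool.Agent.H44W
open Finset

theorem v7_one (a1 b1 u : ℤ) (c : ℝ) (psi : ℤ → ℂ) (hpsi : ∀ a, ‖psi a‖ ≤ c) :
    ‖∑ a ∈ Ico a1 b1, psi a - ∑ a ∈ Ico a1 b1, psi (a + u)‖ ≤ 2 * (|u| : ℤ) * c := by
  classical
  have hc : 0 ≤ c := (norm_nonneg _).trans (hpsi 0)
  rw [Finset.sum_Ico_add' psi a1 b1 u, ← Finset.sum_sdiff_sub_sum_sdiff]
  have key : ∀ s : Finset ℤ, s.card ≤ u.natAbs → ‖∑ a ∈ s, psi a‖ ≤ (|u| : ℤ) * c := by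
    intro s hs
    refine (norm_sum_le _ _).trans ((Finset.sum_le_sum fun a _ => hpsi a).trans ?_)
    rw [Finset.sum_const, nsmul_eq_mul]
    refine mul_le_mul_of_nonneg_right ?_ hc
    have h1 : (s.card : ℝ) ≤ (u.natAbs : ℝ) := by exact_mod_cast hs
    have h2 : ((|u| : ℤ) : ℝ) = (u.natAbs : ℝ) := (Nat.cast_natAbs u).symm
    rw [h2]
    exact h1
  have h1 : (Ico a1 b1 \ Ico (a1 + u) (b1 + u)).card ≤ u.natAbs := by
    have hsub : Ico a1 b1 \ Ico (a1 + u) (b1 + u) ⊆ Ico a1 (a1 + u) ∪ Ico (b1 + u) b1 := by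
      intro x hx
      rw [mem_sdiff, mem_Ico, mem_Ico] at hx
      rw [mem_union, mem_Ico, mem_Ico]
      omega
    refine (card_le_card hsub).trans ((card_union_le _ _).trans ?_)
    rw [Int.card_Ico, Int.card_Ico]
    omega
  have h2 : (Ico (a1 + u) (b1 + u) \ Ico a1 b1).card ≤ u.natAbs := by
    have hsub : Ico (a1 + u) (b1 + u) \ Ico a1 b1 ⊆ Ico b1 (b1 + u) ∪ Ico (a1 + u) a1 := by
      intro x hx
      rw [mem_sdiff, mem_Ico, mem_Ico] at hx
      rw [mem_union, mem_Ico, mem_Ico]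
      omega
    refine (card_le_card hsub).trans ((card_union_le _ _).trans ?_)
    rw [Int.card_Ico, Int.card_Ico]
    omega
  refine (norm_sub_le _ _).trans ?_
  have k1 := key _ h1
  have k2 := key _ h2
  linarith

theorem box_shift (a1 b1 a2 b2 : ℤ) (A1 A2 : ℕ) (h1 : b1 - a1 ≤ A1) (h2 : b2 - a2 ≤ A2) (n : ℝ)
    (hn : 0 ≤ n) (ph : ℤ × ℤ → ℂ) (hph : ∀ p, ‖ph p‖ ≤ n) (U : ℕ) (u : ℤ × ℤ)
    (hu1 : |u.1| ≤ U) (hu2 : |u.2| ≤ U) :
    ‖∑ p ∈ bx a1 b1 a2 b2, ph p - ∑ p ∈ bx a1 b1 a2 b2, ph (p + u)‖ ≤ n * (2 * U * (A1 + A2)) := by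
  have e1 : ∑ p ∈ bx a1 b1 a2 b2, ph p = ∑ a ∈ Ico a1 b1, ∑ b ∈ Ico a2 b2, ph (a, b) := by
    unfold bx
    rw [Finset.sum_product]
  have e2 : ∑ p ∈ bx a1 b1 a2 b2, ph (p + u) =
      ∑ a ∈ Ico a1 b1, ∑ b ∈ Ico a2 b2, ph (a + u.1, b + u.2) := by
    unfold bx
    rw [Finset.sum_product]
    rfl
  have c1 : ((Ico a1 b1).card : ℝ) ≤ A1 := by
    have : (Ico a1 b1).card ≤ A1 := by
      rw [Int.card_Ico]
      omega
    exact_mod_cast this
  have c2 : ((Ico a2 b2).card : ℝ) ≤ A2 := by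
    have : (Ico a2 b2).card ≤ A2 := by
      rw [Int.card_Ico]
      omega
    exact_mod_cast this
  have hU1 : ((|u.1| : ℤ) : ℝ) ≤ U := by exact_mod_cast hu1
  have hU2 : ((|u.2| : ℤ) : ℝ) ≤ U := by exact_mod_cast hu2
  have hU0 : (0:ℝ) ≤ U := Nat.cast_nonneg U
  have f1 : ‖∑ a ∈ Ico a1 b1, ∑ b ∈ Ico a2 b2, ph (a, b) -
      ∑ a ∈ Ico a1 b1, ∑ b ∈ Ico a2 b2, ph (a + u.1, b)‖ ≤ 2 * U * (A2 * n) := by
    have h := v7_one a1 b1 u.1 (A2 * n) (fun a => ∑ b ∈ Ico a2 b2, ph (a, b)) (fun a => by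
      refine (norm_sum_le _ _).trans ((Finset.sum_le_sum fun b _ => hph (a, b)).trans ?_)
      rw [Finset.sum_const, nsmul_eq_mul]
      exact mul_le_mul_of_nonneg_right c2 hn)
    refine h.trans ?_
    have h0 : (0:ℝ) ≤ A2 * n := by positivity
    nlinarith
  have f2 : ‖∑ a ∈ Ico a1 b1, ∑ b ∈ Ico a2 b2, ph (a + u.1, b) -
      ∑ a ∈ Ico a1 b1, ∑ b ∈ Ico a2 b2, ph (a + u.1, b + u.2)‖ ≤ A1 * (2 * U * n) := by
    rw [← Finset.sum_sub_distrib]
    refine (norm_sum_le _ _).trans ((Finset.sum_le_sum (g := fun _ => 2 * (U:ℝ) * n) fun a _ => ?_).trans ?_)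
    · have h := v7_one a2 b2 u.2 n (fun b => ph (a + u.1, b)) (fun b => hph _)
      refine h.trans ?_
      have h3 : 2 * ((|u.2| : ℤ) : ℝ) ≤ 2 * (U:ℝ) := by linarith
      exact mul_le_mul_of_nonneg_right h3 hn
    · rw [Finset.sum_const, nsmul_eq_mul]
      exact mul_le_mul_of_nonneg_right c1 (by positivity)
  rw [e1, e2]
  have e3 : ∑ a ∈ Ico a1 b1, ∑ b ∈ Ico a2 b2, ph (a, b) -
      ∑ a ∈ Ico a1 b1, ∑ b ∈ Ico a2 b2, ph (a + u.1, b + u.2) =
      (∑ a ∈ Ico a1 b1, ∑ b ∈ Ico a2 b2, ph (a, b) -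
        ∑ a ∈ Ico a1 b1, ∑ b ∈ Ico a2 b2, ph (a + u.1, b)) +
      (∑ a ∈ Ico a1 b1, ∑ b ∈ Ico a2 b2, ph (a + u.1, b) -
        ∑ a ∈ Ico a1 b1, ∑ b ∈ Ico a2 b2, ph (a + u.1, b + u.2)) := by ring
  rw [e3]
  refine (norm_add_le _ _).trans ((add_le_add f1 f2).trans (le_of_eq ?_))
  ring

theorem box_avg (a1 b1 a2 b2 : ℤ) (A1 A2 : ℕ) (h1 : b1 - a1 ≤ A1) (h2 : b2 - a2 ≤ A2) (n : ℝ)
    (hn : 0 ≤ n) (ph : ℤ × ℤ → ℂ) (hph : ∀ p, ‖ph p‖ ≤ n) (N L : ℕ) (hN : 1 ≤ N) (s t : ℤ)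
    (hs : |s| ≤ L) (ht : |t| ≤ L) :
    (N:ℝ) ^ 2 * ‖∑ p ∈ bx a1 b1 a2 b2, ph p‖ ≤ (N:ℝ) ^ 2 * (n * (4 * N * L * (A1 + A2))) +
      ∑ p ∈ bx a1 b1 a2 b2, ‖∑ i ∈ range N, ∑ j ∈ range N,
        ph (p + (((i:ℤ) + j) * s, ((j:ℤ) - i) * t))‖ := by
  have hsh : ∀ i ∈ range N, ∀ j ∈ range N, ‖∑ p ∈ bx a1 b1 a2 b2, ph p -
      ∑ p ∈ bx a1 b1 a2 b2, ph (p + (((i:ℤ) + j) * s, ((j:ℤ) - i) * t))‖ ≤
      n * (4 * N * L * (A1 + A2)) := by
    intro i hi j hj
    rw [mem_range] at hi hj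
    have hi' : (i:ℤ) < N := by exact_mod_cast hi
    have hj' : (j:ℤ) < N := by exact_mod_cast hj
    have hi0 : (0:ℤ) ≤ i := Int.natCast_nonneg i
    have hj0 : (0:ℤ) ≤ j := Int.natCast_nonneg j
    have hL0 : (0:ℤ) ≤ L := Int.natCast_nonneg L
    have g1 : |((i:ℤ) + j) * s| ≤ ((2 * N * L : ℕ) : ℤ) := by
      rw [abs_mul]
      push_cast
      refine mul_le_mul ?_ hs (abs_nonneg _) (by positivity)
      rw [abs_of_nonneg (by linarith)]
      linarith
    have g2 : |((j:ℤ) - i) * t| ≤ ((2 * N * L : ℕ) : ℤ) := by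
      rw [abs_mul]
      push_cast
      refine mul_le_mul ?_ ht (abs_nonneg _) (by positivity)
      rw [abs_le]
      constructor <;> linarith
    have h := box_shift a1 b1 a2 b2 A1 A2 h1 h2 n hn ph hph (2 * N * L)
      (((i:ℤ) + j) * s, ((j:ℤ) - i) * t) g1 g2
    refine h.trans (le_of_eq ?_)
    push_cast
    ring
  obtain ⟨Z, hZ⟩ : ∃ Z, Z = ∑ p ∈ bx a1 b1 a2 b2, ph p := ⟨_, rfl⟩
  rw [← hZ]
  rw [← hZ] at hsh
  have e1 : ((N:ℂ) ^ 2) * Z = (∑ i ∈ range N, ∑ j ∈ range N,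
      (Z - ∑ p ∈ bx a1 b1 a2 b2, ph (p + (((i:ℤ) + j) * s, ((j:ℤ) - i) * t)))) +
      ∑ p ∈ bx a1 b1 a2 b2, ∑ i ∈ range N, ∑ j ∈ range N,
        ph (p + (((i:ℤ) + j) * s, ((j:ℤ) - i) * t)) := by
    have e2 : ∑ p ∈ bx a1 b1 a2 b2, ∑ i ∈ range N, ∑ j ∈ range N,
        ph (p + (((i:ℤ) + j) * s, ((j:ℤ) - i) * t)) =
        ∑ i ∈ range N, ∑ j ∈ range N, ∑ p ∈ bx a1 b1 a2 b2,
          ph (p + (((i:ℤ) + j) * s, ((j:ℤ) - i) * t)) := by
      rw [Finset.sum_comm]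
      refine Finset.sum_congr rfl fun i _ => ?_
      rw [Finset.sum_comm]
    rw [e2, ← Finset.sum_add_distrib]
    have e3 : ∀ i ∈ range N, (∑ j ∈ range N,
        (Z - ∑ p ∈ bx a1 b1 a2 b2, ph (p + (((i:ℤ) + j) * s, ((j:ℤ) - i) * t)))) +
        ∑ j ∈ range N, ∑ p ∈ bx a1 b1 a2 b2, ph (p + (((i:ℤ) + j) * s, ((j:ℤ) - i) * t)) =
        (N:ℂ) * Z := by
      intro i _
      rw [← Finset.sum_add_distrib]
      simp only [sub_add_cancel, Finset.sum_const, card_range, nsmul_eq_mul]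
    rw [Finset.sum_congr rfl e3, Finset.sum_const, card_range, nsmul_eq_mul]
    ring
  have e4 : (N:ℝ) ^ 2 * ‖Z‖ = ‖((N:ℂ) ^ 2) * Z‖ := by
    rw [norm_mul, norm_pow, Complex.norm_natCast]
  rw [e4, e1]
  refine (norm_add_le _ _).trans (add_le_add ?_ (norm_sum_le _ _))
  refine (norm_sum_le _ _).trans ((Finset.sum_le_sum (g := fun _ => (N:ℝ) * (n * (4 * N * L * (A1 + A2))))
    fun i hi => ?_).trans ?_)
  · refine (norm_sum_le _ _).trans ((Finset.sum_le_sum fun j hj => hsh i hi j hj).trans ?_)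
    rw [Finset.sum_const, card_range, nsmul_eq_mul]
  · rw [Finset.sum_const, card_range, nsmul_eq_mul]
    refine le_of_eq ?_
    ring

end Pool.Agent.H44W
end

-- from Lib.H44W.V8
section
/-!
CHUNK V8 (M). The fourfold correlations over a box are small if g has no correlation with window-linear functions.
Apply box_avg (V7) with ph p = CG n (cut n g) (sD q s t p) (sE q s t h p), |ph| <= n (n terms of norm <= 1: norm_cut).
For p' = p + ((i+j) s, (j-i) t): sD q s t p' = sD q s t p + P j with P = 2 q s t, and sE q s t h p' = sE q s t h p + Q i with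
Q = -(2 q h s t) (ring). P, Q are not 0 (q >= 1). |P| + |Q| = 2 q |s t| (1 + |h|) <= 2 q L^2 (1 + H), so
2 N (|P| + |Q|) <= 4 q L^2 (1+H) N <= l. CG_prog (E5): the inner double sum is <= N * (l * m). The box has at most A1 A2 points.
So N^2 |sum| <= N^2 * 4 n N L (A1 + A2) + A1 A2 * N l m; divide by N^2.
-/
namespace Pool.Agent.H44W
open Finset

theorem cg_box (n q l N L H A1 A2 : ℕ) (hq : 1 ≤ q) (hN : 1 ≤ N)
    (hl : 4 * q * L ^ 2 * (1 + H) * N ≤ l) (a1 b1 a2 b2 : ℤ) (h1 : b1 - a1 ≤ A1)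
    (h2 : b2 - a2 ≤ A2) (s t h : ℤ) (hs0 : s ≠ 0) (ht0 : t ≠ 0) (hh0 : h ≠ 0) (hs : |s| ≤ L)
    (ht : |t| ≤ L) (hh : |h| ≤ H) (g : ℤ → ℂ) (hg : ∀ x, ‖g x‖ ≤ 1) (m : ℝ)
    (hm : ∀ w : ℤ → ℂ, WL l w → ‖∑ y ∈ Icc (1:ℤ) n, g y * w y‖ ≤ m) :
    ‖∑ p ∈ bx a1 b1 a2 b2, CG n (cut n g) (sD q s t p) (sE q s t h p)‖ ≤
      4 * n * N * L * (A1 + A2) + A1 * A2 * l * m / N := by
  have hN0 : 0 < N := by omega
  have hNr : (0:ℝ) < N := by exact_mod_cast hN0
  have hm0 : 0 ≤ m := by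
    have h := hm (fun _ => 0) ⟨0, fun _ => 0, fun _ => 0, fun _ => by simp, fun y => by simp⟩
    exact (norm_nonneg _).trans h
  have hph : ∀ p : ℤ × ℤ, ‖CG n (cut n g) (sD q s t p) (sE q s t h p)‖ ≤ (n:ℝ) := by
    intro p
    unfold CG
    refine (norm_sum_le _ _).trans ?_
    have hc : ∀ x, ‖cut n g x‖ ≤ 1 := norm_cut n g hg
    have h1 : ∀ y ∈ Icc (1:ℤ) n, ‖cut n g y * (starRingEnd ℂ) (cut n g (y + sD q s t p)) *
        (starRingEnd ℂ) (cut n g (y + sE q s t h p)) *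
        cut n g (y + sD q s t p + sE q s t h p)‖ ≤ 1 := by
      intro y _
      rw [norm_mul, norm_mul, norm_mul, RCLike.norm_conj, RCLike.norm_conj]
      exact mul_le_one₀ (mul_le_one₀ (mul_le_one₀ (hc _) (norm_nonneg _) (hc _)) (norm_nonneg _) (hc _))
        (norm_nonneg _) (hc _)
    refine (Finset.sum_le_sum h1).trans ?_
    rw [Finset.sum_const, Int.card_Icc]
    simp
  have hbox := box_avg a1 b1 a2 b2 A1 A2 h1 h2 (n:ℝ) (Nat.cast_nonneg n)
    (fun p => CG n (cut n g) (sD q s t p) (sE q s t h p)) hph N L hN s t hs ht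
  have hq0 : (q:ℤ) ≠ 0 := by
    have : q ≠ 0 := by omega
    exact_mod_cast this
  have hP : 2 * (q:ℤ) * s * t ≠ 0 := mul_ne_zero (mul_ne_zero (mul_ne_zero two_ne_zero hq0) hs0) ht0
  have hQ : -(2 * (q:ℤ) * h * s * t) ≠ 0 :=
    neg_ne_zero.2 (mul_ne_zero (mul_ne_zero (mul_ne_zero (mul_ne_zero two_ne_zero hq0) hh0) hs0) ht0)
  have hl' : 2 * ((N:ℤ) * (|2 * (q:ℤ) * s * t| + |-(2 * (q:ℤ) * h * s * t)|)) ≤ (l:ℤ) := by
    have e1 : |2 * (q:ℤ) * s * t| = 2 * q * (|s| * |t|) := by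
      rw [abs_mul, abs_mul, abs_mul, abs_two, Nat.abs_cast]
      ring
    have e2 : |-(2 * (q:ℤ) * h * s * t)| = 2 * q * (|h| * (|s| * |t|)) := by
      rw [abs_neg, abs_mul, abs_mul, abs_mul, abs_mul, abs_two, Nat.abs_cast]
      ring
    have hst : |s| * |t| ≤ (L:ℤ) * L := mul_le_mul hs ht (abs_nonneg _) (by positivity)
    have hhst : |h| * (|s| * |t|) ≤ (H:ℤ) * ((L:ℤ) * L) :=
      mul_le_mul hh hst (by positivity) (by positivity)
    have hlz : 4 * (q:ℤ) * (L:ℤ) ^ 2 * (1 + (H:ℤ)) * N ≤ l := by exact_mod_cast hl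
    rw [e1, e2]
    calc 2 * ((N:ℤ) * (2 * q * (|s| * |t|) + 2 * q * (|h| * (|s| * |t|))))
        ≤ 2 * ((N:ℤ) * (2 * q * ((L:ℤ) * L) + 2 * q * ((H:ℤ) * ((L:ℤ) * L)))) := by
          gcongr
      _ = 4 * (q:ℤ) * (L:ℤ) ^ 2 * (1 + (H:ℤ)) * N := by ring
      _ ≤ l := hlz
  have hin : ∀ p ∈ bx a1 b1 a2 b2, ‖∑ i ∈ range N, ∑ j ∈ range N,
      CG n (cut n g) (sD q s t (p + (((i:ℤ) + j) * s, ((j:ℤ) - i) * t)))
        (sE q s t h (p + (((i:ℤ) + j) * s, ((j:ℤ) - i) * t)))‖ ≤ (N:ℝ) * (l * m) := by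
    intro p _
    have e : ∀ i j : ℕ, CG n (cut n g) (sD q s t (p + (((i:ℤ) + j) * s, ((j:ℤ) - i) * t)))
        (sE q s t h (p + (((i:ℤ) + j) * s, ((j:ℤ) - i) * t))) =
        CG n (cut n g) (sD q s t p + (2 * (q:ℤ) * s * t) * j)
          (sE q s t h p + (-(2 * (q:ℤ) * h * s * t)) * i) := by
      intro i j
      have a1 : sD q s t (p + (((i:ℤ) + j) * s, ((j:ℤ) - i) * t)) =
          sD q s t p + (2 * (q:ℤ) * s * t) * j := by
        unfold sD
        simp only [Prod.fst_add, Prod.snd_add]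
        ring
      have a2 : sE q s t h (p + (((i:ℤ) + j) * s, ((j:ℤ) - i) * t)) =
          sE q s t h p + (-(2 * (q:ℤ) * h * s * t)) * i := by
        unfold sE
        simp only [Prod.fst_add, Prod.snd_add]
        ring
      rw [a1, a2]
    rw [Finset.sum_congr rfl (fun i _ => Finset.sum_congr rfl (fun j _ => e i j))]
    exact CG_prog l n N hN0 _ _ hP hQ hl' g hg m hm _ _
  have hcard : ((bx a1 b1 a2 b2).card : ℝ) ≤ (A1:ℝ) * A2 := by
    have h3 : (bx a1 b1 a2 b2).card ≤ A1 * A2 := by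
      unfold bx
      rw [Finset.card_product, Int.card_Ico, Int.card_Ico]
      exact Nat.mul_le_mul (by omega) (by omega)
    exact_mod_cast h3
  have hsum := Finset.sum_le_sum hin
  rw [Finset.sum_const, nsmul_eq_mul] at hsum
  have hlm : (0:ℝ) ≤ (N:ℝ) * (l * m) := by positivity
  have hsum2 := hsum.trans (mul_le_mul_of_nonneg_right hcard hlm)
  have hN2 : (0:ℝ) < (N:ℝ) ^ 2 := by positivity
  refine le_of_mul_le_mul_left ?_ hN2
  refine hbox.trans ?_
  calc _ ≤ (N:ℝ) ^ 2 * (n * (4 * N * L * (A1 + A2))) + (A1:ℝ) * A2 * ((N:ℝ) * (l * m)) := by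
        exact add_le_add le_rfl hsum2
    _ = (N:ℝ) ^ 2 * (4 * n * N * L * (A1 + A2) + A1 * A2 * l * m / N) := by
        field_simp

end Pool.Agent.H44W
end

-- from Lib.H44W.D1
section
/-!
CHUNK D1 (S/M). The two steps and the box sum put together (no parameters chosen yet).
Let S = bx A1 B1 A2 B2 and C(s,t) = the first correlation. step1 (V3) with M := the bound M1, where for all nonzero s, t with
|s|,|t| < L: step2 (V5; take M = max n (q B1 B2)) gives |C(s,t)|^2 <= 9 n A1 A2 (n A1 A2 / H + M2), M2 := 4 n N L (A1+A2) +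
A1 A2 l m / N, because by cor2_eq (V6) the second correlation is a sum of CG over a box with sides <= A1, A2
(b1 - a1 <= B1 - A1 <= A1), bounded by M2 by cg_box (V8) (|s| < L gives |s| <= L, |h| < H gives |h| <= H).
So |C(s,t)| <= sqrt(9 n A1 A2 (n A1 A2/H + M2)) =: M1 (m >= 0 is needed for nothing, but M2 >= 0: m >= 0 since hm with w = 0,
WL l 0 holds with ep = 0). Conclusion: step1.
-/
namespace Pool.Agent.H44W
open Finset

theorem two_steps (n q l N L H A1 A2 B1 B2 : ℕ) (hn : 1 ≤ n) (hq : 1 ≤ q) (hN : 1 ≤ N)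
    (hL : 1 ≤ L) (hH : 1 ≤ H) (hl : 4 * q * L ^ 2 * (1 + H) * N ≤ l) (h2L1 : 2 * L ≤ A1)
    (h2L2 : 2 * L ≤ A2) (hHL1 : H * L ≤ A1) (hHL2 : H * L ≤ A2) (hB1 : B1 ≤ 2 * A1)
    (hB2 : B2 ≤ 2 * A2) (W f g : ℤ → ℂ) (hW : ∀ x, ‖W x‖ ≤ 1) (hf : ∀ x, ‖f x‖ ≤ 1)
    (hg : ∀ x, ‖g x‖ ≤ 1) (m : ℝ)
    (hm : ∀ w : ℤ → ℂ, WL l w → ‖∑ y ∈ Icc (1:ℤ) n, g y * w y‖ ≤ m) :
    ‖TF n (pd q (Ico (A1:ℤ) B1) (Ico (A2:ℤ) B2)) W f g‖ ^ 2 ≤
      12 * n * A1 * A2 * (6 * n * A1 * A2 / L + Real.sqrt (9 * n * A1 * A2 *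
        (n * A1 * A2 / H + (4 * n * N * L * (A1 + A2) + A1 * A2 * l * m / N)))) := by
  have hWL0 : WL l (fun _ => (0 : ℂ)) :=
    ⟨0, fun _ => 0, fun _ => 0, fun j => by rw [norm_zero]; exact zero_le_one, fun y => by rw [zero_mul]⟩
  have hm0 : 0 ≤ m := (norm_nonneg _).trans (hm _ hWL0)
  have hM20 : 0 ≤ 4 * (n : ℝ) * N * L * (A1 + A2) + A1 * A2 * l * m / N := by positivity
  refine step1 n q L A1 A2 B1 B2 hn hL h2L1 h2L2 hB1 hB2 W f g hW hf hg _ (Real.sqrt_nonneg _) ?_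
  intro s t hs ht hsL htL
  refine Real.le_sqrt_of_sq_le ?_
  refine step2 n q L H A1 A2 B1 B2 hn hH hHL1 hHL2 hB1 hB2 (max (n : ℤ) ((q : ℤ) * B1 * B2)) (le_max_left _ _) f g hf hg
    s t hsL htL _ hM20 ?_
  intro h hh0 hhH
  obtain ⟨a1, b1, a2, b2, ha1, hb1, ha2, hb2, e⟩ := cor2_eq n q A1 A2 B1 B2 _ (le_max_right (n : ℤ) _) g s t h
  rw [e]
  exact cg_box n q l N L H A1 A2 hq hN hl a1 b1 a2 b2 (by omega) (by omega) s t h hs ht hh0 hsL.le htL.le hhH.le g hg m hm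

end Pool.Agent.H44W
end
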