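import Pool.Agent.Lib.H1M.RV3.M004
import Pool.Agent.Lib.H1M.RV3.M005

/-! Merged copies (to shorten the build) of Lib.H21T.B1, Lib.H21T.B2, Lib.H21T.B3, Lib.H21T.M1, Lib.H21T.M3, Lib.H21T.M7, Lib.H81A.DY, Lib.H81A.HB, Lib.H37T.A0, Lib.H37T.A1, Lib.H44W.W1, Lib.H37T.A2, Lib.H81E.C1, Lib.H81E.C2, Lib.H81E.C3, Lib.H81E.C4, Lib.H81W.Defs. -/

-- from Lib.H21T.B1
section

/-!
# Chunk B1 (S/M): a ceiling identity
-/

namespace Pool.Agent.Lib.H21T

open Finset Pool.Agent.SZW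

/-- `⌈(u - t j) / s⌉` depends only on `⌈u⌉`. -/
theorem b1_red (s : ℕ) (hs : 1 ≤ s) (m : ℤ) (u : ℝ) : ⌈(u - m) / s⌉ = ⌈((⌈u⌉ : ℝ) - m) / s⌉ := by
  have hs0 : (0 : ℝ) < s := by exact_mod_cast hs
  apply eq_of_forall_ge_iff
  intro k
  rw [Int.ceil_le, Int.ceil_le, div_le_iff₀ hs0, div_le_iff₀ hs0, sub_le_iff_le_add, sub_le_iff_le_add]
  have h1 : (k : ℝ) * s + m = ((k * s + m : ℤ) : ℝ) := by push_cast; ring
  rw [h1, Int.cast_le, Int.ceil_le]

/-- the ceiling of an integer quotient -/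
theorem b1_int (s : ℕ) (hs : 1 ≤ s) (n : ℤ) : ⌈(n : ℝ) / s⌉ = -((-n) / (s : ℤ)) := by
  have hs0 : (0 : ℝ) < s := by exact_mod_cast hs
  have hs1 : (0 : ℤ) < s := by exact_mod_cast hs
  apply eq_of_forall_ge_iff
  intro k
  rw [Int.ceil_le, div_le_iff₀ hs0]
  have h1 : (k : ℝ) * s = ((k * s : ℤ) : ℝ) := by push_cast; ring
  rw [h1, Int.cast_le, neg_le, Int.le_ediv_iff_mul_le hs1, neg_mul, neg_le_neg_iff]

/-- one step -/
theorem b1_step (s : ℕ) (hs : 1 ≤ s) (n : ℤ) :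
    ⌈((n + 1 : ℤ) : ℝ) / s⌉ - ⌈(n : ℝ) / s⌉ = if (s : ℤ) ∣ n then 1 else 0 := by
  have hs1 : (0 : ℤ) < s := by exact_mod_cast hs
  rw [b1_int s hs, b1_int s hs]
  split_ifs with h
  · obtain ⟨k, rfl⟩ := h
    have h1 : (-((s : ℤ) * k)) / (s : ℤ) = -k := by
      rw [← mul_neg, Int.mul_ediv_cancel_left _ hs1.ne']
    have h2 : (-((s : ℤ) * k + 1)) / (s : ℤ) = -k - 1 := by
      have h3 : -((s : ℤ) * k + 1) = (s - 1) + (-k - 1) * s := by ring
      rw [h3, Int.add_mul_ediv_right _ _ hs1.ne', Int.ediv_eq_zero_of_lt (by omega) (by omega), zero_add]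
    rw [h1, h2]
    ring
  · have h4 := Int.emod_add_mul_ediv (-n) s
    have h5 := Int.emod_nonneg (-n) hs1.ne'
    have h6 : (-n) % (s : ℤ) ≠ 0 := by
      intro h7
      apply h
      exact (dvd_neg).1 (Int.dvd_of_emod_eq_zero h7)
    have h8 := Int.emod_lt_of_pos (-n) hs1
    have h2 : (-(n + 1)) / (s : ℤ) = (-n) / s := by
      have h3 : -(n + 1) = ((-n) % s - 1) + ((-n) / s) * s := by linarith [h4, mul_comm (s : ℤ) ((-n) / s)]
      rw [h3, Int.add_mul_ediv_right _ _ hs1.ne', Int.ediv_eq_zero_of_lt (by omega) (by omega), zero_add]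
    rw [h2]
    ring

/-- exactly one `j < s` has `s ∣ n - t j` -/
theorem b1_one (s t : ℕ) (hs : 1 ≤ s) (hco : Nat.Coprime s t) (n : ℤ) :
    ∑ j ∈ range s, (if (s : ℤ) ∣ n - t * j then (1 : ℤ) else 0) = 1 := by
  have hs1 : (0 : ℤ) < s := by exact_mod_cast hs
  rw [Finset.sum_boole]
  have hco' : IsCoprime (t : ℤ) (s : ℤ) := (Nat.isCoprime_iff_coprime.2 hco).symm
  obtain ⟨a, b, hab⟩ := hco'
  have h1 : (range s).filter (fun j : ℕ => (s : ℤ) ∣ n - t * j) = {((n * a) % s).toNat} := by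
    have h5 := Int.emod_nonneg (n * a) hs1.ne'
    have h6 := Int.emod_lt_of_pos (n * a) hs1
    ext j
    rw [mem_filter, mem_range, mem_singleton]
    constructor
    · rintro ⟨h2, h3⟩
      have h4 : (j : ℤ) % s = (n * a) % s := by
        apply Int.emod_emod_of_dvd _ (dvd_refl _) |>.symm.trans
        rw [Int.emod_emod_of_dvd _ (dvd_refl _)]
        apply (Int.emod_emod_of_dvd _ (dvd_refl _)).symm.trans
        rw [Int.emod_emod_of_dvd _ (dvd_refl _)]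
        apply Int.ModEq.symm
        rw [Int.modEq_iff_dvd]
        have h7 : (j : ℤ) - n * a = (s : ℤ) * (b * j) - a * (n - t * j) := by
          linear_combination (-(j : ℤ)) * hab
        rw [h7]
        exact dvd_sub (Dvd.intro _ rfl) (Dvd.dvd.mul_left h3 _)
      have h8 : (j : ℤ) % s = j := Int.emod_eq_of_lt (by omega) (by exact_mod_cast h2)
      omega
    · rintro rfl
      refine ⟨by omega, ?_⟩
      rw [Int.toNat_of_nonneg h5]
      have h9 := Int.emod_add_mul_ediv (n * a) s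
      have h10 : n - t * ((n * a) % s) = (s : ℤ) * (n * b + t * ((n * a) / s)) := by
        linear_combination (-n) * hab - t * h9
      rw [h10]
      exact Dvd.intro _ rfl
  rw [h1, card_singleton]
  rfl

/-- `c = ∑_{j < s} ⌈- t j / s⌉`. For an integer `k`: `s k ≥ u - t j` iff `s k ≥ ⌈u⌉ - t j`, so `⌈(u - t j) / s⌉ = ⌈(⌈u⌉ - t j) / s⌉` and one may assume `u = n ∈ ℤ`.
For integers `⌈(n + 1 - t j) / s⌉ - ⌈(n - t j) / s⌉` is `1` if `s ∣ n - t j` and `0` otherwise, and as `t` is prime to `s` exactly one `j < s` has `s ∣ n - t j`.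
Induction (in both directions) from `n = 0`. -/
theorem b1 (s t : ℕ) (hs : 1 ≤ s) (hco : Nat.Coprime s t) :
    ∃ c : ℤ, ∀ u : ℝ, ∑ j ∈ range s, ⌈(u - t * j) / s⌉ = ⌈u⌉ + c := by
  have hstep : ∀ n : ℤ, ∑ j ∈ range s, ⌈(((n + 1 : ℤ) : ℝ) - ((t * j : ℤ) : ℝ)) / s⌉ =
      ∑ j ∈ range s, ⌈((n : ℝ) - ((t * j : ℤ) : ℝ)) / s⌉ + 1 := by
    intro n
    have h0 : ∑ j ∈ range s, ⌈(((n + 1 : ℤ) : ℝ) - ((t * j : ℤ) : ℝ)) / s⌉ =
        ∑ j ∈ range s, (⌈((n : ℝ) - ((t * j : ℤ) : ℝ)) / s⌉ + (if (s : ℤ) ∣ n - t * j then (1 : ℤ) else 0)) := by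
      refine Finset.sum_congr rfl fun j _ => ?_
      have h1 := b1_step s hs (n - t * j)
      have h2 : ((n - t * j + 1 : ℤ) : ℝ) = ((n + 1 : ℤ) : ℝ) - ((t * j : ℤ) : ℝ) := by push_cast; ring
      have h3 : ((n - t * j : ℤ) : ℝ) = (n : ℝ) - ((t * j : ℤ) : ℝ) := by push_cast; ring
      rw [h2, h3] at h1
      omega
    rw [h0, Finset.sum_add_distrib, b1_one s t hs hco n]
  have hall : ∀ n : ℤ, ∑ j ∈ range s, ⌈((n : ℝ) - ((t * j : ℤ) : ℝ)) / s⌉ =
      n + ∑ j ∈ range s, ⌈(((0 : ℤ) : ℝ) - ((t * j : ℤ) : ℝ)) / s⌉ := by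
    intro n
    induction n using Int.induction_on with
    | zero => rw [zero_add]
    | succ n ih =>
      rw [hstep, ih]
      ring
    | pred n ih =>
      have h1 := hstep (-(n : ℤ) - 1)
      have h2 : (-(n : ℤ) - 1 + 1) = -(n : ℤ) := by ring
      rw [h2, ih] at h1
      linarith
  refine ⟨∑ j ∈ range s, ⌈(((0 : ℤ) : ℝ) - ((t * j : ℤ) : ℝ)) / s⌉, fun u => ?_⟩
  rw [← hall]
  refine Finset.sum_congr rfl fun j _ => ?_
  have h1 := b1_red s hs (t * j) u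
  have h2 : ((t * j : ℤ) : ℝ) = (t : ℝ) * j := by push_cast; ring
  rw [h2] at h1
  rw [h1, h2]

end Pool.Agent.Lib.H21T
end

-- from Lib.H21T.B2
section

/-!
# Chunk B2 (S): one block
-/

namespace Pool.Agent.Lib.H21T

open Finset Pool.Agent.SZW

/-- With `c` of `b1` let `C = c + t (s - 1) / 2`. `y j ≤ y0 + η - t j / s = (s (y0 + η) - t j) / s`, so `∑ ⌈y j⌉ ≤ ⌈s (y0 + η)⌉ + c ≤ s (y0 + η) + 1 + c`, and
`∑ y j ≥ s y0 - t (s - 1) / 2 - s η`. Lower bound: `∑ ⌈y j⌉ ≥ ⌈s (y0 - η)⌉ + c ≥ s (y0 - η) + c`, `∑ y j ≤ s y0 - t (s - 1) / 2 + s η`. -/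
theorem b2 (s t : ℕ) (hs : 1 ≤ s) (hco : Nat.Coprime s t) :
    ∃ C : ℝ, ∀ (y : ℕ → ℝ) (y0 η : ℝ), (∀ j < s, |y j - (y0 - (t : ℝ) * j / s)| ≤ η) →
      C - 2 * s * η ≤ ∑ j ∈ range s, Fr (y j) ∧ ∑ j ∈ range s, Fr (y j) ≤ C + 1 + 2 * s * η := by
  obtain ⟨c, hc⟩ := b1 s t hs hco
  have hs0 : (0:ℝ) < s := by exact_mod_cast hs
  have hsum : ∑ j ∈ range s, ((t : ℝ) * j / s) = t * (s - 1) / 2 := by
    have h1 : ∑ j ∈ range s, ((t : ℝ) * j / s) = (t : ℝ) / s * ∑ j ∈ range s, (j : ℝ) := by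
      rw [Finset.mul_sum]
      refine Finset.sum_congr rfl fun j _ => ?_
      ring
    have h2 : (∑ j ∈ range s, (j : ℝ)) * 2 = s * (s - 1) := by
      have h3 := Finset.sum_range_id_mul_two s
      have h4 : (((∑ j ∈ range s, j) * 2 : ℕ) : ℝ) = ((s * (s - 1) : ℕ) : ℝ) := by rw [h3]
      rw [Nat.cast_mul, Nat.cast_mul, Nat.cast_sub hs, Nat.cast_sum] at h4
      exact_mod_cast h4
    have h3 : ∑ j ∈ range s, (j : ℝ) = s * (s - 1) / 2 := by linarith
    rw [h1, h3]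
    field_simp
  refine ⟨c + t * (s - 1) / 2, fun y y0 η hy => ?_⟩
  have hup : ∑ j ∈ range s, y j ≤ s * y0 - t * (s - 1) / 2 + s * η := by
    have h1 : ∀ j ∈ range s, y j ≤ y0 - (t : ℝ) * j / s + η := by
      intro j hj
      have := (abs_le.1 (hy j (Finset.mem_range.1 hj))).2
      linarith
    refine (Finset.sum_le_sum h1).trans ?_
    rw [Finset.sum_add_distrib, Finset.sum_sub_distrib, hsum, Finset.sum_const, Finset.sum_const, Finset.card_range,
      nsmul_eq_mul, nsmul_eq_mul]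
  have hlo : s * y0 - t * (s - 1) / 2 - s * η ≤ ∑ j ∈ range s, y j := by
    have h1 : ∀ j ∈ range s, y0 - (t : ℝ) * j / s - η ≤ y j := by
      intro j hj
      have := (abs_le.1 (hy j (Finset.mem_range.1 hj))).1
      linarith
    refine le_trans ?_ (Finset.sum_le_sum h1)
    rw [Finset.sum_sub_distrib, Finset.sum_sub_distrib, hsum, Finset.sum_const, Finset.sum_const, Finset.card_range,
      nsmul_eq_mul, nsmul_eq_mul]
  have hcup : ∑ j ∈ range s, ((⌈y j⌉ : ℤ) : ℝ) ≤ s * (y0 + η) + 1 + c := by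
    have h1 : ∑ j ∈ range s, ⌈y j⌉ ≤ ∑ j ∈ range s, ⌈(s * (y0 + η) - t * j) / (s : ℝ)⌉ := by
      refine Finset.sum_le_sum fun j hj => Int.ceil_le_ceil ?_
      have := (abs_le.1 (hy j (Finset.mem_range.1 hj))).2
      have h2 : (s * (y0 + η) - t * j) / (s : ℝ) = y0 - (t : ℝ) * j / s + η := by field_simp; ring
      rw [h2]
      linarith
    rw [hc] at h1
    have h2 : ∑ j ∈ range s, ((⌈y j⌉ : ℤ) : ℝ) ≤ ((⌈(s : ℝ) * (y0 + η)⌉ : ℤ) : ℝ) + c := by exact_mod_cast h1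
    have h3 := Int.ceil_lt_add_one ((s : ℝ) * (y0 + η))
    linarith
  have hclo : s * (y0 - η) + c ≤ ∑ j ∈ range s, ((⌈y j⌉ : ℤ) : ℝ) := by
    have h1 : ∑ j ∈ range s, ⌈(s * (y0 - η) - t * j) / (s : ℝ)⌉ ≤ ∑ j ∈ range s, ⌈y j⌉ := by
      refine Finset.sum_le_sum fun j hj => Int.ceil_le_ceil ?_
      have := (abs_le.1 (hy j (Finset.mem_range.1 hj))).1
      have h2 : (s * (y0 - η) - t * j) / (s : ℝ) = y0 - (t : ℝ) * j / s - η := by field_simp; ring
      rw [h2]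
      linarith
    rw [hc] at h1
    have h2 : ((⌈(s : ℝ) * (y0 - η)⌉ : ℤ) : ℝ) + c ≤ ∑ j ∈ range s, ((⌈y j⌉ : ℤ) : ℝ) := by exact_mod_cast h1
    have h3 := Int.le_ceil ((s : ℝ) * (y0 - η))
    linarith
  have hF : ∑ j ∈ range s, Fr (y j) = ∑ j ∈ range s, ((⌈y j⌉ : ℤ) : ℝ) - ∑ j ∈ range s, y j := by
    rw [← Finset.sum_sub_distrib]
    rfl
  rw [hF]
  constructor <;> nlinarith

end Pool.Agent.Lib.H21T
end

-- from Lib.H21T.B3
section

/-!
# Chunk B3 (S/M): a sequence of blocks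
-/

namespace Pool.Agent.Lib.H21T

open Finset Pool.Agent.SZW

theorem b3_fr (y z : ℝ) : |Fr z - Fr y| ≤ 1 := by
  unfold Fr
  have h1 := Int.le_ceil y
  have h2 := Int.ceil_lt_add_one y
  have h3 := Int.le_ceil z
  have h4 := Int.ceil_lt_add_one z
  rw [abs_le]
  constructor <;> linarith

theorem b3_blocks (s : ℕ) (f : ℕ → ℝ) (B : ℝ) (n : ℕ) (h : ∀ l < n, |∑ j ∈ range s, f (l * s + j)| ≤ B) :
    |∑ j ∈ range (n * s), f j| ≤ n * B := by
  induction n with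
  | zero => simp
  | succ n ih =>
    have h1 := ih fun l hl => h l (by omega)
    have h2 := h n (by omega)
    rw [Nat.succ_mul, Finset.sum_range_add]
    refine (abs_add_le _ _).trans ?_
    push_cast
    linarith

/-- Cut `range W` into `W / s` blocks of length `s` and a rest of fewer than `s` terms. On a block `b2` holds for `z` and for `y` with the same constant `C`
(`y0 = y (l s)`), so the difference is at most `1 + 4 s η` in absolute value; every single term is at most `1` in absolute value (`0 ≤ Fr < 1`). -/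
theorem b3 (s t W : ℕ) (hs : 1 ≤ s) (hco : Nat.Coprime s t) (y z : ℕ → ℝ) (η : ℝ) (hη : 0 ≤ η)
    (hy : ∀ l j, (l + 1) * s ≤ W → j < s → |y (l * s + j) - (y (l * s) - (t : ℝ) * j / s)| ≤ η)
    (hz : ∀ l j, (l + 1) * s ≤ W → j < s → |z (l * s + j) - (z (l * s) - (t : ℝ) * j / s)| ≤ η) :
    |∑ j ∈ range W, (Fr (z j) - Fr (y j))| ≤ (W : ℝ) / s * (1 + 4 * s * η) + s := by
  obtain ⟨C, hC⟩ := b2 s t hs hco
  have hs' : (0 : ℝ) < s := by exact_mod_cast hs
  have hbl : ∀ l < W / s, |∑ j ∈ range s, (Fr (z (l * s + j)) - Fr (y (l * s + j)))| ≤ 1 + 4 * s * η := by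
    intro l hl
    have hl2 : (l + 1) * s ≤ W := by
      calc (l + 1) * s ≤ (W / s) * s := Nat.mul_le_mul_right s hl
        _ ≤ W := Nat.div_mul_le_self W s
    have h1 := hC (fun j => y (l * s + j)) (y (l * s)) η fun j hj => hy l j hl2 hj
    have h2 := hC (fun j => z (l * s + j)) (z (l * s)) η fun j hj => hz l j hl2 hj
    rw [Finset.sum_sub_distrib, abs_le]
    constructor
    · linarith [h1.1, h1.2, h2.1, h2.2]
    · linarith [h1.1, h1.2, h2.1, h2.2]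
  have h3 := b3_blocks s (fun j => Fr (z j) - Fr (y j)) (1 + 4 * s * η) (W / s) hbl
  have h4 : |∑ j ∈ range (W % s), (Fr (z (W / s * s + j)) - Fr (y (W / s * s + j)))| ≤ s := by
    refine (Finset.abs_sum_le_sum_abs _ _).trans ?_
    have h5 : ∑ j ∈ range (W % s), |Fr (z (W / s * s + j)) - Fr (y (W / s * s + j))| ≤ ∑ _j ∈ range (W % s), (1 : ℝ) :=
      Finset.sum_le_sum fun j _ => b3_fr _ _
    refine h5.trans ?_
    rw [Finset.sum_const, card_range, nsmul_eq_mul, mul_one]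
    exact_mod_cast (Nat.mod_lt W hs).le
  have h6 : W = W / s * s + W % s := by
    rw [Nat.mul_comm]
    exact (Nat.div_add_mod W s).symm
  have h7 : ∑ j ∈ range W, (Fr (z j) - Fr (y j)) = ∑ j ∈ range (W / s * s), (Fr (z j) - Fr (y j)) +
      ∑ j ∈ range (W % s), (Fr (z (W / s * s + j)) - Fr (y (W / s * s + j))) := by
    rw [← Finset.sum_range_add (fun j => Fr (z j) - Fr (y j)), ← h6]
  rw [h7]
  refine (abs_add_le _ _).trans ?_
  have h8 : ((W / s : ℕ) : ℝ) ≤ (W : ℝ) / s := Nat.cast_div_le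
  have h9 : (0 : ℝ) ≤ 1 + 4 * s * η := by positivity
  have h10 := mul_le_mul_of_nonneg_right h8 h9
  linarith

end Pool.Agent.Lib.H21T
end

-- from Lib.H21T.M1
section

/-!
# Chunk M1 (S/M): the coefficients of the model
-/

namespace Pool.Agent.Lib.H21T

open Finset Pool.Agent.SZW

/-- `|μ| ≤ 1` and the harmonic sum up to `Q / d ≤ Q`. -/
theorem m1 (Q d : ℕ) (hQ : 1 ≤ Q) : |lam Q d| ≤ 1 + Real.log Q := by
  have h1 : |lam Q d| ≤ ∑ r ∈ Icc 1 (Q / d), 1 / (r : ℝ) := by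
    refine (Finset.abs_sum_le_sum_abs _ _).trans (Finset.sum_le_sum fun r hr => ?_)
    have hr0 : (0 : ℝ) < r := by exact_mod_cast (mem_Icc.1 hr).1
    rw [abs_div, abs_of_pos hr0]
    have h2 : |((ArithmeticFunction.moebius r : ℤ) : ℝ)| ≤ 1 := by
      have h3 : |ArithmeticFunction.moebius r| ≤ 1 := ArithmeticFunction.abs_moebius_le_one
      exact_mod_cast h3
    gcongr
  have h2 : ∑ r ∈ Icc 1 (Q / d), 1 / (r : ℝ) ≤ ∑ r ∈ Icc 1 Q, 1 / (r : ℝ) := by
    apply Finset.sum_le_sum_of_subset_of_nonneg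
    · exact Finset.Icc_subset_Icc_right (Nat.div_le_self _ _)
    · intro i _ _
      positivity
  have h3 : ∑ r ∈ Icc 1 Q, 1 / (r : ℝ) ≤ 1 + Real.log Q := by
    have h4 := harmonic_le_one_add_log Q
    rw [harmonic_eq_sum_Icc] at h4
    push_cast at h4
    simpa only [one_div] using h4
  linarith

/-- `|gQ Q m| ≤ (number of divisors of m) (1 + log Q)`. -/
theorem m1_g (Q m : ℕ) (hQ : 1 ≤ Q) (hm : 1 ≤ m) : |gQ Q m| ≤ m.divisors.card * (1 + Real.log Q) := by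
  unfold gQ
  refine (Finset.abs_sum_le_sum_abs _ _).trans ?_
  refine (Finset.sum_le_sum fun d _ => m1 Q d hQ).trans ?_
  rw [Finset.sum_const, nsmul_eq_mul]
  have hlog : 0 ≤ 1 + Real.log Q := by
    have : 0 ≤ Real.log Q := Real.log_natCast_nonneg Q
    linarith
  refine mul_le_mul_of_nonneg_right ?_ hlog
  exact_mod_cast Finset.card_le_card (fun d hd => by
    rw [mem_filter] at hd
    exact Nat.mem_divisors.2 ⟨hd.2, by omega⟩)

/-- `∑_{d ≤ Q, q ∣ d} (1 / d) ∑_{r ≤ Q / d} μ(r) / r = ∑_{n ≤ Q, q ∣ n} (1 / n) ∑_{r ∣ n / q} μ(r)` (`n = d r`; `q ∣ d` means that `r` divides `n / q`), and the inner sum is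
`1` if `n = q` and `0` otherwise. -/
theorem m2 (Q q : ℕ) (hq : 1 ≤ q) :
    ∑ d ∈ (Icc 1 Q).filter (fun d => q ∣ d), lam Q d / d = if q ≤ Q then 1 / (q : ℝ) else 0 := by
  have h1 : ∑ d ∈ (Icc 1 Q).filter (fun d => q ∣ d), lam Q d / d =
      ∑ p ∈ ((Icc 1 Q).filter (fun d => q ∣ d)).sigma (fun d => Icc 1 (Q / d)),
        (ArithmeticFunction.moebius p.2 : ℝ) / (p.1 * p.2) := by
    rw [Finset.sum_sigma]
    refine Finset.sum_congr rfl fun d _ => ?_
    unfold lam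
    rw [Finset.sum_div]
    refine Finset.sum_congr rfl fun r _ => ?_
    rw [div_div, mul_comm (r : ℝ)]
  have h2 : ∑ n ∈ (Icc 1 Q).filter (fun n => q ∣ n), (1 / (n : ℝ)) * ∑ r ∈ (n / q).divisors, (ArithmeticFunction.moebius r : ℝ) =
      ∑ p ∈ ((Icc 1 Q).filter (fun n => q ∣ n)).sigma (fun n => (n / q).divisors),
        (ArithmeticFunction.moebius p.2 : ℝ) / p.1 := by
    rw [Finset.sum_sigma]
    refine Finset.sum_congr rfl fun n _ => ?_
    rw [Finset.mul_sum]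
    refine Finset.sum_congr rfl fun r _ => ?_
    ring
  have h3 : ∑ p ∈ ((Icc 1 Q).filter (fun d => q ∣ d)).sigma (fun d => Icc 1 (Q / d)),
        (ArithmeticFunction.moebius p.2 : ℝ) / (p.1 * p.2) =
      ∑ p ∈ ((Icc 1 Q).filter (fun n => q ∣ n)).sigma (fun n => (n / q).divisors),
        (ArithmeticFunction.moebius p.2 : ℝ) / p.1 := by
    refine Finset.sum_bij' (fun p _ => (⟨p.1 * p.2, p.2⟩ : Σ _ : ℕ, ℕ)) (fun p _ => (⟨p.1 / p.2, p.2⟩ : Σ _ : ℕ, ℕ)) ?_ ?_ ?_ ?_ ?_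
    · rintro ⟨d, r⟩ hp
      simp only [mem_sigma, mem_filter, mem_Icc] at hp ⊢
      obtain ⟨⟨⟨h4, h5⟩, h6⟩, h7, h8⟩ := hp
      have h9 : d * r ≤ Q := by
        rw [mul_comm]
        exact (Nat.le_div_iff_mul_le (by omega)).1 h8
      refine ⟨⟨⟨Nat.mul_pos h4 h7, h9⟩, Dvd.dvd.mul_right h6 r⟩, ?_⟩
      obtain ⟨k, rfl⟩ := h6
      have hk : 0 < k := Nat.pos_of_ne_zero (by rintro rfl; simp at h4)
      rw [mul_assoc, Nat.mul_div_cancel_left _ hq]
      exact Nat.mem_divisors.2 ⟨Dvd.intro_left k rfl, (Nat.mul_pos hk h7).ne'⟩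
    · rintro ⟨n, r⟩ hp
      simp only [mem_sigma, mem_filter, mem_Icc] at hp ⊢
      obtain ⟨⟨⟨h4, h5⟩, h6⟩, h7⟩ := hp
      obtain ⟨k, rfl⟩ := h6
      rw [Nat.mul_div_cancel_left _ hq, Nat.mem_divisors] at h7
      obtain ⟨⟨l, rfl⟩, h8⟩ := h7
      have hr : 0 < r := Nat.pos_of_ne_zero (by rintro rfl; simp at h8)
      have hl : 0 < l := Nat.pos_of_ne_zero (by rintro rfl; simp at h8)
      have h9 : q * (r * l) / r = q * l := by
        rw [show q * (r * l) = r * (q * l) by ring, Nat.mul_div_cancel_left _ hr]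
      rw [h9]
      have h10 : q * l * r ≤ Q := by
        rw [show q * l * r = q * (r * l) by ring]
        exact h5
      have h11 : 0 < q * l := Nat.mul_pos hq hl
      refine ⟨⟨⟨h11, (Nat.le_mul_of_pos_right _ hr).trans h10⟩, Dvd.intro l rfl⟩, hr, ?_⟩
      rw [Nat.le_div_iff_mul_le h11, mul_comm]
      exact h10
    · rintro ⟨d, r⟩ hp
      simp only [mem_sigma, mem_filter, mem_Icc] at hp
      have hr : 0 < r := hp.2.1
      simp only [Nat.mul_div_cancel _ hr]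
    · rintro ⟨n, r⟩ hp
      simp only [mem_sigma, mem_filter, mem_Icc, Nat.mem_divisors] at hp
      obtain ⟨⟨_, h6⟩, h7, _⟩ := hp
      have h8 : r ∣ n := h7.trans (Nat.div_dvd_of_dvd h6)
      simp only [Nat.div_mul_cancel h8]
    · rintro ⟨d, r⟩ _
      simp only
      push_cast
      rfl
  rw [h1, h3, ← h2]
  have h4 : ∀ n ∈ (Icc 1 Q).filter (fun n => q ∣ n), (1 / (n : ℝ)) * ∑ r ∈ (n / q).divisors, (ArithmeticFunction.moebius r : ℝ) =
      if n = q then 1 / (n : ℝ) else 0 := by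
    intro n hn
    rw [mem_filter, mem_Icc] at hn
    obtain ⟨⟨h5, h6⟩, k, rfl⟩ := hn
    have hk : 0 < k := Nat.pos_of_ne_zero (by rintro rfl; simp at h5)
    rw [Nat.mul_div_cancel_left _ hq]
    have h7 : ∑ r ∈ k.divisors, (ArithmeticFunction.moebius r : ℝ) = if k = 1 then 1 else 0 := by
      have h8 : ∑ r ∈ k.divisors, ArithmeticFunction.moebius r = if k = 1 then 1 else 0 := by
        have h9 := congrArg (fun f => f k) ArithmeticFunction.coe_zeta_mul_moebius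
        simp only [ArithmeticFunction.coe_zeta_mul_apply, ArithmeticFunction.one_apply] at h9
        exact h9
      have h10 := congrArg (fun z : ℤ => (z : ℝ)) h8
      push_cast at h10
      exact h10
    rw [h7]
    by_cases hk1 : k = 1
    · subst hk1
      simp
    · rw [if_neg hk1, mul_zero, if_neg]
      intro h
      apply hk1
      have : q * k = q * 1 := by rw [h, mul_one]
      exact Nat.eq_of_mul_eq_mul_left hq this
  rw [Finset.sum_congr rfl h4, Finset.sum_ite_eq']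
  by_cases hqQ : q ≤ Q
  · rw [if_pos hqQ, if_pos]
    exact mem_filter.2 ⟨mem_Icc.2 ⟨hq, hqQ⟩, dvd_refl _⟩
  · rw [if_neg hqQ, if_neg]
    intro h
    exact hqQ (mem_Icc.1 (mem_filter.1 h).1).2

end Pool.Agent.Lib.H21T
end

-- from Lib.H21T.M3
section

/-!
# Chunk M3 (S/M): the model at a rational
-/

namespace Pool.Agent.Lib.H21T

open Finset Pool.Agent.SZW

theorem m3_ceil (x d : ℕ) (hd : 1 ≤ d) : ∃ a : ℕ, x ≤ a * d ∧ a * d < x + d ∧ ∀ j, x ≤ j * d ↔ a ≤ j := by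
  refine ⟨(x + d - 1) / d, ?_, ?_, fun j => ?_⟩
  · have h1 := Nat.lt_div_mul_add (a := x + d - 1) hd
    omega
  · have h1 := Nat.div_mul_le_self (x + d - 1) d
    omega
  · have e1 : (x + d - 1) / d ≤ j ↔ (x + d - 1) / d < j + 1 := Nat.lt_succ_iff.symm
    rw [e1, Nat.div_lt_iff_lt_mul hd, Nat.succ_mul]
    omega

theorem m3_nn (d q : ℕ) (p : ℤ) (hq : 1 ≤ q) (hp : IsCoprime p (q : ℤ)) (h : ¬ q ∣ d) :
    1 / (q : ℝ) ≤ nn ((p : ℝ) / q * d) := by
  have hq0 : (0 : ℝ) < q := by exact_mod_cast hq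
  unfold nn
  generalize round ((p : ℝ) / q * d) = k
  have e1 : (p : ℝ) / q * d - k = ((p * d - k * q : ℤ) : ℝ) / q := by
    push_cast
    field_simp
  rw [e1, abs_div, abs_of_pos hq0]
  refine div_le_div_of_nonneg_right ?_ hq0.le
  have h1 : p * d - k * q ≠ 0 := by
    intro h0
    apply h
    have h2 : (q : ℤ) ∣ p * d := ⟨k, by linarith⟩
    have h3 := hp.symm.dvd_of_dvd_mul_left h2
    exact_mod_cast h3
  have h2 := Int.one_le_abs h1
  exact_mod_cast h2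

theorem m3_par (x H d : ℕ) (hd : 1 ≤ d) : ∃ a c : ℕ, a ≤ c ∧ |((c : ℝ) - a) - (H : ℝ) / d| ≤ 1 ∧
    ∀ f : ℕ → ℂ, ∑ m ∈ (Ico x (x + H)).filter (fun m => d ∣ m), f m = ∑ j ∈ Ico a c, f (j * d) := by
  obtain ⟨a, ha1, ha2, ha3⟩ := m3_ceil x d hd
  obtain ⟨c, hc1, hc2, hc3⟩ := m3_ceil (x + H) d hd
  have hac : a ≤ c := (ha3 c).1 (by omega)
  refine ⟨a, c, hac, ?_, fun f => ?_⟩
  · have hd0 : (0 : ℝ) < d := by exact_mod_cast hd
    have h1 : (x : ℝ) ≤ a * d := by exact_mod_cast ha1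
    have h2 : (a : ℝ) * d < x + d := by exact_mod_cast ha2
    have h3 : (x : ℝ) + H ≤ c * d := by exact_mod_cast hc1
    have h4 : (c : ℝ) * d < x + H + d := by exact_mod_cast hc2
    have e1 : ((c : ℝ) - a) - (H : ℝ) / d = (c * d - a * d - H) / d := by
      field_simp
    rw [e1, abs_div, abs_of_pos hd0, div_le_one hd0, abs_le]
    constructor <;> linarith
  · have e1 : (Ico x (x + H)).filter (fun m => d ∣ m) = (Ico a c).image (fun j => j * d) := by
      ext m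
      rw [mem_filter, mem_Ico, mem_image]
      constructor
      · rintro ⟨⟨h1, h2⟩, j, rfl⟩
        refine ⟨j, ?_, Nat.mul_comm _ _⟩
        rw [mem_Ico]
        refine ⟨(ha3 j).1 (by rwa [Nat.mul_comm]), ?_⟩
        by_contra hcon
        have h3 := (hc3 j).2 (not_lt.1 hcon)
        rw [Nat.mul_comm] at h3
        omega
      · rintro ⟨j, hj, rfl⟩
        rw [mem_Ico] at hj
        refine ⟨⟨(ha3 j).2 hj.1, ?_⟩, Dvd.intro_left _ rfl⟩
        by_contra hcon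
        have h3 := (hc3 j).1 (not_lt.1 hcon)
        omega
    rw [e1, sum_image]
    intro j _ k _ hjk
    exact Nat.eq_of_mul_eq_mul_right hd hjk

/-- If `q ∣ d` all terms are `1` (`ee_int`: `p m / q` is an integer) and the number of multiples of `d` in the interval is `H / d` up to `1`. If not: `m = d j`,
`j` in an interval of integers, geometric sum with `nn (p d / q) ≥ 1 / q` (`geom_bound`): norm at most `q / 2`. -/
theorem m3 (x H d q : ℕ) (p : ℤ) (hd : 1 ≤ d) (hq : 1 ≤ q) (hp : IsCoprime p (q : ℤ)) :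
    ‖∑ m ∈ (Ico x (x + H)).filter (fun m => d ∣ m), ee ((p : ℝ) / q * m) - (((if q ∣ d then (H : ℝ) / d else 0) : ℝ) : ℂ)‖ ≤ q := by
  have hq0 : (0 : ℝ) < q := by exact_mod_cast hq
  have hq1 : (1 : ℝ) ≤ q := by exact_mod_cast hq
  obtain ⟨a, c, hac, hcount, hpar⟩ := m3_par x H d hd
  rw [hpar]
  by_cases hqd : q ∣ d
  · rw [if_pos hqd]
    have h1 : ∀ j ∈ Ico a c, ee ((p : ℝ) / q * ((j * d : ℕ) : ℝ)) = 1 := by
      intro j _
      obtain ⟨k, hk⟩ := hqd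
      have e1 : (p : ℝ) / q * ((j * d : ℕ) : ℝ) = ((p * (j * k : ℕ) : ℤ) : ℝ) := by
        rw [hk]
        push_cast
        field_simp
      rw [e1, ee_int]
    rw [sum_congr rfl h1, sum_const, Nat.card_Ico, nsmul_eq_mul, mul_one]
    have e2 : ((c - a : ℕ) : ℂ) - (((H : ℝ) / d : ℝ) : ℂ) = ((((c : ℝ) - a) - (H : ℝ) / d : ℝ) : ℂ) := by
      rw [Nat.cast_sub hac]
      push_cast
      ring
    rw [e2, Complex.norm_real, Real.norm_eq_abs]
    linarith
  · rw [if_neg hqd]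
    have e1 : ∑ j ∈ Ico a c, ee ((p : ℝ) / q * ((j * d : ℕ) : ℝ)) =
        ∑ n ∈ Ico (a : ℤ) (c : ℤ), ee ((n : ℝ) * ((p : ℝ) / q * d)) := by
      have e9 : Ico (a : ℤ) (c : ℤ) = (Ico a c).image (fun j : ℕ => (j : ℤ)) := by
        ext n
        rw [mem_Ico, mem_image]
        constructor
        · rintro ⟨h1, h2⟩
          obtain ⟨k, hk⟩ := Int.eq_ofNat_of_zero_le (le_trans (Int.natCast_nonneg a) h1)
          refine ⟨k, ?_, hk.symm⟩
          rw [mem_Ico]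
          omega
        · rintro ⟨k, hk, rfl⟩
          rw [mem_Ico] at hk
          omega
      rw [e9, sum_image]
      · refine sum_congr rfl fun j _ => ?_
        congr 1
        push_cast
        ring
      · intro j _ k _ hjk
        have h8 : (j : ℤ) = (k : ℤ) := hjk
        exact_mod_cast h8
    rw [e1, Complex.ofReal_zero, sub_zero]
    have h1 := geom_bound (a : ℤ) (c : ℤ) ((p : ℝ) / q * d)
    have h2 := m3_nn d q p hq hp hqd
    generalize ‖∑ n ∈ Ico (a : ℤ) (c : ℤ), ee ((n : ℝ) * ((p : ℝ) / q * d))‖ = M at h1 ⊢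
    by_contra hcon
    have h3 : (q : ℝ) < M := not_le.1 hcon
    have h4 : (q : ℝ) * (2 * (1 / q)) ≤ M * (2 * nn ((p : ℝ) / q * d)) := by
      refine mul_le_mul h3.le (by linarith) (by positivity) (by linarith)
    have h5 : (q : ℝ) * (2 * (1 / q)) = 2 := by
      field_simp
    linarith

/-- Exchange the sums over `m` and `d`, `m3` for each `d`, `m1` for the coefficients, `m2` for the main term. -/
theorem m4 (x H Q q : ℕ) (p : ℤ) (hQ : 1 ≤ Q) (hq : 1 ≤ q) (hp : IsCoprime p (q : ℤ)) :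
    ‖∑ m ∈ Ico x (x + H), (gQ Q m : ℂ) * ee ((p : ℝ) / q * m) - (((if q ≤ Q then (H : ℝ) / q else 0) : ℝ) : ℂ)‖ ≤
      Q * (1 + Real.log Q) * q := by
  have e1 : ∑ m ∈ Ico x (x + H), (gQ Q m : ℂ) * ee ((p : ℝ) / q * m) =
      ∑ d ∈ Icc 1 Q, (lam Q d : ℂ) * ∑ m ∈ (Ico x (x + H)).filter (fun m => d ∣ m), ee ((p : ℝ) / q * m) := by
    have e2 : ∀ m ∈ Ico x (x + H), (gQ Q m : ℂ) * ee ((p : ℝ) / q * m) =
        ∑ d ∈ Icc 1 Q, (if d ∣ m then (lam Q d : ℂ) * ee ((p : ℝ) / q * m) else 0) := by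
      intro m _
      unfold gQ
      rw [← sum_filter, ← sum_mul, Complex.ofReal_sum]
    rw [sum_congr rfl e2, sum_comm]
    refine sum_congr rfl fun d _ => ?_
    rw [mul_sum, sum_filter]
  have e3 : (((if q ≤ Q then (H : ℝ) / q else 0) : ℝ) : ℂ) =
      ∑ d ∈ Icc 1 Q, (lam Q d : ℂ) * (((if q ∣ d then (H : ℝ) / d else 0) : ℝ) : ℂ) := by
    have e4 : (if q ≤ Q then (H : ℝ) / q else 0) = ∑ d ∈ Icc 1 Q, lam Q d * (if q ∣ d then (H : ℝ) / d else 0) := by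
      have e5 := m2 Q q hq
      have e6 : ∑ d ∈ Icc 1 Q, lam Q d * (if q ∣ d then (H : ℝ) / d else 0) =
          H * ∑ d ∈ (Icc 1 Q).filter (fun d => q ∣ d), lam Q d / d := by
        rw [mul_sum, sum_filter]
        refine sum_congr rfl fun d _ => ?_
        split_ifs
        · ring
        · ring
      rw [e6, e5]
      split_ifs
      · ring
      · ring
    rw [e4, Complex.ofReal_sum]
    refine sum_congr rfl fun d _ => ?_
    rw [Complex.ofReal_mul]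
  rw [e1, e3, ← sum_sub_distrib]
  have h1 : ∀ d ∈ Icc 1 Q, ‖(lam Q d : ℂ) * ∑ m ∈ (Ico x (x + H)).filter (fun m => d ∣ m), ee ((p : ℝ) / q * m) -
      (lam Q d : ℂ) * (((if q ∣ d then (H : ℝ) / d else 0) : ℝ) : ℂ)‖ ≤ (1 + Real.log Q) * q := by
    intro d hd
    rw [← mul_sub, norm_mul, Complex.norm_real, Real.norm_eq_abs]
    exact mul_le_mul (m1 Q d hQ) (m3 x H d q p (mem_Icc.1 hd).1 hq hp) (norm_nonneg _)
      (add_nonneg zero_le_one (Real.log_nonneg (by exact_mod_cast hQ)))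
  refine (norm_sum_le _ _).trans ((sum_le_sum h1).trans (le_of_eq ?_))
  rw [sum_const, nsmul_eq_mul, Nat.card_Icc, Nat.add_sub_cancel]
  ring

end Pool.Agent.Lib.H21T
end

-- from Lib.H21T.M7
section

/-!
# Chunk M7 (S/M): the model away from rationals
-/

namespace Pool.Agent.Lib.H21T

open Finset Pool.Agent.SZW

/-- the sum over the multiples of `d` in an interval -/
theorem m7_mult (x H d : ℕ) (α : ℝ) (hd : 1 ≤ d) :
    ∃ a c : ℤ, ∑ m ∈ (Ico x (x + H)).filter (fun m => d ∣ m), ee (α * m) = ∑ n ∈ Finset.Ico a c, ee (n * (d * α)) := by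
  refine ⟨((x + d - 1) / d : ℕ), ((x + H + d - 1) / d : ℕ), ?_⟩
  symm
  refine Finset.sum_bij (fun (n : ℤ) _ => (d * n).toNat) ?_ ?_ ?_ ?_
  · intro n hn
    rw [Finset.mem_Ico] at hn
    obtain ⟨k, hk⟩ := Int.eq_ofNat_of_zero_le (le_trans (Nat.cast_nonneg _) hn.1)
    subst hk
    have h1 : (x + d - 1) / d ≤ k := by exact_mod_cast hn.1
    have h2 : k < (x + H + d - 1) / d := by exact_mod_cast hn.2
    have h3 : ((d : ℤ) * (k : ℤ)).toNat = d * k := by
      rw [← Nat.cast_mul]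
      exact Int.toNat_natCast _
    show ((d : ℤ) * (k : ℤ)).toNat ∈ _
    rw [h3, mem_filter, mem_Ico]
    refine ⟨⟨?_, ?_⟩, Dvd.intro k rfl⟩
    · have h4 : x + d - 1 < d * (k + 1) := by
        have h5 : (x + d - 1) / d < k + 1 := by omega
        rw [mul_comm]
        exact (Nat.div_lt_iff_lt_mul (by omega)).1 h5
      rw [mul_add, mul_one] at h4
      omega
    · have h4 : (k + 1) * d ≤ x + H + d - 1 := (Nat.le_div_iff_mul_le (by omega)).1 h2
      rw [add_mul, one_mul, mul_comm] at h4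
      omega
  · intro n hn n' hn' h
    rw [Finset.mem_Ico] at hn hn'
    have h0 : 0 ≤ n := le_trans (Nat.cast_nonneg _) hn.1
    have h0' : 0 ≤ n' := le_trans (Nat.cast_nonneg _) hn'.1
    have hd0 : (0 : ℤ) < d := by exact_mod_cast hd
    have h1 : (d : ℤ) * n = d * n' := by
      have h2 : (((d * n).toNat : ℕ) : ℤ) = (((d * n').toNat : ℕ) : ℤ) := congrArg (fun z : ℕ => (z : ℤ)) h
      rwa [Int.toNat_of_nonneg (by positivity), Int.toNat_of_nonneg (by positivity)] at h2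
    exact mul_left_cancel₀ hd0.ne' h1
  · intro m hm
    rw [mem_filter, mem_Ico] at hm
    obtain ⟨⟨h1, h2⟩, k, rfl⟩ := hm
    refine ⟨(k : ℤ), ?_, ?_⟩
    · rw [Finset.mem_Ico]
      constructor
      · have h3 : (x + d - 1) / d < k + 1 := by
          rw [Nat.div_lt_iff_lt_mul (by omega)]
          rw [add_mul, one_mul, mul_comm]
          omega
        exact_mod_cast Nat.lt_succ_iff.1 h3
      · have h3 : k + 1 ≤ (x + H + d - 1) / d := by
          rw [Nat.le_div_iff_mul_le (by omega), add_mul, one_mul, mul_comm]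
          omega
        exact_mod_cast h3
    · rw [← Nat.cast_mul]
      exact Int.toNat_natCast _
  · intro n hn
    rw [Finset.mem_Ico] at hn
    have h0 : 0 ≤ n := le_trans (Nat.cast_nonneg _) hn.1
    have h1 : (((d * n).toNat : ℕ) : ℝ) = (d : ℝ) * n := by
      have h2 : (((d * n).toNat : ℕ) : ℤ) = d * n := Int.toNat_of_nonneg (by positivity)
      exact_mod_cast congrArg (fun z : ℤ => (z : ℝ)) h2
    rw [h1]
    congr 1
    ring

/-- `m = d j` with `j` in an interval of integers; `geom_bound` for `d α`; `m1`. -/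
theorem m7 (x H Q : ℕ) (α c : ℝ) (hQ : 1 ≤ Q) (hc : 0 < c) (hα : ∀ d : ℕ, 1 ≤ d → d ≤ Q → c ≤ nn (d * α)) :
    ‖∑ m ∈ Ico x (x + H), (gQ Q m : ℂ) * ee (α * m)‖ ≤ Q * (1 + Real.log Q) / (2 * c) := by
  have h1 : ∑ m ∈ Ico x (x + H), (gQ Q m : ℂ) * ee (α * m) =
      ∑ d ∈ Icc 1 Q, (lam Q d : ℂ) * ∑ m ∈ (Ico x (x + H)).filter (fun m => d ∣ m), ee (α * m) := by
    simp only [gQ, Finset.sum_filter, Complex.ofReal_sum, Finset.sum_mul, Finset.mul_sum]
    rw [Finset.sum_comm]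
    refine Finset.sum_congr rfl fun d _ => Finset.sum_congr rfl fun m _ => ?_
    by_cases h : d ∣ m
    · rw [if_pos h, if_pos h]
    · rw [if_neg h, if_neg h, Complex.ofReal_zero, zero_mul, mul_zero]
  rw [h1]
  have hlog : 0 ≤ 1 + Real.log Q := by
    have : 0 ≤ Real.log Q := Real.log_natCast_nonneg Q
    linarith
  have h2 : ∀ d ∈ Icc 1 Q, ‖(lam Q d : ℂ) * ∑ m ∈ (Ico x (x + H)).filter (fun m => d ∣ m), ee (α * m)‖ ≤
      (1 + Real.log Q) * (1 / (2 * c)) := by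
    intro d hd
    rw [mem_Icc] at hd
    rw [norm_mul]
    refine mul_le_mul ?_ ?_ (norm_nonneg _) hlog
    · rw [Complex.norm_real, Real.norm_eq_abs]
      exact m1 Q d hQ
    · obtain ⟨a, b, hab⟩ := m7_mult x H d α hd.1
      rw [hab]
      have h3 := geom_bound a b (d * α)
      have h4 := hα d hd.1 hd.2
      rw [le_div_iff₀ (by positivity)]
      refine le_trans ?_ h3
      exact mul_le_mul_of_nonneg_left (by linarith) (norm_nonneg _)
  refine (norm_sum_le _ _).trans ((Finset.sum_le_sum h2).trans ?_)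
  rw [Finset.sum_const, Nat.card_Icc, nsmul_eq_mul]
  apply le_of_eq
  push_cast [Nat.add_sub_cancel]
  ring

end Pool.Agent.Lib.H21T
end

-- from Lib.H81A.DY
section

/-!
# H81A, chunk DY (M): dyadic decomposition of a product
-/

namespace Pool.Agent.Lib.H81A

open Finset ArithmeticFunction

theorem dy_sum (f : ArithmeticFunction ℝ) (L n : ℕ) (hn : n < 2 ^ L) : f n = (∑ k ∈ range L, dy k f) n := by
  have hs : (∑ k ∈ range L, dy k f) n = ∑ k ∈ range L, dy k f n := by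
    induction L with
    | zero => simp
    | succ L ih =>
      clear ih hn
      induction (L + 1) with
      | zero => simp
      | succ M ih => rw [Finset.sum_range_succ, Finset.sum_range_succ, ArithmeticFunction.add_apply, ih]
  rw [hs]
  rcases Nat.eq_zero_or_pos n with rfl | hpos
  · simp
  have hlog : Nat.log 2 n < L := Nat.log_lt_of_lt_pow hpos.ne' hn
  rw [Finset.sum_eq_single_of_mem (Nat.log 2 n) (mem_range.2 hlog)]
  · rw [dy_apply, if_pos ⟨Nat.pow_log_le_self 2 hpos.ne', Nat.lt_pow_succ_log_self (by norm_num) n⟩]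
  · intro k _ hk
    rw [dy_apply, if_neg]
    rintro ⟨h1, h2⟩
    apply hk
    exact ((Nat.log_eq_iff (Or.inr ⟨by norm_num, hpos.ne'⟩)).2 ⟨h1, h2⟩).symm

theorem dy_agree {ι : Type} (s : Finset ι) (F G : ι → ArithmeticFunction ℝ) (M : ℕ) (h : ∀ i ∈ s, ∀ n < M, F i n = G i n) :
    ∀ n < M, (∏ i ∈ s, F i) n = (∏ i ∈ s, G i) n := by
  classical
  induction s using Finset.induction_on with
  | empty => intro n _; simp
  | insert a s ha ih =>
    intro n hn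
    rw [Finset.prod_insert ha, Finset.prod_insert ha, mul_apply, mul_apply]
    refine Finset.sum_congr rfl fun x hx => ?_
    rw [Nat.mem_divisorsAntidiagonal] at hx
    have hpos : 0 < n := Nat.pos_of_ne_zero hx.2
    have h1 : x.1 ≤ n := Nat.le_of_dvd hpos ⟨x.2, hx.1.symm⟩
    have h2 : x.2 ≤ n := Nat.le_of_dvd hpos ⟨x.1, by rw [mul_comm]; exact hx.1.symm⟩
    rw [h a (Finset.mem_insert_self a s) x.1 (lt_of_le_of_lt h1 hn),
      ih (fun i hi => h i (Finset.mem_insert_of_mem hi)) x.2 (lt_of_le_of_lt h2 hn)]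

theorem dy_sum_apply {κ : Type} (s : Finset κ) (f : κ → ArithmeticFunction ℝ) (m : ℕ) : (∑ k ∈ s, f k) m = ∑ k ∈ s, f k m := by
  classical
  induction s using Finset.induction_on with
  | empty => simp
  | insert a s ha ih => rw [Finset.sum_insert ha, Finset.sum_insert ha, ArithmeticFunction.add_apply, ih]

/-- PROOF. For `n < 2 ^ L`: `F i n = ∑ k ∈ range L, dy k (F i) n` (`dy_apply`; for `n ≥ 1` exactly one `k`, namely `Nat.log 2 n`; for `n = 0` both sides are `0`). Two families of arithmetic functions which agree on `n < M` have products which agree on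
`n < M` (induction over the finset; `ArithmeticFunction.mul_apply`, divisors of `m` are `≤ m`). Then `Finset.prod_univ_sum`. -/
theorem dyadic {ι : Type} [Fintype ι] [DecidableEq ι] (F : ι → ArithmeticFunction ℝ) (L m : ℕ) (hm : m < 2 ^ L) :
    (∏ i, F i) m = ∑ k ∈ Fintype.piFinset (fun _ : ι => range L), (∏ i, dy (k i) (F i)) m := by
  have h1 := dy_agree (Finset.univ : Finset ι) F (fun i => ∑ k ∈ range L, dy k (F i)) (2 ^ L)
    (fun i _ n hn => dy_sum (F i) L n hn) m hm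
  rw [h1, Finset.prod_univ_sum, dy_sum_apply]

end Pool.Agent.Lib.H81A
end

-- from Lib.H81A.HB
section

/-!
# H81A, chunk HB (M): Heath-Brown's identity
-/

namespace Pool.Agent.Lib.H81A

open Finset ArithmeticFunction

theorem hb_one1 : one1 = ((zeta : ArithmeticFunction ℕ) : ArithmeticFunction ℝ) := by
  ext n
  simp only [one1, af, coe_mk, natCoe_apply, zeta_apply]
  split_ifs <;> simp

theorem hb_logf : logf = ArithmeticFunction.log := by
  ext n
  simp only [logf, af, coe_mk, log_apply]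
  split_ifs with h
  · simp [h]
  · rfl

theorem hb_vanish (f g : ArithmeticFunction ℝ) (a b : ℕ) (hf : ∀ n < a, f n = 0)
    (hg : ∀ n < b, g n = 0) : ∀ n < a * b, (f * g) n = 0 := by
  intro n hn
  rw [mul_apply]
  refine Finset.sum_eq_zero fun p hp => ?_
  rw [Nat.mem_divisorsAntidiagonal] at hp
  by_cases h1 : p.1 < a
  · rw [hf _ h1, zero_mul]
  · by_cases h2 : p.2 < b
    · rw [hg _ h2, mul_zero]
    · exfalso
      have := Nat.mul_le_mul (not_lt.1 h1) (not_lt.1 h2)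
      rw [hp.1] at this
      omega

theorem hb_sub (f g : ArithmeticFunction ℝ) (n : ℕ) : (f - g) n = f n - g n := by
  have h : (f - g + g) n = f n := by rw [sub_add_cancel]
  rw [ArithmeticFunction.add_apply] at h
  linarith

theorem hb_eps (V n : ℕ) (hn : n < V + 1) : (1 - muV V * one1 : ArithmeticFunction ℝ) n = 0 := by
  rcases Nat.eq_zero_or_pos n with rfl | hpos
  · simp
  have h1 : (muV V * one1 : ArithmeticFunction ℝ) n =
      ((moebius : ArithmeticFunction ℝ) * (zeta : ArithmeticFunction ℝ)) n := by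
    rw [mul_apply, mul_apply]
    refine Finset.sum_congr rfl fun p hp => ?_
    rw [Nat.mem_divisorsAntidiagonal] at hp
    have hp1 : p.1 ≠ 0 := by
      intro h
      rw [h, zero_mul] at hp
      exact hp.2 hp.1.symm
    have hle : p.1 ≤ V := by
      have : p.1 ≤ n := Nat.le_of_dvd hpos ⟨p.2, hp.1.symm⟩
      omega
    rw [hb_one1]
    congr 1
    simp only [muV, af, coe_mk, if_neg hp1, if_pos hle, intCoe_apply]
  rw [hb_sub, h1, coe_moebius_mul_coe_zeta]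
  simp

theorem hb_pow (f : ArithmeticFunction ℝ) (a : ℕ) (hf : ∀ n < a, f n = 0) (J : ℕ) :
    ∀ n < a ^ J, (f ^ J * vonMangoldt) n = 0 := by
  induction J with
  | zero =>
    intro n hn
    have : n = 0 := by simpa using hn
    rw [this, ArithmeticFunction.map_zero]
  | succ J ih =>
    intro n hn
    have h := hb_vanish f (f ^ J * vonMangoldt) a (a ^ J) hf ih n (by rwa [pow_succ'] at hn)
    rw [pow_succ', mul_assoc]
    exact h

/-- Evaluation at `m` as an additive map. -/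
noncomputable def hb_ev (m : ℕ) : ArithmeticFunction ℝ →+ ℝ where
  toFun f := f m
  map_zero' := rfl
  map_add' _ _ := rfl

theorem hb_scal (f : ArithmeticFunction ℝ) (j c m : ℕ) : hb_ev m ((-1) ^ j * (c : ArithmeticFunction ℝ) * f) = (-1 : ℝ) ^ j * (c : ℝ) * f m := by
  have h1 : hb_ev m ((c : ArithmeticFunction ℝ) * f) = (c : ℝ) * f m := by
    rw [← nsmul_eq_mul, map_nsmul, nsmul_eq_mul]
    rfl
  induction j with
  | zero => rw [pow_zero, pow_zero, one_mul, one_mul, h1]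
  | succ j ih =>
    have e : (-1) ^ (j + 1) * (c : ArithmeticFunction ℝ) * f = -((-1) ^ j * (c : ArithmeticFunction ℝ) * f) := by ring
    rw [e, map_neg, ih]
    ring

/-- PROOF. As `heath_brown` in Lib/H68T/HBI.lean (there `J = 3`, same definitions: its lemmas HBI_one1, HBI_logf, HBI_vanish, HBI_sub, HBI_eps may be copied with names hb_..). `e = 1 - muV z * one1` vanishes on `n ≤ z`, so `e ^ J` vanishes on
`n < (z + 1) ^ J` (induction on `J`, hb_vanish), so `e ^ J * Λ` vanishes there. The binomial theorem (`add_pow` for `(-(muV z * one1) + 1) ^ J`, commutative ring; `Finset.sum_range_succ'` separates the term `1`) and `Λ * one1 = logf` (`vonMangoldt_mul_zeta`) give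
`e ^ J * Λ = Λ - ∑ j ∈ range J, (-1) ^ j (J choose (j + 1)) muV ^ (j + 1) one1 ^ j logf`. (Scalars: natural numbers / integers as elements of the ring, or evaluate at `m` with `ArithmeticFunction.sum_apply`-type lemmas; a real constant times an
arithmetic function may be avoided by working in the ring.) -/
theorem hb_identity (z J m : ℕ) (hm : m < (z + 1) ^ J) :
    vonMangoldt m = ∑ j ∈ range J, (-1 : ℝ) ^ j * (J.choose (j + 1) : ℝ) * (muV z ^ (j + 1) * one1 ^ j * logf) m := by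
  have hlog : logf = vonMangoldt * one1 := by
    rw [hb_logf, hb_one1, vonMangoldt_mul_zeta]
  have key : (vonMangoldt : ArithmeticFunction ℝ) = (1 - muV z * one1) ^ J * vonMangoldt +
      ∑ j ∈ range J, (-1) ^ j * ((J.choose (j + 1) : ℕ) : ArithmeticFunction ℝ) * (muV z ^ (j + 1) * one1 ^ j * logf) := by
    have e1 : (1 - muV z * one1 : ArithmeticFunction ℝ) = -(muV z * one1) + 1 := by ring
    rw [e1, add_pow, Finset.sum_range_succ', add_mul, Finset.sum_mul]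
    have e2 : ∀ j ∈ range J, (-1) ^ j * ((J.choose (j + 1) : ℕ) : ArithmeticFunction ℝ) * (muV z ^ (j + 1) * one1 ^ j * logf) =
        -((-(muV z * one1)) ^ (j + 1) * 1 ^ (J - (j + 1)) * ((J.choose (j + 1) : ℕ) : ArithmeticFunction ℝ) * vonMangoldt) := by
      intro j _
      rw [hlog, neg_pow (muV z * one1), mul_pow]
      ring
    rw [Finset.sum_congr rfl e2, Finset.sum_neg_distrib]
    simp
  have h0 : ((1 - muV z * one1) ^ J * vonMangoldt : ArithmeticFunction ℝ) m = 0 :=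
    hb_pow _ (z + 1) (hb_eps z) J m hm
  have h1 : hb_ev m (vonMangoldt : ArithmeticFunction ℝ) = hb_ev m ((1 - muV z * one1) ^ J * vonMangoldt) +
      ∑ j ∈ range J, hb_ev m ((-1) ^ j * ((J.choose (j + 1) : ℕ) : ArithmeticFunction ℝ) * (muV z ^ (j + 1) * one1 ^ j * logf)) := by
    rw [← map_sum, ← map_add, ← key]
  have h2 : hb_ev m ((1 - muV z * one1) ^ J * vonMangoldt) = 0 := h0
  have h3 : hb_ev m (vonMangoldt : ArithmeticFunction ℝ) = vonMangoldt m := rfl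
  rw [h3, h2, zero_add] at h1
  rw [h1]
  exact Finset.sum_congr rfl fun j _ => hb_scal _ _ _ _

end Pool.Agent.Lib.H81A
end

-- from Lib.H37T.A0
section
/-!
H37T (MP_443e5f, candidate T): assembly of the modules A (Heath-Brown's identity in seminorm form), B (bilinear pieces), C (one smooth variable), D (near-diagonal pieces) to the inverse theorem for the von Mangoldt function.

This file: the map P -> |TF n (P o toNat) W f g| is a seminorm which sees only the values at 1, ..., 2 n.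
-/
namespace Pool.Agent.H37T
open Finset Pool.Agent.H44W

/-- The function on the integers given by a function on the natural numbers. -/
noncomputable def lft (P : ℕ → ℝ) (m : ℤ) : ℂ := ((P m.toNat : ℝ) : ℂ)

/-- TF as a linear map in the kernel. -/
noncomputable def tfL (n : ℕ) (W f g : ℤ → ℂ) : (ℕ → ℝ) →ₗ[ℝ] ℂ where
  toFun P := TF n (lft P) W f g
  map_add' P Q := by
    unfold TF lft
    rw [← Finset.sum_add_distrib]
    refine Finset.sum_congr rfl fun x _ => ?_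
    rw [← Finset.sum_add_distrib]
    refine Finset.sum_congr rfl fun y _ => ?_
    rw [Pi.add_apply]
    push_cast
    ring
  map_smul' c P := by
    unfold TF lft
    rw [RingHom.id_apply, Finset.smul_sum]
    refine Finset.sum_congr rfl fun x _ => ?_
    rw [Finset.smul_sum]
    refine Finset.sum_congr rfl fun y _ => ?_
    rw [Pi.smul_apply, Complex.real_smul, smul_eq_mul]
    push_cast
    ring

/-- The seminorm. -/
noncomputable def tfS (n : ℕ) (W f g : ℤ → ℂ) : Seminorm ℝ (ℕ → ℝ) := (normSeminorm ℝ ℂ).comp (tfL n W f g)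

theorem tfS_apply (n : ℕ) (W f g : ℤ → ℂ) (P : ℕ → ℝ) : tfS n W f g P = ‖TF n (lft P) W f g‖ := rfl

theorem TF_congr (n : ℕ) {F G : ℤ → ℂ} (W f g : ℤ → ℂ) (h : ∀ m : ℤ, 2 ≤ m → m ≤ 2 * n → F m = G m) :
    TF n F W f g = TF n G W f g := by
  unfold TF
  refine Finset.sum_congr rfl fun x hx => Finset.sum_congr rfl fun y hy => ?_
  rw [Finset.mem_Icc] at hx hy
  rw [h (x + y) (by omega) (by omega)]

theorem tfS_loc (n : ℕ) (W f g : ℤ → ℂ) : Pool.Agent.Lib.H81A.Loc (2 * n) (tfS n W f g) := by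
  intro P hP
  rw [tfS_apply, TF_congr n (G := fun _ => 0) W f g]
  · unfold TF
    simp
  · intro m h1 h2
    unfold lft
    rw [hP m.toNat (by omega) (by omega), Complex.ofReal_zero]

end Pool.Agent.H37T
end

-- from Lib.H37T.A1
section
/-!
H37T: Dirichlet convolutions as sums over finite sets.
-/
namespace Pool.Agent.H37T
open Finset Pool.Agent.H44W

theorem conv_eq (m : ℕ) (hm : m ≠ 0) (S T : Finset ℕ) (α β : ℕ → ℝ) (hS : ∀ a, α a ≠ 0 → a ∈ S) (hT : ∀ b, β b ≠ 0 → b ∈ T) :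
    ∑ x ∈ m.divisorsAntidiagonal, α x.1 * β x.2 = ∑ a ∈ S, ∑ b ∈ T, if a * b = m then α a * β b else 0 := by
  classical
  rw [← Finset.sum_product (s := S) (t := T) (f := fun x : ℕ × ℕ => if x.1 * x.2 = m then α x.1 * β x.2 else 0),
    ← Finset.sum_filter]
  symm
  refine Finset.sum_subset_zero_on_sdiff ?_ ?_ (fun _ _ => rfl)
  · intro x hx
    rw [Finset.mem_filter] at hx
    exact Nat.mem_divisorsAntidiagonal.2 ⟨hx.2, hm⟩
  · intro x hx
    rw [Finset.mem_sdiff, Finset.mem_filter, Finset.mem_product] at hx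
    by_contra h
    have h1 : α x.1 ≠ 0 := fun h0 => h (by rw [h0, zero_mul])
    have h2 : β x.2 ≠ 0 := fun h0 => h (by rw [h0, mul_zero])
    exact hx.2 ⟨⟨hS _ h1, hT _ h2⟩, (Nat.mem_divisorsAntidiagonal.1 hx.1).1⟩

end Pool.Agent.H37T
end

-- from Lib.H44W.W1
section
/-!
H44W: Type II pieces and the interface of module B (class_two).
-/
namespace Pool.Agent.H44W
open Finset

/-- Type II piece: a in [K, 2K), b in [M, 2M), arbitrary coefficients. -/
noncomputable def tII (K M : ℕ) (al be : ℕ → ℂ) (m : ℤ) : ℂ :=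
  ∑ a ∈ Ico K (2 * K), ∑ b ∈ Ico M (2 * M), if ((a * b : ℕ) : ℤ) = m then al a * be b else 0

/-- Type I sum with divisors up to A. -/
noncomputable def psi (A : ℕ) (al : ℕ → ℂ) (m : ℤ) : ℂ :=
  ∑ a ∈ Icc 1 A, if (a:ℤ) ∣ m then al a else 0

/-- The statement of module B (helper3's form, with the divisor hypothesis). -/
def ClassTwo (C : ℕ) : Prop :=
  ∀ (n K M : ℕ) (D : ℝ), 2 ≤ D → (∀ m : ℕ, 1 ≤ m → m ≤ 2 * n → (m.divisors.card : ℝ) ≤ D) →
    D ^ C ≤ K → (K:ℝ) ^ 2 * D ^ C ≤ n →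
    ∀ al be : ℕ → ℂ, (∀ a, ‖al a‖ ≤ 1) → (∀ b, ‖be b‖ ≤ 1) →
    ∀ W f g : ℤ → ℂ, (∀ x, ‖W x‖ ≤ 1) → (∀ x, ‖f x‖ ≤ 1) → (∀ x, ‖g x‖ ≤ 1) →
    (n:ℝ) ^ 2 / D ≤ ‖TF n (tII K M al be) W f g‖ →
    ∃ th : ℝ, (n:ℝ) / D ^ C ≤ ‖∑ z ∈ Icc (1:ℤ) n, g z * ee (th * z)‖

end Pool.Agent.H44W
end

-- from Lib.H37T.A2
section
/-!
H37T: the hypothesis H2 of Heath-Brown's identity (module A) from module B (ClassTwo).
-/
namespace Pool.Agent.H37T
open Finset Pool.Agent.H44W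

theorem TF_add (n : ℕ) (F G W f g : ℤ → ℂ) : TF n (fun m => F m + G m) W f g = TF n F W f g + TF n G W f g := by
  unfold TF
  rw [← Finset.sum_add_distrib]
  refine Finset.sum_congr rfl fun x _ => ?_
  rw [← Finset.sum_add_distrib]
  refine Finset.sum_congr rfl fun y _ => ?_
  ring

/-- A convolution with supports in `[K, 4K)`, `[M, 4M)` is a sum of four pieces. -/
theorem conv_tII (m : ℤ) (hm : 1 ≤ m) (K M : ℕ) (α β : ℕ → ℝ) (hS : ∀ a, α a ≠ 0 → K ≤ a ∧ a < 4 * K)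
    (hT : ∀ b, β b ≠ 0 → M ≤ b ∧ b < 4 * M) :
    lft (fun m => ∑ x ∈ m.divisorsAntidiagonal, α x.1 * β x.2) m =
      (tII K M (fun a => (α a : ℂ)) (fun b => (β b : ℂ)) m + tII K (2 * M) (fun a => (α a : ℂ)) (fun b => (β b : ℂ)) m) +
      (tII (2 * K) M (fun a => (α a : ℂ)) (fun b => (β b : ℂ)) m + tII (2 * K) (2 * M) (fun a => (α a : ℂ)) (fun b => (β b : ℂ)) m) := by
  have h0 : ((m.toNat : ℕ) : ℤ) = m := Int.toNat_of_nonneg (by omega)
  have h1 : m.toNat ≠ 0 := by omega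
  have e1 : ∀ (K M : ℕ), tII K M (fun a => (α a : ℂ)) (fun b => (β b : ℂ)) m =
      ((∑ a ∈ Ico K (2 * K), ∑ b ∈ Ico M (2 * M), if a * b = m.toNat then α a * β b else 0 : ℝ) : ℂ) := by
    intro K M
    unfold tII
    push_cast
    refine Finset.sum_congr rfl fun a _ => Finset.sum_congr rfl fun b _ => ?_
    by_cases h : a * b = m.toNat
    · rw [if_pos h, if_pos (by omega), Complex.ofReal_mul]
    · rw [if_neg h, if_neg (by intro h2; apply h; omega), Complex.ofReal_zero]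
  show ((∑ x ∈ m.toNat.divisorsAntidiagonal, α x.1 * β x.2 : ℝ) : ℂ) = _
  rw [conv_eq m.toNat h1 (Ico K (4 * K)) (Ico M (4 * M)) α β (fun a ha => Finset.mem_Ico.2 (hS a ha)) (fun b hb => Finset.mem_Ico.2 (hT b hb)),
    e1, e1, e1, e1]
  rw [← Finset.sum_Ico_consecutive (m := K) (n := 2 * K) (k := 4 * K) _ (by omega) (by omega)]
  have e2 : ∀ (a : ℕ), ∑ b ∈ Ico M (4 * M), (if a * b = m.toNat then α a * β b else 0) =
      ∑ b ∈ Ico M (2 * M), (if a * b = m.toNat then α a * β b else 0) + ∑ b ∈ Ico (2 * M) (2 * (2 * M)), (if a * b = m.toNat then α a * β b else 0) := by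
    intro a
    rw [show 2 * (2 * M) = 4 * M by ring]
    exact (Finset.sum_Ico_consecutive _ (by omega) (by omega)).symm
  rw [Finset.sum_congr rfl fun a _ => e2 a, Finset.sum_congr (rfl : Ico (2 * K) (4 * K) = _) fun a _ => e2 a, Finset.sum_add_distrib, Finset.sum_add_distrib,
    show 4 * K = 2 * (2 * K) by ring]
  push_cast
  ring

/-- **H2** from module B. -/
theorem h2_of (η : ℝ) (hη : 0 < η) (C : ℕ) (h : ClassTwo C) : ∃ n0 : ℕ, ∀ n : ℕ, n0 ≤ n → ∀ c D : ℝ,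
    2 ≤ D → (∀ m : ℕ, 1 ≤ m → m ≤ 2 * n → (m.divisors.card : ℝ) ≤ D) → D ^ C ≤ ((2 * n : ℕ) : ℝ) ^ c → D ^ C ≤ (n:ℝ) ^ η →
    ∀ W f g : ℤ → ℂ, (∀ x, ‖W x‖ ≤ 1) → (∀ x, ‖f x‖ ≤ 1) → (∀ x, ‖g x‖ ≤ 1) →
    (∀ th : ℝ, ‖∑ z ∈ Icc (1:ℤ) n, g z * ee (th * z)‖ < (n:ℝ) / D ^ C) →
      Pool.Agent.Lib.H81A.H2 c η (2 * n) (tfS n W f g) (4 * ((n:ℝ) ^ 2 / D)) := by
  have hlim : ∀ᶠ n : ℕ in Filter.atTop, (32 : ℝ) ≤ (n : ℝ) ^ η :=
    ((tendsto_rpow_atTop hη).comp tendsto_natCast_atTop_atTop).eventually_ge_atTop 32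
  obtain ⟨n1, hn1⟩ := Filter.eventually_atTop.1 hlim
  refine ⟨max n1 1, fun n hn c D hD hdiv hDK hDη W f g hW hf hg hth => ?_⟩
  have hn2 : (32 : ℝ) ≤ (n : ℝ) ^ η := hn1 n (le_trans (le_max_left _ _) hn)
  have hn3 : (1 : ℝ) ≤ n := by exact_mod_cast le_trans (le_max_right n1 1) hn
  have hn0 : (0 : ℝ) < n := by linarith
  intro K M hK1 hK2 hM1 α β hα hβ hαs hβs
  set K' : ℕ := ⌈K⌉₊ with hK'
  set M' : ℕ := ⌈M⌉₊ with hM'
  have hDC : (1 : ℝ) ≤ D ^ C := one_le_pow₀ (by linarith)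
  have hK0 : (1 : ℝ) ≤ K := le_trans hDC (le_trans hDK hK1)
  have hK'1 : 1 ≤ K' := Nat.one_le_ceil_iff.2 (by linarith)
  have hM'1 : 1 ≤ M' := Nat.one_le_ceil_iff.2 (by linarith)
  have hKc : K ≤ K' := Nat.le_ceil K
  have hMc : M ≤ M' := Nat.le_ceil M
  have hS : ∀ a, α a ≠ 0 → K' ≤ a ∧ a < 4 * K' := by
    intro a ha
    obtain ⟨h1, h2⟩ := hαs a ha
    refine ⟨Nat.ceil_le.2 h1, ?_⟩
    have : (a : ℝ) ≤ 2 * K' := le_trans h2 (by linarith)
    have h3 : a ≤ 2 * K' := by exact_mod_cast this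
    omega
  have hT : ∀ b, β b ≠ 0 → M' ≤ b ∧ b < 4 * M' := by
    intro b hb
    obtain ⟨h1, h2⟩ := hβs b hb
    refine ⟨Nat.ceil_le.2 h1, ?_⟩
    have : (b : ℝ) ≤ 2 * M' := le_trans h2 (by linarith)
    have h3 : b ≤ 2 * M' := by exact_mod_cast this
    omega
  have hup : (2 * (K' : ℝ)) ^ 2 * D ^ C ≤ n := by
    have h1 : (K' : ℝ) ≤ 2 * K := by
      have := Nat.ceil_lt_add_one (by linarith : (0:ℝ) ≤ K)
      linarith
    have h2n : (0:ℝ) < ((2 * n : ℕ) : ℝ) := by push_cast; linarith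
    have h2 : K ^ 2 ≤ ((2 * n : ℕ) : ℝ) ^ (1 - 2 * η) := by
      have h3 : ((2 * n : ℕ) : ℝ) ^ (1 - 2 * η) = (((2 * n : ℕ) : ℝ) ^ (1 / 2 - η)) ^ 2 := by
        rw [← Real.rpow_natCast, ← Real.rpow_mul h2n.le]
        congr 1
        push_cast
        ring
      rw [h3]
      exact pow_le_pow_left₀ (by linarith) hK2 2
    have h3 : ((2 * n : ℕ) : ℝ) ^ (1 - 2 * η) ≤ 2 * (n : ℝ) ^ (1 - 2 * η) := by
      push_cast
      rw [Real.mul_rpow (by norm_num) (by linarith)]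
      refine mul_le_mul_of_nonneg_right ?_ (Real.rpow_nonneg (by linarith) _)
      calc (2:ℝ) ^ (1 - 2 * η) ≤ 2 ^ (1 : ℝ) := Real.rpow_le_rpow_of_exponent_le (by norm_num) (by linarith)
        _ = 2 := Real.rpow_one 2
    have h4 : (2 * (K' : ℝ)) ^ 2 ≤ 32 * (n : ℝ) ^ (1 - 2 * η) := by
      have h5 : (2 * (K' : ℝ)) ^ 2 ≤ (4 * K) ^ 2 := pow_le_pow_left₀ (by positivity) (by linarith) 2
      have h6 : (4 * K) ^ 2 = 16 * K ^ 2 := by ring
      linarith
    have h7 : (0:ℝ) ≤ (n : ℝ) ^ (1 - 2 * η) := Real.rpow_nonneg hn0.le _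
    calc (2 * (K' : ℝ)) ^ 2 * D ^ C ≤ (32 * (n : ℝ) ^ (1 - 2 * η)) * (n:ℝ) ^ η := by
          refine mul_le_mul h4 hDη (by positivity) (by positivity)
      _ ≤ ((n:ℝ) ^ η * (n : ℝ) ^ (1 - 2 * η)) * (n:ℝ) ^ η := by gcongr
      _ = (n:ℝ) ^ (1:ℝ) := by
          rw [← Real.rpow_add hn0, ← Real.rpow_add hn0]
          congr 1
          ring
      _ = n := Real.rpow_one _
  have hlow : D ^ C ≤ (K' : ℝ) := le_trans hDK (le_trans hK1 hKc)
  have hpc : ∀ K1 M1 : ℕ, D ^ C ≤ (K1 : ℝ) → (K1 : ℝ) ≤ 2 * K' →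
      ‖TF n (tII K1 M1 (fun a => (α a : ℂ)) (fun b => (β b : ℂ))) W f g‖ ≤ (n:ℝ) ^ 2 / D := by
    intro K1 M1 h1 h2
    by_contra hcon
    obtain ⟨th, hth'⟩ := h n K1 M1 D hD hdiv h1 (by
        refine le_trans ?_ hup
        gcongr) (fun a => (α a : ℂ)) (fun b => (β b : ℂ))
      (fun a => by rw [Complex.norm_real]; exact hα a) (fun b => by rw [Complex.norm_real]; exact hβ b) W f g hW hf hg (le_of_lt (not_le.1 hcon))
    exact absurd (hth th) (not_lt.2 hth')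
  rw [tfS_apply, TF_congr n W f g (fun m hm1 hm2 => conv_tII m (by omega) K' M' α β hS hT), TF_add, TF_add, TF_add]
  have c1 := hpc K' M' hlow (by linarith [Nat.cast_nonneg (α := ℝ) K'])
  have c2 := hpc K' (2 * M') hlow (by linarith [Nat.cast_nonneg (α := ℝ) K'])
  have c3 := hpc (2 * K') M' (by push_cast; linarith [Nat.cast_nonneg (α := ℝ) K']) (by push_cast; exact le_refl _)
  have c4 := hpc (2 * K') (2 * M') (by push_cast; linarith [Nat.cast_nonneg (α := ℝ) K']) (by push_cast; exact le_refl _)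
  refine (norm_add_le _ _).trans ?_
  have d1 := norm_add_le (TF n (tII K' M' (fun a => (α a : ℂ)) (fun b => (β b : ℂ))) W f g) (TF n (tII K' (2 * M') (fun a => (α a : ℂ)) (fun b => (β b : ℂ))) W f g)
  have d2 := norm_add_le (TF n (tII (2 * K') M' (fun a => (α a : ℂ)) (fun b => (β b : ℂ))) W f g) (TF n (tII (2 * K') (2 * M') (fun a => (α a : ℂ)) (fun b => (β b : ℂ))) W f g)
  linarith

end Pool.Agent.H37T
end

-- from Lib.H81E.C1
section

/-!
# H81E (MP_443e5f, candidate T, module C), part 1: the algebra of functions with small Fourier norm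

`Rep n A F`: on `[2, 2 n]` the function `F` is a combination of characters `m ↦ ee (α m)` with total coefficient mass `≤ A`.
-/

namespace Pool.Agent.H81E

open Finset Pool.Agent.H44W

theorem norm_ee (x : ℝ) : ‖ee x‖ = 1 := by
  unfold ee
  rw [show (2 * (Real.pi : ℂ) * (x : ℂ) * Complex.I) = ((2 * Real.pi * x : ℝ) : ℂ) * Complex.I by push_cast; ring, Complex.norm_exp_ofReal_mul_I]

theorem ee_add (x y : ℝ) : ee (x + y) = ee x * ee y := by
  unfold ee
  rw [← Complex.exp_add]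
  congr 1
  push_cast
  ring

theorem ee_zero : ee 0 = 1 := by
  unfold ee
  simp

theorem ee_int (m : ℤ) : ee m = 1 := by
  unfold ee
  rw [Complex.exp_eq_one_iff]
  exact ⟨m, by push_cast; ring⟩

theorem ee_neg (x : ℝ) : ee (-x) = (starRingEnd ℂ) (ee x) := by
  unfold ee
  rw [← Complex.exp_conj]
  congr 1
  simp only [map_mul, Complex.conj_I, Complex.conj_ofReal, map_ofNat]
  push_cast
  ring

theorem ee_ne_one {x : ℝ} (h0 : 0 < x) (h1 : x < 1) : ee x ≠ 1 := by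
  intro h
  unfold ee at h
  rw [Complex.exp_eq_one_iff] at h
  obtain ⟨k, hk⟩ := h
  have h2 : (x : ℂ) = (k : ℂ) := by
    have h3 : (2 * (Real.pi : ℂ) * Complex.I) ≠ 0 := Complex.two_pi_I_ne_zero
    apply mul_left_cancel₀ h3
    rw [show (2 * (Real.pi : ℂ) * Complex.I) * (x : ℂ) = 2 * (Real.pi : ℂ) * (x : ℂ) * Complex.I by ring, hk]
    ring
  have h3 : x = (k : ℝ) := by exact_mod_cast h2
  rw [h3] at h0 h1
  have h4 : (0 : ℤ) < k := by exact_mod_cast h0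
  have h5 : k < (1 : ℤ) := by exact_mod_cast h1
  omega

theorem ee_orth (l : ℕ) (hl : 0 < l) (m : ℤ) :
    ∑ k ∈ range l, ee ((k : ℝ) * m / l) = if (l : ℤ) ∣ m then (l : ℂ) else 0 := by
  have hl0 : (l : ℝ) ≠ 0 := by exact_mod_cast hl.ne'
  have hpow : ∀ k : ℕ, ee ((k : ℝ) * m / l) = ee ((m : ℝ) / l) ^ k := by
    intro k
    induction k with
    | zero => simp [ee_zero]
    | succ k ih => rw [pow_succ, ← ih, ← ee_add]; congr 1; push_cast; ring
  split_ifs with h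
  · obtain ⟨t, rfl⟩ := h
    have h1 : ee (((l * t : ℤ) : ℝ) / l) = 1 := by
      rw [show (((l * t : ℤ) : ℝ) / l) = (t : ℝ) by push_cast; field_simp, ee_int]
    simp_rw [hpow, h1, one_pow]
    simp
  · simp_rw [hpow]
    have h1 : ee ((m : ℝ) / l) ≠ 1 := by
      intro h1
      apply h
      unfold ee at h1
      rw [Complex.exp_eq_one_iff] at h1
      obtain ⟨k, hk⟩ := h1
      have h2 : (((m : ℝ) / l : ℝ) : ℂ) = (k : ℂ) := by
        apply mul_left_cancel₀ Complex.two_pi_I_ne_zero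
        rw [show (2 * (Real.pi : ℂ) * Complex.I) * (((m : ℝ) / l : ℝ) : ℂ) = 2 * (Real.pi : ℂ) * (((m : ℝ) / l : ℝ) : ℂ) * Complex.I by ring, hk]
        ring
      have h3 : (m : ℝ) / l = (k : ℝ) := by exact_mod_cast h2
      rw [div_eq_iff hl0] at h3
      exact ⟨k, by rw [mul_comm]; exact_mod_cast h3⟩
    rw [geom_sum_eq h1, ← hpow, show ((l : ℝ) * m / l) = (m : ℝ) by field_simp, ee_int, sub_self, zero_div]

/-- `F` is a combination of characters on `[2, 2 n]` with coefficient mass at most `A`. -/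
def Rep (n : ℕ) (A : ℝ) (F : ℤ → ℂ) : Prop :=
  ∃ (J : ℕ) (c : ℕ → ℂ) (al : ℕ → ℝ), (∑ j ∈ range J, ‖c j‖ ≤ A) ∧ ∀ m : ℤ, 2 ≤ m → m ≤ 2 * n → F m = ∑ j ∈ range J, c j * ee (al j * m)

theorem Rep.nonneg {n : ℕ} {A : ℝ} {F : ℤ → ℂ} (h : Rep n A F) : 0 ≤ A := by
  obtain ⟨J, c, al, h1, _⟩ := h
  exact (sum_nonneg fun j _ => norm_nonneg _).trans h1

theorem Rep.mono {n : ℕ} {A B : ℝ} {F : ℤ → ℂ} (h : Rep n A F) (hAB : A ≤ B) : Rep n B F := by
  obtain ⟨J, c, al, h1, h2⟩ := h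
  exact ⟨J, c, al, h1.trans hAB, h2⟩

theorem Rep.congr {n : ℕ} {A : ℝ} {F G : ℤ → ℂ} (h : Rep n A F) (hFG : ∀ m : ℤ, 2 ≤ m → m ≤ 2 * n → G m = F m) : Rep n A G := by
  obtain ⟨J, c, al, h1, h2⟩ := h
  exact ⟨J, c, al, h1, fun m h3 h4 => by rw [hFG m h3 h4, h2 m h3 h4]⟩

/-- A finite family indexed by any finite set. -/
theorem Rep.of_finset {n : ℕ} {A : ℝ} {F : ℤ → ℂ} {ι : Type*} (s : Finset ι) (c : ι → ℂ) (al : ι → ℝ) (h1 : ∑ j ∈ s, ‖c j‖ ≤ A)
    (h2 : ∀ m : ℤ, 2 ≤ m → m ≤ 2 * n → F m = ∑ j ∈ s, c j * ee (al j * m)) : Rep n A F := by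
  classical
  let e := s.equivFin
  have key : ∀ {M : Type} [AddCommMonoid M] (φ : ι → M), ∑ j ∈ s, φ j = ∑ k ∈ range s.card, if h : k < s.card then φ (e.symm ⟨k, h⟩) else 0 := by
    intro M _ φ
    rw [← Finset.sum_coe_sort s, ← Equiv.sum_comp e.symm, Finset.sum_fin_eq_sum_range]
  refine ⟨s.card, fun k => if h : k < s.card then c (e.symm ⟨k, h⟩) else 0, fun k => if h : k < s.card then al (e.symm ⟨k, h⟩) else 0, ?_, ?_⟩
  · rw [key] at h1
    refine le_of_eq_of_le (sum_congr rfl fun k _ => ?_) h1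
    dsimp only
    by_cases h : k < s.card
    · rw [dif_pos h, dif_pos h]
    · rw [dif_neg h, dif_neg h, norm_zero]
  · intro m h3 h4
    rw [h2 m h3 h4, key]
    refine sum_congr rfl fun k _ => ?_
    dsimp only
    by_cases h : k < s.card
    · rw [dif_pos h, dif_pos h, dif_pos h]
    · rw [dif_neg h, dif_neg h, zero_mul]

theorem Rep.zero (n : ℕ) : Rep n 0 (fun _ => 0) := ⟨0, fun _ => 0, fun _ => 0, by simp, fun m _ _ => by simp⟩

theorem Rep.ee (n : ℕ) (al : ℝ) : Rep n 1 (fun m => ee (al * m)) :=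
  ⟨1, fun _ => 1, fun _ => al, by simp, fun m _ _ => by simp⟩

theorem Rep.const (n : ℕ) (c : ℂ) : Rep n ‖c‖ (fun _ => c) :=
  ⟨1, fun _ => c, fun _ => 0, by simp, fun m _ _ => by simp [ee_zero]⟩

theorem Rep.add {n : ℕ} {A B : ℝ} {F G : ℤ → ℂ} (hF : Rep n A F) (hG : Rep n B G) : Rep n (A + B) (fun m => F m + G m) := by
  obtain ⟨J, c, al, h1, h2⟩ := hF
  obtain ⟨K, d, be, h3, h4⟩ := hG
  refine Rep.of_finset ((range J).disjSum (range K)) (Sum.elim c d) (Sum.elim al be) ?_ ?_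
  · rw [sum_disjSum]
    exact add_le_add h1 h3
  · intro m hm1 hm2
    rw [sum_disjSum, h2 m hm1 hm2, h4 m hm1 hm2]
    rfl

theorem Rep.smul {n : ℕ} {A : ℝ} {F : ℤ → ℂ} (c : ℂ) (hF : Rep n A F) : Rep n (‖c‖ * A) (fun m => c * F m) := by
  obtain ⟨J, d, al, h1, h2⟩ := hF
  refine ⟨J, fun j => c * d j, al, ?_, fun m hm1 hm2 => ?_⟩
  · simp_rw [norm_mul]
    rw [← mul_sum]
    exact mul_le_mul_of_nonneg_left h1 (norm_nonneg _)
  · dsimp only
    rw [h2 m hm1 hm2, mul_sum]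
    exact sum_congr rfl fun j _ => by ring

theorem Rep.mul {n : ℕ} {A B : ℝ} {F G : ℤ → ℂ} (hF : Rep n A F) (hG : Rep n B G) : Rep n (A * B) (fun m => F m * G m) := by
  have hA := hF.nonneg
  obtain ⟨J, c, al, h1, h2⟩ := hF
  obtain ⟨K, d, be, h3, h4⟩ := hG
  refine Rep.of_finset (range J ×ˢ range K) (fun p => c p.1 * d p.2) (fun p => al p.1 + be p.2) ?_ ?_
  · simp_rw [norm_mul]
    rw [sum_product]
    simp_rw [← mul_sum]
    rw [← sum_mul]
    exact mul_le_mul h1 h3 (sum_nonneg fun j _ => norm_nonneg _) hA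
  · intro m hm1 hm2
    rw [h2 m hm1 hm2, h4 m hm1 hm2, sum_mul_sum, sum_product]
    refine sum_congr rfl fun i _ => sum_congr rfl fun j _ => ?_
    rw [add_mul, ee_add]
    ring

theorem Rep.sum {n : ℕ} {ι : Type*} (s : Finset ι) (A : ι → ℝ) (F : ι → ℤ → ℂ) (h : ∀ i ∈ s, Rep n (A i) (F i)) :
    Rep n (∑ i ∈ s, A i) (fun m => ∑ i ∈ s, F i m) := by
  classical
  induction s using Finset.induction_on with
  | empty => simpa using Rep.zero n
  | insert i s hi ih =>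
    rw [sum_insert hi]
    refine ((h i (mem_insert_self i s)).add (ih fun j hj => h j (mem_insert_of_mem hj))).congr fun m _ _ => ?_
    rw [sum_insert hi]

/-- The indicator of the multiples of `q`. -/
theorem Rep.dvd (n q : ℕ) (hq : 0 < q) : Rep n 1 (fun m => if (q : ℤ) ∣ m then 1 else 0) := by
  have hq0 : (q : ℝ) ≠ 0 := by exact_mod_cast hq.ne'
  have hq1 : (q : ℂ) ≠ 0 := by exact_mod_cast hq.ne'
  refine ⟨q, fun _ => 1 / (q : ℂ), fun j => (j : ℝ) / q, ?_, fun m _ _ => ?_⟩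
  · rw [sum_const, card_range, nsmul_eq_mul, norm_div, norm_one, Complex.norm_natCast, mul_one_div_cancel hq0]
  · rw [← mul_sum]
    have h1 : ∑ j ∈ range q, Pool.Agent.H44W.ee ((j : ℝ) / q * m) = ∑ j ∈ range q, Pool.Agent.H44W.ee ((j : ℝ) * m / q) :=
      sum_congr rfl fun j _ => by rw [div_mul_eq_mul_div]
    rw [h1, ee_orth q hq m]
    dsimp only
    by_cases h : (q : ℤ) ∣ m
    · rw [if_pos h, if_pos h, one_div_mul_cancel hq1]
    · rw [if_neg h, if_neg h, mul_zero]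

end Pool.Agent.H81E
end

-- from Lib.H81E.C2
section

/-!
# H81E (MP_443e5f, candidate T, module C), part 2: intervals and functions of bounded variation
-/

namespace Pool.Agent.H81E

open Finset Pool.Agent.H44W

theorem norm_ee_sub_one_ge {t : ℝ} (h0 : 0 < t) (h1 : t < 1) : 4 * min t (1 - t) ≤ ‖ee t - 1‖ := by
  have hpi := Real.pi_pos
  have h2 : ‖ee t - 1‖ = ‖2 * Real.sin (Real.pi * t)‖ := by
    have h3 := Complex.norm_exp_I_mul_ofReal_sub_one (2 * Real.pi * t)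
    rw [show (2 * Real.pi * t) / 2 = Real.pi * t by ring] at h3
    rw [← h3]
    unfold ee
    congr 3
    push_cast
    ring
  have h3 : 2 * min t (1 - t) ≤ Real.sin (Real.pi * t) := by
    rcases le_total t (1 / 2) with h | h
    · rw [min_eq_left (by linarith)]
      have h4 := Real.mul_le_sin (x := Real.pi * t) (by positivity) (by nlinarith)
      calc 2 * t = 2 / Real.pi * (Real.pi * t) := by field_simp
        _ ≤ _ := h4
    · rw [min_eq_right (by linarith)]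
      have h4 := Real.mul_le_sin (x := Real.pi * (1 - t)) (mul_nonneg hpi.le (by linarith)) (by nlinarith)
      have h5 : Real.sin (Real.pi * (1 - t)) = Real.sin (Real.pi * t) := by
        rw [show Real.pi * (1 - t) = Real.pi - Real.pi * t by ring, Real.sin_pi_sub]
      calc 2 * (1 - t) = 2 / Real.pi * (Real.pi * (1 - t)) := by field_simp
        _ ≤ _ := h4
        _ = _ := h5
  rw [h2, Real.norm_eq_abs]
  calc 4 * min t (1 - t) = 2 * (2 * min t (1 - t)) := by ring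
    _ ≤ 2 * Real.sin (Real.pi * t) := by linarith
    _ ≤ _ := le_abs_self _

theorem ee_natmul (k : ℕ) (x : ℝ) : ee ((k : ℝ) * x) = ee x ^ k := by
  induction k with
  | zero => simp [ee_zero]
  | succ k ih => rw [pow_succ, ← ih, ← ee_add]; congr 1; push_cast; ring

/-- The geometric sum over an interval. -/
theorem geom_le (a b : ℕ) (t : ℝ) (h : ee t ≠ 1) : ‖∑ s ∈ Ico a b, ee ((s : ℝ) * t)‖ ≤ 2 / ‖ee t - 1‖ := by
  have h0 : 0 < ‖ee t - 1‖ := norm_pos_iff.2 (sub_ne_zero.2 h)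
  rcases le_or_gt b a with hab | hab
  · rw [Ico_eq_empty_of_le hab, sum_empty, norm_zero]
    positivity
  · simp_rw [ee_natmul]
    rw [geom_sum_Ico h hab.le, norm_div]
    refine div_le_div_of_nonneg_right ?_ h0.le
    refine (norm_sub_le _ _).trans ?_
    rw [norm_pow, norm_pow, norm_ee, one_pow, one_pow]
    norm_num

/-- The Fourier coefficients of an interval. -/
theorem sum_coeff_le (n a b : ℕ) (hn : 1 ≤ n) (hb : b ≤ 2 * n + 1) :
    ∑ k ∈ range (2 * n + 1), ‖(1 / ((2 * n + 1 : ℕ) : ℂ)) * ∑ s ∈ Ico a b, ee (-((k : ℝ) * (s : ℝ) / (2 * n + 1 : ℕ)))‖ ≤ 3 + Real.log n := by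
  set M : ℕ := 2 * n + 1 with hM
  have hM0 : (0 : ℝ) < (M : ℝ) := by exact_mod_cast (by omega : 0 < M)
  rw [range_eq_Ico, sum_eq_sum_Ico_succ_bot (by omega : 0 < M)]
  have h1 : ‖(1 / (M : ℂ)) * ∑ s ∈ Ico a b, ee (-(((0 : ℕ) : ℝ) * (s : ℝ) / M))‖ ≤ 1 := by
    rw [norm_mul, norm_div, norm_one, Complex.norm_natCast]
    have h2 : ‖∑ s ∈ Ico a b, ee (-(((0 : ℕ) : ℝ) * (s : ℝ) / M))‖ ≤ M := by
      refine (norm_sum_le _ _).trans ?_
      simp_rw [norm_ee]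
      rw [sum_const, Nat.card_Ico, nsmul_eq_mul, mul_one]
      exact_mod_cast (by omega : b - a ≤ M)
    calc 1 / (M : ℝ) * _ ≤ 1 / (M : ℝ) * M := mul_le_mul_of_nonneg_left h2 (by positivity)
      _ = 1 := by field_simp
  have h2 : ∀ k ∈ Ico (0 + 1) M, ‖(1 / (M : ℂ)) * ∑ s ∈ Ico a b, ee (-((k : ℝ) * (s : ℝ) / M))‖ ≤ 1 / 2 * ((k : ℝ)⁻¹ + ((M - k : ℕ) : ℝ)⁻¹) := by
    intro k hk
    rw [mem_Ico] at hk
    have hk0 : (0 : ℝ) < k := by exact_mod_cast (by omega : 0 < k)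
    have hkM : (k : ℝ) < M := by exact_mod_cast hk.2
    have hMk : ((M - k : ℕ) : ℝ) = M - k := by rw [Nat.cast_sub hk.2.le]
    have ht0 : 0 < (k : ℝ) / M := by positivity
    have ht1 : (k : ℝ) / M < 1 := by rw [div_lt_one hM0]; exact hkM
    have h3 : ∑ s ∈ Ico a b, ee (-((k : ℝ) * (s : ℝ) / M)) = (starRingEnd ℂ) (∑ s ∈ Ico a b, ee ((s : ℝ) * ((k : ℝ) / M))) := by
      rw [map_sum]
      refine sum_congr rfl fun s _ => ?_
      rw [ee_neg]
      congr 2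
      ring
    have h4 := geom_le a b ((k : ℝ) / M) (ee_ne_one ht0 ht1)
    have h5 := norm_ee_sub_one_ge ht0 ht1
    have h6 : 0 < min ((k : ℝ) / M) (1 - (k : ℝ) / M) := lt_min ht0 (by linarith)
    rw [norm_mul, norm_div, norm_one, Complex.norm_natCast, h3, RCLike.norm_conj]
    calc 1 / (M : ℝ) * ‖∑ s ∈ Ico a b, ee ((s : ℝ) * ((k : ℝ) / M))‖ ≤ 1 / (M : ℝ) * (2 / (4 * min ((k : ℝ) / M) (1 - (k : ℝ) / M))) := by
          refine mul_le_mul_of_nonneg_left (h4.trans ?_) (by positivity)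
          exact div_le_div_of_nonneg_left (by norm_num) (by positivity) h5
      _ ≤ 1 / 2 * ((k : ℝ)⁻¹ + ((M - k : ℕ) : ℝ)⁻¹) := by
          rw [hMk]
          have hMk0 : 0 < (M : ℝ) - k := by linarith
          rcases le_total ((k : ℝ) / M) (1 - (k : ℝ) / M) with h | h
          · rw [min_eq_left h]
            have : 1 / (M : ℝ) * (2 / (4 * ((k : ℝ) / M))) = 1 / 2 * (k : ℝ)⁻¹ := by field_simp; ring
            rw [this]
            have : 0 < ((M : ℝ) - k)⁻¹ := inv_pos.2 hMk0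
            linarith
          · rw [min_eq_right h]
            have : 1 / (M : ℝ) * (2 / (4 * (1 - (k : ℝ) / M))) = 1 / 2 * ((M : ℝ) - k)⁻¹ := by
              rw [show (1 - (k : ℝ) / M) = (M - k) / M by field_simp]
              field_simp
              ring
            rw [this]
            have : 0 < (k : ℝ)⁻¹ := inv_pos.2 hk0
            linarith
  have h3 : ∑ k ∈ Ico (0 + 1) M, (1 / 2 * ((k : ℝ)⁻¹ + ((M - k : ℕ) : ℝ)⁻¹)) = ∑ k ∈ range (2 * n), ((k + 1 : ℕ) : ℝ)⁻¹ := by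
    rw [← mul_sum, sum_add_distrib]
    have h4 : ∑ k ∈ Ico (0 + 1) M, (k : ℝ)⁻¹ = ∑ k ∈ range (2 * n), ((k + 1 : ℕ) : ℝ)⁻¹ := by
      rw [sum_Ico_eq_sum_range, hM]
      refine sum_congr (by congr 1) fun k _ => ?_
      rw [show (0 + 1 + k) = k + 1 by ring]
    have h5 : ∑ k ∈ Ico (0 + 1) M, ((M - k : ℕ) : ℝ)⁻¹ = ∑ k ∈ range (2 * n), ((k + 1 : ℕ) : ℝ)⁻¹ := by
      rw [← h4]
      refine sum_bij' (fun k _ => M - k) (fun k _ => M - k) ?_ ?_ ?_ ?_ ?_
      · intro k hk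
        rw [mem_Ico] at hk ⊢
        omega
      · intro k hk
        rw [mem_Ico] at hk ⊢
        omega
      · intro k hk
        rw [mem_Ico] at hk
        omega
      · intro k hk
        rw [mem_Ico] at hk
        omega
      · intro k hk
        rfl
    rw [h4, h5]
    ring
  have h4 : ∑ k ∈ range (2 * n), ((k + 1 : ℕ) : ℝ)⁻¹ ≤ 1 + Real.log ((2 * n : ℕ) : ℝ) := by
    have h5 := harmonic_le_one_add_log (2 * n)
    refine le_trans (le_of_eq ?_) h5
    unfold harmonic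
    push_cast
    rfl
  have h5 : Real.log ((2 * n : ℕ) : ℝ) ≤ 1 + Real.log n := by
    have hn0 : (n : ℝ) ≠ 0 := by exact_mod_cast (by omega : n ≠ 0)
    push_cast
    rw [Real.log_mul (by norm_num) hn0]
    have := Real.log_two_lt_d9
    linarith
  have h6 := sum_le_sum h2
  rw [h3] at h6
  linarith

/-- Indicators of intervals. -/
theorem Rep.interval (n : ℕ) (hn : 1 ≤ n) (u v : ℤ) : Rep n (3 + Real.log n) (fun m => if u ≤ m ∧ m < v then 1 else 0) := by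
  set M : ℕ := 2 * n + 1 with hM
  have hM1 : (M : ℂ) ≠ 0 := by exact_mod_cast (by omega : M ≠ 0)
  have hM2 : (M : ℝ) ≠ 0 := by exact_mod_cast (by omega : M ≠ 0)
  set a : ℕ := u.toNat with ha
  set b : ℕ := min v.toNat M with hb
  refine ⟨M, fun k => (1 / (M : ℂ)) * ∑ s ∈ Ico a b, Pool.Agent.H44W.ee (-((k : ℝ) * (s : ℝ) / M)), fun k => (k : ℝ) / M, sum_coeff_le n a b hn (min_le_right _ _), ?_⟩
  intro m hm1 hm2
  dsimp only
  have h1 : ∀ k ∈ range M, (1 / (M : ℂ)) * (∑ s ∈ Ico a b, Pool.Agent.H44W.ee (-((k : ℝ) * (s : ℝ) / M))) * Pool.Agent.H44W.ee ((k : ℝ) / M * m) =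
      ∑ s ∈ Ico a b, (1 / (M : ℂ)) * Pool.Agent.H44W.ee ((k : ℝ) * ((m - (s : ℤ) : ℤ) : ℝ) / M) := by
    intro k _
    rw [mul_sum, sum_mul]
    refine sum_congr rfl fun s _ => ?_
    rw [mul_assoc, ← ee_add]
    congr 2
    push_cast
    ring
  rw [sum_congr rfl h1, sum_comm]
  have h2 : ∀ s ∈ Ico a b, ∑ k ∈ range M, (1 / (M : ℂ)) * Pool.Agent.H44W.ee ((k : ℝ) * ((m - (s : ℤ) : ℤ) : ℝ) / M) = if (s : ℤ) = m then 1 else 0 := by
    intro s hs
    rw [mem_Ico] at hs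
    have hsM : s < M := lt_of_lt_of_le hs.2 (min_le_right _ _)
    rw [← mul_sum, ee_orth M (by omega)]
    by_cases h : (s : ℤ) = m
    · rw [if_pos h, if_pos (by rw [h, sub_self]; exact dvd_zero _), one_div_mul_cancel hM1]
    · rw [if_neg h, if_neg, mul_zero]
      intro h3
      apply h
      have h4 : m - (s : ℤ) = 0 := Int.eq_zero_of_abs_lt_dvd h3 (by rw [abs_lt]; constructor <;> omega)
      omega
  rw [sum_congr rfl h2]
  by_cases h : u ≤ m ∧ m < v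
  · rw [if_pos h, Finset.sum_eq_single m.toNat]
    · rw [if_pos (by omega)]
    · intro s _ hs
      rw [if_neg]
      omega
    · intro hs
      exfalso
      apply hs
      rw [mem_Ico, ha, hb]
      constructor
      · omega
      · rw [lt_min_iff]
        omega
  · rw [if_neg h, Finset.sum_eq_zero]
    intro s hs
    rw [mem_Ico, ha, hb, lt_min_iff] at hs
    rw [if_neg]
    intro h3
    apply h
    omega

/-- Functions of bounded variation. -/
theorem Rep.bv (n : ℕ) (hn : 1 ≤ n) (F : ℤ → ℂ) :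
    Rep n (‖F 2‖ + (3 + Real.log n) * ∑ j ∈ range (2 * n), ‖F ((j : ℤ) + 3) - F ((j : ℤ) + 2)‖) F := by
  have h1 := Rep.sum (n := n) (range (2 * n)) (fun j => ‖F ((j : ℤ) + 3) - F ((j : ℤ) + 2)‖ * (3 + Real.log n))
    (fun j m => (F ((j : ℤ) + 3) - F ((j : ℤ) + 2)) * (if ((j : ℤ) + 3) ≤ m ∧ m < 2 * n + 1 then 1 else 0))
    fun j _ => (Rep.interval n hn ((j : ℤ) + 3) (2 * n + 1)).smul _
  have h2 := (Rep.const n (F 2)).add h1
  rw [← sum_mul, mul_comm (∑ j ∈ range (2 * n), ‖F ((j : ℤ) + 3) - F ((j : ℤ) + 2)‖)] at h2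
  refine h2.congr fun m hm1 hm2 => ?_
  obtain ⟨d, rfl⟩ : ∃ d : ℕ, m = d + 2 := ⟨(m - 2).toNat, by omega⟩
  have hd : d ≤ 2 * n := by omega
  have h3 : ∑ j ∈ range (2 * n), (F ((j : ℤ) + 3) - F ((j : ℤ) + 2)) * (if ((j : ℤ) + 3) ≤ (d : ℤ) + 2 ∧ (d : ℤ) + 2 < 2 * n + 1 then (1 : ℂ) else 0) =
      ∑ j ∈ range d, (F ((j : ℤ) + 3) - F ((j : ℤ) + 2)) := by
    rw [← sum_subset (range_subset_range.2 hd)]
    · refine sum_congr rfl fun j hj => ?_
      rw [mem_range] at hj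
      rw [if_pos, mul_one]
      omega
    · intro j _ hj
      rw [mem_range] at hj
      rw [if_neg, mul_zero]
      omega
  rw [h3]
  have h4 : ∑ j ∈ range d, (F ((j : ℤ) + 3) - F ((j : ℤ) + 2)) = F ((d : ℤ) + 2) - F 2 := by
    have h5 := Finset.sum_range_sub (fun j : ℕ => F ((j : ℤ) + 2)) d
    simp only [Nat.cast_zero, zero_add] at h5
    rw [← h5]
    refine sum_congr rfl fun j _ => ?_
    rw [show (((j + 1 : ℕ) : ℤ) + 2) = (j : ℤ) + 3 by push_cast; ring]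
  rw [h4]
  ring

end Pool.Agent.H81E
end

-- from Lib.H81E.C3
section

/-!
# H81E (MP_443e5f, candidate T, module C), part 3: the bilinear form `TF`, additive characters, Type I pieces
-/

namespace Pool.Agent.H81E

open Finset Pool.Agent.H44W

theorem TF_congr (n : ℕ) {F G : ℤ → ℂ} (W f g : ℤ → ℂ) (h : ∀ m : ℤ, 2 ≤ m → m ≤ 2 * n → F m = G m) : TF n F W f g = TF n G W f g := by
  unfold TF
  refine sum_congr rfl fun x hx => sum_congr rfl fun y hy => ?_
  rw [mem_Icc] at hx hy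
  rw [h (x + y) (by omega) (by omega)]

theorem TF_sum (n : ℕ) {ι : Type*} (s : Finset ι) (F : ι → ℤ → ℂ) (W f g : ℤ → ℂ) :
    TF n (fun m => ∑ i ∈ s, F i m) W f g = ∑ i ∈ s, TF n (F i) W f g := by
  unfold TF
  rw [sum_comm]
  have h1 : ∀ y ∈ Icc (1 : ℤ) n, ∑ x ∈ Icc (1 : ℤ) n, f x * g y * (∑ i ∈ s, F i (x + y)) * W (x - y) =
      ∑ i ∈ s, ∑ x ∈ Icc (1 : ℤ) n, f x * g y * F i (x + y) * W (x - y) := by
    intro y _
    rw [sum_comm]
    refine sum_congr rfl fun x _ => ?_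
    rw [mul_sum, sum_mul]
  rw [sum_congr rfl h1, sum_comm]
  refine sum_congr rfl fun i _ => ?_
  rw [sum_comm]

theorem TF_smul (n : ℕ) (c : ℂ) (F W f g : ℤ → ℂ) : TF n (fun m => c * F m) W f g = c * TF n F W f g := by
  unfold TF
  rw [mul_sum]
  refine sum_congr rfl fun x _ => ?_
  rw [mul_sum]
  refine sum_congr rfl fun y _ => ?_
  ring

theorem TF_ee (n : ℕ) (th : ℝ) (G W f g : ℤ → ℂ) :
    TF n (fun m => ee (th * m) * G m) W f g = TF n G W (fun x => f x * ee (th * x)) (fun y => g y * ee (th * y)) := by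
  unfold TF
  refine sum_congr rfl fun x _ => sum_congr rfl fun y _ => ?_
  dsimp only
  rw [show th * ((x + y : ℤ) : ℝ) = th * x + th * y by push_cast; ring, ee_add]
  ring

/-- A factor with small Fourier norm is absorbed by `f` and `g`. -/
theorem Rep.TF {n : ℕ} {A : ℝ} {F : ℤ → ℂ} (h : Rep n A F) (G W f g : ℤ → ℂ) :
    ∃ th : ℝ, ‖Pool.Agent.H44W.TF n (fun m => F m * G m) W f g‖ ≤
      A * ‖Pool.Agent.H44W.TF n G W (fun x => f x * Pool.Agent.H44W.ee (th * x)) (fun y => g y * Pool.Agent.H44W.ee (th * y))‖ := by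
  have hA := h.nonneg
  obtain ⟨J, c, al, h1, h2⟩ := h
  have h3 : Pool.Agent.H44W.TF n (fun m => F m * G m) W f g =
      ∑ j ∈ range J, c j * Pool.Agent.H44W.TF n G W (fun x => f x * Pool.Agent.H44W.ee (al j * x)) (fun y => g y * Pool.Agent.H44W.ee (al j * y)) := by
    rw [TF_congr n (G := fun m => ∑ j ∈ range J, c j * (Pool.Agent.H44W.ee (al j * m) * G m)), TF_sum]
    · refine sum_congr rfl fun j _ => ?_
      rw [TF_smul, TF_ee]
    · intro m hm1 hm2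
      rw [h2 m hm1 hm2, sum_mul]
      exact sum_congr rfl fun j _ => by ring
  rcases Nat.eq_zero_or_pos J with rfl | hJ
  · refine ⟨0, ?_⟩
    rw [h3, sum_range_zero, norm_zero]
    exact mul_nonneg hA (norm_nonneg _)
  · obtain ⟨j0, _, hj0⟩ := exists_max_image (range J) (fun j => ‖Pool.Agent.H44W.TF n G W (fun x => f x * Pool.Agent.H44W.ee (al j * x)) (fun y => g y * Pool.Agent.H44W.ee (al j * y))‖)
      ⟨0, mem_range.2 hJ⟩
    refine ⟨al j0, ?_⟩
    rw [h3]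
    refine (norm_sum_le _ _).trans ?_
    refine (sum_le_sum (g := fun j => ‖c j‖ * ‖Pool.Agent.H44W.TF n G W (fun x => f x * Pool.Agent.H44W.ee (al j0 * x)) (fun y => g y * Pool.Agent.H44W.ee (al j0 * y))‖) fun j hj => ?_).trans ?_
    · rw [norm_mul]
      exact mul_le_mul_of_nonneg_left (hj0 j hj) (norm_nonneg _)
    · rw [← sum_mul]
      exact mul_le_mul_of_nonneg_right h1 (norm_nonneg _)

/-- Parseval on the group `ℤ / M`. -/
theorem parseval (M : ℕ) (hM : 0 < M) (S : Finset ℤ) (hS : ∀ s ∈ S, ∀ t ∈ S, (M : ℤ) ∣ s - t → s = t) (a : ℤ → ℂ) :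
    ∑ k ∈ range M, ‖∑ s ∈ S, a s * ee ((k : ℝ) * s / M)‖ ^ 2 = M * ∑ s ∈ S, ‖a s‖ ^ 2 := by
  have h1 : ∀ k : ℕ, ((‖∑ s ∈ S, a s * ee ((k : ℝ) * s / M)‖ ^ 2 : ℝ) : ℂ) =
      ∑ s ∈ S, ∑ t ∈ S, a s * (starRingEnd ℂ) (a t) * ee ((k : ℝ) * ((s - t : ℤ) : ℝ) / M) := by
    intro k
    rw [Complex.ofReal_pow, ← Complex.mul_conj', map_sum, sum_mul_sum]
    refine sum_congr rfl fun s _ => sum_congr rfl fun t _ => ?_
    rw [map_mul, ← ee_neg, show (k : ℝ) * ((s - t : ℤ) : ℝ) / M = (k : ℝ) * s / M + -((k : ℝ) * t / M) by push_cast; ring, ee_add]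
    ring
  have h2 : ((∑ k ∈ range M, ‖∑ s ∈ S, a s * ee ((k : ℝ) * s / M)‖ ^ 2 : ℝ) : ℂ) = ((M * ∑ s ∈ S, ‖a s‖ ^ 2 : ℝ) : ℂ) := by
    rw [Complex.ofReal_sum, sum_congr rfl fun k _ => h1 k, sum_comm, sum_congr rfl fun s _ => sum_comm]
    rw [Complex.ofReal_mul, Complex.ofReal_sum, Complex.ofReal_natCast, mul_sum]
    refine sum_congr rfl fun s hs => ?_
    rw [Finset.sum_eq_single s]
    · rw [← mul_sum, ee_orth M hM, if_pos (by rw [sub_self]; exact dvd_zero _), Complex.mul_conj', Complex.ofReal_pow]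
      ring
    · intro t ht hts
      rw [← mul_sum, ee_orth M hM, if_neg, mul_zero]
      intro h
      exact hts (hS s hs t ht h).symm
    · intro h
      exact absurd hs h
  exact_mod_cast h2

/-- The form with kernel `1`. -/
theorem TF_one (n : ℕ) (W f g : ℤ → ℂ) (hW : ∀ x, ‖W x‖ ≤ 1) (hf : ∀ x, ‖f x‖ ≤ 1) :
    ∃ th : ℝ, ‖TF n (fun _ => 1) W f g‖ ≤ 2 * n * ‖∑ y ∈ Icc (1 : ℤ) n, g y * ee (th * y)‖ := by
  rcases Nat.eq_zero_or_pos n with rfl | hn
  · refine ⟨0, ?_⟩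
    simp [TF]
  set M : ℕ := 2 * n with hM
  have hM0 : 0 < M := by omega
  have hMr : (M : ℝ) ≠ 0 := by exact_mod_cast hM0.ne'
  have hMc : (M : ℂ) ≠ 0 := by exact_mod_cast hM0.ne'
  set w : ℕ → ℂ := fun k => (1 / (M : ℂ)) * ∑ v ∈ Ioo (-(n : ℤ)) n, W v * ee (-((k : ℝ) * v / M)) with hw
  set F : ℕ → ℂ := fun k => ∑ x ∈ Icc (1 : ℤ) n, f x * ee ((k : ℝ) * x / M) with hF
  set G : ℕ → ℂ := fun k => ∑ y ∈ Icc (1 : ℤ) n, g y * ee (-((k : ℝ) / M) * y) with hG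
  -- inversion
  have h1 : ∀ v0 ∈ Ioo (-(n : ℤ)) n, W v0 = ∑ k ∈ range M, w k * ee ((k : ℝ) * v0 / M) := by
    intro v0 hv0
    rw [mem_Ioo] at hv0
    have h2 : ∀ k ∈ range M, w k * ee ((k : ℝ) * v0 / M) = ∑ v ∈ Ioo (-(n : ℤ)) n, (1 / (M : ℂ)) * W v * ee ((k : ℝ) * ((v0 - v : ℤ) : ℝ) / M) := by
      intro k _
      rw [hw]
      dsimp only
      rw [mul_sum, sum_mul]
      refine sum_congr rfl fun v _ => ?_
      rw [show (k : ℝ) * ((v0 - v : ℤ) : ℝ) / M = -((k : ℝ) * v / M) + (k : ℝ) * v0 / M by push_cast; ring, ee_add]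
      ring
    rw [sum_congr rfl h2, sum_comm, Finset.sum_eq_single v0]
    · rw [← mul_sum, ee_orth M hM0, if_pos (by rw [sub_self]; exact dvd_zero _)]
      field_simp
    · intro v hv hvv
      rw [mem_Ioo] at hv
      rw [← mul_sum, ee_orth M hM0, if_neg, mul_zero]
      intro h
      apply hvv
      have h4 : v0 - v = 0 := Int.eq_zero_of_abs_lt_dvd h (by rw [abs_lt]; constructor <;> omega)
      omega
    · intro h
      exact absurd (mem_Ioo.2 hv0) h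
  have h2 : TF n (fun _ => 1) W f g = ∑ k ∈ range M, w k * F k * G k := by
    unfold TF
    have h3 : ∀ x ∈ Icc (1 : ℤ) n, ∀ y ∈ Icc (1 : ℤ) n, f x * g y * 1 * W (x - y) =
        ∑ k ∈ range M, w k * (f x * ee ((k : ℝ) * x / M)) * (g y * ee (-((k : ℝ) / M) * y)) := by
      intro x hx y hy
      rw [mem_Icc] at hx hy
      rw [h1 (x - y) (by rw [mem_Ioo]; omega), mul_sum]
      refine sum_congr rfl fun k _ => ?_
      rw [show (k : ℝ) * ((x - y : ℤ) : ℝ) / M = (k : ℝ) * x / M + -((k : ℝ) / M) * y by push_cast; ring, ee_add]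
      ring
    rw [sum_congr rfl fun x hx => sum_congr rfl fun y hy => h3 x hx y hy]
    rw [sum_congr rfl fun x _ => sum_comm, sum_comm]
    refine sum_congr rfl fun k _ => ?_
    rw [hF, hG]
    dsimp only
    rw [mul_assoc, sum_mul_sum, mul_sum]
    refine sum_congr rfl fun x _ => ?_
    rw [mul_sum]
    refine sum_congr rfl fun y _ => ?_
    ring
  have hwsq : ∑ k ∈ range M, ‖w k‖ ^ 2 ≤ 1 := by
    have h3 : ∀ k ∈ range M, ‖w k‖ ^ 2 = (1 / (M : ℝ)) ^ 2 * ‖∑ v ∈ Ioo (-(n : ℤ)) n, (starRingEnd ℂ) (W v) * ee ((k : ℝ) * v / M)‖ ^ 2 := by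
      intro k _
      rw [hw]
      dsimp only
      rw [norm_mul, mul_pow, norm_div, norm_one, Complex.norm_natCast, ← RCLike.norm_conj (∑ v ∈ Ioo (-(n : ℤ)) n, W v * ee (-((k : ℝ) * v / M))), map_sum]
      congr 3
      refine sum_congr rfl fun v _ => ?_
      rw [map_mul, ee_neg, Complex.conj_conj]
    rw [sum_congr rfl h3, ← mul_sum, parseval M hM0]
    · have h4 : ∑ v ∈ Ioo (-(n : ℤ)) n, ‖(starRingEnd ℂ) (W v)‖ ^ 2 ≤ M := by
        refine (sum_le_sum (g := fun _ => (1 : ℝ)) fun v _ => ?_).trans ?_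
        · rw [RCLike.norm_conj]
          exact pow_le_one₀ (norm_nonneg _) (hW v)
        · rw [sum_const, nsmul_eq_mul, mul_one, Int.card_Ioo]
          exact_mod_cast (by omega : ((n : ℤ) - -(n : ℤ) - 1).toNat ≤ M)
      calc (1 / (M : ℝ)) ^ 2 * (M * ∑ v ∈ Ioo (-(n : ℤ)) n, ‖(starRingEnd ℂ) (W v)‖ ^ 2) ≤ (1 / (M : ℝ)) ^ 2 * (M * M) := by gcongr
        _ = 1 := by field_simp
    · intro s hs t ht h
      rw [mem_Ioo] at hs ht
      have h4 : s - t = 0 := Int.eq_zero_of_abs_lt_dvd h (by rw [abs_lt]; constructor <;> omega)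
      omega
  have hFsq : ∑ k ∈ range M, ‖F k‖ ^ 2 ≤ (M : ℝ) * n := by
    rw [hF]
    dsimp only
    rw [parseval M hM0]
    · refine mul_le_mul_of_nonneg_left ?_ (Nat.cast_nonneg _)
      refine (sum_le_sum (g := fun _ => (1 : ℝ)) fun v _ => pow_le_one₀ (norm_nonneg _) (hf v)).trans ?_
      rw [sum_const, nsmul_eq_mul, mul_one, Int.card_Icc]
      exact_mod_cast (by omega : ((n : ℤ) + 1 - 1).toNat ≤ n)
    · intro s hs t ht h
      rw [mem_Icc] at hs ht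
      have h4 : s - t = 0 := Int.eq_zero_of_abs_lt_dvd h (by rw [abs_lt]; constructor <;> omega)
      omega
  have hCS : ∑ k ∈ range M, ‖w k‖ * ‖F k‖ ≤ 2 * n := by
    have h3 := sum_mul_sq_le_sq_mul_sq (range M) (fun k => ‖w k‖) (fun k => ‖F k‖)
    have h4 : (∑ k ∈ range M, ‖w k‖ * ‖F k‖) ^ 2 ≤ (2 * (n : ℝ)) ^ 2 := by
      refine h3.trans ((mul_le_mul hwsq hFsq (sum_nonneg fun k _ => by positivity) zero_le_one).trans ?_)
      rw [hM]
      push_cast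
      nlinarith [sq_nonneg (n : ℝ)]
    exact le_of_sq_le_sq h4 (by positivity)
  obtain ⟨k0, _, hk0⟩ := exists_max_image (range M) (fun k => ‖G k‖) ⟨0, mem_range.2 hM0⟩
  refine ⟨-((k0 : ℝ) / M), ?_⟩
  rw [h2]
  calc ‖∑ k ∈ range M, w k * F k * G k‖ ≤ ∑ k ∈ range M, ‖w k * F k * G k‖ := norm_sum_le _ _
    _ ≤ ∑ k ∈ range M, ‖w k‖ * ‖F k‖ * ‖G k0‖ := by
        refine sum_le_sum fun k hk => ?_
        rw [norm_mul, norm_mul]
        exact mul_le_mul_of_nonneg_left (hk0 k hk) (by positivity)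
    _ = (∑ k ∈ range M, ‖w k‖ * ‖F k‖) * ‖G k0‖ := by rw [sum_mul]
    _ ≤ 2 * n * ‖G k0‖ := mul_le_mul_of_nonneg_right hCS (norm_nonneg _)

/-- A kernel with small Fourier norm: `TF` is controlled by the exponential sums of `g`. -/
theorem Rep.TF_le {n : ℕ} {A : ℝ} {F : ℤ → ℂ} (h : Rep n A F) (W f g : ℤ → ℂ) (hW : ∀ x, ‖W x‖ ≤ 1) (hf : ∀ x, ‖f x‖ ≤ 1) :
    ∃ th : ℝ, ‖Pool.Agent.H44W.TF n F W f g‖ ≤ A * (2 * n * ‖∑ y ∈ Icc (1 : ℤ) n, g y * Pool.Agent.H44W.ee (th * y)‖) := by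
  obtain ⟨th1, h1⟩ := h.TF (fun _ => 1) W f g
  obtain ⟨th2, h2⟩ := TF_one n W (fun x => f x * Pool.Agent.H44W.ee (th1 * x)) (fun y => g y * Pool.Agent.H44W.ee (th1 * y)) hW
    (fun x => by rw [norm_mul, norm_ee, mul_one]; exact hf x)
  refine ⟨th1 + th2, ?_⟩
  have h3 : ∑ y ∈ Icc (1 : ℤ) n, g y * Pool.Agent.H44W.ee ((th1 + th2) * y) = ∑ y ∈ Icc (1 : ℤ) n, g y * Pool.Agent.H44W.ee (th1 * y) * Pool.Agent.H44W.ee (th2 * y) := by
    refine sum_congr rfl fun y _ => ?_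
    rw [add_mul, ee_add]
    ring
  rw [h3]
  have h4 : Pool.Agent.H44W.TF n F W f g = Pool.Agent.H44W.TF n (fun m => F m * 1) W f g := TF_congr n W f g fun m _ _ => (mul_one _).symm
  rw [h4]
  exact h1.trans (mul_le_mul_of_nonneg_left h2 h.nonneg)

end Pool.Agent.H81E
end

-- from Lib.H81E.C4
section

/-!
# H81E (MP_443e5f, candidate T, module C), part 4: Type I pieces
-/

namespace Pool.Agent.H81E

open Finset Pool.Agent.H44W

/-- The indicator of `{q b : B₁ ≤ b < B₂}`. -/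
theorem Rep.prog (n : ℕ) (hn : 1 ≤ n) (q : ℕ) (hq : 0 < q) (B₁ B₂ : ℕ) :
    Rep n (3 + Real.log n) (fun m => if (q : ℤ) ∣ m ∧ ((q * B₁ : ℕ) : ℤ) ≤ m ∧ m < ((q * B₂ : ℕ) : ℤ) then 1 else 0) := by
  have h := (Rep.dvd n q hq).mul (Rep.interval n hn ((q * B₁ : ℕ) : ℤ) ((q * B₂ : ℕ) : ℤ))
  rw [one_mul] at h
  refine h.congr fun m _ _ => ?_
  by_cases h1 : (q : ℤ) ∣ m
  · by_cases h2 : ((q * B₁ : ℕ) : ℤ) ≤ m ∧ m < ((q * B₂ : ℕ) : ℤ)
    · rw [if_pos ⟨h1, h2⟩, if_pos h1, if_pos h2, mul_one]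
    · rw [if_neg fun h3 => h2 h3.2, if_neg h2, mul_zero]
  · rw [if_neg fun h3 => h1 h3.1, if_neg h1, zero_mul]

/-- The Type I piece as a sum of indicators of progressions. -/
theorem typeI_eq (R : ℕ) (ga : ℕ → ℂ) (hR : ∀ q, ga q ≠ 0 → q ≤ R) (B₁ B₂ : ℕ) (m : ℤ) (hm : 1 ≤ m) :
    ∑ x ∈ m.toNat.divisorsAntidiagonal, ga x.1 * (if B₁ ≤ x.2 ∧ x.2 < B₂ then 1 else 0) =
      ∑ q ∈ Icc 1 R, ga q * (if (q : ℤ) ∣ m ∧ ((q * B₁ : ℕ) : ℤ) ≤ m ∧ m < ((q * B₂ : ℕ) : ℤ) then 1 else 0) := by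
  obtain ⟨k, rfl⟩ : ∃ k : ℕ, m = k := ⟨m.toNat, by omega⟩
  have hk : 0 < k := by omega
  rw [Int.toNat_natCast, Nat.sum_divisorsAntidiagonal (fun a b => ga a * (if B₁ ≤ b ∧ b < B₂ then (1 : ℂ) else 0))]
  have h1 : ∑ q ∈ Icc 1 R, ga q * (if (q : ℤ) ∣ (k : ℤ) ∧ ((q * B₁ : ℕ) : ℤ) ≤ (k : ℤ) ∧ (k : ℤ) < ((q * B₂ : ℕ) : ℤ) then (1 : ℂ) else 0) =
      ∑ q ∈ (Icc 1 R).filter (fun q => q ∣ k), ga q * (if B₁ ≤ k / q ∧ k / q < B₂ then (1 : ℂ) else 0) := by
    rw [sum_filter]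
    refine sum_congr rfl fun q hq => ?_
    rw [mem_Icc] at hq
    by_cases h2 : q ∣ k
    · rw [if_pos h2]
      congr 1
      obtain ⟨b, rfl⟩ := h2
      have hq0 : 0 < q := by omega
      rw [Nat.mul_div_cancel_left b hq0]
      by_cases h3 : B₁ ≤ b ∧ b < B₂
      · rw [if_pos h3, if_pos]
        refine ⟨?_, ?_, ?_⟩
        · exact_mod_cast Dvd.intro b rfl
        · exact_mod_cast Nat.mul_le_mul_left q h3.1
        · exact_mod_cast Nat.mul_lt_mul_of_pos_left h3.2 hq0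
      · rw [if_neg h3, if_neg]
        intro h4
        apply h3
        refine ⟨?_, ?_⟩
        · exact Nat.le_of_mul_le_mul_left (by exact_mod_cast h4.2.1) hq0
        · exact Nat.lt_of_mul_lt_mul_left (a := q) (by exact_mod_cast h4.2.2)
    · rw [if_neg h2, if_neg, mul_zero]
      intro h3
      exact h2 (by exact_mod_cast h3.1)
  rw [h1]
  symm
  refine sum_subset ?_ ?_
  · intro q hq
    rw [mem_filter] at hq
    exact Nat.mem_divisors.2 ⟨hq.2, hk.ne'⟩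
  · intro q hq hq2
    rw [Nat.mem_divisors] at hq
    by_cases h2 : ga q = 0
    · rw [h2, zero_mul]
    · exfalso
      apply hq2
      rw [mem_filter, mem_Icc]
      exact ⟨⟨Nat.pos_of_dvd_of_pos hq.1 hk, hR q h2⟩, hq.1⟩

/-- Type I pieces have small Fourier norm. -/
theorem Rep.typeI (n : ℕ) (hn : 1 ≤ n) (R : ℕ) (ga : ℕ → ℂ) (hga : ∀ q, ‖ga q‖ ≤ 1) (hR : ∀ q, ga q ≠ 0 → q ≤ R) (B₁ B₂ : ℕ) :
    Rep n (R * (3 + Real.log n)) (fun m => ∑ x ∈ m.toNat.divisorsAntidiagonal, ga x.1 * (if B₁ ≤ x.2 ∧ x.2 < B₂ then 1 else 0)) := by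
  have hl : 0 ≤ 3 + Real.log n := (Rep.interval n hn 0 0).nonneg
  have h := Rep.sum (n := n) (Icc 1 R) (fun q => ‖ga q‖ * (3 + Real.log n))
    (fun q m => ga q * (if (q : ℤ) ∣ m ∧ ((q * B₁ : ℕ) : ℤ) ≤ m ∧ m < ((q * B₂ : ℕ) : ℤ) then 1 else 0))
    fun q hq => (Rep.prog n hn q (by rw [mem_Icc] at hq; omega) B₁ B₂).smul (ga q)
  refine (h.congr fun m hm _ => typeI_eq R ga hR B₁ B₂ m (by omega)).mono ?_
  refine (sum_le_sum (g := fun _ => 3 + Real.log n) fun q _ => ?_).trans ?_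
  · exact mul_le_of_le_one_left hl (hga q)
  · rw [sum_const, Nat.card_Icc, Nat.add_sub_cancel, nsmul_eq_mul]

/-- Module C: Type I pieces are controlled by the exponential sums of `g`. -/
theorem type_one (n : ℕ) (hn : 1 ≤ n) (R : ℕ) (ga : ℕ → ℂ) (hga : ∀ q, ‖ga q‖ ≤ 1) (hR : ∀ q, ga q ≠ 0 → q ≤ R) (B₁ B₂ : ℕ)
    (W f g : ℤ → ℂ) (hW : ∀ x, ‖W x‖ ≤ 1) (hf : ∀ x, ‖f x‖ ≤ 1) :
    ∃ th : ℝ, ‖TF n (fun m => ∑ x ∈ m.toNat.divisorsAntidiagonal, ga x.1 * (if B₁ ≤ x.2 ∧ x.2 < B₂ then 1 else 0)) W f g‖ ≤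
      6 * R * (1 + Real.log n) * n * ‖∑ y ∈ Icc (1 : ℤ) n, g y * ee (th * y)‖ := by
  obtain ⟨th, h⟩ := (Rep.typeI n hn R ga hga hR B₁ B₂).TF_le W f g hW hf
  refine ⟨th, h.trans ?_⟩
  have hlog : 0 ≤ Real.log n := Real.log_natCast_nonneg n
  have h0 : 0 ≤ (R : ℝ) * n * ‖∑ y ∈ Icc (1 : ℤ) n, g y * ee (th * y)‖ := by positivity
  calc (R : ℝ) * (3 + Real.log n) * (2 * n * ‖∑ y ∈ Icc (1 : ℤ) n, g y * ee (th * y)‖) =
        (6 + 2 * Real.log n) * ((R : ℝ) * n * ‖∑ y ∈ Icc (1 : ℤ) n, g y * ee (th * y)‖) := by ring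
    _ ≤ (6 + 6 * Real.log n) * ((R : ℝ) * n * ‖∑ y ∈ Icc (1 : ℤ) n, g y * ee (th * y)‖) := mul_le_mul_of_nonneg_right (by linarith) h0
    _ = _ := by ring

/-- The same with real coefficients, exactly in the form of `H81A.H1`. -/
theorem type_one_real (n : ℕ) (hn : 1 ≤ n) (R : ℕ) (ga : ℕ → ℝ) (hga : ∀ q, |ga q| ≤ 1) (hR : ∀ q, ga q ≠ 0 → q ≤ R) (B₁ B₂ : ℕ)
    (W f g : ℤ → ℂ) (hW : ∀ x, ‖W x‖ ≤ 1) (hf : ∀ x, ‖f x‖ ≤ 1) :
    ∃ th : ℝ, ‖TF n (fun m => ((∑ x ∈ m.toNat.divisorsAntidiagonal, ga x.1 * (if B₁ ≤ x.2 ∧ x.2 < B₂ then 1 else 0) : ℝ) : ℂ)) W f g‖ ≤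
      6 * R * (1 + Real.log n) * n * ‖∑ y ∈ Icc (1 : ℤ) n, g y * ee (th * y)‖ := by
  obtain ⟨th, h⟩ := type_one n hn R (fun q => (ga q : ℂ)) (fun q => by rw [Complex.norm_real]; exact hga q)
    (fun q hq => hR q fun h0 => hq (by rw [h0, Complex.ofReal_zero])) B₁ B₂ W f g hW hf
  refine ⟨th, ?_⟩
  have h2 : TF n (fun m => ((∑ x ∈ m.toNat.divisorsAntidiagonal, ga x.1 * (if B₁ ≤ x.2 ∧ x.2 < B₂ then 1 else 0) : ℝ) : ℂ)) W f g =
      TF n (fun m => ∑ x ∈ m.toNat.divisorsAntidiagonal, (ga x.1 : ℂ) * (if B₁ ≤ x.2 ∧ x.2 < B₂ then 1 else 0)) W f g := by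
    refine TF_congr n W f g fun m _ _ => ?_
    rw [Complex.ofReal_sum]
    refine sum_congr rfl fun x _ => ?_
    rw [Complex.ofReal_mul]
    congr 1
    split_ifs <;> simp
  rw [h2]
  exact h

end Pool.Agent.H81E
end

-- from Lib.H81W.Defs
section

/-!
# H81W (MP_443e5f, candidate T, module B, helper3's short proof), definitions and facts for steps 3 and 4

All functions live on `Icc (1:ℤ) n`.
-/

open Finset

namespace Pool.Agent.Lib.H81W

open Pool.Agent.H44W (ee TF cut)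

/-- The multiplicative derivative. -/
noncomputable def Gd (g : ℤ → ℂ) (d y : ℤ) : ℂ := g y * (starRingEnd ℂ) (g (y + d))

/-- The sum of `u` over one residue class. -/
noncomputable def Sr (n m : ℕ) (u : ℤ → ℂ) (r : ℤ) : ℂ := ∑ y ∈ (Icc (1 : ℤ) n).filter (fun y => y % m = r), u y

/-- The energy of `u` modulo `m`. -/
noncomputable def En (n m : ℕ) (u : ℤ → ℂ) : ℝ := ∑ r ∈ Ico (0 : ℤ) m, ‖Sr n m u r‖ ^ 2

/-- `m`-periodic functions. -/
def Per (m : ℕ) (p : ℤ → ℂ) : Prop := ∀ y z : ℤ, (m : ℤ) ∣ y - z → p y = p z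

theorem En_nonneg (n m : ℕ) (u : ℤ → ℂ) : 0 ≤ En n m u := sum_nonneg fun _ _ => by positivity

theorem norm_Gd_le {g : ℤ → ℂ} (hg : ∀ x, ‖g x‖ ≤ 1) (d y : ℤ) : ‖Gd g d y‖ ≤ 1 := by
  unfold Gd
  rw [norm_mul, RCLike.norm_conj]
  exact mul_le_one₀ (hg _) (norm_nonneg _) (hg _)

theorem sum_eq_sum_Sr (n m : ℕ) (hm : 0 < m) (u p : ℤ → ℂ) (hp : Per m p) :
    ∑ y ∈ Icc (1 : ℤ) n, u y * p y = ∑ r ∈ Ico (0 : ℤ) m, Sr n m u r * p r := by
  have hm0 : (0 : ℤ) < m := by exact_mod_cast hm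
  have hmaps : ∀ y ∈ Icc (1 : ℤ) n, y % m ∈ Ico (0 : ℤ) m := fun y _ => mem_Ico.2 ⟨Int.emod_nonneg _ hm0.ne', Int.emod_lt_of_pos _ hm0⟩
  rw [← sum_fiberwise_of_maps_to hmaps]
  refine sum_congr rfl fun r _ => ?_
  unfold Sr
  rw [sum_mul]
  refine sum_congr rfl fun y hy => ?_
  rw [mem_filter] at hy
  rw [hp y r]
  rw [← hy.2]
  exact Int.dvd_self_sub_emod

/-- (PC) -/
theorem PC (n m : ℕ) (hm : 0 < m) (u p : ℤ → ℂ) (hp : Per m p) (hp1 : ∀ y, ‖p y‖ ≤ 1) :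
    ‖∑ y ∈ Icc (1 : ℤ) n, u y * p y‖ ^ 2 ≤ m * En n m u := by
  rw [sum_eq_sum_Sr n m hm u p hp]
  have h1 : ‖∑ r ∈ Ico (0 : ℤ) m, Sr n m u r * p r‖ ≤ ∑ r ∈ Ico (0 : ℤ) m, 1 * ‖Sr n m u r‖ := by
    refine (norm_sum_le _ _).trans (sum_le_sum fun r _ => ?_)
    rw [norm_mul, one_mul]
    exact mul_le_of_le_one_right (norm_nonneg _) (hp1 r)
  have h2 := sum_mul_sq_le_sq_mul_sq (Ico (0 : ℤ) m) (fun _ => (1 : ℝ)) (fun r => ‖Sr n m u r‖)
  calc ‖∑ r ∈ Ico (0 : ℤ) m, Sr n m u r * p r‖ ^ 2 ≤ (∑ r ∈ Ico (0 : ℤ) m, 1 * ‖Sr n m u r‖) ^ 2 := pow_le_pow_left₀ (norm_nonneg _) h1 2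
    _ ≤ _ := h2
    _ = m * En n m u := by
      unfold En
      simp

/-- The number of elements of a residue class. -/
theorem card_res (n m : ℕ) (hm : 0 < m) (hmn : m ≤ n) (r : ℤ) : (((Icc (1 : ℤ) n).filter (fun y => y % m = r)).card : ℝ) ≤ 2 * n / m := by
  have hm0 : (0 : ℤ) < m := by exact_mod_cast hm
  have hmr : (0 : ℝ) < m := by exact_mod_cast hm
  have h1 : ((Icc (1 : ℤ) n).filter (fun y => y % m = r)).card ≤ (Icc (0 : ℤ) (n / m : ℤ)).card := by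
    refine card_le_card_of_injOn (fun y => y / m) ?_ ?_
    · intro y hy
      rw [mem_coe, mem_filter, mem_Icc] at hy
      rw [mem_coe, mem_Icc]
      exact ⟨Int.ediv_nonneg (by omega) hm0.le, Int.ediv_le_ediv hm0 hy.1.2⟩
    · intro y hy z hz h
      rw [mem_coe, mem_filter] at hy hz
      have h2 := Int.mul_ediv_add_emod y m
      have h3 := Int.mul_ediv_add_emod z m
      simp only at h
      rw [← h2, ← h3, h, hy.2, hz.2]
  have h2 : ((Icc (0 : ℤ) (n / m : ℤ)).card : ℝ) ≤ (n : ℝ) / m + 1 := by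
    rw [Int.card_Icc]
    have h3 : ((n : ℤ) / m + 1 - 0).toNat = n / m + 1 := by
      rw [sub_zero]
      have : ((n : ℤ) / m + 1) = ((n / m + 1 : ℕ) : ℤ) := by push_cast; rfl
      rw [this, Int.toNat_natCast]
    rw [h3]
    push_cast
    have := @Nat.cast_div_le ℝ _ _ _ n m
    linarith
  have h3 : (1 : ℝ) ≤ (n : ℝ) / m := by
    rw [le_div_iff₀ hmr, one_mul]
    exact_mod_cast hmn
  calc (((Icc (1 : ℤ) n).filter (fun y => y % m = r)).card : ℝ) ≤ ((Icc (0 : ℤ) (n / m : ℤ)).card : ℝ) := by exact_mod_cast h1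
    _ ≤ (n : ℝ) / m + 1 := h2
    _ ≤ (n : ℝ) / m + (n : ℝ) / m := by linarith
    _ = 2 * n / m := by ring

theorem norm_Sr_le (n m : ℕ) (hm : 0 < m) (hmn : m ≤ n) (u : ℤ → ℂ) (hu : ∀ y, ‖u y‖ ≤ 1) (r : ℤ) : ‖Sr n m u r‖ ≤ 2 * n / m := by
  unfold Sr
  refine (norm_sum_le _ _).trans ?_
  refine (sum_le_card_nsmul _ _ 1 fun y _ => hu y).trans ?_
  rw [nsmul_eq_mul, mul_one]
  exact card_res n m hm hmn r

theorem En_le (n m : ℕ) (hm : 0 < m) (hmn : m ≤ n) (u : ℤ → ℂ) (hu : ∀ y, ‖u y‖ ≤ 1) : En n m u ≤ 4 * n ^ 2 / m := by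
  have hmr : (0 : ℝ) < m := by exact_mod_cast hm
  unfold En
  refine (sum_le_card_nsmul _ _ ((2 * n / m : ℝ) ^ 2) fun r _ => pow_le_pow_left₀ (norm_nonneg _) (norm_Sr_le n m hm hmn u hu r) 2).trans ?_
  rw [nsmul_eq_mul, Int.card_Ico, sub_zero, Int.toNat_natCast]
  apply le_of_eq
  field_simp
  ring

/-- (PX) -/
theorem PX (n m : ℕ) (hm : 0 < m) (hmn : m ≤ n) (u : ℤ → ℂ) (hu : ∀ y, ‖u y‖ ≤ 1) :
    ∃ p : ℤ → ℂ, Per m p ∧ (∀ y, ‖p y‖ ≤ 1) ∧ ∑ y ∈ Icc (1 : ℤ) n, u y * p y = ((m / (2 * n) * En n m u : ℝ) : ℂ) := by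
  have hmr : (0 : ℝ) < m := by exact_mod_cast hm
  have hnr : (0 : ℝ) < n := by exact_mod_cast (by omega : 0 < n)
  have hper : Per m (fun y => ((m / (2 * n) : ℝ) : ℂ) * (starRingEnd ℂ) (Sr n m u (y % m))) := by
    intro y z h
    have h1 : y % m = z % m := Int.emod_eq_emod_iff_emod_sub_eq_zero.2 (Int.emod_eq_zero_of_dvd h)
    dsimp only
    rw [h1]
  refine ⟨_, hper, ?_, ?_⟩
  · intro y
    rw [norm_mul, RCLike.norm_conj, Complex.norm_real, Real.norm_eq_abs, abs_of_nonneg (by positivity)]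
    calc (m : ℝ) / (2 * n) * ‖Sr n m u (y % m)‖ ≤ (m : ℝ) / (2 * n) * (2 * n / m) := mul_le_mul_of_nonneg_left (norm_Sr_le n m hm hmn u hu _) (by positivity)
      _ = 1 := by field_simp
  · rw [sum_eq_sum_Sr n m hm u _ hper]
    unfold En
    rw [mul_sum, Complex.ofReal_sum]
    refine sum_congr rfl fun r hr => ?_
    rw [mem_Ico] at hr
    rw [Int.emod_eq_of_lt hr.1 hr.2]
    rw [Complex.ofReal_mul, Complex.ofReal_pow, ← Complex.mul_conj']
    ring

end Pool.Agent.Lib.H81W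
end
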