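import Mathlib

/-! Merged copies (to shorten the build) of Lib.SZW.D0, Lib.SZW.A1, Lib.SZW.A2, Lib.SZW.A3, Lib.SZW.A4, Lib.SZW.A5, Lib.SZW.A6, Lib.H21T.Defs, Lib.H33N.AD, Lib.H33N.SD, Lib.H33N.S1, Lib.H24P.T4, Lib.H81A.Defs, Lib.H81A.BD, Lib.H81A.SU, Lib.H81A.GR. -/

-- from Lib.SZW.D0
section

/-!
# Weyl sums over a commutative ring with a finite basis over the integers: definitions

`R` is a commutative ring with a `ℤ`-basis `b : Basis ι ℤ R`, `ι` finite, `d = card ι`. For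
`x : ι → ℤ` let `E b x = ∑ x i • b i`. Boxes are products of intervals `a i ≤ x i < c i`. The phases
are values of additive maps `θ : R →+ ℝ`, modulo `1`; `nn t` is the distance from `t` to the nearest
integer, `ee t = exp (2 π i t)`.
-/

set_option autoImplicit false

namespace Pool.Agent.SZW

/-- `exp (2 π i t)` -/
noncomputable def ee (t : ℝ) : ℂ := Complex.exp (2 * Real.pi * t * Complex.I)

/-- the distance from `t` to the nearest integer -/
noncomputable def nn (t : ℝ) : ℝ := |t - round t|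

variable {ι : Type*} [Fintype ι] [DecidableEq ι]

/-- the box `a i ≤ x i < c i` -/
noncomputable def box (a c : ι → ℤ) : Finset (ι → ℤ) := Fintype.piFinset fun i => Finset.Ico (a i) (c i)

/-- the sides of the box are at most `P` -/
def Side (a c : ι → ℤ) (P : ℕ) : Prop := ∀ i, c i - a i ≤ P

/-- the element with coordinates `x` -/
noncomputable def E {R : Type*} [CommRing R] (b : Module.Basis ι ℤ R) (x : ι → ℤ) : R := ∑ i, x i • b i

/-- the value of the affine form with coefficients `γ` and constant term `γ₀` -/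
def aff (γ : ι → ℝ) (γ₀ : ℝ) (x : ι → ℤ) : ℝ := ∑ i, (x i : ℝ) * γ i + γ₀

/-- the exponential sum with phase `φ` over a box -/
noncomputable def sm (a c : ι → ℤ) (φ : (ι → ℤ) → ℝ) : ℂ := ∑ x ∈ box a c, ee (φ x)

end Pool.Agent.SZW
end

-- from Lib.SZW.A1
section

/-!
# A1 (S): the distance to the nearest integer
-/

set_option autoImplicit false

namespace Pool.Agent.SZW

theorem nn_nonneg (t : ℝ) : 0 ≤ nn t := abs_nonneg _

theorem nn_le_half (t : ℝ) : nn t ≤ 1 / 2 := abs_sub_round t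

/-- `round_le` -/
theorem nn_le (t : ℝ) (k : ℤ) : nn t ≤ |t - k| := round_le t k

theorem nn_neg (t : ℝ) : nn (-t) = nn t := by
  have h1 : ∀ t : ℝ, nn (-t) ≤ nn t := by
    intro t
    have h2 := nn_le (-t) (-round t)
    have h3 : (-t) - ((-round t : ℤ) : ℝ) = -(t - (round t : ℝ)) := by push_cast; ring
    rw [h3, abs_neg] at h2
    exact h2
  refine le_antisymm (h1 t) ?_
  have h4 := h1 (-t)
  rwa [neg_neg] at h4

theorem nn_add (s t : ℝ) : nn (s + t) ≤ nn s + nn t := by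
  have h2 := nn_le (s + t) (round s + round t)
  have h3 : (s + t) - ((round s + round t : ℤ) : ℝ) = (s - (round s : ℝ)) + (t - (round t : ℝ)) := by push_cast; ring
  rw [h3] at h2
  exact h2.trans (abs_add_le _ _)

theorem nn_sub (s t : ℝ) : nn (s - t) ≤ nn s + nn t := by
  have h := nn_add s (-t)
  rwa [nn_neg, ← sub_eq_add_neg] at h

theorem nn_int_add (t : ℝ) (k : ℤ) : nn (t + k) = nn t := by
  unfold nn
  rw [round_add_intCast]
  congr 1
  push_cast
  ring

theorem a1_small {s : ℝ} (hs : |s| ≤ 1 / 2) : nn s = |s| := by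
  refine le_antisymm ?_ ?_
  · have h3 := nn_le s 0
    rwa [Int.cast_zero, sub_zero] at h3
  · by_cases h0 : round s = 0
    · unfold nn
      rw [h0, Int.cast_zero, sub_zero]
    · have h1 : (1 : ℝ) ≤ |(round s : ℝ)| := by
        have h2 : (1 : ℤ) ≤ |round s| := Int.one_le_abs h0
        have h3 : ((1 : ℤ) : ℝ) ≤ ((|round s| : ℤ) : ℝ) := by exact_mod_cast h2
        rwa [Int.cast_one, Int.cast_abs] at h3
      have h4 : |(round s : ℝ)| ≤ |s| + |s - (round s : ℝ)| := by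
        have h5 := abs_sub_abs_le_abs_sub (round s : ℝ) s
        rw [abs_sub_comm (round s : ℝ) s] at h5
        linarith
      unfold nn
      linarith

/-- multiples: for `k * nn t ≤ 1 / 2` the distance is multiplied exactly -/
theorem nn_mul (t : ℝ) (k : ℕ) (h : k * nn t ≤ 1 / 2) : nn (k * t) = k * nn t := by
  have h1 : (k : ℝ) * t = (k : ℝ) * (t - (round t : ℝ)) + (((k : ℤ) * round t : ℤ) : ℝ) := by push_cast; ring
  have h2 : |(k : ℝ) * (t - (round t : ℝ))| = (k : ℝ) * nn t := by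
    rw [abs_mul, Nat.abs_cast]
    rfl
  rw [h1, nn_int_add, ← h2]
  exact a1_small (by rw [h2]; exact h)


end Pool.Agent.SZW
end

-- from Lib.SZW.A2
section

/-!
# A2 (S/M): the exponential function and geometric sums
-/

set_option autoImplicit false

namespace Pool.Agent.SZW

theorem ee_add (s t : ℝ) : ee (s + t) = ee s * ee t := by
  unfold ee
  rw [← Complex.exp_add]
  congr 1
  push_cast
  ring

theorem ee_zero : ee 0 = 1 := by
  unfold ee
  simp

theorem norm_ee (t : ℝ) : ‖ee t‖ = 1 := by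
  unfold ee
  have h : 2 * (Real.pi : ℂ) * (t : ℂ) * Complex.I = ((2 * Real.pi * t : ℝ) : ℂ) * Complex.I := by
    push_cast
    ring
  rw [h, Complex.norm_exp_ofReal_mul_I]

theorem ee_int (k : ℤ) : ee k = 1 := by
  unfold ee
  have h : 2 * (Real.pi : ℂ) * ((k : ℝ) : ℂ) * Complex.I = k * (2 * Real.pi * Complex.I) := by
    push_cast
    ring
  rw [h, Complex.exp_int_mul_two_pi_mul_I]

/-- complex conjugation -/
theorem conj_ee (t : ℝ) : (starRingEnd ℂ) (ee t) = ee (-t) := by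
  unfold ee
  rw [← Complex.exp_conj]
  congr 1
  have h2 : (starRingEnd ℂ) 2 = 2 := Complex.conj_ofNat 2
  rw [map_mul, map_mul, map_mul, h2, Complex.conj_ofReal, Complex.conj_ofReal, Complex.conj_I]
  push_cast
  ring

theorem ee_sum {κ : Type*} (s : Finset κ) (f : κ → ℝ) : ee (∑ i ∈ s, f i) = ∏ i ∈ s, ee (f i) := by
  classical
  induction s using Finset.induction_on with
  | empty => simp [ee_zero]
  | insert a s ha ih => rw [Finset.sum_insert ha, Finset.prod_insert ha, ee_add, ih]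

/-- `‖1 - ee t‖ = 2 |sin (π t)| ≥ 4 nn t` (Jordan's inequality `Real.mul_le_sin`) -/
theorem norm_one_sub_ee (t : ℝ) : 4 * nn t ≤ ‖1 - ee t‖ := by
  have h1 : ee t = ee (t - round t) := by
    have h2 : t = (t - round t) + ((round t : ℤ) : ℝ) := by ring
    conv_lhs => rw [h2]
    rw [ee_add, ee_int, mul_one]
  have h3 : |t - round t| ≤ 1 / 2 := abs_sub_round t
  rw [h1]
  unfold nn
  set s := t - round t with hs
  have h4 : ‖1 - ee s‖ = ‖2 * Real.sin (Real.pi * s)‖ := by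
    rw [norm_sub_rev]
    have h5 := Complex.norm_exp_I_mul_ofReal_sub_one (2 * Real.pi * s)
    have h6 : 2 * Real.pi * s / 2 = Real.pi * s := by ring
    rw [h6] at h5
    rw [← h5]
    unfold ee
    congr 3
    push_cast
    ring
  rw [h4, Real.norm_eq_abs, abs_mul, abs_two]
  have h7 : |Real.sin (Real.pi * s)| = |Real.sin (Real.pi * |s|)| := by
    rcases le_or_gt 0 s with h | h
    · rw [abs_of_nonneg h]
    · rw [abs_of_neg h, mul_neg, Real.sin_neg, abs_neg]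
  have h8 : 2 / Real.pi * (Real.pi * |s|) ≤ Real.sin (Real.pi * |s|) := by
    refine Real.mul_le_sin (by positivity) ?_
    have := Real.pi_pos
    nlinarith
  have h9 : 2 / Real.pi * (Real.pi * |s|) = 2 * |s| := by
    field_simp
  rw [h9] at h8
  rw [h7]
  have h10 := le_abs_self (Real.sin (Real.pi * |s|))
  linarith

/-- Geometric sums: `S (1 - ee t) = ee (a t) - ee (c t)`. -/
theorem geom_bound (a c : ℤ) (t : ℝ) : ‖∑ n ∈ Finset.Ico a c, ee (n * t)‖ * (2 * nn t) ≤ 1 := by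
  have key : ∀ k : ℕ, (∑ n ∈ Finset.Ico a (a + k), ee (n * t)) * (1 - ee t) =
      ee (a * t) - ee ((a + k : ℝ) * t) := by
    intro k
    induction k with
    | zero => simp
    | succ k ih =>
      have h1 : Finset.Ico a (a + ((k + 1 : ℕ) : ℤ)) = insert (a + (k : ℤ)) (Finset.Ico a (a + k)) := by
        ext n
        simp only [Finset.mem_Ico, Finset.mem_insert]
        push_cast
        omega
      rw [h1, Finset.sum_insert (by simp), add_mul, ih]
      have h2 : ee ((a + ((k + 1 : ℕ) : ℝ)) * t) = ee ((a + k : ℝ) * t) * ee t := by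
        rw [← ee_add]
        congr 1
        push_cast
        ring
      rw [h2]
      push_cast
      ring
  rcases le_or_gt c a with h | h
  · rw [Finset.Ico_eq_empty (by omega), Finset.sum_empty, norm_zero, zero_mul]
    exact zero_le_one
  · obtain ⟨k, hk⟩ : ∃ k : ℕ, c = a + k := ⟨(c - a).toNat, by omega⟩
    subst hk
    have h1 := norm_one_sub_ee t
    have h2 : ‖∑ n ∈ Finset.Ico a (a + k), ee (n * t)‖ * ‖1 - ee t‖ ≤ 2 := by
      rw [← norm_mul, key k]
      refine (norm_sub_le _ _).trans ?_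
      rw [norm_ee, norm_ee]
      norm_num
    have h3 := mul_le_mul_of_nonneg_left h1 (norm_nonneg (∑ n ∈ Finset.Ico a (a + k), ee (n * t)))
    linarith

/-- trivial bound -/
theorem geom_le (a c : ℤ) (t : ℝ) (P : ℕ) (h : c - a ≤ P) :
    ‖∑ n ∈ Finset.Ico a c, ee (n * t)‖ ≤ P := by
  refine (norm_sum_le _ _).trans ?_
  have h1 : ∀ n ∈ Finset.Ico a c, ‖ee (n * t)‖ = 1 := fun n _ => norm_ee _
  rw [Finset.sum_congr rfl h1, Finset.sum_const, nsmul_eq_mul, mul_one, Int.card_Ico]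
  have h2 : (c - a).toNat ≤ P := by omega
  exact_mod_cast h2

end Pool.Agent.SZW
end

-- from Lib.SZW.A3
section

/-!
# A3 (S/M): two elements of a dense set with a small difference
-/

set_option autoImplicit false

namespace Pool.Agent.SZW

/-- Let `s = ⌊2 / ρ⌋ + 1`. If no two elements of `A` are in the same interval
`[k s, (k + 1) s)`, then `|A| ≤ N / s + 1 < ρ N / 2 + 1 ≤ ρ N`. (Pigeonhole for the map `n ↦ n / s`.) -/
theorem exists_gap {A : Finset ℕ} {N : ℕ} {ρ : ℝ} (hρ : 0 < ρ) (h2 : 2 ≤ ρ * N)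
    (hA : ∀ n ∈ A, n < N) (hc : ρ * N ≤ A.card) :
    ∃ n ∈ A, ∃ n' ∈ A, n < n' ∧ ((n' - n : ℕ) : ℝ) ≤ 2 / ρ := by
  obtain ⟨s, hs⟩ : ∃ s : ℕ, s = ⌊2 / ρ⌋₊ + 1 := ⟨_, rfl⟩
  have hs0 : 0 < s := by omega
  have hs1 : 2 / ρ < (s : ℝ) := by
    rw [hs]
    push_cast
    exact Nat.lt_floor_add_one _
  have hN : (0 : ℝ) < (N : ℝ) := by
    by_contra hcon
    have h3 : ρ * (N : ℝ) ≤ 0 := mul_nonpos_of_nonneg_of_nonpos hρ.le (not_lt.1 hcon)
    linarith
  have hmap : ∀ n ∈ A, n / s ∈ Finset.range (N / s + 1) := by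
    intro n hn
    rw [Finset.mem_range]
    have h4 : n / s ≤ N / s := Nat.div_le_div_right (hA n hn).le
    omega
  have hcard : (Finset.range (N / s + 1)).card < A.card := by
    rw [Finset.card_range]
    have h5 : ((N / s : ℕ) : ℝ) ≤ (N : ℝ) / (s : ℝ) := Nat.cast_div_le
    have hs0' : (0 : ℝ) < (s : ℝ) := by exact_mod_cast hs0
    have h6 : (N : ℝ) / (s : ℝ) < ρ * N / 2 := by
      rw [div_lt_iff₀ hs0']
      have h7 : 2 < (s : ℝ) * ρ := (div_lt_iff₀ hρ).1 hs1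
      nlinarith
    have h8 : (((N / s + 1 : ℕ) : ℕ) : ℝ) < (A.card : ℝ) := by
      push_cast
      linarith
    exact_mod_cast h8
  obtain ⟨x, hx, y, hy, hxy, hxy'⟩ := Finset.exists_ne_map_eq_of_card_lt_of_maps_to hcard hmap
  have key : ∀ x ∈ A, ∀ y ∈ A, x < y → x / s = y / s → ∃ n ∈ A, ∃ n' ∈ A, n < n' ∧ ((n' - n : ℕ) : ℝ) ≤ 2 / ρ := by
    intro x hx y hy hlt heq
    refine ⟨x, hx, y, hy, hlt, ?_⟩
    have h1 := Nat.div_add_mod x s
    have h2 := Nat.div_add_mod y s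
    have h3 := Nat.mod_lt x hs0
    have h4 := Nat.mod_lt y hs0
    rw [heq] at h1
    have h5 : y - x ≤ ⌊2 / ρ⌋₊ := by omega
    have h6 : ((y - x : ℕ) : ℝ) ≤ ((⌊2 / ρ⌋₊ : ℕ) : ℝ) := by exact_mod_cast h5
    exact h6.trans (Nat.floor_le (by positivity))
  rcases lt_or_gt_of_ne hxy with h | h
  · exact key x hx y hy h hxy'
  · exact key y hy x hx h hxy'.symm

end Pool.Agent.SZW
end

-- from Lib.SZW.A4
section

/-!
# A4 (M): elements of `A` in one window
-/

set_option autoImplicit false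

namespace Pool.Agent.SZW

/-- Let `η = nn (q α) > 0`, `w = ⌊1 / (2 η)⌋`. Elements `n < n'` of `A` with `n ≡ n' mod q` and
`n / q / w = n' / q / w` have `n' = n + t q` with `t < w`, so `t η ≤ 1 / 2`, and
`t η = nn (t q α) ≤ nn (n' α + β) + nn (n α + β) ≤ 2 ε`. So the elements of `A` with given
`n % q` and `n / q / w` are among `n₀, n₀ + q, ..., n₀ + ⌊2 ε / η⌋ q`, `n₀` the smallest of them. -/
theorem fibre_card {A : Finset ℕ} {q : ℕ} {α β ε : ℝ} (hq : 1 ≤ q) (hη : 0 < nn (q * α))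
    (hε : 0 ≤ ε) (hA : ∀ n ∈ A, nn (n * α + β) ≤ ε) (r k : ℕ) :
    ((A.filter fun n => n % q = r ∧ n / q / ⌊1 / (2 * nn (q * α))⌋₊ = k).card : ℝ) ≤
      2 * ε / nn (q * α) + 1 := by
  classical
  set η : ℝ := nn (q * α) with hηd
  set w : ℕ := ⌊1 / (2 * η)⌋₊ with hw
  set S : Finset ℕ := A.filter fun n => n % q = r ∧ n / q / w = k with hS
  have hq0 : 0 < q := hq
  have hwη : (w : ℝ) * η ≤ 1 / 2 := by
    have h1 : (w : ℝ) ≤ 1 / (2 * η) := Nat.floor_le (by positivity)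
    calc (w : ℝ) * η ≤ 1 / (2 * η) * η := mul_le_mul_of_nonneg_right h1 hη.le
      _ = 1 / 2 := by field_simp
  have hw1 : 1 ≤ w := by
    rw [hw]
    refine Nat.le_floor ?_
    rw [Nat.cast_one, le_div_iff₀ (by positivity)]
    have := nn_le_half (q * α)
    linarith
  rcases S.eq_empty_or_nonempty with h | h
  · rw [h, Finset.card_empty, Nat.cast_zero]
    positivity
  set n₀ : ℕ := S.min' h with hn₀
  have hn₀S : n₀ ∈ S := S.min'_mem h
  have hmin : ∀ n ∈ S, n₀ ≤ n := fun n hn => S.min'_le n hn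
  have hmem : ∀ n ∈ S, n ∈ A ∧ n % q = r ∧ n / q / w = k := by
    intro n hn
    rw [hS, Finset.mem_filter] at hn
    exact hn
  obtain ⟨h1, h2, h3⟩ := hmem n₀ hn₀S
  have hkey : ∀ n ∈ S, n / q - n₀ / q ∈ Finset.range (⌊2 * ε / η⌋₊ + 1) := by
    intro n hn
    obtain ⟨g1, g2, g3⟩ := hmem n hn
    have hle : n₀ / q ≤ n / q := Nat.div_le_div_right (hmin n hn)
    set t : ℕ := n / q - n₀ / q with ht
    have htw : t ≤ w := by
      have e1 := Nat.div_add_mod (n / q) w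
      have e2 := Nat.div_add_mod (n₀ / q) w
      rw [g3] at e1
      rw [h3] at e2
      have e3 := Nat.mod_lt (n / q) (by omega : w > 0)
      omega
    have hnt : (n : ℝ) = n₀ + t * q := by
      have e1 := Nat.div_add_mod n q
      have e2 := Nat.div_add_mod n₀ q
      rw [g2] at e1
      rw [h2] at e2
      have e4 : n = n₀ + t * q := by
        have e5 : n / q = n₀ / q + t := by omega
        rw [e5] at e1
        rw [← e1]
        nth_rewrite 2 [← e2]
        ring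
      exact_mod_cast e4
    have hth : (t : ℝ) * η ≤ 1 / 2 := by
      have : (t : ℝ) ≤ w := by exact_mod_cast htw
      exact (mul_le_mul_of_nonneg_right this hη.le).trans hwη
    have hmul := nn_mul (q * α) t hth
    have hsub := nn_sub (n * α + β) (n₀ * α + β)
    have e : (n : ℝ) * α + β - (n₀ * α + β) = t * (q * α) := by
      rw [hnt]
      ring
    rw [e, hmul] at hsub
    have h5 := hA n g1
    have h6 := hA n₀ h1
    have h7 : (t : ℝ) * η ≤ 2 * ε := by linarith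
    rw [Finset.mem_range]
    refine Nat.lt_succ_of_le (Nat.le_floor ?_)
    rw [le_div_iff₀ hη]
    exact h7
  have hcard : S.card ≤ ⌊2 * ε / η⌋₊ + 1 := by
    have h4 := Finset.card_le_card_of_injOn (s := S) (t := Finset.range (⌊2 * ε / η⌋₊ + 1))
      (fun n => n / q - n₀ / q) (fun n hn => hkey n hn) ?_
    · rwa [Finset.card_range] at h4
    · intro n hn n' hn' hnn
      obtain ⟨g1, g2, g3⟩ := hmem n hn
      obtain ⟨g1', g2', g3'⟩ := hmem n' hn'
      have hle : n₀ / q ≤ n / q := Nat.div_le_div_right (hmin n hn)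
      have hle' : n₀ / q ≤ n' / q := Nat.div_le_div_right (hmin n' hn')
      have e0 : n / q - n₀ / q = n' / q - n₀ / q := hnn
      have e1 := Nat.div_add_mod n q
      have e2 := Nat.div_add_mod n' q
      have e3 : n / q = n' / q := by omega
      rw [← e1, ← e2, e3, g2, g2']
  have h8 : (⌊2 * ε / η⌋₊ : ℝ) ≤ 2 * ε / η := Nat.floor_le (by positivity)
  have h9 : (S.card : ℝ) ≤ ⌊2 * ε / η⌋₊ + 1 := by exact_mod_cast hcard
  linarith

end Pool.Agent.SZW
end

-- from Lib.SZW.A5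
section

/-!
# A5 (M): the number of elements of `A`
-/

set_option autoImplicit false

namespace Pool.Agent.SZW

/-- Count `A` by the pairs `(n % q, n / q / w)`, `w = ⌊1 / (2 η)⌋ ≥ 1`: there are at most
`q ((N / q) / w + 1)` of them (`N / q`, `/ w` natural divisions), so
`|A| ≤ (2 ε / η + 1) (N / w + q) ≤ (2 ε / η + 1) (4 η N + q)`, as `1 / w ≤ 4 η` (`⌊x⌋ ≥ x / 2` for
`x ≥ 1`). -/
theorem card_bound {A : Finset ℕ} {N q : ℕ} {α β ε : ℝ} (hq : 1 ≤ q) (hη : 0 < nn (q * α))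
    (hN : ∀ n ∈ A, n < N) (hε : 0 ≤ ε) (hA : ∀ n ∈ A, nn (n * α + β) ≤ ε) :
    (A.card : ℝ) ≤ (2 * ε / nn (q * α) + 1) * (4 * nn (q * α) * N + q) := by
  classical
  set η : ℝ := nn (q * α) with hηd
  set w : ℕ := ⌊1 / (2 * η)⌋₊ with hw
  have hq0 : (0 : ℝ) < q := by exact_mod_cast hq
  have hηh : η ≤ 1 / 2 := nn_le_half (q * α)
  have hx1 : 1 ≤ 1 / (2 * η) := by
    rw [le_div_iff₀ (by positivity)]
    linarith
  have hw1 : 1 ≤ w := by
    rw [hw]
    exact Nat.le_floor (by simpa using hx1)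
  have hw1' : (1 : ℝ) ≤ w := by exact_mod_cast hw1
  have hw2 : 1 / (4 * η) ≤ w := by
    have h1 := Nat.lt_floor_add_one (1 / (2 * η))
    have h2 : 1 / (2 * η) = 2 * (1 / (4 * η)) := by
      field_simp
      ring
    rw [← hw, h2] at h1
    linarith
  have hmaps : ∀ n ∈ A, (n % q, n / q / w) ∈ Finset.range q ×ˢ Finset.range (N / q / w + 1) := by
    intro n hn
    rw [Finset.mem_product, Finset.mem_range, Finset.mem_range]
    refine ⟨Nat.mod_lt _ hq, Nat.lt_succ_of_le ?_⟩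
    exact Nat.div_le_div_right (Nat.div_le_div_right (hN n hn).le)
  have hcard := Finset.card_eq_sum_card_fiberwise (f := fun n => (n % q, n / q / w)) (s := A)
    (t := Finset.range q ×ˢ Finset.range (N / q / w + 1)) hmaps
  have hfib : ∀ p ∈ Finset.range q ×ˢ Finset.range (N / q / w + 1),
      ((A.filter fun n => (n % q, n / q / w) = p).card : ℝ) ≤ 2 * ε / η + 1 := by
    intro p _
    have h1 := fibre_card (A := A) (q := q) (α := α) (β := β) (ε := ε) hq hη hε hA p.1 p.2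
    have h2 : (A.filter fun n => (n % q, n / q / w) = p) =
        A.filter fun n => n % q = p.1 ∧ n / q / w = p.2 := by
      refine Finset.filter_congr (fun n _ => ?_)
      rw [Prod.ext_iff]
    rw [h2]
    exact h1
  have hB : 0 ≤ 2 * ε / η + 1 := by positivity
  have h3 : (A.card : ℝ) ≤ ((q * (N / q / w + 1) : ℕ) : ℝ) * (2 * ε / η + 1) := by
    rw [hcard]
    push_cast
    calc ∑ p ∈ Finset.range q ×ˢ Finset.range (N / q / w + 1),
          ((A.filter fun n => (n % q, n / q / w) = p).card : ℝ)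
        ≤ ∑ _p ∈ Finset.range q ×ˢ Finset.range (N / q / w + 1), (2 * ε / η + 1) :=
          Finset.sum_le_sum hfib
      _ = (q : ℝ) * (((N / q / w : ℕ) : ℝ) + 1) * (2 * ε / η + 1) := by
          rw [Finset.sum_const, Finset.card_product, Finset.card_range, Finset.card_range,
            nsmul_eq_mul]
          push_cast
          ring
  have h4 : ((q * (N / q / w + 1) : ℕ) : ℝ) ≤ 4 * η * N + q := by
    push_cast
    have h5 : ((N / q / w : ℕ) : ℝ) ≤ ((N / q : ℕ) : ℝ) / w := Nat.cast_div_le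
    have h6 : ((N / q : ℕ) : ℝ) ≤ (N : ℝ) / q := Nat.cast_div_le
    have h7 : ((N / q : ℕ) : ℝ) / w ≤ (N : ℝ) / q / w :=
      div_le_div_of_nonneg_right h6 (by linarith)
    have h8 : (q : ℝ) * ((N : ℝ) / q / w) = N / w := by
      field_simp
    have h9 : (N : ℝ) / w ≤ 4 * η * N := by
      rw [div_le_iff₀ (by linarith)]
      have h10 : 1 ≤ 4 * η * w := by
        rw [div_le_iff₀ (by positivity)] at hw2
        linarith
      have h11 : (0 : ℝ) ≤ N := Nat.cast_nonneg _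
      nlinarith
    have h12 : (q : ℝ) * ((N / q / w : ℕ) : ℝ) ≤ 4 * η * N := by
      calc (q : ℝ) * ((N / q / w : ℕ) : ℝ) ≤ q * ((N : ℝ) / q / w) :=
            mul_le_mul_of_nonneg_left (h5.trans h7) hq0.le
        _ = N / w := h8
        _ ≤ _ := h9
    linarith
  calc (A.card : ℝ) ≤ ((q * (N / q / w + 1) : ℕ) : ℝ) * (2 * ε / η + 1) := h3
    _ ≤ (4 * η * N + q) * (2 * ε / η + 1) := mul_le_mul_of_nonneg_right h4 hB
    _ = (2 * ε / η + 1) * (4 * η * N + q) := by ring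

end Pool.Agent.SZW
end

-- from Lib.SZW.A6
section

/-!
# A6 (M): the one-dimensional recurrence lemma
-/

set_option autoImplicit false

namespace Pool.Agent.SZW

/-- Take `n < n'` in `A` with `q = n' - n ≤ 2 / ρ` (`exists_gap`). Then `η = nn (q α_j) ≤ 2 ε` for all
`j` (`nn_sub`). If `η > 0`, `card_bound` gives
`ρ N ≤ (2 ε / η + 1) (4 η N + q) = 8 ε N + 4 η N + 2 ε q / η + q ≤ 16 ε N + q + 2 ε q / η`, where
`16 ε N ≤ ρ N / 2` and `q ≤ 2 / ρ ≤ ρ N / 4`; so `ρ N / 4 ≤ 2 ε q / η` and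
`η ≤ 8 ε q / (ρ N) ≤ 16 ε / (ρ ^ 2 N)`. -/
theorem recurrence {κ : Type*} {A : Finset ℕ} {N : ℕ} {ρ ε : ℝ} {α β : κ → ℝ} (hρ : 0 < ρ)
    (hρ1 : ρ ≤ 1) (hN : 8 / ρ ^ 2 ≤ N) (hε : 0 ≤ ε) (hε' : 32 * ε ≤ ρ) (hA : ∀ n ∈ A, n < N)
    (hc : ρ * N ≤ A.card) (h : ∀ n ∈ A, ∀ j, nn (n * α j + β j) ≤ ε) :
    ∃ q : ℕ, 1 ≤ q ∧ (q : ℝ) ≤ 2 / ρ ∧ ∀ j, nn (q * α j) ≤ 16 * ε / (ρ ^ 2 * N) := by
  have hN0 : (0 : ℝ) < N := lt_of_lt_of_le (by positivity) hN
  have hN1 : 8 ≤ N * ρ ^ 2 := by rwa [div_le_iff₀ (by positivity)] at hN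
  have hN2 : 8 ≤ ρ * N := by nlinarith [mul_pos hρ hN0]
  obtain ⟨n, hn, n', hn', hlt, hq⟩ := exists_gap hρ (by linarith) hA hc
  refine ⟨n' - n, by omega, hq, ?_⟩
  intro j
  set q : ℕ := n' - n with hqd
  have hqc : (q : ℝ) = n' - n := by
    rw [hqd, Nat.cast_sub hlt.le]
  have hη2 : nn (q * α j) ≤ 2 * ε := by
    have h1 := nn_sub (n' * α j + β j) (n * α j + β j)
    have h2 : (n' * α j + β j) - (n * α j + β j) = q * α j := by
      rw [hqc]
      ring
    rw [h2] at h1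
    have h3 := h n' hn' j
    have h4 := h n hn j
    linarith
  rcases (nn_nonneg (q * α j)).eq_or_lt with h0 | h0
  · rw [← h0]
    positivity
  · have hq1 : 1 ≤ q := by omega
    have hq0 : (0 : ℝ) < q := by exact_mod_cast hq1
    have hcb := card_bound hq1 h0 hA hε (fun n hn => h n hn j)
    set η : ℝ := nn (q * α j) with hη
    have h1 : ρ * N ≤ (2 * ε / η + 1) * (4 * η * N + q) := hc.trans hcb
    have h2 : (2 * ε / η + 1) * (4 * η * N + q) = 8 * ε * N + 4 * η * N + 2 * ε * q / η + q := by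
      field_simp
      ring
    rw [h2] at h1
    have h3 : 4 * η * N ≤ 8 * ε * N := by nlinarith
    have h4 : 16 * ε * N ≤ ρ * N / 2 := by nlinarith
    have h5 : (q : ℝ) ≤ ρ * N / 4 := by
      refine hq.trans ?_
      rw [div_le_iff₀ hρ]
      nlinarith
    have h6 : ρ * N / 4 ≤ 2 * ε * q / η := by linarith
    rw [le_div_iff₀ h0] at h6
    rw [le_div_iff₀ (by positivity)]
    have h7 : (q : ℝ) * ρ ≤ 2 := by rwa [le_div_iff₀ hρ] at hq
    have h8 : η * (ρ * N) ≤ 8 * ε * q := by linarith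
    have h9 : ρ * (η * (ρ * N)) ≤ ρ * (8 * ε * q) := mul_le_mul_of_nonneg_left h8 hρ.le
    have h10 : 8 * ε * (q * ρ) ≤ 8 * ε * 2 := mul_le_mul_of_nonneg_left h7 (by positivity)
    calc η * (ρ ^ 2 * N) = ρ * (η * (ρ * N)) := by ring
      _ ≤ ρ * (8 * ε * q) := h9
      _ = 8 * ε * (q * ρ) := by ring
      _ ≤ 8 * ε * 2 := h10
      _ = 16 * ε := by ring

end Pool.Agent.SZW
end

-- from Lib.H21T.Defs
section

/-!
# H21T (MP_443e5f, candidate T, module D, parts D3 + D4): exponential sums over pieces of the divisor function in intervals of length about the square root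

`ee x = exp (2 π i x)` and `nn x = |x - round x|` are those of `Lib/SZW/D0.lean` (lemmas `nn_le`, `nn_add`, `nn_sub`, `nn_int_add`, `nn_mul_le`
in `SZW/A1`, `ee_add`, `norm_ee`, `ee_int`, `norm_one_sub_ee`, `geom_bound` in `SZW/A2`, Vinogradov's lemma `recurrence` in `SZW/A6`).

* `dbox A1 A2 B1 B2 m`: number of pairs `A1 ≤ a < A2`, `B1 ≤ b < B2` with `a b = m`.
* `lbox`: logarithmic length of the interval of the possible `a` (`m / B2 < a ≤ m / B1`, `A1 ≤ a < A2`).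
* `lam Q d = ∑_{r ≤ Q / d} μ(r) / r`, `gQ Q m = ∑_{d ∣ m, d ≤ Q} lam Q d`, `Mbox Q A1 A2 B1 B2 m = lbox m * gQ Q m`.
* `Rg A1 A2 x H`: the pairs `(a, b)` with `A1 ≤ a < A2`, `x ≤ a b < x + H`; `SR α` the sum of `ee (α a b)` over it.
* `Geo A x X S Λ`: the conditions on the parameters: `A` size of `a`, `x` position of the interval, `x ≤ X A²`, `S` bound of the
  directions, `Λ` (about `A³ / (2 x S²)`) length of the pieces of the range of `a`.
* `Dir A1 Λ x S n s t`: for `i < n` the direction `(s i, t i)` of the `i`-th piece: `|s ρ - t| ≤ 1 / S`, `ρ = x / (A1 + i Λ)²`.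
-/

namespace Pool.Agent.Lib.H21T

open Finset Pool.Agent.SZW

/-- the number of pairs `A1 ≤ a < A2`, `B1 ≤ b < B2` with `a b = m` -/
def dbox (A1 A2 B1 B2 m : ℕ) : ℕ := (((Ico A1 A2) ×ˢ (Ico B1 B2)).filter fun p => p.1 * p.2 = m).card

/-- the logarithmic length of the range of `a` -/
noncomputable def lbox (A1 A2 B1 B2 m : ℕ) : ℝ :=
  max 0 (min (Real.log A2) (Real.log m - Real.log B1) - max (Real.log A1) (Real.log m - Real.log B2))

/-- `∑_{r ≤ Q / d} μ(r) / r` -/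
noncomputable def lam (Q d : ℕ) : ℝ := ∑ r ∈ Icc 1 (Q / d), (ArithmeticFunction.moebius r : ℝ) / r

/-- `∑_{d ∣ m, d ≤ Q} lam Q d` -/
noncomputable def gQ (Q m : ℕ) : ℝ := ∑ d ∈ (Icc 1 Q).filter (fun d => d ∣ m), lam Q d

/-- the model of `dbox` -/
noncomputable def Mbox (Q A1 A2 B1 B2 m : ℕ) : ℝ := lbox A1 A2 B1 B2 m * gQ Q m

/-- the pairs `(a, b)` with `A1 ≤ a < A2`, `x ≤ a b < x + H` (used for `1 ≤ A1`, `1 ≤ x`) -/
def Rg (A1 A2 x H : ℕ) : Finset (ℕ × ℕ) :=
  ((Ico A1 A2) ×ˢ (range (x + H))).filter fun p => x ≤ p.1 * p.2 ∧ p.1 * p.2 < x + H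

/-- the exponential sum over `Rg` -/
noncomputable def SR (α : ℝ) (A1 A2 x H : ℕ) : ℂ := ∑ p ∈ Rg A1 A2 x H, ee (α * ((p.1 : ℝ) * p.2))

/-- conditions on the parameters -/
structure Geo (A x X S Λ : ℕ) : Prop where
  hA : 1 ≤ A
  hX1 : 1 ≤ X
  hS : 1 ≤ S
  hΛ : 1 ≤ Λ
  hx : A ^ 2 ≤ 2 * x
  hX : x ≤ X * A ^ 2
  hup : 2 * x * Λ * S ^ 2 ≤ A ^ 3
  hlo : A ^ 3 ≤ 4 * x * Λ * S ^ 2

/-- left end of the `i`-th piece -/
def pa (A1 Λ i : ℕ) : ℕ := A1 + i * Λ

/-- right end of the `i`-th piece -/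
def pb (A1 A2 Λ i : ℕ) : ℕ := min A2 (A1 + (i + 1) * Λ)

/-- number of pieces -/
def nJ (A1 A2 Λ : ℕ) : ℕ := (A2 - A1) / Λ + 1

/-- the direction `(s, t)` is good for the point `a` -/
def Ap (x S a s t : ℕ) : Prop := |(s : ℝ) * (x / (a : ℝ) ^ 2) - t| ≤ 1 / S

/-- directions of the first `n` pieces -/
structure Dir (A1 Λ x S n : ℕ) (s t : ℕ → ℕ) : Prop where
  s1 : ∀ i < n, 1 ≤ s i
  sS : ∀ i < n, s i ≤ S
  co : ∀ i < n, Nat.Coprime (s i) (t i)
  ap : ∀ i < n, Ap x S (pa A1 Λ i) (s i) (t i)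

/-- `⌈y⌉ - y` -/
noncomputable def Fr (y : ℝ) : ℝ := (⌈y⌉ : ℝ) - y

/-- `(x / a - r) / q` -/
noncomputable def yv (x q r a : ℕ) : ℝ := ((x : ℝ) / a - r) / q

/-- `α` is close to a rational with small denominator; `u` is `N ^ (1 / 20000)` -/
def Maj (u α : ℝ) : Prop := ∃ q : ℕ, 1 ≤ q ∧ (q : ℝ) ≤ u ^ 131 ∧ nn (q * α) * u ^ 9754 ≤ 1

/-- the number of pairs of `Rg` in the residue classes `r1`, `r2` modulo `q` -/
def cnt (A1 A2 x H q r1 r2 : ℕ) : ℕ := ((Rg A1 A2 x H).filter fun p => p.1 % q = r1 ∧ p.2 % q = r2).card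

/-- `Rg` as a set of pairs of integers -/
def RZ (A1 A2 x H : ℕ) : Finset (ℤ × ℤ) := (Rg A1 A2 x H).image fun p => ((p.1 : ℤ), (p.2 : ℤ))

theorem mem_Rg {A1 A2 x H : ℕ} (hA : 1 ≤ A1) {p : ℕ × ℕ} :
    p ∈ Rg A1 A2 x H ↔ A1 ≤ p.1 ∧ p.1 < A2 ∧ x ≤ p.1 * p.2 ∧ p.1 * p.2 < x + H := by
  unfold Rg
  rw [mem_filter, mem_product, mem_Ico, mem_range]
  constructor
  · rintro ⟨⟨⟨h1, h2⟩, _⟩, h4, h5⟩
    exact ⟨h1, h2, h4, h5⟩
  · rintro ⟨h1, h2, h3, h4⟩
    exact ⟨⟨⟨h1, h2⟩, lt_of_le_of_lt (Nat.le_mul_of_pos_left _ (by omega)) h4⟩, h3, h4⟩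

theorem mem_RZ {A1 A2 x H : ℕ} (hA : 1 ≤ A1) (hx : 1 ≤ x) {p : ℤ × ℤ} :
    p ∈ RZ A1 A2 x H ↔ (A1 : ℤ) ≤ p.1 ∧ p.1 < A2 ∧ (x : ℤ) ≤ p.1 * p.2 ∧ p.1 * p.2 < x + H := by
  unfold RZ
  rw [mem_image]
  constructor
  · rintro ⟨r, hr, rfl⟩
    obtain ⟨h1, h2, h3, h4⟩ := (mem_Rg hA).1 hr
    simp only
    exact ⟨by exact_mod_cast h1, by exact_mod_cast h2, by exact_mod_cast h3, by exact_mod_cast h4⟩
  · rintro ⟨h1, h2, h3, h4⟩
    have h5 : 0 < p.1 := by omega
    have h6 : 0 < p.2 := by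
      by_contra hcon
      have h7 : p.1 * p.2 ≤ 0 := mul_nonpos_of_nonneg_of_nonpos h5.le (not_lt.1 hcon)
      omega
    obtain ⟨a, ha⟩ := Int.eq_ofNat_of_zero_le h5.le
    obtain ⟨b, hb⟩ := Int.eq_ofNat_of_zero_le h6.le
    refine ⟨(a, b), (mem_Rg hA).2 ⟨?_, ?_, ?_, ?_⟩, ?_⟩
    · rw [ha] at h1; exact_mod_cast h1
    · rw [ha] at h2; exact_mod_cast h2
    · rw [ha, hb] at h3; exact_mod_cast h3
    · rw [ha, hb] at h4; exact_mod_cast h4
    · exact Prod.ext ha.symm hb.symm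

end Pool.Agent.Lib.H21T
end

-- from Lib.H33N.AD
section

/-!
# H33N, module A: definitions (pure algebra; see PROOF.md section 3)
-/

namespace Pool.Agent.Lib.H33N

noncomputable section






/-- `n (n - 1) / 2 = 0 + 1 + ... + (n - 1)`. -/
def tri (n : ℕ) : ℕ := ∑ i : Fin n, (i : ℕ)

/-- Chains `l 0 ∣ l 1 ∣ ...` of positive integers prime to `N`. -/
def IsCh (n N : ℕ) (l : Fin n → ℕ) : Prop :=
  (∀ i, 0 < l i) ∧ (∀ i, (l i).Coprime N) ∧ ∀ i j : Fin n, i ≤ j → l i ∣ l j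

open scoped Classical in
/-- The multiplicative strips: `∏ e i = r`, `e i * l i ∣ l (i + 1)`. -/
def strips (n r : ℕ) (l : Fin n → ℕ) : Finset (Fin n → ℕ) :=
  (Fintype.piFinset fun _ : Fin n => r.divisors).filter fun e =>
    ∏ i, e i = r ∧ ∀ i j : Fin n, (i : ℕ) + 1 = j → e i * l i ∣ l j

/-- The (multiplicative) Pieri rule `(PI)`. -/
def PI (n N : ℕ) (L : ℕ → ℂ) (V : (Fin n → ℕ) → ℂ) : Prop :=
  ∀ r, 0 < r → r.Coprime N → ∀ l, IsCh n N l → L r * V l = ∑ e ∈ strips n r l, V (e * l)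

open scoped Classical in
/-- The tuples with product `M`. -/
def facs (n M : ℕ) : Finset (Fin n → ℕ) :=
  (Fintype.piFinset fun _ : Fin n => M.divisors).filter fun r => ∏ i, r i = M

/-- `∑_{∏ r i = M} ∏ |L (r i)|`. -/
def Bd (n : ℕ) (L : ℕ → ℂ) (M : ℕ) : ℝ := ∑ r ∈ facs n M, ∏ i, ‖L (r i)‖

end

end Pool.Agent.Lib.H33N
end

-- from Lib.H33N.SD
section

/-!
# H33N, module S: definitions (pure arithmetic; see PROOF.md section 3)
-/

namespace Pool.Agent.Lib.H33N

noncomputable section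

/-- The hypotheses on the coefficients: `A 1 = 1`, the Pieri rule, and the behaviour under scalars. -/
structure Sys (n N : ℕ) (L : ℕ → ℂ) (A : (Fin n → ℕ) → ℂ) : Prop where
  one : A 1 = 1
  pi : PI n N L A
  sc : ∀ e, 0 < e → e.Coprime N → ∀ l, IsCh n N l → ‖A (fun i => e * l i)‖ = (e : ℝ) ^ tri n * ‖A l‖

/-- `|A l|² |l| ^ (-(n-1) - s)`, `|l| = ∏ l i`. -/
def wA (n : ℕ) (A : (Fin n → ℕ) → ℂ) (s : ℝ) (l : Fin n → ℕ) : ENNReal :=
  ENNReal.ofReal (‖A l‖ ^ 2 * ((∏ i, l i : ℕ) : ℝ) ^ (-((n : ℝ) - 1) - s))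



open scoped Classical in
/-- The sum over the chains with `l 0 = 1`. -/
def DD (n N : ℕ) (A : (Fin n → ℕ) → ℂ) (s : ℝ) : ENNReal :=
  ∑' l : Fin n → ℕ, if IsCh n N l ∧ ∀ i : Fin n, (i : ℕ) = 0 → l i = 1 then wA n A s l else 0

end

end Pool.Agent.Lib.H33N
end

-- from Lib.H33N.S1
section

/-!
# Chunk S1: divisor bounds
-/

namespace Pool.Agent.Lib.H33N

noncomputable section

theorem s1_fac {K ε : ℝ} (hε : 0 < ε) (hK1 : 1 ≤ K) (hK2 : 1 ≤ K * (ε * Real.log 2)) {P : ℕ}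
    (hP : (2 : ℝ) ^ (1 / ε) < P) (p v : ℕ) (hp : 2 ≤ p) :
    ((v : ℝ) + 1) ≤ (if p < P then K else 1) * ((p : ℝ) ^ ε) ^ v := by
  have hp' : (2 : ℝ) ≤ p := by exact_mod_cast hp
  have hp0 : (0 : ℝ) < p := by linarith
  have hv : (0 : ℝ) ≤ v := Nat.cast_nonneg v
  split_ifs with h
  · -- Bernoulli
    have h1 : 1 + (v : ℝ) * (ε * Real.log 2) ≤ ((p : ℝ) ^ ε) ^ v := by
      have h2 : ((p : ℝ) ^ ε) ^ v = Real.exp ((v : ℝ) * (ε * Real.log p)) := by
        rw [Real.exp_nat_mul, Real.rpow_def_of_pos hp0, mul_comm (Real.log _)]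
      have h3 : (v : ℝ) * (ε * Real.log 2) ≤ (v : ℝ) * (ε * Real.log p) := by
        refine mul_le_mul_of_nonneg_left (mul_le_mul_of_nonneg_left ?_ hε.le) hv
        exact Real.log_le_log (by norm_num) hp'
      rw [h2]
      have h4 := Real.add_one_le_exp ((v : ℝ) * (ε * Real.log p))
      linarith
    have h5 : K * (1 + (v : ℝ) * (ε * Real.log 2)) ≤ K * ((p : ℝ) ^ ε) ^ v :=
      mul_le_mul_of_nonneg_left h1 (by linarith)
    nlinarith
  · have h1 : (2 : ℝ) ≤ (p : ℝ) ^ ε := by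
      have h2 : (2 : ℝ) ^ (1 / ε) ≤ p := by
        have : (P : ℝ) ≤ p := by exact_mod_cast not_lt.1 h
        linarith
      have h3 := Real.rpow_le_rpow (by positivity) h2 hε.le
      rwa [← Real.rpow_mul (by norm_num), one_div, inv_mul_cancel₀ hε.ne', Real.rpow_one] at h3
    rw [one_mul]
    have h4 : (2 : ℝ) ^ v ≤ ((p : ℝ) ^ ε) ^ v := pow_le_pow_left₀ (by norm_num) h1 v
    have h5 : ((v : ℝ) + 1) ≤ 2 ^ v := by
      have : v + 1 ≤ 2 ^ v := Nat.succ_le_of_lt Nat.lt_two_pow_self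
      exact_mod_cast this
    linarith

/-- The divisor bound. `τ(m) / m ^ ε = ∏_p (v_p + 1) / p ^ (ε v_p)`; the factors with `p ^ ε ≥ 2` are at most `1` (`v + 1 ≤ 2 ^ v`), the others (finitely many primes) are at most `sup_v (v + 1) 2 ^ (-ε v)`, finite. -/
theorem s1_div {ε : ℝ} (hε : 0 < ε) : ∃ C : ℝ, 1 ≤ C ∧ ∀ m : ℕ, 0 < m → (m.divisors.card : ℝ) ≤ C * (m : ℝ) ^ ε := by
  have hl : 0 < Real.log 2 := Real.log_pos (by norm_num)
  obtain ⟨K, hK1, hK2⟩ : ∃ K : ℝ, 1 ≤ K ∧ 1 ≤ K * (ε * Real.log 2) := by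
    refine ⟨max 1 (1 / (ε * Real.log 2)), le_max_left _ _, ?_⟩
    have h := mul_le_mul_of_nonneg_right (le_max_right 1 (1 / (ε * Real.log 2))) (mul_pos hε hl).le
    have e : 1 / (ε * Real.log 2) * (ε * Real.log 2) = 1 := by
      rw [one_div, inv_mul_cancel₀ (mul_pos hε hl).ne']
    rw [e] at h
    exact h
  obtain ⟨P, hP⟩ := exists_nat_gt ((2 : ℝ) ^ (1 / ε))
  refine ⟨K ^ P, one_le_pow₀ hK1, fun m hm => ?_⟩
  have h1 : (m.divisors.card : ℝ) = ∏ p ∈ m.primeFactors, ((m.factorization p : ℝ) + 1) := by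
    rw [Nat.card_divisors hm.ne']
    push_cast
    rfl
  have h2 : (m : ℝ) ^ ε = ∏ p ∈ m.primeFactors, ((p : ℝ) ^ ε) ^ (m.factorization p) := by
    have e : (m : ℝ) = ∏ p ∈ m.primeFactors, (p : ℝ) ^ (m.factorization p) := by
      conv_lhs => rw [← Nat.prod_factorization_pow_eq_self hm.ne']
      rw [Finsupp.prod, Nat.support_factorization]
      push_cast
      rfl
    rw [e, ← Real.finsetProd_rpow _ _ (fun p _ => by positivity)]
    refine Finset.prod_congr rfl fun p _ => ?_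
    rw [← Real.rpow_natCast, ← Real.rpow_natCast, ← Real.rpow_mul (Nat.cast_nonneg p),
      ← Real.rpow_mul (Nat.cast_nonneg p), mul_comm]
  have h3 : ∏ p ∈ m.primeFactors, (if p < P then K else 1) ≤ K ^ P := by
    rw [Finset.prod_ite, Finset.prod_const_one, mul_one, Finset.prod_const]
    refine pow_le_pow_right₀ hK1 ?_
    calc (m.primeFactors.filter fun p => p < P).card ≤ (Finset.range P).card := by
          refine Finset.card_le_card fun p hp => ?_
          rw [Finset.mem_filter] at hp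
          exact Finset.mem_range.2 hp.2
      _ = P := Finset.card_range P
  calc (m.divisors.card : ℝ) = ∏ p ∈ m.primeFactors, ((m.factorization p : ℝ) + 1) := h1
    _ ≤ ∏ p ∈ m.primeFactors, ((if p < P then K else 1) * ((p : ℝ) ^ ε) ^ (m.factorization p)) :=
        Finset.prod_le_prod (fun p _ => by positivity)
          fun p hp => s1_fac hε hK1 hK2 hP p _ (Nat.prime_of_mem_primeFactors hp).two_le
    _ = (∏ p ∈ m.primeFactors, (if p < P then K else 1)) * (m : ℝ) ^ ε := by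
        rw [Finset.prod_mul_distrib, h2]
    _ ≤ K ^ P * (m : ℝ) ^ ε := mul_le_mul_of_nonneg_right h3 (by positivity)



end

end Pool.Agent.Lib.H33N
end

-- from Lib.H24P.T4
section

/-!
# Project H24P, chunk T4 (M): a combinatorial identity (elementary, self-contained)

`t : ℕ → ℝ` arbitrary, `P` a finite set of primes. `td d = ∏_{l ∣ d} t l`.
-/

open Finset

namespace Pool.Agent.Lib.H24P

/-- The squarefree `d ≤ E` with all prime factors in `P`, at most `j`. -/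
def dv (P : Finset ℕ) (j E : ℕ) : Finset ℕ :=
  open Classical in (Icc 1 E).filter (fun d => Squarefree d ∧ ∀ l ∈ d.primeFactors, l ∈ P ∧ l ≤ j)

/-- The squarefree `m > E` with all prime factors in `P`, at most `j`, such that `m/q ≤ E` for the largest
prime factor `q` of `m`. -/
def mv (P : Finset ℕ) (j E : ℕ) : Finset ℕ :=
  open Classical in (Ioc E (E * j)).filter (fun m => Squarefree m ∧
    (∀ l ∈ m.primeFactors, l ∈ P ∧ l ≤ j) ∧
    ∃ q ∈ m.primeFactors, (∀ l ∈ m.primeFactors, l ≤ q) ∧ m / q ≤ E)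

/-- `∏_{l ∣ d} t l` -/
noncomputable def tt (t : ℕ → ℝ) (d : ℕ) : ℝ := ∏ l ∈ d.primeFactors, t l

theorem t4_mem_dv {P : Finset ℕ} {j E d : ℕ} : d ∈ dv P j E ↔
    (1 ≤ d ∧ d ≤ E) ∧ Squarefree d ∧ ∀ l ∈ d.primeFactors, l ∈ P ∧ l ≤ j := by
  unfold dv
  rw [Finset.mem_filter, Finset.mem_Icc]

theorem t4_mem_mv {P : Finset ℕ} {j E m : ℕ} : m ∈ mv P j E ↔
    (E < m ∧ m ≤ E * j) ∧ Squarefree m ∧ (∀ l ∈ m.primeFactors, l ∈ P ∧ l ≤ j) ∧
      ∃ q ∈ m.primeFactors, (∀ l ∈ m.primeFactors, l ≤ q) ∧ m / q ≤ E := by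
  unfold mv
  rw [Finset.mem_filter, Finset.mem_Ioc]

/-- The prime factors of `q d`. -/
theorem t4_pf {q d : ℕ} (hq : q.Prime) (hd : d ≠ 0) : (q * d).primeFactors = insert q d.primeFactors := by
  rw [Nat.primeFactors_mul hq.ne_zero hd, hq.primeFactors, Finset.insert_eq]

theorem t4_tt {t : ℕ → ℝ} {q d : ℕ} (hq : q.Prime) (hd : d ≠ 0) (h : q ∉ d.primeFactors) :
    tt t (q * d) = t q * tt t d := by
  unfold tt
  rw [t4_pf hq hd, Finset.prod_insert h]

/-- Squarefree `q d`. -/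
theorem t4_sf {q d : ℕ} (hq : q.Prime) (hd : d ≠ 0) (h : q ∉ d.primeFactors) (hs : Squarefree d) :
    Squarefree (q * d) := by
  have hc : Nat.Coprime q d := by
    rw [Nat.Prime.coprime_iff_not_dvd hq]
    intro h1
    exact h (Nat.mem_primeFactors.2 ⟨hq, h1, hd⟩)
  rw [Nat.squarefree_mul hc]
  exact ⟨hq.squarefree, hs⟩

/-- Decomposition of a squarefree number divisible by `q`. -/
theorem t4_dec {q m : ℕ} (hq : q.Prime) (hm : Squarefree m) (h : q ∈ m.primeFactors) :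
    ∃ d : ℕ, m = q * d ∧ d ≠ 0 ∧ Squarefree d ∧ q ∉ d.primeFactors ∧ m.primeFactors = insert q d.primeFactors := by
  obtain ⟨_, ⟨d, hd⟩, hm0⟩ := Nat.mem_primeFactors.1 h
  have hd0 : d ≠ 0 := by
    rintro rfl
    exact hm0 (by rw [hd, mul_zero])
  have hs : Squarefree d := hm.squarefree_of_dvd ⟨q, by rw [hd, mul_comm]⟩
  refine ⟨d, hd, hd0, hs, ?_, by rw [hd]; exact t4_pf hq hd0⟩
  intro h1
  have h2 : q ∣ d := (Nat.mem_primeFactors.1 h1).2.1
  have h3 : q * q ∣ m := by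
    rw [hd]
    exact mul_dvd_mul_left q h2
  have h4 := hm q h3
  exact hq.one_lt.ne' (Nat.isUnit_iff.1 h4)

theorem t4_dv_sub {P : Finset ℕ} {j E E' : ℕ} (h : E' ≤ E) : dv P j E' = (dv P j E).filter (fun d => d ≤ E') := by
  ext d
  rw [Finset.mem_filter, t4_mem_dv, t4_mem_dv]
  constructor
  · rintro ⟨⟨h1, h2⟩, h3⟩
    exact ⟨⟨⟨h1, h2.trans h⟩, h3⟩, h2⟩
  · rintro ⟨⟨⟨h1, _⟩, h3⟩, h2⟩
    exact ⟨⟨h1, h2⟩, h3⟩

/-- Proof. The elements of `dv P q E` not divisible by `q = j + 1` are those of `dv P j E`; the others are `q d'`,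
`d' ∈ dv P j (E/q)`, `tt t (q d') = t q tt t d'`. -/
theorem T4_dv (t : ℕ → ℝ) (P : Finset ℕ) (hP : ∀ l ∈ P, l.Prime) (j E : ℕ) (hj : j + 1 ∈ P) :
    ∑ d ∈ dv P (j + 1) E, tt t d =
      ∑ d ∈ dv P j E, tt t d + t (j + 1) * ∑ d ∈ dv P j (E / (j + 1)), tt t d := by
  classical
  have hq := hP _ hj
  have hnot : ∀ d : ℕ, (∀ l ∈ d.primeFactors, l ∈ P ∧ l ≤ j) → j + 1 ∉ d.primeFactors := by
    intro d h1 h2
    have := (h1 _ h2).2
    omega
  have hset : dv P (j + 1) E = dv P j E ∪ (dv P j (E / (j + 1))).image (fun d => (j + 1) * d) := by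
    ext m
    rw [Finset.mem_union, Finset.mem_image, t4_mem_dv, t4_mem_dv]
    constructor
    · rintro ⟨⟨h1, h2⟩, h3, h4⟩
      by_cases hm : j + 1 ∈ m.primeFactors
      · right
        obtain ⟨d, hd, hd0, hds, hdq, hdp⟩ := t4_dec hq h3 hm
        refine ⟨d, t4_mem_dv.2 ⟨⟨Nat.one_le_iff_ne_zero.2 hd0, ?_⟩, hds, ?_⟩, hd.symm⟩
        · rw [Nat.le_div_iff_mul_le hq.pos, mul_comm, ← hd]
          exact h2
        · intro l hl
          have h5 := h4 l (by rw [hdp]; exact Finset.mem_insert_of_mem hl)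
          refine ⟨h5.1, ?_⟩
          have h6 : l ≠ j + 1 := by
            rintro rfl
            exact hdq hl
          omega
      · left
        refine ⟨⟨h1, h2⟩, h3, fun l hl => ⟨(h4 l hl).1, ?_⟩⟩
        have h6 : l ≠ j + 1 := by
          rintro rfl
          exact hm hl
        have := (h4 l hl).2
        omega
    · rintro (⟨⟨h1, h2⟩, h3, h4⟩ | ⟨d, hd, rfl⟩)
      · exact ⟨⟨h1, h2⟩, h3, fun l hl => ⟨(h4 l hl).1, (h4 l hl).2.trans (Nat.le_succ j)⟩⟩
      · obtain ⟨⟨h1, h2⟩, h3, h4⟩ := t4_mem_dv.1 hd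
        have hd0 : d ≠ 0 := by omega
        refine ⟨⟨?_, ?_⟩, t4_sf hq hd0 (hnot d h4) h3, ?_⟩
        · exact Nat.mul_pos hq.pos h1
        · rw [Nat.le_div_iff_mul_le hq.pos] at h2
          rw [mul_comm]
          exact h2
        · intro l hl
          rw [t4_pf hq hd0, Finset.mem_insert] at hl
          rcases hl with rfl | hl
          · exact ⟨hj, le_rfl⟩
          · exact ⟨(h4 l hl).1, (h4 l hl).2.trans (Nat.le_succ j)⟩
  have hdis : Disjoint (dv P j E) ((dv P j (E / (j + 1))).image (fun d => (j + 1) * d)) := by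
    rw [Finset.disjoint_left]
    intro m h1 h2
    obtain ⟨d, hd, rfl⟩ := Finset.mem_image.1 h2
    obtain ⟨⟨h3, _⟩, _, _⟩ := t4_mem_dv.1 hd
    have hd0 : d ≠ 0 := by omega
    have h4 := (t4_mem_dv.1 h1).2.2
    exact hnot _ h4 (by rw [t4_pf hq hd0]; exact Finset.mem_insert_self _ _)
  rw [hset, Finset.sum_union hdis, Finset.sum_image (fun a _ b _ hab => Nat.eq_of_mul_eq_mul_left hq.pos hab),
    Finset.mul_sum]
  congr 1
  refine Finset.sum_congr rfl fun d hd => ?_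
  obtain ⟨⟨h3, _⟩, _, h4⟩ := t4_mem_dv.1 hd
  exact t4_tt hq (by omega) (hnot d h4)

/-- Proof. The elements of `mv P q E` not divisible by `q = j + 1` are those of `mv P j E` (`m = (m/q') q' ≤ E j`); the others are
`q d'`, `d' ∈ dv P j E` with `q d' > E`, i.e. `d' ∉ dv P j (E/q)`. -/
theorem T4_mv (t : ℕ → ℝ) (P : Finset ℕ) (hP : ∀ l ∈ P, l.Prime) (j E : ℕ) (hj : j + 1 ∈ P) :
    ∑ m ∈ mv P (j + 1) E, tt t m = ∑ m ∈ mv P j E, tt t m +
      t (j + 1) * (∑ d ∈ dv P j E, tt t d - ∑ d ∈ dv P j (E / (j + 1)), tt t d) := by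
  classical
  have hq := hP _ hj
  have hnot : ∀ d : ℕ, (∀ l ∈ d.primeFactors, l ∈ P ∧ l ≤ j) → j + 1 ∉ d.primeFactors := by
    intro d h1 h2
    have := (h1 _ h2).2
    omega
  have hset : mv P (j + 1) E = mv P j E ∪
      ((dv P j E).filter (fun d => ¬ d ≤ E / (j + 1))).image (fun d => (j + 1) * d) := by
    ext m
    rw [Finset.mem_union, Finset.mem_image, t4_mem_mv, t4_mem_mv]
    constructor
    · rintro ⟨⟨h1, h2⟩, h3, h4, r, hr, hr1, hr2⟩
      by_cases hm : j + 1 ∈ m.primeFactors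
      · right
        have hrq : r = j + 1 := le_antisymm (h4 r hr).2 (hr1 _ hm)
        obtain ⟨d, hd, hd0, hds, hdq, hdp⟩ := t4_dec hq h3 hm
        have hmd : m / r = d := by
          rw [hrq, hd, Nat.mul_div_cancel_left _ hq.pos]
        rw [hmd] at hr2
        refine ⟨d, Finset.mem_filter.2 ⟨t4_mem_dv.2 ⟨⟨Nat.one_le_iff_ne_zero.2 hd0, hr2⟩, hds, ?_⟩, ?_⟩, hd.symm⟩
        · intro l hl
          have h5 := h4 l (by rw [hdp]; exact Finset.mem_insert_of_mem hl)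
          refine ⟨h5.1, ?_⟩
          have h6 : l ≠ j + 1 := by
            rintro rfl
            exact hdq hl
          omega
        · rw [Nat.le_div_iff_mul_le hq.pos, mul_comm, ← hd]
          omega
      · left
        have h7 : ∀ l ∈ m.primeFactors, l ∈ P ∧ l ≤ j := by
          intro l hl
          refine ⟨(h4 l hl).1, ?_⟩
          have h6 : l ≠ j + 1 := by
            rintro rfl
            exact hm hl
          have := (h4 l hl).2
          omega
        refine ⟨⟨h1, ?_⟩, h3, h7, r, hr, hr1, hr2⟩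
        have h8 : m / r * r = m := Nat.div_mul_cancel (Nat.mem_primeFactors.1 hr).2.1
        rw [← h8]
        exact Nat.mul_le_mul hr2 (h7 r hr).2
    · rintro (⟨⟨h1, h2⟩, h3, h4, r, hr, hr1, hr2⟩ | ⟨d, hd, rfl⟩)
      · exact ⟨⟨h1, h2.trans (Nat.mul_le_mul_left _ (Nat.le_succ j))⟩, h3,
          fun l hl => ⟨(h4 l hl).1, (h4 l hl).2.trans (Nat.le_succ j)⟩, r, hr, hr1, hr2⟩
      · obtain ⟨hd1, hd2⟩ := Finset.mem_filter.1 hd
        obtain ⟨⟨h1, h2⟩, h3, h4⟩ := t4_mem_dv.1 hd1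
        have hd0 : d ≠ 0 := by omega
        have h5 : ∀ l ∈ ((j + 1) * d).primeFactors, l ∈ P ∧ l ≤ j + 1 := by
          intro l hl
          rw [t4_pf hq hd0, Finset.mem_insert] at hl
          rcases hl with rfl | hl
          · exact ⟨hj, le_rfl⟩
          · exact ⟨(h4 l hl).1, (h4 l hl).2.trans (Nat.le_succ j)⟩
        refine ⟨⟨?_, ?_⟩, t4_sf hq hd0 (hnot d h4) h3, h5, j + 1, ?_, fun l hl => (h5 l hl).2, ?_⟩
        · rw [Nat.le_div_iff_mul_le hq.pos, mul_comm] at hd2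
          omega
        · rw [mul_comm]
          exact Nat.mul_le_mul_right _ h2
        · rw [t4_pf hq hd0]
          exact Finset.mem_insert_self _ _
        · rw [Nat.mul_div_cancel_left _ hq.pos]
          exact h2
  have hdis : Disjoint (mv P j E) (((dv P j E).filter (fun d => ¬ d ≤ E / (j + 1))).image (fun d => (j + 1) * d)) := by
    rw [Finset.disjoint_left]
    intro m h1 h2
    obtain ⟨d, hd, rfl⟩ := Finset.mem_image.1 h2
    obtain ⟨⟨h3, _⟩, _, _⟩ := t4_mem_dv.1 (Finset.mem_filter.1 hd).1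
    have hd0 : d ≠ 0 := by omega
    have h4 := (t4_mem_mv.1 h1).2.2.1
    exact hnot _ h4 (by rw [t4_pf hq hd0]; exact Finset.mem_insert_self _ _)
  have hsum : ∑ d ∈ dv P j E, tt t d - ∑ d ∈ dv P j (E / (j + 1)), tt t d =
      ∑ d ∈ (dv P j E).filter (fun d => ¬ d ≤ E / (j + 1)), tt t d := by
    rw [t4_dv_sub (Nat.div_le_self E (j + 1)), ← Finset.sum_filter_add_sum_filter_not (dv P j E) (fun d => d ≤ E / (j + 1))]
    ring
  rw [hset, Finset.sum_union hdis, Finset.sum_image (fun a _ b _ hab => Nat.eq_of_mul_eq_mul_left hq.pos hab),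
    hsum, Finset.mul_sum]
  congr 1
  refine Finset.sum_congr rfl fun d hd => ?_
  obtain ⟨⟨h3, _⟩, _, h4⟩ := t4_mem_dv.1 (Finset.mem_filter.1 hd).1
  exact t4_tt hq (by omega) (hnot d h4)

/-- Proof. The conditions are the same; for `mv`: `m = (m/q) q ≤ E j` for the largest prime factor `q ≤ j`. -/
theorem T4_not (P : Finset ℕ) (j E : ℕ) (hj : j + 1 ∉ P) :
    dv P (j + 1) E = dv P j E ∧ mv P (j + 1) E = mv P j E := by
  have hiff : ∀ l, (l ∈ P ∧ l ≤ j + 1) ↔ (l ∈ P ∧ l ≤ j) := by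
    intro l
    constructor
    · rintro ⟨h1, h2⟩
      refine ⟨h1, ?_⟩
      have : l ≠ j + 1 := by
        rintro rfl
        exact hj h1
      omega
    · rintro ⟨h1, h2⟩
      exact ⟨h1, by omega⟩
  constructor
  · ext d
    rw [t4_mem_dv, t4_mem_dv]
    simp only [hiff]
  · ext m
    rw [t4_mem_mv, t4_mem_mv]
    simp only [hiff]
    constructor
    · rintro ⟨⟨h1, h2⟩, h3, h4, r, hr, hr1, hr2⟩
      refine ⟨⟨h1, ?_⟩, h3, h4, r, hr, hr1, hr2⟩
      have h8 : m / r * r = m := Nat.div_mul_cancel (Nat.mem_primeFactors.1 hr).2.1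
      rw [← h8]
      exact Nat.mul_le_mul hr2 (h4 r hr).2
    · rintro ⟨⟨h1, h2⟩, h3, h4, r, hr, hr1, hr2⟩
      exact ⟨⟨h1, h2.trans (Nat.mul_le_mul_left _ (Nat.le_succ j))⟩, h3, h4, r, hr, hr1, hr2⟩

/-- **T4.** Proof. Induction on `Q`. `Q = 0`: `dv P 0 E = {1}`, `mv P 0 E = ∅`, and the filters are empty (primes are
positive): `1 - 1 = 0`. Step: `Ψ(j) = ∏_{l ≤ j} (1 + t l) - ∑ dv - ∑ mv` satisfies
`Ψ(j+1) = (1 + t_{j+1}) Ψ(j) + t_{j+1} ∑_{mv P j E} tt` if `j + 1 ∈ P` (`T4_dv`, `T4_mv`), and `Ψ(j+1) = Ψ(j)` else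
(`T4_not`). -/
theorem T4_main (t : ℕ → ℝ) (P : Finset ℕ) (hP : ∀ l ∈ P, l.Prime) (E : ℕ) (hE : 1 ≤ E) (Q : ℕ) :
    ∏ l ∈ P.filter (fun l => l ≤ Q), (1 + t l) - ∑ d ∈ dv P Q E, tt t d =
      ∑ m ∈ mv P Q E, tt t m +
      ∑ q ∈ P.filter (fun l => l ≤ Q), t q * (∑ m ∈ mv P (q - 1) E, tt t m) *
        ∏ l ∈ P.filter (fun l => q < l ∧ l ≤ Q), (1 + t l) := by
  classical
  induction Q with
  | zero =>
    have h1 : P.filter (fun l => l ≤ 0) = ∅ := by
      apply Finset.filter_eq_empty_iff.2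
      intro l hl h
      exact absurd (hP l hl).pos (by omega)
    have h2 : mv P 0 E = ∅ := by
      apply Finset.eq_empty_of_forall_notMem
      intro m hm
      obtain ⟨⟨h3, h4⟩, _⟩ := t4_mem_mv.1 hm
      omega
    have h3 : dv P 0 E = {1} := by
      ext d
      rw [t4_mem_dv, Finset.mem_singleton]
      constructor
      · rintro ⟨⟨h4, _⟩, _, h5⟩
        have h6 : d.primeFactors = ∅ := by
          apply Finset.eq_empty_of_forall_notMem
          intro l hl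
          have h7 := (h5 l hl).2
          have h8 := (Nat.prime_of_mem_primeFactors hl).pos
          omega
        rcases Nat.primeFactors_eq_empty.1 h6 with h7 | h7
        · omega
        · exact h7
      · rintro rfl
        exact ⟨⟨le_rfl, hE⟩, squarefree_one, by simp⟩
    rw [h1, h2, h3]
    simp [tt]
  | succ Q ih =>
    by_cases hj : Q + 1 ∈ P
    · have h1 : P.filter (fun l => l ≤ Q + 1) = insert (Q + 1) (P.filter (fun l => l ≤ Q)) := by
        ext l
        rw [Finset.mem_insert, Finset.mem_filter, Finset.mem_filter]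
        constructor
        · rintro ⟨h2, h3⟩
          by_cases h4 : l = Q + 1
          · exact Or.inl h4
          · exact Or.inr ⟨h2, by omega⟩
        · rintro (rfl | ⟨h2, h3⟩)
          · exact ⟨hj, le_rfl⟩
          · exact ⟨h2, by omega⟩
      have h2 : Q + 1 ∉ P.filter (fun l => l ≤ Q) := by
        rw [Finset.mem_filter]
        rintro ⟨_, h⟩
        omega
      have h3 : ∀ q ∈ P.filter (fun l => l ≤ Q), P.filter (fun l => q < l ∧ l ≤ Q + 1) =
          insert (Q + 1) (P.filter (fun l => q < l ∧ l ≤ Q)) := by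
        intro q hq
        have hq2 := (Finset.mem_filter.1 hq).2
        ext l
        rw [Finset.mem_insert, Finset.mem_filter, Finset.mem_filter]
        constructor
        · rintro ⟨h2, h3, h5⟩
          by_cases h4 : l = Q + 1
          · exact Or.inl h4
          · exact Or.inr ⟨h2, h3, by omega⟩
        · rintro (rfl | ⟨h2, h3, h5⟩)
          · exact ⟨hj, by omega, le_rfl⟩
          · exact ⟨h2, h3, by omega⟩
      have h4 : ∀ q, Q + 1 ∉ P.filter (fun l => q < l ∧ l ≤ Q) := by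
        intro q
        rw [Finset.mem_filter]
        rintro ⟨_, _, h⟩
        omega
      have h5 : P.filter (fun l => Q + 1 < l ∧ l ≤ Q + 1) = ∅ := by
        apply Finset.filter_eq_empty_iff.2
        rintro l _ ⟨h6, h7⟩
        omega
      have h6 : ∑ q ∈ P.filter (fun l => l ≤ Q), t q * (∑ m ∈ mv P (q - 1) E, tt t m) *
          ∏ l ∈ P.filter (fun l => q < l ∧ l ≤ Q + 1), (1 + t l) = (1 + t (Q + 1)) *
          ∑ q ∈ P.filter (fun l => l ≤ Q), t q * (∑ m ∈ mv P (q - 1) E, tt t m) *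
          ∏ l ∈ P.filter (fun l => q < l ∧ l ≤ Q), (1 + t l) := by
        rw [Finset.mul_sum]
        refine Finset.sum_congr rfl fun q hq => ?_
        rw [h3 q hq, Finset.prod_insert (h4 q)]
        ring
      rw [T4_dv t P hP Q E hj, T4_mv t P hP Q E hj, h1, Finset.prod_insert h2, Finset.sum_insert h2, h5,
        Finset.prod_empty, h6, Nat.add_sub_cancel]
      linear_combination (1 + t (Q + 1)) * ih
    · have h1 : P.filter (fun l => l ≤ Q + 1) = P.filter (fun l => l ≤ Q) := by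
        ext l
        rw [Finset.mem_filter, Finset.mem_filter]
        constructor
        · rintro ⟨h2, h3⟩
          have h4 : l ≠ Q + 1 := by
            rintro rfl
            exact hj h2
          exact ⟨h2, by omega⟩
        · rintro ⟨h2, h3⟩
          exact ⟨h2, by omega⟩
      have h3 : ∀ q, P.filter (fun l => q < l ∧ l ≤ Q + 1) = P.filter (fun l => q < l ∧ l ≤ Q) := by
        intro q
        ext l
        rw [Finset.mem_filter, Finset.mem_filter]
        constructor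
        · rintro ⟨h2, h3, h5⟩
          have h4 : l ≠ Q + 1 := by
            rintro rfl
            exact hj h2
          exact ⟨h2, h3, by omega⟩
        · rintro ⟨h2, h3, h5⟩
          exact ⟨h2, h3, by omega⟩
      obtain ⟨h4, h5⟩ := T4_not P Q E hj
      rw [h4, h5, h1]
      simp only [h3]
      exact ih

end Pool.Agent.Lib.H24P
end

-- from Lib.H81A.Defs
section

/-!
# H81A (MP_443e5f, candidate T, module A): Heath-Brown's identity in seminorm form. Definitions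

`N` is a natural number, `p` a seminorm on the functions `ℕ → ℝ` which only sees the values at `1, …, N`. If `p` is small (`≤ X`) on all pieces of the three kinds

* `H2`: Dirichlet convolutions of two bounded coefficient sequences in dyadic intervals, one of them in the range `[N ^ c, N ^ (1 / 2 - η)]`,
* `H1`: (bounded coefficients up to `N ^ (2 c)`) times (indicator of an interval),
* `H3`: (bounded coefficients up to `N ^ (2 c)`) times two indicators of intervals in `[N ^ (1 / 2 - 2 η), N ^ (1 / 2 + 2 η)]`,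

then `p Λ ≤ N ^ ε X` (file `Final.lean`). See `PROOF.md`.
-/

namespace Pool.Agent.Lib.H81A

open Finset ArithmeticFunction

/-- The arithmetic function with the values `f n`, `n ≥ 1`. -/
noncomputable def af (f : ℕ → ℝ) : ArithmeticFunction ℝ := ⟨fun n => if n = 0 then 0 else f n, by simp⟩

theorem af_apply (f : ℕ → ℝ) {n : ℕ} (hn : n ≠ 0) : af f n = f n := by
  show (if n = 0 then 0 else f n) = f n
  rw [if_neg hn]

/-- The truncated Möbius function. -/
noncomputable def muV (z : ℕ) : ArithmeticFunction ℝ := af (fun a => if a ≤ z then (moebius a : ℝ) else 0)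

/-- The constant function `1`. -/
noncomputable def one1 : ArithmeticFunction ℝ := af (fun _ => 1)

/-- The logarithm. -/
noncomputable def logf : ArithmeticFunction ℝ := af (fun n => Real.log n)

/-- The restriction to the dyadic interval `[2 ^ k, 2 ^ (k + 1))`. -/
noncomputable def dy (k : ℕ) (f : ArithmeticFunction ℝ) : ArithmeticFunction ℝ := af (fun n => if 2 ^ k ≤ n ∧ n < 2 ^ (k + 1) then f n else 0)

theorem dy_apply (k : ℕ) (f : ArithmeticFunction ℝ) (n : ℕ) : dy k f n = if 2 ^ k ≤ n ∧ n < 2 ^ (k + 1) then f n else 0 := by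
  rcases eq_or_ne n 0 with rfl | hn
  · rw [ArithmeticFunction.map_zero, ArithmeticFunction.map_zero, ite_self]
  · exact af_apply _ hn

/-- The seminorm sees only the values at `1, …, N`. -/
def Loc (N : ℕ) (p : Seminorm ℝ (ℕ → ℝ)) : Prop := ∀ P : ℕ → ℝ, (∀ m, 1 ≤ m → m ≤ N → P m = 0) → p P = 0

/-- The bound for the pieces with two variables and bounded coefficients (`Type II`). -/
def H2 (c η : ℝ) (N : ℕ) (p : Seminorm ℝ (ℕ → ℝ)) (X : ℝ) : Prop :=
  ∀ K M : ℝ, (N : ℝ) ^ c ≤ K → K ≤ (N : ℝ) ^ (1 / 2 - η) → 1 ≤ M → ∀ α β : ℕ → ℝ, (∀ a, |α a| ≤ 1) → (∀ b, |β b| ≤ 1) →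
    (∀ a : ℕ, α a ≠ 0 → K ≤ a ∧ (a : ℝ) ≤ 2 * K) → (∀ b : ℕ, β b ≠ 0 → M ≤ b ∧ (b : ℝ) ≤ 2 * M) →
      p (fun m => ∑ x ∈ m.divisorsAntidiagonal, α x.1 * β x.2) ≤ X

/-- The bound for the pieces with one smooth variable (`Type I`). -/
def H1 (c : ℝ) (N : ℕ) (p : Seminorm ℝ (ℕ → ℝ)) (X : ℝ) : Prop :=
  ∀ B₁ B₂ : ℕ, 1 ≤ B₁ → B₂ ≤ 2 * B₁ → ∀ γ : ℕ → ℝ, (∀ q, |γ q| ≤ 1) → (∀ q : ℕ, γ q ≠ 0 → 1 ≤ q ∧ (q : ℝ) ≤ (N : ℝ) ^ (2 * c)) →
    p (fun m => ∑ x ∈ m.divisorsAntidiagonal, γ x.1 * (if B₁ ≤ x.2 ∧ x.2 < B₂ then 1 else 0)) ≤ X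

/-- The bound for the pieces with two smooth variables near `N ^ (1 / 2)` (near-diagonal pieces). -/
def H3 (c η : ℝ) (N : ℕ) (p : Seminorm ℝ (ℕ → ℝ)) (X : ℝ) : Prop :=
  ∀ A₁ A₂ B₁ B₂ : ℕ, (N : ℝ) ^ (1 / 2 - 2 * η) ≤ A₁ → (A₂ : ℝ) ≤ (N : ℝ) ^ (1 / 2 + 2 * η) → (N : ℝ) ^ (1 / 2 - 2 * η) ≤ B₁ →
    (B₂ : ℝ) ≤ (N : ℝ) ^ (1 / 2 + 2 * η) → A₂ ≤ 2 * A₁ → B₂ ≤ 2 * B₁ → ∀ γ : ℕ → ℝ, (∀ q, |γ q| ≤ 1) → (∀ q : ℕ, γ q ≠ 0 → 1 ≤ q ∧ (q : ℝ) ≤ (N : ℝ) ^ (2 * c)) →
      p (fun m => ∑ x ∈ m.divisorsAntidiagonal, γ x.1 *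
        ∑ y ∈ x.2.divisorsAntidiagonal, (if A₁ ≤ y.1 ∧ y.1 < A₂ then 1 else 0) * (if B₁ ≤ y.2 ∧ y.2 < B₂ then 1 else 0)) ≤ X

theorem Loc.congr {N : ℕ} {p : Seminorm ℝ (ℕ → ℝ)} (h : Loc N p) {P Q : ℕ → ℝ} (hPQ : ∀ m, 1 ≤ m → m ≤ N → P m = Q m) : p P = p Q := by
  have key : ∀ P Q : ℕ → ℝ, (∀ m, 1 ≤ m → m ≤ N → P m = Q m) → p P ≤ p Q := by
    intro P Q hPQ
    have h1 : p (P - Q) = 0 := h _ fun m h1 h2 => by rw [Pi.sub_apply, hPQ m h1 h2, sub_self]
    have h2 := map_add_le_add p (P - Q) Q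
    rw [sub_add_cancel, h1, zero_add] at h2
    exact h2
  exact le_antisymm (key P Q hPQ) (key Q P fun m h1 h2 => (hPQ m h1 h2).symm)

/-- The conditions on the parameters: `2 ^ L > N`, `2 ^ u` is about `N ^ c`, `2 ^ v` about `N ^ (1 / 2 - η)`, at most `r` factors, `V = N ^ (small)`. -/
structure Par (c η : ℝ) (N L u v r : ℕ) (V : ℝ) : Prop where
  hN : 1 ≤ N
  hL : N < 2 ^ L
  hu : 0 < u
  hc : (N : ℝ) ^ c ≤ 2 ^ u
  hv : (2 : ℝ) ^ (v + r) ≤ (N : ℝ) ^ (1 / 2 - η)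
  hq : (2 : ℝ) ^ (u + r) ≤ (N : ℝ) ^ (2 * c)
  hqN : (N : ℝ) ^ (2 * c) ≤ N
  hA : (N : ℝ) ^ (1 / 2 - 2 * η) ≤ 2 ^ (v + 1)
  hB : (2 : ℝ) ^ (L - v) ≤ (N : ℝ) ^ (1 / 2 + 2 * η)
  huv : 2 * u ≤ v + 1
  h3v : L ≤ 3 * (v + 1)
  hV : 1 ≤ V
  hVL : (L : ℝ) + 1 ≤ V
  hVr : (r : ℝ) + 1 ≤ V
  hVd : ∀ n : ℕ, 1 ≤ n → n ≤ N → (n.divisors.card : ℝ) ≤ V
  hVlog : Real.log N ≤ V

end Pool.Agent.Lib.H81A
end

-- from Lib.H81A.BD
section

/-!
# H81A, chunk BD (S/M): bounds for products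
-/

namespace Pool.Agent.Lib.H81A

open Finset ArithmeticFunction

/-- PROOF. Induction over `S`: `|(f * g) n| ≤ ∑ |f a| |g b| ≤ (card of divisors of n) sup |f| sup |g|` (`mul_apply`, `Nat.card_divisorsAntidiagonal` or `Nat.divisorsAntidiagonal` as image of the divisors), the divisors of `n` are in `[1, N]`. -/
theorem bound {ι : Type} (S : Finset ι) (G : ι → ArithmeticFunction ℝ) {B D : ℝ} {N : ℕ} (hB : 1 ≤ B) (hD : 1 ≤ D)
    (hG : ∀ i ∈ S, ∀ n, 1 ≤ n → n ≤ N → |G i n| ≤ B) (hd : ∀ n : ℕ, 1 ≤ n → n ≤ N → (n.divisors.card : ℝ) ≤ D) {n : ℕ} (hn : 1 ≤ n) (hnN : n ≤ N) :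
    |(∏ i ∈ S, G i) n| ≤ (B * D) ^ S.card := by
  classical
  have hBD : 1 ≤ B * D := one_le_mul_of_one_le_of_one_le hB hD
  induction S using Finset.induction_on generalizing n with
  | empty =>
    rw [Finset.prod_empty, Finset.card_empty, pow_zero, ArithmeticFunction.one_apply]
    split_ifs
    · rw [abs_one]
    · rw [abs_zero]
      exact zero_le_one
  | insert a S ha ih =>
    rw [Finset.prod_insert ha, Finset.card_insert_of_notMem ha, ArithmeticFunction.mul_apply]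
    refine (Finset.abs_sum_le_sum_abs _ _).trans ?_
    have h1 : ∀ x ∈ n.divisorsAntidiagonal, |G a x.1 * (∏ i ∈ S, G i) x.2| ≤ B * (B * D) ^ S.card := by
      intro x hx
      obtain ⟨h2, h3⟩ := Nat.mem_divisorsAntidiagonal.1 hx
      have hx1 : x.1 ≠ 0 := by
        intro h
        rw [h, zero_mul] at h2
        exact h3 h2.symm
      have hx2 : x.2 ≠ 0 := by
        intro h
        rw [h, mul_zero] at h2
        exact h3 h2.symm
      have hl1 : x.1 ≤ n := Nat.le_of_dvd hn ⟨x.2, h2.symm⟩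
      have hl2 : x.2 ≤ n := Nat.le_of_dvd hn ⟨x.1, by rw [mul_comm]; exact h2.symm⟩
      rw [abs_mul]
      exact mul_le_mul (hG a (Finset.mem_insert_self a S) x.1 (Nat.one_le_iff_ne_zero.2 hx1) (hl1.trans hnN))
        (ih (fun i hi => hG i (Finset.mem_insert_of_mem hi)) (Nat.one_le_iff_ne_zero.2 hx2) (hl2.trans hnN)) (abs_nonneg _)
        (zero_le_one.trans hB)
    refine (Finset.sum_le_sum h1).trans ?_
    rw [Finset.sum_const, nsmul_eq_mul]
    have h4 : (n.divisorsAntidiagonal.card : ℝ) ≤ D := by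
      have h5 : n.divisorsAntidiagonal.card = n.divisors.card := by
        rw [← Nat.map_div_right_divisors, Finset.card_map]
      rw [h5]
      exact hd n hn hnN
    have h6 : 0 ≤ B * (B * D) ^ S.card := mul_nonneg (zero_le_one.trans hB) (pow_nonneg (zero_le_one.trans hBD) _)
    calc (n.divisorsAntidiagonal.card : ℝ) * (B * (B * D) ^ S.card) ≤ D * (B * (B * D) ^ S.card) := mul_le_mul_of_nonneg_right h4 h6
      _ = (B * D) ^ (S.card + 1) := by ring

theorem bd_dy (k : ℕ) (f : ArithmeticFunction ℝ) {B : ℝ} {n : ℕ} (h : |f n| ≤ B) : |dy k f n| ≤ B := by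
  rw [dy_apply]
  split_ifs
  · exact h
  · rw [abs_zero]
    exact (abs_nonneg _).trans h

end Pool.Agent.Lib.H81A
end

-- from Lib.H81A.SU
section

/-!
# H81A, chunk SU (S/M): supports of products
-/

namespace Pool.Agent.Lib.H81A

open Finset ArithmeticFunction

theorem su_dy {k n : ℕ} {f : ArithmeticFunction ℝ} (h : dy k f n ≠ 0) : 2 ^ k ≤ n ∧ n < 2 ^ (k + 1) := by
  rw [dy_apply] at h
  by_contra h1
  exact h (if_neg h1)

/-- PROOF. Induction over `S` (`Finset.induction_on`): a nonzero value of a product `f * g` at `n` gives `n = a b` with `f a ≠ 0`, `g b ≠ 0` (`mul_apply`, `Finset.exists_ne_zero_of_sum_ne_zero`); the empty product is `1`, nonzero only at `1`. -/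
theorem supp {ι : Type} (S : Finset ι) (k : ι → ℕ) (F : ι → ArithmeticFunction ℝ) {n : ℕ} (h : (∏ i ∈ S, dy (k i) (F i)) n ≠ 0) :
    2 ^ (∑ i ∈ S, k i) ≤ n ∧ n ≤ 2 ^ (∑ i ∈ S, k i + S.card) := by
  classical
  induction S using Finset.induction_on generalizing n with
  | empty =>
    rw [Finset.prod_empty] at h
    have h1 : n = 1 := by
      by_contra h2
      exact h (ArithmeticFunction.one_apply_ne h2)
    rw [h1, Finset.sum_empty, Finset.card_empty]
    exact ⟨le_refl _, le_refl _⟩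
  | insert a S ha ih =>
    rw [Finset.prod_insert ha, ArithmeticFunction.mul_apply] at h
    obtain ⟨x, hx, hx'⟩ := Finset.exists_ne_zero_of_sum_ne_zero h
    obtain ⟨h1, h2⟩ := su_dy (left_ne_zero_of_mul hx')
    obtain ⟨h3, h4⟩ := ih (right_ne_zero_of_mul hx')
    have h5 := (Nat.mem_divisorsAntidiagonal.1 hx).1
    rw [Finset.sum_insert ha, Finset.card_insert_of_notMem ha, ← h5]
    constructor
    · rw [pow_add]
      exact Nat.mul_le_mul h1 h3
    · have e : k a + ∑ i ∈ S, k i + (S.card + 1) = (k a + 1) + (∑ i ∈ S, k i + S.card) := by ring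
      rw [e, pow_add]
      exact Nat.mul_le_mul h2.le h4

end Pool.Agent.Lib.H81A
end

-- from Lib.H81A.GR
section

/-!
# H81A, chunk GR (S/M): greedy choice; Abel summation
-/

namespace Pool.Agent.Lib.H81A

open Finset ArithmeticFunction

/-- PROOF. Take `S ⊆ S₀` with `u ≤ ∑ S` of least cardinality (or induction over `S₀`); `S` is not empty; removing one element `i` gives a sum `< u`, and `k i < u`. -/
theorem greedy {ι : Type} [DecidableEq ι] (k : ι → ℕ) (u : ℕ) (hu : 0 < u) (S₀ : Finset ι) (h1 : ∀ i ∈ S₀, k i < u) (h2 : u ≤ ∑ i ∈ S₀, k i) :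
    ∃ S ⊆ S₀, u ≤ ∑ i ∈ S, k i ∧ ∑ i ∈ S, k i < 2 * u := by
  induction S₀ using Finset.induction_on with
  | empty =>
    rw [Finset.sum_empty] at h2
    omega
  | insert i s hi ih =>
    by_cases h : u ≤ ∑ j ∈ s, k j
    · obtain ⟨S, hS, h3⟩ := ih (fun j hj => h1 j (Finset.mem_insert_of_mem hj)) h
      exact ⟨S, hS.trans (Finset.subset_insert i s), h3⟩
    · refine ⟨insert i s, subset_rfl, h2, ?_⟩
      rw [Finset.sum_insert hi]
      have := h1 i (Finset.mem_insert_self i s)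
      omega

/-- PROOF. `B₁ ≥ B₂`: the function is `0`; `X ≥ 0` since `X ≥ p ..` (`apply_nonneg`). `B₁ < B₂`: for all `b`, `(if B₁ ≤ b ∧ b < B₂ then w b else 0) = w B₁ (if B₁ ≤ b ∧ b < B₂ then 1 else 0) + ∑ t ∈ Ico (B₁ + 1) B₂, (w t - w (t - 1)) (if t ≤ b ∧ b < B₂ then 1 else 0)`
(telescoping sum over `t ∈ Ioc B₁ b`); `Q` is linear, `p` subadditive and homogeneous, the coefficients are `≥ 0` with sum `w (B₂ - 1) ≤ V`. -/
theorem abel (p : Seminorm ℝ (ℕ → ℝ)) (Q : (ℕ → ℝ) →ₗ[ℝ] (ℕ → ℝ)) (X : ℝ) (B₁ B₂ : ℕ)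
    (hX : ∀ B, B₁ ≤ B → p (Q (fun b => if B ≤ b ∧ b < B₂ then 1 else 0)) ≤ X) (w : ℕ → ℝ) (hw : Monotone w) (hw0 : 0 ≤ w 0) {V : ℝ} (hV0 : 0 ≤ V)
    (hV : ∀ b, b < B₂ → w b ≤ V) : p (Q (fun b => if B₁ ≤ b ∧ b < B₂ then w b else 0)) ≤ V * X := by
  have hX0 : 0 ≤ X := (apply_nonneg p _).trans (hX B₁ le_rfl)
  have hw0' : ∀ b, 0 ≤ w b := fun b => hw0.trans (hw (Nat.zero_le b))
  rcases le_or_gt B₂ B₁ with hB | hB
  · have h0 : (fun b : ℕ => if B₁ ≤ b ∧ b < B₂ then w b else 0) = 0 := by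
      funext b
      rw [if_neg (by omega)]
      rfl
    rw [h0, _root_.map_zero, _root_.map_zero]
    positivity
  · have key : (fun b : ℕ => if B₁ ≤ b ∧ b < B₂ then w b else 0) =
        w B₁ • (fun b : ℕ => if B₁ ≤ b ∧ b < B₂ then (1 : ℝ) else 0) +
          ∑ t ∈ Finset.Ico (B₁ + 1) B₂, (w t - w (t - 1)) • (fun b : ℕ => if t ≤ b ∧ b < B₂ then (1 : ℝ) else 0) := by
      funext b
      simp only [Pi.add_apply, Pi.smul_apply, Finset.sum_apply, smul_eq_mul]
      by_cases hb : B₁ ≤ b ∧ b < B₂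
      · rw [if_pos hb, if_pos hb, mul_one]
        have h1 : ∑ t ∈ Finset.Ico (B₁ + 1) B₂, (w t - w (t - 1)) * (if t ≤ b ∧ b < B₂ then (1 : ℝ) else 0) =
            ∑ t ∈ Finset.Ico (B₁ + 1) (b + 1), (w t - w (t - 1)) := by
          rw [← Finset.sum_subset (s₁ := Finset.Ico (B₁ + 1) (b + 1)) (s₂ := Finset.Ico (B₁ + 1) B₂)]
          · refine Finset.sum_congr rfl fun t ht => ?_
            rw [Finset.mem_Ico] at ht
            rw [if_pos ⟨by omega, hb.2⟩, mul_one]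
          · intro t ht
            rw [Finset.mem_Ico] at ht ⊢
            omega
          · intro t ht ht'
            rw [Finset.mem_Ico] at ht ht'
            rw [if_neg (by omega), mul_zero]
        rw [h1, Finset.sum_Ico_eq_sum_range]
        have h2 : ∀ m, ∑ i ∈ Finset.range m, (w (B₁ + 1 + i) - w (B₁ + 1 + i - 1)) = w (B₁ + m) - w B₁ := by
          intro m
          induction m with
          | zero => simp
          | succ m ih =>
            rw [Finset.sum_range_succ, ih]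
            have e1 : B₁ + 1 + m - 1 = B₁ + m := by omega
            have e2 : B₁ + 1 + m = B₁ + (m + 1) := by omega
            rw [e1, e2]
            ring
        rw [h2]
        have e3 : B₁ + (b + 1 - (B₁ + 1)) = b := by omega
        rw [e3]
        ring
      · rw [if_neg hb, if_neg hb, mul_zero, zero_add]
        symm
        refine Finset.sum_eq_zero fun t ht => ?_
        rw [Finset.mem_Ico] at ht
        rw [if_neg (by omega), mul_zero]
    rw [key, map_add, map_smul, map_sum]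
    refine (map_add_le_add p _ _).trans ?_
    have h1 : p (w B₁ • Q (fun b : ℕ => if B₁ ≤ b ∧ b < B₂ then (1 : ℝ) else 0)) ≤ w B₁ * X := by
      rw [map_smul_eq_mul, Real.norm_of_nonneg (hw0' _)]
      exact mul_le_mul_of_nonneg_left (hX B₁ le_rfl) (hw0' _)
    have h2 : p (∑ t ∈ Finset.Ico (B₁ + 1) B₂, Q ((w t - w (t - 1)) • (fun b : ℕ => if t ≤ b ∧ b < B₂ then (1 : ℝ) else 0))) ≤
        ∑ t ∈ Finset.Ico (B₁ + 1) B₂, (w t - w (t - 1)) * X := by
      refine (Finset.le_sum_of_subadditive p (_root_.map_zero p).le (map_add_le_add p) _ _).trans ?_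
      refine Finset.sum_le_sum fun t ht => ?_
      rw [Finset.mem_Ico] at ht
      have h3 : 0 ≤ w t - w (t - 1) := sub_nonneg.2 (hw (by omega))
      rw [map_smul, map_smul_eq_mul, Real.norm_of_nonneg h3]
      exact mul_le_mul_of_nonneg_left (hX t (by omega)) h3
    refine (add_le_add h1 h2).trans ?_
    rw [← Finset.sum_mul, ← add_mul]
    refine mul_le_mul_of_nonneg_right ?_ hX0
    have h4 : ∑ t ∈ Finset.Ico (B₁ + 1) B₂, (w t - w (t - 1)) = w (B₂ - 1) - w B₁ := by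
      rw [Finset.sum_Ico_eq_sum_range]
      have h2 : ∀ m, ∑ i ∈ Finset.range m, (w (B₁ + 1 + i) - w (B₁ + 1 + i - 1)) = w (B₁ + m) - w B₁ := by
        intro m
        induction m with
        | zero => simp
        | succ m ih =>
          rw [Finset.sum_range_succ, ih]
          have e1 : B₁ + 1 + m - 1 = B₁ + m := by omega
          have e2 : B₁ + 1 + m = B₁ + (m + 1) := by omega
          rw [e1, e2]
          ring
      rw [h2]
      congr 2
      omega
    rw [h4]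
    have := hV (B₂ - 1) (by omega)
    linarith

end Pool.Agent.Lib.H81A
end
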