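import Pool.Agent.Lib.H1M.RV3.M004

/-! Merged copies (to shorten the build) of Lib.H21T.B10, Lib.H21T.B7, Lib.H21T.B8, Lib.H21T.G1, Lib.H81A.T1, Lib.H81A.T3, Lib.H21T.V1, Lib.H21T.V2. -/

-- from Lib.H21T.B10
section

/-!
# Chunk B10 (S/M): a complete sum
-/

namespace Pool.Agent.Lib.H21T

open Finset Pool.Agent.SZW

theorem b10_pow (t : ℝ) (n : ℕ) : ee (t * n) = ee t ^ n := by
  induction n with
  | zero => rw [Nat.cast_zero, mul_zero, ee_zero, pow_zero]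
  | succ n ih => rw [Nat.cast_succ, mul_add, mul_one, ee_add, ih, pow_succ]

/-- For fixed `r1` the inner sum over `r2` is `q` if `q ∣ p r1` (iff `q ∣ r1` iff `r1 = 0`) and `0` otherwise (geometric sum with ratio `ee (p r1 / q) ≠ 1`,
`ee (p r1 / q) ^ q = 1`; or `norm_one_sub_ee`). -/
theorem b10 (q : ℕ) (p : ℤ) (hq : 1 ≤ q) (hp : IsCoprime p (q : ℤ)) :
    ∑ r1 ∈ range q, ∑ r2 ∈ range q, ee ((p : ℝ) / q * ((r1 : ℝ) * r2)) = q := by
  have hq0 : (q : ℝ) ≠ 0 := by positivity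
  have h1 : ∀ r1 ∈ range q, ∑ r2 ∈ range q, ee ((p : ℝ) / q * ((r1 : ℝ) * r2)) = if r1 = 0 then (q : ℂ) else 0 := by
    intro r1 hr1
    have h2 : ∀ r2 ∈ range q, ee ((p : ℝ) / q * ((r1 : ℝ) * r2)) = ee ((p : ℝ) / q * r1) ^ r2 := by
      intro r2 _
      rw [← b10_pow, mul_assoc]
    rw [Finset.sum_congr rfl h2]
    split_ifs with h0
    · rw [h0]
      simp [ee_zero]
    · have hz : ee ((p : ℝ) / q * r1) ^ q = 1 := by
        rw [← b10_pow]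
        have h3 : (p : ℝ) / q * r1 * q = ((p * r1 : ℤ) : ℝ) := by
          push_cast
          field_simp
        rw [h3, ee_int]
      have hne : ee ((p : ℝ) / q * r1) ≠ 1 := by
        intro h3
        have h4 := norm_one_sub_ee ((p : ℝ) / q * r1)
        rw [h3, sub_self, norm_zero] at h4
        have h5 : nn ((p : ℝ) / q * r1) = 0 := le_antisymm (by linarith) (abs_nonneg _)
        unfold nn at h5
        rw [abs_eq_zero, sub_eq_zero] at h5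
        set k := round ((p : ℝ) / q * r1) with hk
        have h6 : ((p * r1 : ℤ) : ℝ) = ((q * k : ℤ) : ℝ) := by
          push_cast
          rw [← h5]
          field_simp
        have h7 : p * r1 = q * k := by exact_mod_cast h6
        have h8 : (q : ℤ) ∣ p * r1 := ⟨k, h7⟩
        have h9 : (q : ℤ) ∣ r1 := hp.symm.dvd_of_dvd_mul_left h8
        have h10 : q ∣ r1 := by exact_mod_cast h9
        have h11 := Finset.mem_range.1 hr1
        exact h0 (Nat.eq_zero_of_dvd_of_lt h10 h11)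
      have h3 := geom_sum_mul (ee ((p : ℝ) / q * r1)) q
      rw [hz, sub_self] at h3
      exact (mul_eq_zero.1 h3).resolve_right (sub_ne_zero.2 hne)
  rw [Finset.sum_congr rfl h1, Finset.sum_ite_eq', if_pos (Finset.mem_range.2 hq)]

end Pool.Agent.Lib.H21T
end

-- from Lib.H21T.B7
section

/-!
# Chunk B7 (S/M): counting in a residue class
-/

namespace Pool.Agent.Lib.H21T

open Finset Pool.Agent.SZW

theorem b7_le (x q r a : ℕ) (hq : 1 ≤ q) (ha : 1 ≤ a) (k : ℕ) : yv x q r a ≤ (k : ℝ) ↔ x ≤ a * (q * k + r) := by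
  have hq' : (0 : ℝ) < q := by exact_mod_cast hq
  have ha' : (0 : ℝ) < a := by exact_mod_cast ha
  have e : ((k : ℝ) * q + r) * a = ((a * (q * k + r) : ℕ) : ℝ) := by
    push_cast
    ring
  unfold yv
  rw [div_le_iff₀ hq', sub_le_iff_le_add, div_le_iff₀ ha', e]
  exact Nat.cast_le

theorem b7_lt (x q r a : ℕ) (hq : 1 ≤ q) (ha : 1 ≤ a) (k : ℕ) : (k : ℝ) < yv x q r a ↔ a * (q * k + r) < x := by
  rw [← not_le, b7_le x q r a hq ha k, not_le]

theorem b7_nonneg (x q r a : ℕ) (hr : r < q) (k : ℤ) (hk : yv x q r a ≤ (k : ℝ)) : 0 ≤ k := by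
  by_contra hcon
  have h1 : k ≤ -1 := by omega
  have h2 : (k : ℝ) ≤ -1 := by exact_mod_cast h1
  have hq' : (0 : ℝ) < q := by
    have : 0 < q := by omega
    exact_mod_cast this
  unfold yv at hk
  rw [div_le_iff₀ hq'] at hk
  have h3 : (0 : ℝ) ≤ (x : ℝ) / a := by positivity
  have h4 : (r : ℝ) < q := by exact_mod_cast hr
  nlinarith

/-- `b = r + q k` with `k : ℕ` (`b % q = r < q`); `x ≤ a b < x + H` iff `yv x q r a ≤ k < yv (x + H) q r a`; every integer `k` in this range gives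
`b = r + q k ≥ x / a > 0`, so `k ≥ 0` (`r < q`). The number of integers `k` with `y ≤ k < z` is `⌈z⌉ - ⌈y⌉` (`y ≤ z`). -/
theorem b7 (x H q r a : ℕ) (hx : 1 ≤ x) (hq : 1 ≤ q) (hr : r < q) (ha : 1 ≤ a) :
    ((((range (x + H)).filter fun b => (x ≤ a * b ∧ a * b < x + H) ∧ b % q = r).card : ℕ) : ℝ) =
      ((H : ℝ) / (q * a) + (Fr (yv (x + H) q r a) - Fr (yv x q r a))) := by
  have hq' : (0 : ℝ) < q := by exact_mod_cast hq
  have ha' : (0 : ℝ) < a := by exact_mod_cast ha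
  have e1 : yv (x + H) q r a = yv x q r a + (H : ℝ) / (q * a) := by
    unfold yv
    push_cast
    field_simp
    ring
  have e2 : yv x q r a ≤ yv (x + H) q r a := by
    rw [e1]
    have : 0 ≤ (H : ℝ) / (q * a) := by positivity
    linarith
  have hc : ((range (x + H)).filter fun b => (x ≤ a * b ∧ a * b < x + H) ∧ b % q = r).card =
      (Ico ⌈yv x q r a⌉ ⌈yv (x + H) q r a⌉).card := by
    refine Finset.card_bij (fun b _ => ((b / q : ℕ) : ℤ)) ?_ ?_ ?_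
    · intro b hb
      rw [mem_filter] at hb
      obtain ⟨_, ⟨h1, h2⟩, h3⟩ := hb
      have h4 : q * (b / q) + r = b := by
        rw [← h3]
        exact Nat.div_add_mod b q
      rw [mem_Ico, Int.ceil_le, Int.lt_ceil]
      constructor
      · have := (b7_le x q r a hq ha (b / q)).2 (by rw [h4]; exact h1)
        exact_mod_cast this
      · have := (b7_lt (x + H) q r a hq ha (b / q)).2 (by rw [h4]; exact h2)
        exact_mod_cast this
    · intro b1 hb1 b2 hb2 h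
      rw [mem_filter] at hb1 hb2
      have h' : b1 / q = b2 / q := by exact_mod_cast h
      rw [← Nat.div_add_mod b1 q, ← Nat.div_add_mod b2 q, h', hb1.2.2, hb2.2.2]
    · intro k hk
      rw [mem_Ico, Int.ceil_le, Int.lt_ceil] at hk
      obtain ⟨h1, h2⟩ := hk
      have h3 : 0 ≤ k := b7_nonneg x q r a hr k h1
      obtain ⟨n, rfl⟩ := Int.eq_ofNat_of_zero_le h3
      have h1' : yv x q r a ≤ (n : ℝ) := by exact_mod_cast h1
      have h2' : (n : ℝ) < yv (x + H) q r a := by exact_mod_cast h2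
      rw [b7_le x q r a hq ha] at h1'
      rw [b7_lt (x + H) q r a hq ha] at h2'
      refine ⟨q * n + r, ?_, ?_⟩
      · rw [mem_filter, mem_range]
        refine ⟨?_, ⟨h1', h2'⟩, ?_⟩
        · exact lt_of_le_of_lt (Nat.le_mul_of_pos_left _ (by omega)) h2'
        · rw [Nat.mul_add_mod, Nat.mod_eq_of_lt hr]
      · have : (q * n + r) / q = n := by
          rw [Nat.mul_add_div (by omega), Nat.div_eq_of_lt hr, Nat.add_zero]
        rw [this]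
  rw [hc, Int.card_Ico]
  have h5 : ⌈yv x q r a⌉ ≤ ⌈yv (x + H) q r a⌉ := Int.ceil_le_ceil e2
  have h6 : (((⌈yv (x + H) q r a⌉ - ⌈yv x q r a⌉).toNat : ℕ) : ℝ) = (⌈yv (x + H) q r a⌉ : ℝ) - ⌈yv x q r a⌉ := by
    have : (((⌈yv (x + H) q r a⌉ - ⌈yv x q r a⌉).toNat : ℕ) : ℤ) = ⌈yv (x + H) q r a⌉ - ⌈yv x q r a⌉ :=
      Int.toNat_of_nonneg (by omega)
    exact_mod_cast this
  rw [h6]
  unfold Fr
  have e3 : (H : ℝ) / (q * a) = yv (x + H) q r a - yv x q r a := by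
    rw [e1]
    ring
  rw [e3]
  ring

end Pool.Agent.Lib.H21T
end

-- from Lib.H21T.B8
section

/-!
# Chunk B8 (M): sum of 1 / a over a residue class
-/

namespace Pool.Agent.Lib.H21T

open Finset Pool.Agent.SZW

theorem b8_ex (n q r : ℕ) (hq : 1 ≤ q) (hr : r < q) : ∃ c, n ≤ c ∧ c < n + q ∧ c % q = r := by
  refine ⟨q * ((n + q - 1 - r) / q) + r, ?_, ?_, ?_⟩
  · have h1 := Nat.div_add_mod (n + q - 1 - r) q
    have h2 := Nat.mod_lt (n + q - 1 - r) (show q > 0 by omega)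
    omega
  · have h1 := Nat.div_add_mod (n + q - 1 - r) q
    omega
  · rw [Nat.mul_add_mod, Nat.mod_eq_of_lt hr]

/-- the two bounds for one term -/
theorem b8_term (n q : ℕ) (hq : 1 ≤ q) (hn : q < n) :
    (Real.log (n + q) - Real.log n) / q ≤ 1 / (n : ℝ) ∧
      1 / (n : ℝ) ≤ (Real.log n - Real.log (n - q)) / q := by
  have hq0 : (0 : ℝ) < q := by exact_mod_cast hq
  have hn0 : (0 : ℝ) < n := by exact_mod_cast (by omega : 0 < n)
  have hnq : (0 : ℝ) < (n : ℝ) - q := by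
    have : (q : ℝ) < n := by exact_mod_cast hn
    linarith
  constructor
  · rw [div_le_iff₀ hq0, ← Real.log_div (by positivity) hn0.ne']
    have h1 := Real.log_le_sub_one_of_pos (show (0 : ℝ) < (n + q) / n by positivity)
    have h2 : ((n : ℝ) + q) / n - 1 = 1 / n * q := by
      field_simp
      ring
    linarith
  · rw [le_div_iff₀ hq0]
    have h1 := Real.log_le_sub_one_of_pos (show (0 : ℝ) < ((n : ℝ) - q) / n by positivity)
    rw [Real.log_div hnq.ne' hn0.ne'] at h1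
    have h2 : ((n : ℝ) - q) / n - 1 = -(1 / n * q) := by
      field_simp
      ring
    linarith

theorem b8_ind (A1 q r : ℕ) (hq : 1 ≤ q) (hr : r < q) (h1 : 2 * q ≤ A1) (c0 : ℕ) (hc0 : A1 ≤ c0) (hc0' : c0 < A1 + q)
    (hc0r : c0 % q = r) (n : ℕ) (hn : A1 ≤ n) :
    ∃ c, n ≤ c ∧ c < n + q ∧ c % q = r ∧
      (Real.log c - Real.log c0) / q ≤ ∑ a ∈ (Ico A1 n).filter (fun a => a % q = r), 1 / (a : ℝ) ∧
      ∑ a ∈ (Ico A1 n).filter (fun a => a % q = r), 1 / (a : ℝ) ≤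
        (Real.log (c - q) - Real.log (c0 - q)) / q := by
  induction n, hn using Nat.le_induction with
  | base => exact ⟨c0, hc0, hc0', hc0r, by simp, by simp⟩
  | succ n hn ih =>
    obtain ⟨c, e1, e2, e3, e4, e5⟩ := ih
    rw [← Finset.insert_Ico_right_eq_Ico_add_one hn, Finset.filter_insert]
    by_cases h : n % q = r
    · have hcn : c = n := by
        have h6 : (c - n) % q = 0 := Nat.sub_mod_eq_zero_of_mod_eq (e3.trans h.symm)
        rw [Nat.mod_eq_of_lt (by omega)] at h6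
        omega
      rw [if_pos h, Finset.sum_insert (by simp)]
      obtain ⟨t1, t2⟩ := b8_term n q hq (by omega)
      subst hcn
      refine ⟨c + q, by omega, by omega, by rw [Nat.add_mod_right]; exact h, ?_, ?_⟩
      · push_cast
        have h7 : (Real.log ((c : ℝ) + q) - Real.log c0) / q =
            (Real.log (c + q) - Real.log c) / q + (Real.log c - Real.log c0) / q := by ring
        rw [h7]
        linarith
      · push_cast
        have h7 : (Real.log ((c : ℝ) + q - q) - Real.log (c0 - q)) / q =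
            (Real.log c - Real.log (c - q)) / q + (Real.log (c - q) - Real.log (c0 - q)) / q := by
          rw [add_sub_cancel_right]
          ring
        rw [h7]
        linarith
    · rw [if_neg h]
      have hcn : c ≠ n := fun h' => h (h' ▸ e3)
      exact ⟨c, by omega, by omega, e3, e4, e5⟩

/-- If the set is empty then `A2 - A1 < q` (an interval of `q` consecutive integers contains a multiple class), so `log (A2 / A1) ≤ q / A1`, and the claim holds. Otherwise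
the elements are `a_0 < .. < a_k`, consecutive differences `q`, `A1 ≤ a_0 < A1 + q`, `A2 ≤ a_k + q`, `a_k < A2`. From `(1 / q) log ((a + q) / a) ≤ 1 / a ≤ (1 / q) log (a / (a - q))`
and telescoping: `(1 / q) log ((a_k + q) / a_0) ≤ ∑ 1 / a ≤ (1 / q) log (a_k / (a_0 - q))`. Lower bound: `≥ (1 / q) log (A2 / (A1 + q)) ≥ (1 / q) log (A2 / A1) - 1 / A1`.
Upper bound: `≤ (1 / q) log (A2 / (A1 - q)) ≤ (1 / q) log (A2 / A1) + 1 / (A1 - q) ≤ (1 / q) log (A2 / A1) + 2 / A1` (`2 q ≤ A1`). -/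
theorem b8 (A1 A2 q r : ℕ) (hq : 1 ≤ q) (hr : r < q) (h1 : 2 * q ≤ A1) (h2 : A1 ≤ A2) :
    |∑ a ∈ (Ico A1 A2).filter (fun a => a % q = r), 1 / (a : ℝ) - (Real.log A2 - Real.log A1) / q| ≤ 2 / A1 := by
  obtain ⟨c0, hc0, hc0', hc0r⟩ := b8_ex A1 q r hq hr
  obtain ⟨c, e1, e2, e3, e4, e5⟩ := b8_ind A1 q r hq hr h1 c0 hc0 hc0' hc0r A2 h2
  have hq0 : (0 : ℝ) < q := by exact_mod_cast hq
  have hA1 : (0 : ℝ) < A1 := by exact_mod_cast (by omega : 0 < A1)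
  have hA12 : (A1 : ℝ) ≤ A2 := by exact_mod_cast h2
  have hA2 : (0 : ℝ) < A2 := by linarith
  have hqA : 2 * (q : ℝ) ≤ A1 := by exact_mod_cast h1
  have k1 : (A2 : ℝ) ≤ c := by exact_mod_cast e1
  have k2 : (c : ℝ) < A2 + q := by exact_mod_cast e2
  have k3 : (A1 : ℝ) ≤ c0 := by exact_mod_cast hc0
  have k4 : (c0 : ℝ) < A1 + q := by exact_mod_cast hc0'
  -- lower bound
  have l1 : Real.log A2 ≤ Real.log c := Real.log_le_log hA2 k1
  have l2 : Real.log c0 ≤ Real.log (A1 + q) := Real.log_le_log (by linarith) k4.le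
  have l3 : Real.log (A1 + q) - Real.log A1 ≤ q / A1 := by
    rw [← Real.log_div (by positivity) hA1.ne']
    have h3 := Real.log_le_sub_one_of_pos (show (0 : ℝ) < ((A1 : ℝ) + q) / A1 by positivity)
    have h4 : ((A1 : ℝ) + q) / A1 - 1 = q / A1 := by
      field_simp
      ring
    linarith
  have l4 : (Real.log A2 - Real.log A1) / q - 1 / A1 ≤ (Real.log c - Real.log c0) / q := by
    rw [le_div_iff₀ hq0, sub_mul, div_mul_cancel₀ _ hq0.ne']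
    have h5 : 1 / (A1 : ℝ) * q = q / A1 := by ring
    rw [h5]
    linarith
  -- upper bound
  have u0 : (0 : ℝ) < (A1 : ℝ) - q := by linarith
  have u1 : Real.log (c - q) ≤ Real.log A2 := Real.log_le_log (by linarith) (by linarith)
  have u2 : Real.log (A1 - q) ≤ Real.log (c0 - q) := Real.log_le_log u0 (by linarith)
  have u3 : Real.log A1 - Real.log (A1 - q) ≤ 2 * q / A1 := by
    rw [← Real.log_div hA1.ne' u0.ne']
    have h3 := Real.log_le_sub_one_of_pos (show (0 : ℝ) < (A1 : ℝ) / (A1 - q) by positivity)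
    have h4 : (A1 : ℝ) / (A1 - q) - 1 = q / (A1 - q) := by
      field_simp
      ring
    have h5 : (q : ℝ) / (A1 - q) ≤ 2 * q / A1 := by
      rw [div_le_div_iff₀ u0 hA1]
      nlinarith
    linarith
  have u4 : (Real.log (c - q) - Real.log (c0 - q)) / q ≤ (Real.log A2 - Real.log A1) / q + 2 / A1 := by
    rw [div_le_iff₀ hq0, add_mul, div_mul_cancel₀ _ hq0.ne']
    have h5 : 2 / (A1 : ℝ) * q = 2 * q / A1 := by ring
    rw [h5]
    linarith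
  have h6 : 1 / (A1 : ℝ) ≤ 2 / A1 := by
    rw [div_le_div_iff_of_pos_right hA1]
    norm_num
  rw [abs_le]
  constructor <;> linarith

end Pool.Agent.Lib.H21T
end

-- from Lib.H21T.G1
section

/-!
# Chunk G1 (S/M): the geometric parameters
-/

namespace Pool.Agent.Lib.H21T

open Finset Pool.Agent.SZW

/-- `X = ⌈4 u ^ 2⌉₊`, `S = ⌊u ^ 2500⌋₊` (at least `u ^ 2500 / 2`), `Λ = A ^ 3 / (2 * x * S ^ 2)` (natural division). `2 x S ^ 2 ≤ 8 u ^ 5002 A ^ 2 ≤ A ^ 3` as `A ≥ u ^ 9999`, so `Λ ≥ 1`, and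
`⌊y⌋ ≥ y / 2` for `y ≥ 1` gives `hlo`. `Λ ≤ A ^ 3 / (2 x S ^ 2) ≤ A / S ^ 2 ≤ 4 u ^ 5000`; `hlo` gives `A ^ 3 ≤ 4 x Λ S ^ 2 ≤ 16 u ^ 2 A ^ 2 Λ u ^ 5000`. (Never unfold the powers;
products with `← pow_add`, comparisons with `pow_le_pow_right₀`.) -/
theorem g1 (u : ℝ) (hu : 10 ≤ u) (A x : ℕ) (h1 : u ^ 9999 ≤ A) (h2 : (A : ℝ) ≤ u ^ 10000) (h3 : A ^ 2 ≤ 2 * x)
    (h4 : (x : ℝ) ≤ 4 * u ^ 2 * (A : ℝ) ^ 2) :
    ∃ X S Λ : ℕ, Geo A x X S Λ ∧ 4 * u ^ 2 ≤ X ∧ (X : ℝ) ≤ 5 * u ^ 2 ∧ (S : ℝ) ≤ u ^ 2500 ∧ u ^ 2500 ≤ 2 * S ∧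
      (Λ : ℝ) ≤ 4 * u ^ 5000 ∧ (A : ℝ) ≤ 16 * u ^ 5002 * Λ := by
  have hu0 : (0 : ℝ) < u := by linarith
  have hu1 : (1 : ℝ) ≤ u := by linarith
  obtain ⟨v, hv⟩ : ∃ v : ℝ, v = u ^ 2500 := ⟨_, rfl⟩
  have hv1 : 1 ≤ v := by rw [hv]; exact one_le_pow₀ hu1
  have hv0 : 0 < v := by linarith
  have hvv : v ^ 2 = u ^ 5000 := by rw [hv, ← pow_mul]
  obtain ⟨X, hXd⟩ : ∃ X : ℕ, X = ⌈4 * u ^ 2⌉₊ := ⟨_, rfl⟩
  obtain ⟨S, hSd⟩ : ∃ S : ℕ, S = ⌊v⌋₊ := ⟨_, rfl⟩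
  have hX1 : 4 * u ^ 2 ≤ X := by rw [hXd]; exact Nat.le_ceil _
  have hX2 : (X : ℝ) ≤ 5 * u ^ 2 := by
    have h := (Nat.ceil_lt_add_one (show 0 ≤ 4 * u ^ 2 by positivity)).le
    rw [← hXd] at h
    nlinarith
  have hS1 : (S : ℝ) ≤ v := by rw [hSd]; exact Nat.floor_le hv0.le
  have hS2 : v < S + 1 := by rw [hSd]; exact Nat.lt_floor_add_one v
  have hSn : 1 ≤ S := by
    have : (0 : ℝ) < S := by linarith
    have h2 : 0 < S := by exact_mod_cast this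
    omega
  have hSr : (1 : ℝ) ≤ S := by exact_mod_cast hSn
  have hS3 : v ≤ 2 * S := by linarith
  have hA0 : (0 : ℝ) < A := lt_of_lt_of_le (by positivity) h1
  have hAn : 1 ≤ A := by
    have h2 : 0 < A := by exact_mod_cast hA0
    omega
  have h3' : (A : ℝ) ^ 2 ≤ 2 * x := by exact_mod_cast h3
  have hx0 : (0 : ℝ) < x := by
    have : (0 : ℝ) < (A : ℝ) ^ 2 := by positivity
    linarith
  have hxn : 0 < x := by exact_mod_cast hx0
  have hM0 : 0 < 2 * x * S ^ 2 := by positivity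
  have key : 2 * (x : ℝ) * (S : ℝ) ^ 2 ≤ (A : ℝ) ^ 3 := by
    have k1 : (S : ℝ) ^ 2 ≤ u ^ 5000 := by
      rw [← hvv]
      exact pow_le_pow_left₀ (by linarith) hS1 2
    have k2 : 2 * (x : ℝ) * (S : ℝ) ^ 2 ≤ 2 * (4 * u ^ 2 * (A : ℝ) ^ 2) * u ^ 5000 := by
      apply mul_le_mul _ k1 (by positivity) (by positivity)
      linarith
    have k3 : 8 * u ^ 5002 ≤ (A : ℝ) := by
      have k4 : (8 : ℝ) * u ^ 5002 ≤ u * u ^ 5002 := by
        apply mul_le_mul_of_nonneg_right (by linarith) (by positivity)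
      have k5 : u * u ^ 5002 = u ^ 5003 := by rw [← pow_succ']
      have k6 : u ^ 5003 ≤ u ^ 9999 := pow_le_pow_right₀ hu1 (by norm_num)
      linarith
    have k7 : 2 * (4 * u ^ 2 * (A : ℝ) ^ 2) * u ^ 5000 = 8 * u ^ 5002 * (A : ℝ) ^ 2 := by
      have : u ^ 5002 = u ^ 2 * u ^ 5000 := by rw [← pow_add]
      rw [this]
      ring
    have k8 : 8 * u ^ 5002 * (A : ℝ) ^ 2 ≤ (A : ℝ) * (A : ℝ) ^ 2 :=
      mul_le_mul_of_nonneg_right k3 (by positivity)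
    calc 2 * (x : ℝ) * (S : ℝ) ^ 2 ≤ 2 * (4 * u ^ 2 * (A : ℝ) ^ 2) * u ^ 5000 := k2
      _ = 8 * u ^ 5002 * (A : ℝ) ^ 2 := k7
      _ ≤ (A : ℝ) * (A : ℝ) ^ 2 := k8
      _ = (A : ℝ) ^ 3 := by ring
  have keyn : 2 * x * S ^ 2 ≤ A ^ 3 := by exact_mod_cast key
  obtain ⟨L, hLd⟩ : ∃ L : ℕ, L = A ^ 3 / (2 * x * S ^ 2) := ⟨_, rfl⟩
  have hL1 : 1 ≤ L := by
    rw [hLd]
    exact Nat.div_pos keyn hM0
  have hL2 : L * (2 * x * S ^ 2) ≤ A ^ 3 := by
    rw [hLd]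
    exact Nat.div_mul_le_self _ _
  have hL3 : A ^ 3 < (L + 1) * (2 * x * S ^ 2) := by
    rw [hLd, mul_comm]
    exact Nat.lt_mul_div_succ _ hM0
  have hL4 : A ^ 3 ≤ 4 * x * L * S ^ 2 := by
    have h5 : (L + 1) * (2 * x * S ^ 2) ≤ (2 * L) * (2 * x * S ^ 2) := Nat.mul_le_mul_right _ (by omega)
    have h6 : (2 * L) * (2 * x * S ^ 2) = 4 * x * L * S ^ 2 := by ring
    omega
  have hL2r : (L : ℝ) * (2 * x * S ^ 2) ≤ (A : ℝ) ^ 3 := by exact_mod_cast hL2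
  have hL4r : (A : ℝ) ^ 3 ≤ 4 * x * L * S ^ 2 := by exact_mod_cast hL4
  have hLr : (1 : ℝ) ≤ L := by exact_mod_cast hL1
  refine ⟨X, S, L, ⟨hAn, ?_, hSn, hL1, h3, ?_, ?_, hL4⟩, hX1, hX2, ?_, ?_, ?_, ?_⟩
  · have : (0 : ℝ) < X := lt_of_lt_of_le (by positivity) hX1
    have h2 : 0 < X := by exact_mod_cast this
    omega
  · have : (x : ℝ) ≤ X * (A : ℝ) ^ 2 := h4.trans (mul_le_mul_of_nonneg_right hX1 (by positivity))
    exact_mod_cast this
  · calc 2 * x * L * S ^ 2 = L * (2 * x * S ^ 2) := by ring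
      _ ≤ A ^ 3 := hL2
  · rw [← hv]; exact hS1
  · rw [← hv]; exact hS3
  · -- L ≤ 4 u ^ 5000
    have m1 : (L : ℝ) * (S : ℝ) ^ 2 * (A : ℝ) ^ 2 ≤ (A : ℝ) * (A : ℝ) ^ 2 := by
      calc (L : ℝ) * (S : ℝ) ^ 2 * (A : ℝ) ^ 2 ≤ (L : ℝ) * (S : ℝ) ^ 2 * (2 * x) :=
            mul_le_mul_of_nonneg_left h3' (by positivity)
        _ = L * (2 * x * S ^ 2) := by ring
        _ ≤ (A : ℝ) ^ 3 := hL2r
        _ = (A : ℝ) * (A : ℝ) ^ 2 := by ring
    have m2 : (L : ℝ) * (S : ℝ) ^ 2 ≤ A := le_of_mul_le_mul_right m1 (by positivity)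
    have m3 : v ^ 2 ≤ 4 * (S : ℝ) ^ 2 := by
      calc v ^ 2 ≤ (2 * (S : ℝ)) ^ 2 := pow_le_pow_left₀ hv0.le hS3 2
        _ = 4 * (S : ℝ) ^ 2 := by ring
    have m4 : (L : ℝ) * v ^ 2 ≤ 4 * u ^ 5000 * v ^ 2 := by
      calc (L : ℝ) * v ^ 2 ≤ L * (4 * (S : ℝ) ^ 2) := mul_le_mul_of_nonneg_left m3 (by linarith)
        _ = 4 * (L * (S : ℝ) ^ 2) := by ring
        _ ≤ 4 * u ^ 10000 := by linarith
        _ = 4 * u ^ 5000 * v ^ 2 := by
            rw [hvv, mul_assoc, ← pow_add]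
    exact le_of_mul_le_mul_right m4 (by positivity)
  · -- A ≤ 16 u ^ 5002 L
    have k1 : (S : ℝ) ^ 2 ≤ u ^ 5000 := by
      rw [← hvv]
      exact pow_le_pow_left₀ (by linarith) hS1 2
    have m1 : (A : ℝ) * (A : ℝ) ^ 2 ≤ 16 * u ^ 5002 * L * (A : ℝ) ^ 2 := by
      have m0 : (A : ℝ) * (A : ℝ) ^ 2 = (A : ℝ) ^ 3 := by ring
      rw [m0]
      calc (A : ℝ) ^ (3 : ℕ) ≤ 4 * (x : ℝ) * L * (S : ℝ) ^ (2 : ℕ) := hL4r
        _ ≤ 4 * (x : ℝ) * L * u ^ (5000 : ℕ) := mul_le_mul_of_nonneg_left k1 (by positivity)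
        _ = (x : ℝ) * (4 * L * u ^ (5000 : ℕ)) := by ring
        _ ≤ 4 * u ^ 2 * (A : ℝ) ^ 2 * (4 * L * u ^ 5000) := mul_le_mul_of_nonneg_right h4 (by positivity)
        _ = 16 * (u ^ 2 * u ^ 5000) * L * (A : ℝ) ^ 2 := by ring
        _ = 16 * u ^ 5002 * L * (A : ℝ) ^ 2 := by rw [← pow_add]
    exact le_of_mul_le_mul_right m1 (by positivity)

end Pool.Agent.Lib.H21T
end

-- from Lib.H81A.T1
section

/-!
# H81A, chunk T1 (M): boxes with at most one long variable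
-/

namespace Pool.Agent.Lib.H81A

open Finset ArithmeticFunction

/-- The coefficients of a short product, normalised. -/
theorem t1_gam {ι : Type} [DecidableEq ι] {c η : ℝ} {N L u v r : ℕ} {V : ℝ} (par : Par c η N L u v r V) (k : ι → ℕ) (G : ι → ArithmeticFunction ℝ)
    (hG : ∀ i, ∀ n, 1 ≤ n → n ≤ N → |G i n| ≤ V) (S : Finset ι) (hr : S.card ≤ r) (hS : ∑ i ∈ S, k i < u) :
    ∃ γ : ℕ → ℝ, (∀ q, |γ q| ≤ 1) ∧ (∀ q : ℕ, γ q ≠ 0 → 1 ≤ q ∧ (q : ℝ) ≤ (N : ℝ) ^ (2 * c)) ∧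
      ∀ q, 1 ≤ q → q ≤ N → (∏ i ∈ S, dy (k i) (G i)) q = V ^ (2 * r) * γ q := by
  have hV0 : 0 < V ^ (2 * r) := pow_pos (lt_of_lt_of_le zero_lt_one par.hV) _
  refine ⟨fun q => if 1 ≤ q ∧ q ≤ N then (∏ i ∈ S, dy (k i) (G i)) q / V ^ (2 * r) else 0, ?_, ?_, ?_⟩
  · intro q
    show |if 1 ≤ q ∧ q ≤ N then (∏ i ∈ S, dy (k i) (G i)) q / V ^ (2 * r) else 0| ≤ 1
    split_ifs with h
    · rw [abs_div, abs_of_pos hV0, div_le_one hV0]
      refine (bound S (fun i => dy (k i) (G i)) par.hV par.hV (fun i _ n h1 h2 => bd_dy _ _ (hG i n h1 h2)) par.hVd h.1 h.2).trans ?_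
      rw [← pow_two, ← pow_mul]
      exact pow_le_pow_right₀ par.hV (Nat.mul_le_mul_left 2 hr)
    · rw [abs_zero]
      exact zero_le_one
  · intro q hq
    by_cases h : 1 ≤ q ∧ q ≤ N
    · refine ⟨h.1, ?_⟩
      have h1 : (∏ i ∈ S, dy (k i) (G i)) q ≠ 0 := by
        intro h0
        apply hq
        show (if 1 ≤ q ∧ q ≤ N then (∏ i ∈ S, dy (k i) (G i)) q / V ^ (2 * r) else 0) = 0
        rw [if_pos h, h0, zero_div]
      have h2 := (supp S k G h1).2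
      have h3 : 2 ^ (∑ i ∈ S, k i + S.card) ≤ 2 ^ (u + r) := Nat.pow_le_pow_right (by norm_num) (by omega)
      calc (q : ℝ) ≤ ((2 ^ (u + r) : ℕ) : ℝ) := by exact_mod_cast h2.trans h3
        _ = (2 : ℝ) ^ (u + r) := by push_cast; rfl
        _ ≤ _ := par.hq
    · exact absurd (if_neg h) hq
  · intro q h1 h2
    show _ = V ^ (2 * r) * (if 1 ≤ q ∧ q ≤ N then (∏ i ∈ S, dy (k i) (G i)) q / V ^ (2 * r) else 0)
    rw [if_pos ⟨h1, h2⟩, mul_div_cancel₀ _ hV0.ne']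

/-- Convolution with `γ`. -/
noncomputable def t1_Q (γ : ℕ → ℝ) : (ℕ → ℝ) →ₗ[ℝ] (ℕ → ℝ) where
  toFun h := fun m => ∑ x ∈ m.divisorsAntidiagonal, γ x.1 * h x.2
  map_add' h h' := by
    funext m
    rw [Pi.add_apply, ← Finset.sum_add_distrib]
    exact Finset.sum_congr rfl fun x _ => by rw [Pi.add_apply, mul_add]
  map_smul' a h := by
    funext m
    rw [RingHom.id_apply, Pi.smul_apply, smul_eq_mul, Finset.mul_sum]
    exact Finset.sum_congr rfl fun x _ => by rw [Pi.smul_apply, smul_eq_mul]; ring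

/-- The smooth weights. -/
theorem t1_w {f : ArithmeticFunction ℝ} (hf : f = one1 ∨ f = logf) {N : ℕ} {V : ℝ} (hV : 1 ≤ V) (hVlog : Real.log N ≤ V) :
    ∃ w : ℕ → ℝ, Monotone w ∧ 0 ≤ w 0 ∧ (∀ b, b ≤ N → w b ≤ V) ∧ ∀ n, 1 ≤ n → f n = w n := by
  rcases hf with rfl | rfl
  · exact ⟨fun _ => 1, fun _ _ _ => le_rfl, zero_le_one, fun _ _ => hV, fun n hn => af_apply _ (by omega)⟩
  · have hm : Monotone fun n : ℕ => Real.log (n : ℝ) := by
      intro a b hab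
      show Real.log (a : ℝ) ≤ Real.log (b : ℝ)
      rcases Nat.eq_zero_or_pos a with rfl | ha
      · rw [Nat.cast_zero, Real.log_zero]
        exact Real.log_natCast_nonneg b
      · exact Real.log_le_log (by exact_mod_cast ha) (by exact_mod_cast hab)
    refine ⟨fun n => Real.log n, hm, ?_, fun b hb => (hm hb).trans hVlog, fun n hn => af_apply _ (by omega)⟩
    show 0 ≤ Real.log ((0 : ℕ) : ℝ)
    rw [Nat.cast_zero, Real.log_zero]

theorem t1_X {c : ℝ} {N : ℕ} {p : Seminorm ℝ (ℕ → ℝ)} {X : ℝ} (h1 : H1 c N p X) : 0 ≤ X := by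
  refine le_trans ?_ (h1 1 1 le_rfl (by norm_num) (fun _ => 0) (fun _ => by rw [abs_zero]; exact zero_le_one) (fun q hq => absurd rfl hq))
  exact apply_nonneg p _

theorem t1_div {m N : ℕ} (hm : m ≤ N) {x : ℕ × ℕ} (hx : x ∈ m.divisorsAntidiagonal) : (1 ≤ x.1 ∧ x.1 ≤ N) ∧ (1 ≤ x.2 ∧ x.2 ≤ N) := by
  obtain ⟨h2, h3⟩ := Nat.mem_divisorsAntidiagonal.1 hx
  have hx1 : x.1 ≠ 0 := by
    intro h
    rw [h, zero_mul] at h2
    exact h3 h2.symm
  have hx2 : x.2 ≠ 0 := by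
    intro h
    rw [h, mul_zero] at h2
    exact h3 h2.symm
  have hm0 : 0 < m := Nat.pos_of_ne_zero h3
  have hl1 : x.1 ≤ m := Nat.le_of_dvd hm0 ⟨x.2, h2.symm⟩
  have hl2 : x.2 ≤ m := Nat.le_of_dvd hm0 ⟨x.1, by rw [mul_comm]; exact h2.symm⟩
  exact ⟨⟨Nat.one_le_iff_ne_zero.2 hx1, hl1.trans hm⟩, ⟨Nat.one_le_iff_ne_zero.2 hx2, hl2.trans hm⟩⟩

/-- PROOF. `γ q = (∏ i, dy (k i) (G i)) q` for `q ≤ N` and `0` for `q > N`: `|γ| ≤ (V * V) ^ (card ι) ≤ V ^ (2 r)` (`bound`, `bd_dy`), `γ q ≠ 0` gives `1 ≤ q ≤ 2 ^ (u + r) ≤ N ^ (2 c)` (`supp`). For `1 ≤ m ≤ N` the value at `m` is `∑ x ∈ m.divisorsAntidiagonal, γ x.1 * (if 1 ≤ x.2 ∧ x.2 < 2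
then 1 else 0)` (only `x = (m, 1)` counts). `H1` for `γ / V ^ (2 r)`; `0 ≤ X` from `H1` with `γ = 0`, `B₁ = B₂ = 1`. (`H1` wants `1 ≤ B₁`, `B₂ ≤ 2 B₁`.) -/
theorem type0 {ι : Type} [Fintype ι] [DecidableEq ι] {c η : ℝ} {N L u v r : ℕ} {V : ℝ} (par : Par c η N L u v r V) (hr : Fintype.card ι ≤ r) (p : Seminorm ℝ (ℕ → ℝ)) (hp : Loc N p)
    {X : ℝ} (h1 : H1 c N p X) (k : ι → ℕ) (G : ι → ArithmeticFunction ℝ) (hG : ∀ i, ∀ n, 1 ≤ n → n ≤ N → |G i n| ≤ V)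
    (hk : ∑ i, k i < u) : p (fun m => (∏ i, dy (k i) (G i)) m) ≤ V ^ (2 * r + 2) * X := by
  have hX := t1_X h1
  have hV0 : 0 ≤ V := zero_le_one.trans par.hV
  obtain ⟨γ, hγ1, hγ2, hγ3⟩ := t1_gam par k G hG univ hr hk
  have h4 : p (fun m => (∏ i, dy (k i) (G i)) m) =
      p (V ^ (2 * r) • fun m : ℕ => ∑ x ∈ m.divisorsAntidiagonal, γ x.1 * (if 1 ≤ x.2 ∧ x.2 < 2 then 1 else 0)) := by
    refine hp.congr fun m hm1 hm2 => ?_
    rw [Pi.smul_apply, smul_eq_mul, hγ3 m hm1 hm2, Finset.sum_eq_single (m, 1)]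
    · rw [if_pos ⟨le_rfl, by norm_num⟩, mul_one]
    · intro x hx hne
      have h5 : ¬ (1 ≤ x.2 ∧ x.2 < 2) := by
        intro h
        have h6 : x.2 = 1 := by omega
        obtain ⟨h7, _⟩ := Nat.mem_divisorsAntidiagonal.1 hx
        apply hne
        rw [h6, mul_one] at h7
        exact Prod.ext h7 h6
      rw [if_neg h5, mul_zero]
    · intro h
      exact absurd (Nat.mem_divisorsAntidiagonal.2 ⟨mul_one m, by omega⟩) h
  rw [h4, map_smul_eq_mul, Real.norm_of_nonneg (pow_nonneg hV0 _)]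
  have h5 := h1 1 2 le_rfl (by norm_num) γ hγ1 hγ2
  calc V ^ (2 * r) * _ ≤ V ^ (2 * r) * X := mul_le_mul_of_nonneg_left h5 (pow_nonneg hV0 _)
    _ ≤ V ^ (2 * r + 2) * X := mul_le_mul_of_nonneg_right (pow_le_pow_right₀ par.hV (by omega)) hX

/-- PROOF. `∏ j, dy (k j) (G j) = γ₀ * dy (k i) (G i)`, `γ₀ = ∏ j ∈ univ.erase i`; `γ q = γ₀ q` for `q ≤ N`, `0` for `q > N`; `|γ| ≤ V ^ (2 r)`, `γ q ≠ 0` gives `1 ≤ q ≤ 2 ^ (u + r) ≤ N ^ (2 c)`. If `G i = one1`: `H1` with `B₁ = 2 ^ k i`, `B₂ = 2 ^ (k i + 1)` (`Loc.congr` to replace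
`γ₀` by `γ`). If `G i = logf`: `abel` with the linear map `Q h = fun m => ∑ x ∈ m.divisorsAntidiagonal, γ x.1 * h x.2`, `B₁ = 2 ^ k i`, `B₂ = min (2 ^ (k i + 1)) (N + 1)` (for `m ≤ N` only `x.2 ≤ N` counts), `w b = log b` (`Real.log 0 = 0`; monotone on the
natural numbers), `w b ≤ log N ≤ V` for `b < B₂`; the intervals `[B, B₂)` with `B ≥ 2 ^ k i` satisfy `B₂ ≤ 2 B`. Total `V ^ (2 r) V X`. -/
theorem type1 {ι : Type} [Fintype ι] [DecidableEq ι] {c η : ℝ} {N L u v r : ℕ} {V : ℝ} (par : Par c η N L u v r V) (hr : Fintype.card ι ≤ r) (p : Seminorm ℝ (ℕ → ℝ)) (hp : Loc N p)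
    {X : ℝ} (h1 : H1 c N p X) (k : ι → ℕ) (G : ι → ArithmeticFunction ℝ) (hG : ∀ i, ∀ n, 1 ≤ n → n ≤ N → |G i n| ≤ V)
    (i : ι) (hi : G i = one1 ∨ G i = logf) (hk : ∑ j ∈ univ.erase i, k j < u) : p (fun m => (∏ j, dy (k j) (G j)) m) ≤ V ^ (2 * r + 2) * X := by
  have hX := t1_X h1
  have hV0 : 0 ≤ V := zero_le_one.trans par.hV
  obtain ⟨w, hw1, hw2, hw3, hw4⟩ := t1_w hi (N := N) par.hV par.hVlog
  obtain ⟨γ, hγ1, hγ2, hγ3⟩ := t1_gam par k G hG (univ.erase i) ((Finset.card_erase_le).trans hr) hk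
  have h4 : p (fun m => (∏ j, dy (k j) (G j)) m) =
      p (V ^ (2 * r) • t1_Q γ (fun b => if 2 ^ k i ≤ b ∧ b < min (2 ^ (k i + 1)) (N + 1) then w b else 0)) := by
    refine hp.congr fun m hm1 hm2 => ?_
    rw [← Finset.prod_erase_mul univ (fun j => dy (k j) (G j)) (Finset.mem_univ i), ArithmeticFunction.mul_apply, Pi.smul_apply, smul_eq_mul]
    show _ = V ^ (2 * r) * ∑ x ∈ m.divisorsAntidiagonal, γ x.1 * (if 2 ^ k i ≤ x.2 ∧ x.2 < min (2 ^ (k i + 1)) (N + 1) then w x.2 else 0)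
    rw [Finset.mul_sum]
    refine Finset.sum_congr rfl fun x hx => ?_
    obtain ⟨⟨a1, a2⟩, ⟨b1, b2⟩⟩ := t1_div hm2 hx
    rw [hγ3 x.1 a1 a2, dy_apply, hw4 x.2 b1, mul_assoc]
    congr 2
    have h5 : (x.2 < min (2 ^ (k i + 1)) (N + 1)) ↔ x.2 < 2 ^ (k i + 1) := by
      rw [lt_min_iff]
      exact ⟨fun h => h.1, fun h => ⟨h, by omega⟩⟩
    simp only [h5]
  rw [h4, map_smul_eq_mul, Real.norm_of_nonneg (pow_nonneg hV0 _)]
  have h5 : p (t1_Q γ (fun b => if 2 ^ k i ≤ b ∧ b < min (2 ^ (k i + 1)) (N + 1) then w b else 0)) ≤ V * X := by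
    refine abel p (t1_Q γ) X _ _ (fun B hB => ?_) w hw1 hw2 hV0 (fun b hb => hw3 b ?_)
    · refine h1 B _ ((Nat.one_le_two_pow).trans hB) ?_ γ hγ1 hγ2
      refine (min_le_left _ _).trans ?_
      rw [pow_succ, mul_comm]
      exact Nat.mul_le_mul_left 2 hB
    · have h6 := lt_of_lt_of_le hb (min_le_right _ _)
      omega
  calc V ^ (2 * r) * _ ≤ V ^ (2 * r) * (V * X) := mul_le_mul_of_nonneg_left h5 (pow_nonneg hV0 _)
    _ = V ^ (2 * r + 1) * X := by ring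
    _ ≤ V ^ (2 * r + 2) * X := mul_le_mul_of_nonneg_right (pow_le_pow_right₀ par.hV (by omega)) hX

end Pool.Agent.Lib.H81A
end

-- from Lib.H81A.T3
section

/-!
# H81A, chunk T3 (M/L): boxes with two long variables
-/

namespace Pool.Agent.Lib.H81A

open Finset ArithmeticFunction

noncomputable def t3_Q (γ h h' : ℕ → ℝ) : ℕ → ℝ :=
  fun m => ∑ x ∈ m.divisorsAntidiagonal, γ x.1 * ∑ y ∈ x.2.divisorsAntidiagonal, h y.1 * h' y.2

noncomputable def t3_L1 (γ h' : ℕ → ℝ) : (ℕ → ℝ) →ₗ[ℝ] (ℕ → ℝ) where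
  toFun h := t3_Q γ h h'
  map_add' h1 h2 := by
    funext m
    simp only [t3_Q, Pi.add_apply, add_mul, Finset.sum_add_distrib, mul_add]
  map_smul' c h := by
    funext m
    simp only [t3_Q, Pi.smul_apply, smul_eq_mul, RingHom.id_apply, Finset.mul_sum]
    refine Finset.sum_congr rfl fun x _ => Finset.sum_congr rfl fun y _ => ?_
    ring

noncomputable def t3_L2 (γ h : ℕ → ℝ) : (ℕ → ℝ) →ₗ[ℝ] (ℕ → ℝ) where
  toFun h' := t3_Q γ h h'
  map_add' h1 h2 := by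
    funext m
    simp only [t3_Q, Pi.add_apply, Finset.sum_add_distrib, mul_add]
  map_smul' c h := by
    funext m
    simp only [t3_Q, Pi.smul_apply, smul_eq_mul, RingHom.id_apply, Finset.mul_sum]
    refine Finset.sum_congr rfl fun x _ => Finset.sum_congr rfl fun y _ => ?_
    ring

theorem t3_w {G : ArithmeticFunction ℝ} {N : ℕ} {V : ℝ} (hV : 1 ≤ V) (hlog : Real.log N ≤ V) (hG : G = one1 ∨ G = logf) :
    ∃ w : ℕ → ℝ, Monotone w ∧ 0 ≤ w 0 ∧ (∀ b, b ≤ N → w b ≤ V) ∧ ∀ n, n ≠ 0 → G n = w n := by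
  rcases hG with rfl | rfl
  · exact ⟨fun _ => 1, monotone_const, zero_le_one, fun _ _ => hV, fun n hn => af_apply _ hn⟩
  · have hmono : Monotone fun n : ℕ => Real.log n := by
      intro a b hab
      show Real.log a ≤ Real.log b
      rcases Nat.eq_zero_or_pos a with rfl | ha
      · rw [Nat.cast_zero, Real.log_zero]
        exact Real.log_natCast_nonneg b
      · exact Real.log_le_log (by exact_mod_cast ha) (by exact_mod_cast hab)
    exact ⟨fun n => Real.log n, hmono, by simp, fun b hb => (hmono hb).trans hlog, fun n hn => af_apply _ hn⟩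

/-- PROOF. `s = ∑ j, k j`. If `s ≥ L` the function vanishes on `[1, N]` (`supp`, `N < 2 ^ L`), `p .. = 0` and `0 ≤ X` (`H3` with `γ = 0`, `A₁ = B₁ = 2 ^ (v + 1)`, `A₂ = B₂ = 0`). Otherwise `k i, k j ≥ v + 1` and `k i + k j < L`, so `N ^ (1 / 2 - 2 η) ≤ 2 ^ (v + 1) ≤ 2 ^ k i` and
`2 ^ (k i + 1) ≤ 2 ^ (L - v) ≤ N ^ (1 / 2 + 2 η)`, the same for `j`. `∏ = γ₀ * (dy (k i) (G i) * dy (k j) (G j))`, `γ₀ = ∏ l ∈ (univ.erase i).erase j`; `γ q = γ₀ q` for `q ≤ N`, `0` for `q > N`: `|γ| ≤ V ^ (2 (card - 2))`, support in `[1, 2 ^ (u + r)]`, `2 ^ (u + r) ≤ N ^ (2 c)`.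
If `G i = G j = one1`: `H3`. For `logf`: `abel` once or twice with the linear maps `Q h = fun m => ∑ x ∈ m.divisorsAntidiagonal, γ x.1 * ∑ y ∈ x.2.divisorsAntidiagonal, h y.1 * h' y.2` (in `h` for fixed `h'`, then in `h'` for fixed `h = ` indicator of an interval), upper
ends `min (2 ^ (k + 1)) (N + 1)`, `w = log`, each costs a factor `V`; the intervals satisfy `A₂ ≤ 2 A₁`, `B₂ ≤ 2 B₁` because they lie in `[2 ^ k, 2 ^ (k + 1))`. Total `V ^ (2 (card - 2)) V ^ 2 X ≤ V ^ (2 r + 2) X`. -/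
theorem type3 {ι : Type} [Fintype ι] [DecidableEq ι] {c η : ℝ} {N L u v r : ℕ} {V : ℝ} (par : Par c η N L u v r V) (hr : Fintype.card ι ≤ r) (p : Seminorm ℝ (ℕ → ℝ)) (hp : Loc N p)
    {X : ℝ} (h3 : H3 c η N p X) (k : ι → ℕ) (G : ι → ArithmeticFunction ℝ) (hG : ∀ i, ∀ n, 1 ≤ n → n ≤ N → |G i n| ≤ V)
    (i j : ι) (hij : i ≠ j) (hi : G i = one1 ∨ G i = logf) (hj : G j = one1 ∨ G j = logf) (hki : v < k i) (hkj : v < k j)
    (hk : ∑ l ∈ (univ.erase i).erase j, k l < u) : p (fun m => (∏ j, dy (k j) (G j)) m) ≤ V ^ (2 * r + 2) * X := by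
  have hV0 : (0 : ℝ) ≤ V := zero_le_one.trans par.hV
  set S := (univ.erase i).erase j with hS
  have hji : j ∈ (univ.erase i : Finset ι) := Finset.mem_erase.2 ⟨hij.symm, Finset.mem_univ j⟩
  have hcard : S.card + 2 = Fintype.card ι := by
    have h1 := Finset.card_erase_add_one hji
    have h2 := Finset.card_erase_add_one (Finset.mem_univ i)
    rw [← hS] at h1
    rw [← Finset.card_univ]
    omega
  have hprod : ∏ l, dy (k l) (G l) = (∏ l ∈ S, dy (k l) (G l)) * (dy (k i) (G i) * dy (k j) (G j)) := by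
    rw [← Finset.mul_prod_erase _ _ (Finset.mem_univ i), ← Finset.mul_prod_erase _ _ hji, ← hS]
    ring
  have hsum : ∑ l, k l = ∑ l ∈ S, k l + (k i + k j) := by
    rw [← Finset.add_sum_erase _ _ (Finset.mem_univ i), ← Finset.add_sum_erase _ _ hji, ← hS]
    ring
  have hX0 : 0 ≤ X := by
    refine (apply_nonneg p _).trans (h3 (2 ^ (v + 1)) 0 (2 ^ (v + 1)) 0 ?_ ?_ ?_ ?_ (by simp) (by simp) (fun _ => 0)
      (fun q => by simp) (fun q hq => absurd rfl hq))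
    · push_cast; exact par.hA
    · push_cast; positivity
    · push_cast; exact par.hA
    · push_cast; positivity
  rcases le_or_gt L (∑ l, k l) with hL | hL
  · have h0 : p (fun m => (∏ j, dy (k j) (G j)) m) = 0 := by
      refine hp _ fun m hm hmN => ?_
      by_contra hne
      have h1 := (supp univ k G hne).1
      have h2 : 2 ^ L ≤ 2 ^ (∑ l, k l) := Nat.pow_le_pow_right (by norm_num) hL
      have h4 := par.hL
      omega
    rw [h0]
    positivity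
  · set W : ℝ := (V * V) ^ S.card with hW
    have hVV : 1 ≤ V * V := by nlinarith [par.hV]
    have hW1 : 1 ≤ W := one_le_pow₀ hVV
    have hW0 : 0 < W := by linarith
    set γ₀ := ∏ l ∈ S, dy (k l) (G l) with hγ₀
    set γ : ℕ → ℝ := fun q => if q ≤ N then W⁻¹ * γ₀ q else 0 with hγ
    have hγ1 : ∀ q, |γ q| ≤ 1 := by
      intro q
      show |if q ≤ N then W⁻¹ * γ₀ q else 0| ≤ 1
      split_ifs with hq
      · rcases Nat.eq_zero_or_pos q with rfl | hq0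
        · rw [ArithmeticFunction.map_zero, mul_zero, abs_zero]
          exact zero_le_one
        · rw [abs_mul, abs_of_pos (inv_pos.2 hW0), inv_mul_le_iff₀ hW0, mul_one]
          exact bound S _ par.hV par.hV (fun l _ n hn hnN => bd_dy _ _ (hG l n hn hnN)) par.hVd hq0 hq
      · rw [abs_zero]
        exact zero_le_one
    have hγ2 : ∀ q : ℕ, γ q ≠ 0 → 1 ≤ q ∧ (q : ℝ) ≤ (N : ℝ) ^ (2 * c) := by
      intro q hq
      have h1 : q ≤ N ∧ γ₀ q ≠ 0 := by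
        by_contra h
        apply hq
        show (if q ≤ N then W⁻¹ * γ₀ q else 0) = 0
        split_ifs with h2
        · by_contra h4
          exact h ⟨h2, fun h5 => h4 (by rw [h5, mul_zero])⟩
        · rfl
      obtain ⟨h2, h4⟩ := supp S k G h1.2
      refine ⟨?_, ?_⟩
      · exact le_trans Nat.one_le_two_pow h2
      · have h5 : q ≤ 2 ^ (u + r) := h4.trans (Nat.pow_le_pow_right (by norm_num) (by omega))
        have h6 : (q : ℝ) ≤ 2 ^ (u + r) := by exact_mod_cast h5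
        exact h6.trans par.hq
    obtain ⟨wi, hwi1, hwi2, hwi3, hwi4⟩ := t3_w par.hV par.hVlog hi
    obtain ⟨wj, hwj1, hwj2, hwj3, hwj4⟩ := t3_w par.hV par.hVlog hj
    set A₁ := 2 ^ (k i) with hA₁
    set A₂ := min (2 ^ (k i + 1)) (N + 1) with hA₂
    set B₁ := 2 ^ (k j) with hB₁
    set B₂ := min (2 ^ (k j + 1)) (N + 1) with hB₂
    have hdy : ∀ (l : ι) (w : ℕ → ℝ), (∀ n, n ≠ 0 → G l n = w n) → ∀ n, n ≠ 0 → n ≤ N →
        dy (k l) (G l) n = if 2 ^ (k l) ≤ n ∧ n < min (2 ^ (k l + 1)) (N + 1) then w n else 0 := by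
      intro l w hw n hn hnN
      rw [dy_apply]
      have h1 : (2 ^ (k l) ≤ n ∧ n < 2 ^ (k l + 1)) ↔ (2 ^ (k l) ≤ n ∧ n < min (2 ^ (k l + 1)) (N + 1)) := by
        rw [lt_min_iff]
        constructor
        · rintro ⟨a, b⟩
          exact ⟨a, b, by omega⟩
        · rintro ⟨a, b, -⟩
          exact ⟨a, b⟩
      by_cases h2 : 2 ^ (k l) ≤ n ∧ n < 2 ^ (k l + 1)
      · rw [if_pos h2, if_pos (h1.1 h2), hw n hn]
      · rw [if_neg h2, if_neg fun h => h2 (h1.2 h)]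
    have hfun : p (fun m => (∏ l, dy (k l) (G l)) m) = W * p (t3_Q γ
        (fun a => if A₁ ≤ a ∧ a < A₂ then wi a else 0) (fun b => if B₁ ≤ b ∧ b < B₂ then wj b else 0)) := by
      rw [← Real.norm_of_nonneg hW0.le, ← map_smul_eq_mul p]
      refine hp.congr fun m hm hmN => ?_
      rw [hprod, ArithmeticFunction.mul_apply, Pi.smul_apply, smul_eq_mul, t3_Q, Finset.mul_sum]
      refine Finset.sum_congr rfl fun x hx => ?_
      have hx' := Nat.mem_divisorsAntidiagonal.1 hx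
      have hx1 : x.1 ≤ m := Nat.divisor_le (Nat.fst_mem_divisors_of_mem_antidiagonal hx)
      have hx2 : x.2 ≤ m := Nat.divisor_le (Nat.snd_mem_divisors_of_mem_antidiagonal hx)
      have hγx : γ x.1 = W⁻¹ * γ₀ x.1 := if_pos (hx1.trans hmN)
      rw [hγx, ArithmeticFunction.mul_apply]
      have h1 : ∑ y ∈ x.2.divisorsAntidiagonal, dy (k i) (G i) y.1 * dy (k j) (G j) y.2 =
          ∑ y ∈ x.2.divisorsAntidiagonal, (if A₁ ≤ y.1 ∧ y.1 < A₂ then wi y.1 else 0) *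
            (if B₁ ≤ y.2 ∧ y.2 < B₂ then wj y.2 else 0) := by
        refine Finset.sum_congr rfl fun y hy => ?_
        have hy' := Nat.mem_divisorsAntidiagonal.1 hy
        have hy1 : y.1 ≤ x.2 := Nat.divisor_le (Nat.fst_mem_divisors_of_mem_antidiagonal hy)
        have hy2 : y.2 ≤ x.2 := Nat.divisor_le (Nat.snd_mem_divisors_of_mem_antidiagonal hy)
        have hn1 : y.1 ≠ 0 := fun h => hy'.2 (by rw [← hy'.1, h, zero_mul])
        have hn2 : y.2 ≠ 0 := fun h => hy'.2 (by rw [← hy'.1, h, mul_zero])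
        rw [hdy i wi hwi4 _ hn1 (by omega), hdy j wj hwj4 _ hn2 (by omega)]
      rw [h1]
      have h2 : W * W⁻¹ = 1 := mul_inv_cancel₀ hW0.ne'
      calc γ₀ x.1 * _ = (W * W⁻¹) * (γ₀ x.1 * _) := by rw [h2, one_mul]
        _ = _ := by ring
    have hin : ∀ A B, A₁ ≤ A → B₁ ≤ B → p (t3_Q γ (fun a => if A ≤ a ∧ a < A₂ then 1 else 0)
        (fun b => if B ≤ b ∧ b < B₂ then 1 else 0)) ≤ X := by
      intro A B hA hB
      have hlow : ∀ l, v < k l → ∀ A : ℕ, 2 ^ (k l) ≤ A → (N : ℝ) ^ (1 / 2 - 2 * η) ≤ (A : ℝ) := by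
        intro l hl A hA
        refine par.hA.trans ?_
        have h1 : 2 ^ (v + 1) ≤ A := (Nat.pow_le_pow_right (by norm_num) (by omega)).trans hA
        exact_mod_cast h1
      have hupp : ∀ l, k l + 1 ≤ L - v → ((min (2 ^ (k l + 1)) (N + 1) : ℕ) : ℝ) ≤ (N : ℝ) ^ (1 / 2 + 2 * η) := by
        intro l hl
        refine le_trans ?_ par.hB
        have h1 : min (2 ^ (k l + 1)) (N + 1) ≤ 2 ^ (L - v) :=
          (min_le_left _ _).trans (Nat.pow_le_pow_right (by norm_num) hl)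
        exact_mod_cast h1
      have hdbl : ∀ l A, 2 ^ (k l) ≤ A → min (2 ^ (k l + 1)) (N + 1) ≤ 2 * A := by
        intro l A hA
        refine (min_le_left _ _).trans ?_
        rw [pow_succ]
        omega
      exact h3 A A₂ B B₂ (hlow i hki A hA) (hupp i (by omega)) (hlow j hkj B hB) (hupp j (by omega))
        (hdbl i A hA) (hdbl j B hB) γ hγ1 hγ2
    have hin2 : ∀ A, A₁ ≤ A → p (t3_L1 γ (fun b => if B₁ ≤ b ∧ b < B₂ then wj b else 0)
        (fun a => if A ≤ a ∧ a < A₂ then 1 else 0)) ≤ V * X := by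
      intro A hA
      exact abel p (t3_L2 γ (fun a => if A ≤ a ∧ a < A₂ then 1 else 0)) X B₁ B₂ (fun B hB => hin A B hA hB)
        wj hwj1 hwj2 hV0 (fun b hb => hwj3 b (by rw [hB₂, lt_min_iff] at hb; omega))
    have hin3 : p (t3_L1 γ (fun b => if B₁ ≤ b ∧ b < B₂ then wj b else 0)
        (fun a => if A₁ ≤ a ∧ a < A₂ then wi a else 0)) ≤ V * (V * X) :=
      abel p (t3_L1 γ (fun b => if B₁ ≤ b ∧ b < B₂ then wj b else 0)) (V * X) A₁ A₂ hin2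
        wi hwi1 hwi2 hV0 (fun b hb => hwi3 b (by rw [hA₂, lt_min_iff] at hb; omega))
    rw [hfun]
    calc W * p _ ≤ W * (V * (V * X)) := mul_le_mul_of_nonneg_left hin3 hW0.le
      _ = V ^ (2 * S.card + 2) * X := by
        rw [hW, ← sq, ← pow_mul, pow_add]
        ring
      _ ≤ V ^ (2 * r + 2) * X := mul_le_mul_of_nonneg_right (pow_le_pow_right₀ par.hV (by omega)) hX0

end Pool.Agent.Lib.H81A
end

-- from Lib.H21T.V1
section

/-!
# Chunk V1 (M): Vinogradov lemma in one variable, with a varying denominator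
-/

namespace Pool.Agent.Lib.H21T

open Finset Pool.Agent.SZW

/-- Pigeonhole: some `q ≤ Q1` serves at least `η T / Q1` elements `t` of `Bd`; let `G` be the set of these `t`. Apply
`Pool.Agent.SZW.recurrence` (with `κ = Unit`, `β = 0`) to `A = G`, `N = T + 1`, `ρ = η / (2 Q1)` (`ρ (T + 1) ≤ η T / Q1` as `T ≥ 1`), `ε = δ1` and
`α j = q α` (for `t ∈ G`: `nn (t * (q * α)) ≤ δ1` by commutativity). `8 / ρ ^ 2 = 32 Q1 ^ 2 / η ^ 2 ≤ T`, `32 δ1 ≤ ρ`. It gives `q'` with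
`1 ≤ q' ≤ 2 / ρ = 4 Q1 / η` and `nn (q' * (q * α)) ≤ 16 δ1 / (ρ ^ 2 (T + 1)) ≤ 64 Q1 ^ 2 δ1 / (η ^ 2 T)`; take `r = q' q`. -/
theorem v1 (Q1 T : ℕ) (η δ1 α : ℝ) (Bd : Finset ℕ) (hQ : 1 ≤ Q1) (hT : 1 ≤ T) (hη : 0 < η) (hη1 : η ≤ 1) (hδ : 0 ≤ δ1)
    (h8 : 32 * (Q1 : ℝ) ^ 2 / η ^ 2 ≤ T) (h32 : 64 * (Q1 : ℝ) * δ1 ≤ η) (hB : ∀ t ∈ Bd, 1 ≤ t ∧ t ≤ T)
    (hc : η * T ≤ Bd.card) (hq : ∀ t ∈ Bd, ∃ q : ℕ, 1 ≤ q ∧ q ≤ Q1 ∧ nn (q * (t * α)) ≤ δ1) :
    ∃ r : ℕ, 1 ≤ r ∧ (r : ℝ) ≤ 4 * (Q1 : ℝ) ^ 2 / η ∧ nn (r * α) ≤ 64 * (Q1 : ℝ) ^ 2 * δ1 / (η ^ 2 * T) := by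
  classical
  have hQ0 : (0 : ℝ) < Q1 := by exact_mod_cast hQ
  have hQ1 : (1 : ℝ) ≤ Q1 := by exact_mod_cast hQ
  have hT1 : (1 : ℝ) ≤ T := by exact_mod_cast hT
  choose! q hq1 hq2 hq3 using hq
  obtain ⟨y, hy, hyc⟩ := Finset.exists_le_card_fiber_of_nsmul_le_card_of_maps_to (M := ℝ)
    (s := Bd) (t := Icc 1 Q1) (f := q) (b := η * T / Q1)
    (fun t ht => mem_Icc.2 ⟨hq1 t ht, hq2 t ht⟩) (nonempty_Icc.2 hQ) (by
      rw [Nat.card_Icc, Nat.add_sub_cancel, nsmul_eq_mul, mul_div_cancel₀ _ hQ0.ne']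
      exact hc)
  rw [mem_Icc] at hy
  have hy0 : (1 : ℝ) ≤ y := by exact_mod_cast hy.1
  have hyQ : (y : ℝ) ≤ Q1 := by exact_mod_cast hy.2
  obtain ⟨ρ, hρ⟩ : ∃ ρ, ρ = η / (2 * Q1) := ⟨_, rfl⟩
  have hρ0 : 0 < ρ := by
    rw [hρ]
    positivity
  have hρQ : ρ * (2 * Q1) = η := by
    rw [hρ]
    field_simp
  have hρ1 : ρ ≤ 1 := by
    rw [hρ, div_le_one (by positivity)]
    linarith
  obtain ⟨q', h1, h2, h3⟩ := recurrence (κ := Unit) (A := Bd.filter fun t => q t = y) (N := T + 1)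
    (ρ := ρ) (ε := δ1) (α := fun _ => y * α) (β := fun _ => 0) hρ0 hρ1 (by
      have e : 8 / ρ ^ 2 = 32 * (Q1 : ℝ) ^ 2 / η ^ 2 := by
        rw [hρ]
        field_simp
        ring
      rw [e]
      push_cast
      linarith) hδ (by
      nlinarith) (fun n hn => by
      have := hB n (mem_filter.1 hn).1
      omega) (by
      refine le_trans ?_ hyc
      rw [le_div_iff₀ hQ0]
      push_cast
      have : ρ * (T + 1) * Q1 = η * (T + 1) / 2 := by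
        rw [← hρQ]
        ring
      rw [this]
      nlinarith) (fun n hn _ => by
      rw [mem_filter] at hn
      have := hq3 n hn.1
      rw [hn.2] at this
      have e : (n : ℝ) * (y * α) + 0 = y * (n * α) := by ring
      rw [e]
      exact this)
  have h4 := h3 ()
  refine ⟨q' * y, Nat.mul_pos h1 hy.1, ?_, ?_⟩
  · push_cast
    have e : 2 / ρ * Q1 = 4 * (Q1 : ℝ) ^ 2 / η := by
      rw [hρ]
      field_simp
      ring
    rw [← e]
    exact mul_le_mul h2 hyQ (by linarith) (by positivity)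
  · push_cast
    rw [mul_assoc]
    refine h4.trans ?_
    have e : 64 * (Q1 : ℝ) ^ 2 * δ1 / (η ^ 2 * T) = 16 * δ1 / (ρ ^ 2 * T) := by
      rw [hρ]
      field_simp
      ring
    rw [e]
    refine div_le_div_of_nonneg_left (by positivity) (by positivity) ?_
    push_cast
    exact mul_le_mul_of_nonneg_left (by linarith) (by positivity)

end Pool.Agent.Lib.H21T
end

-- from Lib.H21T.V2
section

/-!
# Chunk V2 (M): Vinogradov lemma in two variables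
-/

namespace Pool.Agent.Lib.H21T

open Finset Pool.Agent.SZW

/-- For `s ≤ S` let `Bd_s = {t : (s, t) ∈ Bd}` and `S' = {s : |Bd_s| ≥ (η / 2) T}`. As `η S T ≤ |Bd| = ∑_{s} |Bd_s| ≤ |S'| T + S (η / 2) T`,
`|S'| ≥ (η / 2) S`. For `s ∈ S'` apply `v1` to `Bd_s`, `η / 2`, `δ1` and `s α` in place of `α` (`q * ((s * t) * α) = q * (t * (s * α))`;
conditions: `32 Q1 ^ 2 / (η / 2) ^ 2 = 128 Q1 ^ 2 / η ^ 2 ≤ 2 ^ 13 Q1 ^ 4 / η ^ 4 ≤ T`; `64 Q1 δ1 ≤ η / 2` is `h7`): there is `r` with `1 ≤ r`,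
`r ≤ 8 Q1 ^ 2 / η`, so `r ≤ Q2 := ⌊8 Q1 ^ 2 / η⌋₊`, and `nn (r * (s * α)) ≤ δ2 := 256 Q1 ^ 2 δ1 / (η ^ 2 T)`. Apply `v1` to `S'`, `Q2`, `S`, `η / 2`, `δ2`:
`32 Q2 ^ 2 / (η / 2) ^ 2 ≤ 128 * 64 Q1 ^ 4 / η ^ 4 ≤ S`; `64 Q2 δ2 ≤ 2 ^ 17 Q1 ^ 4 δ1 / (η ^ 3 T) ≤ η / 2` by `h18`. The result is `r'` with
`r' ≤ 4 Q2 ^ 2 / (η / 2) ≤ 512 Q1 ^ 4 / η ^ 3` and `nn (r' * α) ≤ 64 Q2 ^ 2 δ2 / ((η / 2) ^ 2 S) ≤ 2 ^ 22 Q1 ^ 6 δ1 / (η ^ 6 S T)`. -/
theorem v2 (Q1 S T : ℕ) (η δ1 α : ℝ) (Bd : Finset (ℕ × ℕ)) (hQ : 1 ≤ Q1) (hS1 : 1 ≤ S) (hT1 : 1 ≤ T) (hη : 0 < η) (hη1 : η ≤ 1)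
    (hδ : 0 ≤ δ1) (hS : 2 ^ 13 * (Q1 : ℝ) ^ 4 / η ^ 4 ≤ S) (hT : 2 ^ 13 * (Q1 : ℝ) ^ 4 / η ^ 4 ≤ T) (h7 : 128 * (Q1 : ℝ) * δ1 ≤ η)
    (h18 : 2 ^ 18 * (Q1 : ℝ) ^ 4 * δ1 ≤ η ^ 4 * T) (hB : ∀ p ∈ Bd, 1 ≤ p.1 ∧ p.1 ≤ S ∧ 1 ≤ p.2 ∧ p.2 ≤ T)
    (hc : η * (S * T) ≤ Bd.card) (hq : ∀ p ∈ Bd, ∃ q : ℕ, 1 ≤ q ∧ q ≤ Q1 ∧ nn (q * (((p.1 : ℝ) * p.2) * α)) ≤ δ1) :
    ∃ r : ℕ, 1 ≤ r ∧ (r : ℝ) ≤ 512 * (Q1 : ℝ) ^ 4 / η ^ 3 ∧ nn (r * α) ≤ 2 ^ 22 * (Q1 : ℝ) ^ 6 * δ1 / (η ^ 6 * S * T) := by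
  classical
  have hQ1 : (1 : ℝ) ≤ Q1 := by exact_mod_cast hQ
  have hSr : (1 : ℝ) ≤ S := by exact_mod_cast hS1
  have hTr : (1 : ℝ) ≤ T := by exact_mod_cast hT1
  obtain ⟨F, hF⟩ : ∃ F : ℕ → Finset ℕ, F = fun s => (Bd.filter fun p => p.1 = s).image Prod.snd :=
    ⟨_, rfl⟩
  have hmemF : ∀ s t, t ∈ F s ↔ (s, t) ∈ Bd := by
    intro s t
    rw [hF]
    simp only [mem_image, mem_filter]
    constructor
    · rintro ⟨p, ⟨hp, rfl⟩, rfl⟩
      exact hp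
    · intro h
      exact ⟨(s, t), ⟨h, rfl⟩, rfl⟩
  have hFc : ∀ s, (F s).card = (Bd.filter fun p => p.1 = s).card := by
    intro s
    rw [hF]
    refine card_image_of_injOn ?_
    intro p hp p' hp' h
    rw [mem_coe, mem_filter] at hp hp'
    exact Prod.ext (hp.2.trans hp'.2.symm) h
  have hFT : ∀ s, ((F s).card : ℝ) ≤ T := by
    intro s
    have h1 : F s ⊆ Icc 1 T := by
      intro t ht
      have := hB _ ((hmemF s t).1 ht)
      exact mem_Icc.2 ⟨this.2.2.1, this.2.2.2⟩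
    have h2 := card_le_card h1
    rw [Nat.card_Icc, Nat.add_sub_cancel] at h2
    exact_mod_cast h2
  have hsum : (Bd.card : ℝ) = ∑ s ∈ Icc 1 S, ((F s).card : ℝ) := by
    have h1 := card_eq_sum_card_fiberwise (f := Prod.fst) (s := Bd) (t := Icc 1 S) fun p hp => by
      have := hB p hp
      exact mem_coe.2 (mem_Icc.2 ⟨this.1, this.2.1⟩)
    rw [h1]
    push_cast
    refine sum_congr rfl fun s _ => ?_
    rw [hFc]
  obtain ⟨S', hS'⟩ : ∃ S', S' = (Icc 1 S).filter fun s => η / 2 * T ≤ (F s).card := ⟨_, rfl⟩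
  have hS'c : η / 2 * S ≤ S'.card := by
    have h1 : (Bd.card : ℝ) ≤ S'.card * T + S * (η / 2 * T) := by
      rw [hsum, ← sum_filter_add_sum_filter_not (Icc 1 S) (fun s => η / 2 * T ≤ (F s).card),
        ← hS']
      refine add_le_add ?_ ?_
      · rw [← nsmul_eq_mul]
        exact sum_le_card_nsmul _ _ _ fun s _ => hFT s
      · have h2 : ∑ s ∈ (Icc 1 S).filter (fun s => ¬ η / 2 * T ≤ (F s).card), ((F s).card : ℝ) ≤
            ((Icc 1 S).filter (fun s => ¬ η / 2 * T ≤ (F s).card)).card • (η / 2 * T) :=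
          sum_le_card_nsmul _ _ _ fun s hs => (not_le.1 (mem_filter.1 hs).2).le
        refine h2.trans ?_
        rw [nsmul_eq_mul]
        refine mul_le_mul_of_nonneg_right ?_ (by positivity)
        have h3 := card_filter_le (Icc 1 S) (fun s => ¬ η / 2 * T ≤ (F s).card)
        rw [Nat.card_Icc, Nat.add_sub_cancel] at h3
        exact_mod_cast h3
    have h2 : η / 2 * S * T ≤ S'.card * T := by nlinarith
    exact le_of_mul_le_mul_right h2 (by linarith)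
  obtain ⟨Q2, hQ2⟩ : ∃ Q2 : ℕ, Q2 = ⌊8 * (Q1 : ℝ) ^ 2 / η⌋₊ := ⟨_, rfl⟩
  have hQ2r : (Q2 : ℝ) ≤ 8 * (Q1 : ℝ) ^ 2 / η := by
    rw [hQ2]
    exact Nat.floor_le (by positivity)
  have h8 : (1 : ℝ) ≤ 8 * (Q1 : ℝ) ^ 2 / η := by
    rw [le_div_iff₀ hη]
    nlinarith
  have hQ21 : 1 ≤ Q2 := by
    rw [hQ2]
    exact Nat.le_floor (by exact_mod_cast h8)
  have hQ2r1 : (1 : ℝ) ≤ Q2 := by exact_mod_cast hQ21
  obtain ⟨δ2, hδ2⟩ : ∃ δ2, δ2 = 256 * (Q1 : ℝ) ^ 2 * δ1 / (η ^ 2 * T) := ⟨_, rfl⟩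
  have hδ20 : 0 ≤ δ2 := by
    rw [hδ2]
    positivity
  have hQ4 : (Q1 : ℝ) ^ 2 ≤ (Q1 : ℝ) ^ 4 := pow_le_pow_right₀ hQ1 (by norm_num)
  have hη4 : η ^ 4 ≤ η ^ 2 := pow_le_pow_of_le_one hη.le hη1 (by norm_num)
  have step : ∀ s ∈ S', ∃ r : ℕ, 1 ≤ r ∧ r ≤ Q2 ∧ nn (r * (s * α)) ≤ δ2 := by
    intro s hs
    rw [hS', mem_filter] at hs
    obtain ⟨r, h1, h2, h3⟩ := v1 Q1 T (η / 2) δ1 (s * α) (F s) hQ hT1 (by positivity) (by linarith) hδ
      (by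
        refine le_trans ?_ hT
        have e : 32 * (Q1 : ℝ) ^ 2 / (η / 2) ^ 2 = 128 * (Q1 : ℝ) ^ 2 / η ^ 2 := by
          field_simp
          ring
        rw [e, div_le_div_iff₀ (by positivity) (by positivity)]
        have h4 : 128 * (Q1 : ℝ) ^ 2 ≤ 2 ^ 13 * (Q1 : ℝ) ^ 4 := by nlinarith
        exact mul_le_mul h4 hη4 (by positivity) (by positivity))
      (by linarith)
      (fun t ht => by
        have := hB _ ((hmemF s t).1 ht)
        exact ⟨this.2.2.1, this.2.2.2⟩)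
      hs.2
      (fun t ht => by
        obtain ⟨q, h5, h6, h7⟩ := hq _ ((hmemF s t).1 ht)
        refine ⟨q, h5, h6, ?_⟩
        have e : (q : ℝ) * ((t : ℝ) * ((s : ℝ) * α)) = q * (((s : ℝ) * t) * α) := by ring
        rw [e]
        exact h7)
    refine ⟨r, h1, ?_, h3.trans (le_of_eq ?_)⟩
    · rw [hQ2]
      refine Nat.le_floor (h2.trans (le_of_eq ?_))
      field_simp
      ring
    · rw [hδ2]
      field_simp
      ring
  have hQ2sq : (Q2 : ℝ) ^ 2 ≤ 64 * (Q1 : ℝ) ^ 4 / η ^ 2 := by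
    have h1 := pow_le_pow_left₀ (by linarith) hQ2r 2
    have e : (8 * (Q1 : ℝ) ^ 2 / η) ^ 2 = 64 * (Q1 : ℝ) ^ 4 / η ^ 2 := by
      field_simp
      ring
    rwa [e] at h1
  obtain ⟨r, h1, h2, h3⟩ := v1 Q2 S (η / 2) δ2 α S' hQ21 hS1 (by positivity) (by linarith) hδ20
    (by
      refine le_trans ?_ hS
      have e : 32 * (Q2 : ℝ) ^ 2 / (η / 2) ^ 2 = 128 / η ^ 2 * (Q2 : ℝ) ^ 2 := by
        field_simp
        ring
      rw [e]
      refine (mul_le_mul_of_nonneg_left hQ2sq (by positivity)).trans (le_of_eq ?_)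
      field_simp
      ring)
    (by
      have h4 : 64 * (Q2 : ℝ) * δ2 ≤ 64 * (8 * (Q1 : ℝ) ^ 2 / η) * δ2 :=
        mul_le_mul_of_nonneg_right (mul_le_mul_of_nonneg_left hQ2r (by norm_num)) hδ20
      refine h4.trans ?_
      have e : 64 * (8 * (Q1 : ℝ) ^ 2 / η) * δ2 = 2 ^ 17 * (Q1 : ℝ) ^ 4 * δ1 / (η ^ 3 * T) := by
        rw [hδ2]
        field_simp
        ring
      rw [e, div_le_div_iff₀ (by positivity) (by norm_num)]
      have e2 : η * (η ^ 3 * T) = η ^ 4 * T := by ring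
      rw [e2]
      nlinarith)
    (fun s hs => by
      rw [hS', mem_filter, mem_Icc] at hs
      exact hs.1)
    (by linarith) step
  refine ⟨r, h1, h2.trans ?_, h3.trans ?_⟩
  · have e : 4 * (Q2 : ℝ) ^ 2 / (η / 2) = 8 / η * (Q2 : ℝ) ^ 2 := by
      field_simp
      ring
    rw [e]
    refine (mul_le_mul_of_nonneg_left hQ2sq (by positivity)).trans (le_of_eq ?_)
    field_simp
    ring
  · have e : 64 * (Q2 : ℝ) ^ 2 * δ2 / ((η / 2) ^ 2 * S) = 256 * δ2 / (η ^ 2 * S) * (Q2 : ℝ) ^ 2 := by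
      field_simp
      ring
    rw [e]
    refine (mul_le_mul_of_nonneg_left hQ2sq (by positivity)).trans (le_of_eq ?_)
    rw [hδ2]
    field_simp
    ring

end Pool.Agent.Lib.H21T
end
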