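import Pool.Agent.Lib.H1M.RV3.M004

/-! Merged copies (to shorten the build) of Lib.H21T.F2, Lib.H21T.S2, Lib.H21T.F3, Lib.H21T.S1, Lib.H21T.S4, Lib.H21T.F4, Lib.H21T.S7, Lib.H21T.S3, Lib.H21T.S5, Lib.H21T.S6. -/

-- from Lib.H21T.F2
section

/-!
# Chunk F2 (S/M): variation of the slope x / a^2
-/

namespace Pool.Agent.Lib.H21T

open Finset Pool.Agent.SZW

/-- From `hup` and `hx`: `A ^ 2 Λ S ^ 2 ≤ 2 x Λ S ^ 2 ≤ A ^ 3`, and `A ≥ 1`. -/
theorem f2_small {A x X S Λ : ℕ} (G : Geo A x X S Λ) : Λ * S ^ 2 ≤ A := by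
  have h1 := G.hup
  have h2 := G.hx
  have h3 := G.hA
  have h4 : A ^ 2 * (Λ * S ^ 2) ≤ A ^ 2 * A := by
    calc A ^ 2 * (Λ * S ^ 2) ≤ (2 * x) * (Λ * S ^ 2) := Nat.mul_le_mul_right _ h2
      _ = 2 * x * Λ * S ^ 2 := by ring
      _ ≤ A ^ 3 := h1
      _ = A ^ 2 * A := by ring
  exact Nat.le_of_mul_le_mul_left h4 (by positivity)

theorem f2_real {A x X S Λ : ℕ} (G : Geo A x X S Λ) : (1 : ℝ) ≤ A ∧ (1 : ℝ) ≤ S ∧ (1 : ℝ) ≤ Λ ∧ (Λ : ℝ) ≤ A ∧
    2 * (x : ℝ) * Λ * S ^ 2 ≤ (A : ℝ) ^ 3 ∧ (A : ℝ) ^ 3 ≤ 4 * x * Λ * S ^ 2 := by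
  have hS := G.hS
  have h5 : Λ ≤ A := by
    have h6 := f2_small G
    have h7 : Λ * 1 ≤ Λ * S ^ 2 := Nat.mul_le_mul_left _ (Nat.one_le_pow _ _ hS)
    omega
  have h1 := G.hA
  have h2 := G.hΛ
  have h3 := G.hup
  have h4 := G.hlo
  exact ⟨by exact_mod_cast h1, by exact_mod_cast hS, by exact_mod_cast h2, by exact_mod_cast h5, by exact_mod_cast h3,
    by exact_mod_cast h4⟩

/-- `x / a ^ 2 - x / (a + Λ) ^ 2 = x Λ (2 a + Λ) / (a ^ 2 (a + Λ) ^ 2) ≥ x Λ / (a ^ 2 (a + Λ)) ≥ x Λ / (4 A ^ 2 * 3 A)` (`Λ ≤ A` by `f2_small`)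
`≥ 1 / (48 S ^ 2)` by `hlo`. -/
theorem f2_gap {A x X S Λ : ℕ} (G : Geo A x X S Λ) {a : ℕ} (h1 : A ≤ a) (h2 : a ≤ 2 * A) :
    1 / (48 * (S : ℝ) ^ 2) ≤ (x : ℝ) / (a : ℝ) ^ 2 - (x : ℝ) / ((a : ℝ) + Λ) ^ 2 := by
  obtain ⟨hA, hS, hΛ, hΛA, hup, hlo⟩ := f2_real G
  have h1' : (A : ℝ) ≤ a := by exact_mod_cast h1
  have h2' : (a : ℝ) ≤ 2 * A := by exact_mod_cast h2
  have hx0 : (0 : ℝ) ≤ x := Nat.cast_nonneg x
  have ha0 : (0 : ℝ) < a := by linarith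
  have haΛ : (0 : ℝ) < (a : ℝ) + Λ := by linarith
  have hS0 : (0 : ℝ) < S := by linarith
  have e1 : (x : ℝ) / (a : ℝ) ^ 2 - (x : ℝ) / ((a : ℝ) + Λ) ^ 2 =
      x * Λ * (2 * a + Λ) / ((a : ℝ) ^ 2 * ((a : ℝ) + Λ) ^ 2) := by
    field_simp
    ring
  rw [e1]
  have e2 : (x : ℝ) * Λ / ((a : ℝ) ^ 2 * ((a : ℝ) + Λ)) ≤
      x * Λ * (2 * a + Λ) / ((a : ℝ) ^ 2 * ((a : ℝ) + Λ) ^ 2) := by
    rw [div_le_div_iff₀ (by positivity) (by positivity)]
    have h3 : (0 : ℝ) ≤ x * Λ * (a : ℝ) ^ 2 * ((a : ℝ) + Λ) * a := by positivity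
    nlinarith [h3]
  refine le_trans ?_ e2
  have e3 : (a : ℝ) ^ 2 * ((a : ℝ) + Λ) ≤ 4 * A ^ 2 * (3 * A) := by
    apply mul_le_mul
    · calc (a : ℝ) ^ 2 ≤ (2 * A) ^ 2 := pow_le_pow_left₀ ha0.le h2' 2
        _ = 4 * A ^ 2 := by ring
    · linarith
    · linarith
    · positivity
  rw [div_le_div_iff₀ (by positivity) (by positivity)]
  have e4 : (4 : ℝ) * A ^ 2 * (3 * A) = 12 * (A : ℝ) ^ 3 := by ring
  have e5 : (x : ℝ) * Λ * (48 * (S : ℝ) ^ 2) = 12 * (4 * (x : ℝ) * Λ * (S : ℝ) ^ 2) := by ring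
  rw [e4] at e3
  rw [e5]
  linarith

/-- `x / (a a')` lies between `x / (a0 + Λ) ^ 2` and `x / a0 ^ 2`, whose difference is
`x Λ (2 a0 + Λ) / (a0 ^ 2 (a0 + Λ) ^ 2) ≤ 2 x Λ / (a0 ^ 2 (a0 + Λ)) ≤ 2 x Λ / A ^ 3 ≤ 1 / S ^ 2` (`hup`). -/
theorem f2_var {A x X S Λ : ℕ} (G : Geo A x X S Λ) {a0 a a' : ℕ} (h1 : A ≤ a0) (h2 : a0 ≤ a) (h3 : a ≤ a0 + Λ) (h4 : a0 ≤ a')
    (h5 : a' ≤ a0 + Λ) : |(x : ℝ) / (a0 : ℝ) ^ 2 - (x : ℝ) / ((a : ℝ) * a')| ≤ 1 / (S : ℝ) ^ 2 := by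
  obtain ⟨hA, hS, hΛ, hΛA, hup, hlo⟩ := f2_real G
  have h1' : (A : ℝ) ≤ a0 := by exact_mod_cast h1
  have h2' : (a0 : ℝ) ≤ a := by exact_mod_cast h2
  have h3' : (a : ℝ) ≤ a0 + Λ := by exact_mod_cast h3
  have h4' : (a0 : ℝ) ≤ a' := by exact_mod_cast h4
  have h5' : (a' : ℝ) ≤ a0 + Λ := by exact_mod_cast h5
  have hx0 : (0 : ℝ) ≤ x := Nat.cast_nonneg x
  have ha0 : (0 : ℝ) < a0 := by linarith
  have ha : (0 : ℝ) < a := by linarith
  have ha' : (0 : ℝ) < a' := by linarith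
  have haΛ : (0 : ℝ) < (a0 : ℝ) + Λ := by linarith
  have hS0 : (0 : ℝ) < S := by linarith
  have hA0 : (0 : ℝ) < A := by linarith
  have u1 : (x : ℝ) / ((a : ℝ) * a') ≤ (x : ℝ) / (a0 : ℝ) ^ 2 := by
    apply div_le_div_of_nonneg_left hx0 (by positivity)
    calc (a0 : ℝ) ^ 2 = a0 * a0 := by ring
      _ ≤ a * a' := mul_le_mul h2' h4' ha0.le ha.le
  have u2 : (x : ℝ) / ((a0 : ℝ) + Λ) ^ 2 ≤ (x : ℝ) / ((a : ℝ) * a') := by
    apply div_le_div_of_nonneg_left hx0 (by positivity)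
    calc (a : ℝ) * a' ≤ ((a0 : ℝ) + Λ) * ((a0 : ℝ) + Λ) := mul_le_mul h3' h5' ha'.le haΛ.le
      _ = ((a0 : ℝ) + Λ) ^ 2 := by ring
  have e1 : (x : ℝ) / (a0 : ℝ) ^ 2 - (x : ℝ) / ((a0 : ℝ) + Λ) ^ 2 =
      x * Λ * (2 * a0 + Λ) / ((a0 : ℝ) ^ 2 * ((a0 : ℝ) + Λ) ^ 2) := by
    field_simp
    ring
  have e2 : x * Λ * (2 * a0 + Λ) / ((a0 : ℝ) ^ 2 * ((a0 : ℝ) + Λ) ^ 2) ≤
      2 * (x : ℝ) * Λ / ((a0 : ℝ) ^ 2 * ((a0 : ℝ) + Λ)) := by
    rw [div_le_div_iff₀ (by positivity) (by positivity)]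
    have h3 : (0 : ℝ) ≤ x * Λ * (a0 : ℝ) ^ 2 * ((a0 : ℝ) + Λ) * Λ := by positivity
    nlinarith [h3]
  have e3 : 2 * (x : ℝ) * Λ / ((a0 : ℝ) ^ 2 * ((a0 : ℝ) + Λ)) ≤ 1 / (S : ℝ) ^ 2 := by
    rw [div_le_div_iff₀ (by positivity) (by positivity)]
    calc 2 * (x : ℝ) * Λ * S ^ 2 ≤ A ^ 3 := hup
      _ = A ^ 2 * A := by ring
      _ ≤ (a0 : ℝ) ^ 2 * ((a0 : ℝ) + Λ) := by
          apply mul_le_mul
          · exact pow_le_pow_left₀ hA0.le h1' 2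
          · linarith
          · exact hA0.le
          · positivity
      _ = 1 * ((a0 : ℝ) ^ 2 * ((a0 : ℝ) + Λ)) := by ring
  rw [abs_of_nonneg (by linarith)]
  linarith

end Pool.Agent.Lib.H21T
end

-- from Lib.H21T.S2
section

/-!
# Chunk S2 (S/M): the size of s b - t a
-/

namespace Pool.Agent.Lib.H21T

open Finset Pool.Agent.SZW

/-- `s b - t a = s (b - x / a) + a (s x / a ^ 2 - t)`, `0 ≤ b - x / a ≤ H / a ≤ H / A`, `a ≤ 2 A` and
`|s x / a ^ 2 - t| ≤ 1 / S + s |x / a0 ^ 2 - x / a ^ 2| ≤ 1 / S + S / S ^ 2 = 2 / S` (`Ap`, `f2_var` with `a = a'`). -/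
theorem s2 {A x X S Λ : ℕ} (G : Geo A x X S Λ) {a0 s t a b H : ℕ} (h0 : A ≤ a0) (hsS : s ≤ S) (hap : Ap x S a0 s t)
    (h1 : a0 ≤ a) (h2 : a ≤ a0 + Λ) (h3 : a ≤ 2 * A) (h4 : x ≤ a * b) (h5 : a * b ≤ x + H) :
    |(s : ℝ) * b - t * a| ≤ 4 * A / S + S * H / A := by
  have hA : (1 : ℝ) ≤ A := by exact_mod_cast G.hA
  have hS : (1 : ℝ) ≤ S := by exact_mod_cast G.hS
  have hA0 : (0 : ℝ) < A := by linarith
  have hS0 : (0 : ℝ) < S := by linarith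
  have hAa : (A : ℝ) ≤ a := by exact_mod_cast h0.trans h1
  have ha0 : (0 : ℝ) < a := by linarith
  have haA : (a : ℝ) ≤ 2 * A := by exact_mod_cast h3
  have hs0 : (0 : ℝ) ≤ s := Nat.cast_nonneg s
  have hsS' : (s : ℝ) ≤ S := by exact_mod_cast hsS
  have hH0 : (0 : ℝ) ≤ H := Nat.cast_nonneg H
  have h4' : (x : ℝ) ≤ a * b := by exact_mod_cast h4
  have h5' : (a : ℝ) * b ≤ x + H := by exact_mod_cast h5
  have e : (s : ℝ) * b - t * a = s * (b - x / a) + a * (s * (x / ((a : ℝ) * a)) - t) := by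
    field_simp
    ring
  have k1 : (0 : ℝ) ≤ b - x / a := by
    rw [sub_nonneg, div_le_iff₀ ha0]
    linarith [mul_comm (a : ℝ) b]
  have k2 : (b : ℝ) - x / a ≤ H / A := by
    have k3 : (b : ℝ) - x / a ≤ H / a := by
      rw [sub_le_iff_le_add, ← add_div, le_div_iff₀ ha0]
      linarith [mul_comm (a : ℝ) b]
    exact k3.trans (div_le_div_of_nonneg_left hH0 hA0 hAa)
  have k4 : |(s : ℝ) * (b - x / a)| ≤ S * H / A := by
    rw [abs_of_nonneg (mul_nonneg hs0 k1), mul_div_assoc]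
    exact mul_le_mul hsS' k2 k1 hS0.le
  have k5 := f2_var G h0 h1 h2 h1 h2
  have k6 : |(s : ℝ) * (x / ((a : ℝ) * a)) - t| ≤ 2 / S := by
    have k7 : (s : ℝ) * (x / ((a : ℝ) * a)) - t = (s * (x / (a0 : ℝ) ^ 2) - t) - s * (x / (a0 : ℝ) ^ 2 - x / ((a : ℝ) * a)) := by
      ring
    rw [k7]
    refine (abs_sub _ _).trans ?_
    have k8 : |(s : ℝ) * (x / (a0 : ℝ) ^ 2 - x / ((a : ℝ) * a))| ≤ 1 / S := by
      rw [abs_mul, abs_of_nonneg hs0]
      refine (mul_le_mul hsS' k5 (abs_nonneg _) hS0.le).trans (le_of_eq ?_)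
      field_simp
    have k9 : |(s : ℝ) * (x / (a0 : ℝ) ^ 2) - t| ≤ 1 / S := hap
    have k10 : (2 : ℝ) / S = 1 / S + 1 / S := by ring
    rw [k10]
    exact add_le_add k9 k8
  have k11 : |(a : ℝ) * (s * (x / ((a : ℝ) * a)) - t)| ≤ 4 * A / S := by
    rw [abs_mul, abs_of_pos ha0]
    refine (mul_le_mul haA k6 (abs_nonneg _) (by linarith)).trans (le_of_eq ?_)
    ring
  rw [e, add_comm (4 * (A : ℝ) / S)]
  exact (abs_add_le _ _).trans (add_le_add k4 k11)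

/-- `t ≤ s x / a0 ^ 2 + 1 / S ≤ S X + 1 ≤ 2 X S` (`hX`, `A ≤ a0`). -/
theorem s2_t {A x X S Λ : ℕ} (G : Geo A x X S Λ) {a0 s t : ℕ} (h0 : A ≤ a0) (hsS : s ≤ S) (hap : Ap x S a0 s t) :
    t ≤ 2 * X * S := by
  have hA : (1 : ℝ) ≤ A := by exact_mod_cast G.hA
  have hS : (1 : ℝ) ≤ S := by exact_mod_cast G.hS
  have hX1 : (1 : ℝ) ≤ X := by exact_mod_cast G.hX1
  have hX : (x : ℝ) ≤ X * (A : ℝ) ^ 2 := by exact_mod_cast G.hX
  have hAa : (A : ℝ) ≤ a0 := by exact_mod_cast h0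
  have hs0 : (0 : ℝ) ≤ s := Nat.cast_nonneg s
  have hsS' : (s : ℝ) ≤ S := by exact_mod_cast hsS
  have ha0 : (0 : ℝ) < (a0 : ℝ) ^ 2 := by
    have : (0 : ℝ) < a0 := by linarith
    positivity
  have k1 : (x : ℝ) / (a0 : ℝ) ^ 2 ≤ X := by
    rw [div_le_iff₀ ha0]
    have k2 : (A : ℝ) ^ 2 ≤ (a0 : ℝ) ^ 2 := pow_le_pow_left₀ (by linarith) hAa 2
    nlinarith
  have k2 : |(s : ℝ) * (x / (a0 : ℝ) ^ 2) - t| ≤ 1 / S := hap
  have k3 := (abs_le.1 k2).1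
  have k4 : 1 / (S : ℝ) ≤ 1 := by
    rw [div_le_one (by linarith)]
    exact hS
  have k5 : (s : ℝ) * (x / (a0 : ℝ) ^ 2) ≤ S * X :=
    mul_le_mul hsS' k1 (by positivity) (by linarith)
  have k6 : (t : ℝ) ≤ 2 * X * S := by nlinarith
  exact_mod_cast k6

/-- `x / a0 ^ 2 ≥ x / (4 A ^ 2) ≥ 1 / 8` (`hx`), so `t ≥ s / 8 - 1 / S > 0` for `s ≥ 9`. -/
theorem s2_t1 {A x X S Λ : ℕ} (G : Geo A x X S Λ) {a0 s t : ℕ} (h0 : A ≤ a0) (h1 : a0 ≤ 2 * A) (hs : 9 ≤ s) (hap : Ap x S a0 s t) :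
    1 ≤ t := by
  have hA : (1 : ℝ) ≤ A := by exact_mod_cast G.hA
  have hS : (1 : ℝ) ≤ S := by exact_mod_cast G.hS
  have hx : (A : ℝ) ^ 2 ≤ 2 * x := by exact_mod_cast G.hx
  have hAa : (A : ℝ) ≤ a0 := by exact_mod_cast h0
  have haA : (a0 : ℝ) ≤ 2 * A := by exact_mod_cast h1
  have hs9 : (9 : ℝ) ≤ s := by exact_mod_cast hs
  have ha0 : (0 : ℝ) < (a0 : ℝ) ^ 2 := by
    have : (0 : ℝ) < a0 := by linarith
    positivity
  have k1 : 1 / 8 ≤ (x : ℝ) / (a0 : ℝ) ^ 2 := by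
    rw [le_div_iff₀ ha0]
    have k2 : (a0 : ℝ) ^ 2 ≤ (2 * A) ^ 2 := pow_le_pow_left₀ (by linarith) haA 2
    nlinarith
  have k2 : |(s : ℝ) * (x / (a0 : ℝ) ^ 2) - t| ≤ 1 / S := hap
  have k3 := (abs_le.1 k2).2
  have k4 : 1 / (S : ℝ) ≤ 1 := by
    rw [div_le_one (by linarith)]
    exact hS
  have k5 : 9 * (1 / 8) ≤ (s : ℝ) * (x / (a0 : ℝ) ^ 2) :=
    mul_le_mul hs9 k1 (by norm_num) (by linarith)
  have k6 : (0 : ℝ) < t := by linarith
  exact_mod_cast k6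

end Pool.Agent.Lib.H21T
end

-- from Lib.H21T.F3
section

/-!
# Chunk F3 (S/M): values of a sequence with gaps in a short interval
-/

namespace Pool.Agent.Lib.H21T

open Finset Pool.Agent.SZW

/-- Let `i < j` be the smallest and the largest element of the set (if it has at least two elements). Summing `hf`: `f j + (j - i) g ≤ f i`, and
`f i - f j ≤ 2 r`; so `(j - i) g ≤ 2 r`, and the set is contained in `Icc i j`, of cardinality `j - i + 1`. -/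
theorem f3 (f : ℕ → ℝ) (g r c : ℝ) (n : ℕ) (hg : 0 < g) (hr : 0 ≤ r) (hf : ∀ i, i + 1 < n → f (i + 1) + g ≤ f i) :
    (((range n).filter fun i => |f i - c| ≤ r).card : ℝ) ≤ 2 * r / g + 1 := by
  rcases Finset.eq_empty_or_nonempty ((range n).filter fun i => |f i - c| ≤ r) with he | hne
  · rw [he, card_empty, Nat.cast_zero]
    positivity
  have hsum : ∀ d i : ℕ, i + d < n → f (i + d) + d * g ≤ f i := by
    intro d
    induction d with
    | zero => intro i _; simp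
    | succ d ih =>
      intro i hi
      have h1 := ih i (by omega)
      have h2 := hf (i + d) (by omega)
      have h3 : i + (d + 1) = i + d + 1 := by ring
      rw [h3]
      push_cast
      linarith
  set T := (range n).filter fun i => |f i - c| ≤ r with hT
  obtain ⟨h1, h2⟩ := mem_filter.1 (T.min'_mem hne)
  obtain ⟨h3, h4⟩ := mem_filter.1 (T.max'_mem hne)
  have hle : T.min' hne ≤ T.max' hne := T.min'_le_max' hne
  obtain ⟨d, hd⟩ := Nat.exists_eq_add_of_le hle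
  have h5 : f (T.min' hne + d) + d * g ≤ f (T.min' hne) := by
    apply hsum
    rw [← hd]
    exact mem_range.1 h3
  rw [← hd] at h5
  have h6 := (abs_le.1 h2).2
  have h7 := (abs_le.1 h4).1
  have h8 : (d : ℝ) ≤ 2 * r / g := by
    rw [le_div_iff₀ hg]
    linarith
  have h9 : T ⊆ Icc (T.min' hne) (T.max' hne) := fun i hi => mem_Icc.2 ⟨T.min'_le i hi, T.le_max' i hi⟩
  have h10 : T.card ≤ d + 1 := by
    refine (card_le_card h9).trans ?_
    rw [Nat.card_Icc]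
    omega
  have h11 : (T.card : ℝ) ≤ d + 1 := by exact_mod_cast h10
  linarith

end Pool.Agent.Lib.H21T
end

-- from Lib.H21T.S1
section

/-!
# Chunk S1 (M): averaging over shifts
-/

namespace Pool.Agent.Lib.H21T

open Finset Pool.Agent.SZW

theorem s1_one (R : Finset (ℤ × ℤ)) (φ : ℤ × ℤ → ℂ) (hφ : ∀ p, ‖φ p‖ ≤ 1) (τ : (ℤ × ℤ) ≃ (ℤ × ℤ)) (E : ℝ)
    (h1 : ((R.filter fun p => τ p ∉ R).card : ℝ) ≤ E)
    (h2 : ((R.filter fun p => τ.symm p ∉ R).card : ℝ) ≤ E) :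
    ‖∑ p ∈ R, φ p - ∑ p ∈ R, φ (τ p)‖ ≤ 2 * E := by
  have e1 : ∑ p ∈ R, φ (τ p) = ∑ p ∈ R.map τ.toEmbedding, φ p := by
    rw [Finset.sum_map]
    rfl
  have e2 : (R.map τ.toEmbedding \ R).card = (R.filter fun p => τ p ∉ R).card := by
    have h3 : R.map τ.toEmbedding \ R = (R.filter fun p => τ p ∉ R).map τ.toEmbedding := by
      ext p
      simp only [Finset.mem_sdiff, Finset.mem_map, Finset.mem_filter, Equiv.coe_toEmbedding]
      constructor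
      · rintro ⟨⟨a, ha, rfl⟩, h⟩
        exact ⟨a, ⟨ha, h⟩, rfl⟩
      · rintro ⟨a, ⟨ha, h⟩, rfl⟩
        exact ⟨⟨a, ha, rfl⟩, h⟩
    rw [h3, Finset.card_map]
  have e3 : R \ R.map τ.toEmbedding = R.filter fun p => τ.symm p ∉ R := by
    ext p
    rw [Finset.mem_sdiff, Finset.mem_filter, Finset.mem_map_equiv]
  have hb : ∀ T : Finset (ℤ × ℤ), ‖∑ p ∈ T, φ p‖ ≤ T.card := by
    intro T
    calc ‖∑ p ∈ T, φ p‖ ≤ ∑ p ∈ T, ‖φ p‖ := norm_sum_le _ _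
      _ ≤ ∑ p ∈ T, (1 : ℝ) := Finset.sum_le_sum fun p _ => hφ p
      _ = T.card := by simp
  rw [e1, ← Finset.sum_sdiff_sub_sum_sdiff]
  have h5 := norm_sub_le (∑ p ∈ R \ R.map τ.toEmbedding, φ p) (∑ p ∈ R.map τ.toEmbedding \ R, φ p)
  have h6 := hb (R \ R.map τ.toEmbedding)
  have h7 := hb (R.map τ.toEmbedding \ R)
  rw [e2] at h7
  rw [e3] at h6 h5 ⊢
  linarith

/-- For fixed `k < K` let `τ p = (p.1 + k s, p.2 - k t)` (a bijection of `ℤ × ℤ`). `∑_{p ∈ R} φ (τ p) = ∑_{p ∈ τ R} φ p`, and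
`∑_{p ∈ R} φ p - ∑_{p ∈ τ R} φ p = ∑_{R \ τ R} φ - ∑_{τ R \ R} φ`, where `|R \ τ R| = |{p ∈ R : τ⁻¹ p ∉ R}| ≤ E` (`h2`) and
`|τ R \ R| = |{p ∈ R : τ p ∉ R}| ≤ E` (`h1`). So `‖∑_R φ p - ∑_R φ (τ p)‖ ≤ 2 E`; sum over `k < K`, exchange the two sums. -/
theorem s1 (R : Finset (ℤ × ℤ)) (φ : ℤ × ℤ → ℂ) (hφ : ∀ p, ‖φ p‖ ≤ 1) (s t : ℤ) (K : ℕ) (E : ℝ)
    (h1 : ∀ k : ℕ, k < K → ((R.filter fun p => (p.1 + (k : ℤ) * s, p.2 - (k : ℤ) * t) ∉ R).card : ℝ) ≤ E)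
    (h2 : ∀ k : ℕ, k < K → ((R.filter fun p => (p.1 - (k : ℤ) * s, p.2 + (k : ℤ) * t) ∉ R).card : ℝ) ≤ E) :
    (K : ℝ) * ‖∑ p ∈ R, φ p‖ ≤
      ∑ p ∈ R, ‖∑ k ∈ range K, φ (p.1 + (k : ℤ) * s, p.2 - (k : ℤ) * t)‖ + 2 * K * E := by
  have key : ∀ k ∈ range K, ‖∑ p ∈ R, φ p - ∑ p ∈ R, φ (p.1 + (k : ℤ) * s, p.2 - (k : ℤ) * t)‖ ≤ 2 * E := by
    intro k hk
    rw [Finset.mem_range] at hk
    let τ : (ℤ × ℤ) ≃ (ℤ × ℤ) :=
      { toFun := fun p => (p.1 + (k : ℤ) * s, p.2 - (k : ℤ) * t)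
        invFun := fun p => (p.1 - (k : ℤ) * s, p.2 + (k : ℤ) * t)
        left_inv := fun p => by simp
        right_inv := fun p => by simp }
    exact s1_one R φ hφ τ E (h1 k hk) (h2 k hk)
  have e1 : (K : ℂ) * ∑ p ∈ R, φ p = ∑ k ∈ range K, (∑ p ∈ R, φ p - ∑ p ∈ R, φ (p.1 + (k : ℤ) * s, p.2 - (k : ℤ) * t)) +
      ∑ p ∈ R, ∑ k ∈ range K, φ (p.1 + (k : ℤ) * s, p.2 - (k : ℤ) * t) := by
    rw [Finset.sum_sub_distrib, Finset.sum_comm (s := R), Finset.sum_const, Finset.card_range, nsmul_eq_mul]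
    ring
  have e2 : (K : ℝ) * ‖∑ p ∈ R, φ p‖ = ‖(K : ℂ) * ∑ p ∈ R, φ p‖ := by
    rw [norm_mul, Complex.norm_natCast]
  rw [e2, e1]
  have h3 := norm_add_le (∑ k ∈ range K, (∑ p ∈ R, φ p - ∑ p ∈ R, φ (p.1 + (k : ℤ) * s, p.2 - (k : ℤ) * t)))
    (∑ p ∈ R, ∑ k ∈ range K, φ (p.1 + (k : ℤ) * s, p.2 - (k : ℤ) * t))
  have h4 : ‖∑ k ∈ range K, (∑ p ∈ R, φ p - ∑ p ∈ R, φ (p.1 + (k : ℤ) * s, p.2 - (k : ℤ) * t))‖ ≤ K * (2 * E) := by
    refine (norm_sum_le _ _).trans ((Finset.sum_le_sum key).trans (le_of_eq ?_))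
    rw [Finset.sum_const, Finset.card_range, nsmul_eq_mul]
  have h5 := norm_sum_le R (fun p => ∑ k ∈ range K, φ (p.1 + (k : ℤ) * s, p.2 - (k : ℤ) * t))
  linarith

end Pool.Agent.Lib.H21T
end

-- from Lib.H21T.S4
section

/-!
# Chunk S4 (S/M): counting pairs
-/

namespace Pool.Agent.Lib.H21T

open Finset Pool.Agent.SZW

/-- The `b` are the integers of the half open interval from `x / a` to `(x + H) / a`, of length `H / a`. -/
theorem s4_fib (x H a : ℕ) (ha : 1 ≤ a) :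
    (((range (x + H)).filter fun b => x ≤ a * b ∧ a * b < x + H).card : ℝ) ≤ (H : ℝ) / a + 1 := by
  classical
  set S := (range (x + H)).filter fun b => x ≤ a * b ∧ a * b < x + H with hS
  have ha' : (0 : ℝ) < a := by exact_mod_cast ha
  rcases S.eq_empty_or_nonempty with h | h
  · rw [h, card_empty, Nat.cast_zero]
    positivity
  · have h0 := S.min'_mem h
    have h1 := S.max'_mem h
    set b0 := S.min' h with hb0
    set b1 := S.max' h with hb1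
    have hle : b0 ≤ b1 := S.min'_le_max' h
    have hsub : S ⊆ Icc b0 b1 := fun b hb => mem_Icc.2 ⟨S.min'_le b hb, S.le_max' b hb⟩
    have hc : S.card ≤ b1 + 1 - b0 := by
      have := card_le_card hsub
      rwa [Nat.card_Icc] at this
    rw [hS, mem_filter] at h0 h1
    have h2 : a * b1 < a * b0 + H := by
      have := h1.2.2
      have := h0.2.1
      omega
    have h3 : (a : ℝ) * b1 < a * b0 + H := by exact_mod_cast h2
    have h4 : (b1 : ℝ) - b0 < H / a := by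
      rw [lt_div_iff₀ ha']
      nlinarith
    have h5 : (S.card : ℝ) ≤ (b1 : ℝ) + 1 - b0 := by
      have : S.card + b0 ≤ b1 + 1 := by omega
      have h6 : ((S.card : ℝ)) + b0 ≤ b1 + 1 := by exact_mod_cast this
      linarith
    linarith

/-- Fibres over the first coordinate: for each `a ∈ T` with `A ≤ A1 ≤ a` at most `H / a + 1 ≤ H / A + 1` values of `b` (`s4_fib`). -/
theorem s4_card {A A1 A2 x H : ℕ} (hA : 1 ≤ A) (h1 : A ≤ A1) (T : Finset ℕ) :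
    (((Rg A1 A2 x H).filter fun p => p.1 ∈ T).card : ℝ) ≤ T.card * ((H : ℝ) / A + 1) := by
  classical
  have hA' : (0 : ℝ) < A := by exact_mod_cast hA
  have h2 : ((Rg A1 A2 x H).filter fun p => p.1 ∈ T).card =
      ∑ a ∈ T, (((Rg A1 A2 x H).filter fun p => p.1 ∈ T).filter fun p => p.1 = a).card :=
    card_eq_sum_card_fiberwise (fun p hp => (mem_filter.1 hp).2)
  rw [h2, Nat.cast_sum, ← nsmul_eq_mul]
  refine sum_le_card_nsmul _ _ _ fun a haT => ?_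
  by_cases ha : A1 ≤ a
  · have h3 : (((Rg A1 A2 x H).filter fun p => p.1 ∈ T).filter fun p => p.1 = a).card ≤
        ((range (x + H)).filter fun b => x ≤ a * b ∧ a * b < x + H).card := by
      refine card_le_card_of_injOn (fun p => p.2) ?_ ?_
      · intro p hp
        have hp' := mem_filter.1 (mem_coe.1 hp)
        have hp'' := mem_filter.1 hp'.1
        have h4 := hp''.1
        rw [Rg, mem_filter, mem_product] at h4
        rw [mem_coe, mem_filter]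
        have h5 := hp'.2
        subst h5
        exact ⟨h4.1.2, h4.2⟩
      · intro p hp q hq hpq
        have hp' := (mem_filter.1 (mem_coe.1 hp)).2
        have hq' := (mem_filter.1 (mem_coe.1 hq)).2
        exact Prod.ext (hp'.trans hq'.symm) hpq
    have h4 : ((((Rg A1 A2 x H).filter fun p => p.1 ∈ T).filter fun p => p.1 = a).card : ℝ) ≤
        (H : ℝ) / a + 1 := le_trans (by exact_mod_cast h3) (s4_fib x H a (by omega))
    refine h4.trans ?_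
    have h5 : (H : ℝ) / a ≤ H / A := by
      apply div_le_div_of_nonneg_left (by positivity) hA'
      exact_mod_cast h1.trans ha
    linarith
  · have h3 : (((Rg A1 A2 x H).filter fun p => p.1 ∈ T).filter fun p => p.1 = a) = ∅ := by
      rw [filter_eq_empty_iff]
      intro p hp hpa
      have h4 := (mem_filter.1 hp).1
      rw [Rg, mem_filter, mem_product, mem_Ico] at h4
      have h5 := h4.1.1.1
      omega
    rw [h3, card_empty, Nat.cast_zero]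
    positivity

/-- The case `T = Ico A1 A2`. -/
theorem s4_all {A A1 A2 x H : ℕ} (hA : 1 ≤ A) (h1 : A ≤ A1) (h2 : A1 ≤ A2) :
    ((Rg A1 A2 x H).card : ℝ) ≤ ((A2 : ℝ) - A1) * ((H : ℝ) / A + 1) := by
  classical
  have h := s4_card (A2 := A2) (x := x) (H := H) hA h1 (Ico A1 A2)
  rw [Nat.card_Ico, Nat.cast_sub h2] at h
  have h3 : (Rg A1 A2 x H).filter (fun p => p.1 ∈ Ico A1 A2) = Rg A1 A2 x H := by
    rw [filter_eq_self]
    intro p hp
    rw [Rg, mem_filter, mem_product] at hp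
    exact hp.1.1
  rwa [h3] at h

/-- Fibres over the product: for `m ∈ U` (with `x ≤ m < x + H`) the pairs with `a b = m` inject into the divisors of `m` by `(a, b) ↦ a`. -/
theorem s4_div {A1 A2 x H τ : ℕ} (hA : 1 ≤ A1) (hx : 1 ≤ x) (hτ : ∀ m : ℕ, 1 ≤ m → m < x + H → m.divisors.card ≤ τ) (U : Finset ℕ) :
    ((Rg A1 A2 x H).filter fun p => p.1 * p.2 ∈ U).card ≤ τ * U.card := by
  classical
  have h2 : ((Rg A1 A2 x H).filter fun p => p.1 * p.2 ∈ U).card =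
      ∑ m ∈ U, (((Rg A1 A2 x H).filter fun p => p.1 * p.2 ∈ U).filter fun p => p.1 * p.2 = m).card :=
    card_eq_sum_card_fiberwise (fun p hp => (mem_filter.1 hp).2)
  rw [h2, mul_comm, ← smul_eq_mul]
  refine sum_le_card_nsmul _ _ _ fun m hmU => ?_
  by_cases hm : x ≤ m ∧ m < x + H
  · refine le_trans ?_ (hτ m (hx.trans hm.1) hm.2)
    refine card_le_card_of_injOn (fun p => p.1) ?_ ?_
    · intro p hp
      have h3 := (mem_filter.1 (mem_coe.1 hp)).2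
      rw [mem_coe, Nat.mem_divisors]
      exact ⟨⟨p.2, h3.symm⟩, by omega⟩
    · intro p hp q hq hpq
      have h3 := (mem_filter.1 (mem_coe.1 hp)).2
      have h4 := (mem_filter.1 (mem_coe.1 hq)).2
      have h5 := (mem_filter.1 (mem_filter.1 (mem_coe.1 hp)).1).1
      rw [Rg, mem_filter, mem_product, mem_Ico] at h5
      have h6 : 0 < p.1 := by have := h5.1.1.1; omega
      have hpq' : p.1 = q.1 := hpq
      refine Prod.ext hpq' ?_
      rw [← hpq'] at h4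
      exact Nat.eq_of_mul_eq_mul_left h6 (h3.trans h4.symm)
  · have h3 : (((Rg A1 A2 x H).filter fun p => p.1 * p.2 ∈ U).filter fun p => p.1 * p.2 = m) = ∅ := by
      rw [filter_eq_empty_iff]
      intro p hp hpm
      have h4 := (mem_filter.1 hp).1
      rw [Rg, mem_filter] at h4
      exact hm (hpm ▸ h4.2)
    rw [h3, card_empty]
    exact Nat.zero_le _

/-- `s4_div` with `U = Ico x (x + D) ∪ Ico (x + H - D) (x + H)`, `|U| ≤ 2 D`. -/
theorem s4_bdry {A1 A2 x H τ : ℕ} (hA : 1 ≤ A1) (hx : 1 ≤ x) (hτ : ∀ m : ℕ, 1 ≤ m → m < x + H → m.divisors.card ≤ τ) (D : ℕ) :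
    ((Rg A1 A2 x H).filter fun p => p.1 * p.2 < x + D ∨ x + H ≤ p.1 * p.2 + D).card ≤ 2 * τ * D := by
  classical
  have h1 := s4_div (A2 := A2) hA hx hτ (Ico x (x + D) ∪ Ico (x + H - D) (x + H))
  have h2 : (Ico x (x + D) ∪ Ico (x + H - D) (x + H)).card ≤ 2 * D := by
    refine (card_union_le _ _).trans ?_
    rw [Nat.card_Ico, Nat.card_Ico]
    omega
  refine le_trans (card_le_card ?_) (h1.trans ?_)
  · intro p hp
    rw [mem_filter] at hp ⊢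
    have h3 := hp.1
    rw [Rg, mem_filter] at h3
    refine ⟨hp.1, ?_⟩
    rw [mem_union, mem_Ico, mem_Ico]
    rcases hp.2 with h | h
    · exact Or.inl ⟨h3.2.1, h⟩
    · exact Or.inr ⟨by omega, h3.2.2⟩
  · calc τ * (Ico x (x + D) ∪ Ico (x + H - D) (x + H)).card ≤ τ * (2 * D) := Nat.mul_le_mul_left _ h2
      _ = 2 * τ * D := by ring

end Pool.Agent.Lib.H21T
end

-- from Lib.H21T.F4
section

/-!
# Chunk F4 (M): how many pieces have a given direction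
-/

namespace Pool.Agent.Lib.H21T

open Finset Pool.Agent.SZW

/-- `f3` with `f i = x / (pa A1 Λ i) ^ 2`, `c = t1 / s1`, `r = 1 / (s1 S)`, `g = 1 / (48 S ^ 2)`, `n = nJ A1 A2 Λ`. If `i < n` then `i ≤ (A2 - A1) / Λ`, so
`pa A1 Λ i = A1 + i Λ ≤ A2 ≤ 2 A`; `hf` is `f2_gap` for `a = pa A1 Λ i` (`pa A1 Λ (i + 1) = pa A1 Λ i + Λ`). If `s i = s1`, `t i = t1`, then
`|f i - t1 / s1| ≤ 1 / (s1 S)` from `Ap`. `2 r / g = 96 S / s1`. -/
theorem f4 {A x X S Λ A1 A2 : ℕ} (G : Geo A x X S Λ) (h1 : A ≤ A1) (h2 : A1 ≤ A2) (h3 : A2 ≤ 2 * A) {s t : ℕ → ℕ}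
    (hD : Dir A1 Λ x S (nJ A1 A2 Λ) s t) (s1 t1 : ℕ) (hs1 : 1 ≤ s1) :
    (((range (nJ A1 A2 Λ)).filter fun i => s i = s1 ∧ t i = t1).card : ℝ) ≤ 96 * S / s1 + 1 := by
  have hS0 : (0 : ℝ) < S := by exact_mod_cast G.hS
  have hs0 : (0 : ℝ) < s1 := by exact_mod_cast hs1
  have h := f3 (fun i => (x : ℝ) / ((pa A1 Λ i : ℕ) : ℝ) ^ 2) (1 / (48 * (S : ℝ) ^ 2))
    (1 / (s1 * S)) ((t1 : ℝ) / s1) (nJ A1 A2 Λ) (by positivity) (by positivity) (fun i hi => by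
      have h4 : i + 1 ≤ (A2 - A1) / Λ := by
        unfold nJ at hi
        omega
      have h5 : (i + 1) * Λ ≤ A2 - A1 := (Nat.le_div_iff_mul_le G.hΛ).1 h4
      have h6 : pa A1 Λ i ≤ 2 * A := by
        unfold pa
        have : i * Λ ≤ (i + 1) * Λ := Nat.mul_le_mul_right _ (Nat.le_succ i)
        omega
      have h7 : A ≤ pa A1 Λ i := by
        unfold pa
        omega
      have h8 := f2_gap G h7 h6
      have e : ((pa A1 Λ (i + 1) : ℕ) : ℝ) = ((pa A1 Λ i : ℕ) : ℝ) + Λ := by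
        unfold pa
        push_cast
        ring
      rw [e]
      linarith)
  have e : 2 * (1 / ((s1 : ℝ) * S)) / (1 / (48 * (S : ℝ) ^ 2)) = 96 * S / s1 := by
    field_simp
    ring
  rw [e] at h
  refine le_trans ?_ h
  have hsub : (range (nJ A1 A2 Λ)).filter (fun i => s i = s1 ∧ t i = t1) ⊆
      (range (nJ A1 A2 Λ)).filter
        (fun i => |(x : ℝ) / ((pa A1 Λ i : ℕ) : ℝ) ^ 2 - (t1 : ℝ) / s1| ≤ 1 / (s1 * S)) := by
    intro i hi
    rw [mem_filter, mem_range] at hi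
    refine mem_filter.2 ⟨mem_range.2 hi.1, ?_⟩
    have h4 := hD.ap i hi.1
    unfold Ap at h4
    rw [hi.2.1, hi.2.2] at h4
    have e2 : (x : ℝ) / ((pa A1 Λ i : ℕ) : ℝ) ^ 2 - (t1 : ℝ) / s1 =
        ((s1 : ℝ) * (x / ((pa A1 Λ i : ℕ) : ℝ) ^ 2) - t1) / s1 := by
      rw [sub_div, mul_div_cancel_left₀ _ hs0.ne']
    have e3 : 1 / ((s1 : ℝ) * S) = 1 / S / s1 := by
      rw [div_div, mul_comm]
    rw [e2, abs_div, abs_of_pos hs0, e3]
    exact div_le_div_of_nonneg_right h4 hs0.le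
  exact_mod_cast card_le_card hsub

/-- `t i ≤ s i x / a ^ 2 + 1 / S ≤ s i X + 1` (`a = pa A1 Λ i ≥ A`, `hX`). So for `s i = s1` there are at most `s1 X + 2 ≤ 3 s1 X` values `t1` of `t i`, each
(`f4`) for at most `96 S / s1 + 1` indices: at most `288 X S + 3 s1 X ≤ 291 X S` indices with `s i = s1` (`s1 ≤ S`), and there are fewer than
`s0` values `s1 < s0`. -/
theorem f4_small {A x X S Λ A1 A2 : ℕ} (G : Geo A x X S Λ) (h1 : A ≤ A1) (h2 : A1 ≤ A2) (h3 : A2 ≤ 2 * A) {s t : ℕ → ℕ}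
    (hD : Dir A1 Λ x S (nJ A1 A2 Λ) s t) (s0 : ℕ) :
    (((range (nJ A1 A2 Λ)).filter fun i => s i < s0).card : ℝ) ≤ 291 * X * s0 * S := by
  have hS0 : (0 : ℝ) < S := by exact_mod_cast G.hS
  have hS1 : (1 : ℝ) ≤ S := by exact_mod_cast G.hS
  have hX1 : (1 : ℝ) ≤ X := by exact_mod_cast G.hX1
  have hA0 : (0 : ℝ) < A := by exact_mod_cast G.hA
  have hone : ∀ s1 : ℕ, (((range (nJ A1 A2 Λ)).filter fun i => s i = s1).card : ℝ) ≤
      291 * X * S := by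
    intro s1
    by_cases hs : 1 ≤ s1 ∧ s1 ≤ S
    · have hs0 : (1 : ℝ) ≤ s1 := by exact_mod_cast hs.1
      have hsS : (s1 : ℝ) ≤ S := by exact_mod_cast hs.2
      have h4 := card_eq_sum_card_fiberwise (f := t)
        (s := (range (nJ A1 A2 Λ)).filter fun i => s i = s1) (t := range (s1 * X + 2)) (by
          intro i hi
          rw [mem_coe, mem_filter, mem_range] at hi
          rw [mem_coe, mem_range]
          have h5 := hD.ap i hi.1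
          unfold Ap at h5
          rw [hi.2] at h5
          have h6 := (abs_le.1 h5).1
          have h7 : (1 : ℝ) / S ≤ 1 := by
            rw [div_le_one hS0]
            exact hS1
          have h8 : (A : ℝ) ≤ ((pa A1 Λ i : ℕ) : ℝ) := by
            have : A ≤ pa A1 Λ i := by
              unfold pa
              omega
            exact_mod_cast this
          have h9 : (x : ℝ) / ((pa A1 Λ i : ℕ) : ℝ) ^ 2 ≤ X := by
            rw [div_le_iff₀ (pow_pos (lt_of_lt_of_le hA0 h8) 2)]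
            have h10 : (x : ℝ) ≤ X * (A : ℝ) ^ 2 := by exact_mod_cast G.hX
            refine h10.trans ?_
            exact mul_le_mul_of_nonneg_left (pow_le_pow_left₀ hA0.le h8 2) (by linarith)
          have h11 : (t i : ℝ) ≤ s1 * X + 1 := by
            have := mul_le_mul_of_nonneg_left h9 (by linarith : (0 : ℝ) ≤ s1)
            linarith
          have h12 : t i ≤ s1 * X + 1 := by exact_mod_cast h11
          omega)
      rw [h4]
      push_cast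
      have h5 : ∀ t1 ∈ range (s1 * X + 2),
          ((((range (nJ A1 A2 Λ)).filter fun i => s i = s1).filter fun i => t i = t1).card : ℝ) ≤
            96 * S / s1 + 1 := by
        intro t1 _
        rw [filter_filter]
        exact f4 G h1 h2 h3 hD s1 t1 hs.1
      refine (sum_le_card_nsmul _ _ _ h5).trans ?_
      rw [card_range, nsmul_eq_mul]
      push_cast
      have h6 : (s1 : ℝ) * X + 2 ≤ 3 * (s1 * X) := by nlinarith
      have h7 : 0 ≤ 96 * (S : ℝ) / s1 + 1 := by positivity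
      refine (mul_le_mul_of_nonneg_right h6 h7).trans ?_
      have e : 3 * ((s1 : ℝ) * X) * (96 * S / s1 + 1) = 288 * X * S + 3 * s1 * X := by
        field_simp
        ring
      rw [e]
      nlinarith
    · have h4 : (range (nJ A1 A2 Λ)).filter (fun i => s i = s1) = ∅ := by
        rw [filter_eq_empty_iff]
        intro i hi hi2
        rw [mem_range] at hi
        apply hs
        rw [← hi2]
        exact ⟨hD.s1 i hi, hD.sS i hi⟩
      rw [h4, card_empty]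
      push_cast
      positivity
  have h4 := card_eq_sum_card_fiberwise (f := s)
    (s := (range (nJ A1 A2 Λ)).filter fun i => s i < s0) (t := range s0) (by
      intro i hi
      rw [mem_coe, mem_filter] at hi
      exact mem_coe.2 (mem_range.2 hi.2))
  rw [h4]
  push_cast
  have h5 : ∀ s1 ∈ range s0,
      ((((range (nJ A1 A2 Λ)).filter fun i => s i < s0).filter fun i => s i = s1).card : ℝ) ≤
        291 * X * S := by
    intro s1 _
    refine le_trans ?_ (hone s1)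
    have : ((range (nJ A1 A2 Λ)).filter fun i => s i < s0).filter (fun i => s i = s1) ⊆
        (range (nJ A1 A2 Λ)).filter fun i => s i = s1 :=
      filter_subset_filter _ (filter_subset _ _)
    exact_mod_cast card_le_card this
  refine (sum_le_card_nsmul _ _ _ h5).trans (le_of_eq ?_)
  rw [card_range, nsmul_eq_mul]
  ring

end Pool.Agent.Lib.H21T
end

-- from Lib.H21T.S7
section

/-!
# Chunk S7 (S/M): the bad directions
-/

namespace Pool.Agent.Lib.H21T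

open Finset Pool.Agent.SZW

/-- `Bd` = image of `{i ∈ Bs : s0 ≤ s i}` under `i ↦ (s i, t i)`. `1 ≤ s i ≤ S`; `1 ≤ t i ≤ 2 X S` by `s2_t`, `s2_t1` (`pa A1 Λ i ≤ A2 ≤ 2 A` for `i < nJ`). At most
`291 X s0 S ≤ |Bs| / 2` of the `i` have `s i < s0` (`f4_small`), each pair `(s1, t1)` with `s1 ≥ s0` comes from at most `96 S / s1 + 1 ≤ 96 S / s0 + 1` indices (`f4`). -/
theorem s7 {A x X S Λ A1 A2 : ℕ} (G : Geo A x X S Λ) (h1 : A ≤ A1) (h2 : A1 ≤ A2) (h3 : A2 ≤ 2 * A) {s t : ℕ → ℕ}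
    (hDir : Dir A1 Λ x S (nJ A1 A2 Λ) s t) {s0 : ℕ} (hs0 : 9 ≤ s0) (Bs : Finset ℕ) (hBs : Bs ⊆ range (nJ A1 A2 Λ))
    (hbig : 582 * (X : ℝ) * s0 * S ≤ Bs.card) :
    ∃ Bd : Finset (ℕ × ℕ), (∀ p ∈ Bd, 1 ≤ p.1 ∧ p.1 ≤ S ∧ 1 ≤ p.2 ∧ p.2 ≤ 2 * X * S) ∧
      (∀ p ∈ Bd, ∃ i ∈ Bs, p = (s i, t i)) ∧ (Bs.card : ℝ) ≤ 2 * (96 * S / s0 + 1) * Bd.card := by
  classical
  have hA : ∀ i, A ≤ pa A1 Λ i := fun i => by
    unfold pa
    exact h1.trans (Nat.le_add_right _ _)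
  have hpa : ∀ i < nJ A1 A2 Λ, pa A1 Λ i ≤ 2 * A := by
    intro i hi
    unfold nJ at hi
    have h4 : i ≤ (A2 - A1) / Λ := by omega
    have h5 : i * Λ ≤ A2 - A1 := (Nat.le_div_iff_mul_le G.hΛ).1 h4
    unfold pa
    omega
  have hlt : ∀ i ∈ Bs, i < nJ A1 A2 Λ := fun i hi => mem_range.1 (hBs hi)
  have hcard1 : (Bs.card : ℝ) ≤ 2 * (Bs.filter fun i => s0 ≤ s i).card := by
    have h4 : (Bs.filter fun i => s0 ≤ s i).card + (Bs.filter fun i => ¬ s0 ≤ s i).card = Bs.card :=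
      card_filter_add_card_filter_not _
    have h5 : (Bs.filter fun i => ¬ s0 ≤ s i).card ≤ ((range (nJ A1 A2 Λ)).filter fun i => s i < s0).card := by
      refine card_le_card fun i hi => ?_
      rw [mem_filter] at hi ⊢
      exact ⟨hBs hi.1, not_le.1 hi.2⟩
    have h6 := f4_small G h1 h2 h3 hDir s0
    have h7 : (((Bs.filter fun i => ¬ s0 ≤ s i).card : ℕ) : ℝ) ≤ 291 * X * s0 * S :=
      le_trans (by exact_mod_cast h5) h6
    have h8 : (((Bs.filter fun i => s0 ≤ s i).card : ℕ) : ℝ) + ((Bs.filter fun i => ¬ s0 ≤ s i).card : ℕ) = Bs.card := by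
      exact_mod_cast h4
    linarith
  refine ⟨(Bs.filter fun i => s0 ≤ s i).image fun i => (s i, t i), ?_, ?_, ?_⟩
  · intro p hp
    rw [mem_image] at hp
    obtain ⟨i, hi, rfl⟩ := hp
    rw [mem_filter] at hi
    have hin := hlt i hi.1
    exact ⟨hDir.s1 i hin, hDir.sS i hin, s2_t1 G (hA i) (hpa i hin) (hs0.trans hi.2) (hDir.ap i hin),
      s2_t G (hA i) (hDir.sS i hin) (hDir.ap i hin)⟩
  · intro p hp
    rw [mem_image] at hp
    obtain ⟨i, hi, rfl⟩ := hp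
    exact ⟨i, (mem_filter.1 hi).1, rfl⟩
  · have hs00 : (0 : ℝ) < s0 := by
      have : (9 : ℝ) ≤ s0 := by exact_mod_cast hs0
      linarith
    have h4 : (((Bs.filter fun i => s0 ≤ s i).card : ℕ) : ℝ) ≤
        (96 * S / s0 + 1) * ((Bs.filter fun i => s0 ≤ s i).image fun i => (s i, t i)).card := by
      rw [card_eq_sum_card_image (fun i => (s i, t i)) (Bs.filter fun i => s0 ≤ s i)]
      rw [Nat.cast_sum, mul_comm, ← nsmul_eq_mul, ← sum_const]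
      refine sum_le_sum fun p hp => ?_
      rw [mem_image] at hp
      obtain ⟨i, hi, rfl⟩ := hp
      rw [mem_filter] at hi
      have hin := hlt i hi.1
      have h5 : ((Bs.filter fun i => s0 ≤ s i).filter fun j => (s j, t j) = (s i, t i)).card ≤
          ((range (nJ A1 A2 Λ)).filter fun j => s j = s i ∧ t j = t i).card := by
        refine card_le_card fun j hj => ?_
        rw [mem_filter, mem_filter] at hj
        rw [mem_filter]
        exact ⟨hBs hj.1.1, (Prod.mk.injEq _ _ _ _ ▸ hj.2 : s j = s i ∧ t j = t i)⟩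
      have h6 := f4 G h1 h2 h3 hDir (s i) (t i) (hDir.s1 i hin)
      refine le_trans (by exact_mod_cast h5) (h6.trans ?_)
      have h7 : (s0 : ℝ) ≤ s i := by exact_mod_cast hi.2
      have h8 : 96 * (S : ℝ) / s i ≤ 96 * S / s0 := div_le_div_of_nonneg_left (by positivity) hs00 h7
      linarith
    linarith

end Pool.Agent.Lib.H21T
end

-- from Lib.H21T.S3
section

/-!
# Chunk S3 (M): the pairs which leave the region
-/

namespace Pool.Agent.Lib.H21T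

open Finset Pool.Agent.SZW

/-- The change of the product. -/
theorem s3_dev {A x X S Λ : ℕ} (G : Geo A x X S Λ) {a0 a1 s t H K D k a b : ℕ} (h0 : A ≤ a0) (h1 : a1 ≤ a0 + Λ)
    (h2 : a1 ≤ 2 * A) (hsS : s ≤ S) (hap : Ap x S a0 s t)
    (hD : (K : ℝ) * (4 * A / S + S * H / A) + 2 * (K : ℝ) ^ 2 * (S : ℝ) ^ 2 * X ≤ D) (hk : k < K)
    (ha0 : a0 ≤ a) (ha1 : a < a1) (hx1 : x ≤ a * b) (hx2 : a * b < x + H) :
    |(k : ℤ) * ((s : ℤ) * b - t * a)| + (k : ℤ) ^ 2 * s * t ≤ D := by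
  have r1 := s2 G h0 hsS hap ha0 (by omega) (by omega) hx1 hx2.le
  have r2 := s2_t G h0 hsS hap
  have hkK : (k : ℝ) ≤ K := by exact_mod_cast hk.le
  have hk0 : (0 : ℝ) ≤ k := Nat.cast_nonneg _
  have hs : (s : ℝ) ≤ S := by exact_mod_cast hsS
  have hs0 : (0 : ℝ) ≤ s := Nat.cast_nonneg _
  have ht : (t : ℝ) ≤ 2 * X * S := by exact_mod_cast r2
  have ht0 : (0 : ℝ) ≤ t := Nat.cast_nonneg _
  have r3 : |(k : ℝ) * ((s : ℝ) * b - t * a)| ≤ K * (4 * A / S + S * H / A) := by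
    rw [abs_mul, abs_of_nonneg hk0]
    exact mul_le_mul hkK r1 (abs_nonneg _) (Nat.cast_nonneg _)
  have r4 : (k : ℝ) ^ 2 * s * t ≤ 2 * (K : ℝ) ^ 2 * (S : ℝ) ^ 2 * X := by
    calc (k : ℝ) ^ 2 * s * t ≤ (K : ℝ) ^ 2 * S * (2 * X * S) := by gcongr
      _ = 2 * (K : ℝ) ^ 2 * (S : ℝ) ^ 2 * X := by ring
  have r5 : |(k : ℝ) * ((s : ℝ) * b - t * a)| + (k : ℝ) ^ 2 * s * t ≤ D := by linarith
  have r6 : ((|(k : ℤ) * ((s : ℤ) * b - t * a)| + (k : ℤ) ^ 2 * s * t : ℤ) : ℝ) ≤ ((D : ℤ) : ℝ) := by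
    push_cast
    exact r5
  exact_mod_cast r6

/-- `RZ` as an image: number of the pairs with a property. -/
theorem s3_card {a0 a1 x H : ℕ} (P : ℤ × ℤ → Prop) [DecidablePred P] :
    ((RZ a0 a1 x H).filter P).card = ((Rg a0 a1 x H).filter fun p => P ((p.1 : ℤ), (p.2 : ℤ))).card := by
  unfold RZ
  rw [Finset.filter_image, Finset.card_image_of_injective]
  rintro ⟨a, b⟩ ⟨c, d⟩ h
  rw [Prod.mk.injEq] at h
  simp only [Nat.cast_inj] at h
  rw [h.1, h.2]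

/-- `(a + k s) (b - k t) = a b + k (s b - t a) - k ^ 2 s t`, and `|k (s b - t a) - k ^ 2 s t| ≤ K (4 A / S + S H / A) + K ^ 2 S (2 X S) ≤ D` by `s2`, `s2_t`
and `hD`. If `(a, b) ∈ RZ a0 a1 x H` (`mem_RZ`), `a + k s < a1`, `x + D ≤ a b` and `a b + D < x + H`, then the shifted pair is in `RZ`. So a pair which leaves
has `a1 - k s ≤ a < a1` (at most `k s ≤ K S` values of `a`: `s4_card`) or is in the boundary set. (`RZ` is the image of `Rg` under the injective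
map to `ℤ × ℤ`.) -/
theorem s3p {A x X S Λ : ℕ} (G : Geo A x X S Λ) {a0 a1 s t H K D k : ℕ} (h0 : A ≤ a0) (h1 : a1 ≤ a0 + Λ) (h2 : a1 ≤ 2 * A)
    (hsS : s ≤ S) (hap : Ap x S a0 s t)
    (hD : (K : ℝ) * (4 * A / S + S * H / A) + 2 * (K : ℝ) ^ 2 * (S : ℝ) ^ 2 * X ≤ D) (hk : k < K) :
    (((RZ a0 a1 x H).filter fun p => (p.1 + (k : ℤ) * s, p.2 - (k : ℤ) * t) ∉ RZ a0 a1 x H).card : ℝ) ≤
      K * S * ((H : ℝ) / A + 1) + ((Rg a0 a1 x H).filter fun p => p.1 * p.2 < x + D ∨ x + H ≤ p.1 * p.2 + D).card := by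
  classical
  have hx : 1 ≤ x := by
    have := G.hx
    have h3 : 1 ≤ A ^ 2 := Nat.one_le_pow _ _ G.hA
    omega
  have ha01 : 1 ≤ a0 := G.hA.trans h0
  rw [s3_card]
  have hsub : (Rg a0 a1 x H).filter (fun p => (((p.1 : ℤ) + (k : ℤ) * s, (p.2 : ℤ) - (k : ℤ) * t) : ℤ × ℤ) ∉ RZ a0 a1 x H) ⊆
      ((Rg a0 a1 x H).filter fun p => p.1 ∈ Ico (a1 - k * s) a1) ∪
        ((Rg a0 a1 x H).filter fun p => p.1 * p.2 < x + D ∨ x + H ≤ p.1 * p.2 + D) := by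
    rintro ⟨a, b⟩ hp
    rw [mem_filter] at hp
    obtain ⟨hp1, hp2⟩ := hp
    have hp3 := (mem_Rg ha01).1 hp1
    simp only at hp2 hp3
    obtain ⟨g1, g2, g3, g4⟩ := hp3
    rw [mem_union, mem_filter, mem_filter]
    by_contra hcon
    rw [not_or] at hcon
    obtain ⟨c1, c2⟩ := hcon
    have c3 : a + k * s < a1 := by
      by_contra hc
      apply c1
      refine ⟨hp1, ?_⟩
      simp only [mem_Ico]
      omega
    have c4 : x + D ≤ a * b ∧ a * b + D < x + H := by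
      by_contra hc
      apply c2
      refine ⟨hp1, ?_⟩
      simp only
      by_contra hc2
      exact hc (by omega)
    have hdev := s3_dev G h0 h1 h2 hsS hap hD hk g1 g2 g3 g4
    apply hp2
    rw [mem_RZ ha01 hx]
    simp only
    have e1 : ((a : ℤ) + (k : ℤ) * s) * ((b : ℤ) - (k : ℤ) * t) =
        (a : ℤ) * b + (k : ℤ) * ((s : ℤ) * b - t * a) - (k : ℤ) ^ 2 * s * t := by ring
    have e2 := neg_abs_le ((k : ℤ) * ((s : ℤ) * b - t * a))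
    have e3 := le_abs_self ((k : ℤ) * ((s : ℤ) * b - t * a))
    have e4 : (0 : ℤ) ≤ (k : ℤ) ^ 2 * s * t := by positivity
    have c5 : (x : ℤ) + D ≤ (a : ℤ) * b := by exact_mod_cast c4.1
    have c6 : (a : ℤ) * b + D < (x : ℤ) + H := by exact_mod_cast c4.2
    have c7 : (a : ℤ) + (k : ℤ) * s < a1 := by exact_mod_cast c3
    have c8 : (0 : ℤ) ≤ (k : ℤ) * s := by positivity
    have c9 : (a0 : ℤ) ≤ a := by exact_mod_cast g1
    rw [e1]
    refine ⟨by linarith, c7, by linarith, by linarith⟩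
  have hc := (card_le_card hsub).trans (card_union_le _ _)
  have hc2 : ((((Rg a0 a1 x H).filter fun p => p.1 ∈ Ico (a1 - k * s) a1).card : ℕ) : ℝ) ≤ K * S * ((H : ℝ) / A + 1) := by
    refine (s4_card G.hA h0 _).trans ?_
    refine mul_le_mul_of_nonneg_right ?_ (by positivity)
    rw [Nat.card_Ico]
    have h3 : a1 - (a1 - k * s) ≤ K * S := by
      have h4 : k * s ≤ K * S := Nat.mul_le_mul hk.le hsS
      omega
    exact_mod_cast h3
  have hc3 : ((((Rg a0 a1 x H).filter (fun p => (((p.1 : ℤ) + (k : ℤ) * s, (p.2 : ℤ) - (k : ℤ) * t) : ℤ × ℤ) ∉ RZ a0 a1 x H)).card : ℕ) : ℝ) ≤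
      (((Rg a0 a1 x H).filter fun p => p.1 ∈ Ico (a1 - k * s) a1).card : ℝ) +
        (((Rg a0 a1 x H).filter fun p => p.1 * p.2 < x + D ∨ x + H ≤ p.1 * p.2 + D).card : ℝ) := by
    exact_mod_cast hc
  linarith

/-- The same for the inverse shift: a pair which leaves has `a0 ≤ a < a0 + k s` or is in the boundary set. -/
theorem s3m {A x X S Λ : ℕ} (G : Geo A x X S Λ) {a0 a1 s t H K D k : ℕ} (h0 : A ≤ a0) (h1 : a1 ≤ a0 + Λ) (h2 : a1 ≤ 2 * A)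
    (hsS : s ≤ S) (hap : Ap x S a0 s t)
    (hD : (K : ℝ) * (4 * A / S + S * H / A) + 2 * (K : ℝ) ^ 2 * (S : ℝ) ^ 2 * X ≤ D) (hk : k < K) :
    (((RZ a0 a1 x H).filter fun p => (p.1 - (k : ℤ) * s, p.2 + (k : ℤ) * t) ∉ RZ a0 a1 x H).card : ℝ) ≤
      K * S * ((H : ℝ) / A + 1) + ((Rg a0 a1 x H).filter fun p => p.1 * p.2 < x + D ∨ x + H ≤ p.1 * p.2 + D).card := by
  classical
  have hx : 1 ≤ x := by
    have := G.hx
    have h3 : 1 ≤ A ^ 2 := Nat.one_le_pow _ _ G.hA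
    omega
  have ha01 : 1 ≤ a0 := G.hA.trans h0
  rw [s3_card]
  have hsub : (Rg a0 a1 x H).filter (fun p => (((p.1 : ℤ) - (k : ℤ) * s, (p.2 : ℤ) + (k : ℤ) * t) : ℤ × ℤ) ∉ RZ a0 a1 x H) ⊆
      ((Rg a0 a1 x H).filter fun p => p.1 ∈ Ico a0 (a0 + k * s)) ∪
        ((Rg a0 a1 x H).filter fun p => p.1 * p.2 < x + D ∨ x + H ≤ p.1 * p.2 + D) := by
    rintro ⟨a, b⟩ hp
    rw [mem_filter] at hp
    obtain ⟨hp1, hp2⟩ := hp
    have hp3 := (mem_Rg ha01).1 hp1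
    simp only at hp2 hp3
    obtain ⟨g1, g2, g3, g4⟩ := hp3
    rw [mem_union, mem_filter, mem_filter]
    by_contra hcon
    rw [not_or] at hcon
    obtain ⟨c1, c2⟩ := hcon
    have c3 : a0 + k * s ≤ a := by
      by_contra hc
      apply c1
      refine ⟨hp1, ?_⟩
      simp only [mem_Ico]
      omega
    have c4 : x + D ≤ a * b ∧ a * b + D < x + H := by
      by_contra hc
      apply c2
      refine ⟨hp1, ?_⟩
      simp only
      by_contra hc2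
      exact hc (by omega)
    have hdev := s3_dev G h0 h1 h2 hsS hap hD hk g1 g2 g3 g4
    apply hp2
    rw [mem_RZ ha01 hx]
    simp only
    have e1 : ((a : ℤ) - (k : ℤ) * s) * ((b : ℤ) + (k : ℤ) * t) =
        (a : ℤ) * b - (k : ℤ) * ((s : ℤ) * b - t * a) - (k : ℤ) ^ 2 * s * t := by ring
    have e2 := neg_abs_le ((k : ℤ) * ((s : ℤ) * b - t * a))
    have e3 := le_abs_self ((k : ℤ) * ((s : ℤ) * b - t * a))
    have e4 : (0 : ℤ) ≤ (k : ℤ) ^ 2 * s * t := by positivity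
    have c5 : (x : ℤ) + D ≤ (a : ℤ) * b := by exact_mod_cast c4.1
    have c6 : (a : ℤ) * b + D < (x : ℤ) + H := by exact_mod_cast c4.2
    have c7 : (a0 : ℤ) + (k : ℤ) * s ≤ a := by exact_mod_cast c3
    have c8 : (0 : ℤ) ≤ (k : ℤ) * s := by positivity
    have c9 : (a : ℤ) < a1 := by exact_mod_cast g2
    rw [e1]
    refine ⟨by linarith, by linarith, by linarith, by linarith⟩
  have hc := (card_le_card hsub).trans (card_union_le _ _)
  have hc2 : ((((Rg a0 a1 x H).filter fun p => p.1 ∈ Ico a0 (a0 + k * s)).card : ℕ) : ℝ) ≤ K * S * ((H : ℝ) / A + 1) := by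
    refine (s4_card G.hA h0 _).trans ?_
    refine mul_le_mul_of_nonneg_right ?_ (by positivity)
    rw [Nat.card_Ico]
    have h3 : a0 + k * s - a0 ≤ K * S := by
      have h4 : k * s ≤ K * S := Nat.mul_le_mul hk.le hsS
      omega
    exact_mod_cast h3
  have hc3 : ((((Rg a0 a1 x H).filter (fun p => (((p.1 : ℤ) - (k : ℤ) * s, (p.2 : ℤ) + (k : ℤ) * t) : ℤ × ℤ) ∉ RZ a0 a1 x H)).card : ℕ) : ℝ) ≤
      (((Rg a0 a1 x H).filter fun p => p.1 ∈ Ico a0 (a0 + k * s)).card : ℝ) +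
        (((Rg a0 a1 x H).filter fun p => p.1 * p.2 < x + D ∨ x + H ≤ p.1 * p.2 + D).card : ℝ) := by
    exact_mod_cast hc
  linarith

end Pool.Agent.Lib.H21T
end

-- from Lib.H21T.S5
section

/-!
# Chunk S5 (S/M): the exponential sum over one piece
-/

namespace Pool.Agent.Lib.H21T

open Finset Pool.Agent.SZW

/-- `SR α a0 a1 x H = ∑_{p ∈ RZ a0 a1 x H} φ p`, `φ p = ee (α p.1 p.2)`. `s1` with `E` = the right side of `s3p`, `s3m`; for `p = (a, b)`: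
`φ (a + k s, b - k t) = ee (α a b) ee (α (s b - t a) k - α s t k ^ 2)`, so by `hgood` (`β = α (s b - t a)`) the inner sum has norm `≤ δ K`. Divide by `K`. -/
theorem s5 {A x X S Λ : ℕ} (G : Geo A x X S Λ) {a0 a1 s t H K D : ℕ} (h0 : A ≤ a0) (h1 : a1 ≤ a0 + Λ) (h2 : a1 ≤ 2 * A)
    (hsS : s ≤ S) (hap : Ap x S a0 s t) (hK : 1 ≤ K)
    (hD : (K : ℝ) * (4 * A / S + S * H / A) + 2 * (K : ℝ) ^ 2 * (S : ℝ) ^ 2 * X ≤ D) (α δ : ℝ)
    (hgood : ∀ β : ℝ, ‖∑ k ∈ range K, ee (β * k + (-(((s : ℝ) * t) * α)) * (k : ℝ) ^ 2)‖ ≤ δ * K) :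
    ‖SR α a0 a1 x H‖ ≤ δ * (Rg a0 a1 x H).card + 2 * (K * S * ((H : ℝ) / A + 1) +
      ((Rg a0 a1 x H).filter fun p => p.1 * p.2 < x + D ∨ x + H ≤ p.1 * p.2 + D).card) := by
  classical
  have hinj : Function.Injective (fun p : ℕ × ℕ => (((p.1 : ℤ), (p.2 : ℤ)) : ℤ × ℤ)) := by
    rintro ⟨a, b⟩ ⟨c, d⟩ h
    rw [Prod.mk.injEq] at h
    simp only [Nat.cast_inj] at h
    rw [h.1, h.2]
  have hcard : (RZ a0 a1 x H).card = (Rg a0 a1 x H).card := by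
    unfold RZ
    exact Finset.card_image_of_injective _ hinj
  have hSR : SR α a0 a1 x H = ∑ p ∈ RZ a0 a1 x H, ee (α * ((p.1 : ℝ) * p.2)) := by
    unfold SR RZ
    rw [Finset.sum_image fun a _ b _ h => hinj h]
    refine Finset.sum_congr rfl fun p _ => ?_
    push_cast
    rfl
  have hK0 : (0 : ℝ) < K := by exact_mod_cast hK
  have hmain := s1 (RZ a0 a1 x H) (fun p => ee (α * ((p.1 : ℝ) * p.2))) (fun p => (norm_ee _).le) (s : ℤ) (t : ℤ) K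
    (K * S * ((H : ℝ) / A + 1) + ((Rg a0 a1 x H).filter fun p => p.1 * p.2 < x + D ∨ x + H ≤ p.1 * p.2 + D).card)
    (fun k hk => s3p G h0 h1 h2 hsS hap hD hk) (fun k hk => s3m G h0 h1 h2 hsS hap hD hk)
  have hin : ∀ p ∈ RZ a0 a1 x H, ‖∑ k ∈ range K,
      (fun p : ℤ × ℤ => ee (α * ((p.1 : ℝ) * p.2))) (p.1 + (k : ℤ) * s, p.2 - (k : ℤ) * t)‖ ≤ δ * K := by
    intro p _
    have e1 : ∑ k ∈ range K, (fun p : ℤ × ℤ => ee (α * ((p.1 : ℝ) * p.2))) (p.1 + (k : ℤ) * s, p.2 - (k : ℤ) * t) =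
        ee (α * ((p.1 : ℝ) * p.2)) * ∑ k ∈ range K,
          ee ((α * ((s : ℝ) * p.2 - t * p.1)) * k + (-(((s : ℝ) * t) * α)) * (k : ℝ) ^ 2) := by
      rw [Finset.mul_sum]
      refine Finset.sum_congr rfl fun k _ => ?_
      rw [← ee_add]
      change ee (α * (((p.1 + (k : ℤ) * s : ℤ) : ℝ) * ((p.2 - (k : ℤ) * t : ℤ) : ℝ))) = _
      congr 1
      push_cast
      ring
    rw [e1, norm_mul, norm_ee, one_mul]
    exact hgood _
  have h5 := Finset.sum_le_sum hin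
  rw [Finset.sum_const, nsmul_eq_mul, hcard] at h5
  rw [hSR]
  have h6 := hmain.trans (add_le_add h5 le_rfl)
  refine le_of_mul_le_mul_left ?_ hK0
  refine h6.trans (le_of_eq ?_)
  ring

end Pool.Agent.Lib.H21T
end

-- from Lib.H21T.S6
section

/-!
# Chunk S6 (M): the exponential sum over all pieces
-/

namespace Pool.Agent.Lib.H21T

open Finset Pool.Agent.SZW

/-- The pieces `Ico (pa A1 Λ i) (pb A1 A2 Λ i)`, `i < nJ A1 A2 Λ`, are a partition of `Ico A1 A2` (`i = (a - A1) / Λ`). -/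
theorem s6_part {A1 A2 Λ : ℕ} (hΛ : 1 ≤ Λ) (h : A1 ≤ A2) {M : Type*} [AddCommMonoid M] (f : ℕ → M) :
    ∑ a ∈ Ico A1 A2, f a = ∑ i ∈ range (nJ A1 A2 Λ), ∑ a ∈ Ico (pa A1 Λ i) (pb A1 A2 Λ i), f a := by
  classical
  have hL : 0 < Λ := hΛ
  rw [← sum_fiberwise_of_maps_to (g := fun a => (a - A1) / Λ) (t := range (nJ A1 A2 Λ))
    (s := Ico A1 A2) (fun a ha => by
      rw [mem_Ico] at ha
      rw [mem_range]
      unfold nJ
      exact Nat.lt_succ_of_le (Nat.div_le_div_right (by omega)))]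
  refine sum_congr rfl fun i _ => ?_
  refine sum_congr ?_ fun _ _ => rfl
  ext a
  have e1 : (i + 1) * Λ = i * Λ + Λ := by ring
  rw [mem_filter, mem_Ico, mem_Ico]
  unfold pa pb
  rw [lt_min_iff]
  constructor
  · rintro ⟨⟨h1, h2⟩, h3⟩
    have h4 : i * Λ ≤ a - A1 := (Nat.le_div_iff_mul_le hL).1 (le_of_eq h3.symm)
    have h5 : a - A1 < (i + 1) * Λ := (Nat.div_lt_iff_lt_mul hL).1 (by omega)
    exact ⟨by omega, h2, by omega⟩
  · rintro ⟨h1, h2, h3⟩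
    have h4 : i ≤ (a - A1) / Λ := (Nat.le_div_iff_mul_le hL).2 (by omega)
    have h5 : (a - A1) / Λ < i + 1 := (Nat.div_lt_iff_lt_mul hL).2 (by omega)
    exact ⟨⟨by omega, h2⟩, by omega⟩

/-- The same for sums over `Rg` (`Rg` is a union of fibres over the first coordinate; `mem_Rg`). -/
theorem s6_Rg {A1 A2 Λ x H : ℕ} (hΛ : 1 ≤ Λ) (hA : 1 ≤ A1) (h : A1 ≤ A2) {M : Type*} [AddCommMonoid M] (f : ℕ × ℕ → M) :
    ∑ p ∈ Rg A1 A2 x H, f p = ∑ i ∈ range (nJ A1 A2 Λ), ∑ p ∈ Rg (pa A1 Λ i) (pb A1 A2 Λ i) x H, f p := by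
  unfold Rg
  simp only [sum_filter, sum_product]
  exact s6_part hΛ h (fun a => ∑ b ∈ range (x + H),
    if x ≤ a * b ∧ a * b < x + H then f (a, b) else 0)

/-- Good pieces (`i ∉ Bs`): `s5`; the other pieces: `‖SR‖ ≤ |Rg| ≤ Λ (H / A + 1)` (`s4_all`; `pb - pa ≤ Λ`; if `pb < pa` the set is empty, here `pa ≤ A2`). Sum over `i`:
`∑ |Rg_i| = |Rg| ≤ A (H / A + 1)` (`A2 - A1 ≤ A`), and the boundary sets add up to the boundary set of `Rg A1 A2 x H`, at most `2 τ D` (`s4_bdry`). -/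
theorem s6 {A x X S Λ A1 A2 : ℕ} (G : Geo A x X S Λ) (h1 : A ≤ A1) (h2 : A1 ≤ A2) (h3 : A2 ≤ 2 * A) {s t : ℕ → ℕ}
    (hDir : Dir A1 Λ x S (nJ A1 A2 Λ) s t) {H K D τ : ℕ} (hK : 1 ≤ K)
    (hτ : ∀ m : ℕ, 1 ≤ m → m < x + H → m.divisors.card ≤ τ)
    (hD : (K : ℝ) * (4 * A / S + S * H / A) + 2 * (K : ℝ) ^ 2 * (S : ℝ) ^ 2 * X ≤ D) (α δ : ℝ) (hδ : 0 ≤ δ) (Bs : Finset ℕ)
    (hgood : ∀ i ∈ range (nJ A1 A2 Λ), i ∉ Bs →
      ∀ β : ℝ, ‖∑ k ∈ range K, ee (β * k + (-(((s i : ℝ) * t i) * α)) * (k : ℝ) ^ 2)‖ ≤ δ * K) :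
    ‖SR α A1 A2 x H‖ ≤ Bs.card * (Λ * ((H : ℝ) / A + 1)) + δ * (A * ((H : ℝ) / A + 1)) +
      2 * (nJ A1 A2 Λ * (K * S * ((H : ℝ) / A + 1))) + 4 * τ * D := by
  classical
  have hA1 : 1 ≤ A := G.hA
  have hA1' : 1 ≤ A1 := by omega
  have hx1 : 1 ≤ x := by
    have h4 := G.hx
    have h5 : 1 ≤ A ^ 2 := Nat.one_le_pow _ _ hA1
    omega
  obtain ⟨W, hW⟩ : ∃ W : ℝ, W = (H : ℝ) / A + 1 := ⟨_, rfl⟩
  have hW0 : 0 ≤ W := by
    rw [hW]
    positivity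
  have hpab : ∀ i ∈ range (nJ A1 A2 Λ), pa A1 Λ i ≤ pb A1 A2 Λ i := by
    intro i hi
    rw [mem_range] at hi
    unfold nJ at hi
    have h4 : i ≤ (A2 - A1) / Λ := by omega
    have h5 : i * Λ ≤ A2 - A1 := (Nat.le_div_iff_mul_le G.hΛ).1 h4
    have e1 : (i + 1) * Λ = i * Λ + Λ := by ring
    unfold pa pb
    refine le_min ?_ ?_
    · omega
    · omega
  have hpbL : ∀ i, pb A1 A2 Λ i ≤ pa A1 Λ i + Λ := by
    intro i
    have e1 : (i + 1) * Λ = i * Λ + Λ := by ring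
    unfold pa pb
    exact (min_le_right _ _).trans (by omega)
  have hpbA : ∀ i, pb A1 A2 Λ i ≤ A2 := fun i => min_le_left _ _
  have hpaA : ∀ i, A ≤ pa A1 Λ i := by
    intro i
    unfold pa
    omega
  obtain ⟨bd, hbd⟩ : ∃ bd : ℕ → ℕ, bd = fun i => ((Rg (pa A1 Λ i) (pb A1 A2 Λ i) x H).filter
    fun p => p.1 * p.2 < x + D ∨ x + H ≤ p.1 * p.2 + D).card := ⟨_, rfl⟩
  have hstep : ∀ i ∈ range (nJ A1 A2 Λ), ‖SR α (pa A1 Λ i) (pb A1 A2 Λ i) x H‖ ≤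
      (if i ∈ Bs then (Λ : ℝ) * W else 0) + δ * (Rg (pa A1 Λ i) (pb A1 A2 Λ i) x H).card +
        2 * (K * S * W) + 2 * (bd i : ℝ) := by
    intro i hi
    have hc0 : (0 : ℝ) ≤ (Rg (pa A1 Λ i) (pb A1 A2 Λ i) x H).card := Nat.cast_nonneg _
    have hb0 : (0 : ℝ) ≤ bd i := Nat.cast_nonneg _
    by_cases hB : i ∈ Bs
    · rw [if_pos hB]
      have h4 : ‖SR α (pa A1 Λ i) (pb A1 A2 Λ i) x H‖ ≤
          (Rg (pa A1 Λ i) (pb A1 A2 Λ i) x H).card := by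
        unfold SR
        refine (norm_sum_le _ _).trans (le_of_eq ?_)
        rw [sum_congr rfl fun p _ => norm_ee _, sum_const, nsmul_eq_mul, mul_one]
      have h5 := s4_all (x := x) (H := H) hA1 (hpaA i) (hpab i hi)
      rw [← hW] at h5
      have h6 : ((pb A1 A2 Λ i : ℕ) : ℝ) - (pa A1 Λ i : ℕ) ≤ Λ := by
        have : ((pb A1 A2 Λ i : ℕ) : ℝ) ≤ ((pa A1 Λ i + Λ : ℕ) : ℝ) := by exact_mod_cast hpbL i
        push_cast at this
        linarith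
      have h7 := mul_le_mul_of_nonneg_right h6 hW0
      have h8 := mul_nonneg hδ hc0
      have h9 : (0 : ℝ) ≤ K * S * W := by positivity
      linarith
    · rw [if_neg hB]
      rw [mem_range] at hi
      have h4 := s5 G (hpaA i) (hpbL i) ((hpbA i).trans h3) (hDir.sS i hi) (hDir.ap i hi) hK hD α δ
        (hgood i (mem_range.2 hi) hB)
      rw [← hW] at h4
      have h5 : (bd i : ℝ) = (((Rg (pa A1 Λ i) (pb A1 A2 Λ i) x H).filter
        fun p => p.1 * p.2 < x + D ∨ x + H ≤ p.1 * p.2 + D).card : ℝ) := by rw [hbd]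
      rw [h5]
      linarith
  have hSR : SR α A1 A2 x H = ∑ i ∈ range (nJ A1 A2 Λ), SR α (pa A1 Λ i) (pb A1 A2 Λ i) x H := by
    unfold SR
    exact s6_Rg G.hΛ hA1' h2 _
  have hcard : ((Rg A1 A2 x H).card : ℝ) =
      ∑ i ∈ range (nJ A1 A2 Λ), ((Rg (pa A1 Λ i) (pb A1 A2 Λ i) x H).card : ℝ) := by
    have h4 := s6_Rg (x := x) (H := H) G.hΛ hA1' h2 (fun _ : ℕ × ℕ => (1 : ℝ))
    simp only [sum_const, nsmul_eq_mul, mul_one] at h4
    exact h4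
  have hbdc : (((Rg A1 A2 x H).filter
      fun p => p.1 * p.2 < x + D ∨ x + H ≤ p.1 * p.2 + D).card : ℝ) =
      ∑ i ∈ range (nJ A1 A2 Λ), (bd i : ℝ) := by
    have h4 := s6_Rg (x := x) (H := H) G.hΛ hA1' h2 (fun p : ℕ × ℕ =>
      if p.1 * p.2 < x + D ∨ x + H ≤ p.1 * p.2 + D then (1 : ℝ) else 0)
    simp only [sum_boole] at h4
    rw [hbd]
    exact h4
  have hc1 := s4_all (x := x) (H := H) hA1 h1 h2
  rw [← hW] at hc1
  have hc2 : ((A2 : ℝ) - A1) * W ≤ A * W := by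
    refine mul_le_mul_of_nonneg_right ?_ hW0
    have h4 : (A2 : ℝ) ≤ 2 * A := by exact_mod_cast h3
    have h5 : (A : ℝ) ≤ A1 := by exact_mod_cast h1
    linarith
  have hb1 : (((Rg A1 A2 x H).filter
      fun p => p.1 * p.2 < x + D ∨ x + H ≤ p.1 * p.2 + D).card : ℝ) ≤ 2 * τ * D := by
    have := s4_bdry (A2 := A2) hA1' hx1 hτ D
    exact_mod_cast this
  have hBs : ∑ i ∈ range (nJ A1 A2 Λ), (if i ∈ Bs then (Λ : ℝ) * W else 0) ≤ Bs.card * (Λ * W) := by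
    rw [← sum_filter, sum_const, nsmul_eq_mul]
    refine mul_le_mul_of_nonneg_right ?_ (by positivity)
    have : (range (nJ A1 A2 Λ)).filter (fun i => i ∈ Bs) ⊆ Bs := fun i hi => (mem_filter.1 hi).2
    exact_mod_cast card_le_card this
  rw [hSR]
  refine (norm_sum_le _ _).trans ((sum_le_sum hstep).trans ?_)
  have hs : ∑ i ∈ range (nJ A1 A2 Λ), ((if i ∈ Bs then (Λ : ℝ) * W else 0) +
      δ * (Rg (pa A1 Λ i) (pb A1 A2 Λ i) x H).card + 2 * (K * S * W) + 2 * (bd i : ℝ)) =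
      ∑ i ∈ range (nJ A1 A2 Λ), (if i ∈ Bs then (Λ : ℝ) * W else 0) +
      δ * (∑ i ∈ range (nJ A1 A2 Λ), ((Rg (pa A1 Λ i) (pb A1 A2 Λ i) x H).card : ℝ)) +
      nJ A1 A2 Λ * (2 * (K * S * W)) + 2 * ∑ i ∈ range (nJ A1 A2 Λ), (bd i : ℝ) := by
    rw [sum_add_distrib, sum_add_distrib, sum_add_distrib, mul_sum, mul_sum, sum_const, card_range,
      nsmul_eq_mul]
  rw [hs, ← hcard, ← hbdc]
  have h6 := mul_le_mul_of_nonneg_left (hc1.trans hc2) hδ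
  rw [← hW]
  nlinarith [hBs, hb1, h6]

end Pool.Agent.Lib.H21T
end
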