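import Mathlib
import Pool.Agent.Lib.H1M.RV3.M004
import Pool.Agent.Lib.H1M.RV3.M005
import Pool.Agent.Lib.H1M.RV3.M006

/-! Merged copies (to shorten the build) of Lib.H21AP.DivisorBound, Lib.H59.PolyKey, Lib.H59.SchinzelDefs, Lib.H33B.Defs, Lib.SZW.C1, Lib.H81A.T2, Lib.H3B.Defs, Lib.H3B.A2, Lib.H44W.D2. -/

-- from Lib.H21AP.DivisorBound
section

/-!
# The divisor bound
-/

namespace Pool.Agent.Lib.H21AP

open Finset

theorem succ_le_pow {ε : ℝ} (hε : 0 < ε) {p : ℕ} (hp : 2 ≤ p) (a : ℕ) :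
    ((a : ℝ) + 1) ≤ (1 + 1 / (ε * Real.log 2)) * (((p ^ a : ℕ) : ℝ) ^ ε) := by
  have hl : 0 < Real.log 2 := Real.log_pos (by norm_num)
  have hel : 0 < ε * Real.log 2 := by positivity
  have h1 : (1 : ℝ) + a * (ε * Real.log 2) ≤ ((p ^ a : ℕ) : ℝ) ^ ε := by
    have h2 : ((2 : ℝ) ^ a) ^ ε ≤ ((p ^ a : ℕ) : ℝ) ^ ε := by
      apply Real.rpow_le_rpow (by positivity) _ hε.le
      push_cast
      exact pow_le_pow_left₀ (by norm_num) (by exact_mod_cast hp) a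
    have h3 : ((2 : ℝ) ^ a) ^ ε = Real.exp (a * (ε * Real.log 2)) := by
      rw [← Real.rpow_natCast, ← Real.rpow_mul (by norm_num), Real.rpow_def_of_pos (by norm_num)]
      congr 1
      ring
    have h4 := Real.add_one_le_exp ((a : ℝ) * (ε * Real.log 2))
    rw [← h3] at h4
    linarith
  have h5 : (1 + 1 / (ε * Real.log 2)) * (1 + a * (ε * Real.log 2)) =
      a + 1 + (a * (ε * Real.log 2) + 1 / (ε * Real.log 2)) := by
    field_simp
    ring
  have h6 : 0 ≤ (a : ℝ) * (ε * Real.log 2) + 1 / (ε * Real.log 2) := by positivity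
  have h7 : (1 + 1 / (ε * Real.log 2)) * (1 + a * (ε * Real.log 2)) ≤
      (1 + 1 / (ε * Real.log 2)) * (((p ^ a : ℕ) : ℝ) ^ ε) :=
    mul_le_mul_of_nonneg_left h1 (by positivity)
  linarith

theorem succ_le_pow_of_large {ε : ℝ} (hε : 0 < ε) {p : ℕ} (hp : (2 : ℝ) ^ (1 / ε) ≤ p) (a : ℕ) :
    ((a : ℝ) + 1) ≤ ((p ^ a : ℕ) : ℝ) ^ ε := by
  have h1 : (2 : ℝ) ≤ (p : ℝ) ^ ε := by
    have h2 : ((2 : ℝ) ^ (1 / ε)) ^ ε ≤ (p : ℝ) ^ ε :=
      Real.rpow_le_rpow (by positivity) hp hε.le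
    rw [← Real.rpow_mul (by norm_num), one_div, inv_mul_cancel₀ hε.ne', Real.rpow_one] at h2
    exact h2
  have h3 : ((p ^ a : ℕ) : ℝ) ^ ε = ((p : ℝ) ^ ε) ^ a := by
    push_cast
    rw [← Real.rpow_natCast, ← Real.rpow_mul (Nat.cast_nonneg p), ← Real.rpow_natCast,
      ← Real.rpow_mul (Nat.cast_nonneg p), mul_comm]
  rw [h3]
  have h4 : (2 : ℝ) ^ a ≤ ((p : ℝ) ^ ε) ^ a := pow_le_pow_left₀ (by norm_num) h1 a
  have h5 : ((a : ℝ) + 1) ≤ (2 : ℝ) ^ a := by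
    have h6 : a + 1 ≤ 2 ^ a := Nat.lt_two_pow_self
    exact_mod_cast h6
  exact h5.trans h4

/-- For every `ε > 0` there is a constant `C` such that every positive integer `n` has at most
`C n ^ ε` divisors. -/
theorem divisor_bound {ε : ℝ} (hε : 0 < ε) : ∃ C : ℝ, 0 < C ∧ ∀ n : ℕ, 1 ≤ n →
    (n.divisors.card : ℝ) ≤ C * (n : ℝ) ^ ε := by
  obtain ⟨K, hK⟩ : ∃ K : ℝ, K = 1 + 1 / (ε * Real.log 2) := ⟨_, rfl⟩
  have hl : 0 < Real.log 2 := Real.log_pos (by norm_num)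
  have hK1 : 1 ≤ K := by
    rw [hK]
    have : 0 < 1 / (ε * Real.log 2) := by positivity
    linarith
  obtain ⟨P, hP⟩ : ∃ P : ℕ, P = ⌈(2 : ℝ) ^ (1 / ε)⌉₊ := ⟨_, rfl⟩
  refine ⟨K ^ P, by positivity, ?_⟩
  intro n hn
  have hn0 : n ≠ 0 := by omega
  rw [Nat.card_divisors hn0]
  push_cast
  have h1 : ∀ p ∈ n.primeFactors, ((n.factorization p : ℝ) + 1) ≤
      (if p < P then K else 1) * (((p ^ n.factorization p : ℕ) : ℝ) ^ ε) := by
    intro p hp
    have hpp := Nat.prime_of_mem_primeFactors hp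
    split_ifs with h
    · rw [hK]
      exact succ_le_pow hε hpp.two_le _
    · rw [one_mul]
      apply succ_le_pow_of_large hε
      have h2 : (2 : ℝ) ^ (1 / ε) ≤ P := by
        rw [hP]
        exact Nat.le_ceil _
      have h3 : (P : ℝ) ≤ p := by exact_mod_cast not_lt.1 h
      linarith
  have h2 : ∏ p ∈ n.primeFactors, ((n.factorization p : ℝ) + 1) ≤
      ∏ p ∈ n.primeFactors, ((if p < P then K else 1) *
        (((p ^ n.factorization p : ℕ) : ℝ) ^ ε)) :=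
    prod_le_prod (fun p _ => by positivity) h1
  refine h2.trans ?_
  rw [prod_mul_distrib]
  have h3 : ∏ p ∈ n.primeFactors, (((p ^ n.factorization p : ℕ) : ℝ) ^ ε) = (n : ℝ) ^ ε := by
    rw [Real.finsetProd_rpow _ _ (fun p _ => Nat.cast_nonneg _)]
    congr 1
    have h4 : n.factorization.prod (fun p a => p ^ a) = n := Nat.prod_factorization_pow_eq_self hn0
    rw [Finsupp.prod, Nat.support_factorization] at h4
    conv_rhs => rw [← h4]
    push_cast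
    rfl
  rw [h3]
  apply mul_le_mul_of_nonneg_right _ (by positivity)
  have h4 : ∏ p ∈ n.primeFactors, (if p < P then K else 1) =
      K ^ (n.primeFactors.filter fun p => p < P).card := by
    rw [prod_ite, prod_const, prod_const_one, mul_one]
  rw [h4]
  apply pow_le_pow_right₀ hK1
  calc (n.primeFactors.filter fun p => p < P).card ≤ (range P).card := by
        apply card_le_card
        intro p hp
        rw [mem_filter] at hp
        exact mem_range.2 hp.2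
    _ = P := card_range P

end Pool.Agent.Lib.H21AP
end

-- from Lib.H59.PolyKey
section

/-!
# A uniform Mertens upper bound for the roots modulo primes of an irreducible polynomial

-/

open Set Module Filter Topology NumberField IsDedekindDomain Polynomial
open scoped NNReal nonZeroDivisors ENNReal
open Ideal (absNorm)

noncomputable section

namespace Pool.Agent.Lib.H59

/-- The number of residues `a` modulo `p` with `f a ≡ 0`. -/
def rootCount (f : ℤ[X]) (p : ℕ) : ℕ :=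
  ((Finset.range p).filter fun a : ℕ => (p : ℤ) ∣ f.eval (a : ℤ)).card








end Pool.Agent.Lib.H59
end
end

-- from Lib.H59.SchinzelDefs
section

/-!
# The objects of the quantitative Goldbach-type hypothesis of Schinzel

-/

open Finset Polynomial

noncomputable section

namespace Pool.Agent.Lib.H59

/-- The set of the positive integers `n` with `N - G(n) > 0`. -/
def argSet (G : ℤ[X]) (N : ℕ) : Set ℕ := {n | 0 < n ∧ 0 < (N : ℤ) - G.eval (n : ℤ)}

/-- Their number `X(N)`. -/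
def argCount (G : ℤ[X]) (N : ℕ) : ℕ := (argSet G N).ncard

/-- `N` is admissible for `F, G`: the polynomial `N - G` is irreducible in `ℤ[x]`, and
`F_1 ⋯ F_g (N - G)` has no fixed prime divisor. -/
def Admissible {g : ℕ} (F : Fin g → ℤ[X]) (G : ℤ[X]) (N : ℕ) : Prop :=
  Irreducible (C (N : ℤ) - G) ∧
    ∀ p : ℕ, p.Prime → ¬ ∀ n : ℤ, (p : ℤ) ∣ ((∏ i, F i) * (C (N : ℤ) - G)).eval n

/-- `Q_1(N)`: the number of the positive integers `n` with `N - G(n) > 0` for which all the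
`F_i(n)` and `N - G(n)` are (positive) primes. -/
def primeCount {g : ℕ} (F : Fin g → ℤ[X]) (G : ℤ[X]) (N : ℕ) : ℕ :=
  {n : ℕ | n ∈ argSet G N ∧ (∀ i, ∃ q : ℕ, q.Prime ∧ (F i).eval (n : ℤ) = q) ∧
    ∃ q : ℕ, q.Prime ∧ (N : ℤ) - G.eval (n : ℤ) = q}.ncard

/-- `ω_N(p)`: the number of the residues `a` modulo `p` with
`F_1(a) ⋯ F_g(a) (N - G(a)) ≡ 0 (mod p)`. -/
def omegaN {g : ℕ} (F : Fin g → ℤ[X]) (G : ℤ[X]) (N p : ℕ) : ℕ :=
  ((Finset.range p).filter fun a : ℕ =>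
    (p : ℤ) ∣ ((∏ i, F i) * (C (N : ℤ) - G)).eval (a : ℤ)).card

/-- The partial product over the primes `p < z` of the singular series `𝔖(N)`. -/
def seriesTrunc {g : ℕ} (F : Fin g → ℤ[X]) (G : ℤ[X]) (N z : ℕ) : ℝ :=
  ∏ p ∈ Nat.primesBelow z, ((1 - (omegaN F G N p : ℝ) / p) * ((1 - 1 / (p : ℝ)) ^ (g + 1))⁻¹)

end Pool.Agent.Lib.H59
end
end

-- from Lib.H33B.Defs
section

/-!
# Project H33B (MP_0bf1d2_nt): definitions

See `PROOF.md` in this folder.
-/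

open Finset Polynomial Filter Topology

namespace Pool.Agent.Lib.H33B

open Pool.Agent.Lib.H59 (argSet argCount Admissible primeCount omegaN seriesTrunc rootCount)
open Pool.Agent.Lib.H68T (lp e cq Lk dQ Reg Good)

noncomputable section









/-- `F_1 ⋯ F_g` has no fixed prime divisor. -/
def NoFix {g : ℕ} (F : Fin g → ℤ[X]) : Prop :=
  ∀ p : ℕ, p.Prime → ∃ n : ℤ, ¬ (p : ℤ) ∣ (∏ i, F i).eval n













end

end Pool.Agent.Lib.H33B
end

-- from Lib.SZW.C1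
section

/-!
# C1 (S/M): algebra of the phases
-/

set_option autoImplicit false

namespace Pool.Agent.SZW

variable {ι : Type*} [Fintype ι] [DecidableEq ι] {R : Type*} [CommRing R]
  (b : Module.Basis ι ℤ R)

theorem E_add (x y : ι → ℤ) : E b (x + y) = E b x + E b y := by
  simp only [E, Pi.add_apply, add_smul, Finset.sum_add_distrib]

theorem E_smul (n : ℤ) (x : ι → ℤ) : E b (n • x) = n • E b x := by
  simp only [E, Pi.smul_apply, smul_eq_mul, mul_smul, Finset.smul_sum]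

/-- coordinates of one -/
theorem E_repr (r : R) : E b (fun i => b.repr r i) = r := by
  exact b.sum_repr r

/-- an additive map, in coordinates -/
theorem map_E (θ : R →+ ℝ) (r : R) (x : ι → ℤ) :
    θ (r * E b x) = ∑ i, (x i : ℝ) * θ (r * b i) := by
  rw [E, Finset.mul_sum, map_sum]
  refine Finset.sum_congr rfl fun i _ => ?_
  rw [mul_smul_comm, map_zsmul, zsmul_eq_mul]

/-- the difference of a quadratic phase is affine -/
theorem diff_two (θ : R →+ ℝ) (γ : ι → ℝ) (γ₀ : ℝ) (k : ι → ℤ) :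
    ∃ γ' : ℝ, (fun x : ι → ℤ => (θ (E b (x + k) ^ 2) + aff γ γ₀ (x + k)) -
      (θ (E b x ^ 2) + aff γ γ₀ x)) = aff (fun i => θ (2 * E b k * b i)) γ' := by
  refine ⟨θ (E b k ^ 2) + ∑ i, (k i : ℝ) * γ i, ?_⟩
  funext x
  have h1 : E b (x + k) ^ 2 = 2 * E b k * E b x + E b k ^ 2 + E b x ^ 2 := by
    rw [E_add]; ring
  have h2 : ∑ i, (((x + k) i : ℤ) : ℝ) * γ i = ∑ i, (x i : ℝ) * γ i + ∑ i, (k i : ℝ) * γ i := by
    rw [← Finset.sum_add_distrib]
    refine Finset.sum_congr rfl fun i _ => ?_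
    rw [Pi.add_apply]; push_cast; ring
  have h3 := map_E b θ (2 * E b k) x
  simp only [aff]
  rw [h1, map_add, map_add, h2, h3]
  ring


end Pool.Agent.SZW
end

-- from Lib.H81A.T2
section

/-!
# H81A, chunk T2 (M): boxes with a sub-product in the range
-/

namespace Pool.Agent.Lib.H81A

open Finset ArithmeticFunction

theorem t2_part (A : ℕ → ℝ) {N s r : ℕ} (hA : ∀ a, A a ≠ 0 → 2 ^ s ≤ a ∧ a ≤ 2 ^ (s + r)) {a : ℕ} (ha : 1 ≤ a) (haN : a ≤ N) :
    A a = ∑ t ∈ range (r + 1), (if 2 ^ (s + t) ≤ a ∧ a < 2 ^ (s + t + 1) ∧ a ≤ N then A a else 0) := by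
  by_cases h0 : A a = 0
  · rw [h0]
    symm
    exact Finset.sum_eq_zero (fun t _ => by rw [ite_self])
  · obtain ⟨h1, h2⟩ := hA a h0
    have h3 : s ≤ Nat.log 2 a := (Nat.le_log_iff_pow_le (by norm_num) (by omega)).2 h1
    have h4 : Nat.log 2 a ≤ s + r := by
      have := Nat.log_mono_right (b := 2) h2
      rwa [Nat.log_pow (by norm_num)] at this
    obtain ⟨h5, h6⟩ := (Nat.log_eq_iff (b := 2) (m := Nat.log 2 a) (n := a) (Or.inr ⟨by norm_num, by omega⟩)).1 rfl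
    have h7 : s + (Nat.log 2 a - s) = Nat.log 2 a := by omega
    rw [Finset.sum_eq_single (Nat.log 2 a - s)]
    · rw [if_pos]
      rw [h7]
      exact ⟨h5, h6, haN⟩
    · intro t _ ht
      rw [if_neg]
      rintro ⟨h8, h9, -⟩
      apply ht
      have h10 : Nat.log 2 a = s + t :=
        (Nat.log_eq_iff (Or.inr ⟨by norm_num, by omega⟩)).2 ⟨h8, h9⟩
      omega
    · intro h
      exact absurd (Finset.mem_range.2 (by omega)) h

theorem t2_nonneg {c η : ℝ} {N L u v r : ℕ} {V : ℝ} (par : Par c η N L u v r V) {p : Seminorm ℝ (ℕ → ℝ)} {X : ℝ}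
    (h2 : H2 c η N p X) (huv : u ≤ v + r) : 0 ≤ X := by
  have h := h2 (2 ^ u) 1 par.hc ((pow_le_pow_right₀ (by norm_num) huv).trans par.hv) (le_refl _) (fun _ => 0) (fun _ => 0)
    (fun a => by rw [abs_zero]; exact zero_le_one) (fun a => by rw [abs_zero]; exact zero_le_one)
    (fun a h => absurd rfl h) (fun a h => absurd rfl h)
  exact (apply_nonneg p _).trans h

/-- PROOF. `∏ i, dy (k i) (G i) = A * E`, `A = ∏ i ∈ S`, `E = ∏ i ∈ Sᶜ` (`Finset.prod_mul_prod_compl`). `A` is supported in `[2 ^ s, 2 ^ (s + r)]`, `s = ∑ S` (`supp`; `S.card ≤ r`); on `1 ≤ m ≤ N` (`Loc.congr`) one has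
`(A * E) m = ∑ t ∈ range (r + 1), ∑ l ∈ range L, ∑ x ∈ m.divisorsAntidiagonal, A_t x.1 * E_l x.2`, `A_t a = if 2 ^ (s + t) ≤ a ∧ a < 2 ^ (s + t + 1) ∧ a ≤ N then A a else 0`, `E_l b = if 2 ^ l ≤ b ∧ b < 2 ^ (l + 1) ∧ b ≤ N then E b else 0` (divisors of `m` are in `[1, N]`,
`N < 2 ^ L`). `|A_t| ≤ (V * V) ^ S.card`, `|E_l| ≤ (V * V) ^ (Sᶜ).card` (`bound`, `bd_dy`): divide by these constants (`p` homogeneous) and apply `H2` with `K = 2 ^ (s + t)` (`N ^ c ≤ 2 ^ u ≤ K ≤ 2 ^ (v + r) ≤ N ^ (1 / 2 - η)`), `M = 2 ^ l`. Total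
`(r + 1) L (V * V) ^ (card ι) X ≤ V ^ (2 r + 2) X`; `0 ≤ X` since `H2` holds for `α = β = 0`. (`map_sum_le` for seminorms: `Seminorm` is subadditive, induction, or `map_sum_le_sum`.) -/
theorem type2 {ι : Type} [Fintype ι] [DecidableEq ι] {c η : ℝ} {N L u v r : ℕ} {V : ℝ} (par : Par c η N L u v r V) (hr : Fintype.card ι ≤ r) (p : Seminorm ℝ (ℕ → ℝ)) (hp : Loc N p)
    {X : ℝ} (h2 : H2 c η N p X) (k : ι → ℕ) (G : ι → ArithmeticFunction ℝ) (hG : ∀ i, ∀ n, 1 ≤ n → n ≤ N → |G i n| ≤ V)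
    (S : Finset ι) (hS1 : u ≤ ∑ i ∈ S, k i) (hS2 : ∑ i ∈ S, k i ≤ v) : p (fun m => (∏ i, dy (k i) (G i)) m) ≤ V ^ (2 * r + 2) * X := by
  have hX : 0 ≤ X := t2_nonneg par h2 (by omega)
  have hV0 : 0 < V := lt_of_lt_of_le zero_lt_one par.hV
  obtain ⟨s, hs⟩ : ∃ s, s = ∑ i ∈ S, k i := ⟨_, rfl⟩
  obtain ⟨A, hA⟩ : ∃ A : ArithmeticFunction ℝ, A = ∏ i ∈ S, dy (k i) (G i) := ⟨_, rfl⟩
  obtain ⟨E, hE⟩ : ∃ E : ArithmeticFunction ℝ, E = ∏ i ∈ Sᶜ, dy (k i) (G i) := ⟨_, rfl⟩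
  have hprod : ∏ i, dy (k i) (G i) = A * E := by
    rw [hA, hE, Finset.prod_mul_prod_compl]
  have hScard : S.card ≤ r := (Finset.card_le_univ S).trans hr
  have hsupp : ∀ a, A a ≠ 0 → 2 ^ s ≤ a ∧ a ≤ 2 ^ (s + r) := by
    intro a ha
    rw [hA] at ha
    obtain ⟨h3, h4⟩ := supp S k G ha
    rw [← hs] at h3 h4
    exact ⟨h3, h4.trans (Nat.pow_le_pow_right (by norm_num) (by omega))⟩
  obtain ⟨C1, hC1⟩ : ∃ C1 : ℝ, C1 = (V * V) ^ S.card := ⟨_, rfl⟩
  obtain ⟨C2, hC2⟩ : ∃ C2 : ℝ, C2 = (V * V) ^ (Sᶜ).card := ⟨_, rfl⟩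
  have hC1p : 0 < C1 := by rw [hC1]; positivity
  have hC2p : 0 < C2 := by rw [hC2]; positivity
  have hAb : ∀ n, 1 ≤ n → n ≤ N → |A n| ≤ C1 := by
    intro n h3 h4
    rw [hA, hC1]
    exact bound S _ par.hV par.hV (fun i _ m h5 h6 => bd_dy _ _ (hG i m h5 h6)) par.hVd h3 h4
  have hEb : ∀ n, 1 ≤ n → n ≤ N → |E n| ≤ C2 := by
    intro n h3 h4
    rw [hE, hC2]
    exact bound Sᶜ _ par.hV par.hV (fun i _ m h5 h6 => bd_dy _ _ (hG i m h5 h6)) par.hVd h3 h4
  let α : ℕ → ℕ → ℝ := fun t a => if 2 ^ (s + t) ≤ a ∧ a < 2 ^ (s + t + 1) ∧ a ≤ N then A a else 0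
  let β : ℕ → ℕ → ℝ := fun l a => if 2 ^ l ≤ a ∧ a < 2 ^ (l + 1) ∧ a ≤ N then E a else 0
  have key : p (fun m => (∏ i, dy (k i) (G i)) m) =
      p (∑ t ∈ range (r + 1), ∑ l ∈ range L, fun m => ∑ x ∈ m.divisorsAntidiagonal, α t x.1 * β l x.2) := by
    apply hp.congr
    intro m hm hmN
    rw [hprod, ArithmeticFunction.mul_apply, Finset.sum_apply]
    have e1 : ∀ x ∈ m.divisorsAntidiagonal, A x.1 * E x.2 =
        ∑ t ∈ range (r + 1), ∑ l ∈ range L, α t x.1 * β l x.2 := by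
      intro x hx
      obtain ⟨h3, h4⟩ := Nat.mem_divisorsAntidiagonal.1 hx
      have h5 : 1 ≤ x.1 := by
        rcases Nat.eq_zero_or_pos x.1 with h | h
        · rw [h, zero_mul] at h3
          omega
        · exact h
      have h6 : 1 ≤ x.2 := by
        rcases Nat.eq_zero_or_pos x.2 with h | h
        · rw [h, mul_zero] at h3
          omega
        · exact h
      have h7 : x.1 ≤ N := by nlinarith
      have h8 : x.2 ≤ N := by nlinarith
      have h9 : A x.1 = ∑ t ∈ range (r + 1), α t x.1 := t2_part (fun a => A a) hsupp h5 h7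
      have hL1 : 1 ≤ L := by
        rcases Nat.eq_zero_or_pos L with h | h
        · have := par.hL
          rw [h] at this
          have h10 := par.hN
          omega
        · exact h
      have h10 : E x.2 = ∑ l ∈ range L, β l x.2 := by
        obtain ⟨h13, h14⟩ := (Nat.log_eq_iff (b := 2) (m := Nat.log 2 x.2) (n := x.2)
          (Or.inr ⟨by norm_num, by omega⟩)).1 rfl
        have h15 : Nat.log 2 x.2 < L := by
          rw [Nat.log_lt_iff_lt_pow (by norm_num) (by omega)]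
          exact lt_of_le_of_lt h8 par.hL
        rw [Finset.sum_eq_single (Nat.log 2 x.2)]
        · show E x.2 = if _ then _ else _
          rw [if_pos ⟨h13, h14, h8⟩]
        · intro t _ ht
          show (if _ then _ else _) = (0 : ℝ)
          rw [if_neg]
          rintro ⟨h16, h17, -⟩
          exact ht ((Nat.log_eq_iff (Or.inr ⟨by norm_num, by omega⟩)).2 ⟨h16, h17⟩).symm
        · intro h
          exact absurd (Finset.mem_range.2 h15) h
      rw [h9, h10, Finset.sum_mul_sum]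
    rw [Finset.sum_congr rfl e1, Finset.sum_comm]
    refine Finset.sum_congr rfl (fun t _ => ?_)
    rw [Finset.sum_apply, Finset.sum_comm]
  have hone : ∀ t ∈ range (r + 1), ∀ l ∈ range L,
      p (fun m => ∑ x ∈ m.divisorsAntidiagonal, α t x.1 * β l x.2) ≤ C1 * C2 * X := by
    intro t ht l _
    have ht' := Finset.mem_range.1 ht
    have h3 := h2 (2 ^ (s + t)) (2 ^ l)
      (par.hc.trans (pow_le_pow_right₀ (by norm_num) (by omega)))
      ((pow_le_pow_right₀ (by norm_num) (by omega)).trans par.hv)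
      (one_le_pow₀ (by norm_num)) (fun a => α t a / C1) (fun b => β l b / C2) ?_ ?_ ?_ ?_
    · have e : (fun m : ℕ => ∑ x ∈ m.divisorsAntidiagonal, α t x.1 * β l x.2) =
          (C1 * C2) • (fun m : ℕ => ∑ x ∈ m.divisorsAntidiagonal, α t x.1 / C1 * (β l x.2 / C2)) := by
        funext m
        rw [Pi.smul_apply, smul_eq_mul, Finset.mul_sum]
        refine Finset.sum_congr rfl (fun x _ => ?_)
        field_simp
      rw [e, map_smul_eq_mul, Real.norm_of_nonneg (mul_pos hC1p hC2p).le]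
      exact mul_le_mul_of_nonneg_left h3 (mul_pos hC1p hC2p).le
    · intro a
      rw [abs_div, abs_of_pos hC1p]
      apply div_le_one_of_le₀ _ hC1p.le
      show |if _ then _ else _| ≤ _
      split_ifs with h
      · exact hAb a ((Nat.one_le_two_pow).trans h.1) h.2.2
      · rw [abs_zero]
        exact hC1p.le
    · intro a
      rw [abs_div, abs_of_pos hC2p]
      apply div_le_one_of_le₀ _ hC2p.le
      show |if _ then _ else _| ≤ _
      split_ifs with h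
      · exact hEb a ((Nat.one_le_two_pow).trans h.1) h.2.2
      · rw [abs_zero]
        exact hC2p.le
    · intro a ha
      have h4 : 2 ^ (s + t) ≤ a ∧ a < 2 ^ (s + t + 1) ∧ a ≤ N := by
        by_contra h5
        apply ha
        show (if _ then _ else _) / C1 = 0
        rw [if_neg h5, zero_div]
      constructor
      · exact_mod_cast h4.1
      · have h5 : (a : ℝ) ≤ 2 ^ (s + t + 1) := by exact_mod_cast h4.2.1.le
        rw [pow_succ] at h5
        linarith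
    · intro a ha
      have h4 : 2 ^ l ≤ a ∧ a < 2 ^ (l + 1) ∧ a ≤ N := by
        by_contra h5
        apply ha
        show (if _ then _ else _) / C2 = 0
        rw [if_neg h5, zero_div]
      constructor
      · exact_mod_cast h4.1
      · have h5 : (a : ℝ) ≤ 2 ^ (l + 1) := by exact_mod_cast h4.2.1.le
        rw [pow_succ] at h5
        linarith
  rw [key]
  have hC : C1 * C2 ≤ V ^ (2 * r) := by
    rw [hC1, hC2, ← pow_add, Finset.card_add_card_compl, ← pow_two, ← pow_mul]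
    exact pow_le_pow_right₀ par.hV (by omega)
  calc p (∑ t ∈ range (r + 1), ∑ l ∈ range L, fun m => ∑ x ∈ m.divisorsAntidiagonal, α t x.1 * β l x.2)
      ≤ ∑ t ∈ range (r + 1), p (∑ l ∈ range L, fun m => ∑ x ∈ m.divisorsAntidiagonal, α t x.1 * β l x.2) :=
        Finset.le_sum_of_subadditive p (_root_.map_zero p).le (map_add_le_add p) _ _
    _ ≤ ∑ t ∈ range (r + 1), ∑ l ∈ range L, p (fun m => ∑ x ∈ m.divisorsAntidiagonal, α t x.1 * β l x.2) :=
        Finset.sum_le_sum (fun t _ => Finset.le_sum_of_subadditive p (_root_.map_zero p).le (map_add_le_add p) _ _)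
    _ ≤ ∑ t ∈ range (r + 1), ∑ l ∈ range L, C1 * C2 * X :=
        Finset.sum_le_sum (fun t ht => Finset.sum_le_sum (fun l hl => hone t ht l hl))
    _ = ((r : ℝ) + 1) * L * (C1 * C2 * X) := by
        rw [Finset.sum_const, Finset.sum_const, Finset.card_range, Finset.card_range, nsmul_eq_mul, nsmul_eq_mul]
        push_cast
        ring
    _ ≤ V * V * (V ^ (2 * r) * X) := by
        have h5 : (L : ℝ) ≤ V := by linarith [par.hVL]
        have h6 := par.hVr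
        have h7 : C1 * C2 * X ≤ V ^ (2 * r) * X := mul_le_mul_of_nonneg_right hC hX
        refine mul_le_mul (mul_le_mul h6 h5 (Nat.cast_nonneg _) hV0.le) h7 ?_ (mul_pos hV0 hV0).le
        exact mul_nonneg (mul_pos hC1p hC2p).le hX
    _ = V ^ (2 * r + 2) * X := by ring

end Pool.Agent.Lib.H81A
end

-- from Lib.H3B.Defs
section

/-!
# H3B (MP_443e5f, candidate T, module B): the inverse theorem for class II kernels. Definitions.

All sums over the integers are `tsum`s of finitely supported functions. `ee x = exp (2 pi i x)`.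
See `PROOF.md`.
-/

namespace Pool.Agent.H3B

open Finset
open Pool.Agent.H44W (ee TF cut)

noncomputable section

/-- `u` vanishes outside `[-N, N]`. -/
def Sp (N : ℕ) (u : ℤ → ℂ) : Prop := ∀ y : ℤ, u y ≠ 0 → |y| ≤ (N : ℤ)

/-- `G_d(y) = g(y) conj g(y + d)`. -/
def Gd (g : ℤ → ℂ) (d y : ℤ) : ℂ := g y * (starRingEnd ℂ) (g (y + d))

/-- The modulation `u(y) e(-θ y)`. -/
def tw (θ : ℝ) (u : ℤ → ℂ) (y : ℤ) : ℂ := u y * ee (-(θ * y))

/-- The autocorrelation. -/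
def R (u : ℤ → ℂ) (k : ℤ) : ℂ := ∑' y : ℤ, u y * (starRingEnd ℂ) (u (y + k))

/-- `E_m(u)`: the sum over the residue classes modulo `m` of the squares of the sums of `u`. -/
def E (m : ℕ) (u : ℤ → ℂ) : ℝ := ∑ r ∈ range m, ‖∑' v : ℤ, u (r + m * v)‖ ^ 2

/-- The `a` in `[K, 2K)` with `a + j` in `[K, 2K)`. -/
def Ij (K : ℕ) (j : ℤ) : Finset ℕ :=
  (Ico K (2 * K)).filter (fun a => (K : ℤ) ≤ a + j ∧ (a : ℤ) + j < 2 * K)


theorem Sp.finite {N : ℕ} {u : ℤ → ℂ} (h : Sp N u) : (Function.support u).Finite := by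
  refine (Set.finite_Icc (-(N : ℤ)) N).subset fun y hy => ?_
  exact abs_le.1 (h y hy)

theorem Sp.summable {N : ℕ} {u : ℤ → ℂ} (h : Sp N u) : Summable u := summable_of_hasFiniteSupport h.finite

theorem Sp.zero {N : ℕ} {u : ℤ → ℂ} (h : Sp N u) {y : ℤ} (hy : (N : ℤ) < |y|) : u y = 0 := by
  by_contra h0
  exact absurd (h y h0) (not_le.2 hy)

theorem Sp.mono {N N' : ℕ} {u : ℤ → ℂ} (h : Sp N u) (hN : N ≤ N') : Sp N' u := fun y hy =>
  (h y hy).trans (by exact_mod_cast hN)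

theorem Sp.mul_left {N : ℕ} {u : ℤ → ℂ} (h : Sp N u) (w : ℤ → ℂ) : Sp N (fun y => w y * u y) :=
  fun y hy => h y (right_ne_zero_of_mul hy)

theorem Sp.mul_right {N : ℕ} {u : ℤ → ℂ} (h : Sp N u) (w : ℤ → ℂ) : Sp N (fun y => u y * w y) :=
  fun y hy => h y (left_ne_zero_of_mul hy)

theorem Sp.Gd {N : ℕ} {g : ℤ → ℂ} (h : Sp N g) (d : ℤ) : Sp N (Gd g d) := h.mul_right _

theorem Sp.tw {N : ℕ} {u : ℤ → ℂ} (h : Sp N u) (θ : ℝ) : Sp N (tw θ u) := h.mul_right _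

theorem Sp.shift {N : ℕ} {u : ℤ → ℂ} (h : Sp N u) (t : ℤ) : Sp (N + t.natAbs) (fun y => u (y + t)) := by
  intro y hy
  have h1 := h (y + t) hy
  have h2 : |y| ≤ |y + t| + |t| := by
    have := abs_sub (y + t) t
    simpa using this
  push_cast
  linarith

theorem Sp.tsum_eq {N : ℕ} {u : ℤ → ℂ} (h : Sp N u) : ∑' y, u y = ∑ y ∈ Icc (-(N : ℤ)) N, u y := by
  refine tsum_eq_sum fun y hy => ?_
  by_contra h0
  exact hy (mem_Icc.2 (abs_le.1 (h y h0)))

theorem Sp.norm_tsum_le {N : ℕ} {u : ℤ → ℂ} (h : Sp N u) {b : ℝ} (hb : ∀ y, ‖u y‖ ≤ b) :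
    ‖∑' y, u y‖ ≤ (2 * N + 1) * b := by
  rw [h.tsum_eq]
  refine (norm_sum_le_of_le _ fun y _ => hb y).trans ?_
  rw [sum_const, Int.card_Icc, nsmul_eq_mul]
  have h1 : (N : ℤ) + 1 - -(N : ℤ) = ((2 * N + 1 : ℕ) : ℤ) := by push_cast; ring
  rw [h1, Int.toNat_natCast]
  push_cast
  exact le_rfl

theorem ee_zero : ee 0 = 1 := by simp [ee]

theorem ee_add (x y : ℝ) : ee (x + y) = ee x * ee y := by
  unfold ee
  rw [← Complex.exp_add]
  congr 1
  push_cast
  ring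

theorem ee_norm (x : ℝ) : ‖ee x‖ = 1 := by
  unfold ee
  have : (2 * Real.pi * x * Complex.I : ℂ) = ((2 * Real.pi * x : ℝ) : ℂ) * Complex.I := by push_cast; ring
  rw [this, Complex.norm_exp_ofReal_mul_I]

theorem ee_conj (x : ℝ) : (starRingEnd ℂ) (ee x) = ee (-x) := by
  unfold ee
  rw [← Complex.exp_conj]
  congr 1
  have h2 : (starRingEnd ℂ) 2 = 2 := by
    have := Complex.conj_ofReal 2
    exact_mod_cast this
  rw [map_mul, map_mul, map_mul, h2, Complex.conj_ofReal, Complex.conj_ofReal, Complex.conj_I]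
  push_cast
  ring

theorem ee_int (k : ℤ) : ee k = 1 := by
  unfold ee
  rw [Complex.exp_eq_one_iff]
  exact ⟨k, by push_cast; ring⟩

theorem tw_norm (θ : ℝ) (u : ℤ → ℂ) (y : ℤ) : ‖tw θ u y‖ = ‖u y‖ := by
  unfold tw
  rw [norm_mul, ee_norm, mul_one]

theorem Gd_norm {g : ℤ → ℂ} (h : ∀ z, ‖g z‖ ≤ 1) (d y : ℤ) : ‖Gd g d y‖ ≤ 1 := by
  unfold Gd
  rw [norm_mul, RCLike.norm_conj]
  exact mul_le_one₀ (h _) (norm_nonneg _) (h _)

theorem E_nonneg (m : ℕ) (u : ℤ → ℂ) : 0 ≤ E m u := sum_nonneg fun _ _ => sq_nonneg _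

theorem cut_Sp (n : ℕ) (g : ℤ → ℂ) : Sp n (cut n g) := by
  intro y hy
  unfold cut at hy
  split_ifs at hy with h
  · rw [mem_Icc] at h
    rw [abs_le]
    omega
  · exact absurd rfl hy

theorem cut_norm {n : ℕ} {g : ℤ → ℂ} (h : ∀ z, ‖g z‖ ≤ 1) (z : ℤ) : ‖cut n g z‖ ≤ 1 := by
  unfold cut
  split_ifs
  · exact h z
  · simp

end

end Pool.Agent.H3B
end

-- from Lib.H3B.A2
section

/-! # H3B (MP_443e5f, candidate T, module B), chunk A2 -/

namespace Pool.Agent.H3B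

open Finset
open Pool.Agent.H44W (ee TF cut)

/-- Chunk A2a (S/M). The sum over the residue classes modulo m. PROOF. `Int.divModEquiv` (or: both sides are finite sums; the map (r, v) ↦ r + m v from range m × ℤ to ℤ is a
bijection, inverse y ↦ (y mod m, y / m)). Summability: everything has finite support (Sp). -/
theorem tsum_res {N : ℕ} {u : ℤ → ℂ} (h : Sp N u) {m : ℕ} (hm : 0 < m) :
    ∑' y, u y = ∑ r ∈ range m, ∑' v : ℤ, u (r + m * v) := by
  have hne : NeZero m := ⟨hm.ne'⟩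
  have e1 : ∑' y, u y = ∑' p : Fin m × ℤ, u (((Int.divModEquiv m).symm.trans (Equiv.refl ℤ)) (p.2, p.1)) := by
    rw [← Equiv.tsum_eq ((Equiv.prodComm (Fin m) ℤ).trans (Int.divModEquiv m).symm)]
    rfl
  have hs : Summable fun p : Fin m × ℤ => u (((Int.divModEquiv m).symm.trans (Equiv.refl ℤ)) (p.2, p.1)) := by
    have h1 := (Equiv.summable_iff ((Equiv.prodComm (Fin m) ℤ).trans (Int.divModEquiv m).symm)).2 h.summable
    exact h1
  rw [e1, hs.tsum_prod, tsum_fintype, Finset.sum_range]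
  refine Finset.sum_congr rfl fun r _ => tsum_congr fun v => ?_
  congr 1
  simp only [Int.divModEquiv, Equiv.trans_apply, Equiv.refl_apply, Equiv.coe_fn_symm_mk]
  ring

/-- the sum over a range as a sum over `ZMod m` -/
theorem a2_range (m : ℕ) [NeZero m] (F : ZMod m → ℝ) : ∑ r ∈ range m, F (r : ZMod m) = ∑ x, F x := by
  refine Finset.sum_bij' (fun (j : ℕ) _ => (j : ZMod m)) (fun (z : ZMod m) _ => z.val)
    (fun _ _ => mem_univ _) (fun z _ => mem_range.2 (ZMod.val_lt z)) (fun j hj => ?_)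
    (fun z _ => ZMod.natCast_zmod_val z) (fun _ _ => rfl)
  rw [ZMod.val_natCast, Nat.mod_eq_of_lt (mem_range.1 hj)]

/-- the inner sum depends on the residue class only -/
theorem a2_class (m : ℕ) [NeZero m] (u : ℤ → ℂ) (s : ℤ) :
    ‖∑' v : ℤ, u (s + m * v)‖ ^ 2 = ‖∑' v : ℤ, u (((s : ZMod m).val : ℤ) + m * v)‖ ^ 2 := by
  have e1 : ((s : ZMod m).val : ℤ) = s % m := by
    rw [ZMod.val_intCast]
  have e2 : ∑' v : ℤ, u (s + m * v) = ∑' v : ℤ, u (s % m + m * v) := by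
    rw [← Equiv.tsum_eq (Equiv.addRight (s / m)) (fun v => u (s % m + m * v))]
    refine tsum_congr fun v => ?_
    congr 1
    simp only [Equiv.coe_addRight]
    have := Int.emod_add_mul_ediv s m
    linear_combination -this
  rw [e1, e2]

theorem a2_E (m : ℕ) [NeZero m] (u : ℤ → ℂ) (t : ℤ) : E m (fun y => u (y + t)) =
    ∑ x : ZMod m, ‖∑' v : ℤ, u (((x + (t : ZMod m)).val : ℤ) + m * v)‖ ^ 2 := by
  rw [← a2_range]
  unfold E
  refine Finset.sum_congr rfl fun r _ => ?_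
  have e1 : ((r : ZMod m) + (t : ZMod m)) = (((r : ℤ) + t : ℤ) : ZMod m) := by push_cast; rfl
  rw [e1, ← a2_class]
  have e2 : ∀ v : ℤ, (r : ℤ) + m * v + t = (r : ℤ) + t + m * v := fun v => by ring
  simp only [e2]

/-- Chunk A2b (S/M). `E` does not change under translation. PROOF. It suffices to treat t = 1 and t = -1, or: r + t = r' + m s with r' = (r + t) mod m; r ↦ r' is a permutation of range m
and ∑' v, u (r + t + m v) = ∑' v, u (r' + m (v + s)) = ∑' v, u (r' + m v) (Equiv.addRight, tsum_eq). No support condition is needed. -/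
theorem E_shift (m : ℕ) (u : ℤ → ℂ) (t : ℤ) : E m (fun y => u (y + t)) = E m u := by
  rcases Nat.eq_zero_or_pos m with hm | hm
  · subst hm
    simp [E]
  have hne : NeZero m := ⟨hm.ne'⟩
  have h0 : E m u = ∑ x : ZMod m, ‖∑' v : ℤ, u ((x.val : ℤ) + m * v)‖ ^ 2 := by
    have h1 := a2_E m u 0
    simpa using h1
  rw [a2_E, h0]
  exact Equiv.sum_comp (Equiv.addRight (t : ZMod m)) (fun x : ZMod m => ‖∑' v : ℤ, u ((x.val : ℤ) + m * v)‖ ^ 2)

/-- Chunk A2c (S). -/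
theorem E_conj (m : ℕ) (u : ℤ → ℂ) : E m (fun y => (starRingEnd ℂ) (u y)) = E m u := by
  unfold E
  refine Finset.sum_congr rfl fun r _ => ?_
  rw [← Complex.conj_tsum, RCLike.norm_conj]

/-- Chunk A2d (S). -/
theorem E_const (m : ℕ) (u : ℤ → ℂ) {c : ℂ} (hc : ‖c‖ = 1) : E m (fun y => c * u y) = E m u := by
  unfold E
  refine Finset.sum_congr rfl fun r _ => ?_
  rw [tsum_mul_left, norm_mul, hc, one_mul]

end Pool.Agent.H3B
end

-- from Lib.H44W.D2
section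
/-!
CHUNK D2 (S/M). THEOREM D12: choice of the parameters.
Let be = beta. If TF = 0 nothing to prove. Otherwise some x, y in [1,n] and (a,b) in the boxes have q a b = x + y <= 2n, so
q A1 A2 <= 2n; in particular A1 A2 <= 2n (pd_ne_zero).
L := ceil(576/be^2), H := ceil(165888/be^4), N := floor(l/(4 q L^2 (1+H))). Then L <= 577/be^2, 1 + H <= 165890/be^4
(be <= 1), 4 q L^2 (1+H) <= 4 q * 577^2 * 165890/be^8 <= 10^12 q/be^8 <= l, so N >= 1 and N >= l/(8 q L^2 (1+H)).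
2 L <= 1154/be^2 <= A1, H L <= 165889 * 577/be^6 <= 10^8/be^6 <= A1, the same for A2.
two_steps with V0 = A1 A2 <= 2n: be^2 n^4 <= |TF|^2 <= 24 n^2 (12 n^2/L + M1), so M1 >= be^2 n^2/24 - 12 n^2/L >= be^2 n^2/48.
M1^2 = 9 n V0 (n V0/H + M2) <= 18 n^2 (2 n^2/H + M2), so M2 >= be^4 n^2/41472 - 2 n^2/H >= be^4 n^2/82944.
M2 = 4 n N L (A1 + A2) + V0 l m/N. First term: N L (A1+A2) <= l (A1+A2)/(4 q L (1+H)) <= n/(4 * 576/be^2 * 165888/be^4)
<= be^4 n/663552 so the first term is <= be^4 n^2/165888. Hence V0 l m/N >= be^4 n^2/165888, V0 <= 2n/q: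
m >= be^4 n q N/(331776 l) >= be^4 n/(331776 * 8 L^2 (1+H)) >= be^12 n/(2654208 * 332929 * 165890) >= be^12 n/10^18.
-/
namespace Pool.Agent.H44W
open Finset

theorem pd_ne_zero (n q A1 A2 B1 B2 : ℕ) (W f g : ℤ → ℂ)
    (h : TF n (pd q (Ico (A1:ℤ) B1) (Ico (A2:ℤ) B2)) W f g ≠ 0) : q * (A1 * A2) ≤ 2 * n := by
  unfold TF at h
  obtain ⟨x, hx, hx2⟩ := Finset.exists_ne_zero_of_sum_ne_zero h
  obtain ⟨y, hy, hy2⟩ := Finset.exists_ne_zero_of_sum_ne_zero hx2
  have h3 : pd q (Ico (A1:ℤ) B1) (Ico (A2:ℤ) B2) (x + y) ≠ 0 := by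
    intro h0
    apply hy2
    rw [h0]
    ring
  unfold pd at h3
  have h4 : ((Ico (A1:ℤ) B1 ×ˢ Ico (A2:ℤ) B2).filter (fun p => (q:ℤ) * p.1 * p.2 = x + y)).card ≠ 0 := by
    intro h0
    apply h3
    rw [h0]
    simp
  obtain ⟨p, hp⟩ := Finset.card_ne_zero.1 h4
  rw [Finset.mem_filter, Finset.mem_product, Finset.mem_Ico, Finset.mem_Ico] at hp
  obtain ⟨⟨hp1, hp2⟩, hp3⟩ := hp
  rw [Finset.mem_Icc] at hx hy
  have h5 : (A1:ℤ) * A2 ≤ p.1 * p.2 := by
    apply mul_le_mul hp1.1 hp2.1 (by positivity)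
    exact le_trans (by positivity) hp1.1
  have h6 : (q:ℤ) * (A1 * A2) ≤ 2 * n := by
    have h7 : (q:ℤ) * (A1 * A2) ≤ q * (p.1 * p.2) := mul_le_mul_of_nonneg_left h5 (by positivity)
    rw [← mul_assoc (q:ℤ) p.1, hp3] at h7
    linarith [hx.2, hy.2]
  exact_mod_cast h6

theorem d2_num (n A1 A2 q l N L H m b : ℝ) (hb : 0 < b) (hb1 : b ≤ 1) (hn : 1 ≤ n) (hq : 1 ≤ q)
    (hA1 : 0 ≤ A1) (hA2 : 0 ≤ A2) (hm : 0 ≤ m) (hL : 0 < L) (hH : 0 < H) (hN : 1 ≤ N) (hl : 0 < l)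
    (hV : q * (A1 * A2) ≤ 2 * n) (hlA : l * (A1 + A2) ≤ n)
    (hL1 : 576 ≤ L * b ^ 2) (hL2 : L * b ^ 2 ≤ 577) (hH1 : 165888 ≤ H * b ^ 4)
    (hH2 : (1 + H) * b ^ 4 ≤ 165890) (hl1 : 4 * q * L ^ 2 * (1 + H) * N ≤ l)
    (hl2 : l ≤ 8 * q * L ^ 2 * (1 + H) * N)
    (hT : (b * n ^ 2) ^ 2 ≤ 12 * n * A1 * A2 * (6 * n * A1 * A2 / L + Real.sqrt (9 * n * A1 * A2 *
        (n * A1 * A2 / H + (4 * n * N * L * (A1 + A2) + A1 * A2 * l * m / N))))) :
    b ^ 12 * n ≤ 10 ^ 18 * m := by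
  have hn0 : 0 < n := by linarith
  have hN0 : 0 < N := by linarith
  have hq0 : 0 < q := by linarith
  obtain ⟨V, hVd⟩ : ∃ V, V = A1 * A2 := ⟨_, rfl⟩
  have hV0 : 0 ≤ V := by rw [hVd]; positivity
  have hqV : q * V ≤ 2 * n := by rw [hVd]; exact hV
  have hV2 : V ≤ 2 * n := le_trans (by nlinarith) hqV
  obtain ⟨M2, hM2⟩ : ∃ M2, M2 = 4 * n * N * L * (A1 + A2) + A1 * A2 * l * m / N := ⟨_, rfl⟩
  have hM20 : 0 ≤ M2 := by rw [hM2]; positivity
  rw [← hM2] at hT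
  obtain ⟨S, hS⟩ : ∃ S, S = Real.sqrt (18 * n ^ 2 * (2 * n ^ 2 / H + M2)) := ⟨_, rfl⟩
  have hS0 : 0 ≤ S := by rw [hS]; exact Real.sqrt_nonneg _
  have hSle : Real.sqrt (9 * n * A1 * A2 * (n * A1 * A2 / H + M2)) ≤ S := by
    rw [hS]
    apply Real.sqrt_le_sqrt
    have e1 : 9 * n * A1 * A2 = 9 * n * V := by rw [hVd]; ring
    have e2 : n * A1 * A2 / H = n * V / H := by rw [hVd]; ring
    rw [e1, e2]
    have e3 : 9 * n * V ≤ 18 * n ^ 2 := by nlinarith
    have e4 : n * V / H ≤ 2 * n ^ 2 / H := by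
      apply div_le_div_of_nonneg_right _ hH.le
      nlinarith
    apply mul_le_mul e3 (by linarith) (by positivity) (by positivity)
  have h1 : (b * n ^ 2) ^ 2 ≤ 24 * n ^ 2 * (12 * n ^ 2 / L + S) := by
    refine hT.trans ?_
    have e1 : 12 * n * A1 * A2 = 12 * n * V := by rw [hVd]; ring
    have e2 : 6 * n * A1 * A2 / L = 6 * n * V / L := by rw [hVd]; ring
    rw [e1, e2]
    have e3 : 12 * n * V ≤ 24 * n ^ 2 := by nlinarith
    have e4 : 6 * n * V / L ≤ 12 * n ^ 2 / L := by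
      apply div_le_div_of_nonneg_right _ hL.le
      nlinarith
    apply mul_le_mul e3 (by linarith) _ (by positivity)
    have := Real.sqrt_nonneg (9 * n * A1 * A2 * (n * A1 * A2 / H + M2))
    positivity
  have h2 : 12 * n ^ 2 / L ≤ b ^ 2 * n ^ 2 / 48 := by
    rw [div_le_iff₀ hL]
    have : b ^ 2 * n ^ 2 / 48 * L = n ^ 2 * (L * b ^ 2) / 48 := by ring
    rw [this]
    nlinarith [sq_nonneg n, mul_le_mul_of_nonneg_left hL1 (sq_nonneg n)]
  have h3 : b ^ 2 * n ^ 2 / 48 ≤ S := by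
    have e1 : (b * n ^ 2) ^ 2 = n ^ 2 * (b ^ 2 * n ^ 2) := by ring
    rw [e1] at h1
    have e2 : n ^ 2 * (b ^ 2 * n ^ 2) ≤ n ^ 2 * (24 * (b ^ 2 * n ^ 2 / 48 + S)) := by
      refine h1.trans ?_
      have : n ^ 2 * (24 * (b ^ 2 * n ^ 2 / 48 + S)) = 24 * n ^ 2 * (b ^ 2 * n ^ 2 / 48 + S) := by ring
      rw [this]
      apply mul_le_mul_of_nonneg_left _ (by positivity)
      linarith
    have e3 := le_of_mul_le_mul_left e2 (by positivity)
    linarith
  have h4 : b ^ 4 * n ^ 4 / 2304 ≤ 18 * n ^ 2 * (2 * n ^ 2 / H + M2) := by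
    have e0 : 0 ≤ 18 * n ^ 2 * (2 * n ^ 2 / H + M2) := by positivity
    have e1 : S ^ 2 = 18 * n ^ 2 * (2 * n ^ 2 / H + M2) := by rw [hS]; exact Real.sq_sqrt e0
    rw [← e1]
    have e2 : (b ^ 2 * n ^ 2 / 48) ^ 2 ≤ S ^ 2 := pow_le_pow_left₀ (by positivity) h3 2
    have e3 : (b ^ 2 * n ^ 2 / 48) ^ 2 = b ^ 4 * n ^ 4 / 2304 := by ring
    linarith
  have h5 : b ^ 4 * n ^ 2 / 41472 ≤ 2 * n ^ 2 / H + M2 := by
    have e1 : b ^ 4 * n ^ 4 / 2304 = 18 * n ^ 2 * (b ^ 4 * n ^ 2 / 41472) := by ring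
    rw [e1] at h4
    exact le_of_mul_le_mul_left h4 (by positivity)
  have h6 : 2 * n ^ 2 / H ≤ b ^ 4 * n ^ 2 / 82944 := by
    rw [div_le_iff₀ hH]
    have : b ^ 4 * n ^ 2 / 82944 * H = n ^ 2 * (H * b ^ 4) / 82944 := by ring
    rw [this]
    nlinarith [mul_le_mul_of_nonneg_left hH1 (sq_nonneg n)]
  have h7 : b ^ 4 * n ^ 2 / 82944 ≤ M2 := by linarith
  have hLH : 576 * 165888 ≤ (L * H) * b ^ 6 := by
    have : (L * H) * b ^ 6 = (L * b ^ 2) * (H * b ^ 4) := by ring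
    rw [this]
    exact mul_le_mul hL1 hH1 (by norm_num) (by positivity)
  have h8 : 4 * n * N * L * (A1 + A2) ≤ b ^ 4 * n ^ 2 / 165888 := by
    have e1 : (4 * L * (1 + H)) * (N * L * (A1 + A2)) ≤ n := by
      have e2 : (4 * L * (1 + H)) * (N * L) ≤ l := by
        refine le_trans ?_ hl1
        have e3 : 4 * q * L ^ 2 * (1 + H) * N = q * ((4 * L * (1 + H)) * (N * L)) := by ring
        rw [e3]
        have e4 : 0 ≤ (4 * L * (1 + H)) * (N * L) := by positivity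
        nlinarith
      calc (4 * L * (1 + H)) * (N * L * (A1 + A2)) = ((4 * L * (1 + H)) * (N * L)) * (A1 + A2) := by ring
        _ ≤ l * (A1 + A2) := mul_le_mul_of_nonneg_right e2 (by linarith)
        _ ≤ n := hlA
    have e5 : (4 * (L * H)) * (N * L * (A1 + A2)) ≤ n := by
      refine le_trans ?_ e1
      apply mul_le_mul_of_nonneg_right _ (by positivity)
      nlinarith
    have e6 : 4 * (576 * 165888) * (N * L * (A1 + A2)) ≤ n * b ^ 6 := by
      have e7 : 4 * (576 * 165888) * (N * L * (A1 + A2)) ≤ 4 * ((L * H) * b ^ 6) * (N * L * (A1 + A2)) := by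
        apply mul_le_mul_of_nonneg_right _ (by positivity)
        linarith
      refine e7.trans ?_
      have e8 : 4 * ((L * H) * b ^ 6) * (N * L * (A1 + A2)) = ((4 * (L * H)) * (N * L * (A1 + A2))) * b ^ 6 := by ring
      rw [e8]
      exact mul_le_mul_of_nonneg_right e5 (by positivity)
    have e9 : b ^ 6 ≤ b ^ 4 := pow_le_pow_of_le_one hb.le hb1 (by norm_num)
    have e10 : 4 * (576 * 165888) * (N * L * (A1 + A2)) ≤ n * b ^ 4 :=
      e6.trans (mul_le_mul_of_nonneg_left e9 hn0.le)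
    have e11 : 4 * n * N * L * (A1 + A2) = 4 * n * (N * L * (A1 + A2)) := by ring
    rw [e11]
    have e12 : N * L * (A1 + A2) ≤ n * b ^ 4 / (4 * (576 * 165888)) := by
      rw [le_div_iff₀ (by norm_num)]
      linarith
    calc 4 * n * (N * L * (A1 + A2)) ≤ 4 * n * (n * b ^ 4 / (4 * (576 * 165888))) :=
          mul_le_mul_of_nonneg_left e12 (by positivity)
      _ = b ^ 4 * n ^ 2 * (4 / (4 * (576 * 165888))) := by ring
      _ ≤ b ^ 4 * n ^ 2 * (1 / 165888) := by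
          apply mul_le_mul_of_nonneg_left _ (by positivity)
          norm_num
      _ = b ^ 4 * n ^ 2 / 165888 := by ring
  have h9 : b ^ 4 * n ^ 2 / 165888 ≤ V * l * m / N := by
    have : V * l * m / N = A1 * A2 * l * m / N := by rw [hVd]
    rw [this]
    have e1 : b ^ 4 * n ^ 2 / 82944 = b ^ 4 * n ^ 2 / 165888 + b ^ 4 * n ^ 2 / 165888 := by ring
    linarith
  have h10 : b ^ 4 * n ^ 2 / 165888 ≤ 16 * n * (L ^ 2 * (1 + H)) * m := by
    refine h9.trans ?_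
    rw [div_le_iff₀ hN0]
    calc V * l * m ≤ V * (8 * q * L ^ 2 * (1 + H) * N) * m := by
          apply mul_le_mul_of_nonneg_right _ hm
          exact mul_le_mul_of_nonneg_left hl2 hV0
      _ = (q * V) * (8 * (L ^ 2 * (1 + H)) * N * m) := by ring
      _ ≤ (2 * n) * (8 * (L ^ 2 * (1 + H)) * N * m) := by
          apply mul_le_mul_of_nonneg_right hqV
          positivity
      _ = 16 * n * (L ^ 2 * (1 + H)) * m * N := by ring
  have h11 : b ^ 4 * n / 165888 ≤ 16 * (L ^ 2 * (1 + H)) * m := by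
    have e1 : b ^ 4 * n ^ 2 / 165888 = n * (b ^ 4 * n / 165888) := by ring
    have e2 : 16 * n * (L ^ 2 * (1 + H)) * m = n * (16 * (L ^ 2 * (1 + H)) * m) := by ring
    rw [e1, e2] at h10
    exact le_of_mul_le_mul_left h10 hn0
  have h12 : (L ^ 2 * (1 + H)) * b ^ 8 ≤ 577 ^ 2 * 165890 := by
    have e1 : (L ^ 2 * (1 + H)) * b ^ 8 = (L * b ^ 2) ^ 2 * ((1 + H) * b ^ 4) := by ring
    rw [e1]
    apply mul_le_mul _ hH2 (by positivity) (by norm_num)
    exact pow_le_pow_left₀ (by positivity) hL2 2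
  have h13 : b ^ 12 * n / 165888 ≤ 16 * (577 ^ 2 * 165890) * m := by
    calc b ^ 12 * n / 165888 = (b ^ 4 * n / 165888) * b ^ 8 := by ring
      _ ≤ (16 * (L ^ 2 * (1 + H)) * m) * b ^ 8 := mul_le_mul_of_nonneg_right h11 (by positivity)
      _ = 16 * ((L ^ 2 * (1 + H)) * b ^ 8) * m := by ring
      _ ≤ 16 * (577 ^ 2 * 165890) * m := by
          apply mul_le_mul_of_nonneg_right _ hm
          linarith
  have h14 : b ^ 12 * n ≤ 165888 * (16 * (577 ^ 2 * 165890) * m) := by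
    have := mul_le_mul_of_nonneg_left h13 (by norm_num : (0:ℝ) ≤ 165888)
    have e : 165888 * (b ^ 12 * n / 165888) = b ^ 12 * n := by ring
    linarith
  refine h14.trans ?_
  nlinarith

theorem D12 (n q l A1 A2 B1 B2 : ℕ) (hn : 1 ≤ n) (hq : 1 ≤ q) (be : ℝ) (hbe : 0 < be)
    (hbe1 : be ≤ 1) (hB1 : B1 ≤ 2 * A1) (hB2 : B2 ≤ 2 * A2) (hA1 : (10:ℝ) ^ 8 ≤ A1 * be ^ 6)
    (hA2 : (10:ℝ) ^ 8 ≤ A2 * be ^ 6) (hl : (10:ℝ) ^ 12 * q ≤ l * be ^ 8)
    (hlA : l * (A1 + A2) ≤ n) (W f g : ℤ → ℂ) (hW : ∀ x, ‖W x‖ ≤ 1) (hf : ∀ x, ‖f x‖ ≤ 1)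
    (hg : ∀ x, ‖g x‖ ≤ 1) (hT : be * (n:ℝ) ^ 2 ≤ ‖TF n (pd q (Ico (A1:ℤ) B1) (Ico (A2:ℤ) B2)) W f g‖)
    (m : ℝ) (hm : ∀ w : ℤ → ℂ, WL l w → ‖∑ y ∈ Icc (1:ℤ) n, g y * w y‖ ≤ m) :
    be ^ 12 * n ≤ 10 ^ 18 * m := by
  have hnR : (1:ℝ) ≤ n := by exact_mod_cast hn
  have hqR : (1:ℝ) ≤ q := by exact_mod_cast hq
  have hm0 : 0 ≤ m := by
    have h0 : WL l (fun _ => 0) := ⟨0, fun _ => 0, fun _ => 0, by simp, by simp⟩
    exact (norm_nonneg _).trans (hm _ h0)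
  have hTpos : 0 < ‖TF n (pd q (Ico (A1:ℤ) B1) (Ico (A2:ℤ) B2)) W f g‖ :=
    lt_of_lt_of_le (by positivity) hT
  have hV := pd_ne_zero n q A1 A2 B1 B2 W f g (norm_pos_iff.1 hTpos)
  have hb2 : (1:ℝ) ≤ 1 / be ^ 2 := by
    rw [le_div_iff₀ (by positivity), one_mul]
    exact pow_le_one₀ hbe.le hbe1
  have hb4 : (1:ℝ) ≤ 1 / be ^ 4 := by
    rw [le_div_iff₀ (by positivity), one_mul]
    exact pow_le_one₀ hbe.le hbe1
  obtain ⟨L, hLd⟩ : ∃ L : ℕ, L = ⌈576 / be ^ 2⌉₊ := ⟨_, rfl⟩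
  obtain ⟨H, hHd⟩ : ∃ H : ℕ, H = ⌈165888 / be ^ 4⌉₊ := ⟨_, rfl⟩
  have hL1 : 576 / be ^ 2 ≤ (L:ℝ) := by rw [hLd]; exact Nat.le_ceil _
  have hL2 : (L:ℝ) ≤ 577 / be ^ 2 := by
    rw [hLd]
    have h1 := (Nat.ceil_lt_add_one (show (0:ℝ) ≤ 576 / be ^ 2 by positivity)).le
    have h2 : (577:ℝ) / be ^ 2 = 576 / be ^ 2 + 1 / be ^ 2 := by ring
    linarith
  have hH1 : 165888 / be ^ 4 ≤ (H:ℝ) := by rw [hHd]; exact Nat.le_ceil _
  have hH2 : (H:ℝ) ≤ 165889 / be ^ 4 := by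
    rw [hHd]
    have h1 := (Nat.ceil_lt_add_one (show (0:ℝ) ≤ 165888 / be ^ 4 by positivity)).le
    have h2 : (165889:ℝ) / be ^ 4 = 165888 / be ^ 4 + 1 / be ^ 4 := by ring
    linarith
  have k1 : 576 ≤ (L:ℝ) * be ^ 2 := by rw [div_le_iff₀ (by positivity)] at hL1; exact hL1
  have k2 : (L:ℝ) * be ^ 2 ≤ 577 := by rw [le_div_iff₀ (by positivity)] at hL2; exact hL2
  have k3 : 165888 ≤ (H:ℝ) * be ^ 4 := by rw [div_le_iff₀ (by positivity)] at hH1; exact hH1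
  have k4' : (H:ℝ) * be ^ 4 ≤ 165889 := by rw [le_div_iff₀ (by positivity)] at hH2; exact hH2
  have hbp4 : be ^ 4 ≤ 1 := pow_le_one₀ hbe.le hbe1
  have k4 : (1 + (H:ℝ)) * be ^ 4 ≤ 165890 := by nlinarith
  have hL0 : (0:ℝ) < L := by
    have : (0:ℝ) < 576 / be ^ 2 := by positivity
    linarith
  have hH0 : (0:ℝ) < H := by
    have : (0:ℝ) < 165888 / be ^ 4 := by positivity
    linarith
  have hLn : 1 ≤ L := by exact_mod_cast hL0
  have hHn : 1 ≤ H := by exact_mod_cast hH0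
  obtain ⟨P, hPd⟩ : ∃ P : ℕ, P = 4 * q * L ^ 2 * (1 + H) := ⟨_, rfl⟩
  have hP0 : 0 < P := by rw [hPd]; positivity
  have hPR : (P:ℝ) = 4 * q * (L:ℝ) ^ 2 * (1 + H) := by rw [hPd]; push_cast; ring
  have hPl : P ≤ l := by
    have e1 : (P:ℝ) * be ^ 8 ≤ 10 ^ 12 * q := by
      have e2 : (P:ℝ) * be ^ 8 = 4 * q * (((L:ℝ) * be ^ 2) ^ 2 * ((1 + (H:ℝ)) * be ^ 4)) := by rw [hPR]; ring
      rw [e2]
      have e3 : ((L:ℝ) * be ^ 2) ^ 2 * ((1 + (H:ℝ)) * be ^ 4) ≤ 577 ^ 2 * 165890 := by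
        apply mul_le_mul _ k4 (by positivity) (by norm_num)
        exact pow_le_pow_left₀ (by positivity) k2 2
      have e4 : 4 * (q:ℝ) * (((L:ℝ) * be ^ 2) ^ 2 * ((1 + (H:ℝ)) * be ^ 4)) ≤ 4 * q * (577 ^ 2 * 165890) :=
        mul_le_mul_of_nonneg_left e3 (by positivity)
      refine e4.trans ?_
      nlinarith
    have e5 : (P:ℝ) ≤ l := by
      have := e1.trans hl
      exact le_of_mul_le_mul_right this (by positivity)
    exact_mod_cast e5
  obtain ⟨N, hNd⟩ : ∃ N : ℕ, N = l / P := ⟨_, rfl⟩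
  have hN1 : 1 ≤ N := by rw [hNd]; exact (Nat.one_le_div_iff hP0).2 hPl
  have hNl : P * N ≤ l := by rw [hNd, mul_comm]; exact Nat.div_mul_le_self l P
  have hNl2 : l < P * (N + 1) := by
    rw [hNd]
    exact Nat.lt_mul_div_succ l hP0
  have hA : ∀ A : ℕ, (10:ℝ) ^ 8 ≤ A * be ^ 6 → 2 * L ≤ A ∧ H * L ≤ A := by
    intro A hA
    have hb6 : (0:ℝ) < be ^ 6 := by positivity
    constructor
    · have e1 : ((2 * L : ℕ):ℝ) * be ^ 6 ≤ A * be ^ 6 := by
        refine le_trans ?_ hA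
        push_cast
        have e2 : be ^ 6 ≤ be ^ 2 := pow_le_pow_of_le_one hbe.le hbe1 (by norm_num)
        have e3 : 2 * (L:ℝ) * be ^ 6 ≤ 2 * L * be ^ 2 := mul_le_mul_of_nonneg_left e2 (by positivity)
        nlinarith
      exact_mod_cast le_of_mul_le_mul_right e1 hb6
    · have e1 : ((H * L : ℕ):ℝ) * be ^ 6 ≤ A * be ^ 6 := by
        refine le_trans ?_ hA
        push_cast
        have e2 : (H:ℝ) * L * be ^ 6 = (H * be ^ 4) * (L * be ^ 2) := by ring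
        rw [e2]
        have e3 : ((H:ℝ) * be ^ 4) * (L * be ^ 2) ≤ 165889 * 577 :=
          mul_le_mul k4' k2 (by positivity) (by norm_num)
        refine e3.trans (by norm_num)
      exact_mod_cast le_of_mul_le_mul_right e1 hb6
  have hts := two_steps n q l N L H A1 A2 B1 B2 hn hq hN1 hLn hHn (by rw [← hPd]; exact hNl)
    (hA A1 hA1).1 (hA A2 hA2).1 (hA A1 hA1).2 (hA A2 hA2).2 hB1 hB2 W f g hW hf hg m hm
  have hN1R : (1:ℝ) ≤ N := by exact_mod_cast hN1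
  have hl0 : (0:ℝ) < l := by
    have : 0 < l := lt_of_lt_of_le hP0 hPl
    exact_mod_cast this
  refine d2_num n A1 A2 q l N L H m be hbe hbe1 hnR hqR (by positivity) (by positivity) hm0 hL0 hH0
    hN1R hl0 (by exact_mod_cast hV) (by exact_mod_cast hlA) k1 k2 k3 k4 ?_ ?_ ?_
  · have : ((P * N : ℕ):ℝ) ≤ l := by exact_mod_cast hNl
    push_cast at this
    rw [hPR] at this
    exact this
  · have h1 : ((l:ℕ):ℝ) ≤ ((P * (N + 1) : ℕ):ℝ) := by exact_mod_cast hNl2.le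
    push_cast at h1
    have h2 : (P:ℝ) * ((N:ℝ) + 1) ≤ P * (2 * N) := by
      apply mul_le_mul_of_nonneg_left _ (by positivity)
      linarith
    refine h1.trans (h2.trans ?_)
    rw [hPR]
    apply le_of_eq
    ring
  · refine le_trans ?_ hts
    exact pow_le_pow_left₀ (by positivity) hT 2

end Pool.Agent.H44W
end
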