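import Mathlib
import Pool.Agent.Lib.H1M.RV3.M004
import Pool.Agent.Lib.H1M.RV3.M010
import Pool.Agent.Lib.H1M.RV3.M011
import Pool.Agent.Lib.H1M.RV3.M014

/-! Merged copies (to shorten the build) of Lib.H21T.M6, Lib.H21T.Z0, Lib.H21T.Z2, Lib.H21T.Z1, Lib.H3B.CS, Lib.H3B.SY, Lib.H3B.TP, Lib.H21T.Z5A, Lib.H3B.S2A, Lib.H81A.NU. -/

-- from Lib.H21T.M6
section

/-!
# Chunk M6 (S): freezing
-/

namespace Pool.Agent.Lib.H21T

open Finset Pool.Agent.SZW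

theorem m6_ee (s t : ℝ) : ‖ee s - ee t‖ ≤ 2 * Real.pi * |s - t| := by
  have h1 : ee s - ee t = ee t * (ee (s - t) - 1) := by
    rw [mul_sub, ← ee_add, mul_one]
    congr 2
    ring
  rw [h1, norm_mul, norm_ee, one_mul]
  have h2 : ee (s - t) = Complex.exp (Complex.I * ((2 * Real.pi * (s - t) : ℝ) : ℂ)) := by
    unfold ee
    congr 1
    push_cast
    ring
  rw [h2]
  refine Real.norm_exp_I_mul_ofReal_sub_one_le.trans (le_of_eq ?_)
  rw [Real.norm_eq_abs, abs_mul, abs_of_pos (by positivity : (0 : ℝ) < 2 * Real.pi)]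

theorem m6_freeze (x H : ℕ) (θ : ℝ) (m : ℕ) (h1 : x ≤ m) (h2 : m < x + H) :
    ‖ee (θ * m) - ee (θ * x)‖ ≤ 2 * Real.pi * |θ| * H := by
  refine (m6_ee _ _).trans ?_
  have e1 : θ * (m : ℝ) - θ * x = θ * ((m : ℝ) - x) := by ring
  rw [e1, abs_mul]
  have h3 : |(m : ℝ) - x| ≤ H := by
    have h4 : (x : ℝ) ≤ m := by exact_mod_cast h1
    have h5 : (m : ℝ) < x + H := by exact_mod_cast h2
    rw [abs_le]
    constructor <;> linarith [Nat.cast_nonneg (α := ℝ) H]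
  have h4 : |θ| * |(m : ℝ) - x| ≤ |θ| * H := mul_le_mul_of_nonneg_left h3 (abs_nonneg _)
  calc 2 * Real.pi * (|θ| * |(m : ℝ) - x|) ≤ 2 * Real.pi * (|θ| * H) :=
        mul_le_mul_of_nonneg_left h4 (by positivity)
    _ = 2 * Real.pi * |θ| * H := by ring

/-- `‖ee (θ m) - ee (θ x)‖ ≤ 2 π |θ| H` for `x ≤ m < x + H`; `ee ((β + θ) m) = ee (β m) ee (θ m)`; `|l m - L| ≤ ε`, `|g m| ≤ B`, `|L| ≤ 1`. -/
theorem m6 (x H : ℕ) (β θ L ε B : ℝ) (l g : ℕ → ℝ) (hL : |L| ≤ 1) (hε : 0 ≤ ε) (hB : 0 ≤ B)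
    (hl : ∀ m, x ≤ m → m < x + H → |l m - L| ≤ ε) (hg : ∀ m, x ≤ m → m < x + H → |g m| ≤ B) :
    ‖∑ m ∈ Ico x (x + H), ((l m * g m : ℝ) : ℂ) * ee ((β + θ) * m) -
      (L : ℂ) * ee (θ * x) * ∑ m ∈ Ico x (x + H), (g m : ℂ) * ee (β * m)‖ ≤ H * B * (ε + 2 * Real.pi * |θ| * H) := by
  rw [mul_sum, ← sum_sub_distrib]
  have h1 : ∀ m ∈ Ico x (x + H), ‖((l m * g m : ℝ) : ℂ) * ee ((β + θ) * m) -
      (L : ℂ) * ee (θ * x) * ((g m : ℂ) * ee (β * m))‖ ≤ B * (ε + 2 * Real.pi * |θ| * H) := by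
    intro m hm
    rw [mem_Ico] at hm
    have e1 : ((l m * g m : ℝ) : ℂ) * ee ((β + θ) * m) - (L : ℂ) * ee (θ * x) * ((g m : ℂ) * ee (β * m)) =
        (g m : ℂ) * ee (β * m) * (((l m - L : ℝ) : ℂ) * ee (θ * m) + (L : ℂ) * (ee (θ * m) - ee (θ * x))) := by
      have e2 : ee ((β + θ) * m) = ee (β * m) * ee (θ * m) := by
        rw [← ee_add]
        congr 1
        ring
      rw [e2]
      push_cast
      ring
    rw [e1, norm_mul, norm_mul, norm_ee, mul_one, Complex.norm_real, Real.norm_eq_abs]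
    have h2 : ‖((l m - L : ℝ) : ℂ) * ee (θ * m) + (L : ℂ) * (ee (θ * m) - ee (θ * x))‖ ≤
        ε + 2 * Real.pi * |θ| * H := by
      refine (norm_add_le _ _).trans (add_le_add ?_ ?_)
      · rw [norm_mul, norm_ee, mul_one, Complex.norm_real, Real.norm_eq_abs]
        exact hl m hm.1 hm.2
      · rw [norm_mul, Complex.norm_real, Real.norm_eq_abs]
        calc |L| * ‖ee (θ * m) - ee (θ * x)‖ ≤ 1 * (2 * Real.pi * |θ| * H) :=
              mul_le_mul hL (m6_freeze x H θ m hm.1 hm.2) (norm_nonneg _) zero_le_one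
          _ = 2 * Real.pi * |θ| * H := one_mul _
    exact mul_le_mul (hg m hm.1 hm.2) h2 (norm_nonneg _) hB
  refine (norm_sum_le _ _).trans ((sum_le_sum h1).trans (le_of_eq ?_))
  rw [sum_const, nsmul_eq_mul, Nat.card_Ico, Nat.add_sub_cancel_left]
  ring

/-- The same for the pairs: `‖ee (θ a b) - ee (θ x)‖ ≤ 2 π |θ| H`. -/
theorem m6_SR (A1 A2 x H : ℕ) (hA : 1 ≤ A1) (β θ : ℝ) :
    ‖SR (β + θ) A1 A2 x H - ee (θ * x) * SR β A1 A2 x H‖ ≤ (Rg A1 A2 x H).card * (2 * Real.pi * |θ| * H) := by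
  unfold SR
  rw [mul_sum, ← sum_sub_distrib]
  have h1 : ∀ p ∈ Rg A1 A2 x H, ‖ee ((β + θ) * ((p.1 : ℝ) * p.2)) - ee (θ * x) * ee (β * ((p.1 : ℝ) * p.2))‖ ≤
      2 * Real.pi * |θ| * H := by
    intro p hp
    obtain ⟨_, _, h3, h4⟩ := (mem_Rg hA).1 hp
    have e1 : ee ((β + θ) * ((p.1 : ℝ) * p.2)) - ee (θ * x) * ee (β * ((p.1 : ℝ) * p.2)) =
        ee (β * ((p.1 : ℝ) * p.2)) * (ee (θ * ((p.1 * p.2 : ℕ) : ℝ)) - ee (θ * x)) := by
      have e2 : ee ((β + θ) * ((p.1 : ℝ) * p.2)) = ee (β * ((p.1 : ℝ) * p.2)) * ee (θ * ((p.1 * p.2 : ℕ) : ℝ)) := by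
        rw [← ee_add]
        congr 1
        push_cast
        ring
      rw [e2]
      ring
    rw [e1, norm_mul, norm_ee, one_mul]
    exact m6_freeze x H θ _ h3 h4
  refine (norm_sum_le _ _).trans ((sum_le_sum h1).trans (le_of_eq ?_))
  rw [sum_const, nsmul_eq_mul]

end Pool.Agent.Lib.H21T
end

-- from Lib.H21T.Z0
section

/-!
# Chunk Z0 (S): symmetry and vanishing outside
-/

namespace Pool.Agent.Lib.H21T

open Finset Pool.Agent.SZW

theorem dbox_symm (A1 A2 B1 B2 m : ℕ) : dbox A1 A2 B1 B2 m = dbox B1 B2 A1 A2 m := by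
  unfold dbox
  refine Finset.card_bij (fun p _ => p.swap) ?_ ?_ ?_
  · intro p hp
    rw [mem_filter, mem_product] at hp ⊢
    refine ⟨⟨hp.1.2, hp.1.1⟩, ?_⟩
    rw [← hp.2]
    exact Nat.mul_comm _ _
  · intro p _ q _ h
    exact Prod.swap_injective h
  · intro p hp
    refine ⟨p.swap, ?_, Prod.swap_swap p⟩
    rw [mem_filter, mem_product] at hp ⊢
    refine ⟨⟨hp.1.2, hp.1.1⟩, ?_⟩
    rw [← hp.2]
    exact Nat.mul_comm _ _

theorem z0_aux (a a' b b' t : ℝ) : min a (t - b) - max a' (t - b') = min b' (t - a') - max b (t - a) := by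
  rw [min_def, max_def, min_def, max_def]
  split_ifs <;> linarith

theorem z0_pos {A B m : ℕ} (hA : 1 ≤ A) (hB : 1 ≤ B) (h : m < A * B) : Real.log m ≤ Real.log A + Real.log B := by
  have hA0 : (A : ℝ) ≠ 0 := by
    have : (1 : ℝ) ≤ A := by exact_mod_cast hA
    positivity
  have hB0 : (B : ℝ) ≠ 0 := by
    have : (1 : ℝ) ≤ B := by exact_mod_cast hB
    positivity
  rw [← Real.log_mul hA0 hB0]
  rcases Nat.eq_zero_or_pos m with hm | hm
  · rw [hm, Nat.cast_zero, Real.log_zero]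
    refine Real.log_nonneg ?_
    have : 1 ≤ A * B := Nat.mul_pos hA hB
    exact_mod_cast this
  · refine Real.log_le_log (by exact_mod_cast hm) ?_
    exact_mod_cast h.le

/-- `min (log A2) (t - log B1) = t - max (t - log A2) (log B1)`, and so on (`t = log m`). -/
theorem lbox_symm (A1 A2 B1 B2 m : ℕ) : lbox A1 A2 B1 B2 m = lbox B1 B2 A1 A2 m := by
  unfold lbox
  rw [z0_aux]

theorem Mbox_symm (Q A1 A2 B1 B2 m : ℕ) : Mbox Q A1 A2 B1 B2 m = Mbox Q B1 B2 A1 A2 m := by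
  unfold Mbox
  rw [lbox_symm]

/-- If `m < A1 B1` there are no pairs, and `min (..) - max (..) ≤ (log m - log B1) - log A1 ≤ 0` (also for `m = 0`, `log 0 = 0`). -/
theorem z0_low {A1 A2 B1 B2 m : ℕ} (hA : 1 ≤ A1) (hB : 1 ≤ B1) (h : m < A1 * B1) : dbox A1 A2 B1 B2 m = 0 ∧ lbox A1 A2 B1 B2 m = 0 := by
  constructor
  · unfold dbox
    rw [card_eq_zero, filter_eq_empty_iff]
    intro p hp hpm
    rw [mem_product, mem_Ico, mem_Ico] at hp
    have h1 : A1 * B1 ≤ p.1 * p.2 := Nat.mul_le_mul hp.1.1 hp.2.1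
    omega
  · unfold lbox
    refine max_eq_left ?_
    have h1 := z0_pos hA hB h
    have h2 := min_le_right (Real.log A2) (Real.log m - Real.log B1)
    have h3 := le_max_left (Real.log A1) (Real.log m - Real.log B2)
    linarith

/-- If `m ≥ A2 B2` there are no pairs, and `min (..) - max (..) ≤ log A2 - (log m - log B2) ≤ 0`. -/
theorem z0_high {A1 A2 B1 B2 m : ℕ} (hA : 1 ≤ A2) (hB : 1 ≤ B2) (h : A2 * B2 ≤ m) : dbox A1 A2 B1 B2 m = 0 ∧ lbox A1 A2 B1 B2 m = 0 := by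
  constructor
  · unfold dbox
    rw [card_eq_zero, filter_eq_empty_iff]
    intro p hp hpm
    rw [mem_product, mem_Ico, mem_Ico] at hp
    have h1 : p.1 * p.2 < A2 * B2 := Nat.mul_lt_mul'' hp.1.2 hp.2.2
    omega
  · unfold lbox
    refine max_eq_left ?_
    have hA0 : (0 : ℝ) < A2 := by exact_mod_cast hA
    have hB0 : (0 : ℝ) < B2 := by exact_mod_cast hB
    have h1 : Real.log A2 + Real.log B2 ≤ Real.log m := by
      rw [← Real.log_mul hA0.ne' hB0.ne']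
      refine Real.log_le_log (mul_pos hA0 hB0) ?_
      exact_mod_cast h
    have h2 := min_le_left (Real.log A2) (Real.log m - Real.log B1)
    have h3 := le_max_right (Real.log A1) (Real.log m - Real.log B2)
    linarith

end Pool.Agent.Lib.H21T
end

-- from Lib.H21T.Z2
section

/-!
# Chunk Z2 (S/M): the logarithmic length is almost constant
-/

namespace Pool.Agent.Lib.H21T

open Finset Pool.Agent.SZW

theorem z2_add {x h : ℝ} (hx : 0 < x) (hh : 0 ≤ h) : Real.log (x + h) ≤ Real.log x + h / x := by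
  have h1 : x + h = x * (1 + h / x) := by field_simp
  have h2 : 0 ≤ h / x := by positivity
  rw [h1, Real.log_mul hx.ne' (by positivity)]
  have h3 := Real.log_le_sub_one_of_pos (show 0 < 1 + h / x by positivity)
  linarith

theorem z2_log {x m B H : ℕ} (hB : 1 ≤ B) (hx : 1 ≤ x) (h1 : x ≤ m) (h2 : m < x + H) :
    |(Real.log m - Real.log B) - Real.log ((x / B + 1 : ℕ) : ℝ)| ≤ (B : ℝ) / x + H / x := by
  have hBr : (0 : ℝ) < B := by exact_mod_cast hB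
  have hxr : (0 : ℝ) < x := by exact_mod_cast hx
  have hf : (0 : ℝ) < ((x / B + 1 : ℕ) : ℝ) := by positivity
  have a1 : (x : ℝ) ≤ ((x / B + 1 : ℕ) : ℝ) * B := by
    have := (Nat.div_lt_iff_lt_mul hB).1 (Nat.lt_succ_self (x / B))
    exact_mod_cast this.le
  have a2 : ((x / B + 1 : ℕ) : ℝ) * B ≤ x + B := by
    have h3 : x / B * B ≤ x := Nat.div_mul_le_self x B
    have h4 : (x / B + 1) * B ≤ x + B := by
      rw [add_mul, one_mul]
      omega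
    exact_mod_cast h4
  have a3 : Real.log x ≤ Real.log ((x / B + 1 : ℕ) : ℝ) + Real.log B := by
    rw [← Real.log_mul hf.ne' hBr.ne']
    exact Real.log_le_log hxr a1
  have a4 : Real.log ((x / B + 1 : ℕ) : ℝ) + Real.log B ≤ Real.log x + B / x := by
    rw [← Real.log_mul hf.ne' hBr.ne']
    exact (Real.log_le_log (by positivity) a2).trans (z2_add hxr hBr.le)
  have a5 : Real.log x ≤ Real.log m := Real.log_le_log hxr (by exact_mod_cast h1)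
  have a6 : Real.log m ≤ Real.log x + H / x := by
    refine (Real.log_le_log (by exact_mod_cast (lt_of_lt_of_le hx h1)) ?_).trans (z2_add hxr (Nat.cast_nonneg H))
    exact_mod_cast h2.le
  have a7 : 0 ≤ (B : ℝ) / x := by positivity
  have a8 : 0 ≤ (H : ℝ) / x := by positivity
  rw [abs_le]
  constructor <;> linarith

/-- `log` is monotone, so `log (max A1 (x / B2 + 1)) = max (log A1) (log (⌊x / B2⌋ + 1))`, the same for `min`; `max 0`, `min`, `max` are 1-Lipschitz. For `y = x / B2 ≥ A1 / 4`: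
`0 ≤ log (⌊y⌋ + 1) - log y ≤ 1 / y ≤ 4 / A1`; for `y = x / B1 ≥ A1 / 2`: `≤ 2 / A1`; `0 ≤ log m - log x ≤ H / x ≤ 6 / A1` (`x ≥ A1 B1 / 2`, `A1 ≤ B1`, `H ≤ 3 A1`). Total at most
`(4 + 6 + 2 + 6) / A1`. -/
theorem z2 (A1 A2 B1 B2 x H m : ℕ) (hA : 8 ≤ A1) (hAB : A1 ≤ B1) (hA2 : A1 ≤ A2) (hB2 : B1 ≤ B2) (hB2' : B2 ≤ 2 * B1) (hx : A1 * B1 ≤ 2 * x)
    (hH : H ≤ 3 * A1) (h1 : x ≤ m) (h2 : m < x + H) :
    |lbox A1 A2 B1 B2 m - max 0 (Real.log (min A2 (x / B1 + 1) : ℕ) - Real.log (max A1 (x / B2 + 1) : ℕ))| ≤ 24 / A1 := by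
  have hxpos : 1 ≤ x := by
    have h3 : 1 * 1 ≤ A1 * B1 := Nat.mul_le_mul (by omega) (by omega)
    omega
  have hxr : (0 : ℝ) < x := by exact_mod_cast hxpos
  have hAr : (0 : ℝ) < A1 := by
    have : 0 < A1 := by omega
    exact_mod_cast this
  have hmax : Real.log ((max A1 (x / B2 + 1) : ℕ) : ℝ) = max (Real.log A1) (Real.log ((x / B2 + 1 : ℕ) : ℝ)) := by
    rcases le_total A1 (x / B2 + 1) with h | h
    · rw [max_eq_right h, max_eq_right]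
      exact Real.log_le_log hAr (by exact_mod_cast h)
    · rw [max_eq_left h, max_eq_left]
      exact Real.log_le_log (by positivity) (by exact_mod_cast h)
  have hA2r : (0 : ℝ) < A2 := by
    have : 0 < A2 := by omega
    exact_mod_cast this
  have hmin : Real.log ((min A2 (x / B1 + 1) : ℕ) : ℝ) = min (Real.log A2) (Real.log ((x / B1 + 1 : ℕ) : ℝ)) := by
    rcases le_total A2 (x / B1 + 1) with h | h
    · rw [min_eq_left h, min_eq_left]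
      exact Real.log_le_log hA2r (by exact_mod_cast h)
    · rw [min_eq_right h, min_eq_right]
      exact Real.log_le_log (by positivity) (by exact_mod_cast h)
  rw [hmax, hmin]
  have e1 := z2_log (B := B1) (by omega) hxpos h1 h2
  have e2 := z2_log (B := B2) (by omega) hxpos h1 h2
  have hxAB : (A1 : ℝ) * B1 ≤ 2 * x := by exact_mod_cast hx
  have hABr : (A1 : ℝ) ≤ B1 := by exact_mod_cast hAB
  have hB2r : (B2 : ℝ) ≤ 2 * B1 := by exact_mod_cast hB2'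
  have hHr : (H : ℝ) ≤ 3 * A1 := by exact_mod_cast hH
  have f1 : (B1 : ℝ) / x ≤ 2 / A1 := by
    rw [div_le_div_iff₀ hxr hAr]
    linarith
  have f2 : (B2 : ℝ) / x ≤ 4 / A1 := by
    rw [div_le_div_iff₀ hxr hAr]
    nlinarith
  have f3 : (H : ℝ) / x ≤ 6 / A1 := by
    rw [div_le_div_iff₀ hxr hAr]
    have h3 : (H : ℝ) * A1 ≤ 3 * A1 * B1 := mul_le_mul hHr hABr hAr.le (by positivity)
    linarith
  have g1 : |min (Real.log A2) (Real.log m - Real.log B1) - min (Real.log A2) (Real.log ((x / B1 + 1 : ℕ) : ℝ))| ≤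
      |(Real.log m - Real.log B1) - Real.log ((x / B1 + 1 : ℕ) : ℝ)| := by
    have h3 := abs_min_sub_min_le_max (Real.log A2) (Real.log m - Real.log B1) (Real.log A2) (Real.log ((x / B1 + 1 : ℕ) : ℝ))
    rw [sub_self, abs_zero, max_eq_right (abs_nonneg _)] at h3
    exact h3
  have g2 : |max (Real.log A1) (Real.log m - Real.log B2) - max (Real.log A1) (Real.log ((x / B2 + 1 : ℕ) : ℝ))| ≤
      |(Real.log m - Real.log B2) - Real.log ((x / B2 + 1 : ℕ) : ℝ)| := by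
    have h3 := abs_max_sub_max_le_max (Real.log A1) (Real.log m - Real.log B2) (Real.log A1) (Real.log ((x / B2 + 1 : ℕ) : ℝ))
    refine h3.trans (max_le ?_ le_rfl)
    rw [sub_self, abs_zero]
    exact abs_nonneg _
  unfold lbox
  set a := min (Real.log A2) (Real.log m - Real.log B1) with ha
  set a' := min (Real.log A2) (Real.log ((x / B1 + 1 : ℕ) : ℝ)) with ha'
  set b := max (Real.log A1) (Real.log m - Real.log B2) with hb
  set b' := max (Real.log A1) (Real.log ((x / B2 + 1 : ℕ) : ℝ)) with hb'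
  have g3 : |max 0 (a - b) - max 0 (a' - b')| ≤ |(a - b) - (a' - b')| := by
    refine (abs_max_sub_max_le_max 0 (a - b) 0 (a' - b')).trans (max_le ?_ le_rfl)
    rw [sub_self, abs_zero]
    exact abs_nonneg _
  have g4 : |(a - b) - (a' - b')| ≤ |a - a'| + |b - b'| := by
    have h3 : (a - b) - (a' - b') = (a - a') - (b - b') := by ring
    rw [h3]
    exact abs_sub _ _
  have f4 : (2 : ℝ) / A1 + 6 / A1 + (4 / A1 + 6 / A1) ≤ 24 / A1 := by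
    rw [← add_div, ← add_div, ← add_div, div_le_div_iff_of_pos_right hAr]
    norm_num
  linarith

end Pool.Agent.Lib.H21T
end

-- from Lib.H21T.Z1
section

/-!
# Chunk Z1 (M): the condition on b becomes a condition on a
-/

namespace Pool.Agent.Lib.H21T

open Finset Pool.Agent.SZW

/-- Both sides are sums of `ee (α a b)`: over `X = {A1 ≤ a < A2, B1 ≤ b < B2, x ≤ a b < x + H}` (`∑_m dbox m ee (α m)`, fibres over `m = a b`) and over `Y = Rg A1' A2' x H`.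
`X \ Y`: for `(a, b) ∈ X`, `a B2 > a b ≥ x`, so `a ≥ x / B2 + 1` (natural division); so `a ≥ x / B1 + 1`, i.e. `a B1 > x`, and `a B1 ≤ a b < x + H`: at most `H / B1 + 1` values of `a`, each (`a ≥ A1`) for at most
`H / A1 + 1` values of `b`. `Y \ X`: `b < B1` is impossible (`a ≤ x / B1` gives `a B1 ≤ x ≤ a b`), so `b ≥ B2`, and `x < a B2 ≤ a b < x + H`: again at most `H / B2 + 1 ≤ H / B1 + 1` values of `a`. -/
theorem z1 (A1 A2 B1 B2 x H : ℕ) (α : ℝ) (hA : 1 ≤ A1) (hB : 1 ≤ B1) (hB2 : B1 ≤ B2) (hx : 1 ≤ x) :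
    ‖∑ m ∈ Ico x (x + H), (dbox A1 A2 B1 B2 m : ℂ) * ee (α * m) - SR α (max A1 (x / B2 + 1)) (min A2 (x / B1 + 1)) x H‖ ≤
      2 * (((H : ℝ) / B1 + 1) * ((H : ℝ) / A1 + 1)) := by
  classical
  set f : ℕ × ℕ → ℂ := fun p => ee (α * ((p.1 : ℝ) * p.2)) with hf
  set X : Finset (ℕ × ℕ) := ((Ico A1 A2) ×ˢ (Ico B1 B2)).filter fun p => x ≤ p.1 * p.2 ∧ p.1 * p.2 < x + H with hX
  set A1' := max A1 (x / B2 + 1) with hA1'
  set A2' := min A2 (x / B1 + 1) with hA2'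
  have hB2' : 0 < B2 := by omega
  have hmX : ∀ p : ℕ × ℕ, p ∈ X ↔ A1 ≤ p.1 ∧ p.1 < A2 ∧ B1 ≤ p.2 ∧ p.2 < B2 ∧ x ≤ p.1 * p.2 ∧ p.1 * p.2 < x + H := by
    intro p
    rw [hX, mem_filter, mem_product, mem_Ico, mem_Ico]
    tauto
  have hA1pos : 1 ≤ A1' := by omega
  have h1 : ∑ m ∈ Ico x (x + H), (dbox A1 A2 B1 B2 m : ℂ) * ee (α * m) = ∑ p ∈ X, f p := by
    rw [← Finset.sum_fiberwise_of_maps_to (s := X) (t := Ico x (x + H)) (g := fun p : ℕ × ℕ => p.1 * p.2)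
      (fun p hp => by
        have := (hmX p).1 hp
        rw [mem_Ico]
        exact ⟨this.2.2.2.2.1, this.2.2.2.2.2⟩)]
    refine Finset.sum_congr rfl fun m hm => ?_
    rw [mem_Ico] at hm
    have h2 : (X.filter fun p => p.1 * p.2 = m) = ((Ico A1 A2) ×ˢ (Ico B1 B2)).filter fun p => p.1 * p.2 = m := by
      rw [hX, Finset.filter_filter]
      refine Finset.filter_congr fun p _ => ?_
      constructor
      · rintro ⟨_, h⟩
        exact h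
      · intro h
        rw [h]
        exact ⟨hm, rfl⟩
    rw [h2]
    have h3 : ∀ p ∈ ((Ico A1 A2) ×ˢ (Ico B1 B2)).filter fun p => p.1 * p.2 = m, f p = ee (α * m) := by
      intro p hp
      rw [mem_filter] at hp
      show ee (α * ((p.1 : ℝ) * p.2)) = _
      rw [← hp.2]
      push_cast
      rfl
    rw [Finset.sum_congr rfl h3, Finset.sum_const, nsmul_eq_mul]
    rfl
  have hSR : SR α A1' A2' x H = ∑ p ∈ Rg A1' A2' x H, f p := rfl
  rw [h1, hSR, ← Finset.sum_sdiff_sub_sum_sdiff]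
  have hcard : ∀ (B : ℕ) (U : Finset (ℕ × ℕ)), B1 ≤ B → 1 ≤ B →
      (∀ p ∈ U, p ∈ Rg A1 A2 x H ∧ x ≤ B * p.1 ∧ B * p.1 < x + H) →
      (U.card : ℝ) ≤ ((H : ℝ) / B1 + 1) * ((H : ℝ) / A1 + 1) := by
    intro B U hB1 hBpos hU
    set T := (range (x + H)).filter fun a => x ≤ B * a ∧ B * a < x + H with hT
    have h2 := s4_card (A := A1) (A1 := A1) (A2 := A2) (x := x) (H := H) hA le_rfl T
    have h3 : U ⊆ (Rg A1 A2 x H).filter fun p => p.1 ∈ T := by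
      intro p hp
      obtain ⟨h4, h5, h6⟩ := hU p hp
      rw [mem_filter]
      refine ⟨h4, ?_⟩
      rw [hT, mem_filter, mem_range]
      refine ⟨?_, h5, h6⟩
      have : p.1 ≤ B * p.1 := Nat.le_mul_of_pos_left _ (by omega)
      omega
    have h4 : (T.card : ℝ) ≤ (H : ℝ) / B + 1 := s4_fib x H B hBpos
    have h5 : (H : ℝ) / B ≤ (H : ℝ) / B1 := by
      have hb1 : (0 : ℝ) < B1 := by exact_mod_cast hB
      have hb2 : (B1 : ℝ) ≤ B := by exact_mod_cast hB1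
      exact div_le_div_of_nonneg_left (Nat.cast_nonneg H) hb1 hb2
    have h6 : (U.card : ℝ) ≤ (((Rg A1 A2 x H).filter fun p => p.1 ∈ T).card : ℝ) := by
      exact_mod_cast Finset.card_le_card h3
    have h7 : (0 : ℝ) ≤ (H : ℝ) / A1 + 1 := by positivity
    calc (U.card : ℝ) ≤ T.card * ((H : ℝ) / A1 + 1) := h6.trans h2
      _ ≤ ((H : ℝ) / B1 + 1) * ((H : ℝ) / A1 + 1) := mul_le_mul_of_nonneg_right (by linarith) h7
  have hnorm : ∀ U : Finset (ℕ × ℕ), ‖∑ p ∈ U, f p‖ ≤ U.card := by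
    intro U
    refine (norm_sum_le _ _).trans ?_
    have h2 : ∀ p ∈ U, ‖f p‖ ≤ 1 := fun p _ => (norm_ee _).le
    refine (Finset.sum_le_sum h2).trans ?_
    rw [Finset.sum_const, nsmul_eq_mul, mul_one]
  have hXY : ((X \ Rg A1' A2' x H).card : ℝ) ≤ ((H : ℝ) / B1 + 1) * ((H : ℝ) / A1 + 1) := by
    refine hcard B1 _ le_rfl hB fun p hp => ?_
    rw [mem_sdiff, hmX, mem_Rg hA1pos] at hp
    obtain ⟨⟨h2, h3, h4, h5, h6, h7⟩, h8⟩ := hp
    have h9 : p.1 * B1 ≤ p.1 * p.2 := Nat.mul_le_mul_left _ h4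
    have h10 : p.1 * p.2 < p.1 * B2 := Nat.mul_lt_mul_of_pos_left h5 (by omega)
    have h11 : x / B2 < p.1 := (Nat.div_lt_iff_lt_mul hB2').2 (by omega)
    have h12 : x / B1 < p.1 := by
      by_contra hcon
      apply h8
      refine ⟨?_, ?_, h6, h7⟩ <;> omega
    have h13 : x < p.1 * B1 := (Nat.div_lt_iff_lt_mul (by omega)).1 h12
    refine ⟨(mem_Rg hA).2 ⟨h2, h3, h6, h7⟩, ?_, ?_⟩
    · rw [mul_comm]
      omega
    · rw [mul_comm]
      omega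
  have hYX : ((Rg A1' A2' x H \ X).card : ℝ) ≤ ((H : ℝ) / B1 + 1) * ((H : ℝ) / A1 + 1) := by
    refine hcard B2 _ hB2 hB2' fun p hp => ?_
    rw [mem_sdiff, hmX, mem_Rg hA1pos] at hp
    obtain ⟨⟨h2, h3, h6, h7⟩, h8⟩ := hp
    have h4 : A1 ≤ p.1 := by omega
    have h5 : p.1 < A2 := by omega
    have h9 : p.1 ≤ x / B1 := by omega
    have h10 : p.1 * B1 ≤ x := (Nat.le_div_iff_mul_le (by omega)).1 h9
    have h11 : x / B2 < p.1 := by omega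
    have h12 : x < p.1 * B2 := (Nat.div_lt_iff_lt_mul hB2').1 h11
    have h13 : B1 ≤ p.2 := by
      by_contra hcon
      have h14 : p.1 * p.2 < p.1 * B1 := Nat.mul_lt_mul_of_pos_left (not_le.1 hcon) (by omega)
      omega
    have h14 : B2 ≤ p.2 := by
      by_contra hcon
      exact h8 ⟨h4, h5, h13, not_le.1 hcon, h6, h7⟩
    have h15 : p.1 * B2 ≤ p.1 * p.2 := Nat.mul_le_mul_left _ h14
    refine ⟨(mem_Rg hA).2 ⟨h4, h5, h6, h7⟩, ?_, ?_⟩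
    · rw [mul_comm]
      omega
    · rw [mul_comm]
      omega
  refine (norm_sub_le _ _).trans ?_
  have h2 := hnorm (X \ Rg A1' A2' x H)
  have h3 := hnorm (Rg A1' A2' x H \ X)
  linarith

end Pool.Agent.Lib.H21T
end

-- from Lib.H3B.CS
section

/-! # H3B (MP_443e5f, candidate T, module B), chunk CS -/

namespace Pool.Agent.H3B

open Finset
open Pool.Agent.H44W (ee TF cut)

theorem cs_sq {n : ℕ} (hn : 1 ≤ n) {g : ℤ → ℂ} (hg : ∀ z, ‖g z‖ ≤ 1) (hs : Sp n g) (Z : Finset ℤ)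
    (hZ : Icc (-(n : ℤ)) n ⊆ Z) : ∑ y ∈ Z, ‖g y‖ ^ 2 ≤ 3 * (n : ℝ) := by
  have h1 : ∑ y ∈ Z, ‖g y‖ ^ 2 = ∑ y ∈ Icc (-(n : ℤ)) n, ‖g y‖ ^ 2 := by
    symm
    refine sum_subset hZ fun y _ hy => ?_
    have h2 : g y = 0 := by
      by_contra h0
      exact hy (mem_Icc.2 (abs_le.1 (hs y h0)))
    rw [h2]
    simp
  have h2 : ∑ y ∈ Icc (-(n : ℤ)) n, ‖g y‖ ^ 2 ≤ ∑ _y ∈ Icc (-(n : ℤ)) n, (1 : ℝ) :=
    sum_le_sum fun y _ => pow_le_one₀ (norm_nonneg _) (hg y)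
  rw [h1]
  refine h2.trans ?_
  rw [sum_const, Int.card_Icc, nsmul_eq_mul, mul_one]
  have h3 : (n : ℤ) + 1 - -(n : ℤ) = ((2 * n + 1 : ℕ) : ℤ) := by push_cast; ring
  rw [h3, Int.toNat_natCast]
  push_cast
  have h4 : (1 : ℝ) ≤ n := by exact_mod_cast hn
  linarith

/-- Chunk CS (M). Cauchy-Schwarz removing g(y). PROOF. The left side is |∑' y, g y * V y|², V y = ∑_{a in s} conj g (y + q a) * v a y (finite sums). ≤ (∑ |g|²)(∑' y, |V y|²), ∑ |g|² ≤ 2 n + 1 ≤ 3 n,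
and ∑' y, |V y|² = ∑_{a, a'} ∑' y, conj g (y + q a) g (y + q a') v a y conj v a' y (all have finite support, Sp.shift). -/
theorem CSg {n : ℕ} (hn : 1 ≤ n) {g : ℤ → ℂ} (hg : ∀ z, ‖g z‖ ≤ 1) (hs : Sp n g) {ι : Type} (s : Finset ι) (q : ι → ℤ) (v : ι → ℤ → ℂ) :
    ‖∑ a ∈ s, ∑' y : ℤ, Gd g (q a) y * v a y‖ ^ 2 ≤ 3 * n * ∑ a ∈ s, ∑ a' ∈ s,
      ‖∑' y : ℤ, (starRingEnd ℂ) (g (y + q a)) * g (y + q a') * (v a y * (starRingEnd ℂ) (v a' y))‖ := by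
  obtain ⟨T, hT⟩ : ∃ T : ℕ, ∀ a ∈ s, (q a).natAbs ≤ T :=
    ⟨∑ a ∈ s, (q a).natAbs, fun a ha => single_le_sum (f := fun a => (q a).natAbs) (fun _ _ => Nat.zero_le _) ha⟩
  obtain ⟨Z, hZd⟩ : ∃ Z : Finset ℤ, Z = Icc (-((n + T : ℕ) : ℤ)) ((n + T : ℕ) : ℤ) := ⟨_, rfl⟩
  have hZ : Icc (-(n : ℤ)) n ⊆ Z := by
    rw [hZd]
    apply Icc_subset_Icc <;> push_cast <;> omega
  have hz : ∀ y ∉ Z, g y = 0 := by
    intro y hy
    by_contra h0
    exact hy (hZ (mem_Icc.2 (abs_le.1 (hs y h0))))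
  have hzq : ∀ a ∈ s, ∀ y ∉ Z, g (y + q a) = 0 := by
    intro a ha y hy
    by_contra h0
    have h1 := abs_le.1 (hs _ h0)
    have h2 := hT a ha
    apply hy
    rw [hZd, mem_Icc]
    push_cast
    omega
  have e1 : ∑ a ∈ s, ∑' y : ℤ, Gd g (q a) y * v a y =
      ∑ y ∈ Z, g y * ∑ a ∈ s, (starRingEnd ℂ) (g (y + q a)) * v a y := by
    have h1 : ∀ a ∈ s, ∑' y : ℤ, Gd g (q a) y * v a y = ∑ y ∈ Z, Gd g (q a) y * v a y := by
      intro a _
      refine tsum_eq_sum fun y hy => ?_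
      unfold Gd
      rw [hz y hy]
      ring
    rw [sum_congr rfl h1, sum_comm]
    refine sum_congr rfl fun y _ => ?_
    rw [mul_sum]
    refine sum_congr rfl fun a _ => ?_
    unfold Gd
    ring
  obtain ⟨V, hV⟩ : ∃ V : ℤ → ℂ, ∀ y, V y = ∑ a ∈ s, (starRingEnd ℂ) (g (y + q a)) * v a y := ⟨_, fun _ => rfl⟩
  have e1' : ∑ a ∈ s, ∑' y : ℤ, Gd g (q a) y * v a y = ∑ y ∈ Z, g y * V y := by
    rw [e1]
    exact sum_congr rfl fun y _ => by rw [hV y]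
  have e2 : ((∑ y ∈ Z, ‖V y‖ ^ 2 : ℝ) : ℂ) = ∑ a ∈ s, ∑ a' ∈ s,
      ∑' y : ℤ, (starRingEnd ℂ) (g (y + q a)) * g (y + q a') * (v a y * (starRingEnd ℂ) (v a' y)) := by
    have h1 : ∀ a ∈ s, ∀ a' ∈ s,
        ∑' y : ℤ, (starRingEnd ℂ) (g (y + q a)) * g (y + q a') * (v a y * (starRingEnd ℂ) (v a' y)) =
        ∑ y ∈ Z, (starRingEnd ℂ) (g (y + q a)) * g (y + q a') * (v a y * (starRingEnd ℂ) (v a' y)) := by
      intro a ha a' _
      refine tsum_eq_sum fun y hy => ?_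
      rw [hzq a ha y hy]
      simp
    rw [sum_congr rfl fun a ha => sum_congr rfl fun a' ha' => h1 a ha a' ha']
    push_cast
    have h2 : ∀ y ∈ Z, ((‖V y‖ : ℝ) : ℂ) ^ 2 =
        ∑ a ∈ s, ∑ a' ∈ s, (starRingEnd ℂ) (g (y + q a)) * g (y + q a') * (v a y * (starRingEnd ℂ) (v a' y)) := by
      intro y _
      rw [← Complex.mul_conj', hV y, map_sum, sum_mul_sum]
      refine sum_congr rfl fun a _ => sum_congr rfl fun a' _ => ?_
      rw [map_mul, Complex.conj_conj]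
      ring
    rw [sum_congr rfl h2, sum_comm]
    refine sum_congr rfl fun a _ => ?_
    rw [sum_comm]
  have e3 : ∑ y ∈ Z, ‖V y‖ ^ 2 ≤ ∑ a ∈ s, ∑ a' ∈ s,
      ‖∑' y : ℤ, (starRingEnd ℂ) (g (y + q a)) * g (y + q a') * (v a y * (starRingEnd ℂ) (v a' y))‖ := by
    have h0 : 0 ≤ ∑ y ∈ Z, ‖V y‖ ^ 2 := sum_nonneg fun _ _ => sq_nonneg _
    have h1 : ∑ y ∈ Z, ‖V y‖ ^ 2 = ‖((∑ y ∈ Z, ‖V y‖ ^ 2 : ℝ) : ℂ)‖ := by
      rw [Complex.norm_real, Real.norm_of_nonneg h0]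
    rw [h1, e2]
    refine (norm_sum_le _ _).trans (sum_le_sum fun a _ => ?_)
    exact norm_sum_le _ _
  have e4 : ‖∑ y ∈ Z, g y * V y‖ ^ 2 ≤ (∑ y ∈ Z, ‖g y‖ ^ 2) * ∑ y ∈ Z, ‖V y‖ ^ 2 := by
    have h1 : ‖∑ y ∈ Z, g y * V y‖ ≤ ∑ y ∈ Z, ‖g y‖ * ‖V y‖ := by
      refine (norm_sum_le _ _).trans (le_of_eq (sum_congr rfl fun y _ => ?_))
      rw [norm_mul]
    exact (pow_le_pow_left₀ (norm_nonneg _) h1 2).trans (sum_mul_sq_le_sq_mul_sq _ _ _)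
  rw [e1']
  refine e4.trans ?_
  have h5 : 0 ≤ ∑ y ∈ Z, ‖V y‖ ^ 2 := sum_nonneg fun _ _ => sq_nonneg _
  calc (∑ y ∈ Z, ‖g y‖ ^ 2) * ∑ y ∈ Z, ‖V y‖ ^ 2 ≤ 3 * n * ∑ y ∈ Z, ‖V y‖ ^ 2 :=
        mul_le_mul_of_nonneg_right (cs_sq hn hg hs Z hZ) h5
    _ ≤ _ := mul_le_mul_of_nonneg_left e3 (by positivity)

end Pool.Agent.H3B
end

-- from Lib.H3B.SY
section

/-! # H3B (MP_443e5f, candidate T, module B), chunk SY -/

namespace Pool.Agent.H3B

open Finset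
open Pool.Agent.H44W (ee TF cut)

/-- Chunk SYa (S). PROOF. tsum_congr; both terms are g y conj g (y + d) conj g (y + q) g (y + d + q). -/
theorem R_symm (g : ℤ → ℂ) (d q : ℤ) : R (Gd g d) q = R (Gd g q) d := by
  unfold R Gd
  refine tsum_congr fun y => ?_
  rw [map_mul, map_mul, Complex.conj_conj, Complex.conj_conj]
  have h1 : y + q + d = y + d + q := by ring
  rw [h1]
  ring

/-- Chunk SYb (S). -/
theorem R_bound {n : ℕ} {g : ℤ → ℂ} (h : Sp n g) (hg : ∀ z, ‖g z‖ ≤ 1) (hn : 1 ≤ n) (d q : ℤ) : ‖R (Gd g d) q‖ ≤ 3 * n := by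
  have h1 : Sp n (fun y => Gd g d y * (starRingEnd ℂ) (Gd g d (y + q))) := (h.Gd d).mul_right _
  have h2 := h1.norm_tsum_le (b := 1) (fun y => by
    rw [norm_mul, RCLike.norm_conj]
    exact mul_le_one₀ (Gd_norm hg _ _) (norm_nonneg _) (Gd_norm hg _ _))
  unfold R
  refine h2.trans ?_
  have h3 : (1 : ℝ) ≤ n := by exact_mod_cast hn
  linarith

/-- Chunk SYc (S). g y and g (y + q) are not both nonzero. -/
theorem R_zero {n : ℕ} {g : ℤ → ℂ} (h : Sp n g) {d q : ℤ} (hq : 2 * (n : ℤ) < |q|) : R (Gd g d) q = 0 := by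
  unfold R
  have h1 : ∀ y, Gd g d y * (starRingEnd ℂ) (Gd g d (y + q)) = 0 := by
    intro y
    by_contra h0
    have h2 : Gd g d y ≠ 0 := left_ne_zero_of_mul h0
    have h3 : Gd g d (y + q) ≠ 0 := by
      intro h4
      apply h0
      rw [h4, map_zero, mul_zero]
    have h4 := h.Gd d y h2
    have h5 := h.Gd d (y + q) h3
    have h6 : |q| ≤ |y + q| + |y| := by
      have := abs_sub (y + q) y
      simpa using this
    omega
  simp only [h1, tsum_zero]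


end Pool.Agent.H3B
end

-- from Lib.H3B.TP
section

/-! # H3B (MP_443e5f, candidate T, module B), chunk TP -/

namespace Pool.Agent.H3B

open Finset
open Pool.Agent.H44W (ee TF cut)

theorem tp_pow (x : ℝ) (i : ℕ) : ee (i * x) = ee x ^ i := by
  induction i with
  | zero => simp [ee_zero]
  | succ i ih =>
    rw [pow_succ, ← ih, ← ee_add]
    congr 1
    push_cast
    ring

/-- orthogonality -/
theorem tp_orth (Q : ℕ) (hQ : 0 < Q) (t : ℤ) (ht : |t| < Q) :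
    ∑ i ∈ range Q, ee ((i : ℝ) / Q * t) = if t = 0 then (Q : ℂ) else 0 := by
  have hQ0 : (Q : ℝ) ≠ 0 := by exact_mod_cast hQ.ne'
  have e1 : ∀ i : ℕ, ee ((i : ℝ) / Q * t) = ee (t / Q) ^ i := by
    intro i
    rw [← tp_pow]
    congr 1
    ring
  rw [Finset.sum_congr rfl fun i _ => e1 i]
  split_ifs with h
  · rw [h]
    simp [ee_zero]
  · have h1 : ee ((t : ℝ) / Q) ≠ 1 := by
      intro h2
      unfold ee at h2
      rw [Complex.exp_eq_one_iff] at h2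
      obtain ⟨k, hk⟩ := h2
      have h3 : ((t : ℝ) / Q : ℝ) = k := by
        have h4 : (2 * Real.pi * Complex.I : ℂ) ≠ 0 := by
          have hpi : (Real.pi : ℂ) ≠ 0 := by exact_mod_cast Real.pi_ne_zero
          exact mul_ne_zero (mul_ne_zero two_ne_zero hpi) Complex.I_ne_zero
        have h5 : (((t : ℝ) / Q : ℝ) : ℂ) * (2 * Real.pi * Complex.I) = k * (2 * Real.pi * Complex.I) := by
          rw [← hk]
          ring
        have h6 := mul_right_cancel₀ h4 h5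
        exact_mod_cast h6
      rw [div_eq_iff hQ0] at h3
      have h4 : t = k * Q := by exact_mod_cast h3
      rw [h4, abs_mul, Nat.abs_cast] at ht
      have h5 : |k| < 1 := by
        by_contra h6
        have h7 : 1 ≤ |k| := not_lt.1 h6
        nlinarith
      have h6 : k = 0 := Int.abs_lt_one_iff.1 h5
      rw [h6, zero_mul] at h4
      exact h h4
    rw [geom_sum_eq h1, ← tp_pow]
    have e2 : (Q : ℝ) * ((t : ℝ) / Q) = t := by field_simp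
    rw [e2, ee_int, sub_self, zero_div]

/-- Parseval -/
theorem tp_pars (Q : ℕ) (hQ : 0 < Q) (S : Finset ℤ) (B : ℤ → ℂ) (hS : ∀ b ∈ S, ∀ b' ∈ S, |b' - b| < (Q : ℤ)) :
    ∑ i ∈ range Q, ‖∑ b ∈ S, B b * ee ((i : ℝ) / Q * b)‖ ^ 2 = Q * ∑ b ∈ S, ‖B b‖ ^ 2 := by
  have e0 : ((∑ i ∈ range Q, ‖∑ b ∈ S, B b * ee ((i : ℝ) / Q * b)‖ ^ 2 : ℝ) : ℂ) =
      ((Q * ∑ b ∈ S, ‖B b‖ ^ 2 : ℝ) : ℂ) := by
    rw [Complex.ofReal_sum]
    have e1 : ∀ i ∈ range Q, ((‖∑ b ∈ S, B b * ee ((i : ℝ) / Q * b)‖ ^ 2 : ℝ) : ℂ) =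
        ∑ b' ∈ S, ∑ b ∈ S, (B b' * (starRingEnd ℂ) (B b)) * ee ((i : ℝ) / Q * ((b' - b : ℤ) : ℝ)) := by
      intro i _
      rw [← Complex.normSq_eq_norm_sq, ← Complex.mul_conj, map_sum, Finset.sum_mul_sum]
      refine Finset.sum_congr rfl fun b' _ => Finset.sum_congr rfl fun b _ => ?_
      rw [map_mul, ee_conj]
      have e2 : ee ((i : ℝ) / Q * ((b' - b : ℤ) : ℝ)) = ee ((i : ℝ) / Q * b') * ee (-((i : ℝ) / Q * b)) := by
        rw [← ee_add]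
        congr 1
        push_cast
        ring
      rw [e2]
      ring
    rw [Finset.sum_congr rfl e1, Finset.sum_comm]
    have e3 : ∀ b' ∈ S, ∑ i ∈ range Q, ∑ b ∈ S, (B b' * (starRingEnd ℂ) (B b)) *
        ee ((i : ℝ) / Q * ((b' - b : ℤ) : ℝ)) = Q * (B b' * (starRingEnd ℂ) (B b')) := by
      intro b' hb'
      rw [Finset.sum_comm]
      have e4 : ∀ b ∈ S, ∑ i ∈ range Q, (B b' * (starRingEnd ℂ) (B b)) *
          ee ((i : ℝ) / Q * ((b' - b : ℤ) : ℝ)) = if b = b' then Q * (B b' * (starRingEnd ℂ) (B b')) else 0 := by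
        intro b hb
        rw [← Finset.mul_sum, tp_orth Q hQ (b' - b) (hS b hb b' hb')]
        by_cases h : b = b'
        · rw [if_pos (sub_eq_zero.2 h.symm), if_pos h, h]
          ring
        · rw [if_neg (fun h' => h (sub_eq_zero.1 h').symm), if_neg h, mul_zero]
      rw [Finset.sum_congr rfl e4, Finset.sum_ite_eq' S b', if_pos hb']
    rw [Finset.sum_congr rfl e3, ← Finset.mul_sum]
    push_cast
    congr 1
    refine Finset.sum_congr rfl fun b _ => ?_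
    rw [Complex.mul_conj, Complex.normSq_eq_norm_sq]
    push_cast
    rfl
  exact_mod_cast e0

/-- inversion -/
theorem tp_inv (Q : ℕ) (hQ : 0 < Q) {N : ℕ} {ρ : ℤ → ℂ} (hρ : ∀ l, l ∉ Icc (-(N : ℤ)) N → ρ l = 0) (En : ℝ → ℝ)
    (hexp : ∀ φ, ((En φ : ℝ) : ℂ) = ∑ l ∈ Icc (-(N : ℤ)) N, ρ l * ee (φ * l)) (h : ℤ)
    (hh : ∀ l ∈ Icc (-(N : ℤ)) N, |l - h| < (Q : ℤ)) :
    ∑ i ∈ range Q, ((En ((i : ℝ) / Q) : ℝ) : ℂ) * ee (-((i : ℝ) / Q * h)) = Q * ρ h := by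
  have e1 : ∀ i ∈ range Q, ((En ((i : ℝ) / Q) : ℝ) : ℂ) * ee (-((i : ℝ) / Q * h)) =
      ∑ l ∈ Icc (-(N : ℤ)) N, ρ l * ee ((i : ℝ) / Q * ((l - h : ℤ) : ℝ)) := by
    intro i _
    rw [hexp, Finset.sum_mul]
    refine Finset.sum_congr rfl fun l _ => ?_
    rw [mul_assoc, ← ee_add]
    congr 2
    push_cast
    ring
  rw [Finset.sum_congr rfl e1, Finset.sum_comm]
  have e2 : ∀ l ∈ Icc (-(N : ℤ)) N, ∑ i ∈ range Q, ρ l * ee ((i : ℝ) / Q * ((l - h : ℤ) : ℝ)) =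
      if l = h then Q * ρ h else 0 := by
    intro l hl
    rw [← Finset.mul_sum, tp_orth Q hQ (l - h) (hh l hl)]
    by_cases h1 : l = h
    · rw [if_pos (sub_eq_zero.2 h1), if_pos h1, h1]
      ring
    · rw [if_neg (fun h' => h1 (sub_eq_zero.1 h')), if_neg h1, mul_zero]
  rw [Finset.sum_congr rfl e2, Finset.sum_ite_eq']
  split_ifs with h3
  · rfl
  · rw [hρ h h3, mul_zero]

/-- an upper bound for the elements -/
theorem tp_size (T : Finset ℤ) (h : ℤ) (hh : h ∈ T) : |h| ≤ ((∑ x ∈ T, x.natAbs : ℕ) : ℤ) := by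
  have h1 : h.natAbs ≤ ∑ x ∈ T, x.natAbs := Finset.single_le_sum (f := fun x : ℤ => x.natAbs) (fun _ _ => Nat.zero_le _) hh
  have h2 : |h| = (h.natAbs : ℤ) := Int.abs_eq_natAbs h
  rw [h2]
  exact_mod_cast h1

/-- Chunk TP1 (M). PROOF. Choose Q = 2 N + 1 + (bound for the elements of T) large: Q greater than |l - h| for all l in Icc (-N) N and h in T or in Icc (-N) N. Orthogonality:
∑_{i < Q} ee (i t / Q) = Q if Q divides t, else 0 (geometric sum); so ρ h = (1/Q) ∑_i En (i/Q) ee (-i h/Q) for h in T (both sides 0 if h is not in Icc (-N) N).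
∑_{h in T} c h ρ h = (1/Q) ∑_i En(i/Q) C_i, C_i = ∑_{h in T} c h ee (-i h/Q). |C_i| ≤ η L + |C_i|²/(η L). (1/Q) ∑_i En (i/Q) = ρ 0 (so ρ 0 is real, equal to its norm);
(1/Q) ∑_i |C_i|² = ∑_{h in T} |c h|² ≤ L (distinct elements of T are distinct modulo Q). Take φ = i/Q with En maximal (exists_max_image on range Q): the sum is at most
η L ρ 0 + En φ (1/(η L)) L. -/
theorem TP1 {N : ℕ} {ρ : ℤ → ℂ} (hρ : ∀ l, l ∉ Icc (-(N : ℤ)) N → ρ l = 0) (En : ℝ → ℝ) (hE : ∀ φ, 0 ≤ En φ)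
    (hexp : ∀ φ, ((En φ : ℝ) : ℂ) = ∑ l ∈ Icc (-(N : ℤ)) N, ρ l * ee (φ * l)) (T : Finset ℤ) (c : ℤ → ℂ) (hc : ∀ h, ‖c h‖ ≤ 1)
    {η L : ℝ} (hη : 0 < η) (hL0 : 0 < L) (hL : (T.card : ℝ) ≤ L) :
    ∃ φ : ℝ, ‖∑ h ∈ T, c h * ρ h‖ ≤ η * L * ‖ρ 0‖ + En φ / η := by
  obtain ⟨Q, hQd⟩ : ∃ Q : ℕ, Q = 2 * N + 1 + 2 * ∑ x ∈ T, x.natAbs := ⟨_, rfl⟩
  have hQ : 0 < Q := by omega
  have hQR : (0 : ℝ) < Q := by exact_mod_cast hQ
  have hT : ∀ h ∈ T, ∀ l ∈ Icc (-(N : ℤ)) N, |l - h| < (Q : ℤ) := by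
    intro h hh l hl
    have h1 := tp_size T h hh
    rw [mem_Icc] at hl
    rw [abs_le] at h1
    rw [abs_lt]
    push_cast [hQd]
    push_cast at h1
    constructor <;> omega
  have hTT : ∀ h ∈ T, ∀ h' ∈ T, |h' - h| < (Q : ℤ) := by
    intro h hh h' hh'
    have h1 := tp_size T h hh
    have h2 := tp_size T h' hh'
    rw [abs_le] at h1 h2
    rw [abs_lt]
    push_cast [hQd]
    push_cast at h1 h2
    constructor <;> omega
  have h0 : ∀ l ∈ Icc (-(N : ℤ)) N, |l - 0| < (Q : ℤ) := by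
    intro l hl
    rw [mem_Icc] at hl
    have hNQ : (N : ℤ) < Q := by
      have h5 : N < Q := by omega
      exact_mod_cast h5
    rw [abs_lt]
    constructor <;> omega
  obtain ⟨i0, hi0, hmax⟩ := exists_max_image (range Q) (fun i : ℕ => En ((i : ℝ) / Q)) ⟨0, mem_range.2 hQ⟩
  refine ⟨(i0 : ℝ) / Q, ?_⟩
  set C : ℕ → ℂ := fun i => ∑ h ∈ T, c h * ee (-((i : ℝ) / Q * h)) with hC
  have s1 : (Q : ℂ) * ∑ h ∈ T, c h * ρ h = ∑ i ∈ range Q, ((En ((i : ℝ) / Q) : ℝ) : ℂ) * C i := by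
    rw [Finset.mul_sum]
    have e1 : ∀ h ∈ T, (Q : ℂ) * (c h * ρ h) =
        ∑ i ∈ range Q, ((En ((i : ℝ) / Q) : ℝ) : ℂ) * (c h * ee (-((i : ℝ) / Q * h))) := by
      intro h hh
      have e2 := tp_inv Q hQ hρ En hexp h (hT h hh)
      calc (Q : ℂ) * (c h * ρ h) = c h * (Q * ρ h) := by ring
        _ = _ := by
          rw [← e2, Finset.mul_sum]
          refine Finset.sum_congr rfl fun i _ => ?_
          ring
    rw [Finset.sum_congr rfl e1, Finset.sum_comm]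
    refine Finset.sum_congr rfl fun i _ => ?_
    rw [hC, Finset.mul_sum]
  have s2 : ∑ i ∈ range Q, En ((i : ℝ) / Q) = Q * ‖ρ 0‖ := by
    have e2 := tp_inv Q hQ hρ En hexp 0 h0
    have e3 : ((∑ i ∈ range Q, En ((i : ℝ) / Q) : ℝ) : ℂ) = Q * ρ 0 := by
      rw [← e2, Complex.ofReal_sum]
      refine Finset.sum_congr rfl fun i _ => ?_
      simp [ee_zero]
    have e4 := congrArg norm e3
    rw [Complex.norm_real, Real.norm_of_nonneg (Finset.sum_nonneg fun _ _ => hE _), norm_mul,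
      Complex.norm_natCast] at e4
    exact e4
  have s3 : ∑ i ∈ range Q, ‖C i‖ ^ 2 = Q * ∑ h ∈ T, ‖c h‖ ^ 2 := by
    have e1 := tp_pars Q hQ T (fun h => (starRingEnd ℂ) (c h)) hTT
    have e2 : ∀ i : ℕ, ‖∑ h ∈ T, (starRingEnd ℂ) (c h) * ee ((i : ℝ) / Q * h)‖ = ‖C i‖ := by
      intro i
      have e3 : ∑ h ∈ T, (starRingEnd ℂ) (c h) * ee ((i : ℝ) / Q * h) = (starRingEnd ℂ) (C i) := by
        rw [hC, map_sum]
        refine Finset.sum_congr rfl fun h _ => ?_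
        rw [map_mul, ee_conj, neg_neg]
      rw [e3, RCLike.norm_conj]
    simp only [e2, RCLike.norm_conj] at e1
    exact e1
  have s4 : ∑ h ∈ T, ‖c h‖ ^ 2 ≤ L := by
    refine le_trans ?_ hL
    calc ∑ h ∈ T, ‖c h‖ ^ 2 ≤ ∑ _h ∈ T, (1 : ℝ) :=
          Finset.sum_le_sum fun h _ => pow_le_one₀ (norm_nonneg _) (hc h)
      _ = T.card := by simp
  have hηL : 0 < η * L := mul_pos hη hL0
  have s5 : ∀ i, ‖C i‖ ≤ η * L + ‖C i‖ ^ 2 / (η * L) := by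
    intro i
    rw [← sub_le_iff_le_add', le_div_iff₀ hηL]
    nlinarith [sq_nonneg (‖C i‖ - η * L), norm_nonneg (C i), mul_nonneg hηL.le (norm_nonneg (C i))]
  have s6 : Q * ‖∑ h ∈ T, c h * ρ h‖ ≤ Q * (η * L * ‖ρ 0‖ + En ((i0 : ℝ) / Q) / η) := by
    have e1 : Q * ‖∑ h ∈ T, c h * ρ h‖ = ‖(Q : ℂ) * ∑ h ∈ T, c h * ρ h‖ := by
      rw [norm_mul, Complex.norm_natCast]
    rw [e1, s1]
    calc _ ≤ ∑ i ∈ range Q, En ((i : ℝ) / Q) * ‖C i‖ := by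
          refine (norm_sum_le _ _).trans (Finset.sum_le_sum fun i _ => ?_)
          rw [norm_mul, Complex.norm_real, Real.norm_of_nonneg (hE _)]
      _ ≤ ∑ i ∈ range Q, (En ((i : ℝ) / Q) * (η * L) + En ((i0 : ℝ) / Q) * (‖C i‖ ^ 2 / (η * L))) := by
          refine Finset.sum_le_sum fun i hi => ?_
          calc _ ≤ En ((i : ℝ) / Q) * (η * L + ‖C i‖ ^ 2 / (η * L)) :=
                mul_le_mul_of_nonneg_left (s5 i) (hE _)
            _ = En ((i : ℝ) / Q) * (η * L) + En ((i : ℝ) / Q) * (‖C i‖ ^ 2 / (η * L)) := by ring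
            _ ≤ _ := by
              have e2 : En ((i : ℝ) / Q) * (‖C i‖ ^ 2 / (η * L)) ≤ En ((i0 : ℝ) / Q) * (‖C i‖ ^ 2 / (η * L)) :=
                mul_le_mul_of_nonneg_right (hmax i hi) (by positivity)
              linarith
      _ = η * L * (Q * ‖ρ 0‖) + En ((i0 : ℝ) / Q) / (η * L) * (Q * ∑ h ∈ T, ‖c h‖ ^ 2) := by
          rw [Finset.sum_add_distrib, ← Finset.sum_mul, s2, ← s3, ← Finset.mul_sum, ← Finset.sum_div]
          ring
      _ ≤ η * L * (Q * ‖ρ 0‖) + En ((i0 : ℝ) / Q) / (η * L) * (Q * L) := by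
          have e3 : 0 ≤ En ((i0 : ℝ) / Q) / (η * L) := div_nonneg (hE _) hηL.le
          have e4 : (Q : ℝ) * ∑ h ∈ T, ‖c h‖ ^ 2 ≤ Q * L := mul_le_mul_of_nonneg_left s4 hQR.le
          have e5 := mul_le_mul_of_nonneg_left e4 e3
          linarith
      _ = Q * (η * L * ‖ρ 0‖ + En ((i0 : ℝ) / Q) / η) := by
          field_simp
  exact le_of_mul_le_mul_left s6 hQR

/-- Chunk TP2 (M). PROOF. As in TP1 with Q larger than N + |b' - b| for all b, b' in S: ∑_{b, b'} B b conj B b' ρ (b' - b) = (1/Q) ∑_i En (i/Q) |∑_b B b ee (i b/Q)|²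
(ee (-i (b' - b)/Q) = ee (i b/Q) conj ee (i b'/Q)), and (1/Q) ∑_i |∑_b B b ee (i b/Q)|² = ∑_b |B b|². -/
theorem TP2 {N : ℕ} {ρ : ℤ → ℂ} (hρ : ∀ l, l ∉ Icc (-(N : ℤ)) N → ρ l = 0) (En : ℝ → ℝ) (hE : ∀ φ, 0 ≤ En φ)
    (hexp : ∀ φ, ((En φ : ℝ) : ℂ) = ∑ l ∈ Icc (-(N : ℤ)) N, ρ l * ee (φ * l)) (S : Finset ℤ) (B : ℤ → ℂ) :
    ∃ φ : ℝ, ‖∑ b ∈ S, ∑ b' ∈ S, B b * (starRingEnd ℂ) (B b') * ρ (b' - b)‖ ≤ (∑ b ∈ S, ‖B b‖ ^ 2) * En φ := by
  obtain ⟨Q, hQd⟩ : ∃ Q : ℕ, Q = 2 * N + 1 + 2 * ∑ x ∈ S, x.natAbs := ⟨_, rfl⟩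
  have hQ : 0 < Q := by omega
  have hQR : (0 : ℝ) < Q := by exact_mod_cast hQ
  have hSS : ∀ h ∈ S, ∀ h' ∈ S, |h' - h| < (Q : ℤ) := by
    intro h hh h' hh'
    have h1 := tp_size S h hh
    have h2 := tp_size S h' hh'
    rw [abs_le] at h1 h2
    rw [abs_lt]
    push_cast [hQd]
    push_cast at h1 h2
    constructor <;> omega
  have hS : ∀ b ∈ S, ∀ b' ∈ S, ∀ l ∈ Icc (-(N : ℤ)) N, |l - (b' - b)| < (Q : ℤ) := by
    intro h hh h' hh' l hl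
    have h1 := tp_size S h hh
    have h2 := tp_size S h' hh'
    rw [mem_Icc] at hl
    rw [abs_le] at h1 h2
    rw [abs_lt]
    push_cast [hQd]
    push_cast at h1 h2
    constructor <;> omega
  obtain ⟨i0, hi0, hmax⟩ := exists_max_image (range Q) (fun i : ℕ => En ((i : ℝ) / Q)) ⟨0, mem_range.2 hQ⟩
  refine ⟨(i0 : ℝ) / Q, ?_⟩
  have s1 : (Q : ℂ) * ∑ b ∈ S, ∑ b' ∈ S, B b * (starRingEnd ℂ) (B b') * ρ (b' - b) =
      ((∑ i ∈ range Q, En ((i : ℝ) / Q) * ‖∑ b ∈ S, B b * ee ((i : ℝ) / Q * b)‖ ^ 2 : ℝ) : ℂ) := by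
    rw [Complex.ofReal_sum]
    have e1 : ∀ i ∈ range Q, ((En ((i : ℝ) / Q) * ‖∑ b ∈ S, B b * ee ((i : ℝ) / Q * b)‖ ^ 2 : ℝ) : ℂ) =
        ∑ b ∈ S, ∑ b' ∈ S, B b * (starRingEnd ℂ) (B b') *
          (((En ((i : ℝ) / Q) : ℝ) : ℂ) * ee (-((i : ℝ) / Q * ((b' - b : ℤ) : ℝ)))) := by
      intro i _
      rw [Complex.ofReal_mul, ← Complex.normSq_eq_norm_sq, ← Complex.mul_conj, map_sum, Finset.sum_mul_sum]
      rw [Finset.mul_sum]
      refine Finset.sum_congr rfl fun b _ => ?_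
      rw [Finset.mul_sum]
      refine Finset.sum_congr rfl fun b' _ => ?_
      rw [map_mul, ee_conj]
      have e2 : ee (-((i : ℝ) / Q * ((b' - b : ℤ) : ℝ))) = ee ((i : ℝ) / Q * b) * ee (-((i : ℝ) / Q * b')) := by
        rw [← ee_add]
        congr 1
        push_cast
        ring
      rw [e2]
      ring
    symm
    rw [Finset.sum_congr rfl e1, Finset.sum_comm, Finset.mul_sum]
    refine Finset.sum_congr rfl fun b hb => ?_
    rw [Finset.sum_comm, Finset.mul_sum]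
    refine Finset.sum_congr rfl fun b' hb' => ?_
    rw [← Finset.mul_sum, tp_inv Q hQ hρ En hexp (b' - b) (hS b hb b' hb')]
    ring
  have s3 := tp_pars Q hQ S B hSS
  have s6 : Q * ‖∑ b ∈ S, ∑ b' ∈ S, B b * (starRingEnd ℂ) (B b') * ρ (b' - b)‖ ≤
      Q * ((∑ b ∈ S, ‖B b‖ ^ 2) * En ((i0 : ℝ) / Q)) := by
    have e1 : Q * ‖∑ b ∈ S, ∑ b' ∈ S, B b * (starRingEnd ℂ) (B b') * ρ (b' - b)‖ =
        ‖(Q : ℂ) * ∑ b ∈ S, ∑ b' ∈ S, B b * (starRingEnd ℂ) (B b') * ρ (b' - b)‖ := by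
      rw [norm_mul, Complex.norm_natCast]
    rw [e1, s1, Complex.norm_real, Real.norm_of_nonneg (Finset.sum_nonneg fun _ _ => mul_nonneg (hE _) (by positivity))]
    calc _ ≤ ∑ i ∈ range Q, En ((i0 : ℝ) / Q) * ‖∑ b ∈ S, B b * ee ((i : ℝ) / Q * b)‖ ^ 2 :=
          Finset.sum_le_sum fun i hi => mul_le_mul_of_nonneg_right (hmax i hi) (by positivity)
      _ = Q * ((∑ b ∈ S, ‖B b‖ ^ 2) * En ((i0 : ℝ) / Q)) := by
          rw [← Finset.mul_sum, s3]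
          ring
  exact le_of_mul_le_mul_left s6 hQR

end Pool.Agent.H3B
end

-- from Lib.H21T.Z5A
section

/-!
# Chunk Z5A (S/M): numbers for the major arcs
-/

namespace Pool.Agent.Lib.H21T

open Finset Pool.Agent.SZW

/-- `X`, `S`, `Λ` from `g1`, `s0 = ⌊u ^ 1250⌋₊`. `H S ^ 2 ≤ 3 u ^ 14740 ≤ u ^ 19998 ≤ A ^ 2`. The sum is at most
`4 u ^ 8750 + 48 u ^ 7500 + 32 u ^ 7502 + 291 * 5 u ^ 2 u ^ 1250 u ^ 2500 4 u ^ 5000 + 6 ≤ u ^ 8753`. -/
theorem z5_num : ∃ U0 : ℝ, 1 ≤ U0 ∧ ∀ u : ℝ, U0 ≤ u → ∀ A x H : ℕ, u ^ 9999 ≤ A → (A : ℝ) ≤ u ^ 10000 →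
    A ^ 2 ≤ 2 * x → (x : ℝ) ≤ 4 * u ^ 2 * (A : ℝ) ^ 2 → (H : ℝ) ≤ 3 * u ^ 9740 →
    ∃ X S Λ s0 : ℕ, Geo A x X S Λ ∧ H * S ^ 2 ≤ A ^ 2 ∧ 1 ≤ s0 ∧
      2 * A * (1 / (s0 : ℝ) + 12 / S) + 2 * A * S / Λ + 291 * X * s0 * S * Λ + 2 * H / A ≤ u ^ 8753 := by
  refine ⟨10000, by norm_num, ?_⟩
  intro u hu A x H hA1 hA2 hAx hxA hH
  have hu1 : (1 : ℝ) ≤ u := by linarith
  have hu0 : (0 : ℝ) < u := by linarith
  obtain ⟨X, S, Λ, hG, hX1, hX2, hS1, hS2, hL1, hL2⟩ := g1 u (by linarith) A x hA1 hA2 hAx hxA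
  have hP1250 : 1 ≤ u ^ 1250 := one_le_pow₀ hu1
  have hP2500 : 1 ≤ u ^ 2500 := one_le_pow₀ hu1
  have hP5000 : 1 ≤ u ^ 5000 := one_le_pow₀ hu1
  have hs0a : ((⌊u ^ 1250⌋₊ : ℕ) : ℝ) ≤ u ^ 1250 := Nat.floor_le (by positivity)
  have hs0b : u ^ 1250 < (⌊u ^ 1250⌋₊ : ℕ) + 1 := Nat.lt_floor_add_one _
  have hs0c : 1 ≤ ⌊u ^ 1250⌋₊ := by
    rw [Nat.one_le_floor_iff]
    exact hP1250
  obtain ⟨s0, hs0⟩ : ∃ s0 : ℕ, s0 = ⌊u ^ 1250⌋₊ := ⟨_, rfl⟩
  rw [← hs0] at hs0a hs0b hs0c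
  have hs0r : (1 : ℝ) ≤ s0 := by exact_mod_cast hs0c
  have hs0d : u ^ 1250 ≤ 2 * s0 := by linarith
  have hSr : (1 : ℝ) ≤ S := by exact_mod_cast hG.hS
  have hLr : (1 : ℝ) ≤ Λ := by exact_mod_cast hG.hΛ
  have hXr : (1 : ℝ) ≤ X := by exact_mod_cast hG.hX1
  have hA0 : (1 : ℝ) ≤ A := le_trans (one_le_pow₀ hu1) hA1
  have hpos : 0 < u ^ 8752 := pow_pos hu0 _
  have hp1 : u ^ 8750 ≤ u ^ 8752 := pow_le_pow_right₀ hu1 (by norm_num)
  have hp2 : u ^ 7500 ≤ u ^ 8752 := pow_le_pow_right₀ hu1 (by norm_num)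
  have hp3 : u ^ 7502 ≤ u ^ 8752 := pow_le_pow_right₀ hu1 (by norm_num)
  have hp4 : 1 ≤ u ^ 8752 := one_le_pow₀ hu1
  have hp5 : u ^ 8753 = u * u ^ 8752 := by rw [← pow_succ']
  refine ⟨X, S, Λ, s0, hG, ?_, hs0c, ?_⟩
  · have h1 : (H : ℝ) * (S : ℝ) ^ 2 ≤ (A : ℝ) ^ 2 := by
      calc (H : ℝ) * (S : ℝ) ^ 2 ≤ (3 * u ^ 9740) * (u ^ 2500) ^ 2 := by
            apply mul_le_mul hH _ (by positivity) (by positivity)
            exact pow_le_pow_left₀ (by linarith) hS1 2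
        _ = 3 * u ^ 14740 := by
            rw [← pow_mul, mul_assoc, ← pow_add]
        _ ≤ u * u ^ 14740 := by
            apply mul_le_mul_of_nonneg_right (by linarith) (by positivity)
        _ = u ^ 14741 := by rw [← pow_succ']
        _ ≤ u ^ 19998 := pow_le_pow_right₀ hu1 (by norm_num)
        _ = (u ^ 9999) ^ 2 := by rw [← pow_mul]
        _ ≤ (A : ℝ) ^ 2 := pow_le_pow_left₀ (by positivity) hA1 2
    exact_mod_cast h1
  · have t1 : 2 * (A : ℝ) * (1 / (s0 : ℝ)) ≤ 4 * u ^ 8750 := by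
      rw [mul_one_div, div_le_iff₀ (by linarith)]
      calc 2 * (A : ℝ) ≤ 2 * u ^ 10000 := by linarith
        _ = 2 * u ^ 8750 * u ^ 1250 := by rw [mul_assoc, ← pow_add]
        _ ≤ 2 * u ^ 8750 * (2 * s0) := by
            apply mul_le_mul_of_nonneg_left hs0d (by positivity)
        _ = 4 * u ^ 8750 * s0 := by ring
    have t2 : 2 * (A : ℝ) * (12 / (S : ℝ)) ≤ 48 * u ^ 7500 := by
      rw [← mul_div_assoc, div_le_iff₀ (by linarith)]
      calc 2 * (A : ℝ) * 12 ≤ 2 * u ^ 10000 * 12 := by linarith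
        _ = 24 * u ^ 7500 * u ^ 2500 := by
            have : u ^ 10000 = u ^ 7500 * u ^ 2500 := by rw [← pow_add]
            rw [this]; ring
        _ ≤ 24 * u ^ 7500 * (2 * S) := by
            apply mul_le_mul_of_nonneg_left hS2 (by positivity)
        _ = 48 * u ^ 7500 * S := by ring
    have t3 : 2 * (A : ℝ) * S / Λ ≤ 32 * u ^ 7502 := by
      rw [div_le_iff₀ (by linarith)]
      calc 2 * (A : ℝ) * S ≤ 2 * (16 * u ^ 5002 * Λ) * u ^ 2500 := by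
            apply mul_le_mul (by linarith) hS1 (by linarith) (by positivity)
        _ = 32 * u ^ 7502 * Λ := by
            have : u ^ 7502 = u ^ 5002 * u ^ 2500 := by rw [← pow_add]
            rw [this]; ring
    have t4 : 291 * (X : ℝ) * s0 * S * Λ ≤ 5820 * u ^ 8752 := by
      calc 291 * (X : ℝ) * s0 * S * Λ ≤ 291 * (5 * u ^ 2) * u ^ 1250 * u ^ 2500 * (4 * u ^ 5000) := by
            have a1 : 291 * (X : ℝ) ≤ 291 * (5 * u ^ 2) := by linarith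
            have a2 : 291 * (X : ℝ) * s0 ≤ 291 * (5 * u ^ 2) * u ^ 1250 :=
              mul_le_mul a1 hs0a (by linarith) (by positivity)
            have a3 : 291 * (X : ℝ) * s0 * S ≤ 291 * (5 * u ^ 2) * u ^ 1250 * u ^ 2500 :=
              mul_le_mul a2 hS1 (by linarith) (by positivity)
            exact mul_le_mul a3 hL1 (by linarith) (by positivity)
        _ = 5820 * u ^ 8752 := by
            have : u ^ 8752 = u ^ 2 * u ^ 1250 * u ^ 2500 * u ^ 5000 := by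
              rw [← pow_add, ← pow_add, ← pow_add]
            rw [this]; ring
    have t5 : 2 * (H : ℝ) / A ≤ 6 := by
      rw [div_le_iff₀ (by linarith)]
      have : u ^ 9740 ≤ u ^ 9999 := pow_le_pow_right₀ hu1 (by norm_num)
      linarith
    have hfin : 5910 * u ^ 8752 ≤ u ^ 8753 := by
      rw [hp5]
      exact mul_le_mul_of_nonneg_right (by linarith) hpos.le
    have hsplit : 2 * (A : ℝ) * (1 / (s0 : ℝ) + 12 / S) = 2 * (A : ℝ) * (1 / (s0 : ℝ)) + 2 * (A : ℝ) * (12 / (S : ℝ)) := by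
      ring
    rw [hsplit]
    linarith

end Pool.Agent.Lib.H21T
end

-- from Lib.H3B.S2A
section

/-! # H3B (MP_443e5f, candidate T, module B), chunk S2A -/

namespace Pool.Agent.H3B

open Finset
open Pool.Agent.H44W (ee TF cut)

theorem s2a_icc (m : ℕ) : ((Icc (-(m : ℤ)) m).card : ℝ) = 2 * m + 1 := by
  rw [Int.card_Icc]
  have h1 : ((m : ℤ) + 1 - -(m : ℤ)).toNat = 2 * m + 1 := by omega
  rw [h1]
  push_cast
  ring

theorem s2a_union {α : Type*} [DecidableEq α] (A B : Finset α) (f : α → ℝ) (hf : ∀ x, 0 ≤ f x) :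
    ∑ x ∈ A ∪ B, f x ≤ ∑ x ∈ A, f x + ∑ x ∈ B, f x := by
  rw [← Finset.sum_union_inter]
  have : 0 ≤ ∑ x ∈ A ∩ B, f x := Finset.sum_nonneg fun x _ => hf x
  linarith

/-- Chunk S2A (M). Counting. PROOF. C₁ = A + 5: P = the pairs (j, k) with K / D^(A+5) ≤ |j| < K, k ≠ 0, K² |k| ≤ 2 n, ‖v j k‖ ≥ K M n / D^(A+6). There are at most 4 n/K² values k ≠ 0 with K² |k| ≤ 2 n and (with k = 0)
at most 4 n/K² + 1 ≤ 5 n/K². Pairs with |j| < K/D^(A+5): at most 2 K/D^(A+5) + 1 ≤ 3 K/D^(A+5) values of j (K ≥ D^C), contribution ≤ 3 K/D^(A+5) · 5 n/K² · 6 K M n = 90 M n²/D^(A+5) ... take C₁ larger if necessary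
(90 ≤ 2^7): use |j| ≥ K/D^(A+9): contribution ≤ 90 M n²/D^(A+9) ≤ M n²/(4 D^A). Pairs with k = 0: ≤ 2 K · 6 K M n = 12 K² M n ≤ M n²/(4 D^A) if K² D^(A+6) ≤ n. Pairs with small v: at most 2K · 4n/K² = 8 n/K pairs,
contribution ≤ (8 n/K) K M n/D^(A+5) ≤ M n²/(4 D^A). The rest is ≥ M n²/(4 D^A), each term ≤ 6 K M n: card P ≥ n/(24 K D^A) ≥ n/(K D^(A+5)). So C₁ = A + 9 works everywhere. (M ≥ 1.) -/
theorem step2a (A : ℕ) : ∃ C₁ C : ℕ, ∀ (n K M : ℕ) (D : ℝ), 2 ≤ D → 1 ≤ M → D ^ C ≤ K → (K : ℝ) ^ 2 * D ^ C ≤ n → ∀ v : ℤ → ℤ → ℂ,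
    (∀ j k, ‖v j k‖ ≤ 6 * K * M * n) → (∀ j k, 2 * (n : ℤ) < K ^ 2 * |k| → v j k = 0) →
    (M : ℝ) * n ^ 2 / D ^ A ≤ ∑ j ∈ Ioo (-(K : ℤ)) K, ∑ k ∈ Icc (-(2 * n : ℤ)) (2 * n), ‖v j k‖ →
    ∃ P : Finset (ℤ × ℤ), (n : ℝ) / (K * D ^ C₁) ≤ P.card ∧
      ∀ p ∈ P, (K : ℝ) / D ^ C₁ ≤ |(p.1 : ℝ)| ∧ |p.1| < K ∧ p.2 ≠ 0 ∧ (K : ℝ) * M * n / D ^ C₁ ≤ ‖v p.1 p.2‖ := by
  classical
  refine ⟨A + 8, A + 8, ?_⟩
  intro n K M D hD hM hK hn v hv hv0 hsum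
  obtain ⟨c, hc⟩ : ∃ c, c = A + 8 := ⟨_, rfl⟩
  rw [← hc] at hK hn ⊢
  have hD0 : 0 < D := by linarith
  have hD1 : 1 ≤ D := by linarith
  have hDc : 0 < D ^ c := by positivity
  have hDA : 0 < D ^ A := by positivity
  have hDc1 : 1 ≤ D ^ c := one_le_pow₀ hD1
  have hD8 : (256 : ℝ) ≤ D ^ 8 := by
    calc (256 : ℝ) = 2 ^ 8 := by norm_num
      _ ≤ D ^ 8 := pow_le_pow_left₀ (by norm_num) hD 8
  have hDcA : D ^ c = D ^ A * D ^ 8 := by rw [hc, pow_add]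
  have hK1 : (1 : ℝ) ≤ K := hDc1.trans hK
  have hK0 : (0 : ℝ) < K := by linarith
  have hM1 : (1 : ℝ) ≤ M := by exact_mod_cast hM
  have hM0 : (0 : ℝ) < M := by linarith
  have hnK : (K : ℝ) ^ 2 ≤ n := by
    calc (K : ℝ) ^ 2 = (K : ℝ) ^ 2 * 1 := (mul_one _).symm
      _ ≤ (K : ℝ) ^ 2 * D ^ c := mul_le_mul_of_nonneg_left hDc1 (by positivity)
      _ ≤ n := hn
  have hn1 : (1 : ℝ) ≤ n := by nlinarith
  have hn0 : (0 : ℝ) < n := by linarith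
  obtain ⟨E, hE⟩ : ∃ E : ℝ, E = 6 * K * M * n := ⟨_, rfl⟩
  have hE0 : 0 ≤ E := by rw [hE]; positivity
  rw [← hE] at hv
  set J : Finset ℤ := Ioo (-(K : ℤ)) K with hJ
  set I : Finset ℤ := Icc (-(2 * n : ℤ)) (2 * n) with hI
  set W : Finset ℤ := I.filter (fun k => (K : ℤ) ^ 2 * |k| ≤ 2 * n) with hW
  set J' : Finset ℤ := J.filter (fun j => |(j : ℝ)| < K / D ^ c) with hJ'
  set P : Finset (ℤ × ℤ) := (J ×ˢ W).filter (fun p => (K : ℝ) / D ^ c ≤ |(p.1 : ℝ)| ∧ p.2 ≠ 0 ∧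
    (K : ℝ) * M * n / D ^ c ≤ ‖v p.1 p.2‖) with hP
  set Rs : Finset (ℤ × ℤ) := (J ×ˢ W).filter (fun p => ‖v p.1 p.2‖ < (K : ℝ) * M * n / D ^ c) with hR
  -- cardinalities
  have cJ : (J.card : ℝ) ≤ 2 * K := by
    rw [hJ, Int.card_Ioo]
    have h1 : ((K : ℤ) - -(K : ℤ) - 1).toNat ≤ 2 * K := by omega
    exact_mod_cast h1
  have cW : (W.card : ℝ) ≤ 5 * n / (K : ℝ) ^ 2 := by
    have h1 : W ⊆ Icc (-((2 * n / K ^ 2 : ℕ) : ℤ)) ((2 * n / K ^ 2 : ℕ) : ℤ) := by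
      intro k hk
      have h2 := (mem_filter.1 hk).2
      have hKn : 0 < K ^ 2 := by
        have : 0 < K := by exact_mod_cast hK0
        positivity
      have h3 : K ^ 2 * k.natAbs ≤ 2 * n := by
        have h4 : ((K ^ 2 * k.natAbs : ℕ) : ℤ) ≤ ((2 * n : ℕ) : ℤ) := by
          push_cast
          exact h2
        exact_mod_cast h4
      have h4 : k.natAbs ≤ 2 * n / K ^ 2 := by
        rw [Nat.le_div_iff_mul_le hKn, mul_comm]
        exact h3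
      rw [mem_Icc, ← abs_le]
      rw [Int.abs_eq_natAbs]
      exact_mod_cast h4
    have h2 : (W.card : ℝ) ≤ 2 * ((2 * n / K ^ 2 : ℕ) : ℝ) + 1 := by
      rw [← s2a_icc]
      exact_mod_cast card_le_card h1
    have h3 : ((2 * n / K ^ 2 : ℕ) : ℝ) ≤ (2 * n) / (K : ℝ) ^ 2 := by
      have := @Nat.cast_div_le ℝ _ _ _ (2 * n) (K ^ 2)
      push_cast at this
      exact this
    have h4 : 1 ≤ (n : ℝ) / (K : ℝ) ^ 2 := by
      rw [le_div_iff₀ (by positivity), one_mul]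
      exact hnK
    calc (W.card : ℝ) ≤ 2 * ((2 * n) / (K : ℝ) ^ 2) + (n : ℝ) / (K : ℝ) ^ 2 := by linarith
      _ = 5 * n / (K : ℝ) ^ 2 := by ring
  have cJ' : (J'.card : ℝ) ≤ 3 * K / D ^ c := by
    have h1 : J' ⊆ Icc (-((⌊(K : ℝ) / D ^ c⌋₊ : ℕ) : ℤ)) ((⌊(K : ℝ) / D ^ c⌋₊ : ℕ) : ℤ) := by
      intro j hj
      have h2 := (mem_filter.1 hj).2
      have h3 : j.natAbs ≤ ⌊(K : ℝ) / D ^ c⌋₊ := by
        refine Nat.le_floor ?_
        rw [Nat.cast_natAbs, Int.cast_abs]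
        exact h2.le
      rw [mem_Icc, ← abs_le, Int.abs_eq_natAbs]
      exact_mod_cast h3
    have h2 : (J'.card : ℝ) ≤ 2 * ((⌊(K : ℝ) / D ^ c⌋₊ : ℕ) : ℝ) + 1 := by
      rw [← s2a_icc]
      exact_mod_cast card_le_card h1
    have h3 : ((⌊(K : ℝ) / D ^ c⌋₊ : ℕ) : ℝ) ≤ (K : ℝ) / D ^ c := Nat.floor_le (by positivity)
    have h4 : 1 ≤ (K : ℝ) / D ^ c := by
      rw [le_div_iff₀ hDc, one_mul]
      exact hK
    calc (J'.card : ℝ) ≤ 2 * ((K : ℝ) / D ^ c) + (K : ℝ) / D ^ c := by linarith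
      _ = 3 * K / D ^ c := by ring
  -- the sum is over the union
  have hcov : ∑ j ∈ J, ∑ k ∈ I, ‖v j k‖ ≤
      ∑ p ∈ P ∪ ((J' ×ˢ W) ∪ ((J ×ˢ {0}) ∪ Rs)), ‖v p.1 p.2‖ := by
    rw [← Finset.sum_product']
    rw [← Finset.sum_filter_ne_zero (s := J ×ˢ I) (f := fun p : ℤ × ℤ => ‖v p.1 p.2‖)]
    refine Finset.sum_le_sum_of_subset_of_nonneg (fun p hp' => ?_) (fun p _ _ => norm_nonneg _)
    obtain ⟨hp, hne⟩ := mem_filter.1 hp'
    obtain ⟨hp1, hp2⟩ := mem_product.1 hp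
    have hpW : p.2 ∈ W := by
      refine mem_filter.2 ⟨hp2, ?_⟩
      by_contra h
      push Not at h
      exact hne (by rw [hv0 _ _ h, norm_zero])
    by_cases h1 : |((p.1 : ℤ) : ℝ)| < K / D ^ c
    · exact mem_union_right _ (mem_union_left _ (mem_product.2 ⟨mem_filter.2 ⟨hp1, h1⟩, hpW⟩))
    by_cases h2 : p.2 = 0
    · exact mem_union_right _ (mem_union_right _ (mem_union_left _
        (mem_product.2 ⟨hp1, mem_singleton.2 h2⟩)))
    by_cases h3 : ‖v p.1 p.2‖ < (K : ℝ) * M * n / D ^ c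
    · exact mem_union_right _ (mem_union_right _ (mem_union_right _
        (mem_filter.2 ⟨mem_product.2 ⟨hp1, hpW⟩, h3⟩)))
    · exact mem_union_left _ (mem_filter.2 ⟨mem_product.2 ⟨hp1, hpW⟩, not_lt.1 h1, h2, not_lt.1 h3⟩)
  have hnn : ∀ p : ℤ × ℤ, 0 ≤ ‖v p.1 p.2‖ := fun p => norm_nonneg _
  have hsplit : ∑ p ∈ P ∪ ((J' ×ˢ W) ∪ ((J ×ˢ {0}) ∪ Rs)), ‖v p.1 p.2‖ ≤
      ∑ p ∈ P, ‖v p.1 p.2‖ + (∑ p ∈ J' ×ˢ W, ‖v p.1 p.2‖ + (∑ p ∈ J ×ˢ ({0} : Finset ℤ), ‖v p.1 p.2‖ +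
        ∑ p ∈ Rs, ‖v p.1 p.2‖)) := by
    refine (s2a_union _ _ _ hnn).trans (add_le_add le_rfl ?_)
    refine (s2a_union _ _ _ hnn).trans (add_le_add le_rfl ?_)
    exact s2a_union _ _ _ hnn
  have hbd : ∀ (S : Finset (ℤ × ℤ)) (e : ℝ), (∀ p ∈ S, ‖v p.1 p.2‖ ≤ e) →
      ∑ p ∈ S, ‖v p.1 p.2‖ ≤ S.card * e := by
    intro S e h
    refine (Finset.sum_le_sum h).trans (le_of_eq ?_)
    rw [Finset.sum_const, nsmul_eq_mul]
  have b1 := hbd P E fun p _ => hv _ _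
  have b2 : ∑ p ∈ J' ×ˢ W, ‖v p.1 p.2‖ ≤ 90 * (M * n ^ 2 / D ^ c) := by
    refine (hbd (J' ×ˢ W) E fun p _ => hv _ _).trans ?_
    rw [card_product, Nat.cast_mul]
    calc (J'.card : ℝ) * W.card * E ≤ (3 * K / D ^ c) * (5 * n / (K : ℝ) ^ 2) * E := by
          refine mul_le_mul_of_nonneg_right ?_ hE0
          exact mul_le_mul cJ' cW (Nat.cast_nonneg _) (by positivity)
      _ = 90 * (M * n ^ 2 / D ^ c) := by
          rw [hE]
          field_simp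
          ring
  have b3 : ∑ p ∈ J ×ˢ ({0} : Finset ℤ), ‖v p.1 p.2‖ ≤ 12 * (M * n ^ 2 / D ^ c) := by
    refine (hbd (J ×ˢ ({0} : Finset ℤ)) E fun p _ => hv _ _).trans ?_
    rw [card_product, card_singleton, mul_one]
    have h1 : (K : ℝ) ^ 2 ≤ n / D ^ c := by
      rw [le_div_iff₀ hDc]
      exact hn
    calc (J.card : ℝ) * E ≤ (2 * K) * E := mul_le_mul_of_nonneg_right cJ hE0
      _ = 12 * (M * n * (K : ℝ) ^ 2) := by
          rw [hE]
          ring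
      _ ≤ 12 * (M * n * (n / D ^ c)) := by
          refine mul_le_mul_of_nonneg_left ?_ (by norm_num)
          exact mul_le_mul_of_nonneg_left h1 (by positivity)
      _ = 12 * (M * n ^ 2 / D ^ c) := by ring
  have b4 : ∑ p ∈ Rs, ‖v p.1 p.2‖ ≤ 10 * (M * n ^ 2 / D ^ c) := by
    refine (hbd Rs ((K : ℝ) * M * n / D ^ c) fun p hp => (mem_filter.1 hp).2.le).trans ?_
    have h1 : (Rs.card : ℝ) ≤ (2 * K) * (5 * n / (K : ℝ) ^ 2) := by
      have h2 : (Rs.card : ℝ) ≤ (J ×ˢ W).card := by exact_mod_cast card_filter_le _ _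
      rw [card_product, Nat.cast_mul] at h2
      exact h2.trans (mul_le_mul cJ cW (Nat.cast_nonneg _) (by positivity))
    calc (Rs.card : ℝ) * ((K : ℝ) * M * n / D ^ c)
        ≤ (2 * K) * (5 * n / (K : ℝ) ^ 2) * ((K : ℝ) * M * n / D ^ c) :=
          mul_le_mul_of_nonneg_right h1 (by positivity)
      _ = 10 * (M * n ^ 2 / D ^ c) := by
          field_simp
          ring
  have hX : 112 * ((M : ℝ) * n ^ 2 / D ^ c) ≤ 1 / 2 * (M * n ^ 2 / D ^ A) := by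
    rw [hDcA, ← div_div]
    obtain ⟨Y, hY⟩ : ∃ Y : ℝ, Y = (M : ℝ) * n ^ 2 / D ^ A := ⟨_, rfl⟩
    have hY0 : 0 ≤ Y := by rw [hY]; positivity
    rw [← hY, mul_div_assoc', div_le_iff₀ (by positivity)]
    nlinarith
  have hfin : 1 / 2 * ((M : ℝ) * n ^ 2 / D ^ A) ≤ P.card * E := by linarith
  refine ⟨P, ?_, fun p hp => ?_⟩
  · have h1 : (n : ℝ) / (12 * K * D ^ A) ≤ P.card := by
      have h2 : (n : ℝ) / (12 * K * D ^ A) * E = 1 / 2 * ((M : ℝ) * n ^ 2 / D ^ A) := by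
        rw [hE]
        field_simp
        ring
      rw [← h2] at hfin
      exact le_of_mul_le_mul_right hfin (by rw [hE]; positivity)
    refine le_trans ?_ h1
    refine div_le_div_of_nonneg_left hn0.le (by positivity) ?_
    rw [hDcA]
    have h3 : 0 < K * D ^ A := by positivity
    nlinarith
  · obtain ⟨h1, h2, h3, h4⟩ := mem_filter.1 hp
    have h5 := mem_Ioo.1 (mem_product.1 h1).1
    exact ⟨h2, abs_lt.2 h5, h3, h4⟩

end Pool.Agent.H3B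
end

-- from Lib.H81A.NU
section

/-!
# H81A, chunk NU (M/L): choice of the parameters
-/

namespace Pool.Agent.Lib.H81A

open Finset ArithmeticFunction

theorem nu_pow {N : ℕ} (hN : 1 ≤ N) (x : ℝ) : (N : ℝ) ^ x = 2 ^ (x * Real.logb 2 N) := by
  have h1 : (0 : ℝ) < N := by exact_mod_cast hN
  have h2 : (2 : ℝ) ^ (Real.logb 2 N) = N := Real.rpow_logb (by norm_num) (by norm_num) h1
  rw [mul_comm, Real.rpow_mul (by norm_num), h2]

theorem nu_le (a : ℕ) {y : ℝ} (h : (a : ℝ) ≤ y) : (2 : ℝ) ^ a ≤ 2 ^ y := by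
  rw [← Real.rpow_natCast]
  exact Real.rpow_le_rpow_of_exponent_le (by norm_num) h

theorem nu_ge (a : ℕ) {y : ℝ} (h : y ≤ (a : ℝ)) : (2 : ℝ) ^ y ≤ 2 ^ a := by
  rw [← Real.rpow_natCast]
  exact Real.rpow_le_rpow_of_exponent_le (by norm_num) h

/-- PROOF. `J` with `1 / J < c`, `J ≥ 1`; `r = 2 J`; `e = ε / (2 (6 J + 2))`, `V = N ^ e`; `L = Nat.log 2 N + 1` (`N < 2 ^ L ≤ 2 N`), `u = ⌈c log_2 N⌉`, `v = ⌊(1 / 2 - η) log_2 N⌋ - r`, `z = ⌊N ^ (1 / J)⌋`. For `N` large: `N ^ c ≤ 2 ^ u ≤ 2 N ^ c`,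
`2 ^ (u + r) ≤ 2 ^ (r + 1) N ^ c ≤ N ^ (2 c)`; `N ^ (1 / 2 - η) 2 ^ (-r - 1) ≤ 2 ^ v ≤ N ^ (1 / 2 - η) 2 ^ (-r)`, so `2 ^ (v + 1) ≥ N ^ (1 / 2 - 2 η)` and `2 ^ (L - v) ≤ 2 ^ (r + 2) N ^ (1 / 2 + η) ≤ N ^ (1 / 2 + 2 η)`; `2 u ≤ v + 1` because `2 c < 1 / 2 - η`; `L ≤ 3 (v + 1)` because
`3 (1 / 2 - η) > 1`; divisor bound `Pool.Agent.Lib.H21AP.divisor_bound` (Lib/H21AP/DivisorBound.lean, import it) with the exponent `e / 2`; `log`, `L` and constants are below `N ^ e` (`isLittleO_log_rpow_atTop`); `(z + 1) ^ J > N`, `z ≤ N ^ (1 / J) < N ^ c ≤ 2 ^ u`;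
`2 ^ J V ^ (6 J + 2) = 2 ^ J N ^ (ε / 2) ≤ N ^ ε`. -/
theorem params (c η ε : ℝ) (hc : 0 < c) (hη : 0 < η) (hcη : 4 * c + 4 * η ≤ 1 / 3) (hε : 0 < ε) : ∃ J N₀ : ℕ, ∀ N : ℕ, N₀ ≤ N → ∃ (L u v z : ℕ) (V : ℝ),
    Par c η N L u v (2 * J) V ∧ N < (z + 1) ^ J ∧ z < 2 ^ u ∧ 2 ^ J * V ^ (6 * J + 2) ≤ (N : ℝ) ^ ε := by
  obtain ⟨J0, hJ0⟩ := exists_nat_one_div_lt hc
  set J := J0 + 1 with hJdef
  have hJ : 1 / (J : ℝ) < c := by
    rw [hJdef]
    push_cast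
    exact hJ0
  have hJpos : (0 : ℝ) < J := by rw [hJdef]; positivity
  set e := ε / (2 * (6 * (J : ℝ) + 2)) with he
  have hepos : 0 < e := by positivity
  obtain ⟨C, hC, hdiv⟩ := Pool.Agent.Lib.H21AP.divisor_bound (ε := e / 2) (by positivity)
  set r := 2 * J with hr
  have hl : Filter.Tendsto (fun N : ℕ => Real.logb 2 N) Filter.atTop Filter.atTop :=
    (Real.tendsto_logb_atTop (by norm_num)).comp tendsto_natCast_atTop_atTop
  have hpow : ∀ x : ℝ, 0 < x → Filter.Tendsto (fun N : ℕ => (N : ℝ) ^ x) Filter.atTop Filter.atTop :=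
    fun x hx => (tendsto_rpow_atTop hx).comp tendsto_natCast_atTop_atTop
  have e1 := (hl.const_mul_atTop hc).eventually_ge_atTop ((r : ℝ) + 2)
  have e2 := (hl.const_mul_atTop hη).eventually_ge_atTop ((r : ℝ) + 3)
  have e3 := (hl.const_mul_atTop (show (0 : ℝ) < 1 / 4 by norm_num)).eventually_ge_atTop (3 * (r : ℝ) + 3)
  have e4 : ∀ᶠ N : ℕ in Filter.atTop, Real.log N ≤ 1 / 4 * (N : ℝ) ^ e := by
    have h1 := (isLittleO_log_rpow_atTop hepos).def (show (0 : ℝ) < 1 / 4 by norm_num)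
    have h2 := tendsto_natCast_atTop_atTop (R := ℝ) |>.eventually h1
    filter_upwards [h2, Filter.eventually_ge_atTop 1] with N hN hN1
    have h3 : (1 : ℝ) ≤ N := by exact_mod_cast hN1
    rwa [Real.norm_of_nonneg (Real.log_nonneg h3), Real.norm_of_nonneg (by positivity)] at hN
  have e5 := (hpow e hepos).eventually_ge_atTop ((r : ℝ) + 4)
  have e6 := (hpow (e / 2) (by positivity)).eventually_ge_atTop C
  have e7 := (hpow (ε / 2) (by positivity)).eventually_ge_atTop ((2 : ℝ) ^ J)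
  obtain ⟨N₀, hN₀⟩ := Filter.eventually_atTop.1
    (((((((e1.and e2).and e3).and e4).and e5).and e6).and e7).and (Filter.eventually_ge_atTop 2))
  refine ⟨J, N₀, fun N hN => ?_⟩
  obtain ⟨⟨⟨⟨⟨⟨⟨f1, f2⟩, f3⟩, f4⟩, f5⟩, f6⟩, f7⟩, f8⟩ := hN₀ N hN
  have hN1 : 1 ≤ N := by omega
  have hNR : (1 : ℝ) ≤ N := by exact_mod_cast hN1
  have hNR2 : (1 : ℝ) < N := by exact_mod_cast (show 1 < N by omega)
  set l := Real.logb 2 N with hldef
  have hl0 : 0 < l := Real.logb_pos (by norm_num) hNR2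
  have hη' : η ≤ 1 / 12 := by linarith
  have hc' : c ≤ 1 / 12 := by linarith
  have hrJ : (r : ℝ) = 2 * J := by
    rw [hr]
    push_cast
    ring
  have hpw : ∀ x : ℝ, (N : ℝ) ^ x = 2 ^ (x * l) := fun x => nu_pow hN1 x
  -- parameters
  set u := ⌈c * l⌉₊ with hu
  set w := ⌊(1 / 2 - η) * l⌋₊ with hw
  set v := w - r with hv
  have hcl : c * l ≤ 1 / 12 * l := mul_le_mul_of_nonneg_right hc' hl0.le
  have hηl : η * l ≤ 1 / 12 * l := mul_le_mul_of_nonneg_right hη' hl0.le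
  have hw1 : (w : ℝ) ≤ (1 / 2 - η) * l := Nat.floor_le (mul_nonneg (by linarith) hl0.le)
  have hw2 : (1 / 2 - η) * l < w + 1 := Nat.lt_floor_add_one _
  have hw3 : (1 / 2 - η) * l = 1 / 2 * l - η * l := sub_mul _ _ _
  have hr0 : (0 : ℝ) ≤ r := Nat.cast_nonneg r
  have hrl : (r : ℝ) ≤ (w : ℝ) := by linarith
  have hrw : r ≤ w := by exact_mod_cast hrl
  have hvR : (v : ℝ) = w - r := by rw [hv, Nat.cast_sub hrw]
  have hu1 : c * l ≤ u := Nat.le_ceil _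
  have hu2 : (u : ℝ) < c * l + 1 := Nat.ceil_lt_add_one (by positivity)
  have hL1 : ((Nat.log 2 N : ℕ) : ℝ) ≤ l := by
    have h1 : (2 : ℝ) ^ (Nat.log 2 N) ≤ N := by exact_mod_cast Nat.pow_log_le_self 2 (by omega)
    rw [hldef, Real.le_logb_iff_rpow_le (by norm_num) (by linarith), Real.rpow_natCast]
    exact h1
  refine ⟨Nat.log 2 N + 1, u, v, ⌊(N : ℝ) ^ (1 / (J : ℝ))⌋₊, (N : ℝ) ^ e, ?_, ?_, ?_, ?_⟩
  · refine ⟨hN1, ?_, ?_, ?_, ?_, ?_, ?_, ?_, ?_, ?_, ?_, ?_, ?_, ?_, ?_, ?_⟩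
    · exact Nat.lt_pow_succ_log_self (by norm_num) N
    · exact Nat.ceil_pos.2 (by positivity)
    · rw [hpw]
      exact nu_ge _ hu1
    · rw [hpw]
      refine nu_le _ ?_
      push_cast
      rw [hvR]
      linarith
    · rw [hpw]
      refine nu_le _ ?_
      push_cast
      linarith
    · calc (N : ℝ) ^ (2 * c) ≤ (N : ℝ) ^ (1 : ℝ) := Real.rpow_le_rpow_of_exponent_le hNR (by linarith)
        _ = N := Real.rpow_one _
    · rw [hpw]
      refine nu_ge _ ?_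
      push_cast
      rw [hvR]
      linarith
    · rw [hpw]
      refine nu_le _ ?_
      rcases le_or_gt v (Nat.log 2 N + 1) with h | h
      · rw [Nat.cast_sub h]
        push_cast
        rw [hvR]
        linarith
      · have : Nat.log 2 N + 1 - v = 0 := by omega
        rw [this]
        push_cast
        positivity
    · have : (2 * u : ℝ) ≤ (v : ℝ) + 1 := by
        rw [hvR]
        linarith
      exact_mod_cast this
    · have : ((Nat.log 2 N : ℕ) : ℝ) + 1 ≤ 3 * ((v : ℝ) + 1) := by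
        rw [hvR]
        linarith
      exact_mod_cast this
    · exact Real.one_le_rpow hNR hepos.le
    · push_cast
      have h1 : l ≤ 2 * Real.log N := by
        rw [hldef, Real.logb, div_le_iff₀ (Real.log_pos (by norm_num))]
        have h2 : (1 : ℝ) / 2 ≤ Real.log 2 := by
          have := Real.log_two_gt_d9
          linarith
        have h3 : 0 ≤ Real.log N := Real.log_nonneg hNR
        calc Real.log N = Real.log N * 1 := (mul_one _).symm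
          _ ≤ Real.log N * (2 * Real.log 2) := mul_le_mul_of_nonneg_left (by linarith) h3
          _ = 2 * Real.log N * Real.log 2 := by ring
      linarith
    · linarith
    · intro n hn hnN
      refine (hdiv n hn).trans ?_
      have h1 : (n : ℝ) ^ (e / 2) ≤ (N : ℝ) ^ (e / 2) :=
        Real.rpow_le_rpow (Nat.cast_nonneg n) (by exact_mod_cast hnN) (by positivity)
      have h2 : (N : ℝ) ^ e = (N : ℝ) ^ (e / 2) * (N : ℝ) ^ (e / 2) := by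
        rw [← Real.rpow_add (by linarith)]
        congr 1
        ring
      rw [h2]
      exact mul_le_mul f6 h1 (by positivity) (by positivity)
    · have : 0 ≤ (N : ℝ) ^ e := by positivity
      linarith
  · have h1 : (N : ℝ) ^ (1 / (J : ℝ)) < ⌊(N : ℝ) ^ (1 / (J : ℝ))⌋₊ + 1 := Nat.lt_floor_add_one _
    have h2 : ((N : ℝ) ^ (1 / (J : ℝ))) ^ J = N := by
      rw [← Real.rpow_natCast, ← Real.rpow_mul (by linarith), one_div, inv_mul_cancel₀ hJpos.ne', Real.rpow_one]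
    have h3 : ((N : ℝ) ^ (1 / (J : ℝ))) ^ J < ((⌊(N : ℝ) ^ (1 / (J : ℝ))⌋₊ : ℝ) + 1) ^ J :=
      pow_lt_pow_left₀ h1 (by positivity) (by omega)
    rw [h2] at h3
    exact_mod_cast h3
  · have h1 : ((⌊(N : ℝ) ^ (1 / (J : ℝ))⌋₊ : ℕ) : ℝ) ≤ (N : ℝ) ^ (1 / (J : ℝ)) := Nat.floor_le (by positivity)
    have h2 : (N : ℝ) ^ (1 / (J : ℝ)) < (N : ℝ) ^ c := Real.rpow_lt_rpow_of_exponent_lt hNR2 hJ
    have h3 : (N : ℝ) ^ c ≤ 2 ^ u := by
      rw [hpw]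
      exact nu_ge _ hu1
    have h4 : ((⌊(N : ℝ) ^ (1 / (J : ℝ))⌋₊ : ℕ) : ℝ) < 2 ^ u := by linarith
    exact_mod_cast h4
  · have h1 : ((N : ℝ) ^ e) ^ (6 * J + 2) = (N : ℝ) ^ (ε / 2) := by
      rw [← Real.rpow_natCast, ← Real.rpow_mul (by linarith)]
      congr 1
      rw [he]
      push_cast
      field_simp
    rw [h1]
    have h2 : (N : ℝ) ^ ε = (N : ℝ) ^ (ε / 2) * (N : ℝ) ^ (ε / 2) := by
      rw [← Real.rpow_add (by linarith)]
      congr 1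
      ring
    rw [h2]
    exact mul_le_mul_of_nonneg_right f7 (by positivity)

end Pool.Agent.Lib.H81A
end
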