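import Mathlib
import Pool.Agent.Lib.H1M.RV3.M012
import Pool.Agent.Lib.H1M.RV3.M014

/-! Merged copies (to shorten the build) of Lib.H37T.A3, Lib.H81W.S4, Lib.H81W.S3, Lib.H81W.S5, Lib.H81W.S6, Lib.H3B.S34, Lib.H3B.D0, Lib.H3B.S0B, Lib.H3B.S0A, Lib.H3B.S0C, Lib.H3B.S0D. -/

-- from Lib.H37T.A3
section
/-!
H37T: the hypothesis H1 of Heath-Brown's identity from module C (H81E.type_one_real), and H3 from module D (DOut).
-/
namespace Pool.Agent.H37T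
open Finset Pool.Agent.H44W

/-- The statement of module D. -/
def DOut (et0 : ℝ) (C n0 : ℕ) : Prop :=
  ∀ n : ℕ, n0 ≤ n → ∀ D : ℝ, (1 + Real.log n) ^ 10 ≤ D → (∀ m : ℕ, 1 ≤ m → m ≤ 2 * n → (m.divisors.card : ℝ) ≤ D) → D ^ C ≤ n → ∀ R : ℕ, (R : ℝ) ≤ D → ∀ A1 A2 B1 B2 : ℕ,
    ((2 * n : ℕ) : ℝ) ^ (1 / 2 - 2 * et0) ≤ A1 → ((2 * n : ℕ) : ℝ) ^ (1 / 2 - 2 * et0) ≤ B1 → A2 ≤ 2 * A1 → B2 ≤ 2 * B1 →
    ∀ ga : ℕ → ℂ, (∀ q, ‖ga q‖ ≤ 1) → ∀ W f g : ℤ → ℂ, (∀ x, ‖W x‖ ≤ 1) → (∀ x, ‖f x‖ ≤ 1) → (∀ x, ‖g x‖ ≤ 1) →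
    (n:ℝ) ^ 2 / D ≤ ‖TF n (fun m => ∑ q ∈ Icc 1 R, ga q * pd q (Ico (A1:ℤ) A2) (Ico (B1:ℤ) B2) m) W f g‖ →
    ∃ th : ℝ, (n:ℝ) / D ^ C ≤ ‖∑ z ∈ Icc (1:ℤ) n, g z * ee (th * z)‖

/-- **H1** from module C. -/
theorem h1_of (n : ℕ) (hn : 1 ≤ n) (c : ℝ) (W f g : ℤ → ℂ) (hW : ∀ x, ‖W x‖ ≤ 1) (hf : ∀ x, ‖f x‖ ≤ 1)
    (s : ℝ) (hth : ∀ th : ℝ, ‖∑ z ∈ Icc (1:ℤ) n, g z * ee (th * z)‖ ≤ s) :
      Pool.Agent.Lib.H81A.H1 c (2 * n) (tfS n W f g) (20 * ((2 * n : ℕ) : ℝ) ^ (2 * c) * (1 + Real.log n) * n * s) := by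
  intro B1 B2 hB1 hB2 γ hγ hγs
  set R : ℕ := ⌊((2 * n : ℕ) : ℝ) ^ (2 * c)⌋₊ with hR
  have hR1 : (R : ℝ) ≤ ((2 * n : ℕ) : ℝ) ^ (2 * c) := Nat.floor_le (Real.rpow_nonneg (Nat.cast_nonneg _) _)
  obtain ⟨th, h1⟩ := Pool.Agent.H81E.type_one_real n hn R γ hγ (fun q hq => Nat.le_floor (hγs q hq).2) B1 B2 W f g hW hf
  have hlog : 0 ≤ Real.log n := Real.log_natCast_nonneg n
  have e : tfS n W f g (fun m => ∑ x ∈ m.divisorsAntidiagonal, γ x.1 * (if B1 ≤ x.2 ∧ x.2 < B2 then 1 else 0)) =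
      ‖TF n (fun m => ((∑ x ∈ m.toNat.divisorsAntidiagonal, γ x.1 * (if B1 ≤ x.2 ∧ x.2 < B2 then 1 else 0) : ℝ) : ℂ)) W f g‖ := rfl
  rw [e]
  refine h1.trans ?_
  have h2 : 0 ≤ ‖∑ z ∈ Icc (1:ℤ) n, g z * ee (th * z)‖ := norm_nonneg _
  have h3 : (0:ℝ) ≤ n := Nat.cast_nonneg n
  gcongr
  · norm_num
  · exact hth th

/-- The count of the near-diagonal piece over the natural numbers. -/
theorem pd_nat (m q A1 A2 B1 B2 : ℕ) :
    pd q (Ico (A1:ℤ) A2) (Ico (B1:ℤ) B2) (m:ℤ) =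
      ((∑ a ∈ Ico A1 A2, ∑ b ∈ Ico B1 B2, if q * (a * b) = m then (1:ℝ) else 0 : ℝ) : ℂ) := by
  unfold pd
  rw [Finset.card_filter, Finset.sum_product]
  push_cast
  have h1 : ∀ (u v : ℕ) (F : ℤ → ℂ), ∑ a ∈ Ico (u:ℤ) v, F a = ∑ a ∈ Ico u v, F (a : ℤ) := by
    intro u v F
    refine (Finset.sum_bij (fun (a : ℕ) _ => (a : ℤ)) ?_ ?_ ?_ ?_).symm
    · intro a ha
      rw [Finset.mem_Ico] at ha ⊢
      omega
    · intro a _ b _ hab
      exact_mod_cast hab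
    · intro b hb
      rw [Finset.mem_Ico] at hb
      exact ⟨b.toNat, by rw [Finset.mem_Ico]; omega, by omega⟩
    · intro a _
      rfl
  rw [h1]
  refine Finset.sum_congr rfl fun a _ => ?_
  rw [h1]
  refine Finset.sum_congr rfl fun b _ => ?_
  by_cases h : q * (a * b) = m
  · rw [if_pos h, if_pos (by rw [← h]; push_cast; ring), Complex.ofReal_one]
  · rw [if_neg h, if_neg, Complex.ofReal_zero]
    intro h2
    apply h
    have h3 : ((q * (a * b) : ℕ) : ℤ) = (m : ℤ) := by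
      rw [← h2]
      push_cast
      ring
    exact_mod_cast h3

theorem box_eq (k A1 A2 B1 B2 : ℕ) (hk : k ≠ 0) :
    (∑ y ∈ k.divisorsAntidiagonal, (if A1 ≤ y.1 ∧ y.1 < A2 then (1:ℝ) else 0) * (if B1 ≤ y.2 ∧ y.2 < B2 then (1:ℝ) else 0)) =
      ∑ a ∈ Ico A1 A2, ∑ b ∈ Ico B1 B2, if a * b = k then (1:ℝ) else 0 := by
  rw [conv_eq k hk (Ico A1 A2) (Ico B1 B2) (fun a => if A1 ≤ a ∧ a < A2 then (1:ℝ) else 0) (fun b => if B1 ≤ b ∧ b < B2 then (1:ℝ) else 0)]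
  · refine Finset.sum_congr rfl fun a ha => Finset.sum_congr rfl fun b hb => ?_
    rw [Finset.mem_Ico] at ha hb
    rw [if_pos ha, if_pos hb, mul_one]
  · intro a ha
    rw [Finset.mem_Ico]
    by_contra h
    exact ha (if_neg h)
  · intro b hb
    rw [Finset.mem_Ico]
    by_contra h
    exact hb (if_neg h)

/-- The pieces of H3 in terms of `pd`. -/
theorem conv_pd (m : ℕ) (hm : 1 ≤ m) (R A1 A2 B1 B2 : ℕ) (γ : ℕ → ℝ) (hγ : ∀ q, γ q ≠ 0 → 1 ≤ q ∧ q ≤ R) :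
    ((∑ x ∈ m.divisorsAntidiagonal, γ x.1 * ∑ y ∈ x.2.divisorsAntidiagonal,
        (if A1 ≤ y.1 ∧ y.1 < A2 then (1:ℝ) else 0) * (if B1 ≤ y.2 ∧ y.2 < B2 then (1:ℝ) else 0) : ℝ) : ℂ) =
      ∑ q ∈ Icc 1 R, (γ q : ℂ) * pd q (Ico (A1:ℤ) A2) (Ico (B1:ℤ) B2) (m:ℤ) := by
  have e1 : ∀ q ∈ Icc 1 R, (γ q : ℂ) * pd q (Ico (A1:ℤ) A2) (Ico (B1:ℤ) B2) (m:ℤ) =
      ((γ q * ∑ a ∈ Ico A1 A2, ∑ b ∈ Ico B1 B2, (if q * (a * b) = m then (1:ℝ) else 0) : ℝ) : ℂ) := by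
    intro q _
    rw [pd_nat m q A1 A2 B1 B2, Complex.ofReal_mul]
  rw [Finset.sum_congr rfl e1, ← Complex.ofReal_sum]
  congr 1
  rw [Nat.sum_divisorsAntidiagonal (fun q k => γ q * ∑ y ∈ k.divisorsAntidiagonal,
        (if A1 ≤ y.1 ∧ y.1 < A2 then (1:ℝ) else 0) * (if B1 ≤ y.2 ∧ y.2 < B2 then (1:ℝ) else 0))]
  have e2 : ∀ q ∈ m.divisors, γ q * ∑ y ∈ (m / q).divisorsAntidiagonal,
        (if A1 ≤ y.1 ∧ y.1 < A2 then (1:ℝ) else 0) * (if B1 ≤ y.2 ∧ y.2 < B2 then (1:ℝ) else 0) =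
      γ q * ∑ a ∈ Ico A1 A2, ∑ b ∈ Ico B1 B2, (if q * (a * b) = m then (1:ℝ) else 0) := by
    intro q hq
    obtain ⟨⟨k, hk⟩, hm0⟩ := Nat.mem_divisors.1 hq
    have hq0 : 0 < q := Nat.pos_of_mem_divisors hq
    have hk0 : k ≠ 0 := by
      rintro rfl
      exact hm0 (by rw [hk, mul_zero])
    rw [hk, Nat.mul_div_cancel_left k hq0, box_eq k A1 A2 B1 B2 hk0]
    congr 1
    refine Finset.sum_congr rfl fun a _ => Finset.sum_congr rfl fun b _ => ?_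
    by_cases h : a * b = k
    · rw [if_pos h, if_pos (by rw [h])]
    · rw [if_neg h, if_neg (fun h2 => h (Nat.eq_of_mul_eq_mul_left hq0 h2))]
  rw [Finset.sum_congr rfl e2]
  classical
  have e3 : ∀ q, q ∉ m.divisors ∩ Icc 1 R → γ q * ∑ a ∈ Ico A1 A2, ∑ b ∈ Ico B1 B2, (if q * (a * b) = m then (1:ℝ) else 0) = 0 := by
    intro q hq
    by_cases h : γ q = 0
    · rw [h, zero_mul]
    · have h1 : q ∈ Icc 1 R := Finset.mem_Icc.2 (hγ q h)
      have h2 : q ∉ m.divisors := fun h3 => hq (Finset.mem_inter.2 ⟨h3, h1⟩)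
      have h3 : ¬ q ∣ m := fun h4 => h2 (Nat.mem_divisors.2 ⟨h4, by omega⟩)
      have h4 : ∑ a ∈ Ico A1 A2, ∑ b ∈ Ico B1 B2, (if q * (a * b) = m then (1:ℝ) else 0) = 0 := by
        refine Finset.sum_eq_zero fun a _ => Finset.sum_eq_zero fun b _ => if_neg ?_
        intro h5
        exact h3 ⟨a * b, h5.symm⟩
      rw [h4, mul_zero]
  rw [← Finset.sum_subset (Finset.inter_subset_left : m.divisors ∩ Icc 1 R ⊆ m.divisors) (fun q _ hq => e3 q hq),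
    ← Finset.sum_subset (Finset.inter_subset_right : m.divisors ∩ Icc 1 R ⊆ Icc 1 R) (fun q _ hq => e3 q hq)]

/-- **H3** from module D. -/
theorem h3_of (et0 : ℝ) (C n0 : ℕ) (h : DOut et0 C n0) (η : ℝ) (hη : η ≤ et0) (n : ℕ) (hn : n0 ≤ n) (hn1 : 1 ≤ n) (c D : ℝ)
    (hD : (1 + Real.log n) ^ 10 ≤ D) (hdiv : ∀ m : ℕ, 1 ≤ m → m ≤ 2 * n → (m.divisors.card : ℝ) ≤ D) (hDC : D ^ C ≤ n) (hcD : ((2 * n : ℕ) : ℝ) ^ (2 * c) ≤ D)
    (W f g : ℤ → ℂ) (hW : ∀ x, ‖W x‖ ≤ 1) (hf : ∀ x, ‖f x‖ ≤ 1) (hg : ∀ x, ‖g x‖ ≤ 1)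
    (hth : ∀ th : ℝ, ‖∑ z ∈ Icc (1:ℤ) n, g z * ee (th * z)‖ < (n:ℝ) / D ^ C) :
      Pool.Agent.Lib.H81A.H3 c η (2 * n) (tfS n W f g) ((n:ℝ) ^ 2 / D) := by
  intro A1 A2 B1 B2 hA1 hA2 hB1 hB2 hA hB γ hγ hγs
  set R : ℕ := ⌊((2 * n : ℕ) : ℝ) ^ (2 * c)⌋₊ with hR
  have hR1 : (R : ℝ) ≤ ((2 * n : ℕ) : ℝ) ^ (2 * c) := Nat.floor_le (Real.rpow_nonneg (Nat.cast_nonneg _) _)
  have hmono : ((2 * n : ℕ) : ℝ) ^ (1 / 2 - 2 * et0) ≤ ((2 * n : ℕ) : ℝ) ^ (1 / 2 - 2 * η) := by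
    refine Real.rpow_le_rpow_of_exponent_le ?_ (by linarith)
    have : 1 ≤ 2 * n := by omega
    exact_mod_cast this
  have e : tfS n W f g (fun m => ∑ x ∈ m.divisorsAntidiagonal, γ x.1 *
        ∑ y ∈ x.2.divisorsAntidiagonal, (if A1 ≤ y.1 ∧ y.1 < A2 then 1 else 0) * (if B1 ≤ y.2 ∧ y.2 < B2 then 1 else 0)) =
      ‖TF n (fun m => ∑ q ∈ Icc 1 R, (γ q : ℂ) * pd q (Ico (A1:ℤ) A2) (Ico (B1:ℤ) B2) m) W f g‖ := by
    rw [tfS_apply]
    congr 1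
    refine TF_congr n W f g fun m hm1 hm2 => ?_
    have h0 : ((m.toNat : ℕ) : ℤ) = m := Int.toNat_of_nonneg (by omega)
    have h1 := conv_pd m.toNat (by omega) R A1 A2 B1 B2 γ (fun q hq => ⟨(hγs q hq).1, Nat.le_floor (hγs q hq).2⟩)
    rw [h0] at h1
    exact h1
  rw [e]
  by_contra hcon
  obtain ⟨th, hth'⟩ := h n hn D hD hdiv hDC R (hR1.trans hcD) A1 A2 B1 B2 (hmono.trans hA1) (hmono.trans hB1) hA hB (fun q => (γ q : ℂ))
    (fun q => by rw [Complex.norm_real]; exact hγ q) W f g hW hf hg (le_of_lt (not_le.1 hcon))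
  exact absurd (hth th) (not_lt.2 hth')

end Pool.Agent.H37T
end

-- from Lib.H81W.S4
section

/-!
# H81W, step 4: the sum of the energies over all differences, Parseval
-/

open Finset

namespace Pool.Agent.Lib.H81W

open Pool.Agent.H44W (ee TF cut)
open Pool.Agent.H81E (norm_ee ee_add ee_neg parseval)

/-- The autocorrelation. -/
noncomputable def Au (n : ℕ) (g : ℤ → ℂ) (d : ℤ) : ℂ := ∑ y ∈ Icc (1 : ℤ) n, g y * (starRingEnd ℂ) (g (y + d))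

/-- Energy as a sum over pairs. -/
theorem En_eq (n m : ℕ) (hm : 0 < m) (u : ℤ → ℂ) :
    ((En n m u : ℝ) : ℂ) = ∑ y ∈ Icc (1 : ℤ) n, ∑ z ∈ Icc (1 : ℤ) n, if (m : ℤ) ∣ z - y then u y * (starRingEnd ℂ) (u z) else 0 := by
  have hm0 : (0 : ℤ) < m := by exact_mod_cast hm
  unfold En
  rw [Complex.ofReal_sum]
  have h1 : ∀ r : ℤ, ((‖Sr n m u r‖ ^ 2 : ℝ) : ℂ) = ∑ y ∈ Icc (1 : ℤ) n, ∑ z ∈ Icc (1 : ℤ) n, if y % m = r then (if z % m = r then u y * (starRingEnd ℂ) (u z) else 0) else 0 := by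
    intro r
    rw [Complex.ofReal_pow, ← Complex.mul_conj']
    unfold Sr
    rw [map_sum, sum_mul_sum, sum_filter]
    refine sum_congr rfl fun y _ => ?_
    split_ifs with h
    · rw [sum_filter]
    · rw [sum_const_zero]
  simp_rw [h1]
  rw [sum_comm]
  refine sum_congr rfl fun y _ => ?_
  rw [sum_comm]
  refine sum_congr rfl fun z _ => ?_
  rw [Finset.sum_ite_eq]
  rw [if_pos (mem_Ico.2 ⟨Int.emod_nonneg _ hm0.ne', Int.emod_lt_of_pos _ hm0⟩)]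
  by_cases h : (m : ℤ) ∣ z - y
  · rw [if_pos h, if_pos (Int.emod_eq_emod_iff_emod_sub_eq_zero.2 (Int.emod_eq_zero_of_dvd h))]
  · rw [if_neg h, if_neg]
    intro h2
    exact h (Int.dvd_of_emod_eq_zero (Int.emod_eq_emod_iff_emod_sub_eq_zero.1 h2))

/-- Change of variable in a sum over `Icc 1 n`. -/
theorem shiftsum (n : ℕ) (y : ℤ) (hy : y ∈ Icc (1 : ℤ) n) (F : ℤ → ℂ) (hF : ∀ z, z ∉ Icc (1 : ℤ) n → F z = 0) :
    ∑ z ∈ Icc (1 : ℤ) n, F z = ∑ d ∈ Ioo (-(n : ℤ)) n, F (y + d) := by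
  rw [mem_Icc] at hy
  have h1 : ∑ d ∈ Ioo (-(n : ℤ)) n, F (y + d) = ∑ z ∈ Ioo (y - n) (y + n), F z := by
    refine sum_bij' (fun d _ => y + d) (fun z _ => z - y) ?_ ?_ ?_ ?_ ?_
    · intro d hd
      rw [mem_Ioo] at hd ⊢
      omega
    · intro d hd
      rw [mem_Ioo] at hd ⊢
      omega
    · intro d _
      ring
    · intro d _
      ring
    · intro d _
      rfl
  rw [h1]
  refine sum_subset ?_ fun z _ hz => hF z hz
  intro z hz
  rw [mem_Icc] at hz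
  rw [mem_Ioo]
  omega

/-- The sum of all energies. -/
theorem sum_En (n m : ℕ) (hm : 0 < m) (g : ℤ → ℂ) (hs : ∀ y, y ∉ Icc (1 : ℤ) n → g y = 0) :
    ∑ e ∈ Ioo (-(n : ℤ)) n, En n m (Gd g e) = ∑ d ∈ (Ioo (-(n : ℤ)) n).filter (fun d => (m : ℤ) ∣ d), ‖Au n g d‖ ^ 2 := by
  have key : ((∑ e ∈ Ioo (-(n : ℤ)) n, En n m (Gd g e) : ℝ) : ℂ) = ((∑ d ∈ (Ioo (-(n : ℤ)) n).filter (fun d => (m : ℤ) ∣ d), ‖Au n g d‖ ^ 2 : ℝ) : ℂ) := by
    rw [Complex.ofReal_sum]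
    simp_rw [En_eq n m hm]
    rw [sum_comm]
    have h1 : ∀ y ∈ Icc (1 : ℤ) n, ∑ e ∈ Ioo (-(n : ℤ)) n, ∑ z ∈ Icc (1 : ℤ) n, (if (m : ℤ) ∣ z - y then Gd g e y * (starRingEnd ℂ) (Gd g e z) else 0) =
        ∑ d ∈ Ioo (-(n : ℤ)) n, (if (m : ℤ) ∣ d then g y * (starRingEnd ℂ) (g (y + d)) * (starRingEnd ℂ) (Au n g d) else 0) := by
      intro y hy
      rw [sum_comm]
      have h2 : ∀ z ∈ Icc (1 : ℤ) n, ∑ e ∈ Ioo (-(n : ℤ)) n, (if (m : ℤ) ∣ z - y then Gd g e y * (starRingEnd ℂ) (Gd g e z) else 0) =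
          if (m : ℤ) ∣ z - y then g y * (starRingEnd ℂ) (g z) * (starRingEnd ℂ) (Au n g (z - y)) else 0 := by
        intro z _
        split_ifs with h
        · have h3 : (starRingEnd ℂ) (Au n g (z - y)) = ∑ e ∈ Ioo (-(n : ℤ)) n, (starRingEnd ℂ) (g (y + e)) * g (z + e) := by
            unfold Au
            rw [map_sum, shiftsum n y hy (fun w => (starRingEnd ℂ) (g w * (starRingEnd ℂ) (g (w + (z - y)))))]
            · refine sum_congr rfl fun e _ => ?_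
              rw [map_mul, Complex.conj_conj, show y + e + (z - y) = z + e by ring]
            · intro w hw
              rw [hs w hw, zero_mul, map_zero]
          rw [h3, mul_sum]
          refine sum_congr rfl fun e _ => ?_
          unfold Gd
          rw [map_mul, Complex.conj_conj]
          ring
        · rw [sum_const_zero]
      rw [sum_congr rfl h2, shiftsum n y hy]
      · refine sum_congr rfl fun d _ => ?_
        rw [add_sub_cancel_left]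
      · intro z hz
        split_ifs
        · rw [hs z hz, map_zero, mul_zero, zero_mul]
        · rfl
    rw [sum_congr rfl h1, sum_comm, Complex.ofReal_sum, sum_filter]
    refine sum_congr rfl fun d _ => ?_
    split_ifs
    · rw [← sum_mul, Complex.ofReal_pow, ← Complex.mul_conj']
      rfl
    · rw [sum_const_zero]
  exact_mod_cast key

/-- The fourth moment of the exponential sum. -/
theorem sum_Au (n : ℕ) (hn : 1 ≤ n) (g : ℤ → ℂ) (hg : ∀ x, ‖g x‖ ≤ 1) (hs : ∀ y, y ∉ Icc (1 : ℤ) n → g y = 0) :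
    ∃ th : ℝ, ∑ d ∈ Ioo (-(n : ℤ)) n, ‖Au n g d‖ ^ 2 ≤ n * ‖∑ y ∈ Icc (1 : ℤ) n, g y * ee (th * y)‖ ^ 2 := by
  set M : ℕ := 2 * n with hM
  have hM0 : 0 < M := by omega
  have hMr : (0 : ℝ) < M := by exact_mod_cast hM0
  have h1 := parseval M hM0 (Ioo (-(n : ℤ)) n) (by
    intro s hs' t ht h
    rw [mem_Ioo] at hs' ht
    have h4 : s - t = 0 := Int.eq_zero_of_abs_lt_dvd h (by rw [abs_lt]; constructor <;> omega)
    omega) (Au n g)
  have h2 := parseval M hM0 (Icc (1 : ℤ) n) (by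
    intro s hs' t ht h
    rw [mem_Icc] at hs' ht
    have h4 : s - t = 0 := Int.eq_zero_of_abs_lt_dvd h (by rw [abs_lt]; constructor <;> omega)
    omega) (fun y => (starRingEnd ℂ) (g y))
  set G : ℕ → ℂ := fun k => ∑ z ∈ Icc (1 : ℤ) n, (starRingEnd ℂ) (g z) * ee ((k : ℝ) * z / M) with hG
  have h3 : ∀ k : ℕ, ∑ d ∈ Ioo (-(n : ℤ)) n, Au n g d * ee ((k : ℝ) * d / M) = (starRingEnd ℂ) (G k) * G k := by
    intro k
    rw [hG]
    dsimp only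
    rw [map_sum, sum_mul]
    have h4 : ∀ d ∈ Ioo (-(n : ℤ)) n, Au n g d * ee ((k : ℝ) * d / M) = ∑ y ∈ Icc (1 : ℤ) n, g y * (starRingEnd ℂ) (g (y + d)) * ee ((k : ℝ) * d / M) := by
      intro d _
      unfold Au
      rw [sum_mul]
    rw [sum_congr rfl h4, sum_comm]
    refine sum_congr rfl fun y hy => ?_
    rw [shiftsum n y hy (fun z => (starRingEnd ℂ) (g z) * ee ((k : ℝ) * z / M))]
    · rw [mul_sum]
      refine sum_congr rfl fun d _ => ?_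
      rw [map_mul, Complex.conj_conj, ← Pool.Agent.H81E.ee_neg, show (k : ℝ) * ((y + d : ℤ) : ℝ) / M = (k : ℝ) * y / M + (k : ℝ) * d / M by push_cast; ring, Pool.Agent.H81E.ee_add]
      have h5 : ee (-((k : ℝ) * y / M)) * ee ((k : ℝ) * y / M) = 1 := by
        rw [← Pool.Agent.H81E.ee_add, neg_add_cancel, Pool.Agent.H81E.ee_zero]
      calc g y * (starRingEnd ℂ) (g (y + d)) * ee ((k : ℝ) * d / M) = g y * (starRingEnd ℂ) (g (y + d)) * ee ((k : ℝ) * d / M) * 1 := by rw [mul_one]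
        _ = g y * (starRingEnd ℂ) (g (y + d)) * ee ((k : ℝ) * d / M) * (ee (-((k : ℝ) * y / M)) * ee ((k : ℝ) * y / M)) := by rw [h5]
        _ = _ := by ring
    · intro z hz
      rw [hs z hz, map_zero, zero_mul]
  obtain ⟨k0, _, hk0⟩ := exists_max_image (range M) (fun k => ‖G k‖) ⟨0, mem_range.2 hM0⟩
  refine ⟨-((k0 : ℝ) / M), ?_⟩
  have h4 : ∑ y ∈ Icc (1 : ℤ) n, g y * ee (-((k0 : ℝ) / M) * y) = (starRingEnd ℂ) (G k0) := by
    rw [hG]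
    dsimp only
    rw [map_sum]
    refine sum_congr rfl fun y _ => ?_
    rw [map_mul, Complex.conj_conj, ← Pool.Agent.H81E.ee_neg]
    congr 2
    ring
  rw [h4, RCLike.norm_conj]
  have h5 : ∑ k ∈ range M, ‖∑ d ∈ Ioo (-(n : ℤ)) n, Au n g d * ee ((k : ℝ) * d / M)‖ ^ 2 ≤ ‖G k0‖ ^ 2 * ∑ k ∈ range M, ‖G k‖ ^ 2 := by
    rw [mul_sum]
    refine sum_le_sum fun k hk => ?_
    rw [h3, norm_mul, RCLike.norm_conj, mul_pow]
    exact mul_le_mul_of_nonneg_right (pow_le_pow_left₀ (norm_nonneg _) (hk0 k hk) 2) (by positivity)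
  rw [h1, h2] at h5
  have h6 : ∑ s ∈ Icc (1 : ℤ) n, ‖(starRingEnd ℂ) (g s)‖ ^ 2 ≤ n := by
    refine (sum_le_card_nsmul _ _ 1 fun y _ => ?_).trans ?_
    · rw [RCLike.norm_conj]
      exact pow_le_one₀ (norm_nonneg _) (hg y)
    · simp
  have h7 : (M : ℝ) * ∑ d ∈ Ioo (-(n : ℤ)) n, ‖Au n g d‖ ^ 2 ≤ M * (n * ‖G k0‖ ^ 2) := by
    calc (M : ℝ) * ∑ d ∈ Ioo (-(n : ℤ)) n, ‖Au n g d‖ ^ 2 ≤ ‖G k0‖ ^ 2 * (M * ∑ s ∈ Icc (1 : ℤ) n, ‖(starRingEnd ℂ) (g s)‖ ^ 2) := h5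
      _ ≤ ‖G k0‖ ^ 2 * (M * n) := by gcongr
      _ = _ := by ring
  exact le_of_mul_le_mul_left h7 hMr

theorem norm_Au_le (n : ℕ) (g : ℤ → ℂ) (hg : ∀ x, ‖g x‖ ≤ 1) (d : ℤ) : ‖Au n g d‖ ≤ n := by
  unfold Au
  refine (norm_sum_le _ _).trans ((sum_le_card_nsmul _ _ 1 fun y _ => norm_Gd_le hg d y).trans ?_)
  simp

/-- Summation over the moduli `m < K`: every `d ≠ 0` is counted at most `d(|d|)` times. -/
theorem sum_sum_Au (n K : ℕ) (D : ℝ) (hD : ∀ m : ℕ, 1 ≤ m → m ≤ 2 * n → (m.divisors.card : ℝ) ≤ D) (g : ℤ → ℂ) (hg : ∀ x, ‖g x‖ ≤ 1) :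
    ∑ m ∈ Ico 1 K, ∑ d ∈ (Ioo (-(n : ℤ)) n).filter (fun d => (m : ℤ) ∣ d), ‖Au n g d‖ ^ 2 ≤ K * n ^ 2 + D * ∑ d ∈ Ioo (-(n : ℤ)) n, ‖Au n g d‖ ^ 2 := by
  simp_rw [sum_filter]
  rw [sum_comm]
  have h1 : ∀ d ∈ Ioo (-(n : ℤ)) n, ∑ m ∈ Ico 1 K, (if (m : ℤ) ∣ d then ‖Au n g d‖ ^ 2 else 0) ≤ (if d = 0 then (K : ℝ) * n ^ 2 else 0) + D * ‖Au n g d‖ ^ 2 := by
    intro d hd
    rw [mem_Ioo] at hd
    have hD0 : 0 ≤ D := (Nat.cast_nonneg _).trans (hD 1 le_rfl (by omega))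
    rw [← sum_filter, sum_const, nsmul_eq_mul]
    split_ifs with h0
    · have h2 : (((Ico 1 K).filter (fun m : ℕ => (m : ℤ) ∣ d)).card : ℝ) ≤ K := by
        have := card_filter_le (Ico 1 K) (fun m : ℕ => (m : ℤ) ∣ d)
        rw [Nat.card_Ico] at this
        exact_mod_cast this.trans (Nat.sub_le _ _)
      have h3 : ‖Au n g d‖ ^ 2 ≤ (n : ℝ) ^ 2 := pow_le_pow_left₀ (norm_nonneg _) (norm_Au_le n g hg d) 2
      have h4 := mul_le_mul h2 h3 (by positivity) (Nat.cast_nonneg K)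
      have h5 : 0 ≤ D * ‖Au n g d‖ ^ 2 := by positivity
      linarith
    · rw [zero_add]
      refine mul_le_mul_of_nonneg_right ?_ (by positivity)
      refine le_trans ?_ (hD d.natAbs (by omega) (by omega))
      have h2 : (Ico 1 K).filter (fun m : ℕ => (m : ℤ) ∣ d) ⊆ d.natAbs.divisors := by
        intro m hm
        rw [mem_filter] at hm
        rw [Nat.mem_divisors]
        exact ⟨Int.natCast_dvd.1 hm.2, by omega⟩
      exact_mod_cast card_le_card h2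
  refine (sum_le_sum h1).trans ?_
  rw [sum_add_distrib, ← mul_sum]
  refine add_le_add ?_ le_rfl
  rw [Finset.sum_ite_eq']
  split_ifs
  · exact le_rfl
  · positivity

end Pool.Agent.Lib.H81W
end

-- from Lib.H81W.S3
section

/-!
# H81W, step 3 for one pair `(j, k)`
-/

open Finset

namespace Pool.Agent.Lib.H81W

open Pool.Agent.H44W (ee TF cut)
open Pool.Agent.H81E (norm_ee ee_add ee_neg)

theorem Per.mul {m : ℕ} {p q : ℤ → ℂ} (hp : Per m p) (hq : Per m q) : Per m (fun y => p y * q y) := fun y z h => by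
  dsimp only
  rw [hp y z h, hq y z h]

theorem Per.conj {m : ℕ} {p : ℤ → ℂ} (hp : Per m p) : Per m (fun y => (starRingEnd ℂ) (p y)) := fun y z h => by
  dsimp only
  rw [hp y z h]

theorem Per.shift {m : ℕ} {p : ℤ → ℂ} (hp : Per m p) (t : ℤ) : Per m (fun y => p (y - t)) := fun y z h =>
  hp _ _ (by rw [show y - t - (z - t) = y - z by ring]; exact h)

/-- A sum over a big interval of a function vanishing outside a shifted interval. -/
theorem sum_shift (n : ℕ) (Q q : ℤ) (hq : |q| + n ≤ Q) (F : ℤ → ℂ) (hF : ∀ y, y + q ∉ Icc (1 : ℤ) n → F y = 0) :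
    ∑ y ∈ Icc (-Q) Q, F y = ∑ z ∈ Icc (1 : ℤ) n, F (z - q) := by
  have hq1 := abs_le.1 (show |q| ≤ |q| from le_rfl)
  rw [← sum_subset (s₁ := Icc (1 - q) (n - q))]
  · refine sum_bij' (fun y _ => y + q) (fun z _ => z - q) ?_ ?_ ?_ ?_ ?_
    · intro y hy
      rw [mem_Icc] at hy ⊢
      omega
    · intro y hy
      rw [mem_Icc] at hy ⊢
      omega
    · intro y _
      ring
    · intro y _
      ring
    · intro y _
      rw [add_sub_cancel_right]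
  · intro y hy
    rw [mem_Icc] at hy ⊢
    omega
  · intro y _ hy
    apply hF
    rw [mem_Icc] at hy ⊢
    omega

/-- Step 3 for one pair. -/
theorem step3 (n m : ℕ) (hm : 0 < m) (hmn : m ≤ n) (g : ℤ → ℂ) (hg : ∀ x, ‖g x‖ ≤ 1) (hs : ∀ y, y ∉ Icc (1 : ℤ) n → g y = 0) {ι : Type*} (A : Finset ι) (q : ι → ℤ)
    (th : ℝ) (X : ℝ) (hX0 : 0 ≤ X) (hX : X ≤ ∑ a ∈ A, En n m (fun y => Gd g (q a) y * ee (th * y))) :
    X ^ 4 * m ^ 3 ≤ 16 * n ^ 6 * (A.card : ℝ) ^ 2 * ∑ a ∈ A, ∑ b ∈ A, En n m (Gd g (q b - q a)) := by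
  classical
  have hmr : (0 : ℝ) < m := by exact_mod_cast hm
  have hnr : (0 : ℝ) < n := by exact_mod_cast (by omega : 0 < n)
  have h1 : ∀ a : ι, ∃ p : ℤ → ℂ, Per m p ∧ (∀ y, ‖p y‖ ≤ 1) ∧
      ∑ y ∈ Icc (1 : ℤ) n, (Gd g (q a) y * ee (th * y)) * p y = ((m / (2 * n) * En n m (fun y => Gd g (q a) y * ee (th * y)) : ℝ) : ℂ) :=
    fun a => PX n m hm hmn _ fun y => by
      rw [norm_mul, Pool.Agent.H81E.norm_ee, mul_one]
      exact norm_Gd_le hg _ _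
  choose p hp1 hp2 hp3 using h1
  set T : ℤ → ℂ := fun y => ∑ a ∈ A, (starRingEnd ℂ) (g (y + q a)) * p a y with hT
  set Q : ℤ := n + ∑ a ∈ A, |q a| with hQ
  have hQa : ∀ a ∈ A, |q a| + n ≤ Q := by
    intro a ha
    have := single_le_sum (f := fun a => |q a|) (fun i _ => abs_nonneg (q i)) ha
    rw [hQ]
    linarith
  have hQn : (n : ℤ) ≤ Q := by
    rw [hQ]
    have : 0 ≤ ∑ a ∈ A, |q a| := sum_nonneg fun i _ => abs_nonneg _
    linarith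
  -- first Cauchy-Schwarz
  have h2 : (m / (2 * n) * X) ^ 2 ≤ n * ∑ y ∈ Icc (-Q) Q, ‖T y‖ ^ 2 := by
    have h3 : m / (2 * n) * X ≤ ∑ y ∈ Icc (1 : ℤ) n, 1 * ‖T y‖ := by
      have h4 : ((m / (2 * n) * ∑ a ∈ A, En n m (fun y => Gd g (q a) y * ee (th * y)) : ℝ) : ℂ) = ∑ y ∈ Icc (1 : ℤ) n, g y * ee (th * y) * T y := by
        rw [mul_sum, Complex.ofReal_sum]
        simp_rw [← hp3]
        rw [sum_comm]
        refine sum_congr rfl fun y _ => ?_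
        rw [hT]
        dsimp only
        rw [mul_sum]
        refine sum_congr rfl fun a _ => ?_
        unfold Gd
        ring
      have h5 : ‖((m / (2 * n) * ∑ a ∈ A, En n m (fun y => Gd g (q a) y * ee (th * y)) : ℝ) : ℂ)‖ ≤ ∑ y ∈ Icc (1 : ℤ) n, 1 * ‖T y‖ := by
        rw [h4]
        refine (norm_sum_le _ _).trans (sum_le_sum fun y _ => ?_)
        rw [norm_mul, norm_mul, Pool.Agent.H81E.norm_ee, mul_one]
        exact mul_le_mul_of_nonneg_right (hg y) (norm_nonneg _)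
      rw [Complex.norm_real, Real.norm_eq_abs] at h5
      calc m / (2 * n) * X ≤ m / (2 * n) * ∑ a ∈ A, En n m (fun y => Gd g (q a) y * ee (th * y)) := mul_le_mul_of_nonneg_left hX (by positivity)
        _ ≤ _ := (le_abs_self _).trans h5
    have h4 := sum_mul_sq_le_sq_mul_sq (Icc (1 : ℤ) n) (fun _ => (1 : ℝ)) (fun y => ‖T y‖)
    calc (m / (2 * n) * X) ^ 2 ≤ (∑ y ∈ Icc (1 : ℤ) n, 1 * ‖T y‖) ^ 2 := pow_le_pow_left₀ (by positivity) h3 2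
      _ ≤ _ := h4
      _ = n * ∑ y ∈ Icc (1 : ℤ) n, ‖T y‖ ^ 2 := by simp
      _ ≤ n * ∑ y ∈ Icc (-Q) Q, ‖T y‖ ^ 2 := by
          refine mul_le_mul_of_nonneg_left (sum_le_sum_of_subset_of_nonneg ?_ fun _ _ _ => by positivity) hnr.le
          intro y hy
          rw [mem_Icc] at hy ⊢
          omega
  -- expansion
  have h3 : ∑ y ∈ Icc (-Q) Q, ‖T y‖ ^ 2 ≤ ∑ a ∈ A, ∑ b ∈ A, Real.sqrt (m * En n m (Gd g (q b - q a))) := by
    have h4 : ((∑ y ∈ Icc (-Q) Q, ‖T y‖ ^ 2 : ℝ) : ℂ) =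
        ∑ a ∈ A, ∑ b ∈ A, ∑ y ∈ Icc (-Q) Q, (starRingEnd ℂ) (g (y + q a)) * g (y + q b) * (p a y * (starRingEnd ℂ) (p b y)) := by
      rw [Complex.ofReal_sum]
      have h5 : ∀ y, ((‖T y‖ ^ 2 : ℝ) : ℂ) = ∑ a ∈ A, ∑ b ∈ A, (starRingEnd ℂ) (g (y + q a)) * g (y + q b) * (p a y * (starRingEnd ℂ) (p b y)) := by
        intro y
        rw [Complex.ofReal_pow, ← Complex.mul_conj', hT]
        dsimp only
        rw [map_sum, sum_mul_sum]
        refine sum_congr rfl fun a _ => sum_congr rfl fun b _ => ?_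
        rw [map_mul, Complex.conj_conj]
        ring
      simp_rw [h5]
      rw [sum_comm]
      refine sum_congr rfl fun a _ => ?_
      rw [sum_comm]
    have h5 : ∀ a ∈ A, ∀ b ∈ A, ‖∑ y ∈ Icc (-Q) Q, (starRingEnd ℂ) (g (y + q a)) * g (y + q b) * (p a y * (starRingEnd ℂ) (p b y))‖ ≤
        Real.sqrt (m * En n m (Gd g (q b - q a))) := by
      intro a ha b hb
      rw [sum_shift n Q (q a) (hQa a ha)]
      · have h6 : ∑ z ∈ Icc (1 : ℤ) n, (starRingEnd ℂ) (g (z - q a + q a)) * g (z - q a + q b) * (p a (z - q a) * (starRingEnd ℂ) (p b (z - q a))) =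
            (starRingEnd ℂ) (∑ z ∈ Icc (1 : ℤ) n, Gd g (q b - q a) z * ((starRingEnd ℂ) (p a (z - q a)) * p b (z - q a))) := by
          rw [map_sum]
          refine sum_congr rfl fun z _ => ?_
          unfold Gd
          rw [map_mul, map_mul, map_mul, Complex.conj_conj, Complex.conj_conj, sub_add_cancel, show z - q a + q b = z + (q b - q a) by ring]
        rw [h6, RCLike.norm_conj]
        apply Real.le_sqrt_of_sq_le
        refine PC n m hm _ _ (((hp1 a).shift (q a)).conj.mul ((hp1 b).shift (q a))) ?_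
        intro y
        rw [norm_mul, RCLike.norm_conj]
        exact mul_le_one₀ (hp2 a _) (norm_nonneg _) (hp2 b _)
      · intro y hy
        rw [hs _ hy, map_zero, zero_mul, zero_mul]
    have h6 : ∑ y ∈ Icc (-Q) Q, ‖T y‖ ^ 2 = ‖((∑ y ∈ Icc (-Q) Q, ‖T y‖ ^ 2 : ℝ) : ℂ)‖ := by
      rw [Complex.norm_real, Real.norm_eq_abs, abs_of_nonneg (sum_nonneg fun _ _ => by positivity)]
    rw [h6, h4]
    refine (norm_sum_le _ _).trans (sum_le_sum fun a ha => ?_)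
    exact (norm_sum_le _ _).trans (sum_le_sum fun b hb => h5 a ha b hb)
  -- second Cauchy-Schwarz
  have h4 : (∑ a ∈ A, ∑ b ∈ A, Real.sqrt (m * En n m (Gd g (q b - q a)))) ^ 2 ≤ (A.card : ℝ) ^ 2 * (m * ∑ a ∈ A, ∑ b ∈ A, En n m (Gd g (q b - q a))) := by
    have h5 := sum_mul_sq_le_sq_mul_sq (A ×ˢ A) (fun _ => (1 : ℝ)) (fun x => Real.sqrt (m * En n m (Gd g (q x.2 - q x.1))))
    have h6 : ∑ x ∈ A ×ˢ A, 1 * Real.sqrt (m * En n m (Gd g (q x.2 - q x.1))) = ∑ a ∈ A, ∑ b ∈ A, Real.sqrt (m * En n m (Gd g (q b - q a))) := by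
      rw [sum_product]
      simp
    have h7 : ∑ x ∈ A ×ˢ A, Real.sqrt (m * En n m (Gd g (q x.2 - q x.1))) ^ 2 = m * ∑ a ∈ A, ∑ b ∈ A, En n m (Gd g (q b - q a)) := by
      rw [sum_product, mul_sum]
      refine sum_congr rfl fun a _ => ?_
      rw [mul_sum]
      refine sum_congr rfl fun b _ => ?_
      rw [Real.sq_sqrt (mul_nonneg hmr.le (En_nonneg _ _ _))]
    have h8 : ∑ i ∈ A ×ˢ A, (1 : ℝ) ^ 2 = (A.card : ℝ) ^ 2 := by
      rw [one_pow, sum_const, card_product, nsmul_eq_mul, mul_one, Nat.cast_mul, sq]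
    rw [h6, h7, h8] at h5
    exact h5
  set SS := ∑ a ∈ A, ∑ b ∈ A, En n m (Gd g (q b - q a)) with hSig
  have h5 : (m / (2 * n) * X) ^ 4 ≤ n ^ 2 * ((A.card : ℝ) ^ 2 * (m * SS)) := by
    calc (m / (2 * n) * X) ^ 4 = ((m / (2 * n) * X) ^ 2) ^ 2 := by ring
      _ ≤ (n * ∑ a ∈ A, ∑ b ∈ A, Real.sqrt (m * En n m (Gd g (q b - q a)))) ^ 2 :=
          pow_le_pow_left₀ (by positivity) (h2.trans (mul_le_mul_of_nonneg_left h3 hnr.le)) 2
      _ = n ^ 2 * (∑ a ∈ A, ∑ b ∈ A, Real.sqrt (m * En n m (Gd g (q b - q a)))) ^ 2 := by ring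
      _ ≤ _ := mul_le_mul_of_nonneg_left h4 (by positivity)
  have h6 : (m / (2 * n) * X) ^ 4 = m * (X ^ 4 * m ^ 3) / (16 * n ^ 4) := by
    field_simp
    ring
  rw [h6, div_le_iff₀ (by positivity)] at h5
  have h7 : m * (X ^ 4 * m ^ 3) ≤ m * (16 * n ^ 6 * (A.card : ℝ) ^ 2 * SS) := by
    refine h5.trans (le_of_eq ?_)
    ring
  exact le_of_mul_le_mul_left h7 hmr

end Pool.Agent.Lib.H81W
end

-- from Lib.H81W.S5
section

/-!
# H81W, steps 3 and 4 together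
-/

open Finset

namespace Pool.Agent.Lib.H81W

open Pool.Agent.H44W (ee TF cut)
open Pool.Agent.H81E (norm_ee ee_add ee_neg parseval)

/-- The `a` with `a` and `a + j` in `[K, 2K)`. -/
noncomputable def Aj (K : ℕ) (j : ℤ) : Finset ℤ := (Ico (K : ℤ) (2 * K)).filter (fun a => a + j ∈ Ico (K : ℤ) (2 * K))

theorem mem_Aj {K : ℕ} {j a : ℤ} : a ∈ Aj K j ↔ (K : ℤ) ≤ a ∧ a < 2 * K ∧ (K : ℤ) ≤ a + j ∧ a + j < 2 * K := by
  unfold Aj
  rw [mem_filter, mem_Ico, mem_Ico]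
  tauto

theorem card_Aj (K : ℕ) (j : ℤ) : (Aj K j).card ≤ K := by
  refine (card_filter_le _ _).trans ?_
  rw [Int.card_Ico]
  omega

theorem En_zero (n m : ℕ) (g : ℤ → ℂ) (hs : ∀ y, y ∉ Icc (1 : ℤ) n → g y = 0) (e : ℤ) (he : e ∉ Ioo (-(n : ℤ)) n) : En n m (Gd g e) = 0 := by
  unfold En Sr
  refine sum_eq_zero fun r _ => ?_
  rw [sum_eq_zero, norm_zero, sq, mul_zero]
  intro y hy
  rw [mem_filter, mem_Icc] at hy
  rw [mem_Ioo] at he
  unfold Gd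
  rw [hs (y + e) (by rw [mem_Icc]; omega), map_zero, mul_zero]

/-- The fibre bound: for fixed `j` and `e ≠ 0` there are at most `2 D ^ 2` triples `(k, a, b)` with `k (b - a) (b + a + j) = e`. -/
theorem fibre (K : ℕ) (j e : ℤ) (he : e ≠ 0) (D : ℝ) (hD : (e.natAbs.divisors.card : ℝ) ≤ D) (S : Finset (ℤ × ℤ × ℤ))
    (hS : ∀ t ∈ S, t.2.1 ∈ Aj K j ∧ t.2.2 ∈ Aj K j ∧ t.1 * (t.2.2 - t.2.1) * (t.2.2 + t.2.1 + j) = e) : (S.card : ℝ) ≤ 2 * D ^ 2 := by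
  have h1 : S.card ≤ ((e.natAbs.divisors ×ˢ e.natAbs.divisors) ×ˢ (univ : Finset Bool)).card := by
    refine card_le_card_of_injOn (fun t => (((t.2.2 - t.2.1).natAbs, (t.2.2 + t.2.1 + j).natAbs), decide (t.2.1 < t.2.2))) ?_ ?_
    · intro t ht
      rw [mem_coe] at ht
      obtain ⟨h1, h2, h3⟩ := hS t ht
      rw [mem_coe, mem_product, mem_product, Nat.mem_divisors, Nat.mem_divisors]
      refine ⟨⟨⟨?_, by omega⟩, ⟨?_, by omega⟩⟩, mem_univ _⟩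
      · exact Int.natAbs_dvd_natAbs.2 ⟨t.1 * (t.2.2 + t.2.1 + j), by rw [← h3]; ring⟩
      · exact Int.natAbs_dvd_natAbs.2 ⟨t.1 * (t.2.2 - t.2.1), by rw [← h3]; ring⟩
    · intro t ht t' ht' h
      rw [mem_coe] at ht ht'
      obtain ⟨h1, h2, h3⟩ := hS t ht
      obtain ⟨h1', h2', h3'⟩ := hS t' ht'
      rw [mem_Aj] at h1 h2 h1' h2'
      simp only [Prod.mk.injEq, decide_eq_decide] at h
      obtain ⟨⟨h4, h5⟩, h6⟩ := h
      have h7 : t.2.2 + t.2.1 + j = t'.2.2 + t'.2.1 + j := by omega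
      have h8 : t.2.2 - t.2.1 = t'.2.2 - t'.2.1 := by
        by_cases h9 : t.2.1 < t.2.2
        · have h10 := h6.1 h9
          omega
        · have h10 : ¬ t'.2.1 < t'.2.2 := fun h => h9 (h6.2 h)
          omega
      have h9 : t.1 = t'.1 := by
        have h10 : (t.2.2 - t.2.1) * (t.2.2 + t.2.1 + j) ≠ 0 := by
          intro h0
          apply he
          rw [← h3, mul_assoc, h0, mul_zero]
        apply mul_right_cancel₀ h10
        rw [← mul_assoc, h3, h7, h8, ← mul_assoc, h3']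
      refine Prod.ext h9 (Prod.ext ?_ ?_)
      · omega
      · omega
  have h2 : ((((e.natAbs.divisors ×ˢ e.natAbs.divisors) ×ˢ (univ : Finset Bool)).card : ℕ) : ℝ) = (e.natAbs.divisors.card : ℝ) ^ 2 * 2 := by
    rw [card_product, card_product]
    simp [sq]
  calc (S.card : ℝ) ≤ ((((e.natAbs.divisors ×ˢ e.natAbs.divisors) ×ˢ (univ : Finset Bool)).card : ℕ) : ℝ) := by exact_mod_cast h1
    _ = (e.natAbs.divisors.card : ℝ) ^ 2 * 2 := h2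
    _ ≤ D ^ 2 * 2 := by gcongr
    _ = 2 * D ^ 2 := by ring

/-- The off-diagonal sum over `P`. -/
theorem offdiag (n K : ℕ) (D : ℝ) (hD : ∀ m : ℕ, 1 ≤ m → m ≤ 2 * n → (m.divisors.card : ℝ) ≤ D) (g : ℤ → ℂ)
    (hs : ∀ y, y ∉ Icc (1 : ℤ) n → g y = 0) (P : Finset (ℤ × ℤ)) (hP : ∀ p ∈ P, 0 < |p.1| ∧ |p.1| < K ∧ p.2 ≠ 0) :
    ∑ p ∈ P, ∑ x ∈ (Aj K p.1 ×ˢ Aj K p.1).filter (fun x => x.1 ≠ x.2), En n p.1.natAbs (Gd g (p.2 * (x.2 - x.1) * (x.2 + x.1 + p.1))) ≤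
      4 * D ^ 2 * ∑ m ∈ Ico 1 K, ∑ e ∈ Ioo (-(n : ℤ)) n, En n m (Gd g e) := by
  classical
  rcases Nat.eq_zero_or_pos n with rfl | hn
  · have h0 : ∀ (m : ℕ) (u : ℤ → ℂ), En 0 m u = 0 := by
      intro m u
      unfold En Sr
      simp
    simp [h0]
  have hD0 : 0 ≤ D := (Nat.cast_nonneg _).trans (hD 1 le_rfl (by omega))
  -- all tuples
  set T : Finset ((ℤ × ℤ) × (ℤ × ℤ)) := (P ×ˢ ((Ico (K : ℤ) (2 * K)) ×ˢ (Ico (K : ℤ) (2 * K)))).filter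
    (fun t => t.2.1 ∈ Aj K t.1.1 ∧ t.2.2 ∈ Aj K t.1.1 ∧ t.2.1 ≠ t.2.2) with hT
  have h1 : ∑ p ∈ P, ∑ x ∈ (Aj K p.1 ×ˢ Aj K p.1).filter (fun x => x.1 ≠ x.2), En n p.1.natAbs (Gd g (p.2 * (x.2 - x.1) * (x.2 + x.1 + p.1))) =
      ∑ t ∈ T, En n t.1.1.natAbs (Gd g (t.1.2 * (t.2.2 - t.2.1) * (t.2.2 + t.2.1 + t.1.1))) := by
    rw [hT, sum_filter, sum_product]
    refine sum_congr rfl fun p _ => ?_
    rw [← sum_filter]
    refine sum_congr ?_ fun x _ => rfl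
    ext x
    simp only [mem_filter, mem_product]
    constructor
    · rintro ⟨⟨h2, h3⟩, h4⟩
      refine ⟨⟨?_, ?_⟩, h2, h3, h4⟩
      · rw [mem_Aj] at h2
        rw [mem_Ico]
        omega
      · rw [mem_Aj] at h3
        rw [mem_Ico]
        omega
    · rintro ⟨_, h2, h3, h4⟩
      exact ⟨⟨h2, h3⟩, h4⟩
  rw [h1]
  -- restrict to `|e| < n`
  set T' : Finset ((ℤ × ℤ) × (ℤ × ℤ)) := T.filter (fun t => t.1.2 * (t.2.2 - t.2.1) * (t.2.2 + t.2.1 + t.1.1) ∈ Ioo (-(n : ℤ)) n) with hT'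
  have h2 : ∑ t ∈ T, En n t.1.1.natAbs (Gd g (t.1.2 * (t.2.2 - t.2.1) * (t.2.2 + t.2.1 + t.1.1))) =
      ∑ t ∈ T', En n t.1.1.natAbs (Gd g (t.1.2 * (t.2.2 - t.2.1) * (t.2.2 + t.2.1 + t.1.1))) := by
    symm
    refine sum_subset (filter_subset _ _) fun t ht ht' => ?_
    rw [hT', mem_filter] at ht'
    exact En_zero n _ g hs _ fun h => ht' ⟨ht, h⟩
  rw [h2]
  set J : Finset ℤ := (Ioo (-(K : ℤ)) K).filter (fun j => j ≠ 0) with hJ
  set E : Finset ℤ := (Ioo (-(n : ℤ)) n).filter (fun e => e ≠ 0) with hE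
  have hne : ∀ t ∈ T, t.1.2 * (t.2.2 - t.2.1) * (t.2.2 + t.2.1 + t.1.1) ≠ 0 := by
    intro t ht
    rw [hT, mem_filter, mem_product] at ht
    obtain ⟨⟨h3, _⟩, h4, h5, h6⟩ := ht
    rw [mem_Aj] at h4 h5
    have h7 := hP _ h3
    refine mul_ne_zero (mul_ne_zero h7.2.2 (by omega)) (by omega)
  have hmaps : ∀ t ∈ T', (t.1.1, t.1.2 * (t.2.2 - t.2.1) * (t.2.2 + t.2.1 + t.1.1)) ∈ J ×ˢ E := by
    intro t ht
    rw [hT', mem_filter] at ht
    have h3 := hne t ht.1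
    have h4 := ht.1
    rw [hT, mem_filter, mem_product] at h4
    have h5 := hP _ h4.1.1
    rw [mem_product, hJ, hE, mem_filter, mem_filter]
    refine ⟨⟨?_, ?_⟩, ht.2, h3⟩
    · rw [mem_Ioo]
      have := abs_lt.1 h5.2.1
      exact this
    · exact abs_pos.1 h5.1
  rw [← sum_fiberwise_of_maps_to hmaps]
  have h3 : ∀ x ∈ J ×ˢ E, ∑ t ∈ T'.filter (fun t => (t.1.1, t.1.2 * (t.2.2 - t.2.1) * (t.2.2 + t.2.1 + t.1.1)) = x),
      En n t.1.1.natAbs (Gd g (t.1.2 * (t.2.2 - t.2.1) * (t.2.2 + t.2.1 + t.1.1))) ≤ 2 * D ^ 2 * En n x.1.natAbs (Gd g x.2) := by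
    intro x hx
    rw [mem_product, hJ, hE, mem_filter, mem_filter, mem_Ioo, mem_Ioo] at hx
    have h4 : ∀ t ∈ T'.filter (fun t => (t.1.1, t.1.2 * (t.2.2 - t.2.1) * (t.2.2 + t.2.1 + t.1.1)) = x),
        En n t.1.1.natAbs (Gd g (t.1.2 * (t.2.2 - t.2.1) * (t.2.2 + t.2.1 + t.1.1))) = En n x.1.natAbs (Gd g x.2) := by
      intro t ht
      rw [mem_filter] at ht
      rw [← ht.2]
    rw [sum_congr rfl h4, sum_const, nsmul_eq_mul]
    refine mul_le_mul_of_nonneg_right ?_ (En_nonneg _ _ _)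
    set S' : Finset (ℤ × ℤ × ℤ) := (T'.filter (fun t => (t.1.1, t.1.2 * (t.2.2 - t.2.1) * (t.2.2 + t.2.1 + t.1.1)) = x)).image (fun t => (t.1.2, t.2.1, t.2.2)) with hS'
    have h5 : (T'.filter (fun t => (t.1.1, t.1.2 * (t.2.2 - t.2.1) * (t.2.2 + t.2.1 + t.1.1)) = x)).card = S'.card := by
      rw [hS', card_image_of_injOn]
      intro t ht t' ht' h
      rw [mem_coe, mem_filter] at ht ht'
      have h6 := congrArg Prod.fst (ht.2.trans ht'.2.symm)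
      simp only [Prod.mk.injEq] at h h6
      exact Prod.ext (Prod.ext h6 h.1) (Prod.ext h.2.1 h.2.2)
    rw [h5]
    refine fibre K x.1 x.2 hx.2.2 D (hD _ (by omega) (by omega)) S' ?_
    intro s hs'
    rw [hS', mem_image] at hs'
    obtain ⟨t, ht, rfl⟩ := hs'
    rw [mem_filter] at ht
    have h6 := ht.1
    rw [hT', mem_filter, hT, mem_filter] at h6
    have h7 : t.1.1 = x.1 := (Prod.ext_iff.1 ht.2).1
    have h8 : t.1.2 * (t.2.2 - t.2.1) * (t.2.2 + t.2.1 + t.1.1) = x.2 := (Prod.ext_iff.1 ht.2).2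
    refine ⟨?_, ?_, ?_⟩
    · rw [← h7]; exact h6.1.2.1
    · rw [← h7]; exact h6.1.2.2.1
    · rw [← h8, ← h7]
  refine (sum_le_sum h3).trans ?_
  rw [← mul_sum, sum_product]
  have h4 : ∑ j ∈ J, ∑ e ∈ E, En n j.natAbs (Gd g e) ≤ 2 * ∑ m ∈ Ico 1 K, ∑ e ∈ Ioo (-(n : ℤ)) n, En n m (Gd g e) := by
    have h5 : ∀ j ∈ J, ∑ e ∈ E, En n j.natAbs (Gd g e) ≤ ∑ e ∈ Ioo (-(n : ℤ)) n, En n j.natAbs (Gd g e) := fun j _ =>
      sum_le_sum_of_subset_of_nonneg (filter_subset _ _) fun _ _ _ => En_nonneg _ _ _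
    refine (sum_le_sum h5).trans ?_
    have hmaps2 : ∀ j ∈ J, j.natAbs ∈ Ico 1 K := by
      intro j hj
      rw [hJ, mem_filter, mem_Ioo] at hj
      rw [mem_Ico]
      omega
    rw [← sum_fiberwise_of_maps_to hmaps2, mul_sum]
    refine sum_le_sum fun m hm => ?_
    have h6 : ∀ j ∈ J.filter (fun j => j.natAbs = m), ∑ e ∈ Ioo (-(n : ℤ)) n, En n j.natAbs (Gd g e) = ∑ e ∈ Ioo (-(n : ℤ)) n, En n m (Gd g e) := by
      intro j hj
      rw [mem_filter] at hj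
      rw [hj.2]
    rw [sum_congr rfl h6, sum_const, nsmul_eq_mul]
    refine mul_le_mul_of_nonneg_right ?_ (sum_nonneg fun _ _ => En_nonneg _ _ _)
    have h7 : J.filter (fun j => j.natAbs = m) ⊆ {(m : ℤ), -(m : ℤ)} := by
      intro j hj
      rw [mem_filter] at hj
      rw [mem_insert, mem_singleton]
      omega
    have h8 := (card_le_card h7).trans card_le_two
    exact_mod_cast h8
  calc 2 * D ^ 2 * ∑ j ∈ J, ∑ e ∈ E, En n j.natAbs (Gd g e) ≤ 2 * D ^ 2 * (2 * ∑ m ∈ Ico 1 K, ∑ e ∈ Ioo (-(n : ℤ)) n, En n m (Gd g e)) :=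
        mul_le_mul_of_nonneg_left h4 (by positivity)
    _ = _ := by ring

end Pool.Agent.Lib.H81W
end

-- from Lib.H81W.S6
section

/-!
# H81W, steps 3 and 4 together: the constants
-/

open Finset

namespace Pool.Agent.Lib.H81W

open Pool.Agent.H44W (ee TF cut)
open Pool.Agent.H81E (norm_ee ee_add ee_neg parseval)

/-- Real arithmetic 1. -/
theorem r1 (n K m A F D : ℝ) (c : ℕ) (hn : 0 < n) (hK : 0 < K) (hD : 0 < D) (hA0 : 0 ≤ A) (hA : A ≤ K) (hF : 0 ≤ F) (h1 : K / D ^ c ≤ m)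
    (h3 : (n ^ 2 / D ^ c) ^ 4 * m ^ 3 ≤ 16 * n ^ 6 * A ^ 2 * F) : n ^ 2 * K / (16 * D ^ (7 * c)) ≤ F := by
  have hd : 0 < D ^ c := by positivity
  rw [show D ^ (7 * c) = (D ^ c) ^ 7 by rw [← pow_mul, mul_comm]]
  generalize D ^ c = d at *
  have h0 : 0 < K / d := by positivity
  have h5 : (n ^ 2 / d) ^ 4 * (K / d) ^ 3 ≤ 16 * n ^ 6 * K ^ 2 * F := by
    have h6 : (K / d) ^ 3 ≤ m ^ 3 := pow_le_pow_left₀ h0.le h1 3
    have h7 : A ^ 2 ≤ K ^ 2 := pow_le_pow_left₀ hA0 hA 2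
    have h8 : (n ^ 2 / d) ^ 4 * (K / d) ^ 3 ≤ (n ^ 2 / d) ^ 4 * m ^ 3 := mul_le_mul_of_nonneg_left h6 (by positivity)
    have h9 : 16 * n ^ 6 * A ^ 2 * F ≤ 16 * n ^ 6 * K ^ 2 * F :=
      mul_le_mul_of_nonneg_right (mul_le_mul_of_nonneg_left h7 (by positivity)) hF
    exact h8.trans (h3.trans h9)
  have h6 : (n ^ 2 / d) ^ 4 * (K / d) ^ 3 = (16 * n ^ 6 * K ^ 2) * (n ^ 2 * K / (16 * d ^ 7)) := by
    field_simp
  rw [h6] at h5
  exact le_of_mul_le_mul_left h5 (by positivity)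

/-- Real arithmetic 2. -/
theorem r2 (n K D : ℝ) (c : ℕ) (hn : 0 < n) (h2 : 2 ≤ D) (hK : D ^ (8 * c + 11) ≤ K) : 4 * n ^ 2 * D ^ c ≤ n ^ 2 * K / (32 * D ^ (7 * c)) := by
  have hD0 : 0 < D := by linarith
  rw [le_div_iff₀ (by positivity)]
  have h8 : 128 * D ^ (8 * c) ≤ K := by
    calc 128 * D ^ (8 * c) ≤ D ^ 11 * D ^ (8 * c) := by
          refine mul_le_mul_of_nonneg_right ?_ (by positivity)
          calc (128 : ℝ) ≤ 2 ^ 11 := by norm_num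
            _ ≤ D ^ 11 := pow_le_pow_left₀ (by norm_num) h2 11
      _ = D ^ (8 * c + 11) := by rw [pow_add]; ring
      _ ≤ K := hK
  calc 4 * n ^ 2 * D ^ c * (32 * D ^ (7 * c)) = n ^ 2 * (128 * D ^ (8 * c)) := by
        rw [show 8 * c = c + 7 * c by ring, pow_add]
        ring
    _ ≤ n ^ 2 * K := mul_le_mul_of_nonneg_left h8 (by positivity)

/-- The off-diagonal part for one pair. -/
theorem one_pair (n K c : ℕ) (D : ℝ) (hn : 1 ≤ n) (hK1 : 1 ≤ K) (h2 : 2 ≤ D) (hK : D ^ (8 * c + 11) ≤ K) (hKn : K ≤ n)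
    (g : ℤ → ℂ) (hg : ∀ x, ‖g x‖ ≤ 1) (hs : ∀ y, y ∉ Icc (1 : ℤ) n → g y = 0) (j k : ℤ) (m : ℕ) (hm : (m : ℤ) = |j|) (h1 : (K : ℝ) / D ^ c ≤ |(j : ℝ)|) (hp : |j| < K)
    (th : ℝ) (hth : (n : ℝ) ^ 2 / D ^ c ≤ ∑ a ∈ Aj K j, En n m (fun y => Gd g (a * (a + j) * k) y * ee (th * y))) :
    (n : ℝ) ^ 2 * K / (32 * D ^ (7 * c)) ≤
      ∑ x ∈ (Aj K j ×ˢ Aj K j).filter (fun x => x.1 ≠ x.2), En n m (Gd g (k * (x.2 - x.1) * (x.2 + x.1 + j))) := by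
  classical
  have hD0 : (0 : ℝ) < D := by linarith
  have hnr : (0 : ℝ) < n := by exact_mod_cast (by omega : 0 < n)
  have hKr : (0 : ℝ) < K := by exact_mod_cast (by omega : 0 < K)
  have hmabs : (m : ℝ) = |(j : ℝ)| := by
    rw [← Int.cast_abs, ← hm, Int.cast_natCast]
  rw [← hmabs] at h1
  have hm0 : (0 : ℝ) < m := lt_of_lt_of_le (by positivity) h1
  have hm1 : 0 < m := by exact_mod_cast hm0
  have hmK : m < K := by
    rw [← hm] at hp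
    exact_mod_cast hp
  have h3 := step3 n m hm1 (by omega) g hg hs (Aj K j) (fun a => a * (a + j) * k) th ((n : ℝ) ^ 2 / D ^ c) (by positivity) hth
  have hcard : ((Aj K j).card : ℝ) ≤ K := by exact_mod_cast card_Aj K j
  have hF0 : 0 ≤ ∑ a ∈ Aj K j, ∑ b ∈ Aj K j, En n m (Gd g (b * (b + j) * k - a * (a + j) * k)) :=
    sum_nonneg fun _ _ => sum_nonneg fun _ _ => En_nonneg _ _ _
  have h4 := r1 n K m _ _ D c hnr hKr hD0 (Nat.cast_nonneg _) hcard hF0 h1 h3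
  have h5 : ∑ a ∈ Aj K j, ∑ b ∈ Aj K j, En n m (Gd g (b * (b + j) * k - a * (a + j) * k)) =
      ∑ x ∈ (Aj K j ×ˢ Aj K j).filter (fun x => x.1 ≠ x.2), En n m (Gd g (k * (x.2 - x.1) * (x.2 + x.1 + j))) +
      ∑ x ∈ (Aj K j ×ˢ Aj K j).filter (fun x => ¬ x.1 ≠ x.2), En n m (Gd g (k * (x.2 - x.1) * (x.2 + x.1 + j))) := by
    rw [sum_filter_add_sum_filter_not, sum_product]
    refine sum_congr rfl fun a _ => sum_congr rfl fun b _ => ?_
    rw [show b * (b + j) * k - a * (a + j) * k = k * (b - a) * (b + a + j) by ring]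
  have h6 : ∑ x ∈ (Aj K j ×ˢ Aj K j).filter (fun x => ¬ x.1 ≠ x.2), En n m (Gd g (k * (x.2 - x.1) * (x.2 + x.1 + j))) ≤ 4 * n ^ 2 * D ^ c := by
    have h7 : ∀ x ∈ (Aj K j ×ˢ Aj K j).filter (fun x => ¬ x.1 ≠ x.2), En n m (Gd g (k * (x.2 - x.1) * (x.2 + x.1 + j))) ≤ 4 * n ^ 2 * D ^ c / K := by
      intro x _
      refine (En_le n m hm1 (by omega) _ (norm_Gd_le hg _)).trans ?_
      rw [div_le_div_iff₀ hm0 hKr]
      have h8 : (K : ℝ) ≤ m * D ^ c := by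
        rwa [div_le_iff₀ (by positivity)] at h1
      calc 4 * (n : ℝ) ^ 2 * K ≤ 4 * (n : ℝ) ^ 2 * (m * D ^ c) := mul_le_mul_of_nonneg_left h8 (by positivity)
        _ = _ := by ring
    refine (sum_le_card_nsmul _ _ _ h7).trans ?_
    have h8 : ((Aj K j ×ˢ Aj K j).filter (fun x => ¬ x.1 ≠ x.2)).card ≤ K := by
      refine le_trans ?_ (card_Aj K j)
      refine card_le_card_of_injOn (fun x => x.1) ?_ ?_
      · intro x hx
        rw [mem_coe, mem_filter, mem_product] at hx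
        exact hx.1.1
      · intro x hx y hy h
        rw [mem_coe, mem_filter] at hx hy
        have hx2 := not_not.1 hx.2
        have hy2 := not_not.1 hy.2
        refine Prod.ext h ?_
        rw [← hx2, ← hy2]
        exact h
    rw [nsmul_eq_mul]
    calc (((Aj K j ×ˢ Aj K j).filter (fun x => ¬ x.1 ≠ x.2)).card : ℝ) * (4 * n ^ 2 * D ^ c / K) ≤ K * (4 * n ^ 2 * D ^ c / K) := by
          refine mul_le_mul_of_nonneg_right (by exact_mod_cast h8) (by positivity)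
      _ = 4 * n ^ 2 * D ^ c := by field_simp
  have h7 := r2 n K D c hnr h2 hK
  have h8 : (n : ℝ) ^ 2 * K / (16 * D ^ (7 * c)) = (n : ℝ) ^ 2 * K / (32 * D ^ (7 * c)) + (n : ℝ) ^ 2 * K / (32 * D ^ (7 * c)) := by
    field_simp
    ring
  rw [h8, h5] at h4
  linarith

/-- Real arithmetic 3. -/
theorem r3 (n K G D : ℝ) (c : ℕ) (hn : 0 < n) (hK : 0 < K) (h2 : 2 ≤ D) (hG : 0 ≤ G) (hKn1 : K * D ^ (8 * c + 11) ≤ n)
    (h7 : n ^ 3 / (32 * D ^ (8 * c)) ≤ 4 * D ^ 2 * (K * n ^ 2 + D * (n * G ^ 2))) : n / D ^ (4 * c + 6) ≤ G := by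
  have hD0 : 0 < D := by linarith
  have h8 : 4 * D ^ 2 * (K * n ^ 2) ≤ n ^ 3 / (64 * D ^ (8 * c)) := by
    rw [le_div_iff₀ (by positivity)]
    have h9 : 256 * D ^ (8 * c + 2) * K ≤ n := by
      calc 256 * D ^ (8 * c + 2) * K ≤ D ^ 9 * D ^ (8 * c + 2) * K := by
            refine mul_le_mul_of_nonneg_right (mul_le_mul_of_nonneg_right ?_ (by positivity)) hK.le
            calc (256 : ℝ) ≤ 2 ^ 9 := by norm_num
              _ ≤ D ^ 9 := pow_le_pow_left₀ (by norm_num) h2 9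
        _ = K * D ^ (8 * c + 11) := by rw [← pow_add, show 9 + (8 * c + 2) = 8 * c + 11 by ring]; ring
        _ ≤ n := hKn1
    calc 4 * D ^ 2 * (K * n ^ 2) * (64 * D ^ (8 * c)) = n ^ 2 * (256 * D ^ (8 * c + 2) * K) := by
          rw [pow_add]
          ring
      _ ≤ n ^ 2 * n := mul_le_mul_of_nonneg_left h9 (by positivity)
      _ = n ^ 3 := by ring
  have h9 : n ^ 3 / (32 * D ^ (8 * c)) = n ^ 3 / (64 * D ^ (8 * c)) + n ^ 3 / (64 * D ^ (8 * c)) := by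
    field_simp
    ring
  have h10 : n ^ 3 / (64 * D ^ (8 * c)) ≤ 4 * D ^ 3 * (n * G ^ 2) := by
    have h11 : 4 * D ^ 2 * (K * n ^ 2 + D * (n * G ^ 2)) = 4 * D ^ 2 * (K * n ^ 2) + 4 * D ^ 3 * (n * G ^ 2) := by ring
    rw [h11] at h7
    linarith
  have h11 : (n / D ^ (4 * c + 6)) ^ 2 ≤ G ^ 2 := by
    rw [div_le_iff₀ (by positivity)] at h10
    have h12 : n ^ 2 ≤ G ^ 2 * (256 * D ^ (8 * c + 3)) := by
      have h13 : n * n ^ 2 ≤ n * (G ^ 2 * (256 * D ^ (8 * c + 3))) := by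
        calc n * n ^ 2 = n ^ 3 := by ring
          _ ≤ 4 * D ^ 3 * (n * G ^ 2) * (64 * D ^ (8 * c)) := h10
          _ = n * (G ^ 2 * (256 * D ^ (8 * c + 3))) := by rw [pow_add]; ring
      exact le_of_mul_le_mul_left h13 hn
    rw [div_pow, div_le_iff₀ (by positivity)]
    refine h12.trans (mul_le_mul_of_nonneg_left ?_ (by positivity))
    calc 256 * D ^ (8 * c + 3) ≤ D ^ 9 * D ^ (8 * c + 3) := by
          refine mul_le_mul_of_nonneg_right ?_ (by positivity)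
          calc (256 : ℝ) ≤ 2 ^ 9 := by norm_num
            _ ≤ D ^ 9 := pow_le_pow_left₀ (by norm_num) h2 9
      _ = (D ^ (4 * c + 6)) ^ 2 := by rw [← pow_add, ← pow_mul]; congr 1; ring
  exact le_of_sq_le_sq h11 hG

/-- Steps 3 and 4. -/
theorem step34 (c n K : ℕ) (D : ℝ) (h2 : 2 ≤ D) (hD : ∀ m : ℕ, 1 ≤ m → m ≤ 2 * n → (m.divisors.card : ℝ) ≤ D)
    (hK : D ^ (8 * c + 11) ≤ K) (hKn : (K : ℝ) ^ 2 * D ^ (8 * c + 11) ≤ n) (g : ℤ → ℂ) (hg : ∀ x, ‖g x‖ ≤ 1) (hs : ∀ y, y ∉ Icc (1 : ℤ) n → g y = 0)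
    (P : Finset (ℤ × ℤ)) (hPc : (n : ℝ) / (K * D ^ c) ≤ P.card) (hP : ∀ p ∈ P, (K : ℝ) / D ^ c ≤ |(p.1 : ℝ)| ∧ |p.1| < K ∧ p.2 ≠ 0 ∧
      ∃ th : ℝ, (n : ℝ) ^ 2 / D ^ c ≤ ∑ a ∈ Aj K p.1, En n p.1.natAbs (fun y => Gd g (a * (a + p.1) * p.2) y * ee (th * y))) :
    ∃ th : ℝ, (n : ℝ) / D ^ (4 * c + 6) ≤ ‖∑ y ∈ Icc (1 : ℤ) n, g y * ee (th * y)‖ := by
  have hD0 : (0 : ℝ) < D := by linarith
  have hD1 : (1 : ℝ) ≤ D := by linarith
  have hKr : (0 : ℝ) < K := lt_of_lt_of_le (by positivity) hK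
  have hK1 : 1 ≤ K := by
    have : 0 < K := by exact_mod_cast hKr
    omega
  have hK1r : (1 : ℝ) ≤ K := by exact_mod_cast hK1
  have hnr : (0 : ℝ) < n := lt_of_lt_of_le (by positivity) hKn
  have hn : 1 ≤ n := by
    have : 0 < n := by exact_mod_cast hnr
    omega
  have hKn1 : (K : ℝ) * D ^ (8 * c + 11) ≤ n := by
    refine le_trans ?_ hKn
    refine mul_le_mul_of_nonneg_right ?_ (by positivity)
    nlinarith
  have hKn2 : (K : ℝ) ≤ n := by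
    refine le_trans ?_ hKn1
    exact le_mul_of_one_le_right hKr.le (one_le_pow₀ hD1)
  have hKn3 : K ≤ n := by exact_mod_cast hKn2
  have h3 : (P.card : ℝ) * ((n : ℝ) ^ 2 * K / (32 * D ^ (7 * c))) ≤
      ∑ p ∈ P, ∑ x ∈ (Aj K p.1 ×ˢ Aj K p.1).filter (fun x => x.1 ≠ x.2), En n p.1.natAbs (Gd g (p.2 * (x.2 - x.1) * (x.2 + x.1 + p.1))) := by
    rw [← nsmul_eq_mul]
    refine card_nsmul_le_sum _ _ _ fun p hp => ?_
    obtain ⟨h4, h5, h6, th, h7⟩ := hP p hp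
    exact one_pair n K c D hn hK1 h2 hK hKn3 g hg hs p.1 p.2 p.1.natAbs (Int.natCast_natAbs p.1) h4 h5 th h7
  have h4 := offdiag n K D hD g hs P fun p hp => by
    obtain ⟨h4, h5, h6, _⟩ := hP p hp
    refine ⟨?_, h5, h6⟩
    have h7 : (0 : ℝ) < |(p.1 : ℝ)| := lt_of_lt_of_le (by positivity) h4
    exact abs_pos.2 (by exact_mod_cast abs_pos.1 h7)
  have h5 : ∑ m ∈ Ico 1 K, ∑ e ∈ Ioo (-(n : ℤ)) n, En n m (Gd g e) ≤ K * n ^ 2 + D * ∑ d ∈ Ioo (-(n : ℤ)) n, ‖Au n g d‖ ^ 2 := by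
    refine le_trans (le_of_eq ?_) (sum_sum_Au n K D hD g hg)
    refine sum_congr rfl fun m hm => ?_
    rw [mem_Ico] at hm
    exact sum_En n m (by omega) g hs
  obtain ⟨th, h6⟩ := sum_Au n hn g hg hs
  refine ⟨th, ?_⟩
  refine r3 n K _ D c hnr hKr h2 (norm_nonneg _) hKn1 ?_
  have e1 : (n : ℝ) ^ 3 / (32 * D ^ (8 * c)) = (n : ℝ) / (K * D ^ c) * ((n : ℝ) ^ 2 * K / (32 * D ^ (7 * c))) := by
    rw [show 8 * c = c + 7 * c by ring, pow_add]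
    field_simp
  rw [e1]
  have e2 : (n : ℝ) / (K * D ^ c) * ((n : ℝ) ^ 2 * K / (32 * D ^ (7 * c))) ≤ (P.card : ℝ) * ((n : ℝ) ^ 2 * K / (32 * D ^ (7 * c))) :=
    mul_le_mul_of_nonneg_right hPc (by positivity)
  have e3 : 4 * D ^ 2 * ∑ m ∈ Ico 1 K, ∑ e ∈ Ioo (-(n : ℤ)) n, En n m (Gd g e) ≤
      4 * D ^ 2 * (K * n ^ 2 + D * (n * ‖∑ y ∈ Icc (1 : ℤ) n, g y * ee (th * y)‖ ^ 2)) := by
    refine mul_le_mul_of_nonneg_left (h5.trans ?_) (by positivity)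
    have := mul_le_mul_of_nonneg_left h6 hD0.le
    linarith
  exact e2.trans (h3.trans (h4.trans e3))

end Pool.Agent.Lib.H81W
end

-- from Lib.H3B.S34
section

/-!
# H3B, steps 3 and 4 (from many pairs `(j, k)` with large energies to one large exponential sum). Proof: library H81W.
-/

namespace Pool.Agent.H3B

open Finset
open Pool.Agent.H44W (ee TF cut)

/-- The two definitions of the energy agree. -/
theorem s34_E (n m : ℕ) (hm : 0 < m) (u : ℤ → ℂ) (hu : ∀ y, y ∉ Icc (1 : ℤ) n → u y = 0) : E m u = Pool.Agent.Lib.H81W.En n m u := by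
  classical
  have hm0 : (0 : ℤ) < m := by exact_mod_cast hm
  unfold E Pool.Agent.Lib.H81W.En
  have h1 : ∑ r ∈ Ico (0 : ℤ) m, ‖Pool.Agent.Lib.H81W.Sr n m u r‖ ^ 2 = ∑ r ∈ range m, ‖Pool.Agent.Lib.H81W.Sr n m u (r : ℤ)‖ ^ 2 := by
    symm
    refine sum_bij' (fun r _ => (r : ℤ)) (fun r _ => r.toNat) ?_ ?_ ?_ ?_ ?_
    · intro r hr
      rw [mem_range] at hr
      rw [mem_Ico]
      omega
    · intro r hr
      rw [mem_Ico] at hr
      rw [mem_range]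
      omega
    · intro r _
      omega
    · intro r hr
      rw [mem_Ico] at hr
      omega
    · intro r _
      rfl
  rw [h1]
  refine sum_congr rfl fun r hr => ?_
  rw [mem_range] at hr
  have hr0 : ((r : ℤ)) % m = r := Int.emod_eq_of_lt (by omega) (by omega)
  congr 2
  unfold Pool.Agent.Lib.H81W.Sr
  rw [tsum_eq_sum (s := ((Icc (1 : ℤ) (n : ℤ)).filter (fun y : ℤ => y % (m : ℤ) = (r : ℤ))).image (fun y : ℤ => y / (m : ℤ)))]
  · rw [sum_image]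
    · refine sum_congr rfl fun y hy => ?_
      rw [mem_filter] at hy
      rw [← hy.2, add_comm, Int.mul_ediv_add_emod]
    · intro y hy z hz h
      rw [mem_coe, mem_filter] at hy hz
      have h2 := Int.mul_ediv_add_emod y m
      have h3 := Int.mul_ediv_add_emod z m
      simp only at h
      rw [← h2, ← h3, h, hy.2, hz.2]
  · intro v hv
    apply hu
    intro h
    apply hv
    rw [mem_image]
    refine ⟨(r : ℤ) + m * v, ?_, ?_⟩
    · rw [mem_filter]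
      exact ⟨h, by rw [Int.add_mul_emod_self_left, hr0]⟩
    · rw [Int.add_mul_ediv_left _ _ hm0.ne', Int.ediv_eq_zero_of_lt (by omega) (by omega), zero_add]

theorem s34_sum (K : ℕ) (j : ℤ) (F : ℤ → ℝ) : ∑ a ∈ Ij K j, F a = ∑ a ∈ Pool.Agent.Lib.H81W.Aj K j, F a := by
  refine sum_bij' (fun a _ => (a : ℤ)) (fun a _ => a.toNat) ?_ ?_ ?_ ?_ ?_
  · intro a ha
    unfold Ij at ha
    rw [mem_filter, mem_Ico] at ha
    rw [Pool.Agent.Lib.H81W.mem_Aj]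
    omega
  · intro a ha
    rw [Pool.Agent.Lib.H81W.mem_Aj] at ha
    unfold Ij
    rw [mem_filter, mem_Ico]
    omega
  · intro a _
    omega
  · intro a ha
    rw [Pool.Agent.Lib.H81W.mem_Aj] at ha
    omega
  · intro a _
    rfl

/-- Steps 3 and 4. -/
theorem step34 (A : ℕ) : ∃ C : ℕ, ∀ (n K : ℕ) (D : ℝ), 2 ≤ D → (∀ m : ℕ, 1 ≤ m → m ≤ 2 * n → (m.divisors.card : ℝ) ≤ D) →
    D ^ C ≤ K → (K : ℝ) ^ 2 * D ^ C ≤ n → ∀ g : ℤ → ℂ, (∀ z, ‖g z‖ ≤ 1) → (∀ y : ℤ, y ∉ Icc (1 : ℤ) n → g y = 0) →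
    ∀ P : Finset (ℤ × ℤ), (n : ℝ) / (K * D ^ A) ≤ P.card →
    (∀ p ∈ P, (K : ℝ) / D ^ A ≤ |(p.1 : ℝ)| ∧ |p.1| < K ∧ p.2 ≠ 0 ∧
      ∃ θ : ℝ, (n : ℝ) ^ 2 / D ^ A ≤ ∑ a ∈ Ij K p.1, E p.1.natAbs (tw θ (Gd g (a * (a + p.1) * p.2)))) →
    ∃ θ : ℝ, (n : ℝ) / D ^ C ≤ ‖∑' y : ℤ, g y * ee (-(θ * y))‖ := by
  refine ⟨8 * A + 11, fun n K D h2 hD hK hKn g hg hs P hPc hP => ?_⟩
  have hD1 : (1 : ℝ) ≤ D := by linarith
  have hD0 : (0 : ℝ) < D := by linarith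
  have hKr : (0 : ℝ) < K := lt_of_lt_of_le (by positivity) hK
  obtain ⟨th, h⟩ := Pool.Agent.Lib.H81W.step34 A n K D h2 hD hK hKn g hg hs P hPc fun p hp => by
    obtain ⟨h3, h4, h5, θ, h6⟩ := hP p hp
    refine ⟨h3, h4, h5, -θ, ?_⟩
    have h7 : (0 : ℝ) < |(p.1 : ℝ)| := lt_of_lt_of_le (by positivity) h3
    have h8 : p.1 ≠ 0 := by
      intro h0
      rw [h0, Int.cast_zero, abs_zero] at h7
      exact lt_irrefl _ h7
    refine h6.trans (le_of_eq ?_)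
    rw [s34_sum K p.1 (fun a => E p.1.natAbs (tw θ (Gd g (a * (a + p.1) * p.2))))]
    refine sum_congr rfl fun a _ => ?_
    rw [s34_E n p.1.natAbs (by omega)]
    · congr 1
      funext y
      unfold tw
      rw [neg_mul]
      rfl
    · intro y hy
      unfold tw Gd
      rw [hs y hy, zero_mul, zero_mul]
  refine ⟨-th, ?_⟩
  have h3 : ∑' y : ℤ, g y * ee (-(-th * y)) = ∑ y ∈ Icc (1 : ℤ) n, g y * ee (th * y) := by
    rw [tsum_eq_sum (s := Icc (1 : ℤ) n)]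
    · refine sum_congr rfl fun y _ => ?_
      rw [neg_mul, neg_neg]
    · intro y hy
      rw [hs y hy, zero_mul]
  rw [h3]
  refine le_trans ?_ h
  exact div_le_div_of_nonneg_left (Nat.cast_nonneg n) (by positivity) (pow_le_pow_right₀ hD1 (by omega))

end Pool.Agent.H3B
end

-- from Lib.H3B.D0
section

/-! # H3B: definitions for step 0 -/

namespace Pool.Agent.H3B

open Finset
open Pool.Agent.H44W (ee TF cut tII)

noncomputable section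

/-- The β with M ≤ 2β + ε < 2M. -/
def SS (M : ℕ) (ε : ℤ) : Finset ℤ := (Ico (0 : ℤ) (2 * M)).filter (fun b => (M : ℤ) ≤ 2 * b + ε ∧ 2 * b + ε < 2 * M)

/-- The part of the form with given `a` and `b = 2β + ε`. -/
def Tt (M : ℕ) (a ε : ℤ) (be W f g : ℤ → ℂ) : ℂ :=
  ∑ b ∈ SS M ε, be (2 * b + ε) * ∑' x : ℤ, f x * g (a * (2 * b + ε) - x) * W (2 * x - a * (2 * b + ε))

/-- `β_b conj β_{b + 2h}`, `b = 2β + ε`. -/
def BB (M : ℕ) (ε : ℤ) (be : ℤ → ℂ) (h b : ℤ) : ℂ :=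
  if b + h ∈ SS M ε then be (2 * b + ε) * (starRingEnd ℂ) (be (2 * (b + h) + ε)) else 0

/-- The inner sum after the first Cauchy-Schwarz inequality. -/
def Zh (M : ℕ) (a ε : ℤ) (be g : ℤ → ℂ) (h w : ℤ) : ℂ :=
  ∑ b ∈ SS M ε, if (2 : ℤ) ∣ a * (2 * b + ε) - w then
    BB M ε be h b * Gd g (a * (2 * h)) ((a * (2 * b + ε) - w) / 2) else 0

/-- The quantity `val(j, k)` of step 1. -/
def val (g : ℤ → ℂ) (K M : ℕ) (ψ : ℤ → ℝ) (j k : ℤ) : ℂ :=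
  ∑ h ∈ Ioo (-(M : ℤ)) M, ee (-(ψ h * j * k)) * ∑ a ∈ Ij K j, R (Gd g (a * (a + j) * k)) (j * (2 * h))

end

end Pool.Agent.H3B
end

-- from Lib.H3B.S0B
section

/-! # H3B (MP_443e5f, candidate T, module B), chunk S0B -/

namespace Pool.Agent.H3B

open Finset
open Pool.Agent.H44W (ee TF cut tII)

theorem s0b_SS {M : ℕ} {ε b : ℤ} (hb : b ∈ SS M ε) : (M : ℤ) ≤ 2 * b + ε ∧ 2 * b + ε < 2 * M :=
  (mem_filter.1 hb).2

theorem s0b_A {n M : ℕ} {a ε b : ℤ} (ha : 1 ≤ a) (haM : a * (2 * M) ≤ 8 * n) (hb : b ∈ SS M ε) :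
    0 ≤ a * (2 * b + ε) ∧ a * (2 * b + ε) ≤ 8 * n := by
  obtain ⟨h1, h2⟩ := s0b_SS hb
  constructor
  · exact mul_nonneg (by omega) (by omega)
  · exact (mul_le_mul_of_nonneg_left h2.le (by omega)).trans haM

theorem s0b_re {M : ℕ} {ε : ℤ} (F : ℤ → ℂ) {b : ℤ} (hb : b ∈ SS M ε) :
    ∑ b' ∈ SS M ε, F b' = ∑ h ∈ Ioo (-(M : ℤ)) M, if b + h ∈ SS M ε then F (b + h) else 0 := by
  rw [← sum_filter]
  symm
  refine Finset.sum_nbij' (fun h => b + h) (fun b' => b' - b) ?_ ?_ ?_ ?_ ?_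
  · intro h hh
    exact (mem_filter.1 hh).2
  · intro b' hb'
    have h1 := s0b_SS hb
    have h2 := s0b_SS hb'
    rw [mem_filter, mem_Ioo]
    refine ⟨by constructor <;> omega, ?_⟩
    have h3 : b + (b' - b) = b' := by ring
    rw [h3]
    exact hb'
  · intro h _
    ring
  · intro b' _
    ring
  · intro h _
    rfl

theorem s0b_tsum (A : ℤ) (H : ℤ → ℂ) :
    ∑' x : ℤ, H (2 * x - A) = ∑' w : ℤ, if (2 : ℤ) ∣ A - w then H w else 0 := by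
  have hinj : Function.Injective (fun x : ℤ => 2 * x - A) := by
    intro x y hxy
    simp only at hxy
    omega
  have h1 := hinj.tsum_eq (f := fun w : ℤ => if (2 : ℤ) ∣ A - w then H w else 0) (by
    intro w hw
    rw [Function.mem_support] at hw
    have h2 : (2 : ℤ) ∣ A - w := by
      by_contra h3
      rw [if_neg h3] at hw
      exact hw rfl
    obtain ⟨y, hy⟩ := h2
    refine ⟨A - y, ?_⟩
    simp only
    omega)
  rw [← h1]
  refine tsum_congr fun x => ?_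
  have h2 : (2 : ℤ) ∣ A - (2 * x - A) := ⟨A - x, by ring⟩
  rw [if_pos h2]

/-- One pair `b, b + h`. -/
theorem s0b_pair {n M : ℕ} {a ε : ℤ} (ha : 1 ≤ a) (haM : a * (2 * M) ≤ 8 * n) {W g : ℤ → ℂ}
    (hgs : Sp n g) {b : ℤ} (hb : b ∈ SS M ε) (h : ℤ) :
    ∑ x ∈ Icc (-(9 * n : ℤ)) (9 * n), (g (a * (2 * b + ε) - x) * W (2 * x - a * (2 * b + ε))) *
      (starRingEnd ℂ) (g (a * (2 * (b + h) + ε) - x) * W (2 * x - a * (2 * (b + h) + ε))) =
    ∑ w ∈ Icc (-(10 * n : ℤ)) (10 * n), (W w * (starRingEnd ℂ) (W (w - a * (2 * h)))) *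
      (if (2 : ℤ) ∣ a * (2 * b + ε) - w then Gd g (a * (2 * h)) ((a * (2 * b + ε) - w) / 2) else 0) := by
  obtain ⟨A, hA⟩ : ∃ A : ℤ, A = a * (2 * b + ε) := ⟨_, rfl⟩
  have hA0 := s0b_A ha haM hb
  have hA' : a * (2 * (b + h) + ε) = A + a * (2 * h) := by rw [hA]; ring
  rw [hA', ← hA]
  rw [← hA] at hA0
  have e1 : ∀ x : ℤ, (g (A - x) * W (2 * x - A)) *
      (starRingEnd ℂ) (g (A + a * (2 * h) - x) * W (2 * x - (A + a * (2 * h)))) =
      (fun w : ℤ => (W w * (starRingEnd ℂ) (W (w - a * (2 * h)))) * Gd g (a * (2 * h)) ((A - w) / 2)) (2 * x - A) := by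
    intro x
    have h1 : (A - (2 * x - A)) / 2 = A - x := by omega
    have h2 : A + a * (2 * h) - x = A - x + a * (2 * h) := by ring
    have h3 : 2 * x - (A + a * (2 * h)) = 2 * x - A - a * (2 * h) := by ring
    simp only [h1, h2, h3, Gd, map_mul]
    ring
  have e2 : ∑ x ∈ Icc (-(9 * n : ℤ)) (9 * n), (g (A - x) * W (2 * x - A)) *
      (starRingEnd ℂ) (g (A + a * (2 * h) - x) * W (2 * x - (A + a * (2 * h)))) =
      ∑' x : ℤ, (g (A - x) * W (2 * x - A)) *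
      (starRingEnd ℂ) (g (A + a * (2 * h) - x) * W (2 * x - (A + a * (2 * h)))) := by
    symm
    refine tsum_eq_sum fun x hx => ?_
    have h1 : g (A - x) = 0 := by
      refine hgs.zero ?_
      by_contra h2
      rw [not_lt, abs_le] at h2
      apply hx
      rw [mem_Icc]
      constructor <;> omega
    rw [h1, zero_mul, zero_mul]
  rw [e2, (tsum_congr e1).trans (s0b_tsum A (fun w : ℤ =>
    (W w * (starRingEnd ℂ) (W (w - a * (2 * h)))) * Gd g (a * (2 * h)) ((A - w) / 2)))]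
  rw [tsum_eq_sum (s := Icc (-(10 * n : ℤ)) (10 * n))]
  · refine sum_congr rfl fun w _ => ?_
    split_ifs
    · rfl
    · rw [mul_zero]
  · intro w hw
    split_ifs with h1
    · have h3 : g ((A - w) / 2) = 0 := by
        refine hgs.zero ?_
        by_contra h2
        rw [not_lt, abs_le] at h2
        apply hw
        rw [mem_Icc]
        constructor <;> omega
      unfold Gd
      rw [h3, zero_mul, mul_zero]
    · rfl

/-- Chunk S0B (M). The first two steps: Cauchy-Schwarz in x, expansion. PROOF. Tt = ∑' x, f x * U x with U x = ∑_{b in SS} be(2b+ε) g(a(2b+ε) - x) W(2x - a(2b+ε)) (finite sums; exchange).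
Cauchy-Schwarz: |Tt|² ≤ (∑ |f|²)(∑' x, |U x|²), ∑ |f|² ≤ 2 n + 1 ≤ 3 n. |U x|² = ∑_{b, b'} ..; put b' = b + h (h in Ioo (-M) M: the elements of SS lie in an interval of length less than M), A = a(2b+ε),
y = A - x, w = 2x - A = A - 2y: g(A - x) conj g(A + 2ah - x) = Gd g (2ah) y, W(2x - A) conj W(2x - A - 2ah) = W w conj W(w - 2ah). For given b the map x ↦ w = 2x - A is a bijection of ℤ onto
the w with 2 | A - w, and y = (A - w)/2. So ∑' x, |U x|² = ∑_h ∑' w, W w conj W(w - 2ah) Zh h w ≤ ∑_h ∑_w |Zh h w|, and Zh h w ≠ 0 only if |y| ≤ n for some b, that is |w| ≤ A + 2n ≤ 10 n. -/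
theorem s0_cs1 {n M : ℕ} (hn : 1 ≤ n) {a ε : ℤ} (ha : 1 ≤ a) (haM : a * (2 * M) ≤ 8 * n) (hε : ε = 0 ∨ ε = 1) {be W f g : ℤ → ℂ}
    (hW : ∀ x, ‖W x‖ ≤ 1) (hf : ∀ x, ‖f x‖ ≤ 1) (hfs : Sp n f) (hgs : Sp n g) :
    ‖Tt M a ε be W f g‖ ^ 2 ≤ 3 * n * ∑ h ∈ Ioo (-(M : ℤ)) M, ∑ w ∈ Icc (-(10 * n : ℤ)) (10 * n), ‖Zh M a ε be g h w‖ := by
  classical
  have hnR : (1 : ℝ) ≤ n := by exact_mod_cast hn
  obtain ⟨u, hu⟩ : ∃ u : ℤ → ℤ → ℂ, u = fun b x => g (a * (2 * b + ε) - x) * W (2 * x - a * (2 * b + ε)) := ⟨_, rfl⟩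
  obtain ⟨U, hU⟩ : ∃ U : ℤ → ℂ, U = fun x => ∑ b ∈ SS M ε, be (2 * b + ε) * u b x := ⟨_, rfl⟩
  -- the form as a finite sum
  have hTt : Tt M a ε be W f g = ∑ x ∈ Icc (-(n : ℤ)) n, f x * U x := by
    unfold Tt
    have e1 : ∀ b : ℤ, ∑' x : ℤ, f x * g (a * (2 * b + ε) - x) * W (2 * x - a * (2 * b + ε)) =
        ∑ x ∈ Icc (-(n : ℤ)) n, f x * u b x := by
      intro b
      have h1 : Sp n (fun x => f x * g (a * (2 * b + ε) - x) * W (2 * x - a * (2 * b + ε))) :=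
        (hfs.mul_right _).mul_right _
      rw [h1.tsum_eq]
      refine sum_congr rfl fun x _ => ?_
      rw [hu]
      ring
    simp only [e1, mul_sum]
    rw [sum_comm]
    refine sum_congr rfl fun x _ => ?_
    rw [hU]
    simp only [mul_sum]
    refine sum_congr rfl fun b _ => ?_
    ring
  -- Cauchy-Schwarz
  have hcs : ‖Tt M a ε be W f g‖ ^ 2 ≤ 3 * n * ∑ x ∈ Icc (-(9 * n : ℤ)) (9 * n), ‖U x‖ ^ 2 := by
    rw [hTt]
    have h1 : ‖∑ x ∈ Icc (-(n : ℤ)) n, f x * U x‖ ≤ ∑ x ∈ Icc (-(n : ℤ)) n, ‖f x‖ * ‖U x‖ := by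
      refine norm_sum_le_of_le _ fun x _ => ?_
      rw [norm_mul]
    have h2 := sum_mul_sq_le_sq_mul_sq (Icc (-(n : ℤ)) n) (fun x => ‖f x‖) (fun x => ‖U x‖)
    have h3 : ∑ x ∈ Icc (-(n : ℤ)) n, ‖f x‖ ^ 2 ≤ 3 * n := by
      refine (sum_le_sum (g := fun _ => (1 : ℝ)) fun x _ => ?_).trans ?_
      · exact pow_le_one₀ (norm_nonneg _) (hf x)
      · rw [sum_const, Int.card_Icc, nsmul_eq_mul, mul_one]
        have h4 : (n : ℤ) + 1 - -(n : ℤ) = ((2 * n + 1 : ℕ) : ℤ) := by push_cast; ring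
        rw [h4, Int.toNat_natCast]
        push_cast
        linarith
    have h5 : ∑ x ∈ Icc (-(n : ℤ)) n, ‖U x‖ ^ 2 ≤ ∑ x ∈ Icc (-(9 * n : ℤ)) (9 * n), ‖U x‖ ^ 2 := by
      refine sum_le_sum_of_subset_of_nonneg ?_ fun x _ _ => sq_nonneg _
      intro x hx
      rw [mem_Icc] at hx ⊢
      constructor <;> omega
    calc _ ≤ (∑ x ∈ Icc (-(n : ℤ)) n, ‖f x‖ * ‖U x‖) ^ 2 := pow_le_pow_left₀ (norm_nonneg _) h1 2
      _ ≤ _ := h2
      _ ≤ _ := mul_le_mul h3 h5 (sum_nonneg fun x _ => sq_nonneg _) (by positivity)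
  refine hcs.trans (mul_le_mul_of_nonneg_left ?_ (by positivity))
  -- expansion
  have hexp : ((∑ x ∈ Icc (-(9 * n : ℤ)) (9 * n), ‖U x‖ ^ 2 : ℝ) : ℂ) =
      ∑ h ∈ Ioo (-(M : ℤ)) M, ∑ w ∈ Icc (-(10 * n : ℤ)) (10 * n),
        (W w * (starRingEnd ℂ) (W (w - a * (2 * h)))) * Zh M a ε be g h w := by
    rw [Complex.ofReal_sum]
    have e1 : ∀ x : ℤ, ((‖U x‖ ^ 2 : ℝ) : ℂ) = ∑ b ∈ SS M ε, ∑ b' ∈ SS M ε,
        (be (2 * b + ε) * (starRingEnd ℂ) (be (2 * b' + ε))) * (u b x * (starRingEnd ℂ) (u b' x)) := by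
      intro x
      rw [← Complex.normSq_eq_norm_sq, ← Complex.mul_conj, hU]
      simp only [map_sum, sum_mul_sum, map_mul]
      refine sum_congr rfl fun b _ => sum_congr rfl fun b' _ => ?_
      ring
    simp only [e1]
    rw [sum_comm]
    have e2 : ∀ b ∈ SS M ε, ∑ x ∈ Icc (-(9 * n : ℤ)) (9 * n), ∑ b' ∈ SS M ε,
        (be (2 * b + ε) * (starRingEnd ℂ) (be (2 * b' + ε))) * (u b x * (starRingEnd ℂ) (u b' x)) =
        ∑ h ∈ Ioo (-(M : ℤ)) M, ∑ w ∈ Icc (-(10 * n : ℤ)) (10 * n),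
          (W w * (starRingEnd ℂ) (W (w - a * (2 * h)))) *
          (if (2 : ℤ) ∣ a * (2 * b + ε) - w then BB M ε be h b * Gd g (a * (2 * h)) ((a * (2 * b + ε) - w) / 2) else 0) := by
      intro b hb
      rw [sum_comm]
      rw [s0b_re (fun b' => ∑ x ∈ Icc (-(9 * n : ℤ)) (9 * n),
        (be (2 * b + ε) * (starRingEnd ℂ) (be (2 * b' + ε))) * (u b x * (starRingEnd ℂ) (u b' x))) hb]
      refine sum_congr rfl fun h _ => ?_
      unfold BB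
      by_cases hh : b + h ∈ SS M ε
      · simp only [if_pos hh]
        rw [← mul_sum, hu]
        dsimp only
        rw [s0b_pair ha haM hgs hb h, mul_sum]
        refine sum_congr rfl fun w _ => ?_
        split_ifs
        · ring
        · ring
      · simp only [if_neg hh, zero_mul, ite_self, mul_zero, sum_const_zero]
    rw [sum_congr rfl e2, sum_comm]
    refine sum_congr rfl fun h _ => ?_
    rw [sum_comm]
    refine sum_congr rfl fun w _ => ?_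
    unfold Zh
    rw [mul_sum]
  have hnorm : (∑ x ∈ Icc (-(9 * n : ℤ)) (9 * n), ‖U x‖ ^ 2 : ℝ) =
      ‖((∑ x ∈ Icc (-(9 * n : ℤ)) (9 * n), ‖U x‖ ^ 2 : ℝ) : ℂ)‖ := by
    rw [Complex.norm_real, Real.norm_of_nonneg (sum_nonneg fun x _ => sq_nonneg _)]
  rw [hnorm, hexp]
  refine norm_sum_le_of_le _ fun h _ => norm_sum_le_of_le _ fun w _ => ?_
  rw [norm_mul, norm_mul, RCLike.norm_conj]
  exact mul_le_of_le_one_left (norm_nonneg _) (mul_le_one₀ (hW _) (norm_nonneg _) (hW _))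

end Pool.Agent.H3B
end

-- from Lib.H3B.S0A
section

/-! # H3B (MP_443e5f, candidate T, module B), chunk S0A -/

namespace Pool.Agent.H3B

open Finset
open Pool.Agent.H44W (ee TF cut tII)

/-- The inner sum. -/
noncomputable def s0aIn (n : ℕ) (W f g : ℤ → ℂ) (c : ℤ) : ℂ :=
  ∑ x ∈ Icc (1:ℤ) n, cut n f x * cut n g (c - x) * W (2 * x - c)

theorem s0a_tsum (n : ℕ) (W f g : ℤ → ℂ) (c : ℤ) :
    ∑' x : ℤ, cut n f x * cut n g (c - x) * W (2 * x - c) = s0aIn n W f g c := by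
  unfold s0aIn
  refine tsum_eq_sum fun x hx => ?_
  have h : cut n f x = 0 := if_neg hx
  rw [h, zero_mul, zero_mul]

theorem s0a_inner (n : ℕ) (W f g : ℤ → ℂ) (c : ℤ) :
    ∑ x ∈ Icc (1:ℤ) n, ∑ y ∈ Icc (1:ℤ) n, (if c = x + y then f x * g y * W (x - y) else 0) = s0aIn n W f g c := by
  unfold s0aIn
  refine sum_congr rfl fun x hx => ?_
  have h1 : cut n f x = f x := if_pos hx
  have h2 : ∀ y ∈ Icc (1:ℤ) n, (if c = x + y then f x * g y * W (x - y) else 0) =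
      if y = c - x then f x * g y * W (x - y) else 0 := by
    intro y _
    by_cases h : c = x + y
    · rw [if_pos h, if_pos (by omega)]
    · rw [if_neg h, if_neg (by omega)]
  rw [sum_congr rfl h2, sum_ite_eq', h1]
  by_cases h3 : c - x ∈ Icc (1:ℤ) n
  · have h4 : cut n g (c - x) = g (c - x) := if_pos h3
    rw [if_pos h3, h4]
    congr 2
    ring
  · have h4 : cut n g (c - x) = 0 := if_neg h3
    rw [if_neg h3, h4, mul_zero, zero_mul]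

theorem s0a_exp (n K M : ℕ) (al be : ℕ → ℂ) (W f g : ℤ → ℂ) :
    TF n (tII K M al be) W f g = ∑ a ∈ Ico K (2 * K), al a * ∑ b ∈ Ico M (2 * M), be b * s0aIn n W f g ((a * b : ℕ) : ℤ) := by
  unfold TF tII
  have h1 : ∀ x ∈ Icc (1:ℤ) n, ∑ y ∈ Icc (1:ℤ) n, f x * g y *
      (∑ a ∈ Ico K (2 * K), ∑ b ∈ Ico M (2 * M), if ((a * b : ℕ) : ℤ) = x + y then al a * be b else 0) * W (x - y) =
      ∑ a ∈ Ico K (2 * K), ∑ b ∈ Ico M (2 * M), ∑ y ∈ Icc (1:ℤ) n,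
        al a * be b * (if ((a * b : ℕ) : ℤ) = x + y then f x * g y * W (x - y) else 0) := by
    intro x _
    have h2 : ∀ y ∈ Icc (1:ℤ) n, f x * g y *
        (∑ a ∈ Ico K (2 * K), ∑ b ∈ Ico M (2 * M), if ((a * b : ℕ) : ℤ) = x + y then al a * be b else 0) * W (x - y) =
        ∑ a ∈ Ico K (2 * K), ∑ b ∈ Ico M (2 * M),
          al a * be b * (if ((a * b : ℕ) : ℤ) = x + y then f x * g y * W (x - y) else 0) := by
      intro y _
      rw [Finset.mul_sum, Finset.sum_mul]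
      refine sum_congr rfl fun a _ => ?_
      rw [Finset.mul_sum, Finset.sum_mul]
      refine sum_congr rfl fun b _ => ?_
      split_ifs
      · ring
      · ring
    rw [sum_congr rfl h2, Finset.sum_comm]
    refine sum_congr rfl fun a _ => ?_
    rw [Finset.sum_comm]
  rw [sum_congr rfl h1, Finset.sum_comm]
  refine sum_congr rfl fun a _ => ?_
  rw [Finset.sum_comm, Finset.mul_sum]
  refine sum_congr rfl fun b _ => ?_
  rw [← s0a_inner, ← mul_assoc, Finset.mul_sum]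
  refine sum_congr rfl fun x _ => ?_
  rw [Finset.mul_sum]

theorem s0a_par0 (M : ℕ) (F : ℤ → ℂ) (ε : ℤ) (hε : 0 ≤ ε ∧ ε < 2) :
    ∑ b ∈ SS M ε, F (2 * b + ε) = ∑ b ∈ (Ico (M:ℤ) (2 * M)).filter (fun b => b % 2 = ε), F b := by
  refine Finset.sum_nbij' (fun b => 2 * b + ε) (fun b => b / 2) ?_ ?_ ?_ ?_ ?_
  · intro b hb
    unfold SS at hb
    rw [mem_filter, mem_Ico] at hb
    rw [mem_filter, mem_Ico]
    obtain ⟨⟨h1, h2⟩, h3, h4⟩ := hb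
    refine ⟨⟨h3, h4⟩, ?_⟩
    omega
  · intro b hb
    unfold SS
    rw [mem_filter, mem_Ico] at hb
    rw [mem_filter, mem_Ico]
    obtain ⟨⟨h1, h2⟩, h3⟩ := hb
    have hM : (0:ℤ) ≤ M := Int.natCast_nonneg M
    omega
  · intro b hb
    omega
  · intro b hb
    rw [mem_filter] at hb
    omega
  · intro b _
    rfl

theorem s0a_par (M : ℕ) (F : ℤ → ℂ) :
    ∑ b ∈ Ico M (2 * M), F (b:ℤ) = ∑ ε ∈ ({0, 1} : Finset ℤ), ∑ b ∈ SS M ε, F (2 * b + ε) := by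
  have h1 : ∑ b ∈ Ico M (2 * M), F (b:ℤ) = ∑ b ∈ Ico (M:ℤ) (2 * M), F b := by
    refine Finset.sum_nbij' (fun b : ℕ => (b:ℤ)) (fun b : ℤ => b.toNat) ?_ ?_ ?_ ?_ ?_
    · intro b hb
      rw [mem_Ico] at hb ⊢
      omega
    · intro b hb
      rw [mem_Ico] at hb ⊢
      omega
    · intro b _
      exact Int.toNat_natCast b
    · intro b hb
      rw [mem_Ico] at hb
      exact Int.toNat_of_nonneg (by omega)
    · intro b _
      rfl
  rw [h1, Finset.sum_pair (by norm_num), s0a_par0 M F 0 (by norm_num), s0a_par0 M F 1 (by norm_num),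
    ← Finset.sum_filter_add_sum_filter_not (Ico (M:ℤ) (2 * M)) (fun b => b % 2 = 0)]
  congr 1
  refine Finset.sum_congr ?_ fun _ _ => rfl
  refine Finset.filter_congr fun b _ => ?_
  omega

theorem s0a_norm_cut (n : ℕ) (f : ℤ → ℂ) (hf : ∀ x, ‖f x‖ ≤ 1) (x : ℤ) : ‖cut n f x‖ ≤ 1 := by
  unfold cut
  split_ifs
  · exact hf x
  · rw [norm_zero]
    exact zero_le_one

theorem s0a_In_le (n : ℕ) (W f g : ℤ → ℂ) (hW : ∀ x, ‖W x‖ ≤ 1) (hf : ∀ x, ‖f x‖ ≤ 1) (hg : ∀ x, ‖g x‖ ≤ 1) (c : ℤ) :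
    ‖s0aIn n W f g c‖ ≤ n := by
  unfold s0aIn
  refine (norm_sum_le_of_le (f := fun x => cut n f x * cut n g (c - x) * W (2 * x - c)) (n := fun _ => (1:ℝ)) _ fun x _ => ?_).trans ?_
  · rw [norm_mul, norm_mul]
    exact mul_le_one₀ (mul_le_one₀ (s0a_norm_cut n f hf x) (norm_nonneg _) (s0a_norm_cut n g hg _)) (norm_nonneg _) (hW _)
  · simp

/-- Chunk S0Aa (M). PROOF. TF n F W f g = ∑' x, ∑' y of cut n f x * cut n g y * F (x + y) * W (x - y) (or keep the finite sums). Insert the definition of tII, exchange the sums: for given a, b the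
sum over x, y in [1, n] with x + y = a b of f x g y W (x - y) is ∑' x, cut n f x * cut n g (a b - x) * W (2 x - a b). b = 2β + ε with ε = b mod 2 gives a bijection of Ico M (2M) with the pairs
(ε, β), ε in {0, 1}, β in SS M ε. Triangle inequality, |al a| ≤ 1. -/
theorem TF_le_Tt (n K M : ℕ) (al be : ℕ → ℂ) (hal : ∀ a, ‖al a‖ ≤ 1) (W f g : ℤ → ℂ) :
    ‖TF n (tII K M al be) W f g‖ ≤ ∑ ε ∈ ({0, 1} : Finset ℤ), ∑ a ∈ Ico K (2 * K),
      ‖Tt M a ε (fun b => be b.toNat) W (cut n f) (cut n g)‖ := by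
  have h1 : ∀ a : ℕ, ∑ b ∈ Ico M (2 * M), be b * s0aIn n W f g ((a * b : ℕ) : ℤ) =
      ∑ ε ∈ ({0, 1} : Finset ℤ), Tt M a ε (fun b => be b.toNat) W (cut n f) (cut n g) := by
    intro a
    have h2 := s0a_par M (fun b => be b.toNat * s0aIn n W f g ((a:ℤ) * b))
    have h3 : ∑ b ∈ Ico M (2 * M), be b * s0aIn n W f g ((a * b : ℕ) : ℤ) =
        ∑ b ∈ Ico M (2 * M), (fun b : ℤ => be b.toNat * s0aIn n W f g ((a:ℤ) * b)) (b:ℤ) := by
      refine sum_congr rfl fun b _ => ?_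
      change _ = be (Int.toNat (b:ℤ)) * s0aIn n W f g ((a:ℤ) * (b:ℤ))
      rw [Int.toNat_natCast, Nat.cast_mul]
    rw [h3, h2]
    refine sum_congr rfl fun ε _ => ?_
    unfold Tt
    refine sum_congr rfl fun b _ => ?_
    rw [s0a_tsum]
  rw [s0a_exp, Finset.sum_comm]
  refine norm_sum_le_of_le _ fun a _ => ?_
  rw [norm_mul, h1 a]
  exact (mul_le_of_le_one_left (norm_nonneg _) (hal a)).trans (norm_sum_le _ _)

/-- Chunk S0Ab (S/M). PROOF. Trivial bound: for given a, b and x there is at most one y. -/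
theorem TF_le (n K M : ℕ) (al be : ℕ → ℂ) (hal : ∀ a, ‖al a‖ ≤ 1) (hbe : ∀ b, ‖be b‖ ≤ 1) (W f g : ℤ → ℂ)
    (hW : ∀ x, ‖W x‖ ≤ 1) (hf : ∀ x, ‖f x‖ ≤ 1) (hg : ∀ x, ‖g x‖ ≤ 1) :
    ‖TF n (tII K M al be) W f g‖ ≤ K * M * n := by
  rw [s0a_exp]
  have h1 : ∀ a ∈ Ico K (2 * K), ‖al a * ∑ b ∈ Ico M (2 * M), be b * s0aIn n W f g ((a * b : ℕ) : ℤ)‖ ≤ M * n := by
    intro a _
    rw [norm_mul]
    refine (mul_le_of_le_one_left (norm_nonneg _) (hal a)).trans ?_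
    have h2 : ∀ b ∈ Ico M (2 * M), ‖be b * s0aIn n W f g ((a * b : ℕ) : ℤ)‖ ≤ n := by
      intro b _
      rw [norm_mul]
      exact (mul_le_of_le_one_left (norm_nonneg _) (hbe b)).trans (s0a_In_le n W f g hW hf hg _)
    refine (norm_sum_le_of_le _ h2).trans ?_
    rw [Finset.sum_const, Nat.card_Ico, nsmul_eq_mul]
    have e : 2 * M - M = M := by omega
    rw [e]
  refine (norm_sum_le_of_le _ h1).trans ?_
  rw [Finset.sum_const, Nat.card_Ico, nsmul_eq_mul]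
  have e : 2 * K - K = K := by omega
  rw [e, mul_assoc]

/-- Chunk S0Ac (S). PROOF. If K M > 2 n then tII (x + y) = 0 because a b ≥ K M > 2 n ≥ x + y. -/
theorem KM_le (n K M : ℕ) (al be : ℕ → ℂ) (W f g : ℤ → ℂ) (h : TF n (tII K M al be) W f g ≠ 0) : K * M ≤ 2 * n := by
  by_contra hc
  apply h
  rw [not_le] at hc
  unfold TF
  refine sum_eq_zero fun x hx => sum_eq_zero fun y hy => ?_
  have h0 : tII K M al be (x + y) = 0 := by
    unfold tII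
    refine sum_eq_zero fun a ha => sum_eq_zero fun b hb => ?_
    rw [mem_Ico] at ha hb
    rw [mem_Icc] at hx hy
    refine if_neg fun he => ?_
    have h1 : K * M ≤ a * b := Nat.mul_le_mul ha.1 hb.1
    have h2 : ((K * M : ℕ) : ℤ) ≤ ((a * b : ℕ) : ℤ) := by exact_mod_cast h1
    have h3 : ((2 * n : ℕ) : ℤ) < ((K * M : ℕ) : ℤ) := by exact_mod_cast hc
    push_cast at h2 h3 he
    omega
  rw [h0, mul_zero, zero_mul]

end Pool.Agent.H3B
end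

-- from Lib.H3B.S0C
section

/-! # H3B (MP_443e5f, candidate T, module B), chunk S0C -/

namespace Pool.Agent.H3B

open Finset
open Pool.Agent.H44W (ee TF cut tII)

/-- `G((A - w)/2)` if `2 ∣ A - w`, else `0`; `A = a (2 b + ε)`. -/
noncomputable def s0cz (a ε : ℤ) (G : ℤ → ℂ) (b w : ℤ) : ℂ :=
  if (2 : ℤ) ∣ a * (2 * b + ε) - w then G ((a * (2 * b + ε) - w) / 2) else 0

theorem s0c_fin {N : ℕ} {G : ℤ → ℂ} (hG : Sp N G) (a ε b : ℤ) : (Function.support (s0cz a ε G b)).Finite := by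
  refine (hG.finite.image (fun y => a * (2 * b + ε) - 2 * y)).subset ?_
  intro w hw
  rw [Function.mem_support] at hw
  unfold s0cz at hw
  split_ifs at hw with h
  · refine ⟨(a * (2 * b + ε) - w) / 2, hw, ?_⟩
    have h1 := Int.mul_ediv_cancel' h
    simp only
    linarith
  · exact absurd rfl hw

theorem s0c_R (G : ℤ → ℂ) (a ε b b' : ℤ) :
    ∑' w : ℤ, s0cz a ε G b w * (starRingEnd ℂ) (s0cz a ε G b' w) = R G (a * (b' - b)) := by
  have hinj : Function.Injective (fun y : ℤ => a * (2 * b + ε) - 2 * y) := by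
    intro x y h
    simp only at h
    linarith
  have hsup : Function.support (fun w : ℤ => s0cz a ε G b w * (starRingEnd ℂ) (s0cz a ε G b' w)) ⊆
      Set.range (fun y : ℤ => a * (2 * b + ε) - 2 * y) := by
    intro w hw
    rw [Function.mem_support] at hw
    have h1 := left_ne_zero_of_mul hw
    unfold s0cz at h1
    split_ifs at h1 with h
    · refine ⟨(a * (2 * b + ε) - w) / 2, ?_⟩
      have h2 := Int.mul_ediv_cancel' h
      simp only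
      linarith
    · exact absurd rfl h1
  rw [← hinj.tsum_eq hsup]
  unfold R
  refine tsum_congr fun y => ?_
  unfold s0cz
  have e1 : a * (2 * b + ε) - (a * (2 * b + ε) - 2 * y) = 2 * y := by ring
  have e2 : a * (2 * b' + ε) - (a * (2 * b + ε) - 2 * y) = 2 * (y + a * (b' - b)) := by ring
  rw [e1, e2, if_pos (Dvd.intro _ rfl), if_pos (Dvd.intro _ rfl), Int.mul_ediv_cancel_left _ two_ne_zero,
    Int.mul_ediv_cancel_left _ two_ne_zero]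

theorem s0c_Zh (M : ℕ) (a ε : ℤ) (be g : ℤ → ℂ) (h w : ℤ) :
    Zh M a ε be g h w = ∑ b ∈ SS M ε, BB M ε be h b * s0cz a ε (Gd g (a * (2 * h))) b w := by
  unfold Zh s0cz
  refine Finset.sum_congr rfl fun b _ => ?_
  split_ifs
  · rfl
  · rw [mul_zero]

/-- Chunk S0C (M). PROOF. ∑_w |Zh h w|² over all integers w (finitely many are not zero) is ∑_{b, b' in SS} BB b conj BB b' ∑_w [2 | A - w] G((A - w)/2) conj G((A' - w)/2), G = Gd g (a(2h)),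
A = a(2b+ε), A' = a(2b'+ε) = A + 2a(b' - b), so 2 | A - w iff 2 | A' - w and (A' - w)/2 = y + a(b' - b) for y = (A - w)/2; y runs over all integers: R G (a (b' - b)). The finite sum over w
is at most the full sum (terms ≥ 0). -/
theorem s0_exp {n M : ℕ} {a ε : ℤ} {be g : ℤ → ℂ} (hgs : Sp n g) (h : ℤ) :
    ∑ w ∈ Icc (-(10 * n : ℤ)) (10 * n), ‖Zh M a ε be g h w‖ ^ 2 ≤
      (∑ b ∈ SS M ε, ∑ b' ∈ SS M ε, BB M ε be h b * (starRingEnd ℂ) (BB M ε be h b') *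
        R (Gd g (a * (2 * h))) (a * (b' - b))).re := by
  obtain ⟨G, hG⟩ : ∃ G : ℤ → ℂ, G = Gd g (a * (2 * h)) := ⟨_, rfl⟩
  have hGs : Sp n G := by rw [hG]; exact hgs.Gd _
  have hterm : ∀ b b' : ℤ, Summable (fun w : ℤ => s0cz a ε G b w * (starRingEnd ℂ) (s0cz a ε G b' w)) := by
    intro b b'
    refine summable_of_hasFiniteSupport ?_
    exact (s0c_fin hGs a ε b).subset fun w hw => left_ne_zero_of_mul hw
  have hexp : ∀ w : ℤ, ((‖Zh M a ε be g h w‖ ^ 2 : ℝ) : ℂ) = ∑ b ∈ SS M ε, ∑ b' ∈ SS M ε,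
      BB M ε be h b * (starRingEnd ℂ) (BB M ε be h b') * (s0cz a ε G b w * (starRingEnd ℂ) (s0cz a ε G b' w)) := by
    intro w
    rw [← Complex.normSq_eq_norm_sq, ← Complex.mul_conj, s0c_Zh, ← hG, map_sum, Finset.sum_mul_sum]
    refine Finset.sum_congr rfl fun b _ => Finset.sum_congr rfl fun b' _ => ?_
    rw [map_mul]
    ring
  have hsum2 : ∀ b b' : ℤ, Summable (fun w : ℤ => BB M ε be h b * (starRingEnd ℂ) (BB M ε be h b') *
      (s0cz a ε G b w * (starRingEnd ℂ) (s0cz a ε G b' w))) := fun b b' => (hterm b b').mul_left _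
  have hsumC : Summable (fun w : ℤ => ((‖Zh M a ε be g h w‖ ^ 2 : ℝ) : ℂ)) := by
    have h1 : (fun w : ℤ => ((‖Zh M a ε be g h w‖ ^ 2 : ℝ) : ℂ)) = fun w : ℤ => ∑ b ∈ SS M ε, ∑ b' ∈ SS M ε,
      BB M ε be h b * (starRingEnd ℂ) (BB M ε be h b') * (s0cz a ε G b w * (starRingEnd ℂ) (s0cz a ε G b' w)) :=
      funext hexp
    rw [h1]
    exact summable_sum fun b _ => summable_sum fun b' _ => hsum2 b b'
  have hsumR : Summable (fun w : ℤ => ‖Zh M a ε be g h w‖ ^ 2) := Complex.summable_ofReal.1 hsumC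
  have htot : ((∑' w : ℤ, ‖Zh M a ε be g h w‖ ^ 2 : ℝ) : ℂ) = ∑ b ∈ SS M ε, ∑ b' ∈ SS M ε,
      BB M ε be h b * (starRingEnd ℂ) (BB M ε be h b') * R G (a * (b' - b)) := by
    rw [Complex.ofReal_tsum, tsum_congr hexp,
      Summable.tsum_finsetSum (fun b _ => summable_sum fun b' _ => hsum2 b b')]
    refine Finset.sum_congr rfl fun b _ => ?_
    rw [Summable.tsum_finsetSum (fun b' _ => hsum2 b b')]
    refine Finset.sum_congr rfl fun b' _ => ?_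
    rw [tsum_mul_left, s0c_R]
  rw [← hG, ← htot, Complex.ofReal_re]
  exact hsumR.sum_le_tsum _ fun _ _ => sq_nonneg _

end Pool.Agent.H3B
end

-- from Lib.H3B.S0D
section

/-! # H3B (MP_443e5f, candidate T, module B), chunk S0D -/

namespace Pool.Agent.H3B

open Finset
open Pool.Agent.H44W (ee TF cut tII)

/-- Chunk S0D (S/M). PROOF. s0_cs1, then Cauchy-Schwarz over the at most 2M · 21n pairs (h, w), then s0_exp: ‖Tt‖⁴ ≤ 9 n² · 42 n M · ∑ = 378 n³ M ∑. -/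
theorem s0_four {n M : ℕ} (hn : 1 ≤ n) {a ε : ℤ} (ha : 1 ≤ a) (haM : a * (2 * M) ≤ 8 * n) (hε : ε = 0 ∨ ε = 1) {be W f g : ℤ → ℂ}
    (hW : ∀ x, ‖W x‖ ≤ 1) (hf : ∀ x, ‖f x‖ ≤ 1) (hfs : Sp n f) (hgs : Sp n g) :
    ‖Tt M a ε be W f g‖ ^ 4 ≤ 400 * n ^ 3 * M * ∑ h ∈ Ioo (-(M : ℤ)) M,
      (∑ b ∈ SS M ε, ∑ b' ∈ SS M ε, BB M ε be h b * (starRingEnd ℂ) (BB M ε be h b') *
        R (Gd g (a * (2 * h))) (a * (b' - b))).re := by
  set F : ℤ → ℤ → ℝ := fun h w => ‖Zh M a ε be g h w‖ with hF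
  have h1 := s0_cs1 hn ha haM hε (be := be) hW hf hfs hgs
  have h2 : (∑ h ∈ Ioo (-(M : ℤ)) M, ∑ w ∈ Icc (-(10 * n : ℤ)) (10 * n), F h w) ^ 2 ≤
      ((2 * M : ℝ) * (21 * n)) * ∑ h ∈ Ioo (-(M : ℤ)) M, ∑ w ∈ Icc (-(10 * n : ℤ)) (10 * n), F h w ^ 2 := by
    rw [← sum_product', ← sum_product' (f := fun h w => F h w ^ 2)]
    refine (sq_sum_le_card_mul_sum_sq).trans ?_
    refine mul_le_mul_of_nonneg_right ?_ (sum_nonneg fun _ _ => sq_nonneg _)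
    rw [card_product, Int.card_Ioo, Int.card_Icc, Nat.cast_mul]
    have h3 : (((M : ℤ) - -(M : ℤ) - 1).toNat : ℝ) ≤ 2 * M := by
      have : ((M : ℤ) - -(M : ℤ) - 1).toNat ≤ 2 * M := by omega
      exact_mod_cast this
    have h4 : (((10 * n : ℤ) + 1 - -(10 * n : ℤ)).toNat : ℝ) ≤ 21 * n := by
      have : ((10 * n : ℤ) + 1 - -(10 * n : ℤ)).toNat ≤ 21 * n := by omega
      exact_mod_cast this
    exact mul_le_mul h3 h4 (Nat.cast_nonneg _) (by positivity)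
  have h5 : ∑ h ∈ Ioo (-(M : ℤ)) M, ∑ w ∈ Icc (-(10 * n : ℤ)) (10 * n), F h w ^ 2 ≤
      ∑ h ∈ Ioo (-(M : ℤ)) M,
      (∑ b ∈ SS M ε, ∑ b' ∈ SS M ε, BB M ε be h b * (starRingEnd ℂ) (BB M ε be h b') *
        R (Gd g (a * (2 * h))) (a * (b' - b))).re := sum_le_sum fun h _ => s0_exp hgs h
  set Y : ℝ := ∑ h ∈ Ioo (-(M : ℤ)) M,
      (∑ b ∈ SS M ε, ∑ b' ∈ SS M ε, BB M ε be h b * (starRingEnd ℂ) (BB M ε be h b') *
        R (Gd g (a * (2 * h))) (a * (b' - b))).re with hY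
  set X : ℝ := ∑ h ∈ Ioo (-(M : ℤ)) M, ∑ w ∈ Icc (-(10 * n : ℤ)) (10 * n), F h w with hX
  set X2 : ℝ := ∑ h ∈ Ioo (-(M : ℤ)) M, ∑ w ∈ Icc (-(10 * n : ℤ)) (10 * n), F h w ^ 2 with hX2
  have hX20 : 0 ≤ X2 := sum_nonneg fun _ _ => sum_nonneg fun _ _ => sq_nonneg _
  have h6 : ‖Tt M a ε be W f g‖ ^ 4 = (‖Tt M a ε be W f g‖ ^ 2) ^ 2 := by ring
  have hn0 : (0 : ℝ) ≤ n := Nat.cast_nonneg _
  have hM0 : (0 : ℝ) ≤ M := Nat.cast_nonneg _
  calc ‖Tt M a ε be W f g‖ ^ 4 = (‖Tt M a ε be W f g‖ ^ 2) ^ 2 := h6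
    _ ≤ (3 * n * X) ^ 2 := pow_le_pow_left₀ (sq_nonneg _) h1 2
    _ = 9 * n ^ 2 * X ^ 2 := by ring
    _ ≤ 9 * n ^ 2 * (((2 * M : ℝ) * (21 * n)) * X2) := mul_le_mul_of_nonneg_left h2 (by positivity)
    _ = 378 * n ^ 3 * M * X2 := by ring
    _ ≤ 400 * n ^ 3 * M * Y := by
      refine mul_le_mul ?_ h5 hX20 (by positivity)
      have : (0 : ℝ) ≤ n ^ 3 * M := by positivity
      linarith

end Pool.Agent.H3B
end
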