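import Pool.Agent.Lib.H1M.RV3.M004
import Pool.Agent.Lib.H1M.RV3.M005
import Pool.Agent.Lib.H1M.RV3.M010
import Pool.Agent.Lib.H1M.RV3.M011
import Pool.Agent.Lib.H1M.RV3.M012
import Pool.Agent.Lib.H1M.RV3.M015

/-! Merged copies (to shorten the build) of Lib.H21T.B4, Lib.H21T.B5, Lib.H21T.B6, Lib.H21T.B9, Lib.H21T.B11, Lib.H21T.Z7, Lib.H44W.M3, Lib.H44W.W2, Lib.H44W.M4, Lib.H44W.M1, Lib.H44W.M5. -/

-- from Lib.H21T.B4
section

/-!
# Chunk B4 (S/M): the slope along a progression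
-/

namespace Pool.Agent.Lib.H21T

open Finset Pool.Agent.SZW

/-- For `a' = a + q j`: `yv x' q r a' - yv x' q r a = (x' / a' - x' / a) / q = - x' j / (a a')`, so the expression is `(j / s) (t - s x' / (a a'))`, at most
`|t - s x' / (a a')| ≤ |t - s x / a0 ^ 2| + s |x / a0 ^ 2 - x / (a a')| + s (x' - x) / (a a') ≤ 1 / S + S / S ^ 2 + S H / A ^ 2 ≤ 3 / S`
(`Ap`, `f2_var`, `hH`). Here `x' = x` or `x' = x + H`, so `0 ≤ x' - x ≤ H`. -/
theorem b4 {A x X S Λ : ℕ} (G : Geo A x X S Λ) {a0 s t x' H q r a j : ℕ} (h0 : A ≤ a0) (hs1 : 1 ≤ s) (hsS : s ≤ S) (hap : Ap x S a0 s t)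
    (hx1 : x ≤ x') (hx2 : x' ≤ x + H) (hH : H * S ^ 2 ≤ A ^ 2) (hq : 1 ≤ q) (h1 : a0 ≤ a) (h2 : a + q * j ≤ a0 + Λ) (hj : j ≤ s) :
    |yv x' q r (a + q * j) - (yv x' q r a - (t : ℝ) * j / s)| ≤ 3 / S := by
  have hA := G.hA
  have hS := G.hS
  have hq' : (0 : ℝ) < q := by exact_mod_cast hq
  have hs' : (0 : ℝ) < s := by exact_mod_cast hs1
  have hS' : (0 : ℝ) < S := by exact_mod_cast hS
  have hA' : (0 : ℝ) < A := by exact_mod_cast hA
  have hAa : (A : ℝ) ≤ a := by exact_mod_cast h0.trans h1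
  have ha' : (0 : ℝ) < a := lt_of_lt_of_le hA' hAa
  have hsS' : (s : ℝ) ≤ S := by exact_mod_cast hsS
  have hj' : (j : ℝ) ≤ s := by exact_mod_cast hj
  have hj0 : (0 : ℝ) ≤ j := by positivity
  obtain ⟨b, hb⟩ : ∃ b : ℕ, b = a + q * j := ⟨_, rfl⟩
  have hbr : (b : ℝ) = a + q * j := by
    rw [hb]
    push_cast
    ring
  rw [← hb] at h2 ⊢
  have hab : a ≤ b := by
    rw [hb]
    exact Nat.le_add_right _ _
  have hab' : (a : ℝ) ≤ b := by exact_mod_cast hab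
  have hb0 : (0 : ℝ) < b := lt_of_lt_of_le ha' hab'
  have e1 : yv x' q r b - (yv x' q r a - (t : ℝ) * j / s) = (j / s) * (t - s * ((x' : ℝ) / (a * b))) := by
    unfold yv
    have e2 : (x' : ℝ) / b - x' / a = - (x' * (q * j)) / (a * b) := by
      field_simp
      rw [hbr]
      ring
    have e3 : ((x' : ℝ) / b - r) / q - ((x' / a - r) / q - (t : ℝ) * j / s) = ((x' : ℝ) / b - x' / a) / q + (t : ℝ) * j / s := by
      ring
    rw [e3, e2]
    field_simp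
    ring
  have hv := f2_var G h0 h1 (by omega : a ≤ a0 + Λ) (h1.trans hab) h2
  unfold Ap at hap
  have hxx : (0 : ℝ) ≤ (x' : ℝ) - x := by
    have : (x : ℝ) ≤ x' := by exact_mod_cast hx1
    linarith
  have hxH : (x' : ℝ) - x ≤ H := by
    have : (x' : ℝ) ≤ ((x + H : ℕ) : ℝ) := by exact_mod_cast hx2
    push_cast at this
    linarith
  have hH' : (H : ℝ) * S ^ 2 ≤ A ^ 2 := by exact_mod_cast hH
  have hAA : (A : ℝ) ^ 2 ≤ a * b := by
    have := mul_le_mul hAa (hAa.trans hab') hA'.le ha'.le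
    nlinarith
  have h3 : s * (((x' : ℝ) - x) / (a * b)) ≤ 1 / S := by
    have h4 : ((x' : ℝ) - x) / (a * b) ≤ H / A ^ 2 := by
      apply div_le_div₀ (by positivity) hxH (by positivity) hAA
    have h5 : (H : ℝ) / A ^ 2 ≤ 1 / S ^ 2 := by
      rw [div_le_div_iff₀ (by positivity) (by positivity)]
      linarith
    have h6 : (0 : ℝ) ≤ ((x' : ℝ) - x) / (a * b) := by positivity
    calc s * (((x' : ℝ) - x) / (a * b)) ≤ S * (1 / S ^ 2) := mul_le_mul hsS' (h4.trans h5) h6 hS'.le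
      _ = 1 / S := by field_simp
  have h3' : 0 ≤ s * (((x' : ℝ) - x) / (a * b)) := by positivity
  have h7 : |(s : ℝ) * ((x : ℝ) / (a0 : ℝ) ^ 2 - (x : ℝ) / ((a : ℝ) * b))| ≤ 1 / S := by
    rw [abs_mul, abs_of_pos hs']
    calc (s : ℝ) * |(x : ℝ) / (a0 : ℝ) ^ 2 - (x : ℝ) / ((a : ℝ) * b)| ≤ S * (1 / S ^ 2) :=
          mul_le_mul hsS' hv (abs_nonneg _) hS'.le
      _ = 1 / S := by field_simp
  have e4 : (t : ℝ) - s * ((x' : ℝ) / (a * b)) = - (s * (x / (a0 : ℝ) ^ 2) - t) +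
      s * ((x : ℝ) / (a0 : ℝ) ^ 2 - (x : ℝ) / ((a : ℝ) * b)) - s * (((x' : ℝ) - x) / (a * b)) := by
    rw [sub_div]
    ring
  have h8 : |(t : ℝ) - s * ((x' : ℝ) / (a * b))| ≤ 3 / S := by
    have e5 : (3 : ℝ) / S = 1 / S + 1 / S + 1 / S := by ring
    rw [e4, e5]
    rw [abs_le] at hap h7 ⊢
    constructor
    · linarith [hap.1, hap.2, h7.1, h7.2]
    · linarith [hap.1, hap.2, h7.1, h7.2]
  rw [e1, abs_mul]
  have h9 : |(j : ℝ) / s| ≤ 1 := by
    rw [abs_of_nonneg (by positivity), div_le_one hs']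
    exact hj'
  calc |(j : ℝ) / s| * |(t : ℝ) - s * ((x' : ℝ) / (a * b))| ≤ 1 * |(t : ℝ) - s * ((x' : ℝ) / (a * b))| :=
        mul_le_mul_of_nonneg_right h9 (abs_nonneg _)
    _ ≤ 3 / S := by rw [one_mul]; exact h8

end Pool.Agent.Lib.H21T
end

-- from Lib.H21T.B5
section

/-!
# Chunk B5 (S/M): one piece
-/

namespace Pool.Agent.Lib.H21T

open Finset Pool.Agent.SZW

/-- A residue class in an interval is a progression: if the set is not empty let `a` be its smallest element and `W` its cardinality; it is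
the image of `range W` under `j ↦ a + q j`. -/
theorem b5_ap (a0 a1 q r : ℕ) (hq : 1 ≤ q) : ∃ a W : ℕ, a0 ≤ a ∧ (∀ j < W, a + q * j < a1) ∧ W ≤ a1 - a0 ∧
    (Ico a0 a1).filter (fun a => a % q = r) = (range W).image fun j => a + q * j := by
  rcases Finset.eq_empty_or_nonempty ((Ico a0 a1).filter (fun a => a % q = r)) with h | h
  · refine ⟨a0, 0, le_refl _, ?_, Nat.zero_le _, ?_⟩
    · intro j hj
      omega
    · rw [h]
      simp
  · obtain ⟨a, ha⟩ : ∃ a, a = ((Ico a0 a1).filter (fun a => a % q = r)).min' h := ⟨_, rfl⟩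
    have ham : a ∈ (Ico a0 a1).filter (fun a => a % q = r) := by
      rw [ha]
      exact Finset.min'_mem _ h
    have hmin : ∀ b ∈ (Ico a0 a1).filter (fun a => a % q = r), a ≤ b := by
      intro b hb
      rw [ha]
      exact Finset.min'_le _ b hb
    rw [mem_filter, mem_Ico] at ham
    obtain ⟨⟨h1, h2⟩, h3⟩ := ham
    have hW : ∀ j, j < (a1 - a - 1) / q + 1 → a + q * j < a1 := by
      intro j hj
      have h4 : j ≤ (a1 - a - 1) / q := by omega
      have h5 : j * q ≤ a1 - a - 1 := (Nat.le_div_iff_mul_le (by omega)).1 h4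
      have h6 : q * j = j * q := Nat.mul_comm q j
      omega
    refine ⟨a, (a1 - a - 1) / q + 1, h1, hW, ?_, ?_⟩
    · have := Nat.div_le_self (a1 - a - 1) q
      omega
    · ext b
      rw [mem_image]
      constructor
      · intro hb
        have h4 := hmin b hb
        rw [mem_filter, mem_Ico] at hb
        have h5 : a ≡ b [MOD q] := by
          unfold Nat.ModEq
          rw [h3, hb.2]
        obtain ⟨j, hj⟩ := (Nat.modEq_iff_dvd' h4).1 h5
        refine ⟨j, ?_, by omega⟩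
        rw [mem_range]
        have h6 : j * q ≤ a1 - a - 1 := by
          rw [Nat.mul_comm]
          omega
        have h7 := (Nat.le_div_iff_mul_le (by omega : 0 < q)).2 h6
        omega
      · rintro ⟨j, hj, rfl⟩
        rw [mem_range] at hj
        rw [mem_filter, mem_Ico]
        refine ⟨⟨by omega, hW j hj⟩, ?_⟩
        rw [Nat.add_mul_mod_self_left]
        exact h3

/-- `b5_ap` and `b3` for `y j = yv x q r' (a + q j)`, `z j = yv (x + H) q r' (a + q j)`, `η = 3 / S` (`b4` with `a + q l s` in place of `a`; for `(l + 1) s ≤ W`, `j < s`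
the point `a + q (l s + j)` is `< a1 ≤ a0 + Λ`). The map `j ↦ a + q j` is injective. `W ≤ Λ`, so the bound is `W / s + 12 W / S + s ≤ Λ (1 / s + 12 / S) + S`. -/
theorem b5 {A x X S Λ : ℕ} (G : Geo A x X S Λ) {a0 a1 s t H q r r' : ℕ} (h0 : A ≤ a0) (h1 : a1 ≤ a0 + Λ) (hs1 : 1 ≤ s) (hsS : s ≤ S)
    (hco : Nat.Coprime s t) (hap : Ap x S a0 s t) (hH : H * S ^ 2 ≤ A ^ 2) (hq : 1 ≤ q) :
    |∑ a ∈ (Ico a0 a1).filter (fun a => a % q = r), (Fr (yv (x + H) q r' a) - Fr (yv x q r' a))| ≤ Λ * (1 / (s : ℝ) + 12 / S) + S := by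
  obtain ⟨a, W, ha, hW1, hW2, hT⟩ := b5_ap a0 a1 q r hq
  have hS := G.hS
  have hS' : (0 : ℝ) < S := by exact_mod_cast hS
  have hs' : (0 : ℝ) < s := by exact_mod_cast hs1
  rw [hT, Finset.sum_image]
  · have hb : ∀ x' : ℕ, x ≤ x' → x' ≤ x + H → ∀ l j, (l + 1) * s ≤ W → j < s →
        |yv x' q r' (a + q * (l * s + j)) - (yv x' q r' (a + q * (l * s)) - (t : ℝ) * j / s)| ≤ 3 / S := by
      intro x' hx1 hx2 l j hl hj
      have e1 : a + q * (l * s + j) = a + q * (l * s) + q * j := by ring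
      have h2 : l * s + j < W := by
        have : (l + 1) * s = l * s + s := by ring
        omega
      have h3 := hW1 _ h2
      rw [e1] at h3 ⊢
      exact b4 G h0 hs1 hsS hap hx1 hx2 hH hq (by omega) (by omega) hj.le
    have h3 := b3 s t W hs1 hco (fun j => yv x q r' (a + q * j)) (fun j => yv (x + H) q r' (a + q * j)) (3 / S) (by positivity)
      (hb x (le_refl _) (Nat.le_add_right _ _)) (hb (x + H) (Nat.le_add_right _ _) (le_refl _))
    refine h3.trans ?_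
    have hWΛ : (W : ℝ) ≤ Λ := by
      have : W ≤ Λ := by omega
      exact_mod_cast this
    have hsS' : (s : ℝ) ≤ S := by exact_mod_cast hsS
    have e2 : (W : ℝ) / s * (1 + 4 * s * (3 / S)) = W * (1 / (s : ℝ) + 12 / S) := by
      field_simp
      ring
    rw [e2]
    have h4 : (W : ℝ) * (1 / (s : ℝ) + 12 / S) ≤ Λ * (1 / (s : ℝ) + 12 / S) :=
      mul_le_mul_of_nonneg_right hWΛ (by positivity)
    linarith
  · intro i _ j _ hij
    have h5 : q * i = q * j := by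
      have : a + q * i = a + q * j := hij
      omega
    exact Nat.eq_of_mul_eq_mul_left (by omega) h5

end Pool.Agent.Lib.H21T
end

-- from Lib.H21T.B6
section

/-!
# Chunk B6 (S/M): all pieces
-/

namespace Pool.Agent.Lib.H21T

open Finset Pool.Agent.SZW

/-- `s6_part` (with `f a = if a % q = r then .. else 0`). Pieces with `s i ≥ s0`: `b5`, at most `Λ (1 / s0 + 12 / S) + S`; the other pieces (at most `291 X s0 S`, `f4_small`):
at most `Λ` terms of absolute value at most `1`. `nJ A1 A2 Λ ≤ A / Λ + 1 ≤ 2 A / Λ` (`A2 - A1 ≤ A`, `Λ ≤ A` by `f2_small`). Directions from `exists_dir`.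
Total: `2 A (1 / s0 + 12 / S) + 2 A S / Λ + 291 X s0 S Λ`. -/
theorem b6 {A x X S Λ A1 A2 : ℕ} (G : Geo A x X S Λ) (h1 : A ≤ A1) (h2 : A1 ≤ A2) (h3 : A2 ≤ 2 * A) {H q r r' s0 : ℕ}
    (hH : H * S ^ 2 ≤ A ^ 2) (hq : 1 ≤ q) (hs0 : 1 ≤ s0) :
    |∑ a ∈ (Ico A1 A2).filter (fun a => a % q = r), (Fr (yv (x + H) q r' a) - Fr (yv x q r' a))| ≤
      2 * A * (1 / (s0 : ℝ) + 12 / S) + 2 * A * S / Λ + 291 * X * s0 * S * Λ := by
  obtain ⟨sd, td, hDall⟩ := exists_dir A1 Λ x S G.hS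
  have hD := hDall (nJ A1 A2 Λ)
  have hS' : (0 : ℝ) < S := by exact_mod_cast G.hS
  have hΛ' : (0 : ℝ) < Λ := by exact_mod_cast G.hΛ
  have hs0' : (0 : ℝ) < s0 := by exact_mod_cast hs0
  have hA' : (0 : ℝ) < A := by exact_mod_cast G.hA
  have e0 : ∑ a ∈ (Ico A1 A2).filter (fun a => a % q = r), (Fr (yv (x + H) q r' a) - Fr (yv x q r' a)) =
      ∑ i ∈ range (nJ A1 A2 Λ), ∑ a ∈ (Ico (pa A1 Λ i) (pb A1 A2 Λ i)).filter (fun a => a % q = r),
        (Fr (yv (x + H) q r' a) - Fr (yv x q r' a)) := by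
    rw [Finset.sum_filter, s6_part G.hΛ h2]
    refine Finset.sum_congr rfl fun i _ => ?_
    rw [Finset.sum_filter]
  obtain ⟨B, hB⟩ : ∃ B : ℝ, B = Λ * (1 / (s0 : ℝ) + 12 / S) + S := ⟨_, rfl⟩
  have hB0 : 0 ≤ B := by
    rw [hB]
    positivity
  have hpb : ∀ i, pb A1 A2 Λ i ≤ pa A1 Λ i + Λ := by
    intro i
    unfold pb pa
    have : (i + 1) * Λ = i * Λ + Λ := by ring
    exact (min_le_right _ _).trans (by omega)
  have hterm : ∀ i ∈ range (nJ A1 A2 Λ), |∑ a ∈ (Ico (pa A1 Λ i) (pb A1 A2 Λ i)).filter (fun a => a % q = r),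
        (Fr (yv (x + H) q r' a) - Fr (yv x q r' a))| ≤ B + (if sd i < s0 then (Λ : ℝ) else 0) := by
    intro i hi
    rw [mem_range] at hi
    by_cases hc : sd i < s0
    · rw [if_pos hc]
      have h4 : |∑ a ∈ (Ico (pa A1 Λ i) (pb A1 A2 Λ i)).filter (fun a => a % q = r),
          (Fr (yv (x + H) q r' a) - Fr (yv x q r' a))| ≤ Λ := by
        refine (Finset.abs_sum_le_sum_abs _ _).trans ?_
        have h5 : ∑ a ∈ (Ico (pa A1 Λ i) (pb A1 A2 Λ i)).filter (fun a => a % q = r),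
            |Fr (yv (x + H) q r' a) - Fr (yv x q r' a)| ≤
            ∑ _a ∈ (Ico (pa A1 Λ i) (pb A1 A2 Λ i)).filter (fun a => a % q = r), (1 : ℝ) :=
          Finset.sum_le_sum fun j _ => b3_fr _ _
        refine h5.trans ?_
        rw [Finset.sum_const, nsmul_eq_mul, mul_one]
        have h6 : ((Ico (pa A1 Λ i) (pb A1 A2 Λ i)).filter (fun a => a % q = r)).card ≤ Λ := by
          refine (Finset.card_filter_le _ _).trans ?_
          rw [Nat.card_Ico]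
          have := hpb i
          omega
        exact_mod_cast h6
      linarith
    · rw [if_neg hc, add_zero]
      have hsi : s0 ≤ sd i := not_lt.1 hc
      have h4 := b5 (r := r) (r' := r') G (show A ≤ pa A1 Λ i from h1.trans (Nat.le_add_right _ _)) (hpb i) (hD.s1 i hi) (hD.sS i hi)
        (hD.co i hi) (hD.ap i hi) hH hq
      refine h4.trans ?_
      rw [hB]
      have h5 : (s0 : ℝ) ≤ sd i := by exact_mod_cast hsi
      have h6 : 1 / (sd i : ℝ) ≤ 1 / s0 := one_div_le_one_div_of_le hs0' h5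
      have h7 : (Λ : ℝ) * (1 / (sd i : ℝ) + 12 / S) ≤ Λ * (1 / (s0 : ℝ) + 12 / S) :=
        mul_le_mul_of_nonneg_left (by linarith) hΛ'.le
      linarith
  have hnJ : (nJ A1 A2 Λ : ℝ) * Λ ≤ 2 * A := by
    have h4 : nJ A1 A2 Λ * Λ ≤ 2 * A := by
      unfold nJ
      have h5 := Nat.div_mul_le_self (A2 - A1) Λ
      have h6 : Λ ≤ A := by
        have h7 := f2_small G
        have h8 : 1 ≤ S ^ 2 := Nat.one_le_pow _ _ G.hS
        calc Λ = Λ * 1 := (Nat.mul_one _).symm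
          _ ≤ Λ * S ^ 2 := Nat.mul_le_mul_left _ h8
          _ ≤ A := h7
      rw [Nat.add_mul, Nat.one_mul]
      omega
    exact_mod_cast h4
  have hsmall := f4_small G h1 h2 h3 hD s0
  rw [e0]
  refine (Finset.abs_sum_le_sum_abs _ _).trans ((Finset.sum_le_sum hterm).trans ?_)
  rw [Finset.sum_add_distrib, Finset.sum_const, card_range, nsmul_eq_mul, ← Finset.sum_filter, Finset.sum_const, nsmul_eq_mul]
  have h8 : (nJ A1 A2 Λ : ℝ) * B ≤ 2 * A * (1 / (s0 : ℝ) + 12 / S) + 2 * A * S / Λ := by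
    have h9 : (nJ A1 A2 Λ : ℝ) * B = (nJ A1 A2 Λ * Λ) * (1 / (s0 : ℝ) + 12 / S) + (nJ A1 A2 Λ * Λ) * (S / Λ) := by
      rw [hB]
      field_simp
    have h10 : (nJ A1 A2 Λ * Λ : ℝ) * (1 / (s0 : ℝ) + 12 / S) ≤ 2 * A * (1 / (s0 : ℝ) + 12 / S) :=
      mul_le_mul_of_nonneg_right hnJ (by positivity)
    have h11 : (nJ A1 A2 Λ * Λ : ℝ) * (S / Λ) ≤ 2 * A * (S / Λ) :=
      mul_le_mul_of_nonneg_right hnJ (by positivity)
    have h12 : 2 * (A : ℝ) * S / Λ = 2 * A * (S / Λ) := by ring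
    rw [h9, h12]
    linarith
  have h13 := mul_le_mul_of_nonneg_right hsmall hΛ'.le
  linarith

end Pool.Agent.Lib.H21T
end

-- from Lib.H21T.B9
section

/-!
# Chunk B9 (S/M): the number of pairs in a residue class
-/

namespace Pool.Agent.Lib.H21T

open Finset Pool.Agent.SZW

theorem b9_cnt (A1 A2 x H q r1 r2 : ℕ) : cnt A1 A2 x H q r1 r2 =
    ∑ a ∈ (Ico A1 A2).filter (fun a => a % q = r1),
      ((range (x + H)).filter fun b => (x ≤ a * b ∧ a * b < x + H) ∧ b % q = r2).card := by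
  unfold cnt Rg
  rw [Finset.filter_filter, Finset.card_filter, Finset.sum_product, Finset.sum_filter]
  refine Finset.sum_congr rfl fun a _ => ?_
  split_ifs with h
  · rw [Finset.card_filter]
    refine Finset.sum_congr rfl fun b _ => ?_
    simp only [h, true_and]
  · refine Finset.sum_eq_zero fun b _ => ?_
    rw [if_neg]
    rintro ⟨-, h1, -⟩
    exact h h1

/-- `cnt = ∑_{a ∈ Ico A1 A2, a % q = r1} #{b : x ≤ a b < x + H, b % q = r2}` (fibres of `Rg`), `b7` for each `a`, then `b8` (times `H / q`) and `b6`. -/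
theorem b9 {A x X S Λ A1 A2 : ℕ} (G : Geo A x X S Λ) (h1 : A ≤ A1) (h2 : A1 ≤ A2) (h3 : A2 ≤ 2 * A) {H q r1 r2 s0 : ℕ}
    (hH : H * S ^ 2 ≤ A ^ 2) (hq : 1 ≤ q) (hqA : 2 * q ≤ A) (hr1 : r1 < q) (hr2 : r2 < q) (hs0 : 1 ≤ s0) :
    |(cnt A1 A2 x H q r1 r2 : ℝ) - (H : ℝ) / q ^ 2 * (Real.log A2 - Real.log A1)| ≤
      2 * A * (1 / (s0 : ℝ) + 12 / S) + 2 * A * S / Λ + 291 * X * s0 * S * Λ + 2 * H / A := by
  have hx : 1 ≤ x := by
    have ha := G.hA
    have hb := G.hx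
    by_contra hcon
    have h4 : x = 0 := by omega
    rw [h4, mul_zero] at hb
    have : 1 ≤ A ^ 2 := Nat.one_le_pow _ _ ha
    omega
  have hq0 : (0:ℝ) < q := by exact_mod_cast hq
  have hA0 : (0:ℝ) < A := by exact_mod_cast G.hA
  have hAA1 : (A:ℝ) ≤ A1 := by exact_mod_cast h1
  have hcnt : (cnt A1 A2 x H q r1 r2 : ℝ) = (H : ℝ) / q * (∑ a ∈ (Ico A1 A2).filter (fun a => a % q = r1), 1 / (a : ℝ)) +
      ∑ a ∈ (Ico A1 A2).filter (fun a => a % q = r1), (Fr (yv (x + H) q r2 a) - Fr (yv x q r2 a)) := by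
    rw [b9_cnt, Nat.cast_sum, Finset.mul_sum, ← Finset.sum_add_distrib]
    refine Finset.sum_congr rfl fun a ha => ?_
    have ha1 : 1 ≤ a := by
      have := (Finset.mem_Ico.1 (Finset.mem_filter.1 ha).1).1
      have := G.hA
      omega
    rw [b7 x H q r2 a hx hq hr2 ha1]
    have ha0 : (a : ℝ) ≠ 0 := by positivity
    congr 1
    field_simp
  have e1 := b6 G h1 h2 h3 (r := r1) (r' := r2) hH hq hs0
  have e2 := b8 A1 A2 q r1 hq hr1 (by omega) h2
  have e3 : (cnt A1 A2 x H q r1 r2 : ℝ) - (H : ℝ) / q ^ 2 * (Real.log A2 - Real.log A1) =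
      (H : ℝ) / q * (∑ a ∈ (Ico A1 A2).filter (fun a => a % q = r1), 1 / (a : ℝ) - (Real.log A2 - Real.log A1) / q) +
      ∑ a ∈ (Ico A1 A2).filter (fun a => a % q = r1), (Fr (yv (x + H) q r2 a) - Fr (yv x q r2 a)) := by
    rw [hcnt]
    field_simp
    ring
  rw [e3]
  refine (abs_add_le _ _).trans ?_
  have e4 : |(H : ℝ) / q * (∑ a ∈ (Ico A1 A2).filter (fun a => a % q = r1), 1 / (a : ℝ) - (Real.log A2 - Real.log A1) / q)| ≤
      2 * H / A := by
    rw [abs_mul, abs_of_nonneg (by positivity : (0:ℝ) ≤ (H : ℝ) / q)]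
    have h5 : (H : ℝ) / q ≤ H := div_le_self (by positivity) (by exact_mod_cast hq)
    have h6 : (2:ℝ) / A1 ≤ 2 / A := by
      apply div_le_div_of_nonneg_left (by norm_num) hA0 hAA1
    calc (H : ℝ) / q * |∑ a ∈ (Ico A1 A2).filter (fun a => a % q = r1), 1 / (a : ℝ) - (Real.log A2 - Real.log A1) / q|
        ≤ H * (2 / A) := mul_le_mul h5 (e2.trans h6) (abs_nonneg _) (by positivity)
      _ = 2 * H / A := by ring
  linarith

end Pool.Agent.Lib.H21T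
end

-- from Lib.H21T.B11
section

/-!
# Chunk B11 (S/M): the exponential sum at a rational
-/

namespace Pool.Agent.Lib.H21T

open Finset Pool.Agent.SZW

theorem b11_ee (q : ℕ) (p : ℤ) (hq : 1 ≤ q) (a b : ℕ) :
    ee ((p : ℝ) / q * ((a : ℝ) * b)) = ee ((p : ℝ) / q * (((a % q : ℕ) : ℝ) * ((b % q : ℕ) : ℝ))) := by
  have hq0 : (q : ℝ) ≠ 0 := by positivity
  have h1 : (a : ℝ) = q * ((a / q : ℕ) : ℝ) + ((a % q : ℕ) : ℝ) := by exact_mod_cast (Nat.div_add_mod a q).symm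
  have h2 : (b : ℝ) = q * ((b / q : ℕ) : ℝ) + ((b % q : ℕ) : ℝ) := by exact_mod_cast (Nat.div_add_mod b q).symm
  generalize a / q = a' at h1
  generalize b / q = b' at h2
  generalize a % q = ra at h1 ⊢
  generalize b % q = rb at h2 ⊢
  have h3 : (p : ℝ) / q * ((a : ℝ) * b) = (p : ℝ) / q * ((ra : ℝ) * (rb : ℝ)) +
      ((p * (q * a' * b' + a' * rb + ra * b') : ℤ) : ℝ) := by
    push_cast
    rw [h1, h2]
    field_simp
    ring
  rw [h3, ee_add, ee_int, mul_one]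

theorem b11_SR (A1 A2 x H q : ℕ) (p : ℤ) (hq : 1 ≤ q) :
    SR ((p : ℝ) / q) A1 A2 x H = ∑ r1 ∈ range q, ∑ r2 ∈ range q, ee ((p : ℝ) / q * ((r1 : ℝ) * r2)) * (cnt A1 A2 x H q r1 r2 : ℂ) := by
  unfold SR
  have hm : ∀ pp ∈ Rg A1 A2 x H, (pp.1 % q, pp.2 % q) ∈ range q ×ˢ range q := by
    intro pp _
    rw [Finset.mem_product, Finset.mem_range, Finset.mem_range]
    exact ⟨Nat.mod_lt _ hq, Nat.mod_lt _ hq⟩
  rw [← Finset.sum_fiberwise_of_maps_to hm, Finset.sum_product]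
  refine Finset.sum_congr rfl fun r1 _ => Finset.sum_congr rfl fun r2 _ => ?_
  have h1 : ∀ pp ∈ (Rg A1 A2 x H).filter (fun pp => (pp.1 % q, pp.2 % q) = (r1, r2)),
      ee ((p : ℝ) / q * ((pp.1 : ℝ) * pp.2)) = ee ((p : ℝ) / q * ((r1 : ℝ) * r2)) := by
    intro pp hpp
    have h2 := (Finset.mem_filter.1 hpp).2
    rw [Prod.mk.injEq] at h2
    rw [b11_ee q p hq, h2.1, h2.2]
  rw [Finset.sum_congr rfl h1, Finset.sum_const, nsmul_eq_mul, mul_comm]
  congr 2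
  unfold cnt
  congr 1
  ext pp
  simp only [Finset.mem_filter, Prod.mk.injEq]

/-- `ee (p a b / q)` depends only on `a % q`, `b % q` (`ee_int`); so `SR (p / q) = ∑_{r1, r2 < q} ee (p r1 r2 / q) cnt(r1, r2)`. Replace `cnt` by the main term of `b9` (`q ^ 2` errors) and
use `b10`: the main term is `q * (H / q ^ 2) (log A2 - log A1)`. -/
theorem b11 {A x X S Λ A1 A2 : ℕ} (G : Geo A x X S Λ) (h1 : A ≤ A1) (h2 : A1 ≤ A2) (h3 : A2 ≤ 2 * A) {H q s0 : ℕ} {p : ℤ}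
    (hH : H * S ^ 2 ≤ A ^ 2) (hq : 1 ≤ q) (hqA : 2 * q ≤ A) (hp : IsCoprime p (q : ℤ)) (hs0 : 1 ≤ s0) :
    ‖SR ((p : ℝ) / q) A1 A2 x H - (((H : ℝ) / q * (Real.log A2 - Real.log A1) : ℝ) : ℂ)‖ ≤
      (q : ℝ) ^ 2 * (2 * A * (1 / (s0 : ℝ) + 12 / S) + 2 * A * S / Λ + 291 * X * s0 * S * Λ + 2 * H / A) := by
  have hq0 : (q : ℝ) ≠ 0 := by positivity
  set c0 : ℝ := (H : ℝ) / q ^ 2 * (Real.log A2 - Real.log A1) with hc0
  have e1 : (((H : ℝ) / q * (Real.log A2 - Real.log A1) : ℝ) : ℂ) =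
      ∑ r1 ∈ range q, ∑ r2 ∈ range q, ee ((p : ℝ) / q * ((r1 : ℝ) * r2)) * (c0 : ℂ) := by
    have h4 := b10 q p hq hp
    have h5 : ∑ r1 ∈ range q, ∑ r2 ∈ range q, ee ((p : ℝ) / q * ((r1 : ℝ) * r2)) * (c0 : ℂ) =
        (∑ r1 ∈ range q, ∑ r2 ∈ range q, ee ((p : ℝ) / q * ((r1 : ℝ) * r2))) * (c0 : ℂ) := by
      rw [Finset.sum_mul]
      refine Finset.sum_congr rfl fun r1 _ => ?_
      rw [Finset.sum_mul]
    rw [h5, h4]
    have h6 : (H : ℝ) / q * (Real.log A2 - Real.log A1) = q * c0 := by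
      rw [hc0]
      field_simp
    rw [h6]
    push_cast
    rfl
  rw [b11_SR A1 A2 x H q p hq, e1, ← Finset.sum_sub_distrib]
  refine (norm_sum_le _ _).trans ?_
  set bd : ℝ := 2 * A * (1 / (s0 : ℝ) + 12 / S) + 2 * A * S / Λ + 291 * X * s0 * S * Λ + 2 * H / A with hbd
  have h4 : ∀ r1 ∈ range q, ‖∑ r2 ∈ range q, ee ((p : ℝ) / q * ((r1 : ℝ) * r2)) * (cnt A1 A2 x H q r1 r2 : ℂ) -
      ∑ r2 ∈ range q, ee ((p : ℝ) / q * ((r1 : ℝ) * r2)) * (c0 : ℂ)‖ ≤ q * bd := by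
    intro r1 hr1
    rw [← Finset.sum_sub_distrib]
    refine (norm_sum_le _ _).trans ?_
    have h5 : ∀ r2 ∈ range q, ‖ee ((p : ℝ) / q * ((r1 : ℝ) * r2)) * (cnt A1 A2 x H q r1 r2 : ℂ) -
        ee ((p : ℝ) / q * ((r1 : ℝ) * r2)) * (c0 : ℂ)‖ ≤ bd := by
      intro r2 hr2
      rw [← mul_sub, norm_mul, norm_ee, one_mul]
      have h6 := b9 G h1 h2 h3 (r1 := r1) (r2 := r2) hH hq hqA (Finset.mem_range.1 hr1) (Finset.mem_range.1 hr2) hs0
      have h7 : ((cnt A1 A2 x H q r1 r2 : ℂ) - (c0 : ℂ)) = (((cnt A1 A2 x H q r1 r2 : ℝ) - c0 : ℝ) : ℂ) := by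
        push_cast
        rfl
      rw [h7, Complex.norm_real, Real.norm_eq_abs]
      exact h6
    refine (Finset.sum_le_sum h5).trans ?_
    rw [Finset.sum_const, Finset.card_range, nsmul_eq_mul]
  refine (Finset.sum_le_sum h4).trans ?_
  rw [Finset.sum_const, Finset.card_range, nsmul_eq_mul]
  apply le_of_eq
  ring

end Pool.Agent.Lib.H21T
end

-- from Lib.H21T.Z7
section

/-!
# Chunk Z7 (S): long intervals
-/

namespace Pool.Agent.Lib.H21T

open Finset Pool.Agent.SZW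

/-- Strong induction on `H`: if `H ≤ 3 h0` it is the hypothesis; otherwise split off an interval of length `⌈h0⌉₊` (`h0 ≤ ⌈h0⌉₊ ≤ h0 + 1 ≤ 2 h0`), the rest has length
`> 3 h0 - 2 h0`. -/
theorem z7 (F : ℕ → ℂ) (h0 c : ℝ) (h1 : 1 ≤ h0) (hc : 0 ≤ c)
    (h : ∀ y k : ℕ, h0 ≤ k → (k : ℝ) ≤ 3 * h0 → ‖∑ m ∈ Ico y (y + k), F m‖ ≤ c * k) (x H : ℕ) (hH : h0 ≤ H) :
    ‖∑ m ∈ Ico x (x + H), F m‖ ≤ c * H := by
  induction H using Nat.strong_induction_on generalizing x with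
  | _ H ih =>
    by_cases h3 : (H : ℝ) ≤ 3 * h0
    · exact h x H hH h3
    · push Not at h3
      set k := ⌈h0⌉₊ with hk
      have hk0 : h0 ≤ k := Nat.le_ceil h0
      have hk1 : (k : ℝ) < h0 + 1 := Nat.ceil_lt_add_one (by linarith)
      have hkH : k ≤ H := by
        have : (k : ℝ) ≤ H := by linarith
        exact_mod_cast this
      have hkpos : 1 ≤ k := by
        have : (1 : ℝ) ≤ k := by linarith
        exact_mod_cast this
      obtain ⟨j, hj⟩ := Nat.exists_eq_add_of_le hkH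
      have hjr : (H : ℝ) = k + j := by rw [hj]; push_cast; ring
      have hj1 : h0 ≤ (j : ℝ) := by linarith
      have hjH : j < H := by omega
      have hsum : ∑ m ∈ Ico x (x + H), F m
          = ∑ m ∈ Ico x (x + k), F m + ∑ m ∈ Ico (x + k) (x + k + j), F m := by
        rw [hj, ← Nat.add_assoc]
        exact (Finset.sum_Ico_consecutive F (by omega) (by omega)).symm
      rw [hsum]
      calc ‖∑ m ∈ Ico x (x + k), F m + ∑ m ∈ Ico (x + k) (x + k + j), F m‖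
          ≤ ‖∑ m ∈ Ico x (x + k), F m‖ + ‖∑ m ∈ Ico (x + k) (x + k + j), F m‖ := norm_add_le _ _
        _ ≤ c * k + c * j := add_le_add (h x k hk0 (by linarith)) (ih j hjH (x + k) hj1)
        _ = c * H := by rw [hjr]; ring

end Pool.Agent.Lib.H21T
end

-- from Lib.H44W.M3
section
/-!
CHUNK M3 (M). The factor lbox of the model: expansion in additive characters.
lboxr q .. m is lbox .. (m/q) written with log m - log q (so it makes sense for all m).
(a) lboxr_eq: for k >= 1, q >= 1: lboxr q A1 A2 B1 B2 (q k) = lbox A1 A2 B1 B2 k (Real.log_mul).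
(b) lbox_bd: 0 <= lbox <= 1 if A2 <= 2 A1, 1 <= A1 (min (log A2) .. - max (log A1) .. <= log A2 - log A1 <= log 2 <= 1; for A2 = 0 use
log 0 = 0). The same for lboxr.
(c) lbox_empty: if A2 < A1 (or B2 < B1) then lbox = 0, and lboxr = 0: (min (log A2) s2 - max (log A1) s1 <= log A2 - log A1 <= 0; for
B2 < B1, B2 >= 1: s2 - s1 = log B2 - log B1 <= 0; if B2 = 0, log B2 = 0 <= log B1.)
(d) lboxr_rep: put a1 = log A1 <= a2 = log A2, s1(m) = log m - log q - log B2 <= s2(m) = log m - log q - log B1 and cl s = min a2 (max a1 s).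
Then max 0 (min a2 s2 - max a1 s1) = cl s2 - cl s1 (case distinction; a1 <= a2, s1 <= s2). cl s2(m) and cl s1(m) are increasing in
m >= 1 with values in [a1, a2], so sum over j < 2n of |F (j+3) - F (j+2)| <= 2 (a2 - a1) <= 2 log 2 <= 2 (telescoping, Finset.sum_range_sub).
Rep.bv (H81E): Rep n (|F 2| + (3 + log n) * 2) F, and |F 2| <= 1: 1 + 2 (3 + log n) <= 7 (1 + log n).
-/
namespace Pool.Agent.H44W
open Finset

/-- lbox at m/q. -/
noncomputable def lboxr (q A1 A2 B1 B2 : ℕ) (m : ℤ) : ℝ :=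
  max 0 (min (Real.log A2) (Real.log m - Real.log q - Real.log B1) -
    max (Real.log A1) (Real.log m - Real.log q - Real.log B2))

theorem lboxr_eq (q A1 A2 B1 B2 k : ℕ) (hq : 1 ≤ q) (hk : 1 ≤ k) :
    lboxr q A1 A2 B1 B2 ((q:ℤ) * k) = Pool.Agent.Lib.H21T.lbox A1 A2 B1 B2 k := by
  unfold lboxr Pool.Agent.Lib.H21T.lbox
  have hq0 : (q : ℝ) ≠ 0 := by
    have : (1 : ℝ) ≤ q := by exact_mod_cast hq
    positivity
  have hk0 : (k : ℝ) ≠ 0 := by
    have : (1 : ℝ) ≤ k := by exact_mod_cast hk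
    positivity
  have h1 : Real.log (((q : ℤ) * k : ℤ) : ℝ) - Real.log q = Real.log k := by
    push_cast
    rw [Real.log_mul hq0 hk0]
    ring
  rw [h1]

theorem m3_logle (A B : ℕ) (hB : 1 ≤ B) (h : A ≤ B) : Real.log A ≤ Real.log B := by
  rcases Nat.eq_zero_or_pos A with hA | hA
  · rw [hA, Nat.cast_zero, Real.log_zero]
    exact Real.log_nonneg (by exact_mod_cast hB)
  · exact Real.log_le_log (by exact_mod_cast hA) (by exact_mod_cast h)

theorem m3_two (A1 A2 : ℕ) (hA : 1 ≤ A1) (hA2 : A2 ≤ 2 * A1) : Real.log A2 - Real.log A1 ≤ 1 := by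
  have h1 := m3_logle A2 (2 * A1) (by omega) hA2
  have hA0 : (A1 : ℝ) ≠ 0 := by
    have : (1 : ℝ) ≤ A1 := by exact_mod_cast hA
    positivity
  have h2 : Real.log ((2 * A1 : ℕ) : ℝ) = Real.log 2 + Real.log A1 := by
    push_cast
    rw [Real.log_mul two_ne_zero hA0]
  have h3 : Real.log 2 < 0.6931471808 := Real.log_two_lt_d9
  rw [h2] at h1
  linarith

theorem m3_cl (a1 a2 s1 s2 : ℝ) (ha : a1 ≤ a2) (hs : s1 ≤ s2) :
    max 0 (min a2 s2 - max a1 s1) = min a2 (max a1 s2) - min a2 (max a1 s1) := by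
  rcases le_total s2 a1 with h1 | h1
  · rw [max_eq_left h1, max_eq_left (hs.trans h1), sub_self]
    refine max_eq_left ?_
    have := min_le_right a2 s2
    linarith
  · rw [max_eq_right h1]
    rcases le_total a2 s1 with h2 | h2
    · rw [max_eq_right (ha.trans h2), min_eq_left h2, min_eq_left (h2.trans hs), sub_self]
      exact max_eq_left (by linarith)
    · rw [min_eq_right (max_le ha h2)]
      refine max_eq_right (sub_nonneg.2 ?_)
      exact le_min (max_le ha h2) (max_le h1 hs)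

theorem m3_sum (G : ℕ → ℝ) (a1 a2 : ℝ) (hmono : ∀ j, G j ≤ G (j + 1)) (h1 : a1 ≤ G 0) (h2 : ∀ j, G j ≤ a2) (N : ℕ) :
    ∑ j ∈ range N, |G (j + 1) - G j| ≤ a2 - a1 := by
  have h3 : ∀ j ∈ range N, |G (j + 1) - G j| = G (j + 1) - G j := fun j _ => abs_of_nonneg (by linarith [hmono j])
  rw [sum_congr rfl h3, sum_range_sub]
  linarith [h2 N]

theorem lbox_bd (A1 A2 B1 B2 k : ℕ) (hA : 1 ≤ A1) (hA2 : A2 ≤ 2 * A1) :
    0 ≤ Pool.Agent.Lib.H21T.lbox A1 A2 B1 B2 k ∧ Pool.Agent.Lib.H21T.lbox A1 A2 B1 B2 k ≤ 1 := by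
  unfold Pool.Agent.Lib.H21T.lbox
  refine ⟨le_max_left _ _, max_le zero_le_one ?_⟩
  have h1 := m3_two A1 A2 hA hA2
  have h2 := min_le_left (Real.log A2) (Real.log k - Real.log B1)
  have h3 := le_max_left (Real.log A1) (Real.log k - Real.log B2)
  linarith

theorem lbox_empty (A1 A2 B1 B2 k : ℕ) (hA : 1 ≤ A1) (hB : 1 ≤ B1) (h : A2 < A1 ∨ B2 < B1) :
    Pool.Agent.Lib.H21T.lbox A1 A2 B1 B2 k = 0 := by
  unfold Pool.Agent.Lib.H21T.lbox
  refine max_eq_left ?_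
  rcases h with h | h
  · have h1 := m3_logle A2 A1 hA h.le
    have h2 := min_le_left (Real.log A2) (Real.log k - Real.log B1)
    have h3 := le_max_left (Real.log A1) (Real.log k - Real.log B2)
    linarith
  · have h1 := m3_logle B2 B1 hB h.le
    have h2 := min_le_right (Real.log A2) (Real.log k - Real.log B1)
    have h3 := le_max_right (Real.log A1) (Real.log k - Real.log B2)
    linarith

theorem lboxr_rep (n q A1 A2 B1 B2 : ℕ) (hn : 1 ≤ n) (hq : 1 ≤ q) (hA : 1 ≤ A1) (hA1 : A1 ≤ A2)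
    (hA2 : A2 ≤ 2 * A1) (hB : 1 ≤ B1) (hB1 : B1 ≤ B2) :
    Pool.Agent.H81E.Rep n (7 * (1 + Real.log n)) (fun m => ((lboxr q A1 A2 B1 B2 m : ℝ) : ℂ)) := by
  have ha : Real.log A1 ≤ Real.log A2 := m3_logle A1 A2 (hA.trans hA1) hA1
  have hb : Real.log B1 ≤ Real.log B2 := m3_logle B1 B2 (hB.trans hB1) hB1
  have h2 := m3_two A1 A2 hA hA2
  have hcl : ∀ m : ℤ, lboxr q A1 A2 B1 B2 m =
      min (Real.log A2) (max (Real.log A1) (Real.log m - Real.log q - Real.log B1)) -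
      min (Real.log A2) (max (Real.log A1) (Real.log m - Real.log q - Real.log B2)) := by
    intro m
    unfold lboxr
    exact m3_cl _ _ _ _ ha (by linarith)
  have hbd : ∀ m : ℤ, |lboxr q A1 A2 B1 B2 m| ≤ 1 := by
    intro m
    have h3 : 0 ≤ lboxr q A1 A2 B1 B2 m := le_max_left _ _
    rw [abs_of_nonneg h3, hcl]
    have h4 := min_le_left (Real.log A2) (max (Real.log A1) (Real.log m - Real.log q - Real.log B1))
    have h5 : Real.log A1 ≤ min (Real.log A2) (max (Real.log A1) (Real.log m - Real.log q - Real.log B2)) :=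
      le_min ha (le_max_left _ _)
    linarith
  have hv : ∀ B : ℕ, ∑ j ∈ range (2 * n),
      |min (Real.log A2) (max (Real.log A1) (Real.log (((j : ℤ) + 3 : ℤ) : ℝ) - Real.log q - Real.log B)) -
        min (Real.log A2) (max (Real.log A1) (Real.log (((j : ℤ) + 2 : ℤ) : ℝ) - Real.log q - Real.log B))| ≤ 1 := by
    intro B
    have h3 := m3_sum (fun j : ℕ => min (Real.log A2) (max (Real.log A1) (Real.log (((j : ℤ) + 2 : ℤ) : ℝ) -
      Real.log q - Real.log B))) (Real.log A1) (Real.log A2) (by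
        intro j
        have h4 : Real.log (((j : ℤ) + 2 : ℤ) : ℝ) ≤ Real.log ((((j + 1 : ℕ) : ℤ) + 2 : ℤ) : ℝ) := by
          refine Real.log_le_log ?_ ?_
          · push_cast
            positivity
          · push_cast
            linarith
        exact min_le_min le_rfl (max_le_max le_rfl (by linarith)))
      (le_min ha (le_max_left _ _)) (fun j => min_le_left _ _) (2 * n)
    refine le_trans (le_of_eq (sum_congr rfl fun j _ => ?_)) (h3.trans h2)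
    have e1 : ((j : ℤ) + 3 : ℤ) = (((j + 1 : ℕ) : ℤ) + 2 : ℤ) := by
      push_cast
      ring
    rw [e1]
  have hbv := Pool.Agent.H81E.Rep.bv n hn (fun m => ((lboxr q A1 A2 B1 B2 m : ℝ) : ℂ))
  refine hbv.mono ?_
  have hlog : 0 ≤ Real.log n := Real.log_nonneg (by exact_mod_cast hn)
  have h5 : ‖((lboxr q A1 A2 B1 B2 2 : ℝ) : ℂ)‖ ≤ 1 := by
    rw [Complex.norm_real, Real.norm_eq_abs]
    exact hbd 2
  have h6 : ∑ j ∈ range (2 * n), ‖((lboxr q A1 A2 B1 B2 ((j : ℤ) + 3) : ℝ) : ℂ) -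
      ((lboxr q A1 A2 B1 B2 ((j : ℤ) + 2) : ℝ) : ℂ)‖ ≤ 2 := by
    have h7 : ∀ j ∈ range (2 * n), ‖((lboxr q A1 A2 B1 B2 ((j : ℤ) + 3) : ℝ) : ℂ) -
        ((lboxr q A1 A2 B1 B2 ((j : ℤ) + 2) : ℝ) : ℂ)‖ ≤
        |min (Real.log A2) (max (Real.log A1) (Real.log (((j : ℤ) + 3 : ℤ) : ℝ) - Real.log q - Real.log B1)) -
          min (Real.log A2) (max (Real.log A1) (Real.log (((j : ℤ) + 2 : ℤ) : ℝ) - Real.log q - Real.log B1))| +
        |min (Real.log A2) (max (Real.log A1) (Real.log (((j : ℤ) + 3 : ℤ) : ℝ) - Real.log q - Real.log B2)) -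
          min (Real.log A2) (max (Real.log A1) (Real.log (((j : ℤ) + 2 : ℤ) : ℝ) - Real.log q - Real.log B2))| := by
      intro j _
      rw [← Complex.ofReal_sub, Complex.norm_real, Real.norm_eq_abs, hcl, hcl]
      generalize min (Real.log A2) (max (Real.log A1) (Real.log (((j : ℤ) + 3 : ℤ) : ℝ) - Real.log q - Real.log B1)) = w1
      generalize min (Real.log A2) (max (Real.log A1) (Real.log (((j : ℤ) + 3 : ℤ) : ℝ) - Real.log q - Real.log B2)) = w2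
      generalize min (Real.log A2) (max (Real.log A1) (Real.log (((j : ℤ) + 2 : ℤ) : ℝ) - Real.log q - Real.log B1)) = w3
      generalize min (Real.log A2) (max (Real.log A1) (Real.log (((j : ℤ) + 2 : ℤ) : ℝ) - Real.log q - Real.log B2)) = w4
      have e1 : w1 - w2 - (w3 - w4) = (w1 - w3) - (w2 - w4) := by ring
      rw [e1]
      exact abs_sub _ _
    refine (sum_le_sum h7).trans ?_
    rw [sum_add_distrib]
    linarith [hv B1, hv B2]
  have h8 := mul_le_mul_of_nonneg_left h6 (by linarith : 0 ≤ 3 + Real.log n)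
  linarith

end Pool.Agent.H44W
end

-- from Lib.H44W.W2
section
/-!
H44W: the model of the near-diagonal piece with cofactor q.
-/
namespace Pool.Agent.H44W
open Finset

/-- Model of pd q (Ico A1 A2) (Ico B1 B2). -/
noncomputable def Mq (Q A1 A2 B1 B2 q : ℕ) (m : ℤ) : ℂ :=
  if (q:ℤ) ∣ m then ((Pool.Agent.Lib.H21T.Mbox Q A1 A2 B1 B2 (m / q).toNat : ℝ) : ℂ) else 0

end Pool.Agent.H44W
end

-- from Lib.H44W.M4
section
/-!
CHUNK M4 (M). The local bound (hX) for pd q - Mq from D34.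
(a) pd_eq: for m >= 1, q >= 1: pd q (Ico A1 A2) (Ico B1 B2) m = dbox A1 A2 B1 B2 (m/q) if q | m, else 0 (the pairs (a,b) of integers >= 0;
m = q k: q a b = q k iff a b = k; card of the image under the cast N x N -> Z x Z).
(b) hX_of: the hypothesis h34 is the conclusion of H21T.D34 for N = 2n (with Q = floor((2n)^ep)). Let q >= 1.
Case q A1 B1 > 2n: for m in [u, v), m <= 2n: if q | m then k = m/q < A1 B1 and dbox = 0 = lbox (H21T.z0_low, or directly): the sum is 0.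
Case A2 < A1 or B2 < B1: dbox = 0 (empty Ico) and lbox = 0 (lbox_empty): the sum is 0.
Case q A1 B1 <= 2n, A1 <= A2, B1 <= B2: A1 B1 <= 2n = N. With m = q k the sum is the sum over k in Ico u' v', u' = ceil(u/q), v' = ceil(v/q), of
(dbox - Mbox)(k) ee((th q) k), v' - u' <= (v - u)/q + 1 <= 2l + 1. Let H0 = l (>= N^(1/2 - ka) by hl). Sum over Ico u' v' =
sum over Ico u' (v' + l) - sum over Ico v' (v' + l): both intervals have length >= l >= N^(1/2-ka), so the norm is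
<= ((v' - u' + l) + l) N^(-ep/2) <= (2l + 1 + 2l) N^(-ep/2) <= 5 l (2n)^(-ep/2) <= l (5 n^(-ep/2)).
-/
namespace Pool.Agent.H44W
open Finset

open Pool.Agent.Lib.H21T (dbox Mbox lbox)

theorem pd_eq (q A1 A2 B1 B2 : ℕ) (hq : 1 ≤ q) (m : ℤ) (hm : 1 ≤ m) :
    pd q (Ico (A1:ℤ) A2) (Ico (B1:ℤ) B2) m =
      if (q:ℤ) ∣ m then (Pool.Agent.Lib.H21T.dbox A1 A2 B1 B2 (m / q).toNat : ℂ) else 0 := by
  unfold pd
  have hq0 : (0:ℤ) < q := by exact_mod_cast hq
  by_cases h : (q:ℤ) ∣ m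
  · rw [if_pos h]
    obtain ⟨k, rfl⟩ := h
    have hk : 0 < k := by
      by_contra h0
      have : (q:ℤ) * k ≤ 0 := mul_nonpos_of_nonneg_of_nonpos hq0.le (not_lt.1 h0)
      omega
    rw [Int.mul_ediv_cancel_left k hq0.ne']
    congr 1
    unfold Pool.Agent.Lib.H21T.dbox
    symm
    refine Finset.card_bij (fun (p : ℕ × ℕ) _ => ((p.1:ℤ), (p.2:ℤ))) ?_ ?_ ?_
    · intro p hp
      rw [mem_filter, mem_product, mem_Ico, mem_Ico] at hp
      rw [mem_filter, mem_product, mem_Ico, mem_Ico]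
      refine ⟨⟨⟨Int.ofNat_le.2 hp.1.1.1, Int.ofNat_lt.2 hp.1.1.2⟩, Int.ofNat_le.2 hp.1.2.1, Int.ofNat_lt.2 hp.1.2.2⟩, ?_⟩
      have h2 : ((p.1 * p.2 : ℕ):ℤ) = k := by rw [hp.2]; omega
      push_cast at h2
      show (q:ℤ) * (p.1:ℤ) * (p.2:ℤ) = q * k
      rw [mul_assoc, h2]
    · intro p _ p' _ hpp
      have h1 : (p.1:ℤ) = p'.1 := congrArg Prod.fst hpp
      have h2 : (p.2:ℤ) = p'.2 := congrArg Prod.snd hpp
      exact Prod.ext (by exact_mod_cast h1) (by exact_mod_cast h2)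
    · intro p hp
      rw [mem_filter, mem_product, mem_Ico, mem_Ico] at hp
      obtain ⟨⟨⟨h1, h2⟩, h3, h4⟩, h5⟩ := hp
      have hp1 : 0 ≤ p.1 := le_trans (by positivity) h1
      have hp2 : 0 ≤ p.2 := le_trans (by positivity) h3
      obtain ⟨a, ha⟩ := Int.eq_ofNat_of_zero_le hp1
      obtain ⟨b, hb⟩ := Int.eq_ofNat_of_zero_le hp2
      refine ⟨(a, b), ?_, Prod.ext ha.symm hb.symm⟩
      rw [mem_filter, mem_product, mem_Ico, mem_Ico]
      rw [ha] at h1 h2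
      rw [hb] at h3 h4
      refine ⟨⟨⟨by exact_mod_cast h1, by exact_mod_cast h2⟩, by exact_mod_cast h3, by exact_mod_cast h4⟩, ?_⟩
      rw [ha, hb, mul_assoc] at h5
      have h6 : ((a:ℤ)) * b = k := mul_left_cancel₀ hq0.ne' h5
      have h7 : ((a * b : ℕ):ℤ) = k := by push_cast; exact h6
      show a * b = k.toNat
      omega
  · rw [if_neg h]
    have : ((Ico (A1:ℤ) A2 ×ˢ Ico (B1:ℤ) B2).filter (fun p => (q:ℤ) * p.1 * p.2 = m)) = ∅ := by
      rw [Finset.filter_eq_empty_iff]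
      intro p _ h1
      exact h ⟨p.1 * p.2, by rw [← h1, mul_assoc]⟩
    rw [this]
    simp

theorem m4_dbox_empty (A1 A2 B1 B2 k : ℕ) (h : A2 < A1 ∨ B2 < B1) : dbox A1 A2 B1 B2 k = 0 := by
  unfold Pool.Agent.Lib.H21T.dbox
  rw [Finset.card_eq_zero, Finset.filter_eq_empty_iff]
  intro p hp
  rw [mem_product, mem_Ico, mem_Ico] at hp
  rcases h with h | h <;> omega

theorem m4_dbox_low (A1 A2 B1 B2 k : ℕ) (h : k < A1 * B1) : dbox A1 A2 B1 B2 k = 0 := by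
  unfold Pool.Agent.Lib.H21T.dbox
  rw [Finset.card_eq_zero, Finset.filter_eq_empty_iff]
  intro p hp h1
  rw [mem_product, mem_Ico, mem_Ico] at hp
  have : A1 * B1 ≤ p.1 * p.2 := Nat.mul_le_mul hp.1.1 hp.2.1
  omega

theorem m4_lbox_low (A1 A2 B1 B2 k : ℕ) (hA : 1 ≤ A1) (hB : 1 ≤ B1) (h : k < A1 * B1) :
    lbox A1 A2 B1 B2 k = 0 := by
  unfold Pool.Agent.Lib.H21T.lbox
  apply max_eq_left
  have hA' : (0:ℝ) < A1 := by exact_mod_cast hA
  have hB' : (0:ℝ) < B1 := by exact_mod_cast hB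
  have h1 : Real.log k ≤ Real.log A1 + Real.log B1 := by
    rw [← Real.log_mul hA'.ne' hB'.ne']
    rcases Nat.eq_zero_or_pos k with h0 | h0
    · rw [h0, Nat.cast_zero, Real.log_zero]
      apply Real.log_nonneg
      have : 1 ≤ A1 * B1 := by omega
      exact_mod_cast this
    · apply Real.log_le_log (by exact_mod_cast h0)
      exact_mod_cast h.le
  have h2 : min (Real.log A2) (Real.log k - Real.log B1) ≤ Real.log k - Real.log B1 := min_le_right _ _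
  have h3 : Real.log A1 ≤ max (Real.log A1) (Real.log k - Real.log B2) := le_max_left _ _
  linarith

theorem hX_of (ka ep : ℝ) (n Q A1 A2 B1 B2 l q : ℕ) (hn : 1 ≤ n) (hep : 0 < ep) (hl1 : 1 ≤ l)
    (hA : 1 ≤ A1) (hB : 1 ≤ B1) (hq : 1 ≤ q) (hA2 : A2 ≤ 2 * A1) (hB2 : B2 ≤ 2 * B1)
    (h34 : A1 ≤ A2 → B1 ≤ B2 → A1 * B1 ≤ 2 * n → ∀ (x H : ℕ) (α : ℝ),
      ((2 * n : ℕ):ℝ) ^ (1 / 2 - ka) ≤ H →
      ‖∑ m ∈ Ico x (x + H), ((Pool.Agent.Lib.H21T.dbox A1 A2 B1 B2 m : ℂ) -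
        (Pool.Agent.Lib.H21T.Mbox Q A1 A2 B1 B2 m : ℂ)) * ee (α * m)‖ ≤
        H * ((2 * n : ℕ):ℝ) ^ (-(ep / 2)))
    (hl : ((2 * n : ℕ):ℝ) ^ (1 / 2 - ka) ≤ l)
    (u v : ℤ) (hu : 1 ≤ u) (huv : u ≤ v) (hv : v ≤ 2 * n + 1) (hvu : v - u ≤ 2 * l) (th : ℝ) :
    ‖∑ m ∈ Ico u v, (pd q (Ico (A1:ℤ) A2) (Ico (B1:ℤ) B2) m - Mq Q A1 A2 B1 B2 q m) *
      ee (th * m)‖ ≤ l * (5 * (n:ℝ) ^ (-(ep / 2))) := by
  have hq0 : (0:ℤ) < q := by exact_mod_cast hq
  -- the difference as a function of k = m / q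
  have hdiff : ∀ m : ℤ, 1 ≤ m → pd q (Ico (A1:ℤ) A2) (Ico (B1:ℤ) B2) m - Mq Q A1 A2 B1 B2 q m =
      if (q:ℤ) ∣ m then ((dbox A1 A2 B1 B2 (m / q).toNat : ℂ) - (Mbox Q A1 A2 B1 B2 (m / q).toNat : ℂ)) else 0 := by
    intro m hm
    rw [pd_eq q A1 A2 B1 B2 hq m hm, Mq]
    by_cases h : (q:ℤ) ∣ m
    · rw [if_pos h, if_pos h, if_pos h]
    · rw [if_neg h, if_neg h, if_neg h, sub_zero]
  have hR0 : 0 ≤ (l:ℝ) * (5 * (n:ℝ) ^ (-(ep / 2))) := by positivity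
  have hzero : (∀ k : ℕ, q * k ≤ 2 * n → dbox A1 A2 B1 B2 k = 0 ∧ lbox A1 A2 B1 B2 k = 0) →
      ‖∑ m ∈ Ico u v, (pd q (Ico (A1:ℤ) A2) (Ico (B1:ℤ) B2) m - Mq Q A1 A2 B1 B2 q m) *
      ee (th * m)‖ ≤ l * (5 * (n:ℝ) ^ (-(ep / 2))) := by
    intro hz
    have : ∑ m ∈ Ico u v, (pd q (Ico (A1:ℤ) A2) (Ico (B1:ℤ) B2) m - Mq Q A1 A2 B1 B2 q m) * ee (th * m) = 0 := by
      refine Finset.sum_eq_zero fun m hm => ?_
      rw [mem_Ico] at hm
      rw [hdiff m (by omega)]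
      by_cases h : (q:ℤ) ∣ m
      · rw [if_pos h]
        obtain ⟨k, rfl⟩ := h
        rw [Int.mul_ediv_cancel_left k hq0.ne']
        have hk : 0 < k := by
          by_contra h0
          have : (q:ℤ) * k ≤ 0 := mul_nonpos_of_nonneg_of_nonpos hq0.le (not_lt.1 h0)
          omega
        have h1 : q * k.toNat ≤ 2 * n := by
          have h2 : ((q * k.toNat : ℕ):ℤ) = q * k := by
            push_cast
            rw [Int.toNat_of_nonneg hk.le]
          omega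
        obtain ⟨h3, h4⟩ := hz k.toNat h1
        rw [h3, Pool.Agent.Lib.H21T.Mbox, h4]
        simp
      · rw [if_neg h, zero_mul]
    rw [this, norm_zero]
    exact hR0
  by_cases c1 : A1 ≤ A2 ∧ B1 ≤ B2
  swap
  · apply hzero
    intro k _
    have c2 : A2 < A1 ∨ B2 < B1 := by omega
    exact ⟨m4_dbox_empty A1 A2 B1 B2 k c2, lbox_empty A1 A2 B1 B2 k hA hB c2⟩
  by_cases c2 : q * (A1 * B1) ≤ 2 * n
  swap
  · apply hzero
    intro k hk
    have c3 : k < A1 * B1 := by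
      by_contra h0
      have : q * (A1 * B1) ≤ q * k := Nat.mul_le_mul_left q (not_lt.1 h0)
      omega
    exact ⟨m4_dbox_low A1 A2 B1 B2 k c3, m4_lbox_low A1 A2 B1 B2 k hA hB c3⟩
  have c3 : A1 * B1 ≤ 2 * n := le_trans (Nat.le_mul_of_pos_left _ hq) c2
  have h35 := h34 c1.1 c1.2 c3
  -- change of variables m = q k
  obtain ⟨U, hU⟩ : ∃ U : ℕ, U = (u.toNat + q - 1) / q := ⟨_, rfl⟩
  obtain ⟨V, hV⟩ : ∃ V : ℕ, V = (v.toNat + q - 1) / q := ⟨_, rfl⟩
  have hmem : ∀ k : ℕ, (U ≤ k ∧ k < V) ↔ (u ≤ (q:ℤ) * k ∧ (q:ℤ) * k < v) := by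
    intro k
    have e1 : U ≤ k ↔ u.toNat ≤ q * k := by
      rw [hU, Nat.div_le_iff_le_mul_add_pred hq]
      omega
    have e2 : V ≤ k ↔ v.toNat ≤ q * k := by
      rw [hV, Nat.div_le_iff_le_mul_add_pred hq]
      omega
    have e3 : ((q * k : ℕ):ℤ) = (q:ℤ) * k := by push_cast; ring
    constructor
    · rintro ⟨h1, h2⟩
      have h3 := e1.1 h1
      have h4 : ¬ (v.toNat ≤ q * k) := fun h => absurd (e2.2 h) (by omega)
      constructor
      · rw [← e3]; omega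
      · rw [← e3]; omega
    · rintro ⟨h1, h2⟩
      rw [← e3] at h1 h2
      constructor
      · exact e1.2 (by omega)
      · by_contra h0
        have := e2.1 (by omega)
        omega
  have hUV : U ≤ V := by
    rw [hU, hV]
    apply Nat.div_le_div_right
    omega
  have hVU : V ≤ U + 2 * l + 1 := by
    have e1 : V ≤ U + 2 * l + 1 ↔ v.toNat + q - 1 ≤ q * (U + 2 * l + 1) + (q - 1) := by
      rw [hV, Nat.div_le_iff_le_mul_add_pred hq]
    rw [e1]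
    have e2 : u.toNat ≤ q * U := by
      have : U ≤ U := le_refl _
      rw [hU, Nat.div_le_iff_le_mul_add_pred hq, ← hU] at this
      omega
    have e3 : q * (U + 2 * l + 1) = q * U + q * (2 * l + 1) := by ring
    have e4 : 2 * l + 1 ≤ q * (2 * l + 1) := Nat.le_mul_of_pos_left _ hq
    have e5 : v.toNat ≤ u.toNat + 2 * l := by omega
    rw [e3]
    omega
  obtain ⟨Fk, hFk⟩ : ∃ Fk : ℕ → ℂ, Fk = fun k => ((dbox A1 A2 B1 B2 k : ℂ) - (Mbox Q A1 A2 B1 B2 k : ℂ)) * ee (th * q * k) := ⟨_, rfl⟩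
  have hsum : ∑ m ∈ Ico u v, (pd q (Ico (A1:ℤ) A2) (Ico (B1:ℤ) B2) m - Mq Q A1 A2 B1 B2 q m) * ee (th * m) =
      ∑ k ∈ Ico U V, Fk k := by
    have e1 : ∑ m ∈ Ico u v, (pd q (Ico (A1:ℤ) A2) (Ico (B1:ℤ) B2) m - Mq Q A1 A2 B1 B2 q m) * ee (th * m) =
        ∑ m ∈ (Ico u v).filter (fun m => (q:ℤ) ∣ m), Fk (m / q).toNat := by
      rw [Finset.sum_filter]
      refine Finset.sum_congr rfl fun m hm => ?_
      rw [mem_Ico] at hm
      rw [hdiff m (by omega)]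
      by_cases h : (q:ℤ) ∣ m
      · rw [if_pos h, if_pos h, hFk]
        obtain ⟨k, rfl⟩ := h
        rw [Int.mul_ediv_cancel_left k hq0.ne']
        have hk : 0 < k := by
          by_contra h0
          have : (q:ℤ) * k ≤ 0 := mul_nonpos_of_nonneg_of_nonpos hq0.le (not_lt.1 h0)
          omega
        have hk2 : ((k.toNat : ℕ) : ℝ) = (k:ℝ) := by
          have : ((k.toNat : ℕ) : ℤ) = k := Int.toNat_of_nonneg hk.le
          exact_mod_cast congrArg (fun z : ℤ => (z:ℝ)) this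
        simp only
        rw [hk2]
        congr 2
        push_cast
        ring
      · rw [if_neg h, if_neg h, zero_mul]
    rw [e1]
    symm
    refine Finset.sum_bij (fun (k : ℕ) _ => (q:ℤ) * k) ?_ ?_ ?_ ?_
    · intro k hk
      rw [mem_Ico] at hk
      rw [mem_filter, mem_Ico]
      exact ⟨(hmem k).1 hk, dvd_mul_right _ _⟩
    · intro a _ b _ hab
      have := mul_left_cancel₀ hq0.ne' hab
      exact_mod_cast this
    · intro m hm
      rw [mem_filter, mem_Ico] at hm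
      obtain ⟨hm1, k, rfl⟩ := hm
      have hk : 0 < k := by
        by_contra h0
        have : (q:ℤ) * k ≤ 0 := mul_nonpos_of_nonneg_of_nonpos hq0.le (not_lt.1 h0)
        omega
      obtain ⟨k', hk'⟩ := Int.eq_ofNat_of_zero_le hk.le
      refine ⟨k', ?_, by rw [hk']⟩
      rw [mem_Ico, hmem k']
      rw [hk'] at hm1
      exact hm1
    · intro k _
      rw [Int.mul_ediv_cancel_left _ hq0.ne', Int.toNat_natCast]
  rw [hsum]
  have hsplit : ∑ k ∈ Ico U V, Fk k = ∑ k ∈ Ico U (U + (V - U + l)), Fk k - ∑ k ∈ Ico V (V + l), Fk k := by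
    have e1 : U + (V - U + l) = V + l := by omega
    rw [e1, ← Finset.sum_Ico_consecutive Fk hUV (by omega : V ≤ V + l), add_sub_cancel_right]
  have hFsum : ∀ x H : ℕ, ((2 * n : ℕ):ℝ) ^ (1 / 2 - ka) ≤ H →
      ‖∑ k ∈ Ico x (x + H), Fk k‖ ≤ H * ((2 * n : ℕ):ℝ) ^ (-(ep / 2)) := by
    intro x H hH
    rw [hFk]
    exact h35 x H (th * q) hH
  have b1 := hFsum U (V - U + l) (hl.trans (by exact_mod_cast (by omega : l ≤ V - U + l)))
  have b2 := hFsum V l hl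
  have hpow : ((2 * n : ℕ):ℝ) ^ (-(ep / 2)) ≤ (n:ℝ) ^ (-(ep / 2)) := by
    apply Real.rpow_le_rpow_of_nonpos
    · exact_mod_cast hn
    · exact_mod_cast (by omega : n ≤ 2 * n)
    · linarith
  have hp0 : 0 ≤ ((2 * n : ℕ):ℝ) ^ (-(ep / 2)) := Real.rpow_nonneg (Nat.cast_nonneg _) _
  rw [hsplit]
  refine (norm_sub_le _ _).trans ((add_le_add b1 b2).trans ?_)
  have h7 : ((V - U + l : ℕ):ℝ) + l ≤ 5 * l := by
    have : (V - U + l) + l ≤ 5 * l := by omega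
    exact_mod_cast this
  calc ((V - U + l : ℕ):ℝ) * ((2 * n : ℕ):ℝ) ^ (-(ep / 2)) + l * ((2 * n : ℕ):ℝ) ^ (-(ep / 2))
      = (((V - U + l : ℕ):ℝ) + l) * ((2 * n : ℕ):ℝ) ^ (-(ep / 2)) := by ring
    _ ≤ (5 * l) * (n:ℝ) ^ (-(ep / 2)) := mul_le_mul h7 hpow hp0 (by positivity)
    _ = l * (5 * (n:ℝ) ^ (-(ep / 2))) := by ring

end Pool.Agent.H44W
end

-- from Lib.H44W.M1
section
/-!
CHUNK M1 (M). Type I sums have the inverse property with polynomial loss, uniformly in their level (from class_two and type_one).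
Hypothesis hone (proved in H81E): |TF n (psi A' al') W f g| <= 20 A' (1 + log n) n |ghat(th)| for some th.
Proof. Let I = Nat.log 2 (2n) + 1, so 2n < 2^I and I <= 2 (1 + log n) (1/log 2 < 1.45). For m in [2, 2n] the sum psi A al m splits
according to a in [2^i, 2^(i+1)), i < I (A <= n < 2^I by hA4, n^(1/4) <= n): psi A al m = sum_{i<I} psi_i m, psi_i m =
sum over a in Ico (2^i) (2^(i+1)), a <= A, of [a | m] al a. TF is linear, so some i < I has n^2/(D I) <= |TF n psi_i W f g|; in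
particular psi_i is not 0, so 2^i <= A. Put D1 = D I^2.
Case 1: D1^C <= 2^i. For m in [2,2n]: psi_i m = sum_{j<I} tII (2^i) (2^j) al' 1 m with al' a = al a if a <= A, else 0 (a | m, b = m/a lies
in [1,2n], hence in exactly one [2^j, 2^(j+1))). Some j < I has n^2/D1 <= |TF n (tII (2^i) (2^j) al' 1) W f g|. ClassTwo C with
K = 2^i <= A <= n^(1/4), D1^C <= K, K^2 D1^C <= K^3 <= n^(3/4) <= n, D1 >= D >= 2 (divisor hypothesis: hdiv) gives n/D1^C <= |ghat|.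
Case 2: 2^i < D1^C. psi_i = psi (2^(i+1)) al'' with al'' a = al a if 2^i <= a < 2^(i+1) and a <= A, else 0. hone: n^2/(D I) <=
20 * 2^(i+1) (1 + log n) n |ghat| <= 40 D1^C (1+log n) n |ghat|, so |ghat| >= n/(40 D I (1+log n) D1^C).
In both cases, with D2 = 80 D (1+log n)^2: D1 <= 4 D (1+log n)^2 <= D2 and 40 D I (1+log n) <= D2, so |ghat| >= n/D2^(C+1).
(TF n F only depends on F at the points x + y in [2, 2n]: Finset.sum_congr.)
-/
namespace Pool.Agent.H44W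
open Finset

theorem m1_pigeon (I : ℕ) (hI : 1 ≤ I) (z : ℕ → ℂ) (x : ℝ) (h : x ≤ ‖∑ i ∈ range I, z i‖) :
    ∃ i < I, x / I ≤ ‖z i‖ := by
  by_contra hcon
  push Not at hcon
  have hI' : (0:ℝ) < I := by exact_mod_cast hI
  have h1 : ‖∑ i ∈ range I, z i‖ < x := by
    calc ‖∑ i ∈ range I, z i‖ ≤ ∑ i ∈ range I, ‖z i‖ := norm_sum_le _ _
      _ < ∑ _i ∈ range I, x / I := by
          apply Finset.sum_lt_sum_of_nonempty
          · exact ⟨0, mem_range.2 (by omega)⟩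
          · intro i hi
            exact hcon i (mem_range.1 hi)
      _ = x := by
          rw [Finset.sum_const, card_range, nsmul_eq_mul]
          field_simp
  linarith

theorem m1_dyadic (I : ℕ) (F : ℕ → ℂ) :
    ∑ j ∈ range I, ∑ b ∈ Ico (2 ^ j) (2 * 2 ^ j), F b = ∑ b ∈ Ico 1 (2 ^ I), F b := by
  induction I with
  | zero => simp
  | succ I ih =>
    rw [Finset.sum_range_succ, ih, show 2 * 2 ^ I = 2 ^ (I + 1) by ring]
    exact Finset.sum_Ico_consecutive F Nat.one_le_two_pow (Nat.pow_le_pow_right (by norm_num) (by omega))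

/-- the part of the coefficients with `Nat.log 2 a = i` -/
noncomputable def m1_al (A : ℕ) (al : ℕ → ℂ) (i a : ℕ) : ℂ :=
  if 1 ≤ a ∧ a ≤ A ∧ Nat.log 2 a = i then al a else 0

theorem m1_al_supp {A : ℕ} {al : ℕ → ℂ} {i a : ℕ} (h : m1_al A al i a ≠ 0) :
    1 ≤ a ∧ a ≤ A ∧ 2 ^ i ≤ a ∧ a < 2 ^ (i + 1) := by
  unfold m1_al at h
  by_cases h1 : 1 ≤ a ∧ a ≤ A ∧ Nat.log 2 a = i
  · refine ⟨h1.1, h1.2.1, ?_, ?_⟩
    · rw [← h1.2.2]
      exact Nat.pow_log_le_self 2 (by omega)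
    · rw [← h1.2.2]
      exact Nat.lt_pow_succ_log_self (by norm_num) a
  · rw [if_neg h1] at h
    exact absurd rfl h

theorem m1_split (A I : ℕ) (hAI : A < 2 ^ I) (al : ℕ → ℂ) (m : ℤ) :
    psi A al m = ∑ i ∈ range I, psi (2 ^ (i + 1)) (m1_al A al i) m := by
  have h1 : ∀ i ∈ range I, psi (2 ^ (i + 1)) (m1_al A al i) m =
      ∑ a ∈ Icc 1 A, if (a:ℤ) ∣ m then m1_al A al i a else 0 := by
    intro i _
    unfold psi
    refine Finset.sum_congr_of_eq_on_inter ?_ ?_ ?_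
    · intro a ha ha2
      by_contra h
      have h3 : m1_al A al i a ≠ 0 := by
        intro h0
        apply h
        rw [h0, ite_self]
      have := m1_al_supp h3
      exact ha2 (mem_Icc.2 ⟨this.1, this.2.1⟩)
    · intro a ha ha2
      by_contra h
      have h3 : m1_al A al i a ≠ 0 := by
        intro h0
        apply h
        rw [h0, ite_self]
      have := m1_al_supp h3
      exact ha2 (mem_Icc.2 ⟨this.1, this.2.2.2.le⟩)
    · intro a _ _
      rfl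
  rw [Finset.sum_congr rfl h1, Finset.sum_comm]
  unfold psi
  refine Finset.sum_congr rfl fun a ha => ?_
  rw [mem_Icc] at ha
  by_cases h : (a:ℤ) ∣ m
  · simp only [if_pos h]
    have h2 : ∀ i ∈ range I, m1_al A al i a = if Nat.log 2 a = i then al a else 0 := by
      intro i _
      unfold m1_al
      by_cases h3 : Nat.log 2 a = i
      · rw [if_pos h3, if_pos ⟨ha.1, ha.2, h3⟩]
      · rw [if_neg h3, if_neg fun h4 => h3 h4.2.2]
    rw [Finset.sum_congr rfl h2, Finset.sum_ite_eq, if_pos]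
    rw [mem_range]
    exact Nat.log_lt_of_lt_pow (by omega) (by omega)
  · simp only [if_neg h]
    simp

theorem m1_tII (n A I i : ℕ) (hI : 2 * n < 2 ^ I) (al : ℕ → ℂ) (m : ℤ) (hm1 : 2 ≤ m)
    (hm2 : m ≤ 2 * n) :
    psi (2 ^ (i + 1)) (m1_al A al i) m =
      ∑ j ∈ range I, tII (2 ^ i) (2 ^ j) (m1_al A al i) (fun _ => 1) m := by
  obtain ⟨k, rfl⟩ := Int.eq_ofNat_of_zero_le (show 0 ≤ m by omega)
  have hk1 : 1 ≤ k := by omega
  have hk2 : k < 2 ^ I := by omega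
  unfold tII
  rw [Finset.sum_comm]
  have h1 : ∀ a ∈ Ico (2 ^ i) (2 * 2 ^ i), ∑ j ∈ range I, ∑ b ∈ Ico (2 ^ j) (2 * 2 ^ j),
      (if ((a * b : ℕ) : ℤ) = (k:ℤ) then m1_al A al i a * 1 else 0) =
      if (a:ℤ) ∣ (k:ℤ) then m1_al A al i a else 0 := by
    intro a ha
    rw [mem_Ico] at ha
    have ha0 : 0 < a := lt_of_lt_of_le (by positivity) ha.1
    rw [m1_dyadic I (fun b => if ((a * b : ℕ) : ℤ) = (k:ℤ) then m1_al A al i a * 1 else 0)]
    by_cases h : (a:ℤ) ∣ (k:ℤ)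
    · rw [if_pos h]
      have h' : a ∣ k := by exact_mod_cast h
      obtain ⟨b, hb⟩ := h'
      have hb1 : 1 ≤ b := by
        rcases Nat.eq_zero_or_pos b with h0 | h0
        · rw [h0, mul_zero] at hb
          omega
        · exact h0
      have hb2 : b ≤ k := by rw [hb]; exact Nat.le_mul_of_pos_left b ha0
      rw [Finset.sum_eq_single b]
      · rw [if_pos (by rw [hb]), mul_one]
      · intro b' _ hb'
        rw [if_neg]
        intro h2
        apply hb'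
        have h3 : a * b' = a * b := by rw [← hb]; exact_mod_cast h2
        exact Nat.eq_of_mul_eq_mul_left ha0 h3
      · intro h2
        exact absurd (mem_Ico.2 ⟨hb1, by omega⟩) h2
    · rw [if_neg h]
      refine Finset.sum_eq_zero fun b _ => ?_
      rw [if_neg]
      intro h2
      apply h
      exact ⟨b, by rw [← h2]; push_cast; ring⟩
  rw [Finset.sum_congr rfl h1]
  unfold psi
  refine Finset.sum_congr_of_eq_on_inter ?_ ?_ ?_
  · intro a ha ha2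
    by_contra h
    have h3 : m1_al A al i a ≠ 0 := by
      intro h0
      apply h
      rw [h0, ite_self]
    have := m1_al_supp h3
    refine ha2 (mem_Ico.2 ⟨this.2.2.1, ?_⟩)
    have h4 : 2 * 2 ^ i = 2 ^ (i + 1) := by ring
    omega
  · intro a ha ha2
    by_contra h
    have h3 : m1_al A al i a ≠ 0 := by
      intro h0
      apply h
      rw [h0, ite_self]
    have := m1_al_supp h3
    exact ha2 (mem_Icc.2 ⟨this.1, this.2.2.2.le⟩)
  · intro a _ _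
    rfl

theorem psi_cf (C : ℕ) (h2 : ClassTwo C)
    (hone : ∀ (n A : ℕ) (al : ℕ → ℂ), 1 ≤ n → (∀ a, ‖al a‖ ≤ 1) → ∀ W f g : ℤ → ℂ,
      (∀ x, ‖W x‖ ≤ 1) → (∀ x, ‖f x‖ ≤ 1) → (∀ x, ‖g x‖ ≤ 1) →
      ∃ th : ℝ, ‖TF n (psi A al) W f g‖ ≤
        20 * A * (1 + Real.log n) * n * ‖∑ z ∈ Icc (1:ℤ) n, g z * ee (th * z)‖)
    (n A : ℕ) (hn : 2 ≤ n) (hA4 : (A:ℝ) ≤ (n:ℝ) ^ (1 / 4 : ℝ)) (D : ℝ) (hD : 2 ≤ D)
    (hdiv : ∀ m : ℕ, 1 ≤ m → m ≤ 2 * n → (m.divisors.card : ℝ) ≤ D)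
    (al : ℕ → ℂ) (hal : ∀ a, ‖al a‖ ≤ 1) (W f g : ℤ → ℂ) (hW : ∀ x, ‖W x‖ ≤ 1)
    (hf : ∀ x, ‖f x‖ ≤ 1) (hg : ∀ x, ‖g x‖ ≤ 1)
    (hT : (n:ℝ) ^ 2 / D ≤ ‖TF n (psi A al) W f g‖) :
    ∃ th : ℝ, (n:ℝ) / (80 * D * (1 + Real.log n) ^ 2) ^ (C + 1) ≤
      ‖∑ z ∈ Icc (1:ℤ) n, g z * ee (th * z)‖ := by
  obtain ⟨I, hId⟩ : ∃ I : ℕ, I = Nat.log 2 (2 * n) + 1 := ⟨_, rfl⟩
  have hI1 : 1 ≤ I := by omega
  have hI2 : 2 * n < 2 ^ I := by rw [hId]; exact Nat.lt_pow_succ_log_self (by norm_num) _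
  have hnR : (2:ℝ) ≤ n := by exact_mod_cast hn
  have hn0 : (0:ℝ) < n := by linarith
  have hlog : 0 ≤ Real.log n := Real.log_natCast_nonneg n
  have hI3 : (I:ℝ) ≤ 2 * (1 + Real.log n) := by
    have h1 : ((2:ℝ)) ^ (Nat.log 2 (2 * n)) ≤ 2 * n := by
      have := Nat.pow_log_le_self 2 (show 2 * n ≠ 0 by omega)
      exact_mod_cast this
    have h2 := Real.log_le_log (by positivity) h1
    rw [Real.log_pow, Real.log_mul (by norm_num) hn0.ne'] at h2
    have h3 := Real.log_two_gt_d9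
    have h4 : ((Nat.log 2 (2 * n) : ℕ):ℝ) ≤ 1 + 2 * Real.log n := by
      by_contra h5
      push Not at h5
      have h6 : (1 + 2 * Real.log n) * Real.log 2 < (Nat.log 2 (2 * n) : ℕ) * Real.log 2 :=
        mul_lt_mul_of_pos_right h5 (by linarith)
      have h7 : Real.log n * 1 ≤ Real.log n * (2 * Real.log 2) :=
        mul_le_mul_of_nonneg_left (by linarith) hlog
      nlinarith
    rw [hId]
    push_cast
    linarith
  have hA0 : (A:ℝ) ≤ n := by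
    refine hA4.trans ?_
    calc (n:ℝ) ^ (1 / 4 : ℝ) ≤ (n:ℝ) ^ (1:ℝ) :=
          Real.rpow_le_rpow_of_exponent_le (by linarith) (by norm_num)
      _ = n := Real.rpow_one _
  have hAn : A ≤ n := by exact_mod_cast hA0
  have hIR : (1:ℝ) ≤ I := by exact_mod_cast hI1
  have hD0 : 0 < D := by linarith
  -- first pigeonhole
  have e1 : TF n (psi A al) W f g = ∑ i ∈ range I, TF n (psi (2 ^ (i + 1)) (m1_al A al i)) W f g := by
    rw [← Pool.Agent.H81E.TF_sum]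
    exact Pool.Agent.H81E.TF_congr n W f g fun m _ _ => m1_split A I (by omega) al m
  rw [e1] at hT
  obtain ⟨i, hi, hTi⟩ := m1_pigeon I hI1 _ _ hT
  have hpos : 0 < (n:ℝ) ^ 2 / D / I := by positivity
  have hali : ∀ a, ‖m1_al A al i a‖ ≤ 1 := by
    intro a
    unfold m1_al
    by_cases h : 1 ≤ a ∧ a ≤ A ∧ Nat.log 2 a = i
    · rw [if_pos h]; exact hal a
    · rw [if_neg h, norm_zero]; exact zero_le_one
  have hiA : 2 ^ i ≤ A := by
    by_contra hcon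
    have h0 : ∀ a, m1_al A al i a = 0 := by
      intro a
      by_contra h
      have := m1_al_supp h
      omega
    have h1 : TF n (psi (2 ^ (i + 1)) (m1_al A al i)) W f g = 0 := by
      unfold TF psi
      simp only [h0]
      simp
    rw [h1, norm_zero] at hTi
    linarith
  obtain ⟨D1, hD1⟩ : ∃ D1, D1 = D * (I:ℝ) ^ 2 := ⟨_, rfl⟩
  obtain ⟨D2, hD2⟩ : ∃ D2, D2 = 80 * D * (1 + Real.log n) ^ 2 := ⟨_, rfl⟩
  have hDD1 : D ≤ D1 := by
    rw [hD1]
    have : (1:ℝ) ≤ (I:ℝ) ^ 2 := one_le_pow₀ hIR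
    nlinarith
  have hI4 : (I:ℝ) ^ 2 ≤ 4 * (1 + Real.log n) ^ 2 := by
    have := pow_le_pow_left₀ (by positivity) hI3 2
    calc (I:ℝ) ^ 2 ≤ (2 * (1 + Real.log n)) ^ 2 := this
      _ = 4 * (1 + Real.log n) ^ 2 := by ring
  have hD12 : D1 ≤ D2 := by
    rw [hD1, hD2]
    have h1 : D * (I:ℝ) ^ 2 ≤ D * (4 * (1 + Real.log n) ^ 2) := mul_le_mul_of_nonneg_left hI4 hD0.le
    have h2 : 0 ≤ D * (1 + Real.log n) ^ 2 := by positivity
    linarith
  have hD21 : 1 ≤ D2 := by linarith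
  have hD1p : 0 < D1 := by linarith
  have hD2p : 0 < D2 := by linarith
  rw [← hD2]
  by_cases hc : D1 ^ C ≤ ((2 ^ i : ℕ):ℝ)
  · -- case 1
    have e2 : TF n (psi (2 ^ (i + 1)) (m1_al A al i)) W f g =
        ∑ j ∈ range I, TF n (tII (2 ^ i) (2 ^ j) (m1_al A al i) (fun _ => 1)) W f g := by
      rw [← Pool.Agent.H81E.TF_sum]
      exact Pool.Agent.H81E.TF_congr n W f g fun m h1 h2 => m1_tII n A I i hI2 al m h1 h2
    rw [e2] at hTi
    obtain ⟨j, hj, hTj⟩ := m1_pigeon I hI1 _ _ hTi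
    have e3 : (n:ℝ) ^ 2 / D / I / I = (n:ℝ) ^ 2 / D1 := by
      rw [hD1]
      field_simp
    rw [e3] at hTj
    have hK1 : (1:ℝ) ≤ ((2 ^ i : ℕ):ℝ) := by exact_mod_cast Nat.one_le_two_pow
    have hK4 : ((2 ^ i : ℕ):ℝ) ≤ (n:ℝ) ^ (1 / 4 : ℝ) := le_trans (by exact_mod_cast hiA) hA4
    have hK : ((2 ^ i : ℕ):ℝ) ^ 4 ≤ n := by
      have h1 := pow_le_pow_left₀ (by positivity) hK4 4
      have h2 : ((n:ℝ) ^ (1 / 4 : ℝ)) ^ 4 = n := by
        rw [← Real.rpow_natCast, ← Real.rpow_mul hn0.le]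
        norm_num
      linarith
    have hK3 : ((2 ^ i : ℕ):ℝ) ^ 2 * D1 ^ C ≤ n := by
      calc ((2 ^ i : ℕ):ℝ) ^ 2 * D1 ^ C ≤ ((2 ^ i : ℕ):ℝ) ^ 2 * ((2 ^ i : ℕ):ℝ) :=
            mul_le_mul_of_nonneg_left hc (by positivity)
        _ = ((2 ^ i : ℕ):ℝ) ^ 3 := by ring
        _ ≤ ((2 ^ i : ℕ):ℝ) ^ 4 := pow_le_pow_right₀ hK1 (by norm_num)
        _ ≤ n := hK
    obtain ⟨th, hth⟩ := h2 n (2 ^ i) (2 ^ j) D1 (by linarith) (fun m h1 h2 => (hdiv m h1 h2).trans hDD1)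
      hc hK3 (m1_al A al i) (fun _ => 1) hali (by simp) W f g hW hf hg hTj
    refine ⟨th, le_trans ?_ hth⟩
    apply div_le_div_of_nonneg_left hn0.le (by positivity)
    calc D1 ^ C ≤ D2 ^ C := pow_le_pow_left₀ hD1p.le hD12 C
      _ ≤ D2 ^ (C + 1) := pow_le_pow_right₀ hD21 (by omega)
  · -- case 2
    push Not at hc
    obtain ⟨th, hth⟩ := hone n (2 ^ (i + 1)) (m1_al A al i) (by omega) hali W f g hW hf hg
    refine ⟨th, ?_⟩
    obtain ⟨G, hG⟩ : ∃ G, G = ‖∑ z ∈ Icc (1:ℤ) n, g z * ee (th * z)‖ := ⟨_, rfl⟩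
    rw [← hG] at hth ⊢
    have hG0 : 0 ≤ G := by rw [hG]; exact norm_nonneg _
    have h1 : (n:ℝ) ^ 2 / D / I ≤ 40 * D1 ^ C * (1 + Real.log n) * n * G := by
      refine hTi.trans (hth.trans ?_)
      have h2 : ((2 ^ (i + 1) : ℕ):ℝ) ≤ 2 * D1 ^ C := by
        have : ((2 ^ (i + 1) : ℕ):ℝ) = 2 * ((2 ^ i : ℕ):ℝ) := by push_cast; ring
        rw [this]
        linarith
      calc 20 * ((2 ^ (i + 1) : ℕ):ℝ) * (1 + Real.log n) * n * G ≤
          20 * (2 * D1 ^ C) * (1 + Real.log n) * n * G := by gcongr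
        _ = 40 * D1 ^ C * (1 + Real.log n) * n * G := by ring
    have h3 : (n:ℝ) ^ 2 ≤ (40 * D * I * (1 + Real.log n) * D1 ^ C) * n * G := by
      rw [div_div, div_le_iff₀ (by positivity)] at h1
      linarith
    have h4 : (n:ℝ) ≤ (40 * D * I * (1 + Real.log n) * D1 ^ C) * G := by
      have h5 : (n:ℝ) * n ≤ n * ((40 * D * I * (1 + Real.log n) * D1 ^ C) * G) := by nlinarith
      exact le_of_mul_le_mul_left h5 hn0
    have h6 : 40 * D * I * (1 + Real.log n) ≤ D2 := by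
      rw [hD2]
      have h7 : 40 * D * I * (1 + Real.log n) ≤ 40 * D * (2 * (1 + Real.log n)) * (1 + Real.log n) := by gcongr
      refine h7.trans (le_of_eq (by ring))
    have h8 : (40 * D * I * (1 + Real.log n)) * D1 ^ C ≤ D2 ^ (C + 1) := by
      rw [pow_succ, mul_comm (D2 ^ C)]
      apply mul_le_mul h6 (pow_le_pow_left₀ hD1p.le hD12 C) (by positivity) hD2p.le
    rw [div_le_iff₀ (by positivity)]
    calc (n:ℝ) ≤ (40 * D * I * (1 + Real.log n) * D1 ^ C) * G := h4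
      _ ≤ D2 ^ (C + 1) * G := mul_le_mul_of_nonneg_right h8 hG0
      _ = G * D2 ^ (C + 1) := mul_comm _ _

end Pool.Agent.H44W
end

-- from Lib.H44W.M5
section
/-!
CHUNK M5 (M). Mass of the difference: sum over m in [1,2n] of |sum_q ga q (pd q m - Mq m)| <= 10 (1 + log n)^4 n.
Proof. By |ga| <= 1 it is at most sum_{q <= R} (sum_m pd q m + sum_m |Mq m|).
(a) sum_{m in [1,2n]} |pd q m| <= 2n/q: it is the number of (a,b) in the box with 1 <= q a b <= 2n; if q A1 B1 > 2n it is 0; otherwise at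
most card Ico A1 A2 * card Ico B1 B2 <= A1 B1 <= 2n/q.
(b) sum_m |Mq m| = sum_{k <= 2n/q} |lbox k| |gQ Q k| <= sum_{k <= 2n/q} sum_{d <= Q, d | k} (1 + log Q) (lbox_bd, H21T.m1)
<= (1 + log Q) sum_{d <= Q} 2n/(q d) <= (2n/q) (1 + log Q)^2 (harmonic sum: sum_{d <= Q} 1/d <= 1 + log Q, harmonic_le_one_add_log).
Sum over q <= R <= n: sum 1/q <= 1 + log n; Q <= n: total <= 2n (1+log n) + 2n (1+log n)^3 <= 10 (1+log n)^4 n.
-/
namespace Pool.Agent.H44W
open Finset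

theorem m5_har (N n : ℕ) (h : N ≤ n) : ∑ d ∈ Icc 1 N, 1 / (d : ℝ) ≤ 1 + Real.log n := by
  have h2 : ∑ r ∈ Icc 1 N, 1 / (r : ℝ) ≤ ∑ r ∈ Icc 1 n, 1 / (r : ℝ) := by
    apply Finset.sum_le_sum_of_subset_of_nonneg
    · exact Finset.Icc_subset_Icc_right h
    · intro i _ _
      positivity
  have h3 : ∑ r ∈ Icc 1 n, 1 / (r : ℝ) ≤ 1 + Real.log n := by
    have h4 := harmonic_le_one_add_log n
    rw [harmonic_eq_sum_Icc] at h4
    push_cast at h4
    simpa only [one_div] using h4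
  linarith

theorem m5_mult (r N : ℕ) (hr : 1 ≤ r) :
    (((Icc (1:ℤ) (N:ℤ)).filter (fun m => (r:ℤ) ∣ m)).card : ℝ) ≤ (N:ℝ) / r := by
  have h1 : (Icc (1:ℤ) (N:ℤ)).filter (fun m => (r:ℤ) ∣ m) ⊆ (Icc 1 (N / r)).image (fun k : ℕ => (r:ℤ) * k) := by
    intro m hm
    rw [mem_filter, mem_Icc] at hm
    obtain ⟨⟨h1, h2⟩, k, rfl⟩ := hm
    have hk : 0 < k := by
      by_contra hc
      have : (r:ℤ) * k ≤ 0 := mul_nonpos_of_nonneg_of_nonpos (by positivity) (not_lt.1 hc)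
      omega
    lift k to ℕ using hk.le
    rw [mem_image]
    refine ⟨k, mem_Icc.2 ⟨by exact_mod_cast hk, ?_⟩, rfl⟩
    rw [Nat.le_div_iff_mul_le (by omega), mul_comm]
    exact_mod_cast h2
  have h2 := (card_le_card h1).trans card_image_le
  rw [Nat.card_Icc, Nat.add_sub_cancel] at h2
  calc _ ≤ ((N / r : ℕ) : ℝ) := by exact_mod_cast h2
    _ ≤ (N:ℝ) / r := Nat.cast_div_le

theorem m5_pd (n q A1 A2 B1 B2 : ℕ) (hq : 1 ≤ q) (hA2 : A2 ≤ 2 * A1) (hB2 : B2 ≤ 2 * B1) :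
    ∑ m ∈ Icc (1:ℤ) (2 * n), ‖pd q (Ico (A1:ℤ) A2) (Ico (B1:ℤ) B2) m‖ ≤ 2 * n / q := by
  classical
  have h0 : ∀ m : ℤ, ‖pd q (Ico (A1:ℤ) A2) (Ico (B1:ℤ) B2) m‖ =
      ((((Ico (A1:ℤ) A2) ×ˢ (Ico (B1:ℤ) B2)).filter (fun p => (q:ℤ) * p.1 * p.2 = m)).card : ℝ) := by
    intro m
    unfold pd
    rw [Complex.norm_natCast]
  rw [sum_congr rfl fun m _ => h0 m]
  have h1 : ∑ m ∈ Icc (1:ℤ) (2 * n), (((Ico (A1:ℤ) A2) ×ˢ (Ico (B1:ℤ) B2)).filter (fun p => (q:ℤ) * p.1 * p.2 = m)).card =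
      (((Ico (A1:ℤ) A2) ×ˢ (Ico (B1:ℤ) B2)).filter (fun p => (q:ℤ) * p.1 * p.2 ∈ Icc (1:ℤ) (2 * n))).card := by
    rw [card_eq_sum_card_fiberwise (f := fun p : ℤ × ℤ => (q:ℤ) * p.1 * p.2) (t := Icc (1:ℤ) (2 * n))
      (by intro p hp; exact (mem_filter.1 hp).2)]
    refine sum_congr rfl fun m hm => ?_
    congr 1
    ext p
    simp only [mem_filter]
    constructor
    · rintro ⟨a, b⟩
      exact ⟨⟨a, b ▸ hm⟩, b⟩
    · rintro ⟨⟨a, _⟩, b⟩
      exact ⟨a, b⟩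
  rw [← Nat.cast_sum, h1]
  by_cases hc : 2 * n < q * A1 * B1
  · have h2 : ((Ico (A1:ℤ) A2) ×ˢ (Ico (B1:ℤ) B2)).filter (fun p => (q:ℤ) * p.1 * p.2 ∈ Icc (1:ℤ) (2 * n)) = ∅ := by
      rw [Finset.filter_eq_empty_iff]
      rintro ⟨a, b⟩ hp hm
      rw [mem_product, mem_Ico, mem_Ico] at hp
      rw [mem_Icc] at hm
      simp only at hp hm
      have h3 : (q:ℤ) * A1 * B1 ≤ (q:ℤ) * a * b := by
        have h4 : (0:ℤ) ≤ A1 := by positivity
        have h5 : (0:ℤ) ≤ B1 := by positivity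
        have h6 : (q:ℤ) * A1 ≤ q * a := mul_le_mul_of_nonneg_left hp.1.1 (by positivity)
        exact mul_le_mul h6 hp.2.1 h5 (mul_nonneg (by positivity) (h4.trans hp.1.1))
      have h7 : (2 * n : ℤ) < (q:ℤ) * A1 * B1 := by exact_mod_cast hc
      omega
    rw [h2, card_empty, Nat.cast_zero]
    positivity
  · have h2 : (((Ico (A1:ℤ) A2) ×ˢ (Ico (B1:ℤ) B2)).filter (fun p => (q:ℤ) * p.1 * p.2 ∈ Icc (1:ℤ) (2 * n))).card ≤ A1 * B1 := by
      refine (card_filter_le _ _).trans ?_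
      rw [card_product, Int.card_Ico, Int.card_Ico]
      exact Nat.mul_le_mul (by omega) (by omega)
    have hq0 : (0:ℝ) < q := by exact_mod_cast hq
    rw [le_div_iff₀ hq0]
    have h3 : A1 * B1 * q ≤ 2 * n := by
      have := not_lt.1 hc
      calc A1 * B1 * q = q * A1 * B1 := by ring
        _ ≤ 2 * n := this
    calc _ ≤ ((A1 * B1 : ℕ) : ℝ) * q := mul_le_mul_of_nonneg_right (by exact_mod_cast h2) hq0.le
      _ ≤ 2 * n := by exact_mod_cast h3

theorem m5_Mq1 (Q A1 A2 B1 B2 q : ℕ) (hQ1 : 1 ≤ Q) (hq : 1 ≤ q) (hA : 1 ≤ A1) (hA2 : A2 ≤ 2 * A1) (m : ℤ) (hm : 1 ≤ m) :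
    ‖Mq Q A1 A2 B1 B2 q m‖ ≤ ∑ d ∈ Icc 1 Q, if (((q * d : ℕ) : ℤ) ∣ m) then (1 + Real.log Q) else 0 := by
  have hL : 0 ≤ 1 + Real.log Q := by
    have := Real.log_natCast_nonneg Q
    linarith
  unfold Mq
  by_cases h : (q:ℤ) ∣ m
  · rw [if_pos h, Complex.norm_real, Real.norm_eq_abs]
    unfold Pool.Agent.Lib.H21T.Mbox
    rw [abs_mul]
    obtain ⟨k, rfl⟩ := h
    have hq0 : (0:ℤ) < q := by exact_mod_cast hq
    have hk : 0 < k := by
      by_contra hc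
      have : (q:ℤ) * k ≤ 0 := mul_nonpos_of_nonneg_of_nonpos hq0.le (not_lt.1 hc)
      omega
    lift k to ℕ using hk.le
    rw [Int.mul_ediv_cancel_left _ hq0.ne', Int.toNat_natCast]
    have h1 := lbox_bd A1 A2 B1 B2 k hA hA2
    rw [abs_of_nonneg h1.1]
    refine (mul_le_of_le_one_left (abs_nonneg _) h1.2).trans ?_
    unfold Pool.Agent.Lib.H21T.gQ
    refine (Finset.abs_sum_le_sum_abs _ _).trans ?_
    rw [Finset.sum_filter]
    refine Finset.sum_le_sum fun d _ => ?_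
    by_cases hd : d ∣ k
    · have h2 : ((q * d : ℕ) : ℤ) ∣ (q:ℤ) * k := by
        exact_mod_cast Nat.mul_dvd_mul_left q hd
      rw [if_pos hd, if_pos h2]
      exact Pool.Agent.Lib.H21T.m1 Q d hQ1
    · rw [if_neg hd]
      split_ifs
      · exact hL
      · exact le_rfl
  · rw [if_neg h, norm_zero]
    refine Finset.sum_nonneg fun d _ => ?_
    split_ifs
    · exact hL
    · exact le_rfl

theorem m5_Mq (n Q A1 A2 B1 B2 q : ℕ) (hQ1 : 1 ≤ Q) (hQ : Q ≤ n) (hq : 1 ≤ q) (hA : 1 ≤ A1) (hA2 : A2 ≤ 2 * A1) :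
    ∑ m ∈ Icc (1:ℤ) (2 * n), ‖Mq Q A1 A2 B1 B2 q m‖ ≤ 2 * n / q * (1 + Real.log n) ^ 2 := by
  have hQr : (0:ℝ) < Q := by exact_mod_cast hQ1
  have hLQ : Real.log Q ≤ Real.log n := Real.log_le_log hQr (by exact_mod_cast hQ)
  have hL : 0 ≤ Real.log Q := Real.log_natCast_nonneg Q
  have hq0 : (0:ℝ) < q := by exact_mod_cast hq
  calc ∑ m ∈ Icc (1:ℤ) (2 * n), ‖Mq Q A1 A2 B1 B2 q m‖
      ≤ ∑ m ∈ Icc (1:ℤ) (2 * n), ∑ d ∈ Icc 1 Q, (if (((q * d : ℕ) : ℤ) ∣ m) then (1 + Real.log Q) else 0) :=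
        Finset.sum_le_sum fun m hm => m5_Mq1 Q A1 A2 B1 B2 q hQ1 hq hA hA2 m (mem_Icc.1 hm).1
    _ = ∑ d ∈ Icc 1 Q, (((Icc (1:ℤ) (((2 * n : ℕ)) : ℤ)).filter (fun m => ((q * d : ℕ) : ℤ) ∣ m)).card : ℝ) * (1 + Real.log Q) := by
        rw [Finset.sum_comm]
        refine Finset.sum_congr rfl fun d _ => ?_
        rw [← Finset.sum_filter, Finset.sum_const, nsmul_eq_mul]
        push_cast
        rfl
    _ ≤ ∑ d ∈ Icc 1 Q, (2 * n / q * (1 + Real.log n)) * (1 / (d:ℝ)) := by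
        refine Finset.sum_le_sum fun d hd => ?_
        have hd1 := (mem_Icc.1 hd).1
        have h1 := m5_mult (q * d) (2 * n) (Nat.mul_pos hq hd1)
        have hd0 : (0:ℝ) < d := by exact_mod_cast hd1
        have e : ((2 * n : ℕ) : ℝ) / ((q * d : ℕ) : ℝ) = 2 * n / q * (1 / d) := by
          push_cast
          field_simp
        rw [e] at h1
        calc _ ≤ (2 * n / q * (1 / (d:ℝ))) * (1 + Real.log n) :=
              mul_le_mul h1 (by linarith) (by linarith) (by positivity)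
          _ = _ := by ring
    _ = (2 * n / q * (1 + Real.log n)) * ∑ d ∈ Icc 1 Q, 1 / (d:ℝ) := by rw [Finset.mul_sum]
    _ ≤ (2 * n / q * (1 + Real.log n)) * (1 + Real.log n) :=
        mul_le_mul_of_nonneg_left (m5_har Q n hQ) (mul_nonneg (by positivity) (by linarith))
    _ = _ := by ring

theorem mass_le (n Q R A1 A2 B1 B2 : ℕ) (hn : 1 ≤ n) (hQ1 : 1 ≤ Q) (hQ : Q ≤ n) (hR : R ≤ n)
    (hA : 1 ≤ A1) (hB : 1 ≤ B1) (hA2 : A2 ≤ 2 * A1) (hB2 : B2 ≤ 2 * B1) (ga : ℕ → ℂ)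
    (hga : ∀ q, ‖ga q‖ ≤ 1) :
    ∑ m ∈ Icc (1:ℤ) (2 * n), ‖∑ q ∈ Icc 1 R, ga q *
      (pd q (Ico (A1:ℤ) A2) (Ico (B1:ℤ) B2) m - Mq Q A1 A2 B1 B2 q m)‖ ≤
      10 * (1 + Real.log n) ^ 4 * n := by
  have hn1 : (1:ℝ) ≤ n := by exact_mod_cast hn
  have hLn : 0 ≤ Real.log n := Real.log_natCast_nonneg n
  have hstep : ∀ m ∈ Icc (1:ℤ) (2 * n), ‖∑ q ∈ Icc 1 R, ga q *
      (pd q (Ico (A1:ℤ) A2) (Ico (B1:ℤ) B2) m - Mq Q A1 A2 B1 B2 q m)‖ ≤
      ∑ q ∈ Icc 1 R, (‖pd q (Ico (A1:ℤ) A2) (Ico (B1:ℤ) B2) m‖ + ‖Mq Q A1 A2 B1 B2 q m‖) := by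
    intro m _
    refine norm_sum_le_of_le _ fun q _ => ?_
    rw [norm_mul]
    exact (mul_le_of_le_one_left (norm_nonneg _) (hga q)).trans (norm_sub_le _ _)
  refine (Finset.sum_le_sum hstep).trans ?_
  rw [Finset.sum_comm]
  have hq : ∀ q ∈ Icc 1 R, ∑ m ∈ Icc (1:ℤ) (2 * n),
      (‖pd q (Ico (A1:ℤ) A2) (Ico (B1:ℤ) B2) m‖ + ‖Mq Q A1 A2 B1 B2 q m‖) ≤
      (2 * n * (1 + (1 + Real.log n) ^ 2)) * (1 / (q:ℝ)) := by
    intro q hq
    have hq1 := (mem_Icc.1 hq).1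
    rw [Finset.sum_add_distrib]
    have h1 := m5_pd n q A1 A2 B1 B2 hq1 hA2 hB2
    have h2 := m5_Mq n Q A1 A2 B1 B2 q hQ1 hQ hq1 hA hA2
    refine (add_le_add h1 h2).trans (le_of_eq ?_)
    ring
  refine (Finset.sum_le_sum hq).trans ?_
  rw [← Finset.mul_sum]
  have h3 := m5_har R n hR
  have h4 : 0 ≤ 2 * (n:ℝ) * (1 + (1 + Real.log n) ^ 2) := by positivity
  refine (mul_le_mul_of_nonneg_left h3 h4).trans ?_
  set L : ℝ := 1 + Real.log n with hLdef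
  have hL1 : 1 ≤ L := by linarith
  have h5 : L ^ 1 ≤ L ^ 4 := pow_le_pow_right₀ hL1 (by norm_num)
  have h6 : L ^ 3 ≤ L ^ 4 := pow_le_pow_right₀ hL1 (by norm_num)
  have h7 : 0 ≤ L ^ 4 := by positivity
  calc 2 * (n:ℝ) * (1 + L ^ 2) * L = n * (2 * L ^ 1 + 2 * L ^ 3) := by ring
    _ ≤ n * (10 * L ^ 4) := mul_le_mul_of_nonneg_left (by linarith) (by linarith)
    _ = _ := by ring

end Pool.Agent.H44W
end
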