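import Pool.Agent.Lib.H1M.RV3.M003
import Pool.Agent.Lib.H1M.RV3.M006
import Pool.Agent.Lib.H1M.RV3.M013
import Pool.Agent.Lib.H1M.RV3.M016

/-! Merged copies (to shorten the build) of Lib.GoldbachGraph.Codegree, Lib.GoldbachGraph.Moments, Lib.GoldbachGraph.Proportion, Lib.H18E.Defs, Lib.H18E.PG, Lib.H18Q.S2, Lib.H18E.SS1, Lib.H18E.SS2, Lib.H18Q.Z5A. -/

-- from Lib.GoldbachGraph.Codegree
section

/-!
# Upper bound for codegrees in the Goldbach graph

Vertices are written `x` for the even number `2 x`; two distinct vertices `x, u` are adjacent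
when `x + u` and `|x - u|` are odd primes.
-/

namespace Pool.Agent.Lib.GoldbachGraph

open Finset Pool.Agent.Lib.Sieve

/-- Halved adjacency: `x + u` and `|x - u|` are odd primes. -/
def hadj (x u : ℕ) : Prop :=
  (x + u).Prime ∧ Odd (x + u) ∧ (Nat.dist x u).Prime ∧ Odd (Nat.dist x u)

instance (x u : ℕ) : Decidable (hadj x u) := by
  unfold hadj
  infer_instance

theorem hadj_comm (x u : ℕ) : hadj x u ↔ hadj u x := by
  unfold hadj
  rw [add_comm x u, Nat.dist_comm x u]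


/-- The weight `(1 - 1/p)^{-4}` for `p > 10`, and `1` otherwise. -/
noncomputable def g4 (p : ℕ) : ℝ := if 10 < p then ((1 - 1 / (p : ℝ)) ^ 4)⁻¹ else 1


/-- `G m = ∏_{p ∣ m, p > 10} (1 - 1/p)^{-4}`. -/
noncomputable def G (m : ℕ) : ℝ := ∏ p ∈ m.primeFactors, g4 p









end Pool.Agent.Lib.GoldbachGraph
end

-- from Lib.GoldbachGraph.Moments
section

/-!
# Moments of codegrees in the Goldbach graph
-/

namespace Pool.Agent.Lib.GoldbachGraph

open Finset Filter Pool.Agent.Lib.Sieve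



/-- The constant bounding the average of `G ^ 8`. -/
noncomputable def CG : ℝ := Real.exp (64 * Real.exp 6 * ∑' n : ℕ, 1 / (n : ℝ) ^ 2)




/-- `S N = ∑_{m ≤ N} G m ^ 8`. -/
noncomputable def SG (N : ℕ) : ℝ := ∑ m ∈ Finset.range (N + 1), G m ^ 8








/-- The constant of the second moment. -/
noncomputable def C2 : ℝ := 1 + (1875 * 1636 ^ 4 + 1) ^ 2 * (6 * (1 + CG))



end Pool.Agent.Lib.GoldbachGraph
end

-- from Lib.GoldbachGraph.Proportion
section

/-!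
# A positive proportion of pairs have a common neighbour
-/

namespace Pool.Agent.Lib.GoldbachGraph

open Finset Filter Pool.Agent.Lib.Sieve

/-- Degree inside `[1, n]`. -/
def hdeg (n x : ℕ) : ℕ := ((Finset.Icc 1 n).filter fun u => hadj x u).card










/-- The proportion of good pairs. -/
noncomputable def c0 : ℝ := 1 / (1024 ^ 2 * C2)




end Pool.Agent.Lib.GoldbachGraph
end

-- from Lib.H18E.Defs
section

/-!
# Project H18E (MP_443e5f_co): tiny exceptional sets for the Goldbach graphs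

Everything is stated for halved vertices: `X ~ Y` iff `X + Y` and `|X - Y|` are odd primes (`hadj`),
`hdeg n X` is the number of neighbours of `X` in `[1, n]`, `SE X = ∏_{p ∣ X, p > 2} (p-1)/(p-2)`.

Target: for every `a < 1/2` and all large `n` there is a set `Γ` of all but `n exp (-(log n)^a)`
vertices, containing all vertices of degree at least `n exp (-(log n)^a)`, whose elements are pairwise
at distance at most `11`.
-/

open Finset Pool.Agent.Lib.H68T

namespace Pool.Agent.Lib.H18E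

noncomputable section

/-- The structured model of the primes in a class on which the exceptional character is `ε`
(`ε = 0`: no exceptional character). It is even in `m`; for `m > 0` it is `Mod Q r ε β m`. -/
def MM (Q r : ℕ) (ε β : ℝ) (m : ℤ) : ℝ := G Q m - ε * |(m : ℝ)| ^ (β - 1) * Gam Q r m

/-- Rankin's factor `∏_{p ∣ D} (1 + √p/(p-1))`. -/
def Rk (D : ℤ) : ℝ := ∏ p ∈ D.natAbs.primeFactors, (1 + Real.sqrt p / ((p : ℝ) - 1))

/-- `∏_{p ∣ D, p ∤ W} (1 + 1/(p-1))`. -/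
def Gp (W : ℕ) (D : ℤ) : ℝ :=
  ∏ p ∈ D.natAbs.primeFactors.filter (fun p => ¬ p ∣ W), (1 + 1 / ((p : ℝ) - 1))


/-- The index of the second prime: increasing (`σ = true`, differences) or decreasing
(`σ = false`, sums). -/
def ix (H : ℕ) (σ : Bool) (t c : ℕ) : ℕ := bif σ then t + c else t + (H - 1 - c)

/-- The difference `m - m'` (`σ = true`) resp. the sum `m + m'` (`σ = false`) of the two primes
`m = u + r (s + c)`, `m' = v + r (ix H σ t c)`. -/
def dd (H r : ℕ) (σ : Bool) (u v s t : ℕ) : ℤ :=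
  bif σ then ((u : ℤ) + r * s) - (v + r * t) else ((u : ℤ) + r * s) + (v + r * (t + (H - 1 : ℕ)))

/-- The arithmetic factor `∏_{p ∣ x, p > 2} (p-1)/(p-2)` of Hardy and Littlewood (the same as
`Pool.Agent.Lib.H18GB.SH`). -/
def SE (x : ℕ) : ℝ :=
  ∏ p ∈ x.primeFactors.filter (fun p => 2 < p), (((p : ℝ) - 1) / (p - 2))

/-- The classes modulo `r` compatible with `x`. -/
def compat (r x : ℕ) : Finset ℕ :=
  open Classical in (range r).filter (fun y => IsCoprime ((x : ℤ) + y) r ∧ IsCoprime ((x : ℤ) - y) r)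


end

end Pool.Agent.Lib.H18E
end

-- from Lib.H18E.PG
section

/-!
# Chunk PG: weighted correlations of Ramanujan sums along a progression
-/

open Finset Pool.Agent.Lib.H68T

namespace Pool.Agent.Lib.H18E

theorem pg_cq_congr {q : ℕ} {m m' : ℤ} (h : (q : ℤ) ∣ m - m') : cq q m = cq q m' := by
  unfold cq
  refine sum_congr (filter_congr fun d hd => ?_) fun _ _ => rfl
  have hdq : (d : ℤ) ∣ m - m' :=
    (Int.natCast_dvd_natCast.mpr (Nat.dvd_of_mem_divisors hd)).trans h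
  constructor
  · intro h1
    have := dvd_sub h1 hdq
    simpa using this
  · intro h1
    have := dvd_add hdq h1
    simpa using this

theorem pg_cq_mul {q W : ℕ} (h : Nat.Coprime q W) (m : ℤ) : cq q (W * m) = cq q m := by
  unfold cq
  refine sum_congr (filter_congr fun d hd => ?_) fun _ _ => rfl
  have hc : IsCoprime (d : ℤ) (W : ℤ) :=
    Nat.isCoprime_iff_coprime.mpr (Nat.Coprime.coprime_dvd_left (Nat.dvd_of_mem_divisors hd) h)
  exact ⟨fun h1 => hc.dvd_of_dvd_mul_left h1, fun h1 => dvd_mul_of_dvd_right h1 _⟩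

theorem pg_exists {q W : ℕ} (hq : 0 < q) (h : Nat.Coprime q W) (x : ℤ) :
    ∃ s : ℕ, (q : ℤ) ∣ x - W * s := by
  obtain ⟨a, b, hab⟩ := Nat.isCoprime_iff_coprime.mpr h
  have hq' : (0 : ℤ) < q := by exact_mod_cast hq
  refine ⟨((x * b) % q).toNat, ?_⟩
  rw [Int.toNat_of_nonneg (Int.emod_nonneg _ hq'.ne'), Int.emod_def]
  refine ⟨x * a + W * (x * b / q), ?_⟩
  linear_combination (-x) * hab

/-- As `cg1_corr` (file `H68T/CG1.lean`, with `cg1_count`), for arbitrary starting points: `x + W c`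
instead of `b + W (s + c)`, `y + W c` instead of `b + W (s' + c)`; the condition
`gcd(d₁,d₂) ∣ s - s'` becomes `gcd(d₁,d₂) ∣ x - y`. -/
theorem corr_gen (q₁ q₂ W N : ℕ) (x y : ℤ) (h₁ : 0 < q₁) (h₂ : 0 < q₂)
    (c₁ : Nat.Coprime q₁ W) (c₂ : Nat.Coprime q₂ W) :
    |∑ c ∈ range N, cq q₁ (x + W * (c : ℕ)) * cq q₂ (y + W * (c : ℕ)) -
      N * (if q₁ = q₂ then cq q₁ (x - y) else 0)| ≤
      (∑ d ∈ q₁.divisors, (d : ℝ)) * ∑ d ∈ q₂.divisors, (d : ℝ) := by
  obtain ⟨s, hs⟩ := pg_exists h₁ c₁ x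
  obtain ⟨s', hs'⟩ := pg_exists h₂ c₂ y
  have h := cg1_corr q₁ q₂ W 0 s s' N h₁ h₂ c₁ c₂
  have e1 : ∑ c ∈ range N, cq q₁ (x + W * (c : ℕ)) * cq q₂ (y + W * (c : ℕ)) =
      ∑ c ∈ range N, cq q₁ (((0 : ℕ) : ℤ) + W * (s + c : ℕ)) *
        cq q₂ (((0 : ℕ) : ℤ) + W * (s' + c : ℕ)) := by
    refine sum_congr rfl fun c _ => ?_
    congr 1
    · apply pg_cq_congr
      have : x + W * (c : ℕ) - (((0 : ℕ) : ℤ) + W * (s + c : ℕ)) = x - W * s := by push_cast; ring
      rw [this]; exact hs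
    · apply pg_cq_congr
      have : y + W * (c : ℕ) - (((0 : ℕ) : ℤ) + W * (s' + c : ℕ)) = y - W * s' := by
        push_cast; ring
      rw [this]; exact hs'
  have e2 : (if q₁ = q₂ then cq q₁ (x - y) else 0) =
      (if q₁ = q₂ then cq q₁ ((s : ℤ) - s') else 0) := by
    split_ifs with hq
    · subst hq
      rw [← pg_cq_mul c₁ ((s : ℤ) - s')]
      apply pg_cq_congr
      have := dvd_sub hs hs'
      have e : x - y - W * ((s : ℤ) - s') = x - W * s - (y - W * s') := by ring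
      rw [e]; exact this
    · rfl
  rw [e1, e2]
  exact h

end Pool.Agent.Lib.H18E
end

-- from Lib.H18Q.S2
section

/-!
# Project H18Q, chunk S2: the mean value of the sieve majorant
-/

open Finset

namespace Pool.Agent.Lib.H18Q

open Pool.Agent.Lib.H68T

/-- `V z = ∑_{q ≤ z} μ²(q)/φ(q)`. -/
noncomputable def Vz (z : ℕ) : ℝ :=
  ∑ q ∈ Icc 1 z, (ArithmeticFunction.moebius q : ℝ) ^ 2 / (Nat.totient q : ℝ)

theorem s2_rad (n : ℕ) (hn : n ≠ 0) : Squarefree (∏ p ∈ n.primeFactors, p) ∧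
    (∏ p ∈ n.primeFactors, p).primeFactors = n.primeFactors := by
  refine ⟨?_, Nat.primeFactors_prod fun p hp => Nat.prime_of_mem_primeFactors hp⟩
  rw [← Nat.radical_eq_prod_primeFactors]
  exact UniqueFactorizationMonoid.squarefree_radical

/-- The sum of `1/n` over numbers with radical `q`. -/
theorem s2_fiber (q z : ℕ) (hq : Squarefree q) :
    ∑ n ∈ (Icc 1 z).filter (fun n => ∏ p ∈ n.primeFactors, p = q), (1 : ℝ) / n ≤
      1 / (Nat.totient q : ℝ) := by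
  classical
  have hq0 : q ≠ 0 := hq.ne_zero
  have hqR : (0 : ℝ) < q := by exact_mod_cast Nat.pos_of_ne_zero hq0
  let f : ℕ →* ℝ :=
    { toFun := fun n => (n : ℝ)⁻¹
      map_one' := by simp
      map_mul' := fun a b => by push_cast; rw [mul_inv] }
  have hf : ∀ {p : ℕ}, p.Prime → ‖f p‖ < 1 := by
    intro p hp
    have h2 : (1 : ℝ) < p := by exact_mod_cast hp.one_lt
    change ‖(p : ℝ)⁻¹‖ < 1
    rw [Real.norm_of_nonneg (by positivity)]
    exact inv_lt_one_of_one_lt₀ h2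
  obtain ⟨hs, hS⟩ :=
    EulerProduct.summable_and_hasSum_factoredNumbers_prod_filter_prime_geometric hf q.primeFactors
  have hprod : ∏ p ∈ q.primeFactors with p.Prime, (1 - f p)⁻¹ = (q : ℝ) / (Nat.totient q : ℝ) := by
    have h1 : q.primeFactors.filter (fun p => p.Prime) = q.primeFactors :=
      Finset.filter_true_of_mem fun p hp => Nat.prime_of_mem_primeFactors hp
    have h2 : (Nat.totient q : ℝ) = q * ∏ p ∈ q.primeFactors, (1 - (p : ℝ)⁻¹) := by
      have := Nat.totient_eq_mul_prod_factors q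
      have h3 : ((Nat.totient q : ℚ) : ℝ) = ((q * ∏ p ∈ q.primeFactors, (1 - (p : ℚ)⁻¹) : ℚ) : ℝ) := by
        rw [this]
      push_cast at h3
      exact h3
    rw [h1, h2, Finset.prod_inv_distrib]
    have h3 : ∏ p ∈ q.primeFactors, (1 - f p) = ∏ p ∈ q.primeFactors, (1 - (p : ℝ)⁻¹) := rfl
    rw [h3]
    have h4 : ∏ p ∈ q.primeFactors, (1 - (p : ℝ)⁻¹) ≠ 0 := by
      rw [Finset.prod_ne_zero_iff]
      intro p hp
      have hp' := Nat.prime_of_mem_primeFactors hp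
      have h5 : (1 : ℝ) < p := by exact_mod_cast hp'.one_lt
      have h6 : (p : ℝ)⁻¹ < 1 := inv_lt_one_of_one_lt₀ h5
      linarith
    field_simp
  rw [hprod] at hS
  set A := (Icc 1 z).filter (fun n => ∏ p ∈ n.primeFactors, p = q) with hA
  have hmem : ∀ n ∈ A, q ∣ n ∧ n ≠ 0 ∧ n / q ∈ Nat.factoredNumbers q.primeFactors := by
    intro n hn
    rw [hA, Finset.mem_filter, Finset.mem_Icc] at hn
    obtain ⟨⟨h1, -⟩, h2⟩ := hn
    have hn0 : n ≠ 0 := by omega
    have hd : q ∣ n := by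
      rw [← h2]; exact Nat.prod_primeFactors_dvd n
    refine ⟨hd, hn0, ?_⟩
    rw [Nat.mem_factoredNumbers_iff_primeFactors_subset]
    have h3 : n / q ≠ 0 := (Nat.div_pos (Nat.le_of_dvd (by omega) hd) (by omega)).ne'
    refine ⟨h3, ?_⟩
    have h4 : (n / q).primeFactors ⊆ n.primeFactors :=
      Nat.primeFactors_mono (Nat.div_dvd_of_dvd hd) hn0
    refine h4.trans ?_
    rw [← (s2_rad n hn0).2, h2]
  -- compare with the sum over the factored numbers
  have hle : ∑ n ∈ A, (1 : ℝ) / ((n / q : ℕ) : ℝ) ≤ (q : ℝ) / (Nat.totient q : ℝ) := by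
    let g : A → Nat.factoredNumbers q.primeFactors := fun n => ⟨n.1 / q, (hmem n.1 n.2).2.2⟩
    have hg : Function.Injective g := by
      intro a b hab
      have h1 : a.1 / q = b.1 / q := congrArg Subtype.val hab
      have h2 := Nat.div_mul_cancel (hmem a.1 a.2).1
      have h3 := Nat.div_mul_cancel (hmem b.1 b.2).1
      apply Subtype.ext
      rw [← h2, ← h3, h1]
    have h1 : ∑ n ∈ A, (1 : ℝ) / ((n / q : ℕ) : ℝ) = ∑ n : A, f (g n) := by
      rw [← Finset.sum_coe_sort A]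
      refine Finset.sum_congr rfl fun n _ => ?_
      change (1 : ℝ) / ((n.1 / q : ℕ) : ℝ) = (((n.1 / q : ℕ)) : ℝ)⁻¹
      rw [one_div]
    have h2 : ∑ n : A, f (g n) =
        ∑ m ∈ (Finset.univ : Finset A).map ⟨g, hg⟩, f m := by
      rw [Finset.sum_map]
      rfl
    rw [h1, h2]
    refine sum_le_hasSum _ (fun m _ => ?_) hS
    change (0 : ℝ) ≤ ((m : ℕ) : ℝ)⁻¹
    positivity
  have h1 : ∑ n ∈ A, (1 : ℝ) / n = (1 / q) * ∑ n ∈ A, (1 : ℝ) / ((n / q : ℕ) : ℝ) := by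
    rw [Finset.mul_sum]
    refine Finset.sum_congr rfl fun n hn => ?_
    have h2 := Nat.div_mul_cancel (hmem n hn).1
    have h3 : (n : ℝ) = ((n / q : ℕ) : ℝ) * q := by exact_mod_cast h2.symm
    rw [div_mul_div_comm, one_mul, mul_comm (q : ℝ), ← h3]
  rw [h1]
  calc (1 / (q : ℝ)) * ∑ n ∈ A, (1 : ℝ) / ((n / q : ℕ) : ℝ)
      ≤ (1 / (q : ℝ)) * ((q : ℝ) / (Nat.totient q : ℝ)) :=
        mul_le_mul_of_nonneg_left hle (by positivity)
    _ = 1 / (Nat.totient q : ℝ) := by field_simp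

/-- `V z ≥ log z`: `∑_{q ≤ z} μ²(q)/φ(q) ≥ ∑_{n ≤ z} 1/n ≥ log z`
(`1/φ(q) = ∑_{n : rad n = q} 1/n` for squarefree `q`; `n ≤ z` has `rad n ≤ z`). See `ss_low` or
`SS1_sum` in `Lib/H18E`, or Mathlib's Selberg sieve, if helpful. -/
theorem Vz_ge (z : ℕ) (hz : 1 ≤ z) : Real.log z ≤ Vz z := by
  classical
  have h1 : Real.log z ≤ ∑ n ∈ Icc 1 z, (1 : ℝ) / n := by
    have h2 := log_add_one_le_harmonic z
    have h3 : (harmonic z : ℝ) = ∑ n ∈ Icc 1 z, (1 : ℝ) / n := by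
      rw [harmonic_eq_sum_Icc]
      push_cast
      exact Finset.sum_congr rfl fun n _ => by rw [one_div]
    rw [h3] at h2
    refine le_trans (Real.log_le_log (by exact_mod_cast hz) ?_) h2
    push_cast
    linarith
  refine h1.trans ?_
  have hmaps : ∀ n ∈ Icc 1 z, (∏ p ∈ n.primeFactors, p) ∈ (Icc 1 z).filter Squarefree := by
    intro n hn
    rw [Finset.mem_Icc] at hn
    rw [Finset.mem_filter, Finset.mem_Icc]
    have hn0 : n ≠ 0 := by omega
    have h2 := (s2_rad n hn0).1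
    refine ⟨⟨Nat.pos_of_ne_zero h2.ne_zero, ?_⟩, h2⟩
    exact (Nat.le_of_dvd (by omega) (Nat.prod_primeFactors_dvd n)).trans hn.2
  rw [← Finset.sum_fiberwise_of_maps_to hmaps]
  have h2 : ∑ q ∈ (Icc 1 z).filter Squarefree, (1 : ℝ) / (Nat.totient q : ℝ) = Vz z := by
    unfold Vz
    rw [Finset.sum_filter]
    refine Finset.sum_congr rfl fun q _ => ?_
    by_cases hq : Squarefree q
    · rw [if_pos hq]
      have h3 : (ArithmeticFunction.moebius q : ℤ) ^ 2 = 1 := by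
        rw [ArithmeticFunction.moebius_sq, if_pos hq]
      have h4 : (ArithmeticFunction.moebius q : ℝ) ^ 2 = 1 := by exact_mod_cast h3
      rw [h4]
    · rw [if_neg hq, ArithmeticFunction.moebius_eq_zero_of_not_squarefree hq]
      simp
  rw [← h2]
  refine Finset.sum_le_sum fun q hq => ?_
  exact s2_fiber q z (Finset.mem_filter.1 hq).2

theorem Vz_ge_one (z : ℕ) (hz : 1 ≤ z) : 1 ≤ Vz z := by
  unfold Vz
  have h1 : (1 : ℝ) = ∑ q ∈ ({1} : Finset ℕ),
      (ArithmeticFunction.moebius q : ℝ) ^ 2 / (Nat.totient q : ℝ) := by simp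
  rw [h1]
  refine Finset.sum_le_sum_of_subset_of_nonneg ?_ fun q _ _ => by positivity
  intro q hq
  rw [Finset.mem_singleton] at hq
  rw [hq, Finset.mem_Icc]
  omega

/-- For a prime `n > z`: `c_q(n) = μ(q)` for `q ≤ z` (only `d = 1` divides both), so
`G z n = V z`. -/
theorem G_prime (z n : ℕ) (hn : n.Prime) (hzn : z < n) : G z n = Vz z := by
  unfold G Vz
  refine Finset.sum_congr rfl fun q hq => ?_
  rw [Finset.mem_Icc] at hq
  have h1 : cq q (n : ℤ) = (ArithmeticFunction.moebius q : ℝ) := by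
    unfold cq
    have h2 : q.divisors.filter (fun d : ℕ => (d : ℤ) ∣ (n : ℤ)) = {1} := by
      ext d
      rw [Finset.mem_filter, Nat.mem_divisors, Finset.mem_singleton, Int.natCast_dvd_natCast]
      constructor
      · rintro ⟨⟨h3, h4⟩, h5⟩
        rcases (Nat.dvd_prime hn).1 h5 with h6 | h6
        · exact h6
        · exfalso
          have := Nat.le_of_dvd (by omega) h3
          omega
      · rintro rfl
        exact ⟨⟨one_dvd _, by omega⟩, one_dvd _⟩
    rw [h2, Finset.sum_singleton]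
    simp
  rw [h1]
  ring

/-- Mean square of `G z` over an interval: `∑_{n ∈ (M, M+N]} G(z,n)² ≤ N V + z^8`.

Proof. `c_q(n) = ∑_{a mod q, (a,q)=1} e(a n/q)`-free proof: `∑_{n ∈ (M, M+N]} c_q(n) c_q'(n) =
∑_{d ∣ q, d' ∣ q'} d d' μ(q/d) μ(q'/d') #{n : lcm(d,d') ∣ n}`, and `# = N/lcm(d,d') + θ`,
`|θ| ≤ 1`. The main part is `N ∑_{d ∣ q} ∑_{d' ∣ q'} μ(q/d) μ(q'/d') gcd(d,d') = N φ(q) 1[q = q']`
(`gcd(d,d') = ∑_{e ∣ d, e ∣ d'} φ(e)` and Möbius inversion: `∑_{d ∣ q} μ(q/d) 1[e ∣ d] = 1[e = q]`);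
the error is at most `(∑_{d ∣ q} d)(∑_{d' ∣ q'} d') ≤ (z²)(z²) = z^4`. Then
`∑ G² = ∑_{q,q'} μ(q) μ(q')/(φ(q) φ(q')) ∑_n c_q c_q' ≤ N ∑_q μ²(q)/φ(q) + z² z^4`. (The same
computation, for shifted arguments, is in `H68T` (search `corr`, file `CG1`) and `H18E`.) -/
theorem G_sq_sum (z M N : ℕ) :
    ∑ n ∈ Ioc M (M + N), G z n ^ 2 ≤ N * Vz z + (z : ℝ) ^ 8 := by
  have hcast : ∀ k : ℕ, (ArithmeticFunction.moebius k : ℝ) ^ 2 ≤ 1 := by
    intro k
    have := cg1_abs_moebius_le k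
    rw [sq_le_one_iff_abs_le_one]
    exact this
  have hsum : ∑ n ∈ Ioc M (M + N), G z n ^ 2 =
      ∑ c ∈ range N, G z (((M + 1 : ℕ) : ℤ) + (1 : ℕ) * (c : ℕ)) ^ 2 := by
    have h1 : Ioc M (M + N) = (range N).image (fun c => M + 1 + c) := by
      ext n
      rw [Finset.mem_Ioc, Finset.mem_image]
      constructor
      · rintro ⟨h1, h2⟩
        exact ⟨n - (M + 1), Finset.mem_range.2 (by omega), by omega⟩
      · rintro ⟨c, hc, rfl⟩
        rw [Finset.mem_range] at hc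
        omega
    rw [h1, Finset.sum_image]
    · refine Finset.sum_congr rfl fun c _ => ?_
      congr 2
      push_cast
      ring
    · intro a _ b _ hab
      simpa using hab
  rw [hsum]
  set x : ℤ := ((M + 1 : ℕ) : ℤ) with hx
  set a : ℕ → ℝ := fun q => (ArithmeticFunction.moebius q : ℝ) / (Nat.totient q : ℝ) with ha
  have hexp : ∑ c ∈ range N, G z (x + (1 : ℕ) * (c : ℕ)) ^ 2 =
      ∑ q₁ ∈ Icc 1 z, ∑ q₂ ∈ Icc 1 z, a q₁ * a q₂ *
        ∑ c ∈ range N, cq q₁ (x + (1 : ℕ) * (c : ℕ)) * cq q₂ (x + (1 : ℕ) * (c : ℕ)) := by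
    have h1 : ∀ c ∈ range N, G z (x + (1 : ℕ) * (c : ℕ)) ^ 2 =
        ∑ q₁ ∈ Icc 1 z, ∑ q₂ ∈ Icc 1 z, a q₁ * a q₂ *
          (cq q₁ (x + (1 : ℕ) * (c : ℕ)) * cq q₂ (x + (1 : ℕ) * (c : ℕ))) := by
      intro c _
      unfold G
      rw [sq, Finset.sum_mul_sum]
      refine Finset.sum_congr rfl fun q₁ _ => Finset.sum_congr rfl fun q₂ _ => ?_
      simp only [ha]
      ring
    rw [Finset.sum_congr rfl h1, Finset.sum_comm]
    refine Finset.sum_congr rfl fun q₁ _ => ?_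
    rw [Finset.sum_comm]
    refine Finset.sum_congr rfl fun q₂ _ => ?_
    rw [Finset.mul_sum]
  rw [hexp]
  have hsig : ∀ q ∈ Icc 1 z, ∑ d ∈ q.divisors, (d : ℝ) ≤ (z : ℝ) ^ 2 := by
    intro q hq
    rw [Finset.mem_Icc] at hq
    have hqz : (q : ℝ) ≤ z := by exact_mod_cast hq.2
    calc ∑ d ∈ q.divisors, (d : ℝ) ≤ ∑ d ∈ q.divisors, (q : ℝ) :=
          Finset.sum_le_sum fun d hd => by exact_mod_cast Nat.divisor_le hd
      _ = (q.divisors.card : ℝ) * q := by rw [Finset.sum_const, nsmul_eq_mul]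
      _ ≤ (q : ℝ) * q := by
          refine mul_le_mul_of_nonneg_right ?_ (by positivity)
          exact_mod_cast Nat.card_divisors_le_self q
      _ ≤ (z : ℝ) ^ 2 := by
          rw [sq]
          exact mul_le_mul hqz hqz (by positivity) (by positivity)
  have hsig0 : ∀ q : ℕ, 0 ≤ ∑ d ∈ q.divisors, (d : ℝ) := fun q =>
    Finset.sum_nonneg fun d _ => by positivity
  have ha1 : ∀ q ∈ Icc 1 z, |a q| ≤ 1 := by
    intro q hq
    rw [Finset.mem_Icc] at hq
    simp only [ha]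
    rw [abs_div]
    have h1 : (1 : ℝ) ≤ (Nat.totient q : ℝ) := by
      exact_mod_cast Nat.totient_pos.2 (by omega)
    rw [abs_of_nonneg (by linarith : (0 : ℝ) ≤ (Nat.totient q : ℝ)), div_le_one (by linarith)]
    exact (cg1_abs_moebius_le q).trans h1
  have hcq0 : ∀ q ∈ Icc 1 z, cq q 0 = (Nat.totient q : ℝ) := by
    intro q hq
    rw [Finset.mem_Icc] at hq
    have h2 := cg1_moebius (fun i => (Nat.totient i : ℝ)) (fun n => (n : ℝ))
      (fun n _ => by exact_mod_cast Nat.sum_totient n) q (by omega)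
    rw [← h2]
    unfold cq
    simp only [dvd_zero, Finset.filter_true]
    exact Finset.sum_congr rfl fun d _ => mul_comm _ _
  have hterm : ∀ q₁ ∈ Icc 1 z, ∀ q₂ ∈ Icc 1 z, a q₁ * a q₂ *
        ∑ c ∈ range N, cq q₁ (x + (1 : ℕ) * (c : ℕ)) * cq q₂ (x + (1 : ℕ) * (c : ℕ)) ≤
      a q₁ * a q₂ * (N * (if q₁ = q₂ then cq q₁ (x - x) else 0)) + (z : ℝ) ^ 4 := by
    intro q₁ h₁ q₂ h₂
    have h₁' := Finset.mem_Icc.1 h₁
    have h₂' := Finset.mem_Icc.1 h₂
    have h3 := Pool.Agent.Lib.H18E.corr_gen q₁ q₂ 1 N x x (by omega) (by omega)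
      (Nat.coprime_one_right _) (Nat.coprime_one_right _)
    set S := ∑ c ∈ range N, cq q₁ (x + (1 : ℕ) * (c : ℕ)) * cq q₂ (x + (1 : ℕ) * (c : ℕ)) with hS
    set T := N * (if q₁ = q₂ then cq q₁ (x - x) else 0) with hT
    have h4 : a q₁ * a q₂ * S - a q₁ * a q₂ * T ≤ (z : ℝ) ^ 4 := by
      calc a q₁ * a q₂ * S - a q₁ * a q₂ * T = (a q₁ * a q₂) * (S - T) := by ring
        _ ≤ |(a q₁ * a q₂) * (S - T)| := le_abs_self _
        _ = |a q₁| * |a q₂| * |S - T| := by rw [abs_mul, abs_mul]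
        _ ≤ 1 * 1 * ((z : ℝ) ^ 2 * (z : ℝ) ^ 2) := by
            refine mul_le_mul (mul_le_mul (ha1 q₁ h₁) (ha1 q₂ h₂) (abs_nonneg _) zero_le_one)
              (h3.trans (mul_le_mul (hsig q₁ h₁) (hsig q₂ h₂) (hsig0 q₂) (by positivity)))
              (abs_nonneg _) (by norm_num)
        _ = (z : ℝ) ^ 4 := by ring
    linarith
  refine (Finset.sum_le_sum fun q₁ h₁ => Finset.sum_le_sum fun q₂ h₂ =>
    hterm q₁ h₁ q₂ h₂).trans ?_
  have hmain : ∑ q₁ ∈ Icc 1 z, ∑ q₂ ∈ Icc 1 z, (a q₁ * a q₂ *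
      (N * (if q₁ = q₂ then cq q₁ (x - x) else 0)) + (z : ℝ) ^ 4) =
      N * Vz z + (z : ℝ) ^ 2 * (z : ℝ) ^ 4 := by
    simp only [Finset.sum_add_distrib, Finset.sum_const, Nat.card_Icc, nsmul_eq_mul,
      add_tsub_cancel_right]
    congr 1
    · unfold Vz
      rw [Finset.mul_sum]
      refine Finset.sum_congr rfl fun q₁ h₁ => ?_
      rw [Finset.sum_eq_single q₁]
      · rw [if_pos rfl, sub_self, hcq0 q₁ h₁]
        simp only [ha]
        have h1 : (0 : ℝ) < (Nat.totient q₁ : ℝ) := by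
          exact_mod_cast Nat.totient_pos.2 (by have := Finset.mem_Icc.1 h₁; omega)
        field_simp
      · intro q₂ _ h
        rw [if_neg (Ne.symm h)]
        ring
      · intro h
        exact absurd h₁ h
    · ring
  rw [hmain]
  have h5 : (z : ℝ) ^ 2 * (z : ℝ) ^ 4 ≤ (z : ℝ) ^ 8 := by
    rcases Nat.eq_zero_or_pos z with h0 | h0
    · subst h0; norm_num
    · have h1 : (1 : ℝ) ≤ z := by exact_mod_cast h0
      calc (z : ℝ) ^ 2 * (z : ℝ) ^ 4 = (z : ℝ) ^ 6 := by ring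
        _ ≤ (z : ℝ) ^ 8 := pow_le_pow_right₀ h1 (by norm_num)
  linarith

end Pool.Agent.Lib.H18Q
end

-- from Lib.H18E.SS1
section

/-!
# Chunk SS1: the tail of the singular series (Rankin's trick)
-/

open Finset Pool.Agent.Lib.H68T

namespace Pool.Agent.Lib.H18E

/-- the local factor of Rankin's majorant -/
noncomputable def SS1_f (D : ℕ) (p : ℕ) : ℝ :=
  if p ∣ D then Real.sqrt p / ((p : ℝ) - 1) else Real.sqrt p / ((p : ℝ) - 1) ^ 2

theorem SS1_tot {q : ℕ} (hq : Squarefree q) :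
    (Nat.totient q : ℝ) = ∏ p ∈ q.primeFactors, ((p : ℝ) - 1) := by
  have h1 := Nat.totient_eq_div_primeFactors_mul q
  rw [Nat.prod_primeFactors_of_squarefree hq,
    Nat.div_self (Nat.pos_of_ne_zero hq.ne_zero), one_mul] at h1
  rw [h1, Nat.cast_prod]
  refine prod_congr rfl fun p hp => ?_
  have h2 := (Nat.prime_of_mem_primeFactors hp).one_le
  rw [Nat.cast_sub h2, Nat.cast_one]

theorem SS1_term {q D : ℕ} (hq : Squarefree q) (hD : D ≠ 0) :
    Real.sqrt q * ((Nat.totient (Nat.gcd q D) : ℝ) / (Nat.totient q : ℝ) ^ 2) =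
      ∏ p ∈ q.primeFactors, SS1_f D p := by
  have hg : Squarefree (Nat.gcd q D) := hq.squarefree_of_dvd (Nat.gcd_dvd_left q D)
  have h1 : (Nat.gcd q D).primeFactors = q.primeFactors.filter (fun p => p ∣ D) := by
    rw [Nat.primeFactors_gcd hq.ne_zero hD]
    ext p
    simp only [mem_inter, mem_filter, Nat.mem_primeFactors]
    constructor
    · rintro ⟨⟨a, b, c⟩, d, e, f⟩
      exact ⟨⟨a, b, c⟩, e⟩
    · rintro ⟨⟨a, b, c⟩, e⟩
      exact ⟨⟨a, b, c⟩, a, e, hD⟩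
  have h2 : Real.sqrt q = ∏ p ∈ q.primeFactors, Real.sqrt p := by
    rw [← Real.sqrt_prod _ (fun p _ => Nat.cast_nonneg p), ← Nat.cast_prod,
      Nat.prod_primeFactors_of_squarefree hq]
  rw [SS1_tot hg, SS1_tot hq, h1, prod_filter, h2, ← prod_pow, ← prod_div_distrib,
    ← prod_mul_distrib]
  refine prod_congr rfl fun p hp => ?_
  have h3 : (1 : ℝ) < p := by exact_mod_cast (Nat.prime_of_mem_primeFactors hp).one_lt
  have h4 : (p : ℝ) - 1 ≠ 0 := by linarith
  unfold SS1_f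
  split_ifs
  · field_simp
  · field_simp

theorem SS1_f_nonneg (D : ℕ) {p : ℕ} (hp : 1 < p) : 0 ≤ SS1_f D p := by
  have h3 : (1 : ℝ) < p := by exact_mod_cast hp
  have h4 : 0 < (p : ℝ) - 1 := by linarith
  unfold SS1_f
  split_ifs <;> positivity

theorem SS1_sum (S : Finset ℕ) (hS : ∀ q ∈ S, Squarefree q) (D : ℕ) :
    ∑ q ∈ S, ∏ p ∈ q.primeFactors, SS1_f D p ≤
      ∏ p ∈ S.biUnion Nat.primeFactors, (1 + SS1_f D p) := by
  rw [prod_one_add]
  have hinj : Set.InjOn Nat.primeFactors (S : Set ℕ) := by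
    intro a ha b hb hab
    rw [← Nat.prod_primeFactors_of_squarefree (hS a ha), hab,
      Nat.prod_primeFactors_of_squarefree (hS b hb)]
  rw [← sum_image (f := fun T => ∏ p ∈ T, SS1_f D p) hinj]
  refine sum_le_sum_of_subset_of_nonneg ?_ ?_
  · intro T hT
    obtain ⟨q, hq, rfl⟩ := mem_image.1 hT
    rw [mem_powerset]
    exact subset_biUnion_of_mem Nat.primeFactors hq
  · intro T hT _
    refine prod_nonneg fun p hp => ?_
    have h1 := (mem_powerset.1 hT) hp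
    obtain ⟨q, _, hq⟩ := mem_biUnion.1 h1
    exact SS1_f_nonneg D (Nat.prime_of_mem_primeFactors hq).one_lt

theorem SS1_small {p : ℕ} (hp : 1 < p) :
    Real.sqrt p / ((p : ℝ) - 1) ^ 2 ≤ 4 * (1 / (p : ℝ) ^ (3 / 2 : ℝ)) := by
  have h2 : (2 : ℝ) ≤ p := by exact_mod_cast hp
  have h0 : (0 : ℝ) < p := by linarith
  have h4 : 0 < (p : ℝ) - 1 := by linarith
  have h5 : (p : ℝ) ^ (3 / 2 : ℝ) * Real.sqrt p = (p : ℝ) ^ 2 := by
    rw [Real.sqrt_eq_rpow, ← Real.rpow_add h0, ← Real.rpow_natCast]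
    norm_num
  have h6 : 0 < (p : ℝ) ^ (3 / 2 : ℝ) := Real.rpow_pos_of_pos h0 _
  rw [mul_one_div, div_le_div_iff₀ (by positivity) h6, mul_comm (Real.sqrt p), h5]
  nlinarith

/-- Every `q` in the sum is squarefree with `√q > Q^(1/4)`, so the term is at most
`Q^(-1/4) f(q)`, `f(q) = √q φ((q,D))/φ(q)^2`, multiplicative on squarefree numbers:
`f(p) = √p/(p-1)` if `p ∣ D`, `f(p) = √p/(p-1)^2` otherwise. A sum of `f` over a finite set of
squarefree numbers is at most `∏ (1 + f(p))` over a finite set of primes containing all their prime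
factors (`Finset.prod_one_add`), and this is at most
`Rk D * ∏_p (1 + √p/(p-1)^2) ≤ Rk D * exp (∑_p √p/(p-1)^2)`, a convergent sum
(`√p/(p-1)^2 ≤ 4 p^(-3/2)`). -/
theorem ss_tail : ∃ C : ℝ, 1 ≤ C ∧ ∀ (Q : ℕ) (D : ℤ), D ≠ 0 → 1 ≤ Q → ∀ S : Finset ℕ,
    (∀ q ∈ S, Squarefree q ∧ Q < q ^ 2) →
    ∑ q ∈ S, (Nat.totient (Nat.gcd q D.natAbs) : ℝ) / (Nat.totient q : ℝ) ^ 2 ≤
      C * (Q : ℝ) ^ (-(1 / 4) : ℝ) * Rk D := by
  have hsum : Summable (fun n : ℕ => 1 / (n : ℝ) ^ (3 / 2 : ℝ)) :=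
    Real.summable_one_div_nat_rpow.2 (by norm_num)
  have hsum0 : 0 ≤ ∑' n : ℕ, 1 / (n : ℝ) ^ (3 / 2 : ℝ) := tsum_nonneg fun n => by positivity
  refine ⟨Real.exp (4 * ∑' n : ℕ, 1 / (n : ℝ) ^ (3 / 2 : ℝ)),
    Real.one_le_exp (by linarith), ?_⟩
  intro Q D hD hQ S hS
  have hD' : D.natAbs ≠ 0 := Int.natAbs_ne_zero.2 hD
  have hQ0 : (0 : ℝ) < Q := by exact_mod_cast hQ
  have hQ1 : 0 < (Q : ℝ) ^ (-(1 / 4) : ℝ) := Real.rpow_pos_of_pos hQ0 _
  -- pointwise bound
  have h1 : ∀ q ∈ S, (Nat.totient (Nat.gcd q D.natAbs) : ℝ) / (Nat.totient q : ℝ) ^ 2 ≤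
      (Q : ℝ) ^ (-(1 / 4) : ℝ) * ∏ p ∈ q.primeFactors, SS1_f D.natAbs p := by
    intro q hq
    obtain ⟨hsq, hlt⟩ := hS q hq
    rw [← SS1_term hsq hD', ← mul_assoc]
    have h2 : 1 ≤ (Q : ℝ) ^ (-(1 / 4) : ℝ) * Real.sqrt q := by
      have h3 : (Q : ℝ) ^ (1 / 4 : ℝ) ≤ Real.sqrt q := by
        have h4 : (Q : ℝ) ≤ (q : ℝ) ^ 2 := by exact_mod_cast hlt.le
        have h5 : (Q : ℝ) ^ (1 / 4 : ℝ) ≤ ((q : ℝ) ^ 2) ^ (1 / 4 : ℝ) :=
          Real.rpow_le_rpow hQ0.le h4 (by norm_num)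
        refine h5.trans (le_of_eq ?_)
        rw [← Real.rpow_natCast, ← Real.rpow_mul (Nat.cast_nonneg q), Real.sqrt_eq_rpow]
        norm_num
      have h6 : (Q : ℝ) ^ (-(1 / 4) : ℝ) * (Q : ℝ) ^ (1 / 4 : ℝ) = 1 := by
        rw [← Real.rpow_add hQ0]
        norm_num
      exact h6.symm.le.trans (mul_le_mul_of_nonneg_left h3 hQ1.le)
    have h7 : 0 ≤ (Nat.totient (Nat.gcd q D.natAbs) : ℝ) / (Nat.totient q : ℝ) ^ 2 := by
      positivity
    nlinarith
  refine (sum_le_sum h1).trans ?_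
  rw [← mul_sum]
  have h2 := SS1_sum S (fun q hq => (hS q hq).1) D.natAbs
  -- the product
  set P := S.biUnion Nat.primeFactors with hP
  have hPp : ∀ p ∈ P, p.Prime := by
    intro p hp
    obtain ⟨q, _, hq⟩ := mem_biUnion.1 hp
    exact Nat.prime_of_mem_primeFactors hq
  have hA : ∏ p ∈ P.filter (fun p => p ∣ D.natAbs), (1 + SS1_f D.natAbs p) ≤ Rk D := by
    unfold Rk
    have hsub : P.filter (fun p => p ∣ D.natAbs) ⊆ D.natAbs.primeFactors := by
      intro p hp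
      rw [mem_filter] at hp
      exact Nat.mem_primeFactors.2 ⟨hPp p hp.1, hp.2, hD'⟩
    rw [← prod_sdiff hsub]
    have e1 : ∏ p ∈ P.filter (fun p => p ∣ D.natAbs), (1 + SS1_f D.natAbs p) =
        ∏ p ∈ P.filter (fun p => p ∣ D.natAbs), (1 + Real.sqrt p / ((p : ℝ) - 1)) := by
      refine prod_congr rfl fun p hp => ?_
      rw [SS1_f, if_pos (mem_filter.1 hp).2]
    rw [e1]
    have hone : ∀ p ∈ D.natAbs.primeFactors, 1 ≤ 1 + Real.sqrt p / ((p : ℝ) - 1) := by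
      intro p hp
      have h3 : (1 : ℝ) < p := by exact_mod_cast (Nat.prime_of_mem_primeFactors hp).one_lt
      have h4 : 0 < (p : ℝ) - 1 := by linarith
      have h5 : 0 ≤ Real.sqrt p / ((p : ℝ) - 1) := by positivity
      linarith
    have h3 : 1 ≤ ∏ p ∈ D.natAbs.primeFactors \ P.filter (fun p => p ∣ D.natAbs),
        (1 + Real.sqrt p / ((p : ℝ) - 1)) := by
      have h4 := prod_le_prod (s := D.natAbs.primeFactors \ P.filter (fun p => p ∣ D.natAbs))
        (f := fun _ => (1 : ℝ)) (g := fun p : ℕ => (1 + Real.sqrt p / ((p : ℝ) - 1)))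
        (fun _ _ => zero_le_one) (fun p hp => hone p (mem_sdiff.1 hp).1)
      rwa [prod_const_one] at h4
    have h4 : 0 ≤ ∏ p ∈ P.filter (fun p => p ∣ D.natAbs), (1 + Real.sqrt p / ((p : ℝ) - 1)) :=
      prod_nonneg fun p hp => zero_le_one.trans (hone p (hsub hp))
    nlinarith
  have hB : ∏ p ∈ P.filter (fun p => ¬ p ∣ D.natAbs), (1 + SS1_f D.natAbs p) ≤
      Real.exp (4 * ∑' n : ℕ, 1 / (n : ℝ) ^ (3 / 2 : ℝ)) := by
    calc ∏ p ∈ P.filter (fun p => ¬ p ∣ D.natAbs), (1 + SS1_f D.natAbs p)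
        ≤ ∏ p ∈ P.filter (fun p => ¬ p ∣ D.natAbs), Real.exp (4 * (1 / (p : ℝ) ^ (3 / 2 : ℝ))) := by
          refine prod_le_prod ?_ ?_
          · intro p hp
            have := SS1_f_nonneg D.natAbs (hPp p (mem_filter.1 hp).1).one_lt
            linarith
          · intro p hp
            rw [mem_filter] at hp
            have h3 := SS1_small (hPp p hp.1).one_lt
            rw [SS1_f, if_neg hp.2]
            have h4 := Real.add_one_le_exp (4 * (1 / (p : ℝ) ^ (3 / 2 : ℝ)))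
            linarith
      _ = Real.exp (4 * ∑ p ∈ P.filter (fun p => ¬ p ∣ D.natAbs), 1 / (p : ℝ) ^ (3 / 2 : ℝ)) := by
          rw [mul_sum, Real.exp_sum]
      _ ≤ _ := by
          rw [Real.exp_le_exp]
          have h3 := hsum.sum_le_tsum (P.filter (fun p => ¬ p ∣ D.natAbs))
            (fun n _ => by positivity)
          linarith
  have hprod : ∏ p ∈ P, (1 + SS1_f D.natAbs p) ≤
      Real.exp (4 * ∑' n : ℕ, 1 / (n : ℝ) ^ (3 / 2 : ℝ)) * Rk D := by
    rw [← prod_filter_mul_prod_filter_not P (fun p => p ∣ D.natAbs), mul_comm]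
    refine mul_le_mul hB hA ?_ (Real.exp_pos _).le
    refine prod_nonneg fun p hp => ?_
    have := SS1_f_nonneg D.natAbs (hPp p (mem_filter.1 hp).1).one_lt
    linarith
  calc (Q : ℝ) ^ (-(1 / 4) : ℝ) * ∑ q ∈ S, ∏ p ∈ q.primeFactors, SS1_f D.natAbs p
      ≤ (Q : ℝ) ^ (-(1 / 4) : ℝ) *
          (Real.exp (4 * ∑' n : ℕ, 1 / (n : ℝ) ^ (3 / 2 : ℝ)) * Rk D) :=
        mul_le_mul_of_nonneg_left (h2.trans hprod) hQ1.le
    _ = _ := by ring

end Pool.Agent.Lib.H18E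
end

-- from Lib.H18E.SS2
section

/-!
# Chunk SS2: lower bound of the truncated singular series
-/

open Finset Pool.Agent.Lib.H68T

namespace Pool.Agent.Lib.H18E

/-- the local factor -/
noncomputable def SS2_h (D : ℕ) (p : ℕ) : ℝ :=
  if p ∣ D then 1 / ((p : ℝ) - 1) else -(1 / ((p : ℝ) - 1) ^ 2)

theorem SS2_gcd {q D : ℕ} (hq : Squarefree q) (hD : D ≠ 0) :
    (Nat.gcd q D).primeFactors = q.primeFactors.filter (fun p => p ∣ D) := by
  rw [Nat.primeFactors_gcd hq.ne_zero hD]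
  ext p
  simp only [mem_inter, mem_filter, Nat.mem_primeFactors]
  constructor
  · rintro ⟨⟨a, b, c⟩, d, e, f⟩
    exact ⟨⟨a, b, c⟩, e⟩
  · rintro ⟨⟨a, b, c⟩, e⟩
    exact ⟨⟨a, b, c⟩, a, e, hD⟩

theorem SS2_div {q D : ℕ} (hq : Squarefree q) (hD : D ≠ 0) :
    (q / Nat.gcd q D).primeFactors = q.primeFactors.filter (fun p => ¬ p ∣ D) := by
  have hq0 := hq.ne_zero
  obtain ⟨h, hh⟩ := Nat.gcd_dvd_left q D
  set g := Nat.gcd q D with hg
  have hg0 : 0 < g := Nat.pos_of_ne_zero (fun h0 => hq0 (by rw [hh, h0, zero_mul]))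
  have hcop : Nat.Coprime g h := by
    rw [hh] at hq
    exact Nat.coprime_of_squarefree_mul hq
  have hqg : q / g = h := by
    conv_lhs => rw [hh]
    exact Nat.mul_div_cancel_left _ hg0
  have h1 : q.primeFactors = g.primeFactors ∪ h.primeFactors := by
    conv_lhs => rw [hh]
    exact hcop.primeFactors_mul
  have h2 := SS2_gcd hq hD
  rw [← hg] at h2
  have h3 : Disjoint g.primeFactors h.primeFactors := hcop.disjoint_primeFactors
  rw [hqg]
  ext p
  rw [mem_filter]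
  constructor
  · intro hp
    have hpq : p ∈ q.primeFactors := by rw [h1]; exact mem_union_right _ hp
    refine ⟨hpq, fun hpD => ?_⟩
    have hpg : p ∈ g.primeFactors := by rw [h2]; exact mem_filter.2 ⟨hpq, hpD⟩
    exact (disjoint_left.1 h3 hpg) hp
  · rintro ⟨hpq, hpD⟩
    rw [h1, mem_union] at hpq
    rcases hpq with hp | hp
    · rw [h2, mem_filter] at hp
      exact absurd hp.2 hpD
    · exact hp

theorem SS2_mu {n : ℕ} (hn : Squarefree n) :
    (ArithmeticFunction.moebius n : ℝ) = ∏ _p ∈ n.primeFactors, (-1 : ℝ) := by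
  have h := ArithmeticFunction.isMultiplicative_moebius.map_prod_of_prime n.primeFactors
    (fun p hp => Nat.prime_of_mem_primeFactors hp)
  rw [Nat.prod_primeFactors_of_squarefree hn] at h
  rw [h, Int.cast_prod]
  refine prod_congr rfl fun p hp => ?_
  rw [ArithmeticFunction.moebius_apply_prime (Nat.prime_of_mem_primeFactors hp)]
  norm_num

theorem SS2_term {q : ℕ} {D : ℤ} (hq : Squarefree q) (hD : D ≠ 0) :
    ((ArithmeticFunction.moebius q : ℝ) / (Nat.totient q : ℝ)) ^ 2 * cq q D =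
      ∏ p ∈ q.primeFactors, SS2_h D.natAbs p := by
  have hD' : D.natAbs ≠ 0 := Int.natAbs_ne_zero.2 hD
  have hg : Squarefree (Nat.gcd q D.natAbs) := hq.squarefree_of_dvd (Nat.gcd_dvd_left q _)
  have hqg : Squarefree (q / Nat.gcd q D.natAbs) :=
    hq.squarefree_of_dvd (Nat.div_dvd_of_dvd (Nat.gcd_dvd_left q _))
  have h1 : (ArithmeticFunction.moebius q : ℝ) ^ 2 = 1 := by
    exact_mod_cast ArithmeticFunction.moebius_sq_eq_one_of_squarefree hq
  rw [cq_squarefree q hq D, div_pow, h1, SS2_mu hqg, SS1_tot hg, SS1_tot hq, SS2_gcd hq hD',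
    SS2_div hq hD', prod_filter, prod_filter, ← prod_pow, ← prod_mul_distrib,
    one_div, ← prod_inv_distrib, ← prod_mul_distrib]
  refine prod_congr rfl fun p hp => ?_
  have h3 : (1 : ℝ) < p := by exact_mod_cast (Nat.prime_of_mem_primeFactors hp).one_lt
  have h4 : (p : ℝ) - 1 ≠ 0 := by linarith
  unfold SS2_h
  by_cases hpD : p ∣ D.natAbs
  · simp only [hpD, not_true_eq_false, if_false, if_true]
    field_simp
  · simp only [hpD, not_false_eq_true, if_false, if_true]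
    field_simp

theorem SS2_abs {q D : ℕ} (hq : Squarefree q) (hD : D ≠ 0) :
    ∏ p ∈ q.primeFactors, |SS2_h D p| =
      (Nat.totient (Nat.gcd q D) : ℝ) / (Nat.totient q : ℝ) ^ 2 := by
  have hg : Squarefree (Nat.gcd q D) := hq.squarefree_of_dvd (Nat.gcd_dvd_left q D)
  rw [SS1_tot hg, SS1_tot hq, SS2_gcd hq hD, prod_filter, ← prod_pow, ← prod_div_distrib]
  refine prod_congr rfl fun p hp => ?_
  have h3 : (1 : ℝ) < p := by exact_mod_cast (Nat.prime_of_mem_primeFactors hp).one_lt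
  have h4 : 0 < (p : ℝ) - 1 := by linarith
  unfold SS2_h
  split_ifs
  · rw [abs_of_pos (by positivity)]
    field_simp
  · rw [abs_neg, abs_of_pos (by positivity)]

theorem SS2_sqf (A : Finset ℕ) (hA : ∀ p ∈ A, p.Prime) : Squarefree (∏ p ∈ A, p) := by
  apply Finset.squarefree_prod_of_pairwise_isCoprime
  · intro a ha b hb hab
    exact Nat.coprime_iff_isRelPrime.1 ((Nat.coprime_primes (hA a ha) (hA b hb)).2 hab)
  · intro p hp
    exact (hA p hp).prime.squarefree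

/-- the telescoping product -/
theorem SS2_tele (Z : ℕ) (hZ : 1 ≤ Z) :
    ∏ m ∈ Icc 2 Z, (1 - 1 / (m : ℝ) ^ 2) = ((Z : ℝ) + 1) / (2 * Z) := by
  induction Z, hZ using Nat.le_induction with
  | base => norm_num
  | succ n hn ih =>
    rw [prod_Icc_succ_top (by omega), ih]
    have h0 : (0 : ℝ) < n := by exact_mod_cast hn
    push_cast
    field_simp
    ring

theorem SS2_ge (Z : ℕ) (B : Finset ℕ) (hB : B ⊆ Icc 2 Z) :
    1 / 2 ≤ ∏ m ∈ B, (1 - 1 / (m : ℝ) ^ 2) := by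
  rcases Nat.eq_zero_or_pos Z with hZ | hZ
  · have h1 : B = ∅ := by
      rw [hZ] at hB
      exact subset_empty.1 hB
    rw [h1, prod_empty]
    norm_num
  · have h1 := SS2_tele Z hZ
    have hb : ∀ m ∈ Icc 2 Z, 0 ≤ 1 - 1 / (m : ℝ) ^ 2 ∧ 1 - 1 / (m : ℝ) ^ 2 ≤ 1 := by
      intro m hm
      have h2 : (2 : ℝ) ≤ m := by exact_mod_cast (mem_Icc.1 hm).1
      have h3 : 1 / (m : ℝ) ^ 2 ≤ 1 := by
        rw [div_le_one (by positivity)]
        nlinarith
      have h4 : 0 ≤ 1 / (m : ℝ) ^ 2 := by positivity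
      constructor <;> linarith
    rw [← prod_sdiff hB] at h1
    have h2 : ∏ m ∈ Icc 2 Z \ B, (1 - 1 / (m : ℝ) ^ 2) ≤ 1 :=
      prod_le_one (fun m hm => (hb m (mem_sdiff.1 hm).1).1) (fun m hm => (hb m (mem_sdiff.1 hm).1).2)
    have h3 : 0 ≤ ∏ m ∈ B, (1 - 1 / (m : ℝ) ^ 2) := prod_nonneg fun m hm => (hb m (hB hm)).1
    have h4 : (1 : ℝ) / 2 ≤ ((Z : ℝ) + 1) / (2 * Z) := by
      have h0 : (0 : ℝ) < Z := by exact_mod_cast hZ
      rw [div_le_div_iff₀ (by norm_num) (by positivity)]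
      linarith
    nlinarith

/-- Let `Z = Q + |D| + 2` and let `T` be the set of the squarefree numbers composed of primes `p ≤ Z`,
`p ∤ W` (a finite set: the products of the subsets). By multiplicativity (`cq_squarefree`,
`Finset.prod_one_add`)
`∑_{q ∈ T} (μ(q)/φ(q))^2 c_q(D) = ∏_{p ≤ Z, p ∤ W} (1 + c_p(D)/(p-1)^2)`, where `c_p(D) = p-1` if
`p ∣ D` and `-1` otherwise: this is `Gp W D * ∏_{p ≤ Z, p ∤ W, p ∤ D} (1 - 1/(p-1)^2)`. All primes
of the second product are `≥ 3` (as `2 ∣ W` or `2 ∣ D`), so it is at least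
`∏_{2 ≤ m ≤ Z} (1 - 1/m^2) ≥ 1/2` (telescoping). The terms of `T` which are not in the sum have
`q^2 > Q` (if `q ≤ Q` is squarefree, coprime to `W`, then `q ∈ T`); they are at most
`φ((q,D))/φ(q)^2` in absolute value: `ss_tail`. (Terms of `QW Q W` which are not squarefree vanish;
`QW Q W` is the set of the `q ∈ [1, Q]` coprime to `W`.) -/
theorem ss_low : ∃ C : ℝ, 1 ≤ C ∧ ∀ (Q W : ℕ) (D : ℤ), D ≠ 0 → 0 < W → 1 ≤ Q →
    (2 ∣ W ∨ (2 : ℤ) ∣ D) →
    1 / 2 * Gp W D - C * (Q : ℝ) ^ (-(1 / 4) : ℝ) * Rk D ≤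
      ∑ q ∈ (QW Q W).filter (fun q => q ^ 2 ≤ Q),
        ((ArithmeticFunction.moebius q : ℝ) / (Nat.totient q : ℝ)) ^ 2 * cq q D := by
  obtain ⟨C, hC1, hC⟩ := ss_tail
  refine ⟨C, hC1, fun Q W D hD hW hQ h2 => ?_⟩
  have hD' : D.natAbs ≠ 0 := Int.natAbs_ne_zero.2 hD
  have h2' : 2 ∣ W ∨ 2 ∣ D.natAbs := by
    rcases h2 with h | h
    · exact Or.inl h
    · right
      have := Int.natAbs_dvd_natAbs.2 h
      exact this
  set d := D.natAbs with hd
  set Z := Q + d + 2 with hZ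
  set PZ := (range (Z + 1)).filter (fun p => p.Prime ∧ ¬ p ∣ W) with hPZ
  have hPp : ∀ p ∈ PZ, p.Prime := fun p hp => (mem_filter.1 hp).2.1
  -- the sum over squarefree numbers
  have e1 : ∑ q ∈ (QW Q W).filter (fun q => q ^ 2 ≤ Q),
        ((ArithmeticFunction.moebius q : ℝ) / (Nat.totient q : ℝ)) ^ 2 * cq q D =
      ∑ A ∈ PZ.powerset.filter (fun A => (∏ p ∈ A, p) ^ 2 ≤ Q), ∏ p ∈ A, SS2_h d p := by
    have e2 : ∑ q ∈ (QW Q W).filter (fun q => q ^ 2 ≤ Q),
        ((ArithmeticFunction.moebius q : ℝ) / (Nat.totient q : ℝ)) ^ 2 * cq q D =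
        ∑ q ∈ ((QW Q W).filter (fun q => q ^ 2 ≤ Q)).filter Squarefree,
        ((ArithmeticFunction.moebius q : ℝ) / (Nat.totient q : ℝ)) ^ 2 * cq q D := by
      symm
      apply sum_filter_of_ne
      intro q _ hne
      by_contra hsq
      apply hne
      rw [ArithmeticFunction.moebius_eq_zero_of_not_squarefree hsq]
      simp
    rw [e2]
    refine sum_nbij' (fun q => q.primeFactors) (fun A => ∏ p ∈ A, p) ?_ ?_ ?_ ?_ ?_
    · intro q hq
      rw [mem_filter, mem_filter, QW, mem_filter, mem_Icc] at hq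
      obtain ⟨⟨⟨⟨hq1, hqQ⟩, hqW⟩, hq2⟩, hsq⟩ := hq
      rw [mem_filter, mem_powerset, Nat.prod_primeFactors_of_squarefree hsq]
      refine ⟨fun p hp => ?_, hq2⟩
      have hpp := Nat.prime_of_mem_primeFactors hp
      have hpq := Nat.dvd_of_mem_primeFactors hp
      rw [hPZ, mem_filter, mem_range]
      refine ⟨?_, hpp, fun hpW => ?_⟩
      · have := Nat.le_of_dvd hq1 hpq
        omega
      · have h3 := Nat.dvd_gcd hpq hpW
        rw [hqW] at h3
        exact hpp.one_lt.ne' (Nat.dvd_one.1 h3)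
    · intro A hA
      rw [mem_filter, mem_powerset] at hA
      obtain ⟨hA1, hA2⟩ := hA
      have hAp : ∀ p ∈ A, p.Prime := fun p hp => hPp p (hA1 hp)
      have hsq := SS2_sqf A hAp
      have hpos : 0 < ∏ p ∈ A, p := Nat.pos_of_ne_zero hsq.ne_zero
      rw [mem_filter, mem_filter, QW, mem_filter, mem_Icc]
      refine ⟨⟨⟨⟨hpos, ?_⟩, ?_⟩, hA2⟩, hsq⟩
      · nlinarith
      · apply Nat.Coprime.prod_left
        intro p hp
        rw [(hAp p hp).coprime_iff_not_dvd]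
        exact (mem_filter.1 (hA1 hp)).2.2
    · intro q hq
      exact Nat.prod_primeFactors_of_squarefree (mem_filter.1 hq).2
    · intro A hA
      rw [mem_filter, mem_powerset] at hA
      exact Nat.primeFactors_prod fun p hp => hPp p (hA.1 hp)
    · intro q hq
      exact SS2_term (mem_filter.1 hq).2 hD
  -- the full product
  have e3 : ∏ p ∈ PZ, (1 + SS2_h d p) =
      ∑ A ∈ PZ.powerset.filter (fun A => (∏ p ∈ A, p) ^ 2 ≤ Q), ∏ p ∈ A, SS2_h d p +
      ∑ A ∈ PZ.powerset.filter (fun A => ¬ (∏ p ∈ A, p) ^ 2 ≤ Q), ∏ p ∈ A, SS2_h d p := by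
    rw [prod_one_add, sum_filter_add_sum_filter_not]
  -- the tail
  have e4 : ∑ A ∈ PZ.powerset.filter (fun A => ¬ (∏ p ∈ A, p) ^ 2 ≤ Q), ∏ p ∈ A, SS2_h d p ≤
      C * (Q : ℝ) ^ (-(1 / 4) : ℝ) * Rk D := by
    have hinj : Set.InjOn (fun A : Finset ℕ => ∏ p ∈ A, p)
        ((PZ.powerset.filter (fun A => ¬ (∏ p ∈ A, p) ^ 2 ≤ Q) : Finset (Finset ℕ)) :
          Set (Finset ℕ)) := by
      intro A hA B hB hAB
      rw [mem_coe, mem_filter, mem_powerset] at hA hB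
      have h3 := congrArg Nat.primeFactors hAB
      simp only at h3
      rwa [Nat.primeFactors_prod fun p hp => hPp p (hA.1 hp),
        Nat.primeFactors_prod fun p hp => hPp p (hB.1 hp)] at h3
    have h3 := hC Q D hD hQ ((PZ.powerset.filter (fun A => ¬ (∏ p ∈ A, p) ^ 2 ≤ Q)).image
      (fun A => ∏ p ∈ A, p)) (by
        intro q hq
        obtain ⟨A, hA, rfl⟩ := mem_image.1 hq
        rw [mem_filter, mem_powerset] at hA
        exact ⟨SS2_sqf A fun p hp => hPp p (hA.1 hp), not_le.1 hA.2⟩)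
    rw [sum_image hinj] at h3
    refine le_trans (sum_le_sum fun A hA => ?_) h3
    rw [mem_filter, mem_powerset] at hA
    have hAp : ∀ p ∈ A, p.Prime := fun p hp => hPp p (hA.1 hp)
    rw [← SS2_abs (SS2_sqf A hAp) hD', Nat.primeFactors_prod hAp, ← abs_prod]
    exact le_abs_self _
  -- the main term
  have e5 : 1 / 2 * Gp W D ≤ ∏ p ∈ PZ, (1 + SS2_h d p) := by
    rw [← prod_filter_mul_prod_filter_not PZ (fun p => p ∣ d)]
    have h3 : ∏ p ∈ PZ.filter (fun p => p ∣ d), (1 + SS2_h d p) = Gp W D := by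
      unfold Gp
      refine prod_congr ?_ ?_
      · ext p
        rw [mem_filter, hPZ, mem_filter, mem_range, mem_filter, Nat.mem_primeFactors]
        constructor
        · rintro ⟨⟨_, hp, hpW⟩, hpd⟩
          exact ⟨⟨hp, hpd, hD'⟩, hpW⟩
        · rintro ⟨⟨hp, hpd, _⟩, hpW⟩
          have hle := Nat.le_of_dvd (Nat.pos_of_ne_zero hD') hpd
          exact ⟨⟨by omega, hp, hpW⟩, hpd⟩
      · intro p hp
        have hpd : p ∣ d := Nat.dvd_of_mem_primeFactors (mem_filter.1 hp).1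
        rw [SS2_h, if_pos hpd]
    have h4 : 0 ≤ Gp W D := by
      unfold Gp
      refine prod_nonneg fun p hp => ?_
      have h5 : (1 : ℝ) < p := by
        exact_mod_cast (Nat.prime_of_mem_primeFactors (mem_filter.1 hp).1).one_lt
      have h6 : 0 < (p : ℝ) - 1 := by linarith
      positivity
    have h5 : 1 / 2 ≤ ∏ p ∈ PZ.filter (fun p => ¬ p ∣ d), (1 + SS2_h d p) := by
      have h6 : ∏ p ∈ PZ.filter (fun p => ¬ p ∣ d), (1 + SS2_h d p) =
          ∏ m ∈ (PZ.filter (fun p => ¬ p ∣ d)).image (fun p : ℕ => p - 1),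
            (1 - 1 / (m : ℝ) ^ 2) := by
        rw [prod_image]
        · refine prod_congr rfl fun p hp => ?_
          rw [mem_filter] at hp
          have h7 := (hPp p hp.1).one_le
          rw [SS2_h, if_neg hp.2, Nat.cast_sub h7, Nat.cast_one]
          ring
        · intro a ha b hb hab
          rw [mem_coe, mem_filter] at ha hb
          have h7 := (hPp a ha.1).one_le
          have h8 := (hPp b hb.1).one_le
          simp only at hab
          omega
      rw [h6]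
      apply SS2_ge Z
      intro m hm
      obtain ⟨p, hp, rfl⟩ := mem_image.1 hm
      rw [mem_filter, hPZ, mem_filter, mem_range] at hp
      obtain ⟨⟨hpZ, hpp, hpW⟩, hpd⟩ := hp
      have h7 : p ≠ 2 := by
        rintro rfl
        rcases h2' with h | h
        · exact hpW h
        · exact hpd h
      have h8 := hpp.two_le
      rw [mem_Icc]
      omega
    rw [h3]
    nlinarith
  rw [e1]
  linarith

end Pool.Agent.Lib.H18E
end

-- from Lib.H18Q.Z5A
section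

/-!
# Project H18Q, chunk Z5A: growth data of the primitive L-functions
-/

open Finset

namespace Pool.Agent.Lib.H18Q

open Pool.Agent.Lib.H68T

/-- Products. Proof: `f s₀ ≠ 0`, `g s₀ ≠ 0` at `s₀ = 1 + lam + i v` (`zre`), `logDeriv_mul`, the
rest is multiplication and the triangle inequality. -/
theorem LDat.mul {C0 C0' ℓ T : ℝ} {f g : ℂ → ℂ} (hf : LDat C0 ℓ T f) (hg : LDat C0' ℓ T g) :
    LDat (C0 + C0') ℓ T (fun s => f s * g s) := by
  refine ⟨hf.diff.mul hg.diff, ?_, ?_, ?_⟩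
  · intro ρ h
    rcases mul_eq_zero.1 h with h | h
    · exact hf.zre ρ h
    · exact hg.zre ρ h
  · intro lam v h1 h2 h3 s hs
    have h4 := hf.growth lam v h1 h2 h3 s hs
    have h5 := hg.growth lam v h1 h2 h3 s hs
    simp only [norm_mul]
    rw [add_mul, Real.exp_add]
    calc ‖f s‖ * ‖g s‖ ≤ (Real.exp (C0 * ℓ) * ‖f (1 + lam + v * Complex.I)‖) *
          (Real.exp (C0' * ℓ) * ‖g (1 + lam + v * Complex.I)‖) :=
          mul_le_mul h4 h5 (norm_nonneg _) (by positivity)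
      _ = _ := by ring
  · intro lam v h1 h2 h3
    have h4 := hf.ld lam v h1 h2 h3
    have h5 := hg.ld lam v h1 h2 h3
    set s₀ : ℂ := 1 + lam + v * Complex.I with hs₀
    by_cases h0 : f s₀ * g s₀ = 0
    · rw [logDeriv_apply, h0, div_zero, norm_zero, add_div]
      have := norm_nonneg (logDeriv f s₀)
      have := norm_nonneg (logDeriv g s₀)
      linarith
    · replace h0 := mul_ne_zero_iff.1 h0
      rw [logDeriv_mul s₀ h0.1 h0.2 hf.diff.differentiableAt hg.diff.differentiableAt, add_div]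
      exact (norm_add_le _ _).trans (add_le_add h4 h5)

theorem LDat.mono {C0 C0' ℓ T T' : ℝ} {f : ℂ → ℂ} (h : LDat C0 ℓ T f) (hC : C0 ≤ C0')
    (hT : T' ≤ T) (hℓ : 0 ≤ ℓ) : LDat C0' ℓ T' f := by
  refine ⟨h.diff, h.zre, ?_, ?_⟩
  · intro lam v h1 h2 h3 s hs
    refine (h.growth lam v h1 h2 (h3.trans hT) s hs).trans ?_
    apply mul_le_mul_of_nonneg_right _ (norm_nonneg _)
    exact Real.exp_le_exp.2 (mul_le_mul_of_nonneg_right hC hℓ)
  · intro lam v h1 h2 h3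
    refine (h.ld lam v h1 h2 (h3.trans hT)).trans ?_
    apply div_le_div_of_nonneg_right hC
    exact le_trans (by positivity) h1

/-- facts on `s₀` and on `s` in the disc -/
theorem z5a_pt {lam v η X : ℝ} (hl : 0 < lam) (hl8 : lam ≤ 1 / 8) (hv : |v| ≤ X) (hη : 0 ≤ η)
    (hη8 : η ≤ 1 / 8) {s : ℂ} (hs : s ∈ Metric.closedBall (1 + lam + v * Complex.I : ℂ) (1 / 2)) :
    1 / 2 ≤ (s + η).re ∧ (s + η).re ≤ 3 ∧ |(s + η).im| ≤ X + 1 ∧ ‖s + η‖ ≤ X + 3 := by
  rw [Metric.mem_closedBall, Complex.dist_eq] at hs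
  have h1 := (Complex.abs_re_le_norm _).trans hs
  have h2 := (Complex.abs_im_le_norm _).trans hs
  simp only [Complex.sub_re, Complex.sub_im, Complex.add_re, Complex.add_im, Complex.one_re,
    Complex.one_im, Complex.ofReal_re, Complex.ofReal_im, Complex.mul_re, Complex.mul_im,
    Complex.I_re, Complex.I_im, mul_zero, mul_one, sub_zero, zero_add, add_zero] at h1 h2
  rw [abs_le] at h1 h2 hv
  have e1 : (s + η).re = s.re + η := by simp
  have e2 : (s + η).im = s.im := by simp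
  rw [e1, e2]
  have h3 : |s.im| ≤ X + 1 := by
    rw [abs_le]
    constructor <;> linarith [h2.1, h2.2, hv.1, hv.2]
  have h5 : ‖s + η‖ ≤ X + 3 := by
    have h6 := Complex.norm_le_abs_re_add_abs_im (s + η)
    rw [e1, e2] at h6
    have h7 : |s.re + η| ≤ 2 := by
      rw [abs_le]
      constructor <;> linarith [h1.1, h1.2]
    linarith
  exact ⟨by linarith [h1.1], by linarith [h1.2], h3, h5⟩

theorem z5a_re (lam v η : ℝ) : ((1 + lam + v * Complex.I : ℂ) + η).re = 1 + lam + η := by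
  simp

theorem z5a_ld : ∃ C : ℝ, 0 < C ∧ ∀ (N : ℕ) [NeZero N] (χ : DirichletCharacter ℂ N) (lam v η : ℝ),
    0 < lam → lam ≤ 1 / 8 → 0 ≤ η → η ≤ 1 / 8 →
    ‖logDeriv χ.LFunction ((1 + lam + v * Complex.I : ℂ) + η)‖ ≤ 1 / lam + C := by
  obtain ⟨C, hC, h⟩ := vonMangoldt_le
  refine ⟨C, hC, fun N _ χ lam v η hl hl8 hη hη8 => ?_⟩
  have hre := z5a_re lam v η
  have h1 := lab1_char N χ ((1 + lam + v * Complex.I : ℂ) + η) (by rw [hre]; linarith)
  have h2 := norm_LSeries_vM_le N χ ((1 + lam + v * Complex.I : ℂ) + η) (by rw [hre]; linarith)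
  rw [h1, norm_neg, hre] at h2
  have h3 := h (1 + lam + η) (by linarith) (by linarith)
  refine h2.trans (h3.trans ?_)
  have h4 : 1 / (1 + lam + η - 1) ≤ 1 / lam :=
    one_div_le_one_div_of_le hl (by linarith)
  linarith

theorem z5a_low (N : ℕ) [NeZero N] (χ : DirichletCharacter ℂ N) (lam v η : ℝ)
    (hl : 0 < lam) (hl8 : lam ≤ 1 / 8) (hη : 0 ≤ η) :
    lam / 2 ≤ ‖χ.LFunction ((1 + lam + v * Complex.I : ℂ) + η)‖ := by
  have hre := z5a_re lam v η
  have h1 := lab2_lower N χ ((1 + lam + v * Complex.I : ℂ) + η) (by rw [hre]; linarith)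
  rw [DirichletCharacter.LFunction_eq_LSeries χ (by rw [hre]; linarith)]
  refine le_trans ?_ h1
  rw [hre, div_le_div_iff₀ (by norm_num) (by linarith)]
  nlinarith

theorem z5a_logQ {Q : ℕ} (hQ : (4 : ℝ) ≤ Q) : 0 < Real.log Q ∧ Real.log Q ≤ Q := by
  refine ⟨Real.log_pos (by linarith), ?_⟩
  have := Real.log_le_sub_one_of_pos (by linarith : (0 : ℝ) < Q)
  linarith

theorem z5a_exp {Q : ℕ} (hQ : (4 : ℝ) ≤ Q) (k : ℕ) (C : ℝ) (hC : k ≤ C) :
    (Q : ℝ) ^ k ≤ Real.exp (C * Real.log Q) := by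
  have h1 : (Q : ℝ) ^ k = Real.exp (k * Real.log Q) := by
    rw [mul_comm, Real.exp_mul, Real.exp_log (by linarith), Real.rpow_natCast]
  rw [h1]
  exact Real.exp_le_exp.2 (mul_le_mul_of_nonneg_right hC (z5a_logQ hQ).1.le)

theorem z5a_logDeriv_shift (f : ℂ → ℂ) (η : ℝ) (s : ℂ) :
    logDeriv (fun s => f (s + η)) s = logDeriv f (s + η) := by
  rw [logDeriv_apply, logDeriv_apply, deriv_comp_add_const]

/-- Growth data of `L(s + η, χ)`, `χ ≠ 1` modulo `N ≤ Q²`, `0 ≤ η ≤ 1/8`.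

Proof. `ℓ = log Q`, `T = Q^10`, `s₀ = 1 + lam + i v`. Entire:
`DirichletCharacter.differentiable_LFunction`. `zre`: `LFunction (ρ + η) = 0` implies
`Re (ρ + η) < 1` (`DirichletCharacter.LFunction_ne_zero_of_one_le_re`, `χ ≠ 1`). Growth: `|s - s₀| ≤
1/2` gives `Re (s + η) ≥ 1/2`, so `LFunction_bound`: `|L(s + η)| ≤ 2 N |s + η| ≤ 2 Q² (Q^10 + 3)`,
and `|L(s₀ + η)| ≥ (lam + η)/(1 + lam + η) ≥ lam/2 ≥ 1/(2 log Q)` (`lab2_lower`, with
`DirichletCharacter.LFunction_eq_LSeries` for `Re > 1`; `x/(1+x)` is increasing). So the quotient is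
at most `4 Q² (Q^10 + 3) log Q ≤ exp (20 log Q)` for `Q ≥ 4`. Logarithmic derivative: `lab1_char`,
`norm_LSeries_vM_le`, `vonMangoldt_le`: `≤ 1/(lam + η) + C ≤ (1 + C)/lam`; use `logDeriv` of
the composition with the translation (`logDeriv_comp` or `deriv_comp_add_const`). -/
theorem LDat_shift : ∃ C0 K : ℝ, 1 ≤ C0 ∧ ∀ Q : ℕ, K ≤ Q → ∀ (N : ℕ) [NeZero N]
    (χ : DirichletCharacter ℂ N), N ≤ Q ^ 2 → χ ≠ 1 → ∀ η : ℝ, 0 ≤ η → η ≤ 1 / 8 →
    LDat C0 (Real.log Q) ((Q : ℝ) ^ 10) (fun s => χ.LFunction (s + η)) := by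
  obtain ⟨C, hC, hld⟩ := z5a_ld
  refine ⟨20 + C, 4, by linarith, fun Q hQ N _ χ hN hχ η hη hη8 => ?_⟩
  obtain ⟨hlog, hlogQ⟩ := z5a_logQ hQ
  refine ⟨?_, ?_, ?_, ?_⟩
  · exact (DirichletCharacter.differentiable_LFunction hχ).comp
      (differentiable_id.add (differentiable_const _))
  · intro ρ h
    by_contra hcon
    have h1 : 1 ≤ (ρ + η).re := by
      have : (ρ + η).re = ρ.re + η := by simp
      rw [this]
      linarith [not_lt.1 hcon]
    exact DirichletCharacter.LFunction_ne_zero_of_one_le_re χ (Or.inl hχ) h1 h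
  · intro lam v h1 h2 h3 s hs
    have hl : 0 < lam := lt_of_lt_of_le (by positivity) h1
    obtain ⟨p1, p2, p3, p4⟩ := z5a_pt hl h2 h3 hη hη8 hs
    have q1 := LFunction_bound N χ hχ (s + η) p1
    have q2 := z5a_low N χ lam v η hl h2 hη
    have hN' : (N : ℝ) ≤ (Q : ℝ) ^ 2 := by exact_mod_cast hN
    have q3 : ‖χ.LFunction (s + η)‖ ≤ (Q : ℝ) ^ 18 * (1 / (2 * Q)) := by
      refine q1.trans ?_
      have hQ0 : (0 : ℝ) < Q := by linarith
      have r1 : 2 * (N : ℝ) * ‖s + η‖ ≤ 2 * (Q : ℝ) ^ 2 * ((Q : ℝ) ^ 10 + 3) := by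
        apply mul_le_mul _ p4 (norm_nonneg _) (by positivity)
        linarith
      refine r1.trans ?_
      have r2 : (1 : ℝ) ≤ (Q : ℝ) ^ 10 := one_le_pow₀ (by linarith)
      have r3 : (4 : ℝ) ^ 2 ≤ (Q : ℝ) ^ 2 := pow_le_pow_left₀ (by norm_num) hQ 2
      have r4 : (1 : ℝ) ≤ (Q : ℝ) ^ 3 := one_le_pow₀ (by linarith)
      have r5 : (Q : ℝ) ^ 18 * (1 / (2 * Q)) = (Q : ℝ) ^ 2 * (Q : ℝ) ^ 10 * (Q : ℝ) ^ 2 * (Q : ℝ) ^ 3 / 2 := by
        field_simp
      rw [r5]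
      have r6 : 2 * (Q : ℝ) ^ 2 * ((Q : ℝ) ^ 10 + 3) ≤ (Q : ℝ) ^ 2 * (Q : ℝ) ^ 10 * 8 := by
        nlinarith [pow_pos hQ0 2]
      have r7 : (Q : ℝ) ^ 2 * (Q : ℝ) ^ 10 * 8 ≤ (Q : ℝ) ^ 2 * (Q : ℝ) ^ 10 * (Q : ℝ) ^ 2 * (Q : ℝ) ^ 3 / 2 := by
        have t1 : 0 < (Q : ℝ) ^ 2 * (Q : ℝ) ^ 10 := by positivity
        have t2 : (16 : ℝ) ≤ (Q : ℝ) ^ 2 * (Q : ℝ) ^ 3 := by nlinarith
        nlinarith [mul_le_mul_of_nonneg_left t2 t1.le]
      exact r6.trans r7
    have q4 : 1 / (2 * (Q : ℝ)) ≤ ‖χ.LFunction ((1 + lam + v * Complex.I : ℂ) + η)‖ := by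
      refine le_trans ?_ q2
      have r1 : 1 / (Q : ℝ) ≤ 1 / Real.log Q := one_div_le_one_div_of_le hlog hlogQ
      have r2 : 1 / (2 * (Q : ℝ)) = (1 / Q) / 2 := by field_simp
      rw [r2]
      linarith
    refine q3.trans ?_
    exact mul_le_mul (z5a_exp hQ 18 (20 + C) (by push_cast; linarith)) q4 (by positivity) (by positivity)
  · intro lam v h1 h2 h3
    have hl : 0 < lam := lt_of_lt_of_le (by positivity) h1
    rw [z5a_logDeriv_shift]
    refine (hld N χ lam v η hl h2 hη hη8).trans ?_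
    rw [le_div_iff₀ hl, add_mul, div_mul_cancel₀ _ hl.ne']
    nlinarith

/-- the trivial character -/
theorem z5a_triv_eq (N : ℕ) [NeZero N] (s : ℂ) : DirichletCharacter.LFunctionTrivChar₁ N s =
    gl2_Z s * ∏ p ∈ N.primeFactors, (1 - (p : ℂ) ^ (-s)) := by
  by_cases hs : s = 1
  · subst hs
    rw [gl2_Z_one, one_mul]
    unfold DirichletCharacter.LFunctionTrivChar₁
    rw [Function.update_self]
    refine Finset.prod_congr rfl fun p _ => ?_
    rw [Complex.cpow_neg_one]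
  · rw [gl2_Z_eq s hs, DirichletCharacter.LFunctionTrivChar₁, Function.update_of_ne hs,
      DirichletCharacter.LFunctionTrivChar_eq_mul_riemannZeta hs]
    ring

theorem z5a_prod (N : ℕ) [NeZero N] (s : ℂ) (hs : 0 ≤ s.re) :
    ‖∏ p ∈ N.primeFactors, (1 - (p : ℂ) ^ (-s))‖ ≤ N := by
  rw [norm_prod]
  have h1 : ∏ p ∈ N.primeFactors, ‖1 - (p : ℂ) ^ (-s)‖ ≤ ∏ p ∈ N.primeFactors, (p : ℝ) := by
    refine Finset.prod_le_prod (fun _ _ => norm_nonneg _) fun p hp => ?_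
    have hp2 : 2 ≤ p := (Nat.prime_of_mem_primeFactors hp).two_le
    have hp2' : (2 : ℝ) ≤ p := by exact_mod_cast hp2
    have h2 : ‖(p : ℂ) ^ (-s)‖ ≤ 1 := by
      rw [Complex.norm_natCast_cpow_of_pos (by omega), Complex.neg_re]
      exact Real.rpow_le_one_of_one_le_of_nonpos (by linarith) (by linarith)
    calc ‖1 - (p : ℂ) ^ (-s)‖ ≤ ‖(1 : ℂ)‖ + ‖(p : ℂ) ^ (-s)‖ := norm_sub_le _ _
      _ ≤ 2 := by rw [norm_one]; linarith
      _ ≤ p := hp2'
  refine h1.trans ?_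
  have h3 : ∏ p ∈ N.primeFactors, p ≤ N := Nat.le_of_dvd (Nat.pos_of_ne_zero (NeZero.ne N)) (Nat.prod_primeFactors_dvd N)
  have h4 : ((∏ p ∈ N.primeFactors, p : ℕ) : ℝ) ≤ (N : ℝ) := Nat.cast_le.2 h3
  rw [Nat.cast_prod] at h4
  exact h4

/-- Growth data of `(s + η - 1) L(s + η, 1_N)` for the trivial character modulo `N ≤ Q²`
(`DirichletCharacter.LFunctionTrivChar₁ N`, entire).

Proof. As `LDat_shift`. For `s ≠ 1`, `LFunctionTrivChar₁ N s = (s - 1) L(s, 1_N) =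
gl2_Z s ∏_{p ∣ N} (1 - p^(-s))` (`gl2_Z = LFunctionTrivChar₁ 1`;
`DirichletCharacter.LFunctionTrivChar_eq_mul_riemannZeta`), at `1` by continuity; the product has
absolute value at most `∏_{p ∣ N} 2 ≤ N` for `Re s ≥ 0`; `gl2_Z_bound` for `Re s ≤ 3`. Zeros: a zero
`ρ + η` of `LFunctionTrivChar₁` with `Re ≥ 1` is impossible (`riemannZeta_ne_zero_of_one_le_re`,
`gl2_Z_one`, `|p^(-s)| < 1`, `LFunctionTrivChar₁_apply_one_ne_zero`). Lower bound at `s₀ + η`:
`|s₀ + η - 1| ≥ lam + η`, `|L(s₀ + η, 1_N)| ≥ (lam + η)/(1 + lam + η)` (`lab2_lower`), product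
`≥ lam²/2`. Logarithmic derivative: `1/(s-1)` (at most `1/(lam+η)`) plus that of `L(s, 1_N)`
(`lab1_char`, `norm_LSeries_vM_le`, `vonMangoldt_le`). -/
theorem LDat_shift_triv : ∃ C0 K : ℝ, 1 ≤ C0 ∧ ∀ Q : ℕ, K ≤ Q → ∀ (N : ℕ) [NeZero N],
    N ≤ Q ^ 2 → ∀ η : ℝ, 0 ≤ η → η ≤ 1 / 8 →
    LDat C0 (Real.log Q) ((Q : ℝ) ^ 10)
      (fun s => DirichletCharacter.LFunctionTrivChar₁ N (s + η)) := by
  obtain ⟨C, hC, hld⟩ := z5a_ld
  refine ⟨30 + C, 4, by linarith, fun Q hQ N _ hN η hη hη8 => ?_⟩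
  obtain ⟨hlog, hlogQ⟩ := z5a_logQ hQ
  refine ⟨?_, ?_, ?_, ?_⟩
  · exact (DirichletCharacter.differentiable_LFunctionTrivChar₁ N).comp
      (differentiable_id.add (differentiable_const _))
  · intro ρ h
    by_contra hcon
    have h1 : 1 ≤ (ρ + η).re := by
      have : (ρ + η).re = ρ.re + η := by simp
      rw [this]
      linarith [not_lt.1 hcon]
    by_cases hs : ρ + (η : ℂ) = 1
    · simp only [hs] at h
      exact DirichletCharacter.LFunctionTrivChar₁_apply_one_ne_zero N h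
    · simp only [DirichletCharacter.LFunctionTrivChar₁, Function.update_of_ne hs] at h
      rcases mul_eq_zero.1 h with h2 | h2
      · exact sub_ne_zero.2 hs h2
      · exact DirichletCharacter.LFunction_ne_zero_of_one_le_re _ (Or.inr hs) h1 h2
  · intro lam v h1 h2 h3 s hs
    have hl : 0 < lam := lt_of_lt_of_le (by positivity) h1
    obtain ⟨p1, p2, p3, p4⟩ := z5a_pt hl h2 h3 hη hη8 hs
    have q1 := gl2_Z_bound (s + η) p1 p2
    have q1' := z5a_prod N (s + η) (by linarith)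
    have q2 := z5a_low N (1 : DirichletCharacter ℂ N) lam v η hl h2 hη
    have hN' : (N : ℝ) ≤ (Q : ℝ) ^ 2 := by exact_mod_cast hN
    have hQ0 : (0 : ℝ) < Q := by linarith
    have q3 : ‖DirichletCharacter.LFunctionTrivChar₁ N (s + η)‖ ≤ (Q : ℝ) ^ 30 * (1 / (2 * Q ^ 2)) := by
      rw [z5a_triv_eq, norm_mul]
      have r0 : 4 * (|(s + η).im| + 3) ^ 2 ≤ 4 * (5 * (Q : ℝ) ^ 10) ^ 2 := by
        have r2 : (1 : ℝ) ≤ (Q : ℝ) ^ 10 := one_le_pow₀ (by linarith)
        have r3 : |(s + η).im| + 3 ≤ 5 * (Q : ℝ) ^ 10 := by linarith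
        have r4 : (|(s + η).im| + 3) ^ 2 ≤ (5 * (Q : ℝ) ^ 10) ^ 2 := pow_le_pow_left₀ (by positivity) r3 2
        linarith
      have r1 := mul_le_mul (q1.trans r0) (q1'.trans hN') (norm_nonneg _) (by positivity)
      refine r1.trans ?_
      have r5 : (Q : ℝ) ^ 30 * (1 / (2 * Q ^ 2)) = (Q : ℝ) ^ 22 * (Q : ℝ) ^ 6 / 2 := by
        field_simp
      have r6 : 4 * (5 * (Q : ℝ) ^ 10) ^ 2 * (Q : ℝ) ^ 2 = 100 * (Q : ℝ) ^ 22 := by ring
      rw [r5, r6]
      have r7 : (4 : ℝ) ^ 6 ≤ (Q : ℝ) ^ 6 := pow_le_pow_left₀ (by norm_num) hQ 6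
      have r8 : (0 : ℝ) < (Q : ℝ) ^ 22 := by positivity
      nlinarith [mul_le_mul_of_nonneg_left r7 r8.le]
    have q4 : 1 / (2 * (Q : ℝ) ^ 2) ≤
        ‖DirichletCharacter.LFunctionTrivChar₁ N ((1 + lam + v * Complex.I : ℂ) + η)‖ := by
      have hne : (1 + lam + v * Complex.I : ℂ) + η ≠ 1 := by
        intro h
        have := congrArg Complex.re h
        rw [z5a_re, Complex.one_re] at this
        linarith
      rw [DirichletCharacter.LFunctionTrivChar₁, Function.update_of_ne hne, norm_mul]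
      have t1 : lam ≤ ‖(1 + lam + v * Complex.I : ℂ) + η - 1‖ := by
        refine le_trans ?_ (Complex.re_le_norm _)
        rw [Complex.sub_re, z5a_re, Complex.one_re]
        linarith
      have t2 : 1 / (Q : ℝ) ≤ lam := (one_div_le_one_div_of_le hlog hlogQ).trans h1
      have t3 : lam * (lam / 2) ≤ ‖(1 + lam + v * Complex.I : ℂ) + η - 1‖ *
          ‖(1 : DirichletCharacter ℂ N).LFunction ((1 + lam + v * Complex.I : ℂ) + η)‖ :=
        mul_le_mul t1 q2 (by positivity) (norm_nonneg _)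
      refine le_trans ?_ t3
      have t4 : 1 / (2 * (Q : ℝ) ^ 2) = (1 / Q) * (1 / Q) / 2 := by field_simp
      have t5 : (1 / (Q : ℝ)) * (1 / Q) ≤ lam * lam := mul_le_mul t2 t2 (by positivity) hl.le
      rw [t4]
      linarith
    refine q3.trans ?_
    exact mul_le_mul (z5a_exp hQ 30 (30 + C) (by push_cast; linarith)) q4 (by positivity) (by positivity)
  · intro lam v h1 h2 h3
    have hl : 0 < lam := lt_of_lt_of_le (by positivity) h1
    have hne : (1 + lam + v * Complex.I : ℂ) + η ≠ 1 := by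
      intro h
      have := congrArg Complex.re h
      rw [z5a_re, Complex.one_re] at this
      linarith
    rw [z5a_logDeriv_shift]
    have hL := z5a_low N (1 : DirichletCharacter ℂ N) lam v η hl h2 hη
    have hLne : (1 : DirichletCharacter ℂ N).LFunction ((1 + lam + v * Complex.I : ℂ) + η) ≠ 0 := by
      intro h
      rw [h, norm_zero] at hL
      linarith
    have hs1 : (1 + lam + v * Complex.I : ℂ) + η - 1 ≠ 0 := sub_ne_zero.2 hne
    have hsplit : logDeriv (DirichletCharacter.LFunctionTrivChar₁ N) ((1 + lam + v * Complex.I : ℂ) + η) =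
        logDeriv (1 : DirichletCharacter ℂ N).LFunction ((1 + lam + v * Complex.I : ℂ) + η) +
          1 / ((1 + lam + v * Complex.I : ℂ) + η - 1) := by
      rw [logDeriv_apply, logDeriv_apply,
        DirichletCharacter.deriv_LFunctionTrivChar₁_apply_of_ne_one N hne,
        DirichletCharacter.LFunctionTrivChar₁, Function.update_of_ne hne]
      simp only [DirichletCharacter.LFunctionTrivChar]
      field_simp
    rw [hsplit]
    have t1 : lam ≤ ‖(1 + lam + v * Complex.I : ℂ) + η - 1‖ := by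
      refine le_trans ?_ (Complex.re_le_norm _)
      rw [Complex.sub_re, z5a_re, Complex.one_re]
      linarith
    have t2 : ‖1 / ((1 + lam + v * Complex.I : ℂ) + η - 1)‖ ≤ 1 / lam := by
      rw [norm_div, norm_one]
      exact one_div_le_one_div_of_le hl t1
    refine (norm_add_le _ _).trans ?_
    have t3 := hld N (1 : DirichletCharacter ℂ N) lam v η hl h2 hη hη8
    refine (add_le_add t3 t2).trans ?_
    rw [le_div_iff₀ hl, add_mul, add_mul, div_mul_cancel₀ _ hl.ne']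
    nlinarith

/-- Growth data of `Lp p`: `LDat_shift` with `η = 0` for `p ≠ p0` (`Lp_mem`, `ne_one_of_ne_p0`),
`LDat_shift_triv` with `N = 1`, `η = 0` for `p = p0` (`Lp_p0`, `gl2_Z` is by definition
`LFunctionTrivChar₁ 1`). -/
theorem LDat_Lp : ∃ C0 K : ℝ, 1 ≤ C0 ∧ ∀ Q : ℕ, K ≤ Q → ∀ p ∈ PC Q,
    LDat C0 (Real.log Q) ((Q : ℝ) ^ 10) (Lp p) := by
  obtain ⟨C1, K1, hC1, h1⟩ := LDat_shift
  obtain ⟨C2, K2, hC2, h2⟩ := LDat_shift_triv
  refine ⟨max C1 C2, max 4 (max K1 K2), hC1.trans (le_max_left _ _), fun Q hQ p hp => ?_⟩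
  have hQ4 : (4 : ℝ) ≤ Q := (le_max_left _ _).trans hQ
  have hQ1 : K1 ≤ (Q : ℝ) := ((le_max_left _ _).trans (le_max_right _ _)).trans hQ
  have hQ2 : K2 ≤ (Q : ℝ) := ((le_max_right _ _).trans (le_max_right _ _)).trans hQ
  have hQ4' : 4 ≤ Q := by exact_mod_cast hQ4
  have hlog := (z5a_logQ hQ4).1
  by_cases h : p = p0
  · have h3 := h2 Q hQ2 1 (by nlinarith) 0 le_rfl (by norm_num)
    rw [h, Lp_p0]
    have h4 : (fun s : ℂ => DirichletCharacter.LFunctionTrivChar₁ 1 (s + ((0 : ℝ) : ℂ))) = gl2_Z := by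
      funext s
      rw [Complex.ofReal_zero, add_zero]
      rfl
    rw [h4] at h3
    exact h3.mono (le_max_right _ _) le_rfl hlog.le
  · obtain ⟨hne, hLp⟩ := Lp_mem hp h
    have hmem := mem_PC.mp hp
    have h3 := h1 Q hQ1 p.1 p.2 (by nlinarith [hmem.2.1]) (ne_one_of_ne_p0 hp h) 0 le_rfl (by norm_num)
    have h4 : (fun s : ℂ => p.2.LFunction (s + ((0 : ℝ) : ℂ))) = p.2.LFunction := by
      funext s
      rw [Complex.ofReal_zero, add_zero]
    rw [h4] at h3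
    rw [hLp]
    exact h3.mono (le_max_left _ _) le_rfl hlog.le

end Pool.Agent.Lib.H18Q
end
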