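import Pool.Agent.Lib.H1M.RV3.M002
import Pool.Agent.Lib.H1M.RV3.M006
import Pool.Agent.Lib.H1M.RV3.M013
import Pool.Agent.Lib.H1M.RV3.M016
import Pool.Agent.Lib.H1M.RV3.M019
import Pool.Agent.Lib.H1M.RV3.M028
import Pool.Agent.Lib.H1M.RV3.M031

/-! Merged copies (to shorten the build) of Lib.H18E.CM, Lib.H18E.CC, Lib.H18Q.CDefs, Lib.H18Q.CA, Lib.H18Q.PF, Lib.H68T.CG2, Lib.H68T.HDEC, Lib.H68X.XPAIR, Lib.H68X.XG1, Lib.H68X.XTW, Lib.H68X.XCG, Lib.H68T.UNS. -/

-- from Lib.H18E.CM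
section

/-!
# Chunk CM: many classes on which the exceptional character is `-1` twice
-/

open Finset

namespace Pool.Agent.Lib.H18E

theorem CM_compat (r x : ℕ) [NeZero r] (P : ZMod r → Prop) :
    open Classical in
    ((compat r x).filter (fun y : ℕ => P (y : ZMod r))).card =
      (univ.filter (fun y : ZMod r => (IsUnit ((x : ZMod r) + y) ∧ IsUnit ((x : ZMod r) - y)) ∧
        P y)).card := by
  classical
  have hu : ∀ y : ℕ, (IsCoprime ((x : ℤ) + y) r ∧ IsCoprime ((x : ℤ) - y) r) ↔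
      (IsUnit ((x : ZMod r) + (y : ZMod r)) ∧ IsUnit ((x : ZMod r) - (y : ZMod r))) := by
    intro y
    have h1 : IsUnit ((x : ZMod r) + (y : ZMod r)) ↔ IsCoprime ((x : ℤ) + y) r := by
      have := ZMod.coe_int_isUnit_iff_isCoprime ((x : ℤ) + y) r
      push_cast at this
      rw [this]
      exact isCoprime_comm
    have h2 : IsUnit ((x : ZMod r) - (y : ZMod r)) ↔ IsCoprime ((x : ℤ) - y) r := by
      have := ZMod.coe_int_isUnit_iff_isCoprime ((x : ℤ) - y) r
      push_cast at this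
      rw [this]
      exact isCoprime_comm
    rw [h1, h2]
  apply Finset.card_bij (fun (y : ℕ) _ => (y : ZMod r))
  · intro y hy
    rw [mem_filter, compat, mem_filter, hu] at hy
    rw [mem_filter]
    exact ⟨mem_univ _, hy.1.2, hy.2⟩
  · intro y hy z hz hyz
    rw [mem_filter, compat, mem_filter, mem_range] at hy hz
    rw [ZMod.natCast_eq_natCast_iff'] at hyz
    rwa [Nat.mod_eq_of_lt hy.1.1, Nat.mod_eq_of_lt hz.1.1] at hyz
  · intro y hy
    rw [mem_filter] at hy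
    refine ⟨y.val, ?_, by simp⟩
    rw [mem_filter, compat, mem_filter, mem_range, hu]
    have : ((y.val : ℕ) : ZMod r) = y := by simp
    rw [this]
    exact ⟨⟨ZMod.val_lt y, hy.2.1⟩, hy.2.2⟩

theorem CM_ex (r : ℕ) [NeZero r] (ψ : DirichletCharacter ℂ r) (hψ : ψ.IsPrimitive)
    (m : ℕ) (hm : m ∣ r) (hlt : m < r) :
    ∃ u : (ZMod r)ˣ, ZMod.unitsMap hm u = 1 ∧ ψ (u : ZMod r) ≠ 1 := by
  by_contra hcon
  push Not at hcon
  have hm0 : 0 < m := Nat.pos_of_dvd_of_pos hm (NeZero.pos r)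
  have hf : DirichletCharacter.FactorsThrough ψ m := by
    rw [DirichletCharacter.factorsThrough_iff_ker_unitsMap hm]
    intro u hu
    rw [MonoidHom.mem_ker] at hu ⊢
    apply Units.ext
    simpa using hcon u hu
  have h7 : ψ.conductor ≤ m :=
    Nat.le_of_dvd hm0 (DirichletCharacter.conductor_dvd_of_mem_conductorSet _ hf)
  rw [(DirichletCharacter.isPrimitive_def ψ).1 hψ] at h7
  omega

theorem CM_val (r : ℕ) [NeZero r] (ψ : DirichletCharacter ℂ r) (h2 : ψ ^ 2 = 1) (z : ZMod r)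
    (hz : IsUnit z) : ψ z = 1 ∨ ψ z = -1 := by
  have h3 : (ψ ^ 2) z = 1 := by
    rw [h2]; exact MulChar.one_apply hz
  rw [MulChar.pow_apply' _ two_ne_zero] at h3
  have h4 : (ψ z - 1) * (ψ z + 1) = 0 := by linear_combination h3
  rcases mul_eq_zero.1 h4 with h5 | h5
  · left; linear_combination h5
  · right; linear_combination h5

/-- `r = p r'` with `(p, r') = 1` (`sq_not_dvd`). By the Chinese remainder theorem (`ZMod.chineseRemainder`)
`ψ(z) = θ(z mod p) ψ'(z mod r')` with `θ(u) = ψ((u,1))`, `ψ'(v) = ψ((1,v))`; `θ ≠ 1`, otherwise `ψ`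
factors through `r'` (contradiction to primitivity). The compatible classes `y` modulo `r` are the
pairs of a class `y'` modulo `r'` with `x ± y'` units and a class modulo `p` with `y ≠ ± x` (`p - 2`
classes, as `p ∤ 2 x`). For each `y'` the values `ψ'(x + y')`, `ψ'(s (x - y'))` are `± 1` and `cl_local`
gives at least `(p-2)/10` classes modulo `p`. -/
theorem cm_class (r : ℕ) [NeZero r] (ψ : DirichletCharacter ℂ r) (hψ : ψ.IsPrimitive)
    (h2 : ψ ^ 2 = 1) (p : ℕ) (hp : p.Prime) (h7 : 7 ≤ p) (hpr : p ∣ r) (x : ℕ) (hx : ¬ p ∣ x)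
    (s : ℤ) (hs : s = 1 ∨ s = -1) :
    open Classical in
    ((compat r x).card : ℝ) / 10 ≤
      (((compat r x).filter (fun y : ℕ => ψ ((x : ZMod r) + y) = -1 ∧
        ψ ((s : ZMod r) * ((x : ZMod r) - y)) = -1)).card : ℝ) := by
  classical
  obtain ⟨q, rfl⟩ := hpr
  have hq0 : q ≠ 0 := by
    rintro rfl
    exact NeZero.ne (p * 0) (by simp)
  have : NeZero q := ⟨hq0⟩
  have : Fact p.Prime := ⟨hp⟩
  have hcop : Nat.Coprime p q := by
    rw [hp.coprime_iff_not_dvd]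
    rintro ⟨k, rfl⟩
    exact sq_not_dvd _ ψ hψ h2 p hp (by omega) ⟨k, by ring⟩
  obtain ⟨e, he⟩ : ∃ e : ZMod (p * q) ≃+* ZMod p × ZMod q, e = ZMod.chineseRemainder hcop := ⟨_, rfl⟩
  have hc1 : ((compat (p * q) x).card : ℝ) = ((univ.filter (fun y : ZMod (p * q) =>
      (IsUnit ((x : ZMod (p * q)) + y) ∧ IsUnit ((x : ZMod (p * q)) - y)) ∧ True)).card : ℝ) := by
    have h := CM_compat (p * q) x (fun _ => True)
    have h' := congrArg (fun k : ℕ => (k : ℝ)) h
    refine Eq.trans ?_ (Eq.trans h' ?_)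
    · have : (compat (p * q) x) = (compat (p * q) x).filter (fun _ => True) := by
        ext y
        simp
      exact congrArg (fun F : Finset ℕ => (F.card : ℝ)) (this.trans (by congr!))
    · exact congrArg (fun F : Finset (ZMod (p * q)) => (F.card : ℝ)) (by congr!)
  have hc2 : (((compat (p * q) x).filter (fun y : ℕ => ψ ((x : ZMod (p * q)) + y) = -1 ∧
        ψ ((s : ZMod (p * q)) * ((x : ZMod (p * q)) - y)) = -1)).card : ℝ) =
      ((univ.filter (fun y : ZMod (p * q) =>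
      (IsUnit ((x : ZMod (p * q)) + y) ∧ IsUnit ((x : ZMod (p * q)) - y)) ∧
      (ψ ((x : ZMod (p * q)) + y) = -1 ∧
        ψ ((s : ZMod (p * q)) * ((x : ZMod (p * q)) - y)) = -1))).card : ℝ) := by
    have h := CM_compat (p * q) x (fun y => ψ ((x : ZMod (p * q)) + y) = -1 ∧
        ψ ((s : ZMod (p * q)) * ((x : ZMod (p * q)) - y)) = -1)
    exact_mod_cast h
  -- the local character
  have hunit : ∀ z : ZMod p × ZMod q, IsUnit (e.symm z) ↔ IsUnit z.1 ∧ IsUnit z.2 := by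
    intro z
    rw [← Prod.isUnit_iff]
    exact MulEquiv.isUnit_map e.symm
  have hθ : ∃ θ : MulChar (ZMod p) ℂ, ∀ z, θ z = ψ (e.symm (z, 1)) := by
    refine ⟨{ toFun := fun z => ψ (e.symm (z, 1)), map_one' := ?_, map_mul' := ?_,
              map_nonunit' := ?_ }, fun z => rfl⟩
    · have : ((1 : ZMod p), (1 : ZMod q)) = 1 := rfl
      simp only [this, map_one]
    · intro a b
      rw [← map_mul, ← map_mul]
      simp
    · intro a ha
      apply MulChar.map_nonunit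
      rw [hunit]
      exact fun h => ha h.1
  obtain ⟨θ, hθ⟩ := hθ
  have hmul : ∀ (a : ZMod p) (b : ZMod q), ψ (e.symm (a, b)) = θ a * ψ (e.symm (1, b)) := by
    intro a b
    rw [hθ, ← map_mul, ← map_mul]
    simp
  have hθ2 : θ ^ 2 = 1 := by
    apply MulChar.ext
    intro a
    rw [MulChar.pow_apply_coe, MulChar.one_apply_coe, hθ]
    have h3 : IsUnit (e.symm ((a : ZMod p), (1 : ZMod q))) := (hunit _).2 ⟨a.isUnit, isUnit_one⟩
    rcases CM_val _ ψ h2 _ h3 with h | h <;> rw [h] <;> norm_num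
  have hθ1 : θ ≠ 1 := by
    intro h
    have hlt : q < p * q := by
      have : 0 < q := Nat.pos_of_ne_zero hq0
      nlinarith
    obtain ⟨u, hu1, hu2⟩ := CM_ex (p * q) ψ hψ q (Dvd.intro_left p rfl) hlt
    apply hu2
    have h3 : (e (u : ZMod (p * q))).2 = 1 := by
      have h4 : (RingHom.snd (ZMod p) (ZMod q)).comp (e : ZMod (p * q) →+* ZMod p × ZMod q) =
          ZMod.castHom (Dvd.intro_left p rfl : q ∣ p * q) (ZMod q) := Subsingleton.elim _ _
      have h5 : (e (u : ZMod (p * q))).2 = ZMod.castHom (Dvd.intro_left p rfl : q ∣ p * q) (ZMod q)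
          (u : ZMod (p * q)) := by rw [← h4]; rfl
      rw [h5]
      have := congrArg (fun z : (ZMod q)ˣ => (z : ZMod q)) hu1
      simpa [ZMod.unitsMap_def] using this
    have h6 : (u : ZMod (p * q)) = e.symm ((e (u : ZMod (p * q))).1, 1) := by
      rw [← h3]; simp
    have h7 : IsUnit (e (u : ZMod (p * q))).1 := by
      have := ((hunit ((e (u : ZMod (p * q))).1, 1)).1 (h6 ▸ u.isUnit)).1
      exact this
    rw [h6, ← hθ, h]
    exact MulChar.one_apply h7
  have hex : ∀ (a : ZMod p) (b : ZMod q), (x : ZMod (p * q)) + e.symm (a, b) =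
      e.symm ((x : ZMod p) + a, (x : ZMod q) + b) := by
    intro a b
    apply e.injective
    rw [map_add, e.apply_symm_apply, e.apply_symm_apply, map_natCast]
    rfl
  have hex2 : ∀ (a : ZMod p) (b : ZMod q), (x : ZMod (p * q)) - e.symm (a, b) =
      e.symm ((x : ZMod p) - a, (x : ZMod q) - b) := by
    intro a b
    apply e.injective
    rw [map_sub, e.apply_symm_apply, e.apply_symm_apply, map_natCast]
    rfl
  have hex3 : ∀ (a : ZMod p) (b : ZMod q), (s : ZMod (p * q)) * e.symm (a, b) =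
      e.symm ((s : ZMod p) * a, (s : ZMod q) * b) := by
    intro a b
    apply e.injective
    rw [map_mul, e.apply_symm_apply, e.apply_symm_apply, map_intCast]
    rfl
  have hx0 : (x : ZMod p) ≠ 0 := by
    rw [Ne, ZMod.natCast_eq_zero_iff]; exact hx
  have h20 : (2 : ZMod p) ≠ 0 := by
    intro h
    have h3 : ((2 : ℕ) : ZMod p) = 0 := by exact_mod_cast h
    rw [ZMod.natCast_eq_zero_iff] at h3
    have := Nat.le_of_dvd (by norm_num) h3
    omega
  -- both sides as sums over the second coordinate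
  have hsum : ∀ P : ZMod (p * q) → Prop,
      ((univ.filter (fun y : ZMod (p * q) => P y)).card : ℝ) =
        ∑ b : ZMod q, ((univ.filter (fun a : ZMod p => P (e.symm (a, b)))).card : ℝ) := by
    intro P
    have h3 : ((univ.filter (fun y : ZMod (p * q) => P y)).card : ℝ) =
        ∑ y : ZMod (p * q), if P y then (1 : ℝ) else 0 := by
      rw [Finset.sum_boole]
    rw [h3, ← Fintype.sum_equiv e.symm.toEquiv (fun z => if P (e.symm z) then (1 : ℝ) else 0)
      (fun y => if P y then (1 : ℝ) else 0) (fun z => rfl), Fintype.sum_prod_type_right]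
    apply Finset.sum_congr rfl
    intro b _
    rw [Finset.sum_boole]
  have e1 := hsum (fun y => (IsUnit ((x : ZMod (p * q)) + y) ∧ IsUnit ((x : ZMod (p * q)) - y)) ∧ True)
  have e2 := hsum (fun y => (IsUnit ((x : ZMod (p * q)) + y) ∧ IsUnit ((x : ZMod (p * q)) - y)) ∧
      (ψ ((x : ZMod (p * q)) + y) = -1 ∧
        ψ ((s : ZMod (p * q)) * ((x : ZMod (p * q)) - y)) = -1))
  have e1' : ((compat (p * q) x).card : ℝ) = _ := hc1.trans (Eq.trans (by congr!) e1)
  have e2' : (((compat (p * q) x).filter (fun y : ℕ => ψ ((x : ZMod (p * q)) + y) = -1 ∧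
        ψ ((s : ZMod (p * q)) * ((x : ZMod (p * q)) - y)) = -1)).card : ℝ) = _ :=
    hc2.trans (Eq.trans (by congr!) e2)
  rw [e1']
  refine le_trans ?_ (le_of_eq (Eq.trans e2'.symm (by congr!)))
  rw [Finset.sum_div]
  apply Finset.sum_le_sum
  intro b _
  simp only [hex, hex2, hex3, hunit, and_true]
  by_cases hb : IsUnit ((x : ZMod q) + b) ∧ IsUnit ((x : ZMod q) - b)
  · -- good class
    have hsu : IsUnit (s : ZMod q) := by rcases hs with rfl | rfl <;> simp
    have hA : ((univ.filter (fun a : ZMod p => (IsUnit ((x : ZMod p) + a) ∧ IsUnit ((x : ZMod q) + b)) ∧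
        IsUnit ((x : ZMod p) - a) ∧ IsUnit ((x : ZMod q) - b))).card : ℝ) ≤ p - 2 := by
      have h3 : (univ.filter (fun a : ZMod p => (IsUnit ((x : ZMod p) + a) ∧
          IsUnit ((x : ZMod q) + b)) ∧ IsUnit ((x : ZMod p) - a) ∧ IsUnit ((x : ZMod q) - b))) ⊆
          univ \ {(x : ZMod p), -(x : ZMod p)} := by
        intro a ha
        rw [mem_filter] at ha
        rw [mem_sdiff, mem_insert, mem_singleton]
        refine ⟨mem_univ _, ?_⟩
        rintro (rfl | rfl)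
        · exact (ha.2.2.1.ne_zero) (sub_self _)
        · exact (ha.2.1.1.ne_zero) (add_neg_cancel _)
      have h4 : (x : ZMod p) ≠ -(x : ZMod p) := by
        intro h
        have : (2 : ZMod p) * x = 0 := by
          linear_combination h
        rcases mul_eq_zero.1 this with h | h
        · exact h20 h
        · exact hx0 h
      have h5 := card_le_card h3
      rw [card_sdiff_of_subset (subset_univ _), card_pair h4, card_univ, ZMod.card] at h5
      have h6 : ((univ.filter (fun a : ZMod p => (IsUnit ((x : ZMod p) + a) ∧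
          IsUnit ((x : ZMod q) + b)) ∧ IsUnit ((x : ZMod p) - a) ∧ IsUnit ((x : ZMod q) - b))).card :
          ℝ) ≤ ((p - 2 : ℕ) : ℝ) := by exact_mod_cast h5
      rw [Nat.cast_sub (by omega)] at h6
      push_cast at h6
      exact h6
    have hv1 := CM_val _ ψ h2 (e.symm (1, (x : ZMod q) + b)) ((hunit _).2 ⟨isUnit_one, hb.1⟩)
    have hv2 := CM_val _ ψ h2 (e.symm (1, (s : ZMod q) * ((x : ZMod q) - b)))
      ((hunit _).2 ⟨isUnit_one, hsu.mul hb.2⟩)
    have hcl := cl_local p h7 θ hθ1 hθ2 (x : ZMod p) hx0 (s : ZMod p)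
      (by rcases hs with rfl | rfl <;> simp)
      (-ψ (e.symm (1, (x : ZMod q) + b))) (-ψ (e.symm (1, (s : ZMod q) * ((x : ZMod q) - b))))
      (by rcases hv1 with h | h <;> rw [h] <;> simp) (by rcases hv2 with h | h <;> rw [h] <;> simp)
    have hfin : ((univ.filter (fun y : ZMod p => θ ((x : ZMod p) + y) =
        -ψ (e.symm (1, (x : ZMod q) + b)) ∧ θ ((s : ZMod p) * ((x : ZMod p) - y)) =
        -ψ (e.symm (1, (s : ZMod q) * ((x : ZMod q) - b))))).card : ℝ) ≤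
        ((univ.filter (fun a : ZMod p => ((IsUnit ((x : ZMod p) + a) ∧ IsUnit ((x : ZMod q) + b)) ∧
        IsUnit ((x : ZMod p) - a) ∧ IsUnit ((x : ZMod q) - b)) ∧
        ψ (e.symm ((x : ZMod p) + a, (x : ZMod q) + b)) = -1 ∧
        ψ (e.symm ((s : ZMod p) * ((x : ZMod p) - a), (s : ZMod q) * ((x : ZMod q) - b))) = -1)).card :
        ℝ) := by
      apply Nat.cast_le.2
      apply card_le_card
      intro a ha
      rw [mem_filter] at ha ⊢
      obtain ⟨_, ha1, ha2⟩ := ha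
      have hu1 : IsUnit ((x : ZMod p) + a) := by
        by_contra h
        rw [MulChar.map_nonunit θ h] at ha1
        rcases hv1 with h | h <;> rw [h] at ha1 <;> norm_num at ha1
      have hu2 : IsUnit ((s : ZMod p) * ((x : ZMod p) - a)) := by
        by_contra h
        rw [MulChar.map_nonunit θ h] at ha2
        rcases hv2 with h | h <;> rw [h] at ha2 <;> norm_num at ha2
      have hu3 : IsUnit ((x : ZMod p) - a) := isUnit_of_mul_isUnit_right hu2
      refine ⟨mem_univ _, ⟨⟨hu1, hb.1⟩, hu3, hb.2⟩, ?_, ?_⟩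
      · rw [hmul, ha1]
        rcases hv1 with h | h <;> rw [h] <;> norm_num
      · rw [hmul, ha2]
        rcases hv2 with h | h <;> rw [h] <;> norm_num
    refine le_trans ?_ (hcl.trans hfin)
    linarith
  · -- empty class
    have h3 : (univ.filter (fun a : ZMod p => (IsUnit ((x : ZMod p) + a) ∧ IsUnit ((x : ZMod q) + b)) ∧
        IsUnit ((x : ZMod p) - a) ∧ IsUnit ((x : ZMod q) - b))) = ∅ := by
      apply Finset.filter_eq_empty_iff.2
      intro a _ h
      exact hb ⟨h.1.2, h.2.2⟩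
    rw [h3]
    simp only [card_empty, Nat.cast_zero, zero_div]
    exact Nat.cast_nonneg _

end Pool.Agent.Lib.H18E
end

-- from Lib.H18E.CC
section

/-!
# Chunk CC: counting compatible classes
-/

open Finset Pool.Agent.Lib.H68T

namespace Pool.Agent.Lib.H18E

theorem CC_zmod (r x : ℕ) [NeZero r] :
    open Classical in
    (compat r x).card =
      (univ.filter (fun y : ZMod r => IsUnit ((x : ZMod r) + y) ∧ IsUnit ((x : ZMod r) - y))).card := by
  classical
  have h := CM_compat r x (fun _ => True)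
  have h1 : (compat r x) = (compat r x).filter (fun _ => True) := by
    ext y; simp
  rw [h1]
  refine Eq.trans ?_ (h.trans ?_)
  · exact congrArg Finset.card (by congr!)
  · congr 1
    ext y
    simp

theorem CC_mul (a b x : ℕ) (ha : 0 < a) (hb : 0 < b) (hab : Nat.Coprime a b) :
    (compat (a * b) x).card = (compat a x).card * (compat b x).card := by
  classical
  have : NeZero a := ⟨ha.ne'⟩
  have : NeZero b := ⟨hb.ne'⟩
  have : NeZero (a * b) := ⟨(Nat.mul_pos ha hb).ne'⟩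
  rw [CC_zmod (a * b), CC_zmod a, CC_zmod b, ← card_product]
  have e := ZMod.chineseRemainder hab
  apply Finset.card_bij (fun y _ => e y)
  · intro y hy
    rw [mem_filter] at hy
    rw [mem_product, mem_filter, mem_filter]
    have h1 : IsUnit (e ((x : ZMod (a * b)) + y)) := hy.2.1.map e
    have h2 : IsUnit (e ((x : ZMod (a * b)) - y)) := hy.2.2.map e
    rw [map_add, map_natCast, Prod.isUnit_iff] at h1
    rw [map_sub, map_natCast, Prod.isUnit_iff] at h2
    exact ⟨⟨mem_univ _, h1.1, h2.1⟩, ⟨mem_univ _, h1.2, h2.2⟩⟩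
  · intro y _ z _ hyz
    exact e.injective hyz
  · intro z hz
    rw [mem_product, mem_filter, mem_filter] at hz
    refine ⟨e.symm z, ?_, by simp⟩
    rw [mem_filter]
    refine ⟨mem_univ _, ?_, ?_⟩
    · have h1 : IsUnit (e ((x : ZMod (a * b)) + e.symm z)) := by
        rw [map_add, map_natCast, Prod.isUnit_iff, e.apply_symm_apply]
        exact ⟨hz.1.2.1, hz.2.2.1⟩
      have := h1.map e.symm
      rwa [e.symm_apply_apply] at this
    · have h1 : IsUnit (e ((x : ZMod (a * b)) - e.symm z)) := by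
        rw [map_sub, map_natCast, Prod.isUnit_iff, e.apply_symm_apply]
        exact ⟨hz.1.2.2, hz.2.2.2⟩
      have := h1.map e.symm
      rwa [e.symm_apply_apply] at this

theorem CC_count (p k v : ℕ) (hp : 0 < p) (hk : 0 < k) :
    ((range (p ^ k)).filter (fun y => y ≡ v [MOD p])).card = p ^ (k - 1) := by
  have h := Nat.count_modEq_card (p ^ k) hp v
  rw [Nat.count_eq_card_filter_range] at h
  rw [h]
  obtain ⟨j, rfl⟩ : ∃ j, k = j + 1 := ⟨k - 1, by omega⟩
  have h1 : p ^ (j + 1) % p = 0 := by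
    rw [pow_succ]; exact Nat.mul_mod_left _ _
  rw [h1]
  simp only [Nat.not_lt_zero, if_false, add_zero, Nat.add_sub_cancel]
  rw [pow_succ, Nat.mul_div_cancel _ hp]

theorem CC_pow (p k x : ℕ) (hp : p.Prime) (hk : 0 < k) :
    ((compat (p ^ k) x).card : ℝ) =
      ((p ^ k : ℕ) : ℝ) * (if p ∣ 2 * x then 1 - 1 / (p : ℝ) else 1 - 2 / (p : ℝ)) := by
  classical
  have hpp : Prime (p : ℤ) := Nat.prime_iff_prime_int.1 hp
  have hcop : ∀ z : ℤ, IsCoprime z ((p ^ k : ℕ) : ℤ) ↔ ¬ (p : ℤ) ∣ z := by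
    intro z
    push_cast
    rw [IsCoprime.pow_right_iff hk, isCoprime_comm, hpp.coprime_iff_not_dvd]
  set x' : ℕ := (p - x % p) with hx'
  have hxp : x % p < p := Nat.mod_lt _ hp.pos
  have hxx : (x : ℤ) + x' ≡ 0 [ZMOD p] := by
    have h1 : (x : ℤ) + x' = p * (x / p + 1 : ℕ) := by
      have h2 := Nat.div_add_mod x p
      have h3 : x + x' = p * (x / p + 1) := by
        rw [hx', mul_add, mul_one]; omega
      exact_mod_cast h3
    rw [h1]
    exact (Int.modEq_zero_iff_dvd).2 (Dvd.intro _ rfl)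
  have hA : ∀ y : ℕ, (p : ℤ) ∣ (x : ℤ) - y ↔ y ≡ x [MOD p] := by
    intro y
    rw [← Int.natCast_modEq_iff, Int.modEq_iff_dvd]
  have hB : ∀ y : ℕ, (p : ℤ) ∣ (x : ℤ) + y ↔ y ≡ x' [MOD p] := by
    intro y
    rw [← Int.natCast_modEq_iff, ← Int.modEq_zero_iff_dvd]
    constructor
    · intro h
      exact Int.ModEq.add_left_cancel' (x : ℤ) (h.trans hxx.symm)
    · intro h
      exact (Int.ModEq.add_left (x : ℤ) h).trans hxx
  have hset : compat (p ^ k) x = range (p ^ k) \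
      ((range (p ^ k)).filter (fun y => y ≡ x [MOD p]) ∪
        (range (p ^ k)).filter (fun y => y ≡ x' [MOD p])) := by
    ext y
    simp only [compat, mem_filter, mem_sdiff, mem_union, hcop, hA, hB]
    tauto
  have hsub : ((range (p ^ k)).filter (fun y => y ≡ x [MOD p]) ∪
        (range (p ^ k)).filter (fun y => y ≡ x' [MOD p])) ⊆ range (p ^ k) :=
    union_subset (filter_subset _ _) (filter_subset _ _)
  have hc1 := CC_count p k x hp.pos hk
  have hc2 := CC_count p k x' hp.pos hk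
  have hp0 : (p : ℝ) ≠ 0 := by exact_mod_cast hp.pos.ne'
  have hpk : (p : ℝ) ^ (k - 1) * p = (p : ℝ) ^ k := by
    rw [← pow_succ]
    congr 1
    omega
  have hcard : ((compat (p ^ k) x).card : ℝ) = (p : ℝ) ^ k -
      (((range (p ^ k)).filter (fun y => y ≡ x [MOD p]) ∪
        (range (p ^ k)).filter (fun y => y ≡ x' [MOD p])).card : ℝ) := by
    rw [hset, card_sdiff_of_subset hsub, Nat.cast_sub (card_le_card hsub), card_range]
    push_cast
    ring
  rw [hcard]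
  by_cases h2x : p ∣ 2 * x
  · have hxx2 : x ≡ x' [MOD p] := by
      rw [← hB]
      have h1 : ((p : ℤ)) ∣ ((2 * x : ℕ) : ℤ) := Int.natCast_dvd_natCast.2 h2x
      push_cast at h1
      have h2 : (x : ℤ) + x = 2 * x := by ring
      rw [h2]; exact h1
    have heq : (range (p ^ k)).filter (fun y => y ≡ x' [MOD p]) =
        (range (p ^ k)).filter (fun y => y ≡ x [MOD p]) := by
      apply filter_congr
      intro y _
      exact ⟨fun h => h.trans hxx2.symm, fun h => h.trans hxx2⟩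
    rw [heq, union_self, hc1, if_pos h2x]
    push_cast
    rw [← hpk]
    field_simp
  · have hdis : Disjoint ((range (p ^ k)).filter (fun y => y ≡ x [MOD p]))
        ((range (p ^ k)).filter (fun y => y ≡ x' [MOD p])) := by
      rw [Finset.disjoint_left]
      intro y hy1 hy2
      rw [mem_filter] at hy1 hy2
      apply h2x
      have h1 : (p : ℤ) ∣ (x : ℤ) + x := (hB x).2 (hy1.2.symm.trans hy2.2)
      have h2 : (p : ℤ) ∣ ((2 * x : ℕ) : ℤ) := by
        push_cast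
        have h2 : (x : ℤ) + x = 2 * x := by ring
        rwa [h2] at h1
      exact Int.natCast_dvd_natCast.1 h2
    rw [card_union_of_disjoint hdis, hc1, hc2, if_neg h2x]
    push_cast
    rw [← hpk]
    field_simp
    ring

/-- The number of compatible classes. The condition depends on `y` modulo the radical `R` of `r`
only, so it is enough to count the classes modulo `R` (`r / R` lifts each), and for squarefree `R` one
multiplies over the primes `p ∣ R` (Chinese remainders, induction on the set of primes): `y ≢ -x` and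
`y ≢ x` modulo `p`, two different classes if `p ∤ 2 x` and one class otherwise. -/
theorem compat_card (r x : ℕ) (hr : 0 < r) :
    ((compat r x).card : ℝ) =
      r * ∏ p ∈ r.primeFactors, (if p ∣ 2 * x then 1 - 1 / (p : ℝ) else 1 - 2 / (p : ℝ)) := by
  classical
  revert hr
  induction r using Nat.recOnPosPrimePosCoprime with
  | prime_pow p k hp hk =>
    intro _
    rw [CC_pow p k x hp hk, Nat.primeFactors_prime_pow hk.ne' hp, prod_singleton]
  | zero => intro h; omega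
  | one =>
    intro _
    have : compat 1 x = {0} := by
      ext y
      simp only [compat, mem_filter, mem_range, mem_singleton, Nat.cast_one]
      constructor
      · intro h; omega
      · rintro rfl
        exact ⟨by norm_num, isCoprime_one_right, isCoprime_one_right⟩
    rw [this]
    simp
  | coprime a b ha hb hab iha ihb =>
    intro _
    rw [CC_mul a b x (by omega) (by omega) hab]
    push_cast
    rw [iha (by omega), ihb (by omega), Nat.Coprime.primeFactors_mul hab,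
      prod_union hab.disjoint_primeFactors]
    ring

theorem CC_tel (M : ℕ) (hM : 2 ≤ M) :
    ∏ m ∈ Icc 3 M, (1 - 1 / ((m : ℝ) - 1) ^ 2) = (M : ℝ) / (2 * ((M : ℝ) - 1)) := by
  induction M, hM using Nat.le_induction with
  | base => norm_num
  | succ M hM ih =>
    rw [Finset.prod_Icc_succ_top (by omega : 3 ≤ M + 1), ih]
    have : (2 : ℝ) ≤ M := by exact_mod_cast hM
    have h1 : (M : ℝ) - 1 ≠ 0 := by linarith
    have h2 : (M : ℝ) ≠ 0 := by linarith
    push_cast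
    have h3 : (M : ℝ) + 1 - 1 = M := by ring
    rw [h3]
    field_simp
    ring

theorem CC_half (S : Finset ℕ) (hS : ∀ p ∈ S, 3 ≤ p) :
    1 / 2 ≤ ∏ p ∈ S, (1 - 1 / ((p : ℝ) - 1) ^ 2) := by
  obtain ⟨M, hM2, hM⟩ : ∃ M, 2 ≤ M ∧ S ⊆ Icc 3 M := by
    refine ⟨S.sup id + 2, by omega, fun p hp => ?_⟩
    rw [mem_Icc]
    have := Finset.le_sup (f := id) hp
    simp only [id] at this
    exact ⟨hS p hp, by omega⟩
  have h01 : ∀ p ∈ Icc 3 M, 0 ≤ 1 - 1 / ((p : ℝ) - 1) ^ 2 ∧ 1 - 1 / ((p : ℝ) - 1) ^ 2 ≤ 1 := by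
    intro p hp
    rw [mem_Icc] at hp
    have h3 : (3 : ℝ) ≤ p := by exact_mod_cast hp.1
    have h4 : (1 : ℝ) ≤ ((p : ℝ) - 1) ^ 2 := by nlinarith
    have h5 : 1 / ((p : ℝ) - 1) ^ 2 ≤ 1 := by
      rw [div_le_one (by linarith)]; exact h4
    have h6 : 0 ≤ 1 / ((p : ℝ) - 1) ^ 2 := by positivity
    exact ⟨by linarith, by linarith⟩
  have h1 := Finset.prod_le_prod_of_subset_of_le_one hM (fun p hp => (h01 p hp).1)
    (fun p hp _ => (h01 p hp).2)
  refine le_trans ?_ h1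
  rw [CC_tel M hM2]
  have : (2 : ℝ) ≤ M := by exact_mod_cast hM2
  rw [div_le_div_iff₀ (by norm_num) (by linarith)]
  linarith

/-- The constant of the main term. With `r / φ(r) = ∏_{p ∣ r} p/(p-1)` (`Nat.totient_eq_mul_prod_factors`)
and `compat_card` the right-hand side is
`∏_{p ∣ r, p ∤ 2x} (1 - 1/(p-1)^2) * ∏_{p ∣ 2x} p/(p-1)`, and
`∏_{p ∣ 2x} p/(p-1) = 2 ∏_{p ∣ x, p > 2} p/(p-1) = 2 SE x ∏_{p ∣ x, p > 2} (1 - 1/(p-1)^2)`. Every product
of `1 - 1/(p-1)^2` over a finite set of primes `p ≥ 3` is at least `∏_{2 ≤ m ≤ M} (1 - 1/m^2) ≥ 1/2`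
(telescoping). -/
theorem compat_gp (r x : ℕ) (hr : 0 < r) (hx : 0 < x) :
    1 / 2 * SE x ≤ ((compat r x).card : ℝ) * (r / (Nat.totient r : ℝ) ^ 2) * Gp r (2 * (x : ℤ)) := by
  classical
  have hr0 : (r : ℝ) ≠ 0 := by exact_mod_cast hr.ne'
  have hphi : (Nat.totient r : ℝ) = r * ∏ p ∈ r.primeFactors, (1 - 1 / (p : ℝ)) := by
    have h := Nat.totient_eq_mul_prod_factors r
    have h' := congrArg (fun q : ℚ => (q : ℝ)) h
    push_cast at h'
    rw [h']
    simp only [one_div]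
  have hpr : ∀ p ∈ r.primeFactors, (0 : ℝ) < 1 - 1 / (p : ℝ) := by
    intro p hp
    have h2 : (2 : ℝ) ≤ p := by exact_mod_cast (Nat.prime_of_mem_primeFactors hp).two_le
    have : 1 / (p : ℝ) ≤ 1 / 2 := by
      apply div_le_div_of_nonneg_left zero_le_one (by norm_num) h2
    linarith
  have hprod0 : ∏ p ∈ r.primeFactors, (1 - 1 / (p : ℝ)) ≠ 0 :=
    (Finset.prod_pos hpr).ne'
  have h1 : ((compat r x).card : ℝ) * (r / (Nat.totient r : ℝ) ^ 2) =
      ∏ p ∈ r.primeFactors, (if p ∣ 2 * x then 1 + 1 / ((p : ℝ) - 1) else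
        1 - 1 / ((p : ℝ) - 1) ^ 2) := by
    rw [compat_card r x hr, hphi]
    have h2 : (r : ℝ) * (∏ p ∈ r.primeFactors, (if p ∣ 2 * x then 1 - 1 / (p : ℝ) else 1 - 2 / (p : ℝ))) *
        (r / (r * ∏ p ∈ r.primeFactors, (1 - 1 / (p : ℝ))) ^ 2) =
        (∏ p ∈ r.primeFactors, (if p ∣ 2 * x then 1 - 1 / (p : ℝ) else 1 - 2 / (p : ℝ))) /
        (∏ p ∈ r.primeFactors, (1 - 1 / (p : ℝ))) ^ 2 := by
      field_simp
    rw [h2, ← Finset.prod_pow, ← Finset.prod_div_distrib]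
    apply Finset.prod_congr rfl
    intro p hp
    have h3 : (2 : ℝ) ≤ p := by exact_mod_cast (Nat.prime_of_mem_primeFactors hp).two_le
    have h4 : (p : ℝ) ≠ 0 := by linarith
    have h5 : (p : ℝ) - 1 ≠ 0 := by linarith
    have h6 : 1 - 1 / (p : ℝ) = ((p : ℝ) - 1) / p := by field_simp
    split_ifs
    · rw [h6]
      field_simp
      ring
    · rw [h6]
      field_simp
      ring
  have hab : (2 * (x : ℤ)).natAbs = 2 * x := by omega
  -- split the primes of `r`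
  have h2 : (∏ p ∈ r.primeFactors, (if p ∣ 2 * x then 1 + 1 / ((p : ℝ) - 1) else
        1 - 1 / ((p : ℝ) - 1) ^ 2)) =
      (∏ p ∈ r.primeFactors.filter (fun p => p ∣ 2 * x), (1 + 1 / ((p : ℝ) - 1))) *
      ∏ p ∈ r.primeFactors.filter (fun p => ¬ p ∣ 2 * x), (1 - 1 / ((p : ℝ) - 1) ^ 2) := by
    rw [Finset.prod_ite]
  have h3 : (∏ p ∈ r.primeFactors.filter (fun p => p ∣ 2 * x), (1 + 1 / ((p : ℝ) - 1))) *
      Gp r (2 * (x : ℤ)) = ∏ p ∈ (2 * x).primeFactors, (1 + 1 / ((p : ℝ) - 1)) := by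
    unfold Gp
    rw [hab, ← Finset.prod_filter_mul_prod_filter_not (2 * x).primeFactors (fun p => p ∣ r)]
    congr 1
    apply Finset.prod_congr _ (fun _ _ => rfl)
    ext p
    simp only [mem_filter, Nat.mem_primeFactors]
    constructor
    · rintro ⟨⟨a, b, _⟩, d⟩
      exact ⟨⟨a, d, by omega⟩, b⟩
    · rintro ⟨⟨a, b, _⟩, d⟩
      exact ⟨⟨a, d, by omega⟩, b⟩
  -- the primes of `2 x`
  have h4 : (2 * x).primeFactors = insert 2 (x.primeFactors.filter (fun p => 2 < p)) := by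
    ext p
    simp only [mem_insert, mem_filter, Nat.mem_primeFactors]
    constructor
    · rintro ⟨a, b, _⟩
      rcases (Nat.Prime.dvd_mul a).1 b with h | h
      · left
        exact (Nat.prime_dvd_prime_iff_eq a Nat.prime_two).1 h
      · by_cases h2 : p = 2
        · left; exact h2
        · right
          have := a.two_le
          exact ⟨⟨a, h, hx.ne'⟩, by omega⟩
    · rintro (rfl | ⟨⟨a, b, _⟩, _⟩)
      · exact ⟨Nat.prime_two, Dvd.intro _ rfl, by omega⟩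
      · exact ⟨a, Dvd.dvd.mul_left b 2, by omega⟩
  have h5 : ∏ p ∈ (2 * x).primeFactors, (1 + 1 / ((p : ℝ) - 1)) =
      2 * (SE x * ∏ p ∈ x.primeFactors.filter (fun p => 2 < p), (1 - 1 / ((p : ℝ) - 1) ^ 2)) := by
    rw [h4, prod_insert (by simp), SE, ← Finset.prod_mul_distrib]
    congr 1
    · norm_num
    · apply Finset.prod_congr rfl
      intro p hp
      have h3 : (3 : ℝ) ≤ p := by
        have := (mem_filter.1 hp).2
        exact_mod_cast (by omega : 3 ≤ p)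
      have h5 : (p : ℝ) - 1 ≠ 0 := by linarith
      have h6 : (p : ℝ) - 2 ≠ 0 := by linarith
      field_simp
      ring
  have hSE : 0 ≤ SE x := by
    unfold SE
    apply Finset.prod_nonneg
    intro p hp
    have h3 : (3 : ℝ) ≤ p := by
      have := (mem_filter.1 hp).2
      exact_mod_cast (by omega : 3 ≤ p)
    exact div_nonneg (by linarith) (by linarith)
  have h6 : ((compat r x).card : ℝ) * (r / (Nat.totient r : ℝ) ^ 2) * Gp r (2 * (x : ℤ)) =
      2 * SE x * ∏ p ∈ (r.primeFactors.filter (fun p => ¬ p ∣ 2 * x)) ∪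
        (x.primeFactors.filter (fun p => 2 < p)), (1 - 1 / ((p : ℝ) - 1) ^ 2) := by
    rw [h1, h2, mul_right_comm, h3, h5, prod_union]
    · ring
    · rw [Finset.disjoint_left]
      intro p hp1 hp2
      rw [mem_filter] at hp1 hp2
      exact hp1.2 (Dvd.dvd.mul_left (Nat.dvd_of_mem_primeFactors hp2.1) 2)
  rw [h6]
  have h7 := CC_half ((r.primeFactors.filter (fun p => ¬ p ∣ 2 * x)) ∪
        (x.primeFactors.filter (fun p => 2 < p))) (by
    intro p hp
    rw [mem_union, mem_filter, mem_filter] at hp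
    rcases hp with ⟨h, h'⟩ | ⟨_, h⟩
    · have h2 := (Nat.prime_of_mem_primeFactors h).two_le
      by_contra hlt
      have : p = 2 := by omega
      rw [this] at h'
      exact h' (Dvd.intro _ rfl)
    · omega)
  nlinarith [mul_le_mul_of_nonneg_left h7 hSE]

end Pool.Agent.Lib.H18E
end

-- from Lib.H18Q.CDefs
section

/-!
# Project H18Q: definitions for module C (correlations of components)
-/

open Finset

namespace Pool.Agent.Lib.H18Q

open Pool.Agent.Lib.H68T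

noncomputable section

/-- The component of modulus `p.1 k` of `Gam Q p.1 m conj χ(m)`:
`(r/φ(r)) conj χ(m) μ(k) c_k(m)/φ(k)`, `r = p.1`. -/
def gk (p : Σ r : ℕ, DirichletCharacter ℂ r) (k : ℕ) (m : ℤ) : ℂ :=
  (((p.1 : ℝ) / (Nat.totient p.1 : ℝ) : ℝ) : ℂ) * (starRingEnd ℂ) (p.2 (m : ZMod p.1)) *
    (((ArithmeticFunction.moebius k : ℝ) / (Nat.totient k : ℝ) * cq k m : ℝ) : ℂ)

/-- The squarefree `k ≤ Q/r` coprime to `r`. -/
def KS (Q r : ℕ) : Finset ℕ :=
  open Classical in (Icc 1 (Q / r)).filter (fun k => Squarefree k ∧ Nat.Coprime k r)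

/-- The absolute value of a component as a product over primes. -/
def aw (p : Σ r : ℕ, DirichletCharacter ℂ r) (k : ℕ) (m : ℤ) : ℝ :=
  (∏ l ∈ p.1.primeFactors, (if (l : ℤ) ∣ m then 0 else (l : ℝ) / ((l : ℝ) - 1))) *
    ∏ l ∈ k.primeFactors, (if (l : ℤ) ∣ m then 1 else 1 / ((l : ℝ) - 1))

/-- The local bound for the mean of the product of two components with difference (or sum) of the
arguments `D`; `w = p.1 p'.1`. -/
def loc (w : ℕ) (D : ℤ) (l : ℕ) : ℝ :=
  if (l : ℤ) ∣ D then (if l ∣ w then (l : ℝ) / ((l : ℝ) - 1) else 1 / ((l : ℝ) - 1))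
  else (if l ∣ w then 1 else 3 / ((l : ℝ) - 1) ^ 2)

/-- The full sum `∑_p Gam_p(m) conj χ_p(m) b_p`. -/
def SG (Q : ℕ) (b : (Σ r : ℕ, DirichletCharacter ℂ r) → ℂ) (m : ℤ) : ℂ :=
  ∑ p ∈ PC Q, (Gam Q p.1 m : ℂ) * (starRingEnd ℂ) (p.2 (m : ZMod p.1)) * b p

/-- The projection `Lk` at level `Q` on `[X, 4X]` is the model `mo` up to an error with
coefficients of total size `E`: both have coefficients (of the components) which vary slowly. -/
def Lev (Q X : ℕ) (E : ℝ) (mo : ℤ → ℝ) : Prop :=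
  ∃ (μ e : ℤ → (Σ r : ℕ, DirichletCharacter ℂ r) → ℂ)
    (mb eb : (Σ r : ℕ, DirichletCharacter ℂ r) → ℝ),
    (∀ p ∈ PC Q, 0 ≤ mb p ∧ mb p ≤ 2 ∧ 0 ≤ eb p ∧ eb p ≤ 2) ∧
    ∑ p ∈ PC Q, mb p ≤ 2 ∧ ∑ p ∈ PC Q, eb p ≤ E ∧
    ∀ m : ℤ, (X : ℤ) ≤ m → m ≤ 4 * X →
      (mo m : ℂ) = SG Q (μ m) m ∧
      ((Lk Q (X / Q ^ 2) m - mo m : ℝ) : ℂ) = SG Q (e m) m ∧
      ∀ p ∈ PC Q, ‖μ m p‖ ≤ mb p ∧ ‖e m p‖ ≤ eb p ∧
        ‖μ (m + 1) p - μ m p‖ ≤ (Q : ℝ) ^ 3 / X ∧ ‖e (m + 1) p - e m p‖ ≤ (Q : ℝ) ^ 3 / X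

end

end Pool.Agent.Lib.H18Q
end

-- from Lib.H18Q.CA
section

/-!
# Project H18Q, chunk CA: the components of the projection
-/

open Finset

namespace Pool.Agent.Lib.H18Q

open Pool.Agent.Lib.H68T

theorem CA_chi_zero (r : ℕ) (χ : DirichletCharacter ℂ r) (m : ℤ) (h : ¬ IsCoprime (r : ℤ) m) :
    χ (m : ZMod r) = 0 := by
  apply MulChar.map_nonunit
  rw [ZMod.coe_int_isUnit_iff_isCoprime]
  exact h

theorem CA_sum_icc (Q r : ℕ) (hr : 1 ≤ r) (m : ℤ) (hrm : IsCoprime (r : ℤ) m) :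
    Gam Q r m = (r : ℝ) / Nat.totient r * ∑ q ∈ Icc 1 (Q / r), GAM_F r m q := by
  have himg : (Icc 1 Q).filter (fun q => r ∣ q) = (Icc 1 (Q / r)).image (fun q => r * q) := by
    ext q
    simp only [mem_filter, mem_Icc, mem_image]
    constructor
    · rintro ⟨⟨h1, h2⟩, ⟨e, rfl⟩⟩
      refine ⟨e, ⟨?_, ?_⟩, rfl⟩
      · rcases Nat.eq_zero_or_pos e with rfl | h
        · simp at h1
        · exact h
      · rw [Nat.le_div_iff_mul_le (by omega), mul_comm]
        exact h2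
    · rintro ⟨e, ⟨h1, h2⟩, rfl⟩
      refine ⟨⟨Nat.mul_pos (by omega) (by omega), ?_⟩, Dvd.intro _ rfl⟩
      rw [Nat.le_div_iff_mul_le (by omega), mul_comm] at h2
      exact h2
  unfold Gam
  rw [himg, Finset.sum_image (fun a _ b _ h => Nat.eq_of_mul_eq_mul_left (by omega) h),
    Finset.mul_sum]
  refine Finset.sum_congr rfl (fun q hq => ?_)
  rw [mem_Icc] at hq
  exact GAM_inner r m (by omega) hrm q (by omega)

theorem CA_F_zero (r : ℕ) (m : ℤ) (hrm : IsCoprime (r : ℤ) m) (q : ℕ) (hq : q ≠ 0)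
    (h : ¬ (Squarefree q ∧ Nat.Coprime q r)) : GAM_F r m q = 0 := by
  by_cases hs : Squarefree q
  · have hc : ¬ Nat.Coprime q r := fun h' => h ⟨hs, h'⟩
    obtain ⟨l, hl, hlq, hlr⟩ := Nat.Prime.not_coprime_iff_dvd.1 hc
    rw [← (GAM_F_mult r m).prod_primeFactors hs]
    refine Finset.prod_eq_zero (Nat.mem_primeFactors.2 ⟨hl, hlq, hq⟩) ?_
    rw [GAM_F_prime r m l hl, if_neg, if_pos hlr]
    intro hlm
    have h1 : IsCoprime (l : ℤ) m := by
      obtain ⟨c, rfl⟩ := hlr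
      rw [Nat.cast_mul, IsCoprime.mul_left_iff] at hrm
      exact hrm.1
    exact (Nat.prime_iff_prime_int.mp hl).not_unit (h1.isUnit_of_dvd' dvd_rfl hlm)
  · have h1 := GAM_F_abs r m q hq
    rw [if_neg hs, abs_nonpos_iff] at h1
    exact h1

theorem CA_F_one (m : ℤ) (k : ℕ) : GAM_F 1 m k =
    (ArithmeticFunction.moebius k : ℝ) / (Nat.totient k : ℝ) * cq k m := by
  rw [GAM_identity, ArithmeticFunction.pdiv_apply, ArithmeticFunction.pmul_apply, GAM_c_apply,
    ArithmeticFunction.intCoe_apply]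
  change _ / ((Nat.totient k : ℕ) : ℝ) = _
  ring

theorem CA_F_eq (r : ℕ) (m : ℤ) (k : ℕ) (hs : Squarefree k) (hc : Nat.Coprime k r) :
    GAM_F r m k = GAM_F 1 m k := by
  rw [← (GAM_F_mult r m).prod_primeFactors hs, ← (GAM_F_mult 1 m).prod_primeFactors hs]
  refine Finset.prod_congr rfl fun l hl => ?_
  have hl' := Nat.mem_primeFactors.1 hl
  rw [GAM_F_prime r m l hl'.1, GAM_F_prime 1 m l hl'.1]
  have h1 : ¬ l ∣ r := fun h => hl'.1.one_lt.ne' (Nat.dvd_one.1 (hc ▸ Nat.dvd_gcd hl'.2.1 h))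
  have h2 : ¬ l ∣ 1 := fun h => hl'.1.one_lt.ne' (Nat.dvd_one.1 h)
  rw [if_neg h1, if_neg h2]

theorem CA_mem_KS {Q r k : ℕ} : k ∈ KS Q r ↔ (1 ≤ k ∧ k ≤ Q / r) ∧ Squarefree k ∧ Nat.Coprime k r := by
  classical
  unfold KS
  rw [mem_filter, mem_Icc]

theorem CA_F_abs (m : ℤ) (k : ℕ) (hs : Squarefree k) : |GAM_F 1 m k| =
    ∏ l ∈ k.primeFactors, (if (l : ℤ) ∣ m then 1 else 1 / ((l : ℝ) - 1)) := by
  rw [← (GAM_F_mult 1 m).prod_primeFactors hs, Finset.abs_prod]
  refine Finset.prod_congr rfl fun l hl => ?_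
  have hl' := Nat.mem_primeFactors.1 hl
  have h2 : ¬ l ∣ 1 := fun h => hl'.1.one_lt.ne' (Nat.dvd_one.1 h)
  have h3 : (2 : ℝ) ≤ l := by exact_mod_cast hl'.1.two_le
  rw [GAM_F_prime 1 m l hl'.1, if_neg h2]
  split_ifs
  · simp
  · rw [abs_of_nonneg]
    exact div_nonneg zero_le_one (by linarith)

theorem CA_norm (p : Σ r : ℕ, DirichletCharacter ℂ r) (k : ℕ) (m : ℤ) :
    ‖gk p k m‖ = (p.1 : ℝ) / (Nat.totient p.1 : ℝ) * ‖p.2 (m : ZMod p.1)‖ * |GAM_F 1 m k| := by
  unfold gk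
  rw [norm_mul, norm_mul, RCLike.norm_conj, Complex.norm_real, Complex.norm_real, Real.norm_eq_abs,
    Real.norm_eq_abs, ← CA_F_one, abs_of_nonneg (by positivity : (0 : ℝ) ≤ (p.1 : ℝ) / (Nat.totient p.1 : ℝ))]

theorem CA_cq_congr (k : ℕ) (a b : ℤ) (h : (k : ℤ) ∣ a - b) : cq k a = cq k b := by
  unfold cq
  refine Finset.sum_congr ?_ fun _ _ => rfl
  refine Finset.filter_congr fun d hd => ?_
  have h1 : (d : ℤ) ∣ a - b := (Int.natCast_dvd_natCast.2 (Nat.dvd_of_mem_divisors hd)).trans h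
  exact (dvd_iff_dvd_of_dvd_sub h1)

theorem CA_cq_mul (a b : ℕ) (n : ℤ) (h : Nat.Coprime a b) : cq (a * b) n = cq a n * cq b n := by
  rw [← GAM_c_apply, ← GAM_c_apply, ← GAM_c_apply]
  exact (GAM_c_mult n).2 h

theorem CA_cq_prime (l : ℕ) (hl : l.Prime) (n : ℤ) : cq l n = -1 + if (l : ℤ) ∣ n then (l : ℝ) else 0 := by
  unfold cq
  rw [Finset.sum_filter, hl.divisors, Finset.sum_pair hl.one_lt.ne, Nat.div_one,
    Nat.div_self hl.pos, ArithmeticFunction.moebius_apply_one,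
    ArithmeticFunction.moebius_apply_prime hl]
  simp

theorem CA_range (l : ℕ) [NeZero l] (g : ZMod l → ℂ) : ∑ j ∈ range l, g (j : ZMod l) = ∑ z, g z := by
  refine Finset.sum_bij' (fun (j : ℕ) _ => (j : ZMod l)) (fun (z : ZMod l) _ => z.val)
    (fun _ _ => mem_univ _) (fun z _ => mem_range.2 (ZMod.val_lt z)) (fun j hj => ?_)
    (fun z _ => ZMod.natCast_zmod_val z) (fun _ _ => rfl)
  rw [ZMod.val_natCast, Nat.mod_eq_of_lt (mem_range.1 hj)]

theorem CA_shift (l : ℕ) [NeZero l] (f : ℤ → ℂ) (hf : ∀ a b : ℤ, (a : ZMod l) = b → f a = f b)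
    (a b : ℤ) (ha : IsUnit (a : ZMod l)) : ∑ j ∈ range l, f (a * j + b) = ∑ j ∈ range l, f j := by
  obtain ⟨F, hF⟩ : ∃ F : ZMod l → ℂ, ∀ n : ℤ, f n = F (n : ZMod l) := by
    refine ⟨fun z => f (z.val : ℤ), fun n => hf _ _ ?_⟩
    simp
  have h1 : ∑ j ∈ range l, f (a * j + b) = ∑ z : ZMod l, F ((a : ZMod l) * z + b) := by
    rw [← CA_range l fun z => F ((a : ZMod l) * z + b)]
    refine Finset.sum_congr rfl fun j _ => ?_
    rw [hF]
    push_cast
    rfl
  have h2 : ∑ j ∈ range l, f j = ∑ z : ZMod l, F z := by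
    rw [← CA_range l F]
    refine Finset.sum_congr rfl fun j _ => ?_
    rw [hF]
    push_cast
    rfl
  rw [h1, h2]
  have hbij : Function.Bijective fun z : ZMod l => (a : ZMod l) * z + b := by
    rw [← Finite.injective_iff_bijective]
    intro x y hxy
    exact ha.mul_left_cancel (add_right_cancel hxy)
  exact hbij.sum_comp F

/-- Expansion into components. Proof: if `(m, r) ≠ 1`, `r = p.1`, then `χ(m) = 0` and both sides
vanish. Otherwise `Gam Q r m = ∑_{q ≤ Q, r ∣ q} (...)`, `q = r k`, `k ≤ Q/r`, and the inner sum is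
`(r/φ(r)) GAM_F r m k` (`GAM_inner` in `H68T/GAM1`). `GAM_F r m` is multiplicative, `0` at squares of
primes and beyond (`GAM_F_prime_pow`), and at a prime `l` it is `-1` if `l ∣ m`, `0` if `l ∣ r` (then
`l ∤ m`), else `1/(l-1)` (`GAM_F_prime`). So it vanishes unless `k` is squarefree and coprime to
`r`, and then equals `GAM_F 1 m k = μ(k) c_k(m)/φ(k)` (`GAM_identity`; compare prime by prime). -/
theorem gam_expand (Q : ℕ) (p : Σ r : ℕ, DirichletCharacter ℂ r) (hp : p ∈ PC Q) (m : ℤ) :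
    (Gam Q p.1 m : ℂ) * (starRingEnd ℂ) (p.2 (m : ZMod p.1)) = ∑ k ∈ KS Q p.1, gk p k m := by
  obtain ⟨hr1, hrQ, hprim⟩ := mem_PC.1 hp
  by_cases hrm : IsCoprime (p.1 : ℤ) m
  · rw [CA_sum_icc Q p.1 hr1 m hrm]
    have h1 : ∑ q ∈ Icc 1 (Q / p.1), GAM_F p.1 m q = ∑ k ∈ KS Q p.1, GAM_F 1 m k := by
      rw [← Finset.sum_subset (s₁ := KS Q p.1)]
      · refine Finset.sum_congr rfl fun k hk => ?_
        obtain ⟨-, h2, h3⟩ := CA_mem_KS.1 hk
        exact CA_F_eq p.1 m k h2 h3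
      · intro k hk
        exact mem_Icc.2 (CA_mem_KS.1 hk).1
      · intro k hk hk'
        refine CA_F_zero p.1 m hrm k ?_ fun h => hk' (CA_mem_KS.2 ⟨mem_Icc.1 hk, h⟩)
        have := (mem_Icc.1 hk).1
        omega
    rw [h1]
    push_cast
    rw [Finset.mul_sum, Finset.sum_mul]
    refine Finset.sum_congr rfl fun k _ => ?_
    unfold gk
    rw [CA_F_one]
    push_cast
    ring
  · have h0 := CA_chi_zero p.1 p.2 m hrm
    rw [h0, map_zero, mul_zero]
    symm
    refine Finset.sum_eq_zero fun k _ => ?_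
    unfold gk
    rw [h0, map_zero, mul_zero, zero_mul]

/-- The component is bounded by the product over primes: `|χ(m)| ≤ ∏_{l ∣ r} 1[l ∤ m]`,
`r/φ(r) = ∏ l/(l-1)` (`GAM_ratio`), `|c_k(m)/φ(k)| = ∏_{l ∣ k} (1 or 1/(l-1))` for squarefree `k`
(`GAM_identity`, `GAM_F_prime`, multiplicativity). -/
theorem gk_le_aw (Q : ℕ) (p : Σ r : ℕ, DirichletCharacter ℂ r) (hp : p ∈ PC Q) (k : ℕ)
    (hk : k ∈ KS Q p.1) (m : ℤ) : ‖gk p k m‖ ≤ aw p k m := by
  obtain ⟨hr1, hrQ, hprim⟩ := mem_PC.1 hp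
  obtain ⟨-, hs, -⟩ := CA_mem_KS.1 hk
  rw [CA_norm, CA_F_abs m k hs]
  unfold aw
  refine mul_le_mul_of_nonneg_right ?_ ?_
  · by_cases hex : ∃ l ∈ p.1.primeFactors, (l : ℤ) ∣ m
    · obtain ⟨l, hl, hlm⟩ := hex
      have hl' := Nat.mem_primeFactors.1 hl
      have h0 : p.2 (m : ZMod p.1) = 0 := by
        refine CA_chi_zero p.1 p.2 m fun h => ?_
        obtain ⟨c, hc⟩ := hl'.2.1
        rw [hc, Nat.cast_mul, IsCoprime.mul_left_iff] at h
        exact (Nat.prime_iff_prime_int.mp hl'.1).not_unit (h.1.isUnit_of_dvd' dvd_rfl hlm)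
      rw [h0, norm_zero, mul_zero, Finset.prod_eq_zero hl (by rw [if_pos hlm])]
    · push Not at hex
      have h1 : ∏ l ∈ p.1.primeFactors, (if (l : ℤ) ∣ m then 0 else (l : ℝ) / ((l : ℝ) - 1)) =
          (p.1 : ℝ) / (Nat.totient p.1 : ℝ) := by
        rw [GAM_ratio p.1 (by omega)]
        refine Finset.prod_congr rfl fun l hl => ?_
        rw [if_neg (hex l hl)]
      rw [h1]
      exact mul_le_of_le_one_right (by positivity) (DirichletCharacter.norm_le_one p.2 _)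
  · refine Finset.prod_nonneg fun l hl => ?_
    have hl' := Nat.mem_primeFactors.1 hl
    have h3 : (2 : ℝ) ≤ l := by exact_mod_cast hl'.1.two_le
    split_ifs
    · exact zero_le_one
    · exact div_nonneg zero_le_one (by linarith)

/-- `|gk| ≤ Q`: `r/φ(r) ≤ r ≤ Q` and the other factors are at most `1`. -/
theorem gk_bound (Q : ℕ) (p : Σ r : ℕ, DirichletCharacter ℂ r) (hp : p ∈ PC Q) (k : ℕ)
    (hk : k ∈ KS Q p.1) (m : ℤ) : ‖gk p k m‖ ≤ Q := by
  obtain ⟨hr1, hrQ, hprim⟩ := mem_PC.1 hp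
  obtain ⟨-, hs, -⟩ := CA_mem_KS.1 hk
  rw [CA_norm, CA_F_abs m k hs]
  have h1 : ∏ l ∈ k.primeFactors, (if (l : ℤ) ∣ m then 1 else 1 / ((l : ℝ) - 1)) ≤ 1 := by
    refine Finset.prod_le_one (fun l hl => ?_) (fun l hl => ?_)
    · have hl' := Nat.mem_primeFactors.1 hl
      have h3 : (2 : ℝ) ≤ l := by exact_mod_cast hl'.1.two_le
      split_ifs
      · exact zero_le_one
      · exact div_nonneg zero_le_one (by linarith)
    · have hl' := Nat.mem_primeFactors.1 hl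
      have h3 : (2 : ℝ) ≤ l := by exact_mod_cast hl'.1.two_le
      split_ifs
      · exact le_rfl
      · rw [div_le_one (by linarith)]
        linarith
  have h0 : 0 ≤ ∏ l ∈ k.primeFactors, (if (l : ℤ) ∣ m then 1 else 1 / ((l : ℝ) - 1)) := by
    refine Finset.prod_nonneg fun l hl => ?_
    have hl' := Nat.mem_primeFactors.1 hl
    have h3 : (2 : ℝ) ≤ l := by exact_mod_cast hl'.1.two_le
    split_ifs
    · exact zero_le_one
    · exact div_nonneg zero_le_one (by linarith)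
  have h2 : (p.1 : ℝ) / (Nat.totient p.1 : ℝ) ≤ Q := by
    have h4 : (1 : ℝ) ≤ (Nat.totient p.1 : ℝ) := by
      exact_mod_cast Nat.totient_pos.2 (by omega)
    refine (div_le_self (by positivity) h4).trans ?_
    exact_mod_cast hrQ
  have h5 := DirichletCharacter.norm_le_one p.2 (m : ZMod p.1)
  calc (p.1 : ℝ) / (Nat.totient p.1 : ℝ) * ‖p.2 (m : ZMod p.1)‖ *
        ∏ l ∈ k.primeFactors, (if (l : ℤ) ∣ m then 1 else 1 / ((l : ℝ) - 1))
      ≤ (Q : ℝ) * 1 * 1 := by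
        refine mul_le_mul (mul_le_mul h2 h5 (norm_nonneg _) (by positivity)) h1 h0 (by positivity)
    _ = Q := by ring

theorem gk_period (p : Σ r : ℕ, DirichletCharacter ℂ r) (k : ℕ) (m j : ℤ) :
    gk p k (m + (p.1 * k : ℕ) * j) = gk p k m := by
  unfold gk
  have h1 : ((m + (p.1 * k : ℕ) * j : ℤ) : ZMod p.1) = (m : ZMod p.1) := by
    push_cast
    simp
  have h2 : cq k (m + (p.1 * k : ℕ) * j) = cq k m := by
    refine CA_cq_congr k _ _ ⟨p.1 * j, ?_⟩
    push_cast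
    ring
  rw [h1, h2]

/-- Primitivity. Let `l` be a prime dividing `p.1 k`, `N = p.1 k / l`. If `l ∣ k` (then `l ∤ r`):
`N = r (k/l)`, `χ` and `c_(k/l)` do not see the shift, `c_k = c_(k/l) c_l`
(`GAM_c_mult`; coprime since `k` is squarefree), and `c_l(n) = l - 1` if `l ∣ n`, `-1` else, so the sum
of `c_l` over the `l` different classes `m + j N` modulo `l` is `0`. If `l ∣ r` (then `l ∤ k`):
`N = k (r/l)`, `c_k` does not see the shift, and `∑_j conj χ(m + j k r/l) = 0`: the values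
`m + j k (r/l)` run through all classes modulo `r` congruent to `m` modulo `r/l` (`k` is a unit
modulo `l`); by primitivity there is a unit `u ≡ 1` modulo `r/l` with `χ(u) ≠ 1` (`CM_ex` in
`H18E/CM`), multiplication by `u` permutes these classes, so the sum `S` satisfies `S = χ(u) S`. -/
theorem gk_prim (Q : ℕ) (p : Σ r : ℕ, DirichletCharacter ℂ r) (hp : p ∈ PC Q) (k : ℕ)
    (hk : k ∈ KS Q p.1) (l : ℕ) (hl : l.Prime) (hlk : l ∣ p.1 * k) (m : ℤ) :
    ∑ j ∈ range l, gk p k (m + (j : ℤ) * (p.1 * k / l : ℕ)) = 0 := by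
  obtain ⟨hr1, hrQ, hprim⟩ := mem_PC.1 hp
  obtain ⟨⟨hk1, -⟩, hs, hcop⟩ := CA_mem_KS.1 hk
  have hl0 : NeZero l := ⟨hl.ne_zero⟩
  have hr0 : NeZero p.1 := ⟨by omega⟩
  by_cases hlk' : l ∣ k
  · obtain ⟨k', rfl⟩ := hlk'
    have hck : Nat.Coprime l k' := by
      rw [hl.coprime_iff_not_dvd]
      rintro ⟨c, rfl⟩
      exact hl.one_lt.ne' (Nat.isUnit_iff.1 (hs l ⟨c, by ring⟩))
    have hcr : Nat.Coprime l p.1 := Nat.Coprime.coprime_mul_right hcop
    have hN : p.1 * (l * k') / l = p.1 * k' := by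
      rw [show p.1 * (l * k') = l * (p.1 * k') by ring, Nat.mul_div_cancel_left _ hl.pos]
    rw [hN]
    have h1 : ∀ j : ℕ, gk p (l * k') (m + (j : ℤ) * (p.1 * k' : ℕ)) =
        ((((p.1 : ℝ) / (Nat.totient p.1 : ℝ) : ℝ) : ℂ) * (starRingEnd ℂ) (p.2 (m : ZMod p.1)) *
        (((ArithmeticFunction.moebius (l * k') : ℝ) / (Nat.totient (l * k') : ℝ) * cq k' m : ℝ) : ℂ)) *
        ((cq l (((p.1 * k' : ℕ) : ℤ) * j + m) : ℝ) : ℂ) := by
      intro j
      unfold gk
      have e1 : ((m + (j : ℤ) * (p.1 * k' : ℕ) : ℤ) : ZMod p.1) = (m : ZMod p.1) := by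
        push_cast
        simp
      have e2 : cq (l * k') (m + (j : ℤ) * (p.1 * k' : ℕ)) = cq l (((p.1 * k' : ℕ) : ℤ) * j + m) * cq k' m := by
        rw [CA_cq_mul l k' _ hck]
        congr 1
        · congr 1
          ring
        · refine CA_cq_congr k' _ _ ⟨j * p.1, ?_⟩
          push_cast
          ring
      rw [e1, e2]
      push_cast
      ring
    rw [Finset.sum_congr rfl fun j _ => h1 j, ← Finset.mul_sum]
    have h2 := CA_shift l (fun n => ((cq l n : ℝ) : ℂ)) (fun a b hab => by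
      rw [CA_cq_congr l a b ((ZMod.intCast_eq_intCast_iff_dvd_sub b a l).1 hab.symm)]) ((p.1 * k' : ℕ) : ℤ) m (by
      rw [Int.cast_natCast, ZMod.isUnit_iff_coprime]
      exact (Nat.Coprime.mul_right hcr hck).symm)
    rw [h2]
    have h3 : ∑ j ∈ range l, ((cq l (j : ℤ) : ℝ) : ℂ) = 0 := by
      rw [← Complex.ofReal_sum]
      have h4 : ∑ j ∈ range l, cq l (j : ℤ) = 0 := by
        have h5 : ∀ j ∈ range l, cq l (j : ℤ) = -1 + if j = 0 then (l : ℝ) else 0 := by
          intro j hj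
          rw [CA_cq_prime l hl]
          congr 1
          have h6 : ((l : ℤ) ∣ (j : ℤ)) ↔ j = 0 := by
            rw [Int.natCast_dvd_natCast]
            constructor
            · intro h
              exact Nat.eq_zero_of_dvd_of_lt h (mem_range.1 hj)
            · rintro rfl
              exact dvd_zero _
          simp only [h6]
        rw [Finset.sum_congr rfl h5, Finset.sum_add_distrib, Finset.sum_ite_eq' (range l) 0,
          if_pos (mem_range.2 hl.pos), Finset.sum_const, card_range]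
        simp
      rw [h4, Complex.ofReal_zero]
    rw [h3, mul_zero]
  · have hlr : l ∣ p.1 := (hl.dvd_mul.1 hlk).resolve_right hlk'
    obtain ⟨r', hr'⟩ := hlr
    have hr'0 : 0 < r' := by
      rcases Nat.eq_zero_or_pos r' with h | h
      · rw [h, mul_zero] at hr'
        omega
      · exact h
    have hN : p.1 * k / l = r' * k := by
      rw [hr', mul_assoc, Nat.mul_div_cancel_left _ hl.pos]
    rw [hN]
    obtain ⟨f, hf⟩ : ∃ f : ℤ → ℂ, ∀ t, f t = p.2 ((m + t * r' : ℤ) : ZMod p.1) := ⟨_, fun _ => rfl⟩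
    have hfc : ∀ a b : ℤ, (a : ZMod l) = b → f a = f b := by
      intro a b hab
      rw [hf, hf]
      congr 1
      rw [ZMod.intCast_eq_intCast_iff_dvd_sub] at hab ⊢
      obtain ⟨c, hc⟩ := hab
      refine ⟨c, ?_⟩
      rw [hr']
      push_cast
      linear_combination (r' : ℤ) * hc
    have h1 : ∀ j : ℕ, gk p k (m + (j : ℤ) * (r' * k : ℕ)) =
        ((((p.1 : ℝ) / (Nat.totient p.1 : ℝ) : ℝ) : ℂ) *
        (((ArithmeticFunction.moebius k : ℝ) / (Nat.totient k : ℝ) * cq k m : ℝ) : ℂ)) *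
        (starRingEnd ℂ) (f ((k : ℤ) * j + 0)) := by
      intro j
      unfold gk
      have e1 : p.2 ((m + (j : ℤ) * (r' * k : ℕ) : ℤ) : ZMod p.1) = f ((k : ℤ) * j + 0) := by
        rw [hf]
        congr 1
        push_cast
        ring
      have e2 : cq k (m + (j : ℤ) * (r' * k : ℕ)) = cq k m := by
        refine CA_cq_congr k _ _ ⟨j * r', ?_⟩
        push_cast
        ring
      rw [e1, e2]
      ring
    rw [Finset.sum_congr rfl fun j _ => h1 j, ← Finset.mul_sum, ← map_sum]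
    have hku : IsUnit ((k : ℤ) : ZMod l) := by
      rw [Int.cast_natCast, ZMod.isUnit_iff_coprime]
      exact ((hl.coprime_iff_not_dvd).2 hlk').symm
    rw [CA_shift l f hfc (k : ℤ) 0 hku]
    have hlt : r' < p.1 := by
      rw [hr']
      have := hl.two_le
      nlinarith
    have hdvd : r' ∣ p.1 := ⟨l, by rw [hr', mul_comm]⟩
    have hldvd : l ∣ p.1 := ⟨r', hr'⟩
    obtain ⟨u, hu1, hu2⟩ := Pool.Agent.Lib.H18E.CM_ex p.1 p.2 hprim r' hdvd hlt
    obtain ⟨U, hU⟩ : ∃ U : ℤ, U = (((u : ZMod p.1).val : ℕ) : ℤ) := ⟨_, rfl⟩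
    have hUu : ((U : ℤ) : ZMod p.1) = (u : ZMod p.1) := by
      rw [hU, Int.cast_natCast, ZMod.natCast_zmod_val]
    have hU1 : ((U : ℤ) : ZMod r') = 1 := by
      have h3 := congrArg (fun z : (ZMod r')ˣ => (z : ZMod r')) hu1
      have h4 : ZMod.castHom hdvd (ZMod r') (u : ZMod p.1) = 1 := by
        simpa [ZMod.unitsMap_def] using h3
      rw [← hUu, map_intCast] at h4
      exact h4
    have hUl : IsUnit ((U : ℤ) : ZMod l) := by
      have h3 : IsUnit (ZMod.castHom hldvd (ZMod l) (u : ZMod p.1)) := u.isUnit.map _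
      rw [← hUu, map_intCast] at h3
      exact h3
    obtain ⟨s, hs'⟩ : ∃ s : ℤ, U = 1 + s * r' := by
      have h3 : ((1 : ℤ) : ZMod r') = ((U : ℤ) : ZMod r') := by rw [hU1, Int.cast_one]
      rw [ZMod.intCast_eq_intCast_iff_dvd_sub] at h3
      obtain ⟨c, hc⟩ := h3
      exact ⟨c, by linear_combination hc⟩
    have h5 := CA_shift l f hfc U (s * m) hUl
    have h6 : ∀ j : ℕ, f (U * j + s * m) = p.2 (u : ZMod p.1) * f j := by
      intro j
      rw [hf, hf, ← hUu, ← map_mul]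
      congr 1
      rw [← Int.cast_mul]
      congr 1
      linear_combination (-m) * hs'
    rw [Finset.sum_congr rfl fun j _ => h6 j, ← Finset.mul_sum] at h5
    have h7 : ∑ j ∈ range l, f (j : ℤ) = 0 := by
      have h8 : (p.2 (u : ZMod p.1) - 1) * ∑ j ∈ range l, f (j : ℤ) = 0 := by
        linear_combination h5
      exact (mul_eq_zero.1 h8).resolve_left (sub_ne_zero.2 hu2)
    rw [h7, map_zero, mul_zero]

end Pool.Agent.Lib.H18Q
end

-- from Lib.H18Q.PF
section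

/-!
# Project H18Q, chunk PF: the smooth main terms
-/

open Finset

namespace Pool.Agent.Lib.H18Q

open Pool.Agent.Lib.H68T

theorem pf_sum_int {A M t : ℝ} {O O1 O2 : ℝ → ℝ} (h : XFB_Amp A M O O1 O2) (hM : 0 ≤ M)
    (_hA : 0 < A) (N N0 : ℕ) (hN : A + 6 < Real.log N) (hN0 : 1 ≤ N0) (hAN : Real.log N0 < A) :
    ‖∑ n ∈ Icc 1 N, XFB_W O t (n:ℝ) - ∫ u in (1:ℝ)..(N : ℝ), XFB_W O t u‖ ≤
      M * (2 + |t|) * (2 / N0) := by
  have hNpos : 1 ≤ N := by
    rcases Nat.eq_zero_or_pos N with h0 | h0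
    · rw [h0] at hN; simp at hN; linarith
    · exact h0
  have hzero : ∀ u : ℝ, 1 ≤ u → u ≤ N0 → XFB_W O t u = 0 := by
    intro u hu hu'
    unfold XFB_W
    rw [h.z0 _ (by
      rw [Set.mem_Icc]
      intro h'
      have := Real.log_le_log (by linarith) hu'
      linarith [h'.1])]
    simp
  have hNN : N0 ≤ N := by
    by_contra hc
    push Not at hc
    have : Real.log N ≤ Real.log N0 := Real.log_le_log (by exact_mod_cast hNpos)
      (by exact_mod_cast hc.le)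
    linarith
  have hW1 : XFB_W O t ((1 : ℕ) : ℝ) = 0 := hzero _ (by simp) (by exact_mod_cast hN0)
  have hint : ∀ N : ℕ, 1 ≤ N → ∫ u in (1:ℝ)..(N:ℝ), XFB_W O t u =
      ∑ n ∈ Ico 1 N, ∫ u in (n:ℝ)..((n + 1 : ℕ) : ℝ), XFB_W O t u := by
    intro N hN
    induction N, hN using Nat.le_induction with
    | base => simp
    | succ N hN ih =>
      rw [sum_Ico_succ_top hN, ← ih, intervalIntegral.integral_add_adjacent_intervals]
      · exact XFB_W_ii O h.c0 t 1 N one_pos (by exact_mod_cast hN)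
      · exact XFB_W_ii O h.c0 t N _ (by exact_mod_cast hN) (by push_cast; linarith)
  have hsum : ∀ N : ℕ, 1 ≤ N → ∑ n ∈ Icc 1 N, XFB_W O t (n:ℝ) =
      ∑ n ∈ Ico 1 N, XFB_W O t ((n + 1 : ℕ) : ℝ) := by
    intro N hN
    induction N, hN using Nat.le_induction with
    | base => simpa using hW1
    | succ N hN ih =>
      rw [sum_Ico_succ_top hN, ← ih, sum_Icc_succ_top (by omega)]
  have hdiff : ‖∑ n ∈ Icc 1 N, XFB_W O t (n:ℝ) - ∫ u in (1:ℝ)..(N : ℝ), XFB_W O t u‖ ≤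
      M * (2 + |t|) * (2 / N0) := by
    rw [hint _ hNpos, hsum _ hNpos, ← sum_sub_distrib]
    have hz : ∑ n ∈ Ico 1 N, (XFB_W O t ((n + 1 : ℕ) : ℝ) -
        ∫ u in (n:ℝ)..((n + 1 : ℕ) : ℝ), XFB_W O t u) =
        ∑ n ∈ Ico N0 N, (XFB_W O t ((n + 1 : ℕ) : ℝ) -
        ∫ u in (n:ℝ)..((n + 1 : ℕ) : ℝ), XFB_W O t u) := by
      symm
      apply sum_subset
      · intro n hn
        rw [mem_Ico] at hn ⊢
        exact ⟨le_trans hN0 hn.1, hn.2⟩
      · intro n hn hn'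
        rw [mem_Ico] at hn
        rw [mem_Ico, not_and] at hn'
        have hlt : n < N0 := by
          by_contra h
          exact hn' (not_lt.mp h) hn.2
        have hlt' : ((n + 1 : ℕ) : ℝ) ≤ (N0:ℝ) := by exact_mod_cast hlt
        have z2 : XFB_W O t ((n + 1 : ℕ) : ℝ) = 0 := hzero _ (by push_cast; linarith) hlt'
        rw [z2, zero_sub, neg_eq_zero]
        rw [intervalIntegral.integral_congr (g := fun _ => (0:ℂ))]
        · simp
        · intro u hu
          rw [Set.uIcc_of_le (by push_cast; linarith)] at hu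
          have hn1 : (1:ℝ) ≤ n := by exact_mod_cast hn.1
          exact hzero _ (by linarith [hu.1]) (hu.2.trans hlt')
    rw [hz]
    have hterm : ∀ n ∈ Ico N0 N, ‖XFB_W O t ((n + 1 : ℕ) : ℝ) -
        ∫ u in (n:ℝ)..((n + 1 : ℕ) : ℝ), XFB_W O t u‖ ≤ M * (2 + |t|) * (1 / (n : ℝ) ^ 2) := by
      intro n hn
      rw [mem_Ico] at hn
      have hn1 : 1 ≤ n := le_trans hN0 hn.1
      have hn1' : (1:ℝ) ≤ n := by exact_mod_cast hn1
      have hle : (n:ℝ) ≤ ((n + 1 : ℕ) : ℝ) := by push_cast; linarith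
      have h5 : (((n + 1 : ℕ) : ℝ) - n) = 1 := by push_cast; ring
      have hconst : XFB_W O t ((n + 1 : ℕ) : ℝ) =
          ∫ u in (n:ℝ)..((n + 1 : ℕ) : ℝ), XFB_W O t ((n + 1 : ℕ) : ℝ) := by
        rw [intervalIntegral.integral_const, h5, one_smul]
      rw [hconst, ← intervalIntegral.integral_sub (by simp)
        (XFB_W_ii O h.c0 t n _ (by linarith) hle)]
      have := intervalIntegral.norm_integral_le_of_norm_le_const (a := (n:ℝ))
        (b := ((n + 1 : ℕ) : ℝ)) (C := M * (2 + |t|) * (1 / (n : ℝ) ^ 2))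
        (f := fun u => XFB_W O t ((n + 1 : ℕ) : ℝ) - XFB_W O t u) ?_
      · rw [h5, abs_one, mul_one] at this
        exact this
      · intro u hu
        rw [Set.uIoc_of_le hle] at hu
        have hu1 : 1 ≤ u := by linarith [hu.1]
        refine (XFB_diff h hM t u ((n + 1 : ℕ) : ℝ) hu1 hu.2).trans ?_
        have h7 : (((n + 1 : ℕ) : ℝ) - u) / u ^ 2 ≤ 1 / (n:ℝ) ^ 2 := by
          apply div_le_div₀ zero_le_one
          · have := hu.1; push_cast; linarith
          · positivity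
          · exact pow_le_pow_left₀ (by linarith) hu.1.le 2
        have := abs_nonneg t
        exact mul_le_mul_of_nonneg_left h7 (by positivity)
    refine (norm_sum_le _ _).trans ((sum_le_sum hterm).trans ?_)
    rw [← mul_sum]
    have := abs_nonneg t
    exact mul_le_mul_of_nonneg_left (LONG_sum_inv_sq N0 N hN0) (by positivity)
  exact hdiff

/-- The integral `Mb` over the support. -/
theorem pf_Mb (X : ℕ) (hX : 8 ≤ X) (b t : ℝ) :
    Mb X b t = ∫ y in (0:ℝ)..Real.log ((60 * X : ℕ) : ℝ),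
      (XFB_O (-Real.log X) b y : ℂ) * Complex.exp (-(t * Complex.I) * y) := by
  have hX0 : (0:ℝ) < X := by
    have : 0 < X := by omega
    exact_mod_cast this
  have hX8 : (8:ℝ) ≤ X := by exact_mod_cast hX
  have hexp2 : Real.exp 2 ≤ 8 := by
    have h2 : Real.exp 2 = (Real.exp 1) ^ 2 := by rw [← Real.exp_nat_mul]; norm_num
    rw [h2]
    have h1 := Real.exp_one_lt_d9
    calc (Real.exp 1) ^ 2 ≤ (2.7182818286:ℝ) ^ 2 := pow_le_pow_left₀ (Real.exp_pos 1).le h1.le 2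
      _ ≤ 8 := by norm_num
  have hlX : 2 ≤ Real.log X := (Real.le_log_iff_exp_le hX0).mpr (hexp2.trans hX8)
  have hl60 : (4:ℝ) < Real.log 60 := by
    rw [Real.lt_log_iff_exp_lt (by norm_num)]
    have : Real.exp 4 = (Real.exp 1) ^ 4 := by
      rw [← Real.exp_nat_mul]; norm_num
    rw [this]
    have h1 := Real.exp_one_lt_d9
    calc (Real.exp 1) ^ 4 ≤ (2.7182818286:ℝ) ^ 4 :=
          pow_le_pow_left₀ (Real.exp_pos 1).le h1.le 4
      _ < 60 := by norm_num
  have hlN : Real.log X + 4 < Real.log ((60 * X : ℕ) : ℝ) := by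
    push_cast
    rw [Real.log_mul (by norm_num) hX0.ne']
    linarith
  have hpt : ∀ y : ℝ, (w (y - Real.log X) : ℂ) *
      Complex.exp (-((1 - b : ℝ) + t * Complex.I) * y) =
      (XFB_O (-Real.log X) b y : ℂ) * Complex.exp (-(t * Complex.I) * y) := by
    intro y
    unfold XFB_O
    rw [← sub_eq_add_neg]
    push_cast
    rw [mul_assoc, ← Complex.exp_add]
    congr 2
    ring
  have hz : ∀ y : ℝ, y ∉ Set.Ioc 0 (Real.log ((60 * X : ℕ) : ℝ)) →
      w (y - Real.log X) = 0 := by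
    intro y hy
    rw [Set.mem_Ioc, not_and_or, not_lt, not_le] at hy
    unfold w
    rcases hy with hy | hy
    · rw [Real.smoothTransition.zero_of_nonpos (by linarith), zero_mul]
    · rw [Real.smoothTransition.zero_of_nonpos (x := 4 - (y - Real.log X)) (by linarith), mul_zero]
  unfold Mb
  rw [intervalIntegral.integral_of_le (by linarith)]
  rw [← MeasureTheory.setIntegral_eq_integral_of_forall_compl_eq_zero
    (s := Set.Ioc 0 (Real.log ((60 * X : ℕ) : ℝ)))]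
  · exact MeasureTheory.setIntegral_congr_fun measurableSet_Ioc (fun y _ => hpt y)
  · intro y hy
    rw [hz y hy]
    simp

theorem PF_F0 (X : ℕ) (t : ℝ) : F0 X t = Fb X 1 t := by
  unfold F0 Fb
  congr 1
  funext m
  simp

/-- Sum and integral: `|Fb X b t - Mb X b t| ≤ C (1 + |t|)/X` for `1/2 ≤ b ≤ 1`, `X` large.

Proof. `Fb X b t = ∑_{m ≤ 60 X} φ(m)`, `φ(x) = w(log x - log X) x^(b - 2 - it)`, and substituting
`x = e^u`, `Mb X b t = ∫_0^∞ φ(x) dx = ∫_{X/e²}^{e⁴ X} φ`. `|φ'(x)| ≤ C (1 + |t|) x^(b-3) ≤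
C (1+|t|) x^(-2)`. `|∑_{m ∈ (A, B]} φ(m) - ∫_A^B φ| ≤ ∫_A^B |φ'| ≤ C (1+|t|)/A` with `A = ⌊X/8⌋ - 1`
(`φ = 0` below, as `e² < 7.4`), `B = 60 X`. The lemmas `XFB_W`, `XFB_diff`, `XFB_subst`, `XFB_eq` of
`H68X/XFB` do exactly this. -/
theorem PF_main : ∃ C K : ℝ, 0 < C ∧ ∀ X : ℕ, K ≤ X → ∀ b t : ℝ, 1 / 2 ≤ b → b ≤ 1 →
    ‖Fb X b t - Mb X b t‖ ≤ C * (1 + |t|) / X := by
  obtain ⟨M, hM, hamp⟩ := XFB_amp
  refine ⟨40 * (M + 1), 100, by positivity, fun X hXK b t hb hb1 => ?_⟩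
  have hX100 : (100:ℝ) ≤ X := hXK
  have hXn : 100 ≤ X := by exact_mod_cast hX100
  have hX0 : (0:ℝ) < X := by linarith
  rw [XFB_eq X b t (by omega), pf_Mb X (by omega) b t]
  have hexp2 : Real.exp 2 ≤ 8 := by
    have h2 : Real.exp 2 = (Real.exp 1) ^ 2 := by rw [← Real.exp_nat_mul]; norm_num
    rw [h2]
    have h1 := Real.exp_one_lt_d9
    calc (Real.exp 1) ^ 2 ≤ (2.7182818286:ℝ) ^ 2 := pow_le_pow_left₀ (Real.exp_pos 1).le h1.le 2
      _ ≤ 8 := by norm_num
  have hlX : 3 ≤ Real.log X := by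
    have h1 : Real.exp 3 ≤ 100 := by
      have h2 : Real.exp 3 = (Real.exp 1) ^ 3 := by rw [← Real.exp_nat_mul]; norm_num
      rw [h2]
      have h1 := Real.exp_one_lt_d9
      calc (Real.exp 1) ^ 3 ≤ (2.7182818286:ℝ) ^ 3 := pow_le_pow_left₀ (Real.exp_pos 1).le h1.le 3
        _ ≤ 100 := by norm_num
    exact (Real.le_log_iff_exp_le hX0).mpr (h1.trans hX100)
  have hA := hamp (-Real.log X) b (by linarith) hb hb1
  rw [neg_neg] at hA
  have hN01 : 1 ≤ X / 9 := by omega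
  have hN0' : ((X / 9 : ℕ) : ℝ) ≤ X / 9 := by exact_mod_cast Nat.cast_div_le
  have hN0'' : (X : ℝ) / 10 ≤ ((X / 9 : ℕ) : ℝ) := by
    have h1 : X < (X / 9 + 1) * 9 := by omega
    have h2 : (X : ℝ) < (((X / 9 : ℕ) : ℝ) + 1) * 9 := by exact_mod_cast h1
    linarith
  have hN00 : (0:ℝ) < ((X / 9 : ℕ) : ℝ) := by exact_mod_cast hN01
  have hlN0 : Real.log ((X / 9 : ℕ) : ℝ) < Real.log X - 2 := by
    have h1 : Real.log ((X / 9 : ℕ) : ℝ) ≤ Real.log (X / 9) := Real.log_le_log hN00 hN0'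
    rw [Real.log_div hX0.ne' (by norm_num)] at h1
    have h2 : 2 < Real.log 9 := by
      rw [Real.lt_log_iff_exp_lt (by norm_num)]; linarith
    linarith
  have hlN : Real.log X - 2 + 6 < Real.log ((60 * X : ℕ) : ℝ) := by
    push_cast
    rw [Real.log_mul (by norm_num) hX0.ne']
    have hlog60 : (4:ℝ) < Real.log 60 := by
      rw [Real.lt_log_iff_exp_lt (by norm_num)]
      have : Real.exp 4 = (Real.exp 1) ^ 4 := by
        rw [← Real.exp_nat_mul]; norm_num
      rw [this]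
      have h1 := Real.exp_one_lt_d9
      calc (Real.exp 1) ^ 4 ≤ (2.7182818286:ℝ) ^ 4 :=
            pow_le_pow_left₀ (Real.exp_pos 1).le h1.le 4
        _ < 60 := by norm_num
    linarith
  have hmain := pf_sum_int (t := t) hA hM (by linarith) (60 * X) (X / 9) hlN hN01 hlN0
  have h60 : (1:ℝ) ≤ ((60 * X : ℕ) : ℝ) := by
    have : 1 ≤ 60 * X := by omega
    exact_mod_cast this
  rw [XFB_subst _ hA.c0 t _ h60] at hmain
  refine hmain.trans ?_
  have ht := abs_nonneg t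
  calc M * (2 + |t|) * (2 / ((X / 9 : ℕ) : ℝ)) ≤ (M + 1) * (2 * (1 + |t|)) * (20 / X) := by
        apply mul_le_mul _ _ (by positivity) (by positivity)
        · nlinarith
        · rw [div_le_div_iff₀ hN00 hX0]
          linarith
    _ = 40 * (M + 1) * (1 + |t|) / X := by ring

end Pool.Agent.Lib.H18Q
end

-- from Lib.H68T.CG2
section

/-!
# Chunk CG2: mean of the model `G` along a class, and the second moment of `dQ`
-/

open Finset

namespace Pool.Agent.Lib.H68T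



theorem cg2_sum_inv (Q : ℕ) : ∑ e ∈ Icc 1 Q, 1 / (e : ℝ) ≤ 1 + Real.log Q := by
  have h := harmonic_le_one_add_log Q
  rw [harmonic_eq_sum_Icc] at h
  push_cast at h
  simpa [one_div] using h

theorem cg2_sum_multiples (Q g : ℕ) (hg : 0 < g) :
    ∑ e ∈ Icc 1 Q, (if g ∣ e then 1 / (e : ℝ) else 0) ≤ 1 / (g : ℝ) * (1 + Real.log Q) := by
  rw [← sum_filter]
  have hsub : (Icc 1 Q).filter (fun e => g ∣ e) ⊆ (Icc 1 Q).image (fun k => g * k) := by
    intro e he
    rw [mem_filter, mem_Icc] at he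
    obtain ⟨⟨h1, h2⟩, k, hk⟩ := he
    rw [mem_image]
    refine ⟨k, ?_, hk.symm⟩
    rw [mem_Icc]
    subst hk
    refine ⟨Nat.pos_of_mul_pos_left h1 |> fun h => ?_, ?_⟩
    · rcases Nat.eq_zero_or_pos k with h0 | h0
      · subst h0
        omega
      · exact h0
    · exact (Nat.le_mul_of_pos_left k hg).trans h2
  have hinj : Set.InjOn (fun k : ℕ => g * k) (Icc 1 Q : Finset ℕ) := by
    intro x _ y _ hxy
    exact Nat.eq_of_mul_eq_mul_left hg hxy
  calc ∑ e ∈ (Icc 1 Q).filter (fun e => g ∣ e), 1 / (e : ℝ)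
      ≤ ∑ e ∈ (Icc 1 Q).image (fun k => g * k), 1 / (e : ℝ) := by
        apply sum_le_sum_of_subset_of_nonneg hsub
        intro i _ _
        positivity
    _ = ∑ k ∈ Icc 1 Q, 1 / ((g * k : ℕ) : ℝ) := sum_image hinj
    _ = 1 / (g : ℝ) * ∑ k ∈ Icc 1 Q, 1 / (k : ℝ) := by
        rw [mul_sum]
        apply sum_congr rfl
        intro k _
        push_cast
        rw [one_div_mul_one_div]
    _ ≤ _ := mul_le_mul_of_nonneg_left (cg2_sum_inv Q) (by positivity)

theorem cg2_gcd_sum (Q : ℕ) :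
    ∑ e₁ ∈ Icc 1 Q, ∑ e₂ ∈ Icc 1 Q, ((Nat.gcd e₁ e₂ : ℝ) / ((e₁ : ℝ) * e₂)) ≤
      (1 + Real.log Q) ^ 3 := by
  have hlog : 0 ≤ Real.log Q := by positivity
  have h1 : ∀ e₁ ∈ Icc 1 Q, ∀ e₂ ∈ Icc 1 Q, ((Nat.gcd e₁ e₂ : ℝ) / ((e₁ : ℝ) * e₂)) =
      ∑ g ∈ Icc 1 Q, (Nat.totient g : ℝ) * ((if g ∣ e₁ then 1 / (e₁ : ℝ) else 0) *
        (if g ∣ e₂ then 1 / (e₂ : ℝ) else 0)) := by
    intro e₁ he₁ e₂ he₂
    rw [mem_Icc] at he₁ he₂
    have h2 : ((Nat.gcd e₁ e₂ : ℕ) : ℝ) = ∑ g ∈ (Nat.gcd e₁ e₂).divisors, (Nat.totient g : ℝ) := by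
      have := congrArg (fun n : ℕ => (n : ℝ)) (Nat.sum_totient (Nat.gcd e₁ e₂)).symm
      push_cast at this
      exact_mod_cast this
    have h3 : (Nat.gcd e₁ e₂).divisors = (Icc 1 Q).filter (fun g => g ∣ e₁ ∧ g ∣ e₂) := by
      ext g
      simp only [Nat.mem_divisors, mem_filter, mem_Icc, Nat.dvd_gcd_iff]
      constructor
      · rintro ⟨⟨a, b⟩, -⟩
        exact ⟨⟨Nat.pos_of_dvd_of_pos a he₁.1, (Nat.le_of_dvd he₁.1 a).trans he₁.2⟩, a, b⟩
      · rintro ⟨-, a, b⟩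
        exact ⟨⟨a, b⟩, (Nat.gcd_pos_of_pos_left _ he₁.1).ne'⟩
    rw [h2, h3, sum_filter, sum_div]
    apply sum_congr rfl
    intro g _
    have hp₁ : (0 : ℝ) < e₁ := by exact_mod_cast he₁.1
    have hp₂ : (0 : ℝ) < e₂ := by exact_mod_cast he₂.1
    by_cases a : g ∣ e₁ <;> by_cases b : g ∣ e₂ <;> simp [a, b]
    field_simp
  have h4 : ∑ e₁ ∈ Icc 1 Q, ∑ e₂ ∈ Icc 1 Q, ((Nat.gcd e₁ e₂ : ℝ) / ((e₁ : ℝ) * e₂)) =
      ∑ g ∈ Icc 1 Q, (Nat.totient g : ℝ) *
        ((∑ e ∈ Icc 1 Q, if g ∣ e then 1 / (e : ℝ) else 0) *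
        (∑ e ∈ Icc 1 Q, if g ∣ e then 1 / (e : ℝ) else 0)) := by
    rw [sum_congr rfl (fun e₁ he₁ => sum_congr rfl (fun e₂ he₂ => h1 e₁ he₁ e₂ he₂))]
    rw [sum_congr rfl (fun e₁ _ => sum_comm), sum_comm]
    apply sum_congr rfl
    intro g _
    rw [sum_mul_sum, mul_sum]
    apply sum_congr rfl
    intro e₁ _
    rw [mul_sum]
  rw [h4]
  calc _ ≤ ∑ g ∈ Icc 1 Q, 1 / (g : ℝ) * (1 + Real.log Q) ^ 2 := by
        apply sum_le_sum
        intro g hg
        rw [mem_Icc] at hg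
        have hg0 : (0 : ℝ) < g := by exact_mod_cast hg.1
        have h5 := cg2_sum_multiples Q g hg.1
        have h6 : 0 ≤ ∑ e ∈ Icc 1 Q, (if g ∣ e then 1 / (e : ℝ) else 0) := by
          apply sum_nonneg
          intro e _
          positivity
        have h7 : (Nat.totient g : ℝ) ≤ g := by exact_mod_cast Nat.totient_le g
        calc _ ≤ (g : ℝ) * ((1 / (g : ℝ) * (1 + Real.log Q)) * (1 / (g : ℝ) * (1 + Real.log Q))) := by
              gcongr
          _ = _ := by field_simp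
    _ = (∑ g ∈ Icc 1 Q, 1 / (g : ℝ)) * (1 + Real.log Q) ^ 2 := by rw [sum_mul]
    _ ≤ (1 + Real.log Q) * (1 + Real.log Q) ^ 2 := by
        apply mul_le_mul_of_nonneg_right (cg2_sum_inv Q) (by positivity)
    _ = _ := by ring

/-- Second moment of `dQ` along a class: only divisors coprime to `W` occur, and for
`D = lcm(e₁, e₂)` coprime to `W` at most `M/D + 1` of the `c < M` have `D ∣ b + W (s + c)`;
`∑_{e₁, e₂ ≤ Q} 1/lcm(e₁,e₂) = ∑ gcd/(e₁ e₂) ≤ ∑_{g ≤ Q} φ(g)/g² (1 + log Q)² ≤ (1 + log Q)³`. -/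
theorem dQ_moment (Q M W b s : ℕ) (hW : 0 < W) (hb : Nat.Coprime b W) :
    ∑ c ∈ range M, (dQ Q ((b : ℤ) + W * (s + c : ℕ))) ^ 2 ≤
      M * (1 + Real.log Q) ^ 3 + (Q : ℝ) ^ 2 := by
  have hlog : 0 ≤ Real.log Q := by positivity
  have h1 : ∀ c ∈ range M, (dQ Q ((b : ℤ) + W * (s + c : ℕ))) ^ 2 =
      ∑ e₁ ∈ Icc 1 Q, ∑ e₂ ∈ Icc 1 Q, if (e₁ : ℤ) ∣ (b : ℤ) + W * (s + c : ℕ) ∧
        (e₂ : ℤ) ∣ (b : ℤ) + W * (s + c : ℕ) then (1 : ℝ) else 0 := by
    intro c _
    unfold dQ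
    rw [card_filter, sq]
    push_cast
    rw [sum_mul_sum]
    apply sum_congr rfl
    intro e₁ _
    apply sum_congr rfl
    intro e₂ _
    rw [ite_and]
    split_ifs <;> simp
  rw [sum_congr rfl h1, sum_comm]
  have h2 : ∀ e₁ ∈ Icc 1 Q, ∑ c ∈ range M, ∑ e₂ ∈ Icc 1 Q,
      (if (e₁ : ℤ) ∣ (b : ℤ) + W * (s + c : ℕ) ∧
        (e₂ : ℤ) ∣ (b : ℤ) + W * (s + c : ℕ) then (1 : ℝ) else 0) ≤
      ∑ e₂ ∈ Icc 1 Q, ((M : ℝ) * ((Nat.gcd e₁ e₂ : ℝ) / ((e₁ : ℝ) * e₂)) + 1) := by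
    intro e₁ he₁
    rw [sum_comm]
    apply sum_le_sum
    intro e₂ he₂
    rw [mem_Icc] at he₁ he₂
    have hp₁ : (0 : ℝ) < e₁ := by exact_mod_cast he₁.1
    have hp₂ : (0 : ℝ) < e₂ := by exact_mod_cast he₂.1
    have hnn : 0 ≤ (M : ℝ) * ((Nat.gcd e₁ e₂ : ℝ) / ((e₁ : ℝ) * e₂)) + 1 := by positivity
    have hcast : ∑ c ∈ range M, (if (e₁ : ℤ) ∣ (b : ℤ) + W * (s + c : ℕ) ∧
        (e₂ : ℤ) ∣ (b : ℤ) + W * (s + c : ℕ) then (1 : ℝ) else 0) =
        ((((range M).filter (fun c : ℕ => (e₁ : ℤ) ∣ (b : ℤ) + W * (s + c : ℕ) ∧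
        (e₂ : ℤ) ∣ (b : ℤ) + W * (s + c : ℕ))).card : ℕ) : ℝ) := by
      rw [card_filter]
      push_cast
      rfl
    rw [hcast]
    by_cases hcop : Nat.Coprime e₁ W ∧ Nat.Coprime e₂ W
    · have h3 := cg1_count e₁ e₂ W b s s M he₁.1 he₂.1 hcop.1 hcop.2
      rw [if_pos (by simp)] at h3
      have h4 := (abs_le.mp h3).2
      have h5 : (M : ℝ) * ((Nat.gcd e₁ e₂ : ℝ) / ((e₁ : ℝ) * e₂)) =
          (M : ℝ) * (Nat.gcd e₁ e₂ : ℝ) / ((e₁ : ℝ) * e₂) := by ring
      rw [h5]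
      linarith
    · have hempty : (range M).filter (fun c : ℕ => (e₁ : ℤ) ∣ (b : ℤ) + W * (s + c : ℕ) ∧
          (e₂ : ℤ) ∣ (b : ℤ) + W * (s + c : ℕ)) = ∅ := by
        rw [filter_eq_empty_iff]
        intro c _ hc
        apply hcop
        have hcc := cg1_class_coprime hb (s + c)
        exact ⟨Nat.isCoprime_iff_coprime.mp (hcc.of_isCoprime_of_dvd_left hc.1),
          Nat.isCoprime_iff_coprime.mp (hcc.of_isCoprime_of_dvd_left hc.2)⟩
      rw [hempty]
      simpa using hnn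
  refine le_trans (b := ∑ e₁ ∈ Icc 1 Q, ∑ e₂ ∈ Icc 1 Q,
    ((M : ℝ) * ((Nat.gcd e₁ e₂ : ℝ) / ((e₁ : ℝ) * e₂)) + 1)) ?_ ?_
  · exact sum_le_sum h2
  simp_rw [sum_add_distrib, ← mul_sum]
  have h6 : ∑ _e₁ ∈ Icc 1 Q, ∑ _e₂ ∈ Icc 1 Q, (1 : ℝ) = (Q : ℝ) ^ 2 := by
    simp [sq]
  rw [h6]
  have h7 : ∑ e₁ ∈ Icc 1 Q, ∑ e₂ ∈ Icc 1 Q, ((Nat.gcd e₁ e₂ : ℝ) / ((e₁ : ℝ) * e₂)) ≤
      (1 + Real.log Q) ^ 3 := cg2_gcd_sum Q
  have h8 : (M : ℝ) * ∑ e₁ ∈ Icc 1 Q, ∑ e₂ ∈ Icc 1 Q, ((Nat.gcd e₁ e₂ : ℝ) / ((e₁ : ℝ) * e₂)) ≤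
      M * (1 + Real.log Q) ^ 3 := mul_le_mul_of_nonneg_left h7 (by positivity)
  linarith


end Pool.Agent.Lib.H68T
end

-- from Lib.H68T.HDEC
section

/-!
# Chunk HDEC: splitting off the long smooth variables
-/

open Finset ArithmeticFunction

namespace Pool.Agent.Lib.H68T








/-- the weighted norm -/
noncomputable def hdN (N : ℕ) (f : ArithmeticFunction ℝ) : ℝ := ∑ a ∈ Icc 1 N, |f a| / a
































end Pool.Agent.Lib.H68T
end

-- from Lib.H68X.XPAIR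
section

/-!
# Chunk XPAIR: correlations of weighted Ramanujan expansions along a class
-/

open Finset

namespace Pool.Agent.Lib.H68T

/-- Abel summation: a bounded monotone weight costs a factor `2`: if all partial sums of `g` over
`[0, N)`, `N ≤ M`, are at most `E` in norm, and `a` is antitone or monotone with values in `[0, D]`,
then `‖∑_{c<M} a c g c‖ ≤ 2 D E`. -/
theorem weighted_sum (M : ℕ) (a : ℕ → ℝ) (g : ℕ → ℂ) (D E : ℝ) (hD : 0 ≤ D)
    (hE : ∀ N ≤ M, ‖∑ c ∈ range N, g c‖ ≤ E) (ha0 : ∀ c, 0 ≤ a c) (haD : ∀ c, a c ≤ D)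
    (hmon : Antitone a ∨ Monotone a) :
    ‖∑ c ∈ range M, (a c : ℂ) * g c‖ ≤ 2 * D * E := by
  have hE0 : 0 ≤ E := (norm_nonneg _).trans (hE 0 (Nat.zero_le _))
  rcases Nat.eq_zero_or_pos M with h0 | hM
  · subst h0
    simp only [range_zero, sum_empty, norm_zero]
    positivity
  have h1 := Finset.sum_range_by_parts (fun c => (a c : ℂ)) g M
  simp only [smul_eq_mul] at h1
  rw [h1]
  have h2 : ‖(a (M - 1) : ℂ) * ∑ i ∈ range M, g i‖ ≤ a (M - 1) * E := by
    rw [norm_mul, Complex.norm_real, Real.norm_eq_abs, abs_of_nonneg (ha0 _)]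
    exact mul_le_mul_of_nonneg_left (hE M le_rfl) (ha0 _)
  have h3 : ‖∑ i ∈ range (M - 1), ((a (i + 1) : ℂ) - (a i : ℂ)) * ∑ j ∈ range (i + 1), g j‖ ≤
      (∑ i ∈ range (M - 1), |a (i + 1) - a i|) * E := by
    refine (norm_sum_le _ _).trans ?_
    rw [sum_mul]
    apply sum_le_sum
    intro i hi
    rw [mem_range] at hi
    rw [norm_mul, ← Complex.ofReal_sub, Complex.norm_real, Real.norm_eq_abs]
    exact mul_le_mul_of_nonneg_left (hE (i + 1) (by omega)) (abs_nonneg _)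
  have h4 : a (M - 1) + ∑ i ∈ range (M - 1), |a (i + 1) - a i| ≤ 2 * D := by
    rcases hmon with hm | hm
    · have h5 : ∑ i ∈ range (M - 1), |a (i + 1) - a i| = ∑ i ∈ range (M - 1), (a i - a (i + 1)) := by
        apply sum_congr rfl
        intro i _
        rw [abs_sub_comm, abs_of_nonneg]
        have := hm (Nat.le_succ i)
        linarith
      rw [h5, sum_range_sub']
      have := haD 0
      linarith
    · have h5 : ∑ i ∈ range (M - 1), |a (i + 1) - a i| = ∑ i ∈ range (M - 1), (a (i + 1) - a i) := by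
        apply sum_congr rfl
        intro i _
        rw [abs_of_nonneg]
        have := hm (Nat.le_succ i)
        linarith
      rw [h5, sum_range_sub]
      have := haD (M - 1)
      have := ha0 0
      linarith
  calc _ ≤ a (M - 1) * E + (∑ i ∈ range (M - 1), |a (i + 1) - a i|) * E :=
        (norm_sub_le _ _).trans (add_le_add h2 h3)
    _ = (a (M - 1) + ∑ i ∈ range (M - 1), |a (i + 1) - a i|) * E := by ring
    _ ≤ 2 * D * E := mul_le_mul_of_nonneg_right h4 hE0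

/-- real version of `weighted_sum` -/
theorem XPAIR_weighted (M : ℕ) (a : ℕ → ℝ) (g : ℕ → ℝ) (D E : ℝ) (hD : 0 ≤ D)
    (hE : ∀ N ≤ M, |∑ c ∈ range N, g c| ≤ E) (ha0 : ∀ c, 0 ≤ a c) (haD : ∀ c, a c ≤ D)
    (hmon : Antitone a ∨ Monotone a) :
    |∑ c ∈ range M, a c * g c| ≤ 2 * D * E := by
  have h := weighted_sum M a (fun c => (g c : ℂ)) D E hD (fun N hN => ?_) ha0 haD hmon
  · have h1 : ∑ c ∈ range M, (a c : ℂ) * (g c : ℂ) = ((∑ c ∈ range M, a c * g c : ℝ) : ℂ) := by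
      push_cast
      rfl
    rw [h1, Complex.norm_real, Real.norm_eq_abs] at h
    exact h
  · have h1 : ∑ c ∈ range N, (g c : ℂ) = ((∑ c ∈ range N, g c : ℝ) : ℂ) := by
      push_cast
      rfl
    rw [h1, Complex.norm_real, Real.norm_eq_abs]
    exact hE N hN

theorem XPAIR_cq_one (m : ℤ) : cq 1 m = 1 := by
  unfold cq
  rw [Nat.divisors_one, filter_singleton, if_pos (by simp)]
  simp

/-- two weights -/
theorem XPAIR_two (M : ℕ) (a a' : ℕ → ℝ) (g : ℕ → ℝ) (D E : ℝ) (hD : 0 ≤ D)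
    (hE : ∀ N ≤ M, |∑ c ∈ range N, g c| ≤ E) (ha0 : ∀ c, 0 ≤ a c) (haD : ∀ c, a c ≤ D)
    (hmon : Antitone a ∨ Monotone a) (ha0' : ∀ c, 0 ≤ a' c) (haD' : ∀ c, a' c ≤ D)
    (hmon' : Antitone a' ∨ Monotone a') :
    |∑ c ∈ range M, a' c * (a c * g c)| ≤ 4 * D ^ 2 * E := by
  have h := XPAIR_weighted M a' (fun c => a c * g c) D (2 * D * E) hD (fun N hN => ?_) ha0' haD' hmon'
  · calc _ ≤ 2 * D * (2 * D * E) := h
      _ = 4 * D ^ 2 * E := by ring
  · exact XPAIR_weighted N a g D E hD (fun N' hN' => hE N' (hN'.trans hN)) ha0 haD hmon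

theorem XPAIR_sum_le (Q W : ℕ) :
    ∑ q ∈ QW Q W, |(ArithmeticFunction.moebius q : ℝ) / (Nat.totient q : ℝ)| *
      ∑ d ∈ q.divisors, (d : ℝ) ≤ (Q : ℝ) ^ 2 := by
  refine le_trans ?_ (cg1_sum_sigma Q)
  have hsub : QW Q W ⊆ Icc 1 Q := filter_subset _ _
  refine le_trans (sum_le_sum_of_subset_of_nonneg hsub (fun q _ _ => by positivity)) ?_
  apply sum_le_sum
  intro q _
  split_ifs with h
  · rw [abs_div, abs_of_nonneg (by positivity : (0 : ℝ) ≤ (Nat.totient q : ℝ)), div_mul_eq_mul_div]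
    apply div_le_div_of_nonneg_right _ (by positivity)
    have := cg1_abs_moebius_le q
    have h2 : (0 : ℝ) ≤ ∑ d ∈ q.divisors, (d : ℝ) := by positivity
    nlinarith
  · rw [ArithmeticFunction.moebius_eq_zero_of_not_squarefree h]
    simp

theorem XPAIR_mem {Q W q : ℕ} (hq : q ∈ QW Q W) : 0 < q ∧ Nat.Coprime q W ∧ q ≤ Q := by
  unfold QW at hq
  rw [mem_filter, mem_Icc] at hq
  exact ⟨hq.1.1, hq.2, hq.1.2⟩



end Pool.Agent.Lib.H68T
end

-- from Lib.H68X.XG1
section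

/-!
# Chunk XG1: the model at integers coprime to `W`
-/

open Finset

namespace Pool.Agent.Lib.H68T

/-! ### auxiliary lemmas -/

theorem XG1_eq (f g : ArithmeticFunction ℝ) (hf : f.IsMultiplicative) (hg : g.IsMultiplicative)
    {n : ℕ} (hn : n ≠ 0) (h : ∀ p ∈ n.primeFactors, ∀ k, 1 ≤ k → f (p ^ k) = g (p ^ k)) :
    f n = g n := by
  rw [hf.multiplicative_factorization f hn, hg.multiplicative_factorization g hn]
  refine Finset.prod_congr rfl fun p hp => ?_
  have hp' : p ∈ n.primeFactors := by simpa using hp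
  refine h p hp' _ ?_
  rw [Nat.mem_primeFactors] at hp'
  exact (hp'.1.dvd_iff_one_le_factorization hn).1 hp'.2.1

theorem XG1_F_nsq (r : ℕ) (m : ℤ) {n : ℕ} (hn : ¬ Squarefree n) : GAM_F r m n = 0 := by
  rcases Nat.eq_zero_or_pos n with rfl | hpos
  · simp
  have hn0 : n ≠ 0 := by omega
  rw [(GAM_F_mult r m).multiplicative_factorization _ hn0]
  rw [Nat.squarefree_iff_factorization_le_one hn0] at hn
  push Not at hn
  obtain ⟨p, hp⟩ := hn
  have hpn : p ∈ n.primeFactors := by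
    rw [← Nat.support_factorization, Finsupp.mem_support_iff]
    omega
  refine Finset.prod_eq_zero (i := p) (by rwa [Nat.support_factorization]) ?_
  obtain ⟨k, hk⟩ := Nat.exists_eq_add_of_le (show 2 ≤ n.factorization p by omega)
  change GAM_F r m (p ^ n.factorization p) = 0
  rw [hk, add_comm 2 k]
  exact GAM_F_prime_pow r m p k (Nat.prime_of_mem_primeFactors hpn)

theorem XG1_F1 (m : ℤ) (q : ℕ) : GAM_F 1 m q =
    (ArithmeticFunction.moebius q : ℝ) / (Nat.totient q : ℝ) * cq q m := by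
  rw [GAM_identity, ArithmeticFunction.pdiv_apply, ArithmeticFunction.pmul_apply, GAM_c_apply,
    ArithmeticFunction.intCoe_apply]
  change _ / ((Nat.totient q : ℕ) : ℝ) = _
  ring

/-- `μ²/φ` -/
noncomputable def XG1_K : ArithmeticFunction ℝ :=
  (((ArithmeticFunction.moebius : ArithmeticFunction ℤ) : ArithmeticFunction ℝ).pmul
    ((ArithmeticFunction.moebius : ArithmeticFunction ℤ) : ArithmeticFunction ℝ)).pdiv GAM_phi

theorem XG1_K_apply (n : ℕ) : XG1_K n =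
    (ArithmeticFunction.moebius n : ℝ) ^ 2 / (Nat.totient n : ℝ) := by
  unfold XG1_K
  rw [ArithmeticFunction.pdiv_apply, ArithmeticFunction.pmul_apply,
    ArithmeticFunction.intCoe_apply]
  change _ / ((Nat.totient n : ℕ) : ℝ) = _
  ring

theorem XG1_K_mult : XG1_K.IsMultiplicative :=
  (ArithmeticFunction.isMultiplicative_moebius.intCast.pmul
    ArithmeticFunction.isMultiplicative_moebius.intCast).pdiv GAM_phi_mult

theorem XG1_not_dvd {n p : ℕ} {m : ℤ} (h : IsCoprime (n : ℤ) m) (hp : p ∈ n.primeFactors) :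
    ¬ (p : ℤ) ∣ m := by
  rw [Nat.mem_primeFactors] at hp
  have h1 : IsCoprime (p : ℤ) m := by
    obtain ⟨k, hk⟩ := hp.2.1
    rw [hk, Nat.cast_mul, IsCoprime.mul_left_iff] at h
    exact h.1
  exact (Nat.prime_iff_prime_int.mp hp.1).coprime_iff_not_dvd.1 h1

theorem XG1_F_cop (r : ℕ) (m : ℤ) {n : ℕ} (hn : n ≠ 0) (hm : IsCoprime (n : ℤ) m)
    (hr : Nat.Coprime n r) : GAM_F r m n = XG1_K n := by
  refine XG1_eq _ _ (GAM_F_mult r m) XG1_K_mult hn fun p hp k hk => ?_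
  have hpp := Nat.prime_of_mem_primeFactors hp
  have h1 := XG1_not_dvd hm hp
  have h2 : ¬ p ∣ r := fun h => by
    have := Nat.dvd_gcd (Nat.dvd_of_mem_primeFactors hp) h
    rw [hr] at this
    exact hpp.one_lt.ne' (Nat.dvd_one.1 this)
  rcases Nat.lt_or_ge 1 k with hk1 | hk1
  · obtain ⟨j, hj⟩ := Nat.exists_eq_add_of_le (show 2 ≤ k by omega)
    rw [hj, add_comm 2 j, GAM_F_prime_pow _ _ _ _ hpp, XG1_K_apply,
      ArithmeticFunction.moebius_apply_prime_pow hpp (by omega), if_neg (by omega)]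
    simp
  · have hk' : k = 1 := by omega
    rw [hk', pow_one, GAM_F_prime _ _ _ hpp, if_neg h1, if_neg h2, XG1_K_apply,
      ArithmeticFunction.moebius_apply_prime hpp, Nat.totient_prime hpp,
      Nat.cast_sub hpp.one_lt.le]
    norm_num

theorem XG1_F_ncop (r : ℕ) (m : ℤ) {n : ℕ} (hn : n ≠ 0) (hm : IsCoprime (n : ℤ) m)
    (hr : ¬ Nat.Coprime n r) : GAM_F r m n = 0 := by
  obtain ⟨p, hp, h1, h2⟩ := Nat.Prime.not_coprime_iff_dvd.1 hr
  have hpn : p ∈ n.primeFactors := Nat.mem_primeFactors.2 ⟨hp, h1, hn⟩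
  rw [(GAM_F_mult r m).multiplicative_factorization _ hn]
  refine Finset.prod_eq_zero (i := p) (by rwa [Nat.support_factorization]) ?_
  change GAM_F r m (p ^ n.factorization p) = 0
  have hk : 1 ≤ n.factorization p := (hp.dvd_iff_one_le_factorization hn).1 h1
  rcases Nat.lt_or_ge 1 (n.factorization p) with hk1 | hk1
  · obtain ⟨j, hj⟩ := Nat.exists_eq_add_of_le (show 2 ≤ n.factorization p by omega)
    rw [hj, add_comm 2 j, GAM_F_prime_pow _ _ _ _ hp]
  · have hk' : n.factorization p = 1 := by omega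
    rw [hk', pow_one, GAM_F_prime _ _ _ hp, if_neg (XG1_not_dvd hm hpn), if_pos h2]

theorem XG1_F_r (r : ℕ) (m : ℤ) {n : ℕ} (hn : n ≠ 0) (hr : Nat.Coprime n r) :
    GAM_F r m n = GAM_F 1 m n := by
  refine XG1_eq _ _ (GAM_F_mult r m) (GAM_F_mult 1 m) hn fun p hp k hk => ?_
  have hpp := Nat.prime_of_mem_primeFactors hp
  have h2 : ¬ p ∣ r := fun h => by
    have := Nat.dvd_gcd (Nat.dvd_of_mem_primeFactors hp) h
    rw [hr] at this
    exact hpp.one_lt.ne' (Nat.dvd_one.1 this)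
  have h3 : ¬ p ∣ 1 := fun h => hpp.one_lt.ne' (Nat.dvd_one.1 h)
  rcases Nat.lt_or_ge 1 k with hk1 | hk1
  · obtain ⟨j, hj⟩ := Nat.exists_eq_add_of_le (show 2 ≤ k by omega)
    rw [hj, add_comm 2 j, GAM_F_prime_pow _ _ _ _ hpp, GAM_F_prime_pow _ _ _ _ hpp]
  · have hk' : k = 1 := by omega
    rw [hk', pow_one, GAM_F_prime _ _ _ hpp, GAM_F_prime _ _ _ hpp, if_neg h2, if_neg h3]

/-- splitting off the part dividing `W` -/
theorem XG1_split (f : ArithmeticFunction ℝ) (hf : f.IsMultiplicative)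
    (hsq : ∀ n, ¬ Squarefree n → f n = 0) (Q W : ℕ) (hW : 0 < W) :
    ∑ q ∈ Icc 1 Q, f q = ∑ q ∈ QW Q W, f q *
      ∑ w ∈ W.divisors.filter (fun w => w * q ≤ Q), f w := by
  have h1 : ∑ q ∈ Icc 1 Q, f q = ∑ q ∈ (Icc 1 Q).filter Squarefree, f q := by
    rw [Finset.sum_filter]
    refine Finset.sum_congr rfl fun q _ => ?_
    split_ifs with h
    · rfl
    · exact hsq q h
  have h2 : ∑ q ∈ QW Q W, f q * ∑ w ∈ W.divisors.filter (fun w => w * q ≤ Q), f w =
      ∑ x ∈ ((QW Q W) ×ˢ W.divisors).filter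
        (fun x => x.2 * x.1 ≤ Q ∧ Squarefree (x.2 * x.1)), f (x.2 * x.1) := by
    rw [Finset.sum_filter, Finset.sum_product]
    refine Finset.sum_congr rfl fun q hq => ?_
    rw [Finset.mul_sum, Finset.sum_filter]
    refine Finset.sum_congr rfl fun w hw => ?_
    have hqW : Nat.Coprime q W := (mem_filter.1 hq).2
    have hwW : w ∣ W := (Nat.mem_divisors.1 hw).1
    have hwq : Nat.Coprime w q := (Nat.Coprime.coprime_dvd_right hwW hqW).symm
    simp only
    by_cases h3 : w * q ≤ Q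
    · by_cases h4 : Squarefree (w * q)
      · rw [if_pos h3, if_pos ⟨h3, h4⟩, hf.map_mul_of_coprime hwq, mul_comm]
      · rw [if_pos h3, if_neg (fun h => h4 h.2), mul_comm, ← hf.map_mul_of_coprime hwq,
          hsq _ h4]
    · rw [if_neg h3, if_neg (fun h => h3 h.1)]
  rw [h1, h2]
  refine Finset.sum_nbij' (fun q => (q / Nat.gcd q W, Nat.gcd q W)) (fun x => x.2 * x.1)
    ?_ ?_ ?_ ?_ ?_
  · intro q hq
    rw [mem_filter, mem_Icc] at hq
    obtain ⟨⟨hq1, hq2⟩, hq3⟩ := hq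
    have hg0 : 0 < Nat.gcd q W := Nat.gcd_pos_of_pos_left _ (by omega)
    have hmul : Nat.gcd q W * (q / Nat.gcd q W) = q := Nat.mul_div_cancel' (Nat.gcd_dvd_left _ _)
    have hq0 : 0 < q / Nat.gcd q W := Nat.div_pos (Nat.gcd_le_left _ (by omega)) hg0
    have hle : q / Nat.gcd q W ≤ Q := (Nat.div_le_self _ _).trans hq2
    have hcop : Nat.Coprime (q / Nat.gcd q W) W := by
      rw [Nat.coprime_iff_gcd_eq_one]
      by_contra hne
      obtain ⟨p, hp, hpd⟩ := Nat.exists_prime_and_dvd hne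
      have h5 : p ∣ q / Nat.gcd q W := hpd.trans (Nat.gcd_dvd_left _ _)
      have h6 : p ∣ W := hpd.trans (Nat.gcd_dvd_right _ _)
      have h7 : p ∣ q := h5.trans (Nat.div_dvd_of_dvd (Nat.gcd_dvd_left _ _))
      have h8 : p ∣ Nat.gcd q W := Nat.dvd_gcd h7 h6
      have h9 : p * p ∣ q := by
        rw [← hmul]
        exact Nat.mul_dvd_mul h8 h5
      have := hq3 p h9
      exact hp.one_lt.ne' (Nat.isUnit_iff.1 this)
    rw [mem_filter, mem_product]
    refine ⟨⟨?_, ?_⟩, ?_, ?_⟩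
    · unfold QW
      rw [mem_filter, mem_Icc]
      exact ⟨⟨hq0, hle⟩, hcop⟩
    · exact Nat.mem_divisors.2 ⟨Nat.gcd_dvd_right _ _, hW.ne'⟩
    · simp only [hmul]
      exact hq2
    · simp only [hmul]
      exact hq3
  · intro x hx
    rw [mem_filter, mem_product] at hx
    obtain ⟨⟨h3, h4⟩, h5, h6⟩ := hx
    rw [mem_filter, mem_Icc]
    exact ⟨⟨Nat.pos_of_ne_zero h6.ne_zero, h5⟩, h6⟩
  · intro q hq
    exact Nat.mul_div_cancel' (Nat.gcd_dvd_left _ _)
  · rintro ⟨a, w⟩ hx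
    rw [mem_filter, mem_product] at hx
    obtain ⟨⟨h3, h4⟩, h5, h6⟩ := hx
    unfold QW at h3
    rw [mem_filter] at h3
    simp only at h3 h4 h5 h6 ⊢
    have hw0 : 0 < w := Nat.pos_of_mem_divisors h4
    have hg : Nat.gcd (w * a) W = w := by
      rw [Nat.Coprime.gcd_mul_right_cancel w h3.2]
      exact Nat.gcd_eq_left (Nat.mem_divisors.1 h4).1
    rw [hg, Nat.mul_div_cancel_left _ hw0]
  · intro q hq
    congr 1
    exact (Nat.mul_div_cancel' (Nat.gcd_dvd_left _ _)).symm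

theorem XG1_cop_of_dvd {w W : ℕ} {m : ℤ} (h : w ∣ W) (hm : IsCoprime m (W : ℤ)) :
    IsCoprime (w : ℤ) m :=
  (IsCoprime.of_isCoprime_of_dvd_right hm (Int.natCast_dvd_natCast.2 h)).symm

/-- Every squarefree `q ≤ Q` is `q' w` with `w = gcd(q, W)` (squarefree, divides `W`) and `q'` coprime
to `W`; `c_q = c_{q'} c_w`, `c_w(m) = μ(w)` for `(m, w) = 1` (`cq_squarefree`), `μ(q) = μ(q') μ(w)`,
`φ(q) = φ(q') φ(w)`. -/
theorem G_coprime (Q W : ℕ) (hW : 0 < W) (m : ℤ) (hm : IsCoprime m (W : ℤ)) :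
    G Q m = ∑ q ∈ QW Q W, (ArithmeticFunction.moebius q : ℝ) / (Nat.totient q : ℝ) * cq q m *
      TW Q W q := by
  have h1 : G Q m = ∑ q ∈ Icc 1 Q, GAM_F 1 m q := by
    unfold G
    exact Finset.sum_congr rfl fun q _ => (XG1_F1 m q).symm
  rw [h1, XG1_split _ (GAM_F_mult 1 m) (fun n hn => XG1_F_nsq 1 m hn) Q W hW]
  refine Finset.sum_congr rfl fun q _ => ?_
  rw [XG1_F1]
  congr 1
  unfold TW
  refine Finset.sum_congr rfl fun w hw => ?_
  rw [mem_filter] at hw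
  have hw0 := (Nat.pos_of_mem_divisors hw.1).ne'
  rw [XG1_F_cop 1 m hw0 (XG1_cop_of_dvd (Nat.mem_divisors.1 hw.1).1 hm) (Nat.coprime_one_right w),
    XG1_K_apply]

/-- The same for `Γ_r`, `r ∣ W`. By the computation in the docstring of `abs_Gam_le`
(file `H68T/GAM2.lean`; see the auxiliary lemmas there): for `(m, r) = 1` and `q = r q'` the inner sum
`∑_{d ∣ q, r ∣ d, (d,m)=1} μ(q/d) d/φ(d)` is `(r/φ(r)) μ(q') c_{q'}(m)/φ(q')` if `q'` is squarefree and
coprime to `r`, and `0` otherwise. Then write `q' = q'' w` with `w = gcd(q', W)` (coprime to `r`) as in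
`G_coprime`. -/
theorem Gam_coprime (Q W r : ℕ) (hW : 0 < W) (hr : r ∣ W) (m : ℤ)
    (hm : IsCoprime m (W : ℤ)) :
    Gam Q r m = ∑ q ∈ QW Q W, (ArithmeticFunction.moebius q : ℝ) / (Nat.totient q : ℝ) *
      cq q m * TWr Q W r q := by
  have hr0 : 0 < r := Nat.pos_of_dvd_of_pos hr hW
  have hrm : IsCoprime (r : ℤ) m := XG1_cop_of_dvd hr hm
  have himg : (Icc 1 Q).filter (fun q => r ∣ q) = (Icc 1 (Q / r)).image (fun q => r * q) := by
    ext q
    simp only [mem_filter, mem_Icc, mem_image]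
    constructor
    · rintro ⟨⟨h1, h2⟩, ⟨e, rfl⟩⟩
      refine ⟨e, ⟨?_, ?_⟩, rfl⟩
      · rcases Nat.eq_zero_or_pos e with rfl | h
        · simp at h1
        · exact h
      · rw [Nat.le_div_iff_mul_le (by omega), mul_comm]
        exact h2
    · rintro ⟨e, ⟨h1, h2⟩, rfl⟩
      refine ⟨⟨Nat.mul_pos (by omega) (by omega), ?_⟩, Dvd.intro _ rfl⟩
      rw [Nat.le_div_iff_mul_le (by omega), mul_comm] at h2
      exact h2
  have hGam : Gam Q r m = (r : ℝ) / Nat.totient r * ∑ q ∈ Icc 1 (Q / r), GAM_F r m q := by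
    unfold Gam
    rw [himg, Finset.sum_image (fun a _ b _ h => Nat.eq_of_mul_eq_mul_left (by omega) h),
      Finset.mul_sum]
    refine Finset.sum_congr rfl (fun q hq => ?_)
    rw [mem_Icc] at hq
    exact GAM_inner r m hr0.ne' hrm q (by omega)
  rw [hGam, XG1_split _ (GAM_F_mult r m) (fun n hn => XG1_F_nsq r m hn) (Q / r) W hW,
    Finset.mul_sum]
  have hsub : QW (Q / r) W ⊆ QW Q W := by
    unfold QW
    refine Finset.filter_subset_filter _ (Finset.Icc_subset_Icc_right (Nat.div_le_self _ _))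
  rw [← Finset.sum_subset hsub]
  · refine Finset.sum_congr rfl fun q hq => ?_
    unfold QW at hq
    rw [mem_filter, mem_Icc] at hq
    have hqr : Nat.Coprime q r := Nat.Coprime.coprime_dvd_right hr hq.2
    rw [XG1_F_r r m (by omega) hqr, XG1_F1]
    have hsum : ∑ w ∈ W.divisors.filter (fun w => w * q ≤ Q / r), GAM_F r m w =
        ∑ w ∈ W.divisors.filter (fun w => Nat.Coprime w r ∧ w * r * q ≤ Q),
          (ArithmeticFunction.moebius w : ℝ) ^ 2 / (Nat.totient w : ℝ) := by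
      rw [Finset.sum_filter, Finset.sum_filter]
      refine Finset.sum_congr rfl fun w hw => ?_
      have hw0 := (Nat.pos_of_mem_divisors hw).ne'
      have hwm := XG1_cop_of_dvd (Nat.mem_divisors.1 hw).1 hm
      have hiff : w * q ≤ Q / r ↔ w * r * q ≤ Q := by
        rw [Nat.le_div_iff_mul_le hr0]
        have : w * q * r = w * r * q := by ring
        rw [this]
      by_cases h1 : Nat.Coprime w r
      · by_cases h2 : w * q ≤ Q / r
        · rw [if_pos h2, if_pos ⟨h1, hiff.1 h2⟩, XG1_F_cop r m hw0 hwm h1, XG1_K_apply]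
        · rw [if_neg h2, if_neg (fun h => h2 (hiff.2 h.2))]
      · rw [XG1_F_ncop r m hw0 hwm h1, ite_self]
        exact (if_neg (fun h : _ ∧ _ => h1 h.1)).symm
    rw [hsum]
    unfold TWr
    ring
  · intro q hq hnq
    unfold QW at hq hnq
    rw [mem_filter, mem_Icc] at hq hnq
    have h1 : Q / r < q := by
      by_contra hc
      exact hnq ⟨⟨hq.1.1, by omega⟩, hq.2⟩
    have h2 : TWr Q W r q = 0 := by
      unfold TWr
      rw [Finset.filter_false_of_mem, Finset.sum_empty, mul_zero]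
      rintro w hw ⟨-, h3⟩
      have hw0 := Nat.pos_of_mem_divisors hw
      rw [Nat.div_lt_iff_lt_mul hr0] at h1
      have h4 : 1 * (r * q) ≤ w * (r * q) := Nat.mul_le_mul_right _ hw0
      have h5 : w * r * q = w * (r * q) := by ring
      have h6 : q * r = r * q := by ring
      omega
    rw [h2, mul_zero]

end Pool.Agent.Lib.H68T
end

-- from Lib.H68X.XTW
section

/-!
# Chunk XTW: the divisor sums `TW`, `TWr`
-/

open Finset

namespace Pool.Agent.Lib.H68T

theorem XTW_term_nonneg (w : ℕ) :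
    0 ≤ (ArithmeticFunction.moebius w : ℝ) ^ 2 / (Nat.totient w : ℝ) := by positivity

/-- `n / φ(n)` depends only on the set of primes dividing `n`. -/
theorem XTW_ratio {a b : ℕ} (ha : 0 < a) (hb : 0 < b) (h : a.primeFactors = b.primeFactors) :
    (a : ℝ) / (Nat.totient a : ℝ) = (b : ℝ) / (Nat.totient b : ℝ) := by
  have hφa : (0 : ℝ) < (Nat.totient a : ℝ) := by exact_mod_cast Nat.totient_pos.mpr ha
  have hφb : (0 : ℝ) < (Nat.totient b : ℝ) := by exact_mod_cast Nat.totient_pos.mpr hb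
  have h1 := congrArg (fun n : ℕ => (n : ℝ)) (Nat.totient_mul_prod_primeFactors a)
  have h2 := congrArg (fun n : ℕ => (n : ℝ)) (Nat.totient_mul_prod_primeFactors b)
  simp only [Nat.cast_mul] at h1 h2
  rw [h] at h1
  have hP : (0 : ℝ) < ((∏ p ∈ b.primeFactors, (p - 1) : ℕ) : ℝ) := by
    have : 0 < ∏ p ∈ b.primeFactors, (p - 1) := by
      apply Finset.prod_pos
      intro p hp
      have := (Nat.prime_of_mem_primeFactors hp).two_le
      omega
    exact_mod_cast this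
  rw [div_eq_div_iff hφa.ne' hφb.ne']
  have h3 : ((a : ℝ) * (Nat.totient b : ℝ)) * ((∏ p ∈ b.primeFactors, (p - 1) : ℕ) : ℝ) =
      ((b : ℝ) * (Nat.totient a : ℝ)) * ((∏ p ∈ b.primeFactors, (p - 1) : ℕ) : ℝ) := by
    calc ((a : ℝ) * (Nat.totient b : ℝ)) * ((∏ p ∈ b.primeFactors, (p - 1) : ℕ) : ℝ)
        = (Nat.totient b : ℝ) * ((a : ℝ) * ((∏ p ∈ b.primeFactors, (p - 1) : ℕ) : ℝ)) := by ring
      _ = (Nat.totient b : ℝ) * ((Nat.totient a : ℝ) * ((∏ p ∈ b.primeFactors, p : ℕ) : ℝ)) := by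
          rw [h1]
      _ = (Nat.totient a : ℝ) * ((Nat.totient b : ℝ) * ((∏ p ∈ b.primeFactors, p : ℕ) : ℝ)) := by
          ring
      _ = (Nat.totient a : ℝ) * ((b : ℝ) * ((∏ p ∈ b.primeFactors, (p - 1) : ℕ) : ℝ)) := by
          rw [h2]
      _ = _ := by ring
  exact mul_right_cancel₀ hP.ne' h3

theorem XTW_full (W r : ℕ) (hW : 0 < W) (hr : r ∣ W) :
    (r : ℝ) / (Nat.totient r : ℝ) *
      ∑ w ∈ W.divisors.filter (fun w => Nat.Coprime w r),
        (ArithmeticFunction.moebius w : ℝ) ^ 2 / (Nat.totient w : ℝ) =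
      (W : ℝ) / Nat.totient W := by
  have hr0 : 0 < r := Nat.pos_of_dvd_of_pos hr hW
  set P := W.primeFactors.filter (fun p => ¬ p ∣ r) with hP
  have hpf : ∀ p ∈ P, p.Prime := fun p hp =>
    Nat.prime_of_mem_primeFactors (mem_of_mem_filter p hp)
  set V := ∏ p ∈ P, p with hV
  have hVpf : V.primeFactors = P := Nat.primeFactors_prod hpf
  have hV0 : 0 < V := Finset.prod_pos fun p hp => (hpf p hp).pos
  have hVW : V ∣ W := by
    refine dvd_trans ?_ (Nat.prod_primeFactors_dvd W)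
    exact Finset.prod_dvd_prod_of_subset _ _ _ (filter_subset _ _)
  have hVr : Nat.Coprime V r := by
    rw [hV]
    apply Nat.Coprime.prod_left
    intro p hp
    exact (Nat.Prime.coprime_iff_not_dvd (hpf p hp)).mpr (mem_filter.mp hp).2
  have hsum : ∑ w ∈ W.divisors.filter (fun w => Nat.Coprime w r),
        (ArithmeticFunction.moebius w : ℝ) ^ 2 / (Nat.totient w : ℝ) =
      ∑ w ∈ V.divisors, (ArithmeticFunction.moebius w : ℝ) ^ 2 / (Nat.totient w : ℝ) := by
    symm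
    apply Finset.sum_subset
    · intro w hw
      rw [mem_filter, Nat.mem_divisors]
      have hwV := Nat.dvd_of_mem_divisors hw
      exact ⟨⟨hwV.trans hVW, hW.ne'⟩, Nat.Coprime.coprime_dvd_left hwV hVr⟩
    · intro w hw hwV
      rw [mem_filter, Nat.mem_divisors] at hw
      have hns : ¬ Squarefree w := by
        intro hs
        apply hwV
        rw [Nat.mem_divisors]
        refine ⟨?_, hV0.ne'⟩
        rw [← Nat.prod_primeFactors_of_squarefree hs]
        apply Finset.prod_dvd_prod_of_subset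
        intro p hp
        rw [hP, mem_filter]
        refine ⟨Nat.primeFactors_mono hw.1.1 hW.ne' hp, fun hpr => ?_⟩
        have hpp := Nat.prime_of_mem_primeFactors hp
        have hpw := Nat.dvd_of_mem_primeFactors hp
        have := Nat.dvd_gcd hpw hpr
        rw [hw.2] at this
        exact hpp.one_lt.ne' (Nat.dvd_one.mp this)
      rw [ArithmeticFunction.moebius_eq_zero_of_not_squarefree hns]
      simp
  rw [hsum, cg1_T_full V hV0]
  have h1 : (r : ℝ) / (Nat.totient r : ℝ) * ((V : ℝ) / (Nat.totient V : ℝ)) =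
      ((r * V : ℕ) : ℝ) / (Nat.totient (r * V) : ℝ) := by
    rw [Nat.totient_mul hVr.symm]
    push_cast
    rw [div_mul_div_comm]
  rw [h1]
  apply XTW_ratio (Nat.mul_pos hr0 hV0) hW
  rw [Nat.primeFactors_mul hr0.ne' hV0.ne', hVpf, hP]
  ext p
  simp only [mem_union, mem_filter, Nat.mem_primeFactors]
  constructor
  · rintro (⟨h1, h2, -⟩ | ⟨h1, -⟩)
    · exact ⟨h1, h2.trans hr, hW.ne'⟩
    · exact h1
  · rintro ⟨h1, h2, h3⟩
    by_cases hpr : p ∣ r
    · exact Or.inl ⟨h1, hpr, hr0.ne'⟩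
    · exact Or.inr ⟨⟨h1, h2, h3⟩, hpr⟩

theorem TW_nonneg (Q W q : ℕ) : 0 ≤ TW Q W q :=
  sum_nonneg fun w _ => XTW_term_nonneg w

/-- `∑_{w ∣ W} μ²(w)/φ(w) = W/φ(W)` -/
theorem TW_le (Q W q : ℕ) (hW : 0 < W) : TW Q W q ≤ (W : ℝ) / Nat.totient W := by
  rw [← cg1_T_full W hW]
  exact sum_le_sum_of_subset_of_nonneg (filter_subset _ _) fun w _ _ => XTW_term_nonneg w

theorem TW_eq (Q W q : ℕ) (hW : 0 < W) (h : W * q ≤ Q) :
    TW Q W q = (W : ℝ) / Nat.totient W := by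
  rw [← cg1_T_full W hW, TW]
  congr 1
  apply filter_true_of_mem
  intro w hw
  exact (Nat.mul_le_mul_right q (Nat.divisor_le hw)).trans h

theorem TWr_nonneg (Q W r q : ℕ) : 0 ≤ TWr Q W r q := by
  unfold TWr
  exact mul_nonneg (by positivity) (sum_nonneg fun w _ => XTW_term_nonneg w)

/-- `(r/φ(r)) ∑_{w ∣ W, (w, r) = 1} μ²(w)/φ(w) = W/φ(W)` for `r ∣ W`: product over the primes
dividing `W`. -/
theorem TWr_le (Q W r q : ℕ) (hW : 0 < W) (hr : r ∣ W) :
    TWr Q W r q ≤ (W : ℝ) / Nat.totient W := by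
  rw [← XTW_full W r hW hr, TWr]
  apply mul_le_mul_of_nonneg_left _ (by positivity)
  apply sum_le_sum_of_subset_of_nonneg _ fun w _ _ => XTW_term_nonneg w
  intro w hw
  rw [mem_filter] at hw ⊢
  exact ⟨hw.1, hw.2.1⟩

/-- All divisors `w` of `W` coprime to `r` satisfy `w r ∣ W`, so `w r q ≤ W q ≤ Q`. -/
theorem TWr_eq (Q W r q : ℕ) (hW : 0 < W) (hr : r ∣ W) (h : W * q ≤ Q) :
    TWr Q W r q = (W : ℝ) / Nat.totient W := by
  rw [← XTW_full W r hW hr, TWr]
  congr 2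
  apply filter_congr
  intro w hw
  constructor
  · exact fun h => h.1
  · intro hc
    refine ⟨hc, ?_⟩
    have h1 : w * r ∣ W := Nat.Coprime.mul_dvd_of_dvd_of_dvd hc (Nat.dvd_of_mem_divisors hw) hr
    exact (Nat.mul_le_mul_right q (Nat.le_of_dvd hW h1)).trans h

end Pool.Agent.Lib.H68T
end

-- from Lib.H68X.XCG
section

/-!
# Chunk XCG: pair correlations and means of the model with exceptional term
-/

open Finset

namespace Pool.Agent.Lib.H68T








theorem XCG_W_sq (Q W : ℕ) (hW : 0 < W) (hWQ : W ^ 100 ≤ Q) : W ^ 2 ≤ Q :=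
  (Nat.pow_le_pow_right hW (by norm_num)).trans hWQ

theorem XCG_D_sq (Q W : ℕ) (hW : 0 < W) (hWQ : W ^ 100 ≤ Q) :
    ((W : ℝ) / Nat.totient W) ^ 2 ≤ Q := by
  have h1 : (1 : ℝ) ≤ Nat.totient W := by exact_mod_cast Nat.totient_pos.mpr hW
  have h2 : (W : ℝ) / Nat.totient W ≤ W := div_le_self (by positivity) h1
  calc ((W : ℝ) / Nat.totient W) ^ 2 ≤ (W : ℝ) ^ 2 := pow_le_pow_left₀ (by positivity) h2 2
    _ ≤ Q := by exact_mod_cast XCG_W_sq Q W hW hWQ

/-- The diagonal terms. -/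
theorem XCG_cq_le (q : ℕ) (d : ℤ) :
    ((ArithmeticFunction.moebius q : ℝ) / (Nat.totient q : ℝ)) ^ 2 * |cq q d| ≤
      if Squarefree q then (Nat.totient (Nat.gcd q d.natAbs) : ℝ) / (Nat.totient q : ℝ) ^ 2
      else 0 := by
  split_ifs with h
  · have h1 : (ArithmeticFunction.moebius q : ℝ) ^ 2 = 1 := by
      exact_mod_cast ArithmeticFunction.moebius_sq_eq_one_of_squarefree h
    rw [div_pow, h1, cq_squarefree q h d, abs_mul, one_div, inv_mul_eq_div]
    apply div_le_div_of_nonneg_right _ (by positivity)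
    have h2 := cg1_abs_moebius_le (q / Nat.gcd q d.natAbs)
    have h3 : |(Nat.totient (Nat.gcd q d.natAbs) : ℝ)| = Nat.totient (Nat.gcd q d.natAbs) :=
      abs_of_nonneg (by positivity)
    rw [h3]
    have h4 : (0 : ℝ) ≤ Nat.totient (Nat.gcd q d.natAbs) := by positivity
    nlinarith
  · rw [ArithmeticFunction.moebius_eq_zero_of_not_squarefree h]
    simp




end Pool.Agent.Lib.H68T
end

-- from Lib.H68T.UNS
section

/-!
# Chunk UNS; part of PER: Perron's formula with Cesàro weights, contour shift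
-/

open Finset MeasureTheory

namespace Pool.Agent.Lib.H68T

/-- **Removing the weight.** `S(u) = ∑_{n ≤ u} a_n (u - n)`, `|S(u)| ≤ κ u²` on `[u₀, 2u₁]`;
with `h = √κ u ≤ u`: `h ∑_{n ≤ u} a_n = S(u+h) - S(u) - ∑_{u < n ≤ u+h} a_n (u + h - n)`, hence
`|∑_{n ≤ u} a_n| ≤ 5 √κ u + (h + 1)(2 + log u) ≤ 20 √κ u (1 + log u)`. -/
theorem unsmooth (a : ℕ → ℂ) (κ u₀ u₁ : ℝ) (hκ0 : 0 < κ) (hκ1 : κ ≤ 1) (hu₀ : 1 ≤ u₀)
    (hκu : 1 ≤ κ * u₀) (ha : ∀ n, 1 ≤ n → ‖a n‖ ≤ 1 + Real.log n)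
    (h : ∀ u : ℝ, u₀ ≤ u → u ≤ 2 * u₁ → ‖∑ n ∈ Icc 1 ⌊u⌋₊, a n * (1 - n / u)‖ ≤ κ * u) :
    ∀ u : ℝ, u₀ ≤ u → u ≤ u₁ → ‖∑ n ∈ Icc 1 ⌊u⌋₊, a n‖ ≤
      20 * Real.sqrt κ * u * (1 + Real.log u) := by
  intro u hu0 hu1
  have hu1' : 1 ≤ u := hu₀.trans hu0
  have hupos : 0 < u := by linarith
  have hs0 : 0 < Real.sqrt κ := Real.sqrt_pos.mpr hκ0
  have hs1 : Real.sqrt κ ≤ 1 := by
    rw [Real.sqrt_le_left (by norm_num)]; simpa using hκ1
  have hss : Real.sqrt κ * Real.sqrt κ = κ := Real.mul_self_sqrt hκ0.le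
  set d : ℝ := Real.sqrt κ * u with hd
  have hdpos : 0 < d := by positivity
  have hdu : d ≤ u := by
    calc d ≤ 1 * u := mul_le_mul_of_nonneg_right hs1 hupos.le
      _ = u := one_mul u
  have hd1 : 1 ≤ d := by
    have h1 : 1 ≤ κ * u := hκu.trans (by gcongr)
    have h2 : κ * u ≤ d := by
      have h3 : κ ≤ Real.sqrt κ := by nlinarith
      exact mul_le_mul_of_nonneg_right h3 hupos.le
    linarith
  -- the weighted sums
  have hS : ∀ z : ℝ, u₀ ≤ z → z ≤ 2 * u₁ →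
      ‖∑ n ∈ Icc 1 ⌊z⌋₊, a n * ((z : ℂ) - n)‖ ≤ κ * z ^ 2 := by
    intro z hz0 hz1
    have hz : 0 < z := by linarith
    have e1 : ∑ n ∈ Icc 1 ⌊z⌋₊, a n * ((z : ℂ) - n) =
        (z : ℂ) * ∑ n ∈ Icc 1 ⌊z⌋₊, a n * (1 - n / z) := by
      rw [mul_sum]
      refine sum_congr rfl fun n _ => ?_
      have : (z : ℂ) ≠ 0 := by exact_mod_cast hz.ne'
      field_simp
    rw [e1, norm_mul]
    have := h z hz0 hz1
    have e2 : ‖(z : ℂ)‖ = z := by
      rw [Complex.norm_real, Real.norm_of_nonneg hz.le]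
    rw [e2]
    nlinarith
  have hA := hS u hu0 (by linarith)
  have hB := hS (u + d) (by linarith) (by linarith)
  -- splitting
  have hfl : ⌊u⌋₊ ≤ ⌊u + d⌋₊ := Nat.floor_mono (by linarith)
  have hsplit : ∑ n ∈ Icc 1 ⌊u + d⌋₊, a n * (((u + d : ℝ) : ℂ) - n) =
      ∑ n ∈ Icc 1 ⌊u⌋₊, a n * (((u + d : ℝ) : ℂ) - n) +
      ∑ n ∈ Ioc ⌊u⌋₊ ⌊u + d⌋₊, a n * (((u + d : ℝ) : ℂ) - n) := by
    rw [← sum_union]
    · congr 1
      ext n
      simp only [mem_union, mem_Icc, mem_Ioc]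
      omega
    · rw [disjoint_left]
      intro n hn hn'
      simp only [mem_Icc, mem_Ioc] at hn hn'
      omega
  have hid : (d : ℂ) * ∑ n ∈ Icc 1 ⌊u⌋₊, a n =
      ∑ n ∈ Icc 1 ⌊u + d⌋₊, a n * (((u + d : ℝ) : ℂ) - n) -
      ∑ n ∈ Icc 1 ⌊u⌋₊, a n * ((u : ℂ) - n) -
      ∑ n ∈ Ioc ⌊u⌋₊ ⌊u + d⌋₊, a n * (((u + d : ℝ) : ℂ) - n) := by
    rw [hsplit, mul_sum]
    have : ∑ n ∈ Icc 1 ⌊u⌋₊, a n * (((u + d : ℝ) : ℂ) - n) =
        ∑ n ∈ Icc 1 ⌊u⌋₊, (d : ℂ) * a n + ∑ n ∈ Icc 1 ⌊u⌋₊, a n * ((u : ℂ) - n) := by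
      rw [← sum_add_distrib]
      refine sum_congr rfl fun n _ => ?_
      push_cast
      ring
    rw [this]
    ring
  have hlast : ‖∑ n ∈ Ioc ⌊u⌋₊ ⌊u + d⌋₊, a n * (((u + d : ℝ) : ℂ) - n)‖ ≤
      (d + 1) * ((2 + Real.log u) * d) := by
    have h1 : ∀ n ∈ Ioc ⌊u⌋₊ ⌊u + d⌋₊, ‖a n * (((u + d : ℝ) : ℂ) - n)‖ ≤
        (2 + Real.log u) * d := by
      intro n hn
      rw [mem_Ioc] at hn
      have hn1 : u < n := (Nat.floor_lt hupos.le).mp hn.1
      have hn2 : (n : ℝ) ≤ u + d := (Nat.le_floor_iff (by positivity)).mp hn.2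
      rw [norm_mul]
      have h2 : ‖a n‖ ≤ 2 + Real.log u := by
        refine (ha n (by omega)).trans ?_
        have h3 : Real.log n ≤ Real.log (2 * u) :=
          Real.log_le_log (by linarith) (by linarith)
        rw [Real.log_mul (by norm_num) hupos.ne'] at h3
        have := Real.log_two_lt_d9
        linarith
      have h3 : ‖((u + d : ℝ) : ℂ) - n‖ ≤ d := by
        have : ((u + d : ℝ) : ℂ) - n = ((u + d - n : ℝ) : ℂ) := by push_cast; ring
        rw [this, Complex.norm_real, Real.norm_eq_abs, abs_le]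
        constructor <;> linarith
      have h4 : 0 ≤ Real.log u := Real.log_nonneg hu1'
      exact mul_le_mul h2 h3 (norm_nonneg _) (by linarith)
    refine (norm_sum_le _ _).trans ((sum_le_sum h1).trans ?_)
    rw [sum_const, Nat.card_Ioc, nsmul_eq_mul]
    have h4 : 0 ≤ Real.log u := Real.log_nonneg hu1'
    refine mul_le_mul_of_nonneg_right ?_ (by positivity)
    rw [Nat.cast_sub hfl]
    have := Nat.floor_le (show 0 ≤ u + d by positivity)
    have := Nat.lt_floor_add_one u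
    linarith
  have hlog : 0 ≤ Real.log u := Real.log_nonneg hu1'
  have hmain : d * ‖∑ n ∈ Icc 1 ⌊u⌋₊, a n‖ ≤ κ * (u + d) ^ 2 + κ * u ^ 2 +
      (d + 1) * ((2 + Real.log u) * d) := by
    have e1 : d * ‖∑ n ∈ Icc 1 ⌊u⌋₊, a n‖ = ‖(d : ℂ) * ∑ n ∈ Icc 1 ⌊u⌋₊, a n‖ := by
      rw [norm_mul, Complex.norm_real, Real.norm_of_nonneg hdpos.le]
    rw [e1, hid]
    refine (norm_sub_le _ _).trans (add_le_add ((norm_sub_le _ _).trans (add_le_add hB hA)) hlast)
  have hκd : κ * u = Real.sqrt κ * d := by rw [hd, ← mul_assoc, hss]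
  have h5 : κ * (u + d) ^ 2 + κ * u ^ 2 ≤ 5 * (d * d) := by
    have h6 : κ * u ^ 2 = d * d := by rw [hd]; nlinarith [hss]
    have h7 : (u + d) ^ 2 ≤ 4 * u ^ 2 := by nlinarith
    nlinarith
  have h8 : (d + 1) * ((2 + Real.log u) * d) ≤ (2 * d) * ((2 + Real.log u) * d) := by
    gcongr; linarith
  have h9 : d * ‖∑ n ∈ Icc 1 ⌊u⌋₊, a n‖ ≤ d * (20 * d * (1 + Real.log u)) := by
    refine hmain.trans ?_
    have : 0 ≤ d * d * Real.log u := by positivity
    nlinarith [mul_pos hdpos hdpos]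
  have h10 := le_of_mul_le_mul_left h9 hdpos
  calc _ ≤ 20 * d * (1 + Real.log u) := h10
    _ = _ := by rw [hd]; ring

end Pool.Agent.Lib.H68T
end
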