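import Pool.Agent.Lib.H1M.RV3.M006
import Pool.Agent.Lib.H1M.RV3.M013
import Pool.Agent.Lib.H1M.RV3.M016
import Pool.Agent.Lib.H1M.RV3.M019
import Pool.Agent.Lib.H1M.RV3.M029
import Pool.Agent.Lib.H1M.RV3.M031
import Pool.Agent.Lib.H1M.RV3.M032
import Pool.Agent.Lib.H1M.RV3.M041
import Pool.Agent.Lib.H1M.RV3.M042
import Pool.Agent.Lib.H1M.RV3.M043

/-! Merged copies (to shorten the build) of Lib.H18Q.E6, Lib.H68T.DA, Lib.H68X.XPN0, Lib.H68X.XDA. -/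

-- from Lib.H18Q.E6
section

/-!
# Project H18Q, chunk E6: the detecting sum is small
-/

open Finset

namespace Pool.Agent.Lib.H18Q

open ArithmeticFunction Pool.Agent.Lib.H68T

/-- `|PP(c_E)| ≤ C K1 η log Q`, `η = 1 - β`, for `C3 κ ≤ K1 ≤ 2 C3 κ`.

Proof. Let `lam = κ/log Q`, `x = xlo K1 lam`, `y = yhi K1 lam`; `log x = (K1 - 1) log Q/(2^20 κ) ≥
100 log Q` if `C3 ≥ 2^28`, so `x ≥ Q^100`, all primes `n ∈ PI x y` are `> Q ≥ r` and
`ψ(n) = ±1`. `|PP| ≤ ∑ log n Jk(n) |1 + ψ(n) n^(-η)|`. If `ψ(n) = -1`: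
`1 - n^(-η) ≤ η log n ≤ η log y = 128 η K1/lam`, and `∑ log n Jk(n) ≤ C` (`Jk_sum`, `Λ n = log n`): at
most `C 128 η K1 log Q/κ ≤ C' η log Q` (`K1 ≤ 2 C3 κ`). If `ψ(n) = 1`: factor `≤ 2`,
`log n Jk(n) ≤ lam log y/n = 128 K1/n` (`Jk_le`), and by `E2_primes` (between `X0 = ⌈x⌉ - 1 ≥ Q^99`
and `Y0 = ⌊y⌋`) `∑ 1/n ≤ η (2 + log (X0 Y0)) + 10 r/√X0 ≤ η (2 + 256 K1/lam) + 10 Q^(-48)`, where
`K1/lam ≤ 2 C3 log Q`, and `10 Q^(-48) ≤ Q^(-3) ≤ η` for `Q` large (`zero_elementary` in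
`H68X/XSIE`: `η ≥ c/r² ≥ c/Q²`). Total `≤ 256 K1 (C'' η log Q)`. -/
theorem E6_small (C3 : ℝ) (hC3 : 2 ^ 28 ≤ C3) : ∃ C K : ℝ, 0 < C ∧ ∀ Q : ℕ, K ≤ Q →
    ∀ (r : ℕ) [NeZero r] (ψ : DirichletCharacter ℂ r), r ≤ Q → ψ ≠ 1 → ψ ^ 2 = 1 → ∀ β : ℝ,
    7 / 8 ≤ β → β < 1 → ψ.LFunction (β : ℂ) = 0 →
    ∀ (p : Σ r : ℕ, DirichletCharacter ℂ r) (κ v : ℝ), 1 ≤ κ →
    κ ≤ th0 * Real.log Q → ∀ K1 k : ℕ, C3 * κ ≤ K1 → (K1 : ℝ) ≤ 2 * C3 * κ →
    ‖PP (cE r ψ β p) (κ / Real.log Q) k K1 v‖ ≤ C * K1 * ((1 - β) * Real.log Q) := by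
  obtain ⟨CJ, hCJ, hJ⟩ := Jk_sum
  obtain ⟨c, hc, hel⟩ := H68T.zero_elementary
  refine ⟨128 * CJ + 256 * (3 + 512 * C3), max 3 (10 / c), by positivity, ?_⟩
  intro Q hQ r _ ψ hrQ hψ hψ2 β hβ hβ1 h0 p κ v hκ hκQ K1 k hK1 hK2
  have hQ3 : (3 : ℝ) ≤ Q := (le_max_left _ _).trans hQ
  have hQc : 10 / c ≤ (Q : ℝ) := (le_max_right _ _).trans hQ
  have hQ3' : 3 ≤ Q := by exact_mod_cast hQ3
  have hQ0 : (0 : ℝ) < Q := by linarith
  have hlogQ : 1 ≤ Real.log Q := by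
    rw [Real.le_log_iff_exp_le hQ0]
    exact (lt_trans Real.exp_one_lt_d9 (by norm_num)).le.trans hQ3
  obtain ⟨Lq, hLq⟩ : ∃ Lq, Lq = Real.log Q := ⟨_, rfl⟩
  rw [← hLq] at hlogQ hκQ ⊢
  have hLq0 : 0 < Lq := by linarith
  obtain ⟨lam, hlam⟩ : ∃ lam, lam = κ / Lq := ⟨_, rfl⟩
  rw [← hlam]
  have hlam0 : 0 < lam := by rw [hlam]; positivity
  have hlamth : lam ≤ th0 := by
    rw [hlam, div_le_iff₀ hLq0]
    exact hκQ
  have hlam1 : lam ≤ 1 := hlamth.trans (by unfold th0; norm_num)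
  have hil : 1 / lam ≤ Lq := by
    rw [hlam, one_div_div]
    exact div_le_self hLq0.le hκ
  obtain ⟨η, hη⟩ : ∃ η, η = 1 - β := ⟨_, rfl⟩
  rw [← hη]
  have hη0 : 0 < η := by rw [hη]; linarith
  have hK1r : 2 ^ 28 ≤ (K1 : ℝ) := hC3.trans ((le_mul_of_one_le_right (by linarith) hκ).trans hK1)
  have hK10 : (0 : ℝ) < K1 := by linarith
  obtain ⟨x, hx⟩ : ∃ x, x = xlo K1 lam := ⟨_, rfl⟩
  obtain ⟨y, hy⟩ : ∃ y, y = yhi K1 lam := ⟨_, rfl⟩
  obtain ⟨Y, hY⟩ : ∃ Y, Y = 128 * K1 / lam := ⟨_, rfl⟩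
  have hY0 : 0 < Y := by rw [hY]; positivity
  have hylog : Real.log y = Y := by rw [hy, yhi, Real.log_exp, hY]
  have hy0 : 0 < y := by rw [hy, yhi]; positivity
  have hx0 : 0 < x := by rw [hx, xlo]; positivity
  -- x is large
  have hlogx : 100 * Lq ≤ Real.log x := by
    rw [hx, xlo, Real.log_exp, le_div_iff₀ (by positivity), hlam]
    have h1 : 100 * Lq * (2 ^ 20 * (κ / Lq)) = 100 * 2 ^ 20 * κ := by field_simp
    rw [h1]
    have h2 : 2 ^ 28 * κ ≤ K1 := (mul_le_mul_of_nonneg_right hC3 (by linarith)).trans hK1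
    linarith only [h2, hκ]
  have hxQ : (Q : ℝ) ^ 100 ≤ x := by
    rw [← Real.log_le_log_iff (by positivity) hx0, Real.log_pow, ← hLq]
    exact_mod_cast hlogx
  have hxy : x ≤ y := by
    rw [hx, hy, xlo, yhi]
    apply Real.exp_le_exp.2
    rw [div_le_div_iff₀ (by positivity) hlam0]
    have h1 : (0 : ℝ) < K1 * lam := by positivity
    linarith only [h1, hlam0]
  obtain ⟨X0, hX0⟩ : ∃ X0, X0 = ⌈x⌉₊ - 1 := ⟨_, rfl⟩
  obtain ⟨Y0, hY0'⟩ : ∃ Y0, Y0 = ⌊y⌋₊ := ⟨_, rfl⟩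
  have hceil : 1 ≤ ⌈x⌉₊ := Nat.one_le_iff_ne_zero.2 (by rw [Ne, Nat.ceil_eq_zero, not_le]; exact hx0)
  have hX0r : x - 1 ≤ X0 := by
    have h1 := Nat.le_ceil x
    have h2 : ((X0 : ℕ) : ℝ) = (⌈x⌉₊ : ℝ) - 1 := by
      rw [hX0, Nat.cast_sub hceil, Nat.cast_one]
    rw [h2]
    linarith
  have hX0x : (X0 : ℝ) ≤ x := by
    have h1 := Nat.ceil_lt_add_one hx0.le
    have h2 : ((X0 : ℕ) : ℝ) = (⌈x⌉₊ : ℝ) - 1 := by
      rw [hX0, Nat.cast_sub hceil, Nat.cast_one]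
    rw [h2]
    linarith
  have hX0Y0 : X0 ≤ Y0 := by
    rw [hY0']
    exact Nat.le_floor (hX0x.trans hxy)
  have hQ99 : (Q : ℝ) ^ 99 ≤ X0 := by
    refine le_trans ?_ hX0r
    have h1 : (Q : ℝ) ^ 100 = Q ^ 99 * Q := pow_succ _ _
    have h2 : (1 : ℝ) ≤ (Q : ℝ) ^ 99 := one_le_pow₀ (by linarith)
    have h3 := mul_le_mul_of_nonneg_left hQ3 (by linarith only [h2] : (0 : ℝ) ≤ (Q : ℝ) ^ 99)
    linarith only [h1, h2, h3, hxQ]
  have hr1 : (1 : ℝ) ≤ r := by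
    have : 0 < r := Nat.pos_of_ne_zero (NeZero.ne r)
    exact_mod_cast this
  have hrQr : (r : ℝ) ≤ Q := by exact_mod_cast hrQ
  have hX0big : (4000 * r) ^ 2 ≤ X0 := by
    have h1 : ((4000 * r) ^ 2 : ℝ) ≤ (Q : ℝ) ^ 99 := by
      have h2 : ((4000 * r) ^ 2 : ℝ) ≤ 16000000 * (Q : ℝ) ^ 2 := by
        have h5 := pow_le_pow_left₀ (by linarith only [hr1] : (0 : ℝ) ≤ r) hrQr 2
        linarith only [h5, mul_pow (4000 : ℝ) r 2]
      have h3 : (16000000 : ℝ) ≤ (Q : ℝ) ^ 97 :=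
        le_trans (by norm_num) (pow_le_pow_left₀ (by norm_num) hQ3 97)
      have h4 : (Q : ℝ) ^ 99 = Q ^ 97 * Q ^ 2 := by rw [← pow_add]
      rw [h4]
      exact h2.trans (mul_le_mul_of_nonneg_right h3 (by positivity))
    exact_mod_cast h1.trans hQ99
  have hE2 := E2_primes r ψ hψ hψ2 β (by linarith) hβ1 h0 X0 Y0 hX0big hX0Y0
  rw [← hη] at hE2
  have hX0pos : (0 : ℝ) < X0 := lt_of_lt_of_le (by positivity) hQ99
  have hY0pos : (0 : ℝ) < Y0 := lt_of_lt_of_le hX0pos (by exact_mod_cast hX0Y0)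
  have hlogXY : Real.log ((X0 * Y0 : ℕ) : ℝ) ≤ 512 * C3 * Lq := by
    rw [Nat.cast_mul, Real.log_mul hX0pos.ne' hY0pos.ne']
    have h1 : Real.log X0 ≤ Y := by
      rw [← hylog]
      exact Real.log_le_log hX0pos (hX0x.trans hxy)
    have h2 : Real.log Y0 ≤ Y := by
      rw [← hylog]
      refine Real.log_le_log hY0pos ?_
      rw [hY0']
      exact Nat.floor_le hy0.le
    have h3 : Y ≤ 256 * C3 * Lq := by
      rw [hY, hlam]
      have h4 : 128 * (K1 : ℝ) / (κ / Lq) = 128 * K1 * Lq / κ := by field_simp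
      rw [h4, div_le_iff₀ (by linarith)]
      have h5 := mul_le_mul_of_nonneg_left hK2 (by positivity : 0 ≤ 128 * Lq)
      linarith only [h5]
    linarith only [h1, h2, h3]
  have hsq : 10 * r / Real.sqrt X0 ≤ η := by
    have h1 : (Q : ℝ) ^ 49 ≤ Real.sqrt X0 := by
      apply Real.le_sqrt_of_sq_le
      refine le_trans ?_ hQ99
      rw [← pow_mul]
      exact pow_le_pow_right₀ (by linarith) (by norm_num)
    have h2 : 10 * (r : ℝ) / Real.sqrt X0 ≤ 10 * Q / (Q : ℝ) ^ 49 :=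
      div_le_div₀ (by positivity) (by linarith) (by positivity) h1
    have h3 : 10 * (Q : ℝ) / (Q : ℝ) ^ 49 ≤ c / (Q : ℝ) ^ 2 := by
      rw [div_le_div_iff₀ (by positivity) (by positivity)]
      have h4 : 10 ≤ c * Q := by
        rw [div_le_iff₀ hc] at hQc
        linarith
      have h5 : (1 : ℝ) ≤ (Q : ℝ) ^ 45 := one_le_pow₀ (by linarith)
      have h6 : c * (Q : ℝ) ^ 49 = (c * Q) * (Q ^ 45 * Q ^ 3) := by ring
      rw [h6]
      have h7 : 10 * (Q : ℝ) * Q ^ 2 = 10 * (1 * Q ^ 3) := by ring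
      rw [h7]
      exact mul_le_mul h4 (mul_le_mul_of_nonneg_right h5 (by positivity)) (by positivity) (by positivity)
    have h4 : c / (Q : ℝ) ^ 2 ≤ c / (r : ℝ) ^ 2 :=
      div_le_div_of_nonneg_left hc.le (by positivity) (pow_le_pow_left₀ (by linarith) hrQr 2)
    have h5 := hel r ψ hψ hψ2 β hβ1 h0
    rw [← hη] at h5
    linarith
  have hprimes : ∑ n ∈ (Ioc X0 Y0).filter (fun n : ℕ => n.Prime ∧ ψ (n : ZMod r) = 1), 1 / (n : ℝ) ≤
      (3 + 512 * C3) * (η * Lq) := by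
    refine hE2.trans ?_
    have h1 : η * (2 + Real.log ((X0 * Y0 : ℕ) : ℝ)) ≤ η * (2 + 512 * C3 * Lq) :=
      mul_le_mul_of_nonneg_left (by linarith) hη0.le
    have h2 : η ≤ η * Lq := le_mul_of_one_le_right hη0.le hlogQ
    linarith only [h1, h2, hsq]
  -- members of the range
  have hmem : ∀ n ∈ PI x y, n.Prime ∧ X0 < n ∧ n ≤ Y0 := by
    intro n hn
    rw [PI, Finset.mem_filter, Finset.mem_Icc] at hn
    refine ⟨hn.2, by omega, by rw [hY0']; exact hn.1.2⟩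
  classical
  have hterm : ∀ n ∈ PI x y, ‖((Real.log n * Jk lam k n : ℝ) : ℂ) * cE r ψ β p n *
      (n : ℂ) ^ (-(v * Complex.I))‖ ≤ Λ n * Jk lam k n * (η * Y) +
        (if ψ (n : ZMod r) = 1 then 256 * K1 * (1 / (n : ℝ)) else 0) := by
    intro n hn
    obtain ⟨hnp, hn1, hn2⟩ := hmem n hn
    have hnpos : 0 < n := hnp.pos
    have hn0 : (0 : ℝ) < n := by exact_mod_cast hnpos
    have hJn : 0 ≤ Jk lam k n := Jk_nonneg lam k n hlam0.le
    have hlogn : 0 ≤ Real.log n := Real.log_natCast_nonneg n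
    have hlogY : Real.log n ≤ Y := by
      rw [← hylog]
      refine Real.log_le_log hn0 ?_
      have h1 : (n : ℝ) ≤ Y0 := by exact_mod_cast hn2
      refine h1.trans ?_
      rw [hY0']
      exact Nat.floor_le hy0.le
    rw [norm_mul, norm_mul, d0_norm n hnpos v, mul_one, Complex.norm_real, Real.norm_eq_abs,
      abs_of_nonneg (mul_nonneg hlogn hJn), vonMangoldt_apply_prime hnp]
    have hcE : ‖cE r ψ β p n‖ ≤ ‖1 + ψ (n : ZMod r) * (((n : ℝ) ^ (β - 1) : ℝ) : ℂ)‖ := by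
      unfold cE
      rw [norm_mul]
      exact mul_le_of_le_one_left (norm_nonneg _) (DirichletCharacter.norm_le_one _ _)
    have hrn : (r : ℝ) < n := by
      have h1 : (X0 : ℝ) < n := by exact_mod_cast hn1
      have h2 : (Q : ℝ) ≤ (Q : ℝ) ^ 99 := le_self_pow₀ (by linarith) (by norm_num)
      linarith
    have hrn' : r < n := by exact_mod_cast hrn
    have hunit : IsUnit (n : ZMod r) := by
      rw [ZMod.isUnit_iff_coprime]
      refine (Nat.Prime.coprime_iff_not_dvd hnp).2 fun hd => ?_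
      exact absurd (Nat.le_of_dvd (Nat.pos_of_ne_zero (NeZero.ne r)) hd) (by omega)
    have hψn : ψ (n : ZMod r) = 1 ∨ ψ (n : ZMod r) = -1 := by
      have h1 : ψ (n : ZMod r) ^ 2 = 1 := by
        rw [← MulChar.pow_apply' ψ two_ne_zero, hψ2, MulChar.one_apply hunit]
      exact sq_eq_one_iff.1 h1
    have hpow : (n : ℝ) ^ (β - 1) = Real.exp (-(η * Real.log n)) := by
      rw [Real.rpow_def_of_pos hn0, hη]
      congr 1
      ring
    have hpow1 : (n : ℝ) ^ (β - 1) ≤ 1 := by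
      rw [hpow]
      exact Real.exp_le_one_iff.2 (neg_nonpos.2 (mul_nonneg hη0.le hlogn))
    have hpow0 : 1 - η * Real.log n ≤ (n : ℝ) ^ (β - 1) := by
      rw [hpow]
      have := Real.add_one_le_exp (-(η * Real.log n))
      linarith
    have hpow2 : 0 ≤ (n : ℝ) ^ (β - 1) := by positivity
    rcases hψn with h1 | h1
    · rw [if_pos h1]
      have h2 : ‖cE r ψ β p n‖ ≤ 2 := cE_norm r ψ β hβ1 p n
      have h3 := Jk_le lam k n hlam0
      have h4 : 0 ≤ Real.log n * Jk lam k n * (η * Y) := by positivity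
      have h5 : Real.log n * Jk lam k n * ‖cE r ψ β p n‖ ≤ 256 * K1 * (1 / (n : ℝ)) := by
        calc Real.log n * Jk lam k n * ‖cE r ψ β p n‖ ≤ Real.log n * Jk lam k n * 2 :=
              mul_le_mul_of_nonneg_left h2 (by positivity)
          _ ≤ Y * Jk lam k n * 2 :=
              mul_le_mul_of_nonneg_right (mul_le_mul_of_nonneg_right hlogY hJn) (by norm_num)
          _ ≤ Y * (lam / n) * 2 := by
              refine mul_le_mul_of_nonneg_right (mul_le_mul_of_nonneg_left ?_ hY0.le) (by norm_num)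
              rw [le_div_iff₀ hn0]
              linarith
          _ = 256 * K1 * (1 / (n : ℝ)) := by
              rw [hY]
              field_simp
              norm_num
      linarith
    · rw [if_neg (by rw [h1]; norm_num), add_zero, mul_assoc, mul_assoc]
      refine mul_le_mul_of_nonneg_left (mul_le_mul_of_nonneg_left (hcE.trans ?_) hJn) hlogn
      rw [h1]
      have h2 : (1 + -1 * (((n : ℝ) ^ (β - 1) : ℝ) : ℂ)) = ((1 - (n : ℝ) ^ (β - 1) : ℝ) : ℂ) := by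
        push_cast
        ring
      rw [h2, Complex.norm_real, Real.norm_eq_abs, abs_of_nonneg (by linarith)]
      have h3 : η * Real.log n ≤ η * Y := mul_le_mul_of_nonneg_left hlogY hη0.le
      linarith
  have hsum1 : ∑ n ∈ PI x y, Λ n * Jk lam k n * (η * Y) ≤ CJ * (η * Y) := by
    rw [← Finset.sum_mul]
    exact mul_le_mul_of_nonneg_right (hJ lam k _ hlam0 hlam1) (by positivity)
  have hsum2 : ∑ n ∈ PI x y, (if ψ (n : ZMod r) = 1 then 256 * K1 * (1 / (n : ℝ)) else 0) ≤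
      256 * K1 * ((3 + 512 * C3) * (η * Lq)) := by
    rw [← Finset.sum_filter, ← Finset.mul_sum]
    refine mul_le_mul_of_nonneg_left (le_trans ?_ hprimes) (by positivity)
    apply Finset.sum_le_sum_of_subset_of_nonneg
    · intro n hn
      rw [Finset.mem_filter] at hn ⊢
      obtain ⟨h1, h2, h3⟩ := hmem n hn.1
      rw [Finset.mem_Ioc]
      exact ⟨⟨h2, h3⟩, h1, hn.2⟩
    · intro n _ _
      positivity
  have hfin : ‖PP (cE r ψ β p) lam k K1 v‖ ≤ CJ * (η * Y) + 256 * K1 * ((3 + 512 * C3) * (η * Lq)) := by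
    unfold PP
    rw [← hx, ← hy]
    refine (norm_sum_le _ _).trans ((Finset.sum_le_sum hterm).trans ?_)
    rw [Finset.sum_add_distrib]
    linarith
  refine hfin.trans ?_
  have hYL : Y ≤ 128 * K1 * Lq := by
    rw [hY, mul_div_assoc, ← mul_one_div, ← mul_assoc]
    exact mul_le_mul_of_nonneg_left hil (by positivity)
  have h1 : CJ * (η * Y) ≤ CJ * (η * (128 * K1 * Lq)) :=
    mul_le_mul_of_nonneg_left (mul_le_mul_of_nonneg_left hYL hη0.le) hCJ.le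
  refine (add_le_add h1 le_rfl).trans (le_of_eq ?_)
  ring

end Pool.Agent.Lib.H18Q
end

-- from Lib.H68T.DA
section

/-!
# Chunk DA: the projection `lp * kern` is close to the model `G`
-/

open Finset

namespace Pool.Agent.Lib.H68T

/-- change of variables `n = m - z` -/
theorem DA_Lk_eq (Q X Y : ℕ) (m : ℤ) (hm : (X : ℤ) ≤ m) (hm4 : m ≤ 4 * X) (hY : Y < X) :
    Lk Q Y m = ∑ n ∈ Icc 1 (60 * X), (lp n * tent Y (m - n)) *
      ∑ q ∈ Icc 1 Q, cq q ((n : ℤ) - m) := by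
  unfold Lk
  have h1 : ∑ n ∈ Icc 1 (60 * X), (lp n * tent Y (m - n)) *
      ∑ q ∈ Icc 1 Q, cq q ((n : ℤ) - m) =
      ∑ n ∈ (Icc 1 (60 * X)).filter (fun n : ℕ => |m - (n : ℤ)| < Y), (lp n * tent Y (m - n)) *
      ∑ q ∈ Icc 1 Q, cq q ((n : ℤ) - m) := by
    rw [sum_filter]
    refine sum_congr rfl fun n _ => ?_
    split_ifs with h
    · rfl
    · have : tent Y (m - n) = 0 := by
        unfold tent
        have h2 : (Y : ℝ) ≤ |((m - n : ℤ) : ℝ)| := by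
          have : (Y : ℤ) ≤ |m - (n : ℤ)| := not_lt.mp h
          exact_mod_cast this
        rw [max_eq_left (by linarith), zero_div]
      rw [this, mul_zero, zero_mul]
  rw [h1]
  symm
  refine sum_nbij' (fun n : ℕ => m - (n : ℤ)) (fun z : ℤ => (m - z).toNat) ?_ ?_ ?_ ?_ ?_
  · intro n hn
    rw [mem_filter] at hn
    rw [mem_Ioo]
    have := abs_lt.mp hn.2
    constructor <;> linarith [this.1, this.2]
  · intro z hz
    rw [mem_Ioo] at hz
    rw [mem_filter, mem_Icc]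
    have h3 : ((m - z).toNat : ℤ) = m - z := Int.toNat_of_nonneg (by omega)
    refine ⟨⟨by omega, by omega⟩, ?_⟩
    rw [h3, abs_lt]
    constructor <;> omega
  · intro n hn
    simp
  · intro z hz
    rw [mem_Ioo] at hz
    have h3 : ((m - z).toNat : ℤ) = m - z := Int.toNat_of_nonneg (by omega)
    simp only [h3]
    ring
  · intro n hn
    have e1 : m - (m - (n : ℤ)) = n := by ring
    rw [e1]
    unfold kern
    have e2 : ∑ q ∈ Icc 1 Q, cq q (m - (n : ℤ)) = ∑ q ∈ Icc 1 Q, cq q ((n : ℤ) - m) := by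
      refine sum_congr rfl fun q _ => ?_
      rw [← cq_neg q ((n : ℤ) - m)]
      congr 1
      ring
    rw [e2]
    ring

/-- expansion of the projection in characters -/
theorem DA_expand (Q X Y : ℕ) (m : ℤ) (hm : (X : ℤ) ≤ m) (hm4 : m ≤ 4 * X) (hY : Y < X)
    (hQ : Q + Y ≤ X) :
    (Lk Q Y m : ℂ) = ∑ p ∈ PC Q, (Gam Q p.1 m : ℂ) * (starRingEnd ℂ) (p.2 (m : ZMod p.1)) *
      ∑ n ∈ Icc 1 (60 * X), ((lp n * tent Y (m - n) : ℝ) : ℂ) * p.2 (n : ZMod p.1) := by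
  rw [DA_Lk_eq Q X Y m hm hm4 hY]
  rw [Complex.ofReal_sum]
  have h1 : ∀ n ∈ Icc 1 (60 * X), (((lp n * tent Y (m - n)) *
      ∑ q ∈ Icc 1 Q, cq q ((n : ℤ) - m) : ℝ) : ℂ) =
      ∑ p ∈ PC Q, ((lp n * tent Y (m - n) : ℝ) : ℂ) * ((Gam Q p.1 m : ℂ) *
        (p.2 (n : ZMod p.1) * (starRingEnd ℂ) (p.2 (m : ZMod p.1)))) := by
    intro n hn
    rw [← mul_sum]
    by_cases h0 : lp n * tent Y (m - n) = 0
    · rw [h0]; simp
    · have hl : lp n ≠ 0 := fun h => h0 (by rw [h, zero_mul])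
      have ht : tent Y (m - n) ≠ 0 := fun h => h0 (by rw [h, mul_zero])
      have hp : n.Prime := by
        unfold lp at hl
        by_contra hc
        apply hl
        simp [hc]
      have hlt : |m - (n : ℤ)| < Y := by
        by_contra hc
        apply ht
        unfold tent
        have h2 : (Y : ℝ) ≤ |((m - n : ℤ) : ℝ)| := by
          have : (Y : ℤ) ≤ |m - (n : ℤ)| := not_lt.mp hc
          exact_mod_cast this
        rw [max_eq_left (by linarith), zero_div]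
      have hQn : Q < n := by
        have := abs_lt.mp hlt
        omega
      rw [Complex.ofReal_mul, kernel_char Q n hp hQn m]
  rw [sum_congr rfl h1, sum_comm]
  refine sum_congr rfl fun p _ => ?_
  rw [mul_sum]
  refine sum_congr rfl fun n _ => ?_
  ring



end Pool.Agent.Lib.H68T
end

-- from Lib.H68X.XPN0
section

/-!
# Chunk XPN0: prime number theorem with error `sw`
-/

open Finset

namespace Pool.Agent.Lib.H68T

theorem XPN0_log60 : Real.log 60 ≤ 7 := by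
  have e1 : Real.log 60 ≤ Real.log (2 ^ 7) := Real.log_le_log (by norm_num) (by norm_num)
  rw [Real.log_pow] at e1
  have := Real.log_two_lt_d9
  push_cast at e1
  linarith

theorem XPN0_log120 : Real.log 120 ≤ 7 := by
  have e1 : Real.log 120 ≤ Real.log (2 ^ 7) := Real.log_le_log (by norm_num) (by norm_num)
  rw [Real.log_pow] at e1
  have := Real.log_two_lt_d9
  push_cast at e1
  linarith

/-- the terms of the smoothed sum -/
theorem XPN0_terms {P C L E q T2 T1 u U V : ℝ} (hP : 0 < P) (hC : 0 ≤ C) (hL : 10 ≤ L) (hE : 0 < E)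
    (hq : 0 < q) (hu : 0 < u) (h1 : U ≤ u * E) (hT2 : T2⁻¹ ≤ q) (hT1 : T1⁻¹ ≤ q) (hV0 : 0 ≤ V)
    (hV : V ≤ 2 * L) (hqu : 1 ≤ q * u) :
    P * ((C + 1) * L * U + (C + 1) * L * u / T2 + u * V ^ 2 / T1) + 3 ≤
      (2 * P * (C + 1) + 4 * P + 3) * L ^ 2 * (E + q) * u := by
  have hL0 : 0 < L := by linarith
  have hLL : L ≤ L ^ 2 := le_self_pow₀ (by linarith) two_ne_zero
  have t1 : P * ((C + 1) * L * U) ≤ P * (C + 1) * L ^ 2 * E * u := by
    calc P * ((C + 1) * L * U) ≤ P * ((C + 1) * L * (u * E)) := by gcongr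
      _ ≤ P * ((C + 1) * L ^ 2 * (u * E)) := by gcongr
      _ = _ := by ring
  have t2 : P * ((C + 1) * L * u / T2) ≤ P * (C + 1) * L ^ 2 * q * u := by
    rw [div_eq_mul_inv]
    calc P * ((C + 1) * L * u * T2⁻¹) ≤ P * ((C + 1) * L * u * q) := by gcongr
      _ ≤ P * ((C + 1) * L ^ 2 * u * q) := by gcongr
      _ = _ := by ring
  have t3 : P * (u * V ^ 2 / T1) ≤ 4 * P * L ^ 2 * q * u := by
    have h8 : V ^ 2 ≤ (2 * L) ^ 2 := pow_le_pow_left₀ hV0 hV 2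
    rw [div_eq_mul_inv]
    calc P * (u * V ^ 2 * T1⁻¹) ≤ P * (u * V ^ 2 * q) := by gcongr
      _ ≤ P * (u * (2 * L) ^ 2 * q) := by gcongr
      _ = _ := by ring
  have t4 : (3 : ℝ) ≤ 3 * L ^ 2 * q * u := by
    have h4 : 1 ≤ L ^ 2 := one_le_pow₀ (by linarith)
    have h5 : 1 * 1 ≤ L ^ 2 * (q * u) := mul_le_mul h4 (by linarith) (by norm_num) (by positivity)
    linarith
  have h10 : 0 ≤ (P * (C + 1) * L ^ 2 * (E + q) + 4 * P * L ^ 2 * E + 3 * L ^ 2 * E) * u := by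
    positivity
  linarith

/-- `κ` is small -/
theorem XPN0_kappa {M L E e q f u₀ : ℝ} (hM3 : 3 ≤ M) (hL : 10 ≤ L) (he0 : 0 < e)
    (heE : e ^ 2 = E) (hf0 : 0 < f) (hfq : f ^ 2 = q) (hu₀ : 0 < u₀) (hqu : 1 ≤ q * u₀)
    (h1 : 2 * M * L ^ 2 * E ≤ 1) (h2 : 2 * M * L ^ 2 * q ≤ 1) :
    0 < M * L ^ 2 * (E + q) ∧ M * L ^ 2 * (E + q) ≤ 1 ∧ 1 ≤ M * L ^ 2 * (E + q) * u₀ ∧
      √(M * L ^ 2 * (E + q)) ≤ √M * L * (e + f) := by
  have hM0 : 0 < M := by linarith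
  have hL0 : 0 < L := by linarith
  have hE0 : 0 < E := by rw [← heE]; positivity
  have hq0 : 0 < q := by rw [← hfq]; positivity
  refine ⟨by positivity, ?_, ?_, ?_⟩
  · have h4 : M * L ^ 2 * (E + q) = (2 * M * L ^ 2 * E) / 2 + (2 * M * L ^ 2 * q) / 2 := by ring
    rw [h4]
    linarith
  · have h3 : 1 ≤ M * L ^ 2 :=
      one_le_mul_of_one_le_of_one_le (by linarith) (one_le_pow₀ (by linarith))
    have h4 : 1 * q ≤ M * L ^ 2 * (E + q) :=
      mul_le_mul h3 (by linarith) hq0.le (by positivity)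
    rw [one_mul] at h4
    exact hqu.trans (mul_le_mul_of_nonneg_right h4 hu₀.le)
  · rw [Real.sqrt_le_iff]
    refine ⟨by positivity, ?_⟩
    have h3 : √M ^ 2 = M := Real.sq_sqrt hM0.le
    have h4 : (√M * L * (e + f)) ^ 2 = M * L ^ 2 * (e + f) ^ 2 := by
      rw [mul_pow, mul_pow, h3]
    rw [h4]
    refine mul_le_mul_of_nonneg_left ?_ (by positivity)
    rw [← heE, ← hfq]
    have h5 : (e + f) ^ 2 = e ^ 2 + f ^ 2 + 2 * (e * f) := by ring
    have h6 := mul_pos he0 hf0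
    linarith

/-- the lower end `X^(1/5)` -/
theorem XPN0_u0 {X : ℝ} (hX0 : 0 < X) (hy : (2 : ℝ) ≤ X ^ ((1 : ℝ) / 20)) :
    (16 : ℝ) ≤ X ^ ((1 : ℝ) / 5) ∧ X ^ ((1 : ℝ) / 5) ≤ X / 8 ∧
      Real.log (X ^ ((1 : ℝ) / 5)) = Real.log X / 5 := by
  have hy4 : X ^ ((1 : ℝ) / 5) = (X ^ ((1 : ℝ) / 20)) ^ 4 := by
    rw [← Real.rpow_natCast, ← Real.rpow_mul hX0.le]
    norm_num
  have hy20 : X = (X ^ ((1 : ℝ) / 20)) ^ 20 := by
    rw [← Real.rpow_natCast, ← Real.rpow_mul hX0.le]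
    norm_num
  refine ⟨?_, ?_, ?_⟩
  · rw [hy4]
    have := pow_le_pow_left₀ (by norm_num) hy 4
    linarith
  · rw [hy4]
    conv_rhs => rw [hy20]
    generalize X ^ ((1 : ℝ) / 20) = y at hy
    have h1 : (2 : ℝ) ^ 16 ≤ y ^ 16 := pow_le_pow_left₀ (by norm_num) hy 16
    have h2 : y ^ 20 = y ^ 4 * y ^ 16 := by ring
    have h3 : 0 < y ^ 4 := by positivity
    rw [le_div_iff₀ (by norm_num), h2]
    exact mul_le_mul_of_nonneg_left (by linarith) h3.le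
  · rw [Real.log_rpow hX0]
    ring

theorem XPN0_pow {u L lQ c' : ℝ} (hu0 : 0 < u) (hlQ : 0 < lQ) (hc' : 0 < c')
    (hlogu : L / 5 ≤ Real.log u) :
    u ^ (1 - c' / lQ) ≤ u * Real.exp (-(c' / 5 * (L / lQ))) := by
  rw [Real.rpow_sub hu0, Real.rpow_one, div_eq_mul_inv, ← Real.rpow_neg hu0.le]
  refine mul_le_mul_of_nonneg_left ?_ hu0.le
  rw [Real.rpow_def_of_pos hu0]
  refine Real.exp_le_exp.2 ?_
  have h3 : L / 5 * (c' / lQ) ≤ Real.log u * (c' / lQ) :=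
    mul_le_mul_of_nonneg_right hlogu (by positivity)
  have h4 : c' / 5 * (L / lQ) = L / 5 * (c' / lQ) := by ring
  rw [h4]
  linarith

/-- The common part of `pnt_sw` and `exc_sum_sw`: from the smoothed sums (Perron) to the sums. -/
theorem XPN0_core (P C c' : ℝ) (hP : 0 < P) (hC : 0 ≤ C) (hc' : 0 < c') :
    ∃ K : ℝ, 1 ≤ K ∧ ∀ Q X : ℕ, Reg K Q X →
    (c' / Real.log Q ≤ 1 / 2 ∧ 3 ≤ (X : ℝ) ^ ((1 : ℝ) / 5) ∧
      C * Real.log Q ≤ (C + 1) * Real.log X ∧ 1 ≤ (C + 1) * Real.log X ∧ 0 < Real.log Q ∧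
      (1 : ℝ) ≤ Q) ∧
    ∀ b : ℕ → ℂ, (∀ n, 1 ≤ n → ‖b n‖ ≤ 1 + Real.log n) →
    (∀ u : ℝ, (X : ℝ) ^ ((1 : ℝ) / 5) ≤ u → u ≤ 2 * (60 * (X : ℝ)) →
      ‖∑ n ∈ Icc 1 ⌊u⌋₊, b n * (1 - n / u)‖ ≤
        P * ((C + 1) * Real.log X * u ^ (1 - c' / Real.log Q) +
          (C + 1) * Real.log X * u / ((Q : ℝ) ^ 11) ^ 2 +
          u * (1 + Real.log u) ^ 2 / (Q : ℝ) ^ 11) + 3) →
    ∀ u : ℝ, (X : ℝ) / 8 ≤ u → u ≤ 60 * X → ‖∑ n ∈ Icc 1 ⌊u⌋₊, b n‖ ≤ u * sw K Q X := by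
  obtain ⟨M, hM⟩ : ∃ M : ℝ, M = 2 * P * (C + 1) + 4 * P + 3 := ⟨_, rfl⟩
  have hM3 : 3 ≤ M := by
    have : 0 ≤ 2 * P * (C + 1) := by positivity
    rw [hM]
    linarith
  have hM0 : 0 < M := by linarith
  obtain ⟨K₂, hK₂1, hK₂⟩ := reg_exp_le (2 * M) 2 (c' / 5) (by positivity)
  obtain ⟨K₃, hK₃1, hK₃⟩ := reg_log_le (2 * M) 2 10 (by norm_num)
  obtain ⟨K₆, hK₆1, hK₆⟩ := reg_pow_le 1 10 (1 / 5) (by norm_num)
  obtain ⟨K₇, hK₇1, hK₇⟩ := reg_pow_le 2 0 (1 / 20) (by norm_num)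
  obtain ⟨K₈, hK₈1, hK₈⟩ := sw_of_exp (80 * √M) 2 (c' / 10) (by positivity)
  obtain ⟨K₉, hK₉1, hK₉⟩ := sw_of_Q (80 * √M) 2 5 (by norm_num)
  obtain ⟨K, hK⟩ : ∃ K : ℝ, K = K₂ + K₃ + K₆ + K₇ + K₈ + K₉ + 2 * c' + 10 := ⟨_, rfl⟩
  have hK1 : 1 ≤ K := by rw [hK]; linarith
  refine ⟨K, hK1, ?_⟩
  intro Q X hreg
  have hKpos : 0 ≤ K := by linarith
  have r1 : Reg (2 * c' + 10) Q X := hreg.mono hKpos (by rw [hK]; linarith)
  have r2 : Reg K₂ Q X := hreg.mono hKpos (by rw [hK]; linarith)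
  have r3 : Reg K₃ Q X := hreg.mono hKpos (by rw [hK]; linarith)
  have r6 : Reg K₆ Q X := hreg.mono hKpos (by rw [hK]; linarith)
  have r7 : Reg K₇ Q X := hreg.mono hKpos (by rw [hK]; linarith)
  have r8 : Reg K₈ Q X := hreg.mono hKpos (by rw [hK]; linarith)
  have r9 : Reg K₉ Q X := hreg.mono hKpos (by rw [hK]; linarith)
  have hQ1n : 1 ≤ Q := hreg.Q_pos hK1
  have s8 : sw K₈ Q X ≤ sw K Q X := sw_mono (by linarith) (by rw [hK]; linarith) hQ1n
  have s9 : sw K₉ Q X ≤ sw K Q X := sw_mono (by linarith) (by rw [hK]; linarith) hQ1n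
  have hLbig : 10 ≤ Real.log X := by
    have h1 := r1.logX_ge (by linarith)
    have := Real.add_one_le_exp (2 * c' + 10)
    linarith
  have hQ10 : (10 : ℝ) ≤ Q := by
    have := r1.Q_ge (by linarith)
    linarith
  have hlQbig : 2 * c' + 10 ≤ Real.log Q := r1.logQ_ge (by linarith)
  have hlQ0 : 0 < Real.log Q := by linarith
  have hlQL : Real.log Q ≤ Real.log X := by
    have h1 := r1.logQ_le (by linarith)
    have h2 : 1 * Real.log Q ≤ (2 * c' + 10) * Real.log Q :=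
      mul_le_mul_of_nonneg_right (by linarith) hlQ0.le
    linarith
  have hX0 : (0 : ℝ) < X := by exact_mod_cast r1.X_pos (by linarith)
  obtain ⟨hu₀16, hu₀X, hlogu₀⟩ := XPN0_u0 hX0 (by
    have := hK₇ Q X r7
    rwa [Real.rpow_zero, mul_one] at this)
  have g1 := hK₈ Q X r8
  have g2 := hK₉ Q X r9
  have k2 := hK₂ Q X r2
  have k3 := hK₃ Q X r3
  have k6 := hK₆ Q X r6
  rw [Real.rpow_two] at g1 g2 k2 k3
  rw [one_mul, show ((10 : ℝ)) = ((10 : ℕ) : ℝ) by norm_num, Real.rpow_natCast] at k6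
  rw [show ((10 : ℝ)) = ((10 : ℕ) : ℝ) by norm_num, Real.rpow_natCast] at k3
  have hη1 : c' / Real.log Q ≤ 1 / 2 := by
    rw [div_le_iff₀ hlQ0]
    linarith
  clear hK₂ hK₃ hK₆ hK₇ hK₈ hK₉ r1 r2 r3 r6 r7 r8 r9 hreg
  generalize Real.log (Q : ℝ) = lQ at *
  have hCL : 0 ≤ C * Real.log X := mul_nonneg hC (by linarith)
  have hCQ : C * lQ ≤ C * Real.log X := mul_le_mul_of_nonneg_left hlQL hC
  refine ⟨⟨hη1, by linarith, by linarith, by linarith, hlQ0, by linarith⟩, ?_⟩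
  intro b hb hsm
  -- the numbers
  have hQ0 : (0 : ℝ) < Q := by linarith
  obtain ⟨hκ0, hκ1, hκu, hsq⟩ := XPN0_kappa (M := M) (L := Real.log X)
    (E := Real.exp (-(c' / 5 * (Real.log X / lQ))))
    (e := Real.exp (-(c' / 10 * (Real.log X / lQ)))) (q := ((Q : ℝ) ^ 10)⁻¹)
    (f := (Q : ℝ) ^ (-(5 : ℝ))) (u₀ := (X : ℝ) ^ ((1 : ℝ) / 5)) hM3 hLbig (Real.exp_pos _)
    (by
      rw [← Real.exp_nat_mul]
      congr 1
      push_cast
      ring) (Real.rpow_pos_of_pos hQ0 _)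
    (by
      rw [← Real.rpow_natCast, ← Real.rpow_mul hQ0.le, ← Real.rpow_natCast (Q : ℝ) 10,
        ← Real.rpow_neg hQ0.le]
      norm_num) (by linarith)
    (by
      rw [← div_eq_inv_mul, le_div_iff₀ (by positivity), one_mul]
      exact k6) k2
    (by
      rw [← div_eq_mul_inv, div_le_one (by positivity)]
      exact k3)
  have hqu : 1 ≤ ((Q : ℝ) ^ 10)⁻¹ * (X : ℝ) ^ ((1 : ℝ) / 5) := by
    rw [← div_eq_inv_mul, le_div_iff₀ (by positivity), one_mul]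
    exact k6
  have huns := unsmooth b _ ((X : ℝ) ^ ((1 : ℝ) / 5)) (60 * X) hκ0 hκ1 (by linarith) hκu hb
    (fun u hu1 hu2 => by
      have hu0 : 0 < u := by linarith
      refine (hsm u hu1 hu2).trans ?_
      rw [hM]
      have hlogu : Real.log X / 5 ≤ Real.log u := by
        rw [← hlogu₀]
        exact Real.log_le_log (by linarith) hu1
      have hlogu2 : 1 + Real.log u ≤ 2 * Real.log X := by
        have h2 : Real.log u ≤ Real.log (120 * X) := Real.log_le_log hu0 (by linarith)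
        rw [Real.log_mul (by norm_num) hX0.ne'] at h2
        have h3 := XPN0_log120
        linarith
      have hQ1 : (1 : ℝ) ≤ Q := by linarith
      refine XPN0_terms hP hC hLbig (Real.exp_pos _) (by positivity) hu0
        (XPN0_pow hu0 hlQ0 hc' hlogu) ?_ ?_ (by linarith) hlogu2 ?_
      · rw [← pow_mul]
        exact inv_anti₀ (by positivity) (pow_le_pow_right₀ hQ1 (by norm_num))
      · exact inv_anti₀ (by positivity) (pow_le_pow_right₀ hQ1 (by norm_num))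
      · exact hqu.trans (mul_le_mul_of_nonneg_left hu1 (by positivity)))
  intro u hu1 hu2
  have hu0 : 0 < u := by linarith
  refine (huns u (by linarith) hu2).trans ?_
  have hlogu2 : 1 + Real.log u ≤ 2 * Real.log X := by
    have h2 : Real.log u ≤ Real.log (60 * X) := Real.log_le_log hu0 (by linarith)
    rw [Real.log_mul (by norm_num) hX0.ne'] at h2
    have h3 := XPN0_log60
    linarith
  have hlogu0 : 0 ≤ 1 + Real.log u := by
    have := Real.log_nonneg (show 1 ≤ u by linarith)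
    linarith
  generalize Real.exp (-(c' / 10 * (Real.log X / lQ))) = e at *
  generalize (Q : ℝ) ^ (-(5 : ℝ)) = f at *
  generalize Real.log (X : ℝ) = L at *
  generalize √M = m at *
  have h5 : 0 ≤ m * L * (e + f) := le_trans (Real.sqrt_nonneg _) hsq
  calc 20 * √(M * L ^ 2 * (Real.exp (-(c' / 5 * (L / lQ))) + ((Q : ℝ) ^ 10)⁻¹)) * u *
        (1 + Real.log u) ≤ 20 * (m * L * (e + f)) * u * (2 * L) := by gcongr
    _ = u * ((80 * m * L ^ 2 * e) / 2 + (80 * m * L ^ 2 * f) / 2) := by ring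
    _ ≤ u * sw K Q X := by
        refine mul_le_mul_of_nonneg_left ?_ hu0.le
        linarith




end Pool.Agent.Lib.H68T
end

-- from Lib.H68X.XDA
section

/-!
# Chunk XDA: the structured part with the exceptional zero
-/

open Finset

namespace Pool.Agent.Lib.H68T

theorem XDA_real {r : ℕ} (ψ : DirichletCharacter ℂ r) (h : ψ ^ 2 = 1) (a : ZMod r) :
    (starRingEnd ℂ) (ψ a) = ψ a := by
  by_cases ha : IsUnit a
  · have h1 : (ψ a) ^ 2 = 1 := by
      rw [← MulChar.pow_apply' ψ (by norm_num : (2:ℕ) ≠ 0) a, h, MulChar.one_apply ha]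
    have h2 : (ψ a - 1) * (ψ a + 1) = 0 := by
      have : (ψ a - 1) * (ψ a + 1) = (ψ a) ^ 2 - 1 := by ring
      rw [this, h1, sub_self]
    rcases mul_eq_zero.mp h2 with h3 | h3
    · have : ψ a = 1 := by linear_combination h3
      rw [this, map_one]
    · have : ψ a = -1 := by linear_combination h3
      rw [this, map_neg, map_one]
  · rw [MulChar.map_nonunit ψ ha, map_zero]



end Pool.Agent.Lib.H68T
end
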