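import Pool.Agent.Lib.H1M.RV3.D_Goldbach_Defs
import Pool.Agent.Lib.H1M.RV3.M012
import Pool.Agent.Lib.H1M.RV3.M020
import Pool.Agent.Lib.H1M.RV3.M021
import Pool.Agent.Lib.H1M.RV3.M024
import Pool.Agent.Lib.H1M.RV3.M025
import Pool.Agent.Lib.H1M.RV3.M028
import Pool.Agent.Lib.H1M.RV3.M059
import Pool.Agent.Lib.H1M.RV3.M068
import Pool.Agent.Lib.H1M.RV3.M069

/-! Merged copies (to shorten the build) of Lib.H81A.SM, Lib.H81A.Final, Lib.H37T.A4, Lib.H44W.M0, Lib.H96G.Tr, Lib.H44W.M2, Lib.H44W.M7, Lib.H59P.CF0, Lib.H59P.S3, Lib.H59T.UMG, Lib.H59T.UME, Lib.H59T.UM. -/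

-- from Lib.H81A.SM
section

/-!
# H81A, chunk SM (M): one term of Heath-Brown's identity
-/

namespace Pool.Agent.Lib.H81A

open Finset ArithmeticFunction

/-- The factors of the `j`-th term. -/
noncomputable def sm_G (z j : ℕ) : Fin (j + 1) ⊕ (Fin j ⊕ Unit) → ArithmeticFunction ℝ :=
  Sum.elim (fun _ => muV z) (Sum.elim (fun _ => one1) (fun _ => logf))

theorem sm_prod (z j : ℕ) : ∏ i, sm_G z j i = muV z ^ (j + 1) * one1 ^ j * logf := by
  rw [Fintype.prod_sum_type, Fintype.prod_sum_type]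
  simp only [sm_G, Sum.elim_inl, Sum.elim_inr, Finset.prod_const, Finset.card_univ, Fintype.card_fin, Fintype.card_unit, pow_one]
  rw [mul_assoc]

theorem sm_bound {z j N : ℕ} {V : ℝ} (hN : 1 ≤ N) (hV : 1 ≤ V) (hVlog : Real.log N ≤ V) (i : Fin (j + 1) ⊕ (Fin j ⊕ Unit)) (n : ℕ)
    (h1 : 1 ≤ n) (h2 : n ≤ N) : |sm_G z j i n| ≤ V := by
  have hn : n ≠ 0 := by omega
  rcases i with i | i | i
  · show |muV z n| ≤ V
    unfold muV
    rw [af_apply _ hn]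
    split_ifs
    · have h3 : |((moebius n : ℤ) : ℝ)| ≤ 1 := by
        rw [← Int.cast_abs]
        exact_mod_cast abs_moebius_le_one
      exact h3.trans hV
    · rw [abs_zero]
      exact zero_le_one.trans hV
  · show |one1 n| ≤ V
    unfold one1
    rw [af_apply _ hn, abs_one]
    exact hV
  · show |logf n| ≤ V
    unfold logf
    rw [af_apply _ hn, abs_of_nonneg (Real.log_natCast_nonneg n)]
    exact (Real.log_le_log (by exact_mod_cast h1) (by exact_mod_cast h2)).trans hVlog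

theorem sm_sum {α : Type} (p : Seminorm ℝ (ℕ → ℝ)) (s : Finset α) (f : α → ℕ → ℝ) {Y : ℝ} (h : ∀ a ∈ s, p (f a) ≤ Y) :
    p (∑ a ∈ s, f a) ≤ s.card * Y := by
  classical
  induction s using Finset.induction_on with
  | empty =>
    rw [Finset.sum_empty, _root_.map_zero, Finset.card_empty, Nat.cast_zero, zero_mul]
  | insert a s ha ih =>
    rw [Finset.sum_insert ha, Finset.card_insert_of_notMem ha]
    refine (map_add_le_add p _ _).trans ?_
    have h1 := h a (Finset.mem_insert_self a s)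
    have h2 := ih fun b hb => h b (Finset.mem_insert_of_mem hb)
    push_cast
    linarith

/-- PROOF. `ι = Fin (j + 1) ⊕ (Fin j ⊕ Unit)`, `G = Sum.elim (fun _ => muV z) (Sum.elim (fun _ => one1) (fun _ => logf))`: the product is `∏ i, G i` (`Fintype.prod_sum_type`, `Finset.prod_const`). `dyadic` for `m ≤ N < 2 ^ L` (`Loc.congr`), subadditivity: the sum over
`k ∈ Fintype.piFinset (range L)`, at most `L ^ (2 j + 2) ≤ V ^ (2 J)` terms. If some `i = inl _` has `z < 2 ^ k i` then `dy (k i) (muV z) = 0` and the product is `0`; otherwise `2 ^ k i ≤ z < 2 ^ u`, `k i < u`: `box` with `r = 2 J`. `|muV| ≤ 1 ≤ V` (`abs_moebius_le_one`), `|one1| ≤ 1`, `|logf n| ≤ log N ≤ V`. -/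
theorem term {c η : ℝ} {N L u v J z : ℕ} {V : ℝ} (par : Par c η N L u v (2 * J) V) (hz : z < 2 ^ u) (p : Seminorm ℝ (ℕ → ℝ)) (hp : Loc N p)
    {X : ℝ} (h2 : H2 c η N p X) (h1 : H1 c N p X) (h3 : H3 c η N p X) {j : ℕ} (hj : j < J) :
    p (fun m => (muV z ^ (j + 1) * one1 ^ j * logf) m) ≤ V ^ (6 * J + 2) * X := by
  classical
  have hX := t1_X h1
  have hV0 : 0 ≤ V := zero_le_one.trans par.hV
  have hcard : Fintype.card (Fin (j + 1) ⊕ (Fin j ⊕ Unit)) = 2 * j + 2 := by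
    rw [Fintype.card_sum, Fintype.card_sum, Fintype.card_fin, Fintype.card_fin, Fintype.card_unit]
    omega
  have h4 : p (fun m => (muV z ^ (j + 1) * one1 ^ j * logf) m) =
      p (∑ k ∈ Fintype.piFinset (fun _ : Fin (j + 1) ⊕ (Fin j ⊕ Unit) => range L), fun m => (∏ i, dy (k i) (sm_G z j i)) m) := by
    refine hp.congr fun m _ hm => ?_
    rw [← sm_prod, dyadic _ L m (lt_of_le_of_lt hm par.hL), Finset.sum_apply]
  have hY : 0 ≤ V ^ (2 * (2 * J) + 2) * X := mul_nonneg (pow_nonneg hV0 _) hX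
  rw [h4]
  have h5 : ∀ k ∈ Fintype.piFinset (fun _ : Fin (j + 1) ⊕ (Fin j ⊕ Unit) => range L),
      p (fun m => (∏ i, dy (k i) (sm_G z j i)) m) ≤ V ^ (2 * (2 * J) + 2) * X := by
    intro k _
    by_cases hk : ∃ i : Fin (j + 1), z < 2 ^ k (Sum.inl i)
    · obtain ⟨i, hi⟩ := hk
      have h6 : dy (k (Sum.inl i)) (sm_G z j (Sum.inl i)) = 0 := by
        ext n
        rw [dy_apply, ArithmeticFunction.zero_apply]
        split_ifs with h
        · show muV z n = 0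
          have hn : n ≠ 0 := by
            have := h.1
            have h7 : 0 < 2 ^ k (Sum.inl i) := pow_pos (by norm_num) _
            omega
          unfold muV
          rw [af_apply _ hn, if_neg (by omega)]
        · rfl
      have h7 : (fun m => (∏ i, dy (k i) (sm_G z j i)) m) = 0 := by
        funext m
        rw [Finset.prod_eq_zero (Finset.mem_univ (Sum.inl i)) h6]
        rfl
      rw [h7, _root_.map_zero]
      exact hY
    · push Not at hk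
      refine box par (by rw [hcard]; omega) p hp h2 h1 h3 k (sm_G z j) (sm_bound par.hN par.hV par.hVlog) fun i => ?_
      rcases i with i | i | i
      · refine Or.inr (Or.inr ?_)
        have h6 : 2 ^ k (Sum.inl i) < 2 ^ u := lt_of_le_of_lt (hk i) hz
        exact (Nat.pow_lt_pow_iff_right (by norm_num)).1 h6
      · exact Or.inl rfl
      · exact Or.inr (Or.inl rfl)
  refine (sm_sum p _ _ h5).trans ?_
  rw [Fintype.card_piFinset, Finset.prod_const, Finset.card_univ, hcard, Finset.card_range]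
  have hL1 : (L : ℝ) ≤ V := by
    have := par.hVL
    linarith
  have h6 : ((L ^ (2 * j + 2) : ℕ) : ℝ) ≤ V ^ (2 * J) := by
    push_cast
    exact (pow_le_pow_left₀ (Nat.cast_nonneg L) hL1 _).trans (pow_le_pow_right₀ par.hV (by omega))
  calc ((L ^ (2 * j + 2) : ℕ) : ℝ) * (V ^ (2 * (2 * J) + 2) * X) ≤ V ^ (2 * J) * (V ^ (2 * (2 * J) + 2) * X) := mul_le_mul_of_nonneg_right h6 hY
    _ = V ^ (6 * J + 2) * X := by ring

end Pool.Agent.Lib.H81A
end

-- from Lib.H81A.Final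
section

/-!
# H81A, the final theorem
-/

namespace Pool.Agent.Lib.H81A

open Finset ArithmeticFunction

/-- **Module A**: Heath-Brown's identity in seminorm form. -/
theorem hb_seminorm (c η ε : ℝ) (hc : 0 < c) (hη : 0 < η) (hcη : 4 * c + 4 * η ≤ 1 / 3) (hε : 0 < ε) : ∃ N₀ : ℕ, ∀ N : ℕ, N₀ ≤ N →
    ∀ p : Seminorm ℝ (ℕ → ℝ), Loc N p → ∀ X : ℝ, H2 c η N p X → H1 c N p X → H3 c η N p X → p (fun m => vonMangoldt m) ≤ (N : ℝ) ^ ε * X := by
  obtain ⟨J, N₀, h⟩ := params c η ε hc hη hcη hε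
  refine ⟨N₀, fun N hN p hp X h2 h1 h3 => ?_⟩
  obtain ⟨L, u, v, z, V, par, hz1, hz2, hV⟩ := h N hN
  have hX : 0 ≤ X := by
    refine le_trans ?_ (h1 1 1 le_rfl (by norm_num) (fun _ => 0) (fun _ => by rw [abs_zero]; exact zero_le_one) (fun q hq => absurd rfl hq))
    exact apply_nonneg p _
  have h4 : p (fun m => vonMangoldt m) = p (∑ j ∈ range J, ((-1 : ℝ) ^ j * (J.choose (j + 1) : ℝ)) • (fun m => (muV z ^ (j + 1) * one1 ^ j * logf) m)) := by
    refine hp.congr fun m _ hm => ?_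
    rw [hb_identity z J m (lt_of_le_of_lt hm hz1), Finset.sum_apply]
    exact Finset.sum_congr rfl fun j _ => rfl
  rw [h4]
  have h5 : ∀ s : Finset ℕ, s ⊆ range J → p (∑ j ∈ s, ((-1 : ℝ) ^ j * (J.choose (j + 1) : ℝ)) • (fun m => (muV z ^ (j + 1) * one1 ^ j * logf) m)) ≤
      ∑ j ∈ s, (J.choose (j + 1) : ℝ) * (V ^ (6 * J + 2) * X) := by
    intro s
    induction s using Finset.induction_on with
    | empty =>
      intro _
      rw [Finset.sum_empty, Finset.sum_empty, _root_.map_zero]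
    | insert j s hj ih =>
      intro hs
      rw [Finset.sum_insert hj, Finset.sum_insert hj]
      refine (map_add_le_add p _ _).trans (add_le_add ?_ (ih fun i hi => hs (Finset.mem_insert_of_mem hi)))
      rw [map_smul_eq_mul, norm_mul, norm_pow, norm_neg, norm_one, one_pow, one_mul, Real.norm_natCast]
      exact mul_le_mul_of_nonneg_left (term par hz2 p hp h2 h1 h3 (Finset.mem_range.1 (hs (Finset.mem_insert_self j s)))) (Nat.cast_nonneg _)
  refine (h5 (range J) (Finset.Subset.refl _)).trans ?_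
  rw [← Finset.sum_mul]
  have h6 : (∑ j ∈ range J, (J.choose (j + 1) : ℝ)) ≤ 2 ^ J := by
    have h7 : (∑ j ∈ range J, J.choose (j + 1)) ≤ 2 ^ J := by
      rw [← Nat.sum_range_choose J, Finset.sum_range_succ' (fun i => J.choose i) J]
      exact Nat.le_add_right _ _
    exact_mod_cast h7
  have hV0 : 0 ≤ V ^ (6 * J + 2) := pow_nonneg (zero_le_one.trans par.hV) _
  calc (∑ j ∈ range J, (J.choose (j + 1) : ℝ)) * (V ^ (6 * J + 2) * X) ≤ 2 ^ J * (V ^ (6 * J + 2) * X) :=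
        mul_le_mul_of_nonneg_right h6 (mul_nonneg hV0 hX)
    _ = (2 ^ J * V ^ (6 * J + 2)) * X := by ring
    _ ≤ (N : ℝ) ^ ε * X := mul_le_mul_of_nonneg_right hV hX

end Pool.Agent.Lib.H81A
end

-- from Lib.H37T.A4
section
/-!
H37T: A + B + C + D give the inverse theorem for the von Mangoldt function.
-/
namespace Pool.Agent.H37T
open Finset Pool.Agent.H44W

theorem H1_mono {c : ℝ} {N : ℕ} {p : Seminorm ℝ (ℕ → ℝ)} {X Y : ℝ} (h : Pool.Agent.Lib.H81A.H1 c N p X) (hXY : X ≤ Y) :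
    Pool.Agent.Lib.H81A.H1 c N p Y := fun B1 B2 h1 h2 γ h3 h4 => (h B1 B2 h1 h2 γ h3 h4).trans hXY


theorem H3_mono {c η : ℝ} {N : ℕ} {p : Seminorm ℝ (ℕ → ℝ)} {X Y : ℝ} (h : Pool.Agent.Lib.H81A.H3 c η N p X) (hXY : X ≤ Y) :
    Pool.Agent.Lib.H81A.H3 c η N p Y := fun A1 A2 B1 B2 h1 h2 h3 h4 h5 h6 γ h7 h8 => (h A1 A2 B1 B2 h1 h2 h3 h4 h5 h6 γ h7 h8).trans hXY

/-- The divisor bound. -/
theorem div_bound (b : ℝ) (hb : 0 < b) : ∃ n0 : ℕ, ∀ n : ℕ, n0 ≤ n → ∀ m : ℕ, 1 ≤ m → m ≤ 2 * n → (m.divisors.card : ℝ) ≤ (n:ℝ) ^ b := by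
  obtain ⟨C, hC, hdiv⟩ := Pool.Agent.Lib.H21AP.divisor_bound (ε := b / 2) (by positivity)
  have t : ∀ᶠ n : ℕ in Filter.atTop, C * 2 ^ (b / 2) ≤ (n : ℝ) ^ (b / 2) :=
    ((tendsto_rpow_atTop (by positivity : 0 < b / 2)).comp tendsto_natCast_atTop_atTop).eventually_ge_atTop _
  obtain ⟨n0, hn0⟩ := Filter.eventually_atTop.1 t
  refine ⟨max n0 1, fun n hn m hm1 hm2 => (hdiv m hm1).trans ?_⟩
  have h1 := hn0 n (by omega)
  have hn1 : (0:ℝ) < n := by
    have : 0 < n := by omega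
    exact_mod_cast this
  have h2 : (m:ℝ) ^ (b / 2) ≤ 2 ^ (b / 2) * (n:ℝ) ^ (b / 2) := by
    rw [← Real.mul_rpow (by norm_num) hn1.le]
    refine Real.rpow_le_rpow (Nat.cast_nonneg m) ?_ (by positivity)
    exact_mod_cast hm2
  calc C * (m:ℝ) ^ (b / 2) ≤ C * (2 ^ (b / 2) * (n:ℝ) ^ (b / 2)) := mul_le_mul_of_nonneg_left h2 hC.le
    _ = (C * 2 ^ (b / 2)) * (n:ℝ) ^ (b / 2) := by ring
    _ ≤ (n:ℝ) ^ (b / 2) * (n:ℝ) ^ (b / 2) := mul_le_mul_of_nonneg_right h1 (Real.rpow_nonneg hn1.le _)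
    _ = (n:ℝ) ^ b := by
      rw [← Real.rpow_add hn1]
      congr 1
      ring

/-- The inverse theorem for the von Mangoldt function (the same proposition as in `H9S`). -/
def INV : Prop :=
  ∀ c1 : ℝ, 0 < c1 → ∃ c2 : ℝ, 0 < c2 ∧ ∃ n0 : ℕ, ∀ n : ℕ, n0 ≤ n → ∀ W f g : ℤ → ℂ,
    (∀ x, ‖W x‖ ≤ 1) → (∀ x, ‖f x‖ ≤ 1) → (∀ x, ‖g x‖ ≤ 1) →
    (∀ th : ℝ, ‖∑ z ∈ Icc (1:ℤ) n, g z * ee (th * z)‖ ≤ (n:ℝ) ^ (1 - c1)) →
    ‖TF n (fun m => ((ArithmeticFunction.vonMangoldt m.toNat : ℝ) : ℂ)) W f g‖ ≤ (n:ℝ) ^ (2 - c2)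

theorem inv_of (hB : ∃ C : ℕ, ClassTwo C)
    (hD : ∃ et0 : ℝ, 0 < et0 ∧ ∃ C n0 : ℕ, DOut et0 C n0) : INV := by
  intro c0 hc0
  obtain ⟨et0, het0, CD, nD, hDO⟩ := hD
  set c1 : ℝ := min c0 1 with hc1d
  have hc1 : 0 < c1 := lt_min hc0 one_pos
  have hc1' : c1 ≤ 1 := min_le_right _ _
  have hc1'' : c1 ≤ c0 := min_le_left _ _
  set η : ℝ := min et0 (1 / 24) with hηd
  have hη : 0 < η := lt_min het0 (by norm_num)
  have hη1 : η ≤ et0 := min_le_left _ _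
  have hη2 : η ≤ 1 / 24 := min_le_right _ _
  obtain ⟨CB, hCB⟩ := hB
  obtain ⟨nB, hnB⟩ := h2_of η hη CB hCB
  set d : ℝ := c1 / (2 * ((CD : ℝ) + 1)) with hdd
  have hCD0 : (0:ℝ) ≤ CD := Nat.cast_nonneg _
  have hCB0 : (0:ℝ) ≤ CB := Nat.cast_nonneg _
  have hd : 0 < d := by positivity
  have hd1 : d * (2 * ((CD : ℝ) + 1)) = c1 := div_mul_cancel₀ _ (by positivity)
  have hdC : d * CD < c1 := by nlinarith
  have hd2 : d ≤ c1 / 2 := by nlinarith
  set c : ℝ := min (d / 12) η with hcd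
  have hc : 0 < c := lt_min (by positivity) hη
  have hc12 : c ≤ d / 12 := min_le_left _ _
  have hcη : c ≤ η := min_le_right _ _
  have hc24 : c ≤ 1 / 24 := by linarith
  set b : ℝ := c / (2 * ((CB : ℝ) + 1)) with hbd
  have hb : 0 < b := by positivity
  have hb1 : b * (2 * ((CB : ℝ) + 1)) = c := div_mul_cancel₀ _ (by positivity)
  have hbC : b * CB < c := by nlinarith
  have hb2 : b ≤ c / 2 := by nlinarith
  obtain ⟨nA, hnA⟩ := Pool.Agent.Lib.H81A.hb_seminorm c η (b / 4) hc hη (by linarith) (by positivity)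
  -- large n
  have t1 : ∀ᶠ n : ℕ in Filter.atTop, (2 : ℝ) ≤ (n : ℝ) ^ b :=
    ((tendsto_rpow_atTop hb).comp tendsto_natCast_atTop_atTop).eventually_ge_atTop 2
  have t2 : ∀ᶠ n : ℕ in Filter.atTop, (4 : ℝ) ≤ (n : ℝ) ^ (b / 4) :=
    ((tendsto_rpow_atTop (by positivity : 0 < b / 4)).comp tendsto_natCast_atTop_atTop).eventually_ge_atTop 4
  have t3 : ∀ᶠ n : ℕ in Filter.atTop, (1 + Real.log n) ^ 10 ≤ (n : ℝ) ^ d := by
    have h1 : ∀ᶠ x : ℝ in Filter.atTop, 1 + Real.log x ≤ x ^ (d / 10) := by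
      have h2 := (isLittleO_log_rpow_atTop (by positivity : 0 < d / 10)).def (by norm_num : (0:ℝ) < 1 / 2)
      have h3 : ∀ᶠ x : ℝ in Filter.atTop, (2 : ℝ) ≤ x ^ (d / 10) := (tendsto_rpow_atTop (by positivity : 0 < d / 10)).eventually_ge_atTop 2
      filter_upwards [h2, h3, Filter.eventually_ge_atTop (1:ℝ)] with x h4 h5 h6
      rw [Real.norm_of_nonneg (Real.log_nonneg h6), Real.norm_of_nonneg (Real.rpow_nonneg (by linarith) _)] at h4
      linarith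
    filter_upwards [tendsto_natCast_atTop_atTop.eventually h1, Filter.eventually_ge_atTop 1] with n h4 h5
    have h6 : (0:ℝ) ≤ n := Nat.cast_nonneg n
    have h7 : (n : ℝ) ^ d = ((n : ℝ) ^ (d / 10)) ^ 10 := by
      rw [← Real.rpow_natCast, ← Real.rpow_mul h6]
      congr 1
      push_cast
      ring
    rw [h7]
    have h8 : 0 ≤ Real.log n := Real.log_natCast_nonneg n
    exact pow_le_pow_left₀ (by linarith) h4 10
  have t4 : ∀ᶠ n : ℕ in Filter.atTop, 5 * (1 + Real.log n) ≤ (n : ℝ) ^ (c1 / 3) := by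
    have h1 : ∀ᶠ x : ℝ in Filter.atTop, 5 * (1 + Real.log x) ≤ x ^ (c1 / 3) := by
      have h2 := (isLittleO_log_rpow_atTop (by positivity : 0 < c1 / 3)).def (by norm_num : (0:ℝ) < 1 / 10)
      have h3 : ∀ᶠ x : ℝ in Filter.atTop, (10 : ℝ) ≤ x ^ (c1 / 3) := (tendsto_rpow_atTop (by positivity : 0 < c1 / 3)).eventually_ge_atTop 10
      filter_upwards [h2, h3, Filter.eventually_ge_atTop (1:ℝ)] with x h4 h5 h6
      rw [Real.norm_of_nonneg (Real.log_nonneg h6), Real.norm_of_nonneg (Real.rpow_nonneg (by linarith) _)] at h4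
      linarith
    exact tendsto_natCast_atTop_atTop.eventually h1
  obtain ⟨nT, hnT⟩ := Filter.eventually_atTop.1 (t1.and (t2.and (t3.and t4)))
  obtain ⟨nV, hnV⟩ := div_bound b hb
  refine ⟨b / 4, by positivity, max (max nA nB) (max (max nD nT) (max nV 2)), fun n hn W f g hW hf hg hth => ?_⟩
  have hnA' : nA ≤ 2 * n := by omega
  have hnB' : nB ≤ n := by omega
  have hnD' : nD ≤ n := by omega
  have hn2 : 2 ≤ n := by omega
  obtain ⟨u1, u2, u3, u4⟩ := hnT n (by omega)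
  have hdvb := hnV n (by omega)
  have hnR : (2:ℝ) ≤ n := by exact_mod_cast hn2
  have hn0 : (0:ℝ) < n := by linarith
  have hn1 : (1:ℝ) ≤ n := by linarith
  have hlog : 0 ≤ Real.log n := Real.log_natCast_nonneg n
  have hth1 : ∀ th : ℝ, ‖∑ z ∈ Icc (1:ℤ) n, g z * ee (th * z)‖ ≤ (n:ℝ) ^ (1 - c1) := fun th =>
    (hth th).trans (Real.rpow_le_rpow_of_exponent_le hn1 (by linarith))
  have hlt : ∀ e : ℝ, ∀ C : ℕ, e * C < c1 → ∀ th : ℝ, ‖∑ z ∈ Icc (1:ℤ) n, g z * ee (th * z)‖ < (n:ℝ) / ((n:ℝ) ^ e) ^ C := by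
    intro e C he th
    refine lt_of_le_of_lt (hth1 th) ?_
    have h1 : (n:ℝ) / ((n:ℝ) ^ e) ^ C = (n:ℝ) ^ (1 - e * C) := by
      rw [← Real.rpow_natCast, ← Real.rpow_mul hn0.le, Real.rpow_sub hn0, Real.rpow_one]
    rw [h1]
    exact Real.rpow_lt_rpow_of_exponent_lt (by linarith) (by linarith)
  have h2n : ∀ e : ℝ, 0 ≤ e → ((2 * n : ℕ) : ℝ) ^ e ≤ (n:ℝ) ^ (2 * e) := by
    intro e he
    rw [Real.rpow_mul hn0.le]
    refine Real.rpow_le_rpow (Nat.cast_nonneg _) ?_ he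
    push_cast
    rw [Real.rpow_two]
    nlinarith
  have hn2n : ∀ e : ℝ, 0 ≤ e → (n:ℝ) ^ e ≤ ((2 * n : ℕ) : ℝ) ^ e := by
    intro e he
    refine Real.rpow_le_rpow hn0.le ?_ he
    push_cast
    linarith
  have hdiv : ∀ e : ℝ, (n:ℝ) ^ 2 / (n:ℝ) ^ e = (n:ℝ) ^ (2 - e) := by
    intro e
    rw [Real.rpow_sub hn0, Real.rpow_two]
  set X : ℝ := 4 * (n:ℝ) ^ (2 - b) with hX
  have hbb : b ≤ d := by linarith
  have k2 : Pool.Agent.Lib.H81A.H2 c η (2 * n) (tfS n W f g) X := by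
    have h0 : ((n:ℝ) ^ b) ^ CB ≤ (n:ℝ) ^ c := by
      rw [← Real.rpow_natCast, ← Real.rpow_mul hn0.le]
      exact Real.rpow_le_rpow_of_exponent_le hn1 hbC.le
    have h1 := hnB n hnB' c ((n:ℝ) ^ b) u1 hdvb (h0.trans (hn2n c hc.le))
      (h0.trans (Real.rpow_le_rpow_of_exponent_le hn1 hcη)) W f g hW hf hg (hlt b CB (by linarith))
    rw [hdiv] at h1
    exact h1
  have k3 : Pool.Agent.Lib.H81A.H3 c η (2 * n) (tfS n W f g) X := by
    have h1 := h3_of et0 CD nD hDO η hη1 n hnD' (by omega) c ((n:ℝ) ^ d) u3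
      (fun m hm1 hm2 => (hdvb m hm1 hm2).trans (Real.rpow_le_rpow_of_exponent_le hn1 hbb)) (by
      rw [← Real.rpow_natCast, ← Real.rpow_mul hn0.le]
      calc (n:ℝ) ^ (d * CD) ≤ (n:ℝ) ^ (1:ℝ) := Real.rpow_le_rpow_of_exponent_le hn1 (by linarith)
        _ = n := Real.rpow_one _) (by
      refine (h2n (2 * c) (by positivity)).trans (Real.rpow_le_rpow_of_exponent_le hn1 ?_)
      linarith) W f g hW hf hg (hlt d CD hdC)
    rw [hdiv] at h1
    refine H3_mono h1 ?_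
    have h2 : (n:ℝ) ^ (2 - d) ≤ (n:ℝ) ^ (2 - b) := Real.rpow_le_rpow_of_exponent_le hn1 (by linarith)
    have h3 : 0 ≤ (n:ℝ) ^ (2 - b) := Real.rpow_nonneg hn0.le _
    rw [hX]
    linarith
  have k1 : Pool.Agent.Lib.H81A.H1 c (2 * n) (tfS n W f g) X := by
    refine H1_mono (h1_of n (by omega) c W f g hW hf ((n:ℝ) ^ (1 - c1)) hth1) ?_
    have h1 : ((2 * n : ℕ) : ℝ) ^ (2 * c) ≤ (n:ℝ) ^ (d / 3) := by
      refine (h2n (2 * c) (by positivity)).trans (Real.rpow_le_rpow_of_exponent_le hn1 ?_)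
      linarith
    have h2 : (0:ℝ) ≤ (n:ℝ) ^ (1 - c1) := Real.rpow_nonneg hn0.le _
    have h3 : (0:ℝ) ≤ (n:ℝ) ^ (d / 3) := Real.rpow_nonneg hn0.le _
    calc 20 * ((2 * n : ℕ) : ℝ) ^ (2 * c) * (1 + Real.log n) * n * (n:ℝ) ^ (1 - c1)
        ≤ 20 * (n:ℝ) ^ (d / 3) * (1 + Real.log n) * n * (n:ℝ) ^ (1 - c1) := by gcongr
      _ = 4 * ((n:ℝ) ^ (d / 3) * (5 * (1 + Real.log n)) * (n ^ (1:ℝ) * (n:ℝ) ^ (1 - c1))) := by rw [Real.rpow_one]; ring
      _ ≤ 4 * ((n:ℝ) ^ (d / 3) * (n:ℝ) ^ (c1 / 3) * (n ^ (1:ℝ) * (n:ℝ) ^ (1 - c1))) := by gcongr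
      _ = 4 * (n:ℝ) ^ (d / 3 + c1 / 3 + (1 + (1 - c1))) := by
          rw [← Real.rpow_add hn0, ← Real.rpow_add hn0, ← Real.rpow_add hn0]
      _ ≤ X := by
          rw [hX]
          refine mul_le_mul_of_nonneg_left (Real.rpow_le_rpow_of_exponent_le hn1 ?_) (by norm_num)
          linarith
  have h := hnA (2 * n) hnA' (tfS n W f g) (tfS_loc n W f g) X k2 k1 k3
  have e : tfS n W f g (fun m => ArithmeticFunction.vonMangoldt m) =
      ‖TF n (fun m => ((ArithmeticFunction.vonMangoldt m.toNat : ℝ) : ℂ)) W f g‖ := rfl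
  rw [e] at h
  refine h.trans ?_
  have h1 := h2n (b / 4) (by positivity)
  have h2 : 0 ≤ (n:ℝ) ^ (2 - b) := Real.rpow_nonneg hn0.le _
  have h3 : 0 ≤ (n:ℝ) ^ (2 * (b / 4)) := Real.rpow_nonneg hn0.le _
  calc ((2 * n : ℕ) : ℝ) ^ (b / 4) * X ≤ (n:ℝ) ^ (2 * (b / 4)) * ((n:ℝ) ^ (b / 4) * (n:ℝ) ^ (2 - b)) := by
        rw [hX]
        gcongr
    _ = (n:ℝ) ^ (2 - b / 4) := by
        rw [← Real.rpow_add hn0, ← Real.rpow_add hn0]
        congr 1
        ring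

end Pool.Agent.H37T
end

-- from Lib.H44W.M0
section
/-!
M0: module C in the form used by psi_cf.
-/
namespace Pool.Agent.H44W
open Finset

theorem type_one_psi (n A : ℕ) (al : ℕ → ℂ) (hn : 1 ≤ n) (hal : ∀ a, ‖al a‖ ≤ 1) (W f g : ℤ → ℂ)
    (hW : ∀ x, ‖W x‖ ≤ 1) (hf : ∀ x, ‖f x‖ ≤ 1) (_hg : ∀ x, ‖g x‖ ≤ 1) :
    ∃ th : ℝ, ‖TF n (psi A al) W f g‖ ≤
      20 * A * (1 + Real.log n) * n * ‖∑ z ∈ Icc (1:ℤ) n, g z * ee (th * z)‖ := by
  have h1 : Pool.Agent.H81E.Rep n (∑ a ∈ Icc 1 A, ‖al a‖ * 1) (fun m => ∑ a ∈ Icc 1 A, al a * (if (a:ℤ) ∣ m then 1 else 0)) :=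
    Pool.Agent.H81E.Rep.sum (Icc 1 A) _ _ fun a ha =>
      (Pool.Agent.H81E.Rep.dvd n a (by rw [mem_Icc] at ha; omega)).smul (al a)
  have h2 : Pool.Agent.H81E.Rep n A (psi A al) := by
    refine (h1.congr fun m _ _ => ?_).mono ?_
    · unfold psi
      refine sum_congr rfl fun a _ => ?_
      by_cases h : (a:ℤ) ∣ m
      · rw [if_pos h, if_pos h, mul_one]
      · rw [if_neg h, if_neg h, mul_zero]
    · refine (sum_le_sum (g := fun _ => (1:ℝ)) fun a _ => ?_).trans ?_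
      · rw [mul_one]; exact hal a
      · simp
  obtain ⟨th, hth⟩ := h2.TF_le W f g hW hf
  refine ⟨th, hth.trans ?_⟩
  have hlog : 0 ≤ Real.log n := Real.log_natCast_nonneg n
  have h3 : 0 ≤ (A:ℝ) * (n * ‖∑ z ∈ Icc (1:ℤ) n, g z * ee (th * z)‖) := by positivity
  calc (A:ℝ) * (2 * n * ‖∑ z ∈ Icc (1:ℤ) n, g z * ee (th * z)‖)
      = 2 * (A * (n * ‖∑ z ∈ Icc (1:ℤ) n, g z * ee (th * z)‖)) := by ring
    _ ≤ (20 * (1 + Real.log n)) * (A * (n * ‖∑ z ∈ Icc (1:ℤ) n, g z * ee (th * z)‖)) := by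
        apply mul_le_mul_of_nonneg_right _ h3
        linarith
    _ = 20 * A * (1 + Real.log n) * n * ‖∑ z ∈ Icc (1:ℤ) n, g z * ee (th * z)‖ := by ring

end Pool.Agent.H44W
end

-- from Lib.H96G.Tr
section

/-!
# Project H96G: degrees of the Goldbach graphs (copy of three lemmas of `H18GB/Transfer.lean`, in order to have
fewer imports)
-/

namespace Pool.Agent.Lib.H96G.Tr

open Finset Pool.Agent.Goldbach Pool.Agent.Lib.GoldbachGraph

section

variable {V S : Set ℕ} {n : ℕ}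

theorem finite_of_le (hV : ∀ a ∈ V, Even a ∧ a ≤ 2 * n) : V.Finite :=
  (Set.finite_Iic (2 * n)).subset fun a ha => (hV a ha).2

/-- degrees -/
theorem deg_le (hV : ∀ a ∈ V, Even a ∧ a ≤ 2 * n)
    (hS' : ∀ m ∈ S, m = 1 ∨ (m.Prime ∧ Odd m)) (x : ℕ) (hx : 2 * x ∈ V) :
    ((halfGraph V S).neighborSet ⟨2 * x, hx⟩).ncard ≤ hdeg n x + 4 := by
  have : Finite V := finite_of_le hV
  set T : Finset ℕ := ((Finset.Icc 1 n).filter fun u => hadj x u) ∪ {0, 1 - x, x + 1, x - 1}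
    with hT
  have hTcard : T.card ≤ hdeg n x + 4 :=
    (Finset.card_union_le _ _).trans (Nat.add_le_add_left Finset.card_le_four _)
  refine le_trans ?_ hTcard
  rw [← Set.ncard_coe_finset]
  apply Set.ncard_le_ncard_of_injOn (fun b : V => (b : ℕ) / 2)
  · rintro ⟨b, hb⟩ hadj1
    obtain ⟨⟨s, hs⟩, hbn⟩ := hV b hb
    have hbs : b = 2 * s := by omega
    subst hbs
    rw [SimpleGraph.mem_neighborSet, halfGraph_adj_iff (x := x) (y := s) rfl rfl] at hadj1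
    obtain ⟨h1, h2, h3⟩ := hadj1
    simp only [Nat.mul_div_cancel_left _ (by norm_num : 0 < 2)]
    rw [Finset.mem_coe, hT, Finset.mem_union, Finset.mem_filter, Finset.mem_Icc]
    by_cases hs0 : s = 0
    · right; simp [hs0]
    by_cases h4 : x + s = 1
    · right
      simp only [Finset.mem_insert, Finset.mem_singleton]
      omega
    by_cases h5 : ((x : ℤ) - s).natAbs = 1
    · right
      simp only [Finset.mem_insert, Finset.mem_singleton]
      omega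
    left
    have hd : ((x : ℤ) - s).natAbs = Nat.dist x s := by
      unfold Nat.dist
      omega
    rw [hd] at h3 h5
    obtain ⟨h6, h7⟩ := (hS' _ h2).resolve_left h4
    obtain ⟨h8, h9⟩ := (hS' _ h3).resolve_left h5
    exact ⟨⟨by omega, by omega⟩, h6, h7, h8, h9⟩
  · rintro ⟨b, hb⟩ - ⟨b', hb'⟩ - hbb
    have h1 := (hV b hb).1
    have h2 := (hV b' hb').1
    simp only at hbb
    ext
    simp only
    obtain ⟨k, hk⟩ := h1
    obtain ⟨l, hl⟩ := h2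
    omega

theorem le_deg (hV : ∀ a ∈ V, Even a ∧ a ≤ 2 * n) (hV2 : ∀ x ∈ Finset.Icc 1 n, 2 * x ∈ V)
    (hS : ∀ m, m.Prime → Odd m → m < 2 * n → m ∈ S) (x : ℕ) (hx1 : x ∈ Finset.Icc 1 n)
    (hx : 2 * x ∈ V) :
    hdeg n x ≤ ((halfGraph V S).neighborSet ⟨2 * x, hx⟩).ncard := by
  have : Finite V := finite_of_le hV
  unfold hdeg
  rw [← Set.ncard_coe_finset]
  have hfin : ((halfGraph V S).neighborSet ⟨2 * x, hx⟩).Finite := Set.toFinite _
  refine le_trans ?_ (Set.ncard_image_le (f := fun b : V => (b : ℕ) / 2) hfin)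
  apply Set.ncard_le_ncard _ (hfin.image _)
  intro u hu
  rw [Finset.mem_coe, Finset.mem_filter] at hu
  obtain ⟨hu1, a1, a2, a3, a4⟩ := hu
  refine ⟨⟨2 * u, hV2 u hu1⟩, ?_, ?_⟩
  · rw [SimpleGraph.mem_neighborSet, halfGraph_adj_iff (x := x) (y := u) rfl rfl]
    rw [Finset.mem_Icc] at hu1 hx1
    have hne : x ≠ u := by
      rintro rfl
      rw [Nat.dist_self] at a3
      exact Nat.not_prime_zero a3
    have hd : ((x : ℤ) - u).natAbs = Nat.dist x u := by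
      unfold Nat.dist
      omega
    refine ⟨hne, hS _ a1 a2 (by omega), ?_⟩
    rw [hd]
    refine hS _ a3 a4 ?_
    unfold Nat.dist
    omega
  · simp

end

end Pool.Agent.Lib.H96G.Tr
end

-- from Lib.H44W.M2
section
/-!
CHUNK M2 (S/M). The inverse property for a Type I sum times a slowly varying factor, given by an expansion of the factor in additive
characters with total mass A0.
Proof. On the points m = x + y in [2, 2n] which occur in TF the function Mm is sum_j c j * ee(ph j * m) * psi A al m. TF is linear in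
its kernel, so TF n Mm W f g = sum_j c j * TF n (fun m => ee (ph j * m) * psi A al m) W f g
= sum_j c j * S * TF n (psi A (al/S)) W (fun x => f x * ee (ph j * x)) (fun y => g y * ee (ph j * y))   (ee_add, the factor splits on
x + y). The norm is <= sum_j |c j| * S * (...): if every term |TF n (psi A (al/S)) W f_j g_j| were < n^2/(D A0 S) the total would be
< n^2/D (strict unless all c j = 0, in which case TF = 0 < n^2/D, impossible as n >= 2). So some j has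
n^2/(D A0 S) <= |TF n (psi A (al/S)) W f_j g_j| and psi_cf (M1) with D := D * A0 * S >= 2 gives th with
n/(80 (D A0 S)(1+log n)^2)^(C+1) <= |sum g z ee(ph j z) ee(th z)| = |sum g z ee((ph j + th) z)|.
-/
namespace Pool.Agent.H44W
open Finset

theorem m2_psi (A : ℕ) (al : ℕ → ℂ) (S : ℝ) (hS : 1 ≤ S) (m : ℤ) :
    psi A al m = (S : ℂ) * psi A (fun a => al a / S) m := by
  have hS0 : (S : ℂ) ≠ 0 := by
    have : (0 : ℝ) < S := by linarith
    exact_mod_cast this.ne'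
  unfold psi
  rw [Finset.mul_sum]
  refine Finset.sum_congr rfl fun a _ => ?_
  split_ifs
  · field_simp
  · rw [mul_zero]

theorem m2_expand (n A : ℕ) (S : ℝ) (hS : 1 ≤ S) (J : ℕ) (c : ℕ → ℂ) (ph : ℕ → ℝ) (al : ℕ → ℂ) (Mm : ℤ → ℂ)
    (hM : ∀ m : ℤ, 2 ≤ m → m ≤ 2 * n →
      Mm m = (∑ j ∈ range J, c j * ee (ph j * m)) * psi A al m) (W f g : ℤ → ℂ) :
    TF n Mm W f g = ∑ j ∈ range J, c j * ((S : ℂ) * TF n (psi A (fun a => al a / S)) W
      (fun x => f x * ee (ph j * x)) (fun y => g y * ee (ph j * y))) := by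
  unfold TF
  have e1 : ∀ x ∈ Icc (1:ℤ) n, ∑ y ∈ Icc (1:ℤ) n, f x * g y * Mm (x + y) * W (x - y) =
      ∑ j ∈ range J, ∑ y ∈ Icc (1:ℤ) n, c j * ((S : ℂ) * (f x * ee (ph j * x) * (g y * ee (ph j * y)) *
        psi A (fun a => al a / S) (x + y) * W (x - y))) := by
    intro x hx
    rw [Finset.sum_comm]
    refine Finset.sum_congr rfl fun y hy => ?_
    rw [Finset.mem_Icc] at hx hy
    rw [hM (x + y) (by omega) (by omega), m2_psi A al S hS, Finset.sum_mul, Finset.mul_sum, Finset.sum_mul]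
    refine Finset.sum_congr rfl fun j _ => ?_
    have e2 : ee (ph j * ((x + y : ℤ) : ℝ)) = ee (ph j * x) * ee (ph j * y) := by
      rw [← ee_add]
      congr 1
      push_cast
      ring
    rw [e2]
    ring
  rw [Finset.sum_congr rfl e1, Finset.sum_comm]
  refine Finset.sum_congr rfl fun j _ => ?_
  rw [Finset.mul_sum, Finset.mul_sum]
  refine Finset.sum_congr rfl fun x _ => ?_
  rw [Finset.mul_sum, Finset.mul_sum]

theorem model_cf (C : ℕ) (h2 : ClassTwo C)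
    (hone : ∀ (n A : ℕ) (al : ℕ → ℂ), 1 ≤ n → (∀ a, ‖al a‖ ≤ 1) → ∀ W f g : ℤ → ℂ,
      (∀ x, ‖W x‖ ≤ 1) → (∀ x, ‖f x‖ ≤ 1) → (∀ x, ‖g x‖ ≤ 1) →
      ∃ th : ℝ, ‖TF n (psi A al) W f g‖ ≤
        20 * A * (1 + Real.log n) * n * ‖∑ z ∈ Icc (1:ℤ) n, g z * ee (th * z)‖)
    (n A : ℕ) (hn : 2 ≤ n) (hA4 : (A:ℝ) ≤ (n:ℝ) ^ (1 / 4 : ℝ)) (D A0 S : ℝ) (hD : 2 ≤ D)
    (hdiv : ∀ m : ℕ, 1 ≤ m → m ≤ 2 * n → (m.divisors.card : ℝ) ≤ D)
    (hA0 : 1 ≤ A0) (hS : 1 ≤ S) (J : ℕ) (c : ℕ → ℂ) (ph : ℕ → ℝ)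
    (hc : ∑ j ∈ range J, ‖c j‖ ≤ A0) (al : ℕ → ℂ) (hal : ∀ a, ‖al a‖ ≤ S) (Mm : ℤ → ℂ)
    (hM : ∀ m : ℤ, 2 ≤ m → m ≤ 2 * n →
      Mm m = (∑ j ∈ range J, c j * ee (ph j * m)) * psi A al m)
    (W f g : ℤ → ℂ) (hW : ∀ x, ‖W x‖ ≤ 1) (hf : ∀ x, ‖f x‖ ≤ 1) (hg : ∀ x, ‖g x‖ ≤ 1)
    (hT : (n:ℝ) ^ 2 / D ≤ ‖TF n Mm W f g‖) :
    ∃ th : ℝ, (n:ℝ) / (80 * (D * A0 * S) * (1 + Real.log n) ^ 2) ^ (C + 1) ≤
      ‖∑ z ∈ Icc (1:ℤ) n, g z * ee (th * z)‖ := by
  have hn0 : (0 : ℝ) < n := by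
    have : (2 : ℝ) ≤ n := by exact_mod_cast hn
    linarith
  have hD0 : 0 < D := by linarith
  have hS0 : 0 < S := by linarith
  have hA00 : 0 < A0 := by linarith
  have hpos : 0 < (n:ℝ) ^ 2 / D := by positivity
  have hexp := m2_expand n A S hS J c ph al Mm hM W f g
  have hJ : (range J).Nonempty := by
    rw [Finset.nonempty_range_iff]
    rintro rfl
    rw [Finset.range_zero, Finset.sum_empty] at hexp
    rw [hexp, norm_zero] at hT
    linarith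
  obtain ⟨j, hj, hmax⟩ := Finset.exists_max_image (range J) (fun j => ‖TF n (psi A (fun a => al a / S)) W
      (fun x => f x * ee (ph j * x)) (fun y => g y * ee (ph j * y))‖) hJ
  have h1 : ‖TF n Mm W f g‖ ≤ A0 * (S * ‖TF n (psi A (fun a => al a / S)) W
      (fun x => f x * ee (ph j * x)) (fun y => g y * ee (ph j * y))‖) := by
    rw [hexp]
    refine (norm_sum_le _ _).trans ?_
    have h3 : ∀ i ∈ range J, ‖c i * ((S : ℂ) * TF n (psi A (fun a => al a / S)) W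
        (fun x => f x * ee (ph i * x)) (fun y => g y * ee (ph i * y)))‖ ≤
        ‖c i‖ * (S * ‖TF n (psi A (fun a => al a / S)) W
          (fun x => f x * ee (ph j * x)) (fun y => g y * ee (ph j * y))‖) := by
      intro i hi
      rw [norm_mul, norm_mul, Complex.norm_real, Real.norm_of_nonneg hS0.le]
      exact mul_le_mul_of_nonneg_left (mul_le_mul_of_nonneg_left (hmax i hi) hS0.le) (norm_nonneg _)
    refine (Finset.sum_le_sum h3).trans ?_
    rw [← Finset.sum_mul]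
    exact mul_le_mul_of_nonneg_right hc (by positivity)
  have h4 : (n:ℝ) ^ 2 / (D * A0 * S) ≤ ‖TF n (psi A (fun a => al a / S)) W
      (fun x => f x * ee (ph j * x)) (fun y => g y * ee (ph j * y))‖ := by
    have h3 := hT.trans h1
    rw [div_le_iff₀ (by positivity)] at h3 ⊢
    linarith
  have hDS : 2 ≤ D * A0 * S := by
    have h3 : 2 ≤ D * A0 := by nlinarith
    nlinarith
  have hDD : D ≤ D * A0 * S := by
    have h5 : D ≤ D * A0 := le_mul_of_one_le_right hD0.le hA0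
    exact h5.trans (le_mul_of_one_le_right (by positivity) hS)
  obtain ⟨th, hth⟩ := psi_cf C h2 hone n A hn hA4 (D * A0 * S) hDS
    (fun m h5 h6 => (hdiv m h5 h6).trans hDD) (fun a => al a / S) (fun a => by
      rw [norm_div, Complex.norm_real, Real.norm_of_nonneg hS0.le, div_le_one hS0]
      exact hal a) W (fun x => f x * ee (ph j * x)) (fun y => g y * ee (ph j * y)) hW
    (fun x => by rw [norm_mul, norm_ee, mul_one]; exact hf x) (fun x => by rw [norm_mul, norm_ee, mul_one]; exact hg x) h4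
  refine ⟨ph j + th, hth.trans (le_of_eq ?_)⟩
  congr 1
  refine Finset.sum_congr rfl fun z _ => ?_
  have e2 : ee ((ph j + th) * (z : ℝ)) = ee (ph j * z) * ee (th * z) := by
    rw [← ee_add]
    congr 1
    ring
  rw [e2]
  ring

end Pool.Agent.H44W
end

-- from Lib.H44W.M7
section
/-!
CHUNK M7 (M). The model Mq has the inverse property with polynomial loss, uniformly in its level Q.
Proof. If A2 < A1 or B2 < B1 then lbox = 0 (lbox_empty), so Mq = 0 and TF = 0, impossible (n^2/D > 0). Otherwise lboxr_rep gives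
J, c, al' with sum |c j| <= A0 := 7 (1 + log n) (unfold H81E.Rep) and lboxr q .. m = sum_j c j * ee (al' j * m) for 2 <= m <= 2n.
For 2 <= m <= 2n: Mq Q A1 A2 B1 B2 q m = lboxr q .. m * psi (q Q) al m, with al a = lam Q (a/q) if q | a, else 0: if q does not divide m, then
a | m and q | a are impossible, both sides 0; if m = q k: Mbox k = lbox k * sum_{d <= Q, d | k} lam Q d and a = q d, a | m iff d | k,
a <= q Q iff d <= Q; lbox k = lboxr (q k) (lboxr_eq). |al a| <= S := 1 + log Q (H21T.m1).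
model_cf (M2) with hone := type_one_psi (M0), A = q Q: n/(80 (D A0 S)(1+log n)^2)^(C+1) <= |ghat|; and
80 * 7 * (1+log n) (1 + log Q)(1+log n)^2 * D <= 560 (1+log n)^4 D <= D^2 as Q <= n^(1/4) <= n and 560 (1+log n)^4 <= D (hD2).
So n/D^(2(C+1)) <= |ghat|. (n >= 2 because (1+log n)^4 * 560 <= D and D^(..) .. use hn.)
-/
namespace Pool.Agent.H44W
open Finset

/-- The coefficients of the model with cofactor q. -/
noncomputable def m7_al (Q q : ℕ) (a : ℕ) : ℂ :=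
  if q ∣ a then ((Pool.Agent.Lib.H21T.lam Q (a / q) : ℝ) : ℂ) else 0

theorem m7_psi (Q q k : ℕ) (hq : 1 ≤ q) :
    psi (q * Q) (m7_al Q q) ((q:ℤ) * k) = ((Pool.Agent.Lib.H21T.gQ Q k : ℝ) : ℂ) := by
  unfold psi Pool.Agent.Lib.H21T.gQ
  rw [Complex.ofReal_sum]
  have h1 : ∀ a ∈ Icc 1 (q * Q), (if ((a:ℕ):ℤ) ∣ (q:ℤ) * k then m7_al Q q a else 0) =
      if a ∣ q * k ∧ q ∣ a then ((Pool.Agent.Lib.H21T.lam Q (a / q) : ℝ) : ℂ) else 0 := by
    intro a _
    have h2 : (((a:ℕ):ℤ) ∣ (q:ℤ) * k) ↔ a ∣ q * k := by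
      rw [← Int.natCast_dvd_natCast]
      push_cast
      rfl
    unfold m7_al
    by_cases h3 : a ∣ q * k
    · rw [if_pos (h2.2 h3)]
      by_cases h4 : q ∣ a
      · rw [if_pos h4, if_pos ⟨h3, h4⟩]
      · rw [if_neg h4, if_neg (fun h => h4 h.2)]
    · rw [if_neg (fun h => h3 (h2.1 h)), if_neg (fun h => h3 h.1)]
  rw [sum_congr rfl h1, ← sum_filter]
  symm
  refine sum_nbij' (fun d => q * d) (fun a => a / q) ?_ ?_ ?_ ?_ ?_
  · intro d hd
    rw [mem_filter, mem_Icc] at hd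
    rw [mem_filter, mem_Icc]
    exact ⟨⟨Nat.mul_pos hq hd.1.1, Nat.mul_le_mul_left q hd.1.2⟩, Nat.mul_dvd_mul_left q hd.2,
      Dvd.intro _ rfl⟩
  · intro a ha
    rw [mem_filter, mem_Icc] at ha
    obtain ⟨⟨h2, h3⟩, h4, d, rfl⟩ := ha
    rw [mem_filter, mem_Icc, Nat.mul_div_cancel_left _ hq]
    refine ⟨⟨?_, Nat.le_of_mul_le_mul_left h3 hq⟩, Nat.dvd_of_mul_dvd_mul_left hq h4⟩
    rcases Nat.eq_zero_or_pos d with h5 | h5
    · subst h5
      rw [mul_zero] at h2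
      omega
    · exact h5
  · intro d _
    exact Nat.mul_div_cancel_left _ hq
  · intro a ha
    rw [mem_filter] at ha
    exact Nat.mul_div_cancel' ha.2.2
  · intro d _
    rw [Nat.mul_div_cancel_left _ hq]

theorem m7_psi_zero (Q q : ℕ) (m : ℤ) (h : ¬ (q:ℤ) ∣ m) : psi (q * Q) (m7_al Q q) m = 0 := by
  unfold psi
  refine sum_eq_zero fun a _ => ?_
  by_cases h1 : (a:ℤ) ∣ m
  · rw [if_pos h1]
    unfold m7_al
    rw [if_neg]
    intro h2
    exact h ((Int.natCast_dvd_natCast.2 h2).trans h1)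
  · rw [if_neg h1]

theorem m7_Mq (Q A1 A2 B1 B2 q : ℕ) (hq : 1 ≤ q) (m : ℤ) (hm : 1 ≤ m) :
    Mq Q A1 A2 B1 B2 q m = ((lboxr q A1 A2 B1 B2 m : ℝ) : ℂ) * psi (q * Q) (m7_al Q q) m := by
  unfold Mq
  by_cases h : (q:ℤ) ∣ m
  · rw [if_pos h]
    obtain ⟨z, rfl⟩ := h
    have hq0 : (0:ℤ) < q := by exact_mod_cast hq
    have hz : 1 ≤ z := by
      by_contra hcon
      have h1 : z ≤ 0 := by omega
      have h2 : (q:ℤ) * z ≤ 0 := mul_nonpos_of_nonneg_of_nonpos hq0.le h1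
      omega
    obtain ⟨k, rfl⟩ := Int.eq_ofNat_of_zero_le (by omega : 0 ≤ z)
    have hk : 1 ≤ k := by exact_mod_cast hz
    have h3 : ((q:ℤ) * (k:ℤ) / q).toNat = k := by
      rw [Int.mul_ediv_cancel_left _ hq0.ne']
      exact Int.toNat_natCast k
    rw [h3, m7_psi Q q k hq, lboxr_eq q A1 A2 B1 B2 k hq hk]
    unfold Pool.Agent.Lib.H21T.Mbox
    rw [Complex.ofReal_mul]
  · rw [if_neg h, m7_psi_zero Q q m h, mul_zero]

theorem mq_cf (C : ℕ) (h2 : ClassTwo C) (n Q A1 A2 B1 B2 q : ℕ) (hn : 2 ≤ n) (hQ : 1 ≤ Q)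
    (hq : 1 ≤ q) (hqQ : ((q * Q : ℕ):ℝ) ≤ (n:ℝ) ^ (1 / 4 : ℝ)) (hA : 1 ≤ A1) (hB : 1 ≤ B1)
    (hA2 : A2 ≤ 2 * A1) (D : ℝ) (hD2 : 560 * (1 + Real.log n) ^ 4 ≤ D)
    (hdiv : ∀ m : ℕ, 1 ≤ m → m ≤ 2 * n → (m.divisors.card : ℝ) ≤ D)
    (W f g : ℤ → ℂ) (hW : ∀ x, ‖W x‖ ≤ 1) (hf : ∀ x, ‖f x‖ ≤ 1) (hg : ∀ x, ‖g x‖ ≤ 1)
    (hT : (n:ℝ) ^ 2 / D ≤ ‖TF n (Mq Q A1 A2 B1 B2 q) W f g‖) :
    ∃ th : ℝ, (n:ℝ) / D ^ (2 * (C + 1)) ≤ ‖∑ z ∈ Icc (1:ℤ) n, g z * ee (th * z)‖ := by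
  have hL0 : 0 ≤ Real.log n := Real.log_natCast_nonneg n
  have hL1 : 1 ≤ 1 + Real.log n := by linarith
  have hL4 : 1 ≤ (1 + Real.log n) ^ 4 := one_le_pow₀ hL1
  have hD560 : 560 ≤ D := by linarith
  have hD0 : 0 < D := by linarith
  have hn0 : (0:ℝ) < n := by
    have : 0 < n := by omega
    exact_mod_cast this
  have hn1 : (1:ℝ) ≤ n := by
    have : 1 ≤ n := by omega
    exact_mod_cast this
  by_cases hE : A2 < A1 ∨ B2 < B1
  · exfalso
    have h0 : TF n (Mq Q A1 A2 B1 B2 q) W f g = 0 := by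
      unfold TF
      refine sum_eq_zero fun x _ => sum_eq_zero fun y _ => ?_
      have h1 : Mq Q A1 A2 B1 B2 q (x + y) = 0 := by
        unfold Mq Pool.Agent.Lib.H21T.Mbox
        rw [lbox_empty A1 A2 B1 B2 _ hA hB hE, zero_mul, Complex.ofReal_zero, ite_self]
      rw [h1, mul_zero, zero_mul]
    rw [h0, norm_zero] at hT
    have : 0 < (n:ℝ) ^ 2 / D := by positivity
    linarith
  · rw [not_or, not_lt, not_lt] at hE
    obtain ⟨J, c, ph, hc, hrep⟩ :=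
      lboxr_rep n q A1 A2 B1 B2 (by omega) hq hA hE.1 hA2 hB hE.2
    have hlQ0 : 0 ≤ Real.log Q := Real.log_natCast_nonneg Q
    have hal : ∀ a, ‖m7_al Q q a‖ ≤ 1 + Real.log Q := by
      intro a
      unfold m7_al
      by_cases h : q ∣ a
      · rw [if_pos h, Complex.norm_real, Real.norm_eq_abs]
        exact Pool.Agent.Lib.H21T.m1 Q (a / q) hQ
      · rw [if_neg h, norm_zero]
        linarith
    obtain ⟨th, hth⟩ := model_cf C h2 type_one_psi n (q * Q) hn hqQ D (7 * (1 + Real.log n))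
      (1 + Real.log Q) (by linarith) hdiv (by linarith) (by linarith) J c ph hc (m7_al Q q) hal
      (Mq Q A1 A2 B1 B2 q) (fun m hm hm2 => by
        rw [m7_Mq Q A1 A2 B1 B2 q hq m (by omega)]
        have h5 := hrep m hm hm2
        simp only at h5
        rw [h5]) W f g hW hf hg hT
    refine ⟨th, le_trans ?_ hth⟩
    have hQn : (Q:ℝ) ≤ n := by
      have h1 : (Q:ℝ) ≤ ((q * Q : ℕ):ℝ) := by
        exact_mod_cast Nat.le_mul_of_pos_left Q hq
      have h3 : (n:ℝ) ^ (1 / 4 : ℝ) ≤ n := by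
        calc (n:ℝ) ^ (1 / 4 : ℝ) ≤ (n:ℝ) ^ (1 : ℝ) :=
              Real.rpow_le_rpow_of_exponent_le hn1 (by norm_num)
          _ = n := Real.rpow_one _
      linarith
    have hlogQ : Real.log Q ≤ Real.log n := by
      apply Real.log_le_log _ hQn
      exact_mod_cast hQ
    have hkey : 80 * (D * (7 * (1 + Real.log n)) * (1 + Real.log Q)) * (1 + Real.log n) ^ 2 ≤
        D ^ 2 := by
      have h1 : (1 + Real.log Q) ≤ 1 + Real.log n := by linarith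
      calc 80 * (D * (7 * (1 + Real.log n)) * (1 + Real.log Q)) * (1 + Real.log n) ^ 2
          = D * (560 * ((1 + Real.log n) ^ 3 * (1 + Real.log Q))) := by ring
        _ ≤ D * (560 * ((1 + Real.log n) ^ 3 * (1 + Real.log n))) := by gcongr
        _ = D * (560 * (1 + Real.log n) ^ 4) := by ring
        _ ≤ D * D := by gcongr
        _ = D ^ 2 := by ring
    have hpos : 0 < 80 * (D * (7 * (1 + Real.log n)) * (1 + Real.log Q)) *
        (1 + Real.log n) ^ 2 := by positivity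
    rw [pow_mul]
    exact div_le_div_of_nonneg_left hn0.le (pow_pos hpos _) (pow_le_pow_left₀ hpos.le hkey _)

end Pool.Agent.H44W
end

-- from Lib.H59P.CF0
section

/-!
# Project H59P, chunk CF0: coefficients from the model
-/

open Finset

namespace Pool.Agent.Lib.H59P

open Pool.Agent.Lib.H68T Pool.Agent.Lib.H18Q

/-- **CF0.** From `Mdl` with `E0 ≤ 1`: the coefficients `B m p = MX px th m p + e m p` satisfy `Cf` with
`mb p = [p = p0] + [p = px, px ≠ p0] + eb p`.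

Proof. `MX` is `1` at `p0`, `-th m` at `px` (`0 ≤ th m ≤ 1 - η ≤ 1`), `0` else, and varies by at most `Q^3/X`
(`Mdl.slow`); `∑ eb ≤ η E0 ≤ 1` (`Finset.sum_ite_eq`). The remaining conclusions are `LevE`. -/
theorem CF0 (Q X : ℕ) (η E0 : ℝ) (px : Ch) (th : ℤ → ℝ) (hQ : 1 ≤ Q) (hM : Mdl Q X η E0 px th)
    (hE : E0 ≤ 1) :
    ∃ (e : ℤ → Ch → ℂ) (eb mb : Ch → ℝ), (∀ p ∈ PC Q, 0 ≤ eb p) ∧ ∑ p ∈ PC Q, eb p ≤ η * E0 ∧
      (∀ m : ℤ, (X : ℤ) ≤ m → m ≤ 4 * X → ∀ p ∈ PC Q, ‖e m p‖ ≤ eb p) ∧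
      Cf Q X (fun m p => MX px th m p + e m p) mb := by
  classical
  have hQ0 : (0 : ℝ) ≤ (Q : ℝ) ^ 3 := by positivity
  obtain ⟨e, eb, heb0, hebs, hlev⟩ := hM.lev
  have hE1 : ∑ p ∈ PC Q, eb p ≤ 1 := by
    refine hebs.trans ?_
    have h1 := hM.eta_pos
    have h2 := hM.eta_le
    nlinarith
  let ma : Ch → ℝ := fun p => (if p = p0 then 1 else if p = px then 1 else 0)
  have hma0 : ∀ p, 0 ≤ ma p := by
    intro p
    change 0 ≤ (if p = p0 then (1 : ℝ) else if p = px then 1 else 0)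
    split_ifs <;> norm_num
  have hMXn : ∀ m : ℤ, (X : ℤ) ≤ m → m ≤ 4 * X → ∀ p, ‖MX px th m p‖ ≤ ma p := by
    intro m h1 h2 p
    change ‖MX px th m p‖ ≤ (if p = p0 then (1 : ℝ) else if p = px then 1 else 0)
    unfold MX
    split_ifs with h3 h4
    · simp
    · rw [norm_neg, Complex.norm_real, Real.norm_eq_abs, abs_of_nonneg (hM.nonneg m h1 h2)]
      linarith [hM.le m h1 h2, hM.eta_pos]
    · simp
  have hXm : ∀ m : ℤ, (X : ℤ) ≤ m → m + 1 ≤ 4 * X → ∀ p,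
      ‖MX px th (m + 1) p - MX px th m p‖ ≤ (Q : ℝ) ^ 3 / X := by
    intro m h1 h2 p
    have h0 : (0 : ℝ) ≤ (Q : ℝ) ^ 3 / X := div_nonneg hQ0 (Nat.cast_nonneg X)
    unfold MX
    split_ifs with h3 h4
    · simpa using h0
    · have h5 := hM.slow m h1 h2
      rw [neg_sub_neg, ← Complex.ofReal_sub, Complex.norm_real, Real.norm_eq_abs, abs_sub_comm]
      exact h5
    · simpa using h0
  refine ⟨e, eb, fun p => ma p + eb p, heb0, hebs, fun m h1 h2 p hp => ((hlev m h1 h2).2 p hp).1, ?_⟩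
  refine ⟨fun p hp => add_nonneg (hma0 p) (heb0 p hp), ?_, ?_, ?_, ?_⟩
  · rw [Finset.sum_add_distrib]
    have h1 : ∑ p ∈ PC Q, ma p ≤ 2 := by
      have h2 : ∀ p, ma p ≤ (if p = p0 then (1 : ℝ) else 0) + (if p = px then (1 : ℝ) else 0) := by
        intro p
        change (if p = p0 then (1 : ℝ) else if p = px then 1 else 0) ≤ _
        split_ifs <;> norm_num
      refine (Finset.sum_le_sum fun p _ => h2 p).trans ?_
      rw [Finset.sum_add_distrib, Finset.sum_ite_eq', Finset.sum_ite_eq']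
      split_ifs <;> norm_num
    linarith
  · intro m h1 h2 p hp
    exact (norm_add_le _ _).trans (add_le_add (hMXn m h1 h2 p) ((hlev m h1 h2).2 p hp).1)
  · intro m h1 h2 p hp
    have h3 := hXm m h1 h2 p
    have h4 := ((hlev m h1 (by omega)).2 p hp).2
    have h5 : MX px th (m + 1) p + e (m + 1) p - (MX px th m p + e m p) =
        (MX px th (m + 1) p - MX px th m p) + (e (m + 1) p - e m p) := by ring
    rw [h5]
    refine (norm_add_le _ _).trans ?_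
    have h6 : 2 * (Q : ℝ) ^ 3 / X = (Q : ℝ) ^ 3 / X + (Q : ℝ) ^ 3 / X := by ring
    rw [h6]
    exact add_le_add h3 h4
  · intro m h1 h2
    exact (hlev m h1 h2).1

end Pool.Agent.Lib.H59P
end

-- from Lib.H59P.S3
section

/-!
# Project H59P, chunk S3: telescoping
-/

open Finset

namespace Pool.Agent.Lib.H59P

open Pool.Agent.Lib.H68T Pool.Agent.Lib.H18Q

/-- Telescoping of a difference of products over `Fin k`.

Proof. Induction on `k` (`Fin.prod_univ_castSucc` or `Fin.prod_univ_succ`), or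
`Finset.prod_range`-telescoping: `T_j = ∏_{i<j} b_i ∏_{i≥j} a_i`, `T_0 = ∏ a`, `T_k = ∏ b`. -/
theorem S3 {k : ℕ} (a b : Fin k → ℝ) :
    ∏ i, a i - ∏ i, b i =
      ∑ j, ∏ i, (if i < j then b i else if i = j then a i - b i else a i) := by
  induction k with
  | zero => simp
  | succ k ih =>
    rw [Fin.sum_univ_succ, Fin.prod_univ_succ a, Fin.prod_univ_succ b]
    have h0 : ∏ i : Fin (k + 1), (if i < 0 then b i else if i = 0 then a i - b i else a i) =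
        (a 0 - b 0) * ∏ i : Fin k, a i.succ := by
      rw [Fin.prod_univ_succ]
      simp [Fin.succ_ne_zero]
    have h1 : ∀ j : Fin k, ∏ i : Fin (k + 1),
        (if i < j.succ then b i else if i = j.succ then a i - b i else a i) =
        b 0 * ∏ i : Fin k, (if i < j then b i.succ else if i = j then a i.succ - b i.succ
          else a i.succ) := by
      intro j
      rw [Fin.prod_univ_succ]
      simp only [Fin.succ_pos, if_true, Fin.succ_lt_succ_iff, Fin.succ_inj]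
    rw [h0, Finset.sum_congr rfl fun j _ => h1 j, ← Finset.mul_sum,
      ← ih (fun i => a i.succ) (fun i => b i.succ)]
    ring

end Pool.Agent.Lib.H59P
end

-- from Lib.H59T.UMG
section

/-!
# Project H59T, chunk UMG (M): the total mass of the coefficients, good levels
-/

open Finset

namespace Pool.Agent.Lib.H59T

open Pool.Agent.Lib.H68T Pool.Agent.Lib.H18Q Pool.Agent.Lib.H59P

open scoped Classical in
/-- Good levels. Proof. As `mdl_good` (`H59P/A3.lean`) with `kp = K`: `mb p = eb p` for `p ≠ p0` and `1 + eb p0` for `p0`, where `eb` is as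
there: `L1_good_q`, `cl1_B0`, `B_leP`. -/
theorem UM_good (c : ℝ) (hc : 0 < c) : ∃ K C : ℝ, 1 ≤ K ∧ 1 ≤ C ∧ ∀ Q X : ℕ, RegP K Q X → Good c Q →
    ∃ mb : Ch → ℝ, (∀ p ∈ PC Q, 0 ≤ mb p) ∧ ∑ p ∈ PC Q, mb p ≤ C ∧
      ∀ m : ℤ, (X : ℤ) ≤ m → m ≤ 4 * X → ∀ p ∈ PC Q, ‖Bc Q X p m‖ ≤ mb p := by
  classical
  obtain ⟨K1, C, hK1, hC, hL1⟩ := L1_good_q c hc
  obtain ⟨K2, hK2, hLip⟩ := Bc_lip
  obtain ⟨K3, hK3, hLk⟩ := Lk_SG
  obtain ⟨K4, hK4, hB0⟩ := cl1_B0
  obtain ⟨K5, hK5, hB⟩ := B_leP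
  refine ⟨max (max (max K1 K2) (max K3 K4)) (max K5 16), C + 2,
    hK1.trans ((le_max_left _ _).trans ((le_max_left _ _).trans (le_max_left _ _))), by linarith, ?_⟩
  intro Q X hreg hgood
  obtain ⟨kp, hkpd⟩ : ∃ kp, kp = max (max (max K1 K2) (max K3 K4)) (max K5 16) := ⟨_, rfl⟩
  have hkQ : kp * Real.log Q ≤ Real.log X := by rw [hkpd]; exact hreg.2.2
  have hkp : max (max (max K1 K2) (max K3 K4)) (max K5 16) ≤ kp := by rw [hkpd]
  obtain ⟨K, hKd⟩ : ∃ K, K = max (max (max K1 K2) (max K3 K4)) (max K5 16) := ⟨_, rfl⟩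
  rw [← hKd] at hreg hkp
  have k1 : K1 ≤ K := by rw [hKd]; exact (le_max_left _ _).trans ((le_max_left _ _).trans (le_max_left _ _))
  have k2 : K2 ≤ K := by rw [hKd]; exact (le_max_right _ _).trans ((le_max_left _ _).trans (le_max_left _ _))
  have k3 : K3 ≤ K := by rw [hKd]; exact (le_max_left _ _).trans ((le_max_right _ _).trans (le_max_left _ _))
  have k4 : K4 ≤ K := by rw [hKd]; exact (le_max_right _ _).trans ((le_max_right _ _).trans (le_max_left _ _))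
  have k5 : K5 ≤ K := by rw [hKd]; exact (le_max_left _ _).trans (le_max_right _ _)
  have k6 : 16 ≤ K := by rw [hKd]; exact (le_max_right _ _).trans (le_max_right _ _)
  clear hKd
  have hKp : 1 ≤ K := hK1.trans k1
  have hK0 : 0 ≤ K := by linarith
  have hQ1 : 1 ≤ Q := hreg.Q_pos hKp
  have hQ1' : (1 : ℝ) ≤ Q := by exact_mod_cast hQ1
  have hQK := hreg.Q_ge hKp
  have hX0 : (0 : ℝ) < X := by exact_mod_cast hreg.X_pos (by linarith)
  have hL := hL1 kp (by linarith) Q X (hreg.mono hK0 k1) hkQ hgood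
  obtain ⟨q, hq⟩ : ∃ q, q = (Q : ℝ) ^ (-(5 / 2) : ℝ) := ⟨_, rfl⟩
  have hq0 : 0 ≤ q := by rw [hq]; positivity
  obtain ⟨eb, heb⟩ : ∃ eb : (Σ r : ℕ, DirichletCharacter ℂ r) → ℝ, eb = fun p =>
    (if p = p0 then ∫ t in (-(Q : ℝ) ^ 7)..((Q : ℝ) ^ 7), ‖FL X p0 t - F0 X t‖
      else ∫ t in (-(Q : ℝ) ^ 7)..((Q : ℝ) ^ 7), ‖FL X p t‖) + q := ⟨_, rfl⟩
  have heb0 : ∀ p, 0 ≤ eb p := by
    intro p
    rw [heb]
    simp only
    split_ifs
    · exact add_nonneg (cl1_int_nonneg Q _) hq0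
    · exact add_nonneg (cl1_int_nonneg Q _) hq0
  have hsum : ∑ p ∈ PC Q, eb p ≤ C * Real.exp (-(kp / C)) + (Q : ℝ) ^ (-(1 / 4) : ℝ) := by
    have h1 : ∑ p ∈ PC Q, eb p =
        (∑ p ∈ PC Q, (if p = p0 then ∫ t in (-(Q : ℝ) ^ 7)..((Q : ℝ) ^ 7), ‖FL X p0 t - F0 X t‖
          else ∫ t in (-(Q : ℝ) ^ 7)..((Q : ℝ) ^ 7), ‖FL X p t‖)) + (PC Q).card * q := by
      rw [heb, Finset.sum_add_distrib, Finset.sum_const, nsmul_eq_mul]
    rw [h1, ph_split (PC Q) p0 (p0_mem hQ1) (fun p => p ≠ p0) (fun _ => Iff.rfl), if_pos rfl]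
    have h2 : ∑ p ∈ (PC Q).filter (fun p => p ≠ p0),
        (if p = p0 then ∫ t in (-(Q : ℝ) ^ 7)..((Q : ℝ) ^ 7), ‖FL X p0 t - F0 X t‖
          else ∫ t in (-(Q : ℝ) ^ 7)..((Q : ℝ) ^ 7), ‖FL X p t‖) =
        ∑ p ∈ (PC Q).filter (fun p => p ≠ p0), ∫ t in (-(Q : ℝ) ^ 7)..((Q : ℝ) ^ 7), ‖FL X p t‖ :=
      Finset.sum_congr rfl fun p hp => by rw [if_neg (mem_filter.1 hp).2]
    rw [h2]
    have h3 : ((PC Q).card : ℝ) * q ≤ 1 / Real.sqrt Q := by
      rw [← (cl1_Qpow hQ1).1, ← hq]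
      apply mul_le_mul_of_nonneg_right _ hq0
      exact_mod_cast card_PC_le Q
    have h4 := a3_q4 (Q := Q) (by linarith)
    have h5 := a3_inv (Q := Q) (by linarith)
    have h6 : 2 / Real.sqrt Q = 1 / Real.sqrt Q + 1 / Real.sqrt Q := by ring
    linarith
  have hE1 : C * Real.exp (-(kp / C)) + (Q : ℝ) ^ (-(1 / 4) : ℝ) ≤ C + 1 := by
    have h1 : Real.exp (-(kp / C)) ≤ 1 := by
      rw [Real.exp_le_one_iff]
      have : 0 ≤ kp / C := div_nonneg (by linarith) (by linarith)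
      linarith
    have h2 : (Q : ℝ) ^ (-(1 / 4) : ℝ) ≤ 1 :=
      Real.rpow_le_one_of_one_le_of_nonpos hQ1' (by norm_num)
    have h3 : C * Real.exp (-(kp / C)) ≤ C * 1 := mul_le_mul_of_nonneg_left h1 (by linarith)
    linarith
  refine ⟨fun p => eb p + (if p = p0 then 1 else 0), fun p _ => ?_, ?_, fun m hm hm4 p hp => ?_⟩
  · have := heb0 p
    beta_reduce
    split_ifs <;> linarith
  · rw [Finset.sum_add_distrib, Finset.sum_ite_eq' (PC Q) p0 (fun _ => (1 : ℝ)), if_pos (p0_mem hQ1)]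
    linarith
  · beta_reduce
    by_cases h : p = p0
    · rw [if_pos h, h]
      have h1 := hB0 Q X (hreg.mono hK0 k4) m hm hm4
      have h2 : ‖Bc Q X p0 m‖ ≤ ‖Bc Q X p0 m - 1‖ + 1 := by
        have h3 := norm_add_le (Bc Q X p0 m - 1) 1
        rw [sub_add_cancel, norm_one] at h3
        exact h3
      rw [← hq] at h1
      have h3 : eb p0 = (∫ t in (-(Q : ℝ) ^ 7)..((Q : ℝ) ^ 7), ‖FL X p0 t - F0 X t‖) + q := by
        rw [heb]
        beta_reduce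
        rw [if_pos rfl]
      rw [h3]
      linarith
    · rw [if_neg h, add_zero]
      have h1 := hB Q X (hreg.mono hK0 k5) p (mem_PC.1 hp).1 m hm hm4
      rw [← hq] at h1
      have h3 : eb p = (∫ t in (-(Q : ℝ) ^ 7)..((Q : ℝ) ^ 7), ‖FL X p t‖) + q := by
        rw [heb]
        beta_reduce
        rw [if_neg h]
      rw [h3]
      exact h1

end Pool.Agent.Lib.H59T
end

-- from Lib.H59T.UME
section

/-!
# Project H59T, chunk UME (M): the total mass of the coefficients, exceptional levels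
-/

open Finset

namespace Pool.Agent.Lib.H59T

open Pool.Agent.Lib.H68T Pool.Agent.Lib.H18Q Pool.Agent.Lib.H59P

open scoped Classical in
/-- Levels with an exceptional zero (`r ≤ Q` only). Proof. As `mdl_exc` (`H59P/A4.lean`) with `kp = K`, without the lower bound for `η`: `mb p = I p + q`
(`+ 1` for `p = p0`, `+ 1 + q'` for `p = ⟨r, ψ⟩`; `0 ≤ m^(β-1) ≤ 1`), `L1_exceptional_q` (`(1-β) log Q ≤ c1 < 1`), `cl1_B0`, `B_leP`,
`B1_leP`. -/
theorem UM_exc : ∃ c1 K C : ℝ, 0 < c1 ∧ c1 < 1 ∧ 1 ≤ K ∧ 1 ≤ C ∧ ∀ Q X : ℕ, RegP K Q X →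
    ∀ (r : ℕ) [NeZero r] (ψ : DirichletCharacter ℂ r), r ≤ Q → ψ.IsPrimitive → ψ ≠ 1 → ψ ^ 2 = 1 →
    ∀ β : ℝ, β < 1 → ψ.LFunction (β : ℂ) = 0 → (1 - β) * Real.log Q ≤ c1 →
    ∃ mb : Ch → ℝ, (∀ p ∈ PC Q, 0 ≤ mb p) ∧ ∑ p ∈ PC Q, mb p ≤ C ∧
      ∀ m : ℤ, (X : ℤ) ≤ m → m ≤ 4 * X → ∀ p ∈ PC Q, ‖Bc Q X p m‖ ≤ mb p := by
  classical
  obtain ⟨c1, K1, C1, hc1, hc11, hK1, hC1, hL1⟩ := L1_exceptional_q
  obtain ⟨K2, hK2, hLip⟩ := Bc_lip
  obtain ⟨K3, hK3, hLk⟩ := Lk_SG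
  obtain ⟨K4, hK4, hB0⟩ := cl1_B0
  obtain ⟨K5, hK5, hB⟩ := B_leP
  obtain ⟨K6, hK6, hB1⟩ := B1_leP
  refine ⟨c1, max (max (max K1 K2) (max K3 K4)) (max (max K5 K6) 256),
    C1 + 6, hc1, hc11,
    hK1.trans ((le_max_left _ _).trans ((le_max_left _ _).trans (le_max_left _ _))),
    by linarith, ?_⟩
  intro Q X hreg r _ ψ hr hprim hψ1 hψ2 β hβ hLβ hsmall
  obtain ⟨kp, hkpd⟩ : ∃ kp, kp = max (max (max K1 K2) (max K3 K4)) (max (max K5 K6) 256) := ⟨_, rfl⟩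
  have hkQ : kp * Real.log Q ≤ Real.log X := by rw [hkpd]; exact hreg.2.2
  have hkp : max (max (max K1 K2) (max K3 K4)) (max (max K5 K6) 256) ≤ kp := by rw [hkpd]
  obtain ⟨K, hKd⟩ : ∃ K, K = max (max (max K1 K2) (max K3 K4)) (max (max K5 K6) 256) := ⟨_, rfl⟩
  rw [← hKd] at hreg hkp
  have k1 : K1 ≤ K := by rw [hKd]; exact (le_max_left _ _).trans ((le_max_left _ _).trans (le_max_left _ _))
  have k2 : K2 ≤ K := by rw [hKd]; exact (le_max_right _ _).trans ((le_max_left _ _).trans (le_max_left _ _))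
  have k3 : K3 ≤ K := by rw [hKd]; exact (le_max_left _ _).trans ((le_max_right _ _).trans (le_max_left _ _))
  have k4 : K4 ≤ K := by rw [hKd]; exact (le_max_right _ _).trans ((le_max_right _ _).trans (le_max_left _ _))
  have k5 : K5 ≤ K := by rw [hKd]; exact (le_max_left _ _).trans ((le_max_left _ _).trans (le_max_right _ _))
  have k6 : K6 ≤ K := by rw [hKd]; exact (le_max_right _ _).trans ((le_max_left _ _).trans (le_max_right _ _))
  have k7 : 256 ≤ K := by rw [hKd]; exact (le_max_right _ _).trans (le_max_right _ _)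
  clear hKd
  have hKp : 1 ≤ K := hK1.trans k1
  have hK0 : 0 ≤ K := by linarith
  have hQ1 : 1 ≤ Q := hreg.Q_pos hKp
  have hQ1' : (1 : ℝ) ≤ Q := by exact_mod_cast hQ1
  have hQK := hreg.Q_ge hKp
  have hlQ := hreg.logQ_ge hKp
  have hX1 : 1 ≤ X := hreg.X_pos (by linarith)
  have hX0 : (0 : ℝ) < X := by exact_mod_cast hX1
  have hr0 : 1 ≤ r := Nat.pos_of_ne_zero (NeZero.ne r)
  have hη : 0 < 1 - β := by linarith
  have hβ12 : 1 / 2 ≤ β := by
    by_contra hcon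
    have h1 : (1 / 2 : ℝ) ≤ 1 - β := by linarith [not_le.1 hcon]
    have h2 : (1 / 2 : ℝ) * 3 ≤ (1 - β) * Real.log Q :=
      mul_le_mul h1 (by linarith) (by norm_num) hη.le
    linarith
  have hL := hL1 kp (by linarith) Q X (hreg.mono hK0 k1) hkQ r ψ hr hprim hψ1 hψ2 β hβ hLβ hsmall
  have hmemψ : (⟨r, ψ⟩ : Σ r : ℕ, DirichletCharacter ℂ r) ∈ PC Q :=
    mem_PC.2 ⟨hr0, hr, hprim⟩
  have hneψ : (⟨r, ψ⟩ : Σ r : ℕ, DirichletCharacter ℂ r) ≠ p0 := by
    intro h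
    unfold p0 at h
    obtain ⟨h1, h2⟩ := Sigma.mk.inj_iff.1 h
    subst h1
    exact hψ1 (eq_of_heq h2)
  obtain ⟨x, hxd⟩ : ∃ x, x = (1 - β) * Real.log Q := ⟨_, rfl⟩
  have hx0 : 0 < x := by rw [hxd]; exact mul_pos hη (by linarith)
  rw [← hxd] at hsmall hL
  obtain ⟨q, hq⟩ : ∃ q, q = (Q : ℝ) ^ (-(5 / 2) : ℝ) := ⟨_, rfl⟩
  have hq0 : 0 ≤ q := by rw [hq]; positivity
  obtain ⟨q', hq'⟩ : ∃ q', q' = (Q : ℝ) ^ (-(3 / 2) : ℝ) := ⟨_, rfl⟩
  have hq'0 : 0 ≤ q' := by rw [hq']; positivity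
  obtain ⟨I, hI⟩ : ∃ I : (Σ r : ℕ, DirichletCharacter ℂ r) → ℝ, I = fun p =>
    (if p = p0 then ∫ t in (-(Q : ℝ) ^ 7)..((Q : ℝ) ^ 7), ‖FL X p0 t - F0 X t‖
      else if p = ⟨r, ψ⟩ then ∫ t in (-(Q : ℝ) ^ 7)..((Q : ℝ) ^ 7), ‖FL X ⟨r, ψ⟩ t + Fb X β t‖
      else ∫ t in (-(Q : ℝ) ^ 7)..((Q : ℝ) ^ 7), ‖FL X p t‖) := ⟨_, rfl⟩
  have hI0 : ∀ p, 0 ≤ I p := by
    intro p
    rw [hI]
    simp only
    split_ifs
    · exact cl1_int_nonneg Q _
    · exact cl1_int_nonneg Q _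
    · exact cl1_int_nonneg Q _
  obtain ⟨eb, heb⟩ : ∃ eb : (Σ r : ℕ, DirichletCharacter ℂ r) → ℝ, eb = fun p =>
    I p + q + (if p = ⟨r, ψ⟩ then q' else 0) := ⟨_, rfl⟩
  have heb0 : ∀ p, 0 ≤ eb p := by
    intro p
    rw [heb]
    have := hI0 p
    simp only
    split_ifs <;> linarith
  have hIsum : ∑ p ∈ PC Q, I p ≤ (C1 * Real.exp (-(kp / C1)) + 1 / Q) * x := by
    rw [ph_split (PC Q) p0 (p0_mem hQ1) (fun p => p ≠ p0) (fun _ => Iff.rfl),
      ph_split ((PC Q).filter (fun p => p ≠ p0)) ⟨r, ψ⟩ (mem_filter.2 ⟨hmemψ, hneψ⟩)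
        (fun p => p ≠ ⟨r, ψ⟩) (fun _ => Iff.rfl)]
    have hfilt : ((PC Q).filter (fun p => p ≠ p0)).filter (fun p => p ≠ ⟨r, ψ⟩) =
        (PC Q).filter (fun p => p ≠ p0 ∧ p ≠ ⟨r, ψ⟩) := by
      ext p
      simp only [mem_filter]
      tauto
    rw [hfilt]
    have e1 : I p0 = ∫ t in (-(Q : ℝ) ^ 7)..((Q : ℝ) ^ 7), ‖FL X p0 t - F0 X t‖ := by
      rw [hI]
      beta_reduce
      rw [if_pos rfl]
    have e2 : I ⟨r, ψ⟩ = ∫ t in (-(Q : ℝ) ^ 7)..((Q : ℝ) ^ 7), ‖FL X ⟨r, ψ⟩ t + Fb X β t‖ := by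
      rw [hI]
      beta_reduce
      rw [if_neg hneψ, if_pos rfl]
    have e3 : ∑ p ∈ (PC Q).filter (fun p => p ≠ p0 ∧ p ≠ ⟨r, ψ⟩), I p =
        ∑ p ∈ (PC Q).filter (fun p => p ≠ p0 ∧ p ≠ ⟨r, ψ⟩),
          ∫ t in (-(Q : ℝ) ^ 7)..((Q : ℝ) ^ 7), ‖FL X p t‖ := by
      refine Finset.sum_congr rfl fun p hp => ?_
      rw [hI]
      simp only
      rw [if_neg (mem_filter.1 hp).2.1, if_neg (mem_filter.1 hp).2.2]
    rw [e1, e2, e3]
    linarith
  have hXr : (1 : ℝ) ≤ X := by exact_mod_cast hX1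
  have hx1 : x ≤ 1 := by linarith
  have hqle : q ≤ 1 := by
    rw [hq]
    exact Real.rpow_le_one_of_one_le_of_nonpos hQ1' (by norm_num)
  have hq'le : q' ≤ 1 := by
    rw [hq']
    exact Real.rpow_le_one_of_one_le_of_nonpos hQ1' (by norm_num)
  have hIle : ∑ p ∈ PC Q, I p ≤ C1 + 1 := by
    have h1 : Real.exp (-(kp / C1)) ≤ 1 := by
      rw [Real.exp_le_one_iff]
      have : 0 ≤ kp / C1 := div_nonneg (by linarith) (by linarith)
      linarith
    have h2 : 1 / (Q : ℝ) ≤ 1 := by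
      rw [div_le_one (by linarith)]
      exact hQ1'
    have h3 : C1 * Real.exp (-(kp / C1)) ≤ C1 * 1 := mul_le_mul_of_nonneg_left h1 (by linarith)
    have h4 : 0 ≤ C1 * Real.exp (-(kp / C1)) + 1 / Q := by positivity
    have h5 : (C1 * Real.exp (-(kp / C1)) + 1 / Q) * x ≤ (C1 * Real.exp (-(kp / C1)) + 1 / Q) * 1 :=
      mul_le_mul_of_nonneg_left hx1 h4
    linarith
  refine ⟨fun p => eb p + (if p = p0 then 1 else 0) + (if p = ⟨r, ψ⟩ then 1 else 0), fun p _ => ?_, ?_,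
    fun m hm hm4 p hp => ?_⟩
  · have := heb0 p
    beta_reduce
    split_ifs <;> linarith
  · rw [Finset.sum_add_distrib, Finset.sum_add_distrib, Finset.sum_ite_eq' (PC Q) p0 (fun _ => (1 : ℝ)),
      if_pos (p0_mem hQ1), Finset.sum_ite_eq' (PC Q) _ (fun _ => (1 : ℝ)), if_pos hmemψ]
    have h1 : ∑ p ∈ PC Q, eb p = ∑ p ∈ PC Q, I p + (PC Q).card * q + q' := by
      rw [heb, Finset.sum_add_distrib, Finset.sum_add_distrib, Finset.sum_const, nsmul_eq_mul,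
        Finset.sum_ite_eq' (PC Q) _ (fun _ => q'), if_pos hmemψ]
    have h3 : ((PC Q).card : ℝ) * q ≤ 1 / Real.sqrt Q := by
      rw [← (cl1_Qpow hQ1).1, ← hq]
      apply mul_le_mul_of_nonneg_right _ hq0
      exact_mod_cast card_PC_le Q
    have h4 : 1 / Real.sqrt Q ≤ 1 := by
      rw [div_le_one (Real.sqrt_pos.2 (by linarith))]
      exact Real.one_le_sqrt.2 hQ1'
    rw [h1]
    linarith
  · have hm1 : (1 : ℝ) ≤ (m : ℝ) := by
      have : (1 : ℤ) ≤ m := by omega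
      exact_mod_cast this
    beta_reduce
    by_cases h : p = p0
    · have h'' : p0 ≠ (⟨r, ψ⟩ : Σ r : ℕ, DirichletCharacter ℂ r) := fun h3 => hneψ h3.symm
      rw [h, if_pos rfl, if_neg h'', add_zero]
      have h1 := hB0 Q X (hreg.mono hK0 k4) m hm hm4
      rw [← hq] at h1
      have h2 : ‖Bc Q X p0 m‖ ≤ ‖Bc Q X p0 m - 1‖ + 1 := by
        have h3 := norm_add_le (Bc Q X p0 m - 1) 1
        rw [sub_add_cancel, norm_one] at h3
        exact h3
      have h3 : eb p0 = (∫ t in (-(Q : ℝ) ^ 7)..((Q : ℝ) ^ 7), ‖FL X p0 t - F0 X t‖) + q := by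
        rw [heb, hI]
        beta_reduce
        rw [if_pos rfl, if_neg h'', add_zero]
      rw [h3]
      linarith
    · by_cases h' : p = ⟨r, ψ⟩
      · rw [if_neg h, if_pos h', h', add_zero]
        have h1 := hB1 Q X (hreg.mono hK0 k6) ⟨r, ψ⟩ hr0 β hβ12 hβ.le m hm hm4
        rw [← hq'] at h1
        have h2 : ‖(((m : ℝ) ^ (β - 1) : ℝ) : ℂ)‖ ≤ 1 := by
          rw [Complex.norm_real, Real.norm_eq_abs, abs_of_nonneg (Real.rpow_nonneg (by linarith) _)]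
          exact Real.rpow_le_one_of_one_le_of_nonpos hm1 (by linarith)
        have h3 : eb ⟨r, ψ⟩ = (∫ t in (-(Q : ℝ) ^ 7)..((Q : ℝ) ^ 7), ‖FL X ⟨r, ψ⟩ t + Fb X β t‖) + q + q' := by
          rw [heb, hI]
          beta_reduce
          rw [if_neg hneψ, if_pos rfl, if_pos rfl]
        rw [h3]
        have h4 := norm_sub_le (Bc Q X ⟨r, ψ⟩ m + (((m : ℝ) ^ (β - 1) : ℝ) : ℂ)) (((m : ℝ) ^ (β - 1) : ℝ) : ℂ)
        rw [add_sub_cancel_right] at h4
        have h5 : ‖Bc Q X ⟨r, ψ⟩ m + (((m : ℝ) ^ (β - 1) : ℝ) : ℂ)‖ ≤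
            (∫ t in (-(Q : ℝ) ^ 7)..((Q : ℝ) ^ 7), ‖FL X ⟨r, ψ⟩ t + Fb X β t‖) + q' := h1
        linarith
      · rw [if_neg h, if_neg h', add_zero, add_zero]
        have h1 := hB Q X (hreg.mono hK0 k5) p (mem_PC.1 hp).1 m hm hm4
        rw [← hq] at h1
        have h3 : eb p = (∫ t in (-(Q : ℝ) ^ 7)..((Q : ℝ) ^ 7), ‖FL X p t‖) + q := by
          rw [heb, hI]
          beta_reduce
          rw [if_neg h, if_neg h', if_neg h', add_zero]
        rw [h3]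
        exact h1

end Pool.Agent.Lib.H59T
end

-- from Lib.H59T.UM
section

/-!
# Project H59T, chunk UM (S/M): the total mass of the coefficients
-/

open Finset

namespace Pool.Agent.Lib.H59T

open Pool.Agent.Lib.H68T Pool.Agent.Lib.H18Q Pool.Agent.Lib.H59P

/-- **The total mass.** Proof. `UM_exc` gives `c1`. If `Good c1 Q`: `UM_good` with `c = c1`. Otherwise (definition of `Good`) there is an
exceptional zero `σ ≤ 1`, `1 - c1/log Q ≤ σ`; `σ < 1` by `DirichletCharacter.LFunction_apply_one_ne_zero` (`ψ ≠ 1`). -/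
theorem UM_mass : ∃ K C : ℝ, 1 ≤ K ∧ 1 ≤ C ∧ ∀ Q X : ℕ, RegP K Q X →
    ∃ mb : Ch → ℝ, (∀ p ∈ PC Q, 0 ≤ mb p) ∧ ∑ p ∈ PC Q, mb p ≤ C ∧
      ∀ m : ℤ, (X : ℤ) ≤ m → m ≤ 4 * X → ∀ p ∈ PC Q, ‖Bc Q X p m‖ ≤ mb p := by
  obtain ⟨c1, K1, C1, hc1, hc11, hK1, hC1, h1⟩ := UM_exc
  obtain ⟨K2, C2, hK2, hC2, h2⟩ := UM_good c1 hc1
  refine ⟨max (max K1 K2) 1, max C1 C2, le_max_right _ _, hC1.trans (le_max_left _ _),
    fun Q X hreg => ?_⟩
  have hK0 : 0 ≤ max (max K1 K2) 1 := zero_le_one.trans (le_max_right _ _)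
  have hQ := hreg.logQ_ge (le_max_right _ _)
  by_cases hg : Good c1 Q
  · obtain ⟨mb, a1, a2, a3⟩ := h2 Q X (hreg.mono hK0 ((le_max_right _ _).trans (le_max_left _ _))) hg
    exact ⟨mb, a1, a2.trans (le_max_right _ _), a3⟩
  · unfold Good at hg
    push Not at hg
    obtain ⟨r, _, ψ, hr, hp, hne, hsq, σ, hσ, hσ1, hL⟩ := hg
    have hlt : σ < 1 := by
      refine lt_of_le_of_ne hσ1 fun h => ?_
      rw [h, Complex.ofReal_one] at hL
      exact DirichletCharacter.LFunction_apply_one_ne_zero hne hL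
    have hlQ : 0 < Real.log Q := by
      have : (0 : ℝ) < max (max K1 K2) 1 := lt_of_lt_of_le one_pos (le_max_right _ _)
      linarith
    have hsm : (1 - σ) * Real.log Q ≤ c1 := by
      have h3 : 1 - σ ≤ c1 / Real.log Q := by linarith
      calc (1 - σ) * Real.log Q ≤ c1 / Real.log Q * Real.log Q :=
            mul_le_mul_of_nonneg_right h3 hlQ.le
        _ = c1 := div_mul_cancel₀ _ hlQ.ne'
    obtain ⟨mb, a1, a2, a3⟩ := h1 Q X (hreg.mono hK0 ((le_max_left _ _).trans (le_max_left _ _)))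
      r ψ hr hp hne hsq σ hlt hL hsm
    exact ⟨mb, a1, a2.trans (le_max_left _ _), a3⟩

end Pool.Agent.Lib.H59T
end
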