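import Mathlib

/-! Merged copies (to shorten the build) of Lib.H15P.Defs, Lib.H15P.PB1, Lib.H56G.Defs, Lib.H15P.NT2, Lib.H15P.PB3, Lib.H56G.Crt, Lib.H15P.TR1, Lib.H15P.TR2, Lib.H15P.TR3, Lib.H59C.PVI, Lib.Helper57.Bonferroni, Lib.Helper57.Count, Lib.Helper57.Transfer, Lib.Helper57.Sieve, Lib.H59C.LSA0, Lib.H59C.SEP, Lib.PNT.Fejer, Lib.PNT.WienerIkehara, Lib.PNT.Dirichlet, Lib.PNT.PNT. -/

-- from Lib.H15P.Defs
section

/-!
# H15P: definitions

`ι` = index type of the primes, `J` = index type of the forms `b j + M t`, `I` = labels (scales).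
-/

open Finset

namespace Pool.Agent.Lib.H15P

/-- Bernoulli weight of the set `A` (the element `i` is chosen with probability `q i`). -/
noncomputable def bw {ι : Type} [Fintype ι] [DecidableEq ι] (q : ι → ℝ) (A : Finset ι) : ℝ :=
  ∏ i, if i ∈ A then q i else 1 - q i

/-- Expectation of a function of one random set. -/
noncomputable def ex {ι : Type} [Fintype ι] [DecidableEq ι] (q : ι → ℝ)
    (F : Finset ι → ℝ) : ℝ := ∑ A : Finset ι, F A * bw q A

/-- Expectation of a function of a family of independent random sets. -/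
noncomputable def EX {ι J : Type} [Fintype ι] [DecidableEq ι] [Fintype J] [DecidableEq J]
    (q : ι → ℝ) (F : (J → Finset ι) → ℝ) : ℝ :=
  ∑ S : J → Finset ι, F S * ∏ j, bw q (S j)

/-- Number of the forms with label `i`. -/
def cnt {J I : Type} [Fintype J] [DecidableEq I] (l : J → Option I) (i : I) : ℕ :=
  (univ.filter (fun j => l j = some i)).card

/-- Admissible labelings: only forms of `B` are labelled, at most `m i` of them with label `i`. -/
def adm {J I : Type} [Fintype J] [DecidableEq J] [Fintype I] [DecidableEq I]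
    (B : Finset J) (m : I → ℕ) : Finset (J → Option I) :=
  univ.filter (fun l => (∀ j, j ∉ B → l j = none) ∧ ∀ i, cnt l i ≤ m i)





/-- Second moments of the factors. -/
noncomputable def GG {ι I : Type} [Fintype ι] [DecidableEq ι] [Fintype I] (q : ι → ℝ)
    (D : I → Finset ι → ℝ) : Option I → ℝ
  | none => 1
  | some i => ex q (fun A => D i A ^ 2) / (Fintype.card I : ℝ) ^ 2

/-- Total weight of all labelings of `k` forms. -/
noncomputable def ZZ {ι I : Type} [Fintype ι] [DecidableEq ι] [Fintype I] (q : ι → ℝ)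
    (D : I → Finset ι → ℝ) (k : ℕ) : ℝ := (1 + ∑ i, GG q D (some i)) ^ k

/-- The hypotheses on the one form functions `D i`. -/
structure Good {ι I : Type} [Fintype ι] [DecidableEq ι] (q : ι → ℝ)
    (D : I → Finset ι → ℝ) (h : ℝ) : Prop where
  q0 : ∀ i, 0 ≤ q i
  q1 : ∀ i, q i ≤ 1
  empty : ∀ i, D i ∅ = 1
  mean : ∀ i, ex q (D i) = 0
  orth : ∀ i i', i ≠ i' → ex q (fun A => D i A * D i' A) = 0
  sq : ∀ i, ex q (fun A => D i A ^ 2) ≤ h
  fourth : ∀ i, ex q (fun A => D i A ^ 4) ≤ h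

/-! ## Forms -/

/-- The primes of `P` which divide `e`. -/
def hit (P : Finset ℕ) (e : ℕ) : Finset {p // p ∈ P} := univ.filter (fun p => p.1 ∣ e)

/-- The probabilities: `1/p`, slightly increased (`K` = bound for the number of forms). -/
noncomputable def qq (P : Finset ℕ) (K : ℕ) (p : {p // p ∈ P}) : ℝ :=
  (1 / (p.1 : ℝ) + 2 * K / (p.1 : ℝ) ^ 2) / (1 + 2 * K / (p.1 : ℝ) ^ 2)

/-- Hypotheses on the primes `P` and the forms `b j + M t`. -/
structure Forms {J : Type} [Fintype J] (P : Finset ℕ) (W K M : ℕ) (b : J → ℕ) : Prop where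
  prime : ∀ p ∈ P, p.Prime
  big : ∀ p ∈ P, W < p
  cop : ∀ p ∈ P, ¬ p ∣ M
  dist : ∀ p ∈ P, ∀ j j', j ≠ j' → ¬ (b j ≡ b j' [MOD p])
  one_le : 1 ≤ K
  card : Fintype.card J ≤ K
  KW : 4 * K ^ 2 ≤ W

/-- Mean value over a full period. -/
noncomputable def EP {J : Type} (P : Finset ℕ) (M : ℕ) (b : J → ℕ)
    (F : (J → Finset {p // p ∈ P}) → ℝ) : ℝ :=
  (∑ t ∈ range (∏ p ∈ P, p), F (fun j => hit P (b j + M * t))) / ((∏ p ∈ P, p : ℕ) : ℝ)

/-- `G` is a finite sum of functions `g` with periods `d ∣ Q` such that `Σ d ‖g‖ ≤ K`. -/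
inductive Lev (Q : ℕ) : (ℕ → ℝ) → ℝ → Prop
  | base (g : ℕ → ℝ) (d : ℕ) (c : ℝ) (hd0 : 0 < d) (hd : d ∣ Q) (hper : Function.Periodic g d)
      (hc : ∀ t, |g t| ≤ c) : Lev Q g (d * c)
  | add (G G' : ℕ → ℝ) (K K' : ℝ) (h : Lev Q G K) (h' : Lev Q G' K') :
      Lev Q (fun t => G t + G' t) (K + K')
  | mono (G : ℕ → ℝ) (K K' : ℝ) (h : Lev Q G K) (hK : K ≤ K') : Lev Q G K'

/-- Level of a function of the set of the primes dividing a form. -/
def LevS (P : Finset ℕ) (F : Finset {p // p ∈ P} → ℝ) (K : ℝ) : Prop :=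
  ∀ M b : ℕ, Lev (∏ p ∈ P, p) (fun t => F (hit P (b + M * t))) K

/-! ## Blocks of primes and Brun-Hooley functions -/

/-- The part of `A` in the block `b`. -/
def AB {ι : Type} (blk : ι → ℕ) (b : ℕ) (A : Finset ι) : Finset ι := A.filter (fun i => blk i = b)

/-- `Σ_{l ≤ 2r} (-1)^l (s choose l)` -/
noncomputable def TT (r s : ℕ) : ℝ := ∑ l ∈ range (2 * r + 1), (-1 : ℝ) ^ l * (s.choose l : ℝ)

/-- Probability that no element of the block `b` is chosen. -/
noncomputable def p0 {ι : Type} [Fintype ι] (q : ι → ℝ) (blk : ι → ℕ) (b : ℕ) : ℝ :=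
  ∏ i ∈ univ.filter (fun i => blk i = b), (1 - q i)


/-- Mean value of the factor of the block `i`. -/
noncomputable def tau {ι : Type} [Fintype ι] [DecidableEq ι] (q : ι → ℝ) (blk : ι → ℕ)
    (r0 i : ℕ) : ℝ := ex q (fun A => TT r0 (AB blk i A).card)

/-- The one form function of the scale `i`. -/
noncomputable def DB {ι : Type} [Fintype ι] [DecidableEq ι] (q : ι → ℝ) (blk : ι → ℕ)
    (r0 N i : ℕ) (A : Finset ι) : ℝ :=
  (∏ b ∈ Ico (i + 1) N, TT (r0 + (b - i)) (AB blk b A).card) *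
    ((TT r0 (AB blk i A).card - tau q blk r0 i) / (1 - tau q blk r0 i))

/-- Sum of the primes of a block. -/
noncomputable def XB {ι : Type} [Fintype ι] (pr : ι → ℕ) (blk : ι → ℕ) (b : ℕ) : ℝ :=
  ∑ i ∈ univ.filter (fun i => blk i = b), (pr i : ℝ)

/-! ## The concrete choice -/

/-- The primes `p` with `W < p`, `log p ≤ T`. -/
noncomputable def PP (W : ℕ) (T : ℝ) : Finset ℕ := (Ioc W ⌊Real.exp T⌋₊).filter Nat.Prime

/-- The block of `p`: `T / κ^(b+1) < log p ≤ T / κ^b`. -/
noncomputable def bk (κ : ℕ) (T : ℝ) (p : ℕ) : ℕ := Nat.log κ ⌊T / Real.log p⌋₊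

end Pool.Agent.Lib.H15P
end

-- from Lib.H15P.PB1
section

/-!
# Chunk PB1: expectations
-/

open Finset

namespace Pool.Agent.Lib.H15P

variable {ι J : Type} [Fintype ι] [DecidableEq ι] [Fintype J] [DecidableEq J]

theorem bw_nonneg (q : ι → ℝ) (h0 : ∀ i, 0 ≤ q i) (h1 : ∀ i, q i ≤ 1) (A : Finset ι) :
    0 ≤ bw q A := by
  unfold bw
  refine prod_nonneg fun i _ => ?_
  split_ifs
  · exact h0 i
  · linarith [h1 i]

/-- `∏ (q i + (1 - q i)) = 1` (`Finset.prod_add`). -/
theorem sum_bw (q : ι → ℝ) : ∑ A : Finset ι, bw q A = 1 := by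
  have h := Finset.prod_add (fun i => q i) (fun i => 1 - q i) (univ : Finset ι)
  have h1 : ∏ i : ι, (q i + (1 - q i)) = 1 := prod_eq_one fun i _ => by ring
  rw [h1, powerset_univ] at h
  rw [h]
  refine sum_congr rfl fun A _ => ?_
  unfold bw
  rw [← prod_mul_prod_compl A (fun i => if i ∈ A then q i else 1 - q i), compl_eq_univ_sdiff]
  congr 1
  · exact prod_congr rfl fun i hi => by rw [if_pos hi]
  · exact prod_congr rfl fun i hi => by rw [if_neg (mem_sdiff.1 hi).2]

theorem ex_one (q : ι → ℝ) : ex q (fun _ => 1) = 1 := by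
  unfold ex
  simp only [one_mul]
  exact sum_bw q

theorem ex_const_mul (q : ι → ℝ) (c : ℝ) (F : Finset ι → ℝ) :
    ex q (fun A => c * F A) = c * ex q F := by
  unfold ex
  rw [mul_sum]
  exact sum_congr rfl fun A _ => by ring

theorem ex_add (q : ι → ℝ) (F G : Finset ι → ℝ) :
    ex q (fun A => F A + G A) = ex q F + ex q G := by
  unfold ex
  rw [← sum_add_distrib]
  exact sum_congr rfl fun A _ => by ring

theorem ex_mono (q : ι → ℝ) (h0 : ∀ i, 0 ≤ q i) (h1 : ∀ i, q i ≤ 1) (F G : Finset ι → ℝ)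
    (h : ∀ A, F A ≤ G A) : ex q F ≤ ex q G := by
  unfold ex
  exact sum_le_sum fun A _ => mul_le_mul_of_nonneg_right (h A) (bw_nonneg q h0 h1 A)

theorem ex_nonneg (q : ι → ℝ) (h0 : ∀ i, 0 ≤ q i) (h1 : ∀ i, q i ≤ 1) (F : Finset ι → ℝ)
    (h : ∀ A, 0 ≤ F A) : 0 ≤ ex q F := by
  unfold ex
  exact sum_nonneg fun A _ => mul_nonneg (h A) (bw_nonneg q h0 h1 A)

/-- Independence (`Finset.prod_univ_sum`, `Fintype.piFinset_univ`). -/
theorem EX_prod (q : ι → ℝ) (F : J → Finset ι → ℝ) :
    EX q (fun S : J → Finset ι => ∏ j, F j (S j)) = ∏ j, ex q (F j) := by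
  unfold EX ex
  rw [Finset.prod_univ_sum, Fintype.piFinset_univ]
  exact sum_congr rfl fun S _ => by rw [prod_mul_distrib]


theorem EX_sum {α : Type} (q : ι → ℝ) (s : Finset α) (F : α → (J → Finset ι) → ℝ) :
    EX q (fun S => ∑ a ∈ s, F a S) = ∑ a ∈ s, EX q (F a) := by
  unfold EX
  rw [sum_comm]
  exact sum_congr rfl fun S _ => by rw [sum_mul]

theorem EX_const_mul (q : ι → ℝ) (c : ℝ) (F : (J → Finset ι) → ℝ) :
    EX q (fun S => c * F S) = c * EX q F := by
  unfold EX
  rw [mul_sum]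
  exact sum_congr rfl fun A _ => by ring

theorem EX_mono (q : ι → ℝ) (h0 : ∀ i, 0 ≤ q i) (h1 : ∀ i, q i ≤ 1)
    (F G : (J → Finset ι) → ℝ) (h : ∀ S, F S ≤ G S) : EX q F ≤ EX q G := by
  unfold EX
  exact sum_le_sum fun S _ => mul_le_mul_of_nonneg_right (h S)
    (prod_nonneg fun j _ => bw_nonneg q h0 h1 (S j))

theorem EX_nonneg (q : ι → ℝ) (h0 : ∀ i, 0 ≤ q i) (h1 : ∀ i, q i ≤ 1)
    (F : (J → Finset ι) → ℝ) (h : ∀ S, 0 ≤ F S) : 0 ≤ EX q F := by
  unfold EX
  exact sum_nonneg fun S _ => mul_nonneg (h S)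
    (prod_nonneg fun j _ => bw_nonneg q h0 h1 (S j))


end Pool.Agent.Lib.H15P
end

-- from Lib.H56G.Defs
section

/-!
# H56G: definitions (linear forms `b j + M t`, `t = 1, 2, ..`, and divisor-type functions of them)

`ι` = (index type of) a finite set of primes `pr i`; `J` = index type of the linear forms.
A configuration `κ : ι → Option J` gives to a form `j` the primes `i` with `κ i = some j`;
`κ i = none` means that the prime `i` is not used.
-/

open Finset

namespace Pool.Agent.Lib.H56G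

/-- Distinct primes `pr i` and linear forms `b j + M * t` such that no `pr i` divides `M` or
one of the differences `b j - b j'`. -/
structure Sys (ι J : Type) where
  pr : ι → ℕ
  prime : ∀ i, (pr i).Prime
  inj : Function.Injective pr
  M : ℕ
  b : J → ℕ
  copM : ∀ i, ¬ pr i ∣ M
  dist : ∀ i j j', j ≠ j' → ¬ (b j ≡ b j' [MOD pr i])

variable {ι J : Type} [Fintype ι] [DecidableEq ι] [Fintype J] [DecidableEq J]

/-- the primes which are used -/
def supp (κ : ι → Option J) : Finset ι := univ.filter (fun i => (κ i).isSome)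

/-- the primes which are not used -/
def free (κ : ι → Option J) : Finset ι := univ.filter (fun i => κ i = none)

/-- the primes given to the form `j` -/
def part (κ : ι → Option J) (j : J) : Finset ι := univ.filter (fun i => κ i = some j)



namespace Sys

variable (s : Sys ι J)

/-- `u_p^j(t) = 1 - p [p ∣ f_j(t)]` -/
noncomputable def u (i : ι) (j : J) (t : ℕ) : ℝ :=
  if s.pr i ∣ s.b j + s.M * t then 1 - (s.pr i : ℝ) else 1

/-- product of the `u_p^j` over the used primes -/
noncomputable def U (κ : ι → Option J) (t : ℕ) : ℝ :=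
  ∏ i, (κ i).elim 1 (fun j => s.u i j t)

/-- product of a set of primes -/
noncomputable def rho (A : Finset ι) : ℝ := ∏ i ∈ A, (s.pr i : ℝ)

/-- Euler function of a product of primes -/
noncomputable def phi (A : Finset ι) : ℝ := ∏ i ∈ A, ((s.pr i : ℝ) - 1)

/-- level of a configuration -/
noncomputable def r (κ : ι → Option J) : ℝ := s.rho (supp κ)




/-- `Σ_A 1/φ(A)` over the sets of free primes with product at most `D` -/
noncomputable def VV (D : ℝ) (κ : ι → Option J) : ℝ :=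
  ∑ A ∈ (free κ).powerset.filter (fun A => s.rho A ≤ D), 1 / s.phi A

end Sys


/-- one form part of the coefficients -/
noncomputable def gam (bb : Finset ι → ℝ) (A : Finset ι) : ℝ := if A = ∅ then 1 else - bb A


/-- weight of one part -/
noncomputable def vv (s : Sys ι J) (bb : Finset ι → ℝ) (A : Finset ι) : ℝ :=
  (gam bb A) ^ 2 * s.phi A

/-- weight of a configuration -/
noncomputable def wt (s : Sys ι J) (bb : Finset ι → ℝ) (κ : ι → Option J) : ℝ :=
  ∏ j, vv s bb (part κ j)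

/-- total weight -/
noncomputable def ZZ (s : Sys ι J) (bb : Finset ι → ℝ) : ℝ := ∑ κ, wt s bb κ

/-- `Σ 1/(φ(A) log ρ(A))` over the nonempty sets of primes with product at most `z` -/
noncomputable def SS (s : Sys ι J) (z : ℝ) : ℝ :=
  ∑ A ∈ (univ : Finset (Finset ι)).filter (fun A => A ≠ ∅ ∧ s.rho A ≤ z),
    1 / (s.phi A * Real.log (s.rho A))

/-- the weight `1/(S φ(A) log ρ(A))` -/
noncomputable def bw (s : Sys ι J) (z : ℝ) (A : Finset ι) : ℝ :=
  if A ≠ ∅ ∧ s.rho A ≤ z then 1 / (SS s z * (s.phi A * Real.log (s.rho A))) else 0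

end Pool.Agent.Lib.H56G
end

-- from Lib.H15P.NT2
section

/-!
# Chunk NT2: sizes of the blocks
-/

open Finset

namespace Pool.Agent.Lib.H15P

variable (κ W : ℕ) (T : ℝ)

/-- The block `b` of a prime `p`: `κ^b ≤ T/log p < κ^(b+1)`. -/
theorem bk_spec (hκ : 2 ≤ κ) (p : ℕ) (hp : p.Prime) (hT : Real.log p ≤ T) :
    (κ : ℝ) ^ bk κ T p ≤ T / Real.log p ∧ T / Real.log p < (κ : ℝ) ^ (bk κ T p + 1) := by
  have hlog : 0 < Real.log p := Real.log_pos (by exact_mod_cast hp.one_lt)
  have h1 : 1 ≤ T / Real.log p := by rw [le_div_iff₀ hlog]; linarith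
  have h0 : ⌊T / Real.log p⌋₊ ≠ 0 := by
    have := Nat.le_floor (n := 1) (by exact_mod_cast h1 : ((1 : ℕ) : ℝ) ≤ T / Real.log p)
    omega
  unfold bk
  constructor
  · have h2 := Nat.pow_log_le_self κ h0
    have h3 : ((κ ^ Nat.log κ ⌊T / Real.log p⌋₊ : ℕ) : ℝ) ≤ (⌊T / Real.log p⌋₊ : ℕ) := by
      exact_mod_cast h2
    rw [Nat.cast_pow] at h3
    exact h3.trans (Nat.floor_le (by linarith))
  · have h2 := Nat.lt_pow_succ_log_self (by omega : 1 < κ) ⌊T / Real.log p⌋₊
    have h3 : T / Real.log p < ((κ ^ (Nat.log κ ⌊T / Real.log p⌋₊ + 1) : ℕ) : ℝ) :=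
      (Nat.floor_lt (by linarith)).1 h2
    rwa [Nat.cast_pow] at h3

theorem NT2_mem (p : ℕ) (hp : p ∈ PP W T) : p.Prime ∧ W < p ∧ Real.log p ≤ T := by
  unfold PP at hp
  rw [mem_filter, mem_Ioc] at hp
  obtain ⟨⟨h1, h2⟩, h3⟩ := hp
  refine ⟨h3, h1, ?_⟩
  have h4 : (p : ℝ) ≤ Real.exp T := (Nat.le_floor_iff (Real.exp_pos T).le).1 h2
  rwa [Real.log_le_iff_le_exp (by exact_mod_cast h3.pos)]

theorem NT2_log_le (hκ : 2 ≤ κ) (p : ℕ) (hp : p.Prime) (hT : Real.log p ≤ T) :
    Real.log p ≤ T / (κ : ℝ) ^ bk κ T p := by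
  have hlog : 0 < Real.log p := Real.log_pos (by exact_mod_cast hp.one_lt)
  have hκ0 : (0 : ℝ) < (κ : ℝ) ^ bk κ T p := by
    have : (0 : ℝ) < κ := by exact_mod_cast (by omega : 0 < κ)
    positivity
  have h := (bk_spec κ T hκ p hp hT).1
  rw [le_div_iff₀ hlog] at h
  rw [le_div_iff₀ hκ0]
  linarith

/-- If the block is empty the left side is `1`. Otherwise it has a prime `≥ 2`, all its primes are
`≤ y = exp (T/κ^b)`, `y ≥ 2`, and `1 + Σ_{m ≤ y} m ≤ y^3`. -/
theorem XB_le (hκ : 2 ≤ κ) (hT : 0 ≤ T) (b : ℕ) :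
    1 + XB (fun i : {p // p ∈ PP W T} => i.1) (fun i => bk κ T i.1) b
      ≤ Real.exp (3 * (T / κ ^ b)) := by
  set y : ℝ := Real.exp (T / (κ : ℝ) ^ b) with hy
  have hy1 : 1 ≤ y := Real.one_le_exp (by positivity)
  have hy3 : Real.exp (3 * (T / (κ : ℝ) ^ b)) = y ^ 3 := by
    rw [hy, ← Real.exp_nat_mul]
    push_cast
    rfl
  rw [hy3]
  unfold XB
  rcases (univ.filter (fun i : {p // p ∈ PP W T} => bk κ T i.1 = b)).eq_empty_or_nonempty with
    h | ⟨i0, hi0⟩
  · rw [h, sum_empty, add_zero]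
    exact one_le_pow₀ hy1
  · have hle : ∀ i ∈ univ.filter (fun i : {p // p ∈ PP W T} => bk κ T i.1 = b),
        (i.1 : ℝ) ≤ y := by
      intro i hi
      obtain ⟨h1, h2, h3⟩ := NT2_mem W T i.1 i.2
      have h4 := NT2_log_le κ T hκ i.1 h1 h3
      rw [(mem_filter.1 hi).2] at h4
      rw [hy]
      exact (Real.log_le_iff_le_exp (by exact_mod_cast h1.pos)).1 h4
    have hy2 : 2 ≤ y := by
      have h1 := hle i0 hi0
      have h2 : (2 : ℝ) ≤ i0.1 := by exact_mod_cast (NT2_mem W T i0.1 i0.2).1.two_le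
      linarith
    have hsum : ∑ i ∈ univ.filter (fun i : {p // p ∈ PP W T} => bk κ T i.1 = b), (i.1 : ℝ) ≤
        ∑ m ∈ range (⌊y⌋₊ + 1), (m : ℝ) := by
      have e1 : ∑ i ∈ univ.filter (fun i : {p // p ∈ PP W T} => bk κ T i.1 = b), (i.1 : ℝ) =
          ∑ m ∈ (univ.filter (fun i : {p // p ∈ PP W T} => bk κ T i.1 = b)).map
            (Function.Embedding.subtype _), (m : ℝ) := by
        rw [sum_map]
        rfl
      rw [e1]
      refine sum_le_sum_of_subset_of_nonneg ?_ fun _ _ _ => Nat.cast_nonneg _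
      intro m hm
      rw [mem_map] at hm
      obtain ⟨i, hi, rfl⟩ := hm
      rw [mem_range]
      exact Nat.lt_succ_of_le (Nat.le_floor (hle i hi))
    have hgauss : ∀ n : ℕ, ∑ m ∈ range (n + 1), (m : ℝ) = (n : ℝ) * (n + 1) / 2 := by
      intro n
      induction n with
      | zero => simp
      | succ n ih =>
        rw [sum_range_succ, ih]
        push_cast
        ring
    rw [hgauss] at hsum
    have hfl : ((⌊y⌋₊ : ℕ) : ℝ) ≤ y := Nat.floor_le (by linarith)
    have hfl0 : (0 : ℝ) ≤ (⌊y⌋₊ : ℕ) := Nat.cast_nonneg _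
    have h5 : ((⌊y⌋₊ : ℕ) : ℝ) * ((⌊y⌋₊ : ℕ) + 1) ≤ y * (y + 1) :=
      mul_le_mul hfl (by linarith) (by positivity) (by linarith)
    have h6 : 1 + y * (y + 1) / 2 ≤ y ^ 3 := by nlinarith [mul_nonneg (by linarith : 0 ≤ y - 2) (sq_nonneg y)]
    linarith

/-- `Σ_{b ≥ i} 2 (r0 + b - i) 3 T/κ^b ≤ 6 (T/κ^i) Σ_c (r0 + c) 2^-c ≤ 12 (r0 + 1) T/κ^i`. -/
theorem prod_XB_le (hκ : 2 ≤ κ) (hT : 0 ≤ T) (r0 i N : ℕ) :
    ∏ b ∈ Ico i N,
        (1 + XB (fun i : {p // p ∈ PP W T} => i.1) (fun i => bk κ T i.1) b) ^ (2 * (r0 + (b - i)))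
      ≤ Real.exp (12 * ((r0 : ℝ) + 1) * (T / κ ^ i)) := by
  have hκ2 : (2 : ℝ) ≤ κ := by exact_mod_cast hκ
  set U : ℝ := T / (κ : ℝ) ^ i with hU
  have hU0 : 0 ≤ U := by positivity
  rw [prod_Ico_eq_prod_range]
  have hterm : ∀ c ∈ range (N - i),
      (1 + XB (fun i : {p // p ∈ PP W T} => i.1) (fun i => bk κ T i.1) (i + c)) ^
        (2 * (r0 + (i + c - i))) ≤ Real.exp (6 * U * (((r0 : ℝ) + c) / 2 ^ c)) := by
    intro c _
    have hXB0 : 0 ≤ XB (fun i : {p // p ∈ PP W T} => i.1) (fun i => bk κ T i.1) (i + c) := by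
      unfold XB
      exact sum_nonneg fun _ _ => Nat.cast_nonneg _
    have h1 := pow_le_pow_left₀ (by linarith) (XB_le κ W T hκ hT (i + c)) (2 * (r0 + (i + c - i)))
    refine h1.trans ?_
    rw [← Real.exp_nat_mul]
    refine Real.exp_le_exp.2 ?_
    have h2 : i + c - i = c := by omega
    rw [h2]
    push_cast
    have h3 : T / (κ : ℝ) ^ (i + c) = U / (κ : ℝ) ^ c := by
      rw [hU, pow_add, div_div]
    rw [h3]
    have h4 : U / (κ : ℝ) ^ c ≤ U / 2 ^ c :=
      div_le_div_of_nonneg_left hU0 (by positivity) (pow_le_pow_left₀ (by norm_num) hκ2 c)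
    have h5 : 2 * ((r0 : ℝ) + c) * (3 * (U / (κ : ℝ) ^ c)) ≤
        2 * ((r0 : ℝ) + c) * (3 * (U / 2 ^ c)) :=
      mul_le_mul_of_nonneg_left (by linarith) (by positivity)
    refine h5.trans (le_of_eq ?_)
    ring
  refine (prod_le_prod (fun c _ => ?_) hterm).trans ?_
  · have hXB0 : 0 ≤ XB (fun i : {p // p ∈ PP W T} => i.1) (fun i => bk κ T i.1) (i + c) := by
      unfold XB
      exact sum_nonneg fun _ _ => Nat.cast_nonneg _
    exact pow_nonneg (by linarith) _
  · rw [← Real.exp_sum, ← mul_sum]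
    refine Real.exp_le_exp.2 ?_
    have hS : ∀ n : ℕ, ∑ c ∈ range n, ((r0 : ℝ) + c) / 2 ^ c =
        2 * ((r0 : ℝ) + 1) - 2 * ((r0 : ℝ) + n + 1) / 2 ^ n := by
      intro n
      induction n with
      | zero => simp
      | succ n ih =>
        rw [sum_range_succ, ih, pow_succ]
        push_cast
        field_simp
        ring
    rw [hS]
    have h6 : 0 ≤ 2 * ((r0 : ℝ) + (N - i : ℕ) + 1) / 2 ^ (N - i) := by positivity
    have h7 := mul_nonneg hU0 h6
    nlinarith

/-- `T/log p ≤ 2 T` for `p ≥ 2` (`log 2 ≥ 1/2`). -/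
theorem bk_lt (hT : 0 ≤ T) (p : ℕ) (hp : p ∈ PP W T) :
    bk κ T p < Nat.log κ ⌊2 * T⌋₊ + 1 := by
  obtain ⟨h1, -, -⟩ := NT2_mem W T p hp
  unfold bk
  refine Nat.lt_succ_of_le (Nat.log_mono_right (Nat.floor_le_floor ?_))
  have h2 : (2 : ℝ) ≤ p := by exact_mod_cast h1.two_le
  have h3 : 1 / 2 ≤ Real.log p := by
    have := Real.log_le_log (by norm_num) h2
    linarith [Real.log_two_gt_d9]
  rw [div_le_iff₀ (by linarith)]
  nlinarith

end Pool.Agent.Lib.H15P
end

-- from Lib.H15P.PB3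
section

/-!
# Chunk PB3: sums over labelings, Chernoff bound
-/

open Finset

namespace Pool.Agent.Lib.H15P

variable {J : Type} [Fintype J] [DecidableEq J]

/-- `Σ_l ∏_j a (l j)` over the `l : J → Ω` which are `ω0` outside `B` is
`∏_{j ∈ B} (Σ_ω a ω) ∏_{j ∉ B} a ω0` (`Finset.prod_univ_sum` with the sets `univ` (`j ∈ B`) and
`{ω0}` (`j ∉ B`)). -/
theorem sum_supp {Ω : Type} [Fintype Ω] [DecidableEq Ω] (ω0 : Ω) (a : Ω → ℝ) (h0 : a ω0 = 1)
    (B : Finset J) :
    ∑ l ∈ univ.filter (fun l : J → Ω => ∀ j, j ∉ B → l j = ω0), ∏ j, a (l j)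
      = (∑ ω, a ω) ^ B.card := by
  classical
  set t : J → Finset Ω := fun j => if j ∈ B then univ else {ω0} with ht
  have h1 : univ.filter (fun l : J → Ω => ∀ j, j ∉ B → l j = ω0) = Fintype.piFinset t := by
    ext l
    simp only [mem_filter, mem_univ, true_and, Fintype.mem_piFinset, ht]
    constructor
    · intro h j
      by_cases hj : j ∈ B
      · rw [if_pos hj]; exact mem_univ _
      · rw [if_neg hj, mem_singleton]; exact h j hj
    · intro h j hj
      have := h j
      rw [if_neg hj, mem_singleton] at this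
      exact this
  rw [h1, ← Finset.prod_univ_sum t (fun _ ω => a ω)]
  have h2 : ∀ j, ∑ ω ∈ t j, a ω = if j ∈ B then ∑ ω, a ω else 1 := by
    intro j
    by_cases hj : j ∈ B
    · simp only [ht, if_pos hj]
    · simp only [ht, if_neg hj, sum_singleton, h0]
  rw [Finset.prod_congr rfl (fun j _ => h2 j), Finset.prod_ite_mem, Finset.univ_inter,
    Finset.prod_const]

variable {I : Type} [Fintype I] [DecidableEq I]

omit [DecidableEq J] [Fintype I] in
theorem pb3_exp_cnt (l : J → Option I) (i0 : I) (e : ℝ) :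
    ∏ j, (if l j = some i0 then e else 1) = e ^ cnt l i0 := by
  unfold cnt
  rw [Finset.prod_ite, Finset.prod_const, Finset.prod_const_one, mul_one]


end Pool.Agent.Lib.H15P
end

-- from Lib.H56G.Crt
section

/-!
# Chunk CRT: sums of periodic functions with coprime periods
-/

open Finset

namespace Pool.Agent.Lib.H56G

/-- Chinese remainder theorem. Proof: `t ↦ (t mod m, t mod n)` is a bijection from `range (m*n)`
to `range m ×ˢ range n` (`Nat.chineseRemainder`, or injectivity + cardinality); `f t = f (t % m)`,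
`g t = g (t % n)` (`Function.Periodic.map_mod_nat`); then `Finset.sum_mul_sum`. -/
theorem sum_range_mul {m n : ℕ} (hmn : Nat.Coprime m n) (hm : 0 < m) (hn : 0 < n)
    (f g : ℕ → ℝ) (hf : Function.Periodic f m) (hg : Function.Periodic g n) :
    ∑ t ∈ range (m * n), f t * g t = (∑ t ∈ range m, f t) * ∑ t ∈ range n, g t := by
  rw [Finset.sum_mul_sum, ← Finset.sum_product']
  refine Finset.sum_bij' (fun t _ => (t % m, t % n))
    (fun x _ => (Nat.chineseRemainder hmn x.1 x.2 : ℕ)) ?_ ?_ ?_ ?_ ?_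
  · intro t _
    simp only [Finset.mem_product, Finset.mem_range]
    exact ⟨Nat.mod_lt _ hm, Nat.mod_lt _ hn⟩
  · intro x _
    simp only [Finset.mem_range]
    exact Nat.chineseRemainder_lt_mul hmn x.1 x.2 hm.ne' hn.ne'
  · intro t ht
    simp only [Finset.mem_range] at ht
    have h := (Nat.chineseRemainder hmn (t % m) (t % n)).2
    have h1 : (Nat.chineseRemainder hmn (t % m) (t % n) : ℕ) ≡ t [MOD m] :=
      h.1.trans (Nat.mod_modEq t m)
    have h2 : (Nat.chineseRemainder hmn (t % m) (t % n) : ℕ) ≡ t [MOD n] :=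
      h.2.trans (Nat.mod_modEq t n)
    have h3 := (Nat.modEq_and_modEq_iff_modEq_mul hmn).1 ⟨h1, h2⟩
    exact Nat.ModEq.eq_of_lt_of_lt h3 (Nat.chineseRemainder_lt_mul hmn _ _ hm.ne' hn.ne') ht
  · intro x hx
    simp only [Finset.mem_product, Finset.mem_range] at hx
    have h := (Nat.chineseRemainder hmn x.1 x.2).2
    apply Prod.ext
    · have := h.1
      rw [Nat.ModEq, Nat.mod_eq_of_lt hx.1] at this
      exact this
    · have := h.2
      rw [Nat.ModEq, Nat.mod_eq_of_lt hx.2] at this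
      exact this
  · intro t _
    simp only
    rw [hf.map_mod_nat, hg.map_mod_nat]

/-- Product version. Induction on `A` with `sum_range_mul` (the product over `A` is periodic with
period `∏ p i`; coprimality: distinct primes, `Nat.Coprime.prod_right`). -/
theorem sum_range_prod {ι : Type} [DecidableEq ι] (p : ι → ℕ) (hp : ∀ i, (p i).Prime)
    (hinj : Function.Injective p) (A : Finset ι) (F : ι → ℕ → ℝ)
    (hF : ∀ i, Function.Periodic (F i) (p i)) :
    ∑ t ∈ range (∏ i ∈ A, p i), ∏ i ∈ A, F i t = ∏ i ∈ A, ∑ t ∈ range (p i), F i t := by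
  induction A using Finset.induction_on with
  | empty => simp
  | insert a A ha ih =>
    rw [Finset.prod_insert ha, Finset.prod_insert ha, ← ih]
    have hcop : Nat.Coprime (p a) (∏ i ∈ A, p i) := by
      apply Nat.Coprime.prod_right
      intro i hi
      rw [Nat.coprime_primes (hp a) (hp i)]
      intro h
      exact ha (hinj h ▸ hi)
    have hper : Function.Periodic (fun t => ∏ i ∈ A, F i t) (∏ i ∈ A, p i) := by
      intro t
      apply Finset.prod_congr rfl
      intro i hi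
      obtain ⟨k, hk⟩ := Finset.dvd_prod_of_mem p hi
      rw [hk]
      have := (hF i).nat_mul k
      have h2 := this t
      simpa [mul_comm] using h2
    rw [← sum_range_mul hcop (hp a).pos (Finset.prod_pos fun i _ => (hp i).pos) (F a)
      (fun t => ∏ i ∈ A, F i t) (hF a) hper]
    apply Finset.sum_congr rfl
    intro t _
    rw [Finset.prod_insert ha]

theorem crt_sum_Icc_period (q : ℕ) (F : ℕ → ℝ) (hF : Function.Periodic F q) (a : ℕ) :
    ∑ t ∈ Ico a (a + q), F t = ∑ t ∈ range q, F t := by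
  induction a with
  | zero => simp [Nat.Ico_zero_eq_range]
  | succ a ih =>
    rcases Nat.eq_zero_or_pos q with hq | hq
    · subst hq; simp
    · have h1 : ∑ t ∈ Ico a (a + 1 + q), F t = F a + ∑ t ∈ Ico (a + 1) (a + 1 + q), F t :=
        Finset.sum_eq_sum_Ico_succ_bot (by omega) F
      have h2 : ∑ t ∈ Ico a (a + q + 1), F t = ∑ t ∈ Ico a (a + q), F t + F (a + q) :=
        Finset.sum_Ico_succ_top (by omega) F
      have h3 : a + 1 + q = a + q + 1 := by omega
      have h4 : F (a + q) = F a := hF a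
      rw [h3] at h1
      rw [h3]
      linarith

theorem crt_sum_Icc_mul (q : ℕ) (F : ℕ → ℝ) (hF : Function.Periodic F q) (k : ℕ) :
    ∑ t ∈ Ico 1 (1 + k * q), F t = k * ∑ t ∈ range q, F t := by
  induction k with
  | zero => simp
  | succ k ih =>
    have h1 : 1 + (k + 1) * q = (1 + k * q) + q := by ring
    rw [h1, ← Finset.sum_Ico_consecutive F (by omega : 1 ≤ 1 + k * q) (by omega), ih,
      crt_sum_Icc_period q F hF]
    push_cast
    ring

/-- Incomplete sums of a periodic function. Proof: write `Y = k q + l`, `l < q`; the sum over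
`Icc 1 (k q)` is `k` times the full period sum `Σ` (`|Σ| ≤ q K`), the remaining `l` terms are
at most `l K`; `|Y/q - k| ≤ 1`. -/
theorem abs_sum_Icc_sub_le (q : ℕ) (hq : 0 < q) (F : ℕ → ℝ) (hF : Function.Periodic F q)
    (K : ℝ) (hK : ∀ t, |F t| ≤ K) (Y : ℕ) :
    |∑ t ∈ Icc 1 Y, F t - Y * ((∑ t ∈ range q, F t) / q)| ≤ 2 * q * K := by
  have hq' : (0 : ℝ) < q := by exact_mod_cast hq
  have hK0 : 0 ≤ K := le_trans (abs_nonneg _) (hK 0)
  obtain ⟨k, l, hl, hY⟩ : ∃ k l, l < q ∧ Y = k * q + l :=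
    ⟨Y / q, Y % q, Nat.mod_lt _ hq, by rw [mul_comm]; exact (Nat.div_add_mod Y q).symm⟩
  have hI : Icc 1 Y = Ico 1 (1 + Y) := by
    ext t; simp only [Finset.mem_Icc, Finset.mem_Ico]; omega
  have hS : |∑ t ∈ range q, F t| ≤ q * K := by
    calc |∑ t ∈ range q, F t| ≤ ∑ t ∈ range q, |F t| := Finset.abs_sum_le_sum_abs _ _
      _ ≤ ∑ t ∈ range q, K := Finset.sum_le_sum fun t _ => hK t
      _ = q * K := by simp
  have hR : |∑ t ∈ Ico (1 + k * q) (1 + Y), F t| ≤ l * K := by
    calc |∑ t ∈ Ico (1 + k * q) (1 + Y), F t| ≤ ∑ t ∈ Ico (1 + k * q) (1 + Y), |F t| :=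
          Finset.abs_sum_le_sum_abs _ _
      _ ≤ ∑ t ∈ Ico (1 + k * q) (1 + Y), K := Finset.sum_le_sum fun t _ => hK t
      _ = l * K := by
        rw [Finset.sum_const, Nat.card_Ico, nsmul_eq_mul]
        congr 2
        omega
  have hsum : ∑ t ∈ Icc 1 Y, F t
      = k * ∑ t ∈ range q, F t + ∑ t ∈ Ico (1 + k * q) (1 + Y), F t := by
    rw [hI, ← Finset.sum_Ico_consecutive F (by omega : 1 ≤ 1 + k * q) (by omega),
      crt_sum_Icc_mul q F hF]
  have hYr : (Y : ℝ) = k * q + l := by rw [hY]; push_cast; ring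
  have hlq : (l : ℝ) ≤ q := by exact_mod_cast hl.le
  have hl0 : (0 : ℝ) ≤ l := by positivity
  set S := ∑ t ∈ range q, F t with hSdef
  set R := ∑ t ∈ Ico (1 + k * q) (1 + Y), F t with hRdef
  have hid : k * S + R - Y * (S / q) = R - (l / q) * S := by
    rw [hYr]
    field_simp
    ring
  rw [hsum, hid]
  calc |R - (l / q) * S| ≤ |R| + |(l / q) * S| := abs_sub _ _
    _ = |R| + (l / q) * |S| := by rw [abs_mul, abs_of_nonneg (by positivity : (0:ℝ) ≤ l / q)]
    _ ≤ l * K + (l / q) * (q * K) := by gcongr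
    _ = 2 * (l * K) := by field_simp; ring
    _ ≤ 2 * (q * K) := by gcongr
    _ = 2 * q * K := by ring

end Pool.Agent.Lib.H56G
end

-- from Lib.H15P.TR1
section

/-!
# Chunk TR1: the mean value over a full period, as a sum over exclusive configurations
-/

open Finset

namespace Pool.Agent.Lib.H15P

variable {J : Type} [Fintype J] [DecidableEq J]

/-- Probabilities at the prime `p`: `1/p` for each form, the rest for none of them. -/
noncomputable def ww (J : Type) [Fintype J] (p : ℕ) : Option J → ℝ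
  | none => 1 - (Fintype.card J : ℝ) / p
  | some _ => 1 / p

/-- The sets of primes of the forms in the configuration `κ`. -/
def cfg {P : Finset ℕ} (κ : {p // p ∈ P} → Option J) (j : J) : Finset {p // p ∈ P} :=
  univ.filter (fun i => κ i = some j)

theorem tr1_T (M b p : ℕ) (hp : p.Prime) (hM : ¬ p ∣ M) : ∃ T, T < p ∧
    ∀ t < p, (p ∣ b + M * t ↔ t = T) := by
  have : Fact p.Prime := ⟨hp⟩
  have hM' : (M : ZMod p) ≠ 0 := by
    rw [Ne, ZMod.natCast_eq_zero_iff]
    exact hM
  refine ⟨(-(b : ZMod p) * (M : ZMod p)⁻¹).val, ZMod.val_lt _, fun t ht => ?_⟩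
  rw [← ZMod.natCast_eq_zero_iff]
  push_cast
  constructor
  · intro h
    have h1 : (t : ZMod p) = -(b : ZMod p) * (M : ZMod p)⁻¹ := by
      field_simp
      linear_combination h
    rw [← h1, ZMod.val_cast_of_lt ht]
  · intro h
    have h1 : (t : ZMod p) = -(b : ZMod p) * (M : ZMod p)⁻¹ := by
      rw [h, ZMod.natCast_zmod_val]
    rw [h1]
    field_simp
    ring

/-- Indicator that the prime `p` has the state `o` at `t`. -/
noncomputable def tr1_ind (M : ℕ) (b : J → ℕ) (p : ℕ) (t : ℕ) : Option J → ℝ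
  | none => 1 - ∑ j, (if p ∣ b j + M * t then (1 : ℝ) else 0)
  | some j => if p ∣ b j + M * t then 1 else 0

/-- At most one form is divisible by a prime of `P`. -/
theorem tr1_unique {P : Finset ℕ} {W K M : ℕ} {b : J → ℕ} (hF : Forms P W K M b)
    {p : ℕ} (hp : p ∈ P) (t : ℕ) {j j' : J} (h1 : p ∣ b j + M * t) (h2 : p ∣ b j' + M * t) :
    j = j' := by
  by_contra hne
  apply hF.dist p hp j j' hne
  have h3 : b j + M * t ≡ b j' + M * t [MOD p] :=
    ((Nat.modEq_zero_iff_dvd.2 h1).trans (Nat.modEq_zero_iff_dvd.2 h2).symm)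
  exact Nat.ModEq.add_right_cancel' _ h3

theorem tr1_sum_one {P : Finset ℕ} {W K M : ℕ} {b : J → ℕ} (hF : Forms P W K M b)
    {p : ℕ} (hp : p ∈ P) (t : ℕ) {j : J} (h1 : p ∣ b j + M * t) :
    ∑ j', (if p ∣ b j' + M * t then (1 : ℝ) else 0) = 1 := by
  rw [Finset.sum_eq_single j]
  · rw [if_pos h1]
  · intro j' _ hj'
    rw [if_neg]
    intro h2
    exact hj' (tr1_unique hF hp t h2 h1)
  · intro h
    exact absurd (Finset.mem_univ j) h

theorem tr1_expand {P : Finset ℕ} {W K M : ℕ} {b : J → ℕ} (hF : Forms P W K M b)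
    (F : (J → Finset {p // p ∈ P}) → ℝ) (t : ℕ) :
    F (fun j => hit P (b j + M * t)) = ∑ κ : {p // p ∈ P} → Option J, F (cfg κ) *
      ∏ i, tr1_ind M b i.1 t (κ i) := by
  classical
  set κ0 : {p // p ∈ P} → Option J := fun i =>
    if h : ∃ j, i.1 ∣ b j + M * t then some h.choose else none with hκ0
  have hsome : ∀ i j, κ0 i = some j ↔ i.1 ∣ b j + M * t := by
    intro i j
    by_cases h : ∃ j, i.1 ∣ b j + M * t
    · have e : κ0 i = some h.choose := by simp only [hκ0]; rw [dif_pos h]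
      rw [e, Option.some_inj]
      constructor
      · intro hj
        rw [← hj]
        exact h.choose_spec
      · intro hj
        exact tr1_unique hF i.2 t h.choose_spec hj
    · have e : κ0 i = none := by simp only [hκ0]; rw [dif_neg h]
      rw [e]
      constructor
      · intro h'; exact absurd h' (by simp)
      · intro hj; exact absurd ⟨j, hj⟩ h
  have hnone : ∀ i, κ0 i = none → ∀ j, ¬ i.1 ∣ b j + M * t := by
    intro i hi j hj
    rw [← hsome i j, hi] at hj
    exact absurd hj (by simp)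
  rw [Finset.sum_eq_single κ0]
  · have h1 : (fun j => hit P (b j + M * t)) = cfg κ0 := by
      funext j
      unfold hit cfg
      apply Finset.filter_congr
      intro i _
      exact (hsome i j).symm
    have h2 : ∏ i, tr1_ind M b i.1 t (κ0 i) = 1 := by
      apply Finset.prod_eq_one
      intro i _
      rcases h : κ0 i with _ | j
      · unfold tr1_ind
        simp only
        rw [Finset.sum_eq_zero]
        · ring
        · intro j _
          rw [if_neg (hnone i h j)]
      · unfold tr1_ind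
        simp only
        rw [if_pos ((hsome i j).1 h)]
    rw [h1, h2, mul_one]
  · intro κ _ hκ
    obtain ⟨i, hi⟩ : ∃ i, κ i ≠ κ0 i := by
      by_contra hcon
      push Not at hcon
      exact hκ (funext hcon)
    have : tr1_ind M b i.1 t (κ i) = 0 := by
      rcases h : κ i with _ | j
      · rcases h' : κ0 i with _ | j'
        · rw [h, h'] at hi
          exact absurd rfl hi
        · unfold tr1_ind
          simp only
          rw [tr1_sum_one hF i.2 t ((hsome i j').1 h')]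
          ring
      · unfold tr1_ind
        simp only
        rw [if_neg]
        intro hd
        rw [h, (hsome i j).2 hd] at hi
        exact absurd rfl hi
    rw [Finset.prod_eq_zero (Finset.mem_univ i) this, mul_zero]
  · intro h
    exact absurd (Finset.mem_univ κ0) h

theorem tr1_periodic (M : ℕ) (b : J → ℕ) (p : ℕ) (o : Option J) :
    Function.Periodic (fun t => tr1_ind M b p t o) p := by
  intro t
  have h : ∀ j, (p ∣ b j + M * (t + p)) ↔ (p ∣ b j + M * t) := by
    intro j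
    have e : b j + M * (t + p) = (b j + M * t) + p * M := by ring
    rw [e]
    exact (Nat.dvd_add_left (Dvd.intro M rfl))
  rcases o with _ | j
  · simp only [tr1_ind, h]
  · simp only [tr1_ind, h]

theorem tr1_sum_some {P : Finset ℕ} {W K M : ℕ} {b : J → ℕ} (hF : Forms P W K M b)
    {p : ℕ} (hp : p ∈ P) (j : J) :
    ∑ t ∈ range p, (if p ∣ b j + M * t then (1 : ℝ) else 0) = 1 := by
  obtain ⟨T, hT, hT'⟩ := tr1_T M (b j) p (hF.prime p hp) (hF.cop p hp)
  rw [Finset.sum_eq_single T]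
  · rw [if_pos ((hT' T hT).2 rfl)]
  · intro t ht hne
    rw [if_neg]
    intro h
    exact hne ((hT' t (Finset.mem_range.1 ht)).1 h)
  · intro h
    exact absurd (Finset.mem_range.2 hT) h

theorem tr1_sum_period {P : Finset ℕ} {W K M : ℕ} {b : J → ℕ} (hF : Forms P W K M b)
    {p : ℕ} (hp : p ∈ P) (o : Option J) :
    ∑ t ∈ range p, tr1_ind M b p t o = p * ww J p o := by
  have hp0 : (p : ℝ) ≠ 0 := by
    have := (hF.prime p hp).pos
    positivity
  rcases o with _ | j
  · simp only [tr1_ind, ww]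
    rw [Finset.sum_sub_distrib, Finset.sum_comm]
    rw [Finset.sum_congr rfl (fun j _ => tr1_sum_some hF hp j)]
    simp only [sum_const, card_range, nsmul_eq_mul, mul_one, card_univ]
    field_simp
  · simp only [tr1_ind, ww]
    rw [tr1_sum_some hF hp j]
    field_simp

/-- Let `κ_t(p)` be the form divisible by `p` at `t` (at most one by `dist`), or `none`. Then
`F(hit ..) = Σ_κ F(cfg κ) ∏_p 1[κ_t(p) = κ p]`; the factor of `p` has period `p`, and by
`H56G.sum_range_prod` (index type `{p // p ∈ P}`) the sum over a full period is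
`∏_p #{t < p : κ_t(p) = κ p}`, where the factor is `1` if `κ p = some j` (`p ∤ M`: exactly one class,
see `H56G.gram1_T`), and `p - |J|` if `κ p = none`. -/
theorem EP_eq (P : Finset ℕ) (W K M : ℕ) (b : J → ℕ) (hF : Forms P W K M b)
    (F : (J → Finset {p // p ∈ P}) → ℝ) :
    EP P M b F = ∑ κ : {p // p ∈ P} → Option J, F (cfg κ) * ∏ i, ww J i.1 (κ i) := by
  classical
  have hprod : (∏ p ∈ P, p) = ∏ i : {p // p ∈ P}, i.1 := by
    rw [← Finset.prod_coe_sort P (fun p => p)]
  have hpos : (0 : ℝ) < ((∏ p ∈ P, p : ℕ) : ℝ) := by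
    have : 0 < ∏ p ∈ P, p := Finset.prod_pos (fun p hp => (hF.prime p hp).pos)
    exact_mod_cast this
  unfold EP
  rw [div_eq_iff hpos.ne', Finset.sum_mul]
  rw [Finset.sum_congr rfl (fun t _ => tr1_expand hF F t), Finset.sum_comm]
  refine Finset.sum_congr rfl (fun κ _ => ?_)
  rw [← Finset.mul_sum, mul_assoc]
  congr 1
  rw [hprod, H56G.sum_range_prod (fun i : {p // p ∈ P} => i.1) (fun i => hF.prime i.1 i.2)
    Subtype.val_injective univ (fun i t => tr1_ind M b i.1 t (κ i))
    (fun i => tr1_periodic M b i.1 (κ i))]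
  rw [Finset.prod_congr rfl (fun i _ => tr1_sum_period hF i.2 (κ i))]
  rw [Finset.prod_mul_distrib]
  push_cast
  ring

end Pool.Agent.Lib.H15P
end

-- from Lib.H15P.TR2
section

/-!
# Chunk TR2: upper bound for the mean value over a period by the independent model
-/

open Finset

namespace Pool.Agent.Lib.H15P

variable {J : Type} [Fintype J] [DecidableEq J]

/-- The numbers of `P` are distinct and `> W`: `Σ p^-2 ≤ 1/W` (see `H56G.cnt_sum_inv_sq`). -/
theorem sum_inv_sq_le (P : Finset ℕ) (W : ℕ) (hW : 1 ≤ W) (hb : ∀ p ∈ P, W < p) :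
    ∑ p ∈ P, 1 / (p : ℝ) ^ 2 ≤ 1 / (W : ℝ) := by
  obtain ⟨N, hN⟩ : ∃ N, W ≤ N ∧ ∀ p ∈ P, p ≤ N :=
    ⟨max W (P.sup id), le_max_left _ _, fun p hp =>
      (Finset.le_sup (f := id) hp).trans (le_max_right _ _)⟩
  have hsub : P ⊆ Ioc W N := fun n hn => Finset.mem_Ioc.2 ⟨hb n hn, hN.2 n hn⟩
  have h0 : ∑ p ∈ P, 1 / (p : ℝ) ^ 2 = ∑ p ∈ P, ((p : ℝ) ^ 2)⁻¹ :=
    Finset.sum_congr rfl (fun p _ => one_div _)
  rw [h0, one_div]
  calc ∑ n ∈ P, ((n : ℝ) ^ 2)⁻¹
      ≤ ∑ n ∈ Ioc W N, ((n : ℝ) ^ 2)⁻¹ :=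
        Finset.sum_le_sum_of_subset_of_nonneg hsub (fun _ _ _ => by positivity)
    _ ≤ (W : ℝ)⁻¹ - (N : ℝ)⁻¹ := sum_Ioc_inv_sq_le_sub (by omega) hN.1
    _ ≤ (W : ℝ)⁻¹ := by
        have : (0 : ℝ) ≤ (N : ℝ)⁻¹ := by positivity
        linarith

theorem qq_nonneg (P : Finset ℕ) (K : ℕ) (p : {p // p ∈ P}) : 0 ≤ qq P K p := by
  unfold qq
  positivity

theorem tr2_big (P : Finset ℕ) (W K : ℕ) (hK : 1 ≤ K) (hKW : 4 * K ^ 2 ≤ W)
    (hb : ∀ p ∈ P, W < p) (p : {p // p ∈ P}) : 4 * (K : ℝ) ≤ (p.1 : ℝ) ∧ (1 : ℝ) ≤ (p.1 : ℝ) := by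
  have h1 := hb p.1 p.2
  have h2 : 4 * K ≤ p.1 := by nlinarith
  have h3 : 1 ≤ p.1 := by omega
  exact ⟨by exact_mod_cast h2, by exact_mod_cast h3⟩

/-- `qq ≤ 2/p`, in particular `≤ 1` (`p ≥ W ≥ 4 K^2 ≥ 4 K`). -/
theorem qq_le (P : Finset ℕ) (W K : ℕ) (hK : 1 ≤ K) (hKW : 4 * K ^ 2 ≤ W)
    (hb : ∀ p ∈ P, W < p) (p : {p // p ∈ P}) : qq P K p ≤ 2 / (p.1 : ℝ) := by
  obtain ⟨h1, h2⟩ := tr2_big P W K hK hKW hb p
  unfold qq
  have hp : (0 : ℝ) < (p.1 : ℝ) := by linarith
  have hK0 : (0 : ℝ) ≤ K := by positivity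
  have hc : (1 : ℝ) ≤ 1 + 2 * K / (p.1 : ℝ) ^ 2 := by
    have : (0 : ℝ) ≤ 2 * K / (p.1 : ℝ) ^ 2 := by positivity
    linarith
  have ha : 1 / (p.1 : ℝ) + 2 * K / (p.1 : ℝ) ^ 2 ≤ 2 / (p.1 : ℝ) := by
    have e : 2 / (p.1 : ℝ) - (1 / (p.1 : ℝ) + 2 * K / (p.1 : ℝ) ^ 2)
        = ((p.1 : ℝ) - 2 * K) / (p.1 : ℝ) ^ 2 := by
      field_simp
      ring
    have : (0 : ℝ) ≤ ((p.1 : ℝ) - 2 * K) / (p.1 : ℝ) ^ 2 :=
      div_nonneg (by linarith) (by positivity)
    linarith
  refine (div_le_self (by positivity) hc).trans ha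

theorem tr2_qq_le_one (P : Finset ℕ) (W K : ℕ) (hK : 1 ≤ K) (hKW : 4 * K ^ 2 ≤ W)
    (hb : ∀ p ∈ P, W < p) (p : {p // p ∈ P}) : qq P K p ≤ 1 := by
  obtain ⟨h1, h2⟩ := tr2_big P W K hK hKW hb p
  refine (qq_le P W K hK hKW hb p).trans ?_
  have hp : (0 : ℝ) < (p.1 : ℝ) := by linarith
  rw [div_le_one hp]
  have : (1 : ℝ) ≤ K := by exact_mod_cast hK
  linarith

/-- One prime: `ww (κ p) ≤ ∏_j (factor of j)`, where the factor is `α = 1/p + 2K/p^2` for the form
`κ p` and `β = 1 - 1/p` for the other forms: `1 - k/p ≤ (1 - 1/p)^k` (Bernoulli) and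
`1/p ≤ α (1 - 1/p)^(k-1)` since `(1 + 2K/p)(1 - 1/p)^(k-1) ≥ (1 + 2K/p)(1 - K/p) ≥ 1` for
`2 K ≤ p`. -/
theorem ww_le (P : Finset ℕ) (W K : ℕ) (hK : 1 ≤ K) (hKW : 4 * K ^ 2 ≤ W)
    (hb : ∀ p ∈ P, W < p) (hJ : Fintype.card J ≤ K) (p : {p // p ∈ P}) (o : Option J) :
    ww J p.1 o ≤ ∏ j : J, (if o = some j then 1 / (p.1 : ℝ) + 2 * K / (p.1 : ℝ) ^ 2
      else 1 - 1 / (p.1 : ℝ)) := by
  obtain ⟨h1, h2⟩ := tr2_big P W K hK hKW hb p
  have hp : (0 : ℝ) < (p.1 : ℝ) := by linarith
  have hinv : 1 / (p.1 : ℝ) ≤ 1 := by rw [div_le_one hp]; exact h2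
  have hinv0 : 0 ≤ 1 / (p.1 : ℝ) := by positivity
  have hJr : (Fintype.card J : ℝ) ≤ K := by exact_mod_cast hJ
  have hK0 : (0 : ℝ) ≤ K := by positivity
  rcases o with _ | j0
  · have e : ∏ j : J, (if (none : Option J) = some j then 1 / (p.1 : ℝ) + 2 * K / (p.1 : ℝ) ^ 2
        else 1 - 1 / (p.1 : ℝ)) = (1 - 1 / (p.1 : ℝ)) ^ Fintype.card J := by
      rw [Finset.prod_congr rfl (g := fun _ => 1 - 1 / (p.1 : ℝ))]
      · rw [Finset.prod_const, Finset.card_univ]
      · intro j _
        rw [if_neg (by simp)]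
    rw [e]
    have hB := one_add_mul_le_pow (a := -(1 / (p.1 : ℝ))) (by linarith) (Fintype.card J)
    have e2 : ww J p.1 none = 1 + (Fintype.card J : ℝ) * (-(1 / (p.1 : ℝ))) := by
      unfold ww
      ring
    rw [e2]
    calc 1 + (Fintype.card J : ℝ) * (-(1 / (p.1 : ℝ))) ≤ (1 + -(1 / (p.1 : ℝ))) ^ Fintype.card J := hB
      _ = (1 - 1 / (p.1 : ℝ)) ^ Fintype.card J := by rw [← sub_eq_add_neg]
  · have e : ∏ j : J, (if (some j0 : Option J) = some j then 1 / (p.1 : ℝ) + 2 * K / (p.1 : ℝ) ^ 2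
        else 1 - 1 / (p.1 : ℝ)) = (1 / (p.1 : ℝ) + 2 * K / (p.1 : ℝ) ^ 2) *
          (1 - 1 / (p.1 : ℝ)) ^ (Fintype.card J - 1) := by
      rw [← Finset.mul_prod_erase univ _ (Finset.mem_univ j0), if_pos rfl]
      congr 1
      rw [Finset.prod_congr rfl (g := fun _ => 1 - 1 / (p.1 : ℝ))]
      · rw [Finset.prod_const, Finset.card_erase_of_mem (Finset.mem_univ j0), Finset.card_univ]
      · intro j hj
        rw [if_neg]
        intro h
        exact (Finset.ne_of_mem_erase hj) (Option.some_inj.1 h).symm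
    rw [e]
    have hB := one_add_mul_le_pow (a := -(1 / (p.1 : ℝ))) (by linarith) (Fintype.card J - 1)
    have hc1 : ((Fintype.card J - 1 : ℕ) : ℝ) ≤ K := by
      have : Fintype.card J - 1 ≤ K := by omega
      exact_mod_cast this
    have hlow : 1 - K * (1 / (p.1 : ℝ)) ≤ (1 - 1 / (p.1 : ℝ)) ^ (Fintype.card J - 1) := by
      have h3 : 1 - K * (1 / (p.1 : ℝ)) ≤ 1 + ((Fintype.card J - 1 : ℕ) : ℝ) * (-(1 / (p.1 : ℝ))) := by
        nlinarith
      have h4 : (1 + -(1 / (p.1 : ℝ))) = 1 - 1 / (p.1 : ℝ) := by ring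
      rw [h4] at hB
      exact h3.trans hB
    have hα : 0 ≤ 1 / (p.1 : ℝ) + 2 * K / (p.1 : ℝ) ^ 2 := by positivity
    have e2 : ww J p.1 (some j0) = 1 / (p.1 : ℝ) := rfl
    rw [e2]
    refine le_trans ?_ (mul_le_mul_of_nonneg_left hlow hα)
    have e3 : (1 / (p.1 : ℝ) + 2 * K / (p.1 : ℝ) ^ 2) * (1 - K * (1 / (p.1 : ℝ))) - 1 / (p.1 : ℝ)
        = K * ((p.1 : ℝ) - 2 * K) / (p.1 : ℝ) ^ 3 := by
      field_simp
      ring
    have : 0 ≤ K * ((p.1 : ℝ) - 2 * K) / (p.1 : ℝ) ^ 3 :=
      div_nonneg (mul_nonneg hK0 (by linarith)) (by positivity)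
    linarith

omit [Fintype J] in
theorem tr2_cfg_injective {P : Finset ℕ} :
    Function.Injective (cfg : ({p // p ∈ P} → Option J) → J → Finset {p // p ∈ P}) := by
  intro κ κ' h
  funext i
  apply Option.ext
  intro j
  have h1 : i ∈ cfg κ j ↔ i ∈ cfg κ' j := by rw [h]
  unfold cfg at h1
  simp only [mem_filter, mem_univ, true_and] at h1
  exact h1

theorem tr2_factor (P : Finset ℕ) (K : ℕ) (hb : ∀ p ∈ P, 0 < p) (κ : {p // p ∈ P} → Option J) :
    ∏ i : {p // p ∈ P}, ∏ j : J, (if κ i = some j then 1 / (i.1 : ℝ) + 2 * K / (i.1 : ℝ) ^ 2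
      else 1 - 1 / (i.1 : ℝ))
      = (∏ i : {p // p ∈ P}, (1 + 2 * K / (i.1 : ℝ) ^ 2)) ^ Fintype.card J *
        ∏ j, bw (qq P K) (cfg κ j) := by
  rw [Finset.prod_comm, ← Finset.card_univ, ← Finset.prod_const, ← Finset.prod_mul_distrib]
  refine Finset.prod_congr rfl (fun j _ => ?_)
  unfold bw
  rw [← Finset.prod_mul_distrib]
  refine Finset.prod_congr rfl (fun i _ => ?_)
  have hi : (0 : ℝ) < (i.1 : ℝ) := by exact_mod_cast hb i.1 i.2
  have hc : (1 + 2 * K / (i.1 : ℝ) ^ 2) ≠ 0 := by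
    have : (0 : ℝ) ≤ 2 * K / (i.1 : ℝ) ^ 2 := by positivity
    linarith
  have hmem : i ∈ cfg κ j ↔ κ i = some j := by
    unfold cfg
    simp only [mem_filter, mem_univ, true_and]
  by_cases h : κ i = some j
  · rw [if_pos h, if_pos (hmem.2 h)]
    unfold qq
    rw [mul_div_cancel₀]
    exact hc
  · rw [if_neg h, if_neg (fun h' => h (hmem.1 h'))]
    unfold qq
    rw [mul_sub, mul_one, mul_div_cancel₀]
    · ring
    · exact hc

/-- `α = (1 + 2K/p^2) qq`, `β = (1 + 2K/p^2) (1 - qq)`. Multiply `ww_le` over the primes: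
`∏_p ww (κ p) ≤ ∏_p (1 + 2K/p^2)^|J| ∏_j bw (cfg κ j)`, the first factor is at most
`exp (2 K |J| Σ p^-2) ≤ exp (2 K^2/W)`; `κ ↦ cfg κ` is injective and all terms are
nonnegative. -/
theorem EP_le (P : Finset ℕ) (W K M : ℕ) (b : J → ℕ) (hF : Forms P W K M b)
    (F : (J → Finset {p // p ∈ P}) → ℝ) (h0 : ∀ S, 0 ≤ F S) :
    EP P M b F ≤ Real.exp (2 * (K : ℝ) ^ 2 / W) * EX (qq P K) F := by
  classical
  have hW1 : 1 ≤ W := by
    have := hF.KW
    have := hF.one_le
    nlinarith
  have hWr : (0 : ℝ) < W := by exact_mod_cast hW1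
  have hpos : ∀ p ∈ P, 0 < p := fun p hp => (hF.prime p hp).pos
  have hbw : ∀ A, 0 ≤ bw (qq P K) A := bw_nonneg _ (qq_nonneg P K)
    (tr2_qq_le_one P W K hF.one_le hF.KW hF.big)
  have hc : (∏ i : {p // p ∈ P}, (1 + 2 * K / (i.1 : ℝ) ^ 2)) ^ Fintype.card J
      ≤ Real.exp (2 * (K : ℝ) ^ 2 / W) := by
    have h1 : ∏ i : {p // p ∈ P}, (1 + 2 * K / (i.1 : ℝ) ^ 2) ≤ Real.exp (2 * K / W) := by
      calc ∏ i : {p // p ∈ P}, (1 + 2 * K / (i.1 : ℝ) ^ 2)
          ≤ ∏ i : {p // p ∈ P}, Real.exp (2 * K / (i.1 : ℝ) ^ 2) := by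
            apply Finset.prod_le_prod
            · intro i _
              positivity
            · intro i _
              rw [add_comm]
              exact Real.add_one_le_exp _
        _ = Real.exp (∑ i : {p // p ∈ P}, 2 * K / (i.1 : ℝ) ^ 2) := by rw [Real.exp_sum]
        _ ≤ Real.exp (2 * K / W) := by
            apply Real.exp_le_exp.2
            have e1 : ∑ i : {p // p ∈ P}, 2 * (K : ℝ) / (i.1 : ℝ) ^ 2
                = ∑ p ∈ P, 2 * (K : ℝ) / (p : ℝ) ^ 2 :=
              Finset.sum_coe_sort P (fun p => 2 * (K : ℝ) / (p : ℝ) ^ 2)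
            rw [e1]
            have e2 : ∑ p ∈ P, 2 * (K : ℝ) / (p : ℝ) ^ 2 = 2 * (K : ℝ) * ∑ p ∈ P, 1 / (p : ℝ) ^ 2 := by
              rw [Finset.mul_sum]
              refine Finset.sum_congr rfl (fun p _ => ?_)
              ring
            rw [e2]
            calc 2 * (K : ℝ) * ∑ p ∈ P, 1 / (p : ℝ) ^ 2 ≤ 2 * K * (1 / W) :=
                  mul_le_mul_of_nonneg_left (sum_inv_sq_le P W hW1 hF.big) (by positivity)
              _ = 2 * K / W := by ring
    calc (∏ i : {p // p ∈ P}, (1 + 2 * K / (i.1 : ℝ) ^ 2)) ^ Fintype.card J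
        ≤ (Real.exp (2 * K / W)) ^ Fintype.card J := by
          apply pow_le_pow_left₀ _ h1
          apply Finset.prod_nonneg
          intro i _
          positivity
      _ = Real.exp (Fintype.card J * (2 * K / W)) := by rw [← Real.exp_nat_mul]
      _ ≤ Real.exp (2 * (K : ℝ) ^ 2 / W) := by
          apply Real.exp_le_exp.2
          have hJr : (Fintype.card J : ℝ) ≤ K := by exact_mod_cast hF.card
          calc (Fintype.card J : ℝ) * (2 * K / W) ≤ K * (2 * K / W) :=
                mul_le_mul_of_nonneg_right hJr (by positivity)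
            _ = 2 * (K : ℝ) ^ 2 / W := by ring
  have hww : ∀ κ : {p // p ∈ P} → Option J, ∏ i, ww J i.1 (κ i)
      ≤ Real.exp (2 * (K : ℝ) ^ 2 / W) * ∏ j, bw (qq P K) (cfg κ j) := by
    intro κ
    calc ∏ i, ww J i.1 (κ i)
        ≤ ∏ i : {p // p ∈ P}, ∏ j : J, (if κ i = some j then
            1 / (i.1 : ℝ) + 2 * K / (i.1 : ℝ) ^ 2 else 1 - 1 / (i.1 : ℝ)) := by
          apply Finset.prod_le_prod
          · intro i _
            have h2 := tr2_big P W K hF.one_le hF.KW hF.big i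
            have hJr : (Fintype.card J : ℝ) ≤ K := by exact_mod_cast hF.card
            rcases h : κ i with _ | j
            · have hp : (0 : ℝ) < (i.1 : ℝ) := by linarith [h2.2]
              have : (Fintype.card J : ℝ) / (i.1 : ℝ) ≤ 1 := by
                rw [div_le_one hp]
                linarith [h2.1, (Nat.cast_nonneg K : (0 : ℝ) ≤ K)]
              simp only [ww]
              linarith
            · simp only [ww]
              positivity
          · intro i _
            exact ww_le P W K hF.one_le hF.KW hF.big hF.card i (κ i)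
      _ = _ := tr2_factor P K hpos κ
      _ ≤ _ := mul_le_mul_of_nonneg_right hc (Finset.prod_nonneg (fun j _ => hbw _))
  rw [EP_eq P W K M b hF F]
  calc ∑ κ : {p // p ∈ P} → Option J, F (cfg κ) * ∏ i, ww J i.1 (κ i)
      ≤ ∑ κ : {p // p ∈ P} → Option J, F (cfg κ) *
          (Real.exp (2 * (K : ℝ) ^ 2 / W) * ∏ j, bw (qq P K) (cfg κ j)) :=
        Finset.sum_le_sum (fun κ _ => mul_le_mul_of_nonneg_left (hww κ) (h0 _))
    _ = Real.exp (2 * (K : ℝ) ^ 2 / W) *
          ∑ κ : {p // p ∈ P} → Option J, F (cfg κ) * ∏ j, bw (qq P K) (cfg κ j) := by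
        rw [Finset.mul_sum]
        refine Finset.sum_congr rfl (fun κ _ => ?_)
        ring
    _ ≤ Real.exp (2 * (K : ℝ) ^ 2 / W) * EX (qq P K) F := by
        apply mul_le_mul_of_nonneg_left _ (Real.exp_pos _).le
        unfold EX
        have e : ∑ κ : {p // p ∈ P} → Option J, F (cfg κ) * ∏ j, bw (qq P K) (cfg κ j)
            = ∑ S ∈ (univ : Finset ({p // p ∈ P} → Option J)).image cfg,
                F S * ∏ j, bw (qq P K) (S j) := by
          rw [Finset.sum_image (fun a _ b _ h => tr2_cfg_injective h)]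
        rw [e]
        exact Finset.sum_le_sum_of_subset_of_nonneg (Finset.subset_univ _)
          (fun S _ _ => mul_nonneg (h0 S) (Finset.prod_nonneg (fun j _ => hbw _)))

end Pool.Agent.Lib.H15P
end

-- from Lib.H15P.TR3
section

/-!
# Chunk TR3: lower bound for the mean value over a period by the independent model
-/

open Finset

namespace Pool.Agent.Lib.H15P

variable {J : Type} [Fintype J] [DecidableEq J]

/-- What the lower bound loses at the configuration `S`: `1` if some prime is in two of the sets,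
and `2K/p` for every prime `p` of every set. -/
noncomputable def loss (P : Finset ℕ) (K : ℕ) (S : J → Finset {p // p ∈ P}) : ℝ :=
  (if ∃ j j', j ≠ j' ∧ ¬ Disjoint (S j) (S j') then 1 else 0) +
    ∑ j, ∑ p ∈ S j, 2 * (K : ℝ) / (p.1 : ℝ)

/-! ### products -/

theorem tr3_prod_one_sub {α : Type} [DecidableEq α] (s : Finset α) (x : α → ℝ)
    (h0 : ∀ a ∈ s, 0 ≤ x a) (h1 : ∀ a ∈ s, x a ≤ 1) :
    1 - ∑ a ∈ s, x a ≤ ∏ a ∈ s, (1 - x a) ∧ 0 ≤ ∏ a ∈ s, (1 - x a) ∧
      ∏ a ∈ s, (1 - x a) ≤ 1 := by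
  induction s using Finset.induction_on with
  | empty => simp
  | insert a s ha ih =>
    obtain ⟨i1, i2, i3⟩ := ih (fun b hb => h0 b (Finset.mem_insert_of_mem hb))
      (fun b hb => h1 b (Finset.mem_insert_of_mem hb))
    have ha0 := h0 a (Finset.mem_insert_self a s)
    have ha1 := h1 a (Finset.mem_insert_self a s)
    rw [Finset.sum_insert ha, Finset.prod_insert ha]
    refine ⟨?_, mul_nonneg (by linarith) i2, ?_⟩
    · nlinarith
    · nlinarith

/-- the product of the weights, prime by prime -/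
theorem tr3_prod_bw (P : Finset ℕ) (K : ℕ) (κ : {p // p ∈ P} → Option J) :
    ∏ j, bw (qq P K) (cfg κ j) =
      ∏ i, ∏ j : J, (if κ i = some j then qq P K i else 1 - qq P K i) := by
  unfold bw
  rw [Finset.prod_comm]
  refine Finset.prod_congr rfl fun i _ => Finset.prod_congr rfl fun j _ => ?_
  simp only [cfg, Finset.mem_filter, Finset.mem_univ, true_and]

/-- the product over the forms at one prime -/
theorem tr3_prod_one (a c : ℝ) (o : Option J) :
    ∏ j : J, (if o = some j then a else c) =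
      match o with
      | none => c ^ Fintype.card J
      | some _ => a * c ^ (Fintype.card J - 1) := by
  rcases o with _ | j0
  · simp
  · simp only [Option.some.injEq]
    rw [← Finset.mul_prod_erase Finset.univ _ (Finset.mem_univ j0), if_pos rfl]
    congr 1
    rw [Finset.prod_congr rfl (g := fun _ => c)]
    · rw [Finset.prod_const, Finset.card_erase_of_mem (Finset.mem_univ j0), Finset.card_univ]
    · intro j hj
      rw [if_neg (Finset.ne_of_mem_erase hj).symm]

theorem tr3_pow_le (k : ℕ) (u : ℝ) (h0 : 0 ≤ u) (h1 : u ≤ 1) :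
    (1 - u) ^ k ≤ 1 - k * u + k ^ 2 * u ^ 2 / 2 := by
  induction k with
  | zero => simp
  | succ k ih =>
    rw [pow_succ]
    have h2 : 0 ≤ 1 - u := by linarith
    have h3 := mul_le_mul_of_nonneg_right ih h2
    refine h3.trans ?_
    push_cast
    have h4 : 0 ≤ (k : ℝ) := Nat.cast_nonneg _
    have h5 : 0 ≤ u ^ 2 := sq_nonneg _
    have h6 : 0 ≤ (k : ℝ) ^ 2 * u ^ 3 := by positivity
    nlinarith

/-- one prime -/
theorem tr3_one (P : Finset ℕ) (W K : ℕ) (hK : 1 ≤ K) (hKW : 4 * K ^ 2 ≤ W)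
    (hb : ∀ p ∈ P, W < p) (hJ : Fintype.card J ≤ K) (p : {p // p ∈ P}) (o : Option J) :
    (1 - (if o = none then (K : ℝ) ^ 2 / (p.1 : ℝ) ^ 2 else 2 * K / (p.1 : ℝ))) *
      ∏ j : J, (if o = some j then qq P K p else 1 - qq P K p) ≤ ww J p.1 o := by
  have hp : W < p.1 := hb p.1 p.2
  have hK1 : (1 : ℝ) ≤ K := by exact_mod_cast hK
  have hpK : 4 * (K : ℝ) ^ 2 ≤ p.1 := by
    have : 4 * K ^ 2 ≤ p.1 := hKW.trans hp.le
    exact_mod_cast this
  set x : ℝ := (p.1 : ℝ) with hx
  have hx0 : 0 < x := by nlinarith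
  have hKx : 4 * (K : ℝ) ≤ x := by nlinarith
  have hk : (Fintype.card J : ℝ) ≤ K := by exact_mod_cast hJ
  have hk0 : (0 : ℝ) ≤ Fintype.card J := Nat.cast_nonneg _
  have hN : (1 : ℝ) ≤ 1 + 2 * K / x ^ 2 := by
    have : 0 ≤ 2 * (K : ℝ) / x ^ 2 := by positivity
    linarith
  have hq : qq P K p = (1 / x + 2 * K / x ^ 2) / (1 + 2 * K / x ^ 2) := rfl
  have hq1 : 1 - qq P K p = (1 - 1 / x) / (1 + 2 * K / x ^ 2) := by
    rw [hq, eq_div_iff (by linarith), sub_mul, div_mul_cancel₀ _ (by linarith)]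
    ring
  have hu0 : 0 ≤ 1 / x := by positivity
  have hu1 : 1 / x ≤ 1 := by rw [div_le_one hx0]; linarith
  have hqn0 : 0 ≤ 1 - qq P K p := by
    rw [hq1]
    exact div_nonneg (by linarith) (by linarith)
  have hqn1 : 1 - qq P K p ≤ 1 - 1 / x := by
    rw [hq1]
    exact div_le_self (by linarith) hN
  have hqn : 1 - qq P K p ≤ 1 := by linarith
  have hqp0 : 0 ≤ qq P K p := by rw [hq]; positivity
  have hqp : qq P K p ≤ 1 / x + 2 * K / x ^ 2 := by
    rw [hq]
    exact div_le_self (by positivity) hN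
  rw [tr3_prod_one]
  rcases o with _ | j0
  · simp only [if_true, ww]
    set k : ℝ := (Fintype.card J : ℝ) with hkdef
    have e1 : (1 - qq P K p) ^ Fintype.card J ≤ (1 - 1 / x) ^ Fintype.card J :=
      pow_le_pow_left₀ hqn0 hqn1 _
    have e2 := tr3_pow_le (Fintype.card J) (1 / x) hu0 hu1
    rw [← hkdef] at e2
    have e3 : 0 ≤ 1 - (K : ℝ) ^ 2 / x ^ 2 := by
      rw [sub_nonneg, div_le_one (by positivity)]
      nlinarith
    have e4 := mul_le_mul_of_nonneg_left (e1.trans e2) e3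
    refine e4.trans ?_
    have e5 : k * (1 / x) = k / x := by ring
    have e6 : k ^ 2 * (1 / x) ^ 2 / 2 = (k ^ 2 / x ^ 2) / 2 := by ring
    rw [e5, e6]
    set A : ℝ := k / x with hA
    have e7 : k ^ 2 / x ^ 2 = A ^ 2 := by rw [hA]; ring
    set B : ℝ := (K : ℝ) ^ 2 / x ^ 2 with hB
    have hA0 : 0 ≤ A := by positivity
    have hA1 : A ≤ 1 / 4 := by
      rw [hA, div_le_iff₀ hx0]
      linarith
    have hAB : A ^ 2 ≤ B := by
      rw [← e7, hB]
      apply div_le_div_of_nonneg_right _ (by positivity)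
      exact pow_le_pow_left₀ hk0 hk 2
    rw [e7]
    have hB0 : 0 ≤ B := by positivity
    nlinarith [mul_nonneg hB0 hA0, mul_nonneg hB0 (sq_nonneg A)]
  · simp only [reduceCtorEq, if_false, ww]
    have e1 : (1 - qq P K p) ^ (Fintype.card J - 1) ≤ 1 := pow_le_one₀ hqn0 hqn
    have e2 : 0 ≤ (1 - qq P K p) ^ (Fintype.card J - 1) := pow_nonneg hqn0 _
    have e3 : qq P K p * (1 - qq P K p) ^ (Fintype.card J - 1) ≤ 1 / x + 2 * K / x ^ 2 := by
      calc qq P K p * (1 - qq P K p) ^ (Fintype.card J - 1) ≤ qq P K p * 1 :=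
            mul_le_mul_of_nonneg_left e1 hqp0
        _ ≤ _ := by rw [mul_one]; exact hqp
    have e4 : 0 ≤ 1 - 2 * (K : ℝ) / x := by
      rw [sub_nonneg, div_le_one hx0]
      linarith
    refine (mul_le_mul_of_nonneg_left e3 e4).trans ?_
    have e5 : (1 - 2 * (K : ℝ) / x) * (1 / x + 2 * K / x ^ 2) =
        1 / x - (2 * K / x) ^ 2 * (1 / x) := by
      field_simp
      ring
    rw [e5]
    have : 0 ≤ (2 * (K : ℝ) / x) ^ 2 * (1 / x) := by positivity
    linarith

/-- One prime: `ww none = 1 - k/p ≥ (1 - K^2/p^2) (1 - 1/p)^k`, and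
`ww (some j) = 1/p ≥ (1 - 2K/p) α β^(k-1)`. Together (`∏ (1 - x_i) ≥ 1 - Σ x_i` for
`0 ≤ x_i ≤ 1`): `∏_p ww (κ p) ≥ (1 - K^2/W - Σ_(p used) 2K/p) ∏_j bw (cfg κ j)`; note that
`∏_p (1 + 2K/p^2)^k ≥ 1`. -/
theorem prod_ww_ge (P : Finset ℕ) (W K M : ℕ) (b : J → ℕ) (hF : Forms P W K M b)
    (κ : {p // p ∈ P} → Option J) :
    (1 - (K : ℝ) ^ 2 / W - ∑ j, ∑ p ∈ cfg κ j, 2 * (K : ℝ) / (p.1 : ℝ)) *
      ∏ j, bw (qq P K) (cfg κ j) ≤ ∏ i, ww J i.1 (κ i) := by
  classical
  have hK1 : (1 : ℝ) ≤ K := by exact_mod_cast hF.one_le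
  have hW1 : 1 ≤ W := by
    have := hF.KW
    have := hF.one_le
    nlinarith
  have hpK : ∀ i : {p // p ∈ P}, 4 * (K : ℝ) ^ 2 ≤ i.1 := by
    intro i
    have : 4 * K ^ 2 ≤ i.1 := hF.KW.trans (hF.big i.1 i.2).le
    exact_mod_cast this
  have hp0 : ∀ i : {p // p ∈ P}, (0 : ℝ) < i.1 := fun i => by
    have := hpK i
    nlinarith
  set x : {p // p ∈ P} → ℝ := fun i =>
    if κ i = none then (K : ℝ) ^ 2 / (i.1 : ℝ) ^ 2 else 2 * K / (i.1 : ℝ) with hx
  have hx0 : ∀ i ∈ (univ : Finset {p // p ∈ P}), 0 ≤ x i := by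
    intro i _
    simp only [hx]
    have := hp0 i
    split_ifs <;> positivity
  have hx1 : ∀ i ∈ (univ : Finset {p // p ∈ P}), x i ≤ 1 := by
    intro i _
    simp only [hx]
    have h1 := hp0 i
    have h2 := hpK i
    split_ifs
    · rw [div_le_one (by positivity)]
      have h3 : (K : ℝ) ≤ i.1 := by nlinarith
      exact pow_le_pow_left₀ (by linarith) h3 2
    · rw [div_le_one h1]
      nlinarith
  obtain ⟨g1, g2, -⟩ := tr3_prod_one_sub univ x hx0 hx1
  have hbw : 0 ≤ ∏ j, bw (qq P K) (cfg κ j) := by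
    refine Finset.prod_nonneg fun j _ => bw_nonneg _ (qq_nonneg P K) (fun p => ?_) _
    have h1 := qq_le P W K hF.one_le hF.KW hF.big p
    have h2 := hpK p
    refine h1.trans ?_
    rw [div_le_one (hp0 p)]
    nlinarith
  have hone : (∏ i, (1 - x i)) * ∏ j, bw (qq P K) (cfg κ j) ≤ ∏ i, ww J i.1 (κ i) := by
    rw [tr3_prod_bw, ← Finset.prod_mul_distrib]
    refine Finset.prod_le_prod (fun i hi => ?_) (fun i _ => ?_)
    · refine mul_nonneg (by linarith [hx1 i hi]) (Finset.prod_nonneg fun j _ => ?_)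
      have h1 := qq_nonneg P K i
      have h2 := qq_le P W K hF.one_le hF.KW hF.big i
      have h3 : 2 / ((i.1 : ℕ) : ℝ) ≤ 1 := by
        rw [div_le_one (hp0 i)]
        have := hpK i
        nlinarith
      split_ifs
      · exact h1
      · linarith
    · exact tr3_one P W K hF.one_le hF.KW hF.big hF.card i (κ i)
  refine le_trans (mul_le_mul_of_nonneg_right ?_ hbw) hone
  refine le_trans ?_ g1
  -- compare the sums
  have s1 : ∑ i, x i ≤ (K : ℝ) ^ 2 / W + ∑ j, ∑ p ∈ cfg κ j, 2 * (K : ℝ) / (p.1 : ℝ) := by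
    have t1 : ∀ i, x i ≤ (K : ℝ) ^ 2 * (1 / (i.1 : ℝ) ^ 2) +
        ∑ j : J, (if κ i = some j then 2 * (K : ℝ) / (i.1 : ℝ) else 0) := by
      intro i
      have h1 := hp0 i
      simp only [hx]
      rcases hκ : κ i with _ | j0
      · simp only [if_true]
        have : (K : ℝ) ^ 2 / (i.1 : ℝ) ^ 2 = (K : ℝ) ^ 2 * (1 / (i.1 : ℝ) ^ 2) := by ring
        rw [this]
        simp
      · simp only [reduceCtorEq, if_false, Option.some.injEq]
        rw [Finset.sum_ite_eq univ j0]
        simp only [Finset.mem_univ, if_true]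
        have : 0 ≤ (K : ℝ) ^ 2 * (1 / (i.1 : ℝ) ^ 2) := by positivity
        linarith
    refine (Finset.sum_le_sum fun i _ => t1 i).trans ?_
    rw [Finset.sum_add_distrib, ← Finset.mul_sum]
    refine add_le_add ?_ ?_
    · have h1 := sum_inv_sq_le P W hW1 hF.big
      have h2 : ∑ i : {p // p ∈ P}, 1 / ((i.1 : ℕ) : ℝ) ^ 2 = ∑ p ∈ P, 1 / (p : ℝ) ^ 2 :=
        Finset.sum_coe_sort P (fun p => 1 / (p : ℝ) ^ 2)
      rw [h2]
      calc (K : ℝ) ^ 2 * ∑ p ∈ P, 1 / (p : ℝ) ^ 2 ≤ (K : ℝ) ^ 2 * (1 / W) :=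
            mul_le_mul_of_nonneg_left h1 (by positivity)
        _ = (K : ℝ) ^ 2 / W := by ring
    · rw [Finset.sum_comm]
      refine Finset.sum_le_sum fun j _ => ?_
      unfold cfg
      rw [Finset.sum_filter]
  linarith

/-! ### moments of the loss -/

/-- probability that the random set contains `B` -/
theorem tr3_ex_subset {ι : Type} [Fintype ι] [DecidableEq ι] (q : ι → ℝ) (B : Finset ι) :
    ex q (fun A => if B ⊆ A then 1 else 0) = ∏ i ∈ B, q i := by
  unfold ex bw
  have h1 : ∀ A : Finset ι, (if B ⊆ A then (1 : ℝ) else 0) * ∏ i, (if i ∈ A then q i else 1 - q i)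
      = (∏ i ∈ A, q i) * ∏ i ∈ univ \ A, (if i ∈ B then 0 else 1 - q i) := by
    intro A
    have e1 : ∏ i, (if i ∈ A then q i else 1 - q i) =
        (∏ i ∈ A, q i) * ∏ i ∈ univ \ A, (1 - q i) := by
      rw [← Finset.prod_sdiff (Finset.subset_univ A), mul_comm]
      congr 1
      · exact Finset.prod_congr rfl fun i hi => by rw [if_pos hi]
      · exact Finset.prod_congr rfl fun i hi => by
          rw [if_neg (Finset.mem_sdiff.mp hi).2]
    rw [e1]
    by_cases hB : B ⊆ A
    · rw [if_pos hB, one_mul]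
      congr 1
      refine Finset.prod_congr rfl fun i hi => ?_
      rw [if_neg fun h => (Finset.mem_sdiff.mp hi).2 (hB h)]
    · rw [if_neg hB, zero_mul]
      obtain ⟨i, hi, hiA⟩ := Finset.not_subset.mp hB
      have : ∏ i ∈ univ \ A, (if i ∈ B then (0 : ℝ) else 1 - q i) = 0 :=
        Finset.prod_eq_zero (Finset.mem_sdiff.mpr ⟨Finset.mem_univ i, hiA⟩) (by rw [if_pos hi])
      rw [this, mul_zero]
  simp_rw [h1]
  have h2 := Finset.prod_add (fun i => q i) (fun i => if i ∈ B then (0 : ℝ) else 1 - q i)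
    (univ : Finset ι)
  have h3 : (univ : Finset ι).powerset = (univ : Finset (Finset ι)) := Finset.powerset_univ
  rw [h3] at h2
  rw [← h2]
  have h4 : ∀ i, q i + (if i ∈ B then (0 : ℝ) else 1 - q i) = if i ∈ B then q i else 1 := by
    intro i
    split_ifs <;> ring
  simp_rw [h4]
  rw [Finset.prod_ite_mem, Finset.univ_inter]



/-- indicator of `p ∈ S j` -/
noncomputable def tr3_ind {ι : Type} [DecidableEq ι] (S : J → Finset ι) (a : J × ι) : ℝ :=
  if a.2 ∈ S a.1 then 1 else 0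




/-- the configuration of a disjoint family -/
theorem tr3_exists_cfg {P : Finset ℕ} (S : J → Finset {p // p ∈ P})
    (h : ∀ j j', j ≠ j' → Disjoint (S j) (S j')) :
    ∃ κ : {p // p ∈ P} → Option J, cfg κ = S := by
  classical
  refine ⟨fun i => if h : ∃ j, i ∈ S j then some h.choose else none, ?_⟩
  funext j
  ext i
  simp only [cfg, Finset.mem_filter, Finset.mem_univ, true_and]
  constructor
  · intro hi
    by_cases hex : ∃ j, i ∈ S j
    · rw [dif_pos hex] at hi
      have h1 := hex.choose_spec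
      rw [Option.some.injEq] at hi
      rwa [hi] at h1
    · rw [dif_neg hex] at hi
      exact absurd hi (by simp)
  · intro hi
    have hex : ∃ j, i ∈ S j := ⟨j, hi⟩
    rw [dif_pos hex]
    congr 1
    by_contra hne
    have h1 := hex.choose_spec
    exact Finset.disjoint_left.mp (h _ _ hne) h1 hi

theorem tr3_cfg_inj {P : Finset ℕ} :
    Function.Injective (cfg : ({p // p ∈ P} → Option J) → J → Finset {p // p ∈ P}) := by
  intro κ κ' h
  funext i
  have h1 : ∀ j, (κ i = some j ↔ κ' i = some j) := by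
    intro j
    have h2 := congrFun h j
    have h3 : i ∈ cfg κ j ↔ i ∈ cfg κ' j := by rw [h2]
    simpa [cfg] using h3
  rcases h4 : κ i with _ | j
  · rcases h5 : κ' i with _ | j'
    · rfl
    · have := (h1 j').mpr h5
      rw [h4] at this
      exact absurd this (by simp)
  · have := (h1 j).mp h4
    rw [this]

theorem tr3_cfg_disj {P : Finset ℕ} (κ : {p // p ∈ P} → Option J) (j j' : J) (h : j ≠ j') :
    Disjoint (cfg κ j) (cfg κ j') := by
  rw [Finset.disjoint_left]
  intro i hi hi'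
  simp only [cfg, Finset.mem_filter, Finset.mem_univ, true_and] at hi hi'
  rw [hi, Option.some.injEq] at hi'
  exact h hi'


end Pool.Agent.Lib.H15P
end

-- from Lib.H59C.PVI
section

/-!
# PVI: the inequality of Pólya and Vinogradov
-/

open Finset

namespace Pool.Agent.Lib.H59C

/-- The norm of the Gauss sum of a primitive character. -/
theorem PVI_tau (r : ℕ) [NeZero r] (χ : DirichletCharacter ℂ r) (hχ : χ.IsPrimitive) :
    ‖gaussSum χ (ZMod.stdAddChar (N := r))‖ ^ 2 = r := by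
  classical
  set e : AddChar (ZMod r) ℂ := ZMod.stdAddChar with he
  set τ : ℂ := gaussSum χ e with hτ
  have hprim : e.IsPrimitive := ZMod.isPrimitive_stdAddChar r
  have hconj : ∀ x : ZMod r, (starRingEnd ℂ) (e x) = e (-x) := by
    intro x
    rw [AddChar.map_neg_eq_inv, Complex.inv_eq_conj (AddChar.norm_apply e x)]
  have hinv : ∀ a : ZMod r, ‖χ⁻¹ a‖ = ‖χ a‖ := by
    intro a
    rw [← MulChar.star_apply' χ a, norm_star]
  set Q : ℝ := ∑ a : ZMod r, ‖χ a‖ ^ 2 with hQ
  have hQ0 : 0 < Q := by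
    refine Finset.sum_pos' (fun a _ => by positivity) ⟨1, Finset.mem_univ _, ?_⟩
    rw [map_one, norm_one]
    norm_num
  have h1 : ∑ a : ZMod r, ‖gaussSum χ (e.mulShift a)‖ ^ 2 = Q * ‖τ‖ ^ 2 := by
    rw [hQ, Finset.sum_mul]
    refine Finset.sum_congr rfl fun a _ => ?_
    rw [gaussSum_mulShift_of_isPrimitive e hχ a, norm_mul, hinv, mul_pow]
  have h2 : ((∑ a : ZMod r, ‖gaussSum χ (e.mulShift a)‖ ^ 2 : ℝ) : ℂ) = r * (Q : ℂ) := by
    have e1 : ∀ a : ZMod r, ((‖gaussSum χ (e.mulShift a)‖ ^ 2 : ℝ) : ℂ) =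
        ∑ b : ZMod r, ∑ c : ZMod r, χ b * (starRingEnd ℂ) (χ c) * e (a * (b - c)) := by
      intro a
      have h3 : ((‖gaussSum χ (e.mulShift a)‖ ^ 2 : ℝ) : ℂ) =
          gaussSum χ (e.mulShift a) * (starRingEnd ℂ) (gaussSum χ (e.mulShift a)) := by
        rw [Complex.mul_conj']
        push_cast
        rfl
      rw [h3, gaussSum, map_sum, Finset.sum_mul_sum]
      refine Finset.sum_congr rfl fun b _ => Finset.sum_congr rfl fun c _ => ?_
      have h5 : (starRingEnd ℂ) (χ c * (e.mulShift a) c) =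
          (starRingEnd ℂ) (χ c) * e (-(a * c)) := by
        rw [AddChar.mulShift_apply, ← hconj]
        exact map_mul (starRingEnd ℂ) _ _
      rw [h5, AddChar.mulShift_apply]
      have h4 : e (a * (b - c)) = e (a * b) * e (-(a * c)) := by
        rw [← AddChar.map_add_eq_mul]
        congr 1
        ring
      rw [h4]
      ring
    rw [Complex.ofReal_sum, Finset.sum_congr rfl fun a _ => e1 a, Finset.sum_comm]
    have e2 : ∀ b : ZMod r, ∑ a : ZMod r, ∑ c : ZMod r,
        χ b * (starRingEnd ℂ) (χ c) * e (a * (b - c)) = r * ((‖χ b‖ ^ 2 : ℝ) : ℂ) := by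
      intro b
      rw [Finset.sum_comm, Finset.sum_eq_single b]
      · rw [← Finset.mul_sum, AddChar.sum_mulShift _ hprim, sub_self, if_pos rfl, ZMod.card,
          Complex.mul_conj']
        push_cast
        ring
      · intro c _ hcb
        rw [← Finset.mul_sum, AddChar.sum_mulShift _ hprim, if_neg (sub_ne_zero.mpr hcb.symm)]
        simp
      · intro h
        exact absurd (Finset.mem_univ b) h
    rw [Finset.sum_congr rfl fun b _ => e2 b, ← Finset.mul_sum, hQ, Complex.ofReal_sum]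
  rw [h1] at h2
  have h3 : Q * ‖τ‖ ^ 2 = r * Q := by
    have : ((Q * ‖τ‖ ^ 2 : ℝ) : ℂ) = ((r * Q : ℝ) : ℂ) := by
      rw [h2]
      push_cast
      rfl
    exact_mod_cast this
  have h4 : Q * ‖τ‖ ^ 2 = Q * r := by rw [h3]; ring
  exact mul_left_cancel₀ hQ0.ne' h4

theorem PVI_sin (t : ℝ) (h0 : 0 ≤ t) (h1 : t ≤ 1) :
    2 * (t * (1 - t)) ≤ Real.sin (Real.pi * t) := by
  have hpi := Real.pi_pos
  have key : ∀ s : ℝ, 0 ≤ s → s ≤ 1 / 2 → 2 * (s * (1 - s)) ≤ Real.sin (Real.pi * s) := by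
    intro s hs0 hs1
    have h := Real.mul_le_sin (x := Real.pi * s) (by positivity) (by nlinarith)
    have e : 2 / Real.pi * (Real.pi * s) = 2 * s := by
      field_simp
    rw [e] at h
    nlinarith
  rcases le_total t (1 / 2) with h | h
  · exact key t h0 h
  · have h2 := key (1 - t) (by linarith) (by linarith)
    have e : Real.sin (Real.pi * (1 - t)) = Real.sin (Real.pi * t) := by
      rw [mul_sub, mul_one, Real.sin_pi_sub]
    rw [e] at h2
    nlinarith

/-- Geometric sums of a nontrivial additive character. -/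
theorem PVI_geom (r : ℕ) [NeZero r] (b : ZMod r) (hb : b ≠ 0) (u v : ℕ) :
    ‖∑ n ∈ Ico u v, ZMod.stdAddChar ((n : ZMod r) * b)‖ ≤
      r / 2 * ((b.val : ℝ)⁻¹ + ((r - b.val : ℕ) : ℝ)⁻¹) := by
  have hr : 0 < r := Nat.pos_of_ne_zero (NeZero.ne r)
  have hbr : b.val < r := ZMod.val_lt b
  have hb0 : 0 < b.val := Nat.pos_of_ne_zero fun h => hb ((ZMod.val_eq_zero b).mp h)
  have hbr' : ((r - b.val : ℕ) : ℝ) = (r : ℝ) - b.val := by
    rw [Nat.cast_sub hbr.le]
  have hrR : (0 : ℝ) < r := by exact_mod_cast hr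
  have hbR : (0 : ℝ) < b.val := by exact_mod_cast hb0
  have hbrR : (b.val : ℝ) < r := by exact_mod_cast hbr
  have hrhs : 0 ≤ (r : ℝ) / 2 * ((b.val : ℝ)⁻¹ + ((r - b.val : ℕ) : ℝ)⁻¹) := by positivity
  rcases le_or_gt v u with huv | huv
  · rw [Finset.Ico_eq_empty_of_le huv, Finset.sum_empty, norm_zero]
    exact hrhs
  set z : ℂ := ZMod.stdAddChar b with hz
  have hzn : ‖z‖ = 1 := AddChar.norm_apply _ _
  have h1 : ∑ n ∈ Ico u v, ZMod.stdAddChar ((n : ZMod r) * b) = ∑ n ∈ Ico u v, z ^ n := by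
    refine Finset.sum_congr rfl fun n _ => ?_
    rw [← nsmul_eq_mul, AddChar.map_nsmul_eq_pow]
  set t : ℝ := b.val / r with ht
  have ht0 : 0 < t := by positivity
  have ht1 : t < 1 := by rw [ht, div_lt_one hrR]; exact hbrR
  have hzt : z = Complex.exp (Complex.I * ((2 * Real.pi * t : ℝ) : ℂ)) := by
    have h2 : z = ZMod.stdAddChar (((b.val : ℤ)) : ZMod r) := by
      rw [hz]
      congr 1
      rw [Int.cast_natCast, ZMod.natCast_zmod_val]
    rw [h2, ZMod.stdAddChar_coe]
    congr 1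
    rw [ht]
    push_cast
    ring
  have hsin := PVI_sin t ht0.le ht1.le
  have hpos : 0 < t * (1 - t) := mul_pos ht0 (by linarith)
  have hz1 : 4 * (t * (1 - t)) ≤ ‖z - 1‖ := by
    rw [hzt, Complex.norm_exp_I_mul_ofReal_sub_one, Real.norm_eq_abs]
    have e : 2 * Real.pi * t / 2 = Real.pi * t := by ring
    rw [e]
    refine le_trans ?_ (le_abs_self _)
    linarith
  have hz1' : 0 < ‖z - 1‖ := lt_of_lt_of_le (by linarith) hz1
  have hgeom : (∑ n ∈ Ico u v, z ^ n) * (z - 1) = z ^ v - z ^ u := geom_sum_Ico_mul z huv.le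
  have hnorm : ‖∑ n ∈ Ico u v, z ^ n‖ * ‖z - 1‖ ≤ 2 := by
    rw [← norm_mul, hgeom]
    refine (norm_sub_le _ _).trans ?_
    rw [norm_pow, norm_pow, hzn, one_pow, one_pow]
    norm_num
  rw [h1]
  have h5 : ‖∑ n ∈ Ico u v, z ^ n‖ * (4 * (t * (1 - t))) ≤ 2 :=
    (mul_le_mul_of_nonneg_left hz1 (norm_nonneg _)).trans hnorm
  have h6 : ‖∑ n ∈ Ico u v, z ^ n‖ ≤ 2 / (4 * (t * (1 - t))) := by
    rw [le_div_iff₀ (by linarith)]
    exact h5
  refine h6.trans (le_of_eq ?_)
  rw [hbr', ht]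
  have hne : (r : ℝ) - b.val ≠ 0 := by linarith
  field_simp
  ring

/-- `|∑_{u ≤ n < v} χ(n)| ≤ C √r log r` for primitive `χ` mod `r > 1`.

Proof. `χ(n) = τ(χ̄)⁻¹ ∑_{b mod r} χ̄(b) e(b n/r)` (`gaussSum_mulShift_of_isPrimitive`), `|τ|² = r` (as in
`LSB`: Parseval), and `|∑_{u ≤ n < v} e(b n/r)| ≤ 1/|sin(π b/r)| ≤ r/(2 min(b, r-b))` for `0 < b < r`
(`b = 0` does not contribute, `χ̄(0) = 0`); so the sum is at most
`r^(-1/2) ∑_{0<b<r} r/(2 min(b, r - b)) ≤ √r (1 + log r)`. -/
theorem polya_vinogradov : ∃ C : ℝ, 0 < C ∧ ∀ (r : ℕ) [NeZero r] (χ : DirichletCharacter ℂ r),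
    1 < r → χ.IsPrimitive → ∀ u v : ℕ,
    ‖∑ n ∈ Ico u v, χ (n : ZMod r)‖ ≤ C * Real.sqrt r * Real.log r := by
  refine ⟨1 / Real.log 2 + 1, by positivity, ?_⟩
  intro r _ χ hr hχ u v
  classical
  set e : AddChar (ZMod r) ℂ := ZMod.stdAddChar with he
  set τ : ℂ := gaussSum χ e with hτ
  have hτ2 : ‖τ‖ ^ 2 = r := PVI_tau r χ hχ
  have hrR : (1 : ℝ) < r := by exact_mod_cast hr
  have hτs : ‖τ‖ = Real.sqrt r := by
    rw [← hτ2, Real.sqrt_sq (norm_nonneg _)]
  have hconj : ‖∑ n ∈ Ico u v, χ (n : ZMod r)‖ = ‖∑ n ∈ Ico u v, χ⁻¹ (n : ZMod r)‖ := by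
    rw [← norm_star (∑ n ∈ Ico u v, χ (n : ZMod r)), star_sum]
    congr 1
    exact Finset.sum_congr rfl fun n _ => MulChar.star_apply' χ _
  have hmain : (∑ n ∈ Ico u v, χ⁻¹ (n : ZMod r)) * τ =
      ∑ b : ZMod r, χ b * ∑ n ∈ Ico u v, e ((n : ZMod r) * b) := by
    rw [Finset.sum_mul]
    have h1 : ∀ n ∈ Ico u v, χ⁻¹ (n : ZMod r) * τ = ∑ b : ZMod r, χ b * e ((n : ZMod r) * b) := by
      intro n _
      rw [hτ, ← gaussSum_mulShift_of_isPrimitive e hχ, gaussSum]
      exact Finset.sum_congr rfl fun b _ => by rw [AddChar.mulShift_apply]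
    rw [Finset.sum_congr rfl h1, Finset.sum_comm]
    exact Finset.sum_congr rfl fun b _ => by rw [Finset.mul_sum]
  set G : ℕ → ℝ := fun k => (r : ℝ) / 2 * ((k : ℝ)⁻¹ + ((r - k : ℕ) : ℝ)⁻¹) with hG
  set F : ℕ → ℝ := fun k => if k = 0 then 0 else G k with hF
  have hbound : ‖∑ b : ZMod r, χ b * ∑ n ∈ Ico u v, e ((n : ZMod r) * b)‖ ≤
      ∑ b : ZMod r, F b.val := by
    refine (norm_sum_le _ _).trans (Finset.sum_le_sum fun b _ => ?_)
    rw [norm_mul]
    by_cases hb : b = 0
    · rw [hb, DirichletCharacter.map_zero' χ (by omega), norm_zero, zero_mul, hF]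
      simp
    · have hb' : b.val ≠ 0 := fun h => hb ((ZMod.val_eq_zero b).mp h)
      rw [hF]
      simp only [if_neg hb', hG]
      calc ‖χ b‖ * ‖∑ n ∈ Ico u v, e ((n : ZMod r) * b)‖
          ≤ 1 * ‖∑ n ∈ Ico u v, e ((n : ZMod r) * b)‖ :=
            mul_le_mul_of_nonneg_right (DirichletCharacter.norm_le_one χ b) (norm_nonneg _)
        _ = ‖∑ n ∈ Ico u v, e ((n : ZMod r) * b)‖ := one_mul _
        _ ≤ _ := PVI_geom r b hb u v
  have hsum1 : ∑ b : ZMod r, F b.val = ∑ k ∈ range r, F k := by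
    refine Finset.sum_nbij' (fun b : ZMod r => b.val) (fun k : ℕ => (k : ZMod r)) ?_ ?_ ?_ ?_ ?_
    · intro b _
      exact Finset.mem_range.mpr (ZMod.val_lt b)
    · intro k _
      exact Finset.mem_univ _
    · intro b _
      exact ZMod.natCast_zmod_val b
    · intro k hk
      exact ZMod.val_cast_of_lt (Finset.mem_range.mp hk)
    · intro b _
      rfl
  have hsum2 : ∑ k ∈ range r, F k = ∑ k ∈ Ico 1 r, G k := by
    rw [Finset.range_eq_Ico, Finset.sum_eq_sum_Ico_succ_bot (by omega)]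
    have : F 0 = 0 := by rw [hF]; simp
    rw [this, zero_add]
    refine Finset.sum_congr rfl fun k hk => ?_
    have hk0 : k ≠ 0 := by
      have := (Finset.mem_Ico.mp hk).1
      omega
    rw [hF]
    simp only [if_neg hk0]
  have hsum3 : ∑ k ∈ Ico 1 r, G k = r * ∑ k ∈ Ico 1 r, (k : ℝ)⁻¹ := by
    rw [hG, ← Finset.mul_sum, Finset.sum_add_distrib]
    have h1 := Finset.sum_Ico_reflect (fun k : ℕ => (k : ℝ)⁻¹) 1 (m := r) (n := r) (by omega)
    rw [h1]
    have e1 : r + 1 - r = 1 := by omega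
    have e2 : r + 1 - 1 = r := by omega
    rw [e1, e2]
    ring
  have hharm : ∑ k ∈ Ico 1 r, (k : ℝ)⁻¹ ≤ 1 + Real.log r := by
    have h1 : ∑ k ∈ Ico 1 r, (k : ℝ)⁻¹ = ((harmonic (r - 1) : ℚ) : ℝ) := by
      rw [harmonic_eq_sum_Icc]
      push_cast
      refine Finset.sum_congr ?_ fun _ _ => rfl
      ext k
      simp only [Finset.mem_Ico, Finset.mem_Icc]
      omega
    rw [h1]
    refine (harmonic_le_one_add_log (r - 1)).trans ?_
    have h2 : Real.log ((r - 1 : ℕ) : ℝ) ≤ Real.log r := by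
      apply Real.log_le_log
      · have : 0 < r - 1 := by omega
        exact_mod_cast this
      · exact_mod_cast Nat.sub_le r 1
    linarith
  have hτpos : 0 < ‖τ‖ := by
    rw [hτs]
    exact Real.sqrt_pos.mpr (by linarith)
  have h5 : ‖∑ n ∈ Ico u v, χ⁻¹ (n : ZMod r)‖ * ‖τ‖ ≤ r * (1 + Real.log r) := by
    rw [← norm_mul, hmain]
    refine hbound.trans ?_
    rw [hsum1, hsum2, hsum3]
    exact mul_le_mul_of_nonneg_left hharm (by linarith)
  have hsq : Real.sqrt r * Real.sqrt r = r := Real.mul_self_sqrt (by linarith)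
  have h6 : ‖∑ n ∈ Ico u v, χ⁻¹ (n : ZMod r)‖ ≤ Real.sqrt r * (1 + Real.log r) := by
    rw [hτs] at h5 hτpos
    have h7 : ‖∑ n ∈ Ico u v, χ⁻¹ (n : ZMod r)‖ * Real.sqrt r ≤
        (Real.sqrt r * (1 + Real.log r)) * Real.sqrt r := by
      refine h5.trans (le_of_eq ?_)
      calc (r : ℝ) * (1 + Real.log r) = (Real.sqrt r * Real.sqrt r) * (1 + Real.log r) := by
            rw [hsq]
        _ = (Real.sqrt r * (1 + Real.log r)) * Real.sqrt r := by ring
    exact le_of_mul_le_mul_right h7 hτpos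
  rw [hconj]
  refine h6.trans ?_
  have hlog2 : 0 < Real.log 2 := Real.log_pos (by norm_num)
  have hlogr : Real.log 2 ≤ Real.log r := by
    apply Real.log_le_log (by norm_num)
    exact_mod_cast hr
  have h8 : 1 ≤ 1 / Real.log 2 * Real.log r := by
    rw [one_div, inv_mul_eq_div, le_div_iff₀ hlog2]
    linarith
  have h9 : 1 + Real.log r ≤ (1 / Real.log 2 + 1) * Real.log r := by
    rw [add_mul, one_mul]
    linarith
  calc Real.sqrt r * (1 + Real.log r) ≤ Real.sqrt r * ((1 / Real.log 2 + 1) * Real.log r) :=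
        mul_le_mul_of_nonneg_left h9 (Real.sqrt_nonneg _)
    _ = (1 / Real.log 2 + 1) * Real.sqrt r * Real.log r := by ring

end Pool.Agent.Lib.H59C
end

-- from Lib.Helper57.Bonferroni
section

/-!
Truncated inclusion-exclusion, and an abstract combinatorial sieve in the style of Hooley:
the sieving set is cut into blocks, and inclusion-exclusion is truncated in each block.
-/

open Finset

namespace Pool.Agent.Lib.Helper57

set_option linter.unusedSectionVars false
set_option linter.unusedSimpArgs false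

variable {ι : Type*} [DecidableEq ι]

/-- The general finite expression `∑_{S ∈ F} c(S) ∏_{p ∈ S} f p`. -/
def ev (F : Finset (Finset ι)) (c : Finset ι → ℝ) (f : ι → ℝ) : ℝ :=
  ∑ S ∈ F, c S * ∏ p ∈ S, f p

/-- Subsets of `P` with at most `t` elements. -/
def small (P : Finset ι) (t : ℕ) : Finset (Finset ι) := P.powerset.filter fun S => S.card ≤ t

/-- The sign `(-1)^{|S|}`. -/
def sgn (S : Finset ι) : ℝ := (-1) ^ S.card

/-- The inclusion-exclusion sum over subsets of size at most `t`. -/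
def T (P : Finset ι) (t : ℕ) (f : ι → ℝ) : ℝ := ev (small P t) sgn f

/-- The elementary symmetric sum of degree `t`. -/
def E (P : Finset ι) (t : ℕ) (f : ι → ℝ) : ℝ := ev (P.powersetCard t) (fun _ => 1) f

/-- The full product. -/
def V (P : Finset ι) (f : ι → ℝ) : ℝ := ∏ p ∈ P, (1 - f p)

lemma T_eq_ite (P : Finset ι) (t : ℕ) (f : ι → ℝ) :
    T P t f = ∑ S ∈ P.powerset, if S.card ≤ t then sgn S * ∏ p ∈ S, f p else 0 := by
  unfold T ev small
  rw [Finset.sum_filter]

lemma E_eq_ite (P : Finset ι) (t : ℕ) (f : ι → ℝ) :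
    E P t f = ∑ S ∈ P.powerset, if S.card = t then ∏ p ∈ S, f p else 0 := by
  unfold E ev
  rw [← Finset.sum_filter, Finset.powersetCard_eq_filter]
  simp

lemma T_zero (P : Finset ι) (f : ι → ℝ) : T P 0 f = 1 := by
  rw [T_eq_ite]
  rw [Finset.sum_eq_single (∅ : Finset ι)]
  · simp [sgn]
  · intro S _ hS
    have : ¬ S.card ≤ 0 := by
      rw [Nat.le_zero, Finset.card_eq_zero]; exact hS
    simp [this]
  · intro h; exact absurd (Finset.empty_mem_powerset P) h

lemma T_insert {P : Finset ι} {q : ι} (hq : q ∉ P) (t : ℕ) (f : ι → ℝ) :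
    T (insert q P) (t + 1) f = T P (t + 1) f - f q * T P t f := by
  rw [T_eq_ite, T_eq_ite, T_eq_ite, Finset.sum_powerset_insert hq, Finset.mul_sum, sub_eq_add_neg,
    ← Finset.sum_neg_distrib]
  congr 1
  apply Finset.sum_congr rfl
  intro S hS
  have hqS : q ∉ S := fun h => hq (Finset.mem_powerset.mp hS h)
  rw [Finset.card_insert_of_notMem hqS]
  by_cases h : S.card ≤ t
  · have h' : S.card + 1 ≤ t + 1 := by omega
    simp only [h, h', if_true]
    rw [Finset.prod_insert hqS]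
    unfold sgn
    rw [Finset.card_insert_of_notMem hqS]
    ring
  · have h' : ¬ S.card + 1 ≤ t + 1 := by omega
    simp only [h, h', if_false]
    ring

lemma T_empty (t : ℕ) (f : ι → ℝ) : T (∅ : Finset ι) t f = 1 := by
  rw [T_eq_ite]
  simp [sgn]

lemma E_zero (P : Finset ι) (f : ι → ℝ) : E P 0 f = 1 := by
  unfold E ev; simp


/-- Bonferroni inequalities. -/
lemma bonferroni (P : Finset ι) (f : ι → ℝ) (hf : ∀ p ∈ P, 0 ≤ f p ∧ f p ≤ 1) (t : ℕ) :
    0 ≤ (-1) ^ t * (T P t f - V P f) := by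
  induction P using Finset.induction_on generalizing t with
  | empty => rw [T_empty]; simp [V]
  | insert q P hq ih =>
    have hf' : ∀ p ∈ P, 0 ≤ f p ∧ f p ≤ 1 := fun p hp => hf p (Finset.mem_insert_of_mem hp)
    have hfq := hf q (Finset.mem_insert_self q P)
    have hV : V (insert q P) f = (1 - f q) * V P f := by
      unfold V; rw [Finset.prod_insert hq]
    cases t with
    | zero =>
      rw [T_zero]
      have : V (insert q P) f ≤ 1 := by
        unfold V
        apply Finset.prod_le_one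
        · intro p hp; linarith [(hf p hp).2]
        · intro p hp; linarith [(hf p hp).1]
      simp; exact this
    | succ t =>
      rw [T_insert hq, hV]
      have h1 := ih hf' (t + 1)
      have h2 := ih hf' t
      have e : (-1 : ℝ) ^ (t + 1) * (T P (t + 1) f - f q * T P t f - (1 - f q) * V P f) =
          (-1) ^ (t + 1) * (T P (t + 1) f - V P f) + f q * ((-1) ^ t * (T P t f - V P f)) := by
        rw [pow_succ]; ring
      rw [e]
      have := mul_nonneg hfq.1 h2
      linarith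

lemma V_le_T {P : Finset ι} {f : ι → ℝ} (hf : ∀ p ∈ P, 0 ≤ f p ∧ f p ≤ 1) {t : ℕ} (ht : Even t) :
    V P f ≤ T P t f := by
  have := bonferroni P f hf t
  rw [ht.neg_one_pow, one_mul] at this
  linarith

lemma T_succ (P : Finset ι) (t : ℕ) (f : ι → ℝ) :
    T P (t + 1) f = T P t f + (-1) ^ (t + 1) * E P (t + 1) f := by
  rw [T_eq_ite, T_eq_ite, E_eq_ite, Finset.mul_sum, ← Finset.sum_add_distrib]
  apply Finset.sum_congr rfl
  intro S _
  by_cases h : S.card ≤ t
  · have h1 : S.card ≤ t + 1 := by omega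
    have h2 : ¬ S.card = t + 1 := by omega
    simp [h, h1, h2]
  · by_cases h2 : S.card = t + 1
    · have h1 : S.card ≤ t + 1 := by omega
      simp only [h, h1, h2, if_true, if_false, sgn]
      simp
    · have h1 : ¬ S.card ≤ t + 1 := by omega
      simp [h, h1, h2]

lemma T_sub_E_le {P : Finset ι} {f : ι → ℝ} (hf : ∀ p ∈ P, 0 ≤ f p ∧ f p ≤ 1) {t : ℕ}
    (ht : Even t) : T P t f - E P t f ≤ V P f := by
  cases t with
  | zero =>
    rw [T_zero, E_zero]
    have : 0 ≤ V P f := Finset.prod_nonneg fun p hp => by linarith [(hf p hp).2]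
    linarith
  | succ t =>
    have hodd : Odd t := by
      rcases Nat.even_or_odd t with h | h
      · exact absurd ht (by simpa [Nat.even_add_one] using h)
      · exact h
    rw [T_succ, ht.neg_one_pow]
    have := bonferroni P f hf t
    rw [hodd.neg_one_pow] at this
    linarith

lemma V_nonneg {P : Finset ι} {f : ι → ℝ} (hf : ∀ p ∈ P, 0 ≤ f p ∧ f p ≤ 1) : 0 ≤ V P f :=
  Finset.prod_nonneg fun p hp => by linarith [(hf p hp).2]





/-- Telescoping upper bound for the difference of two products. -/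
lemma prod_sub_prod_le {κ : Type*} [DecidableEq κ] (J : Finset κ) (u v : κ → ℝ)
    (h : ∀ j ∈ J, 0 ≤ v j ∧ v j ≤ u j) :
    ∏ j ∈ J, u j - ∏ j ∈ J, v j ≤ ∑ j ∈ J, (u j - v j) * ∏ i ∈ J.erase j, u i := by
  induction J using Finset.induction_on with
  | empty => simp
  | insert a J ha ih =>
    have h' : ∀ j ∈ J, 0 ≤ v j ∧ v j ≤ u j := fun j hj => h j (Finset.mem_insert_of_mem hj)
    have ha' := h a (Finset.mem_insert_self a J)
    rw [Finset.prod_insert ha, Finset.prod_insert ha, Finset.sum_insert ha,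
      Finset.erase_insert ha]
    have e : ∑ j ∈ J, (u j - v j) * ∏ i ∈ (insert a J).erase j, u i =
        u a * ∑ j ∈ J, (u j - v j) * ∏ i ∈ J.erase j, u i := by
      rw [Finset.mul_sum]
      apply Finset.sum_congr rfl
      intro j hj
      have hja : j ≠ a := fun h => ha (h ▸ hj)
      rw [Finset.erase_insert_of_ne hja.symm, Finset.prod_insert (by
        intro hmem; exact ha (Finset.mem_of_mem_erase hmem))]
      ring
    rw [e]
    have h1 := mul_le_mul_of_nonneg_left (ih h') (ha'.1.trans ha'.2)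
    have h2 : ∏ j ∈ J, v j ≤ ∏ j ∈ J, u j :=
      Finset.prod_le_prod (fun j hj => (h' j hj).1) fun j hj => (h' j hj).2
    have h3 : (u a - v a) * ∏ j ∈ J, v j ≤ (u a - v a) * ∏ j ∈ J, u j :=
      mul_le_mul_of_nonneg_left h2 (by linarith [ha'.2])
    nlinarith

end Pool.Agent.Lib.Helper57
end

-- from Lib.Helper57.Count
section

/-!
Counting integers in an initial segment subject to congruence conditions modulo distinct primes.
-/

open Finset

namespace Pool.Agent.Lib.Helper57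

/-- Counting function of a predicate. -/
noncomputable def cnt (P : ℕ → Prop) (M : ℕ) : ℕ := by
  classical exact ((range M).filter P).card
















end Pool.Agent.Lib.Helper57
end

-- from Lib.Helper57.Transfer
section

/-!
The abstract combinatorial sieve: upper and lower bounds for the number of unsieved elements.
-/

open Finset

namespace Pool.Agent.Lib.Helper57

set_option linter.unusedSectionVars false

variable {ι κ α : Type*} [DecidableEq ι] [DecidableEq κ] [DecidableEq α]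

/-- The indicator function of `B`. -/
def ind (B : Finset ι) (p : ι) : ℝ := if p ∈ B then 1 else 0

lemma ind_bounds (B : Finset ι) (p : ι) : 0 ≤ ind B p ∧ ind B p ≤ 1 := by
  unfold ind; split_ifs <;> norm_num

lemma prod_ind (B S : Finset ι) : ∏ p ∈ S, ind B p = if S ⊆ B then 1 else 0 := by
  unfold ind
  by_cases h : S ⊆ B
  · rw [if_pos h]
    apply Finset.prod_eq_one
    intro p hp
    rw [if_pos (h hp)]
  · rw [if_neg h]
    obtain ⟨p, hp, hpB⟩ := Finset.not_subset.mp h
    exact Finset.prod_eq_zero hp (by rw [if_neg hpB])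

/-- `ev` commutes with products over disjoint blocks. -/
lemma prod_ev (J : Finset κ) (F : κ → Finset (Finset ι)) (c : κ → Finset ι → ℝ)
    (P : κ → Finset ι) (hdisj : ∀ i ∈ J, ∀ j ∈ J, i ≠ j → Disjoint (P i) (P j))
    (hF : ∀ j ∈ J, ∀ S ∈ F j, S ⊆ P j) (f : ι → ℝ) :
    ∏ j ∈ J, ev (F j) (c j) f = ∑ φ ∈ J.pi F,
      (∏ x ∈ J.attach, c x.1 (φ x.1 x.2)) * ∏ p ∈ J.attach.biUnion (fun x => φ x.1 x.2), f p := by
  unfold ev
  rw [Finset.prod_sum]
  apply Finset.sum_congr rfl
  intro φ hφ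
  rw [Finset.prod_mul_distrib]
  congr 1
  rw [Finset.prod_biUnion]
  intro x _ y _ hxy
  have hmem := Finset.mem_pi.mp hφ
  have h1 := hF x.1 x.2 _ (hmem x.1 x.2)
  have h2 := hF y.1 y.2 _ (hmem y.1 y.2)
  have hne : x.1 ≠ y.1 := fun h => hxy (Subtype.ext h)
  exact Finset.disjoint_of_subset_left h1 (Finset.disjoint_of_subset_right h2
    (hdisj x.1 x.2 y.1 y.2 hne))

/-- The transfer principle. -/
lemma transfer (J : Finset κ) (F : κ → Finset (Finset ι)) (c : κ → Finset ι → ℝ)
    (P : κ → Finset ι) (hdisj : ∀ i ∈ J, ∀ j ∈ J, i ≠ j → Disjoint (P i) (P j))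
    (hF : ∀ j ∈ J, ∀ S ∈ F j, S ⊆ P j) (hc : ∀ j ∈ J, ∀ S ∈ F j, |c j S| ≤ 1)
    (Ω : Finset α) (B : α → Finset ι) (X : ℝ) (g ν : ι → ℝ)
    (hν : ∀ j ∈ J, ∀ p ∈ P j, 0 ≤ ν p)
    (hcount : ∀ S : Finset ι, (∀ p ∈ S, ∃ j ∈ J, p ∈ P j) →
      |((Ω.filter fun m => S ⊆ B m).card : ℝ) - X * ∏ p ∈ S, g p| ≤ ∏ p ∈ S, ν p) :
    |∑ m ∈ Ω, ∏ j ∈ J, ev (F j) (c j) (ind (B m)) - X * ∏ j ∈ J, ev (F j) (c j) g| ≤
      ∏ j ∈ J, ∑ S ∈ F j, ∏ p ∈ S, ν p := by
  have e1 : ∑ m ∈ Ω, ∏ j ∈ J, ev (F j) (c j) (ind (B m)) = ∑ φ ∈ J.pi F,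
      (∏ x ∈ J.attach, c x.1 (φ x.1 x.2)) *
        ((Ω.filter fun m => J.attach.biUnion (fun x => φ x.1 x.2) ⊆ B m).card : ℝ) := by
    simp_rw [prod_ev J F c P hdisj hF]
    rw [Finset.sum_comm]
    apply Finset.sum_congr rfl
    intro φ _
    rw [← Finset.mul_sum]
    congr 1
    simp_rw [prod_ind]
    rw [Finset.sum_ite]
    simp
  rw [e1, prod_ev J F c P hdisj hF, Finset.mul_sum, ← Finset.sum_sub_distrib]
  have e2 : ∏ j ∈ J, ∑ S ∈ F j, ∏ p ∈ S, ν p = ∑ φ ∈ J.pi F,
      ∏ p ∈ J.attach.biUnion (fun x => φ x.1 x.2), ν p := by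
    have := prod_ev J F (fun _ _ => 1) P hdisj hF ν
    simp only [ev, one_mul, Finset.prod_const_one] at this
    exact this
  rw [e2]
  refine (Finset.abs_sum_le_sum_abs _ _).trans ?_
  apply Finset.sum_le_sum
  intro φ hφ
  have hmem := Finset.mem_pi.mp hφ
  set U := J.attach.biUnion (fun x => φ x.1 x.2) with hU
  have hUmem : ∀ p ∈ U, ∃ j ∈ J, p ∈ P j := by
    intro p hp
    rw [hU, Finset.mem_biUnion] at hp
    obtain ⟨x, _, hx⟩ := hp
    exact ⟨x.1, x.2, hF x.1 x.2 _ (hmem x.1 x.2) hx⟩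
  have h1 := hcount U hUmem
  have h2 : |∏ x ∈ J.attach, c x.1 (φ x.1 x.2)| ≤ 1 := by
    rw [Finset.abs_prod]
    apply Finset.prod_le_one
    · intro x _; exact abs_nonneg _
    · intro x _; exact hc x.1 x.2 _ (hmem x.1 x.2)
  have h3 : (∏ x ∈ J.attach, c x.1 (φ x.1 x.2)) * ((Ω.filter fun m => U ⊆ B m).card : ℝ) -
      X * ((∏ x ∈ J.attach, c x.1 (φ x.1 x.2)) * ∏ p ∈ U, g p) =
      (∏ x ∈ J.attach, c x.1 (φ x.1 x.2)) *
        (((Ω.filter fun m => U ⊆ B m).card : ℝ) - X * ∏ p ∈ U, g p) := by ring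
  rw [h3, abs_mul]
  have h4 : 0 ≤ ∏ p ∈ U, ν p := Finset.prod_nonneg fun p hp => by
    obtain ⟨j, hj, hpj⟩ := hUmem p hp
    exact hν j hj p hpj
  calc _ ≤ 1 * ∏ p ∈ U, ν p := mul_le_mul h2 h1 (abs_nonneg _) zero_le_one
    _ = _ := one_mul _

/-- The number of elements of `Ω` which are unsieved by all blocks. -/
def good (J : Finset κ) (P : κ → Finset ι) (Ω : Finset α) (B : α → Finset ι) : Finset α :=
  Ω.filter fun m => ∀ j ∈ J, ∀ p ∈ P j, p ∉ B m

lemma V_ind (P : Finset ι) (B : Finset ι) :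
    V P (ind B) = if (∀ p ∈ P, p ∉ B) then 1 else 0 := by
  unfold V ind
  by_cases h : ∀ p ∈ P, p ∉ B
  · rw [if_pos h]
    apply Finset.prod_eq_one
    intro p hp
    rw [if_neg (h p hp)]; ring
  · rw [if_neg h]
    push Not at h
    obtain ⟨p, hp, hpB⟩ := h
    exact Finset.prod_eq_zero hp (by rw [if_pos hpB]; ring)

lemma card_good (J : Finset κ) (P : κ → Finset ι) (Ω : Finset α) (B : α → Finset ι) :
    ((good J P Ω B).card : ℝ) = ∑ m ∈ Ω, ∏ j ∈ J, V (P j) (ind (B m)) := by
  unfold good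
  rw [Finset.card_filter]
  push_cast
  apply Finset.sum_congr rfl
  intro m _
  simp_rw [V_ind]
  by_cases h : ∀ j ∈ J, ∀ p ∈ P j, p ∉ B m
  · rw [if_pos h]
    symm
    apply Finset.prod_eq_one
    intro j hj
    rw [if_pos (h j hj)]
  · rw [if_neg h]
    symm
    push Not at h
    obtain ⟨j, hj, p, hp, hpB⟩ := h
    apply Finset.prod_eq_zero hj
    rw [if_neg]
    intro h'; exact h' p hp hpB

/-- Hypotheses of the abstract sieve, bundled. -/
structure SieveData (κ ι α : Type*) [DecidableEq κ] [DecidableEq ι] where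
  /-- the index set of blocks -/
  J : Finset κ
  /-- the blocks -/
  P : κ → Finset ι
  /-- truncation levels -/
  t : κ → ℕ
  /-- the set to be sieved -/
  Ω : Finset α
  /-- the bad primes of an element -/
  B : α → Finset ι
  /-- the main quantity -/
  X : ℝ
  /-- the density -/
  g : ι → ℝ
  /-- the error function -/
  ν : ι → ℝ
  X_nonneg : 0 ≤ X
  even : ∀ j ∈ J, Even (t j)
  disj : ∀ i ∈ J, ∀ j ∈ J, i ≠ j → Disjoint (P i) (P j)
  g_bd : ∀ j ∈ J, ∀ p ∈ P j, 0 ≤ g p ∧ g p ≤ 1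
  ν_nonneg : ∀ j ∈ J, ∀ p ∈ P j, 0 ≤ ν p
  count : ∀ S : Finset ι, (∀ p ∈ S, ∃ j ∈ J, p ∈ P j) →
      |((Ω.filter fun m => S ⊆ B m).card : ℝ) - X * ∏ p ∈ S, g p| ≤ ∏ p ∈ S, ν p

namespace SieveData

variable (D : SieveData κ ι α)

/-- the error term -/
def N : ℝ := ∏ j ∈ D.J, ∑ S ∈ small (D.P j) (D.t j), ∏ p ∈ S, D.ν p

lemma sgn_abs (S : Finset ι) : |sgn S| ≤ 1 := by
  unfold sgn; rw [abs_pow]; simp

lemma small_sub (P : Finset ι) (t : ℕ) : ∀ S ∈ small P t, S ⊆ P := by
  intro S hS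
  unfold small at hS
  exact Finset.mem_powerset.mp (Finset.mem_filter.mp hS).1

/-- Upper bound. -/
lemma upper : ((good D.J D.P D.Ω D.B).card : ℝ) ≤ D.X * ∏ j ∈ D.J, T (D.P j) (D.t j) D.g + D.N := by
  rw [card_good]
  have h1 : ∑ m ∈ D.Ω, ∏ j ∈ D.J, V (D.P j) (ind (D.B m)) ≤
      ∑ m ∈ D.Ω, ∏ j ∈ D.J, ev (small (D.P j) (D.t j)) sgn (ind (D.B m)) := by
    apply Finset.sum_le_sum
    intro m _
    apply Finset.prod_le_prod
    · intro j _
      exact V_nonneg fun p _ => ind_bounds _ p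
    · intro j hj
      exact V_le_T (fun p _ => ind_bounds _ p) (D.even j hj)
  have h2 := transfer D.J (fun j => small (D.P j) (D.t j)) (fun _ => sgn) D.P D.disj
    (fun j _ => small_sub _ _) (fun j _ S _ => sgn_abs S) D.Ω D.B D.X D.g D.ν D.ν_nonneg D.count
  have h3 := (abs_le.mp h2).2
  unfold T N
  linarith

/-- Lower bound. -/
lemma lower : D.X * (∏ j ∈ D.J, T (D.P j) (D.t j) D.g -
    ∑ j ∈ D.J, E (D.P j) (D.t j) D.g * ∏ i ∈ D.J.erase j, T (D.P i) (D.t i) D.g) -
    (D.J.card + 1) * D.N ≤ ((good D.J D.P D.Ω D.B).card : ℝ) := by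
  rw [card_good]
  -- pointwise inequality
  have hpt : ∀ m ∈ D.Ω, ∏ j ∈ D.J, T (D.P j) (D.t j) (ind (D.B m)) -
      ∑ j ∈ D.J, E (D.P j) (D.t j) (ind (D.B m)) *
        ∏ i ∈ D.J.erase j, T (D.P i) (D.t i) (ind (D.B m)) ≤
      ∏ j ∈ D.J, V (D.P j) (ind (D.B m)) := by
    intro m _
    have h1 := prod_sub_prod_le D.J (fun j => T (D.P j) (D.t j) (ind (D.B m)))
      (fun j => V (D.P j) (ind (D.B m))) (fun j hj =>
        ⟨V_nonneg fun p _ => ind_bounds _ p, V_le_T (fun p _ => ind_bounds _ p) (D.even j hj)⟩)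
    have h2 : ∑ j ∈ D.J, (T (D.P j) (D.t j) (ind (D.B m)) - V (D.P j) (ind (D.B m))) *
        ∏ i ∈ D.J.erase j, T (D.P i) (D.t i) (ind (D.B m)) ≤
        ∑ j ∈ D.J, E (D.P j) (D.t j) (ind (D.B m)) *
        ∏ i ∈ D.J.erase j, T (D.P i) (D.t i) (ind (D.B m)) := by
      apply Finset.sum_le_sum
      intro j hj
      apply mul_le_mul_of_nonneg_right
      · have := T_sub_E_le (P := D.P j) (f := ind (D.B m)) (fun p _ => ind_bounds _ p) (D.even j hj)
        linarith
      · apply Finset.prod_nonneg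
        intro i hi
        exact (V_nonneg fun p _ => ind_bounds _ p).trans
          (V_le_T (fun p _ => ind_bounds _ p) (D.even i (Finset.mem_of_mem_erase hi)))
    linarith
  -- transfer for the main term
  have hmain := transfer D.J (fun j => small (D.P j) (D.t j)) (fun _ => sgn) D.P D.disj
    (fun j _ => small_sub _ _) (fun j _ S _ => sgn_abs S) D.Ω D.B D.X D.g D.ν D.ν_nonneg D.count
  -- transfer for the error terms
  have herr : ∀ j ∈ D.J, ∑ m ∈ D.Ω, E (D.P j) (D.t j) (ind (D.B m)) *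
        ∏ i ∈ D.J.erase j, T (D.P i) (D.t i) (ind (D.B m)) ≤
      D.X * (E (D.P j) (D.t j) D.g * ∏ i ∈ D.J.erase j, T (D.P i) (D.t i) D.g) + D.N := by
    intro j hj
    -- families
    set F : κ → Finset (Finset ι) := fun i =>
      if i = j then (D.P i).powersetCard (D.t i) else small (D.P i) (D.t i) with hF
    set c : κ → Finset ι → ℝ := fun i => if i = j then fun _ => 1 else sgn with hc
    have hprod : ∀ f : ι → ℝ, ∏ i ∈ D.J, ev (F i) (c i) f =
        E (D.P j) (D.t j) f * ∏ i ∈ D.J.erase j, T (D.P i) (D.t i) f := by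
      intro f
      rw [← Finset.mul_prod_erase _ _ hj]
      congr 1
      · simp [hF, hc, E]
      · apply Finset.prod_congr rfl
        intro i hi
        have hne : i ≠ j := Finset.ne_of_mem_erase hi
        simp [hF, hc, hne, T]
    have hsub : ∀ i, F i ⊆ small (D.P i) (D.t i) := by
      intro i S hS
      simp only [hF] at hS
      split_ifs at hS with h
      · unfold small
        rw [Finset.mem_filter, Finset.mem_powerset]
        rw [Finset.mem_powersetCard] at hS
        exact ⟨hS.1, hS.2.le⟩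
      · exact hS
    have h := transfer D.J F c D.P D.disj (fun i _ S hS => small_sub _ _ S (hsub i hS))
      (fun i _ S _ => by
        simp only [hc]
        split_ifs
        · simp
        · exact sgn_abs S) D.Ω D.B D.X D.g D.ν D.ν_nonneg D.count
    have h3 := (abs_le.mp h).2
    simp_rw [hprod] at h3
    have h4 : ∏ i ∈ D.J, ∑ S ∈ F i, ∏ p ∈ S, D.ν p ≤ D.N := by
      unfold N
      apply Finset.prod_le_prod
      · intro i hi
        apply Finset.sum_nonneg
        intro S hS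
        apply Finset.prod_nonneg
        intro p hp
        exact D.ν_nonneg i hi p (small_sub _ _ S (hsub i hS) hp)
      · intro i hi
        apply Finset.sum_le_sum_of_subset_of_nonneg (hsub i)
        intro S hS _
        apply Finset.prod_nonneg
        intro p hp
        exact D.ν_nonneg i hi p (small_sub _ _ S hS hp)
    linarith
  have h5 : ∑ m ∈ D.Ω, (∏ j ∈ D.J, T (D.P j) (D.t j) (ind (D.B m)) -
      ∑ j ∈ D.J, E (D.P j) (D.t j) (ind (D.B m)) *
        ∏ i ∈ D.J.erase j, T (D.P i) (D.t i) (ind (D.B m))) ≤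
      ∑ m ∈ D.Ω, ∏ j ∈ D.J, V (D.P j) (ind (D.B m)) := Finset.sum_le_sum hpt
  rw [Finset.sum_sub_distrib, Finset.sum_comm] at h5
  have h6 := Finset.sum_le_sum herr
  rw [Finset.sum_add_distrib, Finset.sum_const, nsmul_eq_mul, ← Finset.mul_sum] at h6
  have h7 := (abs_le.mp hmain).1
  have h8 : ∏ j ∈ D.J, ∑ S ∈ small (D.P j) (D.t j), ∏ p ∈ S, D.ν p = D.N := rfl
  rw [h8] at h7
  have h9 : ∀ m, ∏ j ∈ D.J, ev (small (D.P j) (D.t j)) sgn (ind (D.B m)) =
    ∏ j ∈ D.J, T (D.P j) (D.t j) (ind (D.B m)) := fun m => rfl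
  simp_rw [h9] at h7
  have h10 : ∏ j ∈ D.J, ev (small (D.P j) (D.t j)) sgn D.g =
    ∏ j ∈ D.J, T (D.P j) (D.t j) D.g := rfl
  rw [h10] at h7
  rw [mul_sub]
  linarith

/-- The full density. -/
def W : ℝ := ∏ j ∈ D.J, V (D.P j) D.g

variable {D} in
/-- Final form of the abstract sieve, when the truncation errors are small. -/
lemma main {ε : κ → ℝ} {η : ℝ} (hε0 : ∀ j ∈ D.J, 0 ≤ ε j)
    (hε : ∀ j ∈ D.J, E (D.P j) (D.t j) D.g ≤ ε j * V (D.P j) D.g)
    (hη : ∑ j ∈ D.J, ε j ≤ η) :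
    D.X * D.W * (1 - η * Real.exp η) - (D.J.card + 1) * D.N ≤
      ((good D.J D.P D.Ω D.B).card : ℝ) ∧
    ((good D.J D.P D.Ω D.B).card : ℝ) ≤ D.X * D.W * Real.exp η + D.N := by
  have hV0 : ∀ j ∈ D.J, 0 ≤ V (D.P j) D.g := fun j hj => V_nonneg (D.g_bd j hj)
  have hVT : ∀ j ∈ D.J, V (D.P j) D.g ≤ T (D.P j) (D.t j) D.g := fun j hj =>
    V_le_T (D.g_bd j hj) (D.even j hj)
  have hTV : ∀ j ∈ D.J, T (D.P j) (D.t j) D.g ≤ V (D.P j) D.g * Real.exp (ε j) := by
    intro j hj
    have h1 := T_sub_E_le (D.g_bd j hj) (D.even j hj)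
    have h2 := hε j hj
    have h3 := Real.add_one_le_exp (ε j)
    nlinarith [hV0 j hj]
  have hη0 : 0 ≤ η := (Finset.sum_nonneg hε0).trans hη
  have hW0 : 0 ≤ D.W := Finset.prod_nonneg hV0
  have hprodT : ∏ j ∈ D.J, T (D.P j) (D.t j) D.g ≤ D.W * Real.exp η := by
    calc ∏ j ∈ D.J, T (D.P j) (D.t j) D.g ≤ ∏ j ∈ D.J, (V (D.P j) D.g * Real.exp (ε j)) :=
          Finset.prod_le_prod (fun j hj => (hV0 j hj).trans (hVT j hj)) hTV
      _ = D.W * Real.exp (∑ j ∈ D.J, ε j) := by
          rw [Finset.prod_mul_distrib, Real.exp_sum]; rfl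
      _ ≤ D.W * Real.exp η := mul_le_mul_of_nonneg_left (Real.exp_le_exp.mpr hη) hW0
  have hWT : D.W ≤ ∏ j ∈ D.J, T (D.P j) (D.t j) D.g := Finset.prod_le_prod hV0 hVT
  have hsum : ∑ j ∈ D.J, E (D.P j) (D.t j) D.g * ∏ i ∈ D.J.erase j, T (D.P i) (D.t i) D.g ≤
      η * (D.W * Real.exp η) := by
    calc _ ≤ ∑ j ∈ D.J, ε j * (D.W * Real.exp η) := by
          apply Finset.sum_le_sum
          intro j hj
          have h1 : ∏ i ∈ D.J.erase j, T (D.P i) (D.t i) D.g ≤
              ∏ i ∈ D.J.erase j, (V (D.P i) D.g * Real.exp (ε i)) :=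
            Finset.prod_le_prod (fun i hi => (hV0 i (Finset.mem_of_mem_erase hi)).trans
              (hVT i (Finset.mem_of_mem_erase hi))) fun i hi => hTV i (Finset.mem_of_mem_erase hi)
          have h0 : 0 ≤ ∏ i ∈ D.J.erase j, T (D.P i) (D.t i) D.g :=
            Finset.prod_nonneg fun i hi => (hV0 i (Finset.mem_of_mem_erase hi)).trans
              (hVT i (Finset.mem_of_mem_erase hi))
          have h0' : 0 ≤ ∏ i ∈ D.J.erase j, V (D.P i) D.g :=
            Finset.prod_nonneg fun i hi => (hV0 i (Finset.mem_of_mem_erase hi))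
          rw [Finset.prod_mul_distrib, ← Real.exp_sum] at h1
          have h2 : Real.exp (∑ i ∈ D.J.erase j, ε i) ≤ Real.exp η := by
            apply Real.exp_le_exp.mpr
            refine le_trans ?_ hη
            exact Finset.sum_le_sum_of_subset_of_nonneg (Finset.erase_subset _ _)
              fun i hi _ => hε0 i hi
          calc E (D.P j) (D.t j) D.g * ∏ i ∈ D.J.erase j, T (D.P i) (D.t i) D.g
              ≤ (ε j * V (D.P j) D.g) * ((∏ i ∈ D.J.erase j, V (D.P i) D.g) *
                Real.exp (∑ i ∈ D.J.erase j, ε i)) :=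
                mul_le_mul (hε j hj) h1 h0 (mul_nonneg (hε0 j hj) (hV0 j hj))
            _ ≤ (ε j * V (D.P j) D.g) * ((∏ i ∈ D.J.erase j, V (D.P i) D.g) * Real.exp η) := by
                apply mul_le_mul_of_nonneg_left _ (mul_nonneg (hε0 j hj) (hV0 j hj))
                exact mul_le_mul_of_nonneg_left h2 h0'
            _ = ε j * ((V (D.P j) D.g * ∏ i ∈ D.J.erase j, V (D.P i) D.g) * Real.exp η) := by ring
            _ = ε j * (D.W * Real.exp η) := by
                rw [Finset.mul_prod_erase D.J (fun j => V (D.P j) D.g) hj]; rfl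
      _ = (∑ j ∈ D.J, ε j) * (D.W * Real.exp η) := by rw [Finset.sum_mul]
      _ ≤ η * (D.W * Real.exp η) := mul_le_mul_of_nonneg_right hη (by positivity)
  constructor
  · refine le_trans ?_ D.lower
    have : D.X * D.W * (1 - η * Real.exp η) ≤ D.X * (∏ j ∈ D.J, T (D.P j) (D.t j) D.g -
        ∑ j ∈ D.J, E (D.P j) (D.t j) D.g * ∏ i ∈ D.J.erase j, T (D.P i) (D.t i) D.g) := by
      rw [mul_assoc]
      apply mul_le_mul_of_nonneg_left _ D.X_nonneg
      nlinarith
    linarith
  · refine D.upper.trans ?_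
    have := mul_le_mul_of_nonneg_left hprodT D.X_nonneg
    nlinarith

end SieveData

end Pool.Agent.Lib.Helper57
end

-- from Lib.Helper57.Sieve
section

/-!
A fundamental lemma for the sieve of dimension `k`, uniform in `k`.
-/

open Finset

namespace Pool.Agent.Lib.Helper57









/-- Truncation levels. -/
def lev (k j : ℕ) : ℕ := 2 * (100 * k + j)








end Pool.Agent.Lib.Helper57
end

-- from Lib.H59C.LSA0
section

/-!
# LSA0: duality
-/

open Finset

namespace Pool.Agent.Lib.H59C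

/-- Duality principle for finite matrices: a bound for the matrix gives the same bound for the
transposed one.

Proof. Let `x j = ∑_i conj (T i) K i j` with `T i = ∑_j a j K i j`. Then
`∑_i |T i|² = ∑_j a j x j ≤ (∑ |a|²)^(1/2) (∑_j |x j|²)^(1/2)`, and the hypothesis with
`c i = conj (T i)` gives `∑_j |x j|² ≤ B ∑_i |T i|²`. -/
theorem lsa_dual {ι κ : Type*} (I : Finset ι) (J : Finset κ) (K : ι → κ → ℂ) (B : ℝ) (hB : 0 ≤ B)
    (h : ∀ c : ι → ℂ, ∑ j ∈ J, ‖∑ i ∈ I, c i * K i j‖ ^ 2 ≤ B * ∑ i ∈ I, ‖c i‖ ^ 2) (a : κ → ℂ) :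
    ∑ i ∈ I, ‖∑ j ∈ J, a j * K i j‖ ^ 2 ≤ B * ∑ j ∈ J, ‖a j‖ ^ 2 := by
  obtain ⟨T, hT⟩ : ∃ T : ι → ℂ, ∀ i, T i = ∑ j ∈ J, a j * K i j := ⟨_, fun _ => rfl⟩
  obtain ⟨x, hx⟩ : ∃ x : κ → ℂ, ∀ j, x j = ∑ i ∈ I, star (T i) * K i j := ⟨_, fun _ => rfl⟩
  simp only [← hT]
  obtain ⟨S, hS⟩ : ∃ S : ℝ, S = ∑ i ∈ I, ‖T i‖ ^ 2 := ⟨_, rfl⟩
  obtain ⟨A, hA⟩ : ∃ A : ℝ, A = ∑ j ∈ J, ‖a j‖ ^ 2 := ⟨_, rfl⟩
  have hS0 : 0 ≤ S := by rw [hS]; positivity
  have hA0 : 0 ≤ A := by rw [hA]; positivity
  have h1 : ((S : ℝ) : ℂ) = ∑ j ∈ J, a j * x j := by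
    have e1 : ∑ j ∈ J, a j * x j = ∑ i ∈ I, ∑ j ∈ J, a j * (star (T i) * K i j) := by
      rw [sum_comm]
      exact sum_congr rfl fun j _ => by rw [hx, mul_sum]
    rw [e1, hS, Complex.ofReal_sum]
    refine sum_congr rfl fun i _ => ?_
    have e2 : ∑ j ∈ J, a j * (star (T i) * K i j) = star (T i) * T i := by
      conv_rhs => rw [hT i, mul_sum]
      refine sum_congr rfl fun j _ => ?_
      rw [hT i]
      ring
    rw [e2, Complex.ofReal_pow]
    exact (Complex.conj_mul' (T i)).symm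
  have h2 : S ≤ ∑ j ∈ J, ‖a j‖ * ‖x j‖ := by
    have e1 : S = ‖((S : ℝ) : ℂ)‖ := by rw [Complex.norm_real, Real.norm_of_nonneg hS0]
    rw [e1, h1]
    refine (norm_sum_le _ _).trans (le_of_eq ?_)
    exact sum_congr rfl fun j _ => norm_mul _ _
  have h3 : S ^ 2 ≤ A * ∑ j ∈ J, ‖x j‖ ^ 2 := by
    rw [hA]
    exact (pow_le_pow_left₀ hS0 h2 2).trans (sum_mul_sq_le_sq_mul_sq _ _ _)
  have h4 : ∑ j ∈ J, ‖x j‖ ^ 2 ≤ B * S := by
    have := h (fun i => star (T i))
    simp only [norm_star, ← hx] at this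
    rwa [← hS] at this
  rw [← hS, ← hA]
  have h5 : S * S ≤ (B * A) * S := by
    have := h3.trans (mul_le_mul_of_nonneg_left h4 hA0)
    nlinarith
  rcases hS0.eq_or_lt with h6 | h6
  · rw [← h6]
    positivity
  · exact le_of_mul_le_mul_right h5 h6

end Pool.Agent.Lib.H59C
end

-- from Lib.H59C.SEP
section

/-!
# SEP: exact separation of variables
-/

open MeasureTheory FourierTransform

namespace Pool.Agent.Lib.H59C

theorem sep_ft_eq (a b : ℝ) (hab : a ≤ b) (c : ℂ) (t : ℝ) :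
    𝓕 (Set.indicator (Set.Icc a b) (fun _ => c)) t =
      (∫ v in a..b, Complex.exp ((-(2 * Real.pi * t) * Complex.I) * v)) * c := by
  rw [Real.fourier_real_eq_integral_exp_smul]
  have h1 : ∀ v : ℝ, Complex.exp (((-2 * Real.pi * v * t : ℝ) : ℂ) * Complex.I) •
      Set.indicator (Set.Icc a b) (fun _ => c) v =
      Set.indicator (Set.Icc a b) (fun v : ℝ =>
        Complex.exp ((-(2 * Real.pi * t) * Complex.I) * v) * c) v := by
    intro v
    by_cases hv : v ∈ Set.Icc a b
    · rw [Set.indicator_of_mem hv, Set.indicator_of_mem hv, smul_eq_mul]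
      congr 2
      push_cast
      ring
    · rw [Set.indicator_of_notMem hv, Set.indicator_of_notMem hv, smul_zero]
  rw [integral_congr_ae (Filter.Eventually.of_forall h1), integral_indicator measurableSet_Icc,
    integral_Icc_eq_integral_Ioc, ← intervalIntegral.integral_of_le hab,
    intervalIntegral.integral_mul_const]

theorem sep_norm_exp (t v : ℝ) : ‖Complex.exp ((-(2 * Real.pi * t) * Complex.I) * v)‖ = 1 := by
  rw [Complex.norm_exp]
  have : ((-(2 * Real.pi * t) * Complex.I) * v : ℂ).re = 0 := by simp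
  rw [this, Real.exp_zero]

theorem sep_ft_le (a b : ℝ) (hab : a ≤ b) (c : ℂ) (t : ℝ) :
    ‖𝓕 (Set.indicator (Set.Icc a b) (fun _ => c)) t‖ ≤ (b - a) * ‖c‖ := by
  rw [sep_ft_eq a b hab, norm_mul]
  refine mul_le_mul_of_nonneg_right ?_ (norm_nonneg _)
  have h := intervalIntegral.norm_integral_le_of_norm_le_const (a := a) (b := b) (C := 1)
    (f := fun v : ℝ => Complex.exp ((-(2 * Real.pi * t) * Complex.I) * v))
    (fun v _ => (sep_norm_exp t v).le)
  rwa [one_mul, abs_of_nonneg (by linarith)] at h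

theorem sep_ft_le' (a b : ℝ) (hab : a ≤ b) (c : ℂ) {t : ℝ} (ht : t ≠ 0) :
    ‖𝓕 (Set.indicator (Set.Icc a b) (fun _ => c)) t‖ ≤ 1 / (Real.pi * |t|) * ‖c‖ := by
  rw [sep_ft_eq a b hab, norm_mul]
  refine mul_le_mul_of_nonneg_right ?_ (norm_nonneg _)
  have hc : (-(2 * Real.pi * t) * Complex.I : ℂ) ≠ 0 := by
    apply mul_ne_zero _ Complex.I_ne_zero
    rw [neg_ne_zero]
    exact_mod_cast mul_ne_zero (mul_ne_zero two_ne_zero Real.pi_ne_zero) ht
  rw [integral_exp_mul_complex hc, norm_div]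
  have h1 : ‖(-(2 * Real.pi * t) * Complex.I : ℂ)‖ = 2 * Real.pi * |t| := by
    rw [norm_mul, Complex.norm_I, mul_one, norm_neg]
    have : (2 * Real.pi * t : ℂ) = ((2 * Real.pi * t : ℝ) : ℂ) := by push_cast; ring
    rw [this, Complex.norm_real, Real.norm_eq_abs, abs_mul, abs_of_pos Real.two_pi_pos]
  have h2 : ‖Complex.exp ((-(2 * Real.pi * t) * Complex.I) * b) -
      Complex.exp ((-(2 * Real.pi * t) * Complex.I) * a)‖ ≤ 2 := by
    refine (norm_sub_le _ _).trans ?_
    rw [sep_norm_exp, sep_norm_exp]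
    norm_num
  have h3 : 0 < Real.pi * |t| := mul_pos Real.pi_pos (abs_pos.2 ht)
  rw [h1, div_le_div_iff₀ (by linarith) h3]
  nlinarith

/-- the trapezoid -/
theorem sep_conv (a b w : ℝ) (u : ℝ) :
    convolution (Set.indicator (Set.Icc a b) (fun _ => (1 : ℂ)))
      (Set.indicator (Set.Icc (-(w / 2)) (w / 2)) (fun _ => ((1 / w : ℝ) : ℂ)))
      (ContinuousLinearMap.mul ℂ ℂ) volume u =
      ((max (min b (u + w / 2) - max a (u - w / 2)) 0 * (1 / w) : ℝ) : ℂ) := by
  rw [convolution_def]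
  have h1 : ∀ t : ℝ, (ContinuousLinearMap.mul ℂ ℂ) (Set.indicator (Set.Icc a b) (fun _ => (1 : ℂ)) t)
      (Set.indicator (Set.Icc (-(w / 2)) (w / 2)) (fun _ => ((1 / w : ℝ) : ℂ)) (u - t)) =
      Set.indicator (Set.Icc (max a (u - w / 2)) (min b (u + w / 2)))
        (fun _ => ((1 / w : ℝ) : ℂ)) t := by
    intro t
    rw [ContinuousLinearMap.mul_apply']
    by_cases h1 : t ∈ Set.Icc (max a (u - w / 2)) (min b (u + w / 2))
    · rw [Set.indicator_of_mem h1]
      rw [Set.mem_Icc, max_le_iff, le_min_iff] at h1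
      rw [Set.indicator_of_mem (Set.mem_Icc.2 ⟨h1.1.1, h1.2.1⟩),
        Set.indicator_of_mem (Set.mem_Icc.2 ⟨by linarith, by linarith⟩), one_mul]
    · rw [Set.indicator_of_notMem h1]
      by_cases h2 : t ∈ Set.Icc a b
      · have h3 : u - t ∉ Set.Icc (-(w / 2)) (w / 2) := by
          intro h3
          apply h1
          rw [Set.mem_Icc] at h2 h3
          rw [Set.mem_Icc, max_le_iff, le_min_iff]
          exact ⟨⟨h2.1, by linarith⟩, ⟨h2.2, by linarith⟩⟩
        rw [Set.indicator_of_notMem h3, mul_zero]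
      · rw [Set.indicator_of_notMem h2, zero_mul]
  rw [integral_congr_ae (Filter.Eventually.of_forall h1), integral_indicator measurableSet_Icc,
    setIntegral_const, Real.volume_real_Icc, Complex.real_smul, ← Complex.ofReal_mul]

theorem sep_abs {f : ℝ → ℝ} (hf : IntegrableOn f (Set.Ioi 0)) :
    Integrable (fun x => f |x|) := by
  have hf' : IntegrableOn (fun x => f |x|) (Set.Ioi 0) := by
    refine hf.congr_fun (fun x hx => ?_) measurableSet_Ioi
    rw [abs_of_pos hx]
  have int_Iic : IntegrableOn (fun x ↦ f |x|) (Set.Iic 0) := by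
    rw [← Measure.map_neg_eq_self (volume : Measure ℝ)]
    let m : MeasurableEmbedding fun x : ℝ => -x := (Homeomorph.neg ℝ).measurableEmbedding
    rw [m.integrableOn_map_iff]
    simp_rw [Function.comp_def, abs_neg, Set.neg_preimage, Set.neg_Iic, neg_zero]
    exact Iff.mpr integrableOn_Ici_iff_integrableOn_Ioi hf'
  rw [← integrableOn_univ, ← Set.Iic_union_Ioi (a := (0 : ℝ))]
  exact int_Iic.union hf'

/-- the majorant -/
noncomputable def sepH (A D ε : ℝ) (x : ℝ) : ℝ := if x ≤ 1 then A else D * x ^ (-1 - ε)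

theorem sepH_int (A D ε : ℝ) (hε : 0 < ε) : IntegrableOn (sepH A D ε) (Set.Ioi 0) ∧
    ∫ x in Set.Ioi 0, sepH A D ε x = A + D / ε := by
  have hu : Set.Ioi (0 : ℝ) = Set.Ioc 0 1 ∪ Set.Ioi 1 := by
    rw [Set.Ioc_union_Ioi_eq_Ioi zero_le_one]
  have hd : Disjoint (Set.Ioc (0 : ℝ) 1) (Set.Ioi 1) := by
    rw [Set.disjoint_left]
    intro x hx hx2
    exact absurd hx.2 (not_le.2 hx2)
  have e1 : Set.EqOn (fun _ => A) (sepH A D ε) (Set.Ioc 0 1) := by
    intro x hx
    show A = sepH A D ε x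
    rw [sepH, if_pos hx.2]
  have e2 : Set.EqOn (fun x => D * x ^ (-1 - ε)) (sepH A D ε) (Set.Ioi 1) := by
    intro x hx
    show D * x ^ (-1 - ε) = sepH A D ε x
    rw [sepH, if_neg (not_le.2 hx)]
  have i1 : IntegrableOn (sepH A D ε) (Set.Ioc 0 1) := by
    refine IntegrableOn.congr_fun ?_ e1 measurableSet_Ioc
    exact integrableOn_const (by simp)
  have i2 : IntegrableOn (sepH A D ε) (Set.Ioi 1) := by
    refine IntegrableOn.congr_fun ?_ e2 measurableSet_Ioi
    exact (integrableOn_Ioi_rpow_of_lt (by linarith) zero_lt_one).const_mul D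
  refine ⟨?_, ?_⟩
  · rw [hu]
    exact i1.union i2
  · rw [hu, setIntegral_union hd measurableSet_Ioi i1 i2,
      ← setIntegral_congr_fun measurableSet_Ioc e1, ← setIntegral_congr_fun measurableSet_Ioi e2,
      integral_const_mul, integral_Ioi_rpow_of_lt (by linarith) zero_lt_one, Real.one_rpow,
      setIntegral_const, Real.volume_real_Ioc]
    have : -1 - ε + 1 = -ε := by ring
    rw [this, neg_div_neg_eq, max_eq_left (by norm_num)]
    simp
    ring

theorem sep_cont {f : ℝ → ℂ} (hf : Integrable f) : Continuous (𝓕 f) :=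
  VectorFourier.fourierIntegral_continuous Real.continuous_fourierChar
    (innerSL ℝ).continuous₂ hf

theorem sep_ind (a b : ℝ) (c : ℂ) : Integrable (Set.indicator (Set.Icc a b) (fun _ => c)) := by
  rw [integrable_indicator_iff measurableSet_Icc]
  exact integrableOn_const (by simp)

/-- the pointwise bound -/
theorem sep_bound (a b w : ℝ) (hab : a ≤ b) (hw : 0 < w) (ε : ℝ) (hε : 0 < ε) (hε1 : ε ≤ 1)
    (t : ℝ) :
    ‖𝓕 (Set.indicator (Set.Icc a b) (fun _ => (1 : ℂ))) t *
      𝓕 (Set.indicator (Set.Icc (-(w / 2)) (w / 2)) (fun _ => ((1 / w : ℝ) : ℂ))) t‖ ≤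
      sepH (b - a) ((1 / w) ^ ε) ε |t| := by
  have hc : ‖((1 / w : ℝ) : ℂ)‖ = 1 / w := by
    rw [Complex.norm_real, Real.norm_of_nonneg (by positivity)]
  have h2 := sep_ft_le (-(w / 2)) (w / 2) (by linarith) ((1 / w : ℝ) : ℂ) t
  have h2' : ‖𝓕 (Set.indicator (Set.Icc (-(w / 2)) (w / 2)) (fun _ => ((1 / w : ℝ) : ℂ))) t‖ ≤ 1 := by
    refine h2.trans (le_of_eq ?_)
    rw [hc]
    field_simp
    ring
  rw [norm_mul, sepH]
  split_ifs with ht
  · have h1 := sep_ft_le a b hab 1 t
    rw [norm_one, mul_one] at h1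
    calc _ ≤ (b - a) * 1 := mul_le_mul h1 h2' (norm_nonneg _) (by linarith)
      _ = b - a := mul_one _
  · push Not at ht
    have ht0 : t ≠ 0 := by
      rintro rfl
      rw [abs_zero] at ht
      linarith
    have hat : 0 < |t| := abs_pos.2 ht0
    have h1 := sep_ft_le' a b hab 1 ht0
    rw [norm_one, mul_one] at h1
    have h3 := sep_ft_le' (-(w / 2)) (w / 2) (by linarith) ((1 / w : ℝ) : ℂ) ht0
    rw [hc] at h3
    have hpi : 1 ≤ Real.pi := by linarith [Real.pi_gt_three]
    have h4 : 1 / (Real.pi * |t|) ≤ 1 / |t| := by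
      apply one_div_le_one_div_of_le hat
      nlinarith
    have h5 : ‖𝓕 (Set.indicator (Set.Icc (-(w / 2)) (w / 2)) (fun _ => ((1 / w : ℝ) : ℂ))) t‖ ≤
        (1 / |t| * (1 / w)) ^ ε := by
      have h6 : ‖𝓕 (Set.indicator (Set.Icc (-(w / 2)) (w / 2)) (fun _ => ((1 / w : ℝ) : ℂ))) t‖ ≤
          1 / |t| * (1 / w) := h3.trans (mul_le_mul_of_nonneg_right h4 (by positivity))
      rcases le_total (1 / |t| * (1 / w)) 1 with h7 | h7
      · refine h6.trans ?_
        conv_lhs => rw [← Real.rpow_one (1 / |t| * (1 / w))]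
        exact Real.rpow_le_rpow_of_exponent_ge (by positivity) h7 hε1
      · exact h2'.trans (Real.one_le_rpow h7 hε.le)
    calc _ ≤ 1 / |t| * (1 / |t| * (1 / w)) ^ ε :=
          mul_le_mul (h1.trans h4) h5 (norm_nonneg _) (by positivity)
      _ = (1 / w) ^ ε * |t| ^ (-1 - ε) := by
        rw [Real.mul_rpow (by positivity) (by positivity), Real.rpow_sub hat, Real.rpow_neg_one,
          Real.div_rpow zero_le_one hat.le, Real.one_rpow]
        field_simp

/-- For every `y ≥ 2` the indicator function of the integers `k ≤ y` is a combination of the functions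
`k^(it)` with total weight `O(log y)`.

Proof. Let `Φ : ℝ → ℝ` be the trapezoid with `Φ = 1` on `[0, log y]`, `Φ = 0` outside
`[-w, log y + w]`, `w = log (y+1) - log y ≥ 1/(2y)`, linear in between. Then `Φ(log k) = 1` for
`1 ≤ k ≤ y` and `= 0` for the integers `k ≥ y + 1`. `Φ = (1/w) 1_[-w/2, log y + w/2] * 1_[-w/2, w/2]`
(convolution), so `|Φ̂(t)| ≤ min (log y + w, 1/(π|t|), 1/(π² t² w))` (Fourier transform, `e^(-2πi t u)`;
one can compute it directly, by two integrations by parts on the linear pieces), which is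
integrable with `∫ |Φ̂| ≤ C (1 + log (1/w) ...) ≤ C' log y`: split at `|t| = 1` and `|t| = 1/w`.
`Φ` is continuous and integrable, `Φ̂` integrable, hence Fourier inversion (Mathlib:
`MeasureTheory.Integrable.fourierInv_fourier_eq` or similar names, `Continuous.fourierInv_fourier_eq`):
`Φ(log k) = ∫ Φ̂(t) e^(2πi t log k) dt`; substitute `t ↦ t/(2π)`. -/
theorem sep : ∃ C : ℝ, 0 < C ∧ ∀ y : ℕ, 2 ≤ y → ∃ g : ℝ → ℂ, Integrable g ∧
    ∫ t, ‖g t‖ ≤ C * Real.log y ∧ ∀ k : ℕ, 1 ≤ k →
      ∫ t, g t * (k : ℂ) ^ ((t : ℂ) * Complex.I) = if k ≤ y then 1 else 0 := by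
  refine ⟨16, by norm_num, fun y hy => ?_⟩
  have hy2 : (2 : ℝ) ≤ y := by exact_mod_cast hy
  obtain ⟨L, hL⟩ : ∃ L, L = Real.log y := ⟨_, rfl⟩
  obtain ⟨w, hw⟩ : ∃ w, w = Real.log (y + 1) - Real.log y := ⟨_, rfl⟩
  have hL0 : 0.6 < L := by
    have := Real.log_two_gt_d9
    have h2 := Real.log_le_log (by norm_num) hy2
    rw [hL]
    linarith
  have hw1 : w = Real.log (1 + 1 / y) := by
    rw [hw, ← Real.log_div (by positivity) (by positivity)]
    congr 1
    field_simp
  have hwlow : 1 / (2 * (y : ℝ)) ≤ w := by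
    rw [hw1]
    have h1 := Real.one_sub_inv_le_log_of_pos (x := 1 + 1 / (y : ℝ)) (by positivity)
    refine le_trans ?_ h1
    have h2 : 1 - (1 + 1 / (y : ℝ))⁻¹ = 1 / (y + 1) := by
      field_simp
      ring
    rw [h2]
    apply one_div_le_one_div_of_le (by positivity)
    linarith
  have hw0 : 0 < w := lt_of_lt_of_le (by positivity) hwlow
  have hwup : w ≤ 1 / 2 := by
    rw [hw1]
    have h1 := Real.log_le_sub_one_of_pos (x := 1 + 1 / (y : ℝ)) (by positivity)
    have h2 : 1 / (y : ℝ) ≤ 1 / 2 := one_div_le_one_div_of_le (by norm_num) hy2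
    linarith
  have hl2 : Real.log (2 * y) ≤ 2 * L := by
    rw [Real.log_mul (by norm_num) (by positivity), hL]
    have h2 := Real.log_le_log (by norm_num) hy2
    linarith
  have hl1 : 1 ≤ Real.log (2 * y) := by
    rw [Real.log_mul (by norm_num) (by positivity), ← hL]
    have := Real.log_two_gt_d9
    linarith
  obtain ⟨ε, hε⟩ : ∃ ε, ε = 1 / Real.log (2 * y) := ⟨_, rfl⟩
  have hε0 : 0 < ε := by rw [hε]; positivity
  have hε1 : ε ≤ 1 := by
    rw [hε, div_le_one (by linarith)]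
    exact hl1
  obtain ⟨f₁, hf₁⟩ : ∃ f₁ : ℝ → ℂ, f₁ = Set.indicator (Set.Icc (-(w / 2)) (L + w / 2))
    (fun _ => (1 : ℂ)) := ⟨_, rfl⟩
  obtain ⟨f₂, hf₂⟩ : ∃ f₂ : ℝ → ℂ, f₂ = Set.indicator (Set.Icc (-(w / 2)) (w / 2))
    (fun _ => ((1 / w : ℝ) : ℂ)) := ⟨_, rfl⟩
  have hi₁ : Integrable f₁ := by rw [hf₁]; exact sep_ind _ _ _
  have hi₂ : Integrable f₂ := by rw [hf₂]; exact sep_ind _ _ _
  obtain ⟨Φ, hΦ⟩ : ∃ Φ : ℝ → ℂ, Φ = convolution f₁ f₂ (ContinuousLinearMap.mul ℂ ℂ) volume :=
    ⟨_, rfl⟩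
  have hΦe : ∀ u, Φ u = ((max (min (L + w / 2) (u + w / 2) - max (-(w / 2)) (u - w / 2)) 0 *
      (1 / w) : ℝ) : ℂ) := by
    intro u
    rw [hΦ, hf₁, hf₂]
    exact sep_conv _ _ _ _
  have hΦc : Continuous Φ := by
    have : Φ = fun u => ((max (min (L + w / 2) (u + w / 2) - max (-(w / 2)) (u - w / 2)) 0 *
      (1 / w) : ℝ) : ℂ) := funext hΦe
    rw [this]
    fun_prop
  have hΦi : Integrable Φ := by
    rw [hΦ]
    exact hi₁.integrable_convolution _ hi₂
  have hΦF : ∀ t, 𝓕 Φ t = 𝓕 f₁ t * 𝓕 f₂ t := by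
    intro t
    rw [hΦ]
    exact Real.fourier_mul_convolution_eq hi₁ hi₂ t
  have hbd : ∀ t, ‖𝓕 Φ t‖ ≤ sepH (L + w) ((1 / w) ^ ε) ε |t| := by
    intro t
    rw [hΦF, hf₁, hf₂]
    have h := sep_bound (-(w / 2)) (L + w / 2) w (by linarith) hw0 ε hε0 hε1 t
    have e1 : L + w / 2 - -(w / 2) = L + w := by ring
    rwa [e1] at h
  obtain ⟨hH1, hH2⟩ := sepH_int (L + w) ((1 / w) ^ ε) ε hε0
  have hH3 := sep_abs hH1
  have hFi : Integrable (𝓕 Φ) :=
    hH3.mono' (sep_cont hΦi).aestronglyMeasurable (Filter.Eventually.of_forall hbd)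
  have hFn : ∫ t, ‖𝓕 Φ t‖ ≤ 16 * L := by
    have h1 : ∫ t, ‖𝓕 Φ t‖ ≤ ∫ t, sepH (L + w) ((1 / w) ^ ε) ε |t| :=
      integral_mono hFi.norm hH3 hbd
    rw [integral_comp_abs, hH2] at h1
    have h2 : (1 / w) ^ ε ≤ 3 := by
      have h3 : 1 / w ≤ 2 * y := by
        rw [div_le_iff₀ hw0]
        rw [div_le_iff₀ (by positivity)] at hwlow
        linarith
      have h4 : (1 / w) ^ ε ≤ (2 * (y : ℝ)) ^ ε :=
        Real.rpow_le_rpow (by positivity) h3 hε0.le
      have h5 : (2 * (y : ℝ)) ^ ε = Real.exp 1 := by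
        rw [Real.rpow_def_of_pos (by positivity), hε]
        congr 1
        field_simp
      have h6 := Real.exp_one_lt_d9
      linarith
    have h3 : (1 / w) ^ ε / ε ≤ 3 * (2 * L) := by
      have h4 : (1 / w) ^ ε / ε = (1 / w) ^ ε * Real.log (2 * y) := by
        rw [hε]
        field_simp
      rw [h4]
      exact mul_le_mul h2 hl2 (by linarith) (by norm_num)
    linarith
  have hpi : (2 * Real.pi : ℝ) ≠ 0 := Real.two_pi_pos.ne'
  refine ⟨fun t => (((2 * Real.pi)⁻¹ : ℝ) : ℂ) * 𝓕 Φ (t / (2 * Real.pi)), ?_, ?_, ?_⟩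
  · exact (hFi.comp_div hpi).const_mul _
  · have h1 : ∀ t : ℝ, ‖(((2 * Real.pi)⁻¹ : ℝ) : ℂ) * 𝓕 Φ (t / (2 * Real.pi))‖ =
        (2 * Real.pi)⁻¹ * ‖𝓕 Φ (t / (2 * Real.pi))‖ := by
      intro t
      rw [norm_mul, Complex.norm_real, Real.norm_of_nonneg (by positivity)]
    rw [integral_congr_ae (Filter.Eventually.of_forall h1), integral_const_mul,
      Measure.integral_comp_div (fun s => ‖𝓕 Φ s‖), abs_of_pos Real.two_pi_pos, smul_eq_mul,
      ← mul_assoc, inv_mul_cancel₀ hpi, one_mul, ← hL]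
    exact hFn
  · intro k hk
    have hk0 : (k : ℂ) ≠ 0 := by exact_mod_cast (by omega : k ≠ 0)
    have hkr : (1 : ℝ) ≤ k := by exact_mod_cast hk
    have h1 : ∀ t : ℝ, (((2 * Real.pi)⁻¹ : ℝ) : ℂ) * 𝓕 Φ (t / (2 * Real.pi)) *
        (k : ℂ) ^ ((t : ℂ) * Complex.I) = (((2 * Real.pi)⁻¹ : ℝ) : ℂ) *
        (fun s : ℝ => Complex.exp ((((2 * Real.pi * (s * Real.log k)) : ℝ) : ℂ) * Complex.I) *
          𝓕 Φ s) (t / (2 * Real.pi)) := by
      intro t
      have e1 : (k : ℂ) ^ ((t : ℂ) * Complex.I) =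
          Complex.exp ((((2 * Real.pi * (t / (2 * Real.pi) * Real.log k)) : ℝ) : ℂ) * Complex.I) := by
        rw [Complex.cpow_def_of_ne_zero hk0, ← Complex.natCast_log]
        congr 1
        have e2 : 2 * Real.pi * (t / (2 * Real.pi) * Real.log k) = t * Real.log k := by
          field_simp
        rw [e2]
        push_cast
        ring
      rw [e1]
      ring
    rw [integral_congr_ae (Filter.Eventually.of_forall h1), integral_const_mul,
      Measure.integral_comp_div (fun s : ℝ => Complex.exp ((((2 * Real.pi * (s * Real.log k)) : ℝ) :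
        ℂ) * Complex.I) * 𝓕 Φ s), abs_of_pos Real.two_pi_pos, Complex.real_smul, ← mul_assoc,
      ← Complex.ofReal_mul, inv_mul_cancel₀ hpi, Complex.ofReal_one, one_mul]
    have h2 := congrFun (hΦc.fourierInv_fourier_eq hΦi hFi) (Real.log k)
    rw [Real.fourierInv_eq'] at h2
    have h3 : ∫ s : ℝ, Complex.exp ((((2 * Real.pi * (s * Real.log k)) : ℝ) : ℂ) * Complex.I) *
        𝓕 Φ s = Φ (Real.log k) := by
      rw [← h2]
      apply integral_congr_ae
      refine Filter.Eventually.of_forall fun s => ?_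
      simp only [smul_eq_mul]
      congr 5
      simp [mul_comm]
    rw [h3, hΦe]
    have hlk : 0 ≤ Real.log k := Real.log_nonneg hkr
    split_ifs with hky
    · have h4 : Real.log k ≤ L := by
        rw [hL]
        exact Real.log_le_log (by linarith) (by exact_mod_cast hky)
      rw [min_eq_right (by linarith), max_eq_right (a := -(w / 2)) (by linarith)]
      have h5 : Real.log k + w / 2 - (Real.log k - w / 2) = w := by ring
      rw [h5, max_eq_left hw0.le, mul_one_div_cancel hw0.ne', Complex.ofReal_one]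
    · have h4 : L + w ≤ Real.log k := by
        rw [hL, hw]
        have h5 : (y : ℝ) + 1 ≤ k := by exact_mod_cast (by omega : y + 1 ≤ k)
        have := Real.log_le_log (by positivity) h5
        linarith
      rw [min_eq_left (by linarith), max_eq_right (a := -(w / 2)) (by linarith),
        max_eq_right (by linarith), zero_mul, Complex.ofReal_zero]

end Pool.Agent.Lib.H59C
end

-- from Lib.PNT.Fejer
section

/-!
# The Fejer kernel and its Fourier transform
-/

open Complex MeasureTheory Filter Topology Set FourierTransform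

namespace Pool.Agent.Lib.PNT

/-- The tent function. -/
noncomputable def tent (t : ℝ) : ℝ := max 0 (1 - |t|)

/-- The Fejer kernel, normalised to have integral one. -/
noncomputable def fejer (u : ℝ) : ℝ := (Real.sinc (u / 2)) ^ 2 / (2 * Real.pi)

theorem continuous_tent : Continuous tent := by
  unfold tent; fun_prop

theorem tent_nonneg (t : ℝ) : 0 ≤ tent t := le_max_left _ _

theorem tent_eq_zero {t : ℝ} (ht : 1 ≤ |t|) : tent t = 0 :=
  max_eq_left (by linarith)

theorem tent_zero : tent 0 = 1 := by simp [tent]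

theorem hasCompactSupport_tent : HasCompactSupport tent := by
  refine HasCompactSupport.intro (K := Icc (-1) 1) isCompact_Icc ?_
  intro t ht
  apply tent_eq_zero
  by_contra h
  push Not at h
  exact ht (abs_le.mp h.le)

theorem integrable_tent : Integrable tent :=
  continuous_tent.integrable_of_hasCompactSupport hasCompactSupport_tent

theorem continuous_fejer : Continuous fejer := by
  unfold fejer
  have := Real.continuous_sinc
  fun_prop

theorem fejer_nonneg (u : ℝ) : 0 ≤ fejer u := by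
  unfold fejer
  have := Real.pi_pos
  positivity

theorem fejer_le_one (u : ℝ) : fejer u ≤ 1 := by
  unfold fejer
  have h3 := Real.pi_gt_three
  have h1 : (Real.sinc (u / 2)) ^ 2 ≤ 1 := by
    have := Real.abs_sinc_le_one (u / 2)
    rw [← sq_abs]
    exact pow_le_one₀ (abs_nonneg _) this
  rw [div_le_one (by positivity)]
  linarith

theorem tent_fourier (u : ℝ) :
    ∫ t : ℝ, (tent t : ℂ) * cexp (-(t * u) * I) = ((Real.sinc (u / 2)) ^ 2 : ℝ) := by
  have h1 : ∫ t : ℝ, (tent t : ℂ) * cexp (-(t * u) * I)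
      = ∫ t in (-1 : ℝ)..1, (tent t : ℂ) * cexp (-(t * u) * I) := by
    rw [intervalIntegral.integral_of_le (by norm_num)]
    symm
    apply setIntegral_eq_integral_of_forall_compl_eq_zero
    intro t ht
    have : tent t = 0 := by
      apply tent_eq_zero
      by_contra h
      push Not at h
      rw [abs_lt] at h
      exact ht ⟨h.1, h.2.le⟩
    simp [this]
  have hc : Continuous fun t : ℝ => (tent t : ℂ) * cexp (-(t * u) * I) := by
    have := continuous_tent
    fun_prop
  have h2 : ∫ t in (-1 : ℝ)..1, (tent t : ℂ) * cexp (-(t * u) * I)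
      = (∫ t in (-1 : ℝ)..0, (tent t : ℂ) * cexp (-(t * u) * I))
        + ∫ t in (0 : ℝ)..1, (tent t : ℂ) * cexp (-(t * u) * I) :=
    (intervalIntegral.integral_add_adjacent_intervals (hc.intervalIntegrable _ _)
      (hc.intervalIntegrable _ _)).symm
  have h3 : ∫ t in (-1 : ℝ)..0, (tent t : ℂ) * cexp (-(t * u) * I)
      = ∫ t in (-1 : ℝ)..0, ((1 + t : ℝ) : ℂ) * cexp (-(t * u) * I) := by
    apply intervalIntegral.integral_congr
    intro t ht
    rw [uIcc_of_le (by norm_num)] at ht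
    have : tent t = 1 + t := by
      unfold tent
      rw [abs_of_nonpos ht.2, max_eq_right (by linarith [ht.1])]; ring
    simp only [this]
  have h4 : ∫ t in (0 : ℝ)..1, (tent t : ℂ) * cexp (-(t * u) * I)
      = ∫ t in (0 : ℝ)..1, ((1 - t : ℝ) : ℂ) * cexp (-(t * u) * I) := by
    apply intervalIntegral.integral_congr
    intro t ht
    rw [uIcc_of_le (by norm_num)] at ht
    have : tent t = 1 - t := by
      unfold tent
      rw [abs_of_nonneg ht.1, max_eq_right (by linarith [ht.2])]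
    simp only [this]
  rw [h1, h2, h3, h4]
  rcases eq_or_ne u 0 with rfl | hu
  · simp only [ofReal_zero, mul_zero, neg_zero, zero_mul, Complex.exp_zero, mul_one, zero_div,
      Real.sinc_zero, one_pow, ofReal_one]
    rw [intervalIntegral.integral_ofReal, intervalIntegral.integral_ofReal]
    have e1 : ∫ t in (-1 : ℝ)..0, (1 + t) = 1 / 2 := by
      rw [intervalIntegral.integral_add (by simp) (by simp)]
      simp; norm_num
    have e2 : ∫ t in (0 : ℝ)..1, (1 - t) = 1 / 2 := by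
      rw [intervalIntegral.integral_sub (by simp) (by simp)]
      simp; norm_num
    rw [e1, e2]; norm_num
  · set c : ℂ := -(u * I) with hcdef
    have hc0 : c ≠ 0 := by
      rw [hcdef, neg_ne_zero]
      exact mul_ne_zero (by exact_mod_cast hu) I_ne_zero
    have hexp : ∀ t : ℝ, cexp (-(t * u) * I) = cexp (c * t) := by
      intro t; rw [hcdef]; congr 1; ring
    have hd : ∀ t : ℝ, HasDerivAt (fun t : ℝ => cexp (c * t)) (c * cexp (c * t)) t := by
      intro t
      have h := ((hasDerivAt_id (t : ℂ)).const_mul c).cexp.comp_ofReal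
      simpa [mul_comm] using h
    have hid : ∀ t : ℝ, HasDerivAt (fun t : ℝ => (t : ℂ)) 1 t := fun t =>
      (hasDerivAt_id (t : ℂ)).comp_ofReal
    have e1 : ∫ t in (-1 : ℝ)..0, ((1 + t : ℝ) : ℂ) * cexp (-(t * u) * I)
        = 1 / c - 1 / c ^ 2 + cexp (-c) / c ^ 2 := by
      have hder : ∀ t ∈ uIcc (-1 : ℝ) 0, HasDerivAt
          (fun t : ℝ => (1 + (t : ℂ)) * cexp (c * t) / c - cexp (c * t) / c ^ 2)
          (((1 + t : ℝ) : ℂ) * cexp (-(t * u) * I)) t := by
        intro t _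
        rw [hexp]
        have h := ((((hid t).const_add 1).mul (hd t)).div_const c).sub ((hd t).div_const (c ^ 2))
        convert! h using 1
        push_cast
        field_simp
        ring
      rw [intervalIntegral.integral_eq_sub_of_hasDerivAt hder
        (Continuous.intervalIntegrable (by fun_prop) _ _)]
      simp
    have e2 : ∫ t in (0 : ℝ)..1, ((1 - t : ℝ) : ℂ) * cexp (-(t * u) * I)
        = cexp c / c ^ 2 - 1 / c - 1 / c ^ 2 := by
      have hder : ∀ t ∈ uIcc (0 : ℝ) 1, HasDerivAt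
          (fun t : ℝ => (1 - (t : ℂ)) * cexp (c * t) / c + cexp (c * t) / c ^ 2)
          (((1 - t : ℝ) : ℂ) * cexp (-(t * u) * I)) t := by
        intro t _
        rw [hexp]
        have h := ((((hid t).const_sub 1).mul (hd t)).div_const c).add ((hd t).div_const (c ^ 2))
        convert! h using 1
        push_cast
        field_simp
        ring
      rw [intervalIntegral.integral_eq_sub_of_hasDerivAt hder
        (Continuous.intervalIntegrable (by fun_prop) _ _)]
      simp
      ring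
    rw [e1, e2]
    have hsum : cexp (-c) + cexp c = 2 * (Real.cos u : ℂ) := by
      rw [hcdef, neg_neg]
      rw [ofReal_cos, Complex.cos]
      ring_nf
    have hc2 : c ^ 2 = -((u : ℂ) ^ 2) := by
      rw [hcdef, neg_sq, mul_pow, I_sq]; ring
    have hu' : (u : ℂ) ≠ 0 := by exact_mod_cast hu
    have hs : (Real.sinc (u / 2)) ^ 2 = 2 * (1 - Real.cos u) / u ^ 2 := by
      rw [Real.sinc_of_ne_zero (by simpa using hu), div_pow]
      have : Real.cos u = 1 - 2 * Real.sin (u / 2) ^ 2 := by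
        have h := Real.cos_two_mul (u / 2)
        rw [Real.cos_sq', show 2 * (u / 2) = u by ring] at h
        linarith
      rw [this]
      field_simp
      ring
    have : 1 / c - 1 / c ^ 2 + cexp (-c) / c ^ 2 + (cexp c / c ^ 2 - 1 / c - 1 / c ^ 2)
        = ((cexp (-c) + cexp c) - 2) / c ^ 2 := by ring
    rw [this, hsum, hc2, hs]
    push_cast
    field_simp
    ring

theorem sinc_sq_le (x : ℝ) : (Real.sinc x) ^ 2 ≤ 2 * (1 + x ^ 2)⁻¹ := by
  have h1 : (Real.sinc x) ^ 2 ≤ 1 := by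
    have := Real.abs_sinc_le_one x
    rw [← sq_abs]
    exact pow_le_one₀ (abs_nonneg _) this
  have h2 : x ^ 2 * (Real.sinc x) ^ 2 ≤ 1 := by
    rcases eq_or_ne x 0 with rfl | hx
    · simp
    · rw [Real.sinc_of_ne_zero hx, div_pow]
      have : x ^ 2 * (Real.sin x ^ 2 / x ^ 2) = Real.sin x ^ 2 := by field_simp
      rw [this]
      exact Real.sin_sq_le_one x
  rw [← div_eq_mul_inv, le_div_iff₀ (by positivity)]
  nlinarith

theorem integrable_fejer : Integrable fejer := by
  have h1 : Integrable fun x : ℝ => (1 + x ^ 2)⁻¹ := integrable_inv_one_add_sq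
  have h2 : Integrable fun x : ℝ => (1 + (x / 2) ^ 2)⁻¹ := h1.comp_div (by norm_num)
  refine Integrable.mono' (g := fun x : ℝ => (2 * (1 + (x / 2) ^ 2)⁻¹) / (2 * Real.pi))
    ((h2.const_mul 2).div_const _) continuous_fejer.aestronglyMeasurable ?_
  refine Eventually.of_forall fun x => ?_
  rw [Real.norm_of_nonneg (fejer_nonneg x), fejer]
  exact div_le_div_of_nonneg_right (sinc_sq_le _) (by positivity)

theorem fourier_tent (w : ℝ) : 𝓕 (fun t : ℝ => (tent t : ℂ)) w = ((2 * Real.pi * fejer (2 * Real.pi * w) : ℝ) : ℂ) := by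
  rw [Real.fourier_eq']
  have := tent_fourier (2 * Real.pi * w)
  have hpi := Real.pi_pos
  rw [fejer, mul_div_cancel₀ _ (by positivity), ← this]
  apply integral_congr_ae
  refine Eventually.of_forall fun t => ?_
  simp only [smul_eq_mul]
  rw [mul_comm]
  congr 1
  simp
  ring_nf

theorem integral_fejer : ∫ u, fejer u = 1 := by
  have hpi := Real.pi_pos
  have hF : (𝓕 (fun t : ℝ => (tent t : ℂ)))
      = fun w : ℝ => ((2 * Real.pi * fejer (2 * Real.pi * w) : ℝ) : ℂ) := by
    ext w; exact fourier_tent w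
  have hint : Integrable (𝓕 (fun t : ℝ => (tent t : ℂ))) := by
    rw [hF]
    apply Integrable.ofReal
    exact (integrable_fejer.comp_mul_left' (by positivity : 2 * Real.pi ≠ 0)).const_mul _
  have hinv := Continuous.fourierInv_fourier_eq (f := fun t : ℝ => (tent t : ℂ))
    (by have := continuous_tent; fun_prop) integrable_tent.ofReal hint
  have h0 := congrFun hinv 0
  rw [Real.fourierInv_eq'] at h0
  simp only [inner_zero_right, mul_zero, ofReal_zero, zero_mul, Complex.exp_zero, one_smul,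
    tent_zero, ofReal_one] at h0
  rw [hF] at h0
  beta_reduce at h0
  rw [integral_complex_ofReal] at h0
  have h1 : ∫ w : ℝ, 2 * Real.pi * fejer (2 * Real.pi * w) = 1 := by exact_mod_cast h0
  rw [integral_const_mul, Measure.integral_comp_mul_left] at h1
  rw [abs_of_pos (by positivity), smul_eq_mul, ← mul_assoc, mul_inv_cancel₀ (by positivity),
    one_mul] at h1
  exact h1

/-- Scaled Fejer kernel. -/
noncomputable def fejerS (l u : ℝ) : ℝ := l * fejer (l * u)

/-- Scaled tent. -/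
noncomputable def tentS (l t : ℝ) : ℝ := tent (t / l)

theorem continuous_fejerS (l : ℝ) : Continuous (fejerS l) := by
  unfold fejerS
  have := continuous_fejer
  fun_prop

theorem continuous_tentS (l : ℝ) : Continuous (tentS l) := by
  unfold tentS
  have := continuous_tent
  fun_prop

theorem fejerS_nonneg {l : ℝ} (hl : 0 < l) (u : ℝ) : 0 ≤ fejerS l u :=
  mul_nonneg hl.le (fejer_nonneg _)

theorem fejerS_le {l : ℝ} (hl : 0 < l) (u : ℝ) : fejerS l u ≤ l := by
  unfold fejerS
  have := fejer_le_one (l * u)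
  nlinarith

theorem tentS_nonneg (l t : ℝ) : 0 ≤ tentS l t := tent_nonneg _

theorem tentS_eq_zero {l t : ℝ} (hl : 0 < l) (ht : l ≤ |t|) : tentS l t = 0 := by
  apply tent_eq_zero
  rwa [abs_div, abs_of_pos hl, le_div_iff₀ hl, one_mul]

theorem integrable_tentS {l : ℝ} (hl : 0 < l) : Integrable (tentS l) := by
  unfold tentS
  exact integrable_tent.comp_div hl.ne'

theorem integrable_fejerS {l : ℝ} (hl : 0 < l) : Integrable (fejerS l) := by
  unfold fejerS
  exact (integrable_fejer.comp_mul_left' hl.ne').const_mul _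

theorem integral_fejerS {l : ℝ} (hl : 0 < l) : ∫ u, fejerS l u = 1 := by
  unfold fejerS
  rw [integral_const_mul, Measure.integral_comp_mul_left, integral_fejer, abs_of_pos
    (by positivity), smul_eq_mul, mul_one, mul_inv_cancel₀ hl.ne']

theorem tentS_fourier {l : ℝ} (hl : 0 < l) (u : ℝ) :
    ∫ t : ℝ, (tentS l t : ℂ) * cexp (-(t * u) * I) = ((2 * Real.pi * fejerS l u : ℝ) : ℂ) := by
  have h := tent_fourier (l * u)
  have h2 := Measure.integral_comp_div (fun t : ℝ => (tent t : ℂ) * cexp (-(t * (l * u : ℝ)) * I)) l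
  rw [h, abs_of_pos hl] at h2
  have h3 : ∫ t : ℝ, (tentS l t : ℂ) * cexp (-(t * u) * I)
      = ∫ x : ℝ, (tent (x / l) : ℂ) * cexp (-(((x / l : ℝ) : ℂ) * (l * u : ℝ)) * I) := by
    apply integral_congr_ae
    refine Eventually.of_forall fun t => ?_
    simp only [tentS]
    congr 2
    push_cast
    have : (l : ℂ) ≠ 0 := by exact_mod_cast hl.ne'
    field_simp
  rw [h3, h2, fejerS, fejer]
  have hpi := Real.pi_pos
  rw [real_smul, ← ofReal_mul]
  congr 1
  field_simp

end Pool.Agent.Lib.PNT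
end

-- from Lib.PNT.WienerIkehara
section

/-!
# The Wiener-Ikehara theorem, Laplace transform form
-/

open Complex MeasureTheory Filter Topology Set

namespace Pool.Agent.Lib.PNT

/-- Hypotheses of the Wiener-Ikehara theorem in Laplace form. -/
structure WIData (α : ℝ → ℝ) (A : ℝ) (H : ℂ → ℂ) : Prop where
  mono : MonotoneOn α (Ici 0)
  nonneg : ∀ u, 0 ≤ u → 0 ≤ α u
  int : ∀ σ : ℝ, 1 < σ → IntegrableOn (fun u => α u * Real.exp (-(σ * u))) (Ioi 0)
  cont : ContinuousOn H {s | 1 ≤ s.re}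
  lap : ∀ s : ℂ, 1 < s.re →
    ∫ u in Ioi (0 : ℝ), (α u : ℂ) * cexp (-(s * u)) = H s + A / (s - 1)

/-- The damped difference. -/
noncomputable def wiG (α : ℝ → ℝ) (A δ u : ℝ) : ℝ :=
  (α u * Real.exp (-u) - A) * Real.exp (-(δ * u))

variable {α : ℝ → ℝ} {A : ℝ} {H : ℂ → ℂ}

theorem WIData.integrable_exp {δ : ℝ} (hδ : 0 < δ) :
    IntegrableOn (fun u : ℝ => Real.exp (-(δ * u))) (Ioi 0) := by
  have := integrableOn_exp_mul_Ioi (a := -δ) (by linarith) 0
  refine this.congr_fun (fun u _ => ?_) measurableSet_Ioi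
  simp

theorem WIData.integrable_damped (h : WIData α A H) {δ : ℝ} (hδ : 0 < δ) :
    IntegrableOn (fun u : ℝ => α u * Real.exp (-u) * Real.exp (-(δ * u))) (Ioi 0) := by
  refine (h.int (1 + δ) (by linarith)).congr_fun (fun u _ => ?_) measurableSet_Ioi
  simp only []
  rw [mul_assoc, ← Real.exp_add]
  ring_nf

theorem WIData.integrable_g (h : WIData α A H) {δ : ℝ} (hδ : 0 < δ) :
    IntegrableOn (wiG α A δ) (Ioi 0) := by
  have h1 := h.integrable_damped hδ
  have h2 := (WIData.integrable_exp hδ).const_mul A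
  refine (h1.sub h2).congr (Eventually.of_forall fun u => ?_)
  simp only [wiG, Pi.sub_apply]
  ring

theorem WIData.lap' (h : WIData α A H) {δ : ℝ} (hδ : 0 < δ) (t : ℝ) :
    ∫ u in Ioi (0 : ℝ), (wiG α A δ u : ℂ) * cexp (-(t * u) * I) = H (1 + δ + t * I) := by
  have hs : 1 < (1 + δ + t * I : ℂ).re := by simp [hδ]
  have h1 := h.lap _ hs
  have hre : (-(δ + t * I) : ℂ).re < 0 := by simp [hδ]
  have hint1 : IntegrableOn (fun u : ℝ => (α u : ℂ) * cexp (-((1 + δ + t * I) * u))) (Ioi 0) := by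
    have hi := (h.int (1 + δ) (by linarith)).ofReal (𝕜 := ℂ)
    have := hi.mul_bdd (g := fun u : ℝ => cexp (-(t * u) * I)) (c := 1)
      (by fun_prop) (Eventually.of_forall fun u => by
        rw [show (-(t * u : ℂ) * I) = ((-(t * u) : ℝ) : ℂ) * I by push_cast; ring]
        rw [Complex.norm_exp_ofReal_mul_I])
    refine Integrable.congr this (Eventually.of_forall fun u => ?_)
    simp only [coe_algebraMap]
    push_cast
    rw [mul_assoc, ← Complex.exp_add]
    congr 2
    ring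
  have hint2 : IntegrableOn (fun u : ℝ => cexp (-(δ + t * I) * u)) (Ioi 0) :=
    integrableOn_exp_mul_complex_Ioi hre 0
  have h2 := integral_exp_mul_complex_Ioi hre 0
  have h3 : ∫ u in Ioi (0 : ℝ), (wiG α A δ u : ℂ) * cexp (-(t * u) * I)
      = ∫ u in Ioi (0 : ℝ), ((α u : ℂ) * cexp (-((1 + δ + t * I) * u))
        - A * cexp (-(δ + t * I) * u)) := by
    apply integral_congr_ae
    refine Eventually.of_forall fun u => ?_
    simp only [wiG]
    push_cast
    have e1 : cexp (-((1 + δ + t * I) * u)) = cexp (-(u : ℂ)) * cexp (-(δ * u)) * cexp (-(t * u) * I) := by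
      rw [← Complex.exp_add, ← Complex.exp_add]; congr 1; ring
    have e2 : cexp (-(δ + t * I) * u) = cexp (-(δ * u)) * cexp (-(t * u) * I) := by
      rw [← Complex.exp_add]; congr 1; ring
    rw [e1, e2]
    ring
  rw [h3, integral_sub hint1 (hint2.const_mul _), h1, integral_const_mul, h2]
  have hne : (δ + t * I : ℂ) ≠ 0 := by
    intro h0
    rw [h0] at hre
    simp at hre
  rw [show (1 + δ + t * I - 1 : ℂ) = δ + t * I by ring]
  simp only [ofReal_zero, mul_zero, Complex.exp_zero]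
  field_simp
  ring

theorem WIData.fub (h : WIData α A H) {l : ℝ} (hl : 0 < l) {δ : ℝ} (hδ : 0 < δ) (y : ℝ) :
    ∫ t : ℝ, (tentS l t : ℂ) * cexp (t * y * I) * H (1 + δ + t * I)
      = ((∫ u in Ioi (0 : ℝ), wiG α A δ u * (2 * Real.pi * fejerS l (u - y)) : ℝ) : ℂ) := by
  have hint : Integrable (Function.uncurry fun (t : ℝ) (u : ℝ) =>
      ((tentS l t : ℂ) * (wiG α A δ u : ℂ)) * cexp (-(t * (u - y)) * I))
      ((volume : Measure ℝ).prod (volume.restrict (Ioi (0 : ℝ)))) := by
    have h1 := Integrable.mul_prod ((integrable_tentS hl).ofReal (𝕜 := ℂ))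
      ((h.integrable_g hδ).ofReal (𝕜 := ℂ))
    have := h1.mul_bdd (g := fun z : ℝ × ℝ => cexp (-(z.1 * (z.2 - y)) * I)) (c := 1)
      (by fun_prop) (Eventually.of_forall fun z => by
        rw [show (-(z.1 * (z.2 - y) : ℂ) * I) = ((-(z.1 * (z.2 - y)) : ℝ) : ℂ) * I by push_cast; ring]
        rw [Complex.norm_exp_ofReal_mul_I])
    exact this
  have key := integral_integral_swap hint
  have e1 : ∫ t : ℝ, (tentS l t : ℂ) * cexp (t * y * I) * H (1 + δ + t * I)
      = ∫ t : ℝ, ∫ u in Ioi (0 : ℝ),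
        ((tentS l t : ℂ) * (wiG α A δ u : ℂ)) * cexp (-(t * (u - y)) * I) := by
    apply integral_congr_ae
    refine Eventually.of_forall fun t => ?_
    simp only []
    rw [← h.lap' hδ t, ← integral_const_mul]
    apply integral_congr_ae
    refine Eventually.of_forall fun u => ?_
    simp only []
    have : cexp (-(t * (u - y)) * I) = cexp (t * y * I) * cexp (-(t * u) * I) := by
      rw [← Complex.exp_add]; congr 1; ring
    rw [this]; ring
  have e2 : ∫ u in Ioi (0 : ℝ), ∫ t : ℝ,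
        ((tentS l t : ℂ) * (wiG α A δ u : ℂ)) * cexp (-(t * (u - y)) * I)
      = ((∫ u in Ioi (0 : ℝ), wiG α A δ u * (2 * Real.pi * fejerS l (u - y)) : ℝ) : ℂ) := by
    rw [← integral_complex_ofReal]
    apply integral_congr_ae
    refine Eventually.of_forall fun u => ?_
    simp only []
    rw [ofReal_mul, ← tentS_fourier hl, ← integral_const_mul]
    apply integral_congr_ae
    refine Eventually.of_forall fun t => ?_
    simp only []
    push_cast
    ring
  rw [e1, key, e2]

/-- The smoothed damped function. -/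
noncomputable def wiJ (α : ℝ → ℝ) (l δ y : ℝ) : ℝ :=
  ∫ u in Ioi (0 : ℝ), α u * Real.exp (-u) * Real.exp (-(δ * u)) * fejerS l (u - y)

/-- The limit of the smoothed damped function. -/
noncomputable def wiL (A : ℝ) (H : ℂ → ℂ) (l y : ℝ) : ℝ :=
  A * (∫ u in Ioi (0 : ℝ), fejerS l (u - y))
    + (1 / (2 * Real.pi)) * (∫ t : ℝ, (tentS l t : ℂ) * cexp (t * y * I) * H (1 + t * I)).re

theorem integrable_shift {l : ℝ} (hl : 0 < l) (y : ℝ) :
    Integrable fun u : ℝ => fejerS l (u - y) :=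
  (integrable_fejerS hl).comp_sub_right y

theorem WIData.integrable_J (h : WIData α A H) {l : ℝ} (hl : 0 < l) {δ : ℝ} (hδ : 0 < δ) (y : ℝ) :
    IntegrableOn (fun u : ℝ => α u * Real.exp (-u) * Real.exp (-(δ * u)) * fejerS l (u - y))
      (Ioi 0) := by
  refine (h.integrable_damped hδ).mul_bdd (c := l) ?_ (Eventually.of_forall fun u => ?_)
  · have := continuous_fejerS l
    fun_prop
  · rw [Real.norm_of_nonneg (fejerS_nonneg hl _)]
    exact fejerS_le hl _

theorem WIData.J_eq (h : WIData α A H) {l : ℝ} (hl : 0 < l) {δ : ℝ} (hδ : 0 < δ) (y : ℝ) :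
    wiJ α l δ y = A * (∫ u in Ioi (0 : ℝ), Real.exp (-(δ * u)) * fejerS l (u - y))
      + (1 / (2 * Real.pi)) *
        (∫ t : ℝ, (tentS l t : ℂ) * cexp (t * y * I) * H (1 + δ + t * I)).re := by
  have hpi := Real.pi_pos
  rw [h.fub hl hδ y, ofReal_re]
  have h1 := h.integrable_J hl hδ y
  have h2 : IntegrableOn (fun u : ℝ => Real.exp (-(δ * u)) * fejerS l (u - y)) (Ioi 0) := by
    refine (WIData.integrable_exp hδ).mul_bdd (c := l) ?_ (Eventually.of_forall fun u => ?_)
    · have := continuous_fejerS l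
      fun_prop
    · rw [Real.norm_of_nonneg (fejerS_nonneg hl _)]
      exact fejerS_le hl _
  have h3 : ∫ u in Ioi (0 : ℝ), wiG α A δ u * (2 * Real.pi * fejerS l (u - y))
      = 2 * Real.pi * (wiJ α l δ y
        - A * (∫ u in Ioi (0 : ℝ), Real.exp (-(δ * u)) * fejerS l (u - y))) := by
    unfold wiJ
    rw [← integral_const_mul, ← integral_sub h1 (h2.const_mul A), ← integral_const_mul]
    apply integral_congr_ae
    refine Eventually.of_forall fun u => ?_
    simp only [wiG]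
    ring
  rw [h3]
  field_simp
  ring

theorem WIData.tendsto_J (h : WIData α A H) {l : ℝ} (hl : 0 < l) (y : ℝ) :
    Tendsto (fun δ => wiJ α l δ y) (𝓝[>] 0) (𝓝 (wiL A H l y)) := by
  have hpi := Real.pi_pos
  have hA : Tendsto (fun δ : ℝ => ∫ u in Ioi (0 : ℝ), Real.exp (-(δ * u)) * fejerS l (u - y))
      (𝓝[>] 0) (𝓝 (∫ u in Ioi (0 : ℝ), fejerS l (u - y))) := by
    apply tendsto_integral_filter_of_dominated_convergence (fun u => fejerS l (u - y))
    · refine Eventually.of_forall fun δ => ?_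
      have := continuous_fejerS l
      exact Continuous.aestronglyMeasurable (by fun_prop)
    · filter_upwards [self_mem_nhdsWithin] with δ hδ
      filter_upwards [ae_restrict_mem measurableSet_Ioi] with u hu
      have hδ' : 0 < δ := hδ
      have hu' : 0 < u := hu
      rw [norm_mul, Real.norm_of_nonneg (fejerS_nonneg hl _), Real.norm_of_nonneg (Real.exp_pos _).le]
      have : Real.exp (-(δ * u)) ≤ 1 := by
        rw [Real.exp_le_one_iff]
        have := mul_pos hδ' hu'
        linarith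
      exact mul_le_of_le_one_left (fejerS_nonneg hl _) this
    · exact (integrable_shift hl y).integrableOn
    · refine Eventually.of_forall fun u => ?_
      have : Continuous fun δ : ℝ => Real.exp (-(δ * u)) * fejerS l (u - y) := by fun_prop
      have h0 := (this.tendsto 0).mono_left (nhdsWithin_le_nhds (s := Ioi (0 : ℝ)))
      simpa using h0
  have hB : Tendsto (fun δ : ℝ => ∫ t : ℝ, (tentS l t : ℂ) * cexp (t * y * I) * H (1 + δ + t * I))
      (𝓝[>] 0) (𝓝 (∫ t : ℝ, (tentS l t : ℂ) * cexp (t * y * I) * H (1 + t * I))) := by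
    have hcomp : IsCompact (Icc (1 : ℝ) 2 ×ℂ Icc (-l) l) := isCompact_Icc.reProdIm isCompact_Icc
    have hsub : (Icc (1 : ℝ) 2 ×ℂ Icc (-l) l) ⊆ {s : ℂ | 1 ≤ s.re} := by
      intro s hs
      exact (Complex.mem_reProdIm.mp hs).1.1
    obtain ⟨C, hC⟩ := hcomp.exists_bound_of_continuousOn (h.cont.mono hsub)
    have hcont : ∀ δ : ℝ, 0 ≤ δ → Continuous fun t : ℝ => H (1 + δ + t * I) := by
      intro δ hδ
      apply h.cont.comp_continuous (by fun_prop)
      intro t
      simp [hδ]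
    apply tendsto_integral_filter_of_dominated_convergence (fun t => C * tentS l t)
    · filter_upwards [self_mem_nhdsWithin] with δ hδ
      have h1 := hcont δ (le_of_lt hδ)
      have h2 := continuous_tentS l
      refine Continuous.aestronglyMeasurable (Continuous.mul ?_ h1)
      fun_prop
    · have hmem : Ioo (0 : ℝ) 1 ∈ 𝓝[>] (0 : ℝ) := Ioo_mem_nhdsGT one_pos
      filter_upwards [hmem] with δ hδ
      refine Eventually.of_forall fun t => ?_
      rw [norm_mul, norm_mul, show ((t : ℂ) * y * I) = ((t * y : ℝ) : ℂ) * I by push_cast; ring,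
        Complex.norm_exp_ofReal_mul_I, mul_one, Complex.norm_real,
        Real.norm_of_nonneg (tentS_nonneg _ _), mul_comm]
      rcases le_or_gt l |t| with ht | ht
      · rw [tentS_eq_zero hl ht]; simp
      · apply mul_le_mul_of_nonneg_right _ (tentS_nonneg _ _)
        apply hC
        rw [Complex.mem_reProdIm]
        rw [abs_lt] at ht
        simp only [add_re, one_re, ofReal_re, mul_re, I_re, mul_zero, ofReal_im, I_im, mul_one,
          sub_self, add_zero, add_im, one_im, mul_im, zero_add, mem_Icc]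
        exact ⟨⟨by linarith [hδ.1], by linarith [hδ.2]⟩, ht.1.le, ht.2.le⟩
    · exact (integrable_tentS hl).const_mul C
    · refine Eventually.of_forall fun t => ?_
      apply Tendsto.const_mul
      have hc := h.cont (1 + t * I) (by simp)
      refine Tendsto.comp hc ?_
      rw [tendsto_nhdsWithin_iff]
      constructor
      · have : Continuous fun δ : ℝ => (1 + δ + t * I : ℂ) := by fun_prop
        have h0 := (this.tendsto 0).mono_left (nhdsWithin_le_nhds (s := Ioi (0 : ℝ)))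
        simpa using h0
      · filter_upwards [self_mem_nhdsWithin] with δ hδ
        have hδ' : 0 < δ := hδ
        simp [hδ'.le]
  have hsum := (hA.const_mul A).add (((continuous_re.tendsto _).comp hB).const_mul (1 / (2 * Real.pi)))
  refine Tendsto.congr' ?_ hsum
  filter_upwards [self_mem_nhdsWithin] with δ hδ
  rw [h.J_eq hl hδ y]
  rfl

theorem WIData.tendsto_L (_h : WIData α A H) {l : ℝ} (hl : 0 < l) :
    Tendsto (wiL A H l) atTop (𝓝 A) := by
  have hA : Tendsto (fun y : ℝ => ∫ u in Ioi (0 : ℝ), fejerS l (u - y)) atTop (𝓝 1) := by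
    have h1 : ∀ y : ℝ, ∫ u in Ioi (0 : ℝ), fejerS l (u - y) = ∫ v in Ioi (-y), fejerS l v := by
      intro y
      rw [← integral_indicator measurableSet_Ioi, ← integral_indicator measurableSet_Ioi,
        ← integral_sub_right_eq_self (fun v => (Ioi (-y)).indicator (fejerS l) v) y]
      apply integral_congr_ae
      refine Eventually.of_forall fun u => ?_
      simp only [indicator, mem_Ioi]
      by_cases hu : 0 < u
      · rw [if_pos hu, if_pos (by linarith)]
      · rw [if_neg hu, if_neg (by intro h; exact hu (by linarith))]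
    simp_rw [h1]
    have hc : AECover (volume : Measure ℝ) atTop (fun y : ℝ => Ioi (-y)) :=
      aecover_Ioi tendsto_neg_atTop_atBot
    have := hc.integral_tendsto_of_countably_generated (integrable_fejerS hl)
    rwa [integral_fejerS hl] at this
  have hB : Tendsto (fun y : ℝ => ∫ t : ℝ, (tentS l t : ℂ) * cexp (t * y * I) * H (1 + t * I))
      atTop (𝓝 0) := by
    have hRL := Real.tendsto_integral_exp_smul_cocompact
      (fun t : ℝ => (tentS l t : ℂ) * H (1 + t * I))
    have hy : Tendsto (fun y : ℝ => -(y / (2 * Real.pi))) atTop (cocompact ℝ) := by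
      have h1 : Tendsto (fun y : ℝ => -(y / (2 * Real.pi))) atTop atBot :=
        tendsto_neg_atTop_atBot.comp (tendsto_id.atTop_div_const (by positivity))
      exact h1.mono_right atBot_le_cocompact
    refine (hRL.comp hy).congr fun y => ?_
    simp only [Function.comp]
    apply integral_congr_ae
    refine Eventually.of_forall fun t => ?_
    simp only [Real.fourierChar_apply, Circle.smul_def, smul_eq_mul]
    have hpi := Real.pi_pos
    have : ((2 * Real.pi * (-(t * -(y / (2 * Real.pi)))) : ℝ) : ℂ) * I = t * y * I := by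
      push_cast
      have : (Real.pi : ℂ) ≠ 0 := by exact_mod_cast hpi.ne'
      field_simp
    rw [this]
    ring
  have hsum := (hA.const_mul A).add (((continuous_re.tendsto _).comp hB).const_mul (1 / (2 * Real.pi)))
  simp only [zero_re, mul_zero, add_zero, mul_one] at hsum
  exact hsum

/-- Mass of the kernel on `[-η, η]`. -/
noncomputable def wiP (l η : ℝ) : ℝ := ∫ u in (-η)..η, fejerS l u

theorem tendsto_P {η : ℝ} (hη : 0 < η) : Tendsto (fun l => wiP l η) atTop (𝓝 1) := by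
  have h1 : ∀ l, wiP l η = ∫ u in (l * (-η))..(l * η), fejer u := by
    intro l
    unfold wiP fejerS
    rw [intervalIntegral.integral_const_mul, intervalIntegral.mul_integral_comp_mul_left]
  simp_rw [h1]
  rw [← integral_fejer]
  apply intervalIntegral_tendsto_integral integrable_fejer
  · exact tendsto_id.atTop_mul_const_of_neg (by linarith)
  · exact tendsto_id.atTop_mul_const hη

theorem wiP_le_one {l η : ℝ} (hl : 0 < l) (hη : 0 < η) : wiP l η ≤ 1 := by
  unfold wiP
  rw [intervalIntegral.integral_of_le (by linarith), ← integral_fejerS hl]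
  exact setIntegral_le_integral (integrable_fejerS hl)
    (Eventually.of_forall fun u => fejerS_nonneg hl u)

theorem wiP_shift (l η y : ℝ) (hη : 0 < η) :
    ∫ u in Ioc (y - η) (y + η), fejerS l (u - y) = wiP l η := by
  rw [← intervalIntegral.integral_of_le (by linarith), intervalIntegral.integral_comp_sub_right]
  unfold wiP
  congr 1 <;> ring

theorem WIData.upper (h : WIData α A H) {l η y : ℝ} (hl : 0 < l) (hη : 0 < η) (hy : η ≤ y) :
    α (y - η) * Real.exp (-(y + η)) * wiP l η ≤ wiL A H l y := by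
  have h0 : 0 ≤ α (y - η) := h.nonneg _ (by linarith)
  have h1 : ∀ δ > 0, α (y - η) * Real.exp (-(y + η)) * Real.exp (-(δ * (y + η))) * wiP l η
      ≤ wiJ α l δ y := by
    intro δ hδ
    have hint := h.integrable_J hl hδ y
    have hsub : Ioc (y - η) (y + η) ⊆ Ioi 0 := fun u hu => lt_of_le_of_lt (by linarith) hu.1
    have h2 : ∫ u in Ioc (y - η) (y + η),
        α u * Real.exp (-u) * Real.exp (-(δ * u)) * fejerS l (u - y) ≤ wiJ α l δ y := by
      unfold wiJ
      apply setIntegral_mono_set hint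
      · filter_upwards [ae_restrict_mem measurableSet_Ioi] with u hu
        have hu' : (0 : ℝ) < u := hu
        have h3 := h.nonneg u hu'.le
        have h4 := fejerS_nonneg hl (u - y)
        simp only [Pi.zero_apply]
        positivity
      · exact hsub.eventuallyLE
    refine le_trans ?_ h2
    rw [← wiP_shift l η y hη, ← integral_const_mul]
    apply setIntegral_mono_on ((integrable_shift hl y).integrableOn.const_mul _)
      (hint.mono_set hsub) measurableSet_Ioc
    intro u hu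
    have hu0 : 0 < u := hsub hu
    apply mul_le_mul_of_nonneg_right _ (fejerS_nonneg hl _)
    have hm : α (y - η) ≤ α u := h.mono (by simp only [mem_Ici]; linarith) hu0.le hu.1.le
    have he : Real.exp (-(y + η)) ≤ Real.exp (-u) := Real.exp_le_exp.mpr (by linarith [hu.2])
    have he2 : Real.exp (-(δ * (y + η))) ≤ Real.exp (-(δ * u)) := by
      apply Real.exp_le_exp.mpr
      have := mul_le_mul_of_nonneg_left hu.2 hδ.le
      linarith
    have h3 := h.nonneg u hu0.le
    gcongr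
  have h2 : Tendsto (fun δ : ℝ => α (y - η) * Real.exp (-(y + η)) * Real.exp (-(δ * (y + η)))
      * wiP l η) (𝓝[>] 0) (𝓝 (α (y - η) * Real.exp (-(y + η)) * wiP l η)) := by
    have : Continuous fun δ : ℝ => α (y - η) * Real.exp (-(y + η)) * Real.exp (-(δ * (y + η)))
      * wiP l η := by fun_prop
    have h0 := (this.tendsto 0).mono_left (nhdsWithin_le_nhds (s := Ioi (0 : ℝ)))
    simpa using h0
  refine le_of_tendsto_of_tendsto h2 (h.tendsto_J hl y) ?_
  filter_upwards [self_mem_nhdsWithin] with δ hδ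
  exact h1 δ hδ

theorem WIData.lower (h : WIData α A H) {l η y M : ℝ} (hl : 0 < l) (hη : 0 < η) (hy : η ≤ y)
    (hM : ∀ u, 0 ≤ u → α u * Real.exp (-u) ≤ M) :
    wiL A H l y ≤ α (y + η) * Real.exp (-(y - η)) * wiP l η + M * (1 - wiP l η) := by
  have h0 : 0 ≤ α (y + η) := h.nonneg _ (by linarith)
  have hM0 : 0 ≤ M := le_trans (mul_nonneg (h.nonneg 0 le_rfl) (Real.exp_pos _).le) (hM 0 le_rfl)
  set c : ℝ := α (y + η) * Real.exp (-(y - η)) with hc
  have hc0 : 0 ≤ c := mul_nonneg h0 (Real.exp_pos _).le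
  have h1 : ∀ δ > 0, wiJ α l δ y ≤ c * wiP l η + M * (1 - wiP l η) := by
    intro δ hδ
    have hint := h.integrable_J hl hδ y
    set Bd : ℝ → ℝ := fun u => M * fejerS l (u - y)
      + (Ioc (y - η) (y + η)).indicator (fun u => (c - M) * fejerS l (u - y)) u with hBd
    have hi1 : Integrable fun u => M * fejerS l (u - y) := (integrable_shift hl y).const_mul M
    have hi2 : Integrable ((Ioc (y - η) (y + η)).indicator
        (fun u => (c - M) * fejerS l (u - y))) :=
      ((integrable_shift hl y).const_mul _).indicator measurableSet_Ioc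
    have hBdi : Integrable Bd := hi1.add hi2
    have hBd_eq : ∀ u, Bd u = (if u ∈ Ioc (y - η) (y + η) then c else M) * fejerS l (u - y) := by
      intro u
      simp only [hBd, indicator]
      split_ifs
      · ring
      · ring
    have hBd0 : ∀ u, 0 ≤ Bd u := by
      intro u
      rw [hBd_eq]
      apply mul_nonneg _ (fejerS_nonneg hl _)
      split_ifs
      · exact hc0
      · exact hM0
    have h2 : wiJ α l δ y ≤ ∫ u in Ioi (0 : ℝ), Bd u := by
      unfold wiJ
      apply setIntegral_mono_on hint hBdi.integrableOn measurableSet_Ioi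
      intro u hu
      have hu0 : (0 : ℝ) < u := hu
      have h3 := h.nonneg u hu0.le
      rw [hBd_eq]
      apply mul_le_mul_of_nonneg_right _ (fejerS_nonneg hl _)
      have he : Real.exp (-(δ * u)) ≤ 1 := by
        rw [Real.exp_le_one_iff]
        have := mul_pos hδ hu0
        linarith
      have hle : α u * Real.exp (-u) * Real.exp (-(δ * u)) ≤ α u * Real.exp (-u) :=
        mul_le_of_le_one_right (by positivity) he
      refine hle.trans ?_
      split_ifs with hu1
      · rw [hc]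
        have hm : α u ≤ α (y + η) := h.mono hu0.le (by simp only [mem_Ici]; linarith) hu1.2
        have he : Real.exp (-u) ≤ Real.exp (-(y - η)) := Real.exp_le_exp.mpr (by linarith [hu1.1])
        gcongr
      · exact hM u hu0.le
    have h3 : ∫ u in Ioi (0 : ℝ), Bd u ≤ ∫ u, Bd u :=
      setIntegral_le_integral hBdi (Eventually.of_forall hBd0)
    have h4 : ∫ u, Bd u = c * wiP l η + M * (1 - wiP l η) := by
      rw [hBd, integral_add hi1 hi2, integral_indicator measurableSet_Ioc, integral_const_mul,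
        integral_const_mul, wiP_shift l η y hη,
        integral_sub_right_eq_self (fun v => fejerS l v) y, integral_fejerS hl]
      ring
    linarith
  refine le_of_tendsto (h.tendsto_J hl y) ?_
  filter_upwards [self_mem_nhdsWithin] with δ hδ
  exact h1 δ hδ

theorem WIData.A_nonneg (h : WIData α A H) : 0 ≤ A := by
  have hP : ∃ l : ℝ, 0 < l ∧ 0 < wiP l 1 := by
    have h1 := (tendsto_P one_pos).eventually (lt_mem_nhds (show (0 : ℝ) < 1 by norm_num))
    obtain ⟨l, hl, hl2⟩ := (h1.and (eventually_gt_atTop 0)).exists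
    exact ⟨l, hl2, hl⟩
  obtain ⟨l, hl, hP⟩ := hP
  refine ge_of_tendsto (h.tendsto_L hl) ?_
  filter_upwards [eventually_ge_atTop (1 : ℝ)] with y hy
  refine le_trans ?_ (h.upper hl one_pos hy)
  have := h.nonneg (y - 1) (by linarith)
  positivity

theorem WIData.exists_bound (h : WIData α A H) :
    ∃ M, ∀ u, 0 ≤ u → α u * Real.exp (-u) ≤ M := by
  have hP : ∃ l : ℝ, 0 < l ∧ 1 / 2 < wiP l 1 := by
    have h1 := (tendsto_P one_pos).eventually (lt_mem_nhds (show (1 / 2 : ℝ) < 1 by norm_num))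
    obtain ⟨l, hl, hl2⟩ := (h1.and (eventually_gt_atTop 0)).exists
    exact ⟨l, hl2, hl⟩
  obtain ⟨l, hl, hP⟩ := hP
  have hL := (h.tendsto_L hl).eventually (gt_mem_nhds (show A < A + 1 by linarith))
  obtain ⟨Y, hY⟩ := eventually_atTop.mp hL
  set U := max Y 0 with hU
  refine ⟨max (α U) (2 * Real.exp 2 * (A + 1)), fun u hu => ?_⟩
  rcases le_or_gt u U with h1 | h1
  · apply le_max_of_le_left
    have h2 : α u ≤ α U := h.mono hu (by simp [hU]) h1
    have h3 : Real.exp (-u) ≤ 1 := by rw [Real.exp_le_one_iff]; linarith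
    calc α u * Real.exp (-u) ≤ α u := mul_le_of_le_one_right (h.nonneg u hu) h3
      _ ≤ α U := h2
  · apply le_max_of_le_right
    have hyY : Y ≤ u + 1 := by
      have := le_max_left Y 0
      linarith
    have h2 := h.upper hl one_pos (y := u + 1) (by linarith)
    have h3 := hY (u + 1) hyY
    rw [show u + 1 - 1 = u by ring, show -(u + 1 + 1) = -u + -2 by ring, Real.exp_add] at h2
    have h4 := h.nonneg u hu
    have h5 : 0 ≤ α u * (Real.exp (-u) * Real.exp (-2)) := by positivity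
    have h6 : α u * (Real.exp (-u) * Real.exp (-2)) * (1 / 2) ≤ A + 1 := by
      calc α u * (Real.exp (-u) * Real.exp (-2)) * (1 / 2)
          ≤ α u * (Real.exp (-u) * Real.exp (-2)) * wiP l 1 := by gcongr
        _ ≤ A + 1 := by linarith
    have h7 : Real.exp 2 * Real.exp (-2) = 1 := by rw [← Real.exp_add]; simp
    calc α u * Real.exp (-u) = 2 * Real.exp 2 * (α u * (Real.exp (-u) * Real.exp (-2)) * (1 / 2)) := by
          linear_combination (-(α u * Real.exp (-u))) * h7
      _ ≤ 2 * Real.exp 2 * (A + 1) := by gcongr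

/-- **Wiener-Ikehara theorem**, Laplace transform form. -/
theorem WIData.tendsto (h : WIData α A H) :
    Tendsto (fun u => α u * Real.exp (-u)) atTop (𝓝 A) := by
  have hA := h.A_nonneg
  obtain ⟨M, hM⟩ := h.exists_bound
  have hM0 : 0 ≤ M := le_trans (mul_nonneg (h.nonneg 0 le_rfl) (Real.exp_pos _).le) (hM 0 le_rfl)
  rw [tendsto_order]
  constructor
  · intro a ha
    have hc : Continuous fun η : ℝ => Real.exp (-(2 * η)) * (A - η - M * η) := by fun_prop
    have h1 : ∀ᶠ η in 𝓝[>] (0 : ℝ), a < Real.exp (-(2 * η)) * (A - η - M * η) := by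
      have := (hc.tendsto 0).mono_left (nhdsWithin_le_nhds (s := Ioi (0 : ℝ)))
      simp only [mul_zero, neg_zero, Real.exp_zero, sub_zero, one_mul] at this
      exact this.eventually (lt_mem_nhds ha)
    obtain ⟨η, hη1, hη2⟩ := (h1.and (Ioo_mem_nhdsGT (show (0 : ℝ) < 1 by norm_num))).exists
    have hP := (tendsto_P hη2.1).eventually (lt_mem_nhds (show 1 - η < 1 by linarith [hη2.1]))
    obtain ⟨l, hPl, hl⟩ := (hP.and (eventually_gt_atTop 0)).exists
    have hL := (h.tendsto_L hl).eventually (lt_mem_nhds (show A - η < A by linarith [hη2.1]))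
    obtain ⟨Y, hY⟩ := eventually_atTop.mp hL
    filter_upwards [eventually_ge_atTop (max Y 0 + 2)] with u hu
    have hY0 := le_max_left Y 0
    have hY1 := le_max_right Y 0
    have h2 := hY (u - η) (by linarith [hη2.2])
    have h3 := h.lower hl hη2.1 (y := u - η) (by linarith [hη2.2]) hM
    rw [show u - η + η = u by ring, show -(u - η - η) = -u + 2 * η by ring, Real.exp_add] at h3
    have hP1 := wiP_le_one hl hη2.1
    have hu0 : 0 ≤ α u := h.nonneg u (by linarith)
    have h4 : α u * (Real.exp (-u) * Real.exp (2 * η)) * wiP l η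
        ≤ α u * Real.exp (-u) * Real.exp (2 * η) := by
      rw [← mul_assoc]
      exact mul_le_of_le_one_right (by positivity) hP1
    have h5 : M * (1 - wiP l η) ≤ M * η := by
      apply mul_le_mul_of_nonneg_left _ hM0
      linarith
    have h6 : A - η - M * η ≤ α u * Real.exp (-u) * Real.exp (2 * η) := by linarith
    have h7 : Real.exp (-(2 * η)) * Real.exp (2 * η) = 1 := by rw [← Real.exp_add]; simp
    calc a < Real.exp (-(2 * η)) * (A - η - M * η) := hη1
      _ ≤ Real.exp (-(2 * η)) * (α u * Real.exp (-u) * Real.exp (2 * η)) := by gcongr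
      _ = α u * Real.exp (-u) := by linear_combination (α u * Real.exp (-u)) * h7
  · intro a ha
    have hc : ContinuousAt (fun η : ℝ => Real.exp (2 * η) * (A + η) / (1 - η)) 0 := by
      apply ContinuousAt.div (by fun_prop) (by fun_prop) (by norm_num)
    have h1 : ∀ᶠ η in 𝓝[>] (0 : ℝ), Real.exp (2 * η) * (A + η) / (1 - η) < a := by
      have := hc.tendsto.mono_left (nhdsWithin_le_nhds (s := Ioi (0 : ℝ)))
      simp only [mul_zero, Real.exp_zero, sub_zero, one_mul, add_zero, div_one] at this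
      exact this.eventually (gt_mem_nhds ha)
    obtain ⟨η, hη1, hη2⟩ := (h1.and (Ioo_mem_nhdsGT (show (0 : ℝ) < 1 by norm_num))).exists
    have hP := (tendsto_P hη2.1).eventually (lt_mem_nhds (show 1 - η < 1 by linarith [hη2.1]))
    obtain ⟨l, hPl, hl⟩ := (hP.and (eventually_gt_atTop 0)).exists
    have hL := (h.tendsto_L hl).eventually (gt_mem_nhds (show A < A + η by linarith [hη2.1]))
    obtain ⟨Y, hY⟩ := eventually_atTop.mp hL
    filter_upwards [eventually_ge_atTop (max Y 0)] with u hu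
    have hY0 := le_max_left Y 0
    have hY1 := le_max_right Y 0
    have h2 := hY (u + η) (by linarith [hη2.1])
    have h3 := h.upper hl hη2.1 (y := u + η) (by linarith)
    rw [show u + η - η = u by ring, show -(u + η + η) = -u + -(2 * η) by ring, Real.exp_add] at h3
    have hu0 : 0 ≤ α u := h.nonneg u (by linarith)
    have h4 : α u * (Real.exp (-u) * Real.exp (-(2 * η))) * (1 - η)
        ≤ α u * (Real.exp (-u) * Real.exp (-(2 * η))) * wiP l η := by
      apply mul_le_mul_of_nonneg_left hPl.le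
      positivity
    have h6 : α u * (Real.exp (-u) * Real.exp (-(2 * η))) * (1 - η) ≤ A + η := by linarith
    have h7 : Real.exp (2 * η) * Real.exp (-(2 * η)) = 1 := by rw [← Real.exp_add]; simp
    have h8 : 0 < 1 - η := by linarith [hη2.2]
    calc α u * Real.exp (-u)
        = Real.exp (2 * η) * (α u * (Real.exp (-u) * Real.exp (-(2 * η))) * (1 - η)) / (1 - η) := by
          rw [eq_div_iff h8.ne']
          linear_combination (-(α u * Real.exp (-u) * (1 - η))) * h7
      _ ≤ Real.exp (2 * η) * (A + η) / (1 - η) := by gcongr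
      _ < a := hη1

end Pool.Agent.Lib.PNT
end

-- from Lib.PNT.Dirichlet
section

/-!
# The Wiener-Ikehara theorem for Dirichlet series
-/

open Complex MeasureTheory Filter Topology Set

namespace Pool.Agent.Lib.PNT

/-- The summatory function. -/
noncomputable def summ (a : ℕ → ℝ) (x : ℝ) : ℝ := ∑ k ∈ Finset.Icc 1 ⌊x⌋₊, a k

theorem summ_mono {a : ℕ → ℝ} (ha : ∀ n, 0 ≤ a n) : Monotone (summ a) := by
  intro x y hxy
  unfold summ
  apply Finset.sum_le_sum_of_subset_of_nonneg
  · exact Finset.Icc_subset_Icc_right (Nat.floor_le_floor hxy)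
  · intro i _ _
    exact ha i

theorem summ_nonneg {a : ℕ → ℝ} (ha : ∀ n, 0 ≤ a n) (x : ℝ) : 0 ≤ summ a x :=
  Finset.sum_nonneg fun i _ => ha i

theorem summ_le_rpow {a : ℕ → ℝ} (ha : ∀ n, 0 ≤ a n) {r : ℝ} (hr : 0 ≤ r)
    (hS : LSeriesSummable (fun n => (a n : ℂ)) r) :
    ∃ C, 0 ≤ C ∧ ∀ x : ℝ, 1 ≤ x → summ a x ≤ C * x ^ r := by
  have h1 : Summable fun n : ℕ => ‖LSeries.term (fun n => (a n : ℂ)) r n‖ := hS.norm
  refine ⟨∑' n : ℕ, ‖LSeries.term (fun n => (a n : ℂ)) r n‖, tsum_nonneg fun n => norm_nonneg _,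
    fun x hx => ?_⟩
  have h2 : ∀ k ∈ Finset.Icc 1 ⌊x⌋₊, a k ≤ x ^ r * ‖LSeries.term (fun n => (a n : ℂ)) r k‖ := by
    intro k hk
    rw [Finset.mem_Icc] at hk
    have hk0 : k ≠ 0 := by omega
    have hkpos : (0 : ℝ) < k := by exact_mod_cast hk.1
    have hkx : (k : ℝ) ≤ x := (Nat.le_floor_iff (by linarith)).mp hk.2
    rw [LSeries.norm_term_eq, if_neg hk0, Complex.norm_real, Real.norm_of_nonneg (ha k), ofReal_re]
    rw [mul_div_assoc', le_div_iff₀ (Real.rpow_pos_of_pos hkpos _), mul_comm]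
    exact mul_le_mul_of_nonneg_right (Real.rpow_le_rpow hkpos.le hkx hr) (ha k)
  calc summ a x ≤ ∑ k ∈ Finset.Icc 1 ⌊x⌋₊, x ^ r * ‖LSeries.term (fun n => (a n : ℂ)) r k‖ :=
        Finset.sum_le_sum h2
    _ = x ^ r * ∑ k ∈ Finset.Icc 1 ⌊x⌋₊, ‖LSeries.term (fun n => (a n : ℂ)) r k‖ := by
        rw [Finset.mul_sum]
    _ ≤ x ^ r * ∑' n : ℕ, ‖LSeries.term (fun n => (a n : ℂ)) r n‖ := by
        apply mul_le_mul_of_nonneg_left _ (by positivity)
        exact h1.sum_le_tsum _ fun i _ => norm_nonneg _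
    _ = _ := mul_comm _ _

theorem wiData_of_dirichlet (a : ℕ → ℝ) (ha : ∀ n, 0 ≤ a n) (A : ℝ) (G : ℂ → ℂ)
    (hS : ∀ σ : ℝ, 1 < σ → LSeriesSummable (fun n => (a n : ℂ)) σ)
    (hG : ContinuousOn G {s | 1 ≤ s.re})
    (hE : ∀ s : ℂ, 1 < s.re → LSeries (fun n => (a n : ℂ)) s = G s + A / (s - 1)) :
    WIData (fun u => summ a (Real.exp u)) A (fun s => (G s - A) / s) where
  mono := by
    intro u _ v _ huv
    exact summ_mono ha (Real.exp_le_exp.mpr huv)
  nonneg := fun u _ => summ_nonneg ha _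
  int := by
    intro σ hσ
    obtain ⟨C, hC0, hC⟩ := summ_le_rpow ha (r := (1 + σ) / 2) (by linarith)
      (hS _ (by linarith))
    have hm : Measurable fun u => summ a (Real.exp u) :=
      Monotone.measurable fun u v huv => summ_mono ha (Real.exp_le_exp.mpr huv)
    refine Integrable.mono' (g := fun u => C * Real.exp (-((σ - 1) / 2) * u))
      ((integrableOn_exp_mul_Ioi (by linarith) 0).const_mul C) ?_ ?_
    · exact Measurable.aestronglyMeasurable (by fun_prop)
    · filter_upwards [ae_restrict_mem measurableSet_Ioi] with u hu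
      have hu0 : (0 : ℝ) < u := hu
      rw [Real.norm_of_nonneg (mul_nonneg (summ_nonneg ha _) (Real.exp_pos _).le)]
      have h1 := hC (Real.exp u) (by rw [Real.one_le_exp_iff]; exact hu0.le)
      rw [← Real.exp_mul] at h1
      calc summ a (Real.exp u) * Real.exp (-(σ * u))
          ≤ C * Real.exp (u * ((1 + σ) / 2)) * Real.exp (-(σ * u)) := by gcongr
        _ = C * Real.exp (-((σ - 1) / 2) * u) := by
            rw [mul_assoc, ← Real.exp_add]; ring_nf
  cont := by
    apply ContinuousOn.div (hG.sub continuousOn_const) continuousOn_id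
    intro s hs h0
    have : (1 : ℝ) ≤ s.re := hs
    rw [id] at h0
    rw [h0] at this
    simp at this
    linarith
  lap := by
    intro s hs
    have hs0 : s ≠ 0 := by
      intro h0; rw [h0] at hs; simp at hs; linarith
    have hs1 : s - 1 ≠ 0 := by
      intro h0
      have : s = 1 := by linear_combination h0
      rw [this] at hs; simp at hs
    obtain ⟨C, hC0, hC⟩ := summ_le_rpow ha (r := (1 + s.re) / 2) (by linarith)
      (hS _ (by linarith))
    have hO : (fun n : ℕ => ∑ k ∈ Finset.Icc 1 n, a k) =O[atTop]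
        fun n : ℕ => (n : ℝ) ^ ((1 + s.re) / 2) := by
      apply Asymptotics.IsBigO.of_bound C
      filter_upwards [eventually_ge_atTop 1] with n hn
      have h1 := hC n (by exact_mod_cast hn)
      unfold summ at h1
      rw [Nat.floor_natCast] at h1
      rw [Real.norm_of_nonneg (Finset.sum_nonneg fun i _ => ha i),
        Real.norm_of_nonneg (by positivity)]
      exact h1
    have h1 := LSeries_eq_mul_integral_of_nonneg a (r := (1 + s.re) / 2) (by linarith)
      (s := s) (by linarith) hO ha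
    have h2 := integral_comp_exp_Ioi
      (fun t : ℝ => (∑ k ∈ Finset.Icc 1 ⌊t⌋₊, (a k : ℂ)) * (t : ℂ) ^ (-(s + 1))) 0
    rw [Real.exp_zero] at h2
    rw [← h2] at h1
    have h3 : ∫ x in Ioi (0 : ℝ), Real.exp x • ((∑ k ∈ Finset.Icc 1 ⌊Real.exp x⌋₊, (a k : ℂ)) *
        ((Real.exp x : ℝ) : ℂ) ^ (-(s + 1)))
        = ∫ u in Ioi (0 : ℝ), ((summ a (Real.exp u) : ℝ) : ℂ) * cexp (-(s * u)) := by
      apply integral_congr_ae
      refine Eventually.of_forall fun u => ?_
      simp only [summ, real_smul]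
      push_cast
      have h4 : (cexp u) ^ (-(s + 1)) = cexp (-(s + 1) * u) := by
        rw [← ofReal_exp, Complex.cpow_def_of_ne_zero (by exact_mod_cast (Real.exp_pos u).ne'),
          ← Complex.ofReal_log (Real.exp_pos u).le, Real.log_exp, mul_comm]
      rw [h4]
      have h5 : cexp (-(s * u)) = cexp u * cexp (-(s + 1) * u) := by
        rw [← Complex.exp_add]; ring_nf
      rw [h5]
      ring
    rw [h3, hE s hs] at h1
    have h6 : ∫ u in Ioi (0 : ℝ), ((summ a (Real.exp u) : ℝ) : ℂ) * cexp (-(s * u))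
        = (G s + A / (s - 1)) / s := by
      rw [h1]; field_simp
    rw [h6]
    field_simp
    ring

/-- **Wiener-Ikehara theorem** for Dirichlet series with nonnegative coefficients. -/
theorem wiener_ikehara (a : ℕ → ℝ) (ha : ∀ n, 0 ≤ a n) (A : ℝ) (G : ℂ → ℂ)
    (hS : ∀ σ : ℝ, 1 < σ → LSeriesSummable (fun n => (a n : ℂ)) σ)
    (hG : ContinuousOn G {s | 1 ≤ s.re})
    (hE : ∀ s : ℂ, 1 < s.re → LSeries (fun n => (a n : ℂ)) s = G s + A / (s - 1)) :
    Tendsto (fun x : ℝ => summ a x / x) atTop (𝓝 A) := by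
  have h := (wiData_of_dirichlet a ha A G hS hG hE).tendsto
  refine (h.comp Real.tendsto_log_atTop).congr' ?_
  filter_upwards [eventually_gt_atTop 0] with x hx
  simp only [Function.comp]
  rw [Real.exp_neg, Real.exp_log hx, div_eq_mul_inv]


end Pool.Agent.Lib.PNT
end

-- from Lib.PNT.PNT
section

/-!
# The prime number theorem, also in arithmetic progressions
-/

open Complex MeasureTheory Filter Topology Set

namespace Pool.Agent.Lib.PNT

/-- Chebyshev's theta function for the primes with property `P`. -/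
noncomputable def thetaP (P : ℕ → Prop) [DecidablePred P] (x : ℝ) : ℝ :=
  ∑ p ∈ Finset.Ioc 0 ⌊x⌋₊ with p.Prime ∧ P p, Real.log p


variable {P : ℕ → Prop} [DecidablePred P]












section AP

variable {q : ℕ} [NeZero q] {a : ZMod q}

open ArithmeticFunction ArithmeticFunction.vonMangoldt

theorem summ_residueClass_tendsto (ha : IsUnit a) :
    Tendsto (fun x : ℝ => summ (residueClass a) x / x) atTop (𝓝 (q.totient : ℝ)⁻¹) := by
  apply wiener_ikehara _ (fun n => residueClass_nonneg a n) _ (LFunctionResidueClassAux a)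
  · intro σ hσ
    apply LSeriesSummable_of_abscissaOfAbsConv_lt_re
    refine (abscissaOfAbsConv_residueClass_le_one a).trans_lt ?_
    rw [ofReal_re]
    exact_mod_cast hσ
  · exact continuousOn_LFunctionResidueClassAux a
  · intro s hs
    have h := eqOn_LFunctionResidueClassAux ha hs
    rw [h]
    push_cast
    ring

theorem summ_residueClass_sub_thetaP (x : ℝ) :
    |summ (residueClass a) x - thetaP (fun p => (p : ZMod q) = a) x|
      ≤ Chebyshev.psi x - Chebyshev.theta x := by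
  have h1 : summ (residueClass a) x - thetaP (fun p => (p : ZMod q) = a) x
      = ∑ n ∈ Finset.Ioc 0 ⌊x⌋₊ with ¬ n.Prime, residueClass a n := by
    unfold summ thetaP
    rw [show Finset.Icc 1 ⌊x⌋₊ = Finset.Ioc 0 ⌊x⌋₊ from rfl,
      ← Finset.sum_filter_add_sum_filter_not (Finset.Ioc 0 ⌊x⌋₊) (fun p => p.Prime)]
    have : ∑ n ∈ Finset.Ioc 0 ⌊x⌋₊ with n.Prime, residueClass a n
        = ∑ p ∈ Finset.filter (fun p : ℕ => p.Prime ∧ (p : ZMod q) = a) (Finset.Ioc 0 ⌊x⌋₊),
          Real.log p := by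
      rw [Finset.sum_filter, Finset.sum_filter]
      apply Finset.sum_congr rfl
      intro p _
      by_cases hp : p.Prime
      · by_cases h2 : (p : ZMod q) = a
        · rw [if_pos hp, if_pos ⟨hp, h2⟩]
          simp only [residueClass]
          rw [Set.indicator_of_mem (by exact h2), vonMangoldt_apply_prime hp]
        · rw [if_pos hp, if_neg (fun h => h2 h.2)]
          simp only [residueClass]
          rw [Set.indicator_of_notMem (by exact h2)]
      · rw [if_neg hp, if_neg (fun h => hp h.1)]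
    rw [this]
    ring
  rw [h1, Chebyshev.psi_sub_theta_eq_sum_not_prime, abs_of_nonneg
    (Finset.sum_nonneg fun n _ => residueClass_nonneg a n)]
  exact Finset.sum_le_sum fun n _ => residueClass_le a n

theorem psi_sub_theta_div_tendsto :
    Tendsto (fun x : ℝ => (Chebyshev.psi x - Chebyshev.theta x) / x) atTop (𝓝 0) := by
  obtain ⟨C, hC⟩ := Chebyshev.psi_sub_theta_le_mul_sqrt
  have h1 : Tendsto (fun x : ℝ => C * (x ^ (1 / 2 : ℝ))⁻¹) atTop (𝓝 (C * 0)) :=
    ((tendsto_rpow_atTop (by norm_num)).inv_tendsto_atTop).const_mul C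
  rw [mul_zero] at h1
  refine squeeze_zero' ?_ ?_ h1
  · filter_upwards [eventually_gt_atTop 0] with x hx
    have := Chebyshev.theta_le_psi x
    exact div_nonneg (by linarith) hx.le
  · filter_upwards [eventually_gt_atTop 0] with x hx
    rw [← Real.sqrt_eq_rpow, div_le_iff₀ hx]
    refine (hC x).trans (le_of_eq ?_)
    have h2 : √x ≠ 0 := (Real.sqrt_pos.mpr hx).ne'
    have h3 : √x * √x = x := Real.mul_self_sqrt hx.le
    field_simp
    linear_combination C * h3

/-- **Prime number theorem in arithmetic progressions**, theta form. -/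
theorem thetaAP_tendsto (ha : IsUnit a) :
    Tendsto (fun x : ℝ => thetaP (fun p => (p : ZMod q) = a) x / x) atTop
      (𝓝 (q.totient : ℝ)⁻¹) := by
  have h1 := summ_residueClass_tendsto ha
  have h2 : Tendsto (fun x : ℝ => (summ (residueClass a) x
      - thetaP (fun p => (p : ZMod q) = a) x) / x) atTop (𝓝 0) := by
    rw [tendsto_zero_iff_abs_tendsto_zero]
    refine squeeze_zero' (Eventually.of_forall fun x => abs_nonneg _) ?_ psi_sub_theta_div_tendsto
    filter_upwards [eventually_gt_atTop 0] with x hx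
    simp only [Function.comp]
    rw [abs_div, abs_of_pos hx]
    exact div_le_div_of_nonneg_right (summ_residueClass_sub_thetaP x) hx.le
  have h3 := h1.sub h2
  rw [sub_zero] at h3
  refine h3.congr fun x => ?_
  ring



end AP

/-- **Prime number theorem**, theta form. -/
theorem theta_tendsto : Tendsto (fun x : ℝ => Chebyshev.theta x / x) atTop (𝓝 1) := by
  have h := thetaAP_tendsto (q := 1) (a := 0) (by rw [isUnit_iff_eq_one]; rfl)
  simp only [Nat.totient_one, Nat.cast_one, inv_one] at h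
  refine h.congr fun x => ?_
  congr 1
  unfold thetaP Chebyshev.theta
  apply Finset.sum_congr _ fun _ _ => rfl
  ext p
  rw [Finset.mem_filter, Finset.mem_filter]
  constructor
  · rintro ⟨h1, h2, _⟩; exact ⟨h1, h2⟩
  · rintro ⟨h1, h2⟩; exact ⟨h1, h2, Subsingleton.elim _ _⟩









end Pool.Agent.Lib.PNT
end
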