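import Mathlib

/-! Merged copies (to shorten the build) of Lib.H18Q.PB1, Lib.H18Q.Z7, Lib.H18Q.S4, Lib.H18Q.T1, Lib.H18Q.T2, Lib.H18Q.T3, Lib.Sieve.Combi, Lib.Sieve.BrunHooley, Lib.Sieve.CRT, Lib.Sieve.PrimeSum, Lib.Sieve.Fundamental, Lib.Sieve.Averages, Lib.Helper57.Mertens. -/

-- from Lib.H18Q.PB1
section

/-!
# Project H18Q, chunk PB1: decay of a Fourier transform, three derivatives
-/

open Finset MeasureTheory

namespace Pool.Agent.Lib.H18Q

theorem PB1_int (h : ℝ → ℝ) (a b : ℝ) (hc : Continuous h) (z : ∀ y, y ∉ Set.Icc a b → h y = 0) (ξ : ℝ) :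
    Integrable (fun y : ℝ => (h y : ℂ) * Complex.exp (-(ξ * y * Complex.I))) := by
  have hcont : Continuous (fun y : ℝ => (h y : ℂ) * Complex.exp (-(ξ * y * Complex.I))) := by
    fun_prop
  refine hcont.integrable_of_hasCompactSupport ?_
  refine HasCompactSupport.intro (K := Set.Icc a b) isCompact_Icc ?_
  intro y hy
  simp only [z y hy, Complex.ofReal_zero, zero_mul]

theorem PB1_norm (ξ y : ℝ) : ‖Complex.exp (-(ξ * y * Complex.I))‖ = 1 := by
  have e : -((ξ : ℂ) * y * Complex.I) = ((-(ξ * y) : ℝ) : ℂ) * Complex.I := by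
    push_cast
    ring
  rw [e, Complex.norm_exp_ofReal_mul_I]

theorem PB1_bd (h : ℝ → ℝ) (a b M : ℝ) (hab : a ≤ b) (z : ∀ y, y ∉ Set.Icc a b → h y = 0)
    (hb : ∀ y, |h y| ≤ M) (ξ : ℝ) :
    ‖∫ y : ℝ, (h y : ℂ) * Complex.exp (-(ξ * y * Complex.I))‖ ≤ (b - a) * M := by
  rw [← setIntegral_eq_integral_of_forall_compl_eq_zero (s := Set.Icc a b) (fun y hy => by
    simp only [z y hy, Complex.ofReal_zero, zero_mul])]
  have h1 := norm_setIntegral_le_of_norm_le_const (μ := volume) (s := Set.Icc a b) (C := M)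
    (f := fun y : ℝ => (h y : ℂ) * Complex.exp (-(ξ * y * Complex.I)))
    (by rw [Real.volume_Icc]; exact ENNReal.ofReal_lt_top)
    (fun y _ => by
      rw [norm_mul, PB1_norm, mul_one, Complex.norm_real, Real.norm_eq_abs]
      exact hb y)
  refine h1.trans (le_of_eq ?_)
  rw [Real.volume_real_Icc_of_le hab, mul_comm]

theorem PB1_step (h h' : ℝ → ℝ) (a b : ℝ) (hd : ∀ y, HasDerivAt h (h' y) y) (hc : Continuous h')
    (z : ∀ y, y ∉ Set.Icc a b → h y = 0) (z' : ∀ y, y ∉ Set.Icc a b → h' y = 0) (ξ : ℝ) :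
    ((ξ : ℂ) * Complex.I) * ∫ y : ℝ, (h y : ℂ) * Complex.exp (-(ξ * y * Complex.I)) =
      ∫ y : ℝ, (h' y : ℂ) * Complex.exp (-(ξ * y * Complex.I)) := by
  have hcont : Continuous h := continuous_iff_continuousAt.2 fun y => (hd y).continuousAt
  have i1 := PB1_int h a b hcont z ξ
  have i2 := PB1_int h' a b hc z' ξ
  have hv : ∀ y : ℝ, HasDerivAt (fun y : ℝ => Complex.exp (-(ξ * y * Complex.I)))
      (-((ξ : ℂ) * Complex.I) * Complex.exp (-(ξ * y * Complex.I))) y := by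
    intro y
    have e1 : HasDerivAt (fun y : ℝ => -((ξ : ℂ) * y * Complex.I)) (-((ξ : ℂ) * 1 * Complex.I)) y := by
      exact (((Complex.ofRealCLM.hasDerivAt (x := y)).const_mul (ξ : ℂ)).mul_const Complex.I).neg
    have e2 := e1.cexp
    refine e2.congr_deriv ?_
    ring
  have key := integral_mul_deriv_eq_deriv_mul_of_integrable (A := ℂ)
    (u := fun y : ℝ => (h y : ℂ)) (u' := fun y : ℝ => (h' y : ℂ))
    (v := fun y : ℝ => Complex.exp (-(ξ * y * Complex.I)))
    (v' := fun y : ℝ => -((ξ : ℂ) * Complex.I) * Complex.exp (-(ξ * y * Complex.I)))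
    (fun y _ => (hd y).ofReal_comp) (fun y _ => hv y)
    (by
      refine (i1.const_mul (-((ξ : ℂ) * Complex.I))).congr (Filter.Eventually.of_forall fun y => ?_)
      simp only [Pi.mul_apply]
      ring) i2 i1
  have e3 : (∫ y : ℝ, (h y : ℂ) * (-((ξ : ℂ) * Complex.I) * Complex.exp (-(ξ * y * Complex.I)))) =
      -((ξ : ℂ) * Complex.I) * ∫ y : ℝ, (h y : ℂ) * Complex.exp (-(ξ * y * Complex.I)) := by
    rw [← integral_const_mul]
    refine integral_congr_ae (Filter.Eventually.of_forall fun y => ?_)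
    simp only
    ring
  rw [e3] at key
  linear_combination -key

theorem PB1_real {X t B : ℝ} (hX : 0 ≤ X) (ht : 0 ≤ t) (h1 : X ≤ B) (h2 : t ^ 3 * X ≤ B) :
    X * (1 + t) ^ 3 ≤ 8 * B := by
  have h3 : (1 + t) ^ 3 ≤ 4 * (1 + t ^ 3) := by
    nlinarith [mul_nonneg (sq_nonneg (1 - t)) (by linarith : (0 : ℝ) ≤ 1 + t)]
  have h4 : X * (1 + t) ^ 3 ≤ X * (4 * (1 + t ^ 3)) := mul_le_mul_of_nonneg_left h3 hX
  nlinarith

/-- Decay of order three. Proof: `|∫| ≤ (b-a) M` trivially, and integrating by parts three times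
(compact support) `|ξ|³ |∫ f e^(-iξy)| = |∫ f3 e^(-iξy)| ≤ (b - a) M`; so the integral is at most
`(b-a) M min(1, |ξ|^(-3)) ≤ 8 (b-a) M/(1+|ξ|)³`. -/
theorem fourier_decay3 (f f1 f2 f3 : ℝ → ℝ) (a b M : ℝ) (hab : a ≤ b) (hM : 0 ≤ M)
    (h0 : ∀ y, HasDerivAt f (f1 y) y) (h1 : ∀ y, HasDerivAt f1 (f2 y) y)
    (h2 : ∀ y, HasDerivAt f2 (f3 y) y) (hc : Continuous f3)
    (z0 : ∀ y, y ∉ Set.Icc a b → f y = 0) (z1 : ∀ y, y ∉ Set.Icc a b → f1 y = 0)
    (z2 : ∀ y, y ∉ Set.Icc a b → f2 y = 0) (z3 : ∀ y, y ∉ Set.Icc a b → f3 y = 0)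
    (b0 : ∀ y, |f y| ≤ M) (b3 : ∀ y, |f3 y| ≤ M) (ξ : ℝ) :
    ‖∫ y : ℝ, (f y : ℂ) * Complex.exp (-(ξ * y * Complex.I))‖ ≤
      8 * (b - a) * M / (1 + |ξ|) ^ 3 := by
  have c2 : Continuous f2 := continuous_iff_continuousAt.2 fun y => (h2 y).continuousAt
  have c1 : Continuous f1 := continuous_iff_continuousAt.2 fun y => (h1 y).continuousAt
  have s0 := PB1_step f f1 a b h0 c1 z0 z1 ξ
  have s1 := PB1_step f1 f2 a b h1 c2 z1 z2 ξ
  have s2 := PB1_step f2 f3 a b h2 hc z2 z3 ξ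
  have B0 := PB1_bd f a b M hab z0 b0 ξ
  have B3 := PB1_bd f3 a b M hab z3 b3 ξ
  have e : ‖(ξ : ℂ)‖ = |ξ| := by
    rw [Complex.norm_real, Real.norm_eq_abs]
  rw [← s2, ← s1, ← s0] at B3
  simp only [norm_mul, Complex.norm_I, mul_one, e] at B3
  have hpos : 0 < (1 + |ξ|) ^ 3 := by positivity
  rw [le_div_iff₀ hpos]
  have := PB1_real (norm_nonneg _) (abs_nonneg ξ) B0 (by
    calc _ = _ := ?_
      _ ≤ _ := B3
    ring)
  linarith

/-- Fourier inversion in the form used. Proof: the integral of `PB1` is Mathlib's Fourier transform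
at `ξ/(2π)`; it is integrable by `fourier_decay3` (continuity of the Fourier transform of an
integrable function), so `MeasureTheory`'s inversion theorem
(`Continuous.fourierInv_fourier_eq` or its present name) applies; substitute `ξ = 2π x`. -/
theorem fourier_inv3 (f f1 f2 f3 : ℝ → ℝ) (a b M : ℝ) (hab : a ≤ b) (hM : 0 ≤ M)
    (h0 : ∀ y, HasDerivAt f (f1 y) y) (h1 : ∀ y, HasDerivAt f1 (f2 y) y)
    (h2 : ∀ y, HasDerivAt f2 (f3 y) y) (hc : Continuous f3)
    (z0 : ∀ y, y ∉ Set.Icc a b → f y = 0) (z1 : ∀ y, y ∉ Set.Icc a b → f1 y = 0)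
    (z2 : ∀ y, y ∉ Set.Icc a b → f2 y = 0) (z3 : ∀ y, y ∉ Set.Icc a b → f3 y = 0)
    (b0 : ∀ y, |f y| ≤ M) (b3 : ∀ y, |f3 y| ≤ M) :
    ∃ g : ℝ → ℂ, Continuous g ∧ (∀ ξ, ‖g ξ‖ ≤ 2 * (b - a) * M / (1 + |ξ|) ^ 3) ∧
      ∀ u : ℝ, (f u : ℂ) = ∫ ξ : ℝ, g ξ * Complex.exp (u * ξ * Complex.I) := by
  have hcont : Continuous f := continuous_iff_continuousAt.2 fun y => (h0 y).continuousAt
  have hdec := fourier_decay3 f f1 f2 f3 a b M hab hM h0 h1 h2 hc z0 z1 z2 z3 b0 b3
  obtain ⟨G, hG⟩ : ∃ G : ℝ → ℂ, ∀ ξ, G ξ = ∫ y : ℝ, (f y : ℂ) * Complex.exp (-(ξ * y * Complex.I)) :=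
    ⟨_, fun _ => rfl⟩
  have hGc : Continuous G := by
    have e : G = fun ξ : ℝ => ∫ y : ℝ, (f y : ℂ) * Complex.exp (-(ξ * y * Complex.I)) := funext hG
    rw [e]
    refine continuous_of_dominated (bound := fun y => ‖(f y : ℂ)‖) ?_ ?_ ?_ ?_
    · intro ξ
      exact (PB1_int f a b hcont z0 ξ).aestronglyMeasurable
    · intro ξ
      refine Filter.Eventually.of_forall fun y => ?_
      rw [norm_mul, PB1_norm, mul_one]
    · have := (PB1_int f a b hcont z0 0).norm
      refine this.congr (Filter.Eventually.of_forall fun y => ?_)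
      simp only [norm_mul, PB1_norm, mul_one]
    · refine Filter.Eventually.of_forall fun y => ?_
      fun_prop
  have hGb : ∀ ξ, ‖G ξ‖ ≤ 8 * (b - a) * M / (1 + |ξ|) ^ 3 := fun ξ => by
    rw [hG]
    exact hdec ξ
  have hba : 0 ≤ (b - a) * M := mul_nonneg (by linarith) hM
  obtain ⟨fc, hfc⟩ : ∃ fc : ℝ → ℂ, ∀ y, fc y = (f y : ℂ) := ⟨_, fun _ => rfl⟩
  have hfc' : fc = fun y => (f y : ℂ) := funext hfc
  have hF : ∀ x : ℝ, FourierTransform.fourier fc x = G (2 * Real.pi * x) := by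
    intro x
    rw [Real.fourier_real_eq_integral_exp_smul, hG]
    refine integral_congr_ae (Filter.Eventually.of_forall fun y => ?_)
    simp only [hfc, smul_eq_mul]
    rw [mul_comm]
    congr 2
    push_cast
    ring
  have hfint : Integrable fc := by
    have := PB1_int f a b hcont z0 0
    refine this.congr (Filter.Eventually.of_forall fun y => ?_)
    simp only [hfc, Complex.ofReal_zero, zero_mul, neg_zero, Complex.exp_zero, mul_one]
  have hFfun : FourierTransform.fourier fc = fun x : ℝ => G (2 * Real.pi * x) := funext hF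
  have hFint : Integrable (FourierTransform.fourier fc) := by
    rw [hFfun]
    have h3 := (integrable_inv_one_add_sq).const_mul (8 * (b - a) * M)
    refine h3.mono' (hGc.comp (continuous_const.mul continuous_id)).aestronglyMeasurable ?_
    refine Filter.Eventually.of_forall fun x => ?_
    refine (hGb _).trans ?_
    rw [div_eq_mul_inv]
    refine mul_le_mul_of_nonneg_left ?_ (by nlinarith)
    refine inv_anti₀ (by positivity) ?_
    have hpi : 1 ≤ 2 * Real.pi := by nlinarith [Real.pi_gt_three]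
    have h4 : |x| ≤ |2 * Real.pi * x| := by
      rw [abs_mul, abs_of_nonneg (by linarith : (0 : ℝ) ≤ 2 * Real.pi)]
      nlinarith [abs_nonneg x]
    have h5 : (1 + |x|) ^ 3 ≤ (1 + |2 * Real.pi * x|) ^ 3 := by
      gcongr
    have h6 : 1 + x ^ 2 ≤ (1 + |x|) ^ 3 := by
      have h7 := abs_nonneg x
      have h8 : x ^ 2 = |x| ^ 2 := (sq_abs x).symm
      rw [h8]
      nlinarith [mul_nonneg h7 h7, mul_nonneg h7 (mul_nonneg h7 h7)]
    exact h6.trans h5
  have hinv := Continuous.fourierInv_fourier_eq (f := fc) (by rw [hfc']; fun_prop) hfint hFint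
  refine ⟨fun ξ => ((1 / (2 * Real.pi) : ℝ) : ℂ) * G ξ, by fun_prop, ?_, ?_⟩
  · intro ξ
    rw [norm_mul, Complex.norm_real, Real.norm_eq_abs, abs_of_nonneg (by positivity)]
    have h3 := hGb ξ
    have hpos : 0 < (1 + |ξ|) ^ 3 := by positivity
    have h4 : 1 / (2 * Real.pi) ≤ 1 / 4 := by
      apply one_div_le_one_div_of_le (by norm_num)
      nlinarith [Real.pi_gt_three]
    calc 1 / (2 * Real.pi) * ‖G ξ‖ ≤ 1 / 4 * (8 * (b - a) * M / (1 + |ξ|) ^ 3) :=
          mul_le_mul h4 h3 (norm_nonneg _) (by norm_num)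
      _ = 2 * (b - a) * M / (1 + |ξ|) ^ 3 := by ring
  · intro u
    have h3 := congrFun hinv u
    rw [Real.fourierInv_eq', hfc] at h3
    rw [← h3]
    obtain ⟨Q, hQ⟩ : ∃ Q : ℝ → ℂ, ∀ x, Q x = G x * Complex.exp (u * x * Complex.I) := ⟨_, fun _ => rfl⟩
    have e1 : (∫ ξ : ℝ, ((1 / (2 * Real.pi) : ℝ) : ℂ) * G ξ * Complex.exp (u * ξ * Complex.I)) =
        ((1 / (2 * Real.pi) : ℝ) : ℂ) * ∫ ξ : ℝ, Q ξ := by
      rw [← integral_const_mul]
      refine integral_congr_ae (Filter.Eventually.of_forall fun y => ?_)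
      simp only [hQ]
      ring
    have e2 := Measure.integral_comp_mul_left Q (2 * Real.pi)
    rw [e1]
    have e3 : (∫ x : ℝ, Q (2 * Real.pi * x)) = ∫ v : ℝ, Complex.exp (↑(2 * Real.pi * inner ℝ v u) * Complex.I) •
        FourierTransform.fourier fc v := by
      refine integral_congr_ae (Filter.Eventually.of_forall fun x => ?_)
      simp only [hQ, hF, smul_eq_mul]
      rw [mul_comm]
      congr 2
      simp only [RCLike.inner_apply, conj_trivial]
      push_cast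
      ring
    rw [← e3, e2, abs_of_pos (by positivity), Complex.real_smul]
    simp only [one_div]

end Pool.Agent.Lib.H18Q
end

-- from Lib.H18Q.Z7
section

/-!
# Project H18Q, chunk Z7: counting points by measure
-/

open Finset

namespace Pool.Agent.Lib.H18Q

/-- Let `γ i`, `i ∈ S`, be reals with weights `m i ≥ 0`, `lam > 0`, all `[γ i - lam, γ i + lam]`
contained in `[a, b]`; suppose the points within `lam` of any `v` have total weight at most `B`,
and `g ≥ 0` is continuous with `g v ≥ 1` whenever some `γ i` is within `lam` of `v ∈ [a, b]`. Then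
`∑ m i ≤ B/(2 lam) ∫_a^b g`.

Proof: `2 lam m i = ∫_a^b m i 1[|γ i - v| ≤ lam] dv`; sum over `i`; the integrand
`∑_i m i 1[|γ i - v| ≤ lam]` is at most `B` and is `0` if no `γ i` is within `lam` of `v`, so it is at
most `B g(v)`. -/
theorem count_by_measure {ι : Type*} (S : Finset ι) (γ m : ι → ℝ) (lam a b B : ℝ) (g : ℝ → ℝ)
    (hlam : 0 < lam) (hm : ∀ i ∈ S, 0 ≤ m i) (hB : 0 ≤ B)
    (ha : ∀ i ∈ S, a ≤ γ i - lam) (hb : ∀ i ∈ S, γ i + lam ≤ b) (hab : a ≤ b)
    (hloc : ∀ v ∈ Set.Icc a b, ∑ i ∈ S with |γ i - v| ≤ lam, m i ≤ B)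
    (hg : Continuous g) (hg0 : ∀ v, 0 ≤ g v)
    (hg1 : ∀ v ∈ Set.Icc a b, (∃ i ∈ S, |γ i - v| ≤ lam) → 1 ≤ g v) :
    ∑ i ∈ S, m i ≤ B / (2 * lam) * ∫ v in a..b, g v := by
  classical
  have hind : ∀ i v, (if |γ i - v| ≤ lam then m i else 0) =
      (Set.Icc (γ i - lam) (γ i + lam)).indicator (fun _ => m i) v := by
    intro i v
    rw [Set.indicator_apply]
    have h1 : |γ i - v| ≤ lam ↔ v ∈ Set.Icc (γ i - lam) (γ i + lam) := by
      rw [abs_le, Set.mem_Icc]
      constructor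
      · rintro ⟨h1, h2⟩
        constructor <;> linarith
      · rintro ⟨h1, h2⟩
        constructor <;> linarith
    by_cases h : |γ i - v| ≤ lam
    · rw [if_pos h, if_pos (h1.1 h)]
    · rw [if_neg h, if_neg fun h2 => h (h1.2 h2)]
  have hint : ∀ i, MeasureTheory.Integrable (fun v : ℝ => if |γ i - v| ≤ lam then m i else 0) := by
    intro i
    simp only [hind]
    rw [MeasureTheory.integrable_indicator_iff measurableSet_Icc]
    exact MeasureTheory.integrableOn_const (by rw [Real.volume_Icc]; exact ENNReal.ofReal_ne_top)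
  have hval : ∀ i ∈ S, ∫ v in a..b, (if |γ i - v| ≤ lam then m i else 0) = 2 * lam * m i := by
    intro i hi
    rw [intervalIntegral.integral_of_le hab, ← MeasureTheory.integral_Icc_eq_integral_Ioc]
    simp only [hind]
    rw [MeasureTheory.setIntegral_indicator measurableSet_Icc]
    have h1 : Set.Icc a b ∩ Set.Icc (γ i - lam) (γ i + lam) = Set.Icc (γ i - lam) (γ i + lam) :=
      Set.inter_eq_right.2 (Set.Icc_subset_Icc (ha i hi) (hb i hi))
    rw [h1, MeasureTheory.setIntegral_const, MeasureTheory.measureReal_def, Real.volume_Icc,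
      ENNReal.toReal_ofReal (by linarith), smul_eq_mul]
    ring
  have hsum : ∑ i ∈ S, 2 * lam * m i = ∫ v in a..b, ∑ i ∈ S, (if |γ i - v| ≤ lam then m i else 0) := by
    rw [intervalIntegral.integral_finsetSum fun i _ => (hint i).intervalIntegrable]
    exact sum_congr rfl fun i hi => (hval i hi).symm
  have hle : ∫ v in a..b, ∑ i ∈ S, (if |γ i - v| ≤ lam then m i else 0) ≤ ∫ v in a..b, B * g v := by
    refine intervalIntegral.integral_mono_on hab ?_ ?_ fun v hv => ?_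
    · exact (MeasureTheory.integrable_finsetSum _ fun i _ => hint i).intervalIntegrable
    · exact (continuous_const.mul hg).intervalIntegrable _ _
    · by_cases h : ∃ i ∈ S, |γ i - v| ≤ lam
      · have h1 := hloc v hv
        rw [sum_filter] at h1
        exact h1.trans (le_mul_of_one_le_right hB (hg1 v hv h))
      · rw [sum_eq_zero]
        · exact mul_nonneg hB (hg0 v)
        · intro i hi
          exact if_neg fun h2 => h ⟨i, hi, h2⟩
  rw [intervalIntegral.integral_const_mul, ← hsum, ← mul_sum] at hle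
  rw [div_mul_eq_mul_div, le_div_iff₀ (by positivity)]
  linarith

end Pool.Agent.Lib.H18Q
end

-- from Lib.H18Q.S4
section

/-!
# Project H18Q, chunk S4: the Gaussian identity for Dirichlet polynomials
-/

open Finset

namespace Pool.Agent.Lib.H18Q

theorem S4_sq {ι : Type*} (s : Finset ι) (f : ι → ℂ) :
    ((‖∑ i ∈ s, f i‖ ^ 2 : ℝ) : ℂ) = ∑ i ∈ s, ∑ j ∈ s, f i * (starRingEnd ℂ) (f j) := by
  rw [← Complex.normSq_eq_norm_sq, ← Complex.mul_conj, map_sum, sum_mul_sum]

/-- The terms of the left side. -/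
theorem S4_left {ι : Type*} (s : Finset ι) (a : ι → ℝ) (b : ι → ℂ) (T : ℝ) (v : ℝ) :
    ((Real.exp (-(v ^ 2 / T ^ 2)) * ‖∑ i ∈ s, b i * Complex.exp (-(v * a i * Complex.I))‖ ^ 2 : ℝ) : ℂ) =
      ∑ i ∈ s, ∑ j ∈ s, b i * (starRingEnd ℂ) (b j) *
        Complex.exp (-(1 / (T : ℂ) ^ 2) * (v : ℂ) ^ 2 + (-(((a i - a j : ℝ)) : ℂ) * Complex.I) * v + 0) := by
  rw [Complex.ofReal_mul, S4_sq, mul_sum]
  refine sum_congr rfl fun i _ => ?_
  rw [mul_sum]
  refine sum_congr rfl fun j _ => ?_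
  have h1 : (starRingEnd ℂ) (b j * Complex.exp (-(v * a j * Complex.I))) =
      (starRingEnd ℂ) (b j) * Complex.exp (v * a j * Complex.I) := by
    rw [map_mul, ← Complex.exp_conj]
    congr 2
    simp
  rw [h1, Complex.ofReal_exp]
  have h2 : Complex.exp (-(1 / (T : ℂ) ^ 2) * (v : ℂ) ^ 2 + (-(((a i - a j : ℝ)) : ℂ) * Complex.I) * v + 0) =
      Complex.exp (((-(v ^ 2 / T ^ 2) : ℝ)) : ℂ) * Complex.exp (-(v * a i * Complex.I)) * Complex.exp (v * a j * Complex.I) := by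
    rw [← Complex.exp_add, ← Complex.exp_add]
    congr 1
    push_cast
    ring
  rw [h2]
  ring

/-- The terms of the right side. -/
theorem S4_right {ι : Type*} (s : Finset ι) (a : ι → ℝ) (b : ι → ℂ) (T : ℝ) (y : ℝ) :
    ((‖∑ i ∈ s, b i * Real.exp (-(T ^ 2 * (y - a i) ^ 2 / 2))‖ ^ 2 : ℝ) : ℂ) =
      ∑ i ∈ s, ∑ j ∈ s, b i * (starRingEnd ℂ) (b j) *
        Complex.exp (-(T : ℂ) ^ 2 * (y : ℂ) ^ 2 + ((T : ℂ) ^ 2 * (a i + a j)) * y +
          -((T : ℂ) ^ 2 * ((a i : ℂ) ^ 2 + (a j : ℂ) ^ 2) / 2)) := by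
  rw [S4_sq]
  refine sum_congr rfl fun i _ => sum_congr rfl fun j _ => ?_
  have h1 : (starRingEnd ℂ) (b j * Real.exp (-(T ^ 2 * (y - a j) ^ 2 / 2))) =
      (starRingEnd ℂ) (b j) * Real.exp (-(T ^ 2 * (y - a j) ^ 2 / 2)) := by
    rw [map_mul, Complex.conj_ofReal]
  rw [h1, Complex.ofReal_exp, Complex.ofReal_exp]
  have h2 : Complex.exp (-(T : ℂ) ^ 2 * (y : ℂ) ^ 2 + ((T : ℂ) ^ 2 * (a i + a j)) * y +
          -((T : ℂ) ^ 2 * ((a i : ℂ) ^ 2 + (a j : ℂ) ^ 2) / 2)) =
      Complex.exp (((-(T ^ 2 * (y - a i) ^ 2 / 2) : ℝ)) : ℂ) * Complex.exp (((-(T ^ 2 * (y - a j) ^ 2 / 2) : ℝ)) : ℂ) := by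
    rw [← Complex.exp_add]
    congr 1
    push_cast
    ring
  rw [h2]
  ring

theorem S4_b1 {T : ℝ} (hT : 0 < T) : (-(1 / (T : ℂ) ^ 2)).re < 0 := by
  have h : -(1 / (T : ℂ) ^ 2) = ((-(1 / T ^ 2) : ℝ) : ℂ) := by push_cast; rfl
  rw [h, Complex.ofReal_re, neg_lt_zero]
  positivity

theorem S4_b2 {T : ℝ} (hT : 0 < T) : (-(T : ℂ) ^ 2).re < 0 := by
  have h : -(T : ℂ) ^ 2 = ((-(T ^ 2) : ℝ) : ℂ) := by push_cast; rfl
  rw [h, Complex.ofReal_re, neg_lt_zero]
  positivity

/-- The constants. -/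
theorem S4_const {T : ℝ} (hT : 0 < T) :
    ((Real.pi : ℂ) / -(-(1 / (T : ℂ) ^ 2))) ^ (1 / 2 : ℂ) = (T : ℂ) ^ 2 * ((Real.pi : ℂ) / -(-(T : ℂ) ^ 2)) ^ (1 / 2 : ℂ) := by
  have hT' : (T : ℂ) ≠ 0 := Complex.ofReal_ne_zero.2 hT.ne'
  have e1 : ((Real.pi : ℂ) / -(-(1 / (T : ℂ) ^ 2))) = ((Real.pi * T ^ 2 : ℝ) : ℂ) := by
    push_cast
    field_simp
  have e2 : ((Real.pi : ℂ) / -(-(T : ℂ) ^ 2)) = ((Real.pi / T ^ 2 : ℝ) : ℂ) := by
    push_cast
    rw [neg_neg]
  have e3 : (1 / 2 : ℂ) = ((1 / 2 : ℝ) : ℂ) := by push_cast; rfl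
  rw [e1, e2, e3, ← Complex.ofReal_cpow (by positivity), ← Complex.ofReal_cpow (by positivity), ← Complex.ofReal_pow,
    ← Complex.ofReal_mul]
  congr 1
  rw [← Real.sqrt_eq_rpow, ← Real.sqrt_eq_rpow, Real.sqrt_mul Real.pi_pos.le, Real.sqrt_div Real.pi_pos.le,
    Real.sqrt_sq hT.le]
  field_simp

/-- `∫ e^(-v²/T²) |∑ b_i e^(-i v a_i)|² dv = T² ∫ |∑ b_i e^(-T² (y - a_i)²/2)|² dy`.

Proof. Expand both sides as double sums over `i, j`. Left: `b_i conj b_j ∫ e^(-v²/T²)
e^(-i v (a_i - a_j)) dv = b_i conj b_j √π T e^(-T² (a_i - a_j)²/4)` (Gaussian integral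
`integral_cexp_quadratic` or `fourierIntegral_gaussian`). Right: `T² b_i conj b_j
∫ e^(-T² (y-a_i)²/2 - T² (y-a_j)²/2) dy`, and `(y-a)²/2 + (y-b)²/2 = (y - (a+b)/2)² + (a-b)²/4`, so
it is `T² b_i conj b_j e^(-T² (a_i-a_j)²/4) √π/T`. -/
theorem gauss_identity {ι : Type*} (s : Finset ι) (a : ι → ℝ) (b : ι → ℂ) (T : ℝ) (hT : 0 < T) :
    ∫ v : ℝ, Real.exp (-(v ^ 2 / T ^ 2)) * ‖∑ i ∈ s, b i * Complex.exp (-(v * a i * Complex.I))‖ ^ 2
      = T ^ 2 * ∫ y : ℝ, ‖∑ i ∈ s, b i * Real.exp (-(T ^ 2 * (y - a i) ^ 2 / 2))‖ ^ 2 := by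
  have hT' : (T : ℂ) ≠ 0 := Complex.ofReal_ne_zero.2 hT.ne'
  apply Complex.ofReal_injective
  rw [Complex.ofReal_mul, ← integral_complex_ofReal, ← integral_complex_ofReal]
  simp only [S4_left s a b T, S4_right s a b T]
  have i1 : ∀ i j, MeasureTheory.Integrable (fun v : ℝ => b i * (starRingEnd ℂ) (b j) *
        Complex.exp (-(1 / (T : ℂ) ^ 2) * (v : ℂ) ^ 2 + (-(((a i - a j : ℝ)) : ℂ) * Complex.I) * v + 0)) :=
    fun i j => (integrable_cexp_quadratic' (S4_b1 hT) _ _).const_mul _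
  have i2 : ∀ i j, MeasureTheory.Integrable (fun y : ℝ => b i * (starRingEnd ℂ) (b j) *
        Complex.exp (-(T : ℂ) ^ 2 * (y : ℂ) ^ 2 + ((T : ℂ) ^ 2 * (a i + a j)) * y +
          -((T : ℂ) ^ 2 * ((a i : ℂ) ^ 2 + (a j : ℂ) ^ 2) / 2))) :=
    fun i j => (integrable_cexp_quadratic' (S4_b2 hT) _ _).const_mul _
  rw [MeasureTheory.integral_finsetSum _ fun i _ => MeasureTheory.integrable_finsetSum _ fun j _ => i1 i j,
    MeasureTheory.integral_finsetSum _ fun i _ => MeasureTheory.integrable_finsetSum _ fun j _ => i2 i j, mul_sum]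
  refine sum_congr rfl fun i _ => ?_
  rw [MeasureTheory.integral_finsetSum _ fun j _ => i1 i j, MeasureTheory.integral_finsetSum _ fun j _ => i2 i j, mul_sum]
  refine sum_congr rfl fun j _ => ?_
  rw [MeasureTheory.integral_const_mul, MeasureTheory.integral_const_mul, integral_cexp_quadratic (S4_b1 hT),
    integral_cexp_quadratic (S4_b2 hT), S4_const hT]
  have e : (0 : ℂ) - (-(((a i - a j : ℝ)) : ℂ) * Complex.I) ^ 2 / (4 * -(1 / (T : ℂ) ^ 2)) =
      -((T : ℂ) ^ 2 * ((a i : ℂ) ^ 2 + (a j : ℂ) ^ 2) / 2) - ((T : ℂ) ^ 2 * (a i + a j)) ^ 2 / (4 * -(T : ℂ) ^ 2) := by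
    push_cast
    rw [neg_mul, neg_sq, mul_pow, Complex.I_sq]
    field_simp
    ring
  rw [e, Complex.ofReal_pow]
  ring

/-- Both integrands are integrable (continuous, dominated by Gaussians; the sum in the second
integrand is bounded and each term is a Gaussian). -/
theorem gauss_integrable {ι : Type*} (s : Finset ι) (a : ι → ℝ) (b : ι → ℂ) (T : ℝ)
    (hT : 0 < T) :
    MeasureTheory.Integrable (fun v : ℝ => Real.exp (-(v ^ 2 / T ^ 2)) *
      ‖∑ i ∈ s, b i * Complex.exp (-(v * a i * Complex.I))‖ ^ 2) ∧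
    MeasureTheory.Integrable (fun y : ℝ =>
      ‖∑ i ∈ s, b i * Real.exp (-(T ^ 2 * (y - a i) ^ 2 / 2))‖ ^ 2) := by
  have i1 : ∀ i j, MeasureTheory.Integrable (fun v : ℝ => b i * (starRingEnd ℂ) (b j) *
        Complex.exp (-(1 / (T : ℂ) ^ 2) * (v : ℂ) ^ 2 + (-(((a i - a j : ℝ)) : ℂ) * Complex.I) * v + 0)) :=
    fun i j => (integrable_cexp_quadratic' (S4_b1 hT) _ _).const_mul _
  have i2 : ∀ i j, MeasureTheory.Integrable (fun y : ℝ => b i * (starRingEnd ℂ) (b j) *
        Complex.exp (-(T : ℂ) ^ 2 * (y : ℂ) ^ 2 + ((T : ℂ) ^ 2 * (a i + a j)) * y +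
          -((T : ℂ) ^ 2 * ((a i : ℂ) ^ 2 + (a j : ℂ) ^ 2) / 2))) :=
    fun i j => (integrable_cexp_quadratic' (S4_b2 hT) _ _).const_mul _
  constructor
  · have h : MeasureTheory.Integrable (fun v : ℝ => (((Real.exp (-(v ^ 2 / T ^ 2)) *
        ‖∑ i ∈ s, b i * Complex.exp (-(v * a i * Complex.I))‖ ^ 2 : ℝ)) : ℂ)) := by
      simp only [S4_left s a b T]
      exact MeasureTheory.integrable_finsetSum _ fun i _ => MeasureTheory.integrable_finsetSum _ fun j _ => i1 i j
    exact h.re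
  · have h : MeasureTheory.Integrable (fun y : ℝ => (((‖∑ i ∈ s, b i * Real.exp (-(T ^ 2 * (y - a i) ^ 2 / 2))‖ ^ 2 : ℝ)) : ℂ)) := by
      simp only [S4_right s a b T]
      exact MeasureTheory.integrable_finsetSum _ fun i _ => MeasureTheory.integrable_finsetSum _ fun j _ => i2 i j
    exact h.re

/-- Hence the integral over `[-T, T]`, where `e^(-v²/T²) ≥ e^(-1) ≥ 1/3`. -/
theorem gauss_interval {ι : Type*} (s : Finset ι) (a : ι → ℝ) (b : ι → ℂ) (T : ℝ) (hT : 0 < T) :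
    ∫ v in (-T)..T, ‖∑ i ∈ s, b i * Complex.exp (-(v * a i * Complex.I))‖ ^ 2 ≤
      3 * T ^ 2 * ∫ y : ℝ, ‖∑ i ∈ s, b i * Real.exp (-(T ^ 2 * (y - a i) ^ 2 / 2))‖ ^ 2 := by
  have hint := (gauss_integrable s a b T hT).1
  have hab : -T ≤ T := by linarith
  rw [mul_assoc, ← gauss_identity s a b T hT]
  have hcont : Continuous fun v : ℝ => ‖∑ i ∈ s, b i * Complex.exp (-(v * a i * Complex.I))‖ ^ 2 := by fun_prop
  calc ∫ v in (-T)..T, ‖∑ i ∈ s, b i * Complex.exp (-(v * a i * Complex.I))‖ ^ 2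
      ≤ ∫ v in (-T)..T, 3 * (Real.exp (-(v ^ 2 / T ^ 2)) * ‖∑ i ∈ s, b i * Complex.exp (-(v * a i * Complex.I))‖ ^ 2) := by
        refine intervalIntegral.integral_mono_on hab (hcont.intervalIntegrable _ _)
          (hint.const_mul 3).intervalIntegrable fun v hv => ?_
        have h1 : v ^ 2 / T ^ 2 ≤ 1 := by
          rw [div_le_one (by positivity)]
          exact sq_le_sq' hv.1 hv.2
        have h2 : (1 : ℝ) ≤ 3 * Real.exp (-(v ^ 2 / T ^ 2)) := by
          have h3 : Real.exp (-1) ≤ Real.exp (-(v ^ 2 / T ^ 2)) := Real.exp_le_exp.2 (by linarith)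
          have h4 : Real.exp 1 < 3 := Real.exp_one_lt_three
          have h5 : 1 / 3 < Real.exp (-1) := by
            rw [Real.exp_neg, ← one_div]
            exact one_div_lt_one_div_of_lt (Real.exp_pos 1) h4
          linarith
        rw [← mul_assoc]
        exact le_mul_of_one_le_left (by positivity) h2
    _ = ∫ v in Set.Ioc (-T) T, 3 * (Real.exp (-(v ^ 2 / T ^ 2)) * ‖∑ i ∈ s, b i * Complex.exp (-(v * a i * Complex.I))‖ ^ 2) :=
        intervalIntegral.integral_of_le hab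
    _ ≤ ∫ v : ℝ, 3 * (Real.exp (-(v ^ 2 / T ^ 2)) * ‖∑ i ∈ s, b i * Complex.exp (-(v * a i * Complex.I))‖ ^ 2) :=
        MeasureTheory.setIntegral_le_integral (hint.const_mul 3) (Filter.Eventually.of_forall fun v => by positivity)
    _ = _ := MeasureTheory.integral_const_mul _ _

end Pool.Agent.Lib.H18Q
end

-- from Lib.H18Q.T1
section

/-!
# Project H18Q, chunk T1: a product of distances is not small everywhere
-/

open Finset

namespace Pool.Agent.Lib.H18Q

/-- For real numbers `d i`, `i ∈ S`, some `t ∈ [1/2, 1]` has `∏ |t - d i| ≥ 16^(-#S)`.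

Proof 1 (Lagrange). Let `n = #S ≥ 1` (`n = 0`: `t = 1`), `P = ∏ (X - C (d i))`, monic of degree
`n`, nodes `x_j = 1/2 + j/(2n)`, `j = 0, …, n`. Lagrange interpolation at the `n+1` nodes and the
coefficient of `X^n` (`Lagrange.sum_basis`, or Mathlib's statement that the leading coefficient is
the divided difference) give `1 = ∑_j P(x_j) / ∏_{i ≠ j} (x_j - x_i)`, and
`∏_{i ≠ j} |x_j - x_i| = j! (n-j)! / (2n)^n`. If `|P(x_j)| < 16^(-n)` for all `j`, then
`1 < 16^(-n) (2n)^n ∑_j 1/(j! (n-j)!) = 16^(-n) (2n)^n 2^n / n! = (n^n / n!) 4^(-n) ≤ (e/4)^n < 1`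
(`n^n ≤ e^n n!`, as `e^n = ∑ n^k/k!`), a contradiction.

Proof 2 (average of logarithms). `∫_{1/2}^{1} log |t - d| dt ≥ ∫_{-1/4}^{1/4} log |x| dx =
-(1 + log 4)/2` for every real `d` (rearrangement), so the average over `[1/2, 1]` of
`∑ log |t - d i|` is at least `-n (1 + log 4) ≥ -n log 16`. Any proof is welcome. -/
theorem T1_far {ι : Type*} (S : Finset ι) (d : ι → ℝ) :
    ∃ t ∈ Set.Icc (1 / 2 : ℝ) 1, (1 / 16 : ℝ) ^ S.card ≤ ∏ i ∈ S, |t - d i| := by
  by_contra hcon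
  push Not at hcon
  set n := S.card with hn
  have hq : ∀ u ∈ Set.Icc (-1 : ℝ) 1, |∏ i ∈ S, (4 * u + 12 - 16 * d i)| ≤ 1 := by
    intro u hu
    have h1 := hcon (3 / 4 + u / 4) ⟨by linarith [hu.1], by linarith [hu.2]⟩
    have h2 : ∏ i ∈ S, (4 * u + 12 - 16 * d i) = 16 ^ n * ∏ i ∈ S, (3 / 4 + u / 4 - d i) := by
      rw [hn, ← Finset.prod_const, ← Finset.prod_mul_distrib]
      exact Finset.prod_congr rfl fun i _ => by ring
    rw [h2, abs_mul, Finset.abs_prod, abs_of_pos (by positivity : (0 : ℝ) < 16 ^ n)]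
    have h3 : (16 : ℝ) ^ n * (1 / 16) ^ n = 1 := by
      rw [← mul_pow]
      norm_num
    nlinarith [mul_lt_mul_of_pos_left h1 (by positivity : (0 : ℝ) < 16 ^ n)]
  set P : Polynomial ℝ := ∏ i ∈ S, (Polynomial.C 4 * Polynomial.X + Polynomial.C (12 - 16 * d i)) with hP
  have hdeg1 : ∀ i, (Polynomial.C (4 : ℝ) * Polynomial.X + Polynomial.C (12 - 16 * d i)).natDegree = 1 := by
    intro i
    exact Polynomial.natDegree_linear (by norm_num)
  have hlc1 : ∀ i, (Polynomial.C (4 : ℝ) * Polynomial.X + Polynomial.C (12 - 16 * d i)).leadingCoeff = 4 := by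
    intro i
    exact Polynomial.leadingCoeff_linear (by norm_num)
  have hPlc : P.leadingCoeff = 4 ^ n := by
    rw [hP, Polynomial.leadingCoeff_prod, Finset.prod_congr rfl fun i _ => hlc1 i, Finset.prod_const]
  have hPd : P.natDegree = n := by
    rw [hP, Polynomial.natDegree_prod _ _ fun i _ h0 => by
      have := hlc1 i
      rw [h0, Polynomial.leadingCoeff_zero] at this
      norm_num at this, Finset.sum_congr rfl fun i _ => hdeg1 i, Finset.sum_const]
    simp [hn]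
  have hP0 : P ≠ 0 := by
    intro h0
    rw [h0, Polynomial.leadingCoeff_zero] at hPlc
    exact absurd hPlc.symm (by positivity)
  have heval : ∀ u, P.eval u = ∏ i ∈ S, (4 * u + 12 - 16 * d i) := by
    intro u
    rw [hP, Polynomial.eval_prod]
    refine Finset.prod_congr rfl fun i _ => ?_
    simp
    ring
  have hdegree : P.degree = n := by
    rw [Polynomial.degree_eq_natDegree hP0, hPd]
  rcases Nat.eq_zero_or_pos n with h0 | h0
  · have h1 := hcon 1 ⟨by norm_num, le_refl _⟩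
    rw [h0, pow_zero] at h1
    have h2 : S = ∅ := Finset.card_eq_zero.1 (hn.symm.trans h0)
    rw [h2, Finset.prod_empty] at h1
    exact lt_irrefl _ h1
  · have h1 := Polynomial.Chebyshev.leadingCoeff_le_of_forall_abs_le_one (P := P) (n := n) (by rw [hdegree])
      (fun u hu => by rw [heval]; exact hq u hu)
    rw [hPlc] at h1
    have h2 : (2 : ℝ) ^ (n - 1) < 4 ^ n := by
      calc (2 : ℝ) ^ (n - 1) ≤ 2 ^ n := pow_le_pow_right₀ (by norm_num) (by omega)
        _ < 4 ^ n := pow_lt_pow_left₀ (by norm_num) (by norm_num) (by omega)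
    linarith

end Pool.Agent.Lib.H18Q
end

-- from Lib.H18Q.T2
section

/-!
# Project H18Q, chunk T2: the polynomial of the power sum method
-/

open Finset

namespace Pool.Agent.Lib.H18Q

open Polynomial in
theorem T2_D {ι : Type*} [DecidableEq ι] (z : ι → ℂ) (S : Finset ι) (hz : ∀ i ∈ S, ‖z i‖ ≤ 1) :
    ∀ a, ‖(∏ j ∈ S, (1 - C (z j) * X) : ℂ[X]).coeff a‖ ≤ (S.card.choose a : ℝ) := by
  induction S using Finset.induction_on with
  | empty =>
    intro a
    rw [prod_empty, card_empty, coeff_one]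
    rcases Nat.eq_zero_or_pos a with rfl | ha
    · simp
    · rw [if_neg ha.ne', norm_zero]
      positivity
  | insert i S hi ih =>
    intro a
    have ih' := ih fun j hj => hz j (mem_insert_of_mem hj)
    have e : (∏ j ∈ insert i S, (1 - C (z j) * X) : ℂ[X]) =
        (∏ j ∈ S, (1 - C (z j) * X)) - C (z i) * ((∏ j ∈ S, (1 - C (z j) * X)) * X) := by
      rw [prod_insert hi]
      ring
    rw [e, coeff_sub, coeff_C_mul, card_insert_of_notMem hi]
    rcases a with _ | a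
    · rw [coeff_mul_X_zero, mul_zero, sub_zero]
      have := ih' 0
      simpa using this
    · rw [coeff_mul_X, Nat.choose_succ_succ]
      have h1 := ih' a
      have h2 := ih' (a + 1)
      have h3 : ‖z i * (∏ j ∈ S, (1 - C (z j) * X) : ℂ[X]).coeff a‖ ≤ (S.card.choose a : ℝ) := by
        rw [norm_mul]
        calc ‖z i‖ * ‖(∏ j ∈ S, (1 - C (z j) * X) : ℂ[X]).coeff a‖
            ≤ 1 * ‖(∏ j ∈ S, (1 - C (z j) * X) : ℂ[X]).coeff a‖ :=
              mul_le_mul_of_nonneg_right (hz i (mem_insert_self _ _)) (norm_nonneg _)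
          _ ≤ _ := by rw [one_mul]; exact h1
      push_cast
      calc _ ≤ ‖(∏ j ∈ S, (1 - C (z j) * X) : ℂ[X]).coeff (a + 1)‖ +
            ‖z i * (∏ j ∈ S, (1 - C (z j) * X) : ℂ[X]).coeff a‖ := norm_sub_le _ _
        _ ≤ _ := by linarith

open Polynomial in
theorem T2_coeff {D P : ℂ[X]} {z : ℂ} (h : P * (1 - C z * X) = D) (l : ℕ) :
    P.coeff l = ∑ a ∈ range (l + 1), D.coeff a * z ^ (l - a) := by
  have e : D = P - C z * (P * X) := by
    rw [← h]
    ring
  induction l with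
  | zero =>
    rw [sum_range_one, e, coeff_sub, coeff_C_mul, coeff_mul_X_zero]
    simp
  | succ l ih =>
    rw [sum_range_succ]
    have h1 : ∑ a ∈ range (l + 1), D.coeff a * z ^ (l + 1 - a) = z * P.coeff l := by
      rw [ih, mul_sum]
      refine sum_congr rfl fun a ha => ?_
      have h2 : l + 1 - a = (l - a) + 1 := by
        have := mem_range.1 ha
        omega
      rw [h2, pow_succ]
      ring
    rw [h1, Nat.sub_self, pow_zero, mul_one]
    have h3 : D.coeff (l + 1) = P.coeff (l + 1) - z * P.coeff l := by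
      conv_lhs => rw [e]
      rw [coeff_sub, coeff_C_mul, coeff_mul_X]
    rw [h3]
    ring

/-- Let `p_k = ∑_i m_i z_i^k`, `|z_i| ≤ 1`, `n = #S`, and `|p_k| ≤ M` for `K ≤ k < K + n`. Then
`P(w) = ∑_i m_i z_i^K ∏_{j ≠ i} (1 - z_j w)` has `|P(w)| ≤ 8^n M` for `|w| ≤ 4`.

Proof. Put `D = ∏_{j ∈ S} (1 - C (z_j) X) = ∑_a D_a X^a` (polynomials); `|D_a| ≤ binom n a` by
induction on `S` (`D_a` of `S ∪ {j}` is `D_a - z_j D_{a-1}`). For `i ∈ S` put
`P_i = ∏_{j ∈ S.erase i} (1 - C (z_j) X)`, of degree `≤ n - 1`, `P_i (1 - C (z_i) X) = D`, so the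
coefficients satisfy `(P_i)_l = D_l + z_i (P_i)_(l-1)`, by induction `(P_i)_l = ∑_{a ≤ l} D_a
z_i^(l-a)`. So the coefficient of `X^l` in `P = ∑_i m_i z_i^K P_i`, `l ≤ n - 1`, is
`∑_{a ≤ l} D_a p_(K+l-a)`, of absolute value at most `2^n M` (`K ≤ K + l - a < K + n`,
`∑_a binom n a ≤ 2^n`), and `|P(w)| ≤ 2^n M ∑_{l < n} 4^l ≤ 2^n M 4^n`. (`M ≥ 0` follows from the
hypothesis if `n ≥ 1`; for `n = 0` the left side is `0` and `hM0` is used.) -/
theorem T2_poly {ι : Type*} [DecidableEq ι] (S : Finset ι) (m : ι → ℕ) (z : ι → ℂ)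
    (hz : ∀ i ∈ S, ‖z i‖ ≤ 1) (K : ℕ) (M : ℝ) (hM0 : 0 ≤ M)
    (hM : ∀ k, K ≤ k → k < K + S.card → ‖∑ i ∈ S, (m i : ℂ) * z i ^ k‖ ≤ M) (w : ℂ)
    (hw : ‖w‖ ≤ 4) :
    ‖∑ i ∈ S, (m i : ℂ) * z i ^ K * ∏ j ∈ S.erase i, (1 - z j * w)‖ ≤ 8 ^ S.card * M := by
  open Polynomial in
  rcases S.eq_empty_or_nonempty with rfl | hne
  · simp [hM0]
  have hn : 1 ≤ S.card := hne.card_pos
  let Pi : ι → Polynomial ℂ := fun i => ∏ j ∈ S.erase i, (1 - Polynomial.C (z j) * Polynomial.X)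
  obtain ⟨P, hP⟩ : ∃ P : Polynomial ℂ, P = ∑ i ∈ S, Polynomial.C ((m i : ℂ) * z i ^ K) * Pi i := ⟨_, rfl⟩
  obtain ⟨D, hD⟩ : ∃ D : Polynomial ℂ, D = ∏ j ∈ S, (1 - Polynomial.C (z j) * Polynomial.X) := ⟨_, rfl⟩
  have hPD : ∀ i ∈ S, Pi i * (1 - Polynomial.C (z i) * Polynomial.X) = D := by
    intro i hi
    rw [hD, ← mul_prod_erase S _ hi, mul_comm]
  have hev : P.eval w = ∑ i ∈ S, (m i : ℂ) * z i ^ K * ∏ j ∈ S.erase i, (1 - z j * w) := by
    rw [hP, Polynomial.eval_finsetSum]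
    refine sum_congr rfl fun i _ => ?_
    rw [Polynomial.eval_mul, Polynomial.eval_C, Polynomial.eval_prod]
    congr 1
    refine prod_congr rfl fun j _ => ?_
    simp
  have hdeg : P.natDegree < S.card := by
    have h1 : P.natDegree ≤ S.card - 1 := by
      rw [hP]
      refine Polynomial.natDegree_sum_le_of_forall_le _ _ fun i hi => ?_
      refine (Polynomial.natDegree_C_mul_le _ _).trans ?_
      refine (Polynomial.natDegree_prod_le _ _).trans ?_
      refine (sum_le_card_nsmul _ _ 1 fun j _ => ?_).trans ?_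
      · compute_degree
      · rw [card_erase_of_mem hi, smul_eq_mul, mul_one]
    omega
  have hco : ∀ l, P.coeff l = ∑ a ∈ range (l + 1), D.coeff a * ∑ i ∈ S, (m i : ℂ) * z i ^ (K + l - a) := by
    intro l
    rw [hP, Polynomial.finsetSum_coeff]
    have h1 : ∀ i ∈ S, (Polynomial.C ((m i : ℂ) * z i ^ K) * Pi i).coeff l =
        ∑ a ∈ range (l + 1), D.coeff a * ((m i : ℂ) * z i ^ (K + l - a)) := by
      intro i hi
      rw [Polynomial.coeff_C_mul, T2_coeff (hPD i hi) l, mul_sum]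
      refine sum_congr rfl fun a ha => ?_
      have h2 : K + l - a = K + (l - a) := by
        have := mem_range.1 ha
        omega
      rw [h2, pow_add]
      ring
    rw [sum_congr rfl h1, sum_comm]
    refine sum_congr rfl fun a _ => ?_
    rw [mul_sum]
  have hbd : ∀ l, l < S.card → ‖P.coeff l‖ ≤ 2 ^ S.card * M := by
    intro l hl
    rw [hco l]
    calc ‖∑ a ∈ range (l + 1), D.coeff a * ∑ i ∈ S, (m i : ℂ) * z i ^ (K + l - a)‖
        ≤ ∑ a ∈ range (l + 1), ‖D.coeff a * ∑ i ∈ S, (m i : ℂ) * z i ^ (K + l - a)‖ := norm_sum_le _ _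
      _ ≤ ∑ a ∈ range (l + 1), (S.card.choose a : ℝ) * M := by
          refine sum_le_sum fun a ha => ?_
          have h1 := mem_range.1 ha
          rw [norm_mul]
          refine mul_le_mul ?_ (hM _ (by omega) (by omega)) (norm_nonneg _) (by positivity)
          rw [hD]
          exact T2_D z S hz a
      _ ≤ ∑ a ∈ range (S.card + 1), (S.card.choose a : ℝ) * M := by
          refine sum_le_sum_of_subset_of_nonneg (range_subset_range.2 (by omega)) fun a _ _ => by positivity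
      _ = 2 ^ S.card * M := by
          rw [← sum_mul]
          congr 1
          have := Nat.sum_range_choose S.card
          exact_mod_cast this
  rw [← hev, Polynomial.eval_eq_sum_range' hdeg]
  calc ‖∑ l ∈ range S.card, P.coeff l * w ^ l‖ ≤ ∑ l ∈ range S.card, ‖P.coeff l * w ^ l‖ := norm_sum_le _ _
    _ ≤ ∑ l ∈ range S.card, 2 ^ S.card * M * 4 ^ l := by
        refine sum_le_sum fun l hl => ?_
        rw [norm_mul, norm_pow]
        exact mul_le_mul (hbd l (mem_range.1 hl)) (pow_le_pow_left₀ (norm_nonneg _) hw l) (by positivity) (by positivity)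
    _ = 2 ^ S.card * M * ∑ l ∈ range S.card, (4 : ℝ) ^ l := by rw [mul_sum]
    _ ≤ 2 ^ S.card * M * 4 ^ S.card := by
        refine mul_le_mul_of_nonneg_left ?_ (by positivity)
        rw [geom_sum_eq (by norm_num)]
        have h4 : (1 : ℝ) ≤ 4 ^ S.card := one_le_pow₀ (by norm_num)
        rw [div_le_iff₀ (by norm_num)]
        linarith
    _ = 8 ^ S.card * M := by
        have h5 : (8 : ℝ) = 2 * 4 := by norm_num
        rw [h5, mul_pow]
        ring

end Pool.Agent.Lib.H18Q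
end

-- from Lib.H18Q.T3
section

/-!
# Project H18Q, chunk T3: power sums (weak form of Turán's theorem)
-/

open Finset

namespace Pool.Agent.Lib.H18Q

/-- One term of the contour integral: a point inside the circle. -/
theorem t3_inside {w0 : ℂ} {t : ℝ} {u : ℂ} (n : ℕ) (hu : ‖u - w0‖ < t) :
    (∮ w in C(w0, t), (w - u)⁻¹ • w ^ n) = (2 * Real.pi * Complex.I : ℂ) • u ^ n := by
  have hd : DifferentiableOn ℂ (fun w : ℂ => w ^ n) (Metric.closedBall w0 t) :=
    (differentiable_pow n).differentiableOn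
  exact hd.circleIntegral_sub_inv_smul (by
    rw [Metric.mem_ball, dist_eq_norm]; exact hu)

/-- One term of the contour integral: a point outside the circle. -/
theorem t3_outside {w0 : ℂ} {t : ℝ} (ht : 0 ≤ t) {u : ℂ} (n : ℕ) (hu : t < ‖u - w0‖) :
    (∮ w in C(w0, t), (w - u)⁻¹ • w ^ n) = 0 := by
  have hd : DifferentiableOn ℂ (fun w : ℂ => (w - u)⁻¹ • w ^ n) (Metric.closedBall w0 t) := by
    intro w hw
    have hne : w - u ≠ 0 := by
      intro h
      rw [sub_eq_zero] at h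
      rw [Metric.mem_closedBall, dist_eq_norm, h] at hw
      linarith
    have h1 : DifferentiableAt ℂ (fun w : ℂ => (w - u)⁻¹ • w ^ n) w := by
      exact DifferentiableAt.fun_smul ((differentiableAt_id.sub_const u).inv hne)
        (differentiableAt_pow n)
    exact h1.differentiableWithinAt
  exact (hd.mono Metric.closure_ball_subset_closedBall).diffContOnCl.circleIntegral_eq_zero ht

/-- The lower bound for the product on the circle. -/
theorem t3_prod {ι : Type*} [DecidableEq ι] (S : Finset ι) (z : ι → ℂ)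
    (w0 : ℂ) (hw0 : ‖w0‖ ≤ 3) (t : ℝ) (ht1 : t ≤ 1)
    (hp : (1 / 16 : ℝ) ^ (S.filter (fun j => (1 / 8 : ℝ) < ‖z j‖)).card ≤
      ∏ j ∈ S.filter (fun j => (1 / 8 : ℝ) < ‖z j‖), |t - ‖(z j)⁻¹ - w0‖|)
    (w : ℂ) (hw : ‖w - w0‖ = t) :
    (1 / 128 : ℝ) ^ S.card ≤ ‖∏ j ∈ S, (1 - z j * w)‖ := by
  have hw4 : ‖w‖ ≤ 4 := by
    calc ‖w‖ = ‖(w - w0) + w0‖ := by ring_nf
      _ ≤ ‖w - w0‖ + ‖w0‖ := norm_add_le _ _
      _ ≤ 4 := by rw [hw]; linarith
  have h2 : ∀ j ∈ S.filter (fun j => (1 / 8 : ℝ) < ‖z j‖),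
      (1 / 8) * |t - ‖(z j)⁻¹ - w0‖| ≤ ‖1 - z j * w‖ := by
    intro j hj
    rw [mem_filter] at hj
    have hz0 : z j ≠ 0 := by
      intro h; rw [h, norm_zero] at hj; linarith [hj.2]
    have e1 : 1 - z j * w = z j * ((z j)⁻¹ - w) := by field_simp
    rw [e1, norm_mul]
    have h3 : |t - ‖(z j)⁻¹ - w0‖| ≤ ‖(z j)⁻¹ - w‖ := by
      have := abs_norm_sub_norm_le (w - w0) ((z j)⁻¹ - w0)
      rw [hw] at this
      refine this.trans (le_of_eq ?_)
      rw [← norm_neg]
      congr 1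
      ring
    exact mul_le_mul hj.2.le h3 (abs_nonneg _) (norm_nonneg _)
  have h3 : ∀ j ∈ S.filter (fun j => ¬ (1 / 8 : ℝ) < ‖z j‖), (1 / 128 : ℝ) ≤ ‖1 - z j * w‖ := by
    intro j hj
    rw [mem_filter, not_lt] at hj
    have h4 : ‖z j * w‖ ≤ 1 / 2 := by
      rw [norm_mul]
      calc ‖z j‖ * ‖w‖ ≤ (1 / 8) * 4 :=
            mul_le_mul hj.2 hw4 (norm_nonneg _) (by norm_num)
        _ = 1 / 2 := by norm_num
    have h5 : (1 : ℝ) - ‖z j * w‖ ≤ ‖1 - z j * w‖ := by
      have := norm_sub_norm_le (1 : ℂ) (z j * w)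
      rwa [norm_one] at this
    linarith
  rw [norm_prod, ← Finset.prod_filter_mul_prod_filter_not S (fun j => (1 / 8 : ℝ) < ‖z j‖),
    ← Finset.card_filter_add_card_filter_not (s := S) (fun j => (1 / 8 : ℝ) < ‖z j‖), pow_add]
  apply mul_le_mul
  · calc (1 / 128 : ℝ) ^ (S.filter (fun j => (1 / 8 : ℝ) < ‖z j‖)).card
        = (1 / 8) ^ (S.filter (fun j => (1 / 8 : ℝ) < ‖z j‖)).card *
          (1 / 16) ^ (S.filter (fun j => (1 / 8 : ℝ) < ‖z j‖)).card := by
          rw [← mul_pow]; norm_num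
      _ ≤ (1 / 8) ^ (S.filter (fun j => (1 / 8 : ℝ) < ‖z j‖)).card *
          ∏ j ∈ S.filter (fun j => (1 / 8 : ℝ) < ‖z j‖), |t - ‖(z j)⁻¹ - w0‖| :=
          mul_le_mul_of_nonneg_left hp (by positivity)
      _ = ∏ j ∈ S.filter (fun j => (1 / 8 : ℝ) < ‖z j‖),
            ((1 / 8) * |t - ‖(z j)⁻¹ - w0‖|) := by
          rw [Finset.prod_mul_distrib, Finset.prod_const]
      _ ≤ _ := Finset.prod_le_prod (fun j _ => by positivity) h2
  · calc (1 / 128 : ℝ) ^ (S.filter (fun j => ¬ (1 / 8 : ℝ) < ‖z j‖)).card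
        = ∏ _j ∈ S.filter (fun j => ¬ (1 / 8 : ℝ) < ‖z j‖), (1 / 128 : ℝ) := by
          rw [Finset.prod_const]
      _ ≤ _ := Finset.prod_le_prod (fun j _ => by norm_num) h3
  · positivity
  · exact Finset.prod_nonneg fun j _ => norm_nonneg _

/-- Let `|z_i| ≤ 1`, `m_i` natural numbers, `i ∈ S`, `#S ≤ K`, and `|z_{i0}| ≥ 1/3`,
`m_{i0} ≥ 1` for one `i0 ∈ S`. Then some power sum `p_k = ∑ m_i z_i^k`, `K ≤ k < 2 K`, has
`|p_k| ≥ 4096^(-K)`.

Proof. Suppose not; put `M = 4096^(-K)`, `n = #S`. Let `w0 = 1/z_{i0}`, `1 ≤ |w0| ≤ 3`. Let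
`S2 = {j ∈ S : |z_j| > 1/8}`, `d_j = |w0 - 1/z_j|` for `j ∈ S2`; take `t ∈ [1/2, 1]` from
`T1_far S2 d`. On the circle `|w - w0| = t` we have `|w| ≤ 4` and
`|1 - z_j w| ≥ 1 - 4/8 = 1/2` for `j ∉ S2`, `|1 - z_j w| = |z_j| |w - 1/z_j| ≥ (1/8) |t - d_j|` for
`j ∈ S2` (`|w - 1/z_j| ≥ | |w - w0| - |w0 - 1/z_j| |`). So `|∏_{j ∈ S} (1 - z_j w)| ≥
8^(-n) 16^(-#S2) ≥ 128^(-n) > 0`; in particular no `1/z_j` is on the circle. Put
`H(w) = ∑_i m_i z_i^K / (1 - z_i w) = P(w) / ∏ (1 - z_j w)`, with `P` of `T2_poly`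
(`K ≤ k < K + n ≤ 2 K`): on the circle `|H(w)| ≤ 8^n M 128^n = 1024^n M ≤ 1024^K M`, and
`|w^(K-1)| ≤ 4^(K-1)`. By Cauchy's formula, for each `i` the circle integral
`(1/2πi) ∮ m_i z_i^K w^(K-1) / (1 - z_i w) dw` is `0` if `z_i = 0` (`K ≥ 1`), and for `z_i ≠ 0`,
since `1/(1 - z_i w) = -(1/z_i) / (w - 1/z_i)`, it is `-m_i z_i^(K-1) (1/z_i)^(K-1) = -m_i` if
`|1/z_i - w0| < t`, and `0` if `|1/z_i - w0| > t` (`Complex.circleIntegral_sub_inv_smul_of_...`,
`circleIntegral_eq_zero_of_differentiable_on_off_countable` or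
`DiffContOnCl.circleIntegral_eq_zero`). The index `i0` has `1/z_{i0} = w0` inside. So the total is
`-∑_{inside} m_i`, of absolute value `≥ m_{i0} ≥ 1`. But it is at most
`t · 1024^K M · 4^(K-1) ≤ 4096^K M / 4 < 1`. Contradiction. -/
theorem turan {ι : Type*} (S : Finset ι) (m : ι → ℕ) (z : ι → ℂ) (K : ℕ) (hK : 1 ≤ K)
    (hc : S.card ≤ K) (hz : ∀ i ∈ S, ‖z i‖ ≤ 1) (i0 : ι) (hi0 : i0 ∈ S) (hm : 1 ≤ m i0)
    (hz0 : 1 / 3 ≤ ‖z i0‖) :
    ∃ k, K ≤ k ∧ k < 2 * K ∧ (1 / 4096 : ℝ) ^ K ≤ ‖∑ i ∈ S, (m i : ℂ) * z i ^ k‖ := by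
  classical
  by_contra hcon
  push Not at hcon
  set M : ℝ := (1 / 4096 : ℝ) ^ K with hMdef
  have hM0 : 0 < M := by positivity
  have hzi0 : z i0 ≠ 0 := by
    intro h; rw [h, norm_zero] at hz0; linarith
  set w0 : ℂ := (z i0)⁻¹ with hw0def
  have hw03 : ‖w0‖ ≤ 3 := by
    rw [hw0def, norm_inv]
    have := inv_anti₀ (by norm_num : (0 : ℝ) < 1 / 3) hz0
    norm_num at this
    exact this
  obtain ⟨t, ⟨ht0, ht1⟩, hprod⟩ := T1_far (S.filter (fun j => (1 / 8 : ℝ) < ‖z j‖))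
    (fun j => ‖(z j)⁻¹ - w0‖)
  have htpos : 0 < t := by linarith
  have hlow : ∀ w : ℂ, ‖w - w0‖ = t → (1 / 128 : ℝ) ^ S.card ≤ ‖∏ j ∈ S, (1 - z j * w)‖ :=
    fun w hw => t3_prod S z w0 hw03 t ht1 hprod w hw
  have hlowpos : ∀ w : ℂ, ‖w - w0‖ = t → ∀ j ∈ S, 1 - z j * w ≠ 0 := by
    intro w hw j hj h0
    have h1 := hlow w hw
    rw [Finset.prod_eq_zero hj h0, norm_zero] at h1
    have : (0 : ℝ) < (1 / 128 : ℝ) ^ S.card := by positivity
    linarith
  have hne : ∀ i ∈ S, z i ≠ 0 → ‖(z i)⁻¹ - w0‖ ≠ t := by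
    intro i hi hzi h
    apply hlowpos _ h i hi
    rw [mul_inv_cancel₀ hzi, sub_self]
  -- the terms
  set F : ι → ℂ → ℂ := fun i w => (m i : ℂ) * z i ^ K * w ^ (K - 1) / (1 - z i * w) with hF
  have hFcont : ∀ i ∈ S, ContinuousOn (F i) (Metric.sphere w0 t) := by
    intro i hi
    apply ContinuousOn.div
    · fun_prop
    · fun_prop
    · intro w hw
      rw [mem_sphere_iff_norm] at hw
      exact hlowpos w hw i hi
  have hint : ∀ i ∈ S, CircleIntegrable (F i) w0 t := fun i hi =>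
    (hFcont i hi).circleIntegrable htpos.le
  set c : ι → ℝ := fun i => if z i ≠ 0 ∧ ‖(z i)⁻¹ - w0‖ < t then (m i : ℝ) else 0 with hc'
  have hterm : ∀ i ∈ S, (∮ w in C(w0, t), F i w) = -(2 * Real.pi * Complex.I) * (c i : ℂ) := by
    intro i hi
    by_cases hzi : z i = 0
    · have h1 : F i = fun _ => 0 := by
        funext w
        simp only [hF, hzi]
        rw [zero_pow (by omega)]
        ring
      have h2 : c i = 0 := by
        simp only [hc', hzi]
        simp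
      rw [h1, h2]
      simp [circleIntegral]
    · have h1 : (∮ w in C(w0, t), F i w) =
          -((m i : ℂ) * z i ^ (K - 1)) * ∮ w in C(w0, t), (w - (z i)⁻¹)⁻¹ • w ^ (K - 1) := by
        rw [← circleIntegral.integral_const_mul]
        apply circleIntegral.integral_congr htpos.le
        intro w hw
        rw [mem_sphere_iff_norm] at hw
        have h3 : 1 - z i * w ≠ 0 := hlowpos w hw i hi
        have h4 : w - (z i)⁻¹ ≠ 0 := by
          intro h
          apply h3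
          rw [sub_eq_zero] at h
          rw [h, mul_inv_cancel₀ hzi, sub_self]
        have h5 : 1 - z i * w = -(z i * (w - (z i)⁻¹)) := by
          rw [mul_sub, mul_inv_cancel₀ hzi]; ring
        simp only [hF, smul_eq_mul]
        rw [h5]
        have h6 : z i ^ K = z i * z i ^ (K - 1) := by
          rw [← pow_succ']; congr 1; omega
        rw [h6]
        field_simp
      rcases lt_or_gt_of_ne (hne i hi hzi) with hlt | hgt
      · rw [h1, t3_inside _ hlt]
        have h2 : c i = m i := by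
          simp only [hc']
          rw [if_pos ⟨hzi, hlt⟩]
        rw [h2]
        have h7 : z i ^ (K - 1) * (z i)⁻¹ ^ (K - 1) = 1 := by
          rw [← mul_pow, mul_inv_cancel₀ hzi, one_pow]
        simp only [smul_eq_mul]
        push_cast
        linear_combination (-(m i : ℂ) * (2 * Real.pi * Complex.I)) * h7
      · rw [h1, t3_outside htpos.le _ hgt]
        have h2 : c i = 0 := by
          simp only [hc']
          rw [if_neg]
          intro h
          linarith [h.2]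
        rw [h2]
        simp
  have htotal : (∮ w in C(w0, t), ∑ i ∈ S, F i w) =
      -(2 * Real.pi * Complex.I) * ((∑ i ∈ S, c i : ℝ) : ℂ) := by
    rw [circleIntegral.integral_fun_sum hint, Finset.sum_congr rfl hterm, ← Finset.mul_sum]
    push_cast
    rfl
  have hcsum : (1 : ℝ) ≤ ∑ i ∈ S, c i := by
    have h1 : ∀ i ∈ S, 0 ≤ c i := by
      intro i _
      simp only [hc']
      split_ifs <;> positivity
    have h2 : c i0 = m i0 := by
      simp only [hc']
      rw [if_pos]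
      refine ⟨hzi0, ?_⟩
      rw [← hw0def, sub_self, norm_zero]
      exact htpos
    have h3 : (1 : ℝ) ≤ c i0 := by
      rw [h2]; exact_mod_cast hm
    exact h3.trans (Finset.single_le_sum h1 hi0)
  have hup : ‖∮ w in C(w0, t), ∑ i ∈ S, F i w‖ ≤
      2 * Real.pi * t * (4 ^ (K - 1) * (8 ^ S.card * M) * 128 ^ S.card) := by
    apply circleIntegral.norm_integral_le_of_norm_le_const htpos.le
    intro w hw
    rw [mem_sphere_iff_norm] at hw
    have hw4 : ‖w‖ ≤ 4 := by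
      calc ‖w‖ = ‖(w - w0) + w0‖ := by ring_nf
        _ ≤ ‖w - w0‖ + ‖w0‖ := norm_add_le _ _
        _ ≤ 4 := by rw [hw]; linarith
    have hP := T2_poly S m z hz K M hM0.le (fun k hk1 hk2 => (hcon k hk1 (by omega)).le) w hw4
    have hQ := hlow w hw
    have hQ0 : ∏ j ∈ S, (1 - z j * w) ≠ 0 := Finset.prod_ne_zero_iff.mpr (hlowpos w hw)
    have e1 : ∑ i ∈ S, F i w = w ^ (K - 1) *
        (∑ i ∈ S, (m i : ℂ) * z i ^ K * ∏ j ∈ S.erase i, (1 - z j * w)) /
        ∏ j ∈ S, (1 - z j * w) := by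
      rw [Finset.mul_sum, Finset.sum_div]
      apply Finset.sum_congr rfl
      intro i hi
      simp only [hF]
      rw [div_eq_div_iff (hlowpos w hw i hi) hQ0, ← Finset.mul_prod_erase S _ hi]
      ring
    rw [e1, norm_div, norm_mul, norm_pow, div_le_iff₀ (norm_pos_iff.mpr hQ0)]
    have h128 : (1 : ℝ) ≤ 128 ^ S.card * ‖∏ j ∈ S, (1 - z j * w)‖ := by
      calc (1 : ℝ) = 128 ^ S.card * (1 / 128) ^ S.card := by
            rw [← mul_pow]; norm_num
        _ ≤ _ := mul_le_mul_of_nonneg_left hQ (by positivity)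
    calc ‖w‖ ^ (K - 1) * ‖∑ i ∈ S, (m i : ℂ) * z i ^ K * ∏ j ∈ S.erase i, (1 - z j * w)‖
        ≤ 4 ^ (K - 1) * (8 ^ S.card * M) := by
          apply mul_le_mul _ hP (norm_nonneg _) (by positivity)
          exact pow_le_pow_left₀ (norm_nonneg _) hw4 _
      _ = 4 ^ (K - 1) * (8 ^ S.card * M) * 1 := by ring
      _ ≤ 4 ^ (K - 1) * (8 ^ S.card * M) * (128 ^ S.card * ‖∏ j ∈ S, (1 - z j * w)‖) :=
          mul_le_mul_of_nonneg_left h128 (by positivity)
      _ = _ := by ring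
  rw [htotal, norm_mul, norm_neg] at hup
  have hn1 : ‖(2 * Real.pi * Complex.I : ℂ)‖ = 2 * Real.pi := by
    simp [abs_of_pos Real.pi_pos]
  rw [hn1, Complex.norm_real, Real.norm_eq_abs, abs_of_nonneg (by linarith)] at hup
  have hpi := Real.pi_pos
  have hbound : t * (4 ^ (K - 1) * (8 ^ S.card * M) * 128 ^ S.card) ≤ 1 / 4 := by
    have h1 : (8 : ℝ) ^ S.card * 128 ^ S.card ≤ 1024 ^ K := by
      rw [← mul_pow]
      norm_num
      exact pow_le_pow_right₀ (by norm_num) hc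
    have h2 : (4 : ℝ) ^ (K - 1) * 4 = 4 ^ K := by
      rw [← pow_succ]; congr 1; omega
    have h3 : (4 : ℝ) ^ K * 1024 ^ K * M = 1 := by
      rw [hMdef, ← mul_pow, ← mul_pow]; norm_num
    calc t * (4 ^ (K - 1) * (8 ^ S.card * M) * 128 ^ S.card)
        = t * (4 ^ (K - 1) * M * (8 ^ S.card * 128 ^ S.card)) := by ring
      _ ≤ 1 * (4 ^ (K - 1) * M * 1024 ^ K) := by
          apply mul_le_mul ht1 _ (by positivity) (by norm_num)
          exact mul_le_mul_of_nonneg_left h1 (by positivity)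
      _ = (4 ^ (K - 1) * 4) * 1024 ^ K * M / 4 := by ring
      _ = 1 / 4 := by rw [h2, h3]
  have : 2 * Real.pi * 1 ≤ 2 * Real.pi * (1 / 4) := by
    calc 2 * Real.pi * 1 ≤ 2 * Real.pi * ∑ i ∈ S, c i :=
          mul_le_mul_of_nonneg_left hcsum (by positivity)
      _ ≤ _ := hup
      _ = 2 * Real.pi * (t * (4 ^ (K - 1) * (8 ^ S.card * M) * 128 ^ S.card)) := by ring
      _ ≤ _ := mul_le_mul_of_nonneg_left hbound (by positivity)
  nlinarith

end Pool.Agent.Lib.H18Q
end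

-- from Lib.Sieve.Combi
section

/-!
# Combinatorial part of the Brun-Hooley sieve

Weighted truncated inclusion-exclusion over finite sets of indices.
-/

set_option linter.unusedSectionVars false

namespace Pool.Agent.Lib.Sieve

open Finset

section

variable {ι : Type*} [DecidableEq ι]

/-- `poly c f Q = ∑_{D ⊆ Q} c D ∏_{p ∈ D} f p`. -/
def poly (c : Finset ι → ℝ) (f : ι → ℝ) (Q : Finset ι) : ℝ :=
  ∑ D ∈ Q.powerset, c D * ∏ p ∈ D, f p

/-- Coefficients of the inclusion-exclusion sum truncated at `b`. -/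
def cT (b : ℕ) (D : Finset ι) : ℝ := if D.card ≤ b then (-1) ^ D.card else 0

/-- Coefficients of the elementary symmetric sum of degree `m`. -/
def cE (m : ℕ) (D : Finset ι) : ℝ := if D.card = m then 1 else 0

/-- Coefficients of the truncated sum of all products. -/
def cA (m : ℕ) (D : Finset ι) : ℝ := if D.card ≤ m then 1 else 0

theorem poly_empty (c : Finset ι → ℝ) (f : ι → ℝ) : poly c f ∅ = c ∅ := by
  simp [poly]

theorem poly_insert (c : Finset ι → ℝ) (f : ι → ℝ) {Q : Finset ι} {p : ι} (hp : p ∉ Q) :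
    poly c f (insert p Q) = poly c f Q + f p * poly (fun D => c (insert p D)) f Q := by
  unfold poly
  rw [Finset.sum_powerset_insert hp, Finset.mul_sum]
  congr 1
  refine Finset.sum_congr rfl fun D hD => ?_
  have hpD : p ∉ D := fun h => hp (Finset.mem_powerset.mp hD h)
  rw [Finset.prod_insert hpD]
  ring

theorem poly_congr {c c' : Finset ι → ℝ} (f : ι → ℝ) {Q : Finset ι}
    (h : ∀ D ⊆ Q, c D = c' D) : poly c f Q = poly c' f Q := by
  unfold poly
  refine Finset.sum_congr rfl fun D hD => ?_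
  rw [h D (Finset.mem_powerset.mp hD)]

theorem poly_neg (c : Finset ι → ℝ) (f : ι → ℝ) (Q : Finset ι) :
    poly (fun D => - c D) f Q = - poly c f Q := by
  unfold poly
  rw [← Finset.sum_neg_distrib]
  refine Finset.sum_congr rfl fun D _ => by ring

theorem poly_add (c c' : Finset ι → ℝ) (f : ι → ℝ) (Q : Finset ι) :
    poly (fun D => c D + c' D) f Q = poly c f Q + poly c' f Q := by
  unfold poly
  rw [← Finset.sum_add_distrib]
  refine Finset.sum_congr rfl fun D _ => by ring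

theorem poly_const_mul (a : ℝ) (c : Finset ι → ℝ) (f : ι → ℝ) (Q : Finset ι) :
    poly (fun D => a * c D) f Q = a * poly c f Q := by
  unfold poly
  rw [Finset.mul_sum]
  refine Finset.sum_congr rfl fun D _ => by ring

theorem poly_nonneg {c : Finset ι → ℝ} {f : ι → ℝ} {Q : Finset ι} (hc : ∀ D, 0 ≤ c D)
    (hf : ∀ p ∈ Q, 0 ≤ f p) : 0 ≤ poly c f Q := by
  unfold poly
  refine Finset.sum_nonneg fun D hD => mul_nonneg (hc D) ?_
  exact Finset.prod_nonneg fun p hp => hf p (Finset.mem_powerset.mp hD hp)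


theorem cT_insert_succ {b : ℕ} {D : Finset ι} {p : ι} (hp : p ∉ D) :
    cT (b + 1) (insert p D) = - cT b D := by
  unfold cT
  rw [Finset.card_insert_of_notMem hp]
  by_cases h : D.card ≤ b
  · rw [if_pos h, if_pos (by omega)]
    ring
  · rw [if_neg h, if_neg (by omega)]
    simp


theorem polyT_zero (f : ι → ℝ) (Q : Finset ι) : poly (cT 0) f Q = 1 := by
  unfold poly
  rw [Finset.sum_eq_single ∅]
  · simp [cT]
  · intro D _ hD
    have : ¬ D.card ≤ 0 := by
      intro h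
      exact hD (Finset.card_eq_zero.mp (by omega))
    simp [cT, this]
  · intro h
    exact absurd (Finset.empty_mem_powerset Q) h

theorem polyT_insert (b : ℕ) (f : ι → ℝ) {Q : Finset ι} {p : ι} (hp : p ∉ Q) :
    poly (cT (b + 1)) f (insert p Q) = poly (cT (b + 1)) f Q - f p * poly (cT b) f Q := by
  rw [poly_insert _ _ hp]
  rw [poly_congr (c' := fun D => - cT b D) f fun D hD => cT_insert_succ fun h => hp (hD h)]
  rw [poly_neg]
  ring

theorem polyT_succ (b : ℕ) (f : ι → ℝ) (Q : Finset ι) :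
    poly (cT (b + 1)) f Q = poly (cT b) f Q + (-1) ^ (b + 1) * poly (cE (b + 1)) f Q := by
  rw [← poly_const_mul, ← poly_add]
  congr 1
  funext D
  unfold cT cE
  by_cases h1 : D.card ≤ b
  · rw [if_pos h1, if_pos (by omega), if_neg (by omega)]
    simp
  · by_cases h2 : D.card = b + 1
    · rw [if_neg h1, if_pos (by omega), if_pos h2, h2]
      ring
    · rw [if_neg h1, if_neg (by omega), if_neg h2]
      simp

/-- **Bonferroni inequalities**, weighted form. -/
theorem bonferroni (f : ι → ℝ) (Q : Finset ι) (h0 : ∀ p ∈ Q, 0 ≤ f p) (h1 : ∀ p ∈ Q, f p ≤ 1) :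
    ∀ b : ℕ, 0 ≤ (-1) ^ b * (poly (cT b) f Q - ∏ p ∈ Q, (1 - f p)) := by
  induction Q using Finset.induction_on with
  | empty =>
    intro b
    rw [poly_empty]
    simp [cT]
  | insert p Q hp ih =>
    have ih' := ih (fun q hq => h0 q (Finset.mem_insert_of_mem hq))
      (fun q hq => h1 q (Finset.mem_insert_of_mem hq))
    have hfp0 := h0 p (Finset.mem_insert_self p Q)
    have hfp1 := h1 p (Finset.mem_insert_self p Q)
    intro b
    cases b with
    | zero =>
      rw [polyT_zero]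
      have : ∏ q ∈ insert p Q, (1 - f q) ≤ 1 := by
        apply Finset.prod_le_one
        · intro q hq
          have := h1 q hq
          linarith
        · intro q hq
          have := h0 q hq
          linarith
      simp only [pow_zero, one_mul]
      linarith
    | succ b =>
      rw [polyT_insert b f hp, Finset.prod_insert hp]
      have i1 := ih' (b + 1)
      have i2 := mul_nonneg hfp0 (ih' b)
      have : (-1 : ℝ) ^ (b + 1) * (poly (cT (b + 1)) f Q - f p * poly (cT b) f Q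
          - (1 - f p) * ∏ q ∈ Q, (1 - f q))
          = (-1) ^ (b + 1) * (poly (cT (b + 1)) f Q - ∏ q ∈ Q, (1 - f q))
            + f p * ((-1) ^ b * (poly (cT b) f Q - ∏ q ∈ Q, (1 - f q))) := by
        rw [pow_succ]
        ring
      rw [this]
      linarith

theorem le_polyT_of_even {f : ι → ℝ} {Q : Finset ι} (h0 : ∀ p ∈ Q, 0 ≤ f p)
    (h1 : ∀ p ∈ Q, f p ≤ 1) {b : ℕ} (hb : Even b) :
    ∏ p ∈ Q, (1 - f p) ≤ poly (cT b) f Q := by
  have h := bonferroni f Q h0 h1 b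
  rw [hb.neg_one_pow] at h
  linarith

theorem polyT_le_of_even {f : ι → ℝ} {Q : Finset ι} (h0 : ∀ p ∈ Q, 0 ≤ f p)
    (h1 : ∀ p ∈ Q, f p ≤ 1) {b : ℕ} (hb : Even b) :
    poly (cT b) f Q ≤ ∏ p ∈ Q, (1 - f p) + poly (cE (b + 1)) f Q := by
  have h := bonferroni f Q h0 h1 (b + 1)
  have hodd : (-1 : ℝ) ^ (b + 1) = -1 := by
    rw [pow_succ, hb.neg_one_pow]
    ring
  rw [polyT_succ, hodd] at h
  linarith

/-- Rankin's trick for elementary symmetric sums. -/
theorem rankinE {f : ι → ℝ} {Q : Finset ι} (h0 : ∀ p ∈ Q, 0 ≤ f p) (m : ℕ) {l : ℝ} (hl : 0 ≤ l) :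
    l ^ m * poly (cE m) f Q ≤ ∏ p ∈ Q, (1 + l * f p) := by
  rw [Finset.prod_one_add]
  unfold poly
  rw [Finset.mul_sum]
  refine Finset.sum_le_sum fun D hD => ?_
  have hD' := Finset.mem_powerset.mp hD
  rw [Finset.prod_mul_distrib, Finset.prod_const]
  have hprod : 0 ≤ ∏ p ∈ D, f p := Finset.prod_nonneg fun p hp => h0 p (hD' hp)
  unfold cE
  by_cases h : D.card = m
  · rw [if_pos h, h]
    linarith
  · rw [if_neg h]
    have := mul_nonneg (pow_nonneg hl D.card) hprod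
    linarith

/-- Rankin's trick for truncated sums. -/
theorem rankinA {f : ι → ℝ} {Q : Finset ι} (h0 : ∀ p ∈ Q, 0 ≤ f p) (m : ℕ) {X : ℝ} (hX : 1 ≤ X) :
    poly (cA m) f Q ≤ X ^ m * ∏ p ∈ Q, (1 + f p / X) := by
  rw [Finset.prod_one_add]
  unfold poly
  rw [Finset.mul_sum]
  refine Finset.sum_le_sum fun D hD => ?_
  have hD' := Finset.mem_powerset.mp hD
  have hprod : 0 ≤ ∏ p ∈ D, f p := Finset.prod_nonneg fun p hp => h0 p (hD' hp)
  have hXpos : 0 < X := by linarith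
  rw [Finset.prod_div_distrib, Finset.prod_const]
  unfold cA
  by_cases h : D.card ≤ m
  · rw [if_pos h, one_mul]
    obtain ⟨t, rfl⟩ := Nat.exists_eq_add_of_le h
    rw [pow_add]
    have h1 : X ^ D.card * X ^ t * ((∏ p ∈ D, f p) / X ^ D.card) = X ^ t * ∏ p ∈ D, f p := by
      field_simp
    rw [h1]
    have h2 : (1 : ℝ) ≤ X ^ t := one_le_pow₀ hX
    nlinarith
  · rw [if_neg h, zero_mul]
    positivity

end

section

variable {κ : Type*} [DecidableEq κ]

/-- Hooley's telescoping inequality. -/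
theorem prod_ge_telescope (J : Finset κ) (x y e : κ → ℝ) (hx : ∀ j ∈ J, 0 ≤ x j)
    (hxy : ∀ j ∈ J, x j ≤ y j) (he : ∀ j ∈ J, y j - x j ≤ e j) :
    ∏ j ∈ J, y j - ∑ l ∈ J, e l * ∏ j ∈ J.erase l, y j ≤ ∏ j ∈ J, x j := by
  induction J using Finset.induction_on with
  | empty => simp
  | insert a J ha ih =>
    have ih' := ih (fun j hj => hx j (Finset.mem_insert_of_mem hj))
      (fun j hj => hxy j (Finset.mem_insert_of_mem hj))
      (fun j hj => he j (Finset.mem_insert_of_mem hj))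
    have hxa := hx a (Finset.mem_insert_self a J)
    have hxya := hxy a (Finset.mem_insert_self a J)
    have hea := he a (Finset.mem_insert_self a J)
    have hy : ∀ j ∈ J, 0 ≤ y j := fun j hj =>
      (hx j (Finset.mem_insert_of_mem hj)).trans (hxy j (Finset.mem_insert_of_mem hj))
    have hY : 0 ≤ ∏ j ∈ J, y j := Finset.prod_nonneg hy
    rw [Finset.prod_insert ha, Finset.prod_insert ha, Finset.sum_insert ha,
      Finset.erase_insert ha]
    have hsum : ∑ l ∈ J, e l * ∏ j ∈ (insert a J).erase l, y j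
        = y a * ∑ l ∈ J, e l * ∏ j ∈ J.erase l, y j := by
      rw [Finset.mul_sum]
      refine Finset.sum_congr rfl fun l hl => ?_
      have hla : l ≠ a := fun h => ha (h ▸ hl)
      rw [Finset.erase_insert_of_ne hla.symm, Finset.prod_insert]
      · ring
      · intro h
        exact ha (Finset.mem_of_mem_erase h)
    rw [hsum]
    set S := ∑ l ∈ J, e l * ∏ j ∈ J.erase l, y j with hS
    have hSnn : 0 ≤ S := by
      refine Finset.sum_nonneg fun l hl => mul_nonneg ?_ ?_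
      · have h1 := hxy l (Finset.mem_insert_of_mem hl)
        have h2 := he l (Finset.mem_insert_of_mem hl)
        linarith
      · exact Finset.prod_nonneg fun j hj => hy j (Finset.mem_of_mem_erase hj)
    have h1 : (y a - x a) * ∏ j ∈ J, y j ≤ e a * ∏ j ∈ J, y j :=
      mul_le_mul_of_nonneg_right hea hY
    have h2 : x a * S ≤ y a * S := mul_le_mul_of_nonneg_right hxya hSnn
    have h3 : x a * (∏ j ∈ J, y j - S) ≤ x a * ∏ j ∈ J, x j := mul_le_mul_of_nonneg_left ih' hxa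
    nlinarith

theorem prod_add_ge (J : Finset κ) (r s : κ → ℝ) (hr : ∀ j ∈ J, 0 ≤ r j)
    (hs : ∀ j ∈ J, 0 ≤ s j) :
    ∏ j ∈ J, r j + ∑ l ∈ J, s l * ∏ j ∈ J.erase l, r j ≤ ∏ j ∈ J, (r j + s j) := by
  induction J using Finset.induction_on with
  | empty => simp
  | insert a J ha ih =>
    have ih' := ih (fun j hj => hr j (Finset.mem_insert_of_mem hj))
      (fun j hj => hs j (Finset.mem_insert_of_mem hj))
    have hra := hr a (Finset.mem_insert_self a J)
    have hsa := hs a (Finset.mem_insert_self a J)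
    rw [Finset.prod_insert ha, Finset.prod_insert ha, Finset.sum_insert ha,
      Finset.erase_insert ha]
    have hsum : ∑ l ∈ J, s l * ∏ j ∈ (insert a J).erase l, r j
        = r a * ∑ l ∈ J, s l * ∏ j ∈ J.erase l, r j := by
      rw [Finset.mul_sum]
      refine Finset.sum_congr rfl fun l hl => ?_
      have hla : l ≠ a := fun h => ha (h ▸ hl)
      rw [Finset.erase_insert_of_ne hla.symm, Finset.prod_insert]
      · ring
      · intro h
        exact ha (Finset.mem_of_mem_erase h)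
    rw [hsum]
    set S := ∑ l ∈ J, s l * ∏ j ∈ J.erase l, r j with hS
    have hSnn : 0 ≤ S := by
      refine Finset.sum_nonneg fun l hl => mul_nonneg (hs l (Finset.mem_insert_of_mem hl)) ?_
      exact Finset.prod_nonneg fun j hj =>
        hr j (Finset.mem_insert_of_mem (Finset.mem_of_mem_erase hj))
    have h1 : (r a + s a) * (∏ j ∈ J, r j + S) ≤ (r a + s a) * ∏ j ∈ J, (r j + s j) :=
      mul_le_mul_of_nonneg_left ih' (by linarith)
    have h2 : 0 ≤ s a * S := mul_nonneg hsa hSnn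
    nlinarith

end

end Pool.Agent.Lib.Sieve
end

-- from Lib.Sieve.BrunHooley
section

/-!
# The Brun-Hooley sieve, abstract form
-/

set_option linter.unusedSectionVars false

namespace Pool.Agent.Lib.Sieve

open Finset

section

variable {ι κ α : Type*} [DecidableEq ι] [DecidableEq κ]

/-- Sums over `U` of products of sieve polynomials, attached to disjoint blocks of primes. -/
theorem rep (U : Finset α) (χ : ι → α → ℝ) (g ω : ι → ℝ) (M : ℝ) (P : Finset ι)
    (hC : ∀ E ⊆ P, |∑ u ∈ U, ∏ p ∈ E, χ p u - M * ∏ p ∈ E, g p| ≤ ∏ p ∈ E, ω p)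
    (c : κ → Finset ι → ℝ) (Q : κ → Finset ι) (J : Finset κ)
    (hQ : ∀ j ∈ J, Q j ⊆ P) (hdisj : ∀ i ∈ J, ∀ j ∈ J, i ≠ j → Disjoint (Q i) (Q j)) :
    ∀ E ⊆ P, (∀ j ∈ J, Disjoint E (Q j)) →
      |∑ u ∈ U, (∏ j ∈ J, poly (c j) (fun p => χ p u) (Q j)) * ∏ p ∈ E, χ p u
        - M * (∏ j ∈ J, poly (c j) g (Q j)) * ∏ p ∈ E, g p|
      ≤ (∏ j ∈ J, poly (fun D => |c j D|) ω (Q j)) * ∏ p ∈ E, ω p := by
  induction J using Finset.induction_on with
  | empty =>
    intro E hE _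
    simpa using hC E hE
  | insert a J ha ih =>
    intro E hE hdE
    have ih' := ih (fun j hj => hQ j (Finset.mem_insert_of_mem hj))
      (fun i hi j hj hij => hdisj i (Finset.mem_insert_of_mem hi) j (Finset.mem_insert_of_mem hj) hij)
    -- expand the polynomial of the block `a`
    have key : ∀ D ∈ (Q a).powerset,
        |∑ u ∈ U, (∏ j ∈ J, poly (c j) (fun p => χ p u) (Q j)) * ∏ p ∈ D ∪ E, χ p u
          - M * (∏ j ∈ J, poly (c j) g (Q j)) * ∏ p ∈ D ∪ E, g p|
        ≤ (∏ j ∈ J, poly (fun D => |c j D|) ω (Q j)) * ∏ p ∈ D ∪ E, ω p := by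
      intro D hD
      have hD' := Finset.mem_powerset.mp hD
      apply ih'
      · exact Finset.union_subset (hD'.trans (hQ a (Finset.mem_insert_self a J))) hE
      · intro j hj
        rw [Finset.disjoint_union_left]
        refine ⟨?_, hdE j (Finset.mem_insert_of_mem hj)⟩
        have hne : a ≠ j := fun h => ha (h ▸ hj)
        exact Finset.disjoint_of_subset_left hD'
          (hdisj a (Finset.mem_insert_self a J) j (Finset.mem_insert_of_mem hj) hne)
    have hDE : ∀ D ∈ (Q a).powerset, ∀ f : ι → ℝ,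
        ∏ p ∈ D ∪ E, f p = (∏ p ∈ D, f p) * ∏ p ∈ E, f p := by
      intro D hD f
      apply Finset.prod_union
      exact Finset.disjoint_of_subset_left (Finset.mem_powerset.mp hD)
        (hdE a (Finset.mem_insert_self a J)).symm
    have e1 : ∑ u ∈ U, (∏ j ∈ insert a J, poly (c j) (fun p => χ p u) (Q j)) * ∏ p ∈ E, χ p u
        = ∑ D ∈ (Q a).powerset, c a D *
            ∑ u ∈ U, (∏ j ∈ J, poly (c j) (fun p => χ p u) (Q j)) * ∏ p ∈ D ∪ E, χ p u := by
      simp_rw [Finset.mul_sum]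
      rw [Finset.sum_comm]
      refine Finset.sum_congr rfl fun u _ => ?_
      rw [Finset.prod_insert ha]
      unfold poly
      rw [Finset.sum_mul, Finset.sum_mul]
      refine Finset.sum_congr rfl fun D hD => ?_
      rw [hDE D hD]
      ring
    have e2 : M * (∏ j ∈ insert a J, poly (c j) g (Q j)) * ∏ p ∈ E, g p
        = ∑ D ∈ (Q a).powerset, c a D *
            (M * (∏ j ∈ J, poly (c j) g (Q j)) * ∏ p ∈ D ∪ E, g p) := by
      rw [Finset.prod_insert ha]
      unfold poly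
      rw [Finset.sum_mul, Finset.mul_sum, Finset.sum_mul]
      refine Finset.sum_congr rfl fun D hD => ?_
      rw [hDE D hD]
      ring
    have e3 : (∏ j ∈ insert a J, poly (fun D => |c j D|) ω (Q j)) * ∏ p ∈ E, ω p
        = ∑ D ∈ (Q a).powerset, |c a D| *
            ((∏ j ∈ J, poly (fun D => |c j D|) ω (Q j)) * ∏ p ∈ D ∪ E, ω p) := by
      rw [Finset.prod_insert ha]
      unfold poly
      rw [Finset.sum_mul, Finset.sum_mul]
      refine Finset.sum_congr rfl fun D hD => ?_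
      rw [hDE D hD]
      ring
    rw [e1, e2, e3, ← Finset.sum_sub_distrib]
    refine (Finset.abs_sum_le_sum_abs _ _).trans (Finset.sum_le_sum fun D hD => ?_)
    rw [← mul_sub, abs_mul]
    exact mul_le_mul_of_nonneg_left (key D hD) (abs_nonneg _)

/-- The abstract Brun-Hooley sieve: upper and lower bound for the number (weighted) of `u ∈ U`
avoiding all the classes. -/
theorem brun_hooley (U : Finset α) (χ : ι → α → ℝ) (g ω : ι → ℝ) (M : ℝ) (P : Finset ι)
    (hC : ∀ E ⊆ P, |∑ u ∈ U, ∏ p ∈ E, χ p u - M * ∏ p ∈ E, g p| ≤ ∏ p ∈ E, ω p)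
    (hM : 0 ≤ M) (hχ0 : ∀ p u, 0 ≤ χ p u) (hχ1 : ∀ p u, χ p u ≤ 1)
    (hg0 : ∀ p ∈ P, 0 ≤ g p) (hg1 : ∀ p ∈ P, g p ≤ 1) (hω : ∀ p ∈ P, 0 ≤ ω p)
    (Q : κ → Finset ι) (J : Finset κ) (b : κ → ℕ) (hb : ∀ j ∈ J, Even (b j))
    (hQ : ∀ j ∈ J, Q j ⊆ P) (hdisj : ∀ i ∈ J, ∀ j ∈ J, i ≠ j → Disjoint (Q i) (Q j))
    (ε : κ → ℝ) (hε0 : ∀ j ∈ J, 0 ≤ ε j)
    (hε : ∀ j ∈ J, poly (cE (b j + 1)) g (Q j) ≤ ε j * ∏ p ∈ Q j, (1 - g p))
    (hεsum : ∑ j ∈ J, ε j ≤ 1 / 2) :
    M / 2 * ∏ j ∈ J, ∏ p ∈ Q j, (1 - g p) - ∏ j ∈ J, poly (cA (b j + 1)) ω (Q j)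
      ≤ ∑ u ∈ U, ∏ j ∈ J, ∏ p ∈ Q j, (1 - χ p u) ∧
    ∑ u ∈ U, ∏ j ∈ J, ∏ p ∈ Q j, (1 - χ p u)
      ≤ 2 * M * ∏ j ∈ J, ∏ p ∈ Q j, (1 - g p) + ∏ j ∈ J, poly (cA (b j + 1)) ω (Q j) := by
  -- abbreviations
  set V : κ → ℝ := fun j => ∏ p ∈ Q j, (1 - g p) with hV
  set Tj : κ → ℝ := fun j => poly (cT (b j)) g (Q j) with hT
  set Ej : κ → ℝ := fun j => poly (cE (b j + 1)) g (Q j) with hE
  set r : κ → ℝ := fun j => poly (fun D => |cT (b j) D|) ω (Q j) with hr
  set s : κ → ℝ := fun j => poly (fun D => |cE (b j + 1) D|) ω (Q j) with hs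
  have hVnn : ∀ j ∈ J, 0 ≤ V j := fun j hj =>
    Finset.prod_nonneg fun p hp => by
      have := hg1 p (hQ j hj hp)
      linarith
  have hVT : ∀ j ∈ J, V j ≤ Tj j := fun j hj =>
    le_polyT_of_even (fun p hp => hg0 p (hQ j hj hp)) (fun p hp => hg1 p (hQ j hj hp)) (hb j hj)
  have hTV : ∀ j ∈ J, Tj j ≤ (1 + ε j) * V j := by
    intro j hj
    have h1 := polyT_le_of_even (fun p hp => hg0 p (hQ j hj hp))
      (fun p hp => hg1 p (hQ j hj hp)) (hb j hj)
    have h2 := hε j hj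
    simp only [hT, hV] at *
    linarith
  have hTnn : ∀ j ∈ J, 0 ≤ Tj j := fun j hj => (hVnn j hj).trans (hVT j hj)
  have hrnn : ∀ j ∈ J, 0 ≤ r j := fun j hj =>
    poly_nonneg (fun D => abs_nonneg _) fun p hp => hω p (hQ j hj hp)
  have hsnn : ∀ j ∈ J, 0 ≤ s j := fun j hj =>
    poly_nonneg (fun D => abs_nonneg _) fun p hp => hω p (hQ j hj hp)
  have hrs : ∀ j ∈ J, r j + s j = poly (cA (b j + 1)) ω (Q j) := by
    intro j hj
    simp only [hr, hs]
    rw [← poly_add]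
    congr 1
    funext D
    unfold cT cE cA
    by_cases h1 : D.card ≤ b j
    · rw [if_pos h1, if_neg (by omega), if_pos (by omega)]
      simp
    · by_cases h2 : D.card = b j + 1
      · rw [if_neg h1, if_pos h2, if_pos (by omega)]
        simp
      · rw [if_neg h1, if_neg h2, if_neg (by omega)]
        simp
  have hR : ∏ j ∈ J, r j + ∑ l ∈ J, s l * ∏ j ∈ J.erase l, r j
      ≤ ∏ j ∈ J, poly (cA (b j + 1)) ω (Q j) := by
    refine (prod_add_ge J r s hrnn hsnn).trans (le_of_eq ?_)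
    exact Finset.prod_congr rfl hrs
  have hemp : ∀ j ∈ J, Disjoint (∅ : Finset ι) (Q j) := fun j _ => Finset.disjoint_empty_left _
  -- the main sum
  have main := rep U χ g ω M P hC (fun j => cT (b j)) Q J hQ hdisj ∅ (Finset.empty_subset _) hemp
  simp only [Finset.prod_empty, mul_one] at main
  have main' : |∑ u ∈ U, ∏ j ∈ J, poly (cT (b j)) (fun p => χ p u) (Q j) - M * ∏ j ∈ J, Tj j|
      ≤ ∏ j ∈ J, r j := main
  -- the correction sums
  have corr : ∀ l ∈ J,
      |∑ u ∈ U, poly (cE (b l + 1)) (fun p => χ p u) (Q l) *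
          ∏ j ∈ J.erase l, poly (cT (b j)) (fun p => χ p u) (Q j)
        - M * (Ej l * ∏ j ∈ J.erase l, Tj j)| ≤ s l * ∏ j ∈ J.erase l, r j := by
    intro l hl
    have h := rep U χ g ω M P hC (Function.update (fun j => cT (b j)) l (cE (b l + 1))) Q J hQ
      hdisj ∅ (Finset.empty_subset _) hemp
    simp only [Finset.prod_empty, mul_one] at h
    have hupd : ∀ F : κ → (Finset ι → ℝ) → ℝ,
        ∏ j ∈ J, F j (Function.update (fun j => cT (b j)) l (cE (b l + 1)) j)
          = F l (cE (b l + 1)) * ∏ j ∈ J.erase l, F j (cT (b j)) := by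
      intro F
      rw [← Finset.mul_prod_erase J _ hl]
      rw [Function.update_self]
      congr 1
      refine Finset.prod_congr rfl fun j hj => ?_
      rw [Function.update_of_ne (Finset.ne_of_mem_erase hj)]
    have h1 : ∀ u, ∏ j ∈ J, poly (Function.update (fun j => cT (b j)) l (cE (b l + 1)) j)
        (fun p => χ p u) (Q j) = poly (cE (b l + 1)) (fun p => χ p u) (Q l) *
          ∏ j ∈ J.erase l, poly (cT (b j)) (fun p => χ p u) (Q j) := fun u =>
      hupd (fun j c => poly c (fun p => χ p u) (Q j))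
    have h2 : ∏ j ∈ J, poly (Function.update (fun j => cT (b j)) l (cE (b l + 1)) j) g (Q j)
        = Ej l * ∏ j ∈ J.erase l, Tj j := hupd (fun j c => poly c g (Q j))
    have h3 : ∏ j ∈ J, poly (fun D =>
        |Function.update (fun j => cT (b j)) l (cE (b l + 1)) j D|) ω (Q j)
        = s l * ∏ j ∈ J.erase l, r j := hupd (fun j c => poly (fun D => |c D|) ω (Q j))
    simp_rw [h1] at h
    rw [h2, h3] at h
    exact h
  have hcard : ∀ l ∈ J, Ej l * ∏ j ∈ J.erase l, Tj j ≤ ε l * ∏ j ∈ J, Tj j := by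
    intro l hl
    rw [← Finset.mul_prod_erase J Tj hl, ← mul_assoc]
    apply mul_le_mul_of_nonneg_right
    · have h1 := hε l hl
      have h2 := mul_le_mul_of_nonneg_left (hVT l hl) (hε0 l hl)
      simp only [hE, hV] at *
      linarith
    · exact Finset.prod_nonneg fun j hj => hTnn j (Finset.mem_of_mem_erase hj)
  have hprodT : 0 ≤ ∏ j ∈ J, Tj j := Finset.prod_nonneg hTnn
  have hVT' : ∏ j ∈ J, V j ≤ ∏ j ∈ J, Tj j := Finset.prod_le_prod hVnn hVT
  constructor
  · -- lower bound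
    have hpt : ∀ u ∈ U, ∏ j ∈ J, poly (cT (b j)) (fun p => χ p u) (Q j)
        - ∑ l ∈ J, poly (cE (b l + 1)) (fun p => χ p u) (Q l) *
            ∏ j ∈ J.erase l, poly (cT (b j)) (fun p => χ p u) (Q j)
        ≤ ∏ j ∈ J, ∏ p ∈ Q j, (1 - χ p u) := by
      intro u _
      apply prod_ge_telescope
      · intro j _
        exact Finset.prod_nonneg fun p _ => by linarith [hχ1 p u]
      · intro j hj
        exact le_polyT_of_even (fun p _ => hχ0 p u) (fun p _ => hχ1 p u) (hb j hj)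
      · intro j hj
        have := polyT_le_of_even (f := fun p => χ p u) (Q := Q j) (fun p _ => hχ0 p u)
          (fun p _ => hχ1 p u) (hb j hj)
        linarith
    have hsum := Finset.sum_le_sum hpt
    rw [Finset.sum_sub_distrib, Finset.sum_comm] at hsum
    have h1 := (abs_le.mp main').1
    have h2 : ∑ l ∈ J, ∑ u ∈ U, poly (cE (b l + 1)) (fun p => χ p u) (Q l) *
          ∏ j ∈ J.erase l, poly (cT (b j)) (fun p => χ p u) (Q j)
        ≤ ∑ l ∈ J, (M * (ε l * ∏ j ∈ J, Tj j) + s l * ∏ j ∈ J.erase l, r j) := by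
      refine Finset.sum_le_sum fun l hl => ?_
      have h3 := (abs_le.mp (corr l hl)).2
      have h4 := mul_le_mul_of_nonneg_left (hcard l hl) hM
      linarith
    rw [Finset.sum_add_distrib, ← Finset.mul_sum, ← Finset.sum_mul] at h2
    have h5 : M * ((∑ l ∈ J, ε l) * ∏ j ∈ J, Tj j) ≤ M * (1 / 2 * ∏ j ∈ J, Tj j) :=
      mul_le_mul_of_nonneg_left (mul_le_mul_of_nonneg_right hεsum hprodT) hM
    have h6 : M / 2 * ∏ j ∈ J, V j ≤ M / 2 * ∏ j ∈ J, Tj j :=
      mul_le_mul_of_nonneg_left hVT' (by linarith)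
    simp only [hV] at h6
    linarith
  · -- upper bound
    have hpt : ∀ u ∈ U, ∏ j ∈ J, ∏ p ∈ Q j, (1 - χ p u)
        ≤ ∏ j ∈ J, poly (cT (b j)) (fun p => χ p u) (Q j) := by
      intro u _
      apply Finset.prod_le_prod
      · intro j _
        exact Finset.prod_nonneg fun p _ => by linarith [hχ1 p u]
      · intro j hj
        exact le_polyT_of_even (fun p _ => hχ0 p u) (fun p _ => hχ1 p u) (hb j hj)
    have hsum := Finset.sum_le_sum hpt
    have h1 := (abs_le.mp main').2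
    have h2 : ∏ j ∈ J, Tj j ≤ 2 * ∏ j ∈ J, V j := by
      have h3 : ∏ j ∈ J, Tj j ≤ ∏ j ∈ J, ((1 + ε j) * V j) := Finset.prod_le_prod hTnn hTV
      rw [Finset.prod_mul_distrib] at h3
      have h4 : ∏ j ∈ J, (1 + ε j) ≤ Real.exp (∑ j ∈ J, ε j) := by
        rw [Real.exp_sum]
        refine Finset.prod_le_prod (fun j hj => by linarith [hε0 j hj]) fun j _ => ?_
        have := Real.add_one_le_exp (ε j)
        linarith
      have h5 : Real.exp (∑ j ∈ J, ε j) ≤ Real.exp (1 / 2) := Real.exp_le_exp.mpr hεsum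
      have h6 : Real.exp (1 / 2) ≤ 2 := by
        have h7 : Real.exp (1 / 2) ^ 2 = Real.exp 1 := by
          rw [← Real.exp_nat_mul]
          norm_num
        have h8 := Real.exp_one_lt_d9
        have h9 : 0 < Real.exp (1 / 2) := Real.exp_pos _
        nlinarith
      have h10 : 0 ≤ ∏ j ∈ J, V j := Finset.prod_nonneg hVnn
      calc ∏ j ∈ J, Tj j ≤ (∏ j ∈ J, (1 + ε j)) * ∏ j ∈ J, V j := h3
        _ ≤ 2 * ∏ j ∈ J, V j := mul_le_mul_of_nonneg_right (by linarith) h10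
    have h3 : M * ∏ j ∈ J, Tj j ≤ M * (2 * ∏ j ∈ J, V j) := mul_le_mul_of_nonneg_left h2 hM
    have h4 : ∏ j ∈ J, r j ≤ ∏ j ∈ J, poly (cA (b j + 1)) ω (Q j) := by
      refine le_trans ?_ hR
      have : 0 ≤ ∑ l ∈ J, s l * ∏ j ∈ J.erase l, r j :=
        Finset.sum_nonneg fun l hl => mul_nonneg (hsnn l hl)
          (Finset.prod_nonneg fun j hj => hrnn j (Finset.mem_of_mem_erase hj))
      linarith
    simp only [hV] at h3
    linarith

end

end Pool.Agent.Lib.Sieve
end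

-- from Lib.Sieve.CRT
section

/-!
# Counting integers in an interval lying in prescribed residue classes
-/

namespace Pool.Agent.Lib.Sieve

open Finset

/-- `chi Ω p u = 1` if `u mod p` lies in `Ω p`, and `0` otherwise. -/
noncomputable def chi (Ω : (p : ℕ) → Finset (ZMod p)) (p : ℕ) (u : ℤ) : ℝ :=
  if (u : ZMod p) ∈ Ω p then 1 else 0

theorem chi_nonneg (Ω : (p : ℕ) → Finset (ZMod p)) (p : ℕ) (u : ℤ) : 0 ≤ chi Ω p u := by
  unfold chi
  split_ifs <;> norm_num

theorem chi_le_one (Ω : (p : ℕ) → Finset (ZMod p)) (p : ℕ) (u : ℤ) : chi Ω p u ≤ 1 := by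
  unfold chi
  split_ifs <;> norm_num

theorem count_prog (a : ℤ) (M : ℕ) (q : ℕ) (hq : 0 < q) (c : ℤ) :
    |∑ u ∈ Finset.Ico a (a + M), (if u ≡ c [ZMOD q] then (1 : ℝ) else 0) - M / q| ≤ 1 := by
  have hq' : (0 : ℤ) < (q : ℤ) := by exact_mod_cast hq
  have hqr : (0 : ℝ) < (q : ℝ) := by exact_mod_cast hq
  have h1 : ∑ u ∈ Finset.Ico a (a + M), (if u ≡ c [ZMOD q] then (1 : ℝ) else 0)
      = (((Finset.Ico a (a + M)).filter fun u => u ≡ c [ZMOD q]).card : ℝ) := by
    rw [Finset.card_filter]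
    push_cast
    rfl
  have h2 := Int.Ico_filter_modEq_card a (a + M) hq' c
  have h3 : ((((Finset.Ico a (a + M)).filter fun u => u ≡ c [ZMOD q]).card : ℤ) : ℝ)
      = ((max (⌈((a + M : ℤ) - c : ℚ) / ((q : ℤ) : ℚ)⌉ - ⌈((a : ℤ) - c : ℚ) / ((q : ℤ) : ℚ)⌉) 0 : ℤ) : ℝ) := by
    rw [h2]
  rw [h1]
  have h4 : (((Finset.Ico a (a + M)).filter fun u => u ≡ c [ZMOD q]).card : ℝ)
      = ((max (⌈((a + M : ℤ) - c : ℚ) / ((q : ℤ) : ℚ)⌉ - ⌈((a : ℤ) - c : ℚ) / ((q : ℤ) : ℚ)⌉) 0 : ℤ) : ℝ) := by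
    rw [← h3]
    push_cast
    rfl
  rw [h4]
  set A : ℚ := ((a + M : ℤ) - c : ℚ) / ((q : ℤ) : ℚ) with hA
  set B : ℚ := ((a : ℤ) - c : ℚ) / ((q : ℤ) : ℚ) with hB
  have hAB : A - B = (M : ℚ) / q := by
    rw [hA, hB]
    push_cast
    ring
  have hMnn : (0 : ℚ) ≤ (M : ℚ) / q := by positivity
  have hBA : B ≤ A := by linarith
  have hceil : ⌈B⌉ ≤ ⌈A⌉ := Int.ceil_le_ceil hBA
  rw [max_eq_left (by linarith)]
  have a1 := Int.le_ceil A
  have a2 := Int.ceil_lt_add_one A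
  have b1 := Int.le_ceil B
  have b2 := Int.ceil_lt_add_one B
  have hq1 : ((⌈A⌉ - ⌈B⌉ : ℤ) : ℚ) - (M : ℚ) / q ≤ 1 := by
    push_cast
    linarith
  have hq2 : -1 ≤ ((⌈A⌉ - ⌈B⌉ : ℤ) : ℚ) - (M : ℚ) / q := by
    push_cast
    linarith
  rw [abs_le]
  constructor
  · have h := (Rat.cast_le (K := ℝ)).mpr hq2
    push_cast at h ⊢
    linarith
  · have h := (Rat.cast_le (K := ℝ)).mpr hq1
    push_cast at h ⊢
    linarith

theorem exists_lift (q p : ℕ) (hpp : p.Prime) (hpq : ¬ p ∣ q) (c : ℤ) :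
    ∃ c' : ZMod p → ℤ, ∀ (r : ZMod p) (u : ℤ),
      (u ≡ c' r [ZMOD ((q * p : ℕ) : ℤ)]) ↔ (u ≡ c [ZMOD q] ∧ (u : ZMod p) = r) := by
  have : Fact p.Prime := ⟨hpp⟩
  have hq0 : ((q : ZMod p)) ≠ 0 := by
    intro h
    exact hpq ((ZMod.natCast_eq_zero_iff q p).mp h)
  let c' : ZMod p → ℤ := fun r => c + q * ((((r - (c : ZMod p)) * (q : ZMod p)⁻¹).val : ℕ) : ℤ)
  have hc'q : ∀ r, c' r ≡ c [ZMOD q] := by
    intro r
    simp only [c']
    have : c + q * ((((r - (c : ZMod p)) * (q : ZMod p)⁻¹).val : ℕ) : ℤ) ≡ c + 0 [ZMOD q] := by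
      apply Int.ModEq.add_left
      exact (Int.modEq_zero_iff_dvd.mpr (Dvd.intro _ rfl))
    rwa [add_zero] at this
  have hc'p : ∀ r : ZMod p, ((c' r : ℤ) : ZMod p) = r := by
    intro r
    simp only [c']
    push_cast
    rw [ZMod.natCast_zmod_val]
    field_simp
    ring
  refine ⟨c', fun r u => ?_⟩
  have hcop : ((q : ℤ).natAbs).Coprime ((p : ℤ).natAbs) := by
    simp only [Int.natAbs_natCast]
    exact ((Nat.Prime.coprime_iff_not_dvd hpp).mpr hpq).symm
  rw [Nat.cast_mul, ← Int.modEq_and_modEq_iff_modEq_mul hcop]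
  constructor
  · rintro ⟨h1, h2⟩
    refine ⟨h1.trans (hc'q r), ?_⟩
    have := (ZMod.intCast_eq_intCast_iff u (c' r) p).mpr h2
    rw [this, hc'p r]
  · rintro ⟨h1, h2⟩
    refine ⟨h1.trans (hc'q r).symm, ?_⟩
    apply (ZMod.intCast_eq_intCast_iff u (c' r) p).mp
    rw [h2, hc'p r]

/-- Counting lemma: integers of an interval in prescribed residue classes. -/
theorem count_classes (Ω : (p : ℕ) → Finset (ZMod p)) (a : ℤ) (M : ℕ) (E : Finset ℕ)
    (hE : ∀ p ∈ E, p.Prime) :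
    ∀ q : ℕ, 0 < q → (∀ p ∈ E, ¬ p ∣ q) → ∀ c : ℤ,
      |∑ u ∈ Finset.Ico a (a + M), (if u ≡ c [ZMOD q] then (1 : ℝ) else 0) * ∏ p ∈ E, chi Ω p u
        - (M : ℝ) / q * ∏ p ∈ E, (((Ω p).card : ℝ) / p)| ≤ ∏ p ∈ E, ((Ω p).card : ℝ) := by
  induction E using Finset.induction_on with
  | empty =>
    intro q hq _ c
    simpa using count_prog a M q hq c
  | insert p E hp ih =>
    intro q hq hdvd c
    have hpp : p.Prime := hE p (Finset.mem_insert_self p E)
    have hpq : ¬ p ∣ q := hdvd p (Finset.mem_insert_self p E)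
    have ih' := ih (fun r hr => hE r (Finset.mem_insert_of_mem hr))
    obtain ⟨c', hiff⟩ := exists_lift q p hpp hpq c
    have hchi : ∀ u : ℤ, (if u ≡ c [ZMOD q] then (1 : ℝ) else 0) * chi Ω p u
        = ∑ r ∈ Ω p, (if u ≡ c' r [ZMOD ((q * p : ℕ) : ℤ)] then (1 : ℝ) else 0) := by
      intro u
      have h1 : ∀ r : ZMod p, (if u ≡ c' r [ZMOD ((q * p : ℕ) : ℤ)] then (1 : ℝ) else 0)
          = (if u ≡ c [ZMOD q] then (1 : ℝ) else 0) * (if (u : ZMod p) = r then (1 : ℝ) else 0) := by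
        intro r
        simp only [hiff r u]
        by_cases h1 : u ≡ c [ZMOD q] <;> by_cases h2 : (u : ZMod p) = r <;> simp [h1, h2]
      simp_rw [h1]
      rw [← Finset.mul_sum]
      congr 1
      unfold chi
      rw [Finset.sum_ite_eq]
    have e1 : ∑ u ∈ Finset.Ico a (a + M), (if u ≡ c [ZMOD q] then (1 : ℝ) else 0) *
          ∏ r ∈ insert p E, chi Ω r u
        = ∑ r ∈ Ω p, ∑ u ∈ Finset.Ico a (a + M),
            (if u ≡ c' r [ZMOD ((q * p : ℕ) : ℤ)] then (1 : ℝ) else 0) * ∏ r ∈ E, chi Ω r u := by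
      rw [Finset.sum_comm]
      refine Finset.sum_congr rfl fun u _ => ?_
      rw [Finset.prod_insert hp, ← mul_assoc, hchi u, Finset.sum_mul]
    have e2 : (M : ℝ) / q * ∏ r ∈ insert p E, (((Ω r).card : ℝ) / r)
        = ∑ _r ∈ Ω p, (M : ℝ) / ((q * p : ℕ) : ℝ) * ∏ r ∈ E, (((Ω r).card : ℝ) / r) := by
      rw [Finset.sum_const, nsmul_eq_mul, Finset.prod_insert hp, Nat.cast_mul]
      generalize ∏ r ∈ E, (((Ω r).card : ℝ) / r) = X
      have h : ∀ A B C D : ℝ, A / B * (C / D * X) = C * (A / (B * D) * X) := by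
        intro A B C D
        rw [div_mul_eq_div_div]
        ring
      exact h _ _ _ _
    have e3 : ∏ r ∈ insert p E, ((Ω r).card : ℝ) = ∑ _r ∈ Ω p, ∏ r ∈ E, ((Ω r).card : ℝ) := by
      rw [Finset.sum_const, nsmul_eq_mul, Finset.prod_insert hp]
    rw [e1, e2, e3, ← Finset.sum_sub_distrib]
    refine (Finset.abs_sum_le_sum_abs _ _).trans (Finset.sum_le_sum fun r _ => ?_)
    apply ih' (q * p) (Nat.mul_pos hq hpp.pos)
    intro s hs hdiv
    rcases (Nat.Prime.dvd_mul (hE s (Finset.mem_insert_of_mem hs))).mp hdiv with h | h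
    · exact hdvd s (Finset.mem_insert_of_mem hs) h
    · have := (Nat.prime_dvd_prime_iff_eq (hE s (Finset.mem_insert_of_mem hs)) hpp).mp h
      exact hp (this ▸ hs)

/-- Counting lemma without a progression. -/
theorem count_classes' (Ω : (p : ℕ) → Finset (ZMod p)) (a : ℤ) (M : ℕ) (E : Finset ℕ)
    (hE : ∀ p ∈ E, p.Prime) :
    |∑ u ∈ Finset.Ico a (a + M), ∏ p ∈ E, chi Ω p u
        - (M : ℝ) * ∏ p ∈ E, (((Ω p).card : ℝ) / p)| ≤ ∏ p ∈ E, ((Ω p).card : ℝ) := by
  have h := count_classes Ω a M E hE 1 one_pos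
    (fun p hp hd => (hE p hp).one_lt.ne' (Nat.dvd_one.mp hd)) 0
  have h1 : ∀ u : ℤ, u ≡ 0 [ZMOD ((1 : ℕ) : ℤ)] := fun u => by
    rw [Nat.cast_one]
    exact Int.modEq_one
  have h2 : ∀ u : ℤ, (if u ≡ 0 [ZMOD ((1 : ℕ) : ℤ)] then (1 : ℝ) else 0) = 1 := fun u =>
    if_pos (h1 u)
  simp_rw [h2] at h
  simpa using h

end Pool.Agent.Lib.Sieve
end

-- from Lib.Sieve.PrimeSum
section

/-!
# Elementary bounds for sums over primes
-/

namespace Pool.Agent.Lib.Sieve

open Finset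

/-- The primes `p ≤ n`. -/
def primesUpTo (n : ℕ) : Finset ℕ := (Finset.range (n + 1)).filter Nat.Prime

theorem mem_primesUpTo {n p : ℕ} : p ∈ primesUpTo n ↔ p.Prime ∧ p ≤ n := by
  simp [primesUpTo, and_comm]

theorem prod_pow_dvd_factorial (n : ℕ) : ∏ p ∈ primesUpTo n, p ^ (n / p) ∣ n.factorial := by
  apply Finset.prod_dvd_of_isRelPrime
  · intro p hp q hq hpq
    have hp' := (mem_primesUpTo.mp hp).1
    have hq' := (mem_primesUpTo.mp hq).1
    exact Nat.coprime_iff_isRelPrime.mp (((Nat.coprime_primes hp' hq').mpr hpq).pow _ _)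
  · intro p hp
    have hp' := (mem_primesUpTo.mp hp)
    have h1 : p ^ (n / p) ∣ (p * (n / p)).factorial := by
      have : ∀ m : ℕ, p ^ m ∣ (p * m).factorial := by
        intro m
        induction m with
        | zero => simp
        | succ m ih =>
          rw [pow_succ, Nat.mul_succ]
          have h2 : (p * m + p).factorial = (p * m + p) * (p * m + p - 1).factorial := by
            rw [Nat.mul_factorial_pred]
            have := hp'.1.pos
            omega
          rw [h2, mul_comm (p ^ m) p]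
          apply Nat.mul_dvd_mul
          · exact Dvd.intro (m + 1) (by ring)
          · refine ih.trans (Nat.factorial_dvd_factorial ?_)
            have := hp'.1.pos
            omega
      exact this _
    exact h1.trans (Nat.factorial_dvd_factorial (Nat.mul_div_le n p))

/-- `∑_{p ≤ n} (log p) / p ≤ log n + log 4`. -/
theorem sum_log_div_le (n : ℕ) (hn : 1 ≤ n) :
    ∑ p ∈ primesUpTo n, Real.log p / p ≤ Real.log n + Real.log 4 := by
  have hn' : (0 : ℝ) < n := by exact_mod_cast hn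
  -- logarithm of the divisibility
  have h1 : ∏ p ∈ primesUpTo n, p ^ (n / p) ≤ n ^ n :=
    (Nat.le_of_dvd (Nat.factorial_pos n) (prod_pow_dvd_factorial n)).trans
      (Nat.factorial_le_pow n)
  have h2 : ∑ p ∈ primesUpTo n, ((n / p : ℕ) : ℝ) * Real.log p ≤ n * Real.log n := by
    have h3 : Real.log ((∏ p ∈ primesUpTo n, p ^ (n / p) : ℕ) : ℝ) ≤ Real.log ((n ^ n : ℕ) : ℝ) := by
      apply Real.log_le_log
      · have : 0 < ∏ p ∈ primesUpTo n, p ^ (n / p) := by
          apply Finset.prod_pos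
          intro p hp
          exact pow_pos (mem_primesUpTo.mp hp).1.pos _
        exact_mod_cast this
      · exact_mod_cast h1
    rw [Nat.cast_prod, Real.log_prod] at h3
    · push_cast at h3
      rw [Real.log_pow] at h3
      refine le_trans (le_of_eq ?_) h3
      refine Finset.sum_congr rfl fun p _ => ?_
      rw [Real.log_pow]
    · intro p hp
      have := (mem_primesUpTo.mp hp).1.pos
      positivity
  have h4 : ∑ p ∈ primesUpTo n, Real.log p ≤ n * Real.log 4 := by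
    have h5 : ∏ p ∈ primesUpTo n, p ≤ 4 ^ n := primorial_le_four_pow n
    have h6 : Real.log ((∏ p ∈ primesUpTo n, p : ℕ) : ℝ) ≤ Real.log ((4 ^ n : ℕ) : ℝ) := by
      apply Real.log_le_log
      · have : 0 < ∏ p ∈ primesUpTo n, p := by
          apply Finset.prod_pos
          intro p hp
          exact (mem_primesUpTo.mp hp).1.pos
        exact_mod_cast this
      · exact_mod_cast h5
    rw [Nat.cast_prod, Real.log_prod] at h6
    · push_cast at h6
      rwa [Real.log_pow] at h6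
    · intro p hp
      have := (mem_primesUpTo.mp hp).1.pos
      positivity
  have h7 : (n : ℝ) * ∑ p ∈ primesUpTo n, Real.log p / p
      ≤ ∑ p ∈ primesUpTo n, ((n / p : ℕ) : ℝ) * Real.log p + ∑ p ∈ primesUpTo n, Real.log p := by
    rw [Finset.mul_sum, ← Finset.sum_add_distrib]
    refine Finset.sum_le_sum fun p hp => ?_
    have hp0 : (0 : ℝ) < p := by exact_mod_cast (mem_primesUpTo.mp hp).1.pos
    have hp1 : (1 : ℝ) ≤ p := by exact_mod_cast (mem_primesUpTo.mp hp).1.one_le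
    have hlog : 0 ≤ Real.log p := Real.log_nonneg hp1
    have h8 : (n : ℝ) / p ≤ ((n / p : ℕ) : ℝ) + 1 := by
      rw [div_le_iff₀ hp0]
      have h9 : n < p * (n / p + 1) := Nat.lt_mul_div_succ n (mem_primesUpTo.mp hp).1.pos
      have h10 : (n : ℝ) < p * ((n / p : ℕ) + 1) := by exact_mod_cast h9
      linarith
    have h11 := mul_le_mul_of_nonneg_right h8 hlog
    calc (n : ℝ) * (Real.log p / p) = n / p * Real.log p := by ring
      _ ≤ (((n / p : ℕ) : ℝ) + 1) * Real.log p := h11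
      _ = ((n / p : ℕ) : ℝ) * Real.log p + Real.log p := by ring
  have h12 : (n : ℝ) * ∑ p ∈ primesUpTo n, Real.log p / p ≤ n * (Real.log n + Real.log 4) := by
    linarith
  exact le_of_mul_le_mul_left h12 hn'

/-- `∑_{p ≤ n < p²} 1/p ≤ 6`. -/
theorem sum_inv_le (n : ℕ) :
    ∑ p ∈ (primesUpTo n).filter (fun p => n < p ^ 2), (1 : ℝ) / p ≤ 6 := by
  by_cases hn : n < 2
  · have : (primesUpTo n).filter (fun p => n < p ^ 2) = ∅ := by
      apply Finset.filter_eq_empty_iff.mpr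
      intro p hp
      have h := mem_primesUpTo.mp hp
      have := h.1.two_le
      omega
    rw [this]
    simp
  · push Not at hn
    have hn' : (2 : ℝ) ≤ n := by exact_mod_cast hn
    have hlog2 : Real.log 2 ≤ Real.log n := Real.log_le_log (by norm_num) hn'
    have hlog2' : 0 < Real.log 2 := Real.log_pos (by norm_num)
    have hlogn : 0 < Real.log n := by linarith
    have h1 := sum_log_div_le n (by omega)
    have h4 : Real.log 4 = 2 * Real.log 2 := by
      have : (4 : ℝ) = 2 ^ 2 := by norm_num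
      rw [this, Real.log_pow]
      norm_num
    have h2 : Real.log n / 2 * ∑ p ∈ (primesUpTo n).filter (fun p => n < p ^ 2), (1 : ℝ) / p
        ≤ ∑ p ∈ primesUpTo n, Real.log p / p := by
      rw [Finset.mul_sum]
      refine le_trans (Finset.sum_le_sum (g := fun p : ℕ => Real.log p / p) fun p hp => ?_) ?_
      · have hp' := Finset.mem_filter.mp hp
        have hp0 : (0 : ℝ) < p := by exact_mod_cast (mem_primesUpTo.mp hp'.1).1.pos
        have h3 : Real.log n ≤ 2 * Real.log p := by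
          have : Real.log n ≤ Real.log ((p : ℝ) ^ 2) := by
            apply Real.log_le_log (by linarith)
            have := hp'.2.le
            exact_mod_cast this
          rwa [Real.log_pow, Nat.cast_ofNat] at this
        rw [← mul_div_assoc, mul_one]
        apply div_le_div_of_nonneg_right _ hp0.le
        linarith
      · apply Finset.sum_le_sum_of_subset_of_nonneg (Finset.filter_subset _ _)
        intro p hp _
        have hp1 : (1 : ℝ) ≤ p := by exact_mod_cast (mem_primesUpTo.mp hp).1.one_le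
        have hlog : 0 ≤ Real.log p := Real.log_nonneg hp1
        positivity
    have h5 : Real.log n / 2 * ∑ p ∈ (primesUpTo n).filter (fun p => n < p ^ 2), (1 : ℝ) / p
        ≤ Real.log n / 2 * 6 := by
      refine h2.trans (h1.trans ?_)
      rw [h4]
      linarith
    exact le_of_mul_le_mul_left h5 (by linarith)

end Pool.Agent.Lib.Sieve
end

-- from Lib.Sieve.Fundamental
section

/-!
# A fundamental lemma of sieve theory (Brun-Hooley)

For a fixed dimension `k`, the number of integers `u` in an interval of length `M ≥ z ^ K(k)`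
avoiding at most `k` residue classes modulo each prime `2k + 2 < p ≤ z` lies between
`M V / 4` and `3 M V`, where `V` is the expected density.
-/

namespace Pool.Agent.Lib.Sieve

open Finset

/-- The sifting primes `w < p ≤ z`. -/
def sprimes (w z : ℕ) : Finset ℕ := (primesUpTo z).filter (fun p => w < p)

theorem mem_sprimes {w z p : ℕ} : p ∈ sprimes w z ↔ p.Prime ∧ w < p ∧ p ≤ z := by
  unfold sprimes
  rw [Finset.mem_filter, mem_primesUpTo]
  tauto

/-- The index of the block of the prime `p`. -/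
def blk (z p : ℕ) : ℕ := Nat.log 2 (Nat.log p z)

/-- The `j`-th block of sifting primes. -/
def blockSet (w z j : ℕ) : Finset ℕ := (sprimes w z).filter (fun p => blk z p = j)

theorem mem_blockSet {w z j p : ℕ} :
    p ∈ blockSet w z j ↔ (p.Prime ∧ w < p ∧ p ≤ z) ∧ blk z p = j := by
  unfold blockSet
  rw [Finset.mem_filter, mem_sprimes]

theorem blk_le (z p : ℕ) : blk z p ≤ z :=
  (Nat.log_le_self _ _).trans (Nat.log_le_self _ _)

theorem prod_blocks (w z : ℕ) (f : ℕ → ℝ) :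
    ∏ j ∈ Finset.range (z + 1), ∏ p ∈ blockSet w z j, f p = ∏ p ∈ sprimes w z, f p := by
  unfold blockSet
  apply Finset.prod_fiberwise_of_maps_to
  intro p _
  exact Finset.mem_range.mpr (Nat.lt_succ_of_le (blk_le z p))

theorem blk_spec {z p : ℕ} (hp : p.Prime) (hpz : p ≤ z) :
    p ^ (2 ^ blk z p) ≤ z ∧ z < p ^ (2 ^ (blk z p + 1)) := by
  have hz : z ≠ 0 := by
    have := hp.pos
    omega
  have he : Nat.log p z ≠ 0 := (Nat.log_pos hp.one_lt hpz).ne'
  constructor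
  · calc p ^ (2 ^ blk z p) ≤ p ^ Nat.log p z :=
          Nat.pow_le_pow_right hp.pos (Nat.pow_log_le_self 2 he)
      _ ≤ z := Nat.pow_log_le_self p hz
  · calc z < p ^ (Nat.log p z + 1) := Nat.lt_pow_succ_log_self hp.one_lt z
      _ ≤ p ^ (2 ^ (blk z p + 1)) :=
          Nat.pow_le_pow_right hp.pos (Nat.lt_pow_succ_log_self one_lt_two (Nat.log p z))

theorem block_sq {w z j p y : ℕ} (hp : p ∈ blockSet w z j) (hy : y ∈ blockSet w z j) :
    y < p ^ 2 := by
  rw [mem_blockSet] at hp hy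
  have h1 := (blk_spec hy.1.1 hy.1.2.2).1
  have h2 := (blk_spec hp.1.1 hp.1.2.2).2
  rw [hy.2] at h1
  rw [hp.2] at h2
  have h3 : y ^ (2 ^ j) < (p ^ 2) ^ (2 ^ j) := by
    calc y ^ (2 ^ j) ≤ z := h1
      _ < p ^ (2 ^ (j + 1)) := h2
      _ = (p ^ 2) ^ (2 ^ j) := by rw [← pow_mul, pow_succ, mul_comm]
  exact lt_of_pow_lt_pow_left₀ _ (Nat.zero_le _) h3

/-- The largest prime in a block. -/
def top (w z j : ℕ) : ℕ := (blockSet w z j).sup id

theorem top_mem {w z j : ℕ} (h : (blockSet w z j).Nonempty) : top w z j ∈ blockSet w z j := by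
  obtain ⟨y, hy, hy'⟩ := Finset.exists_mem_eq_sup _ h id
  unfold top
  rw [hy']
  exact hy

theorem le_top {w z j p : ℕ} (h : p ∈ blockSet w z j) : p ≤ top w z j :=
  Finset.le_sup (f := id) h

theorem block_sum_inv (w z j : ℕ) : ∑ p ∈ blockSet w z j, (1 : ℝ) / p ≤ 6 := by
  by_cases h : (blockSet w z j).Nonempty
  · refine le_trans ?_ (sum_inv_le (top w z j))
    apply Finset.sum_le_sum_of_subset_of_nonneg
    · intro p hp
      rw [Finset.mem_filter, mem_primesUpTo]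
      exact ⟨⟨(mem_blockSet.mp hp).1.1, le_top hp⟩, block_sq hp (top_mem h)⟩
    · intro p _ _
      positivity
  · rw [Finset.not_nonempty_iff_eq_empty] at h
    rw [h]
    simp

theorem exp_neg_two_mul_le {x : ℝ} (h0 : 0 ≤ x) (h1 : x ≤ 1 / 2) : Real.exp (-(2 * x)) ≤ 1 - x := by
  rw [Real.exp_neg]
  have h2 : 1 + 2 * x ≤ Real.exp (2 * x) := by
    have := Real.add_one_le_exp (2 * x)
    linarith
  have h3 : 0 < Real.exp (2 * x) := Real.exp_pos _
  rw [inv_le_iff_one_le_mul₀ h3]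
  nlinarith

theorem prod_one_sub_ge {Q : Finset ℕ} {g : ℕ → ℝ} (h0 : ∀ p ∈ Q, 0 ≤ g p)
    (h1 : ∀ p ∈ Q, g p ≤ 1 / 2) :
    Real.exp (-(2 * ∑ p ∈ Q, g p)) ≤ ∏ p ∈ Q, (1 - g p) := by
  rw [Finset.mul_sum, ← Finset.sum_neg_distrib, Real.exp_sum]
  exact Finset.prod_le_prod (fun p _ => (Real.exp_pos _).le)
    fun p hp => exp_neg_two_mul_le (h0 p hp) (h1 p hp)

theorem prod_one_add_le {Q : Finset ℕ} {g : ℕ → ℝ} (h0 : ∀ p ∈ Q, 0 ≤ g p) :
    ∏ p ∈ Q, (1 + g p) ≤ Real.exp (∑ p ∈ Q, g p) := by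
  rw [Real.exp_sum]
  refine Finset.prod_le_prod (fun p hp => by linarith [h0 p hp]) fun p _ => ?_
  have := Real.add_one_le_exp (g p)
  linarith

theorem exp_nat_le (n : ℕ) : Real.exp n ≤ 2 ^ (2 * n) := by
  have h1 : Real.exp (n : ℝ) = Real.exp 1 ^ n := by
    rw [← Real.exp_nat_mul]
    simp
  rw [h1, pow_mul]
  apply pow_le_pow_left₀ (Real.exp_pos _).le
  have := Real.exp_one_lt_d9
  linarith

section

variable (k z : ℕ) (Ω : (p : ℕ) → Finset (ZMod p))

/-- The density of removed classes. -/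
noncomputable def dens (Ω : (p : ℕ) → Finset (ZMod p)) (p : ℕ) : ℝ := ((Ω p).card : ℝ) / p

theorem dens_nonneg (p : ℕ) : 0 ≤ dens Ω p := by
  unfold dens
  positivity

variable {k z Ω}

theorem dens_le {p : ℕ} (h : (Ω p).card ≤ k) : dens Ω p ≤ k * (1 / p) := by
  unfold dens
  rw [mul_one_div]
  apply div_le_div_of_nonneg_right _ (Nat.cast_nonneg _)
  exact_mod_cast h

theorem dens_le_half {p : ℕ} (h : (Ω p).card ≤ k) (hp : 2 * k + 2 < p) : dens Ω p ≤ 1 / 2 := by
  unfold dens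
  have hp0 : (0 : ℝ) < p := by
    have : 0 < p := by omega
    exact_mod_cast this
  rw [div_le_iff₀ hp0]
  have h1 : ((Ω p).card : ℝ) ≤ k := by exact_mod_cast h
  have h2 : (2 * k + 2 : ℝ) < p := by exact_mod_cast hp
  linarith

/-- The exponents `b_j = 48 k + 2 + 2 j`. -/
def bj (k j : ℕ) : ℕ := 48 * k + 2 + 2 * j

theorem bj_even (k j : ℕ) : Even (bj k j) := ⟨24 * k + 1 + j, by unfold bj; ring⟩

/-- The relative error of block `j`. -/
noncomputable def epsj (k j : ℕ) : ℝ := Real.exp (24 * k) / 2 ^ (bj k j + 1)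

theorem epsj_nonneg (k j : ℕ) : 0 ≤ epsj k j := by
  unfold epsj
  positivity

theorem sum_epsj (k n : ℕ) : ∑ j ∈ Finset.range n, epsj k j ≤ 1 / 2 := by
  have h1 : ∀ j, epsj k j ≤ 1 / 8 * (1 / 2) ^ j := by
    intro j
    unfold epsj bj
    have h2 : Real.exp (24 * k) ≤ 2 ^ (48 * k) := by
      have := exp_nat_le (24 * k)
      push_cast at this
      calc Real.exp (24 * k) ≤ 2 ^ (2 * (24 * k)) := this
        _ = 2 ^ (48 * k) := by congr 1; ring
    rw [div_le_iff₀ (by positivity)]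
    have h3 : (1 : ℝ) / 8 * (1 / 2) ^ j * 2 ^ (48 * k + 2 + 2 * j + 1) = 2 ^ (48 * k) * 2 ^ j := by
      rw [one_div_pow]
      have : (2 : ℝ) ^ (48 * k + 2 + 2 * j + 1) = 2 ^ (48 * k) * 8 * (2 ^ j * 2 ^ j) := by
        rw [show 48 * k + 2 + 2 * j + 1 = 48 * k + 3 + (j + j) by ring, pow_add, pow_add, pow_add]
        norm_num
      rw [this]
      have hj : (2 : ℝ) ^ j ≠ 0 := by positivity
      field_simp
    rw [h3]
    have h4 : (1 : ℝ) ≤ 2 ^ j := one_le_pow₀ (by norm_num)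
    have h5 : (0 : ℝ) < 2 ^ (48 * k) := by positivity
    nlinarith
  calc ∑ j ∈ Finset.range n, epsj k j ≤ ∑ j ∈ Finset.range n, 1 / 8 * (1 / 2 : ℝ) ^ j :=
        Finset.sum_le_sum fun j _ => h1 j
    _ = 1 / 8 * ∑ j ∈ Finset.range n, (1 / 2 : ℝ) ^ j := by rw [Finset.mul_sum]
    _ ≤ 1 / 8 * 2 := by
        apply mul_le_mul_of_nonneg_left (sum_geometric_two_le n) (by norm_num)
    _ ≤ 1 / 2 := by norm_num

theorem sum_aux (B : ℝ) (hB : 0 ≤ B) (n : ℕ) :
    ∑ j ∈ Finset.range n, (B + 2 * j) / 2 ^ j ≤ 2 * B + 4 := by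
  have h : ∀ n : ℕ, ∑ j ∈ Finset.range n, (B + 2 * j) / 2 ^ j
      = 2 * B + 4 - (2 * B + 4 * n + 4) / 2 ^ n := by
    intro n
    induction n with
    | zero => simp
    | succ n ih =>
      rw [Finset.sum_range_succ, ih, pow_succ]
      push_cast
      have : (2 : ℝ) ^ n ≠ 0 := by positivity
      field_simp
      ring
  rw [h n]
  have : 0 ≤ (2 * B + 4 * n + 4) / 2 ^ n := by positivity
  linarith

theorem block_E (hΩ : ∀ p, p.Prime → 2 * k + 2 < p → p ≤ z → (Ω p).card ≤ k) (j : ℕ) :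
    poly (cE (bj k j + 1)) (dens Ω) (blockSet (2 * k + 2) z j)
      ≤ epsj k j * ∏ p ∈ blockSet (2 * k + 2) z j, (1 - dens Ω p) := by
  set Q := blockSet (2 * k + 2) z j with hQ
  have hcard : ∀ p ∈ Q, (Ω p).card ≤ k := fun p hp => by
    have h := mem_blockSet.mp hp
    exact hΩ p h.1.1 h.1.2.1 h.1.2.2
  have hg0 : ∀ p ∈ Q, 0 ≤ dens Ω p := fun p _ => dens_nonneg Ω p
  have hg1 : ∀ p ∈ Q, dens Ω p ≤ 1 / 2 := fun p hp =>
    dens_le_half (hcard p hp) (mem_blockSet.mp hp).1.2.1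
  have hsum : ∑ p ∈ Q, dens Ω p ≤ 6 * k := by
    calc ∑ p ∈ Q, dens Ω p ≤ ∑ p ∈ Q, (k : ℝ) * (1 / p) :=
          Finset.sum_le_sum fun p hp => dens_le (hcard p hp)
      _ = k * ∑ p ∈ Q, (1 : ℝ) / p := by rw [Finset.mul_sum]
      _ ≤ k * 6 := mul_le_mul_of_nonneg_left (block_sum_inv _ _ _) (Nat.cast_nonneg _)
      _ = 6 * k := by ring
  have h1 := rankinE hg0 (bj k j + 1) (l := 2) (by norm_num)
  have h2 : ∏ p ∈ Q, (1 + 2 * dens Ω p) ≤ Real.exp (∑ p ∈ Q, 2 * dens Ω p) :=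
    prod_one_add_le fun p hp => by
      have := hg0 p hp
      linarith
  rw [← Finset.mul_sum] at h2
  have h3 : Real.exp (2 * ∑ p ∈ Q, dens Ω p) ≤ Real.exp (12 * k) :=
    Real.exp_le_exp.mpr (by linarith)
  have h4 : Real.exp (-(12 * k)) ≤ ∏ p ∈ Q, (1 - dens Ω p) :=
    (Real.exp_le_exp.mpr (by linarith)).trans (prod_one_sub_ge hg0 hg1)
  have h5 : (0 : ℝ) < 2 ^ (bj k j + 1) := by positivity
  have h6 : poly (cE (bj k j + 1)) (dens Ω) Q ≤ Real.exp (12 * k) / 2 ^ (bj k j + 1) := by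
    rw [le_div_iff₀ h5]
    linarith
  refine h6.trans ?_
  unfold epsj
  have h7 : Real.exp (12 * k) = Real.exp (24 * k) * Real.exp (-(12 * k)) := by
    rw [← Real.exp_add]
    congr 1
    ring
  rw [h7]
  have h8 : 0 ≤ Real.exp (24 * k) / 2 ^ (bj k j + 1) := by positivity
  calc Real.exp (24 * k) * Real.exp (-(12 * k)) / 2 ^ (bj k j + 1)
      = Real.exp (24 * k) / 2 ^ (bj k j + 1) * Real.exp (-(12 * k)) := by ring
    _ ≤ Real.exp (24 * k) / 2 ^ (bj k j + 1) * ∏ p ∈ Q, (1 - dens Ω p) :=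
        mul_le_mul_of_nonneg_left h4 h8

theorem block_R (hz : 2 ≤ z) (hΩ : ∀ p, p.Prime → 2 * k + 2 < p → p ≤ z → (Ω p).card ≤ k)
    (j : ℕ) :
    poly (cA (bj k j + 1)) (fun p => ((Ω p).card : ℝ)) (blockSet (2 * k + 2) z j)
      ≤ Real.exp (2 * ((48 * k + 4 + 2 * j) / 2 ^ j) * Real.log z) := by
  have hz' : (2 : ℝ) ≤ z := by exact_mod_cast hz
  have hlogz : 0 ≤ Real.log z := Real.log_nonneg (by linarith)
  by_cases h : (blockSet (2 * k + 2) z j).Nonempty
  · set Q := blockSet (2 * k + 2) z j with hQ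
    set y := top (2 * k + 2) z j with hy
    have hyQ : y ∈ Q := top_mem h
    have hyw := (mem_blockSet.mp hyQ)
    have hcard : ∀ p ∈ Q, (Ω p).card ≤ k := fun p hp => by
      have h := mem_blockSet.mp hp
      exact hΩ p h.1.1 h.1.2.1 h.1.2.2
    have hy3 : 3 ≤ y := by omega
    have hyr : (3 : ℝ) ≤ y := by exact_mod_cast hy3
    have hky : (k : ℝ) ≤ y := by
      have : k ≤ y := by omega
      exact_mod_cast this
    set X : ℝ := (y : ℝ) ^ 2 with hX
    have hX9 : 9 ≤ X := by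
      rw [hX]
      nlinarith
    have hX1 : 1 ≤ X := by linarith
    have h1 := rankinA (f := fun p => ((Ω p).card : ℝ)) (Q := Q)
      (fun p _ => Nat.cast_nonneg _) (bj k j + 1) hX1
    have h2 : ∏ p ∈ Q, (1 + ((Ω p).card : ℝ) / X) ≤ Real.exp (∑ p ∈ Q, ((Ω p).card : ℝ) / X) :=
      prod_one_add_le fun p hp => by positivity
    have hQcard : (Q.card : ℝ) ≤ y := by
      have : Q ⊆ Finset.Icc 1 y := by
        intro p hp
        rw [Finset.mem_Icc]
        exact ⟨(mem_blockSet.mp hp).1.1.one_le, le_top hp⟩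
      have := Finset.card_le_card this
      rw [Nat.card_Icc] at this
      have h' : Q.card ≤ y := by omega
      exact_mod_cast h'
    have h3 : ∑ p ∈ Q, ((Ω p).card : ℝ) / X ≤ 1 := by
      rw [← Finset.sum_div, div_le_one (by linarith)]
      calc ∑ p ∈ Q, ((Ω p).card : ℝ) ≤ ∑ _p ∈ Q, (k : ℝ) :=
            Finset.sum_le_sum fun p hp => by exact_mod_cast hcard p hp
        _ = Q.card * k := by rw [Finset.sum_const, nsmul_eq_mul]
        _ ≤ y * y := mul_le_mul hQcard hky (Nat.cast_nonneg _) (Nat.cast_nonneg _)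
        _ = X := by rw [hX]; ring
    have h4 : ∏ p ∈ Q, (1 + ((Ω p).card : ℝ) / X) ≤ X := by
      refine h2.trans ((Real.exp_le_exp.mpr h3).trans ?_)
      have := Real.exp_one_lt_d9
      linarith
    have h5 : poly (cA (bj k j + 1)) (fun p => ((Ω p).card : ℝ)) Q ≤ X ^ (bj k j + 2) := by
      refine h1.trans ?_
      calc X ^ (bj k j + 1) * ∏ p ∈ Q, (1 + ((Ω p).card : ℝ) / X)
          ≤ X ^ (bj k j + 1) * X := mul_le_mul_of_nonneg_left h4 (by positivity)
        _ = X ^ (bj k j + 2) := by rw [← pow_succ]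
    refine h5.trans ?_
    -- compare with a power of `z`
    have hylog : (2 : ℝ) ^ j * Real.log y ≤ Real.log z := by
      have h6 := (blk_spec hyw.1.1 hyw.1.2.2).1
      rw [hyw.2] at h6
      have h7 : Real.log ((y : ℝ) ^ (2 ^ j)) ≤ Real.log z := by
        apply Real.log_le_log (by positivity)
        exact_mod_cast h6
      rw [Real.log_pow] at h7
      push_cast at h7
      exact h7
    have hylog' : Real.log y ≤ Real.log z / 2 ^ j := by
      rw [le_div_iff₀ (by positivity)]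
      linarith
    have h8 : X ^ (bj k j + 2) = Real.exp ((2 * (bj k j + 2) : ℕ) * Real.log y) := by
      rw [Real.exp_nat_mul, Real.exp_log (by linarith), hX, ← pow_mul]
    rw [h8]
    apply Real.exp_le_exp.mpr
    have h9 : ((2 * (bj k j + 2) : ℕ) : ℝ) = 2 * (48 * k + 4 + 2 * j) := by
      unfold bj
      push_cast
      ring
    rw [h9]
    calc (2 * (48 * k + 4 + 2 * j) : ℝ) * Real.log y
        ≤ (2 * (48 * k + 4 + 2 * j)) * (Real.log z / 2 ^ j) :=
          mul_le_mul_of_nonneg_left hylog' (by positivity)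
      _ = 2 * ((48 * k + 4 + 2 * j) / 2 ^ j) * Real.log z := by ring
  · rw [Finset.not_nonempty_iff_eq_empty] at h
    rw [h, poly_empty]
    have : cA (bj k j + 1) (∅ : Finset ℕ) = 1 := by simp [cA]
    rw [this]
    apply Real.one_le_exp
    positivity

theorem prod_R (hz : 2 ≤ z) (hΩ : ∀ p, p.Prime → 2 * k + 2 < p → p ≤ z → (Ω p).card ≤ k)
    (n : ℕ) :
    ∏ j ∈ Finset.range n,
        poly (cA (bj k j + 1)) (fun p => ((Ω p).card : ℝ)) (blockSet (2 * k + 2) z j)
      ≤ (z : ℝ) ^ (192 * k + 24) := by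
  have hz' : (2 : ℝ) ≤ z := by exact_mod_cast hz
  have hlogz : 0 ≤ Real.log z := Real.log_nonneg (by linarith)
  calc ∏ j ∈ Finset.range n,
        poly (cA (bj k j + 1)) (fun p => ((Ω p).card : ℝ)) (blockSet (2 * k + 2) z j)
      ≤ ∏ j ∈ Finset.range n, Real.exp (2 * ((48 * k + 4 + 2 * j) / 2 ^ j) * Real.log z) := by
        refine Finset.prod_le_prod (fun j _ => ?_) fun j _ => block_R hz hΩ j
        apply poly_nonneg
        · intro D
          unfold cA
          split_ifs <;> norm_num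
        · intro p _
          positivity
    _ = Real.exp (2 * (∑ j ∈ Finset.range n, ((48 * k + 4 : ℝ) + 2 * j) / 2 ^ j) * Real.log z) := by
        rw [← Real.exp_sum]
        congr 1
        rw [Finset.mul_sum, Finset.sum_mul]
    _ ≤ Real.exp (2 * (2 * (48 * k + 4) + 4) * Real.log z) := by
        apply Real.exp_le_exp.mpr
        apply mul_le_mul_of_nonneg_right _ hlogz
        apply mul_le_mul_of_nonneg_left _ (by norm_num)
        exact sum_aux _ (by positivity) n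
    _ = (z : ℝ) ^ (192 * k + 24) := by
        have : (2 * (2 * (48 * k + 4) + 4) : ℝ) = ((192 * k + 24 : ℕ) : ℝ) := by
          push_cast
          ring
        rw [this, Real.exp_nat_mul, Real.exp_log (by linarith)]

theorem V_lower (hz : 2 ≤ z) (hΩ : ∀ p, p.Prime → 2 * k + 2 < p → p ≤ z → (Ω p).card ≤ k) :
    4 * (z : ℝ) ^ (192 * k + 24)
      ≤ (z : ℝ) ^ (198 * k + 26) * ∏ p ∈ sprimes (2 * k + 2) z, (1 - dens Ω p) := by
  have hz' : (2 : ℝ) ≤ z := by exact_mod_cast hz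
  have hz0 : (0 : ℝ) < z := by linarith
  set Q := sprimes (2 * k + 2) z with hQ
  have hcard : ∀ p ∈ Q, (Ω p).card ≤ k := fun p hp => by
    have h := mem_sprimes.mp hp
    exact hΩ p h.1 h.2.1 h.2.2
  have hg0 : ∀ p ∈ Q, 0 ≤ dens Ω p := fun p _ => dens_nonneg Ω p
  have hg1 : ∀ p ∈ Q, dens Ω p ≤ 1 / 2 := fun p hp =>
    dens_le_half (hcard p hp) (mem_sprimes.mp hp).2.1
  have hharm : ∑ p ∈ Q, (1 : ℝ) / p ≤ 1 + Real.log z := by
    have h1 : ∑ p ∈ Q, (1 : ℝ) / p ≤ ∑ i ∈ Finset.Icc 1 z, (1 : ℝ) / i := by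
      apply Finset.sum_le_sum_of_subset_of_nonneg
      · intro p hp
        rw [Finset.mem_Icc]
        have h := mem_sprimes.mp hp
        exact ⟨h.1.one_le, h.2.2⟩
      · intro p _ _
        positivity
    have h2 : ∑ i ∈ Finset.Icc 1 z, (1 : ℝ) / i = (harmonic z : ℝ) := by
      rw [harmonic_eq_sum_Icc]
      push_cast
      refine Finset.sum_congr rfl fun i _ => ?_
      rw [one_div]
    have h3 := harmonic_le_one_add_log z
    linarith
  have hsum : ∑ p ∈ Q, dens Ω p ≤ k * (1 + Real.log z) := by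
    calc ∑ p ∈ Q, dens Ω p ≤ ∑ p ∈ Q, (k : ℝ) * (1 / p) :=
          Finset.sum_le_sum fun p hp => dens_le (hcard p hp)
      _ = k * ∑ p ∈ Q, (1 : ℝ) / p := by rw [Finset.mul_sum]
      _ ≤ k * (1 + Real.log z) := mul_le_mul_of_nonneg_left hharm (Nat.cast_nonneg _)
  have h1 : Real.exp (-(2 * (k * (1 + Real.log z)))) ≤ ∏ p ∈ Q, (1 - dens Ω p) :=
    (Real.exp_le_exp.mpr (by linarith)).trans (prod_one_sub_ge hg0 hg1)
  have h2 : Real.exp (2 * (k * (1 + Real.log z))) ≤ (z : ℝ) ^ (6 * k) := by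
    have h3 : 2 * (k * (1 + Real.log z)) = ((2 * k : ℕ) : ℝ) + ((2 * k : ℕ) : ℝ) * Real.log z := by
      push_cast
      ring
    rw [h3, Real.exp_add, Real.exp_nat_mul, Real.exp_log hz0]
    have h4 := exp_nat_le (2 * k)
    have h5 : (2 : ℝ) ^ (2 * (2 * k)) ≤ (z : ℝ) ^ (2 * (2 * k)) := pow_le_pow_left₀ (by norm_num) hz' _
    calc Real.exp ((2 * k : ℕ) : ℝ) * (z : ℝ) ^ (2 * k)
        ≤ (z : ℝ) ^ (2 * (2 * k)) * (z : ℝ) ^ (2 * k) :=
          mul_le_mul_of_nonneg_right (h4.trans h5) (by positivity)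
      _ = (z : ℝ) ^ (6 * k) := by
          rw [← pow_add]
          congr 1
          ring
  have h6 : 1 ≤ (z : ℝ) ^ (6 * k) * Real.exp (-(2 * (k * (1 + Real.log z)))) := by
    rw [Real.exp_neg, ← div_eq_mul_inv, one_le_div (Real.exp_pos _)]
    exact h2
  have h7 : 1 ≤ (z : ℝ) ^ (6 * k) * ∏ p ∈ Q, (1 - dens Ω p) :=
    h6.trans (mul_le_mul_of_nonneg_left h1 (by positivity))
  have h8 : (4 : ℝ) ≤ (z : ℝ) ^ 2 := by nlinarith
  have h9 : (z : ℝ) ^ (198 * k + 26) = (z : ℝ) ^ (192 * k + 24) * ((z : ℝ) ^ 2 * (z : ℝ) ^ (6 * k)) := by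
    rw [← pow_add, ← pow_add]
    congr 1
    ring
  rw [h9]
  have h10 : 0 < (z : ℝ) ^ (192 * k + 24) := by positivity
  have h11 : 4 * 1 ≤ (z : ℝ) ^ 2 * ((z : ℝ) ^ (6 * k) * ∏ p ∈ Q, (1 - dens Ω p)) :=
    mul_le_mul h8 h7 (by norm_num) (by positivity)
  calc 4 * (z : ℝ) ^ (192 * k + 24) = (z : ℝ) ^ (192 * k + 24) * (4 * 1) := by ring
    _ ≤ (z : ℝ) ^ (192 * k + 24) *
        ((z : ℝ) ^ 2 * ((z : ℝ) ^ (6 * k) * ∏ p ∈ Q, (1 - dens Ω p))) :=
        mul_le_mul_of_nonneg_left h11 h10.le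
    _ = _ := by ring

/-- **Fundamental lemma** (Brun-Hooley), in terms of weighted sums. -/
theorem fundamental_sum (hz : 2 ≤ z)
    (hΩ : ∀ p, p.Prime → 2 * k + 2 < p → p ≤ z → (Ω p).card ≤ k)
    (a : ℤ) (M : ℕ) (hM : z ^ (198 * k + 26) ≤ M) :
    (M : ℝ) / 4 * ∏ p ∈ sprimes (2 * k + 2) z, (1 - dens Ω p)
      ≤ ∑ u ∈ Finset.Ico a (a + M), ∏ p ∈ sprimes (2 * k + 2) z, (1 - chi Ω p u) ∧
    ∑ u ∈ Finset.Ico a (a + M), ∏ p ∈ sprimes (2 * k + 2) z, (1 - chi Ω p u)
      ≤ 3 * (M : ℝ) * ∏ p ∈ sprimes (2 * k + 2) z, (1 - dens Ω p) := by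
  set P := sprimes (2 * k + 2) z with hP
  have hcard : ∀ p ∈ P, (Ω p).card ≤ k := fun p hp => by
    have h := mem_sprimes.mp hp
    exact hΩ p h.1 h.2.1 h.2.2
  have hmain := brun_hooley (Finset.Ico a (a + M)) (chi Ω) (dens Ω)
    (fun p => ((Ω p).card : ℝ)) M P
    (fun E hE => count_classes' Ω a M E fun p hp => (mem_sprimes.mp (hE hp)).1)
    (Nat.cast_nonneg _) (chi_nonneg Ω) (chi_le_one Ω) (fun p _ => dens_nonneg Ω p)
    (fun p hp => by
      have := dens_le_half (hcard p hp) (mem_sprimes.mp hp).2.1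
      linarith)
    (fun p _ => Nat.cast_nonneg _)
    (blockSet (2 * k + 2) z) (Finset.range (z + 1)) (bj k) (fun j _ => bj_even k j)
    (fun j _ => Finset.filter_subset _ _)
    (fun i _ j _ hij => by
      rw [Finset.disjoint_left]
      intro p hp hp'
      exact hij ((mem_blockSet.mp hp).2.symm.trans (mem_blockSet.mp hp').2))
    (epsj k) (fun j _ => epsj_nonneg k j) (fun j _ => block_E hΩ j) (sum_epsj k (z + 1))
  have hR := prod_R hz hΩ (z + 1)
  have hV := V_lower hz hΩ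
  have hVnn : 0 ≤ ∏ p ∈ P, (1 - dens Ω p) := Finset.prod_nonneg fun p hp => by
    have := dens_le_half (hcard p hp) (mem_sprimes.mp hp).2.1
    linarith
  have hM' : (z : ℝ) ^ (198 * k + 26) ≤ M := by exact_mod_cast hM
  have hMV : (z : ℝ) ^ (198 * k + 26) * ∏ p ∈ P, (1 - dens Ω p) ≤ M * ∏ p ∈ P, (1 - dens Ω p) :=
    mul_le_mul_of_nonneg_right hM' hVnn
  simp_rw [prod_blocks] at hmain
  constructor
  · have := hmain.1
    linarith
  · have := hmain.2
    linarith

end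

end Pool.Agent.Lib.Sieve
end

-- from Lib.Sieve.Averages
section

/-!
# Mertens type upper bound and averages of multiplicative functions
-/

namespace Pool.Agent.Lib.Sieve

open Finset

/-- The reciprocal map as a monoid homomorphism. -/
noncomputable def recHom : ℕ →* ℝ :=
  (invMonoidHom : ℝ →* ℝ).comp (Nat.castRingHom ℝ : ℕ →* ℝ)

theorem recHom_apply (m : ℕ) : recHom m = (m : ℝ)⁻¹ := rfl

/-- `∏_{p ≤ z} (1 - 1/p) ≤ 1 / log z`. -/
theorem prod_one_sub_inv_le (z : ℕ) (hz : 2 ≤ z) :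
    ∏ p ∈ primesUpTo z, (1 - 1 / (p : ℝ)) ≤ 1 / Real.log z := by
  have hz' : (2 : ℝ) ≤ z := by exact_mod_cast hz
  have hlog : 0 < Real.log z := Real.log_pos (by linarith)
  have hnorm : ∀ {p : ℕ}, p.Prime → ‖recHom p‖ < 1 := by
    intro p hp
    rw [recHom_apply, norm_inv, Real.norm_natCast]
    apply inv_lt_one_of_one_lt₀
    exact_mod_cast hp.one_lt
  have h1 := EulerProduct.summable_and_hasSum_smoothNumbers_prod_primesBelow_geometric
    (f := recHom) hnorm (z + 1)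
  obtain ⟨hsum, hhas⟩ := h1
  have h2 : ∏ p ∈ (z + 1).primesBelow, (1 - recHom p)⁻¹
      = (∏ p ∈ primesUpTo z, (1 - 1 / (p : ℝ)))⁻¹ := by
    rw [← Finset.prod_inv_distrib]
    refine Finset.prod_congr rfl fun p _ => ?_
    rw [recHom_apply, one_div]
  rw [h2] at hhas
  -- the sum over `1 ≤ m ≤ z`
  have h3 : ∑ m ∈ Finset.Icc 1 z, ((m : ℝ)⁻¹)
      ≤ (∏ p ∈ primesUpTo z, (1 - 1 / (p : ℝ)))⁻¹ := by
    let s : Finset (Nat.smoothNumbers (z + 1)) :=
      (Finset.Icc 1 z).attach.map ⟨fun m => ⟨m.1, by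
        have hm := Finset.mem_Icc.mp m.2
        exact Nat.mem_smoothNumbers_of_lt (by omega) (by omega)⟩, fun a b hab => by
        apply Subtype.ext
        exact congrArg (fun x => x.1) hab⟩
    have h4 := sum_le_hasSum s (fun i _ => by
      rw [recHom_apply]
      positivity) hhas
    refine le_trans (le_of_eq ?_) h4
    rw [Finset.sum_map]
    simp only [Function.Embedding.coeFn_mk, recHom_apply]
    exact (Finset.sum_attach (Finset.Icc 1 z) fun m => ((m : ℝ)⁻¹)).symm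
  have h5 : Real.log z ≤ ∑ m ∈ Finset.Icc 1 z, ((m : ℝ)⁻¹) := by
    have h6 := log_add_one_le_harmonic z
    rw [harmonic_eq_sum_Icc] at h6
    push_cast at h6
    refine le_trans ?_ h6
    apply Real.log_le_log (by linarith)
    linarith
  have hpos : 0 < ∏ p ∈ primesUpTo z, (1 - 1 / (p : ℝ)) := by
    apply Finset.prod_pos
    intro p hp
    have hp1 : (1 : ℝ) < p := by exact_mod_cast (mem_primesUpTo.mp hp).1.one_lt
    rw [sub_pos, div_lt_one (by linarith)]
    exact hp1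
  have h7 : Real.log z ≤ (∏ p ∈ primesUpTo z, (1 - 1 / (p : ℝ)))⁻¹ := h5.trans h3
  rw [le_div_iff₀ hlog]
  have h8 := mul_le_mul_of_nonneg_left h7 hpos.le
  rwa [mul_inv_cancel₀ hpos.ne'] at h8

/-- Average of a product over the prime factors. -/
theorem sum_prod_primeFactors_le (h : ℕ → ℝ) (h0 : ∀ p, 0 ≤ h p) (N : ℕ) :
    ∑ m ∈ Finset.Icc 1 N, ∏ p ∈ m.primeFactors, (1 + h p)
      ≤ N * ∏ p ∈ primesUpTo N, (1 + h p / p) := by
  have hD0 : ∀ D : Finset ℕ, 0 ≤ ∏ p ∈ D, h p := fun D => Finset.prod_nonneg fun p _ => h0 p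
  have h1 : ∀ m ∈ Finset.Icc 1 N, ∏ p ∈ m.primeFactors, (1 + h p)
      ≤ ∑ D ∈ (primesUpTo N).powerset, if (∏ p ∈ D, p) ∣ m then ∏ p ∈ D, h p else 0 := by
    intro m hm
    rw [Finset.mem_Icc] at hm
    rw [Finset.prod_one_add, ← Finset.sum_filter]
    apply Finset.sum_le_sum_of_subset_of_nonneg
    · intro D hD
      rw [Finset.mem_powerset] at hD
      rw [Finset.mem_filter, Finset.mem_powerset]
      refine ⟨fun p hp => ?_, ?_⟩
      · have hpm := Nat.mem_primeFactors.mp (hD hp)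
        rw [mem_primesUpTo]
        exact ⟨hpm.1, (Nat.le_of_dvd (by omega) hpm.2.1).trans hm.2⟩
      · exact (Finset.prod_dvd_prod_of_subset _ _ _ hD).trans (Nat.prod_primeFactors_dvd m)
    · intro D _ _
      exact hD0 D
  refine (Finset.sum_le_sum h1).trans ?_
  rw [Finset.sum_comm, Finset.prod_one_add, Finset.mul_sum]
  refine Finset.sum_le_sum fun D hD => ?_
  rw [Finset.mem_powerset] at hD
  rw [← Finset.sum_filter, Finset.sum_const, nsmul_eq_mul]
  set d := ∏ p ∈ D, p with hd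
  have hdpos : 0 < d := Finset.prod_pos fun p hp => (mem_primesUpTo.mp (hD hp)).1.pos
  have hcard : (((Finset.Icc 1 N).filter (fun m => d ∣ m)).card : ℝ) ≤ N / d := by
    have h2 : ((Finset.Icc 1 N).filter (fun m => d ∣ m)).card = N / d := by
      have := Nat.Ioc_filter_dvd_card_eq_div N d
      rw [← this]
      congr 1
    rw [h2]
    exact Nat.cast_div_le
  rw [Finset.prod_div_distrib]
  have hdr : (∏ p ∈ D, (p : ℝ)) = d := by
    rw [hd]
    push_cast
    rfl
  rw [hdr]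
  calc (((Finset.Icc 1 N).filter (fun m => d ∣ m)).card : ℝ) * ∏ p ∈ D, h p
      ≤ (N / d) * ∏ p ∈ D, h p := mul_le_mul_of_nonneg_right hcard (hD0 D)
    _ = N * ((∏ p ∈ D, h p) / d) := by ring


end Pool.Agent.Lib.Sieve
end

-- from Lib.Helper57.Mertens
section

/-!
# Mertens-type upper bounds
-/

namespace Pool.Agent.Lib.Helper57

open Finset Pool.Agent.Lib.Sieve

/-- Partial sums of `log p / p`. -/
noncomputable def SL (n : ℕ) : ℝ := ∑ p ∈ primesUpTo n, Real.log p / p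

lemma primesUpTo_succ (n : ℕ) :
    primesUpTo (n + 1) = if (n + 1).Prime then insert (n + 1) (primesUpTo n) else primesUpTo n := by
  unfold primesUpTo
  rw [Finset.range_add_one, Finset.filter_insert]

lemma sum_primesUpTo_succ (n : ℕ) (f : ℕ → ℝ) :
    ∑ p ∈ primesUpTo (n + 1), f p =
      ∑ p ∈ primesUpTo n, f p + if (n + 1).Prime then f (n + 1) else 0 := by
  rw [primesUpTo_succ]
  split_ifs with h
  · rw [Finset.sum_insert, add_comm]
    rw [mem_primesUpTo]; omega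
  · simp

lemma primesUpTo_one : primesUpTo 1 = ∅ := by
  ext p; rw [mem_primesUpTo]; constructor
  · rintro ⟨h1, h2⟩; have := h1.two_le; omega
  · intro h; simp at h

/-- Abel summation. -/
lemma sum_inv_eq (n : ℕ) (hn : 2 ≤ n) :
    ∑ p ∈ primesUpTo n, (1 : ℝ) / p = SL n / Real.log n +
      ∑ m ∈ Finset.Ico 2 n, SL m * (1 / Real.log m - 1 / Real.log (m + 1 : ℕ)) := by
  induction n, hn using Nat.le_induction with
  | base =>
    have h1 := sum_primesUpTo_succ 1 (fun p => (1 : ℝ) / p)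
    have h2 := sum_primesUpTo_succ 1 (fun p => Real.log p / p)
    rw [primesUpTo_one] at h1 h2
    norm_num at h1 h2
    unfold SL
    rw [h2]
    have h3 : Real.log 2 ≠ 0 := (Real.log_pos (by norm_num)).ne'
    simp only [Finset.Ico_self, Finset.sum_empty, add_zero]
    simp only [one_div]
    rw [h1]
    push_cast
    field_simp
  | succ n hn ih =>
    rw [sum_primesUpTo_succ, Finset.sum_Ico_succ_top hn, ih]
    have h2 : SL (n + 1) = SL n + if (n + 1).Prime then Real.log (n + 1 : ℕ) / (n + 1 : ℕ) else 0 := by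
      unfold SL
      rw [sum_primesUpTo_succ n (fun p => Real.log p / p)]
    rw [h2]
    have h3 : Real.log (n + 1 : ℕ) ≠ 0 := by
      apply (Real.log_pos _).ne'
      have : (2 : ℝ) ≤ n := by exact_mod_cast hn
      push_cast; linarith
    have h4 : Real.log (n : ℕ) ≠ 0 := by
      apply (Real.log_pos _).ne'
      have : (2 : ℝ) ≤ n := by exact_mod_cast hn
      linarith
    split_ifs with hp
    · field_simp
      ring
    · field_simp
      ring

/-- `∑_{p ≤ n} 1/p ≤ log log n + 4`. -/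
lemma sum_inv_primes_le (n : ℕ) (hn : 2 ≤ n) :
    ∑ p ∈ primesUpTo n, (1 : ℝ) / p ≤ Real.log (Real.log n) + 4 := by
  rw [sum_inv_eq n hn]
  have hn' : (2 : ℝ) ≤ n := by exact_mod_cast hn
  have hlog2 : 0 < Real.log 2 := Real.log_pos (by norm_num)
  have hlogn : 0 < Real.log n := Real.log_pos (by linarith)
  have h0 : SL n / Real.log n ≤ 1 + Real.log 4 / Real.log n := by
    rw [div_le_iff₀ hlogn]
    have := sum_log_div_le n (by omega)
    unfold SL
    field_simp
    linarith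
  have h1 : ∀ m ∈ Finset.Ico 2 n, SL m * (1 / Real.log m - 1 / Real.log (m + 1 : ℕ)) ≤
      (Real.log (Real.log (m + 1 : ℕ)) - Real.log (Real.log m)) +
        Real.log 4 * (1 / Real.log m - 1 / Real.log (m + 1 : ℕ)) := by
    intro m hm
    rw [Finset.mem_Ico] at hm
    have hm' : (2 : ℝ) ≤ m := by exact_mod_cast hm.1
    have hlm : 0 < Real.log m := Real.log_pos (by linarith)
    have hlm1 : Real.log m < Real.log (m + 1 : ℕ) := by
      apply Real.log_lt_log (by linarith)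
      push_cast; linarith
    have hlm2 : 0 < Real.log (m + 1 : ℕ) := hlm.trans hlm1
    have h2 : 0 ≤ 1 / Real.log m - 1 / Real.log (m + 1 : ℕ) := by
      rw [sub_nonneg]
      exact one_div_le_one_div_of_le hlm hlm1.le
    have h3 : SL m ≤ Real.log m + Real.log 4 := sum_log_div_le m (by omega)
    calc SL m * (1 / Real.log m - 1 / Real.log (m + 1 : ℕ))
        ≤ (Real.log m + Real.log 4) * (1 / Real.log m - 1 / Real.log (m + 1 : ℕ)) :=
          mul_le_mul_of_nonneg_right h3 h2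
      _ = (1 - Real.log m / Real.log (m + 1 : ℕ)) +
          Real.log 4 * (1 / Real.log m - 1 / Real.log (m + 1 : ℕ)) := by
          field_simp
      _ ≤ _ := by
          have h5 := Real.one_sub_inv_le_log_of_pos (x := Real.log (m + 1 : ℕ) / Real.log m)
            (by positivity)
          rw [Real.log_div hlm2.ne' hlm.ne', inv_div] at h5
          linarith
  have h2 := Finset.sum_le_sum h1
  rw [Finset.sum_add_distrib, ← Finset.mul_sum] at h2
  have h3 : ∀ f : ℕ → ℝ, ∑ m ∈ Finset.Ico 2 n, (f (m + 1) - f m) = f n - f 2 := by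
    intro f
    exact Finset.sum_Ico_sub f hn
  have h4 := h3 (fun m => Real.log (Real.log m))
  have h5 := h3 (fun m => -(1 / Real.log m))
  have h6 : ∑ m ∈ Finset.Ico 2 n, (1 / Real.log m - 1 / Real.log (m + 1 : ℕ)) =
      1 / Real.log 2 - 1 / Real.log n := by
    rw [← sub_eq_zero]
    have : ∑ m ∈ Finset.Ico 2 n, (1 / Real.log m - 1 / Real.log (m + 1 : ℕ)) =
      ∑ m ∈ Finset.Ico 2 n, (-(1 / Real.log (m + 1 : ℕ)) - -(1 / Real.log m)) := by
      apply Finset.sum_congr rfl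
      intro m _
      ring
    rw [this, h5]
    push_cast
    ring
  rw [h4, h6] at h2
  have h7 : Real.log 4 = 2 * Real.log 2 := by
    rw [show (4 : ℝ) = 2 ^ 2 by norm_num, Real.log_pow]; push_cast; ring
  have h8 : Real.log 4 * (1 / Real.log 2 - 1 / Real.log n) = 2 - Real.log 4 / Real.log n := by
    rw [h7]; field_simp
  rw [h8] at h2
  -- `- log log 2 ≤ 1/2`
  have h9 : -(1 : ℝ) ≤ Real.log (Real.log 2) := by
    rw [Real.le_log_iff_exp_le hlog2]
    have h10 := Real.exp_neg_one_lt_d9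
    have h11 := Real.log_two_gt_d9
    linarith
  push_cast at h2 ⊢
  have h2' : ∑ m ∈ Finset.Ico 2 n, SL m * (1 / Real.log m - 1 / Real.log (m + 1)) ≤
      (Real.log (Real.log n) - Real.log (Real.log 2)) + (2 - Real.log 4 / Real.log n) := h2
  linarith

lemma neg_log_one_sub_le {t : ℝ} (h0 : 0 ≤ t) (h1 : t ≤ 1 / 2) :
    -Real.log (1 - t) ≤ t + 2 * t ^ 2 := by
  have _ := h0
  have h2 : 0 < 1 - t := by linarith
  rw [← Real.log_inv]
  have h3 := Real.log_le_sub_one_of_pos (inv_pos.mpr h2)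
  refine h3.trans ?_
  rw [show (1 - t)⁻¹ - 1 = t / (1 - t) by field_simp; ring]
  rw [div_le_iff₀ h2]
  nlinarith [mul_nonneg h0 h0, mul_nonneg (mul_nonneg h0 h0) h0]

lemma sum_inv_sq_primes_le (S : Finset ℕ) (m : ℕ) (hm : 1 ≤ m) (hS : ∀ p ∈ S, m < p) :
    ∑ p ∈ S, (1 : ℝ) / (p : ℝ) ^ 2 ≤ 1 / m := by
  obtain ⟨N, hN⟩ : ∃ N, ∀ p ∈ S, p ≤ N := ⟨S.sup id, fun p hp => Finset.le_sup (f := id) hp⟩
  have h1 : ∀ n : ℕ, m ≤ n → ∑ p ∈ Finset.Ioc m n, (1 : ℝ) / (p : ℝ) ^ 2 ≤ 1 / m - 1 / n := by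
    intro n hn
    induction n, hn using Nat.le_induction with
    | base => simp
    | succ n hn ih =>
      rw [← Finset.insert_Ioc_right_eq_Ioc_add_one (by omega), Finset.sum_insert (by simp)]
      have hn' : (0 : ℝ) < n := by
        have : 1 ≤ n := hm.trans hn
        exact_mod_cast this
      have h3 : (1 : ℝ) / ((n + 1 : ℕ) : ℝ) ^ 2 ≤ 1 / n - 1 / (n + 1 : ℕ) := by
        push_cast
        rw [div_sub_div _ _ hn'.ne' (by positivity), div_le_div_iff₀ (by positivity) (by positivity)]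
        nlinarith
      linarith
  rcases le_or_gt m N with h | h
  · calc ∑ p ∈ S, (1 : ℝ) / (p : ℝ) ^ 2 ≤ ∑ p ∈ Finset.Ioc m N, (1 : ℝ) / (p : ℝ) ^ 2 := by
          apply Finset.sum_le_sum_of_subset_of_nonneg
          · intro p hp
            rw [Finset.mem_Ioc]
            exact ⟨hS p hp, hN p hp⟩
          · intro p _ _
            positivity
      _ ≤ 1 / m - 1 / N := h1 N h
      _ ≤ 1 / m := by
          have : (0 : ℝ) ≤ 1 / N := by positivity
          linarith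
  · have : S = ∅ := by
      rw [Finset.eq_empty_iff_forall_notMem]
      intro p hp
      have := hS p hp
      have := hN p hp
      omega
    rw [this]
    simp

/-- `∏_{p ≤ n} (1 - 1/p)⁻¹ ≤ 500 log n`. -/
lemma prod_one_sub_inv_inv_le (n : ℕ) (hn : 2 ≤ n) :
    ∏ p ∈ primesUpTo n, (1 - 1 / (p : ℝ))⁻¹ ≤ 500 * Real.log n := by
  have hn' : (2 : ℝ) ≤ n := by exact_mod_cast hn
  have hlogn : 0 < Real.log n := Real.log_pos (by linarith)
  have h1 : ∀ p ∈ primesUpTo n, (1 - 1 / (p : ℝ))⁻¹ ≤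
      Real.exp (1 / p + 2 * (1 / (p : ℝ) ^ 2)) := by
    intro p hp
    have hp2 : (2 : ℝ) ≤ p := by exact_mod_cast (mem_primesUpTo.mp hp).1.two_le
    have h2 : (1 : ℝ) / p ≤ 1 / 2 := one_div_le_one_div_of_le (by norm_num) hp2
    have h3 := neg_log_one_sub_le (t := 1 / (p : ℝ)) (by positivity) h2
    have h4 : 0 < 1 - 1 / (p : ℝ) := by linarith
    rw [← Real.log_le_iff_le_exp (inv_pos.mpr h4), Real.log_inv]
    calc _ ≤ _ := h3
      _ = _ := by ring
  calc ∏ p ∈ primesUpTo n, (1 - 1 / (p : ℝ))⁻¹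
      ≤ ∏ p ∈ primesUpTo n, Real.exp (1 / p + 2 * (1 / (p : ℝ) ^ 2)) := by
        apply Finset.prod_le_prod
        · intro p hp
          have hp2 : (2 : ℝ) ≤ p := by exact_mod_cast (mem_primesUpTo.mp hp).1.two_le
          have h2 : (1 : ℝ) / p ≤ 1 / 2 := one_div_le_one_div_of_le (by norm_num) hp2
          have h4 : 0 < 1 - 1 / (p : ℝ) := by linarith
          exact (inv_pos.mpr h4).le
        · exact h1
    _ = Real.exp (∑ p ∈ primesUpTo n, (1 : ℝ) / p + 2 * ∑ p ∈ primesUpTo n, 1 / (p : ℝ) ^ 2) := by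
        rw [← Real.exp_sum, Finset.sum_add_distrib, ← Finset.mul_sum]
    _ ≤ Real.exp (Real.log (Real.log n) + 6) := by
        apply Real.exp_le_exp.mpr
        have h5 := sum_inv_primes_le n hn
        have h6 := sum_inv_sq_primes_le (primesUpTo n) 1 le_rfl
          (fun p hp => (mem_primesUpTo.mp hp).1.one_lt)
        norm_num at h6 ⊢
        norm_num at h5
        linarith
    _ = Real.exp 6 * Real.log n := by
        rw [Real.exp_add, Real.exp_log hlogn]; ring
    _ ≤ 500 * Real.log n := by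
        apply mul_le_mul_of_nonneg_right _ hlogn.le
        have h7 : Real.exp 1 ≤ 2.7183 := by linarith [Real.exp_one_lt_d9]
        have h8 : Real.exp 6 = Real.exp 1 ^ 6 := by rw [← Real.exp_nat_mul]; norm_num
        rw [h8]
        calc Real.exp 1 ^ 6 ≤ 2.7183 ^ 6 := pow_le_pow_left₀ (Real.exp_pos 1).le h7 6
          _ ≤ 500 := by norm_num

end Pool.Agent.Lib.Helper57
end
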