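import Mathlib
import Pool.Agent.Lib.H1M.RV3.M014

/-! Merged copies (to shorten the build) of Lib.H3B.A3. -/

-- from Lib.H3B.A3
section

/-! # H3B (MP_443e5f, candidate T, module B), chunk A3 -/

namespace Pool.Agent.H3B

open Finset
open Pool.Agent.H44W (ee TF cut)

/-- The twist of the autocorrelation. -/
theorem a3_R (θ : ℝ) (u : ℤ → ℂ) (k : ℤ) : R (tw θ u) k = R u k * ee (θ * k) := by
  unfold R tw
  rw [← tsum_mul_right]
  refine tsum_congr fun y => ?_
  rw [map_mul, ee_conj]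
  have h1 : ee (θ * k) = ee (-(θ * y)) * ee (-(-(θ * ((y + k : ℤ) : ℝ)))) := by
    rw [← ee_add]
    have h2 : θ * (k : ℝ) = -(θ * y) + -(-(θ * ((y + k : ℤ) : ℝ))) := by push_cast; ring
    rw [← h2]
  rw [h1]
  ring

theorem a3_fin {N : ℕ} {w : ℤ → ℂ} (h : Sp N w) {m : ℕ} (hm : 0 < m) (r : ℤ) :
    (Function.support fun v : ℤ => w (r + m * v)).Finite := by
  have hinj : Function.Injective fun v : ℤ => r + (m : ℤ) * v := by
    intro a b hab
    have hm' : (m : ℤ) ≠ 0 := by exact_mod_cast hm.ne'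
    exact mul_left_cancel₀ hm' (add_left_cancel hab)
  exact Set.Finite.preimage (f := fun v : ℤ => r + (m : ℤ) * v) hinj.injOn h.finite

theorem a3_class {N : ℕ} {w : ℤ → ℂ} (h : Sp N w) {m : ℕ} (hm : 0 < m) (r : ℤ) :
    ((‖∑' v : ℤ, w (r + m * v)‖ ^ 2 : ℝ) : ℂ) =
      ∑ l ∈ Icc (-(2 * N : ℤ)) (2 * N), ∑' v : ℤ, w (r + m * v) * (starRingEnd ℂ) (w (r + m * v + m * l)) := by
  have h1 : ((‖∑' v : ℤ, w (r + m * v)‖ ^ 2 : ℝ) : ℂ) = ∑' v : ℤ, w (r + m * v) * (starRingEnd ℂ) (∑' v' : ℤ, w (r + m * v')) := by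
    rw [tsum_mul_right, Complex.mul_conj, Complex.normSq_eq_norm_sq]
  have h2 : ∀ v : ℤ, w (r + m * v) * (starRingEnd ℂ) (∑' v' : ℤ, w (r + m * v')) =
      ∑ l ∈ Icc (-(2 * N : ℤ)) (2 * N), w (r + m * v) * (starRingEnd ℂ) (w (r + m * v + m * l)) := by
    intro v
    by_cases hv : w (r + m * v) = 0
    · rw [hv]; simp
    rw [← mul_sum]
    have h3 : ∑' v' : ℤ, w (r + m * v') = ∑' l : ℤ, w (r + m * v + m * l) := by
      have h4 := (Equiv.addLeft v).tsum_eq (fun v' : ℤ => w (r + m * v'))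
      rw [← h4]
      refine tsum_congr fun l => ?_
      have h5 : r + (m : ℤ) * ((Equiv.addLeft v) l) = r + m * v + m * l := by
        simp only [Equiv.coe_addLeft]
        ring
      rw [h5]
    have h4 : ∑' l : ℤ, w (r + m * v + m * l) = ∑ l ∈ Icc (-(2 * N : ℤ)) (2 * N), w (r + m * v + m * l) := by
      refine tsum_eq_sum fun l hl => ?_
      by_contra h0
      apply hl
      have h5 := h _ hv
      have h6 := h _ h0
      have h7 : |(m : ℤ) * l| ≤ |r + m * v + m * l| + |r + m * v| := by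
        have := abs_sub (r + m * v + m * l) (r + m * v)
        simpa using this
      have h8 : |l| ≤ |(m : ℤ) * l| := by
        rw [abs_mul]
        have h9 : (1 : ℤ) ≤ |(m : ℤ)| := by
          rw [abs_of_nonneg (by positivity)]
          exact_mod_cast hm
        nlinarith [abs_nonneg l]
      have h9 : |l| ≤ 2 * N := by linarith
      exact mem_Icc.2 (abs_le.1 h9)
    rw [h3, h4, map_sum]
  rw [h1, tsum_congr h2]
  refine Summable.tsum_finsetSum fun l _ => ?_
  refine summable_of_hasFiniteSupport ?_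
  refine (a3_fin h hm r).subset fun v hv => ?_
  exact left_ne_zero_of_mul hv

theorem a3_E {N : ℕ} {w : ℤ → ℂ} (h : Sp N w) {m : ℕ} (hm : 0 < m) :
    ((E m w : ℝ) : ℂ) = ∑ l ∈ Icc (-(2 * N : ℤ)) (2 * N), R w (m * l) := by
  unfold E
  rw [Complex.ofReal_sum]
  have h1 : ∀ r ∈ range m, ((‖∑' v : ℤ, w ((r : ℤ) + m * v)‖ ^ 2 : ℝ) : ℂ) =
      ∑ l ∈ Icc (-(2 * N : ℤ)) (2 * N), ∑' v : ℤ, w ((r : ℤ) + m * v) * (starRingEnd ℂ) (w ((r : ℤ) + m * v + m * l)) :=
    fun r _ => a3_class h hm r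
  rw [sum_congr rfl h1, sum_comm]
  refine sum_congr rfl fun l _ => ?_
  unfold R
  exact (tsum_res (h.mul_right fun y => (starRingEnd ℂ) (w (y + m * l))) hm).symm

/-- Chunk A3 (M). PROOF. First j > 0, j = m. For each r: the square of the norm of ∑' v, w (r + m v), w = tw (φ / m) u, is ∑' v, ∑' v', w (r + m v) conj w (r + m v') = ∑' l, ∑' v,
w (r + m v) conj w (r + m v + m l) (finite sums: v ↦ w (r + m v) vanishes for |v| > 2 N + m; l is in Icc (-2N) (2N) because |m l| ≤ 2 N). Sum over r: tsum_res for the function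
y ↦ w y conj w (y + m l) gives R w (m l), and w y conj w (y + m l) = u y conj u (y + m l) ee (φ l) (ee_add, ee_conj: -(θ y) + θ (y + m l) = φ l for θ = φ / m).
For j < 0: j = -m, φ / j = (-φ) / m, and l ↦ -l. Suggestion: prove it first without the twist: (E m w : ℂ) = ∑ l ∈ Icc (-2N) (2N), R w (m * l). -/
theorem E_exp {N : ℕ} {u : ℤ → ℂ} (h : Sp N u) {j : ℤ} (hj : j ≠ 0) (φ : ℝ) :
    ((E j.natAbs (tw (φ / j) u) : ℝ) : ℂ) = ∑ l ∈ Icc (-(2 * N : ℤ)) (2 * N), R u (j * l) * ee (φ * l) := by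
  have hm : 0 < j.natAbs := Int.natAbs_pos.2 hj
  have hjR : (j : ℝ) ≠ 0 := by exact_mod_cast hj
  rw [a3_E (h.tw _) hm]
  have h1 : ∀ l : ℤ, R (tw (φ / j) u) (j.natAbs * l) = R u (j.natAbs * l) * ee (φ / j * (((j.natAbs : ℤ) * l : ℤ) : ℝ)) :=
    fun l => a3_R _ _ _
  simp only [h1]
  rcases lt_or_gt_of_ne hj with hj0 | hj0
  · have h2 : (j.natAbs : ℤ) = -j := by omega
    refine sum_nbij' (fun l => -l) (fun l => -l) ?_ ?_ ?_ ?_ ?_
    · intro l hl
      rw [mem_Icc] at hl ⊢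
      omega
    · intro l hl
      rw [mem_Icc] at hl ⊢
      omega
    · intro l _; exact neg_neg l
    · intro l _; exact neg_neg l
    · intro l _
      rw [h2]
      have h3 : -j * l = j * -l := by ring
      have h4 : φ / (j : ℝ) * ((j * -l : ℤ) : ℝ) = φ * ((-l : ℤ) : ℝ) := by
        push_cast
        field_simp
      rw [h3, h4]
  · have h2 : (j.natAbs : ℤ) = j := by omega
    refine sum_congr rfl fun l _ => ?_
    rw [h2]
    have h4 : φ / (j : ℝ) * ((j * l : ℤ) : ℝ) = φ * (l : ℝ) := by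
      push_cast
      field_simp
    rw [h4]

/-- Chunk A3b (S). Outside of this range the autocorrelation vanishes. -/
theorem R_out {N : ℕ} {u : ℤ → ℂ} (h : Sp N u) {q : ℤ} (hq : 2 * (N : ℤ) < |q|) : R u q = 0 := by
  unfold R
  have h1 : ∀ y, u y * (starRingEnd ℂ) (u (y + q)) = 0 := by
    intro y
    by_contra h0
    have h2 : u y ≠ 0 := left_ne_zero_of_mul h0
    have h3 : u (y + q) ≠ 0 := by
      intro h4
      apply h0
      rw [h4, map_zero, mul_zero]
    have h4 := h y h2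
    have h5 := h (y + q) h3
    have h6 : |q| ≤ |y + q| + |y| := by
      have := abs_sub (y + q) y
      simpa using this
    omega
  simp only [h1, tsum_zero]

end Pool.Agent.H3B
end
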