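import Mathlib
import Pool.Agent.Lib.H1M.RV3.M001
import Pool.Agent.Lib.H1M.RV3.M003
import Pool.Agent.Lib.H1M.RV3.M006
import Pool.Agent.Lib.H1M.RV3.M019

/-! Merged copies (to shorten the build) of Lib.H15P.LV1, Lib.H92G.Defs, Lib.H92G.G0, Lib.H92G.G1, Lib.H92G.G3, Lib.H92G.G5, Lib.H92G.WG, Lib.H15P.PB6, Lib.H92G.G2, Lib.H92G.W1, Lib.Helper57.PairCount, Lib.H59C.BV1D, Lib.H15P.NT1, Lib.H92G.E6, Lib.H59C.BV1A, Lib.H59C.BV1B, Lib.H59C.TY1, Lib.H59C.MER0, Lib.H59C.CDefs, Lib.H59C.C0, Lib.H59C.CDL. -/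

-- from Lib.H15P.LV1
section

/-!
# Chunk LV1: the level norm
-/

open Finset

namespace Pool.Agent.Lib.H15P

variable {Q : ℕ}

theorem Lev.nonneg {G : ℕ → ℝ} {K : ℝ} (h : Lev Q G K) : 0 ≤ K := by
  induction h with
  | base g d c hd0 hd hper hc =>
    have hc0 : 0 ≤ c := le_trans (abs_nonneg _) (hc 0)
    positivity
  | add G G' K K' h h' ih ih' => exact add_nonneg ih ih'
  | mono G K K' h hK ih => exact ih.trans hK

theorem Lev.const (hQ : 0 < Q) (c : ℝ) : Lev Q (fun _ => c) |c| := by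
  have h := Lev.base (Q := Q) (fun _ => c) 1 |c| one_pos (one_dvd Q) (fun _ => rfl)
    (fun _ => le_rfl)
  exact Lev.mono _ _ _ h (by simp)

theorem Lev.const_mul {G : ℕ → ℝ} {K : ℝ} (h : Lev Q G K) (c : ℝ) :
    Lev Q (fun t => c * G t) (|c| * K) := by
  induction h with
  | base g d c' hd0 hd hper hc =>
    have h1 := Lev.base (Q := Q) (fun t => c * g t) d (|c| * c') hd0 hd
      (fun t => by simp only [hper t]) (fun t => by
        rw [abs_mul]
        exact mul_le_mul_of_nonneg_left (hc t) (abs_nonneg c))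
    exact Lev.mono _ _ _ h1 (by nlinarith)
  | add G G' K K' h h' ih ih' =>
    have h1 := Lev.add _ _ _ _ ih ih'
    have h2 : (fun t => c * G t + c * G' t) = fun t => c * (G t + G' t) := by
      funext t
      ring
    rw [h2] at h1
    exact Lev.mono _ _ _ h1 (by nlinarith)
  | mono G K K' h hK ih =>
    exact Lev.mono _ _ _ ih (mul_le_mul_of_nonneg_left hK (abs_nonneg c))

theorem lv1_mul_base {g : ℕ → ℝ} {d : ℕ} {c : ℝ} (hd0 : 0 < d) (hd : d ∣ Q)
    (hper : Function.Periodic g d) (hc : ∀ t, |g t| ≤ c) {G' : ℕ → ℝ} {K' : ℝ}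
    (h' : Lev Q G' K') : Lev Q (fun t => g t * G' t) (d * c * K') := by
  have hc0 : 0 ≤ c := le_trans (abs_nonneg _) (hc 0)
  induction h' with
  | base g' d' c' hd0' hd' hper' hc' =>
    have hc0' : 0 ≤ c' := le_trans (abs_nonneg _) (hc' 0)
    have hl : 0 < Nat.lcm d d' := Nat.lcm_pos hd0 hd0'
    have hl' : Nat.lcm d d' ∣ Q := Nat.lcm_dvd hd hd'
    have hp : Function.Periodic (fun t => g t * g' t) (Nat.lcm d d') := by
      intro t
      obtain ⟨k, hk⟩ := Nat.dvd_lcm_left d d'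
      obtain ⟨k', hk'⟩ := Nat.dvd_lcm_right d d'
      have h1 : g (t + Nat.lcm d d') = g t := by
        rw [hk, mul_comm]
        simpa using (hper.nat_mul k) t
      have h2 : g' (t + Nat.lcm d d') = g' t := by
        rw [hk', mul_comm]
        simpa using (hper'.nat_mul k') t
      show g (t + Nat.lcm d d') * g' (t + Nat.lcm d d') = g t * g' t
      rw [h1, h2]
    have h1 := Lev.base (Q := Q) (fun t => g t * g' t) (Nat.lcm d d') (c * c') hl hl' hp
      (fun t => by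
        rw [abs_mul]
        exact mul_le_mul (hc t) (hc' t) (abs_nonneg _) hc0)
    refine Lev.mono _ _ _ h1 ?_
    have h2 : ((Nat.lcm d d' : ℕ) : ℝ) ≤ d * d' := by
      exact_mod_cast Nat.le_of_dvd (Nat.mul_pos hd0 hd0') (Nat.lcm_dvd_mul d d')
    calc ((Nat.lcm d d' : ℕ) : ℝ) * (c * c') ≤ (d * d') * (c * c') :=
          mul_le_mul_of_nonneg_right h2 (mul_nonneg hc0 hc0')
      _ = d * c * (d' * c') := by ring
  | add G G' K K' h h' ih ih' =>
    have h1 := Lev.add _ _ _ _ ih ih'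
    have h2 : (fun t => g t * G t + g t * G' t) = fun t => g t * (G t + G' t) := by
      funext t
      ring
    rw [h2] at h1
    exact Lev.mono _ _ _ h1 (by nlinarith)
  | mono G K K' h hK ih =>
    exact Lev.mono _ _ _ ih (mul_le_mul_of_nonneg_left hK (by positivity))

/-- Double induction; the product of functions with periods `d, d' ∣ Q` has the period
`lcm d d' ∣ Q`, `lcm d d' ≤ d d'`. -/
theorem Lev.mul (hQ : 0 < Q) {G G' : ℕ → ℝ} {K K' : ℝ} (h : Lev Q G K) (h' : Lev Q G' K') :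
    Lev Q (fun t => G t * G' t) (K * K') := by
  have hK0' := h'.nonneg
  induction h with
  | base g d c hd0 hd hper hc => exact lv1_mul_base hd0 hd hper hc h'
  | add G1 G2 K1 K2 h1 h2 ih1 ih2 =>
    have h3 := Lev.add _ _ _ _ ih1 ih2
    have h4 : (fun t => G1 t * G' t + G2 t * G' t) = fun t => (G1 t + G2 t) * G' t := by
      funext t
      ring
    rw [h4] at h3
    exact Lev.mono _ _ _ h3 (by nlinarith)
  | mono G K1 K2 h hK ih =>
    exact Lev.mono _ _ _ ih (mul_le_mul_of_nonneg_right hK hK0')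

theorem Lev.sum {α : Type} (s : Finset α) (G : α → ℕ → ℝ) (K : α → ℝ)
    (hQ : 0 < Q) (h : ∀ a ∈ s, Lev Q (G a) (K a)) :
    Lev Q (fun t => ∑ a ∈ s, G a t) (∑ a ∈ s, K a) := by
  classical
  induction s using Finset.induction_on with
  | empty =>
    have h1 := Lev.const hQ 0
    rw [abs_zero] at h1
    simpa using h1
  | insert a s ha ih =>
    have h1 := Lev.add _ _ _ _ (h a (Finset.mem_insert_self a s))
      (ih fun b hb => h b (Finset.mem_insert_of_mem hb))
    rw [Finset.sum_insert ha]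
    have h2 : (fun t => ∑ b ∈ insert a s, G b t) = fun t => G a t + ∑ b ∈ s, G b t := by
      funext t
      rw [Finset.sum_insert ha]
    rw [h2]
    exact h1

theorem Lev.prod {α : Type} (s : Finset α) (G : α → ℕ → ℝ) (K : α → ℝ)
    (hQ : 0 < Q) (h : ∀ a ∈ s, Lev Q (G a) (K a)) :
    Lev Q (fun t => ∏ a ∈ s, G a t) (∏ a ∈ s, K a) := by
  classical
  induction s using Finset.induction_on with
  | empty =>
    have h1 := Lev.const hQ 1
    rw [abs_one] at h1
    simpa using h1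
  | insert a s ha ih =>
    have h1 := Lev.mul hQ (h a (Finset.mem_insert_self a s))
      (ih fun b hb => h b (Finset.mem_insert_of_mem hb))
    rw [Finset.prod_insert ha]
    have h2 : (fun t => ∏ b ∈ insert a s, G b t) = fun t => G a t * ∏ b ∈ s, G b t := by
      funext t
      rw [Finset.prod_insert ha]
    rw [h2]
    exact h1

theorem Lev.pow (hQ : 0 < Q) {G : ℕ → ℝ} {K : ℝ} (h : Lev Q G K) (n : ℕ) :
    Lev Q (fun t => G t ^ n) (K ^ n) := by
  have h1 := Lev.prod (Finset.range n) (fun _ => G) (fun _ => K) hQ (fun _ _ => h)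
  simpa using h1

theorem lv1_range_mul (d : ℕ) (g : ℕ → ℝ) (hg : Function.Periodic g d) (k : ℕ) :
    ∑ t ∈ range (k * d), g t = k * ∑ t ∈ range d, g t := by
  rw [← H56G.crt_sum_Icc_mul d g hg k]
  have h1 : Function.Periodic g (k * d) := by
    have := hg.nat_mul k
    simpa using this
  rw [← H56G.crt_sum_Icc_period (k * d) g h1 1]

theorem lv1_avg_base {g : ℕ → ℝ} {d : ℕ} {c : ℝ} (hQ : 0 < Q) (hd0 : 0 < d) (hd : d ∣ Q)
    (hper : Function.Periodic g d) (hc : ∀ t, |g t| ≤ c) (a Y : ℕ) :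
    |∑ t ∈ Ico a (a + Y), g t - Y * ((∑ t ∈ range Q, g t) / Q)| ≤ 2 * (d * c) := by
  have hF : Function.Periodic (fun t => g (t + (a + (d - 1)))) d := by
    intro t
    show g (t + d + (a + (d - 1))) = g (t + (a + (d - 1)))
    have h1 : t + d + (a + (d - 1)) = t + (a + (d - 1)) + d := by ring
    rw [h1]
    exact hper _
  have h := H56G.abs_sum_Icc_sub_le d hd0 (fun t => g (t + (a + (d - 1)))) hF c
    (fun t => hc _) Y
  have h1 : ∑ t ∈ Icc 1 Y, g (t + (a + (d - 1))) = ∑ t ∈ Ico a (a + Y), g t := by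
    have h2 : Ico a (a + Y) = (range Y).image (fun t => t + a) := by
      ext t
      simp only [Finset.mem_Ico, Finset.mem_image, Finset.mem_range]
      constructor
      · rintro ⟨h3, h4⟩
        exact ⟨t - a, by omega, by omega⟩
      · rintro ⟨u, h3, rfl⟩
        omega
    have h3 : Icc 1 Y = (range Y).image (fun t => t + 1) := by
      ext t
      simp only [Finset.mem_Icc, Finset.mem_image, Finset.mem_range]
      constructor
      · rintro ⟨h3, h4⟩
        exact ⟨t - 1, by omega, by omega⟩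
      · rintro ⟨u, h3, rfl⟩
        omega
    rw [h2, h3, Finset.sum_image (fun x _ y _ h => by simpa using h),
      Finset.sum_image (fun x _ y _ h => by simpa using h)]
    apply Finset.sum_congr rfl
    intro t _
    have h4 : t + 1 + (a + (d - 1)) = t + a + d := by omega
    rw [h4]
    exact hper _
  have h2 : ∑ t ∈ range d, g (t + (a + (d - 1))) = ∑ t ∈ range d, g t := by
    rw [← H56G.crt_sum_Icc_period d g hper (a + (d - 1))]
    have h3 : Ico (a + (d - 1)) (a + (d - 1) + d) =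
        (range d).image (fun t => t + (a + (d - 1))) := by
      ext t
      simp only [Finset.mem_Ico, Finset.mem_image, Finset.mem_range]
      constructor
      · rintro ⟨h3, h4⟩
        exact ⟨t - (a + (d - 1)), by omega, by omega⟩
      · rintro ⟨u, h3, rfl⟩
        omega
    rw [h3, Finset.sum_image (fun x _ y _ h => by simpa using h)]
  obtain ⟨k, hk⟩ := hd
  have hk0 : 0 < k := by
    rcases Nat.eq_zero_or_pos k with h3 | h3
    · subst h3
      omega
    · exact h3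
  have h3 : (∑ t ∈ range Q, g t) / (Q : ℝ) = (∑ t ∈ range d, g t) / d := by
    rw [hk, mul_comm d k, lv1_range_mul d g hper k]
    push_cast
    have hk' : (k : ℝ) ≠ 0 := by exact_mod_cast hk0.ne'
    have hd' : (d : ℝ) ≠ 0 := by exact_mod_cast hd0.ne'
    field_simp
  rw [h1, h2] at h
  rw [h3]
  refine h.trans (le_of_eq ?_)
  ring

/-- Incomplete sums. Each term `g` (period `d`, `|g| ≤ c`) contributes at most `2 d c`:
`H56G.abs_sum_Icc_sub_le` for the translate `t ↦ g (t + a - 1)` (or directly), and the mean value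
over `range Q` is the mean value over `range d` as `d ∣ Q`. Induction over `Lev`. -/
theorem Lev.avg (hQ : 0 < Q) {G : ℕ → ℝ} {K : ℝ} (h : Lev Q G K) (a Y : ℕ) :
    |∑ t ∈ Ico a (a + Y), G t - Y * ((∑ t ∈ range Q, G t) / Q)| ≤ 2 * K := by
  induction h with
  | base g d c hd0 hd hper hc => exact lv1_avg_base hQ hd0 hd hper hc a Y
  | add G G' K K' h h' ih ih' =>
    have h1 : ∑ t ∈ Ico a (a + Y), (G t + G' t) -
        Y * ((∑ t ∈ range Q, (G t + G' t)) / Q) =
        (∑ t ∈ Ico a (a + Y), G t - Y * ((∑ t ∈ range Q, G t) / Q)) +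
        (∑ t ∈ Ico a (a + Y), G' t - Y * ((∑ t ∈ range Q, G' t) / Q)) := by
      rw [Finset.sum_add_distrib, Finset.sum_add_distrib]
      ring
    rw [h1]
    refine (abs_add_le _ _).trans ?_
    linarith
  | mono G K K' h hK ih => linarith

end Pool.Agent.Lib.H15P
end

-- from Lib.H92G.Defs
section

/-!
# H92G: definitions

Weights with form dependent one form functions. `ι` = index type of the primes, `J` = index type of
the forms `b j + M t`, `I` = labels. `ex`, `EX`, `bw`, `cnt`, `adm`, `hit`, `qq`, `Forms`, `EP`,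
`Lev`, `LevS` are those of `Lib/H15P/Defs`; `PC`, `p0`, `v` those of `Lib/H68T/Defs`.
-/

open Finset

namespace Pool.Agent.Lib.H92G

open Pool.Agent.Lib.H15P

/-! ## Weights (Part II) -/

/-- Factor of the form `j` with the label `o`. -/
noncomputable def dg {ι J I : Type} (D : J → I → Finset ι → ℝ) (j : J) :
    Option I → Finset ι → ℝ
  | none, _ => 1
  | some i, A => D j i A

/-- Sum over the labelings of `s` with coefficients `w`. -/
noncomputable def LW {ι J I : Type} [Fintype J] (D : J → I → Finset ι → ℝ)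
    (s : Finset (J → Option I)) (w : (J → Option I) → ℝ) (S : J → Finset ι) : ℝ :=
  ∑ l ∈ s, w l * ∏ j, dg D j (l j) (S j)

/-- The weight function (before squaring). -/
noncomputable def LG {ι J I : Type} [Fintype J] [DecidableEq J] [Fintype I] [DecidableEq I]
    (D : J → I → Finset ι → ℝ) (m : I → ℕ) (B : Finset J) (S : J → Finset ι) : ℝ :=
  LW D (adm B m) (fun _ => 1) S

/-- Second moments of the factors of the form `j`. -/
noncomputable def GJ {ι J I : Type} [Fintype ι] [DecidableEq ι] (q : ι → ℝ)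
    (D : J → I → Finset ι → ℝ) (j : J) : Option I → ℝ
  | none => 1
  | some i => ex q (fun A => D j i A ^ 2)

/-- Total weight of all labelings of `B`. -/
noncomputable def ZG {ι J I : Type} [Fintype ι] [DecidableEq ι] [Fintype I] (q : ι → ℝ)
    (D : J → I → Finset ι → ℝ) (B : Finset J) : ℝ :=
  ∏ j ∈ B, (1 + ∑ i, GJ q D j (some i))

/-- The hypotheses on the one form functions `D j i` (some of them may be `0`). -/
structure GoodJ {ι J I : Type} [Fintype ι] [DecidableEq ι] (q : ι → ℝ)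
    (D : J → I → Finset ι → ℝ) (h : ℝ) : Prop where
  q0 : ∀ i, 0 ≤ q i
  q1 : ∀ i, q i ≤ 1
  mean : ∀ j i, ex q (D j i) = 0
  orth : ∀ j i i', i ≠ i' → ex q (fun A => D j i A * D j i' A) = 0
  sq : ∀ j i, ex q (fun A => D j i A ^ 2) ≤ h
  fourth : ∀ j i, ex q (fun A => D j i A ^ 4) ≤ h

/-- Coefficient of the labeling `l` (outside `Z`) if no prime divides the forms of `Z`: sum over
the labelings `o` of `Z` such that `l` and `o` together are admissible. -/
noncomputable def wZ {ι J I : Type} [Fintype J] [DecidableEq J] [Fintype I] [DecidableEq I]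
    (D : J → I → Finset ι → ℝ) (m : I → ℕ) (Z : Finset J) (l : J → Option I) : ℝ :=
  ∑ o ∈ univ.filter (fun o : J → Option I => (∀ j, j ∉ Z → o j = none) ∧
      ∀ i, cnt l i + cnt o i ≤ m i), ∏ j ∈ Z, dg D j (o j) ∅




/-- Mean value over the `t` for which no prime of `P` divides `b + M t`. -/
noncomputable def EU (P : Finset ℕ) (M b : ℕ) (G : ℕ → ℝ) : ℝ :=
  (∑ t ∈ (range (∏ p ∈ P, p)).filter (fun t => (b + M * t).Coprime (∏ p ∈ P, p)), G t) /
    ((∏ p ∈ P, p).totient : ℝ)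




end Pool.Agent.Lib.H92G
end

-- from Lib.H92G.G0
section

/-!
# Chunk G0: sums over labelings with form dependent factors, tails

Compare `H15P/PB3` (`sum_supp`, `tail_supp`: the same with factors independent of the form).
-/

open Finset

namespace Pool.Agent.Lib.H92G

open Pool.Agent.Lib.H15P

variable {J I : Type} [Fintype J] [DecidableEq J] [Fintype I] [DecidableEq I]

/-- `Finset.prod_univ_sum` with the sets `univ` (`j ∈ B`) and `{none}` (`j ∉ B`). -/
theorem sum_suppJ (a : J → Option I → ℝ) (h0 : ∀ j, a j none = 1) (B : Finset J) :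
    ∑ l ∈ univ.filter (fun l : J → Option I => ∀ j, j ∉ B → l j = none), ∏ j, a j (l j)
      = ∏ j ∈ B, (1 + ∑ i, a j (some i)) := by
  classical
  set t : J → Finset (Option I) := fun j => if j ∈ B then univ else {none} with ht
  have h1 : univ.filter (fun l : J → Option I => ∀ j, j ∉ B → l j = none) =
      Fintype.piFinset t := by
    ext l
    simp only [mem_filter, mem_univ, true_and, Fintype.mem_piFinset, ht]
    constructor
    · intro h j
      by_cases hj : j ∈ B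
      · rw [if_pos hj]; exact mem_univ _
      · rw [if_neg hj, mem_singleton]; exact h j hj
    · intro h j hj
      have := h j
      rw [if_neg hj, mem_singleton] at this
      exact this
  rw [h1, ← Finset.prod_univ_sum t (fun j o => a j o)]
  have h2 : ∀ j, ∑ o ∈ t j, a j o = if j ∈ B then (1 + ∑ i, a j (some i)) else 1 := by
    intro j
    by_cases hj : j ∈ B
    · simp only [ht, if_pos hj]
      rw [Fintype.sum_option, h0]
    · simp only [ht, if_neg hj, sum_singleton, h0]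
  rw [Finset.prod_congr rfl (fun j _ => h2 j), Finset.prod_ite_mem, Finset.univ_inter]

/-- Chernoff: `1[m0 ≤ cnt l i0] ≤ e^(cnt l i0 - m0)` and `e^(cnt l i0) = ∏_j (e if l j = some i0
else 1)` (`pb3_exp_cnt`), so by `sum_suppJ` the sum is at most
`e^(-m0) ∏_{j ∈ B} (1 + ∑_i a_j i + (e - 1) a_j i0)
 ≤ e^(-m0) ∏_{j ∈ B} (1 + ∑_i a_j i) e^(2 a_j i0)`. -/
theorem tail_suppJ (a : J → Option I → ℝ) (ha : ∀ j o, 0 ≤ a j o) (h0 : ∀ j, a j none = 1)
    (B : Finset J) (i0 : I) (m0 : ℕ) (R : ℝ)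
    (hm : 2 * ∑ j ∈ B, a j (some i0) + R ≤ m0) :
    ∑ l ∈ univ.filter (fun l : J → Option I => (∀ j, j ∉ B → l j = none) ∧ m0 ≤ cnt l i0),
        ∏ j, a j (l j)
      ≤ Real.exp (-R) * ∏ j ∈ B, (1 + ∑ i, a j (some i)) := by
  classical
  set e : ℝ := Real.exp 1 with he
  have he2 : e - 1 ≤ 2 := by
    have := Real.exp_one_lt_d9
    rw [he]; linarith
  have he1 : 1 ≤ e := by
    rw [he]; exact Real.one_le_exp (by norm_num)
  set a' : J → Option I → ℝ := fun j o => a j o * (if o = some i0 then e else 1) with ha'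
  have hprod : ∀ l : J → Option I, ∏ j, a' j (l j) = (∏ j, a j (l j)) * e ^ cnt l i0 := by
    intro l
    simp only [ha']
    rw [Finset.prod_mul_distrib, pb3_exp_cnt]
  have hP0 : ∀ l : J → Option I, 0 ≤ ∏ j, a j (l j) := fun l =>
    Finset.prod_nonneg (fun j _ => ha _ _)
  have hexp : ∀ n : ℕ, e ^ n = Real.exp n := by
    intro n
    rw [he, ← Real.exp_nat_mul, mul_one]
  have step1 : ∑ l ∈ univ.filter (fun l : J → Option I => (∀ j, j ∉ B → l j = none) ∧
        m0 ≤ cnt l i0), ∏ j, a j (l j)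
      ≤ ∑ l ∈ univ.filter (fun l : J → Option I => ∀ j, j ∉ B → l j = none),
        Real.exp (-(m0 : ℝ)) * ∏ j, a' j (l j) := by
    calc ∑ l ∈ univ.filter (fun l : J → Option I => (∀ j, j ∉ B → l j = none) ∧
          m0 ≤ cnt l i0), ∏ j, a j (l j)
        ≤ ∑ l ∈ univ.filter (fun l : J → Option I => (∀ j, j ∉ B → l j = none) ∧
          m0 ≤ cnt l i0), Real.exp (-(m0 : ℝ)) * ∏ j, a' j (l j) := by
          apply Finset.sum_le_sum
          intro l hl
          have hl2 := (Finset.mem_filter.1 hl).2.2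
          rw [hprod, hexp]
          have h1 : 1 ≤ Real.exp (-(m0 : ℝ)) * Real.exp (cnt l i0) := by
            rw [← Real.exp_add]
            apply Real.one_le_exp
            have : (m0 : ℝ) ≤ cnt l i0 := by exact_mod_cast hl2
            linarith
          calc ∏ j, a j (l j) = 1 * ∏ j, a j (l j) := by ring
            _ ≤ (Real.exp (-(m0 : ℝ)) * Real.exp (cnt l i0)) * ∏ j, a j (l j) :=
                mul_le_mul_of_nonneg_right h1 (hP0 l)
            _ = _ := by ring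
      _ ≤ ∑ l ∈ univ.filter (fun l : J → Option I => ∀ j, j ∉ B → l j = none),
            Real.exp (-(m0 : ℝ)) * ∏ j, a' j (l j) := by
          apply Finset.sum_le_sum_of_subset_of_nonneg
          · intro l hl
            have := (Finset.mem_filter.1 hl).2.1
            exact Finset.mem_filter.2 ⟨Finset.mem_univ _, this⟩
          · intro l _ _
            rw [hprod]
            exact mul_nonneg (Real.exp_pos _).le
              (mul_nonneg (hP0 l) (pow_nonneg (by linarith) _))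
  refine step1.trans ?_
  rw [← Finset.mul_sum, sum_suppJ a' (fun j => by simp [ha', h0]) B]
  have hsum : ∀ j, 1 + ∑ i, a' j (some i) = 1 + ∑ i, a j (some i) + (e - 1) * a j (some i0) := by
    intro j
    have h2 : ∀ i, a' j (some i) = a j (some i) +
        (if i = i0 then (e - 1) * a j (some i0) else 0) := by
      intro i
      by_cases hi : i = i0
      · subst hi
        simp only [ha', if_true]
        ring
      · have : ¬ ((some i : Option I) = some i0) := fun h => hi (Option.some_inj.1 h)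
        simp only [ha', if_neg hi, if_neg this]
        ring
    rw [Finset.sum_congr rfl (fun i _ => h2 i), Finset.sum_add_distrib,
      Finset.sum_ite_eq' univ i0 (fun _ => (e - 1) * a j (some i0)), if_pos (Finset.mem_univ _)]
    ring
  have h3 : ∏ j ∈ B, (1 + ∑ i, a' j (some i)) ≤
      (∏ j ∈ B, (1 + ∑ i, a j (some i))) * Real.exp (2 * ∑ j ∈ B, a j (some i0)) := by
    rw [Finset.mul_sum, Real.exp_sum, ← Finset.prod_mul_distrib]
    apply Finset.prod_le_prod
    · intro j _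
      have : 0 ≤ ∑ i, a' j (some i) := by
        apply Finset.sum_nonneg
        intro i _
        simp only [ha']
        have := ha j (some i)
        split_ifs
        · positivity
        · positivity
      linarith
    · intro j _
      rw [hsum]
      have hS1 : 1 ≤ 1 + ∑ i, a j (some i) := by
        have : 0 ≤ ∑ i, a j (some i) := Finset.sum_nonneg (fun i _ => ha _ _)
        linarith
      set S : ℝ := 1 + ∑ i, a j (some i) with hS
      set α := a j (some i0) with hα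
      have hα0 : 0 ≤ α := ha _ _
      have h4 : (e - 1) * α ≤ 2 * α := mul_le_mul_of_nonneg_right he2 hα0
      calc S + (e - 1) * α ≤ S * (1 + 2 * α) := by nlinarith
        _ ≤ S * Real.exp (2 * α) := by
            apply mul_le_mul_of_nonneg_left _ (by linarith)
            rw [add_comm]
            exact Real.add_one_le_exp _
  have hP : 0 ≤ ∏ j ∈ B, (1 + ∑ i, a j (some i)) := by
    apply Finset.prod_nonneg
    intro j _
    have : 0 ≤ ∑ i, a j (some i) := Finset.sum_nonneg (fun i _ => ha _ _)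
    linarith
  calc Real.exp (-(m0 : ℝ)) * ∏ j ∈ B, (1 + ∑ i, a' j (some i))
      ≤ Real.exp (-(m0 : ℝ)) * ((∏ j ∈ B, (1 + ∑ i, a j (some i))) *
          Real.exp (2 * ∑ j ∈ B, a j (some i0))) :=
        mul_le_mul_of_nonneg_left h3 (Real.exp_pos _).le
    _ = Real.exp (-(m0 : ℝ) + 2 * ∑ j ∈ B, a j (some i0)) *
          ∏ j ∈ B, (1 + ∑ i, a j (some i)) := by
        rw [Real.exp_add]
        ring
    _ ≤ Real.exp (-R) * ∏ j ∈ B, (1 + ∑ i, a j (some i)) := by
        apply mul_le_mul_of_nonneg_right _ hP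
        apply Real.exp_le_exp.2
        linarith

/-- Union bound: the labelings with a saturated label (`m i ≤ cnt l i` for some `i`) are removed. -/
theorem sum_unsat_ge (a : J → Option I → ℝ) (ha : ∀ j o, 0 ≤ a j o) (h0 : ∀ j, a j none = 1)
    (B : Finset J) (m : I → ℕ) (R : I → ℝ)
    (hm : ∀ i, 2 * ∑ j ∈ B, a j (some i) + R i ≤ m i) :
    (1 - ∑ i, Real.exp (-R i)) * ∏ j ∈ B, (1 + ∑ i, a j (some i)) ≤
      ∑ l ∈ univ.filter (fun l : J → Option I => (∀ j, j ∉ B → l j = none) ∧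
        ∀ i, cnt l i < m i), ∏ j, a j (l j) := by
  classical
  have hP0 : ∀ l : J → Option I, 0 ≤ ∏ j, a j (l j) := fun l =>
    Finset.prod_nonneg (fun j _ => ha _ _)
  have h1 : ∑ l ∈ univ.filter (fun l : J → Option I => ∀ j, j ∉ B → l j = none), ∏ j, a j (l j) ≤
      ∑ l ∈ univ.filter (fun l : J → Option I => (∀ j, j ∉ B → l j = none) ∧
        ∀ i, cnt l i < m i), ∏ j, a j (l j) +
      ∑ i, ∑ l ∈ univ.filter (fun l : J → Option I => (∀ j, j ∉ B → l j = none) ∧
        m i ≤ cnt l i), ∏ j, a j (l j) := by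
    have e1 : ∑ i, ∑ l ∈ univ.filter (fun l : J → Option I => (∀ j, j ∉ B → l j = none) ∧
        m i ≤ cnt l i), ∏ j, a j (l j) =
        ∑ l ∈ univ.filter (fun l : J → Option I => ∀ j, j ∉ B → l j = none),
          ∑ i, if m i ≤ cnt l i then ∏ j, a j (l j) else 0 := by
      rw [Finset.sum_comm]
      apply Finset.sum_congr rfl
      intro i _
      rw [← Finset.sum_filter, Finset.filter_filter]
    have e2 : ∑ l ∈ univ.filter (fun l : J → Option I => (∀ j, j ∉ B → l j = none) ∧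
        ∀ i, cnt l i < m i), ∏ j, a j (l j) =
        ∑ l ∈ univ.filter (fun l : J → Option I => ∀ j, j ∉ B → l j = none),
          if ∀ i, cnt l i < m i then ∏ j, a j (l j) else 0 := by
      rw [← Finset.sum_filter, Finset.filter_filter]
    rw [e1, e2, ← Finset.sum_add_distrib]
    apply Finset.sum_le_sum
    intro l _
    by_cases hl : ∀ i, cnt l i < m i
    · rw [if_pos hl]
      have : 0 ≤ ∑ i, if m i ≤ cnt l i then ∏ j, a j (l j) else 0 := by
        apply Finset.sum_nonneg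
        intro i _
        split_ifs
        · exact hP0 l
        · exact le_rfl
      linarith
    · rw [if_neg hl, zero_add]
      push Not at hl
      obtain ⟨i, hi⟩ := hl
      have h2 := Finset.single_le_sum (f := fun i => if m i ≤ cnt l i then ∏ j, a j (l j) else 0)
        (fun i _ => by
          show 0 ≤ if m i ≤ cnt l i then ∏ j, a j (l j) else 0
          split_ifs
          · exact hP0 l
          · exact le_rfl) (mem_univ i)
      simp only [if_pos hi] at h2
      exact h2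
  have h2 : ∑ i, ∑ l ∈ univ.filter (fun l : J → Option I => (∀ j, j ∉ B → l j = none) ∧
        m i ≤ cnt l i), ∏ j, a j (l j) ≤
      ∑ i, Real.exp (-R i) * ∏ j ∈ B, (1 + ∑ i, a j (some i)) :=
    Finset.sum_le_sum fun i _ => tail_suppJ a ha h0 B i (m i) (R i) (hm i)
  rw [sum_suppJ a h0 B] at h1
  rw [← Finset.sum_mul] at h2
  rw [sub_mul, one_mul]
  linarith

end Pool.Agent.Lib.H92G
end

-- from Lib.H92G.G1
section

/-!
# Chunk G1: second moments

Compare `H15P/PB2` (`ex_dd_dd`, `EX_sq_mul`).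
-/

open Finset

namespace Pool.Agent.Lib.H92G

open Pool.Agent.Lib.H15P

variable {ι J I : Type} [Fintype ι] [DecidableEq ι] [Fintype J] [DecidableEq J] [Fintype I]
  [DecidableEq I]

omit [Fintype J] [DecidableEq J] [Fintype I] in
/-- Mean `0`, orthogonality. -/
theorem ex_dg_dg (q : ι → ℝ) (D : J → I → Finset ι → ℝ) (h : ℝ) (hg : GoodJ q D h) (j : J)
    (o o' : Option I) :
    ex q (fun A => dg D j o A * dg D j o' A) = if o = o' then GJ q D j o else 0 := by
  rcases o with _ | i <;> rcases o' with _ | i'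
  · simp only [dg, mul_one, if_true, GJ]
    exact ex_one q
  · simp only [dg, one_mul, reduceCtorEq, if_false]
    exact hg.mean j i'
  · simp only [dg, mul_one, reduceCtorEq, if_false]
    exact hg.mean j i
  · simp only [dg, Option.some.injEq, GJ]
    by_cases hii : i = i'
    · subst hii
      rw [if_pos rfl]
      congr 1
      funext A
      ring
    · rw [if_neg hii]
      exact hg.orth j i i' hii

omit [Fintype J] [DecidableEq J] [Fintype I] [DecidableEq I] in
theorem GJ_nonneg (q : ι → ℝ) (D : J → I → Finset ι → ℝ) (h : ℝ) (hg : GoodJ q D h) (j : J)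
    (o : Option I) : 0 ≤ GJ q D j o := by
  rcases o with _ | i
  · exact zero_le_one
  · exact ex_nonneg q hg.q0 hg.q1 _ fun A => sq_nonneg _

omit [DecidableEq I] in
theorem one_le_ZG (q : ι → ℝ) (D : J → I → Finset ι → ℝ) (h : ℝ) (hg : GoodJ q D h)
    (B : Finset J) : 1 ≤ ZG q D B := by
  unfold ZG
  have h1 : ∀ j ∈ B, (1 : ℝ) ≤ 1 + ∑ i, GJ q D j (some i) := by
    intro j _
    have : 0 ≤ ∑ i, GJ q D j (some i) := Finset.sum_nonneg fun i _ => GJ_nonneg q D h hg j _
    linarith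
  calc (1 : ℝ) = ∏ _j ∈ B, 1 := Finset.prod_const_one.symm
    _ ≤ ∏ j ∈ B, (1 + ∑ i, GJ q D j (some i)) :=
        Finset.prod_le_prod (fun _ _ => zero_le_one) h1

omit [DecidableEq I] in
theorem ZG_mono (q : ι → ℝ) (D : J → I → Finset ι → ℝ) (h : ℝ) (hg : GoodJ q D h)
    {B B' : Finset J} (hB : B ⊆ B') : ZG q D B ≤ ZG q D B' := by
  unfold ZG
  have h1 : ∀ j, (1 : ℝ) ≤ 1 + ∑ i, GJ q D j (some i) := by
    intro j
    have : 0 ≤ ∑ i, GJ q D j (some i) := Finset.sum_nonneg fun i _ => GJ_nonneg q D h hg j _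
    linarith
  apply Finset.prod_le_prod_of_subset_of_one_le hB
  · intro j _
    exact zero_le_one.trans (h1 j)
  · intro j _ _
    exact h1 j

/-- Square out, exchange, `EX_prod`; for `l ≠ l'` some factor `ex_dg_dg` is `0` (at the forms of
`Z` both labels are `none`, the factor is `ex F`). -/
theorem EX_LW_sq_mul (q : ι → ℝ) (D : J → I → Finset ι → ℝ) (h : ℝ) (hg : GoodJ q D h)
    (s : Finset (J → Option I)) (w : (J → Option I) → ℝ) (Z : Finset J)
    (hZ : ∀ l ∈ s, ∀ j ∈ Z, l j = none) (F : Finset ι → ℝ) :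
    EX q (fun S : J → Finset ι => LW D s w S ^ 2 * ∏ j ∈ Z, F (S j))
      = (∑ l ∈ s, w l ^ 2 * ∏ j, GJ q D j (l j)) * ex q F ^ Z.card := by
  have h1 : ∀ S : J → Finset ι,
      LW D s w S ^ 2 * ∏ j ∈ Z, F (S j) =
      ∑ l ∈ s, ∑ l' ∈ s, w l * w l' * ∏ j,
        (dg D j (l j) (S j) * dg D j (l' j) (S j) * if j ∈ Z then F (S j) else 1) := by
    intro S
    unfold LW
    rw [sq, sum_mul_sum, sum_mul]
    refine sum_congr rfl fun l _ => ?_
    rw [sum_mul]
    refine sum_congr rfl fun l' _ => ?_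
    rw [prod_mul_distrib, prod_mul_distrib]
    have e : ∏ j, (if j ∈ Z then F (S j) else 1) = ∏ j ∈ Z, F (S j) := by
      rw [Finset.prod_ite_mem, Finset.univ_inter]
    rw [e]
    ring
  simp only [h1]
  rw [EX_sum, sum_mul]
  refine sum_congr rfl fun l hl => ?_
  rw [EX_sum]
  have h3 : ∀ l' ∈ s, EX q (fun S : J → Finset ι => w l * w l' * ∏ j,
      (dg D j (l j) (S j) * dg D j (l' j) (S j) * if j ∈ Z then F (S j) else 1)) =
      if l' = l then w l ^ 2 * (∏ j, GJ q D j (l j)) * ex q F ^ Z.card else 0 := by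
    intro l' hl'
    rw [EX_const_mul, EX_prod q (fun j A => dg D j (l j) A * dg D j (l' j) A *
      if j ∈ Z then F A else 1)]
    by_cases hll : l' = l
    · subst hll
      rw [if_pos rfl]
      have e2 : ∏ j, ex q (fun A => dg D j (l' j) A * dg D j (l' j) A *
          if j ∈ Z then F A else 1) =
          ∏ j, (GJ q D j (l' j) * if j ∈ Z then ex q F else 1) := by
        refine prod_congr rfl fun j _ => ?_
        by_cases hj : j ∈ Z
        · rw [if_pos hj, hZ l' hl' j hj]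
          have e3 : (fun A => dg D j none A * dg D j none A * if j ∈ Z then F A else 1) = F := by
            funext A
            rw [if_pos hj]
            simp [dg]
          rw [e3]
          simp [GJ]
        · rw [if_neg hj, mul_one]
          have e3 : (fun A => dg D j (l' j) A * dg D j (l' j) A * if j ∈ Z then F A else 1) =
              fun A => dg D j (l' j) A * dg D j (l' j) A := by
            funext A
            rw [if_neg hj, mul_one]
          rw [e3, ex_dg_dg q D h hg, if_pos rfl]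
      rw [e2, prod_mul_distrib, Finset.prod_ite_mem, Finset.univ_inter, Finset.prod_const]
      ring
    · rw [if_neg hll]
      obtain ⟨j, hj⟩ := Function.ne_iff.1 hll
      have hjZ : j ∉ Z := by
        intro hjZ
        exact hj (by rw [hZ l hl j hjZ, hZ l' hl' j hjZ])
      have e1 : ex q (fun A => dg D j (l j) A * dg D j (l' j) A * if j ∈ Z then F A else 1) =
          0 := by
        have e3 : (fun A => dg D j (l j) A * dg D j (l' j) A * if j ∈ Z then F A else 1) =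
            fun A => dg D j (l j) A * dg D j (l' j) A := by
          funext A
          rw [if_neg hjZ, mul_one]
        rw [e3, ex_dg_dg q D h hg, if_neg (fun hh => hj hh.symm)]
      rw [prod_eq_zero (mem_univ j) e1, mul_zero]
  rw [sum_congr rfl h3, sum_ite_eq' s l, if_pos hl]

/-- `Z = ∅`. -/
theorem EX_LW_sq (q : ι → ℝ) (D : J → I → Finset ι → ℝ) (h : ℝ) (hg : GoodJ q D h)
    (s : Finset (J → Option I)) (w : (J → Option I) → ℝ) :
    EX q (fun S : J → Finset ι => LW D s w S ^ 2) =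
      ∑ l ∈ s, w l ^ 2 * ∏ j, GJ q D j (l j) := by
  have h1 := EX_LW_sq_mul q D h hg s w ∅ (fun l _ j hj => absurd hj (Finset.notMem_empty j))
    (fun _ => 0)
  simp only [Finset.prod_empty, mul_one, Finset.card_empty, pow_zero] at h1
  exact h1

end Pool.Agent.Lib.H92G
end

-- from Lib.H92G.G3
section

/-!
# Chunk G3: configurations where no prime divides the forms of `Z`
-/

open Finset

namespace Pool.Agent.Lib.H92G

open Pool.Agent.Lib.H15P

variable {ι J I : Type} [Fintype J] [DecidableEq J] [Fintype I] [DecidableEq I]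

omit [DecidableEq J] [Fintype I] in
theorem g3_cnt (Z : Finset J) (L l o : J → Option I) (h1 : ∀ j ∈ Z, l j = none)
    (h2 : ∀ j, j ∉ Z → l j = L j) (h3 : ∀ j ∈ Z, o j = L j) (h4 : ∀ j, j ∉ Z → o j = none) (i : I) :
    cnt L i = cnt l i + cnt o i := by
  classical
  unfold cnt
  rw [← Finset.card_union_of_disjoint]
  · congr 1
    ext j
    simp only [mem_union, mem_filter, mem_univ, true_and]
    by_cases hj : j ∈ Z
    · rw [h1 j hj, h3 j hj]
      simp
    · rw [h2 j hj, h4 j hj]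
      simp
  · rw [Finset.disjoint_left]
    intro j hj hj'
    simp only [mem_filter, mem_univ, true_and] at hj hj'
    by_cases hjZ : j ∈ Z
    · rw [h1 j hjZ] at hj
      simp at hj
    · rw [h4 j hjZ] at hj'
      simp at hj'

/-- A labeling `L ∈ adm B m` is the same as a pair (`l` = `L` outside `Z`, `none` in `Z`; `o` = `L`
in `Z`, `none` outside `Z`) with `l` supported in `B \ Z`, `o` supported in `Z` and
`cnt L = cnt l + cnt o ≤ m`; then `l ∈ adm (B \ Z) m`. The product over all `j` of the factors of `L`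
is the product of the factors of `l` over all `j` (`1` on `Z`) times the product of the factors of
`o` over `Z`, where `S j = ∅`. -/
theorem LG_restrict (D : J → I → Finset ι → ℝ) (m : I → ℕ) (B Z : Finset J) (hZ : Z ⊆ B)
    (S : J → Finset ι) (hS : ∀ j ∈ Z, S j = ∅) :
    LG D m B S = LW D (adm (B \ Z) m) (wZ D m Z) S := by
  classical
  unfold LG LW wZ
  simp only [one_mul]
  have e1 : ∀ l : J → Option I, (∑ o ∈ univ.filter (fun o : J → Option I =>
      (∀ j, j ∉ Z → o j = none) ∧ ∀ i, cnt l i + cnt o i ≤ m i), ∏ j ∈ Z, dg D j (o j) ∅) *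
      ∏ j, dg D j (l j) (S j) =
      ∑ o ∈ univ.filter (fun o : J → Option I =>
      (∀ j, j ∉ Z → o j = none) ∧ ∀ i, cnt l i + cnt o i ≤ m i),
        (∏ j ∈ Z, dg D j (o j) ∅) * ∏ j, dg D j (l j) (S j) := fun l => Finset.sum_mul _ _ _
  rw [Finset.sum_congr rfl (fun l _ => e1 l), Finset.sum_sigma']
  refine Finset.sum_bij' (fun L _ => ⟨fun j => if j ∈ Z then none else L j,
    fun j => if j ∈ Z then L j else none⟩) (fun p _ => fun j => if j ∈ Z then p.2 j else p.1 j)
    ?_ ?_ ?_ ?_ ?_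
  · intro L hL
    unfold adm at hL
    rw [mem_filter] at hL
    have hc := fun i => g3_cnt Z L (fun j => if j ∈ Z then none else L j)
      (fun j => if j ∈ Z then L j else none) (fun j hj => if_pos hj) (fun j hj => if_neg hj)
      (fun j hj => if_pos hj) (fun j hj => if_neg hj) i
    rw [mem_sigma]
    constructor
    · unfold adm
      rw [mem_filter]
      refine ⟨mem_univ _, ?_, ?_⟩
      · intro j hj
        show (if j ∈ Z then none else L j) = none
        by_cases hjZ : j ∈ Z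
        · rw [if_pos hjZ]
        · rw [if_neg hjZ]
          apply hL.2.1
          intro hjB
          exact hj (mem_sdiff.2 ⟨hjB, hjZ⟩)
      · intro i
        have := hL.2.2 i
        rw [hc i] at this
        show cnt (fun j => if j ∈ Z then none else L j) i ≤ m i
        omega
    · rw [mem_filter]
      refine ⟨mem_univ _, fun j hj => if_neg hj, ?_⟩
      intro i
      have := hL.2.2 i
      rw [hc i] at this
      exact this
  · rintro ⟨l, o⟩ hp
    rw [mem_sigma] at hp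
    obtain ⟨hl, ho⟩ := hp
    simp only at hl ho
    unfold adm at hl
    rw [mem_filter] at hl ho
    have hl0 : ∀ j ∈ Z, l j = none := fun j hj => hl.2.1 j (fun h => (mem_sdiff.1 h).2 hj)
    have hc := fun i => g3_cnt Z (fun j => if j ∈ Z then o j else l j) l o hl0
      (fun j hj => (if_neg hj).symm) (fun j hj => (if_pos hj).symm) ho.2.1 i
    unfold adm
    rw [mem_filter]
    refine ⟨mem_univ _, ?_, ?_⟩
    · intro j hj
      show (if j ∈ Z then o j else l j) = none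
      have hjZ : j ∉ Z := fun h => hj (hZ h)
      rw [if_neg hjZ]
      exact hl.2.1 j (fun h => hj (mem_sdiff.1 h).1)
    · intro i
      show cnt (fun j => if j ∈ Z then o j else l j) i ≤ m i
      rw [hc i]
      exact ho.2.2 i
  · intro L hL
    funext j
    show (if j ∈ Z then (if j ∈ Z then L j else none) else (if j ∈ Z then none else L j)) = L j
    by_cases hj : j ∈ Z
    · rw [if_pos hj, if_pos hj]
    · rw [if_neg hj, if_neg hj]
  · rintro ⟨l, o⟩ hp
    rw [mem_sigma] at hp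
    obtain ⟨hl, ho⟩ := hp
    simp only at hl ho
    unfold adm at hl
    rw [mem_filter] at hl ho
    have hl0 : ∀ j ∈ Z, l j = none := fun j hj => hl.2.1 j (fun h => (mem_sdiff.1 h).2 hj)
    have e2 : (fun j => if j ∈ Z then none else if j ∈ Z then o j else l j) = l := by
      funext j
      by_cases hj : j ∈ Z
      · rw [if_pos hj, hl0 j hj]
      · rw [if_neg hj, if_neg hj]
    have e3 : (fun j => if j ∈ Z then (if j ∈ Z then o j else l j) else none) = o := by
      funext j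
      by_cases hj : j ∈ Z
      · rw [if_pos hj, if_pos hj]
      · rw [if_neg hj, ho.2.1 j hj]
    simp only [e2, e3]
  · intro L hL
    show ∏ j, dg D j (L j) (S j) = (∏ j ∈ Z, dg D j (if j ∈ Z then L j else none) ∅) *
      ∏ j, dg D j (if j ∈ Z then none else L j) (S j)
    rw [← Finset.prod_mul_prod_compl Z (fun j => dg D j (L j) (S j)),
      ← Finset.prod_mul_prod_compl Z (fun j => dg D j (if j ∈ Z then none else L j) (S j))]
    have a1 : ∏ j ∈ Z, dg D j (if j ∈ Z then none else L j) (S j) = 1 := by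
      apply Finset.prod_eq_one
      intro j hj
      rw [if_pos hj]
      rfl
    have a2 : ∏ j ∈ Zᶜ, dg D j (if j ∈ Z then none else L j) (S j) =
        ∏ j ∈ Zᶜ, dg D j (L j) (S j) := by
      apply Finset.prod_congr rfl
      intro j hj
      rw [if_neg (mem_compl.1 hj)]
    have a3 : ∏ j ∈ Z, dg D j (if j ∈ Z then L j else none) ∅ =
        ∏ j ∈ Z, dg D j (L j) (S j) := by
      apply Finset.prod_congr rfl
      intro j hj
      rw [if_pos hj, hS j hj]
    rw [a1, a2, a3, one_mul]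

/-- If the values `D j i ∅` are nonnegative (`j ∈ Z`), all terms are nonnegative and the sum is at
most the sum over all labelings `o` supported in `Z`, which is the product
(`Finset.prod_univ_sum`, compare `sum_suppJ` in `G0`). -/
theorem wZ_bounds (D : J → I → Finset ι → ℝ) (m : I → ℕ) (Z : Finset J) (l : J → Option I)
    (hD : ∀ j ∈ Z, ∀ i, 0 ≤ D j i ∅) :
    0 ≤ wZ D m Z l ∧ wZ D m Z l ≤ ∏ j ∈ Z, (1 + ∑ i, D j i ∅) := by
  classical
  have h0 : ∀ o : J → Option I, 0 ≤ ∏ j ∈ Z, dg D j (o j) ∅ := by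
    intro o
    apply Finset.prod_nonneg
    intro j hj
    cases o j with
    | none => exact zero_le_one
    | some i => exact hD j hj i
  unfold wZ
  constructor
  · exact Finset.sum_nonneg fun o _ => h0 o
  · have h1 := sum_suppJ (fun j o => dg D j o ∅) (fun j => rfl) Z
    have h2 : ∏ j ∈ Z, (1 + ∑ i, D j i ∅) =
        ∑ o ∈ univ.filter (fun o : J → Option I => ∀ j, j ∉ Z → o j = none),
          ∏ j ∈ Z, dg D j (o j) ∅ := by
      refine h1.symm.trans ?_
      apply Finset.sum_congr rfl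
      intro o ho
      rw [mem_filter] at ho
      rw [← Finset.prod_mul_prod_compl Z (fun j => dg D j (o j) ∅)]
      have : ∏ j ∈ Zᶜ, dg D j (o j) ∅ = 1 := by
        apply Finset.prod_eq_one
        intro j hj
        rw [ho.2 j (mem_compl.1 hj)]
        rfl
      rw [this, mul_one]
    rw [h2]
    apply Finset.sum_le_sum_of_subset_of_nonneg
    · intro o ho
      rw [mem_filter] at ho ⊢
      exact ⟨ho.1, ho.2.1⟩
    · intro o _ _
      exact h0 o

/-- One form: the labelings `o` of `{j0}` are `none` and the labels `i` with `cnt l i < m i`. -/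
theorem wZ_single (D : J → I → Finset ι → ℝ) (m : I → ℕ) (j0 : J) (l : J → Option I)
    (hl : ∀ i, cnt l i ≤ m i) :
    wZ D m {j0} l = 1 + ∑ i ∈ univ.filter (fun i => cnt l i < m i), D j0 i ∅ := by
  classical
  set φ : Option I → (J → Option I) := fun x => Function.update (fun _ => none) j0 x with hφ
  have hφi : Function.Injective φ := by
    intro x y h
    have := congrFun h j0
    simpa [hφ] using this
  have hcnt : ∀ (x : Option I) (i : I), cnt (φ x) i = if x = some i then 1 else 0 := by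
    intro x i
    unfold cnt
    by_cases hx : x = some i
    · rw [if_pos hx]
      have : univ.filter (fun j => φ x j = some i) = {j0} := by
        ext j
        rw [mem_filter, mem_singleton]
        constructor
        · rintro ⟨_, h⟩
          by_contra hj
          rw [hφ] at h
          simp only [Function.update_of_ne hj] at h
          simp at h
        · intro h
          subst h
          refine ⟨mem_univ _, ?_⟩
          rw [hφ]
          simp only [Function.update_self]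
          exact hx
      rw [this, card_singleton]
    · rw [if_neg hx]
      rw [Finset.card_eq_zero, Finset.filter_eq_empty_iff]
      intro j _ h
      by_cases hj : j = j0
      · subst hj
        rw [hφ] at h
        simp only [Function.update_self] at h
        exact hx h
      · rw [hφ] at h
        simp only [Function.update_of_ne hj] at h
        simp at h
  have hset : univ.filter (fun o : J → Option I => (∀ j, j ∉ ({j0} : Finset J) → o j = none) ∧
      ∀ i, cnt l i + cnt o i ≤ m i) =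
      (univ.filter (fun x : Option I => ∀ i, x = some i → cnt l i < m i)).image φ := by
    ext o
    rw [mem_filter, mem_image]
    constructor
    · rintro ⟨_, h1, h2⟩
      have e : φ (o j0) = o := by
        funext j
        by_cases hj : j = j0
        · subst hj
          rw [hφ]
          simp only [Function.update_self]
        · rw [hφ]
          simp only [Function.update_of_ne hj]
          exact (h1 j (by rw [mem_singleton]; exact hj)).symm
      refine ⟨o j0, ?_, e⟩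
      rw [mem_filter]
      refine ⟨mem_univ _, ?_⟩
      intro i hi
      have h3 := h2 i
      rw [← e, hcnt, if_pos hi] at h3
      omega
    · rintro ⟨x, hx, rfl⟩
      rw [mem_filter] at hx
      refine ⟨mem_univ _, ?_, ?_⟩
      · intro j hj
        rw [mem_singleton] at hj
        rw [hφ]
        simp only [Function.update_of_ne hj]
      · intro i
        rw [hcnt]
        by_cases h : x = some i
        · rw [if_pos h]
          exact hx.2 i h
        · rw [if_neg h, add_zero]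
          exact hl i
  unfold wZ
  rw [hset, Finset.sum_image (fun a _ b _ h => hφi h), Finset.sum_filter, Fintype.sum_option]
  congr 1
  · rw [if_pos (by intro i hi; simp at hi), Finset.prod_singleton]
    rw [hφ]
    simp only [Function.update_self]
    rfl
  · rw [Finset.sum_filter]
    apply Finset.sum_congr rfl
    intro i _
    have hiff : (∀ i', (some i : Option I) = some i' → cnt l i' < m i') ↔ cnt l i < m i := by
      constructor
      · intro h
        exact h i rfl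
      · intro h i' hi'
        rw [← Option.some_inj.1 hi']
        exact h
    by_cases h : cnt l i < m i
    · rw [if_pos (hiff.2 h), if_pos h, Finset.prod_singleton]
      rw [hφ]
      simp only [Function.update_self]
      rfl
    · rw [if_neg (fun h' => h (hiff.1 h')), if_neg h]

end Pool.Agent.Lib.H92G
end

-- from Lib.H92G.G5
section

/-!
# Chunk G5: the main moments of the weight
-/

open Finset

namespace Pool.Agent.Lib.H92G

open Pool.Agent.Lib.H15P

variable {ι J I : Type} [Fintype ι] [DecidableEq ι] [Fintype J] [DecidableEq J] [Fintype I]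
  [DecidableEq I]

theorem g5_mem_adm {B : Finset J} {m : I → ℕ} {l : J → Option I} :
    l ∈ adm B m ↔ (∀ j, j ∉ B → l j = none) ∧ ∀ i, cnt l i ≤ m i := by
  unfold adm
  simp

theorem g5_prod_nonneg (q : ι → ℝ) (D : J → I → Finset ι → ℝ) (h : ℝ) (hg : GoodJ q D h)
    (l : J → Option I) : 0 ≤ ∏ j, GJ q D j (l j) :=
  Finset.prod_nonneg fun j _ => GJ_nonneg q D h hg j _

/-- Sums over admissible labelings. -/
theorem g5_sum_adm_le (q : ι → ℝ) (D : J → I → Finset ι → ℝ) (h : ℝ) (hg : GoodJ q D h)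
    (m : I → ℕ) (B : Finset J) : ∑ l ∈ adm B m, ∏ j, GJ q D j (l j) ≤ ZG q D B := by
  unfold ZG
  rw [← sum_suppJ (fun j o => GJ q D j o) (fun j => rfl) B]
  apply Finset.sum_le_sum_of_subset_of_nonneg
  · intro l hl
    rw [g5_mem_adm] at hl
    rw [mem_filter]
    exact ⟨mem_univ _, hl.1⟩
  · intro l _ _
    exact g5_prod_nonneg q D h hg l

/-- `EX_LW_sq`, `adm B m` is a subset of the labelings supported in `B`, `sum_suppJ`. -/
theorem EX_LG_sq_le (q : ι → ℝ) (D : J → I → Finset ι → ℝ) (h : ℝ) (hg : GoodJ q D h)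
    (m : I → ℕ) (B : Finset J) :
    EX q (fun S : J → Finset ι => LG D m B S ^ 2) ≤ ZG q D B := by
  unfold LG
  rw [EX_LW_sq q D h hg]
  simp only [one_pow, one_mul]
  exact g5_sum_adm_le q D h hg m B

/-- The majorant used if no prime divides the forms of `Z`: `EX_LW_sq_mul` with `F = lm`;
`w^2 ≤ wm^2`; `sum_suppJ`; `ZG (B \ Z) ≤ ZG B`. -/
theorem EX_maj_le (q : ι → ℝ) (D : J → I → Finset ι → ℝ) (h : ℝ) (hg : GoodJ q D h)
    (m : I → ℕ) (B Z : Finset J) (wm : ℝ) (hw : ∀ l, |wZ D m Z l| ≤ wm)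
    (lm : Finset ι → ℝ) (hlm : ∀ A, 0 ≤ lm A) :
    EX q (fun S : J → Finset ι => LW D (adm (B \ Z) m) (wZ D m Z) S ^ 2 * ∏ j ∈ Z, lm (S j))
      ≤ wm ^ 2 * ZG q D B * ex q lm ^ Z.card := by
  have hZ : ∀ l ∈ adm (B \ Z) m, ∀ j ∈ Z, l j = none := by
    intro l hl j hj
    rw [g5_mem_adm] at hl
    exact hl.1 j (fun h => (mem_sdiff.1 h).2 hj)
  rw [EX_LW_sq_mul q D h hg (adm (B \ Z) m) (wZ D m Z) Z hZ lm]
  apply mul_le_mul_of_nonneg_right _ (pow_nonneg (ex_nonneg q hg.q0 hg.q1 _ hlm) _)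
  calc ∑ l ∈ adm (B \ Z) m, wZ D m Z l ^ 2 * ∏ j, GJ q D j (l j)
      ≤ ∑ l ∈ adm (B \ Z) m, wm ^ 2 * ∏ j, GJ q D j (l j) := by
        apply Finset.sum_le_sum
        intro l _
        apply mul_le_mul_of_nonneg_right _ (g5_prod_nonneg q D h hg l)
        rw [← sq_abs]
        exact pow_le_pow_left₀ (abs_nonneg _) (hw l) 2
    _ = wm ^ 2 * ∑ l ∈ adm (B \ Z) m, ∏ j, GJ q D j (l j) := by rw [Finset.mul_sum]
    _ ≤ wm ^ 2 * ZG q D B := by
        apply mul_le_mul_of_nonneg_left _ (sq_nonneg _)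
        exact (g5_sum_adm_le q D h hg m _).trans (ZG_mono q D h hg sdiff_subset)




/-- An allowed form `j0` (all values `D j0 i ∅ ≥ 0`), no prime divides it: `LG_restrict`,
`EX_LW_sq_mul` with `F = 1[A = ∅]` (mean value `∏ (1 - q i)`), and for the labelings `l` without
saturated label the coefficient is `1 + ∑ D j0 i ∅` (`wZ_single`); `sum_unsat_ge` for the set
`B \ {j0}`. -/
theorem EX_prime_ge (q : ι → ℝ) (D : J → I → Finset ι → ℝ) (h : ℝ) (hg : GoodJ q D h)
    (m : I → ℕ) (B : Finset J) (R : I → ℝ)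
    (hm : ∀ i, 2 * ∑ j ∈ B, GJ q D j (some i) + R i ≤ m i) (j0 : J) (hj0 : j0 ∈ B)
    (hD : ∀ i, 0 ≤ D j0 i ∅) :
    (1 + ∑ i, D j0 i ∅) ^ 2 * (1 - ∑ i, Real.exp (-R i)) * ZG q D (B.erase j0) *
        ∏ i, (1 - q i)
      ≤ EX q (fun S : J → Finset ι => LG D m B S ^ 2 * (if S j0 = ∅ then 1 else 0)) := by
  classical
  have hZ : ∀ l ∈ adm (B \ {j0}) m, ∀ j ∈ ({j0} : Finset J), l j = none := by
    intro l hl j hj
    rw [g5_mem_adm] at hl
    exact hl.1 j (fun h => (mem_sdiff.1 h).2 hj)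
  set F : Finset ι → ℝ := fun A => if A = ∅ then 1 else 0 with hF
  have e0 : (fun S : J → Finset ι => LG D m B S ^ 2 * (if S j0 = ∅ then (1 : ℝ) else 0)) =
      fun S => LW D (adm (B \ {j0}) m) (wZ D m {j0}) S ^ 2 * ∏ j ∈ ({j0} : Finset J), F (S j) := by
    funext S
    rw [Finset.prod_singleton]
    by_cases hS : S j0 = ∅
    · rw [LG_restrict D m B {j0} (singleton_subset_iff.2 hj0) S
        (fun j hj => by rw [mem_singleton.1 hj]; exact hS)]
    · simp only [hF, if_neg hS, mul_zero]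
  rw [e0, EX_LW_sq_mul q D h hg (adm (B \ {j0}) m) (wZ D m {j0}) {j0} hZ F, card_singleton,
    pow_one]
  have e1 : ex q F = ∏ i, (1 - q i) := by
    unfold ex
    rw [Finset.sum_eq_single (∅ : Finset ι)]
    · simp only [hF, if_true, one_mul]
      unfold bw
      simp
    · intro A _ hA
      simp only [hF, if_neg hA, zero_mul]
    · intro hA
      exact absurd (mem_univ _) hA
  rw [e1]
  apply mul_le_mul_of_nonneg_right _
    (Finset.prod_nonneg fun i _ => by have := hg.q1 i; linarith)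
  set g : ℝ := 1 + ∑ i, D j0 i ∅ with hgdef
  have h3 : ∀ i, 2 * ∑ j ∈ B \ {j0}, GJ q D j (some i) + R i ≤ m i := by
    intro i
    have h6 : ∑ j ∈ B \ {j0}, GJ q D j (some i) ≤ ∑ j ∈ B, GJ q D j (some i) :=
      Finset.sum_le_sum_of_subset_of_nonneg sdiff_subset (fun j _ _ => GJ_nonneg q D h hg j _)
    have := hm i
    linarith
  have h4 := sum_unsat_ge (fun j o => GJ q D j o) (fun j o => GJ_nonneg q D h hg j o)
    (fun j => rfl) (B \ {j0}) m R h3
  have e2 : ∏ j ∈ B \ {j0}, (1 + ∑ i, GJ q D j (some i)) = ZG q D (B.erase j0) := by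
    unfold ZG
    rw [Finset.sdiff_singleton_eq_erase]
  rw [e2] at h4
  calc g ^ 2 * (1 - ∑ i, Real.exp (-R i)) * ZG q D (B.erase j0)
      = g ^ 2 * ((1 - ∑ i, Real.exp (-R i)) * ZG q D (B.erase j0)) := by ring
    _ ≤ g ^ 2 * ∑ l ∈ univ.filter (fun l : J → Option I => (∀ j, j ∉ B \ {j0} → l j = none) ∧
        ∀ i, cnt l i < m i), ∏ j, GJ q D j (l j) :=
        mul_le_mul_of_nonneg_left h4 (sq_nonneg _)
    _ = ∑ l ∈ univ.filter (fun l : J → Option I => (∀ j, j ∉ B \ {j0} → l j = none) ∧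
        ∀ i, cnt l i < m i), wZ D m {j0} l ^ 2 * ∏ j, GJ q D j (l j) := by
        rw [Finset.mul_sum]
        apply Finset.sum_congr rfl
        intro l hl
        rw [mem_filter] at hl
        have e3 : wZ D m {j0} l = g := by
          rw [wZ_single D m j0 l (fun i => (hl.2.2 i).le)]
          rw [Finset.filter_true_of_mem (fun i _ => hl.2.2 i)]
        rw [e3]
    _ ≤ ∑ l ∈ adm (B \ {j0}) m, wZ D m {j0} l ^ 2 * ∏ j, GJ q D j (l j) := by
        apply Finset.sum_le_sum_of_subset_of_nonneg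
        · intro l hl
          rw [mem_filter] at hl
          rw [g5_mem_adm]
          exact ⟨hl.2.1, fun i => (hl.2.2 i).le⟩
        · intro l _ _
          exact mul_nonneg (sq_nonneg _) (g5_prod_nonneg q D h hg l)

end Pool.Agent.Lib.H92G
end

-- from Lib.H92G.WG
section

/-!
# The data of the weights for one value of `x`, the weight `nu`, the classes
-/

open Finset

namespace Pool.Agent.Lib.H92G

open Pool.Agent.Lib.H15P

/-- All data of the weight function and the inequalities between them. `KA` = bound for the number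
of allowed forms, `K` = bound for the number of all forms. Allowed forms (`true`) use the labels
`inl i`, disallowed forms (`false`) the labels `inr i`. -/
structure WG where
  P : Finset ℕ
  W : ℕ
  KA : ℕ
  K : ℕ
  nA : ℕ
  nD : ℕ
  DJ : Bool → (Fin nA ⊕ Fin nD) → Finset {p // p ∈ P} → ℝ
  m : (Fin nA ⊕ Fin nD) → ℕ
  R : (Fin nA ⊕ Fin nD) → ℝ
  lm : Finset {p // p ∈ P} → ℝ
  cA : ℝ
  h : ℝ
  C : ℝ
  lv : ℝ
  e : ℝ
  el : ℝ
  prime : ∀ p ∈ P, p.Prime
  big : ∀ p ∈ P, W < p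
  nDpos : 0 < nD
  Kpos : 1 ≤ K
  KW : 4 * K ^ 2 ≤ W
  cA0 : 0 ≤ cA
  good : GoodJ (qq P K) DJ h
  h0 : 0 ≤ h
  trl : ∀ i, DJ true (Sum.inl i) ∅ = cA
  trr : ∀ i A, DJ true (Sum.inr i) A = 0
  fll : ∀ i A, DJ false (Sum.inl i) A = 0
  flr : ∀ i, DJ false (Sum.inr i) ∅ = -1 / (nD : ℝ)
  hm : ∀ i, 2 * (KA * GJ (qq P K) DJ true (some i) + K * GJ (qq P K) DJ false (some i)) + R i
    ≤ m i
  hR : ∑ i, Real.exp (-R i) ≤ 1 / 4
  hG : ∀ a, ∑ i, GJ (qq P K) DJ a (some i) ≤ 1
  lm0 : ∀ A, 0 ≤ lm A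
  lm1 : lm ∅ = 1
  lmel : ex (qq P K) lm ≤ el
  el0 : 0 < el
  el1 : el ≤ 1
  e0 : 0 < e
  e1 : e ≤ 1 / 10
  hlm : K * (∑ i : Fin nD, Real.exp (-R (Sum.inr i))) * el ≤ e
  hC : Real.exp ((((nA + nD : ℕ) : ℝ) + 1) ^ 4 * h * K) ≤ C
  hKW : Real.exp (2 * (K : ℝ) ^ 2 / W) ≤ 1 + e
  lv1 : 1 ≤ lv
  levL : ∀ (J : Type) [Fintype J] [DecidableEq J] (al : J → Bool) (B : Finset J) (M : ℕ)
    (b : J → ℕ) (wt : (J → Option (Fin nA ⊕ Fin nD)) → ℝ),
    Fintype.card J ≤ K → (∀ l, |wt l| ≤ 1) →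
      Lev (∏ p ∈ P, p)
        (fun t => LW (fun j => DJ (al j)) (adm B m) wt (fun j => hit P (b j + M * t))) lv
  levlm : LevS P lm lv

/-- The factors of the forms `b + M t`, `b ∈ B`, if the elements of `A` are allowed. -/
def WG.Df (w : WG) (A B : Finset ℕ) :
    {b // b ∈ B} → (Fin w.nA ⊕ Fin w.nD) → Finset {p // p ∈ w.P} → ℝ :=
  fun j => w.DJ (decide (j.1 ∈ A))

/-- The weight at `t` of the system of the forms `b + M t`, `b ∈ B`. -/
noncomputable def WG.nu (w : WG) (A B : Finset ℕ) (M t : ℕ) : ℝ :=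
  LG (w.Df A B) w.m univ (fun j : {b // b ∈ B} => hit w.P (j.1 + M * t)) ^ 2 /
    ZG (qq w.P w.K) (w.Df A B) univ

/-- The value `1 + nA cA`: the gain at a prime of an allowed form. -/
noncomputable def WG.g (w : WG) : ℝ := 1 + w.nA * w.cA

/-- Hypotheses on a system of forms. -/
structure WG.Sys (w : WG) (A B : Finset ℕ) (M : ℕ) : Prop where
  AB : A ⊆ B
  cardA : A.card ≤ w.KA
  cardB : B.card ≤ w.K
  dist : ∀ b ∈ B, ∀ b' ∈ B, b ≤ b' + w.W
  cop : ∀ p ∈ w.P, ¬ p ∣ M

/-- Hypothesis on the length of the sums. -/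
def WG.Long (w : WG) (Y : ℕ) : Prop := 8 * w.K * w.g ^ 4 * w.lv ^ 4 ≤ w.e * w.el ^ 2 * Y

end Pool.Agent.Lib.H92G
end

-- from Lib.H15P.PB6
section

/-!
# Chunk PB6: the fourth moment
-/

open Finset

namespace Pool.Agent.Lib.H15P

variable {ι J I : Type} [Fintype ι] [DecidableEq ι] [Fintype J] [DecidableEq J]
  [Fintype I] [DecidableEq I]

theorem pb6_abs_ex_le (q : ι → ℝ) (h0 : ∀ i, 0 ≤ q i) (h1 : ∀ i, q i ≤ 1) (F G : Finset ι → ℝ)
    (h : ∀ A, |F A| ≤ G A) : |ex q F| ≤ ex q G := by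
  unfold ex
  refine (Finset.abs_sum_le_sum_abs _ _).trans (Finset.sum_le_sum (fun A _ => ?_))
  rw [abs_mul, abs_of_nonneg (bw_nonneg q h0 h1 A)]
  exact mul_le_mul_of_nonneg_right (h A) (bw_nonneg q h0 h1 A)


theorem pb6_two (a b : ℝ) : |a| * |b| ≤ (1 / 2) * a ^ 2 + (1 / 2) * b ^ 2 := by
  have h := sq_nonneg (|a| - |b|)
  have ha := sq_abs a
  have hb := sq_abs b
  nlinarith

theorem pb6_three (a b c : ℝ) :
    |a| * |b| * |c| ≤ (1 / 2) * a ^ 2 + ((1 / 4) * b ^ 4 + (1 / 4) * c ^ 4) := by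
  have h := sq_nonneg (|a| - |b| * |c|)
  have h2 := sq_nonneg (b ^ 2 - c ^ 2)
  have ha := sq_abs a
  have hbc : (|b| * |c|) ^ 2 = b ^ 2 * c ^ 2 := by
    rw [mul_pow, sq_abs, sq_abs]
  nlinarith

theorem pb6_four (a b c d : ℝ) :
    |a| * |b| * |c| * |d| ≤ ((1 / 4) * a ^ 4 + (1 / 4) * b ^ 4) +
      ((1 / 4) * c ^ 4 + (1 / 4) * d ^ 4) := by
  have h := sq_nonneg (|a| * |b| - |c| * |d|)
  have h2 := sq_nonneg (a ^ 2 - b ^ 2)
  have h3 := sq_nonneg (c ^ 2 - d ^ 2)
  have hab : (|a| * |b|) ^ 2 = a ^ 2 * b ^ 2 := by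
    rw [mul_pow, sq_abs, sq_abs]
  have hcd : (|c| * |d|) ^ 2 = c ^ 2 * d ^ 2 := by
    rw [mul_pow, sq_abs, sq_abs]
  nlinarith







end Pool.Agent.Lib.H15P
end

-- from Lib.H92G.G2
section

/-!
# Chunk G2: the fourth moment

Compare `H15P/PB6` (`EX_LL_four_le`).
-/

open Finset

namespace Pool.Agent.Lib.H92G

open Pool.Agent.Lib.H15P

variable {ι J I : Type} [Fintype ι] [DecidableEq ι] [Fintype J] [DecidableEq J] [Fintype I]
  [DecidableEq I]

omit [Fintype J] [DecidableEq J] [Fintype I] [DecidableEq I] in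
theorem g2_L1 (q : ι → ℝ) (D : J → I → Finset ι → ℝ) (h : ℝ) (hg : GoodJ q D h)
    (hh : 0 ≤ h) (j : J) (i : I) : |ex q (fun A => D j i A)| ≤ h := by
  have e : ex q (fun A => D j i A) = 0 := hg.mean j i
  rw [e, abs_zero]
  exact hh

omit [Fintype J] [DecidableEq J] [Fintype I] [DecidableEq I] in
theorem g2_L2 (q : ι → ℝ) (D : J → I → Finset ι → ℝ) (h : ℝ) (hg : GoodJ q D h)
    (j : J) (i i' : I) : |ex q (fun A => D j i A * D j i' A)| ≤ h := by
  refine (pb6_abs_ex_le q hg.q0 hg.q1 _ (fun A => (1 / 2) * D j i A ^ 2 + (1 / 2) * D j i' A ^ 2)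
    (fun A => ?_)).trans ?_
  · rw [abs_mul]
    exact pb6_two _ _
  · rw [ex_add, ex_const_mul, ex_const_mul]
    have h1 := hg.sq j i
    have h2 := hg.sq j i'
    linarith

omit [Fintype J] [DecidableEq J] [Fintype I] [DecidableEq I] in
theorem g2_L3 (q : ι → ℝ) (D : J → I → Finset ι → ℝ) (h : ℝ) (hg : GoodJ q D h)
    (j : J) (i i' i'' : I) : |ex q (fun A => D j i A * D j i' A * D j i'' A)| ≤ h := by
  refine (pb6_abs_ex_le q hg.q0 hg.q1 _ (fun A => (1 / 2) * D j i A ^ 2 +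
    ((1 / 4) * D j i' A ^ 4 + (1 / 4) * D j i'' A ^ 4)) (fun A => ?_)).trans ?_
  · rw [abs_mul, abs_mul]
    exact pb6_three _ _ _
  · rw [ex_add, ex_const_mul, ex_add, ex_const_mul, ex_const_mul]
    have h1 := hg.sq j i
    have h2 := hg.fourth j i'
    have h3 := hg.fourth j i''
    linarith

omit [Fintype J] [DecidableEq J] [Fintype I] [DecidableEq I] in
theorem g2_L4 (q : ι → ℝ) (D : J → I → Finset ι → ℝ) (h : ℝ) (hg : GoodJ q D h)
    (j : J) (i i' i'' i''' : I) :
    |ex q (fun A => D j i A * D j i' A * D j i'' A * D j i''' A)| ≤ h := by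
  refine (pb6_abs_ex_le q hg.q0 hg.q1 _ (fun A => ((1 / 4) * D j i A ^ 4 +
    (1 / 4) * D j i' A ^ 4) + ((1 / 4) * D j i'' A ^ 4 + (1 / 4) * D j i''' A ^ 4))
    (fun A => ?_)).trans ?_
  · rw [abs_mul, abs_mul, abs_mul]
    exact pb6_four _ _ _ _
  · rw [ex_add, ex_add, ex_const_mul, ex_const_mul, ex_add, ex_const_mul, ex_const_mul]
    have h1 := hg.fourth j i
    have h2 := hg.fourth j i'
    have h3 := hg.fourth j i''
    have h4 := hg.fourth j i'''
    linarith

omit [Fintype J] [DecidableEq J] [Fintype I] [DecidableEq I] in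
/-- Moments of products of at most four factors of the same form, not all of them trivial. One
factor: mean `0`. Two, three, four factors: `|ab| ≤ (a^2 + b^2)/2`, `|abc| ≤ (a^2 + (bc)^2)/2`,
`(bc)^2 ≤ (b^4 + c^4)/2`, `|abcd| ≤ (a^4 + b^4 + c^4 + d^4)/4` (`pb6_two`, `pb6_three`,
`pb6_four`). -/
theorem abs_ex_four_leJ (q : ι → ℝ) (D : J → I → Finset ι → ℝ) (h : ℝ) (hg : GoodJ q D h)
    (hh : 0 ≤ h) (j : J) (o : Fin 4 → Option I) (ho : ∃ k, o k ≠ none) :
    |ex q (fun A => ∏ k, dg D j (o k) A)| ≤ h := by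
  simp only [Fin.prod_univ_four]
  rcases h0 : o 0 with _ | i0 <;> rcases h1 : o 1 with _ | i1 <;>
    rcases h2 : o 2 with _ | i2 <;> rcases h3 : o 3 with _ | i3 <;>
    simp only [dg, one_mul, mul_one]
  · exfalso
    obtain ⟨k, hk⟩ := ho
    fin_cases k
    · exact hk h0
    · exact hk h1
    · exact hk h2
    · exact hk h3
  · exact g2_L1 q D h hg hh j i3
  · exact g2_L1 q D h hg hh j i2
  · exact g2_L2 q D h hg j i2 i3
  · exact g2_L1 q D h hg hh j i1
  · exact g2_L2 q D h hg j i1 i3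
  · exact g2_L2 q D h hg j i1 i2
  · exact g2_L3 q D h hg j i1 i2 i3
  · exact g2_L1 q D h hg hh j i0
  · exact g2_L2 q D h hg j i0 i3
  · exact g2_L2 q D h hg j i0 i2
  · exact g2_L3 q D h hg j i0 i2 i3
  · exact g2_L2 q D h hg j i0 i1
  · exact g2_L3 q D h hg j i0 i1 i3
  · exact g2_L3 q D h hg j i0 i1 i2
  · exact g2_L4 q D h hg j i0 i1 i2 i3


end Pool.Agent.Lib.H92G
end

-- from Lib.H92G.W1
section

/-!
# Chunk W1: basic facts on a system of forms, mean value and mean square of the weight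

Compare `H15P/WIN1`, `H15P/WIN2`.
-/

open Finset

namespace Pool.Agent.Lib.H92G

open Pool.Agent.Lib.H15P

/-- Distinct `b, b' ∈ B` differ by at most `W < p`. -/
theorem WG.Sys.forms {w : WG} {A B : Finset ℕ} {M : ℕ} (h : w.Sys A B M) :
    Forms w.P w.W w.K M (fun j : {b // b ∈ B} => j.1) := by
  refine ⟨w.prime, w.big, h.cop, ?_, w.Kpos, ?_, w.KW⟩
  · intro p hp j j' hne hm
    apply hne
    apply Subtype.ext
    have h1 := h.dist j.1 j.2 j'.1 j'.2
    have h2 := h.dist j'.1 j'.2 j.1 j.2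
    have h3 := w.big p hp
    rcases le_total j.1 j'.1 with h4 | h4
    · have h5 := (Nat.modEq_iff_dvd' h4).1 hm
      have h6 := Nat.eq_zero_of_dvd_of_lt h5 (by omega)
      omega
    · have h5 := (Nat.modEq_iff_dvd' h4).1 hm.symm
      have h6 := Nat.eq_zero_of_dvd_of_lt h5 (by omega)
      omega
  · rw [Fintype.card_coe]
    exact h.cardB

theorem WG.good_Df (w : WG) (A B : Finset ℕ) : GoodJ (qq w.P w.K) (w.Df A B) w.h where
  q0 := w.good.q0
  q1 := w.good.q1
  mean := fun _ i => w.good.mean _ i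
  orth := fun _ i i' hi => w.good.orth _ i i' hi
  sq := fun _ i => w.good.sq _ i
  fourth := fun _ i => w.good.fourth _ i

theorem WG.one_le_g (w : WG) : 1 ≤ w.g := by
  unfold WG.g
  have h1 := mul_nonneg (Nat.cast_nonneg w.nA : (0 : ℝ) ≤ w.nA) w.cA0
  linarith


theorem w1_GJ (w : WG) (A B : Finset ℕ) (j : {b // b ∈ B}) (o : Option (Fin w.nA ⊕ Fin w.nD)) :
    GJ (qq w.P w.K) (w.Df A B) j o = GJ (qq w.P w.K) w.DJ (decide (j.1 ∈ A)) o := by
  cases o <;> rfl

theorem w1_GJ_nonneg (w : WG) (a : Bool) (o : Option (Fin w.nA ⊕ Fin w.nD)) :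
    0 ≤ GJ (qq w.P w.K) w.DJ a o := GJ_nonneg _ _ _ w.good _ _

theorem w1_card_filter (A B : Finset ℕ) (hAB : A ⊆ B) :
    ((univ : Finset {b // b ∈ B}).filter (fun j => j.1 ∈ A)).card = A.card := by
  rw [← Finset.card_map (Function.Embedding.subtype (fun b => b ∈ B))]
  congr 1
  ext x
  simp only [Finset.mem_map, Finset.mem_filter, Finset.mem_univ, true_and,
    Function.Embedding.coe_subtype]
  constructor
  · rintro ⟨a, ha, rfl⟩
    exact ha
  · intro hx
    exact ⟨⟨x, hAB hx⟩, hx, rfl⟩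

/-- The sums of second moments: at most `KA` forms are allowed, at most `K` are not. -/
theorem WG.Sys.hm {w : WG} {A B : Finset ℕ} {M : ℕ} (h : w.Sys A B M)
    (i : Fin w.nA ⊕ Fin w.nD) :
    2 * ∑ j ∈ (univ : Finset {b // b ∈ B}), GJ (qq w.P w.K) (w.Df A B) j (some i) + w.R i
      ≤ w.m i := by
  refine le_trans ?_ (w.hm i)
  have h0 : ∑ j ∈ (univ : Finset {b // b ∈ B}), GJ (qq w.P w.K) (w.Df A B) j (some i) ≤
      w.KA * GJ (qq w.P w.K) w.DJ true (some i) + w.K * GJ (qq w.P w.K) w.DJ false (some i) := by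
    rw [← Finset.sum_filter_add_sum_filter_not (univ : Finset {b // b ∈ B}) (fun j => j.1 ∈ A)]
    have h1 : ∑ j ∈ (univ : Finset {b // b ∈ B}).filter (fun j => j.1 ∈ A),
        GJ (qq w.P w.K) (w.Df A B) j (some i) =
          (A.card : ℝ) * GJ (qq w.P w.K) w.DJ true (some i) := by
      rw [← w1_card_filter A B h.AB, ← nsmul_eq_mul]
      refine Finset.sum_eq_card_nsmul fun j hj => ?_
      rw [w1_GJ, decide_eq_true (Finset.mem_filter.1 hj).2]
    have h2 : ∑ j ∈ (univ : Finset {b // b ∈ B}).filter (fun j => ¬ j.1 ∈ A),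
        GJ (qq w.P w.K) (w.Df A B) j (some i) =
          (((univ : Finset {b // b ∈ B}).filter (fun j => ¬ j.1 ∈ A)).card : ℝ) *
            GJ (qq w.P w.K) w.DJ false (some i) := by
      rw [← nsmul_eq_mul]
      refine Finset.sum_eq_card_nsmul fun j hj => ?_
      rw [w1_GJ, decide_eq_false (Finset.mem_filter.1 hj).2]
    rw [h1, h2]
    have h3 : (A.card : ℝ) ≤ w.KA := by exact_mod_cast h.cardA
    have h4 : ((((univ : Finset {b // b ∈ B}).filter (fun j => ¬ j.1 ∈ A)).card : ℕ) : ℝ) ≤ w.K := by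
      have h5 := Finset.card_filter_le (univ : Finset {b // b ∈ B}) (fun j => ¬ j.1 ∈ A)
      rw [Finset.card_univ, Fintype.card_coe] at h5
      exact_mod_cast h5.trans h.cardB
    exact add_le_add (mul_le_mul_of_nonneg_right h3 (w1_GJ_nonneg w _ _))
      (mul_le_mul_of_nonneg_right h4 (w1_GJ_nonneg w _ _))
  linarith

/-- The values at `∅` of the factors of an allowed form. -/
theorem WG.sum_allowed (w : WG) (A B : Finset ℕ) (j : {b // b ∈ B}) (hj : j.1 ∈ A) :
    (∀ i, 0 ≤ w.Df A B j i ∅) ∧ 1 + ∑ i, w.Df A B j i ∅ = w.g := by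
  have h1 : w.Df A B j = w.DJ true := by
    unfold WG.Df
    rw [decide_eq_true hj]
  rw [h1]
  constructor
  · rintro (i | i)
    · rw [w.trl]
      exact w.cA0
    · rw [w.trr]
  · rw [Fintype.sum_sum_type]
    simp only [w.trl, w.trr]
    rw [Finset.sum_const, Finset.sum_const_zero, Finset.card_univ, Fintype.card_fin, nsmul_eq_mul,
      add_zero]
    rfl

theorem w1_Qpos (w : WG) : 0 < ∏ p ∈ w.P, p :=
  Finset.prod_pos fun p hp => (w.prime p hp).pos

/-- Sum over `t < Y` of a nonnegative function of the configuration of level `L`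
(`Lev.avg` with `a = 0`, `EP_le`, `w.hKW`). -/
theorem WG.Sys.avg_le {w : WG} {A B : Finset ℕ} {M : ℕ} (h : w.Sys A B M)
    (F : ({b // b ∈ B} → Finset {p // p ∈ w.P}) → ℝ) (h0 : ∀ S, 0 ≤ F S) (L : ℝ)
    (hL : Lev (∏ p ∈ w.P, p) (fun t => F (fun j => hit w.P (j.1 + M * t))) L) (Y : ℕ) :
    ∑ t ∈ range Y, F (fun j => hit w.P (j.1 + M * t)) ≤
      Y * ((1 + w.e) * EX (qq w.P w.K) F) + 2 * L := by
  have h1 := Lev.avg (w1_Qpos w) hL 0 Y
  rw [zero_add, ← Finset.range_eq_Ico] at h1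
  have h2 : EP w.P M (fun j : {b // b ∈ B} => j.1) F ≤ (1 + w.e) * EX (qq w.P w.K) F :=
    (EP_le w.P w.W w.K M _ h.forms F h0).trans
      (mul_le_mul_of_nonneg_right w.hKW (EX_nonneg _ w.good.q0 w.good.q1 F h0))
  have h3 := mul_le_mul_of_nonneg_left h2 (Nat.cast_nonneg Y : (0 : ℝ) ≤ Y)
  have h4 : |∑ t ∈ range Y, F (fun j => hit w.P (j.1 + M * t)) -
      Y * EP w.P M (fun j : {b // b ∈ B} => j.1) F| ≤ 2 * L := h1
  rw [abs_le] at h4
  linarith [h4.2]

theorem w1_one_le_ZG (w : WG) (A B : Finset ℕ) : 1 ≤ ZG (qq w.P w.K) (w.Df A B) univ :=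
  one_le_ZG _ _ _ (w.good_Df A B) _



/-- the error terms -/
theorem w1_err (w : WG) (Y : ℕ) (hY : w.Long Y) (a k : ℕ) (ha : a ≤ 4) (hk : k ≤ 4) :
    2 * w.K * (w.g ^ a * w.lv ^ k) ≤ w.e * w.el ^ 2 * Y / 4 ∧
      2 * (w.g ^ a * w.lv ^ k) ≤ w.e * w.el ^ 2 * Y / 4 := by
  have h1 : w.g ^ a * w.lv ^ k ≤ w.g ^ 4 * w.lv ^ 4 :=
    mul_le_mul (pow_le_pow_right₀ w.one_le_g ha) (pow_le_pow_right₀ w.lv1 hk)
      (pow_nonneg (zero_le_one.trans w.lv1) _) (pow_nonneg (zero_le_one.trans w.one_le_g) _)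
  have h2 : (1 : ℝ) ≤ w.K := by exact_mod_cast w.Kpos
  have h3 : 0 ≤ w.g ^ a * w.lv ^ k := mul_nonneg (pow_nonneg (zero_le_one.trans w.one_le_g) _)
    (pow_nonneg (zero_le_one.trans w.lv1) _)
  have h4 : (w.K : ℝ) * (w.g ^ a * w.lv ^ k) ≤ w.K * (w.g ^ 4 * w.lv ^ 4) :=
    mul_le_mul_of_nonneg_left h1 (by linarith)
  have h5 : w.g ^ a * w.lv ^ k ≤ w.K * (w.g ^ a * w.lv ^ k) := le_mul_of_one_le_left h3 h2
  have h6 : 8 * w.K * w.g ^ 4 * w.lv ^ 4 ≤ w.e * w.el ^ 2 * Y := hY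
  constructor <;> nlinarith

theorem w1_err1 (w : WG) (Y : ℕ) (hY : w.Long Y) (a k : ℕ) (ha : a ≤ 4) (hk : k ≤ 4) :
    2 * w.K * (w.g ^ a * w.lv ^ k) ≤ w.e * w.el * Y / 4 ∧
      2 * w.K * (w.g ^ a * w.lv ^ k) ≤ w.e * Y / 4 ∧
      2 * (w.g ^ a * w.lv ^ k) ≤ w.e * w.el * Y / 4 ∧
      2 * (w.g ^ a * w.lv ^ k) ≤ w.e * Y / 4 := by
  obtain ⟨h1, h2⟩ := w1_err w Y hY a k ha hk
  have h3 : w.el ^ 2 ≤ w.el := by
    have := mul_le_mul_of_nonneg_left w.el1 w.el0.le
    nlinarith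
  have h5 : 0 ≤ w.e * Y := mul_nonneg w.e0.le (Nat.cast_nonneg Y)
  have h6 : w.e * w.el ^ 2 * Y ≤ w.e * w.el * Y := by
    have := mul_le_mul_of_nonneg_left h3 h5
    nlinarith
  have h7 : w.e * w.el * Y ≤ w.e * Y := by
    have := mul_le_mul_of_nonneg_left w.el1 h5
    nlinarith
  refine ⟨?_, ?_, ?_, ?_⟩ <;> linarith



end Pool.Agent.Lib.H92G
end

-- from Lib.Helper57.PairCount
section

/-!
# Counting primes and pairs of primes in short intervals, and moments of `h / φ(h)`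
-/

namespace Pool.Agent.Lib.Helper57

open Finset Pool.Agent.Lib.Sieve

/-- `h / φ(h)`, written as a product over the prime factors. -/
noncomputable def G (h : ℕ) : ℝ := ∏ p ∈ h.primeFactors, (1 - 1 / (p : ℝ))⁻¹

lemma inv_one_sub_ge_one {p : ℕ} (hp : 2 ≤ p) : 1 ≤ (1 - 1 / (p : ℝ))⁻¹ := by
  have hp2 : (2 : ℝ) ≤ p := by exact_mod_cast hp
  have h2 : (1 : ℝ) / p ≤ 1 / 2 := one_div_le_one_div_of_le (by norm_num) hp2
  have h3 : 0 < 1 - 1 / (p : ℝ) := by linarith
  rw [one_le_inv₀ h3]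
  have : (0 : ℝ) ≤ 1 / p := by positivity
  linarith


lemma moment_le (k N : ℕ) (hk : 1 ≤ k) :
    ∑ h ∈ Finset.Icc 1 N, G h ^ k ≤ 3 * (N * (500 * Real.log (2 * k : ℕ)) ^ k) := by
  have hk' : (1 : ℝ) ≤ k := by exact_mod_cast hk
  set f : ℕ → ℝ := fun p => if p.Prime then ((1 - 1 / (p : ℝ))⁻¹) ^ k - 1 else 0 with hf
  have hf0 : ∀ p, 0 ≤ f p := by
    intro p
    simp only [hf]
    split_ifs with hp
    · have := one_le_pow₀ (n := k) (inv_one_sub_ge_one hp.two_le)
      linarith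
    · exact le_rfl
  have h1 : ∀ h ∈ Finset.Icc 1 N, G h ^ k = ∏ p ∈ h.primeFactors, (1 + f p) := by
    intro h _
    unfold G
    rw [← Finset.prod_pow]
    apply Finset.prod_congr rfl
    intro p hp
    have := Nat.prime_of_mem_primeFactors hp
    simp only [hf, if_pos this]
    ring
  rw [Finset.sum_congr rfl h1]
  refine (sum_prod_primeFactors_le f hf0 N).trans ?_
  -- split the primes at `2 k`
  have h2 : ∏ p ∈ primesUpTo N, (1 + f p / p) =
      (∏ p ∈ (primesUpTo N).filter (fun p => p ≤ 2 * k), (1 + f p / p)) *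
      ∏ p ∈ (primesUpTo N).filter (fun p => ¬ p ≤ 2 * k), (1 + f p / p) :=
    (Finset.prod_filter_mul_prod_filter_not _ _ _).symm
  have h3 : ∏ p ∈ (primesUpTo N).filter (fun p => p ≤ 2 * k), (1 + f p / p) ≤
      (500 * Real.log (2 * k : ℕ)) ^ k := by
    calc ∏ p ∈ (primesUpTo N).filter (fun p => p ≤ 2 * k), (1 + f p / p)
        ≤ ∏ p ∈ primesUpTo (2 * k), (1 + f p / p) := by
          apply Finset.prod_le_prod_of_subset_of_one_le
          · intro p hp
            rw [mem_filter, mem_primesUpTo] at hp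
            rw [mem_primesUpTo]
            exact ⟨hp.1.1, hp.2⟩
          · intro p _
            have := hf0 p
            positivity
          · intro p _ _
            have := hf0 p
            have : 0 ≤ f p / p := by positivity
            linarith
      _ ≤ ∏ p ∈ primesUpTo (2 * k), ((1 - 1 / (p : ℝ))⁻¹) ^ k := by
          apply Finset.prod_le_prod
          · intro p _
            have := hf0 p
            positivity
          · intro p hp
            have hpp := (mem_primesUpTo.mp hp).1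
            have hp1 : (1 : ℝ) ≤ p := by exact_mod_cast hpp.one_le
            have h4 : f p / p ≤ f p := div_le_self (hf0 p) hp1
            have h5 : f p = ((1 - 1 / (p : ℝ))⁻¹) ^ k - 1 := by simp only [hf, if_pos hpp]
            linarith
      _ = (∏ p ∈ primesUpTo (2 * k), (1 - 1 / (p : ℝ))⁻¹) ^ k := Finset.prod_pow _ _ _
      _ ≤ (500 * Real.log (2 * k : ℕ)) ^ k := by
          apply pow_le_pow_left₀
          · apply Finset.prod_nonneg
            intro p hp
            exact zero_le_one.trans (inv_one_sub_ge_one (mem_primesUpTo.mp hp).1.two_le)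
          · exact prod_one_sub_inv_inv_le (2 * k) (by omega)
  have h4 : ∏ p ∈ (primesUpTo N).filter (fun p => ¬ p ≤ 2 * k), (1 + f p / p) ≤ 3 := by
    calc ∏ p ∈ (primesUpTo N).filter (fun p => ¬ p ≤ 2 * k), (1 + f p / p)
        ≤ ∏ p ∈ (primesUpTo N).filter (fun p => ¬ p ≤ 2 * k),
            Real.exp (2 * k * (1 / (p : ℝ) ^ 2)) := by
          apply Finset.prod_le_prod
          · intro p _
            have := hf0 p
            positivity
          · intro p hp
            rw [mem_filter, mem_primesUpTo] at hp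
            obtain ⟨⟨hpp, _⟩, hpk⟩ := hp
            push Not at hpk
            have hpk' : (2 * k : ℝ) < p := by exact_mod_cast hpk
            have hp0 : (0 : ℝ) < p := by exact_mod_cast hpp.pos
            -- Bernoulli
            have h5 : 1 - k / (p : ℝ) ≤ (1 - 1 / (p : ℝ)) ^ k := by
              have h6 : (1 : ℝ) / p ≤ 1 := by
                rw [div_le_one hp0]; linarith
              have := one_add_mul_le_pow (a := -(1 / (p : ℝ))) (by linarith) k
              calc 1 - k / (p : ℝ) = 1 + k * (-(1 / (p : ℝ))) := by ring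
                _ ≤ (1 + -(1 / (p : ℝ))) ^ k := this
                _ = _ := by ring_nf
            have h6 : (k : ℝ) / p ≤ 1 / 2 := by
              rw [div_le_div_iff₀ hp0 (by norm_num)]; linarith
            have h7 : 0 < 1 - (k : ℝ) / p := by linarith
            have h8 : ((1 - 1 / (p : ℝ))⁻¹) ^ k ≤ 1 + 2 * (k / p) := by
              rw [inv_pow]
              calc ((1 - 1 / (p : ℝ)) ^ k)⁻¹ ≤ (1 - (k : ℝ) / p)⁻¹ := by
                    apply inv_anti₀ h7 h5
                _ ≤ 1 + 2 * (k / p) := by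
                    rw [inv_le_iff_one_le_mul₀ h7]
                    have : 0 ≤ (k : ℝ) / p := by positivity
                    nlinarith
            have h9 : f p ≤ 2 * (k / p) := by
              have : f p = ((1 - 1 / (p : ℝ))⁻¹) ^ k - 1 := by simp only [hf, if_pos hpp]
              linarith
            calc 1 + f p / p ≤ 1 + 2 * k * (1 / (p : ℝ) ^ 2) := by
                  have : f p / p ≤ 2 * (k / p) / p := by gcongr
                  have h10 : 2 * ((k : ℝ) / p) / p = 2 * k * (1 / (p : ℝ) ^ 2) := by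
                    field_simp
                  linarith
              _ ≤ _ := by
                  have := Real.add_one_le_exp (2 * k * (1 / (p : ℝ) ^ 2))
                  linarith
      _ = Real.exp (2 * k * ∑ p ∈ (primesUpTo N).filter (fun p => ¬ p ≤ 2 * k),
            1 / (p : ℝ) ^ 2) := by
          rw [← Real.exp_sum, Finset.mul_sum]
      _ ≤ Real.exp 1 := by
          apply Real.exp_le_exp.mpr
          have h5 := sum_inv_sq_primes_le ((primesUpTo N).filter (fun p => ¬ p ≤ 2 * k)) (2 * k)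
            (by omega) (fun p hp => by
              have := (mem_filter.mp hp).2
              omega)
          push_cast at h5
          calc 2 * (k : ℝ) * ∑ p ∈ (primesUpTo N).filter (fun p => ¬ p ≤ 2 * k), 1 / (p : ℝ) ^ 2
              ≤ 2 * k * (1 / (2 * k)) := by gcongr
            _ = 1 := by field_simp
      _ ≤ 3 := by linarith [Real.exp_one_lt_d9]
  rw [h2]
  have hlog : 0 ≤ Real.log (2 * k : ℕ) := Real.log_natCast_nonneg _
  calc (N : ℝ) * ((∏ p ∈ (primesUpTo N).filter (fun p => p ≤ 2 * k), (1 + f p / p)) *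
      ∏ p ∈ (primesUpTo N).filter (fun p => ¬ p ≤ 2 * k), (1 + f p / p))
      ≤ N * ((500 * Real.log (2 * k : ℕ)) ^ k * 3) := by
        gcongr
        apply Finset.prod_nonneg
        intro p _
        have := hf0 p
        positivity
    _ = _ := by ring













end Pool.Agent.Lib.Helper57
end

-- from Lib.H59C.BV1D
section

/-!
# BV1D: the sum of 1/φ
-/

open Finset

namespace Pool.Agent.Lib.H59C

open Pool.Agent.Lib.H68T (PC p0 e)

theorem BV1D_totient (k : ℕ) (hk : 1 ≤ k) :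
    1 / (Nat.totient k : ℝ) = Helper57.G k / k := by
  have h1 := Nat.totient_eq_mul_prod_factors k
  have h2 : (Nat.totient k : ℝ) = k * ∏ p ∈ k.primeFactors, (1 - (p : ℝ)⁻¹) := by
    have h3 := congrArg (fun q : ℚ => (q : ℝ)) h1
    push_cast at h3
    exact h3
  have hk0 : (k : ℝ) ≠ 0 := by
    have : k ≠ 0 := by omega
    exact_mod_cast this
  have hprod : ∏ p ∈ k.primeFactors, (1 - (p : ℝ)⁻¹) ≠ 0 := by
    rw [Finset.prod_ne_zero_iff]
    intro p hp
    have hp2 : (2 : ℝ) ≤ p := by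
      exact_mod_cast (Nat.prime_of_mem_primeFactors hp).two_le
    have h4 : (p : ℝ)⁻¹ ≤ 2⁻¹ := inv_anti₀ (by norm_num) hp2
    have h5 : (0 : ℝ) < 1 - (p : ℝ)⁻¹ := by
      have : (2 : ℝ)⁻¹ < 1 := by norm_num
      linarith
    exact h5.ne'
  have hG : Helper57.G k = (∏ p ∈ k.primeFactors, (1 - (p : ℝ)⁻¹))⁻¹ := by
    unfold Helper57.G
    rw [← Finset.prod_inv_distrib]
    apply Finset.prod_congr rfl
    intro p _
    rw [one_div]
  rw [h2, hG]
  field_simp

/-- partial summation -/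
theorem BV1D_sum (g : ℕ → ℝ) (C : ℝ) (hC : 0 ≤ C)
    (h : ∀ N : ℕ, ∑ k ∈ Icc 1 N, g k ≤ C * N) (D : ℕ) (hD : 1 ≤ D) :
    ∑ k ∈ Icc 1 D, g k / k ≤ (∑ k ∈ Icc 1 D, g k) / D + C * Real.log D := by
  induction D, hD using Nat.le_induction with
  | base => simp
  | succ D hD ih =>
    rw [Finset.sum_Icc_succ_top (by omega), Finset.sum_Icc_succ_top (by omega)]
    have hS := h D
    set S : ℝ := ∑ k ∈ Icc 1 D, g k with hSd
    have hD0 : (0 : ℝ) < D := by
      have : 0 < D := by omega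
      exact_mod_cast this
    have h1 : 1 / ((D : ℝ) + 1) ≤ Real.log ((D + 1 : ℕ) : ℝ) - Real.log D := by
      rw [← Real.log_div (by positivity) hD0.ne']
      have h2 := Real.one_sub_inv_le_log_of_pos (x := ((D + 1 : ℕ) : ℝ) / D) (by positivity)
      refine le_trans (le_of_eq ?_) h2
      push_cast
      field_simp
      ring
    have h3 : S / D - S / ((D : ℝ) + 1) ≤ C * (1 / ((D : ℝ) + 1)) := by
      have e : S / D - S / ((D : ℝ) + 1) = (S / D) * (1 / ((D : ℝ) + 1)) := by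
        field_simp
        ring
      rw [e]
      apply mul_le_mul_of_nonneg_right _ (by positivity)
      rw [div_le_iff₀ hD0]
      exact hS
    have h4 : C * (1 / ((D : ℝ) + 1)) ≤ C * (Real.log ((D + 1 : ℕ) : ℝ) - Real.log D) :=
      mul_le_mul_of_nonneg_left h1 hC
    have e2 : (S + g (D + 1)) / ((D + 1 : ℕ) : ℝ) = S / ((D : ℝ) + 1) + g (D + 1) / ((D + 1 : ℕ) : ℝ) := by
      push_cast
      rw [add_div]
    rw [e2]
    linarith

/-- `∑_{k ≤ D} 1/φ(k) ≤ C log D`: `1/φ(k) = k⁻¹ ∑_{e ∣ k} μ²(e)/φ(e)`, so the sum is at most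
`∑_e μ²(e)/(e φ(e)) ∑_{k ≤ D} 1/k`. -/
theorem sum_inv_totient : ∃ C : ℝ, 0 < C ∧ ∀ D : ℕ, 2 ≤ D →
    ∑ k ∈ Icc 1 D, 1 / (Nat.totient k : ℝ) ≤ C * Real.log D := by
  obtain ⟨K, hK⟩ : ∃ K : ℝ, K = 3 * (500 * Real.log ((2 * 1 : ℕ) : ℝ)) := ⟨_, rfl⟩
  have hK0 : 0 < K := by
    rw [hK]
    have : 0 < Real.log ((2 * 1 : ℕ) : ℝ) := Real.log_pos (by norm_num)
    positivity
  have hS : ∀ N : ℕ, ∑ k ∈ Icc 1 N, Helper57.G k ≤ K * N := by
    intro N
    have h := Helper57.moment_le 1 N le_rfl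
    simp only [pow_one] at h
    rw [hK]
    linarith
  have hl2 : 0 < Real.log 2 := Real.log_pos (by norm_num)
  refine ⟨K / Real.log 2 + K, by positivity, fun D hD => ?_⟩
  have h1 : ∑ k ∈ Icc 1 D, 1 / (Nat.totient k : ℝ) = ∑ k ∈ Icc 1 D, Helper57.G k / k := by
    apply Finset.sum_congr rfl
    intro k hk
    exact BV1D_totient k (mem_Icc.1 hk).1
  rw [h1]
  have h2 := BV1D_sum Helper57.G K hK0.le hS D (by omega)
  have hD0 : (0 : ℝ) < D := by
    have : 0 < D := by omega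
    exact_mod_cast this
  have h3 : (∑ k ∈ Icc 1 D, Helper57.G k) / D ≤ K := by
    rw [div_le_iff₀ hD0]
    exact hS D
  have h4 : Real.log 2 ≤ Real.log D := by
    apply Real.log_le_log (by norm_num)
    exact_mod_cast hD
  have h5 : K ≤ K / Real.log 2 * Real.log D := by
    rw [div_mul_eq_mul_div, le_div_iff₀ hl2]
    exact mul_le_mul_of_nonneg_left h4 hK0.le
  calc ∑ k ∈ Icc 1 D, Helper57.G k / k ≤ (∑ k ∈ Icc 1 D, Helper57.G k) / D + K * Real.log D := h2
    _ ≤ K / Real.log 2 * Real.log D + K * Real.log D := by linarith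
    _ = (K / Real.log 2 + K) * Real.log D := by ring

end Pool.Agent.Lib.H59C
end

-- from Lib.H15P.NT1
section

/-!
# Chunk NT1: Mertens products over blocks
-/

open Finset

namespace Pool.Agent.Lib.H15P

theorem NT1_split (f : ℕ → ℝ) (a b : ℕ) (hab : a ≤ b) :
    ∏ p ∈ Sieve.primesUpTo b, f p =
      (∏ p ∈ Sieve.primesUpTo a, f p) * ∏ p ∈ (Ioc a b).filter Nat.Prime, f p := by
  have h1 : Sieve.primesUpTo b = Sieve.primesUpTo a ∪ (Ioc a b).filter Nat.Prime := by
    ext p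
    rw [mem_union, Sieve.mem_primesUpTo, Sieve.mem_primesUpTo, mem_filter, mem_Ioc]
    constructor
    · rintro ⟨h1, h2⟩
      rcases le_or_gt p a with h | h
      · exact Or.inl ⟨h1, h⟩
      · exact Or.inr ⟨⟨h, h2⟩, h1⟩
    · rintro (⟨h1, h2⟩ | ⟨⟨h1, h2⟩, h3⟩)
      · exact ⟨h1, h2.trans hab⟩
      · exact ⟨h3, h2⟩
  rw [h1, prod_union]
  rw [disjoint_left]
  intro p hp hp'
  rw [Sieve.mem_primesUpTo] at hp
  rw [mem_filter, mem_Ioc] at hp'
  omega

theorem NT1_pos (p : ℕ) (hp : p.Prime) : 0 < 1 - 1 / (p : ℝ) := by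
  have h2 : (2 : ℝ) ≤ p := by exact_mod_cast hp.two_le
  have : 1 / (p : ℝ) ≤ 1 / 2 := one_div_le_one_div_of_le (by norm_num) h2
  linarith

/-- `∏_{a < p ≤ b} (1 - 1/p) ≤ 500 log a / log b`, from `Sieve.prod_one_sub_inv_le b` and
`Helper57.prod_one_sub_inv_inv_le a`. -/
theorem mertens_prod_le (a b : ℕ) (ha : 2 ≤ a) (hab : a ≤ b) :
    ∏ p ∈ (Ioc a b).filter Nat.Prime, (1 - 1 / (p : ℝ)) ≤ 500 * (Real.log a / Real.log b) := by
  have hloga : 0 < Real.log a := Real.log_pos (by exact_mod_cast (by omega : 1 < a))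
  have hlogb : 0 < Real.log b := Real.log_pos (by exact_mod_cast (by omega : 1 < b))
  have h1 := Sieve.prod_one_sub_inv_le b (ha.trans hab)
  have h2 := Helper57.prod_one_sub_inv_inv_le a ha
  rw [NT1_split _ a b hab] at h1
  have hpos : 0 < ∏ p ∈ Sieve.primesUpTo a, (1 - 1 / (p : ℝ)) :=
    prod_pos fun p hp => NT1_pos p (Sieve.mem_primesUpTo.mp hp).1
  rw [prod_inv_distrib] at h2
  have h3 : ∏ p ∈ (Ioc a b).filter Nat.Prime, (1 - 1 / (p : ℝ)) ≤
      (∏ p ∈ Sieve.primesUpTo a, (1 - 1 / (p : ℝ)))⁻¹ * (1 / Real.log b) := by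
    rw [inv_mul_eq_div, le_div_iff₀ hpos]
    linarith
  refine h3.trans ((mul_le_mul_of_nonneg_right h2 (by positivity)).trans (le_of_eq ?_))
  ring

/-- `Σ_{a < p ≤ b} 1/p ≤ -Σ log (1 - 1/p) ≤ log (500 log b/log a)`. -/
theorem mertens_sum_le (a b : ℕ) (ha : 2 ≤ a) (hab : a ≤ b) :
    ∑ p ∈ (Ioc a b).filter Nat.Prime, 1 / (p : ℝ)
      ≤ Real.log (500 * (Real.log b / Real.log a)) := by
  have hloga : 0 < Real.log a := Real.log_pos (by exact_mod_cast (by omega : 1 < a))
  have hlogb : 0 < Real.log b := Real.log_pos (by exact_mod_cast (by omega : 1 < b))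
  have h1 := Sieve.prod_one_sub_inv_le a ha
  have h2 := Helper57.prod_one_sub_inv_inv_le b (ha.trans hab)
  have hposa : 0 < ∏ p ∈ Sieve.primesUpTo a, (1 - 1 / (p : ℝ)) :=
    prod_pos fun p hp => NT1_pos p (Sieve.mem_primesUpTo.mp hp).1
  have hposab : 0 < ∏ p ∈ (Ioc a b).filter Nat.Prime, (1 - 1 / (p : ℝ)) :=
    prod_pos fun p hp => NT1_pos p (mem_filter.1 hp).2
  rw [prod_inv_distrib, NT1_split _ a b hab] at h2
  have h3 : (∏ p ∈ (Ioc a b).filter Nat.Prime, (1 - 1 / (p : ℝ)))⁻¹ ≤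
      500 * (Real.log b / Real.log a) := by
    rw [mul_inv] at h2
    have e1 : (∏ p ∈ (Ioc a b).filter Nat.Prime, (1 - 1 / (p : ℝ)))⁻¹ =
        (∏ p ∈ Sieve.primesUpTo a, (1 - 1 / (p : ℝ))) *
          ((∏ p ∈ Sieve.primesUpTo a, (1 - 1 / (p : ℝ)))⁻¹ *
          (∏ p ∈ (Ioc a b).filter Nat.Prime, (1 - 1 / (p : ℝ)))⁻¹) := by
      field_simp
    rw [e1]
    calc _ ≤ (1 / Real.log a) * (500 * Real.log b) :=
          mul_le_mul h1 h2 (by positivity) (by positivity)
      _ = _ := by ring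
  refine le_trans ?_ (Real.log_le_log (by positivity) h3)
  rw [Real.log_inv, Real.log_prod (fun p hp => (NT1_pos p (mem_filter.1 hp).2).ne'),
    ← sum_neg_distrib]
  refine sum_le_sum fun p hp => ?_
  have := Real.log_le_sub_one_of_pos (NT1_pos p (mem_filter.1 hp).2)
  linarith

variable (κ W K : ℕ) (T : ℝ)

theorem NT1_frac (hK : 1 ≤ K) (hKW : 4 * K ^ 2 ≤ W) (p : ℕ) (hp : p.Prime) (hWp : W < p) :
    (1 / (p : ℝ) + 2 * K / (p : ℝ) ^ 2) / (1 + 2 * K / (p : ℝ) ^ 2) /
      (1 - (1 / (p : ℝ) + 2 * K / (p : ℝ) ^ 2) / (1 + 2 * K / (p : ℝ) ^ 2)) ≤ 4 * (1 / (p : ℝ)) ∧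
    1 - (1 / (p : ℝ) + 2 * K / (p : ℝ) ^ 2) / (1 + 2 * K / (p : ℝ) ^ 2) ≤ 1 - 1 / (p : ℝ) ∧
    0 ≤ 1 - (1 / (p : ℝ) + 2 * K / (p : ℝ) ^ 2) / (1 + 2 * K / (p : ℝ) ^ 2) := by
  have hp2 : (2 : ℝ) ≤ p := by exact_mod_cast hp.two_le
  have hp0 : (0 : ℝ) < p := by linarith
  have hK1 : (1 : ℝ) ≤ K := by exact_mod_cast hK
  have hKp : 4 * (K : ℝ) ≤ p := by
    have h1 : 4 * K ≤ p := by nlinarith
    exact_mod_cast h1
  set x : ℝ := 1 / (p : ℝ) with hx
  have hx0 : 0 < x := by positivity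
  have hx2 : x ≤ 1 / 2 := one_div_le_one_div_of_le (by norm_num) hp2
  set y : ℝ := 2 * K / (p : ℝ) ^ 2 with hy
  have hy0 : 0 < y := by positivity
  have hyx : y ≤ x / 2 := by
    rw [hy, hx, div_div, div_le_div_iff₀ (by positivity) (by positivity)]
    nlinarith
  have hden : 0 < 1 + y := by linarith
  have h1 : 1 - (x + y) / (1 + y) = (1 - x) / (1 + y) := by
    field_simp
    ring
  rw [h1]
  have h1x : 0 < 1 - x := by linarith
  refine ⟨?_, ?_, by positivity⟩
  · rw [div_div_div_cancel_right₀ hden.ne', div_le_iff₀ h1x]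
    nlinarith
  · rw [div_le_iff₀ hden]
    nlinarith

theorem NT1_bk (hκ : 2 ≤ κ) (p b : ℕ) (h1 : (κ : ℝ) ^ b ≤ T / Real.log p)
    (h2 : T / Real.log p < (κ : ℝ) ^ (b + 1)) : bk κ T p = b := by
  have h0 : 0 ≤ T / Real.log p := le_trans (by positivity) h1
  unfold bk
  refine Nat.log_eq_of_pow_le_of_lt_pow ?_ ?_
  · exact Nat.le_floor (by rw [Nat.cast_pow]; exact h1)
  · rw [Nat.floor_lt h0, Nat.cast_pow]
    exact h2

/-- `qq/(1 - qq) = (1/p + 2K/p^2)/(1 - 1/p) ≤ 4/p`. In a block the logarithms of two primes differ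
at most by the factor `κ`; with `a` = the smallest and `b` = the largest prime of the block
`Σ 1/p ≤ 1/a + log (500 κ) ≤ log (1000 κ)`. -/
theorem block_sum_le (hκ : 2 ≤ κ) (hW : 2 ≤ W) (hK : 1 ≤ K) (hKW : 4 * K ^ 2 ≤ W)
    (hT : 0 ≤ T) (b : ℕ) :
    ∑ i ∈ univ.filter (fun i : {p // p ∈ PP W T} => bk κ T i.1 = b),
        qq (PP W T) K i / (1 - qq (PP W T) K i) ≤ 4 * Real.log (1000 * κ) := by
  have hκ2 : (2 : ℝ) ≤ κ := by exact_mod_cast hκ
  have h1 : ∑ i ∈ univ.filter (fun i : {p // p ∈ PP W T} => bk κ T i.1 = b),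
        qq (PP W T) K i / (1 - qq (PP W T) K i) ≤
      ∑ i ∈ univ.filter (fun i : {p // p ∈ PP W T} => bk κ T i.1 = b), 4 * (1 / (i.1 : ℝ)) := by
    refine sum_le_sum fun i _ => ?_
    obtain ⟨h1, h2, -⟩ := NT2_mem W T i.1 i.2
    exact (NT1_frac W K hK hKW i.1 h1 h2).1
  refine h1.trans ?_
  rw [← mul_sum]
  refine mul_le_mul_of_nonneg_left ?_ (by norm_num)
  have h2 : ∑ i ∈ univ.filter (fun i : {p // p ∈ PP W T} => bk κ T i.1 = b), 1 / (i.1 : ℝ) =
      ∑ p ∈ (PP W T).filter (fun p => bk κ T p = b), 1 / (p : ℝ) := by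
    rw [sum_filter, sum_filter]
    exact Finset.sum_coe_sort (PP W T) (fun p => if bk κ T p = b then 1 / (p : ℝ) else 0)
  rw [h2]
  set B := (PP W T).filter (fun p => bk κ T p = b) with hB
  have hmem : ∀ p ∈ B, p.Prime ∧ W < p ∧ Real.log p ≤ T ∧ bk κ T p = b := by
    intro p hp
    rw [hB, mem_filter] at hp
    obtain ⟨h1, h2, h3⟩ := NT2_mem W T p hp.1
    exact ⟨h1, h2, h3, hp.2⟩
  rcases B.eq_empty_or_nonempty with h | h
  · rw [h, sum_empty]
    exact Real.log_nonneg (by linarith)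
  · set a := B.min' h with ha
    set c := B.max' h with hc
    obtain ⟨a1, a2, a3, a4⟩ := hmem a (B.min'_mem h)
    obtain ⟨c1, c2, c3, c4⟩ := hmem c (B.max'_mem h)
    have hac : a ≤ c := B.min'_le_max' h
    have ha2 : 2 ≤ a := a1.two_le
    have hloga : 0 < Real.log a := Real.log_pos (by exact_mod_cast (by omega : 1 < a))
    have hlogc : 0 < Real.log c := Real.log_pos (by exact_mod_cast (by omega : 1 < c))
    have hsa := (bk_spec κ T hκ a a1 a3).2
    have hsc := (bk_spec κ T hκ c c1 c3).1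
    rw [a4, div_lt_iff₀ hloga] at hsa
    rw [c4, le_div_iff₀ hlogc] at hsc
    have hratio : Real.log c / Real.log a ≤ κ := by
      rw [div_le_iff₀ hloga]
      have h3 : (κ : ℝ) ^ b * Real.log c ≤ (κ : ℝ) ^ b * (κ * Real.log a) := by
        rw [pow_succ] at hsa
        linarith
      exact le_of_mul_le_mul_left h3 (by positivity)
    have hsub : B ⊆ insert a ((Ioc a c).filter Nat.Prime) := by
      intro p hp
      rw [mem_insert, mem_filter, mem_Ioc]
      have h3 := B.min'_le p hp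
      have h4 := B.le_max' p hp
      rcases eq_or_lt_of_le h3 with h5 | h5
      · exact Or.inl h5.symm
      · exact Or.inr ⟨⟨h5, h4⟩, (hmem p hp).1⟩
    have h3 : ∑ p ∈ B, 1 / (p : ℝ) ≤ 1 / (a : ℝ) + ∑ p ∈ (Ioc a c).filter Nat.Prime, 1 / (p : ℝ) := by
      refine (sum_le_sum_of_subset_of_nonneg hsub fun _ _ _ => by positivity).trans (le_of_eq ?_)
      rw [sum_insert]
      rw [mem_filter, mem_Ioc]
      omega
    have h4 := mertens_sum_le a c ha2 hac
    have h5 : Real.log (500 * (Real.log c / Real.log a)) ≤ Real.log (500 * κ) :=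
      Real.log_le_log (by positivity) (by linarith)
    have h6 : Real.log (1000 * (κ : ℝ)) = Real.log 2 + Real.log (500 * κ) := by
      rw [← Real.log_mul (by norm_num) (by positivity)]
      congr 1
      ring
    have h7 : 1 / (a : ℝ) ≤ 1 / 2 := one_div_le_one_div_of_le (by norm_num) (by exact_mod_cast ha2)
    have h8 := Real.log_two_gt_d9
    rw [h6]
    linarith

theorem NT1_floor (y : ℝ) (hy : 2 ≤ y) : y / 2 ≤ Real.log (⌊Real.exp y⌋₊ : ℕ) ∧
    Real.log (⌊Real.exp y⌋₊ : ℕ) ≤ y ∧ 2 ≤ ⌊Real.exp y⌋₊ := by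
  have h1 : 3 ≤ Real.exp y := by linarith [Real.add_one_le_exp y]
  have h2 : Real.exp y < (⌊Real.exp y⌋₊ : ℕ) + 1 := Nat.lt_floor_add_one _
  have h3 : ((⌊Real.exp y⌋₊ : ℕ) : ℝ) ≤ Real.exp y := Nat.floor_le (by linarith)
  have h4 : 2 ≤ ⌊Real.exp y⌋₊ := Nat.le_floor (by push_cast; linarith)
  have h4' : (2 : ℝ) ≤ (⌊Real.exp y⌋₊ : ℕ) := by exact_mod_cast h4
  refine ⟨?_, ?_, h4⟩
  · have h5 : Real.exp (y / 2) ≤ (⌊Real.exp y⌋₊ : ℕ) := by
      have h6 : Real.exp y = Real.exp (y / 2) * Real.exp (y / 2) := by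
        rw [← Real.exp_add]
        congr 1
        ring
      have h7 : 2 ≤ Real.exp (y / 2) := by linarith [Real.add_one_le_exp (y / 2)]
      nlinarith
    rwa [Real.le_log_iff_exp_le (by linarith)]
  · rw [Real.log_le_iff_le_exp (by linarith)]
    exact h3

theorem NT1_prod_coe (P : Finset ℕ) (f : ℕ → ℝ) (g : ℕ → Prop) [DecidablePred g] :
    ∏ i ∈ univ.filter (fun i : {p // p ∈ P} => g i.1), f i.1 = ∏ p ∈ P.filter g, f p := by
  rw [prod_filter, prod_filter]
  exact Finset.prod_coe_sort P (fun p => if g p then f p else 1)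

/-- products over larger sets of factors in `[0, 1]` -/
theorem NT1_mono (s t : Finset ℕ) (hst : s ⊆ t) (f g : ℕ → ℝ)
    (h0 : ∀ p ∈ t, 0 ≤ f p) (h1 : ∀ p ∈ t, f p ≤ g p) (h2 : ∀ p ∈ t, g p ≤ 1) :
    ∏ p ∈ t, f p ≤ ∏ p ∈ s, g p := by
  rw [← prod_sdiff hst]
  have h3 : ∏ p ∈ t \ s, f p ≤ 1 :=
    prod_le_one (fun p hp => h0 p (mem_sdiff.1 hp).1) fun p hp =>
      (h1 p (mem_sdiff.1 hp).1).trans (h2 p (mem_sdiff.1 hp).1)
  have h4 : ∏ p ∈ s, f p ≤ ∏ p ∈ s, g p :=
    prod_le_prod (fun p hp => h0 p (hst hp)) fun p hp => h1 p (hst hp)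
  calc _ ≤ 1 * ∏ p ∈ s, f p :=
        mul_le_mul_of_nonneg_right h3 (prod_nonneg fun p hp => h0 p (hst hp))
    _ ≤ _ := by rw [one_mul]; exact h4

/-- The block consists of all primes in `(⌊exp (T/κ^(b+1))⌋, ⌊exp (T/κ^b)⌋]`, because
`W ≤ exp (T/κ^(b+1))`; `1 - qq ≤ 1 - 1/p`, `mertens_prod_le`, and
`log ⌊exp y⌋ ≥ y - log 2 ≥ y/2` for `y ≥ 2`. -/
theorem p0_le (hκ : 2 ≤ κ) (hW : 2 ≤ W) (hK : 1 ≤ K) (hKW : 4 * K ^ 2 ≤ W) (b : ℕ)
    (hT : Real.log W ≤ T / κ ^ (b + 1)) (hT2 : 2 ≤ T / κ ^ b) :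
    p0 (qq (PP W T) K) (fun i => bk κ T i.1) b ≤ 1000 / κ := by
  have hκ2 : (2 : ℝ) ≤ κ := by exact_mod_cast hκ
  have hκ0 : (0 : ℝ) < κ := by linarith
  have hκb : (0 : ℝ) < (κ : ℝ) ^ b := by positivity
  have hT0 : 0 < T := by
    rw [le_div_iff₀ hκb] at hT2
    linarith
  have hTb : T / (κ : ℝ) ^ b ≤ T :=
    div_le_self hT0.le (one_le_pow₀ (by linarith))
  set y : ℝ := T / (κ : ℝ) ^ b with hy
  set y' : ℝ := T / (κ : ℝ) ^ (b + 1) with hy'
  have hyy : y' = y / κ := by rw [hy, hy', pow_succ, div_div]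
  have hW2 : (2 : ℝ) ≤ W := by exact_mod_cast hW
  have hWexp : (W : ℝ) ≤ Real.exp y' := (Real.log_le_iff_le_exp (by linarith)).1 hT
  have hWa : W ≤ ⌊Real.exp y'⌋₊ := Nat.le_floor hWexp
  have hy'y : y' ≤ y := by
    rw [hyy]
    exact div_le_self (by linarith) (by linarith)
  have hac : ⌊Real.exp y'⌋₊ ≤ ⌊Real.exp y⌋₊ := Nat.floor_le_floor (Real.exp_le_exp.2 hy'y)
  have hm := mertens_prod_le ⌊Real.exp y'⌋₊ ⌊Real.exp y⌋₊ (hW.trans hWa) hac
  obtain ⟨f1, f2, f3⟩ := NT1_floor y hT2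
  have hloga : Real.log (⌊Real.exp y'⌋₊ : ℕ) ≤ y' := by
    have h1 : (2 : ℝ) ≤ (⌊Real.exp y'⌋₊ : ℕ) := by exact_mod_cast hW.trans hWa
    rw [Real.log_le_iff_le_exp (by linarith)]
    exact Nat.floor_le (Real.exp_pos _).le
  have h5 : 500 * (Real.log (⌊Real.exp y'⌋₊ : ℕ) / Real.log (⌊Real.exp y⌋₊ : ℕ)) ≤ 1000 / κ := by
    have h6 : Real.log (⌊Real.exp y'⌋₊ : ℕ) / Real.log (⌊Real.exp y⌋₊ : ℕ) ≤ y' / (y / 2) :=
      div_le_div₀ (by rw [hyy]; positivity) hloga (by linarith) f1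
    have h7 : y' / (y / 2) = 2 / κ := by
      rw [hyy]
      have : y ≠ 0 := by linarith
      field_simp
    rw [h7] at h6
    calc _ ≤ 500 * (2 / (κ : ℝ)) := by linarith
      _ = _ := by ring
  refine le_trans ?_ (hm.trans h5)
  unfold p0
  have h8 := NT1_prod_coe (PP W T) (fun p => 1 - (1 / (p : ℝ) + 2 * K / (p : ℝ) ^ 2) /
    (1 + 2 * K / (p : ℝ) ^ 2)) (fun p => bk κ T p = b)
  refine (le_of_eq h8).trans (NT1_mono _ _ ?_ _ _ ?_ ?_ ?_)
  · intro p hp
    rw [mem_filter, mem_Ioc] at hp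
    obtain ⟨⟨g1, g2⟩, g3⟩ := hp
    have hlogp : 0 < Real.log p := Real.log_pos (by exact_mod_cast g3.one_lt)
    have e1 : y' < Real.log p := by
      rw [Real.lt_log_iff_exp_lt (by exact_mod_cast g3.pos)]
      exact (Nat.floor_lt (Real.exp_pos _).le).1 g1
    have e2 : Real.log p ≤ y := by
      rw [Real.log_le_iff_le_exp (by exact_mod_cast g3.pos)]
      exact (Nat.le_floor_iff (Real.exp_pos _).le).1 g2
    rw [mem_filter]
    constructor
    · unfold PP
      rw [mem_filter, mem_Ioc]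
      refine ⟨⟨by omega, Nat.le_floor ?_⟩, g3⟩
      rw [← Real.log_le_iff_le_exp (by exact_mod_cast g3.pos)]
      linarith
    · refine NT1_bk κ T hκ p b ?_ ?_
      · rw [le_div_iff₀ hlogp]
        rw [hy, le_div_iff₀ hκb] at e2
        linarith
      · rw [div_lt_iff₀ hlogp]
        rw [hy', div_lt_iff₀ (by positivity)] at e1
        linarith
  · intro p hp
    obtain ⟨h1, h2, -⟩ := NT2_mem W T p (mem_filter.1 hp).1
    exact (NT1_frac W K hK hKW p h1 h2).2.2
  · intro p hp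
    obtain ⟨h1, h2, -⟩ := NT2_mem W T p (mem_filter.1 hp).1
    exact (NT1_frac W K hK hKW p h1 h2).2.1
  · intro p _
    have : 0 ≤ 1 / (p : ℝ) := by positivity
    linarith

/-- The blocks `i, .., N - 1` contain all primes in `(W, ⌊exp (T/κ^i)⌋]`. -/
theorem prod_p0_le (hκ : 2 ≤ κ) (hW : 2 ≤ W) (hK : 1 ≤ K) (hKW : 4 * K ^ 2 ≤ W) (i N : ℕ)
    (hN : ∀ p ∈ PP W T, bk κ T p < N)
    (hT : Real.log W ≤ T / κ ^ i) (hT2 : 2 ≤ T / κ ^ i) :
    ∏ b ∈ Ico i N, p0 (qq (PP W T) K) (fun i => bk κ T i.1) b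
      ≤ 1000 * Real.log W * κ ^ i / T := by
  have hκ2 : (2 : ℝ) ≤ κ := by exact_mod_cast hκ
  have hκ0 : (0 : ℝ) < κ := by linarith
  have hκb : (0 : ℝ) < (κ : ℝ) ^ i := by positivity
  have hT0 : 0 < T := by
    rw [le_div_iff₀ hκb] at hT2
    linarith
  have hTb : T / (κ : ℝ) ^ i ≤ T :=
    div_le_self hT0.le (one_le_pow₀ (by linarith))
  set y : ℝ := T / (κ : ℝ) ^ i with hy
  have hW2 : (2 : ℝ) ≤ W := by exact_mod_cast hW
  have hWexp : (W : ℝ) ≤ Real.exp y := (Real.log_le_iff_le_exp (by linarith)).1 hT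
  have hWa : W ≤ ⌊Real.exp y⌋₊ := Nat.le_floor hWexp
  have hm := mertens_prod_le W ⌊Real.exp y⌋₊ hW hWa
  obtain ⟨f1, f2, f3⟩ := NT1_floor y hT2
  have hlogW : 0 < Real.log W := Real.log_pos (by linarith)
  have h5 : 500 * (Real.log W / Real.log (⌊Real.exp y⌋₊ : ℕ)) ≤
      1000 * Real.log W * (κ : ℝ) ^ i / T := by
    have h6 : Real.log W / Real.log (⌊Real.exp y⌋₊ : ℕ) ≤ Real.log W / (y / 2) :=
      div_le_div_of_nonneg_left hlogW.le (by linarith) f1
    have h7 : 500 * (Real.log W / (y / 2)) = 1000 * Real.log W * (κ : ℝ) ^ i / T := by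
      rw [hy]
      field_simp
      ring
    linarith
  refine le_trans ?_ (hm.trans h5)
  have h8 : ∀ b, p0 (qq (PP W T) K) (fun i => bk κ T i.1) b =
      ∏ p ∈ (PP W T).filter (fun p => bk κ T p = b),
        (1 - (1 / (p : ℝ) + 2 * K / (p : ℝ) ^ 2) / (1 + 2 * K / (p : ℝ) ^ 2)) := fun b =>
    NT1_prod_coe (PP W T) (fun p => 1 - (1 / (p : ℝ) + 2 * K / (p : ℝ) ^ 2) /
    (1 + 2 * K / (p : ℝ) ^ 2)) (fun p => bk κ T p = b)
  simp only [h8]
  have h9 : ∏ b ∈ Ico i N, ∏ p ∈ (PP W T).filter (fun p => bk κ T p = b),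
        (1 - (1 / (p : ℝ) + 2 * K / (p : ℝ) ^ 2) / (1 + 2 * K / (p : ℝ) ^ 2)) =
      ∏ p ∈ (PP W T).filter (fun p => bk κ T p ∈ Ico i N),
        (1 - (1 / (p : ℝ) + 2 * K / (p : ℝ) ^ 2) / (1 + 2 * K / (p : ℝ) ^ 2)) := by
    rw [← prod_fiberwise_of_maps_to (s := (PP W T).filter (fun p => bk κ T p ∈ Ico i N))
      (t := Ico i N) (g := bk κ T) (fun p hp => (mem_filter.1 hp).2)]
    refine prod_congr rfl fun b hb => ?_
    rw [filter_filter]
    refine prod_congr ?_ fun _ _ => rfl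
    ext p
    rw [mem_filter, mem_filter]
    constructor
    · rintro ⟨g1, g2⟩
      exact ⟨g1, by rw [g2]; exact hb, g2⟩
    · rintro ⟨g1, -, g2⟩
      exact ⟨g1, g2⟩
  rw [h9]
  refine NT1_mono _ _ ?_ _ _ ?_ ?_ ?_
  · intro p hp
    rw [mem_filter, mem_Ioc] at hp
    obtain ⟨⟨g1, g2⟩, g3⟩ := hp
    have hlogp : 0 < Real.log p := Real.log_pos (by exact_mod_cast g3.one_lt)
    have e2 : Real.log p ≤ y := by
      rw [Real.log_le_iff_le_exp (by exact_mod_cast g3.pos)]
      exact (Nat.le_floor_iff (Real.exp_pos _).le).1 g2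
    have hpP : p ∈ PP W T := by
      unfold PP
      rw [mem_filter, mem_Ioc]
      refine ⟨⟨by omega, Nat.le_floor ?_⟩, g3⟩
      rw [← Real.log_le_iff_le_exp (by exact_mod_cast g3.pos)]
      linarith
    rw [mem_filter, mem_Ico]
    refine ⟨hpP, ?_, hN p hpP⟩
    have e3 := (bk_spec κ T hκ p g3 (by linarith)).2
    have e4 : (κ : ℝ) ^ i ≤ T / Real.log p := by
      rw [le_div_iff₀ hlogp]
      rw [hy, le_div_iff₀ hκb] at e2
      linarith
    have e5 : (κ : ℝ) ^ i < (κ : ℝ) ^ (bk κ T p + 1) := lt_of_le_of_lt e4 e3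
    have e6 := (pow_lt_pow_iff_right₀ (by linarith : (1 : ℝ) < κ)).1 e5
    omega
  · intro p hp
    obtain ⟨h1, h2, -⟩ := NT2_mem W T p (mem_filter.1 hp).1
    exact (NT1_frac W K hK hKW p h1 h2).2.2
  · intro p hp
    obtain ⟨h1, h2, -⟩ := NT2_mem W T p (mem_filter.1 hp).1
    exact (NT1_frac W K hK hKW p h1 h2).2.1
  · intro p _
    have : 0 ≤ 1 / (p : ℝ) := by positivity
    linarith

end Pool.Agent.Lib.H15P
end

-- from Lib.H92G.E6
section

/-!
# Chunk E6: the mean value `EU`, and `Q/φ(Q)`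
-/

open Finset

namespace Pool.Agent.Lib.H92G

open Pool.Agent.Lib.H15P

variable {J : Type} [Fintype J] [DecidableEq J]

theorem e6_totient (P : Finset ℕ) (hp : ∀ p ∈ P, p.Prime) :
    ((∏ p ∈ P, p).totient : ℝ) = ∏ p ∈ P, ((p : ℝ) - 1) := by
  induction P using Finset.induction_on with
  | empty => simp
  | insert a s ha ih =>
    have hap := hp a (mem_insert_self a s)
    have hcop : Nat.Coprime a (∏ p ∈ s, p) := by
      rw [Nat.coprime_prod_right_iff]
      intro q hq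
      rw [Nat.coprime_primes hap (hp q (mem_insert_of_mem hq))]
      rintro rfl
      exact ha hq
    rw [prod_insert ha, prod_insert ha, Nat.totient_mul hcop, Nat.totient_prime hap,
      Nat.cast_mul, ih (fun q hq => hp q (mem_insert_of_mem hq)), Nat.cast_sub hap.one_le,
      Nat.cast_one]

theorem e6_ratio (P : Finset ℕ) (hp : ∀ p ∈ P, p.Prime) :
    ((∏ p ∈ P, p : ℕ) : ℝ) / ((∏ p ∈ P, p).totient : ℝ) = ∏ p ∈ P, (1 - 1 / (p : ℝ))⁻¹ := by
  rw [e6_totient P hp, Nat.cast_prod, ← prod_div_distrib]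
  refine prod_congr rfl fun p hpP => ?_
  have h2 : (2 : ℝ) ≤ p := by exact_mod_cast (hp p hpP).two_le
  have h3 : (p : ℝ) - 1 ≠ 0 := by linarith
  have h4 : (p : ℝ) ≠ 0 := by linarith
  field_simp

theorem e6_hit (P : Finset ℕ) (hp : ∀ p ∈ P, p.Prime) (e : ℕ) :
    hit P e = ∅ ↔ e.Coprime (∏ p ∈ P, p) := by
  rw [Nat.coprime_prod_right_iff]
  unfold hit
  rw [filter_eq_empty_iff]
  constructor
  · intro h p hpP
    rw [Nat.coprime_comm, Nat.Prime.coprime_iff_not_dvd (hp p hpP)]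
    exact h (mem_univ ⟨p, hpP⟩)
  · intro h p _
    have := h p.1 p.2
    rwa [Nat.coprime_comm, Nat.Prime.coprime_iff_not_dvd (hp p.1 p.2)] at this



/-- `φ(Q)/Q = ∏ (1 - 1/p)`, `1 - qq p = (1 - 1/p)/(1 + 2K/p^2)`, and
`∏ 1/(1 + 2K/p^2) ≥ 1 - ∑ 2K/p^2 ≥ 1 - 2K/W` (`sum_inv_sq_le`). -/
theorem p_empty_ge (P : Finset ℕ) (W K : ℕ) (hp : ∀ p ∈ P, p.Prime) (hK : 1 ≤ K)
    (hKW : 4 * K ^ 2 ≤ W) (hb : ∀ p ∈ P, W < p) :
    1 - 2 * (K : ℝ) / W ≤ (((∏ p ∈ P, p : ℕ) : ℝ) / ((∏ p ∈ P, p).totient : ℝ)) *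
      ∏ i, (1 - qq P K i) := by
  have hW1 : 1 ≤ W := by nlinarith
  have hK1 : (1 : ℝ) ≤ K := by exact_mod_cast hK
  have hpK : ∀ p ∈ P, 4 * (K : ℝ) ≤ p := by
    intro p hpP
    have := hb p hpP
    have h2 : 4 * K ≤ p := by nlinarith
    exact_mod_cast h2
  have e1 : ∏ i, (1 - qq P K i)
      = ∏ p ∈ P, ((1 - 1 / (p : ℝ)) / (1 + 2 * K / (p : ℝ) ^ 2)) := by
    rw [← prod_coe_sort P (fun p : ℕ => ((1 - 1 / (p : ℝ)) / (1 + 2 * K / (p : ℝ) ^ 2)))]
    refine prod_congr rfl fun i _ => ?_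
    have hx : (0 : ℝ) < (i.1 : ℝ) := by have := hpK i.1 i.2; linarith
    have hN : (0 : ℝ) < 1 + 2 * K / (i.1 : ℝ) ^ 2 := by positivity
    unfold qq
    rw [eq_div_iff hN.ne', sub_mul, div_mul_cancel₀ _ hN.ne']
    ring
  rw [e1, e6_ratio P hp, ← prod_mul_distrib]
  have e2 : ∀ p ∈ P, (1 - 1 / (p : ℝ))⁻¹ * ((1 - 1 / (p : ℝ)) / (1 + 2 * K / (p : ℝ) ^ 2))
      = 1 / (1 + 2 * K / (p : ℝ) ^ 2) := by
    intro p hpP
    have h2 : (2 : ℝ) ≤ p := by exact_mod_cast (hp p hpP).two_le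
    have h3 : (1 - 1 / (p : ℝ)) ≠ 0 := by
      have : 1 / (p : ℝ) ≤ 1 / 2 := one_div_le_one_div_of_le (by norm_num) h2
      linarith
    rw [← mul_div_assoc, inv_mul_cancel₀ h3]
  rw [prod_congr rfl e2]
  have h1 := tr3_prod_one_sub P (fun p => 2 * (K : ℝ) / (p : ℝ) ^ 2) (fun p _ => by positivity)
    (fun p hpP => by
      have h4 := hpK p hpP
      have hx : (0 : ℝ) < (p : ℝ) := by linarith
      rw [div_le_one (by positivity)]
      nlinarith)
  have h2 : ∏ p ∈ P, (1 - 2 * (K : ℝ) / (p : ℝ) ^ 2) ≤ ∏ p ∈ P, (1 / (1 + 2 * K / (p : ℝ) ^ 2)) := by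
    refine prod_le_prod (fun p hpP => ?_) (fun p hpP => ?_)
    · have h4 := hpK p hpP
      have hx : (0 : ℝ) < (p : ℝ) := by linarith
      rw [sub_nonneg, div_le_one (by positivity)]
      nlinarith
    · have h4 := hpK p hpP
      have hx : (0 : ℝ) < (p : ℝ) := by linarith
      set y := 2 * (K : ℝ) / (p : ℝ) ^ 2 with hy
      have hy0 : 0 ≤ y := by positivity
      rw [le_div_iff₀ (by linarith)]
      nlinarith
  have h3 : ∑ p ∈ P, 2 * (K : ℝ) / (p : ℝ) ^ 2 ≤ 2 * (K : ℝ) / (W : ℝ) := by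
    have h4 := sum_inv_sq_le P W hW1 hb
    calc ∑ p ∈ P, 2 * (K : ℝ) / (p : ℝ) ^ 2 = 2 * (K : ℝ) * ∑ p ∈ P, 1 / (p : ℝ) ^ 2 := by
          rw [mul_sum]; exact sum_congr rfl fun p _ => by ring
      _ ≤ 2 * (K : ℝ) * (1 / (W : ℝ)) := mul_le_mul_of_nonneg_left h4 (by positivity)
      _ = 2 * K / W := by ring
  linarith [h1.1]

/-- `Q/φ(Q) = ∏_{W < p ≤ e^T} (1 - 1/p)^{-1} ≤ C T` (Mertens upper bound for the inverse product,
`Helper57.prod_one_sub_inv_inv_le`; for `e^T < 2` the product is empty; `T ≥ 1`). -/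
theorem Q_div_totient_le : ∃ C : ℝ, 0 < C ∧ ∀ (W : ℕ) (T : ℝ), 1 ≤ T →
    ((∏ p ∈ PP W T, p : ℕ) : ℝ) / ((∏ p ∈ PP W T, p).totient : ℝ) ≤ C * T := by
  refine ⟨500, by norm_num, fun W T hT => ?_⟩
  have hp : ∀ p ∈ PP W T, p.Prime := fun p h => (mem_filter.1 h).2
  rw [e6_ratio _ hp]
  set n := ⌊Real.exp T⌋₊ with hn
  have hn2 : 2 ≤ n := by
    rw [hn]
    apply Nat.le_floor
    have h1 := Real.add_one_le_exp T
    push_cast
    linarith
  have hsub : PP W T ⊆ Sieve.primesUpTo n := by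
    intro p h
    rw [Sieve.mem_primesUpTo]
    have := mem_filter.1 h
    exact ⟨this.2, (mem_Ioc.1 this.1).2⟩
  have h1 : ∏ p ∈ PP W T, (1 - 1 / (p : ℝ))⁻¹ ≤ ∏ p ∈ Sieve.primesUpTo n, (1 - 1 / (p : ℝ))⁻¹ := by
    refine prod_le_prod_of_subset_of_one_le hsub (fun p h => ?_) (fun p h _ => ?_)
    · exact inv_nonneg.2 (NT1_pos p (hp p h)).le
    · have hpr := (Sieve.mem_primesUpTo.1 h).1
      have h3 : (0 : ℝ) < p := by exact_mod_cast hpr.pos
      rw [one_le_inv₀ (NT1_pos p hpr)]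
      have : 0 ≤ 1 / (p : ℝ) := by positivity
      linarith
  have h2 := Helper57.prod_one_sub_inv_inv_le n hn2
  have h3 : Real.log n ≤ T := by
    have : (n : ℝ) ≤ Real.exp T := Nat.floor_le (Real.exp_pos T).le
    calc Real.log n ≤ Real.log (Real.exp T) := Real.log_le_log (by positivity) this
      _ = T := Real.log_exp T
  refine h1.trans (h2.trans ?_)
  linarith

end Pool.Agent.Lib.H92G
end

-- from Lib.H59C.BV1A
section

/-!
# BV1A: from progressions to primitive characters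
-/

open Finset

namespace Pool.Agent.Lib.H59C

open Pool.Agent.Lib.H68T (PC p0 e)

open Classical in
theorem BV1A_val {d : ℕ} [NeZero d] (χ : DirichletCharacter ℂ d) (m : ℕ) :
    χ (m : ZMod d) = if m.Coprime (d / χ.conductor) then
      χ.primitiveCharacter (m : ZMod χ.conductor) else 0 := by
  have hr : χ.conductor ∣ d := χ.conductor_dvd_level
  have hd : χ.conductor * (d / χ.conductor) = d := Nat.mul_div_cancel' hr
  by_cases hm : m.Coprime d
  · have h1 : m.Coprime (d / χ.conductor) := Nat.Coprime.coprime_dvd_right (Nat.div_dvd_of_dvd hr) hm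
    rw [if_pos h1]
    have h2 : IsCoprime ((m : ℕ) : ℤ) (d : ℤ) := Nat.isCoprime_iff_coprime.mpr hm
    have h3 := DirichletCharacter.primitiveCharacter_apply_of_isCoprime χ h2
    rw [Int.cast_natCast, Int.cast_natCast] at h3
    exact h3.symm
  · have h0 : χ (m : ZMod d) = 0 := by
      apply MulChar.map_nonunit
      rw [ZMod.isUnit_iff_coprime]
      exact hm
    rw [h0]
    split_ifs with h1
    · have h2 : ¬ m.Coprime χ.conductor := by
        intro h3
        apply hm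
        rw [← hd]
        exact Nat.Coprime.mul_right h3 h1
      symm
      apply MulChar.map_nonunit
      rw [ZMod.isUnit_iff_coprime]
      exact h2
    · rfl

/-- the primitive character of a character -/
noncomputable def BV1A_P {d : ℕ} (χ : DirichletCharacter ℂ d) : PCh :=
  ⟨χ.conductor, χ.primitiveCharacter⟩

/-- a character modulo `d` from a pair -/
noncomputable def BV1A_L (d : ℕ) (p : PCh) : DirichletCharacter ℂ d := by
  classical
  exact if h : p.1 ∣ d then DirichletCharacter.changeLevel h p.2 else 1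

theorem BV1A_LP {d : ℕ} (χ : DirichletCharacter ℂ d) : BV1A_L d (BV1A_P χ) = χ := by
  unfold BV1A_L BV1A_P
  rw [dif_pos χ.conductor_dvd_level]
  exact χ.changeLevel_primitiveCharacter

theorem BV1A_inj {d : ℕ} : Function.Injective (BV1A_P (d := d)) := by
  intro χ ψ h
  rw [← BV1A_LP χ, ← BV1A_LP ψ, h]

theorem BV1A_p0 {d : ℕ} : BV1A_L d p0 = 1 := by
  unfold BV1A_L p0
  rw [dif_pos (one_dvd d)]
  exact map_one _

open Classical in
/-- For a function `f` on `[1, y]` the deviation in a reduced class mod `d` is at most the mean of the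
sums against the primitive characters `≠ 1` inducing the characters mod `d`.

Proof. Orthogonality: for `(a, d) = 1`, `∑_{m ≡ a} f m = φ(d)⁻¹ ∑_{χ mod d} χ̄(a) ∑_m f m χ(m)`; `χ = 1` gives
`φ(d)⁻¹ ∑_{(m,d)=1} f m`. For `χ ≠ 1` let `χ*` mod `r ∣ d` be the primitive character inducing `χ`
(`χ.primitiveCharacter`, `χ.conductor`); `χ(m) = χ*(m) 1[(m, d) = 1] = χ*(m) 1[(m, d/r) = 1]` (`χ*(m) = 0` if
`(m, r) > 1`), and `χ ↦ ⟨conductor, χ*⟩` is an injection from the characters mod `d` to the `p ∈ PC d` with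
`p.1 ∣ d`; `χ ≠ 1` has `χ* ≠ 1`, so `p ≠ p0`. -/
theorem prog_gen (d a y : ℕ) (hd : 1 ≤ d) (ha : a.Coprime d) (f : ℕ → ℂ) :
    ‖∑ m ∈ (Icc 1 y).filter (fun m => m ≡ a [MOD d]), f m -
      1 / (Nat.totient d : ℂ) * ∑ m ∈ (Icc 1 y).filter (fun m => m.Coprime d), f m‖ ≤
      1 / (Nat.totient d : ℝ) * ∑ p ∈ (PC d).filter (fun p => p ≠ p0 ∧ p.1 ∣ d),
        ‖∑ m ∈ (Icc 1 y).filter (fun m => m.Coprime (d / p.1)), f m * p.2 (m : ZMod p.1)‖ := by
  have hne : NeZero d := ⟨by omega⟩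
  have hφ0 : (Nat.totient d : ℂ) ≠ 0 := by
    have := Nat.totient_pos.mpr hd
    exact_mod_cast this.ne'
  have hau : IsUnit ((a : ℕ) : ZMod d) := (ZMod.isUnit_iff_coprime a d).mpr ha
  -- orthogonality
  have h1 : ∑ m ∈ (Icc 1 y).filter (fun m => m ≡ a [MOD d]), f m =
      1 / (Nat.totient d : ℂ) * ∑ χ : DirichletCharacter ℂ d,
        χ ((a : ZMod d)⁻¹) * ∑ m ∈ Icc 1 y, f m * χ (m : ZMod d) := by
    have h2 : ∑ χ : DirichletCharacter ℂ d,
        χ ((a : ZMod d)⁻¹) * ∑ m ∈ Icc 1 y, f m * χ (m : ZMod d) =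
        ∑ m ∈ Icc 1 y, f m * ∑ χ : DirichletCharacter ℂ d,
          χ ((a : ZMod d)⁻¹) * χ (m : ZMod d) := by
      simp_rw [mul_sum]
      rw [sum_comm]
      apply sum_congr rfl
      intro m _
      apply sum_congr rfl
      intro χ _
      ring
    rw [h2, mul_sum, sum_filter]
    apply sum_congr rfl
    intro m _
    rw [DirichletCharacter.sum_char_inv_mul_char_eq ℂ hau (m : ZMod d)]
    by_cases hm : m ≡ a [MOD d]
    · rw [if_pos hm, if_pos ((ZMod.natCast_eq_natCast_iff m a d).mpr hm).symm]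
      field_simp
    · rw [if_neg hm, if_neg (fun h => hm ((ZMod.natCast_eq_natCast_iff m a d).mp h.symm))]
      simp
  have h3 : ∑ χ : DirichletCharacter ℂ d,
        χ ((a : ZMod d)⁻¹) * ∑ m ∈ Icc 1 y, f m * χ (m : ZMod d) =
      ∑ m ∈ (Icc 1 y).filter (fun m => m.Coprime d), f m +
      ∑ χ ∈ (univ : Finset (DirichletCharacter ℂ d)).erase 1,
        χ ((a : ZMod d)⁻¹) * ∑ m ∈ Icc 1 y, f m * χ (m : ZMod d) := by
    rw [← add_sum_erase _ _ (mem_univ (1 : DirichletCharacter ℂ d))]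
    congr 1
    have h4 : (1 : DirichletCharacter ℂ d) ((a : ZMod d)⁻¹) = 1 := by
      apply MulChar.one_apply
      obtain ⟨u, hu⟩ := hau
      rw [← hu, ZMod.inv_coe_unit]
      exact (u⁻¹).isUnit
    rw [h4, one_mul, sum_filter]
    apply sum_congr rfl
    intro m _
    by_cases hm : m.Coprime d
    · rw [if_pos hm, MulChar.one_apply ((ZMod.isUnit_iff_coprime m d).mpr hm), mul_one]
    · rw [if_neg hm, MulChar.map_nonunit _ (fun h => hm ((ZMod.isUnit_iff_coprime m d).mp h)),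
        mul_zero]
  have h5 : ∑ m ∈ (Icc 1 y).filter (fun m => m ≡ a [MOD d]), f m -
      1 / (Nat.totient d : ℂ) * ∑ m ∈ (Icc 1 y).filter (fun m => m.Coprime d), f m =
      1 / (Nat.totient d : ℂ) * ∑ χ ∈ (univ : Finset (DirichletCharacter ℂ d)).erase 1,
        χ ((a : ZMod d)⁻¹) * ∑ m ∈ Icc 1 y, f m * χ (m : ZMod d) := by
    rw [h1, h3]
    ring
  rw [h5, norm_mul]
  have h6 : ‖1 / (Nat.totient d : ℂ)‖ = 1 / (Nat.totient d : ℝ) := by
    rw [norm_div, norm_one, Complex.norm_natCast]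
  rw [h6]
  apply mul_le_mul_of_nonneg_left _ (by positivity)
  -- the norms
  have h7 : ∀ χ : DirichletCharacter ℂ d, ∑ m ∈ Icc 1 y, f m * χ (m : ZMod d) =
      ∑ m ∈ (Icc 1 y).filter (fun m => m.Coprime (d / (BV1A_P χ).1)),
        f m * (BV1A_P χ).2 (m : ZMod (BV1A_P χ).1) := by
    intro χ
    rw [sum_filter]
    apply sum_congr rfl
    intro m _
    rw [BV1A_val χ m]
    by_cases hm : m.Coprime (d / χ.conductor)
    · rw [if_pos hm]
      have hm' : m.Coprime (d / (BV1A_P χ).1) := hm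
      rw [if_pos hm']
      rfl
    · rw [if_neg hm]
      have hm' : ¬ m.Coprime (d / (BV1A_P χ).1) := hm
      rw [if_neg hm', mul_zero]
  obtain ⟨G, hG⟩ : ∃ G : PCh → ℝ, G = fun p =>
    ‖∑ m ∈ (Icc 1 y).filter (fun m => m.Coprime (d / p.1)), f m * p.2 (m : ZMod p.1)‖ := ⟨_, rfl⟩
  have h8 : ‖∑ χ ∈ (univ : Finset (DirichletCharacter ℂ d)).erase 1,
        χ ((a : ZMod d)⁻¹) * ∑ m ∈ Icc 1 y, f m * χ (m : ZMod d)‖ ≤
      ∑ χ ∈ (univ : Finset (DirichletCharacter ℂ d)).erase 1, G (BV1A_P χ) := by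
    refine (norm_sum_le _ _).trans ?_
    apply sum_le_sum
    intro χ _
    rw [norm_mul, h7 χ, hG]
    calc ‖χ ((a : ZMod d)⁻¹)‖ * _ ≤ 1 * _ :=
          mul_le_mul_of_nonneg_right (DirichletCharacter.norm_le_one _ _) (norm_nonneg _)
      _ = _ := one_mul _
  refine h8.trans ?_
  have h9 : ∑ χ ∈ (univ : Finset (DirichletCharacter ℂ d)).erase 1, G (BV1A_P χ) =
      ∑ p ∈ ((univ : Finset (DirichletCharacter ℂ d)).erase 1).image BV1A_P, G p := by
    rw [sum_image]
    intro χ _ ψ _ h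
    exact BV1A_inj h
  rw [h9]
  have h10 : ∑ p ∈ (PC d).filter (fun p => p ≠ p0 ∧ p.1 ∣ d),
        ‖∑ m ∈ (Icc 1 y).filter (fun m => m.Coprime (d / p.1)), f m * p.2 (m : ZMod p.1)‖ =
      ∑ p ∈ (PC d).filter (fun p => p ≠ p0 ∧ p.1 ∣ d), G p := by
    rw [hG]
  rw [h10]
  apply sum_le_sum_of_subset_of_nonneg
  · intro p hp
    rw [mem_image] at hp
    obtain ⟨χ, hχ, rfl⟩ := hp
    have hχ1 := ne_of_mem_erase hχ
    rw [mem_filter, Pool.Agent.Lib.H68T.mem_PC]
    have hc0 : χ.conductor ≠ 0 := χ.conductor_ne_zero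
    refine ⟨⟨?_, ?_, ?_⟩, ?_, ?_⟩
    · exact Nat.one_le_iff_ne_zero.mpr hc0
    · exact Nat.le_of_dvd hd χ.conductor_dvd_level
    · exact χ.primitiveCharacter_isPrimitive
    · intro h
      apply hχ1
      rw [← BV1A_LP χ, h, BV1A_p0]
    · exact χ.conductor_dvd_level
  · intro p _ _
    rw [hG]
    exact norm_nonneg _

end Pool.Agent.Lib.H59C
end

-- from Lib.H59C.BV1B
section

/-!
# BV1B: the case of the primes
-/

open Finset

namespace Pool.Agent.Lib.H59C

open Pool.Agent.Lib.H68T (PC p0 e)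

open Classical in
/-- The number of primitive characters of conductor dividing `d` is at most `φ(d)`. -/
theorem BV1B_card (d : ℕ) (hd : 1 ≤ d) :
    ((PC d).filter (fun p => p ≠ p0 ∧ p.1 ∣ d)).card ≤ Nat.totient d := by
  have hne : NeZero d := ⟨by omega⟩
  have h1 : ((PC d).filter (fun p => p ≠ p0 ∧ p.1 ∣ d)).card ≤
      (univ : Finset (DirichletCharacter ℂ d)).card := by
    apply Finset.card_le_card_of_injOn (fun p => BV1A_L d p)
    · intro p _
      exact mem_coe.mpr (mem_univ _)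
    · intro p hp q hq h
      rw [mem_coe, mem_filter, Pool.Agent.Lib.H68T.mem_PC] at hp hq
      obtain ⟨⟨_, _, hp1⟩, _, hpd⟩ := hp
      obtain ⟨⟨_, _, hq1⟩, _, hqd⟩ := hq
      have h' : BV1A_L d p = BV1A_L d q := h
      unfold BV1A_L at h'
      rw [dif_pos hpd, dif_pos hqd] at h'
      have h2 : p.2.conductor = q.2.conductor := by
        have h3 := congrArg DirichletCharacter.conductor h'
        rw [DirichletCharacter.conductor_changeLevel, DirichletCharacter.conductor_changeLevel] at h3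
        exact h3
      rw [DirichletCharacter.isPrimitive_def] at hp1 hq1
      rw [hp1, hq1] at h2
      obtain ⟨r, χ⟩ := p
      obtain ⟨s, ψ⟩ := q
      simp only at h2
      subst h2
      have h4 := DirichletCharacter.changeLevel_injective hpd h'
      simp only at h4
      rw [h4]
  refine h1.trans ?_
  rw [card_univ, ← Nat.card_eq_fintype_card, DirichletCharacter.card_eq_totient_of_hasEnoughRootsOfUnity]

theorem BV1B_omega (d : ℕ) (hd : 1 ≤ d) : (d.primeFactors.card : ℝ) ≤ 2 * Real.log d := by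
  have hl2 : (0.69 : ℝ) < Real.log 2 := by
    have := Real.log_two_gt_d9
    linarith
  have h1 : 2 ^ d.primeFactors.card ≤ ∏ q ∈ d.primeFactors, q := by
    apply Finset.pow_card_le_prod
    intro q hq
    exact (Nat.prime_of_mem_primeFactors hq).two_le
  have h2 : ∏ q ∈ d.primeFactors, q ≤ d := Nat.le_of_dvd hd (Nat.prod_primeFactors_dvd d)
  have h3 : ((2 : ℝ) ^ d.primeFactors.card) ≤ d := by exact_mod_cast h1.trans h2
  have h4 := Real.log_le_log (by positivity) h3
  rw [Real.log_pow] at h4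
  have h5 : (0 : ℝ) ≤ (d.primeFactors.card : ℝ) := by positivity
  nlinarith

/-- The prime powers not coprime to `d`. -/
theorem BV1B_N (d y : ℕ) (hd : 1 ≤ d) (hy : 1 ≤ y) :
    ∑ m ∈ (Icc 1 y).filter (fun m => ¬ m.Coprime d), ArithmeticFunction.vonMangoldt m ≤
      2 * Real.log d * Real.log y := by
  have hly : 0 ≤ Real.log y := Real.log_nonneg (by exact_mod_cast hy)
  have h1 : ∀ m ∈ (Icc 1 y).filter (fun m => ¬ m.Coprime d),
      ArithmeticFunction.vonMangoldt m ≤ ∑ q ∈ d.primeFactors, ∑ k ∈ Icc 1 (Nat.log q y),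
        if m = q ^ k then Real.log q else 0 := by
    intro m hm
    rw [mem_filter, mem_Icc] at hm
    obtain ⟨⟨hm1, hm2⟩, hm3⟩ := hm
    have hnn : ∀ q ∈ d.primeFactors, 0 ≤ ∑ k ∈ Icc 1 (Nat.log q y),
        if m = q ^ k then Real.log q else 0 := by
      intro q hq
      apply sum_nonneg
      intro k _
      split_ifs
      · exact Real.log_nonneg (by exact_mod_cast (Nat.prime_of_mem_primeFactors hq).one_le)
      · exact le_rfl
    by_cases h0 : IsPrimePow m
    · obtain ⟨q, k, hq, hk, rfl⟩ := (isPrimePow_nat_iff m).mp h0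
      have hqd : q ∣ d := by
        by_contra hqd
        exact hm3 (Nat.Coprime.pow_left k ((Nat.Prime.coprime_iff_not_dvd hq).mpr hqd))
      have hqm : q ∈ d.primeFactors := Nat.mem_primeFactors.mpr ⟨hq, hqd, by omega⟩
      refine le_trans ?_ (single_le_sum hnn hqm)
      have hkm : k ∈ Icc 1 (Nat.log q y) := by
        rw [mem_Icc]
        exact ⟨hk, Nat.le_log_of_pow_le hq.one_lt hm2⟩
      refine le_trans ?_ (single_le_sum (f := fun k' => if q ^ k = q ^ k' then Real.log q else 0)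
        (fun k' _ => ?_) hkm)
      · rw [if_pos rfl, ArithmeticFunction.vonMangoldt_apply_pow (by omega),
          ArithmeticFunction.vonMangoldt_apply_prime hq]
      · show 0 ≤ if q ^ k = q ^ k' then Real.log q else 0
        split_ifs
        · exact Real.log_nonneg (by exact_mod_cast hq.one_le)
        · exact le_rfl
    · rw [ArithmeticFunction.vonMangoldt_eq_zero_iff.mpr h0]
      exact sum_nonneg hnn
  have h2 : ∑ m ∈ (Icc 1 y).filter (fun m => ¬ m.Coprime d), ArithmeticFunction.vonMangoldt m ≤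
      ∑ q ∈ d.primeFactors, Real.log y := by
    refine (sum_le_sum h1).trans ?_
    rw [sum_comm]
    apply sum_le_sum
    intro q hq
    have hqp := Nat.prime_of_mem_primeFactors hq
    have hlq : 0 ≤ Real.log q := Real.log_nonneg (by exact_mod_cast hqp.one_le)
    rw [sum_comm]
    have h3 : ∀ k ∈ Icc 1 (Nat.log q y),
        ∑ m ∈ (Icc 1 y).filter (fun m => ¬ m.Coprime d), (if m = q ^ k then Real.log q else 0) ≤
          Real.log q := by
      intro k _
      rw [Finset.sum_ite_eq']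
      split_ifs
      · exact le_rfl
      · exact hlq
    refine (sum_le_sum h3).trans ?_
    rw [sum_const, Nat.card_Icc, nsmul_eq_mul, Nat.add_sub_cancel]
    have h4 : q ^ (Nat.log q y) ≤ y := Nat.pow_log_le_self q (by omega)
    have h5 : ((q : ℝ) ^ (Nat.log q y)) ≤ y := by exact_mod_cast h4
    have h6 := Real.log_le_log (by
      have : (0 : ℝ) < q := by exact_mod_cast hqp.pos
      positivity) h5
    rw [Real.log_pow] at h6
    exact h6
  refine h2.trans ?_
  rw [sum_const, nsmul_eq_mul]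
  exact mul_le_mul_of_nonneg_right (BV1B_omega d hd) hly

theorem BV1B_Ioc (y : ℕ) : Ioc 0 ⌊(y : ℝ)⌋₊ = Icc 1 y := by
  rw [Nat.floor_natCast]
  ext m
  rw [mem_Ioc, mem_Icc]
  omega

/-- The prime powers with exponent at least two. -/
theorem BV1B_P (y : ℕ) (hy : 1 ≤ y) :
    ∑ m ∈ (Icc 1 y).filter (fun m => ¬ m.Prime), ArithmeticFunction.vonMangoldt m ≤
      2 * Real.sqrt y * Real.log y := by
  have h1 := Chebyshev.psi_sub_theta_le (x := (y : ℝ)) (by exact_mod_cast hy)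
  rw [Chebyshev.psi_sub_theta_eq_sum_not_prime, BV1B_Ioc] at h1
  exact h1

/-- Splitting into primes and prime powers. -/
theorem BV1B_split (y : ℕ) (P : ℕ → Prop) [DecidablePred P] :
    ∑ m ∈ (Icc 1 y).filter P, ArithmeticFunction.vonMangoldt m =
      ∑ q ∈ (Icc 1 y).filter (fun q => q.Prime ∧ P q), Real.log q +
      ∑ m ∈ (Icc 1 y).filter (fun m => ¬ m.Prime ∧ P m), ArithmeticFunction.vonMangoldt m := by
  simp_rw [sum_filter]
  rw [← sum_add_distrib]
  apply sum_congr rfl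
  intro m _
  by_cases h1 : m.Prime <;> by_cases h2 : P m
  · simp [h1, h2, ArithmeticFunction.vonMangoldt_apply_prime]
  · simp [h1, h2]
  · simp [h1, h2]
  · simp [h1, h2]

theorem BV1B_sub (y : ℕ) (hy : 1 ≤ y) (P : ℕ → Prop) [DecidablePred P] :
    ∑ m ∈ (Icc 1 y).filter (fun m => ¬ m.Prime ∧ P m), ArithmeticFunction.vonMangoldt m ≤
      2 * Real.sqrt y * Real.log y := by
  refine le_trans ?_ (BV1B_P y hy)
  apply sum_le_sum_of_subset_of_nonneg
  · intro m hm
    rw [mem_filter] at hm ⊢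
    exact ⟨hm.1, hm.2.1⟩
  · intro m _ _
    exact ArithmeticFunction.vonMangoldt_nonneg

open Classical in
/-- The case of the primes: `prog_gen` with `f = Λ`; prime powers contribute at most
`2 √y log y` (`Chebyshev.psi_sub_theta_le`), the `m` not coprime to `d` (or `d/r`) at most
`∑_{p ∣ d} log y/log p · log p ≤ 2 log d log y`. (There are at most `φ(d)` characters.) -/
theorem prog_le : ∃ C : ℝ, 0 < C ∧ ∀ (d a y : ℕ), 1 ≤ d → d ≤ y → a.Coprime d → 2 ≤ y →
    |thp y d a - th y / (Nat.totient d : ℝ)| ≤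
      1 / (Nat.totient d : ℝ) * ∑ p ∈ (PC d).filter (fun p => p ≠ p0 ∧ p.1 ∣ d), ‖psi y p‖ +
      C * Real.sqrt y * Real.log y ^ 2 := by
  refine ⟨100, by norm_num, ?_⟩
  intro d a y hd hdy ha hy
  have hy1 : 1 ≤ y := by omega
  have hl2 : (0.69 : ℝ) < Real.log 2 := by
    have := Real.log_two_gt_d9
    linarith
  have hly : Real.log 2 ≤ Real.log y :=
    Real.log_le_log (by norm_num) (by exact_mod_cast hy)
  have hld : Real.log d ≤ Real.log y :=
    Real.log_le_log (by exact_mod_cast hd) (by exact_mod_cast hdy)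
  have hld0 : 0 ≤ Real.log d := Real.log_nonneg (by exact_mod_cast hd)
  have hs1 : 1 ≤ Real.sqrt y := by
    rw [Real.one_le_sqrt]
    exact_mod_cast hy1
  have hφ : 1 ≤ (Nat.totient d : ℝ) := by exact_mod_cast Nat.totient_pos.mpr hd
  -- the error
  obtain ⟨E, hE⟩ : ∃ E, E = 2 * Real.sqrt y * Real.log y := ⟨_, rfl⟩
  obtain ⟨N, hN⟩ : ∃ N, N = 2 * Real.log d * Real.log y := ⟨_, rfl⟩
  have hE1 : E ≤ 4 * (Real.sqrt y * Real.log y ^ 2) := by
    rw [hE]
    have h1 : Real.log y ≤ 2 * Real.log y ^ 2 := by nlinarith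
    have h2 := mul_le_mul_of_nonneg_left h1 (by positivity : 0 ≤ 2 * Real.sqrt y)
    linarith
  have hN1 : N ≤ 2 * (Real.sqrt y * Real.log y ^ 2) := by
    rw [hN]
    have h1 : Real.log d * Real.log y ≤ Real.log y ^ 2 := by nlinarith
    have h2 : Real.log y ^ 2 ≤ Real.sqrt y * Real.log y ^ 2 := by
      nlinarith [sq_nonneg (Real.log y)]
    linarith
  have hE0 : 0 ≤ E := by
    rw [hE]
    have : 0 ≤ Real.log y := by linarith
    positivity
  have hN0 : 0 ≤ N := by
    rw [hN]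
    have : 0 ≤ Real.log y := by linarith
    positivity
  have hPN := BV1B_N d y hd hy1
  rw [← hN] at hPN
  -- the orthogonality
  have hg := prog_gen d a y hd ha (fun m => (ArithmeticFunction.vonMangoldt m : ℂ))
  -- left side
  have hL : ‖∑ m ∈ (Icc 1 y).filter (fun m => m ≡ a [MOD d]),
        (ArithmeticFunction.vonMangoldt m : ℂ) -
      1 / (Nat.totient d : ℂ) * ∑ m ∈ (Icc 1 y).filter (fun m => m.Coprime d),
        (ArithmeticFunction.vonMangoldt m : ℂ)‖ =
      |∑ m ∈ (Icc 1 y).filter (fun m => m ≡ a [MOD d]), ArithmeticFunction.vonMangoldt m -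
      1 / (Nat.totient d : ℝ) * ∑ m ∈ (Icc 1 y).filter (fun m => m.Coprime d),
        ArithmeticFunction.vonMangoldt m| := by
    rw [← Real.norm_eq_abs, ← Complex.norm_real]
    congr 1
    push_cast
    ring
  rw [hL] at hg
  -- the class
  have hA : |thp y d a - ∑ m ∈ (Icc 1 y).filter (fun m => m ≡ a [MOD d]),
      ArithmeticFunction.vonMangoldt m| ≤ E := by
    rw [BV1B_split y (fun m => m ≡ a [MOD d])]
    have h1 := BV1B_sub y hy1 (fun m => m ≡ a [MOD d])
    have h2 : 0 ≤ ∑ m ∈ (Icc 1 y).filter (fun m => ¬ m.Prime ∧ m ≡ a [MOD d]),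
        ArithmeticFunction.vonMangoldt m :=
      sum_nonneg fun m _ => ArithmeticFunction.vonMangoldt_nonneg
    rw [← hE] at h1
    have h3 : thp y d a = ∑ q ∈ (Icc 1 y).filter (fun q => q.Prime ∧ q ≡ a [MOD d]),
      Real.log q := rfl
    rw [← h3, abs_le]
    constructor <;> linarith
  -- all primes
  have hT : |∑ m ∈ (Icc 1 y).filter (fun m => m.Coprime d), ArithmeticFunction.vonMangoldt m -
      th y| ≤ E + N := by
    have h1 : ∑ m ∈ (Icc 1 y).filter (fun m => m.Coprime d), ArithmeticFunction.vonMangoldt m +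
        ∑ m ∈ (Icc 1 y).filter (fun m => ¬ m.Coprime d), ArithmeticFunction.vonMangoldt m =
        ∑ m ∈ Icc 1 y, ArithmeticFunction.vonMangoldt m :=
      sum_filter_add_sum_filter_not _ _ _
    have h2 : ∑ m ∈ Icc 1 y, ArithmeticFunction.vonMangoldt m =
        th y + ∑ m ∈ (Icc 1 y).filter (fun m => ¬ m.Prime),
          ArithmeticFunction.vonMangoldt m := by
      have h3 := BV1B_split y (fun _ => True)
      simp only [and_true, filter_true] at h3
      rw [h3]
      rfl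
    have h4 := BV1B_P y hy1
    rw [← hE] at h4
    have h5 : 0 ≤ ∑ m ∈ (Icc 1 y).filter (fun m => ¬ m.Prime),
        ArithmeticFunction.vonMangoldt m :=
      sum_nonneg fun m _ => ArithmeticFunction.vonMangoldt_nonneg
    have h6 : 0 ≤ ∑ m ∈ (Icc 1 y).filter (fun m => ¬ m.Coprime d),
        ArithmeticFunction.vonMangoldt m :=
      sum_nonneg fun m _ => ArithmeticFunction.vonMangoldt_nonneg
    rw [abs_le]
    constructor <;> linarith
  -- the characters
  have hC : ∀ p ∈ (PC d).filter (fun p => p ≠ p0 ∧ p.1 ∣ d),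
      ‖∑ m ∈ (Icc 1 y).filter (fun m => m.Coprime (d / p.1)),
        (ArithmeticFunction.vonMangoldt m : ℂ) * p.2 (m : ZMod p.1)‖ ≤ ‖psi y p‖ + N := by
    intro p hp
    rw [mem_filter] at hp
    have h1 : ∑ m ∈ (Icc 1 y).filter (fun m => m.Coprime (d / p.1)),
        (ArithmeticFunction.vonMangoldt m : ℂ) * p.2 (m : ZMod p.1) +
        ∑ m ∈ (Icc 1 y).filter (fun m => ¬ m.Coprime (d / p.1)),
        (ArithmeticFunction.vonMangoldt m : ℂ) * p.2 (m : ZMod p.1) = psi y p :=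
      sum_filter_add_sum_filter_not _ _ _
    have h2 : ‖∑ m ∈ (Icc 1 y).filter (fun m => ¬ m.Coprime (d / p.1)),
        (ArithmeticFunction.vonMangoldt m : ℂ) * p.2 (m : ZMod p.1)‖ ≤ N := by
      refine (norm_sum_le _ _).trans ?_
      refine le_trans ?_ hPN
      refine le_trans (b := ∑ m ∈ (Icc 1 y).filter (fun m => ¬ m.Coprime (d / p.1)),
        ArithmeticFunction.vonMangoldt m) ?_ ?_
      · apply sum_le_sum
        intro m _
        rw [norm_mul, Complex.norm_real, Real.norm_eq_abs,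
          abs_of_nonneg ArithmeticFunction.vonMangoldt_nonneg]
        calc _ ≤ ArithmeticFunction.vonMangoldt m * 1 :=
              mul_le_mul_of_nonneg_left (DirichletCharacter.norm_le_one _ _)
                ArithmeticFunction.vonMangoldt_nonneg
          _ = _ := mul_one _
      · apply sum_le_sum_of_subset_of_nonneg
        · intro m hm
          rw [mem_filter] at hm ⊢
          exact ⟨hm.1, fun h => hm.2 (Nat.Coprime.coprime_dvd_right
            (Nat.div_dvd_of_dvd hp.2.2) h)⟩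
        · intro m _ _
          exact ArithmeticFunction.vonMangoldt_nonneg
    have h3 : ∑ m ∈ (Icc 1 y).filter (fun m => m.Coprime (d / p.1)),
        (ArithmeticFunction.vonMangoldt m : ℂ) * p.2 (m : ZMod p.1) = psi y p -
        ∑ m ∈ (Icc 1 y).filter (fun m => ¬ m.Coprime (d / p.1)),
        (ArithmeticFunction.vonMangoldt m : ℂ) * p.2 (m : ZMod p.1) := by
      rw [← h1]; ring
    rw [h3]
    exact (norm_sub_le _ _).trans (by linarith)
  have hS := sum_le_sum hC
  rw [sum_add_distrib, sum_const, nsmul_eq_mul] at hS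
  have hcard : ((((PC d).filter (fun p => p ≠ p0 ∧ p.1 ∣ d)).card : ℕ) : ℝ) ≤
      (Nat.totient d : ℝ) := by exact_mod_cast BV1B_card d hd
  have hS2 := mul_le_mul_of_nonneg_left hS (by positivity : 0 ≤ 1 / (Nat.totient d : ℝ))
  have hS3 : 1 / (Nat.totient d : ℝ) *
      ((((PC d).filter (fun p => p ≠ p0 ∧ p.1 ∣ d)).card : ℕ) * N) ≤ N := by
    rw [← mul_assoc]
    calc _ ≤ 1 * N := by
          apply mul_le_mul_of_nonneg_right _ hN0
          rw [one_div, inv_mul_le_iff₀ (by linarith), mul_one]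
          exact hcard
      _ = N := one_mul N
  rw [mul_add] at hS2
  -- assembly
  obtain ⟨TA, hTA⟩ : ∃ TA, TA = ∑ m ∈ (Icc 1 y).filter (fun m => m ≡ a [MOD d]),
      ArithmeticFunction.vonMangoldt m := ⟨_, rfl⟩
  obtain ⟨TC, hTC⟩ : ∃ TC, TC = ∑ m ∈ (Icc 1 y).filter (fun m => m.Coprime d),
      ArithmeticFunction.vonMangoldt m := ⟨_, rfl⟩
  rw [← hTA] at hg hA
  rw [← hTC] at hg hT
  have hT2 : |1 / (Nat.totient d : ℝ) * TC - th y / (Nat.totient d : ℝ)| ≤ E + N := by
    have h1 : 1 / (Nat.totient d : ℝ) * TC - th y / (Nat.totient d : ℝ) =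
        (1 / (Nat.totient d : ℝ)) * (TC - th y) := by ring
    rw [h1, abs_mul, abs_of_nonneg (by positivity)]
    calc _ ≤ 1 * (E + N) := by
          apply mul_le_mul _ hT (abs_nonneg _) zero_le_one
          rw [div_le_one (by linarith)]
          exact hφ
      _ = _ := one_mul _
  have h7 : |thp y d a - th y / (Nat.totient d : ℝ)| ≤ E +
      |TA - 1 / (Nat.totient d : ℝ) * TC| + (E + N) := by
    have h8 : thp y d a - th y / (Nat.totient d : ℝ) = (thp y d a - TA) +
      (TA - 1 / (Nat.totient d : ℝ) * TC) +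
      (1 / (Nat.totient d : ℝ) * TC - th y / (Nat.totient d : ℝ)) := by ring
    rw [h8]
    refine (abs_add_le _ _).trans ?_
    refine add_le_add ((abs_add_le _ _).trans ?_) hT2
    exact add_le_add hA le_rfl
  have h9 : (100 : ℝ) * Real.sqrt y * Real.log y ^ 2 =
      100 * (Real.sqrt y * Real.log y ^ 2) := by ring
  nlinarith [hg, h7, hS2, hS3, hE1, hN1]

end Pool.Agent.Lib.H59C
end

-- from Lib.H59C.TY1
section

/-!
# TY1: type I sums
-/

open Finset

namespace Pool.Agent.Lib.H59C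

open Pool.Agent.Lib.H68T (PC p0 e)

theorem ty1_mem {R : ℕ} {p : PCh} : p ∈ PD R ↔ 1 ≤ p.1 ∧ p.1 ≤ 2 * R ∧ p.2.IsPrimitive ∧ R < p.1 := by
  classical
  rw [PD, mem_filter, Pool.Agent.Lib.H68T.mem_PC]
  tauto

/-- `∑_{p ∈ PD R} 1/φ(p.1) ≤ R` -/
theorem ty1_count (R : ℕ) : ∑ p ∈ PD R, 1 / (Nat.totient p.1 : ℝ) ≤ R := by
  classical
  have hmaps : ∀ p ∈ PD R, p.1 ∈ Ioc R (2 * R) := by
    intro p hp
    have := ty1_mem.1 hp
    rw [mem_Ioc]
    exact ⟨this.2.2.2, this.2.1⟩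
  rw [← sum_fiberwise_of_maps_to hmaps]
  have h1 : ∀ r ∈ Ioc R (2 * R), ∑ p ∈ (PD R).filter (fun p => p.1 = r),
      1 / (Nat.totient p.1 : ℝ) ≤ 1 := by
    intro r hr
    rw [mem_Ioc] at hr
    have hne : NeZero r := ⟨by omega⟩
    have hφ : (0 : ℝ) < Nat.totient r := by exact_mod_cast Nat.totient_pos.2 (by omega)
    have h2 : ∑ p ∈ (PD R).filter (fun p => p.1 = r), 1 / (Nat.totient p.1 : ℝ) =
        ((PD R).filter (fun p => p.1 = r)).card * (1 / (Nat.totient r : ℝ)) := by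
      rw [← nsmul_eq_mul, ← sum_const]
      refine sum_congr rfl fun p hp => ?_
      rw [(mem_filter.1 hp).2]
    have h3 : ((PD R).filter (fun p => p.1 = r)).card ≤ Nat.totient r := by
      have h4 : (PD R).filter (fun p => p.1 = r) ⊆
          (univ : Finset (DirichletCharacter ℂ r)).map (Function.Embedding.sigmaMk r) := by
        rintro ⟨s, χ⟩ hp
        have h5 : s = r := (mem_filter.1 hp).2
        subst h5
        rw [mem_map]
        exact ⟨χ, mem_univ _, rfl⟩
      refine (card_le_card h4).trans ?_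
      rw [card_map, card_univ, ← Nat.card_eq_fintype_card,
        DirichletCharacter.card_eq_totient_of_hasEnoughRootsOfUnity ℂ r]
    rw [h2, mul_one_div, div_le_one hφ]
    exact_mod_cast h3
  refine (sum_le_sum h1).trans ?_
  rw [sum_const, Nat.card_Ioc, nsmul_one]
  have : 2 * R - R = R := by omega
  rw [this]

/-- partial summation -/
theorem ty1_abel (f : ℕ → ℂ) (B : ℝ) (hB : ∀ u v, ‖∑ n ∈ Ico u v, f n‖ ≤ B) (w : ℕ → ℝ)
    (hw0 : 0 ≤ w 1) (hmono : ∀ n, 1 ≤ n → w n ≤ w (n + 1)) (N : ℕ) (hN : 1 ≤ N) (v : ℕ)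
    (hv : N + 1 ≤ v) :
    ‖∑ n ∈ Ico 1 (N + 1), (w n : ℂ) * f n + (w N : ℂ) * ∑ n ∈ Ico (N + 1) v, f n‖ ≤ w N * B := by
  induction N, hN using Nat.le_induction with
  | base =>
    have h1 : ∑ n ∈ Ico 1 (1 + 1), (w n : ℂ) * f n + (w 1 : ℂ) * ∑ n ∈ Ico (1 + 1) v, f n =
        (w 1 : ℂ) * ∑ n ∈ Ico 1 v, f n := by
      rw [← sum_Ico_consecutive f (by norm_num : 1 ≤ 1 + 1) hv, mul_add]
      simp
    rw [h1, norm_mul, Complex.norm_real, Real.norm_of_nonneg hw0]
    exact mul_le_mul_of_nonneg_left (hB _ _) hw0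
  | succ N hN ih =>
    have h1 : ∑ n ∈ Ico 1 (N + 1 + 1), (w n : ℂ) * f n +
        (w (N + 1) : ℂ) * ∑ n ∈ Ico (N + 1 + 1) v, f n =
        (∑ n ∈ Ico 1 (N + 1), (w n : ℂ) * f n + (w N : ℂ) * ∑ n ∈ Ico (N + 1) v, f n) +
          ((w (N + 1) - w N : ℝ) : ℂ) * ∑ n ∈ Ico (N + 1) v, f n := by
      rw [sum_Ico_succ_top (by omega), ← sum_Ico_consecutive f (by omega : N + 1 ≤ N + 1 + 1) hv]
      have h2 : ∑ n ∈ Ico (N + 1) (N + 1 + 1), f n = f (N + 1) := by simp
      rw [h2]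
      push_cast
      ring
    have h3 : 0 ≤ w (N + 1) - w N := by linarith [hmono N hN]
    rw [h1]
    refine (norm_add_le _ _).trans ?_
    have h4 : ‖((w (N + 1) - w N : ℝ) : ℂ) * ∑ n ∈ Ico (N + 1) v, f n‖ ≤
        (w (N + 1) - w N) * B := by
      rw [norm_mul, Complex.norm_real, Real.norm_of_nonneg h3]
      exact mul_le_mul_of_nonneg_left (hB _ _) h3
    have h5 := ih (by omega)
    linarith

theorem ty1_inner (f : ℕ → ℂ) (B : ℝ) (hB : ∀ u v, ‖∑ n ∈ Ico u v, f n‖ ≤ B) (j : ℕ)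
    (hj : j ≤ 1) (N : ℕ) (y : ℕ) (hNy : N ≤ y) (hy : 1 ≤ y) :
    ‖∑ n ∈ Ico 1 (N + 1), ((Real.log n ^ j : ℝ) : ℂ) * f n‖ ≤ (1 + Real.log y) * B := by
  have hB0 : 0 ≤ B := (norm_nonneg _).trans (hB 0 0)
  have hly : 0 ≤ Real.log y := Real.log_nonneg (by exact_mod_cast hy)
  rcases Nat.eq_zero_or_pos N with rfl | hN
  · simp only [zero_add, Ico_self, sum_empty, norm_zero]
    positivity
  · have hmono : ∀ n : ℕ, 1 ≤ n → Real.log n ^ j ≤ Real.log ((n + 1 : ℕ) : ℝ) ^ j := by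
      intro n hn
      have h1 : (1 : ℝ) ≤ n := by exact_mod_cast hn
      have h2 : Real.log n ≤ Real.log ((n + 1 : ℕ) : ℝ) :=
        Real.log_le_log (by linarith) (by push_cast; linarith)
      exact pow_le_pow_left₀ (Real.log_nonneg h1) h2 j
    have h := ty1_abel f B hB (fun n => Real.log n ^ j) (by positivity) hmono N hN (N + 1) le_rfl
    rw [Ico_self, sum_empty, mul_zero, add_zero] at h
    refine h.trans (mul_le_mul_of_nonneg_right ?_ hB0)
    have h1 : (1 : ℝ) ≤ N := by exact_mod_cast hN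
    have h2 : Real.log N ≤ Real.log y := Real.log_le_log (by linarith) (by exact_mod_cast hNy)
    have h3 := Real.log_nonneg h1
    interval_cases j
    · rw [pow_zero]
      linarith
    · rw [pow_one]
      linarith

/-- Type I sums (`j = 0` or `1`).

Proof. For fixed `m ≤ U` the inner sum is `∑_{n ≤ y/m} (log n)^j χ(n)`, at most
`2 log y · C √(2R) log (2R)` by `polya_vinogradov` and partial summation (`log n = ∑_{k ≤ n}
(log k - log (k-1))`, monotone weights); `∑_{p ∈ PD R} 1/φ(p.1) ≤ R` (at most `φ(r)` primitive characters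
for each `r ∈ (R, 2R]`, all nontrivial as `r > R ≥ 1`). -/
theorem ty1 : ∃ C : ℝ, 0 < C ∧ ∀ (R U y : ℕ), 1 ≤ R → 1 ≤ U → 2 ≤ y → R ≤ y → ∀ a : ℕ → ℂ,
    (∀ m, 1 ≤ m → m ≤ U → ‖a m‖ ≤ 1 + Real.log y) → ∀ j : ℕ, j ≤ 1 →
    ∑ p ∈ PD R, 1 / (Nat.totient p.1 : ℝ) *
      ‖∑ m ∈ Icc 1 U, ∑ n ∈ (Icc 1 y).filter (fun n => m * n ≤ y),
        a m * ((Real.log n ^ j : ℝ) : ℂ) * p.2 ((m * n : ℕ) : ZMod p.1)‖ ≤
      C * Real.log y ^ 3 * U * (R : ℝ) ^ (3 / 2 : ℝ) := by
  obtain ⟨C₀, hC₀, hPV⟩ := polya_vinogradov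
  refine ⟨40 * C₀, by positivity, ?_⟩
  intro R U y hR hU hy hRy a ha j hj
  have hy2 : (2 : ℝ) ≤ y := by exact_mod_cast hy
  have hR1 : (1 : ℝ) ≤ R := by exact_mod_cast hR
  have hU1 : (1 : ℝ) ≤ U := by exact_mod_cast hU
  have hl2 := Real.log_two_gt_d9
  have hly : Real.log 2 ≤ Real.log y := Real.log_le_log (by norm_num) hy2
  obtain ⟨L, hL⟩ : ∃ L, L = Real.log y := ⟨_, rfl⟩
  have hL0 : 0.69 < L := by rw [hL]; linarith
  have hl2y : Real.log (2 * R) ≤ 2 * L := by
    have h1 : Real.log (2 * R) ≤ Real.log (2 * y) :=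
      Real.log_le_log (by positivity) (by
        have : (R : ℝ) ≤ y := by exact_mod_cast hRy
        linarith)
    rw [Real.log_mul (by norm_num : (2 : ℝ) ≠ 0) (by positivity : (y : ℝ) ≠ 0), ← hL] at h1
    rw [← hL] at hly
    linarith
  have hsq : Real.sqrt (2 * R) ≤ 3 / 2 * Real.sqrt R := by
    rw [Real.sqrt_mul (by norm_num)]
    refine mul_le_mul_of_nonneg_right ?_ (Real.sqrt_nonneg _)
    rw [Real.sqrt_le_left (by norm_num)]
    norm_num
  have hpt : ∀ p ∈ PD R, ‖∑ m ∈ Icc 1 U, ∑ n ∈ (Icc 1 y).filter (fun n => m * n ≤ y),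
        a m * ((Real.log n ^ j : ℝ) : ℂ) * p.2 ((m * n : ℕ) : ZMod p.1)‖ ≤
      U * ((1 + L) * ((1 + L) * (C₀ * (3 / 2 * Real.sqrt R) * (2 * L)))) := by
    intro p hp
    obtain ⟨hp1, hp2, hp3, hp4⟩ := ty1_mem.1 hp
    have hne : NeZero p.1 := ⟨by omega⟩
    have hB : ∀ u v : ℕ, ‖∑ n ∈ Ico u v, p.2 (n : ZMod p.1)‖ ≤
        C₀ * (3 / 2 * Real.sqrt R) * (2 * L) := by
      intro u v
      refine (hPV p.1 p.2 (by omega) hp3 u v).trans ?_
      have e1 : Real.sqrt p.1 ≤ 3 / 2 * Real.sqrt R :=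
        (Real.sqrt_le_sqrt (by exact_mod_cast hp2)).trans hsq
      have e2 : Real.log p.1 ≤ 2 * L :=
        (Real.log_le_log (by exact_mod_cast hp1) (by exact_mod_cast hp2)).trans hl2y
      have e3 : 0 ≤ Real.log p.1 := Real.log_nonneg (by exact_mod_cast hp1)
      gcongr
    refine (norm_sum_le _ _).trans ?_
    have hm : ∀ m ∈ Icc 1 U, ‖∑ n ∈ (Icc 1 y).filter (fun n => m * n ≤ y),
        a m * ((Real.log n ^ j : ℝ) : ℂ) * p.2 ((m * n : ℕ) : ZMod p.1)‖ ≤
        (1 + L) * ((1 + L) * (C₀ * (3 / 2 * Real.sqrt R) * (2 * L))) := by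
      intro m hm
      rw [mem_Icc] at hm
      have e1 : ∑ n ∈ (Icc 1 y).filter (fun n => m * n ≤ y),
          a m * ((Real.log n ^ j : ℝ) : ℂ) * p.2 ((m * n : ℕ) : ZMod p.1) =
          a m * p.2 (m : ZMod p.1) * ∑ n ∈ Ico 1 (y / m + 1),
            ((Real.log n ^ j : ℝ) : ℂ) * p.2 (n : ZMod p.1) := by
        rw [mul_sum]
        have e2 : (Icc 1 y).filter (fun n => m * n ≤ y) = Ico 1 (y / m + 1) := by
          ext n
          rw [mem_filter, mem_Icc, mem_Ico, Nat.lt_succ_iff, Nat.le_div_iff_mul_le (by omega)]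
          constructor
          · rintro ⟨⟨h1, -⟩, h2⟩
            exact ⟨h1, by rw [mul_comm]; exact h2⟩
          · rintro ⟨h1, h2⟩
            refine ⟨⟨h1, ?_⟩, by rw [mul_comm]; exact h2⟩
            nlinarith
        rw [e2]
        refine sum_congr rfl fun n _ => ?_
        rw [Nat.cast_mul, map_mul]
        ring
      rw [e1, norm_mul, norm_mul]
      have e3 : ‖p.2 (m : ZMod p.1)‖ ≤ 1 := DirichletCharacter.norm_le_one _ _
      have e4 := ha m hm.1 hm.2
      rw [← hL] at e4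
      have e5 := ty1_inner (fun n => p.2 (n : ZMod p.1)) _ hB j hj (y / m) y (Nat.div_le_self _ _)
        (by omega)
      rw [← hL] at e5
      have e6 : ‖a m‖ * ‖p.2 (m : ZMod p.1)‖ ≤ 1 + L :=
        calc _ ≤ (1 + L) * 1 := mul_le_mul e4 e3 (norm_nonneg _) (by linarith)
          _ = 1 + L := mul_one _
      exact mul_le_mul e6 e5 (norm_nonneg _) (by linarith)
    refine (sum_le_sum hm).trans ?_
    rw [sum_const, Nat.card_Icc, nsmul_eq_mul, Nat.add_sub_cancel]
  have h1 : ∑ p ∈ PD R, 1 / (Nat.totient p.1 : ℝ) *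
      ‖∑ m ∈ Icc 1 U, ∑ n ∈ (Icc 1 y).filter (fun n => m * n ≤ y),
        a m * ((Real.log n ^ j : ℝ) : ℂ) * p.2 ((m * n : ℕ) : ZMod p.1)‖ ≤
      R * (U * ((1 + L) * ((1 + L) * (C₀ * (3 / 2 * Real.sqrt R) * (2 * L))))) := by
    refine (sum_le_sum fun p hp => mul_le_mul_of_nonneg_left (hpt p hp) (by positivity)).trans ?_
    rw [← sum_mul]
    exact mul_le_mul_of_nonneg_right (ty1_count R) (by positivity)
  refine h1.trans ?_
  have h2 : (R : ℝ) ^ (3 / 2 : ℝ) = R * Real.sqrt R := by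
    rw [Real.sqrt_eq_rpow, ← Real.rpow_one_add' (by positivity) (by norm_num)]
    norm_num
  rw [h2, ← hL]
  have h3 : 1 + L ≤ 5 / 2 * L := by linarith
  have h4 : (1 + L) * (1 + L) ≤ (5 / 2 * L) * (5 / 2 * L) :=
    mul_le_mul h3 h3 (by linarith) (by linarith)
  have h5 : 0 ≤ (R : ℝ) * U * C₀ * Real.sqrt R * L := by positivity
  calc (R : ℝ) * (U * ((1 + L) * ((1 + L) * (C₀ * (3 / 2 * Real.sqrt R) * (2 * L)))))
      = 3 * ((1 + L) * (1 + L)) * ((R : ℝ) * U * C₀ * Real.sqrt R * L) := by ring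
    _ ≤ 3 * ((5 / 2 * L) * (5 / 2 * L)) * ((R : ℝ) * U * C₀ * Real.sqrt R * L) := by gcongr
    _ = 75 / 4 * (C₀ * L ^ 3 * U * (R * Real.sqrt R)) := by ring
    _ ≤ 40 * (C₀ * L ^ 3 * U * (R * Real.sqrt R)) := by
      have : 0 ≤ C₀ * L ^ 3 * U * (R * Real.sqrt R) := by positivity
      linarith
    _ = 40 * C₀ * L ^ 3 * U * (R * Real.sqrt R) := by ring

end Pool.Agent.Lib.H59C
end

-- from Lib.H59C.MER0
section

/-!
# MER0: Mertens' second theorem
-/

open Finset

namespace Pool.Agent.Lib.H59C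

/-- The primes in `[u, v)`. -/
noncomputable def PR (u v : ℝ) : Finset ℕ :=
  open Classical in (range ⌈v⌉₊).filter (fun q : ℕ => q.Prime ∧ u ≤ (q : ℝ))

theorem mem_PR {u v : ℝ} {q : ℕ} : q ∈ PR u v ↔ q.Prime ∧ u ≤ (q : ℝ) ∧ (q : ℝ) < v := by
  unfold PR
  rw [Finset.mem_filter, Finset.mem_range, Nat.lt_ceil]
  tauto

open Pool.Agent.Lib.Sieve (primesUpTo mem_primesUpTo sum_log_div_le)

theorem MER0_sq : ∃ B : ℝ, 0 ≤ B ∧ ∀ s : Finset ℕ, ∑ p ∈ s, Real.log p / (p : ℝ) ^ 2 ≤ B := by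
  have hs : Summable (fun n : ℕ => 2 * (1 / (n : ℝ) ^ (3 / 2 : ℝ))) :=
    (Real.summable_one_div_nat_rpow.2 (by norm_num)).mul_left 2
  refine ⟨∑' n : ℕ, 2 * (1 / (n : ℝ) ^ (3 / 2 : ℝ)), tsum_nonneg fun n => by positivity,
    fun s => ?_⟩
  refine (Finset.sum_le_sum fun p _ => ?_).trans (hs.sum_le_tsum s fun n _ => by positivity)
  rcases Nat.eq_zero_or_pos p with rfl | hp
  · simp
  · have hp0 : (0 : ℝ) < p := by exact_mod_cast hp
    have h1 := Real.log_le_rpow_div hp0.le (show (0 : ℝ) < 1 / 2 by norm_num)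
    have h2 : (p : ℝ) ^ 2 = (p : ℝ) ^ (3 / 2 : ℝ) * (p : ℝ) ^ (1 / 2 : ℝ) := by
      rw [← Real.rpow_add hp0]
      norm_num
    rw [h2, div_le_iff₀ (by positivity)]
    have h3 : (0 : ℝ) < (p : ℝ) ^ (3 / 2 : ℝ) := by positivity
    calc Real.log p ≤ (p : ℝ) ^ (1 / 2 : ℝ) / (1 / 2) := h1
      _ = 2 * (1 / (p : ℝ) ^ (3 / 2 : ℝ)) * ((p : ℝ) ^ (3 / 2 : ℝ) * (p : ℝ) ^ (1 / 2 : ℝ)) := by
        field_simp

theorem MER0_fac (n : ℕ) (hn : 1 ≤ n) : n * Real.log n - n ≤ Real.log (n.factorial : ℝ) := by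
  have hn0 : (0 : ℝ) < n := by exact_mod_cast hn
  have h1 := Real.pow_div_factorial_le_exp (n : ℝ) hn0.le n
  have h2 : (0 : ℝ) < n.factorial := by exact_mod_cast n.factorial_pos
  have h3 := Real.log_le_log (by positivity) h1
  rw [Real.log_exp, Real.log_div (by positivity) h2.ne', Real.log_pow] at h3
  linarith

theorem MER0_val (n p : ℕ) (hp : p.Prime) :
    (n.factorial.factorization p : ℝ) ≤ n / ((p : ℝ) - 1) := by
  haveI : Fact p.Prime := ⟨hp⟩
  have h1 := sub_one_mul_padicValNat_factorial (p := p) n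
  rw [Nat.factorization_def _ hp]
  have h2 : (p - 1) * padicValNat p n.factorial ≤ n := by omega
  have hp1 : (1 : ℝ) < p := by exact_mod_cast hp.one_lt
  rw [le_div_iff₀ (by linarith)]
  have h3 : ((p - 1 : ℕ) : ℝ) * (padicValNat p n.factorial : ℝ) ≤ n := by exact_mod_cast h2
  rw [Nat.cast_sub hp.one_le] at h3
  push_cast at h3
  linarith

theorem MER0_logfac (n : ℕ) : Real.log (n.factorial : ℝ) =
    ∑ p ∈ primesUpTo n, (n.factorial.factorization p : ℝ) * Real.log p := by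
  have h0 : n.factorial ≠ 0 := n.factorial_ne_zero
  have h1 : ∏ p ∈ primesUpTo n, p ^ n.factorial.factorization p = n.factorial := by
    conv_rhs => rw [← Nat.prod_factorization_pow_eq_self h0]
    symm
    apply Finsupp.prod_of_support_subset
    · intro p hp
      rw [Nat.support_factorization, Nat.mem_primeFactors] at hp
      rw [mem_primesUpTo]
      exact ⟨hp.1, (hp.1.dvd_factorial).1 hp.2.1⟩
    · intro p _
      exact pow_zero p
  conv_lhs => rw [← h1]
  push_cast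
  rw [Real.log_prod]
  · exact Finset.sum_congr rfl fun p _ => Real.log_pow _ _
  · intro p hp
    have : (p : ℝ) ≠ 0 := by exact_mod_cast (mem_primesUpTo.1 hp).1.ne_zero
    positivity

theorem MER0_lower : ∃ C : ℝ, 0 ≤ C ∧ ∀ n : ℕ, 1 ≤ n →
    Real.log n - C ≤ ∑ p ∈ primesUpTo n, Real.log p / p := by
  obtain ⟨B, hB, hB1⟩ := MER0_sq
  refine ⟨1 + 2 * B, by linarith, fun n hn => ?_⟩
  have hn0 : (0 : ℝ) < n := by exact_mod_cast hn
  have h1 := MER0_fac n hn
  rw [MER0_logfac] at h1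
  have h2 : ∑ p ∈ primesUpTo n, (n.factorial.factorization p : ℝ) * Real.log p ≤
      ∑ p ∈ primesUpTo n, (n * (Real.log p / p) + n * (2 * (Real.log p / (p : ℝ) ^ 2))) := by
    refine Finset.sum_le_sum fun p hp => ?_
    have hp' := (mem_primesUpTo.1 hp).1
    have hp2 : (2 : ℝ) ≤ p := by exact_mod_cast hp'.two_le
    have hlog : 0 ≤ Real.log p := Real.log_nonneg (by linarith)
    have h3 := mul_le_mul_of_nonneg_right (MER0_val n p hp') hlog
    refine h3.trans ?_
    have h4 : (n : ℝ) / ((p : ℝ) - 1) ≤ n / p + n * (2 / (p : ℝ) ^ 2) := by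
      rw [div_le_iff₀ (by linarith)]
      have h5 : (n : ℝ) / p + n * (2 / (p : ℝ) ^ 2) = n * ((p + 2) / (p : ℝ) ^ 2) := by
        field_simp
      rw [h5, mul_assoc]
      have h6 : 1 ≤ ((p : ℝ) + 2) / (p : ℝ) ^ 2 * (p - 1) := by
        rw [div_mul_eq_mul_div, le_div_iff₀ (by positivity)]
        nlinarith
      nlinarith
    calc (n : ℝ) / ((p : ℝ) - 1) * Real.log p ≤ (n / p + n * (2 / (p : ℝ) ^ 2)) * Real.log p :=
          mul_le_mul_of_nonneg_right h4 hlog
      _ = _ := by ring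
  rw [Finset.sum_add_distrib, ← Finset.mul_sum, ← Finset.mul_sum, ← Finset.mul_sum] at h2
  have h3 := hB1 (primesUpTo n)
  have h4 : (n : ℝ) * Real.log n - n ≤ n * ∑ p ∈ primesUpTo n, Real.log p / p + n * (2 * B) := by
    have : (n : ℝ) * (2 * ∑ p ∈ primesUpTo n, Real.log p / (p : ℝ) ^ 2) ≤ n * (2 * B) := by
      gcongr
    linarith
  have h5 : (n : ℝ) * (Real.log n - (1 + 2 * B)) ≤ n * ∑ p ∈ primesUpTo n, Real.log p / p := by
    linarith
  exact le_of_mul_le_mul_left h5 hn0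

/-- the coefficients -/
noncomputable def MER0_c (n : ℕ) : ℝ := open Classical in if n.Prime then Real.log n / n else 0

theorem MER0_sumc (n : ℕ) : ∑ k ∈ Icc 0 n, MER0_c k = ∑ p ∈ primesUpTo n, Real.log p / p := by
  unfold primesUpTo
  rw [Finset.sum_filter]
  have : Icc 0 n = range (n + 1) := by
    ext k; simp
  rw [this]
  unfold MER0_c
  refine Finset.sum_congr rfl fun k _ => ?_
  split_ifs <;> rfl

theorem MER0_first : ∃ C : ℝ, 0 < C ∧ ∀ t : ℝ, 1 ≤ t →
    |∑ k ∈ Icc 0 ⌊t⌋₊, MER0_c k - Real.log t| ≤ C := by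
  obtain ⟨C, hC, h⟩ := MER0_lower
  refine ⟨C + Real.log 4 + 2, by positivity, fun t ht => ?_⟩
  rw [MER0_sumc]
  have hn : 1 ≤ ⌊t⌋₊ := (Nat.one_le_floor_iff t).2 ht
  have hn0 : (1 : ℝ) ≤ ⌊t⌋₊ := by exact_mod_cast hn
  have h1 := h ⌊t⌋₊ hn
  have h2 := sum_log_div_le ⌊t⌋₊ hn
  have h3 : Real.log (⌊t⌋₊ : ℝ) ≤ Real.log t :=
    Real.log_le_log (by linarith) (Nat.floor_le (by linarith))
  have h4 : Real.log t ≤ Real.log (⌊t⌋₊ : ℝ) + 1 := by
    have h5 : t ≤ ⌊t⌋₊ * 2 := by
      have := Nat.lt_floor_add_one t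
      linarith
    have h6 := Real.log_le_log (by linarith) h5
    rw [Real.log_mul (by linarith) (by norm_num)] at h6
    have h7 : Real.log 2 ≤ 1 := by
      have := Real.log_two_lt_d9
      linarith
    linarith
  have h8 : 0 ≤ Real.log 4 := Real.log_nonneg (by norm_num)
  rw [abs_le]
  constructor <;> linarith

open MeasureTheory in
theorem MER0_abel : ∃ C : ℝ, 0 < C ∧ ∀ u v : ℝ, 2 ≤ u → u ≤ v →
    |∑ k ∈ Ioc ⌊u⌋₊ ⌊v⌋₊, (1 / Real.log k) * MER0_c k -
      (Real.log (Real.log v) - Real.log (Real.log u))| ≤ C / Real.log u := by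
  obtain ⟨C, hC, h⟩ := MER0_first
  refine ⟨2 * C, by linarith, fun u v hu huv => ?_⟩
  have hd : ∀ t : ℝ, 1 < t → HasDerivAt (fun x => 1 / Real.log x) (-(1 / (t * Real.log t ^ 2))) t := by
    intro t ht
    have h0 : Real.log t ≠ 0 := (Real.log_pos ht).ne'
    have h1 := (Real.hasDerivAt_log (show t ≠ 0 by linarith)).inv h0
    have h2 : (fun x => 1 / Real.log x) = fun x => (Real.log x)⁻¹ := by
      ext x; rw [one_div]
    have h3 : -(1 / (t * Real.log t ^ 2)) = -t⁻¹ / Real.log t ^ 2 := by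
      rw [one_div, mul_inv, neg_div, div_eq_mul_inv]
    rw [h2, h3]
    exact h1
  have hdd : ∀ t : ℝ, 1 < t → HasDerivAt (fun x => Real.log (Real.log x)) (1 / (t * Real.log t)) t := by
    intro t ht
    have h0 : Real.log t ≠ 0 := (Real.log_pos ht).ne'
    have h1 := (Real.hasDerivAt_log (show t ≠ 0 by linarith)).log h0
    have h2 : 1 / (t * Real.log t) = t⁻¹ / Real.log t := by
      rw [one_div, mul_inv, div_eq_mul_inv]
    rw [h2]
    exact h1
  have hder : ∀ t : ℝ, 1 < t → deriv (fun x => 1 / Real.log x) t = -(1 / (t * Real.log t ^ 2)) :=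
    fun t ht => (hd t ht).deriv
  have hcont : ContinuousOn (fun t : ℝ => -(1 / (t * Real.log t ^ 2))) (Set.Icc u v) := by
    refine ContinuousOn.neg (ContinuousOn.div continuousOn_const ?_ ?_)
    · exact continuousOn_id.mul ((Real.continuousOn_log.mono (by
        intro t ht
        have := ht.1
        simp only [Set.mem_compl_iff, Set.mem_singleton_iff]
        linarith)).pow 2)
    · intro t ht
      have h1 : 1 < t := by have := ht.1; linarith
      have := Real.log_pos h1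
      positivity
  have hcont2 : ContinuousOn (fun t : ℝ => 1 / (t * Real.log t)) (Set.Icc u v) := by
    refine ContinuousOn.div continuousOn_const ?_ ?_
    · exact continuousOn_id.mul (Real.continuousOn_log.mono (by
        intro t ht
        have := ht.1
        simp only [Set.mem_compl_iff, Set.mem_singleton_iff]
        linarith))
    · intro t ht
      have h1 : 1 < t := by have := ht.1; linarith
      have := Real.log_pos h1
      positivity
  have hint : IntegrableOn (deriv (fun x : ℝ => 1 / Real.log x)) (Set.Icc u v) := by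
    refine (hcont.integrableOn_Icc).congr_fun ?_ measurableSet_Icc
    intro t ht
    rw [hder t (by have := ht.1; linarith)]
  have hab := sum_mul_eq_sub_sub_integral_mul MER0_c (f := fun x : ℝ => 1 / Real.log x)
    (a := u) (b := v) (by linarith) huv
    (fun t ht => (hd t (by have := ht.1; linarith)).differentiableAt) hint
  have hint2 := integrableOn_mul_sum_Icc (m := 0) MER0_c (a := u) (b := v) (by linarith) hint
  rw [hab]
  -- the two boundary terms
  have hlu : 0 < Real.log u := Real.log_pos (by linarith)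
  have hlv : 0 < Real.log v := Real.log_pos (by linarith)
  have hluv : Real.log u ≤ Real.log v := Real.log_le_log (by linarith) huv
  -- integrals
  have i1 : ∫ t in Set.Ioc u v, 1 / (t * Real.log t) =
      Real.log (Real.log v) - Real.log (Real.log u) := by
    rw [← intervalIntegral.integral_of_le huv]
    refine intervalIntegral.integral_eq_sub_of_hasDerivAt (f := fun x => Real.log (Real.log x))
      (fun t ht => hdd t ?_) ?_
    · rw [Set.uIcc_of_le huv] at ht
      have := ht.1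
      linarith
    · rw [intervalIntegrable_iff_integrableOn_Ioc_of_le huv]
      exact hcont2.integrableOn_Icc.mono_set Set.Ioc_subset_Icc_self
  have i2 : ∫ t in Set.Ioc u v, C * -(-(1 / (t * Real.log t ^ 2))) =
      C * (1 / Real.log u - 1 / Real.log v) := by
    rw [integral_const_mul, integral_neg, ← intervalIntegral.integral_of_le huv,
      intervalIntegral.integral_eq_sub_of_hasDerivAt (f := fun x => 1 / Real.log x)]
    · ring
    · intro t ht
      rw [Set.uIcc_of_le huv] at ht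
      have := ht.1
      exact hd t (by linarith)
    · rw [intervalIntegrable_iff_integrableOn_Ioc_of_le huv]
      exact hcont.integrableOn_Icc.mono_set Set.Ioc_subset_Icc_self
  have i3 : |∫ t in Set.Ioc u v, (deriv (fun x : ℝ => 1 / Real.log x) t *
      ∑ k ∈ Icc 0 ⌊t⌋₊, MER0_c k + 1 / (t * Real.log t))| ≤ C * (1 / Real.log u - 1 / Real.log v) := by
    rw [← i2, ← Real.norm_eq_abs]
    refine norm_integral_le_of_norm_le ?_ ?_
    · exact ((hcont.integrableOn_Icc.mono_set Set.Ioc_subset_Icc_self).neg).const_mul C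
    · rw [ae_restrict_iff' measurableSet_Ioc]
      refine ae_of_all _ fun t ht => ?_
      have ht1 : 1 < t := by have := ht.1; linarith
      have hl := Real.log_pos ht1
      rw [hder t ht1, Real.norm_eq_abs]
      have e : -(1 / (t * Real.log t ^ 2)) * ∑ k ∈ Icc 0 ⌊t⌋₊, MER0_c k + 1 / (t * Real.log t) =
          -(1 / (t * Real.log t ^ 2)) * (∑ k ∈ Icc 0 ⌊t⌋₊, MER0_c k - Real.log t) := by
        field_simp
        ring
      rw [e, abs_mul, abs_neg, abs_of_pos (by positivity), neg_neg, mul_comm C]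
      exact mul_le_mul_of_nonneg_left (h t ht1.le) (by positivity)
  rw [integral_add (hint2.mono_set Set.Ioc_subset_Icc_self)
    (hcont2.integrableOn_Icc.mono_set Set.Ioc_subset_Icc_self), i1] at i3
  have b1 := h u (by linarith)
  have b2 := h v (by linarith)
  rw [abs_le] at b1 b2 i3
  have c1 : |1 / Real.log v * ∑ k ∈ Icc 0 ⌊v⌋₊, MER0_c k - 1| ≤ C / Real.log v := by
    have e : 1 / Real.log v * ∑ k ∈ Icc 0 ⌊v⌋₊, MER0_c k - 1 =
        (∑ k ∈ Icc 0 ⌊v⌋₊, MER0_c k - Real.log v) / Real.log v := by field_simp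
    rw [e, abs_div, abs_of_pos hlv]
    exact div_le_div_of_nonneg_right (h v (by linarith)) hlv.le
  have c2 : |1 / Real.log u * ∑ k ∈ Icc 0 ⌊u⌋₊, MER0_c k - 1| ≤ C / Real.log u := by
    have e : 1 / Real.log u * ∑ k ∈ Icc 0 ⌊u⌋₊, MER0_c k - 1 =
        (∑ k ∈ Icc 0 ⌊u⌋₊, MER0_c k - Real.log u) / Real.log u := by field_simp
    rw [e, abs_div, abs_of_pos hlu]
    exact div_le_div_of_nonneg_right (h u (by linarith)) hlu.le
  rw [abs_le] at c1 c2 ⊢
  have e1 : C * (1 / Real.log u - 1 / Real.log v) = C / Real.log u - C / Real.log v := by ring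
  have e2 : 2 * C / Real.log u = C / Real.log u + C / Real.log u := by ring
  rw [e1] at i3
  rw [e2]
  constructor <;> linarith [i3.1, i3.2, c1.1, c1.2, c2.1, c2.2]

/-- **Mertens.** `∑_{u ≤ q < v} 1/q = log log v - log log u + O(1/log u)`.

Proof. `∑_{n ≤ x} Λ(n)/n = log x + O(1)` (from `∑_{n ≤ x} Λ(n) ⌊x/n⌋ = log ⌊x⌋!`, Stirling, and Chebyshev
`ψ(x) ≤ C x`, `Chebyshev.psi_le_const_mul_self`), hence `∑_{q ≤ x} log q/q = log x + O(1)`, and partial summation
with `1/log q`. -/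
theorem mertens : ∃ C : ℝ, 0 < C ∧ ∀ u v : ℝ, 2 ≤ u → u ≤ v →
    |∑ q ∈ PR u v, 1 / (q : ℝ) - (Real.log (Real.log v) - Real.log (Real.log u))| ≤
      C / Real.log u := by
  classical
  obtain ⟨C, hC, h⟩ := MER0_abel
  refine ⟨C + 2, by linarith, fun u v hu huv => ?_⟩
  have hlu : 0 < Real.log u := Real.log_pos (by linarith)
  have h1 : ∑ k ∈ Ioc ⌊u⌋₊ ⌊v⌋₊, (1 / Real.log k) * MER0_c k =
      ∑ k ∈ (Ioc ⌊u⌋₊ ⌊v⌋₊).filter Nat.Prime, 1 / (k : ℝ) := by
    rw [Finset.sum_filter]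
    refine Finset.sum_congr rfl fun k _ => ?_
    unfold MER0_c
    split_ifs with hk
    · have h2 : (1 : ℝ) < k := by exact_mod_cast hk.one_lt
      have h3 := (Real.log_pos h2).ne'
      field_simp
    · rw [mul_zero]
  have h2 := h u v hu huv
  rw [h1] at h2
  have hle1 : ∑ q ∈ PR u v, 1 / (q : ℝ) ≤
      ∑ k ∈ (Ioc ⌊u⌋₊ ⌊v⌋₊).filter Nat.Prime, 1 / (k : ℝ) + 1 / u := by
    have hsub : PR u v ⊆ insert ⌊u⌋₊ ((Ioc ⌊u⌋₊ ⌊v⌋₊).filter Nat.Prime) := by
      intro q hq
      rw [mem_PR] at hq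
      rw [Finset.mem_insert, Finset.mem_filter, Finset.mem_Ioc]
      by_cases hqu : q ≤ ⌊u⌋₊
      · left
        have h3 : (⌊u⌋₊ : ℝ) ≤ q := (Nat.floor_le (by linarith)).trans hq.2.1
        have h4 : ⌊u⌋₊ ≤ q := by exact_mod_cast h3
        omega
      · right
        refine ⟨⟨by omega, Nat.le_floor hq.2.2.le⟩, hq.1⟩
    by_cases hmem : ⌊u⌋₊ ∈ PR u v
    · refine (Finset.sum_le_sum_of_subset_of_nonneg hsub fun k _ _ => by positivity).trans ?_
      rw [Finset.sum_insert (by simp)]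
      have h3 := (mem_PR.1 hmem).2.1
      have h4 : 1 / (⌊u⌋₊ : ℝ) ≤ 1 / u := one_div_le_one_div_of_le (by linarith) h3
      linarith
    · have hsub' : PR u v ⊆ (Ioc ⌊u⌋₊ ⌊v⌋₊).filter Nat.Prime := by
        intro q hq
        rcases Finset.mem_insert.1 (hsub hq) with h3 | h3
        · exact absurd (h3 ▸ hq) hmem
        · exact h3
      have h3 := Finset.sum_le_sum_of_subset_of_nonneg (f := fun k : ℕ => 1 / (k : ℝ)) hsub'
        fun k _ _ => by positivity
      have h4 : 0 ≤ 1 / u := by positivity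
      linarith
  have hle2 : ∑ k ∈ (Ioc ⌊u⌋₊ ⌊v⌋₊).filter Nat.Prime, 1 / (k : ℝ) ≤
      ∑ q ∈ PR u v, 1 / (q : ℝ) + 1 / u := by
    have hsub : (Ioc ⌊u⌋₊ ⌊v⌋₊).filter Nat.Prime ⊆ insert ⌊v⌋₊ (PR u v) := by
      intro q hq
      rw [Finset.mem_filter, Finset.mem_Ioc] at hq
      rw [Finset.mem_insert, mem_PR]
      by_cases hqv : (q : ℝ) < v
      · right
        exact ⟨hq.2, (Nat.lt_of_floor_lt hq.1.1).le, hqv⟩
      · left
        have h3 : (q : ℝ) ≤ v := (Nat.le_floor_iff (by linarith)).1 hq.1.2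
        have h4 : (q : ℝ) = v := le_antisymm h3 (not_lt.1 hqv)
        rw [← h4, Nat.floor_natCast]
    by_cases hmem : ⌊v⌋₊ ∈ (Ioc ⌊u⌋₊ ⌊v⌋₊).filter Nat.Prime
    · refine (Finset.sum_le_sum_of_subset_of_nonneg hsub fun k _ _ => by positivity).trans ?_
      have h5 : 1 / (⌊v⌋₊ : ℝ) ≤ 1 / u := by
        refine one_div_le_one_div_of_le (by linarith) ?_
        exact (Nat.lt_of_floor_lt (Finset.mem_Ioc.1 (Finset.mem_filter.1 hmem).1).1).le
      by_cases h6 : ⌊v⌋₊ ∈ PR u v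
      · rw [Finset.insert_eq_of_mem h6]
        have : 0 ≤ 1 / u := by positivity
        linarith
      · rw [Finset.sum_insert h6]
        linarith
    · have hsub' : (Ioc ⌊u⌋₊ ⌊v⌋₊).filter Nat.Prime ⊆ PR u v := by
        intro q hq
        rcases Finset.mem_insert.1 (hsub hq) with h3 | h3
        · exact absurd (h3 ▸ hq) hmem
        · exact h3
      have h3 := Finset.sum_le_sum_of_subset_of_nonneg (f := fun k : ℕ => 1 / (k : ℝ)) hsub'
        fun k _ _ => by positivity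
      have h4 : 0 ≤ 1 / u := by positivity
      linarith
  have h3 : 1 / u ≤ 2 / Real.log u := by
    rw [div_le_div_iff₀ (by linarith) hlu]
    have := Real.log_le_sub_one_of_pos (show (0 : ℝ) < u by linarith)
    linarith
  rw [abs_le] at h2 ⊢
  have e : (C + 2) / Real.log u = C / Real.log u + 2 / Real.log u := by ring
  rw [e]
  constructor <;> linarith [h2.1, h2.2]

end Pool.Agent.Lib.H59C
end

-- from Lib.H59C.CDefs
section

/-!
# Project H59C, part 3: definitions for the weighted sieve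

A window is `n, N, y1, y2` (`N = 2 X`, `X` the vertex of the Goldbach graph); the sequence is `|N - p|`, `p ∈ (y1, y2]`
prime, with weights `log p`; sifting primes `PP n N p1` up to `z = n^(1/8)`; weights for the primes in `[z, y)`,
`y = (2n)^(1/3)`.
-/

open Finset

namespace Pool.Agent.Lib.H59C

noncomputable section

/-- A window. -/
structure Win (n N y1 y2 : ℕ) : Prop where
  N0 : 0 < N
  even : 2 ∣ N
  N2 : N ≤ 2 * n
  lt : y1 < y2
  le : y2 ≤ n
  len : n ≤ 16 * (y2 - y1)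
  lo : n ≤ 16 * y1
  side : (y2 < N ∧ n ≤ 8 * (N - y2)) ∨ (N ≤ y1 ∧ n ≤ 8 * (y1 - N))

/-- The primes in `(y1, y2]`. -/
def Sq (y1 y2 : ℕ) : Finset ℕ := (Ioc y1 y2).filter Nat.Prime

/-- `log p` -/
def lg (p : ℕ) : ℝ := Real.log p

/-- The total weight. -/
def XX (y1 y2 : ℕ) : ℝ := ∑ p ∈ Sq y1 y2, lg p

/-- The odd primes up to `n` which do not divide `N` and are different from `p1`. -/
def PP (n N p1 : ℕ) : Finset ℕ := (Icc 3 n).filter (fun q => q.Prime ∧ ¬ q ∣ N ∧ q ≠ p1)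

/-- The arithmetic factor. -/
def hl (N : ℕ) : ℝ := ∏ q ∈ N.primeFactors.filter (fun q => 2 < q), (((q : ℝ) - 1) / (q - 2))

/-- `z = n^(1/8)` -/
def zz (n : ℕ) : ℝ := (n : ℝ) ^ (1 / 8 : ℝ)

/-- `y = (2n)^(1/3)` -/
def yy (n : ℕ) : ℝ := (2 * n : ℝ) ^ (1 / 3 : ℝ)

/-- The primes with weights. -/
def QQ (n N p1 : ℕ) : Finset ℕ := (PR (zz n) (yy n)).filter (fun q => q ∈ PP n N p1)

/-- `a = q1 q2 q3` with primes `z ≤ q1 < y ≤ q2 ≤ q3`. -/
def Tri (n a : ℕ) : Prop :=
  ∃ q1 q2 q3 : ℕ, q1.Prime ∧ q2.Prime ∧ q3.Prime ∧ zz n ≤ q1 ∧ (q1 : ℝ) < yy n ∧ yy n ≤ q2 ∧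
    q2 ≤ q3 ∧ a = q1 * q2 * q3

/-! ## Switching -/

/-- The values of the switched sequence: `|N - m q|` to the left of `N`, `N + m q` otherwise. -/
def bb (N y2 : ℕ) (x : ℕ × ℕ) : ℕ := if y2 < N then Nat.dist N (x.1 * x.2) else N + x.1 * x.2

/-- The pairs `(m, q)`, `m ≤ M`, `q` prime in `(u, v]`. -/
def BX (M u v : ℕ) : Finset (ℕ × ℕ) := (Icc 1 M) ×ˢ Sq u v

/-- The weight of `(m, q)`. -/
def wB (α : ℕ → ℝ) (x : ℕ × ℕ) : ℝ := α x.1 * lg x.2

/-- The total weight. -/
def XB (M u v : ℕ) (α : ℕ → ℝ) : ℝ := (∑ m ∈ Icc 1 M, α m) * XX u v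

/-- The ends of the boxes. -/
def lv (δ : ℝ) (i : ℕ) : ℕ := ⌊(1 + δ) ^ i⌋₊

open Classical in
/-- The weight of `m` in the box `(i, j)`: `m = q1 q2` with primes `z ≤ q1 < y ≤ q2 ≤ v_j`, `m` in the `i`-th
interval. -/
def al (n : ℕ) (δ : ℝ) (x : ℕ × ℕ) (m : ℕ) : ℝ :=
  if lv δ x.1 < m ∧ ∃ q1 q2 : ℕ, q1.Prime ∧ q2.Prime ∧ zz n ≤ q1 ∧ (q1 : ℝ) < yy n ∧ yy n ≤ q2 ∧
    q2 ≤ lv δ (x.2 + 1) ∧ m = q1 * q2 then 1 else 0

open Classical in
/-- The boxes which are needed: there is a pair `(m, q)` in the box with `N - m q` or `N + m q` in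
`(y1, y2]`. -/
def Rel (n N y1 y2 : ℕ) (δ : ℝ) : Finset (ℕ × ℕ) :=
  (range (⌊4 * Real.log n / δ⌋₊ + 1) ×ˢ range (⌊4 * Real.log n / δ⌋₊ + 1)).filter
    (fun x => ∃ m q p : ℕ, lv δ x.1 < m ∧ m ≤ lv δ (x.1 + 1) ∧ lv δ x.2 < q ∧ q ≤ lv δ (x.2 + 1) ∧
      q.Prime ∧ al n δ x m = 1 ∧ yy n ≤ q ∧ y1 < p ∧ p ≤ y2 ∧ Nat.dist N p = m * q)

end

theorem one_le_hl (N : ℕ) : 1 ≤ hl N := by
  unfold hl
  have h : ∏ q ∈ N.primeFactors.filter (fun q => 2 < q), (1 : ℝ) ≤
      ∏ q ∈ N.primeFactors.filter (fun q => 2 < q), (((q : ℝ) - 1) / (q - 2)) := by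
    apply Finset.prod_le_prod
    · intro i _; norm_num
    · intro i hi
      have h2 : 2 < i := (Finset.mem_filter.mp hi).2
      have h3 : (2 : ℝ) < i := by exact_mod_cast h2
      rw [le_div_iff₀ (by linarith)]
      linarith
  simpa using h

theorem mem_Sq {y1 y2 p : ℕ} : p ∈ Sq y1 y2 ↔ (y1 < p ∧ p ≤ y2) ∧ p.Prime := by
  simp [Sq]

theorem mem_PP {n N p1 q : ℕ} :
    q ∈ PP n N p1 ↔ (3 ≤ q ∧ q ≤ n) ∧ q.Prime ∧ ¬ q ∣ N ∧ q ≠ p1 := by
  simp [PP]

end Pool.Agent.Lib.H59C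
end

-- from Lib.H59C.C0
section

/-!
# C0: the prime number theorem for the windows, monotonicity of `SWp`
-/

open Finset Filter

namespace Pool.Agent.Lib.H59C

theorem c0_th_eq (y : ℕ) : th y = Chebyshev.theta y := by
  unfold th Chebyshev.theta
  rw [Nat.floor_natCast]
  rfl

/-- Proof. `PNT.theta_tendsto` (`Lib/PNT/PNT.lean`; `th y = Chebyshev.theta y`): there is `y0` with
`|th y - y| ≤ (ε/8) y` for `y ≥ y0`, and for `y < y0` both are bounded. -/
theorem th_pnt (ε : ℝ) (hε : 0 < ε) : ∃ n0 : ℕ, ∀ n : ℕ, n0 ≤ n → ∀ y : ℕ, y ≤ 8 * n →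
    |th y - y| ≤ ε * n := by
  have h := Metric.tendsto_atTop.mp Pool.Agent.Lib.PNT.theta_tendsto (ε / 8) (by linarith)
  obtain ⟨y0, hy0⟩ := h
  obtain ⟨Y, hY⟩ := exists_nat_ge (max y0 1)
  have hY0 : y0 ≤ Y := le_trans (le_max_left _ _) hY
  have hY1 : (1 : ℝ) ≤ Y := le_trans (le_max_right _ _) hY
  obtain ⟨n0, hn0⟩ := exists_nat_ge (3 * Y / ε)
  refine ⟨n0, fun n hn y hy => ?_⟩
  have hy8 : (y : ℝ) ≤ 8 * n := by exact_mod_cast hy
  have hn' : 3 * Y / ε ≤ n := hn0.trans (by exact_mod_cast hn)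
  rw [div_le_iff₀ hε] at hn'
  rw [c0_th_eq]
  rcases le_or_gt (Y : ℝ) y with h1 | h1
  · have hypos : (0 : ℝ) < y := by linarith
    have h2 := hy0 y (by linarith)
    rw [Real.dist_eq] at h2
    have h3 : |Chebyshev.theta y - y| = |Chebyshev.theta y / y - 1| * y := by
      rw [← abs_of_pos hypos, ← abs_mul, abs_of_pos hypos]
      congr 1
      field_simp
    rw [h3]
    calc |Chebyshev.theta y / y - 1| * y ≤ ε / 8 * y :=
          mul_le_mul_of_nonneg_right h2.le hypos.le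
      _ ≤ ε * n := by nlinarith
  · have hy0' : (0 : ℝ) ≤ y := Nat.cast_nonneg _
    have h2 := Chebyshev.theta_nonneg (y : ℝ)
    have h3 := Chebyshev.theta_le_log4_mul_x hy0'
    have h4 : Real.log 4 ≤ 2 := by
      have h5 : Real.log 4 = 2 * Real.log 2 := by
        rw [show (4 : ℝ) = 2 ^ 2 by norm_num, Real.log_pow]
        norm_num
      have := Real.log_two_lt_d9
      rw [h5]
      linarith
    have h5 : Chebyshev.theta y ≤ 2 * y := h3.trans (mul_le_mul_of_nonneg_right h4 hy0')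
    rw [abs_le]
    constructor <;> nlinarith

theorem XX_eq {y1 y2 : ℕ} (h : y1 ≤ y2) : XX y1 y2 = th y2 - th y1 := by
  unfold XX th Sq lg
  have h1 : (Icc 1 y2).filter Nat.Prime =
      (Icc 1 y1).filter Nat.Prime ∪ (Ioc y1 y2).filter Nat.Prime := by
    ext q
    simp only [mem_filter, mem_Icc, mem_union, mem_Ioc]
    constructor
    · rintro ⟨⟨h1, h2⟩, h3⟩
      rcases le_or_gt q y1 with h4 | h4
      · left; exact ⟨⟨h1, h4⟩, h3⟩
      · right; exact ⟨⟨h4, h2⟩, h3⟩
    · rintro (⟨⟨h1, h2⟩, h3⟩ | ⟨⟨h1, h2⟩, h3⟩)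
      · exact ⟨⟨h1, by omega⟩, h3⟩
      · exact ⟨⟨by omega, h2⟩, h3⟩
  have h2 : Disjoint ((Icc 1 y1).filter Nat.Prime) ((Ioc y1 y2).filter Nat.Prime) := by
    rw [Finset.disjoint_left]
    intro q hq hq'
    simp only [mem_filter, mem_Icc, mem_Ioc] at hq hq'
    omega
  rw [h1, sum_union h2]
  ring

/-- Proof. `th_pnt (ε/32)`, `n ≤ 16 (y2 - y1)`. -/
theorem XX_bounds (ε : ℝ) (hε : 0 < ε) : ∃ n0 : ℕ, ∀ n : ℕ, n0 ≤ n → ∀ N y1 y2 : ℕ,
    Win n N y1 y2 → (1 - ε) * ((y2 : ℝ) - y1) ≤ XX y1 y2 ∧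
      XX y1 y2 ≤ (1 + ε) * ((y2 : ℝ) - y1) := by
  obtain ⟨n0, hn0⟩ := th_pnt (ε / 32) (by linarith)
  refine ⟨n0, fun n hn N y1 y2 hW => ?_⟩
  have h1 := hn0 n hn y1 (by have := hW.lt; have := hW.le; omega)
  have h2 := hn0 n hn y2 (by have := hW.le; omega)
  have h3 := hW.len
  have h4 := hW.lt
  have h5 : (n : ℝ) ≤ 16 * ((y2 : ℝ) - y1) := by
    have h6 : (n : ℝ) ≤ ((16 * (y2 - y1) : ℕ) : ℝ) := by exact_mod_cast h3
    rw [Nat.cast_mul, Nat.cast_sub h4.le] at h6
    exact_mod_cast h6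
  rw [XX_eq h4.le]
  rw [abs_le] at h1 h2
  constructor <;> nlinarith

/-- Proof. More conductors and a better bound (`1 ≤ log n`). -/
theorem SWp_mono {A A' n p1 : ℕ} (h : A ≤ A') (hn : 3 ≤ n) (hS : SWp A' n p1) : SWp A n p1 := by
  have hN : (3 : ℝ) ≤ n := by exact_mod_cast hn
  have hL : 1 ≤ Real.log n := by
    rw [Real.le_log_iff_exp_le (by linarith)]
    have := Real.exp_one_lt_d9
    linarith
  intro p hp hp0 hpd y hy1 hy2
  have hp' := Pool.Agent.Lib.H68T.mem_PC.mp hp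
  have hp2 : p ∈ Pool.Agent.Lib.H68T.PC ⌊Real.log n ^ A'⌋₊ := by
    rw [Pool.Agent.Lib.H68T.mem_PC]
    refine ⟨hp'.1, le_trans hp'.2.1 ?_, hp'.2.2⟩
    apply Nat.floor_le_floor
    exact pow_le_pow_right₀ hL h
  refine (hS p hp2 hp0 hpd y hy1 hy2).trans ?_
  apply div_le_div_of_nonneg_left (Nat.cast_nonneg _) (by positivity)
  exact pow_le_pow_right₀ hL h

end Pool.Agent.Lib.H59C
end

-- from Lib.H59C.CDL
section

/-!
# CDL: the logarithm of the level of distribution, and other elementary asymptotics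
-/

open Finset Filter

namespace Pool.Agent.Lib.H59C

theorem cdl_log_pow (B : ℕ) (C η : ℝ) (hC : 0 < C) (hη : 0 < η) : ∃ n0 : ℕ, ∀ n : ℕ, n0 ≤ n →
    C * Real.log n ^ B ≤ (n : ℝ) ^ η := by
  have h1 := isLittleO_log_rpow_rpow_atTop (B : ℝ) hη
  have h2 := h1.def (c := 1 / C) (by positivity)
  have h3 := (tendsto_natCast_atTop_atTop (R := ℝ)).eventually h2
  obtain ⟨n0, hn0⟩ := eventually_atTop.mp h3
  refine ⟨max n0 3, fun n hn => ?_⟩
  have hn3 : 3 ≤ n := le_trans (le_max_right _ _) hn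
  have h4 := hn0 n (le_trans (le_max_left _ _) hn)
  have hn' : (1 : ℝ) ≤ n := by exact_mod_cast (by omega : 1 ≤ n)
  have hl : 0 ≤ Real.log n := Real.log_nonneg hn'
  rw [Real.rpow_natCast, Real.norm_of_nonneg (by positivity),
    Real.norm_of_nonneg (by positivity)] at h4
  calc C * Real.log n ^ B ≤ C * (1 / C * (n : ℝ) ^ η) := by
        apply mul_le_mul_of_nonneg_left h4 hC.le
    _ = (n : ℝ) ^ η := by field_simp

/-- The logarithm of the level of distribution. -/
theorem dd_log (B Q0 : ℕ) (hQ : 1 ≤ Q0) (η : ℝ) (hη : 0 < η) : ∃ n0 : ℕ, ∀ n : ℕ, n0 ≤ n →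
    1 ≤ DD n B ∧ (1 / 2 - η) * Real.log n ≤ Real.log ((DD n B : ℝ) / Q0) ∧
    Real.log ((DD n B : ℝ) / Q0) ≤ 1 / 2 * Real.log n ∧ (0 : ℝ) < (DD n B : ℝ) / Q0 := by
  obtain ⟨θ, hθ⟩ : ∃ θ : ℝ, θ = min η (1 / 4) := ⟨_, rfl⟩
  have hθ0 : 0 < θ := by rw [hθ]; exact lt_min hη (by norm_num)
  have hθη : θ ≤ η := by rw [hθ]; exact min_le_left _ _
  have hθ4 : θ ≤ 1 / 4 := by rw [hθ]; exact min_le_right _ _
  have hQ' : (1 : ℝ) ≤ Q0 := by exact_mod_cast hQ
  obtain ⟨n0, hn0⟩ := cdl_log_pow B (2 * Q0) θ (by positivity) hθ0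
  refine ⟨max n0 3, fun n hn => ?_⟩
  have hn3 : 3 ≤ n := le_trans (le_max_right _ _) hn
  have h4 := hn0 n (le_trans (le_max_left _ _) hn)
  have hn' : (3 : ℝ) ≤ n := by exact_mod_cast hn3
  have hl : 1 ≤ Real.log n := by
    rw [Real.le_log_iff_exp_le (by linarith)]
    have := Real.exp_one_lt_d9
    linarith
  have hLB : 1 ≤ Real.log n ^ B := one_le_pow₀ hl
  have hx : 2 * Q0 * (n : ℝ) ^ (1 / 2 - θ) ≤ Real.sqrt n / Real.log n ^ B := by
    rw [le_div_iff₀ (by positivity)]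
    calc 2 * Q0 * (n : ℝ) ^ (1 / 2 - θ) * Real.log n ^ B
        = (2 * Q0 * Real.log n ^ B) * (n : ℝ) ^ (1 / 2 - θ) := by ring
      _ ≤ (n : ℝ) ^ θ * (n : ℝ) ^ (1 / 2 - θ) :=
          mul_le_mul_of_nonneg_right h4 (by positivity)
      _ = Real.sqrt n := by
          rw [← Real.rpow_add (by linarith), Real.sqrt_eq_rpow]
          congr 1
          ring
  have hpow : 1 ≤ (n : ℝ) ^ (1 / 2 - θ) := Real.one_le_rpow (by linarith) (by linarith)
  have hx1 : 2 ≤ Real.sqrt n / Real.log n ^ B := by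
    refine le_trans ?_ hx
    nlinarith
  have hfl : Real.sqrt n / Real.log n ^ B < (DD n B : ℝ) + 1 := Nat.lt_floor_add_one _
  have hfl2 : (DD n B : ℝ) ≤ Real.sqrt n / Real.log n ^ B := Nat.floor_le (by positivity)
  have hD : (Q0 : ℝ) * (n : ℝ) ^ (1 / 2 - θ) ≤ DD n B := by linarith
  have hD1 : (1 : ℝ) ≤ DD n B := by linarith
  have hpos : (0 : ℝ) < (DD n B : ℝ) / Q0 := by positivity
  refine ⟨by exact_mod_cast hD1, ?_, ?_, hpos⟩
  · have h5 : (n : ℝ) ^ (1 / 2 - θ) ≤ (DD n B : ℝ) / Q0 := by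
      rw [le_div_iff₀ (by linarith)]
      linarith
    have h6 := Real.log_le_log (by positivity) h5
    rw [Real.log_rpow (by linarith)] at h6
    have h7 : (1 / 2 - η) * Real.log n ≤ (1 / 2 - θ) * Real.log n := by
      apply mul_le_mul_of_nonneg_right (by linarith) (by linarith)
    linarith
  · have h5 : (DD n B : ℝ) / Q0 ≤ Real.sqrt n := by
      calc (DD n B : ℝ) / Q0 ≤ DD n B := div_le_self (by positivity) hQ'
        _ ≤ Real.sqrt n / Real.log n ^ B := hfl2
        _ ≤ Real.sqrt n := div_le_self (Real.sqrt_nonneg _) hLB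
    have h6 := Real.log_le_log hpos h5
    rw [Real.log_sqrt (by linarith)] at h6
    linarith

theorem cdl_zz (M : ℝ) : ∃ n0 : ℕ, ∀ n : ℕ, n0 ≤ n → M ≤ zz n := by
  have h1 : Tendsto (fun n : ℕ => (n : ℝ) ^ (1 / 8 : ℝ)) atTop atTop :=
    (tendsto_rpow_atTop (by norm_num : (0 : ℝ) < 1 / 8)).comp tendsto_natCast_atTop_atTop
  obtain ⟨n0, hn0⟩ := eventually_atTop.mp (h1.eventually_ge_atTop M)
  exact ⟨n0, fun n hn => hn0 n hn⟩

theorem cdl_log (M : ℝ) : ∃ n0 : ℕ, ∀ n : ℕ, n0 ≤ n → M ≤ Real.log n := by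
  have h1 : Tendsto (fun n : ℕ => Real.log (n : ℝ)) atTop atTop :=
    Real.tendsto_log_atTop.comp tendsto_natCast_atTop_atTop
  obtain ⟨n0, hn0⟩ := eventually_atTop.mp (h1.eventually_ge_atTop M)
  exact ⟨n0, fun n hn => hn0 n hn⟩

theorem log_zz (n : ℕ) (hn : 0 < n) : Real.log (zz n) = 1 / 8 * Real.log n := by
  unfold zz
  rw [Real.log_rpow (by exact_mod_cast hn)]

end Pool.Agent.Lib.H59C
end
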