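import Pool.Agent.Lib.H1M.RV3.M006
import Pool.Agent.Lib.H1M.RV3.M015
import Pool.Agent.Lib.H1M.RV3.M028

/-! Merged copies (to shorten the build) of Lib.H96G.Defs, Lib.H96G.Num, Lib.H96G.A0, Lib.H96G.A1, Lib.H9S.O2, Lib.H96G.A2, Lib.H96G.A3, Lib.H96G.A5, Lib.H96G.A6, Lib.H96G.B1, Lib.H96G.C0, Lib.H96G.C3, Lib.H96G.C5. -/

-- from Lib.H96G.Defs
section

/-!
# Project H96G (MP_443e5f_co, project T, module G): from the kernel estimates to the graph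

`GIn n M L c B b` is the input at the size `n`: scales are multiples of `M`, `L X` is the model of the primes on
`[X, 4X]`, power savings `c`, base scales `Z ≥ n^(1-B)`, losses `n^(-b)`, `100 b ≤ B`, `100 B ≤ c`.

The graph is `HL lo n` (halved coordinates, `lo = 0` or `1`): `x`, `y` in `[lo, n]` are adjacent iff `x + y` and
`|x - y|` are odd primes (`hadj x y`).
-/

open Finset

namespace Pool.Agent.Lib.H96G

open Pool.Agent.Lib.H68T (lp)
open Pool.Agent.Lib.GoldbachGraph (hadj hadj_comm)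

noncomputable section

/-- The kernel of the primes. -/
def kp (x y : ℕ) : ℝ := lp ((x : ℤ) + y) * lp ((x : ℤ) - y)

/-- The kernel of the model `l`. -/
def km (l : ℤ → ℝ) (x y : ℕ) : ℝ := l ((x : ℤ) + y) * l ((x : ℤ) - y)

/-- The halved graph on `[lo, n]`. -/
def HL (lo n : ℕ) : SimpleGraph ℕ where
  Adj x y := hadj x y ∧ x ∈ Finset.Icc lo n ∧ y ∈ Finset.Icc lo n
  symm := ⟨fun _ _ h => ⟨(hadj_comm _ _).mp h.1, h.2.2, h.2.1⟩⟩
  loopless := ⟨fun x h => by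
    have := h.1.2.2.1
    rw [Nat.dist_self] at this
    exact Nat.not_prime_zero this⟩

/-- Same type: same parity, and both or none divisible by `3`. -/
def ST (x y : ℕ) : Prop := x % 2 = y % 2 ∧ (3 ∣ x ↔ 3 ∣ y)

/-- Opposite type: different parity, and exactly one divisible by `3`. -/
def OT (x y : ℕ) : Prop := x % 2 ≠ y % 2 ∧ (3 ∣ x ↔ ¬ 3 ∣ y)

/-- `X` is a scale for `x ∈ [2X, 3X)` and `Z` one for `y ∈ [Z, 2Z)`. -/
structure Sc (n M : ℕ) (B : ℝ) (X Z : ℕ) : Prop where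
  dX : M ∣ X
  dZ : M ∣ Z
  lo : (n : ℝ) ^ (1 - B) ≤ Z
  le : 2 * Z ≤ X
  hi : X ≤ n

open Classical in
/-- The input of module G. -/
structure GIn (n M : ℕ) (L : ℕ → ℤ → ℝ) (c B b : ℝ) : Prop where
  b_pos : 0 < b
  hb : 100 * b ≤ B
  hB : 100 * B ≤ c
  hc : c ≤ 1
  M1 : 1 ≤ M
  Mn : (M : ℝ) ≤ (n : ℝ) ^ (1 / 2 : ℝ)
  bd : ∀ X Z : ℕ, Sc n M B X Z → ∀ m : ℤ, (X : ℤ) ≤ m → m ≤ 4 * X → |L X m| ≤ (n : ℝ) ^ b
  op : ∀ X Z : ℕ, Sc n M B X Z → ∀ f g : ℕ → ℝ, (∀ x, |f x| ≤ 1) → (∀ y, |g y| ≤ 1) →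
    |∑ x ∈ Ico (2 * X) (3 * X), ∑ y ∈ Ico Z (2 * Z), f x * g y * (kp x y - km (L X) x y)| ≤
      (n : ℝ) ^ (2 - c)
  m4 : ∀ X X' Z : ℕ, Sc n M B X Z → Sc n M B X' Z →
    (((Ico (2 * X) (3 * X) ×ˢ Ico (2 * X') (3 * X')).filter fun p => ST p.1 p.2 ∧
      ∑ y ∈ Ico Z (2 * Z), km (L X) p.1 y * km (L X') p.2 y < Z * (n : ℝ) ^ (-b)).card : ℝ) ≤
      (n : ℝ) ^ (2 - c)
  m3 : ∀ X Z : ℕ, Sc n M B X Z →
    (((Ico (2 * X) (3 * X)).filter fun x => 3 ∣ x ∧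
      ∑ y ∈ Ico Z (2 * Z), km (L X) x y * lp (2 * (y : ℤ) - 3) < Z * (n : ℝ) ^ (-b)).card : ℝ) ≤
      (n : ℝ) ^ (1 - c)

/-- `n` is large for the exponent `b`. -/
structure Nm (n : ℕ) (b : ℝ) : Prop where
  b_pos : 0 < b
  n_pos : 1 ≤ n
  big : 10 ^ 6 * (Real.log (8 * n)) ^ 6 ≤ (n : ℝ) ^ (b / 2)

/-- Mixed correlation: primes at `x`, model at `x'`. -/
def dx (l' : ℤ → ℝ) (Z x x' : ℕ) : ℝ := ∑ y ∈ Ico Z (2 * Z), kp x y * km l' x' y

open Classical in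
/-- The vertices `x' ∈ [2X', 3X')` of the type of `x` with small mixed correlation. -/
def bad (n : ℕ) (L : ℕ → ℤ → ℝ) (b : ℝ) (X' Z x : ℕ) : Finset ℕ :=
  (Ico (2 * X') (3 * X')).filter fun x' => ST x x' ∧ dx (L X') Z x x' < Z * (n : ℝ) ^ (-b) / 2

/-- Neighbours of `x` in `[Z, 2Z)`. -/
def nb (Z x : ℕ) : Finset ℕ := (Ico Z (2 * Z)).filter fun y => hadj x y

/-- Neighbours `y` of `x` in `[Z, 2Z)` for which `2y-3` is a prime (then `y - 3` is a neighbour of `y`). -/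
def nb3 (Z x : ℕ) : Finset ℕ := (Ico Z (2 * Z)).filter fun y => hadj x y ∧ (2 * y - 3).Prime

open Classical in
/-- The vertices of the type of `x` in `I` without a common neighbour with `x` in `[Z, 2Z)`. -/
def far (Z x : ℕ) (I : Finset ℕ) : Finset ℕ :=
  I.filter fun x' => ST x x' ∧ ¬ ∃ y ∈ Ico Z (2 * Z), hadj x y ∧ hadj x' y

/-- `Γ` is a set of generic vertices of `[4Z, n]` for the base scale `Z`. -/
structure PZ (n Z : ℕ) (s t : ℝ) (Γ : Finset ℕ) : Prop where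
  sub : Γ ⊆ Icc (4 * Z) n
  co : ((Icc (4 * Z) n \ Γ).card : ℝ) ≤ s
  al : ∀ u ∈ Γ, t ≤ (nb Z u).card
  be : ∀ u ∈ Γ, ((far Z u (Icc (4 * Z) n)).card : ℝ) ≤ s
  ga : ∀ u ∈ Γ, 3 ∣ u → t ≤ (nb3 Z u).card

end

end Pool.Agent.Lib.H96G
end

-- from Lib.H96G.Num
section

/-!
# Project H96G: arithmetic of the powers of `n`
-/

open Finset

namespace Pool.Agent.Lib.H96G

/-- `Nm n b` holds for all large `n`. -/
theorem nm_ev (b : ℝ) (hb : 0 < b) : ∃ n0 : ℕ, ∀ n : ℕ, n0 ≤ n → ∀ b' : ℝ, b ≤ b' → Nm n b' := by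
  have h1 : (fun x : ℝ => 10 ^ 6 * (Real.log (8 * x)) ^ 6) =o[Filter.atTop] fun x => x ^ (b / 2) := by
    have h2 : (fun x : ℝ => Real.log (8 * x)) =o[Filter.atTop] fun x => x ^ (b / 12) := by
      have h3 : (fun x : ℝ => Real.log (8 * x)) =ᶠ[Filter.atTop] fun x => Real.log 8 + Real.log x := by
        filter_upwards [Filter.eventually_gt_atTop 0] with x hx
        rw [Real.log_mul (by norm_num) hx.ne']
      refine h3.trans_isLittleO ?_
      refine Asymptotics.IsLittleO.add ?_ (isLittleO_log_rpow_atTop (by positivity))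
      refine Asymptotics.isLittleO_const_left.2 (Or.inr ?_)
      exact tendsto_norm_atTop_atTop.comp (tendsto_rpow_atTop (by positivity))
    have h4 := (h2.pow (n := 6) (by norm_num)).const_mul_left (10 ^ 6 : ℝ)
    refine h4.congr' (Filter.EventuallyEq.refl _ _) ?_
    filter_upwards [Filter.eventually_gt_atTop 0] with x hx
    rw [← Real.rpow_natCast, ← Real.rpow_mul hx.le]
    congr 1
    push_cast
    ring
  have h5 := (h1.def (show (0 : ℝ) < 1 by norm_num))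
  have h6 := tendsto_natCast_atTop_atTop (R := ℝ) |>.eventually h5
  obtain ⟨n0, hn0⟩ := Filter.eventually_atTop.mp h6
  refine ⟨max n0 1, fun n hn b' hb' => ⟨by linarith, le_trans (le_max_right _ _) hn, ?_⟩⟩
  have h7 := hn0 n (le_trans (le_max_left _ _) hn)
  have hn1 : (1 : ℝ) ≤ n := by exact_mod_cast le_trans (le_max_right _ _) hn
  rw [one_mul, Real.norm_of_nonneg (Real.rpow_nonneg (by linarith) _)] at h7
  refine (le_trans (le_abs_self _) h7).trans ?_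
  exact Real.rpow_le_rpow_of_exponent_le hn1 (by linarith)

variable {n : ℕ} {b : ℝ}

theorem Nm.pos (h : Nm n b) : (0 : ℝ) < n := by
  have := h.n_pos
  exact_mod_cast this

theorem Nm.one_le (h : Nm n b) : (1 : ℝ) ≤ n := by exact_mod_cast h.n_pos

theorem Nm.ell (h : Nm n b) : 1 ≤ Real.log (8 * n) := by
  have h1 : Real.log 8 ≤ Real.log (8 * n) :=
    Real.log_le_log (by norm_num) (by linarith [h.one_le])
  have h2 : (1 : ℝ) ≤ Real.log 8 := by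
    rw [Real.le_log_iff_exp_le (by norm_num)]
    linarith [Real.exp_one_lt_d9]
  linarith

/-- monotone in the exponent -/
theorem Nm.mono (h : Nm n b) {x y : ℝ} (hxy : x ≤ y) : (n : ℝ) ^ x ≤ (n : ℝ) ^ y :=
  Real.rpow_le_rpow_of_exponent_le h.one_le hxy

theorem Nm.mul (h : Nm n b) (x y : ℝ) : (n : ℝ) ^ x * (n : ℝ) ^ y = (n : ℝ) ^ (x + y) :=
  (Real.rpow_add h.pos x y).symm

theorem Nm.ppos (h : Nm n b) (x : ℝ) : 0 < (n : ℝ) ^ x := Real.rpow_pos_of_pos h.pos x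

/-- constants and logarithms are absorbed -/
theorem Nm.abs (h : Nm n b) {K x y : ℝ} (hK : K ≤ 10 ^ 6 * (Real.log (8 * n)) ^ 6)
    (hxy : x + b / 2 ≤ y) : K * (n : ℝ) ^ x ≤ (n : ℝ) ^ y := by
  calc K * (n : ℝ) ^ x ≤ (n : ℝ) ^ (b / 2) * (n : ℝ) ^ x :=
        mul_le_mul_of_nonneg_right (hK.trans h.big) (h.ppos x).le
    _ = (n : ℝ) ^ (b / 2 + x) := h.mul _ _
    _ ≤ (n : ℝ) ^ y := h.mono (by linarith)

/-- constants are absorbed -/
theorem Nm.cst (h : Nm n b) {K x y : ℝ} (hK : K ≤ 10 ^ 6) (hxy : x + b / 2 ≤ y) :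
    K * (n : ℝ) ^ x ≤ (n : ℝ) ^ y := by
  refine h.abs (hK.trans ?_) hxy
  have : (1 : ℝ) ≤ (Real.log (8 * n)) ^ 6 := one_le_pow₀ h.ell
  linarith

/-- a constant times a power of the logarithm is absorbed -/
theorem Nm.lg (h : Nm n b) {K x y : ℝ} {j : ℕ} (hj : j ≤ 6) (hK : K ≤ 10 ^ 6)
    (hxy : x + b / 2 ≤ y) : K * (Real.log (8 * n)) ^ j * (n : ℝ) ^ x ≤ (n : ℝ) ^ y := by
  refine h.abs ?_ hxy
  exact mul_le_mul hK (pow_le_pow_right₀ h.ell hj) (pow_nonneg (by linarith [h.ell]) _) (by norm_num)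

end Pool.Agent.Lib.H96G
end

-- from Lib.H96G.A0
section

/-!
# Project H96G, chunk A0 (M): the operator bound, scaled and in dual form
-/

open Finset

namespace Pool.Agent.Lib.H96G

/-- **A0, scaled form.** Proof. Apply the field `op` to `f' x = f x / F` for `x ∈ [2X, 3X)`, `0` else, and to
`g' y = g y / G` for `y ∈ [Z, 2Z)`, `0` else. -/
theorem A0_scale {n M : ℕ} {L : ℕ → ℤ → ℝ} {c B b : ℝ} (h : GIn n M L c B b) {X Z : ℕ}
    (hs : Sc n M B X Z) (f g : ℕ → ℝ) (F G : ℝ) (hF : 0 < F) (hG : 0 < G)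
    (hf : ∀ x ∈ Ico (2 * X) (3 * X), |f x| ≤ F) (hg : ∀ y ∈ Ico Z (2 * Z), |g y| ≤ G) :
    |∑ x ∈ Ico (2 * X) (3 * X), ∑ y ∈ Ico Z (2 * Z), f x * g y * (kp x y - km (L X) x y)| ≤
      F * G * (n : ℝ) ^ (2 - c) := by
  classical
  have h1 := h.op X Z hs (fun x => if x ∈ Ico (2 * X) (3 * X) then f x / F else 0)
    (fun y => if y ∈ Ico Z (2 * Z) then g y / G else 0)
    (fun x => by
      by_cases hx : x ∈ Ico (2 * X) (3 * X)
      · simp only [if_pos hx]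
        rw [abs_div, abs_of_pos hF, div_le_one hF]
        exact hf x hx
      · simp only [if_neg hx]
        rw [abs_zero]
        exact zero_le_one)
    (fun y => by
      by_cases hy : y ∈ Ico Z (2 * Z)
      · simp only [if_pos hy]
        rw [abs_div, abs_of_pos hG, div_le_one hG]
        exact hg y hy
      · simp only [if_neg hy]
        rw [abs_zero]
        exact zero_le_one)
  have e1 : ∑ x ∈ Ico (2 * X) (3 * X), ∑ y ∈ Ico Z (2 * Z), f x * g y * (kp x y - km (L X) x y) =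
      F * G * ∑ x ∈ Ico (2 * X) (3 * X), ∑ y ∈ Ico Z (2 * Z),
        (if x ∈ Ico (2 * X) (3 * X) then f x / F else 0) *
        (if y ∈ Ico Z (2 * Z) then g y / G else 0) * (kp x y - km (L X) x y) := by
    rw [Finset.mul_sum]
    refine Finset.sum_congr rfl fun x hx => ?_
    rw [Finset.mul_sum]
    refine Finset.sum_congr rfl fun y hy => ?_
    rw [if_pos hx, if_pos hy]
    field_simp
  rw [e1, abs_mul, abs_of_pos (mul_pos hF hG)]
  exact mul_le_mul_of_nonneg_left h1 (mul_pos hF hG).le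

open Classical in
/-- **A0, dual form.** Proof. `S x = ∑_y g y (kp x y - km (L X) x y)`; `A0_scale` with `f x = 1` if `S x > t`, `-1`
if `S x < -t`, `0` else (`F = 1`): `∑_x f x S x = ∑_{|S x| > t} |S x| ≥ t · #{|S x| > t}`. -/
theorem A0_dual {n M : ℕ} {L : ℕ → ℤ → ℝ} {c B b : ℝ} (h : GIn n M L c B b) {X Z : ℕ}
    (hs : Sc n M B X Z) (g : ℕ → ℝ) (G t : ℝ) (hG : 0 < G) (ht : 0 ≤ t)
    (hg : ∀ y ∈ Ico Z (2 * Z), |g y| ≤ G) :
    t * (((Ico (2 * X) (3 * X)).filter fun x =>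
      t < |∑ y ∈ Ico Z (2 * Z), g y * (kp x y - km (L X) x y)|).card : ℝ) ≤
      G * (n : ℝ) ^ (2 - c) := by
  set S : ℕ → ℝ := fun x => ∑ y ∈ Ico Z (2 * Z), g y * (kp x y - km (L X) x y) with hS
  set f : ℕ → ℝ := fun x => if t < S x then 1 else if S x < -t then -1 else 0 with hf
  have hf1 : ∀ x ∈ Ico (2 * X) (3 * X), |f x| ≤ 1 := by
    intro x _
    rw [hf]
    beta_reduce
    split_ifs <;> simp
  have h1 := A0_scale h hs f g 1 G one_pos hG hf1 hg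
  rw [one_mul] at h1
  have e1 : ∑ x ∈ Ico (2 * X) (3 * X), ∑ y ∈ Ico Z (2 * Z), f x * g y * (kp x y - km (L X) x y) =
      ∑ x ∈ Ico (2 * X) (3 * X), f x * S x := by
    refine Finset.sum_congr rfl fun x _ => ?_
    rw [hS]
    beta_reduce
    rw [Finset.mul_sum]
    exact Finset.sum_congr rfl fun y _ => by ring
  rw [e1] at h1
  have h2 : ∀ x ∈ Ico (2 * X) (3 * X), (if t < |S x| then t else 0) ≤ f x * S x := by
    intro x _
    rw [hf]
    beta_reduce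
    by_cases a1 : t < S x
    · rw [if_pos a1]
      split_ifs
      · linarith
      · linarith
    · rw [if_neg a1]
      by_cases a2 : S x < -t
      · rw [if_pos a2]
        split_ifs
        · linarith
        · linarith
      · rw [if_neg a2]
        have a3 : ¬ t < |S x| := by
          intro a4
          rcases lt_abs.1 a4 with a5 | a5
          · exact a1 a5
          · exact a2 (by linarith)
        rw [if_neg a3]
        simp
  have h3 := Finset.sum_le_sum h2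
  rw [← Finset.sum_filter, Finset.sum_const, nsmul_eq_mul] at h3
  calc t * (((Ico (2 * X) (3 * X)).filter fun x => t < |S x|).card : ℝ)
      = (((Ico (2 * X) (3 * X)).filter fun x => t < |S x|).card : ℝ) * t := mul_comm _ _
    _ ≤ _ := h3
    _ ≤ _ := (le_abs_self _).trans h1

end Pool.Agent.Lib.H96G
end

-- from Lib.H96G.A1
section

/-!
# Project H96G, chunk A1 (S/M): elementary bounds for the kernels
-/

open Finset

namespace Pool.Agent.Lib.H96G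

open Pool.Agent.Lib.H68T (lp)
open Pool.Agent.Lib.GoldbachGraph (hadj)

/-- Proof. Definition of `lp`; `log m ≥ 0` for `m ≥ 2`. -/
theorem a1_lp_nonneg (m : ℤ) : 0 ≤ lp m := by
  unfold Pool.Agent.Lib.H68T.lp
  split_ifs with h
  · have h1 := h.two_le
    have h2 : (1 : ℤ) ≤ m := by omega
    exact Real.log_nonneg (by exact_mod_cast h2)
  · exact le_refl 0

/-- Proof. Definition of `lp`, monotonicity of `log`; `log (8 n) ≥ 0`. -/
theorem a1_lp_le (n : ℕ) (hn : 1 ≤ n) (m : ℤ) (hm : m ≤ 8 * n) : lp m ≤ Real.log (8 * n) := by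
  have hn1 : (1 : ℝ) ≤ n := by exact_mod_cast hn
  unfold Pool.Agent.Lib.H68T.lp
  split_ifs with h
  · have h1 := h.two_le
    have h2 : (0 : ℤ) < m := by omega
    have h3 : (m : ℝ) ≤ 8 * n := by exact_mod_cast hm
    exact Real.log_le_log (by exact_mod_cast h2) h3
  · exact Real.log_nonneg (by linarith)

theorem a1_kp_nonneg (x y : ℕ) : 0 ≤ kp x y :=
  mul_nonneg (a1_lp_nonneg _) (a1_lp_nonneg _)

/-- Proof. `x + y < 4 X ≤ 4 n`, `a1_lp_le` twice. -/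
theorem a1_kp_le {n M : ℕ} {B : ℝ} {X Z : ℕ} (hn : 1 ≤ n) (h : Sc n M B X Z) {x y : ℕ}
    (hx : x ∈ Ico (2 * X) (3 * X)) (hy : y ∈ Ico Z (2 * Z)) :
    kp x y ≤ (Real.log (8 * n)) ^ 2 := by
  have h1 := Finset.mem_Ico.1 hx
  have h2 := Finset.mem_Ico.1 hy
  have h3 := h.le
  have h4 := h.hi
  have k1 := a1_lp_le n hn ((x : ℤ) + y) (by omega)
  have k2 := a1_lp_le n hn ((x : ℤ) - y) (by omega)
  unfold kp
  rw [sq]
  exact mul_le_mul k1 k2 (a1_lp_nonneg _) ((a1_lp_nonneg _).trans k1)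

/-- Proof. `x ± y ∈ [X, 4X]`, field `bd`, `n^b * n^b = n^(2b)`. -/
theorem a1_km_abs {n M : ℕ} {L : ℕ → ℤ → ℝ} {c B b : ℝ} (hN : Nm n b) (h : GIn n M L c B b)
    {X Z : ℕ} (hs : Sc n M B X Z) {x y : ℕ}
    (hx : x ∈ Ico (2 * X) (3 * X)) (hy : y ∈ Ico Z (2 * Z)) :
    |km (L X) x y| ≤ (n : ℝ) ^ (2 * b) := by
  have h1 := Finset.mem_Ico.1 hx
  have h2 := Finset.mem_Ico.1 hy
  have h3 := hs.le
  have h4 := hs.hi
  have k1 := h.bd X Z hs ((x : ℤ) + y) (by omega) (by omega)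
  have k2 := h.bd X Z hs ((x : ℤ) - y) (by omega) (by omega)
  unfold km
  rw [abs_mul, two_mul, ← hN.mul]
  exact mul_le_mul k1 k2 (abs_nonneg _) (hN.ppos b).le

/-- Proof. If `kp x y ≠ 0` then `x + y` and `x - y` are primes; `x - y > 2X - 2Z ≥ X ≥ 2 Z ≥ 2`
(`Z ≥ 1` because `Z ≥ n^(1-B) > 0`), so both are odd; `Nat.dist x y = x - y`. -/
theorem a1_kp_hadj {n M : ℕ} {B : ℝ} {X Z : ℕ} (hn : 1 ≤ n) (h : Sc n M B X Z) {x y : ℕ}
    (hx : x ∈ Ico (2 * X) (3 * X)) (hy : y ∈ Ico Z (2 * Z)) (hk : kp x y ≠ 0) : hadj x y := by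
  have h1 := Finset.mem_Ico.1 hx
  have h2 := Finset.mem_Ico.1 hy
  have h3 := h.le
  have h4 : 1 ≤ Z := by
    have h5 := h.lo
    have h6 : (0 : ℝ) < (n : ℝ) ^ (1 - B) := Real.rpow_pos_of_pos (by exact_mod_cast hn) _
    have h7 : (0 : ℝ) < Z := lt_of_lt_of_le h6 h5
    have h8 : 0 < Z := by exact_mod_cast h7
    exact h8
  unfold kp at hk
  have k1 := left_ne_zero_of_mul hk
  have k2 := right_ne_zero_of_mul hk
  have e1 : ((x : ℤ) + y).toNat = x + y := by omega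
  have e2 : ((x : ℤ) - y).toNat = x - y := by omega
  have e3 : Nat.dist x y = x - y := Nat.dist_eq_sub_of_le_right (by omega)
  have p1 : (x + y).Prime := by
    by_contra hc
    apply k1
    unfold Pool.Agent.Lib.H68T.lp
    rw [e1, if_neg hc]
  have p2 : (x - y).Prime := by
    by_contra hc
    apply k2
    unfold Pool.Agent.Lib.H68T.lp
    rw [e2, if_neg hc]
  refine ⟨p1, p1.odd_of_ne_two (by omega), ?_, ?_⟩
  · rw [e3]
    exact p2
  · rw [e3]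
    exact p2.odd_of_ne_two (by omega)

/-- Proof. `(2 y - 3 : ℤ).toNat = 2 y - 3` (truncated subtraction). -/
theorem a1_lp3 (y : ℕ) (h : lp (2 * (y : ℤ) - 3) ≠ 0) : (2 * y - 3).Prime := by
  have e : (2 * (y : ℤ) - 3).toNat = 2 * y - 3 := by omega
  by_contra hc
  apply h
  unfold Pool.Agent.Lib.H68T.lp
  rw [e, if_neg hc]

/-- Proof. `2 y - 3 ≤ 4 Z ≤ 2 X ≤ 2 n`. -/
theorem a1_lp3_le {n M : ℕ} {B : ℝ} {X Z : ℕ} (hn : 1 ≤ n) (h : Sc n M B X Z) {y : ℕ}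
    (hy : y ∈ Ico Z (2 * Z)) : lp (2 * (y : ℤ) - 3) ≤ Real.log (8 * n) := by
  have h2 := Finset.mem_Ico.1 hy
  have h3 := h.le
  have h4 := h.hi
  exact a1_lp_le n hn _ (by omega)

/-- Proof. `n^(1-B) > 0`, so `Z ≠ 0`. -/
theorem a1_Z_pos {n M : ℕ} {B : ℝ} {X Z : ℕ} (hn : 1 ≤ n) (h : Sc n M B X Z) : 1 ≤ Z := by
  have h5 := h.lo
  have h6 : (0 : ℝ) < (n : ℝ) ^ (1 - B) := Real.rpow_pos_of_pos (by exact_mod_cast hn) _
  have h7 : (0 : ℝ) < Z := lt_of_lt_of_le h6 h5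
  have h8 : 0 < Z := by exact_mod_cast h7
  exact h8

end Pool.Agent.Lib.H96G
end

-- from Lib.H9S.O2
section
/-!
CHUNK O2 (M). Both halves. Let `c'`, `n0'` be the constants of `OPW` for `(Cr, C)`; `c = c'/4`. `n` large: `2 log (4n) + 2 n^(c'/4) ≤ n^c'` and
`2 n^(2-c') ≤ n^(2-c)`. On `[X, 4X]`: `|lp m| ≤ log (4n)` (`lp m = log m` or `0`, `1 ≤ m ≤ 4n`), `|Lk| ≤ n^c`, so `‖Ec‖ ≤ n^c'`.
Put `L = Lk Q (X/Q^2)`, `f₁ x = f x.toNat`, `g₁ y = if Z ≤ y ∧ y < 2Z then g y.toNat else 0`, `g₂ y = g₁ (-y)` (complex values).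
First half: `BF (Sx X) (Sy X) (Ec Q X) lc f₁ g₁ = ∑_x ∑_{y ∈ [Z,2Z)} f x g y (lp - L)(x+y) lp(x-y)` (`[Z, 2Z) ⊆ (-X, X)` since `2Z ≤ X`).
Second half: `BF (Sx X) (Sy X) (Ec Q X) (Lc Q (X/Q^2)) f₁ g₂ = ∑_x ∑_{y ∈ [Z,2Z)} f x g y (lp - L)(x-y) L(x+y)` (substitute `y ↦ -y`).
The sum of both is `∑∑ f x g y (lp(x+y) lp(x-y) - L(x+y) L(x-y))`, the form with `kp - km L` (definitions in H96G/Defs). Both halves are at most
`n^(2-c')` by `OPW`. Sums over `Ico (2X) (3X)` in `ℕ` and `Sx X` in `ℤ`: `Finset.sum_nbij'` with `Nat.cast` and `Int.toNat`.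
-/
namespace Pool.Agent.H9S
open Finset Pool.Agent.H44W
open Pool.Agent.Lib.H68T (lp Lk)
open Pool.Agent.Lib.H96G (kp km)

theorem o2_im (a b : ℕ) : (Ico a b).image (Nat.cast : ℕ → ℤ) = Ico (a:ℤ) (b:ℤ) := by
  ext z
  simp only [mem_image, mem_Ico]
  constructor
  · rintro ⟨m, ⟨h1, h2⟩, rfl⟩
    omega
  · rintro ⟨h1, h2⟩
    exact ⟨z.toNat, by omega, by omega⟩

theorem o2_x (X : ℕ) (φ : ℤ → ℂ) : ∑ x ∈ Sx X, φ x = ∑ x ∈ Ico (2 * X) (3 * X), φ (x : ℤ) := by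
  have h : Sx X = (Ico (2 * X) (3 * X)).image (Nat.cast : ℕ → ℤ) := by
    rw [o2_im, Sx]
    push_cast
    rfl
  rw [h, Finset.sum_image (fun a _ b _ hab => by exact_mod_cast hab)]

theorem o2_y1 (X Z : ℕ) (h : 2 * Z ≤ X) (G φ : ℤ → ℂ) :
    ∑ y ∈ Sy X, (if (Z:ℤ) ≤ y ∧ y < 2 * Z then G y else 0) * φ y = ∑ y ∈ Ico Z (2 * Z), G (y : ℤ) * φ (y : ℤ) := by
  have h1 : (Sy X).filter (fun y => (Z:ℤ) ≤ y ∧ y < 2 * Z) = (Ico Z (2 * Z)).image (Nat.cast : ℕ → ℤ) := by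
    rw [o2_im, Sy]
    ext y
    simp only [mem_filter, mem_Ioo, mem_Ico]
    push_cast
    omega
  rw [← Finset.sum_image (s := Ico Z (2 * Z)) (g := (Nat.cast : ℕ → ℤ)) (f := fun y : ℤ => G y * φ y)
    (fun a _ b _ hab => by exact_mod_cast hab), ← h1, Finset.sum_filter]
  refine Finset.sum_congr rfl fun y _ => ?_
  split_ifs
  · rfl
  · rw [zero_mul]

theorem o2_y2 (X Z : ℕ) (h : 2 * Z ≤ X) (G φ : ℤ → ℂ) :
    ∑ y ∈ Sy X, (if (Z:ℤ) ≤ -y ∧ -y < 2 * Z then G (-y) else 0) * φ y =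
      ∑ y ∈ Ico Z (2 * Z), G (y : ℤ) * φ (-(y : ℤ)) := by
  have h1 : ∑ y ∈ Sy X, (if (Z:ℤ) ≤ -y ∧ -y < 2 * Z then G (-y) else 0) * φ y =
      ∑ y ∈ Sy X, (if (Z:ℤ) ≤ y ∧ y < 2 * Z then G y else 0) * φ (-y) := by
    refine Finset.sum_nbij' (fun y => -y) (fun y => -y) ?_ ?_ ?_ ?_ ?_
    · intro y hy
      rw [Sy, mem_Ioo] at *
      omega
    · intro y hy
      rw [Sy, mem_Ioo] at *
      omega
    · intro y _
      exact neg_neg y
    · intro y _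
      exact neg_neg y
    · intro y _
      rw [neg_neg]
  rw [h1, o2_y1 X Z h G (fun y => φ (-y))]

theorem o2_alg (lx ly Lx Ly : ℝ) (a b : ℝ) :
    ((a : ℂ) * (b : ℂ) * ((lx : ℂ) - (Lx : ℂ)) * (ly : ℂ)) + ((a : ℂ) * (b : ℂ) * ((ly : ℂ) - (Ly : ℂ)) * (Lx : ℂ)) =
      ((a * b * (lx * ly - Lx * Ly) : ℝ) : ℂ) := by
  push_cast
  ring

theorem o2_split (Q X Z : ℕ) (h : 2 * Z ≤ X) (f g : ℕ → ℝ) :
    ((∑ x ∈ Ico (2 * X) (3 * X), ∑ y ∈ Ico Z (2 * Z), f x * g y * (kp x y - km (Lk Q (X / Q ^ 2)) x y) : ℝ) : ℂ) =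
      BF (Sx X) (Sy X) (Ec Q X) lc (fun x => ((f x.toNat : ℝ) : ℂ))
        (fun y => if (Z:ℤ) ≤ y ∧ y < 2 * Z then ((g y.toNat : ℝ) : ℂ) else 0) +
      BF (Sx X) (Sy X) (Ec Q X) (Lc Q (X / Q ^ 2)) (fun x => ((f x.toNat : ℝ) : ℂ))
        (fun y => if (Z:ℤ) ≤ -y ∧ -y < 2 * Z then ((g (-y).toNat : ℝ) : ℂ) else 0) := by
  have e1 : BF (Sx X) (Sy X) (Ec Q X) lc (fun x => ((f x.toNat : ℝ) : ℂ))
        (fun y => if (Z:ℤ) ≤ y ∧ y < 2 * Z then ((g y.toNat : ℝ) : ℂ) else 0) =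
      ∑ x ∈ Ico (2 * X) (3 * X), ∑ y ∈ Ico Z (2 * Z), (f x : ℂ) * (g y : ℂ) *
        (lc ((x:ℤ) + y) - Lc Q (X / Q ^ 2) ((x:ℤ) + y)) * lc ((x:ℤ) - y) := by
    rw [BF, o2_x]
    refine Finset.sum_congr rfl fun x _ => ?_
    rw [Int.toNat_natCast]
    have h1 : ∀ y ∈ Sy X, (f x : ℂ) * (if (Z:ℤ) ≤ y ∧ y < 2 * Z then ((g y.toNat : ℝ) : ℂ) else 0) * Ec Q X ((x:ℤ) + y) *
        lc ((x:ℤ) - y) = (if (Z:ℤ) ≤ y ∧ y < 2 * Z then ((fun y : ℤ => ((g y.toNat : ℝ) : ℂ)) y) else 0) *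
          ((fun y : ℤ => (f x : ℂ) * Ec Q X ((x:ℤ) + y) * lc ((x:ℤ) - y)) y) := by
      intro y _
      ring
    rw [Finset.sum_congr rfl h1, o2_y1 X Z h (fun y : ℤ => ((g y.toNat : ℝ) : ℂ))]
    refine Finset.sum_congr rfl fun y _ => ?_
    rw [Int.toNat_natCast, Ec]
    ring
  have e2 : BF (Sx X) (Sy X) (Ec Q X) (Lc Q (X / Q ^ 2)) (fun x => ((f x.toNat : ℝ) : ℂ))
        (fun y => if (Z:ℤ) ≤ -y ∧ -y < 2 * Z then ((g (-y).toNat : ℝ) : ℂ) else 0) =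
      ∑ x ∈ Ico (2 * X) (3 * X), ∑ y ∈ Ico Z (2 * Z), (f x : ℂ) * (g y : ℂ) *
        (lc ((x:ℤ) - y) - Lc Q (X / Q ^ 2) ((x:ℤ) - y)) * Lc Q (X / Q ^ 2) ((x:ℤ) + y) := by
    rw [BF, o2_x]
    refine Finset.sum_congr rfl fun x _ => ?_
    rw [Int.toNat_natCast]
    have h1 : ∀ y ∈ Sy X, (f x : ℂ) * (if (Z:ℤ) ≤ -y ∧ -y < 2 * Z then ((g (-y).toNat : ℝ) : ℂ) else 0) *
        Ec Q X ((x:ℤ) + y) * Lc Q (X / Q ^ 2) ((x:ℤ) - y) =
          (if (Z:ℤ) ≤ -y ∧ -y < 2 * Z then ((fun y : ℤ => ((g y.toNat : ℝ) : ℂ)) (-y)) else 0) *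
          ((fun y : ℤ => (f x : ℂ) * Ec Q X ((x:ℤ) + y) * Lc Q (X / Q ^ 2) ((x:ℤ) - y)) y) := by
      intro y _
      ring
    rw [Finset.sum_congr rfl h1, o2_y2 X Z h (fun y : ℤ => ((g y.toNat : ℝ) : ℂ))]
    refine Finset.sum_congr rfl fun y _ => ?_
    simp only [Int.toNat_natCast, Ec, sub_neg_eq_add, ← sub_eq_add_neg]
    ring
  rw [e1, e2, ← Finset.sum_add_distrib, Complex.ofReal_sum]
  refine Finset.sum_congr rfl fun x _ => ?_
  rw [← Finset.sum_add_distrib, Complex.ofReal_sum]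
  refine Finset.sum_congr rfl fun y _ => ?_
  rw [kp, km]
  exact (o2_alg _ _ _ _ _ _).symm

theorem O2_two (h : OPW) : ∀ Cr C : ℝ, 1 ≤ Cr → 0 < C → ∃ c : ℝ, 0 < c ∧ ∃ n0 : ℕ, ∀ n : ℕ, n0 ≤ n →
    ∀ Q X Z : ℕ, 2 ≤ Q → Real.log n ≤ Cr * Real.log Q → 1 ≤ Z → 2 * Z ≤ X → X ≤ n → LKd C Q X →
    (∀ th : ℝ, ∀ u v : ℤ, (X:ℤ) ≤ u → v ≤ 4 * X →
      ‖∑ m ∈ Ico u v, Ec Q X m * ee (th * m)‖ ≤ X * (Q:ℝ) ^ (-(1 / 4) : ℝ)) →
    (∀ m : ℤ, (X:ℤ) ≤ m → m ≤ 4 * X → |Lk Q (X / Q ^ 2) m| ≤ (n:ℝ) ^ c) →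
    ∀ f g : ℕ → ℝ, (∀ x, |f x| ≤ 1) → (∀ y, |g y| ≤ 1) →
    |∑ x ∈ Ico (2 * X) (3 * X), ∑ y ∈ Ico Z (2 * Z), f x * g y * (kp x y - km (Lk Q (X / Q ^ 2)) x y)| ≤
      (n:ℝ) ^ (2 - c) := by
  intro Cr C hCr hC
  obtain ⟨c', hc', n0', hO⟩ := h Cr C hCr hC
  have ht1 : ∀ᶠ n : ℕ in Filter.atTop, (8:ℝ) * (4 / c') ≤ (n:ℝ) ^ (c' / 4) :=
    ((tendsto_rpow_atTop (by positivity : 0 < c' / 4)).comp tendsto_natCast_atTop_atTop).eventually_ge_atTop _
  have ht2 : ∀ᶠ n : ℕ in Filter.atTop, (8:ℝ) ≤ (n:ℝ) ^ (c' / 4) :=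
    ((tendsto_rpow_atTop (by positivity : 0 < c' / 4)).comp tendsto_natCast_atTop_atTop).eventually_ge_atTop _
  obtain ⟨n1, hn1⟩ := Filter.eventually_atTop.1 (ht1.and ht2)
  refine ⟨c' / 4, by positivity, max (max n0' n1) 4, fun n hn Q X Z hQ hlog hZ hZX hXn hLK hF hL f g hf hg => ?_⟩
  have hn0 : n0' ≤ n := by omega
  have hn4 : 4 ≤ n := by omega
  obtain ⟨hp1, hp2⟩ := hn1 n (by omega)
  have hnp : (0:ℝ) < n := by
    have : 0 < n := by omega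
    exact_mod_cast this
  have hn1' : (1:ℝ) ≤ n := by
    have : 1 ≤ n := by omega
    exact_mod_cast this
  have hX1 : 1 ≤ X := by omega
  set P : ℝ := (n:ℝ) ^ (c' / 4) with hP
  have hP0 : 0 < P := by rw [hP]; positivity
  have hPc : (n:ℝ) ^ c' = P ^ 4 := by
    rw [hP, ← Real.rpow_natCast, ← Real.rpow_mul hnp.le]
    congr 1
    push_cast
    ring
  -- the logarithm
  have hlog4 : Real.log (4 * n) ≤ P ^ 2 / 4 := by
    have h1 : Real.log (4 * n) ≤ 2 * Real.log n := by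
      have h2 : Real.log (4 * (n:ℝ)) = Real.log 4 + Real.log n := Real.log_mul (by norm_num) hnp.ne'
      have h3 : Real.log 4 ≤ Real.log n := Real.log_le_log (by norm_num) (by exact_mod_cast hn4)
      linarith
    have h2 : Real.log n ≤ (n:ℝ) ^ (c' / 4) / (c' / 4) := Real.log_le_rpow_div hnp.le (by positivity)
    have h3 : (n:ℝ) ^ (c' / 4) / (c' / 4) = P * (4 / c') := by
      rw [← hP]
      field_simp
    rw [h3] at h2
    have h4 : P * (4 / c') ≤ P * (P / 8) := by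
      refine mul_le_mul_of_nonneg_left ?_ hP0.le
      linarith
    nlinarith
  have hlpb : ∀ m : ℤ, m ≤ 4 * X → ‖lc m‖ ≤ P ^ 2 / 4 := by
    intro m hm
    rw [lc, Complex.norm_real, Real.norm_eq_abs, Pool.Agent.Lib.H68T.lp]
    split_ifs with hpr
    · have hm1 : (1:ℤ) ≤ m := by
        have := hpr.pos
        omega
      have hm1' : (1:ℝ) ≤ (m:ℝ) := by exact_mod_cast hm1
      rw [abs_of_nonneg (Real.log_nonneg hm1')]
      refine le_trans (Real.log_le_log (by linarith) ?_) hlog4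
      have h5 : (m:ℝ) ≤ 4 * (X:ℝ) := by exact_mod_cast hm
      have h6 : (X:ℝ) ≤ n := by exact_mod_cast hXn
      linarith
    · rw [abs_zero]
      positivity
  have hLb : ∀ m : ℤ, (X:ℤ) ≤ m → m ≤ 4 * X → ‖Lc Q (X / Q ^ 2) m‖ ≤ P := by
    intro m h1 h2
    rw [Lc, Complex.norm_real, Real.norm_eq_abs]
    exact hL m h1 h2
  have hP24 : P ^ 2 ≤ P ^ 4 := pow_le_pow_right₀ (by linarith) (by norm_num)
  have hP4 : P ^ 2 / 4 ≤ P ^ 4 := by
    have := sq_nonneg P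
    linarith
  have hPP4 : P ≤ P ^ 4 := by
    have h1 : P ^ 1 ≤ P ^ 4 := pow_le_pow_right₀ (by linarith) (by norm_num)
    rwa [pow_one] at h1
  have hE : ∀ m : ℤ, (X:ℤ) ≤ m → m ≤ 4 * X → ‖Ec Q X m‖ ≤ (n:ℝ) ^ c' := by
    intro m h1 h2
    rw [hPc, Ec]
    refine (norm_sub_le _ _).trans ?_
    have a1 := hlpb m h2
    have a2 := hLb m h1 h2
    have a3 : P ≤ P ^ 2 / 8 := by nlinarith
    linarith
  have hf1 : Bd (fun x : ℤ => ((f x.toNat : ℝ) : ℂ)) := by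
    intro x
    show ‖((f x.toNat : ℝ) : ℂ)‖ ≤ 1
    rw [Complex.norm_real, Real.norm_eq_abs]
    exact hf _
  have hg1 : Bd (fun y : ℤ => if (Z:ℤ) ≤ y ∧ y < 2 * Z then ((g y.toNat : ℝ) : ℂ) else 0) := by
    intro y
    show ‖(if (Z:ℤ) ≤ y ∧ y < 2 * Z then ((g y.toNat : ℝ) : ℂ) else 0)‖ ≤ 1
    split_ifs
    · rw [Complex.norm_real, Real.norm_eq_abs]
      exact hg _
    · rw [norm_zero]
      exact zero_le_one
  have hg2 : Bd (fun y : ℤ => if (Z:ℤ) ≤ -y ∧ -y < 2 * Z then ((g (-y).toNat : ℝ) : ℂ) else 0) := by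
    intro y
    show ‖(if (Z:ℤ) ≤ -y ∧ -y < 2 * Z then ((g (-y).toNat : ℝ) : ℂ) else 0)‖ ≤ 1
    split_ifs
    · rw [Complex.norm_real, Real.norm_eq_abs]
      exact hg _
    · rw [norm_zero]
      exact zero_le_one
  have r1 := hO n hn0 Q X hQ hlog hX1 hXn hLK hF hE lc _ _
    (fun v _ hv => (hlpb v hv.le).trans (by rw [hPc]; exact hP4)) hf1 hg1
  have r2 := hO n hn0 Q X hQ hlog hX1 hXn hLK hF hE (Lc Q (X / Q ^ 2)) _ _
    (fun v hv1 hv => (hLb v hv1.le hv.le).trans (by rw [hPc]; exact hPP4)) hf1 hg2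
  have r3 := o2_split Q X Z hZX f g
  have r4 : |∑ x ∈ Ico (2 * X) (3 * X), ∑ y ∈ Ico Z (2 * Z), f x * g y * (kp x y - km (Lk Q (X / Q ^ 2)) x y)| ≤
      (n:ℝ) ^ (2 - c') + (n:ℝ) ^ (2 - c') := by
    rw [← Real.norm_eq_abs, ← Complex.norm_real, r3]
    exact (norm_add_le _ _).trans (add_le_add r1 r2)
  refine r4.trans ?_
  have r5 : (n:ℝ) ^ (2 - c' / 4) = (n:ℝ) ^ (2 - c') * P ^ 3 := by
    rw [hP, ← Real.rpow_natCast, ← Real.rpow_mul hnp.le, ← Real.rpow_add hnp]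
    congr 1
    push_cast
    ring
  rw [r5]
  have r6 : 0 ≤ (n:ℝ) ^ (2 - c') := Real.rpow_nonneg hnp.le _
  have r7 : (2:ℝ) ≤ P ^ 3 := by
    have : (8:ℝ) ^ 3 ≤ P ^ 3 := pow_le_pow_left₀ (by norm_num) hp2 3
    linarith
  nlinarith

end Pool.Agent.H9S
end

-- from Lib.H96G.A2
section

/-!
# Project H96G, chunk A2 (M): mixed correlations are large for most pairs
-/

open Finset

namespace Pool.Agent.Lib.H96G

open Classical in
/-- **A2.** Proof. For `x' ∈ [2X', 3X')` put `g y = km (L X') x' y`, `|g| ≤ n^(2b)` (`a1_km_abs` for `X'`). A pair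
`(x, x')` of the same type with `dx (L X') Z x x' < Z n^(-b)/2` satisfies either the inequality of the field `m4` (at
most `n^(2-c)` pairs) or `Z n^(-b)/2 < |∑_y g y (kp x y - km (L X) x y)|` (the sum over `y` of `km (L X) x y * g y`
is then `≥ Z n^(-b)`; `dx` is the sum of `kp x y * g y`). By `A0_dual` with `t = Z n^(-b)/2` (`> 0`), `G = n^(2b)`:
at most `2 n^(2b) n^(2-c) n^b / Z ≤ 2 n^(1-c+3b+B)` such `x` for each `x'` (`Z ≥ n^(1-B)`). There are `X' ≤ n` values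
of `x'` (count the pairs fibrewise over the second coordinate). Total at most
`n^(2-c) + 2 n^(2-c+3b+B) ≤ n^(2-c+2B)` (`Nm.cst`, `100 b ≤ B`). -/
theorem A2 {n M : ℕ} {L : ℕ → ℤ → ℝ} {c B b : ℝ} (hN : Nm n b) (h : GIn n M L c B b)
    {X X' Z : ℕ} (hs : Sc n M B X Z) (hs' : Sc n M B X' Z) :
    (((Ico (2 * X) (3 * X) ×ˢ Ico (2 * X') (3 * X')).filter fun p => ST p.1 p.2 ∧
      dx (L X') Z p.1 p.2 < Z * (n : ℝ) ^ (-b) / 2).card : ℝ) ≤ (n : ℝ) ^ (2 - c + 2 * B) := by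
  have hn := hN.n_pos
  have hZ := a1_Z_pos hn hs
  have hZ' : (0 : ℝ) < Z := by exact_mod_cast hZ
  have hb0 := h.b_pos
  have hbB := h.hb
  obtain ⟨t, ht⟩ : ∃ t : ℝ, t = Z * (n : ℝ) ^ (-b) / 2 := ⟨_, rfl⟩
  have ht0 : 0 < t := by
    rw [ht]
    have := hN.ppos (-b)
    positivity
  have htl : (n : ℝ) ^ (1 - B - b) / 2 ≤ t := by
    have h1 := mul_le_mul_of_nonneg_right hs.lo (hN.ppos (-b)).le
    rw [hN.mul, ← sub_eq_add_neg] at h1
    rw [ht]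
    linarith
  have hfib : ∀ x' ∈ Ico (2 * X') (3 * X'), (((Ico (2 * X) (3 * X)).filter fun x =>
      t < |∑ y ∈ Ico Z (2 * Z), km (L X') x' y * (kp x y - km (L X) x y)|).card : ℝ) ≤
        2 * (n : ℝ) ^ (1 - c + 3 * b + B) := by
    intro x' hx'
    have h1 := A0_dual h hs (fun y => km (L X') x' y) ((n : ℝ) ^ (2 * b)) t (hN.ppos _) ht0.le
      (fun y hy => a1_km_abs hN h hs' hx' hy)
    rw [hN.mul] at h1
    have h2 := (mul_le_mul_of_nonneg_right htl (Nat.cast_nonneg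
      ((Ico (2 * X) (3 * X)).filter fun x =>
        t < |∑ y ∈ Ico Z (2 * Z), km (L X') x' y * (kp x y - km (L X) x y)|).card)).trans h1
    have h3 : (n : ℝ) ^ (2 * b + (2 - c)) = (n : ℝ) ^ (1 - B - b) * (n : ℝ) ^ (1 - c + 3 * b + B) := by
      rw [hN.mul]
      congr 1
      ring
    rw [h3] at h2
    refine le_of_mul_le_mul_left (a := (n : ℝ) ^ (1 - B - b)) ?_ (hN.ppos _)
    linarith
  have hT : ((Ico (2 * X) (3 * X) ×ˢ Ico (2 * X') (3 * X')).filter fun p => ST p.1 p.2 ∧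
      dx (L X') Z p.1 p.2 < Z * (n : ℝ) ^ (-b) / 2) ⊆
      ((Ico (2 * X) (3 * X) ×ˢ Ico (2 * X') (3 * X')).filter fun p => ST p.1 p.2 ∧
        ∑ y ∈ Ico Z (2 * Z), km (L X) p.1 y * km (L X') p.2 y < Z * (n : ℝ) ^ (-b)) ∪
      ((Ico (2 * X) (3 * X) ×ˢ Ico (2 * X') (3 * X')).filter fun p =>
        t < |∑ y ∈ Ico Z (2 * Z), km (L X') p.2 y * (kp p.1 y - km (L X) p.1 y)|) := by
    intro p hp
    rw [mem_filter] at hp
    obtain ⟨hp1, hp2, hp3⟩ := hp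
    rw [mem_union, mem_filter, mem_filter]
    by_cases h5 : ∑ y ∈ Ico Z (2 * Z), km (L X) p.1 y * km (L X') p.2 y < Z * (n : ℝ) ^ (-b)
    · exact Or.inl ⟨hp1, hp2, h5⟩
    · refine Or.inr ⟨hp1, ?_⟩
      have h6 : ∑ y ∈ Ico Z (2 * Z), km (L X') p.2 y * (kp p.1 y - km (L X) p.1 y) =
          dx (L X') Z p.1 p.2 - ∑ y ∈ Ico Z (2 * Z), km (L X) p.1 y * km (L X') p.2 y := by
        unfold dx
        rw [← sum_sub_distrib]
        exact sum_congr rfl (fun y _ => by ring)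
      rw [h6, lt_abs]
      right
      rw [not_lt] at h5
      linarith
  have h2c : (((Ico (2 * X) (3 * X) ×ˢ Ico (2 * X') (3 * X')).filter fun p =>
        t < |∑ y ∈ Ico Z (2 * Z), km (L X') p.2 y * (kp p.1 y - km (L X) p.1 y)|).card : ℝ) ≤
      2 * (n : ℝ) ^ (2 - c + 3 * b + B) := by
    rw [card_filter, sum_product_right, Nat.cast_sum]
    have h7 : ∀ x' ∈ Ico (2 * X') (3 * X'), ((∑ x ∈ Ico (2 * X) (3 * X),
        if t < |∑ y ∈ Ico Z (2 * Z), km (L X') x' y * (kp x y - km (L X) x y)| then 1 else 0 : ℕ) : ℝ) ≤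
          2 * (n : ℝ) ^ (1 - c + 3 * b + B) := by
      intro x' hx'
      rw [← card_filter]
      exact hfib x' hx'
    refine (sum_le_sum h7).trans ?_
    rw [sum_const, nsmul_eq_mul, Nat.card_Ico]
    have h8 : ((3 * X' - 2 * X' : ℕ) : ℝ) ≤ n := by
      have := hs'.hi
      have h9 : 3 * X' - 2 * X' ≤ n := by omega
      exact_mod_cast h9
    have h10 : (n : ℝ) ^ (2 - c + 3 * b + B) = n * (n : ℝ) ^ (1 - c + 3 * b + B) := by
      have h11 := hN.mul 1 (1 - c + 3 * b + B)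
      rw [Real.rpow_one] at h11
      rw [h11]
      congr 1
      ring
    rw [h10]
    have h12 := hN.ppos (1 - c + 3 * b + B)
    have h13 := mul_le_mul_of_nonneg_right h8 (show 0 ≤ 2 * (n : ℝ) ^ (1 - c + 3 * b + B) by linarith)
    linarith
  have h1c := h.m4 X X' Z hs hs'
  have h3c : (((Ico (2 * X) (3 * X) ×ˢ Ico (2 * X') (3 * X')).filter fun p => ST p.1 p.2 ∧
      dx (L X') Z p.1 p.2 < Z * (n : ℝ) ^ (-b) / 2).card : ℝ) ≤
      (n : ℝ) ^ (2 - c) + 2 * (n : ℝ) ^ (2 - c + 3 * b + B) := by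
    refine le_trans ?_ (add_le_add h1c h2c)
    exact_mod_cast (card_le_card hT).trans (card_union_le _ _)
  have h4c : (n : ℝ) ^ (2 - c) ≤ (n : ℝ) ^ (2 - c + 3 * b + B) := hN.mono (by linarith)
  have h5c : 3 * (n : ℝ) ^ (2 - c + 3 * b + B) ≤ (n : ℝ) ^ (2 - c + 2 * B) :=
    hN.cst (by norm_num) (by linarith)
  linarith

end Pool.Agent.Lib.H96G
end

-- from Lib.H96G.A3
section

/-!
# Project H96G, chunk A3 (S/M): Markov's inequality
-/

open Finset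

namespace Pool.Agent.Lib.H96G

open Classical in
/-- **A3.** Proof. The number of pairs in `A2` is `∑_{x ∈ [2X,3X)} (bad n L b X' Z x).card` (`card_filter_product`,
or `Finset.card_sigma`), so the number of `x` with more than `n^(1-c/2)` bad `x'` times `n^(1-c/2)` is at most
`n^(2-c+2B)`. -/
theorem A3 {n M : ℕ} {L : ℕ → ℤ → ℝ} {c B b : ℝ} (hN : Nm n b) (h : GIn n M L c B b)
    {X X' Z : ℕ} (hs : Sc n M B X Z) (hs' : Sc n M B X' Z) :
    (((Ico (2 * X) (3 * X)).filter fun x =>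
      ¬ ((bad n L b X' Z x).card : ℝ) ≤ (n : ℝ) ^ (1 - c / 2)).card : ℝ) ≤
      (n : ℝ) ^ (1 - c / 2 + 2 * B) := by
  classical
  have h1 := A2 hN h hs hs'
  set A : Finset ℕ := Ico (2 * X) (3 * X) with hA
  set W : Finset ℕ := A.filter fun x => ¬ ((bad n L b X' Z x).card : ℝ) ≤ (n : ℝ) ^ (1 - c / 2) with hW
  have h2 : (((A ×ˢ Ico (2 * X') (3 * X')).filter fun p => ST p.1 p.2 ∧
      dx (L X') Z p.1 p.2 < Z * (n : ℝ) ^ (-b) / 2).card : ℝ) = ∑ x ∈ A, ((bad n L b X' Z x).card : ℝ) := by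
    rw [Finset.card_filter, Finset.sum_product]
    push_cast
    refine Finset.sum_congr rfl fun x _ => ?_
    rw [bad, Finset.card_filter]
    push_cast
    rfl
  rw [h2] at h1
  have h3 : (W.card : ℝ) * (n : ℝ) ^ (1 - c / 2) ≤ ∑ x ∈ A, ((bad n L b X' Z x).card : ℝ) := by
    calc (W.card : ℝ) * (n : ℝ) ^ (1 - c / 2) = ∑ _x ∈ W, (n : ℝ) ^ (1 - c / 2) := by
          rw [Finset.sum_const, nsmul_eq_mul]
      _ ≤ ∑ x ∈ W, ((bad n L b X' Z x).card : ℝ) :=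
          Finset.sum_le_sum fun x hx => (not_le.1 (Finset.mem_filter.1 hx).2).le
      _ ≤ ∑ x ∈ A, ((bad n L b X' Z x).card : ℝ) :=
          Finset.sum_le_sum_of_subset_of_nonneg (Finset.filter_subset _ _) fun _ _ _ => Nat.cast_nonneg _
  have h4 : (n : ℝ) ^ (2 - c + 2 * B) = (n : ℝ) ^ (1 - c / 2 + 2 * B) * (n : ℝ) ^ (1 - c / 2) := by
    rw [hN.mul]
    congr 1
    ring
  rw [h4] at h1
  exact le_of_mul_le_mul_right (h3.trans h1) (hN.ppos _)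

end Pool.Agent.Lib.H96G
end

-- from Lib.H96G.A5
section

/-!
# Project H96G, chunk A5 (M): good vertices are at distance two from most vertices of their type
-/

open Finset

namespace Pool.Agent.Lib.H96G

open Pool.Agent.Lib.GoldbachGraph (hadj)

theorem a5_mem_far {Z x : ℕ} {I : Finset ℕ} {x' : ℕ} : x' ∈ far Z x I ↔
    x' ∈ I ∧ ST x x' ∧ ¬ ∃ y ∈ Ico Z (2 * Z), hadj x y ∧ hadj x' y := by
  unfold far
  simp only [Finset.mem_filter]

open Classical in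
/-- **A5.** Proof. `W = far Z x (Ico (2X') (3X'))`, `l = log (8n)`. For `x' ∈ W` and `y ∈ [Z, 2Z)` one of `kp x y`,
`kp x' y` is zero (`a1_kp_hadj` for `X` and `X'`). Apply `A0_scale` at the scale `X'` with `f = 1_W` (`F = 1`),
`g y = kp x y` (`G = l^2`, `a1_kp_le`, `a1_kp_nonneg`): as `kp x y * kp x' y = 0`,
`|∑_{x' ∈ W} dx (L X') Z x x'| ≤ l^2 n^(2-c)`. For `x' ∈ W` not in `bad`: `dx ≥ Z n^(-b)/2` (elements of `W` have the
type of `x`); for the others (at most `n^(1-c/2)` many) `dx ≥ - Z l^2 n^(2b)`. So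
`(|W| - n^(1-c/2)) Z n^(-b)/2 ≤ l^2 n^(2-c) + n^(1-c/2) Z l^2 n^(2b)`, and dividing by `Z n^(-b)/2`, `Z ≥ n^(1-B)`:
`|W| ≤ n^(1-c/2) + 2 l^2 n^(1-c+b+B) + 2 l^2 n^(1-c/2+3b) ≤ n^(1-c/2+2B)` (`Nm.lg`; `c ≥ 100 B`, `B ≥ 100 b`). -/
theorem A5 {n M : ℕ} {L : ℕ → ℤ → ℝ} {c B b : ℝ} (hN : Nm n b) (h : GIn n M L c B b)
    {X X' Z : ℕ} (hs : Sc n M B X Z) (hs' : Sc n M B X' Z) {x : ℕ}
    (hx : x ∈ Ico (2 * X) (3 * X)) (hb : ((bad n L b X' Z x).card : ℝ) ≤ (n : ℝ) ^ (1 - c / 2)) :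
    ((far Z x (Ico (2 * X') (3 * X'))).card : ℝ) ≤ (n : ℝ) ^ (1 - c / 2 + 2 * B) := by
  have hb0 := h.b_pos
  have hbB := h.hb
  have hBc := h.hB
  have hn1 : 1 ≤ n := hN.n_pos
  set l := Real.log (8 * n) with hl
  have hl1 : 1 ≤ l := hN.ell
  set W := far Z x (Ico (2 * X') (3 * X')) with hW
  set Bd := bad n L b X' Z x with hBd
  have hWsub : W ⊆ Ico (2 * X') (3 * X') := fun x' hx' => (a5_mem_far.1 hx').1
  have hZ1 : 1 ≤ Z := a1_Z_pos hn1 hs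
  have hZ0 : (0 : ℝ) < Z := by exact_mod_cast hZ1
  -- the products of the kernels vanish on `W`
  have hzero : ∀ x' ∈ W, ∀ y ∈ Ico Z (2 * Z), kp x y * kp x' y = 0 := by
    intro x' hx' y hy
    by_contra hne
    have hx' := a5_mem_far.1 hx'
    exact hx'.2.2 ⟨y, hy, a1_kp_hadj hn1 hs hx hy (left_ne_zero_of_mul hne),
      a1_kp_hadj hn1 hs' hx'.1 hy (right_ne_zero_of_mul hne)⟩
  have hA := A0_scale h hs' (fun x' => if x' ∈ W then (1 : ℝ) else 0) (fun y => kp x y) 1 (l ^ 2)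
    one_pos (by positivity) (by
      intro x' _
      split_ifs <;> simp) (by
      intro y hy
      rw [abs_of_nonneg (a1_kp_nonneg x y)]
      exact a1_kp_le hn1 hs hx hy)
  have hsum : (∑ x' ∈ Ico (2 * X') (3 * X'), ∑ y ∈ Ico Z (2 * Z),
      (if x' ∈ W then (1 : ℝ) else 0) * kp x y * (kp x' y - km (L X') x' y)) =
      -∑ x' ∈ W, dx (L X') Z x x' := by
    rw [← sum_neg_distrib, ← sum_subset hWsub]
    · refine sum_congr rfl fun x' hx' => ?_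
      rw [dx, ← sum_neg_distrib]
      refine sum_congr rfl fun y hy => ?_
      rw [if_pos hx', one_mul, mul_sub, hzero x' hx' y hy, zero_sub]
    · intro x' _ hx'
      refine sum_eq_zero fun y _ => ?_
      rw [if_neg hx', zero_mul, zero_mul]
  have hA' : ∑ x' ∈ W, dx (L X') Z x x' ≤ l ^ 2 * (n : ℝ) ^ (2 - c) := by
    have h1 : |∑ x' ∈ Ico (2 * X') (3 * X'), ∑ y ∈ Ico Z (2 * Z),
      (if x' ∈ W then (1 : ℝ) else 0) * kp x y * (kp x' y - km (L X') x' y)| ≤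
        1 * l ^ 2 * (n : ℝ) ^ (2 - c) := hA
    rw [hsum, abs_neg, one_mul] at h1
    exact (le_abs_self _).trans h1
  -- lower bounds
  set t : ℝ := Z * (n : ℝ) ^ (-b) / 2 with ht
  have ht0 : 0 < t := by
    rw [ht]
    have := hN.ppos (-b)
    positivity
  set u : ℝ := Z * (l ^ 2 * (n : ℝ) ^ (2 * b)) with hu
  have hu0 : 0 ≤ u := by
    have := hN.ppos (2 * b)
    positivity
  have hgood : ∀ x' ∈ W \ Bd, t ≤ dx (L X') Z x x' := by
    intro x' hx'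
    rw [mem_sdiff] at hx'
    by_contra hlt
    apply hx'.2
    rw [hBd, bad, mem_filter]
    refine ⟨hWsub hx'.1, ?_, not_le.1 hlt⟩
    exact (a5_mem_far.1 hx'.1).2.1
  have hall : ∀ x' ∈ W, -u ≤ dx (L X') Z x x' := by
    intro x' hx'
    have h1 : |dx (L X') Z x x'| ≤ u := by
      rw [dx]
      refine (abs_sum_le_sum_abs _ _).trans ?_
      have h2 : ∀ y ∈ Ico Z (2 * Z), |kp x y * km (L X') x' y| ≤ l ^ 2 * (n : ℝ) ^ (2 * b) := by
        intro y hy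
        rw [abs_mul, abs_of_nonneg (a1_kp_nonneg x y)]
        exact mul_le_mul (a1_kp_le hn1 hs hx hy) (a1_km_abs hN h hs' (hWsub hx') hy) (abs_nonneg _)
          (by positivity)
      refine (sum_le_card_nsmul _ _ _ h2).trans ?_
      rw [Nat.card_Ico, nsmul_eq_mul, hu]
      have h3 : 2 * Z - Z = Z := by omega
      rw [h3]
    exact (neg_le_neg h1).trans (neg_abs_le _)
  have hsplit : ∑ x' ∈ W, dx (L X') Z x x' =
      ∑ x' ∈ W \ Bd, dx (L X') Z x x' + ∑ x' ∈ W ∩ Bd, dx (L X') Z x x' := by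
    rw [add_comm, sum_inter_add_sum_sdiff]
  have h1 : (W \ Bd).card • t ≤ ∑ x' ∈ W \ Bd, dx (L X') Z x x' :=
    card_nsmul_le_sum _ _ _ hgood
  have h2 : (W ∩ Bd).card • (-u) ≤ ∑ x' ∈ W ∩ Bd, dx (L X') Z x x' :=
    card_nsmul_le_sum _ _ _ fun x' hx' => hall x' (mem_inter.1 hx').1
  rw [nsmul_eq_mul] at h1 h2
  have h3 : ((W ∩ Bd).card : ℝ) ≤ Bd.card := by
    exact_mod_cast card_le_card inter_subset_right
  have h4 : (W.card : ℝ) = (W \ Bd).card + (W ∩ Bd).card := by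
    have := card_sdiff_add_card_inter W Bd
    exact_mod_cast this.symm
  -- `|W| t ≤ l^2 n^(2-c) + |Bd| (u + t)`
  have h5 : (W.card : ℝ) * t ≤ l ^ 2 * (n : ℝ) ^ (2 - c) + (n : ℝ) ^ (1 - c / 2) * (u + t) := by
    have h6 : ((W ∩ Bd).card : ℝ) * (u + t) ≤ (n : ℝ) ^ (1 - c / 2) * (u + t) :=
      mul_le_mul_of_nonneg_right (h3.trans hb) (by linarith)
    rw [h4]
    nlinarith [hA', hsplit, h1, h2]
  -- division by `t`
  have hnb : (n : ℝ) ^ (-b) * (n : ℝ) ^ b = 1 := by rw [hN.mul]; simp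
  have ht2 : t * (2 * (n : ℝ) ^ b) = Z := by
    rw [ht]
    calc (Z : ℝ) * (n : ℝ) ^ (-b) / 2 * (2 * (n : ℝ) ^ b) = Z * ((n : ℝ) ^ (-b) * (n : ℝ) ^ b) := by ring
      _ = Z := by rw [hnb, mul_one]
  have e1 : l ^ 2 * (n : ℝ) ^ (2 - c) ≤ t * (2 * l ^ 2 * (n : ℝ) ^ (1 - c + b + B)) := by
    have h7 : (n : ℝ) ^ (2 - c) = (n : ℝ) ^ (1 - B) * (n : ℝ) ^ (1 - c + B) := by
      rw [hN.mul]; congr 1; ring
    have h8 : (n : ℝ) ^ (1 - c + b + B) = (n : ℝ) ^ b * (n : ℝ) ^ (1 - c + B) := by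
      rw [hN.mul]; congr 1; ring
    have h9 := hN.ppos (1 - c + B)
    calc l ^ 2 * (n : ℝ) ^ (2 - c) = (n : ℝ) ^ (1 - B) * (l ^ 2 * (n : ℝ) ^ (1 - c + B)) := by rw [h7]; ring
      _ ≤ Z * (l ^ 2 * (n : ℝ) ^ (1 - c + B)) := mul_le_mul_of_nonneg_right hs.lo (by positivity)
      _ = t * (2 * (n : ℝ) ^ b) * (l ^ 2 * (n : ℝ) ^ (1 - c + B)) := by rw [ht2]
      _ = t * (2 * l ^ 2 * (n : ℝ) ^ (1 - c + b + B)) := by rw [h8]; ring
  have e2 : (n : ℝ) ^ (1 - c / 2) * u = t * (2 * l ^ 2 * (n : ℝ) ^ (1 - c / 2 + 3 * b)) := by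
    have h8 : (n : ℝ) ^ (1 - c / 2 + 3 * b) = (n : ℝ) ^ (1 - c / 2) * (n : ℝ) ^ (2 * b) * (n : ℝ) ^ b := by
      rw [hN.mul, hN.mul]; congr 1; ring
    rw [hu, h8]
    calc (n : ℝ) ^ (1 - c / 2) * (Z * (l ^ 2 * (n : ℝ) ^ (2 * b)))
        = (n : ℝ) ^ (1 - c / 2) * ((t * (2 * (n : ℝ) ^ b)) * (l ^ 2 * (n : ℝ) ^ (2 * b))) := by rw [ht2]
      _ = _ := by ring
  have h10 : (W.card : ℝ) ≤ 2 * l ^ 2 * (n : ℝ) ^ (1 - c + b + B) +
      2 * l ^ 2 * (n : ℝ) ^ (1 - c / 2 + 3 * b) + (n : ℝ) ^ (1 - c / 2) := by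
    have h11 : (W.card : ℝ) * t ≤ (2 * l ^ 2 * (n : ℝ) ^ (1 - c + b + B) +
      2 * l ^ 2 * (n : ℝ) ^ (1 - c / 2 + 3 * b) + (n : ℝ) ^ (1 - c / 2)) * t := by
      rw [mul_add, e2] at h5
      linarith
    exact le_of_mul_le_mul_right h11 ht0
  have k1 := hN.lg (K := 6) (x := 1 - c + b + B) (y := 1 - c / 2 + 2 * B) (j := 2) (by norm_num)
    (by norm_num) (by linarith)
  have k2 := hN.lg (K := 6) (x := 1 - c / 2 + 3 * b) (y := 1 - c / 2 + 2 * B) (j := 2) (by norm_num)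
    (by norm_num) (by linarith)
  have k3 := hN.cst (K := 3) (x := 1 - c / 2) (y := 1 - c / 2 + 2 * B) (by norm_num) (by linarith)
  rw [← hl] at k1 k2
  linarith

end Pool.Agent.Lib.H96G
end

-- from Lib.H96G.A6
section

/-!
# Project H96G, chunk A6 (M): neighbours `y` with `2y - 3` prime
-/

open Finset

namespace Pool.Agent.Lib.H96G

open Pool.Agent.Lib.H68T (lp)

open Classical in
theorem a6_upper {n M : ℕ} {B : ℝ} (hn : 1 ≤ n) {X Z : ℕ} (hs : Sc n M B X Z) {x : ℕ}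
    (hx : x ∈ Ico (2 * X) (3 * X)) (hl : 0 ≤ Real.log (8 * n)) :
    ∑ y ∈ Ico Z (2 * Z), lp (2 * (y : ℤ) - 3) * kp x y ≤ ((nb3 Z x).card : ℝ) * (Real.log (8 * n)) ^ 3 := by
  have h1 : ∀ y ∈ Ico Z (2 * Z), lp (2 * (y : ℤ) - 3) * kp x y ≤
      if (Pool.Agent.Lib.GoldbachGraph.hadj x y ∧ (2 * y - 3).Prime) then (Real.log (8 * n)) ^ 3 else 0 := by
    intro y hy
    split_ifs with hc
    · have h2 := a1_lp3_le hn hs hy
      have h3 := a1_kp_le hn hs hx hy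
      have h4 := a1_lp_nonneg (2 * (y : ℤ) - 3)
      have h5 := a1_kp_nonneg x y
      calc lp (2 * (y : ℤ) - 3) * kp x y ≤ Real.log (8 * n) * (Real.log (8 * n)) ^ 2 := mul_le_mul h2 h3 h5 hl
        _ = (Real.log (8 * n)) ^ 3 := by ring
    · rw [not_and_or] at hc
      rcases hc with hc | hc
      · have : kp x y = 0 := by
          by_contra hk
          exact hc (a1_kp_hadj hn hs hx hy hk)
        rw [this, mul_zero]
      · have : lp (2 * (y : ℤ) - 3) = 0 := by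
          by_contra hk
          exact hc (a1_lp3 y hk)
        rw [this, zero_mul]
  refine (sum_le_sum h1).trans ?_
  rw [← sum_filter, sum_const, nsmul_eq_mul]
  refine mul_le_mul_of_nonneg_right ?_ (pow_nonneg hl 3)
  have h6 : ((Ico Z (2 * Z)).filter fun y => Pool.Agent.Lib.GoldbachGraph.hadj x y ∧ (2 * y - 3).Prime).card ≤ (nb3 Z x).card := by
    apply card_le_card
    intro y hy
    unfold nb3
    simp only [mem_filter] at hy ⊢
    exact hy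
  exact_mod_cast h6

open Classical in
/-- **A6.** Proof. `l = log (8n)`, `g y = lp (2y-3)`, `0 ≤ g ≤ l` on `[Z, 2Z)` (`a1_lp_nonneg`, `a1_lp3_le`). Let
`x ∈ [2X, 3X)`, `3 ∣ x`, not in the exceptional set of the field `m3` (at most `n^(1-c)` elements) and not in the one
of `A0_dual` with `t = Z n^(-b)/2` (at most `2 l n^(2-c) n^b / Z ≤ 2 l n^(1-c+b+B)` elements). Then
`∑_y kp x y * g y ≥ Z n^(-b) - Z n^(-b)/2`. Only `y ∈ nb3 Z x` contribute (`a1_kp_hadj`, `a1_lp3`), each at most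
`l^3` (`a1_kp_le`), so `(nb3 Z x).card ≥ Z n^(-b)/(2 l^3) ≥ Z n^(-4b)`. And
`n^(1-c) + 2 l n^(1-c+b+B) ≤ n^(1-c/2)`. -/
theorem A6 {n M : ℕ} {L : ℕ → ℤ → ℝ} {c B b : ℝ} (hN : Nm n b) (h : GIn n M L c B b)
    {X Z : ℕ} (hs : Sc n M B X Z) :
    (((Ico (2 * X) (3 * X)).filter fun x => 3 ∣ x ∧
      ¬ Z * (n : ℝ) ^ (-(4 * b)) ≤ ((nb3 Z x).card : ℝ)).card : ℝ) ≤ (n : ℝ) ^ (1 - c / 2) := by
  have hn := hN.n_pos
  have hl := hN.ell
  have hl0 : 0 ≤ Real.log (8 * n) := by linarith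
  have hlp : 0 < Real.log (8 * n) := by linarith
  have hb := h.hb
  have hB := h.hB
  have hb0 := h.b_pos
  have hZ := a1_Z_pos hn hs
  have hZ' : (0 : ℝ) < Z := by exact_mod_cast hZ
  have hG : ∀ y ∈ Ico Z (2 * Z), |lp (2 * (y : ℤ) - 3)| ≤ Real.log (8 * n) := by
    intro y hy
    rw [abs_of_nonneg (a1_lp_nonneg _)]
    exact a1_lp3_le hn hs hy
  have hT0 : 0 ≤ (Z : ℝ) * (n : ℝ) ^ (-b) / 2 := by
    have := hN.ppos (-b)
    positivity
  have hD := A0_dual h hs (fun y => lp (2 * (y : ℤ) - 3)) (Real.log (8 * n)) (Z * (n : ℝ) ^ (-b) / 2) hlp hT0 hG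
  have hE1 := h.m3 X Z hs
  obtain ⟨E1, hE1d⟩ : ∃ E : Finset ℕ, E = (Ico (2 * X) (3 * X)).filter fun x => 3 ∣ x ∧
      ∑ y ∈ Ico Z (2 * Z), km (L X) x y * lp (2 * (y : ℤ) - 3) < Z * (n : ℝ) ^ (-b) := ⟨_, rfl⟩
  obtain ⟨E2, hE2d⟩ : ∃ E : Finset ℕ, E = (Ico (2 * X) (3 * X)).filter fun x =>
      Z * (n : ℝ) ^ (-b) / 2 < |∑ y ∈ Ico Z (2 * Z), lp (2 * (y : ℤ) - 3) * (kp x y - km (L X) x y)| := ⟨_, rfl⟩
  have hE1' : (E1.card : ℝ) ≤ (n : ℝ) ^ (1 - c) := by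
    rw [hE1d]
    exact hE1
  have hD' : (Z : ℝ) * (n : ℝ) ^ (-b) / 2 * (E2.card : ℝ) ≤ Real.log (8 * n) * (n : ℝ) ^ (2 - c) := by
    rw [hE2d]
    exact hD
  have hsub : (Ico (2 * X) (3 * X)).filter (fun x => 3 ∣ x ∧
      ¬ Z * (n : ℝ) ^ (-(4 * b)) ≤ ((nb3 Z x).card : ℝ)) ⊆ E1 ∪ E2 := by
    intro x hx
    simp only [mem_filter] at hx
    obtain ⟨hx1, hx3, hx4⟩ := hx
    by_contra hcon
    rw [mem_union, not_or, hE1d, hE2d] at hcon
    simp only [mem_filter, not_and, not_lt] at hcon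
    obtain ⟨hc1, hc2⟩ := hcon
    have h1 := hc1 hx1 hx3
    have h2 := hc2 hx1
    have h3 : ∑ y ∈ Ico Z (2 * Z), lp (2 * (y : ℤ) - 3) * (kp x y - km (L X) x y) =
        ∑ y ∈ Ico Z (2 * Z), lp (2 * (y : ℤ) - 3) * kp x y - ∑ y ∈ Ico Z (2 * Z), km (L X) x y * lp (2 * (y : ℤ) - 3) := by
      rw [← sum_sub_distrib]
      refine sum_congr rfl fun y _ => ?_
      ring
    rw [h3] at h2
    have h4 := (abs_le.1 h2).1
    have h5 := a6_upper hn hs hx1 hl0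
    have h6 : 2 * (Real.log (8 * n)) ^ 3 * (n : ℝ) ^ (-(4 * b)) ≤ (n : ℝ) ^ (-b) :=
      hN.lg (K := 2) (j := 3) (by norm_num) (by norm_num) (by linarith)
    have h7 : (Z : ℝ) * (2 * (Real.log (8 * n)) ^ 3 * (n : ℝ) ^ (-(4 * b))) ≤ Z * (n : ℝ) ^ (-b) :=
      mul_le_mul_of_nonneg_left h6 hZ'.le
    have h8 : (Real.log (8 * n)) ^ 3 * (Z * (n : ℝ) ^ (-(4 * b))) ≤ (Real.log (8 * n)) ^ 3 * (nb3 Z x).card := by
      nlinarith
    exact hx4 (le_of_mul_le_mul_left h8 (pow_pos hlp 3))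
  have hcard : (((Ico (2 * X) (3 * X)).filter fun x => 3 ∣ x ∧
      ¬ Z * (n : ℝ) ^ (-(4 * b)) ≤ ((nb3 Z x).card : ℝ)).card : ℝ) ≤ E1.card + E2.card := by
    have := (card_le_card hsub).trans (card_union_le _ _)
    exact_mod_cast this
  refine hcard.trans ?_
  have hE2' : (E2.card : ℝ) ≤ 2 * (Real.log (8 * n)) ^ 1 * (n : ℝ) ^ (1 - c + b + B) := by
    have h1 : (n : ℝ) ^ (1 - B) * ((n : ℝ) ^ (-b) * E2.card) ≤ Z * ((n : ℝ) ^ (-b) * E2.card) :=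
      mul_le_mul_of_nonneg_right hs.lo (by have := hN.ppos (-b); positivity)
    have h2 : (n : ℝ) ^ (1 - B - b) * E2.card ≤ 2 * Real.log (8 * n) * (n : ℝ) ^ (2 - c) := by
      have h3 : (n : ℝ) ^ (1 - B - b) = (n : ℝ) ^ (1 - B) * (n : ℝ) ^ (-b) := by
        rw [hN.mul]
        congr 1
      rw [h3]
      nlinarith
    have h4 : (n : ℝ) ^ (2 - c) = (n : ℝ) ^ (1 - B - b) * (n : ℝ) ^ (1 - c + b + B) := by
      rw [hN.mul]
      congr 1
      ring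
    rw [h4] at h2
    have h5 : (n : ℝ) ^ (1 - B - b) * E2.card ≤ (n : ℝ) ^ (1 - B - b) * (2 * (Real.log (8 * n)) ^ 1 * (n : ℝ) ^ (1 - c + b + B)) := by
      refine h2.trans (le_of_eq ?_)
      ring
    exact le_of_mul_le_mul_left h5 (hN.ppos _)
  have h10 : 2 * (n : ℝ) ^ (1 - c) ≤ (n : ℝ) ^ (1 - c / 2) := hN.cst (by norm_num) (by linarith)
  have h11 : 4 * (Real.log (8 * n)) ^ 1 * (n : ℝ) ^ (1 - c + b + B) ≤ (n : ℝ) ^ (1 - c / 2) :=
    hN.lg (by norm_num) (by norm_num) (by linarith)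
  linarith

end Pool.Agent.Lib.H96G
end

-- from Lib.H96G.B1
section

/-!
# Project H96G, chunk B1 (M): scales
-/

open Finset

namespace Pool.Agent.Lib.H96G

/-- the scales -/
def b1_X (M Z : ℕ) : ℕ → ℕ
  | 0 => 2 * Z
  | j + 1 => M * (3 * b1_X M Z j / (2 * M))

theorem b1_dvd {M Z : ℕ} (hZ : M ∣ Z) (j : ℕ) : M ∣ b1_X M Z j := by
  cases j with
  | zero => exact Dvd.dvd.mul_left hZ 2
  | succ j => exact Dvd.intro _ rfl

/-- `3 X / 2 - M < M (3 X / (2 M)) ≤ 3 X / 2` -/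
theorem b1_step (M X : ℕ) (hM : 1 ≤ M) : 2 * (M * (3 * X / (2 * M))) ≤ 3 * X ∧
    3 * X < 2 * (M * (3 * X / (2 * M))) + 2 * M := by
  have h1 := Nat.div_add_mod (3 * X) (2 * M)
  have h2 : 3 * X % (2 * M) < 2 * M := Nat.mod_lt _ (by omega)
  have h3 : 2 * (M * (3 * X / (2 * M))) = 2 * M * (3 * X / (2 * M)) := by ring
  omega

theorem b1_ge {M Z : ℕ} (hM : 1 ≤ M) (hZM : 8 * M ≤ Z) (j : ℕ) : 2 * Z ≤ b1_X M Z j := by
  induction j with
  | zero => exact le_refl _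
  | succ j ih =>
    have h := b1_step M (b1_X M Z j) hM
    change 2 * Z ≤ M * (3 * b1_X M Z j / (2 * M))
    omega

theorem b1_grow {M Z : ℕ} (hM : 1 ≤ M) (hZM : 8 * M ≤ Z) (j : ℕ) :
    2 * b1_X M Z (j + 1) ≤ 3 * b1_X M Z j ∧ 7 * b1_X M Z j ≤ 5 * b1_X M Z (j + 1) := by
  have h := b1_step M (b1_X M Z j) hM
  have h2 := b1_ge hM hZM j
  change 2 * (M * (3 * b1_X M Z j / (2 * M))) ≤ 3 * b1_X M Z j ∧
    7 * b1_X M Z j ≤ 5 * (M * (3 * b1_X M Z j / (2 * M)))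
  omega

theorem b1_pow {M Z : ℕ} (hM : 1 ≤ M) (hZM : 8 * M ≤ Z) (j : ℕ) :
    ((7 : ℝ) / 5) ^ j ≤ b1_X M Z j := by
  induction j with
  | zero =>
    rw [pow_zero]
    have h := b1_ge hM hZM 0
    have h2 : 1 ≤ b1_X M Z 0 := by omega
    exact_mod_cast h2
  | succ j ih =>
    have h := (b1_grow hM hZM j).2
    have h2 : (7 : ℝ) * b1_X M Z j ≤ 5 * b1_X M Z (j + 1) := by exact_mod_cast h
    rw [pow_succ]
    linarith

/-- `n ≤ (7 / 5) ^ J` for `J > 3 log n` -/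
theorem b1_log (n J : ℕ) (hn : 1 ≤ n) (hJ : 3 * Real.log n ≤ J) : (n : ℝ) ≤ ((7 : ℝ) / 5) ^ J := by
  have hn' : (0 : ℝ) < n := by
    have : 0 < n := hn
    exact_mod_cast this
  have h1 : Real.exp 1 ≤ ((7 : ℝ) / 5) ^ 3 := by
    have := Real.exp_one_lt_d9
    norm_num at this ⊢
    linarith
  have h2 : (1 : ℝ) / 3 ≤ Real.log (7 / 5) := by
    have h3 := Real.log_le_log (Real.exp_pos 1) h1
    rw [Real.log_exp, Real.log_pow] at h3
    push_cast at h3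
    linarith
  have h4 : Real.log n ≤ J * Real.log (7 / 5) := by
    have h5 : (J : ℝ) * (1 / 3) ≤ J * Real.log (7 / 5) := mul_le_mul_of_nonneg_left h2 (by positivity)
    linarith
  rw [← Real.log_pow] at h4
  exact (Real.log_le_log_iff hn' (by positivity)).1 h4

/-- **B1.** Proof. If `n < 4 Z` take `S = ∅` (`log (8n) ≥ 0` also for `n = 0`). Else let `X_0 = 2 Z`,
`X_(j+1) = M * (3 X_j / (2 M))` (`Nat` division). All `X_j` are multiples of `M`, `X_j ≥ 2 Z ≥ 16 M`, and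
`3 X_j/2 - M < X_(j+1) ≤ 3 X_j/2`, so `X_(j+1) ≥ (23/16) X_j ≥ (7/5) X_j` and `X_j ≥ (7/5)^j`. `S` = the set of the
`X_j` with `2 X_j ≤ n`, contained in the image of `range J` for every `J` with `(7/5)^J > n`, for instance
`J = ⌊3 log n⌋ + 1` (`log (7/5) > 1/3`: `exp 1 ≤ 2.7183 ≤ 2.744 = (7/5)^3`), and `3 log n + 1 ≤ 5 log (8n)`.
Covering: for `4 Z ≤ u ≤ n` let `j` be maximal with `2 X_j ≤ u` (`Nat.findGreatest` or induction): then
`u < 2 X_(j+1) ≤ 3 X_j`. -/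
theorem B1 (n M Z : ℕ) (hM : 1 ≤ M) (hZ : M ∣ Z) (hZM : 8 * M ≤ Z) :
    ∃ S : Finset ℕ, (∀ X ∈ S, M ∣ X ∧ 2 * Z ≤ X ∧ X ≤ n) ∧ (S.card : ℝ) ≤ 5 * Real.log (8 * n) ∧
      ∀ u : ℕ, 4 * Z ≤ u → u ≤ n → ∃ X ∈ S, u ∈ Ico (2 * X) (3 * X) := by
  rcases Nat.eq_zero_or_pos n with hn | hn
  · refine ⟨∅, by simp, ?_, ?_⟩
    · rw [hn]
      simp
    · intro u h1 h2
      omega
  obtain ⟨J, hJ⟩ : ∃ J : ℕ, J = ⌊3 * Real.log n⌋₊ + 1 := ⟨_, rfl⟩
  have hn' : (1 : ℝ) ≤ n := by exact_mod_cast hn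
  have hlog0 : 0 ≤ Real.log n := Real.log_nonneg hn'
  have hJ1 : 3 * Real.log n ≤ J := by
    have := Nat.lt_floor_add_one (3 * Real.log n)
    rw [hJ]
    push_cast
    linarith
  have hJ2 : (J : ℝ) ≤ 3 * Real.log n + 1 := by
    have := Nat.floor_le (a := 3 * Real.log n) (by positivity)
    rw [hJ]
    push_cast
    linarith
  have hpow := (b1_log n J hn hJ1).trans (b1_pow hM hZM J)
  have hpow' : n ≤ b1_X M Z J := by exact_mod_cast hpow
  refine ⟨((range J).image (b1_X M Z)).filter (fun X => 2 * X ≤ n), ?_, ?_, ?_⟩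
  · intro X hX
    rw [mem_filter, mem_image] at hX
    obtain ⟨⟨j, _, rfl⟩, h2⟩ := hX
    exact ⟨b1_dvd hZ j, b1_ge hM hZM j, by omega⟩
  · have h1 : (((range J).image (b1_X M Z)).filter (fun X => 2 * X ≤ n)).card ≤ J := by
      refine (card_filter_le _ _).trans (card_image_le.trans ?_)
      rw [card_range]
    have h2 : ((((range J).image (b1_X M Z)).filter (fun X => 2 * X ≤ n)).card : ℝ) ≤ J := by exact_mod_cast h1
    have h3 : Real.log (8 * n) = Real.log 8 + Real.log n := Real.log_mul (by norm_num) (by positivity)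
    have h4 : (1 : ℝ) ≤ Real.log 8 := by
      rw [Real.le_log_iff_exp_le (by norm_num)]
      linarith [Real.exp_one_lt_d9]
    rw [h3]
    linarith
  · intro u hu1 hu2
    have hex : ∃ j, u < 2 * b1_X M Z j := by
      refine ⟨J, ?_⟩
      have := b1_ge hM hZM J
      omega
    have hspec := Nat.find_spec hex
    have hmin := fun m hm => Nat.find_min hex (m := m) hm
    obtain ⟨k, hk⟩ : ∃ k, Nat.find hex = k := ⟨_, rfl⟩
    rw [hk] at hspec
    have hkJ : k ≤ J := by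
      rw [← hk]
      apply Nat.find_min' hex
      have := b1_ge hM hZM J
      omega
    cases k with
    | zero =>
      have h0 : b1_X M Z 0 = 2 * Z := rfl
      rw [h0] at hspec
      omega
    | succ j =>
      have h1 := hmin j (by omega)
      have h2 := (b1_grow hM hZM j).1
      refine ⟨b1_X M Z j, ?_, ?_⟩
      · rw [mem_filter, mem_image]
        refine ⟨⟨j, ?_, rfl⟩, by omega⟩
        rw [mem_range]
        omega
      · rw [mem_Ico]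
        omega

end Pool.Agent.Lib.H96G
end

-- from Lib.H96G.C0
section

/-!
# Project H96G, chunk C0 (S/M): elementary facts on the halved graph
-/

open Finset

namespace Pool.Agent.Lib.H96G

open Pool.Agent.Lib.GoldbachGraph (hadj hadj_comm)

theorem c0_ST_symm {x y : ℕ} (h : ST x y) : ST y x := by
  exact ⟨h.1.symm, h.2.symm⟩

theorem c0_ST_trans {x y z : ℕ} (h : ST x y) (h' : ST y z) : ST x z := by
  exact ⟨h.1.trans h'.1, h.2.trans h'.2⟩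

theorem c0_OT_symm {x y : ℕ} (h : OT x y) : OT y x := by
  obtain ⟨h1, h2⟩ := h
  refine ⟨fun h3 => h1 h3.symm, ?_⟩
  tauto

/-- Proof. `omega` after splitting the equivalences. -/
theorem c0_OT_OT {x y z : ℕ} (h : OT x y) (h' : OT y z) : ST x z := by
  obtain ⟨h1, h2⟩ := h
  obtain ⟨h3, h4⟩ := h'
  refine ⟨by omega, ?_⟩
  tauto

/-- Proof. `x + y` is odd; if `x + y` and `|x-y|` are primes different from `3`, then `3` divides neither, so `x, y` are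
not both divisible by `3`, and not both not divisible (else `x ≡ ± y` modulo `3`). -/
theorem c0_type {x y : ℕ} (h : hadj x y) (h1 : x + y ≠ 3) (h2 : Nat.dist x y ≠ 3) : OT x y := by
  obtain ⟨p1, o1, p2, o2⟩ := h
  have d1 : ¬ 3 ∣ x + y := by
    intro h3
    exact h1 ((Nat.prime_dvd_prime_iff_eq Nat.prime_three p1).1 h3).symm
  have d2 : ¬ 3 ∣ Nat.dist x y := by
    intro h3
    exact h2 ((Nat.prime_dvd_prime_iff_eq Nat.prime_three p2).1 h3).symm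
  rw [Nat.odd_iff] at o1
  unfold Nat.dist at d2
  refine ⟨by omega, ?_⟩
  have m1 : x % 3 = 0 ∨ x % 3 = 1 ∨ x % 3 = 2 := by omega
  have m2 : y % 3 = 0 ∨ y % 3 = 1 ∨ y % 3 = 2 := by omega
  rcases le_total x y with m3 | m3 <;> rcases m1 with m1 | m1 | m1 <;> rcases m2 with m2 | m2 | m2 <;> constructor <;>
    intro h5 <;> omega

open Classical in
/-- Proof. `c0_type`: the exceptions are among `3 - x`, `x + 3`, `x - 3`. -/
theorem c0_exc (x : ℕ) (I : Finset ℕ) : (I.filter fun y => hadj x y ∧ ¬ OT x y).card ≤ 3 := by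
  have h : (I.filter fun y => hadj x y ∧ ¬ OT x y) ⊆ {3 - x, x + 3, x - 3} := by
    intro y hy
    rw [mem_filter] at hy
    obtain ⟨-, h1, h2⟩ := hy
    rw [mem_insert, mem_insert, mem_singleton]
    by_cases h3 : x + y = 3
    · left
      omega
    · by_cases h4 : Nat.dist x y = 3
      · right
        unfold Nat.dist at h4
        omega
      · exact absurd (c0_type h1 h3 h4) h2
  exact (card_le_card h).trans card_le_three

/-- Proof. `y + (y - 3) = 2 y - 3` is odd, the difference is `3`. -/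
theorem c0_edge {y : ℕ} (hy : 3 ≤ y) (hp : (2 * y - 3).Prime) : hadj y (y - 3) := by
  refine ⟨?_, ?_, ?_, ?_⟩
  · have h1 : y + (y - 3) = 2 * y - 3 := by omega
    rw [h1]
    exact hp
  · rw [Nat.odd_iff]
    omega
  · have h1 : Nat.dist y (y - 3) = 3 := by
      unfold Nat.dist
      omega
    rw [h1]
    exact Nat.prime_three
  · have h1 : Nat.dist y (y - 3) = 3 := by
      unfold Nat.dist
      omega
    rw [h1, Nat.odd_iff]

/-- Proof. `SimpleGraph.edist_le` for the walk with one edge (or `edist_eq_one_iff_adj`). -/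
theorem c0_one {lo n x y : ℕ} (h : hadj x y) (hx : x ∈ Icc lo n) (hy : y ∈ Icc lo n) :
    (HL lo n).edist x y ≤ 1 := by
  exact le_of_eq (SimpleGraph.edist_eq_one_iff_adj.2 ⟨h, hx, hy⟩)

/-- Proof. Triangle inequality. -/
theorem c0_tri {lo n x y z i j k : ℕ} (h : (HL lo n).edist x y ≤ i) (h' : (HL lo n).edist y z ≤ j)
    (hk : i + j ≤ k) : (HL lo n).edist x z ≤ k := by
  refine (SimpleGraph.edist_triangle (v := y)).trans ((add_le_add h h').trans ?_)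
  exact_mod_cast hk

/-- Proof. `c0_one`, `c0_tri`. -/
theorem c0_two {lo n x y z : ℕ} (h : hadj x y) (h' : hadj z y) (hx : x ∈ Icc lo n) (hy : y ∈ Icc lo n)
    (hz : z ∈ Icc lo n) : (HL lo n).edist x z ≤ 2 := by
  have h1 : (HL lo n).edist x y ≤ ((1 : ℕ) : ℕ∞) := by
    rw [Nat.cast_one]
    exact c0_one h hx hy
  have h2 : (HL lo n).edist y z ≤ ((1 : ℕ) : ℕ∞) := by
    rw [Nat.cast_one]
    exact c0_one ((Pool.Agent.Lib.GoldbachGraph.hadj_comm _ _).1 h') hy hz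
  have h3 := c0_tri (k := 2) h1 h2 le_rfl
  exact_mod_cast h3

/-- Proof. `Z ≥ 1`, since the interval `[Z, 2Z)` is not empty; `y < 2 Z ≤ w`. -/
theorem c0_mem {lo n Z y w : ℕ} (hlo : lo ≤ 1) (hy : y ∈ Ico Z (2 * Z)) (hw : w ∈ Icc (4 * Z) n) :
    w ∈ Icc lo n ∧ y ∈ Icc lo n := by
  rw [mem_Ico] at hy
  rw [mem_Icc] at hw
  rw [mem_Icc, mem_Icc]
  omega

end Pool.Agent.Lib.H96G
end

-- from Lib.H96G.C3
section

/-!
# Project H96G, chunk C3 (M): same parity, one divisible by three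
-/

open Finset

namespace Pool.Agent.Lib.H96G

open Pool.Agent.Lib.GoldbachGraph (hadj)

open Classical in
/-- Many elements of `nb3 Z' u` are of opposite type to `u`. -/
theorem c3_many {Z' u : ℕ} {s : ℝ} (hd : s + 3 < ((nb3 Z' u).card : ℝ)) :
    s < (((nb3 Z' u).filter fun y => OT u y).card : ℝ) := by
  have h1 := c0_exc u (Ico Z' (2 * Z'))
  have h2 : (nb3 Z' u).filter (fun y => ¬ OT u y) ⊆
      (Ico Z' (2 * Z')).filter fun y => hadj u y ∧ ¬ OT u y := by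
    intro y hy
    rw [mem_filter] at hy
    have hy1 := hy.1
    unfold nb3 at hy1
    rw [mem_filter] at hy1
    exact mem_filter.2 ⟨hy1.1, hy1.2.1, hy.2⟩
  have h3 : ((nb3 Z' u).filter fun y => ¬ OT u y).card ≤ 3 := (card_le_card h2).trans h1
  have h4 := card_filter_add_card_filter_not (s := nb3 Z' u) (fun y => OT u y)
  have h3' : (((nb3 Z' u).filter fun y => ¬ OT u y).card : ℝ) ≤ 3 := by exact_mod_cast h3
  have h4' : (((nb3 Z' u).filter fun y => OT u y).card : ℝ)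
      + (((nb3 Z' u).filter fun y => ¬ OT u y).card : ℝ) = ((nb3 Z' u).card : ℝ) := by
    exact_mod_cast h4
  linarith

/-- **C3.** Proof. Remove from `nb3 Z' u` the at most `3` elements `y` not of opposite type to `u` (`c0_exc`); more
than `s` remain; for these `y` is not divisible by `3` and has the other parity, so `y - 3 ∈ Icc (4Z) n`
(`y ≥ Z' ≥ 4 Z + 3`) has the type of `v`. The map `y ↦ y - 3` is injective on them, so by the field `be` some `y - 3` is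
not in `far Z v (Icc (4Z) n)`: `y - 3` and `v` have a common neighbour in `[Z, 2Z)`. `u ~ y ~ y - 3` (`c0_edge`):
`1 + 1 + 2`. -/
theorem C3 {lo n Z Z' : ℕ} (hlo : lo ≤ 1) {s t : ℝ} {Γ : Finset ℕ} (hP : PZ n Z s t Γ)
    (h1 : 4 * Z + 3 ≤ Z') (h2 : 2 * Z' ≤ n) {u v : ℕ} (hu : u ∈ Icc lo n) (hv : v ∈ Γ)
    (hd : s + 3 < ((nb3 Z' u).card : ℝ)) (hp : u % 2 = v % 2) (hu3 : 3 ∣ u) (hv3 : ¬ 3 ∣ v) :
    (HL lo n).edist u v ≤ 4 := by
  classical
  have hm := c3_many hd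
  obtain ⟨S, hS⟩ : ∃ S, S = (nb3 Z' u).filter fun y => OT u y := ⟨_, rfl⟩
  rw [← hS] at hm
  have hSm : ∀ y ∈ S, (Z' ≤ y ∧ y < 2 * Z') ∧ hadj u y ∧ (2 * y - 3).Prime ∧ OT u y := by
    intro y hy
    rw [hS, mem_filter] at hy
    have hy1 := hy.1
    unfold nb3 at hy1
    rw [mem_filter, mem_Ico] at hy1
    exact ⟨hy1.1, hy1.2.1, hy1.2.2, hy.2⟩
  have hex : ∃ y ∈ S, y - 3 ∉ far Z v (Icc (4 * Z) n) := by
    by_contra hc
    push Not at hc
    have h3 : S.image (fun y => y - 3) ⊆ far Z v (Icc (4 * Z) n) := by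
      intro w hw
      obtain ⟨y, hy, rfl⟩ := mem_image.1 hw
      exact hc y hy
    have h4 := card_le_card h3
    rw [card_image_of_injOn (fun a ha b hb hab => by
      have ea := (hSm a ha).1.1
      have eb := (hSm b hb).1.1
      have hab' : a - 3 = b - 3 := hab
      omega)] at h4
    have h5 := hP.be v hv
    have h6 : (S.card : ℝ) ≤ ((far Z v (Icc (4 * Z) n)).card : ℝ) := by exact_mod_cast h4
    linarith
  obtain ⟨y, hy, hyf⟩ := hex
  obtain ⟨⟨y1, y2⟩, y3, y4, y5⟩ := hSm y hy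
  have hyI : y - 3 ∈ Icc (4 * Z) n := mem_Icc.2 ⟨by omega, by omega⟩
  have hST : ST v (y - 3) := by
    obtain ⟨o1, o2⟩ := y5
    have hy3 : ¬ 3 ∣ y := o2.1 hu3
    refine ⟨by omega, ?_⟩
    constructor
    · intro h
      exact absurd h hv3
    · intro h
      exfalso
      apply hy3
      omega
  have hcom : ∃ z ∈ Ico Z (2 * Z), hadj v z ∧ hadj (y - 3) z := by
    by_contra hc
    apply hyf
    unfold far
    simp only [mem_filter]
    exact ⟨hyI, hST, hc⟩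
  obtain ⟨z, hz, hz1, hz2⟩ := hcom
  have hvI := hP.sub hv
  have m1 := c0_mem hlo hz hyI
  have m2 := c0_mem hlo hz hvI
  have hyL : y ∈ Icc lo n := mem_Icc.2 ⟨by omega, by omega⟩
  have e1 : (HL lo n).edist u y ≤ ((1 : ℕ) : ℕ∞) := by exact_mod_cast c0_one y3 hu hyL
  have e2 : (HL lo n).edist y (y - 3) ≤ ((1 : ℕ) : ℕ∞) := by
    exact_mod_cast c0_one (c0_edge (by omega) y4) hyL m1.1
  have e3 : (HL lo n).edist (y - 3) v ≤ ((2 : ℕ) : ℕ∞) := by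
    exact_mod_cast c0_two hz2 hz1 m1.1 m1.2 m2.1
  have e4 := c0_tri (k := 2) e1 e2 le_rfl
  have e5 := c0_tri (k := 4) e4 e3 le_rfl
  exact_mod_cast e5

end Pool.Agent.Lib.H96G
end

-- from Lib.H96G.C5
section

/-!
# Project H96G, chunk C5 (M): opposite parity, none divisible by three
-/

open Finset

namespace Pool.Agent.Lib.H96G

open Pool.Agent.Lib.GoldbachGraph (hadj)

/-- **C5.** Proof. Remove from `nb Z'' u` the at most `3` elements `y` not of opposite type to `u` (`c0_exc`) and those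
not in `Γ'` (they are in `Icc (4Z') n \ Γ'`, at most `s`, field `co` of `hP'`): one `y` remains; `y ∈ Γ'`, `3 ∣ y`, `y`
has the parity of `v`. The field `ga` of `hP'`: `s + 3 < t ≤ (nb3 Z' y).card`; `C3` for `y`, `v`: `4`, and `1 + 4`. -/
theorem C5 {lo n Z Z' Z'' : ℕ} (hlo : lo ≤ 1) {s t : ℝ} {Γ Γ' : Finset ℕ}
    (hP : PZ n Z s t Γ) (hP' : PZ n Z' s t Γ') (h1 : 4 * Z + 3 ≤ Z') (h2 : 4 * Z' + 3 ≤ Z'') (h3 : 2 * Z'' ≤ n)
    (hst : s + 3 < t) {u v : ℕ} (hu : u ∈ Icc lo n) (hv : v ∈ Γ)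
    (hd : s + 3 < ((nb Z'' u).card : ℝ)) (hp : u % 2 ≠ v % 2) (hu3 : ¬ 3 ∣ u) (hv3 : ¬ 3 ∣ v) :
    (HL lo n).edist u v ≤ 5 := by
  classical
  obtain ⟨y, hy, hOT, hyG⟩ : ∃ y ∈ nb Z'' u, OT u y ∧ y ∈ Γ' := by
    by_contra hcon
    have hsub : nb Z'' u ⊆ ((Ico Z'' (2 * Z'')).filter fun y => hadj u y ∧ ¬ OT u y) ∪ (Icc (4 * Z') n \ Γ') := by
      intro y hy
      have hy' := hy
      unfold nb at hy'
      rw [mem_filter, mem_Ico] at hy'
      rw [mem_union]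
      by_cases h4 : OT u y
      · right
        rw [mem_sdiff, mem_Icc]
        refine ⟨by omega, fun h5 => hcon ⟨y, hy, h4, h5⟩⟩
      · left
        rw [mem_filter, mem_Ico]
        exact ⟨hy'.1, hy'.2, h4⟩
    have h4 := (card_le_card hsub).trans (card_union_le _ _)
    have h5 := c0_exc u (Ico Z'' (2 * Z''))
    have h6 : ((nb Z'' u).card : ℝ) ≤ 3 + ((Icc (4 * Z') n \ Γ').card : ℝ) := by
      have h7 : (nb Z'' u).card ≤ 3 + (Icc (4 * Z') n \ Γ').card := by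
        refine h4.trans (Nat.add_le_add_right ?_ _)
        exact h5
      exact_mod_cast h7
    have h7 := hP'.co
    linarith
  have hy' := hy
  unfold nb at hy'
  rw [mem_filter, mem_Ico] at hy'
  have h3y : 3 ∣ y := by
    obtain ⟨-, h4⟩ := hOT
    by_contra h5
    exact hu3 (h4.2 h5)
  have hpar : y % 2 = v % 2 := by
    have h4 := hOT.1
    omega
  have hga := hP'.ga y hyG h3y
  have hyI : y ∈ Icc lo n := by
    rw [mem_Icc]
    omega
  have h5 : (HL lo n).edist y v ≤ ((4 : ℕ) : ℕ∞) := by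
    have := C3 hlo hP h1 (by omega) hyI hv (by linarith) hpar h3y hv3
    exact_mod_cast this
  have h6 : (HL lo n).edist u y ≤ ((1 : ℕ) : ℕ∞) := by
    rw [Nat.cast_one]
    exact c0_one hy'.2 hu hyI
  have h7 := c0_tri (k := 5) h6 h5 le_rfl
  exact_mod_cast h7

end Pool.Agent.Lib.H96G
end
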