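import Pool.Agent.Lib.H1M.RV3.M001
import Pool.Agent.Lib.H1M.RV3.M003
import Pool.Agent.Lib.H1M.RV3.M009
import Pool.Agent.Lib.H1M.RV3.M035

/-! Merged copies (to shorten the build) of Lib.H15P.LV3, Lib.H15P.LV4, Lib.H92G.G4, Lib.H15P.MK1, Lib.H15P.MK2, Lib.H57C.BH2, Lib.Sieve.Gap, Lib.H59C.CCV, Lib.H59C.CPW, Lib.H57M.B4, Lib.H57M.B6, Lib.H59C.CRP, Lib.H59C.PIN, Lib.H59C.CP2. -/

-- from Lib.H15P.LV3
section

/-!
# Chunk LV3: level of the one form functions
-/

open Finset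

namespace Pool.Agent.Lib.H15P

theorem lv3_esymm {α : Type} [DecidableEq α] (x : α → ℝ) (hx : ∀ i, 0 ≤ x i) (S : Finset α) :
    ∀ l : ℕ, ∑ B ∈ S.powersetCard l, ∏ i ∈ B, x i ≤ (∑ i ∈ S, x i) ^ l := by
  induction S using Finset.induction_on with
  | empty =>
    intro l
    cases l with
    | zero => simp
    | succ l =>
      have h1 : powersetCard (l + 1) (∅ : Finset α) = ∅ := by
        apply Finset.powersetCard_eq_empty.2
        simp
      rw [h1]
      simp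
  | insert a S ha ih =>
    intro l
    cases l with
    | zero => simp
    | succ l =>
      rw [Finset.powersetCard_succ_insert ha]
      have h1 := ih (l + 1)
      have h2 := ih l
      have hX : 0 ≤ ∑ i ∈ S, x i := Finset.sum_nonneg fun i _ => hx i
      have hdisj : Disjoint (powersetCard (l + 1) S) ((powersetCard l S).image (insert a)) := by
        rw [Finset.disjoint_left]
        intro B hB hB'
        rw [Finset.mem_powersetCard] at hB
        obtain ⟨B', -, rfl⟩ := Finset.mem_image.1 hB'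
        exact ha (hB.1 (Finset.mem_insert_self a B'))
      rw [Finset.sum_union hdisj, Finset.sum_insert ha]
      have h3 : ∑ B ∈ (powersetCard l S).image (insert a), ∏ i ∈ B, x i =
          x a * ∑ B ∈ powersetCard l S, ∏ i ∈ B, x i := by
        rw [Finset.sum_image, Finset.mul_sum]
        · apply Finset.sum_congr rfl
          intro B hB
          rw [Finset.mem_powersetCard] at hB
          rw [Finset.prod_insert fun h => ha (hB.1 h)]
        · intro B hB B' hB' h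
          rw [Finset.mem_coe, Finset.mem_powersetCard] at hB hB'
          have h4 : a ∉ B := fun h => ha (hB.1 h)
          have h5 : a ∉ B' := fun h => ha (hB'.1 h)
          have h6 : (insert a B).erase a = (insert a B').erase a := by rw [h]
          rwa [Finset.erase_insert h4, Finset.erase_insert h5] at h6
      rw [h3]
      have ha0 := hx a
      have h4 : (∑ i ∈ S, x i) ^ l ≤ (x a + ∑ i ∈ S, x i) ^ l :=
        pow_le_pow_left₀ hX (by linarith) l
      calc ∑ B ∈ powersetCard (l + 1) S, ∏ i ∈ B, x i + x a * ∑ B ∈ powersetCard l S, ∏ i ∈ B, x i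
          ≤ (∑ i ∈ S, x i) ^ (l + 1) + x a * (∑ i ∈ S, x i) ^ l :=
            add_le_add h1 (mul_le_mul_of_nonneg_left h2 ha0)
        _ = (x a + ∑ i ∈ S, x i) * (∑ i ∈ S, x i) ^ l := by ring
        _ ≤ (x a + ∑ i ∈ S, x i) * (x a + ∑ i ∈ S, x i) ^ l :=
            mul_le_mul_of_nonneg_left h4 (by linarith)
        _ = (x a + ∑ i ∈ S, x i) ^ (l + 1) := by ring

theorem lv3_choose {ι : Type} [Fintype ι] [DecidableEq ι] (blk : ι → ℕ) (b l : ℕ) (A : Finset ι) :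
    (((AB blk b A).card.choose l : ℕ) : ℝ) =
      ∑ B ∈ (univ.filter (fun i => blk i = b)).powersetCard l, if B ⊆ A then (1 : ℝ) else 0 := by
  rw [← Finset.card_powersetCard, ← Finset.sum_filter, Finset.sum_const, nsmul_eq_mul, mul_one]
  congr 2
  ext B
  rw [Finset.mem_powersetCard, Finset.mem_filter, Finset.mem_powersetCard]
  unfold AB
  constructor
  · rintro ⟨h1, h2⟩
    refine ⟨⟨?_, h2⟩, ?_⟩
    · intro i hi
      exact Finset.mem_filter.2 ⟨Finset.mem_univ i, (Finset.mem_filter.1 (h1 hi)).2⟩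
    · intro i hi
      exact (Finset.mem_filter.1 (h1 hi)).1
  · rintro ⟨⟨h1, h2⟩, h3⟩
    refine ⟨?_, h2⟩
    intro i hi
    exact Finset.mem_filter.2 ⟨h3 hi, (Finset.mem_filter.1 (h1 hi)).2⟩

theorem lv3_ind (P : Finset ℕ) (hP : ∀ p ∈ P, p.Prime) (B : Finset {p // p ∈ P}) (M b0 : ℕ) :
    Lev (∏ p ∈ P, p) (fun t => if B ⊆ hit P (b0 + M * t) then (1 : ℝ) else 0)
      (∏ i ∈ B, (i.1 : ℝ)) := by
  have hd : (∏ i ∈ B, i.1) ∣ ∏ p ∈ P, p := by
    have h1 : ∏ i ∈ B, i.1 = ∏ p ∈ B.map ⟨Subtype.val, Subtype.val_injective⟩, p := by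
      rw [Finset.prod_map]
      rfl
    rw [h1]
    apply Finset.prod_dvd_prod_of_subset
    intro p hp
    rw [Finset.mem_map] at hp
    obtain ⟨i, -, rfl⟩ := hp
    exact i.2
  have h := Lev.base (Q := ∏ p ∈ P, p) (fun t => if B ⊆ hit P (b0 + M * t) then (1 : ℝ) else 0)
    (∏ i ∈ B, i.1) 1 (Finset.prod_pos fun i _ => (hP i.1 i.2).pos) hd (by
      intro t
      have h1 : B ⊆ hit P (b0 + M * (t + ∏ i ∈ B, i.1)) ↔ B ⊆ hit P (b0 + M * t) := by
        have h2 : ∀ i ∈ B, (i ∈ hit P (b0 + M * (t + ∏ i ∈ B, i.1)) ↔ i ∈ hit P (b0 + M * t)) := by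
          intro i hi
          unfold hit
          rw [Finset.mem_filter, Finset.mem_filter]
          simp only [Finset.mem_univ, true_and]
          have h3 : i.1 ∣ M * ∏ i ∈ B, i.1 := Dvd.dvd.mul_left (Finset.dvd_prod_of_mem _ hi) M
          have h4 : b0 + M * (t + ∏ i ∈ B, i.1) = (b0 + M * t) + M * ∏ i ∈ B, i.1 := by ring
          rw [h4]
          exact (Nat.dvd_add_left h3)
        exact ⟨fun h i hi => (h2 i hi).1 (h hi), fun h i hi => (h2 i hi).2 (h hi)⟩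
      simp only [h1]) (by
      intro t
      split_ifs <;> simp)
  simpa using h

/-- `t ↦ 1[p ∣ b + M t]` for all `p ∈ B` is periodic mod `∏_{p ∈ B} p`; and
`(s choose l) = Σ_{B ⊆ block, |B| = l} 1[B ⊆ A]` for `s = |A ∩ block|`. So the level is at most
`Σ_{l ≤ 2r} Σ_{|B| = l} ∏_{p ∈ B} p ≤ Σ_{l ≤ 2r} X^l/l! ≤ (1 + X)^(2r)`, `X = Σ_{p ∈ block} p`
(elementary symmetric functions: `Finset.prod_pow_le..`/ or
`Σ_{|B| = l} ∏_B p ≤ X^l` and `Σ_{l ≤ 2r} X^l` with `X ≥ 2` or `X = 0`; any proof). -/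
theorem levS_TT (P : Finset ℕ) (hP : ∀ p ∈ P, p.Prime) (blk : {p // p ∈ P} → ℕ) (r b : ℕ) :
    LevS P (fun A => TT r (AB blk b A).card) ((1 + XB (fun i : {p // p ∈ P} => i.1) blk b) ^ (2 * r)) := by
  intro M b0
  have hQ : 0 < ∏ p ∈ P, p := Finset.prod_pos fun p hp => (hP p hp).pos
  set X := XB (fun i : {p // p ∈ P} => i.1) blk b with hX
  have hX0 : 0 ≤ X := Finset.sum_nonneg fun i _ => by positivity
  have hl : ∀ l ∈ range (2 * r + 1), Lev (∏ p ∈ P, p)
      (fun t => (-1 : ℝ) ^ l * ∑ B ∈ (univ.filter (fun i => blk i = b)).powersetCard l,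
        if B ⊆ hit P (b0 + M * t) then (1 : ℝ) else 0) (X ^ l * ((2 * r).choose l : ℕ)) := by
    intro l hlr
    have h1 := Lev.sum ((univ.filter (fun i => blk i = b)).powersetCard l)
      (fun B t => if B ⊆ hit P (b0 + M * t) then (1 : ℝ) else 0)
      (fun B => ∏ i ∈ B, (i.1 : ℝ)) hQ (fun B _ => lv3_ind P hP B M b0)
    have h2 := h1.const_mul ((-1 : ℝ) ^ l)
    refine Lev.mono _ _ _ h2 ?_
    have h3 : |(-1 : ℝ) ^ l| = 1 := by rw [abs_pow, abs_neg, abs_one, one_pow]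
    rw [h3, one_mul]
    have h4 := lv3_esymm (fun i : {p // p ∈ P} => (i.1 : ℝ)) (fun i => by positivity)
      (univ.filter (fun i => blk i = b)) l
    have h5 : (1 : ℝ) ≤ (((2 * r).choose l : ℕ) : ℝ) := by
      have : 0 < (2 * r).choose l := Nat.choose_pos (by
        have := Finset.mem_range.1 hlr
        omega)
      exact_mod_cast this
    calc ∑ B ∈ (univ.filter (fun i => blk i = b)).powersetCard l, ∏ i ∈ B, (i.1 : ℝ) ≤ X ^ l := h4
      _ ≤ X ^ l * (((2 * r).choose l : ℕ) : ℝ) := le_mul_of_one_le_right (by positivity) h5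
  have h := Lev.sum (range (2 * r + 1)) (fun l t => (-1 : ℝ) ^ l *
    ∑ B ∈ (univ.filter (fun i => blk i = b)).powersetCard l,
        if B ⊆ hit P (b0 + M * t) then (1 : ℝ) else 0)
    (fun l => X ^ l * ((2 * r).choose l : ℕ)) hQ hl
  have h1 : (fun t => TT r (AB blk b (hit P (b0 + M * t))).card) = fun t =>
      ∑ l ∈ range (2 * r + 1), (-1 : ℝ) ^ l *
        ∑ B ∈ (univ.filter (fun i => blk i = b)).powersetCard l,
          if B ⊆ hit P (b0 + M * t) then (1 : ℝ) else 0 := by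
    funext t
    unfold TT
    apply Finset.sum_congr rfl
    intro l _
    rw [lv3_choose]
  rw [h1]
  refine Lev.mono _ _ _ h (le_of_eq ?_)
  rw [add_comm 1 X, add_pow]
  apply Finset.sum_congr rfl
  intro l _
  rw [one_pow, mul_one]


/-- The last factor has level at most `((1 + X)^(2 r0) + 1/2)/(1 - tau) ≤ 4 (1 + X)^(2 r0)`. -/
theorem levS_DB (P : Finset ℕ) (hP : ∀ p ∈ P, p.Prime) (q : {p // p ∈ P} → ℝ)
    (blk : {p // p ∈ P} → ℕ) (r0 N i : ℕ) (hi : i < N) (ht0 : 0 ≤ tau q blk r0 i)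
    (ht : tau q blk r0 i ≤ 1 / 2) :
    LevS P (DB q blk r0 N i)
      (4 * ∏ b ∈ Ico i N, (1 + XB (fun i : {p // p ∈ P} => i.1) blk b) ^ (2 * (r0 + (b - i)))) := by
  intro M b0
  have hQ : 0 < ∏ p ∈ P, p := Finset.prod_pos fun p hp => (hP p hp).pos
  set X : ℕ → ℝ := fun b => XB (fun i : {p // p ∈ P} => i.1) blk b with hX
  have hX0 : ∀ b, 0 ≤ X b := fun b => Finset.sum_nonneg fun i _ => by positivity
  set τ := tau q blk r0 i with hτ
  have h1 := Lev.prod (Ico (i + 1) N)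
    (fun b t => TT (r0 + (b - i)) (AB blk b (hit P (b0 + M * t))).card)
    (fun b => (1 + X b) ^ (2 * (r0 + (b - i)))) hQ
    (fun b _ => levS_TT P hP blk (r0 + (b - i)) b M b0)
  have h2 := Lev.add _ _ _ _ (levS_TT P hP blk r0 i M b0) (Lev.const hQ (-τ))
  have h3 := h2.const_mul (1 / (1 - τ))
  have h4 := Lev.mul hQ h1 h3
  have h5 : (fun t => (∏ b ∈ Ico (i + 1) N, TT (r0 + (b - i)) (AB blk b (hit P (b0 + M * t))).card) *
      (1 / (1 - τ) * (TT r0 (AB blk i (hit P (b0 + M * t))).card + -τ))) =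
      fun t => DB q blk r0 N i (hit P (b0 + M * t)) := by
    funext t
    unfold DB
    rw [← hτ]
    ring
  rw [h5] at h4
  refine Lev.mono _ _ _ h4 ?_
  rw [Finset.prod_eq_prod_Ico_succ_bot hi]
  have h6 : r0 + (i - i) = r0 := by omega
  rw [h6]
  have h7 : (0 : ℝ) ≤ ∏ b ∈ Ico (i + 1) N, (1 + X b) ^ (2 * (r0 + (b - i))) :=
    Finset.prod_nonneg fun b _ => pow_nonneg (by linarith [hX0 b]) _
  have h8 : (1 : ℝ) ≤ (1 + X i) ^ (2 * r0) := one_le_pow₀ (by linarith [hX0 i])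
  have h9 : |1 / (1 - τ)| ≤ 2 := by
    have : 0 < 1 - τ := by linarith
    rw [abs_of_nonneg (by positivity), div_le_iff₀ this]
    linarith
  have h10 : |(-τ)| ≤ 1 / 2 := by
    rw [abs_neg, abs_of_nonneg ht0]
    exact ht
  have h11 : |1 / (1 - τ)| * ((1 + X i) ^ (2 * r0) + |(-τ)|) ≤ 4 * (1 + X i) ^ (2 * r0) := by
    calc |1 / (1 - τ)| * ((1 + X i) ^ (2 * r0) + |(-τ)|) ≤
          2 * ((1 + X i) ^ (2 * r0) + |(-τ)|) := by
            apply mul_le_mul_of_nonneg_right h9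
            positivity
      _ ≤ 4 * (1 + X i) ^ (2 * r0) := by linarith
  calc (∏ b ∈ Ico (i + 1) N, (1 + X b) ^ (2 * (r0 + (b - i)))) *
        (|1 / (1 - τ)| * ((1 + X i) ^ (2 * r0) + |(-τ)|))
      ≤ (∏ b ∈ Ico (i + 1) N, (1 + X b) ^ (2 * (r0 + (b - i)))) * (4 * (1 + X i) ^ (2 * r0)) :=
        mul_le_mul_of_nonneg_left h11 h7
    _ = 4 * ((1 + X i) ^ (2 * r0) * ∏ b ∈ Ico (i + 1) N, (1 + X b) ^ (2 * (r0 + (b - i)))) := by
        ring

end Pool.Agent.Lib.H15P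
end

-- from Lib.H15P.LV4
section

/-!
# Chunk LV4: level of `LL` and `LP`
-/

open Finset

namespace Pool.Agent.Lib.H15P

variable {J I : Type} [Fintype J] [DecidableEq J] [Fintype I] [DecidableEq I]

theorem lv4_mem_adm {B : Finset J} {m : I → ℕ} {l : J → Option I} :
    l ∈ adm B m ↔ (∀ j, j ∉ B → l j = none) ∧ ∀ i, cnt l i ≤ m i := by
  unfold adm
  simp

theorem lv4_card_labelled (l : J → Option I) :
    (univ.filter (fun j => l j ≠ none)).card ≤ ∑ i, cnt l i := by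
  have h1 : univ.filter (fun j => l j ≠ none) ⊆
      (univ : Finset I).biUnion (fun i => univ.filter (fun j => l j = some i)) := by
    intro j hj
    rw [Finset.mem_filter] at hj
    obtain ⟨i, hi⟩ := Option.ne_none_iff_exists'.1 hj.2
    rw [Finset.mem_biUnion]
    exact ⟨i, Finset.mem_univ i, Finset.mem_filter.2 ⟨Finset.mem_univ j, hi⟩⟩
  exact (Finset.card_le_card h1).trans Finset.card_biUnion_le

/-- `#adm ≤ Σ_l y^(Σ m - Σ cnt l) ≤ y^(Σ m) (1 + |I|/y)^|J|` with `y = |I| |J| + 1`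
(`Σ_l ∏_j a (l j)` with `a none = 1`, `a (some i) = 1/y`), and `(1 + |I|/y)^|J| ≤ e ≤ 3`. -/
theorem card_adm_le (B : Finset J) (m : I → ℕ) :
    ((adm B m).card : ℝ) ≤
      3 * ((Fintype.card I : ℝ) * Fintype.card J + 1) ^ (∑ i, m i) := by
  set y : ℝ := (Fintype.card I : ℝ) * Fintype.card J + 1 with hy
  have hy1 : 1 ≤ y := by
    rw [hy]
    have : (0 : ℝ) ≤ (Fintype.card I : ℝ) * Fintype.card J := by positivity
    linarith
  have hy0 : 0 < y := by linarith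
  set a : Option I → ℝ := fun o => o.elim 1 (fun _ => y⁻¹) with ha
  have ha0 : ∀ o, 0 ≤ a o := by
    intro o
    cases o with
    | none => simp [ha]
    | some i => simp only [ha, Option.elim]; positivity
  have hterm : ∀ l ∈ adm B m, (1 : ℝ) ≤ y ^ (∑ i, m i) * ∏ j, a (l j) := by
    intro l hl
    rw [lv4_mem_adm] at hl
    have h1 : ∏ j, a (l j) = (y⁻¹) ^ (univ.filter (fun j => l j ≠ none)).card := by
      rw [← Finset.prod_const, Finset.prod_filter]
      apply Finset.prod_congr rfl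
      intro j _
      by_cases hj : l j = none
      · simp [hj, ha]
      · obtain ⟨i, hi⟩ := Option.ne_none_iff_exists'.1 hj
        simp [hi, ha]
    have h2 : (univ.filter (fun j => l j ≠ none)).card ≤ ∑ i, m i :=
      (lv4_card_labelled l).trans (Finset.sum_le_sum fun i _ => hl.2 i)
    rw [h1]
    obtain ⟨c, hc⟩ := Nat.exists_eq_add_of_le h2
    rw [hc, pow_add, inv_pow]
    have h3 : y ^ (univ.filter (fun j => l j ≠ none)).card ≠ 0 := pow_ne_zero _ hy0.ne'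
    have h4 : y ^ (univ.filter (fun j => l j ≠ none)).card * y ^ c *
        (y ^ (univ.filter (fun j => l j ≠ none)).card)⁻¹ = y ^ c := by
      field_simp
    rw [h4]
    exact one_le_pow₀ hy1
  have hsum : ∑ l : J → Option I, ∏ j, a (l j) =
      (1 + (Fintype.card I : ℝ) * y⁻¹) ^ Fintype.card J := by
    have h1 := Finset.prod_univ_sum (fun _ : J => (univ : Finset (Option I))) (fun _ o => a o)
    rw [Fintype.piFinset_univ] at h1
    rw [← h1, Fintype.sum_option]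
    simp [ha]
  have hexp : (1 + (Fintype.card I : ℝ) * y⁻¹) ^ Fintype.card J ≤ 3 := by
    have h1 : 1 + (Fintype.card I : ℝ) * y⁻¹ ≤ Real.exp ((Fintype.card I : ℝ) * y⁻¹) := by
      have := Real.add_one_le_exp ((Fintype.card I : ℝ) * y⁻¹)
      linarith
    have h0 : 0 ≤ 1 + (Fintype.card I : ℝ) * y⁻¹ := by positivity
    calc (1 + (Fintype.card I : ℝ) * y⁻¹) ^ Fintype.card J
        ≤ (Real.exp ((Fintype.card I : ℝ) * y⁻¹)) ^ Fintype.card J := pow_le_pow_left₀ h0 h1 _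
      _ = Real.exp (Fintype.card J * ((Fintype.card I : ℝ) * y⁻¹)) := by
          rw [← Real.exp_nat_mul]
      _ ≤ Real.exp 1 := by
          apply Real.exp_le_exp.2
          have h2 : (Fintype.card J : ℝ) * ((Fintype.card I : ℝ) * y⁻¹) =
              ((Fintype.card I : ℝ) * Fintype.card J) / y := by
            field_simp
          rw [h2, div_le_one hy0, hy]
          linarith
      _ ≤ 3 := by
          have := Real.exp_one_lt_d9
          linarith
  calc ((adm B m).card : ℝ) = ∑ l ∈ adm B m, (1 : ℝ) := by simp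
    _ ≤ ∑ l ∈ adm B m, y ^ (∑ i, m i) * ∏ j, a (l j) := Finset.sum_le_sum hterm
    _ ≤ ∑ l : J → Option I, y ^ (∑ i, m i) * ∏ j, a (l j) := by
        apply Finset.sum_le_sum_of_subset_of_nonneg (Finset.subset_univ _)
        intro l _ _
        exact mul_nonneg (by positivity) (Finset.prod_nonneg fun j _ => ha0 _)
    _ = y ^ (∑ i, m i) * (1 + (Fintype.card I : ℝ) * y⁻¹) ^ Fintype.card J := by
        rw [← Finset.mul_sum, hsum]
    _ ≤ y ^ (∑ i, m i) * 3 := by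
        apply mul_le_mul_of_nonneg_left hexp (by positivity)
    _ = 3 * y ^ (∑ i, m i) := by ring

theorem lv4_prod_kd (KD : I → ℝ) (l : J → Option I) :
    ∏ j, (l j).elim 1 KD = ∏ i, KD i ^ cnt l i := by
  have h1 := Finset.prod_fiberwise' (univ : Finset J) l (fun o => o.elim 1 KD)
  rw [← h1, Fintype.prod_option]
  simp only [Option.elim, Finset.prod_const_one, one_mul, Finset.prod_const]
  rfl




end Pool.Agent.Lib.H15P
end

-- from Lib.H92G.G4
section

/-!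
# Chunk G4: the level

Compare `H15P/LV4` (`lv4_main`, `card_adm_le`).
-/

open Finset

namespace Pool.Agent.Lib.H92G

open Pool.Agent.Lib.H15P

variable {J I : Type} [Fintype J] [DecidableEq J] [Fintype I] [DecidableEq I]

/-- Every term has level at most `|w l| ∏_i KD_i^(cnt l i) ≤ wm ∏_i KD_i^(m i)` (`KD ≥ 1`; a label
`none` contributes the constant `1`, of level `1`: `Lev.const`). `card_adm_le` for the number of
terms. -/
theorem lev_LW (P : Finset ℕ) (hP : ∀ p ∈ P, p.Prime) (D : J → I → Finset {p // p ∈ P} → ℝ)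
    (KD : I → ℝ) (hK : ∀ i, 1 ≤ KD i) (hD : ∀ j i, LevS P (D j i) (KD i)) (m : I → ℕ)
    (B : Finset J) (M : ℕ) (b : J → ℕ) (w : (J → Option I) → ℝ) (wm : ℝ) (hw0 : 0 ≤ wm)
    (hw : ∀ l, |w l| ≤ wm) :
    Lev (∏ p ∈ P, p) (fun t => LW D (adm B m) w (fun j => hit P (b j + M * t)))
      (wm * (3 * ((Fintype.card I : ℝ) * Fintype.card J + 1) ^ (∑ i, m i) *
        ∏ i, KD i ^ m i)) := by
  have hQ : 0 < ∏ p ∈ P, p := Finset.prod_pos fun p hp => (hP p hp).pos
  have hfac : ∀ (o : Option I) (j : J), Lev (∏ p ∈ P, p)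
      (fun t => dg D j o (hit P (b j + M * t))) (o.elim 1 KD) := by
    intro o j
    cases o with
    | none =>
      have h1 := Lev.const hQ 1
      rw [abs_one] at h1
      exact h1
    | some i => exact hD j i M (b j)
  have hterm : ∀ l ∈ adm B m, Lev (∏ p ∈ P, p)
      (fun t => w l * ∏ j, dg D j (l j) (hit P (b j + M * t))) (wm * ∏ i, KD i ^ m i) := by
    intro l hl
    rw [lv4_mem_adm] at hl
    have h1 := Lev.prod (univ : Finset J) (fun j t => dg D j (l j) (hit P (b j + M * t)))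
      (fun j => (l j).elim 1 KD) hQ (fun j _ => hfac (l j) j)
    have h2 := h1.const_mul (w l)
    refine Lev.mono _ _ _ h2 ?_
    rw [lv4_prod_kd]
    have h3 : ∏ i, KD i ^ cnt l i ≤ ∏ i, KD i ^ m i := by
      apply Finset.prod_le_prod
      · intro i _
        exact pow_nonneg (by linarith [hK i]) _
      · intro i _
        exact pow_le_pow_right₀ (hK i) (hl.2 i)
    have h4 : 0 ≤ ∏ i, KD i ^ cnt l i :=
      Finset.prod_nonneg fun i _ => pow_nonneg (by linarith [hK i]) _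
    calc |w l| * ∏ i, KD i ^ cnt l i ≤ wm * ∏ i, KD i ^ cnt l i :=
          mul_le_mul_of_nonneg_right (hw l) h4
      _ ≤ wm * ∏ i, KD i ^ m i := mul_le_mul_of_nonneg_left h3 hw0
  have hs := Lev.sum (adm B m) (fun l t => w l * ∏ j, dg D j (l j) (hit P (b j + M * t)))
    (fun _ => wm * ∏ i, KD i ^ m i) hQ hterm
  unfold LW
  refine Lev.mono _ _ _ hs ?_
  rw [Finset.sum_const, nsmul_eq_mul]
  have h5 : 0 ≤ wm * ∏ i, KD i ^ m i :=
    mul_nonneg hw0 (Finset.prod_nonneg fun i _ => pow_nonneg (by linarith [hK i]) _)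
  calc ((adm B m).card : ℝ) * (wm * ∏ i, KD i ^ m i)
      ≤ (3 * ((Fintype.card I : ℝ) * Fintype.card J + 1) ^ (∑ i, m i)) *
        (wm * ∏ i, KD i ^ m i) := mul_le_mul_of_nonneg_right (card_adm_le B m) h5
    _ = _ := by ring

end Pool.Agent.Lib.H92G
end

-- from Lib.H15P.MK1
section

/-!
# Chunk MK1: verification of the hypotheses on the blocks (block ratio `4000`)
-/

open Finset

namespace Pool.Agent.Lib.H15P

/-- The constant bounding the sums over a block. -/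
noncomputable def sig : ℝ := 4 * Real.log (1000 * (4000 : ℕ))

theorem mk1_Tpos {n : ℕ} {T : ℝ} (hT2 : 2 ≤ T / 4000 ^ n) : 2 * 4000 ^ n ≤ T := by
  rw [le_div_iff₀ (by positivity)] at hT2
  exact hT2

/-- `T/κ^i` is decreasing in `i` -/
theorem mk1_div_le {n i : ℕ} {T : ℝ} (hT2 : 2 ≤ T / 4000 ^ n) (hi : i ≤ n) :
    T / 4000 ^ n ≤ T / ((4000 : ℕ) : ℝ) ^ i := by
  have h1 := mk1_Tpos hT2
  have h2 : (0 : ℝ) < 4000 ^ n := by positivity
  push_cast
  apply div_le_div_of_nonneg_left (by linarith) (by positivity)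
  exact pow_le_pow_right₀ (by norm_num) hi

theorem mk1_big (W : ℕ) (T : ℝ) : ∀ p ∈ PP W T, W < p := by
  intro p hp
  unfold PP at hp
  rw [Finset.mem_filter, Finset.mem_Ioc] at hp
  exact hp.1.1

/-- Chunk MK1. `block_sum_le`, `p0_le` (`1000/4000 = 1/4`; for `b < n`:
`T/κ^(b+1) ≥ T/κ^n`), `qq ≤ 2/p ≤ 1/2`, and `4000^n ≤ T/2` gives `n ≤ N`. -/
theorem blocks_ok (W K n r0 : ℕ) (T : ℝ) (hW : 2 ≤ W) (hK : 1 ≤ K) (hKW : 4 * K ^ 2 ≤ W)
    (hr0 : ∀ c S : ℕ, ∑ s ∈ Ioc (2 * (r0 + c)) S, (16 * sig) ^ s / (s.factorial : ℝ)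
      ≤ (1 / 4) ^ (c + 1))
    (hT1 : Real.log W ≤ T / 4000 ^ n) (hT2 : 2 ≤ T / 4000 ^ n) :
    Blocks (qq (PP W T) K) (fun i => bk 4000 T i.1) sig r0 n (Nat.log 4000 ⌊2 * T⌋₊ + 1) := by
  have hT := mk1_Tpos hT2
  have h4 : (0 : ℝ) < 4000 ^ n := by positivity
  refine ⟨fun i => qq_nonneg _ _ i, ?_, ?_, hr0, ?_, ?_⟩
  · intro i
    have h1 := qq_le (PP W T) W K hK hKW (mk1_big W T) i
    refine h1.trans ?_
    have h2 := mk1_big W T i.1 i.2
    have h3 : 4 ≤ W := by nlinarith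
    have h5 : (4 : ℝ) ≤ (i.1 : ℝ) := by
      have : 4 ≤ i.1 := by omega
      exact_mod_cast this
    rw [div_le_iff₀ (by linarith)]
    linarith
  · intro b
    exact block_sum_le 4000 W K T (by norm_num) hW hK hKW (by linarith) b
  · have h1 : (4000 : ℕ) ^ n ≤ ⌊2 * T⌋₊ := by
      apply Nat.le_floor
      push_cast
      linarith
    have h2 : n ≤ Nat.log 4000 ⌊2 * T⌋₊ := Nat.le_log_of_pow_le (by norm_num) h1
    omega
  · intro b hb
    have h1 := p0_le 4000 W K T (by norm_num) hW hK hKW b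
      (hT1.trans (mk1_div_le hT2 (by omega))) (hT2.trans (mk1_div_le hT2 (by omega)))
    refine h1.trans ?_
    norm_num

end Pool.Agent.Lib.H15P
end

-- from Lib.H15P.MK2
section

/-!
# Chunk MK2: construction of the data from numerical inequalities
-/

open Finset

namespace Pool.Agent.Lib.H15P

theorem mk2_prime (W : ℕ) (T : ℝ) : ∀ p ∈ PP W T, p.Prime := by
  intro p hp
  unfold PP at hp
  rw [Finset.mem_filter] at hp
  exact hp.2

theorem mk2_LevS_mono {P : Finset ℕ} {F : Finset {p // p ∈ P} → ℝ} {K K' : ℝ}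
    (h : LevS P F K) (hK : K ≤ K') : LevS P F K' :=
  fun M b => Lev.mono _ _ _ (h M b) hK


end Pool.Agent.Lib.H15P
end

-- from Lib.H57C.BH2
section

/-!
# Chunk BH2: the Brun-Hooley sieve for weighted sequences with remainder terms
-/

open Finset

namespace Pool.Agent.Lib.H57C

open Pool.Agent.Lib.Sieve

theorem bh2_blockE (k z : ℕ) (Q : Finset ℕ)
    (hQ : ∀ q ∈ Q, q.Prime ∧ 2 * k + 2 < q ∧ q ≤ z) (g : ℕ → ℝ) (hg0 : ∀ q, 0 ≤ g q)
    (hg : ∀ q ∈ Q, g q ≤ k / q) (j : ℕ) :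
    poly (cE (bj k j + 1)) g (Q.filter (fun q => blk z q = j)) ≤
      epsj k j * ∏ p ∈ Q.filter (fun q => blk z q = j), (1 - g p) := by
  set R := Q.filter (fun q => blk z q = j) with hR
  have hsub : R ⊆ blockSet (2 * k + 2) z j := by
    intro q hq
    rw [hR, mem_filter] at hq
    rw [mem_blockSet]
    exact ⟨hQ q hq.1, hq.2⟩
  have hRQ : ∀ q ∈ R, q ∈ Q := fun q hq => (mem_filter.1 hq).1
  have hg1 : ∀ p ∈ R, g p ≤ 1 / 2 := fun p hp => by
    have h1 := hg p (hRQ p hp)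
    have h2 := (hQ p (hRQ p hp)).2.1
    refine h1.trans ?_
    have hp0 : (0 : ℝ) < p := by
      have : 0 < p := by omega
      exact_mod_cast this
    rw [div_le_iff₀ hp0]
    have h3 : (2 * k + 2 : ℝ) < p := by exact_mod_cast h2
    linarith
  have hsum : ∑ p ∈ R, g p ≤ 6 * k := by
    calc ∑ p ∈ R, g p ≤ ∑ p ∈ R, (k : ℝ) * (1 / p) :=
          Finset.sum_le_sum fun p hp => by
            rw [mul_one_div]
            exact hg p (hRQ p hp)
      _ = k * ∑ p ∈ R, (1 : ℝ) / p := by rw [Finset.mul_sum]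
      _ ≤ k * ∑ p ∈ blockSet (2 * k + 2) z j, (1 : ℝ) / p := by
          refine mul_le_mul_of_nonneg_left ?_ (Nat.cast_nonneg _)
          exact sum_le_sum_of_subset_of_nonneg hsub (fun p _ _ => by positivity)
      _ ≤ k * 6 := mul_le_mul_of_nonneg_left (block_sum_inv _ _ _) (Nat.cast_nonneg _)
      _ = 6 * k := by ring
  have h1 := rankinE (f := g) (Q := R) (fun p _ => hg0 p) (bj k j + 1) (l := 2) (by norm_num)
  have h2 : ∏ p ∈ R, (1 + 2 * g p) ≤ Real.exp (∑ p ∈ R, 2 * g p) :=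
    prod_one_add_le fun p _ => by
      have := hg0 p
      linarith
  rw [← Finset.mul_sum] at h2
  have h3 : Real.exp (2 * ∑ p ∈ R, g p) ≤ Real.exp (12 * k) :=
    Real.exp_le_exp.mpr (by linarith)
  have h4 : Real.exp (-(12 * k)) ≤ ∏ p ∈ R, (1 - g p) :=
    (Real.exp_le_exp.mpr (by linarith)).trans (prod_one_sub_ge (fun p _ => hg0 p) hg1)
  have h5 : (0 : ℝ) < 2 ^ (bj k j + 1) := by positivity
  have h6 : poly (cE (bj k j + 1)) g R ≤ Real.exp (12 * k) / 2 ^ (bj k j + 1) := by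
    rw [le_div_iff₀ h5]
    linarith
  refine h6.trans ?_
  unfold epsj
  have h7 : Real.exp (12 * k) = Real.exp (24 * k) * Real.exp (-(12 * k)) := by
    rw [← Real.exp_add]
    congr 1
    ring
  rw [h7]
  have h8 : 0 ≤ Real.exp (24 * k) / 2 ^ (bj k j + 1) := by positivity
  calc Real.exp (24 * k) * Real.exp (-(12 * k)) / 2 ^ (bj k j + 1)
      = Real.exp (24 * k) / 2 ^ (bj k j + 1) * Real.exp (-(12 * k)) := by ring
    _ ≤ Real.exp (24 * k) / 2 ^ (bj k j + 1) * ∏ p ∈ R, (1 - g p) :=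
        mul_le_mul_of_nonneg_left h4 h8

/-- The level. -/
theorem bh2_level (k z : ℕ) (hz : 2 ≤ z) (Q : Finset ℕ)
    (hQ : ∀ q ∈ Q, q.Prime ∧ 2 * k + 2 < q ∧ q ≤ z) (E : Finset ℕ) (hE : E ⊆ Q)
    (hc : ∀ j ∈ range (z + 1), (E ∩ Q.filter (fun q => blk z q = j)).card ≤ bj k j + 1) :
    ∏ q ∈ E, q ≤ z ^ (96 * k + 10) := by
  have hz0 : (0 : ℝ) < z := by
    have : 0 < z := by omega
    exact_mod_cast this
  have hz1 : (1 : ℝ) ≤ z := by
    have : 1 ≤ z := by omega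
    exact_mod_cast this
  have hlog : 0 ≤ Real.log z := Real.log_nonneg hz1
  have hEf : ∀ j, E ∩ Q.filter (fun q => blk z q = j) = E.filter (fun q => blk z q = j) := by
    intro j
    ext q
    rw [mem_inter, mem_filter, mem_filter]
    constructor
    · rintro ⟨h1, -, h2⟩
      exact ⟨h1, h2⟩
    · rintro ⟨h1, h2⟩
      exact ⟨h1, hE h1, h2⟩
  have h1 : ∏ q ∈ E, (q : ℝ) = ∏ j ∈ range (z + 1), ∏ q ∈ E.filter (fun q => blk z q = j), (q : ℝ) := by
    symm
    apply Finset.prod_fiberwise_of_maps_to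
    intro p _
    exact Finset.mem_range.mpr (Nat.lt_succ_of_le (blk_le z p))
  have h2 : ∀ j ∈ range (z + 1), ∏ q ∈ E.filter (fun q => blk z q = j), (q : ℝ) ≤
      Real.exp (((48 * k + 3 : ℝ) + 2 * j) / 2 ^ j * Real.log z) := by
    intro j hj
    have h3 : ∀ q ∈ E.filter (fun q => blk z q = j), (q : ℝ) ≤ Real.exp (Real.log z / 2 ^ j) := by
      intro q hq
      rw [mem_filter] at hq
      have hqq := hQ q (hE hq.1)
      have h6 := (blk_spec hqq.1 hqq.2.2).1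
      rw [hq.2] at h6
      have hq0 : (0 : ℝ) < q := by exact_mod_cast hqq.1.pos
      have h7 : Real.log ((q : ℝ) ^ (2 ^ j)) ≤ Real.log z := by
        apply Real.log_le_log (by positivity)
        exact_mod_cast h6
      rw [Real.log_pow] at h7
      push_cast at h7
      rw [← Real.log_le_iff_le_exp hq0, le_div_iff₀ (by positivity)]
      linarith
    have h4 : ∏ q ∈ E.filter (fun q => blk z q = j), (q : ℝ) ≤
        Real.exp (Real.log z / 2 ^ j) ^ (E.filter (fun q => blk z q = j)).card := by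
      rw [← prod_const]
      exact prod_le_prod (fun q _ => Nat.cast_nonneg _) h3
    refine h4.trans ?_
    have h5 := hc j hj
    rw [hEf j] at h5
    have h6 : (1 : ℝ) ≤ Real.exp (Real.log z / 2 ^ j) := Real.one_le_exp (by positivity)
    refine (pow_le_pow_right₀ h6 h5).trans (le_of_eq ?_)
    rw [← Real.exp_nat_mul]
    congr 1
    unfold bj
    push_cast
    ring
  have h3 : ∏ q ∈ E, (q : ℝ) ≤ (z : ℝ) ^ (96 * k + 10) := by
    rw [h1]
    refine (prod_le_prod (fun j _ => prod_nonneg (fun q _ => Nat.cast_nonneg _)) h2).trans ?_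
    rw [← Real.exp_sum, ← Finset.sum_mul]
    have h4 := sum_aux (48 * k + 3 : ℝ) (by positivity) (z + 1)
    have h5 : (∑ j ∈ range (z + 1), ((48 * k + 3 : ℝ) + 2 * j) / 2 ^ j) * Real.log z ≤
        ((96 * k + 10 : ℕ) : ℝ) * Real.log z := by
      refine mul_le_mul_of_nonneg_right (h4.trans (le_of_eq ?_)) hlog
      push_cast
      ring
    refine (Real.exp_le_exp.2 h5).trans (le_of_eq ?_)
    rw [Real.exp_nat_mul, Real.exp_log hz0]
  have h4 : ((∏ q ∈ E, q : ℕ) : ℝ) ≤ ((z ^ (96 * k + 10) : ℕ) : ℝ) := by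
    rw [Nat.cast_prod, Nat.cast_pow]
    exact h3
  exact Nat.cast_le.1 h4

open Classical in
theorem bh2_rem (k z : ℕ) (hz : 2 ≤ z) (Q : Finset ℕ)
    (hQ : ∀ q ∈ Q, q.Prime ∧ 2 * k + 2 < q ∧ q ≤ z) (g : ℕ → ℝ)
    {ι : Type} (S : Finset ι) (wt : ι → ℝ)
    (ev : ℕ → ι → Prop) (X : ℝ) (Rm : ℝ)
    (hRm : ∑ d ∈ (Icc 1 (z ^ (96 * k + 10))).filter
        (fun d => Squarefree d ∧ ∀ q ∈ d.primeFactors, q ∈ Q),
      |∑ i ∈ S.filter (fun i => ∀ q ∈ d.primeFactors, ev q i), wt i -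
        X * ∏ q ∈ d.primeFactors, g q| ≤ Rm) (l : Finset ℕ → ℝ) (hl : ∀ E, |l E| ≤ 1)
    (hc : ∀ E, l E ≠ 0 → ∀ j ∈ range (z + 1),
      (E ∩ Q.filter (fun q => blk z q = j)).card ≤ bj k j + 1) :
    |∑ E ∈ Q.powerset, l E * (∑ i ∈ S.filter (fun i => ∀ q ∈ E, ev q i), wt i) -
      X * ∑ E ∈ Q.powerset, l E * ∏ q ∈ E, g q| ≤ Rm := by
  have hP : ∀ E ⊆ Q, (∏ q ∈ E, q).primeFactors = E := fun E hE =>
    Nat.primeFactors_prod (fun p hp => (hQ p (hE hp)).1)
  rw [mul_sum, ← sum_sub_distrib]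
  refine (abs_sum_le_sum_abs _ _).trans (le_trans ?_ hRm)
  have h1 : ∀ E ∈ Q.powerset, |l E * (∑ i ∈ S.filter (fun i => ∀ q ∈ E, ev q i), wt i) -
      X * (l E * ∏ q ∈ E, g q)| ≤ if l E ≠ 0 then
        |∑ i ∈ S.filter (fun i => ∀ q ∈ E, ev q i), wt i - X * ∏ q ∈ E, g q| else 0 := by
    intro E _
    split_ifs with h
    · rw [show l E * (∑ i ∈ S.filter (fun i => ∀ q ∈ E, ev q i), wt i) - X * (l E * ∏ q ∈ E, g q) =
        l E * (∑ i ∈ S.filter (fun i => ∀ q ∈ E, ev q i), wt i - X * ∏ q ∈ E, g q) by ring, abs_mul]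
      exact mul_le_of_le_one_left (abs_nonneg _) (hl E)
    · rw [not_not] at h
      rw [h]
      simp
  refine (sum_le_sum h1).trans ?_
  rw [← sum_filter]
  have hinj : Set.InjOn (fun E : Finset ℕ => ∏ q ∈ E, q) (Q.powerset.filter (fun E => l E ≠ 0)) := by
    intro E hE E' hE' hh
    have a1 := hP E (mem_powerset.1 (mem_filter.1 (mem_coe.1 hE)).1)
    have a2 := hP E' (mem_powerset.1 (mem_filter.1 (mem_coe.1 hE')).1)
    rw [← a1, ← a2]
    exact congrArg Nat.primeFactors hh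
  have h2 : ∑ E ∈ Q.powerset.filter (fun E => l E ≠ 0),
      |∑ i ∈ S.filter (fun i => ∀ q ∈ E, ev q i), wt i - X * ∏ q ∈ E, g q| =
      ∑ d ∈ (Q.powerset.filter (fun E => l E ≠ 0)).image (fun E : Finset ℕ => ∏ q ∈ E, q),
        |∑ i ∈ S.filter (fun i => ∀ q ∈ d.primeFactors, ev q i), wt i -
          X * ∏ q ∈ d.primeFactors, g q| := by
    rw [sum_image hinj]
    refine sum_congr rfl (fun E hE => ?_)
    rw [hP E (mem_powerset.1 (mem_filter.1 hE).1)]
  rw [h2]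
  refine sum_le_sum_of_subset_of_nonneg ?_ (fun d _ _ => abs_nonneg _)
  intro d hd
  rw [mem_image] at hd
  obtain ⟨E, hE, rfl⟩ := hd
  rw [mem_filter, mem_powerset] at hE
  rw [mem_filter, mem_Icc]
  refine ⟨⟨?_, ?_⟩, ?_, ?_⟩
  · exact Nat.one_le_iff_ne_zero.2 (prod_ne_zero_iff.2 (fun q hq => (hQ q (hE.1 hq)).1.ne_zero))
  · exact bh2_level k z hz Q hQ E hE.1 (hc E hE.2)
  · refine Finset.squarefree_prod_of_pairwise_isCoprime ?_ ?_
    · intro p hp q hq hpq
      exact Nat.coprime_iff_isRelPrime.1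
        ((Nat.coprime_primes (hQ p (hE.1 (Finset.mem_coe.1 hp))).1
          (hQ q (hE.1 (Finset.mem_coe.1 hq))).1).2 hpq)
    · intro p hp
      exact (hQ p (hE.1 hp)).1.squarefree
  · rw [hP E hE.1]
    exact hE.1

open Classical in
theorem bh (k z : ℕ) (hz : 2 ≤ z) (hk : 1 ≤ k) (Q : Finset ℕ)
    (hQ : ∀ q ∈ Q, q.Prime ∧ 2 * k + 2 < q ∧ q ≤ z) (g : ℕ → ℝ) (hg0 : ∀ q, 0 ≤ g q)
    (hg : ∀ q ∈ Q, g q ≤ k / q) {ι : Type} (S : Finset ι) (wt : ι → ℝ) (hw : ∀ i ∈ S, 0 ≤ wt i)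
    (ev : ℕ → ι → Prop) (X : ℝ) (hX : 0 ≤ X) (Rm : ℝ)
    (hRm : ∑ d ∈ (Icc 1 (z ^ (96 * k + 10))).filter
        (fun d => Squarefree d ∧ ∀ q ∈ d.primeFactors, q ∈ Q),
      |∑ i ∈ S.filter (fun i => ∀ q ∈ d.primeFactors, ev q i), wt i -
        X * ∏ q ∈ d.primeFactors, g q| ≤ Rm) :
    X / 2 * ∏ q ∈ Q, (1 - g q) - Rm ≤ ∑ i ∈ S.filter (fun i => ∀ q ∈ Q, ¬ ev q i), wt i ∧
    ∑ i ∈ S.filter (fun i => ∀ q ∈ Q, ¬ ev q i), wt i ≤ 2 * X * ∏ q ∈ Q, (1 - g q) + Rm := by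
  have _ := hk
  have hbU : (range (z + 1)).biUnion (fun j => Q.filter (fun q => blk z q = j)) = Q := by
    ext q
    rw [mem_biUnion]
    constructor
    · rintro ⟨j, _, h⟩
      exact (mem_filter.1 h).1
    · intro h
      exact ⟨blk z q, Finset.mem_range.mpr (Nat.lt_succ_of_le (blk_le z q)), mem_filter.2 ⟨h, rfl⟩⟩
  have hg1 : ∀ q ∈ Q, g q ≤ 1 := by
    intro p hp
    have h1 := hg p hp
    have h2 := (hQ p hp).2.1
    refine h1.trans ?_
    have hp0 : (0 : ℝ) < p := by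
      have : 0 < p := by omega
      exact_mod_cast this
    rw [div_le_iff₀ hp0]
    have h3 : (2 * k + 2 : ℝ) < p := by exact_mod_cast h2
    linarith [Nat.cast_nonneg (α := ℝ) k]
  obtain ⟨lp, lm, hlp, hlm, hlev, hpt, hm1, hm2⟩ := bh_weights
    (fun j => Q.filter (fun q => blk z q = j)) (range (z + 1)) (bj k) (fun j _ => bj_even k j)
    (fun i _ j _ hij => by
      rw [Finset.disjoint_left]
      intro p hp hp'
      exact hij ((mem_filter.mp hp).2.symm.trans (mem_filter.mp hp').2))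
    g (fun p _ => hg0 p) (fun p hp => hg1 p (by rwa [hbU] at hp)) (epsj k)
    (fun j _ => epsj_nonneg k j) (fun j _ => bh2_blockE k z Q hQ g hg0 hg j) (sum_epsj k (z + 1))
  rw [hbU] at hm1 hm2
  have hpt' : ∀ i : ι, ∑ E ∈ Q.powerset, lm E * ∏ p ∈ E, (if ev p i then (1 : ℝ) else 0) ≤
      (if ∀ q ∈ Q, ¬ ev q i then (1 : ℝ) else 0) ∧ (if ∀ q ∈ Q, ¬ ev q i then (1 : ℝ) else 0) ≤
      ∑ E ∈ Q.powerset, lp E * ∏ p ∈ E, (if ev p i then (1 : ℝ) else 0) := by
    intro i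
    have h1 := hpt (fun p => if ev p i then (1 : ℝ) else 0) (fun p => by split_ifs <;> norm_num)
      (fun p => by split_ifs <;> norm_num)
    rw [hbU] at h1
    have h2 : ∏ p ∈ Q, (1 - (if ev p i then (1 : ℝ) else 0)) =
        (if ∀ q ∈ Q, ¬ ev q i then (1 : ℝ) else 0) := by
      split_ifs with h
      · apply prod_eq_one
        intro p hp
        rw [if_neg (h p hp)]
        norm_num
      · push Not at h
        obtain ⟨q, hq, he⟩ := h
        refine prod_eq_zero hq ?_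
        rw [if_pos he]
        norm_num
    rw [h2] at h1
    exact h1
  have hprod : ∀ (i : ι) (E : Finset ℕ), ∏ p ∈ E, (if ev p i then (1 : ℝ) else 0) =
      if ∀ q ∈ E, ev q i then (1 : ℝ) else 0 := by
    intro i E
    split_ifs with h
    · exact prod_eq_one (fun p hp => if_pos (h p hp))
    · push Not at h
      obtain ⟨q, hq, he⟩ := h
      exact prod_eq_zero hq (if_neg he)
  have hswap : ∀ l : Finset ℕ → ℝ, ∑ i ∈ S, wt i * ∑ E ∈ Q.powerset, l E *
      ∏ p ∈ E, (if ev p i then (1 : ℝ) else 0) =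
      ∑ E ∈ Q.powerset, l E * (∑ i ∈ S.filter (fun i => ∀ q ∈ E, ev q i), wt i) := by
    intro l
    simp_rw [mul_sum]
    rw [sum_comm]
    refine sum_congr rfl (fun E _ => ?_)
    rw [sum_filter]
    refine sum_congr rfl (fun i _ => ?_)
    rw [hprod i E]
    split_ifs <;> ring
  have hlhs : ∑ i ∈ S.filter (fun i => ∀ q ∈ Q, ¬ ev q i), wt i =
      ∑ i ∈ S, wt i * (if ∀ q ∈ Q, ¬ ev q i then (1 : ℝ) else 0) := by
    rw [sum_filter]
    refine sum_congr rfl (fun i _ => ?_)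
    split_ifs <;> ring
  have hr1 := bh2_rem k z hz Q hQ g S wt ev X Rm hRm lp hlp (fun E hE => hlev E (Or.inl hE))
  have hr2 := bh2_rem k z hz Q hQ g S wt ev X Rm hRm lm hlm (fun E hE => hlev E (Or.inr hE))
  rw [abs_le] at hr1 hr2
  rw [hlhs]
  constructor
  · have h1 : ∑ i ∈ S, wt i * ∑ E ∈ Q.powerset, lm E * ∏ p ∈ E, (if ev p i then (1 : ℝ) else 0) ≤
        ∑ i ∈ S, wt i * (if ∀ q ∈ Q, ¬ ev q i then (1 : ℝ) else 0) :=
      sum_le_sum (fun i hi => mul_le_mul_of_nonneg_left (hpt' i).1 (hw i hi))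
    rw [hswap lm] at h1
    have h2 := mul_le_mul_of_nonneg_left hm1 hX
    linarith [hr2.1]
  · have h1 : ∑ i ∈ S, wt i * (if ∀ q ∈ Q, ¬ ev q i then (1 : ℝ) else 0) ≤
        ∑ i ∈ S, wt i * ∑ E ∈ Q.powerset, lp E * ∏ p ∈ E, (if ev p i then (1 : ℝ) else 0) :=
      sum_le_sum (fun i hi => mul_le_mul_of_nonneg_left (hpt' i).2 (hw i hi))
    rw [hswap lp] at h1
    have h2 := mul_le_mul_of_nonneg_left hm2 hX
    linarith [hr1.2]

end Pool.Agent.Lib.H57C
end

-- from Lib.Sieve.Gap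
section

/-!
# Existence of integers avoiding residue classes (lower bound sieve)
-/

namespace Pool.Agent.Lib.Sieve

open Finset

/-- The product `∏ (1 - chi)` is the indicator of avoiding all classes. -/
theorem prod_one_sub_chi (Ω : (p : ℕ) → Finset (ZMod p)) (P : Finset ℕ) (u : ℤ) :
    ∏ p ∈ P, (1 - chi Ω p u) = if ∀ p ∈ P, (u : ZMod p) ∉ Ω p then 1 else 0 := by
  classical
  by_cases h : ∀ p ∈ P, (u : ZMod p) ∉ Ω p
  · rw [if_pos h]
    apply Finset.prod_eq_one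
    intro p hp
    unfold chi
    rw [if_neg (h p hp)]
    ring
  · rw [if_neg h]
    push Not at h
    obtain ⟨p, hp, hu⟩ := h
    apply Finset.prod_eq_zero hp
    unfold chi
    rw [if_pos hu]
    ring



end Pool.Agent.Lib.Sieve
end

-- from Lib.H59C.CCV
section

/-!
# CCV: covering by boxes
-/

open Finset

namespace Pool.Agent.Lib.H59C

theorem ccv_lv_zero (δ : ℝ) : lv δ 0 = 1 := by
  unfold lv
  simp

/-- The index of a number. -/
theorem ccv_index (δ : ℝ) (hδ : 0 < δ) (m : ℕ) (hm : 2 ≤ m) :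
    ∃ i : ℕ, lv δ i < m ∧ m ≤ lv δ (i + 1) := by
  have hex : ∃ k, m ≤ lv δ k := by
    obtain ⟨k, hk⟩ := pow_unbounded_of_one_lt (m : ℝ) (by linarith : (1 : ℝ) < 1 + δ)
    refine ⟨k, ?_⟩
    unfold lv
    exact Nat.le_floor hk.le
  classical
  obtain ⟨k, hk⟩ : ∃ k, k = Nat.find hex := ⟨_, rfl⟩
  have h1 : m ≤ lv δ k := by rw [hk]; exact Nat.find_spec hex
  have h2 : k ≠ 0 := by
    intro h
    rw [h, ccv_lv_zero] at h1
    omega
  refine ⟨k - 1, ?_, ?_⟩
  · have h3 := Nat.find_min hex (m := k - 1) (by rw [← hk]; omega)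
    omega
  · rw [Nat.sub_add_cancel (by omega)]
    exact h1

/-- The bound for the index. -/
theorem ccv_index_le (δ : ℝ) (hδ : 0 < δ) (hδ1 : δ ≤ 1 / 100) (n m i : ℕ) (hn : 2 ≤ n)
    (hm : m ≤ 2 * n) (hi : lv δ i < m) : i < ⌊4 * Real.log n / δ⌋₊ + 1 := by
  have hn' : (2 : ℝ) ≤ n := by exact_mod_cast hn
  have h1 : (1 + δ) ^ i < m := by
    unfold lv at hi
    exact (Nat.floor_lt (by positivity)).mp hi
  have h2 : (1 + δ) ^ i ≤ 2 * n := by
    have : (m : ℝ) ≤ 2 * n := by exact_mod_cast hm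
    linarith
  have h3 := Real.log_le_log (by positivity) h2
  rw [Real.log_pow, Real.log_mul (by norm_num) (by linarith)] at h3
  have h4 : Real.log 2 ≤ Real.log n := Real.log_le_log (by norm_num) hn'
  have h5 : δ / 2 ≤ Real.log (1 + δ) := by
    have h6 := Real.one_sub_inv_le_log_of_pos (by linarith : 0 < 1 + δ)
    have h7 : δ / 2 ≤ 1 - (1 + δ)⁻¹ := by
      have : 1 - (1 + δ)⁻¹ = δ / (1 + δ) := by
        field_simp
        ring
      rw [this, div_le_div_iff₀ (by norm_num) (by linarith)]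
      nlinarith
    linarith
  have h6 : (i : ℝ) ≤ 4 * Real.log n / δ := by
    rw [le_div_iff₀ hδ]
    have h7 : (i : ℝ) * (δ / 2) ≤ i * Real.log (1 + δ) :=
      mul_le_mul_of_nonneg_left h5 (Nat.cast_nonneg _)
    linarith
  have h7 : i ≤ ⌊4 * Real.log n / δ⌋₊ := Nat.le_floor h6
  omega

theorem ccv_al_nonneg (n : ℕ) (δ : ℝ) (b : ℕ × ℕ) (m : ℕ) : 0 ≤ al n δ b m := by
  unfold al
  split_ifs <;> norm_num

open Classical in
/-- Covering.

Proof. Let `p` be in the filter, `|N - p| = q1 q2 q3`, `m = q1 q2`, `q = q3`. Since `lv δ 0 = 1` and `lv δ i → ∞` there are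
(unique) `i, j` with `lv i < m ≤ lv (i+1)`, `lv j < q3 ≤ lv (j+1)`; `(1 + δ)^i < m ≤ 2 n` gives
`i ≤ log (2n)/log (1 + δ) ≤ 4 log n/δ` (`log (1 + δ) ≥ δ/2`), the same for `j`. `q2 ≤ q3 ≤ lv (j+1)`, so `al n δ (i,j) m = 1`, and
`(i, j) ∈ Rel`. Put `x = (m, q3) ∈ BX (lv (i+1)) (lv j) (lv (j+1))`: `bb N y2 x = p` (if `y2 < N` then `m q3 = N - p` and
`Nat.dist N (N - p) = p`; otherwise `N ≤ y1 < p`, `m q3 = p - N`), a prime, `p > y1 ≥ n/16 ≥ n^(1/6)`. Different `p` give different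
`(i, j, x)`. The weight is `1 ≤ al n δ (i,j) m · log q3/log (lv j)` (`q3 > lv j ≥ 2`, as `q3 ≥ (2n)^(1/3)` is large). -/
theorem cover (δ : ℝ) (hδ : 0 < δ) (hδ1 : δ ≤ 1 / 100) : ∃ n0 : ℕ, ∀ n : ℕ, n0 ≤ n →
    ∀ N y1 y2 : ℕ, Win n N y1 y2 →
    ((((Sq y1 y2).filter (fun p => Tri n (Nat.dist N p))).card : ℕ) : ℝ) ≤
      ∑ b ∈ Rel n N y1 y2 δ, 1 / Real.log (lv δ b.2) *
        ∑ x ∈ (BX (lv δ (b.1 + 1)) (lv δ b.2) (lv δ (b.2 + 1))).filter
          (fun x => (bb N y2 x).Prime ∧ (n : ℝ) ^ (1 / 6 : ℝ) ≤ bb N y2 x), wB (al n δ b) x := by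
  obtain ⟨n1, hn1⟩ := cdl_zz 4
  refine ⟨n1 + 1000, fun n hn N y1 y2 hW => ?_⟩
  have hN : (1000 : ℝ) ≤ n := by exact_mod_cast (by omega : 1000 ≤ n)
  have hz4 := hn1 n (by omega)
  have hyz : zz n ≤ yy n := by
    unfold zz yy
    calc (n : ℝ) ^ (1 / 8 : ℝ) ≤ (n : ℝ) ^ (1 / 3 : ℝ) :=
          Real.rpow_le_rpow_of_exponent_le (by linarith) (by norm_num)
      _ ≤ (2 * n : ℝ) ^ (1 / 3 : ℝ) :=
          Real.rpow_le_rpow (by linarith) (by linarith) (by norm_num)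
  obtain ⟨F, hF⟩ : ∃ F : ℕ × ℕ → Finset (ℕ × ℕ), F = fun b =>
    (BX (lv δ (b.1 + 1)) (lv δ b.2) (lv δ (b.2 + 1))).filter
          (fun x => (bb N y2 x).Prime ∧ (n : ℝ) ^ (1 / 6 : ℝ) ≤ bb N y2 x) := ⟨_, rfl⟩
  obtain ⟨t, ht⟩ : ∃ t : (_ : ℕ × ℕ) × (ℕ × ℕ) → ℝ, t = fun y =>
    1 / Real.log (lv δ y.1.2) * wB (al n δ y.1) y.2 := ⟨_, rfl⟩
  have ht0 : ∀ y, 0 ≤ t y := by
    intro y
    rw [ht]
    apply mul_nonneg
    · exact div_nonneg zero_le_one (Real.log_natCast_nonneg _)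
    · apply mul_nonneg (ccv_al_nonneg _ _ _ _)
      unfold lg
      exact Real.log_natCast_nonneg _
  -- the data of a prime
  have hdata : ∀ p ∈ (Sq y1 y2).filter (fun p => Tri n (Nat.dist N p)),
      ∃ y : (_ : ℕ × ℕ) × (ℕ × ℕ), y ∈ (Rel n N y1 y2 δ).sigma F ∧ bb N y2 y.2 = p ∧ 1 ≤ t y := by
    intro p hp
    rw [mem_filter, mem_Sq] at hp
    obtain ⟨⟨⟨hp1, hp2⟩, hpp⟩, q1, q2, q3, hq1, hq2, hq3, hz1, hy1, hy2, h23, hdist⟩ := hp
    have hdle : Nat.dist N p ≤ 2 * n := by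
      unfold Nat.dist
      have := hW.N2
      have := hW.le
      omega
    have hm2 : 2 ≤ q1 * q2 := by
      have := hq1.two_le
      have := hq2.two_le
      nlinarith
    have hmle : q1 * q2 ≤ 2 * n := by
      have h1 : q1 * q2 * 1 ≤ q1 * q2 * q3 := Nat.mul_le_mul_left _ hq3.one_lt.le
      rw [mul_one] at h1
      omega
    have hqle : q3 ≤ 2 * n := by
      have h1 : 1 * q3 ≤ q1 * q2 * q3 := Nat.mul_le_mul_right _ (by omega)
      omega
    obtain ⟨i, hi1, hi2⟩ := ccv_index δ hδ (q1 * q2) hm2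
    obtain ⟨j, hj1, hj2⟩ := ccv_index δ hδ q3 hq3.two_le
    have hal : al n δ (i, j) (q1 * q2) = 1 := by
      unfold al
      rw [if_pos]
      exact ⟨hi1, q1, q2, hq1, hq2, hz1, hy1, hy2, h23.trans hj2, rfl⟩
    have hyq3 : yy n ≤ q3 := by
      have : (q2 : ℝ) ≤ q3 := by exact_mod_cast h23
      linarith
    have hRel : (i, j) ∈ Rel n N y1 y2 δ := by
      unfold Rel
      rw [mem_filter, mem_product, mem_range, mem_range]
      exact ⟨⟨ccv_index_le δ hδ hδ1 n _ i (by omega) hmle hi1,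
        ccv_index_le δ hδ hδ1 n _ j (by omega) hqle hj1⟩,
        q1 * q2, q3, p, hi1, hi2, hj1, hj2, hq3, hal, hyq3, hp1, hp2, hdist⟩
    have hbb : bb N y2 (q1 * q2, q3) = p := by
      unfold bb
      show (if y2 < N then Nat.dist N (q1 * q2 * q3) else N + q1 * q2 * q3) = p
      rw [← hdist]
      unfold Nat.dist
      have h1 := hW.side
      split_ifs with h2
      · omega
      · omega
    have hplow : (n : ℝ) ^ (1 / 6 : ℝ) ≤ p := by
      have h1 : (n : ℝ) ≤ 16 * p := by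
        have h2 := hW.lo
        have h3 : n ≤ 16 * p := by omega
        exact_mod_cast h3
      have h2 : (n : ℝ) ^ (1 / 6 : ℝ) ≤ (n : ℝ) ^ (1 / 2 : ℝ) :=
        Real.rpow_le_rpow_of_exponent_le (by linarith) (by norm_num)
      have h3 : 16 ≤ (n : ℝ) ^ (1 / 2 : ℝ) := by
        rw [← Real.sqrt_eq_rpow]
        apply Real.le_sqrt_of_sq_le
        linarith
      have h4 : (n : ℝ) ^ (1 / 2 : ℝ) * (n : ℝ) ^ (1 / 2 : ℝ) = n := by
        rw [← Real.rpow_add (by linarith)]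
        norm_num
      nlinarith
    have hlv2 : 2 ≤ lv δ j := by
      have h1 : (q3 : ℝ) ≤ (1 + δ) ^ (j + 1) := by
        have h2 : (q3 : ℝ) ≤ (lv δ (j + 1) : ℝ) := by exact_mod_cast hj2
        have h3 : (lv δ (j + 1) : ℝ) ≤ (1 + δ) ^ (j + 1) := by
          unfold lv
          exact Nat.floor_le (by positivity)
        linarith
      have h2 : (3 : ℝ) ≤ (1 + δ) ^ j := by
        rw [pow_succ] at h1
        have h3 : (4 : ℝ) ≤ (1 + δ) ^ j * (1 + δ) := by linarith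
        have h4 : (0 : ℝ) < (1 + δ) ^ j := by positivity
        nlinarith
      unfold lv
      apply Nat.le_floor
      push_cast
      linarith
    refine ⟨⟨(i, j), (q1 * q2, q3)⟩, ?_, hbb, ?_⟩
    · rw [mem_sigma]
      refine ⟨hRel, ?_⟩
      rw [hF]
      show (q1 * q2, q3) ∈ (BX (lv δ (i + 1)) (lv δ j) (lv δ (j + 1))).filter
          (fun x => (bb N y2 x).Prime ∧ (n : ℝ) ^ (1 / 6 : ℝ) ≤ bb N y2 x)
      rw [mem_filter]
      constructor
      · unfold BX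
        rw [mem_product, mem_Icc, mem_Sq]
        exact ⟨⟨by show 1 ≤ q1 * q2; omega, hi2⟩, ⟨hj1, hj2⟩, hq3⟩
      · rw [hbb]
        exact ⟨hpp, hplow⟩
    · rw [ht]
      show 1 ≤ 1 / Real.log (lv δ j) * (al n δ (i, j) (q1 * q2) * lg q3)
      rw [hal, one_mul, one_div, ← div_eq_inv_mul]
      have h1 : (2 : ℝ) ≤ lv δ j := by exact_mod_cast hlv2
      have h2 : 0 < Real.log (lv δ j) := Real.log_pos (by linarith)
      rw [le_div_iff₀ h2, one_mul]
      unfold lg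
      apply Real.log_le_log (by linarith)
      exact_mod_cast hj1.le
  choose! f hf1 hf2 hf3 using hdata
  have hinj : Set.InjOn f ((Sq y1 y2).filter (fun p => Tri n (Nat.dist N p))) := by
    intro p hp p' hp' heq
    have h1 := hf2 p hp
    have h2 := hf2 p' hp'
    rw [← h1, ← h2, heq]
  calc ((((Sq y1 y2).filter (fun p => Tri n (Nat.dist N p))).card : ℕ) : ℝ)
      = ∑ p ∈ (Sq y1 y2).filter (fun p => Tri n (Nat.dist N p)), (1 : ℝ) := by
        rw [sum_const, nsmul_eq_mul, mul_one]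
    _ ≤ ∑ p ∈ (Sq y1 y2).filter (fun p => Tri n (Nat.dist N p)), t (f p) :=
        sum_le_sum fun p hp => hf3 p hp
    _ = ∑ y ∈ ((Sq y1 y2).filter (fun p => Tri n (Nat.dist N p))).image f, t y := by
        rw [sum_image hinj]
    _ ≤ ∑ y ∈ (Rel n N y1 y2 δ).sigma F, t y := by
        apply sum_le_sum_of_subset_of_nonneg
        · intro y hy
          rw [mem_image] at hy
          obtain ⟨p, hp, rfl⟩ := hy
          exact hf1 p hp
        · intro y _ _
          exact ht0 y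
    _ = ∑ b ∈ Rel n N y1 y2 δ, ∑ x ∈ F b, t ⟨b, x⟩ := by
        rw [sum_sigma]
    _ = _ := by
        apply sum_congr rfl
        intro b _
        rw [mul_sum, ht, hF]

end Pool.Agent.Lib.H59C
end

-- from Lib.H59C.CPW
section

/-!
# CPW: the pointwise inequality of the weighted sieve
-/

open Finset

namespace Pool.Agent.Lib.H59C

theorem CPW_yy (n : ℕ) : yy n ^ 3 = 2 * n := by
  unfold yy
  rw [← Real.rpow_natCast, ← Real.rpow_mul (by positivity)]
  norm_num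

theorem CPW_yy_le (n : ℕ) (hn : 2 ≤ n) : yy n ≤ n := by
  have hn0 : (2 : ℝ) ≤ n := by exact_mod_cast hn
  have h0 : 0 ≤ yy n := by unfold yy; positivity
  refine le_of_not_gt fun h => ?_
  have h1 : (n : ℝ) ^ 3 < yy n ^ 3 := pow_lt_pow_left₀ h (by linarith) (by norm_num)
  rw [CPW_yy] at h1
  have h2 : (4 : ℝ) ≤ (n : ℝ) ^ 2 := by nlinarith
  have h3 : (n : ℝ) ^ 3 = (n : ℝ) ^ 2 * n := by ring
  nlinarith

theorem CPW_one_le_yy (n : ℕ) (hn : 2 ≤ n) : 1 ≤ yy n := by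
  have hn0 : (2 : ℝ) ≤ n := by exact_mod_cast hn
  unfold yy
  exact Real.one_le_rpow (by linarith) (by norm_num)

/-- `1 < a < 2 n`, `a` odd. -/
theorem CPW_size {n N y1 y2 p : ℕ} (hn : 100 ≤ n) (hW : Win n N y1 y2) (hp : p ∈ Sq y1 y2) :
    1 < Nat.dist N p ∧ Nat.dist N p < 2 * n ∧ ¬ 2 ∣ Nat.dist N p := by
  rw [mem_Sq] at hp
  obtain ⟨⟨h1, h2⟩, hpr⟩ := hp
  have h3 := hW.lo
  have h4 := hW.N2
  have h5 := hW.le
  have hodd : ¬ 2 ∣ p := by
    intro h
    rw [Nat.prime_dvd_prime_iff_eq Nat.prime_two hpr] at h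
    omega
  have h6 := hW.even
  rcases hW.side with ⟨h7, h8⟩ | ⟨h7, h8⟩
  · rw [Nat.dist_eq_sub_of_le_right (by omega)]
    refine ⟨by omega, by omega, by omega⟩
  · rw [Nat.dist_eq_sub_of_le (by omega)]
    refine ⟨by omega, by omega, by omega⟩

open Classical in
/-- Chen's weights.

Proof. `p` is odd (`p > y1 ≥ n/16 ≥ 3`) and `N` even, so `a = |N - p|` is odd; a prime `q ∣ a` with `q ∣ N` divides `p`, so
`q = p ∣ N`: excluded. So every prime factor of `a` is in `PP n N p1` (odd, `≤ a ≤ 2n`; if `q > n`, then `q ≥ zz n` anyway) or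
`≥ zz n`; as no `q ∈ PP`, `q < zz n` divides `a`, all prime factors are `≥ z`. `a` is not divisible by the
square of a prime (they are `≥ z`), `1 < a < 2 n` (`a` odd), so `a` is a product of `Ω ≥ 1` distinct primes `≥ z`. Suppose
`Ω ≥ 3`. Let `r` be the number of its prime factors in `[z, y)`, all are in `QQ` (`q < y ≤ n`). If `r ≥ 2` the bracket is
`≤ 0`. If `r = 0`: `a ≥ y³ = 2n`, contradiction. If `r = 1`: at most two prime factors `≥ y` (three would give `a ≥ z · 2 n`),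
so exactly two, `Tri n a`, and the bracket is `1 - 1/2 - 1/2 = 0`. -/
theorem pointwise : ∃ n0 : ℕ, ∀ n : ℕ, n0 ≤ n → ∀ N y1 y2 p1 : ℕ, Win n N y1 y2 → ∀ p ∈ Sq y1 y2,
    ¬ p ∣ N → ¬ p1 ∣ Nat.dist N p → (∀ q : ℕ, q.Prime → zz n ≤ q → ¬ q ^ 2 ∣ Nat.dist N p) →
    (∀ q ∈ PP n N p1, (q : ℝ) < zz n → ¬ q ∣ Nat.dist N p) →
    0 < 1 - 1 / 2 * (((QQ n N p1).filter (fun q => q ∣ Nat.dist N p)).card : ℝ) -
      1 / 2 * (if Tri n (Nat.dist N p) then 1 else 0) →
    (∀ q : ℕ, q.Prime → q ∣ Nat.dist N p → (n : ℝ) ^ (1 / 10 : ℝ) ≤ q) ∧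
    ((Nat.dist N p).Prime ∨ ∃ r s : ℕ, r.Prime ∧ s.Prime ∧ Nat.dist N p = r * s) := by
  refine ⟨100, fun n hn N y1 y2 p1 hW p hp hpN hp1 hsq hsift hbr => ?_⟩
  obtain ⟨ha1, ha2, hodd⟩ := CPW_size hn hW hp
  have hppr : p.Prime := (mem_Sq.1 hp).2
  have hn1 : (100 : ℝ) ≤ n := by exact_mod_cast hn
  have hzn : zz n ≤ n := by
    unfold zz
    calc (n : ℝ) ^ (1 / 8 : ℝ) ≤ (n : ℝ) ^ (1 : ℝ) :=
          Real.rpow_le_rpow_of_exponent_le (by linarith) (by norm_num)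
      _ = n := Real.rpow_one _
  set a := Nat.dist N p with ha
  -- prime factors
  have hdiv : ∀ q : ℕ, q.Prime → q ∣ a → ¬ q ∣ N := by
    intro q hq hqa hqN
    have h1 : q ∣ p := by
      rcases le_total N p with h | h
      · rw [ha, Nat.dist_eq_sub_of_le h] at hqa
        have h2 := dvd_add hqa hqN
        rwa [Nat.sub_add_cancel h] at h2
      · rw [ha, Nat.dist_eq_sub_of_le_right h] at hqa
        have h2 := Nat.dvd_sub hqN hqa
        rwa [Nat.sub_sub_self h] at h2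
    rw [Nat.prime_dvd_prime_iff_eq hq hppr] at h1
    rw [h1] at hqN
    exact hpN hqN
  have hPP : ∀ q : ℕ, q.Prime → q ∣ a → q ≤ n → q ∈ PP n N p1 := by
    intro q hq hqa hqn
    rw [mem_PP]
    refine ⟨⟨?_, hqn⟩, hq, hdiv q hq hqa, ?_⟩
    · have h2 := hq.two_le
      rcases Nat.lt_or_ge 2 q with h | h
      · exact h
      · have h3 : q = 2 := by omega
        rw [h3] at hqa
        exact absurd hqa hodd
    · rintro rfl
      exact hp1 hqa
  have hz : ∀ q : ℕ, q.Prime → q ∣ a → zz n ≤ q := by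
    intro q hq hqa
    refine le_of_not_gt fun h => ?_
    have hqn : q ≤ n := by
      have : (q : ℝ) ≤ n := by linarith
      exact_mod_cast this
    exact hsift q (hPP q hq hqa hqn) h hqa
  have hsqf : Squarefree a := by
    rw [Nat.squarefree_iff_prime_squarefree]
    intro q hq hqa
    refine hsq q hq (hz q hq (dvd_trans (dvd_mul_right q q) hqa)) ?_
    rwa [pow_two]
  constructor
  · intro q hq hqa
    refine le_trans ?_ (hz q hq hqa)
    unfold zz
    exact Real.rpow_le_rpow_of_exponent_le (by linarith) (by norm_num)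
  -- small and large prime factors
  set A := a.primeFactors.filter (fun q : ℕ => (q : ℝ) < yy n) with hA
  set B := a.primeFactors.filter (fun q : ℕ => ¬ (q : ℝ) < yy n) with hB
  have hprod : (∏ q ∈ A, q) * ∏ q ∈ B, q = a := by
    rw [hA, hB, Finset.prod_filter_mul_prod_filter_not a.primeFactors (fun q : ℕ => (q : ℝ) < yy n)]
    exact Nat.prod_primeFactors_of_squarefree hsqf
  have hAm : ∀ q ∈ A, q.Prime ∧ q ∣ a ∧ (q : ℝ) < yy n := by
    intro q hq
    rw [hA, Finset.mem_filter, Nat.mem_primeFactors] at hq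
    exact ⟨hq.1.1, hq.1.2.1, hq.2⟩
  have hBm : ∀ q ∈ B, q.Prime ∧ q ∣ a ∧ yy n ≤ q := by
    intro q hq
    rw [hB, Finset.mem_filter, Nat.mem_primeFactors] at hq
    exact ⟨hq.1.1, hq.1.2.1, not_lt.1 hq.2⟩
  have hyn := CPW_yy_le n (by omega)
  have hy1 := CPW_one_le_yy n (by omega)
  have hAQ : A ⊆ (QQ n N p1).filter (fun q => q ∣ a) := by
    intro q hq
    obtain ⟨h1, h2, h3⟩ := hAm q hq
    rw [Finset.mem_filter]
    refine ⟨?_, h2⟩
    unfold QQ
    rw [Finset.mem_filter, mem_PR]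
    have hqn : q ≤ n := by
      have : (q : ℝ) ≤ n := by linarith
      exact_mod_cast this
    exact ⟨⟨h1, hz q h1 h2, h3⟩, hPP q h1 h2 hqn⟩
  have hAc : (A.card : ℝ) ≤ (((QQ n N p1).filter (fun q => q ∣ a)).card : ℝ) := by
    exact_mod_cast Finset.card_le_card hAQ
  have hT0 : (0 : ℝ) ≤ (if Tri n a then 1 else 0) := by split_ifs <;> norm_num
  have hA2 : A.card < 2 := by
    have h1 : (A.card : ℝ) < 2 := by linarith
    exact_mod_cast h1
  have hB3 : B.card < 3 := by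
    by_contra hc
    push Not at hc
    have h1 : (2 * n : ℝ) ≤ ((∏ q ∈ B, q : ℕ) : ℝ) := by
      rw [← CPW_yy, Nat.cast_prod]
      calc yy n ^ 3 ≤ yy n ^ B.card := pow_le_pow_right₀ hy1 hc
        _ = ∏ q ∈ B, yy n := by rw [Finset.prod_const]
        _ ≤ ∏ q ∈ B, (q : ℝ) :=
          Finset.prod_le_prod (fun q _ => by linarith) fun q hq => (hBm q hq).2.2
    have h2 : ∏ q ∈ B, q ≤ a :=
      Nat.le_of_dvd (by omega) ⟨∏ q ∈ A, q, by rw [mul_comm]; exact hprod.symm⟩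
    have h3 : (2 * n : ℝ) ≤ (a : ℝ) := h1.trans (by exact_mod_cast h2)
    have h4 : 2 * n ≤ a := by exact_mod_cast h3
    omega
  have hAcase : A.card = 0 ∨ A.card = 1 := by omega
  have hBcase : B.card = 0 ∨ B.card = 1 ∨ B.card = 2 := by omega
  rcases hAcase with hA0 | hA1
  · rw [Finset.card_eq_zero] at hA0
    rw [hA0, Finset.prod_empty, one_mul] at hprod
    rcases hBcase with hB0 | hB1 | hB2
    · rw [Finset.card_eq_zero] at hB0
      rw [hB0, Finset.prod_empty] at hprod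
      omega
    · obtain ⟨q, hq⟩ := Finset.card_eq_one.1 hB1
      rw [hq, Finset.prod_singleton] at hprod
      left
      rw [← hprod]
      exact (hBm q (by rw [hq]; exact Finset.mem_singleton_self q)).1
    · obtain ⟨q, r, hqr, hq⟩ := Finset.card_eq_two.1 hB2
      rw [hq, Finset.prod_pair hqr] at hprod
      right
      refine ⟨q, r, (hBm q ?_).1, (hBm r ?_).1, hprod.symm⟩
      · rw [hq]; simp
      · rw [hq]; simp
  · obtain ⟨s, hs⟩ := Finset.card_eq_one.1 hA1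
    have hs' := hAm s (by rw [hs]; exact Finset.mem_singleton_self s)
    rw [hs, Finset.prod_singleton] at hprod
    rcases hBcase with hB0 | hB1 | hB2
    · rw [Finset.card_eq_zero] at hB0
      rw [hB0, Finset.prod_empty, mul_one] at hprod
      left
      rw [← hprod]
      exact hs'.1
    · obtain ⟨q, hq⟩ := Finset.card_eq_one.1 hB1
      rw [hq, Finset.prod_singleton] at hprod
      right
      exact ⟨s, q, hs'.1, (hBm q (by rw [hq]; exact Finset.mem_singleton_self q)).1, hprod.symm⟩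
    · exfalso
      obtain ⟨q, r, hqr, hq⟩ := Finset.card_eq_two.1 hB2
      rw [hq, Finset.prod_pair hqr] at hprod
      have hqB := hBm q (by rw [hq]; simp)
      have hrB := hBm r (by rw [hq]; simp)
      have hTri : Tri n a := by
        rcases le_total q r with h | h
        · exact ⟨s, q, r, hs'.1, hqB.1, hrB.1, hz s hs'.1 hs'.2.1, hs'.2.2, hqB.2.2, h, by
            rw [mul_assoc]; exact hprod.symm⟩
        · exact ⟨s, r, q, hs'.1, hrB.1, hqB.1, hz s hs'.1 hs'.2.1, hs'.2.2, hrB.2.2, h, by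
            rw [mul_assoc, mul_comm r q]; exact hprod.symm⟩
      rw [if_pos hTri] at hbr
      rw [hA1, Nat.cast_one] at hAc
      linarith

end Pool.Agent.Lib.H59C
end

-- from Lib.H57M.B4
section

/-!
# Chunk B4: `le_EP`, `EX_erase_mul_hit_le`, `cf_fiber` with first moments
-/

open Finset

namespace Pool.Agent.Lib.H57M

open Pool.Agent.Lib.H15P Pool.Agent.Lib.H92G

variable {J : Type} [Fintype J] [DecidableEq J]

/-- `step1` of the proof of `H15P.le_EP`. -/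
theorem le_EP2 (P : Finset ℕ) (W K M : ℕ) (b : J → ℕ) (hF : Forms P W K M b)
    (F : (J → Finset {p // p ∈ P}) → ℝ) (h0 : ∀ S, 0 ≤ F S) :
    (1 - (K : ℝ) ^ 2 / W) * EX (qq P K) F - EX (qq P K) (fun S => F S * loss P K S)
      ≤ EP P M b F := by
  classical
  have hK1 : (1 : ℝ) ≤ K := by exact_mod_cast hF.one_le
  have hW1 : 1 ≤ W := by
    have := hF.KW
    have := hF.one_le
    nlinarith
  have hWr : (1 : ℝ) ≤ W := by exact_mod_cast hW1
  have hpW : ∀ i : {p // p ∈ P}, (W : ℝ) ≤ i.1 := by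
    intro i
    exact_mod_cast (hF.big i.1 i.2).le
  have hKW : 4 * (K : ℝ) ^ 2 ≤ W := by exact_mod_cast hF.KW
  have hp0 : ∀ i : {p // p ∈ P}, (0 : ℝ) < i.1 := fun i => by
    have := hpW i
    linarith
  have hq0 : ∀ i, 0 ≤ qq P K i := qq_nonneg P K
  have hq1 : ∀ i, qq P K i ≤ 1 := by
    intro i
    refine (qq_le P W K hF.one_le hF.KW hF.big i).trans ?_
    rw [div_le_one (hp0 i)]
    have := hpW i
    nlinarith
  have hbw : ∀ S : J → Finset {p // p ∈ P}, 0 ≤ ∏ j, bw (qq P K) (S j) := fun S =>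
    Finset.prod_nonneg fun j _ => bw_nonneg _ hq0 hq1 _
  -- step 1: the sum over the families
  have step1 : EX (qq P K) (fun S : J → Finset {p // p ∈ P} =>
      F S * ((1 - (K : ℝ) ^ 2 / W) - loss P K S)) ≤ EP P M b F := by
    rw [EP_eq P W K M b hF F]
    have e1 : ∑ κ : {p // p ∈ P} → Option J,
        F (cfg κ) * ((1 - (K : ℝ) ^ 2 / W - ∑ j, ∑ p ∈ cfg κ j, 2 * (K : ℝ) / (p.1 : ℝ)) *
          ∏ j, bw (qq P K) (cfg κ j)) ≤
        ∑ κ : {p // p ∈ P} → Option J, F (cfg κ) * ∏ i, ww J i.1 (κ i) :=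
      Finset.sum_le_sum fun κ _ => mul_le_mul_of_nonneg_left (prod_ww_ge P W K M b hF κ) (h0 _)
    refine le_trans ?_ e1
    set g : (J → Finset {p // p ∈ P}) → ℝ := fun S =>
      F S * ((1 - (K : ℝ) ^ 2 / W) - loss P K S) * ∏ j, bw (qq P K) (S j) with hg
    have e2 : ∑ κ : {p // p ∈ P} → Option J, g (cfg κ) =
        ∑ S ∈ (univ : Finset ({p // p ∈ P} → Option J)).image cfg, g S :=
      (Finset.sum_image (fun a _ b _ h => tr3_cfg_inj h)).symm
    have e3 : ∑ κ : {p // p ∈ P} → Option J,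
        F (cfg κ) * ((1 - (K : ℝ) ^ 2 / W - ∑ j, ∑ p ∈ cfg κ j, 2 * (K : ℝ) / (p.1 : ℝ)) *
          ∏ j, bw (qq P K) (cfg κ j)) = ∑ κ : {p // p ∈ P} → Option J, g (cfg κ) := by
      refine Finset.sum_congr rfl fun κ _ => ?_
      simp only [hg]
      have : loss P K (cfg κ) = ∑ j, ∑ p ∈ cfg κ j, 2 * (K : ℝ) / (p.1 : ℝ) := by
        unfold loss
        rw [if_neg, zero_add]
        rintro ⟨j, j', hjj, hd⟩
        exact hd (tr3_cfg_disj κ j j' hjj)
      rw [this]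
      ring
    rw [e3, e2]
    have e4 : EX (qq P K) (fun S : J → Finset {p // p ∈ P} =>
        F S * ((1 - (K : ℝ) ^ 2 / W) - loss P K S)) = ∑ S, g S := rfl
    rw [e4, ← Finset.sum_sdiff (Finset.subset_univ
      ((univ : Finset ({p // p ∈ P} → Option J)).image cfg))]
    have e5 : ∑ S ∈ univ \ (univ : Finset ({p // p ∈ P} → Option J)).image cfg, g S ≤ 0 := by
      refine Finset.sum_nonpos fun S hS => ?_
      rw [Finset.mem_sdiff, Finset.mem_image] at hS
      have hex : ∃ j j', j ≠ j' ∧ ¬ Disjoint (S j) (S j') := by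
        by_contra hcon
        push Not at hcon
        obtain ⟨κ, hκ⟩ := tr3_exists_cfg S hcon
        exact hS.2 ⟨κ, Finset.mem_univ _, hκ⟩
      have hl : 1 ≤ loss P K S := by
        unfold loss
        rw [if_pos hex]
        have : 0 ≤ ∑ j, ∑ p ∈ S j, 2 * (K : ℝ) / (p.1 : ℝ) :=
          Finset.sum_nonneg fun j _ => Finset.sum_nonneg fun p _ => by positivity
        linarith
      have hKW0 : 0 ≤ (K : ℝ) ^ 2 / W := by positivity
      simp only [hg]
      refine mul_nonpos_of_nonpos_of_nonneg ?_ (hbw S)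
      exact mul_nonpos_of_nonneg_of_nonpos (h0 S) (by linarith)
    linarith
  refine le_trans ?_ step1
  have e6 : EX (qq P K) (fun S : J → Finset {p // p ∈ P} =>
      F S * ((1 - (K : ℝ) ^ 2 / W) - loss P K S)) =
      (1 - (K : ℝ) ^ 2 / W) * EX (qq P K) F - EX (qq P K) (fun S => F S * loss P K S) := by
    unfold EX
    rw [Finset.mul_sum, ← Finset.sum_sub_distrib]
    exact Finset.sum_congr rfl fun S _ => by ring
  rw [← e6]




end Pool.Agent.Lib.H57M
end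

-- from Lib.H57M.B6
section

/-!
# Chunk B6: `EU_ge` with first moments
-/

open Finset

namespace Pool.Agent.Lib.H57M

open Pool.Agent.Lib.H15P Pool.Agent.Lib.H92G

variable {J : Type} [Fintype J] [DecidableEq J]

/-- Copy of the proof of `EU_ge` (`H92G/E6.lean`) with `le_EP2` instead of `le_EP`;
`EX (F 1[S j0 = ∅] loss) ≤ EX (F loss)` as `loss ≥ 0`. -/
theorem EU_ge2 (P : Finset ℕ) (W K M : ℕ) (b : J → ℕ) (hF : Forms P W K M b)
    (F : (J → Finset {p // p ∈ P}) → ℝ) (h0 : ∀ S, 0 ≤ F S) (j0 : J) :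
    (((∏ p ∈ P, p : ℕ) : ℝ) / ((∏ p ∈ P, p).totient : ℝ)) *
      ((1 - (K : ℝ) ^ 2 / W) * EX (qq P K) (fun S => F S * (if S j0 = ∅ then 1 else 0)) -
        EX (qq P K) (fun S => F S * loss P K S))
      ≤ EU P M (b j0) (fun t => F (fun j => hit P (b j + M * t))) := by
  have hq0 := qq_nonneg P K
  have hq1 := tr2_qq_le_one P W K hF.one_le hF.KW hF.big
  have hG0 : ∀ S, 0 ≤ F S * (if S j0 = ∅ then 1 else 0) := fun S =>
    mul_nonneg (h0 S) (by split_ifs <;> norm_num)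
  have h1 := le_EP2 P W K M b hF (fun S => F S * (if S j0 = ∅ then 1 else 0)) hG0
  have hl0 : ∀ S : J → Finset {p // p ∈ P}, 0 ≤ loss P K S := by
    intro S
    unfold loss
    refine add_nonneg (by split_ifs <;> norm_num) ?_
    exact Finset.sum_nonneg fun j _ => Finset.sum_nonneg fun p _ => by positivity
  have h2 : EX (qq P K) (fun S => (F S * (if S j0 = ∅ then 1 else 0)) * loss P K S)
      ≤ EX (qq P K) (fun S => F S * loss P K S) := by
    refine EX_mono _ hq0 hq1 _ _ fun S => ?_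
    refine mul_le_mul_of_nonneg_right ?_ (hl0 S)
    split_ifs
    · rw [mul_one]
    · rw [mul_zero]
      exact h0 S
  have hQ : 0 < ∏ p ∈ P, p := prod_pos fun p hp => (hF.prime p hp).pos
  have hQr : (0 : ℝ) < ((∏ p ∈ P, p : ℕ) : ℝ) := by exact_mod_cast hQ
  have hφ : (0 : ℝ) < ((∏ p ∈ P, p).totient : ℝ) := by exact_mod_cast Nat.totient_pos.2 hQ
  have h6 : (((∏ p ∈ P, p : ℕ) : ℝ) / ((∏ p ∈ P, p).totient : ℝ)) *
      EP P M b (fun S => F S * (if S j0 = ∅ then 1 else 0))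
      = EU P M (b j0) (fun t => F (fun j => hit P (b j + M * t))) := by
    unfold EP EU
    rw [div_mul_div_comm, mul_comm ((∏ p ∈ P, p).totient : ℝ), mul_div_mul_left _ _ hQr.ne',
      sum_filter]
    congr 1
    refine sum_congr rfl fun t _ => ?_
    have : hit P (b j0 + M * t) = ∅ ↔ (b j0 + M * t).Coprime (∏ p ∈ P, p) :=
      e6_hit P hF.prime _
    show F _ * (if hit P (b j0 + M * t) = ∅ then 1 else 0) = _
    by_cases h : hit P (b j0 + M * t) = ∅
    · rw [if_pos h, if_pos (this.1 h), mul_one]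
    · rw [if_neg h, if_neg (fun h' => h (this.2 h')), mul_zero]
  rw [← h6]
  refine mul_le_mul_of_nonneg_left ?_ (div_pos hQr hφ).le
  linarith

end Pool.Agent.Lib.H57M
end

-- from Lib.H59C.CRP
section

/-!
# CRP: the parameters of the relevant boxes
-/

open Finset

namespace Pool.Agent.Lib.H59C

theorem CRP_yy {n : ℕ} (hn : 1 ≤ n) {t : ℝ} (ht : t ≤ 1 / 3) : (n : ℝ) ^ t ≤ yy n := by
  have h1 : (1 : ℝ) ≤ n := by exact_mod_cast hn
  unfold yy
  calc (n : ℝ) ^ t ≤ (n : ℝ) ^ (1 / 3 : ℝ) := Real.rpow_le_rpow_of_exponent_le h1 ht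
    _ ≤ (2 * n : ℝ) ^ (1 / 3 : ℝ) :=
      Real.rpow_le_rpow (by linarith) (by linarith) (by norm_num)

theorem CRP_zz {n : ℕ} (hn : 1 ≤ n) {t : ℝ} (ht : t ≤ 1 / 8) : (n : ℝ) ^ t ≤ zz n := by
  have h1 : (1 : ℝ) ≤ n := by exact_mod_cast hn
  exact Real.rpow_le_rpow_of_exponent_le h1 ht

theorem CRP_al {n : ℕ} {δ : ℝ} {b : ℕ × ℕ} {m : ℕ} (h : al n δ b m ≠ 0) :
    lv δ b.1 < m ∧ ∃ q1 q2 : ℕ, q1.Prime ∧ q2.Prime ∧ zz n ≤ q1 ∧ (q1 : ℝ) < yy n ∧ yy n ≤ q2 ∧
    q2 ≤ lv δ (b.2 + 1) ∧ m = q1 * q2 := by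
  by_contra hc
  apply h
  unfold al
  rw [if_neg hc]

theorem CRP_box {δ : ℝ} (hδ : 0 < δ) (hδ1 : δ ≤ 1 / 100) {n : ℕ} (hn : 2 ^ 24 ≤ n)
    {N y1 y2 : ℕ} (W : Win n N y1 y2) {b : ℕ × ℕ} (hb : b ∈ Rel n N y1 y2 δ) :
    (n : ℝ) ^ (1 / 4 : ℝ) ≤ lv δ (b.1 + 1) ∧
      (n : ℝ) ^ (1 / 4 : ℝ) ≤ lv δ (b.2 + 1) ∧ (n : ℝ) ^ (1 / 4 : ℝ) ≤ lv δ b.2 ∧
      lv δ b.2 ≤ lv δ (b.2 + 1) ∧ lv δ (b.1 + 1) * lv δ (b.2 + 1) ≤ 8 * n := by
  have hn1 : 1 ≤ n := by omega
  have hn1' : (1 : ℝ) ≤ n := by exact_mod_cast hn1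
  unfold Rel at hb
  classical
  obtain ⟨-, m, q, p, hm1, hm2, hq1, hq2, hq, hal, hyq, hp1, hp2, hd⟩ := Finset.mem_filter.1 hb
  have hal' : al n δ b m ≠ 0 := by rw [hal]; norm_num
  obtain ⟨-, q1, q2, hq1p, hq2p, hz, -, hy, -, hmq⟩ := CRP_al hal'
  have h1δ : (1 : ℝ) ≤ 1 + δ := by linarith
  have h0δ : (0 : ℝ) ≤ 1 + δ := by linarith
  have c1 : (n : ℝ) ^ (1 / 4 : ℝ) ≤ lv δ (b.1 + 1) := by
    have h1 : (n : ℝ) ^ (1 / 4 : ℝ) ≤ q2 := (CRP_yy hn1 (by norm_num)).trans hy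
    have h2 : q2 ≤ m := by
      rw [hmq]
      exact Nat.le_mul_of_pos_left q2 hq1p.pos
    have h3 : (q2 : ℝ) ≤ lv δ (b.1 + 1) := by exact_mod_cast h2.trans hm2
    exact h1.trans h3
  have c2 : yy n ≤ lv δ (b.2 + 1) := hyq.trans (by exact_mod_cast hq2)
  have c3 : (n : ℝ) ^ (1 / 4 : ℝ) ≤ lv δ b.2 := by
    have h1 : (lv δ (b.2 + 1) : ℝ) ≤ (1 + δ) ^ (b.2 + 1) := Nat.floor_le (pow_nonneg h0δ _)
    have h2 : (1 + δ) ^ b.2 - 1 < (lv δ b.2 : ℝ) := Nat.sub_one_lt_floor _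
    have h3 : (n : ℝ) ^ (1 / 3 : ℝ) ≤ (1 + δ) ^ (b.2 + 1) :=
      ((CRP_yy hn1 le_rfl).trans c2).trans h1
    have h4 : (n : ℝ) ^ (1 / 3 : ℝ) = (n : ℝ) ^ (1 / 12 : ℝ) * (n : ℝ) ^ (1 / 4 : ℝ) := by
      rw [← Real.rpow_add (by linarith)]
      norm_num
    have h5 : (4 : ℝ) ≤ (n : ℝ) ^ (1 / 12 : ℝ) := by
      have h6 : ((2 : ℝ) ^ (24 : ℕ)) ^ (1 / 12 : ℝ) ≤ (n : ℝ) ^ (1 / 12 : ℝ) :=
        Real.rpow_le_rpow (by positivity) (by exact_mod_cast hn) (by norm_num)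
      have h7 : ((2 : ℝ) ^ (24 : ℕ)) ^ (1 / 12 : ℝ) = 4 := by
        rw [← Real.rpow_natCast, ← Real.rpow_mul (by norm_num)]
        norm_num
      linarith
    have h8 : (1 : ℝ) ≤ (n : ℝ) ^ (1 / 4 : ℝ) := Real.one_le_rpow hn1' (by norm_num)
    have h9 : 4 * (n : ℝ) ^ (1 / 4 : ℝ) ≤ (1 + δ) * (1 + δ) ^ b.2 := by
      have h10 : 4 * (n : ℝ) ^ (1 / 4 : ℝ) ≤ (n : ℝ) ^ (1 / 12 : ℝ) * (n : ℝ) ^ (1 / 4 : ℝ) :=
        mul_le_mul_of_nonneg_right h5 (by linarith)
      rw [pow_succ'] at h3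
      linarith
    have h11 : (0 : ℝ) ≤ (1 + δ) ^ b.2 := pow_nonneg h0δ _
    have h12 : (1 + δ) * (1 + δ) ^ b.2 ≤ 2 * (1 + δ) ^ b.2 :=
      mul_le_mul_of_nonneg_right (by linarith) h11
    linarith
  have c4 : lv δ b.2 ≤ lv δ (b.2 + 1) :=
    Nat.floor_le_floor (pow_le_pow_right₀ h1δ (Nat.le_succ _))
  refine ⟨c1, (CRP_yy hn1 (by norm_num)).trans c2, c3, c4, ?_⟩
  have h1 : (lv δ (b.2 + 1) : ℝ) ≤ (1 + δ) ^ (b.2 + 1) := Nat.floor_le (pow_nonneg h0δ _)
  have h2 : (lv δ (b.1 + 1) : ℝ) ≤ (1 + δ) ^ (b.1 + 1) := Nat.floor_le (pow_nonneg h0δ _)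
  have h3 : (1 + δ) ^ b.1 < m := (Nat.floor_lt (pow_nonneg h0δ _)).1 hm1
  have h4 : (1 + δ) ^ b.2 < q := (Nat.floor_lt (pow_nonneg h0δ _)).1 hq1
  have h5 : m * q ≤ 2 * n := by
    rw [← hd]
    have e1 := W.N2
    have e2 := W.le
    unfold Nat.dist
    omega
  have h6 : (m : ℝ) * q ≤ 2 * n := by exact_mod_cast h5
  have h7 : (1 + δ) ^ b.1 * (1 + δ) ^ b.2 ≤ 2 * n :=
    (mul_le_mul h3.le h4.le (pow_nonneg h0δ _) (Nat.cast_nonneg _)).trans h6
  have h8 : (lv δ (b.1 + 1) : ℝ) * lv δ (b.2 + 1) ≤ 8 * n := by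
    calc (lv δ (b.1 + 1) : ℝ) * lv δ (b.2 + 1) ≤ (1 + δ) ^ (b.1 + 1) * (1 + δ) ^ (b.2 + 1) :=
          mul_le_mul h2 h1 (Nat.cast_nonneg _) (pow_nonneg h0δ _)
      _ = (1 + δ) ^ 2 * ((1 + δ) ^ b.1 * (1 + δ) ^ b.2) := by ring
      _ ≤ 4 * (2 * n) := by
        apply mul_le_mul _ h7 (mul_nonneg (pow_nonneg h0δ _) (pow_nonneg h0δ _)) (by norm_num)
        nlinarith
      _ = 8 * n := by ring
  exact_mod_cast h8

/-- The parameters of the relevant boxes.

Proof. `m ≥ q1 q2 ≥ n^(1/8) (2n)^(1/3) ≥ n^(1/4)` and `m ≤ lv (i+1)`; `q ≥ (2n)^(1/3)`, `q ≤ lv (j+1)`, and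
`lv j ≥ (1 + δ)^j - 1 ≥ lv (j+1)/2 - 1`; `(1 + δ)^i < m` (as `m ≥ lv i + 1`), `(1 + δ)^j < q`, `m q = |N - p| ≤ 2 n` and
`lv (i+1) lv (j+1) ≤ (1 + δ)^2 (1 + δ)^(i+j) ≤ 8 n`. The number of boxes is at most `(4 log n/δ + 1)^2`. -/
theorem rel_par (δ : ℝ) (hδ : 0 < δ) (hδ1 : δ ≤ 1 / 100) : ∃ n0 : ℕ, ∀ n : ℕ, n0 ≤ n →
    ∀ N y1 y2 : ℕ, Win n N y1 y2 →
    (∀ b ∈ Rel n N y1 y2 δ, (n : ℝ) ^ (1 / 4 : ℝ) ≤ lv δ (b.1 + 1) ∧
      (n : ℝ) ^ (1 / 4 : ℝ) ≤ lv δ (b.2 + 1) ∧ (n : ℝ) ^ (1 / 4 : ℝ) ≤ lv δ b.2 ∧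
      lv δ b.2 ≤ lv δ (b.2 + 1) ∧ lv δ (b.1 + 1) * lv δ (b.2 + 1) ≤ 8 * n) ∧
    ((Rel n N y1 y2 δ).card : ℝ) ≤ 25 * Real.log n ^ 2 / δ ^ 2 ∧
    ∀ b : ℕ × ℕ, ∀ m, 0 ≤ al n δ b m ∧ al n δ b m ≤ 1 ∧ (al n δ b m ≠ 0 → ∀ r : ℕ, r.Prime → r ∣ m →
      (n : ℝ) ^ (1 / 10 : ℝ) ≤ r) := by
  refine ⟨2 ^ 24, ?_⟩
  intro n hn N y1 y2 W
  have hn1 : 1 ≤ n := by omega
  have hn3 : (3 : ℝ) ≤ n := by exact_mod_cast (by omega : 3 ≤ n)
  refine ⟨fun b hb => ?_, ?_, ?_⟩
  · obtain ⟨h1, h2, h3, h4, h5⟩ := CRP_box hδ hδ1 hn W hb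
    exact ⟨h1, h2, h3, h4, h5⟩
  · have hlog : 1 ≤ Real.log n := by
      rw [Real.le_log_iff_exp_le (by linarith)]
      have := Real.exp_one_lt_d9
      linarith
    have h1 : (Rel n N y1 y2 δ).card ≤ (⌊4 * Real.log n / δ⌋₊ + 1) ^ 2 := by
      classical
      unfold Rel
      refine (Finset.card_filter_le _ _).trans ?_
      rw [Finset.card_product, Finset.card_range, sq]
    have h2 : ((⌊4 * Real.log n / δ⌋₊ : ℝ)) ≤ 4 * Real.log n / δ :=
      Nat.floor_le (by positivity)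
    have h3 : (1 : ℝ) ≤ Real.log n / δ := by
      rw [le_div_iff₀ hδ]
      linarith
    have h4 : ((⌊4 * Real.log n / δ⌋₊ : ℝ)) + 1 ≤ 5 * (Real.log n / δ) := by
      have : 4 * Real.log n / δ = 4 * (Real.log n / δ) := by ring
      linarith
    calc ((Rel n N y1 y2 δ).card : ℝ) ≤ ((⌊4 * Real.log n / δ⌋₊ : ℝ) + 1) ^ 2 := by
          exact_mod_cast h1
      _ ≤ (5 * (Real.log n / δ)) ^ 2 := pow_le_pow_left₀ (by positivity) h4 2
      _ = 25 * Real.log n ^ 2 / δ ^ 2 := by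
        rw [mul_pow, div_pow]
        ring
  · intro b m
    refine ⟨?_, ?_, ?_⟩
    · unfold al
      split_ifs <;> norm_num
    · unfold al
      split_ifs <;> norm_num
    · intro h r hr hrm
      obtain ⟨-, q1, q2, hq1p, hq2p, hz, -, hy, -, hmq⟩ := CRP_al h
      rw [hmq] at hrm
      rcases (Nat.Prime.dvd_mul hr).1 hrm with h1 | h1
      · rw [(Nat.prime_dvd_prime_iff_eq hr hq1p).1 h1]
        exact (CRP_zz hn1 (by norm_num)).trans hz
      · rw [(Nat.prime_dvd_prime_iff_eq hr hq2p).1 h1]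
        exact (CRP_yy hn1 (by norm_num)).trans hy

end Pool.Agent.Lib.H59C
end

-- from Lib.H59C.PIN
section

/-!
# PIN: sums over primes and integrals
-/

open Finset MeasureTheory

namespace Pool.Agent.Lib.H59C

theorem pin_add (u v w : ℝ) (f : ℕ → ℝ) (huv : u ≤ v) (hvw : v ≤ w) :
    ∑ q ∈ PR u w, f q = ∑ q ∈ PR u v, f q + ∑ q ∈ PR v w, f q := by
  classical
  rw [← sum_union]
  · congr 1
    ext q
    simp only [mem_union, mem_PR]
    constructor
    · rintro ⟨h1, h2, h3⟩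
      by_cases h : (q : ℝ) < v
      · exact Or.inl ⟨h1, h2, h⟩
      · exact Or.inr ⟨h1, not_lt.1 h, h3⟩
    · rintro (⟨h1, h2, h3⟩ | ⟨h1, h2, h3⟩)
      · exact ⟨h1, h2, h3.trans_le hvw⟩
      · exact ⟨h1, huv.trans h2, h3⟩
  · rw [disjoint_left]
    intro q hq hq'
    rw [mem_PR] at hq hq'
    linarith [hq.2.2, hq'.2.1]

theorem pin_split (s : ℕ → ℝ) (hs : Monotone s) (f : ℕ → ℝ) (J : ℕ) :
    ∑ q ∈ PR (s 0) (s J), f q = ∑ j ∈ range J, ∑ q ∈ PR (s j) (s (j + 1)), f q := by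
  induction J with
  | zero =>
    rw [range_zero, sum_empty]
    apply sum_eq_zero
    intro q hq
    rw [mem_PR] at hq
    linarith [hq.2.1, hq.2.2]
  | succ J ih =>
    rw [sum_range_succ, ← ih]
    exact pin_add _ _ _ f (hs (Nat.zero_le J)) (hs (Nat.le_succ J))

theorem pin_abel1 (c e : ℕ → ℝ) (J : ℕ) :
    ∑ j ∈ range J, c (j + 1) * (e j - e (j + 1)) =
      c 0 * e 0 - c J * e J + ∑ j ∈ range J, (c (j + 1) - c j) * e j := by
  induction J with
  | zero => simp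
  | succ J ih =>
    rw [sum_range_succ, sum_range_succ, ih]
    ring

theorem pin_abel2 (c e : ℕ → ℝ) (J : ℕ) :
    ∑ j ∈ range J, c j * (e j - e (j + 1)) =
      c 0 * e 0 - c J * e J + ∑ j ∈ range J, (c (j + 1) - c j) * e (j + 1) := by
  induction J with
  | zero => simp
  | succ J ih =>
    rw [sum_range_succ, sum_range_succ, ih]
    ring

theorem pin_tv (c e : ℕ → ℝ) (J : ℕ) (E Φ : ℝ) (hc : ∀ j < J, c j ≤ c (j + 1))
    (hcΦ : ∀ j ≤ J, |c j| ≤ Φ) (he : ∀ j < J, |e j| ≤ E) (hE : 0 ≤ E) :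
    |∑ j ∈ range J, (c (j + 1) - c j) * e j| ≤ 2 * Φ * E := by
  refine (abs_sum_le_sum_abs _ _).trans ?_
  have h1 : ∀ j ∈ range J, |(c (j + 1) - c j) * e j| ≤ (c (j + 1) - c j) * E := by
    intro j hj
    rw [mem_range] at hj
    have h2 : 0 ≤ c (j + 1) - c j := by linarith [hc j hj]
    rw [abs_mul, abs_of_nonneg h2]
    exact mul_le_mul_of_nonneg_left (he j hj) h2
  refine (sum_le_sum h1).trans ?_
  rw [← sum_mul, sum_range_sub]
  apply mul_le_mul_of_nonneg_right _ hE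
  have h3 := abs_le.1 (hcΦ J le_rfl)
  have h4 := abs_le.1 (hcΦ 0 (Nat.zero_le J))
  linarith [h3.2, h4.1]

/-- Monotone functions, one subdivision. -/
theorem pin_mono {C0 : ℝ} (hC0 : 0 < C0) (hm : ∀ u v : ℝ, 2 ≤ u → u ≤ v →
    |∑ q ∈ PR u v, 1 / (q : ℝ) - (Real.log (Real.log v) - Real.log (Real.log u))| ≤
      C0 / Real.log u) (n : ℕ) (a b Φ : ℝ) (φ : ℝ → ℝ) (hn : 3 ≤ n) (ha : 0 < a) (hab : a ≤ b)
    (hna : 2 ≤ (n : ℝ) ^ a) (hφ : MonotoneOn φ (Set.Icc a b))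
    (hΦ : ∀ x ∈ Set.Icc a b, |φ x| ≤ Φ) :
    |∑ q ∈ PR ((n : ℝ) ^ a) ((n : ℝ) ^ b), φ (Real.log q / Real.log n) / q -
      ∫ x in a..b, φ x / x| ≤ 5 * Φ * (C0 / (a * Real.log n)) := by
  have hn3 : (3 : ℝ) ≤ n := by exact_mod_cast hn
  have hn1 : (1 : ℝ) < n := by linarith
  have hn0 : (0 : ℝ) < n := by linarith
  have hl : 0 < Real.log n := Real.log_pos hn1
  set E : ℝ := C0 / (a * Real.log n) with hE
  have hE0 : 0 < E := by positivity
  have hΦ0 : 0 ≤ Φ := (abs_nonneg _).trans (hΦ a ⟨le_rfl, hab⟩)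
  -- the subdivision
  obtain ⟨J, hJ⟩ := exists_nat_ge (2 * (b - a) / (a * E) + 1)
  have hJ1 : (1 : ℝ) ≤ J := by
    have : 0 ≤ 2 * (b - a) / (a * E) := by
      apply div_nonneg (by linarith) (by positivity)
    linarith
  have hJ0 : (0 : ℝ) < J := by linarith
  have hJ2 : 2 * ((b - a) / (J * a)) ≤ E := by
    have h1 : 2 * (b - a) / (a * E) ≤ J := by linarith
    rw [div_le_iff₀ (by positivity)] at h1
    rw [mul_div_assoc', div_le_iff₀ (by positivity)]
    linarith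
  obtain ⟨t, ht⟩ : ∃ t : ℕ → ℝ, t = fun j : ℕ => a + (j : ℝ) * ((b - a) / J) := ⟨_, rfl⟩
  have hstep : 0 ≤ (b - a) / J := div_nonneg (by linarith) hJ0.le
  have htm : Monotone t := by
    intro i j hij
    rw [ht]
    have : (i : ℝ) ≤ j := by exact_mod_cast hij
    have := mul_le_mul_of_nonneg_right this hstep
    simp only
    linarith
  have ht0 : t 0 = a := by rw [ht]; simp
  have htJ : t J = b := by
    rw [ht]
    simp only
    field_simp
    ring
  have hta : ∀ j, a ≤ t j := fun j => by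
    rw [← ht0]
    exact htm (Nat.zero_le j)
  have htb : ∀ j ≤ J, t j ≤ b := fun j hj => by
    rw [← htJ]
    exact htm hj
  have htpos : ∀ j, 0 < t j := fun j => ha.trans_le (hta j)
  have htmem : ∀ j ≤ J, t j ∈ Set.Icc a b := fun j hj => ⟨hta j, htb j hj⟩
  -- the exponents
  have hsm : Monotone (fun j => (n : ℝ) ^ (t j)) := fun i j hij =>
    Real.rpow_le_rpow_of_exponent_le hn1.le (htm hij)
  have hlog : ∀ x : ℝ, Real.log ((n : ℝ) ^ x) = x * Real.log n := fun x =>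
    Real.log_rpow hn0 x
  -- the error function
  obtain ⟨e, he⟩ : ∃ e : ℕ → ℝ, e = fun j => ∑ q ∈ PR ((n : ℝ) ^ (t j)) ((n : ℝ) ^ b), 1 / (q : ℝ) -
    (Real.log b - Real.log (t j)) := ⟨_, rfl⟩
  have hb0 : 0 < b := ha.trans_le hab
  have heE : ∀ j ≤ J, |e j| ≤ E := by
    intro j hj
    have h1 := hm ((n : ℝ) ^ (t j)) ((n : ℝ) ^ b)
      (hna.trans (Real.rpow_le_rpow_of_exponent_le hn1.le (hta j)))
      (Real.rpow_le_rpow_of_exponent_le hn1.le (htb j hj))
    rw [hlog, hlog, Real.log_mul hb0.ne' hl.ne', Real.log_mul (htpos j).ne' hl.ne'] at h1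
    rw [he]
    simp only
    have h2 : Real.log b + Real.log (Real.log n) - (Real.log (t j) + Real.log (Real.log n)) =
        Real.log b - Real.log (t j) := by ring
    rw [h2] at h1
    refine h1.trans ?_
    rw [hE]
    apply div_le_div_of_nonneg_left hC0.le (by positivity)
    exact mul_le_mul_of_nonneg_right (hta j) hl.le
  have heD : ∀ j < J, e j - e (j + 1) =
      ∑ q ∈ PR ((n : ℝ) ^ (t j)) ((n : ℝ) ^ (t (j + 1))), 1 / (q : ℝ) -
        (Real.log (t (j + 1)) - Real.log (t j)) := by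
    intro j hj
    rw [he]
    simp only
    rw [pin_add ((n : ℝ) ^ (t j)) ((n : ℝ) ^ (t (j + 1))) ((n : ℝ) ^ b) (fun q => 1 / (q : ℝ))
      (hsm (Nat.le_succ j)) (Real.rpow_le_rpow_of_exponent_le hn1.le (htb (j + 1) hj))]
    ring
  -- bounds for one interval: primes
  have hxq : ∀ j < J, ∀ q ∈ PR ((n : ℝ) ^ (t j)) ((n : ℝ) ^ (t (j + 1))),
      t j ≤ Real.log q / Real.log n ∧ Real.log q / Real.log n ≤ t (j + 1) := by
    intro j hj q hq
    rw [mem_PR] at hq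
    have hq0 : (0 : ℝ) < q := by exact_mod_cast hq.1.pos
    constructor
    · rw [le_div_iff₀ hl, ← hlog]
      exact Real.log_le_log (Real.rpow_pos_of_pos hn0 _) hq.2.1
    · rw [div_le_iff₀ hl, ← hlog]
      exact Real.log_le_log hq0 hq.2.2.le
  have hP1 : ∀ j < J, ∑ q ∈ PR ((n : ℝ) ^ (t j)) ((n : ℝ) ^ (t (j + 1))),
      φ (Real.log q / Real.log n) / q ≤
      φ (t (j + 1)) * ∑ q ∈ PR ((n : ℝ) ^ (t j)) ((n : ℝ) ^ (t (j + 1))), 1 / (q : ℝ) := by
    intro j hj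
    rw [mul_sum]
    apply sum_le_sum
    intro q hq
    obtain ⟨h1, h2⟩ := hxq j hj q hq
    rw [mul_one_div]
    apply div_le_div_of_nonneg_right _ (Nat.cast_nonneg q)
    exact hφ ⟨(hta j).trans h1, h2.trans (htb (j + 1) hj)⟩ (htmem (j + 1) hj) h2
  have hP2 : ∀ j < J, φ (t j) * ∑ q ∈ PR ((n : ℝ) ^ (t j)) ((n : ℝ) ^ (t (j + 1))), 1 / (q : ℝ) ≤
      ∑ q ∈ PR ((n : ℝ) ^ (t j)) ((n : ℝ) ^ (t (j + 1))), φ (Real.log q / Real.log n) / q := by
    intro j hj
    rw [mul_sum]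
    apply sum_le_sum
    intro q hq
    obtain ⟨h1, h2⟩ := hxq j hj q hq
    rw [mul_one_div]
    apply div_le_div_of_nonneg_right _ (Nat.cast_nonneg q)
    exact hφ (htmem j hj.le) ⟨(hta j).trans h1, h2.trans (htb (j + 1) hj)⟩ h1
  -- the integrals
  have hint : ∀ j < J, IntervalIntegrable (fun x => φ x / x) volume (t j) (t (j + 1)) := by
    intro j hj
    have h1 : Set.uIcc (t j) (t (j + 1)) = Set.Icc (t j) (t (j + 1)) :=
      Set.uIcc_of_le (htm (Nat.le_succ j))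
    have h2 : MonotoneOn φ (Set.uIcc (t j) (t (j + 1))) := by
      rw [h1]
      exact hφ.mono (Set.Icc_subset_Icc (hta j) (htb (j + 1) hj))
    have h3 : ContinuousOn (fun x : ℝ => x⁻¹) (Set.uIcc (t j) (t (j + 1))) := by
      apply ContinuousOn.inv₀ continuousOn_id
      intro x hx
      rw [h1] at hx
      exact ((htpos j).trans_le hx.1).ne'
    have h4 := h2.intervalIntegrable (μ := volume)
    simpa [div_eq_mul_inv] using h4.mul_continuousOn h3
  have hI0 : ∫ x in a..b, φ x / x = ∑ j ∈ range J, ∫ x in (t j)..(t (j + 1)), φ x / x := by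
    rw [intervalIntegral.sum_integral_adjacent_intervals (fun j hj => hint j hj), ht0, htJ]
  have hcinv : ∀ j, ∀ c : ℝ, IntervalIntegrable (fun x => c / x) volume (t j) (t (j + 1)) := by
    intro j c
    apply ContinuousOn.intervalIntegrable
    intro x hx
    rw [Set.uIcc_of_le (htm (Nat.le_succ j))] at hx
    exact (continuousAt_const.div continuousAt_id ((htpos j).trans_le hx.1).ne').continuousWithinAt
  have hconst : ∀ j, ∀ c : ℝ, ∫ x in (t j)..(t (j + 1)), c / x =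
      c * (Real.log (t (j + 1)) - Real.log (t j)) := by
    intro j c
    simp only [div_eq_mul_inv]
    rw [intervalIntegral.integral_const_mul, integral_inv_of_pos (htpos j) (htpos (j + 1)),
      Real.log_div (htpos (j + 1)).ne' (htpos j).ne']
  have hI1 : ∀ j < J, φ (t j) * (Real.log (t (j + 1)) - Real.log (t j)) ≤
      ∫ x in (t j)..(t (j + 1)), φ x / x := by
    intro j hj
    rw [← hconst]
    apply intervalIntegral.integral_mono_on (htm (Nat.le_succ j)) (hcinv j _) (hint j hj)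
    intro x hx
    apply div_le_div_of_nonneg_right _ ((htpos j).trans_le hx.1).le
    exact hφ (htmem j hj.le) ⟨(hta j).trans hx.1, hx.2.trans (htb (j + 1) hj)⟩ hx.1
  have hI2 : ∀ j < J, ∫ x in (t j)..(t (j + 1)), φ x / x ≤
      φ (t (j + 1)) * (Real.log (t (j + 1)) - Real.log (t j)) := by
    intro j hj
    rw [← hconst]
    apply intervalIntegral.integral_mono_on (htm (Nat.le_succ j)) (hint j hj) (hcinv j _)
    intro x hx
    apply div_le_div_of_nonneg_right _ ((htpos j).trans_le hx.1).le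
    exact hφ ⟨(hta j).trans hx.1, hx.2.trans (htb (j + 1) hj)⟩ (htmem (j + 1) hj) hx.2
  -- the logarithms
  have hB : ∀ j < J, Real.log (t (j + 1)) - Real.log (t j) ≤ (b - a) / (J * a) := by
    intro j _
    have h1 : t (j + 1) = t j + (b - a) / J := by
      rw [ht]
      simp only
      push_cast
      ring
    rw [← Real.log_div (htpos (j + 1)).ne' (htpos j).ne']
    refine (Real.log_le_sub_one_of_pos (div_pos (htpos (j + 1)) (htpos j))).trans ?_
    rw [h1, add_div, div_self (htpos j).ne', add_sub_cancel_left, div_div]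
    apply div_le_div_of_nonneg_left (by linarith) (by positivity)
    exact mul_le_mul_of_nonneg_left (hta j) hJ0.le
  have hcm : ∀ j < J, φ (t j) ≤ φ (t (j + 1)) := fun j hj =>
    hφ (htmem j hj.le) (htmem (j + 1) hj) (htm (Nat.le_succ j))
  have hcΦ : ∀ j ≤ J, |φ (t j)| ≤ Φ := fun j hj => hΦ _ (htmem j hj)
  have hvar : ∑ j ∈ range J, (φ (t (j + 1)) - φ (t j)) *
      (Real.log (t (j + 1)) - Real.log (t j)) ≤ Φ * E := by
    have h1 : ∀ j ∈ range J, (φ (t (j + 1)) - φ (t j)) *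
        (Real.log (t (j + 1)) - Real.log (t j)) ≤
        (φ (t (j + 1)) - φ (t j)) * ((b - a) / (J * a)) := by
      intro j hj
      rw [mem_range] at hj
      exact mul_le_mul_of_nonneg_left (hB j hj) (by linarith [hcm j hj])
    refine (sum_le_sum h1).trans ?_
    rw [← sum_mul, sum_range_sub (fun j => φ (t j))]
    have h3 := abs_le.1 (hcΦ J le_rfl)
    have h4 := abs_le.1 (hcΦ 0 (Nat.zero_le J))
    have h5 : 0 ≤ (b - a) / (J * a) := div_nonneg (by linarith) (by positivity)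
    calc (φ (t J) - φ (t 0)) * ((b - a) / (J * a)) ≤ (2 * Φ) * ((b - a) / (J * a)) :=
          mul_le_mul_of_nonneg_right (by linarith [h3.2, h4.1]) h5
      _ = Φ * (2 * ((b - a) / (J * a))) := by ring
      _ ≤ Φ * E := mul_le_mul_of_nonneg_left hJ2 hΦ0
  -- conclusion
  have hend : |φ (t 0) * e 0 - φ (t J) * e J| ≤ 2 * Φ * E := by
    have h1 : |φ (t 0) * e 0| ≤ Φ * E := by
      rw [abs_mul]
      exact mul_le_mul (hcΦ 0 (Nat.zero_le J)) (heE 0 (Nat.zero_le J)) (abs_nonneg _) hΦ0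
    have h2 : |φ (t J) * e J| ≤ Φ * E := by
      rw [abs_mul]
      exact mul_le_mul (hcΦ J le_rfl) (heE J le_rfl) (abs_nonneg _) hΦ0
    have h3 := abs_sub (φ (t 0) * e 0) (φ (t J) * e J)
    linarith
  have hS := pin_split (fun j => (n : ℝ) ^ (t j)) hsm
    (fun q => φ (Real.log q / Real.log n) / q) J
  simp only [ht0, htJ] at hS
  rw [hS, hI0, abs_le]
  constructor
  · -- lower bound
    have h1 : ∑ j ∈ range J, φ (t j) * (e j - e (j + 1)) -
        ∑ j ∈ range J, (φ (t (j + 1)) - φ (t j)) * (Real.log (t (j + 1)) - Real.log (t j)) ≤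
        ∑ j ∈ range J, ∑ q ∈ PR ((n : ℝ) ^ (t j)) ((n : ℝ) ^ (t (j + 1))),
          φ (Real.log q / Real.log n) / q - ∑ j ∈ range J, ∫ x in (t j)..(t (j + 1)), φ x / x := by
      rw [← sum_sub_distrib, ← sum_sub_distrib]
      apply sum_le_sum
      intro j hj
      rw [mem_range] at hj
      have h2 := hP2 j hj
      have h3 := hI2 j hj
      rw [heD j hj]
      nlinarith [h2, h3]
    rw [pin_abel2 (fun j => φ (t j)) e J] at h1
    have h4 := pin_tv (fun j => φ (t j)) (fun j => e (j + 1)) J E Φ hcm hcΦ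
      (fun j hj => heE (j + 1) hj) hE0.le
    have h5 := abs_le.1 h4
    have h6 := abs_le.1 hend
    linarith [h5.1, h6.1]
  · have h1 : ∑ j ∈ range J, ∑ q ∈ PR ((n : ℝ) ^ (t j)) ((n : ℝ) ^ (t (j + 1))),
          φ (Real.log q / Real.log n) / q - ∑ j ∈ range J, ∫ x in (t j)..(t (j + 1)), φ x / x ≤
        ∑ j ∈ range J, φ (t (j + 1)) * (e j - e (j + 1)) +
        ∑ j ∈ range J, (φ (t (j + 1)) - φ (t j)) * (Real.log (t (j + 1)) - Real.log (t j)) := by
      rw [← sum_sub_distrib, ← sum_add_distrib]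
      apply sum_le_sum
      intro j hj
      rw [mem_range] at hj
      have h2 := hP1 j hj
      have h3 := hI1 j hj
      rw [heD j hj]
      nlinarith [h2, h3]
    rw [pin_abel1 (fun j => φ (t j)) e J] at h1
    have h4 := pin_tv (fun j => φ (t j)) e J E Φ hcm hcΦ
      (fun j hj => heE j hj.le) hE0.le
    have h5 := abs_le.1 h4
    have h6 := abs_le.1 hend
    linarith [h5.2, h6.2]

/-- For monotone `φ`: `∑_{n^a ≤ q < n^b} φ(log q/log n)/q = ∫_a^b φ(x)/x dx + O(sup |φ|/(a log n))`.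

Proof. Let `M(x) = ∑_{n^a ≤ q < n^x} 1/q = log x - log a + O(1/(a log n))` (`mertens`), uniformly for
`a ≤ x ≤ b`. The sum is `∫ φ dM`; for monotone `φ`, `∫_a^b φ(x) d(M(x) - log x) = [φ (M - log)]_a^b -
∫ (M - log) dφ = O(sup|φ| · C/(a log n))`. In finite terms (Abel summation over the primes
`q_1 < ... < q_k`, `x_i = log q_i/log n`, `φ` monotone): compare
`∑ φ(x_i) (M(x_{i+1}) - M(x_i))` with `∑ ∫_{x_i}^{x_{i+1}} φ(x)/x dx`; or subdivide `[a, b]` into `J` intervals with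
`φ` replaced by its values at the ends (the error is at most `sup|φ| · max_j (M increment + log increment)` plus
`2 J`-free terms by Abel summation) and let `J → ∞`. -/
theorem prime_int : ∃ C : ℝ, 0 < C ∧ ∀ (n : ℕ) (a b Φ : ℝ) (φ : ℝ → ℝ), 3 ≤ n → 0 < a → a ≤ b →
    b ≤ 2 → 2 ≤ (n : ℝ) ^ a → (MonotoneOn φ (Set.Icc a b) ∨ AntitoneOn φ (Set.Icc a b)) →
    (∀ x ∈ Set.Icc a b, |φ x| ≤ Φ) →
    |∑ q ∈ PR ((n : ℝ) ^ a) ((n : ℝ) ^ b), φ (Real.log q / Real.log n) / q -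
      ∫ x in a..b, φ x / x| ≤ C * Φ / (a * Real.log n) := by
  obtain ⟨C0, hC0, hm⟩ := mertens
  refine ⟨5 * C0, by positivity, fun n a b Φ φ hn ha hab _ hna hφ hΦ => ?_⟩
  have hfin : 5 * C0 * Φ / (a * Real.log n) = 5 * Φ * (C0 / (a * Real.log n)) := by ring
  rw [hfin]
  rcases hφ with h | h
  · exact pin_mono hC0 hm n a b Φ φ hn ha hab hna h hΦ
  · have h1 := pin_mono hC0 hm n a b Φ (fun x => - φ x) hn ha hab hna h.neg
      (fun x hx => by
        rw [abs_neg]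
        exact hΦ x hx)
    have h2 : ∑ q ∈ PR ((n : ℝ) ^ a) ((n : ℝ) ^ b), - φ (Real.log q / Real.log n) / (q : ℝ) -
        ∫ x in a..b, - φ x / x =
        - (∑ q ∈ PR ((n : ℝ) ^ a) ((n : ℝ) ^ b), φ (Real.log q / Real.log n) / (q : ℝ) -
        ∫ x in a..b, φ x / x) := by
      simp only [neg_div]
      rw [sum_neg_distrib, intervalIntegral.integral_neg]
      ring
    rw [h2, abs_neg] at h1
    exact h1

end Pool.Agent.Lib.H59C
end

-- from Lib.H59C.CP2
section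

/-!
# CP2: a sum over primes
-/

open Finset

namespace Pool.Agent.Lib.H59C

theorem cp2_int (κ b : ℝ) (hb : 1 / 8 ≤ b) (hκ : b < κ) :
    ∫ x in (1 / 8 : ℝ)..b, (1 / 8 / (κ - x)) / x =
      1 / (8 * κ) * (Real.log b - Real.log (κ - b)) -
        1 / (8 * κ) * (Real.log (1 / 8) - Real.log (κ - 1 / 8)) := by
  have hκ0 : 0 < κ := by linarith
  have h : ∀ x ∈ Set.uIcc (1 / 8 : ℝ) b,
      HasDerivAt (fun x : ℝ => 1 / (8 * κ) * (Real.log x - Real.log (κ - x)))
        ((1 / 8 / (κ - x)) / x) x := by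
    intro x hx
    rw [Set.uIcc_of_le hb, Set.mem_Icc] at hx
    have hx0 : 0 < x := by linarith
    have hx1 : 0 < κ - x := by linarith
    have h1 : HasDerivAt (fun x : ℝ => Real.log x) (1 / x) x := by
      simpa using Real.hasDerivAt_log hx0.ne'
    have h2 : HasDerivAt (fun x : ℝ => κ - x) (-1) x := by
      simpa using (hasDerivAt_id x).const_sub κ
    have h3 : HasDerivAt (fun x : ℝ => Real.log (κ - x)) (-1 / (κ - x)) x := by
      simpa using h2.log hx1.ne'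
    have h4 := (h1.sub h3).const_mul (1 / (8 * κ))
    have hx0' : x ≠ 0 := hx0.ne'
    have hx1' : κ - x ≠ 0 := hx1.ne'
    have hκ' : κ ≠ 0 := hκ0.ne'
    have e : (1 / 8 / (κ - x)) / x = 1 / (8 * κ) * (1 / x - -1 / (κ - x)) := by
      field_simp
      ring
    rw [e]
    exact h4
  rw [intervalIntegral.integral_eq_sub_of_hasDerivAt h]
  apply ContinuousOn.intervalIntegrable
  rw [Set.uIcc_of_le hb]
  apply ContinuousOn.div
  · apply ContinuousOn.div
    · fun_prop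
    · fun_prop
    · intro x hx
      rw [Set.mem_Icc] at hx
      have : 0 < κ - x := by linarith
      exact this.ne'
  · fun_prop
  · intro x hx
    rw [Set.mem_Icc] at hx
    have : 0 < x := by linarith
    exact this.ne'

/-- The choice of `η`. -/
theorem cp2_eta (ε : ℝ) (hε : 0 < ε) : ∃ η : ℝ, 0 < η ∧ η ≤ 1 / 100 ∧
    (1 + η) * (1 / (8 * (1 / 2 - η)) * (Real.log (1 / 3 + η) -
        Real.log ((1 / 2 - η) - (1 / 3 + η))) -
      1 / (8 * (1 / 2 - η)) * (Real.log (1 / 8) - Real.log ((1 / 2 - η) - 1 / 8))) ≤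
      1 / 4 * Real.log 6 + ε := by
  obtain ⟨G, hG⟩ : ∃ G : ℝ → ℝ, G = fun η => (1 + η) * (1 / (8 * (1 / 2 - η)) *
      (Real.log (1 / 3 + η) - Real.log ((1 / 2 - η) - (1 / 3 + η))) -
      1 / (8 * (1 / 2 - η)) * (Real.log (1 / 8) - Real.log ((1 / 2 - η) - 1 / 8))) := ⟨_, rfl⟩
  have hcont : ContinuousAt G 0 := by
    rw [hG]
    have c1 : ContinuousAt (fun η : ℝ => 1 / (8 * (1 / 2 - η))) 0 := by
      apply ContinuousAt.div (by fun_prop) (by fun_prop)
      norm_num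
    have c2 : ContinuousAt (fun η : ℝ => Real.log (1 / 3 + η)) 0 := by
      apply ContinuousAt.log (by fun_prop)
      norm_num
    have c3 : ContinuousAt (fun η : ℝ => Real.log ((1 / 2 - η) - (1 / 3 + η))) 0 := by
      apply ContinuousAt.log (by fun_prop)
      norm_num
    have c4 : ContinuousAt (fun η : ℝ => Real.log ((1 / 2 - η) - 1 / 8)) 0 := by
      apply ContinuousAt.log (by fun_prop)
      norm_num
    exact (by fun_prop : ContinuousAt (fun η : ℝ => 1 + η) 0).mul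
      ((c1.mul (c2.sub c3)).sub (c1.mul (continuousAt_const.sub c4)))
  have hG0 : G 0 = 1 / 4 * Real.log 6 := by
    rw [hG]
    have e1 : Real.log (1 / 3 + 0) - Real.log ((1 / 2 - 0) - (1 / 3 + 0)) = Real.log 2 := by
      rw [← Real.log_div (by norm_num) (by norm_num)]
      norm_num
    have e2 : Real.log (1 / 8) - Real.log ((1 / 2 - 0) - 1 / 8) = - Real.log 3 := by
      rw [← Real.log_div (by norm_num) (by norm_num), ← Real.log_inv]
      norm_num
    have e3 : Real.log 6 = Real.log 2 + Real.log 3 := by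
      rw [← Real.log_mul (by norm_num) (by norm_num)]
      norm_num
    show (1 + 0) * (1 / (8 * (1 / 2 - 0)) * (Real.log (1 / 3 + 0) -
        Real.log ((1 / 2 - 0) - (1 / 3 + 0))) -
      1 / (8 * (1 / 2 - 0)) * (Real.log (1 / 8) - Real.log ((1 / 2 - 0) - 1 / 8))) = _
    rw [e1, e2, e3]
    ring
  obtain ⟨δ, hδ, h⟩ := Metric.continuousAt_iff.mp hcont ε hε
  refine ⟨min (δ / 2) (1 / 100), lt_min (by linarith) (by norm_num), min_le_right _ _, ?_⟩
  have h1 : dist (min (δ / 2) (1 / 100)) 0 < δ := by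
    rw [Real.dist_eq, sub_zero, abs_of_pos (lt_min (by linarith) (by norm_num))]
    have := min_le_left (δ / 2) (1 / 100)
    linarith
  have h2 := h h1
  rw [Real.dist_eq, abs_lt, hG0] at h2
  have h3 := h2.2
  rw [hG] at h3
  simp only at h3
  linarith

/-- Proof. `L = log n`, `x = log q/L`. For `η > 0` and `n` large: `log (DD n B/Q0/q)/L ≥ 1/2 - η - x`, `(2n)^(1/3) ≤ n^(1/3 + η)`
and `gq q ≤ (1 + η)/q`, so the sum is at most `(1 + η) ∑_{n^(1/8) ≤ q < n^(1/3 + η)} φ(x)/q` with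
`φ(x) = (1/8)/(1/2 - η - x)` (increasing, at most `1` for `η ≤ 1/100`; `1/3 + 2 η < 1/2`), and by `prime_int` the sum tends to
`∫_{1/8}^{1/3 + η} (1/8)/(x (1/2 - η - x)) dx = (1/8) (1/2 - η)⁻¹ [log (x/(1/2 - η - x))]_{1/8}^{1/3 + η}`,
which tends to `(1/4)(log 2 + log 3)` as `η → 0`. (The integral: `integral_eq_sub_of_hasDerivAt`.) -/
theorem prime_S2 (ε : ℝ) (hε : 0 < ε) (B Q0 : ℕ) (hQ : 1 ≤ Q0) : ∃ n0 : ℕ, ∀ n : ℕ, n0 ≤ n →
    ∑ q ∈ PR (zz n) (yy n), gq q * (Real.log (zz n) / Real.log ((DD n B : ℝ) / q / Q0)) ≤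
      1 / 4 * Real.log 6 + ε ∧
    ∑ q ∈ PR (zz n) (yy n), gq q ≤ 2 := by
  obtain ⟨η, hη, hη1, hG⟩ := cp2_eta (ε / 2) (by linarith)
  obtain ⟨C, hC, hpi⟩ := prime_int
  obtain ⟨n1, hn1⟩ := dd_log B Q0 hQ η hη
  obtain ⟨n2, hn2⟩ := cdl_zz (2 + (1 + η) / η)
  obtain ⟨n3, hn3⟩ := cdl_log (max (1 / η) (max (32 * C / ε) (80 * C)))
  refine ⟨n1 + n2 + n3 + 3, fun n hn => ?_⟩
  have hN : (3 : ℝ) ≤ n := by exact_mod_cast (by omega : 3 ≤ n)
  have hL : 0 < Real.log n := Real.log_pos (by linarith)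
  obtain ⟨L, hLdef⟩ : ∃ L : ℝ, L = Real.log n := ⟨_, rfl⟩
  obtain ⟨hD1, hDl, hDu, hDp⟩ := hn1 n (by omega)
  have hzn := hn2 n (by omega)
  have hLn := hn3 n (by omega)
  have hlz := log_zz n (by omega)
  rw [← hLdef] at hL hDl hDu hLn hlz
  have hL1 : 1 / η ≤ L := le_trans (le_max_left _ _) hLn
  have hL2 : 32 * C / ε ≤ L := le_trans (le_trans (le_max_left _ _) (le_max_right _ _)) hLn
  have hL3 : 80 * C ≤ L := le_trans (le_trans (le_max_right _ _) (le_max_right _ _)) hLn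
  have hηinv : 0 < (1 + η) / η := by positivity
  have hz2 : 2 ≤ zz n := by linarith
  have hzpos : 0 < zz n := by linarith
  obtain ⟨b, hb⟩ : ∃ b : ℝ, b = 1 / 3 + η := ⟨_, rfl⟩
  have hlyy : Real.log (yy n) = 1 / 3 * (Real.log 2 + L) := by
    unfold yy
    rw [Real.log_rpow (by linarith), Real.log_mul (by norm_num) (by linarith), hLdef]
  have hlog2 : Real.log 2 ≤ 1 := by
    have := Real.log_two_lt_d9
    linarith
  have hyypos : 0 < yy n := by unfold yy; positivity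
  have hyb : yy n ≤ (n : ℝ) ^ b := by
    rw [← Real.log_le_log_iff hyypos (by positivity), hlyy, Real.log_rpow (by linarith),
      ← hLdef, hb]
    have : 1 ≤ η * L := by
      rw [div_le_iff₀ hη] at hL1
      linarith
    nlinarith
  have hsub : PR (zz n) (yy n) ⊆ PR ((n : ℝ) ^ (1 / 8 : ℝ)) ((n : ℝ) ^ b) := by
    intro q hq
    rw [mem_PR] at hq ⊢
    exact ⟨hq.1, hq.2.1, lt_of_lt_of_le hq.2.2 hyb⟩
  -- facts about `q`
  have hqf : ∀ q ∈ PR ((n : ℝ) ^ (1 / 8 : ℝ)) ((n : ℝ) ^ b), (0 : ℝ) < q ∧ 1 / 8 ≤ Real.log q / L ∧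
      Real.log q / L ≤ b ∧ 0 ≤ gq q ∧ gq q ≤ (1 + η) / q := by
    intro q hq
    obtain ⟨hqp, hq1, hq2⟩ := mem_PR.mp hq
    have hq1' : zz n ≤ q := hq1
    have hq0 : (0 : ℝ) < q := by linarith
    refine ⟨hq0, ?_, ?_, ?_, ?_⟩
    · rw [le_div_iff₀ hL]
      have := Real.log_le_log hzpos hq1'
      rw [hlz] at this
      exact this
    · rw [div_le_iff₀ hL]
      have := Real.log_le_log hq0 hq2.le
      rw [Real.log_rpow (by linarith), ← hLdef] at this
      exact this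
    · unfold gq
      apply div_nonneg zero_le_one
      linarith
    · unfold gq
      rw [div_le_div_iff₀ (by linarith) hq0]
      have h1 : (1 + η) / η ≤ q := by linarith
      rw [div_le_iff₀ hη] at h1
      linarith
  have hκb : b < 1 / 2 - η := by rw [hb]; linarith
  constructor
  · -- first sum
    have hΦ : ∀ x ∈ Set.Icc (1 / 8 : ℝ) b, |1 / 8 / ((1 / 2 - η) - x)| ≤ 1 := by
      intro x hx
      rw [Set.mem_Icc] at hx
      have h1 : 1 / 8 ≤ (1 / 2 - η) - x := by rw [hb] at hx; linarith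
      rw [abs_of_nonneg (by apply div_nonneg (by norm_num); linarith)]
      rw [div_le_one (by linarith)]
      exact h1
    have hmono : MonotoneOn (fun x : ℝ => 1 / 8 / ((1 / 2 - η) - x)) (Set.Icc (1 / 8 : ℝ) b) := by
      intro x hx y hy hxy
      rw [Set.mem_Icc] at hx hy
      apply div_le_div_of_nonneg_left (by norm_num)
      · rw [hb] at hy; linarith
      · linarith
    have hpi1 := hpi n (1 / 8) b 1 (fun x : ℝ => 1 / 8 / ((1 / 2 - η) - x)) (by omega)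
      (by norm_num) (by rw [hb]; linarith) (by rw [hb]; linarith) hz2 (Or.inl hmono) hΦ
    rw [cp2_int (1 / 2 - η) b (by rw [hb]; linarith) hκb, ← hLdef, abs_le] at hpi1
    have hterm : ∀ q ∈ PR (zz n) (yy n), gq q * (Real.log (zz n) /
        Real.log ((DD n B : ℝ) / q / Q0)) ≤
        (1 + η) * ((1 / 8 / ((1 / 2 - η) - Real.log q / L)) / q) := by
      intro q hq
      obtain ⟨hq0, hx1, hx2, hg0, hg1⟩ := hqf q (hsub hq)
      have h1 : Real.log ((DD n B : ℝ) / q / Q0) = Real.log ((DD n B : ℝ) / Q0) - Real.log q := by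
        rw [show (DD n B : ℝ) / q / Q0 = (DD n B : ℝ) / Q0 / q by ring,
          Real.log_div hDp.ne' hq0.ne']
      have h2 : 0 < (1 / 2 - η) - Real.log q / L := by linarith
      have h3 : ((1 / 2 - η) - Real.log q / L) * L ≤ Real.log ((DD n B : ℝ) / q / Q0) := by
        rw [h1, sub_mul, div_mul_cancel₀ _ hL.ne']
        linarith
      have h4 : Real.log (zz n) / Real.log ((DD n B : ℝ) / q / Q0) ≤
          1 / 8 / ((1 / 2 - η) - Real.log q / L) := by
        rw [hlz, div_le_div_iff₀ (lt_of_lt_of_le (by positivity) h3) h2]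
        calc 1 / 8 * L * ((1 / 2 - η) - Real.log q / L) =
            1 / 8 * (((1 / 2 - η) - Real.log q / L) * L) := by ring
          _ ≤ 1 / 8 * Real.log ((DD n B : ℝ) / q / Q0) := by
            apply mul_le_mul_of_nonneg_left h3 (by norm_num)
      have h5 : 0 ≤ Real.log (zz n) / Real.log ((DD n B : ℝ) / q / Q0) := by
        apply div_nonneg
        · rw [hlz]; positivity
        · exact le_trans (by positivity) h3
      calc gq q * (Real.log (zz n) / Real.log ((DD n B : ℝ) / q / Q0))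
          ≤ (1 + η) / q * (1 / 8 / ((1 / 2 - η) - Real.log q / L)) := by
            apply mul_le_mul hg1 h4 h5 (by positivity)
        _ = (1 + η) * ((1 / 8 / ((1 / 2 - η) - Real.log q / L)) / q) := by ring
    calc ∑ q ∈ PR (zz n) (yy n), gq q * (Real.log (zz n) / Real.log ((DD n B : ℝ) / q / Q0))
        ≤ ∑ q ∈ PR (zz n) (yy n), (1 + η) * ((1 / 8 / ((1 / 2 - η) - Real.log q / L)) / q) :=
          sum_le_sum hterm
      _ = (1 + η) * ∑ q ∈ PR (zz n) (yy n), (1 / 8 / ((1 / 2 - η) - Real.log q / L)) / q := by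
          rw [mul_sum]
      _ ≤ (1 + η) * ∑ q ∈ PR ((n : ℝ) ^ (1 / 8 : ℝ)) ((n : ℝ) ^ b),
          (1 / 8 / ((1 / 2 - η) - Real.log q / L)) / q := by
          apply mul_le_mul_of_nonneg_left _ (by linarith)
          apply sum_le_sum_of_subset_of_nonneg hsub
          intro q hq _
          obtain ⟨hq0, hx1, hx2, hg0, hg1⟩ := hqf q hq
          have h2 : 0 < (1 / 2 - η) - Real.log q / L := by linarith
          positivity
      _ ≤ (1 + η) * (1 / (8 * (1 / 2 - η)) * (Real.log b - Real.log ((1 / 2 - η) - b)) -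
          1 / (8 * (1 / 2 - η)) * (Real.log (1 / 8) - Real.log ((1 / 2 - η) - 1 / 8)) +
          C * 1 / (1 / 8 * L)) := by
          apply mul_le_mul_of_nonneg_left _ (by linarith)
          linarith [hpi1.2]
      _ ≤ 1 / 4 * Real.log 6 + ε / 2 + (1 + η) * (C * 1 / (1 / 8 * L)) := by
          rw [mul_add, hb]
          linarith
      _ ≤ 1 / 4 * Real.log 6 + ε := by
          have h1 : (1 + η) * (C * 1 / (1 / 8 * L)) ≤ ε / 2 := by
            have h2 : C * 1 / (1 / 8 * L) = 8 * C / L := by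
              field_simp
            have h3 : 8 * C / L ≤ ε / 4 := by
              rw [div_le_iff₀ hL]
              rw [div_le_iff₀ hε] at hL2
              linarith
            rw [h2]
            have h4 : 0 ≤ 8 * C / L := by positivity
            nlinarith
          linarith
  · have hΦ : ∀ x ∈ Set.Icc (1 / 8 : ℝ) b, |(1 : ℝ)| ≤ 1 := by
      intro x _
      simp
    have hmono : MonotoneOn (fun _ : ℝ => (1 : ℝ)) (Set.Icc (1 / 8 : ℝ) b) := by
      intro x hx y hy hxy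
      exact le_rfl
    have hpi1 := hpi n (1 / 8) b 1 (fun _ : ℝ => (1 : ℝ)) (by omega)
      (by norm_num) (by rw [hb]; linarith) (by rw [hb]; linarith) hz2 (Or.inl hmono) hΦ
    have hint : ∫ x in (1 / 8 : ℝ)..b, (1 : ℝ) / x = Real.log (8 * b) := by
      rw [integral_one_div_of_pos (by norm_num) (by rw [hb]; linarith)]
      congr 1
      field_simp
    rw [hint, ← hLdef, abs_le] at hpi1
    have hlogb : Real.log (8 * b) ≤ 8 * b - 1 := by
      have : 0 < 8 * b := by rw [hb]; linarith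
      exact Real.log_le_sub_one_of_pos this
    calc ∑ q ∈ PR (zz n) (yy n), gq q ≤ ∑ q ∈ PR (zz n) (yy n), (1 + η) * (1 / (q : ℝ)) := by
          apply sum_le_sum
          intro q hq
          have := (hqf q (hsub hq)).2.2.2.2
          calc gq q ≤ (1 + η) / q := this
            _ = (1 + η) * (1 / (q : ℝ)) := by ring
      _ = (1 + η) * ∑ q ∈ PR (zz n) (yy n), 1 / (q : ℝ) := by rw [mul_sum]
      _ ≤ (1 + η) * ∑ q ∈ PR ((n : ℝ) ^ (1 / 8 : ℝ)) ((n : ℝ) ^ b), 1 / (q : ℝ) := by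
          apply mul_le_mul_of_nonneg_left _ (by linarith)
          apply sum_le_sum_of_subset_of_nonneg hsub
          intro q hq _
          positivity
      _ ≤ (1 + η) * (8 * b - 1 + C * 1 / (1 / 8 * L)) := by
          apply mul_le_mul_of_nonneg_left _ (by linarith)
          linarith [hpi1.2]
      _ ≤ 2 := by
          have h2 : C * 1 / (1 / 8 * L) = 8 * C / L := by
            field_simp
          have h3 : 8 * C / L ≤ 1 / 10 := by
            rw [div_le_iff₀ hL]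
            linarith
          rw [h2, hb]
          nlinarith

end Pool.Agent.Lib.H59C
end
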