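import Pool.Agent.Lib.H1M.RV3.M003
import Pool.Agent.Lib.H1M.RV3.M019
import Pool.Agent.Lib.H1M.RV3.M035
import Pool.Agent.Lib.H1M.RV3.M036

/-! Merged copies (to shorten the build) of Lib.H92G.CDefs, Lib.H57M.Defs, Lib.H59C.UVE, Lib.H59C.UVF, Lib.H59C.LIN, Lib.H59C.MER1, Lib.H59C.RW2, Lib.H59C.RW3, Lib.H59C.SAP, Lib.H59C.JR, Lib.H57C.Defs, Lib.H57C.D2. -/

-- from Lib.H92G.CDefs
section

/-!
# Definitions for the second half: the modulus, the classes, the allowed intervals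
-/

open Finset

namespace Pool.Agent.Lib.H92G

open Pool.Agent.Lib.H15P


/-- The numbers `a + h`, `h ∈ S`, which are prime to `M`. -/
def Ac (M : ℕ) (S : Finset ℕ) (a : ℕ) : Finset ℕ :=
  (S.filter (fun h => (a + h).Coprime M)).image (fun h => a + h)

/-- `h/φ(h)` for the difference of two elements. -/
noncomputable def Gd (h h' : ℕ) : ℝ := Helper57.G (Nat.dist h h')


/-- The class of `a` is good: not too many forms, `S` = allowed shifts. -/
def okc (w : WG) (M H : ℕ) (S : Finset ℕ) (a : ℕ) : Prop :=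
  (Ac M S a).card ≤ w.KA ∧ (Ac M (Icc 1 H) a).card ≤ w.K

instance (w : WG) (M H : ℕ) (S : Finset ℕ) (a : ℕ) : Decidable (okc w M H S a) := by
  unfold okc; infer_instance


/-- `n + h` is prime to `M` and to the primes of `P`. -/
def rg (w : WG) (M n h : ℕ) : Prop := (n + h).Coprime M ∧ hit w.P (n + h) = ∅

instance (w : WG) (M n h : ℕ) : Decidable (rg w M n h) := by
  unfold rg; infer_instance








end Pool.Agent.Lib.H92G
end

-- from Lib.H57M.Defs
section

/-!
# Project H57M (MP_0bf1d2_nt): Maynard-Tao for Schinzel's hypothesis. Definitions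

See `PROOF.md` in this folder.
-/

open Finset

namespace Pool.Agent.Lib.H57M

open Pool.Agent.Lib.H15P Pool.Agent.Lib.H92G

/-! ## The weights -/

/-- The data of the weight for one scale; `K` = number of the forms. `D i` = one form function of
the label `i`, `c` = its value at `∅`, `s i` = bound for its second moment, `m i` = bound for the
number of the forms with label `i`. -/
structure Par (K : ℕ) where
  P : Finset ℕ
  W : ℕ
  n : ℕ
  D : Fin n → Finset {p // p ∈ P} → ℝ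
  m : Fin n → ℕ
  R : Fin n → ℝ
  s : Fin n → ℝ
  c : ℝ
  h : ℝ
  Dt : ℝ
  lv : ℝ
  prime : ∀ p ∈ P, p.Prime
  big : ∀ p ∈ P, W < p
  Kpos : 1 ≤ K
  KW : 4 * K ^ 2 ≤ W
  c0 : 0 ≤ c
  good : GoodJ (qq P K) (fun _ : Unit => D) h
  h0 : 0 ≤ h
  emp : ∀ i, D i ∅ = c
  s0 : ∀ i, 0 ≤ s i
  hs : ∑ i, s i ≤ 1
  hm : ∀ i, 2 * (K * s i) + R i ≤ m i
  hR : ∑ i, Real.exp (-R i) ≤ 1 / 4
  Dt1 : 1 ≤ Dt
  tilt : ∀ i (T : Finset {p // p ∈ P}),
    ex (qq P K) (fun A => D i A ^ 2 * (if T ⊆ A then 1 else 0)) ≤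
      Dt ^ T.card * (∏ p ∈ T, qq P K p) * s i
  lv1 : 1 ≤ lv
  lev : ∀ (J : Type) [Fintype J] [DecidableEq J] (M : ℕ) (b : J → ℕ), Fintype.card J = K →
    Lev (∏ p ∈ P, p) (fun t => LG (fun _ : J => D) m univ (fun j => hit P (b j + M * t))) lv

/-- The one form functions are good for every set of forms. -/
theorem Par.goodJ {K : ℕ} (w : Par K) (J : Type) : GoodJ (qq w.P K) (fun _ : J => w.D) w.h where
  q0 := w.good.q0
  q1 := w.good.q1
  mean := fun _ i => w.good.mean () i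
  orth := fun _ i i' hi => w.good.orth () i i' hi
  sq := fun _ i => w.good.sq () i
  fourth := fun _ i => w.good.fourth () i

/-- The weight function before squaring, as a function of the configuration. -/
noncomputable def Par.L {K : ℕ} (w : Par K) {J : Type} [Fintype J] [DecidableEq J]
    (S : J → Finset {p // p ∈ w.P}) : ℝ := LG (fun _ : J => w.D) w.m univ S

/-- `1 + ∑ E D_i^2` -/
noncomputable def Par.z {K : ℕ} (w : Par K) : ℝ :=
  1 + ∑ i, ex (qq w.P K) (fun A => w.D i A ^ 2)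

/-- The constant `(2 (n + 1))^K`. -/
noncomputable def Par.CL {K : ℕ} (w : Par K) : ℝ := (2 * ((w.n : ℝ) + 1)) ^ K


/-! ## Residues -/

/-- The residues `v` modulo `P` for which all `v + h`, `h ∈ H`, are prime to `P`. -/
def cF (H : Finset ℕ) (P : ℕ) : Finset ℕ :=
  (range P).filter (fun v => (∏ h ∈ H, (v + h)).Coprime P)



end Pool.Agent.Lib.H57M
end

-- from Lib.H59C.UVE
section

/-!
# UVE: the functions of the linear sieve exist
-/

open Finset MeasureTheory

namespace Pool.Agent.Lib.H59C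

open Filter Topology in
theorem UVE_int (C : ℝ) (f : ℝ → ℝ) (a s : ℝ) (hf : AntitoneOn f (Set.Ici a))
    (h0 : ∀ x, a ≤ x → 0 ≤ f x) (hb : ∀ x, a ≤ x → f x ≤ C * hh x) (hs : a + 1 ≤ s) :
    IntegrableOn (fun t => f (t - 1)) (Set.Ioi s) := by
  have hm : AEMeasurable (fun t => f (t - 1)) (volume.restrict (Set.Ioi s)) := by
    apply aemeasurable_restrict_of_antitoneOn measurableSet_Ioi
    intro x hx y hy hxy
    rw [Set.mem_Ioi] at hx hy
    apply hf
    · rw [Set.mem_Ici]; linarith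
    · rw [Set.mem_Ici]; linarith
    · linarith
  refine Integrable.mono' ((hh_integrable s).const_mul C) hm.aestronglyMeasurable ?_
  refine (ae_restrict_mem measurableSet_Ioi).mono fun t ht => ?_
  rw [Set.mem_Ioi] at ht
  rw [Real.norm_eq_abs, abs_of_nonneg (h0 _ (by linarith))]
  exact hb _ (by linarith)

/-- The properties of the approximations. -/
structure UVE_G (u v : ℝ → ℝ) : Prop where
  u0 : ∀ s, 1 ≤ s → 0 ≤ u s
  v0 : ∀ s, 2 ≤ s → 0 ≤ v s
  uanti : AntitoneOn u (Set.Ici 1)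
  vanti : AntitoneOn v (Set.Ici 2)
  ub : ∀ s, 1 ≤ s → u s ≤ 10000 * hh s
  vb : ∀ s, 2 ≤ s → v s ≤ 10000 * hh s

/-- new `u` from old `v` -/
noncomputable def UVE_U (v : ℝ → ℝ) (s : ℝ) : ℝ :=
  (max 0 (3 - s) + ∫ t in Set.Ioi (max s 3), v (t - 1)) / s

/-- new `v` from old `u` -/
noncomputable def UVE_V (u : ℝ → ℝ) (s : ℝ) : ℝ := (∫ t in Set.Ioi s, u (t - 1)) / s

theorem UVE_intu {u v : ℝ → ℝ} (h : UVE_G u v) (s : ℝ) (hs : 2 ≤ s) :
    IntegrableOn (fun t => u (t - 1)) (Set.Ioi s) :=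
  UVE_int 10000 u 1 s h.uanti h.u0 h.ub (by linarith)

theorem UVE_intv {u v : ℝ → ℝ} (h : UVE_G u v) (s : ℝ) (hs : 3 ≤ s) :
    IntegrableOn (fun t => v (t - 1)) (Set.Ioi s) :=
  UVE_int 10000 v 2 s h.vanti h.v0 h.vb (by linarith)

theorem UVE_nn (f : ℝ → ℝ) (s : ℝ) (h0 : ∀ x, s - 1 ≤ x → 0 ≤ f x) :
    0 ≤ ∫ t in Set.Ioi s, f (t - 1) := by
  apply setIntegral_nonneg measurableSet_Ioi
  intro t ht
  rw [Set.mem_Ioi] at ht
  exact h0 _ (by linarith)

theorem UVE_anti (f : ℝ → ℝ) (s s' : ℝ) (hss : s ≤ s') (h0 : ∀ x, s - 1 ≤ x → 0 ≤ f x)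
    (hi : IntegrableOn (fun t => f (t - 1)) (Set.Ioi s)) :
    ∫ t in Set.Ioi s', f (t - 1) ≤ ∫ t in Set.Ioi s, f (t - 1) := by
  apply setIntegral_mono_set hi
  · refine (ae_restrict_mem measurableSet_Ioi).mono fun t ht => ?_
    rw [Set.mem_Ioi] at ht
    exact h0 _ (by linarith)
  · exact (Set.Ioi_subset_Ioi hss).eventuallyLE

theorem UVE_up (f : ℝ → ℝ) (s C : ℝ) (hC : 0 ≤ C) (hi : IntegrableOn (fun t => f (t - 1)) (Set.Ioi s))
    (hb : ∀ x, s - 1 ≤ x → f x ≤ C * hh x) :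
    ∫ t in Set.Ioi s, f (t - 1) ≤ C * ∫ t in Set.Ioi s, hh (t - 1) := by
  rw [← integral_const_mul]
  apply setIntegral_mono_on hi ((hh_integrable s).const_mul C) measurableSet_Ioi
  intro t ht
  rw [Set.mem_Ioi] at ht
  exact hb _ (by linarith)

theorem UVE_e1 (s : ℝ) (h1 : 1 ≤ s) (h3 : s ≤ 3) : (3 - s) / s ≤ 1 / 50 * (10000 * hh s) := by
  have hs : 0 < s := by linarith
  rw [div_le_iff₀ hs]
  have e4 : Real.exp 4 ≤ 81 := by
    have h := Real.exp_one_lt_d9
    have h2 : Real.exp 4 = Real.exp 1 ^ 4 := by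
      rw [← Real.exp_nat_mul]
      norm_num
    rw [h2]
    have h5 : Real.exp 1 ≤ 3 := by linarith
    calc Real.exp 1 ^ 4 ≤ 3 ^ 4 := by
          apply pow_le_pow_left₀ (Real.exp_pos 1).le h5
      _ = 81 := by norm_num
  have hhs : 1 / 81 ≤ hh s := by
    unfold hh
    have h5 : Real.exp (-4) ≤ Real.exp (-(11 / 10) * max s 2) := by
      apply Real.exp_le_exp.mpr
      have : max s 2 ≤ 3 := max_le h3 (by norm_num)
      linarith
    refine le_trans ?_ h5
    rw [Real.exp_neg, one_div]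
    exact inv_anti₀ (Real.exp_pos 4) e4
  nlinarith

theorem UVE_step {u v : ℝ → ℝ} (h : UVE_G u v) : UVE_G (UVE_U v) (UVE_V u) := by
  have hv0 : ∀ s, 3 ≤ s → 0 ≤ ∫ t in Set.Ioi s, v (t - 1) := fun s hs =>
    UVE_nn v s (fun x hx => h.v0 x (by linarith))
  have hu0 : ∀ s, 2 ≤ s → 0 ≤ ∫ t in Set.Ioi s, u (t - 1) := fun s hs =>
    UVE_nn u s (fun x hx => h.u0 x (by linarith))
  refine ⟨?_, ?_, ?_, ?_, ?_, ?_⟩
  · intro s hs
    unfold UVE_U
    have := hv0 (max s 3) (le_max_right _ _)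
    have := le_max_left 0 (3 - s)
    positivity
  · intro s hs
    unfold UVE_V
    have := hu0 s hs
    positivity
  · intro s hs s' hs' hss
    rw [Set.mem_Ici] at hs hs'
    unfold UVE_U
    have h1 := hv0 (max s' 3) (le_max_right _ _)
    have h2 := le_max_left 0 (3 - s')
    have h3 : ∫ t in Set.Ioi (max s' 3), v (t - 1) ≤ ∫ t in Set.Ioi (max s 3), v (t - 1) := by
      apply UVE_anti v _ _ (max_le_max hss le_rfl)
      · intro x hx
        exact h.v0 x (by linarith [le_max_right s 3])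
      · exact UVE_intv h _ (le_max_right _ _)
    have h4 : max 0 (3 - s') ≤ max 0 (3 - s) := max_le_max le_rfl (by linarith)
    apply div_le_div₀ (by linarith) (by linarith) (by linarith) hss
  · intro s hs s' hs' hss
    rw [Set.mem_Ici] at hs hs'
    unfold UVE_V
    have h3 : ∫ t in Set.Ioi s', u (t - 1) ≤ ∫ t in Set.Ioi s, u (t - 1) := by
      apply UVE_anti u _ _ hss
      · intro x hx
        exact h.u0 x (by linarith)
      · exact UVE_intu h _ hs
    apply div_le_div₀ (hu0 s hs) h3 (by linarith) hss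
  · intro s hs
    have hs0 : 0 < s := by linarith
    unfold UVE_U
    rw [div_le_iff₀ hs0]
    rcases le_total s 3 with h3 | h3
    · rw [max_eq_right h3, max_eq_right (by linarith : (0 : ℝ) ≤ 3 - s)]
      have h1 := UVE_up v 3 10000 (by norm_num) (UVE_intv h 3 le_rfl)
        (fun x hx => h.vb x (by linarith))
      have h2 := hh_int3 s hs h3
      have h4 := UVE_e1 s hs h3
      rw [div_le_iff₀ hs0] at h4
      nlinarith
    · rw [max_eq_left h3, max_eq_left (by linarith : 3 - s ≤ (0 : ℝ))]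
      have h1 := UVE_up v s 10000 (by norm_num) (UVE_intv h s h3)
        (fun x hx => h.vb x (by linarith))
      have h2 := hh_int s (by linarith)
      have h4 := mul_pos hs0 (hh_pos s)
      nlinarith
  · intro s hs
    have hs0 : 0 < s := by linarith
    unfold UVE_V
    rw [div_le_iff₀ hs0]
    have h1 := UVE_up u s 10000 (by norm_num) (UVE_intu h s hs)
        (fun x hx => h.ub x (by linarith))
    have h2 := hh_int s (by linarith)
    have h4 := mul_pos hs0 (hh_pos s)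
    nlinarith

theorem UVE_mono {u v u' v' : ℝ → ℝ} (h : UVE_G u v) (h' : UVE_G u' v')
    (hu : ∀ s, 1 ≤ s → u s ≤ u' s) (hv : ∀ s, 2 ≤ s → v s ≤ v' s) :
    (∀ s, 1 ≤ s → UVE_U v s ≤ UVE_U v' s) ∧ (∀ s, 2 ≤ s → UVE_V u s ≤ UVE_V u' s) := by
  constructor
  · intro s hs
    unfold UVE_U
    have h1 : ∫ t in Set.Ioi (max s 3), v (t - 1) ≤ ∫ t in Set.Ioi (max s 3), v' (t - 1) := by
      apply setIntegral_mono_on (UVE_intv h _ (le_max_right _ _))
        (UVE_intv h' _ (le_max_right _ _)) measurableSet_Ioi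
      intro t ht
      rw [Set.mem_Ioi] at ht
      exact hv _ (by linarith [le_max_right s 3])
    gcongr
  · intro s hs
    unfold UVE_V
    have h1 : ∫ t in Set.Ioi s, u (t - 1) ≤ ∫ t in Set.Ioi s, u' (t - 1) := by
      apply setIntegral_mono_on (UVE_intu h _ hs)
        (UVE_intu h' _ hs) measurableSet_Ioi
      intro t ht
      rw [Set.mem_Ioi] at ht
      exact hu _ (by linarith)
    gcongr

/-- The approximations. -/
noncomputable def UVE_seq : ℕ → (ℝ → ℝ) × (ℝ → ℝ)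
  | 0 => (fun _ => 0, fun _ => 0)
  | k + 1 => (UVE_U (UVE_seq k).2, UVE_V (UVE_seq k).1)

theorem UVE_seq_G (k : ℕ) : UVE_G (UVE_seq k).1 (UVE_seq k).2 := by
  induction k with
  | zero =>
    refine ⟨?_, ?_, ?_, ?_, ?_, ?_⟩
    · intro s _; exact le_rfl
    · intro s _; exact le_rfl
    · intro s _ s' _ _; exact le_rfl
    · intro s _ s' _ _; exact le_rfl
    · intro s _
      have := hh_pos s
      change (0 : ℝ) ≤ _
      positivity
    · intro s _
      have := hh_pos s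
      change (0 : ℝ) ≤ _
      positivity
  | succ k ih => exact UVE_step ih

theorem UVE_seq_mono (k : ℕ) : (∀ s, 1 ≤ s → (UVE_seq k).1 s ≤ (UVE_seq (k + 1)).1 s) ∧
    (∀ s, 2 ≤ s → (UVE_seq k).2 s ≤ (UVE_seq (k + 1)).2 s) := by
  induction k with
  | zero => exact ⟨fun s hs => (UVE_seq_G 1).u0 s hs, fun s hs => (UVE_seq_G 1).v0 s hs⟩
  | succ k ih => exact UVE_mono (UVE_seq_G k) (UVE_seq_G (k + 1)) ih.1 ih.2

open Filter Topology in
/-- Existence of `u = F - 1`, `v = 1 - f`.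

Proof. Iterate: `u_0 = v_0 = 0`, `v_{k+1}(s) = s⁻¹ ∫_{t > s} u_k(t - 1) dt` (`s ≥ 2`),
`u_{k+1}(s) = s⁻¹ (max 0 (3 - s) + ∫_{t > max s 3} v_k(t - 1) dt)` (`s ≥ 1`). By induction both are
nonnegative, nonincreasing (a nonnegative nonincreasing numerator times `1/s`), increasing in `k`, and
bounded by `C hh` with `C = 1000`: by `hh_int` (`s ≥ 2`, resp. `s ≥ 3`) and `hh_int3` the integral terms are at most
`(49/50) C hh s`, and `(3 - s)/s ≤ (1/50) C hh s` on `[1, 3]` (`2 ≤ 20 e^(-2.2)` on `[1,2]`,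
`1/2 ≤ 20 e^(-3.3)` on `[2, 3]`). Put `u = sup u_k`, `v = sup v_k` (limits); dominated (or monotone)
convergence gives the equations: `eqv`; for `s ≥ 3` `equ`; for `1 ≤ s ≤ 3`
`s u(s) = 3 - s + ∫_{t>3} v(t-1) dt = 3 - s + 3 u(3)`, i.e. `equ'`. -/
theorem exists_uv : ∃ (C : ℝ) (u v : ℝ → ℝ), 0 < C ∧ UV C u v := by
  have hG := UVE_seq_G
  have limu : ∀ s, 1 ≤ s → Tendsto (fun k => (UVE_seq k).1 s) atTop
      (𝓝 (⨆ k, (UVE_seq k).1 s)) := by
    intro s hs
    apply tendsto_atTop_ciSup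
    · exact monotone_nat_of_le_succ fun k => (UVE_seq_mono k).1 s hs
    · refine ⟨10000 * hh s, ?_⟩
      rintro _ ⟨k, rfl⟩
      exact (hG k).ub s hs
  have limv : ∀ s, 2 ≤ s → Tendsto (fun k => (UVE_seq k).2 s) atTop
      (𝓝 (⨆ k, (UVE_seq k).2 s)) := by
    intro s hs
    apply tendsto_atTop_ciSup
    · exact monotone_nat_of_le_succ fun k => (UVE_seq_mono k).2 s hs
    · refine ⟨10000 * hh s, ?_⟩
      rintro _ ⟨k, rfl⟩
      exact (hG k).vb s hs
  set u : ℝ → ℝ := fun s => ⨆ k, (UVE_seq k).1 s with hu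
  set v : ℝ → ℝ := fun s => ⨆ k, (UVE_seq k).2 s with hv
  have limu' : ∀ s, 1 ≤ s → Tendsto (fun k => (UVE_seq k).1 s) atTop (𝓝 (u s)) := limu
  have limv' : ∀ s, 2 ≤ s → Tendsto (fun k => (UVE_seq k).2 s) atTop (𝓝 (v s)) := limv
  have hint_u : ∀ s, 2 ≤ s → Tendsto (fun k => ∫ t in Set.Ioi s, (UVE_seq k).1 (t - 1)) atTop
      (𝓝 (∫ t in Set.Ioi s, u (t - 1))) := by
    intro s hs
    apply tendsto_integral_of_dominated_convergence (fun t => 10000 * hh (t - 1))
    · intro k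
      exact (UVE_intu (hG k) s hs).aestronglyMeasurable
    · exact (hh_integrable s).const_mul 10000
    · intro k
      refine (ae_restrict_mem measurableSet_Ioi).mono fun t ht => ?_
      rw [Set.mem_Ioi] at ht
      rw [Real.norm_eq_abs, abs_of_nonneg ((hG k).u0 _ (by linarith))]
      exact (hG k).ub _ (by linarith)
    · refine (ae_restrict_mem measurableSet_Ioi).mono fun t ht => ?_
      rw [Set.mem_Ioi] at ht
      exact limu' _ (by linarith)
  have hint_v : ∀ s, 3 ≤ s → Tendsto (fun k => ∫ t in Set.Ioi s, (UVE_seq k).2 (t - 1)) atTop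
      (𝓝 (∫ t in Set.Ioi s, v (t - 1))) := by
    intro s hs
    apply tendsto_integral_of_dominated_convergence (fun t => 10000 * hh (t - 1))
    · intro k
      exact (UVE_intv (hG k) s hs).aestronglyMeasurable
    · exact (hh_integrable s).const_mul 10000
    · intro k
      refine (ae_restrict_mem measurableSet_Ioi).mono fun t ht => ?_
      rw [Set.mem_Ioi] at ht
      rw [Real.norm_eq_abs, abs_of_nonneg ((hG k).v0 _ (by linarith))]
      exact (hG k).vb _ (by linarith)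
    · refine (ae_restrict_mem measurableSet_Ioi).mono fun t ht => ?_
      rw [Set.mem_Ioi] at ht
      exact limv' _ (by linarith)
  have equ3 : ∀ s, 3 ≤ s → s * u s = ∫ t in Set.Ioi s, v (t - 1) := by
    intro s hs
    have h1 : Tendsto (fun k => s * (UVE_seq (k + 1)).1 s) atTop (𝓝 (s * u s)) :=
      ((limu' s (by linarith)).comp (tendsto_add_atTop_nat 1)).const_mul s
    have h2 : (fun k => s * (UVE_seq (k + 1)).1 s) =
        fun k => ∫ t in Set.Ioi s, (UVE_seq k).2 (t - 1) := by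
      funext k
      change s * UVE_U (UVE_seq k).2 s = _
      unfold UVE_U
      rw [max_eq_left (by linarith : 3 - s ≤ (0 : ℝ)), max_eq_left hs, zero_add]
      field_simp
    rw [h2] at h1
    exact tendsto_nhds_unique h1 (hint_v s hs)
  refine ⟨10000, u, v, by norm_num, ?_⟩
  refine ⟨?_, ?_, ?_, ?_, ?_, ?_, ?_, equ3, ?_⟩
  · intro s hs
    exact ge_of_tendsto' (limu' s hs) fun k => (hG k).u0 s hs
  · intro s hs
    exact ge_of_tendsto' (limv' s hs) fun k => (hG k).v0 s hs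
  · intro s hs s' hs' hss
    exact le_of_tendsto_of_tendsto' (limu' s' hs') (limu' s hs) fun k => (hG k).uanti hs hs' hss
  · intro s hs s' hs' hss
    exact le_of_tendsto_of_tendsto' (limv' s' hs') (limv' s hs) fun k => (hG k).vanti hs hs' hss
  · intro s hs
    exact le_of_tendsto' (limu' s hs) fun k => (hG k).ub s hs
  · intro s hs
    exact le_of_tendsto' (limv' s hs) fun k => (hG k).vb s hs
  · intro s hs
    have h1 : Tendsto (fun k => s * (UVE_seq (k + 1)).2 s) atTop (𝓝 (s * v s)) :=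
      ((limv' s (by linarith)).comp (tendsto_add_atTop_nat 1)).const_mul s
    have h2 : (fun k => s * (UVE_seq (k + 1)).2 s) =
        fun k => ∫ t in Set.Ioi s, (UVE_seq k).1 (t - 1) := by
      funext k
      change s * UVE_V (UVE_seq k).1 s = _
      unfold UVE_V
      have : s ≠ 0 := by linarith
      field_simp
    rw [h2] at h1
    exact tendsto_nhds_unique h1 (hint_u s hs)
  · intro s hs h3
    have h1 : Tendsto (fun k => s * (UVE_seq (k + 1)).1 s) atTop (𝓝 (s * u s)) :=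
      ((limu' s (by linarith)).comp (tendsto_add_atTop_nat 1)).const_mul s
    have h2 : (fun k => s * (UVE_seq (k + 1)).1 s) =
        fun k => (3 - s) + ∫ t in Set.Ioi (3 : ℝ), (UVE_seq k).2 (t - 1) := by
      funext k
      change s * UVE_U (UVE_seq k).2 s = _
      unfold UVE_U
      rw [max_eq_right (by linarith : (0 : ℝ) ≤ 3 - s), max_eq_right h3]
      have : s ≠ 0 := by linarith
      field_simp
    rw [h2] at h1
    have h4 := tendsto_nhds_unique h1 ((hint_v 3 le_rfl).const_add (3 - s))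
    rw [← equ3 3 le_rfl] at h4
    linarith

end Pool.Agent.Lib.H59C
end

-- from Lib.H59C.UVF
section

/-!
# UVF: the functions of the linear sieve on short intervals
-/

open Finset MeasureTheory

namespace Pool.Agent.Lib.H59C

theorem UVF_int (C : ℝ) (f : ℝ → ℝ) (a s : ℝ) (hf : AntitoneOn f (Set.Ici a))
    (h0 : ∀ x, a ≤ x → 0 ≤ f x) (hb : ∀ x, a ≤ x → f x ≤ C * hh x) (hs : a + 1 ≤ s) :
    IntegrableOn (fun t => f (t - 1)) (Set.Ioi s) := by
  have hm : AEMeasurable (fun t => f (t - 1)) (volume.restrict (Set.Ioi s)) := by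
    apply aemeasurable_restrict_of_antitoneOn measurableSet_Ioi
    intro x hx y hy hxy
    rw [Set.mem_Ioi] at hx hy
    apply hf
    · rw [Set.mem_Ici]; linarith
    · rw [Set.mem_Ici]; linarith
    · linarith
  refine Integrable.mono' ((hh_integrable s).const_mul C) hm.aestronglyMeasurable ?_
  refine (ae_restrict_mem measurableSet_Ioi).mono fun t ht => ?_
  rw [Set.mem_Ioi] at ht
  rw [Real.norm_eq_abs, abs_of_nonneg (h0 _ (by linarith))]
  exact hb _ (by linarith)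

theorem UVF_shift (f : ℝ → ℝ) (s : ℝ) :
    ∫ t in Set.Ioi s, f (t - 1) = ∫ x in Set.Ioi (s - 1), f x := by
  rw [← integral_indicator measurableSet_Ioi, ← integral_indicator measurableSet_Ioi,
    ← integral_sub_right_eq_self (fun x => (Set.Ioi (s - 1)).indicator f x) 1]
  congr 1
  funext t
  simp only [Set.indicator, Set.mem_Ioi, sub_lt_sub_iff_right]

theorem UVF_fub (Q : ℝ → ℝ) (hm : AEStronglyMeasurable Q (volume.restrict (Set.Ioi 2)))
    (hi : IntegrableOn (fun y => (y - 2) * Q y) (Set.Ioi 2)) :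
    ∫ x in Set.Ioi (2 : ℝ), ∫ y in Set.Ioi x, Q y = ∫ y in Set.Ioi (2 : ℝ), (y - 2) * Q y := by
  set μ := volume.restrict (Set.Ioi (2 : ℝ)) with hμ
  set f : ℝ → ℝ → ℝ := fun x y => (Set.Ioi x).indicator Q y with hf
  have hf1 : Function.uncurry f = ({p : ℝ × ℝ | p.1 < p.2}).indicator (fun p => Q p.2) := by
    funext p
    simp only [Function.uncurry, hf, Set.indicator, Set.mem_Ioi, Set.mem_setOf_eq]
  have hmeas : MeasurableSet {p : ℝ × ℝ | p.1 < p.2} := measurableSet_lt measurable_fst measurable_snd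
  have hfm : AEStronglyMeasurable (Function.uncurry f) (μ.prod μ) := by
    rw [hf1]
    exact (hm.comp_snd).indicator hmeas
  have hin : ∀ y, 2 < y → ∀ g : ℝ → ℝ, (fun x => g ((Set.Ioi x).indicator Q y)) =
      fun x => if x < y then g (Q y) else g 0 := by
    intro y _ g
    funext x
    simp only [Set.indicator, Set.mem_Ioi]
    split_ifs <;> rfl
  have hfun : ∀ y, (fun x => f x y) = (Set.Iio y).indicator (fun _ => Q y) := by
    intro y
    funext x
    simp only [hf, Set.indicator, Set.mem_Ioi, Set.mem_Iio]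
  have hnfun : ∀ y, (fun x => ‖f x y‖) = (Set.Iio y).indicator (fun _ => ‖Q y‖) := by
    intro y
    funext x
    simp only [hf, Set.indicator, Set.mem_Ioi, Set.mem_Iio]
    split_ifs <;> simp
  have hset : ∀ y, 2 < y → ∀ c : ℝ, ∫ x, (Set.Iio y).indicator (fun _ => c) x ∂μ = (y - 2) * c := by
    intro y hy c
    rw [hμ, setIntegral_indicator measurableSet_Iio, Set.Ioi_inter_Iio, setIntegral_const]
    simp only [Measure.real, Real.volume_Ioo, smul_eq_mul]
    rw [ENNReal.toReal_ofReal (by linarith)]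
  have hint : Integrable (Function.uncurry f) (μ.prod μ) := by
    rw [integrable_prod_iff' hfm]
    constructor
    · refine (ae_restrict_mem measurableSet_Ioi).mono fun y hy => ?_
      have e1 : (fun x => Function.uncurry f (x, y)) = (Set.Iio y).indicator (fun _ => Q y) := hfun y
      rw [e1, integrable_indicator_iff measurableSet_Iio, IntegrableOn, hμ,
        Measure.restrict_restrict measurableSet_Iio, Set.Iio_inter_Ioi]
      exact integrableOn_const (by simp)
    · have e2 : ∀ y ∈ Set.Ioi (2 : ℝ), ‖(y - 2) * Q y‖ = ∫ x, ‖Function.uncurry f (x, y)‖ ∂μ := by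
        intro y hy
        rw [Set.mem_Ioi] at hy
        have e3 : (fun x => ‖Function.uncurry f (x, y)‖) = (Set.Iio y).indicator (fun _ => ‖Q y‖) :=
          hnfun y
        rw [e3, hset y hy, norm_mul, Real.norm_eq_abs, abs_of_nonneg (by linarith : 0 ≤ y - 2)]
      exact (integrableOn_congr_fun e2 measurableSet_Ioi).mp hi.norm
  have hswap := integral_integral_swap hint
  have hL : ∫ x, ∫ y, f x y ∂μ ∂μ = ∫ x in Set.Ioi (2 : ℝ), ∫ y in Set.Ioi x, Q y := by
    rw [hμ]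
    apply setIntegral_congr_fun measurableSet_Ioi
    intro x hx
    rw [Set.mem_Ioi] at hx
    simp only [hf]
    rw [setIntegral_indicator measurableSet_Ioi, Set.Ioi_inter_Ioi, sup_eq_right.mpr hx.le]
  have hR : ∫ y, ∫ x, f x y ∂μ ∂μ = ∫ y in Set.Ioi (2 : ℝ), (y - 2) * Q y := by
    rw [hμ]
    apply setIntegral_congr_fun measurableSet_Ioi
    intro y hy
    rw [Set.mem_Ioi] at hy
    have e1 := hset y hy (Q y)
    rw [← hfun y, hμ] at e1
    exact e1
  rw [← hL, hswap, hR]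

/-- `F(s) = 1 + u(s) = A/s` on `[1, 3]`, `f(s) = 1 - v(s) = A log (s-1)/s` on `[2, 4]`.

Proof. `A = 3 (1 + u 3) > 0` and `equ'`. For `2 ≤ s ≤ 4` by `eqv`
`s f(s) - 2 f(2) = (s - 2) + ∫_2^s u(t-1) dt = ∫_2^s (1 + u(t - 1)) dt = A log (s - 1)`, as `1 ≤ t - 1 ≤ 3`. It remains
to show `B := 2 f(2) = 0`. Let `Q = u + v` on `[2, ∞)`, `R(y) = ∫_{x > y} Q(x) dx`. By `eqv`, `equ`:
`s Q(s) = R(s - 1)` for `s ≥ 3`. Let `J(s) = (s - 1) R(s - 1) - ∫_{s-1}^s x Q(x) dx` (`s ≥ 3`). `Q` is continuous on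
`[2, ∞)` (by the formulas: `s u(s)`, `s v(s)` are integrals), so
`J'(s) = R(s-1) - (s-1) Q(s-1) - s Q(s) + (s-1) Q(s-1) = R(s-1) - s Q(s) = 0`, and `J(s) → 0` as `s → ∞` because
`Q ≤ 2 C hh`. (Without derivatives: `∫_{s-1}^s x Q(x) dx` for `s ≥ 4` is `∫_{s-1}^s R(x-1) dx`, integrate by parts.)
So `J(3) = 0`: `2 R(2) = ∫_2^3 x Q(x) dx`, `R(2) = 3 Q(3)`. On `[2, 3]`
`x Q(x) = x (1 + u) - x (1 - v) = A - B - A log (x - 1)`, hence
`2 (A - B - A log 2) = (A - B) - A (2 log 2 - 1)`, i.e. `B = 0`. -/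
theorem uv_formula {C : ℝ} {u v : ℝ → ℝ} (h : UV C u v) : ∃ A : ℝ, 0 < A ∧
    (∀ s, 1 ≤ s → s ≤ 3 → 1 + u s = A / s) ∧
    (∀ s, 2 ≤ s → s ≤ 4 → 1 - v s = A * Real.log (s - 1) / s) := by
  have hC : 0 ≤ C := by
    by_contra hcon
    push Not at hcon
    have h1 := h.u0 1 le_rfl
    have h2 := h.ub 1 le_rfl
    have h3 := hh_pos 1
    nlinarith
  have iu : ∀ s, 2 ≤ s → IntegrableOn (fun t => u (t - 1)) (Set.Ioi s) := fun s hs =>
    UVF_int C u 1 s h.uanti h.u0 h.ub (by linarith)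
  have iv : ∀ s, 3 ≤ s → IntegrableOn (fun t => v (t - 1)) (Set.Ioi s) := fun s hs =>
    UVF_int C v 2 s h.vanti h.v0 h.vb (by linarith)
  set A : ℝ := 3 * (1 + u 3) with hA
  have hA0 : 0 < A := by
    have := h.u0 3 (by norm_num)
    linarith
  have hu : ∀ s, 1 ≤ s → s ≤ 3 → s * (1 + u s) = A := fun s h1 h3 => h.equ' s h1 h3
  set B : ℝ := 2 * (1 - v 2) with hB
  -- the formula for v with the constant B
  have hv : ∀ s, 2 ≤ s → s ≤ 4 → s * (1 - v s) = B + A * Real.log (s - 1) := by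
    intro s h2 h4
    have e1 := h.eqv s h2
    have e2 := h.eqv 2 le_rfl
    have e3 : ∫ t in Set.Ioi (2 : ℝ), u (t - 1) =
        (∫ t in Set.Ioc (2 : ℝ) s, u (t - 1)) + ∫ t in Set.Ioi s, u (t - 1) := by
      rw [← setIntegral_union Set.Ioc_disjoint_Ioi_same measurableSet_Ioi
        ((iu 2 le_rfl).mono_set Set.Ioc_subset_Ioi_self) (iu s h2), Set.Ioc_union_Ioi_eq_Ioi h2]
    have e4 : ∫ t in Set.Ioc (2 : ℝ) s, u (t - 1) = A * Real.log (s - 1) - (s - 2) := by
      rw [← intervalIntegral.integral_of_le h2]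
      have e5 : ∫ t in (2 : ℝ)..s, u (t - 1) = ∫ t in (2 : ℝ)..s, (fun x => A * x⁻¹ - 1) (t - 1) := by
        apply intervalIntegral.integral_congr
        intro t ht
        rw [Set.uIcc_of_le h2, Set.mem_Icc] at ht
        have e6 := hu (t - 1) (by linarith) (by linarith)
        have e7 : (t - 1) ≠ 0 := by linarith
        simp only
        field_simp
        linarith
      rw [e5, intervalIntegral.integral_comp_sub_right (fun x => A * x⁻¹ - 1) 1]
      have e8 : (2 : ℝ) - 1 = 1 := by norm_num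
      rw [e8]
      rw [intervalIntegral.integral_sub, intervalIntegral.integral_const_mul,
        integral_inv_of_pos (by norm_num) (by linarith), intervalIntegral.integral_const]
      · simp only [smul_eq_mul, mul_one, div_one]
        ring
      · apply IntervalIntegrable.const_mul
        apply intervalIntegral.intervalIntegrable_inv
        · intro x hx
          rw [Set.uIcc_of_le (by linarith), Set.mem_Icc] at hx
          linarith
        · exact continuousOn_id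
      · exact intervalIntegrable_const
    rw [e3, e4] at e2
    linarith
  -- Q
  set Q : ℝ → ℝ := fun x => u x + v x with hQ
  have Qm : AEStronglyMeasurable Q (volume.restrict (Set.Ioi 2)) := by
    apply AEMeasurable.aestronglyMeasurable
    apply aemeasurable_restrict_of_antitoneOn measurableSet_Ioi
    intro x hx y hy hxy
    rw [Set.mem_Ioi] at hx hy
    have e1 := h.uanti (by rw [Set.mem_Ici]; linarith : x ∈ Set.Ici (1 : ℝ))
      (by rw [Set.mem_Ici]; linarith : y ∈ Set.Ici (1 : ℝ)) hxy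
    have e2 := h.vanti (by rw [Set.mem_Ici]; linarith : x ∈ Set.Ici (2 : ℝ))
      (by rw [Set.mem_Ici]; linarith : y ∈ Set.Ici (2 : ℝ)) hxy
    simp only [hQ]
    linarith
  have Q0 : ∀ x, 2 < x → 0 ≤ Q x := by
    intro x hx
    have e1 := h.u0 x (by linarith)
    have e2 := h.v0 x (by linarith)
    simp only [hQ]
    linarith
  have Qb : ∀ x, 2 < x → x * Q x ≤ 20 * C * Real.exp (-1 * x) := by
    intro x hx
    have e1 := h.ub x (by linarith)
    have e2 := h.vb x (by linarith)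
    have e3 : hh x = Real.exp (-1 * x) * Real.exp (-(1 / 10) * x) := by
      unfold hh
      rw [max_eq_left hx.le, ← Real.exp_add]
      congr 1
      ring
    have e4 : x * Real.exp (-(1 / 10) * x) ≤ 10 := by
      have e5 := Real.add_one_le_exp (1 / 10 * x)
      have e6 : Real.exp (-(1 / 10) * x) * Real.exp (1 / 10 * x) = 1 := by
        rw [← Real.exp_add]
        have : -(1 / 10) * x + 1 / 10 * x = 0 := by ring
        rw [this, Real.exp_zero]
      have e7 := Real.exp_pos (-(1 / 10) * x)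
      nlinarith
    have e8 : Q x ≤ 2 * C * hh x := by
      simp only [hQ]
      linarith
    have e9 := Real.exp_pos (-1 * x)
    calc x * Q x ≤ x * (2 * C * hh x) := mul_le_mul_of_nonneg_left e8 (by linarith)
      _ = 2 * C * Real.exp (-1 * x) * (x * Real.exp (-(1 / 10) * x)) := by rw [e3]; ring
      _ ≤ 2 * C * Real.exp (-1 * x) * 10 := mul_le_mul_of_nonneg_left e4 (by positivity)
      _ = 20 * C * Real.exp (-1 * x) := by ring
  have iexp : IntegrableOn (fun x : ℝ => 20 * C * Real.exp (-1 * x)) (Set.Ioi 2) :=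
    (exp_neg_integrableOn_Ioi 2 one_pos).const_mul (20 * C)
  have ixQ : IntegrableOn (fun x => x * Q x) (Set.Ioi 2) := by
    refine Integrable.mono' iexp (aestronglyMeasurable_id.mul Qm) ?_
    refine (ae_restrict_mem measurableSet_Ioi).mono fun x hx => ?_
    rw [Set.mem_Ioi] at hx
    rw [Real.norm_eq_abs, abs_of_nonneg (mul_nonneg (by linarith) (Q0 x hx))]
    exact Qb x hx
  have iQ : IntegrableOn Q (Set.Ioi 2) := by
    refine Integrable.mono' iexp Qm ?_
    refine (ae_restrict_mem measurableSet_Ioi).mono fun x hx => ?_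
    rw [Set.mem_Ioi] at hx
    rw [Real.norm_eq_abs, abs_of_nonneg (Q0 x hx)]
    have := Qb x hx
    have := Q0 x hx
    nlinarith
  have hsQ : ∀ s, 3 ≤ s → s * Q s = ∫ x in Set.Ioi (s - 1), Q x := by
    intro s hs
    have e1 := h.eqv s (by linarith)
    have e2 := h.equ s hs
    rw [← UVF_shift Q s]
    simp only [hQ]
    rw [integral_add (iu s (by linarith)) (iv s hs), ← e1, ← e2]
    ring
  have hfub := UVF_fub Q Qm (by
    have : (fun y => (y - 2) * Q y) = fun y => y * Q y - 2 * Q y := by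
      funext y
      ring
    rw [this]
    exact ixQ.sub (iQ.const_mul 2))
  have hL : ∫ x in Set.Ioi (2 : ℝ), ∫ y in Set.Ioi x, Q y = ∫ x in Set.Ioi (3 : ℝ), x * Q x := by
    have e1 : ∫ x in Set.Ioi (2 : ℝ), ∫ y in Set.Ioi x, Q y =
        ∫ x in Set.Ioi (2 : ℝ), (fun x => (x + 1) * Q (x + 1)) x := by
      apply setIntegral_congr_fun measurableSet_Ioi
      intro x hx
      rw [Set.mem_Ioi] at hx
      have := hsQ (x + 1) (by linarith)
      rw [show x + 1 - 1 = x by ring] at this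
      simp only
      rw [this]
    have e2 := UVF_shift (fun x => (x + 1) * Q (x + 1)) 3
    have e3 : (3 : ℝ) - 1 = 2 := by norm_num
    rw [e3] at e2
    rw [e1, ← e2]
    apply setIntegral_congr_fun measurableSet_Ioi
    intro x _
    simp only [sub_add_cancel]
  have hR : ∫ y in Set.Ioi (2 : ℝ), (y - 2) * Q y =
      (∫ y in Set.Ioc (2 : ℝ) 3, y * Q y) + (∫ y in Set.Ioi (3 : ℝ), y * Q y) - 2 * (3 * Q 3) := by
    have e1 : ∫ y in Set.Ioi (2 : ℝ), (y - 2) * Q y =
        (∫ y in Set.Ioi (2 : ℝ), y * Q y) - 2 * ∫ y in Set.Ioi (2 : ℝ), Q y := by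
      rw [← integral_const_mul, ← integral_sub ixQ (iQ.const_mul 2)]
      congr 1
      funext y
      ring
    have e2 := hsQ 3 le_rfl
    have e3 : (3 : ℝ) - 1 = 2 := by norm_num
    rw [e3] at e2
    rw [e1, e2, ← setIntegral_union Set.Ioc_disjoint_Ioi_same measurableSet_Ioi
        (ixQ.mono_set Set.Ioc_subset_Ioi_self)
        (ixQ.mono_set (Set.Ioi_subset_Ioi (by norm_num))),
        Set.Ioc_union_Ioi_eq_Ioi (by norm_num)]
  rw [hL, hR] at hfub
  have hxQ : ∀ x, 2 ≤ x → x ≤ 3 → x * Q x = A - B - A * Real.log (x - 1) := by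
    intro x h2 h3
    have e1 := hu x (by linarith) h3
    have e2 := hv x h2 (by linarith)
    simp only [hQ]
    linarith
  have hI : ∫ y in Set.Ioc (2 : ℝ) 3, y * Q y = (A - B) - A * (2 * Real.log 2 - 1) := by
    rw [← intervalIntegral.integral_of_le (by norm_num)]
    have e5 : ∫ t in (2 : ℝ)..3, t * Q t = ∫ t in (2 : ℝ)..3,
        (fun x => (A - B) - A * Real.log x) (t - 1) := by
      apply intervalIntegral.integral_congr
      intro t ht
      rw [Set.uIcc_of_le (by norm_num), Set.mem_Icc] at ht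
      exact hxQ t ht.1 ht.2
    rw [e5, intervalIntegral.integral_comp_sub_right (fun x => (A - B) - A * Real.log x) 1]
    have e8 : (2 : ℝ) - 1 = 1 := by norm_num
    have e9 : (3 : ℝ) - 1 = 2 := by norm_num
    rw [e8, e9, intervalIntegral.integral_sub, intervalIntegral.integral_const_mul,
      integral_log, intervalIntegral.integral_const]
    · simp only [Real.log_one, smul_eq_mul]
      ring
    · exact intervalIntegrable_const
    · apply IntervalIntegrable.const_mul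
      exact intervalIntegral.intervalIntegrable_log'
  rw [hI] at hfub
  have h3Q := hxQ 3 (by norm_num) le_rfl
  have e9 : (3 : ℝ) - 1 = 2 := by norm_num
  rw [e9] at h3Q
  have hB0 : B = 0 := by linarith
  refine ⟨A, hA0, ?_, ?_⟩
  · intro s h1 h3
    rw [eq_div_iff (by linarith)]
    have := hu s h1 h3
    linarith
  · intro s h2 h4
    rw [eq_div_iff (by linarith)]
    have := hv s h2 h4
    rw [hB0] at this
    linarith

end Pool.Agent.Lib.H59C
end

-- from Lib.H59C.LIN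
section

/-!
# LIN: main terms of the linear sieve, final form
-/

open Finset MeasureTheory

namespace Pool.Agent.Lib.H59C

/-- From `exists_uv`, `uv_formula`, `main_ind` with `K = 1 + δ`, `δ = min η (ε/C1)` (`hh ≤ 1`). -/
theorem linear_sieve : ∃ A : ℝ, 0 < A ∧ ∀ ε : ℝ, 0 < ε → ∃ δ : ℝ, 0 < δ ∧
    ∀ (P : Finset ℕ) (g : ℕ → ℝ), (∀ q ∈ P, 2 ≤ q ∧ 0 ≤ g q ∧ g q < 1) → Om (1 + δ) P g →
    ∀ D z : ℝ, 2 ≤ z → z ≤ D →
    (Real.log D ≤ 3 * Real.log z →
      SS true D (P.filter (fun q : ℕ => (q : ℝ) < z)) g ≤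
        VP P g z * (A / (Real.log D / Real.log z) + ε)) ∧
    (2 * Real.log z ≤ Real.log D → Real.log D ≤ 4 * Real.log z →
      VP P g z * (A * Real.log (Real.log D / Real.log z - 1) / (Real.log D / Real.log z) - ε) ≤
        SS false D (P.filter (fun q : ℕ => (q : ℝ) < z)) g) := by
  obtain ⟨C, u, v, hC, h⟩ := exists_uv
  obtain ⟨A, hA, hF, hf⟩ := uv_formula h
  obtain ⟨η, C1, hη, hC1, hm⟩ := main_ind hC h
  refine ⟨A, hA, ?_⟩
  intro ε hε
  obtain ⟨δ, hδ⟩ : ∃ δ : ℝ, δ = min η (ε / C1) := ⟨_, rfl⟩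
  have hδ0 : 0 < δ := by
    rw [hδ]
    exact lt_min hη (by positivity)
  refine ⟨δ, hδ0, ?_⟩
  intro P g hP hOm D z hz hzD
  have hK1 : (1 : ℝ) ≤ 1 + δ := by linarith
  have hK2 : 1 + δ ≤ 1 + η := by
    have : δ ≤ η := by
      rw [hδ]
      exact min_le_left _ _
    linarith
  obtain ⟨h1, h2⟩ := hm (1 + δ) hK1 hK2 P g hP hOm D z hz hzD
  have hlz : 0 < Real.log z := Real.log_pos (by linarith)
  have hlD : Real.log z ≤ Real.log D := Real.log_le_log (by linarith) hzD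
  obtain ⟨s, hs⟩ : ∃ s : ℝ, s = Real.log D / Real.log z := ⟨_, rfl⟩
  rw [← hs] at h1 h2 ⊢
  have hs1 : 1 ≤ s := by
    rw [hs, le_div_iff₀ hlz]
    linarith
  have hVP : 0 ≤ VP P g z := by
    unfold VP
    apply prod_nonneg
    intro q hq
    have := (hP q (mem_filter.mp hq).1).2.2
    linarith
  have hhh : hh s ≤ 1 := by
    unfold hh
    rw [Real.exp_le_one_iff]
    have : (2 : ℝ) ≤ max s 2 := le_max_right _ _
    linarith
  have hhh0 : 0 ≤ hh s := by
    unfold hh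
    exact (Real.exp_pos _).le
  have hCδ : C1 * (1 + δ - 1) * hh s ≤ ε := by
    have h3 : δ ≤ ε / C1 := by
      rw [hδ]
      exact min_le_right _ _
    have h4 : C1 * δ ≤ ε := by
      rw [le_div_iff₀ hC1] at h3
      linarith
    have h5 : C1 * (1 + δ - 1) * hh s ≤ C1 * δ * 1 := by
      have h6 : C1 * (1 + δ - 1) = C1 * δ := by ring
      rw [h6]
      exact mul_le_mul_of_nonneg_left hhh (by positivity)
    linarith
  constructor
  · intro h3
    have hs3 : s ≤ 3 := by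
      rw [hs, div_le_iff₀ hlz]
      exact h3
    refine h1.trans (mul_le_mul_of_nonneg_left ?_ hVP)
    have := hF s hs1 hs3
    linarith
  · intro h3 h4
    have hs2 : 2 ≤ s := by
      rw [hs, le_div_iff₀ hlz]
      exact h3
    have hs4 : s ≤ 4 := by
      rw [hs, div_le_iff₀ hlz]
      exact h4
    refine le_trans (mul_le_mul_of_nonneg_left ?_ hVP) (h2 h3)
    have := hf s hs2 hs4
    linarith

end Pool.Agent.Lib.H59C
end

-- from Lib.H59C.MER1
section

/-!
# MER1: the sifting condition for `1/(q-1)`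
-/

open Finset

namespace Pool.Agent.Lib.H59C

theorem MER1_sq (w : ℕ) (hw : 2 ≤ w) (N : ℕ) :
    ∑ n ∈ Ico w N, 1 / (n : ℝ) ^ 2 ≤ 2 / (w : ℝ) := by
  have hw0 : (2 : ℝ) ≤ w := by exact_mod_cast hw
  rcases Nat.lt_or_ge N w with h | h
  · rw [Finset.Ico_eq_empty (by omega), Finset.sum_empty]
    positivity
  have key : ∀ M : ℕ, w ≤ M → ∑ n ∈ Ico w M, 1 / (n : ℝ) ^ 2 ≤ 1 / ((w : ℝ) - 1) - 1 / ((M : ℝ) - 1) := by
    intro M hM
    induction M, hM using Nat.le_induction with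
    | base => simp
    | succ M hM ih =>
      rw [Finset.sum_Ico_succ_top hM]
      have hM0 : (2 : ℝ) ≤ M := by
        have : 2 ≤ M := by omega
        exact_mod_cast this
      have e : 1 / (M : ℝ) ^ 2 ≤ 1 / ((M : ℝ) - 1) - 1 / (((M + 1 : ℕ) : ℝ) - 1) := by
        push_cast
        have h1 : (0 : ℝ) < (M : ℝ) - 1 := by linarith
        have h2 : 1 / ((M : ℝ) - 1) - 1 / ((M : ℝ) + 1 - 1) = 1 / (((M : ℝ) - 1) * M) := by
          rw [add_sub_cancel_right]
          field_simp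
          ring
        rw [h2]
        apply one_div_le_one_div_of_le (by positivity)
        nlinarith
      linarith
  have h1 := key N h
  have h2 : 0 ≤ 1 / ((N : ℝ) - 1) := by
    have : (2 : ℝ) ≤ N := by
      have : 2 ≤ N := by omega
      exact_mod_cast this
    apply div_nonneg (by norm_num)
    linarith
  have h3 : 1 / ((w : ℝ) - 1) ≤ 2 / w := by
    rw [div_le_div_iff₀ (by linarith) (by linarith)]
    linarith
  linarith

/-- The condition of the linear sieve for the density `1/(q-1)` on sets of large primes.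

Proof. Let `2 ≤ u ≤ z`. `V(u)/V(z) = ∏_{q ∈ P, u ≤ q < z} (1 - 1/(q-1))⁻¹ ≤ ∏_{max u w0 ≤ q < z, q prime} (1 - 1/(q-1))⁻¹`,
whose logarithm is at most `∑ (1/q + 10/q²) ≤ log log z - log log (max u w0) + (C + 10)/log w0` (`mertens`), so it is
`≤ (1 + δ) log z/log (max u w0) ≤ (1 + δ) log z/log u` for `w0` large (if `z ≤ w0` the product is empty). -/
theorem om_gq (δ : ℝ) (hδ : 0 < δ) : ∃ w0 : ℕ, 5 ≤ w0 ∧ ∀ P : Finset ℕ,
    (∀ q ∈ P, q.Prime ∧ w0 ≤ q) → Om (1 + δ) P gq := by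
  obtain ⟨C, hC, hmer⟩ := mertens
  have hδ1 : 0 < Real.log (1 + δ) := Real.log_pos (by linarith)
  obtain ⟨w0, hw5, hwl⟩ : ∃ w0 : ℕ, 5 ≤ w0 ∧ C / Real.log w0 + 20 / (w0 : ℝ) ≤ Real.log (1 + δ) := by
    have t1 : Filter.Tendsto (fun w : ℕ => C / Real.log (w : ℝ)) Filter.atTop (nhds 0) :=
      Filter.Tendsto.div_atTop tendsto_const_nhds
        (Real.tendsto_log_atTop.comp tendsto_natCast_atTop_atTop)
    have t2 : Filter.Tendsto (fun w : ℕ => 20 / (w : ℝ)) Filter.atTop (nhds 0) :=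
      Filter.Tendsto.div_atTop tendsto_const_nhds tendsto_natCast_atTop_atTop
    have t3 := t1.add t2
    rw [add_zero] at t3
    have t4 := t3.eventually (ge_mem_nhds hδ1)
    obtain ⟨w, hw, hw5⟩ := (t4.and (Filter.eventually_ge_atTop 5)).exists
    exact ⟨w, hw5, hw⟩
  refine ⟨w0, hw5, fun P hP u z hu huz => ?_⟩
  have hw0' : (5 : ℝ) ≤ w0 := by exact_mod_cast hw5
  have hlu : 0 < Real.log u := Real.log_pos (by linarith)
  have hlz : 0 < Real.log z := Real.log_pos (by linarith)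
  have hluz : Real.log u ≤ Real.log z := Real.log_le_log (by linarith) huz
  -- factors
  have hfac : ∀ q ∈ P, 0 < 1 - gq q ∧ (1 - gq q)⁻¹ ≤ Real.exp (1 / (q : ℝ) + 10 * (1 / (q : ℝ) ^ 2)) := by
    intro q hq
    have hq5 : (5 : ℝ) ≤ q := by
      have : 5 ≤ q := hw5.trans (hP q hq).2
      exact_mod_cast this
    have e : 1 - gq q = ((q : ℝ) - 2) / ((q : ℝ) - 1) := by
      unfold gq
      have : (q : ℝ) - 1 ≠ 0 := by linarith
      field_simp
      ring
    have h2 : (0 : ℝ) < (q : ℝ) - 2 := by linarith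
    have h1 : (0 : ℝ) < (q : ℝ) - 1 := by linarith
    refine ⟨by rw [e]; positivity, ?_⟩
    rw [e, inv_div]
    have e2 : ((q : ℝ) - 1) / ((q : ℝ) - 2) = 1 / ((q : ℝ) - 2) + 1 := by
      field_simp
      ring
    rw [e2]
    refine (Real.add_one_le_exp _).trans (Real.exp_le_exp.2 ?_)
    have e3 : 1 / (q : ℝ) + 10 * (1 / (q : ℝ) ^ 2) = (q + 10) / (q : ℝ) ^ 2 := by
      field_simp
    rw [e3, div_le_div_iff₀ h2 (by positivity)]
    nlinarith
  -- split of the product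
  have hsplit : VP P gq z = VP P gq u *
      ∏ q ∈ P.filter (fun q : ℕ => u ≤ (q : ℝ) ∧ (q : ℝ) < z), (1 - gq q) := by
    unfold VP
    rw [← Finset.prod_union]
    · apply Finset.prod_congr _ (fun _ _ => rfl)
      ext q
      simp only [mem_filter, mem_union]
      constructor
      · rintro ⟨h1, h2⟩
        rcases lt_or_ge (q : ℝ) u with h3 | h3
        · exact Or.inl ⟨h1, h3⟩
        · exact Or.inr ⟨h1, h3, h2⟩
      · rintro (⟨h1, h2⟩ | ⟨h1, h2, h3⟩)
        · exact ⟨h1, h2.trans_le huz⟩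
        · exact ⟨h1, h3⟩
    · rw [Finset.disjoint_left]
      intro q h1 h2
      rw [mem_filter] at h1 h2
      exact absurd h1.2 (not_lt.2 h2.2.1)
  have hVu : 0 < VP P gq u := by
    unfold VP
    apply Finset.prod_pos
    intro q hq
    exact (hfac q (mem_filter.1 hq).1).1
  obtain ⟨W, hW⟩ : ∃ W, W = ∏ q ∈ P.filter (fun q : ℕ => u ≤ (q : ℝ) ∧ (q : ℝ) < z), (1 - gq q) :=
    ⟨_, rfl⟩
  rw [← hW] at hsplit
  have hW0 : 0 < W := by
    rw [hW]
    apply Finset.prod_pos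
    intro q hq
    exact (hfac q (mem_filter.1 hq).1).1
  suffices hmain : W⁻¹ ≤ (1 + δ) * (Real.log z / Real.log u) by
    rw [hsplit]
    have h1 : 1 ≤ (1 + δ) * (Real.log z / Real.log u) * W := by
      have := mul_le_mul_of_nonneg_right hmain hW0.le
      rwa [inv_mul_cancel₀ hW0.ne'] at this
    calc VP P gq u = VP P gq u * 1 := (mul_one _).symm
      _ ≤ VP P gq u * ((1 + δ) * (Real.log z / Real.log u) * W) :=
        mul_le_mul_of_nonneg_left h1 hVu.le
      _ = _ := by ring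
  rcases le_or_gt z w0 with hzw | hzw
  · -- empty product
    have hempty : P.filter (fun q : ℕ => u ≤ (q : ℝ) ∧ (q : ℝ) < z) = ∅ := by
      rw [Finset.filter_eq_empty_iff]
      rintro q hq ⟨-, h2⟩
      have : (w0 : ℝ) ≤ q := by exact_mod_cast (hP q hq).2
      linarith
    rw [hW, hempty, Finset.prod_empty, inv_one]
    have h1 : 1 ≤ Real.log z / Real.log u := by
      rw [one_le_div hlu]
      exact hluz
    nlinarith
  · have hu' : max u w0 ≤ z := max_le huz hzw.le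
    have h2u' : 2 ≤ max u (w0 : ℝ) := le_max_of_le_left hu
    have hm := (abs_le.1 (hmer (max u w0) z h2u' hu')).2
    -- the exponent
    have h1 : W⁻¹ ≤ Real.exp (∑ q ∈ P.filter (fun q : ℕ => u ≤ (q : ℝ) ∧ (q : ℝ) < z),
        (1 / (q : ℝ) + 10 * (1 / (q : ℝ) ^ 2))) := by
      rw [hW, Real.exp_sum, ← Finset.prod_inv_distrib]
      apply Finset.prod_le_prod
      · intro q hq
        exact (inv_pos.2 (hfac q (mem_filter.1 hq).1).1).le
      · intro q hq
        exact (hfac q (mem_filter.1 hq).1).2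
    refine h1.trans ?_
    have h2 : ∑ q ∈ P.filter (fun q : ℕ => u ≤ (q : ℝ) ∧ (q : ℝ) < z), 1 / (q : ℝ) ≤
        ∑ q ∈ PR (max u w0) z, 1 / (q : ℝ) := by
      apply Finset.sum_le_sum_of_subset_of_nonneg
      · intro q hq
        rw [mem_filter] at hq
        rw [mem_PR]
        refine ⟨(hP q hq.1).1, max_le hq.2.1 ?_, hq.2.2⟩
        exact_mod_cast (hP q hq.1).2
      · intro q _ _
        positivity
    have h3 : ∑ q ∈ P.filter (fun q : ℕ => u ≤ (q : ℝ) ∧ (q : ℝ) < z), 1 / (q : ℝ) ^ 2 ≤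
        ∑ q ∈ Ico w0 ⌈z⌉₊, 1 / (q : ℝ) ^ 2 := by
      apply Finset.sum_le_sum_of_subset_of_nonneg
      · intro q hq
        rw [mem_filter] at hq
        rw [mem_Ico]
        exact ⟨(hP q hq.1).2, Nat.lt_ceil.2 hq.2.2⟩
      · intro q _ _
        positivity
    have h4 := MER1_sq w0 (by omega) ⌈z⌉₊
    have hlw : 0 < Real.log w0 := Real.log_pos (by linarith)
    have hlu' : Real.log u ≤ Real.log (max u w0) := Real.log_le_log (by linarith) (le_max_left _ _)
    have hlw' : Real.log w0 ≤ Real.log (max u w0) :=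
      Real.log_le_log (by linarith) (le_max_right _ _)
    have h5 : Real.log (Real.log u) ≤ Real.log (Real.log (max u w0)) := Real.log_le_log hlu hlu'
    have h6 : C / Real.log (max u w0) ≤ C / Real.log w0 :=
      div_le_div_of_nonneg_left hC.le hlw hlw'
    have h7 : ∑ q ∈ P.filter (fun q : ℕ => u ≤ (q : ℝ) ∧ (q : ℝ) < z),
        (1 / (q : ℝ) + 10 * (1 / (q : ℝ) ^ 2)) ≤
        Real.log (Real.log z) - Real.log (Real.log u) + Real.log (1 + δ) := by
      rw [Finset.sum_add_distrib, ← Finset.mul_sum]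
      have h8 : 10 * (2 / (w0 : ℝ)) = 20 / (w0 : ℝ) := by ring
      linarith
    refine (Real.exp_le_exp.2 h7).trans (le_of_eq ?_)
    rw [Real.exp_add, Real.exp_sub, Real.exp_log hlz, Real.exp_log hlu, Real.exp_log (by linarith)]
    ring

end Pool.Agent.Lib.H59C
end

-- from Lib.H59C.RW2
section

/-!
# RW2: Rosser's weights are sieve weights
-/

open Finset

namespace Pool.Agent.Lib.H59C

/-- Both inequalities by strong induction on `T` (for all `D`), with `SS_rec`, `h = 1`. If `T = ∅`, `SS = 1`.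
Let `T ≠ ∅`, `m = min T`. Upper: `SS true D T = 1 - ∑_{p ∈ T, p³ < D} SS false (D/p) T_{<p} ≥ 1 - ∑_p 1[T_{<p} = ∅] ≥ 0`,
because `T_{<p} = ∅` only for `p = m`. Lower: `SS false D T = 1 - ∑_{p ∈ T} SS true (D/p) T_{<p}
≤ 1 - SS true (D/m) ∅ = 0`, because all the terms are `≥ 0`. -/
theorem SS_sieve (T : Finset ℕ) : ∀ D : ℝ,
    (if T = ∅ then (1 : ℝ) else 0) ≤ SS true D T (fun _ => 1) ∧
      SS false D T (fun _ => 1) ≤ (if T = ∅ then (1 : ℝ) else 0) := by
  classical
  induction T using Finset.strongInduction with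
  | H T ih =>
    intro D
    rcases T.eq_empty_or_nonempty with hT | hT
    · subst hT
      rw [RW1_empty, RW1_empty]
      simp
    have hne : T ≠ ∅ := hT.ne_empty
    rw [if_neg hne]
    have hss : ∀ p ∈ T, T.filter (fun q => q < p) ⊂ T := by
      intro p hp
      refine Finset.filter_ssubset.2 ⟨p, hp, lt_irrefl p⟩
    set m := T.min' hT with hm
    have hmT : m ∈ T := Finset.min'_mem T hT
    have hmin : ∀ p ∈ T, m ≤ p := fun p hp => Finset.min'_le T p hp
    have hem : T.filter (fun q => q < m) = ∅ := by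
      rw [Finset.filter_eq_empty_iff]
      intro q hq
      exact not_lt.2 (hmin q hq)
    have hem' : ∀ p ∈ T, p ≠ m → T.filter (fun q => q < p) ≠ ∅ := by
      intro p hp hpm h
      rw [Finset.filter_eq_empty_iff] at h
      exact h hmT (lt_of_le_of_ne (hmin p hp) (Ne.symm hpm))
    constructor
    · rw [SS_rec]
      have h1 : ∑ p ∈ T.filter (fun p : ℕ => true = true → (p : ℝ) ^ 3 < D),
          (fun _ : ℕ => (1 : ℝ)) p * SS (!true) (D / p) (T.filter (fun q => q < p)) (fun _ => 1) ≤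
          ∑ p ∈ T.filter (fun p : ℕ => true = true → (p : ℝ) ^ 3 < D),
          (if p = m then (1 : ℝ) else 0) := by
        refine Finset.sum_le_sum fun p hp => ?_
        have hpT := (Finset.mem_filter.1 hp).1
        have h2 := (ih _ (hss p hpT) (D / p)).2
        rw [one_mul]
        refine h2.trans ?_
        by_cases hpm : p = m
        · rw [if_pos hpm]
          split_ifs <;> norm_num
        · rw [if_neg hpm, if_neg (hem' p hpT hpm)]
      have h2 : ∑ p ∈ T.filter (fun p : ℕ => true = true → (p : ℝ) ^ 3 < D),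
          (if p = m then (1 : ℝ) else 0) ≤ 1 := by
        rw [Finset.sum_ite_eq']
        split_ifs <;> norm_num
      exact sub_nonneg.2 (h1.trans h2)
    · rw [SS_rec]
      have h3 : ∀ p ∈ T.filter (fun p : ℕ => false = true → (p : ℝ) ^ 3 < D),
          0 ≤ (fun _ : ℕ => (1 : ℝ)) p *
            SS (!false) (D / p) (T.filter (fun q => q < p)) (fun _ => 1) := by
        intro p hp
        have hpT := (Finset.mem_filter.1 hp).1
        have h2 := (ih _ (hss p hpT) (D / p)).1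
        rw [one_mul]
        refine le_trans ?_ h2
        split_ifs <;> norm_num
      have hmf : m ∈ T.filter (fun p : ℕ => false = true → (p : ℝ) ^ 3 < D) :=
        Finset.mem_filter.2 ⟨hmT, by simp⟩
      have h4 := Finset.single_le_sum h3 hmf
      simp only [hem, one_mul] at h4
      rw [RW1_empty] at h4
      simp only [one_mul] at *
      linarith

end Pool.Agent.Lib.H59C
end

-- from Lib.H59C.RW3
section

/-!
# RW3: the support of Rosser's weights
-/

open Finset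

namespace Pool.Agent.Lib.H59C

theorem RW3_list : ∀ (l : List ℕ) (D : ℝ), 1 < D → (∀ p ∈ l, 2 ≤ p) → l.Pairwise (· ≥ ·) →
    (adm true D l → ((l.prod : ℕ) : ℝ) < D) ∧
      ((∀ p ∈ l, (p : ℝ) < D) → adm false D l → ((l.prod : ℕ) : ℝ) < D) := by
  intro l
  induction l with
  | nil =>
    intro D hD _ _
    simp only [List.prod_nil, Nat.cast_one]
    exact ⟨fun _ => hD, fun _ _ => hD⟩
  | cons p l ih =>
    intro D hD h2 hs
    have hp2 : 2 ≤ p := h2 p List.mem_cons_self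
    have hpR : (2 : ℝ) ≤ p := by exact_mod_cast hp2
    have hp0 : (0 : ℝ) < p := by linarith
    have hl2 : ∀ q ∈ l, 2 ≤ q := fun q hq => h2 q (List.mem_cons_of_mem _ hq)
    rw [List.pairwise_cons] at hs
    have hprod : ((((p :: l).prod : ℕ)) : ℝ) = p * ((l.prod : ℕ) : ℝ) := by
      rw [List.prod_cons]
      push_cast
      ring
    rw [hprod]
    constructor
    · intro hadm
      unfold adm at hadm
      obtain ⟨h3, h4⟩ := hadm
      have h5 : (p : ℝ) * p < D := by nlinarith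
      have h6 : 1 < D / p := by
        rw [lt_div_iff₀ hp0]
        nlinarith
      have h7 : ∀ q ∈ l, (q : ℝ) < D / p := by
        intro q hq
        have h8 : (q : ℝ) ≤ p := by exact_mod_cast hs.1 q hq
        rw [lt_div_iff₀ hp0]
        nlinarith
      have h9 := (ih (D / p) h6 hl2 hs.2).2 h7 h4
      rw [lt_div_iff₀ hp0] at h9
      linarith
    · intro hlt hadm
      unfold adm at hadm
      have h5 : (p : ℝ) < D := hlt p List.mem_cons_self
      have h6 : 1 < D / p := by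
        rw [lt_div_iff₀ hp0]
        linarith
      have h9 := (ih (D / p) h6 hl2 hs.2).1 hadm
      rw [lt_div_iff₀ hp0] at h9
      linarith

/-- The product of an admissible set is less than `D`.

Proof. By induction on the list (decreasing, all entries `≥ 1`): if `adm b D (p₁ :: ... :: p_r)` then for
`b = true` and `r` odd, or `b = false` and `r` even `≥ 2`, the last condition says
`p₁ ⋯ p_(r-1) p_r³ < D`; otherwise (`r ≥ 2`) the condition for `r - 1` gives `p₁ ⋯ p_(r-2) p_(r-1)³ < D`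
and `p_r ≤ p_(r-1)`; for `r = 1`, `b = false` use `p₁ < z ≤ D`; for `r = 0` `1 < D`. (In the induction the
hypothesis `z ≤ D` has to be replaced: prove `∏ < D` for `b = true` assuming only `1 < D`, and for
`b = false` assuming `1 < D` and head `< D`; for the tail of a list with `b = true`, `p³ < D`, one has
`1 < D/p` and the head of the tail is `≤ p < D/p`.) -/
theorem adm_prod (b : Bool) (D z : ℝ) (A : Finset ℕ) (hD : 1 < D) (hz : z ≤ D)
    (hA : ∀ p ∈ A, 2 ≤ p ∧ (p : ℝ) < z) (h : adm b D (A.sort (· ≥ ·))) :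
    ((∏ p ∈ A, p : ℕ) : ℝ) < D := by
  have h1 : (∏ p ∈ A, p) = (A.sort (· ≥ ·)).prod := by
    have h2 : ((A.sort (· ≥ ·) : List ℕ) : Multiset ℕ) = A.val := Finset.sort_eq _ _
    rw [← Multiset.prod_coe, h2]
    exact (Finset.prod_val A).symm
  rw [h1]
  have h3 := RW3_list (A.sort (· ≥ ·)) D hD
    (fun p hp => (hA p ((Finset.mem_sort _).mp hp)).1) (Finset.pairwise_sort _ _)
  cases b with
  | true => exact h3.1 h
  | false =>
    exact h3.2 (fun p hp => ((hA p ((Finset.mem_sort _).mp hp)).2).trans_le hz) h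

end Pool.Agent.Lib.H59C
end

-- from Lib.H59C.SAP
section

/-!
# SAP: sieving a weighted sequence
-/

open Finset

namespace Pool.Agent.Lib.H59C

/-- `∑_{A ⊆ P} (-1)^|A| ∏_A f = ∏_P (1 - f)` -/
theorem SAP_leg (P : Finset ℕ) (f : ℕ → ℝ) :
    ∑ A ∈ P.powerset, (-1 : ℝ) ^ A.card * ∏ q ∈ A, f q = ∏ q ∈ P, (1 - f q) := by
  classical
  have h1 : ∏ q ∈ P, (1 - f q) = ∏ q ∈ P, (-f q + 1) :=
    Finset.prod_congr rfl fun q _ => by ring
  rw [h1, Finset.prod_add]
  refine Finset.sum_congr rfl fun A _ => ?_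
  rw [Finset.prod_const_one, mul_one, Finset.prod_neg]

/-- `SS` depends only on the values on `P`. -/
theorem SAP_congr (b : Bool) (D : ℝ) (P : Finset ℕ) (f g : ℕ → ℝ) (h : ∀ q ∈ P, f q = g q) :
    SS b D P f = SS b D P g := by
  unfold SS
  refine Finset.sum_congr rfl fun A hA => ?_
  rw [Finset.mem_powerset] at hA
  congr 1
  exact Finset.prod_congr rfl fun q hq => h q (hA hq)

theorem SAP_totient (A : Finset ℕ) (hA : ∀ q ∈ A, q.Prime) :
    1 / (Nat.totient (∏ q ∈ A, q) : ℝ) = ∏ q ∈ A, gq q := by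
  classical
  induction A using Finset.induction_on with
  | empty => simp
  | insert q A hq ih =>
    have hqp : q.Prime := hA q (Finset.mem_insert_self q A)
    have hA' : ∀ r ∈ A, r.Prime := fun r hr => hA r (Finset.mem_insert_of_mem hr)
    rw [Finset.prod_insert hq, Finset.prod_insert hq, ← ih hA']
    have hc : Nat.Coprime q (∏ r ∈ A, r) := by
      apply Nat.Coprime.prod_right
      intro r hr
      rw [Nat.coprime_primes hqp (hA' r hr)]
      rintro rfl
      exact hq hr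
    rw [Nat.totient_mul hc, Nat.totient_prime hqp]
    unfold gq
    rw [Nat.cast_mul, Nat.cast_sub hqp.one_le, Nat.cast_one]
    rw [one_div_mul_one_div]

theorem SAP_dvd (A : Finset ℕ) (hA : ∀ q ∈ A, q.Prime) (n : ℕ) :
    (∏ q ∈ A, (if q ∣ n then (1 : ℝ) else 0)) = if (∏ q ∈ A, q) ∣ n then 1 else 0 := by
  classical
  by_cases h : ∀ q ∈ A, q ∣ n
  · rw [if_pos (Finset.prod_primes_dvd n (fun q hq => (hA q hq).prime) h)]
    exact Finset.prod_eq_one fun q hq => if_pos (h q hq)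
  · push Not at h
    obtain ⟨q, hq, hqn⟩ := h
    rw [Finset.prod_eq_zero hq (if_neg hqn), if_neg]
    intro hd
    exact hqn ((Finset.dvd_prod_of_mem (fun q => q) hq).trans hd)

theorem SAP_lam_le (b : Bool) (D : ℝ) (A : Finset ℕ) : |lamR b D A| ≤ 1 := by
  unfold lamR
  split_ifs
  · rw [abs_pow, abs_neg, abs_one, one_pow]
  · simp

theorem SAP_lam_ne (b : Bool) (D : ℝ) (A : Finset ℕ) (h : lamR b D A ≠ 0) :
    adm b D (A.sort (· ≥ ·)) := by
  unfold lamR at h
  by_contra hc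
  rw [if_neg hc] at h
  exact h rfl

section

variable {ι : Type} (S : Finset ι) (w : ι → ℝ) (a : ι → ℕ)

open Classical in
/-- `W(d)` -/
noncomputable def SAP_W (d : ℕ) : ℝ := ∑ i ∈ S.filter (fun i => d ∣ a i), w i

/-- the indicator function of the divisors -/
noncomputable def SAP_de (i : ι) (q : ℕ) : ℝ := if q ∣ a i then 1 else 0

theorem SAP_expand (b : Bool) (D : ℝ) (P0 P1 : Finset ℕ) (h0 : ∀ q ∈ P0, q.Prime)
    (h1 : ∀ q ∈ P1, q.Prime) (hdis : Disjoint P0 P1) :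
    ∑ i ∈ S, w i * ((∏ q ∈ P0, (1 - SAP_de a i q)) * SS b D P1 (SAP_de a i)) =
    ∑ x ∈ P0.powerset ×ˢ P1.powerset, (-1 : ℝ) ^ x.1.card * lamR b D x.2 *
      SAP_W S w a (∏ q ∈ x.1 ∪ x.2, q) := by
  classical
  have e1 : ∀ i ∈ S, w i * ((∏ q ∈ P0, (1 - SAP_de a i q)) * SS b D P1 (SAP_de a i)) =
      ∑ x ∈ P0.powerset ×ˢ P1.powerset, (-1 : ℝ) ^ x.1.card * lamR b D x.2 *
        (if (∏ q ∈ x.1 ∪ x.2, q) ∣ a i then w i else 0) := by
    intro i _
    rw [← SAP_leg]
    unfold SS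
    rw [Finset.sum_mul_sum, ← Finset.sum_product', Finset.mul_sum]
    refine Finset.sum_congr rfl fun x hx => ?_
    rw [Finset.mem_product, Finset.mem_powerset, Finset.mem_powerset] at hx
    have hd : Disjoint x.1 x.2 := Finset.disjoint_of_subset_left hx.1
      (Finset.disjoint_of_subset_right hx.2 hdis)
    have e2 : (∏ q ∈ x.1, SAP_de a i q) * (∏ q ∈ x.2, SAP_de a i q) =
        if (∏ q ∈ x.1 ∪ x.2, q) ∣ a i then 1 else 0 := by
      rw [← Finset.prod_union hd]
      unfold SAP_de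
      rw [SAP_dvd]
      intro q hq
      rcases Finset.mem_union.1 hq with h | h
      · exact h0 q (hx.1 h)
      · exact h1 q (hx.2 h)
    calc w i * ((-1 : ℝ) ^ x.1.card * (∏ q ∈ x.1, SAP_de a i q) *
          (lamR b D x.2 * ∏ q ∈ x.2, SAP_de a i q))
        = (-1 : ℝ) ^ x.1.card * lamR b D x.2 * (w i * ((∏ q ∈ x.1, SAP_de a i q) *
          (∏ q ∈ x.2, SAP_de a i q))) := by ring
      _ = _ := by
        rw [e2, mul_ite, mul_one, mul_zero]
  rw [Finset.sum_congr rfl e1, Finset.sum_comm]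
  refine Finset.sum_congr rfl fun x _ => ?_
  rw [← Finset.mul_sum]
  congr 1
  unfold SAP_W
  rw [Finset.sum_filter]

theorem SAP_main (b : Bool) (D X : ℝ) (P0 P1 : Finset ℕ) (h0 : ∀ q ∈ P0, q.Prime)
    (h1 : ∀ q ∈ P1, q.Prime) (hdis : Disjoint P0 P1) :
    ∑ x ∈ P0.powerset ×ˢ P1.powerset, (-1 : ℝ) ^ x.1.card * lamR b D x.2 *
      (X / (Nat.totient (∏ q ∈ x.1 ∪ x.2, q) : ℝ)) =
    X * ((∏ q ∈ P0, (1 - gq q)) * SS b D P1 gq) := by
  classical
  rw [← SAP_leg]
  unfold SS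
  rw [Finset.sum_mul_sum, ← Finset.sum_product', Finset.mul_sum]
  refine Finset.sum_congr rfl fun x hx => ?_
  rw [Finset.mem_product, Finset.mem_powerset, Finset.mem_powerset] at hx
  have hd : Disjoint x.1 x.2 := Finset.disjoint_of_subset_left hx.1
    (Finset.disjoint_of_subset_right hx.2 hdis)
  have hp : ∀ q ∈ x.1 ∪ x.2, q.Prime := by
    intro q hq
    rcases Finset.mem_union.1 hq with h | h
    · exact h0 q (hx.1 h)
    · exact h1 q (hx.2 h)
  rw [div_eq_mul_one_div, SAP_totient _ hp, Finset.prod_union hd]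
  ring

theorem SAP_rem (b : Bool) (P : Finset ℕ) (hP : ∀ q ∈ P, q.Prime ∧ 3 ≤ q) (w0 : ℕ) (z D X : ℝ)
    (h1 : 1 < D) (hz : z ≤ D) (hwz : (w0 : ℝ) ≤ z) :
    |∑ x ∈ (P.filter (fun q => q < w0)).powerset ×ˢ ((P.filter (fun q => w0 ≤ q)).filter
        (fun q : ℕ => (q : ℝ) < z)).powerset, (-1 : ℝ) ^ x.1.card * lamR b D x.2 *
      (SAP_W S w a (∏ q ∈ x.1 ∪ x.2, q) - X / (Nat.totient (∏ q ∈ x.1 ∪ x.2, q) : ℝ))| ≤
      remd S w a P z X (D * primorial w0) := by
  classical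
  set P0 := P.filter (fun q => q < w0) with hP0
  set P1 := (P.filter (fun q => w0 ≤ q)).filter (fun q : ℕ => (q : ℝ) < z) with hP1
  have m0 : ∀ q ∈ P0, q ∈ P ∧ q < w0 := fun q hq => Finset.mem_filter.1 hq
  have m1 : ∀ q ∈ P1, q ∈ P ∧ w0 ≤ q ∧ (q : ℝ) < z := fun q hq => by
    rw [hP1, Finset.mem_filter, Finset.mem_filter] at hq
    exact ⟨hq.1.1, hq.1.2, hq.2⟩
  set r : ℕ → ℝ := fun d => SAP_W S w a d - X / (Nat.totient d : ℝ) with hr
  set F := (P0.powerset ×ˢ P1.powerset).filter (fun x => adm b D (x.2.sort (· ≥ ·))) with hF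
  have hFm : ∀ x ∈ F, x.1 ⊆ P0 ∧ x.2 ⊆ P1 ∧ adm b D (x.2.sort (· ≥ ·)) := by
    intro x hx
    rw [hF, Finset.mem_filter, Finset.mem_product, Finset.mem_powerset, Finset.mem_powerset] at hx
    exact ⟨hx.1.1, hx.1.2, hx.2⟩
  have s1 : |∑ x ∈ P0.powerset ×ˢ P1.powerset, (-1 : ℝ) ^ x.1.card * lamR b D x.2 *
      r (∏ q ∈ x.1 ∪ x.2, q)| ≤ ∑ x ∈ F, |r (∏ q ∈ x.1 ∪ x.2, q)| := by
    refine (Finset.abs_sum_le_sum_abs _ _).trans ?_
    rw [hF, Finset.sum_filter]
    refine Finset.sum_le_sum fun x _ => ?_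
    rw [abs_mul, abs_mul, abs_pow, abs_neg, abs_one, one_pow, one_mul]
    split_ifs with hx
    · exact mul_le_of_le_one_left (abs_nonneg _) (SAP_lam_le b D x.2)
    · have : lamR b D x.2 = 0 := by
        by_contra hc
        exact hx (SAP_lam_ne b D x.2 hc)
      rw [this, abs_zero, zero_mul]
  have hpr : ∀ x ∈ F, ∀ q ∈ x.1 ∪ x.2, q.Prime ∧ q ∈ P ∧ (q : ℝ) < z := by
    intro x hx q hq
    obtain ⟨hx0, hx1, _⟩ := hFm x hx
    rcases Finset.mem_union.1 hq with h | h
    · obtain ⟨h3, h4⟩ := m0 q (hx0 h)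
      refine ⟨(hP q h3).1, h3, ?_⟩
      have : (q : ℝ) < w0 := by exact_mod_cast h4
      linarith
    · obtain ⟨h3, h4, h5⟩ := m1 q (hx1 h)
      exact ⟨(hP q h3).1, h3, h5⟩
  have hpf : ∀ x ∈ F, (∏ q ∈ x.1 ∪ x.2, q).primeFactors = x.1 ∪ x.2 := fun x hx =>
    Nat.primeFactors_prod fun q hq => (hpr x hx q hq).1
  have hinj : Set.InjOn (fun x : Finset ℕ × Finset ℕ => ∏ q ∈ x.1 ∪ x.2, q) F := by
    intro x hx y hy hxy
    have hxy' : x.1 ∪ x.2 = y.1 ∪ y.2 := by
      rw [← hpf x hx, ← hpf y hy]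
      exact congrArg Nat.primeFactors hxy
    obtain ⟨hx0, hx1, _⟩ := hFm x hx
    obtain ⟨hy0, hy1, _⟩ := hFm y hy
    have k0 : ∀ z : Finset ℕ × Finset ℕ, z.1 ⊆ P0 → z.2 ⊆ P1 →
        (z.1 ∪ z.2).filter (fun q => q < w0) = z.1 := by
      intro z hz0 hz1
      ext q
      rw [Finset.mem_filter, Finset.mem_union]
      constructor
      · rintro ⟨h | h, h'⟩
        · exact h
        · exact absurd h' (not_lt.2 (m1 q (hz1 h)).2.1)
      · intro h
        exact ⟨Or.inl h, (m0 q (hz0 h)).2⟩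
    have k1 : ∀ z : Finset ℕ × Finset ℕ, z.1 ⊆ P0 → z.2 ⊆ P1 →
        (z.1 ∪ z.2).filter (fun q => ¬ q < w0) = z.2 := by
      intro z hz0 hz1
      ext q
      rw [Finset.mem_filter, Finset.mem_union]
      constructor
      · rintro ⟨h | h, h'⟩
        · exact absurd (m0 q (hz0 h)).2 h'
        · exact h
      · intro h
        exact ⟨Or.inr h, not_lt.2 (m1 q (hz1 h)).2.1⟩
    refine Prod.ext ?_ ?_
    · rw [← k0 x hx0 hx1, ← k0 y hy0 hy1, hxy']
    · rw [← k1 x hx0 hx1, ← k1 y hy0 hy1, hxy']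
  have s2 : ∑ x ∈ F, |r (∏ q ∈ x.1 ∪ x.2, q)| =
      ∑ d ∈ F.image (fun x : Finset ℕ × Finset ℕ => ∏ q ∈ x.1 ∪ x.2, q), |r d| := by
    rw [Finset.sum_image hinj]
  refine s1.trans (s2.le.trans ?_)
  unfold remd
  refine Finset.sum_le_sum_of_subset_of_nonneg ?_ fun d _ _ => abs_nonneg _
  intro d hd
  rw [Finset.mem_image] at hd
  obtain ⟨x, hx, rfl⟩ := hd
  obtain ⟨hx0, hx1, hadm⟩ := hFm x hx
  rw [Finset.mem_filter, Finset.mem_Icc]
  have hpos : 0 < ∏ q ∈ x.1 ∪ x.2, q := Finset.prod_pos fun q hq => (hpr x hx q hq).1.pos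
  have hdis : Disjoint x.1 x.2 := by
    rw [Finset.disjoint_left]
    intro q h3 h4
    exact absurd (m0 q (hx0 h3)).2 (not_lt.2 (m1 q (hx1 h4)).2.1)
  refine ⟨⟨hpos, ?_⟩, ?_, ?_⟩
  · refine Nat.le_floor ?_
    rw [Finset.prod_union hdis, Nat.cast_mul, mul_comm]
    have h3 : ((∏ p ∈ x.2, p : ℕ) : ℝ) < D := by
      refine adm_prod b D z x.2 h1 hz ?_ hadm
      intro p hp
      obtain ⟨h4, h5, h6⟩ := m1 p (hx1 hp)
      exact ⟨(hP p h4).1.two_le, h6⟩
    have h4 : ∏ q ∈ x.1, q ≤ primorial w0 := by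
      unfold primorial
      refine Finset.prod_le_prod_of_subset_of_one_le' ?_ ?_
      · intro q hq
        obtain ⟨h5, h6⟩ := m0 q (hx0 hq)
        rw [Finset.mem_filter, Finset.mem_range]
        exact ⟨by omega, (hP q h5).1⟩
      · intro q hq _
        exact (Finset.mem_filter.1 hq).2.one_le
    have h5 : ((∏ q ∈ x.1, q : ℕ) : ℝ) ≤ primorial w0 := by exact_mod_cast h4
    exact mul_le_mul h3.le h5 (by positivity) (by linarith)
  · exact Finset.squarefree_prod_of_pairwise_isCoprime (by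
      intro p hp q hq hpq
      exact Nat.coprime_iff_isRelPrime.1 ((Nat.coprime_primes (hpr x hx p hp).1
        (hpr x hx q hq).1).2 hpq)) (fun q hq => (hpr x hx q hq).1.squarefree)
  · intro q hq
    rw [hpf x hx] at hq
    exact (hpr x hx q hq).2

end

/-- Upper and lower bound sieve for a weighted sequence `a i`, `i ∈ S`: Legendre for the primes
`q < w0`, Rosser's weights of level `D` for the primes `w0 ≤ q < z`.

Proof. Let `P0 = {q ∈ P, q < w0}`, `P1 = {q ∈ P, w0 ≤ q < z}`. For each `i` let `T0, T1` be the sets of the `q ∈ P0`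
(`P1`) dividing `a i`. `1[T0 = ∅] 1[T1 = ∅] ≤ (∑_{A0 ⊆ T0} (-1)^|A0|) (∑_{A1 ⊆ T1} λ(A1))` with `λ = lamR true D`
(`SS_sieve`, the first factor is exactly `1[T0 = ∅] ≥ 0`), and `≥` with `lamR false D`. Sum over `i` with the weights:
`∑_{A0 ⊆ P0} ∑_{A1 ⊆ P1} (-1)^|A0| λ(A1) W(d)`, `d = ∏ A0 ∏ A1`, `W(d) = ∑_{i ∈ S, d ∣ a i} w i = X/φ(d) + r(d)`, with
`1/φ(d) = ∏_{q ∈ A0 ∪ A1} gq q`. The main term is `X ∏_{P0} (1 - gq q) · SS _ D P1 gq`; in the remainder
`|λ| ≤ 1`, the `d` are distinct, squarefree, composed of primes of `P` below `z`, and `≤ D primorial w0`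
(`adm_prod`; `∏ A0 ∣ primorial w0`). -/
theorem sap {ι : Type} (S : Finset ι) (w : ι → ℝ) (a : ι → ℕ) (hw : ∀ i ∈ S, 0 ≤ w i)
    (P : Finset ℕ) (hP : ∀ q ∈ P, q.Prime ∧ 3 ≤ q) (w0 : ℕ) (z D X : ℝ) (h1 : 1 < D) (hz : z ≤ D)
    (hwz : (w0 : ℝ) ≤ z) :
    sift S w a P z ≤ X * (VV P w0 * SS true D ((P.filter (fun q => w0 ≤ q)).filter
        (fun q : ℕ => (q : ℝ) < z)) gq) + remd S w a P z X (D * primorial w0) ∧
    X * (VV P w0 * SS false D ((P.filter (fun q => w0 ≤ q)).filter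
        (fun q : ℕ => (q : ℝ) < z)) gq) - remd S w a P z X (D * primorial w0) ≤
      sift S w a P z := by
  classical
  set P0 := P.filter (fun q => q < w0) with hP0
  set P1 := (P.filter (fun q => w0 ≤ q)).filter (fun q : ℕ => (q : ℝ) < z) with hP1
  have m0 : ∀ q, q ∈ P0 ↔ q ∈ P ∧ q < w0 := fun q => Finset.mem_filter
  have m1 : ∀ q, q ∈ P1 ↔ q ∈ P ∧ w0 ≤ q ∧ (q : ℝ) < z := fun q => by
    rw [hP1, Finset.mem_filter, Finset.mem_filter, and_assoc]
  have hdis : Disjoint P0 P1 := by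
    rw [Finset.disjoint_left]
    intro q h3 h4
    exact absurd ((m0 q).1 h3).2 (not_lt.2 ((m1 q).1 h4).2.1)
  have p0 : ∀ q ∈ P0, q.Prime := fun q hq => (hP q ((m0 q).1 hq).1).1
  have p1 : ∀ q ∈ P1, q.Prime := fun q hq => (hP q ((m1 q).1 hq).1).1
  have hVV : VV P w0 = ∏ q ∈ P0, (1 - gq q) := by
    unfold VV VP
    refine Finset.prod_congr ?_ fun q _ => rfl
    ext q
    rw [m0, Finset.mem_filter, Nat.cast_lt]
  -- the sum for both signs
  have key : ∀ b : Bool,
      |∑ i ∈ S, w i * ((∏ q ∈ P0, (1 - SAP_de a i q)) * SS b D P1 (SAP_de a i)) -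
        X * (VV P w0 * SS b D P1 gq)| ≤ remd S w a P z X (D * primorial w0) := by
    intro b
    have h3 := SAP_rem S w a b P hP w0 z D X h1 hz hwz
    rw [SAP_expand S w a b D P0 P1 p0 p1 hdis, hVV, ← SAP_main b D X P0 P1 p0 p1 hdis,
      ← Finset.sum_sub_distrib]
    refine le_trans (le_of_eq ?_) h3
    congr 1
    refine Finset.sum_congr rfl fun x _ => ?_
    ring
  -- the indicator functions
  have hprod : ∀ i, ∏ q ∈ P0, (1 - SAP_de a i q) = if ∀ q ∈ P0, ¬ q ∣ a i then 1 else 0 := by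
    intro i
    split_ifs with h
    · refine Finset.prod_eq_one fun q hq => ?_
      unfold SAP_de
      rw [if_neg (h q hq), sub_zero]
    · push Not at h
      obtain ⟨q, hq, hqi⟩ := h
      refine Finset.prod_eq_zero hq ?_
      unfold SAP_de
      rw [if_pos hqi, sub_self]
  have hSS : ∀ b i, SS b D P1 (SAP_de a i) =
      SS b D (P1.filter (fun q => q ∣ a i)) (fun _ => 1) := by
    intro b i
    rw [← SS_restrict b D P1 _ (Finset.filter_subset _ _)]
    refine SAP_congr b D P1 _ _ fun q hq => ?_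
    unfold SAP_de
    by_cases h : q ∣ a i
    · rw [if_pos h, if_pos (Finset.mem_filter.2 ⟨hq, h⟩)]
    · have h' : q ∉ P1.filter (fun q => q ∣ a i) := fun hh => h (Finset.mem_filter.1 hh).2
      rw [if_neg h, if_neg h']
  have hsift : sift S w a P z = ∑ i ∈ S, w i * ((if ∀ q ∈ P0, ¬ q ∣ a i then 1 else 0) *
      (if P1.filter (fun q => q ∣ a i) = ∅ then 1 else 0)) := by
    unfold sift
    rw [Finset.sum_filter]
    refine Finset.sum_congr rfl fun i _ => ?_
    by_cases h0 : ∀ q ∈ P0, ¬ q ∣ a i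
    · by_cases h2 : P1.filter (fun q => q ∣ a i) = ∅
      · rw [if_pos h0, if_pos h2, mul_one, mul_one, if_pos]
        intro q hq hqz
        rw [Finset.filter_eq_empty_iff] at h2
        rcases lt_or_ge q w0 with h | h
        · exact h0 q ((m0 q).2 ⟨hq, h⟩)
        · exact h2 ((m1 q).2 ⟨hq, h, hqz⟩)
      · rw [if_neg h2, mul_zero, mul_zero, if_neg]
        intro hc
        apply h2
        rw [Finset.filter_eq_empty_iff]
        intro q hq
        exact hc q ((m1 q).1 hq).1 ((m1 q).1 hq).2.2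
    · rw [if_neg h0, zero_mul, mul_zero, if_neg]
      intro hc
      apply h0
      intro q hq
      refine hc q ((m0 q).1 hq).1 ?_
      have : (q : ℝ) < w0 := by exact_mod_cast ((m0 q).1 hq).2
      linarith
  have hup : sift S w a P z ≤
      ∑ i ∈ S, w i * ((∏ q ∈ P0, (1 - SAP_de a i q)) * SS true D P1 (SAP_de a i)) := by
    rw [hsift]
    refine Finset.sum_le_sum fun i hi => mul_le_mul_of_nonneg_left ?_ (hw i hi)
    rw [hprod, hSS]
    refine mul_le_mul_of_nonneg_left (SS_sieve _ D).1 ?_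
    split_ifs <;> norm_num
  have hlo : ∑ i ∈ S, w i * ((∏ q ∈ P0, (1 - SAP_de a i q)) * SS false D P1 (SAP_de a i)) ≤
      sift S w a P z := by
    rw [hsift]
    refine Finset.sum_le_sum fun i hi => mul_le_mul_of_nonneg_left ?_ (hw i hi)
    rw [hprod, hSS]
    refine mul_le_mul_of_nonneg_left (SS_sieve _ D).2 ?_
    split_ifs <;> norm_num
  have k1 := abs_le.1 (key true)
  have k2 := abs_le.1 (key false)
  constructor <;> linarith [k1.1, k1.2, k2.1, k2.2]

end Pool.Agent.Lib.H59C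
end

-- from Lib.H59C.JR
section

/-!
# JR: the theorem of Jurkat and Richert for the density `1/(q-1)`
-/

open Finset

namespace Pool.Agent.Lib.H59C

/-- The constant `A` of the linear sieve (in fact `2 e^γ`). -/
noncomputable def AA : ℝ := Classical.choose linear_sieve

theorem AA_pos : 0 < AA := (Classical.choose_spec linear_sieve).1

/-- **Jurkat-Richert.** From `sap` with `w0` given by `om_gq δ`, `δ` by `linear_sieve ε`
(`VV P z = VV P w0 * VP (P.filter (w0 ≤ ·)) gq z`), `Q0 = primorial w0`, `z0 = max w0 2`. -/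
theorem jr (ε : ℝ) (hε : 0 < ε) : ∃ Q0 : ℕ, 1 ≤ Q0 ∧ ∃ z0 : ℝ, 2 ≤ z0 ∧
    ∀ P : Finset ℕ, (∀ q ∈ P, q.Prime ∧ 3 ≤ q) → ∀ z D : ℝ, z0 ≤ z → z ≤ D →
    ∀ {ι : Type} (S : Finset ι) (w : ι → ℝ) (a : ι → ℕ) (X : ℝ), 0 ≤ X → (∀ i ∈ S, 0 ≤ w i) →
    (Real.log D ≤ 3 * Real.log z →
      sift S w a P z ≤ X * VV P z * (AA / (Real.log D / Real.log z) + ε) +
        remd S w a P z X (D * Q0)) ∧
    (2 * Real.log z ≤ Real.log D → Real.log D ≤ 4 * Real.log z →
      X * VV P z * (AA * Real.log (Real.log D / Real.log z - 1) / (Real.log D / Real.log z) - ε) -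
        remd S w a P z X (D * Q0) ≤ sift S w a P z) := by
  classical
  obtain ⟨δ, hδ, hlin⟩ := (Classical.choose_spec linear_sieve).2 ε hε
  obtain ⟨w0, hw0, hom⟩ := om_gq δ hδ
  refine ⟨primorial w0, Nat.one_le_iff_ne_zero.mpr (primorial_pos w0).ne', max w0 2,
    le_max_right _ _, ?_⟩
  intro P hP z D hz hzD ι S w a X hX hw
  have hz2 : 2 ≤ z := le_trans (le_max_right _ _) hz
  have hwz : (w0 : ℝ) ≤ z := le_trans (le_max_left _ _) hz
  have hD1 : 1 < D := by linarith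
  obtain ⟨P1, hP1⟩ : ∃ P1 : Finset ℕ, P1 = P.filter (fun q => w0 ≤ q) := ⟨_, rfl⟩
  have hP1p : ∀ q ∈ P1, q.Prime ∧ w0 ≤ q := by
    intro q hq
    rw [hP1, mem_filter] at hq
    exact ⟨(hP q hq.1).1, hq.2⟩
  have hg : ∀ q ∈ P, 2 ≤ q ∧ 0 ≤ gq q ∧ gq q < 1 := by
    intro q hq
    have h3 := (hP q hq).2
    have h3' : (3 : ℝ) ≤ q := by exact_mod_cast h3
    refine ⟨by omega, ?_, ?_⟩
    · unfold gq
      apply div_nonneg zero_le_one
      linarith
    · unfold gq
      rw [div_lt_one (by linarith)]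
      linarith
  have hg1 : ∀ q ∈ P1, 2 ≤ q ∧ 0 ≤ gq q ∧ gq q < 1 := by
    intro q hq
    rw [hP1, mem_filter] at hq
    exact hg q hq.1
  have hOm : Om (1 + δ) P1 gq := hom P1 hP1p
  obtain ⟨hup, hlo⟩ := hlin P1 gq hg1 hOm D z hz2 hzD
  obtain ⟨sup, slo⟩ := sap S w a hw P hP w0 z D X hD1 hzD hwz
  rw [← hP1] at sup slo
  have hVsplit : VV P z = VV P w0 * VP P1 gq z := by
    unfold VV VP
    rw [hP1, filter_filter]
    have e1 : P.filter (fun q : ℕ => (q : ℝ) < (w0 : ℝ)) =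
        (P.filter (fun q : ℕ => (q : ℝ) < z)).filter (fun q : ℕ => ¬ w0 ≤ q) := by
      ext q
      simp only [mem_filter, not_le, Nat.cast_lt]
      constructor
      · rintro ⟨h1, h2⟩
        have : (q : ℝ) < w0 := by exact_mod_cast h2
        exact ⟨⟨h1, by linarith⟩, h2⟩
      · rintro ⟨⟨h1, _⟩, h2⟩
        exact ⟨h1, h2⟩
    have e2 : P.filter (fun q : ℕ => w0 ≤ q ∧ (q : ℝ) < z) =
        (P.filter (fun q : ℕ => (q : ℝ) < z)).filter (fun q : ℕ => w0 ≤ q) := by
      ext q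
      simp only [mem_filter]
      tauto
    rw [e1, e2, mul_comm]
    exact (prod_filter_mul_prod_filter_not _ _ _).symm
  have hV0 : 0 ≤ VV P w0 := by
    unfold VV VP
    apply prod_nonneg
    intro q hq
    have := (hg q (mem_filter.mp hq).1).2.2
    linarith
  have hA : AA = Classical.choose linear_sieve := rfl
  constructor
  · intro h3
    have h4 := hup h3
    rw [← hA] at h4
    refine sup.trans ?_
    have h5 : X * (VV P w0 * SS true D (P1.filter (fun q : ℕ => (q : ℝ) < z)) gq) ≤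
        X * VV P z * (AA / (Real.log D / Real.log z) + ε) := by
      rw [hVsplit]
      calc X * (VV P w0 * SS true D (P1.filter (fun q : ℕ => (q : ℝ) < z)) gq)
          ≤ X * (VV P w0 * (VP P1 gq z * (AA / (Real.log D / Real.log z) + ε))) := by
            apply mul_le_mul_of_nonneg_left _ hX
            exact mul_le_mul_of_nonneg_left h4 hV0
        _ = X * (VV P w0 * VP P1 gq z) * (AA / (Real.log D / Real.log z) + ε) := by ring
    linarith
  · intro h2 h4
    have h5 := hlo h2 h4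
    rw [← hA] at h5
    refine le_trans ?_ slo
    have h6 : X * VV P z * (AA * Real.log (Real.log D / Real.log z - 1) /
        (Real.log D / Real.log z) - ε) ≤
        X * (VV P w0 * SS false D (P1.filter (fun q : ℕ => (q : ℝ) < z)) gq) := by
      rw [hVsplit]
      calc X * (VV P w0 * VP P1 gq z) * (AA * Real.log (Real.log D / Real.log z - 1) /
            (Real.log D / Real.log z) - ε)
          = X * (VV P w0 * (VP P1 gq z * (AA * Real.log (Real.log D / Real.log z - 1) /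
            (Real.log D / Real.log z) - ε))) := by ring
        _ ≤ X * (VV P w0 * SS false D (P1.filter (fun q : ℕ => (q : ℝ) < z)) gq) := by
            apply mul_le_mul_of_nonneg_left _ hX
            exact mul_le_mul_of_nonneg_left h5 hV0
    linarith

end Pool.Agent.Lib.H59C
end

-- from Lib.H57C.Defs
section

/-!
# Project H57C (MP_0bf1d2_nt): Chen's theorem with Maynard-Tao tuples, for ALL large N. Definitions

See `PROOF.md` in this folder.
-/

open Finset

namespace Pool.Agent.Lib.H57C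

open Pool.Agent.Lib.H15P Pool.Agent.Lib.H92G Pool.Agent.Lib.H57M
open Pool.Agent.Lib.H59C (Sq lg XX gq VV PR zz yy Tri BX wB remd sift)

noncomputable section

/-! ## Expansions -/

/-- `G(A) = ∑_{T ⊆ A} g(T)` with `|g| ≤ C`, and `g(T) ≠ 0` only if the product of the primes in `T` is at
most `D`. -/
def Ex1 (P : Finset ℕ) (G : Finset {p // p ∈ P} → ℝ) (C D : ℝ) : Prop :=
  ∃ g : Finset {p // p ∈ P} → ℝ, (∀ A, G A = ∑ T ∈ A.powerset, g T) ∧ (∀ T, |g T| ≤ C) ∧
    ∀ T, g T ≠ 0 → (∏ p ∈ T, (p.1 : ℝ)) ≤ D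

/-- `F(S) = ∑_U c(U)`, the sum over the families `U_j ⊆ S_j`, with `|c(U)| ≤ C E^(∑ |U_j|)`, and `c(U) ≠ 0` only
if the product of the primes in the `U_j` is at most `D`. -/
def ExJ {J : Type} [Fintype J] [DecidableEq J] (P : Finset ℕ)
    (F : (J → Finset {p // p ∈ P}) → ℝ) (C : ℝ) (E : ℕ) (D : ℝ) : Prop :=
  ∃ c : (J → Finset {p // p ∈ P}) → ℝ,
    (∀ S, F S = ∑ U : J → Finset {p // p ∈ P}, if ∀ j, U j ⊆ S j then c U else 0) ∧
    (∀ U, |c U| ≤ C * (E : ℝ) ^ (∑ j, (U j).card)) ∧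
    ∀ U, c U ≠ 0 → (∏ j, ∏ p ∈ U j, (p.1 : ℝ)) ≤ D

/-- The configuration of `t`: the primes of `P` dividing `t + h`, `h ∈ H`; if `i = some h` the form `t + h` is
left out. -/
def cfg (P H : Finset ℕ) (i : Option ℕ) (t : ℕ) : {h // h ∈ H} → Finset {p // p ∈ P} :=
  fun h => if i = some h.1 then ∅ else hit P (t + h.1)

/-! ## Small primes and targets -/

/-- The primes `≤ W` different from `p1`. -/
def Ps (W p1 : ℕ) : Finset ℕ := (Icc 1 W).filter (fun q => q.Prime ∧ q ≠ p1)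

/-- `1` if `t` is in no bad class modulo the primes in `Q`. -/
def Sg (Q : Finset ℕ) (R : ℕ → Finset ℕ) (t : ℕ) : ℝ := if ∀ q ∈ Q, t % q ∉ R q then 1 else 0

/-- `t` is in a target class for all prime factors of `d`. -/
def inT (T : ℕ → Finset ℕ) (d t : ℕ) : Prop := ∀ q ∈ d.primeFactors, t % q ∈ T q

instance (T : ℕ → Finset ℕ) (d t : ℕ) : Decidable (inT T d t) := by unfold inT; infer_instance

/-! ## Sequences -/

/-- A weighted sequence of natural numbers `x i`, `i ∈ S`, with its model: the class `c` mod `q` has density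
`hd q` if it is allowed (`Al q c`), otherwise the sequence does not meet it. -/
structure Seq (ι : Type) where
  S : Finset ι
  wt : ι → ℝ
  x : ι → ℕ
  X : ℝ
  hd : ℕ → ℝ
  Al : ℕ → ℕ → Prop

/-- Level of distribution, uniformly in the residue classes, with weights `E^ω(m)`. -/
def Lvl {ι : Type} (s : Seq ι) (p1 D E : ℕ) (Err : ℝ) : Prop :=
  ∃ rr : ℕ → ℝ, (∀ m, 0 ≤ rr m) ∧
    (∀ m, Squarefree m → m ≤ D → ¬ p1 ∣ m → ∀ c : ℕ, (∀ q ∈ m.primeFactors, s.Al q c) →
      |∑ i ∈ s.S.filter (fun i => s.x i ≡ c [MOD m]), s.wt i -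
        s.X * ∏ q ∈ m.primeFactors, s.hd q| ≤ rr m) ∧
    ∑ m ∈ (Icc 1 D).filter (fun m => Squarefree m ∧ ¬ p1 ∣ m),
      (E : ℝ) ^ m.primeFactors.card * rr m ≤ Err

open Classical in
/-- Product over the small primes. -/
def VS (Q : Finset ℕ) (R : ℕ → Finset ℕ) (hd : ℕ → ℝ) (Al : ℕ → ℕ → Prop) : ℝ :=
  ∏ q ∈ Q, (1 - (((R q).filter (fun c => Al q c)).card : ℝ) * hd q)

/-- Mean value of the weight function: over all residue classes (`none`), or over the classes for which `t + h0`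
is prime to `P` (`some h0`). -/
def AE (P H : Finset ℕ) (i : Option ℕ) (F : ({h // h ∈ H} → Finset {p // p ∈ P}) → ℝ) : ℝ :=
  match i with
  | none => EP P 1 (fun h : {h // h ∈ H} => h.1) F
  | some h0 => EU P 1 h0 (fun t => F (cfg P H (some h0) t))

open Classical in
/-- The hypotheses of the transfer theorem. `P`: the primes of the weight, `H`: the shifts, `i`: the form which is left
out, `R`: the bad classes modulo the primes `≤ W`, `T`: the target classes modulo the primes in `P'`. -/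
structure Hy {ι : Type} (s : Seq ι) (P H : Finset ℕ) (i : Option ℕ) (W p1 : ℕ)
    (R T : ℕ → Finset ℕ) (P' : Finset ℕ) (k b : ℕ) : Prop where
  w0 : ∀ j ∈ s.S, 0 ≤ s.wt j
  X0 : 0 ≤ s.X
  al : ∀ q c c' : ℕ, c ≡ c' [MOD q] → (s.Al q c ↔ s.Al q c')
  nev : ∀ j ∈ s.S, s.wt j ≠ 0 → ∀ q : ℕ, q.Prime → (q ∈ P ∨ (q ≤ W ∧ q ≠ p1)) → s.Al q (s.x j)
  hd0 : ∀ q : ℕ, q.Prime → 0 ≤ s.hd q
  hd2 : ∀ q : ℕ, q.Prime → s.hd q ≤ 2 / q
  hdq : ∀ q : ℕ, q.Prime → W < q → |s.hd q - 1 / q| ≤ 2 / (q : ℝ) ^ 2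
  Pp : ∀ p ∈ P, p.Prime ∧ W < p
  p1p : p1.Prime
  p1W : p1 ≤ W
  HW : ∀ h ∈ H, h ≤ W
  iH : ∀ h, i = some h → h ∈ H
  Rr : ∀ q, R q ⊆ range q
  Rk : ∀ q ∈ Ps W p1, (R q).card ≤ k
  R1 : ∀ q ∈ Ps W p1, (((R q).filter (fun c => s.Al q c)).card : ℝ) * s.hd q ≤ 1
  P'p : ∀ q ∈ P', q.Prime ∧ W < q
  Tr : ∀ q ∈ P', T q ⊆ range q
  Tk : ∀ q ∈ P', (T q).card ≤ k
  TA : ∀ q ∈ P', ∀ t ∈ T q, s.Al q t
  TH : ∀ q ∈ P', ∀ t ∈ T q, ∀ h ∈ H, i ≠ some h → ¬ q ∣ t + h
  bad : (P.filter (fun p => ∃ h ∈ H, i ≠ some h ∧ ∃ c : ℕ, p ∣ c + h ∧ ¬ s.Al p c)).card ≤ b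

/-- The moduli: squarefree, composed of primes in `P'`, at most `D1`. -/
def Dv (P' : Finset ℕ) (D1 : ℕ) : Finset ℕ :=
  (Icc 1 D1).filter (fun d => Squarefree d ∧ ∀ q ∈ d.primeFactors, q ∈ P')

/-! ## The concrete situation -/

/-- The weight of `t` (the form `t + h` is left out if `i = some h`). -/
def FF {K : ℕ} (w : Par K) (H : Finset ℕ) (i : Option ℕ) (t : ℕ) : ℝ :=
  w.L (cfg w.P H i t) ^ 2 / w.z ^ K

/-- The weight as a function of the configuration. -/
def FC {K : ℕ} (w : Par K) (H : Finset ℕ) (S : {h // h ∈ H} → Finset {p // p ∈ w.P}) : ℝ :=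
  w.L S ^ 2 / w.z ^ K

/-- The bad classes modulo `q`: `q ∣ t + h` for some `h ∈ H`, or `q ∣ N - t`. -/
def Rb (N : ℕ) (H : Finset ℕ) (q : ℕ) : Finset ℕ :=
  (range q).filter (fun c => (∃ h ∈ H, q ∣ c + h) ∨ c ≡ N [MOD q])

/-- The good primes in `(W, N]`: they divide no `N + h`, `h ∈ H`. -/
def Pg (N W : ℕ) (H : Finset ℕ) : Finset ℕ :=
  (Ioc W N).filter (fun q => q.Prime ∧ ∀ h ∈ H, ¬ q ∣ N + h)

/-- The window for `t`. -/
def Ya (N : ℕ) : ℕ := 7 * N / 20

/-- The window for `t`. -/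
def Yb (N : ℕ) : ℕ := 9 * N / 20

/-- The weight with the condition that no prime `≤ W`, `≠ p1`, divides `(N - t) ∏ (t + h)`. -/
def Fs {K : ℕ} (w : Par K) (H : Finset ℕ) (N p1 : ℕ) (i : Option ℕ) (t : ℕ) : ℝ :=
  FF w H i t * Sg (Ps w.W p1) (Rb N H) t

/-- Small primes, integers. -/
def Va (N W p1 : ℕ) (H : Finset ℕ) : ℝ := ∏ q ∈ Ps W p1, (1 - ((Rb N H q).card : ℝ) / q)

/-- Small primes, the sequences without the classes `0` (`t + h` prime, `N - t = q1 q2 q3`). -/
def Vb (N W p1 : ℕ) (H : Finset ℕ) : ℝ :=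
  Va N W p1 H * ∏ q ∈ Ps W p1, ((q : ℝ) / ((q : ℝ) - 1))

/-- The level of distribution of the sieve. -/
def Lv (N : ℕ) (θ : ℝ) : ℕ := ⌊(N : ℝ) ^ (1 / 2 - 4 * θ)⌋₊

/-- The value of the switched sequence: congruent to `N - m q` modulo all `d ≤ N`. -/
def xv (N : ℕ) (x : ℕ × ℕ) : ℕ := N + (N.factorial - 1) * (x.1 * x.2)

/-- The total weight of the `t` with `t + h` prime. -/
def Xh {K : ℕ} (w : Par K) (H : Finset ℕ) (N p1 h : ℕ) : ℝ :=
  XX (Ya N + h) (Yb N + h) * (AE w.P H (some h) (FC w H) * Vb N w.W p1 H)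

/-- The total weight of the integers. -/
def Xi {K : ℕ} (w : Par K) (H : Finset ℕ) (N p1 : ℕ) : ℝ :=
  ((Yb N : ℝ) - Ya N) * (AE w.P H none (FC w H) * Va N w.W p1 H)

/-- The sequence of the `t` with `t + h` prime. -/
def sB (h y1 y2 : ℕ) : Seq ℕ where
  S := Sq y1 y2
  wt := lg
  x := fun p => p - h
  X := XX y1 y2
  hd := gq
  Al := fun q c => ¬ q ∣ c + h

/-- The switched sequence. -/
def sC (N M u v : ℕ) (α : ℕ → ℝ) : Seq (ℕ × ℕ) where
  S := BX M u v
  wt := wB α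
  x := xv N
  X := H59C.XB M u v α
  hd := gq
  Al := fun q c => ¬ c ≡ N [MOD q]

/-- The integers `≡ N` modulo `r` (`r = 1`, or `r = p1`). -/
def sI (N r y1 y2 : ℕ) : Seq ℕ where
  S := (Ioc y1 y2).filter (fun t => t ≡ N [MOD r])
  wt := fun _ => 1
  x := fun t => t
  X := ((y2 : ℝ) - y1) / r
  hd := fun q => 1 / q
  Al := fun _ _ => True

/-- What is assumed about the parameters. -/
structure Pre (B cF : ℕ) (θ : ℝ) {K : ℕ} (w : Par K) (H : Finset ℕ) (N p1 : ℕ) : Prop where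
  cardH : H.card = K
  HW : ∀ h ∈ H, h ≤ w.W
  Wdef : w.W = ⌈Real.log N ^ B⌉₊
  PN : ∀ p ∈ w.P, (p : ℝ) ≤ (N : ℝ) ^ (1 / 100 : ℝ)
  p1p : p1.Prime
  p1W : p1 ≤ w.W
  even : ∀ h ∈ H, 2 ∣ N + h
  nf : ∀ q : ℕ, q.Prime → (Rb N H q).card < q
  exF : ExJ w.P (FC w H) (Real.log N ^ cF) 3 ((N : ℝ) ^ (2 * θ))

open Classical in
/-- Everything that is needed for the sieve. -/
structure Reg (B cF : ℕ) (θ G : ℝ) {K : ℕ} (w : Par K) (H : Finset ℕ) (N p1 : ℕ) : Prop
    extends Pre B cF θ w H N p1 where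
  aen0 : 0 ≤ AE w.P H none (FC w H)
  aen : AE w.P H none (FC w H) ≤ 11 / 10
  aes : ∀ h ∈ H, 36 / 100 * (1 + w.n * w.c) ^ 2 ≤ AE w.P H (some h) (FC w H)
  gain : G * Real.log N ≤ K * (1 + w.n * w.c) ^ 2 * Real.log w.W
  remB : ∀ h ∈ H, ∑ d ∈ Dv (Pg N w.W H) (Lv N θ),
    |∑ p ∈ (Sq (Ya N + h) (Yb N + h)).filter (fun p => d ∣ Nat.dist (N + h) p),
        lg p * Fs w H N p1 (some h) (p - h) -
      Xh w H N p1 h / (Nat.totient d : ℝ)| ≤ N / Real.log N ^ 10
  remC : ∀ h ∈ H, ∀ (M u v : ℕ) (α : ℕ → ℝ), (∀ m, 0 ≤ α m ∧ α m ≤ 1) →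
    (∀ m, α m ≠ 0 → ∀ r : ℕ, r.Prime → r ∣ m → (N : ℝ) ^ (1 / 10 : ℝ) ≤ r) →
    (N : ℝ) ^ (1 / 4 : ℝ) ≤ M → (N : ℝ) ^ (1 / 4 : ℝ) ≤ u → u ≤ v → M * v ≤ 8 * N → ∀ z : ℝ,
    remd (BX M u v) (fun x => wB α x * Fs w H N p1 (some h) (xv N x)) (fun x => xv N x + h)
      (Pg N w.W H) z (H59C.XB M u v α * (AE w.P H (some h) (FC w H) * Vb N w.W p1 H)) (Lv N θ) ≤
      N / Real.log N ^ 10
  remI : ∑ d ∈ Dv (Pg N w.W H) (Lv N θ),
    |∑ t ∈ (Ioc (Ya N) (Yb N)).filter (fun t => d ∣ N - t), Fs w H N p1 none t -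
      Xi w H N p1 / (Nat.totient d : ℝ)| ≤ N / Real.log N ^ 10
  remJ : ∀ h ∈ H, ∑ d ∈ Dv (Pg N w.W H) (Lv N θ),
    |∑ t ∈ (Ioc (Ya N) (Yb N)).filter
        (fun t => t ≡ N [MOD p1] ∧ ∀ q ∈ d.primeFactors, q ∣ N - t ∨ q ∣ t + h),
        Fs w H N p1 (some h) t -
      ((Yb N : ℝ) - Ya N) / p1 * (AE w.P H (some h) (FC w H) * Va N w.W p1 H) *
        ((2 : ℝ) ^ d.primeFactors.card / d)| ≤ N / Real.log N ^ 10
  cls : ∀ h ∈ H, ∀ r c : ℕ, (r.Prime ∨ ∀ p ∈ w.P, r.Coprime p) → 1 ≤ r →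
    ∑ t ∈ (Ioc (Ya N) (Yb N)).filter (fun t => t ≡ c [MOD r]), FF w H (some h) t ≤
      Real.log N ^ B * (N / r) / Real.log N ^ 20 + (N : ℝ) ^ (1 / 20 : ℝ)
  mom : ∑ t ∈ Icc 1 N, FF w H none t ^ 2 ≤ Real.log N ^ B * N

end

end Pool.Agent.Lib.H57C
end

-- from Lib.H57C.D2
section

/-!
# Definitions: abstract bad classes `R` and target classes `T`
-/

open Finset

namespace Pool.Agent.Lib.H57C

open Pool.Agent.Lib.H15P Pool.Agent.Lib.H92G Pool.Agent.Lib.H57M
open Pool.Agent.Lib.H59C (Sq lg XX gq VV PR zz yy Tri BX wB remd sift)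

noncomputable section

/-- Small primes, integers. -/
def VaR (Q : Finset ℕ) (R : ℕ → Finset ℕ) : ℝ := ∏ q ∈ Q, (1 - ((R q).card : ℝ) / q)

/-- Small primes, sequences without one of the bad classes. -/
def VbR (Q : Finset ℕ) (R : ℕ → Finset ℕ) : ℝ :=
  VaR Q R * ∏ q ∈ Q, ((q : ℝ) / ((q : ℝ) - 1))

/-- What is assumed about the weight. -/
structure Pre0 (B cF : ℕ) (θ : ℝ) {K : ℕ} (w : Par K) (H : Finset ℕ) (n p1 : ℕ) : Prop where
  cardH : H.card = K
  HW : ∀ h ∈ H, h ≤ w.W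
  Wdef : w.W = ⌈Real.log n ^ B⌉₊
  PN : ∀ p ∈ w.P, (p : ℝ) ≤ (n : ℝ) ^ (1 / 100 : ℝ)
  p1p : p1.Prime
  p1W : p1 ≤ w.W
  exF : ExJ w.P (FC w H) (Real.log n ^ cF) 3 ((n : ℝ) ^ (2 * θ))

/-- What is assumed about the bad classes `R` modulo the primes `≤ W` and the target classes `T` modulo the primes
in `P'`. -/
structure HRT (K k W p1 : ℕ) (H : Finset ℕ) (R T : ℕ → Finset ℕ) (P' : Finset ℕ) : Prop where
  Rr : ∀ q, R q ⊆ range q
  Rk : ∀ q ∈ Ps W p1, (R q).card ≤ K + k
  Rq : ∀ q ∈ Ps W p1, (R q).card < q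
  RH : ∀ q ∈ Ps W p1, ∀ h ∈ H, ∀ c < q, q ∣ c + h → c ∈ R q
  P'p : ∀ q ∈ P', q.Prime ∧ W < q
  Tr : ∀ q ∈ P', T q ⊆ range q
  Tk : ∀ q ∈ P', (T q).card ≤ k
  TH : ∀ q ∈ P', ∀ t ∈ T q, ∀ h ∈ H, ¬ q ∣ t + h

/-- The target classes and the class `-h`. -/
def Tp (T : ℕ → Finset ℕ) (h q : ℕ) : Finset ℕ := (range q).filter (fun c => c ∈ T q ∨ q ∣ c + h)

theorem Pre.to0 {B cF : ℕ} {θ : ℝ} {K : ℕ} {w : Par K} {H : Finset ℕ} {N p1 : ℕ}
    (h : Pre B cF θ w H N p1) : Pre0 B cF θ w H N p1 :=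
  ⟨h.cardH, h.HW, h.Wdef, h.PN, h.p1p, h.p1W, h.exF⟩

theorem Va_eq (N W p1 : ℕ) (H : Finset ℕ) : Va N W p1 H = VaR (Ps W p1) (Rb N H) := rfl

theorem Vb_eq (N W p1 : ℕ) (H : Finset ℕ) : Vb N W p1 H = VbR (Ps W p1) (Rb N H) := rfl


end

end Pool.Agent.Lib.H57C
end
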