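import Pool.Agent.Lib.H1M.RV3.M017
import Pool.Agent.Lib.H1M.RV3.M019
import Pool.Agent.Lib.H1M.RV3.M035
import Pool.Agent.Lib.H1M.RV3.M036

/-! Merged copies (to shorten the build) of Lib.H59C.PRJ, Lib.H59C.BV3, Lib.H59C.PSI, Lib.H59C.PSJ, Lib.H59C.MER2, Lib.H59C.MER3, Lib.H59C.CVX. -/

-- from Lib.H59C.PRJ
section

/-!
# PRJ: dyadic summation for products
-/

open Finset

namespace Pool.Agent.Lib.H59C

open Pool.Agent.Lib.H68T (PC p0 e)

/-- the dyadic piece of `n` above `R` -/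
def prj_dy (R n : ℕ) : ℕ := Nat.log 2 ((n - 1) / R)

theorem prj_dy_spec {R n : ℕ} (hR : 1 ≤ R) (hn : R < n) :
    2 ^ prj_dy R n * R < n ∧ n ≤ 2 * (2 ^ prj_dy R n * R) := by
  have h1 : (n - 1) / R ≠ 0 := by
    have : 1 ≤ (n - 1) / R := (Nat.le_div_iff_mul_le (by omega)).2 (by omega)
    omega
  have h2 : 2 ^ prj_dy R n ≤ (n - 1) / R := Nat.pow_log_le_self 2 h1
  have h3 : (n - 1) / R < 2 ^ (prj_dy R n + 1) := Nat.lt_pow_succ_log_self (by norm_num) _
  rw [Nat.le_div_iff_mul_le (by omega)] at h2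
  rw [Nat.div_lt_iff_lt_mul (by omega), pow_succ] at h3
  constructor
  · omega
  · have : 2 ^ prj_dy R n * 2 * R = 2 * (2 ^ prj_dy R n * R) := by ring
    omega

theorem prj_dy_lt {R n Q : ℕ} (hQ : n ≤ Q) : prj_dy R n < Nat.log 2 Q + 1 := by
  rw [Nat.lt_succ_iff]
  apply Nat.log_mono_right
  exact (Nat.div_le_self _ _).trans (by omega)

theorem prj_log {Q : ℕ} (hQ : 2 ≤ Q) : ((Nat.log 2 Q + 1 : ℕ) : ℝ) ≤ 3 * Real.log Q := by
  have hQ2 : (2 : ℝ) ≤ Q := by exact_mod_cast hQ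
  have hl2 := Real.log_two_gt_d9
  have h1 : ((2 : ℝ) ^ Nat.log 2 Q) ≤ Q := by
    exact_mod_cast Nat.pow_log_le_self 2 (by omega : Q ≠ 0)
  have h2 := Real.log_le_log (by positivity) h1
  rw [Real.log_pow] at h2
  have h3 := Real.log_le_log (by norm_num) hQ2
  push_cast
  have h4 : (0 : ℝ) ≤ Nat.log 2 Q := Nat.cast_nonneg _
  nlinarith

/-- the square root -/
theorem prj_sqrt {M N R : ℝ} (hM : 0 ≤ M) (hN : 0 ≤ N) (hR : 0 ≤ R) :
    Real.sqrt ((M + R ^ 2) * (N + R ^ 2)) ≤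
      Real.sqrt (M * N) + R * Real.sqrt M + R * Real.sqrt N + R ^ 2 := by
  have h1 : Real.sqrt (M * N) = Real.sqrt M * Real.sqrt N := Real.sqrt_mul hM N
  have h0 : ∀ x : ℝ, 0 ≤ x → Real.sqrt (x + R ^ 2) ≤ Real.sqrt x + R := by
    intro x hx
    rw [Real.sqrt_le_left (by positivity)]
    have h1 := Real.sq_sqrt hx
    have h2 : 0 ≤ Real.sqrt x * R := by positivity
    nlinarith
  have h2 := h0 M hM
  have h3 := h0 N hN
  rw [Real.sqrt_mul (by positivity), h1]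
  calc _ ≤ (Real.sqrt M + R) * (Real.sqrt N + R) :=
        mul_le_mul h2 h3 (Real.sqrt_nonneg _) (by positivity)
    _ = _ := by ring

open Classical in
/-- The analogue for products: as in `psi_dyad`/`psi_sum`, with `bil'`. Here `α` is supported on
`m ≤ M`, `β` on `n ≤ N`, both bounded by `L`: for each dyadic `R` the bound is
`C/R √((M + R²)(N + R²) M N L⁴) ≤ C L² (M N/R + M √N + N √M + R √(M N))`. -/
theorem prod_sum : ∃ C : ℝ, 0 < C ∧ ∀ (R0 Q M N : ℕ), 1 ≤ R0 → 1 ≤ M → 1 ≤ N → 2 ≤ Q →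
    ∀ (L : ℝ), 0 ≤ L → ∀ α β : ℕ → ℂ, (∀ m, ‖α m‖ ≤ L) → (∀ m, ‖β m‖ ≤ L) →
    ∑ p ∈ (PC Q).filter (fun p => R0 < p.1), 1 / (Nat.totient p.1 : ℝ) *
      (‖∑ m ∈ Icc 1 M, α m * p.2 (m : ZMod p.1)‖ * ‖∑ n ∈ Icc 1 N, β n * p.2 (n : ZMod p.1)‖) ≤
      C * Real.log Q * L ^ 2 * ((M : ℝ) * N / R0 + M * Real.sqrt N + N * Real.sqrt M +
        Q * Real.sqrt ((M : ℝ) * N)) := by
  obtain ⟨C₀, hC₀, hb⟩ := bil'
  refine ⟨3 * C₀, by positivity, ?_⟩
  intro R0 Q M N hR0 hM hN hQ L hL α β hα hβ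
  obtain ⟨f, hf⟩ : ∃ f : PCh → ℝ, ∀ p, f p = 1 / (Nat.totient p.1 : ℝ) *
      (‖∑ m ∈ Icc 1 M, α m * p.2 (m : ZMod p.1)‖ * ‖∑ n ∈ Icc 1 N, β n * p.2 (n : ZMod p.1)‖) :=
    ⟨_, fun _ => rfl⟩
  simp only [← hf]
  have hf0 : ∀ p, 0 ≤ f p := by
    intro p
    rw [hf]
    positivity
  have hR0r : (1 : ℝ) ≤ R0 := by exact_mod_cast hR0
  have hMr : (1 : ℝ) ≤ M := by exact_mod_cast hM
  have hNr : (1 : ℝ) ≤ N := by exact_mod_cast hN
  have hmaps : ∀ p ∈ (PC Q).filter (fun p => R0 < p.1),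
      prj_dy R0 p.1 ∈ range (Nat.log 2 Q + 1) := by
    intro p hp
    rw [mem_filter, Pool.Agent.Lib.H68T.mem_PC] at hp
    rw [mem_range]
    exact prj_dy_lt hp.1.2.1
  obtain ⟨T, hT⟩ : ∃ T : ℝ, T = C₀ * L ^ 2 * ((M : ℝ) * N / R0 + M * Real.sqrt N +
      N * Real.sqrt M + Q * Real.sqrt ((M : ℝ) * N)) := ⟨_, rfl⟩
  have hT0 : 0 ≤ T := by rw [hT]; positivity
  have hpiece : ∀ i ∈ range (Nat.log 2 Q + 1),
      ∑ p ∈ ((PC Q).filter (fun p => R0 < p.1)).filter (fun p => prj_dy R0 p.1 = i), f p ≤ T := by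
    intro i _
    by_cases hi : 2 ^ i * R0 ≤ Q
    · obtain ⟨R, hRdef⟩ : ∃ R, R = 2 ^ i * R0 := ⟨_, rfl⟩
      have hRR0 : R0 ≤ R := by
        rw [hRdef]
        exact Nat.le_mul_of_pos_left _ (by positivity)
      have hR1 : 1 ≤ R := hR0.trans hRR0
      have hsub : ((PC Q).filter (fun p => R0 < p.1)).filter (fun p => prj_dy R0 p.1 = i) ⊆
          PD R := by
        intro p hp
        rw [mem_filter, mem_filter, Pool.Agent.Lib.H68T.mem_PC] at hp
        obtain ⟨⟨⟨h1, h2, h3⟩, h4⟩, h5⟩ := hp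
        have h6 := prj_dy_spec hR0 h4
        rw [h5, ← hRdef] at h6
        rw [PD, mem_filter, Pool.Agent.Lib.H68T.mem_PC]
        exact ⟨⟨h1, h6.2, h3⟩, h6.1⟩
      refine (sum_le_sum_of_subset_of_nonneg hsub fun p _ _ => hf0 p).trans ?_
      have h1 := hb R M N hR1 hM hN α β
      simp only [← hf] at h1
      refine h1.trans ?_
      have hRr : (1 : ℝ) ≤ R := by exact_mod_cast hR1
      have hRQ : (R : ℝ) ≤ Q := by rw [hRdef]; exact_mod_cast hi
      have hRR : (R0 : ℝ) ≤ R := by exact_mod_cast hRR0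
      have hA : ∑ m ∈ Icc 1 M, ‖α m‖ ^ 2 ≤ M * L ^ 2 := by
        refine (sum_le_sum fun m _ => pow_le_pow_left₀ (norm_nonneg _) (hα m) 2).trans ?_
        rw [sum_const, Nat.card_Icc, nsmul_eq_mul, Nat.add_sub_cancel]
      have hB : ∑ m ∈ Icc 1 N, ‖β m‖ ^ 2 ≤ N * L ^ 2 := by
        refine (sum_le_sum fun m _ => pow_le_pow_left₀ (norm_nonneg _) (hβ m) 2).trans ?_
        rw [sum_const, Nat.card_Icc, nsmul_eq_mul, Nat.add_sub_cancel]
      have h2 : Real.sqrt (((M : ℝ) + (R : ℝ) ^ 2) * ((N : ℝ) + (R : ℝ) ^ 2) *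
          (∑ m ∈ Icc 1 M, ‖α m‖ ^ 2) * ∑ n ∈ Icc 1 N, ‖β n‖ ^ 2) ≤
          Real.sqrt (((M : ℝ) + (R : ℝ) ^ 2) * ((N : ℝ) + (R : ℝ) ^ 2)) *
            (L ^ 2 * Real.sqrt ((M : ℝ) * N)) := by
        have e1 : L ^ 2 * Real.sqrt ((M : ℝ) * N) = Real.sqrt ((M * L ^ 2) * (N * L ^ 2)) := by
          have e2 : ((M : ℝ) * L ^ 2) * (N * L ^ 2) = (L ^ 2) ^ 2 * (M * N) := by ring
          rw [e2, Real.sqrt_mul (by positivity : (0 : ℝ) ≤ (L ^ 2) ^ 2),
            Real.sqrt_sq (by positivity)]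
        rw [e1, ← Real.sqrt_mul (by positivity)]
        apply Real.sqrt_le_sqrt
        rw [mul_assoc (((M : ℝ) + (R : ℝ) ^ 2) * ((N : ℝ) + (R : ℝ) ^ 2))]
        exact mul_le_mul_of_nonneg_left (mul_le_mul hA hB (by positivity) (by positivity))
          (by positivity)
      have h3 := prj_sqrt (M := M) (N := N) (R := R) (by positivity) (by positivity) (by positivity)
      have h4 : Real.sqrt ((M : ℝ) * N) = Real.sqrt M * Real.sqrt N := Real.sqrt_mul (by positivity) _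
      have hsM : Real.sqrt M * Real.sqrt M = M := Real.mul_self_sqrt (by positivity)
      have hsN : Real.sqrt N * Real.sqrt N = N := Real.mul_self_sqrt (by positivity)
      have hR0' : (0 : ℝ) < R := by linarith
      calc C₀ / R * Real.sqrt (((M : ℝ) + (R : ℝ) ^ 2) * ((N : ℝ) + (R : ℝ) ^ 2) *
          (∑ m ∈ Icc 1 M, ‖α m‖ ^ 2) * ∑ n ∈ Icc 1 N, ‖β n‖ ^ 2)
          ≤ C₀ / R * ((Real.sqrt (M * N) + R * Real.sqrt M + R * Real.sqrt N + R ^ 2) *
            (L ^ 2 * Real.sqrt ((M : ℝ) * N))) := by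
            refine mul_le_mul_of_nonneg_left (h2.trans ?_) (by positivity)
            exact mul_le_mul_of_nonneg_right h3 (by positivity)
        _ = C₀ * L ^ 2 * ((M : ℝ) * N / R + M * Real.sqrt N + N * Real.sqrt M +
            R * Real.sqrt ((M : ℝ) * N)) := by
            rw [h4]
            have e1 : (Real.sqrt M * Real.sqrt N) * (Real.sqrt M * Real.sqrt N) = M * N := by
              calc _ = (Real.sqrt M * Real.sqrt M) * (Real.sqrt N * Real.sqrt N) := by ring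
                _ = _ := by rw [hsM, hsN]
            have e2 : (R * Real.sqrt M) * (Real.sqrt M * Real.sqrt N) = R * (M * Real.sqrt N) := by
              calc _ = R * ((Real.sqrt M * Real.sqrt M) * Real.sqrt N) := by ring
                _ = _ := by rw [hsM]
            have e3 : (R * Real.sqrt N) * (Real.sqrt M * Real.sqrt N) = R * (N * Real.sqrt M) := by
              calc _ = R * ((Real.sqrt N * Real.sqrt N) * Real.sqrt M) := by ring
                _ = _ := by rw [hsN]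
            have e4 : (Real.sqrt M * Real.sqrt N + R * Real.sqrt M + R * Real.sqrt N + R ^ 2) *
                (Real.sqrt M * Real.sqrt N) = M * N + R * (M * Real.sqrt N) +
                R * (N * Real.sqrt M) + R ^ 2 * (Real.sqrt M * Real.sqrt N) := by
              rw [add_mul, add_mul, add_mul, e1, e2, e3]
            have e5 : C₀ / R * ((Real.sqrt M * Real.sqrt N + R * Real.sqrt M + R * Real.sqrt N +
                R ^ 2) * (L ^ 2 * (Real.sqrt M * Real.sqrt N))) = C₀ / R * L ^ 2 *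
                ((Real.sqrt M * Real.sqrt N + R * Real.sqrt M + R * Real.sqrt N + R ^ 2) *
                (Real.sqrt M * Real.sqrt N)) := by ring
            rw [e5, e4]
            field_simp
        _ ≤ T := by
            rw [hT]
            gcongr
    · have hempty : ((PC Q).filter (fun p => R0 < p.1)).filter
          (fun p => prj_dy R0 p.1 = i) = ∅ := by
        rw [filter_eq_empty_iff]
        intro p hp h5
        rw [mem_filter, Pool.Agent.Lib.H68T.mem_PC] at hp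
        have h6 := prj_dy_spec hR0 hp.2
        rw [h5] at h6
        exact hi (h6.1.le.trans hp.1.2.1)
      rw [hempty, sum_empty]
      exact hT0
  rw [← sum_fiberwise_of_maps_to hmaps]
  refine (sum_le_sum hpiece).trans ?_
  rw [sum_const, card_range, nsmul_eq_mul]
  refine (mul_le_mul_of_nonneg_right (prj_log hQ) hT0).trans (le_of_eq ?_)
  rw [hT]
  ring

end Pool.Agent.Lib.H59C
end

-- from Lib.H59C.BV3
section

/-!
# BV3: level of distribution of products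
-/

open Finset

namespace Pool.Agent.Lib.H59C

open Pool.Agent.Lib.H68T (PC p0 e)

open Classical in
/-- the coefficients of the product -/
noncomputable def bv3_f (M u v : ℕ) (α : ℕ → ℝ) (j : ℕ) : ℂ :=
  ∑ m ∈ Icc 1 M, ∑ q ∈ (Ioc u v).filter Nat.Prime,
    if m * q = j then (α m : ℂ) * (Real.log q : ℂ) else 0

theorem bv3_sum (M u v : ℕ) (α : ℕ → ℝ) (S : ℕ → Prop) [DecidablePred S] (g : ℕ → ℂ) :
    ∑ j ∈ (Icc 1 (M * v)).filter S, bv3_f M u v α j * g j =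
      ∑ m ∈ Icc 1 M, ∑ q ∈ (Ioc u v).filter Nat.Prime,
        if S (m * q) then (α m : ℂ) * (Real.log q : ℂ) * g (m * q) else 0 := by
  unfold bv3_f
  rw [sum_filter]
  have h1 : ∀ j ∈ Icc 1 (M * v), (if S j then (∑ m ∈ Icc 1 M, ∑ q ∈ (Ioc u v).filter Nat.Prime,
      if m * q = j then (α m : ℂ) * (Real.log q : ℂ) else 0) * g j else 0) =
      ∑ m ∈ Icc 1 M, ∑ q ∈ (Ioc u v).filter Nat.Prime,
        if m * q = j then (if S j then (α m : ℂ) * (Real.log q : ℂ) * g j else 0) else 0 := by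
    intro j _
    split_ifs with h
    · rw [sum_mul]
      refine sum_congr rfl fun m _ => ?_
      rw [sum_mul]
      refine sum_congr rfl fun q _ => ?_
      split_ifs <;> simp
    · simp
  rw [sum_congr rfl h1, sum_comm]
  refine sum_congr rfl fun m hm => ?_
  rw [sum_comm]
  refine sum_congr rfl fun q hq => ?_
  rw [sum_ite_eq]
  rw [if_pos]
  rw [mem_Icc] at hm ⊢
  rw [mem_filter, mem_Ioc] at hq
  exact ⟨Nat.mul_pos hm.1 (by omega), Nat.mul_le_mul hm.2 hq.1.2⟩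

open Classical in
/-- the sum over `m` -/
noncomputable def bv3_A (M : ℕ) (α : ℕ → ℝ) (k : ℕ) (p : PCh) : ℂ :=
  ∑ m ∈ (Icc 1 M).filter (fun m => m.Coprime k), (α m : ℂ) * p.2 (m : ZMod p.1)

open Classical in
/-- the sum over the primes -/
noncomputable def bv3_T (u v : ℕ) (k : ℕ) (p : PCh) : ℂ :=
  ∑ q ∈ (Ioc u v).filter (fun q => q.Prime ∧ q.Coprime k), (Real.log q : ℂ) * p.2 (q : ZMod p.1)

open Classical in
theorem bv3_fac (M u v : ℕ) (α : ℕ → ℝ) (k : ℕ) (p : PCh) :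
    ∑ j ∈ (Icc 1 (M * v)).filter (fun j => j.Coprime k), bv3_f M u v α j * p.2 (j : ZMod p.1) =
      bv3_A M α k p * bv3_T u v k p := by
  rw [bv3_sum M u v α (fun j => j.Coprime k) (fun j => p.2 (j : ZMod p.1))]
  unfold bv3_A bv3_T
  rw [sum_mul_sum, sum_filter]
  refine sum_congr rfl fun m _ => ?_
  rw [← filter_filter]
  by_cases hm : m.Coprime k
  · rw [if_pos hm, sum_filter (s := (Ioc u v).filter Nat.Prime)]
    refine sum_congr rfl fun q _ => ?_
    by_cases hq : q.Coprime k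
    · rw [if_pos hq, if_pos (Nat.Coprime.mul_left hm hq)]
      push_cast
      rw [map_mul]
      ring
    · rw [if_neg hq, if_neg]
      intro h
      exact hq (Nat.Coprime.coprime_mul_left h)
  · rw [if_neg hm]
    refine sum_eq_zero fun q _ => ?_
    rw [if_neg]
    intro h
    exact hm (Nat.Coprime.coprime_mul_right h)

open Classical in
/-- the deviation in one class -/
theorem bv3_dev (M u v d a : ℕ) (α : ℕ → ℝ) (hd : 1 ≤ d) (ha : a.Coprime d) :
    |∑ m ∈ Icc 1 M, α m * ∑ q ∈ (Ioc u v).filter (fun q => q.Prime ∧ m * q ≡ a [MOD d]),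
          Real.log q -
        1 / (Nat.totient d : ℝ) * ((∑ m ∈ (Icc 1 M).filter (fun m => m.Coprime d), α m) *
          ∑ q ∈ (Ioc u v).filter (fun q => q.Prime ∧ q.Coprime d), Real.log q)| ≤
      1 / (Nat.totient d : ℝ) * ∑ p ∈ (PC d).filter (fun p => p ≠ p0 ∧ p.1 ∣ d),
        (‖bv3_A M α (d / p.1) p‖ * ‖bv3_T u v (d / p.1) p‖) := by
  have h1 := prog_gen d a (M * v) hd ha (bv3_f M u v α)
  have h2 : ∀ p ∈ (PC d).filter (fun p => p ≠ p0 ∧ p.1 ∣ d),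
      ‖∑ m ∈ (Icc 1 (M * v)).filter (fun m => m.Coprime (d / p.1)),
        bv3_f M u v α m * p.2 (m : ZMod p.1)‖ =
      ‖bv3_A M α (d / p.1) p‖ * ‖bv3_T u v (d / p.1) p‖ := by
    intro p _
    rw [bv3_fac, norm_mul]
  rw [sum_congr rfl h2] at h1
  refine le_trans (le_of_eq ?_) h1
  rw [← Real.norm_eq_abs, ← Complex.norm_real]
  congr 1
  have h3 := bv3_sum M u v α (fun m => m ≡ a [MOD d]) (fun _ => 1)
  have h4 := bv3_sum M u v α (fun m => m.Coprime d) (fun _ => 1)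
  simp only [mul_one] at h3 h4
  rw [h3, h4]
  have h5 : (∑ m ∈ Icc 1 M, ∑ q ∈ (Ioc u v).filter Nat.Prime,
      if m * q ≡ a [MOD d] then (α m : ℂ) * (Real.log q : ℂ) else 0) =
      ((∑ m ∈ Icc 1 M, α m * ∑ q ∈ (Ioc u v).filter (fun q => q.Prime ∧ m * q ≡ a [MOD d]),
          Real.log q : ℝ) : ℂ) := by
    push_cast
    refine sum_congr rfl fun m _ => ?_
    rw [mul_sum, ← filter_filter, sum_filter (s := (Ioc u v).filter Nat.Prime)]
  have h6 : (∑ m ∈ Icc 1 M, ∑ q ∈ (Ioc u v).filter Nat.Prime,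
      if (m * q).Coprime d then (α m : ℂ) * (Real.log q : ℂ) else 0) =
      (((∑ m ∈ (Icc 1 M).filter (fun m => m.Coprime d), α m) *
          ∑ q ∈ (Ioc u v).filter (fun q => q.Prime ∧ q.Coprime d), Real.log q : ℝ) : ℂ) := by
    push_cast
    rw [sum_mul_sum, sum_filter (s := Icc 1 M)]
    refine sum_congr rfl fun m _ => ?_
    rw [← filter_filter]
    by_cases hm : m.Coprime d
    · rw [if_pos hm, sum_filter (s := (Ioc u v).filter Nat.Prime)]
      refine sum_congr rfl fun q _ => ?_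
      by_cases hq : q.Coprime d
      · rw [if_pos hq, if_pos (Nat.Coprime.mul_left hm hq)]
      · rw [if_neg hq, if_neg]
        intro h
        exact hq (Nat.Coprime.coprime_mul_left h)
    · rw [if_neg hm]
      refine sum_eq_zero fun q _ => ?_
      rw [if_neg]
      intro h
      exact hm (Nat.Coprime.coprime_mul_right h)
  rw [h5, h6]
  push_cast
  ring

theorem bv3_norm_chi (p : PCh) (m : ℕ) : ‖p.2 (m : ZMod p.1)‖ ≤ 1 :=
  DirichletCharacter.norm_le_one _ _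

/-- prime powers -/
theorem bv3_pp (p : PCh) (y : ℕ) :
    ‖psi y p - ∑ q ∈ (Icc 1 y).filter Nat.Prime, (Real.log q : ℂ) * p.2 (q : ZMod p.1)‖ ≤
      2 * Real.sqrt y * Real.log y := by
  rcases Nat.eq_zero_or_pos y with h0 | h0
  · subst h0
    simp [psi]
  have h1 : psi y p - ∑ q ∈ (Icc 1 y).filter Nat.Prime, (Real.log q : ℂ) * p.2 (q : ZMod p.1) =
      ∑ m ∈ (Icc 1 y).filter (fun m => ¬ m.Prime),
        (ArithmeticFunction.vonMangoldt m : ℂ) * p.2 (m : ZMod p.1) := by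
    unfold psi
    rw [← sum_filter_add_sum_filter_not (Icc 1 y) Nat.Prime
      (fun m => (ArithmeticFunction.vonMangoldt m : ℂ) * p.2 (m : ZMod p.1))]
    have h2 : ∑ q ∈ (Icc 1 y).filter Nat.Prime, (Real.log q : ℂ) * p.2 (q : ZMod p.1) =
        ∑ q ∈ (Icc 1 y).filter Nat.Prime,
          (ArithmeticFunction.vonMangoldt q : ℂ) * p.2 (q : ZMod p.1) := by
      refine sum_congr rfl fun q hq => ?_
      rw [mem_filter] at hq
      rw [ArithmeticFunction.vonMangoldt_apply_prime hq.2]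
    rw [h2]
    ring
  rw [h1]
  refine (norm_sum_le _ _).trans ?_
  have h3 : ∀ m ∈ (Icc 1 y).filter (fun m => ¬ m.Prime),
      ‖(ArithmeticFunction.vonMangoldt m : ℂ) * p.2 (m : ZMod p.1)‖ ≤
        ArithmeticFunction.vonMangoldt m := by
    intro m _
    rw [norm_mul, Complex.norm_real, Real.norm_of_nonneg ArithmeticFunction.vonMangoldt_nonneg]
    exact mul_le_of_le_one_right ArithmeticFunction.vonMangoldt_nonneg (bv3_norm_chi p m)
  refine (sum_le_sum h3).trans ?_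
  have h4 : (1 : ℝ) ≤ (y : ℝ) := by exact_mod_cast h0
  refine le_trans (le_of_eq ?_) (Chebyshev.psi_sub_theta_le h4)
  have h5 : Chebyshev.psi (y : ℝ) = ∑ m ∈ Icc 1 y, ArithmeticFunction.vonMangoldt m := by
    unfold Chebyshev.psi
    rw [Nat.floor_natCast]
    rfl
  have h6 : Chebyshev.theta (y : ℝ) =
      ∑ q ∈ (Icc 1 y).filter Nat.Prime, ArithmeticFunction.vonMangoldt q := by
    unfold Chebyshev.theta
    rw [Nat.floor_natCast]
    refine sum_congr rfl fun q hq => ?_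
    rw [mem_filter] at hq
    rw [ArithmeticFunction.vonMangoldt_apply_prime hq.2]
  rw [h5, h6, ← sum_filter_add_sum_filter_not (Icc 1 y) Nat.Prime
      (fun m => ArithmeticFunction.vonMangoldt m)]
  ring

open Classical in
theorem bv3_T_le (u v k : ℕ) (p : PCh) (huv : u ≤ v) (hk : 1 ≤ k) :
    ‖bv3_T u v k p‖ ≤ ‖psi v p‖ + ‖psi u p‖ + 4 * (Real.sqrt v * Real.log v) + Real.log k := by
  set T0 : ℕ → ℂ := fun y => ∑ q ∈ (Icc 1 y).filter Nat.Prime,
    (Real.log q : ℂ) * p.2 (q : ZMod p.1) with hT0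
  set N : ℂ := ∑ q ∈ (Ioc u v).filter (fun q => q.Prime ∧ ¬ q.Coprime k),
    (Real.log q : ℂ) * p.2 (q : ZMod p.1) with hN
  have h1 : bv3_T u v k p = T0 v - T0 u - N := by
    have h2 : T0 v = T0 u + ∑ q ∈ (Ioc u v).filter Nat.Prime,
        (Real.log q : ℂ) * p.2 (q : ZMod p.1) := by
      simp only [hT0]
      rw [← sum_union]
      · congr 1
        ext q
        simp only [mem_filter, mem_union, mem_Icc, mem_Ioc]
        constructor
        · rintro ⟨⟨h3, h4⟩, h5⟩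
          by_cases h6 : q ≤ u
          · exact Or.inl ⟨⟨h3, h6⟩, h5⟩
          · exact Or.inr ⟨⟨by omega, h4⟩, h5⟩
        · rintro (⟨⟨h3, h4⟩, h5⟩ | ⟨⟨h3, h4⟩, h5⟩)
          · exact ⟨⟨h3, by omega⟩, h5⟩
          · exact ⟨⟨by omega, h4⟩, h5⟩
      · rw [disjoint_left]
        intro q hq hq'
        simp only [mem_filter, mem_Icc, mem_Ioc] at hq hq'
        omega
    have h3 : ∑ q ∈ (Ioc u v).filter Nat.Prime, (Real.log q : ℂ) * p.2 (q : ZMod p.1) =
        bv3_T u v k p + N := by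
      unfold bv3_T
      rw [hN, ← filter_filter, ← filter_filter]
      exact (sum_filter_add_sum_filter_not _ _ _).symm
    rw [h2, h3]
    ring
  have h4 : ‖T0 v‖ ≤ ‖psi v p‖ + 2 * (Real.sqrt v * Real.log v) := by
    have h5 := bv3_pp p v
    have h6 : T0 v = psi v p - (psi v p - T0 v) := by ring
    rw [h6]
    refine (norm_sub_le _ _).trans ?_
    have h7 : ‖psi v p - T0 v‖ ≤ 2 * Real.sqrt v * Real.log v := h5
    linarith
  have h8 : ‖T0 u‖ ≤ ‖psi u p‖ + 2 * (Real.sqrt v * Real.log v) := by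
    have h5 := bv3_pp p u
    have h6 : T0 u = psi u p - (psi u p - T0 u) := by ring
    rw [h6]
    refine (norm_sub_le _ _).trans ?_
    have h7 : ‖psi u p - T0 u‖ ≤ 2 * Real.sqrt u * Real.log u := h5
    have h9 : Real.sqrt u * Real.log u ≤ Real.sqrt v * Real.log v := by
      rcases Nat.eq_zero_or_pos u with h0 | h0
      · subst h0
        simp only [Nat.cast_zero, Real.sqrt_zero, Real.log_zero, mul_zero]
        exact mul_nonneg (Real.sqrt_nonneg _) (Real.log_natCast_nonneg v)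
      · have h10 : (u : ℝ) ≤ v := by exact_mod_cast huv
        have h11 : (0 : ℝ) < u := by exact_mod_cast h0
        exact mul_le_mul (Real.sqrt_le_sqrt h10) (Real.log_le_log h11 h10)
          (Real.log_natCast_nonneg u) (Real.sqrt_nonneg _)
    linarith
  have h12 : ‖N‖ ≤ Real.log k := by
    rw [hN]
    refine (norm_sum_le _ _).trans ?_
    have h13 : ∀ q ∈ (Ioc u v).filter (fun q => q.Prime ∧ ¬ q.Coprime k),
        ‖(Real.log q : ℂ) * p.2 (q : ZMod p.1)‖ ≤ Real.log q := by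
      intro q _
      rw [norm_mul, Complex.norm_real, Real.norm_of_nonneg (Real.log_natCast_nonneg q)]
      exact mul_le_of_le_one_right (Real.log_natCast_nonneg q) (bv3_norm_chi p q)
    refine (sum_le_sum h13).trans ?_
    have h14 : ∑ q ∈ (Ioc u v).filter (fun q => q.Prime ∧ ¬ q.Coprime k), Real.log q ≤
        ∑ q ∈ k.primeFactors, Real.log q := by
      apply sum_le_sum_of_subset_of_nonneg
      · intro q hq
        simp only [mem_filter] at hq
        rw [Nat.mem_primeFactors]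
        refine ⟨hq.2.1, ?_, by omega⟩
        by_contra h
        exact hq.2.2 ((Nat.Prime.coprime_iff_not_dvd hq.2.1).2 h)
      · intro q _ _
        exact Real.log_natCast_nonneg q
    refine h14.trans ?_
    rw [← Real.log_prod (fun q hq => by
      have := (Nat.prime_of_mem_primeFactors hq).pos
      positivity)]
    apply Real.log_le_log
    · apply prod_pos
      intro q hq
      have := (Nat.prime_of_mem_primeFactors hq).pos
      exact_mod_cast this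
    · have := Nat.le_of_dvd hk (Nat.prod_primeFactors_dvd k)
      calc ∏ q ∈ k.primeFactors, (q : ℝ) = ((∏ q ∈ k.primeFactors, q : ℕ) : ℝ) := by
            push_cast
            rfl
        _ ≤ k := by exact_mod_cast this
  rw [h1]
  have h15 := norm_sub_le (T0 v - T0 u) N
  have h16 := norm_sub_le (T0 v) (T0 u)
  linarith

open Classical in
theorem bv3_I : ∃ C : ℝ, 0 < C ∧ ∀ (R0 Q M u v k : ℕ), 1 ≤ R0 → 1 ≤ M → 1 ≤ v → 2 ≤ Q →
    ∀ (L : ℝ), 1 ≤ L → Real.log v ≤ L → ∀ α : ℕ → ℝ, (∀ m, |α m| ≤ 1) →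
    ∑ p ∈ (PC Q).filter (fun p => R0 < p.1), 1 / (Nat.totient p.1 : ℝ) *
      (‖bv3_A M α k p‖ * ‖bv3_T u v k p‖) ≤
      C * Real.log Q * L ^ 2 * ((M : ℝ) * v / R0 + M * Real.sqrt v + v * Real.sqrt M +
        Q * Real.sqrt ((M : ℝ) * v)) := by
  obtain ⟨C, hC, h⟩ := prod_sum
  refine ⟨C, hC, fun R0 Q M u v k h1 h2 h3 h4 L hL hvL α hα => ?_⟩
  set α' : ℕ → ℂ := fun m => if m.Coprime k then (α m : ℂ) else 0 with hα'
  set β' : ℕ → ℂ := fun q => if u < q ∧ q ≤ v ∧ q.Prime ∧ q.Coprime k then (Real.log q : ℂ) else 0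
    with hβ'
  have h5 : ∀ m, ‖α' m‖ ≤ L := by
    intro m
    simp only [hα']
    split_ifs
    · rw [Complex.norm_real, Real.norm_eq_abs]
      exact (hα m).trans hL
    · rw [norm_zero]
      linarith
  have h6 : ∀ m, ‖β' m‖ ≤ L := by
    intro q
    simp only [hβ']
    split_ifs with hq
    · rw [Complex.norm_real, Real.norm_of_nonneg (Real.log_natCast_nonneg q)]
      refine le_trans (Real.log_le_log ?_ ?_) hvL
      · have := hq.2.2.1.pos
        exact_mod_cast this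
      · exact_mod_cast hq.2.1
    · rw [norm_zero]
      linarith
  have h7 := h R0 Q M v h1 h2 h3 h4 L (by linarith) α' β' h5 h6
  refine le_trans (le_of_eq ?_) h7
  refine sum_congr rfl fun p _ => ?_
  congr 2
  · unfold bv3_A
    rw [sum_filter]
    congr 1
    refine sum_congr rfl fun m _ => ?_
    simp only [hα']
    split_ifs <;> simp
  · unfold bv3_T
    congr 1
    have h8 : (Ioc u v).filter (fun q => q.Prime ∧ q.Coprime k) =
        (Icc 1 v).filter (fun q => u < q ∧ q ≤ v ∧ q.Prime ∧ q.Coprime k) := by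
      ext q
      simp only [mem_filter, mem_Ioc, mem_Icc]
      constructor
      · rintro ⟨⟨a1, a2⟩, a3, a4⟩
        exact ⟨⟨a3.pos, a2⟩, a1, a2, a3, a4⟩
      · rintro ⟨_, a1, a2, a3, a4⟩
        exact ⟨⟨a1, a2⟩, a3, a4⟩
    rw [h8, sum_filter]
    refine sum_congr rfl fun m _ => ?_
    simp only [hβ']
    split_ifs <;> simp

theorem bv3_psi_le (p : PCh) (y : ℕ) : ‖psi y p‖ ≤ 6 * y := by
  unfold psi
  refine (norm_sum_le _ _).trans ?_
  have h3 : ∀ m ∈ Icc 1 y,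
      ‖(ArithmeticFunction.vonMangoldt m : ℂ) * p.2 (m : ZMod p.1)‖ ≤
        ArithmeticFunction.vonMangoldt m := by
    intro m _
    rw [norm_mul, Complex.norm_real, Real.norm_of_nonneg ArithmeticFunction.vonMangoldt_nonneg]
    exact mul_le_of_le_one_right ArithmeticFunction.vonMangoldt_nonneg (bv3_norm_chi p m)
  refine (sum_le_sum h3).trans ?_
  have h5 : Chebyshev.psi (y : ℝ) = ∑ m ∈ Icc 1 y, ArithmeticFunction.vonMangoldt m := by
    unfold Chebyshev.psi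
    rw [Nat.floor_natCast]
    rfl
  rw [← h5]
  have h6 := Chebyshev.psi_le_const_mul_self (x := (y : ℝ)) (Nat.cast_nonneg y)
  have h7 : Real.log 4 ≤ 2 := by
    have h8 : Real.log 4 = 2 * Real.log 2 := by
      rw [show (4 : ℝ) = 2 ^ 2 by norm_num, Real.log_pow]
      norm_num
    rw [h8]
    have := Real.log_two_lt_d9
    linarith
  have h9 : (0 : ℝ) ≤ y := Nat.cast_nonneg y
  nlinarith

theorem bv3_A_le (M k : ℕ) (α : ℕ → ℝ) (hα : ∀ m, |α m| ≤ 1) (p : PCh) :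
    ‖bv3_A M α k p‖ ≤ M := by
  unfold bv3_A
  refine (norm_sum_le _ _).trans ?_
  have h1 : ∀ m ∈ (Icc 1 M).filter (fun m => m.Coprime k),
      ‖(α m : ℂ) * p.2 (m : ZMod p.1)‖ ≤ 1 := by
    intro m _
    rw [norm_mul, Complex.norm_real, Real.norm_eq_abs]
    exact mul_le_one₀ (hα m) (norm_nonneg _) (bv3_norm_chi p m)
  refine (sum_le_sum h1).trans ?_
  rw [sum_const, nsmul_eq_mul, mul_one]
  have : ((Icc 1 M).filter (fun m => m.Coprime k)).card ≤ M := by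
    refine (card_filter_le _ _).trans ?_
    simp
  exact_mod_cast this

theorem bv3_II (A' n p1 M u v k R0 : ℕ) (hS : SWp A' n p1) (hn : 1 ≤ n) (hk : 1 ≤ k)
    (hR : R0 ≤ ⌊Real.log n ^ A'⌋₊) (α : ℕ → ℝ) (hα : ∀ m, |α m| ≤ 1)
    (hv : (n : ℝ) ^ (1 / 4 : ℝ) ≤ v) (hv8 : v ≤ 8 * n) (huv : u ≤ v) (hL : 1 ≤ Real.log n)
    (hlv : Real.log v ≤ 2 * Real.log n) (hlk : Real.log k ≤ Real.log n)
    (p : PCh) (hp : p ∈ PC R0) (hp0 : p ≠ p0) (hp1 : ¬ p1 ∣ p.1) :
    ‖bv3_A M α k p‖ * ‖bv3_T u v k p‖ ≤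
      M * (2 * (v / Real.log n ^ A') + 6 * (n : ℝ) ^ (1 / 10 : ℝ) +
        8 * (Real.sqrt v * Real.log n) + Real.log n) := by
  have h1 := bv3_A_le M k α hα p
  have h2 := bv3_T_le u v k p huv hk
  have hn1 : (1 : ℝ) ≤ n := by exact_mod_cast hn
  have hp' : p ∈ PC ⌊Real.log n ^ A'⌋₊ := by
    rw [Pool.Agent.Lib.H68T.mem_PC] at hp ⊢
    exact ⟨hp.1, hp.2.1.trans hR, hp.2.2⟩
  have hv10 : (n : ℝ) ^ (1 / 10 : ℝ) ≤ v :=
    (Real.rpow_le_rpow_of_exponent_le hn1 (by norm_num)).trans hv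
  have h3 := hS p hp' hp0 hp1 v hv10 hv8
  have hLA : (0 : ℝ) < Real.log n ^ A' := by positivity
  have h4 : ‖psi u p‖ ≤ v / Real.log n ^ A' + 6 * (n : ℝ) ^ (1 / 10 : ℝ) := by
    have h6 : (0 : ℝ) ≤ (n : ℝ) ^ (1 / 10 : ℝ) := Real.rpow_nonneg (Nat.cast_nonneg n) _
    have h7 : (0 : ℝ) ≤ v / Real.log n ^ A' := div_nonneg (Nat.cast_nonneg v) hLA.le
    by_cases h5 : (n : ℝ) ^ (1 / 10 : ℝ) ≤ u
    · have h8 := hS p hp' hp0 hp1 u h5 (huv.trans hv8)
      have h9 : (u : ℝ) / Real.log n ^ A' ≤ v / Real.log n ^ A' := by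
        apply div_le_div_of_nonneg_right _ hLA.le
        exact_mod_cast huv
      linarith
    · have h8 := bv3_psi_le p u
      push Not at h5
      linarith
  have h10 : Real.sqrt v * Real.log v ≤ 2 * (Real.sqrt v * Real.log n) := by
    have := mul_le_mul_of_nonneg_left hlv (Real.sqrt_nonneg (v : ℝ))
    linarith
  have h11 : ‖bv3_T u v k p‖ ≤ 2 * (v / Real.log n ^ A') + 6 * (n : ℝ) ^ (1 / 10 : ℝ) +
        8 * (Real.sqrt v * Real.log n) + Real.log n := by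
    linarith
  exact mul_le_mul h1 h11 (norm_nonneg _) (Nat.cast_nonneg M)

theorem bv3_ev (K : ℝ) (B' : ℕ) : ∃ n0 : ℕ, ∀ n : ℕ, n0 ≤ n → 8 ≤ n ∧ 1 ≤ Real.log n ∧
    K ≤ Real.log n ∧ 120 * Real.log n ^ B' ≤ (n : ℝ) ^ (1 / 8 : ℝ) := by
  have h1 := isLittleO_log_rpow_rpow_atTop (B' : ℝ) (show (0 : ℝ) < 1 / 8 by norm_num)
  have h2 := h1.bound (show (0 : ℝ) < 1 / 120 by norm_num)
  have h3 := Real.tendsto_log_atTop.eventually_ge_atTop (max 1 K)
  obtain ⟨x0, hx0⟩ := Filter.eventually_atTop.1 (h2.and h3)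
  obtain ⟨n0, hn0⟩ := exists_nat_ge (max x0 8)
  refine ⟨n0, fun n hn => ?_⟩
  have hn1 : (n0 : ℝ) ≤ n := by exact_mod_cast hn
  obtain ⟨h4, h5⟩ := hx0 n ((le_max_left _ _).trans (hn0.trans hn1))
  have h6 : (8 : ℝ) ≤ n := (le_max_right _ _).trans (hn0.trans hn1)
  have h7 : (1 : ℝ) ≤ Real.log n := (le_max_left _ _).trans h5
  refine ⟨by exact_mod_cast h6, h7, (le_max_right _ _).trans h5, ?_⟩
  rw [Real.rpow_natCast, Real.norm_of_nonneg (by positivity),
    Real.norm_of_nonneg (Real.rpow_nonneg (by linarith) _)] at h4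
  linarith

/-- the numerical facts -/
theorem bv3_num {n M v : ℕ} (hn : 8 ≤ n) (hM : (n : ℝ) ^ (1 / 4 : ℝ) ≤ M)
    (hv : (n : ℝ) ^ (1 / 4 : ℝ) ≤ v) (hMv : M * v ≤ 8 * n) (W : ℝ)
    (hW : W = 8 * n / (n : ℝ) ^ (1 / 8 : ℝ)) :
    (M : ℝ) * Real.sqrt v ≤ W ∧ (v : ℝ) * Real.sqrt M ≤ W ∧ (M : ℝ) ≤ W ∧
      (M : ℝ) * (n : ℝ) ^ (1 / 10 : ℝ) ≤ W := by
  have hn1 : (1 : ℝ) ≤ n := by
    have : 1 ≤ n := by omega
    exact_mod_cast this
  have hn0 : (0 : ℝ) < n := by linarith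
  have h8 : (1 : ℝ) ≤ (n : ℝ) ^ (1 / 8 : ℝ) := Real.one_le_rpow hn1 (by norm_num)
  have hsq : Real.sqrt ((n : ℝ) ^ (1 / 4 : ℝ)) = (n : ℝ) ^ (1 / 8 : ℝ) := by
    rw [Real.sqrt_eq_rpow, ← Real.rpow_mul hn0.le]
    norm_num
  have hMv' : (M : ℝ) * v ≤ 8 * n := by exact_mod_cast hMv
  have hsv : (n : ℝ) ^ (1 / 8 : ℝ) ≤ Real.sqrt v := by
    rw [← hsq]
    exact Real.sqrt_le_sqrt hv
  have hsM : (n : ℝ) ^ (1 / 8 : ℝ) ≤ Real.sqrt M := by
    rw [← hsq]
    exact Real.sqrt_le_sqrt hM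
  have hv2 : Real.sqrt v * Real.sqrt v = v := Real.mul_self_sqrt (Nat.cast_nonneg v)
  have hM2 : Real.sqrt M * Real.sqrt M = M := Real.mul_self_sqrt (Nat.cast_nonneg M)
  have hM0 : (0 : ℝ) ≤ M := Nat.cast_nonneg M
  have hv0 : (0 : ℝ) ≤ v := Nat.cast_nonneg v
  have hpos : (0 : ℝ) < (n : ℝ) ^ (1 / 8 : ℝ) := by linarith
  have k1 : (M : ℝ) * Real.sqrt v ≤ W := by
    rw [hW, le_div_iff₀ hpos]
    calc (M : ℝ) * Real.sqrt v * (n : ℝ) ^ (1 / 8 : ℝ)
        ≤ (M : ℝ) * Real.sqrt v * Real.sqrt v :=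
          mul_le_mul_of_nonneg_left hsv (by positivity)
      _ = M * v := by rw [mul_assoc, hv2]
      _ ≤ 8 * n := hMv'
  have k2 : (v : ℝ) * Real.sqrt M ≤ W := by
    rw [hW, le_div_iff₀ hpos]
    calc (v : ℝ) * Real.sqrt M * (n : ℝ) ^ (1 / 8 : ℝ)
        ≤ (v : ℝ) * Real.sqrt M * Real.sqrt M :=
          mul_le_mul_of_nonneg_left hsM (by positivity)
      _ = M * v := by rw [mul_assoc, hM2]; ring
      _ ≤ 8 * n := hMv'
  refine ⟨k1, k2, ?_, ?_⟩
  · refine le_trans ?_ k1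
    exact le_mul_of_one_le_right hM0 (h8.trans hsv)
  · refine le_trans ?_ k1
    apply mul_le_mul_of_nonneg_left _ hM0
    refine le_trans ?_ hsv
    exact Real.rpow_le_rpow_of_exponent_le hn1 (by norm_num)

open Classical in
/-- the sum over the characters, one `k` -/
theorem bv3_inner : ∃ C : ℝ, 0 < C ∧ ∀ (A n p1 M u v k D : ℕ), SWp (3 * A + 30) n p1 →
    8 ≤ n → 1 ≤ Real.log n → 120 * Real.log n ^ (3 * A + 31) ≤ (n : ℝ) ^ (1 / 8 : ℝ) →
    (n : ℝ) ^ (1 / 4 : ℝ) ≤ M → (n : ℝ) ^ (1 / 4 : ℝ) ≤ v → u ≤ v → M * v ≤ 8 * n →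
    1 ≤ k → k ≤ D → 2 ≤ D → (D : ℝ) ≤ Real.sqrt n / Real.log n ^ (A + 12) →
    ∀ α : ℕ → ℝ, (∀ m, |α m| ≤ 1) →
    ∑ p ∈ (PC D).filter (fun p => p ≠ p0 ∧ ¬ p1 ∣ p.1), 1 / (Nat.totient p.1 : ℝ) *
      (‖bv3_A M α k p‖ * ‖bv3_T u v k p‖) ≤
      (84 * C + 17) * (Real.log n ^ 3 * (n / Real.log n ^ (A + 10))) := by
  obtain ⟨C, hC, hI⟩ := bv3_I
  refine ⟨C, hC, fun A n p1 M u v k D hS hn8 hL h120 hM hv huv hMv hk hkD hD2 hD α hα => ?_⟩
  set L := Real.log n with hLdef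
  set R0 := ⌊L ^ (A + 10)⌋₊ with hR0
  have hn1 : (1 : ℝ) ≤ n := by
    have : 1 ≤ n := by omega
    exact_mod_cast this
  have hn0 : (0 : ℝ) < n := by linarith
  have hL0 : 0 < L := by linarith
  have hLA1 : (1 : ℝ) ≤ L ^ (A + 10) := one_le_pow₀ hL
  have hR1 : 1 ≤ R0 := by
    rw [hR0, Nat.one_le_floor_iff]
    exact hLA1
  have hRle : (R0 : ℝ) ≤ L ^ (A + 10) := Nat.floor_le (by linarith)
  have hRge : L ^ (A + 10) / 2 ≤ (R0 : ℝ) := by
    have h1 := Nat.lt_floor_add_one (L ^ (A + 10))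
    have h2 : (1 : ℝ) ≤ R0 := by exact_mod_cast hR1
    rw [← hR0] at h1
    linarith
  obtain ⟨W, hW⟩ : ∃ W : ℝ, W = 8 * n / (n : ℝ) ^ (1 / 8 : ℝ) := ⟨_, rfl⟩
  obtain ⟨w1, w2, w3, w4⟩ := bv3_num hn8 hM hv hMv W hW
  have hM1 : 1 ≤ M := by
    have h1 : (1 : ℝ) ≤ (n : ℝ) ^ (1 / 4 : ℝ) := Real.one_le_rpow hn1 (by norm_num)
    exact_mod_cast h1.trans hM
  have hv1 : 1 ≤ v := by
    have h1 : (1 : ℝ) ≤ (n : ℝ) ^ (1 / 4 : ℝ) := Real.one_le_rpow hn1 (by norm_num)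
    exact_mod_cast h1.trans hv
  have hv8 : v ≤ 8 * n := le_trans (Nat.le_mul_of_pos_left v hM1) hMv
  have hlv : Real.log v ≤ 2 * L := by
    have h1 : (v : ℝ) ≤ (n : ℝ) ^ 2 := by
      have h2 : v ≤ n ^ 2 := by
        calc v ≤ 8 * n := hv8
          _ ≤ n * n := Nat.mul_le_mul_right n hn8
          _ = n ^ 2 := (sq n).symm
      exact_mod_cast h2
    have h3 := Real.log_le_log (by exact_mod_cast hv1) h1
    rw [Real.log_pow] at h3
    exact_mod_cast h3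
  have hDn : (D : ℝ) ≤ n := by
    refine hD.trans ?_
    have h1 : (1 : ℝ) ≤ L ^ (A + 12) := one_le_pow₀ hL
    refine (div_le_self (Real.sqrt_nonneg _) h1).trans ?_
    rw [Real.sqrt_le_left (by linarith)]
    nlinarith
  have hlD : Real.log D ≤ L := Real.log_le_log (by
    have : 0 < D := by omega
    exact_mod_cast this) hDn
  have hlk : Real.log k ≤ L := by
    refine le_trans (Real.log_le_log (by exact_mod_cast hk) ?_) hlD
    exact_mod_cast hkD
  have hWL : W * (15 * L) ≤ n / L ^ (3 * A + 30) := by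
    rw [hW, div_mul_eq_mul_div, div_le_div_iff₀ (by positivity) (by positivity)]
    have h1 : (8 * (n : ℝ) * (15 * L)) * L ^ (3 * A + 30) = n * (120 * L ^ (3 * A + 31)) := by ring
    rw [h1]
    exact mul_le_mul_of_nonneg_left h120 hn0.le
  have hMv' : (M : ℝ) * v ≤ 8 * n := by exact_mod_cast hMv
  -- the split
  have hsplit : ∑ p ∈ (PC D).filter (fun p => p ≠ p0 ∧ ¬ p1 ∣ p.1), 1 / (Nat.totient p.1 : ℝ) *
      (‖bv3_A M α k p‖ * ‖bv3_T u v k p‖) ≤
      ∑ p ∈ (PC D).filter (fun p => R0 < p.1), 1 / (Nat.totient p.1 : ℝ) *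
        (‖bv3_A M α k p‖ * ‖bv3_T u v k p‖) +
      ∑ p ∈ (PC R0).filter (fun p => p ≠ p0 ∧ ¬ p1 ∣ p.1), 1 / (Nat.totient p.1 : ℝ) *
        (‖bv3_A M α k p‖ * ‖bv3_T u v k p‖) := by
    rw [← sum_union]
    · apply sum_le_sum_of_subset_of_nonneg
      · intro p hp
        rw [mem_filter, Pool.Agent.Lib.H68T.mem_PC] at hp
        rw [mem_union, mem_filter, mem_filter, Pool.Agent.Lib.H68T.mem_PC,
          Pool.Agent.Lib.H68T.mem_PC]
        by_cases h : R0 < p.1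
        · exact Or.inl ⟨hp.1, h⟩
        · exact Or.inr ⟨⟨hp.1.1, not_lt.1 h, hp.1.2.2⟩, hp.2⟩
      · intro p _ _
        positivity
    · rw [disjoint_left]
      intro p hp hp'
      rw [mem_filter] at hp
      rw [mem_filter, Pool.Agent.Lib.H68T.mem_PC] at hp'
      omega
  -- large conductors
  have hbig := hI R0 D M u v k hR1 hM1 hv1 hD2 (2 * L) (by linarith) hlv α hα
  have hT1 : (M : ℝ) * v / R0 ≤ 16 * (n / L ^ (A + 10)) := by
    have h1 : (M : ℝ) * v / R0 ≤ 8 * n / (L ^ (A + 10) / 2) :=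
      div_le_div₀ (by positivity) hMv' (by positivity) hRge
    refine h1.trans (le_of_eq ?_)
    field_simp
    ring
  have hWn : W ≤ n / L ^ (A + 10) := by
    have h1 : W * 1 ≤ W * (15 * L) := by
      apply mul_le_mul_of_nonneg_left (by linarith)
      rw [hW]
      positivity
    have h2 : (n : ℝ) / L ^ (3 * A + 30) ≤ n / L ^ (A + 10) := by
      apply div_le_div_of_nonneg_left hn0.le (by positivity)
      exact pow_le_pow_right₀ hL (by omega)
    linarith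
  have hT2 : (D : ℝ) * Real.sqrt ((M : ℝ) * v) ≤ 3 * (n / L ^ (A + 10)) := by
    have h1 : Real.sqrt ((M : ℝ) * v) ≤ 3 * Real.sqrt n := by
      refine (Real.sqrt_le_sqrt hMv').trans ?_
      rw [Real.sqrt_le_left (by positivity), mul_pow, Real.sq_sqrt hn0.le]
      linarith
    have h2 : (D : ℝ) * Real.sqrt ((M : ℝ) * v) ≤
        Real.sqrt n / L ^ (A + 12) * (3 * Real.sqrt n) :=
      mul_le_mul hD h1 (Real.sqrt_nonneg _) (by positivity)
    have h3 : Real.sqrt n / L ^ (A + 12) * (3 * Real.sqrt n) = 3 * (n / L ^ (A + 12)) := by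
      rw [div_mul_eq_mul_div, show Real.sqrt n * (3 * Real.sqrt n) =
        3 * (Real.sqrt n * Real.sqrt n) by ring, Real.mul_self_sqrt hn0.le]
      ring
    have h4 : (n : ℝ) / L ^ (A + 12) ≤ n / L ^ (A + 10) := by
      apply div_le_div_of_nonneg_left hn0.le (by positivity)
      exact pow_le_pow_right₀ hL (by omega)
    linarith
  have hbig2 : ∑ p ∈ (PC D).filter (fun p => R0 < p.1), 1 / (Nat.totient p.1 : ℝ) *
        (‖bv3_A M α k p‖ * ‖bv3_T u v k p‖) ≤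
      84 * C * (L ^ 3 * (n / L ^ (A + 10))) := by
    refine hbig.trans ?_
    have h1 : (M : ℝ) * v / R0 + M * Real.sqrt v + v * Real.sqrt M +
        D * Real.sqrt ((M : ℝ) * v) ≤ 21 * (n / L ^ (A + 10)) := by linarith
    have h2 : C * Real.log D * (2 * L) ^ 2 ≤ C * L * (2 * L) ^ 2 := by
      apply mul_le_mul_of_nonneg_right _ (by positivity)
      exact mul_le_mul_of_nonneg_left hlD hC.le
    have h3 : (0 : ℝ) ≤ (M : ℝ) * v / R0 + M * Real.sqrt v + v * Real.sqrt M +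
        D * Real.sqrt ((M : ℝ) * v) := by positivity
    refine (mul_le_mul h2 h1 h3 (by positivity)).trans (le_of_eq ?_)
    ring
  -- small conductors
  have hsmall : ∑ p ∈ (PC R0).filter (fun p => p ≠ p0 ∧ ¬ p1 ∣ p.1), 1 / (Nat.totient p.1 : ℝ) *
        (‖bv3_A M α k p‖ * ‖bv3_T u v k p‖) ≤ 17 * (n / L ^ (A + 10)) := by
    have hR : R0 ≤ ⌊L ^ (3 * A + 30)⌋₊ := Nat.floor_le_floor (pow_le_pow_right₀ hL (by omega))
    have h1 : ∀ p ∈ (PC R0).filter (fun p => p ≠ p0 ∧ ¬ p1 ∣ p.1), 1 / (Nat.totient p.1 : ℝ) *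
        (‖bv3_A M α k p‖ * ‖bv3_T u v k p‖) ≤ 17 * (n / L ^ (3 * A + 30)) := by
      intro p hp
      rw [mem_filter] at hp
      have h2 := bv3_II (3 * A + 30) n p1 M u v k R0 hS (by omega) hk hR α hα hv hv8 huv hL hlv hlk
        p hp.1 hp.2.1 hp.2.2
      have h3 : 1 / (Nat.totient p.1 : ℝ) ≤ 1 := by
        rw [Pool.Agent.Lib.H68T.mem_PC] at hp
        have h4 : 1 ≤ Nat.totient p.1 := Nat.totient_pos.2 hp.1.1
        have h5 : (1 : ℝ) ≤ Nat.totient p.1 := by exact_mod_cast h4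
        rw [div_le_one (by linarith)]
        exact h5
      have h6 : 1 / (Nat.totient p.1 : ℝ) * (‖bv3_A M α k p‖ * ‖bv3_T u v k p‖) ≤
          ‖bv3_A M α k p‖ * ‖bv3_T u v k p‖ := mul_le_of_le_one_left (by positivity) h3
      refine h6.trans (h2.trans ?_)
      have h7 : (M : ℝ) * (2 * (v / L ^ (3 * A + 30)) + 6 * (n : ℝ) ^ (1 / 10 : ℝ) +
          8 * (Real.sqrt v * L) + L) = 2 * ((M * v) / L ^ (3 * A + 30)) +
          6 * (M * (n : ℝ) ^ (1 / 10 : ℝ)) + 8 * ((M * Real.sqrt v) * L) + M * L := by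
        ring
      rw [h7]
      have h8 : ((M : ℝ) * v) / L ^ (3 * A + 30) ≤ 8 * (n / L ^ (3 * A + 30)) := by
        rw [mul_div_assoc']
        exact div_le_div_of_nonneg_right hMv' (by positivity)
      have h9 : ((M : ℝ) * Real.sqrt v) * L ≤ W * L := mul_le_mul_of_nonneg_right w1 hL0.le
      have h10 : (M : ℝ) * L ≤ W * L := mul_le_mul_of_nonneg_right w3 hL0.le
      have h11 : W * 1 ≤ W * L := by
        apply mul_le_mul_of_nonneg_left hL
        rw [hW]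
        positivity
      linarith
    refine (sum_le_sum h1).trans ?_
    rw [sum_const, nsmul_eq_mul]
    have h12 : (((PC R0).filter (fun p => p ≠ p0 ∧ ¬ p1 ∣ p.1)).card : ℝ) ≤ L ^ (2 * A + 20) := by
      have h13 : ((PC R0).filter (fun p => p ≠ p0 ∧ ¬ p1 ∣ p.1)).card ≤ R0 ^ 2 :=
        (card_filter_le _ _).trans (Pool.Agent.Lib.H68T.card_PC_le R0)
      have h14 : (((PC R0).filter (fun p => p ≠ p0 ∧ ¬ p1 ∣ p.1)).card : ℝ) ≤ (R0 : ℝ) ^ 2 := by
        exact_mod_cast h13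
      refine h14.trans ?_
      have h15 : L ^ (2 * A + 20) = (L ^ (A + 10)) ^ 2 := by
        rw [← pow_mul]
        congr 1
        ring
      rw [h15]
      exact pow_le_pow_left₀ (Nat.cast_nonneg _) hRle 2
    refine (mul_le_mul_of_nonneg_right h12 (by positivity)).trans (le_of_eq ?_)
    have h16 : L ^ (3 * A + 30) = L ^ (2 * A + 20) * L ^ (A + 10) := by
      rw [← pow_add]
      congr 1
      ring
    rw [h16]
    field_simp
  have h17 : (n : ℝ) / L ^ (A + 10) ≤ L ^ 3 * (n / L ^ (A + 10)) :=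
    le_mul_of_one_le_left (by positivity) (one_le_pow₀ hL)
  calc _ ≤ _ := hsplit
    _ ≤ 84 * C * (L ^ 3 * (n / L ^ (A + 10))) + 17 * (n / L ^ (A + 10)) :=
      add_le_add hbig2 hsmall
    _ ≤ _ := by linarith

open Classical in
/-- Level of distribution `1/2` of the products `m q`, `m ≤ M` with arbitrary bounded weights, `q` prime
in `(u, v]` with weight `log q`.

Proof. `prog_gen` with `y = M v` and `f j = ∑_{m q = j} α_m log q` (the sum over `j` coprime to `d` is the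
sum over the pairs with both coprime to `d`). The character sums factor:
`∑_{(j,k)=1} f(j) χ(j) = A_k(χ) T_k(χ)`, `A_k(χ) = ∑_{m ≤ M, (m,k)=1} α_m χ(m)`,
`T_k(χ) = ∑_{u < q ≤ v, (q,k)=1} χ(q) log q`. `exchange` with `F k p = ‖A_k(p)‖ ‖T_k(p)‖`; for every fixed `k ≤ D`
(the weights `1/φ(k)` sum to `≤ C L`, `L = log n`): conductors `> R0`: `prod_sum` with these sequences
(bounded by `log (8n) ≤ 2L`): `C L^3 (8 n/R0 + 8 n v^(-1/2) + 8 n M^(-1/2) + D √(8n))`, where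
`v, M ≥ n^(1/4)`. Conductors `≤ R0 = ⌊L^(A+10)⌋`: `‖A_k‖ ≤ M`,
`‖T_k‖ ≤ ‖psi v p‖ + ‖psi u p‖ + 4 √v log v + 2 log k log v` (prime powers; primes dividing `k`), `SWp A' n p1`
with `A' = 2A + 30` for `v ≥ n^(1/4)`, and for `u ≥ n^(1/10)`; for `u < n^(1/10)` `‖psi u p‖ ≤ 2 u`; in total
`R0 M (v/L^A' + ...) ≤ n L^(-A-5)`. Take `B = A + 12`. -/
theorem bv_bil (A : ℕ) : ∃ A' B n0 : ℕ, ∀ n : ℕ, n0 ≤ n → ∀ p1 : ℕ, SWp A' n p1 →
    ∀ (M u v a : ℕ) (α : ℕ → ℝ), (∀ m, |α m| ≤ 1) → (n : ℝ) ^ (1 / 4 : ℝ) ≤ M →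
    (n : ℝ) ^ (1 / 4 : ℝ) ≤ v → u ≤ v → M * v ≤ 8 * n →
    ∑ d ∈ (Icc 1 (DD n B)).filter (fun d => a.Coprime d ∧ ¬ p1 ∣ d),
      |∑ m ∈ Icc 1 M, α m * ∑ q ∈ (Ioc u v).filter (fun q => q.Prime ∧ m * q ≡ a [MOD d]),
          Real.log q -
        1 / (Nat.totient d : ℝ) * ((∑ m ∈ (Icc 1 M).filter (fun m => m.Coprime d), α m) *
          ∑ q ∈ (Ioc u v).filter (fun q => q.Prime ∧ q.Coprime d), Real.log q)| ≤
      n / Real.log n ^ A := by
  obtain ⟨C0, hC0, hφ⟩ := sum_inv_totient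
  obtain ⟨C, hC, hin⟩ := bv3_inner
  obtain ⟨n0, hn0⟩ := bv3_ev (C0 * (84 * C + 17)) (3 * A + 31)
  refine ⟨3 * A + 30, A + 12, n0, fun n hn p1 hS M u v a α hα hM hv huv hMv => ?_⟩
  obtain ⟨hn8, hL, hLC, h120⟩ := hn0 n hn
  have hn1 : (1 : ℝ) ≤ n := by
    have : 1 ≤ n := by omega
    exact_mod_cast this
  have hn00 : (0 : ℝ) < n := by linarith
  have hDle : ((DD n (A + 12) : ℕ) : ℝ) ≤ Real.sqrt n / Real.log n ^ (A + 12) := by
    unfold DD
    exact Nat.floor_le (by positivity)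
  have hD2 : 2 ≤ DD n (A + 12) := by
    unfold DD
    apply Nat.le_floor
    rw [le_div_iff₀ (by positivity)]
    have h1 : Real.log n ^ (A + 12) ≤ Real.log n ^ (3 * A + 31) :=
      pow_le_pow_right₀ hL (by omega)
    have h2 : (n : ℝ) ^ (1 / 8 : ℝ) ≤ Real.sqrt n := by
      rw [Real.sqrt_eq_rpow]
      exact Real.rpow_le_rpow_of_exponent_le hn1 (by norm_num)
    have h3 : (0 : ℝ) ≤ Real.log n ^ (A + 12) := by positivity
    push_cast
    linarith
  set D := DD n (A + 12) with hD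
  set L := Real.log n with hLdef
  have hL0 : 0 < L := by linarith
  set F : ℕ → PCh → ℝ := fun k p => ‖bv3_A M α k p‖ * ‖bv3_T u v k p‖ with hF
  have hF0 : ∀ k p, 0 ≤ F k p := fun k p => by positivity
  have h1 : ∑ d ∈ (Icc 1 D).filter (fun d => a.Coprime d ∧ ¬ p1 ∣ d),
      |∑ m ∈ Icc 1 M, α m * ∑ q ∈ (Ioc u v).filter (fun q => q.Prime ∧ m * q ≡ a [MOD d]),
          Real.log q -
        1 / (Nat.totient d : ℝ) * ((∑ m ∈ (Icc 1 M).filter (fun m => m.Coprime d), α m) *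
          ∑ q ∈ (Ioc u v).filter (fun q => q.Prime ∧ q.Coprime d), Real.log q)| ≤
      ∑ d ∈ (Icc 1 D).filter (fun d => ¬ p1 ∣ d), 1 / (Nat.totient d : ℝ) *
        ∑ p ∈ (PC d).filter (fun p => p ≠ p0 ∧ p.1 ∣ d), F (d / p.1) p := by
    have h2 : ∀ d ∈ (Icc 1 D).filter (fun d => a.Coprime d ∧ ¬ p1 ∣ d),
        |∑ m ∈ Icc 1 M, α m * ∑ q ∈ (Ioc u v).filter (fun q => q.Prime ∧ m * q ≡ a [MOD d]),
          Real.log q -
        1 / (Nat.totient d : ℝ) * ((∑ m ∈ (Icc 1 M).filter (fun m => m.Coprime d), α m) *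
          ∑ q ∈ (Ioc u v).filter (fun q => q.Prime ∧ q.Coprime d), Real.log q)| ≤
        1 / (Nat.totient d : ℝ) *
          ∑ p ∈ (PC d).filter (fun p => p ≠ p0 ∧ p.1 ∣ d), F (d / p.1) p := by
      intro d hd
      rw [mem_filter, mem_Icc] at hd
      exact bv3_dev M u v d a α hd.1.1 hd.2.1
    refine (sum_le_sum h2).trans ?_
    apply sum_le_sum_of_subset_of_nonneg
    · intro d hd
      rw [mem_filter] at hd ⊢
      exact ⟨hd.1, hd.2.2⟩
    · intro d _ _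
      exact mul_nonneg (by positivity) (sum_nonneg fun p _ => hF0 _ _)
  refine h1.trans ((exchange D p1 F hF0).trans ?_)
  have h3 : ∀ k ∈ Icc 1 D, 1 / (Nat.totient k : ℝ) *
        ∑ p ∈ (PC D).filter (fun p => p ≠ p0 ∧ ¬ p1 ∣ p.1), 1 / (Nat.totient p.1 : ℝ) * F k p ≤
      1 / (Nat.totient k : ℝ) * ((84 * C + 17) * (L ^ 3 * (n / L ^ (A + 10)))) := by
    intro k hk
    rw [mem_Icc] at hk
    apply mul_le_mul_of_nonneg_left _ (by positivity)
    exact hin A n p1 M u v k D hS hn8 hL h120 hM hv huv hMv hk.1 hk.2 hD2 hDle α hα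
  refine (sum_le_sum h3).trans ?_
  rw [← sum_mul]
  have hDn : (D : ℝ) ≤ n := by
    refine hDle.trans ?_
    have h1 : (1 : ℝ) ≤ L ^ (A + 12) := one_le_pow₀ hL
    refine (div_le_self (Real.sqrt_nonneg _) h1).trans ?_
    rw [Real.sqrt_le_left (by linarith)]
    nlinarith
  have hlD : Real.log D ≤ L := Real.log_le_log (by
    have : 0 < D := by omega
    exact_mod_cast this) hDn
  have h4 : ∑ k ∈ Icc 1 D, 1 / (Nat.totient k : ℝ) ≤ C0 * L :=
    (hφ D hD2).trans (mul_le_mul_of_nonneg_left hlD hC0.le)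
  refine (mul_le_mul_of_nonneg_right h4 (by positivity)).trans ?_
  have h5 : C0 * L * ((84 * C + 17) * (L ^ 3 * (n / L ^ (A + 10)))) =
      (C0 * (84 * C + 17)) * (n / L ^ (A + 6)) := by
    have h6 : L ^ (A + 10) = L ^ (A + 6) * L ^ 4 := by rw [← pow_add]
    rw [h6]
    field_simp
  rw [h5]
  calc (C0 * (84 * C + 17)) * (n / L ^ (A + 6)) ≤ L * (n / L ^ (A + 6)) :=
        mul_le_mul_of_nonneg_right hLC (by positivity)
    _ = n / L ^ (A + 5) := by
        have h6 : L ^ (A + 6) = L ^ (A + 5) * L := by rw [← pow_succ]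
        rw [h6]
        field_simp
    _ ≤ n / L ^ A := by
        apply div_le_div_of_nonneg_left hn00.le (by positivity)
        exact pow_le_pow_right₀ hL (by omega)

end Pool.Agent.Lib.H59C
end

-- from Lib.H59C.PSI
section

/-!
# PSI: the sums of the von Mangoldt function over the characters of conductor in `(R, 2R]`
-/

open Finset

namespace Pool.Agent.Lib.H59C

open Pool.Agent.Lib.H68T (PC p0 e VAcut VArest VAcut_apply VArest_apply VA_identity VA_conv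
  VA_cut_moeb_le VA_rest_moeb_le VA_coef_le VA_coef_supp VA_beta VA_beta_supp)

/-- Expansion of a convolution. -/
theorem PSI_conv (f g : ArithmeticFunction ℝ) (h : ℕ → ℂ) (y : ℕ) :
    ∑ m ∈ Icc 1 y, (((f * g) m : ℝ) : ℂ) * h m =
      ∑ x ∈ Icc 1 y, ∑ n ∈ (Icc 1 y).filter (fun n => x * n ≤ y),
        ((f x : ℝ) : ℂ) * ((g n : ℝ) : ℂ) * h (x * n) := by
  have h1 := VA_conv f g h (y + 1) 1 (y + 1) le_rfl
  have h2 : Ico 1 (y + 1) = Icc 1 y := by
    ext m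
    simp only [mem_Ico, mem_Icc]
    omega
  rw [h2] at h1
  rw [h1]
  have h3 : ∀ x ∈ Icc 1 (y + 1), x ∉ Icc 1 y →
      ∑ n ∈ (Icc 1 (y + 1)).filter (fun n => 1 ≤ x * n ∧ x * n < y + 1),
        ((f x : ℝ) : ℂ) * ((g n : ℝ) : ℂ) * h (x * n) = 0 := by
    intro x hx hx'
    rw [mem_Icc] at hx hx'
    apply Finset.sum_eq_zero
    intro n hn
    exfalso
    rw [mem_filter, mem_Icc] at hn
    have hxy : x = y + 1 := by omega
    subst hxy
    nlinarith [hn.1.1, hn.2.2]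
  rw [← Finset.sum_subset (fun x hx => by rw [mem_Icc] at hx ⊢; omega) h3]
  refine sum_congr rfl fun x hx => ?_
  rw [mem_Icc] at hx
  refine sum_congr ?_ fun _ _ => rfl
  ext n
  simp only [mem_filter, mem_Icc]
  constructor
  · rintro ⟨⟨h4, h5⟩, h6, h7⟩
    have : n ≤ x * n := Nat.le_mul_of_pos_left n (by omega)
    exact ⟨⟨h4, by omega⟩, by omega⟩
  · rintro ⟨⟨h4, h5⟩, h6⟩
    have : 1 ≤ x * n := Nat.mul_pos hx.1 h4
    exact ⟨⟨h4, by omega⟩, this, by omega⟩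

/-- Restriction of the range of the first variable. -/
theorem PSI_restrict (F : ℕ → ℕ → ℂ) (A B y : ℕ) (hB : B ≤ y)
    (h : ∀ x, 1 ≤ x → x ≤ y → ¬ (A < x ∧ x ≤ B) → ∀ n, 1 ≤ n → x * n ≤ y → F x n = 0) :
    ∑ x ∈ Icc 1 y, ∑ n ∈ (Icc 1 y).filter (fun n => x * n ≤ y), F x n =
      ∑ x ∈ Ioc A B, ∑ n ∈ (Icc 1 y).filter (fun n => x * n ≤ y), F x n := by
  symm
  apply Finset.sum_subset
  · intro x hx
    rw [mem_Ioc] at hx
    rw [mem_Icc]
    omega
  · intro x hx hx'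
    rw [mem_Icc] at hx
    rw [mem_Ioc] at hx'
    apply Finset.sum_eq_zero
    intro n hn
    rw [mem_filter, mem_Icc] at hn
    exact h x hx.1 hx.2 hx' n hn.1.1 hn.2

/-- the Moebius function as a real arithmetic function -/
noncomputable def PSI_mu : ArithmeticFunction ℝ :=
  ((ArithmeticFunction.moebius : ArithmeticFunction ℤ) : ArithmeticFunction ℝ)

/-- the zeta function as a real arithmetic function -/
noncomputable def PSI_ze : ArithmeticFunction ℝ :=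
  ((ArithmeticFunction.zeta : ArithmeticFunction ℕ) : ArithmeticFunction ℝ)

theorem PSI_decomp (U y : ℕ) (hU : 1 ≤ U) (hUy : U * U ≤ y) (p : PCh) :
    psi y p = ∑ m ∈ Icc 1 y, ((VAcut ArithmeticFunction.vonMangoldt U m : ℝ) : ℂ) *
        p.2 (m : ZMod p.1) +
      ∑ m ∈ Icc 1 U, ∑ n ∈ (Icc 1 y).filter (fun n => m * n ≤ y),
        ((VAcut PSI_mu U m : ℝ) : ℂ) * ((Real.log n ^ 1 : ℝ) : ℂ) *
          p.2 ((m * n : ℕ) : ZMod p.1) -
      (∑ m ∈ Icc 1 U, ∑ n ∈ (Icc 1 y).filter (fun n => m * n ≤ y),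
        (((VAcut PSI_mu U * VAcut ArithmeticFunction.vonMangoldt U) m : ℝ) : ℂ) *
          ((Real.log n ^ 0 : ℝ) : ℂ) * p.2 ((m * n : ℕ) : ZMod p.1) +
       ∑ m ∈ Ioc U (U * U), ∑ n ∈ (Icc 1 y).filter (fun n => m * n ≤ y),
        (((VAcut PSI_mu U * VAcut ArithmeticFunction.vonMangoldt U) m : ℝ) : ℂ) *
          (1 : ℂ) * p.2 ((m * n : ℕ) : ZMod p.1)) +
      ∑ m ∈ Ioc U (y / U), ∑ n ∈ (Icc 1 y).filter (fun n => m * n ≤ y),
        ((VArest PSI_mu U m : ℝ) : ℂ) *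
        (((VArest ArithmeticFunction.vonMangoldt U * PSI_ze) n : ℝ) : ℂ) *
          p.2 ((m * n : ℕ) : ZMod p.1) := by
  have hUU : U ≤ U * U := Nat.le_mul_of_pos_left U (by omega)
  have hid : ∀ m : ℕ, (ArithmeticFunction.vonMangoldt m : ℝ) =
      VAcut ArithmeticFunction.vonMangoldt U m + (VAcut PSI_mu U * ArithmeticFunction.log) m -
      ((VAcut PSI_mu U * VAcut ArithmeticFunction.vonMangoldt U) * PSI_ze) m +
      (VArest PSI_mu U * (VArest ArithmeticFunction.vonMangoldt U * PSI_ze)) m := by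
    intro m
    conv_lhs => rw [VA_identity U]
    rfl
  have h1 : psi y p = ∑ m ∈ Icc 1 y, ((VAcut ArithmeticFunction.vonMangoldt U m : ℝ) : ℂ) *
        p.2 (m : ZMod p.1) +
      ∑ m ∈ Icc 1 y, (((VAcut PSI_mu U * ArithmeticFunction.log) m : ℝ) : ℂ) *
        p.2 (m : ZMod p.1) -
      ∑ m ∈ Icc 1 y, ((((VAcut PSI_mu U * VAcut ArithmeticFunction.vonMangoldt U) *
        PSI_ze) m : ℝ) : ℂ) * p.2 (m : ZMod p.1) +
      ∑ m ∈ Icc 1 y, (((VArest PSI_mu U * (VArest ArithmeticFunction.vonMangoldt U *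
        PSI_ze)) m : ℝ) : ℂ) * p.2 (m : ZMod p.1) := by
    unfold psi
    rw [← Finset.sum_add_distrib, ← Finset.sum_sub_distrib, ← Finset.sum_add_distrib]
    refine sum_congr rfl fun m _ => ?_
    rw [hid m]
    push_cast
    ring
  rw [h1]
  have h2 : ∑ m ∈ Icc 1 y, (((VAcut PSI_mu U * ArithmeticFunction.log) m : ℝ) : ℂ) *
        p.2 (m : ZMod p.1) =
      ∑ m ∈ Icc 1 U, ∑ n ∈ (Icc 1 y).filter (fun n => m * n ≤ y),
        ((VAcut PSI_mu U m : ℝ) : ℂ) * ((Real.log n ^ 1 : ℝ) : ℂ) *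
          p.2 ((m * n : ℕ) : ZMod p.1) := by
    rw [PSI_conv (VAcut PSI_mu U) ArithmeticFunction.log (fun m => p.2 (m : ZMod p.1)) y,
      PSI_restrict _ 0 U y (by omega)]
    · have : Ioc 0 U = Icc 1 U := by
        ext m
        simp only [mem_Ioc, mem_Icc]
        omega
      rw [this]
      refine sum_congr rfl fun m _ => sum_congr rfl fun n _ => ?_
      rw [ArithmeticFunction.log_apply, pow_one]
    · intro x hx1 hxy hx n _ _
      rw [VAcut_apply, if_neg (by omega)]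
      simp
  have h3 : ∑ m ∈ Icc 1 y, ((((VAcut PSI_mu U * VAcut ArithmeticFunction.vonMangoldt U) *
        PSI_ze) m : ℝ) : ℂ) * p.2 (m : ZMod p.1) =
      ∑ m ∈ Icc 1 U, ∑ n ∈ (Icc 1 y).filter (fun n => m * n ≤ y),
        (((VAcut PSI_mu U * VAcut ArithmeticFunction.vonMangoldt U) m : ℝ) : ℂ) *
          ((Real.log n ^ 0 : ℝ) : ℂ) * p.2 ((m * n : ℕ) : ZMod p.1) +
       ∑ m ∈ Ioc U (U * U), ∑ n ∈ (Icc 1 y).filter (fun n => m * n ≤ y),
        (((VAcut PSI_mu U * VAcut ArithmeticFunction.vonMangoldt U) m : ℝ) : ℂ) *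
          (1 : ℂ) * p.2 ((m * n : ℕ) : ZMod p.1) := by
    rw [PSI_conv _ PSI_ze (fun m => p.2 (m : ZMod p.1)) y,
      PSI_restrict _ 0 (U * U) y hUy]
    · have e1 : Ioc 0 (U * U) = Icc 1 U ∪ Ioc U (U * U) := by
        ext m
        simp only [mem_Ioc, mem_union, mem_Icc]
        omega
      have e2 : Disjoint (Icc 1 U) (Ioc U (U * U)) := by
        rw [Finset.disjoint_left]
        intro m hm hm'
        rw [mem_Icc] at hm
        rw [mem_Ioc] at hm'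
        omega
      rw [e1, Finset.sum_union e2]
      congr 1
      · refine sum_congr rfl fun m _ => sum_congr rfl fun n hn => ?_
        rw [mem_filter, mem_Icc] at hn
        have e3 : PSI_ze n = 1 := by
          unfold PSI_ze
          rw [ArithmeticFunction.natCoe_apply, ArithmeticFunction.zeta_apply_ne (by omega)]
          simp
        rw [e3, pow_zero]
      · refine sum_congr rfl fun m _ => sum_congr rfl fun n hn => ?_
        rw [mem_filter, mem_Icc] at hn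
        have e3 : PSI_ze n = 1 := by
          unfold PSI_ze
          rw [ArithmeticFunction.natCoe_apply, ArithmeticFunction.zeta_apply_ne (by omega)]
          simp
        rw [e3]
        push_cast
        ring
    · intro x hx1 hxy hx n _ _
      have e4 : (VAcut PSI_mu U * VAcut ArithmeticFunction.vonMangoldt U) x = 0 :=
        VA_coef_supp U x (by omega)
      rw [e4]
      simp
  have h4 : ∑ m ∈ Icc 1 y, (((VArest PSI_mu U * (VArest ArithmeticFunction.vonMangoldt U *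
        PSI_ze)) m : ℝ) : ℂ) * p.2 (m : ZMod p.1) =
      ∑ m ∈ Ioc U (y / U), ∑ n ∈ (Icc 1 y).filter (fun n => m * n ≤ y),
        ((VArest PSI_mu U m : ℝ) : ℂ) *
        (((VArest ArithmeticFunction.vonMangoldt U * PSI_ze) n : ℝ) : ℂ) *
          p.2 ((m * n : ℕ) : ZMod p.1) := by
    rw [PSI_conv _ _ (fun m => p.2 (m : ZMod p.1)) y,
      PSI_restrict _ U (y / U) y (Nat.div_le_self _ _)]
    intro x hx1 hxy hx n hn1 hxn
    by_cases hxU : x ≤ U
    · rw [VArest_apply, if_pos hxU]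
      simp
    · have hx2 : y / U < x := by
        by_contra hcon
        exact hx ⟨by omega, by omega⟩
      have hn : n ≤ U := by
        by_contra hcon
        have h5 : y < x * U := by
          rw [Nat.div_lt_iff_lt_mul (by omega)] at hx2
          exact hx2
        have h6 : x * U ≤ x * n := Nat.mul_le_mul_left x (by omega)
        omega
      have e4 : (VArest ArithmeticFunction.vonMangoldt U * PSI_ze) n = 0 :=
        VA_beta_supp U n hn
      rw [e4]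
      simp
  rw [h2, h3, h4]

theorem PSI_norm_le_one (p : PCh) (x : ZMod p.1) : ‖p.2 x‖ ≤ 1 := DirichletCharacter.norm_le_one _ _

theorem PSI_S0 (U y : ℕ) (p : PCh) :
    ‖∑ m ∈ Icc 1 y, ((VAcut ArithmeticFunction.vonMangoldt U m : ℝ) : ℂ) *
        p.2 (m : ZMod p.1)‖ ≤ U * Real.log y := by
  have hlog : 0 ≤ Real.log y := Real.log_natCast_nonneg y
  refine (norm_sum_le _ _).trans ?_
  have e1 : ∀ m ∈ Icc 1 y,
      ‖((VAcut ArithmeticFunction.vonMangoldt U m : ℝ) : ℂ) * p.2 (m : ZMod p.1)‖ ≤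
        if m ≤ U then Real.log y else 0 := by
    intro m hm
    rw [mem_Icc] at hm
    rw [norm_mul, Complex.norm_real, Real.norm_eq_abs, VAcut_apply]
    have hc := PSI_norm_le_one p (m : ZMod p.1)
    split_ifs with h
    · rw [abs_of_nonneg ArithmeticFunction.vonMangoldt_nonneg]
      calc ArithmeticFunction.vonMangoldt m * ‖p.2 (m : ZMod p.1)‖
          ≤ ArithmeticFunction.vonMangoldt m * 1 :=
            mul_le_mul_of_nonneg_left hc ArithmeticFunction.vonMangoldt_nonneg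
        _ ≤ Real.log m := by rw [mul_one]; exact ArithmeticFunction.vonMangoldt_le_log
        _ ≤ Real.log y := Real.log_le_log (by exact_mod_cast hm.1) (by exact_mod_cast hm.2)
    · simp
  refine (Finset.sum_le_sum e1).trans ?_
  rw [← Finset.sum_filter, Finset.sum_const, nsmul_eq_mul]
  refine mul_le_mul_of_nonneg_right ?_ hlog
  have : ((Icc 1 y).filter (fun m => m ≤ U)).card ≤ (Icc 1 U).card := by
    apply card_le_card
    intro m hm
    rw [mem_filter, mem_Icc] at hm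
    rw [mem_Icc]; omega
  rw [Nat.card_Icc, Nat.add_sub_cancel] at this
  exact_mod_cast this

theorem PSI_real (Y : ℝ) (hY : 2 ≤ Y) : 1 ≤ 2 * Real.log Y := by
  have h1 : Real.log 2 ≤ Real.log Y := Real.log_le_log (by norm_num) hY
  have := Real.log_two_gt_d9
  linarith

/-- The numerical estimates. -/
theorem PSI_num (C1 C2 : ℝ) (hC1 : 0 < C1) (hC2 : 0 < C2) (R y U : ℕ) (hR : 1 ≤ R)
    (hRy : R ^ 2 ≤ y) (hy : 2 ≤ y) (hU1 : 1 ≤ U) (hU2 : (U : ℝ) ≤ (y : ℝ) ^ (1 / 5 : ℝ))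
    (hU3 : (y : ℝ) ^ (1 / 5 : ℝ) ≤ 2 * U) :
    (R : ℝ) * (U * Real.log y) + C1 * Real.log y ^ 3 * U * (R : ℝ) ^ (3 / 2 : ℝ) +
      (C1 * Real.log y ^ 3 * U * (R : ℝ) ^ (3 / 2 : ℝ) +
       C2 * Real.log y ^ 5 * ((y : ℝ) / R + Real.sqrt ((y : ℝ) * (U * U : ℕ)) +
        (y : ℝ) / Real.sqrt U + R * Real.sqrt y)) +
      C2 * Real.log y ^ 5 * ((y : ℝ) / R + Real.sqrt ((y : ℝ) * (y / U : ℕ)) +
        (y : ℝ) / Real.sqrt U + R * Real.sqrt y) ≤
      (64 + 32 * C1 + 16 * C2) * Real.log y ^ 6 *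
        ((y : ℝ) / R + (y : ℝ) ^ (19 / 20 : ℝ) + R * Real.sqrt y) := by
  have hR0 : (0 : ℝ) < R := by exact_mod_cast hR
  have hy0 : (0 : ℝ) < y := by exact_mod_cast (by omega : 0 < y)
  have hy1 : (1 : ℝ) ≤ y := by exact_mod_cast (by omega : 1 ≤ y)
  have hU0 : (0 : ℝ) < U := by exact_mod_cast hU1
  set L := Real.log y with hL
  have hL1 : 1 ≤ 2 * L := PSI_real y (by exact_mod_cast hy)
  have hL0 : 0 < L := by linarith
  set W := (y : ℝ) ^ (19 / 20 : ℝ) with hW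
  have hW0 : 0 < W := Real.rpow_pos_of_pos hy0 _
  have mono : ∀ a : ℝ, a ≤ 19 / 20 → (y : ℝ) ^ a ≤ W := fun a ha =>
    Real.rpow_le_rpow_of_exponent_le hy1 ha
  -- R ≤ y^(1/2)
  have hRh : (R : ℝ) ≤ (y : ℝ) ^ (1 / 2 : ℝ) := by
    rw [← Real.sqrt_eq_rpow]
    apply Real.le_sqrt_of_sq_le
    exact_mod_cast hRy
  have hRU : (R : ℝ) * U ≤ W := by
    calc (R : ℝ) * U ≤ (y : ℝ) ^ (1 / 2 : ℝ) * (y : ℝ) ^ (1 / 5 : ℝ) := by gcongr
      _ = (y : ℝ) ^ (1 / 2 + 1 / 5 : ℝ) := (Real.rpow_add hy0 _ _).symm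
      _ ≤ W := mono _ (by norm_num)
  have hUR : (U : ℝ) * (R : ℝ) ^ (3 / 2 : ℝ) ≤ W := by
    calc (U : ℝ) * (R : ℝ) ^ (3 / 2 : ℝ) ≤
        (y : ℝ) ^ (1 / 5 : ℝ) * ((y : ℝ) ^ (1 / 2 : ℝ)) ^ (3 / 2 : ℝ) := by gcongr
      _ = (y : ℝ) ^ (1 / 5 : ℝ) * (y : ℝ) ^ (1 / 2 * (3 / 2) : ℝ) := by
          rw [← Real.rpow_mul hy0.le]
      _ = (y : ℝ) ^ (1 / 5 + 1 / 2 * (3 / 2) : ℝ) := (Real.rpow_add hy0 _ _).symm
      _ ≤ W := mono _ (by norm_num)
  have hs1 : Real.sqrt ((y : ℝ) * (U * U : ℕ)) ≤ W := by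
    have : Real.sqrt ((y : ℝ) * (U * U : ℕ)) = (y : ℝ) ^ (1 / 2 : ℝ) * U := by
      push_cast
      rw [Real.sqrt_mul hy0.le, Real.sqrt_mul_self hU0.le, Real.sqrt_eq_rpow]
    rw [this]
    calc (y : ℝ) ^ (1 / 2 : ℝ) * U ≤ (y : ℝ) ^ (1 / 2 : ℝ) * (y : ℝ) ^ (1 / 5 : ℝ) := by gcongr
      _ = (y : ℝ) ^ (1 / 2 + 1 / 5 : ℝ) := (Real.rpow_add hy0 _ _).symm
      _ ≤ W := mono _ (by norm_num)
  have hs2 : (y : ℝ) / Real.sqrt U ≤ 2 * W := by
    have hsU : 0 < Real.sqrt U := Real.sqrt_pos.mpr hU0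
    rw [div_le_iff₀ hsU]
    have h1 : (y : ℝ) ^ (1 / 10 : ℝ) ≤ 2 * Real.sqrt U := by
      have h2 : (y : ℝ) ^ (1 / 10 : ℝ) = Real.sqrt ((y : ℝ) ^ (1 / 5 : ℝ)) := by
        rw [Real.sqrt_eq_rpow, ← Real.rpow_mul hy0.le]
        norm_num
      rw [h2]
      calc Real.sqrt ((y : ℝ) ^ (1 / 5 : ℝ)) ≤ Real.sqrt (2 ^ 2 * U) := by
            apply Real.sqrt_le_sqrt
            linarith
        _ = 2 * Real.sqrt U := by
            rw [Real.sqrt_mul (by norm_num), Real.sqrt_sq (by norm_num)]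
    have h3 : (y : ℝ) = (y : ℝ) ^ (9 / 10 : ℝ) * (y : ℝ) ^ (1 / 10 : ℝ) := by
      rw [← Real.rpow_add hy0]
      norm_num
    have h4 : (y : ℝ) ^ (9 / 10 : ℝ) ≤ W := mono _ (by norm_num)
    calc (y : ℝ) = (y : ℝ) ^ (9 / 10 : ℝ) * (y : ℝ) ^ (1 / 10 : ℝ) := h3
      _ ≤ W * (2 * Real.sqrt U) := by gcongr
      _ = 2 * W * Real.sqrt U := by ring
  have hs3 : Real.sqrt ((y : ℝ) * (y / U : ℕ)) ≤ 2 * W := by
    refine le_trans ?_ hs2
    have h1 : ((y / U : ℕ) : ℝ) ≤ (y : ℝ) / U := Nat.cast_div_le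
    calc Real.sqrt ((y : ℝ) * (y / U : ℕ)) ≤ Real.sqrt (y ^ 2 / U) := by
          apply Real.sqrt_le_sqrt
          calc (y : ℝ) * (y / U : ℕ) ≤ y * (y / U) := by gcongr
            _ = (y : ℝ) ^ 2 / U := by ring
      _ = (y : ℝ) / Real.sqrt U := by
          rw [Real.sqrt_div (by positivity), Real.sqrt_sq hy0.le]
  set S := (y : ℝ) / R + W + R * Real.sqrt y with hS
  have hyR : 0 ≤ (y : ℝ) / R := by positivity
  have hRs : 0 ≤ R * Real.sqrt y := by positivity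
  have hWS : W ≤ S := by linarith
  have hS0 : 0 < S := lt_of_lt_of_le hW0 hWS
  have hL6a : L ≤ 32 * L ^ 6 := by
    have : (1 : ℝ) ≤ (2 * L) ^ 5 := one_le_pow₀ hL1
    nlinarith
  have hL6b : L ^ 3 ≤ 8 * L ^ 6 := by
    have h1 : (1 : ℝ) ≤ (2 * L) ^ 3 := one_le_pow₀ hL1
    have h2 : 0 < L ^ 3 := by positivity
    nlinarith
  have hL6c : L ^ 5 ≤ 2 * L ^ 6 := by
    have h2 : 0 < L ^ 5 := by positivity
    nlinarith
  have t1 : (R : ℝ) * (U * L) ≤ 32 * (L ^ 6 * S) := by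
    calc (R : ℝ) * (U * L) = (R * U) * L := by ring
      _ ≤ S * (32 * L ^ 6) := by
          apply mul_le_mul (hRU.trans hWS) hL6a hL0.le hS0.le
      _ = 32 * (L ^ 6 * S) := by ring
  have t2 : C1 * L ^ 3 * U * (R : ℝ) ^ (3 / 2 : ℝ) ≤ 8 * C1 * (L ^ 6 * S) := by
    calc C1 * L ^ 3 * U * (R : ℝ) ^ (3 / 2 : ℝ) = C1 * (L ^ 3 * (U * (R : ℝ) ^ (3 / 2 : ℝ))) := by
          ring
      _ ≤ C1 * ((8 * L ^ 6) * S) := by
          apply mul_le_mul_of_nonneg_left _ hC1.le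
          apply mul_le_mul hL6b (hUR.trans hWS) (by positivity) (by positivity)
      _ = 8 * C1 * (L ^ 6 * S) := by ring
  have t3 : ∀ Z : ℝ, Z ≤ 4 * S → C2 * L ^ 5 * Z ≤ 8 * C2 * (L ^ 6 * S) := by
    intro Z hZ
    calc C2 * L ^ 5 * Z ≤ C2 * L ^ 5 * (4 * S) := by
          apply mul_le_mul_of_nonneg_left hZ (by positivity)
      _ = 4 * C2 * (L ^ 5 * S) := by ring
      _ ≤ 4 * C2 * ((2 * L ^ 6) * S) := by
          apply mul_le_mul_of_nonneg_left _ (by positivity)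
          exact mul_le_mul_of_nonneg_right hL6c hS0.le
      _ = 8 * C2 * (L ^ 6 * S) := by ring
  have t4 := t3 ((y : ℝ) / R + Real.sqrt ((y : ℝ) * (U * U : ℕ)) + (y : ℝ) / Real.sqrt U +
    R * Real.sqrt y) (by linarith)
  have t5 := t3 ((y : ℝ) / R + Real.sqrt ((y : ℝ) * (y / U : ℕ)) + (y : ℝ) / Real.sqrt U +
    R * Real.sqrt y) (by linarith)
  have hLS : 0 < L ^ 6 * S := by positivity
  nlinarith

/-- The bilinear estimate for `ψ(y, χ)`.

Proof. Vaughan's identity `H68T.VA_identity` with `U = ⌊y^(1/5)⌋`: `Λ` is the sum of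
`cut Λ` (at most `U log y` for each character, in total `≤ R U log y ≤ y^(7/10) log y`, `ty1_count`),
`cut μ * log` (`ty1`, `j = 1`), `-(cut μ * cut Λ) * ζ`, whose part with `m ≤ U` is `ty1`, `j = 0`, and whose
part with `U < m ≤ U²` is `ty2` with `V = U²`, `β = 1` (`VA_coef_le`, `VA_coef_supp`), and
`rest μ * (rest Λ * ζ)`: `m > U`, `n > U`, so `m ≤ y/U =: V` (`VA_beta`, `VA_beta_supp`), again `ty2`.
`U R^(3/2) ≤ y^(1/5 + 3/4) = y^(19/20)` since `R² ≤ y`; `√(y U²) ≤ y^(7/10)`, `√(y · y/U)`,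
`y/√U ≤ 2 y^(9/10)`. For small `y` increase `C`. (`VA_conv` expands a convolution.) -/
theorem psi_dyad : ∃ C : ℝ, 0 < C ∧ ∀ (R y : ℕ), 1 ≤ R → R ^ 2 ≤ y → 2 ≤ y →
    ∑ p ∈ PD R, 1 / (Nat.totient p.1 : ℝ) * ‖psi y p‖ ≤
      C * Real.log y ^ 6 * ((y : ℝ) / R + (y : ℝ) ^ (19 / 20 : ℝ) + R * Real.sqrt y) := by
  obtain ⟨C1, hC1, ht1⟩ := ty1
  obtain ⟨C2, hC2, ht2⟩ := ty2
  refine ⟨64 + 32 * C1 + 16 * C2, by positivity, ?_⟩
  intro R y hR hRy hy
  have hy0 : (0 : ℝ) < y := by exact_mod_cast (by omega : 0 < y)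
  have hy1 : (1 : ℝ) ≤ y := by exact_mod_cast (by omega : 1 ≤ y)
  set x := (y : ℝ) ^ (1 / 5 : ℝ) with hx
  have hx1 : 1 ≤ x := Real.one_le_rpow hy1 (by norm_num)
  set U := ⌊x⌋₊ with hU
  have hU1 : 1 ≤ U := Nat.le_floor (by exact_mod_cast hx1)
  have hU2 : (U : ℝ) ≤ x := Nat.floor_le (by linarith)
  have hU3 : x ≤ 2 * U := by
    have h1 : x < U + 1 := Nat.lt_floor_add_one x
    have h2 : (1 : ℝ) ≤ U := by exact_mod_cast hU1
    linarith
  have hUy : U * U ≤ y := by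
    have h1 : (U : ℝ) * U ≤ y := by
      calc (U : ℝ) * U ≤ x * x := by gcongr
        _ = (y : ℝ) ^ (1 / 5 + 1 / 5 : ℝ) := by rw [hx, ← Real.rpow_add hy0]
        _ ≤ (y : ℝ) ^ (1 : ℝ) := Real.rpow_le_rpow_of_exponent_le hy1 (by norm_num)
        _ = y := Real.rpow_one _
    exact_mod_cast h1
  have hRy' : R ≤ y := le_trans (by nlinarith : R ≤ R ^ 2) hRy
  have hUU : U ≤ U * U := Nat.le_mul_of_pos_left U (by omega)
  have hUV : U ≤ y / U := (Nat.le_div_iff_mul_le (by omega)).mpr hUy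
  have hlog : 0 ≤ Real.log y := Real.log_natCast_nonneg y
  have hlogm : ∀ m : ℕ, 1 ≤ m → m ≤ y → Real.log m ≤ 1 + Real.log y := by
    intro m h1 h2
    have := Real.log_le_log (by exact_mod_cast h1 : (0 : ℝ) < m) (by exact_mod_cast h2 : (m : ℝ) ≤ y)
    linarith
  have b1 := ht1 R U y hR hU1 hy hRy' (fun m => ((VAcut PSI_mu U m : ℝ) : ℂ)) (by
    intro m _ _
    rw [Complex.norm_real, Real.norm_eq_abs]
    have h1 : |VAcut PSI_mu U m| ≤ 1 := VA_cut_moeb_le U m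
    linarith) 1 le_rfl
  have b2 := ht1 R U y hR hU1 hy hRy'
    (fun m => (((VAcut PSI_mu U * VAcut ArithmeticFunction.vonMangoldt U) m : ℝ) : ℂ)) (by
    intro m hm1 hm2
    rw [Complex.norm_real, Real.norm_eq_abs]
    have h1 : |(VAcut PSI_mu U * VAcut ArithmeticFunction.vonMangoldt U) m| ≤ Real.log m :=
      VA_coef_le U m
    exact h1.trans (hlogm m hm1 (by omega))) 0 (by omega)
  have b3 := ht2 R U (U * U) y hR hU1 hUU hUy hy
    (fun m => (((VAcut PSI_mu U * VAcut ArithmeticFunction.vonMangoldt U) m : ℝ) : ℂ))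
    (fun _ => 1) (by
    intro m hm1 hm2
    rw [Complex.norm_real, Real.norm_eq_abs]
    have h1 : |(VAcut PSI_mu U * VAcut ArithmeticFunction.vonMangoldt U) m| ≤ Real.log m :=
      VA_coef_le U m
    exact h1.trans (hlogm m hm1 (by omega))) (by
    intro m _ _
    rw [norm_one]
    linarith)
  have b4 := ht2 R U (y / U) y hR hU1 hUV (Nat.div_le_self _ _) hy
    (fun m => ((VArest PSI_mu U m : ℝ) : ℂ))
    (fun n => (((VArest ArithmeticFunction.vonMangoldt U * PSI_ze) n : ℝ) : ℂ)) (by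
    intro m _ _
    rw [Complex.norm_real, Real.norm_eq_abs]
    have h1 : |VArest PSI_mu U m| ≤ 1 := VA_rest_moeb_le U m
    linarith) (by
    intro m hm1 hm2
    rw [Complex.norm_real, Real.norm_eq_abs]
    have h1 : |(VArest ArithmeticFunction.vonMangoldt U * PSI_ze) m| ≤ Real.log m :=
      VA_beta U m
    exact h1.trans (hlogm m hm1 hm2))
  have b0 : ∑ p ∈ PD R, 1 / (Nat.totient p.1 : ℝ) *
      ‖∑ m ∈ Icc 1 y, ((VAcut ArithmeticFunction.vonMangoldt U m : ℝ) : ℂ) *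
        p.2 (m : ZMod p.1)‖ ≤ (R : ℝ) * (U * Real.log y) := by
    calc _ ≤ ∑ p ∈ PD R, 1 / (Nat.totient p.1 : ℝ) * (U * Real.log y) := by
          refine sum_le_sum fun p _ => ?_
          exact mul_le_mul_of_nonneg_left (PSI_S0 U y p) (by positivity)
      _ = (∑ p ∈ PD R, 1 / (Nat.totient p.1 : ℝ)) * (U * Real.log y) := by
          rw [Finset.sum_mul]
      _ ≤ R * (U * Real.log y) :=
          mul_le_mul_of_nonneg_right (ty1_count R) (by positivity)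
  refine le_trans ?_ (PSI_num C1 C2 hC1 hC2 R y U hR hRy hy hU1 hU2 hU3)
  refine le_trans ?_ (add_le_add (add_le_add (add_le_add b0 b1) (add_le_add b2 b3)) b4)
  rw [← Finset.sum_add_distrib, ← Finset.sum_add_distrib, ← Finset.sum_add_distrib,
    ← Finset.sum_add_distrib]
  refine sum_le_sum fun p _ => ?_
  rw [PSI_decomp U y hU1 hUy p, ← mul_add, ← mul_add, ← mul_add, ← mul_add]
  refine mul_le_mul_of_nonneg_left ?_ (by positivity)
  refine (norm_add_le _ _).trans (add_le_add ?_ le_rfl)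
  refine (norm_sub_le _ _).trans (add_le_add ?_ (norm_add_le _ _))
  exact norm_add_le _ _

end Pool.Agent.Lib.H59C
end

-- from Lib.H59C.PSJ
section

/-!
# PSJ: dyadic summation
-/

open Finset

namespace Pool.Agent.Lib.H59C

open Pool.Agent.Lib.H68T (PC p0 e)

theorem PSJ_cover (R0 q : ℕ) (h : R0 < q) :
    ∀ n : ℕ, q ≤ 2 ^ n * R0 → ∃ j, j < n ∧ 2 ^ j * R0 < q ∧ q ≤ 2 ^ (j + 1) * R0 := by
  intro n
  induction n with
  | zero =>
    intro h1
    exfalso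
    rw [pow_zero, one_mul] at h1
    omega
  | succ n ih =>
    intro h1
    by_cases h2 : q ≤ 2 ^ n * R0
    · obtain ⟨j, hj, h3⟩ := ih h2
      exact ⟨j, by omega, h3⟩
    · exact ⟨n, by omega, by omega, h1⟩

theorem PSJ_mono {a b q R : ℕ} (h1 : 2 ^ a * R < q) (h2 : q ≤ 2 ^ (b + 1) * R) : a ≤ b := by
  by_contra hab
  have h3 : b + 1 ≤ a := by omega
  have h4 : 2 ^ (b + 1) ≤ 2 ^ a := Nat.pow_le_pow_right (by norm_num) h3
  have h5 := Nat.mul_le_mul_right R h4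
  omega

theorem PSJ_log (Q y : ℕ) (hQ : Q ^ 2 ≤ y) (hy : 2 ≤ y) :
    ((Nat.log 2 Q + 1 : ℕ) : ℝ) ≤ 4 * Real.log y := by
  have hl2 : (0.69 : ℝ) < Real.log 2 := by
    have := Real.log_two_gt_d9
    linarith
  have hly : Real.log 2 ≤ Real.log y :=
    Real.log_le_log (by norm_num) (by exact_mod_cast hy)
  push_cast
  rcases Nat.eq_zero_or_pos Q with h0 | h0
  · subst h0
    simp only [Nat.log_zero_right, Nat.cast_zero, zero_add]
    linarith
  · have h1 : 2 ^ (Nat.log 2 Q) ≤ Q := Nat.pow_log_le_self 2 (by omega)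
    have h2 : (2 ^ (Nat.log 2 Q)) ^ 2 ≤ y := (Nat.pow_le_pow_left h1 2).trans hQ
    have h3 : (((2 : ℝ) ^ (Nat.log 2 Q)) ^ 2) ≤ y := by exact_mod_cast h2
    have h4 := Real.log_le_log (by positivity) h3
    rw [Real.log_pow, Real.log_pow] at h4
    push_cast at h4
    have h5 : (0 : ℝ) ≤ (Nat.log 2 Q : ℝ) := by positivity
    nlinarith

open Classical in
/-- Sum of `psi_dyad` over `R = R0, 2 R0, 4 R0, ... < Q` (at most `2 log y` terms; in the last one
`R < Q` so `R² ≤ y`). -/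
theorem psi_sum : ∃ C : ℝ, 0 < C ∧ ∀ (R0 Q y : ℕ), 1 ≤ R0 → Q ^ 2 ≤ y → 2 ≤ y →
    ∑ p ∈ (PC Q).filter (fun p => R0 < p.1), 1 / (Nat.totient p.1 : ℝ) * ‖psi y p‖ ≤
      C * Real.log y ^ 7 * ((y : ℝ) / R0 + (y : ℝ) ^ (19 / 20 : ℝ) + Q * Real.sqrt y) := by
  obtain ⟨C, hC, h⟩ := psi_dyad
  refine ⟨4 * C, by positivity, ?_⟩
  intro R0 Q y hR0 hQ hy
  have hly : 0 < Real.log y := Real.log_pos (by exact_mod_cast (by omega : 1 < y))
  obtain ⟨n, hn⟩ : ∃ n, n = Nat.log 2 Q + 1 := ⟨_, rfl⟩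
  obtain ⟨J, hJ⟩ : ∃ J : Finset ℕ, J = (range n).filter (fun j => 2 ^ j * R0 < Q) := ⟨_, rfl⟩
  have hsub : (PC Q).filter (fun p => R0 < p.1) ⊆ J.biUnion (fun j => PD (2 ^ j * R0)) := by
    intro p hp
    rw [mem_filter, Pool.Agent.Lib.H68T.mem_PC] at hp
    obtain ⟨⟨h1, h2, h3⟩, h4⟩ := hp
    have h5 : Q < 2 ^ n := by
      rw [hn]
      exact Nat.lt_pow_succ_log_self (by norm_num) Q
    have h6 : 2 ^ n ≤ 2 ^ n * R0 := Nat.le_mul_of_pos_right _ hR0
    obtain ⟨j, hj, h7, h8⟩ := PSJ_cover R0 p.1 h4 n (by omega)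
    rw [mem_biUnion]
    refine ⟨j, ?_, ?_⟩
    · rw [hJ, mem_filter, mem_range]
      exact ⟨hj, by omega⟩
    · unfold PD
      rw [mem_filter, Pool.Agent.Lib.H68T.mem_PC]
      refine ⟨⟨h1, ?_, h3⟩, h7⟩
      rw [pow_succ] at h8
      nlinarith
  have hdis : ∀ i ∈ J, ∀ j ∈ J, i ≠ j → Disjoint (PD (2 ^ i * R0)) (PD (2 ^ j * R0)) := by
    intro i _ j _ hij
    rw [Finset.disjoint_left]
    intro p hp hq
    unfold PD at hp hq
    rw [mem_filter, Pool.Agent.Lib.H68T.mem_PC] at hp hq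
    have h1 : i ≤ j := PSJ_mono hp.2 (by rw [pow_succ]; nlinarith [hq.1.2.1])
    have h2 : j ≤ i := PSJ_mono hq.2 (by rw [pow_succ]; nlinarith [hp.1.2.1])
    omega
  have hB0 : 0 ≤ C * Real.log y ^ 6 *
      ((y : ℝ) / R0 + (y : ℝ) ^ (19 / 20 : ℝ) + Q * Real.sqrt y) := by positivity
  have hJn : (J.card : ℝ) ≤ 4 * Real.log y := by
    have h1 : J.card ≤ n := by
      rw [hJ]
      exact (Finset.card_filter_le _ _).trans (by rw [card_range])
    have h2 : (J.card : ℝ) ≤ (n : ℝ) := by exact_mod_cast h1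
    rw [hn] at h2
    exact h2.trans (PSJ_log Q y hQ hy)
  calc _ ≤ ∑ p ∈ J.biUnion (fun j => PD (2 ^ j * R0)),
          1 / (Nat.totient p.1 : ℝ) * ‖psi y p‖ := by
        apply sum_le_sum_of_subset_of_nonneg hsub
        intro p _ _
        positivity
    _ = ∑ j ∈ J, ∑ p ∈ PD (2 ^ j * R0), 1 / (Nat.totient p.1 : ℝ) * ‖psi y p‖ :=
        sum_biUnion (fun i hi j hj hij => hdis i hi j hj hij)
    _ ≤ ∑ _j ∈ J, C * Real.log y ^ 6 *
          ((y : ℝ) / R0 + (y : ℝ) ^ (19 / 20 : ℝ) + Q * Real.sqrt y) := by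
        apply sum_le_sum
        intro j hj
        rw [hJ, mem_filter, mem_range] at hj
        have h1 : 1 ≤ 2 ^ j := Nat.one_le_two_pow
        have h2 : R0 ≤ 2 ^ j * R0 := Nat.le_mul_of_pos_left _ (by omega)
        have h3 : (2 ^ j * R0) ^ 2 ≤ y := (Nat.pow_le_pow_left hj.2.le 2).trans hQ
        refine (h (2 ^ j * R0) y (by omega) h3 hy).trans ?_
        apply mul_le_mul_of_nonneg_left _ (by positivity)
        have h4 : (R0 : ℝ) ≤ ((2 ^ j * R0 : ℕ) : ℝ) := by exact_mod_cast h2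
        have h5 : ((2 ^ j * R0 : ℕ) : ℝ) ≤ Q := by exact_mod_cast hj.2.le
        have h6 : (0 : ℝ) < R0 := by exact_mod_cast hR0
        have h7 : (y : ℝ) / ((2 ^ j * R0 : ℕ) : ℝ) ≤ y / R0 := by
          gcongr
        have h8 : ((2 ^ j * R0 : ℕ) : ℝ) * Real.sqrt y ≤ Q * Real.sqrt y := by
          gcongr
        linarith
    _ = J.card * (C * Real.log y ^ 6 *
          ((y : ℝ) / R0 + (y : ℝ) ^ (19 / 20 : ℝ) + Q * Real.sqrt y)) := by
        rw [sum_const, nsmul_eq_mul]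
    _ ≤ 4 * Real.log y * (C * Real.log y ^ 6 *
          ((y : ℝ) / R0 + (y : ℝ) ^ (19 / 20 : ℝ) + Q * Real.sqrt y)) :=
        mul_le_mul_of_nonneg_right hJn hB0
    _ = _ := by ring

end Pool.Agent.Lib.H59C
end

-- from Lib.H59C.MER2
section

/-!
# MER2: ratio of two sifting products
-/

open Finset

namespace Pool.Agent.Lib.H59C

theorem MER2_card (n N : ℕ) (z : ℝ) (hn : 2 ≤ n) (hN : 0 < N) (hNn : N ≤ n ^ 3)
    (hz : (n : ℝ) ^ (1 / 20 : ℝ) ≤ z) :
    (N.primeFactors.filter (fun q : ℕ => z ≤ (q : ℝ))).card ≤ 60 := by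
  classical
  set T := N.primeFactors.filter (fun q : ℕ => z ≤ (q : ℝ)) with hT
  have hn1 : (1 : ℝ) < n := by exact_mod_cast (show 1 < n by omega)
  have hy : (1 : ℝ) < (n : ℝ) ^ (1 / 20 : ℝ) := Real.one_lt_rpow hn1 (by norm_num)
  have h1 : ∏ q ∈ T, q ∣ N := by
    refine (Finset.prod_dvd_prod_of_subset _ _ _ (Finset.filter_subset _ _)).trans ?_
    exact Nat.prod_primeFactors_dvd N
  have h2 : ∏ q ∈ T, q ≤ n ^ 3 := (Nat.le_of_dvd hN h1).trans hNn
  have h3 : ((n : ℝ) ^ (1 / 20 : ℝ)) ^ T.card ≤ ((∏ q ∈ T, q : ℕ) : ℝ) := by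
    rw [Nat.cast_prod, ← Finset.prod_const]
    refine Finset.prod_le_prod (fun q _ => by positivity) fun q hq => ?_
    exact hz.trans (Finset.mem_filter.1 hq).2
  have h4 : ((∏ q ∈ T, q : ℕ) : ℝ) ≤ (n : ℝ) ^ 3 := by exact_mod_cast h2
  have h5 : (n : ℝ) ^ 3 = ((n : ℝ) ^ (1 / 20 : ℝ)) ^ 60 := by
    rw [← Real.rpow_natCast ((n : ℝ) ^ (1 / 20 : ℝ)), ← Real.rpow_mul (by linarith),
      ← Real.rpow_natCast]
    norm_num
  rw [h5] at h4
  exact (pow_le_pow_iff_right₀ hy).1 (h3.trans h4)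

/-- `n` large. -/
theorem MER2_large (C δ : ℝ) (hC : 0 < C) (hδ : 0 < δ) : ∃ n0 : ℕ, ∀ n : ℕ, n0 ≤ n → 2 ≤ n ∧
    ∀ z : ℝ, (n : ℝ) ^ (1 / 20 : ℝ) ≤ z → 4 ≤ z ∧ C / Real.log z ≤ δ := by
  refine ⟨⌈Real.exp (20 * (C / δ + 2))⌉₊, fun n hn => ?_⟩
  have h1 : Real.exp (20 * (C / δ + 2)) ≤ n := (Nat.le_ceil _).trans (by exact_mod_cast hn)
  have hn0 : (0 : ℝ) < n := (Real.exp_pos _).trans_le h1
  have h2 : 20 * (C / δ + 2) ≤ Real.log n := (Real.le_log_iff_exp_le hn0).2 h1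
  have hcd : 0 < C / δ := by positivity
  have h3 : 2 ≤ n := by
    have h4 : (20 * (C / δ + 2)) + 1 ≤ n := (Real.add_one_le_exp _).trans h1
    have h5 : (2 : ℝ) ≤ n := by linarith
    exact_mod_cast h5
  refine ⟨h3, fun z hz => ?_⟩
  have h4 : Real.log ((n : ℝ) ^ (1 / 20 : ℝ)) = 1 / 20 * Real.log n := Real.log_rpow hn0 _
  have h5 : C / δ + 2 ≤ Real.log z := by
    have h6 := Real.log_le_log (by positivity) hz
    rw [h4] at h6
    linarith
  have hz0 : 0 < z := (show (0 : ℝ) < (n : ℝ) ^ (1 / 20 : ℝ) by positivity).trans_le hz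
  constructor
  · have h6 : Real.exp 2 ≤ z := (Real.le_log_iff_exp_le hz0).1 (by linarith)
    have h7 : (4 : ℝ) ≤ Real.exp 2 := by
      have h8 := Real.add_one_le_exp (1 : ℝ)
      have h9 : Real.exp 2 = Real.exp 1 * Real.exp 1 := by rw [← Real.exp_add]; norm_num
      rw [h9]
      nlinarith
    linarith
  · rw [div_le_iff₀ (by linarith)]
    have h6 : C = δ * (C / δ) := by field_simp
    nlinarith

/-- Upper bound of `V(z')` by `V(z)`, when `P` contains all primes in `[z, z')` not dividing `N`.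

Proof. `V(z')/V(z) = ∏_{q ∈ P, z ≤ q < z'} (1 - 1/(q-1)) ≤ ∏_{z ≤ q < z'} (1 - 1/q) · ∏_{q ∣ N, q ≥ z} (1 - 1/q)⁻¹`; at
most `60` primes `≥ z ≥ n^(1/20)` divide `N ≤ n^3`, so the last product is `≤ (1 - 1/z)^(-60) ≤ 1 + ε/3`, and the first
one is `≤ exp (-∑ 1/q) ≤ (log z/log z') exp (C/log z)` (`mertens`). -/
theorem ratio_VV (ε : ℝ) (hε : 0 < ε) : ∃ n0 : ℕ, ∀ n : ℕ, n0 ≤ n → ∀ (P : Finset ℕ) (N : ℕ)
    (z z' : ℝ), 0 < N → N ≤ n ^ 3 → (n : ℝ) ^ (1 / 20 : ℝ) ≤ z → z ≤ z' → z' ≤ n →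
    (∀ q ∈ P, q.Prime ∧ 3 ≤ q) → (∀ q : ℕ, q.Prime → z ≤ q → (q : ℝ) < z' → q ∈ P ∨ q ∣ N) →
    VV P z' ≤ (1 + ε) * (Real.log z / Real.log z') * VV P z := by
  classical
  obtain ⟨C, hC, hmer⟩ := mertens
  obtain ⟨n0, hn0⟩ := MER2_large (C + 60) (Real.log (1 + ε)) (by linarith)
    (Real.log_pos (by linarith))
  refine ⟨n0, fun n hn P N z z' hN hNn hz hzz _ hP hPN => ?_⟩
  obtain ⟨hn2, hlarge⟩ := hn0 n hn
  obtain ⟨hz4, hzC⟩ := hlarge z hz
  have hlz : 0 < Real.log z := Real.log_pos (by linarith)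
  have hlz' : 0 < Real.log z' := Real.log_pos (by linarith)
  -- positivity of the factors
  have hfac : ∀ q ∈ P, 0 < 1 - gq q ∧ 1 - gq q ≤ Real.exp (-(1 / (q : ℝ))) := by
    intro q hq
    have h3 : (3 : ℝ) ≤ q := by exact_mod_cast (hP q hq).2
    unfold gq
    have h4 : 1 / ((q : ℝ) - 1) ≤ 1 / 2 := one_div_le_one_div_of_le (by norm_num) (by linarith)
    have h5 : 1 / (q : ℝ) ≤ 1 / ((q : ℝ) - 1) := one_div_le_one_div_of_le (by linarith) (by linarith)
    have h6 := Real.add_one_le_exp (-(1 / (q : ℝ)))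
    constructor <;> linarith
  set T := P.filter (fun q : ℕ => z ≤ (q : ℝ) ∧ (q : ℝ) < z') with hT
  have hsplit : VV P z' = VV P z * ∏ q ∈ T, (1 - gq q) := by
    unfold VV VP
    rw [← Finset.prod_union]
    · refine Finset.prod_congr ?_ fun q _ => rfl
      ext q
      rw [Finset.mem_union, hT, Finset.mem_filter, Finset.mem_filter, Finset.mem_filter]
      constructor
      · rintro ⟨h3, h4⟩
        rcases lt_or_ge (q : ℝ) z with h5 | h5
        · exact Or.inl ⟨h3, h5⟩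
        · exact Or.inr ⟨h3, h5, h4⟩
      · rintro (⟨h3, h4⟩ | ⟨h3, h4, h5⟩)
        · exact ⟨h3, h4.trans_le hzz⟩
        · exact ⟨h3, h5⟩
    · rw [Finset.disjoint_left]
      intro q h3 h4
      rw [hT, Finset.mem_filter] at h4
      exact absurd (Finset.mem_filter.1 h3).2 (not_lt.2 h4.2.1)
  have hV0 : 0 ≤ VV P z := by
    unfold VV VP
    exact Finset.prod_nonneg fun q hq => (hfac q (Finset.mem_filter.1 hq).1).1.le
  have hR : ∏ q ∈ T, (1 - gq q) ≤ Real.exp (-∑ q ∈ T, 1 / (q : ℝ)) := by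
    rw [← Finset.sum_neg_distrib, Real.exp_sum]
    exact Finset.prod_le_prod (fun q hq => (hfac q (Finset.mem_filter.1 hq).1).1.le)
      fun q hq => (hfac q (Finset.mem_filter.1 hq).1).2
  set U := N.primeFactors.filter (fun q : ℕ => z ≤ (q : ℝ)) with hU
  have hUcard := MER2_card n N z hn2 hN hNn hz
  have hUsum : ∑ q ∈ U, 1 / (q : ℝ) ≤ 60 / Real.log z := by
    have h3 : ∑ q ∈ U, 1 / (q : ℝ) ≤ ∑ q ∈ U, 1 / Real.log z := by
      refine Finset.sum_le_sum fun q hq => one_div_le_one_div_of_le hlz ?_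
      have h4 := (Finset.mem_filter.1 hq).2
      have h5 := Real.log_le_sub_one_of_pos (show (0 : ℝ) < z by linarith)
      linarith
    refine h3.trans ?_
    rw [Finset.sum_const, nsmul_eq_mul, mul_one_div]
    refine div_le_div_of_nonneg_right ?_ hlz.le
    exact_mod_cast hUcard
  have hsum : ∑ q ∈ PR z z', 1 / (q : ℝ) ≤ ∑ q ∈ T, 1 / (q : ℝ) + ∑ q ∈ U, 1 / (q : ℝ) := by
    have hsub : PR z z' ⊆ T ∪ U := by
      intro q hq
      rw [mem_PR] at hq
      rw [Finset.mem_union, hT, hU, Finset.mem_filter, Finset.mem_filter, Nat.mem_primeFactors]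
      rcases hPN q hq.1 hq.2.1 hq.2.2 with h3 | h3
      · exact Or.inl ⟨h3, hq.2.1, hq.2.2⟩
      · exact Or.inr ⟨⟨hq.1, h3, hN.ne'⟩, hq.2.1⟩
    refine (Finset.sum_le_sum_of_subset_of_nonneg hsub fun q _ _ => by positivity).trans ?_
    have h3 := Finset.sum_union_inter (s₁ := T) (s₂ := U) (f := fun q : ℕ => 1 / (q : ℝ))
    have h4 : 0 ≤ ∑ q ∈ T ∩ U, 1 / (q : ℝ) := Finset.sum_nonneg fun q _ => by positivity
    linarith
  have hm := hmer z z' (by linarith) hzz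
  rw [abs_le] at hm
  have h7 : -∑ q ∈ T, 1 / (q : ℝ) ≤
      Real.log (Real.log z) - Real.log (Real.log z') + Real.log (1 + ε) := by
    have e : (C + 60) / Real.log z = C / Real.log z + 60 / Real.log z := by ring
    rw [e] at hzC
    linarith [hm.1, hm.2]
  have h8 : ∏ q ∈ T, (1 - gq q) ≤ (1 + ε) * (Real.log z / Real.log z') := by
    refine (hR.trans (Real.exp_le_exp.2 h7)).trans (le_of_eq ?_)
    rw [Real.exp_add, Real.exp_sub, Real.exp_log hlz, Real.exp_log hlz',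
      Real.exp_log (by linarith)]
    ring
  rw [hsplit, mul_comm]
  exact mul_le_mul_of_nonneg_right h8 hV0

end Pool.Agent.Lib.H59C
end

-- from Lib.H59C.MER3
section

/-!
# MER3: lower bound for the sifting product
-/

open Finset

namespace Pool.Agent.Lib.H59C

theorem MER3_sq : ∃ B : ℝ, 0 ≤ B ∧ ∀ s : Finset ℕ, ∑ p ∈ s, 1 / (p : ℝ) ^ 2 ≤ B := by
  have hs : Summable (fun n : ℕ => 1 / (n : ℝ) ^ 2) := Real.summable_one_div_nat_pow.2 (by norm_num)
  refine ⟨∑' n : ℕ, 1 / (n : ℝ) ^ 2, tsum_nonneg fun n => by positivity, fun s => ?_⟩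
  exact hs.sum_le_tsum s fun n _ => by positivity

theorem MER3_fac (q : ℕ) (hq : 3 ≤ q) : 0 < 1 - gq q ∧ 1 - gq q ≤ 1 ∧
    (1 - gq q) * (((q : ℝ) - 1) / (q - 2)) = 1 ∧
    Real.exp (-(1 / (q : ℝ) + 6 * (1 / (q : ℝ) ^ 2))) ≤ 1 - gq q := by
  have h3 : (3 : ℝ) ≤ q := by exact_mod_cast hq
  unfold gq
  have h4 : 1 / ((q : ℝ) - 1) ≤ 1 / 2 := one_div_le_one_div_of_le (by norm_num) (by linarith)
  have h5 : 0 < 1 / ((q : ℝ) - 1) := by
    have : (0 : ℝ) < q - 1 := by linarith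
    positivity
  have h6 : (0 : ℝ) < q - 1 := by linarith
  have h7 : (0 : ℝ) < q - 2 := by linarith
  have h8 : 1 - 1 / ((q : ℝ) - 1) = (q - 2) / (q - 1) := by field_simp; ring
  refine ⟨by linarith, by linarith, ?_, ?_⟩
  · rw [h8]
    field_simp
  · have h9 := Real.one_sub_inv_le_log_of_pos (show (0 : ℝ) < (q - 2) / (q - 1) by positivity)
    rw [h8, ← Real.le_log_iff_exp_le (by positivity)]
    refine le_trans ?_ h9
    have h10 : 1 - (((q : ℝ) - 2) / (q - 1))⁻¹ = -(1 / ((q : ℝ) - 2)) := by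
      rw [inv_div]
      field_simp
      ring
    rw [h10, neg_le_neg_iff]
    have hq0 : (0 : ℝ) < q := by linarith
    have h11 : 1 / (q : ℝ) + 6 * (1 / (q : ℝ) ^ 2) = (q + 6) / (q : ℝ) ^ 2 := by
      field_simp
    rw [h11, div_le_div_iff₀ h7 (by positivity)]
    nlinarith

/-- Lower bound for `V(z)` in terms of the primes dividing `N`.

Proof. `V(z) ≥ ∏_{3 ≤ q < z} (1 - 1/(q-1)) ∏_{q ∣ N, 3 ≤ q < z} (1 - 1/(q-1))⁻¹`,
`(1 - 1/(q-1))⁻¹ = (q-1)/(q-2)`, the first product is `≥ c/log z` (`mertens`), and the at most `60` primes `q ≥ z` dividing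
`N` contribute a factor `≤ 2` to the product on the right. -/
theorem VV_lower : ∃ c : ℝ, 0 < c ∧ ∃ n0 : ℕ, ∀ n : ℕ, n0 ≤ n → ∀ (P : Finset ℕ) (N : ℕ) (z : ℝ),
    0 < N → N ≤ n ^ 3 → (n : ℝ) ^ (1 / 20 : ℝ) ≤ z → z ≤ n →
    (∀ q ∈ P, q.Prime ∧ 3 ≤ q ∧ ¬ q ∣ N) →
    c * (∏ q ∈ N.primeFactors.filter (fun q => 2 < q), (((q : ℝ) - 1) / (q - 2))) / Real.log n ≤
      VV P z := by
  classical
  obtain ⟨C, hC, hmer⟩ := mertens
  obtain ⟨B, hB, hsq⟩ := MER3_sq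
  obtain ⟨n0, hn0⟩ := MER2_large 60 (1 / 4) (by norm_num) (by norm_num)
  have hl2 : 0 < Real.log 2 := Real.log_pos (by norm_num)
  refine ⟨Real.log 2 * Real.exp (-(C / Real.log 2) - 6 * B - 6), by positivity, n0,
    fun n hn P N z hN hNn hz hzn hP => ?_⟩
  obtain ⟨hn2, hlarge⟩ := hn0 n hn
  obtain ⟨hz4, hzC⟩ := hlarge z hz
  have hlz : 0 < Real.log z := Real.log_pos (by linarith)
  have hlzn : Real.log z ≤ Real.log n := Real.log_le_log (by linarith) hzn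
  -- the primes `3 ≤ q < z`
  set A := (PR 2 z).filter (fun q => 3 ≤ q) with hA
  set A0 := A.filter (fun q => q ∣ N) with hA0
  set A1 := A.filter (fun q => ¬ q ∣ N) with hA1
  have hAm : ∀ q ∈ A, q.Prime ∧ (q : ℝ) < z ∧ 3 ≤ q := fun q hq => by
    rw [hA, Finset.mem_filter, mem_PR] at hq
    exact ⟨hq.1.1, hq.1.2.2, hq.2⟩
  have hVA1 : ∏ q ∈ A1, (1 - gq q) ≤ VV P z := by
    unfold VV VP
    have hsub : P.filter (fun q : ℕ => (q : ℝ) < z) ⊆ A1 := by
      intro q hq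
      rw [Finset.mem_filter] at hq
      obtain ⟨h1, h2, h3⟩ := hP q hq.1
      rw [hA1, Finset.mem_filter, hA, Finset.mem_filter, mem_PR]
      exact ⟨⟨⟨h1, by exact_mod_cast h1.two_le, hq.2⟩, h2⟩, h3⟩
    refine Finset.prod_le_prod_of_subset_of_le_one hsub ?_ ?_
    · intro q hq
      exact (MER3_fac q (hAm q (Finset.mem_filter.1 hq).1).2.2).1.le
    · intro q hq _
      exact (MER3_fac q (hAm q (Finset.mem_filter.1 hq).1).2.2).2.1
  have hAA : (∏ q ∈ A0, (1 - gq q)) * ∏ q ∈ A1, (1 - gq q) = ∏ q ∈ A, (1 - gq q) :=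
    Finset.prod_filter_mul_prod_filter_not A (fun q => q ∣ N) _
  have hA0' : (∏ q ∈ A0, (1 - gq q)) * ∏ q ∈ A0, (((q : ℝ) - 1) / (q - 2)) = 1 := by
    rw [← Finset.prod_mul_distrib]
    exact Finset.prod_eq_one fun q hq => (MER3_fac q (hAm q (Finset.mem_filter.1 hq).1).2.2).2.2.1
  have hpos0 : 0 ≤ ∏ q ∈ A0, (((q : ℝ) - 1) / (q - 2)) := by
    refine Finset.prod_nonneg fun q hq => ?_
    have h3 : (3 : ℝ) ≤ q := by exact_mod_cast (hAm q (Finset.mem_filter.1 hq).1).2.2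
    exact div_nonneg (by linarith) (by linarith)
  have hA1eq : ∏ q ∈ A1, (1 - gq q) =
      (∏ q ∈ A, (1 - gq q)) * ∏ q ∈ A0, (((q : ℝ) - 1) / (q - 2)) := by
    rw [← hAA]
    calc ∏ q ∈ A1, (1 - gq q) = ((∏ q ∈ A0, (1 - gq q)) *
          ∏ q ∈ A0, (((q : ℝ) - 1) / (q - 2))) * ∏ q ∈ A1, (1 - gq q) := by rw [hA0', one_mul]
      _ = _ := by ring
  -- lower bound for the full product
  have hfull : Real.log 2 * Real.exp (-(C / Real.log 2) - 6 * B) / Real.log n ≤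
      ∏ q ∈ A, (1 - gq q) := by
    have h1 : Real.exp (∑ q ∈ A, -(1 / (q : ℝ) + 6 * (1 / (q : ℝ) ^ 2))) ≤
        ∏ q ∈ A, (1 - gq q) := by
      rw [Real.exp_sum]
      exact Finset.prod_le_prod (fun q _ => (Real.exp_pos _).le)
        fun q hq => (MER3_fac q (hAm q hq).2.2).2.2.2
    refine le_trans ?_ h1
    have h2 : ∑ q ∈ A, 1 / (q : ℝ) ≤ ∑ q ∈ PR 2 z, 1 / (q : ℝ) :=
      Finset.sum_le_sum_of_subset_of_nonneg (Finset.filter_subset _ _) fun q _ _ => by positivity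
    have h3 := (abs_le.1 (hmer 2 z le_rfl (by linarith))).2
    have h4 := hsq A
    have h5 : ∑ q ∈ A, -(1 / (q : ℝ) + 6 * (1 / (q : ℝ) ^ 2)) =
        -∑ q ∈ A, 1 / (q : ℝ) - 6 * ∑ q ∈ A, 1 / (q : ℝ) ^ 2 := by
      rw [Finset.sum_neg_distrib, Finset.sum_add_distrib, ← Finset.mul_sum]
      ring
    rw [h5]
    have h6 : Real.log (Real.log 2) - Real.log (Real.log z) + (-(C / Real.log 2) - 6 * B) ≤
        -∑ q ∈ A, 1 / (q : ℝ) - 6 * ∑ q ∈ A, 1 / (q : ℝ) ^ 2 := by linarith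
    refine le_trans ?_ (Real.exp_le_exp.2 h6)
    rw [Real.exp_add, Real.exp_sub (Real.log (Real.log 2)) (Real.log (Real.log z)),
      Real.exp_log hl2, Real.exp_log hlz, mul_div_right_comm]
    exact mul_le_mul_of_nonneg_right (div_le_div_of_nonneg_left hl2.le hlz hlzn)
      (Real.exp_pos _).le
  -- the large prime divisors
  set U := N.primeFactors.filter (fun q : ℕ => z ≤ (q : ℝ)) with hU
  have hUcard := MER2_card n N z hn2 hN hNn hz
  have hUprod : ∏ q ∈ U, (((q : ℝ) - 1) / (q - 2)) ≤ Real.exp 6 := by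
    have h1 : ∀ q ∈ U, 0 ≤ ((q : ℝ) - 1) / (q - 2) ∧
        ((q : ℝ) - 1) / (q - 2) ≤ Real.exp (1 / 10) := by
      intro q hq
      have h2 := (Finset.mem_filter.1 hq).2
      have h3 : (60 : ℝ) / Real.log z ≤ 1 / 4 := hzC
      rw [div_le_div_iff₀ hlz (by norm_num)] at h3
      have h4 := Real.log_le_sub_one_of_pos (show (0 : ℝ) < z by linarith)
      have h5 : (240 : ℝ) ≤ q := by linarith
      refine ⟨div_nonneg (by linarith) (by linarith), ?_⟩
      have h6 := Real.add_one_le_exp (1 / 10 : ℝ)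
      refine le_trans ?_ h6
      rw [div_le_iff₀ (by linarith)]
      linarith
    calc ∏ q ∈ U, (((q : ℝ) - 1) / (q - 2)) ≤ ∏ q ∈ U, Real.exp (1 / 10) :=
          Finset.prod_le_prod (fun q hq => (h1 q hq).1) fun q hq => (h1 q hq).2
      _ = Real.exp (1 / 10) ^ U.card := by rw [Finset.prod_const]
      _ ≤ Real.exp (1 / 10) ^ 60 :=
          pow_le_pow_right₀ (Real.one_le_exp (by norm_num)) hUcard
      _ = Real.exp 6 := by
          rw [← Real.exp_nat_mul]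
          norm_num
  have hsplit : ∏ q ∈ N.primeFactors.filter (fun q => 2 < q), (((q : ℝ) - 1) / (q - 2)) =
      (∏ q ∈ A0, (((q : ℝ) - 1) / (q - 2))) * ∏ q ∈ U, (((q : ℝ) - 1) / (q - 2)) := by
    rw [← Finset.prod_union]
    · refine Finset.prod_congr ?_ fun q _ => rfl
      ext q
      rw [Finset.mem_union, Finset.mem_filter, hA0, hA, hU, Finset.mem_filter, Finset.mem_filter,
        Finset.mem_filter, mem_PR, Nat.mem_primeFactors]
      constructor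
      · rintro ⟨⟨h1, h2, h3⟩, h4⟩
        rcases lt_or_ge (q : ℝ) z with h5 | h5
        · exact Or.inl ⟨⟨⟨h1, by exact_mod_cast h1.two_le, h5⟩, h4⟩, h2⟩
        · exact Or.inr ⟨⟨h1, h2, h3⟩, h5⟩
      · rintro (⟨⟨⟨h1, h2, h3⟩, h4⟩, h5⟩ | ⟨⟨h1, h2, h3⟩, h4⟩)
        · exact ⟨⟨h1, h5, hN.ne'⟩, h4⟩
        · refine ⟨⟨h1, h2, h3⟩, ?_⟩
          have h5 : (2 : ℝ) < q := by linarith
          exact_mod_cast h5
    · rw [Finset.disjoint_left]
      intro q h1 h2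
      have h3 := (hAm q (Finset.mem_filter.1 h1).1).2.1
      exact absurd h3 (not_lt.2 (Finset.mem_filter.1 h2).2)
  -- conclusion
  have hln : 0 < Real.log n := by linarith
  refine le_trans ?_ hVA1
  rw [hsplit, hA1eq]
  have hf0 : 0 ≤ ∏ q ∈ A0, (((q : ℝ) - 1) / (q - 2)) := hpos0
  calc Real.log 2 * Real.exp (-(C / Real.log 2) - 6 * B - 6) *
        ((∏ q ∈ A0, (((q : ℝ) - 1) / (q - 2))) * ∏ q ∈ U, (((q : ℝ) - 1) / (q - 2))) / Real.log n
      ≤ Real.log 2 * Real.exp (-(C / Real.log 2) - 6 * B - 6) *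
        ((∏ q ∈ A0, (((q : ℝ) - 1) / (q - 2))) * Real.exp 6) / Real.log n := by
        gcongr
    _ = Real.log 2 * Real.exp (-(C / Real.log 2) - 6 * B) / Real.log n *
        ∏ q ∈ A0, (((q : ℝ) - 1) / (q - 2)) := by
        have e : Real.exp (-(C / Real.log 2) - 6 * B) =
            Real.exp (-(C / Real.log 2) - 6 * B - 6) * Real.exp 6 := by
          rw [← Real.exp_add]; congr 1; ring
        rw [e]
        ring
    _ ≤ _ := mul_le_mul_of_nonneg_right hfull hf0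

end Pool.Agent.Lib.H59C
end

-- from Lib.H59C.CVX
section

/-!
# CVX: lower bound for the main term
-/

open Finset

namespace Pool.Agent.Lib.H59C

theorem CVX_le_one (n N p1 : ℕ) (z : ℝ) : VV (PP n N p1) z ≤ 1 := by
  classical
  unfold VV VP
  apply Finset.prod_le_one
  · intro q hq
    have hq' : q ∈ PP n N p1 := (Finset.mem_filter.1 hq).1
    have h3 : (3 : ℝ) ≤ q := by exact_mod_cast (mem_PP.1 hq').1.1
    unfold gq
    rw [sub_nonneg, div_le_one (by linarith)]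
    linarith
  · intro q hq
    have hq' : q ∈ PP n N p1 := (Finset.mem_filter.1 hq).1
    have h3 : (3 : ℝ) ≤ q := by exact_mod_cast (mem_PP.1 hq').1.1
    unfold gq
    rw [sub_le_self_iff]
    exact div_nonneg zero_le_one (by linarith)

/-- Proof. `XX_bounds` (`XX ≥ (y2 - y1)/2 ≥ n/32`) and `VV_lower` (`N ≤ 2 n ≤ n^3`, `zz n = n^(1/8)`; `hl N` is the product
there). -/
theorem main_lower : ∃ c : ℝ, 0 < c ∧ ∃ n0 : ℕ, ∀ n : ℕ, n0 ≤ n → ∀ p1 N y1 y2 : ℕ,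
    Win n N y1 y2 →
    c * hl N * n / Real.log n ≤ XX y1 y2 * VV (PP n N p1) (zz n) ∧
    c / Real.log n ≤ VV (PP n N p1) (zz n) ∧ VV (PP n N p1) (zz n) ≤ 1 := by
  obtain ⟨c, hc, n0, h⟩ := VV_lower
  obtain ⟨n1, h1⟩ := XX_bounds (1 / 2) (by norm_num)
  refine ⟨c / 32, by positivity, max (max n0 n1) 3, ?_⟩
  intro n hn p1 N y1 y2 W
  have hn0 : n0 ≤ n := le_trans (le_trans (le_max_left _ _) (le_max_left _ _)) hn
  have hn1 : n1 ≤ n := le_trans (le_trans (le_max_right _ _) (le_max_left _ _)) hn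
  have hn3 : 3 ≤ n := le_trans (le_max_right _ _) hn
  have hn1' : (1 : ℝ) ≤ n := by exact_mod_cast (by omega : 1 ≤ n)
  have hn3' : (3 : ℝ) ≤ n := by exact_mod_cast hn3
  have hlog : 0 < Real.log n := Real.log_pos (by linarith)
  have hN3 : N ≤ n ^ 3 := by
    have h2 := W.N2
    have h3 : 2 * n ≤ n ^ 3 := by
      have : 9 ≤ n ^ 2 := by nlinarith
      nlinarith
    exact h2.trans h3
  have hz1 : (n : ℝ) ^ (1 / 20 : ℝ) ≤ zz n :=
    Real.rpow_le_rpow_of_exponent_le hn1' (by norm_num)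
  have hz2 : zz n ≤ n := by
    have := Real.rpow_le_rpow_of_exponent_le hn1' (show (1 / 8 : ℝ) ≤ 1 by norm_num)
    rwa [Real.rpow_one] at this
  have hV : c * hl N / Real.log n ≤ VV (PP n N p1) (zz n) :=
    h n hn0 (PP n N p1) N (zz n) W.N0 hN3 hz1 hz2 (fun q hq => by
      obtain ⟨⟨a1, a2⟩, a3, a4, a5⟩ := mem_PP.1 hq
      exact ⟨a3, a1, a4⟩)
  have hX := (h1 n hn1 N y1 y2 W).1
  have hlen : (n : ℝ) ≤ 16 * ((y2 : ℝ) - y1) := by
    have h2 : n ≤ 16 * (y2 - y1) := W.len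
    have h3 : ((y2 - y1 : ℕ) : ℝ) = (y2 : ℝ) - y1 := Nat.cast_sub W.lt.le
    rw [← h3]
    exact_mod_cast h2
  have hX' : (n : ℝ) / 32 ≤ XX y1 y2 := by linarith
  have hhl := one_le_hl N
  have hV0 : 0 ≤ c * hl N / Real.log n := by positivity
  refine ⟨?_, ?_, CVX_le_one n N p1 _⟩
  · calc c / 32 * hl N * n / Real.log n = (n : ℝ) / 32 * (c * hl N / Real.log n) := by ring
      _ ≤ XX y1 y2 * VV (PP n N p1) (zz n) :=
        mul_le_mul hX' hV hV0 (le_trans (by positivity) hX')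
  · refine le_trans ?_ hV
    rw [div_le_div_iff_of_pos_right hlog]
    nlinarith

end Pool.Agent.Lib.H59C
end
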