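import Pool.Agent.Lib.H1M.RV3.M039

/-! Merged copies (to shorten the build) of Lib.H96G.A4, Lib.H96G.C1, Lib.H96G.C2, Lib.H96G.C4, Lib.H96G.B2, Lib.H96G.C6, Lib.H96G.A7, Lib.H96G.D1, Lib.H96G.D2, Lib.H96G.E0, Lib.H96G.E1. -/

-- from Lib.H96G.A4
section

/-!
# Project H96G, chunk A4 (M): good vertices have many neighbours
-/

open Finset

namespace Pool.Agent.Lib.H96G

open Pool.Agent.Lib.GoldbachGraph (hadj)

open Classical in
/-- Proof. The interval `[2X', 3X')` has `X'` elements; the class (parity, `3 ∣ ·`) of `x` contains a full class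
modulo `6` (the integers `≡ x` modulo `6` have the type of `x`), so at least `X'/6 - 1` elements. -/
theorem A4_class (X' x : ℕ) : (X' : ℝ) / 6 - 1 ≤
    (((Ico (2 * X') (3 * X')).filter fun x' => ST x x').card : ℝ) := by
  have hr : (x + 10 * X') % 6 < 6 := Nat.mod_lt _ (by norm_num)
  have h1 : (range (X' / 6)).card ≤ ((Ico (2 * X') (3 * X')).filter fun x' => ST x x').card := by
    refine card_le_card_of_injOn (fun k => 2 * X' + 6 * k + (x + 10 * X') % 6) ?_ ?_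
    · intro k hk
      rw [mem_coe, mem_range] at hk
      rw [mem_coe, mem_filter, mem_Ico]
      dsimp only
      have h6 : 6 * (X' / 6) ≤ X' := Nat.mul_div_le X' 6
      refine ⟨⟨by omega, by omega⟩, ?_⟩
      unfold ST
      constructor
      · omega
      · constructor
        · intro h7
          omega
        · intro h7
          omega
    · intro k _ k' _ h
      have h2 : 2 * X' + 6 * k + (x + 10 * X') % 6 = 2 * X' + 6 * k' + (x + 10 * X') % 6 := h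
      omega
  rw [card_range] at h1
  have h2 : (X' : ℝ) ≤ 6 * ((X' / 6 : ℕ) : ℝ) + 6 := by
    have : X' ≤ 6 * (X' / 6) + 6 := by omega
    exact_mod_cast this
  have h3 : ((X' / 6 : ℕ) : ℝ) ≤ (((Ico (2 * X') (3 * X')).filter fun x' => ST x x').card : ℝ) := by exact_mod_cast h1
  linarith

open Classical in
/-- **A4.** Proof. `X' ≥ 2 Z ≥ 2 n^(1-B)`, so by `A4_class` the type of `x` has at least `n^(1-B)/3 - 1 > n^(1-c/2)`
elements in `[2X', 3X')` (`Nm.cst`: `10 n^(1-c/2) ≤ n^(1-B)`, `10 ≤ n^(1-B)` as `1 - B ≥ b/2`), so some `x'` of the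
type is not in `bad`: `Z n^(-b)/2 ≤ dx (L X') Z x x'`. Only the `y` with `kp x y ≠ 0`, which are in `nb Z x`
(`a1_kp_hadj`), contribute, each at most `(log 8n)^2 n^(2b)` (`a1_kp_le`, `a1_km_abs`). So
`Z n^(-b)/2 ≤ (nb Z x).card (log 8n)^2 n^(2b)` and `2 (log 8n)^2 n^(3b) ≤ n^(4b)`. -/
theorem A4 {n M : ℕ} {L : ℕ → ℤ → ℝ} {c B b : ℝ} (hN : Nm n b) (h : GIn n M L c B b)
    {X X' Z : ℕ} (hs : Sc n M B X Z) (hs' : Sc n M B X' Z) {x : ℕ}
    (hx : x ∈ Ico (2 * X) (3 * X)) (hb : ((bad n L b X' Z x).card : ℝ) ≤ (n : ℝ) ^ (1 - c / 2)) :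
    Z * (n : ℝ) ^ (-(4 * b)) ≤ ((nb Z x).card : ℝ) := by
  have hb0 := h.b_pos
  have hbB := h.hb
  have hBc := h.hB
  have hc1 := h.hc
  have hn := hN.n_pos
  have e1 : 10 * (n : ℝ) ^ (1 - c / 2) ≤ (n : ℝ) ^ (1 - B) := hN.cst (by norm_num) (by linarith)
  have e2 : (10 : ℝ) ≤ (n : ℝ) ^ (1 - B) := by
    have := hN.cst (K := 10) (x := 0) (y := 1 - B) (by norm_num) (by linarith)
    rwa [Real.rpow_zero, mul_one] at this
  obtain ⟨x', hx', hST, hnb⟩ : ∃ x' ∈ Ico (2 * X') (3 * X'), ST x x' ∧ x' ∉ bad n L b X' Z x := by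
    by_contra hcon
    have hsub : ((Ico (2 * X') (3 * X')).filter fun x' => ST x x') ⊆ bad n L b X' Z x := by
      intro x' hx'
      rw [mem_filter] at hx'
      by_contra h1
      exact hcon ⟨x', hx'.1, hx'.2, h1⟩
    have h1 : ((((Ico (2 * X') (3 * X')).filter fun x' => ST x x').card : ℕ) : ℝ) ≤ ((bad n L b X' Z x).card : ℝ) := by
      exact_mod_cast card_le_card hsub
    have h2 := A4_class X' x
    have h3 : (2 : ℝ) * Z ≤ X' := by exact_mod_cast hs'.le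
    have h4 := hs'.lo
    have h5 := hN.ppos (1 - c / 2)
    linarith
  have hdx : Z * (n : ℝ) ^ (-b) / 2 ≤ dx (L X') Z x x' := by
    by_contra h1
    apply hnb
    unfold bad
    rw [mem_filter]
    exact ⟨hx', hST, not_le.1 h1⟩
  have hup : dx (L X') Z x x' ≤ ((nb Z x).card : ℝ) * ((Real.log (8 * n)) ^ 2 * (n : ℝ) ^ (2 * b)) := by
    have h1 : ∀ y ∈ Ico Z (2 * Z), kp x y * km (L X') x' y ≤
        if hadj x y then (Real.log (8 * n)) ^ 2 * (n : ℝ) ^ (2 * b) else 0 := by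
      intro y hy
      by_cases hk : kp x y = 0
      · rw [hk, zero_mul]
        split_ifs
        · exact mul_nonneg (sq_nonneg _) (hN.ppos _).le
        · exact le_rfl
      · rw [if_pos (a1_kp_hadj hn hs hx hy hk)]
        refine (mul_le_mul_of_nonneg_left (le_abs_self _) (a1_kp_nonneg x y)).trans ?_
        exact mul_le_mul (a1_kp_le hn hs hx hy) (a1_km_abs hN h hs' hx' hy) (abs_nonneg _) (sq_nonneg _)
    unfold dx
    refine (sum_le_sum h1).trans (le_of_eq ?_)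
    rw [← sum_filter, sum_const, nsmul_eq_mul]
    rfl
  have h1 := hN.lg (K := 2) (x := 3 * b) (y := 4 * b) (j := 2) (by norm_num) (by norm_num) (by linarith)
  have q1 : (n : ℝ) ^ (-b) * (n : ℝ) ^ (-(3 * b)) = (n : ℝ) ^ (-(4 * b)) := by
    rw [hN.mul]
    congr 1
    ring
  have q2 : (n : ℝ) ^ (3 * b) * (n : ℝ) ^ (-(4 * b)) = (n : ℝ) ^ (2 * b) * (n : ℝ) ^ (-(3 * b)) := by
    rw [hN.mul, hN.mul]
    congr 1
    ring
  have q3 : (n : ℝ) ^ (4 * b) * (n : ℝ) ^ (-(4 * b)) = 1 := by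
    rw [hN.mul, add_neg_cancel, Real.rpow_zero]
  have hcard : (0 : ℝ) ≤ ((nb Z x).card : ℝ) := Nat.cast_nonneg _
  calc Z * (n : ℝ) ^ (-(4 * b)) = 2 * (Z * (n : ℝ) ^ (-b) / 2) * (n : ℝ) ^ (-(3 * b)) := by rw [← q1]; ring
    _ ≤ 2 * (((nb Z x).card : ℝ) * ((Real.log (8 * n)) ^ 2 * (n : ℝ) ^ (2 * b))) * (n : ℝ) ^ (-(3 * b)) := by
        refine mul_le_mul_of_nonneg_right ?_ (hN.ppos _).le
        linarith
    _ = ((nb Z x).card : ℝ) * (2 * (Real.log (8 * n)) ^ 2 * ((n : ℝ) ^ (2 * b) * (n : ℝ) ^ (-(3 * b)))) := by ring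
    _ = ((nb Z x).card : ℝ) * ((2 * (Real.log (8 * n)) ^ 2 * (n : ℝ) ^ (3 * b)) * (n : ℝ) ^ (-(4 * b))) := by
        rw [← q2]
        ring
    _ ≤ ((nb Z x).card : ℝ) * ((n : ℝ) ^ (4 * b) * (n : ℝ) ^ (-(4 * b))) :=
        mul_le_mul_of_nonneg_left (mul_le_mul_of_nonneg_right h1 (hN.ppos _).le) hcard
    _ = ((nb Z x).card : ℝ) := by rw [q3, mul_one]

end Pool.Agent.Lib.H96G
end

-- from Lib.H96G.C1
section

/-!
# Project H96G, chunk C1 (M): generic vertices of the same type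
-/

open Finset

namespace Pool.Agent.Lib.H96G

open Pool.Agent.Lib.GoldbachGraph (hadj)

theorem c1_far {Z x w : ℕ} {I : Finset ℕ} (hw : w ∈ I) (hST : ST x w) (h : w ∉ far Z x I) :
    ∃ y ∈ Ico Z (2 * Z), hadj x y ∧ hadj w y := by
  by_contra hcon
  refine h ?_
  unfold far
  simp only [mem_filter]
  exact ⟨hw, hST, hcon⟩

theorem c1_many (n Z u : ℕ) (hn : 100 ≤ n) (hZ : 100 * Z ≤ n) :
    ∃ W : Finset ℕ, W ⊆ Icc (4 * Z) n ∧ (∀ w ∈ W, ST u w) ∧ n < 10 * W.card := by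
  refine ⟨(range ((n - 4 * Z) / 6)).image fun j => 4 * Z + (u + 20 * Z) % 6 + 6 * j, ?_, ?_, ?_⟩
  · intro w hw
    rw [mem_image] at hw
    obtain ⟨j, hj, rfl⟩ := hw
    rw [mem_range] at hj
    rw [mem_Icc]
    omega
  · intro w hw
    rw [mem_image] at hw
    obtain ⟨j, hj, rfl⟩ := hw
    unfold ST
    omega
  · rw [card_image_of_injective, card_range]
    · omega
    · intro i j hij
      simp only at hij
      omega

/-- **C1.** Proof. The integers `w ∈ Icc (4Z) n` with `w ≡ u` modulo `6` have the type of `u`; there are at least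
`(n + 1 - 4Z)/6 - 1 ≥ 0.15 n > 2 s` of them. So one of them is neither in `far Z u (Icc (4Z) n)` nor in
`far Z v (Icc (4Z) n)` (at most `s` elements each, field `be`; `ST v w` as `ST u v`): it has a common neighbour `y` with
`u` and one with `v`, both in `[Z, 2Z)`. `c0_two` twice, `c0_tri` (`c0_mem` for the ranges). -/
theorem C1 {lo n Z : ℕ} (hlo : lo ≤ 1) {s t : ℝ} {Γ : Finset ℕ}
    (hP : PZ n Z s t Γ) (hn : 100 ≤ n) (hZ : 100 * Z ≤ n) (hs : 20 * s ≤ n) {u v : ℕ} (hu : u ∈ Γ) (hv : v ∈ Γ) (h : ST u v) :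
    (HL lo n).edist u v ≤ 4 := by
  obtain ⟨W, hW1, hW2, hW3⟩ := c1_many n Z u hn hZ
  have hfu := hP.be u hu
  have hfv := hP.be v hv
  have hlt : (far Z u (Icc (4 * Z) n) ∪ far Z v (Icc (4 * Z) n)).card < W.card := by
    have h1 := card_union_le (far Z u (Icc (4 * Z) n)) (far Z v (Icc (4 * Z) n))
    have h2 : ((far Z u (Icc (4 * Z) n) ∪ far Z v (Icc (4 * Z) n)).card : ℝ) ≤
        (far Z u (Icc (4 * Z) n)).card + (far Z v (Icc (4 * Z) n)).card := by exact_mod_cast h1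
    have h3 : (n : ℝ) < 10 * W.card := by exact_mod_cast hW3
    have h4 : ((far Z u (Icc (4 * Z) n) ∪ far Z v (Icc (4 * Z) n)).card : ℝ) < W.card := by linarith
    exact_mod_cast h4
  obtain ⟨w, hw, hwn⟩ := exists_mem_notMem_of_card_lt_card hlt
  rw [mem_union, not_or] at hwn
  have hwI := hW1 hw
  have hSu := hW2 w hw
  obtain ⟨y, hy, hy1, hy2⟩ := c1_far hwI hSu hwn.1
  obtain ⟨y', hy', hy1', hy2'⟩ := c1_far hwI (c0_ST_trans (c0_ST_symm h) hSu) hwn.2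
  have hm := c0_mem hlo hy hwI
  have hm' := c0_mem hlo hy' hwI
  have hmu := c0_mem hlo hy (hP.sub hu)
  have hmv := c0_mem hlo hy (hP.sub hv)
  have e1 : (HL lo n).edist u w ≤ 2 := c0_two hy1 hy2 hmu.1 hm.2 hm.1
  have e2 : (HL lo n).edist w v ≤ 2 := c0_two hy2' hy1' hm.1 hm'.2 hmv.1
  exact c0_tri (i := 2) (j := 2) (k := 4) e1 e2 (by norm_num)

end Pool.Agent.Lib.H96G
end

-- from Lib.H96G.C2
section

/-!
# Project H96G, chunk C2 (S/M): opposite types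
-/

open Finset

namespace Pool.Agent.Lib.H96G

open Pool.Agent.Lib.GoldbachGraph (hadj hadj_comm)

theorem c2_far {Z x w : ℕ} {I : Finset ℕ} (hw : w ∈ I) (hST : ST x w) (h : w ∉ far Z x I) :
    ∃ y ∈ Ico Z (2 * Z), hadj x y ∧ hadj w y := by
  by_contra hcon
  refine h ?_
  unfold far
  simp only [mem_filter]
  exact ⟨hw, hST, hcon⟩

open Classical in
theorem c2_many {Z' v : ℕ} {s : ℝ} (hd : s + 3 < ((nb Z' v).card : ℝ)) :
    s < ((nb Z' v).filter fun y => OT v y).card := by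
  have h1 := c0_exc v (nb Z' v)
  have h2 : (nb Z' v).card ≤ ((nb Z' v).filter fun y => OT v y).card +
      ((nb Z' v).filter fun y => hadj v y ∧ ¬ OT v y).card := by
    refine (card_le_card ?_).trans (card_union_le _ _)
    intro y hy
    rw [mem_union, mem_filter, mem_filter]
    have h3 : hadj v y := by
      unfold nb at hy
      exact (mem_filter.1 hy).2
    by_cases hO : OT v y
    · exact Or.inl ⟨hy, hO⟩
    · exact Or.inr ⟨hy, h3, hO⟩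
  have h4 : (nb Z' v).card ≤ ((nb Z' v).filter fun y => OT v y).card + 3 := by omega
  have h5 : ((nb Z' v).card : ℝ) ≤ ((nb Z' v).filter fun y => OT v y).card + 3 := by exact_mod_cast h4
  linarith

/-- **C2.** Proof. Remove from `nb Z' v` the at most `3` elements which are not of opposite type to `v` (`c0_exc`):
more than `s` elements `y` remain, in `[Z', 2Z') ⊆ Icc (4Z) n`, and `ST u y` (`c0_OT_OT`, `c0_OT_symm`). By the field
`be` one of them is not in `far Z u (Icc (4Z) n)`: `y` and `u` have a common neighbour in `[Z, 2Z)`; `c0_two` and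
`c0_one`, `c0_tri`: `2 + 1`. -/
theorem C2 {lo n Z Z' : ℕ} (hlo : lo ≤ 1) {s t : ℝ} {Γ : Finset ℕ} (hP : PZ n Z s t Γ)
    (h1 : 4 * Z + 3 ≤ Z') (h2 : 2 * Z' ≤ n) {u v : ℕ} (hu : u ∈ Γ) (hv : v ∈ Icc lo n)
    (hd : s + 3 < ((nb Z' v).card : ℝ)) (h : OT u v) : (HL lo n).edist u v ≤ 3 := by
  classical
  have hfu := hP.be u hu
  have hmany := c2_many hd
  have hlt : (far Z u (Icc (4 * Z) n)).card < ((nb Z' v).filter fun y => OT v y).card := by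
    have h3 : ((far Z u (Icc (4 * Z) n)).card : ℝ) < ((nb Z' v).filter fun y => OT v y).card := by linarith
    exact_mod_cast h3
  obtain ⟨y, hy, hyn⟩ := exists_mem_notMem_of_card_lt_card hlt
  rw [mem_filter] at hy
  obtain ⟨hy1, hy2⟩ := hy
  unfold nb at hy1
  rw [mem_filter, mem_Ico] at hy1
  have hyI : y ∈ Icc (4 * Z) n := by
    rw [mem_Icc]
    omega
  obtain ⟨w, hw, hw1, hw2⟩ := c2_far hyI (c0_OT_OT h hy2) hyn
  have hmy := c0_mem hlo hw hyI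
  have hmu := c0_mem hlo hw (hP.sub hu)
  have e1 : (HL lo n).edist u y ≤ 2 := c0_two hw1 hw2 hmu.1 hmy.2 hmy.1
  have e2 : (HL lo n).edist y v ≤ 1 := c0_one ((hadj_comm _ _).1 hy1.2) hmy.1 hv
  exact c0_tri (i := 2) (j := 1) (k := 3) e1 e2 (by norm_num)

end Pool.Agent.Lib.H96G
end

-- from Lib.H96G.C4
section

/-!
# Project H96G, chunk C4 (M): opposite parity, both divisible by three
-/

open Finset

namespace Pool.Agent.Lib.H96G

open Pool.Agent.Lib.GoldbachGraph (hadj)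

open Classical in
/-- Many elements of `nb3 Z' u` are of opposite type to `u`. -/
theorem c4_many {Z' u : ℕ} {s : ℝ} (hd : s + 3 < ((nb3 Z' u).card : ℝ)) :
    s < (((nb3 Z' u).filter fun y => OT u y).card : ℝ) := by
  have h1 := c0_exc u (Ico Z' (2 * Z'))
  have h2 : (nb3 Z' u).filter (fun y => ¬ OT u y) ⊆
      (Ico Z' (2 * Z')).filter fun y => hadj u y ∧ ¬ OT u y := by
    intro y hy
    rw [mem_filter] at hy
    have hy1 := hy.1
    unfold nb3 at hy1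
    rw [mem_filter] at hy1
    exact mem_filter.2 ⟨hy1.1, hy1.2.1, hy.2⟩
  have h3 : ((nb3 Z' u).filter fun y => ¬ OT u y).card ≤ 3 := (card_le_card h2).trans h1
  have h4 := card_filter_add_card_filter_not (s := nb3 Z' u) (fun y => OT u y)
  have h3' : (((nb3 Z' u).filter fun y => ¬ OT u y).card : ℝ) ≤ 3 := by exact_mod_cast h3
  have h4' : (((nb3 Z' u).filter fun y => OT u y).card : ℝ)
      + (((nb3 Z' u).filter fun y => ¬ OT u y).card : ℝ) = ((nb3 Z' u).card : ℝ) := by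
    exact_mod_cast h4
  linarith

theorem c4_par {u v z : ℕ} (h1 : u % 2 ≠ v % 2) (h2 : u % 2 ≠ (z + 3) % 2) :
    z % 2 ≠ v % 2 := by
  rcases Nat.mod_two_eq_zero_or_one u with h | h <;>
    rcases Nat.mod_two_eq_zero_or_one v with h' | h' <;>
    rcases Nat.mod_two_eq_zero_or_one z with h'' | h'' <;> omega

/-- **C4.** Proof. Remove from `nb3 Z' u` the at most `3` elements `y` not of opposite type to `u` (`c0_exc`) and those
with `y - 3 ∉ Γ` (the map `y ↦ y - 3` into `Icc (4Z) n \ Γ` is injective, at most `s`, field `co`): one `y` remains;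
`y - 3 ∈ Γ` is not divisible by `3` and has the parity of `u`, so `OT (y - 3) v`, and `C2` gives `3`.
`u ~ y ~ y - 3`: `1 + 1 + 3`. -/
theorem C4 {lo n Z Z' : ℕ} (hlo : lo ≤ 1) {s t : ℝ} {Γ : Finset ℕ} (hP : PZ n Z s t Γ)
    (h1 : 4 * Z + 3 ≤ Z') (h2 : 2 * Z' ≤ n) {u v : ℕ} (hu : u ∈ Icc lo n) (hv : v ∈ Icc lo n)
    (hd : s + 3 < ((nb3 Z' u).card : ℝ)) (hd' : s + 3 < ((nb Z' v).card : ℝ))
    (hp : u % 2 ≠ v % 2) (hu3 : 3 ∣ u) (hv3 : 3 ∣ v) : (HL lo n).edist u v ≤ 5 := by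
  classical
  have hm := c4_many hd
  obtain ⟨S, hS⟩ : ∃ S, S = (nb3 Z' u).filter fun y => OT u y := ⟨_, rfl⟩
  rw [← hS] at hm
  have hSm : ∀ y ∈ S, (Z' ≤ y ∧ y < 2 * Z') ∧ hadj u y ∧ (2 * y - 3).Prime ∧ OT u y := by
    intro y hy
    rw [hS, mem_filter] at hy
    have hy1 := hy.1
    unfold nb3 at hy1
    rw [mem_filter, mem_Ico] at hy1
    exact ⟨hy1.1, hy1.2.1, hy1.2.2, hy.2⟩
  have hex : ∃ y ∈ S, y - 3 ∈ Γ := by
    by_contra hc
    push Not at hc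
    have h3 : S.image (fun y => y - 3) ⊆ Icc (4 * Z) n \ Γ := by
      intro w hw
      obtain ⟨y, hy, rfl⟩ := mem_image.1 hw
      have e1 := (hSm y hy).1
      exact mem_sdiff.2 ⟨mem_Icc.2 ⟨by omega, by omega⟩, hc y hy⟩
    have h4 := card_le_card h3
    rw [card_image_of_injOn (fun a ha b hb hab => by
      have ea := (hSm a ha).1.1
      have eb := (hSm b hb).1.1
      have hab' : a - 3 = b - 3 := hab
      omega)] at h4
    have h5 := hP.co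
    have h6 : (S.card : ℝ) ≤ ((Icc (4 * Z) n \ Γ).card : ℝ) := by exact_mod_cast h4
    linarith
  obtain ⟨y, hy, hyf⟩ := hex
  obtain ⟨⟨y1, y2⟩, y3, y4, y5⟩ := hSm y hy
  have hyI := hP.sub hyf
  have hOT : OT (y - 3) v := by
    obtain ⟨o1, o2⟩ := y5
    have hy3 : ¬ 3 ∣ y := o2.1 hu3
    have hy4 : 3 ≤ y := by omega
    have hpar : (y - 3) % 2 ≠ v % 2 := by
      obtain ⟨z, hz⟩ : ∃ z, y = z + 3 := ⟨y - 3, by omega⟩
      rw [hz, Nat.add_sub_cancel]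
      rw [hz] at o1
      exact c4_par hp o1
    refine ⟨hpar, ?_⟩
    constructor
    · intro h
      exfalso
      apply hy3
      omega
    · intro h
      exact absurd hv3 h
  have hyL : y ∈ Icc lo n := mem_Icc.2 ⟨by omega, by omega⟩
  have hyL3 : y - 3 ∈ Icc lo n := by
    by_cases hZ : 1 ≤ Z
    · rw [mem_Icc] at hyI ⊢
      omega
    · rw [mem_Icc]
      constructor
      · by_contra hlo'
        push Not at hlo'
        have hy0 : y = 3 := by omega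
        have h5 := y5.2.1 hu3
        apply h5
        rw [hy0]
      · omega
  have e1 : (HL lo n).edist u y ≤ ((1 : ℕ) : ℕ∞) := by exact_mod_cast c0_one y3 hu hyL
  have e2 : (HL lo n).edist y (y - 3) ≤ ((1 : ℕ) : ℕ∞) := by
    exact_mod_cast c0_one (c0_edge (by omega) y4) hyL hyL3
  have e3 : (HL lo n).edist (y - 3) v ≤ ((3 : ℕ) : ℕ∞) := by
    exact_mod_cast C2 hlo hP h1 h2 hyf hv hd' hOT
  have e4 := c0_tri (k := 2) e1 e2 le_rfl
  have e5 := c0_tri (k := 5) e4 e3 le_rfl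
  exact_mod_cast e5

end Pool.Agent.Lib.H96G
end

-- from Lib.H96G.B2
section

/-!
# Project H96G, chunk B2 (M): generic vertices
-/

open Finset

namespace Pool.Agent.Lib.H96G

theorem b2_card {S : Finset ℕ} {f : ℕ → Finset ℕ} {l K : ℝ} (hS : (S.card : ℝ) ≤ l) (hK : 0 ≤ K)
    (hf : ∀ X ∈ S, ((f X).card : ℝ) ≤ K) : ((S.biUnion f).card : ℝ) ≤ l * K := by
  have h1 : ((S.biUnion f).card : ℝ) ≤ ∑ X ∈ S, ((f X).card : ℝ) := by
    have := card_biUnion_le (s := S) (t := f)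
    exact_mod_cast this
  have h2 : ∑ X ∈ S, ((f X).card : ℝ) ≤ ∑ _X ∈ S, K := sum_le_sum hf
  rw [sum_const, nsmul_eq_mul] at h2
  exact (h1.trans h2).trans (mul_le_mul_of_nonneg_right hS hK)

open Classical in
/-- **B2.** Proof. `8 M ≤ 8 n^(1/2) ≤ n^(1-B) ≤ Z` (`Nm.cst`). Take `S` from `B1`; `Sc n M B X Z` for `X ∈ S`. `Γ` = the
`u ∈ Icc (4Z) n` such that for all `X ∈ S` with `u ∈ Ico (2X) (3X)`: `(bad n L b X' Z u).card ≤ n^(1-c/2)` for all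
`X' ∈ S`, and `Z n^(-4b) ≤ (nb3 Z u).card` if `3 ∣ u`.
`co`: the complement is contained in the union over `X, X' ∈ S` of the sets of `A3` and over `X ∈ S` of the sets of
`A6`: at most `25 l^2 n^(1-c/2+2B) + 5 l n^(1-c/2) ≤ n^(1-c/2+3B)`, `l = log (8n)`.
`al`: `u ∈ Ico (2X) (3X)` for some `X ∈ S` (`B1`), `A4` with `X' = X`. `ga`: definition. `be`: `far Z u (Icc (4Z) n)` is
contained in the union over `X' ∈ S` of `far Z u (Ico (2X') (3X'))` (`B1`), `A5`: at most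
`5 l n^(1-c/2+2B) ≤ n^(1-c/2+3B)`. -/
theorem B2 {n M : ℕ} {L : ℕ → ℤ → ℝ} {c B b : ℝ} (hN : Nm n b) (h : GIn n M L c B b)
    {Z : ℕ} (hZ : M ∣ Z) (hlo : (n : ℝ) ^ (1 - B) ≤ Z) :
    ∃ Γ : Finset ℕ, PZ n Z ((n : ℝ) ^ (1 - c / 2 + 3 * B)) (Z * (n : ℝ) ^ (-(4 * b))) Γ := by
  have hb := h.hb
  have hB := h.hB
  have hc := h.hc
  have hb0 := h.b_pos
  have hl := hN.ell
  have hl0 : 0 ≤ Real.log (8 * n) := by linarith
  have h8 : 8 * M ≤ Z := by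
    have h1 : 8 * (n : ℝ) ^ (1 / 2 : ℝ) ≤ (n : ℝ) ^ (1 - B) := hN.cst (by norm_num) (by linarith)
    have h2 : (8 : ℝ) * M ≤ Z := by linarith [h.Mn]
    exact_mod_cast h2
  obtain ⟨S, hS1, hS2, hS3⟩ := B1 n M Z h.M1 hZ h8
  have hSc : ∀ X ∈ S, Sc n M B X Z := fun X hX => ⟨(hS1 X hX).1, hZ, hlo, (hS1 X hX).2.1, (hS1 X hX).2.2⟩
  have hp1 := hN.ppos (1 - c / 2)
  have hp2 := hN.ppos (1 - c / 2 + 2 * B)
  have hp3 := hN.ppos (1 - c / 2 + 3 * B)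
  refine ⟨(Icc (4 * Z) n).filter fun u => ∀ X ∈ S, u ∈ Ico (2 * X) (3 * X) →
      (∀ X' ∈ S, ((bad n L b X' Z u).card : ℝ) ≤ (n : ℝ) ^ (1 - c / 2)) ∧
      (3 ∣ u → Z * (n : ℝ) ^ (-(4 * b)) ≤ ((nb3 Z u).card : ℝ)), ?_, ?_, ?_, ?_, ?_⟩
  · exact filter_subset _ _
  · obtain ⟨f3, hf3⟩ : ∃ f : ℕ → ℕ → Finset ℕ, f = fun X X' => (Ico (2 * X) (3 * X)).filter fun x =>
      ¬ ((bad n L b X' Z x).card : ℝ) ≤ (n : ℝ) ^ (1 - c / 2) := ⟨_, rfl⟩
    obtain ⟨f6, hf6⟩ : ∃ f : ℕ → Finset ℕ, f = fun X => (Ico (2 * X) (3 * X)).filter fun x => 3 ∣ x ∧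
      ¬ Z * (n : ℝ) ^ (-(4 * b)) ≤ ((nb3 Z x).card : ℝ) := ⟨_, rfl⟩
    have hsub : (Icc (4 * Z) n) \ ((Icc (4 * Z) n).filter fun u => ∀ X ∈ S, u ∈ Ico (2 * X) (3 * X) →
      (∀ X' ∈ S, ((bad n L b X' Z u).card : ℝ) ≤ (n : ℝ) ^ (1 - c / 2)) ∧
      (3 ∣ u → Z * (n : ℝ) ^ (-(4 * b)) ≤ ((nb3 Z u).card : ℝ))) ⊆
        (S.biUnion fun X => S.biUnion (f3 X)) ∪ S.biUnion f6 := by
      intro u hu
      rw [mem_sdiff] at hu
      obtain ⟨hu1, hu2⟩ := hu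
      by_contra hcon
      apply hu2
      rw [mem_filter]
      refine ⟨hu1, fun X hX huX => ?_⟩
      rw [mem_union, not_or] at hcon
      obtain ⟨hc1, hc2⟩ := hcon
      constructor
      · intro X' hX'
        by_contra hcc
        apply hc1
        rw [mem_biUnion]
        refine ⟨X, hX, ?_⟩
        rw [mem_biUnion]
        refine ⟨X', hX', ?_⟩
        rw [hf3]
        simp only [mem_filter]
        exact ⟨huX, hcc⟩
      · intro h3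
        by_contra hcc
        apply hc2
        rw [mem_biUnion]
        refine ⟨X, hX, ?_⟩
        rw [hf6]
        simp only [mem_filter]
        exact ⟨huX, h3, hcc⟩
    have hcard3 : ((S.biUnion fun X => S.biUnion (f3 X)).card : ℝ) ≤
        5 * Real.log (8 * n) * (5 * Real.log (8 * n) * (n : ℝ) ^ (1 - c / 2 + 2 * B)) := by
      refine b2_card hS2 (by positivity) fun X hX => b2_card hS2 hp2.le fun X' hX' => ?_
      rw [hf3]
      exact A3 hN h (hSc X hX) (hSc X' hX')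
    have hcard6 : ((S.biUnion f6).card : ℝ) ≤ 5 * Real.log (8 * n) * (n : ℝ) ^ (1 - c / 2) := by
      refine b2_card hS2 hp1.le fun X hX => ?_
      rw [hf6]
      exact A6 hN h (hSc X hX)
    have hcard : (((Icc (4 * Z) n) \ ((Icc (4 * Z) n).filter fun u => ∀ X ∈ S, u ∈ Ico (2 * X) (3 * X) →
      (∀ X' ∈ S, ((bad n L b X' Z u).card : ℝ) ≤ (n : ℝ) ^ (1 - c / 2)) ∧
      (3 ∣ u → Z * (n : ℝ) ^ (-(4 * b)) ≤ ((nb3 Z u).card : ℝ)))).card : ℝ) ≤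
        (S.biUnion fun X => S.biUnion (f3 X)).card + (S.biUnion f6).card := by
      have := (card_le_card hsub).trans (card_union_le _ _)
      exact_mod_cast this
    have h10 : 50 * (Real.log (8 * n)) ^ 2 * (n : ℝ) ^ (1 - c / 2 + 2 * B) ≤ (n : ℝ) ^ (1 - c / 2 + 3 * B) :=
      hN.lg (by norm_num) (by norm_num) (by linarith)
    have h11 : 10 * (Real.log (8 * n)) ^ 1 * (n : ℝ) ^ (1 - c / 2) ≤ (n : ℝ) ^ (1 - c / 2 + 3 * B) :=
      hN.lg (by norm_num) (by norm_num) (by linarith)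
    have h12 : 5 * Real.log (8 * n) * (5 * Real.log (8 * n) * (n : ℝ) ^ (1 - c / 2 + 2 * B)) =
        (1 / 2) * (50 * (Real.log (8 * n)) ^ 2 * (n : ℝ) ^ (1 - c / 2 + 2 * B)) := by ring
    have h13 : 5 * Real.log (8 * n) * (n : ℝ) ^ (1 - c / 2) =
        (1 / 2) * (10 * (Real.log (8 * n)) ^ 1 * (n : ℝ) ^ (1 - c / 2)) := by ring
    rw [h12] at hcard3
    rw [h13] at hcard6
    linarith
  · intro u hu
    rw [mem_filter] at hu
    obtain ⟨hu1, hu2⟩ := hu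
    rw [mem_Icc] at hu1
    obtain ⟨X, hX, huX⟩ := hS3 u hu1.1 hu1.2
    exact A4 hN h (hSc X hX) (hSc X hX) huX ((hu2 X hX huX).1 X hX)
  · intro u hu
    rw [mem_filter] at hu
    obtain ⟨hu1, hu2⟩ := hu
    rw [mem_Icc] at hu1
    obtain ⟨X, hX, huX⟩ := hS3 u hu1.1 hu1.2
    have hsub : far Z u (Icc (4 * Z) n) ⊆ S.biUnion fun X' => far Z u (Ico (2 * X') (3 * X')) := by
      intro w hw
      unfold far at hw
      simp only [mem_filter] at hw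
      obtain ⟨hw1, hw2⟩ := hw
      rw [mem_Icc] at hw1
      obtain ⟨X', hX', hwX'⟩ := hS3 w hw1.1 hw1.2
      rw [mem_biUnion]
      refine ⟨X', hX', ?_⟩
      unfold far
      simp only [mem_filter]
      exact ⟨hwX', hw2⟩
    have h1 : ((far Z u (Icc (4 * Z) n)).card : ℝ) ≤ (S.biUnion fun X' => far Z u (Ico (2 * X') (3 * X'))).card := by
      exact_mod_cast card_le_card hsub
    have h2 : ((S.biUnion fun X' => far Z u (Ico (2 * X') (3 * X'))).card : ℝ) ≤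
        5 * Real.log (8 * n) * (n : ℝ) ^ (1 - c / 2 + 2 * B) :=
      b2_card hS2 hp2.le fun X' hX' => A5 hN h (hSc X hX) (hSc X' hX') huX ((hu2 X hX huX).1 X' hX')
    have h3 : 5 * (Real.log (8 * n)) ^ 1 * (n : ℝ) ^ (1 - c / 2 + 2 * B) ≤ (n : ℝ) ^ (1 - c / 2 + 3 * B) :=
      hN.lg (by norm_num) (by norm_num) (by linarith)
    rw [pow_one] at h3
    exact (h1.trans h2).trans h3
  · intro u hu h3
    rw [mem_filter] at hu
    obtain ⟨hu1, hu2⟩ := hu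
    rw [mem_Icc] at hu1
    obtain ⟨X, hX, huX⟩ := hS3 u hu1.1 hu1.2
    exact (hu2 X hX huX).2 h3

end Pool.Agent.Lib.H96G
end

-- from Lib.H96G.C6
section

/-!
# Project H96G, chunk C6 (S/M): distances between generic vertices
-/

open Finset

namespace Pool.Agent.Lib.H96G

open Pool.Agent.Lib.GoldbachGraph (hadj)

/-- Three base scales `Z0`, `Z1`, `Z2` and the vertices generic for all of them. -/
structure Tri (n Z0 Z1 Z2 : ℕ) (s t : ℝ) (Γ0 Γ1 Γ2 : Finset ℕ) : Prop where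
  P0 : PZ n Z0 s t Γ0
  P1 : PZ n Z1 s t Γ1
  P2 : PZ n Z2 s t Γ2
  h01 : 4 * Z0 + 3 ≤ Z1
  h12 : 4 * Z1 + 3 ≤ Z2
  h2 : 100 * Z2 ≤ n
  hn : 100 ≤ n
  hs : 20 * s ≤ n
  hst : s + 3 < t

/-- **C6.** Proof. The four cases (same or different parity, same or different divisibility by `3`): `ST`: `C1` with
`P0`. `OT`: `C2` with `Z = Z0`, `Z' = Z1` (field `al` of `P1`). Same parity, different divisibility: `C3`, for `(u, v)` or
`(v, u)` (`SimpleGraph.edist_comm`), with `Z0`, `Z1` (field `ga` of `P1`). Different parity, both divisible by `3`: `C4`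
with `Z0`, `Z1`. Different parity, none divisible: `C5` (field `al` of `P2` for `u`). -/
theorem C6 {lo n Z0 Z1 Z2 : ℕ} (hlo : lo ≤ 1) {s t : ℝ} {Γ0 Γ1 Γ2 : Finset ℕ}
    (h : Tri n Z0 Z1 Z2 s t Γ0 Γ1 Γ2)
    {u v : ℕ} (hu0 : u ∈ Γ0) (hu1 : u ∈ Γ1) (hu2 : u ∈ Γ2) (hv0 : v ∈ Γ0) (hv1 : v ∈ Γ1)
    (hv2 : v ∈ Γ2) :
    (HL lo n).edist u v ≤ 5 ∧ (u % 2 = v % 2 → (HL lo n).edist u v ≤ 4) ∧
      (OT u v → (HL lo n).edist u v ≤ 3) := by
  have hs0 : 0 ≤ s := le_trans (Nat.cast_nonneg _) h.P0.co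
  have hmem : ∀ w ∈ Γ0, w ∈ Icc lo n := by
    intro w hw
    have h1 := h.P0.al w hw
    have h2 : (0 : ℝ) < ((nb Z0 w).card : ℝ) := by
      have := h.hst
      linarith
    have h3 : 0 < (nb Z0 w).card := by exact_mod_cast h2
    obtain ⟨y, hy⟩ := card_pos.1 h3
    unfold nb at hy
    exact (c0_mem hlo (mem_filter.1 hy).1 (h.P0.sub hw)).1
  have hu := hmem u hu0
  have hv := hmem v hv0
  have a01 := h.h01
  have a12 := h.h12
  have a2 := h.h2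
  have hst := h.hst
  have nbu : s + 3 < ((nb Z1 u).card : ℝ) := lt_of_lt_of_le hst (h.P1.al u hu1)
  have nbv : s + 3 < ((nb Z1 v).card : ℝ) := lt_of_lt_of_le hst (h.P1.al v hv1)
  have h45 : (4 : ℕ∞) ≤ 5 := by norm_num
  have h35 : (3 : ℕ∞) ≤ 5 := by norm_num
  by_cases hp : u % 2 = v % 2
  · have hno : ¬ OT u v := fun h1 => h1.1 hp
    have key : (HL lo n).edist u v ≤ 4 := by
      by_cases hu3 : 3 ∣ u
      · by_cases hv3 : 3 ∣ v
        · exact C1 hlo h.P0 h.hn (by omega) h.hs hu0 hv0 ⟨hp, ⟨fun _ => hv3, fun _ => hu3⟩⟩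
        · exact C3 hlo h.P0 a01 (by omega) hu hv0 (lt_of_lt_of_le hst (h.P1.ga u hu1 hu3)) hp hu3 hv3
      · by_cases hv3 : 3 ∣ v
        · rw [SimpleGraph.edist_comm]
          exact C3 hlo h.P0 a01 (by omega) hv hu0 (lt_of_lt_of_le hst (h.P1.ga v hv1 hv3)) hp.symm hv3 hu3
        · exact C1 hlo h.P0 h.hn (by omega) h.hs hu0 hv0 ⟨hp, ⟨fun h1 => absurd h1 hu3, fun h1 => absurd h1 hv3⟩⟩
    exact ⟨key.trans h45, fun _ => key, fun h1 => absurd h1 hno⟩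
  · by_cases hOT : OT u v
    · have key : (HL lo n).edist u v ≤ 3 := C2 hlo h.P0 a01 (by omega) hu0 hv nbv hOT
      exact ⟨key.trans h35, fun h1 => absurd h1 hp, fun _ => key⟩
    · have key : (HL lo n).edist u v ≤ 5 := by
        by_cases hu3 : 3 ∣ u
        · have hv3 : 3 ∣ v := by
            by_contra h1
            exact hOT ⟨hp, ⟨fun _ => h1, fun _ => hu3⟩⟩
          exact C4 hlo h.P0 a01 (by omega) hu hv (lt_of_lt_of_le hst (h.P1.ga u hu1 hu3)) nbv hp hu3 hv3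
        · have hv3 : ¬ 3 ∣ v := by
            intro h1
            exact hOT ⟨hp, ⟨fun h2 => absurd h2 hu3, fun h2 => absurd h1 h2⟩⟩
          exact C5 hlo h.P0 h.P1 a01 a12 (by omega) hst hu hv0 (lt_of_lt_of_le hst (h.P2.al u hu2)) hp hu3 hv3
      exact ⟨key, fun h1 => absurd h1 hp, fun h1 => absurd h1 hOT⟩

end Pool.Agent.Lib.H96G
end

-- from Lib.H96G.A7
section

/-!
# Project H96G, chunk A7 (M/L): two large sets of the same type have a common neighbour of two elements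
-/

open Finset

namespace Pool.Agent.Lib.H96G

open Pool.Agent.Lib.GoldbachGraph (hadj)

theorem a7_set {n M : ℕ} {L : ℕ → ℤ → ℝ} {c B b : ℝ} (h : GIn n M L c B b) {X Z : ℕ}
    (hs : Sc n M B X Z) {A : Finset ℕ} (hA : A ⊆ Ico (2 * X) (3 * X)) (g : ℕ → ℝ) (G : ℝ)
    (hG : 0 < G) (hg : ∀ y ∈ Ico Z (2 * Z), |g y| ≤ G) :
    |∑ x ∈ A, ∑ y ∈ Ico Z (2 * Z), g y * (kp x y - km (L X) x y)| ≤ G * (n : ℝ) ^ (2 - c) := by
  classical
  have e := A0_scale h hs (fun x => if x ∈ A then 1 else 0) g 1 G one_pos hG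
    (fun x _ => by
      split_ifs
      · rw [abs_one]
      · rw [abs_zero]; exact zero_le_one) hg
  have e2 : ∑ x ∈ Ico (2 * X) (3 * X), ∑ y ∈ Ico Z (2 * Z),
      (fun x => if x ∈ A then (1 : ℝ) else 0) x * g y * (kp x y - km (L X) x y) =
      ∑ x ∈ A, ∑ y ∈ Ico Z (2 * Z), g y * (kp x y - km (L X) x y) := by
    rw [← sum_subset hA]
    · refine sum_congr rfl fun x hx => sum_congr rfl fun y _ => ?_
      dsimp only
      rw [if_pos hx, one_mul]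
    · intro x _ hx
      refine sum_eq_zero fun y _ => ?_
      dsimp only
      rw [if_neg hx, zero_mul, zero_mul]
  rw [e2, one_mul] at e
  exact e

/-- **A7.** Proof. `l = log (8n)`; `S(p,q) = ∑_{a ∈ A} ∑_{a' ∈ A'} ∑_{y} p a y * q a' y`. Suppose that there are no
such `a, a', y`; then all products `kp a y * kp a' y` vanish (`a1_kp_hadj`) and `S(kp,kp) = 0`.
(1) `A0_scale` at the scale `X` with `f = 1_A` and `g y = ∑_{a' ∈ A'} kp a' y` (`|g| ≤ |A'| l^2 ≤ n l^2`):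
`|S(kp,kp) - S(km,kp)| ≤ n l^2 n^(2-c)`.
(2) `A0_scale` at the scale `X'` with `f = 1_{A'}` and `g y = ∑_{a ∈ A} km (L X) a y` (`|g| ≤ n n^(2b)`):
`|S(km,kp) - S(km,km)| ≤ n n^(2b) n^(2-c)`.
(3) In `S(km,km)` the pairs `(a,a')` outside of the exceptional set of the field `m4` (at most `n^(2-c)` pairs;
all pairs in `A × A'` have the same type) give `≥ Z n^(-b)`, the others `≥ -Z n^(4b)` (`a1_km_abs`), so
`S(km,km) ≥ |A| |A'| Z n^(-b) - n^(2-c) Z n^(4b) - n^(2-c) Z n^(-b)`.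
With `|A|, |A'| ≥ n^(1-2B)`, `n^(1-B) ≤ Z ≤ n`: `S(km,km) ≥ n^(3-5B-b) - 2 n^(3-c+4b)`, and this is larger than
`l^2 n^(3-c) + n^(3-c+2b)` because `c ≥ 100 B`, `B ≥ 100 b`. (Sets inside `Ico (2X) (3X)` have at most `X ≤ n`
elements; `F = 1`, and `G = n l^2`, `G = n n^(2b)`, positive.) -/
theorem A7 {n M : ℕ} {L : ℕ → ℤ → ℝ} {c B b : ℝ} (hN : Nm n b) (h : GIn n M L c B b)
    {X X' Z : ℕ} (hs : Sc n M B X Z) (hs' : Sc n M B X' Z) {A A' : Finset ℕ}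
    (hA : A ⊆ Ico (2 * X) (3 * X)) (hA' : A' ⊆ Ico (2 * X') (3 * X'))
    (hST : ∀ a ∈ A, ∀ a' ∈ A', ST a a') (h1 : (n : ℝ) ^ (1 - 2 * B) ≤ A.card)
    (h2 : (n : ℝ) ^ (1 - 2 * B) ≤ A'.card) :
    ∃ a ∈ A, ∃ a' ∈ A', ∃ y ∈ Ico Z (2 * Z), hadj a y ∧ hadj a' y := by
  classical
  by_contra hcon
  push Not at hcon
  have hn1 : 1 ≤ n := hN.n_pos
  have hnp := hN.pos
  obtain ⟨l, hl⟩ : ∃ l, l = Real.log (8 * n) := ⟨_, rfl⟩
  have hl1 : 1 ≤ l := by rw [hl]; exact hN.ell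
  have hzero : ∀ a ∈ A, ∀ a' ∈ A', ∀ y ∈ Ico Z (2 * Z), kp a' y * kp a y = 0 := by
    intro a ha a' ha' y hy
    by_contra hne
    have g1 := left_ne_zero_of_mul hne
    have g2 := right_ne_zero_of_mul hne
    exact hcon a ha a' ha' y hy (a1_kp_hadj hn1 hs (hA ha) hy g2)
      (a1_kp_hadj hn1 hs' (hA' ha') hy g1)
  have hcard : ∀ {X : ℕ} {A : Finset ℕ}, Sc n M B X Z → A ⊆ Ico (2 * X) (3 * X) →
      (A.card : ℝ) ≤ n := by
    intro X A hs hA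
    have g1 := card_le_card hA
    rw [Nat.card_Ico] at g1
    have g2 := hs.hi
    exact_mod_cast (by omega : A.card ≤ n)
  have hAc := hcard hs hA
  have hAc' := hcard hs' hA'
  -- the three functions of `y`
  obtain ⟨P, hP⟩ : ∃ P : ℕ → ℝ, ∀ y, P y = ∑ a' ∈ A', kp a' y := ⟨_, fun _ => rfl⟩
  obtain ⟨Q, hQ⟩ : ∃ Q : ℕ → ℝ, ∀ y, Q y = ∑ a ∈ A, km (L X) a y := ⟨_, fun _ => rfl⟩
  obtain ⟨R, hR⟩ : ∃ R : ℕ → ℝ, ∀ y, R y = ∑ a' ∈ A', km (L X') a' y := ⟨_, fun _ => rfl⟩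
  have hPb : ∀ y ∈ Ico Z (2 * Z), |P y| ≤ n * l ^ 2 := by
    intro y hy
    rw [hP, abs_of_nonneg (sum_nonneg fun a' _ => a1_kp_nonneg a' y)]
    calc ∑ a' ∈ A', kp a' y ≤ ∑ a' ∈ A', l ^ 2 :=
          sum_le_sum fun a' ha' => by rw [hl]; exact a1_kp_le hn1 hs' (hA' ha') hy
      _ = A'.card * l ^ 2 := by rw [sum_const, nsmul_eq_mul]
      _ ≤ n * l ^ 2 := mul_le_mul_of_nonneg_right hAc' (by positivity)
  have hQb : ∀ y ∈ Ico Z (2 * Z), |Q y| ≤ n * (n : ℝ) ^ (2 * b) := by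
    intro y hy
    rw [hQ]
    calc |∑ a ∈ A, km (L X) a y| ≤ ∑ a ∈ A, |km (L X) a y| := abs_sum_le_sum_abs _ _
      _ ≤ ∑ a ∈ A, (n : ℝ) ^ (2 * b) := sum_le_sum fun a ha => a1_km_abs hN h hs (hA ha) hy
      _ = A.card * (n : ℝ) ^ (2 * b) := by rw [sum_const, nsmul_eq_mul]
      _ ≤ n * (n : ℝ) ^ (2 * b) := mul_le_mul_of_nonneg_right hAc (hN.ppos _).le
  have hG1 : 0 < (n : ℝ) * l ^ 2 := by positivity
  have hG2 : 0 < (n : ℝ) * (n : ℝ) ^ (2 * b) := mul_pos hnp (hN.ppos _)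
  have e1 := a7_set h hs hA P _ hG1 hPb
  have e2 := a7_set h hs' hA' Q _ hG2 hQb
  -- evaluation of the two sums
  have s1 : ∑ x ∈ A, ∑ y ∈ Ico Z (2 * Z), P y * (kp x y - km (L X) x y) =
      -∑ y ∈ Ico Z (2 * Z), P y * Q y := by
    rw [sum_comm, ← sum_neg_distrib]
    refine sum_congr rfl fun y hy => ?_
    rw [hQ, mul_sum, ← sum_neg_distrib]
    refine sum_congr rfl fun a ha => ?_
    have g1 : P y * kp a y = 0 := by
      rw [hP, sum_mul]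
      exact sum_eq_zero fun a' ha' => hzero a ha a' ha' y hy
    rw [mul_sub, g1, zero_sub]
  have s2 : ∑ x ∈ A', ∑ y ∈ Ico Z (2 * Z), Q y * (kp x y - km (L X') x y) =
      ∑ y ∈ Ico Z (2 * Z), P y * Q y - ∑ y ∈ Ico Z (2 * Z), Q y * R y := by
    rw [sum_comm, ← sum_sub_distrib]
    refine sum_congr rfl fun y _ => ?_
    rw [hP, hR, mul_sum, sum_mul, ← sum_sub_distrib]
    refine sum_congr rfl fun a' _ => ?_
    ring
  rw [s1, abs_neg] at e1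
  rw [s2] at e2
  have e3 : ∑ y ∈ Ico Z (2 * Z), Q y * R y ≤
      n * l ^ 2 * (n : ℝ) ^ (2 - c) + n * (n : ℝ) ^ (2 * b) * (n : ℝ) ^ (2 - c) := by
    have g1 := (abs_le.mp e1).2
    have g2 := (abs_le.mp e2).1
    linarith
  -- the sum over pairs
  obtain ⟨s, hsd⟩ : ∃ s : ℕ × ℕ → ℝ, ∀ p, s p =
      ∑ y ∈ Ico Z (2 * Z), km (L X) p.1 y * km (L X') p.2 y := ⟨_, fun _ => rfl⟩
  have s3 : ∑ y ∈ Ico Z (2 * Z), Q y * R y = ∑ p ∈ A ×ˢ A', s p := by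
    rw [sum_congr rfl fun p _ => hsd p, sum_comm]
    refine sum_congr rfl fun y _ => ?_
    rw [hQ, hR, sum_mul_sum, sum_product]
  have hZn : (Z : ℝ) ≤ n := by
    have g1 := hs.le
    have g2 := hs.hi
    exact_mod_cast (by omega : Z ≤ n)
  have hZ0 : (0 : ℝ) ≤ Z := Nat.cast_nonneg _
  have key : ∀ E : Finset (ℕ × ℕ), (∀ p, p ∈ E ↔ p ∈ Ico (2 * X) (3 * X) ×ˢ Ico (2 * X') (3 * X') ∧
      (ST p.1 p.2 ∧ ∑ y ∈ Ico Z (2 * Z), km (L X) p.1 y * km (L X') p.2 y < Z * (n : ℝ) ^ (-b))) →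
      (E.card : ℝ) ≤ (n : ℝ) ^ (2 - c) → False := by
    intro E hE hEc
    obtain ⟨W, hW⟩ : ∃ W : ℝ, W = Z * (n : ℝ) ^ (-b) + Z * (n : ℝ) ^ (4 * b) := ⟨_, rfl⟩
    have hW0 : 0 ≤ W := by
      rw [hW]
      exact add_nonneg (mul_nonneg hZ0 (hN.ppos _).le) (mul_nonneg hZ0 (hN.ppos _).le)
    have g1 : ∀ p ∈ A ×ˢ A', Z * (n : ℝ) ^ (-b) - (if p ∈ E then W else 0) ≤ s p := by
      intro p hp
      rw [mem_product] at hp
      split_ifs with hpE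
      · rw [hW, hsd]
        have g2 : |∑ y ∈ Ico Z (2 * Z), km (L X) p.1 y * km (L X') p.2 y| ≤ Z * (n : ℝ) ^ (4 * b) := by
          calc |∑ y ∈ Ico Z (2 * Z), km (L X) p.1 y * km (L X') p.2 y|
              ≤ ∑ y ∈ Ico Z (2 * Z), |km (L X) p.1 y * km (L X') p.2 y| := abs_sum_le_sum_abs _ _
            _ ≤ ∑ y ∈ Ico Z (2 * Z), (n : ℝ) ^ (4 * b) := by
                refine sum_le_sum fun y hy => ?_
                rw [abs_mul]
                calc |km (L X) p.1 y| * |km (L X') p.2 y| ≤ (n : ℝ) ^ (2 * b) * (n : ℝ) ^ (2 * b) :=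
                      mul_le_mul (a1_km_abs hN h hs (hA hp.1) hy) (a1_km_abs hN h hs' (hA' hp.2) hy)
                        (abs_nonneg _) (hN.ppos _).le
                  _ = (n : ℝ) ^ (4 * b) := by rw [hN.mul]; congr 1; ring
            _ = Z * (n : ℝ) ^ (4 * b) := by
                rw [sum_const, nsmul_eq_mul, Nat.card_Ico]
                congr 2
                omega
        have g3 := (abs_le.mp g2).1
        linarith
      · rw [sub_zero]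
        by_contra hlt
        push Not at hlt
        apply hpE
        rw [hE]
        refine ⟨mem_product.mpr ⟨hA hp.1, hA' hp.2⟩, hST p.1 hp.1 p.2 hp.2, ?_⟩
        rw [← hsd]
        exact hlt
    have g2 := sum_le_sum g1
    rw [sum_sub_distrib, sum_const, card_product, nsmul_eq_mul] at g2
    have g3 : ∑ p ∈ A ×ˢ A', (if p ∈ E then W else 0) ≤ (n : ℝ) ^ (2 - c) * W := by
      rw [← sum_filter, sum_const, nsmul_eq_mul]
      refine mul_le_mul_of_nonneg_right (le_trans ?_ hEc) hW0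
      exact_mod_cast card_le_card fun p hp => (mem_filter.mp hp).2
    have g4 : (n : ℝ) ^ (3 - 5 * B - b) ≤ ((A.card * A'.card : ℕ) : ℝ) * (Z * (n : ℝ) ^ (-b)) := by
      push_cast
      calc (n : ℝ) ^ (3 - 5 * B - b) =
            ((n : ℝ) ^ (1 - 2 * B) * (n : ℝ) ^ (1 - 2 * B)) * ((n : ℝ) ^ (1 - B) * (n : ℝ) ^ (-b)) := by
            rw [hN.mul, hN.mul, hN.mul]
            congr 1
            ring
        _ ≤ ((A.card : ℝ) * A'.card) * (Z * (n : ℝ) ^ (-b)) := by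
            refine mul_le_mul (mul_le_mul h1 h2 (hN.ppos _).le (Nat.cast_nonneg _))
              (mul_le_mul_of_nonneg_right hs.lo (hN.ppos _).le)
              (mul_nonneg (hN.ppos _).le (hN.ppos _).le) (by positivity)
    have g5 : (n : ℝ) ^ (2 - c) * W ≤ (n : ℝ) ^ (3 - c - b) + (n : ℝ) ^ (3 - c + 4 * b) := by
      rw [hW, mul_add]
      have g6 : ∀ t : ℝ, (n : ℝ) ^ (2 - c) * (Z * (n : ℝ) ^ t) ≤ (n : ℝ) ^ (3 - c + t) := by
        intro t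
        calc (n : ℝ) ^ (2 - c) * (Z * (n : ℝ) ^ t) ≤ (n : ℝ) ^ (2 - c) * ((n : ℝ) ^ (1 : ℝ) * (n : ℝ) ^ t) := by
              refine mul_le_mul_of_nonneg_left (mul_le_mul_of_nonneg_right ?_ (hN.ppos _).le) (hN.ppos _).le
              rw [Real.rpow_one]
              exact hZn
          _ = (n : ℝ) ^ (3 - c + t) := by
              rw [hN.mul, hN.mul]
              congr 1
              ring
      have g7 := g6 (-b)
      have g8 := g6 (4 * b)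
      rw [← sub_eq_add_neg] at g7
      linarith
    have hbB := h.hb
    have hBc := h.hB
    have hb0 := h.b_pos
    have k1 : 8 * (n : ℝ) ^ (3 - c - b) ≤ (n : ℝ) ^ (3 - 5 * B - b) :=
      hN.cst (by norm_num) (by linarith)
    have k2 : 8 * (n : ℝ) ^ (3 - c + 4 * b) ≤ (n : ℝ) ^ (3 - 5 * B - b) :=
      hN.cst (by norm_num) (by linarith)
    have k3 : 8 * l ^ 2 * (n : ℝ) ^ (3 - c) ≤ (n : ℝ) ^ (3 - 5 * B - b) := by
      rw [hl]
      exact hN.lg (by norm_num) (by norm_num) (by linarith)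
    have k4 : 8 * (n : ℝ) ^ (3 - c + 2 * b) ≤ (n : ℝ) ^ (3 - 5 * B - b) :=
      hN.cst (by norm_num) (by linarith)
    have k5 : (n : ℝ) * l ^ 2 * (n : ℝ) ^ (2 - c) = l ^ 2 * (n : ℝ) ^ (3 - c) := by
      have : (n : ℝ) ^ (3 - c) = (n : ℝ) ^ (1 : ℝ) * (n : ℝ) ^ (2 - c) := by
        rw [hN.mul]
        congr 1
        ring
      rw [this, Real.rpow_one]
      ring
    have k6 : (n : ℝ) * (n : ℝ) ^ (2 * b) * (n : ℝ) ^ (2 - c) = (n : ℝ) ^ (3 - c + 2 * b) := by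
      have : (n : ℝ) ^ (3 - c + 2 * b) = (n : ℝ) ^ (1 : ℝ) * (n : ℝ) ^ (2 * b) * (n : ℝ) ^ (2 - c) := by
        rw [hN.mul, hN.mul]
        congr 1
        ring
      rw [this, Real.rpow_one]
    have k7 := hN.ppos (3 - 5 * B - b)
    rw [s3, k5, k6] at e3
    linarith
  refine key _ (fun p => mem_filter) (h.m4 X X' Z hs hs')

end Pool.Agent.Lib.H96G
end

-- from Lib.H96G.D1
section

/-!
# Project H96G, chunk D1 (M): rich vertices of the same type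
-/

open Finset

namespace Pool.Agent.Lib.H96G

open Pool.Agent.Lib.GoldbachGraph (hadj)

/-- The number of neighbours of `u` in `[4Z, n]`. -/
def rh (n Z u : ℕ) : ℕ := ((Icc (4 * Z) n).filter fun y => hadj u y).card

/-- Proof. `S` from `B1` (`8 M ≤ Z` as in `B2`). The neighbours `a ∈ Icc (4Z) n` of `u` with `OT u a` are at least
`n^(1-3B/2) - 3` (`c0_exc`) and covered by the intervals `Ico (2X) (3X)`, `X ∈ S`, `|S| ≤ 5 log (8n)`: one of them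
contains at least `(n^(1-3B/2) - 3)/(5 log (8n)) ≥ n^(1-2B)` of them (`Nm.lg`, `Nm.cst`). -/
theorem D1_pigeon {n M : ℕ} {L : ℕ → ℤ → ℝ} {c B b : ℝ} (hN : Nm n b) (h : GIn n M L c B b)
    {Z : ℕ} (hZ : M ∣ Z) (hlo : (n : ℝ) ^ (1 - B) ≤ Z) {u : ℕ}
    (hu : (n : ℝ) ^ (1 - 3 * B / 2) ≤ rh n Z u) :
    ∃ X : ℕ, Sc n M B X Z ∧ ∃ A ⊆ Ico (2 * X) (3 * X), (n : ℝ) ^ (1 - 2 * B) ≤ A.card ∧
      ∀ a ∈ A, a ∈ Icc (4 * Z) n ∧ hadj u a ∧ OT u a := by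
  have hb := h.b_pos
  have hbB := h.hb
  have hBc := h.hB
  have hc := h.hc
  have h8 : 8 * M ≤ Z := by
    have h1 : (8 : ℝ) * (n : ℝ) ^ (1 / 2 : ℝ) ≤ (n : ℝ) ^ (1 - B) := hN.cst (by norm_num) (by linarith)
    have h2 := h.Mn
    have h3 : (8 : ℝ) * M ≤ Z := by linarith
    exact_mod_cast h3
  obtain ⟨S, hS, hcard, hcov⟩ := B1 n M Z h.M1 hZ h8
  classical
  set N : Finset ℕ := (Icc (4 * Z) n).filter fun y => hadj u y ∧ OT u y with hNdef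
  have hone : (1 : ℝ) ≤ (n : ℝ) ^ (1 - 2 * B) := by
    have := hN.mono (x := 0) (y := 1 - 2 * B) (by linarith)
    rwa [Real.rpow_zero] at this
  have hNcard : (n : ℝ) ^ (1 - 3 * B / 2) - 3 ≤ N.card := by
    have h1 : (Icc (4 * Z) n).filter (fun y => hadj u y) ⊆ N ∪ (Icc (4 * Z) n).filter (fun y => hadj u y ∧ ¬ OT u y) := by
      intro y hy
      rw [mem_filter] at hy
      by_cases h2 : OT u y
      · exact mem_union_left _ (mem_filter.2 ⟨hy.1, hy.2, h2⟩)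
      · exact mem_union_right _ (mem_filter.2 ⟨hy.1, hy.2, h2⟩)
    have h2 : ((Icc (4 * Z) n).filter fun y => hadj u y ∧ ¬ OT u y).card ≤ 3 := by
      have h3 := c0_exc u (Icc (4 * Z) n)
      refine le_trans (le_of_eq ?_) h3
      congr 1
    have h3 := (card_le_card h1).trans (card_union_le _ _)
    have h4 : rh n Z u ≤ N.card + 3 := by
      unfold rh
      omega
    have h5 : (rh n Z u : ℝ) ≤ N.card + 3 := by exact_mod_cast h4
    linarith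
  by_contra hcon
  push Not at hcon
  have hsmall : ∀ X ∈ S, ((N.filter fun y => y ∈ Ico (2 * X) (3 * X)).card : ℝ) ≤ (n : ℝ) ^ (1 - 2 * B) := by
    intro X hX
    by_contra h0
    push Not at h0
    obtain ⟨h1, h2, h3⟩ := hS X hX
    obtain ⟨a, ha, hna⟩ := hcon X ⟨h1, hZ, hlo, h2, h3⟩ (N.filter fun y => y ∈ Ico (2 * X) (3 * X))
      (fun y hy => (mem_filter.1 hy).2) h0.le
    have h4 := mem_filter.1 (mem_filter.1 ha).1
    exact hna h4.1 h4.2.1 h4.2.2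
  have hsub : N ⊆ S.biUnion fun X => N.filter fun y => y ∈ Ico (2 * X) (3 * X) := by
    intro y hy
    have h1 := mem_Icc.1 (mem_filter.1 hy).1
    obtain ⟨X, hX, hyX⟩ := hcov y h1.1 h1.2
    exact mem_biUnion.2 ⟨X, hX, mem_filter.2 ⟨hy, hyX⟩⟩
  have h1 : (N.card : ℝ) ≤ ∑ X ∈ S, ((N.filter fun y => y ∈ Ico (2 * X) (3 * X)).card : ℝ) := by
    have := (card_le_card hsub).trans card_biUnion_le
    exact_mod_cast this
  have h2 : ∑ X ∈ S, ((N.filter fun y => y ∈ Ico (2 * X) (3 * X)).card : ℝ) ≤ S.card * (n : ℝ) ^ (1 - 2 * B) := by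
    refine (sum_le_sum hsmall).trans ?_
    rw [sum_const, nsmul_eq_mul]
  have h3 : (S.card : ℝ) * (n : ℝ) ^ (1 - 2 * B) ≤ 5 * Real.log (8 * n) * (n : ℝ) ^ (1 - 2 * B) :=
    mul_le_mul_of_nonneg_right hcard (by linarith)
  have h4 : (9 : ℝ) * (Real.log (8 * n)) ^ 1 * (n : ℝ) ^ (1 - 2 * B) ≤ (n : ℝ) ^ (1 - 3 * B / 2) :=
    hN.lg (by norm_num) (by norm_num) (by linarith)
  rw [pow_one] at h4
  have h5 : (1 : ℝ) ≤ Real.log (8 * n) * (n : ℝ) ^ (1 - 2 * B) := one_le_mul_of_one_le_of_one_le hN.ell hone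
  linarith

/-- Composition of types. -/
theorem d1_type {a u v a' : ℕ} (h1 : OT u a) (h2 : ST u v) (h3 : OT v a') : ST a a' := by
  unfold OT at h1 h3
  unfold ST at h2 ⊢
  refine ⟨by omega, ?_⟩
  obtain ⟨-, h1⟩ := h1
  obtain ⟨-, h2⟩ := h2
  obtain ⟨-, h3⟩ := h3
  tauto

/-- **D1.** Proof. `D1_pigeon` for `u` and `v`; all pairs in `A × A'` have the same type (`c0_OT_OT` etc.: `OT u a`,
`ST u v`, `OT v a'`). `A7` gives `a`, `a'` with a common neighbour `y ∈ [Z, 2Z)`: `u ~ a ~ y ~ a' ~ v`. -/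
theorem D1 {lo n M : ℕ} (hlo1 : lo ≤ 1) {L : ℕ → ℤ → ℝ} {c B b : ℝ} (hN : Nm n b) (h : GIn n M L c B b)
    {Z : ℕ} (hZ : M ∣ Z) (hlo : (n : ℝ) ^ (1 - B) ≤ Z) {u v : ℕ} (hu1 : u ∈ Icc lo n)
    (hv1 : v ∈ Icc lo n) (hu : (n : ℝ) ^ (1 - 3 * B / 2) ≤ rh n Z u)
    (hv : (n : ℝ) ^ (1 - 3 * B / 2) ≤ rh n Z v) (hST : ST u v) : (HL lo n).edist u v ≤ 4 := by
  obtain ⟨X, hX, A, hA, hAc, hAp⟩ := D1_pigeon hN h hZ hlo hu
  obtain ⟨X', hX', A', hA', hAc', hAp'⟩ := D1_pigeon hN h hZ hlo hv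
  obtain ⟨a, ha, a', ha', y, hy, h1, h2⟩ := A7 hN h hX hX' hA hA'
    (fun a ha a' ha' => d1_type (hAp a ha).2.2 hST (hAp' a' ha').2.2) hAc hAc'
  obtain ⟨ha1, ha2, -⟩ := hAp a ha
  obtain ⟨ha1', ha2', -⟩ := hAp' a' ha'
  obtain ⟨ha3, hy3⟩ := c0_mem hlo1 hy ha1
  obtain ⟨ha3', -⟩ := c0_mem hlo1 hy ha1'
  have h3 : (HL lo n).edist u y ≤ 2 :=
    c0_two ha2 ((GoldbachGraph.hadj_comm _ _).1 h1) hu1 ha3 hy3
  have h4 : (HL lo n).edist y v ≤ 2 :=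
    c0_two ((GoldbachGraph.hadj_comm _ _).1 h2) ha2' hy3 ha3' hv1
  exact c0_tri h3 h4 (by norm_num)

end Pool.Agent.Lib.H96G
end

-- from Lib.H96G.D2
section

/-!
# Project H96G, chunk D2 (M): the base scales
-/

open Finset

namespace Pool.Agent.Lib.H96G

/-- Proof. Directly. -/
theorem D2_mono {n Z : ℕ} {s t t' : ℝ} {Γ : Finset ℕ} (h : PZ n Z s t Γ) (ht : t' ≤ t) :
    PZ n Z s t' Γ :=
  ⟨h.sub, h.co, fun u hu => ht.trans (h.al u hu), h.be, fun u hu h3 => ht.trans (h.ga u hu h3)⟩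

/-- Proof. `Z = M * ⌈n^(1-e)/M⌉₊`: `n^(1-e) ≤ Z ≤ n^(1-e) + M`, `M ≤ n^(1/2) ≤ n^(1-e)`. -/
theorem D2_Z {n M : ℕ} {L : ℕ → ℤ → ℝ} {c B b : ℝ} (hN : Nm n b) (h : GIn n M L c B b)
    (e : ℝ) (he : e ≤ 1 / 2) :
    ∃ Z : ℕ, M ∣ Z ∧ (n : ℝ) ^ (1 - e) ≤ Z ∧ (Z : ℝ) ≤ 2 * (n : ℝ) ^ (1 - e) := by
  have hM : (0 : ℝ) < M := by exact_mod_cast h.M1
  have hp := hN.ppos (1 - e)
  refine ⟨M * ⌈(n : ℝ) ^ (1 - e) / M⌉₊, Dvd.intro _ rfl, ?_, ?_⟩
  · have h1 := Nat.le_ceil ((n : ℝ) ^ (1 - e) / M)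
    rw [div_le_iff₀ hM] at h1
    push_cast
    linarith
  · have h1 := Nat.ceil_lt_add_one (a := (n : ℝ) ^ (1 - e) / M) (by positivity)
    push_cast
    have h2 : (M : ℝ) * ((⌈(n : ℝ) ^ (1 - e) / M⌉₊ : ℕ) : ℝ) ≤ M * ((n : ℝ) ^ (1 - e) / M + 1) :=
      mul_le_mul_of_nonneg_left h1.le hM.le
    have h3 : (M : ℝ) * ((n : ℝ) ^ (1 - e) / M + 1) = (n : ℝ) ^ (1 - e) + M := by
      field_simp
    have h4 : (n : ℝ) ^ (1 / 2 : ℝ) ≤ (n : ℝ) ^ (1 - e) := hN.mono (by linarith)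
    have h5 := h.Mn
    linarith

/-- **D2.** Proof. `Z0` from `D2_Z` with `e = B`, `Z1 = 8 Z0`, `Z2 = 64 Z0` (`Z0 ≥ 1`); `B2` for the three of them, with
`s = n^(1-c/2+3B)`, and `t = n^(1-B-4b) ≤ Z n^(-4b)` (`D2_mono`). `100 Z2 ≤ 12800 n^(1-B) ≤ n`, `100 ≤ n`,
`20 s ≤ n`, `s + 3 < t` by `Nm.cst` (`c ≥ 100 B`, `B ≥ 100 b`, `c ≤ 1`). -/
theorem D2 {n M : ℕ} {L : ℕ → ℤ → ℝ} {c B b : ℝ} (hN : Nm n b) (h : GIn n M L c B b) :
    ∃ (Z0 Z1 Z2 : ℕ) (Γ0 Γ1 Γ2 : Finset ℕ), M ∣ Z0 ∧ (n : ℝ) ^ (1 - B) ≤ Z0 ∧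
      (Z0 : ℝ) ≤ 2 * (n : ℝ) ^ (1 - B) ∧ Z2 = 64 * Z0 ∧
      Tri n Z0 Z1 Z2 ((n : ℝ) ^ (1 - c / 2 + 3 * B)) ((n : ℝ) ^ (1 - B - 4 * b)) Γ0 Γ1 Γ2 := by
  have hb := h.b_pos
  have hbB := h.hb
  have hBc := h.hB
  have hc := h.hc
  obtain ⟨Z, hMZ, hlo, hhi⟩ := D2_Z hN h B (by linarith)
  have hZ1 : 1 ≤ Z := by
    by_contra h0
    have h1 : Z = 0 := by omega
    rw [h1] at hlo
    have := hN.ppos (1 - B)
    push_cast at hlo
    linarith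
  have hZR : (1 : ℝ) ≤ Z := by exact_mod_cast hZ1
  have key : ∀ W : ℕ, M ∣ W → Z ≤ W → ∃ Γ : Finset ℕ, PZ n W ((n : ℝ) ^ (1 - c / 2 + 3 * B)) ((n : ℝ) ^ (1 - B - 4 * b)) Γ := by
    intro W hMW hZW
    have hZW' : (Z : ℝ) ≤ W := by exact_mod_cast hZW
    obtain ⟨Γ, hΓ⟩ := B2 hN h hMW (hlo.trans hZW')
    refine ⟨Γ, D2_mono hΓ ?_⟩
    have h1 : (n : ℝ) ^ (1 - B - 4 * b) = (n : ℝ) ^ (1 - B) * (n : ℝ) ^ (-(4 * b)) := by
      rw [hN.mul]
      congr 1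
    rw [h1]
    exact mul_le_mul_of_nonneg_right (hlo.trans hZW') (hN.ppos _).le
  obtain ⟨Γ0, h0⟩ := key Z hMZ le_rfl
  obtain ⟨Γ1, h1⟩ := key (8 * Z) (Dvd.dvd.mul_left hMZ 8) (by omega)
  obtain ⟨Γ2, h2⟩ := key (64 * Z) (Dvd.dvd.mul_left hMZ 64) (by omega)
  refine ⟨Z, 8 * Z, 64 * Z, Γ0, Γ1, Γ2, hMZ, hlo, hhi, rfl, ⟨h0, h1, h2, by omega, by omega, ?_, ?_, ?_, ?_⟩⟩
  · have h3 : (12800 : ℝ) * (n : ℝ) ^ (1 - B) ≤ (n : ℝ) ^ (1 : ℝ) := hN.cst (by norm_num) (by linarith)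
    rw [Real.rpow_one] at h3
    have h4 : (100 : ℝ) * (64 * (Z : ℝ)) ≤ n := by linarith
    exact_mod_cast h4
  · have h3 : (100 : ℝ) * (n : ℝ) ^ (0 : ℝ) ≤ (n : ℝ) ^ (1 : ℝ) := hN.cst (by norm_num) (by linarith)
    rw [Real.rpow_one, Real.rpow_zero, mul_one] at h3
    exact_mod_cast h3
  · have h3 : (20 : ℝ) * (n : ℝ) ^ (1 - c / 2 + 3 * B) ≤ (n : ℝ) ^ (1 : ℝ) := hN.cst (by norm_num) (by linarith)
    rw [Real.rpow_one] at h3
    exact h3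
  · have h3 : (5 : ℝ) * (n : ℝ) ^ (1 - c / 2 + 3 * B) ≤ (n : ℝ) ^ (1 - B - 4 * b) := hN.cst (by norm_num) (by linarith)
    have h4 : (n : ℝ) ^ (0 : ℝ) ≤ (n : ℝ) ^ (1 - c / 2 + 3 * B) := hN.mono (by linarith)
    rw [Real.rpow_zero] at h4
    linarith

end Pool.Agent.Lib.H96G
end

-- from Lib.H96G.E0
section

/-!
# Project H96G, chunk E0 (M): rich vertices
-/

open Finset

namespace Pool.Agent.Lib.H96G

open Pool.Agent.Lib.GoldbachGraph (hadj hdeg hadj_comm)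


/-- The vertices outside of `Γ0 ∩ Γ1 ∩ Γ2`. Proof. Such a `u ∈ Icc 1 n` is `< 4 Z2`, or in one of the sets
`Icc (4 Z_i) n \ Γ_i` (fields `co`; `Z0 ≤ Z1 ≤ Z2`). -/
theorem E0_co {n Z0 Z1 Z2 : ℕ} {s t : ℝ} {Γ0 Γ1 Γ2 : Finset ℕ} (h : Tri n Z0 Z1 Z2 s t Γ0 Γ1 Γ2) :
    ((Icc 1 n \ (Γ0 ∩ Γ1 ∩ Γ2)).card : ℝ) ≤ 4 * Z2 + 3 * s := by
  have hsub : Icc 1 n \ (Γ0 ∩ Γ1 ∩ Γ2) ⊆ range (4 * Z2) ∪ ((Icc (4 * Z0) n \ Γ0) ∪
      ((Icc (4 * Z1) n \ Γ1) ∪ (Icc (4 * Z2) n \ Γ2))) := by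
    intro u hu
    rw [mem_sdiff, mem_Icc, mem_inter, mem_inter] at hu
    obtain ⟨⟨h1, h2⟩, h3⟩ := hu
    have h01 := h.h01
    have h12 := h.h12
    simp only [mem_union, mem_range, mem_sdiff, mem_Icc]
    by_cases h4 : u < 4 * Z2
    · exact Or.inl h4
    · right
      by_cases h5 : u ∈ Γ0
      · by_cases h6 : u ∈ Γ1
        · refine Or.inr (Or.inr ⟨by omega, fun h7 => h3 ⟨⟨h5, h6⟩, h7⟩⟩)
        · exact Or.inr (Or.inl ⟨by omega, h6⟩)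
      · exact Or.inl ⟨by omega, h5⟩
  have h1 := card_le_card hsub
  have h2 := card_union_le (range (4 * Z2)) ((Icc (4 * Z0) n \ Γ0) ∪ ((Icc (4 * Z1) n \ Γ1) ∪ (Icc (4 * Z2) n \ Γ2)))
  have h3 := card_union_le (Icc (4 * Z0) n \ Γ0) ((Icc (4 * Z1) n \ Γ1) ∪ (Icc (4 * Z2) n \ Γ2))
  have h4 := card_union_le (Icc (4 * Z1) n \ Γ1) (Icc (4 * Z2) n \ Γ2)
  rw [card_range] at h2
  have h5 : (Icc 1 n \ (Γ0 ∩ Γ1 ∩ Γ2)).card ≤ 4 * Z2 + ((Icc (4 * Z0) n \ Γ0).card + ((Icc (4 * Z1) n \ Γ1).card +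
      (Icc (4 * Z2) n \ Γ2).card)) := by omega
  have h6 : ((Icc 1 n \ (Γ0 ∩ Γ1 ∩ Γ2)).card : ℝ) ≤ 4 * Z2 + (((Icc (4 * Z0) n \ Γ0).card : ℝ) + (((Icc (4 * Z1) n \ Γ1).card : ℝ) +
      ((Icc (4 * Z2) n \ Γ2).card : ℝ))) := by exact_mod_cast h5
  linarith [h.P0.co, h.P1.co, h.P2.co]

/-- Proof. `hdeg n u > 4 Z2 + 3 s + 3`: remove from the neighbours of `u` in `Icc 1 n` those outside of
`Γ0 ∩ Γ1 ∩ Γ2` (`E0_co`) and the at most `3` which are not of opposite type (`c0_exc`). -/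
theorem E0_step {n Z0 Z1 Z2 : ℕ} {s t : ℝ} {Γ0 Γ1 Γ2 : Finset ℕ} (h : Tri n Z0 Z1 Z2 s t Γ0 Γ1 Γ2)
    {u : ℕ} (hu : 4 * (Z2 : ℝ) + 3 * s + 3 < hdeg n u) :
    ∃ u' ∈ Γ0 ∩ Γ1 ∩ Γ2, hadj u u' ∧ OT u u' := by
  classical
  by_contra hcon
  push Not at hcon
  have hsub : ((Icc 1 n).filter fun y => hadj u y) ⊆ (Icc 1 n \ (Γ0 ∩ Γ1 ∩ Γ2)) ∪
      ((Icc 1 n).filter fun y => hadj u y ∧ ¬ OT u y) := by
    intro y hy
    rw [mem_filter] at hy
    rw [mem_union, mem_sdiff, mem_filter]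
    by_cases h1 : y ∈ Γ0 ∩ Γ1 ∩ Γ2
    · exact Or.inr ⟨hy.1, hy.2, hcon y h1 hy.2⟩
    · exact Or.inl ⟨hy.1, h1⟩
  have h1 := (card_le_card hsub).trans (card_union_le _ _)
  have h2 := c0_exc u (Icc 1 n)
  have h3 : hdeg n u ≤ (Icc 1 n \ (Γ0 ∩ Γ1 ∩ Γ2)).card + 3 := by
    unfold hdeg
    omega
  have h4 : (hdeg n u : ℝ) ≤ ((Icc 1 n \ (Γ0 ∩ Γ1 ∩ Γ2)).card : ℝ) + 3 := by exact_mod_cast h3
  linarith [E0_co h]

/-- Proof. At most `4 Z` neighbours are in `Icc 1 (4Z - 1)`. -/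
theorem E0_rh (n Z u : ℕ) : (hdeg n u : ℝ) - 4 * Z ≤ rh n Z u := by
  have hsub : ((Icc 1 n).filter fun y => hadj u y) ⊆ range (4 * Z) ∪ ((Icc (4 * Z) n).filter fun y => hadj u y) := by
    intro y hy
    rw [mem_filter, mem_Icc] at hy
    rw [mem_union, mem_range, mem_filter, mem_Icc]
    by_cases h1 : y < 4 * Z
    · exact Or.inl h1
    · exact Or.inr ⟨⟨by omega, hy.1.2⟩, hy.2⟩
  have h1 := (card_le_card hsub).trans (card_union_le _ _)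
  rw [card_range] at h1
  have h2 : hdeg n u ≤ 4 * Z + rh n Z u := h1
  have h3 : (hdeg n u : ℝ) ≤ 4 * Z + rh n Z u := by exact_mod_cast h2
  linarith

/-- **E0.** Proof. `u' ∈ Γ0 ∩ Γ1 ∩ Γ2` has `rh n Z0 u' ≥ (nb Z2 u').card ≥ t ≥ t'` (`[Z2, 2 Z2) ⊆ Icc (4 Z0) n`, field `al`
of `P2`); `u`, `v` have `rh ≥ hdeg - 4 Z0 ≥ t'` (`E0_rh`). `ST u v`: `hsame`. `OT u v`: `u ~ u'` (`E0_step`), `ST u' v`,
`hsame`: `1 + 4`. Same parity: `u ~ u'`, `v ~ v'`, `u'`, `v'` have the same parity, `C6`: `1 + 4 + 1`. General case: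
`1 + 5 + 1`. (`Γ0 ∩ Γ1 ∩ Γ2 ⊆ Icc lo n` as `lo ≤ 1`, `Z0 ≥ 1` because `nb Z0 u'` is not empty: `t > s + 3 ≥ 3`.) -/
theorem E0 {lo n Z0 Z1 Z2 : ℕ} (hlo : lo ≤ 1) {s t : ℝ} {Γ0 Γ1 Γ2 : Finset ℕ}
    (h : Tri n Z0 Z1 Z2 s t Γ0 Γ1 Γ2) {t' r : ℝ}
    (hsame : ∀ u ∈ Icc lo n, ∀ v ∈ Icc lo n, ST u v → t' ≤ rh n Z0 u → t' ≤ rh n Z0 v →
      (HL lo n).edist u v ≤ 4) (htt : t' ≤ t) (hr : 4 * (Z2 : ℝ) + 3 * s + 3 < r)
    (hr' : t' + 4 * Z0 ≤ r) {u v : ℕ} (hu : u ∈ Icc lo n) (hv : v ∈ Icc lo n)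
    (hdu : r ≤ hdeg n u) (hdv : r ≤ hdeg n v) :
    (HL lo n).edist u v ≤ 7 ∧ (u % 2 = v % 2 → (HL lo n).edist u v ≤ 6) ∧
      (OT u v → (HL lo n).edist u v ≤ 5) ∧ (ST u v → (HL lo n).edist u v ≤ 4) := by
  have hs0 : 0 ≤ s := le_trans (Nat.cast_nonneg _) h.P0.co
  have hst := h.hst
  have h01 := h.h01
  have h12 := h.h12
  have h2 := h.h2
  have hrich : ∀ w : ℕ, r ≤ hdeg n w → t' ≤ rh n Z0 w := by
    intro w hw
    have := E0_rh n Z0 w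
    linarith
  have hgen : ∀ w ∈ Γ0 ∩ Γ1 ∩ Γ2, w ∈ Icc lo n ∧ t' ≤ rh n Z0 w := by
    intro w hw
    rw [mem_inter, mem_inter] at hw
    obtain ⟨⟨hw0, hw1⟩, hw2⟩ := hw
    constructor
    · have h3 := h.P0.al w hw0
      have h4 : (0 : ℝ) < (nb Z0 w).card := by linarith
      have h5 : 0 < (nb Z0 w).card := by exact_mod_cast h4
      obtain ⟨y, hy⟩ := card_pos.1 h5
      unfold nb at hy
      rw [mem_filter] at hy
      exact (c0_mem hlo hy.1 (h.P0.sub hw0)).1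
    · have h3 := h.P2.al w hw2
      have h4 : (nb Z2 w).card ≤ rh n Z0 w := by
        unfold nb rh
        apply card_le_card
        intro y hy
        rw [mem_filter, mem_Ico] at hy
        rw [mem_filter, mem_Icc]
        exact ⟨by omega, hy.2⟩
      have h5 : ((nb Z2 w).card : ℝ) ≤ rh n Z0 w := by exact_mod_cast h4
      linarith
  obtain ⟨u', hu', hau, hOu⟩ := E0_step h (u := u) (by linarith)
  obtain ⟨v', hv', hav, hOv⟩ := E0_step h (u := v) (by linarith)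
  have hgu := hgen u' hu'
  have hgv := hgen v' hv'
  rw [mem_inter, mem_inter] at hu' hv'
  have hC := C6 hlo h hu'.1.1 hu'.1.2 hu'.2 hv'.1.1 hv'.1.2 hv'.2
  have e1 : (HL lo n).edist u u' ≤ 1 := c0_one hau hu hgu.1
  have e2 : (HL lo n).edist v' v ≤ 1 := c0_one ((hadj_comm _ _).1 hav) hgv.1 hv
  refine ⟨?_, ?_, ?_, ?_⟩
  · have e3 : (HL lo n).edist u v' ≤ 6 := c0_tri (i := 1) (j := 5) (k := 6) e1 hC.1 (by norm_num)
    exact c0_tri (i := 6) (j := 1) (k := 7) e3 e2 (by norm_num)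
  · intro hpar
    have hpar' : u' % 2 = v' % 2 := by
      have h5 := hOu.1
      have h6 := hOv.1
      omega
    have e3 : (HL lo n).edist u v' ≤ 5 := c0_tri (i := 1) (j := 4) (k := 5) e1 (hC.2.1 hpar') (by norm_num)
    exact c0_tri (i := 5) (j := 1) (k := 6) e3 e2 (by norm_num)
  · intro hO
    have hS : ST u' v := c0_OT_OT (c0_OT_symm hOu) hO
    have e3 := hsame u' hgu.1 v hv hS hgu.2 (hrich v hdv)
    exact c0_tri (i := 1) (j := 4) (k := 5) e1 e3 (by norm_num)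
  · intro hS
    exact hsame u hu v hv hS (hrich u hdu) (hrich v hdv)

end Pool.Agent.Lib.H96G
end

-- from Lib.H96G.E1
section

/-!
# Project H96G, chunk E1 (M): conclusion in the halved graph
-/

open Finset

namespace Pool.Agent.Lib.H96G

open Pool.Agent.Lib.GoldbachGraph (hadj hdeg)


/-- The conclusion in the halved graph: exceptional set `n^(1-B/10)`, degrees of the generic vertices at least
`n^(1-17B/100)`, rich vertices have degree at least `n^(1-B/5)`. -/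
def GOut (lo n : ℕ) (B : ℝ) : Prop :=
  (∃ Γ : Finset ℕ, Γ ⊆ Icc 1 n ∧ (n : ℝ) - (n : ℝ) ^ (1 - B / 10) ≤ Γ.card ∧
    (∀ u ∈ Γ, (n : ℝ) ^ (1 - 17 * B / 100) ≤ hdeg n u) ∧
    ∀ u ∈ Γ, ∀ v ∈ Γ, (HL lo n).edist u v ≤ 5 ∧ (u % 2 = v % 2 → (HL lo n).edist u v ≤ 4) ∧
      (OT u v → (HL lo n).edist u v ≤ 3)) ∧
  ∀ u ∈ Icc lo n, ∀ v ∈ Icc lo n, (n : ℝ) ^ (1 - B / 5) ≤ hdeg n u →
    (n : ℝ) ^ (1 - B / 5) ≤ hdeg n v →
    (HL lo n).edist u v ≤ 7 ∧ (u % 2 = v % 2 → (HL lo n).edist u v ≤ 6) ∧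
      (OT u v → (HL lo n).edist u v ≤ 5) ∧ (ST u v → (HL lo n).edist u v ≤ 4)

/-- **E1.** Proof. `D2`; `Z3` from `D2_Z` with `e = B/8`, `Γ3` from `B2` (`n^(1-B) ≤ n^(1-B/8)`);
`Γ = Γ0 ∩ Γ1 ∩ Γ2 ∩ Γ3`. Complement: `E0_co` and the one of `Γ3` (`4 Z3 + s`):
`4 Z2 + 4 s + 4 Z3 ≤ 512 n^(1-B) + 4 n^(1-c/2+3B) + 8 n^(1-B/8) ≤ n^(1-B/10)`. Degrees: for `u ∈ Γ3` the elements of
`nb Z3 u` are neighbours in `Icc 1 n` (`Z3 ≥ 1`, `4 Z3 ≤ u ≤ n`): `hdeg n u ≥ Z3 n^(-4b) ≥ n^(1-B/8-4b) ≥ n^(1-17B/100)`.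
Distances in `Γ`: `C6`. Rich vertices: `E0` with `t' = n^(1-3B/2)`, `r = n^(1-B/5)`, `hsame` = `D1` for `Z0`;
`htt`: `1 - 3B/2 ≤ 1 - B - 4b`; `hr`: `512 n^(1-B) + 3 n^(1-c/2+3B) + 3 < n^(1-B/5)`; `hr'`:
`n^(1-3B/2) + 8 n^(1-B) ≤ n^(1-B/5)` (`Nm.cst`; `b/2 ≤ B/200`). -/
theorem E1 {lo n M : ℕ} (hlo : lo ≤ 1) {L : ℕ → ℤ → ℝ} {c B b : ℝ} (hN : Nm n b)
    (h : GIn n M L c B b) : GOut lo n B := by
  have hb := h.b_pos
  have hbB := h.hb
  have hBc := h.hB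
  have hc := h.hc
  obtain ⟨Z0, Z1, Z2, Γ0, Γ1, Γ2, hM0, hlo0, hhi0, hZ2, hT⟩ := D2 hN h
  obtain ⟨Z3, hM3, hlo3, hhi3⟩ := D2_Z hN h (B / 8) (by linarith)
  have hm3 : (n : ℝ) ^ (1 - B) ≤ (n : ℝ) ^ (1 - B / 8) := hN.mono (by linarith)
  obtain ⟨Γ3, hΓ3⟩ := B2 hN h hM3 (hm3.trans hlo3)
  have hp1 := hN.ppos (1 - B)
  have hZ3 : 1 ≤ Z3 := by
    by_contra h0
    have h1 : Z3 = 0 := by omega
    rw [h1] at hlo3
    push_cast at hlo3
    linarith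
  have hs1 : (n : ℝ) ^ (1 - c / 2 + 3 * B) ≤ (n : ℝ) ^ (1 - B) := hN.mono (by linarith)
  have hZ2R : (Z2 : ℝ) = 64 * Z0 := by rw [hZ2]; push_cast; ring
  have hone : (1 : ℝ) ≤ (n : ℝ) ^ (1 - B) := by
    have := hN.mono (x := 0) (y := 1 - B) (by linarith)
    rwa [Real.rpow_zero] at this
  refine ⟨⟨Γ0 ∩ Γ1 ∩ Γ2 ∩ Γ3, ?_, ?_, ?_, ?_⟩, ?_⟩
  · intro u hu
    have h1 := hΓ3.sub (mem_inter.1 hu).2
    rw [mem_Icc] at h1 ⊢
    omega
  · have h1 : Icc 1 n ⊆ (Γ0 ∩ Γ1 ∩ Γ2 ∩ Γ3) ∪ ((Icc 1 n \ (Γ0 ∩ Γ1 ∩ Γ2)) ∪ (Icc 1 (4 * Z3) ∪ (Icc (4 * Z3) n \ Γ3))) := by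
      intro u hu
      by_cases h2 : u ∈ Γ0 ∩ Γ1 ∩ Γ2
      · by_cases h3 : u ∈ Γ3
        · exact mem_union_left _ (mem_inter.2 ⟨h2, h3⟩)
        · refine mem_union_right _ (mem_union_right _ ?_)
          rw [mem_Icc] at hu
          by_cases h4 : u ≤ 4 * Z3
          · exact mem_union_left _ (mem_Icc.2 ⟨hu.1, h4⟩)
          · exact mem_union_right _ (mem_sdiff.2 ⟨mem_Icc.2 ⟨by omega, hu.2⟩, h3⟩)
      · exact mem_union_right _ (mem_union_left _ (mem_sdiff.2 ⟨hu, h2⟩))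
    have h2 := card_le_card h1
    have h3 := h2.trans ((card_union_le _ _).trans (Nat.add_le_add_left ((card_union_le _ _).trans (Nat.add_le_add_left (card_union_le _ _) _)) _))
    rw [Nat.card_Icc, Nat.card_Icc] at h3
    have h4 : (n : ℝ) ≤ (Γ0 ∩ Γ1 ∩ Γ2 ∩ Γ3).card + (((Icc 1 n \ (Γ0 ∩ Γ1 ∩ Γ2)).card : ℝ) + (4 * Z3 + ((Icc (4 * Z3) n \ Γ3).card : ℝ))) := by
      have h5 : n + 1 - 1 = n := by omega
      have h6 : 4 * Z3 + 1 - 1 = 4 * Z3 := by omega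
      rw [h5, h6] at h3
      exact_mod_cast h3
    have h5 := E0_co hT
    have h6 := hΓ3.co
    have h7 : (524 : ℝ) * (n : ℝ) ^ (1 - B / 8) ≤ (n : ℝ) ^ (1 - B / 10) := hN.cst (by norm_num) (by linarith)
    linarith
  · intro u hu
    have hu3 := (mem_inter.1 hu).2
    have h1 := hΓ3.al u hu3
    have h2 : (nb Z3 u).card ≤ hdeg n u := by
      unfold nb hdeg
      refine card_le_card fun y hy => ?_
      rw [mem_filter, mem_Ico] at hy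
      have h3 := hΓ3.sub hu3
      rw [mem_Icc] at h3
      rw [mem_filter, mem_Icc]
      exact ⟨⟨by omega, by omega⟩, hy.2⟩
    have h2' : ((nb Z3 u).card : ℝ) ≤ hdeg n u := by exact_mod_cast h2
    have h3 : (n : ℝ) ^ (1 - B / 8) * (n : ℝ) ^ (-(4 * b)) ≤ (Z3 : ℝ) * (n : ℝ) ^ (-(4 * b)) :=
      mul_le_mul_of_nonneg_right hlo3 (hN.ppos _).le
    rw [hN.mul] at h3
    have h4 : (n : ℝ) ^ (1 - 17 * B / 100) ≤ (n : ℝ) ^ (1 - B / 8 + -(4 * b)) := hN.mono (by linarith)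
    linarith
  · intro u hu v hv
    have hu' := mem_inter.1 (mem_inter.1 hu).1
    have hv' := mem_inter.1 (mem_inter.1 hv).1
    have hu'' := mem_inter.1 hu'.1
    have hv'' := mem_inter.1 hv'.1
    exact C6 hlo hT hu''.1 hu''.2 hu'.2 hv''.1 hv''.2 hv'.2
  · intro u hu v hv hdu hdv
    refine E0 hlo hT (t' := (n : ℝ) ^ (1 - 3 * B / 2)) (r := (n : ℝ) ^ (1 - B / 5)) ?_ ?_ ?_ ?_ hu hv hdu hdv
    · intro u hu v hv hST hru hrv
      exact D1 hlo hN h hM0 hlo0 hu hv hru hrv hST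
    · exact hN.mono (by linarith)
    · have h7 : (519 : ℝ) * (n : ℝ) ^ (1 - B) ≤ (n : ℝ) ^ (1 - B / 5) := hN.cst (by norm_num) (by linarith)
      linarith
    · have h7 : (9 : ℝ) * (n : ℝ) ^ (1 - B) ≤ (n : ℝ) ^ (1 - B / 5) := hN.cst (by norm_num) (by linarith)
      have h8 : (n : ℝ) ^ (1 - 3 * B / 2) ≤ (n : ℝ) ^ (1 - B) := hN.mono (by linarith)
      linarith

end Pool.Agent.Lib.H96G
end
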