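import Pool.Agent.Lib.H1M.RV3.M002
import Pool.Agent.Lib.H1M.RV3.M008
import Pool.Agent.Lib.H1M.RV3.M019
import Pool.Agent.Lib.H1M.RV3.M028
import Pool.Agent.Lib.H1M.RV3.M042

/-! Merged copies (to shorten the build) of Lib.H18E.SS3, Lib.H18E.PG2, Lib.H18E.ML, Lib.H18Q.CC1, Lib.H18Q.CF, Lib.H59T.G1, Lib.H59T.G5, Lib.H18Q.HM, Lib.H18Q.MB. -/

-- from Lib.H18E.SS3
section

/-!
# Chunk SS3: the mean of Rankin's factor
-/

open Finset Pool.Agent.Lib.H68T

namespace Pool.Agent.Lib.H18E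

theorem SS3_g0 (p : ℕ) (hp : 2 ≤ p) : 0 ≤ Real.sqrt p / ((p : ℝ) - 1) := by
  have : (2 : ℝ) ≤ p := by exact_mod_cast hp
  exact div_nonneg (Real.sqrt_nonneg _) (by linarith)

theorem SS3_g1 (p : ℕ) (hp : 2 ≤ p) :
    Real.sqrt p / ((p : ℝ) - 1) / p ≤ 2 * (p : ℝ) ^ (-(3 / 2) : ℝ) := by
  have h2 : (2 : ℝ) ≤ p := by exact_mod_cast hp
  have hp0 : (0 : ℝ) < p := by linarith
  have e : (p : ℝ) ^ (-(3 / 2) : ℝ) = Real.sqrt p / (p : ℝ) ^ 2 := by
    rw [Real.sqrt_eq_rpow, eq_div_iff (by positivity), ← Real.rpow_natCast,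
      ← Real.rpow_add hp0]
    norm_num
  rw [e, div_div]
  have hs : 0 ≤ Real.sqrt p := Real.sqrt_nonneg _
  rw [← mul_div_assoc, div_le_div_iff₀ (by nlinarith) (by positivity)]
  nlinarith [mul_nonneg hs (mul_nonneg hp0.le (by linarith : (0 : ℝ) ≤ p - 2))]

theorem SS3_count (n : ℕ) (S : Finset ℕ) (hS : ∀ p ∈ S, p.Prime) :
    (((Icc 1 n).filter (fun x => S ⊆ x.primeFactors)).card : ℝ) ≤ n * ∏ p ∈ S, (1 / (p : ℝ)) := by
  have h1 : ((Icc 1 n).filter (fun x => S ⊆ x.primeFactors)) ⊆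
      (Ioc 0 n).filter (fun x => (∏ p ∈ S, p) ∣ x) := by
    intro x hx
    rw [mem_filter, mem_Icc] at hx
    rw [mem_filter, mem_Ioc]
    refine ⟨⟨by omega, hx.1.2⟩, ?_⟩
    exact Finset.prod_primes_dvd x (fun p hp => (hS p hp).prime)
      (fun p hp => Nat.dvd_of_mem_primeFactors (hx.2 hp))
  have h2 := card_le_card h1
  rw [Nat.Ioc_filter_dvd_card_eq_div] at h2
  have h3 : (((Icc 1 n).filter (fun x => S ⊆ x.primeFactors)).card : ℝ) ≤
      ((n / (∏ p ∈ S, p) : ℕ) : ℝ) := by exact_mod_cast h2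
  refine h3.trans ?_
  refine (Nat.cast_div_le).trans ?_
  rw [div_eq_mul_inv]
  push_cast
  rw [← Finset.prod_inv_distrib]
  simp only [one_div]
  exact le_refl _

theorem SS3_mean (n : ℕ) : ∑ x ∈ Icc 1 n, ∏ p ∈ x.primeFactors,
    (1 + Real.sqrt p / ((p : ℝ) - 1)) ≤
    n * ∏ p ∈ (Icc 1 n).filter Nat.Prime, (1 + Real.sqrt p / ((p : ℝ) - 1) / p) := by
  set P := (Icc 1 n).filter Nat.Prime with hP
  have h1 : ∀ x ∈ Icc 1 n, ∏ p ∈ x.primeFactors, (1 + Real.sqrt p / ((p : ℝ) - 1)) =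
      ∑ S ∈ P.powerset, if S ⊆ x.primeFactors then ∏ p ∈ S, Real.sqrt p / ((p : ℝ) - 1) else 0 := by
    intro x hx
    rw [mem_Icc] at hx
    rw [Finset.prod_one_add, ← Finset.sum_filter]
    apply Finset.sum_congr _ (fun _ _ => rfl)
    ext S
    simp only [mem_powerset, mem_filter]
    constructor
    · intro h
      refine ⟨fun p hp => ?_, h⟩
      have h3 := h hp
      rw [Nat.mem_primeFactors] at h3
      rw [hP, mem_filter, mem_Icc]
      have := Nat.le_of_dvd (by omega) h3.2.1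
      exact ⟨⟨h3.1.one_lt.le, by omega⟩, h3.1⟩
    · exact fun h => h.2
  rw [Finset.sum_congr rfl h1, Finset.sum_comm]
  rw [Finset.prod_one_add, Finset.mul_sum]
  apply Finset.sum_le_sum
  intro S hS
  rw [mem_powerset] at hS
  have hSp : ∀ p ∈ S, p.Prime := fun p hp => (mem_filter.1 (hS hp)).2
  rw [← Finset.sum_filter, Finset.sum_const, nsmul_eq_mul]
  have h4 := SS3_count n S hSp
  have h5 : 0 ≤ ∏ p ∈ S, Real.sqrt p / ((p : ℝ) - 1) :=
    Finset.prod_nonneg (fun p hp => SS3_g0 p (hSp p hp).two_le)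
  calc _ ≤ (n * ∏ p ∈ S, (1 / (p : ℝ))) * ∏ p ∈ S, Real.sqrt p / ((p : ℝ) - 1) :=
        mul_le_mul_of_nonneg_right h4 h5
    _ = n * ∏ p ∈ S, (Real.sqrt p / ((p : ℝ) - 1) / p) := by
        rw [mul_assoc, ← Finset.prod_mul_distrib]
        congr 1
        apply Finset.prod_congr rfl
        intro p hp
        ring

theorem SS3_prod : ∃ C : ℝ, 0 ≤ C ∧ ∀ n : ℕ,
    ∏ p ∈ (Icc 1 n).filter Nat.Prime, (1 + Real.sqrt p / ((p : ℝ) - 1) / p) ≤ C := by
  have hs : Summable (fun m : ℕ => 2 * (m : ℝ) ^ (-(3 / 2) : ℝ)) :=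
    (Real.summable_nat_rpow.2 (by norm_num)).mul_left 2
  refine ⟨Real.exp (∑' m : ℕ, 2 * (m : ℝ) ^ (-(3 / 2) : ℝ)), (Real.exp_pos _).le, fun n => ?_⟩
  calc ∏ p ∈ (Icc 1 n).filter Nat.Prime, (1 + Real.sqrt p / ((p : ℝ) - 1) / p)
      ≤ ∏ p ∈ (Icc 1 n).filter Nat.Prime, Real.exp (2 * (p : ℝ) ^ (-(3 / 2) : ℝ)) := by
        apply Finset.prod_le_prod
        · intro p hp
          have := SS3_g0 p (mem_filter.1 hp).2.two_le
          positivity
        · intro p hp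
          have h1 := SS3_g1 p (mem_filter.1 hp).2.two_le
          have h2 := Real.add_one_le_exp (2 * (p : ℝ) ^ (-(3 / 2) : ℝ))
          linarith
    _ = Real.exp (∑ p ∈ (Icc 1 n).filter Nat.Prime, 2 * (p : ℝ) ^ (-(3 / 2) : ℝ)) := by
        rw [Real.exp_sum]
    _ ≤ _ := by
        apply Real.exp_le_exp.2
        exact hs.sum_le_tsum _ (fun m _ => by positivity)

/-- `Rk (2 x) ≤ (1 + √2) ∏_{p ∣ x} (1 + g(p))`, `g(p) = √p/(p-1)`, and
`∏_{p ∣ x} (1 + g(p)) = ∑_{d ∣ x, squarefree} g(d)` (`Finset.prod_one_add`; `g(d) = ∏_{p ∣ d} g(p)`), so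
`∑_{x ≤ n} ≤ n ∑_{d ≤ n} g(d)/d ≤ n ∏_{p ≤ n} (1 + g(p)/p) ≤ C n`, since
`g(p)/p ≤ 2 p^(-3/2)`. -/
theorem rk_mean : ∃ C : ℝ, 1 ≤ C ∧ ∀ n : ℕ, ∑ x ∈ Icc 1 n, Rk (2 * (x : ℤ)) ≤ C * n := by
  obtain ⟨C, hC0, hC⟩ := SS3_prod
  refine ⟨max 1 (3 * C), le_max_left _ _, fun n => ?_⟩
  have h1 : ∀ x ∈ Icc 1 n, Rk (2 * (x : ℤ)) ≤
      3 * ∏ p ∈ x.primeFactors, (1 + Real.sqrt p / ((p : ℝ) - 1)) := by
    intro x hx
    rw [mem_Icc] at hx
    have hab : (2 * (x : ℤ)).natAbs = 2 * x := by omega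
    unfold Rk
    rw [hab]
    have hsub : (2 * x).primeFactors ⊆ insert 2 x.primeFactors := by
      rw [Nat.primeFactors_mul (by norm_num) (by omega), Nat.Prime.primeFactors Nat.prime_two]
      intro p hp
      simpa using hp
    have hge : ∀ p ∈ insert 2 x.primeFactors, 1 ≤ 1 + Real.sqrt p / ((p : ℝ) - 1) := by
      intro p hp
      rw [mem_insert] at hp
      have h2 : 2 ≤ p := by
        rcases hp with h | h
        · omega
        · exact (Nat.prime_of_mem_primeFactors h).two_le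
      linarith [SS3_g0 p h2]
    have hge' : ∀ p ∈ x.primeFactors, 1 ≤ 1 + Real.sqrt p / ((p : ℝ) - 1) :=
      fun p hp => hge p (mem_insert_of_mem hp)
    have h3 : ∏ p ∈ (2 * x).primeFactors, (1 + Real.sqrt p / ((p : ℝ) - 1)) ≤
        ∏ p ∈ insert 2 x.primeFactors, (1 + Real.sqrt p / ((p : ℝ) - 1)) := by
      exact Finset.prod_le_prod_of_subset_of_one_le hsub (fun p hp => by linarith [hge p (hsub hp)])
        (fun p hp _ => hge p hp)
    refine h3.trans ?_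
    have hpos : 0 ≤ ∏ p ∈ x.primeFactors, (1 + Real.sqrt p / ((p : ℝ) - 1)) :=
      Finset.prod_nonneg (fun p hp => by linarith [hge' p hp])
    by_cases h2 : 2 ∈ x.primeFactors
    · rw [Finset.insert_eq_of_mem h2]
      linarith
    · rw [Finset.prod_insert h2]
      apply mul_le_mul_of_nonneg_right _ hpos
      have : Real.sqrt 2 ≤ 2 := by
        rw [Real.sqrt_le_left (by norm_num)]; norm_num
      norm_num
      linarith
  calc ∑ x ∈ Icc 1 n, Rk (2 * (x : ℤ)) ≤ ∑ x ∈ Icc 1 n,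
        3 * ∏ p ∈ x.primeFactors, (1 + Real.sqrt p / ((p : ℝ) - 1)) := Finset.sum_le_sum h1
    _ = 3 * ∑ x ∈ Icc 1 n, ∏ p ∈ x.primeFactors, (1 + Real.sqrt p / ((p : ℝ) - 1)) := by
        rw [Finset.mul_sum]
    _ ≤ 3 * (n * C) := by
        apply mul_le_mul_of_nonneg_left _ (by norm_num)
        exact (SS3_mean n).trans (mul_le_mul_of_nonneg_left (hC n) (Nat.cast_nonneg n))
    _ = (3 * C) * n := by ring
    _ ≤ _ := mul_le_mul_of_nonneg_right (le_max_right _ _) (Nat.cast_nonneg n)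

/-- `Gp W D ≥ 1`, `Rk D ≥ 1`. -/
theorem one_le_Gp (W : ℕ) (D : ℤ) : 1 ≤ Gp W D := by
  unfold Gp
  apply Finset.one_le_prod
  intro p hp
  have h2 := (Nat.prime_of_mem_primeFactors (mem_filter.1 hp).1).two_le
  have h3 : (2 : ℝ) ≤ p := by exact_mod_cast h2
  have h4 : 0 ≤ 1 / ((p : ℝ) - 1) := div_nonneg zero_le_one (by linarith)
  linarith

theorem one_le_Rk (D : ℤ) : 1 ≤ Rk D := by
  unfold Rk
  apply Finset.one_le_prod
  intro p hp
  have h2 := (Nat.prime_of_mem_primeFactors hp).two_le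
  linarith [SS3_g0 p h2]


end Pool.Agent.Lib.H18E
end

-- from Lib.H18E.PG2
section

/-!
# Chunk PG2: weighted correlations
-/

open Finset Pool.Agent.Lib.H68T

namespace Pool.Agent.Lib.H18E

/-- Copy of `pair_general` (file `H68X/XPAIR.lean`) with arbitrary starting points; use `corr_gen`
instead of `cg1_corr`. -/
theorem pair_gen (Q N W : ℕ) (hW : 0 < W) (x y : ℤ)
    (A A' : ℕ → ℕ → ℝ) (D : ℝ) (hD : 0 ≤ D) (hA0 : ∀ q c, 0 ≤ A q c) (hAD : ∀ q c, A q c ≤ D)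
    (hA0' : ∀ q c, 0 ≤ A' q c) (hAD' : ∀ q c, A' q c ≤ D)
    (hA : ∀ q, Antitone (A q) ∨ Monotone (A q)) (hA' : ∀ q, Antitone (A' q) ∨ Monotone (A' q)) :
    |(∑ c ∈ range N,
        (∑ q ∈ QW Q W, (ArithmeticFunction.moebius q : ℝ) / (Nat.totient q : ℝ) *
          cq q (x + W * (c : ℕ)) * A q c) *
        (∑ q ∈ QW Q W, (ArithmeticFunction.moebius q : ℝ) / (Nat.totient q : ℝ) *
          cq q (y + W * (c : ℕ)) * A' q c)) -
      ∑ q ∈ QW Q W, ((ArithmeticFunction.moebius q : ℝ) / (Nat.totient q : ℝ)) ^ 2 *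
        cq q (x - y) * ∑ c ∈ range N, A q c * A' q c| ≤ 2 * D ^ 2 * (Q : ℝ) ^ 6 := by
  set α : ℕ → ℝ := fun q => (ArithmeticFunction.moebius q : ℝ) / (Nat.totient q : ℝ) with hα
  set xx : ℕ → ℕ → ℕ → ℝ := fun q₁ q₂ c =>
    cq q₁ (x + W * (c : ℕ)) * cq q₂ (y + W * (c : ℕ)) -
      (if q₁ = q₂ then cq q₁ (x - y) else 0) with hx
  have hmain : (∑ c ∈ range N,
        (∑ q ∈ QW Q W, α q * cq q (x + W * (c : ℕ)) * A q c) *
        (∑ q ∈ QW Q W, α q * cq q (y + W * (c : ℕ)) * A' q c)) -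
      ∑ q ∈ QW Q W, (α q) ^ 2 * cq q (x - y) * ∑ c ∈ range N, A q c * A' q c =
      ∑ q₁ ∈ QW Q W, ∑ q₂ ∈ QW Q W, α q₁ * α q₂ *
        ∑ c ∈ range N, A' q₂ c * (A q₁ c * xx q₁ q₂ c) := by
    have h1 : (∑ c ∈ range N,
        (∑ q ∈ QW Q W, α q * cq q (x + W * (c : ℕ)) * A q c) *
        (∑ q ∈ QW Q W, α q * cq q (y + W * (c : ℕ)) * A' q c)) =
        ∑ q₁ ∈ QW Q W, ∑ q₂ ∈ QW Q W, α q₁ * α q₂ *
        ∑ c ∈ range N, A' q₂ c * (A q₁ c *
          (cq q₁ (x + W * (c : ℕ)) * cq q₂ (y + W * (c : ℕ)))) := by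
      have h2 : ∀ c ∈ range N,
        (∑ q ∈ QW Q W, α q * cq q (x + W * (c : ℕ)) * A q c) *
        (∑ q ∈ QW Q W, α q * cq q (y + W * (c : ℕ)) * A' q c) =
        ∑ q₁ ∈ QW Q W, ∑ q₂ ∈ QW Q W, α q₁ * α q₂ *
          (A' q₂ c * (A q₁ c *
          (cq q₁ (x + W * (c : ℕ)) * cq q₂ (y + W * (c : ℕ))))) := by
        intro c _
        rw [sum_mul_sum]
        apply sum_congr rfl
        intro q₁ _
        apply sum_congr rfl
        intro q₂ _
        ring
      rw [sum_congr rfl h2, sum_comm]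
      apply sum_congr rfl
      intro q₁ _
      rw [sum_comm]
      apply sum_congr rfl
      intro q₂ _
      rw [mul_sum]
    have h3 : ∑ q ∈ QW Q W, (α q) ^ 2 * cq q (x - y) * ∑ c ∈ range N, A q c * A' q c =
        ∑ q₁ ∈ QW Q W, ∑ q₂ ∈ QW Q W, α q₁ * α q₂ *
        ∑ c ∈ range N, A' q₂ c * (A q₁ c * (if q₁ = q₂ then cq q₁ (x - y) else 0)) := by
      apply sum_congr rfl
      intro q₁ hq₁
      symm
      refine (sum_eq_single q₁ ?_ ?_).trans ?_
      · intro q₂ _ hne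
        rw [if_neg (Ne.symm hne)]
        simp
      · intro h
        exact absurd hq₁ h
      · rw [if_pos rfl, mul_sum, mul_sum]
        apply sum_congr rfl
        intro c _
        ring
    rw [h1, h3, ← sum_sub_distrib]
    apply sum_congr rfl
    intro q₁ _
    rw [← sum_sub_distrib]
    apply sum_congr rfl
    intro q₂ _
    rw [← mul_sub, ← sum_sub_distrib]
    congr 1
    apply sum_congr rfl
    intro c _
    rw [hx]
    ring
  rw [hmain]
  rcases Nat.lt_or_ge Q 2 with hQ | hQ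
  · have hzero : ∑ q₁ ∈ QW Q W, ∑ q₂ ∈ QW Q W, α q₁ * α q₂ *
        ∑ c ∈ range N, A' q₂ c * (A q₁ c * xx q₁ q₂ c) = 0 := by
      apply sum_eq_zero
      intro q₁ hq₁
      apply sum_eq_zero
      intro q₂ hq₂
      have h1 := XPAIR_mem hq₁
      have h2 := XPAIR_mem hq₂
      have e1 : q₁ = 1 := by omega
      have e2 : q₂ = 1 := by omega
      rw [e1, e2]
      have : ∑ c ∈ range N, A' 1 c * (A 1 c * xx 1 1 c) = 0 := by
        apply sum_eq_zero
        intro c _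
        rw [hx]
        simp [XPAIR_cq_one]
      rw [this, mul_zero]
    rw [hzero, abs_zero]
    positivity
  have hterm : ∀ q₁ ∈ QW Q W, ∀ q₂ ∈ QW Q W,
      |α q₁ * α q₂ * ∑ c ∈ range N, A' q₂ c * (A q₁ c * xx q₁ q₂ c)| ≤
      4 * D ^ 2 * ((|α q₁| * ∑ d ∈ q₁.divisors, (d : ℝ)) *
        (|α q₂| * ∑ d ∈ q₂.divisors, (d : ℝ))) := by
    intro q₁ hq₁ q₂ hq₂
    have h1 := XPAIR_mem hq₁
    have h2 := XPAIR_mem hq₂
    have h3 := XPAIR_two N (A q₁) (A' q₂) (xx q₁ q₂) D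
      ((∑ d ∈ q₁.divisors, (d : ℝ)) * ∑ d ∈ q₂.divisors, (d : ℝ)) hD (fun N' _ => ?_)
      (hA0 q₁) (hAD q₁) (hA q₁) (hA0' q₂) (hAD' q₂) (hA' q₂)
    · rw [abs_mul, abs_mul]
      calc |α q₁| * |α q₂| * |∑ c ∈ range N, A' q₂ c * (A q₁ c * xx q₁ q₂ c)|
          ≤ |α q₁| * |α q₂| * (4 * D ^ 2 * ((∑ d ∈ q₁.divisors, (d : ℝ)) *
            ∑ d ∈ q₂.divisors, (d : ℝ))) := mul_le_mul_of_nonneg_left h3 (by positivity)
        _ = _ := by ring
    · have h4 := corr_gen q₁ q₂ W N' x y h1.1 h2.1 h1.2.1 h2.2.1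
      have h5 : ∑ c ∈ range N', xx q₁ q₂ c = ∑ c ∈ range N', cq q₁ (x + W * (c : ℕ)) *
          cq q₂ (y + W * (c : ℕ)) -
          N' * (if q₁ = q₂ then cq q₁ (x - y) else 0) := by
        rw [hx]
        simp only
        rw [sum_sub_distrib, sum_const, card_range, nsmul_eq_mul]
      rw [h5]
      exact h4
  set Y : ℕ → ℝ := fun q => |α q| * ∑ d ∈ q.divisors, (d : ℝ) with hY
  have hS : ∑ q ∈ QW Q W, Y q ≤ (Q : ℝ) ^ 2 := XPAIR_sum_le Q W
  have hS0 : 0 ≤ ∑ q ∈ QW Q W, Y q := by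
    apply sum_nonneg
    intro q _
    rw [hY]
    positivity
  have hQ2 : (2 : ℝ) ≤ Q := by exact_mod_cast hQ
  calc |∑ q₁ ∈ QW Q W, ∑ q₂ ∈ QW Q W, α q₁ * α q₂ *
        ∑ c ∈ range N, A' q₂ c * (A q₁ c * xx q₁ q₂ c)|
      ≤ ∑ q₁ ∈ QW Q W, ∑ q₂ ∈ QW Q W, 4 * D ^ 2 * (Y q₁ * Y q₂) :=
        (abs_sum_le_sum_abs _ _).trans (sum_le_sum fun q₁ hq₁ =>
          (abs_sum_le_sum_abs _ _).trans (sum_le_sum fun q₂ hq₂ => hterm q₁ hq₁ q₂ hq₂))
    _ = 4 * D ^ 2 * ((∑ q ∈ QW Q W, Y q) * (∑ q ∈ QW Q W, Y q)) := by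
        rw [sum_mul_sum, mul_sum]
        apply sum_congr rfl
        intro q₁ _
        rw [mul_sum]
    _ ≤ 4 * D ^ 2 * ((Q : ℝ) ^ 2 * (Q : ℝ) ^ 2) := by
        apply mul_le_mul_of_nonneg_left _ (by positivity)
        exact mul_le_mul hS hS hS0 (by positivity)
    _ ≤ 2 * D ^ 2 * (Q : ℝ) ^ 6 := by
        have h6 : (4 : ℝ) ≤ (Q : ℝ) ^ 2 := by nlinarith
        have h7 : 0 ≤ D ^ 2 * (Q : ℝ) ^ 4 := by positivity
        nlinarith

end Pool.Agent.Lib.H18E
end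

-- from Lib.H18E.ML
section

/-!
# Chunk ML: lower bound for the correlations of the model
-/

open Finset Pool.Agent.Lib.H68T

namespace Pool.Agent.Lib.H18E

/-- The weight `|x + W c|^(β-1)` along the class, constant for `c ≥ H - 1`. -/
noncomputable def ml_w (H W : ℕ) (x : ℤ) (β : ℝ) (c : ℕ) : ℝ :=
  |((x + W * (min c (H - 1) : ℕ) : ℤ) : ℝ)| ^ (β - 1)

theorem ml_one_le {H W : ℕ} {x : ℤ} (hH : 1 ≤ H) (hW : 0 < W) (hx : 1 ≤ x ∨ x + W * H ≤ 0)
    (c : ℕ) : (1 : ℝ) ≤ |((x + W * (min c (H - 1) : ℕ) : ℤ) : ℝ)| := by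
  have hc : min c (H - 1) ≤ H - 1 := min_le_right _ _
  set k := min c (H - 1) with hk
  have hW' : (0 : ℤ) < W := by exact_mod_cast hW
  have hk0 : (0 : ℤ) ≤ (W : ℤ) * k := by positivity
  have hk1 : (W : ℤ) * k + W ≤ W * H := by
    have : W * (k + 1) ≤ W * H := Nat.mul_le_mul_left _ (by omega)
    have h3 : ((W * (k + 1) : ℕ) : ℤ) ≤ ((W * H : ℕ) : ℤ) := by exact_mod_cast this
    push_cast at h3
    linarith
  rw [← Int.cast_abs]
  have : (1 : ℤ) ≤ |x + W * (k : ℕ)| := by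
    rcases hx with hx | hx
    · rw [abs_of_pos (by linarith)]
      linarith
    · rw [abs_of_neg (by linarith)]
      linarith
  exact_mod_cast this

theorem ml_w_nonneg (H W : ℕ) (x : ℤ) (β : ℝ) (c : ℕ) : 0 ≤ ml_w H W x β c := by
  unfold ml_w
  positivity

theorem ml_w_le {H W : ℕ} {x : ℤ} {β : ℝ} (hH : 1 ≤ H) (hW : 0 < W)
    (hx : 1 ≤ x ∨ x + W * H ≤ 0) (hβ1 : β ≤ 1) (c : ℕ) : ml_w H W x β c ≤ 1 := by
  unfold ml_w
  exact Real.rpow_le_one_of_one_le_of_nonpos (ml_one_le hH hW hx c) (by linarith)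

theorem ml_w_mono {H W : ℕ} {x : ℤ} {β : ℝ} (hH : 1 ≤ H) (hW : 0 < W)
    (hx : 1 ≤ x ∨ x + W * H ≤ 0) (hβ1 : β ≤ 1) :
    Antitone (ml_w H W x β) ∨ Monotone (ml_w H W x β) := by
  have hW' : (0 : ℤ) < W := by exact_mod_cast hW
  have key : ∀ c c' : ℕ, c ≤ c' → (W : ℤ) * (min c (H - 1) : ℕ) ≤ W * (min c' (H - 1) : ℕ) := by
    intro c c' h
    have : min c (H - 1) ≤ min c' (H - 1) := min_le_min_right _ h
    have h2 : ((min c (H - 1) : ℕ) : ℤ) ≤ ((min c' (H - 1) : ℕ) : ℤ) := by exact_mod_cast this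
    nlinarith
  have hb : ∀ c : ℕ, (0 : ℤ) ≤ (W : ℤ) * (min c (H - 1) : ℕ) ∧
      (W : ℤ) * (min c (H - 1) : ℕ) + W ≤ W * H := by
    intro c
    refine ⟨by positivity, ?_⟩
    have h1 : min c (H - 1) ≤ H - 1 := min_le_right _ _
    have : W * (min c (H - 1) + 1) ≤ W * H := Nat.mul_le_mul_left _ (by omega)
    have h3 : ((W * (min c (H - 1) + 1) : ℕ) : ℤ) ≤ ((W * H : ℕ) : ℤ) := by exact_mod_cast this
    push_cast at h3 ⊢
    linarith
  rcases hx with hx | hx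
  · left
    intro c c' h
    unfold ml_w
    apply Real.rpow_le_rpow_of_nonpos
    · exact lt_of_lt_of_le one_pos (ml_one_le hH hW (Or.inl hx) c)
    · rw [← Int.cast_abs, ← Int.cast_abs]
      have h1 := key c c' h
      have h2 := hb c
      have h3 := hb c'
      have : |x + W * (min c (H - 1) : ℕ)| ≤ |x + W * (min c' (H - 1) : ℕ)| := by
        rw [abs_of_pos (by linarith [h2.1]), abs_of_pos (by linarith [h3.1])]
        linarith
      exact_mod_cast this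
    · linarith
  · right
    intro c c' h
    unfold ml_w
    apply Real.rpow_le_rpow_of_nonpos
    · exact lt_of_lt_of_le one_pos (ml_one_le hH hW (Or.inr hx) c')
    · rw [← Int.cast_abs, ← Int.cast_abs]
      have h1 := key c c' h
      have h2 := hb c
      have h3 := hb c'
      have : |x + W * (min c' (H - 1) : ℕ)| ≤ |x + W * (min c (H - 1) : ℕ)| := by
        rw [abs_of_neg (by linarith [h3.2]), abs_of_neg (by linarith [h2.2])]
        linarith
      exact_mod_cast this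
    · linarith

/-- The weighted expansion. -/
noncomputable def ml_S (Q W : ℕ) (x : ℤ) (A : ℕ → ℕ → ℝ) (c : ℕ) : ℝ :=
  ∑ q ∈ QW Q W, (ArithmeticFunction.moebius q : ℝ) / (Nat.totient q : ℝ) *
    cq q (x + W * (c : ℕ)) * A q c

theorem ml_MM_eq (Q H W r : ℕ) (x : ℤ) (c : ℕ) (β ε : ℝ) (hW : 0 < W) (hr : r ∣ W)
    (hx : IsCoprime x (W : ℤ)) (hc : c < H) :
    MM Q r ε β (x + W * (c : ℕ)) =
      ml_S Q W x (fun q _ => TW Q W q) c -
        ε * ml_S Q W x (fun q c => ml_w H W x β c * TWr Q W r q) c := by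
  have hm : IsCoprime (x + W * (c : ℕ)) (W : ℤ) := hx.add_mul_left_left _
  unfold MM ml_S
  rw [G_coprime Q W hW _ hm, Gam_coprime Q W r hW hr _ hm, mul_sum, mul_sum]
  congr 1
  apply sum_congr rfl
  intro q _
  have hc' : |((x + W * (c : ℕ) : ℤ) : ℝ)| ^ (β - 1) = ml_w H W x β c := by
    unfold ml_w
    have : min c (H - 1) = c := by omega
    rw [this]
  rw [hc']
  ring

/-- Lower bound version of `x_pair` (file `H68X/XCG.lean`), for two starting points `x`, `y`.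

All `m = x + W c`, `m' = y + W c`, `c < H`, are coprime to `W`, nonzero; `|m|` is increasing in `c`
and `|m'|` is increasing (if `1 ≤ y`) or decreasing (if `y + W H ≤ 0`). By `G_coprime`, `Gam_coprime`
(`XG1.lean`) `MM(m) = ∑_{q ∈ QW Q W} (μ(q)/φ(q)) c_q(m) (A q c - ε B q c)`, `A q c = TW Q W q`,
`B q c = |m|^(β-1) TWr Q W r q`, all in `[0, W/φ(W)]`, monotone in `c` (extend the weights monotonically
outside `c < H`, e.g. replace `c` by `min c (H - 1)`); similarly `m'`. Expand the product into four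
correlations, apply `pair_gen` to each (`D = W/φ(W)`): up to `8 D² Q^6 ≤ Q^9` the sum is
`∑_q (μ(q)/φ(q))² c_q(x-y) ∑_c (A - ε B)(A' - ε' B')`. For `q² ≤ Q` (so `W q ≤ Q`, as `W^100 ≤ Q`)
`TW_eq`, `TWr_eq` (file `XTW.lean`) give the inner sum
`(W/φ(W))² ∑_c (1 - ε |m|^(β-1))(1 - ε' |m'|^(β-1)) ≥ 0`, and `ss_low` applies to the sum over these
`q`. For `q² > Q` the inner sum is at most `4 (W/φ(W))² H` in absolute value, the terms vanish unless
`q` is squarefree, `|c_q(D)| ≤ φ((q,D))` (`cq_squarefree`): `ss_tail`. Note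
`∑_c (1 - ..)(1 - ..) ≤ 4 H`. -/
theorem model_low : ∃ C : ℝ, 1 ≤ C ∧ ∀ (Q H W r : ℕ) (x y : ℤ) (β ε ε' : ℝ), 0 < W →
    W ^ 100 ≤ Q → 8 ≤ Q → r ∣ W → IsCoprime x (W : ℤ) → IsCoprime y (W : ℤ) → 1 ≤ x →
    (1 ≤ y ∨ y + W * H ≤ 0) → x ≠ y → (2 ∣ W ∨ (2 : ℤ) ∣ x - y) → 1 / 2 ≤ β → β ≤ 1 →
    |ε| ≤ 1 → |ε'| ≤ 1 →
    ((W : ℝ) / Nat.totient W) ^ 2 *
        ((∑ c ∈ range H, (1 - ε * |((x + W * (c : ℕ) : ℤ) : ℝ)| ^ (β - 1)) *
            (1 - ε' * |((y + W * (c : ℕ) : ℤ) : ℝ)| ^ (β - 1))) * (1 / 2 * Gp W (x - y)) -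
          C * H * (Q : ℝ) ^ (-(1 / 4) : ℝ) * Rk (x - y)) - (Q : ℝ) ^ 9 ≤
      ∑ c ∈ range H, MM Q r ε β (x + W * (c : ℕ)) * MM Q r ε' β (y + W * (c : ℕ)) := by
  obtain ⟨C1, hC1, hlow⟩ := ss_low
  obtain ⟨C2, hC2, htail⟩ := ss_tail
  refine ⟨4 * C1 + 4 * C2, by linarith, ?_⟩
  intro Q H W r x y β ε ε' hW hWQ hQ hr hx hy hx1 hy1 hxy hpar hβ hβ1 hε hε'
  have hQr : (8 : ℝ) ≤ Q := by exact_mod_cast hQ
  by_cases hH0 : H = 0
  · subst hH0
    simp only [range_zero, sum_empty, Nat.cast_zero, zero_mul, mul_zero, sub_zero]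
    have : 0 ≤ (Q : ℝ) ^ 9 := by positivity
    linarith
  have hH : 1 ≤ H := by omega
  have hH' : (1 : ℝ) ≤ H := by exact_mod_cast hH
  set D : ℝ := (W : ℝ) / Nat.totient W with hD
  have hD0 : 0 ≤ D := by positivity
  set d : ℤ := x - y with hd
  have hd0 : d ≠ 0 := sub_ne_zero.mpr hxy
  set A : ℕ → ℕ → ℝ := fun q _ => TW Q W q with hA
  set B : ℕ → ℕ → ℝ := fun q c => ml_w H W x β c * TWr Q W r q with hB
  set B' : ℕ → ℕ → ℝ := fun q c => ml_w H W y β c * TWr Q W r q with hB'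
  have hA0 : ∀ q c, 0 ≤ A q c := fun q _ => TW_nonneg Q W q
  have hAD : ∀ q c, A q c ≤ D := fun q _ => TW_le Q W q hW
  have hAm : ∀ q, Antitone (A q) ∨ Monotone (A q) := fun q => Or.inl (fun _ _ _ => le_refl _)
  have gB0 : ∀ (z : ℤ) (q c : ℕ), 0 ≤ ml_w H W z β c * TWr Q W r q := fun z q c =>
    mul_nonneg (ml_w_nonneg H W z β c) (TWr_nonneg Q W r q)
  have gBD : ∀ z : ℤ, (1 ≤ z ∨ z + W * H ≤ 0) → ∀ q c : ℕ,
      ml_w H W z β c * TWr Q W r q ≤ D := fun z hz q c => by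
    have h1 := ml_w_le hH hW hz hβ1 c
    have h3 := TWr_nonneg Q W r q
    have h4 := TWr_le Q W r q hW hr
    calc ml_w H W z β c * TWr Q W r q ≤ 1 * TWr Q W r q := mul_le_mul_of_nonneg_right h1 h3
      _ ≤ D := by rw [one_mul]; exact h4
  have gBm : ∀ z : ℤ, (1 ≤ z ∨ z + W * H ≤ 0) → ∀ q : ℕ,
      Antitone (fun c => ml_w H W z β c * TWr Q W r q) ∨
        Monotone (fun c => ml_w H W z β c * TWr Q W r q) := fun z hz q => by
    rcases ml_w_mono hH hW hz hβ1 with h | h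
    · exact Or.inl (fun c c' hc => mul_le_mul_of_nonneg_right (h hc) (TWr_nonneg Q W r q))
    · exact Or.inr (fun c c' hc => mul_le_mul_of_nonneg_right (h hc) (TWr_nonneg Q W r q))
  have hx1' : 1 ≤ x ∨ x + W * H ≤ 0 := Or.inl hx1
  have hB0 : ∀ q c, 0 ≤ B q c := gB0 x
  have hB0' : ∀ q c, 0 ≤ B' q c := gB0 y
  have hBD : ∀ q c, B q c ≤ D := gBD x hx1'
  have hBD' : ∀ q c, B' q c ≤ D := gBD y hy1
  have hBm : ∀ q, Antitone (B q) ∨ Monotone (B q) := gBm x hx1'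
  have hBm' : ∀ q, Antitone (B' q) ∨ Monotone (B' q) := gBm y hy1
  -- the four correlations
  set T : (ℕ → ℕ → ℝ) → (ℕ → ℕ → ℝ) → ℝ := fun U V => ∑ c ∈ range H,
    ml_S Q W x U c * ml_S Q W y V c with hT
  set Z : (ℕ → ℕ → ℝ) → (ℕ → ℕ → ℝ) → ℝ := fun U V =>
    ∑ q ∈ QW Q W, ((ArithmeticFunction.moebius q : ℝ) / (Nat.totient q : ℝ)) ^ 2 *
        cq q d * ∑ c ∈ range H, U q c * V q c with hZ
  have hAA' : |T A A - Z A A| ≤ 2 * D ^ 2 * (Q : ℝ) ^ 6 :=
    pair_gen Q H W hW x y A A D hD0 hA0 hAD hA0 hAD hAm hAm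
  have hAB' : |T A B' - Z A B'| ≤ 2 * D ^ 2 * (Q : ℝ) ^ 6 :=
    pair_gen Q H W hW x y A B' D hD0 hA0 hAD hB0' hBD' hAm hBm'
  have hBA' : |T B A - Z B A| ≤ 2 * D ^ 2 * (Q : ℝ) ^ 6 :=
    pair_gen Q H W hW x y B A D hD0 hB0 hBD hA0 hAD hBm hAm
  have hBB' : |T B B' - Z B B'| ≤ 2 * D ^ 2 * (Q : ℝ) ^ 6 :=
    pair_gen Q H W hW x y B B' D hD0 hB0 hBD hB0' hBD' hBm hBm'
  have hE0 : 0 ≤ 2 * D ^ 2 * (Q : ℝ) ^ 6 := by positivity
  have hexp : ∑ c ∈ range H, MM Q r ε β (x + W * (c : ℕ)) * MM Q r ε' β (y + W * (c : ℕ)) =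
      T A A - ε' * T A B' - ε * T B A + ε * ε' * T B B' := by
    simp only [hT]
    rw [mul_sum, mul_sum, mul_sum, ← sum_sub_distrib, ← sum_sub_distrib, ← sum_add_distrib]
    apply sum_congr rfl
    intro c hc
    rw [ml_MM_eq Q H W r x c β ε hW hr hx (mem_range.mp hc),
      ml_MM_eq Q H W r y c β ε' hW hr hy (mem_range.mp hc)]
    simp only [hA, hB, hB']
    ring
  have herr : Z A A - ε' * Z A B' - ε * Z B A + ε * ε' * Z B B' - 8 * D ^ 2 * (Q : ℝ) ^ 6 ≤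
      T A A - ε' * T A B' - ε * T B A + ε * ε' * T B B' := by
    have gen : ∀ (η u v : ℝ), |η| ≤ 1 → |u - v| ≤ 2 * D ^ 2 * (Q : ℝ) ^ 6 →
        η * v - 2 * D ^ 2 * (Q : ℝ) ^ 6 ≤ η * u := by
      intro η u v h1 h2
      have h3 : |η * (u - v)| ≤ 2 * D ^ 2 * (Q : ℝ) ^ 6 := by
        rw [abs_mul]
        calc |η| * |u - v| ≤ 1 * (2 * D ^ 2 * (Q : ℝ) ^ 6) :=
              mul_le_mul h1 h2 (abs_nonneg _) (by norm_num)
          _ = _ := one_mul _
      have h4 := (abs_le.mp h3).1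
      have h5 : η * (u - v) = η * u - η * v := by ring
      linarith
    have e1 := gen 1 _ _ (by norm_num) hAA'
    have e2 := gen (-ε') _ _ (by rw [abs_neg]; exact hε') hAB'
    have e3 := gen (-ε) _ _ (by rw [abs_neg]; exact hε) hBA'
    have e4 := gen (ε * ε') _ _ (by
      rw [abs_mul]
      exact mul_le_one₀ hε (abs_nonneg _) hε') hBB'
    linarith
  have herr2 : 8 * D ^ 2 * (Q : ℝ) ^ 6 ≤ (Q : ℝ) ^ 9 := by
    have h1 : D ^ 2 ≤ Q := XCG_D_sq Q W hW hWQ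
    calc 8 * D ^ 2 * (Q : ℝ) ^ 6 ≤ Q * Q * (Q : ℝ) ^ 6 := by gcongr
      _ = (Q : ℝ) ^ 8 := by ring
      _ ≤ (Q : ℝ) ^ 9 := pow_le_pow_right₀ (by linarith) (by norm_num)
  -- the main term
  set I : ℕ → ℝ := fun q => ∑ c ∈ range H, (A q c - ε * B q c) * (A q c - ε' * B' q c) with hI
  have hmain : Z A A - ε' * Z A B' - ε * Z B A + ε * ε' * Z B B' =
      ∑ q ∈ QW Q W, ((ArithmeticFunction.moebius q : ℝ) / (Nat.totient q : ℝ)) ^ 2 *
        cq q d * I q := by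
    simp only [hZ, hI]
    rw [mul_sum, mul_sum, mul_sum, ← sum_sub_distrib, ← sum_sub_distrib, ← sum_add_distrib]
    apply sum_congr rfl
    intro q _
    have h1 : ∑ c ∈ range H, (A q c - ε * B q c) * (A q c - ε' * B' q c) =
        ∑ c ∈ range H, A q c * A q c - ε' * ∑ c ∈ range H, A q c * B' q c -
          ε * ∑ c ∈ range H, B q c * A q c + ε * ε' * ∑ c ∈ range H, B q c * B' q c := by
      rw [mul_sum, mul_sum, mul_sum, ← sum_sub_distrib, ← sum_sub_distrib, ← sum_add_distrib]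
      apply sum_congr rfl
      intro c _
      ring
    rw [h1]
    ring
  set Sg : ℝ := ∑ c ∈ range H, (1 - ε * |((x + W * (c : ℕ) : ℤ) : ℝ)| ^ (β - 1)) *
            (1 - ε' * |((y + W * (c : ℕ) : ℤ) : ℝ)| ^ (β - 1)) with hSg
  have hSgw : Sg = ∑ c ∈ range H, (1 - ε * ml_w H W x β c) * (1 - ε' * ml_w H W y β c) := by
    rw [hSg]
    refine sum_congr rfl fun c hc => ?_
    have hc' := mem_range.mp hc
    unfold ml_w
    have : min c (H - 1) = c := by omega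
    rw [this]
  have hone : ∀ (z : ℤ) (η : ℝ), |η| ≤ 1 → (1 ≤ z ∨ z + W * H ≤ 0) → ∀ c : ℕ,
      0 ≤ 1 - η * ml_w H W z β c ∧ 1 - η * ml_w H W z β c ≤ 2 := by
    intro z η hη hz c
    have h1 := ml_w_le hH hW hz hβ1 c
    have h2 := ml_w_nonneg H W z β c
    have h3 := abs_le.mp hη
    constructor <;> nlinarith
  have hSg0 : 0 ≤ Sg := by
    rw [hSgw]
    exact sum_nonneg fun c _ => mul_nonneg (hone x ε hε hx1' c).1 (hone y ε' hε' hy1 c).1
  have hSg4 : Sg ≤ 4 * H := by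
    rw [hSgw]
    calc _ ≤ ∑ _c ∈ range H, (4 : ℝ) := by
          apply sum_le_sum
          intro c _
          have h1 := hone x ε hε hx1' c
          have h2 := hone y ε' hε' hy1 c
          calc _ ≤ (2 : ℝ) * 2 := mul_le_mul h1.2 h2.2 h2.1 (by norm_num)
            _ = 4 := by norm_num
      _ = 4 * H := by rw [sum_const, card_range, nsmul_eq_mul]; ring
  have hIsmall : ∀ q : ℕ, q ^ 2 ≤ Q → I q = D ^ 2 * Sg := by
    intro q hq
    have hWq : W * q ≤ Q := by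
      have h1 := XCG_W_sq Q W hW hWQ
      have h2 : (W * q) ^ 2 ≤ Q ^ 2 := by
        calc (W * q) ^ 2 = W ^ 2 * q ^ 2 := by ring
          _ ≤ Q * Q := Nat.mul_le_mul h1 hq
          _ = Q ^ 2 := by ring
      exact (Nat.pow_le_pow_iff_left (by norm_num)).mp h2
    rw [hSgw]
    simp only [hI]
    rw [mul_sum]
    apply sum_congr rfl
    intro c _
    simp only [hA, hB, hB']
    rw [TW_eq Q W q hW hWq, TWr_eq Q W r q hW hr hWq]
    ring
  have hIbig : ∀ q : ℕ, |I q| ≤ H * (4 * D ^ 2) := by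
    intro q
    simp only [hI]
    refine (abs_sum_le_sum_abs _ _).trans ?_
    calc ∑ c ∈ range H, |(A q c - ε * B q c) * (A q c - ε' * B' q c)|
        ≤ ∑ _c ∈ range H, 4 * D ^ 2 := by
          apply sum_le_sum
          intro c _
          rw [abs_mul]
          have key : ∀ η u v : ℝ, |η| ≤ 1 → 0 ≤ u → u ≤ D → 0 ≤ v → v ≤ D →
              |u - η * v| ≤ 2 * D := by
            intro η u v hη hu hu' hv hv'
            have h1 : |η * v| ≤ D := by
              rw [abs_mul, abs_of_nonneg hv]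
              calc |η| * v ≤ 1 * D := mul_le_mul hη hv' hv (by norm_num)
                _ = D := one_mul _
            have h2 := abs_le.mp h1
            rw [abs_le]
            constructor <;> linarith
          have h1 := key _ _ _ hε (hA0 q c) (hAD q c) (hB0 q c) (hBD q c)
          have h2 := key _ _ _ hε' (hA0 q c) (hAD q c) (hB0' q c) (hBD' q c)
          calc |A q c - ε * B q c| * |A q c - ε' * B' q c| ≤ (2 * D) * (2 * D) :=
                mul_le_mul h1 h2 (abs_nonneg _) (by positivity)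
            _ = 4 * D ^ 2 := by ring
      _ = H * (4 * D ^ 2) := by rw [sum_const, card_range, nsmul_eq_mul]
  set q4 := (Q : ℝ) ^ (-(1 / 4) : ℝ) with hq4
  have hq40 : 0 ≤ q4 := by positivity
  have hRk : 1 ≤ Rk d := one_le_Rk d
  have hbound : D ^ 2 * (Sg * (1 / 2 * Gp W d) - (4 * C1 + 4 * C2) * H * q4 * Rk d) ≤
      ∑ q ∈ QW Q W, ((ArithmeticFunction.moebius q : ℝ) / (Nat.totient q : ℝ)) ^ 2 *
        cq q d * I q := by
    rw [← sum_filter_add_sum_filter_not (QW Q W) (fun q => q ^ 2 ≤ Q)]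
    have p1 : D ^ 2 * (Sg * (1 / 2 * Gp W d) - 4 * C1 * H * q4 * Rk d) ≤
        ∑ q ∈ (QW Q W).filter (fun q => q ^ 2 ≤ Q),
        ((ArithmeticFunction.moebius q : ℝ) / (Nat.totient q : ℝ)) ^ 2 * cq q d * I q := by
      have h1 := hlow Q W d hd0 hW (by omega) (by
        rcases hpar with h | h
        · exact Or.inl h
        · exact Or.inr h)
      have h2 : ∑ q ∈ (QW Q W).filter (fun q => q ^ 2 ≤ Q),
          ((ArithmeticFunction.moebius q : ℝ) / (Nat.totient q : ℝ)) ^ 2 * cq q d * I q =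
          (D ^ 2 * Sg) * ∑ q ∈ (QW Q W).filter (fun q => q ^ 2 ≤ Q),
          ((ArithmeticFunction.moebius q : ℝ) / (Nat.totient q : ℝ)) ^ 2 * cq q d := by
        rw [mul_sum]
        refine sum_congr rfl fun q hq => ?_
        rw [hIsmall q (mem_filter.mp hq).2]
        ring
      rw [h2]
      refine le_trans ?_ (mul_le_mul_of_nonneg_left h1 (by positivity))
      have h3 : D ^ 2 * Sg * (C1 * q4 * Rk d) ≤ D ^ 2 * (4 * H) * (C1 * q4 * Rk d) := by
        have : 0 ≤ C1 * q4 * Rk d := by positivity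
        gcongr
      have h4 : D ^ 2 * Sg * (1 / 2 * Gp W d - C1 * q4 * Rk d) =
        D ^ 2 * (Sg * (1 / 2 * Gp W d)) - D ^ 2 * Sg * (C1 * q4 * Rk d) := by ring
      rw [h4]
      have h5 : D ^ 2 * (Sg * (1 / 2 * Gp W d) - 4 * C1 * H * q4 * Rk d) =
        D ^ 2 * (Sg * (1 / 2 * Gp W d)) - D ^ 2 * (4 * H) * (C1 * q4 * Rk d) := by ring
      rw [h5]
      linarith
    have p2 : -(D ^ 2 * (4 * C2 * H * q4 * Rk d)) ≤
        ∑ q ∈ (QW Q W).filter (fun q => ¬ q ^ 2 ≤ Q),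
        ((ArithmeticFunction.moebius q : ℝ) / (Nat.totient q : ℝ)) ^ 2 * cq q d * I q := by
      have h1 : |∑ q ∈ (QW Q W).filter (fun q => ¬ q ^ 2 ≤ Q),
        ((ArithmeticFunction.moebius q : ℝ) / (Nat.totient q : ℝ)) ^ 2 * cq q d * I q| ≤
          D ^ 2 * (4 * C2 * H * q4 * Rk d) := by
        refine (abs_sum_le_sum_abs _ _).trans ?_
        calc ∑ q ∈ (QW Q W).filter (fun q => ¬ q ^ 2 ≤ Q),
              |((ArithmeticFunction.moebius q : ℝ) / (Nat.totient q : ℝ)) ^ 2 * cq q d * I q|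
            ≤ ∑ q ∈ (QW Q W).filter (fun q => ¬ q ^ 2 ≤ Q),
              (if Squarefree q then (Nat.totient (Nat.gcd q d.natAbs) : ℝ) /
                (Nat.totient q : ℝ) ^ 2 else 0) * (H * (4 * D ^ 2)) := by
              apply sum_le_sum
              intro q _
              rw [abs_mul, abs_mul]
              have h2 : |((ArithmeticFunction.moebius q : ℝ) / (Nat.totient q : ℝ)) ^ 2| =
                  ((ArithmeticFunction.moebius q : ℝ) / (Nat.totient q : ℝ)) ^ 2 :=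
                abs_of_nonneg (by positivity)
              rw [h2]
              exact mul_le_mul (XCG_cq_le q d) (hIbig q) (abs_nonneg _) (by
                split_ifs <;> positivity)
          _ = (∑ q ∈ ((QW Q W).filter (fun q => ¬ q ^ 2 ≤ Q)).filter Squarefree,
                (Nat.totient (Nat.gcd q d.natAbs) : ℝ) / (Nat.totient q : ℝ) ^ 2) *
                  (H * (4 * D ^ 2)) := by
              rw [← sum_mul, sum_filter (s := (QW Q W).filter (fun q => ¬ q ^ 2 ≤ Q))]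
          _ ≤ (C2 * q4 * Rk d) * (H * (4 * D ^ 2)) := by
              apply mul_le_mul_of_nonneg_right _ (by positivity)
              apply htail Q d hd0 (by omega)
              intro q hq
              rw [mem_filter, mem_filter] at hq
              exact ⟨hq.2, not_le.mp hq.1.2⟩
          _ = _ := by ring
      exact (abs_le.mp h1).1
    have h6 : D ^ 2 * (Sg * (1 / 2 * Gp W d) - (4 * C1 + 4 * C2) * H * q4 * Rk d) =
      D ^ 2 * (Sg * (1 / 2 * Gp W d) - 4 * C1 * H * q4 * Rk d) +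
        -(D ^ 2 * (4 * C2 * H * q4 * Rk d)) := by ring
    rw [h6]
    exact add_le_add p1 p2
  rw [hexp]
  rw [← hmain] at hbound
  linarith

end Pool.Agent.Lib.H18E
end

-- from Lib.H18Q.CC1
section

/-!
# Project H18Q, chunk CC1: means of products of two components of the same modulus
-/

open Finset

namespace Pool.Agent.Lib.H18Q

open Pool.Agent.Lib.H68T

theorem cc1_permul {f : ℕ → ℝ} {a : ℕ} (hf : ∀ c, f (c + a) = f c) (j c : ℕ) :
    f (a * j + c) = f c := by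
  induction j with
  | zero => simp
  | succ j ih => rw [show a * (j+1) + c = (a * j + c) + a by ring, hf, ih]

theorem cc1_mod {f : ℕ → ℝ} {a : ℕ} (hf : ∀ c, f (c + a) = f c) (c : ℕ) :
    f c = f (c % a) := by
  conv_lhs => rw [← Nat.div_add_mod c a]
  exact cc1_permul hf _ _

theorem cc1_per {f : ℕ → ℝ} {a : ℕ} (hf : ∀ c, f (c + a) = f c) (m : ℕ) :
    ∑ c ∈ range (a * m), f c = m * ∑ c ∈ range a, f c := by
  induction m with
  | zero => simp
  | succ m ih =>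
    rw [Nat.mul_succ, Finset.sum_range_add, ih]
    simp only [cc1_permul hf]
    push_cast
    ring

theorem cc1_two {f g : ℕ → ℝ} {a b : ℕ} (ha : 0 < a) (hb : 0 < b) (hab : Nat.Coprime a b)
    (hf : ∀ c, f (c + a) = f c) (hg : ∀ c, g (c + b) = g c) :
    ∑ c ∈ range (a * b), f c * g c = (∑ c ∈ range a, f c) * ∑ c ∈ range b, g c := by
  rw [Finset.sum_mul_sum, ← Finset.sum_product']
  refine Finset.sum_nbij' (fun c => (c % a, c % b))
    (fun x => (Nat.chineseRemainder hab x.1 x.2 : ℕ)) ?_ ?_ ?_ ?_ ?_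
  · intro c _
    simp only [mem_product, mem_range]
    exact ⟨Nat.mod_lt _ ha, Nat.mod_lt _ hb⟩
  · intro x _
    simp only [mem_range]
    exact Nat.chineseRemainder_lt_mul hab _ _ ha.ne' hb.ne'
  · intro c hc
    simp only [mem_range] at hc
    have h1 := (Nat.chineseRemainder hab (c % a) (c % b)).2
    have h2 := Nat.chineseRemainder_lt_mul hab (c % a) (c % b) ha.ne' hb.ne'
    have h3 : (Nat.chineseRemainder hab (c % a) (c % b) : ℕ) ≡ c [MOD a * b] := by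
      rw [← Nat.modEq_and_modEq_iff_modEq_mul hab]
      exact ⟨h1.1.trans (Nat.mod_modEq _ _), h1.2.trans (Nat.mod_modEq _ _)⟩
    exact Nat.ModEq.eq_of_lt_of_lt h3 h2 hc
  · intro x hx
    simp only [mem_product, mem_range] at hx
    have h1 := (Nat.chineseRemainder hab x.1 x.2).2
    ext
    · simp only
      exact Nat.ModEq.eq_of_lt_of_lt ((Nat.mod_modEq _ _).trans h1.1) (Nat.mod_lt _ ha) hx.1
    · simp only
      exact Nat.ModEq.eq_of_lt_of_lt ((Nat.mod_modEq _ _).trans h1.2) (Nat.mod_lt _ hb) hx.2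
  · intro c _
    simp only
    rw [← cc1_mod hf, ← cc1_mod hg]

theorem cc1_prodper (S : Finset ℕ) (h : ℕ → ℕ → ℝ) (hp : ∀ l ∈ S, ∀ c, h l (c + l) = h l c) :
    ∀ c, (∏ l ∈ S, h l (c + ∏ i ∈ S, i)) = ∏ l ∈ S, h l c := by
  intro c
  refine Finset.prod_congr rfl fun l hl => ?_
  obtain ⟨k, hk⟩ := Finset.dvd_prod_of_mem (fun i : ℕ => i) hl
  have hk' : (∏ i ∈ S, i) = l * k := hk
  rw [hk', add_comm c, cc1_permul (hp l hl)]

theorem cc1_crtset (S : Finset ℕ) (hS : ∀ l ∈ S, l.Prime) (h : ℕ → ℕ → ℝ)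
    (hp : ∀ l ∈ S, ∀ c, h l (c + l) = h l c) :
    ∑ c ∈ range (∏ l ∈ S, l), ∏ l ∈ S, h l c = ∏ l ∈ S, ∑ c ∈ range l, h l c := by
  induction S using Finset.induction_on with
  | empty => simp
  | insert a S ha ih =>
    have h1 := ih (fun l hl => hS l (mem_insert_of_mem hl))
      (fun l hl => hp l (mem_insert_of_mem hl))
    rw [Finset.prod_insert ha, Finset.prod_insert ha, ← h1]
    simp only [Finset.prod_insert ha]
    have hpa : a.Prime := hS a (mem_insert_self _ _)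
    refine cc1_two hpa.pos (Finset.prod_pos fun l hl => (hS l (mem_insert_of_mem hl)).pos) ?_
      (hp a (mem_insert_self _ _)) (cc1_prodper S h (fun l hl => hp l (mem_insert_of_mem hl)))
    refine Nat.Coprime.prod_right fun l hl => ?_
    rw [Nat.coprime_primes hpa (hS l (mem_insert_of_mem hl))]
    rintro rfl
    exact ha hl

/-- Chinese remainder theorem for means: the functions `h l`, `l` a prime factor of `q`, have
period `l`. Proof: the product has period `R = ∏ l` (the radical), and `q` is a multiple of `R`, so the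
mean over `[0, q)` is the mean over `[0, R)`; `c ↦ (c mod l)_l` is a bijection of `range R` onto the
product (`ZMod.prodEquivPi`, `Nat.chineseRemainder...`, or induction on the set of primes with
`Nat.Coprime` two-factor statement: for coprime `a, b`, `f` of period `a`, `g` of period `b`:
`∑_{c < ab} f g = ∑_{c < a} f ∑_{c < b} g`). -/
theorem crt_mean (q : ℕ) (hq : 0 < q) (h : ℕ → ℕ → ℝ)
    (hp : ∀ l ∈ q.primeFactors, ∀ c, h l (c + l) = h l c) :
    (∑ c ∈ range q, ∏ l ∈ q.primeFactors, h l c) / q =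
      ∏ l ∈ q.primeFactors, ((∑ c ∈ range l, h l c) / l) := by
  obtain ⟨m, hm⟩ := Nat.prod_primeFactors_dvd q
  have hR : 0 < ∏ l ∈ q.primeFactors, l :=
    Finset.prod_pos fun l hl => (Nat.prime_of_mem_primeFactors hl).pos
  have h1 := cc1_per (f := fun c => ∏ l ∈ q.primeFactors, h l c)
    (cc1_prodper q.primeFactors h hp) m
  rw [← hm, cc1_crtset q.primeFactors (fun l hl => Nat.prime_of_mem_primeFactors hl) h hp] at h1
  rw [h1, Finset.prod_div_distrib]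
  have h2 : (q : ℝ) = (∏ l ∈ q.primeFactors, (l : ℝ)) * m := by
    conv_lhs => rw [hm]
    push_cast
    rfl
  have hm0 : (m : ℝ) ≠ 0 := by
    rintro h0
    have : m = 0 := by exact_mod_cast h0
    subst this
    omega
  rw [h2]
  rw [mul_comm (m : ℝ), mul_div_mul_right _ _ hm0]


noncomputable def cc1_al (r l : ℕ) (m : ℤ) : ℝ :=
  if l ∣ r then (if (l : ℤ) ∣ m then 0 else (l : ℝ) / ((l : ℝ) - 1))
  else (if (l : ℤ) ∣ m then 1 else 1 / ((l : ℝ) - 1))

theorem cc1_al_nonneg (r l : ℕ) (hl : l.Prime) (m : ℤ) : 0 ≤ cc1_al r l m := by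
  have h2 : (2 : ℝ) ≤ l := by exact_mod_cast hl.two_le
  unfold cc1_al
  split_ifs
  · exact le_rfl
  · exact div_nonneg (by linarith) (by linarith)
  · exact zero_le_one
  · exact div_nonneg (by linarith) (by linarith)

theorem cc1_aw (p : Σ r : ℕ, DirichletCharacter ℂ r) (k : ℕ)
    (hc : Nat.Coprime k p.1) (m : ℤ) :
    aw p k m = ∏ l ∈ (p.1 * k).primeFactors, cc1_al p.1 l m := by
  have hc' : Nat.Coprime p.1 k := hc.symm
  rw [hc'.primeFactors_mul, Finset.prod_union hc'.disjoint_primeFactors]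
  unfold aw
  congr 1
  · refine Finset.prod_congr rfl fun l hl => ?_
    unfold cc1_al
    rw [if_pos (Nat.dvd_of_mem_primeFactors hl)]
  · refine Finset.prod_congr rfl fun l hl => ?_
    have hn : ¬ l ∣ p.1 := by
      intro h
      have hlp := Nat.prime_of_mem_primeFactors hl
      exact (Nat.not_coprime_of_dvd_of_dvd hlp.one_lt h (Nat.dvd_of_mem_primeFactors hl)) hc'
    unfold cc1_al
    rw [if_neg hn]

/-- indicator -/
noncomputable def cc1_u (l : ℕ) (s : ℤ) (c : ℕ) : ℝ := if (l : ℤ) ∣ s + c then 1 else 0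

theorem cc1_cnt (l : ℕ) (hl : 0 < l) (s : ℤ) : ∑ c ∈ range l, cc1_u l s c = 1 := by
  unfold cc1_u
  have hl' : (0 : ℤ) < l := by exact_mod_cast hl
  have h0 := Int.emod_nonneg (-s) hl'.ne'
  have h1 := Int.emod_lt_of_pos (-s) hl'
  rw [Finset.sum_eq_single ((-s) % l).toNat]
  · rw [if_pos]
    have : (((-s) % l).toNat : ℤ) = (-s) % l := Int.toNat_of_nonneg h0
    rw [this]
    have h2 := Int.emod_add_mul_ediv (-s) l
    refine ⟨-((-s) / l), ?_⟩
    linarith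
  · intro c hc hne
    rw [if_neg]
    intro hd
    apply hne
    rw [mem_range] at hc
    have hc' : (c : ℤ) < l := by exact_mod_cast hc
    have h3 : (c : ℤ) = (-s) % l := by
      have h5 : (-s) ≡ c [ZMOD l] := Int.modEq_iff_dvd.2 (by
        rw [show (c : ℤ) - -s = s + c by ring]; exact hd)
      have h4 : (c : ℤ) % l = (-s) % l := h5.symm
      rw [← h4, Int.emod_eq_of_lt (by positivity) hc']
    rw [← h3]
    simp
  · intro h
    exfalso
    apply h
    rw [mem_range]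
    zify
    rw [Int.toNat_of_nonneg h0]
    exact h1

theorem cc1_uu_eq (l : ℕ) (s s' : ℤ) (h : (l : ℤ) ∣ s - s') (c : ℕ) :
    cc1_u l s c * cc1_u l s' c = cc1_u l s c := by
  unfold cc1_u
  have : (l : ℤ) ∣ s + c ↔ (l : ℤ) ∣ s' + c := by
    constructor
    · intro h1
      have := dvd_sub h1 h
      rwa [show s + (c : ℤ) - (s - s') = s' + c by ring] at this
    · intro h1
      have := dvd_add h1 h
      rwa [show s' + (c : ℤ) + (s - s') = s + c by ring] at this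
  by_cases h1 : (l : ℤ) ∣ s + c
  · rw [if_pos h1, if_pos (this.1 h1)]; norm_num
  · rw [if_neg h1]; norm_num

theorem cc1_uu_ne (l : ℕ) (s s' : ℤ) (h : ¬ (l : ℤ) ∣ s - s') (c : ℕ) :
    cc1_u l s c * cc1_u l s' c = 0 := by
  unfold cc1_u
  by_cases h1 : (l : ℤ) ∣ s + c
  · rw [if_neg (c := (l : ℤ) ∣ s' + c)]
    · simp
    · intro h2
      apply h
      have := dvd_sub h1 h2
      rwa [show s + (c : ℤ) - (s' + c) = s - s' by ring] at this
  · rw [if_neg h1]; simp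

theorem cc1_lin (l : ℕ) (hl : 0 < l) (s s' : ℤ) (α β α' β' : ℝ) :
    ∑ c ∈ range l, (α + β * cc1_u l s c) * (α' + β' * cc1_u l s' c) =
      l * α * α' + α * β' + α' * β + β * β' * (if (l : ℤ) ∣ s - s' then 1 else 0) := by
  have h1 : ∀ c, (α + β * cc1_u l s c) * (α' + β' * cc1_u l s' c) =
      α * α' + α * β' * cc1_u l s' c + α' * β * cc1_u l s c +
        β * β' * (cc1_u l s c * cc1_u l s' c) := fun c => by ring
  simp only [h1, Finset.sum_add_distrib, ← Finset.mul_sum, cc1_cnt l hl]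
  rw [Finset.sum_const, card_range]
  have h2 : ∑ c ∈ range l, cc1_u l s c * cc1_u l s' c = if (l : ℤ) ∣ s - s' then 1 else 0 := by
    split_ifs with h
    · rw [Finset.sum_congr rfl fun c _ => cc1_uu_eq l s s' h c, cc1_cnt l hl]
    · rw [Finset.sum_congr rfl fun c _ => cc1_uu_ne l s s' h c]; simp
  rw [h2]
  simp only [nsmul_eq_mul]
  ring

theorem cc1_al_lin (r l : ℕ) (s : ℤ) (c : ℕ) :
    cc1_al r l (s + c) = (if l ∣ r then (l : ℝ) / ((l : ℝ) - 1) else 1 / ((l : ℝ) - 1)) +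
      (if l ∣ r then - ((l : ℝ) / ((l : ℝ) - 1)) else 1 - 1 / ((l : ℝ) - 1)) * cc1_u l s c := by
  unfold cc1_al cc1_u
  split_ifs <;> ring

theorem cc1_tau (l : ℕ) (t τ : ℤ) (hτ : τ = 1 ∨ τ = -1) (c : ℕ) (r : ℕ) :
    cc1_al r l (t + τ * c) = cc1_al r l (τ * t + c) := by
  have : (l : ℤ) ∣ t + τ * c ↔ (l : ℤ) ∣ τ * t + c := by
    rcases hτ with rfl | rfl
    · simp
    · rw [show (-1 : ℤ) * t + c = -(t + -1 * c) by ring, Int.dvd_neg]
  unfold cc1_al
  simp only [this]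

theorem cc1_local (r r' l : ℕ) (hl : l.Prime) (s t τ D : ℤ) (hτ : τ = 1 ∨ τ = -1)
    (hD : D = s - τ * t) (hD2 : (2 : ℤ) ∣ D) :
    (∑ c ∈ range l, cc1_al r l (s + (c : ℤ)) * cc1_al r' l (t + τ * (c : ℤ))) / (l : ℝ) ≤
      loc (r * r') D l := by
  have h2 : (2 : ℝ) ≤ l := by exact_mod_cast hl.two_le
  have hl1 : (0 : ℝ) < (l : ℝ) - 1 := by linarith
  have hl0 : (0 : ℝ) < (l : ℝ) := by linarith
  simp only [cc1_tau l t τ hτ, cc1_al_lin]
  rw [cc1_lin l hl.pos, ← hD]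
  unfold loc
  have hw : l ∣ r * r' ↔ l ∣ r ∨ l ∣ r' := hl.dvd_mul
  have h3 : ¬ (l : ℤ) ∣ D → (3 : ℝ) ≤ l := by
    intro h
    have : l ≠ 2 := by
      rintro rfl
      exact h hD2
    have h4 : 3 ≤ l := by have := hl.two_le; omega
    exact_mod_cast h4
  by_cases hd : (l : ℤ) ∣ D
  · simp only [hd, if_true]
    by_cases h1 : l ∣ r <;> by_cases h1' : l ∣ r' <;>
      simp only [hw, h1, h1', if_true, if_false, or_true, true_or, or_self, or_false]
    · rw [div_le_div_iff₀ hl0 hl1]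
      field_simp
      nlinarith
    · rw [div_le_div_iff₀ hl0 hl1]
      field_simp
      nlinarith
    · rw [div_le_div_iff₀ hl0 hl1]
      field_simp
      nlinarith
    · rw [div_le_div_iff₀ hl0 hl1]
      field_simp
      nlinarith
  · have h3' := h3 hd
    simp only [hd, if_false]
    by_cases h1 : l ∣ r <;> by_cases h1' : l ∣ r' <;>
      simp only [hw, h1, h1', if_true, if_false, or_true, true_or, or_self, or_false]
    · rw [div_le_one hl0]
      field_simp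
      nlinarith
    · rw [div_le_one hl0]
      field_simp
      nlinarith
    · rw [div_le_one hl0]
      field_simp
      nlinarith
    · rw [div_le_div_iff₀ hl0 (by positivity)]
      field_simp
      nlinarith


/-- **Local means.** Let `q = p.1 k = p'.1 k'`, `τ = ±1`, `D = s - τ t ≠ 0`, `2 ∣ D`. Then the mean over
`c` modulo `q` of `aw p k (s + c) aw p' k' (t + τ c)` is at most `∏_{l ∣ q} loc (p.1 p'.1) D l`.

Proof. `aw p k m = ∏_{l ∣ q} a_l(m)` with `a_l(m) = l/(l-1) 1[l ∤ m]` if `l ∣ p.1` and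
`a_l(m) = 1 if l ∣ m else 1/(l-1)` if `l ∣ k` (the prime factors of `q` are the disjoint union of those
of `p.1` and of `k`), similarly for `p'`. By `crt_mean` the mean is the product of the local means
`E_l = (1/l) ∑_{c < l} a_l(s+c) a'_l(t + τ c)` (all factors `≥ 0`, so it suffices to bound each
`E_l ≤ loc`). For `c` modulo `l`: `l ∣ s + c` for exactly one `c`, `l ∣ t + τ c` for exactly one `c`; they
agree iff `l ∣ s - τ t = D` (`c ≡ -s`, `c ≡ -τ t`). (A) `l ∣ p.1`, `l ∣ p'.1`: `E = (l/(l-1))²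
(1 - 1/l) = l/(l-1)` if `l ∣ D`; else `(l/(l-1))² (1 - 2/l) ≤ 1`. (B) `l ∣ p.1`, `l ∣ k'` (or
conversely): `l ∣ D`: `(l/(l-1)) ((l-1)/l) (1/(l-1)) = 1/(l-1) ≤ l/(l-1)`; `l ∤ D` (so `l ≥ 3`):
`(l/(l-1)) (1/l + ((l-2)/l)/(l-1)) ≤ 2/(l-1) ≤ 1`. (C) `l ∣ k`, `l ∣ k'`: `l ∣ D`:
`1/l + ((l-1)/l)/(l-1)² = 1/(l-1)`; `l ∤ D`: `2/(l (l-1)) + (l-2)/(l (l-1)²) ≤ 3/(l-1)²`. In case (C)
`l ∤ p.1 p'.1`; in (A), (B) `l ∣ p.1 p'.1`. -/
theorem loc_mean (Q : ℕ) (p p' : Σ r : ℕ, DirichletCharacter ℂ r) (hp : p ∈ PC Q)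
    (hp' : p' ∈ PC Q) (k k' : ℕ) (hk : k ∈ KS Q p.1) (hk' : k' ∈ KS Q p'.1)
    (he : p.1 * k = p'.1 * k') (s t τ D : ℤ) (hτ : τ = 1 ∨ τ = -1) (hD : D = s - τ * t)
    (hD2 : (2 : ℤ) ∣ D) :
    (∑ c ∈ range (p.1 * k), aw p k (s + (c : ℤ)) * aw p' k' (t + τ * (c : ℤ))) /
        (p.1 * k : ℕ) ≤
      ∏ l ∈ (p.1 * k).primeFactors, loc (p.1 * p'.1) D l := by
  have h1 := (mem_PC.1 hp).1
  unfold KS at hk hk'
  simp only [mem_filter, mem_Icc] at hk hk'
  have hq : 0 < p.1 * k := Nat.mul_pos h1 hk.1.1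
  have h2 : ∀ c : ℕ, aw p k (s + (c : ℤ)) * aw p' k' (t + τ * (c : ℤ)) =
      ∏ l ∈ (p.1 * k).primeFactors,
        (cc1_al p.1 l (s + (c : ℤ)) * cc1_al p'.1 l (t + τ * (c : ℤ))) := by
    intro c
    rw [cc1_aw p k hk.2.2, cc1_aw p' k' hk'.2.2, ← he, ← Finset.prod_mul_distrib]
  simp only [h2]
  rw [crt_mean (p.1 * k) hq
    (fun l c => cc1_al p.1 l (s + (c : ℤ)) * cc1_al p'.1 l (t + τ * (c : ℤ)))]
  · refine Finset.prod_le_prod ?_ ?_
    · intro l hl
      have hlp := Nat.prime_of_mem_primeFactors hl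
      refine div_nonneg (Finset.sum_nonneg fun c _ => mul_nonneg ?_ ?_) (Nat.cast_nonneg _)
      · exact cc1_al_nonneg _ _ hlp _
      · exact cc1_al_nonneg _ _ hlp _
    · intro l hl
      exact cc1_local _ _ l (Nat.prime_of_mem_primeFactors hl) s t τ D hτ hD hD2
  · intro l hl c
    have e1 : (l : ℤ) ∣ s + ((c + l : ℕ) : ℤ) ↔ (l : ℤ) ∣ s + (c : ℤ) := by
      push_cast
      rw [← add_assoc]
      exact Int.dvd_add_left (dvd_refl _)
    have e2 : (l : ℤ) ∣ t + τ * ((c + l : ℕ) : ℤ) ↔ (l : ℤ) ∣ t + τ * (c : ℤ) := by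
      push_cast
      rw [mul_add, ← add_assoc]
      exact (Int.dvd_add_left (Dvd.intro_left τ rfl))
    simp only [cc1_al, e1, e2]

theorem cc1_tele (N : ℕ) : ∑ n ∈ Icc 3 N, (1 : ℝ) / ((n : ℝ) - 1) ^ 2 ≤ 1 := by
  have h : ∀ N : ℕ, 2 ≤ N → ∑ n ∈ Icc 3 N, (1 : ℝ) / ((n : ℝ) - 1) ^ 2 ≤ 1 - 1 / ((N : ℝ) - 1) := by
    intro N hN
    induction N, hN using Nat.le_induction with
    | base => simp; norm_num
    | succ N hN ih =>
      rw [Finset.sum_Icc_succ_top (by omega)]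
      have h2 : (2 : ℝ) ≤ N := by exact_mod_cast hN
      have h3 : (1 : ℝ) / (((N + 1 : ℕ) : ℝ) - 1) ^ 2 ≤ 1 / ((N : ℝ) - 1) - 1 / (((N + 1 : ℕ) : ℝ) - 1) := by
        push_cast
        rw [show (N : ℝ) + 1 - 1 = N by ring]
        have h4 : (0 : ℝ) < (N : ℝ) - 1 := by linarith
        have h5 : (0 : ℝ) < N := by linarith
        rw [div_sub_div _ _ h4.ne' h5.ne', div_le_div_iff₀ (by positivity) (by positivity)]
        nlinarith
      linarith
  rcases le_or_gt 2 N with hN | hN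
  · have := h N hN
    have h2 : (2 : ℝ) ≤ N := by exact_mod_cast hN
    have h3 : (0 : ℝ) ≤ 1 / ((N : ℝ) - 1) := by
      apply div_nonneg <;> linarith
    linarith
  · rw [Finset.Icc_eq_empty (by omega)]; simp

theorem cc1_loc_nonneg (w : ℕ) (D : ℤ) (l : ℕ) (hl : l.Prime) : 0 ≤ loc w D l := by
  have h2 : (2 : ℝ) ≤ l := by exact_mod_cast hl.two_le
  unfold loc
  split_ifs
  · exact div_nonneg (by linarith) (by linarith)
  · exact div_nonneg (by linarith) (by linarith)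
  · exact zero_le_one
  · positivity

/-- the local factor -/
noncomputable def cc1_F (w : ℕ) (D : ℤ) (l : ℕ) : ℝ := if l ∣ w then loc w D l else 1 + loc w D l

theorem cc1_F_bound (w : ℕ) (D : ℤ) (hD2 : (2 : ℤ) ∣ D) (l : ℕ) (hl : l.Prime) :
    cc1_F w D l ≤ (if (l : ℤ) ∣ D then 1 + 1 / ((l : ℝ) - 1) else 1) *
      Real.exp (if 3 ≤ l then 3 / ((l : ℝ) - 1) ^ 2 else 0) := by
  have h2 : (2 : ℝ) ≤ l := by exact_mod_cast hl.two_le
  have hl1 : (0 : ℝ) < (l : ℝ) - 1 := by linarith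
  have he : (1 : ℝ) ≤ Real.exp (if 3 ≤ l then 3 / ((l : ℝ) - 1) ^ 2 else 0) := by
    apply Real.one_le_exp
    split_ifs
    · positivity
    · exact le_rfl
  unfold cc1_F loc
  by_cases hd : (l : ℤ) ∣ D
  · simp only [hd, if_true]
    have h3 : (l : ℝ) / ((l : ℝ) - 1) = 1 + 1 / ((l : ℝ) - 1) := by field_simp; ring
    have h4 : (0 : ℝ) ≤ 1 + 1 / ((l : ℝ) - 1) := by positivity
    by_cases h5 : l ∣ w
    · rw [if_pos h5, if_pos h5, h3]
      exact le_mul_of_one_le_right h4 he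
    · rw [if_neg h5, if_neg h5]
      exact le_mul_of_one_le_right h4 he
  · have h3 : 3 ≤ l := by
      have : l ≠ 2 := by
        rintro rfl
        exact hd hD2
      have := hl.two_le
      omega
    simp only [hd, if_false, h3, if_true, one_mul] at he ⊢
    split_ifs
    · exact he
    · have := Real.add_one_le_exp ((3 : ℝ) / ((l : ℝ) - 1) ^ 2)
      linarith

theorem cc1_F_nonneg (w : ℕ) (D : ℤ) (l : ℕ) (hl : l.Prime) : 0 ≤ cc1_F w D l := by
  unfold cc1_F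
  have := cc1_loc_nonneg w D l hl
  split_ifs
  · exact this
  · linarith

theorem cc1_prodF (w : ℕ) (D : ℤ) (hD : D ≠ 0) (hD2 : (2 : ℤ) ∣ D) (U : Finset ℕ)
    (hU : ∀ l ∈ U, l.Prime) :
    ∏ l ∈ U, cc1_F w D l ≤ Real.exp 3 * Pool.Agent.Lib.H18E.Gp 1 D := by
  have h1 : ∏ l ∈ U, cc1_F w D l ≤ ∏ l ∈ U, ((if (l : ℤ) ∣ D then 1 + 1 / ((l : ℝ) - 1) else 1) *
      Real.exp (if 3 ≤ l then 3 / ((l : ℝ) - 1) ^ 2 else 0)) :=
    Finset.prod_le_prod (fun l hl => cc1_F_nonneg w D l (hU l hl))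
      (fun l hl => cc1_F_bound w D hD2 l (hU l hl))
  refine h1.trans ?_
  rw [Finset.prod_mul_distrib, ← Real.exp_sum, mul_comm (Real.exp 3)]
  have hG : ∏ l ∈ U, (if (l : ℤ) ∣ D then 1 + 1 / ((l : ℝ) - 1) else 1) ≤
      Pool.Agent.Lib.H18E.Gp 1 D := by
    rw [← Finset.prod_filter]
    unfold Pool.Agent.Lib.H18E.Gp
    have hsub : U.filter (fun l : ℕ => (l : ℤ) ∣ D) ⊆
        D.natAbs.primeFactors.filter (fun p => ¬ p ∣ 1) := by
      intro l hl
      rw [mem_filter] at hl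
      have hlp := hU l hl.1
      rw [mem_filter, Nat.mem_primeFactors]
      refine ⟨⟨hlp, Int.natCast_dvd.1 hl.2, Int.natAbs_ne_zero.2 hD⟩, ?_⟩
      intro h
      exact hlp.one_lt.ne' (Nat.dvd_one.1 h)
    rw [← Finset.prod_sdiff hsub]
    have hf : ∀ l ∈ (D.natAbs.primeFactors.filter (fun p => ¬ p ∣ 1)),
        (1 : ℝ) ≤ 1 + 1 / ((l : ℝ) - 1) := by
      intro l hl
      rw [mem_filter] at hl
      have hlp := Nat.prime_of_mem_primeFactors hl.1
      have h2 : (2 : ℝ) ≤ l := by exact_mod_cast hlp.two_le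
      have : (0 : ℝ) ≤ 1 / ((l : ℝ) - 1) := div_nonneg zero_le_one (by linarith)
      linarith
    have h1' : (1 : ℝ) ≤ ∏ l ∈ (D.natAbs.primeFactors.filter (fun p => ¬ p ∣ 1)) \
        U.filter (fun l : ℕ => (l : ℤ) ∣ D), (1 + 1 / ((l : ℝ) - 1)) := by
      refine Finset.prod_induction _ (fun x => (1 : ℝ) ≤ x)
        (fun a b ha hb => one_le_mul_of_one_le_of_one_le ha hb) le_rfl ?_
      intro l hl
      exact hf l (mem_sdiff.1 hl).1
    refine le_mul_of_one_le_left (Finset.prod_nonneg fun l hl => ?_) h1'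
    exact zero_le_one.trans (hf l (hsub hl))
  have hE : Real.exp (∑ l ∈ U, (if 3 ≤ l then 3 / ((l : ℝ) - 1) ^ 2 else 0)) ≤ Real.exp 3 := by
    apply Real.exp_le_exp.2
    rw [← Finset.sum_filter]
    have h2 : ∑ l ∈ U.filter (fun l => 3 ≤ l), (3 : ℝ) / ((l : ℝ) - 1) ^ 2 ≤
        ∑ l ∈ Icc 3 (U.sup id), (3 : ℝ) / ((l : ℝ) - 1) ^ 2 := by
      refine Finset.sum_le_sum_of_subset_of_nonneg ?_ ?_
      · intro l hl
        rw [mem_filter] at hl
        rw [mem_Icc]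
        exact ⟨hl.2, Finset.le_sup (f := id) hl.1⟩
      · intro l _ _
        positivity
    have h3 : ∑ l ∈ Icc 3 (U.sup id), (3 : ℝ) / ((l : ℝ) - 1) ^ 2 =
        3 * ∑ l ∈ Icc 3 (U.sup id), (1 : ℝ) / ((l : ℝ) - 1) ^ 2 := by
      rw [Finset.mul_sum]
      refine Finset.sum_congr rfl fun l _ => ?_
      ring
    have h4 := cc1_tele (U.sup id)
    linarith
  refine mul_le_mul hG hE (Real.exp_pos _).le ?_
  unfold Pool.Agent.Lib.H18E.Gp
  refine Finset.prod_nonneg fun l hl => ?_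
  rw [mem_filter] at hl
  have hlp := Nat.prime_of_mem_primeFactors hl.1
  have h2 : (2 : ℝ) ≤ l := by exact_mod_cast hlp.two_le
  have : (0 : ℝ) ≤ 1 / ((l : ℝ) - 1) := div_nonneg zero_le_one (by linarith)
  linarith


theorem cc1_pf (Q : ℕ) (p p' : Σ r : ℕ, DirichletCharacter ℂ r) (hp : p ∈ PC Q)
    (hp' : p' ∈ PC Q) (k k' : ℕ) (hk : k ∈ KS Q p.1) (hk' : k' ∈ KS Q p'.1)
    (he : p.1 * k = p'.1 * k') :
    k.primeFactors = (p'.1.primeFactors \ p.1.primeFactors) ∪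
      ((p.1 * k).primeFactors \ (p.1 * p'.1).primeFactors) := by
  have h1 := (mem_PC.1 hp).1
  have h1' := (mem_PC.1 hp').1
  unfold KS at hk hk'
  simp only [mem_filter, mem_Icc] at hk hk'
  have hk0 : k ≠ 0 := by omega
  have hk0' : k' ≠ 0 := by omega
  ext l
  simp only [mem_union, mem_sdiff, Nat.mem_primeFactors]
  constructor
  · rintro ⟨hl, hlk, _⟩
    by_cases h : l ∣ p'.1
    · left
      refine ⟨⟨hl, h, by omega⟩, ?_⟩
      rintro ⟨_, h2, _⟩
      exact (Nat.not_coprime_of_dvd_of_dvd hl.one_lt hlk h2) hk.2.2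
    · right
      refine ⟨⟨hl, Dvd.dvd.mul_left hlk _, Nat.mul_ne_zero (by omega) hk0⟩, ?_⟩
      rintro ⟨_, h2, _⟩
      rcases hl.dvd_mul.1 h2 with h2 | h2
      · exact (Nat.not_coprime_of_dvd_of_dvd hl.one_lt hlk h2) hk.2.2
      · exact h h2
  · rintro (⟨⟨hl, h, _⟩, h2⟩ | ⟨⟨hl, h, _⟩, h2⟩)
    · refine ⟨hl, ?_, hk0⟩
      have h3 : l ∣ p.1 * k := by rw [he]; exact Dvd.dvd.mul_right h _
      rcases hl.dvd_mul.1 h3 with h4 | h4
      · exact absurd ⟨hl, h4, by omega⟩ h2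
      · exact h4
    · refine ⟨hl, ?_, hk0⟩
      rcases hl.dvd_mul.1 h with h4 | h4
      · exact absurd ⟨hl, Dvd.dvd.mul_right h4 _, Nat.mul_ne_zero (by omega) (by omega)⟩ h2
      · exact h4

theorem cc1_qpf (Q : ℕ) (p p' : Σ r : ℕ, DirichletCharacter ℂ r) (hp : p ∈ PC Q)
    (hp' : p' ∈ PC Q) (k k' : ℕ) (hk : k ∈ KS Q p.1) (hk' : k' ∈ KS Q p'.1)
    (he : p.1 * k = p'.1 * k') :
    (p.1 * p'.1).primeFactors ⊆ (p.1 * k).primeFactors := by
  have h1 := (mem_PC.1 hp).1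
  have h1' := (mem_PC.1 hp').1
  unfold KS at hk hk'
  simp only [mem_filter, mem_Icc] at hk hk'
  have hk0 : k ≠ 0 := by omega
  intro l
  simp only [Nat.mem_primeFactors]
  rintro ⟨hl, h, _⟩
  refine ⟨hl, ?_, Nat.mul_ne_zero (by omega) hk0⟩
  rcases hl.dvd_mul.1 h with h2 | h2
  · exact Dvd.dvd.mul_right h2 _
  · rw [he]; exact Dvd.dvd.mul_right h2 _

/-- **Sum over the moduli.** For fixed `p, p'` the sum of the local products over all pairs `(k, k')`
with `p.1 k = p'.1 k'` is at most `C Gp 1 D`, `Gp 1 D = ∏_{l ∣ D} l/(l-1)`.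

Proof. Let `w = p.1 p'.1`. For such a pair, `q = p.1 k`, every prime of `w` divides `q`, and the other
primes of `q` form a set `S` of primes `≤ Q` not dividing `w`. `q` (hence `k, k'`) is determined by `S`:
for `l ∣ p.1`, `v_l(q) = v_l(p.1)` (`k` coprime to `p.1`), for `l ∣ p'.1`, `v_l(q) = v_l(p'.1)`, for
`l ∈ S`, `v_l(q) = 1`. So the sum is at most `∏_{l ∣ w} loc(l) ∏_{l ≤ Q prime, l ∤ w} (1 + loc(l))`
(all `loc ≥ 0`). For `l ∣ D`: `loc(l) ≤ l/(l-1)` if `l ∣ w`, `1 + loc(l) = l/(l-1)` if `l ∤ w`. For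
`l ∤ D` (`l ≥ 3`, as `2 ∣ D`): `loc(l) = 1` if `l ∣ w`, and `1 + 3/(l-1)² ≤ exp (3/(l-1)²)` if
`l ∤ w`. The product over `l ≥ 3` of the last is at most `exp (3 ∑_{n ≥ 2} 1/n²) ≤ exp 3`, and the
primes dividing `D` contribute at most `Gp 1 D` (`1 + 1/(l-1) = l/(l-1) ≥ 1`). -/
theorem sum_loc : ∃ C : ℝ, 1 ≤ C ∧ ∀ (Q : ℕ) (p p' : Σ r : ℕ, DirichletCharacter ℂ r),
    p ∈ PC Q → p' ∈ PC Q → ∀ D : ℤ, D ≠ 0 → (2 : ℤ) ∣ D →
    ∑ k ∈ KS Q p.1, ∑ k' ∈ (KS Q p'.1).filter (fun k' => p.1 * k = p'.1 * k'),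
      ∏ l ∈ (p.1 * k).primeFactors, loc (p.1 * p'.1) D l ≤ C * Pool.Agent.Lib.H18E.Gp 1 D := by
  refine ⟨Real.exp 3, Real.one_le_exp (by norm_num), ?_⟩
  intro Q p p' hp hp' D hD hD2
  have h1 := (mem_PC.1 hp).1
  have h1' := (mem_PC.1 hp').1
  classical
  set w := p.1 * p'.1 with hw
  set KK : Finset ℕ := (KS Q p.1).filter (fun k => ∃ k' ∈ KS Q p'.1, p.1 * k = p'.1 * k') with hKK
  set P : Finset ℕ := (range (Q + 1)).filter (fun l => l.Prime ∧ ¬ l ∣ w) with hP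
  set f : ℕ → ℝ := fun k => ∏ l ∈ (p.1 * k).primeFactors, loc w D l with hf
  have hf0 : ∀ k, 0 ≤ f k := fun k =>
    Finset.prod_nonneg fun l hl => cc1_loc_nonneg w D l (Nat.prime_of_mem_primeFactors hl)
  -- step 1
  have s1 : ∑ k ∈ KS Q p.1, ∑ k' ∈ (KS Q p'.1).filter (fun k' => p.1 * k = p'.1 * k'), f k ≤
      ∑ k ∈ KK, f k := by
    rw [hKK, Finset.sum_filter]
    refine Finset.sum_le_sum fun k _ => ?_
    rw [Finset.sum_const, nsmul_eq_mul]
    split_ifs with h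
    · have hcard : ((KS Q p'.1).filter (fun k' => p.1 * k = p'.1 * k')).card ≤ 1 := by
        rw [Finset.card_le_one]
        intro a ha b hb
        rw [mem_filter] at ha hb
        have : p'.1 * a = p'.1 * b := by rw [← ha.2, ← hb.2]
        exact Nat.eq_of_mul_eq_mul_left (by omega) this
      have : (((KS Q p'.1).filter (fun k' => p.1 * k = p'.1 * k')).card : ℝ) ≤ 1 := by
        exact_mod_cast hcard
      nlinarith [hf0 k]
    · have : (KS Q p'.1).filter (fun k' => p.1 * k = p'.1 * k') = ∅ := by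
        rw [Finset.filter_eq_empty_iff]
        intro k' hk' he
        exact h ⟨k', hk', he⟩
      rw [this]; simp
  -- step 2: f k as product
  have s2 : ∀ k ∈ KK, f k = (∏ l ∈ w.primeFactors, loc w D l) *
      ∏ l ∈ (p.1 * k).primeFactors \ w.primeFactors, loc w D l := by
    intro k hk
    rw [hKK, mem_filter] at hk
    obtain ⟨hk1, k', hk', he⟩ := hk
    have hs := cc1_qpf Q p p' hp hp' k k' hk1 hk' he
    rw [← hw] at hs
    have h9 := Finset.prod_sdiff (f := fun l => loc w D l) hs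
    rw [hf]
    simp only
    rw [← h9]
    ring
  -- step 3
  have s3 : ∑ k ∈ KK, ∏ l ∈ (p.1 * k).primeFactors \ w.primeFactors, loc w D l ≤
      ∑ S ∈ P.powerset, ∏ l ∈ S, loc w D l := by
    have hinj : Set.InjOn (fun k => (p.1 * k).primeFactors \ w.primeFactors) (KK : Set ℕ) := by
      intro k hk k2 hk2 hE
      rw [Finset.mem_coe, hKK, mem_filter] at hk hk2
      obtain ⟨hk1, k', hk', he⟩ := hk
      obtain ⟨hk1b, k2', hk2', he2⟩ := hk2
      have e1 := cc1_pf Q p p' hp hp' k k' hk1 hk' he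
      have e2 := cc1_pf Q p p' hp hp' k2 k2' hk1b hk2' he2
      simp only at hE
      rw [← hw] at e1 e2
      rw [hE, ← e2] at e1
      have q1 : Squarefree k := by
        unfold KS at hk1
        simp only [mem_filter, mem_Icc] at hk1
        exact hk1.2.1
      have q2 : Squarefree k2 := by
        unfold KS at hk1b
        simp only [mem_filter, mem_Icc] at hk1b
        exact hk1b.2.1
      rw [← Nat.prod_primeFactors_of_squarefree q1, ← Nat.prod_primeFactors_of_squarefree q2, e1]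
    rw [← Finset.sum_image (f := fun S : Finset ℕ => ∏ l ∈ S, loc w D l) hinj]
    refine Finset.sum_le_sum_of_subset_of_nonneg ?_ ?_
    · intro S hS
      rw [Finset.mem_image] at hS
      obtain ⟨k, hk, rfl⟩ := hS
      rw [Finset.mem_powerset]
      intro l hl
      rw [mem_sdiff, Nat.mem_primeFactors, Nat.mem_primeFactors] at hl
      obtain ⟨⟨hlp, hd, hne⟩, hn⟩ := hl
      have hnw : ¬ l ∣ w := fun h => hn ⟨hlp, h, Nat.mul_ne_zero (by omega) (by omega)⟩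
      rw [hP, mem_filter, mem_range]
      refine ⟨?_, hlp, hnw⟩
      rw [hKK, mem_filter] at hk
      have hk1 := hk.1
      unfold KS at hk1
      simp only [mem_filter, mem_Icc] at hk1
      have hlk : l ∣ k := by
        rcases hlp.dvd_mul.1 hd with h | h
        · exact absurd (Dvd.dvd.mul_right h _) hnw
        · exact h
      have := Nat.le_of_dvd (by omega) hlk
      have := Nat.div_le_self Q p.1
      omega
    · intro S hS _
      rw [Finset.mem_powerset] at hS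
      refine Finset.prod_nonneg fun l hl => cc1_loc_nonneg w D l ?_
      have := hS hl
      rw [hP, mem_filter] at this
      exact this.2.1
  have s4 : ∑ S ∈ P.powerset, ∏ l ∈ S, loc w D l = ∏ l ∈ P, (1 + loc w D l) := by
    rw [Finset.prod_one_add]
  have hdis : Disjoint w.primeFactors P := by
    rw [Finset.disjoint_left]
    intro l hl hl2
    rw [hP, mem_filter] at hl2
    exact hl2.2.2 (Nat.dvd_of_mem_primeFactors hl)
  have s5 : (∏ l ∈ w.primeFactors, loc w D l) * ∏ l ∈ P, (1 + loc w D l) =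
      ∏ l ∈ w.primeFactors ∪ P, cc1_F w D l := by
    rw [Finset.prod_union hdis]
    congr 1
    · refine Finset.prod_congr rfl fun l hl => ?_
      unfold cc1_F
      rw [if_pos (Nat.dvd_of_mem_primeFactors hl)]
    · refine Finset.prod_congr rfl fun l hl => ?_
      rw [hP, mem_filter] at hl
      unfold cc1_F
      rw [if_neg hl.2.2]
  have s6 := cc1_prodF w D hD hD2 (w.primeFactors ∪ P) (by
    intro l hl
    rw [mem_union] at hl
    rcases hl with hl | hl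
    · exact Nat.prime_of_mem_primeFactors hl
    · rw [hP, mem_filter] at hl
      exact hl.2.1)
  have hw0 : 0 ≤ ∏ l ∈ w.primeFactors, loc w D l :=
    Finset.prod_nonneg fun l hl => cc1_loc_nonneg w D l (Nat.prime_of_mem_primeFactors hl)
  calc _ ≤ ∑ k ∈ KK, f k := s1
    _ = (∏ l ∈ w.primeFactors, loc w D l) *
        ∑ k ∈ KK, ∏ l ∈ (p.1 * k).primeFactors \ w.primeFactors, loc w D l := by
        rw [Finset.mul_sum]
        exact Finset.sum_congr rfl s2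
    _ ≤ (∏ l ∈ w.primeFactors, loc w D l) * ∏ l ∈ P, (1 + loc w D l) := by
        refine mul_le_mul_of_nonneg_left ?_ hw0
        rw [← s4]
        exact s3
    _ ≤ _ := by rw [s5]; exact s6

end Pool.Agent.Lib.H18Q
end

-- from Lib.H18Q.CF
section

/-!
# Project H18Q, chunk CF: the correlation inequality
-/

open Finset

namespace Pool.Agent.Lib.H18Q

open Pool.Agent.Lib.H68T

theorem cf_KS {Q r k : ℕ} (hk : k ∈ KS Q r) : 1 ≤ k ∧ k ≤ Q / r := by
  unfold KS at hk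
  rw [mem_filter, mem_Icc] at hk
  exact hk.1

theorem cf_q {Q : ℕ} {p : Σ r : ℕ, DirichletCharacter ℂ r} (hp : p ∈ PC Q) {k : ℕ}
    (hk : k ∈ KS Q p.1) : 0 < p.1 * k ∧ p.1 * k ≤ Q := by
  have h1 := (mem_PC.mp hp).1
  have h2 := cf_KS hk
  refine ⟨Nat.mul_pos (by omega) (by omega), ?_⟩
  calc p.1 * k ≤ p.1 * (Q / p.1) := Nat.mul_le_mul_left _ h2.2
    _ ≤ Q := Nat.mul_div_le Q p.1

/-- the sum of a periodic function over several periods -/
theorem cf_periods (φ : ℕ → ℂ) (q : ℕ) (hφ : ∀ c, φ (c + q) = φ c) (n : ℕ) :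
    ∑ c ∈ range (q * n), φ c = n * ∑ c ∈ range q, φ c := by
  have hper : ∀ n c, φ (q * n + c) = φ c := by
    intro n
    induction n with
    | zero => intro c; rw [mul_zero, zero_add]
    | succ n ih =>
      intro c
      have h1 : q * (n + 1) + c = (q * n + c) + q := by ring
      rw [h1, hφ, ih]
  induction n with
  | zero => simp
  | succ n ih =>
    have h1 : q * (n + 1) = q * n + q := by ring
    rw [h1, sum_range_add, ih]
    have h2 : ∑ x ∈ range q, φ (q * n + x) = ∑ c ∈ range q, φ c :=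
      sum_congr rfl fun x _ => hper n x
    rw [h2]
    push_cast
    ring

/-- Two components with slowly varying coefficients.

Proof. `q = p.1 k`, `q' = p'.1 k'`, `φ(c) = gk p k (s + c) gk p' k' (t + τ c)` has period `P = q q'`
(`gk_period`), `|φ| ≤ Q²` (`gk_bound`), `P ≤ Q²`. `per_slow`. If `q ≠ q'`: `∑_{c < P} φ = 0` (`orth`
with `gk_prim`). If `q = q'`: the mean over `P = q²` is the mean over `q`, at most the mean of
`aw aw'` (`gk_le_aw`), at most `∏ loc` (`loc_mean`). -/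
theorem CF_pair (Q H : ℕ) (p p' : Σ r : ℕ, DirichletCharacter ℂ r) (hp : p ∈ PC Q)
    (hp' : p' ∈ PC Q) (k k' : ℕ) (hk : k ∈ KS Q p.1) (hk' : k' ∈ KS Q p'.1)
    (s t τ D : ℤ) (hτ : τ = 1 ∨ τ = -1) (hD : D = s - τ * t) (hD2 : (2 : ℤ) ∣ D)
    (f : ℕ → ℂ) (F Λ : ℝ) (hF : 0 ≤ F) (hΛ : 0 ≤ Λ) (fb : ∀ c < H, ‖f c‖ ≤ F)
    (fl : ∀ c, c + 1 < H → ‖f (c + 1) - f c‖ ≤ Λ) :
    ‖∑ c ∈ range H, gk p k (s + (c : ℤ)) * gk p' k' (t + τ * (c : ℤ)) * f c‖ ≤
      (if p.1 * k = p'.1 * k' then ∏ l ∈ (p.1 * k).primeFactors, loc (p.1 * p'.1) D l else 0) *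
        F * H + (Q : ℝ) ^ 4 * (F + H * Λ) := by
  obtain ⟨hq, hqQ⟩ := cf_q hp hk
  obtain ⟨hq', hqQ'⟩ := cf_q hp' hk'
  set q := p.1 * k with hqd
  set q' := p'.1 * k' with hqd'
  set φ : ℕ → ℂ := fun c => gk p k (s + (c : ℤ)) * gk p' k' (t + τ * (c : ℤ)) with hφ
  have hP : 0 < q * q' := Nat.mul_pos hq hq'
  have per : ∀ c, φ (c + q * q') = φ c := by
    intro c
    simp only [hφ]
    have h1 : s + ((c + q * q' : ℕ) : ℤ) = (s + c) + ((p.1 * k : ℕ) : ℤ) * (q' : ℤ) := by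
      rw [← hqd]
      push_cast
      ring
    have h2 : t + τ * ((c + q * q' : ℕ) : ℤ) =
        (t + τ * c) + ((p'.1 * k' : ℕ) : ℤ) * (τ * (q : ℤ)) := by
      rw [← hqd']
      push_cast
      ring
    rw [h1, h2, gk_period, gk_period]
  have bd : ∀ c, ‖φ c‖ ≤ (Q : ℝ) ^ 2 := by
    intro c
    simp only [hφ]
    rw [norm_mul, sq]
    exact mul_le_mul (gk_bound Q p hp k hk _) (gk_bound Q p' hp' k' hk' _) (norm_nonneg _)
      (Nat.cast_nonneg _)
  have h := per_slow φ f (q * q') H hP ((Q : ℝ) ^ 2) F Λ (by positivity) hF hΛ per bd fb fl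
  have hPQ : ((q * q' : ℕ) : ℝ) ≤ (Q : ℝ) ^ 2 := by
    rw [sq]
    push_cast
    exact mul_le_mul (by exact_mod_cast hqQ) (by exact_mod_cast hqQ') (Nat.cast_nonneg _)
      (Nat.cast_nonneg _)
  have herr : (Q : ℝ) ^ 2 * (q * q' : ℕ) * (F + H * Λ) ≤ (Q : ℝ) ^ 4 * (F + H * Λ) := by
    apply mul_le_mul_of_nonneg_right _ (by positivity)
    calc (Q : ℝ) ^ 2 * (q * q' : ℕ) ≤ (Q : ℝ) ^ 2 * (Q : ℝ) ^ 2 :=
          mul_le_mul_of_nonneg_left hPQ (by positivity)
      _ = (Q : ℝ) ^ 4 := by ring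
  refine h.trans (add_le_add ?_ herr)
  apply mul_le_mul_of_nonneg_right _ (Nat.cast_nonneg _)
  apply mul_le_mul_of_nonneg_right _ hF
  have hPr : (0 : ℝ) < ((q * q' : ℕ) : ℝ) := by exact_mod_cast hP
  by_cases he : q = q'
  · rw [if_pos he]
    rw [div_le_iff₀ hPr]
    have hper1 : ∀ c, φ (c + q) = φ c := by
      intro c
      simp only [hφ]
      have h1 : s + ((c + q : ℕ) : ℤ) = (s + c) + ((p.1 * k : ℕ) : ℤ) * 1 := by
        rw [← hqd]
        push_cast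
        ring
      have h2 : t + τ * ((c + q : ℕ) : ℤ) = (t + τ * c) + ((p'.1 * k' : ℕ) : ℤ) * τ := by
        rw [← hqd', ← he]
        push_cast
        ring
      rw [h1, h2, gk_period, gk_period]
    have h3 : ∑ c ∈ range (q * q'), φ c = (q' : ℂ) * ∑ c ∈ range q, φ c :=
      cf_periods φ q hper1 q'
    rw [h3, norm_mul, Complex.norm_natCast]
    have h4 : ‖∑ c ∈ range q, φ c‖ ≤
        (∏ l ∈ q.primeFactors, loc (p.1 * p'.1) D l) * q := by
      have h5 := loc_mean Q p p' hp hp' k k' hk hk' he s t τ D hτ hD hD2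
      rw [← hqd, div_le_iff₀ (by exact_mod_cast hq)] at h5
      refine le_trans (norm_sum_le _ _) (le_trans (sum_le_sum fun c _ => ?_) h5)
      simp only [hφ]
      rw [norm_mul]
      exact mul_le_mul (gk_le_aw Q p hp k hk _) (gk_le_aw Q p' hp' k' hk' _) (norm_nonneg _)
        ((norm_nonneg _).trans (gk_le_aw Q p hp k hk _))
    calc (q' : ℝ) * ‖∑ c ∈ range q, φ c‖ ≤
          (q' : ℝ) * ((∏ l ∈ q.primeFactors, loc (p.1 * p'.1) D l) * q) :=
          mul_le_mul_of_nonneg_left h4 (Nat.cast_nonneg _)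
      _ = (∏ l ∈ q.primeFactors, loc (p.1 * p'.1) D l) * ((q * q' : ℕ) : ℝ) := by
          push_cast
          ring
  · rw [if_neg he]
    have h0 : ∑ c ∈ range (q * q'), φ c = 0 := by
      apply orth (gk p k) (gk p' k') q q' hq hq' ?_ ?_ ?_ ?_ he s t τ hτ
      · intro m
        have := gk_period p k m 1
        rwa [mul_one, ← hqd] at this
      · intro m
        have := gk_period p' k' m 1
        rwa [mul_one, ← hqd'] at this
      · intro l hl hlq m
        exact gk_prim Q p hp k hk l hl hlq m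
      · intro l hl hlq m
        exact gk_prim Q p' hp' k' hk' l hl hlq m
    rw [h0, norm_zero, zero_div]

theorem cf_cards (Q : ℕ) : ((∑ p ∈ PC Q, (KS Q p.1).card : ℕ) : ℝ) ≤ (Q : ℝ) ^ 3 := by
  have h1 : ∑ p ∈ PC Q, (KS Q p.1).card ≤ ∑ _p ∈ PC Q, Q := by
    apply sum_le_sum
    intro p _
    have h2 : KS Q p.1 ⊆ Icc 1 Q := by
      intro k hk
      have h3 := cf_KS hk
      rw [mem_Icc]
      exact ⟨h3.1, h3.2.trans (Nat.div_le_self _ _)⟩
    have h4 := card_le_card h2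
    rwa [Nat.card_Icc, Nat.add_sub_cancel] at h4
  rw [sum_const, smul_eq_mul] at h1
  have h5 := card_PC_le Q
  have h6 : ∑ p ∈ PC Q, (KS Q p.1).card ≤ Q ^ 3 := by
    calc ∑ p ∈ PC Q, (KS Q p.1).card ≤ (PC Q).card * Q := h1
      _ ≤ Q ^ 2 * Q := Nat.mul_le_mul_right _ h5
      _ = Q ^ 3 := by ring
  exact_mod_cast h6

/-- **The correlation inequality.** Proof. Expand both `SG` by `gam_expand`: the sum over `c` is
`∑_{p,p'} ∑_{k,k'} ∑_c gk gk' f`, `f(c) = b c p · b' c p'`, `|f| ≤ be p be' p'` (`≤ 4`),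
`|f(c+1) - f(c)| ≤ 4 Λ`. `CF_pair` and `sum_loc`: the main parts give at most
`∑_{p,p'} be p be' p' C Gp 1 D H`; there are at most `Q² · Q` pairs `(p, k)`, so the error terms give at
most `Q^6 · Q^4 (4 + 4 H Λ)`. -/
theorem corr_main : ∃ C : ℝ, 1 ≤ C ∧ ∀ (Q H : ℕ) (s t τ D : ℤ)
    (b b' : ℕ → (Σ r : ℕ, DirichletCharacter ℂ r) → ℂ)
    (be be' : (Σ r : ℕ, DirichletCharacter ℂ r) → ℝ) (Λ : ℝ), (τ = 1 ∨ τ = -1) →
    D = s - τ * t → D ≠ 0 → (2 : ℤ) ∣ D → 0 ≤ Λ →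
    (∀ p ∈ PC Q, 0 ≤ be p ∧ be p ≤ 2 ∧ 0 ≤ be' p ∧ be' p ≤ 2 ∧
      (∀ c < H, ‖b c p‖ ≤ be p ∧ ‖b' c p‖ ≤ be' p) ∧
      ∀ c, c + 1 < H → ‖b (c + 1) p - b c p‖ ≤ Λ ∧ ‖b' (c + 1) p - b' c p‖ ≤ Λ) →
    ‖∑ c ∈ range H, SG Q (b c) (s + (c : ℤ)) * SG Q (b' c) (t + τ * (c : ℤ))‖ ≤
      C * (∑ p ∈ PC Q, be p) * (∑ p ∈ PC Q, be' p) * Pool.Agent.Lib.H18E.Gp 1 D * H +
        4 * (Q : ℝ) ^ 10 * (1 + H * Λ) := by
  obtain ⟨C, hC, hsum⟩ := sum_loc
  refine ⟨C, hC, ?_⟩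
  intro Q H s t τ D b b' be be' Λ hτ hD hD0 hD2 hΛ hb
  -- expansion
  have hexp : ∀ (β : (Σ r : ℕ, DirichletCharacter ℂ r) → ℂ) (m : ℤ),
      SG Q β m = ∑ p ∈ PC Q, ∑ k ∈ KS Q p.1, gk p k m * β p := by
    intro β m
    unfold SG
    apply sum_congr rfl
    intro p hp
    rw [gam_expand Q p hp m, sum_mul]
  have h1 : ∑ c ∈ range H, SG Q (b c) (s + (c : ℤ)) * SG Q (b' c) (t + τ * (c : ℤ)) =
      ∑ p ∈ PC Q, ∑ k ∈ KS Q p.1, ∑ p' ∈ PC Q, ∑ k' ∈ KS Q p'.1, ∑ c ∈ range H,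
        gk p k (s + (c : ℤ)) * gk p' k' (t + τ * (c : ℤ)) * (b c p * b' c p') := by
    have h2 : ∀ c ∈ range H, SG Q (b c) (s + (c : ℤ)) * SG Q (b' c) (t + τ * (c : ℤ)) =
        ∑ p ∈ PC Q, ∑ k ∈ KS Q p.1, ∑ p' ∈ PC Q, ∑ k' ∈ KS Q p'.1,
          gk p k (s + (c : ℤ)) * gk p' k' (t + τ * (c : ℤ)) * (b c p * b' c p') := by
      intro c _
      rw [hexp, hexp, sum_mul]
      apply sum_congr rfl
      intro p _
      rw [sum_mul]
      apply sum_congr rfl
      intro k _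
      rw [mul_sum]
      apply sum_congr rfl
      intro p' _
      rw [mul_sum]
      apply sum_congr rfl
      intro k' _
      ring
    rw [sum_congr rfl h2, sum_comm]
    apply sum_congr rfl
    intro p _
    rw [sum_comm]
    apply sum_congr rfl
    intro k _
    rw [sum_comm]
    apply sum_congr rfl
    intro p' _
    rw [sum_comm]
  rw [h1]
  -- the single terms
  let T : (Σ r : ℕ, DirichletCharacter ℂ r) → ℕ → (Σ r : ℕ, DirichletCharacter ℂ r) → ℕ → ℝ :=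
    fun p k p' k' =>
      (if p.1 * k = p'.1 * k' then ∏ l ∈ (p.1 * k).primeFactors, loc (p.1 * p'.1) D l else 0)
  have hterm : ∀ p ∈ PC Q, ∀ k ∈ KS Q p.1, ∀ p' ∈ PC Q, ∀ k' ∈ KS Q p'.1,
      ‖∑ c ∈ range H, gk p k (s + (c : ℤ)) * gk p' k' (t + τ * (c : ℤ)) *
        (b c p * b' c p')‖ ≤
      T p k p' k' * (be p * be' p' * H) + (Q : ℝ) ^ 4 * (4 * (1 + H * Λ)) := by
    intro p hp k hk p' hp' k' hk'
    obtain ⟨hb1, hb2, -, -, hb5, hb6⟩ := hb p hp
    obtain ⟨-, -, hb3, hb4, hb7, hb8⟩ := hb p' hp'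
    have hc := CF_pair Q H p p' hp hp' k k' hk hk' s t τ D hτ hD hD2
      (fun c => b c p * b' c p') (be p * be' p') (4 * Λ) (mul_nonneg hb1 hb3) (by linarith)
      (by
        intro c hc
        rw [norm_mul]
        exact mul_le_mul (hb5 c hc).1 (hb7 c hc).2 (norm_nonneg _) hb1)
      (by
        intro c hc
        have e1 : b (c + 1) p * b' (c + 1) p' - b c p * b' c p' =
            (b (c + 1) p - b c p) * b' (c + 1) p' + b c p * (b' (c + 1) p' - b' c p') := by ring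
        rw [e1]
        refine (norm_add_le _ _).trans ?_
        rw [norm_mul, norm_mul]
        have e2 : ‖b (c + 1) p - b c p‖ * ‖b' (c + 1) p'‖ ≤ Λ * 2 :=
          mul_le_mul (hb6 c hc).1 ((hb7 (c + 1) hc).2.trans hb4) (norm_nonneg _) hΛ
        have e3 : ‖b c p‖ * ‖b' (c + 1) p' - b' c p'‖ ≤ 2 * Λ :=
          mul_le_mul ((hb5 c (by omega)).1.trans hb2) (hb8 c hc).2 (norm_nonneg _) (by norm_num)
        linarith)
    refine hc.trans ?_
    have e4 : T p k p' k' * (be p * be' p') * H = T p k p' k' * (be p * be' p' * H) := by ring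
    change T p k p' k' * (be p * be' p') * H + _ ≤ _
    rw [e4]
    apply add_le_add le_rfl
    apply mul_le_mul_of_nonneg_left _ (by positivity)
    have e5 : be p * be' p' ≤ 2 * 2 := mul_le_mul hb2 hb4 hb3 (by norm_num)
    have e6 : 4 * (1 + (H : ℝ) * Λ) = 4 + H * (4 * Λ) := by ring
    rw [e6]
    linarith
  -- sum of the bounds
  have h3 : ‖∑ p ∈ PC Q, ∑ k ∈ KS Q p.1, ∑ p' ∈ PC Q, ∑ k' ∈ KS Q p'.1, ∑ c ∈ range H,
        gk p k (s + (c : ℤ)) * gk p' k' (t + τ * (c : ℤ)) * (b c p * b' c p')‖ ≤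
      ∑ p ∈ PC Q, ∑ k ∈ KS Q p.1, ∑ p' ∈ PC Q, ∑ k' ∈ KS Q p'.1,
        (T p k p' k' * (be p * be' p' * H) + (Q : ℝ) ^ 4 * (4 * (1 + H * Λ))) := by
    refine (norm_sum_le _ _).trans (sum_le_sum fun p hp => ?_)
    refine (norm_sum_le _ _).trans (sum_le_sum fun k hk => ?_)
    refine (norm_sum_le _ _).trans (sum_le_sum fun p' hp' => ?_)
    refine (norm_sum_le _ _).trans (sum_le_sum fun k' hk' => ?_)
    exact hterm p hp k hk p' hp' k' hk'
  refine h3.trans ?_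
  simp only [sum_add_distrib]
  apply add_le_add
  · -- main terms
    have h4 : ∑ p ∈ PC Q, ∑ k ∈ KS Q p.1, ∑ p' ∈ PC Q, ∑ k' ∈ KS Q p'.1,
        T p k p' k' * (be p * be' p' * H) =
        ∑ p ∈ PC Q, ∑ p' ∈ PC Q, (∑ k ∈ KS Q p.1, ∑ k' ∈ KS Q p'.1, T p k p' k') *
          (be p * be' p' * H) := by
      apply sum_congr rfl
      intro p _
      rw [sum_comm]
      apply sum_congr rfl
      intro p' _
      rw [sum_mul]
      apply sum_congr rfl
      intro k _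
      rw [sum_mul]
    rw [h4]
    have h5 : ∀ p ∈ PC Q, ∀ p' ∈ PC Q,
        (∑ k ∈ KS Q p.1, ∑ k' ∈ KS Q p'.1, T p k p' k') * (be p * be' p' * H) ≤
          C * Pool.Agent.Lib.H18E.Gp 1 D * (be p * be' p' * H) := by
      intro p hp p' hp'
      obtain ⟨hb1, -⟩ := hb p hp
      obtain ⟨-, -, hb3, -⟩ := hb p' hp'
      apply mul_le_mul_of_nonneg_right _ (by positivity)
      refine le_trans (le_of_eq ?_) (hsum Q p p' hp hp' D hD0 hD2)
      apply sum_congr rfl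
      intro k _
      rw [sum_filter]
    refine (sum_le_sum fun p hp => sum_le_sum fun p' hp' => h5 p hp p' hp').trans ?_
    apply le_of_eq
    have h6 : ∀ p ∈ PC Q, ∑ p' ∈ PC Q,
        C * Pool.Agent.Lib.H18E.Gp 1 D * (be p * be' p' * H) =
        be p * (C * Pool.Agent.Lib.H18E.Gp 1 D * H * ∑ p' ∈ PC Q, be' p') := by
      intro p _
      rw [mul_sum, mul_sum]
      apply sum_congr rfl
      intro p' _
      ring
    rw [sum_congr rfl h6, ← sum_mul]
    ring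
  · -- error terms
    have hE : 0 ≤ (Q : ℝ) ^ 4 * (4 * (1 + H * Λ)) := by positivity
    set E : ℝ := (Q : ℝ) ^ 4 * (4 * (1 + H * Λ)) with hEd
    have h7 : ∑ p ∈ PC Q, ∑ k ∈ KS Q p.1, ∑ p' ∈ PC Q, ∑ _k' ∈ KS Q p'.1, E =
        ((∑ p ∈ PC Q, (KS Q p.1).card : ℕ) : ℝ) *
          (((∑ p ∈ PC Q, (KS Q p.1).card : ℕ) : ℝ) * E) := by
      have h8 : ∑ p' ∈ PC Q, ∑ _k' ∈ KS Q p'.1, E =
          ((∑ p ∈ PC Q, (KS Q p.1).card : ℕ) : ℝ) * E := by
        push_cast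
        rw [sum_mul]
        apply sum_congr rfl
        intro p' _
        rw [sum_const, nsmul_eq_mul]
      rw [h8]
      have h9 : ∀ X : ℝ, ∑ p ∈ PC Q, ∑ _k ∈ KS Q p.1, X =
          ((∑ p ∈ PC Q, (KS Q p.1).card : ℕ) : ℝ) * X := by
        intro X
        push_cast
        rw [sum_mul]
        apply sum_congr rfl
        intro p' _
        rw [sum_const, nsmul_eq_mul]
      rw [h9]
    rw [h7]
    have h10 := cf_cards Q
    have h11 : (0 : ℝ) ≤ ((∑ p ∈ PC Q, (KS Q p.1).card : ℕ) : ℝ) := Nat.cast_nonneg _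
    calc ((∑ p ∈ PC Q, (KS Q p.1).card : ℕ) : ℝ) *
          (((∑ p ∈ PC Q, (KS Q p.1).card : ℕ) : ℝ) * E) ≤ (Q : ℝ) ^ 3 * ((Q : ℝ) ^ 3 * E) := by
          apply mul_le_mul h10 _ (mul_nonneg h11 hE) (by positivity)
          exact mul_le_mul_of_nonneg_right h10 hE
      _ = 4 * (Q : ℝ) ^ 10 * (1 + H * Λ) := by
          rw [hEd]
          ring

end Pool.Agent.Lib.H18Q
end

-- from Lib.H59T.G1
section

/-!
# Project H59T, chunk G1 (M): Lemma G for prime moduli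
-/

open Finset

namespace Pool.Agent.Lib.H59T

theorem g1_double (q : ℕ) (hq : Odd q) (x y : ZMod q) (h : x + x = y + y) : x = y := by
  obtain ⟨k, hk⟩ := hq
  have h0 : (2 * (k : ZMod q) + 1) = 0 := by
    have : ((2 * k + 1 : ℕ) : ZMod q) = 0 := by rw [← hk]; exact ZMod.natCast_self q
    push_cast at this
    exact this
  linear_combination (-(k : ZMod q)) * h + (x - y) * h0

theorem g1_sub (q : ℕ) [NeZero q] (hq : Odd q) (H : ZMod q → ZMod q → ℂ) :
    ∑ z : ZMod q, ∑ y : ZMod q, H (z + y) (z - y) = ∑ s : ZMod q, ∑ t : ZMod q, H s t := by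
  rw [← Fintype.sum_prod_type' (f := fun z y : ZMod q => H (z + y) (z - y)), ← Fintype.sum_prod_type' (f := fun z y : ZMod q => H z y)]
  have hinj : Function.Injective (fun p : ZMod q × ZMod q => (p.1 + p.2, p.1 - p.2)) := by
    rintro ⟨a, b⟩ ⟨c, d⟩ h
    simp only [Prod.mk.injEq] at h
    obtain ⟨h1, h2⟩ := h
    have h3 : a = c := g1_double q hq a c (by linear_combination h1 + h2)
    have h4 : b = d := by rw [h3] at h1; exact add_left_cancel h1
    rw [h3, h4]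
  have hbij : Function.Bijective (fun p : ZMod q × ZMod q => (p.1 + p.2, p.1 - p.2)) :=
    Finite.injective_iff_bijective.1 hinj
  exact hbij.sum_comp (fun p : ZMod q × ZMod q => H p.1 p.2)

theorem g1_sq {ι : Type*} [Fintype ι] (f : ι → ℂ) : ((‖∑ y, f y‖ ^ 2 : ℝ) : ℂ) = ∑ y1, ∑ y2, f y1 * star (f y2) := by
  rw [← Finset.sum_mul_sum, ← star_sum]
  have := Complex.mul_conj (∑ y, f y)
  rw [Complex.normSq_eq_norm_sq] at this
  rw [← this]
  rfl

/-- The expansion of `GS`, for odd `q`. Proof. Expand the square: sum over `z1, z2, y1, y2` of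
`χ(z1+y1) star χ(z2+y1) star χ(z1+y2) χ(z2+y2) · W(z1-y1) W'(z2-y1) star W(z1-y2) star W'(z2-y2)`; substitute
`s = z1 + y1`, `t = z1 - y1` (bijection, `2` is invertible), `a = y2 - y1`, `b = z2 - z1`: the arguments are
`s, s+b, s+a, s+a+b` and `t, t+b, t-a, t+b-a`. -/
theorem G1_expand (q : ℕ) [NeZero q] (hq : Odd q) (χ : DirichletCharacter ℂ q) (W W' : ZMod q → ℂ) :
    ((GS χ W W' : ℝ) : ℂ) = ∑ a : ZMod q, ∑ b : ZMod q, U4 χ a b *
      ∑ t : ZMod q, W t * W' (t + b) * star (W (t - a)) * star (W' (t + b - a)) := by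
  unfold GS U4
  push_cast
  have e1 : ∀ z1 z2 : ZMod q, ((‖∑ y : ZMod q, χ (z1 + y) * star (χ (z2 + y)) * W (z1 - y) * W' (z2 - y)‖ : ℂ)) ^ 2 =
      ∑ y1 : ZMod q, ∑ y2 : ZMod q, (χ (z1 + y1) * star (χ (z2 + y1)) * W (z1 - y1) * W' (z2 - y1)) *
        star (χ (z1 + y2) * star (χ (z2 + y2)) * W (z1 - y2) * W' (z2 - y2)) := by
    intro z1 z2
    rw [← g1_sq]
    push_cast
    rfl
  simp only [e1]
  -- substitute `z2 = z1 + b`, `y2 = y1 + a`
  have e2 : ∀ z1 : ZMod q, ∑ z2 : ZMod q, ∑ y1 : ZMod q, ∑ y2 : ZMod q,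
      (χ (z1 + y1) * star (χ (z2 + y1)) * W (z1 - y1) * W' (z2 - y1)) *
        star (χ (z1 + y2) * star (χ (z2 + y2)) * W (z1 - y2) * W' (z2 - y2)) =
      ∑ b : ZMod q, ∑ y1 : ZMod q, ∑ a : ZMod q,
      (χ (z1 + y1) * star (χ (z1 + b + y1)) * W (z1 - y1) * W' (z1 + b - y1)) *
        star (χ (z1 + (y1 + a)) * star (χ (z1 + b + (y1 + a))) * W (z1 - (y1 + a)) * W' (z1 + b - (y1 + a))) := by
    intro z1
    rw [← Equiv.sum_comp (Equiv.addLeft z1)]
    refine Finset.sum_congr rfl fun b _ => Finset.sum_congr rfl fun y1 _ => ?_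
    rw [← Equiv.sum_comp (Equiv.addLeft y1)]
    rfl
  simp only [e2]
  have e3 : ∀ a b : ZMod q, (∑ s : ZMod q, χ s * star (χ (s + a)) * star (χ (s + b)) * χ (s + a + b)) *
      ∑ t : ZMod q, W t * W' (t + b) * star (W (t - a)) * star (W' (t + b - a)) =
      ∑ z : ZMod q, ∑ y : ZMod q, (χ (z + y) * star (χ (z + b + y)) * W (z - y) * W' (z + b - y)) *
        star (χ (z + (y + a)) * star (χ (z + b + (y + a))) * W (z - (y + a)) * W' (z + b - (y + a))) := by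
    intro a b
    rw [Finset.sum_mul_sum, ← g1_sub q hq]
    refine Finset.sum_congr rfl fun z _ => Finset.sum_congr rfl fun y _ => ?_
    have i1 : z + y + a = z + (y + a) := by ring
    have i2 : z + y + b = z + b + y := by ring
    have i3 : z + (y + a) + b = z + b + (y + a) := by ring
    have i4 : z - y + b = z + b - y := by ring
    have i5 : z - y - a = z - (y + a) := by ring
    have i6 : z + b - y - a = z + b - (y + a) := by ring
    rw [i1, i2, i3, i4, i5, i6]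
    simp only [star_mul', star_star]
    ring
  simp only [e3]
  -- swap the sums
  rw [Finset.sum_comm]
  rw [Finset.sum_comm (s := univ) (t := univ) (f := fun a b => ∑ z : ZMod q, ∑ y : ZMod q, (χ (z + y) * star (χ (z + b + y)) * W (z - y) * W' (z + b - y)) *
        star (χ (z + (y + a)) * star (χ (z + b + (y + a))) * W (z - (y + a)) * W' (z + b - (y + a))))]
  refine Finset.sum_congr rfl fun b _ => ?_
  rw [Finset.sum_comm (s := univ) (t := univ) (f := fun a z => ∑ y : ZMod q, (χ (z + y) * star (χ (z + b + y)) * W (z - y) * W' (z + b - y)) *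
        star (χ (z + (y + a)) * star (χ (z + b + (y + a))) * W (z - (y + a)) * W' (z + b - (y + a))))]
  refine Finset.sum_congr rfl fun z _ => ?_
  rw [Finset.sum_comm]

/-- Proof. `G1_expand`; the inner sum is at most `l`; Cauchy-Schwarz over `a, b` and `K4`:
`l (l² · 13 l³)^(1/2) ≤ 4 l^(7/2)`. -/
theorem G1 (l : ℕ) [Fact l.Prime] (hl : l ≠ 2) (χ : DirichletCharacter ℂ l) (hχ : χ ≠ 1)
    (W W' : ZMod l → ℂ) (hW : ∀ t, ‖W t‖ ≤ 1) (hW' : ∀ t, ‖W' t‖ ≤ 1) :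
    GS χ W W' ≤ 4 * (l : ℝ) ^ (7 / 2 : ℝ) := by
  have hp : l.Prime := Fact.out
  have hodd : Odd l := hp.odd_of_ne_two hl
  have hl0 : (0 : ℝ) ≤ l := Nat.cast_nonneg l
  have h0 : 0 ≤ GS χ W W' := by
    unfold GS
    positivity
  have h1 : GS χ W W' ≤ (l : ℝ) * ∑ a : ZMod l, ∑ b : ZMod l, ‖U4 χ a b‖ := by
    have e1 : GS χ W W' = ‖((GS χ W W' : ℝ) : ℂ)‖ := by
      rw [Complex.norm_real, Real.norm_of_nonneg h0]
    rw [e1, G1_expand l hodd, Finset.mul_sum]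
    refine (norm_sum_le _ _).trans (Finset.sum_le_sum fun a _ => ?_)
    rw [Finset.mul_sum]
    refine (norm_sum_le _ _).trans (Finset.sum_le_sum fun b _ => ?_)
    rw [norm_mul, mul_comm]
    refine mul_le_mul_of_nonneg_right ?_ (norm_nonneg _)
    refine (norm_sum_le _ _).trans ?_
    calc ∑ t : ZMod l, ‖W t * W' (t + b) * star (W (t - a)) * star (W' (t + b - a))‖ ≤ ∑ t : ZMod l, (1 : ℝ) := by
          refine Finset.sum_le_sum fun t _ => ?_
          rw [norm_mul, norm_mul, norm_mul, norm_star, norm_star]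
          have k1 := hW t
          have k2 := hW' (t + b)
          have k3 := hW (t - a)
          have k4 := hW' (t + b - a)
          exact mul_le_one₀ (mul_le_one₀ (mul_le_one₀ k1 (norm_nonneg _) k2) (norm_nonneg _) k3) (norm_nonneg _) k4
      _ = l := by
          rw [Finset.sum_const, Finset.card_univ, ZMod.card, nsmul_eq_mul, mul_one]
  have h2 : (∑ a : ZMod l, ∑ b : ZMod l, ‖U4 χ a b‖) ^ 2 ≤ (l : ℝ) ^ 2 * (13 * (l : ℝ) ^ 3) := by
    have k := K4 l hl χ hχ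
    rw [← Fintype.sum_prod_type' (f := fun a b : ZMod l => ‖U4 χ a b‖)]
    rw [← Fintype.sum_prod_type' (f := fun a b : ZMod l => ‖U4 χ a b‖ ^ 2)] at k
    have k2 := sq_sum_le_card_mul_sum_sq (s := (univ : Finset (ZMod l × ZMod l))) (f := fun p => ‖U4 χ p.1 p.2‖)
    refine k2.trans ?_
    have k3 : ((univ : Finset (ZMod l × ZMod l)).card : ℝ) = (l : ℝ) ^ 2 := by
      rw [Finset.card_univ, Fintype.card_prod, ZMod.card]
      push_cast
      ring
    rw [k3]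
    exact mul_le_mul_of_nonneg_left k (by positivity)
  refine h1.trans ?_
  have h3 : (4 * (l : ℝ) ^ (7 / 2 : ℝ)) ^ 2 = 16 * (l : ℝ) ^ 7 := by
    rw [mul_pow, ← Real.rpow_natCast ((l : ℝ) ^ (7 / 2 : ℝ)) 2, ← Real.rpow_mul hl0, ← Real.rpow_natCast (l : ℝ) 7]
    norm_num
  have h4 : 0 ≤ 4 * (l : ℝ) ^ (7 / 2 : ℝ) := by positivity
  refine (abs_le_of_sq_le_sq' ?_ h4).2
  rw [h3, mul_pow]
  calc (l : ℝ) ^ 2 * (∑ a : ZMod l, ∑ b : ZMod l, ‖U4 χ a b‖) ^ 2 ≤ (l : ℝ) ^ 2 * ((l : ℝ) ^ 2 * (13 * (l : ℝ) ^ 3)) :=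
        mul_le_mul_of_nonneg_left h2 (by positivity)
    _ = 13 * (l : ℝ) ^ 7 := by ring
    _ ≤ 16 * (l : ℝ) ^ 7 := by
        have : 0 ≤ (l : ℝ) ^ 7 := by positivity
        linarith

end Pool.Agent.Lib.H59T
end

-- from Lib.H59T.G5
section

/-!
# Project H59T, chunk G5 (M): Lemma G
-/

open Finset

namespace Pool.Agent.Lib.H59T

/-- The generic step: averaging over a common shift. -/
theorem g5_gen {q : ℕ} [NeZero q] (χ : DirichletCharacter ℂ q) (W W' : ZMod q → ℂ)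
    (hW : ∀ t, ‖W t‖ ≤ 1) (hW' : ∀ t, ‖W' t‖ ≤ 1) (c : ZMod q)
    (p : ZMod q × ZMod q × ZMod q × ZMod q → Prop) [DecidablePred p]
    (h0 : ∀ x : ZMod q × ZMod q × ZMod q × ZMod q, ¬ p x →
      ∑ v : ZMod q, χ (x.1 + x.2.2.1 + 2 * c * v) *
        star (χ (x.2.1 + x.2.2.1 + 2 * c * v)) * star (χ (x.1 + x.2.2.2 + 2 * c * v)) *
        χ (x.2.1 + x.2.2.2 + 2 * c * v) = 0) :
    GS χ W W' ≤ ((univ.filter p).card : ℝ) := by
  set F : ZMod q → ZMod q → ZMod q → ℂ := fun z1 z2 y =>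
    χ (z1 + y) * star (χ (z2 + y)) * W (z1 - y) * W' (z2 - y) with hF
  set T : ZMod q × ZMod q × ZMod q × ZMod q → ℂ := fun x =>
    F x.1 x.2.1 x.2.2.1 * star (F x.1 x.2.1 x.2.2.2) with hT
  set D : ZMod q × ZMod q × ZMod q × ZMod q → ℂ := fun x =>
    W (x.1 - x.2.2.1) * W' (x.2.1 - x.2.2.1) * star (W (x.1 - x.2.2.2)) * star (W' (x.2.1 - x.2.2.2)) with hD
  set Cf : ZMod q × ZMod q × ZMod q × ZMod q → ZMod q → ℂ := fun x v =>
    χ (x.1 + x.2.2.1 + 2 * c * v) *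
        star (χ (x.2.1 + x.2.2.1 + 2 * c * v)) * star (χ (x.1 + x.2.2.2 + 2 * c * v)) *
        χ (x.2.1 + x.2.2.2 + 2 * c * v) with hC
  have h1 : ((GS χ W W' : ℝ) : ℂ) = ∑ x, T x := by
    have e1 : ∀ z1 z2 : ZMod q, (((‖∑ y : ZMod q, F z1 z2 y‖ ^ 2 : ℝ)) : ℂ) =
        ∑ y1, ∑ y2, F z1 z2 y1 * star (F z1 z2 y2) := by
      intro z1 z2
      have e2 : (((‖∑ y : ZMod q, F z1 z2 y‖ ^ 2 : ℝ)) : ℂ) =
          (∑ y : ZMod q, F z1 z2 y) * star (∑ y : ZMod q, F z1 z2 y) := by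
        rw [Complex.star_def, Complex.mul_conj, Complex.normSq_eq_norm_sq]
      rw [e2, star_sum, Finset.sum_mul_sum]
    unfold GS
    rw [Complex.ofReal_sum, Fintype.sum_prod_type]
    refine Finset.sum_congr rfl fun z1 _ => ?_
    rw [Complex.ofReal_sum, Fintype.sum_prod_type]
    refine Finset.sum_congr rfl fun z2 _ => ?_
    rw [Fintype.sum_prod_type]
    exact e1 z1 z2
  have h2 : ∀ v : ZMod q, ∑ x, D x * Cf x v = ∑ x, T x := by
    intro v
    rw [← Equiv.sum_comp (Equiv.addRight ((c * v, c * v, c * v, c * v) :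
      ZMod q × ZMod q × ZMod q × ZMod q)) T]
    refine Finset.sum_congr rfl fun x _ => ?_
    obtain ⟨z1, z2, y1, y2⟩ := x
    simp only [hT, hF, hD, hC, Equiv.coe_addRight, Prod.mk_add_mk, star_mul']
    have a1 : z1 + c * v - (y1 + c * v) = z1 - y1 := by ring
    have a2 : z2 + c * v - (y1 + c * v) = z2 - y1 := by ring
    have a3 : z1 + c * v - (y2 + c * v) = z1 - y2 := by ring
    have a4 : z2 + c * v - (y2 + c * v) = z2 - y2 := by ring
    have b1 : z1 + c * v + (y1 + c * v) = z1 + y1 + 2 * c * v := by ring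
    have b2 : z2 + c * v + (y1 + c * v) = z2 + y1 + 2 * c * v := by ring
    have b3 : z1 + c * v + (y2 + c * v) = z1 + y2 + 2 * c * v := by ring
    have b4 : z2 + c * v + (y2 + c * v) = z2 + y2 + 2 * c * v := by ring
    rw [a1, a2, a3, a4, b1, b2, b3, b4, star_star]
    ring
  have hq0 : (0 : ℝ) < q := by exact_mod_cast Nat.pos_of_ne_zero (NeZero.ne q)
  have h3 : ((q * GS χ W W' : ℝ) : ℂ) = ∑ x, D x * ∑ v, Cf x v := by
    have e1 : ∑ x, D x * ∑ v, Cf x v = ∑ v, ∑ x, D x * Cf x v := by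
      rw [Finset.sum_comm]
      refine Finset.sum_congr rfl fun x _ => ?_
      rw [Finset.mul_sum]
    rw [e1, Finset.sum_congr rfl fun v _ => h2 v, Finset.sum_const, Finset.card_univ, ZMod.card, nsmul_eq_mul, ← h1]
    push_cast
    ring
  have hχ1 : ∀ s, ‖χ s‖ ≤ 1 := fun s => DirichletCharacter.norm_le_one χ s
  have hDn : ∀ x, ‖D x‖ ≤ 1 := by
    intro x
    simp only [hD, norm_mul, norm_star]
    have w1 := hW (x.1 - x.2.2.1)
    have w2 := hW' (x.2.1 - x.2.2.1)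
    have w3 := hW (x.1 - x.2.2.2)
    have w4 := hW' (x.2.1 - x.2.2.2)
    exact mul_le_one₀ (mul_le_one₀ (mul_le_one₀ w1 (norm_nonneg _) w2) (norm_nonneg _) w3) (norm_nonneg _) w4
  have hCn : ∀ x v, ‖Cf x v‖ ≤ 1 := by
    intro x v
    simp only [hC, norm_mul, norm_star]
    exact mul_le_one₀ (mul_le_one₀ (mul_le_one₀ (hχ1 _) (norm_nonneg _) (hχ1 _)) (norm_nonneg _) (hχ1 _))
      (norm_nonneg _) (hχ1 _)
  have h4 : q * GS χ W W' ≤ ∑ x, (if p x then (q : ℝ) else 0) := by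
    have hG0 : 0 ≤ GS χ W W' := by
      unfold GS
      positivity
    have e1 : q * GS χ W W' = ‖((q * GS χ W W' : ℝ) : ℂ)‖ := by
      rw [Complex.norm_real, Real.norm_of_nonneg (by positivity)]
    rw [e1, h3]
    refine (norm_sum_le _ _).trans (Finset.sum_le_sum fun x _ => ?_)
    split_ifs with hp
    · rw [norm_mul]
      have e2 : ‖∑ v, Cf x v‖ ≤ q := by
        refine (norm_sum_le _ _).trans ?_
        calc ∑ v : ZMod q, ‖Cf x v‖ ≤ ∑ _v : ZMod q, (1 : ℝ) := Finset.sum_le_sum fun v _ => hCn x v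
          _ = q := by rw [Finset.sum_const, Finset.card_univ, ZMod.card, nsmul_eq_mul, mul_one]
      calc ‖D x‖ * ‖∑ v, Cf x v‖ ≤ 1 * q := mul_le_mul (hDn x) e2 (norm_nonneg _) zero_le_one
        _ = q := one_mul _
    · have e3 : ∑ v, Cf x v = 0 := h0 x hp
      rw [e3, mul_zero, norm_zero]
  rw [← Finset.sum_filter, Finset.sum_const, nsmul_eq_mul, mul_comm] at h4
  exact le_of_mul_le_mul_right h4 hq0

/-- Prime powers. Proof. `n = a/2`, `m = a - n`. `GS` is the sum over `z1, z2, y1, y2` of `T(z1,z2,y1,y2)` (see `G1_expand`, first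
step). For each `v` the sum does not change if `z_i, y_j` are replaced by `z_i + l^m v, y_j + l^m v`; the arguments of `W`, `W'` do
not change. So `l^a GS = ∑_{z,y} W.. ∑_v χ(s11 + 2 l^m v) ..`, the inner sum is `0` unless `l^n` divides `2 (..)(..)(..)` (`G3`)
and at most `l^a` in absolute value. `G4`: `GS ≤ 6 l^(4a) l^(-n/3)`, and `n ≥ a/3`. -/
theorem G5_pow (l a : ℕ) (hl : l.Prime) (ha : 2 ≤ a) [NeZero (l ^ a)] (χ : DirichletCharacter ℂ (l ^ a))
    (hχ : χ.IsPrimitive) (W W' : ZMod (l ^ a) → ℂ) (hW : ∀ t, ‖W t‖ ≤ 1) (hW' : ∀ t, ‖W' t‖ ≤ 1) :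
    GS χ W W' ≤ 6 * ((l ^ a : ℕ) : ℝ) ^ 4 * (l : ℝ) ^ (-(a / 9 : ℝ)) := by
  set n := a / 2 with hn
  have h1 := g5_gen χ W W' hW hW' ((l : ZMod (l ^ a)) ^ (a - n))
    (fun x => l ^ n ∣ (2 * (x.1 + x.2.1 + x.2.2.1 + x.2.2.2) * (x.1 - x.2.1) *
        (x.2.2.1 - x.2.2.2)).val)
    (fun x hx => G3 l a (a - n) n hl (by omega) (by omega) (by omega) χ hχ x.1 x.2.1 x.2.2.1 x.2.2.2 hx)
  refine h1.trans ((G4 l a n hl (by omega)).trans ?_)
  refine mul_le_mul_of_nonneg_left ?_ (by positivity)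
  refine Real.rpow_le_rpow_of_exponent_le (by exact_mod_cast hl.one_lt.le) ?_
  have h2 : (a : ℝ) ≤ 3 * n := by exact_mod_cast (by omega : a ≤ 3 * n)
  linarith

theorem g5_two : ∀ x : ZMod 2, x ≠ 0 → x = 1 := by decide

theorem g5_prime (q l : ℕ) (hql : q = l) (hl : l.Prime) [NeZero q] (χ : DirichletCharacter ℂ q)
    (hχ : χ.IsPrimitive) (W W' : ZMod q → ℂ) (hW : ∀ t, ‖W t‖ ≤ 1) (hW' : ∀ t, ‖W' t‖ ≤ 1) :
    GS χ W W' ≤ 4 * (l : ℝ) ^ (7 / 2 : ℝ) := by
  subst hql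
  have := Fact.mk hl
  have h1 : χ ≠ 1 := by
    intro h
    rw [h, DirichletCharacter.isPrimitive_def, DirichletCharacter.conductor_one] at hχ
    exact hl.one_lt.ne hχ
  have h2 : q ≠ 2 := by
    intro h
    subst h
    refine h1 (MulChar.ext fun u => ?_)
    have hu : u = 1 := by
      apply Units.ext
      have h3 : (u : ZMod 2) ≠ 0 := u.ne_zero
      exact g5_two _ h3
    rw [hu]
    simp
  exact G1 q h2 χ h1 W W' hW hW'

/-- **Lemma G.** Proof. `a ≥ 2`: `G5_pow`. `a = 1`: `l ≠ 2` (there is no primitive character modulo `2`: the only character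
modulo `2` is `1`, whose conductor is `1`), `χ ≠ 1`; `G1` (transport along `l^1 = l`). -/
theorem G5 (l a : ℕ) (hl : l.Prime) (ha : 1 ≤ a) [NeZero (l ^ a)] (χ : DirichletCharacter ℂ (l ^ a))
    (hχ : χ.IsPrimitive) (W W' : ZMod (l ^ a) → ℂ) (hW : ∀ t, ‖W t‖ ≤ 1) (hW' : ∀ t, ‖W' t‖ ≤ 1) :
    GS χ W W' ≤ 6 * ((l ^ a : ℕ) : ℝ) ^ 4 * (l : ℝ) ^ (-(a / 9 : ℝ)) := by
  rcases Nat.lt_or_ge a 2 with h | h
  · have ha1 : a = 1 := by omega
    subst ha1
    refine (g5_prime (l ^ 1) l (pow_one l) hl χ hχ W W' hW hW').trans ?_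
    have hl1 : (1 : ℝ) ≤ l := by exact_mod_cast hl.one_lt.le
    have hl0 : (0 : ℝ) < l := by linarith
    have e1 : ((l ^ 1 : ℕ) : ℝ) ^ 4 * (l : ℝ) ^ (-(((1 : ℕ) : ℝ) / 9 : ℝ)) = (l : ℝ) ^ (4 - 1 / 9 : ℝ) := by
      rw [pow_one, ← Real.rpow_natCast, ← Real.rpow_add hl0]
      congr 1
      push_cast
      ring
    rw [mul_assoc, e1]
    have e2 : (l : ℝ) ^ (7 / 2 : ℝ) ≤ (l : ℝ) ^ (4 - 1 / 9 : ℝ) :=
      Real.rpow_le_rpow_of_exponent_le hl1 (by norm_num)
    have e3 : 0 < (l : ℝ) ^ (7 / 2 : ℝ) := Real.rpow_pos_of_pos hl0 _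
    nlinarith
  · exact G5_pow l a hl h χ hχ W W' hW hW'

end Pool.Agent.Lib.H59T
end

-- from Lib.H18Q.HM
section

/-!
# Project H18Q, chunk HM: half of the classes
-/

open Finset

namespace Pool.Agent.Lib.H18Q

open Pool.Agent.Lib.H68T Pool.Agent.Lib.H18E

open scoped Classical in
/-- If a prime `p` divides `r` and `x`, half of the compatible classes have `ψ(x + y) = -1`.

Proof. By `CM_ex` with `m = r/p` there is a unit `u` modulo `r`, `u ≡ 1` modulo `r/p`, `ψ(u) ≠ 1`, so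
`ψ(u) = -1` (`CM_val`). `u x = x` in `ZMod r`: `u = 1 + (r/p) k`, `(r/p) k x = r k (x/p) = 0`. So `y ↦ u y`
maps the compatible classes (`CM_compat`: units `x + y`, `x - y`) to themselves
(`x ± u y = u (x ± y)`), injectively, and `ψ(x + u y) = -ψ(x + y)`; hence the classes with
`ψ(x + y) = 1` and with `-1` are equally many, and these are all. -/
theorem half_minus (r : ℕ) [NeZero r] (ψ : DirichletCharacter ℂ r) (hψ : ψ.IsPrimitive)
    (h2 : ψ ^ 2 = 1) (p : ℕ) (hp : p.Prime) (hpr : p ∣ r) (x : ℕ) (hx : p ∣ x) :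
    ((compat r x).card : ℝ) / 2 ≤
      (((compat r x).filter (fun y : ℕ => ψ ((x : ZMod r) + y) = -1)).card : ℝ) := by
  classical
  obtain ⟨m, hm⟩ := hpr
  obtain ⟨x', hx'⟩ := hx
  have hr0 : 0 < r := NeZero.pos r
  have hm0 : 0 < m := by
    rcases Nat.eq_zero_or_pos m with h | h
    · rw [h] at hm
      omega
    · exact h
  have hmr : m ∣ r := ⟨p, by rw [hm]; ring⟩
  have hlt : m < r := by
    rw [hm]
    have := hp.two_le
    nlinarith
  obtain ⟨u, hu1, hu2⟩ := CM_ex r ψ hψ m hmr hlt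
  have hψu : ψ (u : ZMod r) = -1 := (CM_val r ψ h2 _ u.isUnit).resolve_left hu2
  have hux : (u : ZMod r) * (x : ZMod r) = x := by
    have h1 : ((u : ZMod r).cast : ZMod m) = 1 := by
      have := congrArg (fun z : (ZMod m)ˣ => (z : ZMod m)) hu1
      simpa [ZMod.unitsMap_def] using this
    rw [ZMod.cast_eq_val] at h1
    have h3 : (((u : ZMod r).val : ℤ) : ZMod m) = ((1 : ℤ) : ZMod m) := by
      push_cast
      exact h1
    rw [ZMod.intCast_eq_intCast_iff_dvd_sub] at h3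
    obtain ⟨j, hj⟩ := h3
    have h4 : ((u : ZMod r).val : ℤ) = 1 + (-j) * m := by linarith
    have h5 : (((u : ZMod r).val : ℤ) : ZMod r) = ((1 + (-j) * m : ℤ) : ZMod r) := by rw [h4]
    have h6 : (u : ZMod r) = ((1 + (-j) * m : ℤ) : ZMod r) := by
      rw [← h5]
      simp
    have hrz : ((p * m : ℕ) : ZMod r) = 0 := by
      rw [← hm]
      exact ZMod.natCast_self r
    push_cast at hrz
    rw [h6, hx']
    push_cast
    calc (1 + -(j : ZMod r) * (m : ZMod r)) * ((p : ZMod r) * (x' : ZMod r))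
        = (p : ZMod r) * x' - j * x' * ((p : ZMod r) * (m : ZMod r)) := by ring
      _ = (p : ZMod r) * x' := by rw [hrz, mul_zero, sub_zero]
  have e1 := CM_compat r x (fun _ => True)
  have e2 := CM_compat r x (fun y => ψ ((x : ZMod r) + y) = -1)
  have e3 := CM_compat r x (fun y => ψ ((x : ZMod r) + y) = 1)
  have e0 : (compat r x).filter (fun _ => True) = compat r x := by
    ext y
    simp
  have hsplit : (compat r x).card = ((compat r x).filter (fun y : ℕ =>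
      ψ ((x : ZMod r) + (y : ZMod r)) = 1)).card + ((compat r x).filter (fun y : ℕ =>
      ψ ((x : ZMod r) + (y : ZMod r)) = -1)).card := by
    rw [← card_union_of_disjoint]
    · congr 1
      ext y
      rw [mem_union, mem_filter, mem_filter]
      constructor
      · intro hy
        have hy' := hy
        rw [compat, mem_filter] at hy'
        have hun : IsUnit ((x : ZMod r) + (y : ZMod r)) := by
          have := ZMod.coe_int_isUnit_iff_isCoprime ((x : ℤ) + y) r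
          push_cast at this
          rw [this]
          exact hy'.2.1.symm
        rcases CM_val r ψ h2 _ hun with h | h
        · exact Or.inl ⟨hy, h⟩
        · exact Or.inr ⟨hy, h⟩
      · rintro (h | h)
        · exact h.1
        · exact h.1
    · rw [Finset.disjoint_filter]
      intro y _ h1 h2'
      rw [h1] at h2'
      norm_num at h2'
  have hle : ((compat r x).filter (fun y : ℕ => ψ ((x : ZMod r) + (y : ZMod r)) = 1)).card ≤
      ((compat r x).filter (fun y : ℕ => ψ ((x : ZMod r) + (y : ZMod r)) = -1)).card := by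
    rw [e3, e2]
    refine card_le_card_of_injOn (fun y => (u : ZMod r) * y) ?_ ?_
    · intro y hy
      rw [mem_coe, mem_filter] at hy
      rw [mem_coe, mem_filter]
      obtain ⟨_, ⟨h3, h4⟩, h5⟩ := hy
      have f1 : (x : ZMod r) + (u : ZMod r) * y = u * ((x : ZMod r) + y) := by
        rw [mul_add, hux]
      have f2 : (x : ZMod r) - (u : ZMod r) * y = u * ((x : ZMod r) - y) := by
        rw [mul_sub, hux]
      refine ⟨mem_univ _, ⟨?_, ?_⟩, ?_⟩
      · rw [f1]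
        exact u.isUnit.mul h3
      · rw [f2]
        exact u.isUnit.mul h4
      · rw [f1, map_mul, hψu, h5, mul_one]
    · intro a _ b _ hab
      exact u.isUnit.mul_left_cancel hab
  have h7 : (compat r x).card ≤ 2 * ((compat r x).filter (fun y : ℕ =>
      ψ ((x : ZMod r) + (y : ZMod r)) = -1)).card := by omega
  have h8 : ((compat r x).card : ℝ) ≤ 2 * (((compat r x).filter (fun y : ℕ =>
      ψ ((x : ZMod r) + (y : ZMod r)) = -1)).card : ℝ) := by exact_mod_cast h7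
  linarith

/-- The product of the primes `≥ 7` dividing `r`. -/
noncomputable def rad7 (r : ℕ) : ℕ :=
  ∏ p ∈ r.primeFactors.filter (fun p => 7 ≤ p), p

theorem hm_rad7_pos (r : ℕ) : 0 < rad7 r := by
  unfold rad7
  refine prod_pos fun p hp => ?_
  rw [mem_filter] at hp
  exact (Nat.prime_of_mem_primeFactors hp.1).pos

theorem hm_dvd_rad7 {r p : ℕ} (hr : r ≠ 0) (hp : p.Prime) (h7 : 7 ≤ p) (hpr : p ∣ r) :
    p ∣ rad7 r := by
  unfold rad7
  refine dvd_prod_of_mem (fun p => p) ?_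
  rw [mem_filter]
  exact ⟨hp.mem_primeFactors hpr hr, h7⟩

/-- For a primitive real character modulo `r`: `r ≤ 120 rad7 r` (`sq_not_dvd`, `sixteen_not_dvd` in
`H18E/CO`: `r = 2^a 3^b 5^c rad7`, `a ≤ 3`, `b, c ≤ 1`). -/
theorem rad7_ge (r : ℕ) [NeZero r] (ψ : DirichletCharacter ℂ r) (hψ : ψ.IsPrimitive)
    (h2 : ψ ^ 2 = 1) : r ≤ 120 * rad7 r := by
  have hr0 : r ≠ 0 := NeZero.ne r
  refine Nat.le_of_dvd (Nat.mul_pos (by norm_num) (hm_rad7_pos r)) ?_
  rw [Nat.dvd_iff_prime_pow_dvd_dvd]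
  intro p k hp hk
  rcases Nat.eq_zero_or_pos k with rfl | hk0
  · simp
  have hpr : p ∣ r := (dvd_pow_self p hk0.ne').trans hk
  have hsq : p ≠ 2 → k = 1 := by
    intro hne
    by_contra hk1
    exact sq_not_dvd r ψ hψ h2 p hp hne ((pow_dvd_pow p (by omega)).trans hk)
  rcases Nat.lt_or_ge p 7 with hp7 | hp7
  · apply Dvd.dvd.mul_right
    have hp2 := hp.two_le
    interval_cases p
    · have hk3 : k ≤ 3 := by
        by_contra h
        have h16 : (16 : ℕ) ∣ 2 ^ k := by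
          have : (2 : ℕ) ^ 4 ∣ 2 ^ k := pow_dvd_pow 2 (by omega)
          simpa using this
        exact sixteen_not_dvd r ψ hψ h2 (h16.trans hk)
      exact (pow_dvd_pow 2 hk3).trans (by norm_num)
    · rw [hsq (by norm_num)]; norm_num
    · exact absurd hp (by norm_num)
    · rw [hsq (by norm_num)]; norm_num
    · exact absurd hp (by norm_num)
  · rw [hsq (by omega), pow_one]
    exact (hm_dvd_rad7 hr0 hp hp7 hpr).mul_left _

/-- `x` is a multiple of `rad7 r`, or some prime `p ≥ 7` divides `r` and not `x`. If `r > 120` then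
`rad7 r ≥ 7` (`cond_big`). -/
theorem rad7_dvd (r x : ℕ) : rad7 r ∣ x ∨ ∃ p : ℕ, p.Prime ∧ 7 ≤ p ∧ p ∣ r ∧ ¬ p ∣ x := by
  by_cases h : ∀ p ∈ r.primeFactors.filter (fun p => 7 ≤ p), p ∣ x
  · left
    unfold rad7
    refine Finset.prod_primes_dvd x (fun p hp => ?_) h
    rw [mem_filter] at hp
    exact (Nat.prime_of_mem_primeFactors hp.1).prime
  · right
    push Not at h
    obtain ⟨p, hp, hpx⟩ := h
    rw [mem_filter] at hp
    exact ⟨p, Nat.prime_of_mem_primeFactors hp.1, hp.2, Nat.dvd_of_mem_primeFactors hp.1, hpx⟩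

theorem rad7_seven (r : ℕ) [NeZero r] (ψ : DirichletCharacter ℂ r) (hψ : ψ.IsPrimitive)
    (h2 : ψ ^ 2 = 1) (hr : 120 < r) : 7 ≤ rad7 r := by
  obtain ⟨p, hp, h7, hpr⟩ := cond_big r ψ hψ h2 hr
  exact h7.trans (Nat.le_of_dvd (hm_rad7_pos r) (hm_dvd_rad7 (NeZero.ne r) hp h7 hpr))

end Pool.Agent.Lib.H18Q
end

-- from Lib.H18Q.MB
section

/-!
# Project H18Q, chunk MB: the model along incompatible classes
-/

open Finset

namespace Pool.Agent.Lib.H18Q

open Pool.Agent.Lib.H68T Pool.Agent.Lib.H18E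


theorem mb_sum_zero (W : ℕ) (x : ℤ) (hW : 0 < W) (hx : ¬ IsCoprime x (W : ℤ)) :
    ∑ w ∈ W.divisors, GAM_F 1 x w = 0 := by
  have h1 : (ArithmeticFunction.zeta : ArithmeticFunction ℝ) * GAM_F 1 x = GAM_g 1 x := by
    unfold GAM_F
    rw [← mul_assoc, ArithmeticFunction.coe_zeta_mul_coe_moebius, one_mul]
  have h2 : ((ArithmeticFunction.zeta : ArithmeticFunction ℝ) * GAM_F 1 x) W = GAM_g 1 x W := by
    rw [h1]
  rw [ArithmeticFunction.coe_zeta_mul_apply, GAM_g_apply _ _ _ hW.ne',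
    if_neg (fun h => hx h.symm)] at h2
  exact h2

theorem mb_abs (x : ℤ) {w : ℕ} (hw : w ≠ 0) : |GAM_F 1 x w| ≤ 1 := by
  refine (GAM_F_abs 1 x w hw).trans ?_
  split_ifs with h
  · have h1 : 0 < w / Nat.gcd w x.natAbs :=
      Nat.div_pos (Nat.gcd_le_left _ (by omega)) (Nat.gcd_pos_of_pos_left _ (by omega))
    have h2 : (1 : ℝ) ≤ (Nat.totient (w / Nat.gcd w x.natAbs) : ℝ) := by
      exact_mod_cast Nat.totient_pos.mpr h1
    rw [div_le_one (by linarith)]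
    exact h2
  · norm_num

theorem mb_per (x : ℤ) {w W : ℕ} (hw : w ≠ 0) (hwW : w ∣ W) (c : ℕ) :
    GAM_F 1 (x + W * (c : ℕ)) w = GAM_F 1 x w := by
  refine XG1_eq _ _ (GAM_F_mult 1 _) (GAM_F_mult 1 x) hw fun p hp k hk => ?_
  have hpp := Nat.prime_of_mem_primeFactors hp
  have hpW : (p : ℤ) ∣ (W : ℤ) * (c : ℕ) :=
    Dvd.dvd.mul_right (Int.natCast_dvd_natCast.2 ((Nat.dvd_of_mem_primeFactors hp).trans hwW)) _
  rcases Nat.lt_or_ge 1 k with hk1 | hk1
  · obtain ⟨j, hj⟩ := Nat.exists_eq_add_of_le (show 2 ≤ k by omega)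
    rw [hj, add_comm 2 j, GAM_F_prime_pow _ _ _ _ hpp, GAM_F_prime_pow _ _ _ _ hpp]
  · have hk' : k = 1 := by omega
    rw [hk', pow_one, GAM_F_prime _ _ _ hpp, GAM_F_prime _ _ _ hpp]
    have h3 : (p : ℤ) ∣ x + W * (c : ℕ) ↔ (p : ℤ) ∣ x := (dvd_add_left hpW)
    simp only [h3]

/-- In a class modulo `W` not coprime to `W` the model `G` has only moduli `q > Q/W`:
`G Q (x + W c) = ∑_{q ≤ Q, (q,W) = 1} μ(q)/φ(q) c_q(x + W c) S(q)`, `S(q) = ∑_{w ∣ W, w q ≤ Q} μ(w)/φ(w)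
c_w(x)` (`w` squarefree; for squarefree `q0 ≤ Q` write `q0 = w q` with `w = gcd(q0, W)`... the part of
`q0` composed of primes of `W`; `c_w(x + Wc) = c_w(x)`); the full sum over squarefree `w ∣ W` is
`∏_{l ∣ W} (1 - c_l(x)/(l-1)) = 0` if some prime `l ∣ W` divides `x` (`c_l(x) = l - 1`), so `S(q) = 0` for
`q W ≤ Q`; and `|S(q)| ≤ ∑_{w ∣ W} 1 ≤ W` (`|c_w(x)| ≤ φ(w)`). Compare `ml_MM_eq` in `H18E/ML` (the coprime
case). -/
theorem MB_expand (Q W : ℕ) (x : ℤ) (hW : 0 < W) (hx : ¬ IsCoprime x (W : ℤ)) :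
    ∃ S : ℕ → ℝ, (∀ q, |S q| ≤ W) ∧ (∀ q, q * W ≤ Q → S q = 0) ∧ ∀ c : ℕ,
      G Q (x + W * (c : ℕ)) = ∑ q ∈ QW Q W, (ArithmeticFunction.moebius q : ℝ) /
        (Nat.totient q : ℝ) * cq q (x + W * (c : ℕ)) * S q := by
  refine ⟨fun q => ∑ w ∈ W.divisors.filter (fun w => w * q ≤ Q), GAM_F 1 x w, ?_, ?_, ?_⟩
  · intro q
    refine (abs_sum_le_sum_abs _ _).trans ?_
    calc ∑ w ∈ W.divisors.filter (fun w => w * q ≤ Q), |GAM_F 1 x w|
        ≤ ∑ _w ∈ W.divisors.filter (fun w => w * q ≤ Q), (1 : ℝ) :=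
          sum_le_sum fun w hw => mb_abs x (Nat.pos_of_mem_divisors (mem_filter.1 hw).1).ne'
      _ = ((W.divisors.filter (fun w => w * q ≤ Q)).card : ℝ) := by simp
      _ ≤ (W : ℝ) := by
          exact_mod_cast (card_filter_le _ _).trans (Nat.card_divisors_le_self W)
  · intro q hq
    simp only
    rw [filter_true_of_mem, mb_sum_zero W x hW hx]
    intro w hw
    have h1 : w ≤ W := Nat.divisor_le hw
    calc w * q ≤ W * q := Nat.mul_le_mul_right _ h1
      _ = q * W := mul_comm _ _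
      _ ≤ Q := hq
  · intro c
    have h1 : G Q (x + W * (c : ℕ)) = ∑ q ∈ Icc 1 Q, GAM_F 1 (x + W * (c : ℕ)) q := by
      unfold G
      exact Finset.sum_congr rfl fun q _ => (XG1_F1 _ q).symm
    rw [h1, XG1_split _ (GAM_F_mult 1 _) (fun n hn => XG1_F_nsq 1 _ hn) Q W hW]
    refine Finset.sum_congr rfl fun q _ => ?_
    rw [XG1_F1]
    congr 1
    refine Finset.sum_congr rfl fun w hw => ?_
    rw [mem_filter] at hw
    exact mb_per x (Nat.pos_of_mem_divisors hw.1).ne' (Nat.mem_divisors.1 hw.1).1 c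


theorem mb_rep (Q N r : ℕ) (z : ℤ) (β ε : ℝ) (hr : 0 < r) (hN : 1 ≤ N)
    (hz : 1 ≤ z ∨ z + r * N ≤ 0) (hβ1 : β ≤ 1) (hε : |ε| ≤ 1)
    (hε0 : ¬ IsCoprime z (r : ℤ) → ε = 0) :
    ∃ (U V : ℕ → ℕ → ℝ) (η : ℝ), |η| ≤ 1 ∧ (∀ q c, 0 ≤ U q c) ∧ (∀ q c, U q c ≤ r) ∧
      (∀ q c, 0 ≤ V q c) ∧ (∀ q c, V q c ≤ r) ∧
      (∀ q, Antitone (U q) ∨ Monotone (U q)) ∧ (∀ q, Antitone (V q) ∨ Monotone (V q)) ∧
      (∀ c < N, MM Q r ε β (z + r * (c : ℕ)) = ml_S Q r z U c - η * ml_S Q r z V c) ∧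
      (¬ IsCoprime z (r : ℤ) → ∀ q c, q * r ≤ Q → U q c - η * V q c = 0) := by
  have hr1 : (1 : ℝ) ≤ r := by exact_mod_cast hr
  have hφ : (1 : ℝ) ≤ Nat.totient r := by exact_mod_cast Nat.totient_pos.mpr hr
  have hD : (r : ℝ) / Nat.totient r ≤ r := div_le_self (by linarith) hφ
  by_cases hzc : IsCoprime z (r : ℤ)
  · refine ⟨fun q _ => TW Q r q, fun q c => ml_w N r z β c * TWr Q r r q, ε, hε,
      fun q _ => TW_nonneg Q r q, fun q _ => (TW_le Q r q hr).trans hD,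
      fun q c => mul_nonneg (ml_w_nonneg N r z β c) (TWr_nonneg Q r r q), ?_,
      fun q => Or.inl (fun _ _ _ => le_refl _), ?_, ?_, fun h => absurd hzc h⟩
    · intro q c
      have h1 := ml_w_le hN hr hz hβ1 c
      have h3 := TWr_nonneg Q r r q
      have h4 := TWr_le Q r r q hr dvd_rfl
      calc ml_w N r z β c * TWr Q r r q ≤ 1 * TWr Q r r q := mul_le_mul_of_nonneg_right h1 h3
        _ ≤ r := by rw [one_mul]; exact h4.trans hD
    · intro q
      rcases ml_w_mono hN hr hz hβ1 with h | h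
      · exact Or.inl (fun c c' hc => mul_le_mul_of_nonneg_right (h hc) (TWr_nonneg Q r r q))
      · exact Or.inr (fun c c' hc => mul_le_mul_of_nonneg_right (h hc) (TWr_nonneg Q r r q))
    · intro c hc
      exact ml_MM_eq Q N r r z c β ε hr dvd_rfl hzc hc
  · obtain ⟨S, hS1, hS2, hS3⟩ := MB_expand Q r z hr hzc
    refine ⟨fun q _ => max (S q) 0, fun q _ => max (-S q) 0, 1, by norm_num,
      fun q _ => le_max_right _ _, ?_, fun q _ => le_max_right _ _, ?_,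
      fun q => Or.inl (fun _ _ _ => le_refl _), fun q => Or.inl (fun _ _ _ => le_refl _), ?_, ?_⟩
    · intro q _
      exact max_le ((le_abs_self _).trans (hS1 q)) (by linarith)
    · intro q _
      exact max_le ((neg_le_abs _).trans (hS1 q)) (by linarith)
    · intro c _
      unfold MM ml_S
      rw [hε0 hzc, zero_mul, zero_mul, sub_zero, hS3 c, one_mul, ← sum_sub_distrib]
      refine sum_congr rfl fun q _ => ?_
      have h1 : max (S q) 0 - max (-S q) 0 = S q := by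
        rcases le_total 0 (S q) with h | h
        · rw [max_eq_left h, max_eq_right (by linarith)]; ring
        · rw [max_eq_right h, max_eq_left (by linarith)]; ring
      rw [← mul_sub, h1]
    · intro _ q _ hq
      simp only [hS2 q hq]
      simp

/-- **Incompatible classes.** If `x` or `y` is not coprime to `r` (and the corresponding sign is `0`),
the correlation of the models along `x + r c`, `y + r c` is small.

Proof. By symmetry let `x` be not coprime to `r`, `ε = 0`, so `MM Q r 0 β = G Q`. `MB_expand` for `x`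
with `W = r`. The other factor: if `y` is coprime to `r`, `ml_MM_eq` writes it as a sum over
`q ∈ QW Q r` with coefficients `A'(q, c) = TW Q r q - ε' w_c TWr Q r r q`, `0 ≤ w_c ≤ 1` monotone in
`c`; the two parts separately have the form required by `pair_gen` (`H18E/PG2`), with bound
`D = 2 r` (`0 ≤ TW, TWr ≤ (r/φ(r)) ∑_{w ∣ r} 1 ≤ r²`: take `D = r²`). If `y` is not coprime to `r`
(`ε' = 0`): `MB_expand` again. Split `S = S⁺ - S⁻` (nonnegative, constant in `c`, so monotone).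
`pair_gen` gives for each of the at most `4 · 2` products: main term `∑_q (μ/φ)² c_q(x-y) ∑_c A A'`,
supported on `q > Q/r ≥ √Q` (one factor is `S`), at most `N r · r² ∑_{q > Q/r, sqfree, (q,r)=1}
φ((q, x-y))/φ(q)² ≤ N r^3 C Q^(-1/4) Rk (x-y)` (`ss_tail` in `H18E/SS1`: `Q < q²`; `|c_q(D)| ≤
φ(q) φ(gcd)/φ(q)...`: for squarefree `q`, `|c_q(D)| = φ(gcd(q, D))`), error `2 r^4 Q^6`. -/
theorem noncompat : ∃ C : ℝ, 1 ≤ C ∧ ∀ (Q N r : ℕ) (x y : ℤ) (β ε ε' : ℝ), 0 < r →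
    r ^ 100 ≤ Q → 8 ≤ Q → ¬ (IsCoprime x (r : ℤ) ∧ IsCoprime y (r : ℤ)) →
    (¬ IsCoprime x (r : ℤ) → ε = 0) → (¬ IsCoprime y (r : ℤ) → ε' = 0) →
    (1 ≤ x ∨ x + r * N ≤ 0) → (1 ≤ y ∨ y + r * N ≤ 0) → x ≠ y → 1 / 2 ≤ β → β ≤ 1 →
    |ε| ≤ 1 → |ε'| ≤ 1 →
    |∑ c ∈ range N, MM Q r ε β (x + r * (c : ℕ)) * MM Q r ε' β (y + r * (c : ℕ))| ≤
      C * (r : ℝ) ^ 3 * N * (Q : ℝ) ^ (-(1 / 4) : ℝ) * Rk (x - y) + (Q : ℝ) ^ 9 := by
  obtain ⟨C2, hC2, htail⟩ := ss_tail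
  refine ⟨4 * C2, by linarith, ?_⟩
  intro Q N r x y β ε ε' hr hrQ hQ hnc hεx hεy hx hy hxy hβ hβ1 hε hε'
  have hQr : (8 : ℝ) ≤ Q := by exact_mod_cast hQ
  have hr1 : (1 : ℝ) ≤ r := by exact_mod_cast hr
  by_cases hN0 : N = 0
  · subst hN0
    simp only [range_zero, sum_empty, Nat.cast_zero, zero_mul, mul_zero, abs_zero, zero_add]
    positivity
  have hN : 1 ≤ N := by omega
  obtain ⟨U, V, η, hη, hU0, hUD, hV0, hVD, hUm, hVm, hMx, hZx⟩ :=
    mb_rep Q N r x β ε hr hN hx hβ1 hε hεx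
  obtain ⟨U', V', η', hη', hU0', hUD', hV0', hVD', hUm', hVm', hMy, hZy⟩ :=
    mb_rep Q N r y β ε' hr hN hy hβ1 hε' hεy
  set D : ℝ := (r : ℝ) with hD
  have hD0 : 0 ≤ D := by positivity
  set d : ℤ := x - y with hd
  have hd0 : d ≠ 0 := sub_ne_zero.mpr hxy
  set T : (ℕ → ℕ → ℝ) → (ℕ → ℕ → ℝ) → ℝ := fun A B => ∑ c ∈ range N,
    ml_S Q r x A c * ml_S Q r y B c with hT
  set Z : (ℕ → ℕ → ℝ) → (ℕ → ℕ → ℝ) → ℝ := fun A B =>
    ∑ q ∈ QW Q r, ((ArithmeticFunction.moebius q : ℝ) / (Nat.totient q : ℝ)) ^ 2 *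
        cq q d * ∑ c ∈ range N, A q c * B q c with hZ
  have h11 : |T U U' - Z U U'| ≤ 2 * D ^ 2 * (Q : ℝ) ^ 6 :=
    pair_gen Q N r hr x y U U' D hD0 hU0 hUD hU0' hUD' hUm hUm'
  have h12 : |T U V' - Z U V'| ≤ 2 * D ^ 2 * (Q : ℝ) ^ 6 :=
    pair_gen Q N r hr x y U V' D hD0 hU0 hUD hV0' hVD' hUm hVm'
  have h21 : |T V U' - Z V U'| ≤ 2 * D ^ 2 * (Q : ℝ) ^ 6 :=
    pair_gen Q N r hr x y V U' D hD0 hV0 hVD hU0' hUD' hVm hUm'
  have h22 : |T V V' - Z V V'| ≤ 2 * D ^ 2 * (Q : ℝ) ^ 6 :=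
    pair_gen Q N r hr x y V V' D hD0 hV0 hVD hV0' hVD' hVm hVm'
  have hexp : ∑ c ∈ range N, MM Q r ε β (x + r * (c : ℕ)) * MM Q r ε' β (y + r * (c : ℕ)) =
      T U U' - η' * T U V' - η * T V U' + η * η' * T V V' := by
    simp only [hT]
    rw [mul_sum, mul_sum, mul_sum, ← sum_sub_distrib, ← sum_sub_distrib, ← sum_add_distrib]
    apply sum_congr rfl
    intro c hc
    rw [hMx c (mem_range.mp hc), hMy c (mem_range.mp hc)]
    ring
  have herr : |(T U U' - η' * T U V' - η * T V U' + η * η' * T V V') -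
      (Z U U' - η' * Z U V' - η * Z V U' + η * η' * Z V V')| ≤ 8 * D ^ 2 * (Q : ℝ) ^ 6 := by
    have gen : ∀ (κ u v : ℝ), |κ| ≤ 1 → |u - v| ≤ 2 * D ^ 2 * (Q : ℝ) ^ 6 →
        |κ * (u - v)| ≤ 2 * D ^ 2 * (Q : ℝ) ^ 6 := by
      intro κ u v h1 h2
      rw [abs_mul]
      calc |κ| * |u - v| ≤ 1 * (2 * D ^ 2 * (Q : ℝ) ^ 6) :=
            mul_le_mul h1 h2 (abs_nonneg _) (by norm_num)
        _ = _ := one_mul _
    have e1 := gen 1 _ _ (by norm_num) h11
    have e2 := gen η' _ _ hη' h12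
    have e3 := gen η _ _ hη h21
    have e4 := gen (η * η') _ _ (by
      rw [abs_mul]
      exact mul_le_one₀ hη (abs_nonneg _) hη') h22
    have e5 : (T U U' - η' * T U V' - η * T V U' + η * η' * T V V') -
      (Z U U' - η' * Z U V' - η * Z V U' + η * η' * Z V V') =
      1 * (T U U' - Z U U') - η' * (T U V' - Z U V') - η * (T V U' - Z V U') +
        η * η' * (T V V' - Z V V') := by ring
    rw [e5]
    rw [abs_le] at e1 e2 e3 e4 ⊢
    constructor <;> linarith [e1.1, e1.2, e2.1, e2.2, e3.1, e3.2, e4.1, e4.2]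
  have herr2 : 8 * D ^ 2 * (Q : ℝ) ^ 6 ≤ (Q : ℝ) ^ 9 := by
    have h1 : D ^ 2 ≤ Q := by
      have := XCG_W_sq Q r hr hrQ
      rw [hD]
      exact_mod_cast this
    calc 8 * D ^ 2 * (Q : ℝ) ^ 6 ≤ Q * Q * (Q : ℝ) ^ 6 := by gcongr
      _ = (Q : ℝ) ^ 8 := by ring
      _ ≤ (Q : ℝ) ^ 9 := pow_le_pow_right₀ (by linarith) (by norm_num)
  set I : ℕ → ℝ := fun q => ∑ c ∈ range N, (U q c - η * V q c) * (U' q c - η' * V' q c) with hI
  have hmain : Z U U' - η' * Z U V' - η * Z V U' + η * η' * Z V V' =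
      ∑ q ∈ QW Q r, ((ArithmeticFunction.moebius q : ℝ) / (Nat.totient q : ℝ)) ^ 2 *
        cq q d * I q := by
    simp only [hZ, hI]
    rw [mul_sum, mul_sum, mul_sum, ← sum_sub_distrib, ← sum_sub_distrib, ← sum_add_distrib]
    apply sum_congr rfl
    intro q _
    have h1 : ∑ c ∈ range N, (U q c - η * V q c) * (U' q c - η' * V' q c) =
        ∑ c ∈ range N, U q c * U' q c - η' * ∑ c ∈ range N, U q c * V' q c -
          η * ∑ c ∈ range N, V q c * U' q c + η * η' * ∑ c ∈ range N, V q c * V' q c := by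
      rw [mul_sum, mul_sum, mul_sum, ← sum_sub_distrib, ← sum_sub_distrib, ← sum_add_distrib]
      apply sum_congr rfl
      intro c _
      ring
    rw [h1]
    ring
  have hIsmall : ∀ q : ℕ, q ^ 2 ≤ Q → I q = 0 := by
    intro q hq
    have hWq : q * r ≤ Q := by
      have h1 := XCG_W_sq Q r hr hrQ
      have h2 : (q * r) ^ 2 ≤ Q ^ 2 := by
        calc (q * r) ^ 2 = r ^ 2 * q ^ 2 := by ring
          _ ≤ Q * Q := Nat.mul_le_mul h1 hq
          _ = Q ^ 2 := by ring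
      exact (Nat.pow_le_pow_iff_left (by norm_num)).mp h2
    simp only [hI]
    apply sum_eq_zero
    intro c _
    by_cases hxc : IsCoprime x (r : ℤ)
    · rw [hZy (fun h => hnc ⟨hxc, h⟩) q c hWq, mul_zero]
    · rw [hZx hxc q c hWq, zero_mul]
  have hIbig : ∀ q : ℕ, |I q| ≤ N * (4 * D ^ 2) := by
    intro q
    simp only [hI]
    refine (abs_sum_le_sum_abs _ _).trans ?_
    calc ∑ c ∈ range N, |(U q c - η * V q c) * (U' q c - η' * V' q c)|
        ≤ ∑ _c ∈ range N, 4 * D ^ 2 := by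
          apply sum_le_sum
          intro c _
          rw [abs_mul]
          have key : ∀ η u v : ℝ, |η| ≤ 1 → 0 ≤ u → u ≤ D → 0 ≤ v → v ≤ D →
              |u - η * v| ≤ 2 * D := by
            intro η u v hη hu hu' hv hv'
            have h1 : |η * v| ≤ D := by
              rw [abs_mul, abs_of_nonneg hv]
              calc |η| * v ≤ 1 * D := mul_le_mul hη hv' hv (by norm_num)
                _ = D := one_mul _
            have h2 := abs_le.mp h1
            rw [abs_le]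
            constructor <;> linarith
          have h1 := key _ _ _ hη (hU0 q c) (hUD q c) (hV0 q c) (hVD q c)
          have h2 := key _ _ _ hη' (hU0' q c) (hUD' q c) (hV0' q c) (hVD' q c)
          calc |U q c - η * V q c| * |U' q c - η' * V' q c| ≤ (2 * D) * (2 * D) :=
                mul_le_mul h1 h2 (abs_nonneg _) (by positivity)
            _ = 4 * D ^ 2 := by ring
      _ = N * (4 * D ^ 2) := by rw [sum_const, card_range, nsmul_eq_mul]
  set q4 := (Q : ℝ) ^ (-(1 / 4) : ℝ) with hq4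
  have hq40 : 0 ≤ q4 := by positivity
  have hRk : 1 ≤ Rk d := one_le_Rk d
  have hbound : |∑ q ∈ QW Q r, ((ArithmeticFunction.moebius q : ℝ) / (Nat.totient q : ℝ)) ^ 2 *
        cq q d * I q| ≤ 4 * C2 * D ^ 3 * N * q4 * Rk d := by
    rw [← sum_filter_add_sum_filter_not (QW Q r) (fun q => q ^ 2 ≤ Q)]
    have p1 : ∑ q ∈ (QW Q r).filter (fun q => q ^ 2 ≤ Q),
        ((ArithmeticFunction.moebius q : ℝ) / (Nat.totient q : ℝ)) ^ 2 * cq q d * I q = 0 := by
      apply sum_eq_zero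
      intro q hq
      rw [hIsmall q (mem_filter.mp hq).2, mul_zero]
    rw [p1, zero_add]
    refine (abs_sum_le_sum_abs _ _).trans ?_
    calc ∑ q ∈ (QW Q r).filter (fun q => ¬ q ^ 2 ≤ Q),
          |((ArithmeticFunction.moebius q : ℝ) / (Nat.totient q : ℝ)) ^ 2 * cq q d * I q|
        ≤ ∑ q ∈ (QW Q r).filter (fun q => ¬ q ^ 2 ≤ Q),
          (if Squarefree q then (Nat.totient (Nat.gcd q d.natAbs) : ℝ) /
            (Nat.totient q : ℝ) ^ 2 else 0) * (N * (4 * D ^ 2)) := by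
          apply sum_le_sum
          intro q _
          rw [abs_mul, abs_mul]
          have h2 : |((ArithmeticFunction.moebius q : ℝ) / (Nat.totient q : ℝ)) ^ 2| =
              ((ArithmeticFunction.moebius q : ℝ) / (Nat.totient q : ℝ)) ^ 2 :=
            abs_of_nonneg (by positivity)
          rw [h2]
          exact mul_le_mul (XCG_cq_le q d) (hIbig q) (abs_nonneg _) (by
            split_ifs <;> positivity)
      _ = (∑ q ∈ ((QW Q r).filter (fun q => ¬ q ^ 2 ≤ Q)).filter Squarefree,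
            (Nat.totient (Nat.gcd q d.natAbs) : ℝ) / (Nat.totient q : ℝ) ^ 2) *
              (N * (4 * D ^ 2)) := by
          rw [← sum_mul, sum_filter (s := (QW Q r).filter (fun q => ¬ q ^ 2 ≤ Q))]
      _ ≤ (C2 * q4 * Rk d) * (N * (4 * D ^ 2)) := by
          apply mul_le_mul_of_nonneg_right _ (by positivity)
          apply htail Q d hd0 (by omega)
          intro q hq
          rw [mem_filter, mem_filter] at hq
          exact ⟨hq.2, not_le.mp hq.1.2⟩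
      _ = 4 * C2 * D ^ 2 * N * q4 * Rk d := by ring
      _ ≤ 4 * C2 * D ^ 3 * N * q4 * Rk d := by
          have h7 : D ^ 2 ≤ D ^ 3 := pow_le_pow_right₀ hr1 (by norm_num)
          gcongr
  rw [hexp]
  rw [← hmain] at hbound
  have h8 := abs_le.mp herr
  have h9 := abs_le.mp hbound
  rw [abs_le]
  constructor <;> linarith [h8.1, h8.2, h9.1, h9.2]

end Pool.Agent.Lib.H18Q
end
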