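import Pool.Agent.Lib.H1M.RV3.M003
import Pool.Agent.Lib.H1M.RV3.M009
import Pool.Agent.Lib.H1M.RV3.M035
import Pool.Agent.Lib.H1M.RV3.M045

/-! Merged copies (to shorten the build) of Lib.H59C.CE1, Lib.H59C.CW1, Lib.H92G.W2, Lib.H59C.CE2P, Lib.H59C.CE2, Lib.H59C.CTI, Lib.H59C.CTO. -/

-- from Lib.H59C.CE1
section

/-!
# CE1: negligible primes
-/

open Finset

namespace Pool.Agent.Lib.H59C

theorem ce1_dvd (N p d : ℕ) : d ∣ Nat.dist N p ↔ p ≡ N [MOD d] := by
  unfold Nat.dist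
  rcases le_total p N with h | h
  · rw [Nat.sub_eq_zero_of_le h, add_zero, Nat.modEq_iff_dvd' h]
  · rw [Nat.sub_eq_zero_of_le h, zero_add, ← Nat.modEq_iff_dvd' h]
    exact ⟨fun h => h.symm, fun h => h.symm⟩

theorem ce1_count (N y1 y2 m n : ℕ) (h12 : y1 ≤ y2) (h : y2 ≤ n) (hm : 0 < m) :
    (((Ioc y1 y2).filter (fun p => m ∣ Nat.dist N p)).card : ℝ) ≤ n / m + 1 := by
  have e1 : (Ioc y1 y2).filter (fun p => m ∣ Nat.dist N p) =
      (Ioc y1 y2).filter (fun p => p ≡ N [MOD m]) := by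
    apply filter_congr
    intro p _
    exact ce1_dvd N p m
  rw [e1]
  have h1 := Nat.Ioc_filter_modEq_card y1 y2 hm N
  have hm' : (0 : ℝ) < m := by exact_mod_cast hm
  have h2 : ((((Ioc y1 y2).filter (fun p => p ≡ N [MOD m])).card : ℕ) : ℝ) =
      ((max (⌊((y2 : ℚ) - N) / m⌋ - ⌊((y1 : ℚ) - N) / m⌋) 0 : ℤ) : ℝ) := by
    exact_mod_cast h1
  rw [h2]
  have h3 : (⌊((y2 : ℚ) - N) / m⌋ : ℝ) ≤ ((y2 : ℝ) - N) / m := by
    have := Int.floor_le (((y2 : ℚ) - N) / m)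
    have h4 : (((⌊((y2 : ℚ) - N) / m⌋ : ℤ) : ℚ) : ℝ) ≤ ((((y2 : ℚ) - N) / m : ℚ) : ℝ) := by
      exact_mod_cast this
    push_cast at h4
    exact h4
  have h4 : ((y1 : ℝ) - N) / m - 1 ≤ (⌊((y1 : ℚ) - N) / m⌋ : ℝ) := by
    have := Int.lt_floor_add_one (((y1 : ℚ) - N) / m)
    have h5 : ((((y1 : ℚ) - N) / m : ℚ) : ℝ) < ((((⌊((y1 : ℚ) - N) / m⌋ : ℤ) : ℚ) + 1 : ℚ) : ℝ) := by
      exact_mod_cast this
    push_cast at h5
    linarith
  have h5 : (0 : ℝ) ≤ n / m + 1 := by positivity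
  rw [Int.cast_max]
  apply max_le
  · push_cast
    have h6 : ((y2 : ℝ) - N) / m - ((y1 : ℝ) - N) / m ≤ n / m := by
      rw [← sub_div]
      apply div_le_div_of_nonneg_right _ hm'.le
      have h7 : (y2 : ℝ) ≤ n := by exact_mod_cast h
      have h8 : (0 : ℝ) ≤ y1 := Nat.cast_nonneg _
      linarith
    linarith
  · push_cast
    exact h5

open Classical in
/-- Proof. `p ∣ N` or `q² ∣ |N - p|` for a prime `q ≥ z = n^(1/8)`. The prime divisors `p > y1 ≥ n/16` of `N ≤ 2 n` are at most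
`1` (`n` large; or at most `log N/log 2`). For fixed `q` the number of `p ∈ (y1, y2]` with
`p ≡ N [MOD q²]` is at most `n/q² + 1`, and `0 < |N - p| ≤ 2 n` forces `q² ≤ 2 n`; `∑_{q ≥ z} n/q² ≤ 2 n/z + ...`. So the
sum is at most `log n (3 n^(7/8) + √(2n) + 2 log n) ≤ n^(9/10)`. -/
theorem bad_sq : ∃ n0 : ℕ, ∀ n : ℕ, n0 ≤ n → ∀ N y1 y2 : ℕ, Win n N y1 y2 →
    ∑ p ∈ (Sq y1 y2).filter (fun p => p ∣ N ∨ ∃ q : ℕ, q.Prime ∧ zz n ≤ q ∧
      q ^ 2 ∣ Nat.dist N p), lg p ≤ (n : ℝ) ^ (9 / 10 : ℝ) := by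
  obtain ⟨n1, hn1⟩ := cdl_log_pow 1 6 (1 / 40) (by norm_num) (by norm_num)
  obtain ⟨n2, hn2⟩ := cdl_zz 2
  refine ⟨n1 + n2 + 1000, fun n hn N y1 y2 hW => ?_⟩
  have hN : (1000 : ℝ) ≤ n := by exact_mod_cast (by omega : 1000 ≤ n)
  have hL : 0 < Real.log n := Real.log_pos (by linarith)
  have h6 := hn1 n (by omega)
  rw [pow_one] at h6
  have hz2 := hn2 n (by omega)
  have hzpos : 0 < zz n := by linarith
  -- the two sets
  obtain ⟨U, hU⟩ : ∃ U : Finset ℕ, U = (Sq y1 y2).filter (fun p => p ∣ N) := ⟨_, rfl⟩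
  obtain ⟨W, hWd⟩ : ∃ W : Finset ℕ, W = (Sq y1 y2).filter
    (fun p => ∃ q : ℕ, q.Prime ∧ zz n ≤ q ∧ q ^ 2 ∣ Nat.dist N p) := ⟨_, rfl⟩
  have hUc : U.card ≤ 1 := by
    rw [card_le_one]
    intro a ha b hb
    by_contra hab
    rw [hU, mem_filter, mem_Sq] at ha hb
    have hcop : Nat.Coprime a b := (Nat.coprime_primes ha.1.2 hb.1.2).mpr hab
    have h1 : a * b ∣ N := Nat.Coprime.mul_dvd_of_dvd_of_dvd hcop ha.2 hb.2
    have h2 : a * b ≤ N := Nat.le_of_dvd hW.N0 h1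
    have h3 := hW.N2
    have h4 := hW.lo
    have h5 : y1 * y1 < a * b := Nat.mul_lt_mul_of_lt_of_le ha.1.1.1 hb.1.1.1.le (by omega)
    nlinarith
  obtain ⟨k, hk⟩ : ∃ k : ℕ, k + 1 = ⌈zz n⌉₊ := by
    have : 0 < ⌈zz n⌉₊ := Nat.ceil_pos.mpr hzpos
    exact ⟨⌈zz n⌉₊ - 1, by omega⟩
  have hkz : zz n ≤ (k : ℝ) + 1 := by
    have := Nat.le_ceil (zz n)
    rw [← hk] at this
    exact_mod_cast this
  obtain ⟨m, hm⟩ : ∃ m : ℕ, m = Nat.sqrt (2 * n) := ⟨_, rfl⟩
  have hWc : (W.card : ℝ) ≤ 2 * (n : ℝ) ^ (7 / 8 : ℝ) + 2 * (n : ℝ) ^ (1 / 2 : ℝ) := by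
    have hsub : W ⊆ (Ioo k (m + 1)).biUnion
        (fun q => (Ioc y1 y2).filter (fun p => q ^ 2 ∣ Nat.dist N p)) := by
      intro p hp
      rw [hWd, mem_filter, mem_Sq] at hp
      obtain ⟨⟨⟨hp1, hp2⟩, hpp⟩, q, hq, hqz, hqd⟩ := hp
      rw [mem_biUnion]
      refine ⟨q, ?_, ?_⟩
      · rw [mem_Ioo]
        constructor
        · have : ⌈zz n⌉₊ ≤ q := Nat.ceil_le.mpr hqz
          omega
        · have h1 : 0 < Nat.dist N p := by
            unfold Nat.dist
            have h2 := hW.side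
            have h3 := hW.lt
            omega
          have h2 : q ^ 2 ≤ Nat.dist N p := Nat.le_of_dvd h1 hqd
          have h3 : Nat.dist N p ≤ 2 * n := by
            unfold Nat.dist
            have := hW.N2
            have := hW.le
            omega
          have h4 : q ≤ m := by
            rw [hm, Nat.le_sqrt']
            omega
          omega
      · rw [mem_filter, mem_Ioc]
        exact ⟨⟨hp1, hp2⟩, hqd⟩
    have h1 : W.card ≤ ∑ q ∈ Ioo k (m + 1),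
        ((Ioc y1 y2).filter (fun p => q ^ 2 ∣ Nat.dist N p)).card :=
      (card_le_card hsub).trans card_biUnion_le
    have h2 : (W.card : ℝ) ≤ ∑ q ∈ Ioo k (m + 1),
        (((Ioc y1 y2).filter (fun p => q ^ 2 ∣ Nat.dist N p)).card : ℝ) := by
      exact_mod_cast h1
    have h3 : ∑ q ∈ Ioo k (m + 1),
        (((Ioc y1 y2).filter (fun p => q ^ 2 ∣ Nat.dist N p)).card : ℝ) ≤
        ∑ q ∈ Ioo k (m + 1), (n * ((q : ℝ) ^ 2)⁻¹ + 1) := by
      apply sum_le_sum
      intro q hq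
      rw [mem_Ioo] at hq
      have h4 := ce1_count N y1 y2 (q ^ 2) n hW.lt.le hW.le (by
        have : 0 < q := by omega
        positivity)
      rw [Nat.cast_pow] at h4
      rwa [div_eq_mul_inv] at h4
    have h4 : ∑ q ∈ Ioo k (m + 1), (n * ((q : ℝ) ^ 2)⁻¹ + 1) ≤ n * (2 / ((k : ℝ) + 1)) + m := by
      rw [sum_add_distrib, ← mul_sum]
      apply add_le_add
      · apply mul_le_mul_of_nonneg_left _ (by linarith)
        exact sum_Ioo_inv_sq_le (α := ℝ) k (m + 1)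
      · rw [sum_const, nsmul_eq_mul, mul_one, Nat.card_Ioo]
        have : m + 1 - k - 1 ≤ m := by omega
        exact_mod_cast this
    have h5 : (n : ℝ) * (2 / ((k : ℝ) + 1)) ≤ 2 * (n : ℝ) ^ (7 / 8 : ℝ) := by
      have h6 : (n : ℝ) * (2 / ((k : ℝ) + 1)) ≤ n * (2 / zz n) := by
        apply mul_le_mul_of_nonneg_left _ (by linarith)
        exact div_le_div_of_nonneg_left (by norm_num) hzpos hkz
      refine h6.trans (le_of_eq ?_)
      have h7 : (n : ℝ) = (n : ℝ) ^ (7 / 8 : ℝ) * zz n := by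
        unfold zz
        rw [← Real.rpow_add (by linarith)]
        norm_num
      have h8 : (n : ℝ) * (2 / zz n) = (n : ℝ) ^ (7 / 8 : ℝ) * zz n * (2 / zz n) := by
        rw [← h7]
      rw [h8]
      field_simp
    have h6 : (m : ℝ) ≤ 2 * (n : ℝ) ^ (1 / 2 : ℝ) := by
      have h7 : (m : ℝ) ≤ Real.sqrt (2 * n) := by
        rw [hm]
        have := Real.nat_sqrt_le_real_sqrt (a := 2 * n)
        push_cast at this
        exact this
      have h8 : Real.sqrt (2 * n) ≤ Real.sqrt (4 * n) := Real.sqrt_le_sqrt (by linarith)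
      have h9 : Real.sqrt (4 * n) = 2 * (n : ℝ) ^ (1 / 2 : ℝ) := by
        rw [Real.sqrt_mul (by norm_num), ← Real.sqrt_eq_rpow]
        congr 1
        rw [show (4 : ℝ) = 2 ^ 2 by norm_num, Real.sqrt_sq (by norm_num)]
      linarith
    linarith
  have hlg : ∀ p ∈ Sq y1 y2, lg p ≤ Real.log n := by
    intro p hp
    rw [mem_Sq] at hp
    unfold lg
    apply Real.log_le_log
    · exact_mod_cast hp.2.pos
    · exact_mod_cast hp.1.2.trans hW.le
  have hlg0 : ∀ p, 0 ≤ lg p := by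
    intro p
    unfold lg
    exact Real.log_natCast_nonneg p
  have hpow1 : 1 ≤ (n : ℝ) ^ (7 / 8 : ℝ) := Real.one_le_rpow (by linarith) (by norm_num)
  have hpow2 : (n : ℝ) ^ (1 / 2 : ℝ) ≤ (n : ℝ) ^ (7 / 8 : ℝ) :=
    Real.rpow_le_rpow_of_exponent_le (by linarith) (by norm_num)
  calc ∑ p ∈ (Sq y1 y2).filter (fun p => p ∣ N ∨ ∃ q : ℕ, q.Prime ∧ zz n ≤ q ∧
      q ^ 2 ∣ Nat.dist N p), lg p ≤ ∑ p ∈ U ∪ W, lg p := by
        apply sum_le_sum_of_subset_of_nonneg
        · intro p hp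
          rw [mem_filter] at hp
          rw [mem_union, hU, hWd, mem_filter, mem_filter]
          rcases hp.2 with h | h
          · left; exact ⟨hp.1, h⟩
          · right; exact ⟨hp.1, h⟩
        · intro p _ _
          exact hlg0 p
    _ ≤ ∑ p ∈ U ∪ W, Real.log n := by
        apply sum_le_sum
        intro p hp
        apply hlg
        rw [mem_union, hU, hWd, mem_filter, mem_filter] at hp
        rcases hp with h | h
        · exact h.1
        · exact h.1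
    _ = ((U ∪ W).card : ℝ) * Real.log n := by
        rw [sum_const, nsmul_eq_mul]
    _ ≤ (5 * (n : ℝ) ^ (7 / 8 : ℝ)) * Real.log n := by
        apply mul_le_mul_of_nonneg_right _ hL.le
        have h1 : ((U ∪ W).card : ℝ) ≤ (U.card : ℝ) + W.card := by
          exact_mod_cast card_union_le U W
        have h2 : (U.card : ℝ) ≤ 1 := by exact_mod_cast hUc
        linarith
    _ ≤ (n : ℝ) ^ (7 / 8 : ℝ) * (n : ℝ) ^ (1 / 40 : ℝ) := by
        have h1 : 5 * Real.log n ≤ (n : ℝ) ^ (1 / 40 : ℝ) := by linarith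
        calc 5 * (n : ℝ) ^ (7 / 8 : ℝ) * Real.log n = (n : ℝ) ^ (7 / 8 : ℝ) * (5 * Real.log n) := by
              ring
          _ ≤ _ := mul_le_mul_of_nonneg_left h1 (by positivity)
    _ = (n : ℝ) ^ (9 / 10 : ℝ) := by
        rw [← Real.rpow_add (by linarith)]
        norm_num

end Pool.Agent.Lib.H59C
end

-- from Lib.H59C.CW1
section

/-!
# CW1: summing Chen's weights
-/

open Finset

namespace Pool.Agent.Lib.H59C

open Classical in
/-- The good primes. -/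
noncomputable def Good (n N y1 y2 : ℕ) : Finset ℕ :=
  (Sq y1 y2).filter (fun p =>
    (∀ q : ℕ, q.Prime → q ∣ Nat.dist N p → (n : ℝ) ^ (1 / 10 : ℝ) ≤ q) ∧
    ((Nat.dist N p).Prime ∨ ∃ r s : ℕ, r.Prime ∧ s.Prime ∧ Nat.dist N p = r * s))

theorem CW1_lg {n N y1 y2 p : ℕ} (hW : Win n N y1 y2) (hp : p ∈ Sq y1 y2) :
    0 ≤ lg p ∧ lg p ≤ Real.log n := by
  rw [mem_Sq] at hp
  have h1 : (1 : ℝ) ≤ p := by exact_mod_cast hp.2.one_le
  have h2 : (p : ℝ) ≤ n := by exact_mod_cast hp.1.2.trans hW.le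
  exact ⟨Real.log_nonneg h1, Real.log_le_log (by linarith) h2⟩

open Classical in
/-- Proof. Sum the brackets of `pointwise` over the `p ∈ Sq y1 y2` with no `q ∈ PP`, `q < zz n`, dividing `|N - p|`, with
weights `log p`: `sift - (1/2) ∑_{q ∈ QQ} sift_q - (1/2) ∑_{Tri} log p` (in the last sum the condition on the small primes is
dropped) is at most the sum over the exceptional `p` (weight `log p`, bracket `≤ 1`) plus `log n` times the number of the good
`p`. -/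
theorem chen_sum : ∃ n0 : ℕ, ∀ n : ℕ, n0 ≤ n → ∀ N y1 y2 p1 : ℕ, Win n N y1 y2 →
    sift (Sq y1 y2) lg (fun p => Nat.dist N p) (PP n N p1) (zz n) -
      1 / 2 * ∑ q ∈ QQ n N p1, sift ((Sq y1 y2).filter (fun p => q ∣ Nat.dist N p)) lg
        (fun p => Nat.dist N p) (PP n N p1) (zz n) -
      1 / 2 * ∑ p ∈ (Sq y1 y2).filter (fun p => Tri n (Nat.dist N p)), lg p ≤
    Real.log n * ((Good n N y1 y2).card : ℝ) +
      ∑ p ∈ (Sq y1 y2).filter (fun p => p ∣ N ∨ ∃ q : ℕ, q.Prime ∧ zz n ≤ q ∧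
        q ^ 2 ∣ Nat.dist N p), lg p +
      ∑ p ∈ (Sq y1 y2).filter (fun p => p1 ∣ Nat.dist N p ∧
        ∀ q ∈ PP n N p1, (q : ℝ) < zz n → ¬ q ∣ Nat.dist N p), lg p := by
  obtain ⟨n0, hpt⟩ := pointwise
  refine ⟨n0, fun n hn N y1 y2 p1 hW => ?_⟩
  set G := (Sq y1 y2).filter (fun p => ∀ q ∈ PP n N p1, (q : ℝ) < zz n → ¬ q ∣ Nat.dist N p)
    with hG
  set r : ℕ → ℝ := fun p => (((QQ n N p1).filter (fun q => q ∣ Nat.dist N p)).card : ℝ) with hr
  set T : ℕ → ℝ := fun p => if Tri n (Nat.dist N p) then 1 else 0 with hT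
  set E1 : ℕ → Prop := fun p => p ∣ N ∨ ∃ q : ℕ, q.Prime ∧ zz n ≤ q ∧ q ^ 2 ∣ Nat.dist N p with hE1
  set E2 : ℕ → Prop := fun p => p1 ∣ Nat.dist N p ∧
    ∀ q ∈ PP n N p1, (q : ℝ) < zz n → ¬ q ∣ Nat.dist N p with hE2
  have hGm : ∀ p ∈ G, p ∈ Sq y1 y2 := fun p hp => (Finset.mem_filter.1 hp).1
  have hlg : ∀ p ∈ Sq y1 y2, 0 ≤ lg p ∧ lg p ≤ Real.log n := fun p hp => CW1_lg hW hp
  have e1 : sift (Sq y1 y2) lg (fun p => Nat.dist N p) (PP n N p1) (zz n) = ∑ p ∈ G, lg p := rfl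
  have e2 : ∑ q ∈ QQ n N p1, sift ((Sq y1 y2).filter (fun p => q ∣ Nat.dist N p)) lg
      (fun p => Nat.dist N p) (PP n N p1) (zz n) = ∑ p ∈ G, lg p * r p := by
    have h1 : ∀ q ∈ QQ n N p1, sift ((Sq y1 y2).filter (fun p => q ∣ Nat.dist N p)) lg
        (fun p => Nat.dist N p) (PP n N p1) (zz n) =
        ∑ p ∈ G, if q ∣ Nat.dist N p then lg p else 0 := by
      intro q _
      rw [← Finset.sum_filter]
      unfold sift
      refine Finset.sum_congr ?_ fun p _ => rfl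
      ext p
      simp only [hG, Finset.mem_filter]
      tauto
    rw [Finset.sum_congr rfl h1, Finset.sum_comm]
    refine Finset.sum_congr rfl fun p _ => ?_
    rw [← Finset.sum_filter, Finset.sum_const, nsmul_eq_mul, mul_comm]
  have hGsub : G ⊆ Sq y1 y2 := Finset.filter_subset _ _
  have hGs : ∀ p ∈ G, ∀ q ∈ PP n N p1, (q : ℝ) < zz n → ¬ q ∣ Nat.dist N p := fun p hp =>
    (Finset.mem_filter.1 hp).2
  clear_value G
  have e3 : ∑ p ∈ G, lg p * T p ≤ ∑ p ∈ (Sq y1 y2).filter (fun p => Tri n (Nat.dist N p)), lg p := by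
    rw [Finset.sum_filter]
    have h1 : ∑ p ∈ G, lg p * T p = ∑ p ∈ G, if Tri n (Nat.dist N p) then lg p else 0 := by
      refine Finset.sum_congr rfl fun p _ => ?_
      simp only [hT]
      rw [mul_ite, mul_one, mul_zero]
    rw [h1]
    refine Finset.sum_le_sum_of_subset_of_nonneg hGsub fun p hp _ => ?_
    split_ifs
    · exact (hlg p hp).1
    · exact le_rfl
  have hmain : ∀ p ∈ G, lg p * (1 - 1 / 2 * r p - 1 / 2 * T p) ≤
      (if p ∈ Good n N y1 y2 then Real.log n else 0) + (if E1 p then lg p else 0) +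
        (if E2 p then lg p else 0) := by
    intro p hp
    have hpS := hGm p hp
    obtain ⟨hl0, hl1⟩ := hlg p hpS
    have hln : 0 ≤ Real.log n := hl0.trans hl1
    have t1 : 0 ≤ (if p ∈ Good n N y1 y2 then Real.log n else 0) := by
      split_ifs
      · exact hln
      · exact le_rfl
    have t2 : 0 ≤ (if E1 p then lg p else 0) := by
      split_ifs
      · exact hl0
      · exact le_rfl
    have t3 : 0 ≤ (if E2 p then lg p else 0) := by
      split_ifs
      · exact hl0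
      · exact le_rfl
    have hr0 : 0 ≤ r p := Nat.cast_nonneg _
    have hT0 : 0 ≤ T p := by
      simp only [hT]
      split_ifs <;> norm_num
    have hb1 : 1 - 1 / 2 * r p - 1 / 2 * T p ≤ 1 := by linarith
    have hle : lg p * (1 - 1 / 2 * r p - 1 / 2 * T p) ≤ lg p :=
      mul_le_of_le_one_right hl0 hb1
    rcases le_or_gt (1 - 1 / 2 * r p - 1 / 2 * T p) 0 with hb | hb
    · have h1 : lg p * (1 - 1 / 2 * r p - 1 / 2 * T p) ≤ 0 :=
        mul_nonpos_of_nonneg_of_nonpos hl0 hb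
      linarith
    · by_cases hc1 : E1 p
      · rw [if_pos hc1]
        linarith
      · by_cases hc2 : E2 p
        · rw [if_pos hc2]
          linarith
        · have hsift := hGs p hp
          have hN : ¬ p ∣ N := fun h => hc1 (Or.inl h)
          have hsq : ∀ q : ℕ, q.Prime → zz n ≤ q → ¬ q ^ 2 ∣ Nat.dist N p :=
            fun q h1 h2 h3 => hc1 (Or.inr ⟨q, h1, h2, h3⟩)
          have hp1 : ¬ p1 ∣ Nat.dist N p := fun h => hc2 ⟨h, hsift⟩
          have hgood : p ∈ Good n N y1 y2 := by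
            unfold Good
            rw [Finset.mem_filter]
            exact ⟨hpS, hpt n hn N y1 y2 p1 hW p hpS hN hp1 hsq hsift hb⟩
          rw [if_pos hgood]
          linarith
  have hsum : ∑ p ∈ G, lg p * (1 - 1 / 2 * r p - 1 / 2 * T p) ≤
      Real.log n * ((Good n N y1 y2).card : ℝ) + ∑ p ∈ (Sq y1 y2).filter E1, lg p +
        ∑ p ∈ (Sq y1 y2).filter E2, lg p := by
    refine (Finset.sum_le_sum hmain).trans ?_
    rw [Finset.sum_add_distrib, Finset.sum_add_distrib]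
    have s1 : ∑ p ∈ G, (if p ∈ Good n N y1 y2 then Real.log n else 0) ≤
        Real.log n * ((Good n N y1 y2).card : ℝ) := by
      rw [← Finset.sum_filter, Finset.sum_const, nsmul_eq_mul, mul_comm]
      rcases (G.filter (fun p => p ∈ Good n N y1 y2)).eq_empty_or_nonempty with h0 | ⟨p, hp⟩
      · rw [h0, Finset.card_empty, Nat.cast_zero, mul_zero]
        exact mul_nonneg (Real.log_natCast_nonneg n) (Nat.cast_nonneg _)
      · refine mul_le_mul_of_nonneg_left ?_ (Real.log_natCast_nonneg n)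
        exact_mod_cast Finset.card_le_card fun p hp => (Finset.mem_filter.1 hp).2
    have s2 : ∀ (E : ℕ → Prop) [DecidablePred E], ∑ p ∈ G, (if E p then lg p else 0) ≤
        ∑ p ∈ (Sq y1 y2).filter E, lg p := by
      intro E _
      rw [Finset.sum_filter]
      refine Finset.sum_le_sum_of_subset_of_nonneg hGsub fun p hp _ => ?_
      split_ifs
      · exact (hlg p hp).1
      · exact le_rfl
    exact add_le_add (add_le_add s1 (@s2 E1 _)) (@s2 E2 _)
  have e4 : ∑ p ∈ G, lg p * (1 - 1 / 2 * r p - 1 / 2 * T p) =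
      ∑ p ∈ G, lg p - 1 / 2 * ∑ p ∈ G, lg p * r p - 1 / 2 * ∑ p ∈ G, lg p * T p := by
    rw [Finset.mul_sum, Finset.mul_sum, ← Finset.sum_sub_distrib, ← Finset.sum_sub_distrib]
    refine Finset.sum_congr rfl fun p _ => ?_
    ring
  rw [e1, e2]
  refine le_trans ?_ hsum
  rw [e4]
  linarith

end Pool.Agent.Lib.H59C
end

-- from Lib.H92G.W2
section

/-!
# Chunk W2: upper bounds for the elements without prime factor in `P`

Compare `H15P/WIN3` (`win_rough`).
-/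

open Finset

namespace Pool.Agent.Lib.H92G

open Pool.Agent.Lib.H15P

/-- Level of the majorant. -/
theorem w2_lev {w : WG} {A B : Finset ℕ} {M : ℕ} (h : w.Sys A B M)
    (Zs : Finset {b // b ∈ B}) (wm : ℝ) (hwm : 0 < wm)
    (hw : ∀ l ∈ adm (univ \ Zs) w.m, |wZ (w.Df A B) w.m Zs l| ≤ wm) :
    Lev (∏ p ∈ w.P, p) (fun t =>
      LW (w.Df A B) (adm (univ \ Zs) w.m) (wZ (w.Df A B) w.m Zs)
        (fun j : {b // b ∈ B} => hit w.P (j.1 + M * t)) ^ 2 *
          ∏ j ∈ Zs, w.lm (hit w.P (j.1 + M * t)))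
      (wm ^ 2 * w.lv ^ 2 * w.lv ^ Zs.card) := by
  have h1 : Lev (∏ p ∈ w.P, p) (fun t => ∏ j ∈ Zs, w.lm (hit w.P (j.1 + M * t)))
      (w.lv ^ Zs.card) := by
    have h2 := Lev.prod Zs (fun (j : {b // b ∈ B}) (t : ℕ) => w.lm (hit w.P (j.1 + M * t)))
      (fun _ => w.lv) (w1_Qpos w) (fun j _ => w.levlm M j.1)
    rw [Finset.prod_const] at h2
    exact h2
  have h3 := w.levL {b // b ∈ B} (fun j => decide (j.1 ∈ A)) (univ \ Zs) M (fun j => j.1)
    (fun l => if l ∈ adm (univ \ Zs) w.m then wZ (w.Df A B) w.m Zs l / wm else 0)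
    (by rw [Fintype.card_coe]; exact h.cardB) (by
      intro l
      split_ifs with hl
      · rw [abs_div, abs_of_pos hwm, div_le_one hwm]
        exact hw l hl
      · rw [abs_zero]
        exact zero_le_one)
  have h4 := Lev.const_mul h3 wm
  rw [abs_of_pos hwm] at h4
  have h5 : (fun t : ℕ => wm * LW (fun j : {b // b ∈ B} => w.DJ (decide (j.1 ∈ A)))
      (adm (univ \ Zs) w.m)
      (fun l => if l ∈ adm (univ \ Zs) w.m then wZ (w.Df A B) w.m Zs l / wm else 0)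
      (fun j => hit w.P (j.1 + M * t))) = fun t : ℕ =>
      LW (w.Df A B) (adm (univ \ Zs) w.m) (wZ (w.Df A B) w.m Zs)
        (fun j : {b // b ∈ B} => hit w.P (j.1 + M * t)) := by
    funext t
    unfold LW
    rw [Finset.mul_sum]
    refine Finset.sum_congr rfl fun l hl => ?_
    beta_reduce
    rw [if_pos hl, ← mul_assoc, mul_div_cancel₀ _ hwm.ne']
    rfl
  rw [h5] at h4
  have h6 := Lev.mul (w1_Qpos w) (Lev.pow (w1_Qpos w) h4 2) h1
  rw [mul_pow] at h6
  exact h6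

/-- General bound for the configurations where no prime divides the forms of `Zs`. -/
theorem w2_gen {w : WG} {A B : Finset ℕ} {M : ℕ} (h : w.Sys A B M) (Y : ℕ)
    (Zs : Finset {b // b ∈ B}) (wm : ℝ) (hwm : 0 < wm)
    (hw : ∀ l ∈ adm (univ \ Zs) w.m, |wZ (w.Df A B) w.m Zs l| ≤ wm) (E : ℝ)
    (hE : EX (qq w.P w.K) (fun S : {b // b ∈ B} → Finset {p // p ∈ w.P} =>
      LW (w.Df A B) (adm (univ \ Zs) w.m) (wZ (w.Df A B) w.m Zs) S ^ 2 *
        ∏ j ∈ Zs, w.lm (S j)) ≤ E * ZG (qq w.P w.K) (w.Df A B) univ) :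
    ∑ t ∈ range Y, w.nu A B M t *
        (if ∀ j ∈ Zs, hit w.P (j.1 + M * t) = ∅ then 1 else 0) ≤
      Y * ((1 + w.e) * E) + 2 * (wm ^ 2 * w.lv ^ 2 * w.lv ^ Zs.card) := by
  set Z := ZG (qq w.P w.K) (w.Df A B) univ with hZ
  have hZ1 : 1 ≤ Z := w1_one_le_ZG w A B
  have hZpos : 0 < Z := by linarith
  set F : ({b // b ∈ B} → Finset {p // p ∈ w.P}) → ℝ := fun S =>
    LW (w.Df A B) (adm (univ \ Zs) w.m) (wZ (w.Df A B) w.m Zs) S ^ 2 *
        ∏ j ∈ Zs, w.lm (S j) with hF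
  have hF0 : ∀ S, 0 ≤ F S := fun S =>
    mul_nonneg (sq_nonneg _) (Finset.prod_nonneg fun j _ => w.lm0 _)
  have hterm : ∀ t, w.nu A B M t * (if ∀ j ∈ Zs, hit w.P (j.1 + M * t) = ∅ then 1 else 0) ≤
      F (fun j => hit w.P (j.1 + M * t)) / Z := by
    intro t
    split_ifs with hh
    · rw [mul_one]
      unfold WG.nu
      rw [← hZ]
      apply div_le_div_of_nonneg_right _ hZpos.le
      rw [LG_restrict (w.Df A B) w.m univ Zs (Finset.subset_univ _)
        (fun j => hit w.P (j.1 + M * t)) hh]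
      show _ ≤ LW (w.Df A B) (adm (univ \ Zs) w.m) (wZ (w.Df A B) w.m Zs)
        (fun j => hit w.P (j.1 + M * t)) ^ 2 * ∏ j ∈ Zs, w.lm (hit w.P (j.1 + M * t))
      rw [Finset.prod_congr rfl (fun j hj => by rw [hh j hj, w.lm1]), Finset.prod_const_one,
        mul_one]
    · rw [mul_zero]
      exact div_nonneg (hF0 _) hZpos.le
  have havg := h.avg_le F hF0 _ (w2_lev h Zs wm hwm hw) Y
  refine (Finset.sum_le_sum fun t _ => hterm t).trans ?_
  rw [← Finset.sum_div, div_le_iff₀ hZpos]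
  refine havg.trans ?_
  have he0 := w.e0
  have h1 := mul_le_mul_of_nonneg_left hE (by linarith : 0 ≤ 1 + w.e)
  have h2 := mul_le_mul_of_nonneg_left h1 (Nat.cast_nonneg Y : (0 : ℝ) ≤ Y)
  have h3 : 0 ≤ 2 * (wm ^ 2 * w.lv ^ 2 * w.lv ^ Zs.card) := by
    have := zero_le_one.trans w.lv1
    positivity
  have h4 := mul_le_mul_of_nonneg_left hZ1 h3
  nlinarith


/-- Allowed forms. -/
theorem w2_allowed {w : WG} {A B : Finset ℕ} {M : ℕ} (h : w.Sys A B M) (Y : ℕ)
    (Zs : Finset {b // b ∈ B}) (hZs : ∀ j ∈ Zs, j.1 ∈ A) :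
    ∑ t ∈ range Y, w.nu A B M t *
        (if ∀ j ∈ Zs, hit w.P (j.1 + M * t) = ∅ then 1 else 0) ≤
      Y * ((1 + w.e) * ((w.g ^ Zs.card) ^ 2 * w.el ^ Zs.card)) +
        2 * ((w.g ^ Zs.card) ^ 2 * w.lv ^ 2 * w.lv ^ Zs.card) := by
  have hg0 : 0 < w.g := zero_lt_one.trans_le w.one_le_g
  have hX0 : 0 ≤ ex (qq w.P w.K) w.lm := ex_nonneg _ w.good.q0 w.good.q1 _ w.lm0
  have hw : ∀ l, |wZ (w.Df A B) w.m Zs l| ≤ w.g ^ Zs.card := by
    intro l
    obtain ⟨h1, h2⟩ := wZ_bounds (w.Df A B) w.m Zs l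
      (fun j hj => (w.sum_allowed A B j (hZs j hj)).1)
    rw [abs_of_nonneg h1]
    refine h2.trans (le_of_eq ?_)
    rw [Finset.prod_congr rfl (fun j hj => (w.sum_allowed A B j (hZs j hj)).2),
      Finset.prod_const]
  refine w2_gen h Y Zs (w.g ^ Zs.card) (pow_pos hg0 _) (fun l _ => hw l) _ ?_
  refine (EX_maj_le (qq w.P w.K) (w.Df A B) w.h (w.good_Df A B) w.m univ Zs (w.g ^ Zs.card) hw
    w.lm w.lm0).trans ?_
  have h1 := w1_one_le_ZG w A B
  have h2 : ex (qq w.P w.K) w.lm ^ Zs.card ≤ w.el ^ Zs.card :=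
    pow_le_pow_left₀ hX0 w.lmel _
  have h3 : 0 ≤ (w.g ^ Zs.card) ^ 2 * ZG (qq w.P w.K) (w.Df A B) univ :=
    mul_nonneg (sq_nonneg _) (by linarith)
  have h4 := mul_le_mul_of_nonneg_left h2 h3
  nlinarith

/-- One allowed form. The coefficients `wZ {b}` are in `[0, g]` (`wZ_bounds`, `sum_allowed`);
`EX_maj_le` with `wm = g`; level of `LW(wZ)^2 lm`: `g^2 lv^2 lv` (`levL` for `wZ/g`). -/
theorem WG.Sys.one_le {w : WG} {A B : Finset ℕ} {M : ℕ} (h : w.Sys A B M) (Y : ℕ)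
    (hY : w.Long Y) (b : ℕ) (hb : b ∈ A) :
    ∑ t ∈ range Y, w.nu A B M t * (if hit w.P (b + M * t) = ∅ then 1 else 0) ≤
      2 * w.g ^ 2 * w.el * Y := by
  have h1 := w2_allowed h Y {(⟨b, h.AB hb⟩ : {b // b ∈ B})} (by
    intro j hj
    rw [Finset.mem_singleton.1 hj]
    exact hb)
  simp only [Finset.mem_singleton, forall_eq, Finset.card_singleton, pow_one] at h1
  refine h1.trans ?_
  have herr := (w1_err1 w Y hY 2 3 (by norm_num) (by norm_num)).2.2.1
  have hg := w.one_le_g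
  have hg2 : 1 ≤ w.g ^ 2 := one_le_pow₀ hg
  have he0 := w.e0
  have he1 := w.e1
  have hYr : (0 : ℝ) ≤ Y := Nat.cast_nonneg Y
  have h0 : 0 ≤ w.el * Y := mul_nonneg w.el0.le hYr
  have h2 : w.el * Y ≤ w.g ^ 2 * (w.el * Y) := le_mul_of_one_le_left h0 hg2
  have h3 : w.e * (w.g ^ 2 * (w.el * Y)) ≤ 1 / 10 * (w.g ^ 2 * (w.el * Y)) :=
    mul_le_mul_of_nonneg_right he1 (by positivity)
  have h4 : w.e * (w.el * Y) ≤ 1 / 10 * (w.el * Y) := mul_le_mul_of_nonneg_right he1 h0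
  nlinarith

/-- Two allowed forms: `Z = {b, b'}`, `wZ ≤ g^2`, `EX_maj_le`: mean value at most
`g^4 ZG el^2`; level `g^4 lv^2 lv^2`. -/
theorem WG.Sys.two_le {w : WG} {A B : Finset ℕ} {M : ℕ} (h : w.Sys A B M) (Y : ℕ)
    (hY : w.Long Y) (b b' : ℕ) (hb : b ∈ A) (hb' : b' ∈ A) (hne : b ≠ b') :
    ∑ t ∈ range Y, w.nu A B M t *
        (if hit w.P (b + M * t) = ∅ ∧ hit w.P (b' + M * t) = ∅ then 1 else 0) ≤
      2 * w.g ^ 4 * w.el ^ 2 * Y := by
  have h1 := w2_allowed h Y {(⟨b, h.AB hb⟩ : {b // b ∈ B}), ⟨b', h.AB hb'⟩} (by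
    intro j hj
    rcases Finset.mem_insert.1 hj with hj | hj
    · rw [hj]
      exact hb
    · rw [Finset.mem_singleton.1 hj]
      exact hb')
  have hc : ({(⟨b, h.AB hb⟩ : {b // b ∈ B}), ⟨b', h.AB hb'⟩} : Finset {b // b ∈ B}).card = 2 := by
    apply Finset.card_pair
    intro hh
    exact hne (congrArg Subtype.val hh)
  rw [hc] at h1
  simp only [Finset.mem_insert, Finset.mem_singleton, forall_eq_or_imp, forall_eq] at h1
  refine h1.trans ?_
  have herr := (w1_err w Y hY 4 4 le_rfl le_rfl).2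
  have hg := w.one_le_g
  have hg4 : 1 ≤ w.g ^ 4 := one_le_pow₀ hg
  have he0 := w.e0
  have he1 := w.e1
  have hYr : (0 : ℝ) ≤ Y := Nat.cast_nonneg Y
  have h0 : 0 ≤ w.el ^ 2 * Y := mul_nonneg (sq_nonneg _) hYr
  have h2 : w.el ^ 2 * Y ≤ w.g ^ 4 * (w.el ^ 2 * Y) := le_mul_of_one_le_left h0 hg4
  have h3 : w.e * (w.g ^ 4 * (w.el ^ 2 * Y)) ≤ 1 / 10 * (w.g ^ 4 * (w.el ^ 2 * Y)) :=
    mul_le_mul_of_nonneg_right he1 (by positivity)
  have h4 : w.e * (w.el ^ 2 * Y) ≤ 1 / 10 * (w.el ^ 2 * Y) := mul_le_mul_of_nonneg_right he1 h0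
  have h5 : (w.g ^ 2) ^ 2 * w.lv ^ 2 * w.lv ^ 2 = w.g ^ 4 * w.lv ^ 4 := by ring
  rw [h5]
  nlinarith

end Pool.Agent.Lib.H92G
end

-- from Lib.H59C.CE2P
section

/-!
# CE2P: a sifting product
-/

open Finset

namespace Pool.Agent.Lib.H59C

theorem CE2P_hl (S : Finset ℕ) (N : ℕ) (hN : 0 < N) (hS : ∀ q ∈ S, q.Prime ∧ 7 ≤ q) :
    ∏ q ∈ S, (if q ∣ N then ((q : ℝ) - 1) / (q - 2) else 1) ≤ hl N := by
  classical
  rw [← Finset.prod_filter]
  unfold hl
  have h1 : ∀ q : ℕ, 2 < q → (1 : ℝ) ≤ ((q : ℝ) - 1) / (q - 2) := by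
    intro q hq
    have h3 : (2 : ℝ) < q := by exact_mod_cast hq
    rw [le_div_iff₀ (by linarith)]
    linarith
  apply Finset.prod_le_prod_of_subset_of_one_le
  · intro q hq
    obtain ⟨hq1, hq2⟩ := Finset.mem_filter.1 hq
    obtain ⟨hp, h7⟩ := hS q hq1
    rw [Finset.mem_filter, Nat.mem_primeFactors]
    exact ⟨⟨hp, hq2, hN.ne'⟩, by omega⟩
  · intro q hq
    obtain ⟨hq1, hq2⟩ := Finset.mem_filter.1 hq
    have := h1 q (by have := (hS q hq1).2; omega)
    linarith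
  · intro q hq _
    exact h1 q (Finset.mem_filter.1 hq).2

theorem CE2P_F (w p1 : ℕ) :
    ∏ q ∈ (Finset.range (w + 1)).filter (fun q => q.Prime ∧ 7 ≤ q ∧ q ≠ p1), (1 - 1 / (q : ℝ)) ≤
      16 * ∏ p ∈ Sieve.primesUpTo w, (1 - 1 / (p : ℝ)) := by
  classical
  set F := (Finset.range (w + 1)).filter (fun q => q.Prime ∧ 7 ≤ q ∧ q ≠ p1) with hF
  set A := Sieve.primesUpTo w with hA
  have hFA : F ⊆ A := by
    intro q hq
    rw [hF, Finset.mem_filter, Finset.mem_range] at hq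
    rw [hA, Sieve.mem_primesUpTo]
    exact ⟨hq.2.1, by omega⟩
  have hf : ∀ q ∈ A, (1 / 2 : ℝ) ≤ 1 - 1 / (q : ℝ) ∧ 1 - 1 / (q : ℝ) ≤ 1 := by
    intro q hq
    rw [hA, Sieve.mem_primesUpTo] at hq
    have h2 : (2 : ℝ) ≤ q := by exact_mod_cast hq.1.two_le
    have h3 : 1 / (q : ℝ) ≤ 1 / 2 := one_div_le_one_div_of_le (by norm_num) h2
    have h4 : 0 ≤ 1 / (q : ℝ) := by positivity
    constructor <;> linarith
  have hsub : A \ F ⊆ {2, 3, 5, p1} := by
    intro q hq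
    rw [Finset.mem_sdiff, hA, Sieve.mem_primesUpTo, hF, Finset.mem_filter, Finset.mem_range] at hq
    obtain ⟨⟨hp, hw⟩, hn⟩ := hq
    simp only [Finset.mem_insert, Finset.mem_singleton]
    by_contra hc
    push Not at hc
    obtain ⟨c2, c3, c5, cp⟩ := hc
    apply hn
    refine ⟨by omega, hp, ?_, cp⟩
    by_contra h7
    push Not at h7
    interval_cases q <;> first | omega | (exact absurd hp (by norm_num))
  have hcard : (A \ F).card ≤ 4 := (Finset.card_le_card hsub).trans Finset.card_le_four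
  have hlow : (1 / 16 : ℝ) ≤ ∏ q ∈ A \ F, (1 - 1 / (q : ℝ)) := by
    calc (1 / 16 : ℝ) = (1 / 2) ^ 4 := by norm_num
      _ ≤ (1 / 2) ^ (A \ F).card := pow_le_pow_of_le_one (by norm_num) (by norm_num) hcard
      _ = ∏ q ∈ A \ F, (1 / 2 : ℝ) := by rw [Finset.prod_const]
      _ ≤ _ := Finset.prod_le_prod (fun _ _ => by norm_num)
        (fun q hq => (hf q (Finset.mem_sdiff.1 hq).1).1)
  have hF0 : 0 ≤ ∏ q ∈ F, (1 - 1 / (q : ℝ)) :=
    Finset.prod_nonneg fun q hq => by linarith [(hf q (hFA hq)).1]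
  rw [← Finset.prod_sdiff hFA]
  nlinarith

/-- Proof. `(1 - 2/q) ≤ (1 - 1/q)²` and, for `q ∣ N`, `(1 - 1/q) = (1 - 2/q) (q - 1)/(q - 2)`, so the product is at most
`hl N ∏_{7 ≤ q ≤ w, q ≠ p1} (1 - 1/q)²`; `∏_{q ≤ w} (1 - 1/q) ≤ 1/log w` (`Sieve.prod_one_sub_inv_le`), and the factors
`q = 2, 3, 5, p1` cost a constant. -/
theorem ce2_prod : ∃ C : ℝ, 0 < C ∧ ∀ (w N p1 : ℕ), 2 ≤ w → 0 < N →
    ∏ q ∈ (Finset.range (w + 1)).filter (fun q => q.Prime ∧ 7 ≤ q ∧ q ≠ p1),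
      (1 - (if q ∣ N then 1 else 2 : ℝ) / q) ≤ C * hl N / Real.log w ^ 2 := by
  refine ⟨256, by norm_num, ?_⟩
  intro w N p1 hw hN
  set F := (Finset.range (w + 1)).filter (fun q => q.Prime ∧ 7 ≤ q ∧ q ≠ p1) with hF
  have hFp : ∀ q ∈ F, q.Prime ∧ 7 ≤ q := by
    intro q hq
    rw [hF, Finset.mem_filter] at hq
    exact ⟨hq.2.1, hq.2.2.1⟩
  have h1 : ∏ q ∈ F, (1 - (if q ∣ N then 1 else 2 : ℝ) / q) ≤
      ∏ q ∈ F, ((1 - 1 / (q : ℝ)) ^ 2 * (if q ∣ N then ((q : ℝ) - 1) / (q - 2) else 1)) := by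
    apply Finset.prod_le_prod
    · intro q hq
      have h7 : (7 : ℝ) ≤ q := by exact_mod_cast (hFp q hq).2
      rw [sub_nonneg, div_le_one (by linarith)]
      split_ifs <;> linarith
    · intro q hq
      have h7 : (7 : ℝ) ≤ q := by exact_mod_cast (hFp q hq).2
      have h0 : (0 : ℝ) < q := by linarith
      have h2 : (0 : ℝ) < q - 2 := by linarith
      split_ifs with hd
      · have e : (1 - 1 / (q : ℝ)) ^ 2 * (((q : ℝ) - 1) / (q - 2)) - (1 - 1 / q) =
            (1 - 1 / (q : ℝ)) * (1 / (q * (q - 2))) := by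
          field_simp
          ring
        have h3 : 1 / (q : ℝ) ≤ 1 := by
          rw [div_le_one h0]
          linarith
        have h4 : 0 ≤ (1 - 1 / (q : ℝ)) * (1 / (q * (q - 2))) :=
          mul_nonneg (by linarith) (by positivity)
        linarith
      · rw [mul_one]
        have e : (1 - 1 / (q : ℝ)) ^ 2 = 1 - 2 / q + (1 / q) ^ 2 := by ring
        rw [e]
        nlinarith [sq_nonneg (1 / (q : ℝ))]
  have h2 : ∏ q ∈ F, ((1 - 1 / (q : ℝ)) ^ 2 * (if q ∣ N then ((q : ℝ) - 1) / (q - 2) else 1)) =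
      (∏ q ∈ F, (1 - 1 / (q : ℝ))) ^ 2 * ∏ q ∈ F, (if q ∣ N then ((q : ℝ) - 1) / (q - 2) else 1) := by
    rw [Finset.prod_mul_distrib, Finset.prod_pow]
  have h3 := CE2P_hl F N hN hFp
  have h4 := CE2P_F w p1
  rw [← hF] at h4
  have h5 := Sieve.prod_one_sub_inv_le w hw
  have hlog : 0 < Real.log w := Real.log_pos (by exact_mod_cast (by omega : 1 < w))
  have h6 : ∏ q ∈ F, (1 - 1 / (q : ℝ)) ≤ 16 / Real.log w := by
    refine h4.trans ?_
    calc 16 * ∏ p ∈ Sieve.primesUpTo w, (1 - 1 / (p : ℝ)) ≤ 16 * (1 / Real.log w) :=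
          mul_le_mul_of_nonneg_left h5 (by norm_num)
      _ = 16 / Real.log w := by ring
  have hF0 : 0 ≤ ∏ q ∈ F, (1 - 1 / (q : ℝ)) := by
    apply Finset.prod_nonneg
    intro q hq
    have h7 : (7 : ℝ) ≤ q := by exact_mod_cast (hFp q hq).2
    rw [sub_nonneg, div_le_one (by linarith)]
    linarith
  have h7 : (∏ q ∈ F, (1 - 1 / (q : ℝ))) ^ 2 ≤ (16 / Real.log w) ^ 2 :=
    pow_le_pow_left₀ hF0 h6 2
  have hhl : 0 ≤ hl N := le_trans zero_le_one (one_le_hl N)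
  calc ∏ q ∈ F, (1 - (if q ∣ N then 1 else 2 : ℝ) / q)
      ≤ (∏ q ∈ F, (1 - 1 / (q : ℝ))) ^ 2 *
        ∏ q ∈ F, (if q ∣ N then ((q : ℝ) - 1) / (q - 2) else 1) := h1.trans (le_of_eq h2)
    _ ≤ (∏ q ∈ F, (1 - 1 / (q : ℝ))) ^ 2 * hl N := mul_le_mul_of_nonneg_left h3 (sq_nonneg _)
    _ ≤ (16 / Real.log w) ^ 2 * hl N := mul_le_mul_of_nonneg_right h7 hhl
    _ = 256 * hl N / Real.log w ^ 2 := by
      rw [div_pow]
      ring

end Pool.Agent.Lib.H59C
end

-- from Lib.H59C.CE2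
section

/-!
# CE2: the primes with `p1 ∣ N - p`
-/

open Finset

namespace Pool.Agent.Lib.H59C

open Pool.Agent.Lib.Sieve (sprimes mem_sprimes dens chi fundamental_sum prod_one_sub_chi)

open Classical in
/-- The removed classes. -/
noncomputable def ce2Om (N p1 : ℕ) (s : ℤ) (q : ℕ) : Finset (ZMod q) :=
  if q = p1 then ∅ else {0, (s : ZMod q) * (N : ZMod q) * (p1 : ZMod q)⁻¹}

theorem ce2_card_le (N p1 : ℕ) (s : ℤ) (q : ℕ) : (ce2Om N p1 s q).card ≤ 2 := by
  unfold ce2Om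
  split_ifs
  · simp
  · exact card_le_two

theorem ce2_card (N p1 : ℕ) (s : ℤ) (hs : s = 1 ∨ s = -1) (q : ℕ) (hq : q.Prime)
    (hp1 : p1.Prime) (hne : q ≠ p1) : (ce2Om N p1 s q).card = if q ∣ N then 1 else 2 := by
  classical
  have : Fact q.Prime := ⟨hq⟩
  unfold ce2Om
  rw [if_neg hne]
  split_ifs with h
  · have h1 : (N : ZMod q) = 0 := (ZMod.natCast_eq_zero_iff N q).mpr h
    rw [h1, mul_zero, zero_mul]
    simp
  · have h1 : (N : ZMod q) ≠ 0 := fun h2 => h ((ZMod.natCast_eq_zero_iff N q).mp h2)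
    have h2 : (p1 : ZMod q) ≠ 0 := by
      intro h3
      have h4 := (ZMod.natCast_eq_zero_iff p1 q).mp h3
      exact hne ((Nat.prime_dvd_prime_iff_eq hq hp1).mp h4)
    have h3 : (s : ZMod q) ≠ 0 := by
      rcases hs with rfl | rfl
      · simp
      · simp
    apply card_pair
    have h4 : (s : ZMod q) * (N : ZMod q) * (p1 : ZMod q)⁻¹ ≠ 0 :=
      mul_ne_zero (mul_ne_zero h3 h1) (inv_ne_zero h2)
    exact h4.symm

theorem ce2_prod_eq (N p1 w : ℕ) (s : ℤ) (hs : s = 1 ∨ s = -1) (hp1 : p1.Prime) :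
    ∏ q ∈ sprimes (2 * 2 + 2) w, (1 - dens (ce2Om N p1 s) q) =
      ∏ q ∈ (Finset.range (w + 1)).filter (fun q => q.Prime ∧ 7 ≤ q ∧ q ≠ p1),
        (1 - (if q ∣ N then 1 else 2 : ℝ) / q) := by
  symm
  have hsub : (Finset.range (w + 1)).filter (fun q => q.Prime ∧ 7 ≤ q ∧ q ≠ p1) ⊆
      sprimes (2 * 2 + 2) w := by
    intro q hq
    rw [mem_filter, mem_range] at hq
    rw [mem_sprimes]
    exact ⟨hq.2.1, by omega, by omega⟩
  have h1 : ∏ q ∈ (Finset.range (w + 1)).filter (fun q => q.Prime ∧ 7 ≤ q ∧ q ≠ p1),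
      (1 - dens (ce2Om N p1 s) q) = ∏ q ∈ sprimes (2 * 2 + 2) w, (1 - dens (ce2Om N p1 s) q) := by
    apply prod_subset hsub
    intro q hq hq'
    rw [mem_sprimes] at hq
    rw [mem_filter, mem_range] at hq'
    have h2 : q = p1 := by
      by_contra h3
      exact hq' ⟨by omega, hq.1, by omega, h3⟩
    unfold Pool.Agent.Lib.Sieve.dens ce2Om
    rw [if_pos h2]
    simp
  rw [← h1]
  apply prod_congr rfl
  intro q hq
  rw [mem_filter, mem_range] at hq
  unfold Pool.Agent.Lib.Sieve.dens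
  rw [ce2_card N p1 s hs q hq.2.1 hp1 hq.2.2.2]
  split_ifs <;> simp

open Classical in
/-- The sieve bound for the number of primes. -/
theorem ce2_sieve : ∃ C : ℝ, 0 < C ∧ ∀ (w N p1 M : ℕ) (a : ℤ) (s : ℤ), 2 ≤ w → 0 < N →
    p1.Prime → (s = 1 ∨ s = -1) → w ^ 422 ≤ M → ∀ K : Finset ℕ,
    (∀ k ∈ K, (k : ℤ) ∈ Finset.Ico a (a + M) ∧ ∀ q ∈ sprimes (2 * 2 + 2) w,
      (((k : ℤ) : ℤ) : ZMod q) ∉ ce2Om N p1 s q) →
    (K.card : ℝ) ≤ M * (C * hl N / Real.log w ^ 2) := by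
  obtain ⟨C, hC, hprod⟩ := ce2_prod
  refine ⟨3 * C, by positivity, fun w N p1 M a s hw hN hp1 hs hM K hK => ?_⟩
  have h1 := (fundamental_sum (k := 2) (Ω := ce2Om N p1 s) hw
    (fun q _ _ _ => ce2_card_le N p1 s q) a M hM).2
  rw [ce2_prod_eq N p1 w s hs hp1] at h1
  have h2 := hprod w N p1 hw hN
  have h3 : (K.card : ℝ) ≤ ∑ u ∈ Finset.Ico a (a + M),
      ∏ p ∈ sprimes (2 * 2 + 2) w, (1 - chi (ce2Om N p1 s) p u) := by
    have h4 : (K.card : ℝ) = ∑ u ∈ K.image (fun k : ℕ => (k : ℤ)), (1 : ℝ) := by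
      rw [sum_const, nsmul_eq_mul, mul_one, card_image_of_injective _ Nat.cast_injective]
    rw [h4]
    calc ∑ u ∈ K.image (fun k : ℕ => (k : ℤ)), (1 : ℝ) ≤
        ∑ u ∈ K.image (fun k : ℕ => (k : ℤ)),
          ∏ p ∈ sprimes (2 * 2 + 2) w, (1 - chi (ce2Om N p1 s) p u) := by
          apply sum_le_sum
          intro u hu
          rw [mem_image] at hu
          obtain ⟨k, hk, rfl⟩ := hu
          rw [prod_one_sub_chi, if_pos (hK k hk).2]
      _ ≤ _ := by
          apply sum_le_sum_of_subset_of_nonneg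
          · intro u hu
            rw [mem_image] at hu
            obtain ⟨k, hk, rfl⟩ := hu
            exact (hK k hk).1
          · intro u _ _
            rw [prod_one_sub_chi]
            split_ifs <;> norm_num
  calc (K.card : ℝ) ≤ 3 * M * ∏ q ∈ (Finset.range (w + 1)).filter
        (fun q => q.Prime ∧ 7 ≤ q ∧ q ≠ p1), (1 - (if q ∣ N then 1 else 2 : ℝ) / q) := h3.trans h1
    _ ≤ 3 * M * (C * hl N / Real.log w ^ 2) := by
        apply mul_le_mul_of_nonneg_left h2 (by positivity)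
    _ = M * (3 * C * hl N / Real.log w ^ 2) := by ring

/-- Parameters. -/
theorem ce2_par : ∃ n0 : ℕ, ∀ n : ℕ, n0 ≤ n → ∃ w : ℕ, 2 ≤ w ∧ (w : ℝ) < zz n ∧ 16 * w < n ∧
    Real.log n / 2000 ≤ Real.log w ∧ ∀ p1 : ℕ, 0 < p1 → p1 ^ 100 ≤ n →
      (w : ℝ) ^ 422 ≤ n / (16 * p1) ∧ (p1 : ℝ) ≤ n ∧ 16 * p1 < n := by
  have ht : Filter.Tendsto (fun n : ℕ => (n : ℝ) ^ (1 / 1000 : ℝ)) Filter.atTop Filter.atTop :=
    (tendsto_rpow_atTop (by norm_num : (0 : ℝ) < 1 / 1000)).comp tendsto_natCast_atTop_atTop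
  obtain ⟨n1, hn1⟩ := Filter.eventually_atTop.mp (ht.eventually_ge_atTop 16)
  refine ⟨n1 + 1, fun n hn => ?_⟩
  have hN : (1 : ℝ) ≤ n := by exact_mod_cast (by omega : 1 ≤ n)
  have h16 : 16 ≤ (n : ℝ) ^ (1 / 1000 : ℝ) := hn1 n (by omega)
  obtain ⟨X, hX⟩ : ∃ X : ℝ, X = (n : ℝ) ^ (1 / 1000 : ℝ) := ⟨_, rfl⟩
  rw [← hX] at h16
  have hXn : ∀ a : ℕ, X ^ a = (n : ℝ) ^ ((a : ℝ) / 1000) := by
    intro a
    rw [hX, ← Real.rpow_natCast, ← Real.rpow_mul (by linarith)]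
    congr 1
    ring
  have hX1000 : X ^ 1000 = n := by
    rw [hXn]
    norm_num
  have hX0 : 0 < X := by linarith
  have hX1 : 1 ≤ X := by linarith
  have hw1 : ((⌊X⌋₊ : ℕ) : ℝ) ≤ X := Nat.floor_le hX0.le
  have hw2 : X < (⌊X⌋₊ : ℕ) + 1 := Nat.lt_floor_add_one X
  refine ⟨⌊X⌋₊, ?_, ?_, ?_, ?_, ?_⟩
  · apply Nat.le_floor
    push_cast
    linarith
  · have h1 : zz n = X ^ 125 := by
      rw [hXn]
      unfold zz
      norm_num
    rw [h1]
    calc ((⌊X⌋₊ : ℕ) : ℝ) ≤ X := hw1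
      _ < X * X := by nlinarith
      _ = X ^ 2 := by ring
      _ ≤ X ^ 125 := pow_le_pow_right₀ hX1 (by norm_num)
  · have h1 : (16 : ℝ) * (⌊X⌋₊ : ℕ) < n := by
      calc (16 : ℝ) * (⌊X⌋₊ : ℕ) ≤ X * X := mul_le_mul h16 hw1 (Nat.cast_nonneg _) hX0.le
        _ < X ^ 3 := by nlinarith [mul_pos hX0 hX0]
        _ ≤ X ^ 1000 := pow_le_pow_right₀ hX1 (by norm_num)
        _ = n := hX1000
    exact_mod_cast h1
  · have h1 : X / 2 ≤ (⌊X⌋₊ : ℕ) := by linarith
    have h2 : Real.log (X / 2) ≤ Real.log (⌊X⌋₊ : ℕ) := Real.log_le_log (by linarith) h1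
    have h3 : Real.log X = 1 / 1000 * Real.log n := by
      rw [hX, Real.log_rpow (by linarith)]
    have h4 : Real.log (X / 2) = Real.log X - Real.log 2 :=
      Real.log_div hX0.ne' (by norm_num)
    have h5 : 2 * Real.log 2 ≤ Real.log X := by
      have h6 : 2 * Real.log 2 = Real.log 4 := by
        rw [show (4 : ℝ) = 2 ^ 2 by norm_num, Real.log_pow]
        norm_num
      rw [h6]
      exact Real.log_le_log (by norm_num) (by linarith)
    linarith
  · intro p1 hp0 hp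
    have hp' : (p1 : ℝ) ^ 100 ≤ n := by exact_mod_cast hp
    have hpX : (p1 : ℝ) ≤ X ^ 10 := by
      apply le_of_pow_le_pow_left₀ (n := 100) (by norm_num) (by positivity)
      calc (p1 : ℝ) ^ 100 ≤ n := hp'
        _ = (X ^ 10) ^ 100 := by rw [← hX1000]; ring
    have hp0' : (0 : ℝ) < p1 := by exact_mod_cast hp0
    refine ⟨?_, ?_, ?_⟩
    · rw [le_div_iff₀ (by positivity)]
      calc ((⌊X⌋₊ : ℕ) : ℝ) ^ 422 * (16 * p1) ≤ X ^ 422 * (X * X ^ 10) := by
            apply mul_le_mul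
            · exact pow_le_pow_left₀ (Nat.cast_nonneg _) hw1 422
            · exact mul_le_mul h16 hpX hp0'.le hX0.le
            · positivity
            · positivity
        _ = X ^ 433 := by ring
        _ ≤ X ^ 1000 := pow_le_pow_right₀ hX1 (by norm_num)
        _ = n := hX1000
    · calc (p1 : ℝ) ≤ X ^ 10 := hpX
        _ ≤ X ^ 1000 := pow_le_pow_right₀ hX1 (by norm_num)
        _ = n := hX1000
    · have h1 : (16 : ℝ) * p1 < n := by
        calc (16 : ℝ) * p1 ≤ X * X ^ 10 := mul_le_mul h16 hpX hp0'.le hX0.le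
          _ = X ^ 11 := by ring
          _ < X ^ 12 := by
              have : 0 < X ^ 11 := by positivity
              nlinarith [pow_succ X 11]
          _ ≤ X ^ 1000 := pow_le_pow_right₀ hX1 (by norm_num)
          _ = n := hX1000
      exact_mod_cast h1

open Classical in
/-- The primes `p` in the window with `p1 ∣ N - p`: Brun's sieve.

Proof. If `p1 ∣ N` there is no such `p` (`p1 ∣ p`, `p > n/16 > p1`). Otherwise write `N - p = p1 k` (`y2 < N`) or
`p - N = p1 k`: `k` runs over an interval of `M ≤ (y2 - y1)/p1 + 1` consecutive integers. Sieve with the primes `7 ≤ q ≤ w`,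
`w = ⌊n^(1/1000)⌋`, `q ≠ p1`: `N ∓ p1 k = p ≢ 0`, and `k ≢ 0 (mod q)` if `q ∤ N` (then `q ∈ PP` and `q < z`). The set of
removed classes `Ω q` has `2` elements if `q ∤ N` and one (`0`, where `p ≡ 0`) if `q ∣ N`, none for `q = p1`.
`Sieve.fundamental_sum` with `k = 2` (`2 * 2 + 2 = 6`, `198 * 2 + 26 = 422`; `w^422 ≤ M`), `Sieve.prod_one_sub_chi`,
and `ce2_prod`: at most `3 M C hl N/(log w)² ≤ (C'/p1) hl N n/(log n)²`. Weights `log p ≤ log n`. -/
theorem bad_p1 : ∃ C : ℝ, 0 < C ∧ ∃ n0 : ℕ, ∀ n : ℕ, n0 ≤ n → ∀ p1 : ℕ, p1.Prime →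
    p1 ^ 100 ≤ n → ∀ N y1 y2 : ℕ, Win n N y1 y2 →
    ∑ p ∈ (Sq y1 y2).filter (fun p => p1 ∣ Nat.dist N p ∧
      ∀ q ∈ PP n N p1, (q : ℝ) < zz n → ¬ q ∣ Nat.dist N p), lg p ≤
      C / p1 * (hl N * n / Real.log n) := by
  obtain ⟨C, hC, hsv⟩ := ce2_sieve
  obtain ⟨n1, hpar⟩ := ce2_par
  refine ⟨C * (3 * 2000 ^ 2), by positivity, n1 + 3, fun n hn p1 hp1 hp100 N y1 y2 hW => ?_⟩
  have hN : (3 : ℝ) ≤ n := by exact_mod_cast (by omega : 3 ≤ n)
  have hL : 0 < Real.log n := Real.log_pos (by linarith)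
  obtain ⟨w, hw2, hwz, hwn, hlw, hp⟩ := hpar n (by omega)
  obtain ⟨hw422, hp1n, hp116⟩ := hp p1 hp1.pos hp100
  have hp0 : (0 : ℝ) < p1 := by exact_mod_cast hp1.pos
  obtain ⟨S0, hS0⟩ : ∃ S0 : Finset ℕ, S0 = (Sq y1 y2).filter (fun p => p1 ∣ Nat.dist N p ∧
      ∀ q ∈ PP n N p1, (q : ℝ) < zz n → ¬ q ∣ Nat.dist N p) := ⟨_, rfl⟩
  rw [← hS0]
  obtain ⟨s, hs⟩ : ∃ s : ℤ, s = if y2 < N then 1 else -1 := ⟨_, rfl⟩
  have hs1 : s = 1 ∨ s = -1 := by
    rw [hs]
    split_ifs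
    · left; rfl
    · right; rfl
  have hside := hW.side
  have hlt := hW.lt
  have hle := hW.le
  have hlo := hW.lo
  -- facts about the elements
  have hfact : ∀ p ∈ S0, y1 < p ∧ p ≤ y2 ∧ p.Prime ∧ p1 * (Nat.dist N p / p1) = Nat.dist N p ∧
      (p : ℤ) = N - s * (p1 * ((Nat.dist N p / p1 : ℕ) : ℤ)) ∧
      (∀ q ∈ PP n N p1, (q : ℝ) < zz n → ¬ q ∣ Nat.dist N p) := by
    intro p hp
    rw [hS0, mem_filter, mem_Sq] at hp
    obtain ⟨⟨⟨h1, h2⟩, h3⟩, h4, h5⟩ := hp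
    have h6 : p1 * (Nat.dist N p / p1) = Nat.dist N p := Nat.mul_div_cancel' h4
    refine ⟨h1, h2, h3, h6, ?_, h5⟩
    have h7 : ((p1 : ℤ) * ((Nat.dist N p / p1 : ℕ) : ℤ)) = (Nat.dist N p : ℤ) := by
      exact_mod_cast h6
    rw [h7, hs]
    unfold Nat.dist
    split_ifs with h8
    · have h9 : p ≤ N := by omega
      have h10 : p - N = 0 := by omega
      rw [h10, add_zero, Nat.cast_sub h9]
      ring
    · have h9 : N ≤ p := by omega
      have h10 : N - p = 0 := by omega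
      rw [h10, zero_add, Nat.cast_sub h9]
      ring
  -- the set of the `k`
  obtain ⟨K, hK⟩ : ∃ K : Finset ℕ, K = S0.image (fun p => Nat.dist N p / p1) := ⟨_, rfl⟩
  have hcard : K.card = S0.card := by
    rw [hK]
    apply card_image_of_injOn
    intro p hp p' hp' heq
    have h1 := (hfact p hp).2.2.2.2.1
    have h2 := (hfact p' hp').2.2.2.2.1
    have heq' : Nat.dist N p / p1 = Nat.dist N p' / p1 := heq
    rw [heq'] at h1
    have h3 : (p : ℤ) = p' := h1.trans h2.symm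
    exact_mod_cast h3
  -- the interval
  obtain ⟨d0, hd0⟩ : ∃ d0 : ℕ, d0 = if y2 < N then N - y2 else y1 - N := ⟨_, rfl⟩
  obtain ⟨M, hM⟩ : ∃ M : ℕ, M = (y2 - y1) / p1 + 2 := ⟨_, rfl⟩
  have hMw : w ^ 422 ≤ M := by
    have h1 : (w : ℝ) ^ 422 ≤ M := by
      refine hw422.trans ?_
      have h2 : (n : ℝ) / (16 * p1) ≤ ((y2 - y1 : ℕ) : ℝ) / p1 := by
        rw [div_le_div_iff₀ (by positivity) hp0]
        have h3 : (n : ℝ) ≤ ((16 * (y2 - y1) : ℕ) : ℝ) := by exact_mod_cast hW.len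
        push_cast at h3
        nlinarith
      have h3 : ((y2 - y1 : ℕ) : ℝ) / p1 ≤ (((y2 - y1) / p1 : ℕ) : ℝ) + 1 := by
        rw [div_le_iff₀ hp0]
        have h4 : y2 - y1 < p1 * ((y2 - y1) / p1 + 1) := Nat.lt_mul_div_succ _ hp1.pos
        have h5 : ((y2 - y1 : ℕ) : ℝ) ≤ ((p1 * ((y2 - y1) / p1 + 1) : ℕ) : ℝ) := by
          exact_mod_cast h4.le
        push_cast at h5
        push_cast
        linarith
      have h4 : (M : ℝ) = (((y2 - y1) / p1 : ℕ) : ℝ) + 2 := by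
        rw [hM]
        push_cast
        ring
      linarith
    exact_mod_cast h1
  have hMn : (M : ℝ) ≤ 3 * (n / p1) := by
    have h1 : (((y2 - y1) / p1 : ℕ) : ℝ) ≤ ((y2 - y1 : ℕ) : ℝ) / p1 := Nat.cast_div_le
    have h2 : ((y2 - y1 : ℕ) : ℝ) / p1 ≤ n / p1 := by
      apply div_le_div_of_nonneg_right _ hp0.le
      have : y2 - y1 ≤ n := by omega
      exact_mod_cast this
    have h3 : 1 ≤ (n : ℝ) / p1 := by
      rw [le_div_iff₀ hp0, one_mul]
      exact hp1n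
    have h4 : (M : ℝ) = (((y2 - y1) / p1 : ℕ) : ℝ) + 2 := by
      rw [hM]
      push_cast
      ring
    rw [h4]
    linarith
  have hKc : (K.card : ℝ) ≤ M * (C * hl N / Real.log w ^ 2) := by
    apply hsv w N p1 M ((d0 / p1 : ℕ) : ℤ) s hw2 hW.N0 hp1 hs1 hMw K
    intro k hk
    rw [hK, mem_image] at hk
    obtain ⟨p, hp, rfl⟩ := hk
    obtain ⟨h1, h2, h3, h4, h5, h6⟩ := hfact p hp
    constructor
    · rw [mem_Ico]
      have h7 : d0 ≤ Nat.dist N p ∧ Nat.dist N p ≤ d0 + (y2 - y1) := by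
        rw [hd0]
        unfold Nat.dist
        split_ifs <;> omega
      constructor
      · exact_mod_cast Nat.div_le_div_right h7.1
      · have h8 : Nat.dist N p / p1 ≤ (d0 + (y2 - y1)) / p1 := Nat.div_le_div_right h7.2
        have h9 : (d0 + (y2 - y1)) / p1 ≤ d0 / p1 + (y2 - y1) / p1 + 1 := by
          have h10 : d0 < p1 * (d0 / p1 + 1) := Nat.lt_mul_div_succ _ hp1.pos
          have h11 : y2 - y1 < p1 * ((y2 - y1) / p1 + 1) := Nat.lt_mul_div_succ _ hp1.pos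
          have h12 : (d0 + (y2 - y1)) / p1 < d0 / p1 + (y2 - y1) / p1 + 2 := by
            rw [Nat.div_lt_iff_lt_mul hp1.pos]
            nlinarith
          omega
        have h10 : Nat.dist N p / p1 < d0 / p1 + M := by omega
        exact_mod_cast h10
    · intro q hq hmem
      rw [mem_sprimes] at hq
      obtain ⟨hqp, hq6, hqw⟩ := hq
      have : Fact q.Prime := ⟨hqp⟩
      have hqne : q ≠ p := by
        intro h
        omega
      have hqnp : (p : ZMod q) ≠ 0 := by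
        intro h
        have h7 := (ZMod.natCast_eq_zero_iff p q).mp h
        exact hqne ((Nat.prime_dvd_prime_iff_eq hqp h3).mp h7)
      unfold ce2Om at hmem
      split_ifs at hmem with h7
      · simp at hmem
      · have hp1q : (p1 : ZMod q) ≠ 0 := by
          intro h
          have h8 := (ZMod.natCast_eq_zero_iff p1 q).mp h
          exact h7 ((Nat.prime_dvd_prime_iff_eq hqp hp1).mp h8)
        have h5q : (p : ZMod q) = N - s * (p1 * ((Nat.dist N p / p1 : ℕ) : ZMod q)) := by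
          obtain ⟨k, hk⟩ : ∃ k : ℕ, k = Nat.dist N p / p1 := ⟨_, rfl⟩
          rw [← hk] at h5 ⊢
          have h8 : ((p : ℤ) : ZMod q) = ((N - s * (p1 * (k : ℤ)) : ℤ) : ZMod q) := by rw [← h5]
          push_cast at h8
          exact h8
        rw [mem_insert, mem_singleton] at hmem
        rcases hmem with h8 | h8
        · -- `k ≡ 0`
          have h8' : ((Nat.dist N p / p1 : ℕ) : ZMod q) = 0 := by exact_mod_cast h8
          have h9 : q ∣ Nat.dist N p / p1 := (ZMod.natCast_eq_zero_iff _ q).mp h8'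
          have h10 : q ∣ Nat.dist N p := by
            rw [← h4]
            exact dvd_mul_of_dvd_right h9 p1
          by_cases h11 : q ∣ N
          · apply hqnp
            rw [h5q, h8', (ZMod.natCast_eq_zero_iff N q).mpr h11]
            simp
          · have h12 : q ∈ PP n N p1 := by
              rw [mem_PP]
              exact ⟨⟨by omega, by omega⟩, hqp, h11, h7⟩
            have h13 : (q : ℝ) < zz n := by
              have : (q : ℝ) ≤ w := by exact_mod_cast hqw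
              linarith
            exact h6 q h12 h13 h10
        · -- `k ≡ s N / p1`
          have h8' : ((Nat.dist N p / p1 : ℕ) : ZMod q) = s * N * (p1 : ZMod q)⁻¹ := by
            exact_mod_cast h8
          apply hqnp
          rw [h5q, h8']
          have h9 : (s : ZMod q) * s = 1 := by
            rcases hs1 with h | h <;> rw [h] <;> simp
          have h10 : (s : ZMod q) * (p1 * (s * N * (p1 : ZMod q)⁻¹)) = (s * s) * N := by
            field_simp
          rw [h10, h9]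
          ring
  rw [hcard] at hKc
  have hlw0 : 0 < Real.log n / 2000 := by positivity
  have hlw1 : 0 < Real.log w := lt_of_lt_of_le hlw0 hlw
  have hhl := one_le_hl N
  have hb : (C * hl N / Real.log w ^ 2) ≤ C * hl N / (Real.log n / 2000) ^ 2 := by
    apply div_le_div_of_nonneg_left (by positivity) (by positivity)
    exact pow_le_pow_left₀ hlw0.le hlw 2
  calc ∑ p ∈ S0, lg p ≤ ∑ p ∈ S0, Real.log n := by
        apply sum_le_sum
        intro p hp
        obtain ⟨h1, h2, h3, -⟩ := hfact p hp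
        unfold lg
        apply Real.log_le_log
        · exact_mod_cast h3.pos
        · exact_mod_cast h2.trans hle
    _ = (S0.card : ℝ) * Real.log n := by rw [sum_const, nsmul_eq_mul]
    _ ≤ (3 * (n / p1) * (C * hl N / (Real.log n / 2000) ^ 2)) * Real.log n := by
        apply mul_le_mul_of_nonneg_right _ hL.le
        refine hKc.trans ?_
        apply mul_le_mul hMn hb (by positivity) (by positivity)
    _ = C * (3 * 2000 ^ 2) / p1 * (hl N * n / Real.log n) := by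
        field_simp

end Pool.Agent.Lib.H59C
end

-- from Lib.H59C.CTI
section

/-!
# CTI: the inner sum of the switching constant
-/

open Finset

namespace Pool.Agent.Lib.H59C

theorem cti_int (κ a b : ℝ) (ha : 0 < a) (hb : a ≤ b) (hκ : b < κ) :
    ∫ x in a..b, (1 / (κ - x)) / x =
      1 / κ * (Real.log b - Real.log (κ - b)) - 1 / κ * (Real.log a - Real.log (κ - a)) := by
  have hκ0 : 0 < κ := by linarith
  have h : ∀ x ∈ Set.uIcc a b,
      HasDerivAt (fun x : ℝ => 1 / κ * (Real.log x - Real.log (κ - x)))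
        ((1 / (κ - x)) / x) x := by
    intro x hx
    rw [Set.uIcc_of_le hb, Set.mem_Icc] at hx
    have hx0 : 0 < x := by linarith
    have hx1 : 0 < κ - x := by linarith
    have h1 : HasDerivAt (fun x : ℝ => Real.log x) (1 / x) x := by
      simpa using Real.hasDerivAt_log hx0.ne'
    have h2 : HasDerivAt (fun x : ℝ => κ - x) (-1) x := by
      simpa using (hasDerivAt_id x).const_sub κ
    have h3 : HasDerivAt (fun x : ℝ => Real.log (κ - x)) (-1 / (κ - x)) x := by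
      simpa using h2.log hx1.ne'
    have h4 := (h1.sub h3).const_mul (1 / κ)
    have hx0' : x ≠ 0 := hx0.ne'
    have hx1' : κ - x ≠ 0 := hx1.ne'
    have hκ' : κ ≠ 0 := hκ0.ne'
    have e : (1 / (κ - x)) / x = 1 / κ * (1 / x - -1 / (κ - x)) := by
      field_simp
      ring
    rw [e]
    exact h4
  rw [intervalIntegral.integral_eq_sub_of_hasDerivAt h]
  apply ContinuousOn.intervalIntegrable
  rw [Set.uIcc_of_le hb]
  apply ContinuousOn.div
  · apply ContinuousOn.div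
    · fun_prop
    · fun_prop
    · intro x hx
      rw [Set.mem_Icc] at hx
      have : 0 < κ - x := by linarith
      exact this.ne'
  · fun_prop
  · intro x hx
    rw [Set.mem_Icc] at hx
    have : 0 < x := by linarith
    exact this.ne'

/-- The value of the integral. -/
theorem cti_bound (η x1 : ℝ) (hη : 0 < η) (hη1 : η ≤ 1 / 60) (h1 : 1 / 8 ≤ x1)
    (h2 : x1 ≤ 1 / 3 + η) :
    1 / (1 - x1 - η) * (Real.log ((1 - x1) / 2 + η) -
        Real.log ((1 - x1 - η) - ((1 - x1) / 2 + η))) -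
      1 / (1 - x1 - η) * (Real.log (1 / 3) - Real.log ((1 - x1 - η) - 1 / 3)) ≤
    Real.log (max 1 (2 - 3 * x1)) / (1 - x1) + 24 * η := by
  obtain ⟨w, hw⟩ : ∃ w : ℝ, w = (1 - x1) / 2 := ⟨_, rfl⟩
  have hw1 : 8 / 25 ≤ w := by rw [hw]; linarith
  have hκ : 3 / 5 ≤ 1 - x1 - η := by linarith
  have hκ0 : 0 < 1 - x1 - η := by linarith
  have hk : (1 - x1 - η) - ((1 - x1) / 2 + η) = w - 2 * η := by rw [hw]; ring
  rw [hk, ← hw]
  have e1 : Real.log (w + η) - Real.log (w - 2 * η) ≤ 12 * η := by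
    rw [← Real.log_div (by linarith) (by linarith)]
    have h3 : 0 < (w + η) / (w - 2 * η) := by
      apply div_pos <;> linarith
    have h4 := Real.log_le_sub_one_of_pos h3
    have h5 : (w + η) / (w - 2 * η) - 1 ≤ 12 * η := by
      rw [div_sub_one (by linarith), div_le_iff₀ (by linarith)]
      nlinarith
    linarith
  obtain ⟨M, hM⟩ : ∃ M : ℝ, M = Real.log (max 1 (2 - 3 * x1)) := ⟨_, rfl⟩
  have hM0 : 0 ≤ M := by
    rw [hM]
    exact Real.log_nonneg (le_max_left _ _)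
  have hM1 : M ≤ 1 := by
    rw [hM]
    have h3 : max 1 (2 - 3 * x1) ≤ 13 / 8 := by
      apply max_le <;> linarith
    have h4 : (0 : ℝ) < max 1 (2 - 3 * x1) := lt_of_lt_of_le one_pos (le_max_left _ _)
    have h5 := Real.log_le_sub_one_of_pos h4
    linarith
  have e2 : Real.log ((1 - x1 - η) - 1 / 3) - Real.log (1 / 3) ≤ M := by
    rw [← Real.log_div (by linarith) (by norm_num), hM]
    apply Real.log_le_log
    · apply div_pos
      · linarith
      · norm_num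
    · have : ((1 - x1 - η) - 1 / 3) / (1 / 3) = 2 - 3 * x1 - 3 * η := by ring
      rw [this]
      have := le_max_right (1 : ℝ) (2 - 3 * x1)
      linarith
  rw [← hM]
  have e3 : 1 / (1 - x1 - η) ≤ 1 / (1 - x1) + 3 * η := by
    have h3 : 1 / (1 - x1 - η) - 1 / (1 - x1) = η / ((1 - x1 - η) * (1 - x1)) := by
      have : (1 - x1) ≠ 0 := by linarith
      have : (1 - x1 - η) ≠ 0 := by linarith
      field_simp
      ring
    have h4 : η / ((1 - x1 - η) * (1 - x1)) ≤ 3 * η := by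
      rw [div_le_iff₀ (by apply mul_pos <;> linarith)]
      have : 1 / 3 ≤ (1 - x1 - η) * (1 - x1) := by nlinarith
      nlinarith
    linarith
  have e4 : 1 / (1 - x1 - η) ≤ 5 / 3 := by
    rw [div_le_div_iff₀ hκ0 (by norm_num)]
    linarith
  have hκinv : 0 ≤ 1 / (1 - x1 - η) := by positivity
  calc 1 / (1 - x1 - η) * (Real.log (w + η) - Real.log (w - 2 * η)) -
      1 / (1 - x1 - η) * (Real.log (1 / 3) - Real.log ((1 - x1 - η) - 1 / 3))
      = 1 / (1 - x1 - η) * (Real.log (w + η) - Real.log (w - 2 * η)) +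
      1 / (1 - x1 - η) * (Real.log ((1 - x1 - η) - 1 / 3) - Real.log (1 / 3)) := by ring
    _ ≤ 1 / (1 - x1 - η) * (12 * η) + 1 / (1 - x1 - η) * M := by
        apply add_le_add
        · exact mul_le_mul_of_nonneg_left e1 hκinv
        · exact mul_le_mul_of_nonneg_left e2 hκinv
    _ ≤ 5 / 3 * (12 * η) + (1 / (1 - x1) + 3 * η) * M := by
        apply add_le_add
        · exact mul_le_mul_of_nonneg_right e4 (by positivity)
        · exact mul_le_mul_of_nonneg_right e3 hM0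
    _ ≤ M / (1 - x1) + 24 * η := by
        have h3 : 3 * η * M ≤ 3 * η := by nlinarith
        have h4 : (1 / (1 - x1) + 3 * η) * M = M / (1 - x1) + 3 * η * M := by ring
        rw [h4]
        linarith

/-- Proof. `L = log n`, `x1 = log q1/L ∈ [1/8, 1/3 + 1/L]`, `c = log 20/L`. `q2 ∈ [n^a, n^b']` with `n^a = (2n)^(1/3)`
(`a = 1/3 + log 2/(3L)`), `q2 ≤ √(3n/q1) = n^b`, `b = (1 - x1)/2 + log 3/(2L)`. If `a ≤ b`: the sum is at most
`(1/L) ∑_{n^a ≤ q2 < n^(b + η)} φ(x2)/q2`, `φ(x) = 1/(1 - x1 - c - x)`, increasing and bounded by `10`, and by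
`prime_int` this is `(1/L) (∫_a^{b+η} dx/(x (1 - x1 - c - x)) + O(1/L))
= (1/L) ((1 - x1 - c)⁻¹ [log (x/(1 - x1 - c - x))]_a^{b+η} + O(1/L))`. As `n → ∞` and `η → 0`, uniformly in
`x1 ∈ [1/8, 1/3]`: at `x = b + η` the logarithm is `O(η + 1/L)`, at `a` it tends to `log ((1/3)/(2/3 - x1)) = -log (2 - 3 x1)`. If
`a > b` the sum is empty or `x1 ≥ 1/3 - O(1/L)`, one trivial term is `O(1/n^(1/3))`. -/
theorem inner_sum (ε : ℝ) (hε : 0 < ε) : ∃ n0 : ℕ, ∀ n : ℕ, n0 ≤ n → ∀ q1 : ℕ, q1.Prime →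
    zz n ≤ q1 → (q1 : ℝ) < yy n →
    ∑ q2 ∈ (PR (yy n) n).filter (fun q2 => q1 * q2 ^ 2 ≤ 3 * n),
        Real.log n / ((q2 : ℝ) * Real.log (n / (20 * q1 * q2))) ≤
      Real.log (max 1 (2 - 3 * (Real.log q1 / Real.log n))) /
        (1 - Real.log q1 / Real.log n) + ε := by
  obtain ⟨C, hC, hpi⟩ := prime_int
  obtain ⟨η, hη⟩ : ∃ η : ℝ, η = min (1 / 60) (ε / 48) := ⟨_, rfl⟩
  have hη0 : 0 < η := by rw [hη]; exact lt_min (by norm_num) (by linarith)
  have hη1 : η ≤ 1 / 60 := by rw [hη]; exact min_le_left _ _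
  have hη2 : 24 * η ≤ ε / 2 := by
    have : η ≤ ε / 48 := by rw [hη]; exact min_le_right _ _
    linarith
  obtain ⟨n1, hn1⟩ := cdl_log (max (20 / η) (24 * C / ε))
  obtain ⟨n2, hn2⟩ := cdl_zz 2
  refine ⟨n1 + n2 + 3, fun n hn q1 hq1 hq1z hq1y => ?_⟩
  have hN : (3 : ℝ) ≤ n := by exact_mod_cast (by omega : 3 ≤ n)
  have hL : 0 < Real.log n := Real.log_pos (by linarith)
  obtain ⟨L, hLdef⟩ : ∃ L : ℝ, L = Real.log n := ⟨_, rfl⟩
  have hLn := hn1 n (by omega)
  have hz2 := hn2 n (by omega)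
  have hlz := log_zz n (by omega)
  rw [← hLdef] at hL hLn hlz ⊢
  have hL1 : 20 ≤ η * L := by
    have : 20 / η ≤ L := le_trans (le_max_left _ _) hLn
    rw [div_le_iff₀ hη0] at this
    linarith
  have hL2 : 24 * C ≤ ε * L := by
    have : 24 * C / ε ≤ L := le_trans (le_max_right _ _) hLn
    rw [div_le_iff₀ hε] at this
    linarith
  have hzpos : 0 < zz n := by linarith
  have hq0 : (0 : ℝ) < q1 := by linarith
  have hlog2 : Real.log 2 ≤ 1 := by
    have := Real.log_two_lt_d9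
    linarith
  have hlog20 : Real.log 20 ≤ 19 := by
    have := Real.log_le_sub_one_of_pos (by norm_num : (0 : ℝ) < 20)
    linarith
  have hlog20' : 0 ≤ Real.log 20 := Real.log_nonneg (by norm_num)
  have hlog3 : Real.log 3 ≤ 2 := by
    have := Real.log_le_sub_one_of_pos (by norm_num : (0 : ℝ) < 3)
    linarith
  have hlyy : Real.log (yy n) = 1 / 3 * (Real.log 2 + L) := by
    unfold yy
    rw [Real.log_rpow (by linarith), Real.log_mul (by norm_num) (by linarith), hLdef]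
  have hyypos : 0 < yy n := by unfold yy; positivity
  obtain ⟨x1, hx1⟩ : ∃ x1 : ℝ, x1 = Real.log q1 / L := ⟨_, rfl⟩
  rw [← hx1]
  have hx1L : Real.log q1 = x1 * L := by rw [hx1, div_mul_cancel₀ _ hL.ne']
  have hx18 : 1 / 8 ≤ x1 := by
    rw [hx1, le_div_iff₀ hL]
    have := Real.log_le_log hzpos hq1z
    rw [hlz] at this
    exact this
  have hx13 : x1 ≤ 1 / 3 + η := by
    rw [hx1, div_le_iff₀ hL]
    have := Real.log_le_log hq0 hq1y.le
    rw [hlyy] at this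
    nlinarith
  obtain ⟨b, hb⟩ : ∃ b : ℝ, b = (1 - x1) / 2 + η := ⟨_, rfl⟩
  obtain ⟨κ, hκ⟩ : ∃ κ : ℝ, κ = 1 - x1 - η := ⟨_, rfl⟩
  have hb3 : 1 / 3 ≤ b := by rw [hb]; linarith
  have hκb : 1 / 4 ≤ κ - b := by rw [hb, hκ]; linarith
  -- the terms
  have hterm : ∀ q2 ∈ (PR (yy n) n).filter (fun q2 => q1 * q2 ^ 2 ≤ 3 * n),
      q2 ∈ PR ((n : ℝ) ^ (1 / 3 : ℝ)) ((n : ℝ) ^ b) ∧
      L / ((q2 : ℝ) * Real.log (n / (20 * q1 * q2))) ≤ (1 / (κ - Real.log q2 / L)) / q2 := by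
    intro q2 hq2
    rw [mem_filter, mem_PR] at hq2
    obtain ⟨⟨hq2p, hq2y, hq2n⟩, hq2s⟩ := hq2
    have hq20 : (0 : ℝ) < q2 := by linarith
    have hs : (q1 : ℝ) * (q2 : ℝ) ^ 2 ≤ 3 * n := by exact_mod_cast hq2s
    have hs' := Real.log_le_log (by positivity) hs
    rw [Real.log_mul hq0.ne' (by positivity), Real.log_pow, Real.log_mul (by norm_num)
      (by linarith), ← hLdef, hx1L] at hs'
    push_cast at hs'
    have hx2 : Real.log q2 < b * L := by
      have : b * L = L / 2 - x1 * L / 2 + η * L := by rw [hb]; ring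
      rw [this]
      linarith
    have hx2' : Real.log q2 / L < b := by
      rw [div_lt_iff₀ hL]
      exact hx2
    constructor
    · rw [mem_PR]
      refine ⟨hq2p, ?_, ?_⟩
      · refine le_trans ?_ hq2y
        unfold yy
        apply Real.rpow_le_rpow (by linarith) (by linarith) (by norm_num)
      · rw [← Real.log_lt_log_iff hq20 (by positivity), Real.log_rpow (by linarith), ← hLdef]
        exact hx2
    · have hlg : Real.log (n / (20 * q1 * q2)) = L - Real.log 20 - x1 * L - Real.log q2 := by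
        rw [Real.log_div (by linarith) (by positivity), Real.log_mul (by positivity) hq20.ne',
          Real.log_mul (by norm_num) hq0.ne', ← hLdef, hx1L]
        ring
      have hk1 : 0 < κ - Real.log q2 / L := by linarith
      have hge : (κ - Real.log q2 / L) * L ≤ Real.log (n / (20 * q1 * q2)) := by
        rw [hlg, sub_mul, div_mul_cancel₀ _ hL.ne', hκ]
        nlinarith
      have hpos : 0 < Real.log (n / (20 * q1 * q2)) := lt_of_lt_of_le (by positivity) hge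
      rw [div_div, div_le_div_iff₀ (by positivity) (by positivity)]
      calc L * ((κ - Real.log q2 / L) * q2) = q2 * ((κ - Real.log q2 / L) * L) := by ring
        _ ≤ q2 * Real.log (n / (20 * q1 * q2)) := mul_le_mul_of_nonneg_left hge hq20.le
        _ = 1 * (q2 * Real.log (n / (20 * q1 * q2))) := by ring
  have hΦ : ∀ x ∈ Set.Icc (1 / 3 : ℝ) b, |1 / (κ - x)| ≤ 4 := by
    intro x hx
    rw [Set.mem_Icc] at hx
    have h1 : 1 / 4 ≤ κ - x := by linarith
    rw [abs_of_nonneg (by apply div_nonneg (by norm_num); linarith)]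
    rw [div_le_iff₀ (by linarith)]
    linarith
  have hmono : MonotoneOn (fun x : ℝ => 1 / (κ - x)) (Set.Icc (1 / 3 : ℝ) b) := by
    intro x hx y hy hxy
    rw [Set.mem_Icc] at hx hy
    apply div_le_div_of_nonneg_left (by norm_num)
    · linarith
    · linarith
  have hn3 : 2 ≤ (n : ℝ) ^ (1 / 3 : ℝ) := by
    have h1 : zz n ≤ (n : ℝ) ^ (1 / 3 : ℝ) := by
      unfold zz
      apply Real.rpow_le_rpow_of_exponent_le (by linarith) (by norm_num)
    linarith
  have hpi1 := hpi n (1 / 3) b 4 (fun x : ℝ => 1 / (κ - x)) (by omega)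
    (by norm_num) hb3 (by rw [hb]; linarith) hn3 (Or.inl hmono) hΦ
  rw [cti_int κ (1 / 3) b (by norm_num) hb3 (by linarith), ← hLdef, abs_le] at hpi1
  have hcb := cti_bound η x1 hη0 hη1 hx18 hx13
  rw [← hκ, ← hb] at hcb
  calc ∑ q2 ∈ (PR (yy n) n).filter (fun q2 => q1 * q2 ^ 2 ≤ 3 * n),
        L / ((q2 : ℝ) * Real.log (n / (20 * q1 * q2)))
      ≤ ∑ q2 ∈ (PR (yy n) n).filter (fun q2 => q1 * q2 ^ 2 ≤ 3 * n),
        (1 / (κ - Real.log q2 / L)) / q2 := sum_le_sum fun q2 hq2 => (hterm q2 hq2).2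
    _ ≤ ∑ q2 ∈ PR ((n : ℝ) ^ (1 / 3 : ℝ)) ((n : ℝ) ^ b), (1 / (κ - Real.log q2 / L)) / q2 := by
        apply sum_le_sum_of_subset_of_nonneg (fun q2 hq2 => (hterm q2 hq2).1)
        intro q hq _
        obtain ⟨hqp, hqa, hqb⟩ := mem_PR.mp hq
        have hq0 : (0 : ℝ) < q := by linarith
        have h1 := Real.log_le_log hq0 hqb.le
        rw [Real.log_rpow (by linarith), ← hLdef] at h1
        have h2 : Real.log q / L ≤ b := by
          rw [div_le_iff₀ hL]
          exact h1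
        have h3 : 0 < κ - Real.log q / L := by linarith
        positivity
    _ ≤ (1 / κ * (Real.log b - Real.log (κ - b)) - 1 / κ * (Real.log (1 / 3) -
          Real.log (κ - 1 / 3))) + C * 4 / (1 / 3 * L) := by
        linarith [hpi1.2]
    _ ≤ (Real.log (max 1 (2 - 3 * x1)) / (1 - x1) + 24 * η) + ε / 2 := by
        apply add_le_add hcb
        have : C * 4 / (1 / 3 * L) = 12 * C / L := by
          field_simp
          ring
        rw [this, div_le_iff₀ hL]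
        linarith
    _ ≤ Real.log (max 1 (2 - 3 * x1)) / (1 - x1) + ε := by linarith

end Pool.Agent.Lib.H59C
end

-- from Lib.H59C.CTO
section

/-!
# CTO: the switching constant
-/

open Finset MeasureTheory

namespace Pool.Agent.Lib.H59C

/-- The function of the outer sum. -/
noncomputable def ctoF (x : ℝ) : ℝ := Real.log (max 1 (2 - 3 * x)) / (1 - x)

theorem cto_anti (b : ℝ) (hb : b ≤ 1 / 2) : AntitoneOn ctoF (Set.Icc (1 / 8) b) := by
  intro x hx y hy hxy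
  rw [Set.mem_Icc] at hx hy
  unfold ctoF
  have hx1 : 0 < 1 - x := by linarith
  have hy1 : 0 < 1 - y := by linarith
  rcases le_or_gt (2 - 3 * y) 1 with h | h
  · rw [max_eq_left h, Real.log_one, zero_div]
    apply div_nonneg _ hx1.le
    exact Real.log_nonneg (le_max_left _ _)
  · rw [max_eq_right h.le, max_eq_right (by linarith : 1 ≤ 2 - 3 * x)]
    rw [div_le_div_iff₀ hy1 hx1]
    obtain ⟨u, hu⟩ : ∃ u : ℝ, u = 2 - 3 * x := ⟨_, rfl⟩
    obtain ⟨v, hv⟩ : ∃ v : ℝ, v = 2 - 3 * y := ⟨_, rfl⟩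
    have e1 : 1 - x = (1 + u) / 3 := by rw [hu]; ring
    have e2 : 1 - y = (1 + v) / 3 := by rw [hv]; ring
    rw [← hu, ← hv, e1, e2]
    have hv1 : 1 < v := by rw [hv]; exact h
    have hvu : v ≤ u := by rw [hu, hv]; linarith
    have hu1 : u ≤ 13 / 8 := by rw [hu]; linarith
    have hv0 : 0 < v := by linarith
    have hu0 : 0 < u := by linarith
    have h1 : (u - v) / u ≤ Real.log u - Real.log v := by
      rw [← Real.log_div hu0.ne' hv0.ne']
      have h2 := Real.one_sub_inv_le_log_of_pos (div_pos hu0 hv0)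
      have h3 : 1 - (u / v)⁻¹ = (u - v) / u := by
        field_simp
      linarith
    have h2 : Real.log v ≤ v - 1 := Real.log_le_sub_one_of_pos hv0
    have h3 : (u - v) * Real.log v ≤ (1 + v) * ((u - v) / u) := by
      have h4 : (1 + v) * ((u - v) / u) = (u - v) * ((1 + v) / u) := by ring
      rw [h4]
      apply mul_le_mul_of_nonneg_left _ (by linarith)
      have h5 : 1 ≤ (1 + v) / u := by
        rw [le_div_iff₀ hu0]
        linarith
      linarith
    have h4 : (1 + v) * ((u - v) / u) ≤ (1 + v) * (Real.log u - Real.log v) :=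
      mul_le_mul_of_nonneg_left h1 (by linarith)
    nlinarith

theorem cto_bound (b x : ℝ) (hb : b ≤ 1 / 3 + 1 / 100) (hx : x ∈ Set.Icc (1 / 8) b) :
    |ctoF x| ≤ 1 := by
  rw [Set.mem_Icc] at hx
  unfold ctoF
  have hx1 : 0 < 1 - x := by linarith
  have h0 : (0 : ℝ) < max 1 (2 - 3 * x) := lt_of_lt_of_le one_pos (le_max_left _ _)
  rw [abs_of_nonneg (div_nonneg (Real.log_nonneg (le_max_left _ _)) hx1.le),
    div_le_one hx1]
  have h1 := Real.log_le_sub_one_of_pos h0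
  have h2 : max 1 (2 - 3 * x) ≤ 13 / 8 := by
    apply max_le
    · norm_num
    · linarith
  linarith

theorem cto_cont (a b : ℝ) (ha : 1 / 8 ≤ a) (hb : b ≤ 1 / 2) :
    ContinuousOn (fun x : ℝ => ctoF x / x) (Set.Icc a b) := by
  unfold ctoF
  apply ContinuousOn.div
  · apply ContinuousOn.div
    · apply ContinuousOn.log
      · fun_prop
      · intro x _
        have : (0 : ℝ) < max 1 (2 - 3 * x) := lt_of_lt_of_le one_pos (le_max_left _ _)
        exact this.ne'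
    · fun_prop
    · intro x hx
      rw [Set.mem_Icc] at hx
      have : 0 < 1 - x := by linarith
      exact this.ne'
  · fun_prop
  · intro x hx
    rw [Set.mem_Icc] at hx
    have : 0 < x := by linarith
    exact this.ne'

theorem cto_int (b : ℝ) (hb : 1 / 3 ≤ b) (hb2 : b ≤ 1 / 2) :
    ∫ x in (1 / 8 : ℝ)..b, ctoF x / x ≤ 372 / 1000 := by
  have i1 : IntervalIntegrable (fun x : ℝ => ctoF x / x) volume (1 / 8) (1 / 3) := by
    apply ContinuousOn.intervalIntegrable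
    rw [Set.uIcc_of_le (by norm_num)]
    exact cto_cont _ _ le_rfl (by norm_num)
  have i2 : IntervalIntegrable (fun x : ℝ => ctoF x / x) volume (1 / 3) b := by
    apply ContinuousOn.intervalIntegrable
    rw [Set.uIcc_of_le hb]
    exact cto_cont _ _ (by norm_num) hb2
  rw [← intervalIntegral.integral_add_adjacent_intervals i1 i2]
  have e2 : ∫ x in (1 / 3 : ℝ)..b, ctoF x / x = 0 := by
    have : ∫ x in (1 / 3 : ℝ)..b, ctoF x / x = ∫ x in (1 / 3 : ℝ)..b, (0 : ℝ) := by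
      apply intervalIntegral.integral_congr
      intro x hx
      rw [Set.uIcc_of_le hb, Set.mem_Icc] at hx
      show ctoF x / x = 0
      unfold ctoF
      rw [max_eq_left (by linarith), Real.log_one, zero_div, zero_div]
    rw [this]
    simp
  have e1 : ∫ x in (1 / 8 : ℝ)..(1 / 3), ctoF x / x =
      ∫ x in (1 / 8 : ℝ)..(1 / 3), Real.log (2 - 3 * x) / (x * (1 - x)) := by
    apply intervalIntegral.integral_congr
    intro x hx
    rw [Set.uIcc_of_le (by norm_num), Set.mem_Icc] at hx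
    show ctoF x / x = Real.log (2 - 3 * x) / (x * (1 - x))
    unfold ctoF
    rw [max_eq_right (by linarith), div_div, mul_comm (1 - x) x]
  rw [e1, e2, add_zero]
  exact switch_int

/-- The switching constant.

Proof. By `inner_sum` the left side is `≤ ∑_{q1 ∈ PR (zz n) (yy n)} (φ(x1) + ε)/q1` with
`φ(x) = log (max 1 (2 - 3x))/(1 - x)`, decreasing on `[1/8, 1/2]` (derivative `(log (2-3x) - 3 (1-x)/(2-3x))/(1-x)²`, and
`log (2 - 3x) ≤ 1 - 3x < 1`, `3 (1-x)/(2-3x) ≥ 3/2`; constant `0` for `x ≥ 1/3`), bounded by `1`. `prime_int` (from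
`n^(1/8)` to `n^b = (2n)^(1/3)`) and `φ = 0` beyond `1/3`: the sum tends to at most
`∫_{1/8}^{1/3} log (2 - 3x)/(x (1 - x)) dx ≤ 372/1000` (`switch_int`); `∑ 1/q1 ≤ 2`. -/
theorem triple_sum : ∃ n0 : ℕ, ∀ n : ℕ, n0 ≤ n →
    Real.log n * ∑ q1 ∈ PR (zz n) (yy n),
      ∑ q2 ∈ (PR (yy n) n).filter (fun q2 => q1 * q2 ^ 2 ≤ 3 * n),
        1 / ((q1 : ℝ) * q2 * Real.log (n / (20 * q1 * q2))) ≤ 373 / 1000 := by
  obtain ⟨C, hC, hpi⟩ := prime_int
  obtain ⟨n1, hn1⟩ := inner_sum (1 / 4000) (by norm_num)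
  obtain ⟨n2, hn2⟩ := prime_S2 1 (by norm_num) 0 1 le_rfl
  obtain ⟨n3, hn3⟩ := cdl_log (max 100 (16000 * C))
  obtain ⟨n4, hn4⟩ := cdl_zz 2
  refine ⟨n1 + n2 + n3 + n4 + 3, fun n hn => ?_⟩
  have hN : (3 : ℝ) ≤ n := by exact_mod_cast (by omega : 3 ≤ n)
  have hL : 0 < Real.log n := Real.log_pos (by linarith)
  obtain ⟨L, hLdef⟩ : ∃ L : ℝ, L = Real.log n := ⟨_, rfl⟩
  have hLn := hn3 n (by omega)
  have hz2 := hn4 n (by omega)
  have hin := hn1 n (by omega)
  obtain ⟨-, hs2⟩ := hn2 n (by omega)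
  rw [← hLdef] at hL hLn hin ⊢
  have hL1 : 100 ≤ L := le_trans (le_max_left _ _) hLn
  have hL2 : 16000 * C ≤ L := le_trans (le_max_right _ _) hLn
  have hzpos : 0 < zz n := by linarith
  obtain ⟨b, hb⟩ : ∃ b : ℝ, b = 1 / 3 + 1 / 100 := ⟨_, rfl⟩
  have hlog2 : Real.log 2 ≤ 1 := by
    have := Real.log_two_lt_d9
    linarith
  have hyypos : 0 < yy n := by unfold yy; positivity
  have hyb : yy n ≤ (n : ℝ) ^ b := by
    rw [← Real.log_le_log_iff hyypos (by positivity), Real.log_rpow (by linarith),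
      ← hLdef, hb]
    unfold yy
    rw [Real.log_rpow (by linarith), Real.log_mul (by norm_num) (by linarith), ← hLdef]
    linarith
  have hsub : PR (zz n) (yy n) ⊆ PR ((n : ℝ) ^ (1 / 8 : ℝ)) ((n : ℝ) ^ b) := by
    intro q hq
    rw [mem_PR] at hq ⊢
    exact ⟨hq.1, hq.2.1, lt_of_lt_of_le hq.2.2 hyb⟩
  have hpi1 := hpi n (1 / 8) b 1 ctoF (by omega) (by norm_num) (by rw [hb]; norm_num)
    (by rw [hb]; norm_num) hz2 (Or.inr (cto_anti b (by rw [hb]; norm_num)))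
    (fun x hx => cto_bound b x (by rw [hb]) hx)
  rw [← hLdef, abs_le] at hpi1
  have hint := cto_int b (by rw [hb]; norm_num) (by rw [hb]; norm_num)
  have hqf : ∀ q ∈ PR ((n : ℝ) ^ (1 / 8 : ℝ)) ((n : ℝ) ^ b), (0 : ℝ) < q ∧
      Real.log q / L ∈ Set.Icc (1 / 8 : ℝ) b := by
    intro q hq
    obtain ⟨hqp, hq1, hq2⟩ := mem_PR.mp hq
    have hq1' : zz n ≤ q := hq1
    have hq0 : (0 : ℝ) < q := by linarith
    refine ⟨hq0, ?_, ?_⟩
    · rw [le_div_iff₀ hL]
      have := Real.log_le_log (by positivity) hq1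
      rw [Real.log_rpow (by linarith), ← hLdef] at this
      exact this
    · rw [div_le_iff₀ hL]
      have := Real.log_le_log hq0 hq2.le
      rw [Real.log_rpow (by linarith), ← hLdef] at this
      exact this
  have hF0 : ∀ x ∈ Set.Icc (1 / 8 : ℝ) b, 0 ≤ ctoF x := by
    intro x hx
    rw [Set.mem_Icc] at hx
    unfold ctoF
    apply div_nonneg (Real.log_nonneg (le_max_left _ _))
    rw [hb] at hx
    linarith
  have hone : ∀ q1 ∈ PR (zz n) (yy n), L * ∑ q2 ∈ (PR (yy n) n).filter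
      (fun q2 => q1 * q2 ^ 2 ≤ 3 * n), 1 / ((q1 : ℝ) * q2 * Real.log (n / (20 * q1 * q2))) ≤
      ctoF (Real.log q1 / L) / q1 + 1 / 4000 * gq q1 := by
    intro q1 hq1
    obtain ⟨hq0, hx⟩ := hqf q1 (hsub hq1)
    obtain ⟨hqp, hqa, hqb⟩ := mem_PR.mp hq1
    have h1 := hin q1 hqp hqa hqb
    have h2 : L * ∑ q2 ∈ (PR (yy n) n).filter (fun q2 => q1 * q2 ^ 2 ≤ 3 * n),
        1 / ((q1 : ℝ) * q2 * Real.log (n / (20 * q1 * q2))) =
        1 / (q1 : ℝ) * ∑ q2 ∈ (PR (yy n) n).filter (fun q2 => q1 * q2 ^ 2 ≤ 3 * n),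
          L / ((q2 : ℝ) * Real.log (n / (20 * q1 * q2))) := by
      rw [mul_sum, mul_sum]
      apply sum_congr rfl
      intro q2 _
      rw [mul_one_div, div_mul_div_comm, one_mul, mul_assoc]
    rw [h2]
    have h3 : 1 / (q1 : ℝ) ≤ gq q1 := by
      unfold gq
      apply div_le_div_of_nonneg_left zero_le_one
      · linarith
      · linarith
    calc 1 / (q1 : ℝ) * ∑ q2 ∈ (PR (yy n) n).filter (fun q2 => q1 * q2 ^ 2 ≤ 3 * n),
          L / ((q2 : ℝ) * Real.log (n / (20 * q1 * q2)))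
        ≤ 1 / (q1 : ℝ) * (ctoF (Real.log q1 / L) + 1 / 4000) :=
          mul_le_mul_of_nonneg_left h1 (by positivity)
      _ = ctoF (Real.log q1 / L) / q1 + 1 / 4000 * (1 / (q1 : ℝ)) := by ring
      _ ≤ ctoF (Real.log q1 / L) / q1 + 1 / 4000 * gq q1 := by
          apply add_le_add le_rfl
          exact mul_le_mul_of_nonneg_left h3 (by norm_num)
  calc L * ∑ q1 ∈ PR (zz n) (yy n), ∑ q2 ∈ (PR (yy n) n).filter
        (fun q2 => q1 * q2 ^ 2 ≤ 3 * n), 1 / ((q1 : ℝ) * q2 * Real.log (n / (20 * q1 * q2)))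
      = ∑ q1 ∈ PR (zz n) (yy n), L * ∑ q2 ∈ (PR (yy n) n).filter
        (fun q2 => q1 * q2 ^ 2 ≤ 3 * n), 1 / ((q1 : ℝ) * q2 * Real.log (n / (20 * q1 * q2))) := by
        rw [mul_sum]
    _ ≤ ∑ q1 ∈ PR (zz n) (yy n), (ctoF (Real.log q1 / L) / q1 + 1 / 4000 * gq q1) :=
        sum_le_sum hone
    _ = ∑ q1 ∈ PR (zz n) (yy n), ctoF (Real.log q1 / L) / q1 +
        1 / 4000 * ∑ q1 ∈ PR (zz n) (yy n), gq q1 := by
        rw [sum_add_distrib, ← mul_sum]
    _ ≤ ∑ q1 ∈ PR ((n : ℝ) ^ (1 / 8 : ℝ)) ((n : ℝ) ^ b), ctoF (Real.log q1 / L) / q1 +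
        1 / 4000 * 2 := by
        apply add_le_add
        · apply sum_le_sum_of_subset_of_nonneg hsub
          intro q hq _
          obtain ⟨hq0, hx⟩ := hqf q hq
          exact div_nonneg (hF0 _ hx) hq0.le
        · exact mul_le_mul_of_nonneg_left hs2 (by norm_num)
    _ ≤ (372 / 1000 + C * 1 / (1 / 8 * L)) + 1 / 4000 * 2 := by
        linarith [hpi1.2]
    _ ≤ 373 / 1000 := by
        have h2 : C * 1 / (1 / 8 * L) = 8 * C / L := by
          field_simp
        have h3 : 8 * C / L ≤ 1 / 2000 := by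
          rw [div_le_iff₀ hL]
          linarith
        rw [h2]
        linarith

end Pool.Agent.Lib.H59C
end
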