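import Pool.Agent.Lib.H1M.RV3.M001
import Pool.Agent.Lib.H1M.RV3.M003
import Pool.Agent.Lib.H1M.RV3.M035
import Pool.Agent.Lib.H1M.RV3.M047
import Pool.Agent.Lib.H1M.RV3.M048

/-! Merged copies (to shorten the build) of Lib.H57C.A2, Lib.H57C.SDefs, Lib.H57C.S0, Lib.H57C.MDefs, Lib.H57C.M0, Lib.H57C.M2, Lib.H57C.RA, Lib.H57C.X3, Lib.H57C.X4, Lib.H57M.B3, Lib.H57M.B2, Lib.H57M.B8, Lib.H57C.V5. -/

-- from Lib.H57C.A2
section

/-!
# Chunk A2: the small primes
-/

open Finset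

namespace Pool.Agent.Lib.H57C

open Pool.Agent.Lib.H59C (gq)

/-- The class `-h` modulo `q`. -/
theorem a2_cls {q h c : ℕ} (hq : 0 < q) (hc : c < q) : q ∣ c + h ↔ c = (q - h % q) % q := by
  have hr : h % q < q := Nat.mod_lt _ hq
  have h1 : q ∣ c + h ↔ q ∣ c + h % q := by
    rw [Nat.dvd_iff_mod_eq_zero, Nat.dvd_iff_mod_eq_zero, Nat.add_mod c h, Nat.add_mod c (h % q), Nat.mod_mod]
  rw [h1]
  set r := h % q with hrdef
  constructor
  · rintro ⟨k, hk⟩
    have hk2 : k < 2 := by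
      by_contra hk2
      push Not at hk2
      have : q * 2 ≤ q * k := Nat.mul_le_mul_left q hk2
      omega
    interval_cases k
    · have : r = 0 := by omega
      rw [this, Nat.sub_zero, Nat.mod_self]
      omega
    · have h2 : c = q - r := by omega
      rw [← h2, Nat.mod_eq_of_lt hc]
  · intro h2
    rcases Nat.eq_zero_or_pos r with h3 | h3
    · rw [h3, Nat.sub_zero, Nat.mod_self] at h2
      rw [h2, h3]
      exact dvd_zero q
    · rw [Nat.mod_eq_of_lt (by omega)] at h2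
      exact ⟨1, by omega⟩

theorem a2_mod {q N c : ℕ} (hc : c < q) : c ≡ N [MOD q] ↔ c = N % q := by
  unfold Nat.ModEq
  rw [Nat.mod_eq_of_lt hc]

open Classical in
theorem a2_one (Q : Finset ℕ) (R : ℕ → Finset ℕ) (Al : ℕ → ℕ → Prop) (c0 : ℕ → ℕ) (hQ : ∀ q ∈ Q, q.Prime)
    (h0 : ∀ q ∈ Q, c0 q ∈ R q) (hAl : ∀ q ∈ Q, ∀ c ∈ R q, (Al q c ↔ c ≠ c0 q)) :
    VS Q R gq Al = VbR Q R := by
  unfold VS VbR VaR
  rw [← Finset.prod_mul_distrib]
  refine Finset.prod_congr rfl fun q hq => ?_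
  have h1 : (R q).filter (fun c => Al q c) = (R q).erase (c0 q) := by
    ext c
    rw [Finset.mem_filter, Finset.mem_erase]
    constructor
    · rintro ⟨h2, h3⟩
      exact ⟨(hAl q hq c h2).1 h3, h2⟩
    · rintro ⟨h2, h3⟩
      exact ⟨h3, (hAl q hq c h3).2 h2⟩
  rw [h1, Finset.card_erase_of_mem (h0 q hq)]
  have hpos : 1 ≤ (R q).card := Finset.card_pos.2 ⟨_, h0 q hq⟩
  have hq2 : (2 : ℝ) ≤ q := by exact_mod_cast (hQ q hq).two_le
  rw [Nat.cast_sub hpos]
  unfold gq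
  have hq0 : (q : ℝ) ≠ 0 := by linarith
  have hq1 : (q : ℝ) - 1 ≠ 0 := by linarith
  push_cast
  field_simp
  ring

/-- Proof. For every `q ∈ Q`: the class `-h` mod `q` (the `c < q` with `q ∣ c + h`) is in `R q` and is the only class which is not
allowed, so the filtered set has `#R - 1` elements, and `1 - (r - 1)/(q - 1) = (1 - r/q) q/(q - 1)`. -/
theorem vs_BR (Q : Finset ℕ) (R : ℕ → Finset ℕ) (h : ℕ) (hQ : ∀ q ∈ Q, q.Prime)
    (hR : ∀ q ∈ Q, R q ⊆ range q) (hRH : ∀ q ∈ Q, ∀ c < q, q ∣ c + h → c ∈ R q) :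
    VS Q R gq (fun q c => ¬ q ∣ c + h) = VbR Q R := by
  refine a2_one Q R _ (fun q => (q - h % q) % q) hQ ?_ ?_
  · intro q hq
    have hq0 := (hQ q hq).pos
    have hlt : (q - h % q) % q < q := Nat.mod_lt _ hq0
    exact hRH q hq _ hlt ((a2_cls hq0 hlt).2 rfl)
  · intro q hq c hc
    have hlt := Finset.mem_range.1 (hR q hq hc)
    rw [a2_cls (hQ q hq).pos hlt]

theorem a2_Ps {W p1 q : ℕ} (hq : q ∈ Ps W p1) : q.Prime := by
  unfold Ps at hq
  rw [Finset.mem_filter] at hq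
  exact hq.2.1

theorem a2_Rb {N : ℕ} {H : Finset ℕ} {q : ℕ} : Rb N H q ⊆ range q := by
  unfold Rb
  exact Finset.filter_subset _ _


/-- Proof. As before, the class of `N` is the only one which is not allowed. -/
theorem vs_C (N W p1 : ℕ) (H : Finset ℕ) :
    VS (Ps W p1) (Rb N H) gq (fun q c => ¬ c ≡ N [MOD q]) = Vb N W p1 H := by
  rw [Vb_eq]
  refine a2_one _ _ _ (fun q => N % q) (fun q hq => a2_Ps hq) ?_ ?_
  · intro q hq
    have hlt : N % q < q := Nat.mod_lt _ (a2_Ps hq).pos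
    unfold Rb
    rw [Finset.mem_filter, Finset.mem_range]
    exact ⟨hlt, Or.inr ((a2_mod hlt).2 rfl)⟩
  · intro q hq c hc
    have hlt := Finset.mem_range.1 (a2_Rb hc)
    rw [a2_mod hlt]

theorem vs_IR (Q : Finset ℕ) (R : ℕ → Finset ℕ) :
    VS Q R (fun q => 1 / (q : ℝ)) (fun _ _ => True) = VaR Q R := by
  unfold VS VaR
  refine Finset.prod_congr rfl fun q _ => ?_
  rw [Finset.filter_true]
  ring


theorem a2_exp {x : ℝ} (h0 : 0 ≤ x) (h1 : x ≤ 1 / 2) : Real.exp (-(2 * x)) ≤ 1 - x := by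
  have h2 : 0 < 1 - x := by linarith
  have h3 : Real.log (1 - x)⁻¹ ≤ (1 - x)⁻¹ - 1 := Real.log_le_sub_one_of_pos (inv_pos.2 h2)
  have h4 : (1 - x)⁻¹ - 1 ≤ 2 * x := by
    rw [inv_eq_one_div, div_sub_one h2.ne', div_le_iff₀ h2]
    nlinarith
  rw [Real.log_inv] at h3
  rw [← Real.le_log_iff_exp_le h2]
  linarith

theorem a2_fac {K q r : ℕ} (hK : 1 ≤ K) (hq : 2 ≤ q) (hr : r ≤ K) (hrq : r < q) :
    (if q ≤ 2 * K then 1 / (2 * (K : ℝ)) else 1) * Real.exp (-(2 * K * (1 / (q : ℝ)))) ≤ 1 - (r : ℝ) / q := by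
  have hK1 : (1 : ℝ) ≤ K := by exact_mod_cast hK
  have hq2 : (2 : ℝ) ≤ q := by exact_mod_cast hq
  have hr0 : (0 : ℝ) ≤ r := Nat.cast_nonneg r
  have hrK : (r : ℝ) ≤ K := by exact_mod_cast hr
  have hrq' : (r : ℝ) + 1 ≤ q := by exact_mod_cast hrq
  have he : Real.exp (-(2 * K * (1 / (q : ℝ)))) ≤ 1 := by
    rw [Real.exp_le_one_iff]
    have : 0 ≤ 2 * (K : ℝ) * (1 / (q : ℝ)) := by positivity
    linarith
  have he0 := Real.exp_pos (-(2 * K * (1 / (q : ℝ))))
  split_ifs with h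
  · have hqK : (q : ℝ) ≤ 2 * K := by exact_mod_cast h
    calc 1 / (2 * (K : ℝ)) * Real.exp (-(2 * K * (1 / (q : ℝ)))) ≤ 1 / (2 * (K : ℝ)) * 1 :=
          mul_le_mul_of_nonneg_left he (by positivity)
      _ = 1 / (2 * (K : ℝ)) := mul_one _
      _ ≤ 1 / (q : ℝ) := one_div_le_one_div_of_le (by linarith) hqK
      _ ≤ 1 - (r : ℝ) / q := by
          rw [div_le_iff₀ (by linarith)]
          have : (1 - (r : ℝ) / q) * q = q - r := by field_simp
          rw [this]; linarith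
  · push Not at h
    have hqK : 2 * (K : ℝ) ≤ q := by exact_mod_cast h.le
    rw [one_mul]
    have h1 : (K : ℝ) / q ≤ 1 / 2 := by
      rw [div_le_iff₀ (by linarith)]; linarith
    have h2 := a2_exp (x := (K : ℝ) / q) (by positivity) h1
    have h3 : -(2 * (K : ℝ) * (1 / (q : ℝ))) = -(2 * ((K : ℝ) / q)) := by ring
    rw [h3]
    have h4 : (r : ℝ) / q ≤ (K : ℝ) / q := div_le_div_of_nonneg_right hrK (by linarith)
    linarith

theorem a2_large (K B : ℕ) (c : ℝ) (hc : 0 < c) : ∃ n0 : ℕ, ∀ N : ℕ, n0 ≤ N →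
    1 ≤ Real.log N ∧ Real.log (Real.log N ^ B + 3) ≤ (B + 1) * Real.log (Real.log N) ∧
      (((B : ℝ) + 1) * Real.log (Real.log N)) ^ (2 * K) ≤ c * Real.log N := by
  have h1 : ∀ᶠ x : ℝ in Filter.atTop, 1 ≤ x ∧ Real.log (x ^ B + 3) ≤ (B + 1) * Real.log x ∧
      (((B : ℝ) + 1) * Real.log x) ^ (2 * K) ≤ c * x := by
    have e1 := (Real.isLittleO_pow_log_id_atTop (n := 2 * K)).def
      (show 0 < c / ((B : ℝ) + 1) ^ (2 * K) by positivity)
    filter_upwards [e1, Filter.eventually_ge_atTop (4 : ℝ)] with x hx1 hx2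
    refine ⟨by linarith, ?_, ?_⟩
    · have h3 : x ^ B + 3 ≤ x ^ (B + 1) := by
        have : 1 ≤ x ^ B := one_le_pow₀ (by linarith)
        rw [pow_succ]
        nlinarith
      calc Real.log (x ^ B + 3) ≤ Real.log (x ^ (B + 1)) := Real.log_le_log (by positivity) h3
        _ = (B + 1) * Real.log x := by rw [Real.log_pow]; push_cast; ring
    · have hl : 0 ≤ Real.log x := Real.log_nonneg (by linarith)
      rw [Real.norm_eq_abs, Real.norm_eq_abs, abs_of_nonneg (pow_nonneg hl _), id, abs_of_nonneg (by linarith)] at hx1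
      rw [mul_pow]
      calc ((B : ℝ) + 1) ^ (2 * K) * Real.log x ^ (2 * K) ≤
            ((B : ℝ) + 1) ^ (2 * K) * (c / ((B : ℝ) + 1) ^ (2 * K) * x) :=
            mul_le_mul_of_nonneg_left hx1 (by positivity)
        _ = c * x := by field_simp
  have h2 : Filter.Tendsto (fun N : ℕ => Real.log (N : ℝ)) Filter.atTop Filter.atTop :=
    Real.tendsto_log_atTop.comp tendsto_natCast_atTop_atTop
  obtain ⟨n0, hn0⟩ := Filter.eventually_atTop.1 (h2.eventually h1)
  exact ⟨n0, fun N hN => hn0 N hN⟩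

/-- Lower bound for the small primes.

Proof. `#R ≤ K` and `#R < q`. For `q ≤ 2 K` the factor is at least `1/q`, the product of these is a constant
`c_K > 0`. For `q > 2 K`: `1 - K/q ≥ exp (-2 K/q)`, and `∑_{q ≤ W} 1/q ≤ log log W + C` (`mertens` in `H59C/MER0.lean`), so
`VaR ≥ c_K' (log W)^(-2K)`, and `log W ≤ (B + 1) log L`, so this is `≥ 1/L` for large `N` (`L = log N`). -/
theorem vaR_low (K B : ℕ) (hK : 1 ≤ K) : ∃ n0 : ℕ, ∀ N : ℕ, n0 ≤ N → ∀ (W p1 : ℕ)
    (R : ℕ → Finset ℕ), W = ⌈Real.log N ^ B⌉₊ → (∀ q ∈ Ps W p1, (R q).card ≤ K) →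
    (∀ q ∈ Ps W p1, (R q).card < q) →
    1 / Real.log N ≤ VaR (Ps W p1) R ∧ VaR (Ps W p1) R ≤ 1 := by
  obtain ⟨C, hC, hmer⟩ := Pool.Agent.Lib.H59C.mertens
  have hK1 : (1 : ℝ) ≤ K := by exact_mod_cast hK
  have hl2 : 0 < Real.log 2 := Real.log_pos (by norm_num)
  set C' : ℝ := C / Real.log 2 - Real.log (Real.log 2) with hC'
  set c : ℝ := (1 / (2 * (K : ℝ))) ^ (2 * K) * Real.exp (-(2 * K * C')) with hc
  have hcpos : 0 < c := by rw [hc]; positivity
  obtain ⟨n0, hn0⟩ := a2_large K B c hcpos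
  refine ⟨n0, fun N hN W p1 R hW hR1 hR2 => ?_⟩
  obtain ⟨hL1, hL2, hL3⟩ := hn0 N hN
  have hL0 : 0 < Real.log N := by linarith
  have hfac : ∀ q ∈ Ps W p1, 0 ≤ 1 - ((R q).card : ℝ) / q := by
    intro q hq
    have hq2 : (2 : ℝ) ≤ q := by exact_mod_cast (a2_Ps hq).two_le
    have h1 : ((R q).card : ℝ) ≤ q := by exact_mod_cast (hR2 q hq).le
    have h2 : ((R q).card : ℝ) / q ≤ 1 := by
      rw [div_le_one (by linarith)]; exact h1
    linarith
  constructor
  · have hW1 : (W : ℝ) + 1 ≤ Real.log N ^ B + 3 := by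
      rw [hW]
      have := (Nat.ceil_lt_add_one (show 0 ≤ Real.log N ^ B by positivity)).le
      linarith
    have hWone : 1 ≤ W := by
      rw [hW]
      exact Nat.one_le_iff_ne_zero.2 (by
        have : 0 < ⌈Real.log N ^ B⌉₊ := Nat.ceil_pos.2 (by positivity)
        omega)
    have hWone' : (1 : ℝ) ≤ W := by exact_mod_cast hWone
    have hsum : ∑ q ∈ Ps W p1, 1 / (q : ℝ) ≤ Real.log (Real.log (W + 1)) + C' := by
      have h1 := hmer 2 (W + 1) le_rfl (by linarith)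
      have h2 : ∑ q ∈ Ps W p1, 1 / (q : ℝ) ≤ ∑ q ∈ Pool.Agent.Lib.H59C.PR 2 (W + 1), 1 / (q : ℝ) := by
        refine Finset.sum_le_sum_of_subset_of_nonneg ?_ fun q _ _ => by positivity
        intro q hq
        rw [Pool.Agent.Lib.H59C.mem_PR]
        unfold Ps at hq
        rw [Finset.mem_filter, Finset.mem_Icc] at hq
        refine ⟨hq.2.1, by exact_mod_cast hq.2.1.two_le, ?_⟩
        have : (q : ℝ) ≤ W := by exact_mod_cast hq.1.2
        linarith
      have h3 := (abs_le.1 h1).2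
      rw [hC']
      linarith
    have hlogW : 0 < Real.log (W + 1) := Real.log_pos (by linarith)
    have hlogW2 : Real.log (W + 1) ≤ (B + 1) * Real.log (Real.log N) := by
      refine le_trans (Real.log_le_log (by linarith) hW1) hL2
    have hcard : ((Ps W p1).filter (fun q => q ≤ 2 * K)).card ≤ 2 * K := by
      calc ((Ps W p1).filter (fun q => q ≤ 2 * K)).card ≤ (Icc 1 (2 * K)).card := by
            refine Finset.card_le_card fun q hq => ?_
            rw [Finset.mem_filter] at hq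
            rw [Finset.mem_Icc]
            exact ⟨(a2_Ps hq.1).one_le, hq.2⟩
        _ = 2 * K := by simp
    have h1 : (1 / (2 * (K : ℝ))) ^ (2 * K) ≤ ∏ q ∈ Ps W p1, (if q ≤ 2 * K then 1 / (2 * (K : ℝ)) else 1) := by
      rw [← Finset.prod_filter, Finset.prod_const]
      refine pow_le_pow_of_le_one (by positivity) ?_ hcard
      rw [div_le_one (by positivity)]
      linarith
    have h2 : Real.exp (-(2 * K * (Real.log (Real.log (W + 1)) + C'))) ≤
        ∏ q ∈ Ps W p1, Real.exp (-(2 * K * (1 / (q : ℝ)))) := by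
      rw [← Real.exp_sum, Real.exp_le_exp, Finset.sum_neg_distrib, ← Finset.mul_sum]
      have := mul_le_mul_of_nonneg_left hsum (show (0 : ℝ) ≤ 2 * K by positivity)
      linarith
    have h3 : Real.exp (-(2 * K * (Real.log (Real.log (W + 1)) + C'))) =
        Real.exp (-(2 * K * C')) * (Real.log (W + 1) ^ (2 * K))⁻¹ := by
      have h4 : -(2 * (K : ℝ) * (Real.log (Real.log (W + 1)) + C')) =
          -(2 * K * C') + -(((2 * K : ℕ) : ℝ) * Real.log (Real.log (W + 1))) := by push_cast; ring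
      rw [h4, Real.exp_add, Real.exp_neg (((2 * K : ℕ) : ℝ) * _), Real.exp_nat_mul, Real.exp_log hlogW]
    have h5 : c * (Real.log (W + 1) ^ (2 * K))⁻¹ ≤ VaR (Ps W p1) R := by
      unfold VaR
      calc c * (Real.log (W + 1) ^ (2 * K))⁻¹ = (1 / (2 * (K : ℝ))) ^ (2 * K) *
            Real.exp (-(2 * K * (Real.log (Real.log (W + 1)) + C'))) := by rw [h3, hc]; ring
        _ ≤ (∏ q ∈ Ps W p1, (if q ≤ 2 * K then 1 / (2 * (K : ℝ)) else 1)) *
            ∏ q ∈ Ps W p1, Real.exp (-(2 * K * (1 / (q : ℝ)))) :=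
            mul_le_mul h1 h2 (Real.exp_pos _).le (le_trans (by positivity) h1)
        _ = ∏ q ∈ Ps W p1, ((if q ≤ 2 * K then 1 / (2 * (K : ℝ)) else 1) *
            Real.exp (-(2 * K * (1 / (q : ℝ))))) := by rw [Finset.prod_mul_distrib]
        _ ≤ ∏ q ∈ Ps W p1, (1 - ((R q).card : ℝ) / q) := by
            refine Finset.prod_le_prod (fun q _ => ?_) fun q hq => ?_
            · refine mul_nonneg ?_ (Real.exp_pos _).le
              split_ifs
              · positivity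
              · norm_num
            · exact a2_fac hK (a2_Ps hq).two_le (hR1 q hq) (hR2 q hq)
    refine le_trans ?_ h5
    have h6 : Real.log (W + 1) ^ (2 * K) ≤ c * Real.log N :=
      le_trans (pow_le_pow_left₀ hlogW.le hlogW2 _) hL3
    have h7 : 0 < Real.log (W + 1) ^ (2 * K) := pow_pos hlogW _
    rw [← div_eq_mul_inv, div_le_div_iff₀ hL0 h7]
    linarith
  · unfold VaR
    refine Finset.prod_le_one hfac fun q hq => ?_
    have : 0 ≤ ((R q).card : ℝ) / q := by positivity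
    linarith

/-- Proof. `vaR_low` with `K + 1`: the classes in `Rb` are those of `-h`, `h ∈ H`, and `N`: at most `K + 1`. -/
theorem va_low (K B : ℕ) (hK : 1 ≤ K) : ∃ n0 : ℕ, ∀ N : ℕ, n0 ≤ N → ∀ (W p1 : ℕ) (H : Finset ℕ),
    W = ⌈Real.log N ^ B⌉₊ → H.card = K → (∀ q : ℕ, q.Prime → (Rb N H q).card < q) →
    1 / Real.log N ≤ Va N W p1 H ∧ Va N W p1 H ≤ 1 := by
  obtain ⟨n0, hn0⟩ := vaR_low (K + 1) B (by omega)
  refine ⟨n0, fun N hN W p1 H hW hH hq => ?_⟩
  rw [Va_eq]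
  refine hn0 N hN W p1 (Rb N H) hW ?_ fun q hq' => hq q (a2_Ps hq')
  intro q hq'
  have hsub : Rb N H q ⊆ insert (N % q) (H.image (fun h => (q - h % q) % q)) := by
    intro c hc
    have hlt := Finset.mem_range.1 (a2_Rb hc)
    unfold Rb at hc
    rw [Finset.mem_filter] at hc
    rw [Finset.mem_insert, Finset.mem_image]
    rcases hc.2 with ⟨h, hh, hd⟩ | hd
    · exact Or.inr ⟨h, hh, ((a2_cls (a2_Ps hq').pos hlt).1 hd).symm⟩
    · exact Or.inl ((a2_mod hlt).1 hd)
  calc (Rb N H q).card ≤ (insert (N % q) (H.image (fun h => (q - h % q) % q))).card := Finset.card_le_card hsub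
    _ ≤ (H.image (fun h => (q - h % q) % q)).card + 1 := Finset.card_insert_le _ _
    _ ≤ H.card + 1 := by have := Finset.card_image_le (s := H) (f := fun h => (q - h % q) % q); omega
    _ = K + 1 := by rw [hH]

/-- Proof. `∏_{q ≤ W} q/(q-1) ≥ log W` (`Sieve.prod_one_sub_inv_le` or `∏ (1 - 1/q)⁻¹ ≥ ∑_{n ≤ W} 1/n`), and the factor at `p1` which is missing is
`p1/(p1 - 1) ≤ 2`. -/
theorem vbR_ge (W p1 : ℕ) (R : ℕ → Finset ℕ) (hW : 2 ≤ W) (hp : p1.Prime)
    (hV : 0 ≤ VaR (Ps W p1) R) :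
    Real.log W / 4 * VaR (Ps W p1) R ≤ VbR (Ps W p1) R ∧
      VaR (Ps W p1) R ≤ VbR (Ps W p1) R := by
  have hW2 : (2 : ℝ) ≤ W := by exact_mod_cast hW
  have hlog : 0 < Real.log W := Real.log_pos (by linarith)
  have hone : ∀ q : ℕ, q.Prime → 1 ≤ (q : ℝ) / ((q : ℝ) - 1) := by
    intro q hq
    have : (2 : ℝ) ≤ q := by exact_mod_cast hq.two_le
    rw [le_div_iff₀ (by linarith)]
    linarith
  have h1 : 1 ≤ ∏ q ∈ Ps W p1, ((q : ℝ) / ((q : ℝ) - 1)) :=
    Finset.one_le_prod fun q hq => hone q (a2_Ps hq)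
  have h2 := Pool.Agent.Lib.Sieve.prod_one_sub_inv_le W hW
  have h3 : ∏ p ∈ Pool.Agent.Lib.Sieve.primesUpTo W, ((p : ℝ) / ((p : ℝ) - 1)) =
      (∏ p ∈ Pool.Agent.Lib.Sieve.primesUpTo W, (1 - 1 / (p : ℝ)))⁻¹ := by
    rw [← Finset.prod_inv_distrib]
    refine Finset.prod_congr rfl fun p hp => ?_
    have : (2 : ℝ) ≤ p := by exact_mod_cast (Pool.Agent.Lib.Sieve.mem_primesUpTo.1 hp).1.two_le
    have h4 : (p : ℝ) ≠ 0 := by linarith
    have h5 : (p : ℝ) - 1 ≠ 0 := by linarith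
    field_simp
  have h4 : 0 < ∏ p ∈ Pool.Agent.Lib.Sieve.primesUpTo W, (1 - 1 / (p : ℝ)) := by
    refine Finset.prod_pos fun p hp => ?_
    have : (2 : ℝ) ≤ p := by exact_mod_cast (Pool.Agent.Lib.Sieve.mem_primesUpTo.1 hp).1.two_le
    have : 1 / (p : ℝ) ≤ 1 / 2 := one_div_le_one_div_of_le (by norm_num) this
    linarith
  have h5 : Real.log W ≤ ∏ p ∈ Pool.Agent.Lib.Sieve.primesUpTo W, ((p : ℝ) / ((p : ℝ) - 1)) := by
    rw [h3, ← one_div, le_div_iff₀ h4]
    calc Real.log W * ∏ p ∈ Pool.Agent.Lib.Sieve.primesUpTo W, (1 - 1 / (p : ℝ)) ≤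
          Real.log W * (1 / Real.log W) := mul_le_mul_of_nonneg_left h2 hlog.le
      _ = 1 := by field_simp
  have h6 : ∏ p ∈ Pool.Agent.Lib.Sieve.primesUpTo W, ((p : ℝ) / ((p : ℝ) - 1)) ≤
      2 * ∏ q ∈ Ps W p1, ((q : ℝ) / ((q : ℝ) - 1)) := by
    have hsub : Pool.Agent.Lib.Sieve.primesUpTo W ⊆ insert p1 (Ps W p1) := by
      intro q hq
      rw [Pool.Agent.Lib.Sieve.mem_primesUpTo] at hq
      rw [Finset.mem_insert]
      by_cases h : q = p1
      · exact Or.inl h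
      · refine Or.inr ?_
        unfold Ps
        rw [Finset.mem_filter, Finset.mem_Icc]
        exact ⟨⟨hq.1.one_le, hq.2⟩, hq.1, h⟩
    have hnot : p1 ∉ Ps W p1 := by
      unfold Ps
      rw [Finset.mem_filter]
      rintro ⟨_, _, h⟩
      exact h rfl
    calc ∏ p ∈ Pool.Agent.Lib.Sieve.primesUpTo W, ((p : ℝ) / ((p : ℝ) - 1)) ≤
          ∏ p ∈ insert p1 (Ps W p1), ((p : ℝ) / ((p : ℝ) - 1)) := by
          refine Finset.prod_le_prod_of_subset_of_one_le hsub (fun q hq => ?_) fun q hq _ => ?_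
          · exact le_trans zero_le_one (hone q (Pool.Agent.Lib.Sieve.mem_primesUpTo.1 hq).1)
          · rw [Finset.mem_insert] at hq
            rcases hq with rfl | hq
            · exact hone _ hp
            · exact hone _ (a2_Ps hq)
      _ = (p1 : ℝ) / ((p1 : ℝ) - 1) * ∏ q ∈ Ps W p1, ((q : ℝ) / ((q : ℝ) - 1)) := Finset.prod_insert hnot
      _ ≤ 2 * ∏ q ∈ Ps W p1, ((q : ℝ) / ((q : ℝ) - 1)) := by
          refine mul_le_mul_of_nonneg_right ?_ (by linarith)
          have : (2 : ℝ) ≤ p1 := by exact_mod_cast hp.two_le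
          rw [div_le_iff₀ (by linarith)]
          linarith
  unfold VbR
  constructor
  · rw [mul_comm]
    refine mul_le_mul_of_nonneg_left ?_ hV
    linarith
  · calc VaR (Ps W p1) R = VaR (Ps W p1) R * 1 := (mul_one _).symm
      _ ≤ _ := mul_le_mul_of_nonneg_left h1 hV

/-- Proof. `vbR_ge`. -/
theorem vb_ge (N W p1 : ℕ) (H : Finset ℕ) (hW : 2 ≤ W) (hp : p1.Prime)
    (hV : 0 ≤ Va N W p1 H) :
    Real.log W / 4 * Va N W p1 H ≤ Vb N W p1 H ∧ Va N W p1 H ≤ Vb N W p1 H := by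
  rw [Va_eq] at hV
  rw [Va_eq, Vb_eq]
  exact vbR_ge W p1 (Rb N H) hW hp hV

end Pool.Agent.Lib.H57C
end

-- from Lib.H57C.SDefs
section

/-!
# Definitions for the weighted sieve
-/

open Finset

namespace Pool.Agent.Lib.H57C

open Pool.Agent.Lib.H57M
open Pool.Agent.Lib.H59C (Sq lg XX gq VV PR zz yy Tri sift)

noncomputable section

variable {K : ℕ} (w : Par K) (H : Finset ℕ) (N p1 h : ℕ)

/-- The primes `t + h`. -/
def Sh (N h : ℕ) : Finset ℕ := Sq (Ya N + h) (Yb N + h)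

/-- The weight of the prime `p = t + h`. -/
def wh (p : ℕ) : ℝ := lg p * Fs w H N p1 (some h) (p - h)

/-- `V(z)` -/
def Vz (N W : ℕ) (H : Finset ℕ) : ℝ := VV (Pg N W H) (zz N)

/-- The bad primes in `(W, N]`: they divide some `N + h`, `h ∈ H`. -/
def Bd (N W : ℕ) (H : Finset ℕ) : Finset ℕ :=
  (Ioc W N).filter (fun q => q.Prime ∧ ∃ h ∈ H, q ∣ N + h)

/-- The primes with weights. -/
def Qc (N W : ℕ) (H : Finset ℕ) : Finset ℕ := (PR (zz N) (yy N)).filter (fun q => q ∈ Pg N W H)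

/-- The first sum. -/
def S1s : ℝ := sift (Sh N h) (wh w H N p1 h) (fun p => Nat.dist (N + h) p) (Pg N w.W H) (zz N)

/-- The second sum. -/
def S2s : ℝ := ∑ q ∈ Qc N w.W H, sift ((Sh N h).filter (fun p => q ∣ Nat.dist (N + h) p))
  (wh w H N p1 h) (fun p => Nat.dist (N + h) p) (Pg N w.W H) (zz N)

open Classical in
/-- The third sum. -/
def S3s : ℝ := ∑ p ∈ (Sh N h).filter (fun p => Tri N (Nat.dist (N + h) p)), wh w H N p1 h p

open Classical in
/-- Exceptional: `p1` divides `N - t`. -/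
def E1s : ℝ := ∑ p ∈ (Sh N h).filter (fun p => p1 ∣ Nat.dist (N + h) p ∧
  ∀ q ∈ Pg N w.W H, (q : ℝ) < zz N → ¬ q ∣ Nat.dist (N + h) p), wh w H N p1 h p

/-- Exceptional: a bad prime divides `N - t`. -/
def E2s : ℝ := ∑ q ∈ Bd N w.W H, ∑ p ∈ (Sh N h).filter (fun p => q ∣ Nat.dist (N + h) p),
  wh w H N p1 h p

open Classical in
/-- Exceptional: squares. -/
def E3s : ℝ := ∑ p ∈ (Sh N h).filter
  (fun p => ∃ q : ℕ, q.Prime ∧ zz N ≤ q ∧ q ^ 2 ∣ Nat.dist (N + h) p), wh w H N p1 h p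

/-- The negative part. -/
def Ns : ℝ := sift (Ioc (Ya N) (Yb N)) (Fs w H N p1 none) (fun t => N - t) (Pg N w.W H) (zz N)

/-- The whole weighted sum. -/
def Tt (g : ℕ) : ℝ :=
  ∑ h ∈ H, (S1s w H N p1 h - 1 / 2 * S2s w H N p1 h - 1 / 2 * S3s w H N p1 h -
    E1s w H N p1 h - E2s w H N p1 h - E3s w H N p1 h) - ((g : ℝ) - 1) * Real.log (2 * N) *
    Ns w H N p1

/-- A prime or a product of two primes, all prime factors `≥ N^(1/10)`. -/
def AP2 (N a : ℕ) : Prop :=
  (∀ q : ℕ, q.Prime → q ∣ a → (N : ℝ) ^ (1 / 10 : ℝ) ≤ q) ∧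
    (a.Prime ∨ ∃ r s : ℕ, r.Prime ∧ s.Prime ∧ a = r * s)

open Classical in
/-- The good `t` in the window. -/
def Gd (H : Finset ℕ) (N g : ℕ) : Finset ℕ :=
  (Ioc (Ya N) (Yb N)).filter (fun t => g ≤ (H.filter (fun h => (t + h).Prime)).card ∧
    AP2 N (N - t))

end

end Pool.Agent.Lib.H57C
end

-- from Lib.H57C.S0
section

/-!
# Chunk S0: windows, `V(z)` and the size of the main term
-/

open Finset

namespace Pool.Agent.Lib.H57C

open Pool.Agent.Lib.H57M
open Pool.Agent.Lib.H59C (Sq lg XX gq VV PR zz yy Tri sift Win)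

/-- The window of project H59C. Proof. `Ya N = 7N/20`, `Yb N = 9N/20`: `16 (Yb - Ya) ≥ 16 (N/10 - 1) ≥ N`; `N + h - (Yb + h) = N - Yb ≥ 11N/20`;
`h ≤ N/100` for large `N` is a hypothesis. -/
theorem win_h (N h : ℕ) (hN : 1000 ≤ N) (hh : 100 * h ≤ N) (he : 2 ∣ N + h) :
    Win N (N + h) (Ya N + h) (Yb N + h) ∧ Yb N + h < N + h := by
  unfold Ya Yb
  refine ⟨⟨by omega, he, by omega, by omega, by omega, by omega, by omega, Or.inl ⟨by omega, by omega⟩⟩, by omega⟩

/-- `N + h` is not a multiple of a prime `p ∈ (Ya + h, Yb + h]`: `(N + h)/p` is between `2` and `3`. -/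
theorem not_dvd_h (N h p : ℕ) (hN : 1000 ≤ N) (hh : 100 * h ≤ N) (hp : p ∈ Sh N h) :
    ¬ p ∣ N + h := by
  unfold Sh Sq Ya Yb at hp
  rw [Finset.mem_filter, Finset.mem_Ioc] at hp
  obtain ⟨⟨h1, h2⟩, _⟩ := hp
  rintro ⟨k, hk⟩
  rcases Nat.lt_or_ge k 3 with h3 | h3
  · have h4 : p * k ≤ p * 2 := Nat.mul_le_mul_left p (by omega)
    omega
  · have h4 : p * 3 ≤ p * k := Nat.mul_le_mul_left p h3
    omega

/-- Proof. `Pg` consists of primes `> W ≥ 2`, `VV` of a subset of the odd primes is at least the one of all odd primes in `[3, z)`: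
`VV_lower` with its `N = 1` (`c/log N ≤ VV`), and `VV ≤ 1`. -/
theorem vz_low : ∃ c : ℝ, 0 < c ∧ ∃ n0 : ℕ, ∀ N : ℕ, n0 ≤ N → ∀ (W : ℕ) (H : Finset ℕ), 2 ≤ W →
    c / Real.log N ≤ Vz N W H ∧ Vz N W H ≤ 1 := by
  obtain ⟨c, hc, n0, hn0⟩ := Pool.Agent.Lib.H59C.VV_lower
  refine ⟨c, hc, max n0 1, fun N hN W H hW => ?_⟩
  have hN1 : 1 ≤ N := le_trans (le_max_right _ _) hN
  have hN1' : (1 : ℝ) ≤ N := by exact_mod_cast hN1
  have hP : ∀ q ∈ Pg N W H, q.Prime ∧ 3 ≤ q := by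
    intro q hq
    unfold Pg at hq
    rw [Finset.mem_filter, Finset.mem_Ioc] at hq
    exact ⟨hq.2.1, by omega⟩
  constructor
  · have h1 := hn0 N (le_trans (le_max_left _ _) hN) (Pg N W H) 1 (zz N) one_pos (Nat.one_le_pow _ _ hN1)
      (by
        unfold zz
        exact Real.rpow_le_rpow_of_exponent_le hN1' (by norm_num))
      (by
        unfold zz
        calc (N : ℝ) ^ (1 / 8 : ℝ) ≤ (N : ℝ) ^ (1 : ℝ) := Real.rpow_le_rpow_of_exponent_le hN1' (by norm_num)
          _ = N := Real.rpow_one _)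
      (fun q hq => ⟨(hP q hq).1, (hP q hq).2, fun h => (hP q hq).1.one_lt.ne' (Nat.dvd_one.1 h)⟩)
    have h2 : (∏ q ∈ (1 : ℕ).primeFactors.filter (fun q => 2 < q), (((q : ℝ) - 1) / (q - 2))) = 1 := by
      rw [Nat.primeFactors_one]
      simp
    rw [h2, mul_one] at h1
    exact h1
  · unfold Vz VV Pool.Agent.Lib.H59C.VP
    have h1 : ∀ q ∈ (Pg N W H).filter (fun q : ℕ => (q : ℝ) < zz N), 0 ≤ gq q ∧ gq q ≤ 1 := by
      intro q hq
      have hq3 : (3 : ℝ) ≤ q := by exact_mod_cast (hP q (Finset.mem_filter.1 hq).1).2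
      unfold gq
      constructor
      · exact div_nonneg zero_le_one (by linarith)
      · rw [div_le_one (by linarith)]
        linarith
    refine Finset.prod_le_one (fun q hq => ?_) fun q hq => ?_
    · linarith [(h1 q hq).2]
    · linarith [(h1 q hq).1]

theorem s0_large (B : ℕ) (c : ℝ) (hc : 0 < c) : ∃ n0 : ℕ, ∀ N : ℕ, n0 ≤ N →
    1000 ≤ N ∧ 1 ≤ Real.log N ∧ 1 ≤ c * Real.log N ∧ 100 * (Real.log N ^ B + 1) ≤ (N : ℝ) := by
  have h1 : ∀ᶠ x : ℝ in Filter.atTop, 1 ≤ Real.log x ∧ 1 ≤ c * Real.log x ∧ 100 * (Real.log x ^ B + 1) ≤ x := by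
    have e1 := (Real.isLittleO_pow_log_id_atTop (n := B)).def (show (0 : ℝ) < 1 / 200 by norm_num)
    filter_upwards [e1, Filter.eventually_ge_atTop (200 : ℝ),
      Real.tendsto_log_atTop.eventually_ge_atTop 1, Real.tendsto_log_atTop.eventually_ge_atTop (1 / c)] with x hx1 hx2 hx3 hx4
    refine ⟨hx3, ?_, ?_⟩
    · rw [div_le_iff₀ hc] at hx4
      linarith
    · rw [Real.norm_eq_abs, Real.norm_eq_abs, abs_of_nonneg (pow_nonneg (by linarith) _), id, abs_of_nonneg (by linarith)] at hx1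
      linarith
  obtain ⟨n0, hn0⟩ := Filter.eventually_atTop.1
    ((tendsto_natCast_atTop_atTop (R := ℝ)).eventually h1)
  exact ⟨max n0 1000, fun N hN => ⟨le_trans (le_max_right _ _) hN, hn0 N (le_trans (le_max_left _ _) hN)⟩⟩

/-- Proof. `Xh = XX AE Vb`, `XX ≥ N/20` (`XX_bounds` with `win_h`), `AE ≥ 36/100` (`aes`, `c ≥ 0`), `Vb ≥ Va ≥ 1/L` (`vb_ge`, `va_low`), `Vz ≥ c/L`:
`Xh Vz ≥ c' N/L^2 ≥ N/L^3` for large `N`. -/
theorem main_low (K B cF : ℕ) (hK : 1 ≤ K) (θ G : ℝ) : ∃ n0 : ℕ, ∀ N : ℕ, n0 ≤ N →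
    ∀ (w : Par K) (H : Finset ℕ) (p1 : ℕ), Reg B cF θ G w H N p1 → ∀ h ∈ H,
    N / Real.log N ^ 3 ≤ Xh w H N p1 h * Vz N w.W H ∧ 0 ≤ Xh w H N p1 h ∧
    (N : ℝ) / 20 ≤ XX (Ya N + h) (Yb N + h) ∧ XX (Ya N + h) (Yb N + h) ≤ N / 5 := by
  obtain ⟨c, hc, n1, hn1⟩ := vz_low
  obtain ⟨n2, hn2⟩ := va_low K B hK
  obtain ⟨n3, hn3⟩ := Pool.Agent.Lib.H59C.XX_bounds (1 / 10) (by norm_num)
  obtain ⟨n4, hn4⟩ := s0_large B (18 / 1000 * c) (by positivity)
  refine ⟨max (max n1 n2) (max n3 n4), fun N hN w H p1 hR h hh => ?_⟩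
  have hN1 : n1 ≤ N := le_trans (le_trans (le_max_left _ _) (le_max_left _ _)) hN
  have hN2 : n2 ≤ N := le_trans (le_trans (le_max_right _ _) (le_max_left _ _)) hN
  have hN3 : n3 ≤ N := le_trans (le_trans (le_max_left _ _) (le_max_right _ _)) hN
  have hN4 : n4 ≤ N := le_trans (le_trans (le_max_right _ _) (le_max_right _ _)) hN
  obtain ⟨g1, g2, g3, g4⟩ := hn4 N hN4
  have hNr : (1000 : ℝ) ≤ N := by exact_mod_cast g1
  have hL0 : 0 < Real.log N := by linarith
  have hW4 : 4 ≤ w.W := by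
    have := w.KW
    have h1 := w.Kpos
    nlinarith
  have hhW : h ≤ w.W := hR.HW h hh
  have hh100 : 100 * h ≤ N := by
    have h1 : (w.W : ℝ) ≤ Real.log N ^ B + 1 := by
      rw [hR.Wdef]
      exact (Nat.ceil_lt_add_one (by positivity)).le
    have h2 : (h : ℝ) ≤ w.W := by exact_mod_cast hhW
    have h3 : (100 * h : ℝ) ≤ N := by linarith
    exact_mod_cast h3
  obtain ⟨hwin, _⟩ := win_h N h g1 hh100 (hR.even h hh)
  obtain ⟨x1, x2⟩ := hn3 N hN3 _ _ _ hwin
  have hdl : (N : ℝ) / 10 - 1 ≤ ((Yb N + h : ℕ) : ℝ) - ((Ya N + h : ℕ) : ℝ) := by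
    have : N ≤ 10 * (Yb N + h) - 10 * (Ya N + h) + 10 := by unfold Ya Yb; omega
    have h2 : 10 * (Ya N + h) ≤ 10 * (Yb N + h) := by unfold Ya Yb; omega
    have h3 : N + 10 * (Ya N + h) ≤ 10 * (Yb N + h) + 10 := by omega
    have h4 : (N : ℝ) + 10 * ((Ya N + h : ℕ) : ℝ) ≤ 10 * ((Yb N + h : ℕ) : ℝ) + 10 := by exact_mod_cast h3
    linarith
  have hdu : ((Yb N + h : ℕ) : ℝ) - ((Ya N + h : ℕ) : ℝ) ≤ (N : ℝ) / 10 + 1 := by
    have h3 : 10 * (Yb N + h) ≤ N + 10 * (Ya N + h) + 10 := by unfold Ya Yb; omega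
    have h4 : 10 * ((Yb N + h : ℕ) : ℝ) ≤ (N : ℝ) + 10 * ((Ya N + h : ℕ) : ℝ) + 10 := by exact_mod_cast h3
    linarith
  have hX1 : (N : ℝ) / 20 ≤ XX (Ya N + h) (Yb N + h) := by
    refine le_trans ?_ x1
    nlinarith
  have hX2 : XX (Ya N + h) (Yb N + h) ≤ N / 5 := by
    refine le_trans x2 ?_
    nlinarith
  have hAE : 36 / 100 ≤ AE w.P H (some h) (FC w H) := by
    refine le_trans ?_ (hR.aes h hh)
    have h1 : 0 ≤ (w.n : ℝ) * w.c := mul_nonneg (Nat.cast_nonneg _) w.c0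
    nlinarith
  obtain ⟨v1, _⟩ := hn2 N hN2 w.W p1 H hR.Wdef hR.cardH hR.nf
  have hva0 : 0 ≤ Va N w.W p1 H := le_trans (by positivity) v1
  have hvb : 1 / Real.log N ≤ Vb N w.W p1 H := le_trans v1 (vb_ge N w.W p1 H (by omega) hR.p1p hva0).2
  obtain ⟨z1, _⟩ := hn1 N hN1 w.W H (by omega)
  have hXh : (N : ℝ) / 20 * (36 / 100 * (1 / Real.log N)) ≤ Xh w H N p1 h := by
    unfold Xh
    refine mul_le_mul hX1 (mul_le_mul hAE hvb (by positivity) (by linarith)) (by positivity) (by linarith)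
  have hXh0 : 0 ≤ Xh w H N p1 h := le_trans (by positivity) hXh
  refine ⟨?_, hXh0, hX1, hX2⟩
  calc (N : ℝ) / Real.log N ^ 3 = N / Real.log N ^ 3 * 1 := (mul_one _).symm
    _ ≤ N / Real.log N ^ 3 * (18 / 1000 * c * Real.log N) := mul_le_mul_of_nonneg_left g3 (by positivity)
    _ = (N : ℝ) / 20 * (36 / 100 * (1 / Real.log N)) * (c / Real.log N) := by
        field_simp
        ring
    _ ≤ Xh w H N p1 h * Vz N w.W H := mul_le_mul hXh z1 (by positivity) hXh0

end Pool.Agent.Lib.H57C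
end

-- from Lib.H57C.MDefs
section

/-!
# Definitions for the transfer theorem
-/

open Finset

namespace Pool.Agent.Lib.H57C

open Pool.Agent.Lib.H15P Pool.Agent.Lib.H92G Pool.Agent.Lib.H57M

/-- Families of sets of primes. -/
abbrev Fam (P H : Finset ℕ) : Type := {h // h ∈ H} → Finset {p // p ∈ P}

/-- `U_i = ∅`, and the sets are pairwise disjoint. -/
def okA (P H : Finset ℕ) (i : Option ℕ) (U : Fam P H) : Prop :=
  (∀ h : {h // h ∈ H}, i = some h.1 → U h = ∅) ∧ ∀ h h', h ≠ h' → Disjoint (U h) (U h')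

/-- The primes in the `U_h` do not divide `d`, and their classes `-h` are allowed. -/
def okB (P H : Finset ℕ) (Al : ℕ → ℕ → Prop) (d : ℕ) (U : Fam P H) : Prop :=
  (∀ h, ∀ p ∈ U h, ¬ p.1 ∣ d) ∧ ∀ h, ∀ p ∈ U h, ∀ c : ℕ, p.1 ∣ c + h.1 → Al p.1 c

/-- The product of all primes in the `U_h`. -/
def fp {P H : Finset ℕ} (U : Fam P H) : ℕ := ∏ h, ∏ p ∈ U h, p.1

/-- `∏_h ∏_{p ∈ U_h} f p` -/
noncomputable def fpr {P H : Finset ℕ} (f : ℕ → ℝ) (U : Fam P H) : ℝ := ∏ h, ∏ p ∈ U h, f p.1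

/-- The reference densities: `1/p`, resp. `1/(p-1)` if a form is prime. -/
noncomputable def hdr (i : Option ℕ) (p : ℕ) : ℝ := if i = none then 1 / (p : ℝ) else 1 / ((p : ℝ) - 1)

open Classical in
/-- The main term for the modulus `d`. -/
noncomputable def Am (P H : Finset ℕ) (i : Option ℕ) (Al : ℕ → ℕ → Prop) (hd : ℕ → ℝ) (d : ℕ)
    (c : Fam P H → ℝ) : ℝ :=
  ∑ U : Fam P H, if okA P H i U ∧ okB P H Al d U then c U * fpr hd U else 0

end Pool.Agent.Lib.H57C
end

-- from Lib.H57C.M0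
section

/-!
# Chunk M0: sums over residue classes
-/

open Finset

namespace Pool.Agent.Lib.H57C

/-- The Chinese remainder theorem for a product of pairwise coprime numbers. -/
theorem M0_crt (s : Finset ℕ) (hs : ∀ q ∈ s, q.Prime) (A : ℕ → Finset ℕ)
    (hA : ∀ q ∈ s, A q ⊆ range q) :
    ((range (∏ q ∈ s, q)).filter (fun c => ∀ q ∈ s, c % q ∈ A q)).card = ∏ q ∈ s, (A q).card := by
  classical
  induction s using Finset.induction_on with
  | empty => simp
  | insert a s ha ih =>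
    have hpa : a.Prime := hs a (Finset.mem_insert_self a s)
    have hs' : ∀ q ∈ s, q.Prime := fun q hq => hs q (Finset.mem_insert_of_mem hq)
    have hA' : ∀ q ∈ s, A q ⊆ range q := fun q hq => hA q (Finset.mem_insert_of_mem hq)
    have ih' := ih hs' hA'
    rw [Finset.prod_insert ha, Finset.prod_insert ha, ← ih', ← Finset.card_product]
    set M := ∏ q ∈ s, q with hM
    have hcop : Nat.Coprime a M := by
      rw [hM]
      refine Nat.Coprime.prod_right fun q hq => ?_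
      rw [Nat.coprime_primes hpa (hs' q hq)]
      rintro rfl
      exact ha hq
    have hMpos : 0 < M := Finset.prod_pos fun q hq => (hs' q hq).pos
    refine Finset.card_bij (fun c _ => (c % a, c % M)) ?_ ?_ ?_
    · intro c hc
      rw [Finset.mem_filter] at hc
      rw [Finset.mem_product]
      refine ⟨hc.2 a (Finset.mem_insert_self a s), ?_⟩
      rw [Finset.mem_filter]
      refine ⟨Finset.mem_range.2 (Nat.mod_lt _ hMpos), fun q hq => ?_⟩
      rw [Nat.mod_mod_of_dvd c (Finset.dvd_prod_of_mem (fun q => q) hq)]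
      exact hc.2 q (Finset.mem_insert_of_mem hq)
    · intro c hc d hd h
      rw [Finset.mem_filter, Finset.mem_range] at hc hd
      have h1 : c ≡ d [MOD a] := (Prod.ext_iff.1 h).1
      have h2 : c ≡ d [MOD M] := (Prod.ext_iff.1 h).2
      have h3 : c ≡ d [MOD a * M] := (Nat.modEq_and_modEq_iff_modEq_mul hcop).1 ⟨h1, h2⟩
      exact Nat.ModEq.eq_of_lt_of_lt h3 hc.1 hd.1
    · rintro ⟨x, y⟩ hxy
      rw [Finset.mem_product, Finset.mem_filter, Finset.mem_range] at hxy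
      obtain ⟨hx, hy, hy2⟩ := hxy
      dsimp only at hx hy hy2
      have hxa : x < a := Finset.mem_range.1 (hA a (Finset.mem_insert_self a s) hx)
      obtain ⟨k, hk1, hk2⟩ := Nat.chineseRemainder hcop x y
      have hk1' : k % (a * M) % a = x := by
        rw [Nat.mod_mod_of_dvd k (Dvd.intro _ rfl)]
        have := hk1
        unfold Nat.ModEq at this
        rw [this, Nat.mod_eq_of_lt hxa]
      have hk2' : k % (a * M) % M = y := by
        rw [Nat.mod_mod_of_dvd k (Dvd.intro_left _ rfl)]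
        have := hk2
        unfold Nat.ModEq at this
        rw [this, Nat.mod_eq_of_lt hy]
      refine ⟨k % (a * M), ?_, Prod.ext hk1' hk2'⟩
      rw [Finset.mem_filter, Finset.mem_range]
      refine ⟨Nat.mod_lt _ (Nat.mul_pos hpa.pos hMpos), fun q hq => ?_⟩
      rw [Finset.mem_insert] at hq
      rcases hq with rfl | hq
      · rw [hk1']; exact hx
      · have h4 := hy2 q hq
        rw [← hk2', Nat.mod_mod_of_dvd _ (Finset.dvd_prod_of_mem (fun q => q) hq)] at h4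
        exact h4

/-- Chinese remainder theorem, counting form. Induction over the prime factors, or a bijection with
`Fintype.piFinset`/`Finset.pi` (`ZMod.equivPi`, `Nat.chineseRemainderOfFinset`). -/
theorem crt_card (m : ℕ) (hm : Squarefree m) (A : ℕ → Finset ℕ)
    (hA : ∀ q ∈ m.primeFactors, A q ⊆ range q) :
    ((range m).filter (fun c => ∀ q ∈ m.primeFactors, c % q ∈ A q)).card =
      ∏ q ∈ m.primeFactors, (A q).card := by
  have h := M0_crt m.primeFactors (fun q hq => Nat.prime_of_mem_primeFactors hq) A hA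
  rw [Nat.prod_primeFactors_of_squarefree hm] at h
  exact h

/-- Proof. `x j % q ∈ A q` for all `q ∣ m` iff `x j % m` is in the set `C` of `crt_card` (`Nat.mod_mod_of_dvd`); so the sum is
`∑_{c ∈ C} ∑_{x j ≡ c [MOD m]} wt j`, every `c ∈ C` satisfies `Al q c` for all `q ∣ m` (`al`: `c ≡ c % q [MOD q]`), use the bound of
`Lvl` for every `c ∈ C` and `crt_card`. -/
theorem class_sum {ι : Type} (s : Seq ι)
    (al : ∀ q c c' : ℕ, c ≡ c' [MOD q] → (s.Al q c ↔ s.Al q c')) (m : ℕ) (hm : Squarefree m)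
    (B : ℝ) (hB : ∀ c : ℕ, (∀ q ∈ m.primeFactors, s.Al q c) →
      |∑ i ∈ s.S.filter (fun i => s.x i ≡ c [MOD m]), s.wt i -
        s.X * ∏ q ∈ m.primeFactors, s.hd q| ≤ B)
    (A : ℕ → Finset ℕ) (hA : ∀ q ∈ m.primeFactors, A q ⊆ range q)
    (hAl : ∀ q ∈ m.primeFactors, ∀ c ∈ A q, s.Al q c) :
    |∑ i ∈ s.S.filter (fun i => ∀ q ∈ m.primeFactors, s.x i % q ∈ A q), s.wt i -
        s.X * ∏ q ∈ m.primeFactors, (((A q).card : ℝ) * s.hd q)| ≤
      (∏ q ∈ m.primeFactors, ((A q).card : ℝ)) * B := by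
  classical
  have hm0 : 0 < m := Nat.pos_of_ne_zero hm.ne_zero
  set C := (range m).filter (fun c => ∀ q ∈ m.primeFactors, c % q ∈ A q) with hC
  have hCc : (C.card : ℝ) = ∏ q ∈ m.primeFactors, ((A q).card : ℝ) := by
    rw [hC, crt_card m hm A hA]; push_cast; rfl
  have hsum : ∑ i ∈ s.S.filter (fun i => ∀ q ∈ m.primeFactors, s.x i % q ∈ A q), s.wt i =
      ∑ c ∈ C, ∑ i ∈ s.S.filter (fun i => s.x i ≡ c [MOD m]), s.wt i := by
    rw [← Finset.sum_fiberwise_of_maps_to (s := s.S.filter (fun i => ∀ q ∈ m.primeFactors, s.x i % q ∈ A q))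
      (t := C) (g := fun i => s.x i % m)]
    · refine Finset.sum_congr rfl fun c hc => Finset.sum_congr ?_ fun _ _ => rfl
      rw [hC, Finset.mem_filter, Finset.mem_range] at hc
      ext i
      simp only [Finset.mem_filter]
      constructor
      · rintro ⟨⟨h1, _⟩, h3⟩
        refine ⟨h1, ?_⟩
        unfold Nat.ModEq
        rw [h3, Nat.mod_eq_of_lt hc.1]
      · rintro ⟨h1, h2⟩
        unfold Nat.ModEq at h2
        rw [Nat.mod_eq_of_lt hc.1] at h2
        refine ⟨⟨h1, fun q hq => ?_⟩, h2⟩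
        have h3 := hc.2 q hq
        rw [← h2, Nat.mod_mod_of_dvd _ (Nat.dvd_of_mem_primeFactors hq)] at h3
        exact h3
    · intro i hi
      rw [Finset.mem_filter] at hi
      rw [hC, Finset.mem_filter, Finset.mem_range]
      refine ⟨Nat.mod_lt _ hm0, fun q hq => ?_⟩
      rw [Nat.mod_mod_of_dvd _ (Nat.dvd_of_mem_primeFactors hq)]
      exact hi.2 q hq
  have hX : s.X * ∏ q ∈ m.primeFactors, (((A q).card : ℝ) * s.hd q) =
      ∑ _c ∈ C, s.X * ∏ q ∈ m.primeFactors, s.hd q := by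
    rw [Finset.sum_const, nsmul_eq_mul, hCc, Finset.prod_mul_distrib]; ring
  rw [hsum, hX, ← Finset.sum_sub_distrib, ← hCc]
  calc |∑ c ∈ C, (∑ i ∈ s.S.filter (fun i => s.x i ≡ c [MOD m]), s.wt i - s.X * ∏ q ∈ m.primeFactors, s.hd q)|
      ≤ ∑ c ∈ C, |∑ i ∈ s.S.filter (fun i => s.x i ≡ c [MOD m]), s.wt i - s.X * ∏ q ∈ m.primeFactors, s.hd q| :=
        Finset.abs_sum_le_sum_abs _ _
    _ ≤ ∑ _c ∈ C, B := by
        refine Finset.sum_le_sum fun c hc => hB c fun q hq => ?_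
        rw [hC, Finset.mem_filter] at hc
        refine (al q c (c % q) ?_).2 (hAl q hq _ (hc.2 q hq))
        exact (Nat.mod_modEq c q).symm
    _ = (C.card : ℝ) * B := by rw [Finset.sum_const, nsmul_eq_mul]

end Pool.Agent.Lib.H57C
end

-- from Lib.H57C.M2
section

/-!
# Chunk M2: the sum of the remainder terms
-/

open Finset

namespace Pool.Agent.Lib.H57C

/-- Colourings of a finite set. -/
theorem m2_col {X τ : Type} [Fintype X] (S : Finset ℕ) (T : Finset τ) (c : τ → ℕ → X) (w : X → ℝ)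
    (hw : ∀ x, 0 ≤ w x)
    (inj : ∀ t ∈ T, ∀ t' ∈ T, (∀ q ∈ S, c t q = c t' q) → t = t') :
    ∑ t ∈ T, ∏ q ∈ S, w (c t q) ≤ (∑ x, w x) ^ S.card := by
  classical
  have h1 : (∑ x, w x) ^ S.card = ∑ f : {q // q ∈ S} → X, ∏ q, w (f q) := by
    have h := Finset.prod_univ_sum (ι := {q // q ∈ S}) (κ := fun _ => X) (R := ℝ)
      (fun _ => (Finset.univ : Finset X)) (fun _ x => w x)
    rw [Fintype.piFinset_univ] at h
    rw [← h]
    simp
  rw [h1]
  let Φ : τ → ({q // q ∈ S} → X) := fun t q => c t q.1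
  have h2 : ∀ t, ∏ q ∈ S, w (c t q) = ∏ q, w (Φ t q) := fun t => by
    rw [← Finset.prod_coe_sort]
  have hinj : Set.InjOn Φ T := by
    intro t ht t' ht' h
    refine inj t (by simpa using ht) t' (by simpa using ht') fun q hq => ?_
    exact congrFun h ⟨q, hq⟩
  calc ∑ t ∈ T, ∏ q ∈ S, w (c t q) = ∑ t ∈ T, ∏ q, w (Φ t q) := Finset.sum_congr rfl fun t _ => h2 t
    _ = ∑ f ∈ T.image Φ, ∏ q, w (f q) := by
        rw [Finset.sum_image (f := fun f : {q // q ∈ S} → X => ∏ q, w (f q)) hinj]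
    _ ≤ ∑ f : {q // q ∈ S} → X, ∏ q, w (f q) :=
        Finset.sum_le_sum_of_subset_of_nonneg (Finset.subset_univ _)
          fun f _ _ => Finset.prod_nonneg fun q _ => hw _

/-- The primes of the family, as a set. -/
noncomputable def m2_UU {P H : Finset ℕ} (U : Fam P H) : Finset ℕ :=
  Finset.univ.biUnion (fun h => (U h).map (Function.Embedding.subtype _))

theorem m2_mem_UU {P H : Finset ℕ} (U : Fam P H) (q : ℕ) :
    q ∈ m2_UU U ↔ ∃ h, ∃ hq : q ∈ P, (⟨q, hq⟩ : {p // p ∈ P}) ∈ U h := by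
  unfold m2_UU
  simp only [Finset.mem_biUnion, Finset.mem_univ, true_and, Finset.mem_map,
    Function.Embedding.coe_subtype, Subtype.exists, exists_and_right, exists_eq_right]

theorem m2_prod_UU {P H : Finset ℕ} {M : Type} [CommMonoid M] (U : Fam P H)
    (hd : ∀ h h', h ≠ h' → Disjoint (U h) (U h')) (f : ℕ → M) :
    ∏ q ∈ m2_UU U, f q = ∏ h, ∏ p ∈ U h, f p.1 := by
  unfold m2_UU
  rw [Finset.prod_biUnion]
  · refine Finset.prod_congr rfl fun h _ => ?_
    rw [Finset.prod_map]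
    rfl
  · intro h _ h' _ hne
    rw [Function.onFun, Finset.disjoint_map]
    exact hd h h' hne

theorem m2_fp {P H : Finset ℕ} (U : Fam P H)
    (hd : ∀ h h', h ≠ h' → Disjoint (U h) (U h')) : fp U = ∏ q ∈ m2_UU U, q := by
  rw [m2_prod_UU U hd (fun q => q)]
  rfl

theorem m2_sqf (s : Finset ℕ) (hs : ∀ p ∈ s, p.Prime) : Squarefree (∏ p ∈ s, p) := by
  refine Finset.squarefree_prod_of_pairwise_isCoprime (fun p hp q hq hpq ↦ ?_)
    fun p hp ↦ (hs p hp).squarefree
  simp only [← Nat.coprime_iff_isRelPrime]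
  exact (Nat.coprime_primes (hs p (by simpa using hp)) (hs q (by simpa using hq))).mpr hpq

open Classical in
/-- The colour of `q`. -/
noncomputable def m2_c {P H : Finset ℕ} (t : ℕ × Finset ℕ × Fam P H) (q : ℕ) :
    Option (Option {h // h ∈ H}) :=
  if q ∈ t.2.1 then none else if h : ∃ h, ∃ hq : q ∈ P, (⟨q, hq⟩ : {p // p ∈ P}) ∈ t.2.2 h then
    some (some h.choose) else some none

/-- The weight of a colour. -/
noncomputable def m2_w (H : Finset ℕ) (k E : ℕ) : Option (Option {h // h ∈ H}) → ℝ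
  | none => k
  | some none => k
  | some (some _) => E

theorem m2_w_sum (H : Finset ℕ) (k E K : ℕ) (hK : H.card = K) :
    ∑ x, m2_w H k E x = ((K * E + 2 * k : ℕ) : ℝ) := by
  rw [Fintype.sum_option, Fintype.sum_option]
  simp only [m2_w]
  simp [hK]
  ring

/-- The conditions on a triple. -/
structure m2_ok {P H : Finset ℕ} (W p1 : ℕ) (P' : Finset ℕ) (t : ℕ × Finset ℕ × Fam P H) : Prop where
  sq : Squarefree t.1
  dP : ∀ q ∈ t.1.primeFactors, q ∈ P'
  V : t.2.1 ⊆ Ps W p1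
  dis : ∀ h h', h ≠ h' → Disjoint (t.2.2 h) (t.2.2 h')
  cop : ∀ h, ∀ p ∈ t.2.2 h, ¬ p.1 ∣ t.1

section

variable {P H : Finset ℕ} {W p1 : ℕ} {P' : Finset ℕ}

/-- The product of a triple. -/
noncomputable def m2_m (t : ℕ × Finset ℕ × Fam P H) : ℕ := fp t.2.2 * (∏ q ∈ t.2.1, q) * t.1

theorem m2_VU (hP : ∀ p ∈ P, p.Prime ∧ W < p) {t : ℕ × Finset ℕ × Fam P H} (h : m2_ok W p1 P' t) :
    Disjoint (m2_UU t.2.2) t.2.1 := by
  rw [Finset.disjoint_left]
  intro q hq hV
  obtain ⟨h', hqP, -⟩ := (m2_mem_UU _ _).1 hq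
  have h1 := (hP q hqP).2
  have h2 := h.V hV
  simp only [Ps, Finset.mem_filter, Finset.mem_Icc] at h2
  omega

theorem m2_UVd (hP : ∀ p ∈ P, p.Prime ∧ W < p) (hP' : ∀ q ∈ P', q.Prime ∧ W < q)
    {t : ℕ × Finset ℕ × Fam P H} (h : m2_ok W p1 P' t) :
    Disjoint (m2_UU t.2.2 ∪ t.2.1) t.1.primeFactors := by
  rw [Finset.disjoint_left]
  intro q hq hd
  rcases Finset.mem_union.1 hq with hq | hV
  · obtain ⟨h', hqP, hq'⟩ := (m2_mem_UU _ _).1 hq
    exact h.cop h' _ hq' (Nat.dvd_of_mem_primeFactors hd)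
  · have h1 := (hP' q (h.dP q hd)).2
    have h2 := h.V hV
    simp only [Ps, Finset.mem_filter, Finset.mem_Icc] at h2
    omega

theorem m2_m_eq (hP : ∀ p ∈ P, p.Prime ∧ W < p) (hP' : ∀ q ∈ P', q.Prime ∧ W < q)
    {t : ℕ × Finset ℕ × Fam P H} (h : m2_ok W p1 P' t) :
    m2_m t = ∏ q ∈ m2_UU t.2.2 ∪ t.2.1 ∪ t.1.primeFactors, q := by
  rw [Finset.prod_union (m2_UVd hP hP' h), Finset.prod_union (m2_VU hP h),
    Nat.prod_primeFactors_of_squarefree h.sq, m2_m, m2_fp _ h.dis]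

theorem m2_pr (hP : ∀ p ∈ P, p.Prime ∧ W < p)
    {t : ℕ × Finset ℕ × Fam P H} (h : m2_ok W p1 P' t) :
    ∀ q ∈ m2_UU t.2.2 ∪ t.2.1 ∪ t.1.primeFactors, q.Prime := by
  intro q hq
  rcases Finset.mem_union.1 hq with hq | hq
  · rcases Finset.mem_union.1 hq with hq | hq
    · obtain ⟨h', hqP, hq'⟩ := (m2_mem_UU _ _).1 hq
      exact (hP q hqP).1
    · have h2 := h.V hq
      simp only [Ps, Finset.mem_filter, Finset.mem_Icc] at h2
      exact h2.2.1
  · exact Nat.prime_of_mem_primeFactors hq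

theorem m2_pf (hP : ∀ p ∈ P, p.Prime ∧ W < p) (hP' : ∀ q ∈ P', q.Prime ∧ W < q)
    {t : ℕ × Finset ℕ × Fam P H} (h : m2_ok W p1 P' t) :
    (m2_m t).primeFactors = m2_UU t.2.2 ∪ t.2.1 ∪ t.1.primeFactors := by
  rw [m2_m_eq hP hP' h, Nat.primeFactors_prod (m2_pr hP h)]

theorem m2_p1 (hP : ∀ p ∈ P, p.Prime ∧ W < p) (hP' : ∀ q ∈ P', q.Prime ∧ W < q)
    (hp1 : p1.Prime) (hp1W : p1 ≤ W)
    {t : ℕ × Finset ℕ × Fam P H} (h : m2_ok W p1 P' t) : Squarefree (m2_m t) ∧ ¬ p1 ∣ m2_m t := by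
  have h0 : Squarefree (m2_m t) := by
    rw [m2_m_eq hP hP' h]
    exact m2_sqf _ (m2_pr hP h)
  refine ⟨h0, fun h1 => ?_⟩
  have h2 : p1 ∈ (m2_m t).primeFactors := Nat.mem_primeFactors.2 ⟨hp1, h1, h0.ne_zero⟩
  rw [m2_pf hP hP' h] at h2
  rcases Finset.mem_union.1 h2 with hq | hq
  · rcases Finset.mem_union.1 hq with hq | hq
    · obtain ⟨h', hqP, hq'⟩ := (m2_mem_UU _ _).1 hq
      have := (hP p1 hqP).2
      omega
    · have h2 := h.V hq
      simp only [Ps, Finset.mem_filter, Finset.mem_Icc] at h2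
      exact h2.2.2 rfl
  · have := (hP' p1 (h.dP p1 hq)).2
    omega

theorem m2_cV (t : ℕ × Finset ℕ × Fam P H) {q : ℕ} (hq : q ∈ t.2.1) : m2_c t q = none := by
  simp [m2_c, hq]

theorem m2_cd (hP : ∀ p ∈ P, p.Prime ∧ W < p) (hP' : ∀ q ∈ P', q.Prime ∧ W < q)
    {t : ℕ × Finset ℕ × Fam P H} (h : m2_ok W p1 P' t) {q : ℕ} (hq : q ∈ t.1.primeFactors) :
    m2_c t q = some none := by
  have h1 := Finset.disjoint_right.1 (m2_UVd hP hP' h) hq
  rw [Finset.mem_union, not_or, m2_mem_UU] at h1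
  unfold m2_c
  rw [if_neg h1.2, dif_neg h1.1]

theorem m2_cU (hP : ∀ p ∈ P, p.Prime ∧ W < p)
    {t : ℕ × Finset ℕ × Fam P H} (h : m2_ok W p1 P' t) {q : ℕ} {h' : {h // h ∈ H}} {hqP : q ∈ P}
    (hq : (⟨q, hqP⟩ : {p // p ∈ P}) ∈ t.2.2 h') :
    m2_c t q = some (some h') := by
  have h0 : ∃ h, ∃ hq : q ∈ P, (⟨q, hq⟩ : {p // p ∈ P}) ∈ t.2.2 h := ⟨h', hqP, hq⟩
  have h1 := Finset.disjoint_left.1 (m2_VU hP h) ((m2_mem_UU _ _).2 h0)
  unfold m2_c
  rw [if_neg h1, dif_pos h0]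
  congr 2
  by_contra hne
  obtain ⟨hq1, hq2⟩ := h0.choose_spec
  exact Finset.disjoint_left.1 (h.dis _ _ hne) hq2 hq

theorem m2_wt (hP : ∀ p ∈ P, p.Prime ∧ W < p) (hP' : ∀ q ∈ P', q.Prime ∧ W < q) (k E : ℕ)
    {t : ℕ × Finset ℕ × Fam P H} (h : m2_ok W p1 P' t) :
    ∏ q ∈ (m2_m t).primeFactors, m2_w H k E (m2_c t q) =
      (E : ℝ) ^ (∑ h, (t.2.2 h).card) * ((k : ℝ) ^ t.2.1.card * (k : ℝ) ^ t.1.primeFactors.card) := by
  rw [m2_pf hP hP' h, Finset.prod_union (m2_UVd hP hP' h), Finset.prod_union (m2_VU hP h)]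
  have h1 : ∏ q ∈ t.2.1, m2_w H k E (m2_c t q) = (k : ℝ) ^ t.2.1.card := by
    rw [Finset.prod_congr rfl fun q hq => by rw [m2_cV t hq], Finset.prod_const]
    rfl
  have h2 : ∏ q ∈ t.1.primeFactors, m2_w H k E (m2_c t q) = (k : ℝ) ^ t.1.primeFactors.card := by
    rw [Finset.prod_congr rfl fun q hq => by rw [m2_cd hP hP' h hq], Finset.prod_const]
    rfl
  have h3 : ∏ q ∈ m2_UU t.2.2, m2_w H k E (m2_c t q) = (E : ℝ) ^ (∑ h, (t.2.2 h).card) := by
    rw [m2_prod_UU _ h.dis, ← Finset.prod_pow_eq_pow_sum]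
    refine Finset.prod_congr rfl fun h' _ => ?_
    rw [Finset.prod_congr rfl fun p (hp : p ∈ t.2.2 h') => by
      rw [show m2_c t p.1 = some (some h') from m2_cU hP h (hqP := p.2) hp], Finset.prod_const]
    rfl
  rw [h1, h2, h3]
  ring

theorem m2_inj (hP : ∀ p ∈ P, p.Prime ∧ W < p) (hP' : ∀ q ∈ P', q.Prime ∧ W < q) (m : ℕ)
    {t t' : ℕ × Finset ℕ × Fam P H} (h : m2_ok W p1 P' t) (h' : m2_ok W p1 P' t')
    (e : m2_m t = m) (e' : m2_m t' = m)
    (hc : ∀ q ∈ m.primeFactors, m2_c t q = m2_c t' q) : t = t' := by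
  have f := m2_pf hP hP' h
  have f' := m2_pf hP hP' h'
  rw [e] at f
  rw [e'] at f'
  -- the colour classes
  have key : ∀ {s : ℕ × Finset ℕ × Fam P H}, m2_ok W p1 P' s →
      (m.primeFactors = m2_UU s.2.2 ∪ s.2.1 ∪ s.1.primeFactors) →
      (∀ q, q ∈ s.2.1 ↔ q ∈ m.primeFactors ∧ m2_c s q = none) ∧
      (∀ q, q ∈ s.1.primeFactors ↔ q ∈ m.primeFactors ∧ m2_c s q = some none) ∧
      (∀ (g : {h // h ∈ H}) (p : {p // p ∈ P}), p ∈ s.2.2 g ↔
        p.1 ∈ m.primeFactors ∧ m2_c s p.1 = some (some g)) := by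
    intro s hs fs
    have hcase : ∀ q ∈ m.primeFactors, (q ∈ s.2.1 ∧ m2_c s q = none) ∨
        (q ∈ s.1.primeFactors ∧ m2_c s q = some none) ∨
        ∃ (g : {h // h ∈ H}) (hqP : q ∈ P), (⟨q, hqP⟩ : {p // p ∈ P}) ∈ s.2.2 g ∧
          m2_c s q = some (some g) := by
      intro q hq
      rw [fs] at hq
      rcases Finset.mem_union.1 hq with hq | hq
      · rcases Finset.mem_union.1 hq with hq | hq
        · obtain ⟨g, hqP, hq'⟩ := (m2_mem_UU _ _).1 hq
          exact Or.inr (Or.inr ⟨g, hqP, hq', m2_cU hP hs hq'⟩)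
        · exact Or.inl ⟨hq, m2_cV s hq⟩
      · exact Or.inr (Or.inl ⟨hq, m2_cd hP hP' hs hq⟩)
    refine ⟨fun q => ⟨fun hq => ⟨?_, m2_cV s hq⟩, fun hq => ?_⟩,
      fun q => ⟨fun hq => ⟨?_, m2_cd hP hP' hs hq⟩, fun hq => ?_⟩,
      fun g p => ⟨fun hq => ⟨?_, m2_cU hP hs (hqP := p.2) hq⟩, fun hq => ?_⟩⟩
    · rw [fs]; simp [hq]
    · rcases hcase q hq.1 with h1 | h1 | ⟨g, hqP, h1, h2⟩
      · exact h1.1
      · rw [hq.2] at h1; simp at h1
      · rw [hq.2] at h2; simp at h2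
    · rw [fs]; exact Finset.mem_union_right _ hq
    · rcases hcase q hq.1 with h1 | h1 | ⟨g, hqP, h1, h2⟩
      · rw [hq.2] at h1; simp at h1
      · exact h1.1
      · rw [hq.2] at h2; simp at h2
    · rw [fs]
      exact Finset.mem_union_left _ (Finset.mem_union_left _ ((m2_mem_UU _ _).2 ⟨g, p.2, hq⟩))
    · rcases hcase p.1 hq.1 with h1 | h1 | ⟨g', hqP, h1, h2⟩
      · rw [hq.2] at h1; simp at h1
      · rw [hq.2] at h1; simp at h1
      · rw [hq.2] at h2
        simp only [Option.some.injEq] at h2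
        rw [h2]
        exact h1
  obtain ⟨a1, a2, a3⟩ := key h f
  obtain ⟨b1, b2, b3⟩ := key h' f'
  have e1 : t.2.1 = t'.2.1 := by
    ext q
    rw [a1, b1]
    constructor
    · rintro ⟨x, y⟩; exact ⟨x, by rw [← hc q x, y]⟩
    · rintro ⟨x, y⟩; exact ⟨x, by rw [hc q x, y]⟩
  have e2 : t.1.primeFactors = t'.1.primeFactors := by
    ext q
    rw [a2, b2]
    constructor
    · rintro ⟨x, y⟩; exact ⟨x, by rw [← hc q x, y]⟩
    · rintro ⟨x, y⟩; exact ⟨x, by rw [hc q x, y]⟩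
  have e3 : t.2.2 = t'.2.2 := by
    funext g
    ext p
    rw [a3, b3]
    constructor
    · rintro ⟨x, y⟩; exact ⟨x, by rw [← hc _ x, y]⟩
    · rintro ⟨x, y⟩; exact ⟨x, by rw [hc _ x, y]⟩
  have e4 : t.1 = t'.1 := by
    rw [← Nat.prod_primeFactors_of_squarefree h.sq, e2, Nat.prod_primeFactors_of_squarefree h'.sq]
  exact Prod.ext e4 (Prod.ext e1 e3)

end

open Classical in
/-- Proof. For a triple `(d, U, V)` in the sum, `m = fp U (∏ V) d` is squarefree, `≤ D`, not divisible by `p1`. For a fixed `m` the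
triple is determined by the function on the prime factors of `m` which says for every `q ∣ m` whether `q ∈ V`, `q ∣ d` or `q ∈ U_h`
(`K + 2` possibilities): `d = ∏ {q : q ∣ d}` since `d` is squarefree. So the sum of `E^(∑|U_h|) k^|V| k^ω(d)` over the triples with
this `m` is at most `∏_{q ∣ m} (k + k + K E) = (K E + 2 k)^ω(m)` (`Finset.prod_univ_sum`, or sum over maps `m.primeFactors → Option (Option
{h // h ∈ H})`). Another way: sum over `d` first, by the inequality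
`∑_{(a, b) : a b = m} α^ω(a) β^ω(b) ≤ (α + β)^ω(m)` for squarefree `m`, used for `V`, for `d` and for every `h ∈ H` in turn. -/
theorem m2 (P H : Finset ℕ) (W p1 k E D D1 r K : ℕ) (P' : Finset ℕ) (DF : ℝ) (rr : ℕ → ℝ)
    (hrr : ∀ m, 0 ≤ rr m) (hP : ∀ p ∈ P, p.Prime ∧ W < p) (hp1 : p1.Prime) (hp1W : p1 ≤ W)
    (hP' : ∀ q ∈ P', q.Prime ∧ W < q) (hK : H.card = K) (hW : 1 ≤ W)
    (hD : DF * (W : ℝ) ^ (r + 1) * D1 ≤ D) (hDF : 0 ≤ DF) :
    ∑ d ∈ Dv P' D1, ∑ V ∈ (Ps W p1).powerset.filter (fun V => V.card ≤ r + 1),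
      ∑ U : Fam P H, (if (∀ h h', h ≠ h' → Disjoint (U h) (U h')) ∧ (∀ h, ∀ p ∈ U h, ¬ p.1 ∣ d) ∧
          (fp U : ℝ) ≤ DF then
        (E : ℝ) ^ (∑ h, (U h).card) * ((k : ℝ) ^ V.card * (k : ℝ) ^ d.primeFactors.card) *
          rr (fp U * (∏ q ∈ V, q) * d) else 0) ≤
      ∑ m ∈ (Icc 1 D).filter (fun m => Squarefree m ∧ ¬ p1 ∣ m),
        ((K * E + 2 * k : ℕ) : ℝ) ^ m.primeFactors.card * rr m := by
  set I : Finset (ℕ × Finset ℕ × Fam P H) :=
    (Dv P' D1 ×ˢ ((Ps W p1).powerset.filter (fun V => V.card ≤ r + 1) ×ˢ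
      (Finset.univ : Finset (Fam P H)))).filter (fun t =>
        (∀ h h', h ≠ h' → Disjoint (t.2.2 h) (t.2.2 h')) ∧ (∀ h, ∀ p ∈ t.2.2 h, ¬ p.1 ∣ t.1) ∧
          (fp t.2.2 : ℝ) ≤ DF) with hI
  have hok : ∀ t ∈ I, m2_ok W p1 P' t ∧ m2_m t ∈
      (Icc 1 D).filter (fun m => Squarefree m ∧ ¬ p1 ∣ m) := by
    intro t ht
    simp only [hI, Finset.mem_filter, Finset.mem_product, Finset.mem_powerset, Dv,
      Finset.mem_Icc, Finset.mem_univ, and_true] at ht
    obtain ⟨⟨⟨⟨hd1, hd2⟩, hd3, hd4⟩, hV1, hV2⟩, hU1, hU2, hU3⟩ := ht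
    have ok : m2_ok W p1 P' t := ⟨hd3, hd4, hV1, hU1, hU2⟩
    obtain ⟨h1, h2⟩ := m2_p1 hP hP' hp1 hp1W ok
    refine ⟨ok, ?_⟩
    rw [Finset.mem_filter, Finset.mem_Icc]
    refine ⟨⟨Nat.pos_of_ne_zero h1.ne_zero, ?_⟩, h1, h2⟩
    have h3 : ((∏ q ∈ t.2.1, q : ℕ) : ℝ) ≤ (W : ℝ) ^ (r + 1) := by
      have h4 : ∏ q ∈ t.2.1, q ≤ W ^ t.2.1.card := by
        refine Finset.prod_le_pow_card _ _ _ fun q hq => ?_
        have h5 := hV1 hq
        simp only [Ps, Finset.mem_filter, Finset.mem_Icc] at h5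
        exact h5.1.2
      have h6 : W ^ t.2.1.card ≤ W ^ (r + 1) := Nat.pow_le_pow_right hW hV2
      exact_mod_cast h4.trans h6
    have h7 : ((m2_m t : ℕ) : ℝ) ≤ D := by
      refine le_trans ?_ hD
      unfold m2_m
      push_cast
      push_cast at h3
      have h8 : (t.1 : ℝ) ≤ D1 := by exact_mod_cast hd2
      have h9 : (0 : ℝ) ≤ ∏ q ∈ t.2.1, (q : ℝ) := Finset.prod_nonneg fun q _ => by positivity
      gcongr
    exact_mod_cast h7
  have step1 : ∑ d ∈ Dv P' D1, ∑ V ∈ (Ps W p1).powerset.filter (fun V => V.card ≤ r + 1),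
      ∑ U : Fam P H, (if (∀ h h', h ≠ h' → Disjoint (U h) (U h')) ∧ (∀ h, ∀ p ∈ U h, ¬ p.1 ∣ d) ∧
          (fp U : ℝ) ≤ DF then
        (E : ℝ) ^ (∑ h, (U h).card) * ((k : ℝ) ^ V.card * (k : ℝ) ^ d.primeFactors.card) *
          rr (fp U * (∏ q ∈ V, q) * d) else 0) =
      ∑ t ∈ I, (E : ℝ) ^ (∑ h, (t.2.2 h).card) *
        ((k : ℝ) ^ t.2.1.card * (k : ℝ) ^ t.1.primeFactors.card) * rr (m2_m t) := by
    rw [hI, Finset.sum_filter, Finset.sum_product]
    refine Finset.sum_congr rfl fun d _ => ?_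
    rw [Finset.sum_product]
    rfl
  rw [step1, ← Finset.sum_fiberwise_of_maps_to (g := m2_m) (fun t ht => (hok t ht).2)]
  refine Finset.sum_le_sum fun m hm => ?_
  have step2 : ∑ t ∈ I.filter (fun t => m2_m t = m), (E : ℝ) ^ (∑ h, (t.2.2 h).card) *
        ((k : ℝ) ^ t.2.1.card * (k : ℝ) ^ t.1.primeFactors.card) * rr (m2_m t) =
      (∑ t ∈ I.filter (fun t => m2_m t = m), ∏ q ∈ m.primeFactors, m2_w H k E (m2_c t q)) * rr m := by
    rw [Finset.sum_mul]
    refine Finset.sum_congr rfl fun t ht => ?_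
    rw [Finset.mem_filter] at ht
    rw [← m2_wt hP hP' k E (hok t ht.1).1, ht.2]
  rw [step2]
  refine mul_le_mul_of_nonneg_right ?_ (hrr m)
  rw [← m2_w_sum H k E K hK]
  refine m2_col _ _ _ _ (fun x => ?_) fun t ht t' ht' hc => ?_
  · rcases x with _ | _ | _ <;> simp only [m2_w] <;> positivity
  · rw [Finset.mem_filter] at ht ht'
    exact m2_inj hP hP' m (hok t ht.1).1 (hok t' ht'.1).1 ht.2 ht'.2 hc

end Pool.Agent.Lib.H57C
end

-- from Lib.H57C.RA
section

/-!
# Chunk RA: the bad classes and the target classes of part (i)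
-/

open Finset

namespace Pool.Agent.Lib.H57C

open Pool.Agent.Lib.H57M

theorem RA_res {q c h : ℕ} (hc : c < q) (hd : q ∣ c + h) : (q - h % q) % q = c := by
  have hq : 0 < q := by omega
  have hr : h % q < q := Nat.mod_lt _ hq
  have h1 : q ∣ c + h % q := by
    have h2 : c + h = (c + h % q) + q * (h / q) := by
      have := Nat.mod_add_div h q
      omega
    rw [h2] at hd
    exact (Nat.dvd_add_left (Dvd.intro _ rfl)).1 hd
  obtain ⟨k, hk⟩ := h1
  have hk2 : k < 2 := by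
    by_contra hcon
    have : q * 2 ≤ q * k := Nat.mul_le_mul_left q (by omega)
    omega
  interval_cases k
  · have : h % q = 0 := by omega
    have hc0 : c = 0 := by omega
    rw [this, hc0, Nat.sub_zero, Nat.mod_self]
  · have h3 : q - h % q = c := by omega
    rw [h3, Nat.mod_eq_of_lt hc]

/-- At most `K + 1` bad classes: those of `-h`, `h ∈ H`, and `N`. -/
theorem rb_card (N : ℕ) (H : Finset ℕ) (q : ℕ) (hq : q.Prime) :
    (Rb N H q).card ≤ H.card + 1 := by
  classical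
  have h1 : Rb N H q ⊆ insert (N % q) (H.image (fun h => (q - h % q) % q)) := by
    intro c hc
    unfold Rb at hc
    rw [mem_filter, mem_range] at hc
    obtain ⟨hcq, h2 | h2⟩ := hc
    · obtain ⟨h, hh, hd⟩ := h2
      exact mem_insert_of_mem (mem_image.2 ⟨h, hh, RA_res hcq hd⟩)
    · rw [mem_insert]
      left
      have h3 : c % q = N % q := h2
      rwa [Nat.mod_eq_of_lt hcq] at h3
  refine (card_le_card h1).trans ((card_insert_le _ _).trans ?_)
  have := card_image_le (s := H) (f := fun h => (q - h % q) % q)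
  omega

/-- Proof. `Rk`: `rb_card`; `Rq`: `Pre.nf`; `RH`: definition of `Rb`; `P'p`: definition of `Pg`; `T q = {N % q}`; `TH`: `q ∈ Pg` does not
divide `N + h`. -/
theorem pre_hrt (B cF : ℕ) (θ : ℝ) {K : ℕ} (w : Par K) (H : Finset ℕ) (N p1 : ℕ)
    (h : Pre B cF θ w H N p1) :
    HRT K 1 w.W p1 H (Rb N H) (fun q => {N % q}) (Pg N w.W H) := by
  have hPs : ∀ q ∈ Ps w.W p1, q.Prime := by
    intro q hq
    unfold Ps at hq
    exact (mem_filter.1 hq).2.1
  have hPg : ∀ q ∈ Pg N w.W H, q.Prime ∧ w.W < q ∧ ∀ h ∈ H, ¬ q ∣ N + h := by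
    intro q hq
    unfold Pg at hq
    rw [mem_filter, mem_Ioc] at hq
    exact ⟨hq.2.1, hq.1.1, hq.2.2⟩
  refine ⟨fun q => filter_subset _ _, fun q hq => ?_, fun q hq => h.nf q (hPs q hq), ?_,
    fun q hq => ⟨(hPg q hq).1, (hPg q hq).2.1⟩, fun q hq => ?_, fun q hq => ?_, ?_⟩
  · have h1 := rb_card N H q (hPs q hq)
    rwa [h.cardH] at h1
  · intro q hq h' hh' c hc hd
    unfold Rb
    rw [mem_filter, mem_range]
    exact ⟨hc, Or.inl ⟨h', hh', hd⟩⟩
  · intro t ht
    have h1 : t = N % q := by simpa using ht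
    rw [h1, mem_range]
    exact Nat.mod_lt _ (hPg q hq).1.pos
  · simp
  · intro q hq t ht h' hh' hd
    have h1 : t = N % q := by simpa using ht
    rw [h1] at hd
    apply (hPg q hq).2.2 h' hh'
    have h2 : N + h' = (N % q + h') + q * (N / q) := by
      have := Nat.mod_add_div N q
      omega
    rw [h2]
    exact Dvd.dvd.add hd (Dvd.intro _ rfl)

/-- `T q = {N % q}`: `inT T d t` iff `d ∣ N - t`, for squarefree `d` and `t ≤ N`. -/
theorem inT_iff (N d t : ℕ) (hd : Squarefree d) (ht : t ≤ N) :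
    inT (fun q => {N % q}) d t ↔ d ∣ N - t := by
  unfold inT
  have h1 : ∀ q : ℕ, t % q ∈ ({N % q} : Finset ℕ) ↔ q ∣ N - t := by
    intro q
    rw [mem_singleton]
    exact (Nat.modEq_iff_dvd' ht)
  simp only [h1]
  constructor
  · intro h
    rw [← Nat.prod_primeFactors_of_squarefree hd]
    exact Finset.prod_primes_dvd _ (fun p hp => (Nat.prime_of_mem_primeFactors hp).prime)
      (fun p hp => h p hp)
  · intro h q hq
    exact (Nat.dvd_of_mem_primeFactors hq).trans h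

/-- `∏_{q ∣ d} 1/(q - 1) = 1/φ(d)` for squarefree `d`. -/
theorem prod_gq (d : ℕ) (hd : Squarefree d) :
    ∏ q ∈ d.primeFactors, H59C.gq q = 1 / (Nat.totient d : ℝ) := by
  have h0 : 0 < d := Nat.pos_of_ne_zero hd.ne_zero
  have h1 := Nat.totient_mul_prod_primeFactors d
  rw [Nat.prod_primeFactors_of_squarefree hd, mul_comm d] at h1
  have h2 := Nat.eq_of_mul_eq_mul_right h0 h1
  rw [h2]
  push_cast
  unfold H59C.gq
  rw [Finset.prod_div_distrib, Finset.prod_const_one]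
  congr 1
  refine Finset.prod_congr rfl fun q hq => ?_
  rw [Nat.cast_sub (Nat.prime_of_mem_primeFactors hq).one_le, Nat.cast_one]

end Pool.Agent.Lib.H57C
end

-- from Lib.H57C.X3
section

/-!
# Chunk X3: expansion of the weight function `L`
-/

open Finset

namespace Pool.Agent.Lib.H57C

open Pool.Agent.Lib.H15P Pool.Agent.Lib.H92G Pool.Agent.Lib.H57M

/-- The coefficients of the factor with label `o`. -/
noncomputable def x3_e {ι I : Type} [DecidableEq ι] (g : I → Finset ι → ℝ) : Option I → Finset ι → ℝ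
  | none, T => if T = ∅ then 1 else 0
  | some i, T => g i T

/-- The level of the factor with label `o`. -/
noncomputable def x3_lv {I : Type} (lvs : I → ℝ) : Option I → ℝ
  | none => 1
  | some i => lvs i

theorem x3_prod_lv {J I : Type} [Fintype J] [DecidableEq J] [Fintype I] [DecidableEq I] (lvs : I → ℝ)
    (l : J → Option I) : ∏ j, x3_lv lvs (l j) = ∏ i, lvs i ^ cnt l i := by
  rw [← Finset.prod_fiberwise univ l (fun j => x3_lv lvs (l j)), Fintype.prod_option]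
  have h1 : ∏ j ∈ univ.filter (fun j => l j = none), x3_lv lvs (l j) = 1 := by
    refine Finset.prod_eq_one fun j hj => ?_
    rw [(Finset.mem_filter.1 hj).2]
    rfl
  rw [h1, one_mul]
  refine Finset.prod_congr rfl fun i _ => ?_
  have h2 : ∏ j ∈ univ.filter (fun j => l j = some i), x3_lv lvs (l j) =
      ∏ j ∈ univ.filter (fun j => l j = some i), lvs i := by
    refine Finset.prod_congr rfl fun j hj => ?_
    rw [(Finset.mem_filter.1 hj).2]
    rfl
  rw [h2, Finset.prod_const]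
  rfl

theorem x3_adm {J I : Type} [Fintype J] [DecidableEq J] [Fintype I] [DecidableEq I]
    {B : Finset J} {m : I → ℕ} {l : J → Option I} (hl : l ∈ adm B m) (i : I) : cnt l i ≤ m i :=
  (Finset.mem_filter.1 hl).2.2 i

/-- Proof. `w.L S = ∑_{l ∈ adm univ m} ∏_j dg D j (l j) (S j)` (`Par.L`, `LG`, `LW`, `dg`). The factor with label `none` is
`1 = ∑_{T ⊆ A} 1[T = ∅]`, the factor with label `some i` is `D i A = ∑_{T ⊆ A} g_i(T)`, `|g_i| ≤ C`. Multiply out
(`Finset.prod_univ_sum` over `Fintype.piFinset (fun j => (S j).powerset)`): for every `l` the coefficient of `U : J → Finset`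
is a product of `K` factors, each at most `C` in absolute value (`1 ≤ C`), there are at most `(n + 1)^K` labelings
(`Fintype.card (J → Option (Fin n))`); and if it is not `0` then
`∏_j ∏_{p ∈ U_j} p ≤ ∏_{j : l j = some i} lvs i = ∏_i (lvs i)^(cnt l i) ≤ ∏_i (lvs i)^(m i)` (`lvs ≥ 1`, `adm`).
`E = 1`: `(1:ℝ)^_ = 1`. -/
theorem exJ_L {K : ℕ} (w : Par K) (C : ℝ) (hC : 1 ≤ C) (lvs : Fin w.n → ℝ)
    (h1 : ∀ i, 1 ≤ lvs i) (hE : ∀ i, Ex1 w.P (w.D i) C (lvs i))
    (J : Type) [Fintype J] [DecidableEq J] (hJ : Fintype.card J = K) :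
    ExJ w.P (fun S : J → Finset {p // p ∈ w.P} => w.L S)
      ((((w.n : ℝ) + 1) * C) ^ K) 1 (∏ i, lvs i ^ w.m i) := by
  choose g hg1 hg2 hg3 using hE
  have hdg : ∀ (j : J) (o : Option (Fin w.n)) (A : Finset {p // p ∈ w.P}),
      dg (fun _ : J => w.D) j o A = ∑ T ∈ A.powerset, x3_e g o T := by
    intro j o A
    cases o with
    | none =>
      show (1 : ℝ) = ∑ T ∈ A.powerset, (if T = ∅ then 1 else 0)
      rw [Finset.sum_ite_eq' A.powerset ∅ (fun _ => (1 : ℝ))]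
      simp
    | some i => exact hg1 i A
  have heb : ∀ (o : Option (Fin w.n)) (T : Finset {p // p ∈ w.P}), |x3_e g o T| ≤ C := by
    intro o T
    cases o with
    | none =>
      show |(if T = ∅ then (1 : ℝ) else 0)| ≤ C
      split_ifs
      · simpa using hC
      · simpa using le_trans zero_le_one hC
    | some i => exact hg2 i T
  have hel : ∀ (o : Option (Fin w.n)) (T : Finset {p // p ∈ w.P}), x3_e g o T ≠ 0 →
      (∏ p ∈ T, (p.1 : ℝ)) ≤ x3_lv lvs o := by
    intro o T h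
    cases o with
    | none =>
      have hT : T = ∅ := by
        by_contra hT
        exact h (if_neg hT)
      subst hT
      simp [x3_lv]
    | some i => exact hg3 i T h
  refine ⟨fun U => ∑ l ∈ adm univ w.m, ∏ j, x3_e g (l j) (U j), ?_, ?_, ?_⟩
  · intro S
    have e1 : (∑ U : J → Finset {p // p ∈ w.P},
        if ∀ j, U j ⊆ S j then ∑ l ∈ adm univ w.m, ∏ j, x3_e g (l j) (U j) else 0) =
        ∑ U ∈ Fintype.piFinset (fun j => (S j).powerset), ∑ l ∈ adm univ w.m, ∏ j, x3_e g (l j) (U j) := by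
      rw [← Finset.sum_filter]
      refine Finset.sum_congr ?_ fun _ _ => rfl
      ext U
      simp [Fintype.mem_piFinset]
    rw [e1, Finset.sum_comm]
    show LW (fun _ : J => w.D) (adm univ w.m) (fun _ => 1) S = _
    unfold LW
    refine Finset.sum_congr rfl fun l _ => ?_
    rw [one_mul]
    have e2 : ∏ j, dg (fun _ : J => w.D) j (l j) (S j) = ∏ j, ∑ T ∈ (S j).powerset, x3_e g (l j) T :=
      Finset.prod_congr rfl fun j _ => hdg j (l j) (S j)
    rw [e2, Finset.prod_univ_sum]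
  · intro U
    have hn : (0 : ℝ) ≤ (w.n : ℝ) + 1 := by positivity
    have hC0 : (0 : ℝ) ≤ C := by linarith
    calc |∑ l ∈ adm univ w.m, ∏ j, x3_e g (l j) (U j)| ≤ ∑ l ∈ adm univ w.m, |∏ j, x3_e g (l j) (U j)| :=
          Finset.abs_sum_le_sum_abs _ _
      _ ≤ ∑ l ∈ adm univ w.m, C ^ K := by
          refine Finset.sum_le_sum fun l _ => ?_
          rw [Finset.abs_prod]
          calc ∏ j, |x3_e g (l j) (U j)| ≤ ∏ _j : J, C :=
                Finset.prod_le_prod (fun _ _ => abs_nonneg _) fun j _ => heb (l j) (U j)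
            _ = C ^ K := by rw [Finset.prod_const, Finset.card_univ, hJ]
      _ = ((adm univ w.m : Finset (J → Option (Fin w.n))).card : ℝ) * C ^ K := by
          rw [Finset.sum_const, nsmul_eq_mul]
      _ ≤ ((w.n : ℝ) + 1) ^ K * C ^ K := by
          refine mul_le_mul_of_nonneg_right ?_ (pow_nonneg hC0 K)
          have hc : (adm univ w.m : Finset (J → Option (Fin w.n))).card ≤ (w.n + 1) ^ K := by
            calc (adm univ w.m : Finset (J → Option (Fin w.n))).card ≤ Fintype.card (J → Option (Fin w.n)) :=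
                  Finset.card_le_univ _
              _ = (w.n + 1) ^ K := by simp [hJ]
          exact_mod_cast hc
      _ = (((w.n : ℝ) + 1) * C) ^ K * ((1 : ℕ) : ℝ) ^ (∑ j, (U j).card) := by
          rw [mul_pow]; simp
  · intro U hU
    obtain ⟨l, hl, hne⟩ := Finset.exists_ne_zero_of_sum_ne_zero hU
    have hl2 := x3_adm hl
    calc (∏ j, ∏ p ∈ U j, (p.1 : ℝ)) ≤ ∏ j, x3_lv lvs (l j) := by
          refine Finset.prod_le_prod (fun j _ => Finset.prod_nonneg fun p _ => by positivity) fun j _ => ?_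
          exact hel (l j) (U j) (Finset.prod_ne_zero_iff.1 hne j (Finset.mem_univ j))
      _ = ∏ i, lvs i ^ cnt l i := x3_prod_lv lvs l
      _ ≤ ∏ i, lvs i ^ w.m i := by
          refine Finset.prod_le_prod (fun i _ => pow_nonneg (by linarith [h1 i]) _) fun i _ => ?_
          exact pow_le_pow_right₀ (h1 i) (hl2 i)

end Pool.Agent.Lib.H57C
end

-- from Lib.H57C.X4
section

/-!
# Chunk X4: expansion of a square
-/

open Finset

namespace Pool.Agent.Lib.H57C

open Pool.Agent.Lib.H15P Pool.Agent.Lib.H92G Pool.Agent.Lib.H57M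

theorem x4_card {α : Type} [Fintype α] [DecidableEq α] (V : Finset α) :
    ((univ : Finset (Finset α × Finset α)).filter (fun x => x.1 ∪ x.2 = V)).card ≤ 3 ^ V.card := by
  have h1 : (V.powerset.sigma (fun A => A.powerset)).card = 3 ^ V.card := by
    rw [Finset.card_sigma]
    simp only [Finset.card_powerset]
    have := Finset.prod_one_add (f := fun _ : α => (2 : ℕ)) V
    simp only [Finset.prod_const] at this
    rw [← this]
  rw [← h1]
  refine Finset.card_le_card_of_injOn (fun x => ⟨x.1, x.1 ∩ x.2⟩) ?_ ?_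
  · intro x hx
    have hx' := (Finset.mem_filter.1 (Finset.mem_coe.1 hx)).2
    refine Finset.mem_coe.2 (Finset.mem_sigma.2 ⟨?_, ?_⟩)
    · rw [Finset.mem_powerset, ← hx']
      exact Finset.subset_union_left
    · rw [Finset.mem_powerset]
      exact Finset.inter_subset_left
  · rintro ⟨A, B⟩ hx ⟨A', B'⟩ hx' h
    have e1 := (Finset.mem_filter.1 (Finset.mem_coe.1 hx)).2
    have e2 := (Finset.mem_filter.1 (Finset.mem_coe.1 hx')).2
    simp only [Sigma.mk.injEq] at h e1 e2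
    obtain ⟨h1, h2⟩ := h
    subst h1
    have h3 := eq_of_heq h2
    congr 1
    ext y
    have f1 := Finset.ext_iff.1 h3 y
    have f2 := Finset.ext_iff.1 (e1.trans e2.symm) y
    simp only [Finset.mem_inter, Finset.mem_union] at f1 f2
    tauto

theorem x4_cardJ {J α : Type} [Fintype J] [DecidableEq J] [Fintype α] [DecidableEq α]
    (V : J → Finset α) :
    ∑ U : J → Finset α, ∑ U' : J → Finset α, (if ∀ j, U j ∪ U' j = V j then (1 : ℝ) else 0) ≤
      3 ^ (∑ j, (V j).card) := by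
  classical
  rw [← Finset.sum_product', ← Finset.prod_pow_eq_pow_sum]
  have h1 : ∑ x ∈ (univ : Finset (J → Finset α)) ×ˢ (univ : Finset (J → Finset α)),
      (if ∀ j, x.1 j ∪ x.2 j = V j then (1 : ℝ) else 0) =
      ((Fintype.piFinset (fun j => (univ : Finset (Finset α × Finset α)).filter
        (fun x => x.1 ∪ x.2 = V j))).card : ℝ) := by
    rw [Finset.sum_boole]
    congr 1
    refine Finset.card_nbij' (fun x j => (x.1 j, x.2 j)) (fun y => (fun j => (y j).1, fun j => (y j).2))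
      ?_ ?_ ?_ ?_
    · intro x hx
      have hx' := (Finset.mem_filter.1 (Finset.mem_coe.1 hx)).2
      refine Finset.mem_coe.2 (Fintype.mem_piFinset.2 fun j => ?_)
      rw [Finset.mem_filter]
      exact ⟨Finset.mem_univ _, hx' j⟩
    · intro y hy
      have hy' := Fintype.mem_piFinset.1 (Finset.mem_coe.1 hy)
      refine Finset.mem_coe.2 (Finset.mem_filter.2 ⟨by simp, fun j => ?_⟩)
      exact (Finset.mem_filter.1 (hy' j)).2
    · intro x _
      rfl
    · intro y _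
      rfl
  rw [h1, Fintype.card_piFinset]
  push_cast
  refine Finset.prod_le_prod (fun j _ => by positivity) fun j _ => ?_
  exact_mod_cast x4_card (V j)

/-- Proof. `F(S)^2 = ∑_{U, U' ⊆ S} c(U) c(U')`; the new coefficient of `V` is `a ∑_{U ∪ U' = V} c(U) c(U')` (union for
every `j`). The number of the pairs with union `V` is `∏_j 3^|V_j|` (every element of `V_j` is in `U_j` only, in `U'_j` only, or
in both), and `∏_{V} p ≤ ∏_U p ∏_{U'} p ≤ D^2` (primes are `≥ 1`). -/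
theorem exJ_sq {J : Type} [Fintype J] [DecidableEq J] (P : Finset ℕ) (hP : ∀ p ∈ P, p.Prime)
    (F : (J → Finset {p // p ∈ P}) → ℝ) (C D : ℝ) (hC : 0 ≤ C) (hD : 0 ≤ D)
    (h : ExJ P F C 1 D) (a : ℝ) (ha0 : 0 ≤ a) (ha : a ≤ 1) :
    ExJ P (fun S => a * F S ^ 2) (C ^ 2) 3 (D ^ 2) := by
  obtain ⟨c, h1, h2, h3⟩ := h
  have h2' : ∀ U, |c U| ≤ C := by
    intro U
    have := h2 U
    simpa using this
  refine ⟨fun V => a * ∑ U : J → Finset {p // p ∈ P}, ∑ U' : J → Finset {p // p ∈ P},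
    if ∀ j, U j ∪ U' j = V j then c U * c U' else 0, ?_, ?_, ?_⟩
  · intro S
    simp only
    rw [h1 S, sq, Finset.sum_mul_sum]
    have e1 : ∀ V : J → Finset {p // p ∈ P},
        (if ∀ j, V j ⊆ S j then a * ∑ U : J → Finset {p // p ∈ P}, ∑ U' : J → Finset {p // p ∈ P},
          (if ∀ j, U j ∪ U' j = V j then c U * c U' else 0) else 0) =
        a * ∑ U : J → Finset {p // p ∈ P}, ∑ U' : J → Finset {p // p ∈ P},
          (if (fun j => U j ∪ U' j) = V then (if ∀ j, V j ⊆ S j then c U * c U' else 0) else 0) := by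
      intro V
      by_cases hV : ∀ j, V j ⊆ S j
      · simp only [if_pos hV, funext_iff]
      · simp [if_neg hV]
    rw [Finset.sum_congr rfl fun V _ => e1 V, ← Finset.mul_sum]
    congr 1
    have e5 : ∑ V : J → Finset {p // p ∈ P}, ∑ U : J → Finset {p // p ∈ P},
        ∑ U' : J → Finset {p // p ∈ P},
          (if (fun j => U j ∪ U' j) = V then (if ∀ j, V j ⊆ S j then c U * c U' else 0) else 0) =
        ∑ U : J → Finset {p // p ∈ P}, ∑ U' : J → Finset {p // p ∈ P},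
          ∑ V : J → Finset {p // p ∈ P},
          (if (fun j => U j ∪ U' j) = V then (if ∀ j, V j ⊆ S j then c U * c U' else 0) else 0) := by
      rw [Finset.sum_comm]
      exact Finset.sum_congr rfl fun U _ => Finset.sum_comm
    rw [e5]
    refine Finset.sum_congr rfl fun U _ => Finset.sum_congr rfl fun U' _ => ?_
    rw [Finset.sum_ite_eq, if_pos (Finset.mem_univ _)]
    by_cases hU : ∀ j, U j ⊆ S j
    · by_cases hU' : ∀ j, U' j ⊆ S j
      · rw [if_pos hU, if_pos hU', if_pos fun j => Finset.union_subset (hU j) (hU' j)]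
      · have hU2 : ¬ ∀ j, U j ∪ U' j ⊆ S j := fun hh =>
          hU' fun j => (Finset.subset_union_right (s₁ := U j)).trans (hh j)
        rw [if_neg hU', if_neg hU2, mul_zero]
    · have hU2 : ¬ ∀ j, U j ∪ U' j ⊆ S j := fun hh =>
        hU fun j => (Finset.subset_union_left (s₂ := U' j)).trans (hh j)
      rw [if_neg hU, if_neg hU2, zero_mul]
  · intro V
    simp only
    rw [abs_mul, abs_of_nonneg ha0]
    have e2 : |∑ U : J → Finset {p // p ∈ P}, ∑ U' : J → Finset {p // p ∈ P},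
        (if ∀ j, U j ∪ U' j = V j then c U * c U' else 0)| ≤
        C ^ 2 * ∑ U : J → Finset {p // p ∈ P}, ∑ U' : J → Finset {p // p ∈ P},
          (if ∀ j, U j ∪ U' j = V j then (1 : ℝ) else 0) := by
      rw [Finset.mul_sum]
      refine (Finset.abs_sum_le_sum_abs _ _).trans (Finset.sum_le_sum fun U _ => ?_)
      rw [Finset.mul_sum]
      refine (Finset.abs_sum_le_sum_abs _ _).trans (Finset.sum_le_sum fun U' _ => ?_)
      split_ifs
      · rw [abs_mul, mul_one, sq]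
        exact mul_le_mul (h2' U) (h2' U') (abs_nonneg _) hC
      · simp
    have e3 := x4_cardJ V
    have e4 : (0 : ℝ) ≤ |∑ U : J → Finset {p // p ∈ P}, ∑ U' : J → Finset {p // p ∈ P},
        (if ∀ j, U j ∪ U' j = V j then c U * c U' else 0)| := abs_nonneg _
    calc a * |∑ U : J → Finset {p // p ∈ P}, ∑ U' : J → Finset {p // p ∈ P},
        (if ∀ j, U j ∪ U' j = V j then c U * c U' else 0)| ≤ 1 * (C ^ 2 *
          ∑ U : J → Finset {p // p ∈ P}, ∑ U' : J → Finset {p // p ∈ P},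
          (if ∀ j, U j ∪ U' j = V j then (1 : ℝ) else 0)) := mul_le_mul ha e2 e4 (by norm_num)
      _ ≤ C ^ 2 * ((3 : ℕ) : ℝ) ^ (∑ j, (V j).card) := by
          rw [one_mul]
          push_cast
          exact mul_le_mul_of_nonneg_left e3 (by positivity)
  · intro V hV
    simp only at hV
    have hV' := right_ne_zero_of_mul hV
    obtain ⟨U, -, hU⟩ := Finset.exists_ne_zero_of_sum_ne_zero hV'
    obtain ⟨U', -, hU'⟩ := Finset.exists_ne_zero_of_sum_ne_zero hU
    by_cases hj : ∀ j, U j ∪ U' j = V j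
    · rw [if_pos hj] at hU'
      have g1 := h3 U (left_ne_zero_of_mul hU')
      have g2 := h3 U' (right_ne_zero_of_mul hU')
      have p1 : ∀ p : {p // p ∈ P}, (1 : ℝ) ≤ (p.1 : ℝ) := fun p => by
        exact_mod_cast (hP p.1 p.2).one_lt.le
      have p0 : ∀ W : J → Finset {p // p ∈ P}, 0 ≤ ∏ j, ∏ p ∈ W j, (p.1 : ℝ) := fun W =>
        Finset.prod_nonneg fun j _ => Finset.prod_nonneg fun p _ => by linarith [p1 p]
      calc ∏ j, ∏ p ∈ V j, (p.1 : ℝ) ≤ ∏ j, ((∏ p ∈ U j, (p.1 : ℝ)) * ∏ p ∈ U' j, (p.1 : ℝ)) := by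
            refine Finset.prod_le_prod (fun j _ => Finset.prod_nonneg fun p _ => by linarith [p1 p])
              fun j _ => ?_
            rw [← hj j, ← Finset.prod_union_inter]
            refine le_mul_of_one_le_right (Finset.prod_nonneg fun p _ => by linarith [p1 p]) ?_
            have : ∏ p ∈ U j ∩ U' j, (1 : ℝ) ≤ ∏ p ∈ U j ∩ U' j, (p.1 : ℝ) :=
              Finset.prod_le_prod (fun _ _ => by norm_num) fun p _ => p1 p
            simpa using this
        _ = (∏ j, ∏ p ∈ U j, (p.1 : ℝ)) * ∏ j, ∏ p ∈ U' j, (p.1 : ℝ) := Finset.prod_mul_distrib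
        _ ≤ D * D := mul_le_mul g1 g2 (p0 U') hD
        _ = D ^ 2 := (sq D).symm
    · rw [if_neg hj] at hU'
      exact absurd rfl hU'

end Pool.Agent.Lib.H57C
end

-- from Lib.H57M.B3
section

/-!
# Chunk B3: second moments of the weight function with prescribed prime divisors
-/

open Finset

namespace Pool.Agent.Lib.H57M

open Pool.Agent.Lib.H15P Pool.Agent.Lib.H92G

variable {K : ℕ} {J : Type} [Fintype J] [DecidableEq J]

/-- Cauchy-Schwarz over the labelings: `L^2 ≤ #(labelings) ∑_l ∏_j dg^2`, with at most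
`(n + 1)^K` labelings (`sq_sum_le_card_mul_sum_sq`). Mean value of the product by `EX_prod`:
`∏_j ex (dg(l_j)^2 1[T_j ⊆ A])`, at most `Dt^|T_j| ∏_{T_j} q · (1 or s i)` for the label `none` or `i`
(for `none`: `ex 1[T ⊆ A] = ∏_T q`, `tr3_ex_subset`; `Par.tilt`). Sum over all functions
`l : J → Option (Fin n)` = product over `j` of the sums, each at most
`(1 + ∑ s) Dt^|T_j| ∏ q ≤ 2 Dt^|T_j| ∏ q`. -/
theorem Par.EX_tilt (w : Par K) (hJ : Fintype.card J = K) (T : J → Finset {p // p ∈ w.P}) :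
    EX (qq w.P K) (fun S : J → Finset {p // p ∈ w.P} =>
        w.L S ^ 2 * ∏ j, (if T j ⊆ S j then 1 else 0))
      ≤ w.CL * w.Dt ^ (∑ j, (T j).card) * ∏ j, ∏ p ∈ T j, qq w.P K p := by
  classical
  have hq0 : ∀ i, 0 ≤ qq w.P K i := w.good.q0
  have hq1 : ∀ i, qq w.P K i ≤ 1 := w.good.q1
  set q := qq w.P K with hq
  set D : J → Fin w.n → Finset {p // p ∈ w.P} → ℝ := fun _ => w.D with hD
  have hDt0 : 0 ≤ w.Dt := zero_le_one.trans w.Dt1
  -- the cardinality of the set of the labelings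
  have hcard : ((Fintype.card (J → Option (Fin w.n)) : ℕ) : ℝ) = ((w.n : ℝ) + 1) ^ K := by
    rw [Fintype.card_fun, Fintype.card_option, Fintype.card_fin, hJ]
    push_cast
    rfl
  -- pointwise bound
  have hpt : ∀ S : J → Finset {p // p ∈ w.P},
      w.L S ^ 2 * ∏ j, (if T j ⊆ S j then (1 : ℝ) else 0) ≤
      ((w.n : ℝ) + 1) ^ K * ∑ l : J → Option (Fin w.n),
        ∏ j, (dg D j (l j) (S j) ^ 2 * (if T j ⊆ S j then (1 : ℝ) else 0)) := by
    intro S
    have h1 : w.L S = ∑ l ∈ adm (univ : Finset J) w.m, ∏ j, dg D j (l j) (S j) := by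
      unfold Par.L LG LW
      simp only [one_mul, hD]
    have h2 : w.L S ^ 2 ≤ ((w.n : ℝ) + 1) ^ K * ∑ l : J → Option (Fin w.n),
        ∏ j, dg D j (l j) (S j) ^ 2 := by
      rw [h1]
      refine (sq_sum_le_card_mul_sum_sq).trans ?_
      have h3 : ((adm (univ : Finset J) w.m).card : ℝ) ≤ ((w.n : ℝ) + 1) ^ K := by
        rw [← hcard]
        exact_mod_cast Finset.card_le_univ _
      have h4 : ∑ l ∈ adm (univ : Finset J) w.m, (∏ j, dg D j (l j) (S j)) ^ 2 ≤
          ∑ l : J → Option (Fin w.n), ∏ j, dg D j (l j) (S j) ^ 2 := by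
        refine (Finset.sum_le_univ_sum_of_nonneg fun l => sq_nonneg _).trans (le_of_eq ?_)
        exact Finset.sum_congr rfl fun l _ => by rw [Finset.prod_pow]
      exact mul_le_mul h3 h4 (Finset.sum_nonneg fun l _ => sq_nonneg _) (by positivity)
    have h5 : (0 : ℝ) ≤ ∏ j, (if T j ⊆ S j then (1 : ℝ) else 0) :=
      Finset.prod_nonneg fun j _ => by split_ifs <;> norm_num
    refine (mul_le_mul_of_nonneg_right h2 h5).trans (le_of_eq ?_)
    rw [mul_assoc, Finset.sum_mul]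
    congr 1
    exact Finset.sum_congr rfl fun l _ => by rw [Finset.prod_mul_distrib]
  refine (EX_mono q hq0 hq1 _ _ hpt).trans ?_
  rw [EX_const_mul, EX_sum]
  -- each labeling
  set B : J → ℝ := fun j => w.Dt ^ (T j).card * ∏ p ∈ T j, q p with hB
  have hB0 : ∀ j, 0 ≤ B j := fun j =>
    mul_nonneg (pow_nonneg hDt0 _) (Finset.prod_nonneg fun p _ => hq0 p)
  set σ : Option (Fin w.n) → ℝ := fun o => match o with
    | none => 1
    | some i => w.s i with hσ
  have hσ0 : ∀ o, 0 ≤ σ o := by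
    rintro (_ | i)
    · exact zero_le_one
    · exact w.s0 i
  have hone : ∀ (j : J) (o : Option (Fin w.n)),
      ex q (fun A => dg D j o A ^ 2 * (if T j ⊆ A then (1 : ℝ) else 0)) ≤ B j * σ o := by
    intro j o
    rcases o with _ | i
    · have e1 : (fun A => dg D j (none : Option (Fin w.n)) A ^ 2 * (if T j ⊆ A then (1 : ℝ) else 0)) =
          fun A => (if T j ⊆ A then (1 : ℝ) else 0) := by
        funext A
        simp only [dg, one_pow, one_mul]
      rw [e1, tr3_ex_subset]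
      have h1 : (1 : ℝ) ≤ w.Dt ^ (T j).card := one_le_pow₀ w.Dt1
      have h2 : (0 : ℝ) ≤ ∏ p ∈ T j, q p := Finset.prod_nonneg fun p _ => hq0 p
      show ∏ p ∈ T j, q p ≤ w.Dt ^ (T j).card * (∏ p ∈ T j, q p) * 1
      nlinarith
    · exact w.tilt i (T j)
  have hlab : ∀ l : J → Option (Fin w.n),
      EX q (fun S : J → Finset {p // p ∈ w.P} =>
        ∏ j, (dg D j (l j) (S j) ^ 2 * (if T j ⊆ S j then (1 : ℝ) else 0))) ≤
      ∏ j, (B j * σ (l j)) := by
    intro l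
    rw [EX_prod q (fun j A => dg D j (l j) A ^ 2 * (if T j ⊆ A then (1 : ℝ) else 0))]
    refine Finset.prod_le_prod (fun j _ => ex_nonneg q hq0 hq1 _ fun A => ?_) fun j _ => hone j (l j)
    refine mul_nonneg (sq_nonneg _) ?_
    split_ifs <;> norm_num
  have hsum : ∑ l : J → Option (Fin w.n),
      EX q (fun S : J → Finset {p // p ∈ w.P} =>
        ∏ j, (dg D j (l j) (S j) ^ 2 * (if T j ⊆ S j then (1 : ℝ) else 0))) ≤
      2 ^ K * ∏ j, B j := by
    refine (Finset.sum_le_sum fun l _ => hlab l).trans ?_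
    have h1 := Finset.prod_univ_sum (fun _ : J => (univ : Finset (Option (Fin w.n))))
      (fun j o => B j * σ o)
    rw [Fintype.piFinset_univ] at h1
    rw [← h1]
    have h2 : ∀ j, ∑ o, B j * σ o ≤ 2 * B j := by
      intro j
      rw [← Finset.mul_sum, Fintype.sum_option]
      have h3 : σ none + ∑ i, σ (some i) ≤ 2 := by
        show 1 + ∑ i, w.s i ≤ 2
        linarith [w.hs]
      nlinarith [hB0 j]
    refine (Finset.prod_le_prod (fun j _ => Finset.sum_nonneg fun o _ =>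
      mul_nonneg (hB0 j) (hσ0 o)) fun j _ => h2 j).trans (le_of_eq ?_)
    rw [Finset.prod_mul_distrib, Finset.prod_const, Finset.card_univ, hJ]
  refine (mul_le_mul_of_nonneg_left hsum (by positivity)).trans (le_of_eq ?_)
  have h1 : ∏ j, B j = w.Dt ^ (∑ j, (T j).card) * ∏ j, ∏ p ∈ T j, q p := by
    rw [hB, Finset.prod_mul_distrib, Finset.prod_pow_eq_pow_sum]
  rw [h1, Par.CL, mul_pow]
  ring

theorem B3_EX_add {ι : Type} [Fintype ι] [DecidableEq ι] (q : ι → ℝ) (F G : (J → Finset ι) → ℝ) :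
    EX q (fun S => F S + G S) = EX q F + EX q G := by
  unfold EX
  rw [← Finset.sum_add_distrib]
  exact Finset.sum_congr rfl fun S _ => by rw [add_mul]

theorem B3_single (w : Par K) (hJ : Fintype.card J = K) (p : {p // p ∈ w.P}) (j : J) :
    EX (qq w.P K) (fun S : J → Finset {p // p ∈ w.P} =>
        w.L S ^ 2 * (if p ∈ S j then 1 else 0)) ≤ w.CL * w.Dt * qq w.P K p := by
  have h := w.EX_tilt hJ (fun l => if l = j then {p} else ∅)
  have e1 : (fun S : J → Finset {p // p ∈ w.P} => w.L S ^ 2 *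
      ∏ l, (if (if l = j then ({p} : Finset {p // p ∈ w.P}) else ∅) ⊆ S l then (1 : ℝ) else 0)) =
      (fun S : J → Finset {p // p ∈ w.P} => w.L S ^ 2 * (if p ∈ S j then 1 else 0)) := by
    funext S
    rw [Finset.prod_eq_single j]
    · rw [if_pos rfl]
      simp only [Finset.singleton_subset_iff]
    · intro l _ hl
      rw [if_neg hl, if_pos (Finset.empty_subset _)]
    · intro h
      exact absurd (mem_univ j) h
  have e2 : ∑ l, (if l = j then ({p} : Finset {p // p ∈ w.P}) else ∅).card = 1 := by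
    rw [Finset.sum_eq_single j]
    · rw [if_pos rfl, card_singleton]
    · intro l _ hl
      rw [if_neg hl, card_empty]
    · intro h
      exact absurd (mem_univ j) h
  have e3 : ∏ l, ∏ p' ∈ (if l = j then ({p} : Finset {p // p ∈ w.P}) else ∅), qq w.P K p' =
      qq w.P K p := by
    rw [Finset.prod_eq_single j]
    · rw [if_pos rfl, prod_singleton]
    · intro l _ hl
      rw [if_neg hl, prod_empty]
    · intro h
      exact absurd (mem_univ j) h
  rw [e1, e2, e3, pow_one] at h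
  exact h

theorem B3_pair (w : Par K) (hJ : Fintype.card J = K) (p : {p // p ∈ w.P}) (j j' : J) (hjj : j ≠ j') :
    EX (qq w.P K) (fun S : J → Finset {p // p ∈ w.P} =>
        w.L S ^ 2 * (tr3_ind S (j, p) * tr3_ind S (j', p))) ≤ w.CL * w.Dt ^ 2 * qq w.P K p ^ 2 := by
  have h := w.EX_tilt hJ (fun l => if l = j then {p} else if l = j' then {p} else ∅)
  have e1 : (fun S : J → Finset {p // p ∈ w.P} => w.L S ^ 2 *
      ∏ l, (if (if l = j then ({p} : Finset {p // p ∈ w.P}) else if l = j' then {p} else ∅) ⊆ S l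
        then (1 : ℝ) else 0)) =
      (fun S : J → Finset {p // p ∈ w.P} => w.L S ^ 2 * (tr3_ind S (j, p) * tr3_ind S (j', p))) := by
    funext S
    rw [← Finset.mul_prod_erase univ _ (Finset.mem_univ j), if_pos rfl,
      ← Finset.mul_prod_erase (univ.erase j) _
        (Finset.mem_erase.mpr ⟨hjj.symm, Finset.mem_univ j'⟩), if_neg hjj.symm, if_pos rfl]
    rw [Finset.prod_eq_one, mul_one]
    · unfold tr3_ind
      simp only [Finset.singleton_subset_iff]
    · intro l hl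
      have h2 := Finset.ne_of_mem_erase hl
      have h3 := Finset.ne_of_mem_erase (Finset.mem_of_mem_erase hl)
      rw [if_neg h3, if_neg h2, if_pos (Finset.empty_subset _)]
  have e2 : ∑ l, (if l = j then ({p} : Finset {p // p ∈ w.P}) else if l = j' then {p} else ∅).card = 2 := by
    rw [← Finset.add_sum_erase univ _ (Finset.mem_univ j), if_pos rfl,
      ← Finset.add_sum_erase (univ.erase j) _
        (Finset.mem_erase.mpr ⟨hjj.symm, Finset.mem_univ j'⟩), if_neg hjj.symm, if_pos rfl]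
    rw [Finset.sum_eq_zero]
    · simp
    · intro l hl
      have h2 := Finset.ne_of_mem_erase hl
      have h3 := Finset.ne_of_mem_erase (Finset.mem_of_mem_erase hl)
      rw [if_neg h3, if_neg h2, card_empty]
  have e3 : ∏ l, ∏ p' ∈ (if l = j then ({p} : Finset {p // p ∈ w.P}) else if l = j' then {p} else ∅),
      qq w.P K p' = qq w.P K p ^ 2 := by
    rw [← Finset.mul_prod_erase univ _ (Finset.mem_univ j), if_pos rfl,
      ← Finset.mul_prod_erase (univ.erase j) _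
        (Finset.mem_erase.mpr ⟨hjj.symm, Finset.mem_univ j'⟩), if_neg hjj.symm, if_pos rfl,
      prod_singleton]
    rw [Finset.prod_eq_one, mul_one, pow_two]
    intro l hl
    have h2 := Finset.ne_of_mem_erase hl
    have h3 := Finset.ne_of_mem_erase (Finset.mem_of_mem_erase hl)
    rw [if_neg h3, if_neg h2, prod_empty]
  rw [e1, e2, e3] at h
  exact h


/-- `loss ≤ ∑_{j ≠ j'} ∑_p 1[p ∈ S j] 1[p ∈ S j'] + ∑_j ∑_p (2K/p) 1[p ∈ S j]`; `EX_tilt` (two sets
`{p}`, resp. one), `qq ≤ 2/p` (`qq_le`), `∑ 1/p^2 ≤ 1/W` (`sum_inv_sq_le`): at most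
`K^2 CL Dt^2 4/W + K CL Dt 4 K/W ≤ 8 K^2 CL Dt^2/W`. -/
theorem Par.EX_loss (w : Par K) (hJ : Fintype.card J = K) :
    EX (qq w.P K) (fun S : J → Finset {p // p ∈ w.P} => w.L S ^ 2 * loss w.P K S)
      ≤ 8 * (K : ℝ) ^ 2 * w.CL * w.Dt ^ 2 / w.W := by
  classical
  have hK1 : (1 : ℝ) ≤ K := by exact_mod_cast w.Kpos
  have hW1 : 1 ≤ w.W := by
    have h1 := w.KW
    have h2 := w.Kpos
    nlinarith
  have hWr : (1 : ℝ) ≤ w.W := by exact_mod_cast hW1
  have hCL : 0 ≤ w.CL := by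
    unfold Par.CL
    positivity
  have hDt : 1 ≤ w.Dt := w.Dt1
  have hp0 : ∀ i : {p // p ∈ w.P}, (0 : ℝ) < i.1 := fun i => by
    exact_mod_cast (w.prime i.1 i.2).pos
  have hq0 : ∀ i, 0 ≤ qq w.P K i := w.good.q0
  have hq2 : ∀ i, qq w.P K i ≤ 2 / (i.1 : ℝ) := qq_le w.P w.W K w.Kpos w.KW w.big
  have hsq : ∑ i : {p // p ∈ w.P}, 1 / ((i.1 : ℕ) : ℝ) ^ 2 ≤ 1 / (w.W : ℝ) := by
    have h1 := sum_inv_sq_le w.P w.W hW1 w.big
    have h2 : ∑ i : {p // p ∈ w.P}, 1 / ((i.1 : ℕ) : ℝ) ^ 2 = ∑ p ∈ w.P, 1 / (p : ℝ) ^ 2 :=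
      Finset.sum_coe_sort w.P (fun p => 1 / (p : ℝ) ^ 2)
    rw [h2]
    exact h1
  -- pointwise bound
  have hpt : ∀ S : J → Finset {p // p ∈ w.P}, w.L S ^ 2 * loss w.P K S ≤
      (∑ j : J, ∑ j' : J, ∑ i : {p // p ∈ w.P},
        w.L S ^ 2 * (if j = j' then 0 else tr3_ind S (j, i) * tr3_ind S (j', i))) +
      (∑ j : J, ∑ i : {p // p ∈ w.P}, 2 * (K : ℝ) / (i.1 : ℝ) *
        (w.L S ^ 2 * (if i ∈ S j then 1 else 0))) := by
    intro S
    unfold loss
    rw [mul_add]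
    refine add_le_add ?_ (le_of_eq ?_)
    · simp only [← Finset.mul_sum]
      refine mul_le_mul_of_nonneg_left ?_ (sq_nonneg _)
      have hn : ∀ (j j' : J) (i : {p // p ∈ w.P}),
          0 ≤ (if j = j' then (0 : ℝ) else tr3_ind S (j, i) * tr3_ind S (j', i)) := by
        intro j j' i
        unfold tr3_ind
        split_ifs <;> norm_num
      by_cases h : ∃ j j', j ≠ j' ∧ ¬ Disjoint (S j) (S j')
      · rw [if_pos h]
        obtain ⟨j, j', hjj, hd⟩ := h
        rw [Finset.not_disjoint_iff] at hd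
        obtain ⟨i, hi, hi'⟩ := hd
        have f1 : (1 : ℝ) = (if j = j' then (0 : ℝ) else tr3_ind S (j, i) * tr3_ind S (j', i)) := by
          rw [if_neg hjj]
          unfold tr3_ind
          simp [hi, hi']
        rw [f1]
        refine le_trans ?_ (Finset.single_le_sum
          (f := fun j : J => ∑ j' : J, ∑ i : {p // p ∈ w.P},
            (if j = j' then (0 : ℝ) else tr3_ind S (j, i) * tr3_ind S (j', i)))
          (fun a _ => Finset.sum_nonneg fun a' _ => Finset.sum_nonneg fun i _ => hn a a' i)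
          (Finset.mem_univ j))
        refine le_trans ?_ (Finset.single_le_sum
          (f := fun j' : J => ∑ i : {p // p ∈ w.P},
            (if j = j' then (0 : ℝ) else tr3_ind S (j, i) * tr3_ind S (j', i)))
          (fun a' _ => Finset.sum_nonneg fun i _ => hn j a' i)
          (Finset.mem_univ j'))
        exact Finset.single_le_sum
          (f := fun i : {p // p ∈ w.P} =>
            (if j = j' then (0 : ℝ) else tr3_ind S (j, i) * tr3_ind S (j', i)))
          (fun i _ => hn j j' i) (Finset.mem_univ i)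
      · rw [if_neg h]
        exact Finset.sum_nonneg fun a _ => Finset.sum_nonneg fun a' _ =>
          Finset.sum_nonneg fun i _ => hn a a' i
    · rw [Finset.mul_sum]
      refine Finset.sum_congr rfl fun j _ => ?_
      have h1 : ∑ p ∈ S j, 2 * (K : ℝ) / (p.1 : ℝ) =
          ∑ p : {p // p ∈ w.P}, 2 * (K : ℝ) / (p.1 : ℝ) * (if p ∈ S j then 1 else 0) := by
        simp only [mul_ite, mul_one, mul_zero]
        rw [Finset.sum_ite_mem, Finset.univ_inter]
      rw [h1, Finset.mul_sum]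
      exact Finset.sum_congr rfl fun i _ => by ring
  refine (EX_mono _ w.good.q0 w.good.q1 _ _ hpt).trans ?_
  rw [B3_EX_add]
  have hA : EX (qq w.P K) (fun S : J → Finset {p // p ∈ w.P} =>
      ∑ j : J, ∑ j' : J, ∑ i : {p // p ∈ w.P},
        w.L S ^ 2 * (if j = j' then 0 else tr3_ind S (j, i) * tr3_ind S (j', i))) ≤
      4 * (K : ℝ) ^ 2 * w.CL * w.Dt ^ 2 / w.W := by
    rw [EX_sum]
    have h1 : ∀ j j' : J, EX (qq w.P K) (fun S : J → Finset {p // p ∈ w.P} =>
        ∑ i : {p // p ∈ w.P},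
        w.L S ^ 2 * (if j = j' then 0 else tr3_ind S (j, i) * tr3_ind S (j', i))) ≤
        4 * w.CL * w.Dt ^ 2 / w.W := by
      intro j j'
      rw [EX_sum]
      have h2 : ∀ i : {p // p ∈ w.P}, EX (qq w.P K) (fun S : J → Finset {p // p ∈ w.P} =>
          w.L S ^ 2 * (if j = j' then 0 else tr3_ind S (j, i) * tr3_ind S (j', i))) ≤
          4 * w.CL * w.Dt ^ 2 * (1 / ((i.1 : ℕ) : ℝ) ^ 2) := by
        intro i
        by_cases hjj : j = j'
        · have e : (fun S : J → Finset {p // p ∈ w.P} =>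
              w.L S ^ 2 * (if j = j' then 0 else tr3_ind S (j, i) * tr3_ind S (j', i))) =
              fun S => 0 * (1 : ℝ) := by
            funext S
            rw [if_pos hjj, mul_zero, zero_mul]
          rw [e, EX_const_mul, zero_mul]
          positivity
        · have e : (fun S : J → Finset {p // p ∈ w.P} =>
              w.L S ^ 2 * (if j = j' then 0 else tr3_ind S (j, i) * tr3_ind S (j', i))) =
              fun S => w.L S ^ 2 * (tr3_ind S (j, i) * tr3_ind S (j', i)) := by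
            funext S
            rw [if_neg hjj]
          rw [e]
          refine (B3_pair w hJ i j j' hjj).trans ?_
          have h3 : qq w.P K i ^ 2 ≤ 4 * (1 / ((i.1 : ℕ) : ℝ) ^ 2) := by
            refine (pow_le_pow_left₀ (hq0 i) (hq2 i) 2).trans (le_of_eq ?_)
            rw [div_pow]
            ring
          have h4 : 0 ≤ w.CL * w.Dt ^ 2 := by positivity
          nlinarith [mul_le_mul_of_nonneg_left h3 h4]
      refine (Finset.sum_le_sum fun i _ => h2 i).trans ?_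
      rw [← Finset.mul_sum]
      have h4 : 0 ≤ 4 * w.CL * w.Dt ^ 2 := by positivity
      refine (mul_le_mul_of_nonneg_left hsq h4).trans (le_of_eq ?_)
      ring
    have h5 : ∀ j : J, EX (qq w.P K) (fun S : J → Finset {p // p ∈ w.P} =>
        ∑ j' : J, ∑ i : {p // p ∈ w.P},
        w.L S ^ 2 * (if j = j' then 0 else tr3_ind S (j, i) * tr3_ind S (j', i))) ≤
        K * (4 * w.CL * w.Dt ^ 2 / w.W) := by
      intro j
      rw [EX_sum]
      refine (Finset.sum_le_sum fun j' _ => h1 j j').trans (le_of_eq ?_)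
      rw [Finset.sum_const, Finset.card_univ, hJ, nsmul_eq_mul]
    refine (Finset.sum_le_sum fun j _ => h5 j).trans (le_of_eq ?_)
    rw [Finset.sum_const, Finset.card_univ, hJ, nsmul_eq_mul]
    ring
  have hB : EX (qq w.P K) (fun S : J → Finset {p // p ∈ w.P} =>
      ∑ j : J, ∑ i : {p // p ∈ w.P}, 2 * (K : ℝ) / (i.1 : ℝ) *
        (w.L S ^ 2 * (if i ∈ S j then 1 else 0))) ≤
      4 * (K : ℝ) ^ 2 * w.CL * w.Dt / w.W := by
    rw [EX_sum]
    have h1 : ∀ j : J, EX (qq w.P K) (fun S : J → Finset {p // p ∈ w.P} =>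
        ∑ i : {p // p ∈ w.P}, 2 * (K : ℝ) / (i.1 : ℝ) *
        (w.L S ^ 2 * (if i ∈ S j then 1 else 0))) ≤ 4 * K * w.CL * w.Dt / w.W := by
      intro j
      rw [EX_sum]
      have h2 : ∀ i : {p // p ∈ w.P}, EX (qq w.P K) (fun S : J → Finset {p // p ∈ w.P} =>
          2 * (K : ℝ) / (i.1 : ℝ) * (w.L S ^ 2 * (if i ∈ S j then 1 else 0))) ≤
          4 * K * w.CL * w.Dt * (1 / ((i.1 : ℕ) : ℝ) ^ 2) := by
        intro i
        rw [EX_const_mul]
        have h3 := B3_single w hJ i j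
        have h4 : w.CL * w.Dt * qq w.P K i ≤ w.CL * w.Dt * (2 / (i.1 : ℝ)) :=
          mul_le_mul_of_nonneg_left (hq2 i) (by positivity)
        have h5 : (0 : ℝ) ≤ 2 * (K : ℝ) / (i.1 : ℝ) := by
          have := hp0 i
          positivity
        refine (mul_le_mul_of_nonneg_left (h3.trans h4) h5).trans (le_of_eq ?_)
        have := (hp0 i).ne'
        field_simp
        ring
      refine (Finset.sum_le_sum fun i _ => h2 i).trans ?_
      rw [← Finset.mul_sum]
      have h4 : 0 ≤ 4 * K * w.CL * w.Dt := by positivity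
      refine (mul_le_mul_of_nonneg_left hsq h4).trans (le_of_eq ?_)
      ring
    refine (Finset.sum_le_sum fun j _ => h1 j).trans (le_of_eq ?_)
    rw [Finset.sum_const, Finset.card_univ, hJ, nsmul_eq_mul]
    ring
  have hB' : 4 * (K : ℝ) ^ 2 * w.CL * w.Dt / w.W ≤ 4 * (K : ℝ) ^ 2 * w.CL * w.Dt ^ 2 / w.W := by
    refine div_le_div_of_nonneg_right ?_ (by positivity)
    refine mul_le_mul_of_nonneg_left ?_ (by positivity)
    nlinarith
  refine (add_le_add hA (hB.trans hB')).trans (le_of_eq ?_)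
  ring

end Pool.Agent.Lib.H57M
end

-- from Lib.H57M.B2
section

/-!
# Chunk B2: the fourth moment for a bounded number of forms
-/

open Finset

namespace Pool.Agent.Lib.H57M

open Pool.Agent.Lib.H15P Pool.Agent.Lib.H92G

/-- Copy of the proof of `EX_LG_four_le` (`H92G/G2.lean`), stopping at the product
`(1 + ((|I|+1)^4 - 1) h)^|B|` with `B = univ`; and `1 + (a - 1) h ≤ a (1 + h)` for `a ≥ 1`. -/
theorem EX_LG_four_le2 {ι J I : Type} [Fintype ι] [DecidableEq ι] [Fintype J] [DecidableEq J]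
    [Fintype I] [DecidableEq I] (q : ι → ℝ) (D : J → I → Finset ι → ℝ) (h : ℝ)
    (hg : GoodJ q D h) (hh : 0 ≤ h) (m : I → ℕ) :
    EX q (fun S : J → Finset ι => LG D m univ S ^ 4)
      ≤ (((Fintype.card I : ℝ) + 1) ^ 4 * (1 + h)) ^ Fintype.card J := by
  classical
  obtain ⟨B, hB⟩ : ∃ B : Finset J, B = univ := ⟨_, rfl⟩
  rw [← hB]
  set E : (Fin 4 → Option I) → ℝ := fun o => if o = (fun _ => none) then 1 else h with hE
  have hE0 : ∀ o, 0 ≤ E o := by
    intro o
    simp only [hE]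
    split_ifs
    · exact zero_le_one
    · exact hh
  have h4 : ∀ S : J → Finset ι, LG D m B S ^ 4 =
      ∑ x ∈ Fintype.piFinset (fun _ : Fin 4 => adm B m), ∏ j, ∏ k, dg D j (x k j) (S j) := by
    intro S
    have e1 : LG D m B S ^ 4 = ∏ _k : Fin 4, ∑ l ∈ adm B m, ∏ j, dg D j (l j) (S j) := by
      rw [Finset.prod_const, Finset.card_univ, Fintype.card_fin]
      unfold LG LW
      simp only [one_mul]
    rw [e1, Finset.prod_univ_sum]
    refine Finset.sum_congr rfl (fun x _ => ?_)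
    rw [Finset.prod_comm]
  have h5 : EX q (fun S : J → Finset ι => LG D m B S ^ 4) =
      ∑ x ∈ Fintype.piFinset (fun _ : Fin 4 => adm B m),
        ∏ j, ex q (fun A => ∏ k, dg D j (x k j) A) := by
    have e2 : (fun S : J → Finset ι => LG D m B S ^ 4) = (fun S : J → Finset ι =>
        ∑ x ∈ Fintype.piFinset (fun _ : Fin 4 => adm B m), ∏ j, ∏ k, dg D j (x k j) (S j)) :=
      funext h4
    rw [e2, EX_sum]
    refine Finset.sum_congr rfl (fun x _ => ?_)
    exact EX_prod q (fun j A => ∏ k, dg D j (x k j) A)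
  have h6 : ∀ (j : J) (o : Fin 4 → Option I), |ex q (fun A => ∏ k, dg D j (o k) A)| ≤ E o := by
    intro j o
    by_cases ho : o = (fun _ => none)
    · subst ho
      simp only [hE, if_true, dg, Finset.prod_const_one]
      rw [ex_one, abs_one]
    · have ho' : ∃ k, o k ≠ none := by
        by_contra hcon
        push Not at hcon
        exact ho (funext hcon)
      simp only [hE, if_neg ho]
      exact abs_ex_four_leJ q D h hg hh j o ho'
  have hinj : Function.Injective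
      (fun (x : Fin 4 → J → Option I) (j : J) (k : Fin 4) => x k j) := by
    intro x y hxy
    funext k j
    exact congrFun (congrFun hxy j) k
  have hcard : ∑ ω, E ω ≤ 1 + ((Fintype.card I : ℝ) + 1) ^ 4 * h := by
    rw [← Finset.add_sum_erase univ E (Finset.mem_univ (fun _ => none))]
    have e3 : E (fun _ => none) = 1 := by simp only [hE, if_true]
    have e4 : ∑ ω ∈ univ.erase (fun _ : Fin 4 => (none : Option I)), E ω
        = ∑ ω ∈ univ.erase (fun _ : Fin 4 => (none : Option I)), h := by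
      refine Finset.sum_congr rfl (fun ω hω => ?_)
      simp only [hE, if_neg (Finset.ne_of_mem_erase hω)]
    rw [e3, e4, Finset.sum_const, nsmul_eq_mul]
    have e5 : ((univ.erase (fun _ : Fin 4 => (none : Option I))).card : ℝ)
        ≤ ((Fintype.card I : ℝ) + 1) ^ 4 := by
      have : (univ.erase (fun _ : Fin 4 => (none : Option I))).card
          ≤ (Fintype.card I + 1) ^ 4 := by
        refine (Finset.card_erase_le).trans ?_
        rw [Finset.card_univ, Fintype.card_fun, Fintype.card_option, Fintype.card_fin]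
      exact_mod_cast this
    have := mul_le_mul_of_nonneg_right e5 hh
    linarith
  rw [h5]
  calc ∑ x ∈ Fintype.piFinset (fun _ : Fin 4 => adm B m),
        ∏ j, ex q (fun A => ∏ k, dg D j (x k j) A)
      ≤ ∑ x ∈ Fintype.piFinset (fun _ : Fin 4 => adm B m), ∏ j, E (fun k => x k j) := by
        apply Finset.sum_le_sum
        intro x _
        refine (le_abs_self _).trans ?_
        rw [Finset.abs_prod]
        exact Finset.prod_le_prod (fun j _ => abs_nonneg _) (fun j _ => h6 j _)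
    _ = ∑ y ∈ (Fintype.piFinset (fun _ : Fin 4 => adm B m)).image
          (fun (x : Fin 4 → J → Option I) (j : J) (k : Fin 4) => x k j), ∏ j, E (y j) := by
        rw [Finset.sum_image (fun a _ b _ hab => hinj hab)]
    _ ≤ ∑ y ∈ univ.filter (fun y : J → (Fin 4 → Option I) => ∀ j, j ∉ B → y j = fun _ => none),
          ∏ j, E (y j) := by
        apply Finset.sum_le_sum_of_subset_of_nonneg
        · intro y hy
          obtain ⟨x, hx, rfl⟩ := Finset.mem_image.1 hy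
          refine Finset.mem_filter.2 ⟨Finset.mem_univ _, ?_⟩
          intro j hj
          funext k
          have h7 := (Fintype.mem_piFinset.1 hx) k
          unfold adm at h7
          exact (Finset.mem_filter.1 h7).2.1 j hj
        · intro y _ _
          exact Finset.prod_nonneg (fun j _ => hE0 _)
    _ = (∑ ω, E ω) ^ B.card :=
        sum_supp (fun _ : Fin 4 => (none : Option I)) E (by simp only [hE, if_true]) B
    _ ≤ (((Fintype.card I : ℝ) + 1) ^ 4 * (1 + h)) ^ B.card := by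
        apply pow_le_pow_left₀ (Finset.sum_nonneg (fun ω _ => hE0 ω))
        refine hcard.trans ?_
        have h8 : (1 : ℝ) ≤ ((Fintype.card I : ℝ) + 1) ^ 4 := by
          apply one_le_pow₀
          have : (0 : ℝ) ≤ (Fintype.card I : ℝ) := Nat.cast_nonneg _
          linarith
        nlinarith
    _ = (((Fintype.card I : ℝ) + 1) ^ 4 * (1 + h)) ^ Fintype.card J := by
        rw [hB, Finset.card_univ]

end Pool.Agent.Lib.H57M
end

-- from Lib.H57M.B8
section

/-!
# Chunk B8: the weight in intervals and residue classes: upper bounds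
-/

open Finset

namespace Pool.Agent.Lib.H57M

open Pool.Agent.Lib.H15P Pool.Agent.Lib.H92G

variable {K : ℕ} {J : Type} [Fintype J] [DecidableEq J]

theorem B8_sq (w : Par K) (i : Fin w.n) :
    0 ≤ ex (qq w.P K) (fun A => w.D i A ^ 2) ∧ ex (qq w.P K) (fun A => w.D i A ^ 2) ≤ w.s i := by
  refine ⟨ex_nonneg _ w.good.q0 w.good.q1 _ fun A => sq_nonneg _, ?_⟩
  have h := w.tilt i ∅
  simpa using h

theorem Par.z_bounds (w : Par K) : 1 ≤ w.z ∧ w.z ≤ 2 := by
  unfold Par.z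
  have h1 : 0 ≤ ∑ i, ex (qq w.P K) (fun A => w.D i A ^ 2) :=
    Finset.sum_nonneg fun i _ => (B8_sq w i).1
  have h2 : ∑ i, ex (qq w.P K) (fun A => w.D i A ^ 2) ≤ ∑ i, w.s i :=
    Finset.sum_le_sum fun i _ => (B8_sq w i).2
  have h3 := w.hs
  constructor <;> linarith

omit [DecidableEq J] in
theorem B8_ZG (w : Par K) (hJ : Fintype.card J = K) :
    ZG (qq w.P K) (fun _ : J => w.D) univ = w.z ^ K := by
  unfold ZG Par.z GJ
  rw [Finset.prod_const, Finset.card_univ, hJ]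

theorem B8_Qpos (w : Par K) : 0 < ∏ p ∈ w.P, p :=
  Finset.prod_pos fun p hp => (w.prime p hp).pos

theorem B8_exp (w : Par K) (hKW : 200 * K ^ 2 ≤ w.W) :
    Real.exp (2 * (K : ℝ) ^ 2 / w.W) ≤ 11 / 10 := by
  have hK : (1 : ℝ) ≤ K := by exact_mod_cast w.Kpos
  have hKW' : 200 * (K : ℝ) ^ 2 ≤ w.W := by exact_mod_cast hKW
  have hW : (0 : ℝ) < w.W := by nlinarith
  have h1 : 2 * (K : ℝ) ^ 2 / w.W ≤ 1 / 100 := by
    rw [div_le_iff₀ hW]
    linarith
  refine (Real.exp_le_exp.2 h1).trans ?_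
  have h2 := Real.exp_bound' (x := 1 / 100) (by norm_num) (by norm_num) (n := 1) (by norm_num)
  norm_num [Finset.sum_range_succ] at h2
  linarith

/-- `Lev.avg` and `EP_le`. -/
theorem B8_avg (w : Par K) (M : ℕ) (b : J → ℕ) (hF : Forms w.P w.W K M b)
    (F : (J → Finset {p // p ∈ w.P}) → ℝ) (h0 : ∀ S, 0 ≤ F S) (L : ℝ)
    (hL : Lev (∏ p ∈ w.P, p) (fun t => F (fun j => hit w.P (b j + M * t))) L) (Y : ℕ) :
    ∑ t ∈ range Y, F (fun j => hit w.P (b j + M * t)) ≤
      Y * (Real.exp (2 * (K : ℝ) ^ 2 / w.W) * EX (qq w.P K) F) + 2 * L := by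
  have h1 := Lev.avg (B8_Qpos w) hL 0 Y
  rw [zero_add, ← Finset.range_eq_Ico] at h1
  have h2 : EP w.P M b F ≤ Real.exp (2 * (K : ℝ) ^ 2 / w.W) * EX (qq w.P K) F :=
    EP_le w.P w.W K M _ hF F h0
  have h3 := mul_le_mul_of_nonneg_left h2 (Nat.cast_nonneg Y : (0 : ℝ) ≤ Y)
  have h4 : |∑ t ∈ range Y, F (fun j => hit w.P (b j + M * t)) - Y * EP w.P M b F| ≤ 2 * L := h1
  rw [abs_le] at h4
  linarith [h4.2]

theorem B8_lev (w : Par K) (hJ : Fintype.card J = K) (M : ℕ) (b : J → ℕ) (k : ℕ) :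
    Lev (∏ p ∈ w.P, p) (fun t => w.L (fun j => hit w.P (b j + M * t)) ^ k) (w.lv ^ k) :=
  Lev.pow (B8_Qpos w) (w.lev J M b hJ) k


/-- `Lev.avg` for `L^4`, `EP_le`, `EX_LG_four_le2`. -/
theorem Par.four_le (w : Par K) (hJ : Fintype.card J = K) (M : ℕ) (b : J → ℕ)
    (hF : Forms w.P w.W K M b) (hKW : 200 * K ^ 2 ≤ w.W) (Y : ℕ) :
    ∑ t ∈ range Y, w.L (fun j => hit w.P (b j + M * t)) ^ 4 ≤
      2 * (((w.n : ℝ) + 1) ^ 4 * (1 + w.h)) ^ K * Y + 2 * w.lv ^ 4 := by
  have h1 := B8_avg w M b hF (fun S => w.L S ^ 4) (fun S => by positivity) _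
    (B8_lev w hJ M b 4) Y
  have h2 : EX (qq w.P K) (fun S : J → Finset {p // p ∈ w.P} => w.L S ^ 4) ≤
      (((w.n : ℝ) + 1) ^ 4 * (1 + w.h)) ^ K := by
    have h := EX_LG_four_le2 (qq w.P K) (fun _ : J => w.D) w.h (w.goodJ J) w.h0 w.m
    rw [Fintype.card_fin, hJ] at h
    exact h
  have h3 : 0 ≤ EX (qq w.P K) (fun S : J → Finset {p // p ∈ w.P} => w.L S ^ 4) :=
    EX_nonneg _ w.good.q0 w.good.q1 _ fun S => by positivity
  have h4 : Real.exp (2 * (K : ℝ) ^ 2 / w.W) *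
      EX (qq w.P K) (fun S : J → Finset {p // p ∈ w.P} => w.L S ^ 4) ≤
      2 * (((w.n : ℝ) + 1) ^ 4 * (1 + w.h)) ^ K :=
    mul_le_mul ((B8_exp w hKW).trans (by norm_num)) h2 h3 (by norm_num)
  have h5 := mul_le_mul_of_nonneg_left h4 (Nat.cast_nonneg Y : (0 : ℝ) ≤ Y)
  linarith






end Pool.Agent.Lib.H57M
end

-- from Lib.H57C.V5
section

/-!
# Chunk V5: level of distribution of the integers
-/

open Finset

namespace Pool.Agent.Lib.H57C

theorem v5_count (y1 y2 R v : ℕ) (hR : 0 < R) (h : y1 ≤ y2) :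
    |(((Ioc y1 y2).filter (fun t => t ≡ v [MOD R])).card : ℝ) - ((y2 : ℝ) - y1) / R| ≤ 1 := by
  have h1 := Nat.Ioc_filter_modEq_card y1 y2 hR v
  have hR' : (0 : ℝ) < R := by exact_mod_cast hR
  have hRq : (0 : ℚ) < R := by exact_mod_cast hR
  have hAB : ⌊((y1 : ℚ) - v) / R⌋ ≤ ⌊((y2 : ℚ) - v) / R⌋ := by
    apply Int.floor_le_floor
    have : (y1 : ℚ) ≤ y2 := by exact_mod_cast h
    gcongr
  rw [max_eq_left (by linarith)] at h1
  have h2 : (((Ioc y1 y2).filter (fun t => t ≡ v [MOD R])).card : ℝ) =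
      (⌊((y2 : ℚ) - v) / R⌋ : ℝ) - (⌊((y1 : ℚ) - v) / R⌋ : ℝ) := by
    exact_mod_cast h1
  have a1 : (⌊((y2 : ℚ) - v) / R⌋ : ℝ) ≤ ((y2 : ℝ) - v) / R := by
    have := Int.floor_le (((y2 : ℚ) - v) / R)
    exact_mod_cast this
  have a2 : ((y2 : ℝ) - v) / R < (⌊((y2 : ℚ) - v) / R⌋ : ℝ) + 1 := by
    have := Int.lt_floor_add_one (((y2 : ℚ) - v) / R)
    exact_mod_cast this
  have b1 : (⌊((y1 : ℚ) - v) / R⌋ : ℝ) ≤ ((y1 : ℝ) - v) / R := by
    have := Int.floor_le (((y1 : ℚ) - v) / R)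
    exact_mod_cast this
  have b2 : ((y1 : ℝ) - v) / R < (⌊((y1 : ℚ) - v) / R⌋ : ℝ) + 1 := by
    have := Int.lt_floor_add_one (((y1 : ℚ) - v) / R)
    exact_mod_cast this
  have e : ((y2 : ℝ) - y1) / R = ((y2 : ℝ) - v) / R - ((y1 : ℝ) - v) / R := by ring
  rw [h2, e, abs_le]
  constructor <;> linarith

theorem v5_omega (E m : ℕ) (hm : Squarefree m) :
    (E : ℝ) ^ m.primeFactors.card ≤ (E + 1 : ℝ) ^ ((E + 1) ^ 10) * (m : ℝ) ^ (1 / 10 : ℝ) := by
  have hE : (E : ℝ) ≤ E + 1 := by linarith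
  have hE1 : (1 : ℝ) ≤ (E : ℝ) + 1 := by
    have : (0 : ℝ) ≤ E := Nat.cast_nonneg _
    linarith
  have hpr : (m : ℝ) = ∏ p ∈ m.primeFactors, (p : ℝ) := by
    have := Nat.prod_primeFactors_of_squarefree hm
    conv_lhs => rw [← this]
    push_cast
    rfl
  calc (E : ℝ) ^ m.primeFactors.card ≤ (E + 1 : ℝ) ^ m.primeFactors.card :=
        pow_le_pow_left₀ (Nat.cast_nonneg _) hE _
    _ = ∏ p ∈ m.primeFactors, (E + 1 : ℝ) := by rw [Finset.prod_const]
    _ ≤ ∏ p ∈ m.primeFactors, ((if p < (E + 1) ^ 10 then (E + 1 : ℝ) else 1) * (p : ℝ) ^ (1 / 10 : ℝ)) := by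
        refine Finset.prod_le_prod (fun p _ => by linarith) fun p hp => ?_
        have hp1 : 1 ≤ p := (Nat.prime_of_mem_primeFactors hp).one_lt.le
        have hp1' : (1 : ℝ) ≤ p := by exact_mod_cast hp1
        split_ifs with h
        · refine le_mul_of_one_le_right (by linarith) ?_
          exact Real.one_le_rpow hp1' (by norm_num)
        · rw [one_mul]
          rw [not_lt] at h
          have h' : ((E : ℝ) + 1) ^ (10 : ℕ) ≤ p := by exact_mod_cast h
          calc (E : ℝ) + 1 = ((((E : ℝ) + 1) ^ (10 : ℕ))) ^ (1 / 10 : ℝ) := by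
                rw [← Real.rpow_natCast, ← Real.rpow_mul (by linarith)]
                norm_num
            _ ≤ (p : ℝ) ^ (1 / 10 : ℝ) := Real.rpow_le_rpow (by positivity) h' (by norm_num)
    _ = (∏ p ∈ m.primeFactors, (if p < (E + 1) ^ 10 then (E + 1 : ℝ) else 1)) *
          (m : ℝ) ^ (1 / 10 : ℝ) := by
        rw [Finset.prod_mul_distrib, Real.finset_prod_rpow _ _ (fun p _ => Nat.cast_nonneg _), ← hpr]
    _ ≤ (E + 1 : ℝ) ^ ((E + 1) ^ 10) * (m : ℝ) ^ (1 / 10 : ℝ) := by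
        refine mul_le_mul_of_nonneg_right ?_ (by positivity)
        rw [← Finset.prod_filter, Finset.prod_const]
        refine pow_le_pow_right₀ hE1 ?_
        calc (m.primeFactors.filter (fun p => p < (E + 1) ^ 10)).card ≤
              (Finset.range ((E + 1) ^ 10)).card := Finset.card_le_card (fun p hp => by
                rw [Finset.mem_range]
                exact (Finset.mem_filter.1 hp).2)
          _ = (E + 1) ^ 10 := Finset.card_range _

theorem v5_large (A : ℕ) (C : ℝ) (hC : 0 < C) : ∃ n0 : ℕ, ∀ n : ℕ, n0 ≤ n →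
    C * (n : ℝ) ^ (11 / 20 : ℝ) ≤ n / Real.log n ^ A := by
  have h := isLittleO_log_rpow_rpow_atTop (A : ℝ) (show (0 : ℝ) < 9 / 20 by norm_num)
  have h1 := (h.bound (show (0 : ℝ) < 1 / C by positivity))
  have h2 := tendsto_natCast_atTop_atTop (R := ℝ) |>.eventually h1
  obtain ⟨n1, hn1⟩ := Filter.eventually_atTop.1 h2
  refine ⟨max n1 3, fun n hn => ?_⟩
  have h3 := hn1 n (le_trans (le_max_left _ _) hn)
  have hn3 : 3 ≤ n := le_trans (le_max_right _ _) hn
  have hn3' : (3 : ℝ) ≤ n := by exact_mod_cast hn3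
  have hn0 : (0 : ℝ) < n := by linarith
  have hlog : 0 < Real.log n := Real.log_pos (by linarith)
  rw [Real.rpow_natCast, Real.norm_of_nonneg (by positivity), Real.norm_of_nonneg (by positivity)] at h3
  rw [le_div_iff₀ (by positivity)]
  calc C * (n : ℝ) ^ (11 / 20 : ℝ) * Real.log n ^ A ≤
        C * (n : ℝ) ^ (11 / 20 : ℝ) * (1 / C * (n : ℝ) ^ (9 / 20 : ℝ)) :=
        mul_le_mul_of_nonneg_left h3 (by positivity)
    _ = (n : ℝ) ^ (11 / 20 : ℝ) * (n : ℝ) ^ (9 / 20 : ℝ) := by field_simp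
    _ = n := by
        rw [← Real.rpow_add hn0]
        norm_num

/-- Proof. `rr m = 1`: the `t ∈ (y1, y2]` with `t ≡ N [MOD r]` and `t ≡ c [MOD m]`, `(m, r) = 1` (`r = 1`, or `r = p1` prime,
`p1 ∤ m`), are the `t` of one class modulo `r m` (`Nat.chineseRemainder`), their number differs from `(y2 - y1)/(r m)` by less
than `1` (`Nat.Ioc_filter_modEq_card` or `Int.Ioc_filter_modEq_card`). `∑_{m ≤ √n} E^ω(m) ≤ n^(3/4)` for large `n`
(`E^ω(m) ≤ C_E m^(1/10)`, or `E^ω(m) ≤ τ(m)^e`), at most `n/L^A`. -/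
theorem lvlI (A E : ℕ) : ∃ n0 : ℕ, ∀ n : ℕ, n0 ≤ n → ∀ p1 N r y1 y2 : ℕ, p1.Prime →
    (r = 1 ∨ r = p1) → y1 ≤ y2 →
      Lvl (sI N r y1 y2) p1 ⌊Real.sqrt n⌋₊ E (n / Real.log n ^ A) := by
  have hC : (0 : ℝ) < (E + 1 : ℝ) ^ ((E + 1) ^ 10) := by positivity
  obtain ⟨n1, hn1⟩ := v5_large A _ hC
  refine ⟨max n1 3, fun n hn p1 N r y1 y2 hp1 hr hy => ?_⟩
  have h1 := hn1 n (le_trans (le_max_left _ _) hn)
  have hr0 : 0 < r := by
    rcases hr with rfl | rfl
    · norm_num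
    · exact hp1.pos
  refine ⟨fun _ => 1, fun _ => zero_le_one, ?_, ?_⟩
  · intro m hm hmD hpm c _
    have hm0 : 0 < m := Nat.pos_of_ne_zero hm.ne_zero
    have hcop : Nat.Coprime r m := by
      rcases hr with rfl | rfl
      · exact Nat.coprime_one_left m
      · exact (Nat.Prime.coprime_iff_not_dvd hp1).2 hpm
    obtain ⟨v, hv1, hv2⟩ := Nat.chineseRemainder hcop N c
    have hset : ((Ioc y1 y2).filter (fun t => t ≡ N [MOD r])).filter (fun t => t ≡ c [MOD m]) =
        (Ioc y1 y2).filter (fun t => t ≡ v [MOD (r * m)]) := by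
      rw [Finset.filter_filter]
      refine Finset.filter_congr fun t _ => ?_
      rw [← Nat.modEq_and_modEq_iff_modEq_mul hcop]
      constructor
      · rintro ⟨h1, h2⟩
        exact ⟨h1.trans hv1.symm, h2.trans hv2.symm⟩
      · rintro ⟨h1, h2⟩
        exact ⟨h1.trans hv1, h2.trans hv2⟩
    have hpr : (m : ℝ) = ∏ p ∈ m.primeFactors, (p : ℝ) := by
      have := Nat.prod_primeFactors_of_squarefree hm
      conv_lhs => rw [← this]
      push_cast
      rfl
    have h2 := v5_count y1 y2 (r * m) v (Nat.mul_pos hr0 hm0) hy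
    have e1 : ∑ i ∈ (sI N r y1 y2).S.filter (fun i => (sI N r y1 y2).x i ≡ c [MOD m]),
        (sI N r y1 y2).wt i = (((Ioc y1 y2).filter (fun t => t ≡ v [MOD (r * m)])).card : ℝ) := by
      simp only [sI]
      rw [hset]
      simp
    have e2 : (sI N r y1 y2).X * ∏ q ∈ m.primeFactors, (sI N r y1 y2).hd q =
        ((y2 : ℝ) - y1) / ((r * m : ℕ) : ℝ) := by
      simp only [sI]
      rw [Finset.prod_div_distrib, ← hpr]
      push_cast
      simp only [Finset.prod_const_one]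
      field_simp
    rw [e1, e2]
    exact h2
  · have hD : ((⌊Real.sqrt n⌋₊ : ℕ) : ℝ) ≤ Real.sqrt n := Nat.floor_le (Real.sqrt_nonneg _)
    calc ∑ m ∈ (Icc 1 ⌊Real.sqrt n⌋₊).filter (fun m => Squarefree m ∧ ¬ p1 ∣ m),
          (E : ℝ) ^ m.primeFactors.card * 1
        ≤ ∑ m ∈ (Icc 1 ⌊Real.sqrt n⌋₊).filter (fun m => Squarefree m ∧ ¬ p1 ∣ m),
          (E + 1 : ℝ) ^ ((E + 1) ^ 10) * (Real.sqrt n) ^ (1 / 10 : ℝ) := by
          refine Finset.sum_le_sum fun m hm => ?_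
          rw [Finset.mem_filter, Finset.mem_Icc] at hm
          rw [mul_one]
          refine (v5_omega E m hm.2.1).trans (mul_le_mul_of_nonneg_left ?_ hC.le)
          refine Real.rpow_le_rpow (Nat.cast_nonneg _) ?_ (by norm_num)
          exact le_trans (by exact_mod_cast hm.1.2) hD
      _ = (((Icc 1 ⌊Real.sqrt n⌋₊).filter (fun m => Squarefree m ∧ ¬ p1 ∣ m)).card : ℝ) *
          ((E + 1 : ℝ) ^ ((E + 1) ^ 10) * (Real.sqrt n) ^ (1 / 10 : ℝ)) := by
          rw [Finset.sum_const, nsmul_eq_mul]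
      _ ≤ Real.sqrt n * ((E + 1 : ℝ) ^ ((E + 1) ^ 10) * (Real.sqrt n) ^ (1 / 10 : ℝ)) := by
          refine mul_le_mul_of_nonneg_right ?_ (by positivity)
          refine le_trans ?_ hD
          have : ((Icc 1 ⌊Real.sqrt n⌋₊).filter (fun m => Squarefree m ∧ ¬ p1 ∣ m)).card ≤
              ⌊Real.sqrt n⌋₊ := by
            refine (Finset.card_filter_le _ _).trans ?_
            simp
          exact_mod_cast this
      _ = (E + 1 : ℝ) ^ ((E + 1) ^ 10) * (n : ℝ) ^ (11 / 20 : ℝ) := by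
          have hn0 : (0 : ℝ) ≤ n := Nat.cast_nonneg _
          have e3 : Real.sqrt n * (Real.sqrt n) ^ (1 / 10 : ℝ) = (n : ℝ) ^ (11 / 20 : ℝ) := by
            rw [Real.sqrt_eq_rpow, ← Real.rpow_mul hn0, ← Real.rpow_add_of_nonneg hn0 (by norm_num) (by norm_num)]
            norm_num
          rw [← e3]
          ring
      _ ≤ _ := h1

end Pool.Agent.Lib.H57C
end
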