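import Pool.Agent.Lib.H1M.RV3.M035
import Pool.Agent.Lib.H1M.RV3.M036
import Pool.Agent.Lib.H1M.RV3.M047
import Pool.Agent.Lib.H1M.RV3.M048

/-! Merged copies (to shorten the build) of Lib.H59C.BV2, Lib.H59C.CR1, Lib.H59C.CR, Lib.H59C.CBR, Lib.H59C.CS1, Lib.H59C.CBS. -/

-- from Lib.H59C.BV2
section

/-!
# BV2: the theorem of Bombieri and Vinogradov
-/

open Finset

namespace Pool.Agent.Lib.H59C

open Pool.Agent.Lib.H68T (PC p0 e)

/-- sizes of logarithms -/
theorem bv2_large (K : ℝ) (m : ℕ) : ∃ n0 : ℕ, ∀ n : ℕ, n0 ≤ n →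
    K ≤ Real.log n ∧ K * Real.log n ^ m ≤ (n : ℝ) ^ (1 / 20 : ℝ) := by
  have h1 : Filter.Tendsto (fun n : ℕ => Real.log (n : ℝ)) Filter.atTop Filter.atTop :=
    Real.tendsto_log_atTop.comp tendsto_natCast_atTop_atTop
  have h2 := (isLittleO_log_rpow_rpow_atTop (m : ℝ) (by norm_num : (0 : ℝ) < 1 / 20)).def
    (by positivity : 0 < 1 / (|K| + 1))
  have h3 := tendsto_natCast_atTop_atTop (R := ℝ) |>.eventually h2
  have h4 := (h1.eventually_ge_atTop (max K 0)).and (h3.and (Filter.eventually_ge_atTop 1))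
  obtain ⟨n0, hn0⟩ := Filter.eventually_atTop.1 h4
  refine ⟨n0, fun n hn => ?_⟩
  obtain ⟨g1, g2, g3⟩ := hn0 n hn
  have hL : 0 ≤ Real.log n := (le_max_right _ _).trans g1
  refine ⟨(le_max_left _ _).trans g1, ?_⟩
  rw [Real.rpow_natCast, Real.norm_of_nonneg (by positivity), Real.norm_of_nonneg (by positivity)]
    at g2
  have h5 : |K| * (1 / (|K| + 1) * (n : ℝ) ^ (1 / 20 : ℝ)) ≤ (n : ℝ) ^ (1 / 20 : ℝ) := by
    have h6 : |K| * (1 / (|K| + 1)) ≤ 1 := by
      rw [mul_one_div, div_le_one (by positivity)]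
      linarith [abs_nonneg K]
    rw [← mul_assoc]
    calc |K| * (1 / (|K| + 1)) * (n : ℝ) ^ (1 / 20 : ℝ) ≤ 1 * (n : ℝ) ^ (1 / 20 : ℝ) :=
          mul_le_mul_of_nonneg_right h6 (by positivity)
      _ = _ := one_mul _
  calc K * Real.log n ^ m ≤ |K| * Real.log n ^ m :=
        mul_le_mul_of_nonneg_right (le_abs_self K) (by positivity)
    _ ≤ |K| * (1 / (|K| + 1) * (n : ℝ) ^ (1 / 20 : ℝ)) :=
        mul_le_mul_of_nonneg_left g2 (abs_nonneg K)
    _ ≤ _ := h5

/-- the numbers in the main case -/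
theorem bv2_num (A : ℕ) {C₁ C₂ C₃ K L s : ℝ} (hC₁ : 0 < C₁) (hC₂ : 0 < C₂) (hC₃ : 0 < C₃)
    (hK : K = 10240 * (C₁ * C₃ + C₁ + C₂ + 1)) (hL : K ≤ L) (hs : K * L ^ (A + 12) ≤ s) :
    C₁ * L * (8 * s ^ 20 / L ^ (A + 10) + C₃ * (2 * L) ^ 7 * (16 * s ^ 20 / L ^ (A + 10) +
      8 * s ^ 19 + 3 * s ^ 20 / L ^ (A + 12))) +
      C₂ * (2 * L) ^ 2 * (3 * s ^ 20 / L ^ (A + 12)) ≤ s ^ 20 / L ^ A ∧
    2 * C₁ * (s ^ 20 / L ^ (A + 4)) * L ^ 2 + s ^ 10 * L ≤ s ^ 20 / L ^ A := by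
  have h13 : 0 < C₁ * C₃ := by positivity
  have hK1 : 10240 ≤ K := by rw [hK]; nlinarith
  have hK0 : 0 < K := by linarith
  have hL0 : 0 < L := by linarith
  have hL1 : 1 ≤ L := by linarith
  have hs1 : 1 ≤ s := by
    refine le_trans ?_ hs
    have : 1 ≤ L ^ (A + 12) := one_le_pow₀ hL1
    nlinarith
  have hs0 : 0 < s := by linarith
  obtain ⟨P, hP⟩ : ∃ P : ℝ, P = s ^ 20 / L ^ A := ⟨_, rfl⟩
  have hP0 : 0 < P := by rw [hP]; positivity
  have hdiv : ∀ j : ℕ, s ^ 20 / L ^ (A + j) = P * (1 / L) ^ j := by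
    intro j
    rw [hP, pow_add, one_div, inv_pow]
    field_simp
  have hu : 1 / L ≤ 1 / K := one_div_le_one_div_of_le hK0 hL
  have hu0 : 0 < 1 / L := by positivity
  have hu1 : 1 / L ≤ 1 := by rw [div_le_one hL0]; exact hL1
  have hpow : ∀ j : ℕ, 1 ≤ j → (1 / L) ^ j ≤ 1 / K := by
    intro j hj
    calc (1 / L) ^ j ≤ (1 / L) ^ 1 := pow_le_pow_of_le_one hu0.le hu1 hj
      _ = 1 / L := pow_one _
      _ ≤ 1 / K := hu
  have hs19 : s ^ 19 * L ^ 12 ≤ P * (1 / K) := by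
    have e1 : P = s ^ 19 * s / L ^ A := by rw [hP, ← pow_succ]
    rw [e1, mul_one_div, le_div_iff₀ hK0, le_div_iff₀ (by positivity)]
    have e2 : s ^ 19 * L ^ 12 * K * L ^ A = s ^ 19 * (K * L ^ (A + 12)) := by
      rw [pow_add]
      ring
    rw [e2]
    exact mul_le_mul_of_nonneg_left hs (by positivity)
  have hPK : P / K * K = P := by field_simp
  constructor
  · have e1 : 8 * s ^ 20 / L ^ (A + 10) = 8 * (P * (1 / L) ^ 10) := by rw [mul_div_assoc, hdiv]
    have e2 : 16 * s ^ 20 / L ^ (A + 10) = 16 * (P * (1 / L) ^ 10) := by rw [mul_div_assoc, hdiv]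
    have e3 : 3 * s ^ 20 / L ^ (A + 12) = 3 * (P * (1 / L) ^ 12) := by rw [mul_div_assoc, hdiv]
    rw [e1, e2, e3, ← hP]
    have e4 : C₁ * L * (8 * (P * (1 / L) ^ 10) + C₃ * (2 * L) ^ 7 * (16 * (P * (1 / L) ^ 10) +
        8 * s ^ 19 + 3 * (P * (1 / L) ^ 12))) + C₂ * (2 * L) ^ 2 * (3 * (P * (1 / L) ^ 12)) =
        8 * C₁ * P * (1 / L) ^ 9 + 2048 * (C₁ * C₃) * P * (1 / L) ^ 2 +
        1024 * (C₁ * C₃) * (s ^ 19 * L ^ 8) + 384 * (C₁ * C₃) * P * (1 / L) ^ 4 +
        12 * C₂ * P * (1 / L) ^ 10 := by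
      field_simp
      ring
    rw [e4]
    have t1 : 8 * C₁ * P * (1 / L) ^ 9 ≤ 8 * C₁ * P * (1 / K) :=
      mul_le_mul_of_nonneg_left (hpow 9 (by norm_num)) (by positivity)
    have t2 : 2048 * (C₁ * C₃) * P * (1 / L) ^ 2 ≤ 2048 * (C₁ * C₃) * P * (1 / K) :=
      mul_le_mul_of_nonneg_left (hpow 2 (by norm_num)) (by positivity)
    have t3 : 1024 * (C₁ * C₃) * (s ^ 19 * L ^ 8) ≤ 1024 * (C₁ * C₃) * (P * (1 / K)) := by
      apply mul_le_mul_of_nonneg_left _ (by positivity)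
      refine le_trans ?_ hs19
      apply mul_le_mul_of_nonneg_left _ (by positivity)
      exact pow_le_pow_right₀ hL1 (by norm_num)
    have t4 : 384 * (C₁ * C₃) * P * (1 / L) ^ 4 ≤ 384 * (C₁ * C₃) * P * (1 / K) :=
      mul_le_mul_of_nonneg_left (hpow 4 (by norm_num)) (by positivity)
    have t5 : 12 * C₂ * P * (1 / L) ^ 10 ≤ 12 * C₂ * P * (1 / K) :=
      mul_le_mul_of_nonneg_left (hpow 10 (by norm_num)) (by positivity)
    have t6 : 8 * C₁ * P * (1 / K) + 2048 * (C₁ * C₃) * P * (1 / K) +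
        1024 * (C₁ * C₃) * (P * (1 / K)) + 384 * (C₁ * C₃) * P * (1 / K) +
        12 * C₂ * P * (1 / K) = P / K * (8 * C₁ + 3456 * (C₁ * C₃) + 12 * C₂) := by
      field_simp
      ring
    have t7 : P / K * (8 * C₁ + 3456 * (C₁ * C₃) + 12 * C₂) ≤ P / K * K := by
      apply mul_le_mul_of_nonneg_left _ (by positivity)
      rw [hK]
      nlinarith
    linarith
  · rw [hdiv, ← hP]
    have e1 : 2 * C₁ * (P * (1 / L) ^ 4) * L ^ 2 = 2 * C₁ * P * (1 / L) ^ 2 := by
      field_simp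
    rw [e1]
    have t1 : 2 * C₁ * P * (1 / L) ^ 2 ≤ 2 * C₁ * P * (1 / K) :=
      mul_le_mul_of_nonneg_left (hpow 2 (by norm_num)) (by positivity)
    have t2 : s ^ 10 * L ≤ P * (1 / K) := by
      refine le_trans ?_ hs19
      apply mul_le_mul
      · exact pow_le_pow_right₀ hs1 (by norm_num)
      · calc L = L ^ 1 := (pow_one L).symm
          _ ≤ L ^ 12 := pow_le_pow_right₀ hL1 (by norm_num)
      · positivity
      · positivity
    have t3 : 2 * C₁ * P * (1 / K) + P * (1 / K) = P / K * (2 * C₁ + 1) := by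
      field_simp
    have t4 : P / K * (2 * C₁ + 1) ≤ P / K * K := by
      apply mul_le_mul_of_nonneg_left _ (by positivity)
      rw [hK]
      nlinarith
    linarith

/-- at most `φ(r)` primitive characters for each modulus -/
theorem bv2_count (R : ℕ) : ∑ p ∈ PC R, 1 / (Nat.totient p.1 : ℝ) ≤ R := by
  classical
  have hmaps : ∀ p ∈ PC R, p.1 ∈ Icc 1 R := by
    intro p hp
    have := H68T.mem_PC.mp hp
    rw [mem_Icc]
    exact ⟨this.1, this.2.1⟩
  rw [← sum_fiberwise_of_maps_to hmaps]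
  have key : ∀ r ∈ Icc 1 R, ∑ p ∈ (PC R).filter (fun p => p.1 = r),
      1 / (Nat.totient p.1 : ℝ) ≤ 1 := by
    intro r hr
    rw [mem_Icc] at hr
    have hne : NeZero r := ⟨by omega⟩
    have hfin : Fintype (DirichletCharacter ℂ r) := Fintype.ofFinite _
    have h1 : ((PC R).filter (fun p => p.1 = r)) ⊆
        (univ : Finset (DirichletCharacter ℂ r)).map (Function.Embedding.sigmaMk r) := by
      intro p hp
      rw [mem_filter] at hp
      obtain ⟨-, hp⟩ := hp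
      obtain ⟨r', ψ⟩ := p
      subst hp
      simp
    have h2 := card_le_card h1
    rw [card_map, card_univ] at h2
    have h3 := DirichletCharacter.card_eq_totient_of_hasEnoughRootsOfUnity ℂ r
    rw [Nat.card_eq_fintype_card] at h3
    rw [h3] at h2
    have h4 : (0 : ℝ) < Nat.totient r := by exact_mod_cast Nat.totient_pos.2 (by omega)
    have h5 : ∑ p ∈ (PC R).filter (fun p => p.1 = r), 1 / (Nat.totient p.1 : ℝ) =
        (((PC R).filter (fun p => p.1 = r)).card : ℝ) * (1 / (Nat.totient r : ℝ)) := by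
      rw [sum_congr rfl (g := fun _ => 1 / (Nat.totient r : ℝ)), sum_const, nsmul_eq_mul]
      intro p hp
      rw [(mem_filter.1 hp).2]
    rw [h5, mul_one_div, div_le_one h4]
    exact_mod_cast h2
  refine (sum_le_sum key).trans ?_
  rw [sum_const, Nat.card_Icc, nsmul_eq_mul]
  simp

/-- the number of integers in a progression -/
theorem bv2_card (y d a : ℕ) (hd : 1 ≤ d) :
    (((Icc 1 y).filter fun q => q ≡ a [MOD d]).card : ℝ) ≤ y / d + 1 := by
  have h1 : Icc 1 y = Ioc 0 y := by ext x; simp [Nat.succ_le_iff]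
  have h2 := Nat.Ioc_filter_modEq_card 0 y (r := d) (by omega) a
  rw [h1]
  have h3 : (⌊((y : ℚ) - (a : ℚ)) / (d : ℚ)⌋ : ℚ) ≤ ((y : ℚ) - a) / d := Int.floor_le _
  have h4 : (((0 : ℕ) : ℚ) - (a : ℚ)) / (d : ℚ) < ⌊(((0 : ℕ) : ℚ) - (a : ℚ)) / (d : ℚ)⌋ + 1 :=
    Int.lt_floor_add_one _
  have hd' : (0 : ℚ) < d := by exact_mod_cast hd
  have h5 : (((Ioc 0 y).filter fun q => q ≡ a [MOD d]).card : ℚ) ≤ y / d + 1 := by
    have h6 : (((Ioc 0 y).filter fun q => q ≡ a [MOD d]).card : ℚ) =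
        ((((Ioc 0 y).filter fun q => q ≡ a [MOD d]).card : ℤ) : ℚ) := by push_cast; rfl
    rw [h6, h2, Int.cast_max]
    apply max_le
    · push_cast at h4 ⊢
      have h7 : ((y : ℚ) - a) / d = y / d - a / d := sub_div _ _ _
      have h8 : ((0 : ℚ) - a) / d = - (a / d) := by rw [zero_sub, neg_div]
      rw [h8] at h4
      rw [h8]
      linarith
    · push_cast
      positivity
  have h9 := (Rat.cast_le (K := ℝ)).2 h5
  push_cast at h9
  exact h9

theorem bv2_thp_nonneg (y d a : ℕ) : 0 ≤ thp y d a := by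
  apply sum_nonneg
  intro q hq
  rw [mem_filter, mem_Icc] at hq
  exact Real.log_natCast_nonneg q

theorem bv2_th_nonneg (y : ℕ) : 0 ≤ th y := by
  apply sum_nonneg
  intro q hq
  exact Real.log_natCast_nonneg q

theorem bv2_th_le (y : ℕ) : th y ≤ y * Real.log y := by
  have h1 : ∀ q ∈ (Icc 1 y).filter Nat.Prime, Real.log q ≤ Real.log y := by
    intro q hq
    rw [mem_filter, mem_Icc] at hq
    exact Real.log_le_log (by exact_mod_cast hq.1.1) (by exact_mod_cast hq.1.2)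
  refine (sum_le_sum h1).trans ?_
  rw [sum_const, nsmul_eq_mul]
  apply mul_le_mul_of_nonneg_right _ (Real.log_natCast_nonneg y)
  have h2 : ((Icc 1 y).filter Nat.Prime).card ≤ y := by
    refine (card_filter_le _ _).trans ?_
    rw [Nat.card_Icc]
    omega
  exact_mod_cast h2

theorem bv2_thp_le (y d a : ℕ) (hd : 1 ≤ d) : thp y d a ≤ (y / d + 1) * Real.log y := by
  have h1 : ∀ q ∈ (Icc 1 y).filter (fun q => q.Prime ∧ q ≡ a [MOD d]),
      Real.log q ≤ Real.log y := by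
    intro q hq
    rw [mem_filter, mem_Icc] at hq
    exact Real.log_le_log (by exact_mod_cast hq.1.1) (by exact_mod_cast hq.1.2)
  refine (sum_le_sum h1).trans ?_
  rw [sum_const, nsmul_eq_mul]
  apply mul_le_mul_of_nonneg_right _ (Real.log_natCast_nonneg y)
  refine le_trans ?_ (bv2_card y d a hd)
  have h2 : ((Icc 1 y).filter (fun q => q.Prime ∧ q ≡ a [MOD d])).card ≤
      ((Icc 1 y).filter fun q => q ≡ a [MOD d]).card :=
    card_le_card (monotone_filter_right _ fun q _ hq => hq.2)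
  exact_mod_cast h2

/-- the trivial bound -/
theorem bv2_triv (y d a : ℕ) (hd : 1 ≤ d) :
    |thp y d a - th y / (Nat.totient d : ℝ)| ≤
      2 * (y * Real.log y) * (1 / (Nat.totient d : ℝ)) + Real.log y := by
  have h1 := bv2_thp_le y d a hd
  have h2 := bv2_th_le y
  have h3 := bv2_thp_nonneg y d a
  have h4 := bv2_th_nonneg y
  have h5 : (0 : ℝ) < Nat.totient d := by exact_mod_cast Nat.totient_pos.2 (by omega)
  have h6 : (Nat.totient d : ℝ) ≤ d := by exact_mod_cast Nat.totient_le d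
  have hl : 0 ≤ Real.log y := Real.log_natCast_nonneg y
  have h7 : th y / (Nat.totient d : ℝ) ≤ (y * Real.log y) * (1 / (Nat.totient d : ℝ)) := by
    rw [mul_one_div]
    exact div_le_div_of_nonneg_right h2 h5.le
  have h8 : ((y : ℝ) / d + 1) * Real.log y ≤
      (y * Real.log y) * (1 / (Nat.totient d : ℝ)) + Real.log y := by
    have h9 : (y : ℝ) / d ≤ y / (Nat.totient d : ℝ) :=
      div_le_div_of_nonneg_left (by positivity) h5 h6
    have h10 : (y : ℝ) / d * Real.log y ≤ y / (Nat.totient d : ℝ) * Real.log y :=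
      mul_le_mul_of_nonneg_right h9 hl
    have h11 : (y * Real.log y) * (1 / (Nat.totient d : ℝ)) =
        y / (Nat.totient d : ℝ) * Real.log y := by ring
    rw [h11]
    linarith
  have h12 : 0 ≤ th y / (Nat.totient d : ℝ) := by positivity
  rw [abs_le]
  constructor
  · have : 0 ≤ (y * Real.log y) * (1 / (Nat.totient d : ℝ)) := by positivity
    linarith
  · have : 0 ≤ (y * Real.log y) * (1 / (Nat.totient d : ℝ)) := by positivity
    linarith

open Classical in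
/-- **Bombieri-Vinogradov**, moduli not divisible by `p1`, one class.

Proof. `D = DD n B`, `L = log n`. If `y ≤ n/L^(A+4)`: trivial bound `thp y d a ≤ (y/d + 1) log y`,
`th y ≤ 2 y`, so (`sum_inv_totient`) the sum is `≤ C (y L² + D L)`, fine. Otherwise `D ≤ y`: `prog_le`,
`exchange` with `F k p = ‖psi y p‖`, `sum_inv_totient` (a factor `C L`), and split the conductors at
`R0 = ⌊L^(A + 10)⌋`. Conductors `≤ R0`: `SWp A' n p1` with `A' = 2A + 20` gives at most
`∑_{r ≤ R0} φ(r)/φ(r) · y/L^A' ≤ 8 n L^(-A-10)` (at most `φ(r)` primitive characters mod `r`). Conductors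
`> R0`: `psi_sum` with `Q = D` (`D² ≤ n/L^(2B) ≤ y` if `2B ≥ A + 4`):
`C L^7 (8 n/R0 + (8n)^(19/20) + 3 D √n)`. The error `C √y L²` of `prog_le` contributes at most
`3 C D √n (2L)²`. Take `B = A + 12`. -/
theorem bv (A : ℕ) : ∃ A' B n0 : ℕ, ∀ n : ℕ, n0 ≤ n → ∀ p1 : ℕ, SWp A' n p1 →
    ∀ a y : ℕ, y ≤ 8 * n →
    ∑ d ∈ (Icc 1 (DD n B)).filter (fun d => a.Coprime d ∧ ¬ p1 ∣ d),
      |thp y d a - th y / (Nat.totient d : ℝ)| ≤ n / Real.log n ^ A := by
  obtain ⟨C₁, hC₁, h1⟩ := sum_inv_totient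
  obtain ⟨C₂, hC₂, h2⟩ := prog_le
  obtain ⟨C₃, hC₃, h3⟩ := psi_sum
  obtain ⟨K, hK⟩ : ∃ K : ℝ, K = 10240 * (C₁ * C₃ + C₁ + C₂ + 1) := ⟨_, rfl⟩
  have hK1 : 10240 ≤ K := by
    have : 0 < C₁ * C₃ := by positivity
    rw [hK]
    nlinarith
  obtain ⟨n0, hn0⟩ := bv2_large K (A + 12)
  refine ⟨2 * A + 20, A + 12, max n0 8, fun n hn p1 hSW a y hy => ?_⟩
  obtain ⟨hL, hLs⟩ := hn0 n ((le_max_left _ _).trans hn)
  have hn8 : 8 ≤ n := (le_max_right _ _).trans hn
  have hnR : (8 : ℝ) ≤ n := by exact_mod_cast hn8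
  have hn0' : (0 : ℝ) < n := by linarith
  obtain ⟨L, hLdef⟩ : ∃ L : ℝ, L = Real.log n := ⟨_, rfl⟩
  obtain ⟨s, hsdef⟩ : ∃ s : ℝ, s = (n : ℝ) ^ (1 / 20 : ℝ) := ⟨_, rfl⟩
  rw [← hLdef] at hL hLs ⊢
  rw [← hsdef] at hLs
  have hL1 : 1 ≤ L := by linarith
  have hL0 : 0 < L := by linarith
  have hs20 : s ^ 20 = n := by
    rw [hsdef, ← Real.rpow_natCast, ← Real.rpow_mul hn0'.le]
    norm_num
  have hLpow : ∀ j : ℕ, j ≤ A + 12 → L ^ j ≤ s := by
    intro j hj
    calc L ^ j ≤ L ^ (A + 12) := pow_le_pow_right₀ hL1 hj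
      _ = 1 * L ^ (A + 12) := (one_mul _).symm
      _ ≤ K * L ^ (A + 12) := mul_le_mul_of_nonneg_right (by linarith) (by positivity)
      _ ≤ s := hLs
  have hs1 : 1 ≤ s := by
    have := hLpow 0 (by omega)
    simpa using this
  have hs0 : 0 < s := by linarith
  have hsqrt : Real.sqrt n = s ^ 10 := by
    rw [← hs20, show (20 : ℕ) = 10 * 2 by norm_num, pow_mul]
    exact Real.sqrt_sq (by positivity)
  obtain ⟨hnum1, hnum2⟩ := bv2_num A hC₁ hC₂ hC₃ hK hL hLs
  rw [hs20] at hnum1 hnum2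
  -- the level
  obtain ⟨D, hD⟩ : ∃ D : ℕ, D = DD n (A + 12) := ⟨_, rfl⟩
  rw [← hD]
  have hDle : (D : ℝ) ≤ s ^ 10 / L ^ (A + 12) := by
    rw [hD, DD, ← hLdef, hsqrt]
    exact Nat.floor_le (by positivity)
  have hDs : (D : ℝ) ≤ s ^ 10 := by
    refine hDle.trans ?_
    rw [div_le_iff₀ (by positivity)]
    have : 1 ≤ L ^ (A + 12) := one_le_pow₀ hL1
    have h5 : 0 < s ^ 10 := by positivity
    nlinarith
  have hD2 : 2 ≤ D := by
    rw [hD, DD, ← hLdef, hsqrt]
    apply Nat.le_floor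
    push_cast
    rw [le_div_iff₀ (by positivity)]
    have e1 : 2 * L ^ (A + 12) ≤ K * L ^ (A + 12) :=
      mul_le_mul_of_nonneg_right (by linarith) (by positivity)
    calc 2 * L ^ (A + 12) ≤ s := e1.trans hLs
      _ = s ^ 1 := (pow_one s).symm
      _ ≤ s ^ 10 := pow_le_pow_right₀ hs1 (by norm_num)
  have hDR : (2 : ℝ) ≤ D := by exact_mod_cast hD2
  have hlogD : Real.log D ≤ L := by
    rw [hLdef]
    apply Real.log_le_log (by linarith)
    refine hDs.trans ?_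
    rw [← hs20]
    exact pow_le_pow_right₀ hs1 (by norm_num)
  have hlogD0 : 0 ≤ Real.log D := Real.log_nonneg (by linarith)
  have hphi : ∑ k ∈ Icc 1 D, 1 / (Nat.totient k : ℝ) ≤ C₁ * L :=
    (h1 D hD2).trans (mul_le_mul_of_nonneg_left hlogD hC₁.le)
  have hsub : ∑ d ∈ (Icc 1 D).filter (fun d => a.Coprime d ∧ ¬ p1 ∣ d), 1 / (Nat.totient d : ℝ) ≤
      C₁ * L := by
    refine le_trans ?_ hphi
    exact sum_le_sum_of_subset_of_nonneg (filter_subset _ _) fun _ _ _ => by positivity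
  have hcard : (((Icc 1 D).filter (fun d => a.Coprime d ∧ ¬ p1 ∣ d)).card : ℝ) ≤ D := by
    have : ((Icc 1 D).filter (fun d => a.Coprime d ∧ ¬ p1 ∣ d)).card ≤ D := by
      refine (card_filter_le _ _).trans ?_
      rw [Nat.card_Icc]
      omega
    exact_mod_cast this
  have hyR : (y : ℝ) ≤ 8 * n := by exact_mod_cast hy
  by_cases hcase : (y : ℝ) ≤ n / L ^ (A + 4)
  · -- small y
    have hyn : (y : ℝ) ≤ n := by
      refine hcase.trans ?_
      rw [div_le_iff₀ (by positivity)]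
      have : 1 ≤ L ^ (A + 4) := one_le_pow₀ hL1
      nlinarith
    have hlogy : Real.log y ≤ L := by
      rcases Nat.eq_zero_or_pos y with h0 | h0
      · rw [h0]
        simp [hL0.le]
      · rw [hLdef]
        exact Real.log_le_log (by exact_mod_cast h0) hyn
    have hly0 : 0 ≤ Real.log y := Real.log_natCast_nonneg y
    have e1 : ∑ d ∈ (Icc 1 D).filter (fun d => a.Coprime d ∧ ¬ p1 ∣ d),
        |thp y d a - th y / (Nat.totient d : ℝ)| ≤
        ∑ d ∈ (Icc 1 D).filter (fun d => a.Coprime d ∧ ¬ p1 ∣ d),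
          (2 * (y * Real.log y) * (1 / (Nat.totient d : ℝ)) + Real.log y) := by
      apply sum_le_sum
      intro d hd
      exact bv2_triv y d a (mem_Icc.1 (mem_filter.1 hd).1).1
    refine e1.trans ?_
    rw [sum_add_distrib, ← mul_sum, sum_const, nsmul_eq_mul]
    have e2 : 2 * (y * Real.log y) * ∑ d ∈ (Icc 1 D).filter (fun d => a.Coprime d ∧ ¬ p1 ∣ d),
        1 / (Nat.totient d : ℝ) ≤ 2 * C₁ * (n / L ^ (A + 4)) * L ^ 2 := by
      calc 2 * (y * Real.log y) * ∑ d ∈ (Icc 1 D).filter (fun d => a.Coprime d ∧ ¬ p1 ∣ d),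
          1 / (Nat.totient d : ℝ) ≤ 2 * (y * Real.log y) * (C₁ * L) :=
            mul_le_mul_of_nonneg_left hsub (by positivity)
        _ ≤ 2 * ((n / L ^ (A + 4)) * L) * (C₁ * L) := by
            apply mul_le_mul_of_nonneg_right _ (by positivity)
            apply mul_le_mul_of_nonneg_left _ (by norm_num)
            exact mul_le_mul hcase hlogy hly0 (by positivity)
        _ = _ := by ring
    have e3 : (((Icc 1 D).filter (fun d => a.Coprime d ∧ ¬ p1 ∣ d)).card : ℝ) * Real.log y ≤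
        s ^ 10 * L := mul_le_mul (hcard.trans hDs) hlogy hly0 (by positivity)
    linarith
  · -- large y
    push Not at hcase
    have hy19 : s ^ 19 < y := by
      refine lt_of_le_of_lt ?_ hcase
      rw [le_div_iff₀ (by positivity), ← hs20]
      calc s ^ 19 * L ^ (A + 4) ≤ s ^ 19 * s :=
            mul_le_mul_of_nonneg_left (hLpow _ (by omega)) (by positivity)
        _ = s ^ 20 := by ring
    have hs2 : 2 ≤ s := by
      have : K * 1 ≤ K * L ^ (A + 12) :=
        mul_le_mul_of_nonneg_left (one_le_pow₀ hL1) (by linarith)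
      linarith
    have hy2 : 2 ≤ y := by
      have : (2 : ℝ) ≤ y := by
        have e1 : s ^ 1 ≤ s ^ 19 := pow_le_pow_right₀ hs1 (by norm_num)
        rw [pow_one] at e1
        linarith
      exact_mod_cast this
    have hyR0 : (0 : ℝ) < y := lt_trans (by positivity) hy19
    have hDy : D ≤ y := by
      have : (D : ℝ) ≤ y := by
        have e1 : s ^ 10 ≤ s ^ 19 := pow_le_pow_right₀ hs1 (by norm_num)
        linarith
      exact_mod_cast this
    have hDD : D ^ 2 ≤ y := by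
      have e1 : (D : ℝ) ^ 2 ≤ n / L ^ (A + 4) := by
        calc (D : ℝ) ^ 2 ≤ (s ^ 10 / L ^ (A + 12)) ^ 2 :=
              pow_le_pow_left₀ (by positivity) hDle 2
          _ = s ^ 20 / (L ^ (A + 12)) ^ 2 := by rw [div_pow, ← pow_mul]
          _ ≤ s ^ 20 / L ^ (A + 4) := by
              apply div_le_div_of_nonneg_left (by positivity) (by positivity)
              rw [← pow_mul]
              exact pow_le_pow_right₀ hL1 (by omega)
          _ = n / L ^ (A + 4) := by rw [hs20]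
      have e2 : (D : ℝ) ^ 2 ≤ y := e1.trans hcase.le
      exact_mod_cast e2
    have hlogy : Real.log y ≤ 2 * L := by
      have e1 : Real.log y ≤ Real.log (8 * n) := Real.log_le_log hyR0 hyR
      rw [Real.log_mul (by norm_num) hn0'.ne', ← hLdef] at e1
      have e2 : Real.log 8 ≤ 8 := (Real.log_le_sub_one_of_pos (by norm_num)).trans (by norm_num)
      linarith
    have hly0 : 0 ≤ Real.log y := Real.log_natCast_nonneg y
    -- the sum over the primitive characters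
    obtain ⟨S, hS⟩ : ∃ S : ℝ, S = ∑ p ∈ (PC D).filter (fun p => p ≠ p0 ∧ ¬ p1 ∣ p.1),
      1 / (Nat.totient p.1 : ℝ) * ‖psi y p‖ := ⟨_, rfl⟩
    have hS0 : 0 ≤ S := by
      rw [hS]
      exact sum_nonneg fun _ _ => by positivity
    have hsqy : Real.sqrt y ≤ 3 * s ^ 10 := by
      rw [Real.sqrt_le_left (by positivity)]
      refine hyR.trans ?_
      rw [← hs20]
      have e1 : (3 * s ^ 10) ^ 2 = 9 * s ^ 20 := by ring
      rw [e1]
      have : 0 < s ^ 20 := by positivity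
      linarith
    have hmain : ∑ d ∈ (Icc 1 D).filter (fun d => a.Coprime d ∧ ¬ p1 ∣ d),
        |thp y d a - th y / (Nat.totient d : ℝ)| ≤
        C₁ * L * S + D * (C₂ * Real.sqrt y * Real.log y ^ 2) := by
      have e1 : ∑ d ∈ (Icc 1 D).filter (fun d => a.Coprime d ∧ ¬ p1 ∣ d),
          |thp y d a - th y / (Nat.totient d : ℝ)| ≤
          ∑ d ∈ (Icc 1 D).filter (fun d => a.Coprime d ∧ ¬ p1 ∣ d),
          (1 / (Nat.totient d : ℝ) * ∑ p ∈ (PC d).filter (fun p => p ≠ p0 ∧ p.1 ∣ d),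
            ‖psi y p‖ + C₂ * Real.sqrt y * Real.log y ^ 2) := by
        apply sum_le_sum
        intro d hd
        rw [mem_filter, mem_Icc] at hd
        exact h2 d a y hd.1.1 (hd.1.2.trans hDy) hd.2.1 hy2
      refine e1.trans ?_
      rw [sum_add_distrib, sum_const, nsmul_eq_mul]
      have e2 : ∑ d ∈ (Icc 1 D).filter (fun d => a.Coprime d ∧ ¬ p1 ∣ d),
          1 / (Nat.totient d : ℝ) * ∑ p ∈ (PC d).filter (fun p => p ≠ p0 ∧ p.1 ∣ d),
            ‖psi y p‖ ≤ C₁ * L * S := by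
        have e3 := exchange D p1 (fun _ p => ‖psi y p‖) (fun _ _ => norm_nonneg _)
        have e4 : ∑ d ∈ (Icc 1 D).filter (fun d => a.Coprime d ∧ ¬ p1 ∣ d),
            1 / (Nat.totient d : ℝ) * ∑ p ∈ (PC d).filter (fun p => p ≠ p0 ∧ p.1 ∣ d),
              ‖psi y p‖ ≤ ∑ d ∈ (Icc 1 D).filter (fun d => ¬ p1 ∣ d),
            1 / (Nat.totient d : ℝ) * ∑ p ∈ (PC d).filter (fun p => p ≠ p0 ∧ p.1 ∣ d),
              ‖psi y p‖ := by
          apply sum_le_sum_of_subset_of_nonneg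
          · exact monotone_filter_right _ fun d _ hd => hd.2
          · intro d _ _
            exact mul_nonneg (by positivity) (sum_nonneg fun _ _ => norm_nonneg _)
        refine e4.trans (e3.trans ?_)
        rw [← sum_mul, ← hS]
        exact mul_le_mul_of_nonneg_right hphi hS0
      have e5 : (((Icc 1 D).filter (fun d => a.Coprime d ∧ ¬ p1 ∣ d)).card : ℝ) *
          (C₂ * Real.sqrt y * Real.log y ^ 2) ≤ D * (C₂ * Real.sqrt y * Real.log y ^ 2) :=
        mul_le_mul_of_nonneg_right hcard (by positivity)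
      linarith
    -- splitting of S
    obtain ⟨R0, hR0⟩ : ∃ R0 : ℕ, R0 = ⌊L ^ (A + 10)⌋₊ := ⟨_, rfl⟩
    have hLp1 : 1 ≤ L ^ (A + 10) := one_le_pow₀ hL1
    have hR0le : (R0 : ℝ) ≤ L ^ (A + 10) := by
      rw [hR0]
      exact Nat.floor_le (by positivity)
    have hR01 : 1 ≤ R0 := by
      rw [hR0]
      exact Nat.le_floor (by simpa using hLp1)
    have hR0ge : L ^ (A + 10) / 2 ≤ R0 := by
      have e1 : L ^ (A + 10) < R0 + 1 := by
        rw [hR0]
        exact Nat.lt_floor_add_one _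
      have e2 : (1 : ℝ) ≤ R0 := by exact_mod_cast hR01
      linarith
    have hsmall : ∑ p ∈ ((PC D).filter (fun p => p ≠ p0 ∧ ¬ p1 ∣ p.1)).filter
        (fun p => ¬ R0 < p.1), 1 / (Nat.totient p.1 : ℝ) * ‖psi y p‖ ≤
        8 * n / L ^ (A + 10) := by
      have e1 : ∀ p ∈ ((PC D).filter (fun p => p ≠ p0 ∧ ¬ p1 ∣ p.1)).filter
          (fun p => ¬ R0 < p.1), 1 / (Nat.totient p.1 : ℝ) * ‖psi y p‖ ≤
          1 / (Nat.totient p.1 : ℝ) * (y / L ^ (2 * A + 20)) := by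
        intro p hp
        rw [mem_filter, mem_filter, not_lt] at hp
        apply mul_le_mul_of_nonneg_left _ (by positivity)
        have e2 := H68T.mem_PC.1 hp.1.1
        have e3 : p ∈ PC ⌊Real.log n ^ (2 * A + 20)⌋₊ := by
          refine H68T.mem_PC.2 ⟨e2.1, ?_, e2.2.2⟩
          rw [← hLdef]
          apply Nat.le_floor
          calc (p.1 : ℝ) ≤ R0 := by exact_mod_cast hp.2
            _ ≤ L ^ (A + 10) := hR0le
            _ ≤ L ^ (2 * A + 20) := pow_le_pow_right₀ hL1 (by omega)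
        have e4 := hSW p e3 hp.1.2.1 hp.1.2.2 y ?_ hy
        · rwa [← hLdef] at e4
        · have e5 : (n : ℝ) ^ (1 / 10 : ℝ) = s ^ 2 := by
            rw [hsdef, ← Real.rpow_natCast, ← Real.rpow_mul hn0'.le]
            norm_num
          rw [e5]
          have e6 : s ^ 2 ≤ s ^ 19 := pow_le_pow_right₀ hs1 (by norm_num)
          linarith
      refine (sum_le_sum e1).trans ?_
      rw [← sum_mul]
      have e2 : ∑ p ∈ ((PC D).filter (fun p => p ≠ p0 ∧ ¬ p1 ∣ p.1)).filter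
          (fun p => ¬ R0 < p.1), 1 / (Nat.totient p.1 : ℝ) ≤ L ^ (A + 10) := by
        refine le_trans ?_ ((bv2_count R0).trans hR0le)
        apply sum_le_sum_of_subset_of_nonneg
        · intro p hp
          rw [mem_filter, mem_filter, not_lt] at hp
          have e2 := H68T.mem_PC.1 hp.1.1
          exact H68T.mem_PC.2 ⟨e2.1, hp.2, e2.2.2⟩
        · intro _ _ _
          positivity
      calc (∑ p ∈ ((PC D).filter (fun p => p ≠ p0 ∧ ¬ p1 ∣ p.1)).filter
          (fun p => ¬ R0 < p.1), 1 / (Nat.totient p.1 : ℝ)) * (y / L ^ (2 * A + 20))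
          ≤ L ^ (A + 10) * (8 * n / L ^ (2 * A + 20)) :=
            mul_le_mul e2 (div_le_div_of_nonneg_right hyR (by positivity)) (by positivity)
              (by positivity)
        _ = 8 * n / L ^ (A + 10) := by
            rw [show 2 * A + 20 = (A + 10) + (A + 10) by ring, pow_add L (A + 10) (A + 10)]
            have h10 : L ^ (A + 10) ≠ 0 := by positivity
            rw [← mul_div_assoc, mul_comm (L ^ (A + 10)) (8 * (n : ℝ)),
              mul_div_mul_right _ _ h10]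
    have hlarge : ∑ p ∈ ((PC D).filter (fun p => p ≠ p0 ∧ ¬ p1 ∣ p.1)).filter
        (fun p => R0 < p.1), 1 / (Nat.totient p.1 : ℝ) * ‖psi y p‖ ≤
        C₃ * (2 * L) ^ 7 * (16 * n / L ^ (A + 10) + 8 * s ^ 19 + 3 * n / L ^ (A + 12)) := by
      have e1 := h3 R0 D y hR01 hDD hy2
      have e2 : ∑ p ∈ ((PC D).filter (fun p => p ≠ p0 ∧ ¬ p1 ∣ p.1)).filter
          (fun p => R0 < p.1), 1 / (Nat.totient p.1 : ℝ) * ‖psi y p‖ ≤
          ∑ p ∈ (PC D).filter (fun p => R0 < p.1), 1 / (Nat.totient p.1 : ℝ) * ‖psi y p‖ := by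
        apply sum_le_sum_of_subset_of_nonneg
        · intro p hp
          rw [mem_filter, mem_filter] at hp
          exact mem_filter.2 ⟨hp.1.1, hp.2⟩
        · intro _ _ _
          positivity
      refine e2.trans (e1.trans ?_)
      have hR0' : (0 : ℝ) < R0 := by exact_mod_cast hR01
      have e3 : (y : ℝ) / R0 ≤ 16 * n / L ^ (A + 10) := by
        calc (y : ℝ) / R0 ≤ (8 * n) / (L ^ (A + 10) / 2) :=
              div_le_div₀ (by positivity) hyR (by positivity) hR0ge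
          _ = 16 * n / L ^ (A + 10) := by rw [div_div_eq_mul_div]; ring
      have e4 : (y : ℝ) ^ (19 / 20 : ℝ) ≤ 8 * s ^ 19 := by
        calc (y : ℝ) ^ (19 / 20 : ℝ) ≤ (8 * n : ℝ) ^ (19 / 20 : ℝ) :=
              Real.rpow_le_rpow (by positivity) hyR (by norm_num)
          _ = (8 : ℝ) ^ (19 / 20 : ℝ) * (n : ℝ) ^ (19 / 20 : ℝ) :=
              Real.mul_rpow (by norm_num) hn0'.le
          _ ≤ 8 * s ^ 19 := by
              have e5 : (8 : ℝ) ^ (19 / 20 : ℝ) ≤ 8 := by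
                calc (8 : ℝ) ^ (19 / 20 : ℝ) ≤ (8 : ℝ) ^ (1 : ℝ) :=
                      Real.rpow_le_rpow_of_exponent_le (by norm_num) (by norm_num)
                  _ = 8 := Real.rpow_one _
              have e6 : (n : ℝ) ^ (19 / 20 : ℝ) = s ^ 19 := by
                rw [hsdef, ← Real.rpow_natCast, ← Real.rpow_mul hn0'.le]
                norm_num
              rw [e6]
              exact mul_le_mul_of_nonneg_right e5 (by positivity)
      have e7 : (D : ℝ) * Real.sqrt y ≤ 3 * n / L ^ (A + 12) := by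
        calc (D : ℝ) * Real.sqrt y ≤ (s ^ 10 / L ^ (A + 12)) * (3 * s ^ 10) :=
              mul_le_mul hDle hsqy (by positivity) (by positivity)
          _ = 3 * s ^ 20 / L ^ (A + 12) := by ring
          _ = 3 * n / L ^ (A + 12) := by rw [hs20]
      apply mul_le_mul _ (by linarith) (by positivity) (by positivity)
      apply mul_le_mul_of_nonneg_left _ hC₃.le
      exact pow_le_pow_left₀ hly0 hlogy 7
    have hSle : S ≤ 8 * n / L ^ (A + 10) +
        C₃ * (2 * L) ^ 7 * (16 * n / L ^ (A + 10) + 8 * s ^ 19 + 3 * n / L ^ (A + 12)) := by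
      rw [hS, ← sum_filter_add_sum_filter_not ((PC D).filter (fun p => p ≠ p0 ∧ ¬ p1 ∣ p.1))
        (fun p => R0 < p.1)]
      linarith
    have herr : (D : ℝ) * (C₂ * Real.sqrt y * Real.log y ^ 2) ≤
        C₂ * (2 * L) ^ 2 * (3 * n / L ^ (A + 12)) := by
      have e7 : (D : ℝ) * Real.sqrt y ≤ 3 * n / L ^ (A + 12) := by
        calc (D : ℝ) * Real.sqrt y ≤ (s ^ 10 / L ^ (A + 12)) * (3 * s ^ 10) :=
              mul_le_mul hDle hsqy (by positivity) (by positivity)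
          _ = 3 * s ^ 20 / L ^ (A + 12) := by ring
          _ = 3 * n / L ^ (A + 12) := by rw [hs20]
      have e8 : Real.log y ^ 2 ≤ (2 * L) ^ 2 := pow_le_pow_left₀ hly0 hlogy 2
      calc (D : ℝ) * (C₂ * Real.sqrt y * Real.log y ^ 2) =
          C₂ * Real.log y ^ 2 * (D * Real.sqrt y) := by ring
        _ ≤ C₂ * (2 * L) ^ 2 * (3 * n / L ^ (A + 12)) :=
            mul_le_mul (mul_le_mul_of_nonneg_left e8 hC₂.le) e7 (by positivity) (by positivity)
    have hfin : C₁ * L * S ≤ C₁ * L * (8 * n / L ^ (A + 10) +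
        C₃ * (2 * L) ^ 7 * (16 * n / L ^ (A + 10) + 8 * s ^ 19 + 3 * n / L ^ (A + 12))) :=
      mul_le_mul_of_nonneg_left hSle (by positivity)
    linarith

end Pool.Agent.Lib.H59C
end

-- from Lib.H59C.CR1
section

/-!
# CR1: the remainder terms for `|N - p|`
-/

open Finset

namespace Pool.Agent.Lib.H59C

theorem cr1_dvd (N p d : ℕ) : d ∣ Nat.dist N p ↔ p ≡ N [MOD d] := by
  unfold Nat.dist
  rcases le_total p N with h | h
  · rw [Nat.sub_eq_zero_of_le h, add_zero, Nat.modEq_iff_dvd' h]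
  · rw [Nat.sub_eq_zero_of_le h, zero_add, ← Nat.modEq_iff_dvd' h]
    exact ⟨fun h => h.symm, fun h => h.symm⟩

open Classical in
theorem cr1_sum {y1 y2 : ℕ} (h : y1 ≤ y2) (N d : ℕ) :
    ∑ p ∈ (Sq y1 y2).filter (fun p => d ∣ Nat.dist N p), lg p = thp y2 d N - thp y1 d N := by
  unfold thp Sq lg
  have h1 : (Icc 1 y2).filter (fun q => q.Prime ∧ q ≡ N [MOD d]) =
      (Icc 1 y1).filter (fun q => q.Prime ∧ q ≡ N [MOD d]) ∪
        ((Ioc y1 y2).filter Nat.Prime).filter (fun p => d ∣ Nat.dist N p) := by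
    ext q
    simp only [mem_filter, mem_Icc, mem_union, mem_Ioc, cr1_dvd]
    constructor
    · rintro ⟨⟨h1, h2⟩, h3, h3'⟩
      rcases le_or_gt q y1 with h4 | h4
      · left; exact ⟨⟨h1, h4⟩, h3, h3'⟩
      · right; exact ⟨⟨⟨h4, h2⟩, h3⟩, h3'⟩
    · rintro (⟨⟨h1, h2⟩, h3⟩ | ⟨⟨⟨h1, h2⟩, h3⟩, h4⟩)
      · exact ⟨⟨h1, by omega⟩, h3⟩
      · exact ⟨⟨by omega, h2⟩, h3, h4⟩
  have h2 : Disjoint ((Icc 1 y1).filter (fun q => q.Prime ∧ q ≡ N [MOD d]))
      (((Ioc y1 y2).filter Nat.Prime).filter (fun p => d ∣ Nat.dist N p)) := by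
    rw [Finset.disjoint_left]
    intro q hq hq'
    simp only [mem_filter, mem_Icc, mem_Ioc] at hq hq'
    omega
  rw [h1, sum_union h2]
  ring

/-- Proof. For `N.Coprime d` and `p ∈ (y1, y2]`: `d ∣ Nat.dist N p` iff `p ≡ N [MOD d]`. So the sum is
`thp y2 d N - thp y1 d N` and `XX = th y2 - th y1` (`XX_eq`); `bv A` with `a = N`, at `y1` and at `y2`. -/
theorem rem_total (A : ℕ) : ∃ A' B n0 : ℕ, ∀ n : ℕ, n0 ≤ n → ∀ p1 : ℕ, SWp A' n p1 →
    ∀ N y1 y2 : ℕ, Win n N y1 y2 →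
    ∑ d ∈ (Icc 1 (DD n B)).filter (fun d => N.Coprime d ∧ ¬ p1 ∣ d),
      |∑ p ∈ (Sq y1 y2).filter (fun p => d ∣ Nat.dist N p), lg p -
        XX y1 y2 / (Nat.totient d : ℝ)| ≤ 2 * n / Real.log n ^ A := by
  obtain ⟨A', B, n0, hbv⟩ := bv A
  refine ⟨A', B, n0, fun n hn p1 hSW N y1 y2 hW => ?_⟩
  have h1 := hbv n hn p1 hSW N y1 (by have := hW.lt; have := hW.le; omega)
  have h2 := hbv n hn p1 hSW N y2 (by have := hW.le; omega)
  calc ∑ d ∈ (Icc 1 (DD n B)).filter (fun d => N.Coprime d ∧ ¬ p1 ∣ d),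
      |∑ p ∈ (Sq y1 y2).filter (fun p => d ∣ Nat.dist N p), lg p -
        XX y1 y2 / (Nat.totient d : ℝ)|
      ≤ ∑ d ∈ (Icc 1 (DD n B)).filter (fun d => N.Coprime d ∧ ¬ p1 ∣ d),
        (|thp y2 d N - th y2 / (Nat.totient d : ℝ)| +
          |thp y1 d N - th y1 / (Nat.totient d : ℝ)|) := by
        apply sum_le_sum
        intro d _
        have e1 : ∑ p ∈ (Sq y1 y2).filter (fun p => d ∣ Nat.dist N p), lg p =
            thp y2 d N - thp y1 d N := by
          rw [← cr1_sum hW.lt.le N d]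
        rw [e1, XX_eq hW.lt.le]
        have e2 : thp y2 d N - thp y1 d N - (th y2 - th y1) / (Nat.totient d : ℝ) =
            (thp y2 d N - th y2 / (Nat.totient d : ℝ)) -
              (thp y1 d N - th y1 / (Nat.totient d : ℝ)) := by ring
        rw [e2]
        exact abs_sub _ _
    _ = ∑ d ∈ (Icc 1 (DD n B)).filter (fun d => N.Coprime d ∧ ¬ p1 ∣ d),
          |thp y2 d N - th y2 / (Nat.totient d : ℝ)| +
        ∑ d ∈ (Icc 1 (DD n B)).filter (fun d => N.Coprime d ∧ ¬ p1 ∣ d),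
          |thp y1 d N - th y1 / (Nat.totient d : ℝ)| := sum_add_distrib
    _ ≤ n / Real.log n ^ A + n / Real.log n ^ A := by
        apply add_le_add
        · convert h2
        · convert h1
    _ = 2 * n / Real.log n ^ A := by ring

end Pool.Agent.Lib.H59C
end

-- from Lib.H59C.CR
section

/-!
# CR: the remainder terms of the sieves for `|N - p|`
-/

open Finset

namespace Pool.Agent.Lib.H59C

theorem cr_coprime {n N p1 d : ℕ} {z : ℝ} (hp1 : p1.Prime)
    (hd : ∀ q ∈ d.primeFactors, q ∈ PP n N p1 ∧ (q : ℝ) < z) (hd0 : d ≠ 0) :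
    N.Coprime d ∧ ¬ p1 ∣ d := by
  constructor
  · apply Nat.coprime_of_dvd
    intro k hk hkN hkd
    have h1 := (hd k (Nat.mem_primeFactors.mpr ⟨hk, hkd, hd0⟩)).1
    rw [mem_PP] at h1
    exact h1.2.2.1 hkN
  · intro h
    have h1 := (hd p1 (Nat.mem_primeFactors.mpr ⟨hp1, h, hd0⟩)).1
    rw [mem_PP] at h1
    exact h1.2.2.2 rfl

open Classical in
/-- Remainder terms of the sieve of the whole sequence and of the subsequences `q ∣ |N - p|`, `q ∈ QQ`.

Proof. `rem_total` with the same `A', B`. First part: the `d` in `remd` are squarefree with prime factors in `PP n N p1`,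
hence coprime to `N` and not divisible by `p1` (if `p1` is prime and divides `d` it is a prime factor of `d`, but
`p1 ∉ PP`). Second part: for `q ∈ QQ` and `d ≤ D/q` composed of primes `< z ≤ q`: `d q ≤ D`, `(d, q) = 1`,
`q ∣ a` and `d ∣ a` iff `d q ∣ a`, `gq q / φ(d) = 1/φ(d q)`; the products `d q` are pairwise different (`q` is the only
prime factor `≥ z`), coprime to `N` and not divisible by `p1`. (`∑ over q ∑ over d` of `r(d q)`, `Finset.sum_sigma'`
and `Finset.sum_le_sum_of_injOn` or `sum_image`.) -/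
theorem rem_A (A : ℕ) : ∃ A' B n0 : ℕ, ∀ n : ℕ, n0 ≤ n → ∀ p1 : ℕ, p1.Prime → SWp A' n p1 →
    ∀ N y1 y2 : ℕ, Win n N y1 y2 →
    remd (Sq y1 y2) lg (fun p => Nat.dist N p) (PP n N p1) (zz n) (XX y1 y2) (DD n B) ≤
      2 * n / Real.log n ^ A ∧
    ∑ q ∈ QQ n N p1, remd ((Sq y1 y2).filter (fun p => q ∣ Nat.dist N p)) lg
        (fun p => Nat.dist N p) (PP n N p1) (zz n) (XX y1 y2 * gq q) ((DD n B : ℝ) / q) ≤
      2 * n / Real.log n ^ A := by
  obtain ⟨A', B, n0, hrem⟩ := rem_total A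
  refine ⟨A', B, n0, fun n hn p1 hp1 hSW N y1 y2 hW => ?_⟩
  have htot := hrem n hn p1 hSW N y1 y2 hW
  constructor
  · refine le_trans ?_ htot
    unfold remd
    rw [Nat.floor_natCast]
    apply sum_le_sum_of_subset_of_nonneg
    · intro d hd
      rw [mem_filter] at hd ⊢
      refine ⟨hd.1, ?_⟩
      have hd0 : d ≠ 0 := by
        have := (mem_Icc.mp hd.1).1
        omega
      exact cr_coprime hp1 hd.2.2 hd0
    · intro d _ _
      exact abs_nonneg _
  · refine le_trans ?_ htot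
    obtain ⟨r, hr⟩ : ∃ r : ℕ → ℝ, r = fun d => |∑ p ∈ (Sq y1 y2).filter
      (fun p => d ∣ Nat.dist N p), lg p - XX y1 y2 / (Nat.totient d : ℝ)| := ⟨_, rfl⟩
    obtain ⟨E, hE⟩ : ∃ E : ℕ → Finset ℕ, E = fun q : ℕ => (Icc 1 ⌊(DD n B : ℝ) / (q : ℝ)⌋₊).filter
      (fun d => Squarefree d ∧ ∀ l ∈ d.primeFactors, l ∈ PP n N p1 ∧ (l : ℝ) < zz n) := ⟨_, rfl⟩
    -- facts about a pair
    have hpair : ∀ q ∈ QQ n N p1, ∀ d ∈ E q, q.Prime ∧ 0 < d ∧ Nat.Coprime q d ∧ q * d ≤ DD n B ∧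
        (N.Coprime (q * d) ∧ ¬ p1 ∣ q * d) ∧ zz n ≤ q ∧
        ∀ l ∈ d.primeFactors, (l : ℝ) < zz n := by
      intro q hq d hd
      rw [hE] at hd
      simp only [mem_filter, mem_Icc] at hd
      obtain ⟨⟨hd1, hd2⟩, hd3, hd4⟩ := hd
      have hq' : q ∈ PR (zz n) (yy n) ∧ q ∈ PP n N p1 := by
        unfold QQ at hq
        exact mem_filter.mp hq
      obtain ⟨hqp, hq1, hq2⟩ := mem_PR.mp hq'.1
      have hqPP := mem_PP.mp hq'.2
      have hqpos : (0 : ℝ) < q := by exact_mod_cast hqp.pos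
      have hcop : Nat.Coprime q d := by
        rw [Nat.Prime.coprime_iff_not_dvd hqp]
        intro hqd
        have h1 := (hd4 q (Nat.mem_primeFactors.mpr ⟨hqp, hqd, by omega⟩)).2
        linarith
      have hle : q * d ≤ DD n B := by
        have h1 : (d : ℝ) ≤ (DD n B : ℝ) / q := by
          have h0 : (0 : ℝ) ≤ (DD n B : ℝ) / q := by positivity
          exact (Nat.le_floor_iff h0).mp hd2
        rw [le_div_iff₀ hqpos] at h1
        have h2 : ((q * d : ℕ) : ℝ) ≤ (DD n B : ℝ) := by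
          push_cast
          linarith
        exact_mod_cast h2
      obtain ⟨c1, c2⟩ := cr_coprime hp1 hd4 (by omega)
      refine ⟨hqp, hd1, hcop, hle, ⟨?_, ?_⟩, hq1, fun l hl => (hd4 l hl).2⟩
      · apply Nat.Coprime.mul_right _ c1
        rw [Nat.coprime_comm, Nat.Prime.coprime_iff_not_dvd hqp]
        exact hqPP.2.2.1
      · intro h
        rcases (Nat.Prime.dvd_mul hp1).mp h with h1 | h1
        · exact hqPP.2.2.2 ((Nat.prime_dvd_prime_iff_eq hp1 hqp).mp h1).symm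
        · exact c2 h1
    have hterm : ∀ q ∈ QQ n N p1, remd ((Sq y1 y2).filter (fun p => q ∣ Nat.dist N p)) lg
        (fun p => Nat.dist N p) (PP n N p1) (zz n) (XX y1 y2 * gq q) ((DD n B : ℝ) / q) =
        ∑ d ∈ E q, r (q * d) := by
      intro q hq
      unfold remd
      rw [hE]
      apply sum_congr rfl
      intro d hd
      have hd' : d ∈ E q := by rw [hE]; exact hd
      obtain ⟨hqp, hd0, hcop, hle, -, -, -⟩ := hpair q hq d hd'
      rw [hr]
      show |_| = |_|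
      congr 1
      congr 1
      · rw [filter_filter]
        apply sum_congr _ fun _ _ => rfl
        ext p
        simp only [mem_filter]
        constructor
        · rintro ⟨h1, h2, h3⟩
          exact ⟨h1, Nat.Coprime.mul_dvd_of_dvd_of_dvd hcop h2 h3⟩
        · rintro ⟨h1, h2⟩
          exact ⟨h1, dvd_trans (dvd_mul_right _ _) h2, dvd_trans (dvd_mul_left _ _) h2⟩
      · rw [Nat.totient_mul hcop, Nat.totient_prime hqp]
        unfold gq
        have hq1 := hqp.one_lt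
        rw [Nat.cast_mul, Nat.cast_sub hq1.le, Nat.cast_one]
        have h1 : (1 : ℝ) < q := by exact_mod_cast hq1
        have h2 : (0 : ℝ) < Nat.totient d := by exact_mod_cast Nat.totient_pos.mpr hd0
        have h3 : (q : ℝ) - 1 ≠ 0 := by linarith
        field_simp
    rw [sum_congr rfl hterm, sum_sigma']
    have hinj : Set.InjOn (fun x : (_ : ℕ) × ℕ => x.1 * x.2) ((QQ n N p1).sigma E) := by
      rintro ⟨q, d⟩ hx ⟨q', d'⟩ hx' heq
      simp only [coe_sigma, Set.mem_sigma_iff, mem_coe] at hx hx'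
      obtain ⟨hqp, hd0, hcop, hle, -, hz, hl⟩ := hpair q hx.1 d hx.2
      obtain ⟨hqp', hd0', hcop', hle', -, hz', hl'⟩ := hpair q' hx'.1 d' hx'.2
      have heq' : q * d = q' * d' := heq
      have hqq : q = q' := by
        have h1 : q ∣ q' * d' := by rw [← heq']; exact dvd_mul_right _ _
        rcases (Nat.Prime.dvd_mul hqp).mp h1 with h2 | h2
        · exact (Nat.prime_dvd_prime_iff_eq hqp hqp').mp h2
        · exfalso
          have h3 := hl' q (Nat.mem_primeFactors.mpr ⟨hqp, h2, by omega⟩)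
          linarith
      subst hqq
      have hdd : d = d' := Nat.eq_of_mul_eq_mul_left hqp.pos heq'
      rw [hdd]
    calc ∑ x ∈ (QQ n N p1).sigma E, r (x.1 * x.2)
        = ∑ m ∈ ((QQ n N p1).sigma E).image (fun x : (_ : ℕ) × ℕ => x.1 * x.2), r m := by
          rw [sum_image hinj]
      _ ≤ ∑ m ∈ (Icc 1 (DD n B)).filter (fun d => N.Coprime d ∧ ¬ p1 ∣ d), r m := by
          apply sum_le_sum_of_subset_of_nonneg
          · intro m hm
            rw [mem_image] at hm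
            obtain ⟨⟨q, d⟩, hx, rfl⟩ := hm
            rw [mem_sigma] at hx
            obtain ⟨hqp, hd0, hcop, hle, hcc, hz, hl⟩ := hpair q hx.1 d hx.2
            rw [mem_filter, mem_Icc]
            exact ⟨⟨Nat.mul_pos hqp.pos hd0, hle⟩, hcc⟩
          · intro m _ _
            rw [hr]
            exact abs_nonneg _
      _ = ∑ d ∈ (Icc 1 (DD n B)).filter (fun d => N.Coprime d ∧ ¬ p1 ∣ d),
          |∑ p ∈ (Sq y1 y2).filter (fun p => d ∣ Nat.dist N p), lg p -
            XX y1 y2 / (Nat.totient d : ℝ)| := by rw [hr]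

end Pool.Agent.Lib.H59C
end

-- from Lib.H59C.CBR
section

/-!
# CBR: the remainder terms of a box
-/

open Finset

namespace Pool.Agent.Lib.H59C

theorem CBR_a (N D y2 : ℕ) : ∃ a : ℕ, ∀ d, 1 ≤ d → d ≤ D →
    (∀ x : ℕ × ℕ, d ∣ bb N y2 x ↔ x.1 * x.2 ≡ a [MOD d]) ∧ (N.Coprime d → a.Coprime d) := by
  by_cases h : y2 < N
  · refine ⟨N, fun d _ _ => ⟨fun x => ?_, fun h => h⟩⟩
    unfold bb
    rw [if_pos h]
    exact cr1_dvd N _ d
  · have hf : 1 ≤ D.factorial := Nat.factorial_pos D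
    refine ⟨N * (D.factorial - 1), fun d hd1 hd2 => ?_⟩
    have hdf : d ∣ D.factorial := Nat.dvd_factorial hd1 hd2
    have hsum : N * (D.factorial - 1) + N = N * D.factorial := by
      conv_lhs => rw [← Nat.mul_succ]
      congr 1
      omega
    constructor
    · intro x
      unfold bb
      rw [if_neg h]
      constructor
      · intro hx
        have h1 : N + x.1 * x.2 ≡ N + N * (D.factorial - 1) [MOD d] := by
          have h2 : N + N * (D.factorial - 1) = N * D.factorial := by omega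
          rw [h2]
          exact ((Nat.modEq_zero_iff_dvd.2 hx).trans
            (Nat.modEq_zero_iff_dvd.2 (Dvd.dvd.mul_left hdf N)).symm)
        exact Nat.ModEq.add_left_cancel' N h1
      · intro hx
        have h1 : N + x.1 * x.2 ≡ N + N * (D.factorial - 1) [MOD d] := Nat.ModEq.add_left N hx
        have h2 : N + N * (D.factorial - 1) = N * D.factorial := by omega
        rw [h2] at h1
        exact Nat.modEq_zero_iff_dvd.1 (h1.trans
          (Nat.modEq_zero_iff_dvd.2 (Dvd.dvd.mul_left hdf N)))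
    · intro hN
      refine Nat.Coprime.mul_left hN ?_
      have h3 : (D.factorial - 1).Coprime D.factorial := by
        have h4 := Nat.coprime_self_add_right (m := D.factorial - 1) (n := 1)
        have h5 : D.factorial - 1 + 1 = D.factorial := by omega
        rw [h5] at h4
        exact h4.2 (Nat.coprime_one_right _)
      exact Nat.Coprime.coprime_dvd_right hdf h3

open Classical in
theorem CBR_S (N y2 M u v d a : ℕ) (α : ℕ → ℝ)
    (h : ∀ x : ℕ × ℕ, d ∣ bb N y2 x ↔ x.1 * x.2 ≡ a [MOD d]) :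
    ∑ x ∈ (BX M u v).filter (fun x => d ∣ bb N y2 x), wB α x =
      ∑ m ∈ Icc 1 M, α m * ∑ q ∈ (Ioc u v).filter (fun q => q.Prime ∧ m * q ≡ a [MOD d]),
        Real.log q := by
  unfold BX
  rw [sum_filter, sum_product]
  refine sum_congr rfl fun m _ => ?_
  unfold Sq wB lg
  rw [mul_sum, ← filter_filter, sum_filter (s := (Ioc u v).filter Nat.Prime)]
  refine sum_congr rfl fun q _ => ?_
  by_cases hq : m * q ≡ a [MOD d]
  · rw [if_pos hq, if_pos ((h (m, q)).2 hq)]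
  · rw [if_neg hq, if_neg (fun h' => hq ((h (m, q)).1 h'))]

theorem CBR_log (d : ℕ) (hd : 1 ≤ d) : ∑ q ∈ d.primeFactors, Real.log q ≤ Real.log d := by
  have h1 : ∏ q ∈ d.primeFactors, q ≤ d := Nat.le_of_dvd hd (Nat.prod_primeFactors_dvd d)
  have h2 : Real.log ((∏ q ∈ d.primeFactors, q : ℕ) : ℝ) = ∑ q ∈ d.primeFactors, Real.log q := by
    rw [Nat.cast_prod, Real.log_prod]
    intro q hq
    have := (Nat.prime_of_mem_primeFactors hq).pos
    have h3 : (0 : ℝ) < q := by exact_mod_cast this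
    exact h3.ne'
  rw [← h2]
  apply Real.log_le_log
  · have : 0 < ∏ q ∈ d.primeFactors, q :=
      Finset.prod_pos fun q hq => (Nat.prime_of_mem_primeFactors hq).pos
    exact_mod_cast this
  · exact_mod_cast h1

theorem CBR_om (d : ℕ) (hd : 1 ≤ d) : (d.primeFactors.card : ℝ) ≤ 2 * Real.log d := by
  have h1 := CBR_log d hd
  have h2 : (d.primeFactors.card : ℝ) * Real.log 2 ≤ ∑ q ∈ d.primeFactors, Real.log q := by
    rw [← nsmul_eq_mul]
    apply Finset.card_nsmul_le_sum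
    intro q hq
    apply Real.log_le_log (by norm_num)
    exact_mod_cast (Nat.prime_of_mem_primeFactors hq).two_le
  have h3 := Real.log_two_gt_d9
  have h4 : (0 : ℝ) ≤ d.primeFactors.card := Nat.cast_nonneg _
  nlinarith

open Classical in
theorem CBR_A (M d : ℕ) (hd : 1 ≤ d) (α : ℕ → ℝ) (hα : ∀ m, 0 ≤ α m ∧ α m ≤ 1) (y : ℝ)
    (hy : 0 < y) (h : ∀ m, α m ≠ 0 → ∀ r : ℕ, r.Prime → r ∣ m → y ≤ r) :
    ∑ m ∈ Icc 1 M, α m - ∑ m ∈ (Icc 1 M).filter (fun m => m.Coprime d), α m ≤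
      d.primeFactors.card * (M / y) := by
  have h1 : ∑ m ∈ Icc 1 M, α m - ∑ m ∈ (Icc 1 M).filter (fun m => m.Coprime d), α m =
      ∑ m ∈ (Icc 1 M).filter (fun m => ¬ m.Coprime d), α m := by
    rw [← sum_filter_add_sum_filter_not (Icc 1 M) (fun m => m.Coprime d) α]
    ring
  rw [h1]
  have h2 : ∀ m ∈ (Icc 1 M).filter (fun m => ¬ m.Coprime d), α m ≤
      ∑ r ∈ d.primeFactors, if y ≤ (r : ℝ) ∧ r ∣ m then (1 : ℝ) else 0 := by
    intro m hm
    rw [mem_filter, mem_Icc] at hm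
    have hnn : ∀ r ∈ d.primeFactors, (0 : ℝ) ≤ if y ≤ (r : ℝ) ∧ r ∣ m then (1 : ℝ) else 0 := by
      intro r _
      split_ifs <;> norm_num
    by_cases h0 : α m = 0
    · rw [h0]
      exact sum_nonneg hnn
    · obtain ⟨r, hr, hrm, hrd⟩ := Nat.Prime.not_coprime_iff_dvd.1 hm.2
      have h3 := h m h0 r hr hrm
      have h4 : r ∈ d.primeFactors := Nat.mem_primeFactors.2 ⟨hr, hrd, by omega⟩
      refine le_trans ?_ (single_le_sum hnn h4)
      rw [if_pos ⟨h3, hrm⟩]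
      exact (hα m).2
  refine (sum_le_sum h2).trans ?_
  rw [sum_comm]
  have h3 : ∀ r ∈ d.primeFactors, ∑ m ∈ (Icc 1 M).filter (fun m => ¬ m.Coprime d),
      (if y ≤ (r : ℝ) ∧ r ∣ m then (1 : ℝ) else 0) ≤ M / y := by
    intro r hr
    have hrp := (Nat.prime_of_mem_primeFactors hr).pos
    by_cases hyr : y ≤ (r : ℝ)
    · have h4 : ∑ m ∈ (Icc 1 M).filter (fun m => ¬ m.Coprime d),
          (if y ≤ (r : ℝ) ∧ r ∣ m then (1 : ℝ) else 0) ≤
          ∑ m ∈ Icc 1 M, (if y ≤ (r : ℝ) ∧ r ∣ m then (1 : ℝ) else 0) := by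
        apply sum_le_sum_of_subset_of_nonneg (filter_subset _ _)
        intro m _ _
        split_ifs <;> norm_num
      refine h4.trans ?_
      have h5 : ∑ m ∈ Icc 1 M, (if y ≤ (r : ℝ) ∧ r ∣ m then (1 : ℝ) else 0) =
          ((Icc 1 M).filter (fun m => r ∣ m)).card := by
        rw [card_filter]
        push_cast
        refine sum_congr rfl fun m _ => ?_
        by_cases hm : r ∣ m
        · rw [if_pos ⟨hyr, hm⟩, if_pos hm]
        · rw [if_neg (fun h' => hm h'.2), if_neg hm]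
      rw [h5]
      have h6 : ((Icc 1 M).filter (fun m => r ∣ m)).card = M / r := by
        rw [← Nat.Ioc_filter_dvd_card_eq_div M r]
        congr 1
      rw [h6]
      have h7 : ((M / r : ℕ) : ℝ) ≤ (M : ℝ) / r := Nat.cast_div_le
      refine h7.trans ?_
      exact div_le_div_of_nonneg_left (Nat.cast_nonneg M) hy hyr
    · have h4 : ∀ m ∈ (Icc 1 M).filter (fun m => ¬ m.Coprime d),
          (if y ≤ (r : ℝ) ∧ r ∣ m then (1 : ℝ) else 0) = 0 := by
        intro m _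
        rw [if_neg (fun h' => hyr h'.1)]
      rw [sum_congr rfl h4, sum_const_zero]
      positivity
  refine (sum_le_sum h3).trans ?_
  rw [sum_const, nsmul_eq_mul]

theorem CBR_XX_le (u v : ℕ) (huv : u ≤ v) : XX u v ≤ v * Real.log v := by
  rw [XX_eq huv]
  have h1 := bv2_th_le v
  have h2 := bv2_th_nonneg u
  linarith

theorem CBR_XX_nonneg (u v : ℕ) : 0 ≤ XX u v := by
  unfold XX lg
  exact sum_nonneg fun q _ => Real.log_natCast_nonneg q

open Classical in
theorem CBR_Q (u v d : ℕ) (hd : 1 ≤ d) :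
    0 ≤ XX u v - ∑ q ∈ (Ioc u v).filter (fun q => q.Prime ∧ q.Coprime d), Real.log q ∧
      XX u v - ∑ q ∈ (Ioc u v).filter (fun q => q.Prime ∧ q.Coprime d), Real.log q ≤
        Real.log d := by
  have h1 : XX u v - ∑ q ∈ (Ioc u v).filter (fun q => q.Prime ∧ q.Coprime d), Real.log q =
      ∑ q ∈ (Ioc u v).filter (fun q => q.Prime ∧ ¬ q.Coprime d), Real.log q := by
    unfold XX lg Sq
    rw [← filter_filter, ← filter_filter,
      ← sum_filter_add_sum_filter_not ((Ioc u v).filter Nat.Prime) (fun q => q.Coprime d)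
        (fun q => Real.log (q : ℝ))]
    ring
  rw [h1]
  constructor
  · exact sum_nonneg fun q _ => Real.log_natCast_nonneg q
  · refine le_trans ?_ (CBR_log d hd)
    apply sum_le_sum_of_subset_of_nonneg
    · intro q hq
      rw [mem_filter] at hq
      rw [Nat.mem_primeFactors]
      refine ⟨hq.2.1, ?_, by omega⟩
      by_contra hcon
      exact hq.2.2 ((Nat.Prime.coprime_iff_not_dvd hq.2.1).2 hcon)
    · intro q _ _
      exact Real.log_natCast_nonneg q

/-- the main terms -/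
theorem CBR_main {Aall Ad X Qd om M y lgd : ℝ} (h1 : 0 ≤ Aall - Ad) (h2 : Aall - Ad ≤ om * (M / y))
    (h3 : 0 ≤ X) (h4 : 0 ≤ X - Qd) (h5 : X - Qd ≤ lgd) (h6 : 0 ≤ Ad) (h7 : Ad ≤ M) :
    |Aall * X - Ad * Qd| ≤ om * (M / y) * X + M * lgd := by
  have e : Aall * X - Ad * Qd = (Aall - Ad) * X + Ad * (X - Qd) := by ring
  have h8 : 0 ≤ (Aall - Ad) * X := mul_nonneg h1 h3
  have h9 : 0 ≤ Ad * (X - Qd) := mul_nonneg h6 h4
  rw [e, abs_of_nonneg (add_nonneg h8 h9)]
  apply add_le_add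
  · exact mul_le_mul_of_nonneg_right h2 h3
  · exact mul_le_mul h7 h5 h4 (h6.trans h7)

theorem CBR_num {n M v d : ℕ} (hn : 8 ≤ n) (hL : 1 ≤ Real.log n) (hd1 : 1 ≤ d) (hdn : d ≤ n)
    (hv : (n : ℝ) ^ (1 / 4 : ℝ) ≤ v) (hMv : M * v ≤ 8 * n) (u : ℕ) (huv : u ≤ v) :
    (d.primeFactors.card : ℝ) * (M / (n : ℝ) ^ (1 / 10 : ℝ)) * XX u v + M * Real.log d ≤
      40 * Real.log n ^ 2 * ((n : ℝ) / (n : ℝ) ^ (1 / 10 : ℝ)) := by
  have hn1 : (1 : ℝ) ≤ n := by
    have : 1 ≤ n := by omega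
    exact_mod_cast this
  have hn0 : (0 : ℝ) < n := by linarith
  have hn8 : (8 : ℝ) ≤ n := by exact_mod_cast hn
  set L := Real.log n with hLdef
  have hy0 : (0 : ℝ) < (n : ℝ) ^ (1 / 10 : ℝ) := Real.rpow_pos_of_pos hn0 _
  have hd0 : (0 : ℝ) < d := by exact_mod_cast hd1
  have hld : Real.log d ≤ L := Real.log_le_log hd0 (by exact_mod_cast hdn)
  have hld0 : 0 ≤ Real.log d := Real.log_natCast_nonneg d
  have hom : (d.primeFactors.card : ℝ) ≤ 2 * L := (CBR_om d hd1).trans (by linarith)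
  have hMv' : (M : ℝ) * v ≤ 8 * n := by exact_mod_cast hMv
  have hM0 : (0 : ℝ) ≤ M := Nat.cast_nonneg M
  have hv1 : (1 : ℝ) ≤ v := le_trans (Real.one_le_rpow hn1 (by norm_num)) hv
  rcases Nat.eq_zero_or_pos M with hM | hM
  · subst hM
    simp only [Nat.cast_zero, zero_div, mul_zero, zero_mul, add_zero]
    positivity
  have hM1 : (1 : ℝ) ≤ M := by exact_mod_cast hM
  have hv8 : (v : ℝ) ≤ 8 * n := by nlinarith
  have hlv : Real.log v ≤ 2 * L := by
    have h1 : (v : ℝ) ≤ (n : ℝ) ^ 2 := by nlinarith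
    have h2 := Real.log_le_log (by linarith) h1
    rw [Real.log_pow] at h2
    push_cast at h2
    linarith
  have hX : XX u v ≤ v * (2 * L) :=
    (CBR_XX_le u v huv).trans (mul_le_mul_of_nonneg_left hlv (by linarith))
  have hX0 := CBR_XX_nonneg u v
  have hMy : (M : ℝ) ≤ 8 * ((n : ℝ) / (n : ℝ) ^ (1 / 10 : ℝ)) := by
    have h1 : (n : ℝ) ^ (1 / 10 : ℝ) ≤ v :=
      (Real.rpow_le_rpow_of_exponent_le hn1 (by norm_num)).trans hv
    have h2 : (M : ℝ) * (n : ℝ) ^ (1 / 10 : ℝ) ≤ 8 * n :=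
      (mul_le_mul_of_nonneg_left h1 hM0).trans hMv'
    rw [← mul_div_assoc, le_div_iff₀ hy0]
    exact h2
  have hT0 : (0 : ℝ) ≤ (n : ℝ) / (n : ℝ) ^ (1 / 10 : ℝ) := by positivity
  have hfirst : (d.primeFactors.card : ℝ) * (M / (n : ℝ) ^ (1 / 10 : ℝ)) * XX u v ≤
      32 * L ^ 2 * ((n : ℝ) / (n : ℝ) ^ (1 / 10 : ℝ)) := by
    calc (d.primeFactors.card : ℝ) * (M / (n : ℝ) ^ (1 / 10 : ℝ)) * XX u v
        ≤ (2 * L) * (M / (n : ℝ) ^ (1 / 10 : ℝ)) * (v * (2 * L)) := by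
          apply mul_le_mul _ hX hX0 (by positivity)
          exact mul_le_mul_of_nonneg_right hom (by positivity)
      _ = 4 * L ^ 2 * ((M : ℝ) * v / (n : ℝ) ^ (1 / 10 : ℝ)) := by
          field_simp
          ring
      _ ≤ 4 * L ^ 2 * ((8 * n) / (n : ℝ) ^ (1 / 10 : ℝ)) := by
          apply mul_le_mul_of_nonneg_left _ (by positivity)
          exact div_le_div_of_nonneg_right hMv' hy0.le
      _ = _ := by ring
  have hsecond : (M : ℝ) * Real.log d ≤ 8 * L ^ 2 * ((n : ℝ) / (n : ℝ) ^ (1 / 10 : ℝ)) := by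
    calc (M : ℝ) * Real.log d ≤ 8 * ((n : ℝ) / (n : ℝ) ^ (1 / 10 : ℝ)) * L :=
          mul_le_mul hMy hld hld0 (by positivity)
      _ ≤ 8 * ((n : ℝ) / (n : ℝ) ^ (1 / 10 : ℝ)) * L ^ 2 := by
          apply mul_le_mul_of_nonneg_left _ (by positivity)
          nlinarith
      _ = _ := by ring
  linarith

open Classical in
/-- The remainder terms for the switched sequence `N ∓ m q`.

Proof. `bv_bil (A + 1)`, with `a = N` if `y2 < N` (`d ∣ Nat.dist N (m q)` iff `m q ≡ N [MOD d]`), and with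
`a = N ((D)! - 1)`, `D = DD n B ≥ 1`, otherwise (`a ≡ -N [MOD d]` and `a.Coprime d ↔ N.Coprime d` for all `1 ≤ d ≤ D`, since
`d ∣ D!`). As in `rem_A` the `d` in `remd` are coprime to `N` and not divisible by `p1`. The main terms differ by
`(1/φ(d)) |XB - ∑_{(m,d)=1} α_m ∑_{(q,d)=1} log q| ≤ (1/φ(d)) (#{m ≤ M : α_m ≠ 0, (m,d) > 1} · v log v + M ∑_{q ∣ d, q > u} log q)`;
if `α_m ≠ 0` and `(m,d) > 1` then some prime `r ∣ d`, `r ≥ n^(1/10)`, divides `m`: at most `ω(d) M n^(-1/10)` such `m`; and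
`∑_{q ∣ d} log q ≤ log d`. So the difference is at most `(1/φ(d)) · 8 n^(9/10) (2 log n)^3` (`M ≤ 8 n^(3/4)`, from `M v ≤ 8 n`,
`v ≥ n^(1/4)`); sum over `d ≤ D` with `∑ 1/φ(d) ≤ C log n` (`sum_inv_totient`, or the trivial `φ(d) ≥ √d/2`:
that loses too much; `1/φ(d) ≤ (2 + 2 log d)/d` is enough). -/
theorem rem_box (A : ℕ) : ∃ A' B n0 : ℕ, ∀ n : ℕ, n0 ≤ n → ∀ p1 : ℕ, p1.Prime → SWp A' n p1 →
    ∀ N y2 : ℕ, 0 < N → ∀ (M u v : ℕ) (α : ℕ → ℝ), (∀ m, 0 ≤ α m ∧ α m ≤ 1) →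
    (∀ m, α m ≠ 0 → ∀ r : ℕ, r.Prime → r ∣ m → (n : ℝ) ^ (1 / 10 : ℝ) ≤ r) →
    (n : ℝ) ^ (1 / 4 : ℝ) ≤ M → (n : ℝ) ^ (1 / 4 : ℝ) ≤ v → u ≤ v → M * v ≤ 8 * n → ∀ z : ℝ,
    remd (BX M u v) (wB α) (bb N y2) (PP n N p1) z (XB M u v α) (DD n B) ≤
      n / Real.log n ^ A := by
  obtain ⟨A', B, n1, hbil⟩ := bv_bil (A + 1)
  obtain ⟨C0, hC0, hφ⟩ := sum_inv_totient
  obtain ⟨n2, hn2⟩ := bv2_large (80 * C0 + 2) (A + 3)
  refine ⟨A', B, max n1 (max n2 8), fun n hn p1 hp1 hSW N y2 hN M u v α hα hαr hM hv huv hMv z => ?_⟩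
  have hn1' : n1 ≤ n := (le_max_left _ _).trans hn
  have hn2' : n2 ≤ n := ((le_max_left _ _).trans (le_max_right _ _)).trans hn
  have hn8 : 8 ≤ n := ((le_max_right _ _).trans (le_max_right _ _)).trans hn
  obtain ⟨hLK, hLn⟩ := hn2 n hn2'
  have hL2 : 2 ≤ Real.log n := by linarith
  have hn1 : (1 : ℝ) ≤ n := by
    have : 1 ≤ n := by omega
    exact_mod_cast this
  have hn0 : (0 : ℝ) < n := by linarith
  set D := DD n B with hD
  set L := Real.log n with hLdef
  have hL0 : 0 < L := by linarith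
  have hDn : D ≤ n := by
    have h1 : (D : ℝ) ≤ Real.sqrt n / L ^ B := by
      rw [hD]
      unfold DD
      exact Nat.floor_le (by positivity)
    have h2 : Real.sqrt n / L ^ B ≤ Real.sqrt n :=
      div_le_self (Real.sqrt_nonneg _) (one_le_pow₀ (by linarith))
    have h3 : Real.sqrt n ≤ n := by
      rw [Real.sqrt_le_left (by linarith)]
      nlinarith
    have h4 : (D : ℝ) ≤ n := by linarith
    exact_mod_cast h4
  obtain ⟨a, ha⟩ := CBR_a N D y2
  have hbv := hbil n hn1' p1 hSW M u v a α (fun m => by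
    rw [abs_of_nonneg (hα m).1]; exact (hα m).2) hM hv huv hMv
  set T : ℕ → ℝ := fun d => |∑ m ∈ Icc 1 M, α m *
      ∑ q ∈ (Ioc u v).filter (fun q => q.Prime ∧ m * q ≡ a [MOD d]), Real.log q -
        1 / (Nat.totient d : ℝ) * ((∑ m ∈ (Icc 1 M).filter (fun m => m.Coprime d), α m) *
          ∑ q ∈ (Ioc u v).filter (fun q => q.Prime ∧ q.Coprime d), Real.log q)| with hT
  set W : ℝ := 40 * L ^ 2 * ((n : ℝ) / (n : ℝ) ^ (1 / 10 : ℝ)) with hW
  have hW0 : 0 ≤ W := by positivity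
  have hterm : ∀ d ∈ (Icc 1 ⌊(D : ℝ)⌋₊).filter (fun d => Squarefree d ∧
      ∀ q ∈ d.primeFactors, q ∈ PP n N p1 ∧ (q : ℝ) < z),
      |∑ i ∈ (BX M u v).filter (fun i => d ∣ bb N y2 i), wB α i -
        XB M u v α / (Nat.totient d : ℝ)| ≤ T d + 1 / (Nat.totient d : ℝ) * W := by
    intro d hd
    rw [mem_filter, mem_Icc, Nat.floor_natCast] at hd
    obtain ⟨⟨hd1, hd2⟩, _, _⟩ := hd
    obtain ⟨ha1, _⟩ := ha d hd1 hd2
    have hph : (0 : ℝ) < Nat.totient d := by exact_mod_cast Nat.totient_pos.2 hd1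
    have hAd0 : 0 ≤ ∑ m ∈ (Icc 1 M).filter (fun m => m.Coprime d), α m :=
      sum_nonneg fun m _ => (hα m).1
    have hAdM : ∑ m ∈ (Icc 1 M).filter (fun m => m.Coprime d), α m ≤ M := by
      refine (sum_le_sum fun m _ => (hα m).2).trans ?_
      rw [sum_const, nsmul_eq_mul, mul_one]
      have : ((Icc 1 M).filter (fun m => m.Coprime d)).card ≤ M := by
        refine (card_filter_le _ _).trans ?_
        simp
      exact_mod_cast this
    have hAA : 0 ≤ ∑ m ∈ Icc 1 M, α m - ∑ m ∈ (Icc 1 M).filter (fun m => m.Coprime d), α m := by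
      rw [sub_nonneg]
      exact sum_le_sum_of_subset_of_nonneg (filter_subset _ _) fun m _ _ => (hα m).1
    have hAA' := CBR_A M d hd1 α hα ((n : ℝ) ^ (1 / 10 : ℝ)) (Real.rpow_pos_of_pos hn0 _) hαr
    obtain ⟨hQ1, hQ2⟩ := CBR_Q u v d hd1
    have hmain := CBR_main hAA hAA' (CBR_XX_nonneg u v) hQ1 hQ2 hAd0 hAdM
    have hnum := CBR_num hn8 (by linarith) hd1 (hd2.trans hDn) hv hMv u huv
    have hm2 := hmain.trans hnum
    rw [CBR_S N y2 M u v d a α ha1]
    set S := ∑ m ∈ Icc 1 M, α m *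
      ∑ q ∈ (Ioc u v).filter (fun q => q.Prime ∧ m * q ≡ a [MOD d]), Real.log q with hS
    set Ad := ∑ m ∈ (Icc 1 M).filter (fun m => m.Coprime d), α m with hAdd
    set Qd := ∑ q ∈ (Ioc u v).filter (fun q => q.Prime ∧ q.Coprime d), Real.log q with hQdd
    have e : S - XB M u v α / (Nat.totient d : ℝ) = (S - 1 / (Nat.totient d : ℝ) * (Ad * Qd)) -
        1 / (Nat.totient d : ℝ) * ((∑ m ∈ Icc 1 M, α m) * XX u v - Ad * Qd) := by
      unfold XB
      ring
    rw [e]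
    refine (abs_sub _ _).trans ?_
    apply add_le_add
    · exact le_refl _
    · rw [abs_mul, abs_of_nonneg (by positivity : (0 : ℝ) ≤ 1 / (Nat.totient d : ℝ))]
      exact mul_le_mul_of_nonneg_left hm2 (by positivity)
  unfold remd
  refine (sum_le_sum hterm).trans ?_
  rw [sum_add_distrib]
  have h1 : ∑ d ∈ (Icc 1 ⌊(D : ℝ)⌋₊).filter (fun d => Squarefree d ∧
      ∀ q ∈ d.primeFactors, q ∈ PP n N p1 ∧ (q : ℝ) < z), T d ≤ n / L ^ (A + 1) := by
    refine le_trans ?_ hbv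
    apply sum_le_sum_of_subset_of_nonneg
    · intro d hd
      rw [mem_filter, Nat.floor_natCast] at hd
      rw [mem_filter]
      refine ⟨hd.1, ?_⟩
      have hd1 := mem_Icc.1 hd.1
      obtain ⟨c1, c2⟩ := cr_coprime hp1 hd.2.2 (by omega)
      exact ⟨(ha d hd1.1 hd1.2).2 c1, c2⟩
    · intro d _ _
      exact abs_nonneg _
  have h2 : ∑ d ∈ (Icc 1 ⌊(D : ℝ)⌋₊).filter (fun d => Squarefree d ∧
      ∀ q ∈ d.primeFactors, q ∈ PP n N p1 ∧ (q : ℝ) < z), 1 / (Nat.totient d : ℝ) * W ≤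
      C0 * L * W := by
    rw [← sum_mul]
    apply mul_le_mul_of_nonneg_right _ hW0
    refine le_trans ?_ (hφ n (by omega))
    apply sum_le_sum_of_subset_of_nonneg
    · intro d hd
      rw [mem_filter, Nat.floor_natCast, mem_Icc] at hd
      rw [mem_Icc]
      exact ⟨hd.1.1, hd.1.2.trans hDn⟩
    · intro d _ _
      positivity
  have h3 : C0 * L * W ≤ n / L ^ A / 2 := by
    have hy0 : (0 : ℝ) < (n : ℝ) ^ (1 / 10 : ℝ) := Real.rpow_pos_of_pos hn0 _
    have h4 : (n : ℝ) ^ (1 / 20 : ℝ) ≤ (n : ℝ) ^ (1 / 10 : ℝ) :=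
      Real.rpow_le_rpow_of_exponent_le hn1 (by norm_num)
    have h5 : 80 * C0 * L ^ (A + 3) ≤ (n : ℝ) ^ (1 / 10 : ℝ) := by
      have h6 : (0 : ℝ) ≤ L ^ (A + 3) := by positivity
      nlinarith
    rw [hW, div_div, le_div_iff₀ (by positivity)]
    have h7 : C0 * L * (40 * L ^ 2 * ((n : ℝ) / (n : ℝ) ^ (1 / 10 : ℝ))) * (L ^ A * 2) =
        (80 * C0 * L ^ (A + 3)) * ((n : ℝ) / (n : ℝ) ^ (1 / 10 : ℝ)) := by
      ring
    rw [h7]
    calc (80 * C0 * L ^ (A + 3)) * ((n : ℝ) / (n : ℝ) ^ (1 / 10 : ℝ))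
        ≤ (n : ℝ) ^ (1 / 10 : ℝ) * ((n : ℝ) / (n : ℝ) ^ (1 / 10 : ℝ)) :=
          mul_le_mul_of_nonneg_right h5 (by positivity)
      _ = n := by
          rw [mul_comm, div_mul_cancel₀ _ hy0.ne']
  have h4 : n / L ^ (A + 1) ≤ n / L ^ A / 2 := by
    rw [div_div]
    apply div_le_div_of_nonneg_left hn0.le (by positivity)
    rw [pow_succ]
    exact mul_le_mul_of_nonneg_left hL2 (by positivity)
  linarith

end Pool.Agent.Lib.H59C
end

-- from Lib.H59C.CS1
section

/-!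
# CS1: the first term of the weighted sieve
-/

open Finset

namespace Pool.Agent.Lib.H59C

theorem PP_prime {n N p1 q : ℕ} (h : q ∈ PP n N p1) : q.Prime ∧ 3 ≤ q := by
  rw [mem_PP] at h
  exact ⟨h.2.1, h.1.1⟩

theorem lg_nonneg (p : ℕ) : 0 ≤ lg p := by
  unfold lg
  exact Real.log_natCast_nonneg p

theorem XX_nonneg (y1 y2 : ℕ) : 0 ≤ XX y1 y2 := by
  unfold XX
  exact sum_nonneg fun p _ => lg_nonneg p

/-- The remainder is small. -/
theorem cs_rem (ε : ℝ) (hε : 0 < ε) : ∃ n0 : ℕ, ∀ n : ℕ, n0 ≤ n → ∀ p1 N y1 y2 : ℕ,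
    Win n N y1 y2 → 2 * n / Real.log n ^ 3 ≤ ε * (XX y1 y2 * VV (PP n N p1) (zz n)) := by
  obtain ⟨c, hc, n2, hmain⟩ := main_lower
  obtain ⟨n3, hn3⟩ := cdl_log (max 1 (2 / (ε * c)))
  refine ⟨max (max n2 n3) 3, fun n hn p1 N y1 y2 hW => ?_⟩
  have h2 : n2 ≤ n := le_trans (le_trans (le_max_left _ _) (le_max_left _ _)) hn
  have h3 : n3 ≤ n := le_trans (le_trans (le_max_right _ _) (le_max_left _ _)) hn
  obtain ⟨m1, -, -⟩ := hmain n h2 p1 N y1 y2 hW
  have hL := hn3 n h3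
  have hL1 : 1 ≤ Real.log n := le_trans (le_max_left _ _) hL
  have hL2 : 2 / (ε * c) ≤ Real.log n := le_trans (le_max_right _ _) hL
  have hL0 : 0 < Real.log n := by linarith
  have hhl := one_le_hl N
  have hn0 : (0 : ℝ) ≤ n := Nat.cast_nonneg _
  calc 2 * n / Real.log n ^ 3 ≤ ε * (c * hl N * n / Real.log n) := by
        rw [div_le_iff₀ (by positivity)]
        have e1 : ε * (c * hl N * n / Real.log n) * Real.log n ^ 3 =
            ε * c * hl N * n * Real.log n ^ 2 := by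
          field_simp
        rw [e1]
        have e2 : 2 ≤ ε * c * Real.log n := by
          rw [div_le_iff₀ (by positivity)] at hL2
          linarith
        have e3 : 2 ≤ ε * c * Real.log n ^ 2 := by
          have : ε * c * Real.log n ≤ ε * c * Real.log n ^ 2 := by
            apply mul_le_mul_of_nonneg_left _ (by positivity)
            nlinarith
          linarith
        calc (2 : ℝ) * n ≤ (ε * c * Real.log n ^ 2) * n := by
              apply mul_le_mul_of_nonneg_right e3 hn0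
          _ ≤ (ε * c * Real.log n ^ 2) * n * hl N := by
              apply le_mul_of_one_le_right (by positivity) hhl
          _ = ε * c * hl N * n * Real.log n ^ 2 := by ring
    _ ≤ ε * (XX y1 y2 * VV (PP n N p1) (zz n)) := by
        apply mul_le_mul_of_nonneg_left m1 hε.le

/-- Proof. `jr (ε/4)` gives `Q0, z0`; `rem_A 3` gives `A', B, n0`. Take `z = zz n`, `D = DD n B / Q0` (so
`D * Q0 = DD n B`), `s = log D/log z`: `log (DD n B) = (1/2) log n - B log log n + O(1)` (`DD n B ≤ √n`), so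
`s ≤ 4` and `s → 4` as `n → ∞`, hence `AA log (s - 1)/s ≥ AA (log 3)/4 - ε/4`. The remainder `2 n/(log n)^3` is at most
`(ε/4) XX VV` by `main_lower` (`hl N ≥ 1`). -/
theorem S1_lower (ε : ℝ) (hε : 0 < ε) : ∃ A' n0 : ℕ, ∀ n : ℕ, n0 ≤ n → ∀ p1 : ℕ, p1.Prime →
    SWp A' n p1 → ∀ N y1 y2 : ℕ, Win n N y1 y2 →
    XX y1 y2 * VV (PP n N p1) (zz n) * (AA * Real.log 3 / 4 - ε) ≤
      sift (Sq y1 y2) lg (fun p => Nat.dist N p) (PP n N p1) (zz n) := by
  obtain ⟨Q0, hQ0, z0, hz0, hjr⟩ := jr (ε / 4) (by linarith)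
  obtain ⟨A', B, n1, hrem⟩ := rem_A 3
  obtain ⟨n2, hn2⟩ := cs_rem (ε / 4) (by linarith)
  have hcont : ContinuousAt (fun s : ℝ => AA * Real.log (s - 1) / s) 4 := by
    apply ContinuousAt.div
    · apply ContinuousAt.mul continuousAt_const
      apply ContinuousAt.log
      · fun_prop
      · norm_num
    · fun_prop
    · norm_num
  obtain ⟨δ, hδ, hcδ⟩ := Metric.continuousAt_iff.mp hcont (ε / 4) (by linarith)
  obtain ⟨η, hη⟩ : ∃ η : ℝ, η = min (δ / 16) (1 / 8) := ⟨_, rfl⟩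
  have hη0 : 0 < η := by rw [hη]; exact lt_min (by linarith) (by norm_num)
  have hη1 : η ≤ δ / 16 := by rw [hη]; exact min_le_left _ _
  have hη2 : η ≤ 1 / 8 := by rw [hη]; exact min_le_right _ _
  obtain ⟨n3, hn3⟩ := dd_log B Q0 hQ0 η hη0
  obtain ⟨n4, hn4⟩ := cdl_zz z0
  refine ⟨A', n1 + n2 + n3 + n4 + 3, fun n hn p1 hp1 hSW N y1 y2 hW => ?_⟩
  have hN : (3 : ℝ) ≤ n := by exact_mod_cast (by omega : 3 ≤ n)
  have hL : 0 < Real.log n := Real.log_pos (by linarith)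
  obtain ⟨hD1, hDl, hDu, hDp⟩ := hn3 n (by omega)
  have hzn := hn4 n (by omega)
  have hlz := log_zz n (by omega)
  obtain ⟨hr, -⟩ := hrem n (by omega) p1 hp1 hSW N y1 y2 hW
  have hsm := hn2 n (by omega) p1 N y1 y2 hW
  have hzpos : 0 < zz n := by linarith
  obtain ⟨D, hD⟩ : ∃ D : ℝ, D = (DD n B : ℝ) / Q0 := ⟨_, rfl⟩
  rw [← hD] at hDl hDu hDp
  have hlz0 : 0 < Real.log (zz n) := by rw [hlz]; linarith
  have h2z : 2 * Real.log (zz n) ≤ Real.log D := by
    rw [hlz]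
    have : (3 / 8 : ℝ) * Real.log n ≤ (1 / 2 - η) * Real.log n := by
      apply mul_le_mul_of_nonneg_right (by linarith) hL.le
    linarith
  have h4z : Real.log D ≤ 4 * Real.log (zz n) := by
    rw [hlz]
    linarith
  have hzD : zz n ≤ D := by
    rw [← Real.log_le_log_iff hzpos hDp]
    linarith
  have hX := XX_nonneg y1 y2
  obtain ⟨-, hlow⟩ := hjr (PP n N p1) (fun q hq => PP_prime hq) (zz n) D hzn hzD (Sq y1 y2) lg
    (fun p => Nat.dist N p) (XX y1 y2) hX (fun p _ => lg_nonneg p)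
  have hlow := hlow h2z h4z
  have hDQ : D * (Q0 : ℝ) = (DD n B : ℝ) := by
    rw [hD]
    have : (Q0 : ℝ) ≠ 0 := by
      have : (1 : ℝ) ≤ Q0 := by exact_mod_cast hQ0
      linarith
    field_simp
  rw [hDQ] at hlow
  obtain ⟨s, hs⟩ : ∃ s : ℝ, s = Real.log D / Real.log (zz n) := ⟨_, rfl⟩
  rw [← hs] at hlow
  have hs4 : s ≤ 4 := by
    rw [hs, div_le_iff₀ hlz0]
    linarith
  have hsl : 4 - 8 * η ≤ s := by
    rw [hs, le_div_iff₀ hlz0, hlz]
    have : (4 - 8 * η) * (1 / 8 * Real.log n) = (1 / 2 - η) * Real.log n := by ring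
    linarith
  have hdist : dist s 4 < δ := by
    rw [Real.dist_eq, abs_lt]
    constructor <;> linarith
  have hclose := hcδ hdist
  rw [Real.dist_eq, abs_lt] at hclose
  have hmain : AA * Real.log 3 / 4 - ε / 4 ≤ AA * Real.log (s - 1) / s := by
    have h31 : (4 : ℝ) - 1 = 3 := by norm_num
    have := hclose.1
    rw [h31] at this
    linarith
  have hVX : 0 ≤ XX y1 y2 * VV (PP n N p1) (zz n) := by
    have h0 : 0 ≤ 2 * (n : ℝ) / Real.log n ^ 3 := by positivity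
    have h1 : 0 ≤ ε / 4 * (XX y1 y2 * VV (PP n N p1) (zz n)) := le_trans h0 hsm
    by_contra hcon
    push Not at hcon
    have := mul_neg_of_pos_of_neg (by linarith : 0 < ε / 4) hcon
    linarith
  have hA : XX y1 y2 * VV (PP n N p1) (zz n) * (AA * Real.log 3 / 4 - ε / 2) ≤
      XX y1 y2 * VV (PP n N p1) (zz n) * (AA * Real.log (s - 1) / s - ε / 4) := by
    apply mul_le_mul_of_nonneg_left _ hVX
    linarith
  have e1 : XX y1 y2 * VV (PP n N p1) (zz n) * (AA * Real.log 3 / 4 - ε) =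
      XX y1 y2 * VV (PP n N p1) (zz n) * (AA * Real.log 3 / 4 - ε / 2) -
        ε / 2 * (XX y1 y2 * VV (PP n N p1) (zz n)) := by ring
  have e2 : 0 ≤ ε / 4 * (XX y1 y2 * VV (PP n N p1) (zz n)) := by positivity
  rw [e1]
  linarith

end Pool.Agent.Lib.H59C
end

-- from Lib.H59C.CBS
section

/-!
# CBS: the sieve bound for a box
-/

open Finset

namespace Pool.Agent.Lib.H59C

open Classical in
/-- The prime values of the switched sequence in a box.

Proof. `jr (ε/8)` gives `Q0, z0`, `rem_box 6` gives `A', B, n0`. Take `z' = n^(1/6)`, `D = DD n B/Q0`: `log D ≤ 3 log z'` and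
`z' ≤ D`. Primes `bb ≥ n^(1/6)` are not divisible by any prime `q < z'`, so the left side is at most `sift`, and
`sift ≤ XB VV(z') (AA log z'/log D + ε/8) + remd`. By `ratio_VV` (with `z = zz n`, `z'`; every prime in
`[z, z')` other than `p1` divides `N` or is in `PP n N p1`, and `p1 < z`; `N ≤ 2 n ≤ n^3`)
`VV(z') ≤ (1 + η) (log z/log z') VV(z)`, and `log z/log D → 1/4`. (`log z/log z' = 3/4`.) -/
theorem box_sieve (ε : ℝ) (hε : 0 < ε) : ∃ A' n0 : ℕ, ∀ n : ℕ, n0 ≤ n → ∀ p1 : ℕ, p1.Prime →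
    p1 ^ 100 ≤ n → SWp A' n p1 → ∀ N y2 : ℕ, 0 < N → N ≤ 2 * n →
    ∀ (M u v : ℕ) (α : ℕ → ℝ), (∀ m, 0 ≤ α m ∧ α m ≤ 1) →
    (∀ m, α m ≠ 0 → ∀ r : ℕ, r.Prime → r ∣ m → (n : ℝ) ^ (1 / 10 : ℝ) ≤ r) →
    (n : ℝ) ^ (1 / 4 : ℝ) ≤ M → (n : ℝ) ^ (1 / 4 : ℝ) ≤ v → u ≤ v → M * v ≤ 8 * n →
    ∑ x ∈ (BX M u v).filter (fun x => (bb N y2 x).Prime ∧ (n : ℝ) ^ (1 / 6 : ℝ) ≤ bb N y2 x),
      wB α x ≤
      XB M u v α * VV (PP n N p1) (zz n) * (AA / 4 + ε) + n / Real.log n ^ 6 := by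
  have hAA := AA_pos
  obtain ⟨Q0, hQ0, z0, hz0, hjr⟩ := jr (ε / 8) (by linarith)
  obtain ⟨A', B, n1, hrem⟩ := rem_box 6
  -- `ρ`: relative error
  obtain ⟨ρ, hρ⟩ : ∃ ρ : ℝ, ρ = min (1 / 8) (ε / (8 * AA)) := ⟨_, rfl⟩
  have hρ0 : 0 < ρ := by rw [hρ]; exact lt_min (by norm_num) (by positivity)
  have hρ1 : ρ ≤ 1 / 8 := by rw [hρ]; exact min_le_left _ _
  have hρ2 : AA * ρ ≤ ε / 8 := by
    have h : ρ ≤ ε / (8 * AA) := by rw [hρ]; exact min_le_right _ _
    calc AA * ρ ≤ AA * (ε / (8 * AA)) := mul_le_mul_of_nonneg_left h hAA.le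
      _ = ε / 8 := by field_simp
  obtain ⟨n2, hn2⟩ := ratio_VV ρ hρ0
  obtain ⟨n3, hn3⟩ := dd_log B Q0 hQ0 (ρ / 8) (by linarith)
  obtain ⟨n4, hn4⟩ := cdl_zz z0
  refine ⟨A', n1 + n2 + n3 + n4 + 3, fun n hn p1 hp1 hp100 hSW N y2 hN0 hN2 M u v α hα hαr hM hv
    huv hMv => ?_⟩
  have hN : (3 : ℝ) ≤ n := by exact_mod_cast (by omega : 3 ≤ n)
  have hL : 0 < Real.log n := Real.log_pos (by linarith)
  obtain ⟨hD1, hDl, hDu, hDp⟩ := hn3 n (by omega)
  have hzn := hn4 n (by omega)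
  have hlz := log_zz n (by omega)
  have hzpos : 0 < zz n := by linarith
  have hlz0 : 0 < Real.log (zz n) := by rw [hlz]; linarith
  obtain ⟨z', hz'⟩ : ∃ z' : ℝ, z' = (n : ℝ) ^ (1 / 6 : ℝ) := ⟨_, rfl⟩
  have hlz' : Real.log z' = 1 / 6 * Real.log n := by
    rw [hz', Real.log_rpow (by linarith)]
  have hz'pos : 0 < z' := by rw [hz']; positivity
  have hzz' : zz n ≤ z' := by
    rw [← Real.log_le_log_iff hzpos hz'pos, hlz, hlz']
    linarith
  have hz'n : z' ≤ n := by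
    rw [← Real.log_le_log_iff hz'pos (by linarith), hlz']
    linarith
  have hα0 : ∀ x, 0 ≤ wB α x := fun x => mul_nonneg (hα _).1 (lg_nonneg _)
  have hXB : 0 ≤ XB M u v α := by
    unfold XB
    exact mul_nonneg (sum_nonneg fun m _ => (hα m).1) (XX_nonneg _ _)
  have hV : ∀ z : ℝ, 0 ≤ VV (PP n N p1) z := by
    intro z
    unfold VV VP
    apply prod_nonneg
    intro q hq
    have h3 := (PP_prime (mem_filter.mp hq).1).2
    have h3' : (3 : ℝ) ≤ q := by exact_mod_cast h3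
    unfold gq
    rw [sub_nonneg, div_le_one (by linarith)]
    linarith
  -- the level
  obtain ⟨D, hD⟩ : ∃ D : ℝ, D = (DD n B : ℝ) / Q0 := ⟨_, rfl⟩
  rw [← hD] at hDl hDu hDp
  have hQ0' : (1 : ℝ) ≤ Q0 := by exact_mod_cast hQ0
  have hDQ : D * (Q0 : ℝ) = (DD n B : ℝ) := by
    rw [hD]
    field_simp
  have h3z : Real.log D ≤ 3 * Real.log z' := by
    rw [hlz']
    linarith
  have hz'D : z' ≤ D := by
    rw [← Real.log_le_log_iff hz'pos hDp, hlz']
    have : (1 / 6 : ℝ) * Real.log n ≤ (1 / 2 - ρ / 8) * Real.log n :=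
      mul_le_mul_of_nonneg_right (by linarith) hL.le
    linarith
  obtain ⟨hup, -⟩ := hjr (PP n N p1) (fun q hq => PP_prime hq) z' D (by linarith) hz'D
    (BX M u v) (wB α) (bb N y2) (XB M u v α) hXB (fun x _ => hα0 x)
  have hup := hup h3z
  rw [hDQ] at hup
  have hr := hrem n (by omega) p1 hp1 hSW N y2 hN0 M u v α hα hαr hM hv huv hMv z'
  -- the left side is at most the sifted sum
  have hleft : ∑ x ∈ (BX M u v).filter (fun x => (bb N y2 x).Prime ∧
      (n : ℝ) ^ (1 / 6 : ℝ) ≤ bb N y2 x), wB α x ≤ sift (BX M u v) (wB α) (bb N y2) (PP n N p1) z' := by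
    unfold sift
    apply sum_le_sum_of_subset_of_nonneg
    · intro x hx
      rw [mem_filter] at hx ⊢
      refine ⟨hx.1, ?_⟩
      intro q hq hqz hdvd
      have h1 := (Nat.prime_dvd_prime_iff_eq (PP_prime hq).1 hx.2.1).mp hdvd
      have h2 := hx.2.2
      rw [← hz', ← h1] at h2
      linarith
    · intro x _ _
      exact hα0 x
  -- comparison of the products
  have hN3 : N ≤ n ^ 3 := by
    have h3 : 3 ≤ n := by omega
    calc N ≤ 2 * n := hN2
      _ ≤ n * n ^ 2 := by nlinarith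
      _ = n ^ 3 := by ring
  have hp1z : (p1 : ℝ) < zz n := by
    have h1 : (p1 : ℝ) ^ (100 : ℕ) ≤ n := by exact_mod_cast hp100
    have hp0 : (0 : ℝ) < p1 := by exact_mod_cast hp1.pos
    rw [← Real.log_lt_log_iff hp0 hzpos, hlz]
    have h2 := Real.log_le_log (by positivity) h1
    rw [Real.log_pow] at h2
    push_cast at h2
    have h3 : 0 ≤ Real.log p1 := Real.log_natCast_nonneg p1
    linarith
  have hratio := hn2 n (by omega) (PP n N p1) N (zz n) z' hN0 hN3 (by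
      unfold zz
      apply Real.rpow_le_rpow_of_exponent_le (by linarith) (by norm_num)) hzz' hz'n
    (fun q hq => PP_prime hq) (by
      intro q hq hzq hqz'
      by_cases hqN : q ∣ N
      · right; exact hqN
      · left
        rw [mem_PP]
        refine ⟨⟨?_, ?_⟩, hq, hqN, ?_⟩
        · have h1 : (2 : ℝ) ≤ zz n := by linarith
          rcases lt_or_ge q 3 with h | h
          · exfalso
            have h2 : q = 2 := by have := hq.two_le; omega
            -- `q = 2 ≥ zz n ≥ z0 ≥ 2`; excluded by `p1 < zz n` and `p1 ≥ 2`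
            have h3 : (2 : ℝ) ≤ p1 := by exact_mod_cast hp1.two_le
            have h4 : (q : ℝ) = 2 := by exact_mod_cast h2
            linarith
          · exact h
        · have h1 : (q : ℝ) ≤ n := by linarith
          exact_mod_cast h1
        · intro h
          rw [h] at hzq
          linarith)
  -- final computation
  have hlD0 : 0 < Real.log D := by
    have : 0 < (1 / 2 - ρ / 8) * Real.log n := mul_pos (by linarith) hL
    linarith
  have hq34 : Real.log (zz n) / Real.log z' = 3 / 4 := by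
    rw [hlz, hlz']
    field_simp
    norm_num
  rw [hq34] at hratio
  have hs : Real.log z' / Real.log D ≤ 1 / 3 * (1 + ρ) := by
    rw [div_le_iff₀ hlD0, hlz']
    have h1 : (1 / 2 - ρ / 8) * Real.log n * (1 / 3 * (1 + ρ)) ≤ Real.log D * (1 / 3 * (1 + ρ)) :=
      mul_le_mul_of_nonneg_right hDl (by positivity)
    have h2 : 1 / 6 * Real.log n ≤ (1 / 2 - ρ / 8) * Real.log n * (1 / 3 * (1 + ρ)) := by
      have h3 : 1 / 6 ≤ (1 / 2 - ρ / 8) * (1 / 3 * (1 + ρ)) := by nlinarith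
      calc 1 / 6 * Real.log n ≤ ((1 / 2 - ρ / 8) * (1 / 3 * (1 + ρ))) * Real.log n :=
            mul_le_mul_of_nonneg_right h3 hL.le
        _ = (1 / 2 - ρ / 8) * Real.log n * (1 / 3 * (1 + ρ)) := by ring
    linarith
  have hfac : AA / (Real.log D / Real.log z') + ε / 8 ≤ AA / 3 * (1 + ρ) + ε / 8 := by
    have h1 : AA / (Real.log D / Real.log z') = AA * (Real.log z' / Real.log D) := by
      rw [div_div_eq_mul_div, mul_div_assoc]
    rw [h1]
    have := mul_le_mul_of_nonneg_left hs hAA.le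
    linarith
  calc ∑ x ∈ (BX M u v).filter (fun x => (bb N y2 x).Prime ∧
      (n : ℝ) ^ (1 / 6 : ℝ) ≤ bb N y2 x), wB α x
      ≤ XB M u v α * VV (PP n N p1) z' * (AA / (Real.log D / Real.log z') + ε / 8) +
        remd (BX M u v) (wB α) (bb N y2) (PP n N p1) z' (XB M u v α) (DD n B) := hleft.trans hup
    _ ≤ XB M u v α * VV (PP n N p1) z' * (AA / 3 * (1 + ρ) + ε / 8) + n / Real.log n ^ 6 := by
        apply add_le_add _ hr
        exact mul_le_mul_of_nonneg_left hfac (mul_nonneg hXB (hV _))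
    _ ≤ XB M u v α * ((1 + ρ) * (3 / 4) * VV (PP n N p1) (zz n)) * (AA / 3 * (1 + ρ) + ε / 8) +
        n / Real.log n ^ 6 := by
        have h1 : XB M u v α * VV (PP n N p1) z' ≤
            XB M u v α * ((1 + ρ) * (3 / 4) * VV (PP n N p1) (zz n)) :=
          mul_le_mul_of_nonneg_left hratio hXB
        have h2 := mul_le_mul_of_nonneg_right h1
          (by positivity : 0 ≤ AA / 3 * (1 + ρ) + ε / 8)
        linarith
    _ = XB M u v α * VV (PP n N p1) (zz n) * ((1 + ρ) * (3 / 4) * (AA / 3 * (1 + ρ) + ε / 8)) +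
        n / Real.log n ^ 6 := by ring
    _ ≤ XB M u v α * VV (PP n N p1) (zz n) * (AA / 4 + ε) + n / Real.log n ^ 6 := by
        have h1 : (1 + ρ) * (3 / 4) * (AA / 3 * (1 + ρ) + ε / 8) ≤ AA / 4 + ε := by
          have e1 : (1 + ρ) * (3 / 4) * (AA / 3 * (1 + ρ) + ε / 8) =
              AA / 4 + AA * ρ * (1 / 2 + ρ / 4) + (1 + ρ) * (3 / 4) * (ε / 8) := by ring
          rw [e1]
          have e2 : AA * ρ * (1 / 2 + ρ / 4) ≤ ε / 8 * 1 := by
            apply mul_le_mul hρ2 (by linarith) (by positivity) (by linarith)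
          have e3 : (1 + ρ) * (3 / 4) * (ε / 8) ≤ 1 * (ε / 8) := by
            apply mul_le_mul_of_nonneg_right _ (by linarith)
            linarith
          linarith
        have h2 := mul_le_mul_of_nonneg_left h1 (mul_nonneg hXB (hV (zz n)))
        linarith

end Pool.Agent.Lib.H59C
end
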