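import Pool.Agent.Lib.H1M.RV3.D_Goldbach_Defs
import Pool.Agent.Lib.H1M.RV3.M049

/-! Merged copies (to shorten the build) of Lib.H18R.OG, Lib.H18R.SM. -/

-- from Lib.H18R.OG
section

/-!
# Project H18R (MP_443e5f_co): generic vertices at distance at most five in the graph below them

Module G of project T (`H96G`) gives a set `Γ` of generic vertices of `[1, n]`, pairwise at distance at most `5` in the
graph on `[1, n]`. The paths only use vertices of lower scales, or generic vertices which can be chosen anywhere; so the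
distances are at most `5` also in the graph on `[1, max u v]`.
-/

open Finset

namespace Pool.Agent.Lib.H18R

open Pool.Agent.Lib.H96G
open Pool.Agent.Lib.GoldbachGraph (hadj hdeg hadj_comm)

theorem og_PZ {n n' Z : ℕ} {s t : ℝ} {Γ : Finset ℕ} (h : PZ n Z s t Γ) (hn : n' ≤ n) :
    PZ n' Z s t (Γ.filter fun x => x ≤ n') where
  sub := by
    intro x hx
    rw [mem_filter] at hx
    have := h.sub hx.1
    rw [mem_Icc] at this ⊢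
    exact ⟨this.1, hx.2⟩
  co := by
    refine le_trans ?_ h.co
    have h1 : (Icc (4 * Z) n' \ (Γ.filter fun x => x ≤ n')).card ≤ (Icc (4 * Z) n \ Γ).card := by
      apply card_le_card
      intro x hx
      rw [mem_sdiff, mem_filter, mem_Icc] at hx
      rw [mem_sdiff, mem_Icc]
      exact ⟨⟨hx.1.1, hx.1.2.trans hn⟩, fun h2 => hx.2 ⟨h2, hx.1.2⟩⟩
    exact_mod_cast h1
  al := fun u hu => h.al u (mem_filter.1 hu).1
  be := by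
    intro u hu
    refine le_trans ?_ (h.be u (mem_filter.1 hu).1)
    have h1 : (far Z u (Icc (4 * Z) n')).card ≤ (far Z u (Icc (4 * Z) n)).card := by
      apply card_le_card
      intro x hx
      simp only [far, mem_filter] at hx ⊢
      exact ⟨Icc_subset_Icc_right hn hx.1, hx.2⟩
    exact_mod_cast h1
  ga := fun u hu h3 => h.ga u (mem_filter.1 hu).1 h3

/-- Distances between generic vertices in the graph below them. -/
theorem og_dist {lo n Z0 Z1 Z2 : ℕ} (hlo : lo ≤ 1) {s t : ℝ} {Γ0 Γ1 Γ2 : Finset ℕ}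
    (h : Tri n Z0 Z1 Z2 s t Γ0 Γ1 Γ2) {u v n' : ℕ} (hu : u ∈ Γ0 ∩ Γ1 ∩ Γ2) (hv : v ∈ Γ0 ∩ Γ1 ∩ Γ2)
    (hu' : u ≤ n') (hv' : v ≤ n') (h1 : n' ≤ n) (h2 : 100 * Z2 ≤ n') (h3 : 100 ≤ n') (h4 : 20 * s ≤ n') :
    (HL lo n').edist u v ≤ 5 ∧ (u % 2 = v % 2 → (HL lo n').edist u v ≤ 4) ∧
      (OT u v → (HL lo n').edist u v ≤ 3) := by
  have hT : Tri n' Z0 Z1 Z2 s t (Γ0.filter fun x => x ≤ n') (Γ1.filter fun x => x ≤ n') (Γ2.filter fun x => x ≤ n') :=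
    ⟨og_PZ h.P0 h1, og_PZ h.P1 h1, og_PZ h.P2 h1, h.h01, h.h12, h2, h3, h4, h.hst⟩
  rw [mem_inter, mem_inter] at hu hv
  exact C6 hlo hT (mem_filter.2 ⟨hu.1.1, hu'⟩) (mem_filter.2 ⟨hu.1.2, hu'⟩) (mem_filter.2 ⟨hu.2, hu'⟩)
    (mem_filter.2 ⟨hv.1.1, hv'⟩) (mem_filter.2 ⟨hv.1.2, hv'⟩) (mem_filter.2 ⟨hv.2, hv'⟩)

/-- The vertices outside of `Γ0 ∩ Γ1 ∩ Γ2`. Proof. Such a `u ∈ Icc 1 n` is `< 4 Z2`, or in one of the sets
`Icc (4 Z_i) n \ Γ_i` (fields `co`; `Z0 ≤ Z1 ≤ Z2`). -/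
theorem og_co {n Z0 Z1 Z2 : ℕ} {s t : ℝ} {Γ0 Γ1 Γ2 : Finset ℕ} (h : Tri n Z0 Z1 Z2 s t Γ0 Γ1 Γ2) :
    ((Icc 1 n \ (Γ0 ∩ Γ1 ∩ Γ2)).card : ℝ) ≤ 4 * Z2 + 3 * s := by
  have hsub : Icc 1 n \ (Γ0 ∩ Γ1 ∩ Γ2) ⊆ range (4 * Z2) ∪ ((Icc (4 * Z0) n \ Γ0) ∪
      ((Icc (4 * Z1) n \ Γ1) ∪ (Icc (4 * Z2) n \ Γ2))) := by
    intro u hu
    rw [mem_sdiff, mem_Icc, mem_inter, mem_inter] at hu
    obtain ⟨⟨h1, h2⟩, h3⟩ := hu
    have h01 := h.h01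
    have h12 := h.h12
    simp only [mem_union, mem_range, mem_sdiff, mem_Icc]
    by_cases h4 : u < 4 * Z2
    · exact Or.inl h4
    · right
      by_cases h5 : u ∈ Γ0
      · by_cases h6 : u ∈ Γ1
        · refine Or.inr (Or.inr ⟨by omega, fun h7 => h3 ⟨⟨h5, h6⟩, h7⟩⟩)
        · exact Or.inr (Or.inl ⟨by omega, h6⟩)
      · exact Or.inl ⟨by omega, h5⟩
  have h1 := card_le_card hsub
  have h2 := card_union_le (range (4 * Z2)) ((Icc (4 * Z0) n \ Γ0) ∪ ((Icc (4 * Z1) n \ Γ1) ∪ (Icc (4 * Z2) n \ Γ2)))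
  have h3 := card_union_le (Icc (4 * Z0) n \ Γ0) ((Icc (4 * Z1) n \ Γ1) ∪ (Icc (4 * Z2) n \ Γ2))
  have h4 := card_union_le (Icc (4 * Z1) n \ Γ1) (Icc (4 * Z2) n \ Γ2)
  rw [card_range] at h2
  have h5 : (Icc 1 n \ (Γ0 ∩ Γ1 ∩ Γ2)).card ≤ 4 * Z2 + ((Icc (4 * Z0) n \ Γ0).card + ((Icc (4 * Z1) n \ Γ1).card +
      (Icc (4 * Z2) n \ Γ2).card)) := by omega
  have h6 : ((Icc 1 n \ (Γ0 ∩ Γ1 ∩ Γ2)).card : ℝ) ≤ 4 * Z2 + (((Icc (4 * Z0) n \ Γ0).card : ℝ) + (((Icc (4 * Z1) n \ Γ1).card : ℝ) +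
      ((Icc (4 * Z2) n \ Γ2).card : ℝ))) := by exact_mod_cast h5
  linarith [h.P0.co, h.P1.co, h.P2.co]

/-- Generic vertices of `[1, n]`, with distances in the graphs below them. -/
def Own (n : ℕ) (D : ℝ) (Γ : Finset ℕ) : Prop :=
  ((Icc 1 n \ Γ).card : ℝ) ≤ (n : ℝ) ^ (1 - D) ∧
    ∀ u ∈ Γ, ∀ v ∈ Γ, ∀ n' : ℕ, u ≤ n' → v ≤ n' → n' ≤ n → (HL 1 n').edist u v ≤ 5 ∧
      (u % 2 = v % 2 → (HL 1 n').edist u v ≤ 4) ∧ (OT u v → (HL 1 n').edist u v ≤ 3)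

/-- **OG.** -/
theorem og {n M : ℕ} {L : ℕ → ℤ → ℝ} {c B b : ℝ} (hN : Nm n b) (h : GIn n M L c B b) :
    ∃ Γ : Finset ℕ, Γ ⊆ Icc 1 n ∧ Own n (B / 10) Γ := by
  have hb := h.b_pos
  have hbB := h.hb
  have hBc := h.hB
  have hc := h.hc
  obtain ⟨Z0, Z1, Z2, Γ0, Γ1, Γ2, hM0, hlo0, hhi0, hZ2, hT⟩ := D2 hN h
  set W := 100 * Z2 + 100 + ⌈20 * (n : ℝ) ^ (1 - c / 2 + 3 * B)⌉₊ with hW
  have hs1 : (n : ℝ) ^ (1 - c / 2 + 3 * B) ≤ (n : ℝ) ^ (1 - B) := hN.mono (by linarith)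
  have hZ2R : (Z2 : ℝ) = 64 * Z0 := by rw [hZ2]; push_cast; ring
  have hone : (1 : ℝ) ≤ (n : ℝ) ^ (1 - B) := by
    have := hN.mono (x := 0) (y := 1 - B) (by linarith)
    rwa [Real.rpow_zero] at this
  have hp := hN.ppos (1 - c / 2 + 3 * B)
  have hceil : (⌈20 * (n : ℝ) ^ (1 - c / 2 + 3 * B)⌉₊ : ℝ) ≤ 20 * (n : ℝ) ^ (1 - c / 2 + 3 * B) + 1 :=
    (Nat.ceil_lt_add_one (by positivity)).le
  have hceil2 : 20 * (n : ℝ) ^ (1 - c / 2 + 3 * B) ≤ (⌈20 * (n : ℝ) ^ (1 - c / 2 + 3 * B)⌉₊ : ℝ) := Nat.le_ceil _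
  have hWR : (W : ℝ) ≤ 13000 * (n : ℝ) ^ (1 - B) := by
    rw [hW]
    push_cast
    linarith
  refine ⟨(Γ0 ∩ Γ1 ∩ Γ2).filter (fun x => W ≤ x), ?_, ?_, ?_⟩
  · intro u hu
    rw [mem_filter, mem_inter, mem_inter] at hu
    have h1 := hT.P0.sub hu.1.1.1
    rw [mem_Icc] at h1 ⊢
    omega
  · have h1 : (Icc 1 n \ (Γ0 ∩ Γ1 ∩ Γ2).filter (fun x => W ≤ x)) ⊆ (Icc 1 n \ (Γ0 ∩ Γ1 ∩ Γ2)) ∪ range W := by
      intro u hu
      rw [mem_sdiff, mem_filter, not_and] at hu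
      rw [mem_union, mem_sdiff, mem_range]
      by_cases h2 : u ∈ Γ0 ∩ Γ1 ∩ Γ2
      · have := hu.2 h2
        right
        omega
      · exact Or.inl ⟨hu.1, h2⟩
    have h2 := (card_le_card h1).trans (card_union_le _ _)
    rw [card_range] at h2
    have h3 : ((Icc 1 n \ (Γ0 ∩ Γ1 ∩ Γ2).filter (fun x => W ≤ x)).card : ℝ) ≤
        ((Icc 1 n \ (Γ0 ∩ Γ1 ∩ Γ2)).card : ℝ) + W := by exact_mod_cast h2
    have h4 := og_co hT
    have h5 : (20000 : ℝ) * (n : ℝ) ^ (1 - B) ≤ (n : ℝ) ^ (1 - B / 10) := hN.cst (by norm_num) (by linarith)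
    linarith
  · intro u hu v hv n' hu' hv' hn'
    rw [mem_filter] at hu hv
    refine og_dist le_rfl hT hu.1 hv.1 hu' hv' hn' (by omega) (by omega) ?_
    have h1 : (⌈20 * (n : ℝ) ^ (1 - c / 2 + 3 * B)⌉₊ : ℝ) ≤ n' := by
      have : ⌈20 * (n : ℝ) ^ (1 - c / 2 + 3 * B)⌉₊ ≤ n' := by omega
      exact_mod_cast this
    linarith

end Pool.Agent.Lib.H18R
end

-- from Lib.H18R.SM
section

/-!
# Project H18R (MP_443e5f_co): small vertices under Goldbach's conjecture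

Copies of proofs of `H18P/P4.lean` and `H18P/P5.lean`, in order to have fewer imports.
-/

open Finset Pool.Agent.Goldbach

namespace Pool.Agent.Lib.H18R

/-- Descent: under Goldbach's conjecture every vertex is connected to `2`, `4` or `6`. -/
theorem descent (hG : ∀ u : ℕ, Even u → 8 ≤ u → ∃ p q : ℕ, p.Prime ∧ q.Prime ∧ p ≠ q ∧ p + q = u)
    {V S : Set ℕ} {n : ℕ} (hV : ∀ a ∈ V, Even a ∧ a ≤ 2 * n) (hV2 : ∀ x ∈ Finset.Icc 1 n, 2 * x ∈ V)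
    (hS : ∀ m, m.Prime → Odd m → m < 2 * n → m ∈ S) : ∀ u : ℕ, ∀ hu : u ∈ V, 0 < u →
    ∃ w, ∃ hw : w ∈ V, (w = 2 ∨ w = 4 ∨ w = 6) ∧ (halfGraph V S).edist ⟨u, hu⟩ ⟨w, hw⟩ ≤ (u : ℕ∞) := by
  intro u
  induction u using Nat.strong_induction_on with
  | _ u ih =>
    intro hu hu0
    obtain ⟨he, hun⟩ := hV u hu
    by_cases h8 : 8 ≤ u
    · obtain ⟨p, q, hp, hq, hpq, hsum⟩ := hG u he h8
      wlog hlt : p < q generalizing p q
      · exact this q p hq hp hpq.symm (by omega) (by omega)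
      have hp2 : p ≠ 2 := by
        rintro rfl
        have h1 : Even q := by
          obtain ⟨k, hk⟩ := he
          exact ⟨k - 1, by omega⟩
        have := (Nat.Prime.even_iff hq).1 h1
        omega
      have hq2 : q ≠ 2 := by
        have := hp.two_le
        omega
      have hpo := hp.odd_of_ne_two hp2
      have hqo := hq.odd_of_ne_two hq2
      obtain ⟨k, hk⟩ := hpo
      obtain ⟨l, hl⟩ := hqo
      have hpp := hp.pos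
      have hvmem : q - p ∈ V := by
        have : q - p = 2 * (l - k) := by omega
        rw [this]
        exact hV2 _ (mem_Icc.2 ⟨by omega, by omega⟩)
      obtain ⟨w, hw, hw1, hw2⟩ := ih (q - p) (by omega) hvmem (by omega)
      refine ⟨w, hw, hw1, ?_⟩
      have hadj : (halfGraph V S).Adj ⟨u, hu⟩ ⟨q - p, hvmem⟩ := by
        rw [halfGraph_adj_iff (x := k + l + 1) (y := l - k) (by simp only; omega) (by simp only; omega)]
        refine ⟨by omega, ?_, ?_⟩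
        · have : k + l + 1 + (l - k) = q := by omega
          rw [this]
          exact hS q hq ⟨l, hl⟩ (by omega)
        · have : (((k + l + 1 : ℕ) : ℤ) - ((l - k : ℕ) : ℤ)).natAbs = p := by omega
          rw [this]
          exact hS p hp ⟨k, hk⟩ (by omega)
      have h1 : (halfGraph V S).edist ⟨u, hu⟩ ⟨q - p, hvmem⟩ ≤ 1 := by
        refine (SimpleGraph.edist_le (.cons hadj .nil)).trans ?_
        norm_num
      calc (halfGraph V S).edist ⟨u, hu⟩ ⟨w, hw⟩ ≤ (halfGraph V S).edist ⟨u, hu⟩ ⟨q - p, hvmem⟩ +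
            (halfGraph V S).edist ⟨q - p, hvmem⟩ ⟨w, hw⟩ := SimpleGraph.edist_triangle
        _ ≤ 1 + ((q - p : ℕ) : ℕ∞) := add_le_add h1 hw2
        _ ≤ (u : ℕ∞) := by
            have h2 : 1 + (q - p) ≤ u := by omega
            exact_mod_cast h2
    · refine ⟨u, hu, ?_, by rw [SimpleGraph.edist_self]; exact zero_le⟩
      obtain ⟨k, hk⟩ := he
      omega

theorem edist_three {V : Type*} (G : SimpleGraph V) (a b c d : V) (i j k : ℕ∞) (h1 : G.edist a b ≤ i)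
    (h2 : G.edist b c ≤ j) (h3 : G.edist c d ≤ k) : G.edist a d ≤ i + j + k :=
  calc G.edist a d ≤ G.edist a c + G.edist c d := SimpleGraph.edist_triangle
    _ ≤ (G.edist a b + G.edist b c) + G.edist c d := add_le_add_left SimpleGraph.edist_triangle _
    _ ≤ i + j + k := add_le_add (add_le_add h1 h2) h3

theorem q1_aux (hG : ∀ u : ℕ, Even u → 8 ≤ u → ∃ p q : ℕ, p.Prime ∧ q.Prime ∧ p ≠ q ∧ p + q = u)
    {V S : Set ℕ} {n : ℕ} (hV : ∀ a ∈ V, Even a ∧ a ≤ 2 * n) (hV2 : ∀ x ∈ Finset.Icc 1 n, 2 * x ∈ V)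
    (hS : ∀ m, m.Prime → Odd m → m < 2 * n → m ∈ S) (U : ℕ) (s : ℕ) (hs : s ∈ V) (hs0 : 0 < s)
    (hsU : s ≤ 2 * U)
    (h246 : ∀ w w' : ℕ, ∀ hw : w ∈ V, ∀ hw' : w' ∈ V, (w = 2 ∨ w = 4 ∨ w = 6) → (w' = 2 ∨ w' = 4 ∨ w' = 6) →
      (halfGraph V S).edist ⟨w, hw⟩ ⟨w', hw'⟩ ≤ 6)
    (h0 : ∀ hu : 0 ∈ V, ∃ w, ∃ hw : w ∈ V, (w = 2 ∨ w = 4 ∨ w = 6) ∧
      (halfGraph V S).edist ⟨0, hu⟩ ⟨w, hw⟩ ≤ 1)
    (hbig : ∀ u : ℕ, ∀ hu : u ∈ V, U ≤ u → (halfGraph V S).edist ⟨u, hu⟩ ⟨s, hs⟩ ≤ 13) :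
    ∀ u v : V, (halfGraph V S).edist u v ≤ ((2 * (3 * U + 40) : ℕ) : ℕ∞) := by
  obtain ⟨w', hw', hw1', hw2'⟩ := descent hG hV hV2 hS s hs hs0
  have key : ∀ u : V, (halfGraph V S).edist u ⟨s, hs⟩ ≤ ((3 * U + 40 : ℕ) : ℕ∞) := by
    rintro ⟨u, hu⟩
    rcases Nat.eq_zero_or_pos u with h | h
    · subst h
      obtain ⟨w, hw, hw1, hw2⟩ := h0 hu
      have h1 := h246 w w' hw hw' hw1 hw1'
      rw [SimpleGraph.edist_comm] at hw2'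
      refine (edist_three _ _ _ _ _ _ _ _ hw2 h1 hw2').trans ?_
      have : 1 + 6 + s ≤ 3 * U + 40 := by omega
      exact_mod_cast this
    · by_cases hU : U ≤ u
      · refine (hbig u hu hU).trans ?_
        have : 13 ≤ 3 * U + 40 := by omega
        exact_mod_cast this
      · obtain ⟨w, hw, hw1, hw2⟩ := descent hG hV hV2 hS u hu h
        have h1 := h246 w w' hw hw' hw1 hw1'
        rw [SimpleGraph.edist_comm] at hw2'
        refine (edist_three _ _ _ _ _ _ _ _ hw2 h1 hw2').trans ?_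
        have : u + 6 + s ≤ 3 * U + 40 := by omega
        exact_mod_cast this
  intro u v
  have h1 := key u
  have h2 := key v
  rw [SimpleGraph.edist_comm] at h2
  calc (halfGraph V S).edist u v ≤ (halfGraph V S).edist u ⟨s, hs⟩ + (halfGraph V S).edist ⟨s, hs⟩ v :=
        SimpleGraph.edist_triangle
    _ ≤ ((3 * U + 40 : ℕ) : ℕ∞) + ((3 * U + 40 : ℕ) : ℕ∞) := add_le_add h1 h2
    _ = ((2 * (3 * U + 40) : ℕ) : ℕ∞) := by push_cast; ring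

/-- an edge between small vertices -/
theorem edge {V S : Set ℕ} (x y p q : ℕ) (hx : 2 * x ∈ V) (hy : 2 * y ∈ V) (hxy : y < x) (hp : x + y = p)
    (hq : x - y = q) (hpS : p ∈ S) (hqS : q ∈ S) :
    (halfGraph V S).edist ⟨2 * x, hx⟩ ⟨2 * y, hy⟩ ≤ 1 := by
  have hadj : (halfGraph V S).Adj ⟨2 * x, hx⟩ ⟨2 * y, hy⟩ := by
    rw [halfGraph_adj_iff (x := x) (y := y) rfl rfl]
    have : ((x : ℤ) - y).natAbs = q := by omega
    rw [this, hp]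
    exact ⟨by omega, hpS, hqS⟩
  refine (SimpleGraph.edist_le (.cons hadj .nil)).trans ?_
  norm_num

/-- distances between `2`, `4`, `6` in the near Goldbach graphs -/
theorem small_near {V S : Set ℕ} (h1 : 1 ∈ S) (h3 : 3 ∈ S) (h5 : 5 ∈ S) (a2 : 2 ∈ V) (a4 : 4 ∈ V)
    (a6 : 6 ∈ V) : ∀ w w' : ℕ, ∀ hw : w ∈ V, ∀ hw' : w' ∈ V, (w = 2 ∨ w = 4 ∨ w = 6) →
      (w' = 2 ∨ w' = 4 ∨ w' = 6) → (halfGraph V S).edist ⟨w, hw⟩ ⟨w', hw'⟩ ≤ 6 := by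
  have e42 : (halfGraph V S).edist ⟨4, a4⟩ ⟨2, a2⟩ ≤ 1 := edge 2 1 3 1 a4 a2 (by norm_num) rfl rfl h3 h1
  have e64 : (halfGraph V S).edist ⟨6, a6⟩ ⟨4, a4⟩ ≤ 1 := edge 3 2 5 1 a6 a4 (by norm_num) rfl rfl h5 h1
  have key : ∀ w : ℕ, ∀ hw : w ∈ V, (w = 2 ∨ w = 4 ∨ w = 6) → (halfGraph V S).edist ⟨w, hw⟩ ⟨4, a4⟩ ≤ 3 := by
    rintro w hw (h | h | h)
    · subst h
      rw [SimpleGraph.edist_comm]
      exact e42.trans (by norm_num)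
    · subst h
      rw [SimpleGraph.edist_self]
      exact zero_le
    · subst h
      exact e64.trans (by norm_num)
  intro w w' hw hw' h h'
  have k1 := key w hw h
  have k2 := key w' hw' h'
  rw [SimpleGraph.edist_comm] at k2
  calc (halfGraph V S).edist ⟨w, hw⟩ ⟨w', hw'⟩ ≤ (halfGraph V S).edist ⟨w, hw⟩ ⟨4, a4⟩ +
        (halfGraph V S).edist ⟨4, a4⟩ ⟨w', hw'⟩ := SimpleGraph.edist_triangle
    _ ≤ 3 + 3 := add_le_add k1 k2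
    _ = 6 := by norm_num

/-- distances between `2`, `4`, `6` in the Goldbach graphs -/
theorem small_gold {V S : Set ℕ} (h3 : 3 ∈ S) (h5 : 5 ∈ S) (h7 : 7 ∈ S) (h11 : 11 ∈ S) (a0 : 0 ∈ V)
    (a2 : 2 ∈ V) (a4 : 4 ∈ V) (a6 : 6 ∈ V) (a8 : 8 ∈ V) (a10 : 10 ∈ V) (a14 : 14 ∈ V) :
    (halfGraph V S).edist ⟨0, a0⟩ ⟨6, a6⟩ ≤ 1 ∧
    ∀ w w' : ℕ, ∀ hw : w ∈ V, ∀ hw' : w' ∈ V, (w = 2 ∨ w = 4 ∨ w = 6) →
      (w' = 2 ∨ w' = 4 ∨ w' = 6) → (halfGraph V S).edist ⟨w, hw⟩ ⟨w', hw'⟩ ≤ 6 := by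
  have e82 : (halfGraph V S).edist ⟨8, a8⟩ ⟨2, a2⟩ ≤ 1 := edge 4 1 5 3 a8 a2 (by norm_num) rfl rfl h5 h3
  have e148 : (halfGraph V S).edist ⟨14, a14⟩ ⟨8, a8⟩ ≤ 1 := edge 7 4 11 3 a14 a8 (by norm_num) rfl rfl h11 h3
  have e140 : (halfGraph V S).edist ⟨14, a14⟩ ⟨0, a0⟩ ≤ 1 := edge 7 0 7 7 a14 a0 (by norm_num) rfl rfl h7 h7
  have e104 : (halfGraph V S).edist ⟨10, a10⟩ ⟨4, a4⟩ ≤ 1 := edge 5 2 7 3 a10 a4 (by norm_num) rfl rfl h7 h3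
  have e100 : (halfGraph V S).edist ⟨10, a10⟩ ⟨0, a0⟩ ≤ 1 := edge 5 0 5 5 a10 a0 (by norm_num) rfl rfl h5 h5
  have e60 : (halfGraph V S).edist ⟨6, a6⟩ ⟨0, a0⟩ ≤ 1 := edge 3 0 3 3 a6 a0 (by norm_num) rfl rfl h3 h3
  refine ⟨by rw [SimpleGraph.edist_comm]; exact e60, ?_⟩
  have key : ∀ w : ℕ, ∀ hw : w ∈ V, (w = 2 ∨ w = 4 ∨ w = 6) → (halfGraph V S).edist ⟨w, hw⟩ ⟨0, a0⟩ ≤ 3 := by
    rintro w hw (h | h | h)
    · subst h
      rw [SimpleGraph.edist_comm] at e82 e148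
      have := edist_three _ _ _ _ _ _ _ _ e82 e148 e140
      refine this.trans ?_
      norm_num
    · subst h
      rw [SimpleGraph.edist_comm] at e104
      have h1 : (halfGraph V S).edist ⟨4, a4⟩ ⟨0, a0⟩ ≤ 1 + 1 :=
        SimpleGraph.edist_triangle.trans (add_le_add e104 e100)
      refine h1.trans ?_
      norm_num
    · subst h
      exact e60.trans (by norm_num)
  intro w w' hw hw' h h'
  have k1 := key w hw h
  have k2 := key w' hw' h'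
  rw [SimpleGraph.edist_comm] at k2
  calc (halfGraph V S).edist ⟨w, hw⟩ ⟨w', hw'⟩ ≤ (halfGraph V S).edist ⟨w, hw⟩ ⟨0, a0⟩ +
        (halfGraph V S).edist ⟨0, a0⟩ ⟨w', hw'⟩ := SimpleGraph.edist_triangle
    _ ≤ 3 + 3 := add_le_add k1 k2
    _ = 6 := by norm_num

end Pool.Agent.Lib.H18R
end
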