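import Pool.Agent.Lib.H1M.RV3.M002
import Pool.Agent.Lib.H1M.RV3.M013
import Pool.Agent.Lib.H1M.RV3.M019
import Pool.Agent.Lib.H1M.RV3.M028
import Pool.Agent.Lib.H1M.RV3.M034
import Pool.Agent.Lib.H1M.RV3.M041
import Pool.Agent.Lib.H1M.RV3.M042
import Pool.Agent.Lib.H1M.RV3.M050
import Pool.Agent.Lib.H1M.RV3.M052

/-! Merged copies (to shorten the build) of Lib.H68T.BA1, Lib.H68T.BA2, Lib.H18E.CP, Lib.H18E.XC, Lib.H18E.DG, Lib.H18E.DE, Lib.H18P.OX, Lib.H18P.OD, Lib.H18Q.MC. -/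

-- from Lib.H68T.BA1
section

/-!
# Chunk BA1; part of BA: primes in a class modulo `W`: mean and pair correlations
-/

open Finset

namespace Pool.Agent.Lib.H68T

theorem BA1_e_add (x y : ℝ) : e (x + y) = e x * e y := by
  unfold e
  rw [← Complex.exp_add]
  congr 1
  push_cast
  ring

theorem BA1_norm_e (x : ℝ) : ‖e x‖ = 1 := by
  unfold e
  have h : (2 * (Real.pi : ℂ) * (x : ℂ) * Complex.I) = ((2 * Real.pi * x : ℝ) : ℂ) * Complex.I := by
    push_cast; ring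
  rw [h, Complex.norm_exp_ofReal_mul_I]

theorem BA1_e_pow (x : ℝ) (n : ℕ) : e x ^ n = e (n * x) := by
  unfold e
  rw [← Complex.exp_nat_mul]
  congr 1
  push_cast
  ring

theorem BA1_e_int (k : ℤ) : e (k : ℝ) = 1 := by
  unfold e
  rw [Complex.exp_eq_one_iff]
  exact ⟨k, by push_cast; ring⟩

theorem BA1_e_eq_one {x : ℝ} (h : e x = 1) : ∃ k : ℤ, x = k := by
  unfold e at h
  rw [Complex.exp_eq_one_iff] at h
  obtain ⟨n, hn⟩ := h
  refine ⟨n, ?_⟩
  have h2 : (2 * (Real.pi : ℂ) * Complex.I) ≠ 0 := Complex.two_pi_I_ne_zero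
  have h3 : (x : ℂ) * (2 * (Real.pi : ℂ) * Complex.I) = (n : ℂ) * (2 * (Real.pi : ℂ) * Complex.I) := by
    rw [← hn]; ring
  have h4 := mul_right_cancel₀ h2 h3
  exact_mod_cast h4

/-- Detection of divisibility by additive characters. -/
theorem BA1_detect (W : ℕ) (hW : 0 < W) (k : ℤ) :
    ∑ j ∈ range W, e ((j : ℝ) * ((k : ℝ) / W)) = if (W : ℤ) ∣ k then (W : ℂ) else 0 := by
  have hW' : (W : ℝ) ≠ 0 := by exact_mod_cast hW.ne'
  split_ifs with h
  · obtain ⟨t, rfl⟩ := h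
    have : ∀ j ∈ range W, e ((j : ℝ) * ((((W : ℤ) * t : ℤ) : ℝ) / W)) = 1 := by
      intro j _
      have h1 : (j : ℝ) * ((((W : ℤ) * t : ℤ) : ℝ) / W) = (((j : ℤ) * t : ℤ) : ℝ) := by
        push_cast
        field_simp
      rw [h1, BA1_e_int]
    rw [sum_congr rfl this]
    simp
  · have hne : e ((k : ℝ) / W) ≠ 1 := by
      intro h1
      obtain ⟨t, ht⟩ := BA1_e_eq_one h1
      apply h
      refine ⟨t, ?_⟩
      rw [div_eq_iff hW'] at ht
      have : (k : ℝ) = ((W : ℤ) * t : ℤ) := by rw [ht]; push_cast; ring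
      exact_mod_cast this
    have h2 : ∀ j ∈ range W, e ((j : ℝ) * ((k : ℝ) / W)) = e ((k : ℝ) / W) ^ j := by
      intro j _
      rw [BA1_e_pow]
    rw [sum_congr rfl h2, geom_sum_eq hne, BA1_e_pow]
    have h3 : (W : ℝ) * ((k : ℝ) / W) = ((k : ℤ) : ℝ) := by field_simp
    rw [h3, BA1_e_int]
    simp

/-- A sum along a progression as a combination of twisted sums over an interval. -/
theorem BA1_prog (u : ℤ → ℂ) (W M : ℕ) (hW : 0 < W) (a : ℤ) (θ : ℝ) :
    (W : ℂ) * ∑ c ∈ range M, u (a + W * c) * e (c * θ) =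
      ∑ j ∈ range W, e (-(a : ℝ) * ((j + θ) / W)) *
        ∑ m ∈ Ico a (a + W * M), u m * e (m * ((j + θ) / W)) := by
  have hW' : (W : ℝ) ≠ 0 := by exact_mod_cast hW.ne'
  have hWi : (0 : ℤ) < W := by exact_mod_cast hW
  have h1 : ∀ j ∈ range W, e (-(a : ℝ) * ((j + θ) / W)) *
        ∑ m ∈ Ico a (a + W * M), u m * e (m * ((j + θ) / W)) =
      ∑ m ∈ Ico a (a + W * M), u m * e (((m - a : ℤ) : ℝ) / W * θ) *
        e ((j : ℝ) * (((m - a : ℤ) : ℝ) / W)) := by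
    intro j _
    rw [mul_sum]
    refine sum_congr rfl fun m _ => ?_
    have : e (-(a : ℝ) * ((j + θ) / W)) * e (m * ((j + θ) / W)) =
        e (((m - a : ℤ) : ℝ) / W * θ) * e ((j : ℝ) * (((m - a : ℤ) : ℝ) / W)) := by
      rw [← BA1_e_add, ← BA1_e_add]
      congr 1
      push_cast
      field_simp
      ring
    calc e (-(a : ℝ) * ((j + θ) / W)) * (u m * e (m * ((j + θ) / W)))
        = u m * (e (-(a : ℝ) * ((j + θ) / W)) * e (m * ((j + θ) / W))) := by ring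
      _ = _ := by rw [this]; ring
  rw [sum_congr rfl h1, sum_comm]
  have h2 : ∀ m ∈ Ico a (a + W * M), ∑ j ∈ range W, u m * e (((m - a : ℤ) : ℝ) / W * θ) *
        e ((j : ℝ) * (((m - a : ℤ) : ℝ) / W)) =
      if (W : ℤ) ∣ m - a then (W : ℂ) * (u m * e (((m - a : ℤ) : ℝ) / W * θ)) else 0 := by
    intro m _
    rw [← mul_sum, BA1_detect W hW (m - a)]
    split_ifs <;> ring
  rw [sum_congr rfl h2, ← sum_filter, mul_sum]
  refine sum_bij (fun c _ => a + W * c) ?_ ?_ ?_ ?_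
  · intro c hc
    rw [mem_range] at hc
    rw [mem_filter, mem_Ico]
    refine ⟨⟨?_, ?_⟩, ?_⟩
    · have : (0 : ℤ) ≤ W * c := by positivity
      linarith
    · have : (c : ℤ) < M := by exact_mod_cast hc
      have := mul_lt_mul_of_pos_left this hWi
      linarith
    · simp
  · intro c _ c' _ h
    have h1 : (W : ℤ) * c = W * c' := by linarith
    have h2 := mul_left_cancel₀ hWi.ne' h1
    exact_mod_cast h2
  · intro m hm
    rw [mem_filter, mem_Ico] at hm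
    obtain ⟨⟨hm1, hm2⟩, t, ht⟩ := hm
    have ht0 : 0 ≤ t := by
      by_contra hneg
      push Not at hneg
      have : (W : ℤ) * t < 0 := mul_neg_of_pos_of_neg hWi hneg
      linarith
    have htM : t < M := by
      have h3 : (W : ℤ) * t < W * M := by linarith
      exact lt_of_mul_lt_mul_left h3 hWi.le
    refine ⟨t.toNat, ?_, ?_⟩
    · rw [mem_range]
      omega
    · have : ((t.toNat : ℕ) : ℤ) = t := Int.toNat_of_nonneg ht0
      rw [this]
      linarith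
  · intro c _
    have : (((a + W * c - a : ℤ) : ℝ) / W * θ) = c * θ := by
      push_cast
      field_simp
      ring
    rw [this]


end Pool.Agent.Lib.H68T
end

-- from Lib.H68T.BA2
section

/-!
# Chunk BA2; part of BA: primes in a class modulo `W`: mean and pair correlations
-/

open Finset

namespace Pool.Agent.Lib.H68T




theorem BA2_lp_bounds (m : ℤ) (Z : ℝ) (hm : 1 ≤ m) (hZ : (m : ℝ) ≤ Z) :
    0 ≤ lp m ∧ lp m ≤ Real.log Z := by
  have h1 : (1 : ℝ) ≤ m := by exact_mod_cast hm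
  have h2 : 0 ≤ Real.log m := Real.log_nonneg h1
  have h3 : Real.log m ≤ Real.log Z := Real.log_le_log (by linarith) hZ
  unfold lp
  split_ifs
  · exact ⟨h2, h3⟩
  · exact ⟨le_refl _, h2.trans h3⟩


end Pool.Agent.Lib.H68T
end

-- from Lib.H18E.CP
section

/-!
# Chunk CP: pairs of primes in two classes, lower bound
-/

open Finset Pool.Agent.Lib.H68T

namespace Pool.Agent.Lib.H18E

theorem cp_MM_neg (Q r : ℕ) (ε β : ℝ) (m : ℤ) : MM Q r ε β (-m) = MM Q r ε β m := by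
  unfold MM
  have h1 : G Q (-m) = G Q m := by
    unfold G
    exact sum_congr rfl fun q _ => by rw [cq_neg]
  have h2 : Gam Q r (-m) = Gam Q r m := by
    unfold Gam
    refine sum_congr rfl fun q _ => ?_
    refine sum_congr ?_ fun _ _ => rfl
    refine filter_congr fun d _ => ?_
    rw [IsCoprime.neg_right_iff]
  rw [h1, h2]
  push_cast
  rw [abs_neg]

theorem cp_MM_pos (Q r : ℕ) (ε β : ℝ) (m : ℤ) (hm : 0 < m) :
    MM Q r ε β m = Mod Q r ε β m := by
  unfold MM Pool.Agent.Lib.H68T.Mod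
  rw [abs_of_pos (by exact_mod_cast hm)]






end Pool.Agent.Lib.H18E
end

-- from Lib.H18E.XC
section

open Finset Pool.Agent.Lib.H68T

namespace Pool.Agent.Lib.H18E

/-! ## Geometry -/

/-- the difference `y0 - x` resp. `x - y0` -/
def xcD (σ : Bool) (x y0 : ℕ) : ℤ := if σ then (y0 : ℤ) - x else (x : ℤ) - y0

def xcu (r x y0 : ℕ) : ℕ := (x + y0) % r

def xcv (σ : Bool) (r x y0 : ℕ) : ℕ := (xcD σ x y0 % (r : ℤ)).toNat

def xcs (r y0 x j : ℕ) : ℕ := (x + y0) / r + j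

def xct (σ : Bool) (H r y0 x j : ℕ) : ℕ :=
  (xcD σ x y0 / (r : ℤ) + (if σ then (j : ℤ) else -(j : ℤ) - ((H : ℤ) - 1))).toNat

/-- the range of `j` -/
def xcJ (σ : Bool) (n r H : ℕ) : Finset ℕ :=
  if σ then Ico (7 * n / (8 * r) + 1) (7 * n / (8 * r) + 1 + H) else Ico 1 (1 + H)

theorem xcJ_card (σ : Bool) (n r H : ℕ) : (xcJ σ n r H).card = H := by
  unfold xcJ
  split_ifs <;> simp

theorem xcu_lt {r x y0 : ℕ} (hr : 0 < r) : xcu r x y0 < r := Nat.mod_lt _ hr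

theorem xcv_eq {σ : Bool} {r x y0 : ℕ} (hr : 0 < r) :
    ((xcv σ r x y0 : ℕ) : ℤ) = xcD σ x y0 % (r : ℤ) := by
  unfold xcv
  exact Int.toNat_of_nonneg (Int.emod_nonneg _ (by omega))

theorem xcv_lt {σ : Bool} {r x y0 : ℕ} (hr : 0 < r) : xcv σ r x y0 < r := by
  have h1 := xcv_eq (σ := σ) (x := x) (y0 := y0) hr
  have h2 : xcD σ x y0 % (r : ℤ) < r := Int.emod_lt_of_pos _ (by exact_mod_cast hr)
  omega

/-- the main geometric lemma -/
theorem xc_geom {n r x y0 j : ℕ} (hr : 0 < r) (hn : 100 * r ≤ n) (hx1 : 1 ≤ x) (hx : x ≤ n)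
    (hy0 : y0 < r) {σ : Bool} (hσ : σ = true ↔ 2 * x ≤ n)
    (hj : j ∈ xcJ σ n r (n / (32 * r))) :
    xcs r y0 x j ∈ Ico (3 * n / (8 * r)) (4 * (3 * n / (8 * r)) - n / (32 * r)) ∧
    xct σ (n / (32 * r)) r y0 x j ∈ Ico (3 * n / (8 * r)) (4 * (3 * n / (8 * r)) - n / (32 * r)) ∧
    ((xct σ (n / (32 * r)) r y0 x j : ℕ) : ℤ) = xcD σ x y0 / (r : ℤ) +
      (if σ then (j : ℤ) else -(j : ℤ) - (((n / (32 * r) : ℕ) : ℤ) - 1)) ∧
    ∀ c < n / (32 * r), 1 ≤ y0 + r * (j + c) ∧ y0 + r * (j + c) ≤ n := by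
  have hr8 : 0 < 8 * r := by omega
  have hr32 : 0 < 32 * r := by omega
  set M := 3 * n / (8 * r) with hM
  set H := n / (32 * r) with hH
  set J0 := 7 * n / (8 * r) with hJ0
  have m1 : 8 * (r * M) ≤ 3 * n := by
    have := Nat.div_mul_le_self (3 * n) (8 * r)
    rw [← hM] at this
    nlinarith
  have m2 : 3 * n < 8 * (r * M) + 8 * r := by
    have := Nat.lt_div_mul_add hr8 (a := 3 * n)
    rw [← hM] at this
    nlinarith
  have k1 : 32 * (r * H) ≤ n := by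
    have := Nat.div_mul_le_self n (32 * r)
    rw [← hH] at this
    nlinarith
  have k2 : n < 32 * (r * H) + 32 * r := by
    have := Nat.lt_div_mul_add hr32 (a := n)
    rw [← hH] at this
    nlinarith
  have j1 : 8 * (r * J0) ≤ 7 * n := by
    have := Nat.div_mul_le_self (7 * n) (8 * r)
    rw [← hJ0] at this
    nlinarith
  have j2 : 7 * n < 8 * (r * J0) + 8 * r := by
    have := Nat.lt_div_mul_add hr8 (a := 7 * n)
    rw [← hJ0] at this
    nlinarith
  have hH1 : 1 ≤ H := by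
    rw [hH, Nat.le_div_iff_mul_le hr32]
    omega
  have hMr : r ≤ r * M := by
    have : 1 ≤ M := by
      rw [hM, Nat.le_div_iff_mul_le hr8]
      omega
    nlinarith
  have hrH : r ≤ r * H := by nlinarith
  have hHM : H ≤ 4 * M := by
    have : r * H ≤ r * (4 * M) := by nlinarith
    exact Nat.le_of_mul_le_mul_left this hr
  have hrZ : (0 : ℤ) < r := by exact_mod_cast hr
  -- integer versions
  have M1 : 8 * ((r : ℤ) * M) ≤ 3 * n := by exact_mod_cast m1
  have M2 : 3 * (n : ℤ) < 8 * ((r : ℤ) * M) + 8 * r := by exact_mod_cast m2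
  have K1 : 32 * ((r : ℤ) * H) ≤ n := by exact_mod_cast k1
  have K2 : (n : ℤ) < 32 * ((r : ℤ) * H) + 32 * r := by exact_mod_cast k2
  have J1 : 8 * ((r : ℤ) * J0) ≤ 7 * n := by exact_mod_cast j1
  have J2 : 7 * (n : ℤ) < 8 * ((r : ℤ) * J0) + 8 * r := by exact_mod_cast j2
  have Hn : 100 * (r : ℤ) ≤ n := by exact_mod_cast hn
  have HH : (r : ℤ) ≤ r * H := by exact_mod_cast hrH
  have Hx1 : (1 : ℤ) ≤ x := by exact_mod_cast hx1
  have Hx : (x : ℤ) ≤ n := by exact_mod_cast hx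
  have Hy : (y0 : ℤ) < r := by exact_mod_cast hy0
  have Hy0 : (0 : ℤ) ≤ y0 := Int.natCast_nonneg _
  have hsub : ((4 * M - H : ℕ) : ℤ) = 4 * M - H := by
    rw [Nat.cast_sub hHM]
    push_cast
    ring
  -- a criterion
  have crit : ∀ a : ℤ, ∀ l : ℤ, (M : ℤ) * r ≤ a + l * r → a + l * r < (4 * M - H) * r →
      (M : ℤ) ≤ a / r + l ∧ a / r + l < 4 * M - H := by
    intro a l h1 h2
    constructor
    · have : (M : ℤ) - l ≤ a / r := by
        rw [Int.le_ediv_iff_mul_le hrZ]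
        nlinarith
      linarith
    · have : a / r < 4 * (M : ℤ) - H - l := by
        rw [Int.ediv_lt_iff_lt_mul hrZ]
        nlinarith
      linarith
  have hs : ((xcs r y0 x j : ℕ) : ℤ) = ((x : ℤ) + y0) / r + j := by
    unfold xcs
    push_cast
    rfl
  cases σ with
  | true =>
    have h2x : 2 * (x : ℤ) ≤ n := by exact_mod_cast hσ.mp rfl
    simp only [xcJ, if_true, mem_Ico] at hj
    have b1 : (r : ℤ) * J0 + r ≤ r * j := by
      have : r * (J0 + 1) ≤ r * j := Nat.mul_le_mul_left _ hj.1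
      have h3 : ((r * (J0 + 1) : ℕ) : ℤ) ≤ ((r * j : ℕ) : ℤ) := by exact_mod_cast this
      push_cast at h3
      linarith
    have b2 : (r : ℤ) * j ≤ r * J0 + r * H := by
      have : r * j ≤ r * (J0 + H) := Nat.mul_le_mul_left _ (by omega)
      have h3 : ((r * j : ℕ) : ℤ) ≤ ((r * (J0 + H) : ℕ) : ℤ) := by exact_mod_cast this
      push_cast at h3
      linarith
    obtain ⟨s1, s2⟩ := crit ((x : ℤ) + y0) j (by linarith) (by linarith)
    obtain ⟨t1, t2⟩ := crit ((y0 : ℤ) - x) j (by linarith) (by linarith)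
    have ht : ((xct true H r y0 x j : ℕ) : ℤ) = ((y0 : ℤ) - x) / r + j := by
      unfold xct
      simp only [xcD, if_true]
      apply Int.toNat_of_nonneg
      have : (0 : ℤ) ≤ M := Int.natCast_nonneg _
      linarith
    refine ⟨?_, ?_, ?_, ?_⟩
    · rw [mem_Ico]
      constructor
      · zify; rw [hs]; exact s1
      · zify; rw [hsub, hs]; exact s2
    · rw [mem_Ico]
      constructor
      · zify; rw [ht]; exact t1
      · zify; rw [hsub, ht]; exact t2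
    · rw [ht]
      simp [xcD]
    · intro c hc
      have c1 : (r : ℤ) * c + r ≤ r * H := by
        have : r * (c + 1) ≤ r * H := Nat.mul_le_mul_left _ hc
        have h3 : ((r * (c + 1) : ℕ) : ℤ) ≤ ((r * H : ℕ) : ℤ) := by exact_mod_cast this
        push_cast at h3
        linarith
      have c0 : (0 : ℤ) ≤ (r : ℤ) * c := by positivity
      constructor
      · zify
        linarith
      · zify
        linarith
  | false =>
    have h2x : (n : ℤ) < 2 * (x : ℤ) := by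
      have : ¬ (2 * x ≤ n) := fun h => by simpa using hσ.mpr h
      exact_mod_cast not_le.mp this
    simp only [xcJ, Bool.false_eq_true, if_false, mem_Ico] at hj
    have b1 : (r : ℤ) ≤ r * j := by
      have : r * 1 ≤ r * j := Nat.mul_le_mul_left _ hj.1
      have h3 : ((r * 1 : ℕ) : ℤ) ≤ ((r * j : ℕ) : ℤ) := by exact_mod_cast this
      push_cast at h3
      linarith
    have b2 : (r : ℤ) * j ≤ r * H := by
      have : r * j ≤ r * H := Nat.mul_le_mul_left _ (by omega)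
      exact_mod_cast this
    obtain ⟨s1, s2⟩ := crit ((x : ℤ) + y0) j (by linarith) (by linarith)
    obtain ⟨t1, t2⟩ := crit ((x : ℤ) - y0) (-(j : ℤ) - ((H : ℤ) - 1)) (by linarith) (by linarith)
    have ht : ((xct false H r y0 x j : ℕ) : ℤ) =
        ((x : ℤ) - y0) / r + (-(j : ℤ) - ((H : ℤ) - 1)) := by
      unfold xct
      simp only [xcD, Bool.false_eq_true, if_false]
      apply Int.toNat_of_nonneg
      have : (0 : ℤ) ≤ M := Int.natCast_nonneg _
      linarith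
    refine ⟨?_, ?_, ?_, ?_⟩
    · rw [mem_Ico]
      constructor
      · zify; rw [hs]; exact s1
      · zify; rw [hsub, hs]; exact s2
    · rw [mem_Ico]
      constructor
      · zify; rw [ht]; exact t1
      · zify; rw [hsub, ht]; exact t2
    · rw [ht]
      simp [xcD]
    · intro c hc
      have c1 : (r : ℤ) * c + r ≤ r * H := by
        have : r * (c + 1) ≤ r * H := Nat.mul_le_mul_left _ hc
        have h3 : ((r * (c + 1) : ℕ) : ℤ) ≤ ((r * H : ℕ) : ℤ) := by exact_mod_cast this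
        push_cast at h3
        linarith
      have c0 : (0 : ℤ) ≤ (r : ℤ) * c := by positivity
      constructor
      · zify
        linarith
      · zify
        linarith

/-- `x + y = u + r (s + c)` -/
theorem xc_sum {r x y0 j c : ℕ} :
    xcu r x y0 + r * (xcs r y0 x j + c) = x + (y0 + r * (j + c)) := by
  unfold xcu xcs
  have := Nat.mod_add_div (x + y0) r
  nlinarith

/-- `|x - y| = v + r ix` -/
theorem xc_diff {σ : Bool} {H r x y0 j c : ℕ} (hr : 0 < r) (hc : c < H)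
    (ht : ((xct σ H r y0 x j : ℕ) : ℤ) = xcD σ x y0 / (r : ℤ) +
      (if σ then (j : ℤ) else -(j : ℤ) - ((H : ℤ) - 1))) :
    ((xcv σ r x y0 + r * ix H σ (xct σ H r y0 x j) c : ℕ) : ℤ) =
      if σ then ((y0 + r * (j + c) : ℕ) : ℤ) - x else (x : ℤ) - ((y0 + r * (j + c) : ℕ) : ℤ) := by
  have h1 := xcv_eq (σ := σ) (x := x) (y0 := y0) hr
  have h2 := Int.emod_add_mul_ediv (xcD σ x y0) r
  push_cast
  rw [h1]
  cases σ with
  | true =>
    simp only [ix, cond_true, if_true] at ht ⊢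
    push_cast
    rw [ht]
    simp only [xcD, if_true] at h2 ⊢
    linear_combination h2
  | false =>
    simp only [ix, cond_false, Bool.false_eq_true, if_false] at ht ⊢
    have h3 : ((H - 1 - c : ℕ) : ℤ) = (H : ℤ) - 1 - c := by omega
    push_cast
    rw [h3, ht]
    simp only [xcD, Bool.false_eq_true, if_false] at h2 ⊢
    linear_combination h2

/-- `dd = 2 x` -/
theorem xc_dd {σ : Bool} {H r x y0 j : ℕ} (hr : 0 < r) (hH : 1 ≤ H)
    (ht : ((xct σ H r y0 x j : ℕ) : ℤ) = xcD σ x y0 / (r : ℤ) +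
      (if σ then (j : ℤ) else -(j : ℤ) - ((H : ℤ) - 1))) :
    dd H r σ (xcu r x y0) (xcv σ r x y0) (xcs r y0 x j) (xct σ H r y0 x j) = 2 * (x : ℤ) := by
  have h1 := xcv_eq (σ := σ) (x := x) (y0 := y0) hr
  have h2 := Int.emod_add_mul_ediv (xcD σ x y0) r
  have h3 : ((xcu r x y0 : ℕ) : ℤ) + r * (xcs r y0 x j : ℕ) = (x : ℤ) + y0 + r * j := by
    have := xc_sum (r := r) (x := x) (y0 := y0) (j := j) (c := 0)
    have h4 : ((xcu r x y0 + r * (xcs r y0 x j + 0) : ℕ) : ℤ) =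
      ((x + (y0 + r * (j + 0)) : ℕ) : ℤ) := by exact_mod_cast this
    push_cast at h4
    linarith
  unfold dd
  rw [h1]
  cases σ with
  | true =>
    simp only [cond_true, if_true] at ht ⊢
    rw [ht]
    simp only [xcD, if_true] at h2 ⊢
    linear_combination h3 - h2
  | false =>
    simp only [cond_false, Bool.false_eq_true, if_false] at ht ⊢
    have h5 : ((H - 1 : ℕ) : ℤ) = (H : ℤ) - 1 := by omega
    rw [ht, h5]
    simp only [xcD, Bool.false_eq_true, if_false] at h2 ⊢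
    linear_combination h3 + h2

theorem xc_inj {σ : Bool} {n r y0 : ℕ} (hr : 0 < r) (hn : 100 * r ≤ n) (hy0 : y0 < r)
    {x j x' j' : ℕ} (hx : x ∈ Icc 1 n) (hx' : x' ∈ Icc 1 n) (hσ : σ = true ↔ 2 * x ≤ n)
    (hσ' : σ = true ↔ 2 * x' ≤ n) (hj : j ∈ xcJ σ n r (n / (32 * r)))
    (hj' : j' ∈ xcJ σ n r (n / (32 * r))) (hu : xcu r x y0 = xcu r x' y0)
    (hv : xcv σ r x y0 = xcv σ r x' y0) (hs : xcs r y0 x j = xcs r y0 x' j')
    (ht : xct σ (n / (32 * r)) r y0 x j = xct σ (n / (32 * r)) r y0 x' j') : x = x' ∧ j = j' := by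
  rw [mem_Icc] at hx hx'
  have hH : 1 ≤ n / (32 * r) := by
    rw [Nat.le_div_iff_mul_le (by omega)]
    omega
  obtain ⟨-, -, g1, -⟩ := xc_geom hr hn hx.1 hx.2 hy0 hσ hj
  obtain ⟨-, -, g2, -⟩ := xc_geom hr hn hx'.1 hx'.2 hy0 hσ' hj'
  have d1 := xc_dd hr hH g1
  have d2 := xc_dd hr hH g2
  rw [hu, hv, hs, ht, d2] at d1
  have hxx : x = x' := by omega
  subst hxx
  refine ⟨rfl, ?_⟩
  unfold xcs at hs
  omega

open Classical in
/-- the bad vertices for one choice of the classes -/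
noncomputable def xcP (σ : Bool) (n r y0 u v : ℕ) (e : ℕ → ℕ → ℝ) (θ : ℝ) : Finset ℕ :=
  (Icc 1 n).filter (fun x => (σ = true ↔ 2 * x ≤ n) ∧ xcu r x y0 = u ∧ xcv σ r x y0 = v ∧
    ∀ j ∈ xcJ σ n r (n / (32 * r)),
      θ < e (xcs r y0 x j) (xct σ (n / (32 * r)) r y0 x j))

theorem xc_bad {σ : Bool} {n r y0 u v : ℕ} (hr : 0 < r) (hn : 100 * r ≤ n) (hy0 : y0 < r)
    (e : ℕ → ℕ → ℝ) (V θ : ℝ) (hθ : 0 < θ)
    (he : ∑ s ∈ Ico (3 * n / (8 * r)) (4 * (3 * n / (8 * r)) - n / (32 * r)),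
      ∑ t ∈ Ico (3 * n / (8 * r)) (4 * (3 * n / (8 * r)) - n / (32 * r)), (e s t) ^ 2 ≤ V) :
    ((xcP σ n r y0 u v e θ).card : ℝ) * (n / (32 * r) : ℕ) * θ ^ 2 ≤ V := by
  classical
  refine bad_count _ e V θ hθ he (xcP σ n r y0 u v e θ) (fun _ => xcJ σ n r (n / (32 * r)))
    (n / (32 * r)) (fun x _ => (xcJ_card _ _ _ _).ge) (fun x j => xcs r y0 x j)
    (fun x j => xct σ (n / (32 * r)) r y0 x j) ?_ ?_ ?_
  · intro x hx j hj
    simp only [xcP, mem_filter, mem_Icc] at hx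
    obtain ⟨g1, g2, -, -⟩ := xc_geom hr hn hx.1.1 hx.1.2 hy0 hx.2.1 hj
    exact ⟨g1, g2⟩
  · intro x hx j hj x' hx' j' hj' h1 h2
    simp only [xcP, mem_filter] at hx hx'
    exact xc_inj hr hn hy0 hx.1 hx'.1 hx.2.1 hx'.2.1 hj hj' (hx.2.2.1.trans hx'.2.2.1.symm)
      (hx.2.2.2.1.trans hx'.2.2.2.1.symm) h1 h2
  · intro x hx j hj
    simp only [xcP, mem_filter] at hx
    exact hx.2.2.2.2 j hj






end Pool.Agent.Lib.H18E
end

-- from Lib.H18E.DG
section

/-!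
# Chunk DG: degrees, good levels
-/

open Finset Pool.Agent.Lib.H68T Pool.Agent.Lib.GoldbachGraph

namespace Pool.Agent.Lib.H18E

theorem DG_X (n r : ℕ) (hr : 0 < r) (hn : 8 * r ≤ n) :
    n ≤ 4 * (3 * n / (8 * r) * r) ∧ 3 * n / (8 * r) * r ≤ n := by
  have h1 := Nat.div_add_mod (3 * n) (8 * r)
  have h2 := Nat.mod_lt (3 * n) (show 8 * r > 0 by omega)
  set q := 3 * n / (8 * r) with hq
  have h3 : 8 * r * q = 8 * (q * r) := by ring
  rw [h3] at h1
  generalize q * r = w at h1 ⊢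
  omega

theorem DG_Q (C : ℝ) (hC : 1 ≤ C) (Q : ℕ) (h : 240 * C ≤ Real.log Q) :
    C * (Q : ℝ) ^ (-(1 / 20) : ℝ) ≤ 1 / 12 ∧ C * (Q : ℝ) ^ (-(1 / 8) : ℝ) ≤ 1 / 12 := by
  have hQ0 : (0 : ℝ) < Q := by
    by_contra h0
    have h' : (Q : ℝ) = 0 := le_antisymm (not_lt.1 h0) (Nat.cast_nonneg Q)
    rw [h', Real.log_zero] at h
    linarith
  have h20 : C * (Q : ℝ) ^ (-(1 / 20) : ℝ) ≤ 1 / 12 := by
    rw [Real.rpow_def_of_pos hQ0]
    have h1 : Real.exp (Real.log Q * -(1 / 20)) ≤ Real.exp (-(12 * C)) :=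
      Real.exp_le_exp.2 (by linarith)
    have h2 : Real.exp (-(12 * C)) ≤ 1 / (12 * C) := by
      rw [Real.exp_neg, ← one_div]
      apply one_div_le_one_div_of_le (by linarith)
      linarith [Real.add_one_le_exp (12 * C)]
    calc C * Real.exp (Real.log Q * -(1 / 20)) ≤ C * (1 / (12 * C)) :=
          mul_le_mul_of_nonneg_left (h1.trans h2) (by linarith)
      _ = 1 / 12 := by
          have : C ≠ 0 := by linarith
          field_simp
  refine ⟨h20, le_trans ?_ h20⟩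
  apply mul_le_mul_of_nonneg_left _ (by linarith)
  apply Real.rpow_le_rpow_of_exponent_le _ (by norm_num)
  by_contra h0
  have : Real.log Q ≤ 0 := Real.log_nonpos hQ0.le (not_le.1 h0).le
  linarith

theorem DG_SE (x : ℕ) : 1 ≤ SE x := by
  unfold SE
  apply Finset.one_le_prod
  intro p hp
  have h3 : (3 : ℝ) ≤ p := by
    have := (mem_filter.1 hp).2
    exact_mod_cast (by omega : 3 ≤ p)
  rw [le_div_iff₀ (by linarith)]
  linarith

theorem DG_log (n : ℕ) (hn : 2 ≤ n) :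
    0 < Real.log (2 * n) ∧ (Real.log (2 * n)) ^ 2 ≤ 4 * (Real.log n) ^ 2 := by
  have h2 : (2 : ℝ) ≤ n := by exact_mod_cast hn
  have h1 : Real.log (2 * n) ≤ 2 * Real.log n := by
    rw [Real.log_mul (by norm_num) (by linarith)]
    have := Real.log_le_log (by norm_num) h2
    linarith
  have h0 : 0 < Real.log (2 * n) := Real.log_pos (by linarith)
  refine ⟨h0, ?_⟩
  nlinarith


end Pool.Agent.Lib.H18E
end

-- from Lib.H18E.DE
section

/-!
# Chunk DE: degrees, exceptional levels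
-/

open Finset Pool.Agent.Lib.H68T Pool.Agent.Lib.GoldbachGraph

namespace Pool.Agent.Lib.H18E

theorem DE_exp (x : ℝ) (h0 : 0 ≤ x) (h1 : x ≤ 1) : Real.exp (-x) ≤ 1 - x / 2 := by
  have h2 : Real.exp (-x) ≤ 1 / (1 + x) := by
    rw [Real.exp_neg, ← one_div]
    apply one_div_le_one_div_of_le (by linarith)
    linarith [Real.add_one_le_exp x]
  refine h2.trans ?_
  rw [div_le_iff₀ (by linarith)]
  nlinarith




end Pool.Agent.Lib.H18E
end

-- from Lib.H18P.OX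
section

/-!
# Project H18P (MP_443e5f_co): neighbours at the own scale

`H18E.x_class` with only those neighbours `Y` of `x` counted which satisfy `Y < x` if `2 x > n`
(the windows of `XC.lean` are of this kind).
-/

open Finset Pool.Agent.Lib.H68T Pool.Agent.Lib.H18E

namespace Pool.Agent.Lib.H18P

/-- The number of neighbours of `x` in the class `y0` modulo `r`, only those below `x` if `2 x > n`. -/
noncomputable def ocdeg (n r x y0 : ℕ) : ℕ :=
  open Classical in ((Icc 1 n).filter (fun Y => Pool.Agent.Lib.GoldbachGraph.hadj x Y ∧ Y % r = y0 ∧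
    (n < 2 * x → Y < x))).card

/-- the sum over `c` is at most the weighted number of neighbours in the class -/
theorem ox_cdeg {σ : Bool} {n r x y0 j : ℕ} (hr : 0 < r) (hn : 100 * r ≤ n) (hx : x ∈ Icc 1 n)
    (hy0 : y0 < r) (hσ : σ = true ↔ 2 * x ≤ n) (hj : j ∈ xcJ σ n r (n / (32 * r))) :
    ∑ c ∈ range (n / (32 * r)), lp ((xcu r x y0 + r * (xcs r y0 x j + c) : ℕ) : ℤ) *
      lp ((xcv σ r x y0 + r * ix (n / (32 * r)) σ (xct σ (n / (32 * r)) r y0 x j) c : ℕ) : ℤ) ≤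
      ocdeg n r x y0 * (Real.log (2 * n)) ^ 2 := by
  classical
  rw [mem_Icc] at hx
  obtain ⟨g1, g2, g3, g4⟩ := xc_geom hr hn hx.1 hx.2 hy0 hσ hj
  set H := n / (32 * r) with hH
  have hr8 : 0 < 8 * r := by omega
  have hM3 : 3 ≤ r * (3 * n / (8 * r)) := by
    have h1 : 3 * n < (3 * n / (8 * r)) * (8 * r) + 8 * r := Nat.lt_div_mul_add hr8
    nlinarith
  rw [mem_Ico] at g1 g2
  have hlt : ∀ c < H, n < 2 * x → y0 + r * (j + c) < x := by
    intro c hc h2x
    have e2 := xc_diff (σ := σ) (x := x) (y0 := y0) (j := j) (c := c) hr hc g3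
    have hbig' : 3 ≤ xcv σ r x y0 + r * ix H σ (xct σ H r y0 x j) c := by
      have h1 : 3 * n / (8 * r) ≤ ix H σ (xct σ H r y0 x j) c := by
        unfold ix
        cases σ <;> simp <;> omega
      have : r * (3 * n / (8 * r)) ≤ r * ix H σ (xct σ H r y0 x j) c := Nat.mul_le_mul_left _ h1
      omega
    cases σ with
    | true =>
      have := hσ.1 rfl
      omega
    | false =>
      simp only [Bool.false_eq_true, if_false] at e2
      omega
  -- the set of the c with a nonzero term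
  set Cs := (range H).filter (fun c => Pool.Agent.Lib.GoldbachGraph.hadj x (y0 + r * (j + c)))
    with hCs
  have hlog0 : 0 ≤ Real.log (2 * n) := Real.log_nonneg (by
    have : (1 : ℝ) ≤ n := by exact_mod_cast hx.1.trans hx.2
    linarith)
  have hlp : ∀ k : ℕ, k ≤ 2 * n → lp (k : ℤ) ≤ Real.log (2 * n) := by
    intro k hk
    unfold Pool.Agent.Lib.H68T.lp
    split_ifs with h
    · have hk0 : 0 < k := by
        rw [Int.toNat_natCast] at h
        exact h.pos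
      apply Real.log_le_log
      · exact_mod_cast hk0
      · exact_mod_cast hk
    · exact hlog0
  have hlp0 : ∀ k : ℕ, 0 ≤ lp (k : ℤ) := by
    intro k
    unfold Pool.Agent.Lib.H68T.lp
    split_ifs with h
    · rw [Int.toNat_natCast] at h
      exact Real.log_nonneg (by exact_mod_cast h.one_lt.le)
    · exact le_rfl
  have hlpne : ∀ k : ℕ, lp (k : ℤ) ≠ 0 → k.Prime := by
    intro k hk
    unfold Pool.Agent.Lib.H68T.lp at hk
    by_contra h
    rw [if_neg (by rwa [Int.toNat_natCast])] at hk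
    exact hk rfl
  have hterm : ∀ c ∈ range H, lp ((xcu r x y0 + r * (xcs r y0 x j + c) : ℕ) : ℤ) *
      lp ((xcv σ r x y0 + r * ix H σ (xct σ H r y0 x j) c : ℕ) : ℤ) ≤
      if Pool.Agent.Lib.GoldbachGraph.hadj x (y0 + r * (j + c)) then (Real.log (2 * n)) ^ 2
        else 0 := by
    intro c hc
    rw [mem_range] at hc
    obtain ⟨y1, y2⟩ := g4 c hc
    have e1 := xc_sum (r := r) (x := x) (y0 := y0) (j := j) (c := c)
    have e2 := xc_diff (σ := σ) (x := x) (y0 := y0) (j := j) (c := c) hr hc g3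
    set y := y0 + r * (j + c) with hy
    set m := xcu r x y0 + r * (xcs r y0 x j + c) with hm
    set m' := xcv σ r x y0 + r * ix H σ (xct σ H r y0 x j) c with hm'
    have hm2 : m ≤ 2 * n := by omega
    have hdist : m' = Nat.dist x y := by
      rw [Nat.dist]
      cases σ with
      | true => simp only [if_true] at e2; omega
      | false => simp only [Bool.false_eq_true, if_false] at e2; omega
    have hm2' : m' ≤ 2 * n := by
      rw [hdist, Nat.dist]; omega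
    have hbig : 3 ≤ m := by
      have : r * (3 * n / (8 * r)) ≤ r * (xcs r y0 x j + c) := Nat.mul_le_mul_left _ (by omega)
      omega
    have hbig' : 3 ≤ m' := by
      have h1 : 3 * n / (8 * r) ≤ ix H σ (xct σ H r y0 x j) c := by
        unfold ix
        cases σ <;> simp <;> omega
      have : r * (3 * n / (8 * r)) ≤ r * ix H σ (xct σ H r y0 x j) c := Nat.mul_le_mul_left _ h1
      omega
    by_cases h0 : lp (m : ℤ) = 0
    · rw [h0, zero_mul]
      split_ifs <;> positivity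
    by_cases h0' : lp (m' : ℤ) = 0
    · rw [h0', mul_zero]
      split_ifs <;> positivity
    have p1 := hlpne m h0
    have p2 := hlpne m' h0'
    rw [if_pos]
    · rw [pow_two]
      exact mul_le_mul (hlp m hm2) (hlp m' hm2') (hlp0 m') hlog0
    · refine ⟨?_, ?_, ?_, ?_⟩
      · rw [← e1]; exact p1
      · rw [← e1]; exact p1.odd_of_ne_two (by omega)
      · rw [← hdist]; exact p2
      · rw [← hdist]; exact p2.odd_of_ne_two (by omega)
  refine (sum_le_sum hterm).trans ?_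
  rw [← sum_filter, sum_const, nsmul_eq_mul]
  apply mul_le_mul_of_nonneg_right _ (by positivity)
  have : ((range H).filter (fun c => Pool.Agent.Lib.GoldbachGraph.hadj x (y0 + r * (j + c)))).card ≤
      ocdeg n r x y0 := by
    unfold ocdeg
    apply card_le_card_of_injOn (fun c => y0 + r * (j + c))
    · intro c hc
      rw [mem_coe, mem_filter, mem_range] at hc
      rw [mem_coe, mem_filter, mem_Icc]
      refine ⟨g4 c hc.1, hc.2, ?_, fun h2x => hlt c hc.1 h2x⟩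
      rw [Nat.add_mul_mod_self_left]
      exact Nat.mod_eq_of_lt hy0
    · intro c _ c' _ h
      simp only at h
      have : r * (j + c) = r * (j + c') := by omega
      have := Nat.eq_of_mul_eq_mul_left hr this
      omega
  exact_mod_cast this


end Pool.Agent.Lib.H18P
end

-- from Lib.H18P.OD
section

/-!
# Project H18P (MP_443e5f_co): degrees at the own scale

`H18E.deg_good` and `H18E.deg_exc` (weak bound) for `ohdeg`.
-/

open Finset Pool.Agent.Lib.H68T Pool.Agent.Lib.H18E Pool.Agent.Lib.GoldbachGraph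

namespace Pool.Agent.Lib.H18P

/-- The number of neighbours of `x` in `[1, n]`, only those below `x` if `2 x > n`. -/
noncomputable def ohdeg (n x : ℕ) : ℕ :=
  open Classical in ((Icc 1 n).filter (fun Y => hadj x Y ∧ (n < 2 * x → Y < x))).card

theorem osum_cdeg (n r x : ℕ) (S : Finset ℕ) (_hS : S ⊆ compat r x) :
    ∑ y0 ∈ S, ocdeg n r x y0 ≤ ohdeg n x := by
  classical
  unfold ocdeg ohdeg
  rw [← Finset.card_biUnion]
  · apply card_le_card
    intro Y hY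
    rw [mem_biUnion] at hY
    obtain ⟨y0, _, hY⟩ := hY
    rw [mem_filter] at hY ⊢
    exact ⟨hY.1, hY.2.1, hY.2.2.2⟩
  · intro a _ b _ hab
    rw [Function.onFun, Finset.disjoint_left]
    intro Y h1 h2
    rw [mem_filter] at h1 h2
    exact hab (h1.2.2.1.symm.trans h2.2.2.1)



end Pool.Agent.Lib.H18P
end

-- from Lib.H18Q.MC
section

/-!
# Project H18Q, chunk MC: the main term at an exceptional level
-/

open Finset

namespace Pool.Agent.Lib.H18Q

open Pool.Agent.Lib.H68T Pool.Agent.Lib.H18E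


theorem mc_split (H r : ℕ) (hr : 0 < r) (F : ℕ → ℝ) :
    ∑ c ∈ range H, F c =
      ∑ c0 ∈ range r, ∑ c ∈ range ((H + r - 1 - c0) / r), F (c0 + r * c) := by
  rw [← Finset.sum_fiberwise_of_maps_to (s := range H) (t := range r) (g := fun c => c % r)
    (fun c _ => mem_range.2 (Nat.mod_lt _ hr))]
  refine sum_congr rfl fun c0 hc0 => ?_
  have hc0' := mem_range.1 hc0
  refine Finset.sum_nbij' (fun c => c / r) (fun c => c0 + r * c) ?_ ?_ ?_ ?_ ?_
  · intro c hc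
    rw [mem_filter, mem_range] at hc
    rw [mem_range]
    have h1 := Nat.mod_add_div c r
    have h2 : c / r + 1 ≤ (H + r - 1 - c0) / r := by
      rw [Nat.le_div_iff_mul_le hr]
      have h3 : (c / r + 1) * r = r * (c / r) + r := by ring
      rw [h3]
      omega
    omega
  · intro c hc
    rw [mem_range] at hc
    rw [mem_filter, mem_range]
    have h2 : c + 1 ≤ (H + r - 1 - c0) / r := hc
    rw [Nat.le_div_iff_mul_le hr] at h2
    have h3 : (c + 1) * r = r * c + r := by ring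
    rw [h3] at h2
    refine ⟨by omega, ?_⟩
    rw [Nat.add_mul_mod_self_left, Nat.mod_eq_of_lt hc0']
  · intro c hc
    rw [mem_filter, mem_range] at hc
    have h1 := Nat.mod_add_div c r
    omega
  · intro c _
    rw [Nat.add_mul_div_left _ _ hr, Nat.div_eq_of_lt hc0', zero_add]
  · intro c hc
    rw [mem_filter, mem_range] at hc
    have h1 := Nat.mod_add_div c r
    congr 1
    omega

theorem mc_shift (r j : ℕ) (hr : 0 < r) (f : ℕ → ℝ) :
    ∑ c0 ∈ range r, f ((j + c0) % r) = ∑ y ∈ range r, f y := by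
  have hinj : Set.InjOn (fun c0 => (j + c0) % r) (range r : Set ℕ) := by
    intro a ha b hb hab
    simp only [coe_range, Set.mem_Iio] at ha hb
    have h1 : (j + a) ≡ (j + b) [MOD r] := hab
    have h2 : a ≡ b [MOD r] := Nat.ModEq.add_left_cancel' j h1
    exact Nat.ModEq.eq_of_lt_of_lt h2 ha hb
  have himg : (range r).image (fun c0 => (j + c0) % r) = range r := by
    apply Finset.eq_of_subset_of_card_le
    · intro y hy
      obtain ⟨a, _, rfl⟩ := mem_image.1 hy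
      exact mem_range.2 (Nat.mod_lt _ hr)
    · rw [card_image_of_injOn hinj]
  conv_rhs => rw [← himg]
  rw [sum_image hinj]

theorem mc_geo {n x j c : ℕ} {σ : Bool} (hn : 64 ≤ n) (hx : x ∈ Icc 1 n)
    (hσ : σ = true ↔ 2 * x ≤ n) (hj : j ∈ xcJ σ n 1 (n / 32)) (hc : c < n / 32) :
    n ≤ 4 * (x + (j + c)) ∧ x + (j + c) ≤ 2 * n ∧
    (σ = true → n + 4 * x ≤ 4 * (j + c)) ∧ (σ = false → n + 4 * (j + c) ≤ 4 * x) ∧
    j + c ≤ n := by
  rw [mem_Icc] at hx
  unfold xcJ at hj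
  cases σ with
  | true =>
    have h2 : 2 * x ≤ n := hσ.mp rfl
    simp only [if_true, mem_Ico, mul_one] at hj
    refine ⟨?_, ?_, fun _ => ?_, fun h => by simp at h, ?_⟩ <;> omega
  | false =>
    have h2 : ¬ 2 * x ≤ n := fun h => by simpa using hσ.mpr h
    simp only [Bool.false_eq_true, if_false, mem_Ico] at hj
    refine ⟨?_, ?_, fun h => by simp at h, fun _ => ?_, ?_⟩ <;> omega

/-- The summand in terms of `y = j + c`. -/
noncomputable def mc_F (n Q r : ℕ) (ψ : DirichletCharacter ℂ r) (β : ℝ) (x y : ℕ) : ℝ :=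
  MM Q r (ψ ((x : ZMod r) + y)).re β ((x : ℤ) + y) *
    MM Q r (ψ (if 2 * x ≤ n then (y : ZMod r) - x else (x : ZMod r) - y)).re β ((y : ℤ) - x)

theorem mc_term {n Q r : ℕ} (ψ : DirichletCharacter ℂ r) (β : ℝ) {x j c : ℕ} {σ : Bool}
    (hn : 64 ≤ n) (hx : x ∈ Icc 1 n)
    (hσ : σ = true ↔ 2 * x ≤ n) (hj : j ∈ xcJ σ n 1 (n / 32)) (hc : c < n / 32) :
    Mod Q r (ψ ((xcs 1 0 x j + c : ℕ) : ZMod r)).re β
        ((xcs 1 0 x j + c : ℕ) : ℤ) *
      Mod Q r (ψ ((ix (n / 32) σ (xct σ (n / 32) 1 0 x j) c : ℕ) : ZMod r)).re β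
        ((ix (n / 32) σ (xct σ (n / 32) 1 0 x j) c : ℕ) : ℤ) = mc_F n Q r ψ β x (j + c) := by
  obtain ⟨g1, g2, g3, g4, g5⟩ := mc_geo hn hx hσ hj hc
  have hs : xcs 1 0 x j + c = x + (j + c) := by
    unfold xcs
    simp
    ring
  have hpos : (0 : ℤ) < ((x + (j + c) : ℕ) : ℤ) := by
    have : 0 < x + (j + c) := by omega
    exact_mod_cast this
  rw [hs, ← cp_MM_pos Q r _ β _ hpos]
  unfold mc_F
  have e1 : (((x + (j + c) : ℕ) : ZMod r)) = (x : ZMod r) + ((j + c : ℕ) : ZMod r) := by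
    push_cast; ring
  have e2 : (((x + (j + c) : ℕ) : ℤ)) = (x : ℤ) + ((j + c : ℕ) : ℤ) := by
    push_cast; ring
  rw [e1, e2]
  congr 1
  unfold xcJ at hj
  rw [mem_Icc] at hx
  cases σ with
  | true =>
    have h2 : 2 * x ≤ n := hσ.mp rfl
    have g := g3 rfl
    simp only [if_true, mem_Ico, mul_one] at hj
    have ht : xct true (n / 32) 1 0 x j = j - x := by
      unfold xct xcD
      simp only [if_true, Nat.cast_zero, zero_sub, Nat.cast_one, Int.ediv_one]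
      omega
    have hix : ix (n / 32) true (xct true (n / 32) 1 0 x j) c = j + c - x := by
      rw [ht]
      simp only [ix, cond_true]
      omega
    have h3 : x ≤ j + c := by omega
    rw [hix, if_pos h2]
    have hpos2 : (0 : ℤ) < ((j + c - x : ℕ) : ℤ) := by
      have : 0 < j + c - x := by omega
      exact_mod_cast this
    rw [← cp_MM_pos Q r _ β _ hpos2, Nat.cast_sub h3, Nat.cast_sub h3]
  | false =>
    have h2 : ¬ 2 * x ≤ n := fun h => by simpa using hσ.mpr h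
    have g := g4 rfl
    simp only [Bool.false_eq_true, if_false, mem_Ico] at hj
    have ht : xct false (n / 32) 1 0 x j = x - j - (n / 32 - 1) := by
      unfold xct xcD
      simp only [Bool.false_eq_true, if_false, Nat.cast_zero, sub_zero, Nat.cast_one, Int.ediv_one]
      omega
    have hix : ix (n / 32) false (xct false (n / 32) 1 0 x j) c = x - (j + c) := by
      rw [ht]
      simp only [ix, cond_false]
      omega
    have h3 : j + c ≤ x := by omega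
    rw [hix, if_neg h2]
    have hpos2 : (0 : ℤ) < ((x - (j + c) : ℕ) : ℤ) := by
      have : 0 < x - (j + c) := by omega
      exact_mod_cast this
    rw [← cp_MM_pos Q r _ β _ hpos2, Nat.cast_sub h3, Nat.cast_sub h3,
      ← cp_MM_neg Q r _ β ((x : ℤ) - ((j + c : ℕ) : ℤ)), neg_sub]

theorem mc_re_le (r : ℕ) (ψ : DirichletCharacter ℂ r) (a : ZMod r) : |(ψ a).re| ≤ 1 :=
  (Complex.abs_re_le_norm _).trans (DirichletCharacter.norm_le_one ψ a)

theorem mc_re_zero (r : ℕ) (ψ : DirichletCharacter ℂ r) (z : ℤ) (h : ¬ IsCoprime z (r : ℤ)) :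
    (ψ (z : ZMod r)).re = 0 := by
  have h1 : ¬ IsUnit (z : ZMod r) := by
    rw [ZMod.coe_int_isUnit_iff_isCoprime]
    exact fun h' => h h'.symm
  rw [ψ.map_nonunit h1, Complex.zero_re]

/-- One class. -/
theorem mc_class {C1 C2 : ℝ} (hC1 : 1 ≤ C1) (hC2 : 1 ≤ C2)
    (hlow : ∀ (Q H W r : ℕ) (x y : ℤ) (β ε ε' : ℝ), 0 < W →
    W ^ 100 ≤ Q → 8 ≤ Q → r ∣ W → IsCoprime x (W : ℤ) → IsCoprime y (W : ℤ) → 1 ≤ x →
    (1 ≤ y ∨ y + W * H ≤ 0) → x ≠ y → (2 ∣ W ∨ (2 : ℤ) ∣ x - y) → 1 / 2 ≤ β → β ≤ 1 →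
    |ε| ≤ 1 → |ε'| ≤ 1 →
    ((W : ℝ) / Nat.totient W) ^ 2 *
        ((∑ c ∈ range H, (1 - ε * |((x + W * (c : ℕ) : ℤ) : ℝ)| ^ (β - 1)) *
            (1 - ε' * |((y + W * (c : ℕ) : ℤ) : ℝ)| ^ (β - 1))) * (1 / 2 * Gp W (x - y)) -
          C1 * H * (Q : ℝ) ^ (-(1 / 4) : ℝ) * Rk (x - y)) - (Q : ℝ) ^ 9 ≤
      ∑ c ∈ range H, MM Q r ε β (x + W * (c : ℕ)) * MM Q r ε' β (y + W * (c : ℕ)))
    (hnon : ∀ (Q N r : ℕ) (x y : ℤ) (β ε ε' : ℝ), 0 < r →
    r ^ 100 ≤ Q → 8 ≤ Q → ¬ (IsCoprime x (r : ℤ) ∧ IsCoprime y (r : ℤ)) →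
    (¬ IsCoprime x (r : ℤ) → ε = 0) → (¬ IsCoprime y (r : ℤ) → ε' = 0) →
    (1 ≤ x ∨ x + r * N ≤ 0) → (1 ≤ y ∨ y + r * N ≤ 0) → x ≠ y → 1 / 2 ≤ β → β ≤ 1 →
    |ε| ≤ 1 → |ε'| ≤ 1 →
    |∑ c ∈ range N, MM Q r ε β (x + r * (c : ℕ)) * MM Q r ε' β (y + r * (c : ℕ))| ≤
      C2 * (r : ℝ) ^ 3 * N * (Q : ℝ) ^ (-(1 / 4) : ℝ) * Rk (x - y) + (Q : ℝ) ^ 9)
    {n Q r : ℕ} (ψ : DirichletCharacter ℂ r) {β : ℝ} {x : ℕ} {σ : Bool} {j : ℕ} {κ : ℕ → ℝ}
    (hr : 0 < r) (hrQ : r ^ 100 ≤ Q) (hQ : 8 ≤ Q) (hn : 64 ≤ n) (hrn : r ≤ n / 32)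
    (hβ : 1 / 2 ≤ β) (hβ1 : β ≤ 1) (hx : x ∈ Icc 1 n) (hσ : σ = true ↔ 2 * x ≤ n)
    (hj : j ∈ xcJ σ n 1 (n / 32)) (hκ : ∀ y0, 0 ≤ κ y0)
    (hκ1 : ∀ y0 ∈ compat r x, ∀ m m' : ℝ, n / 4 ≤ m → n / 4 ≤ m' → m ≤ 2 * n → m' ≤ 2 * n →
      κ y0 ≤ (1 - (ψ ((x : ZMod r) + y0)).re * m ^ (β - 1)) *
        (1 - (ψ (if 2 * x ≤ n then (y0 : ZMod r) - x else (x : ZMod r) - y0)).re *
          m' ^ (β - 1)))
    {c0 : ℕ} (hc0 : c0 < r) :
    (if (j + c0) % r ∈ compat r x then (n / 32 : ℕ) / (4 * r) * ((r : ℝ) / Nat.totient r) ^ 2 *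
        Gp r (2 * (x : ℤ)) * κ ((j + c0) % r) else 0) -
      (C1 + C2) * (r : ℝ) ^ 3 * (n / 32 : ℕ) * (Q : ℝ) ^ (-(1 / 4) : ℝ) * Rk (2 * (x : ℤ)) -
      (Q : ℝ) ^ 9 ≤
    ∑ c ∈ range ((n / 32 + r - 1 - c0) / r), mc_F n Q r ψ β x (j + (c0 + r * c)) := by
  set H := n / 32 with hH
  set N := (H + r - 1 - c0) / r with hN
  set y0 := (j + c0) % r with hy0
  have hy0r : y0 < r := Nat.mod_lt _ hr
  set X0 : ℤ := (x : ℤ) + (j + c0 : ℕ) with hX0
  set Y0 : ℤ := ((j + c0 : ℕ) : ℤ) - x with hY0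
  set ε : ℝ := (ψ ((x : ZMod r) + y0)).re with hε
  set ε' : ℝ := (ψ (if 2 * x ≤ n then (y0 : ZMod r) - x else (x : ZMod r) - y0)).re with hε'
  set q4 := (Q : ℝ) ^ (-(1 / 4) : ℝ) with hq4
  have hx' := mem_Icc.1 hx
  have hr1 : (1 : ℝ) ≤ r := by exact_mod_cast hr
  have hcast : ∀ c : ℕ, (((j + (c0 + r * c) : ℕ)) : ZMod r) = (y0 : ZMod r) := by
    intro c
    have h1 : j + (c0 + r * c) ≡ y0 [MOD r] := by
      rw [hy0]
      have h2 : j + (c0 + r * c) = (j + c0) + r * c := by ring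
      rw [h2]
      unfold Nat.ModEq
      rw [Nat.add_mul_mod_self_left, Nat.mod_mod]
    exact (ZMod.natCast_eq_natCast_iff _ _ _).2 h1
  -- terms
  have hF : ∀ c : ℕ, mc_F n Q r ψ β x (j + (c0 + r * c)) =
      MM Q r ε β (X0 + r * (c : ℕ)) * MM Q r ε' β (Y0 + r * (c : ℕ)) := by
    intro c
    unfold mc_F
    rw [hcast c, ← hε, ← hε']
    have e1 : (x : ℤ) + ((j + (c0 + r * c) : ℕ) : ℤ) = X0 + r * (c : ℕ) := by
      rw [hX0]; push_cast; ring
    have e2 : ((j + (c0 + r * c) : ℕ) : ℤ) - x = Y0 + r * (c : ℕ) := by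
      rw [hY0]; push_cast; ring
    rw [e1, e2]
  rw [sum_congr rfl fun c _ => hF c]
  -- the number of terms
  have hNlt : ∀ c, c < N → c0 + r * c < H := by
    intro c hc
    have h2 : c + 1 ≤ (H + r - 1 - c0) / r := hc
    rw [Nat.le_div_iff_mul_le hr] at h2
    have h3 : (c + 1) * r = r * c + r := by ring
    rw [h3] at h2
    omega
  have hNH : N ≤ H := by
    rw [hN]
    calc (H + r - 1 - c0) / r ≤ (r * H) / r := by
          apply Nat.div_le_div_right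
          have : H + r ≤ r * H + 1 := by nlinarith
          omega
      _ = H := Nat.mul_div_cancel_left _ hr
  have hNr : r * N ≤ H + r - 1 - c0 := Nat.mul_div_le _ _
  have hN1 : H < r * N + r := by
    have h1 : H + r - 1 - c0 < r * N + r := by
      have := Nat.lt_mul_div_succ (H + r - 1 - c0) hr
      rw [← hN] at this
      rw [mul_add, mul_one] at this
      exact this
    have h2 : H / r ≤ N := by
      rw [hN]
      apply Nat.div_le_div_right
      omega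
    have h3 := Nat.lt_mul_div_succ H hr
    rw [mul_add, mul_one] at h3
    have h4 : r * (H / r) ≤ r * N := Nat.mul_le_mul_left _ h2
    omega
  have hN0 : 1 ≤ N := by
    rw [hN, Nat.le_div_iff_mul_le hr]
    omega
  have hHN : (H : ℝ) ≤ 2 * r * N := by
    have h1 : H ≤ 2 * r * N := by
      have : r ≤ r * N := Nat.le_mul_of_pos_right _ hN0
      nlinarith
    exact_mod_cast h1
  -- geometry
  have hH0 : 0 < H := by omega
  have geo : ∀ c, c < N → n ≤ 4 * (x + (j + (c0 + r * c))) ∧ x + (j + (c0 + r * c)) ≤ 2 * n ∧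
      (σ = true → n + 4 * x ≤ 4 * (j + (c0 + r * c))) ∧
      (σ = false → n + 4 * (j + (c0 + r * c)) ≤ 4 * x) ∧ j + (c0 + r * c) ≤ n := fun c hc =>
    mc_geo hn hx hσ hj (hNlt c hc)
  have geo0 := geo 0 (by omega)
  rw [mul_zero, add_zero] at geo0
  have hXY : X0 - Y0 = 2 * (x : ℤ) := by rw [hX0, hY0]; ring
  have hXYne : X0 ≠ Y0 := by
    intro h
    rw [h] at hXY
    omega
  have hX1 : 1 ≤ X0 := by
    rw [hX0]
    have := geo0.1
    omega
  have hY1 : 1 ≤ Y0 ∨ Y0 + r * N ≤ 0 := by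
    cases σ with
    | true =>
      left
      have := geo0.2.2.1 rfl
      rw [hY0]
      omega
    | false =>
      right
      have h2 : ¬ 2 * x ≤ n := fun h => by simpa using hσ.mpr h
      unfold xcJ at hj
      simp only [Bool.false_eq_true, if_false, mem_Ico] at hj
      have h3 : j + c0 + r * N ≤ x := by omega
      rw [hY0]
      have h4 : ((j + c0 + r * N : ℕ) : ℤ) ≤ (x : ℤ) := by exact_mod_cast h3
      push_cast at h4 ⊢
      linarith
  have hdecomp : ((j + c0 : ℕ) : ℤ) = (y0 : ℤ) + r * (((j + c0) / r : ℕ) : ℤ) := by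
    have := Nat.mod_add_div (j + c0) r
    rw [← hy0] at this
    exact_mod_cast this.symm
  have hXc : IsCoprime X0 (r : ℤ) ↔ IsCoprime ((x : ℤ) + y0) (r : ℤ) := by
    rw [hX0, hdecomp, ← add_assoc]
    exact IsCoprime.add_mul_left_left_iff
  have hYc : IsCoprime Y0 (r : ℤ) ↔ IsCoprime ((x : ℤ) - y0) (r : ℤ) := by
    have h1 : Y0 = -((x : ℤ) - y0) + r * (((j + c0) / r : ℕ) : ℤ) := by
      rw [hY0, hdecomp]; ring
    rw [h1, IsCoprime.add_mul_left_left_iff, IsCoprime.neg_left_iff]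
  have hεle : |ε| ≤ 1 := mc_re_le r ψ _
  have hεle' : |ε'| ≤ 1 := mc_re_le r ψ _
  have hε0 : ¬ IsCoprime X0 (r : ℤ) → ε = 0 := by
    intro h
    rw [hXc] at h
    have h1 := mc_re_zero r ψ ((x : ℤ) + y0) h
    rw [hε, ← h1]
    push_cast
    rfl
  have hε0' : ¬ IsCoprime Y0 (r : ℤ) → ε' = 0 := by
    intro h
    rw [hYc] at h
    rw [hε']
    split_ifs with h2
    · have h3 : ¬ IsCoprime ((y0 : ℤ) - x) (r : ℤ) := by
        rw [← neg_sub (x : ℤ) (y0 : ℤ), IsCoprime.neg_left_iff]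
        exact h
      have h1 := mc_re_zero r ψ ((y0 : ℤ) - x) h3
      rw [← h1]
      push_cast
      rfl
    · have h1 := mc_re_zero r ψ ((x : ℤ) - y0) h
      rw [← h1]
      push_cast
      rfl
  have hRk : 1 ≤ Rk (2 * (x : ℤ)) := one_le_Rk _
  have hGp : 1 ≤ Gp r (2 * (x : ℤ)) := one_le_Gp _ _
  have hq40 : 0 ≤ q4 := by positivity
  have hNHR : (N : ℝ) ≤ H := by exact_mod_cast hNH
  have hφ : (1 : ℝ) ≤ Nat.totient r := by exact_mod_cast Nat.totient_pos.mpr hr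
  set D : ℝ := (r : ℝ) / Nat.totient r with hD
  have hD0 : 0 ≤ D := by positivity
  have hDr : D ≤ r := div_le_self (by linarith) hφ
  by_cases hcomp : IsCoprime X0 (r : ℤ) ∧ IsCoprime Y0 (r : ℤ)
  · have hmem : y0 ∈ compat r x := by
      unfold compat
      rw [mem_filter, mem_range]
      exact ⟨hy0r, hXc.1 hcomp.1, hYc.1 hcomp.2⟩
    rw [if_pos hmem]
    have h1 := hlow Q N r r X0 Y0 β ε ε' hr hrQ hQ dvd_rfl hcomp.1 hcomp.2 hX1 hY1 hXYne
      (Or.inr (by rw [hXY]; exact Dvd.intro _ rfl)) hβ hβ1 hεle hεle'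
    rw [hXY, ← hq4, ← hD] at h1
    set Sg : ℝ := ∑ c ∈ range N, (1 - ε * |((X0 + r * (c : ℕ) : ℤ) : ℝ)| ^ (β - 1)) *
      (1 - ε' * |((Y0 + r * (c : ℕ) : ℤ) : ℝ)| ^ (β - 1)) with hSg
    have hSgκ : N * κ y0 ≤ Sg := by
      have h2 : (N : ℝ) * κ y0 = ∑ _c ∈ range N, κ y0 := by
        rw [sum_const, card_range, nsmul_eq_mul]
      rw [h2, hSg]
      apply sum_le_sum
      intro c hc
      have g := geo c (mem_range.1 hc)
      have e1 : X0 + r * (c : ℕ) = ((x + (j + (c0 + r * c)) : ℕ) : ℤ) := by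
        rw [hX0]; push_cast; ring
      have e2 : Y0 + r * (c : ℕ) = ((j + (c0 + r * c) : ℕ) : ℤ) - x := by
        rw [hY0]; push_cast; ring
      have g1 : (n : ℝ) ≤ 4 * ((x + (j + (c0 + r * c)) : ℕ) : ℝ) := by exact_mod_cast g.1
      have g2 : ((x + (j + (c0 + r * c)) : ℕ) : ℝ) ≤ 2 * n := by exact_mod_cast g.2.1
      have hxn : (x : ℝ) ≤ n := by exact_mod_cast hx'.2
      have hx0 : (0 : ℝ) ≤ x := Nat.cast_nonneg _
      have hj0 : (0 : ℝ) ≤ ((j + (c0 + r * c) : ℕ) : ℝ) := Nat.cast_nonneg _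
      have g5 : ((j + (c0 + r * c) : ℕ) : ℝ) ≤ n := by exact_mod_cast g.2.2.2.2
      have habs : (n : ℝ) / 4 ≤ |((((j + (c0 + r * c) : ℕ) : ℤ) - x : ℤ) : ℝ)| := by
        have h5 : ((((j + (c0 + r * c) : ℕ) : ℤ) - x : ℤ) : ℝ) =
          ((j + (c0 + r * c) : ℕ) : ℝ) - x := by push_cast; ring
        rw [h5]
        cases σ with
        | true =>
          have h6 : (n : ℝ) + 4 * x ≤ 4 * ((j + (c0 + r * c) : ℕ) : ℝ) := by
            exact_mod_cast g.2.2.1 rfl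
          exact le_trans (by linarith) (le_abs_self _)
        | false =>
          have h6 : (n : ℝ) + 4 * ((j + (c0 + r * c) : ℕ) : ℝ) ≤ 4 * x := by
            exact_mod_cast g.2.2.2.1 rfl
          exact le_trans (by linarith) (neg_le_abs _)
      have habs2 : |((((j + (c0 + r * c) : ℕ) : ℤ) - x : ℤ) : ℝ)| ≤ 2 * n := by
        have h5 : ((((j + (c0 + r * c) : ℕ) : ℤ) - x : ℤ) : ℝ) =
          ((j + (c0 + r * c) : ℕ) : ℝ) - x := by push_cast; ring
        rw [h5, abs_le]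
        constructor <;> linarith
      have h3 := hκ1 y0 hmem |((X0 + r * (c : ℕ) : ℤ) : ℝ)| |((Y0 + r * (c : ℕ) : ℤ) : ℝ)|
        (by rw [e1, Int.cast_natCast, abs_of_nonneg (Nat.cast_nonneg _)]; linarith)
        (by rw [e2]; exact habs)
        (by rw [e1, Int.cast_natCast, abs_of_nonneg (Nat.cast_nonneg _)]; exact g2)
        (by rw [e2]; exact habs2)
      exact h3
    have hκ0 := hκ y0
    have hmain : (H : ℝ) / (4 * r) * D ^ 2 * Gp r (2 * (x : ℤ)) * κ y0 ≤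
        D ^ 2 * (Sg * (1 / 2 * Gp r (2 * (x : ℤ)))) := by
      have h4 : (H : ℝ) / (4 * r) ≤ N / 2 := by
        rw [div_le_div_iff₀ (by positivity) (by norm_num)]
        linarith
      calc (H : ℝ) / (4 * r) * D ^ 2 * Gp r (2 * (x : ℤ)) * κ y0
          ≤ N / 2 * D ^ 2 * Gp r (2 * (x : ℤ)) * κ y0 := by gcongr
        _ = D ^ 2 * ((N * κ y0) * (1 / 2 * Gp r (2 * (x : ℤ)))) := by ring
        _ ≤ _ := by gcongr
    have herr : D ^ 2 * (C1 * N * q4 * Rk (2 * (x : ℤ))) ≤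
        (C1 + C2) * (r : ℝ) ^ 3 * H * q4 * Rk (2 * (x : ℤ)) := by
      have h5 : D ^ 2 ≤ (r : ℝ) ^ 3 :=
        (pow_le_pow_left₀ hD0 hDr 2).trans (pow_le_pow_right₀ hr1 (by norm_num))
      calc D ^ 2 * (C1 * N * q4 * Rk (2 * (x : ℤ)))
          ≤ (r : ℝ) ^ 3 * ((C1 + C2) * H * q4 * Rk (2 * (x : ℤ))) := by
            gcongr
            linarith
        _ = _ := by ring
    have h6 : D ^ 2 * (Sg * (1 / 2 * Gp r (2 * (x : ℤ))) - C1 * N * q4 * Rk (2 * (x : ℤ))) =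
      D ^ 2 * (Sg * (1 / 2 * Gp r (2 * (x : ℤ)))) -
        D ^ 2 * (C1 * N * q4 * Rk (2 * (x : ℤ))) := by ring
    rw [h6] at h1
    linarith
  · have hmem : y0 ∉ compat r x := by
      intro h
      unfold compat at h
      rw [mem_filter] at h
      exact hcomp ⟨hXc.2 h.2.1, hYc.2 h.2.2⟩
    rw [if_neg hmem]
    have h1 := hnon Q N r X0 Y0 β ε ε' hr hrQ hQ hcomp hε0 hε0' (Or.inl hX1) hY1 hXYne hβ hβ1
      hεle hεle'
    rw [hXY, ← hq4] at h1
    have h2 := (abs_le.mp h1).1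
    have h3 : C2 * (r : ℝ) ^ 3 * N * q4 * Rk (2 * (x : ℤ)) ≤
        (C1 + C2) * (r : ℝ) ^ 3 * H * q4 * Rk (2 * (x : ℤ)) := by
      gcongr
      linarith
    linarith

/-- **Main term at an exceptional level.** `x ∈ [1, n]`, `σ`, `j` as in chunk VA, `H = n/32`,
`s = xcs 1 0 x j = x + j`, `t = xct σ H 1 0 x j`; the numbers are `m_c = s + c = x + (j + c)` and
`m'_c = ix H σ t c = |x - (j + c)|`.

Proof. Let `χ(m) = (ψ m).re`. Both factors are `MM Q r (χ m) β m` (`cp_MM_pos`; `m_c, m'_c > 0`), and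
`MM` is even in its last argument (`cp_MM_neg`): `m'_c = ± (j + c - x)` (`xc_geom`, `xc_diff` with
`r = 1`, `y0 = 0`), so the sum is `∑_c MM Q r ε β (x + j + c) MM Q r ε' β (j + c - x)` with
`ε = χ(x + j + c)`, `ε' = χ(m'_c)`. Split by the class `y0 ∈ range r` of `j + c` modulo `r`: `c = c0 + r c'`,
`c0 < r`, `c' < N`, where `H/r - 1 ≤ N ≤ H/r + 1`; `ε = χ(x + y0)`, `ε' = χ(y0 - x)` or `χ(x - y0)`
(`2 x ≤ n` or not) are constant, and the arguments are `X0 + r c'`, `Y0 + r c'` with `X0 = x + j + c0 ≥ 1`,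
`Y0 = j + c0 - x`, `Y0 ≥ 1` if `σ = true`; if `σ = false` then `Y0 + r c' ≤ -M` for `c' < N`, so
`Y0 + r N ≤ -M + r ≤ 0` (`M = 3n/8 ≥ r`); `X0 - Y0 = 2 x`. If `y0 ∈ compat r x`: `X0, Y0` are coprime
to `r`, and `model_low` (`H18E/ML`, `W = r`) gives at least `(r/φ(r))² (κ(y0) N (1/2 Gp r (2x)) -
C N Q^(-1/4) Rk (2x)) - Q^9`. Else `noncompat` (`χ = 0` at non-units). Sum over `y0`: with `N ≥ H/(2r)`
(`H ≥ 4 r`) and `r` classes, `(r/φ(r))² ≤ r²`. -/
theorem main_exc : ∃ C : ℝ, 1 ≤ C ∧ ∀ (n Q r : ℕ) [NeZero r] (ψ : DirichletCharacter ℂ r)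
    (β : ℝ) (x : ℕ) (σ : Bool) (j : ℕ) (κ : ℕ → ℝ), r ^ 100 ≤ Q → 8 ≤ Q → Q ^ 2 ≤ n →
    1 / 2 ≤ β → β ≤ 1 → x ∈ Icc 1 n → (σ = true ↔ 2 * x ≤ n) → j ∈ xcJ σ n 1 (n / 32) →
    (∀ y0, 0 ≤ κ y0) →
    (∀ y0 ∈ compat r x, ∀ m m' : ℝ, n / 4 ≤ m → n / 4 ≤ m' → m ≤ 2 * n → m' ≤ 2 * n →
      κ y0 ≤ (1 - (ψ ((x : ZMod r) + y0)).re * m ^ (β - 1)) *
        (1 - (ψ (if 2 * x ≤ n then (y0 : ZMod r) - x else (x : ZMod r) - y0)).re *
          m' ^ (β - 1))) →
    (n / 32 : ℕ) / (4 * r) * ((r : ℝ) / Nat.totient r) ^ 2 * Gp r (2 * (x : ℤ)) *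
        (∑ y0 ∈ compat r x, κ y0) -
      C * (r : ℝ) ^ 4 * n * (Q : ℝ) ^ (-(1 / 4) : ℝ) * Rk (2 * (x : ℤ)) - (Q : ℝ) ^ 10 ≤
    ∑ c ∈ range (n / 32), Mod Q r (ψ ((xcs 1 0 x j + c : ℕ) : ZMod r)).re β
        ((xcs 1 0 x j + c : ℕ) : ℤ) *
      Mod Q r (ψ ((ix (n / 32) σ (xct σ (n / 32) 1 0 x j) c : ℕ) : ZMod r)).re β
        ((ix (n / 32) σ (xct σ (n / 32) 1 0 x j) c : ℕ) : ℤ) := by
  obtain ⟨C1, hC1, hlow⟩ := model_low
  obtain ⟨C2, hC2, hnon⟩ := noncompat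
  refine ⟨C1 + C2, by linarith, ?_⟩
  intro n Q r _ ψ β x σ j κ hrQ hQ hQn hβ hβ1 hx hσ hj hκ hκ1
  have hr : 0 < r := Nat.pos_of_ne_zero (NeZero.ne r)
  have hn : 64 ≤ n := by nlinarith
  have hrn : r ≤ n / 32 := by
    rw [Nat.le_div_iff_mul_le (by norm_num)]
    rcases Nat.lt_or_ge 1 r with h | h
    · have h1 : r ^ 6 ≤ r ^ 100 := Nat.pow_le_pow_right hr (by norm_num)
      have h2 : 2 ^ 5 ≤ r ^ 5 := Nat.pow_le_pow_left h 5
      have h3 : r * 32 ≤ r ^ 6 := by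
        calc r * 32 ≤ r * r ^ 5 := Nat.mul_le_mul_left _ (by simpa using h2)
          _ = r ^ 6 := by ring
      nlinarith
    · have : r = 1 := by omega
      rw [this]
      omega
  have hr1 : (1 : ℝ) ≤ r := by exact_mod_cast hr
  rw [sum_congr rfl fun c hc => mc_term (Q := Q) ψ β hn hx hσ hj (mem_range.1 hc),
    mc_split (n / 32) r hr (fun c => mc_F n Q r ψ β x (j + c))]
  set A : ℝ := (n / 32 : ℕ) / (4 * r) * ((r : ℝ) / Nat.totient r) ^ 2 * Gp r (2 * (x : ℤ)) with hA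
  set E : ℝ := (C1 + C2) * (r : ℝ) ^ 3 * (n / 32 : ℕ) * (Q : ℝ) ^ (-(1 / 4) : ℝ) *
    Rk (2 * (x : ℤ)) with hE
  have hsum : ∑ c0 ∈ range r, ((if (j + c0) % r ∈ compat r x then A * κ ((j + c0) % r) else 0) -
      E - (Q : ℝ) ^ 9) ≤ ∑ c0 ∈ range r, ∑ c ∈ range ((n / 32 + r - 1 - c0) / r),
        mc_F n Q r ψ β x (j + (c0 + r * c)) :=
    sum_le_sum fun c0 hc0 => mc_class hC1 hC2 hlow hnon ψ hr hrQ hQ hn hrn hβ hβ1 hx hσ hj hκ hκ1
      (mem_range.1 hc0)
  refine le_trans ?_ hsum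
  rw [sum_sub_distrib, sum_sub_distrib,
    mc_shift r j hr (fun y => if y ∈ compat r x then A * κ y else 0), sum_const, sum_const,
    card_range, nsmul_eq_mul, nsmul_eq_mul]
  have hsub : compat r x ⊆ range r := by
    unfold compat
    exact filter_subset _ _
  have h1 : ∑ y ∈ range r, (if y ∈ compat r x then A * κ y else 0) =
      A * ∑ y0 ∈ compat r x, κ y0 := by
    rw [mul_sum, ← sum_subset hsub (f := fun y => if y ∈ compat r x then A * κ y else 0)]
    · exact sum_congr rfl fun y hy => if_pos hy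
    · intro y _ hy
      exact if_neg hy
  rw [h1]
  have hRk : 1 ≤ Rk (2 * (x : ℤ)) := one_le_Rk _
  have hq40 : 0 ≤ (Q : ℝ) ^ (-(1 / 4) : ℝ) := by positivity
  have hHn : ((n / 32 : ℕ) : ℝ) ≤ n := by exact_mod_cast Nat.div_le_self _ _
  have h2 : r * E ≤ (C1 + C2) * (r : ℝ) ^ 4 * n * (Q : ℝ) ^ (-(1 / 4) : ℝ) *
      Rk (2 * (x : ℤ)) := by
    rw [hE]
    calc (r : ℝ) * ((C1 + C2) * (r : ℝ) ^ 3 * (n / 32 : ℕ) * (Q : ℝ) ^ (-(1 / 4) : ℝ) *
        Rk (2 * (x : ℤ))) = (C1 + C2) * (r : ℝ) ^ 4 * (n / 32 : ℕ) * (Q : ℝ) ^ (-(1 / 4) : ℝ) *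
        Rk (2 * (x : ℤ)) := by ring
      _ ≤ _ := by gcongr
  have h3 : (r : ℝ) * (Q : ℝ) ^ 9 ≤ (Q : ℝ) ^ 10 := by
    have h4 : (r : ℝ) ≤ Q := by
      have : r ≤ Q := (Nat.le_self_pow (by norm_num) r).trans hrQ
      exact_mod_cast this
    calc (r : ℝ) * (Q : ℝ) ^ 9 ≤ Q * (Q : ℝ) ^ 9 := by gcongr
      _ = (Q : ℝ) ^ 10 := by ring
  linarith

end Pool.Agent.Lib.H18Q
end
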