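import Pool.Agent.Lib.H1M.RV3.M048
import Pool.Agent.Lib.H1M.RV3.M055
import Pool.Agent.Lib.H1M.RV3.M056

/-! Merged copies (to shorten the build) of Lib.H57C.S3b. -/

-- from Lib.H57C.S3b
section

/-!
# Chunk S3b: the sieve in a box
-/

open Finset

namespace Pool.Agent.Lib.H57C

open Pool.Agent.Lib.H57M
open Pool.Agent.Lib.H59C (AA zz BX wB VV)

/-- `n` large. -/
theorem s3b_large (C δ : ℝ) (hC : 0 < C) (hδ : 0 < δ) : ∃ n0 : ℕ, ∀ n : ℕ, n0 ≤ n →
    ∀ z : ℝ, (n : ℝ) ^ (1 / 20 : ℝ) ≤ z → 4 ≤ z ∧ C / Real.log z ≤ δ ∧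
      Real.log n ^ 2 / z ≤ δ := by
  obtain ⟨n0, hn0⟩ := Pool.Agent.Lib.H59C.MER2_large C δ hC hδ
  have h1 : ∀ᶠ x : ℝ in Filter.atTop, Real.log x ^ 2 ≤ δ * x ^ (1 / 20 : ℝ) := by
    have e1 := (isLittleO_log_rpow_rpow_atTop (2 : ℝ) (show (0 : ℝ) < 1 / 20 by norm_num)).def hδ
    filter_upwards [e1, Filter.eventually_ge_atTop (1 : ℝ)] with x hx1 hx2
    have h0 : 0 ≤ Real.log x := Real.log_nonneg hx2
    rw [Real.norm_eq_abs, Real.norm_eq_abs, abs_of_nonneg (by positivity),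
      abs_of_nonneg (by positivity)] at hx1
    rw [show (2 : ℝ) = ((2 : ℕ) : ℝ) by norm_num, Real.rpow_natCast] at hx1
    exact hx1
  obtain ⟨n1, hn1⟩ := Filter.eventually_atTop.1 (tendsto_natCast_atTop_atTop.eventually h1)
  refine ⟨n0 + n1, fun n hn z hz => ?_⟩
  obtain ⟨h2, h3⟩ := hn0 n (by omega)
  obtain ⟨h4, h5⟩ := h3 z hz
  refine ⟨h4, h5, ?_⟩
  rw [div_le_iff₀ (by linarith)]
  exact (hn1 n (by omega)).trans (mul_le_mul_of_nonneg_left hz hδ.le)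

/-- Upper bound of `V(z')` by `V(z)`; as `ratio_VV` (`H59C/MER2.lean`) with a set `Z` of at most `log n` exceptional primes.

Proof. The same; the product over the exceptional primes in `[z, z')` is `≤ (1 - 1/z)^(-log n) ≤ 1 + ε/3` since `z ≥ n^(1/20)`. -/
theorem ratio_VV' (ε : ℝ) (hε : 0 < ε) : ∃ n0 : ℕ, ∀ n : ℕ, n0 ≤ n → ∀ (P Z : Finset ℕ)
    (z z' : ℝ), (Z.card : ℝ) ≤ Real.log n ^ 2 → (n : ℝ) ^ (1 / 20 : ℝ) ≤ z → z ≤ z' → z' ≤ n →
    (∀ q ∈ P, q.Prime ∧ 3 ≤ q) → (∀ q : ℕ, q.Prime → z ≤ q → (q : ℝ) < z' → q ∈ P ∨ q ∈ Z) →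
    VV P z' ≤ (1 + ε) * (Real.log z / Real.log z') * VV P z := by
  classical
  obtain ⟨C, hC, hmer⟩ := Pool.Agent.Lib.H59C.mertens
  obtain ⟨n0, hn0⟩ := s3b_large C (Real.log (1 + ε) / 2) hC
    (by have := Real.log_pos (show 1 < 1 + ε by linarith); linarith)
  refine ⟨n0, fun n hn P Z z z' hZ hz hzz _ hP hPN => ?_⟩
  obtain ⟨hz4, hzC, hzL⟩ := hn0 n hn z hz
  have hlz : 0 < Real.log z := Real.log_pos (by linarith)
  have hlz' : 0 < Real.log z' := Real.log_pos (by linarith)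
  -- positivity of the factors
  have hfac : ∀ q ∈ P, 0 < 1 - Pool.Agent.Lib.H59C.gq q ∧
      1 - Pool.Agent.Lib.H59C.gq q ≤ Real.exp (-(1 / (q : ℝ))) := by
    intro q hq
    have h3 : (3 : ℝ) ≤ q := by exact_mod_cast (hP q hq).2
    unfold Pool.Agent.Lib.H59C.gq
    have h4 : 1 / ((q : ℝ) - 1) ≤ 1 / 2 := one_div_le_one_div_of_le (by norm_num) (by linarith)
    have h5 : 1 / (q : ℝ) ≤ 1 / ((q : ℝ) - 1) := one_div_le_one_div_of_le (by linarith) (by linarith)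
    have h6 := Real.add_one_le_exp (-(1 / (q : ℝ)))
    constructor <;> linarith
  set T := P.filter (fun q : ℕ => z ≤ (q : ℝ) ∧ (q : ℝ) < z') with hT
  have hsplit : VV P z' = VV P z * ∏ q ∈ T, (1 - Pool.Agent.Lib.H59C.gq q) := by
    unfold VV Pool.Agent.Lib.H59C.VP
    rw [← Finset.prod_union]
    · refine Finset.prod_congr ?_ fun q _ => rfl
      ext q
      rw [Finset.mem_union, hT, Finset.mem_filter, Finset.mem_filter, Finset.mem_filter]
      constructor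
      · rintro ⟨h3, h4⟩
        rcases lt_or_ge (q : ℝ) z with h5 | h5
        · exact Or.inl ⟨h3, h5⟩
        · exact Or.inr ⟨h3, h5, h4⟩
      · rintro (⟨h3, h4⟩ | ⟨h3, h4, h5⟩)
        · exact ⟨h3, h4.trans_le hzz⟩
        · exact ⟨h3, h5⟩
    · rw [Finset.disjoint_left]
      intro q h3 h4
      rw [hT, Finset.mem_filter] at h4
      exact absurd (Finset.mem_filter.1 h3).2 (not_lt.2 h4.2.1)
  have hV0 : 0 ≤ VV P z := by
    unfold VV Pool.Agent.Lib.H59C.VP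
    exact Finset.prod_nonneg fun q hq => (hfac q (Finset.mem_filter.1 hq).1).1.le
  have hR : ∏ q ∈ T, (1 - Pool.Agent.Lib.H59C.gq q) ≤ Real.exp (-∑ q ∈ T, 1 / (q : ℝ)) := by
    rw [← Finset.sum_neg_distrib, Real.exp_sum]
    exact Finset.prod_le_prod (fun q hq => (hfac q (Finset.mem_filter.1 hq).1).1.le)
      fun q hq => (hfac q (Finset.mem_filter.1 hq).1).2
  set U := Z.filter (fun q : ℕ => z ≤ (q : ℝ)) with hU
  have hUsum : ∑ q ∈ U, 1 / (q : ℝ) ≤ Real.log n ^ 2 / z := by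
    have h3 : ∑ q ∈ U, 1 / (q : ℝ) ≤ ∑ q ∈ U, 1 / z := by
      refine Finset.sum_le_sum fun q hq => one_div_le_one_div_of_le (by linarith) ?_
      exact (Finset.mem_filter.1 hq).2
    refine h3.trans ?_
    rw [Finset.sum_const, nsmul_eq_mul, mul_one_div]
    refine div_le_div_of_nonneg_right ?_ (by linarith)
    refine le_trans ?_ hZ
    exact_mod_cast Finset.card_filter_le _ _
  have hsum : ∑ q ∈ Pool.Agent.Lib.H59C.PR z z', 1 / (q : ℝ) ≤
      ∑ q ∈ T, 1 / (q : ℝ) + ∑ q ∈ U, 1 / (q : ℝ) := by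
    have hsub : Pool.Agent.Lib.H59C.PR z z' ⊆ T ∪ U := by
      intro q hq
      rw [Pool.Agent.Lib.H59C.mem_PR] at hq
      rw [Finset.mem_union, hT, hU, Finset.mem_filter, Finset.mem_filter]
      rcases hPN q hq.1 hq.2.1 hq.2.2 with h3 | h3
      · exact Or.inl ⟨h3, hq.2.1, hq.2.2⟩
      · exact Or.inr ⟨h3, hq.2.1⟩
    refine (Finset.sum_le_sum_of_subset_of_nonneg hsub fun q _ _ => by positivity).trans ?_
    have h3 := Finset.sum_union_inter (s₁ := T) (s₂ := U) (f := fun q : ℕ => 1 / (q : ℝ))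
    have h4 : 0 ≤ ∑ q ∈ T ∩ U, 1 / (q : ℝ) := Finset.sum_nonneg fun q _ => by positivity
    linarith
  have hm := hmer z z' (by linarith) hzz
  rw [abs_le] at hm
  have h7 : -∑ q ∈ T, 1 / (q : ℝ) ≤
      Real.log (Real.log z) - Real.log (Real.log z') + Real.log (1 + ε) := by
    linarith [hm.1, hm.2]
  have h8 : ∏ q ∈ T, (1 - Pool.Agent.Lib.H59C.gq q) ≤
      (1 + ε) * (Real.log z / Real.log z') := by
    refine (hR.trans (Real.exp_le_exp.2 h7)).trans (le_of_eq ?_)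
    rw [Real.exp_add, Real.exp_sub, Real.exp_log hlz, Real.exp_log hlz',
      Real.exp_log (by linarith)]
    ring
  rw [hsplit, mul_comm]
  exact mul_le_mul_of_nonneg_right h8 hV0

theorem s3b_card (n : ℕ) (hn : 0 < n) : (n.primeFactors.card : ℝ) ≤ 2 * Real.log n := by
  have h1 : (2 : ℕ) ^ n.primeFactors.card ≤ n := by
    calc (2 : ℕ) ^ n.primeFactors.card = ∏ p ∈ n.primeFactors, 2 := by rw [Finset.prod_const]
      _ ≤ ∏ p ∈ n.primeFactors, p :=
          Finset.prod_le_prod' fun p hp => (Nat.prime_of_mem_primeFactors hp).two_le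
      _ ≤ n := Nat.le_of_dvd hn (Nat.prod_primeFactors_dvd n)
  have h2 : ((2 : ℝ)) ^ n.primeFactors.card ≤ n := by exact_mod_cast h1
  have h3 := Real.log_le_log (by positivity) h2
  rw [Real.log_pow] at h3
  have h4 : (1 : ℝ) / 2 ≤ Real.log 2 := by have := Real.log_two_gt_d9; linarith
  have h5 : (0 : ℝ) ≤ (n.primeFactors.card : ℝ) := Nat.cast_nonneg _
  nlinarith

/-- The number of bad primes.

Proof. Every `N + h ≤ 2 N` has at most `log (2N)/log 2` prime factors `> W ≥ 2`; `K` of them. -/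
theorem bd_card (K : ℕ) : ∃ n0 : ℕ, ∀ N : ℕ, n0 ≤ N → ∀ (W : ℕ) (H : Finset ℕ), H.card = K →
    (∀ h ∈ H, h ≤ N) → ((Bd N W H).card : ℝ) ≤ Real.log N ^ 2 := by
  obtain ⟨n0, hn0⟩ := Pool.Agent.Lib.H59C.cdl_log (4 * K + 1)
  refine ⟨n0 + 2, fun N hN W H hK hH => ?_⟩
  have hL := hn0 N (by omega)
  have hN2 : (2 : ℝ) ≤ N := by exact_mod_cast (show 2 ≤ N by omega)
  have hsub : Bd N W H ⊆ H.biUnion (fun h => (N + h).primeFactors) := by
    intro q hq
    unfold Bd at hq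
    rw [Finset.mem_filter] at hq
    obtain ⟨_, hq1, h, hh, hd⟩ := hq
    rw [Finset.mem_biUnion]
    exact ⟨h, hh, Nat.mem_primeFactors.2 ⟨hq1, hd, by omega⟩⟩
  have h1 : ((Bd N W H).card : ℝ) ≤ ∑ h ∈ H, (((N + h).primeFactors.card : ℕ) : ℝ) := by
    have := (Finset.card_le_card hsub).trans Finset.card_biUnion_le
    exact_mod_cast this
  have h2 : ∑ h ∈ H, (((N + h).primeFactors.card : ℕ) : ℝ) ≤ ∑ h ∈ H, 4 * Real.log N := by
    refine Finset.sum_le_sum fun h hh => ?_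
    refine (s3b_card (N + h) (by omega)).trans ?_
    have h3 : ((N + h : ℕ) : ℝ) ≤ (N : ℝ) ^ 2 := by
      have h4 : ((N + h : ℕ) : ℝ) ≤ 2 * N := by
        have := hH h hh
        have h5 : N + h ≤ 2 * N := by omega
        exact_mod_cast h5
      nlinarith
    have h4 := Real.log_le_log (by
      have : 0 < N + h := by omega
      exact_mod_cast this) h3
    rw [Real.log_pow] at h4
    push_cast at h4 ⊢
    linarith
  have h3 : ∑ h ∈ H, 4 * Real.log N = K * (4 * Real.log N) := by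
    rw [Finset.sum_const, hK, nsmul_eq_mul]
  have h4 : (0 : ℝ) ≤ K := Nat.cast_nonneg K
  nlinarith

/-- The level. -/
theorem s3b_lv (Q0 : ℕ) (hQ : 1 ≤ Q0) (θ η : ℝ) (hθ : 0 < θ) (hθ1 : θ ≤ 1 / 100) (hη : 8 * θ ≤ η) :
    ∃ n0 : ℕ, ∀ n : ℕ, n0 ≤ n →
      (1 / 2 - η) * Real.log n ≤ Real.log ((Lv n θ : ℝ) / Q0) ∧
      Real.log ((Lv n θ : ℝ) / Q0) ≤ 1 / 2 * Real.log n ∧ (0 : ℝ) < (Lv n θ : ℝ) / Q0 := by
  obtain ⟨n0, hn0⟩ := Pool.Agent.Lib.H59C.cdl_log (Real.log (2 * Q0) / (4 * θ) + 4)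
  refine ⟨n0 + 1, fun n hn => ?_⟩
  have hL := hn0 n (by omega)
  have hQ1 : (1 : ℝ) ≤ Q0 := by exact_mod_cast hQ
  have hlQ : 0 ≤ Real.log (2 * Q0) := Real.log_nonneg (by linarith)
  have hL4 : 4 ≤ Real.log n := by
    have : 0 ≤ Real.log (2 * Q0) / (4 * θ) := by positivity
    linarith
  have hn0' : (0 : ℝ) < n := by exact_mod_cast (show 0 < n by omega)
  have hLQ : Real.log (2 * Q0) ≤ 4 * θ * Real.log n := by
    have h1 : Real.log (2 * Q0) / (4 * θ) ≤ Real.log n := by linarith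
    rw [div_le_iff₀ (by linarith)] at h1
    linarith
  obtain ⟨y, hy⟩ : ∃ y : ℝ, y = (n : ℝ) ^ (1 / 2 - 4 * θ) := ⟨_, rfl⟩
  have hy0 : 0 < y := by rw [hy]; positivity
  have hly : Real.log y = (1 / 2 - 4 * θ) * Real.log n := by rw [hy, Real.log_rpow hn0']
  have hy2 : 2 ≤ y := by
    have h1 : Real.log 2 ≤ Real.log y := by
      rw [hly]
      have h2 := Real.log_two_lt_d9
      nlinarith
    exact (Real.log_le_log_iff (by norm_num) hy0).1 h1
  have hLv : (Lv n θ : ℝ) ≤ y := by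
    unfold Lv
    rw [← hy]
    exact Nat.floor_le hy0.le
  have hLv2 : y / 2 ≤ (Lv n θ : ℝ) := by
    unfold Lv
    rw [← hy]
    have := (Nat.lt_floor_add_one y).le
    linarith
  have hLv0 : (0 : ℝ) < Lv n θ := by linarith
  have hpos : (0 : ℝ) < (Lv n θ : ℝ) / Q0 := by positivity
  refine ⟨?_, ?_, hpos⟩
  · have h1 : y / 2 / Q0 ≤ (Lv n θ : ℝ) / Q0 := div_le_div_of_nonneg_right hLv2 (by linarith)
    have h2 := Real.log_le_log (by positivity) h1
    have h3 : Real.log (y / 2 / Q0) = Real.log y - Real.log (2 * Q0) := by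
      rw [div_div, Real.log_div hy0.ne' (by positivity)]
    rw [h3, hly] at h2
    nlinarith
  · have h1 : (Lv n θ : ℝ) / Q0 ≤ y := by
      refine le_trans ?_ hLv
      exact div_le_self hLv0.le hQ1
    have h2 := Real.log_le_log hpos h1
    rw [hly] at h2
    nlinarith

theorem s3b_W (B : ℕ) : ∃ n0 : ℕ, ∀ N : ℕ, n0 ≤ N →
    ((⌈Real.log N ^ B⌉₊ : ℕ) : ℝ) < zz N := by
  have h1 : ∀ᶠ x : ℝ in Filter.atTop, Real.log x ^ B + 1 < x ^ (1 / 8 : ℝ) := by
    have e1 := (isLittleO_log_rpow_rpow_atTop (B : ℝ) (show (0 : ℝ) < 1 / 8 by norm_num)).def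
      (show (0 : ℝ) < 1 / 2 by norm_num)
    have e2 := (tendsto_rpow_atTop (show (0 : ℝ) < 1 / 8 by norm_num)).eventually_gt_atTop 2
    filter_upwards [e1, e2, Filter.eventually_ge_atTop (1 : ℝ)] with x hx1 hx3 hx2
    have h0 : 0 ≤ Real.log x := Real.log_nonneg hx2
    rw [Real.norm_eq_abs, Real.norm_eq_abs, abs_of_nonneg (by positivity),
      abs_of_nonneg (by positivity), Real.rpow_natCast] at hx1
    linarith
  obtain ⟨n1, hn1⟩ := Filter.eventually_atTop.1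
    ((tendsto_natCast_atTop_atTop (R := ℝ)).eventually h1)
  refine ⟨n1 + 1, fun N hN => ?_⟩
  have h2 := hn1 N (by omega)
  have hN1 : (1 : ℝ) ≤ N := by exact_mod_cast (show 1 ≤ N by omega)
  have h3 : (0 : ℝ) ≤ Real.log N ^ B := pow_nonneg (Real.log_nonneg hN1) _
  unfold zz
  exact (Nat.ceil_lt_add_one h3).trans h2

theorem s3b_FF {K : ℕ} (w : Par K) (H : Finset ℕ) (i : Option ℕ) (t : ℕ) : 0 ≤ FF w H i t := by
  have hz : 0 ≤ w.z := by
    unfold Par.z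
    have : 0 ≤ ∑ i, H15P.ex (H15P.qq w.P K) (fun A => w.D i A ^ 2) :=
      Finset.sum_nonneg fun i _ => H15P.ex_nonneg _ w.good.q0 w.good.q1 _ fun A => sq_nonneg _
    linarith
  unfold FF
  exact div_nonneg (sq_nonneg _) (pow_nonneg hz _)

theorem s3b_Fs0 {K : ℕ} (w : Par K) (H : Finset ℕ) (N p1 : ℕ) (i : Option ℕ) (t : ℕ) :
    0 ≤ Fs w H N p1 i t := by
  unfold Fs Sg
  refine mul_nonneg (s3b_FF w H i t) ?_
  split_ifs
  · exact zero_le_one
  · exact le_rfl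

/-- Periodicity. -/
theorem s3b_Fs {K : ℕ} (w : Par K) (H : Finset ℕ) (N p1 : ℕ) (i : Option ℕ) (t t' : ℕ)
    (hP : ∀ p ∈ w.P, p ≤ N) (hW : w.W ≤ N)
    (ht : ∀ q : ℕ, 1 ≤ q → q ≤ N → t ≡ t' [MOD q]) :
    Fs w H N p1 i t = Fs w H N p1 i t' := by
  have h1 : cfg w.P H i t = cfg w.P H i t' := by
    funext h
    unfold cfg
    split_ifs
    · rfl
    · unfold Pool.Agent.Lib.H15P.hit
      ext p
      rw [Finset.mem_filter, Finset.mem_filter]
      have h2 : t + h.1 ≡ t' + h.1 [MOD p.1] :=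
        (ht p.1 (w.prime p.1 p.2).one_lt.le (hP p.1 p.2)).add_right _
      rw [h2.dvd_iff dvd_rfl]
  have h2 : Sg (Ps w.W p1) (Rb N H) t = Sg (Ps w.W p1) (Rb N H) t' := by
    unfold Sg
    have h3 : (∀ q ∈ Ps w.W p1, t % q ∉ Rb N H q) ↔ (∀ q ∈ Ps w.W p1, t' % q ∉ Rb N H q) := by
      refine forall₂_congr fun q hq => ?_
      unfold Ps at hq
      rw [Finset.mem_filter, Finset.mem_Icc] at hq
      have h4 : t % q = t' % q := ht q hq.1.1 (hq.1.2.trans hW)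
      rw [h4]
    rw [if_congr h3 rfl rfl]
  unfold Fs FF
  rw [h1, h2]

theorem s3b_xv (N : ℕ) (x : ℕ × ℕ) (hx : x.1 * x.2 ≤ N) (q : ℕ) (h1 : 1 ≤ q) (h2 : q ≤ N) :
    xv N x ≡ N - x.1 * x.2 [MOD q] := by
  have h3 : q ∣ N.factorial := Nat.dvd_factorial h1 h2
  have h4 : 1 ≤ N.factorial := N.factorial_pos
  have h5 : xv N x + x.1 * x.2 = N + N.factorial * (x.1 * x.2) := by
    unfold xv
    obtain ⟨m, hm⟩ : ∃ m, N.factorial = m + 1 := ⟨N.factorial - 1, by omega⟩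
    rw [hm]
    have : m + 1 - 1 = m := by omega
    rw [this]
    ring
  have h6 : xv N x + x.1 * x.2 ≡ (N - x.1 * x.2) + x.1 * x.2 [MOD q] := by
    rw [h5, Nat.sub_add_cancel hx]
    have h7 : N.factorial * (x.1 * x.2) ≡ 0 [MOD q] :=
      (Nat.modEq_zero_iff_dvd).2 (h3.mul_right _)
    simpa using h7.add_left N
  exact Nat.ModEq.add_right_cancel' _ h6

theorem s3b_Pg {N W : ℕ} {H : Finset ℕ} (hW : 2 ≤ W) : ∀ q ∈ Pg N W H, q.Prime ∧ 3 ≤ q := by
  intro q hq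
  unfold Pg at hq
  rw [Finset.mem_filter, Finset.mem_Ioc] at hq
  exact ⟨hq.2.1, by omega⟩

open Classical in
/-- Proof. As `box_sieve` (`H59C/CBS.lean`). `jr (ε/8)`, `z' = N^(1/6)`, `D = Lv N θ/Q0`: `log D ≤ 3 log z'`, `z' ≤ D`, and `log z'/log D → (1/6)/(1/2 - 4θ)`, so
for small `θ` the bound is `XB.. VV(z') (AA/3 + ε/4)`. If `p = N + h - x.1 x.2` is a prime `≥ N^(1/6)` then no `q ∈ Pg`, `q < z'`, divides `xv N x + h`
(`xv N x + h ≡ N + h - x.1 x.2` modulo `q`, since `q ≤ N` divides `N!`). So the left side is at most `sift` of `BX` with the weights `wB α x Fs(xv N x)`.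
`remC`: remainder `≤ N/L^10`. `ratio_VV'` with `Z = Bd N W H` (`bd_card`), `z = zz N`: `VV(z') ≤ (1 + η) (3/4) VV(z)`. Here `Fs` at `N - x.1 x.2`
equals `Fs` at `xv N x`: both arguments are congruent modulo all primes `≤ N` (`cfg` and `Sg` only depend on the residues modulo the primes of
`w.P` and the primes `≤ W`); `x.1 x.2 ≤ N` as `N^(1/6) > h`. -/
theorem box_sieve' (ε : ℝ) (hε : 0 < ε) : ∃ θ0 : ℝ, 0 < θ0 ∧ ∀ θ : ℝ, 0 < θ → θ ≤ θ0 →
    ∀ (K B cF : ℕ) (G : ℝ), 1 ≤ K → 3 ≤ B → ∃ n0 : ℕ, ∀ N : ℕ, n0 ≤ N →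
    ∀ (w : Par K) (H : Finset ℕ) (p1 : ℕ), Reg B cF θ G w H N p1 → ∀ h ∈ H,
    ∀ (M u v : ℕ) (α : ℕ → ℝ), (∀ m, 0 ≤ α m ∧ α m ≤ 1) →
    (∀ m, α m ≠ 0 → ∀ r : ℕ, r.Prime → r ∣ m → (N : ℝ) ^ (1 / 10 : ℝ) ≤ r) →
    (N : ℝ) ^ (1 / 4 : ℝ) ≤ M → (N : ℝ) ^ (1 / 4 : ℝ) ≤ u → u ≤ v → M * v ≤ 8 * N →
    ∑ x ∈ (BX M u v).filter (fun x => x.1 * x.2 < N + h ∧ (N + h - x.1 * x.2).Prime ∧
        (N : ℝ) ^ (1 / 6 : ℝ) ≤ (N + h - x.1 * x.2 : ℕ)),
      wB α x * Fs w H N p1 (some h) (N + h - x.1 * x.2 - h) ≤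
      H59C.XB M u v α * (AE w.P H (some h) (FC w H) * Vb N w.W p1 H) * Vz N w.W H *
        (AA / 4 + ε) + N / Real.log N ^ 10 := by
  have hAA := Pool.Agent.Lib.H59C.AA_pos
  obtain ⟨Q0, hQ0, z0, hz0, hjr⟩ := Pool.Agent.Lib.H59C.jr (ε / 8) (by linarith)
  obtain ⟨ρ, hρ⟩ : ∃ ρ : ℝ, ρ = min (1 / 8) (ε / (8 * AA)) := ⟨_, rfl⟩
  have hρ0 : 0 < ρ := by rw [hρ]; exact lt_min (by norm_num) (by positivity)
  have hρ1 : ρ ≤ 1 / 8 := by rw [hρ]; exact min_le_left _ _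
  have hρ2 : AA * ρ ≤ ε / 8 := by
    have h : ρ ≤ ε / (8 * AA) := by rw [hρ]; exact min_le_right _ _
    calc AA * ρ ≤ AA * (ε / (8 * AA)) := mul_le_mul_of_nonneg_left h hAA.le
      _ = ε / 8 := by field_simp
  refine ⟨ρ / 64, by linarith, fun θ hθ0 hθρ K B cF G hK hB => ?_⟩
  obtain ⟨n2, hn2⟩ := ratio_VV' ρ hρ0
  obtain ⟨n3, hn3⟩ := s3b_lv Q0 hQ0 θ (ρ / 8) hθ0 (by linarith) (by linarith)
  obtain ⟨n4, hn4⟩ := Pool.Agent.Lib.H59C.cdl_zz z0
  obtain ⟨n5, hn5⟩ := s3b_W B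
  obtain ⟨n6, hn6⟩ := bd_card K
  refine ⟨n2 + n3 + n4 + n5 + n6 + 3, fun N hN w H p1 hR h hh M u v α hα hαr hM hu huv hMv => ?_⟩
  have hN3 : (3 : ℝ) ≤ N := by exact_mod_cast (by omega : 3 ≤ N)
  have hL : 0 < Real.log N := Real.log_pos (by linarith)
  obtain ⟨hDl, hDu, hDp⟩ := hn3 N (by omega)
  have hzn := hn4 N (by omega)
  have hWz : (w.W : ℝ) < zz N := by
    rw [hR.Wdef]
    exact hn5 N (by omega)
  have hlz := Pool.Agent.Lib.H59C.log_zz N (by omega)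
  have hzpos : 0 < zz N := by linarith
  have hlz0 : 0 < Real.log (zz N) := by rw [hlz]; linarith
  obtain ⟨z', hz'⟩ : ∃ z' : ℝ, z' = (N : ℝ) ^ (1 / 6 : ℝ) := ⟨_, rfl⟩
  have hlz' : Real.log z' = 1 / 6 * Real.log N := by
    rw [hz', Real.log_rpow (by linarith)]
  have hz'pos : 0 < z' := by rw [hz']; positivity
  have hzz' : zz N ≤ z' := by
    rw [← Real.log_le_log_iff hzpos hz'pos, hlz, hlz']
    linarith
  have hz'n : z' ≤ N := by
    rw [← Real.log_le_log_iff hz'pos (by linarith), hlz']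
    linarith
  have hW2 : 2 ≤ w.W := by
    have := w.KW
    have h1 := w.Kpos
    nlinarith
  have hWN : w.W ≤ N := by
    have h1 : (w.W : ℝ) ≤ N := by linarith
    exact_mod_cast h1
  have hPg := s3b_Pg (N := N) (H := H) hW2
  have hPN : ∀ p ∈ w.P, p ≤ N := by
    intro p hp
    have h1 : (p : ℝ) ≤ N := by
      refine (hR.PN p hp).trans ?_
      calc (N : ℝ) ^ (1 / 100 : ℝ) ≤ (N : ℝ) ^ (1 : ℝ) :=
            Real.rpow_le_rpow_of_exponent_le (by linarith) (by norm_num)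
        _ = N := Real.rpow_one _
    exact_mod_cast h1
  have hhW : h ≤ w.W := hR.HW h hh
  have hwB : ∀ x, 0 ≤ wB α x := fun x =>
    mul_nonneg (hα _).1 (Pool.Agent.Lib.H59C.lg_nonneg _)
  have hF0 : ∀ x, 0 ≤ wB α x * Fs w H N p1 (some h) (xv N x) := fun x =>
    mul_nonneg (hwB x) (s3b_Fs0 _ _ _ _ _ _)
  have hXB : 0 ≤ H59C.XB M u v α := by
    unfold H59C.XB
    exact mul_nonneg (sum_nonneg fun m _ => (hα m).1) (Pool.Agent.Lib.H59C.XX_nonneg _ _)
  have hAE : 0 ≤ AE w.P H (some h) (FC w H) := by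
    refine le_trans ?_ (hR.aes h hh)
    positivity
  have hVa : 0 ≤ Va N w.W p1 H := by
    unfold Va
    refine prod_nonneg fun q hq => ?_
    have hq' : q.Prime := by
      unfold Ps at hq
      exact (mem_filter.1 hq).2.1
    have h1 := hR.nf q hq'
    have h2 : ((Rb N H q).card : ℝ) ≤ q := by exact_mod_cast h1.le
    have h3 : (0 : ℝ) < q := by exact_mod_cast hq'.pos
    rw [sub_nonneg, div_le_one h3]
    exact h2
  have hVb : 0 ≤ Vb N w.W p1 H := by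
    unfold Vb
    refine mul_nonneg hVa (prod_nonneg fun q hq => ?_)
    have hq' : q.Prime := by
      unfold Ps at hq
      exact (mem_filter.1 hq).2.1
    have h3 : (2 : ℝ) ≤ q := by exact_mod_cast hq'.two_le
    exact div_nonneg (by linarith) (by linarith)
  obtain ⟨X, hX⟩ : ∃ X : ℝ, X = H59C.XB M u v α * (AE w.P H (some h) (FC w H) * Vb N w.W p1 H) :=
    ⟨_, rfl⟩
  have hX0 : 0 ≤ X := by
    rw [hX]
    exact mul_nonneg hXB (mul_nonneg hAE hVb)
  have hV : ∀ z : ℝ, 0 ≤ VV (Pg N w.W H) z := by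
    intro z
    unfold VV H59C.VP
    apply prod_nonneg
    intro q hq
    have h3 := (hPg q (mem_filter.mp hq).1).2
    have h3' : (3 : ℝ) ≤ q := by exact_mod_cast h3
    unfold H59C.gq
    rw [sub_nonneg, div_le_one (by linarith)]
    linarith
  -- the level
  obtain ⟨D, hD⟩ : ∃ D : ℝ, D = (Lv N θ : ℝ) / Q0 := ⟨_, rfl⟩
  rw [← hD] at hDl hDu hDp
  have hQ0' : (1 : ℝ) ≤ Q0 := by exact_mod_cast hQ0
  have hDQ : D * (Q0 : ℝ) = (Lv N θ : ℝ) := by
    rw [hD]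
    field_simp
  have h3z : Real.log D ≤ 3 * Real.log z' := by
    rw [hlz']
    linarith
  have hz'D : z' ≤ D := by
    rw [← Real.log_le_log_iff hz'pos hDp, hlz']
    have : (1 / 6 : ℝ) * Real.log N ≤ (1 / 2 - ρ / 8) * Real.log N :=
      mul_le_mul_of_nonneg_right (by linarith) hL.le
    linarith
  obtain ⟨hup, -⟩ := hjr (Pg N w.W H) hPg z' D (by linarith) hz'D
    (BX M u v) (fun x => wB α x * Fs w H N p1 (some h) (xv N x)) (fun x => xv N x + h) X hX0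
    (fun x _ => hF0 x)
  have hup := hup h3z
  rw [hDQ] at hup
  have hr := hR.remC h hh M u v α hα hαr hM hu huv hMv z'
  rw [← hX] at hr
  -- the left side is at most the sifted sum
  have hleft : ∑ x ∈ (BX M u v).filter (fun x => x.1 * x.2 < N + h ∧ (N + h - x.1 * x.2).Prime ∧
        (N : ℝ) ^ (1 / 6 : ℝ) ≤ (N + h - x.1 * x.2 : ℕ)),
      wB α x * Fs w H N p1 (some h) (N + h - x.1 * x.2 - h) ≤
      H59C.sift (BX M u v) (fun x => wB α x * Fs w H N p1 (some h) (xv N x))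
        (fun x => xv N x + h) (Pg N w.W H) z' := by
    have hle : ∀ x : ℕ × ℕ, x.1 * x.2 < N + h → (N : ℝ) ^ (1 / 6 : ℝ) ≤ (N + h - x.1 * x.2 : ℕ) →
        x.1 * x.2 ≤ N := by
      intro x _ h2
      rw [← hz'] at h2
      have h3 : (w.W : ℝ) < ((N + h - x.1 * x.2 : ℕ) : ℝ) := by linarith
      have h4 : w.W < N + h - x.1 * x.2 := by exact_mod_cast h3
      omega
    have heq : ∑ x ∈ (BX M u v).filter (fun x => x.1 * x.2 < N + h ∧ (N + h - x.1 * x.2).Prime ∧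
        (N : ℝ) ^ (1 / 6 : ℝ) ≤ (N + h - x.1 * x.2 : ℕ)),
        wB α x * Fs w H N p1 (some h) (N + h - x.1 * x.2 - h) =
        ∑ x ∈ (BX M u v).filter (fun x => x.1 * x.2 < N + h ∧ (N + h - x.1 * x.2).Prime ∧
        (N : ℝ) ^ (1 / 6 : ℝ) ≤ (N + h - x.1 * x.2 : ℕ)),
        wB α x * Fs w H N p1 (some h) (xv N x) := by
      refine sum_congr rfl fun x hx => ?_
      rw [mem_filter] at hx
      have h1 := hle x hx.2.1 hx.2.2.2
      have h2 : N + h - x.1 * x.2 - h = N - x.1 * x.2 := by omega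
      rw [h2, s3b_Fs w H N p1 (some h) (N - x.1 * x.2) (xv N x) hPN hWN
        fun q hq1 hq2 => (s3b_xv N x h1 q hq1 hq2).symm]
    rw [heq]
    unfold H59C.sift
    apply sum_le_sum_of_subset_of_nonneg
    · intro x hx
      rw [mem_filter] at hx ⊢
      refine ⟨hx.1, ?_⟩
      intro q hq hqz hdvd
      have h1 := hle x hx.2.1 hx.2.2.2
      have hqN : q ≤ N := by
        unfold Pg at hq
        exact (mem_Ioc.1 (mem_filter.1 hq).1).2
      have h2 := (s3b_xv N x h1 q (hPg q hq).1.one_lt.le hqN).add_right h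
      have h3 : q ∣ N - x.1 * x.2 + h := (h2.dvd_iff dvd_rfl).1 hdvd
      have h4 : N - x.1 * x.2 + h = N + h - x.1 * x.2 := by omega
      rw [h4] at h3
      have h5 := (Nat.prime_dvd_prime_iff_eq (hPg q hq).1 hx.2.2.1).mp h3
      have h6 := hx.2.2.2
      rw [← hz', ← h5] at h6
      linarith
    · intro x _ _
      exact hF0 x
  have hbd := hn6 N (by omega) w.W H hR.cardH (fun h' hh' => (hR.HW h' hh').trans hWN)
  have hratio := hn2 N (by omega) (Pg N w.W H) (Bd N w.W H) (zz N) z' hbd (by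
      unfold zz
      apply Real.rpow_le_rpow_of_exponent_le (by linarith) (by norm_num)) hzz' hz'n
    hPg (by
      intro q hq hzq hqz'
      have h1 : w.W < q := by
        have h2 : (w.W : ℝ) < q := by linarith
        exact_mod_cast h2
      have h2 : q ≤ N := by
        have h3 : (q : ℝ) ≤ N := by linarith
        exact_mod_cast h3
      by_cases hqN : ∃ h' ∈ H, q ∣ N + h'
      · right
        unfold Bd
        rw [mem_filter, mem_Ioc]
        exact ⟨⟨h1, h2⟩, hq, hqN⟩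
      · left
        push Not at hqN
        unfold Pg
        rw [mem_filter, mem_Ioc]
        exact ⟨⟨h1, h2⟩, hq, hqN⟩)
  -- final computation
  have hlD0 : 0 < Real.log D := by
    have : 0 < (1 / 2 - ρ / 8) * Real.log N := mul_pos (by linarith) hL
    linarith
  have hq34 : Real.log (zz N) / Real.log z' = 3 / 4 := by
    rw [hlz, hlz']
    field_simp
    norm_num
  rw [hq34] at hratio
  have hs : Real.log z' / Real.log D ≤ 1 / 3 * (1 + ρ) := by
    rw [div_le_iff₀ hlD0, hlz']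
    have h1 : (1 / 2 - ρ / 8) * Real.log N * (1 / 3 * (1 + ρ)) ≤ Real.log D * (1 / 3 * (1 + ρ)) :=
      mul_le_mul_of_nonneg_right hDl (by positivity)
    have h2 : 1 / 6 * Real.log N ≤ (1 / 2 - ρ / 8) * Real.log N * (1 / 3 * (1 + ρ)) := by
      have h3 : 1 / 6 ≤ (1 / 2 - ρ / 8) * (1 / 3 * (1 + ρ)) := by nlinarith
      calc 1 / 6 * Real.log N ≤ ((1 / 2 - ρ / 8) * (1 / 3 * (1 + ρ))) * Real.log N :=
            mul_le_mul_of_nonneg_right h3 hL.le
        _ = (1 / 2 - ρ / 8) * Real.log N * (1 / 3 * (1 + ρ)) := by ring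
    linarith
  have hfac : AA / (Real.log D / Real.log z') + ε / 8 ≤ AA / 3 * (1 + ρ) + ε / 8 := by
    have h1 : AA / (Real.log D / Real.log z') = AA * (Real.log z' / Real.log D) := by
      rw [div_div_eq_mul_div, mul_div_assoc]
    rw [h1]
    have := mul_le_mul_of_nonneg_left hs hAA.le
    linarith
  have hvz : Vz N w.W H = VV (Pg N w.W H) (zz N) := rfl
  rw [hvz, ← hX]
  calc ∑ x ∈ (BX M u v).filter (fun x => x.1 * x.2 < N + h ∧ (N + h - x.1 * x.2).Prime ∧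
        (N : ℝ) ^ (1 / 6 : ℝ) ≤ (N + h - x.1 * x.2 : ℕ)),
      wB α x * Fs w H N p1 (some h) (N + h - x.1 * x.2 - h)
      ≤ X * VV (Pg N w.W H) z' * (AA / (Real.log D / Real.log z') + ε / 8) +
        H59C.remd (BX M u v) (fun x => wB α x * Fs w H N p1 (some h) (xv N x))
          (fun x => xv N x + h) (Pg N w.W H) z' X (Lv N θ) := hleft.trans hup
    _ ≤ X * VV (Pg N w.W H) z' * (AA / 3 * (1 + ρ) + ε / 8) + N / Real.log N ^ 10 := by
        apply add_le_add _ hr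
        exact mul_le_mul_of_nonneg_left hfac (mul_nonneg hX0 (hV _))
    _ ≤ X * ((1 + ρ) * (3 / 4) * VV (Pg N w.W H) (zz N)) * (AA / 3 * (1 + ρ) + ε / 8) +
        N / Real.log N ^ 10 := by
        have h1 : X * VV (Pg N w.W H) z' ≤
            X * ((1 + ρ) * (3 / 4) * VV (Pg N w.W H) (zz N)) :=
          mul_le_mul_of_nonneg_left hratio hX0
        have h2 := mul_le_mul_of_nonneg_right h1
          (by positivity : 0 ≤ AA / 3 * (1 + ρ) + ε / 8)
        linarith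
    _ = X * VV (Pg N w.W H) (zz N) * ((1 + ρ) * (3 / 4) * (AA / 3 * (1 + ρ) + ε / 8)) +
        N / Real.log N ^ 10 := by ring
    _ ≤ X * VV (Pg N w.W H) (zz N) * (AA / 4 + ε) + N / Real.log N ^ 10 := by
        have h1 : (1 + ρ) * (3 / 4) * (AA / 3 * (1 + ρ) + ε / 8) ≤ AA / 4 + ε := by
          have e1 : (1 + ρ) * (3 / 4) * (AA / 3 * (1 + ρ) + ε / 8) =
              AA / 4 + AA * ρ * (1 / 2 + ρ / 4) + (1 + ρ) * (3 / 4) * (ε / 8) := by ring
          rw [e1]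
          have e2 : AA * ρ * (1 / 2 + ρ / 4) ≤ ε / 8 * 1 := by
            apply mul_le_mul hρ2 (by linarith) (by positivity) (by linarith)
          have e3 : (1 + ρ) * (3 / 4) * (ε / 8) ≤ 1 * (ε / 8) := by
            apply mul_le_mul_of_nonneg_right _ (by linarith)
            linarith
          linarith
        have h2 := mul_le_mul_of_nonneg_left h1 (mul_nonneg hX0 (hV (zz N)))
        linarith

end Pool.Agent.Lib.H57C
end
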