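import Pool.Agent.Lib.H1M.RV3.M003
import Pool.Agent.Lib.H1M.RV3.M035
import Pool.Agent.Lib.H1M.RV3.M047
import Pool.Agent.Lib.H1M.RV3.M048
import Pool.Agent.Lib.H1M.RV3.M056

/-! Merged copies (to shorten the build) of Lib.H57C.VF, Lib.H57C.V1, Lib.H57C.V2, Lib.H57C.V3, Lib.H57C.V4. -/

-- from Lib.H57C.VF
section

/-!
# VF: the theorems of Bombieri and Vinogradov of project H59C, the residue class may depend on the modulus

The proofs of `bv` and `bv_bil` (`H59C/BV2.lean`, `H59C/BV3.lean`, helper59 and provers) with `a d` instead of `a`.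
-/

open Finset

namespace Pool.Agent.Lib.H57C

open Pool.Agent.Lib.H59C
open Pool.Agent.Lib.H68T (PC p0 e)

open Classical in
theorem bvf (A : ℕ) : ∃ A' B n0 : ℕ, ∀ n : ℕ, n0 ≤ n → ∀ p1 : ℕ, SWp A' n p1 →
    ∀ (a : ℕ → ℕ) (y : ℕ), y ≤ 8 * n →
    ∑ d ∈ (Icc 1 (DD n B)).filter (fun d => (a d).Coprime d ∧ ¬ p1 ∣ d),
      |thp y d (a d) - th y / (Nat.totient d : ℝ)| ≤ n / Real.log n ^ A := by
  obtain ⟨C₁, hC₁, h1⟩ := Pool.Agent.Lib.H59C.sum_inv_totient
  obtain ⟨C₂, hC₂, h2⟩ := prog_le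
  obtain ⟨C₃, hC₃, h3⟩ := psi_sum
  obtain ⟨K, hK⟩ : ∃ K : ℝ, K = 10240 * (C₁ * C₃ + C₁ + C₂ + 1) := ⟨_, rfl⟩
  have hK1 : 10240 ≤ K := by
    have : 0 < C₁ * C₃ := by positivity
    rw [hK]
    nlinarith
  obtain ⟨n0, hn0⟩ := bv2_large K (A + 12)
  refine ⟨2 * A + 20, A + 12, max n0 8, fun n hn p1 hSW a y hy => ?_⟩
  obtain ⟨hL, hLs⟩ := hn0 n ((le_max_left _ _).trans hn)
  have hn8 : 8 ≤ n := (le_max_right _ _).trans hn
  have hnR : (8 : ℝ) ≤ n := by exact_mod_cast hn8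
  have hn0' : (0 : ℝ) < n := by linarith
  obtain ⟨L, hLdef⟩ : ∃ L : ℝ, L = Real.log n := ⟨_, rfl⟩
  obtain ⟨s, hsdef⟩ : ∃ s : ℝ, s = (n : ℝ) ^ (1 / 20 : ℝ) := ⟨_, rfl⟩
  rw [← hLdef] at hL hLs ⊢
  rw [← hsdef] at hLs
  have hL1 : 1 ≤ L := by linarith
  have hL0 : 0 < L := by linarith
  have hs20 : s ^ 20 = n := by
    rw [hsdef, ← Real.rpow_natCast, ← Real.rpow_mul hn0'.le]
    norm_num
  have hLpow : ∀ j : ℕ, j ≤ A + 12 → L ^ j ≤ s := by
    intro j hj
    calc L ^ j ≤ L ^ (A + 12) := pow_le_pow_right₀ hL1 hj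
      _ = 1 * L ^ (A + 12) := (one_mul _).symm
      _ ≤ K * L ^ (A + 12) := mul_le_mul_of_nonneg_right (by linarith) (by positivity)
      _ ≤ s := hLs
  have hs1 : 1 ≤ s := by
    have := hLpow 0 (by omega)
    simpa using this
  have hs0 : 0 < s := by linarith
  have hsqrt : Real.sqrt n = s ^ 10 := by
    rw [← hs20, show (20 : ℕ) = 10 * 2 by norm_num, pow_mul]
    exact Real.sqrt_sq (by positivity)
  obtain ⟨hnum1, hnum2⟩ := bv2_num A hC₁ hC₂ hC₃ hK hL hLs
  rw [hs20] at hnum1 hnum2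
  -- the level
  obtain ⟨D, hD⟩ : ∃ D : ℕ, D = DD n (A + 12) := ⟨_, rfl⟩
  rw [← hD]
  have hDle : (D : ℝ) ≤ s ^ 10 / L ^ (A + 12) := by
    rw [hD, DD, ← hLdef, hsqrt]
    exact Nat.floor_le (by positivity)
  have hDs : (D : ℝ) ≤ s ^ 10 := by
    refine hDle.trans ?_
    rw [div_le_iff₀ (by positivity)]
    have : 1 ≤ L ^ (A + 12) := one_le_pow₀ hL1
    have h5 : 0 < s ^ 10 := by positivity
    nlinarith
  have hD2 : 2 ≤ D := by
    rw [hD, DD, ← hLdef, hsqrt]
    apply Nat.le_floor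
    push_cast
    rw [le_div_iff₀ (by positivity)]
    have e1 : 2 * L ^ (A + 12) ≤ K * L ^ (A + 12) :=
      mul_le_mul_of_nonneg_right (by linarith) (by positivity)
    calc 2 * L ^ (A + 12) ≤ s := e1.trans hLs
      _ = s ^ 1 := (pow_one s).symm
      _ ≤ s ^ 10 := pow_le_pow_right₀ hs1 (by norm_num)
  have hDR : (2 : ℝ) ≤ D := by exact_mod_cast hD2
  have hlogD : Real.log D ≤ L := by
    rw [hLdef]
    apply Real.log_le_log (by linarith)
    refine hDs.trans ?_
    rw [← hs20]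
    exact pow_le_pow_right₀ hs1 (by norm_num)
  have hlogD0 : 0 ≤ Real.log D := Real.log_nonneg (by linarith)
  have hphi : ∑ k ∈ Icc 1 D, 1 / (Nat.totient k : ℝ) ≤ C₁ * L :=
    (h1 D hD2).trans (mul_le_mul_of_nonneg_left hlogD hC₁.le)
  have hsub : ∑ d ∈ (Icc 1 D).filter (fun d => (a d).Coprime d ∧ ¬ p1 ∣ d), 1 / (Nat.totient d : ℝ) ≤
      C₁ * L := by
    refine le_trans ?_ hphi
    exact sum_le_sum_of_subset_of_nonneg (filter_subset _ _) fun _ _ _ => by positivity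
  have hcard : (((Icc 1 D).filter (fun d => (a d).Coprime d ∧ ¬ p1 ∣ d)).card : ℝ) ≤ D := by
    have : ((Icc 1 D).filter (fun d => (a d).Coprime d ∧ ¬ p1 ∣ d)).card ≤ D := by
      refine (card_filter_le _ _).trans ?_
      rw [Nat.card_Icc]
      omega
    exact_mod_cast this
  have hyR : (y : ℝ) ≤ 8 * n := by exact_mod_cast hy
  by_cases hcase : (y : ℝ) ≤ n / L ^ (A + 4)
  · -- small y
    have hyn : (y : ℝ) ≤ n := by
      refine hcase.trans ?_
      rw [div_le_iff₀ (by positivity)]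
      have : 1 ≤ L ^ (A + 4) := one_le_pow₀ hL1
      nlinarith
    have hlogy : Real.log y ≤ L := by
      rcases Nat.eq_zero_or_pos y with h0 | h0
      · rw [h0]
        simp [hL0.le]
      · rw [hLdef]
        exact Real.log_le_log (by exact_mod_cast h0) hyn
    have hly0 : 0 ≤ Real.log y := Real.log_natCast_nonneg y
    have e1 : ∑ d ∈ (Icc 1 D).filter (fun d => (a d).Coprime d ∧ ¬ p1 ∣ d),
        |thp y d (a d) - th y / (Nat.totient d : ℝ)| ≤
        ∑ d ∈ (Icc 1 D).filter (fun d => (a d).Coprime d ∧ ¬ p1 ∣ d),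
          (2 * (y * Real.log y) * (1 / (Nat.totient d : ℝ)) + Real.log y) := by
      apply sum_le_sum
      intro d hd
      exact bv2_triv y d (a d) (mem_Icc.1 (mem_filter.1 hd).1).1
    refine e1.trans ?_
    rw [sum_add_distrib, ← mul_sum, sum_const, nsmul_eq_mul]
    have e2 : 2 * (y * Real.log y) * ∑ d ∈ (Icc 1 D).filter (fun d => (a d).Coprime d ∧ ¬ p1 ∣ d),
        1 / (Nat.totient d : ℝ) ≤ 2 * C₁ * (n / L ^ (A + 4)) * L ^ 2 := by
      calc 2 * (y * Real.log y) * ∑ d ∈ (Icc 1 D).filter (fun d => (a d).Coprime d ∧ ¬ p1 ∣ d),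
          1 / (Nat.totient d : ℝ) ≤ 2 * (y * Real.log y) * (C₁ * L) :=
            mul_le_mul_of_nonneg_left hsub (by positivity)
        _ ≤ 2 * ((n / L ^ (A + 4)) * L) * (C₁ * L) := by
            apply mul_le_mul_of_nonneg_right _ (by positivity)
            apply mul_le_mul_of_nonneg_left _ (by norm_num)
            exact mul_le_mul hcase hlogy hly0 (by positivity)
        _ = _ := by ring
    have e3 : (((Icc 1 D).filter (fun d => (a d).Coprime d ∧ ¬ p1 ∣ d)).card : ℝ) * Real.log y ≤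
        s ^ 10 * L := mul_le_mul (hcard.trans hDs) hlogy hly0 (by positivity)
    linarith
  · -- large y
    push Not at hcase
    have hy19 : s ^ 19 < y := by
      refine lt_of_le_of_lt ?_ hcase
      rw [le_div_iff₀ (by positivity), ← hs20]
      calc s ^ 19 * L ^ (A + 4) ≤ s ^ 19 * s :=
            mul_le_mul_of_nonneg_left (hLpow _ (by omega)) (by positivity)
        _ = s ^ 20 := by ring
    have hs2 : 2 ≤ s := by
      have : K * 1 ≤ K * L ^ (A + 12) :=
        mul_le_mul_of_nonneg_left (one_le_pow₀ hL1) (by linarith)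
      linarith
    have hy2 : 2 ≤ y := by
      have : (2 : ℝ) ≤ y := by
        have e1 : s ^ 1 ≤ s ^ 19 := pow_le_pow_right₀ hs1 (by norm_num)
        rw [pow_one] at e1
        linarith
      exact_mod_cast this
    have hyR0 : (0 : ℝ) < y := lt_trans (by positivity) hy19
    have hDy : D ≤ y := by
      have : (D : ℝ) ≤ y := by
        have e1 : s ^ 10 ≤ s ^ 19 := pow_le_pow_right₀ hs1 (by norm_num)
        linarith
      exact_mod_cast this
    have hDD : D ^ 2 ≤ y := by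
      have e1 : (D : ℝ) ^ 2 ≤ n / L ^ (A + 4) := by
        calc (D : ℝ) ^ 2 ≤ (s ^ 10 / L ^ (A + 12)) ^ 2 :=
              pow_le_pow_left₀ (by positivity) hDle 2
          _ = s ^ 20 / (L ^ (A + 12)) ^ 2 := by rw [div_pow, ← pow_mul]
          _ ≤ s ^ 20 / L ^ (A + 4) := by
              apply div_le_div_of_nonneg_left (by positivity) (by positivity)
              rw [← pow_mul]
              exact pow_le_pow_right₀ hL1 (by omega)
          _ = n / L ^ (A + 4) := by rw [hs20]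
      have e2 : (D : ℝ) ^ 2 ≤ y := e1.trans hcase.le
      exact_mod_cast e2
    have hlogy : Real.log y ≤ 2 * L := by
      have e1 : Real.log y ≤ Real.log (8 * n) := Real.log_le_log hyR0 hyR
      rw [Real.log_mul (by norm_num) hn0'.ne', ← hLdef] at e1
      have e2 : Real.log 8 ≤ 8 := (Real.log_le_sub_one_of_pos (by norm_num)).trans (by norm_num)
      linarith
    have hly0 : 0 ≤ Real.log y := Real.log_natCast_nonneg y
    -- the sum over the primitive characters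
    obtain ⟨S, hS⟩ : ∃ S : ℝ, S = ∑ p ∈ (PC D).filter (fun p => p ≠ p0 ∧ ¬ p1 ∣ p.1),
      1 / (Nat.totient p.1 : ℝ) * ‖psi y p‖ := ⟨_, rfl⟩
    have hS0 : 0 ≤ S := by
      rw [hS]
      exact sum_nonneg fun _ _ => by positivity
    have hsqy : Real.sqrt y ≤ 3 * s ^ 10 := by
      rw [Real.sqrt_le_left (by positivity)]
      refine hyR.trans ?_
      rw [← hs20]
      have e1 : (3 * s ^ 10) ^ 2 = 9 * s ^ 20 := by ring
      rw [e1]
      have : 0 < s ^ 20 := by positivity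
      linarith
    have hmain : ∑ d ∈ (Icc 1 D).filter (fun d => (a d).Coprime d ∧ ¬ p1 ∣ d),
        |thp y d (a d) - th y / (Nat.totient d : ℝ)| ≤
        C₁ * L * S + D * (C₂ * Real.sqrt y * Real.log y ^ 2) := by
      have e1 : ∑ d ∈ (Icc 1 D).filter (fun d => (a d).Coprime d ∧ ¬ p1 ∣ d),
          |thp y d (a d) - th y / (Nat.totient d : ℝ)| ≤
          ∑ d ∈ (Icc 1 D).filter (fun d => (a d).Coprime d ∧ ¬ p1 ∣ d),
          (1 / (Nat.totient d : ℝ) * ∑ p ∈ (PC d).filter (fun p => p ≠ p0 ∧ p.1 ∣ d),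
            ‖psi y p‖ + C₂ * Real.sqrt y * Real.log y ^ 2) := by
        apply sum_le_sum
        intro d hd
        rw [mem_filter, mem_Icc] at hd
        exact h2 d (a d) y hd.1.1 (hd.1.2.trans hDy) hd.2.1 hy2
      refine e1.trans ?_
      rw [sum_add_distrib, sum_const, nsmul_eq_mul]
      have e2 : ∑ d ∈ (Icc 1 D).filter (fun d => (a d).Coprime d ∧ ¬ p1 ∣ d),
          1 / (Nat.totient d : ℝ) * ∑ p ∈ (PC d).filter (fun p => p ≠ p0 ∧ p.1 ∣ d),
            ‖psi y p‖ ≤ C₁ * L * S := by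
        have e3 := exchange D p1 (fun _ p => ‖psi y p‖) (fun _ _ => norm_nonneg _)
        have e4 : ∑ d ∈ (Icc 1 D).filter (fun d => (a d).Coprime d ∧ ¬ p1 ∣ d),
            1 / (Nat.totient d : ℝ) * ∑ p ∈ (PC d).filter (fun p => p ≠ p0 ∧ p.1 ∣ d),
              ‖psi y p‖ ≤ ∑ d ∈ (Icc 1 D).filter (fun d => ¬ p1 ∣ d),
            1 / (Nat.totient d : ℝ) * ∑ p ∈ (PC d).filter (fun p => p ≠ p0 ∧ p.1 ∣ d),
              ‖psi y p‖ := by
          apply sum_le_sum_of_subset_of_nonneg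
          · exact monotone_filter_right _ fun d _ hd => hd.2
          · intro d _ _
            exact mul_nonneg (by positivity) (sum_nonneg fun _ _ => norm_nonneg _)
        refine e4.trans (e3.trans ?_)
        rw [← sum_mul, ← hS]
        exact mul_le_mul_of_nonneg_right hphi hS0
      have e5 : (((Icc 1 D).filter (fun d => (a d).Coprime d ∧ ¬ p1 ∣ d)).card : ℝ) *
          (C₂ * Real.sqrt y * Real.log y ^ 2) ≤ D * (C₂ * Real.sqrt y * Real.log y ^ 2) :=
        mul_le_mul_of_nonneg_right hcard (by positivity)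
      linarith
    -- splitting of S
    obtain ⟨R0, hR0⟩ : ∃ R0 : ℕ, R0 = ⌊L ^ (A + 10)⌋₊ := ⟨_, rfl⟩
    have hLp1 : 1 ≤ L ^ (A + 10) := one_le_pow₀ hL1
    have hR0le : (R0 : ℝ) ≤ L ^ (A + 10) := by
      rw [hR0]
      exact Nat.floor_le (by positivity)
    have hR01 : 1 ≤ R0 := by
      rw [hR0]
      exact Nat.le_floor (by simpa using hLp1)
    have hR0ge : L ^ (A + 10) / 2 ≤ R0 := by
      have e1 : L ^ (A + 10) < R0 + 1 := by
        rw [hR0]
        exact Nat.lt_floor_add_one _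
      have e2 : (1 : ℝ) ≤ R0 := by exact_mod_cast hR01
      linarith
    have hsmall : ∑ p ∈ ((PC D).filter (fun p => p ≠ p0 ∧ ¬ p1 ∣ p.1)).filter
        (fun p => ¬ R0 < p.1), 1 / (Nat.totient p.1 : ℝ) * ‖psi y p‖ ≤
        8 * n / L ^ (A + 10) := by
      have e1 : ∀ p ∈ ((PC D).filter (fun p => p ≠ p0 ∧ ¬ p1 ∣ p.1)).filter
          (fun p => ¬ R0 < p.1), 1 / (Nat.totient p.1 : ℝ) * ‖psi y p‖ ≤
          1 / (Nat.totient p.1 : ℝ) * (y / L ^ (2 * A + 20)) := by
        intro p hp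
        rw [mem_filter, mem_filter, not_lt] at hp
        apply mul_le_mul_of_nonneg_left _ (by positivity)
        have e2 := H68T.mem_PC.1 hp.1.1
        have e3 : p ∈ PC ⌊Real.log n ^ (2 * A + 20)⌋₊ := by
          refine H68T.mem_PC.2 ⟨e2.1, ?_, e2.2.2⟩
          rw [← hLdef]
          apply Nat.le_floor
          calc (p.1 : ℝ) ≤ R0 := by exact_mod_cast hp.2
            _ ≤ L ^ (A + 10) := hR0le
            _ ≤ L ^ (2 * A + 20) := pow_le_pow_right₀ hL1 (by omega)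
        have e4 := hSW p e3 hp.1.2.1 hp.1.2.2 y ?_ hy
        · rwa [← hLdef] at e4
        · have e5 : (n : ℝ) ^ (1 / 10 : ℝ) = s ^ 2 := by
            rw [hsdef, ← Real.rpow_natCast, ← Real.rpow_mul hn0'.le]
            norm_num
          rw [e5]
          have e6 : s ^ 2 ≤ s ^ 19 := pow_le_pow_right₀ hs1 (by norm_num)
          linarith
      refine (sum_le_sum e1).trans ?_
      rw [← sum_mul]
      have e2 : ∑ p ∈ ((PC D).filter (fun p => p ≠ p0 ∧ ¬ p1 ∣ p.1)).filter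
          (fun p => ¬ R0 < p.1), 1 / (Nat.totient p.1 : ℝ) ≤ L ^ (A + 10) := by
        refine le_trans ?_ ((bv2_count R0).trans hR0le)
        apply sum_le_sum_of_subset_of_nonneg
        · intro p hp
          rw [mem_filter, mem_filter, not_lt] at hp
          have e2 := H68T.mem_PC.1 hp.1.1
          exact H68T.mem_PC.2 ⟨e2.1, hp.2, e2.2.2⟩
        · intro _ _ _
          positivity
      calc (∑ p ∈ ((PC D).filter (fun p => p ≠ p0 ∧ ¬ p1 ∣ p.1)).filter
          (fun p => ¬ R0 < p.1), 1 / (Nat.totient p.1 : ℝ)) * (y / L ^ (2 * A + 20))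
          ≤ L ^ (A + 10) * (8 * n / L ^ (2 * A + 20)) :=
            mul_le_mul e2 (div_le_div_of_nonneg_right hyR (by positivity)) (by positivity)
              (by positivity)
        _ = 8 * n / L ^ (A + 10) := by
            rw [show 2 * A + 20 = (A + 10) + (A + 10) by ring, pow_add L (A + 10) (A + 10)]
            have h10 : L ^ (A + 10) ≠ 0 := by positivity
            rw [← mul_div_assoc, mul_comm (L ^ (A + 10)) (8 * (n : ℝ)),
              mul_div_mul_right _ _ h10]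
    have hlarge : ∑ p ∈ ((PC D).filter (fun p => p ≠ p0 ∧ ¬ p1 ∣ p.1)).filter
        (fun p => R0 < p.1), 1 / (Nat.totient p.1 : ℝ) * ‖psi y p‖ ≤
        C₃ * (2 * L) ^ 7 * (16 * n / L ^ (A + 10) + 8 * s ^ 19 + 3 * n / L ^ (A + 12)) := by
      have e1 := h3 R0 D y hR01 hDD hy2
      have e2 : ∑ p ∈ ((PC D).filter (fun p => p ≠ p0 ∧ ¬ p1 ∣ p.1)).filter
          (fun p => R0 < p.1), 1 / (Nat.totient p.1 : ℝ) * ‖psi y p‖ ≤
          ∑ p ∈ (PC D).filter (fun p => R0 < p.1), 1 / (Nat.totient p.1 : ℝ) * ‖psi y p‖ := by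
        apply sum_le_sum_of_subset_of_nonneg
        · intro p hp
          rw [mem_filter, mem_filter] at hp
          exact mem_filter.2 ⟨hp.1.1, hp.2⟩
        · intro _ _ _
          positivity
      refine e2.trans (e1.trans ?_)
      have hR0' : (0 : ℝ) < R0 := by exact_mod_cast hR01
      have e3 : (y : ℝ) / R0 ≤ 16 * n / L ^ (A + 10) := by
        calc (y : ℝ) / R0 ≤ (8 * n) / (L ^ (A + 10) / 2) :=
              div_le_div₀ (by positivity) hyR (by positivity) hR0ge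
          _ = 16 * n / L ^ (A + 10) := by rw [div_div_eq_mul_div]; ring
      have e4 : (y : ℝ) ^ (19 / 20 : ℝ) ≤ 8 * s ^ 19 := by
        calc (y : ℝ) ^ (19 / 20 : ℝ) ≤ (8 * n : ℝ) ^ (19 / 20 : ℝ) :=
              Real.rpow_le_rpow (by positivity) hyR (by norm_num)
          _ = (8 : ℝ) ^ (19 / 20 : ℝ) * (n : ℝ) ^ (19 / 20 : ℝ) :=
              Real.mul_rpow (by norm_num) hn0'.le
          _ ≤ 8 * s ^ 19 := by
              have e5 : (8 : ℝ) ^ (19 / 20 : ℝ) ≤ 8 := by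
                calc (8 : ℝ) ^ (19 / 20 : ℝ) ≤ (8 : ℝ) ^ (1 : ℝ) :=
                      Real.rpow_le_rpow_of_exponent_le (by norm_num) (by norm_num)
                  _ = 8 := Real.rpow_one _
              have e6 : (n : ℝ) ^ (19 / 20 : ℝ) = s ^ 19 := by
                rw [hsdef, ← Real.rpow_natCast, ← Real.rpow_mul hn0'.le]
                norm_num
              rw [e6]
              exact mul_le_mul_of_nonneg_right e5 (by positivity)
      have e7 : (D : ℝ) * Real.sqrt y ≤ 3 * n / L ^ (A + 12) := by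
        calc (D : ℝ) * Real.sqrt y ≤ (s ^ 10 / L ^ (A + 12)) * (3 * s ^ 10) :=
              mul_le_mul hDle hsqy (by positivity) (by positivity)
          _ = 3 * s ^ 20 / L ^ (A + 12) := by ring
          _ = 3 * n / L ^ (A + 12) := by rw [hs20]
      apply mul_le_mul _ (by linarith) (by positivity) (by positivity)
      apply mul_le_mul_of_nonneg_left _ hC₃.le
      exact pow_le_pow_left₀ hly0 hlogy 7
    have hSle : S ≤ 8 * n / L ^ (A + 10) +
        C₃ * (2 * L) ^ 7 * (16 * n / L ^ (A + 10) + 8 * s ^ 19 + 3 * n / L ^ (A + 12)) := by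
      rw [hS, ← sum_filter_add_sum_filter_not ((PC D).filter (fun p => p ≠ p0 ∧ ¬ p1 ∣ p.1))
        (fun p => R0 < p.1)]
      linarith
    have herr : (D : ℝ) * (C₂ * Real.sqrt y * Real.log y ^ 2) ≤
        C₂ * (2 * L) ^ 2 * (3 * n / L ^ (A + 12)) := by
      have e7 : (D : ℝ) * Real.sqrt y ≤ 3 * n / L ^ (A + 12) := by
        calc (D : ℝ) * Real.sqrt y ≤ (s ^ 10 / L ^ (A + 12)) * (3 * s ^ 10) :=
              mul_le_mul hDle hsqy (by positivity) (by positivity)
          _ = 3 * s ^ 20 / L ^ (A + 12) := by ring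
          _ = 3 * n / L ^ (A + 12) := by rw [hs20]
      have e8 : Real.log y ^ 2 ≤ (2 * L) ^ 2 := pow_le_pow_left₀ hly0 hlogy 2
      calc (D : ℝ) * (C₂ * Real.sqrt y * Real.log y ^ 2) =
          C₂ * Real.log y ^ 2 * (D * Real.sqrt y) := by ring
        _ ≤ C₂ * (2 * L) ^ 2 * (3 * n / L ^ (A + 12)) :=
            mul_le_mul (mul_le_mul_of_nonneg_left e8 hC₂.le) e7 (by positivity) (by positivity)
    have hfin : C₁ * L * S ≤ C₁ * L * (8 * n / L ^ (A + 10) +
        C₃ * (2 * L) ^ 7 * (16 * n / L ^ (A + 10) + 8 * s ^ 19 + 3 * n / L ^ (A + 12))) :=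
      mul_le_mul_of_nonneg_left hSle (by positivity)
    linarith


open Classical in
theorem bv_bilf (A : ℕ) : ∃ A' B n0 : ℕ, ∀ n : ℕ, n0 ≤ n → ∀ p1 : ℕ, SWp A' n p1 →
    ∀ (a : ℕ → ℕ) (M u v : ℕ) (α : ℕ → ℝ), (∀ m, |α m| ≤ 1) → (n : ℝ) ^ (1 / 4 : ℝ) ≤ M →
    (n : ℝ) ^ (1 / 4 : ℝ) ≤ v → u ≤ v → M * v ≤ 8 * n →
    ∑ d ∈ (Icc 1 (DD n B)).filter (fun d => (a d).Coprime d ∧ ¬ p1 ∣ d),
      |∑ m ∈ Icc 1 M, α m * ∑ q ∈ (Ioc u v).filter (fun q => q.Prime ∧ m * q ≡ a d [MOD d]),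
          Real.log q -
        1 / (Nat.totient d : ℝ) * ((∑ m ∈ (Icc 1 M).filter (fun m => m.Coprime d), α m) *
          ∑ q ∈ (Ioc u v).filter (fun q => q.Prime ∧ q.Coprime d), Real.log q)| ≤
      n / Real.log n ^ A := by
  obtain ⟨C0, hC0, hφ⟩ := Pool.Agent.Lib.H59C.sum_inv_totient
  obtain ⟨C, hC, hin⟩ := bv3_inner
  obtain ⟨n0, hn0⟩ := bv3_ev (C0 * (84 * C + 17)) (3 * A + 31)
  refine ⟨3 * A + 30, A + 12, n0, fun n hn p1 hS a M u v α hα hM hv huv hMv => ?_⟩
  obtain ⟨hn8, hL, hLC, h120⟩ := hn0 n hn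
  have hn1 : (1 : ℝ) ≤ n := by
    have : 1 ≤ n := by omega
    exact_mod_cast this
  have hn00 : (0 : ℝ) < n := by linarith
  have hDle : ((DD n (A + 12) : ℕ) : ℝ) ≤ Real.sqrt n / Real.log n ^ (A + 12) := by
    unfold DD
    exact Nat.floor_le (by positivity)
  have hD2 : 2 ≤ DD n (A + 12) := by
    unfold DD
    apply Nat.le_floor
    rw [le_div_iff₀ (by positivity)]
    have h1 : Real.log n ^ (A + 12) ≤ Real.log n ^ (3 * A + 31) :=
      pow_le_pow_right₀ hL (by omega)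
    have h2 : (n : ℝ) ^ (1 / 8 : ℝ) ≤ Real.sqrt n := by
      rw [Real.sqrt_eq_rpow]
      exact Real.rpow_le_rpow_of_exponent_le hn1 (by norm_num)
    have h3 : (0 : ℝ) ≤ Real.log n ^ (A + 12) := by positivity
    push_cast
    linarith
  set D := DD n (A + 12) with hD
  set L := Real.log n with hLdef
  have hL0 : 0 < L := by linarith
  set F : ℕ → PCh → ℝ := fun k p => ‖bv3_A M α k p‖ * ‖bv3_T u v k p‖ with hF
  have hF0 : ∀ k p, 0 ≤ F k p := fun k p => by positivity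
  have h1 : ∑ d ∈ (Icc 1 D).filter (fun d => (a d).Coprime d ∧ ¬ p1 ∣ d),
      |∑ m ∈ Icc 1 M, α m * ∑ q ∈ (Ioc u v).filter (fun q => q.Prime ∧ m * q ≡ a d [MOD d]),
          Real.log q -
        1 / (Nat.totient d : ℝ) * ((∑ m ∈ (Icc 1 M).filter (fun m => m.Coprime d), α m) *
          ∑ q ∈ (Ioc u v).filter (fun q => q.Prime ∧ q.Coprime d), Real.log q)| ≤
      ∑ d ∈ (Icc 1 D).filter (fun d => ¬ p1 ∣ d), 1 / (Nat.totient d : ℝ) *
        ∑ p ∈ (PC d).filter (fun p => p ≠ p0 ∧ p.1 ∣ d), F (d / p.1) p := by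
    have h2 : ∀ d ∈ (Icc 1 D).filter (fun d => (a d).Coprime d ∧ ¬ p1 ∣ d),
        |∑ m ∈ Icc 1 M, α m * ∑ q ∈ (Ioc u v).filter (fun q => q.Prime ∧ m * q ≡ a d [MOD d]),
          Real.log q -
        1 / (Nat.totient d : ℝ) * ((∑ m ∈ (Icc 1 M).filter (fun m => m.Coprime d), α m) *
          ∑ q ∈ (Ioc u v).filter (fun q => q.Prime ∧ q.Coprime d), Real.log q)| ≤
        1 / (Nat.totient d : ℝ) *
          ∑ p ∈ (PC d).filter (fun p => p ≠ p0 ∧ p.1 ∣ d), F (d / p.1) p := by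
      intro d hd
      rw [mem_filter, mem_Icc] at hd
      exact bv3_dev M u v d (a d) α hd.1.1 hd.2.1
    refine (sum_le_sum h2).trans ?_
    apply sum_le_sum_of_subset_of_nonneg
    · intro d hd
      rw [mem_filter] at hd ⊢
      exact ⟨hd.1, hd.2.2⟩
    · intro d _ _
      exact mul_nonneg (by positivity) (sum_nonneg fun p _ => hF0 _ _)
  refine h1.trans ((exchange D p1 F hF0).trans ?_)
  have h3 : ∀ k ∈ Icc 1 D, 1 / (Nat.totient k : ℝ) *
        ∑ p ∈ (PC D).filter (fun p => p ≠ p0 ∧ ¬ p1 ∣ p.1), 1 / (Nat.totient p.1 : ℝ) * F k p ≤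
      1 / (Nat.totient k : ℝ) * ((84 * C + 17) * (L ^ 3 * (n / L ^ (A + 10)))) := by
    intro k hk
    rw [mem_Icc] at hk
    apply mul_le_mul_of_nonneg_left _ (by positivity)
    exact hin A n p1 M u v k D hS hn8 hL h120 hM hv huv hMv hk.1 hk.2 hD2 hDle α hα
  refine (sum_le_sum h3).trans ?_
  rw [← sum_mul]
  have hDn : (D : ℝ) ≤ n := by
    refine hDle.trans ?_
    have h1 : (1 : ℝ) ≤ L ^ (A + 12) := one_le_pow₀ hL
    refine (div_le_self (Real.sqrt_nonneg _) h1).trans ?_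
    rw [Real.sqrt_le_left (by linarith)]
    nlinarith
  have hlD : Real.log D ≤ L := Real.log_le_log (by
    have : 0 < D := by omega
    exact_mod_cast this) hDn
  have h4 : ∑ k ∈ Icc 1 D, 1 / (Nat.totient k : ℝ) ≤ C0 * L :=
    (hφ D hD2).trans (mul_le_mul_of_nonneg_left hlD hC0.le)
  refine (mul_le_mul_of_nonneg_right h4 (by positivity)).trans ?_
  have h5 : C0 * L * ((84 * C + 17) * (L ^ 3 * (n / L ^ (A + 10)))) =
      (C0 * (84 * C + 17)) * (n / L ^ (A + 6)) := by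
    have h6 : L ^ (A + 10) = L ^ (A + 6) * L ^ 4 := by rw [← pow_add]
    rw [h6]
    field_simp
  rw [h5]
  calc (C0 * (84 * C + 17)) * (n / L ^ (A + 6)) ≤ L * (n / L ^ (A + 6)) :=
        mul_le_mul_of_nonneg_right hLC (by positivity)
    _ = n / L ^ (A + 5) := by
        have h6 : L ^ (A + 6) = L ^ (A + 5) * L := by rw [← pow_succ]
        rw [h6]
        field_simp
    _ ≤ n / L ^ A := by
        apply div_le_div_of_nonneg_left hn00.le (by positivity)
        exact pow_le_pow_right₀ hL (by omega)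


end Pool.Agent.Lib.H57C
end

-- from Lib.H57C.V1
section

/-!
# Chunk V1: Bombieri-Vinogradov, all classes at once, with weights
-/

open Finset

namespace Pool.Agent.Lib.H57C

open Pool.Agent.Lib.Sieve

/-- weighted harmonic sum of a product over prime factors -/
theorem V1_sum (h : ℕ → ℝ) (h0 : ∀ p, 0 ≤ h p) (N : ℕ) :
    ∑ m ∈ Icc 1 N, (∏ p ∈ m.primeFactors, (1 + h p)) / (m : ℝ)
      ≤ (∑ k ∈ Icc 1 N, 1 / (k : ℝ)) * ∏ p ∈ primesUpTo N, (1 + h p / p) := by
  have hD0 : ∀ D : Finset ℕ, 0 ≤ ∏ p ∈ D, h p := fun D => Finset.prod_nonneg fun p _ => h0 p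
  have h1 : ∀ m ∈ Finset.Icc 1 N, (∏ p ∈ m.primeFactors, (1 + h p)) / (m : ℝ)
      ≤ ∑ D ∈ (primesUpTo N).powerset, if (∏ p ∈ D, p) ∣ m then (∏ p ∈ D, h p) / (m : ℝ) else 0 := by
    intro m hm
    rw [Finset.mem_Icc] at hm
    rw [Finset.prod_one_add, ← Finset.sum_filter, Finset.sum_div]
    apply Finset.sum_le_sum_of_subset_of_nonneg
    · intro D hD
      rw [Finset.mem_powerset] at hD
      rw [Finset.mem_filter, Finset.mem_powerset]
      refine ⟨fun p hp => ?_, ?_⟩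
      · have hpm := Nat.mem_primeFactors.mp (hD hp)
        rw [mem_primesUpTo]
        exact ⟨hpm.1, (Nat.le_of_dvd (by omega) hpm.2.1).trans hm.2⟩
      · exact (Finset.prod_dvd_prod_of_subset _ _ _ hD).trans (Nat.prod_primeFactors_dvd m)
    · intro D _ _
      exact div_nonneg (hD0 D) (Nat.cast_nonneg _)
  refine (Finset.sum_le_sum h1).trans ?_
  rw [Finset.sum_comm, Finset.prod_one_add, Finset.mul_sum]
  refine Finset.sum_le_sum fun D hD => ?_
  rw [Finset.mem_powerset] at hD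
  rw [← Finset.sum_filter]
  set d := ∏ p ∈ D, p with hd
  have hdpos : 0 < d := Finset.prod_pos fun p hp => (mem_primesUpTo.mp (hD hp)).1.pos
  rw [Finset.prod_div_distrib]
  have hdr : (∏ p ∈ D, (p : ℝ)) = d := by
    rw [hd]
    push_cast
    rfl
  rw [hdr]
  have h2 : ∑ a ∈ (Icc 1 N).filter (fun m => d ∣ m), (∏ p ∈ D, h p) / (a : ℝ) ≤
      ∑ k ∈ Icc 1 N, (∏ p ∈ D, h p) / ((d * k : ℕ) : ℝ) := by
    have h3 : (Icc 1 N).filter (fun m => d ∣ m) ⊆ (Icc 1 N).image (fun k => d * k) := by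
      intro m hm
      rw [mem_filter, mem_Icc] at hm
      obtain ⟨k, rfl⟩ := hm.2
      rw [mem_image]
      refine ⟨k, ?_, rfl⟩
      rw [mem_Icc]
      constructor
      · by_contra h
        have : k = 0 := by omega
        rw [this] at hm
        omega
      · exact (Nat.le_mul_of_pos_left k hdpos).trans hm.1.2
    refine (sum_le_sum_of_subset_of_nonneg h3 fun i _ _ => div_nonneg (hD0 D)
      (Nat.cast_nonneg _)).trans ?_
    rw [sum_image]
    intro a _ b _ hab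
    exact Nat.eq_of_mul_eq_mul_left hdpos hab
  refine h2.trans (le_of_eq ?_)
  rw [sum_mul]
  apply sum_congr rfl
  intro k _
  push_cast
  rw [div_mul_div_comm, one_mul, mul_comm (k : ℝ)]

/-- the weights on average -/
theorem V1_w (E n : ℕ) (hn : 2 ≤ n) : ∑ d ∈ Icc 1 n, (E : ℝ) ^ d.primeFactors.card /
    (Nat.totient d : ℝ) ≤ (1 + Real.log n) * (500 * Real.log n) ^ (2 * E) := by
  have h1 : ∀ d ∈ Icc 1 n, (E : ℝ) ^ d.primeFactors.card / (Nat.totient d : ℝ) ≤
      (∏ p ∈ d.primeFactors, (1 + (fun _ => 2 * (E : ℝ)) p)) / (d : ℝ) := by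
    intro d hd
    rw [mem_Icc] at hd
    have hd0 : (0 : ℝ) < d := by exact_mod_cast hd.1
    have hphi : (0 : ℝ) < Nat.totient d := by exact_mod_cast Nat.totient_pos.2 (by omega)
    have h2 : (Nat.totient d : ℝ) * ∏ p ∈ d.primeFactors, (p : ℝ) =
        d * ∏ p ∈ d.primeFactors, ((p : ℝ) - 1) := by
      have h3 := Nat.totient_mul_prod_primeFactors d
      have h4 : ((d.totient * ∏ p ∈ d.primeFactors, p : ℕ) : ℝ) =
        ((d * ∏ p ∈ d.primeFactors, (p - 1) : ℕ) : ℝ) := by rw [h3]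
      push_cast at h4
      rw [h4]
      congr 1
      apply prod_congr rfl
      intro p hp
      have := (Nat.prime_of_mem_primeFactors hp).one_le
      push_cast [Nat.cast_sub this]
      ring
    rw [div_le_div_iff₀ hphi hd0]
    have h5 : 0 < ∏ p ∈ d.primeFactors, ((p : ℝ) - 1) := by
      apply prod_pos
      intro p hp
      have : (1 : ℝ) < p := by exact_mod_cast (Nat.prime_of_mem_primeFactors hp).one_lt
      linarith
    have h6 : (E : ℝ) ^ d.primeFactors.card * ∏ p ∈ d.primeFactors, (p : ℝ) ≤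
        (∏ p ∈ d.primeFactors, (1 + 2 * (E : ℝ))) * ∏ p ∈ d.primeFactors, ((p : ℝ) - 1) := by
      rw [← prod_const, ← prod_mul_distrib, ← prod_mul_distrib]
      apply prod_le_prod
      · intro p _
        positivity
      · intro p hp
        have h2 : (2 : ℝ) ≤ p := by exact_mod_cast (Nat.prime_of_mem_primeFactors hp).two_le
        have hE : (0 : ℝ) ≤ E := Nat.cast_nonneg _
        nlinarith
    have h7 : (E : ℝ) ^ d.primeFactors.card * d * ∏ p ∈ d.primeFactors, ((p : ℝ) - 1) ≤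
        (∏ p ∈ d.primeFactors, (1 + 2 * (E : ℝ))) * (Nat.totient d : ℝ) *
          ∏ p ∈ d.primeFactors, ((p : ℝ) - 1) := by
      calc (E : ℝ) ^ d.primeFactors.card * d * ∏ p ∈ d.primeFactors, ((p : ℝ) - 1) =
          (E : ℝ) ^ d.primeFactors.card * (Nat.totient d * ∏ p ∈ d.primeFactors, (p : ℝ)) := by
            rw [h2]; ring
        _ = (Nat.totient d : ℝ) * ((E : ℝ) ^ d.primeFactors.card *
            ∏ p ∈ d.primeFactors, (p : ℝ)) := by ring
        _ ≤ (Nat.totient d : ℝ) * ((∏ p ∈ d.primeFactors, (1 + 2 * (E : ℝ))) *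
            ∏ p ∈ d.primeFactors, ((p : ℝ) - 1)) := mul_le_mul_of_nonneg_left h6 hphi.le
        _ = _ := by ring
    exact le_of_mul_le_mul_right h7 h5
  refine (sum_le_sum h1).trans ((V1_sum (fun _ => 2 * (E : ℝ)) (fun _ => by positivity) n).trans ?_)
  have h8 : ∑ k ∈ Icc 1 n, 1 / (k : ℝ) ≤ 1 + Real.log n := by
    have := harmonic_le_one_add_log n
    have h9 : ((harmonic n : ℚ) : ℝ) = ∑ k ∈ Icc 1 n, 1 / (k : ℝ) := by
      rw [harmonic_eq_sum_Icc]
      push_cast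
      simp
    rw [← h9]
    exact this
  have h10 : ∏ p ∈ primesUpTo n, (1 + 2 * (E : ℝ) / p) ≤ (500 * Real.log n) ^ (2 * E) := by
    calc ∏ p ∈ primesUpTo n, (1 + 2 * (E : ℝ) / p) ≤
        ∏ p ∈ primesUpTo n, ((1 - 1 / (p : ℝ))⁻¹) ^ (2 * E) := by
          apply prod_le_prod
          · intro p _
            positivity
          · intro p hp
            have hp1 : (1 : ℝ) < p := by exact_mod_cast (mem_primesUpTo.mp hp).1.one_lt
            have h11 : 1 + 1 / (p : ℝ) ≤ (1 - 1 / (p : ℝ))⁻¹ := by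
              have h12 : 0 < 1 - 1 / (p : ℝ) := by
                rw [sub_pos, div_lt_one (by linarith)]
                exact hp1
              rw [le_inv_comm₀ (by positivity) h12, ← one_div, le_div_iff₀ (by positivity)]
              have : 0 < 1 / (p : ℝ) := by positivity
              nlinarith
            refine le_trans ?_ (pow_le_pow_left₀ (by positivity) h11 _)
            have h13 := one_add_mul_le_pow (a := 1 / (p : ℝ)) (by
              have : 0 < 1 / (p : ℝ) := by positivity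
              linarith) (2 * E)
            push_cast at h13
            calc 1 + 2 * (E : ℝ) / p = 1 + 2 * (E : ℝ) * (1 / p) := by ring
              _ ≤ _ := h13
      _ = (∏ p ∈ primesUpTo n, (1 - 1 / (p : ℝ))⁻¹) ^ (2 * E) := prod_pow _ _ _
      _ ≤ (500 * Real.log n) ^ (2 * E) := by
          apply pow_le_pow_left₀
          · apply prod_nonneg
            intro p hp
            have hp1 : (1 : ℝ) < p := by exact_mod_cast (mem_primesUpTo.mp hp).1.one_lt
            have h12 : 0 < 1 - 1 / (p : ℝ) := by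
              rw [sub_pos, div_lt_one (by linarith)]
              exact hp1
            positivity
          · exact Helper57.prod_one_sub_inv_inv_le n hn
  have h14 : 0 ≤ Real.log n := Real.log_natCast_nonneg n
  exact mul_le_mul h8 h10 (prod_nonneg fun _ _ => by positivity) (by positivity)


/-- Cauchy-Schwarz -/
theorem V1_cs (E n : ℕ) (hn : 2 ≤ n) (S : Finset ℕ) (hS : S ⊆ Icc 1 n) (rr : ℕ → ℝ)
    (h0 : ∀ d, 0 ≤ rr d) (R0 R1 : ℝ) (hR0 : 0 ≤ R0) (h1 : ∑ d ∈ S, rr d ≤ R1)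
    (h2 : ∀ d ∈ S, rr d ≤ R0 * (1 / (Nat.totient d : ℝ))) :
    (∑ d ∈ S, (E : ℝ) ^ d.primeFactors.card * rr d) ^ 2 ≤
      R0 * ((1 + Real.log n) * (500 * Real.log n) ^ (2 * E ^ 2)) * R1 := by
  have hcs := sum_mul_sq_le_sq_mul_sq S
    (fun d => (E : ℝ) ^ d.primeFactors.card * Real.sqrt (rr d)) (fun d => Real.sqrt (rr d))
  have e1 : ∑ d ∈ S, (E : ℝ) ^ d.primeFactors.card * rr d =
      ∑ d ∈ S, (E : ℝ) ^ d.primeFactors.card * Real.sqrt (rr d) * Real.sqrt (rr d) := by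
    apply sum_congr rfl
    intro d _
    rw [mul_assoc, Real.mul_self_sqrt (h0 d)]
  have e2 : ∑ d ∈ S, ((E : ℝ) ^ d.primeFactors.card * Real.sqrt (rr d)) ^ 2 ≤
      R0 * ((1 + Real.log n) * (500 * Real.log n) ^ (2 * E ^ 2)) := by
    calc ∑ d ∈ S, ((E : ℝ) ^ d.primeFactors.card * Real.sqrt (rr d)) ^ 2
        ≤ ∑ d ∈ S, R0 * (((E ^ 2 : ℕ) : ℝ) ^ d.primeFactors.card / (Nat.totient d : ℝ)) := by
          apply sum_le_sum
          intro d hd
          rw [mul_pow, Real.sq_sqrt (h0 d), ← pow_mul, mul_comm d.primeFactors.card 2, pow_mul]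
          push_cast
          calc ((E : ℝ) ^ 2) ^ d.primeFactors.card * rr d ≤
              ((E : ℝ) ^ 2) ^ d.primeFactors.card * (R0 * (1 / (Nat.totient d : ℝ))) :=
                mul_le_mul_of_nonneg_left (h2 d hd) (by positivity)
            _ = _ := by ring
      _ = R0 * ∑ d ∈ S, (((E ^ 2 : ℕ) : ℝ) ^ d.primeFactors.card / (Nat.totient d : ℝ)) := by
          rw [mul_sum]
      _ ≤ R0 * ∑ d ∈ Icc 1 n, (((E ^ 2 : ℕ) : ℝ) ^ d.primeFactors.card / (Nat.totient d : ℝ)) := by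
          apply mul_le_mul_of_nonneg_left _ hR0
          exact sum_le_sum_of_subset_of_nonneg hS fun _ _ _ => by positivity
      _ ≤ _ := mul_le_mul_of_nonneg_left (V1_w (E ^ 2) n hn) hR0
  have e3 : ∑ d ∈ S, Real.sqrt (rr d) ^ 2 ≤ R1 := by
    refine le_trans (le_of_eq ?_) h1
    exact sum_congr rfl fun d _ => Real.sq_sqrt (h0 d)
  rw [e1]
  have hl : 0 ≤ Real.log n := Real.log_natCast_nonneg n
  exact hcs.trans (mul_le_mul e2 e3 (sum_nonneg fun _ _ => by positivity) (by positivity))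

theorem V1_ev : ∃ n0 : ℕ, 8 ≤ n0 ∧ ∀ n : ℕ, n0 ≤ n → 500 ≤ Real.log n := by
  have h := (Real.tendsto_log_atTop.comp tendsto_natCast_atTop_atTop).eventually_ge_atTop 500
  rw [Filter.eventually_atTop] at h
  obtain ⟨n0, h⟩ := h
  exact ⟨max n0 8, le_max_right _ _, fun n hn => h n ((le_max_left _ _).trans hn)⟩

/-- numerical conclusion -/
theorem V1_num (A E : ℕ) (n L X : ℝ) (hn : 0 ≤ n) (hL : 500 ≤ L)
    (h : X ^ 2 ≤ 100 * n * L * ((1 + L) * (500 * L) ^ (2 * E ^ 2)) *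
      (n / L ^ (2 * A + 4 * E ^ 2 + 10))) : X ≤ n / L ^ A := by
  have hL0 : 0 < L := by linarith
  have hL1 : 1 ≤ L := by linarith
  have h1 : (1 + L) * (500 * L) ^ (2 * E ^ 2) ≤ L ^ 2 * (L ^ 2) ^ (2 * E ^ 2) := by
    apply mul_le_mul _ _ (by positivity) (by positivity)
    · nlinarith
    · apply pow_le_pow_left₀ (by positivity)
      nlinarith
  have h2 : 100 * n * L * (L ^ 2 * (L ^ 2) ^ (2 * E ^ 2)) * (n / L ^ (2 * A + 4 * E ^ 2 + 10)) ≤
      (n / L ^ A) ^ 2 := by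
    have e1 : L ^ (2 * A + 4 * E ^ 2 + 10) = (L ^ A) ^ 2 * ((L ^ 2) ^ (2 * E ^ 2) * L ^ 10) := by
      rw [← pow_mul, ← pow_mul, ← pow_add, ← pow_add]
      congr 1
      ring
    rw [e1, div_pow]
    have e2 : 100 * n * L * (L ^ 2 * (L ^ 2) ^ (2 * E ^ 2)) *
        (n / ((L ^ A) ^ 2 * ((L ^ 2) ^ (2 * E ^ 2) * L ^ 10))) =
        n ^ 2 / (L ^ A) ^ 2 * (100 / L ^ 7) := by
      field_simp
    rw [e2]
    have e3 : 100 / L ^ 7 ≤ 1 := by
      rw [div_le_one (by positivity)]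
      calc (100 : ℝ) ≤ L ^ 1 := by rw [pow_one]; linarith
        _ ≤ L ^ 7 := pow_le_pow_right₀ hL1 (by norm_num)
    calc n ^ 2 / (L ^ A) ^ 2 * (100 / L ^ 7) ≤ n ^ 2 / (L ^ A) ^ 2 * 1 :=
          mul_le_mul_of_nonneg_left e3 (by positivity)
      _ = _ := mul_one _
  have h3 : X ^ 2 ≤ (n / L ^ A) ^ 2 := by
    refine h.trans (le_trans ?_ h2)
    apply mul_le_mul_of_nonneg_right _ (by positivity)
    exact mul_le_mul_of_nonneg_left h1 (by positivity)
  exact le_of_sq_le_sq h3 (by positivity)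


open Pool.Agent.Lib.H59C

/-- a worst residue class -/
theorem V1_max (d : ℕ) (hd : 1 ≤ d) (f : ℕ → ℝ) (hf : ∀ a, f (a % d) = f a) :
    ∃ a0 : ℕ, a0.Coprime d ∧ ∀ a : ℕ, a.Coprime d → f a ≤ f a0 := by
  have hne : ((range d).filter (fun a => a.Coprime d)).Nonempty := by
    rcases Nat.lt_or_ge 1 d with h | h
    · exact ⟨1, mem_filter.2 ⟨mem_range.2 h, Nat.coprime_one_left d⟩⟩
    · have : d = 1 := by omega
      subst this
      exact ⟨0, mem_filter.2 ⟨mem_range.2 (by omega), Nat.coprime_one_right 0⟩⟩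
  obtain ⟨a0, ha0, h⟩ := exists_max_image _ f hne
  rw [mem_filter] at ha0
  refine ⟨a0, ha0.2, fun a ha => ?_⟩
  rw [← hf a]
  apply h
  rw [mem_filter, mem_range]
  refine ⟨Nat.mod_lt _ hd, ?_⟩
  unfold Nat.Coprime at ha ⊢
  rw [← Nat.gcd_rec, Nat.gcd_comm]
  exact ha

/-- Proof. Put `r0(y, d) = sup over a < d, (a, d) = 1, of |thp y d a - th y/φ(d)|` (`Finset.sup'` or `exists_max_image` over the
nonempty set `{a ∈ range d : a.Coprime d}`; both sides only depend on `a` mod `d`), attained at `a(y, d)`, and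
`rr d = r0(y, d)` for `d ≥ 1`. By `bvf A1` with `A1 = 2 A + 2 c + 10`: `∑_{d ≤ DD n B, p1 ∤ d} rr d ≤ n/L^A1`. Trivially (`bv2_triv`)
`rr d ≤ 2 y log y/φ(d) + log y ≤ 100 n L (1/φ(d) + 1/d) ≤ 200 n L/φ(d)` (`d ≤ √n`). By Cauchy-Schwarz
`∑ E^ω(d) rr d ≤ (∑ E^(2ω(d)) rr d)^(1/2) (∑ rr d)^(1/2) ≤ (200 n L ∑_{d ≤ n} (E^2)^ω(d)/φ(d))^(1/2) (n/L^A1)^(1/2)`, and
`∑_{d ≤ n} (E^2)^ω(d)/φ(d) ≤ ∏_{q ≤ n} (1 + E^2/(q-1) · (1 + 1/q + 1/q^2 + ..)) ≤ exp (4 E^2 ∑_{q ≤ n} 1/q) ≤ L^c` for large `n`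
(`c` depends on `E`; `mertens` in `H59C/MER0.lean`, or `Sieve.sum_prod_primeFactors_le`). -/
theorem bvw (A E : ℕ) : ∃ A' B n0 : ℕ, ∀ n : ℕ, n0 ≤ n → ∀ p1 : ℕ, SWp A' n p1 →
    ∀ y : ℕ, y ≤ 8 * n → ∃ rr : ℕ → ℝ, (∀ d, 0 ≤ rr d) ∧
      (∀ d, 1 ≤ d → d ≤ DD n B → ¬ p1 ∣ d → ∀ a : ℕ, a.Coprime d →
        |thp y d a - th y / (Nat.totient d : ℝ)| ≤ rr d) ∧
      ∑ d ∈ (Icc 1 (DD n B)).filter (fun d => ¬ p1 ∣ d),
        (E : ℝ) ^ d.primeFactors.card * rr d ≤ n / Real.log n ^ A := by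
  obtain ⟨A', B, n0, hbv⟩ := bvf (2 * A + 4 * E ^ 2 + 10)
  obtain ⟨n1, hn1, hlog⟩ := V1_ev
  refine ⟨A', B, max n0 n1, fun n hn p1 hSW y hy => ?_⟩
  have hn8 : 8 ≤ n := hn1.trans ((le_max_right _ _).trans hn)
  have hL := hlog n ((le_max_right _ _).trans hn)
  have hnR : (8 : ℝ) ≤ n := by exact_mod_cast hn8
  have hmod : ∀ d a : ℕ, thp y d (a % d) = thp y d a := by
    intro d a
    unfold thp
    congr 1
    apply filter_congr
    intro q _
    rw [Nat.ModEq, Nat.ModEq, Nat.mod_mod]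
  have hex : ∀ d : ℕ, 1 ≤ d → ∃ a0 : ℕ, a0.Coprime d ∧ ∀ a : ℕ, a.Coprime d →
      |thp y d a - th y / (Nat.totient d : ℝ)| ≤ |thp y d a0 - th y / (Nat.totient d : ℝ)| :=
    fun d hd => V1_max d hd (fun a => |thp y d a - th y / (Nat.totient d : ℝ)|)
      (fun a => by simp only [hmod])
  choose! a ha hmax using hex
  refine ⟨fun d => |thp y d (a d) - th y / (Nat.totient d : ℝ)|, fun _ => abs_nonneg _,
    fun d hd _ _ b hb => hmax d hd b hb, ?_⟩
  have hDn : DD n B ≤ n := by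
    unfold DD
    have h1 : Real.sqrt n / Real.log n ^ B ≤ n := by
      refine (div_le_self (Real.sqrt_nonneg _) (one_le_pow₀ (by linarith))).trans ?_
      rw [Real.sqrt_le_left (by linarith)]
      nlinarith
    exact_mod_cast (Nat.floor_le (by positivity)).trans h1
  have hsub : (Icc 1 (DD n B)).filter (fun d => ¬ p1 ∣ d) ⊆ Icc 1 n := by
    intro d hd
    rw [mem_filter, mem_Icc] at hd
    rw [mem_Icc]
    exact ⟨hd.1.1, hd.1.2.trans hDn⟩
  have hb1 : ∑ d ∈ (Icc 1 (DD n B)).filter (fun d => ¬ p1 ∣ d),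
      |thp y d (a d) - th y / (Nat.totient d : ℝ)| ≤
      n / Real.log n ^ (2 * A + 4 * E ^ 2 + 10) := by
    have h1 := hbv n ((le_max_left _ _).trans hn) p1 hSW a y hy
    have h2 : (Icc 1 (DD n B)).filter (fun d => (a d).Coprime d ∧ ¬ p1 ∣ d) =
        (Icc 1 (DD n B)).filter (fun d => ¬ p1 ∣ d) := by
      apply filter_congr
      intro d hd
      rw [mem_Icc] at hd
      exact ⟨fun h => h.2, fun h => ⟨ha d hd.1, h⟩⟩
    rwa [h2] at h1
  have hb2 : ∀ d ∈ (Icc 1 (DD n B)).filter (fun d => ¬ p1 ∣ d),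
      |thp y d (a d) - th y / (Nat.totient d : ℝ)| ≤
      100 * n * Real.log n * (1 / (Nat.totient d : ℝ)) := by
    intro d hd
    have hd' := mem_Icc.1 (hsub hd)
    refine (bv2_triv y d (a d) hd'.1).trans ?_
    have hphi : (0 : ℝ) < Nat.totient d := by exact_mod_cast Nat.totient_pos.2 (by omega)
    have hphi2 : (Nat.totient d : ℝ) ≤ n := by exact_mod_cast (Nat.totient_le d).trans hd'.2
    have hly : Real.log y ≤ 2 * Real.log n := by
      rcases Nat.eq_zero_or_pos y with h | h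
      · rw [h]; simp; linarith
      · have h1 : Real.log y ≤ Real.log (8 * n) := Real.log_le_log (by exact_mod_cast h)
          (by exact_mod_cast hy)
        rw [Real.log_mul (by norm_num) (by positivity)] at h1
        have h2 : Real.log 8 ≤ Real.log n := Real.log_le_log (by norm_num) hnR
        linarith
    have hy' : (y : ℝ) ≤ 8 * n := by exact_mod_cast hy
    have hly0 : 0 ≤ Real.log y := Real.log_natCast_nonneg y
    have h1 : (y : ℝ) * Real.log y ≤ 8 * n * (2 * Real.log n) :=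
      mul_le_mul hy' hly hly0 (by positivity)
    have h2 : 2 * ((y : ℝ) * Real.log y) * (1 / (Nat.totient d : ℝ)) ≤
        2 * (8 * n * (2 * Real.log n)) * (1 / (Nat.totient d : ℝ)) :=
      mul_le_mul_of_nonneg_right (by linarith) (by positivity)
    have h3 : Real.log y ≤ 2 * Real.log n * n * (1 / (Nat.totient d : ℝ)) := by
      rw [mul_assoc, mul_one_div]
      have h4 : 1 ≤ (n : ℝ) / Nat.totient d := by
        rw [le_div_iff₀ hphi]; linarith
      have h5 : 0 ≤ 2 * Real.log n := by linarith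
      nlinarith
    have h6 : 0 < (n : ℝ) * Real.log n * (1 / (Nat.totient d : ℝ)) := by
      have : 0 < Real.log n := by linarith
      positivity
    calc 2 * ((y : ℝ) * Real.log y) * (1 / (Nat.totient d : ℝ)) + Real.log y
        ≤ 2 * (8 * n * (2 * Real.log n)) * (1 / (Nat.totient d : ℝ)) +
          2 * Real.log n * n * (1 / (Nat.totient d : ℝ)) := add_le_add h2 h3
      _ = 34 * ((n : ℝ) * Real.log n * (1 / (Nat.totient d : ℝ))) := by ring
      _ ≤ 100 * ((n : ℝ) * Real.log n * (1 / (Nat.totient d : ℝ))) := by linarith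
      _ = _ := by ring
  have hcs := V1_cs E n (by omega) _ hsub
    (fun d => |thp y d (a d) - th y / (Nat.totient d : ℝ)|) (fun _ => abs_nonneg _)
    (100 * n * Real.log n) _ (by
      have : 0 ≤ Real.log n := by linarith
      positivity) hb1 hb2
  exact V1_num A E n (Real.log n) _ (by linarith) hL hcs

end Pool.Agent.Lib.H57C
end

-- from Lib.H57C.V2
section

/-!
# Chunk V2: the bilinear Bombieri-Vinogradov theorem, all classes at once, with weights
-/

open Finset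

namespace Pool.Agent.Lib.H57C

open Pool.Agent.Lib.H59C

/-- solutions of a linear congruence -/
theorem V2_one (d a m y : ℕ) (hd : 1 ≤ d) (ha : a.Coprime d) :
    (((Icc 1 y).filter (fun q => m * q ≡ a [MOD d])).card : ℝ) ≤ y / d + 1 := by
  rcases ((Icc 1 y).filter (fun q => m * q ≡ a [MOD d])).eq_empty_or_nonempty with h | ⟨q0, h⟩
  · rw [h, card_empty]
    push_cast
    positivity
  · rw [mem_filter] at h
    have h1 : (m * q0).Coprime d := by
      rw [Nat.Coprime, h.2.gcd_eq]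
      exact ha
    have h2 : d.Coprime m := (Nat.Coprime.coprime_mul_right h1).symm
    refine le_trans ?_ (bv2_card y d q0 hd)
    have h3 : ((Icc 1 y).filter (fun q => m * q ≡ a [MOD d])).card ≤
        ((Icc 1 y).filter (fun q => q ≡ q0 [MOD d])).card := by
      apply card_le_card
      apply monotone_filter_right
      intro q _ hq
      exact Nat.ModEq.cancel_left_of_coprime h2 (hq.trans h.2.symm)
    exact_mod_cast h3

/-- the number of pairs -/
theorem V2_count (n d a M v : ℕ) (hd : 1 ≤ d) (hdn : (d : ℝ) ≤ Real.sqrt n) (ha : a.Coprime d)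
    (hMv : M * v ≤ 8 * n) :
    ∑ m ∈ Icc 1 M, (((Icc 1 v).filter (fun q => m * q ≡ a [MOD d])).card : ℝ) ≤ 11 * n / d := by
  have hd0 : (0 : ℝ) < d := by exact_mod_cast hd
  have h1 : ∑ m ∈ Icc 1 M, (((Icc 1 v).filter (fun q => m * q ≡ a [MOD d])).card : ℝ) ≤
      M * (v / d + 1) := by
    refine (sum_le_sum fun m _ => V2_one d a m v hd ha).trans ?_
    rw [sum_const, nsmul_eq_mul, Nat.card_Icc]
    simp
  have h2 : ∑ m ∈ Icc 1 M, (((Icc 1 v).filter (fun q => m * q ≡ a [MOD d])).card : ℝ) ≤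
      v * (M / d + 1) := by
    have e1 : ∑ m ∈ Icc 1 M, (((Icc 1 v).filter (fun q => m * q ≡ a [MOD d])).card : ℝ) =
        ∑ q ∈ Icc 1 v, (((Icc 1 M).filter (fun m => q * m ≡ a [MOD d])).card : ℝ) := by
      simp only [card_filter, Nat.cast_sum]
      rw [sum_comm]
      apply sum_congr rfl
      intro q _
      apply sum_congr rfl
      intro m _
      rw [mul_comm m q]
    rw [e1]
    refine (sum_le_sum fun q _ => V2_one d a q M hd ha).trans ?_
    rw [sum_const, nsmul_eq_mul, Nat.card_Icc]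
    simp
  obtain ⟨c, hc⟩ : ∃ c : ℝ, c = ∑ m ∈ Icc 1 M,
    (((Icc 1 v).filter (fun q => m * q ≡ a [MOD d])).card : ℝ) := ⟨_, rfl⟩
  rw [← hc] at h1 h2 ⊢
  have hM0 : (0 : ℝ) ≤ M := Nat.cast_nonneg _
  have hv0 : (0 : ℝ) ≤ v := Nat.cast_nonneg _
  have hMvR : (M : ℝ) * v ≤ 8 * n := by exact_mod_cast hMv
  have h3 : c - M * v / d ≤ M := by
    have : (M : ℝ) * (v / d + 1) = M * v / d + M := by ring
    linarith
  have h4 : c - M * v / d ≤ v := by
    have : (v : ℝ) * (M / d + 1) = M * v / d + v := by ring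
    linarith
  have hs := Real.sqrt_nonneg n
  have hss : Real.sqrt n * Real.sqrt n = n := Real.mul_self_sqrt (Nat.cast_nonneg _)
  have h5 : c - M * v / d ≤ 3 * Real.sqrt n := by
    rcases le_or_gt (c - M * v / d) 0 with h | h
    · linarith
    · by_contra h6
      push Not at h6
      have h7 : (3 * Real.sqrt n) * (3 * Real.sqrt n) < M * v :=
        mul_lt_mul'' (h6.trans_le h3) (h6.trans_le h4) (by positivity) (by positivity)
      have h8 : (0 : ℝ) ≤ n := Nat.cast_nonneg _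
      nlinarith
  have h6 : Real.sqrt n ≤ n / d := by
    rw [le_div_iff₀ hd0]
    nlinarith
  have h7 : (M : ℝ) * v / d ≤ 8 * n / d := div_le_div_of_nonneg_right hMvR hd0.le
  have h8 : 11 * (n : ℝ) / d = 8 * n / d + 3 * (n / d) := by ring
  linarith

/-- the difference -/
noncomputable def V2_f (M u v d : ℕ) (α : ℕ → ℝ) (a : ℕ) : ℝ :=
  |∑ m ∈ Icc 1 M, α m * ∑ q ∈ (Ioc u v).filter (fun q => q.Prime ∧ m * q ≡ a [MOD d]),
      Real.log q -
    1 / (Nat.totient d : ℝ) * ((∑ m ∈ (Icc 1 M).filter (fun m => m.Coprime d), α m) *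
      ∑ q ∈ (Ioc u v).filter (fun q => q.Prime ∧ q.Coprime d), Real.log q)|

theorem V2_mod (M u v d : ℕ) (α : ℕ → ℝ) (a : ℕ) : V2_f M u v d α (a % d) = V2_f M u v d α a := by
  unfold V2_f
  have h : ∀ m, (Ioc u v).filter (fun q => q.Prime ∧ m * q ≡ a % d [MOD d]) =
      (Ioc u v).filter (fun q => q.Prime ∧ m * q ≡ a [MOD d]) := by
    intro m
    apply filter_congr
    intro q _
    rw [Nat.ModEq, Nat.ModEq, Nat.mod_mod]
  simp only [h]

theorem V2_triv (n M u v d : ℕ) (α : ℕ → ℝ) (a : ℕ) (hn : 8 ≤ n) (hL : 500 ≤ Real.log n)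
    (hα : ∀ m, |α m| ≤ 1) (hM : 1 ≤ M) (hv : 1 ≤ v) (hMv : M * v ≤ 8 * n) (hd : 1 ≤ d)
    (hdn : (d : ℝ) ≤ Real.sqrt n) (ha : a.Coprime d) :
    V2_f M u v d α a ≤ 100 * n * Real.log n * (1 / (Nat.totient d : ℝ)) := by
  have hnR : (8 : ℝ) ≤ n := by exact_mod_cast hn
  have hd0 : (0 : ℝ) < d := by exact_mod_cast hd
  have hphi : (0 : ℝ) < Nat.totient d := by exact_mod_cast Nat.totient_pos.2 (by omega)
  have hphi2 : (Nat.totient d : ℝ) ≤ d := by exact_mod_cast Nat.totient_le d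
  have hvn : v ≤ 8 * n := (Nat.le_mul_of_pos_left v hM).trans hMv
  have hlv : Real.log v ≤ 2 * Real.log n := by
    have h1 : Real.log v ≤ Real.log (8 * n) := Real.log_le_log (by exact_mod_cast hv)
      (by exact_mod_cast hvn)
    rw [Real.log_mul (by norm_num) (by positivity)] at h1
    have h2 : Real.log 8 ≤ Real.log n := Real.log_le_log (by norm_num) hnR
    linarith
  have hlv0 : 0 ≤ Real.log v := Real.log_natCast_nonneg v
  have hMvR : (M : ℝ) * v ≤ 8 * n := by exact_mod_cast hMv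
  have hlq : ∀ q ∈ Ioc u v, 0 ≤ Real.log q ∧ Real.log q ≤ Real.log v := by
    intro q hq
    rw [mem_Ioc] at hq
    refine ⟨Real.log_natCast_nonneg q, ?_⟩
    apply Real.log_le_log
    · have : 0 < q := by omega
      exact_mod_cast this
    · exact_mod_cast hq.2
  -- first sum
  have h1 : |∑ m ∈ Icc 1 M, α m * ∑ q ∈ (Ioc u v).filter (fun q => q.Prime ∧ m * q ≡ a [MOD d]),
      Real.log q| ≤ Real.log v * (11 * n / d) := by
    refine (abs_sum_le_sum_abs _ _).trans ?_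
    refine le_trans ?_ (mul_le_mul_of_nonneg_left (V2_count n d a M v hd hdn ha hMv) hlv0)
    rw [mul_sum]
    apply sum_le_sum
    intro m _
    rw [abs_mul]
    have h2 : |∑ q ∈ (Ioc u v).filter (fun q => q.Prime ∧ m * q ≡ a [MOD d]), Real.log q| ≤
        Real.log v * (((Icc 1 v).filter (fun q => m * q ≡ a [MOD d])).card : ℝ) := by
      rw [abs_of_nonneg (sum_nonneg fun q hq => (hlq q (mem_filter.1 hq).1).1)]
      refine (sum_le_sum fun q hq => (hlq q (mem_filter.1 hq).1).2).trans ?_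
      rw [sum_const, nsmul_eq_mul, mul_comm]
      apply mul_le_mul_of_nonneg_left _ hlv0
      have h3 : ((Ioc u v).filter (fun q => q.Prime ∧ m * q ≡ a [MOD d])).card ≤
          ((Icc 1 v).filter (fun q => m * q ≡ a [MOD d])).card := by
        apply card_le_card
        intro q hq
        rw [mem_filter, mem_Ioc] at hq
        rw [mem_filter, mem_Icc]
        exact ⟨⟨by omega, hq.1.2⟩, hq.2.2⟩
      exact_mod_cast h3
    calc |α m| * |∑ q ∈ (Ioc u v).filter (fun q => q.Prime ∧ m * q ≡ a [MOD d]), Real.log q|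
        ≤ 1 * (Real.log v * (((Icc 1 v).filter (fun q => m * q ≡ a [MOD d])).card : ℝ)) :=
          mul_le_mul (hα m) h2 (abs_nonneg _) (by norm_num)
      _ = _ := one_mul _
  -- main term
  have h2 : |1 / (Nat.totient d : ℝ) * ((∑ m ∈ (Icc 1 M).filter (fun m => m.Coprime d), α m) *
      ∑ q ∈ (Ioc u v).filter (fun q => q.Prime ∧ q.Coprime d), Real.log q)| ≤
      1 / (Nat.totient d : ℝ) * (M * (v * Real.log v)) := by
    rw [abs_mul, abs_mul, abs_of_nonneg (by positivity : (0 : ℝ) ≤ 1 / (Nat.totient d : ℝ))]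
    apply mul_le_mul_of_nonneg_left _ (by positivity)
    apply mul_le_mul _ _ (abs_nonneg _) (Nat.cast_nonneg _)
    · refine (abs_sum_le_sum_abs _ _).trans ((sum_le_sum fun m _ => hα m).trans ?_)
      rw [sum_const, nsmul_eq_mul, mul_one]
      have h3 : ((Icc 1 M).filter (fun m => m.Coprime d)).card ≤ M := by
        refine (card_filter_le _ _).trans ?_
        rw [Nat.card_Icc]
        omega
      exact_mod_cast h3
    · rw [abs_of_nonneg (sum_nonneg fun q hq => (hlq q (mem_filter.1 hq).1).1)]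
      refine (sum_le_sum fun q hq => (hlq q (mem_filter.1 hq).1).2).trans ?_
      rw [sum_const, nsmul_eq_mul]
      apply mul_le_mul_of_nonneg_right _ hlv0
      have h3 : ((Ioc u v).filter (fun q => q.Prime ∧ q.Coprime d)).card ≤ v := by
        refine (card_filter_le _ _).trans ?_
        rw [Nat.card_Ioc]
        omega
      exact_mod_cast h3
  unfold V2_f
  refine (abs_sub _ _).trans ((add_le_add h1 h2).trans ?_)
  have h3 : Real.log v * (11 * n / d) ≤ 22 * (n * Real.log n * (1 / (Nat.totient d : ℝ))) := by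
    have h4 : 11 * (n : ℝ) / d ≤ 11 * n / Nat.totient d :=
      div_le_div_of_nonneg_left (by positivity) hphi hphi2
    calc Real.log v * (11 * n / d) ≤ (2 * Real.log n) * (11 * n / Nat.totient d) :=
          mul_le_mul hlv h4 (by positivity) (by linarith)
      _ = _ := by ring
  have h4 : 1 / (Nat.totient d : ℝ) * (M * (v * Real.log v)) ≤
      16 * (n * Real.log n * (1 / (Nat.totient d : ℝ))) := by
    have h5 : (M : ℝ) * (v * Real.log v) ≤ 8 * n * (2 * Real.log n) := by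
      rw [← mul_assoc]
      exact mul_le_mul hMvR hlv hlv0 (by positivity)
    calc 1 / (Nat.totient d : ℝ) * (M * (v * Real.log v)) ≤
        1 / (Nat.totient d : ℝ) * (8 * n * (2 * Real.log n)) :=
          mul_le_mul_of_nonneg_left h5 (by positivity)
      _ = _ := by ring
  have h5 : 0 ≤ (n : ℝ) * Real.log n * (1 / (Nat.totient d : ℝ)) := by
    have : 0 < Real.log n := by linarith
    positivity
  linarith

/-- Proof. As for `bvw` (file V1, not imported), from `bv_bilf`: `rr d` = the maximum of the left side over the classes `a < d` prime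
to `d`. Trivial bound: the number of pairs `(m, q)`, `m ≤ M`, `u < q ≤ v`, `m q ≡ a mod d`, weighted with `log q ≤ 2 L`, is at most
`2 L ∑_{k ≤ 8 n, k ≡ a (d)} τ(k)`; to avoid the divisor function: for every `m` prime to `d` the `q ≤ v` with `m q ≡ a` are in one
class mod `d`, at most `v/d + 1` of them, and for every `q` prime to `d` at most `M/d + 1` of the `m`
(if `m` is not prime to `d` there is no solution, as `a` is prime to `d`). So the count is `≤ min (M (v/d + 1), v (M/d + 1))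
≤ M v/d + min (M, v) ≤ 8 n/d + √(8 n)`, and `d ≤ √n`: at most `12 n/d`. The main term is `≤ M v log v/φ(d)`. So
`rr d ≤ 100 n L/φ(d)`. Cauchy-Schwarz as in V1. -/
theorem bilw (A E : ℕ) : ∃ A' B n0 : ℕ, ∀ n : ℕ, n0 ≤ n → ∀ p1 : ℕ, SWp A' n p1 →
    ∀ (M u v : ℕ) (α : ℕ → ℝ), (∀ m, |α m| ≤ 1) → (n : ℝ) ^ (1 / 4 : ℝ) ≤ M →
    (n : ℝ) ^ (1 / 4 : ℝ) ≤ v → u ≤ v → M * v ≤ 8 * n → ∃ rr : ℕ → ℝ, (∀ d, 0 ≤ rr d) ∧
      (∀ d, 1 ≤ d → d ≤ DD n B → ¬ p1 ∣ d → ∀ a : ℕ, a.Coprime d →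
        |∑ m ∈ Icc 1 M, α m * ∑ q ∈ (Ioc u v).filter (fun q => q.Prime ∧ m * q ≡ a [MOD d]),
            Real.log q -
          1 / (Nat.totient d : ℝ) * ((∑ m ∈ (Icc 1 M).filter (fun m => m.Coprime d), α m) *
            ∑ q ∈ (Ioc u v).filter (fun q => q.Prime ∧ q.Coprime d), Real.log q)| ≤ rr d) ∧
      ∑ d ∈ (Icc 1 (DD n B)).filter (fun d => ¬ p1 ∣ d),
        (E : ℝ) ^ d.primeFactors.card * rr d ≤ n / Real.log n ^ A := by
  obtain ⟨A', B, n0, hbv⟩ := bv_bilf (2 * A + 4 * E ^ 2 + 10)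
  obtain ⟨n1, hn1, hlog⟩ := V1_ev
  refine ⟨A', B, max n0 n1, fun n hn p1 hSW M u v α hα hM hv huv hMv => ?_⟩
  have hn8 : 8 ≤ n := hn1.trans ((le_max_right _ _).trans hn)
  have hL := hlog n ((le_max_right _ _).trans hn)
  have hnR : (8 : ℝ) ≤ n := by exact_mod_cast hn8
  have hn4 : (1 : ℝ) ≤ (n : ℝ) ^ (1 / 4 : ℝ) := Real.one_le_rpow (by linarith) (by norm_num)
  have hM1 : 1 ≤ M := by exact_mod_cast hn4.trans hM
  have hv1 : 1 ≤ v := by exact_mod_cast hn4.trans hv
  have hex : ∀ d : ℕ, 1 ≤ d → ∃ a0 : ℕ, a0.Coprime d ∧ ∀ a : ℕ, a.Coprime d →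
      V2_f M u v d α a ≤ V2_f M u v d α a0 :=
    fun d hd => V1_max d hd (V2_f M u v d α) (V2_mod M u v d α)
  choose! a ha hmax using hex
  refine ⟨fun d => V2_f M u v d α (a d), fun _ => abs_nonneg _,
    fun d hd _ _ b hb => hmax d hd b hb, ?_⟩
  have hDs : (DD n B : ℝ) ≤ Real.sqrt n := by
    unfold DD
    refine (Nat.floor_le (by positivity)).trans ?_
    exact div_le_self (Real.sqrt_nonneg _) (one_le_pow₀ (by linarith))
  have hDn : DD n B ≤ n := by
    have h1 : Real.sqrt n ≤ n := by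
      rw [Real.sqrt_le_left (by linarith)]
      nlinarith
    exact_mod_cast hDs.trans h1
  have hsub : (Icc 1 (DD n B)).filter (fun d => ¬ p1 ∣ d) ⊆ Icc 1 n := by
    intro d hd
    rw [mem_filter, mem_Icc] at hd
    rw [mem_Icc]
    exact ⟨hd.1.1, hd.1.2.trans hDn⟩
  have hb1 : ∑ d ∈ (Icc 1 (DD n B)).filter (fun d => ¬ p1 ∣ d), V2_f M u v d α (a d) ≤
      n / Real.log n ^ (2 * A + 4 * E ^ 2 + 10) := by
    have h1 := hbv n ((le_max_left _ _).trans hn) p1 hSW a M u v α hα hM hv huv hMv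
    have h2 : (Icc 1 (DD n B)).filter (fun d => (a d).Coprime d ∧ ¬ p1 ∣ d) =
        (Icc 1 (DD n B)).filter (fun d => ¬ p1 ∣ d) := by
      apply filter_congr
      intro d hd
      rw [mem_Icc] at hd
      exact ⟨fun h => h.2, fun h => ⟨ha d hd.1, h⟩⟩
    rwa [h2] at h1
  have hb2 : ∀ d ∈ (Icc 1 (DD n B)).filter (fun d => ¬ p1 ∣ d),
      V2_f M u v d α (a d) ≤ 100 * n * Real.log n * (1 / (Nat.totient d : ℝ)) := by
    intro d hd
    have hd' := mem_Icc.1 (hsub hd)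
    rw [mem_filter, mem_Icc] at hd
    have hdn : (d : ℝ) ≤ Real.sqrt n := le_trans (by exact_mod_cast hd.1.2) hDs
    exact V2_triv n M u v d α (a d) hn8 hL hα hM1 hv1 hMv hd'.1 hdn (ha d hd'.1)
  have hcs := V1_cs E n (by omega) _ hsub
    (fun d => V2_f M u v d α (a d)) (fun _ => abs_nonneg _)
    (100 * n * Real.log n) _ (by
      have : 0 ≤ Real.log n := by linarith
      positivity) hb1 hb2
  exact V1_num A E n (Real.log n) _ (by linarith) hL hcs

end Pool.Agent.Lib.H57C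
end

-- from Lib.H57C.V3
section

/-!
# Chunk V3: level of distribution of the `t` with `t + h` prime
-/

open Finset

namespace Pool.Agent.Lib.H57C

open Pool.Agent.Lib.H59C

/-- the product of `1/(q-1)` -/
theorem V3_gq (m : ℕ) (hm : Squarefree m) :
    ∏ q ∈ m.primeFactors, gq q = 1 / (Nat.totient m : ℝ) := by
  have h1 : Nat.totient m = ∏ q ∈ m.primeFactors, (q - 1) := by
    have h2 := Nat.totient_mul_prod_primeFactors m
    rw [Nat.prod_primeFactors_of_squarefree hm, mul_comm] at h2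
    exact Nat.eq_of_mul_eq_mul_left (Nat.pos_of_ne_zero hm.ne_zero) h2
  rw [h1]
  push_cast
  rw [one_div, ← prod_inv_distrib]
  apply prod_congr rfl
  intro q hq
  have h3 := (Nat.prime_of_mem_primeFactors hq).one_le
  unfold gq
  rw [one_div, Nat.cast_sub h3, Nat.cast_one]

theorem V3_coprime (a m : ℕ) (hm : m ≠ 0) (h : ∀ q ∈ m.primeFactors, ¬ q ∣ a) : a.Coprime m := by
  by_contra hc
  obtain ⟨q, hq, ha, hqm⟩ := Nat.Prime.not_coprime_iff_dvd.1 hc
  exact h q (Nat.mem_primeFactors.2 ⟨hq, hqm, hm⟩) ha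

theorem V3_sum (m h y1 y2 c : ℕ) (hy : h ≤ y1) (h12 : y1 ≤ y2) :
    ∑ p ∈ (Sq y1 y2).filter (fun p => p - h ≡ c [MOD m]), lg p =
      thp y2 m (c + h) - thp y1 m (c + h) := by
  have h0 : ∀ p ∈ Ioc y1 y2, (p - h ≡ c [MOD m] ↔ p ≡ c + h [MOD m]) := by
    intro p hp
    rw [mem_Ioc] at hp
    have h3 : p - h + h = p := by omega
    constructor
    · intro h1
      have h2 := Nat.ModEq.add_right h h1
      rwa [h3] at h2
    · intro h1
      rw [← h3] at h1
      exact Nat.ModEq.add_right_cancel' h h1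
  unfold thp Sq lg
  rw [filter_filter]
  have h1 : (Icc 1 y2).filter (fun q => q.Prime ∧ q ≡ c + h [MOD m]) =
      (Icc 1 y1).filter (fun q => q.Prime ∧ q ≡ c + h [MOD m]) ∪
        (Ioc y1 y2).filter (fun q => q.Prime ∧ q ≡ c + h [MOD m]) := by
    ext q
    simp only [mem_filter, mem_Icc, mem_union, mem_Ioc]
    constructor
    · rintro ⟨⟨h1, h2⟩, h3⟩
      rcases le_or_gt q y1 with h4 | h4
      · left; exact ⟨⟨h1, h4⟩, h3⟩
      · right; exact ⟨⟨h4, h2⟩, h3⟩
    · rintro (⟨⟨h1, h2⟩, h3⟩ | ⟨⟨h1, h2⟩, h3⟩)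
      · exact ⟨⟨h1, by omega⟩, h3⟩
      · exact ⟨⟨by omega, h2⟩, h3⟩
  have h2 : Disjoint ((Icc 1 y1).filter (fun q => q.Prime ∧ q ≡ c + h [MOD m]))
      ((Ioc y1 y2).filter (fun q => q.Prime ∧ q ≡ c + h [MOD m])) := by
    rw [Finset.disjoint_left]
    intro q hq hq'
    simp only [mem_filter, mem_Icc, mem_Ioc] at hq hq'
    omega
  rw [h1, sum_union h2]
  have h3 : (Ioc y1 y2).filter (fun a => a.Prime ∧ a - h ≡ c [MOD m]) =
      (Ioc y1 y2).filter (fun q => q.Prime ∧ q ≡ c + h [MOD m]) := by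
    apply filter_congr
    intro p hp
    rw [h0 p hp]
  rw [h3]
  ring

/-- Proof. `bvw (A + 1) E` at `y2` and at `y1`, `rr = rr_2 + rr_1`. For `m` squarefree and a class `c` with `¬ q ∣ c + h` for all
`q ∣ m`: `(c + h).Coprime m`; for a prime `p ∈ (y1, y2]`, `p ≥ h`: `p - h ≡ c` iff `p ≡ c + h [MOD m]`, so the sum is
`thp y2 m (c + h) - thp y1 m (c + h)`, `XX y1 y2 = th y2 - th y1` (`XX_eq`), and `∏_{q ∣ m} gq q = 1/φ(m)` (`m` squarefree,
`Nat.totient_eq_prod_factorization` or `Nat.prod_primeFactors_of_squarefree`). `2 n/L^(A+1) ≤ n/L^A`. -/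
theorem lvlB (A E : ℕ) : ∃ A' B n0 : ℕ, ∀ n : ℕ, n0 ≤ n → ∀ p1 : ℕ, SWp A' n p1 →
    ∀ h y1 y2 : ℕ, h ≤ y1 → y1 ≤ y2 → y2 ≤ 2 * n →
      Lvl (sB h y1 y2) p1 (DD n B) E (n / Real.log n ^ A) := by
  obtain ⟨A', B, n0, hbv⟩ := bvw (A + 1) E
  obtain ⟨n1, hn1, hlog⟩ := V1_ev
  refine ⟨A', B, max n0 n1, fun n hn p1 hSW h y1 y2 hy h12 hy2 => ?_⟩
  have hL := hlog n ((le_max_right _ _).trans hn)
  obtain ⟨r1, h01, hr1, hs1⟩ := hbv n ((le_max_left _ _).trans hn) p1 hSW y1 (by omega)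
  obtain ⟨r2, h02, hr2, hs2⟩ := hbv n ((le_max_left _ _).trans hn) p1 hSW y2 (by omega)
  refine ⟨fun d => r1 d + r2 d, fun d => add_nonneg (h01 d) (h02 d), ?_, ?_⟩
  · intro m hm hmD hp1 c hc
    have hm1 : 1 ≤ m := Nat.pos_of_ne_zero hm.ne_zero
    have hcop : (c + h).Coprime m := V3_coprime _ _ hm.ne_zero hc
    have e1 := hr1 m hm1 hmD hp1 _ hcop
    have e2 := hr2 m hm1 hmD hp1 _ hcop
    have e3 : ∑ i ∈ (sB h y1 y2).S.filter (fun i => (sB h y1 y2).x i ≡ c [MOD m]),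
        (sB h y1 y2).wt i - (sB h y1 y2).X * ∏ q ∈ m.primeFactors, (sB h y1 y2).hd q =
        (thp y2 m (c + h) - th y2 / (Nat.totient m : ℝ)) -
          (thp y1 m (c + h) - th y1 / (Nat.totient m : ℝ)) := by
      change ∑ p ∈ (Sq y1 y2).filter (fun p => p - h ≡ c [MOD m]), lg p -
        XX y1 y2 * ∏ q ∈ m.primeFactors, gq q = _
      rw [V3_sum m h y1 y2 c hy h12, V3_gq m hm, XX_eq h12]
      ring
    rw [e3]
    refine (abs_sub _ _).trans ((add_le_add e2 e1).trans ?_)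
    rw [add_comm]
  · have e1 : ∑ m ∈ (Icc 1 (DD n B)).filter (fun m => Squarefree m ∧ ¬ p1 ∣ m),
        (E : ℝ) ^ m.primeFactors.card * (r1 m + r2 m) ≤
        ∑ m ∈ (Icc 1 (DD n B)).filter (fun m => ¬ p1 ∣ m),
          (E : ℝ) ^ m.primeFactors.card * (r1 m + r2 m) := by
      apply sum_le_sum_of_subset_of_nonneg
      · exact monotone_filter_right _ fun m _ hm => hm.2
      · intro m _ _
        have := h01 m
        have := h02 m
        positivity
    refine e1.trans ?_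
    simp only [mul_add]
    rw [sum_add_distrib]
    refine (add_le_add hs1 hs2).trans ?_
    have hL0 : 0 < Real.log n := by linarith
    have e2 : (n : ℝ) / Real.log n ^ (A + 1) + n / Real.log n ^ (A + 1) =
        n / Real.log n ^ A * (2 / Real.log n) := by
      rw [pow_succ]
      field_simp
      ring
    rw [e2]
    have e3 : 2 / Real.log n ≤ 1 := by
      rw [div_le_one hL0]
      linarith
    calc (n : ℝ) / Real.log n ^ A * (2 / Real.log n) ≤ n / Real.log n ^ A * 1 :=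
          mul_le_mul_of_nonneg_left e3 (by positivity)
      _ = _ := mul_one _

end Pool.Agent.Lib.H57C
end

-- from Lib.H57C.V4
section

/-!
# Chunk V4: level of distribution of the switched sequence
-/

open Finset

namespace Pool.Agent.Lib.H57C

open Pool.Agent.Lib.H59C

theorem V4_cast (n m : ℕ) (hm1 : 1 ≤ m) (hmn : m ≤ n) : ((n.factorial - 1 : ℕ) : ZMod m) = -1 := by
  have h1 : ((n.factorial : ℕ) : ZMod m) = 0 :=
    (ZMod.natCast_eq_zero_iff _ _).2 (Nat.dvd_factorial hm1 hmn)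
  rw [Nat.cast_sub (Nat.factorial_pos n), h1]
  simp

theorem V4_iff (n m : ℕ) (hm1 : 1 ≤ m) (hmn : m ≤ n) (x : ℕ × ℕ) (c : ℕ) :
    xv n x ≡ c [MOD m] ↔ x.1 * x.2 ≡ n + (n.factorial - 1) * c [MOD m] := by
  rw [← ZMod.natCast_eq_natCast_iff, ← ZMod.natCast_eq_natCast_iff]
  unfold xv
  rw [Nat.cast_add, Nat.cast_mul (n.factorial - 1), Nat.cast_add, Nat.cast_mul (n.factorial - 1),
    V4_cast n m hm1 hmn]
  constructor
  · intro h
    linear_combination -h
  · intro h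
    linear_combination -h

theorem V4_cop (n m c : ℕ) (hm : Squarefree m) (hmn : m ≤ n)
    (hc : ∀ q ∈ m.primeFactors, ¬ c ≡ n [MOD q]) : (n + (n.factorial - 1) * c).Coprime m := by
  refine V3_coprime _ _ hm.ne_zero ?_
  intro q hq hd
  apply hc q hq
  have hq' := Nat.mem_primeFactors.1 hq
  have hqn : q ≤ n := (Nat.le_of_dvd (Nat.pos_of_ne_zero hm.ne_zero) hq'.2.1).trans hmn
  have h1 := (ZMod.natCast_eq_zero_iff _ _).2 hd
  rw [Nat.cast_add, Nat.cast_mul, V4_cast n q hq'.1.one_le hqn] at h1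
  rw [← ZMod.natCast_eq_natCast_iff]
  linear_combination -h1

open Classical in
theorem V4_S (n M u v m c a : ℕ) (α : ℕ → ℝ)
    (h : ∀ x : ℕ × ℕ, xv n x ≡ c [MOD m] ↔ x.1 * x.2 ≡ a [MOD m]) :
    ∑ x ∈ (BX M u v).filter (fun x => xv n x ≡ c [MOD m]), wB α x =
      ∑ k ∈ Icc 1 M, α k * ∑ q ∈ (Ioc u v).filter (fun q => q.Prime ∧ k * q ≡ a [MOD m]),
        Real.log q := by
  unfold BX
  rw [sum_filter, sum_product]
  refine sum_congr rfl fun k _ => ?_
  unfold Sq wB lg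
  rw [mul_sum, ← filter_filter, sum_filter (s := (Ioc u v).filter Nat.Prime)]
  refine sum_congr rfl fun q _ => ?_
  by_cases hq : k * q ≡ a [MOD m]
  · rw [if_pos hq, if_pos ((h (k, q)).2 hq)]
  · rw [if_neg hq, if_neg (fun h' => hq ((h (k, q)).1 h'))]

/-- Proof. `bilw (A + 1) E`. Let `m ≤ DD n B` be squarefree (so `m ≤ n`, `m ∣ n!`), `c` a class with `¬ c ≡ n [MOD q]` for all
`q ∣ m`. `xv n x = n + (n! - 1) x1 x2 ≡ c` mod `m` iff `x1 x2 ≡ a`, `a = n + (n! - 1) c` (both sides times `-1 ≡ n! - 1`), and `a` is prime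
to `m` (`a ≡ n - c`). So the sum over the class is the sum of `bilw` (`CBR_S`-like), and the main terms
`XB M u v α/φ(m)` and `(1/φ(m)) (∑_{(m',m)=1} α)(∑_{(q,m)=1} log q)` differ by at most `(1/φ(m)) 40 (log n)^2 n^(9/10)`
(`CBR_A`, `CBR_Q`, `CBR_main`, `CBR_num` in `H59C/CBR.lean`, with `y = n^(1/10)`). So `rr m = rr_bil m + 40 L^2 n^(9/10)/φ(m)`,
and `∑_{m ≤ n} E^ω(m)/φ(m) ≤ n^(1/100)` for large `n` (as in V1, or `E^ω(m) ≤ C m^(1/1000)`). -/
theorem lvlC (A E : ℕ) : ∃ A' B n0 : ℕ, ∀ n : ℕ, n0 ≤ n → ∀ p1 : ℕ, p1.Prime → SWp A' n p1 →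
    ∀ (M u v : ℕ) (α : ℕ → ℝ), (∀ m, 0 ≤ α m ∧ α m ≤ 1) →
    (∀ m, α m ≠ 0 → ∀ r : ℕ, r.Prime → r ∣ m → (n : ℝ) ^ (1 / 10 : ℝ) ≤ r) →
    (n : ℝ) ^ (1 / 4 : ℝ) ≤ M → (n : ℝ) ^ (1 / 4 : ℝ) ≤ v → u ≤ v → M * v ≤ 8 * n →
      Lvl (sC n M u v α) p1 (DD n B) E (n / Real.log n ^ A) := by
  obtain ⟨A', B, n1, hbil⟩ := bilw (A + 1) E
  obtain ⟨n2, hn2⟩ := bv2_large 500 (A + 4 * E + 6)
  refine ⟨A', B, max n1 (max n2 8), fun n hn p1 hp1 hSW M u v α hα hαr hM hv huv hMv => ?_⟩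
  have hn1' : n1 ≤ n := (le_max_left _ _).trans hn
  have hn2' : n2 ≤ n := ((le_max_left _ _).trans (le_max_right _ _)).trans hn
  have hn8 : 8 ≤ n := ((le_max_right _ _).trans (le_max_right _ _)).trans hn
  obtain ⟨hL, hLn⟩ := hn2 n hn2'
  have hn1 : (1 : ℝ) ≤ n := by
    have : 1 ≤ n := by omega
    exact_mod_cast this
  have hn0 : (0 : ℝ) < n := by linarith
  obtain ⟨rb, hrb0, hrb, hrbs⟩ := hbil n hn1' p1 hSW M u v α (fun m => by
    rw [abs_of_nonneg (hα m).1]; exact (hα m).2) hM hv huv hMv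
  set D := DD n B with hD
  set L := Real.log n with hLdef
  have hL0 : 0 < L := by linarith
  have hDn : D ≤ n := by
    have h1 : (D : ℝ) ≤ Real.sqrt n / L ^ B := by
      rw [hD]
      unfold DD
      exact Nat.floor_le (by positivity)
    have h2 : Real.sqrt n / L ^ B ≤ Real.sqrt n :=
      div_le_self (Real.sqrt_nonneg _) (one_le_pow₀ (by linarith))
    have h3 : Real.sqrt n ≤ n := by
      rw [Real.sqrt_le_left (by linarith)]
      nlinarith
    have h4 : (D : ℝ) ≤ n := by linarith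
    exact_mod_cast h4
  set W : ℝ := 40 * L ^ 2 * ((n : ℝ) / (n : ℝ) ^ (1 / 10 : ℝ)) with hW
  have hW0 : 0 ≤ W := by positivity
  refine ⟨fun m => rb m + 1 / (Nat.totient m : ℝ) * W, fun m => add_nonneg (hrb0 m)
    (by positivity), ?_, ?_⟩
  · intro m hm hmD hpm c hc
    have hd1 : 1 ≤ m := Nat.pos_of_ne_zero hm.ne_zero
    have hmn : m ≤ n := hmD.trans hDn
    obtain ⟨a, ha⟩ : ∃ a : ℕ, a = n + (n.factorial - 1) * c := ⟨_, rfl⟩
    have ha1 : ∀ x : ℕ × ℕ, xv n x ≡ c [MOD m] ↔ x.1 * x.2 ≡ a [MOD m] := by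
      intro x
      rw [ha]
      exact V4_iff n m hd1 hmn x c
    have hcop : a.Coprime m := by
      rw [ha]
      exact V4_cop n m c hm hmn hc
    have hb := hrb m hd1 hmD hpm a hcop
    have hph : (0 : ℝ) < Nat.totient m := by exact_mod_cast Nat.totient_pos.2 hd1
    have hAd0 : 0 ≤ ∑ k ∈ (Icc 1 M).filter (fun k => k.Coprime m), α k :=
      sum_nonneg fun k _ => (hα k).1
    have hAdM : ∑ k ∈ (Icc 1 M).filter (fun k => k.Coprime m), α k ≤ M := by
      refine (sum_le_sum fun k _ => (hα k).2).trans ?_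
      rw [sum_const, nsmul_eq_mul, mul_one]
      have : ((Icc 1 M).filter (fun k => k.Coprime m)).card ≤ M := by
        refine (card_filter_le _ _).trans ?_
        simp
      exact_mod_cast this
    have hAA : 0 ≤ ∑ k ∈ Icc 1 M, α k - ∑ k ∈ (Icc 1 M).filter (fun k => k.Coprime m), α k := by
      rw [sub_nonneg]
      exact sum_le_sum_of_subset_of_nonneg (filter_subset _ _) fun k _ _ => (hα k).1
    have hAA' := CBR_A M m hd1 α hα ((n : ℝ) ^ (1 / 10 : ℝ)) (Real.rpow_pos_of_pos hn0 _) hαr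
    obtain ⟨hQ1, hQ2⟩ := CBR_Q u v m hd1
    have hmain := CBR_main hAA (by convert hAA' using 2) (CBR_XX_nonneg u v)
      (by convert hQ1 using 2) (by convert hQ2 using 2) hAd0 hAdM
    have hnum := CBR_num hn8 (by linarith) hd1 hmn hv hMv u huv
    have hm2 := hmain.trans hnum
    have hS : ∑ x ∈ (sC n M u v α).S.filter (fun x => (sC n M u v α).x x ≡ c [MOD m]),
        (sC n M u v α).wt x = ∑ k ∈ Icc 1 M, α k *
          ∑ q ∈ (Ioc u v).filter (fun q => q.Prime ∧ k * q ≡ a [MOD m]), Real.log q := by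
      have h := V4_S n M u v m c a α ha1
      change ∑ x ∈ (BX M u v).filter (fun x => xv n x ≡ c [MOD m]), wB α x = _
      convert h using 2
    have hprod : (sC n M u v α).X * ∏ q ∈ m.primeFactors, (sC n M u v α).hd q =
        H59C.XB M u v α / (Nat.totient m : ℝ) := by
      change H59C.XB M u v α * ∏ q ∈ m.primeFactors, gq q = _
      rw [V3_gq m hm]
      ring
    rw [hS, hprod]
    set S := ∑ k ∈ Icc 1 M, α k *
      ∑ q ∈ (Ioc u v).filter (fun q => q.Prime ∧ k * q ≡ a [MOD m]), Real.log q with hSd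
    set Ad := ∑ k ∈ (Icc 1 M).filter (fun k => k.Coprime m), α k with hAdd
    set Qd := ∑ q ∈ (Ioc u v).filter (fun q => q.Prime ∧ q.Coprime m), Real.log q with hQdd
    have e : S - H59C.XB M u v α / (Nat.totient m : ℝ) =
        (S - 1 / (Nat.totient m : ℝ) * (Ad * Qd)) -
        1 / (Nat.totient m : ℝ) * ((∑ k ∈ Icc 1 M, α k) * XX u v - Ad * Qd) := by
      unfold H59C.XB
      ring
    rw [e]
    refine (abs_sub _ _).trans ?_
    apply add_le_add
    · exact hb
    · rw [abs_mul, abs_of_nonneg (by positivity : (0 : ℝ) ≤ 1 / (Nat.totient m : ℝ))]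
      exact mul_le_mul_of_nonneg_left hm2 (by positivity)
  · have e1 : ∑ m ∈ (Icc 1 D).filter (fun m => Squarefree m ∧ ¬ p1 ∣ m),
        (E : ℝ) ^ m.primeFactors.card * (rb m + 1 / (Nat.totient m : ℝ) * W) ≤
        ∑ m ∈ (Icc 1 D).filter (fun m => ¬ p1 ∣ m),
          (E : ℝ) ^ m.primeFactors.card * (rb m + 1 / (Nat.totient m : ℝ) * W) := by
      apply sum_le_sum_of_subset_of_nonneg
      · exact monotone_filter_right _ fun m _ hm => hm.2
      · intro m _ _
        have := hrb0 m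
        positivity
    refine e1.trans ?_
    simp only [mul_add]
    rw [sum_add_distrib]
    have e2 : ∑ m ∈ (Icc 1 D).filter (fun m => ¬ p1 ∣ m),
        (E : ℝ) ^ m.primeFactors.card * (1 / (Nat.totient m : ℝ) * W) ≤
        ((1 + L) * (500 * L) ^ (2 * E)) * W := by
      have h1 : ∀ m ∈ (Icc 1 D).filter (fun m => ¬ p1 ∣ m),
          (E : ℝ) ^ m.primeFactors.card * (1 / (Nat.totient m : ℝ) * W) =
          (E : ℝ) ^ m.primeFactors.card / (Nat.totient m : ℝ) * W := by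
        intro m _
        ring
      rw [sum_congr rfl h1, ← sum_mul]
      apply mul_le_mul_of_nonneg_right _ hW0
      refine le_trans ?_ (V1_w E n (by omega))
      apply sum_le_sum_of_subset_of_nonneg
      · intro m hm
        rw [mem_filter, mem_Icc] at hm
        rw [mem_Icc]
        exact ⟨hm.1.1, hm.1.2.trans hDn⟩
      · intro m _ _
        positivity
    refine (add_le_add hrbs e2).trans ?_
    have h3 : ((1 + L) * (500 * L) ^ (2 * E)) * W ≤ n / L ^ (A + 1) := by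
      have hy0 : (0 : ℝ) < (n : ℝ) ^ (1 / 10 : ℝ) := Real.rpow_pos_of_pos hn0 _
      have h4 : (n : ℝ) ^ (1 / 20 : ℝ) ≤ (n : ℝ) ^ (1 / 10 : ℝ) :=
        Real.rpow_le_rpow_of_exponent_le hn1 (by norm_num)
      have h5 : ((1 + L) * (500 * L) ^ (2 * E)) * (40 * L ^ 2) * L ^ (A + 1) ≤
          (n : ℝ) ^ (1 / 10 : ℝ) := by
        have h6 : (1 + L) * (500 * L) ^ (2 * E) ≤ L ^ 2 * (L ^ 2) ^ (2 * E) := by
          apply mul_le_mul _ _ (by positivity) (by positivity)
          · nlinarith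
          · apply pow_le_pow_left₀ (by positivity)
            nlinarith
        calc ((1 + L) * (500 * L) ^ (2 * E)) * (40 * L ^ 2) * L ^ (A + 1)
            ≤ (L ^ 2 * (L ^ 2) ^ (2 * E)) * (L * L ^ 2) * L ^ (A + 1) := by
              apply mul_le_mul_of_nonneg_right _ (by positivity)
              apply mul_le_mul h6 _ (by positivity) (by positivity)
              apply mul_le_mul_of_nonneg_right _ (by positivity)
              linarith
          _ = 1 * L ^ (A + 4 * E + 6) := by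
              rw [← pow_mul]
              ring
          _ ≤ 500 * L ^ (A + 4 * E + 6) :=
              mul_le_mul_of_nonneg_right (by norm_num) (by positivity)
          _ ≤ _ := hLn.trans h4
      rw [hW, le_div_iff₀ (by positivity)]
      calc (1 + L) * (500 * L) ^ (2 * E) * (40 * L ^ 2 * ((n : ℝ) / (n : ℝ) ^ (1 / 10 : ℝ))) *
            L ^ (A + 1) = (((1 + L) * (500 * L) ^ (2 * E)) * (40 * L ^ 2) * L ^ (A + 1)) *
              ((n : ℝ) / (n : ℝ) ^ (1 / 10 : ℝ)) := by ring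
        _ ≤ (n : ℝ) ^ (1 / 10 : ℝ) * ((n : ℝ) / (n : ℝ) ^ (1 / 10 : ℝ)) :=
            mul_le_mul_of_nonneg_right h5 (by positivity)
        _ = n := by rw [mul_comm, div_mul_cancel₀ _ hy0.ne']
    have e2' : (n : ℝ) / L ^ (A + 1) + n / L ^ (A + 1) = n / L ^ A * (2 / L) := by
      rw [pow_succ]
      field_simp
      ring
    have e3 : 2 / L ≤ 1 := by
      rw [div_le_one hL0]
      linarith
    calc (n : ℝ) / L ^ (A + 1) + ((1 + L) * (500 * L) ^ (2 * E)) * W ≤
          (n : ℝ) / L ^ (A + 1) + n / L ^ (A + 1) := by linarith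
      _ = n / L ^ A * (2 / L) := e2'
      _ ≤ n / L ^ A * 1 := mul_le_mul_of_nonneg_left e3 (by positivity)
      _ = _ := mul_one _

end Pool.Agent.Lib.H57C
end
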