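import Pool.Agent.Lib.H1M.RV3.M006
import Pool.Agent.Lib.H1M.RV3.M009
import Pool.Agent.Lib.H1M.RV3.M013
import Pool.Agent.Lib.H1M.RV3.M019
import Pool.Agent.Lib.H1M.RV3.M032
import Pool.Agent.Lib.H1M.RV3.M035
import Pool.Agent.Lib.H1M.RV3.M042
import Pool.Agent.Lib.H1M.RV3.M043
import Pool.Agent.Lib.H1M.RV3.M045
import Pool.Agent.Lib.H1M.RV3.M048
import Pool.Agent.Lib.H1M.RV3.M052
import Pool.Agent.Lib.H1M.RV3.M056

/-! Merged copies (to shorten the build) of Lib.H59C.SW1, Lib.H59C.SW2, Lib.H59C.SW4, Lib.H57C.V6, Lib.H59C.CS2. -/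

-- from Lib.H59C.SW1
section

/-!
# SW1: the logarithmic derivative of a non exceptional L-function
-/

open Finset Metric

namespace Pool.Agent.Lib.H59C

open Pool.Agent.Lib.H68T (PC p0 Rg zero_free_complex zero_free_real vonMangoldt_le local_bound
  INV2_mul INV2_lseries INV2_norm_le INV2_logderiv LFunction_bound)

/-- Control of `-L'/L(s, χ)` in the rectangle `Rg c' Q`. -/
def LogInv (c' C : ℝ) (Q : ℕ) (p : PCh) : Prop :=
  ∃ g : ℂ → ℂ, AnalyticOnNhd ℂ g (Rg c' Q) ∧
    (∀ s : ℂ, 1 < s.re → g s = LSeries (fun n => (ArithmeticFunction.vonMangoldt n : ℂ) *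
      p.2 (n : ZMod p.1)) s) ∧ ∀ s ∈ Rg c' Q, ‖g s‖ ≤ C * Real.log Q

/-- As `H68T.inv_single` (file `H68X/XZ1.lean`, copied from `H68T/INV2.lean`, which bounds `1/L` by means of
`H68T.local_bound`), now for `g = -L'/L`: `local_bound` bounds `deriv f s / f s` as well; for
`Re s > 1` `g` is the L-series of `Λ χ` (`DirichletCharacter.LSeries_twist_vonMangoldt_eq`,
`INV2_logderiv`; compare `log_exc` in `H68X/XZ4.lean`, which treats the exceptional character). -/
theorem log_single (c : ℝ) (hc : 0 < c) : ∃ c' C K : ℝ, 0 < c' ∧ 0 < C ∧ ∀ Q : ℕ, K ≤ Q →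
    ∀ (r : ℕ) [NeZero r] (ψ : DirichletCharacter ℂ r), r ≤ Q → ψ.IsPrimitive → ψ ≠ 1 →
    (ψ ^ 2 = 1 → ∀ σ : ℝ, 1 - c / Real.log Q ≤ σ → σ ≤ 1 → ψ.LFunction (σ : ℂ) ≠ 0) →
    LogInv c' C Q ⟨r, ψ⟩ := by
  obtain ⟨c₁, K₁, hc₁, hZ1⟩ := zero_free_complex
  obtain ⟨c₂, K₂, hc₂, hZ2⟩ := zero_free_real
  obtain ⟨C₀, hC₀, hvM⟩ := vonMangoldt_le
  obtain ⟨A, hA, hloc⟩ := local_bound
  set b : ℝ := min (min c₁ c₂) (min c 1) with hb
  have hb0 : 0 < b := by
    rw [hb]
    exact lt_min (lt_min hc₁ hc₂) (lt_min hc one_pos)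
  have hb1 : b ≤ c₁ := (min_le_left _ _).trans (min_le_left _ _)
  have hb2 : b ≤ c₂ := (min_le_left _ _).trans (min_le_right _ _)
  have hb3 : b ≤ c := (min_le_right _ _).trans (min_le_left _ _)
  have hb4 : b ≤ 1 := (min_le_right _ _).trans (min_le_right _ _)
  set m : ℝ := 16 + 3 / b with hm
  have hm16 : 16 ≤ m := by
    rw [hm]
    have : 0 ≤ 3 / b := by positivity
    linarith
  set E : ℝ := 2 * A * (m + 1) with hE
  refine ⟨b / 3, 2 * A * (m + 1) + (3 / b + C₀), K₁ ⊔ K₂ ⊔ Real.exp (32 + C₀ + 3 / b),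
    by positivity, by positivity, ?_⟩
  intro Q hQ r _ ψ hrQ _hprim hψ hgood
  have hQ1 : K₁ ≤ Q := le_sup_left.trans (le_sup_left.trans hQ)
  have hQ2 : K₂ ≤ Q := le_sup_right.trans (le_sup_left.trans hQ)
  have hQ3 : Real.exp (32 + C₀ + 3 / b) ≤ Q := le_sup_right.trans hQ
  have hQpos : (0 : ℝ) < Q := (Real.exp_pos _).trans_le hQ3
  set L : ℝ := Real.log Q with hL
  have hLge : 32 + C₀ + 3 / b ≤ L := (Real.le_log_iff_exp_le hQpos).2 hQ3
  have h3b : 0 < 3 / b := by positivity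
  have hL32 : 32 ≤ L := by linarith
  have hLpos : 0 < L := by linarith
  have hQexp : (Q : ℝ) = Real.exp L := (Real.exp_log hQpos).symm
  have hQ10 : (10 : ℝ) ≤ Q := by
    rw [hQexp]
    linarith [Real.add_one_le_exp L]
  have hf := DirichletCharacter.differentiable_LFunction hψ
  -- the zeros
  have hzeros : ∀ ρ : ℂ, ψ.LFunction ρ = 0 → |ρ.im| ≤ (Q : ℝ) ^ 12 + 1 → ρ.re < 1 - b / L := by
    intro ρ hρ him
    by_contra hcon
    push Not at hcon
    have hlt : ρ.re < 1 := by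
      by_contra h1
      exact DirichletCharacter.LFunction_ne_zero_of_one_le_re ψ (Or.inl hψ) (not_lt.1 h1) hρ
    by_cases hsq : ψ ^ 2 = 1
    · by_cases him0 : ρ.im = 0
      · have h1 : (ρ.re : ℂ) = ρ := by
          apply Complex.ext
          · simp
          · simp [him0]
        refine hgood hsq ρ.re ?_ hlt.le (by rw [h1]; exact hρ)
        have : b / L ≤ c / L := div_le_div_of_nonneg_right hb3 hLpos.le
        linarith
      · have h1 := hZ2 Q hQ2 r ψ hrQ hψ hsq ρ hρ him0 him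
        have : b / L ≤ c₂ / L := div_le_div_of_nonneg_right hb2 hLpos.le
        linarith
    · have h1 := hZ1 Q hQ1 r ψ hrQ hsq ρ hρ him
      have : b / L ≤ c₁ / L := div_le_div_of_nonneg_right hb1 hLpos.le
      linarith
  have hbL : 0 < b / L := by positivity
  have hb3L : b / 3 / L = b / L / 3 := by ring
  have hne : ∀ s ∈ Rg (b / 3) Q, ψ.LFunction s ≠ 0 := by
    rintro s ⟨h1, _, h3⟩ h0
    rw [← hL, hb3L] at h1
    have := hzeros s h0 (by linarith)
    linarith
  -- the bound to the right of `1`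
  have hright : ∀ s : ℂ, 1 < s.re → ‖(ψ.LFunction s)⁻¹‖ ≤ 1 + 1 / (s.re - 1) := by
    intro s hs
    have h1 := INV2_mul r ψ s hs
    have h2 : (ψ.LFunction s)⁻¹ =
        LSeries (fun n => (ArithmeticFunction.moebius n : ℂ) * ψ (n : ZMod r)) s :=
      inv_eq_of_mul_eq_one_right h1
    rw [h2]
    exact INV2_lseries _ (INV2_norm_le r ψ) s hs
  refine ⟨fun s => -(deriv ψ.LFunction s / ψ.LFunction s), ?_, ?_, ?_⟩
  · intro s hs
    exact (((hf.analyticAt s).deriv).div (hf.analyticAt s) (hne s hs)).neg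
  · intro s hs
    have h1 := DirichletCharacter.LSeries_twist_vonMangoldt_eq ψ hs
    have h2 : ((fun n : ℕ => ψ (n : ZMod r)) * fun n : ℕ => (ArithmeticFunction.vonMangoldt n : ℂ)) =
        fun n : ℕ => (ArithmeticFunction.vonMangoldt n : ℂ) * ψ (n : ZMod r) := by
      funext n
      simp only [Pi.mul_apply]
      ring
    rw [h2, ← DirichletCharacter.deriv_LFunction_eq_deriv_LSeries ψ hs,
      ← DirichletCharacter.LFunction_eq_LSeries ψ hs] at h1
    simp only
    rw [h1]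
    ring
  · rintro s hs
    obtain ⟨hs1, hs2, hs3⟩ := id hs
    rw [← hL, hb3L] at hs1
    rw [← hL, norm_neg]
    have hbase' : ∀ x : ℝ, b / L / 3 ≤ x → 1 / x ≤ 3 / b * L := by
      intro x hx
      rw [div_le_iff₀ (by linarith [show 0 < b / L / 3 by positivity])]
      calc (1 : ℝ) = 3 / b * L * (b / L / 3) := by field_simp
        _ ≤ 3 / b * L * x := mul_le_mul_of_nonneg_left hx (by positivity)
    have hbase : ∀ x : ℝ, b / L / 3 ≤ x → 1 + 1 / x ≤ (1 + 3 / b) * L := by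
      intro x hx
      have h1 := hbase' x hx
      have h2 : (1 + 3 / b) * L = L + 3 / b * L := by ring
      rw [h2]
      linarith
    have hAm : 0 ≤ 2 * A * (m + 1) * L := by positivity
    rcases le_or_gt (1 + b / L / 3) s.re with hcase | hcase
    · -- right part
      have h1 := (INV2_logderiv r ψ s (by linarith [show 0 < b / L / 3 by positivity])).trans
        (hvM s.re (by linarith [show 0 < b / L / 3 by positivity]) hs2)
      have h2 := hbase' (s.re - 1) (by linarith)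
      have h3 : (2 * A * (m + 1) + (3 / b + C₀)) * L =
          2 * A * (m + 1) * L + (3 / b * L + C₀ * L) := by ring
      have h4 : C₀ ≤ C₀ * L := le_mul_of_one_le_right hC₀.le (by linarith)
      rw [h3]
      linarith
    · -- left part
      have hx3 : 0 < b / L / 3 := by positivity
      set s₀ : ℂ := ⟨1 + b / L / 3, s.im⟩ with hs₀
      have hs₀re : s₀.re = 1 + b / L / 3 := rfl
      have hs₀im : s₀.im = s.im := rfl
      have hbL1 : b / L ≤ 1 / 32 := by
        rw [div_le_div_iff₀ hLpos (by norm_num)]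
        linarith
      have hs0gt : 1 < s₀.re := by rw [hs₀re]; linarith
      have hf0 : ψ.LFunction s₀ ≠ 0 :=
        DirichletCharacter.LFunction_ne_zero_of_one_le_re ψ (Or.inl hψ) hs0gt.le
      have hinv0 : ‖(ψ.LFunction s₀)⁻¹‖ ≤ (1 + 3 / b) * L := by
        have h1 := hright s₀ hs0gt
        refine h1.trans (hbase _ ?_)
        rw [hs₀re]
        linarith
      have hf0pos : 0 < ‖ψ.LFunction s₀‖ := norm_pos_iff.2 hf0
      have hnorms₀ : ‖s₀‖ ≤ 2 + (Q : ℝ) ^ 12 := by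
        have h1 := Complex.norm_le_abs_re_add_abs_im s₀
        rw [hs₀re, hs₀im, abs_of_pos (by linarith)] at h1
        linarith
      have hM0 : 0 ≤ m * L := by positivity
      have hres := hloc ψ.LFunction s₀ (1 / 2) (m * L) (2 * (b / L / 3)) (by norm_num) hM0
        (by positivity) (by linarith) (fun z _ => hf.analyticAt z) hf0 ?_ ?_ ?_ s ?_
      · obtain ⟨_, h2, _⟩ := hres
        have h4 : A * (m * L + 1) / (1 / 2) = 2 * A * (m * L + 1) := by ring
        rw [h4] at h2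
        have h5 : 2 * A * (m * L + 1) ≤ 2 * A * ((m + 1) * L) := by
          refine mul_le_mul_of_nonneg_left ?_ (by positivity)
          linarith
        have h6 : (2 * A * (m + 1) + (3 / b + C₀)) * L =
          2 * A * ((m + 1) * L) + (3 / b + C₀) * L := by ring
        have h7 : 0 ≤ (3 / b + C₀) * L := by positivity
        rw [h6]
        linarith
      · -- growth
        intro z hz
        rw [mem_closedBall, dist_eq_norm] at hz
        have hre : 1 / 2 ≤ z.re := by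
          have h1 := Complex.abs_re_le_norm (z - s₀)
          rw [Complex.sub_re, hs₀re] at h1
          have h2 := neg_abs_le (z.re - (1 + b / L / 3))
          linarith
        have h1 := LFunction_bound r ψ hψ z hre
        have h2 : ‖z‖ ≤ ‖s₀‖ + 1 / 2 := by
          have := norm_add_le (z - s₀) s₀
          rw [sub_add_cancel] at this
          linarith
        have h3 : (r : ℝ) ≤ Q := by exact_mod_cast hrQ
        have hQ12 : (10 : ℝ) ^ 12 ≤ (Q : ℝ) ^ 12 := pow_le_pow_left₀ (by norm_num) hQ10 12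
        have h4 : ‖ψ.LFunction z‖ ≤ (Q : ℝ) ^ 14 := by
          calc ‖ψ.LFunction z‖ ≤ 2 * r * ‖z‖ := h1
            _ ≤ 2 * Q * (2 * (Q : ℝ) ^ 12) := by
                refine mul_le_mul (by linarith) ?_ (norm_nonneg _) (by positivity)
                norm_num at hQ12
                linarith
            _ = 4 * (Q : ℝ) ^ 13 := by ring
            _ ≤ Q * (Q : ℝ) ^ 13 := mul_le_mul_of_nonneg_right (by linarith) (by positivity)
            _ = (Q : ℝ) ^ 14 := by ring
        have h5 : 1 ≤ ((1 + 3 / b) * L) * ‖ψ.LFunction s₀‖ := by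
          rw [norm_inv, inv_le_iff_one_le_mul₀ hf0pos] at hinv0
          exact hinv0
        have h6 : (1 + 3 / b) * L ≤ (Q : ℝ) ^ 2 := by
          have h7 : L ≤ Q := by
            rw [hQexp]
            linarith [Real.add_one_le_exp L]
          calc (1 + 3 / b) * L ≤ L * L := mul_le_mul_of_nonneg_right (by linarith) hLpos.le
            _ ≤ Q * Q := mul_le_mul h7 h7 hLpos.le hQpos.le
            _ = (Q : ℝ) ^ 2 := by ring
        have h8 : (Q : ℝ) ^ 16 ≤ Real.exp (m * L) := by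
          rw [hQexp, ← Real.exp_nat_mul]
          refine Real.exp_le_exp.2 ?_
          push_cast
          exact mul_le_mul_of_nonneg_right hm16 hLpos.le
        calc ‖ψ.LFunction z‖ ≤ (Q : ℝ) ^ 14 * 1 := by rw [mul_one]; exact h4
          _ ≤ (Q : ℝ) ^ 14 * ((Q : ℝ) ^ 2 * ‖ψ.LFunction s₀‖) := by
              refine mul_le_mul_of_nonneg_left ?_ (by positivity)
              exact h5.trans (mul_le_mul_of_nonneg_right h6 hf0pos.le)
          _ = (Q : ℝ) ^ 16 * ‖ψ.LFunction s₀‖ := by ring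
          _ ≤ _ := mul_le_mul_of_nonneg_right h8 hf0pos.le
      · -- zeros
        intro ρ hρ hρ0
        have h1 := Complex.abs_im_le_norm (ρ - s₀)
        rw [Complex.sub_im, hs₀im] at h1
        have h2 : |ρ.im| ≤ (Q : ℝ) ^ 12 + 1 := by
          have h3 : |ρ.im| ≤ |ρ.im - s.im| + |s.im| := by
            have := abs_add_le (ρ.im - s.im) s.im
            rwa [sub_add_cancel] at this
          linarith
        have h4 := hzeros ρ hρ0 h2
        rw [hs₀re]
        linarith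
      · -- logarithmic derivative
        have h1 := INV2_logderiv r ψ s₀ hs0gt
        have h2 := hvM s₀.re hs0gt (by rw [hs₀re]; linarith)
        have h3 : 1 / (s₀.re - 1) = 3 / b * L := by
          have h5 : s₀.re - 1 = b / L / 3 := by rw [hs₀re]; ring
          rw [h5]
          field_simp
        rw [h3] at h2
        have h4 : (m * L + 1) / (1 / 2) = 2 * (m * L + 1) := by ring
        rw [h4]
        calc ‖deriv ψ.LFunction s₀ / ψ.LFunction s₀‖ ≤ _ := h1
          _ ≤ 3 / b * L + C₀ := h2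
          _ ≤ 2 * (m * L + 1) := by
              have h6 : 2 * (m * L + 1) = 32 * L + 2 * (3 / b * L) + 2 := by rw [hm]; ring
              have h7 : 0 ≤ 3 / b * L := by positivity
              rw [h6]
              linarith
      · rw [mem_closedBall, dist_eq_norm]
        have h1 : s - s₀ = ((s.re - (1 + b / L / 3) : ℝ) : ℂ) := by
          apply Complex.ext
          · simp [hs₀re]
          · simp [hs₀im]
        rw [h1, Complex.norm_real, Real.norm_eq_abs, abs_le]
        constructor <;> linarith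

end Pool.Agent.Lib.H59C
end

-- from Lib.H59C.SW2
section

/-!
# SW2: the sum of `Λ χ` from the logarithmic derivative
-/

open Finset

namespace Pool.Agent.Lib.H59C

open Pool.Agent.Lib.H68T (PC p0 Rg Reg sw perron XPN0_core)

/-- As `H68T.pnt_sw` / `exc_sum_sw` (files `H68X/XPN0.lean`, `XPN1.lean`), but without main term:
`perron` (file `H68T/PER1.lean`) with `κ = 0`, `f = g` from `LogInv`, `T = Q^12`,
`η = min c' .../log Q`, then `XPN0_core` (which contains `unsmooth`) with `b n = Λ(n) χ(n)`. -/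
theorem psi_of_log (c' C : ℝ) (hc' : 0 < c') : ∃ K : ℝ, 1 ≤ K ∧ ∀ Q X : ℕ, Reg K Q X →
    ∀ p : PCh, 1 ≤ p.1 → LogInv c' C Q p → ∀ u : ℝ, (X : ℝ) / 8 ≤ u → u ≤ 60 * X →
    ‖∑ m ∈ Icc 1 ⌊u⌋₊, (ArithmeticFunction.vonMangoldt m : ℂ) * p.2 (m : ZMod p.1)‖ ≤
      u * sw K Q X := by
  obtain ⟨P, hP, hper⟩ := perron
  obtain ⟨K₂, hK₂1, hK₂⟩ := XPN0_core P |C| c' hP (abs_nonneg C) hc'
  refine ⟨K₂, hK₂1, fun Q X r2 p _ hlog => ?_⟩
  obtain ⟨⟨hη1, hu3, hCB, hB1, hlQ0, hQ1⟩, hcore⟩ := hK₂ Q X r2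
  obtain ⟨g, hg1, hg2, hg3⟩ := hlog
  set η : ℝ := c' / Real.log Q with hη
  have hη0 : 0 < η := by positivity
  set T : ℝ := (Q : ℝ) ^ 11 with hT
  have hT1 : 1 ≤ T := one_le_pow₀ hQ1
  have hT2 : T ≤ (Q : ℝ) ^ 12 := pow_le_pow_right₀ hQ1 (by norm_num)
  have hmem : ∀ s : ℂ, 1 - η ≤ s.re → s.re ≤ 2 → |s.im| ≤ T → s ∈ Rg c' Q := by
    intro s h1 h2 h3
    exact ⟨h1, h2, h3.trans hT2⟩
  have hf1 : AnalyticOnNhd ℂ g {s | 1 - η ≤ s.re ∧ s.re ≤ 2 ∧ |s.im| ≤ T} := by
    intro s hs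
    exact hg1 _ (hmem s hs.1 hs.2.1 hs.2.2)
  have hCC : C * Real.log Q ≤ |C| * Real.log Q :=
    mul_le_mul_of_nonneg_right (le_abs_self C) hlQ0.le
  have hnorm : ∀ n : ℕ, 1 ≤ n → ‖(ArithmeticFunction.vonMangoldt n : ℂ) * p.2 (n : ZMod p.1)‖ ≤
      1 + Real.log n := by
    intro n _
    rw [norm_mul, Complex.norm_real, Real.norm_of_nonneg ArithmeticFunction.vonMangoldt_nonneg]
    have h1 := p.2.norm_le_one (n : ZMod p.1)
    have h2 := ArithmeticFunction.vonMangoldt_le_log (n := n)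
    have h3 := ArithmeticFunction.vonMangoldt_nonneg (n := n)
    calc ArithmeticFunction.vonMangoldt n * ‖p.2 (n : ZMod p.1)‖ ≤
          ArithmeticFunction.vonMangoldt n * 1 := mul_le_mul_of_nonneg_left h1 h3
      _ ≤ 1 + Real.log n := by linarith
  refine hcore (fun n => (ArithmeticFunction.vonMangoldt n : ℂ) * p.2 (n : ZMod p.1))
    (fun n hn => hnorm n hn) (fun u hu1 hu2 => ?_)
  have h1 := hper (fun n => (ArithmeticFunction.vonMangoldt n : ℂ) * p.2 (n : ZMod p.1)) g 0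
    η T ((|C| + 1) * Real.log X) u (by simp) hη0 hη1 hT1 (by linarith) hB1 hnorm hf1
    (fun s h1 h2 h3 => ((hg3 _ (hmem s h1 h2 h3)).trans hCC).trans hCB)
    (fun s hs => by
      rw [hg2 s hs]
      ring)
  rw [zero_mul, sub_zero] at h1
  linarith

end Pool.Agent.Lib.H59C
end

-- from Lib.H59C.SW4
section

/-!
# SW4: Siegel-Walfisz away from one prime
-/

open Finset

namespace Pool.Agent.Lib.H59C

open Pool.Agent.Lib.H68T (PC p0 Rg Reg sw Good Exc mem_PC)

open Filter in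
theorem SW4_ev (M T P : ℝ) : ∃ n0 : ℕ, ∀ n : ℕ, n0 ≤ n →
    M * Real.log (Real.log n) ^ 2 ≤ Real.log n ∧ T ≤ Real.log (Real.log n) ∧ P ≤ n := by
  have h1 : Tendsto (fun n : ℕ => Real.log (n : ℝ)) atTop atTop :=
    Real.tendsto_log_atTop.comp tendsto_natCast_atTop_atTop
  have h2 : Tendsto (fun n : ℕ => Real.log (Real.log (n : ℝ))) atTop atTop :=
    Real.tendsto_log_atTop.comp h1
  have h3 := (Real.isLittleO_pow_log_id_atTop (n := 2)).comp_tendsto h1
  have h4 := h3.def (c := 1 / (|M| + 1)) (by positivity)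
  have h5 : ∀ᶠ n : ℕ in atTop, M * Real.log (Real.log n) ^ 2 ≤ Real.log n := by
    filter_upwards [h4, h1.eventually_ge_atTop 0] with n hn hn0
    simp only [Function.comp_apply, id_eq, norm_pow, Real.norm_eq_abs, sq_abs] at hn
    rw [abs_of_nonneg hn0] at hn
    have h6 : M * Real.log (Real.log n) ^ 2 ≤ (|M| + 1) * Real.log (Real.log n) ^ 2 := by
      refine mul_le_mul_of_nonneg_right ?_ (sq_nonneg _)
      linarith [le_abs_self M]
    refine h6.trans ?_
    calc (|M| + 1) * Real.log (Real.log n) ^ 2 ≤ (|M| + 1) * (1 / (|M| + 1) * Real.log n) :=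
          mul_le_mul_of_nonneg_left hn (by positivity)
      _ = Real.log n := by field_simp
  have h7 := (h5.and (h2.eventually_ge_atTop T)).and
    ((tendsto_natCast_atTop_atTop (R := ℝ)).eventually_ge_atTop P)
  obtain ⟨n0, hn0⟩ := eventually_atTop.1 h7
  exact ⟨n0, fun n hn => ⟨(hn0 n hn).1.1, (hn0 n hn).1.2, (hn0 n hn).2⟩⟩

/-- The estimates for the parameters. -/
theorem SW4_par (A : ℕ) (K : ℝ) (hK : 1 ≤ K) : ∃ B : ℕ, ∃ M : ℝ, ∀ n Q : ℕ,
    M * Real.log (Real.log n) ^ 2 ≤ Real.log n → K + 3 ≤ Real.log (Real.log n) →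
    Q = ⌈Real.log n ^ B⌉₊ →
    (Real.log n ^ A ≤ Q ∧ Real.log (Real.log n) ≤ Real.log Q ∧ Real.log n ≤ Q ∧ Q ^ 100 ≤ n) ∧
    ∀ y : ℕ, (n : ℝ) ^ (1 / 10 : ℝ) ≤ y → y ≤ 8 * n → Reg K Q y ∧
      sw K Q y ≤ 1 / Real.log n ^ A := by
  obtain ⟨B, hB⟩ : ∃ B : ℕ, (A : ℝ) + 2 * K + K * (A + 1) + 1 ≤ B := exists_nat_ge _
  refine ⟨B, 20 * K * (B + 1) * (A + 1) + 100 * (B + 1), fun n Q hn hl hQ => ?_⟩
  have hA0 : (0 : ℝ) ≤ A := Nat.cast_nonneg A
  have hKA : 0 ≤ K * (A + 1) := by positivity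
  have hBA : A ≤ B := by
    have : (A : ℝ) ≤ B := by linarith
    exact_mod_cast this
  have hB1 : 1 ≤ B := by
    have : (1 : ℝ) ≤ B := by linarith
    exact_mod_cast this
  have hB1' : (1 : ℝ) ≤ B := by exact_mod_cast hB1
  set L : ℝ := Real.log n with hL
  set l : ℝ := Real.log L with hl'
  have hl4 : 4 ≤ l := by linarith
  have hL0 : 0 < L := by
    by_contra h
    have h0 : 0 ≤ L := Real.log_natCast_nonneg n
    have h1 : L = 0 := le_antisymm (not_lt.1 h) h0
    rw [hl', h1, Real.log_zero] at hl4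
    linarith
  have hLe : L = Real.exp l := (Real.exp_log hL0).symm
  have hL5 : 5 ≤ L := by
    rw [hLe]
    linarith [Real.add_one_le_exp l]
  have hn0 : (0 : ℝ) < n := by
    rcases Nat.eq_zero_or_pos n with h | h
    · rw [hL, h] at hL5
      simp at hL5
      linarith
    · exact_mod_cast h
  have hpow : ∀ m : ℕ, L ^ m = Real.exp (m * l) := by
    intro m
    rw [Real.exp_nat_mul, ← hLe]
  have hQ1 : L ^ B ≤ Q := by
    rw [hQ]
    exact Nat.le_ceil _
  have hQ2 : (Q : ℝ) ≤ L ^ (B + 1) := by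
    have h1 : (Q : ℝ) < L ^ B + 1 := by
      rw [hQ]
      exact Nat.ceil_lt_add_one (by positivity)
    have h2 : 1 ≤ L ^ B := one_le_pow₀ (by linarith)
    have h3 : L ^ (B + 1) = L ^ B * L := pow_succ _ _
    rw [h3]
    nlinarith
  have hQ0 : (0 : ℝ) < Q := lt_of_lt_of_le (by positivity) hQ1
  have hlQ1 : B * l ≤ Real.log Q := by
    rw [Real.le_log_iff_exp_le hQ0, ← hpow]
    exact hQ1
  have hlQ2 : Real.log Q ≤ (B + 1) * l := by
    rw [Real.log_le_iff_le_exp hQ0]
    have := hpow (B + 1)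
    push_cast at this
    rw [← this]
    exact hQ2
  have hlQl : l ≤ Real.log Q := by
    have : 1 * l ≤ B * l := mul_le_mul_of_nonneg_right hB1' (by linarith)
    linarith
  have hlQ0 : 0 < Real.log Q := by linarith
  have hLM : 20 * K * (B + 1) * (A + 1) * l ^ 2 ≤ L ∧ 100 * (B + 1) * l ≤ L := by
    have h1 : 0 ≤ 100 * ((B : ℝ) + 1) * l ^ 2 := by positivity
    have h2 : 0 ≤ 20 * K * ((B : ℝ) + 1) * (A + 1) * l ^ 2 := by positivity
    have h3 : l ≤ l ^ 2 := le_self_pow₀ (by linarith) two_ne_zero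
    have h4 : 100 * ((B : ℝ) + 1) * l ≤ 100 * ((B : ℝ) + 1) * l ^ 2 :=
      mul_le_mul_of_nonneg_left h3 (by positivity)
    constructor <;> nlinarith
  refine ⟨⟨(pow_le_pow_right₀ (by linarith) hBA).trans hQ1, hlQl, ?_, ?_⟩, fun y hy1 hy2 => ?_⟩
  · have h1 : L ^ 1 ≤ L ^ B := pow_le_pow_right₀ (by linarith) hB1
    rw [pow_one] at h1
    exact h1.trans hQ1
  · have h1 : (Q : ℝ) ^ 100 ≤ n := by
      calc (Q : ℝ) ^ 100 ≤ (L ^ (B + 1)) ^ 100 := pow_le_pow_left₀ hQ0.le hQ2 100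
        _ = Real.exp (100 * ((B + 1) * l)) := by
            rw [hpow (B + 1), ← Real.exp_nat_mul]
            push_cast
            rfl
        _ ≤ Real.exp L := Real.exp_le_exp.2 (by linarith [hLM.2])
        _ = n := Real.exp_log hn0
    exact_mod_cast h1
  · have hy0 : (0 : ℝ) < y := lt_of_lt_of_le (by positivity) hy1
    have hly1 : L / 10 ≤ Real.log y := by
      have h1 := Real.log_le_log (by positivity) hy1
      rw [Real.log_rpow hn0] at h1
      linarith
    have hly2 : Real.log y ≤ 2 * L := by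
      have h1 : Real.log y ≤ Real.log (8 * n) := Real.log_le_log hy0 (by exact_mod_cast hy2)
      rw [Real.log_mul (by norm_num) hn0.ne'] at h1
      have h2 : Real.log 8 ≤ 3 := by
        have h3 : Real.log 8 = 3 * Real.log 2 := by
          rw [show (8 : ℝ) = 2 ^ 3 by norm_num, Real.log_pow]
          push_cast
          ring
        rw [h3]
        linarith [Real.log_two_lt_d9]
      linarith
    have hly0 : 0 < Real.log y := by linarith
    have hlly1 : l - 3 ≤ Real.log (Real.log y) := by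
      have h1 : Real.log (L / 10) ≤ Real.log (Real.log y) := Real.log_le_log (by positivity) hly1
      rw [Real.log_div hL0.ne' (by norm_num)] at h1
      have h2 : Real.log 10 ≤ 3 := by
        have h3 : Real.log 10 ≤ Real.log (2 ^ 4) := Real.log_le_log (by norm_num) (by norm_num)
        rw [Real.log_pow] at h3
        push_cast at h3
        linarith [Real.log_two_lt_d9]
      linarith
    have hlly2 : Real.log (Real.log y) ≤ 2 * l := by
      have h1 : Real.log (Real.log y) ≤ Real.log (2 * L) := Real.log_le_log hly0 hly2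
      rw [Real.log_mul (by norm_num) hL0.ne'] at h1
      have h2 := Real.log_two_lt_d9
      have h3 : Real.log L = l := rfl
      linarith
    have hlly0 : 0 ≤ Real.log (Real.log y) := by linarith
    refine ⟨⟨by linarith, ?_, ?_⟩, ?_⟩
    · calc K * Real.log (Real.log y) ≤ K * (2 * l) :=
            mul_le_mul_of_nonneg_left hlly2 (by linarith)
        _ = 2 * K * l := by ring
        _ ≤ B * l := mul_le_mul_of_nonneg_right (by linarith) (by linarith)
        _ ≤ Real.log Q := hlQ1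
    · have h1 : Real.log Q * Real.log (Real.log y) ≤ ((B + 1) * l) * (2 * l) :=
        mul_le_mul hlQ2 hlly2 hlly0 (by positivity)
      have h2 : K * (Real.log Q * Real.log (Real.log y)) ≤ K * (((B + 1) * l) * (2 * l)) :=
        mul_le_mul_of_nonneg_left h1 (by linarith)
      have h3 : 10 * (K * (((B + 1) * l) * (2 * l))) ≤ 20 * K * (B + 1) * (A + 1) * l ^ 2 := by
        have h4 : 20 * K * ((B : ℝ) + 1) * (A + 1) * l ^ 2 =
            10 * (K * (((B + 1) * l) * (2 * l))) + 20 * K * (B + 1) * l ^ 2 * A := by ring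
        have h5 : 0 ≤ 20 * K * ((B : ℝ) + 1) * l ^ 2 * A := by positivity
        linarith
      linarith [hLM.1]
    · have e1 : Real.exp (-(Real.log y / (K * Real.log Q))) ≤ Real.exp (-((A + 1) * l)) := by
        refine Real.exp_le_exp.2 (neg_le_neg ?_)
        rw [le_div_iff₀ (by positivity)]
        have h1 : (A + 1) * l * (K * Real.log Q) ≤ (A + 1) * l * (K * ((B + 1) * l)) := by
          refine mul_le_mul_of_nonneg_left ?_ (by positivity)
          exact mul_le_mul_of_nonneg_left hlQ2 (by linarith)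
        have h2 : 20 * K * ((B : ℝ) + 1) * (A + 1) * l ^ 2 =
            20 * ((A + 1) * l * (K * ((B + 1) * l))) := by ring
        have h3 : 0 ≤ ((A : ℝ) + 1) * l * (K * ((B + 1) * l)) := by positivity
        linarith [hLM.1]
      have e2 : (Q : ℝ) ^ (-(1 / K)) ≤ Real.exp (-((A + 1) * l)) := by
        rw [Real.rpow_def_of_pos hQ0]
        refine Real.exp_le_exp.2 ?_
        have h1 : (A + 1) * l ≤ Real.log Q * (1 / K) := by
          rw [mul_one_div, le_div_iff₀ (by linarith)]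
          calc (A + 1) * l * K = K * (A + 1) * l := by ring
            _ ≤ B * l := mul_le_mul_of_nonneg_right (by linarith) (by linarith)
            _ ≤ Real.log Q := hlQ1
        linarith
      have e3 : Real.exp (-((A + 1) * l)) = 1 / L ^ A * (1 / L) := by
        rw [Real.exp_neg, one_div, one_div, ← mul_inv, ← pow_succ, hpow (A + 1)]
        push_cast
        rfl
      have e4 : 1 / L ≤ 1 / 2 := one_div_le_one_div_of_le (by norm_num) (by linarith)
      have e5 : 0 < 1 / L ^ A := by positivity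
      unfold sw
      rw [e3] at e1 e2
      have e6 : 1 / L ^ A * (1 / L) ≤ 1 / L ^ A * (1 / 2) := mul_le_mul_of_nonneg_left e4 e5.le
      linarith

/-- From a zero free character to the sums. -/
theorem SW4_one (c' C K₂ : ℝ) (hpsi : ∀ Q X : ℕ, Reg K₂ Q X → ∀ p : PCh, 1 ≤ p.1 →
      LogInv c' C Q p → ∀ u : ℝ, (X : ℝ) / 8 ≤ u → u ≤ 60 * X →
      ‖∑ m ∈ Icc 1 ⌊u⌋₊, (ArithmeticFunction.vonMangoldt m : ℂ) * p.2 (m : ZMod p.1)‖ ≤
      u * sw K₂ Q X) (Q y : ℕ) (hreg : Reg K₂ Q y) (p : PCh) (hp : 1 ≤ p.1)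
    (hlog : LogInv c' C Q p) : ‖psi y p‖ ≤ y * sw K₂ Q y := by
  have hy : (0 : ℝ) ≤ y := Nat.cast_nonneg y
  have h1 := hpsi Q y hreg p hp hlog y (by linarith) (by linarith)
  rw [Nat.floor_natCast] at h1
  exact h1

/-- For large `n` there is a prime `p1`, as large as we like but at most `n^(1/100)`, such that all
non principal primitive characters of conductor at most `(log n)^A` not divisible by `p1` have small
sums over the primes.

Proof. Take `c` = the constant of `H68T.page` (at most one real primitive character of conductor `≤ Q` has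
a zero in `[1 - c/log Q, 1]`; files `H68T/PAGE2.lean`, `H68X/XEX.lean`), `c', C` from `log_single c`, `K`
from `psi_of_log c' C`, and `Q = ⌈(log n)^K'⌉` with `K' ≥ A + (A + 2) K + K + 1`. For `n` large and all
`n^(1/10) ≤ y ≤ 8 n` one has `Reg K Q y` (`K ≤ loglog y`, `K loglog y ≤ log Q`, `K log Q loglog y ≤ log y`
since `log Q = O(loglog n)`, `log y ≥ log n/10`), and
`sw K Q y = exp (-log y/(K log Q)) + Q^(-1/K) ≤ (log n)^(-A)`. If no real primitive `ψ ≠ 1` of conductor
`≤ Q` has a zero in `[1 - c/log Q, 1]` (`Good c Q`), let `p1` be any fixed prime `≥ K0` (the given lower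
bound). Otherwise let `ψ` mod `r` be the exceptional one, `β` its zero (`β < 1` as `L(1) ≠ 0`). By
`H68T.zero_elementary` `c₁/r² ≤ 1 - β ≤ c/log Q`, so `r → ∞` with `n`, and `large_prime` gives a prime
`p1 ∣ r`, `p1 ≥ K0`; `p1 ≤ r ≤ Q ≤ n^(1/100)`. A primitive `χ ≠ 1` of conductor `≤ (log n)^A ≤ Q` not
divisible by `p1` is not `ψ`, so it satisfies the hypothesis of `log_single` (by `page`). Apply
`psi_of_log` with `X = u = y`. (A primitive `p ∈ PC _`, `p ≠ p0`, has `p.2 ≠ 1`: a primitive trivial character has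
conductor `1`, cf. the proof of `inv_all`.) -/
theorem sw_exists (A K0 : ℕ) : ∃ n0 : ℕ, ∀ n : ℕ, n0 ≤ n → ∃ p1 : ℕ, p1.Prime ∧ K0 ≤ p1 ∧
    p1 ^ 100 ≤ n ∧ SWp A n p1 := by
  obtain ⟨c₀, K₀, hc₀, hpage⟩ := Pool.Agent.Lib.H68T.page
  obtain ⟨c', C, K₁, hc', hC, hsingle⟩ := log_single c₀ hc₀
  obtain ⟨K₂, hK₂, hpsi⟩ := psi_of_log c' C hc'
  obtain ⟨ce, hce, hzero⟩ := Pool.Agent.Lib.H68T.zero_elementary
  obtain ⟨r0, hlarge⟩ := large_prime K0
  obtain ⟨P0, hP0, hP0p⟩ := Nat.exists_infinite_primes K0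
  obtain ⟨B, M, hpar⟩ := SW4_par A K₂ hK₂
  obtain ⟨n0, hn0⟩ := SW4_ev M (K₂ + 3 + |K₀| + |K₁| + c₀ * (r0 : ℝ) ^ 2 / ce + 1)
    ((P0 : ℝ) ^ 100)
  refine ⟨n0, fun n hn => ?_⟩
  obtain ⟨hM, hT, hP⟩ := hn0 n hn
  have a0 : 0 ≤ |K₀| := abs_nonneg _
  have a1 : 0 ≤ |K₁| := abs_nonneg _
  have a2 : 0 ≤ c₀ * (r0 : ℝ) ^ 2 / ce := by positivity
  obtain ⟨⟨hQA, hlQ, hLQ, hQn⟩, hreg⟩ := hpar n ⌈Real.log n ^ B⌉₊ hM (by linarith) rfl
  set Q : ℕ := ⌈Real.log n ^ B⌉₊ with hQ
  have hQpos : (0 : ℝ) < Q := by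
    rcases Nat.eq_zero_or_pos Q with h | h
    · rw [h, Nat.cast_zero, Real.log_zero] at hlQ
      linarith
    · exact_mod_cast h
  have hlQ' : Real.log Q ≤ Q := (Real.log_le_sub_one_of_pos hQpos).trans (by linarith)
  have hQK₀ : K₀ ≤ Q := by linarith [le_abs_self K₀]
  have hQK₁ : K₁ ≤ Q := by linarith [le_abs_self K₁]
  have hlQ0 : 0 < Real.log Q := by linarith
  -- the conclusion for one character
  have hone : ∀ p ∈ PC ⌊Real.log n ^ A⌋₊, p ≠ p0 →
      (∀ [NeZero p.1], p.2 ≠ 1 → p.2 ^ 2 = 1 → ∀ σ : ℝ, 1 - c₀ / Real.log Q ≤ σ → σ ≤ 1 →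
        p.2.LFunction (σ : ℂ) ≠ 0) →
      ∀ y : ℕ, (n : ℝ) ^ (1 / 10 : ℝ) ≤ y → y ≤ 8 * n → ‖psi y p‖ ≤ y / Real.log n ^ A := by
    rintro ⟨r', ψ'⟩ hp hpne hz y hy1 hy2
    obtain ⟨hr1, hr2, hprim⟩ := mem_PC.mp hp
    have hne' : NeZero r' := ⟨by
      have : 1 ≤ r' := hr1
      omega⟩
    have hψ : ψ' ≠ 1 := by
      intro h
      apply hpne
      have hr : r' = 1 := by
        have h3 : ψ'.conductor = r' := hprim
        rw [h, DirichletCharacter.conductor_one] at h3
        exact h3.symm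
      subst hr
      rw [h]
      rfl
    have hr'Q : r' ≤ Q := by
      have h1 : (r' : ℝ) ≤ Real.log n ^ A := by
        have h2 : (r' : ℝ) ≤ ⌊Real.log n ^ A⌋₊ := by exact_mod_cast hr2
        exact h2.trans (Nat.floor_le (by
          have : 0 ≤ Real.log n := Real.log_natCast_nonneg n
          positivity))
      have h3 : (r' : ℝ) ≤ Q := h1.trans hQA
      exact_mod_cast h3
    obtain ⟨g1, g2⟩ := hreg y hy1 hy2
    have h1 := SW4_one c' C K₂ hpsi Q y g1 ⟨r', ψ'⟩ hr1
      (hsingle Q hQK₁ r' ψ' hr'Q hprim hψ (fun hsq σ h1 h2 => hz hψ hsq σ h1 h2))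
    refine h1.trans ?_
    have hy : (0 : ℝ) ≤ y := Nat.cast_nonneg y
    calc (y : ℝ) * sw K₂ Q y ≤ y * (1 / Real.log n ^ A) := mul_le_mul_of_nonneg_left g2 hy
      _ = y / Real.log n ^ A := by ring
  by_cases hex : ∃ (r : ℕ) (_ : NeZero r) (ψ : DirichletCharacter ℂ r) (β : ℝ), r ≤ Q ∧
      ψ.IsPrimitive ∧ ψ ≠ 1 ∧ ψ ^ 2 = 1 ∧ 1 - c₀ / Real.log Q ≤ β ∧ β ≤ 1 ∧
      ψ.LFunction (β : ℂ) = 0
  · obtain ⟨r, hr, ψ, β, hrQ, hprim, hne, hsq, hβ, hβ1, hβ0⟩ := hex
    have hβlt : β < 1 := by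
      by_contra h
      have h1 : β = 1 := le_antisymm hβ1 (not_lt.1 h)
      rw [h1] at hβ0
      exact DirichletCharacter.LFunction_ne_zero_of_one_le_re ψ (Or.inl hne) (by simp) hβ0
    have hrr0 : r0 ≤ r := by
      by_contra h
      have h1 := hzero r ψ hne hsq β hβlt hβ0
      have hr0 : (0 : ℝ) < r := by
        have : 0 < r := Nat.pos_of_ne_zero (NeZero.ne r)
        exact_mod_cast this
      have h2 : (r : ℝ) ≤ r0 := by exact_mod_cast (not_le.1 h).le
      have h3 : ce / (r0 : ℝ) ^ 2 ≤ ce / (r : ℝ) ^ 2 :=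
        div_le_div_of_nonneg_left hce.le (by positivity) (pow_le_pow_left₀ hr0.le h2 2)
      have h4 : ce / (r0 : ℝ) ^ 2 ≤ c₀ / Real.log Q := by linarith
      have h6 : (0 : ℝ) < r0 := hr0.trans_le h2
      rw [div_le_div_iff₀ (by positivity) hlQ0] at h4
      have h5 : Real.log Q ≤ c₀ * (r0 : ℝ) ^ 2 / ce := by
        rw [le_div_iff₀ hce]
        linarith
      linarith
    obtain ⟨q, hq, hKq, hqr⟩ := hlarge r hrr0 ψ hprim hsq
    refine ⟨q, hq, hKq, ?_, ?_⟩
    · have h1 : q ≤ Q := (Nat.le_of_dvd (Nat.pos_of_ne_zero (NeZero.ne r)) hqr).trans hrQ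
      exact (Nat.pow_le_pow_left h1 100).trans hQn
    · intro p hp hpne hqp
      refine hone p hp hpne ?_
      intro _ hne' hsq' σ hσ hσ1 hz'
      have hr'Q : p.1 ≤ Q := by
        obtain ⟨hr1, hr2, _⟩ := mem_PC.mp hp
        have h1 : (p.1 : ℝ) ≤ Real.log n ^ A := by
          have h2 : (p.1 : ℝ) ≤ ⌊Real.log n ^ A⌋₊ := by exact_mod_cast hr2
          exact h2.trans (Nat.floor_le (by
            have : 0 ≤ Real.log n := Real.log_natCast_nonneg n
            positivity))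
        have h3 : (p.1 : ℝ) ≤ Q := h1.trans hQA
        exact_mod_cast h3
      refine hpage Q hQK₀ r p.1 ψ p.2 hrQ hr'Q hprim (mem_PC.mp hp).2.2 hne hne' hsq hsq' ?_
        β σ hβ hβ1 hσ hσ1 hβ0 hz'
      intro h
      have h1 : r = p.1 := congrArg Sigma.fst h
      exact hqp (h1 ▸ hqr)
  · refine ⟨P0, hP0p, hP0, by exact_mod_cast hP, ?_⟩
    intro p hp hpne _
    refine hone p hp hpne ?_
    intro inst hne' hsq' σ hσ hσ1 hz'
    refine hex ⟨p.1, inst, p.2, σ, ?_, (mem_PC.mp hp).2.2, hne', hsq', hσ, hσ1, hz'⟩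
    have h1 : (p.1 : ℝ) ≤ Real.log n ^ A := by
      have h2 : (p.1 : ℝ) ≤ ⌊Real.log n ^ A⌋₊ := by exact_mod_cast (mem_PC.mp hp).2.1
      exact h2.trans (Nat.floor_le (by
        have : 0 ≤ Real.log n := Real.log_natCast_nonneg n
        positivity))
    have h3 : (p.1 : ℝ) ≤ Q := h1.trans hQA
    exact_mod_cast h3

end Pool.Agent.Lib.H59C
end

-- from Lib.H57C.V6
section

/-!
# Chunk V6: the exceptional prime is small
-/

open Finset

namespace Pool.Agent.Lib.H57C

open Pool.Agent.Lib.H59C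

/-- Proof. `sw_exists A K0` gives `p1`. If `p1 ≤ (log n)^A` done (`A ≤ A + 1`). Otherwise no conductor `≤ ⌊(log n)^A⌋` is divisible by `p1`
(conductors of `PC` are `≥ 1`), so `SWp A n p'` holds for every `p'`; take a prime `p' ∈ [K0, 2 K0 + 2]` (`Nat.exists_infinite_primes`
gives a prime `≥ K0`, a constant), `n` large. -/
theorem sw2 (A K0 : ℕ) : ∃ n0 : ℕ, ∀ n : ℕ, n0 ≤ n → ∃ p1 : ℕ, p1.Prime ∧ K0 ≤ p1 ∧
    (p1 : ℝ) ≤ Real.log n ^ (A + 1) ∧ SWp A n p1 := by
  obtain ⟨n0, hn0⟩ := sw_exists A K0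
  obtain ⟨P0, hP0, hP0p⟩ := Nat.exists_infinite_primes K0
  refine ⟨max n0 ⌈Real.exp (P0 + 1)⌉₊, fun n hn => ?_⟩
  have h1 : n0 ≤ n := le_trans (le_max_left _ _) hn
  have h2 : Real.exp (P0 + 1) ≤ n := by
    have h3 : ⌈Real.exp ((P0 : ℝ) + 1)⌉₊ ≤ n := le_trans (le_max_right _ _) hn
    exact (Nat.le_ceil _).trans (by exact_mod_cast h3)
  have hn1 : (0 : ℝ) < n := lt_of_lt_of_le (Real.exp_pos _) h2
  have hL : (P0 : ℝ) + 1 ≤ Real.log n := by
    rw [Real.le_log_iff_exp_le hn1]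
    exact h2
  have hP : (0 : ℝ) ≤ P0 := Nat.cast_nonneg _
  have hL1 : 1 ≤ Real.log n := by linarith
  obtain ⟨p1, hp1, hK, _, hS⟩ := hn0 n h1
  by_cases h : (p1 : ℝ) ≤ Real.log n ^ A
  · exact ⟨p1, hp1, hK, h.trans (pow_le_pow_right₀ hL1 (Nat.le_succ A)), hS⟩
  · refine ⟨P0, hP0p, hP0, ?_, ?_⟩
    · have h4 : Real.log n ^ 1 ≤ Real.log n ^ (A + 1) := pow_le_pow_right₀ hL1 (by omega)
      rw [pow_one] at h4
      linarith
    · intro p hp hp0 _ y hy1 hy2
      refine hS p hp hp0 ?_ y hy1 hy2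
      intro hd
      have hp' := Pool.Agent.Lib.H68T.mem_PC.mp hp
      have h5 : p1 ≤ p.1 := Nat.le_of_dvd (by omega) hd
      have h6 : (p1 : ℝ) ≤ Real.log n ^ A := by
        have h7 : p1 ≤ ⌊Real.log n ^ A⌋₊ := h5.trans hp'.2.1
        exact (Nat.cast_le.mpr h7).trans (Nat.floor_le (by positivity))
      exact h h6

end Pool.Agent.Lib.H57C
end

-- from Lib.H59C.CS2
section

/-!
# CS2: the second term of the weighted sieve
-/

open Finset

namespace Pool.Agent.Lib.H59C

open Classical in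
/-- Proof. `jr (ε/8)` gives `Q0, z0`; `rem_A 3` gives `A', B, n0`. For every `q ∈ QQ n N p1` apply the upper bound of `jr`
to `S_q = {p ∈ Sq, q ∣ |N - p|}`, `X_q = XX * gq q`, `z = zz n`, `D_q = DD n B/q/Q0` (`D_q * Q0 = DD n B/q`;
`log D_q ≤ (1/2 - 1/8) log n = 3 log z`, and `z ≤ D_q` since `n^(1/2)/(log n)^B/Q0/(2n)^(1/3) ≥ n^(1/8)` for large `n`):
`sift ≤ X_q VV (AA log z/log D_q + ε/8) + remd`. Sum over `q ∈ QQ ⊆ PR (zz n) (yy n)`: `prime_S2 (ε/(4 AA))`
and `rem_A`; the remainder `2 n/(log n)^3 ≤ (ε/4) XX VV` by `main_lower`. -/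
theorem S2_upper (ε : ℝ) (hε : 0 < ε) : ∃ A' n0 : ℕ, ∀ n : ℕ, n0 ≤ n → ∀ p1 : ℕ, p1.Prime →
    SWp A' n p1 → ∀ N y1 y2 : ℕ, Win n N y1 y2 →
    ∑ q ∈ QQ n N p1, sift ((Sq y1 y2).filter (fun p => q ∣ Nat.dist N p)) lg
        (fun p => Nat.dist N p) (PP n N p1) (zz n) ≤
      XX y1 y2 * VV (PP n N p1) (zz n) * (AA / 4 * Real.log 6 + ε) := by
  have hAA := AA_pos
  obtain ⟨Q0, hQ0, z0, hz0, hjr⟩ := jr (ε / 8) (by linarith)
  obtain ⟨A', B, n1, hrem⟩ := rem_A 3
  obtain ⟨n2, hn2⟩ := cs_rem (ε / 4) (by linarith)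
  obtain ⟨n3, hn3⟩ := dd_log B Q0 hQ0 (1 / 100) (by norm_num)
  obtain ⟨n4, hn4⟩ := cdl_zz z0
  obtain ⟨n5, hn5⟩ := prime_S2 (ε / (4 * AA)) (by positivity) B Q0 hQ0
  obtain ⟨n6, hn6⟩ := cdl_log 100
  refine ⟨A', n1 + n2 + n3 + n4 + n5 + n6 + 3, fun n hn p1 hp1 hSW N y1 y2 hW => ?_⟩
  have hN : (3 : ℝ) ≤ n := by exact_mod_cast (by omega : 3 ≤ n)
  have hL : 0 < Real.log n := Real.log_pos (by linarith)
  have hL100 := hn6 n (by omega)
  obtain ⟨hD1, hDl, hDu, hDp⟩ := hn3 n (by omega)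
  have hzn := hn4 n (by omega)
  have hlz := log_zz n (by omega)
  obtain ⟨-, hr⟩ := hrem n (by omega) p1 hp1 hSW N y1 y2 hW
  have hsm := hn2 n (by omega) p1 N y1 y2 hW
  obtain ⟨hps, hps2⟩ := hn5 n (by omega)
  have hzpos : 0 < zz n := by linarith
  have hlz0 : 0 < Real.log (zz n) := by rw [hlz]; linarith
  have hQ0' : (1 : ℝ) ≤ Q0 := by exact_mod_cast hQ0
  have hX := XX_nonneg y1 y2
  have hV : 0 ≤ VV (PP n N p1) (zz n) := by
    unfold VV VP
    apply prod_nonneg
    intro q hq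
    have h3 := (PP_prime (mem_filter.mp hq).1).2
    have h3' : (3 : ℝ) ≤ q := by exact_mod_cast h3
    unfold gq
    rw [sub_nonneg, div_le_one (by linarith)]
    linarith
  have hVX : 0 ≤ XX y1 y2 * VV (PP n N p1) (zz n) := mul_nonneg hX hV
  -- the bound for one `q`
  have hone : ∀ q ∈ QQ n N p1, sift ((Sq y1 y2).filter (fun p => q ∣ Nat.dist N p)) lg
        (fun p => Nat.dist N p) (PP n N p1) (zz n) ≤
      XX y1 y2 * VV (PP n N p1) (zz n) * (AA * (gq q * (Real.log (zz n) /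
        Real.log ((DD n B : ℝ) / q / Q0))) + ε / 8 * gq q) +
      remd ((Sq y1 y2).filter (fun p => q ∣ Nat.dist N p)) lg
        (fun p => Nat.dist N p) (PP n N p1) (zz n) (XX y1 y2 * gq q) ((DD n B : ℝ) / q) := by
    intro q hq
    have hq' : q ∈ PR (zz n) (yy n) ∧ q ∈ PP n N p1 := by
      unfold QQ at hq
      exact mem_filter.mp hq
    obtain ⟨hqp, hq1, hq2⟩ := mem_PR.mp hq'.1
    have hqpos : (0 : ℝ) < q := by linarith
    have hlq1 : Real.log (zz n) ≤ Real.log q := Real.log_le_log hzpos hq1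
    have hyy : Real.log (yy n) = 1 / 3 * (Real.log 2 + Real.log n) := by
      unfold yy
      rw [Real.log_rpow (by linarith), Real.log_mul (by norm_num) (by linarith)]
    have hlq2 : Real.log q ≤ 1 / 3 * (Real.log 2 + Real.log n) := by
      rw [← hyy]
      exact Real.log_le_log hqpos hq2.le
    have hlog2 : Real.log 2 ≤ 1 := by
      have := Real.log_two_lt_d9
      linarith
    have hDDpos : (0 : ℝ) < DD n B := by
      have : (1 : ℝ) ≤ DD n B := by exact_mod_cast hD1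
      linarith
    obtain ⟨Dq, hDq⟩ : ∃ Dq : ℝ, Dq = (DD n B : ℝ) / q / Q0 := ⟨_, rfl⟩
    have hDqpos : 0 < Dq := by rw [hDq]; positivity
    have hDqlog : Real.log Dq = Real.log ((DD n B : ℝ) / Q0) - Real.log q := by
      rw [hDq, show (DD n B : ℝ) / q / Q0 = (DD n B : ℝ) / Q0 / q by ring,
        Real.log_div hDp.ne' hqpos.ne']
    have h3z : Real.log Dq ≤ 3 * Real.log (zz n) := by
      rw [hDqlog]
      rw [hlz] at hlq1 ⊢
      linarith
    have hzD : zz n ≤ Dq := by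
      rw [← Real.log_le_log_iff hzpos hDqpos, hDqlog, hlz]
      nlinarith
    obtain ⟨hup, -⟩ := hjr (PP n N p1) (fun q hq => PP_prime hq) (zz n) Dq hzn hzD
      ((Sq y1 y2).filter (fun p => q ∣ Nat.dist N p)) lg
      (fun p => Nat.dist N p) (XX y1 y2 * gq q) (by
        apply mul_nonneg hX
        unfold gq
        have h3 := (PP_prime hq'.2).2
        have h3' : (3 : ℝ) ≤ q := by exact_mod_cast h3
        apply div_nonneg zero_le_one
        linarith) (fun p _ => lg_nonneg p)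
    have hup := hup h3z
    have hDQ : Dq * (Q0 : ℝ) = (DD n B : ℝ) / q := by
      rw [hDq]
      field_simp
    rw [hDQ] at hup
    refine hup.trans (le_of_eq ?_)
    rw [← hDq]
    have hDlog0 : Real.log Dq ≠ 0 := by
      have : 0 < Real.log Dq := by
        rw [hDqlog]
        nlinarith
      exact this.ne'
    congr 1
    field_simp
  calc ∑ q ∈ QQ n N p1, sift ((Sq y1 y2).filter (fun p => q ∣ Nat.dist N p)) lg
        (fun p => Nat.dist N p) (PP n N p1) (zz n)
      ≤ ∑ q ∈ QQ n N p1, (XX y1 y2 * VV (PP n N p1) (zz n) * (AA * (gq q * (Real.log (zz n) /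
        Real.log ((DD n B : ℝ) / q / Q0))) + ε / 8 * gq q) +
      remd ((Sq y1 y2).filter (fun p => q ∣ Nat.dist N p)) lg
        (fun p => Nat.dist N p) (PP n N p1) (zz n) (XX y1 y2 * gq q) ((DD n B : ℝ) / q)) :=
        sum_le_sum hone
    _ = XX y1 y2 * VV (PP n N p1) (zz n) * (AA * ∑ q ∈ QQ n N p1, gq q * (Real.log (zz n) /
        Real.log ((DD n B : ℝ) / q / Q0)) + ε / 8 * ∑ q ∈ QQ n N p1, gq q) +
        ∑ q ∈ QQ n N p1, remd ((Sq y1 y2).filter (fun p => q ∣ Nat.dist N p)) lg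
        (fun p => Nat.dist N p) (PP n N p1) (zz n) (XX y1 y2 * gq q) ((DD n B : ℝ) / q) := by
        rw [sum_add_distrib, ← mul_sum, sum_add_distrib, ← mul_sum, ← mul_sum]
    _ ≤ XX y1 y2 * VV (PP n N p1) (zz n) * (AA * (1 / 4 * Real.log 6 + ε / (4 * AA)) + ε / 8 * 2) +
        2 * n / Real.log n ^ 3 := by
        apply add_le_add _ hr
        apply mul_le_mul_of_nonneg_left _ hVX
        have hgq : ∀ q ∈ PR (zz n) (yy n), 0 ≤ gq q := by
          intro q hq
          have h2 := (mem_PR.mp hq).1.two_le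
          have h2' : (2 : ℝ) ≤ q := by exact_mod_cast h2
          unfold gq
          apply div_nonneg zero_le_one
          linarith
        have hsub : QQ n N p1 ⊆ PR (zz n) (yy n) := by
          unfold QQ
          exact filter_subset _ _
        apply add_le_add
        · apply mul_le_mul_of_nonneg_left _ hAA.le
          refine le_trans (sum_le_sum_of_subset_of_nonneg hsub ?_) hps
          intro q hq _
          apply mul_nonneg (hgq q hq)
          apply div_nonneg hlz0.le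
          obtain ⟨hqp, hq1, hq2⟩ := mem_PR.mp hq
          have hqpos : (0 : ℝ) < q := by linarith
          rw [show (DD n B : ℝ) / q / Q0 = (DD n B : ℝ) / Q0 / q by ring,
            Real.log_div hDp.ne' hqpos.ne']
          have hyy : Real.log (yy n) = 1 / 3 * (Real.log 2 + Real.log n) := by
            unfold yy
            rw [Real.log_rpow (by linarith), Real.log_mul (by norm_num) (by linarith)]
          have hlq2 : Real.log q ≤ 1 / 3 * (Real.log 2 + Real.log n) := by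
            rw [← hyy]
            exact Real.log_le_log hqpos hq2.le
          have hlog2 : Real.log 2 ≤ 1 := by
            have := Real.log_two_lt_d9
            linarith
          nlinarith
        · apply mul_le_mul_of_nonneg_left _ (by linarith)
          exact le_trans (sum_le_sum_of_subset_of_nonneg hsub fun q hq _ => hgq q hq) hps2
    _ ≤ XX y1 y2 * VV (PP n N p1) (zz n) * (AA * (1 / 4 * Real.log 6 + ε / (4 * AA)) + ε / 8 * 2) +
        ε / 4 * (XX y1 y2 * VV (PP n N p1) (zz n)) := by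
        linarith
    _ = XX y1 y2 * VV (PP n N p1) (zz n) * (AA / 4 * Real.log 6 + 3 / 4 * ε) := by
        field_simp
        ring
    _ ≤ XX y1 y2 * VV (PP n N p1) (zz n) * (AA / 4 * Real.log 6 + ε) := by
        apply mul_le_mul_of_nonneg_left _ hVX
        linarith

end Pool.Agent.Lib.H59C
end
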