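import Pool.Agent.Lib.H1M.RV3.M004
import Pool.Agent.Lib.H1M.RV3.M050
import Pool.Agent.Lib.H1M.RV3.M059

/-! Merged copies (to shorten the build) of Lib.H59P.M3A, Lib.H59P.M3B, Lib.H59P.M3C, Lib.H59P.M3D, Lib.H59T.C1, Lib.H59T.C2, Lib.H59T.L1, Lib.H59T.L2, Lib.H59T.L3, Lib.H59T.L4, Lib.H59T.U1, Lib.H59T.F1, Lib.H59T.F2A, Lib.H59T.F2, Lib.H59T.F3. -/

-- from Lib.H59P.M3A
section

/-!
# Project H59P, chunks M3a, M3b: periodicity and bounds of the local functions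
-/

open Finset

namespace Pool.Agent.Lib.H59P

open Pool.Agent.Lib.H68T Pool.Agent.Lib.H18Q

/-- `gl l` has period `l`. -/
theorem gl_per (l : ℕ) (m j : ℤ) : gl l (m + j * l) = gl l m := by
  unfold gl
  have h : ((l : ℤ) ∣ m + j * l) ↔ (l : ℤ) ∣ m := by
    constructor
    · intro h
      have := (dvd_add_left (dvd_mul_left (l : ℤ) j)).1 h
      exact this
    · intro h
      exact dvd_add h (dvd_mul_left _ _)
  simp only [h]

/-- **M3a.** Bounds: for a prime `l`, `0 ≤ 1 + gl l m ≤ l/(l-1)`; `0 ≤ uu P m ≤ R/φ(R)` for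
`P = R.primeFactors`; `‖Ph p P h n‖ ≤ ∏_i uu P (n+h_i)` for a set `P` of primes; `|Wl l h n| ≤ (l/(l-1))^k`,
`|tp l h| ≤ (l/(l-1))^k`, `0 ≤ 1 + tp l h ≤ (l/(l-1))^k`; `|Wd d h n| ≤ (d/φ(d))^k` and
`|td d h| ≤ (d/φ(d))^k` for squarefree `d` (`∏_{l ∣ d} l/(l-1) = d/φ(d)`).

Proof. Directly; `(l/(l-1))^k ≥ 1`; `DirichletCharacter.norm_le_one`. -/
theorem M3a_gl (l : ℕ) (hl : l.Prime) (m : ℤ) : 0 ≤ 1 + gl l m ∧ 1 + gl l m ≤ (l : ℝ) / ((l : ℝ) - 1) := by
  have h2 : (2 : ℝ) ≤ l := by exact_mod_cast hl.two_le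
  have h3 : (0 : ℝ) < (l : ℝ) - 1 := by linarith
  have h4 : (0 : ℝ) ≤ (l : ℝ) / ((l : ℝ) - 1) := by positivity
  unfold gl
  split_ifs with h
  · constructor
    · norm_num
    · linarith
  · have h5 : (1 : ℝ) + 1 / ((l : ℝ) - 1) = (l : ℝ) / ((l : ℝ) - 1) := by
      field_simp
      ring
    rw [h5]
    exact ⟨h4, le_refl _⟩

theorem M3a_ratio (l : ℕ) (hl : l.Prime) : (1 : ℝ) ≤ (l : ℝ) / ((l : ℝ) - 1) := by
  have h2 : (2 : ℝ) ≤ l := by exact_mod_cast hl.two_le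
  have h3 : (0 : ℝ) < (l : ℝ) - 1 := by linarith
  rw [le_div_iff₀ h3]
  linarith

theorem M3a_prod (R : ℕ) (hR : 0 < R) :
    ∏ l ∈ R.primeFactors, ((l : ℝ) / ((l : ℝ) - 1)) = (R : ℝ) / (Nat.totient R : ℝ) := by
  have h1 : ((Nat.totient R : ℕ) : ℝ) = R * ∏ p ∈ R.primeFactors, (1 - (p : ℝ)⁻¹) := by
    have h := Nat.totient_eq_mul_prod_factors R
    have h' : (((Nat.totient R : ℕ) : ℚ) : ℝ) =
        ((R * ∏ p ∈ R.primeFactors, (1 - (p : ℚ)⁻¹) : ℚ) : ℝ) := by rw [h]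
    push_cast at h'
    exact h'
  have h2' : (∏ l ∈ R.primeFactors, ((l : ℝ) / ((l : ℝ) - 1))) *
      ∏ p ∈ R.primeFactors, (1 - (p : ℝ)⁻¹) = 1 := by
    rw [← Finset.prod_mul_distrib]
    apply Finset.prod_eq_one
    intro l hl
    have hl' := Nat.prime_of_mem_primeFactors hl
    have h2 : (2 : ℝ) ≤ l := by exact_mod_cast hl'.two_le
    have h3 : (l : ℝ) - 1 ≠ 0 := by linarith
    have h4 : (l : ℝ) ≠ 0 := by linarith
    field_simp
  have hφ : (0 : ℝ) < (Nat.totient R : ℝ) := by exact_mod_cast Nat.totient_pos.2 hR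
  rw [eq_div_iff hφ.ne', h1]
  calc (∏ l ∈ R.primeFactors, ((l : ℝ) / ((l : ℝ) - 1))) *
      (R * ∏ p ∈ R.primeFactors, (1 - (p : ℝ)⁻¹))
      = R * ((∏ l ∈ R.primeFactors, ((l : ℝ) / ((l : ℝ) - 1))) *
        ∏ p ∈ R.primeFactors, (1 - (p : ℝ)⁻¹)) := by ring
    _ = R := by rw [h2', mul_one]

theorem M3a_uu (R : ℕ) (hR : 0 < R) (m : ℤ) :
    0 ≤ uu R.primeFactors m ∧ uu R.primeFactors m ≤ (R : ℝ) / (Nat.totient R : ℝ) := by
  constructor
  · exact Finset.prod_nonneg fun l hl => (M3a_gl l (Nat.prime_of_mem_primeFactors hl) m).1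
  · rw [← M3a_prod R hR]
    exact Finset.prod_le_prod (fun l hl => (M3a_gl l (Nat.prime_of_mem_primeFactors hl) m).1)
      (fun l hl => (M3a_gl l (Nat.prime_of_mem_primeFactors hl) m).2)

theorem M3a_uu_nonneg (P : Finset ℕ) (hP : ∀ l ∈ P, l.Prime) (m : ℤ) : 0 ≤ uu P m :=
  Finset.prod_nonneg fun l hl => (M3a_gl l (hP l hl) m).1




end Pool.Agent.Lib.H59P
end

-- from Lib.H59P.M3B
section

/-!
# Project H59P, chunk M3b: elementary bound for n/φ(n)
-/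

open Finset

namespace Pool.Agent.Lib.H59P

open Pool.Agent.Lib.H68T Pool.Agent.Lib.H18Q

theorem m3b_prod (S : Finset ℕ) : (∀ l ∈ S, 2 ≤ l) →
    ∏ l ∈ S, ((l : ℝ) / ((l : ℝ) - 1)) ≤ (S.card : ℝ) + 1 := by
  induction S using Finset.induction_on_max with
  | empty => intro _; simp
  | insert a s ha ih =>
    intro h2
    have hns : a ∉ s := fun h => lt_irrefl _ (ha a h)
    have hsub : s ⊆ Finset.Ico 2 a := by
      intro x hx
      rw [Finset.mem_Ico]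
      exact ⟨h2 x (Finset.mem_insert_of_mem hx), ha x hx⟩
    have hcard : s.card ≤ a - 2 := by
      have := Finset.card_le_card hsub
      rwa [Nat.card_Ico] at this
    have ha2 : 2 ≤ a := h2 a (Finset.mem_insert_self _ _)
    have hca : s.card + 2 ≤ a := by omega
    have hca' : (s.card : ℝ) + 2 ≤ a := by exact_mod_cast hca
    have hs0 : (0 : ℝ) ≤ s.card := Nat.cast_nonneg _
    rw [Finset.prod_insert hns, Finset.card_insert_of_notMem hns]
    have ih' := ih (fun l hl => h2 l (Finset.mem_insert_of_mem hl))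
    have h3 : (a : ℝ) / ((a : ℝ) - 1) ≤ ((s.card : ℝ) + 2) / ((s.card : ℝ) + 1) := by
      rw [div_le_div_iff₀ (by linarith) (by linarith)]
      nlinarith
    have h4 : (0 : ℝ) ≤ ∏ l ∈ s, ((l : ℝ) / ((l : ℝ) - 1)) := by
      apply Finset.prod_nonneg
      intro l hl
      have : (2 : ℝ) ≤ l := by exact_mod_cast h2 l (Finset.mem_insert_of_mem hl)
      exact div_nonneg (by linarith) (by linarith)
    calc (a : ℝ) / ((a : ℝ) - 1) * ∏ l ∈ s, ((l : ℝ) / ((l : ℝ) - 1))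
        ≤ ((s.card : ℝ) + 2) / ((s.card : ℝ) + 1) * ((s.card : ℝ) + 1) :=
          mul_le_mul h3 ih' h4 (by positivity)
      _ = ((s.card : ℝ) + 2) := by field_simp
      _ = ((s.card + 1 : ℕ) : ℝ) + 1 := by push_cast; ring

/-- `n/φ(n) ≤ 2 (1 + log n)`.

Proof. `n/φ(n) = ∏_{l ∣ n} l/(l-1) ≤ ∏_{j=2}^{ω+1} j/(j-1) = ω + 1`, `ω = ω(n)` the number of prime factors
(the `j`-th smallest element of a set of integers `≥ 2` is `≥ j + 1`; induction on the cardinality of the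
set, removing the maximum, which is at least the cardinality plus one), and `2^ω ≤ n`, so
`ω ≤ log n/log 2 ≤ 2 log n`. -/
theorem M3b (n : ℕ) (hn : 1 ≤ n) : (n : ℝ) / (Nat.totient n : ℝ) ≤ 2 * (1 + Real.log n) := by
  rw [← M3a_prod n hn]
  have h1 := m3b_prod n.primeFactors (fun l hl => (Nat.prime_of_mem_primeFactors hl).two_le)
  have h2 : 2 ^ n.primeFactors.card ≤ n := by
    calc 2 ^ n.primeFactors.card = ∏ _l ∈ n.primeFactors, 2 := by rw [Finset.prod_const]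
      _ ≤ ∏ l ∈ n.primeFactors, l :=
        Finset.prod_le_prod' (fun l hl => (Nat.prime_of_mem_primeFactors hl).two_le)
      _ ≤ n := Nat.le_of_dvd hn (Nat.prod_primeFactors_dvd n)
  have h3 : (n.primeFactors.card : ℝ) * Real.log 2 ≤ Real.log n := by
    rw [← Real.log_pow]
    apply Real.log_le_log (by positivity)
    exact_mod_cast h2
  have h4 : (0.5 : ℝ) < Real.log 2 := by
    have := Real.log_two_gt_d9
    linarith
  have h5 : (0 : ℝ) ≤ n.primeFactors.card := Nat.cast_nonneg _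
  nlinarith

end Pool.Agent.Lib.H59P
end

-- from Lib.H59P.M3C
section

/-!
# Project H59P, chunk M3c
-/

open Finset

namespace Pool.Agent.Lib.H59P

open Pool.Agent.Lib.H68T Pool.Agent.Lib.H18Q

theorem m3c_per (f : ℤ → ℂ) (P : ℕ) (hf : ∀ m, f (m + P) = f m) (j : ℕ) (m : ℤ) :
    f (m + j * P) = f m := by
  induction j with
  | zero => simp
  | succ j ih =>
    have : m + ((j + 1 : ℕ) : ℤ) * P = (m + j * P) + P := by push_cast; ring
    rw [this, hf, ih]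

/-- the sum over a period does not depend on the starting point -/
theorem m3c_start (f : ℤ → ℂ) (P : ℕ) (hf : ∀ m, f (m + P) = f m) (a : ℕ) :
    ∑ n ∈ range P, f ((a : ℤ) + n) = ∑ n ∈ range P, f n := by
  induction a with
  | zero => simp
  | succ a ih =>
    rw [← ih]
    have h1 : ∑ n ∈ range (P + 1), f ((a : ℤ) + n) =
        ∑ n ∈ range P, f ((a : ℤ) + n) + f ((a : ℤ) + P) := by
      rw [Finset.sum_range_succ]
    have h2 : ∑ n ∈ range (P + 1), f ((a : ℤ) + n) =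
        ∑ n ∈ range P, f (((a + 1 : ℕ) : ℤ) + n) + f (a : ℤ) := by
      rw [Finset.sum_range_succ']
      congr 1
      · apply Finset.sum_congr rfl
        intro n _
        congr 1
        push_cast
        ring
    have h3 := hf a
    rw [h3] at h1
    rw [h1] at h2
    exact (add_right_cancel h2).symm

/-- A periodic function over an interval.

Proof. `H = j P + s`, `s < P`; `j` full periods (each with the same sum, `CB_shift`) and a rest with `s < P`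
terms: the difference is at most `s Φ + (s/P) ‖∑‖ ≤ 2 P Φ`. -/
theorem M3c (f : ℤ → ℂ) (P : ℕ) (hP : 0 < P) (hf : ∀ m, f (m + P) = f m) (Φ : ℝ) (hΦ : ∀ m, ‖f m‖ ≤ Φ)
    (a H : ℕ) :
    ‖∑ n ∈ Ico a (a + H), f n - H * ((∑ n ∈ range P, f n) / P)‖ ≤ 2 * P * Φ := by
  have hP0 : (0 : ℝ) < P := by exact_mod_cast hP
  have hΦ0 : 0 ≤ Φ := le_trans (norm_nonneg _) (hΦ 0)
  have hsum : ‖∑ n ∈ range P, f n‖ ≤ P * Φ := by
    calc ‖∑ n ∈ range P, f n‖ ≤ ∑ n ∈ range P, ‖f n‖ := norm_sum_le _ _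
      _ ≤ ∑ _n ∈ range P, Φ := Finset.sum_le_sum fun n _ => hΦ n
      _ = P * Φ := by rw [Finset.sum_const, Finset.card_range, nsmul_eq_mul]
  have hIco : ∀ H : ℕ, ∑ n ∈ Ico a (a + H), f n = ∑ n ∈ range H, f ((a : ℤ) + n) := by
    intro H
    rw [Finset.sum_Ico_eq_sum_range]
    have : a + H - a = H := by omega
    rw [this]
    apply Finset.sum_congr rfl
    intro n _
    push_cast
    rfl
  have hfull : ∀ j s : ℕ, ∑ n ∈ range (j * P + s), f ((a : ℤ) + n) =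
      j * ∑ n ∈ range P, f n + ∑ n ∈ range s, f ((a : ℤ) + n) := by
    intro j
    induction j with
    | zero => intro s; simp
    | succ j ih =>
      intro s
      have e1 : (j + 1) * P + s = (j * P + s) + P := by ring
      rw [e1, Finset.sum_range_add, ih s]
      have e2 : ∑ x ∈ range P, f ((a : ℤ) + ((j * P + s + x : ℕ) : ℤ)) = ∑ n ∈ range P, f n := by
        have := m3c_start f P hf (a + s)
        rw [← this]
        apply Finset.sum_congr rfl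
        intro n _
        have e3 : (a : ℤ) + ((j * P + s + n : ℕ) : ℤ) = (((a + s : ℕ) : ℤ) + n) + j * P := by
          push_cast; ring
        rw [e3, m3c_per f P hf]
      rw [e2]
      push_cast
      ring
  have hH : H = (H / P) * P + H % P := by
    have := Nat.div_add_mod H P
    rw [mul_comm] at this
    exact this.symm
  set j := H / P with hj
  set s := H % P with hs
  have hsP : s < P := Nat.mod_lt _ hP
  rw [hIco]
  have e1 : ∑ n ∈ range H, f ((a : ℤ) + n) =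
      j * ∑ n ∈ range P, f n + ∑ n ∈ range s, f ((a : ℤ) + n) := by
    have := hfull j s
    rw [← hH] at this
    exact this
  rw [e1]
  have hPc : (P : ℂ) ≠ 0 := by exact_mod_cast hP.ne'
  have e2 : (j : ℂ) * ∑ n ∈ range P, f n + ∑ n ∈ range s, f ((a : ℤ) + n) -
      H * ((∑ n ∈ range P, f n) / P) =
      ∑ n ∈ range s, f ((a : ℤ) + n) - (s : ℂ) / P * ∑ n ∈ range P, f n := by
    have : (H : ℂ) = j * P + s := by exact_mod_cast hH
    rw [this]
    field_simp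
    ring
  rw [e2]
  have hrest : ‖∑ n ∈ range s, f ((a : ℤ) + n)‖ ≤ P * Φ := by
    calc ‖∑ n ∈ range s, f ((a : ℤ) + n)‖ ≤ ∑ n ∈ range s, ‖f ((a : ℤ) + n)‖ := norm_sum_le _ _
      _ ≤ ∑ _n ∈ range s, Φ := Finset.sum_le_sum fun n _ => hΦ _
      _ = s * Φ := by rw [Finset.sum_const, Finset.card_range, nsmul_eq_mul]
      _ ≤ P * Φ := by
        apply mul_le_mul_of_nonneg_right _ hΦ0
        exact_mod_cast hsP.le
  have hfr : ‖(s : ℂ) / P‖ ≤ 1 := by
    rw [norm_div, Complex.norm_natCast, Complex.norm_natCast, div_le_one hP0]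
    exact_mod_cast hsP.le
  calc ‖∑ n ∈ range s, f ((a : ℤ) + n) - (s : ℂ) / P * ∑ n ∈ range P, f n‖
      ≤ ‖∑ n ∈ range s, f ((a : ℤ) + n)‖ + ‖(s : ℂ) / P * ∑ n ∈ range P, f n‖ := norm_sub_le _ _
    _ ≤ P * Φ + 1 * (P * Φ) := by
      apply add_le_add hrest
      rw [norm_mul]
      exact mul_le_mul hfr hsum (norm_nonneg _) zero_le_one
    _ = 2 * P * Φ := by ring

end Pool.Agent.Lib.H59P
end

-- from Lib.H59P.M3D
section

/-!
# Project H59P, chunk M3d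
-/

open Finset

namespace Pool.Agent.Lib.H59P

open Pool.Agent.Lib.H68T Pool.Agent.Lib.H18Q

theorem m3d_mod (f : ℤ → ℂ) (P : ℕ) (hf : ∀ m, f (m + P) = f m) (n : ℕ) :
    f ((n % P : ℕ) : ℤ) = f n := by
  have h := m3c_per f P hf (n / P) ((n % P : ℕ) : ℤ)
  rw [← h]
  congr 1
  have := Nat.mod_add_div n P
  rw [mul_comm] at this
  exact_mod_cast this

/-- Chinese remainder theorem for two periodic functions.

Proof. `c ↦ (c mod a, c mod b)` is a bijection from `range (a b)` to `range a × range b`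
(`Nat.chineseRemainder`, compare `cc1_two` in `H18Q/CC1.lean`, same proof for complex values). -/
theorem M3d (f g : ℤ → ℂ) (a b : ℕ) (ha : 0 < a) (hb : 0 < b) (hab : Nat.Coprime a b)
    (hf : ∀ m, f (m + a) = f m) (hg : ∀ m, g (m + b) = g m) :
    ∑ n ∈ range (a * b), f n * g n = (∑ n ∈ range a, f n) * ∑ n ∈ range b, g n := by
  rw [Finset.sum_mul_sum, ← Finset.sum_product']
  apply Finset.sum_bij (fun (n : ℕ) _ => (n % a, n % b))
  · intro n _
    rw [Finset.mem_product, Finset.mem_range, Finset.mem_range]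
    exact ⟨Nat.mod_lt _ ha, Nat.mod_lt _ hb⟩
  · intro n hn m hm h
    rw [Finset.mem_range] at hn hm
    have h1 : n % a = m % a := congrArg Prod.fst h
    have h2 : n % b = m % b := congrArg Prod.snd h
    have h3 : n ≡ m [MOD (a * b)] :=
      (Nat.modEq_and_modEq_iff_modEq_mul hab).1 ⟨h1, h2⟩
    exact Nat.ModEq.eq_of_lt_of_lt h3 hn hm
  · rintro ⟨x, y⟩ hxy
    rw [Finset.mem_product, Finset.mem_range, Finset.mem_range] at hxy
    refine ⟨(Nat.chineseRemainder hab x y : ℕ), ?_, ?_⟩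
    · rw [Finset.mem_range]
      exact Nat.chineseRemainder_lt_mul hab x y ha.ne' hb.ne'
    · have h1 := (Nat.chineseRemainder hab x y).2.1
      have h2 := (Nat.chineseRemainder hab x y).2.2
      have h3 : (Nat.chineseRemainder hab x y : ℕ) % a = x := by
        have := h1
        unfold Nat.ModEq at this
        rw [this, Nat.mod_eq_of_lt hxy.1]
      have h4 : (Nat.chineseRemainder hab x y : ℕ) % b = y := by
        have := h2
        unfold Nat.ModEq at this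
        rw [this, Nat.mod_eq_of_lt hxy.2]
      exact Prod.ext h3 h4
  · intro n _
    show f n * g n = f ((n % a : ℕ) : ℤ) * g ((n % b : ℕ) : ℤ)
    rw [m3d_mod f a hf, m3d_mod g b hg]

end Pool.Agent.Lib.H59P
end

-- from Lib.H59T.C1
section

/-!
# Project H59T, chunk C1 (S/M): Chinese remainder theorem in four variables
-/

open Finset

namespace Pool.Agent.Lib.H59T

/-- Proof. `M3d` (`H59P/M3D.lean`, one variable) from the inside outwards: for fixed `y, y', z` the sum over `z'` is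
`(∑_{z' < a} F) (∑_{z' < b} G)`, again a product of two functions, periodic in the other variables modulo `a` and `b`; etc. -/
theorem C1_two (a b : ℕ) (ha : 0 < a) (hb : 0 < b) (hab : Nat.Coprime a b)
    (F G : ℤ → ℤ → ℤ → ℤ → ℂ) (hF : Per4 a F) (hG : Per4 b G) :
    S4 (a * b) (fun y y' z z' => F y y' z z' * G y y' z z') = S4 a F * S4 b G := by
  have h4 : ∀ y y' z : ℤ, ∑ z' ∈ range (a * b), F y y' z z' * G y y' z z' =
      (∑ z' ∈ range a, F y y' z z') * ∑ z' ∈ range b, G y y' z z' := fun y y' z =>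
    H59P.M3d (F y y' z) (G y y' z) a b ha hb hab (hF.h4 y y' z) (hG.h4 y y' z)
  have h3 : ∀ y y' : ℤ, ∑ z ∈ range (a * b), ∑ z' ∈ range (a * b), F y y' z z' * G y y' z z' =
      (∑ z ∈ range a, ∑ z' ∈ range a, F y y' z z') * ∑ z ∈ range b, ∑ z' ∈ range b, G y y' z z' := by
    intro y y'
    rw [← H59P.M3d (fun z => ∑ z' ∈ range a, F y y' z z') (fun z => ∑ z' ∈ range b, G y y' z z') a b ha hb hab
      (fun m => Finset.sum_congr rfl fun z' _ => hF.h3 y y' m z')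
      (fun m => Finset.sum_congr rfl fun z' _ => hG.h3 y y' m z')]
    exact Finset.sum_congr rfl fun z _ => h4 y y' z
  have h2 : ∀ y : ℤ, ∑ y' ∈ range (a * b), ∑ z ∈ range (a * b), ∑ z' ∈ range (a * b),
      F y y' z z' * G y y' z z' =
      (∑ y' ∈ range a, ∑ z ∈ range a, ∑ z' ∈ range a, F y y' z z') *
        ∑ y' ∈ range b, ∑ z ∈ range b, ∑ z' ∈ range b, G y y' z z' := by
    intro y
    rw [← H59P.M3d (fun y' => ∑ z ∈ range a, ∑ z' ∈ range a, F y y' z z')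
      (fun y' => ∑ z ∈ range b, ∑ z' ∈ range b, G y y' z z') a b ha hb hab
      (fun m => Finset.sum_congr rfl fun z _ => Finset.sum_congr rfl fun z' _ => hF.h2 y m z z')
      (fun m => Finset.sum_congr rfl fun z _ => Finset.sum_congr rfl fun z' _ => hG.h2 y m z z')]
    exact Finset.sum_congr rfl fun y' _ => h3 y y'
  unfold S4
  rw [← H59P.M3d (fun y => ∑ y' ∈ range a, ∑ z ∈ range a, ∑ z' ∈ range a, F y y' z z')
    (fun y => ∑ y' ∈ range b, ∑ z ∈ range b, ∑ z' ∈ range b, G y y' z z') a b ha hb hab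
    (fun m => Finset.sum_congr rfl fun y' _ => Finset.sum_congr rfl fun z _ =>
      Finset.sum_congr rfl fun z' _ => hF.h1 m y' z z')
    (fun m => Finset.sum_congr rfl fun y' _ => Finset.sum_congr rfl fun z _ =>
      Finset.sum_congr rfl fun z' _ => hG.h1 m y' z z')]
  exact Finset.sum_congr rfl fun y _ => h2 y

/-- periodic modulo a multiple -/
theorem c1_mul (N k : ℕ) (F : ℤ → ℤ → ℤ → ℤ → ℂ) (hF : Per4 N F) : Per4 (N * k) F where
  h1 y y' z z' := by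
    have h := H59P.m3c_per (fun t => F t y' z z') N (fun m => hF.h1 m y' z z') k y
    rw [← h]
    congr 1
    push_cast
    ring
  h2 y y' z z' := by
    have h := H59P.m3c_per (fun t => F y t z z') N (fun m => hF.h2 y m z z') k y'
    rw [← h]
    congr 1
    push_cast
    ring
  h3 y y' z z' := by
    have h := H59P.m3c_per (fun t => F y y' t z') N (fun m => hF.h3 y y' m z') k z
    rw [← h]
    congr 1
    push_cast
    ring
  h4 y y' z z' := by
    have h := H59P.m3c_per (fun t => F y y' z t) N (fun m => hF.h4 y y' z m) k z'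
    rw [← h]
    congr 1
    push_cast
    ring

/-- product of periodic functions -/
theorem c1_mulf (N : ℕ) (F G : ℤ → ℤ → ℤ → ℤ → ℂ) (hF : Per4 N F) (hG : Per4 N G) :
    Per4 N (fun y y' z z' => F y y' z z' * G y y' z z') where
  h1 y y' z z' := by
    rw [hF.h1, hG.h1]
  h2 y y' z z' := by
    rw [hF.h2, hG.h2]
  h3 y y' z z' := by
    rw [hF.h3, hG.h3]
  h4 y y' z z' := by
    rw [hF.h4, hG.h4]

/-- Proof. Induction over `P` (`Finset.induction_on`) with `C1_two`; the product of the others is periodic modulo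
the product of the `q l` (a period of each factor divides it), and coprime to `q l` (`Nat.Coprime.prod_right`). -/
theorem C1_prod (P : Finset ℕ) (q : ℕ → ℕ) (hq : ∀ l ∈ P, 0 < q l)
    (hc : ∀ l ∈ P, ∀ l' ∈ P, l ≠ l' → Nat.Coprime (q l) (q l')) (F : ℕ → ℤ → ℤ → ℤ → ℤ → ℂ)
    (hF : ∀ l ∈ P, Per4 (q l) (F l)) :
    Per4 (∏ l ∈ P, q l) (fun y y' z z' => ∏ l ∈ P, F l y y' z z') ∧
    S4 (∏ l ∈ P, q l) (fun y y' z z' => ∏ l ∈ P, F l y y' z z') = ∏ l ∈ P, S4 (q l) (F l) := by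
  classical
  induction P using Finset.induction_on with
  | empty =>
    refine ⟨⟨?_, ?_, ?_, ?_⟩, ?_⟩
    · intro y y' z z'
      simp
    · intro y y' z z'
      simp
    · intro y y' z z'
      simp
    · intro y y' z z'
      simp
    · simp [S4]
  | insert l P hl ih =>
    obtain ⟨i1, i2⟩ := ih (fun m hm => hq m (mem_insert_of_mem hm))
      (fun m hm m' hm' => hc m (mem_insert_of_mem hm) m' (mem_insert_of_mem hm'))
      (fun m hm => hF m (mem_insert_of_mem hm))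
    have hl1 : Per4 (q l) (F l) := hF l (mem_insert_self _ _)
    have e1 : (fun y y' z z' => ∏ m ∈ insert l P, F m y y' z z') =
        fun y y' z z' => F l y y' z z' * ∏ m ∈ P, F m y y' z z' := by
      funext y y' z z'
      rw [Finset.prod_insert hl]
    rw [e1, Finset.prod_insert hl, Finset.prod_insert hl]
    refine ⟨?_, ?_⟩
    · refine c1_mulf _ _ _ (c1_mul _ _ _ hl1) ?_
      rw [mul_comm]
      exact c1_mul _ _ _ i1
    · rw [← i2]
      refine C1_two (q l) (∏ m ∈ P, q m) (hq l (mem_insert_self _ _))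
        (Finset.prod_pos fun m hm => hq m (mem_insert_of_mem hm)) ?_ (F l) _ hl1 i1
      refine Nat.Coprime.prod_right fun m hm => ?_
      refine hc l (mem_insert_self _ _) m (mem_insert_of_mem hm) ?_
      intro h
      rw [h] at hl
      exact hl hm

end Pool.Agent.Lib.H59T
end

-- from Lib.H59T.C2
section

/-!
# Project H59T, chunk C2 (M): boxes and complete periods
-/

open Finset

namespace Pool.Agent.Lib.H59T

/-- one variable, with an approximant -/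
theorem c2_step (N L : ℕ) (hN : 0 < N) (hL : 0 < L) (f g : ℤ → ℂ) (hf : ∀ m, f (m + N) = f m) (M : ℝ)
    (hM : ∀ m, ‖f m‖ ≤ M) (c e : ℝ) (hc : 0 ≤ c) (hg : ∀ m, ‖g m - (c : ℂ) * f m‖ ≤ e) (a s : ℕ)
    (hs : N * L ≤ s) :
    ‖∑ n ∈ Ico a (a + s), g n - ((c * (s / N) : ℝ) : ℂ) * ∑ n ∈ range N, f n‖ ≤ (e + c * (2 * M / L)) * s := by
  have hM0 : 0 ≤ M := (norm_nonneg _).trans (hM 0)
  have hN0 : (0 : ℝ) < N := by exact_mod_cast hN
  have hL0 : (0 : ℝ) < L := by exact_mod_cast hL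
  have hs0 : (N : ℝ) * L ≤ s := by exact_mod_cast hs
  have h1 : ‖∑ n ∈ Ico a (a + s), (g n - (c : ℂ) * f n)‖ ≤ s * e := by
    calc ‖∑ n ∈ Ico a (a + s), (g n - (c : ℂ) * f n)‖ ≤ ∑ n ∈ Ico a (a + s), ‖g n - (c : ℂ) * f n‖ :=
          norm_sum_le _ _
      _ ≤ ∑ _n ∈ Ico a (a + s), e := Finset.sum_le_sum fun n _ => hg n
      _ = s * e := by
        rw [Finset.sum_const, Nat.card_Ico, nsmul_eq_mul]
        congr 2
        omega
  have h2 := H59P.M3c f N hN hf M hM a s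
  have h3 : ∑ n ∈ Ico a (a + s), g n - ((c * (s / N) : ℝ) : ℂ) * ∑ n ∈ range N, f n =
      ∑ n ∈ Ico a (a + s), (g n - (c : ℂ) * f n) +
        (c : ℂ) * (∑ n ∈ Ico a (a + s), f n - s * ((∑ n ∈ range N, f n) / N)) := by
    rw [Finset.sum_sub_distrib, ← Finset.mul_sum]
    push_cast
    ring
  rw [h3]
  refine (norm_add_le _ _).trans ?_
  rw [norm_mul, Complex.norm_real, Real.norm_of_nonneg hc]
  have h4 : 2 * (N : ℝ) * M ≤ 2 * M / L * s := by
    rw [div_mul_eq_mul_div, le_div_iff₀ hL0]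
    nlinarith [mul_le_mul_of_nonneg_left hs0 hM0]
  have h5 := mul_le_mul_of_nonneg_left (h2.trans h4) hc
  calc _ ≤ s * e + c * (2 * M / L * s) := add_le_add h1 h5
    _ = (e + c * (2 * M / L)) * s := by ring

theorem c2_bd (N : ℕ) (f : ℤ → ℂ) (M : ℝ) (hM : ∀ m, ‖f m‖ ≤ M) : ‖∑ n ∈ range N, f n‖ ≤ N * M := by
  calc ‖∑ n ∈ range N, f n‖ ≤ ∑ n ∈ range N, ‖f n‖ := norm_sum_le _ _
    _ ≤ ∑ _n ∈ range N, M := Finset.sum_le_sum fun n _ => hM n
    _ = N * M := by rw [Finset.sum_const, Finset.card_range, nsmul_eq_mul]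

/-- Proof. One variable (`M3c` in `H59P/M3C.lean`): for `f` periodic modulo `N`, bounded by `B`,
`‖∑_{n ∈ Ico a (a+s)} f n - (s/N) ∑_{n < N} f n‖ ≤ 2 N B ≤ (2B/L) s` if `N L ≤ s`. Four times, from the inside outwards: replace
the sum over `z'` by `H/N` times the complete sum (error `(2B/L) H`, summed over the other variables), then the sum over `z` of
`(H/N) ∑_{z' < N} F` (periodic, bounded by `H B`), etc. Total `(8B/L) s s' H H'`. -/
theorem C2_box (N L : ℕ) (hN : 0 < N) (hL : 0 < L) (F : ℤ → ℤ → ℤ → ℤ → ℂ) (hF : Per4 N F) (B : ℝ)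
    (hB : ∀ y y' z z', ‖F y y' z z'‖ ≤ B) (a a' b b' s s' H H' : ℕ) (hs : N * L ≤ s) (hs' : N * L ≤ s')
    (hH : N * L ≤ H) (hH' : N * L ≤ H') :
    ‖∑ y ∈ Ico a (a + s), ∑ y' ∈ Ico a' (a' + s'), ∑ z ∈ Ico b (b + H), ∑ z' ∈ Ico b' (b' + H'),
        F y y' z z' - (((s : ℝ) * s' * H * H' / (N : ℝ) ^ 4 : ℝ) : ℂ) * S4 N F‖ ≤
      8 * B / L * ((s : ℝ) * s' * H * H') := by
  have hN0 : (0 : ℝ) < N := by exact_mod_cast hN
  have hL0 : (0 : ℝ) < L := by exact_mod_cast hL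
  have s1 := fun y y' z : ℤ => c2_step N L hN hL (fun z' => F y y' z z') (fun z' => F y y' z z') (hF.h4 y y' z)
    B (hB y y' z) 1 0 zero_le_one (fun m => by simp) b' H' hH'
  have s2 := fun y y' : ℤ => c2_step N L hN hL (fun z => ∑ z' ∈ range N, F y y' z z')
    (fun z => ∑ z' ∈ Ico b' (b' + H'), F y y' z z')
    (fun m => Finset.sum_congr rfl fun z' _ => hF.h3 y y' m z') (N * B)
    (fun m => c2_bd N (fun z' => F y y' m z') B (hB y y' m)) _ _ (by positivity)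
    (fun m => s1 y y' m) b H hH
  have s3 := fun y : ℤ => c2_step N L hN hL (fun y' => ∑ z ∈ range N, ∑ z' ∈ range N, F y y' z z')
    (fun y' => ∑ z ∈ Ico b (b + H), ∑ z' ∈ Ico b' (b' + H'), F y y' z z')
    (fun m => Finset.sum_congr rfl fun z _ => Finset.sum_congr rfl fun z' _ => hF.h2 y m z z') (N * (N * B))
    (fun m => c2_bd N (fun z => ∑ z' ∈ range N, F y m z z') (N * B)
      (fun z => c2_bd N (fun z' => F y m z z') B (hB y m z))) _ _ (by positivity)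
    (fun m => s2 y m) a' s' hs'
  have s4 := c2_step N L hN hL (fun y => ∑ y' ∈ range N, ∑ z ∈ range N, ∑ z' ∈ range N, F y y' z z')
    (fun y => ∑ y' ∈ Ico a' (a' + s'), ∑ z ∈ Ico b (b + H), ∑ z' ∈ Ico b' (b' + H'), F y y' z z')
    (fun m => Finset.sum_congr rfl fun y' _ => Finset.sum_congr rfl fun z _ =>
      Finset.sum_congr rfl fun z' _ => hF.h1 m y' z z') (N * (N * (N * B)))
    (fun m => c2_bd N (fun y' => ∑ z ∈ range N, ∑ z' ∈ range N, F m y' z z') (N * (N * B))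
      (fun y' => c2_bd N (fun z => ∑ z' ∈ range N, F m y' z z') (N * B)
        (fun z => c2_bd N (fun z' => F m y' z z') B (hB m y' z)))) _ _ (by positivity)
    (fun m => s3 m) a s hs
  have e1 : (1 * (H' / N : ℝ) * (H / N) * (s' / N) * (s / N) : ℝ) = (s : ℝ) * s' * H * H' / (N : ℝ) ^ 4 := by
    field_simp
  rw [e1] at s4
  refine s4.trans (le_of_eq ?_)
  field_simp
  ring

end Pool.Agent.Lib.H59T
end

-- from Lib.H59T.L1
section

/-!
# Project H59T, chunk L1 (M): splitting off a coprime factor of the modulus of a primitive character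
-/

open Finset

namespace Pool.Agent.Lib.H59T

theorem l1_prim (N q m : ℕ) (hN : N = q * m) (hq : 0 < q) (hm : 0 < m)
    (χ : DirichletCharacter ℂ N) (hχ : χ.IsPrimitive)
    (χ1 : DirichletCharacter ℂ q) (χ2 : DirichletCharacter ℂ m)
    (h : ∀ n : ℤ, χ (n : ZMod N) = χ1 (n : ZMod q) * χ2 (n : ZMod m)) : χ1.IsPrimitive := by
  subst hN
  by_contra hne
  have hc : χ1.conductor ∣ q := χ1.conductor_dvd_level
  have hlt : χ1.conductor < q := lt_of_le_of_ne (Nat.le_of_dvd hq hc) hne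
  set c := χ1.conductor with hcdef
  set ψ : DirichletCharacter ℂ (c * m) :=
    DirichletCharacter.changeLevel (dvd_mul_right c m) χ1.primitiveCharacter *
      DirichletCharacter.changeLevel (dvd_mul_left m c) χ2 with hψ
  have hdvd : c * m ∣ q * m := mul_dvd_mul_right hc m
  have key : χ = DirichletCharacter.changeLevel hdvd ψ := by
    apply MulChar.ext
    intro u
    obtain ⟨n, hn⟩ := ZMod.intCast_surjective (u : ZMod (q * m))
    have hu : IsUnit ((n : ℤ) : ZMod (q * m)) := by rw [hn]; exact u.isUnit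
    have hcop : IsCoprime (n : ℤ) ((q * m : ℕ) : ℤ) :=
      ((ZMod.coe_int_isUnit_iff_isCoprime n (q * m)).1 hu).symm
    have hcopq : IsCoprime (n : ℤ) ((q : ℕ) : ℤ) := by
      push_cast at hcop
      exact hcop.of_mul_right_left
    have hcopc : IsCoprime (n : ℤ) ((c * m : ℕ) : ℤ) :=
      hcop.of_isCoprime_of_dvd_right (by exact_mod_cast hdvd)
    rw [← hn, h n, DirichletCharacter.changeLevel_eq_cast_of_dvd' ψ hdvd hcop, hψ, MulChar.mul_apply,
      DirichletCharacter.changeLevel_eq_cast_of_dvd' _ (dvd_mul_right c m) hcopc,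
      DirichletCharacter.changeLevel_eq_cast_of_dvd' _ (dvd_mul_left m c) hcopc,
      DirichletCharacter.primitiveCharacter_apply_of_isCoprime χ1 hcopq]
  have hmem : c * m ∈ χ.conductorSet := ⟨hdvd, ψ, key⟩
  have hle : χ.conductor ≤ c * m := Nat.sInf_le hmem
  have he : χ.conductor = q * m := hχ
  rw [he] at hle
  exact absurd (Nat.mul_lt_mul_of_pos_right hlt hm) (not_lt.2 hle)

/-- Proof. `e = ZMod.chineseRemainder hqm : ZMod (q * m) ≃+* ZMod q × ZMod m` sends the integer `n` to `(n, n)` (`map_intCast`).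
Put `χ1 x = χ (e.symm (x, 1))`, `χ2 y = χ (e.symm (1, y))` (`MulChar`: multiplicative, `0` at nonunits because `(x, 1)` is a unit
iff `x` is). Then `χ n = χ1 n χ2 n` since `(n, n) = (n, 1) (1, n)`. If `χ1` were not primitive, `χ1` would factor through a
proper divisor `c` of `q` (`χ1.factorsThrough_conductor`): `χ1 = changeLevel ξ`, so `χ` agrees with
`changeLevel (changeLevel ξ * changeLevel χ2)`, the inner character of modulus `c m` (equality on units, `MulChar.ext`,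
both sides evaluated at integers prime to `q m`: `DirichletCharacter.changeLevel_eq_cast_of_dvd`); so
`χ.FactorsThrough (c * m)`, and the conductor of `χ` is at most `c m < q m` (it is `sInf` of the conductor set,
`Nat.sInf_le`), a contradiction. The same for `χ2`. -/
theorem L1_split (q m : ℕ) (hq : 0 < q) (hm : 0 < m) (hqm : Nat.Coprime q m)
    (χ : DirichletCharacter ℂ (q * m)) (hχ : χ.IsPrimitive) :
    ∃ (χ1 : DirichletCharacter ℂ q) (χ2 : DirichletCharacter ℂ m), χ1.IsPrimitive ∧ χ2.IsPrimitive ∧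
      ∀ n : ℤ, χ (n : ZMod (q * m)) = χ1 (n : ZMod q) * χ2 (n : ZMod m) := by
  classical
  set e := ZMod.chineseRemainder hqm with he
  have hsymm : ∀ n : ℤ, e.symm ((n : ZMod q), (n : ZMod m)) = (n : ZMod (q * m)) := by
    intro n
    rw [RingEquiv.symm_apply_eq, map_intCast]
    rfl
  let χ1 : DirichletCharacter ℂ q :=
    { toFun := fun x => χ (e.symm (x, 1))
      map_one' := by
        have h1 : e.symm ((1 : ZMod q), (1 : ZMod m)) = 1 := map_one e.symm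
        change χ (e.symm ((1 : ZMod q), (1 : ZMod m))) = 1
        rw [h1, map_one]
      map_mul' := by
        intro x y
        change χ (e.symm ((x * y : ZMod q), (1 : ZMod m))) = χ (e.symm (x, 1)) * χ (e.symm (y, 1))
        rw [← map_mul, ← map_mul, Prod.mk_mul_mk, mul_one]
      map_nonunit' := by
        intro x hx
        change χ (e.symm (x, 1)) = 0
        apply χ.map_nonunit
        intro hu
        apply hx
        have h2 : IsUnit (e (e.symm (x, 1))) := hu.map e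
        rw [RingEquiv.apply_symm_apply, Prod.isUnit_iff] at h2
        exact h2.1 }
  let χ2 : DirichletCharacter ℂ m :=
    { toFun := fun y => χ (e.symm (1, y))
      map_one' := by
        have h1 : e.symm ((1 : ZMod q), (1 : ZMod m)) = 1 := map_one e.symm
        change χ (e.symm ((1 : ZMod q), (1 : ZMod m))) = 1
        rw [h1, map_one]
      map_mul' := by
        intro x y
        change χ (e.symm ((1 : ZMod q), (x * y : ZMod m))) = χ (e.symm (1, x)) * χ (e.symm (1, y))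
        rw [← map_mul, ← map_mul, Prod.mk_mul_mk, mul_one]
      map_nonunit' := by
        intro x hx
        change χ (e.symm (1, x)) = 0
        apply χ.map_nonunit
        intro hu
        apply hx
        have h2 : IsUnit (e (e.symm (1, x))) := hu.map e
        rw [RingEquiv.apply_symm_apply, Prod.isUnit_iff] at h2
        exact h2.2 }
  have h : ∀ n : ℤ, χ (n : ZMod (q * m)) = χ1 (n : ZMod q) * χ2 (n : ZMod m) := by
    intro n
    change χ (n : ZMod (q * m)) = χ (e.symm ((n : ZMod q), 1)) * χ (e.symm (1, (n : ZMod m)))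
    rw [← map_mul, ← map_mul, Prod.mk_mul_mk, mul_one, one_mul, hsymm]
  refine ⟨χ1, χ2, ?_, ?_, h⟩
  · exact l1_prim (q * m) q m rfl hq hm χ hχ χ1 χ2 h
  · exact l1_prim (q * m) m q (mul_comm q m) hm hq χ hχ χ2 χ1 (fun n => by rw [h n, mul_comm])

end Pool.Agent.Lib.H59T
end

-- from Lib.H59T.L2
section

/-!
# Project H59T, chunk L2 (M): a primitive character is the product of primitive characters of prime power moduli
-/

open Finset

namespace Pool.Agent.Lib.H59T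

open Pool.Agent.Lib.H68T Pool.Agent.Lib.H18Q Pool.Agent.Lib.H59P

theorem l2_aux (r : ℕ) : 0 < r → ∀ χ : DirichletCharacter ℂ r, χ.IsPrimitive → ∃ F : ℕ → Ch, LCh ⟨r, χ⟩ F := by
  induction r using Nat.recOnPosPrimePosCoprime with
  | zero => intro h; exact absurd h (lt_irrefl 0)
  | one =>
    intro _ χ _
    refine ⟨fun _ => ⟨1, χ⟩, fun l hl => ?_, fun n => ?_⟩
    · simp at hl
    · change χ (n : ZMod 1) = ∏ l ∈ (1 : ℕ).primeFactors, χ (n : ZMod 1)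
      rw [Nat.primeFactors_one, prod_empty, Subsingleton.elim (n : ZMod 1) 1, map_one]
  | prime_pow p n hp hn =>
    intro _ χ hχ
    have h1 : (p ^ n).primeFactors = {p} := Nat.primeFactors_prime_pow hn.ne' hp
    refine ⟨fun _ => ⟨p ^ n, χ⟩, fun l hl => ?_, fun m => ?_⟩
    · change l ∈ (p ^ n).primeFactors at hl
      rw [h1, mem_singleton] at hl
      refine ⟨?_, hχ⟩
      change p ^ n = l ^ (p ^ n).factorization l
      rw [hl, hp.factorization_pow, Finsupp.single_eq_same]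
    · change χ (m : ZMod (p ^ n)) = ∏ l ∈ (p ^ n).primeFactors, χ (m : ZMod (p ^ n))
      rw [h1, prod_singleton]
  | coprime a b ha hb hab iha ihb =>
    intro _ χ hχ
    obtain ⟨χ1, χ2, h1, h2, h3⟩ := L1_split a b (by omega) (by omega) hab χ hχ
    obtain ⟨F1, hF1, hF1'⟩ := iha (by omega) χ1 h1
    obtain ⟨F2, hF2, hF2'⟩ := ihb (by omega) χ2 h2
    have hdisj : Disjoint a.primeFactors b.primeFactors := hab.disjoint_primeFactors
    have hb2 : ∀ l ∈ b.primeFactors, ¬ l ∈ a.primeFactors := fun l hl hl' => disjoint_left.1 hdisj hl' hl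
    refine ⟨fun l => if l ∈ a.primeFactors then F1 l else F2 l, fun l hl => ?_, fun n => ?_⟩
    · change l ∈ (a * b).primeFactors at hl
      change (if l ∈ a.primeFactors then F1 l else F2 l).1 = l ^ (a * b).factorization l ∧
        (if l ∈ a.primeFactors then F1 l else F2 l).2.IsPrimitive
      rw [hab.primeFactors_mul, mem_union] at hl
      by_cases h4 : l ∈ a.primeFactors
      · rw [if_pos h4, Nat.factorization_eq_of_coprime_left hab (List.mem_toFinset.1 h4)]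
        exact hF1 l h4
      · have h5 : l ∈ b.primeFactors := hl.resolve_left h4
        rw [if_neg h4, Nat.factorization_eq_of_coprime_right hab (List.mem_toFinset.1 h5)]
        exact hF2 l h5
    · change χ (n : ZMod (a * b)) = ∏ l ∈ (a * b).primeFactors,
        (if l ∈ a.primeFactors then F1 l else F2 l).2 (n : ZMod (if l ∈ a.primeFactors then F1 l else F2 l).1)
      rw [h3 n, hab.primeFactors_mul, prod_union hdisj]
      have h6 := hF1' n
      have h7 := hF2' n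
      change χ1 (n : ZMod a) = ∏ l ∈ a.primeFactors, (F1 l).2 (n : ZMod (F1 l).1) at h6
      change χ2 (n : ZMod b) = ∏ l ∈ b.primeFactors, (F2 l).2 (n : ZMod (F2 l).1) at h7
      rw [h6, h7]
      refine congrArg₂ _ (prod_congr rfl fun l hl => ?_) (prod_congr rfl fun l hl => ?_)
      · rw [if_pos hl]
      · rw [if_neg (hb2 l hl)]

/-- Proof. Strong induction on `p.1` (destruct `p = ⟨r, χ⟩`). `r = 1`: `ZMod 1` is a subsingleton, `χ n = χ 1 = 1`, empty product.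
`r > 1`: `l = r.minFac`, `r = l^a m` with `a = r.factorization l` (`Nat.ordProj_mul_ordCompl_eq_self`, `m = ordCompl[l] r`, positive,
coprime to `l`); `subst`/generalize so that `L1_split` applies (`q = l^a`); the induction hypothesis for `⟨m, χ2⟩` gives `F'`,
`F = Function.update F' l ⟨l^a, χ1⟩`. The prime factors of `r` are `l` and those of `m`, and the exponents in `r` and
`m` agree at the primes other than `l` (`Nat.factorization_ordCompl`). -/
theorem L2_family (p : Ch) (h0 : 0 < p.1) (hp : p.2.IsPrimitive) : ∃ F : ℕ → Ch, LCh p F := by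
  obtain ⟨r, χ⟩ := p
  exact l2_aux r h0 χ hp

/-- Proof. `Exists.choose_spec`. -/
theorem L2_spec (p : Ch) (h0 : 0 < p.1) (hp : p.2.IsPrimitive) : LCh p (lch p) := by
  have h : ∃ F : ℕ → Ch, LCh p F := L2_family p h0 hp
  unfold lch
  rw [dif_pos h]
  exact h.choose_spec

end Pool.Agent.Lib.H59T
end

-- from Lib.H59T.L3
section

/-!
# Project H59T, chunk L3 (M): the components as products of local factors
-/

open Finset

namespace Pool.Agent.Lib.H59T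

open Pool.Agent.Lib.H68T Pool.Agent.Lib.H18Q Pool.Agent.Lib.H59P

/-- Proof. `r/φ(r) = ∏_{l ∣ r} l/(l-1)` (`GAM_ratio` in `H68T/GAM1`), `conj χ(m) = ∏ conj χ_l(m)` (`L2_spec`, `map_prod`),
`μ(κ) c_κ(m)/φ(κ) = GAM_F 1 m κ` (`CA_F_one` in `H18Q/CA`), multiplicative (`GAM_F_mult`, `prod_primeFactors` for squarefree
`κ`), with the value `gl l m` at the primes (`GAM_F_prime` for `r = 1`). For `l ∈ P` dividing neither `p.1` nor `κ` the
local factor is `1` (`Finset.prod_subset`); no prime divides both. -/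
theorem L3_gk (p : Ch) (h0 : 0 < p.1) (hp : p.2.IsPrimitive) (κ : ℕ) (hκ : Squarefree κ)
    (hc : Nat.Coprime κ p.1) (P : Finset ℕ) (hP : ∀ l ∈ P, l.Prime) (h1 : p.1.primeFactors ⊆ P)
    (h2 : κ.primeFactors ⊆ P) (m : ℤ) : gk p κ m = ∏ l ∈ P, lf p κ l m := by
  have f1 : P.filter (fun l => l ∣ p.1) = p.1.primeFactors := by
    ext l
    rw [mem_filter, Nat.mem_primeFactors]
    constructor
    · rintro ⟨h, h'⟩
      exact ⟨hP l h, h', h0.ne'⟩
    · rintro ⟨h, h', h''⟩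
      exact ⟨h1 (Nat.mem_primeFactors.2 ⟨h, h', h''⟩), h'⟩
  have f2 : P.filter (fun l => l ∣ κ) = κ.primeFactors := by
    ext l
    rw [mem_filter, Nat.mem_primeFactors]
    constructor
    · rintro ⟨h, h'⟩
      exact ⟨hP l h, h', hκ.ne_zero⟩
    · rintro ⟨h, h', h''⟩
      exact ⟨h2 (Nat.mem_primeFactors.2 ⟨h, h', h''⟩), h'⟩
  have e1 : ∀ l ∈ P, lf p κ l m =
      (if l ∣ p.1 then (((l : ℝ) / ((l : ℝ) - 1) : ℝ) : ℂ) * cj (lch p l) m else 1) *
        (if l ∣ κ then ((gl l m : ℝ) : ℂ) else 1) := by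
    intro l hl
    unfold lf
    by_cases a : l ∣ p.1
    · have b : ¬ l ∣ κ := fun h => (hP l hl).one_lt.ne' (Nat.dvd_one.1 (hc ▸ Nat.dvd_gcd h a))
      rw [if_pos a, if_pos a, if_neg b, mul_one]
    · rw [if_neg a, if_neg a, one_mul]
  have L := L2_spec p h0 hp
  rw [Finset.prod_congr rfl e1, Finset.prod_mul_distrib, ← Finset.prod_filter, ← Finset.prod_filter,
    f1, f2, Finset.prod_mul_distrib]
  unfold gk
  rw [GAM_ratio p.1 h0.ne', ← CA_F_one, ← (GAM_F_mult 1 m).prod_primeFactors hκ, L.2 m, map_prod,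
    Complex.ofReal_prod, Complex.ofReal_prod]
  have e2 : ∀ l ∈ κ.primeFactors, ((GAM_F 1 m l : ℝ) : ℂ) = ((gl l m : ℝ) : ℂ) := by
    intro l hl
    have hl' := (Nat.mem_primeFactors.1 hl).1
    have h2 : ¬ l ∣ 1 := fun h => hl'.one_lt.ne' (Nat.dvd_one.1 h)
    rw [GAM_F_prime 1 m l hl', if_neg h2]
    rfl
  rw [Finset.prod_congr rfl e2]
  rfl

/-- The doubled product. Proof. `L3_gk`, exchange of products (`Finset.prod_comm`), `map_prod`. -/
theorem L3_Db {k : ℕ} (ψ : Fm k) (p : Fin k → Ch) (hp : Pm p) (κ κ' : Fin k → ℕ) (hκ : Kp p κ)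
    (hκ' : Kp p κ') (P : Finset ℕ) (hP : ∀ l ∈ P, l.Prime) (h1 : ∀ i, (p i).1.primeFactors ⊆ P)
    (h2 : ∀ i, (κ i).primeFactors ⊆ P) (h3 : ∀ i, (κ' i).primeFactors ⊆ P) (y y' z z' : ℤ) :
    Db ψ (fun i => gk (p i) (κ i)) (fun i => gk (p i) (κ' i)) y y' z z' =
      ∏ l ∈ P, Db ψ (fun i => lf (p i) (κ i) l) (fun i => lf (p i) (κ' i) l) y y' z z' := by
  unfold Db
  rw [Finset.prod_comm]
  refine Finset.prod_congr rfl fun i _ => ?_
  change gk (p i) (κ i) (ψ i y y' z) * (starRingEnd ℂ) (gk (p i) (κ' i) (ψ i y y' z')) =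
    ∏ x ∈ P, lf (p i) (κ i) x (ψ i y y' z) * (starRingEnd ℂ) (lf (p i) (κ' i) x (ψ i y y' z'))
  rw [L3_gk (p i) (hp i).1 (hp i).2 (κ i) (hκ i).1 (hκ i).2 P hP (h1 i) (h2 i),
    L3_gk (p i) (hp i).1 (hp i).2 (κ' i) (hκ' i).1 (hκ' i).2 P hP (h1 i) (h3 i), map_prod,
    ← Finset.prod_mul_distrib]

end Pool.Agent.Lib.H59T
end

-- from Lib.H59T.L4
section

/-!
# Project H59T, chunk L4 (S/M): size and periods of the local factors
-/

open Finset

namespace Pool.Agent.Lib.H59T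

open Pool.Agent.Lib.H68T Pool.Agent.Lib.H18Q Pool.Agent.Lib.H59P

theorem L4_norm (p : Ch) (κ l : ℕ) (hl : l.Prime) (m : ℤ) : ‖lf p κ l m‖ ≤ 2 := by
  have h2 : (2 : ℝ) ≤ l := by exact_mod_cast hl.two_le
  have h1 : (0 : ℝ) < (l : ℝ) - 1 := by linarith
  unfold lf
  split_ifs with ha hb
  · rw [norm_mul, Complex.norm_real, Real.norm_eq_abs, abs_of_nonneg (by positivity)]
    have h3 : ‖cj (lch p l) m‖ ≤ 1 := by
      unfold cj
      rw [RCLike.norm_conj]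
      exact DirichletCharacter.norm_le_one _ _
    have h4 : (l : ℝ) / ((l : ℝ) - 1) ≤ 2 := by
      rw [div_le_iff₀ h1]
      linarith
    calc (l : ℝ) / ((l : ℝ) - 1) * ‖cj (lch p l) m‖ ≤ 2 * 1 := by
          apply mul_le_mul h4 h3 (norm_nonneg _) (by norm_num)
      _ = 2 := by norm_num
  · rw [Complex.norm_real, Real.norm_eq_abs]
    unfold gl
    split_ifs
    · norm_num
    · rw [abs_of_nonneg (by positivity), div_le_iff₀ h1]
      linarith
  · norm_num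

theorem L4_per (p : Ch) (h0 : 0 < p.1) (hp : p.2.IsPrimitive) (κ l b : ℕ) (hl : l.Prime) (hb : 1 ≤ b)
    (hb' : p.1.factorization l ≤ b) (m t : ℤ) : lf p κ l (m + (l : ℤ) ^ b * t) = lf p κ l m := by
  unfold lf
  split_ifs with ha hc
  · have hs := (L2_spec p h0 hp).1 l (Nat.mem_primeFactors.2 ⟨hl, ha, h0.ne'⟩)
    have h1 : ((m + (l : ℤ) ^ b * t : ℤ) : ZMod (lch p l).1) = (m : ZMod (lch p l).1) := by
      have h2 : ((l ^ b : ℕ) : ZMod (lch p l).1) = 0 := by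
        rw [ZMod.natCast_eq_zero_iff, hs.1]
        exact pow_dvd_pow _ hb'
      push_cast at h2 ⊢
      rw [h2]
      ring
    unfold cj
    rw [h1]
  · have h1 : ((l : ℤ) ∣ m + (l : ℤ) ^ b * t) ↔ (l : ℤ) ∣ m := by
      apply Int.dvd_add_left
      exact Dvd.dvd.mul_right (dvd_pow_self _ (by omega)) _
    unfold gl
    simp only [h1]
  · rfl

theorem L4_char (p : Ch) (h0 : 0 < p.1) (hp : p.2.IsPrimitive) (l : ℕ) (hl : l.Prime) (hd : l ∣ p.1) :
    ∃ χ : DirichletCharacter ℂ (l ^ p.1.factorization l), χ.IsPrimitive ∧ ∀ (κ : ℕ) (m : ℤ),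
      lf p κ l m = (((l : ℝ) / ((l : ℝ) - 1) : ℝ) : ℂ) *
        (starRingEnd ℂ) (χ (m : ZMod (l ^ p.1.factorization l))) := by
  have hs := (L2_spec p h0 hp).1 l (Nat.mem_primeFactors.2 ⟨hl, hd, h0.ne'⟩)
  have hlf : ∀ (κ : ℕ) (m : ℤ), lf p κ l m = (((l : ℝ) / ((l : ℝ) - 1) : ℝ) : ℂ) * cj (lch p l) m := by
    intro κ m
    unfold lf
    rw [if_pos hd]
  generalize lch p l = q at hs hlf
  generalize l ^ p.1.factorization l = N at hs
  obtain ⟨r, χ⟩ := q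
  obtain ⟨h1, h2⟩ := hs
  dsimp only at h1 h2
  subst h1
  exact ⟨χ, h2, fun κ m => hlf κ m⟩

theorem L4_Per4 {k : ℕ} (ψ : Fm k) (hψ : CpF ψ) (p : Fin k → Ch) (hp : Pm p) (κ κ' : Fin k → ℕ) (l b : ℕ)
    (hl : l.Prime) (hb : 1 ≤ b) (hb' : ∀ i, (p i).1.factorization l ≤ b) :
    Per4 (l ^ b) (Db ψ (fun i => lf (p i) (κ i) l) (fun i => lf (p i) (κ' i) l)) := by
  have key : ∀ (i : Fin k) (K : ℕ) (u v : ℤ), (((l ^ b : ℕ) : ℤ) ∣ u - v) → lf (p i) K l u = lf (p i) K l v := by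
    intro i K u v h
    obtain ⟨t, ht⟩ := h
    have h1 : u = v + (l : ℤ) ^ b * t := by
      push_cast at ht
      linarith
    rw [h1]
    exact L4_per (p i) (hp i).1 (hp i).2 K l b hl hb (hb' i) v t
  constructor
  · intro y y' z z'
    unfold Db
    refine Finset.prod_congr rfl fun i _ => ?_
    beta_reduce
    rw [key i _ _ _ (hψ i _ y y' z).1, key i _ _ _ (hψ i _ y y' z').1]
  · intro y y' z z'
    unfold Db
    refine Finset.prod_congr rfl fun i _ => ?_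
    beta_reduce
    rw [key i _ _ _ (hψ i _ y y' z).2.1, key i _ _ _ (hψ i _ y y' z').2.1]
  · intro y y' z z'
    unfold Db
    refine Finset.prod_congr rfl fun i _ => ?_
    beta_reduce
    rw [key i _ _ _ (hψ i _ y y' z).2.2]
  · intro y y' z z'
    unfold Db
    refine Finset.prod_congr rfl fun i _ => ?_
    beta_reduce
    rw [key i _ _ _ (hψ i _ y y' z').2.2]

end Pool.Agent.Lib.H59T
end

-- from Lib.H59T.U1
section

/-!
# Project H59T, chunk U1 (M): the four-point sums of a primitive character of prime power modulus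
-/

open Finset

namespace Pool.Agent.Lib.H59T

/-- the change of variables -/
def u1_equiv (R : Type*) [CommRing R] : R × R × R × R ≃ R × R × R × R where
  toFun x := (x.1, x.1 + x.2.2.2, x.2.1 - x.1, x.2.1 - x.1 + x.2.2.1)
  invFun x := (x.1, x.1 + x.2.2.1, x.2.2.2 - x.2.2.1, x.2.1 - x.1)
  left_inv x := by
    obtain ⟨z, s, A, B⟩ := x
    simp only [Prod.mk.injEq, true_and]
    refine ⟨by ring, by ring, by ring⟩
  right_inv x := by
    obtain ⟨z, s, A, B⟩ := x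
    simp only [Prod.mk.injEq, true_and]
    refine ⟨by ring, by ring, by ring⟩

/-- averaging over the shift: `‖U4‖` is at most the number of bad `s` -/
theorem u1_norm (l a m n : ℕ) (hl : l.Prime) (ha : a = m + n) (hn : 1 ≤ n) (hmn : n ≤ m) [NeZero (l ^ a)]
    (χ : DirichletCharacter ℂ (l ^ a)) (hχ : χ.IsPrimitive) (A B : ZMod (l ^ a)) :
    ‖U4 χ A B‖ ≤ (((univ : Finset (ZMod (l ^ a))).filter
      (fun s => l ^ n ∣ (2 * (2 * s + A + B) * A * B).val)).card : ℝ) := by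
  set T : ZMod (l ^ a) → ℂ := fun s => χ s * star (χ (s + A)) * star (χ (s + B)) * χ (s + A + B) with hT
  have hχ1 : ∀ s, ‖χ s‖ ≤ 1 := fun s => DirichletCharacter.norm_le_one χ s
  have hTn : ∀ s, ‖T s‖ ≤ 1 := by
    intro s
    simp only [hT, norm_mul, norm_star]
    exact mul_le_one₀ (mul_le_one₀ (mul_le_one₀ (hχ1 _) (norm_nonneg _) (hχ1 _)) (norm_nonneg _) (hχ1 _))
      (norm_nonneg _) (hχ1 _)
  have hq0 : (0 : ℝ) < ((l ^ a : ℕ) : ℝ) := by exact_mod_cast Nat.pos_of_ne_zero (NeZero.ne (l ^ a))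
  have h1 : ∀ v : ZMod (l ^ a), ∑ s, T (s + 2 * (l : ZMod (l ^ a)) ^ m * v) = U4 χ A B := by
    intro v
    rw [← Equiv.sum_comp (Equiv.addRight (-(2 * (l : ZMod (l ^ a)) ^ m * v)))]
    unfold U4
    refine Finset.sum_congr rfl fun s _ => ?_
    simp only [Equiv.coe_addRight, neg_add_cancel_right, hT]
  have h2 : ((l ^ a : ℕ) : ℂ) * U4 χ A B = ∑ s, ∑ v : ZMod (l ^ a), T (s + 2 * (l : ZMod (l ^ a)) ^ m * v) := by
    rw [Finset.sum_comm, Finset.sum_congr rfl fun v _ => h1 v, Finset.sum_const, Finset.card_univ, ZMod.card,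
      nsmul_eq_mul]
  have h3 : ∀ s : ZMod (l ^ a), ¬ l ^ n ∣ (2 * (2 * s + A + B) * A * B).val →
      ∑ v : ZMod (l ^ a), T (s + 2 * (l : ZMod (l ^ a)) ^ m * v) = 0 := by
    intro s hs
    have e0 : 2 * (2 * s + A + B) * A * B = 2 * (s + (s + B) + 0 + A) * (s - (s + B)) * (0 - A) := by ring
    rw [e0] at hs
    have h4 := G3 l a m n hl ha hn hmn χ hχ s (s + B) 0 A hs
    rw [← h4]
    refine Finset.sum_congr rfl fun v _ => ?_
    simp only [hT]
    have a1 : s + 0 + 2 * (l : ZMod (l ^ a)) ^ m * v = s + 2 * (l : ZMod (l ^ a)) ^ m * v := by ring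
    have a2 : s + B + 0 + 2 * (l : ZMod (l ^ a)) ^ m * v = s + 2 * (l : ZMod (l ^ a)) ^ m * v + B := by ring
    have a3 : s + A + 2 * (l : ZMod (l ^ a)) ^ m * v = s + 2 * (l : ZMod (l ^ a)) ^ m * v + A := by ring
    have a4 : s + B + A + 2 * (l : ZMod (l ^ a)) ^ m * v = s + 2 * (l : ZMod (l ^ a)) ^ m * v + A + B := by ring
    rw [a1, a2, a3, a4]
    ring
  have h5 : ((l ^ a : ℕ) : ℝ) * ‖U4 χ A B‖ ≤ ∑ s : ZMod (l ^ a),
      (if l ^ n ∣ (2 * (2 * s + A + B) * A * B).val then ((l ^ a : ℕ) : ℝ) else 0) := by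
    have e1 : ((l ^ a : ℕ) : ℝ) * ‖U4 χ A B‖ = ‖((l ^ a : ℕ) : ℂ) * U4 χ A B‖ := by
      rw [norm_mul, Complex.norm_natCast]
    rw [e1, h2]
    refine (norm_sum_le _ _).trans (Finset.sum_le_sum fun s _ => ?_)
    split_ifs with hp
    · refine (norm_sum_le _ _).trans ?_
      calc ∑ v : ZMod (l ^ a), ‖T (s + 2 * (l : ZMod (l ^ a)) ^ m * v)‖ ≤ ∑ _v : ZMod (l ^ a), (1 : ℝ) :=
            Finset.sum_le_sum fun v _ => hTn _
        _ = ((l ^ a : ℕ) : ℝ) := by rw [Finset.sum_const, Finset.card_univ, ZMod.card, nsmul_eq_mul, mul_one]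
    · rw [h3 s hp, norm_zero]
  rw [← Finset.sum_filter, Finset.sum_const, nsmul_eq_mul, mul_comm] at h5
  exact le_of_mul_le_mul_right h5 hq0

/-- Proof. `N = l^a`, `n = a/2`, `m = a - n` (`2 m ≥ a`). In `U4 χ A B` replace `s` by `s + l^m v` and sum over `v`: if one of the four
arguments `s, s+A, s+B, s+A+B` is not a unit the term is `0` for all `v`; otherwise the factor is
`χ(1 + l^m (K v))`, `K = s⁻¹ - (s+A)⁻¹ - (s+B)⁻¹ + (s+A+B)⁻¹ = u A B (2s + A + B)` with `u` a unit (`G2_add`, `star χ = χ⁻¹` on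
units; see `g3_unit`, `g3_star` in `G3.lean`), and the sum over `v` is `0` unless `l^n ∣ (A B (2s+A+B)).val` (`G2_mean`; a unit
does not change divisibility). So `‖U4 χ A B‖` is at most the number of `s` with this property, and at most `N`; hence
`∑ ‖U4‖² ≤ N · #{(s,A,B) : l^n ∣ A B (2s+A+B)}`. Each such triple gives `N` quadruples `(z1, z2, y1, y2)` with
`s = z1 + y1`, `B = z2 - z1`, `A = y2 - y1` (`z1` free), for which `l^n` divides `2 (z1+z2+y1+y2)(z1-z2)(y1-y2)`: `G4` gives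
`#triples ≤ 6 N³ l^(-n/3)`, and `n ≥ a/3`. -/
theorem U1_pow (l a : ℕ) (hl : l.Prime) (ha : 2 ≤ a) [NeZero (l ^ a)] (χ : DirichletCharacter ℂ (l ^ a))
    (hχ : χ.IsPrimitive) :
    ∑ A : ZMod (l ^ a), ∑ B : ZMod (l ^ a), ‖U4 χ A B‖ ^ 2 ≤
      6 * ((l ^ a : ℕ) : ℝ) ^ 4 * (l : ℝ) ^ (-(a / 9 : ℝ)) := by
  classical
  obtain ⟨n, hn⟩ : ∃ n : ℕ, n = a / 2 := ⟨_, rfl⟩
  have hχ1 : ∀ s, ‖χ s‖ ≤ 1 := fun s => DirichletCharacter.norm_le_one χ s
  have hN : ∀ A B, ‖U4 χ A B‖ ≤ ((l ^ a : ℕ) : ℝ) := by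
    intro A B
    unfold U4
    refine (norm_sum_le _ _).trans ?_
    calc _ ≤ ∑ _v : ZMod (l ^ a), (1 : ℝ) := Finset.sum_le_sum fun s _ => by
            simp only [norm_mul, norm_star]
            exact mul_le_one₀ (mul_le_one₀ (mul_le_one₀ (hχ1 _) (norm_nonneg _) (hχ1 _)) (norm_nonneg _) (hχ1 _))
              (norm_nonneg _) (hχ1 _)
      _ = ((l ^ a : ℕ) : ℝ) := by rw [Finset.sum_const, Finset.card_univ, ZMod.card, nsmul_eq_mul, mul_one]
  have h1 : ∀ A B : ZMod (l ^ a), ‖U4 χ A B‖ ^ 2 ≤ ∑ _z : ZMod (l ^ a), ∑ s : ZMod (l ^ a),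
      (if l ^ n ∣ (2 * (2 * s + A + B) * A * B).val then (1 : ℝ) else 0) := by
    intro A B
    have h2 := u1_norm l a (a - n) n hl (by omega) (by omega) (by omega) χ hχ A B
    rw [Finset.sum_const, Finset.card_univ, ZMod.card, nsmul_eq_mul, ← Finset.sum_filter, Finset.sum_const,
      nsmul_eq_mul, mul_one, sq]
    exact mul_le_mul (hN A B) h2 (norm_nonneg _) (by positivity)
  have h3 : ∑ A : ZMod (l ^ a), ∑ B : ZMod (l ^ a), ‖U4 χ A B‖ ^ 2 ≤
      (((univ : Finset (ZMod (l ^ a) × ZMod (l ^ a) × ZMod (l ^ a) × ZMod (l ^ a))).filter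
      (fun x => l ^ n ∣ (2 * (x.1 + x.2.1 + x.2.2.1 + x.2.2.2) * (x.1 - x.2.1) *
        (x.2.2.1 - x.2.2.2)).val)).card : ℝ) := by
    have e1 : (((univ : Finset (ZMod (l ^ a) × ZMod (l ^ a) × ZMod (l ^ a) × ZMod (l ^ a))).filter
      (fun x => l ^ n ∣ (2 * (x.1 + x.2.1 + x.2.2.1 + x.2.2.2) * (x.1 - x.2.1) *
        (x.2.2.1 - x.2.2.2)).val)).card : ℝ) =
        ∑ x : ZMod (l ^ a) × ZMod (l ^ a) × ZMod (l ^ a) × ZMod (l ^ a),
          (if l ^ n ∣ (2 * (x.1 + x.2.1 + x.2.2.1 + x.2.2.2) * (x.1 - x.2.1) *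
        (x.2.2.1 - x.2.2.2)).val then (1 : ℝ) else 0) := by
      rw [← Finset.sum_filter, Finset.sum_const, nsmul_eq_mul, mul_one]
    rw [e1, ← Equiv.sum_comp (u1_equiv (ZMod (l ^ a)))]
    have e2 : ∑ x : ZMod (l ^ a) × ZMod (l ^ a) × ZMod (l ^ a) × ZMod (l ^ a),
        (if l ^ n ∣ (2 * ((u1_equiv (ZMod (l ^ a)) x).1 + (u1_equiv (ZMod (l ^ a)) x).2.1 +
          (u1_equiv (ZMod (l ^ a)) x).2.2.1 + (u1_equiv (ZMod (l ^ a)) x).2.2.2) *
          ((u1_equiv (ZMod (l ^ a)) x).1 - (u1_equiv (ZMod (l ^ a)) x).2.1) *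
          ((u1_equiv (ZMod (l ^ a)) x).2.2.1 - (u1_equiv (ZMod (l ^ a)) x).2.2.2)).val then (1 : ℝ) else 0) =
        ∑ A : ZMod (l ^ a), ∑ B : ZMod (l ^ a), ∑ _z : ZMod (l ^ a), ∑ s : ZMod (l ^ a),
          (if l ^ n ∣ (2 * (2 * s + A + B) * A * B).val then (1 : ℝ) else 0) := by
      rw [Fintype.sum_prod_type]
      have e3 : ∀ z : ZMod (l ^ a), ∑ y : ZMod (l ^ a) × ZMod (l ^ a) × ZMod (l ^ a),
        (if l ^ n ∣ (2 * ((u1_equiv (ZMod (l ^ a)) (z, y)).1 + (u1_equiv (ZMod (l ^ a)) (z, y)).2.1 +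
          (u1_equiv (ZMod (l ^ a)) (z, y)).2.2.1 + (u1_equiv (ZMod (l ^ a)) (z, y)).2.2.2) *
          ((u1_equiv (ZMod (l ^ a)) (z, y)).1 - (u1_equiv (ZMod (l ^ a)) (z, y)).2.1) *
          ((u1_equiv (ZMod (l ^ a)) (z, y)).2.2.1 - (u1_equiv (ZMod (l ^ a)) (z, y)).2.2.2)).val
            then (1 : ℝ) else 0) =
          ∑ A : ZMod (l ^ a), ∑ B : ZMod (l ^ a), ∑ s : ZMod (l ^ a),
          (if l ^ n ∣ (2 * (2 * s + A + B) * A * B).val then (1 : ℝ) else 0) := by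
        intro z
        rw [Fintype.sum_prod_type, Finset.sum_comm' (t' := (univ : Finset (ZMod (l ^ a) × ZMod (l ^ a))))
          (s' := fun _ => (univ : Finset (ZMod (l ^ a)))) (by simp), Fintype.sum_prod_type]
        refine Finset.sum_congr rfl fun A _ => Finset.sum_congr rfl fun B _ =>
          Finset.sum_congr rfl fun s _ => ?_
        have e4 : 2 * ((u1_equiv (ZMod (l ^ a)) (z, s, A, B)).1 + (u1_equiv (ZMod (l ^ a)) (z, s, A, B)).2.1 +
          (u1_equiv (ZMod (l ^ a)) (z, s, A, B)).2.2.1 + (u1_equiv (ZMod (l ^ a)) (z, s, A, B)).2.2.2) *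
          ((u1_equiv (ZMod (l ^ a)) (z, s, A, B)).1 - (u1_equiv (ZMod (l ^ a)) (z, s, A, B)).2.1) *
          ((u1_equiv (ZMod (l ^ a)) (z, s, A, B)).2.2.1 - (u1_equiv (ZMod (l ^ a)) (z, s, A, B)).2.2.2) =
            2 * (2 * s + A + B) * A * B := by
          simp only [u1_equiv, Equiv.coe_fn_mk]
          ring
        rw [e4]
      rw [Finset.sum_congr rfl fun z _ => e3 z, Finset.sum_comm]
      exact Finset.sum_congr rfl fun A _ => Finset.sum_comm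
    rw [e2]
    exact Finset.sum_le_sum fun A _ => Finset.sum_le_sum fun B _ => h1 A B
  refine h3.trans ((G4 l a n hl (by omega)).trans ?_)
  refine mul_le_mul_of_nonneg_left ?_ (by positivity)
  refine Real.rpow_le_rpow_of_exponent_le (by exact_mod_cast hl.one_lt.le) ?_
  have h2 : (a : ℝ) ≤ 3 * n := by exact_mod_cast (by omega : a ≤ 3 * n)
  linarith

theorem u1_prime (q l : ℕ) (hql : q = l) (hl : l.Prime) [NeZero q] (χ : DirichletCharacter ℂ q)
    (hχ : χ.IsPrimitive) : ∑ A : ZMod q, ∑ B : ZMod q, ‖U4 χ A B‖ ^ 2 ≤ 13 * (l : ℝ) ^ 3 := by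
  subst hql
  have := Fact.mk hl
  have h1 : χ ≠ 1 := by
    intro h
    rw [h, DirichletCharacter.isPrimitive_def, DirichletCharacter.conductor_one] at hχ
    exact hl.one_lt.ne hχ
  have h2 : q ≠ 2 := by
    intro h
    subst h
    refine h1 (MulChar.ext fun u => ?_)
    have hu : u = 1 := by
      apply Units.ext
      have h3 : (u : ZMod 2) ≠ 0 := u.ne_zero
      exact g5_two _ h3
    rw [hu]
    simp
  have h3 := K4 q h2 χ h1
  exact h3

/-- Proof. `a ≥ 2`: `U1_pow`. `a = 1`: `l ≠ 2`, `χ ≠ 1` as in `G5` (`G5.lean`), `K4`: `13 l³ ≤ 13 l⁴ l^(-1/9)`. `UU χ` and the sum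
of the `‖U4 χ A B‖²` are the same by definition. -/
theorem U1_all (l a : ℕ) (hl : l.Prime) (ha : 1 ≤ a) [NeZero (l ^ a)] (χ : DirichletCharacter ℂ (l ^ a))
    (hχ : χ.IsPrimitive) : UU (fun s => χ s) ≤ 13 * ((l ^ a : ℕ) : ℝ) ^ 4 * (l : ℝ) ^ (-(a / 9 : ℝ)) := by
  have e0 : UU (fun s => χ s) = ∑ A : ZMod (l ^ a), ∑ B : ZMod (l ^ a), ‖U4 χ A B‖ ^ 2 := rfl
  rw [e0]
  have hl1 : (1 : ℝ) ≤ l := by exact_mod_cast hl.one_lt.le
  have hl0 : (0 : ℝ) < l := by linarith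
  rcases Nat.lt_or_ge a 2 with h | h
  · have ha1 : a = 1 := by omega
    subst ha1
    refine (u1_prime (l ^ 1) l (pow_one l) hl χ hχ).trans ?_
    have e1 : ((l ^ 1 : ℕ) : ℝ) ^ 4 * (l : ℝ) ^ (-(((1 : ℕ) : ℝ) / 9 : ℝ)) = (l : ℝ) ^ (4 - 1 / 9 : ℝ) := by
      rw [pow_one, ← Real.rpow_natCast, ← Real.rpow_add hl0]
      congr 1
      push_cast
      ring
    rw [mul_assoc, e1]
    have e2 : (l : ℝ) ^ (3 : ℝ) ≤ (l : ℝ) ^ (4 - 1 / 9 : ℝ) :=
      Real.rpow_le_rpow_of_exponent_le hl1 (by norm_num)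
    have e3 : (l : ℝ) ^ (3 : ℝ) = (l : ℝ) ^ 3 := by
      rw [← Real.rpow_natCast]
      norm_num
    rw [e3] at e2
    linarith
  · refine (U1_pow l a hl h χ hχ).trans ?_
    have h4 : 0 ≤ ((l ^ a : ℕ) : ℝ) ^ 4 * (l : ℝ) ^ (-(a / 9 : ℝ)) := by positivity
    nlinarith

end Pool.Agent.Lib.H59T
end

-- from Lib.H59T.F1
section

/-!
# Project H59T, chunk F1 (M): the complete sums
-/

open Finset

namespace Pool.Agent.Lib.H59T

open Pool.Agent.Lib.H68T Pool.Agent.Lib.H18Q Pool.Agent.Lib.H59P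

/-- Proof. A product of different primes not dividing `R`. -/
theorem F1_dof {k : ℕ} (R : ℕ) (κ κ' : Fin k → ℕ) : 0 < dof R κ κ' ∧ Squarefree (dof R κ κ') ∧
    Nat.Coprime (dof R κ κ') R ∧ (∀ l : ℕ, l.Prime → (l ∣ dof R κ κ' ↔ ¬ l ∣ R ∧
      ∃ i, (l ∣ κ i ∧ κ i ≠ 0) ∨ (l ∣ κ' i ∧ κ' i ≠ 0))) := by
  classical
  obtain ⟨T, hT⟩ : ∃ T : Finset ℕ, T = (univ.biUnion fun i : Fin k =>
      (κ i).primeFactors ∪ (κ' i).primeFactors).filter (fun l => ¬ l ∣ R) := ⟨_, rfl⟩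
  have hmem : ∀ l, l ∈ T ↔ (l.Prime ∧ ¬ l ∣ R ∧
      ∃ i, (l ∣ κ i ∧ κ i ≠ 0) ∨ (l ∣ κ' i ∧ κ' i ≠ 0)) := by
    intro l
    rw [hT, mem_filter, mem_biUnion]
    constructor
    · rintro ⟨⟨i, -, hi⟩, hR⟩
      rw [mem_union, Nat.mem_primeFactors, Nat.mem_primeFactors] at hi
      rcases hi with ⟨h1, h2, h3⟩ | ⟨h1, h2, h3⟩
      · exact ⟨h1, hR, i, Or.inl ⟨h2, h3⟩⟩
      · exact ⟨h1, hR, i, Or.inr ⟨h2, h3⟩⟩
    · rintro ⟨h1, hR, i, ⟨h2, h3⟩ | ⟨h2, h3⟩⟩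
      · exact ⟨⟨i, mem_univ _, mem_union_left _ (Nat.mem_primeFactors.2 ⟨h1, h2, h3⟩)⟩, hR⟩
      · exact ⟨⟨i, mem_univ _, mem_union_right _ (Nat.mem_primeFactors.2 ⟨h1, h2, h3⟩)⟩, hR⟩
  have hd : dof R κ κ' = ∏ l ∈ T, l := by
    rw [hT]
    unfold dof
    refine Finset.prod_congr ?_ fun _ _ => rfl
    ext l
    simp only [mem_filter, mem_biUnion]
  have hpr : ∀ l ∈ T, l.Prime := fun l hl => ((hmem l).1 hl).1
  rw [hd]
  refine ⟨Finset.prod_pos fun l hl => (hpr l hl).pos, ?_, ?_, ?_⟩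
  · have key : ∀ S : Finset ℕ, (∀ l ∈ S, l.Prime) → Squarefree (∏ l ∈ S, l) := by
      intro S
      induction S using Finset.induction_on with
      | empty =>
        intro _
        rw [prod_empty]
        exact squarefree_one
      | insert l S hl ih =>
        intro h
        rw [prod_insert hl, Nat.squarefree_mul_iff]
        refine ⟨?_, (h l (mem_insert_self _ _)).squarefree, ih fun l' hl' => h l' (mem_insert_of_mem hl')⟩
        refine Nat.Coprime.prod_right fun l' hl' => ?_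
        refine (Nat.coprime_primes (h l (mem_insert_self _ _)) (h l' (mem_insert_of_mem hl'))).2 ?_
        rintro rfl
        exact hl hl'
    exact key T hpr
  · refine Nat.Coprime.prod_left fun l hl => ?_
    exact (Nat.Prime.coprime_iff_not_dvd (hpr l hl)).2 ((hmem l).1 hl).2.1
  · intro l hl
    rw [Prime.dvd_finsetProd_iff hl.prime]
    constructor
    · rintro ⟨l', hl', hdv⟩
      have h1 : l = l' := (Nat.prime_dvd_prime_iff_eq hl (hpr l' hl')).1 hdv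
      subst h1
      exact ((hmem l).1 hl').2
    · intro h
      exact ⟨l, (hmem l).2 ⟨hl, h⟩, dvd_rfl⟩

/-- Proof. `2^(ω(n)) ≤ τ(n)` (`Nat.Coprime.card_divisors_mul`/`Nat.card_divisors`). -/
theorem F1_tau (n A : ℕ) (hn : 0 < n) : (2 : ℝ) ^ (A * n.primeFactors.card) ≤ tau n ^ A := by
  have h1 : 2 ^ n.primeFactors.card ≤ n.divisors.card := by
    rw [Nat.card_divisors hn.ne', ← Finset.prod_const]
    refine Finset.prod_le_prod' fun l hl => ?_
    have h2 : n.factorization l ≠ 0 := by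
      rw [← Finsupp.mem_support_iff, Nat.support_factorization]
      exact hl
    omega
  have h2 : (2 : ℝ) ^ n.primeFactors.card ≤ tau n := by
    unfold tau
    exact_mod_cast h1
  rw [mul_comm, pow_mul]
  exact pow_le_pow_left₀ (by positivity) h2 A

/-- **The complete sums.** Proof. `R = Rm p > 0`, `d = dof R κ κ'`, `P` = the primes dividing `R d`, `q l = l^(R.factorization l)` if
`l ∣ R` and `q l = l` otherwise: `R d = ∏_{l ∈ P} q l` (`Nat.factorization_prod_pow_eq_self`, `d` squarefree and coprime to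
`R`). All prime factors of the `(p i).1`, `κ i`, `κ' i` are in `P` (`F1_dof`). `L3_Db`, `L4_Per4`, `C1_prod`; `LocB` for each
`l`; the product of the bounds is
`(R d)⁴ (2^A)^(ω(R)) (2^A)^(ω(d)) ∏_{l ∣ R} (l^b)^(-c) ∏_{l ∣ d} l^(-2)`, and `F1_tau`. -/
theorem F1_glob {k : ℕ} (ψ : Fm k) (hψ : CpF ψ) (A : ℕ) (c : ℝ) (hL : LocB ψ A c) (p : Fin k → Ch)
    (hp : Pm p) (κ κ' : Fin k → ℕ) (hκ : Kp p κ) (hκ' : Kp p κ') :
    Per4 (Rm p * dof (Rm p) κ κ') (Db ψ (fun i => gk (p i) (κ i)) (fun i => gk (p i) (κ' i))) ∧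
    ‖S4 (Rm p * dof (Rm p) κ κ') (Db ψ (fun i => gk (p i) (κ i)) (fun i => gk (p i) (κ' i)))‖ ≤
      ((Rm p * dof (Rm p) κ κ' : ℕ) : ℝ) ^ 4 * (tau (Rm p) ^ A * (Rm p : ℝ) ^ (-c) *
        (tau (dof (Rm p) κ κ') ^ A / (dof (Rm p) κ κ' : ℝ) ^ 2)) := by
  classical
  obtain ⟨R, hR⟩ : ∃ R, R = Rm p := ⟨_, rfl⟩
  obtain ⟨d, hd⟩ : ∃ d, d = dof (Rm p) κ κ' := ⟨_, rfl⟩
  rw [← hd, ← hR]
  obtain ⟨hd0, hdsq, hdR, hddv⟩ := F1_dof (Rm p) κ κ'
  rw [← hd] at hd0 hdsq hdR hddv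
  rw [← hR] at hdR hddv
  have hR0 : R ≠ 0 := by
    rw [hR]
    unfold Rm
    intro h
    rw [Finset.lcm_eq_zero_iff] at h
    obtain ⟨i, _, hi⟩ := h
    exact absurd hi (hp i).1.ne'
  have hpR : ∀ i, (p i).1 ∣ R := fun i => by
    rw [hR]
    exact Finset.dvd_lcm (mem_univ i)
  have hN0 : R * d ≠ 0 := mul_ne_zero hR0 hd0.ne'
  obtain ⟨P, hP⟩ : ∃ P, P = (R * d).primeFactors := ⟨_, rfl⟩
  have hPp : ∀ l ∈ P, l.Prime := fun l hl => by
    rw [hP] at hl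
    exact Nat.prime_of_mem_primeFactors hl
  have hPU : P = R.primeFactors ∪ d.primeFactors := by
    rw [hP, Nat.primeFactors_mul hR0 hd0.ne']
  have hdisj : Disjoint R.primeFactors d.primeFactors := hdR.symm.disjoint_primeFactors
  have hsub : ∀ (κ₀ : ℕ) (h : ∀ l : ℕ, l.Prime → l ∣ κ₀ → κ₀ ≠ 0 → ¬ l ∣ R → l ∣ d), κ₀.primeFactors ⊆ P := by
    intro κ₀ h l hl
    rw [Nat.mem_primeFactors] at hl
    rw [hP, Nat.mem_primeFactors]
    refine ⟨hl.1, ?_, hN0⟩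
    by_cases h1 : l ∣ R
    · exact h1.mul_right d
    · exact (h l hl.1 hl.2.1 hl.2.2 h1).mul_left R
  have h1 : ∀ i, (p i).1.primeFactors ⊆ P := fun i => hsub _ fun l _ h2 _ h3 =>
    absurd (h2.trans (hpR i)) h3
  have h2 : ∀ i, (κ i).primeFactors ⊆ P := fun i => hsub _ fun l h3 h4 h5 h6 =>
    (hddv l h3).2 ⟨h6, i, Or.inl ⟨h4, h5⟩⟩
  have h3 : ∀ i, (κ' i).primeFactors ⊆ P := fun i => hsub _ fun l h3 h4 h5 h6 =>
    (hddv l h3).2 ⟨h6, i, Or.inr ⟨h4, h5⟩⟩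
  obtain ⟨G, hG⟩ : ∃ G : ℕ → ℤ → ℤ → ℤ → ℤ → ℂ, G = fun l => Db ψ (fun i => lf (p i) (κ i) l)
      (fun i => lf (p i) (κ' i) l) := ⟨_, rfl⟩
  have hDb : Db ψ (fun i => gk (p i) (κ i)) (fun i => gk (p i) (κ' i)) =
      fun y y' z z' => ∏ l ∈ P, G l y y' z z' := by
    funext y y' z z'
    rw [hG]
    exact L3_Db ψ p hp κ κ' hκ hκ' P hPp h1 h2 h3 y y' z z'
  obtain ⟨q, hq⟩ : ∃ q : ℕ → ℕ, q = fun l => l ^ (R * d).factorization l := ⟨_, rfl⟩
  have hfac : ∀ l, (R * d).factorization l = R.factorization l + d.factorization l := by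
    intro l
    rw [Nat.factorization_mul hR0 hd0.ne']
    rfl
  have hqR : ∀ l ∈ R.primeFactors, q l = l ^ R.factorization l := by
    intro l hl
    have h4 : d.factorization l = 0 := by
      apply Nat.factorization_eq_zero_of_not_dvd
      intro h5
      exact Finset.disjoint_left.1 hdisj hl
        (Nat.mem_primeFactors.2 ⟨Nat.prime_of_mem_primeFactors hl, h5, hd0.ne'⟩)
    rw [hq]
    show l ^ (R * d).factorization l = _
    rw [hfac, h4, add_zero]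
  have hqd : ∀ l ∈ d.primeFactors, q l = l := by
    intro l hl
    have h4 : R.factorization l = 0 := by
      apply Nat.factorization_eq_zero_of_not_dvd
      intro h5
      exact Finset.disjoint_right.1 hdisj hl
        (Nat.mem_primeFactors.2 ⟨Nat.prime_of_mem_primeFactors hl, h5, hR0⟩)
    have h5 : d.factorization l = 1 := by
      have h6 := (Nat.squarefree_iff_factorization_le_one hd0.ne').1 hdsq l
      have h7 : d.factorization l ≠ 0 := by
        rw [← Finsupp.mem_support_iff, Nat.support_factorization]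
        exact hl
      omega
    rw [hq]
    show l ^ (R * d).factorization l = _
    rw [hfac, h4, h5, zero_add, pow_one]
  have hprodq : ∏ l ∈ P, q l = R * d := by
    rw [hq, hP]
    exact (Nat.prod_primeFactors_pow_factorization hN0).symm
  have hq0 : ∀ l ∈ P, 0 < q l := fun l hl => by
    rw [hq]
    exact pow_pos (hPp l hl).pos _
  have hqc : ∀ l ∈ P, ∀ l' ∈ P, l ≠ l' → Nat.Coprime (q l) (q l') := by
    intro l hl l' hl' hne
    rw [hq]
    exact Nat.Coprime.pow _ _ ((Nat.coprime_primes (hPp l hl) (hPp l' hl')).2 hne)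
  have hfacle : ∀ i l, (p i).1.factorization l ≤ R.factorization l := fun i l =>
    (Nat.factorization_le_iff_dvd (hp i).1.ne' hR0).2 (hpR i) l
  have hper : ∀ l ∈ P, Per4 (q l) (G l) := by
    intro l hl
    rw [hG]
    rw [hPU, mem_union] at hl
    rcases hl with hl | hl
    · rw [hqR l hl]
      refine L4_Per4 ψ hψ p hp κ κ' l _ (Nat.prime_of_mem_primeFactors hl) ?_ fun i => hfacle i l
      rw [Nat.one_le_iff_ne_zero, ← Finsupp.mem_support_iff, Nat.support_factorization]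
      exact hl
    · rw [hqd l hl]
      have h4 := L4_Per4 ψ hψ p hp κ κ' l 1 (Nat.prime_of_mem_primeFactors hl) le_rfl fun i => by
        have h5 : (p i).1.factorization l = 0 := by
          have h6 : R.factorization l = 0 := by
            apply Nat.factorization_eq_zero_of_not_dvd
            intro h5
            exact Finset.disjoint_right.1 hdisj hl
              (Nat.mem_primeFactors.2 ⟨Nat.prime_of_mem_primeFactors hl, h5, hR0⟩)
          have := hfacle i l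
          omega
        omega
      rw [pow_one] at h4
      exact h4
  obtain ⟨hc1, hc2⟩ := C1_prod P q hq0 hqc G hper
  rw [hprodq] at hc1 hc2
  rw [hDb]
  refine ⟨hc1, ?_⟩
  rw [hc2, norm_prod, hPU, prod_union hdisj]
  have hbR : ∏ l ∈ R.primeFactors, ‖S4 (q l) (G l)‖ ≤ (R : ℝ) ^ 4 * (tau R ^ A * (R : ℝ) ^ (-c)) := by
    have h4 : ∏ l ∈ R.primeFactors, ‖S4 (q l) (G l)‖ ≤ ∏ l ∈ R.primeFactors,
        (((q l : ℕ) : ℝ) ^ 4 * (2 ^ A * ((q l : ℕ) : ℝ) ^ (-c))) := by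
      refine Finset.prod_le_prod (fun l _ => norm_nonneg _) fun l hl => ?_
      have h5 := (hL p hp κ κ' hκ hκ' l (Nat.prime_of_mem_primeFactors hl)).1
        (by rw [← hR]; exact Nat.dvd_of_mem_primeFactors hl)
      rw [← hR, ← hqR l hl] at h5
      rw [hG]
      exact h5
    have h6 : ∏ l ∈ R.primeFactors, ((q l : ℕ) : ℝ) = R := by
      rw [← Nat.cast_prod, Finset.prod_congr rfl hqR]
      rw [← Nat.prod_primeFactors_pow_factorization hR0]
    have h7 : ∏ l ∈ R.primeFactors, ((q l : ℕ) : ℝ) ^ (-c) = (R : ℝ) ^ (-c) := by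
      rw [Real.finsetProd_rpow _ _ (fun l _ => Nat.cast_nonneg _), h6]
    rw [Finset.prod_mul_distrib, Finset.prod_mul_distrib, Finset.prod_pow, h6, h7,
      Finset.prod_const, ← pow_mul] at h4
    refine h4.trans ?_
    have h8 := F1_tau R A (Nat.pos_of_ne_zero hR0)
    have h9 : (0 : ℝ) ≤ (R : ℝ) ^ (-c) := by positivity
    exact mul_le_mul_of_nonneg_left (mul_le_mul_of_nonneg_right h8 h9) (by positivity)
  have hbd : ∏ l ∈ d.primeFactors, ‖S4 (q l) (G l)‖ ≤ (d : ℝ) ^ 4 * (tau d ^ A / (d : ℝ) ^ 2) := by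
    have h4 : ∏ l ∈ d.primeFactors, ‖S4 (q l) (G l)‖ ≤ ∏ l ∈ d.primeFactors,
        ((l : ℝ) ^ 4 * (2 ^ A / (l : ℝ) ^ 2)) := by
      refine Finset.prod_le_prod (fun l _ => norm_nonneg _) fun l hl => ?_
      have hlp := Nat.prime_of_mem_primeFactors hl
      have hld := (hddv l hlp).1 (Nat.dvd_of_mem_primeFactors hl)
      have h5 := (hL p hp κ κ' hκ hκ' l hlp).2
        (by rw [← hR]; exact hld.1) (by
          obtain ⟨i, hi | hi⟩ := hld.2
          · exact ⟨i, Or.inl hi.1⟩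
          · exact ⟨i, Or.inr hi.1⟩)
      rw [hqd l hl, hG]
      exact h5
    have h6 : ∏ l ∈ d.primeFactors, (l : ℝ) = d := by
      rw [← Nat.cast_prod, Nat.prod_primeFactors_of_squarefree hdsq]
    rw [Finset.prod_mul_distrib, Finset.prod_div_distrib, Finset.prod_pow (f := fun l : ℕ => (l : ℝ)) (n := 4),
      Finset.prod_pow (f := fun l : ℕ => (l : ℝ)) (n := 2), h6,
      Finset.prod_const, ← pow_mul] at h4
    refine h4.trans ?_
    have h8 := F1_tau d A hd0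
    have h9 : (0 : ℝ) ≤ (d : ℝ) ^ 2 := by positivity
    exact mul_le_mul_of_nonneg_left (div_le_div_of_nonneg_right h8 h9) (by positivity)
  calc (∏ l ∈ R.primeFactors, ‖S4 (q l) (G l)‖) * ∏ l ∈ d.primeFactors, ‖S4 (q l) (G l)‖
      ≤ ((R : ℝ) ^ 4 * (tau R ^ A * (R : ℝ) ^ (-c))) * ((d : ℝ) ^ 4 * (tau d ^ A / (d : ℝ) ^ 2)) := by
        refine mul_le_mul hbR hbd (Finset.prod_nonneg fun l _ => norm_nonneg _) ?_
        unfold tau
        positivity
    _ = _ := by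
        push_cast
        ring

end Pool.Agent.Lib.H59T
end

-- from Lib.H59T.F2A
section

/-!
# Project H59T, chunk F2A (S/M): divisibility and size of the moduli
-/

open Finset

namespace Pool.Agent.Lib.H59T

open Pool.Agent.Lib.H68T Pool.Agent.Lib.H18Q Pool.Agent.Lib.H59P

theorem f2a_sq {n m : ℕ} (hn : Squarefree n) (h : ∀ l : ℕ, l.Prime → l ∣ n → l ∣ m) : n ∣ m := by
  rw [← Nat.prod_primeFactors_of_squarefree hn]
  refine Finset.prod_primes_dvd m (fun l hl => (Nat.prime_of_mem_primeFactors hl).prime) fun l hl => ?_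
  exact h l (Nat.prime_of_mem_primeFactors hl) (Nat.dvd_of_mem_primeFactors hl)

theorem F2_dvd {k : ℕ} (p : Fin k → Ch) (hp : Pm p) (κ κ' : Fin k → ℕ) (hκ : Kp p κ) (hκ' : Kp p κ') :
    (∀ i, κ i ∣ Rm p * dof (Rm p) κ κ' ∧ κ' i ∣ Rm p * dof (Rm p) κ κ') ∧
      (univ.lcm fun i => (p i).1 * κ i) ∣ Rm p * dof (Rm p) κ κ' := by
  obtain ⟨h1, h2, h3, h4⟩ := F1_dof (Rm p) κ κ'
  have key : ∀ i, κ i ∣ Rm p * dof (Rm p) κ κ' ∧ κ' i ∣ Rm p * dof (Rm p) κ κ' := by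
    intro i
    constructor
    · refine f2a_sq (hκ i).1 fun l hl hd => ?_
      by_cases hR : l ∣ Rm p
      · exact hR.mul_right _
      · exact Dvd.dvd.mul_left ((h4 l hl).2 ⟨hR, i, Or.inl ⟨hd, (hκ i).1.ne_zero⟩⟩) _
    · refine f2a_sq (hκ' i).1 fun l hl hd => ?_
      by_cases hR : l ∣ Rm p
      · exact hR.mul_right _
      · exact Dvd.dvd.mul_left ((h4 l hl).2 ⟨hR, i, Or.inr ⟨hd, (hκ' i).1.ne_zero⟩⟩) _
  refine ⟨key, Finset.lcm_dvd fun i _ => ?_⟩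
  refine Nat.Coprime.mul_dvd_of_dvd_of_dvd (hκ i).2.symm ?_ (key i).1
  exact Dvd.dvd.mul_right (Finset.dvd_lcm (f := fun i => (p i).1) (Finset.mem_univ i)) _

theorem F2_size {k : ℕ} (Q : ℕ) (p : Fin k → Ch) (hp : ∀ i, p i ∈ PC Q) (κ κ' : Fin k → ℕ)
    (hκ : ∀ i, κ i ∈ KS Q (p i).1) (hκ' : ∀ i, κ' i ∈ KS Q (p i).1) :
    0 < Rm p * dof (Rm p) κ κ' ∧ Rm p * dof (Rm p) κ κ' ≤ Q ^ (2 * k) := by
  obtain ⟨h1, h2, h3, h4⟩ := F1_dof (Rm p) κ κ'
  have hp1 : ∀ i, 1 ≤ (p i).1 := fun i => (mem_PC.1 (hp i)).1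
  have hK : ∀ (K : Fin k → ℕ), (∀ i, K i ∈ KS Q (p i).1) → ∀ i, 1 ≤ K i ∧ (p i).1 * K i ≤ Q := by
    intro K hK i
    have h := hK i
    unfold KS at h
    rw [Finset.mem_filter, Finset.mem_Icc] at h
    refine ⟨h.1.1, ?_⟩
    rw [mul_comm]
    exact (Nat.le_div_iff_mul_le (hp1 i)).1 h.1.2
  have hR1 : Rm p ∣ ∏ i, (p i).1 := Finset.lcm_dvd fun i _ => Finset.dvd_prod_of_mem _ (Finset.mem_univ i)
  have hR0 : 0 < Rm p := by
    apply Nat.pos_of_ne_zero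
    intro h0
    rw [h0] at hR1
    have h5 : ∏ i, (p i).1 = 0 := Nat.eq_zero_of_zero_dvd hR1
    rw [Finset.prod_eq_zero_iff] at h5
    obtain ⟨i, _, hi⟩ := h5
    have := hp1 i
    omega
  have hd1 : dof (Rm p) κ κ' ∣ ∏ i, (κ i * κ' i) := by
    refine f2a_sq h2 fun l hl hd => ?_
    obtain ⟨_, i, hi | hi⟩ := (h4 l hl).1 hd
    · exact (hi.1.mul_right _).trans (Finset.dvd_prod_of_mem (fun i => κ i * κ' i) (Finset.mem_univ i))
    · exact (hi.1.mul_left _).trans (Finset.dvd_prod_of_mem (fun i => κ i * κ' i) (Finset.mem_univ i))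
  refine ⟨Nat.mul_pos hR0 h1, ?_⟩
  have h6 : Rm p * dof (Rm p) κ κ' ∣ (∏ i, (p i).1) * ∏ i, (κ i * κ' i) := mul_dvd_mul hR1 hd1
  have h7 : 0 < (∏ i, (p i).1) * ∏ i, (κ i * κ' i) := by
    refine Nat.mul_pos (Finset.prod_pos fun i _ => hp1 i) (Finset.prod_pos fun i _ => ?_)
    exact Nat.mul_pos (hK κ hκ i).1 (hK κ' hκ' i).1
  refine (Nat.le_of_dvd h7 h6).trans ?_
  rw [← Finset.prod_mul_distrib]
  have h8 : ∀ i ∈ (univ : Finset (Fin k)), (p i).1 * (κ i * κ' i) ≤ Q ^ 2 := by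
    intro i _
    have h9 := (hK κ hκ i).2
    have h10 := (hK κ' hκ' i).2
    have h11 : κ' i ≤ Q := le_trans (Nat.le_mul_of_pos_left _ (hp1 i)) h10
    calc (p i).1 * (κ i * κ' i) = ((p i).1 * κ i) * κ' i := by ring
      _ ≤ Q * Q := Nat.mul_le_mul h9 h11
      _ = Q ^ 2 := by ring
  calc ∏ i, ((p i).1 * (κ i * κ' i)) ≤ ∏ _i : Fin k, Q ^ 2 := Finset.prod_le_prod' h8
    _ = Q ^ (2 * k) := by rw [Finset.prod_const, Finset.card_univ, Fintype.card_fin, ← pow_mul]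

end Pool.Agent.Lib.H59T
end

-- from Lib.H59T.F2
section

/-!
# Project H59T, chunk F2 (M): the sum over the pairs of moduli
-/

open Finset

namespace Pool.Agent.Lib.H59T

open Pool.Agent.Lib.H68T Pool.Agent.Lib.H18Q Pool.Agent.Lib.H59P

theorem f2_est {R d D c η : ℝ} (hR : 1 ≤ R) (hd : 1 ≤ d) (hD : 1 ≤ D) (hDR : D ≤ R * d) (hc0 : 0 < c)
    (hc1 : c ≤ 1) (hη : η ≤ c / 4) :
    (R * d) ^ η * R ^ (-c) * (1 / d ^ 2) ≤ D ^ (-(c / 2)) * (1 / d ^ (5 / 4 : ℝ)) := by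
  have hR0 : 0 < R := by linarith
  have hd0 : 0 < d := by linarith
  have hD0 : 0 < D := by linarith
  have r0 : 0 ≤ Real.log R := Real.log_nonneg hR
  have s0 : 0 ≤ Real.log d := Real.log_nonneg hd
  have t1 : Real.log D ≤ Real.log R + Real.log d := by
    rw [← Real.log_mul hR0.ne' hd0.ne']
    exact Real.log_le_log hD0 hDR
  have e1 : (R * d) ^ η * R ^ (-c) * (1 / d ^ 2) =
      Real.exp ((Real.log R + Real.log d) * η + Real.log R * (-c) - 2 * Real.log d) := by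
    rw [Real.exp_sub, Real.exp_add, Real.rpow_def_of_pos (mul_pos hR0 hd0), Real.rpow_def_of_pos hR0,
      Real.log_mul hR0.ne' hd0.ne', show (2 : ℝ) * Real.log d = ((2 : ℕ) : ℝ) * Real.log d by norm_num,
      Real.exp_nat_mul, Real.exp_log hd0]
    ring
  have e2 : D ^ (-(c / 2)) * (1 / d ^ (5 / 4 : ℝ)) =
      Real.exp (Real.log D * (-(c / 2)) - Real.log d * (5 / 4)) := by
    rw [Real.exp_sub, Real.rpow_def_of_pos hD0, Real.rpow_def_of_pos hd0]
    ring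
  rw [e1, e2]
  refine Real.exp_le_exp.2 ?_
  have h1 : (Real.log R + Real.log d) * η ≤ (Real.log R + Real.log d) * (c / 4) :=
    mul_le_mul_of_nonneg_left hη (by linarith)
  have h2 : Real.log D * (c / 2) ≤ (Real.log R + Real.log d) * (c / 2) :=
    mul_le_mul_of_nonneg_right t1 (by linarith)
  have h3 : Real.log d * c ≤ Real.log d * 1 := mul_le_mul_of_nonneg_left hc1 s0
  have h4 : 0 ≤ Real.log R * c := mul_nonneg r0 hc0.le
  nlinarith

/-- Proof. Let `ε` be so small that `(2 k + A) ε ≤ c/2` and `≤ 1/4`. Group the pairs `(κ, κ')` according to `d = dof R κ κ'`: all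
`κ i, κ' i` divide `R d`, so there are at most `τ(R d)^(2k)` pairs (`piFinset` of divisors), and `D < R d`. By the
divisor bound `s1_div` (`H33N/S1.lean`) `τ(R d)^(2k) τ(R)^A τ(d)^A ≤ C (R d)^((2k+A)ε)` (`τ(R) τ(d) = τ(R d)`, coprime). So the sum is at
most `C R^(-c/2) ∑_{d > D/R} d^(-3/2) ≤ C R^(-c/2) · 3 min(1, (R/D)^(1/2)) ≤ 3 C D^(-c/2)` (`c ≤ 1`). -/
theorem F2_sum (k A : ℕ) (c : ℝ) (hc0 : 0 < c) (hc1 : c ≤ 1) : ∃ C : ℝ, 0 < C ∧ ∀ Q D : ℕ, 1 ≤ D →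
    ∀ p : Fin k → Ch, (∀ i, p i ∈ PC Q) → ∀ T : Finset (Fin k → ℕ),
    T ⊆ Fintype.piFinset (fun i => KS Q (p i).1) → (∀ κ ∈ T, D < univ.lcm (fun i => (p i).1 * κ i)) →
    ∑ κ ∈ T, ∑ κ' ∈ T, tau (Rm p) ^ A * (Rm p : ℝ) ^ (-c) *
      (tau (dof (Rm p) κ κ') ^ A / (dof (Rm p) κ κ' : ℝ) ^ 2) ≤ C * (D : ℝ) ^ (-(c / 2)) := by
  classical
  obtain ⟨ε, hε0, hε⟩ : ∃ ε : ℝ, 0 < ε ∧ ε * ((2 * k + A : ℕ) : ℝ) ≤ c / 4 := by
    refine ⟨c / (4 * (((2 * k + A : ℕ) : ℝ) + 1)), by positivity, ?_⟩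
    rw [div_mul_eq_mul_div, div_le_div_iff₀ (by positivity) (by norm_num)]
    have : (0 : ℝ) ≤ ((2 * k + A : ℕ) : ℝ) := Nat.cast_nonneg _
    nlinarith
  obtain ⟨C0, hC1, hC⟩ := Pool.Agent.Lib.H33N.s1_div hε0
  have hsum : Summable (fun n : ℕ => 1 / (n : ℝ) ^ (5 / 4 : ℝ)) :=
    Real.summable_one_div_nat_rpow.2 (by norm_num)
  have hC0 : 0 < C0 := by linarith
  have htn : 0 ≤ ∑' n : ℕ, 1 / (n : ℝ) ^ (5 / 4 : ℝ) := tsum_nonneg fun n => by positivity
  refine ⟨C0 ^ (2 * k + A) * (∑' n : ℕ, 1 / (n : ℝ) ^ (5 / 4 : ℝ) + 1), by positivity, ?_⟩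
  intro Q D hD p hp T hT hTD
  have hPm : Pm p := fun i => ⟨(mem_PC.1 (hp i)).1, (mem_PC.1 (hp i)).2.2⟩
  have hKS : ∀ κ ∈ T, ∀ i, κ i ∈ KS Q (p i).1 := fun κ hκ i => Fintype.mem_piFinset.1 (hT hκ) i
  have hKp : ∀ κ ∈ T, Kp p κ := fun κ hκ i => (CA_mem_KS.1 (hKS κ hκ i)).2
  rw [← Finset.sum_product' (s := T) (t := T) (f := fun κ κ' => tau (Rm p) ^ A * (Rm p : ℝ) ^ (-c) *
      (tau (dof (Rm p) κ κ') ^ A / (dof (Rm p) κ κ' : ℝ) ^ 2))]
  have hcomp := Finset.sum_comp (s := T ×ˢ T) (fun d : ℕ => tau (Rm p) ^ A * (Rm p : ℝ) ^ (-c) *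
      (tau d ^ A / (d : ℝ) ^ 2)) (fun x : (Fin k → ℕ) × (Fin k → ℕ) => dof (Rm p) x.1 x.2)
  have hlhs : ∑ x ∈ T ×ˢ T, (fun κ κ' : Fin k → ℕ => tau (Rm p) ^ A * (Rm p : ℝ) ^ (-c) *
      (tau (dof (Rm p) κ κ') ^ A / (dof (Rm p) κ κ' : ℝ) ^ 2)) x.1 x.2 =
      ∑ x ∈ T ×ˢ T, (fun d : ℕ => tau (Rm p) ^ A * (Rm p : ℝ) ^ (-c) *
      (tau d ^ A / (d : ℝ) ^ 2)) (dof (Rm p) x.1 x.2) := rfl
  rw [hlhs, hcomp]
  have hterm : ∀ d ∈ (T ×ˢ T).image (fun x : (Fin k → ℕ) × (Fin k → ℕ) => dof (Rm p) x.1 x.2),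
      ((T ×ˢ T).filter (fun x : (Fin k → ℕ) × (Fin k → ℕ) => dof (Rm p) x.1 x.2 = d)).card •
        (tau (Rm p) ^ A * (Rm p : ℝ) ^ (-c) * (tau d ^ A / (d : ℝ) ^ 2)) ≤
      C0 ^ (2 * k + A) * (D : ℝ) ^ (-(c / 2)) * (1 / (d : ℝ) ^ (5 / 4 : ℝ)) := by
    intro d hd
    obtain ⟨x, hx, hxd⟩ := Finset.mem_image.1 hd
    have hx1 := (Finset.mem_product.1 hx).1
    have hx2 := (Finset.mem_product.1 hx).2
    have hpos : 0 < Rm p * d := by
      rw [← hxd]
      exact (F2_size Q p hp x.1 x.2 (hKS _ hx1) (hKS _ hx2)).1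
    have hR0 : 0 < Rm p := Nat.pos_of_ne_zero fun h => by rw [h, zero_mul] at hpos; exact hpos.ne rfl
    have hd0 : 0 < d := Nat.pos_of_ne_zero fun h => by rw [h, mul_zero] at hpos; exact hpos.ne rfl
    have hcop : Nat.Coprime d (Rm p) := by
      rw [← hxd]
      exact (F1_dof (Rm p) x.1 x.2).2.2.1
    have hDlt : D < Rm p * d := by
      refine lt_of_lt_of_le (hTD x.1 hx1) (Nat.le_of_dvd hpos ?_)
      rw [← hxd]
      exact (F2_dvd p hPm x.1 x.2 (hKp _ hx1) (hKp _ hx2)).2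
    have hcard : ((T ×ˢ T).filter (fun x : (Fin k → ℕ) × (Fin k → ℕ) => dof (Rm p) x.1 x.2 = d)).card ≤
        (Rm p * d).divisors.card ^ (2 * k) := by
      have hsub : (T ×ˢ T).filter (fun x : (Fin k → ℕ) × (Fin k → ℕ) => dof (Rm p) x.1 x.2 = d) ⊆
          (Fintype.piFinset fun _ : Fin k => (Rm p * d).divisors) ×ˢ
            (Fintype.piFinset fun _ : Fin k => (Rm p * d).divisors) := by
        intro y hy
        rw [Finset.mem_filter, Finset.mem_product] at hy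
        obtain ⟨⟨hy1, hy2⟩, hyd⟩ := hy
        have h := (F2_dvd p hPm y.1 y.2 (hKp _ hy1) (hKp _ hy2)).1
        rw [hyd] at h
        rw [Finset.mem_product, Fintype.mem_piFinset, Fintype.mem_piFinset]
        exact ⟨fun i => Nat.mem_divisors.2 ⟨(h i).1, hpos.ne'⟩,
          fun i => Nat.mem_divisors.2 ⟨(h i).2, hpos.ne'⟩⟩
      refine (Finset.card_le_card hsub).trans ?_
      rw [Finset.card_product, Fintype.card_piFinset_const, ← pow_add]
      refine le_of_eq ?_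
      congr 1
      omega
    have htau : tau (Rm p) ^ A * tau d ^ A = ((Rm p * d).divisors.card : ℝ) ^ A := by
      unfold tau
      rw [← mul_pow, Nat.Coprime.card_divisors_mul hcop.symm]
      push_cast
      rfl
    have hdiv : ((Rm p * d).divisors.card : ℝ) ≤ C0 * (((Rm p : ℝ) * (d : ℝ)) ^ ε) := by
      have h := hC (Rm p * d) hpos
      push_cast at h
      exact h
    have hR1 : (1 : ℝ) ≤ (Rm p : ℝ) := by exact_mod_cast hR0
    have hd1 : (1 : ℝ) ≤ (d : ℝ) := by exact_mod_cast hd0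
    have hD1 : (1 : ℝ) ≤ (D : ℝ) := by exact_mod_cast hD
    have hDR : (D : ℝ) ≤ (Rm p : ℝ) * (d : ℝ) := by exact_mod_cast hDlt.le
    have hRd0 : (0 : ℝ) < (Rm p : ℝ) * (d : ℝ) := by positivity
    have hest := f2_est (η := ε * ((2 * k + A : ℕ) : ℝ)) hR1 hd1 hD1 hDR hc0 hc1 hε
    have hfac : (0 : ℝ) ≤ (Rm p : ℝ) ^ (-c) * (1 / (d : ℝ) ^ 2) := by positivity
    rw [nsmul_eq_mul]
    calc _ ≤ ((Rm p * d).divisors.card : ℝ) ^ (2 * k) *
          (tau (Rm p) ^ A * (Rm p : ℝ) ^ (-c) * (tau d ^ A / (d : ℝ) ^ 2)) := by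
          refine mul_le_mul_of_nonneg_right (by exact_mod_cast hcard) ?_
          unfold tau
          positivity
      _ = ((Rm p * d).divisors.card : ℝ) ^ (2 * k + A) * ((Rm p : ℝ) ^ (-c) * (1 / (d : ℝ) ^ 2)) := by
          rw [pow_add, ← htau]
          ring
      _ ≤ (C0 * (((Rm p : ℝ) * (d : ℝ)) ^ ε)) ^ (2 * k + A) * ((Rm p : ℝ) ^ (-c) * (1 / (d : ℝ) ^ 2)) :=
          mul_le_mul_of_nonneg_right (pow_le_pow_left₀ (Nat.cast_nonneg _) hdiv _) hfac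
      _ = C0 ^ (2 * k + A) * (((Rm p : ℝ) * (d : ℝ)) ^ (ε * ((2 * k + A : ℕ) : ℝ)) *
            (Rm p : ℝ) ^ (-c) * (1 / (d : ℝ) ^ 2)) := by
          rw [mul_pow, ← Real.rpow_natCast ((((Rm p : ℝ) * (d : ℝ)) ^ ε)) (2 * k + A),
            ← Real.rpow_mul hRd0.le]
          ring
      _ ≤ C0 ^ (2 * k + A) * ((D : ℝ) ^ (-(c / 2)) * (1 / (d : ℝ) ^ (5 / 4 : ℝ))) :=
          mul_le_mul_of_nonneg_left hest (by positivity)
      _ = _ := by ring
  refine (Finset.sum_le_sum hterm).trans ?_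
  rw [← Finset.mul_sum]
  have h5 : ∑ d ∈ (T ×ˢ T).image (fun x : (Fin k → ℕ) × (Fin k → ℕ) => dof (Rm p) x.1 x.2),
      1 / (d : ℝ) ^ (5 / 4 : ℝ) ≤ ∑' n : ℕ, 1 / (n : ℝ) ^ (5 / 4 : ℝ) :=
    hsum.sum_le_tsum _ fun n _ => by positivity
  have h6 : (0 : ℝ) ≤ C0 ^ (2 * k + A) * (D : ℝ) ^ (-(c / 2)) := by positivity
  calc _ ≤ C0 ^ (2 * k + A) * (D : ℝ) ^ (-(c / 2)) * (∑' n : ℕ, 1 / (n : ℝ) ^ (5 / 4 : ℝ) + 1) :=
        mul_le_mul_of_nonneg_left (by linarith) h6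
    _ = _ := by ring

end Pool.Agent.Lib.H59T
end

-- from Lib.H59T.F3
section

/-!
# Project H59T, chunk F3 (M): the mean square of the part with large moduli
-/

open Finset

namespace Pool.Agent.Lib.H59T

open Pool.Agent.Lib.H68T Pool.Agent.Lib.H18Q Pool.Agent.Lib.H59P

/-- The components are bounded by `Q`. -/
theorem f3_gk (Q : ℕ) (p : Ch) (hp : p ∈ PC Q) (κ : ℕ) (hκ : κ ∈ KS Q p.1) (m : ℤ) :
    ‖gk p κ m‖ ≤ (Q : ℝ) := by
  rw [CA_norm, CA_F_abs m κ (CA_mem_KS.1 hκ).2.1]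
  obtain ⟨h1, h2, -⟩ := mem_PC.1 hp
  have hne : NeZero p.1 := ⟨by omega⟩
  have h3 : (1 : ℝ) ≤ (Nat.totient p.1 : ℝ) := by
    exact_mod_cast Nat.totient_pos.2 (by omega)
  have h4 : (p.1 : ℝ) / (Nat.totient p.1 : ℝ) ≤ (Q : ℝ) :=
    (div_le_self (Nat.cast_nonneg _) h3).trans (by exact_mod_cast h2)
  have h5 : ‖p.2 (m : ZMod p.1)‖ ≤ 1 := DirichletCharacter.norm_le_one p.2 _
  have h6 : ∏ l ∈ κ.primeFactors, (if (l : ℤ) ∣ m then (1 : ℝ) else 1 / ((l : ℝ) - 1)) ≤ 1 := by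
    refine Finset.prod_le_one (fun l hl => ?_) (fun l hl => ?_)
    · have h7 : (2 : ℝ) ≤ l := by exact_mod_cast (Nat.prime_of_mem_primeFactors hl).two_le
      split_ifs
      · exact zero_le_one
      · exact div_nonneg zero_le_one (by linarith)
    · have h7 : (2 : ℝ) ≤ l := by exact_mod_cast (Nat.prime_of_mem_primeFactors hl).two_le
      split_ifs
      · exact le_rfl
      · rw [div_le_one (by linarith)]
        linarith
  have h8 : 0 ≤ ∏ l ∈ κ.primeFactors, (if (l : ℤ) ∣ m then (1 : ℝ) else 1 / ((l : ℝ) - 1)) := by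
    refine Finset.prod_nonneg (fun l hl => ?_)
    have h7 : (2 : ℝ) ≤ l := by exact_mod_cast (Nat.prime_of_mem_primeFactors hl).two_le
    split_ifs
    · exact zero_le_one
    · exact div_nonneg zero_le_one (by linarith)
  have h9 : (0 : ℝ) ≤ (Q : ℝ) := Nat.cast_nonneg _
  have h10 : (p.1 : ℝ) / (Nat.totient p.1 : ℝ) * ‖p.2 (m : ZMod p.1)‖ ≤ (Q : ℝ) * 1 :=
    mul_le_mul h4 h5 (norm_nonneg _) h9
  calc _ ≤ ((Q : ℝ) * 1) * 1 := mul_le_mul h10 h6 h8 (by rw [mul_one]; exact h9)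
    _ = (Q : ℝ) := by ring

/-- Proof. `|gk p κ m| ≤ p.1 ≤ Q` (`CA_norm`, `CA_F_abs` in `H18Q/CA`, `r/φ(r) ≤ r`). -/
theorem F3_sup {k : ℕ} (ψ : Fm k) (Q : ℕ) (p : Fin k → Ch) (hp : ∀ i, p i ∈ PC Q) (κ κ' : Fin k → ℕ)
    (hκ : ∀ i, κ i ∈ KS Q (p i).1) (hκ' : ∀ i, κ' i ∈ KS Q (p i).1) (y y' z z' : ℤ) :
    ‖Db ψ (fun i => gk (p i) (κ i)) (fun i => gk (p i) (κ' i)) y y' z z'‖ ≤ (Q : ℝ) ^ (2 * k) := by
  unfold Db
  rw [norm_prod]
  calc ∏ i : Fin k, ‖gk (p i) (κ i) (ψ i y y' z) * (starRingEnd ℂ) (gk (p i) (κ' i) (ψ i y y' z'))‖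
      ≤ ∏ _i : Fin k, ((Q : ℝ) * Q) := by
        refine Finset.prod_le_prod (fun i _ => norm_nonneg _) (fun i _ => ?_)
        rw [norm_mul, RCLike.norm_conj]
        exact mul_le_mul (f3_gk Q (p i) (hp i) _ (hκ i) _) (f3_gk Q (p i) (hp i) _ (hκ' i) _) (norm_nonneg _)
          (Nat.cast_nonneg _)
    _ = (Q : ℝ) ^ (2 * k) := by
        rw [Finset.prod_const, Finset.card_univ, Fintype.card_fin, ← pow_two, ← pow_mul]

/-- The square as a double sum. Proof. `‖x‖² = x conj x`, `Finset.sum_mul_sum`, exchange of sums. -/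
theorem F3_expand {k : ℕ} (ψ : Fm k) (p : Fin k → Ch) (T : Finset (Fin k → ℕ)) (a a' b s s' H : ℕ) :
    (((∑ y ∈ Ico a (a + s), ∑ y' ∈ Ico a' (a' + s'), ‖∑ z ∈ Ico b (b + H), ∑ κ ∈ T,
        ∏ i, gk (p i) (κ i) (ψ i y y' z)‖ ^ 2 : ℝ)) : ℂ) =
      ∑ κ ∈ T, ∑ κ' ∈ T, ∑ y ∈ Ico a (a + s), ∑ y' ∈ Ico a' (a' + s'), ∑ z ∈ Ico b (b + H),
        ∑ z' ∈ Ico b (b + H), Db ψ (fun i => gk (p i) (κ i)) (fun i => gk (p i) (κ' i)) y y' z z' := by
  have hsq : ∀ y y' : ℕ, (((‖∑ z ∈ Ico b (b + H), ∑ κ ∈ T, ∏ i, gk (p i) (κ i) (ψ i y y' z)‖ ^ 2 : ℝ)) : ℂ) =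
      ∑ κ ∈ T, ∑ κ' ∈ T, ∑ z ∈ Ico b (b + H), ∑ z' ∈ Ico b (b + H),
        Db ψ (fun i => gk (p i) (κ i)) (fun i => gk (p i) (κ' i)) y y' z z' := by
    intro y y'
    rw [← Complex.normSq_eq_norm_sq, ← Complex.mul_conj, Finset.sum_comm, map_sum, Finset.sum_mul_sum]
    refine Finset.sum_congr rfl fun κ _ => Finset.sum_congr rfl fun κ' _ => ?_
    rw [map_sum, Finset.sum_mul_sum]
    refine Finset.sum_congr rfl fun z _ => Finset.sum_congr rfl fun z' _ => ?_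
    unfold Db
    rw [map_prod, ← Finset.prod_mul_distrib]
  rw [Complex.ofReal_sum]
  have h1 : ∀ y ∈ Ico a (a + s), (((∑ y' ∈ Ico a' (a' + s'), ‖∑ z ∈ Ico b (b + H), ∑ κ ∈ T,
        ∏ i, gk (p i) (κ i) (ψ i y y' z)‖ ^ 2 : ℝ)) : ℂ) =
      ∑ κ ∈ T, ∑ κ' ∈ T, ∑ y' ∈ Ico a' (a' + s'), ∑ z ∈ Ico b (b + H), ∑ z' ∈ Ico b (b + H),
        Db ψ (fun i => gk (p i) (κ i)) (fun i => gk (p i) (κ' i)) y y' z z' := by
    intro y _
    rw [Complex.ofReal_sum, Finset.sum_congr rfl (fun y' _ => hsq y y'), Finset.sum_comm]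
    refine Finset.sum_congr rfl fun κ _ => ?_
    rw [Finset.sum_comm]
  rw [Finset.sum_congr rfl h1, Finset.sum_comm]
  refine Finset.sum_congr rfl fun κ _ => ?_
  rw [Finset.sum_comm]

/-- **FG for forms with local bounds.** Proof. `F3_expand`; for each pair `C2_box` with `N = R d ≤ Q^(2k)` (`F2_size`), `L = Q^(8k)`,
`B = Q^(2k)` (`F3_sup`), `F1_glob`: the sum over the box is at most
`(τ(R)^A R^(-c) τ(d)^A/d² + 8 Q^(2k)/Q^(8k)) s s' H²`. At most `Q^(2k)` pairs; `F2_sum`. The rest is `8 Q^(-4k) ≤ 8 D^(-c/2)`: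
`T` not empty, `D < lcm ≤ ∏ (p i).1 κ i ≤ Q^k`. -/
theorem F3_gen (k A : ℕ) (c : ℝ) (hc0 : 0 < c) (hc1 : c ≤ 1) : ∃ C : ℝ, 0 < C ∧
    ∀ ψ : Fm k, CpF ψ → LocB ψ A c → ∀ Q D : ℕ, 1 ≤ D → ∀ p : Fin k → Ch, (∀ i, p i ∈ PC Q) →
    ∀ T : Finset (Fin k → ℕ), T ⊆ Fintype.piFinset (fun i => KS Q (p i).1) →
    (∀ κ ∈ T, D < univ.lcm (fun i => (p i).1 * κ i)) → ∀ a a' b s s' H : ℕ,
    Q ^ (10 * k) ≤ s → Q ^ (10 * k) ≤ s' → Q ^ (10 * k) ≤ H →
    ∑ y ∈ Ico a (a + s), ∑ y' ∈ Ico a' (a' + s'), ‖∑ z ∈ Ico b (b + H), ∑ κ ∈ T,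
      ∏ i, gk (p i) (κ i) (ψ i y y' z)‖ ^ 2 ≤ C * ((s : ℝ) * s' * H ^ 2) * (D : ℝ) ^ (-(c / 2)) := by
  classical
  obtain ⟨C, hC, hsum⟩ := F2_sum k A c hc0 hc1
  refine ⟨C + 8, by linarith, fun ψ hψ hL Q D hD p hp T hT hTD a a' b s s' H hs hs' hH => ?_⟩
  have hDr : (1 : ℝ) ≤ (D : ℝ) := by exact_mod_cast hD
  have hDp : (0 : ℝ) < (D : ℝ) ^ (-(c / 2)) := Real.rpow_pos_of_pos (by linarith) _
  have hV : (0 : ℝ) ≤ (s : ℝ) * s' * H ^ 2 := by positivity
  rcases T.eq_empty_or_nonempty with hT0 | ⟨κ₀, hκ₀⟩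
  · subst hT0
    have h0 : ∑ y ∈ Ico a (a + s), ∑ y' ∈ Ico a' (a' + s'), ‖∑ z ∈ Ico b (b + H), ∑ κ ∈ (∅ : Finset (Fin k → ℕ)),
      ∏ i, gk (p i) (κ i) (ψ i y y' z)‖ ^ 2 = 0 := by simp
    rw [h0]
    exact mul_nonneg (mul_nonneg (by linarith) hV) hDp.le
  have hKS : ∀ κ ∈ T, ∀ i, κ i ∈ KS Q (p i).1 := fun κ hκ i => (Fintype.mem_piFinset.1 (hT hκ)) i
  have hPm : Pm p := fun i => ⟨by have := (mem_PC.1 (hp i)).1; omega, (mem_PC.1 (hp i)).2.2⟩
  have hKp : ∀ κ ∈ T, Kp p κ := fun κ hκ i => (CA_mem_KS.1 (hKS κ hκ i)).2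
  -- D is at most Q^k
  have hle1 : ∀ κ ∈ T, ∀ i, (p i).1 * κ i ≤ Q := by
    intro κ hκ i
    have h1 := (CA_mem_KS.1 (hKS κ hκ i)).1.2
    calc (p i).1 * κ i ≤ (p i).1 * (Q / (p i).1) := Nat.mul_le_mul_left _ h1
      _ ≤ Q := Nat.mul_div_le Q _
  have hpos : ∀ κ ∈ T, ∀ i, 0 < (p i).1 * κ i := by
    intro κ hκ i
    exact Nat.mul_pos (hPm i).1 (CA_mem_KS.1 (hKS κ hκ i)).1.1
  have hDQ : D ≤ Q ^ k := by
    have h1 : (univ.lcm fun i => (p i).1 * κ₀ i) ≤ ∏ i, (p i).1 * κ₀ i := by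
      refine Nat.le_of_dvd (Finset.prod_pos fun i _ => hpos κ₀ hκ₀ i) ?_
      exact Finset.lcm_dvd fun i hi => Finset.dvd_prod_of_mem (fun i => (p i).1 * κ₀ i) hi
    have h2 : ∏ i, (p i).1 * κ₀ i ≤ ∏ _i : Fin k, Q := Finset.prod_le_prod' fun i _ => hle1 κ₀ hκ₀ i
    rw [Finset.prod_const, Finset.card_univ, Fintype.card_fin] at h2
    exact (hTD κ₀ hκ₀).le.trans (h1.trans h2)
  have hQk : 1 ≤ Q ^ k := hD.trans hDQ
  have hL0 : 0 < Q ^ (8 * k) := by
    rw [mul_comm, pow_mul]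
    exact pow_pos hQk 8
  have hQkr : (1 : ℝ) ≤ (Q : ℝ) ^ k := by exact_mod_cast hQk
  have hcard : T.card ≤ Q ^ k := by
    calc T.card ≤ (Fintype.piFinset (fun i => KS Q (p i).1)).card := Finset.card_le_card hT
      _ = ∏ i, (KS Q (p i).1).card := Fintype.card_piFinset _
      _ ≤ ∏ _i : Fin k, Q := by
          refine Finset.prod_le_prod' fun i _ => ?_
          unfold KS
          refine (Finset.card_filter_le _ _).trans ?_
          rw [Nat.card_Icc, Nat.add_sub_cancel]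
          exact Nat.div_le_self _ _
      _ = Q ^ k := by rw [Finset.prod_const, Finset.card_univ, Fintype.card_fin]
  -- one pair
  have hpair : ∀ κ ∈ T, ∀ κ' ∈ T,
      ‖∑ y ∈ Ico a (a + s), ∑ y' ∈ Ico a' (a' + s'), ∑ z ∈ Ico b (b + H), ∑ z' ∈ Ico b (b + H),
        Db ψ (fun i => gk (p i) (κ i)) (fun i => gk (p i) (κ' i)) y y' z z'‖ ≤
      ((s : ℝ) * s' * H ^ 2) * (tau (Rm p) ^ A * (Rm p : ℝ) ^ (-c) *
        (tau (dof (Rm p) κ κ') ^ A / (dof (Rm p) κ κ' : ℝ) ^ 2)) +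
        ((s : ℝ) * s' * H ^ 2) * (8 * ((Q : ℝ) ^ k)⁻¹ ^ 6) := by
    intro κ hκ κ' hκ'
    obtain ⟨hper, hb4⟩ := F1_glob ψ hψ A c hL p hPm κ κ' (hKp κ hκ) (hKp κ' hκ')
    obtain ⟨hN, hNQ⟩ := F2_size Q p hp κ κ' (hKS κ hκ) (hKS κ' hκ')
    set N := Rm p * dof (Rm p) κ κ' with hNdef
    have hNL : N * Q ^ (8 * k) ≤ Q ^ (10 * k) := by
      calc N * Q ^ (8 * k) ≤ Q ^ (2 * k) * Q ^ (8 * k) := Nat.mul_le_mul_right _ hNQ
        _ = Q ^ (10 * k) := by rw [← pow_add]; congr 1; ring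
    have h1 := C2_box N (Q ^ (8 * k)) hN hL0 _ hper ((Q : ℝ) ^ (2 * k))
      (fun y y' z z' => F3_sup ψ Q p hp κ κ' (hKS κ hκ) (hKS κ' hκ') y y' z z') a a' b b s s' H H
      (hNL.trans hs) (hNL.trans hs') (hNL.trans hH) (hNL.trans hH)
    set BX := ∑ y ∈ Ico a (a + s), ∑ y' ∈ Ico a' (a' + s'), ∑ z ∈ Ico b (b + H), ∑ z' ∈ Ico b (b + H),
        Db ψ (fun i => gk (p i) (κ i)) (fun i => gk (p i) (κ' i)) y y' z z' with hBX
    set S0 := S4 N (Db ψ (fun i => gk (p i) (κ i)) (fun i => gk (p i) (κ' i))) with hS0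
    have hN4 : (0 : ℝ) < (N : ℝ) ^ 4 := pow_pos (by exact_mod_cast hN) 4
    have hw0 : (0 : ℝ) ≤ (s : ℝ) * s' * H * H / (N : ℝ) ^ 4 := by positivity
    have h2 : ‖(((s : ℝ) * s' * H * H / (N : ℝ) ^ 4 : ℝ) : ℂ) * S0‖ ≤
        ((s : ℝ) * s' * H ^ 2) * (tau (Rm p) ^ A * (Rm p : ℝ) ^ (-c) *
          (tau (dof (Rm p) κ κ') ^ A / (dof (Rm p) κ κ' : ℝ) ^ 2)) := by
      rw [norm_mul, Complex.norm_real, Real.norm_eq_abs, abs_of_nonneg hw0]
      calc (s : ℝ) * s' * H * H / (N : ℝ) ^ 4 * ‖S0‖ ≤ (s : ℝ) * s' * H * H / (N : ℝ) ^ 4 *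
            ((N : ℝ) ^ 4 * (tau (Rm p) ^ A * (Rm p : ℝ) ^ (-c) *
          (tau (dof (Rm p) κ κ') ^ A / (dof (Rm p) κ κ' : ℝ) ^ 2))) := mul_le_mul_of_nonneg_left hb4 hw0
        _ = _ := by
            field_simp
    have h3 : 8 * (Q : ℝ) ^ (2 * k) / ((Q ^ (8 * k) : ℕ) : ℝ) * ((s : ℝ) * s' * H * H) =
        ((s : ℝ) * s' * H ^ 2) * (8 * ((Q : ℝ) ^ k)⁻¹ ^ 6) := by
      have h4 : (Q : ℝ) ^ k ≠ 0 := by linarith
      have h5 : (Q : ℝ) ^ (2 * k) = ((Q : ℝ) ^ k) ^ 2 := by rw [← pow_mul, mul_comm]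
      have h6 : ((Q ^ (8 * k) : ℕ) : ℝ) = ((Q : ℝ) ^ k) ^ 8 := by
        rw [Nat.cast_pow, ← pow_mul, mul_comm k 8]
      rw [h5, h6]
      field_simp
    rw [h3] at h1
    have h4 : BX = (BX - (((s : ℝ) * s' * H * H / (N : ℝ) ^ 4 : ℝ) : ℂ) * S0) +
        (((s : ℝ) * s' * H * H / (N : ℝ) ^ 4 : ℝ) : ℂ) * S0 := by ring
    rw [h4]
    refine (norm_add_le _ _).trans ?_
    rw [add_comm]
    exact add_le_add h2 h1
  -- the sum
  have hreal : ∑ y ∈ Ico a (a + s), ∑ y' ∈ Ico a' (a' + s'), ‖∑ z ∈ Ico b (b + H), ∑ κ ∈ T,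
      ∏ i, gk (p i) (κ i) (ψ i y y' z)‖ ^ 2 ≤ ∑ κ ∈ T, ∑ κ' ∈ T,
      ‖∑ y ∈ Ico a (a + s), ∑ y' ∈ Ico a' (a' + s'), ∑ z ∈ Ico b (b + H), ∑ z' ∈ Ico b (b + H),
        Db ψ (fun i => gk (p i) (κ i)) (fun i => gk (p i) (κ' i)) y y' z z'‖ := by
    have h1 := F3_expand ψ p T a a' b s s' H
    have h2 : 0 ≤ ∑ y ∈ Ico a (a + s), ∑ y' ∈ Ico a' (a' + s'), ‖∑ z ∈ Ico b (b + H), ∑ κ ∈ T,
      ∏ i, gk (p i) (κ i) (ψ i y y' z)‖ ^ 2 :=
      Finset.sum_nonneg fun _ _ => Finset.sum_nonneg fun _ _ => sq_nonneg _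
    have h3 := congrArg norm h1
    rw [Complex.norm_real, Real.norm_eq_abs, abs_of_nonneg h2] at h3
    rw [h3]
    refine (norm_sum_le _ _).trans (Finset.sum_le_sum fun κ _ => norm_sum_le _ _)
  refine hreal.trans ?_
  refine (Finset.sum_le_sum fun κ hκ => Finset.sum_le_sum fun κ' hκ' => hpair κ hκ κ' hκ').trans ?_
  have hsplit : ∑ κ ∈ T, ∑ κ' ∈ T, (((s : ℝ) * s' * H ^ 2) * (tau (Rm p) ^ A * (Rm p : ℝ) ^ (-c) *
        (tau (dof (Rm p) κ κ') ^ A / (dof (Rm p) κ κ' : ℝ) ^ 2)) +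
        ((s : ℝ) * s' * H ^ 2) * (8 * ((Q : ℝ) ^ k)⁻¹ ^ 6)) =
      ((s : ℝ) * s' * H ^ 2) * (∑ κ ∈ T, ∑ κ' ∈ T, tau (Rm p) ^ A * (Rm p : ℝ) ^ (-c) *
        (tau (dof (Rm p) κ κ') ^ A / (dof (Rm p) κ κ' : ℝ) ^ 2)) +
      ((s : ℝ) * s' * H ^ 2) * ((T.card : ℝ) * T.card * (8 * ((Q : ℝ) ^ k)⁻¹ ^ 6)) := by
    rw [Finset.mul_sum]
    simp only [Finset.sum_add_distrib, Finset.mul_sum, Finset.sum_const, nsmul_eq_mul]
    ring
  rw [hsplit]
  have hmain := hsum Q D hD p hp T hT hTD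
  have herr : (T.card : ℝ) * T.card * (8 * ((Q : ℝ) ^ k)⁻¹ ^ 6) ≤ 8 * (D : ℝ) ^ (-(c / 2)) := by
    have h1 : (T.card : ℝ) ≤ (Q : ℝ) ^ k := by exact_mod_cast hcard
    have h2 : (0 : ℝ) < (Q : ℝ) ^ k := by linarith
    have h3 : (T.card : ℝ) * T.card ≤ (Q : ℝ) ^ k * (Q : ℝ) ^ k :=
      mul_le_mul h1 h1 (Nat.cast_nonneg _) h2.le
    have h4 : ((Q : ℝ) ^ k)⁻¹ ≤ (D : ℝ) ^ (-(c / 2)) := by
      have h5 : (D : ℝ) ≤ (Q : ℝ) ^ k := by exact_mod_cast hDQ
      rw [Real.rpow_neg (by linarith)]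
      refine inv_anti₀ (Real.rpow_pos_of_pos (by linarith) _) ?_
      calc (D : ℝ) ^ (c / 2) ≤ (D : ℝ) ^ (1 : ℝ) := Real.rpow_le_rpow_of_exponent_le hDr (by linarith)
        _ = (D : ℝ) := Real.rpow_one _
        _ ≤ (Q : ℝ) ^ k := h5
    have h5 : ((Q : ℝ) ^ k)⁻¹ ≤ 1 := inv_le_one_of_one_le₀ hQkr
    have h6 : 0 ≤ ((Q : ℝ) ^ k)⁻¹ := inv_nonneg.2 h2.le
    calc (T.card : ℝ) * T.card * (8 * ((Q : ℝ) ^ k)⁻¹ ^ 6)
        ≤ ((Q : ℝ) ^ k * (Q : ℝ) ^ k) * (8 * ((Q : ℝ) ^ k)⁻¹ ^ 6) :=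
          mul_le_mul_of_nonneg_right h3 (by positivity)
      _ = 8 * ((Q : ℝ) ^ k)⁻¹ ^ 4 := by
          field_simp
      _ ≤ 8 * ((Q : ℝ) ^ k)⁻¹ := by
          have : ((Q : ℝ) ^ k)⁻¹ ^ 4 ≤ ((Q : ℝ) ^ k)⁻¹ ^ 1 := pow_le_pow_of_le_one h6 h5 (by norm_num)
          rw [pow_one] at this
          linarith
      _ ≤ 8 * (D : ℝ) ^ (-(c / 2)) := by linarith
  calc _ ≤ ((s : ℝ) * s' * H ^ 2) * (C * (D : ℝ) ^ (-(c / 2))) +
        ((s : ℝ) * s' * H ^ 2) * (8 * (D : ℝ) ^ (-(c / 2))) :=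
        add_le_add (mul_le_mul_of_nonneg_left hmain hV) (mul_le_mul_of_nonneg_left herr hV)
    _ = (C + 8) * ((s : ℝ) * s' * H ^ 2) * (D : ℝ) ^ (-(c / 2)) := by ring

end Pool.Agent.Lib.H59T
end
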