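import Pool.Agent.Lib.H1M.RV3.M050
import Pool.Agent.Lib.H1M.RV3.M059

/-! Merged copies (to shorten the build) of Lib.H59T.E1, Lib.H59T.E2, Lib.H59T.E3, Lib.H59T.E4, Lib.H59T.E5, Lib.H59T.U3. -/

-- from Lib.H59T.E1
section

/-!
# Project H59T, chunk E1 (S/M): Lemma G for functions bounded by 2
-/

open Finset

namespace Pool.Agent.Lib.H59T

/-- Proof. `G5` with `W t = star (g (-t))/2`, `W' t = g' (-t)/2`: the conjugate of the inner sum is
`4 ∑_y χ(z+y) star χ(z'+y) W(z-y) W'(z'-y)`, and the norm of the conjugate is the same. -/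
theorem E1_plus (l a : ℕ) (hl : l.Prime) (ha : 1 ≤ a) [NeZero (l ^ a)] (χ : DirichletCharacter ℂ (l ^ a))
    (hχ : χ.IsPrimitive) (g g' : ZMod (l ^ a) → ℂ) (hg : ∀ t, ‖g t‖ ≤ 2) (hg' : ∀ t, ‖g' t‖ ≤ 2) :
    ∑ z : ZMod (l ^ a), ∑ z' : ZMod (l ^ a), ‖∑ y : ZMod (l ^ a),
      star (χ (y + z)) * χ (y + z') * (g (y - z) * star (g' (y - z')))‖ ^ 2 ≤
      96 * ((l ^ a : ℕ) : ℝ) ^ 4 * (l : ℝ) ^ (-(a / 9 : ℝ)) := by
  have hn2 : ‖(2 : ℂ)‖ = 2 := by simp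
  have h := G5 l a hl ha χ hχ (fun t => star (g (-t)) / 2) (fun t => g' (-t) / 2)
    (fun t => by
      rw [norm_div, norm_star, hn2]
      have := hg (-t)
      linarith)
    (fun t => by
      rw [norm_div, hn2]
      have := hg' (-t)
      linarith)
  unfold GS at h
  have e1 : ∀ z z' : ZMod (l ^ a), ‖∑ y : ZMod (l ^ a),
      star (χ (y + z)) * χ (y + z') * (g (y - z) * star (g' (y - z')))‖ ^ 2 =
      16 * ‖∑ y : ZMod (l ^ a), χ (z + y) * star (χ (z' + y)) * (star (g (-(z - y))) / 2) *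
        (g' (-(z' - y)) / 2)‖ ^ 2 := by
    intro z z'
    have e2 : star (∑ y : ZMod (l ^ a), star (χ (y + z)) * χ (y + z') * (g (y - z) * star (g' (y - z')))) =
        4 * ∑ y : ZMod (l ^ a), χ (z + y) * star (χ (z' + y)) * (star (g (-(z - y))) / 2) *
        (g' (-(z' - y)) / 2) := by
      rw [star_sum, Finset.mul_sum]
      refine Finset.sum_congr rfl fun y _ => ?_
      rw [star_mul', star_mul', star_mul', star_star, star_star, neg_sub, neg_sub, add_comm z y, add_comm z' y]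
      ring
    have e3 := congrArg norm e2
    rw [norm_star, norm_mul] at e3
    have hn4 : ‖(4 : ℂ)‖ = 4 := by simp
    rw [e3, hn4]
    ring
  calc _ = 16 * ∑ z : ZMod (l ^ a), ∑ z' : ZMod (l ^ a), ‖∑ y : ZMod (l ^ a), χ (z + y) * star (χ (z' + y)) *
        (star (g (-(z - y))) / 2) * (g' (-(z' - y)) / 2)‖ ^ 2 := by
        rw [Finset.mul_sum]
        refine Finset.sum_congr rfl fun z _ => ?_
        rw [Finset.mul_sum]
        exact Finset.sum_congr rfl fun z' _ => e1 z z'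
    _ ≤ 16 * (6 * ((l ^ a : ℕ) : ℝ) ^ 4 * (l : ℝ) ^ (-(a / 9 : ℝ))) := mul_le_mul_of_nonneg_left h (by norm_num)
    _ = 96 * ((l ^ a : ℕ) : ℝ) ^ 4 * (l : ℝ) ^ (-(a / 9 : ℝ)) := by ring

/-- Proof. `E1_plus` after the substitution `z → -z`, `z' → -z'` (`Equiv.neg`). -/
theorem E1_minus (l a : ℕ) (hl : l.Prime) (ha : 1 ≤ a) [NeZero (l ^ a)] (χ : DirichletCharacter ℂ (l ^ a))
    (hχ : χ.IsPrimitive) (g g' : ZMod (l ^ a) → ℂ) (hg : ∀ t, ‖g t‖ ≤ 2) (hg' : ∀ t, ‖g' t‖ ≤ 2) :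
    ∑ z : ZMod (l ^ a), ∑ z' : ZMod (l ^ a), ‖∑ y : ZMod (l ^ a),
      star (χ (y - z)) * χ (y - z') * (g (y + z) * star (g' (y + z')))‖ ^ 2 ≤
      96 * ((l ^ a : ℕ) : ℝ) ^ 4 * (l : ℝ) ^ (-(a / 9 : ℝ)) := by
  refine le_trans (le_of_eq ?_) (E1_plus l a hl ha χ hχ g g' hg hg')
  rw [← Equiv.sum_comp (Equiv.neg (ZMod (l ^ a)))]
  refine Finset.sum_congr rfl fun z _ => ?_
  rw [← Equiv.sum_comp (Equiv.neg (ZMod (l ^ a)))]
  refine Finset.sum_congr rfl fun z' _ => ?_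
  simp only [Equiv.neg_apply, sub_neg_eq_add, ← sub_eq_add_neg]

/-- Cauchy-Schwarz: with a bounded function of `(z, z')`. Proof. `∑ ‖A‖ ‖B‖ ≤ C ∑ ‖A‖ ≤ C (q² ∑ ‖A‖²)^(1/2)`, `q = l^a`;
`l^(-a/18) = q^(-1/18)`. -/
theorem E1_cs (l a : ℕ) (hl : l.Prime) [NeZero (l ^ a)] (A B : ZMod (l ^ a) → ZMod (l ^ a) → ℂ) (M C : ℝ)
    (hC : 0 ≤ C) (hM : 0 ≤ M)
    (hA : ∑ z, ∑ z', ‖A z z'‖ ^ 2 ≤ M ^ 2 * (96 * ((l ^ a : ℕ) : ℝ) ^ 4 * (l : ℝ) ^ (-(a / 9 : ℝ))))
    (hB : ∀ z z', ‖B z z'‖ ≤ C) :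
    ‖∑ z, ∑ z', A z z' * B z z'‖ ≤
      10 * C * M * ((l ^ a : ℕ) : ℝ) ^ 3 * ((l ^ a : ℕ) : ℝ) ^ (-(1 / 18 : ℝ)) := by
  have hl0 : (0 : ℝ) < l := by exact_mod_cast hl.pos
  set q : ℝ := ((l ^ a : ℕ) : ℝ) with hq
  have hq0 : 0 < q := by
    rw [hq]
    exact_mod_cast pow_pos hl.pos a
  have hqe : q ^ (-(1 / 18 : ℝ)) = (l : ℝ) ^ (-(a / 18 : ℝ)) := by
    rw [hq]
    push_cast
    rw [← Real.rpow_natCast, ← Real.rpow_mul hl0.le]
    congr 1
    ring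
  have hsq : ((l : ℝ) ^ (-(a / 18 : ℝ))) ^ 2 = (l : ℝ) ^ (-(a / 9 : ℝ)) := by
    rw [← Real.rpow_natCast, ← Real.rpow_mul hl0.le]
    congr 1
    push_cast
    ring
  have h1 : ‖∑ z, ∑ z', A z z' * B z z'‖ ≤ C * ∑ p : ZMod (l ^ a) × ZMod (l ^ a), ‖A p.1 p.2‖ := by
    rw [Fintype.sum_prod_type, Finset.mul_sum]
    refine (norm_sum_le _ _).trans (Finset.sum_le_sum fun z _ => ?_)
    rw [Finset.mul_sum]
    refine (norm_sum_le _ _).trans (Finset.sum_le_sum fun z' _ => ?_)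
    rw [norm_mul, mul_comm]
    exact mul_le_mul_of_nonneg_right (hB z z') (norm_nonneg _)
  have h2 : (∑ p : ZMod (l ^ a) × ZMod (l ^ a), ‖A p.1 p.2‖) ^ 2 ≤
      q ^ 2 * ∑ p : ZMod (l ^ a) × ZMod (l ^ a), ‖A p.1 p.2‖ ^ 2 := by
    have h3 := sq_sum_le_card_mul_sum_sq (s := (univ : Finset (ZMod (l ^ a) × ZMod (l ^ a))))
      (f := fun p => ‖A p.1 p.2‖)
    refine h3.trans (le_of_eq ?_)
    rw [Finset.card_univ, Fintype.card_prod, ZMod.card, hq]
    push_cast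
    ring
  have h3 : (∑ p : ZMod (l ^ a) × ZMod (l ^ a), ‖A p.1 p.2‖) ^ 2 ≤
      (10 * M * q ^ 3 * (l : ℝ) ^ (-(a / 18 : ℝ))) ^ 2 := by
    rw [Fintype.sum_prod_type (f := fun p : ZMod (l ^ a) × ZMod (l ^ a) => ‖A p.1 p.2‖ ^ 2)] at h2
    refine h2.trans ((mul_le_mul_of_nonneg_left hA (by positivity)).trans ?_)
    have e1 : (10 * M * q ^ 3 * (l : ℝ) ^ (-(a / 18 : ℝ))) ^ 2 =
        100 * (M ^ 2 * q ^ 6 * (l : ℝ) ^ (-(a / 9 : ℝ))) := by
      rw [← hsq]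
      ring
    have e2 : q ^ 2 * (M ^ 2 * (96 * q ^ 4 * (l : ℝ) ^ (-(a / 9 : ℝ)))) =
        96 * (M ^ 2 * q ^ 6 * (l : ℝ) ^ (-(a / 9 : ℝ))) := by ring
    rw [e1, e2]
    exact mul_le_mul_of_nonneg_right (by norm_num) (by positivity)
  have h4 : ∑ p : ZMod (l ^ a) × ZMod (l ^ a), ‖A p.1 p.2‖ ≤
      10 * M * q ^ 3 * (l : ℝ) ^ (-(a / 18 : ℝ)) := by
    exact (pow_le_pow_iff_left₀ (Finset.sum_nonneg fun _ _ => norm_nonneg _) (by positivity) two_ne_zero).1 h3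
  refine h1.trans ((mul_le_mul_of_nonneg_left h4 hC).trans (le_of_eq ?_))
  rw [hqe]
  ring

end Pool.Agent.Lib.H59T
end

-- from Lib.H59T.E2
section

/-!
# Project H59T, chunk E2 (M): the four forms at a prime dividing the conductors
-/

open Finset

namespace Pool.Agent.Lib.H59T

/-- the sum over `y` of two forms, conductor in `y + z` -/
theorem e2_plus (l a : ℕ) (hl : l.Prime) (ha : 1 ≤ a) [NeZero (l ^ a)] (χ : DirichletCharacter ℂ (l ^ a))
    (hχ : χ.IsPrimitive) (c : ℝ) (hc : |c| ≤ 2) (G0 G0' G1 G1' : ZMod (l ^ a) → ℂ)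
    (h0 : ∀ t, G0 t = c * (starRingEnd ℂ) (χ t)) (h0' : ∀ t, G0' t = c * (starRingEnd ℂ) (χ t))
    (h1 : ∀ t, ‖G1 t‖ ≤ 2) (h1' : ∀ t, ‖G1' t‖ ≤ 2) :
    ∑ z : ZMod (l ^ a), ∑ z' : ZMod (l ^ a), ‖∑ y : ZMod (l ^ a),
      (G0 (y + z) * (starRingEnd ℂ) (G0' (y + z'))) * (G1 (y - z) * (starRingEnd ℂ) (G1' (y - z')))‖ ^ 2 ≤
      4 ^ 2 * (96 * ((l ^ a : ℕ) : ℝ) ^ 4 * (l : ℝ) ^ (-(a / 9 : ℝ))) := by
  have h := E1_plus l a hl ha χ hχ G1 G1' h1 h1'
  have e1 : ∀ z z' : ZMod (l ^ a), ‖∑ y : ZMod (l ^ a),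
      (G0 (y + z) * (starRingEnd ℂ) (G0' (y + z'))) * (G1 (y - z) * (starRingEnd ℂ) (G1' (y - z')))‖ ^ 2 =
      (|c| ^ 2) ^ 2 * ‖∑ y : ZMod (l ^ a), star (χ (y + z)) * χ (y + z') * (G1 (y - z) * star (G1' (y - z')))‖ ^ 2 := by
    intro z z'
    have e2 : ∑ y : ZMod (l ^ a),
      (G0 (y + z) * (starRingEnd ℂ) (G0' (y + z'))) * (G1 (y - z) * (starRingEnd ℂ) (G1' (y - z'))) =
        ((c : ℂ) ^ 2) * ∑ y : ZMod (l ^ a), star (χ (y + z)) * χ (y + z') * (G1 (y - z) * star (G1' (y - z'))) := by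
      rw [Finset.mul_sum]
      refine Finset.sum_congr rfl fun y _ => ?_
      rw [h0, h0', map_mul, Complex.conj_conj, Complex.conj_ofReal]
      simp only [← starRingEnd_apply]
      ring
    rw [e2, norm_mul, norm_pow, Complex.norm_real, Real.norm_eq_abs, mul_pow]
  have hc4 : (|c| ^ 2) ^ 2 ≤ 4 ^ 2 := by
    have hc2 : |c| ^ 2 ≤ 4 := by
      nlinarith [abs_nonneg c]
    exact pow_le_pow_left₀ (by positivity) hc2 2
  calc _ = (|c| ^ 2) ^ 2 * ∑ z : ZMod (l ^ a), ∑ z' : ZMod (l ^ a), ‖∑ y : ZMod (l ^ a),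
        star (χ (y + z)) * χ (y + z') * (G1 (y - z) * star (G1' (y - z')))‖ ^ 2 := by
        rw [Finset.mul_sum]
        refine Finset.sum_congr rfl fun z _ => ?_
        rw [Finset.mul_sum]
        exact Finset.sum_congr rfl fun z' _ => e1 z z'
    _ ≤ 4 ^ 2 * (96 * ((l ^ a : ℕ) : ℝ) ^ 4 * (l : ℝ) ^ (-(a / 9 : ℝ))) :=
      mul_le_mul hc4 h (Finset.sum_nonneg fun _ _ => Finset.sum_nonneg fun _ _ => by positivity) (by norm_num)

/-- the sum over `y` of two forms, conductor in `y - z` -/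
theorem e2_minus (l a : ℕ) (hl : l.Prime) (ha : 1 ≤ a) [NeZero (l ^ a)] (χ : DirichletCharacter ℂ (l ^ a))
    (hχ : χ.IsPrimitive) (c : ℝ) (hc : |c| ≤ 2) (G0 G0' G1 G1' : ZMod (l ^ a) → ℂ)
    (h0 : ∀ t, G1 t = c * (starRingEnd ℂ) (χ t)) (h0' : ∀ t, G1' t = c * (starRingEnd ℂ) (χ t))
    (h1 : ∀ t, ‖G0 t‖ ≤ 2) (h1' : ∀ t, ‖G0' t‖ ≤ 2) :
    ∑ z : ZMod (l ^ a), ∑ z' : ZMod (l ^ a), ‖∑ y : ZMod (l ^ a),
      (G0 (y + z) * (starRingEnd ℂ) (G0' (y + z'))) * (G1 (y - z) * (starRingEnd ℂ) (G1' (y - z')))‖ ^ 2 ≤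
      4 ^ 2 * (96 * ((l ^ a : ℕ) : ℝ) ^ 4 * (l : ℝ) ^ (-(a / 9 : ℝ))) := by
  have h := E1_minus l a hl ha χ hχ G0 G0' h1 h1'
  have e1 : ∀ z z' : ZMod (l ^ a), ‖∑ y : ZMod (l ^ a),
      (G0 (y + z) * (starRingEnd ℂ) (G0' (y + z'))) * (G1 (y - z) * (starRingEnd ℂ) (G1' (y - z')))‖ ^ 2 =
      (|c| ^ 2) ^ 2 * ‖∑ y : ZMod (l ^ a), star (χ (y - z)) * χ (y - z') * (G0 (y + z) * star (G0' (y + z')))‖ ^ 2 := by
    intro z z'
    have e2 : ∑ y : ZMod (l ^ a),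
      (G0 (y + z) * (starRingEnd ℂ) (G0' (y + z'))) * (G1 (y - z) * (starRingEnd ℂ) (G1' (y - z'))) =
        ((c : ℂ) ^ 2) * ∑ y : ZMod (l ^ a), star (χ (y - z)) * χ (y - z') * (G0 (y + z) * star (G0' (y + z'))) := by
      rw [Finset.mul_sum]
      refine Finset.sum_congr rfl fun y _ => ?_
      rw [h0, h0', map_mul, Complex.conj_conj, Complex.conj_ofReal]
      simp only [← starRingEnd_apply]
      ring
    rw [e2, norm_mul, norm_pow, Complex.norm_real, Real.norm_eq_abs, mul_pow]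
  have hc4 : (|c| ^ 2) ^ 2 ≤ 4 ^ 2 := by
    have hc2 : |c| ^ 2 ≤ 4 := by
      nlinarith [abs_nonneg c]
    exact pow_le_pow_left₀ (by positivity) hc2 2
  calc _ = (|c| ^ 2) ^ 2 * ∑ z : ZMod (l ^ a), ∑ z' : ZMod (l ^ a), ‖∑ y : ZMod (l ^ a),
        star (χ (y - z)) * χ (y - z') * (G0 (y + z) * star (G0' (y + z')))‖ ^ 2 := by
        rw [Finset.mul_sum]
        refine Finset.sum_congr rfl fun z _ => ?_
        rw [Finset.mul_sum]
        exact Finset.sum_congr rfl fun z' _ => e1 z z'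
    _ ≤ 4 ^ 2 * (96 * ((l ^ a : ℕ) : ℝ) ^ 4 * (l : ℝ) ^ (-(a / 9 : ℝ))) :=
      mul_le_mul hc4 h (Finset.sum_nonneg fun _ _ => Finset.sum_nonneg fun _ _ => by positivity) (by norm_num)

/-- the trivial bound for the sum over `y` -/
theorem e2_triv (q : ℕ) [NeZero q] (G0 G0' G1 G1' : ZMod q → ℂ) (b0 : ∀ t, ‖G0 t‖ ≤ 2) (b0' : ∀ t, ‖G0' t‖ ≤ 2)
    (b1 : ∀ t, ‖G1 t‖ ≤ 2) (b1' : ∀ t, ‖G1' t‖ ≤ 2) (z z' : ZMod q) :
    ‖∑ y : ZMod q, (G0 (y + z) * (starRingEnd ℂ) (G0' (y + z'))) *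
      (G1 (y - z) * (starRingEnd ℂ) (G1' (y - z')))‖ ≤ 16 * (q : ℝ) := by
  calc _ ≤ ∑ y : ZMod q, ‖(G0 (y + z) * (starRingEnd ℂ) (G0' (y + z'))) *
      (G1 (y - z) * (starRingEnd ℂ) (G1' (y - z')))‖ := norm_sum_le _ _
    _ ≤ ∑ _y : ZMod q, (16 : ℝ) := by
      refine Finset.sum_le_sum fun y _ => ?_
      rw [norm_mul, norm_mul, norm_mul, RCLike.norm_conj, RCLike.norm_conj]
      calc _ ≤ ((2 : ℝ) * 2) * (2 * 2) :=
            mul_le_mul (mul_le_mul (b0 _) (b0' _) (norm_nonneg _) (by norm_num))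
              (mul_le_mul (b1 _) (b1' _) (norm_nonneg _) (by norm_num)) (by positivity) (by norm_num)
        _ = 16 := by norm_num
    _ = 16 * (q : ℝ) := by rw [Finset.sum_const, Finset.card_univ, ZMod.card, nsmul_eq_mul, mul_comm]

/-- Proof. `C3_fun`, `C3_nest`: the sum is over `z, z'` of (sum over `y`) (sum over `y'`). If `i0` is `0` or `1` the sum over `y` is
`A = c² ∑_y star χ(y+z) χ(y+z') g_1(y-z) star g'_1(y-z')` (resp. `E1_minus`), and the sum over `y'` is at most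
`16 q`, `q = l^a`; `E1_cs` with `M = 4`, `C = 16 q`: at most `640 q⁴ q^(-1/18)`. If `i0` is `2` or `3` exchange the roles of `y` and
`y'`. -/
theorem E2_four (l a : ℕ) (hl : l.Prime) (ha : 1 ≤ a) (χ : DirichletCharacter ℂ (l ^ a))
    (hχ : χ.IsPrimitive) (c : ℝ) (hc : |c| ≤ 2) (g g' : Fin 4 → ℤ → ℂ)
    (hp : ∀ i m, g i (m + (l ^ a : ℕ)) = g i m) (hp' : ∀ i m, g' i (m + (l ^ a : ℕ)) = g' i m)
    (hb : ∀ i m, ‖g i m‖ ≤ 2) (hb' : ∀ i m, ‖g' i m‖ ≤ 2) (i0 : Fin 4)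
    (h : ∀ m : ℤ, g i0 m = c * (starRingEnd ℂ) (χ (m : ZMod (l ^ a))))
    (h' : ∀ m : ℤ, g' i0 m = c * (starRingEnd ℂ) (χ (m : ZMod (l ^ a)))) :
    ‖S4 (l ^ a) (Db ff g g')‖ ≤ ((l ^ a : ℕ) : ℝ) ^ 4 * (2 ^ 10 * ((l ^ a : ℕ) : ℝ) ^ (-(1 / 18 : ℝ))) := by
  haveI : NeZero (l ^ a) := ⟨pow_ne_zero _ hl.ne_zero⟩
  choose G hG using fun i => C3_fun (l ^ a) (g i) (hp i)
  choose G' hG' using fun i => C3_fun (l ^ a) (g' i) (hp' i)
  have hs : ∀ t : ZMod (l ^ a), ∃ m : ℤ, (m : ZMod (l ^ a)) = t := fun t => ZMod.intCast_surjective t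
  have bG : ∀ i t, ‖G i t‖ ≤ 2 := by
    intro i t
    obtain ⟨m, rfl⟩ := hs t
    rw [← hG]
    exact hb i m
  have bG' : ∀ i t, ‖G' i t‖ ≤ 2 := by
    intro i t
    obtain ⟨m, rfl⟩ := hs t
    rw [← hG']
    exact hb' i m
  have hG0 : ∀ t, G i0 t = c * (starRingEnd ℂ) (χ t) := by
    intro t
    obtain ⟨m, rfl⟩ := hs t
    rw [← hG]
    exact h m
  have hG0' : ∀ t, G' i0 t = c * (starRingEnd ℂ) (χ t) := by
    intro t
    obtain ⟨m, rfl⟩ := hs t
    rw [← hG']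
    exact h' m
  have e1 : Db ff g g' = fun y y' z z' : ℤ =>
      (fun y y' z z' : ZMod (l ^ a) =>
        ((G 0 (y + z) * (starRingEnd ℂ) (G' 0 (y + z'))) * (G 1 (y - z) * (starRingEnd ℂ) (G' 1 (y - z')))) *
        ((G 2 (y' + z) * (starRingEnd ℂ) (G' 2 (y' + z'))) * (G 3 (y' - z) * (starRingEnd ℂ) (G' 3 (y' - z')))))
        y y' z z' := by
    funext y y' z z'
    unfold Db
    rw [Fin.prod_univ_four]
    simp only [ff, hG, hG', Matrix.cons_val_zero, Matrix.cons_val_one, Matrix.cons_val]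
    push_cast
    ring
  have e2 : S4 (l ^ a) (Db ff g g') = ∑ z : ZMod (l ^ a), ∑ z' : ZMod (l ^ a),
      (∑ y : ZMod (l ^ a), (G 0 (y + z) * (starRingEnd ℂ) (G' 0 (y + z'))) *
        (G 1 (y - z) * (starRingEnd ℂ) (G' 1 (y - z')))) *
      ∑ y' : ZMod (l ^ a), (G 2 (y' + z) * (starRingEnd ℂ) (G' 2 (y' + z'))) *
        (G 3 (y' - z) * (starRingEnd ℂ) (G' 3 (y' - z'))) := by
    rw [e1, C3_nest (l ^ a) (fun y y' z z' : ZMod (l ^ a) =>
        ((G 0 (y + z) * (starRingEnd ℂ) (G' 0 (y + z'))) * (G 1 (y - z) * (starRingEnd ℂ) (G' 1 (y - z')))) *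
        ((G 2 (y' + z) * (starRingEnd ℂ) (G' 2 (y' + z'))) * (G 3 (y' - z) * (starRingEnd ℂ) (G' 3 (y' - z')))))]
    have e3 : ∀ y : ZMod (l ^ a), ∑ y' : ZMod (l ^ a), ∑ z : ZMod (l ^ a), ∑ z' : ZMod (l ^ a),
        ((G 0 (y + z) * (starRingEnd ℂ) (G' 0 (y + z'))) * (G 1 (y - z) * (starRingEnd ℂ) (G' 1 (y - z')))) *
        ((G 2 (y' + z) * (starRingEnd ℂ) (G' 2 (y' + z'))) * (G 3 (y' - z) * (starRingEnd ℂ) (G' 3 (y' - z')))) =
        ∑ z : ZMod (l ^ a), ∑ z' : ZMod (l ^ a), ∑ y' : ZMod (l ^ a),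
        ((G 0 (y + z) * (starRingEnd ℂ) (G' 0 (y + z'))) * (G 1 (y - z) * (starRingEnd ℂ) (G' 1 (y - z')))) *
        ((G 2 (y' + z) * (starRingEnd ℂ) (G' 2 (y' + z'))) * (G 3 (y' - z) * (starRingEnd ℂ) (G' 3 (y' - z')))) := by
      intro y
      rw [Finset.sum_comm]
      exact Finset.sum_congr rfl fun z _ => Finset.sum_comm
    rw [Finset.sum_congr rfl fun y _ => e3 y, Finset.sum_comm]
    refine Finset.sum_congr rfl fun z _ => ?_
    rw [Finset.sum_comm]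
    refine Finset.sum_congr rfl fun z' _ => ?_
    rw [Finset.sum_mul_sum]
  have hq0 : (0 : ℝ) < ((l ^ a : ℕ) : ℝ) := by exact_mod_cast pow_pos hl.pos a
  have hfin : ∀ A B : ZMod (l ^ a) → ZMod (l ^ a) → ℂ,
      ∑ z, ∑ z', ‖A z z'‖ ^ 2 ≤ 4 ^ 2 * (96 * ((l ^ a : ℕ) : ℝ) ^ 4 * (l : ℝ) ^ (-(a / 9 : ℝ))) →
      (∀ z z', ‖B z z'‖ ≤ 16 * ((l ^ a : ℕ) : ℝ)) →
      ‖∑ z, ∑ z', A z z' * B z z'‖ ≤
        ((l ^ a : ℕ) : ℝ) ^ 4 * (2 ^ 10 * ((l ^ a : ℕ) : ℝ) ^ (-(1 / 18 : ℝ))) := by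
    intro A B hA hB
    refine (E1_cs l a hl A B 4 (16 * ((l ^ a : ℕ) : ℝ)) (by positivity) (by norm_num) hA hB).trans ?_
    have e4 : 10 * (16 * ((l ^ a : ℕ) : ℝ)) * 4 * ((l ^ a : ℕ) : ℝ) ^ 3 * ((l ^ a : ℕ) : ℝ) ^ (-(1 / 18 : ℝ)) =
        640 * (((l ^ a : ℕ) : ℝ) ^ 4 * ((l ^ a : ℕ) : ℝ) ^ (-(1 / 18 : ℝ))) := by ring
    have e5 : ((l ^ a : ℕ) : ℝ) ^ 4 * (2 ^ 10 * ((l ^ a : ℕ) : ℝ) ^ (-(1 / 18 : ℝ))) =
        1024 * (((l ^ a : ℕ) : ℝ) ^ 4 * ((l ^ a : ℕ) : ℝ) ^ (-(1 / 18 : ℝ))) := by ring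
    rw [e4, e5]
    exact mul_le_mul_of_nonneg_right (by norm_num) (by positivity)
  have hsw : ∀ A B : ZMod (l ^ a) → ZMod (l ^ a) → ℂ, ∑ z, ∑ z', A z z' * B z z' = ∑ z, ∑ z', B z z' * A z z' :=
    fun A B => Finset.sum_congr rfl fun z _ => Finset.sum_congr rfl fun z' _ => mul_comm _ _
  rw [e2]
  fin_cases i0
  · exact hfin _ _ (e2_plus l a hl ha χ hχ c hc _ _ _ _ hG0 hG0' (bG 1) (bG' 1))
      (fun z z' => e2_triv (l ^ a) _ _ _ _ (bG 2) (bG' 2) (bG 3) (bG' 3) z z')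
  · exact hfin _ _ (e2_minus l a hl ha χ hχ c hc _ _ _ _ hG0 hG0' (bG 0) (bG' 0))
      (fun z z' => e2_triv (l ^ a) _ _ _ _ (bG 2) (bG' 2) (bG 3) (bG' 3) z z')
  · rw [hsw]
    exact hfin _ _ (e2_plus l a hl ha χ hχ c hc _ _ _ _ hG0 hG0' (bG 3) (bG' 3))
      (fun z z' => e2_triv (l ^ a) _ _ _ _ (bG 0) (bG' 0) (bG 1) (bG' 1) z z')
  · rw [hsw]
    exact hfin _ _ (e2_minus l a hl ha χ hχ c hc _ _ _ _ hG0 hG0' (bG 2) (bG' 2))
      (fun z z' => e2_triv (l ^ a) _ _ _ _ (bG 0) (bG' 0) (bG 1) (bG' 1) z z')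

end Pool.Agent.Lib.H59T
end

-- from Lib.H59T.E3
section

/-!
# Project H59T, chunk E3 (M): two independent linear forms modulo a prime
-/

open Finset

namespace Pool.Agent.Lib.H59T

theorem e3_prod (i j : Fin 4) (hij : i ≠ j) (A B L : ℂ) :
    ∏ k : Fin 4, (if k = i then A else if k = j then B else L) = L ^ 2 * (A * B) := by
  revert hij
  fin_cases i <;> fin_cases j <;> intro hij <;> first | exact absurd rfl hij | (rw [Fin.prod_univ_four]; simp; try ring)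

theorem e3_ij (l : ℕ) [Fact l.Prime] (i j : Fin 4) (hij : i ≠ j) (f g : ZMod l → ℂ) :
    ∑ x : Fin 4 → ZMod l, f (x i) * g (x j) = (l : ℂ) ^ 2 * ((∑ t, f t) * ∑ t, g t) := by
  have h1 : ∀ x : Fin 4 → ZMod l, f (x i) * g (x j) = ∏ k : Fin 4, (if k = i then f (x k) else if k = j then g (x k) else 1) := by
    intro x
    have h2 : ∏ k : Fin 4, (if k = i then f (x k) else if k = j then g (x k) else 1) =
        ∏ k : Fin 4, (if k = i then f (x i) else if k = j then g (x j) else 1) := by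
      refine Finset.prod_congr rfl fun k _ => ?_
      split_ifs with h3 h4
      · rw [h3]
      · rw [h4]
      · rfl
    rw [h2, e3_prod i j hij, one_pow, one_mul]
  rw [Finset.sum_congr rfl fun x _ => h1 x]
  have h3 := Finset.prod_univ_sum (fun _ : Fin 4 => (univ : Finset (ZMod l)))
    (fun k t => if k = i then f t else if k = j then g t else (1 : ℂ))
  rw [Fintype.piFinset_univ] at h3
  rw [← h3]
  have h4 : ∀ k : Fin 4, ∑ t : ZMod l, (if k = i then f t else if k = j then g t else (1 : ℂ)) =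
      if k = i then ∑ t, f t else if k = j then ∑ t, g t else (l : ℂ) := by
    intro k
    split_ifs with h5 h6
    · rfl
    · rfl
    · simp [ZMod.card]
  rw [Finset.prod_congr rfl fun k _ => h4 k, e3_prod i j hij]

/-- Proof. Replace the coordinates `i, j` of `x` by `∑ u_k x_k + c` and `∑ v_k x_k + d`: this map of `Fin 4 → ZMod l` to itself is
injective (the minor is not `0`), so bijective (`Finite.injective_iff_bijective`), and the sum becomes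
`∑_x f (x i) g (x j) = l² (∑ f) (∑ g)` (`Finset.prod_univ_sum`/`Fintype.piFinset_univ`, `i ≠ j` because the minor is not `0`). -/
theorem E3_two (l : ℕ) [Fact l.Prime] (u v : Fin 4 → ZMod l) (c d : ZMod l) (i j : Fin 4)
    (hij : u i * v j - u j * v i ≠ 0) (f g : ZMod l → ℂ) :
    ∑ x : Fin 4 → ZMod l, f (∑ k, u k * x k + c) * g (∑ k, v k * x k + d) =
      (l : ℂ) ^ 2 * ((∑ t, f t) * ∑ t, g t) := by
  have hne : i ≠ j := by
    rintro rfl
    exact hij (by ring)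
  let Φ : (Fin 4 → ZMod l) → (Fin 4 → ZMod l) := fun x =>
    Function.update (Function.update x i (∑ k, u k * x k + c)) j (∑ k, v k * x k + d)
  have hΦi : ∀ x, Φ x i = ∑ k, u k * x k + c := by
    intro x
    simp [Φ, Function.update_of_ne hne]
  have hΦj : ∀ x, Φ x j = ∑ k, v k * x k + d := by
    intro x
    simp [Φ]
  have hΦk : ∀ x k, k ≠ i → k ≠ j → Φ x k = x k := by
    intro x k h1 h2
    simp [Φ, Function.update_of_ne h1, Function.update_of_ne h2]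
  have hinj : Function.Injective Φ := by
    intro x y hxy
    have h1 : ∀ k, k ≠ i → k ≠ j → x k - y k = 0 := by
      intro k h1 h2
      rw [← hΦk x k h1 h2, ← hΦk y k h1 h2, hxy, sub_self]
    have hsum : ∀ w : Fin 4 → ZMod l, ∑ k, w k * (x k - y k) = w i * (x i - y i) + w j * (x j - y j) := by
      intro w
      have : ∑ k, w k * (x k - y k) = ∑ k ∈ ({i, j} : Finset (Fin 4)), w k * (x k - y k) := by
        refine (Finset.sum_subset (Finset.subset_univ _) fun k _ hk => ?_).symm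
        rw [Finset.mem_insert, Finset.mem_singleton] at hk
        push Not at hk
        rw [h1 k hk.1 hk.2, mul_zero]
      rw [this, Finset.sum_pair hne]
    have h2 : ∑ k, u k * (x k - y k) = 0 := by
      have h3 := hΦi x
      rw [hxy, hΦi y] at h3
      simp only [mul_sub, Finset.sum_sub_distrib]
      linear_combination -h3
    have h2' : ∑ k, v k * (x k - y k) = 0 := by
      have h3 := hΦj x
      rw [hxy, hΦj y] at h3
      simp only [mul_sub, Finset.sum_sub_distrib]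
      linear_combination -h3
    rw [hsum u] at h2
    rw [hsum v] at h2'
    have h5 : (u i * v j - u j * v i) * (x i - y i) = 0 := by
      linear_combination v j * h2 - u j * h2'
    have h6 : (u i * v j - u j * v i) * (x j - y j) = 0 := by
      linear_combination -v i * h2 + u i * h2'
    have h5' := (mul_eq_zero.1 h5).resolve_left hij
    have h6' := (mul_eq_zero.1 h6).resolve_left hij
    funext k
    by_cases hki : k = i
    · rw [hki]; exact sub_eq_zero.1 h5'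
    · by_cases hkj : k = j
      · rw [hkj]; exact sub_eq_zero.1 h6'
      · exact sub_eq_zero.1 (h1 k hki hkj)
  have hbij : Function.Bijective Φ := Finite.injective_iff_bijective.1 hinj
  rw [← e3_ij l i j hne f g, ← hbij.sum_comp (fun x => f (x i) * g (x j))]
  refine Finset.sum_congr rfl fun x _ => ?_
  rw [hΦi, hΦj]

/-- Proof. `E3_two` with the form `v = e_j`, `j ≠ i`, and `g = 1`. -/
theorem E3_one (l : ℕ) [Fact l.Prime] (u : Fin 4 → ZMod l) (c : ZMod l) (i : Fin 4) (hi : u i ≠ 0)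
    (f : ZMod l → ℂ) : ∑ x : Fin 4 → ZMod l, f (∑ k, u k * x k + c) = (l : ℂ) ^ 3 * ∑ t, f t := by
  obtain ⟨j, hj⟩ : ∃ j : Fin 4, j ≠ i := exists_ne i
  have h := E3_two l u (Pi.single j 1) c 0 i j (by
    rw [Pi.single_eq_same, Pi.single_eq_of_ne hj.symm]
    simpa using hi) f (fun _ => 1)
  simp only [mul_one] at h
  rw [h]
  simp [ZMod.card]
  ring

/-- The number of the common zeros. Proof. `E3_two` with the indicator function of `0`. -/
theorem E3_zero (l : ℕ) [Fact l.Prime] (u v : Fin 4 → ZMod l) (c d : ZMod l) (i j : Fin 4)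
    (hij : u i * v j - u j * v i ≠ 0) :
    ((univ : Finset (Fin 4 → ZMod l)).filter
      (fun x => ∑ k, u k * x k + c = 0 ∧ ∑ k, v k * x k + d = 0)).card = l ^ 2 := by
  have h := E3_two l u v c d i j hij (fun t => if t = 0 then 1 else 0) (fun t => if t = 0 then 1 else 0)
  have h1 : ∑ t : ZMod l, (if t = 0 then (1 : ℂ) else 0) = 1 := by simp
  rw [h1, mul_one, mul_one] at h
  have h2 : (((univ : Finset (Fin 4 → ZMod l)).filter
      (fun x => ∑ k, u k * x k + c = 0 ∧ ∑ k, v k * x k + d = 0)).card : ℂ) = (l : ℂ) ^ 2 := by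
    rw [← h, Finset.card_filter, Nat.cast_sum]
    refine Finset.sum_congr rfl fun x _ => ?_
    by_cases ha : ∑ k, u k * x k + c = 0 <;> by_cases hb : ∑ k, v k * x k + d = 0 <;> simp [ha, hb]
  exact_mod_cast h2

/-- Proof. `(l - 1) (1/(l-1)) - 1 = 0`. -/
theorem E3_glz (l : ℕ) [Fact l.Prime] : ∑ t : ZMod l, glz l t = 0 := by
  have hl : (l : ℝ) - 1 ≠ 0 := by
    have : 2 ≤ l := (Fact.out : l.Prime).two_le
    have h : (2 : ℝ) ≤ l := by exact_mod_cast this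
    linarith
  have h1 : ∀ t : ZMod l, glz l t = 1 / ((l : ℝ) - 1) + if t = 0 then (-1 - 1 / ((l : ℝ) - 1)) else 0 := by
    intro t
    rw [glz]
    split_ifs <;> ring
  rw [Finset.sum_congr rfl fun t _ => h1 t, Finset.sum_add_distrib]
  simp [ZMod.card]
  field_simp
  ring

end Pool.Agent.Lib.H59T
end

-- from Lib.H59T.E4
section

/-!
# Project H59T, chunk E4 (M): products of the factors `gl` at pairwise independent forms
-/

open Finset

namespace Pool.Agent.Lib.H59T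

theorem e4_abs (l : ℕ) [Fact l.Prime] (t : ZMod l) : |glz l t| ≤ 1 := by
  have : 2 ≤ l := (Fact.out : l.Prime).two_le
  have h : (2 : ℝ) ≤ l := by exact_mod_cast this
  rw [glz]
  split_ifs
  · simp
  · rw [abs_of_nonneg (by apply div_nonneg <;> linarith), div_le_one (by linarith)]
    linarith

theorem e4_ne (l : ℕ) [Fact l.Prime] (t : ZMod l) (ht : t ≠ 0) : |glz l t| = 1 / ((l : ℝ) - 1) := by
  have : 2 ≤ l := (Fact.out : l.Prime).two_le
  have h : (2 : ℝ) ≤ l := by exact_mod_cast this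
  rw [glz, if_neg ht, abs_of_nonneg (by apply div_nonneg <;> linarith)]

theorem e4_three (l : ℕ) [Fact l.Prime] (a b c : ZMod l) :
    |glz l a| * |glz l b| * |glz l c| ≤ (if a = 0 ∧ b = 0 then 1 else 0) + (if a = 0 ∧ c = 0 then 1 else 0) +
      (if b = 0 ∧ c = 0 then 1 else 0) + (1 / ((l : ℝ) - 1)) ^ 2 := by
  have : 2 ≤ l := (Fact.out : l.Prime).two_le
  have h : (2 : ℝ) ≤ l := by exact_mod_cast this
  have hq0 : 0 ≤ 1 / ((l : ℝ) - 1) := by apply div_nonneg <;> linarith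
  have hA := e4_abs l a
  have hB := e4_abs l b
  have hC := e4_abs l c
  have hA0 := abs_nonneg (glz l a)
  have hB0 := abs_nonneg (glz l b)
  have hC0 := abs_nonneg (glz l c)
  have hall : |glz l a| * |glz l b| * |glz l c| ≤ 1 := by
    have := mul_le_one₀ (mul_le_one₀ hA hB0 hB) hC0 hC
    exact this
  have hq2 : 0 ≤ (1 / ((l : ℝ) - 1)) ^ 2 := sq_nonneg _
  by_cases ha : a = 0
  · by_cases hb : b = 0
    · simp only [ha, hb, true_and]
      rw [ha, hb] at hall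
      split_ifs <;> linarith
    · by_cases hc : c = 0
      · simp only [ha, hc, hb, and_true, and_false, if_true, if_false]
        rw [ha, hc] at hall
        linarith
      · simp only [hb, hc, and_false, false_and, if_false]
        rw [e4_ne l b hb, e4_ne l c hc, sq, zero_add, zero_add, zero_add, mul_assoc]
        exact mul_le_of_le_one_left (mul_nonneg hq0 hq0) hA
  · by_cases hb : b = 0
    · by_cases hc : c = 0
      · simp only [ha, hc, hb, and_true, false_and, if_true, if_false]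
        rw [hb, hc] at hall
        linarith
      · simp only [ha, hc, and_false, false_and, if_false]
        rw [e4_ne l a ha, e4_ne l c hc, sq, zero_add, zero_add, zero_add, mul_right_comm]
        exact mul_le_of_le_one_right (mul_nonneg hq0 hq0) hB
    · simp only [ha, hb, false_and, if_false]
      rw [e4_ne l a ha, e4_ne l b hb, sq, zero_add, zero_add, zero_add]
      exact mul_le_of_le_one_right (mul_nonneg hq0 hq0) hC

theorem e4_count (l : ℕ) [Fact l.Prime] (u v : Fin 4 → ZMod l) (c d : ZMod l)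
    (huv : ∃ a b, u a * v b - u b * v a ≠ 0) :
    ∑ x : Fin 4 → ZMod l, (if ∑ k, u k * x k + c = 0 ∧ ∑ k, v k * x k + d = 0 then (1 : ℝ) else 0) = (l : ℝ) ^ 2 := by
  obtain ⟨a, b, h⟩ := huv
  have h1 := E3_zero l u v c d a b h
  rw [← Finset.sum_filter, Finset.sum_const, nsmul_eq_mul, mul_one, h1]
  push_cast
  rfl

/-- Proof. `S` has one element: `0` (`E3_one`, `E3_glz`); two elements: `0` (`E3_two`). At least three: choose three different
`i1, i2, i3 ∈ S`; `|glz| ≤ 1`, so the product is at most `|glz glz glz|` at these three. The number of `x` for which at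
least two of the three forms vanish is at most `3 l²` (`E3_zero`); for the others at least two factors are `1/(l-1)`, and
`l⁴/(l-1)² ≤ 4 l²`. Total `7 l²`. -/
theorem E4_gl (l : ℕ) [Fact l.Prime] (m : ℕ) (u : Fin m → Fin 4 → ZMod l) (c : Fin m → ZMod l)
    (hu : ∀ i j, i ≠ j → ∃ a b, u i a * u j b - u i b * u j a ≠ 0) (hu1 : ∀ i, ∃ a, u i a ≠ 0)
    (S : Finset (Fin m)) (hS : S.Nonempty) :
    ‖∑ x : Fin 4 → ZMod l, ∏ i ∈ S, ((glz l (∑ k, u i k * x k + c i) : ℝ) : ℂ)‖ ≤ 7 * (l : ℝ) ^ 2 := by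
  have hl2 : 2 ≤ l := (Fact.out : l.Prime).two_le
  have hl : (2 : ℝ) ≤ l := by exact_mod_cast hl2
  have hz : (∑ t : ZMod l, ((glz l t : ℝ) : ℂ)) = 0 := by
    rw [← Complex.ofReal_sum, E3_glz, Complex.ofReal_zero]
  have hc0 : 1 ≤ S.card := hS.card_pos
  rcases (by omega : S.card = 1 ∨ S.card = 2 ∨ 3 ≤ S.card) with h1 | h2 | h3
  · obtain ⟨i, rfl⟩ := Finset.card_eq_one.1 h1
    obtain ⟨a, ha⟩ := hu1 i
    have h := E3_one l (u i) (c i) a ha (fun t => ((glz l t : ℝ) : ℂ))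
    simp only [Finset.prod_singleton]
    rw [h, hz, mul_zero, norm_zero]
    positivity
  · obtain ⟨i, j, hij, rfl⟩ := Finset.card_eq_two.1 h2
    obtain ⟨a, b, hab⟩ := hu i j hij
    have h := E3_two l (u i) (u j) (c i) (c j) a b hab (fun t => ((glz l t : ℝ) : ℂ)) (fun t => ((glz l t : ℝ) : ℂ))
    simp only [Finset.prod_pair hij]
    rw [h, hz, mul_zero, mul_zero, norm_zero]
    positivity
  · obtain ⟨T, hTS, hT3⟩ := Finset.exists_subset_card_eq h3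
    obtain ⟨i, j, k, hij, hik, hjk, rfl⟩ := Finset.card_eq_three.1 hT3
    have hx : ∀ x : Fin 4 → ZMod l, ‖∏ i ∈ S, ((glz l (∑ k, u i k * x k + c i) : ℝ) : ℂ)‖ ≤
        |glz l (∑ m, u i m * x m + c i)| * |glz l (∑ m, u j m * x m + c j)| * |glz l (∑ m, u k m * x m + c k)| := by
      intro x
      rw [norm_prod]
      simp only [Complex.norm_real, Real.norm_eq_abs]
      rw [← Finset.prod_sdiff hTS]
      have h4 : ∏ i ∈ S \ {i, j, k}, |glz l (∑ k, u i k * x k + c i)| ≤ 1 :=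
        Finset.prod_le_one (fun _ _ => abs_nonneg _) (fun _ _ => e4_abs l _)
      have h5 : ∏ i ∈ ({i, j, k} : Finset (Fin m)), |glz l (∑ k, u i k * x k + c i)| =
          |glz l (∑ m, u i m * x m + c i)| * |glz l (∑ m, u j m * x m + c j)| * |glz l (∑ m, u k m * x m + c k)| := by
        rw [Finset.prod_insert (by simp [hij, hik]), Finset.prod_pair hjk, mul_assoc]
      rw [h5]
      exact mul_le_of_le_one_left (by positivity) h4
    calc ‖∑ x : Fin 4 → ZMod l, ∏ i ∈ S, ((glz l (∑ k, u i k * x k + c i) : ℝ) : ℂ)‖ ≤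
        ∑ x : Fin 4 → ZMod l, ‖∏ i ∈ S, ((glz l (∑ k, u i k * x k + c i) : ℝ) : ℂ)‖ := norm_sum_le _ _
      _ ≤ ∑ x : Fin 4 → ZMod l, ((if (∑ m, u i m * x m + c i = 0 ∧ ∑ m, u j m * x m + c j = 0) then (1 : ℝ) else 0) +
          (if (∑ m, u i m * x m + c i = 0 ∧ ∑ m, u k m * x m + c k = 0) then 1 else 0) +
          (if (∑ m, u j m * x m + c j = 0 ∧ ∑ m, u k m * x m + c k = 0) then 1 else 0) + (1 / ((l : ℝ) - 1)) ^ 2) :=
        Finset.sum_le_sum fun x _ => (hx x).trans (e4_three l _ _ _)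
      _ = 3 * (l : ℝ) ^ 2 + (l : ℝ) ^ 4 * (1 / ((l : ℝ) - 1)) ^ 2 := by
        rw [Finset.sum_add_distrib, Finset.sum_add_distrib, Finset.sum_add_distrib, e4_count l _ _ _ _ (hu i j hij),
          e4_count l _ _ _ _ (hu i k hik), e4_count l _ _ _ _ (hu j k hjk), Finset.sum_const, Finset.card_univ,
          Fintype.card_fun, ZMod.card, Fintype.card_fin, nsmul_eq_mul]
        push_cast
        ring
      _ ≤ 7 * (l : ℝ) ^ 2 := by
        have h6 : (l : ℝ) * (1 / ((l : ℝ) - 1)) ≤ 2 := by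
          rw [mul_one_div, div_le_iff₀ (by linarith)]
          linarith
        have h7 : 0 ≤ (l : ℝ) * (1 / ((l : ℝ) - 1)) := by
          apply mul_nonneg (by linarith)
          apply div_nonneg <;> linarith
        have h8 : ((l : ℝ) * (1 / ((l : ℝ) - 1))) ^ 2 ≤ 4 := by nlinarith
        have h9 : (l : ℝ) ^ 4 * (1 / ((l : ℝ) - 1)) ^ 2 = (l : ℝ) ^ 2 * ((l : ℝ) * (1 / ((l : ℝ) - 1))) ^ 2 := by ring
        rw [h9]
        have h10 : (0 : ℝ) ≤ (l : ℝ) ^ 2 := by positivity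
        nlinarith

end Pool.Agent.Lib.H59T
end

-- from Lib.H59T.E5
section

/-!
# Project H59T, chunk E5 (M): the four forms at a prime not dividing the conductors
-/

open Finset

namespace Pool.Agent.Lib.H59T

open Pool.Agent.Lib.H68T Pool.Agent.Lib.H18Q Pool.Agent.Lib.H59P

/-- The rows of the eight forms. -/
def e5_U : Fin 8 → Fin 4 → ℤ := ![![1, 0, 1, 0], ![1, 0, -1, 0], ![0, 1, 1, 0], ![0, 1, -1, 0],
  ![1, 0, 0, 1], ![1, 0, 0, -1], ![0, 1, 0, 1], ![0, 1, 0, -1]]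

theorem e5_minor : ∀ i j : Fin 8, i ≠ j →
    ∃ a b, (e5_U i a * e5_U j b - e5_U i b * e5_U j a) ∣ 4 := by
  decide +kernel

theorem e5_row : ∀ i : Fin 8, ∃ a, e5_U i a ∣ 4 := by
  decide +kernel

theorem e5_cast (l : ℕ) (hl : l.Prime) (h2 : l ≠ 2) (v : ℤ) (hv : v ∣ 4) : (v : ZMod l) ≠ 0 := by
  intro h
  rw [ZMod.intCast_zmod_eq_zero_iff_dvd] at h
  have h4 : (l : ℤ) ∣ ((4 : ℕ) : ℤ) := h.trans (by exact_mod_cast hv)
  have h5 : l ∣ 2 ^ 2 := by exact_mod_cast h4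
  exact h2 ((Nat.prime_dvd_prime_iff_eq hl Nat.prime_two).1 (hl.dvd_of_dvd_pow h5))

theorem e5_g (p : Prop) [Decidable p] (x : ℝ) :
    (starRingEnd ℂ) (if p then (x : ℂ) else 1) = if p then (x : ℂ) else 1 := by
  split_ifs
  · exact Complex.conj_ofReal _
  · exact map_one _

theorem e5_two (p : Prop) [Decidable p] (m : ℤ) :
    ‖(if p then ((gl 2 m : ℝ) : ℂ) else 1)‖ ≤ 1 := by
  split_ifs
  · rw [Complex.norm_real]
    unfold gl
    split_ifs <;> norm_num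
  · simp

/-- Proof. `l = 2`: `|g| ≤ 1`, the sum is at most `16 = 4 l²` (`C3_triv`). `l` odd: `C3_fin`, `C3_gl`; `E4_gl` for the eight forms
`y+z, y-z, y'+z, y'-z, y+z', y-z', y'+z', y'-z'` (rows `u` of integers in `{0, 1, -1}` cast to `ZMod l`; each of the `28` pairs has
a minor `±1` or `±2`: `decide` over the integers, then `2 ≠ 0` in `ZMod l`), `S` = the set of the forms with `g = gl`;
`gl` is real. -/
theorem E5_four (l : ℕ) (hl : l.Prime) (s s' : Fin 4 → Prop) [DecidablePred s] [DecidablePred s']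
    (hs : ∃ i, s i ∨ s' i) :
    ‖S4 l (Db ff (fun i m => if s i then ((gl l m : ℝ) : ℂ) else 1)
      (fun i m => if s' i then ((gl l m : ℝ) : ℂ) else 1))‖ ≤ 7 * (l : ℝ) ^ 2 := by
  classical
  by_cases h2 : l = 2
  · subst h2
    refine le_trans (C3_triv 2 _ 1 ?_) (by norm_num)
    intro y y' z z'
    unfold Db
    rw [norm_prod]
    refine Finset.prod_le_one (fun i _ => norm_nonneg _) fun i _ => ?_
    rw [norm_mul, RCLike.norm_conj]
    exact mul_le_one₀ (e5_two _ _) (norm_nonneg _) (e5_two _ _)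
  have : Fact l.Prime := ⟨hl⟩
  obtain ⟨t, ht⟩ : ∃ t : Fin 8 → Prop, t = ![s 0, s 1, s 2, s 3, s' 0, s' 1, s' 2, s' 3] := ⟨_, rfl⟩
  have hS : (univ.filter fun j : Fin 8 => t j).Nonempty := by
    obtain ⟨i, hi⟩ := hs
    rw [ht]
    rcases hi with hi | hi
    · fin_cases i
      · exact ⟨0, by simpa using hi⟩
      · exact ⟨1, by simpa using hi⟩
      · exact ⟨2, by simpa using hi⟩
      · exact ⟨3, by simpa using hi⟩
    · fin_cases i
      · exact ⟨4, by simpa using hi⟩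
      · exact ⟨5, by simpa using hi⟩
      · exact ⟨6, by simpa using hi⟩
      · exact ⟨7, by simpa using hi⟩
  have h4 := E4_gl l 8 (fun i k => ((e5_U i k : ℤ) : ZMod l)) (fun _ => 0)
    (fun i j hij => by
      obtain ⟨a, b, hab⟩ := e5_minor i j hij
      refine ⟨a, b, ?_⟩
      have h := e5_cast l hl h2 _ hab
      push_cast at h
      exact h)
    (fun i => by
      obtain ⟨a, ha⟩ := e5_row i
      exact ⟨a, e5_cast l hl h2 _ ha⟩) (univ.filter fun j : Fin 8 => t j) hS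
  have h5 := C3_fin l (fun a b c d => ∏ i ∈ univ.filter (fun j : Fin 8 => t j),
    ((glz l (∑ k, ((e5_U i k : ℤ) : ZMod l) * ![a, b, c, d] k + 0) : ℝ) : ℂ))
  have h6 : S4 l (Db ff (fun i m => if s i then ((gl l m : ℝ) : ℂ) else 1)
      (fun i m => if s' i then ((gl l m : ℝ) : ℂ) else 1)) =
      S4 l (fun y y' z z' => ∏ i ∈ univ.filter (fun j : Fin 8 => t j),
        ((glz l (∑ k, ((e5_U i k : ℤ) : ZMod l) *
          ![(y : ZMod l), (y' : ZMod l), (z : ZMod l), (z' : ZMod l)] k + 0) : ℝ) : ℂ)) := by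
    congr 1
    funext y y' z z'
    rw [Finset.prod_filter, Fin.prod_univ_eight]
    unfold Db ff
    rw [Fin.prod_univ_four]
    simp only [e5_g, C3_gl, ht, e5_U, Fin.sum_univ_four]
    simp [-mul_ite, -ite_mul]
    ring_nf
  rw [h6, h5]
  have h7 : ∀ x : Fin 4 → ZMod l, ![x 0, x 1, x 2, x 3] = x := by
    intro x
    funext k
    fin_cases k <;> rfl
  simp only [h7]
  exact h4

end Pool.Agent.Lib.H59T
end

-- from Lib.H59T.U3
section

/-!
# Project H59T, chunk U3 (M): Gowers-Cauchy-Schwarz on `ZMod N`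
-/

open Finset

namespace Pool.Agent.Lib.H59T

/-- the square of a sum, by differences -/
theorem u3_sq (N : ℕ) [NeZero N] (g : ZMod N → ℂ) :
    (((‖∑ z : ZMod N, g z‖ ^ 2 : ℝ)) : ℂ) = ∑ h : ZMod N, ∑ z : ZMod N, g z * star (g (z + h)) := by
  have e2 : (((‖∑ z : ZMod N, g z‖ ^ 2 : ℝ)) : ℂ) = (∑ z : ZMod N, g z) * star (∑ z : ZMod N, g z) := by
    rw [Complex.star_def, Complex.mul_conj, Complex.normSq_eq_norm_sq]
  rw [e2, star_sum, Finset.sum_mul_sum, Finset.sum_comm]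
  have e3 : ∀ z : ZMod N, ∑ h : ZMod N, g z * star (g (z + h)) = ∑ w : ZMod N, g z * star (g w) := by
    intro z
    rw [← Equiv.sum_comp (Equiv.addLeft z) (fun w => g z * star (g w))]
    rfl
  rw [Finset.sum_comm, Finset.sum_comm (f := fun h z => g z * star (g (z + h)))]
  exact (Finset.sum_congr rfl fun z _ => e3 z).symm

/-- Cauchy-Schwarz over pairs -/
theorem u3_cs (N : ℕ) [NeZero N] (b : ZMod N → ZMod N → ℝ) :
    (∑ h : ZMod N, ∑ k : ZMod N, b h k) ^ 2 ≤ (N : ℝ) ^ 2 * ∑ h : ZMod N, ∑ k : ZMod N, b h k ^ 2 := by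
  have h3 := sq_sum_le_card_mul_sum_sq (s := (univ : Finset (ZMod N × ZMod N)))
    (f := fun p => b p.1 p.2)
  rw [Finset.card_univ, Fintype.card_prod, ZMod.card, Fintype.sum_prod_type, Fintype.sum_prod_type] at h3
  refine h3.trans (le_of_eq ?_)
  push_cast
  ring

/-- Proof. Put `Δ_h f(z) = f(z) star f(z+h)`. Expanding the squares, the left side `X` is
`∑_{h,z,y,y'} Δ_h f0(z) Δ_h f1(z+y) Δ_h f2(z+y') Δ_h f3(z+y+y')`, so
`X ≤ ∑_{h,z,y'} ‖∑_y Δ_h f1(z+y) Δ_h f3(z+y+y')‖ = N ∑_{h,y'} ‖∑_u Δ_h f1(u) Δ_h f3(u+y')‖ ≤ N (N² S)^(1/2)` with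
`S = ∑_{h,y'} ‖∑_u Δ_h f1(u) Δ_h f3(u+y')‖² = ∑_{h,k} ∑_u Δ_k Δ_h f1(u) ∑_{y'} Δ_k Δ_h f3(u+y')
≤ N ∑_{h,k} ‖∑_s Δ_k Δ_h f3(s)‖ ≤ N · N (UU f3)^(1/2)`. So `X ≤ N² (N² (UU f3)^(1/2))^(1/2)`. -/
theorem U3_top (N : ℕ) [NeZero N] (f0 f1 f2 f3 : ZMod N → ℂ) (h0 : ∀ t, ‖f0 t‖ ≤ 1)
    (h1 : ∀ t, ‖f1 t‖ ≤ 1) (h2 : ∀ t, ‖f2 t‖ ≤ 1) (h3 : ∀ t, ‖f3 t‖ ≤ 1) :
    ∑ y : ZMod N, ∑ y' : ZMod N, ‖∑ z : ZMod N, f0 z * f1 (z + y) * f2 (z + y') * f3 (z + y + y')‖ ^ 2 ≤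
      (N : ℝ) ^ 3 * (UU f3) ^ (1 / 4 : ℝ) := by
  have hN0 : (0 : ℝ) < N := by exact_mod_cast Nat.pos_of_ne_zero (NeZero.ne N)
  set D : (ZMod N → ℂ) → ZMod N → ZMod N → ℂ := fun f h z => f z * star (f (z + h)) with hD
  have hDn : ∀ f : ZMod N → ℂ, (∀ t, ‖f t‖ ≤ 1) → ∀ h z, ‖D f h z‖ ≤ 1 := by
    intro f hf h z
    simp only [hD, norm_mul, norm_star]
    exact mul_le_one₀ (hf _) (norm_nonneg _) (hf _)
  set X : ℝ := ∑ y : ZMod N, ∑ y' : ZMod N,
    ‖∑ z : ZMod N, f0 z * f1 (z + y) * f2 (z + y') * f3 (z + y + y')‖ ^ 2 with hX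
  have hX0 : 0 ≤ X := Finset.sum_nonneg fun _ _ => Finset.sum_nonneg fun _ _ => by positivity
  set C : ZMod N → ZMod N → ℂ := fun h y' => ∑ u : ZMod N, D f1 h u * D f3 h (u + y') with hC
  have s1 : (X : ℂ) = ∑ h : ZMod N, ∑ z : ZMod N, ∑ y' : ZMod N, D f0 h z * D f2 h (z + y') * C h y' := by
    have e1 : ∀ h z y' : ZMod N, C h y' = ∑ y : ZMod N, D f1 h (z + y) * D f3 h (z + y + y') := by
      intro h z y'
      simp only [hC]
      rw [← Equiv.sum_comp (Equiv.addLeft z)]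
      rfl
    have e2 : (X : ℂ) = ∑ y : ZMod N, ∑ y' : ZMod N, ∑ h : ZMod N, ∑ z : ZMod N,
        D f0 h z * D f2 h (z + y') * (D f1 h (z + y) * D f3 h (z + y + y')) := by
      rw [hX, Complex.ofReal_sum]
      refine Finset.sum_congr rfl fun y _ => ?_
      rw [Complex.ofReal_sum]
      refine Finset.sum_congr rfl fun y' _ => ?_
      rw [u3_sq]
      refine Finset.sum_congr rfl fun h _ => Finset.sum_congr rfl fun z _ => ?_
      simp only [hD, star_mul']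
      have a1 : z + h + y = z + y + h := by ring
      have a2 : z + h + y' = z + y' + h := by ring
      have a3 : z + y + h + y' = z + y + y' + h := by ring
      rw [a1, a2, a3]
      ring
    rw [e2]
    have e3 : ∀ y : ZMod N, ∑ y' : ZMod N, ∑ h : ZMod N, ∑ z : ZMod N,
        D f0 h z * D f2 h (z + y') * (D f1 h (z + y) * D f3 h (z + y + y')) =
        ∑ h : ZMod N, ∑ z : ZMod N, ∑ y' : ZMod N,
        D f0 h z * D f2 h (z + y') * (D f1 h (z + y) * D f3 h (z + y + y')) := by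
      intro y
      rw [Finset.sum_comm]
      exact Finset.sum_congr rfl fun h _ => Finset.sum_comm
    rw [Finset.sum_congr rfl fun y _ => e3 y, Finset.sum_comm]
    refine Finset.sum_congr rfl fun h _ => ?_
    rw [Finset.sum_comm]
    refine Finset.sum_congr rfl fun z _ => ?_
    rw [Finset.sum_comm]
    refine Finset.sum_congr rfl fun y' _ => ?_
    rw [e1 h z y', Finset.mul_sum]
  have s2 : X ≤ N * ∑ h : ZMod N, ∑ y' : ZMod N, ‖C h y'‖ := by
    have e1 : X = ‖(X : ℂ)‖ := by rw [Complex.norm_real, Real.norm_of_nonneg hX0]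
    rw [e1, s1, Finset.mul_sum]
    refine (norm_sum_le _ _).trans (Finset.sum_le_sum fun h _ => ?_)
    refine (norm_sum_le _ _).trans ?_
    calc _ ≤ ∑ _z : ZMod N, ∑ y' : ZMod N, ‖C h y'‖ := by
          refine Finset.sum_le_sum fun z _ => (norm_sum_le _ _).trans (Finset.sum_le_sum fun y' _ => ?_)
          rw [norm_mul, norm_mul]
          have e4 : ‖D f0 h z‖ * ‖D f2 h (z + y')‖ ≤ 1 :=
            mul_le_one₀ (hDn f0 h0 h z) (norm_nonneg _) (hDn f2 h2 h _)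
          calc _ ≤ 1 * ‖C h y'‖ := mul_le_mul_of_nonneg_right e4 (norm_nonneg _)
            _ = ‖C h y'‖ := one_mul _
      _ = N * ∑ y' : ZMod N, ‖C h y'‖ := by rw [Finset.sum_const, Finset.card_univ, ZMod.card, nsmul_eq_mul]
  set S : ℝ := ∑ h : ZMod N, ∑ y' : ZMod N, ‖C h y'‖ ^ 2 with hS
  have hS0 : 0 ≤ S := Finset.sum_nonneg fun _ _ => Finset.sum_nonneg fun _ _ => by positivity
  set E : ZMod N → ZMod N → ℂ := fun h k =>
    ∑ s : ZMod N, f3 s * star (f3 (s + h)) * star (f3 (s + k)) * f3 (s + h + k) with hE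
  have s3 : (S : ℂ) = ∑ h : ZMod N, ∑ k : ZMod N, (∑ u : ZMod N, D f1 h u * star (D f1 h (u + k))) * E h k := by
    rw [hS, Complex.ofReal_sum]
    refine Finset.sum_congr rfl fun h _ => ?_
    rw [Complex.ofReal_sum]
    have e1 : ∀ y' : ZMod N, ((‖C h y'‖ ^ 2 : ℝ) : ℂ) = ∑ k : ZMod N, ∑ u : ZMod N,
        (D f1 h u * star (D f1 h (u + k))) * (D f3 h (u + y') * star (D f3 h (u + y' + k))) := by
      intro y'
      simp only [hC]
      rw [u3_sq]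
      refine Finset.sum_congr rfl fun k _ => Finset.sum_congr rfl fun u _ => ?_
      have a1 : u + k + y' = u + y' + k := by ring
      rw [star_mul', a1]
      ring
    rw [Finset.sum_congr rfl fun y' _ => e1 y', Finset.sum_comm]
    refine Finset.sum_congr rfl fun k _ => ?_
    rw [Finset.sum_comm, Finset.sum_mul]
    refine Finset.sum_congr rfl fun u _ => ?_
    rw [← Finset.mul_sum]
    congr 1
    simp only [hE]
    rw [← Equiv.sum_comp (Equiv.addLeft u) (fun s => f3 s * star (f3 (s + h)) * star (f3 (s + k)) * f3 (s + h + k))]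
    refine Finset.sum_congr rfl fun y' _ => ?_
    simp only [hD, Equiv.coe_addLeft, star_mul', star_star]
    have a1 : u + y' + k + h = u + y' + h + k := by ring
    rw [a1]
    ring
  have s4 : S ≤ N * ∑ h : ZMod N, ∑ k : ZMod N, ‖E h k‖ := by
    have e1 : S = ‖(S : ℂ)‖ := by rw [Complex.norm_real, Real.norm_of_nonneg hS0]
    rw [e1, s3, Finset.mul_sum]
    refine (norm_sum_le _ _).trans (Finset.sum_le_sum fun h _ => ?_)
    rw [Finset.mul_sum]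
    refine (norm_sum_le _ _).trans (Finset.sum_le_sum fun k _ => ?_)
    rw [norm_mul]
    refine mul_le_mul_of_nonneg_right ?_ (norm_nonneg _)
    calc _ ≤ ∑ u : ZMod N, ‖D f1 h u * star (D f1 h (u + k))‖ := norm_sum_le _ _
      _ ≤ ∑ _u : ZMod N, (1 : ℝ) := by
        refine Finset.sum_le_sum fun u _ => ?_
        rw [norm_mul, norm_star]
        exact mul_le_one₀ (hDn f1 h1 h _) (norm_nonneg _) (hDn f1 h1 h _)
      _ = N := by rw [Finset.sum_const, Finset.card_univ, ZMod.card, nsmul_eq_mul, mul_one]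
  have hUU : ∑ h : ZMod N, ∑ k : ZMod N, ‖E h k‖ ^ 2 = UU f3 := rfl
  have hUU0 : 0 ≤ UU f3 := Finset.sum_nonneg fun _ _ => Finset.sum_nonneg fun _ _ => by positivity
  have c1 := u3_cs N (fun h y' => ‖C h y'‖)
  have c2 := u3_cs N (fun h k => ‖E h k‖)
  rw [hUU] at c2
  set P : ℝ := ∑ h : ZMod N, ∑ y' : ZMod N, ‖C h y'‖ with hP
  set R : ℝ := ∑ h : ZMod N, ∑ k : ZMod N, ‖E h k‖ with hR
  have hP0 : 0 ≤ P := Finset.sum_nonneg fun _ _ => Finset.sum_nonneg fun _ _ => norm_nonneg _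
  have hR0 : 0 ≤ R := Finset.sum_nonneg fun _ _ => Finset.sum_nonneg fun _ _ => norm_nonneg _
  have c3 : P ^ 2 ≤ (N : ℝ) ^ 2 * S := c1
  have d1 : S ^ 2 ≤ (N : ℝ) ^ 4 * UU f3 := by
    calc S ^ 2 ≤ (N * R) ^ 2 := pow_le_pow_left₀ hS0 s4 2
      _ = (N : ℝ) ^ 2 * R ^ 2 := by ring
      _ ≤ (N : ℝ) ^ 2 * ((N : ℝ) ^ 2 * UU f3) := mul_le_mul_of_nonneg_left c2 (by positivity)
      _ = (N : ℝ) ^ 4 * UU f3 := by ring
  have d2 : X ^ 2 ≤ (N : ℝ) ^ 4 * S := by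
    calc X ^ 2 ≤ (N * P) ^ 2 := pow_le_pow_left₀ hX0 s2 2
      _ = (N : ℝ) ^ 2 * P ^ 2 := by ring
      _ ≤ (N : ℝ) ^ 2 * ((N : ℝ) ^ 2 * S) := mul_le_mul_of_nonneg_left c3 (by positivity)
      _ = (N : ℝ) ^ 4 * S := by ring
  have d3 : X ^ 4 ≤ (N : ℝ) ^ 12 * UU f3 := by
    calc X ^ 4 = (X ^ 2) ^ 2 := by ring
      _ ≤ ((N : ℝ) ^ 4 * S) ^ 2 := pow_le_pow_left₀ (by positivity) d2 2
      _ = (N : ℝ) ^ 8 * S ^ 2 := by ring
      _ ≤ (N : ℝ) ^ 8 * ((N : ℝ) ^ 4 * UU f3) := mul_le_mul_of_nonneg_left d1 (by positivity)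
      _ = (N : ℝ) ^ 12 * UU f3 := by ring
  have d4 : X ^ 4 ≤ ((N : ℝ) ^ 3 * (UU f3) ^ (1 / 4 : ℝ)) ^ 4 := by
    refine d3.trans (le_of_eq ?_)
    have e5 : ((UU f3) ^ (1 / 4 : ℝ)) ^ 4 = UU f3 := by
      rw [← Real.rpow_natCast, ← Real.rpow_mul hUU0]
      norm_num
    rw [mul_pow, e5]
    ring
  exact (pow_le_pow_iff_left₀ hX0 (by positivity) (by norm_num)).1 d4

end Pool.Agent.Lib.H59T
end
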