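import Pool.Agent.Lib.H1M.RV3.M035
import Pool.Agent.Lib.H1M.RV3.M055
import Pool.Agent.Lib.H1M.RV3.M060
import Pool.Agent.Lib.H1M.RV3.M061
import Pool.Agent.Lib.H1M.RV3.M065

/-! Merged copies (to shorten the build) of Lib.H57C.M5, Lib.H57C.M6, Lib.H57C.RB, Lib.H57C.RI, Lib.H57C.RJ, Lib.H57C.RC, Lib.H57T.V4. -/

-- from Lib.H57C.M5
section

/-!
# Chunk M5: the transfer theorem
-/

open Finset

namespace Pool.Agent.Lib.H57C

open Pool.Agent.Lib.H15P Pool.Agent.Lib.H92G Pool.Agent.Lib.H57M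

theorem m5_sg (Q : Finset ℕ) (R : ℕ → Finset ℕ) (t : ℕ) :
    Sg Q R t = ∏ q ∈ Q, (1 - (if t % q ∈ R q then (1 : ℝ) else 0)) := by
  unfold Sg
  split_ifs with h
  · symm
    apply Finset.prod_eq_one
    intro q hq
    rw [if_neg (h q hq)]
    ring
  · push Not at h
    obtain ⟨q, hq, h1⟩ := h
    symm
    apply Finset.prod_eq_zero hq
    rw [if_pos h1]
    ring

theorem m5_expand {ι : Type} (s : Seq ι) (P H : Finset ℕ) (i : Option ℕ) (R T : ℕ → Finset ℕ)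
    (Q : Finset ℕ) (F : Fam P H → ℝ) (c : Fam P H → ℝ)
    (hc : ∀ S, F S = ∑ U : Fam P H, if ∀ j, U j ⊆ S j then c U else 0) (a : Finset ℕ → ℝ) (d : ℕ) :
    ∑ j ∈ s.S.filter (fun j => inT T d (s.x j)), s.wt j * (F (cfg P H i (s.x j)) *
      Sieve.poly a (fun q => if s.x j % q ∈ R q then (1 : ℝ) else 0) Q) =
    ∑ V ∈ Q.powerset, ∑ U : Fam P H, a V * c U * su s P H i R T U V d := by
  have h1 : ∀ V ∈ Q.powerset, ∑ U : Fam P H, a V * c U * su s P H i R T U V d =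
      ∑ j ∈ s.S.filter (fun j => inT T d (s.x j)), ∑ U : Fam P H, a V * c U * (s.wt j *
    ((if ∀ h, U h ⊆ cfg P H i (s.x j) h then 1 else 0) *
      ∏ q ∈ V, (if s.x j % q ∈ R q then (1 : ℝ) else 0))) := by
    intro V _
    rw [Finset.sum_comm]
    refine Finset.sum_congr rfl fun U _ => ?_
    unfold su
    rw [Finset.mul_sum]
  rw [Finset.sum_congr rfl h1, Finset.sum_comm]
  refine Finset.sum_congr rfl fun j _ => ?_
  unfold Sieve.poly
  rw [hc, Finset.mul_sum, Finset.mul_sum]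
  refine Finset.sum_congr rfl fun V _ => ?_
  rw [Finset.sum_mul, Finset.mul_sum]
  refine Finset.sum_congr rfl fun U _ => ?_
  split_ifs <;> ring

theorem m5_ab (r : ℕ) (V : Finset ℕ) :
    |(Sieve.cT r V : ℝ)| ≤ 1 ∧ |Sieve.cT r V - Sieve.cE (r + 1) V| ≤ 1 := by
  unfold Sieve.cT Sieve.cE
  have h0 : |((-1 : ℝ)) ^ V.card| = 1 := by rw [abs_pow, abs_neg, abs_one, one_pow]
  constructor
  · split_ifs
    · exact h0.le
    · simp
  · by_cases h1 : V.card ≤ r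
    · rw [if_pos h1, if_neg (by omega), sub_zero]
      exact h0.le
    · rw [if_neg h1]
      split_ifs <;> simp

theorem m5_ab0 (r : ℕ) (V : Finset ℕ) (h : r + 1 < V.card) :
    (Sieve.cT r V : ℝ) = 0 ∧ (Sieve.cT r V - Sieve.cE (r + 1) V : ℝ) = 0 := by
  unfold Sieve.cT Sieve.cE
  rw [if_neg (by omega), if_neg (by omega)]
  simp

theorem m5_polysub (a a' : Finset ℕ → ℝ) (f : ℕ → ℝ) (Q : Finset ℕ) :
    Sieve.poly (fun V => a V - a' V) f Q = Sieve.poly a f Q - Sieve.poly a' f Q := by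
  unfold Sieve.poly
  rw [← Finset.sum_sub_distrib]
  refine Finset.sum_congr rfl fun V _ => by ring

theorem m5_polymono (m : ℕ) (f g : ℕ → ℝ) (Q : Finset ℕ) (h0 : ∀ q ∈ Q, 0 ≤ f q)
    (h : ∀ q ∈ Q, f q ≤ g q) : Sieve.poly (Sieve.cE m) f Q ≤ Sieve.poly (Sieve.cE m) g Q := by
  unfold Sieve.poly
  refine Finset.sum_le_sum fun V hV => ?_
  have hV' := Finset.mem_powerset.mp hV
  refine mul_le_mul_of_nonneg_left (Finset.prod_le_prod (fun q hq => h0 q (hV' hq))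
    fun q hq => h q (hV' hq)) ?_
  unfold Sieve.cE
  split_ifs <;> norm_num

/-- The remainder for the modulus `d`. -/
noncomputable def m5_R (P H : Finset ℕ) (W p1 k E r : ℕ) (DF : ℝ) (rr : ℕ → ℝ) (d : ℕ) : ℝ :=
  by
    classical exact
    ∑ V ∈ (Ps W p1).powerset.filter (fun V => V.card ≤ r + 1),
      ∑ U : Fam P H, (if (∀ h h', h ≠ h' → Disjoint (U h) (U h')) ∧ (∀ h, ∀ p ∈ U h, ¬ p.1 ∣ d) ∧
          (fp U : ℝ) ≤ DF then
        (E : ℝ) ^ (∑ h, (U h).card) * ((k : ℝ) ^ V.card * (k : ℝ) ^ d.primeFactors.card) *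
          rr (fp U * (∏ q ∈ V, q) * d) else 0)

theorem m5_prodV (W p1 r : ℕ) (V : Finset ℕ) (hV : V ⊆ Ps W p1) (hW : 1 ≤ W) (hc : V.card ≤ r + 1) :
    ∏ q ∈ V, q ≤ W ^ (r + 1) := by
  calc ∏ q ∈ V, q ≤ ∏ q ∈ V, W := Finset.prod_le_prod (fun _ _ => Nat.zero_le _) (by
        intro q hq
        have := hV hq
        unfold Ps at this
        rw [mem_filter, mem_Icc] at this
        exact this.1.2)
    _ = W ^ V.card := by rw [Finset.prod_const]
    _ ≤ W ^ (r + 1) := Nat.pow_le_pow_right hW hc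

open Classical in
theorem m5_err {ι : Type} (s : Seq ι) (P H : Finset ℕ) (i : Option ℕ) (W p1 : ℕ) (R T : ℕ → Finset ℕ)
    (P' : Finset ℕ) (k b E r D D1 : ℕ) (hy : Hy s P H i W p1 R T P' k b)
    (c : Fam P H → ℝ) (CF DF : ℝ) (CF0 : 0 ≤ CF) (DF0 : 0 ≤ DF)
    (hc2 : ∀ U, |c U| ≤ CF * (E : ℝ) ^ (∑ j, (U j).card))
    (hc3 : ∀ U, c U ≠ 0 → (∏ j, ∏ p ∈ U j, (p.1 : ℝ)) ≤ DF)
    (hD : DF * (W : ℝ) ^ (r + 1) * D1 ≤ D) (rr : ℕ → ℝ) (rr0 : ∀ m, 0 ≤ rr m)
    (hrr : ∀ m, Squarefree m → m ≤ D → ¬ p1 ∣ m → ∀ c : ℕ, (∀ q ∈ m.primeFactors, s.Al q c) →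
      |∑ i ∈ s.S.filter (fun i => s.x i ≡ c [MOD m]), s.wt i -
        s.X * ∏ q ∈ m.primeFactors, s.hd q| ≤ rr m)
    (a : Finset ℕ → ℝ) (ha : ∀ V, |a V| ≤ 1) (ha0 : ∀ V, r + 1 < V.card → a V = 0)
    (d : ℕ) (hd : d ∈ Dv P' D1) :
    |∑ V ∈ (Ps W p1).powerset, ∑ U : Fam P H, a V * c U * su s P H i R T U V d -
      s.X * (∏ q ∈ d.primeFactors, (((T q).card : ℝ) * s.hd q)) * Am P H i s.Al s.hd d c *
        Sieve.poly a (fun q => (((R q).filter (fun c => s.Al q c)).card : ℝ) * s.hd q) (Ps W p1)| ≤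
      CF * m5_R P H W p1 k E r DF rr d := by
  have hW : 1 ≤ W := le_trans hy.p1p.one_lt.le hy.p1W
  unfold Dv at hd
  rw [mem_filter, mem_Icc] at hd
  obtain ⟨⟨hd1, hd2⟩, hdsq, hdP⟩ := hd
  set hT : ℝ := ∏ q ∈ d.primeFactors, (((T q).card : ℝ) * s.hd q) with hhT
  have e1 : s.X * hT * Am P H i s.Al s.hd d c *
        Sieve.poly a (fun q => (((R q).filter (fun c => s.Al q c)).card : ℝ) * s.hd q) (Ps W p1) =
      ∑ V ∈ (Ps W p1).powerset, ∑ U : Fam P H, a V *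
        (if okA P H i U ∧ okB P H s.Al d U then c U * fpr s.hd U else 0) *
        (s.X * (∏ q ∈ V, (((R q).filter (fun c => s.Al q c)).card : ℝ) * s.hd q) * hT) := by
    unfold Sieve.poly Am
    rw [Finset.mul_sum]
    refine Finset.sum_congr rfl fun V _ => ?_
    rw [← Finset.sum_mul, ← Finset.mul_sum]
    ring
  rw [e1, ← Finset.sum_sub_distrib]
  have e2 : CF * m5_R P H W p1 k E r DF rr d = ∑ V ∈ (Ps W p1).powerset, ∑ U : Fam P H,
      (if V.card ≤ r + 1 then (if (∀ h h', h ≠ h' → Disjoint (U h) (U h')) ∧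
          (∀ h, ∀ p ∈ U h, ¬ p.1 ∣ d) ∧ (fp U : ℝ) ≤ DF then
        CF * ((E : ℝ) ^ (∑ h, (U h).card) * ((k : ℝ) ^ V.card * (k : ℝ) ^ d.primeFactors.card) *
          rr (fp U * (∏ q ∈ V, q) * d)) else 0) else 0) := by
    unfold m5_R
    rw [Finset.mul_sum, Finset.sum_filter]
    refine Finset.sum_congr rfl fun V _ => ?_
    by_cases hV : V.card ≤ r + 1
    · rw [if_pos hV, Finset.mul_sum]
      refine Finset.sum_congr rfl fun U _ => ?_
      rw [if_pos hV]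
      split_ifs
      · rfl
      · ring
    · rw [if_neg hV]
      symm
      refine Finset.sum_eq_zero fun U _ => if_neg hV
  rw [e2]
  refine (Finset.abs_sum_le_sum_abs _ _).trans (Finset.sum_le_sum fun V hV => ?_)
  rw [← Finset.sum_sub_distrib]
  refine (Finset.abs_sum_le_sum_abs _ _).trans (Finset.sum_le_sum fun U _ => ?_)
  have hV' := Finset.mem_powerset.mp hV
  have hnn : 0 ≤ CF * ((E : ℝ) ^ (∑ h, (U h).card) * ((k : ℝ) ^ V.card *
      (k : ℝ) ^ d.primeFactors.card) * rr (fp U * (∏ q ∈ V, q) * d)) :=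
    mul_nonneg CF0 (mul_nonneg (by positivity) (rr0 _))
  by_cases hVc : V.card ≤ r + 1
  swap
  · rw [if_neg hVc, ha0 V (by omega)]
    simp
  rw [if_pos hVc]
  by_cases hok : okA P H i U ∧ okB P H s.Al d U
  swap
  · rw [if_neg hok, m1_zero hy U V d hdsq hdP hok]
    have : |a V * c U * 0 - a V * 0 * (s.X * (∏ q ∈ V,
        (((R q).filter (fun c => s.Al q c)).card : ℝ) * s.hd q) * hT)| = 0 := by simp
    rw [this]
    split_ifs
    · exact hnn
    · exact le_rfl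
  rw [if_pos hok]
  by_cases hcU : c U = 0
  · rw [hcU]
    have : |a V * 0 * su s P H i R T U V d - a V * (0 * fpr s.hd U) * (s.X * (∏ q ∈ V,
        (((R q).filter (fun c => s.Al q c)).card : ℝ) * s.hd q) * hT)| = 0 := by simp
    rw [this]
    split_ifs
    · exact hnn
    · exact le_rfl
  have hfp : (fp U : ℝ) ≤ DF := by
    have := hc3 U hcU
    unfold fp
    push_cast
    exact this
  rw [if_pos ⟨hok.1.2, hok.2.1, hfp⟩]
  have hm := m1_sqf hy U V d hok.1 hok.2 hV' hdsq hdP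
  have hmD : fp U * (∏ q ∈ V, q) * d ≤ D := by
    have h1 := m5_prodV W p1 r V hV' hW hVc
    have h2 : ((fp U * (∏ q ∈ V, q) * d : ℕ) : ℝ) ≤ DF * (W : ℝ) ^ (r + 1) * D1 := by
      rw [Nat.cast_mul, Nat.cast_mul]
      have h3 : ((∏ q ∈ V, q : ℕ) : ℝ) ≤ (W : ℝ) ^ (r + 1) := by exact_mod_cast h1
      have h4 : (d : ℝ) ≤ D1 := by exact_mod_cast hd2
      refine mul_le_mul (mul_le_mul hfp h3 (Nat.cast_nonneg _) DF0) h4 (Nat.cast_nonneg _) ?_
      positivity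
    exact_mod_cast h2.trans hD
  have key := m1 hy (rr (fp U * (∏ q ∈ V, q) * d)) (rr0 _) U V d hok.1 hok.2 hV' hdsq hdP
    (hrr _ hm.1 hmD hm.2)
  have e3 : a V * c U * su s P H i R T U V d - a V * (c U * fpr s.hd U) * (s.X * (∏ q ∈ V,
        (((R q).filter (fun c => s.Al q c)).card : ℝ) * s.hd q) * hT) =
      a V * (c U * (su s P H i R T U V d - s.X * (fpr s.hd U *
        (∏ q ∈ V, (((R q).filter (fun c => s.Al q c)).card : ℝ) * s.hd q) * hT))) := by ring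
  rw [e3, abs_mul, abs_mul]
  calc |a V| * (|c U| * |su s P H i R T U V d - s.X * (fpr s.hd U *
        (∏ q ∈ V, (((R q).filter (fun c => s.Al q c)).card : ℝ) * s.hd q) * hT)|)
      ≤ 1 * ((CF * (E : ℝ) ^ (∑ j, (U j).card)) * ((k : ℝ) ^ V.card * (k : ℝ) ^ d.primeFactors.card *
        rr (fp U * (∏ q ∈ V, q) * d))) := by
        refine mul_le_mul (ha V) (mul_le_mul (hc2 U) key (abs_nonneg _) ?_) ?_ zero_le_one
        · positivity
        · positivity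
    _ = _ := by ring

theorem m5_hdr0 (i : Option ℕ) : ∀ q : ℕ, q.Prime → 0 ≤ hdr i q := by
  intro q hq
  have h2 : (2 : ℝ) ≤ q := by exact_mod_cast hq.two_le
  unfold hdr
  split_ifs
  · positivity
  · exact div_nonneg zero_le_one (by linarith)

theorem m5_hdr2 (i : Option ℕ) : ∀ q : ℕ, q.Prime → hdr i q ≤ 2 / q := by
  intro q hq
  have h2 : (2 : ℝ) ≤ q := by exact_mod_cast hq.two_le
  unfold hdr
  split_ifs
  · exact div_le_div_of_nonneg_right (by norm_num) (by linarith)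
  · rw [div_le_div_iff₀ (by linarith) (by linarith)]
    linarith

theorem m5_hdrq (i : Option ℕ) (W : ℕ) : ∀ q : ℕ, q.Prime → W < q →
    |hdr i q - 1 / q| ≤ 2 / (q : ℝ) ^ 2 := by
  intro q hq _
  have h2 : (2 : ℝ) ≤ q := by exact_mod_cast hq.two_le
  unfold hdr
  split_ifs
  · rw [sub_self, abs_zero]
    positivity
  · have e : (1 : ℝ) / ((q : ℝ) - 1) - 1 / q = 1 / (((q : ℝ) - 1) * q) := by
      have : (q : ℝ) - 1 ≠ 0 := by linarith
      have : (q : ℝ) ≠ 0 := by linarith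
      field_simp
      ring
    have hpos : (0 : ℝ) < ((q : ℝ) - 1) * q := mul_pos (by linarith) (by linarith)
    rw [e, abs_of_pos (by positivity), div_le_div_iff₀ hpos (by positivity)]
    nlinarith

theorem m5_prodq (d : ℕ) (hd : Squarefree d) (x : ℝ) :
    ∏ q ∈ d.primeFactors, (x / (q : ℝ)) = x ^ d.primeFactors.card / d := by
  rw [Finset.prod_div_distrib, Finset.prod_const]
  congr 1
  rw [← Nat.cast_prod, Nat.prod_primeFactors_of_squarefree hd]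

theorem m5_tel (S : Finset ℕ) (a b M : ℕ → ℝ) (δ : ℝ) (hδ : 0 ≤ δ)
    (ha : ∀ q ∈ S, |a q| ≤ M q) (hb : ∀ q ∈ S, |b q| ≤ M q)
    (hab : ∀ q ∈ S, |a q - b q| ≤ δ * M q) :
    |∏ q ∈ S, a q - ∏ q ∈ S, b q| ≤ S.card * δ * ∏ q ∈ S, M q ∧
    |∏ q ∈ S, a q| ≤ ∏ q ∈ S, M q := by
  induction S using Finset.induction_on with
  | empty => simp
  | insert x S hx ih =>
    obtain ⟨h1, h2⟩ := ih (fun q hq => ha q (mem_insert_of_mem hq))
      (fun q hq => hb q (mem_insert_of_mem hq)) (fun q hq => hab q (mem_insert_of_mem hq))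
    have hM : 0 ≤ M x := le_trans (abs_nonneg _) (ha x (mem_insert_self _ _))
    have hMS : 0 ≤ ∏ q ∈ S, M q := Finset.prod_nonneg fun q hq =>
      le_trans (abs_nonneg _) (ha q (mem_insert_of_mem hq))
    rw [Finset.prod_insert hx, Finset.prod_insert hx, Finset.prod_insert hx,
      Finset.card_insert_of_notMem hx]
    constructor
    · have e : a x * ∏ q ∈ S, a q - b x * ∏ q ∈ S, b q =
          (a x - b x) * ∏ q ∈ S, a q + b x * (∏ q ∈ S, a q - ∏ q ∈ S, b q) := by ring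
      rw [e]
      refine (abs_add_le _ _).trans ?_
      rw [abs_mul, abs_mul]
      have h3 : |a x - b x| * |∏ q ∈ S, a q| ≤ (δ * M x) * ∏ q ∈ S, M q :=
        mul_le_mul (hab x (mem_insert_self _ _)) h2 (abs_nonneg _) (mul_nonneg hδ hM)
      have h4 : |b x| * |∏ q ∈ S, a q - ∏ q ∈ S, b q| ≤ M x * (S.card * δ * ∏ q ∈ S, M q) :=
        mul_le_mul (hb x (mem_insert_self _ _)) h1 (abs_nonneg _) hM
      push_cast
      calc _ ≤ (δ * M x) * ∏ q ∈ S, M q + M x * (S.card * δ * ∏ q ∈ S, M q) := add_le_add h3 h4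
        _ = _ := by ring
    · rw [abs_mul]
      exact mul_le_mul (ha x (mem_insert_self _ _)) h2 (abs_nonneg _) hM

theorem m5_om (n : ℕ) : (1 : ℝ) + 2 * n ≤ 2 * 2 ^ n := by
  induction n with
  | zero => norm_num
  | succ n ih =>
    push_cast
    rw [pow_succ]
    have : (1 : ℝ) ≤ 2 ^ n := one_le_pow₀ (by norm_num)
    linarith

/-- The numerical estimate for one modulus. -/
theorem m5_num (K E k b n : ℕ) (W τ0 x : ℝ) (hW : 0 < W) (hτ : 0 ≤ τ0) (hK : 1 ≤ K) (hE : 1 ≤ E)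
    (hx : 0 < x) :
    ((2 * (k : ℝ)) ^ n / x) * τ0 + ((2 * K * E * (b + n) + 2) / W) * ((2 * (k : ℝ)) ^ n / x) +
      n * (2 / W) * ((2 * (k : ℝ)) ^ n / x) ≤
    ((8 * (k : ℝ)) ^ n / x) * (τ0 + 100 * K * E * (b + 1) / W) := by
  have h1 := m5_om n
  have hp : (1 : ℝ) ≤ 2 ^ n := one_le_pow₀ (by norm_num)
  have hK' : (1 : ℝ) ≤ K := by exact_mod_cast hK
  have hE' : (1 : ℝ) ≤ E := by exact_mod_cast hE
  have hb : (0 : ℝ) ≤ b := Nat.cast_nonneg _
  have hn : (0 : ℝ) ≤ n := Nat.cast_nonneg _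
  have hKE : (1 : ℝ) ≤ K * E := by nlinarith
  have e8 : (8 * (k : ℝ)) ^ n = 4 ^ n * (2 * (k : ℝ)) ^ n := by
    rw [← mul_pow]; congr 1; ring
  have h4 : (2 : ℝ) ^ n ≤ 4 ^ n := pow_le_pow_left₀ (by norm_num) (by norm_num) n
  have hY : 0 ≤ (2 * (k : ℝ)) ^ n / x := by positivity
  rw [e8]
  have key : τ0 + (2 * K * E * (b + n) + 2) / W + n * (2 / W) ≤
      4 ^ n * (τ0 + 100 * K * E * (b + 1) / W) := by
    have h5 : (2 * K * E * (b + n) + 2 + 2 * n : ℝ) ≤ 4 ^ n * (100 * K * E * (b + 1)) := by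
      have h6 : (2 * (K * E) * (b + n) + 2 + 2 * n : ℝ) ≤ (K * E) * (2 * (b + 1) * (1 + 2 * n)) := by
        nlinarith [mul_nonneg hb hn, mul_nonneg (mul_nonneg (by linarith : (0 : ℝ) ≤ K * E) hb) hn]
      have h7 : (K * E) * (2 * (b + 1) * (1 + 2 * n)) ≤ (K * E : ℝ) * (2 * (b + 1) * (2 * 4 ^ n)) := by
        refine mul_le_mul_of_nonneg_left (mul_le_mul_of_nonneg_left ?_ (by linarith)) (by linarith)
        linarith
      have h8 : 0 ≤ (K * E : ℝ) * ((b + 1) * 4 ^ n) := by positivity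
      nlinarith
    have h9 : τ0 ≤ 4 ^ n * τ0 := by
      have : (1 : ℝ) ≤ 4 ^ n := one_le_pow₀ (by norm_num)
      nlinarith
    have e1 : (2 * K * E * (b + n) + 2) / W + n * (2 / W) = (2 * K * E * (b + n) + 2 + 2 * n) / W := by
      ring
    have e2 : (4 : ℝ) ^ n * (τ0 + 100 * K * E * (b + 1) / W) =
        4 ^ n * τ0 + (4 ^ n * (100 * K * E * (b + 1))) / W := by ring
    rw [add_assoc, e1, e2]
    exact add_le_add h9 (div_le_div_of_nonneg_right h5 hW.le)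
  calc _ = ((2 * (k : ℝ)) ^ n / x) * (τ0 + (2 * K * E * (b + n) + 2) / W + n * (2 / W)) := by ring
    _ ≤ ((2 * (k : ℝ)) ^ n / x) * (4 ^ n * (τ0 + 100 * K * E * (b + 1) / W)) :=
        mul_le_mul_of_nonneg_left key hY
    _ = _ := by ring

/-- **Transfer theorem.** Proof. Let `c` be the coefficients of `F` (`ExJ`), `rr` the function of `Lvl`. Fix `d ∈ Dv P' D1`.
For `t = x j` put `f q = 1[t % q ∈ R q]`: `Sg t = ∏_{q ∈ Ps} (1 - f q)`, and by `Sieve.le_polyT_of_even`, `Sieve.polyT_le_of_even` (`r` even)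
`poly (cT r) f - poly (cE (r+1)) f ≤ Sg t ≤ poly (cT r) f` (`poly c f Q = ∑_{V ⊆ Q} c V ∏_{q ∈ V} f q`, check the definition in
`Lib/Sieve/Combi.lean`). Multiply with `wt j F(cfg) 1[inT] ≥ 0` and sum over `j`: with `su` (file M1) the sum is between
`∑_U ∑_V c U (cT r V - cE (r+1) V) su U V d` and `∑_U ∑_V c U cT r V su U V d`. By `m1_zero`, `m1` (with `B = rr (fp U ∏V d)`; `c U ≠ 0` implies
`fp U ≤ DF`, `|V| ≤ r + 1`, so `fp U ∏V d ≤ DF W^(r+1) D1 ≤ D`) these are `X Am_d hT(d) poly (..) ρ` up to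
`∑_U ∑_{|V| ≤ r+1} |c U| k^|V| k^ω(d) rr(..)`, where `ρ q = #(R q).filter Al · hd q ∈ [0, 1]`, `hT(d) = ∏_{q ∣ d} #T q hd q`. Again by Bonferroni
both `poly` are within `poly (cE (r+1)) ρ ≤ τ0` of `∏ (1 - ρ q) = VS`. Summed over `d` (`m2`, `|c U| ≤ CF E^|U|`) the remainder terms give at most
`2 CF Err`; the `τ0` terms `X CF Pi0 τ0 ∑_d (2k)^ω(d)/d`. Then replace `Am_d` by `AE` (`am_bound`, `ae_sum`, `0 ≤ VS ≤ 1`) and `hT(d)` by
`∏ #T q hr q`: `|∏ #T hd - ∏ #T hr| ≤ k^ω(d) ω(d) (2/W) ∏_{q ∣ d} (2/q)` (`|hd q - hr q| ≤ 4/q^2`), `|AE| ≤ CF Pi0`; use `ω ≤ 2^ω`,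
`(b + ω) ≤ (b + 1) 2^ω`. Everything is at most `X CF Pi0 G0 (τ0 + 100 K E (b + 1)/W)`. -/
theorem mt {ι : Type} (s : Seq ι) (P H : Finset ℕ) (i : Option ℕ) (W p1 : ℕ) (R T : ℕ → Finset ℕ)
    (P' : Finset ℕ) (k b K E r D D1 : ℕ) (hy : Hy s P H i W p1 R T P' k b) (hr : ℕ → ℝ)
    (hr0 : ∀ q : ℕ, q.Prime → 0 ≤ hr q) (hr2 : ∀ q : ℕ, q.Prime → hr q ≤ 2 / q)
    (hrq : ∀ q : ℕ, q.Prime → W < q → |hr q - 1 / q| ≤ 2 / (q : ℝ) ^ 2)
    (hK : H.card = K) (K1 : 1 ≤ K) (E1 : 1 ≤ E) (k1 : 1 ≤ k) (hre : Even r)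
    (F : Fam P H → ℝ) (F0 : ∀ S, 0 ≤ F S) (CF DF : ℝ) (CF0 : 0 ≤ CF) (DF0 : 0 ≤ DF)
    (hF : ExJ P F CF E DF) (hD : DF * (W : ℝ) ^ (r + 1) * D1 ≤ D) (Err : ℝ)
    (hL : Lvl s p1 D (K * E + 2 * k) Err) (Pi0 G0 τ0 : ℝ)
    (hPi : ∏ p ∈ P, (1 + 4 * (E : ℝ) / p) ^ K ≤ Pi0)
    (hG : ∑ d ∈ (Icc 1 D1).filter Squarefree, (8 * (k : ℝ)) ^ d.primeFactors.card / d ≤ G0)
    (hτ : Sieve.poly (Sieve.cE (r + 1)) (fun q : ℕ => 2 * (k : ℝ) / q) (Ps W p1) ≤ τ0) :
    ∑ d ∈ Dv P' D1,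
      |∑ j ∈ s.S.filter (fun j => inT T d (s.x j)),
          s.wt j * (F (cfg P H i (s.x j)) * Sg (Ps W p1) R (s.x j)) -
        s.X * (AE P H i F * VS (Ps W p1) R s.hd s.Al) *
          ∏ q ∈ d.primeFactors, (((T q).card : ℝ) * hr q)| ≤
      CF * (2 * Err + s.X * (Pi0 * G0 * (τ0 + 100 * K * E * (b + 1) / W))) := by
  classical
  obtain ⟨c, hc1, hc2, hc3⟩ := hF
  obtain ⟨rr, rr0, hrr, hrS⟩ := hL
  have hW : 1 ≤ W := le_trans hy.p1p.one_lt.le hy.p1W
  have hWr : (1 : ℝ) ≤ W := by exact_mod_cast hW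
  have hWpos : (0 : ℝ) < W := by linarith
  have hk0 : (0 : ℝ) ≤ k := Nat.cast_nonneg _
  have hAE := ae_sum P H i W hy.Pp hy.HW hy.iH F c hc1
  have hAE1 : |AE P H i F| ≤ CF * Pi0 := by
    rw [hAE]
    exact (am_bound P H i W K E 0 (fun _ _ => True) (hdr i) c CF Pi0 CF0 E1 hK K1 hy.Pp hW
      (m5_hdr0 i) (m5_hdr2 i) (m5_hdrq i W) hc2 hPi (by simp) 1 le_rfl).1
  have hCP : 0 ≤ CF * Pi0 := le_trans (abs_nonneg _) hAE1
  set ρ : ℕ → ℝ := fun q => (((R q).filter (fun c => s.Al q c)).card : ℝ) * s.hd q with hρ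
  have hQp : ∀ q ∈ Ps W p1, q.Prime := fun q hq => (mem_filter.mp hq).2.1
  have hρ0 : ∀ q ∈ Ps W p1, 0 ≤ ρ q := fun q hq =>
    mul_nonneg (Nat.cast_nonneg _) (hy.hd0 q (hQp q hq))
  have hρ1 : ∀ q ∈ Ps W p1, ρ q ≤ 1 := fun q hq => hy.R1 q hq
  have hρ2 : ∀ q ∈ Ps W p1, ρ q ≤ 2 * (k : ℝ) / q := by
    intro q hq
    have h1 : (((R q).filter (fun c => s.Al q c)).card : ℝ) ≤ k := by
      exact_mod_cast (Finset.card_filter_le _ _).trans (hy.Rk q hq)
    calc ρ q ≤ k * (2 / q) := mul_le_mul h1 (hy.hd2 q (hQp q hq)) (hy.hd0 q (hQp q hq)) hk0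
      _ = 2 * (k : ℝ) / q := by ring
  have hτ1 : Sieve.poly (Sieve.cE (r + 1)) ρ (Ps W p1) ≤ τ0 :=
    (m5_polymono (r + 1) ρ _ (Ps W p1) hρ0 hρ2).trans hτ
  have hτn : 0 ≤ Sieve.poly (Sieve.cE (r + 1)) ρ (Ps W p1) := by
    refine Sieve.poly_nonneg (fun V => ?_) hρ0
    unfold Sieve.cE
    split_ifs <;> norm_num
  have τ00 : 0 ≤ τ0 := hτn.trans hτ1
  have hVS : VS (Ps W p1) R s.hd s.Al = ∏ q ∈ Ps W p1, (1 - ρ q) := rfl
  have hV1 : VS (Ps W p1) R s.hd s.Al ≤ Sieve.poly (Sieve.cT r) ρ (Ps W p1) := by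
    rw [hVS]; exact Sieve.le_polyT_of_even hρ0 hρ1 hre
  have hV2 : Sieve.poly (Sieve.cT r) ρ (Ps W p1) ≤
      VS (Ps W p1) R s.hd s.Al + Sieve.poly (Sieve.cE (r + 1)) ρ (Ps W p1) := by
    rw [hVS]; exact Sieve.polyT_le_of_even hρ0 hρ1 hre
  have hV0 : 0 ≤ VS (Ps W p1) R s.hd s.Al := by
    rw [hVS]; exact Finset.prod_nonneg fun q hq => by linarith [hρ1 q hq]
  have hVle : VS (Ps W p1) R s.hd s.Al ≤ 1 := by
    rw [hVS]
    exact Finset.prod_le_one (fun q hq => by linarith [hρ1 q hq]) fun q hq => by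
      linarith [hρ0 q hq]
  set VV := VS (Ps W p1) R s.hd s.Al with hVV
  have hX0 := hy.X0
  have hper : ∀ d ∈ Dv P' D1,
      |∑ j ∈ s.S.filter (fun j => inT T d (s.x j)),
          s.wt j * (F (cfg P H i (s.x j)) * Sg (Ps W p1) R (s.x j)) -
        s.X * (AE P H i F * VV) * ∏ q ∈ d.primeFactors, (((T q).card : ℝ) * hr q)| ≤
      CF * m5_R P H W p1 k E r DF rr d + s.X * (CF * Pi0) *
        (((8 * (k : ℝ)) ^ d.primeFactors.card / d) * (τ0 + 100 * K * E * (b + 1) / W)) := by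
    intro d hd
    have hd' := hd
    unfold Dv at hd'
    rw [mem_filter, mem_Icc] at hd'
    obtain ⟨⟨hd1, hd2⟩, hdsq, hdP⟩ := hd'
    have hd1r : (0 : ℝ) < d := by exact_mod_cast hd1
    set hT : ℝ := ∏ q ∈ d.primeFactors, (((T q).card : ℝ) * s.hd q) with hhT
    set hTr : ℝ := ∏ q ∈ d.primeFactors, (((T q).card : ℝ) * hr q) with hhTr
    set A : ℝ := Am P H i s.Al s.hd d c with hA
    -- upper and lower bound
    have b1 := m5_err s P H i W p1 R T P' k b E r D D1 hy c CF DF CF0 DF0 hc2 hc3 hD rr rr0 hrr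
      (Sieve.cT r) (fun V => (m5_ab r V).1) (fun V hV => (m5_ab0 r V hV).1) d hd
    have b2 := m5_err s P H i W p1 R T P' k b E r D D1 hy c CF DF CF0 DF0 hc2 hc3 hD rr rr0 hrr
      (fun V => Sieve.cT r V - Sieve.cE (r + 1) V) (fun V => (m5_ab r V).2)
      (fun V hV => (m5_ab0 r V hV).2) d hd
    rw [← m5_expand s P H i R T (Ps W p1) F c hc1 (Sieve.cT r) d] at b1
    rw [← m5_expand s P H i R T (Ps W p1) F c hc1 _ d] at b2
    rw [m5_polysub] at b2
    have u1 : ∑ j ∈ s.S.filter (fun j => inT T d (s.x j)),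
          s.wt j * (F (cfg P H i (s.x j)) * Sg (Ps W p1) R (s.x j)) ≤
        ∑ j ∈ s.S.filter (fun j => inT T d (s.x j)), s.wt j * (F (cfg P H i (s.x j)) *
      Sieve.poly (Sieve.cT r) (fun q => if s.x j % q ∈ R q then (1 : ℝ) else 0) (Ps W p1)) := by
      refine Finset.sum_le_sum fun j hj => ?_
      refine mul_le_mul_of_nonneg_left (mul_le_mul_of_nonneg_left ?_ (F0 _))
        (hy.w0 j (mem_filter.mp hj).1)
      rw [m5_sg]
      refine Sieve.le_polyT_of_even (fun q _ => ?_) (fun q _ => ?_) hre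
      · split_ifs <;> norm_num
      · split_ifs <;> norm_num
    have u2 : ∑ j ∈ s.S.filter (fun j => inT T d (s.x j)), s.wt j * (F (cfg P H i (s.x j)) *
      Sieve.poly (fun V => Sieve.cT r V - Sieve.cE (r + 1) V)
        (fun q => if s.x j % q ∈ R q then (1 : ℝ) else 0) (Ps W p1)) ≤
        ∑ j ∈ s.S.filter (fun j => inT T d (s.x j)),
          s.wt j * (F (cfg P H i (s.x j)) * Sg (Ps W p1) R (s.x j)) := by
      refine Finset.sum_le_sum fun j hj => ?_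
      refine mul_le_mul_of_nonneg_left (mul_le_mul_of_nonneg_left ?_ (F0 _))
        (hy.w0 j (mem_filter.mp hj).1)
      rw [m5_sg, m5_polysub]
      have := Sieve.polyT_le_of_even (f := fun q => if s.x j % q ∈ R q then (1 : ℝ) else 0)
        (Q := Ps W p1) (fun q _ => by split_ifs <;> norm_num)
        (fun q _ => by split_ifs <;> norm_num) hre
      linarith
    set Z : ℝ := ∑ j ∈ s.S.filter (fun j => inT T d (s.x j)),
          s.wt j * (F (cfg P H i (s.x j)) * Sg (Ps W p1) R (s.x j)) with hZ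
    set RD : ℝ := CF * m5_R P H W p1 k E r DF rr d with hRD
    -- bounds for the products
    have hM : ∀ q ∈ d.primeFactors, 0 ≤ ((T q).card : ℝ) * s.hd q ∧
        ((T q).card : ℝ) * s.hd q ≤ 2 * (k : ℝ) / q ∧ 0 ≤ ((T q).card : ℝ) * hr q ∧
        ((T q).card : ℝ) * hr q ≤ 2 * (k : ℝ) / q ∧
        |((T q).card : ℝ) * s.hd q - ((T q).card : ℝ) * hr q| ≤ (2 / W) * (2 * (k : ℝ) / q) := by
      intro q hq
      have hqp := Nat.prime_of_mem_primeFactors hq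
      have hqP := hdP q hq
      have hTk : ((T q).card : ℝ) ≤ k := by exact_mod_cast hy.Tk q hqP
      have hWq : W < q := (hy.P'p q hqP).2
      have hWq' : (W : ℝ) ≤ q := by exact_mod_cast hWq.le
      have hq0 : (0 : ℝ) < q := by linarith
      refine ⟨mul_nonneg (Nat.cast_nonneg _) (hy.hd0 q hqp), ?_,
        mul_nonneg (Nat.cast_nonneg _) (hr0 q hqp), ?_, ?_⟩
      · calc ((T q).card : ℝ) * s.hd q ≤ k * (2 / q) :=
              mul_le_mul hTk (hy.hd2 q hqp) (hy.hd0 q hqp) hk0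
          _ = 2 * (k : ℝ) / q := by ring
      · calc ((T q).card : ℝ) * hr q ≤ k * (2 / q) :=
              mul_le_mul hTk (hr2 q hqp) (hr0 q hqp) hk0
          _ = 2 * (k : ℝ) / q := by ring
      · rw [← mul_sub, abs_mul, abs_of_nonneg (Nat.cast_nonneg _)]
        have h1 : |s.hd q - hr q| ≤ 4 / (q : ℝ) ^ 2 := by
          have e : s.hd q - hr q = (s.hd q - 1 / q) - (hr q - 1 / q) := by ring
          rw [e]
          refine (abs_sub _ _).trans ?_
          have := hy.hdq q hqp hWq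
          have := hrq q hqp hWq
          have e4 : (4 : ℝ) / (q : ℝ) ^ 2 = 2 / (q : ℝ) ^ 2 + 2 / (q : ℝ) ^ 2 := by ring
          rw [e4]
          linarith
        calc ((T q).card : ℝ) * |s.hd q - hr q| ≤ k * (4 / (q : ℝ) ^ 2) :=
              mul_le_mul hTk h1 (abs_nonneg _) hk0
          _ = (2 / q) * (2 * (k : ℝ) / q) := by
              field_simp
              ring
          _ ≤ (2 / W) * (2 * (k : ℝ) / q) := by
              refine mul_le_mul_of_nonneg_right ?_ (by positivity)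
              exact div_le_div_of_nonneg_left (by norm_num) hWpos hWq'
    have hprod := m5_prodq d hdsq (2 * (k : ℝ))
    have hTn : 0 ≤ hT := Finset.prod_nonneg fun q hq => (hM q hq).1
    have hTle : hT ≤ (2 * (k : ℝ)) ^ d.primeFactors.card / d := by
      rw [← hprod]
      exact Finset.prod_le_prod (fun q hq => (hM q hq).1) fun q hq => (hM q hq).2.1
    have htel : |hT - hTr| ≤ d.primeFactors.card * (2 / W) *
        ((2 * (k : ℝ)) ^ d.primeFactors.card / d) := by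
      rw [← hprod]
      refine (m5_tel d.primeFactors _ _ (fun q => 2 * (k : ℝ) / q) (2 / W) (by positivity)
        (fun q hq => ?_) (fun q hq => ?_) fun q hq => (hM q hq).2.2.2.2).1
      · rw [abs_of_nonneg (hM q hq).1]; exact (hM q hq).2.1
      · rw [abs_of_nonneg (hM q hq).2.2.1]; exact (hM q hq).2.2.2.1
    have hAm := am_bound P H i W K E b s.Al s.hd c CF Pi0 CF0 E1 hK K1 hy.Pp hW hy.hd0 hy.hd2
      hy.hdq hc2 hPi hy.bad d hd1
    rw [← hAE, ← hA] at hAm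
    obtain ⟨hA1, hA2⟩ := hAm
    -- main comparison
    have c1 : |Z - s.X * hT * A * VV| ≤ RD + s.X * hT * (CF * Pi0) * τ0 := by
      have hXT : 0 ≤ s.X * hT := mul_nonneg hX0 hTn
      have g1 : |s.X * hT * A * (Sieve.poly (Sieve.cT r) ρ (Ps W p1) - VV)| ≤
          s.X * hT * (CF * Pi0) * τ0 := by
        rw [abs_mul, abs_mul, abs_of_nonneg hXT]
        refine mul_le_mul (mul_le_mul_of_nonneg_left hA1 hXT) ?_ (abs_nonneg _)
          (mul_nonneg hXT hCP)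
        rw [abs_le]
        constructor <;> linarith
      have g2 : |s.X * hT * A * (Sieve.poly (Sieve.cT r) ρ (Ps W p1) -
          Sieve.poly (Sieve.cE (r + 1)) ρ (Ps W p1) - VV)| ≤
          s.X * hT * (CF * Pi0) * τ0 := by
        rw [abs_mul, abs_mul, abs_of_nonneg hXT]
        refine mul_le_mul (mul_le_mul_of_nonneg_left hA1 hXT) ?_ (abs_nonneg _)
          (mul_nonneg hXT hCP)
        rw [abs_le]
        constructor <;> linarith
      rw [abs_le] at b1 b2 g1 g2 ⊢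
      constructor
      · have e : s.X * hT * A * (Sieve.poly (Sieve.cT r) ρ (Ps W p1) -
          Sieve.poly (Sieve.cE (r + 1)) ρ (Ps W p1) - VV) = s.X * hT * A *
            (Sieve.poly (Sieve.cT r) ρ (Ps W p1) - Sieve.poly (Sieve.cE (r + 1)) ρ (Ps W p1)) -
            s.X * hT * A * VV := by ring
        rw [e] at g2
        linarith [b2.1, g2.1, u2]
      · have e : s.X * hT * A * (Sieve.poly (Sieve.cT r) ρ (Ps W p1) - VV) =
          s.X * hT * A * Sieve.poly (Sieve.cT r) ρ (Ps W p1) - s.X * hT * A * VV := by ring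
        rw [e] at g1
        linarith [b1.2, g1.2, u1]
    have c2 : |s.X * hT * A * VV - s.X * (AE P H i F * VV) * hTr| ≤
        s.X * ((CF * Pi0 * ((2 * K * E * (b + d.primeFactors.card) + 2) / W)) * hT +
          (CF * Pi0) * |hT - hTr|) := by
      have e : s.X * hT * A * VV - s.X * (AE P H i F * VV) * hTr =
          s.X * VV * ((A - AE P H i F) * hT + AE P H i F * (hT - hTr)) := by ring
      rw [e, abs_mul, abs_of_nonneg (mul_nonneg hX0 hV0)]
      have g3 : |(A - AE P H i F) * hT + AE P H i F * (hT - hTr)| ≤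
          (CF * Pi0 * ((2 * K * E * (b + d.primeFactors.card) + 2) / W)) * hT +
          (CF * Pi0) * |hT - hTr| := by
        refine (abs_add_le _ _).trans ?_
        rw [abs_mul, abs_mul, abs_of_nonneg hTn]
        exact add_le_add (mul_le_mul_of_nonneg_right hA2 hTn)
          (mul_le_mul_of_nonneg_right hAE1 (abs_nonneg _))
      have g4 : s.X * VV ≤ s.X := by
        calc s.X * VV ≤ s.X * 1 := mul_le_mul_of_nonneg_left hVle hX0
          _ = s.X := mul_one _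
      exact mul_le_mul g4 g3 (abs_nonneg _) hX0
    have hnum := m5_num K E k b d.primeFactors.card (W : ℝ) τ0 (d : ℝ) hWpos τ00 K1 E1 hd1r
    have c3 : s.X * hT * (CF * Pi0) * τ0 + s.X * ((CF * Pi0 *
        ((2 * K * E * (b + d.primeFactors.card) + 2) / W)) * hT + (CF * Pi0) * |hT - hTr|) ≤
        s.X * (CF * Pi0) *
        (((8 * (k : ℝ)) ^ d.primeFactors.card / d) * (τ0 + 100 * K * E * (b + 1) / W)) := by
      have g5 : hT * τ0 + ((2 * K * E * (b + d.primeFactors.card) + 2) / W) * hT + |hT - hTr| ≤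
          ((2 * (k : ℝ)) ^ d.primeFactors.card / d) * τ0 +
          ((2 * K * E * (b + d.primeFactors.card) + 2) / W) *
            ((2 * (k : ℝ)) ^ d.primeFactors.card / d) +
          d.primeFactors.card * (2 / W) * ((2 * (k : ℝ)) ^ d.primeFactors.card / d) := by
        refine add_le_add (add_le_add (mul_le_mul_of_nonneg_right hTle τ00)
          (mul_le_mul_of_nonneg_left hTle ?_)) htel
        positivity
      calc _ = s.X * (CF * Pi0) * (hT * τ0 + ((2 * K * E * (b + d.primeFactors.card) + 2) / W) * hT +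
            |hT - hTr|) := by ring
        _ ≤ _ := mul_le_mul_of_nonneg_left (g5.trans hnum) (mul_nonneg hX0 hCP)
    calc |Z - s.X * (AE P H i F * VV) * hTr|
        ≤ |Z - s.X * hT * A * VV| + |s.X * hT * A * VV - s.X * (AE P H i F * VV) * hTr| :=
          abs_sub_le _ _ _
      _ ≤ (RD + s.X * hT * (CF * Pi0) * τ0) + s.X * ((CF * Pi0 *
        ((2 * K * E * (b + d.primeFactors.card) + 2) / W)) * hT + (CF * Pi0) * |hT - hTr|) :=
          add_le_add c1 c2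
      _ ≤ _ := by linarith
  -- sum over `d`
  refine (Finset.sum_le_sum hper).trans ?_
  rw [Finset.sum_add_distrib, ← Finset.mul_sum, ← Finset.mul_sum, ← Finset.sum_mul]
  have s1 : ∑ d ∈ Dv P' D1, m5_R P H W p1 k E r DF rr d ≤ Err := by
    have := m2 P H W p1 k E D D1 r K P' DF rr rr0 hy.Pp hy.p1p hy.p1W hy.P'p hK hW hD DF0
    refine le_trans (le_of_eq ?_) (this.trans hrS)
    rfl
  have s1n : 0 ≤ ∑ d ∈ Dv P' D1, m5_R P H W p1 k E r DF rr d := by
    refine Finset.sum_nonneg fun d _ => ?_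
    unfold m5_R
    refine Finset.sum_nonneg fun V _ => Finset.sum_nonneg fun U _ => ?_
    split_ifs
    · exact mul_nonneg (by positivity) (rr0 _)
    · exact le_rfl
  have s2 : ∑ d ∈ Dv P' D1, (8 * (k : ℝ)) ^ d.primeFactors.card / d ≤ G0 := by
    refine le_trans (Finset.sum_le_sum_of_subset_of_nonneg ?_ fun d _ _ => by positivity) hG
    intro d hd
    unfold Dv at hd
    rw [mem_filter] at hd ⊢
    exact ⟨hd.1, hd.2.1⟩
  have s3 : 0 ≤ τ0 + 100 * K * E * (b + 1) / W := by positivity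
  have s4 : CF * ∑ d ∈ Dv P' D1, m5_R P H W p1 k E r DF rr d ≤ CF * (2 * Err) :=
    mul_le_mul_of_nonneg_left (by linarith) CF0
  have s5 : s.X * (CF * Pi0) * ((∑ d ∈ Dv P' D1, (8 * (k : ℝ)) ^ d.primeFactors.card / d) *
      (τ0 + 100 * K * E * (b + 1) / W)) ≤ s.X * (CF * Pi0) * (G0 * (τ0 + 100 * K * E * (b + 1) / W)) :=
    mul_le_mul_of_nonneg_left (mul_le_mul_of_nonneg_right s2 s3) (mul_nonneg hX0 hCP)
  calc _ ≤ CF * (2 * Err) + s.X * (CF * Pi0) * (G0 * (τ0 + 100 * K * E * (b + 1) / W)) :=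
        add_le_add s4 s5
    _ = _ := by ring

end Pool.Agent.Lib.H57C
end

-- from Lib.H57C.M6
section

/-!
# Chunk M6: the transfer theorem, asymptotic form
-/

open Finset

namespace Pool.Agent.Lib.H57C

open Pool.Agent.Lib.H15P Pool.Agent.Lib.H92G Pool.Agent.Lib.H57M

/-- Mertens, upper bound. -/
theorem m6_inv : ∃ C : ℝ, 0 < C ∧ ∀ x : ℝ, 2 ≤ x → ∀ S : Finset ℕ,
    (∀ q ∈ S, q.Prime ∧ (q : ℝ) ≤ x) → ∑ q ∈ S, 1 / (q : ℝ) ≤ Real.log (Real.log x) + C := by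
  obtain ⟨C, hC, h⟩ := H59C.mertens
  have hl2 : 0 < Real.log 2 := Real.log_pos (by norm_num)
  refine ⟨|Real.log (Real.log 2)| + C / Real.log 2 + Real.log 2, by positivity, ?_⟩
  intro x hx S hS
  have h1 := h 2 (x + 1) le_rfl (by linarith)
  have h2 : ∑ q ∈ S, 1 / (q : ℝ) ≤ ∑ q ∈ H59C.PR 2 (x + 1), 1 / (q : ℝ) := by
    refine sum_le_sum_of_subset_of_nonneg ?_ (fun q _ _ => by positivity)
    intro q hq
    rw [H59C.mem_PR]
    have := hS q hq
    refine ⟨this.1, ?_, by linarith⟩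
    exact_mod_cast this.1.two_le
  have h3 := (abs_le.1 h1).2
  have hlx : 0 < Real.log x := Real.log_pos (by linarith)
  have h4 : Real.log (Real.log (x + 1)) ≤ Real.log 2 + Real.log (Real.log x) := by
    have h5 : Real.log (x + 1) ≤ 2 * Real.log x := by
      have h6 : Real.log (x + 1) ≤ Real.log (x ^ 2) :=
        Real.log_le_log (by linarith) (by nlinarith)
      rw [Real.log_pow] at h6
      exact_mod_cast h6
    have h7 : 0 < Real.log (x + 1) := Real.log_pos (by linarith)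
    have h8 := Real.log_le_log h7 h5
    rw [Real.log_mul (by norm_num) hlx.ne'] at h8
    exact h8
  have h5 := neg_abs_le (Real.log (Real.log 2))
  linarith

/-- Products over primes. -/
theorem m6_prod (C : ℝ) (h : ∀ x : ℝ, 2 ≤ x → ∀ S : Finset ℕ,
    (∀ q ∈ S, q.Prime ∧ (q : ℝ) ≤ x) → ∑ q ∈ S, 1 / (q : ℝ) ≤ Real.log (Real.log x) + C)
    (a : ℕ) (x : ℝ) (hx : 2 ≤ x) (S : Finset ℕ) (hS : ∀ q ∈ S, q.Prime ∧ (q : ℝ) ≤ x) :
    Real.exp (∑ q ∈ S, (a : ℝ) / (q : ℝ)) ≤ Real.exp (a * C) * Real.log x ^ a := by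
  have hlx : 0 < Real.log x := Real.log_pos (by linarith)
  have h1 := h x hx S hS
  have h2 : ∑ q ∈ S, (a : ℝ) / (q : ℝ) = a * ∑ q ∈ S, 1 / (q : ℝ) := by
    rw [mul_sum]
    refine sum_congr rfl (fun q _ => by ring)
  rw [h2]
  have h3 : (a : ℝ) * ∑ q ∈ S, 1 / (q : ℝ) ≤ a * C + a * Real.log (Real.log x) := by
    have := mul_le_mul_of_nonneg_left h1 (Nat.cast_nonneg (α := ℝ) a)
    linarith
  refine (Real.exp_le_exp.2 h3).trans (le_of_eq ?_)
  rw [Real.exp_add, Real.exp_nat_mul (Real.log (Real.log x)), Real.exp_log hlx]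

/-- Squarefree sums. -/
theorem m6_sqf (D : ℕ) (a : ℝ) (ha : 0 ≤ a) :
    ∑ d ∈ (Icc 1 D).filter Squarefree, a ^ d.primeFactors.card / (d : ℝ) ≤
      Real.exp (∑ q ∈ (Icc 1 D).filter Nat.Prime, a / (q : ℝ)) := by
  classical
  have h1 : Real.exp (∑ q ∈ (Icc 1 D).filter Nat.Prime, a / (q : ℝ)) ≥
      ∏ q ∈ (Icc 1 D).filter Nat.Prime, (1 + a / (q : ℝ)) := by
    rw [Real.exp_sum]
    refine prod_le_prod (fun q _ => by positivity) (fun q _ => ?_)
    have := Real.add_one_le_exp (a / (q : ℝ))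
    linarith
  refine le_trans ?_ h1
  rw [Finset.prod_one_add]
  have h2 : ∀ d ∈ (Icc 1 D).filter Squarefree, a ^ d.primeFactors.card / (d : ℝ) =
      ∏ q ∈ d.primeFactors, a / (q : ℝ) := by
    intro d hd
    rw [prod_div_distrib, prod_const]
    congr 1
    have := Nat.prod_primeFactors_of_squarefree (mem_filter.1 hd).2
    calc (d : ℝ) = ((∏ q ∈ d.primeFactors, q : ℕ) : ℝ) := by rw [this]
      _ = ∏ q ∈ d.primeFactors, (q : ℝ) := by rw [Nat.cast_prod]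
  rw [sum_congr rfl h2]
  have hinj : Set.InjOn (fun d : ℕ => d.primeFactors) ((Icc 1 D).filter Squarefree : Finset ℕ) := by
    intro d hd d' hd' hh
    have a1 := Nat.prod_primeFactors_of_squarefree (mem_filter.1 (mem_coe.1 hd)).2
    have a2 := Nat.prod_primeFactors_of_squarefree (mem_filter.1 (mem_coe.1 hd')).2
    have hh' : d.primeFactors = d'.primeFactors := hh
    rw [← a1, ← a2, hh']
  have h3 : ∑ d ∈ (Icc 1 D).filter Squarefree, ∏ q ∈ d.primeFactors, a / (q : ℝ) =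
      ∑ E ∈ ((Icc 1 D).filter Squarefree).image (fun d : ℕ => d.primeFactors),
        ∏ q ∈ E, a / (q : ℝ) := by
    rw [sum_image hinj]
  rw [h3]
  refine sum_le_sum_of_subset_of_nonneg ?_ (fun E _ _ => prod_nonneg (fun q _ => by positivity))
  intro E hE
  rw [mem_image] at hE
  obtain ⟨d, hd, rfl⟩ := hE
  rw [mem_filter, mem_Icc] at hd
  rw [mem_powerset]
  intro q hq
  rw [mem_filter, mem_Icc]
  have hp := Nat.prime_of_mem_primeFactors hq
  have hle := Nat.le_of_dvd (by omega) (Nat.dvd_of_mem_primeFactors hq)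
  exact ⟨⟨hp.one_le, by omega⟩, hp⟩

theorem m6_log (s B : ℝ) : ∃ x0 : ℝ, ∀ x : ℝ, x0 ≤ x → B * Real.log x ^ s ≤ x := by
  have h := (isLittleO_log_rpow_rpow_atTop s (zero_lt_one)).def (c := 1 / (|B| + 1)) (by positivity)
  obtain ⟨x1, hx1⟩ := Filter.eventually_atTop.1 h
  refine ⟨max x1 1, fun x hx => ?_⟩
  have h1 := hx1 x ((le_max_left _ _).trans hx)
  have hx0 : 1 ≤ x := (le_max_right _ _).trans hx
  have hl : 0 ≤ Real.log x := Real.log_nonneg hx0
  have hx0' : (0 : ℝ) ≤ x := by linarith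
  rw [Real.rpow_one, Real.norm_eq_abs, Real.norm_eq_abs, abs_of_nonneg (Real.rpow_nonneg hl _),
    abs_of_nonneg hx0'] at h1
  have hls : 0 ≤ Real.log x ^ s := Real.rpow_nonneg hl _
  calc B * Real.log x ^ s ≤ |B| * Real.log x ^ s := mul_le_mul_of_nonneg_right (le_abs_self _) hls
    _ ≤ |B| * (1 / (|B| + 1) * x) := mul_le_mul_of_nonneg_left h1 (abs_nonneg _)
    _ = (|B| / (|B| + 1)) * x := by ring
    _ ≤ 1 * x := by
        apply mul_le_mul_of_nonneg_right _ (by linarith)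
        rw [div_le_one (by positivity)]
        linarith
    _ = x := one_mul x

/-- The numerical conditions. -/
theorem m6_L (K k M B : ℕ) (C θ : ℝ) (hθ : 0 < θ) : ∃ L0 : ℝ, ∀ L : ℝ, L0 ≤ L →
    6 ≤ L ∧ 1800 * (K : ℝ) ≤ L ∧ Real.exp ((12 * K : ℕ) * C) ≤ L ∧ Real.exp ((8 * k : ℕ) * C) ≤ L ∧
    Real.exp ((6 * k : ℕ) * C) * (((B : ℝ) + 1) * Real.log L) ^ (6 * k) ≤ L ∧
    ((B : ℝ) * Real.log L + Real.log 2) * (2 * M * Real.log L + 3) ≤ θ * L := by
  obtain ⟨x1, h1⟩ := m6_log (6 * k : ℕ) (Real.exp ((6 * k : ℕ) * C) * ((B : ℝ) + 1) ^ (6 * k))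
  obtain ⟨x2, h2⟩ := m6_log 2 (((B : ℝ) + 1) * (2 * M + 3) / θ)
  refine ⟨max 6 (max (1800 * (K : ℝ)) (max (Real.exp ((12 * K : ℕ) * C))
    (max (Real.exp ((8 * k : ℕ) * C)) (max x1 x2)))), ?_⟩
  intro L hL
  rw [max_le_iff, max_le_iff, max_le_iff, max_le_iff, max_le_iff] at hL
  obtain ⟨a1, a2, a3, a4, a5, a6⟩ := hL
  refine ⟨a1, a2, a3, a4, ?_, ?_⟩
  · have h3 := h1 L a5
    rw [Real.rpow_natCast] at h3
    rw [mul_pow]
    linarith [h3, mul_assoc (Real.exp ((6 * k : ℕ) * C)) (((B : ℝ) + 1) ^ (6 * k)) (Real.log L ^ (6 * k))]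
  · have h3 := h2 L a6
    have hl1 : 1 ≤ Real.log L := by
      rw [Real.le_log_iff_exp_le (by linarith)]
      have := Real.exp_one_lt_d9
      linarith
    have hl2 : Real.log 2 ≤ Real.log L := Real.log_le_log (by norm_num) (by linarith)
    have e2 : Real.log L ^ (2 : ℝ) = Real.log L ^ 2 := by
      rw [← Real.rpow_natCast]
      norm_num
    rw [e2, div_mul_eq_mul_div, div_le_iff₀ hθ] at h3
    have hB : (0 : ℝ) ≤ B := Nat.cast_nonneg _
    have hM : (0 : ℝ) ≤ M := Nat.cast_nonneg _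
    calc ((B : ℝ) * Real.log L + Real.log 2) * (2 * M * Real.log L + 3)
        ≤ (((B : ℝ) + 1) * Real.log L) * ((2 * M + 3) * Real.log L) := by
          apply mul_le_mul
          · linarith
          · nlinarith
          · positivity
          · positivity
      _ = ((B : ℝ) + 1) * (2 * M + 3) * Real.log L ^ 2 := by ring
      _ ≤ L * θ := h3
      _ = θ * L := by ring

theorem m6_final (K k cF A0 B : ℕ) (L n X b W : ℝ) (hL : 6 ≤ L) (hKL : 1800 * (K : ℝ) ≤ L)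
    (hn : 0 ≤ n) (hX0 : 0 ≤ X) (hb0 : 0 ≤ b) (hX : X ≤ n * L ^ 2) (hb : b ≤ L ^ 2)
    (hW : L ^ B ≤ W) (hB : A0 + cF + 12 * K + 8 * k + 8 ≤ B) :
    L ^ cF * (2 * (n / L ^ (A0 + cF + 1)) + X * (L ^ (12 * K + 1) * L ^ (8 * k + 1) *
      (L / L ^ (2 * (A0 + cF + 12 * K + 8 * k + 6)) + 100 * K * 3 * (b + 1) / W))) ≤ n / L ^ A0 := by
  have hL0 : 0 < L := by linarith
  have hL1 : 1 ≤ L := by linarith
  have hWp : 0 < W := lt_of_lt_of_le (pow_pos hL0 _) hW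
  have hK0 : (0 : ℝ) ≤ K := Nat.cast_nonneg _
  have t1 : L / L ^ (2 * (A0 + cF + 12 * K + 8 * k + 6)) ≤
      1 / (L ^ A0 * L ^ cF * L ^ (12 * K + 1) * L ^ (8 * k + 1) * L ^ 3) := by
    rw [div_le_div_iff₀ (by positivity) (by positivity), one_mul]
    have e : L * (L ^ A0 * L ^ cF * L ^ (12 * K + 1) * L ^ (8 * k + 1) * L ^ 3) =
        L ^ (A0 + cF + 12 * K + 8 * k + 6) := by
      rw [← pow_add, ← pow_add, ← pow_add, ← pow_add, ← pow_succ']
      congr 1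
      ring
    rw [e]
    exact pow_le_pow_right₀ hL1 (by omega)
  have t2 : 100 * K * 3 * (b + 1) / W ≤
      1 / (3 * (L ^ A0 * L ^ cF * L ^ (12 * K + 1) * L ^ (8 * k + 1) * L ^ 2)) := by
    rw [div_le_div_iff₀ hWp (by positivity), one_mul]
    have e : L ^ (A0 + cF + 12 * K + 8 * k + 8) ≤ W := (pow_le_pow_right₀ hL1 hB).trans hW
    refine le_trans ?_ e
    have e2 : L ^ (A0 + cF + 12 * K + 8 * k + 8) =
        (L ^ 2 * L ^ 2) * (L ^ A0 * L ^ cF * L ^ (12 * K + 1) * L ^ (8 * k + 1) * L ^ 2) := by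
      rw [← pow_add, ← pow_add, ← pow_add, ← pow_add, ← pow_add, ← pow_add]
      congr 1
      ring
    rw [e2]
    have hg : 0 < L ^ A0 * L ^ cF * L ^ (12 * K + 1) * L ^ (8 * k + 1) * L ^ 2 := by positivity
    have e3 : 100 * (K : ℝ) * 3 * (b + 1) * 3 ≤ L ^ 2 * L ^ 2 := by
      have hb1 : b + 1 ≤ 2 * L ^ 2 := by nlinarith
      calc 100 * (K : ℝ) * 3 * (b + 1) * 3 ≤ 100 * (K : ℝ) * 3 * (2 * L ^ 2) * 3 := by
            have : 0 ≤ 100 * (K : ℝ) * 3 := by positivity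
            nlinarith
        _ = 1800 * K * L ^ 2 := by ring
        _ ≤ L * L ^ 2 := mul_le_mul_of_nonneg_right hKL (by positivity)
        _ ≤ L ^ 2 * L ^ 2 := by
            apply mul_le_mul_of_nonneg_right _ (by positivity)
            nlinarith
    calc 100 * (K : ℝ) * 3 * (b + 1) * (3 * (L ^ A0 * L ^ cF * L ^ (12 * K + 1) * L ^ (8 * k + 1) * L ^ 2))
        = (100 * (K : ℝ) * 3 * (b + 1) * 3) *
          (L ^ A0 * L ^ cF * L ^ (12 * K + 1) * L ^ (8 * k + 1) * L ^ 2) := by ring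
      _ ≤ _ := mul_le_mul_of_nonneg_right e3 hg.le
  have t3 : L / L ^ (2 * (A0 + cF + 12 * K + 8 * k + 6)) + 100 * K * 3 * (b + 1) / W ≤
      1 / (L ^ A0 * L ^ cF * L ^ (12 * K + 1) * L ^ (8 * k + 1) * L ^ 2) * (1 / L + 1 / 3) := by
    refine (add_le_add t1 t2).trans (le_of_eq ?_)
    field_simp
  have hpos : 0 ≤ L ^ (12 * K + 1) * L ^ (8 * k + 1) *
      (1 / (L ^ A0 * L ^ cF * L ^ (12 * K + 1) * L ^ (8 * k + 1) * L ^ 2) * (1 / L + 1 / 3)) := by
    positivity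
  have t4 : X * (L ^ (12 * K + 1) * L ^ (8 * k + 1) *
      (L / L ^ (2 * (A0 + cF + 12 * K + 8 * k + 6)) + 100 * K * 3 * (b + 1) / W)) ≤
      n * L ^ 2 * (L ^ (12 * K + 1) * L ^ (8 * k + 1) *
      (1 / (L ^ A0 * L ^ cF * L ^ (12 * K + 1) * L ^ (8 * k + 1) * L ^ 2) * (1 / L + 1 / 3))) := by
    have hp1 : 0 ≤ L ^ (12 * K + 1) * L ^ (8 * k + 1) *
        (L / L ^ (2 * (A0 + cF + 12 * K + 8 * k + 6)) + 100 * K * 3 * (b + 1) / W) := by
      positivity
    refine (mul_le_mul_of_nonneg_right hX hp1).trans ?_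
    refine mul_le_mul_of_nonneg_left ?_ (by positivity)
    exact mul_le_mul_of_nonneg_left t3 (by positivity)
  refine (mul_le_mul_of_nonneg_left (add_le_add le_rfl t4) (by positivity)).trans ?_
  have e5 : L ^ cF * (2 * (n / L ^ (A0 + cF + 1)) + n * L ^ 2 * (L ^ (12 * K + 1) * L ^ (8 * k + 1) *
      (1 / (L ^ A0 * L ^ cF * L ^ (12 * K + 1) * L ^ (8 * k + 1) * L ^ 2) * (1 / L + 1 / 3)))) =
      n / L ^ A0 * (3 / L + 1 / 3) := by
    rw [pow_add L (A0 + cF) 1, pow_add L A0 cF, pow_one]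
    field_simp
    ring
  rw [e5]
  have h6 : 3 / L ≤ 1 / 2 := by
    rw [div_le_iff₀ hL0]
    linarith
  have h7 : 0 ≤ n / L ^ A0 := by positivity
  nlinarith

theorem mta (K k cF A0 : ℕ) (hK : 1 ≤ K) (hk : 1 ≤ k) : ∃ A B0 : ℕ, ∀ B : ℕ, B0 ≤ B →
    ∀ θ : ℝ, 0 < θ → θ ≤ 1 / 100 → ∃ n0 : ℕ, ∀ n : ℕ, n0 ≤ n →
    ∀ {ι : Type} (s : Seq ι) (P H : Finset ℕ) (i : Option ℕ) (W p1 : ℕ) (R T : ℕ → Finset ℕ)
    (P' : Finset ℕ) (b : ℕ) (hr : ℕ → ℝ) (F : Fam P H → ℝ) (D : ℕ),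
    Hy s P H i W p1 R T P' k b → (∀ q : ℕ, q.Prime → 0 ≤ hr q) →
    (∀ q : ℕ, q.Prime → hr q ≤ 2 / q) →
    (∀ q : ℕ, q.Prime → W < q → |hr q - 1 / q| ≤ 2 / (q : ℝ) ^ 2) →
    H.card = K → W = ⌈Real.log n ^ B⌉₊ → (∀ p ∈ P, p ≤ n) → s.X ≤ n * Real.log n ^ 2 →
    (b : ℝ) ≤ Real.log n ^ 2 → (∀ S, 0 ≤ F S) →
    ExJ P F (Real.log n ^ cF) 3 ((n : ℝ) ^ (2 * θ)) → (n : ℝ) ^ (1 / 2 - θ) ≤ D →
    Lvl s p1 D (K * 3 + 2 * k) (n / Real.log n ^ A) →
    ∑ d ∈ Dv P' (Lv n θ),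
      |∑ j ∈ s.S.filter (fun j => inT T d (s.x j)),
          s.wt j * (F (cfg P H i (s.x j)) * Sg (Ps W p1) R (s.x j)) -
        s.X * (AE P H i F * VS (Ps W p1) R s.hd s.Al) *
          ∏ q ∈ d.primeFactors, (((T q).card : ℝ) * hr q)| ≤ n / Real.log n ^ A0 := by
  obtain ⟨C, hC, hCh⟩ := m6_inv
  set M : ℕ := A0 + cF + 12 * K + 8 * k + 6 with hM
  refine ⟨A0 + cF + 1, A0 + cF + 12 * K + 8 * k + 8, fun B hB θ hθ hθ1 => ?_⟩
  obtain ⟨L0, hL0⟩ := m6_L K k M B C θ hθ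
  refine ⟨⌈Real.exp (max L0 6)⌉₊, fun n hn ι s P H i W p1 R T P' b hr F D hy hr0 hr2 hrq hKc hW
    hPn hX hb F0 hF hD hLv => ?_⟩
  have hn1 : Real.exp (max L0 6) ≤ n := (Nat.le_ceil _).trans (by exact_mod_cast hn)
  have hn0 : (0 : ℝ) < n := lt_of_lt_of_le (Real.exp_pos _) hn1
  have hLL : max L0 6 ≤ Real.log n := (Real.le_log_iff_exp_le hn0).2 hn1
  obtain ⟨a1, a2, a3, a4, a5, a6⟩ := hL0 (Real.log n) ((le_max_left _ _).trans hLL)
  set L := Real.log n with hLdef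
  have hLp : 0 < L := by linarith
  have hL1 : 1 ≤ L := by linarith
  have hnL : (n : ℝ) = Real.exp L := (Real.exp_log hn0).symm
  have hn2 : (2 : ℝ) ≤ n := by
    rw [hnL]
    have := Real.add_one_le_exp L
    linarith
  have hlL : 0 ≤ Real.log L := Real.log_nonneg hL1
  have hWr : (W : ℝ) ≤ 2 * L ^ B ∧ L ^ B ≤ W := by
    rw [hW]
    have h1 := Nat.ceil_lt_add_one (a := L ^ B) (by positivity)
    have h2 : 1 ≤ L ^ B := one_le_pow₀ hL1
    exact ⟨by linarith, Nat.le_ceil _⟩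
  have hW2 : (2 : ℝ) ≤ W := by
    have h3 : L ^ 1 ≤ L ^ B := pow_le_pow_right₀ hL1 (by omega)
    rw [pow_one] at h3
    linarith [hWr.2]
  have hlW : Real.log W ≤ B * Real.log L + Real.log 2 := by
    have h3 := Real.log_le_log (by linarith) hWr.1
    rw [Real.log_mul (by norm_num) (by positivity), Real.log_pow] at h3
    linarith
  have hl2L : Real.log 2 ≤ Real.log L := Real.log_le_log (by norm_num) (by linarith)
  have hlW' : Real.log W ≤ ((B : ℝ) + 1) * Real.log L := by linarith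
  have hlW0 : 0 < Real.log W := Real.log_pos (by linarith)
  -- the parameter `r`
  set r : ℕ := 2 * ⌈(M : ℝ) * Real.log L⌉₊ with hrd
  have hre : Even r := ⟨⌈(M : ℝ) * Real.log L⌉₊, by rw [hrd]; ring⟩
  have hrlo : 2 * (M : ℝ) * Real.log L ≤ r := by
    rw [hrd]
    push_cast
    have := Nat.le_ceil ((M : ℝ) * Real.log L)
    linarith
  have hrhi : (r : ℝ) + 1 ≤ 2 * (M : ℝ) * Real.log L + 3 := by
    rw [hrd]
    push_cast
    have := Nat.ceil_lt_add_one (a := (M : ℝ) * Real.log L) (by positivity)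
    linarith
  -- the products
  have hPi : ∏ p ∈ P, (1 + 4 * ((3 : ℕ) : ℝ) / p) ^ K ≤ L ^ (12 * K + 1) := by
    have h1 : ∏ p ∈ P, (1 + 4 * ((3 : ℕ) : ℝ) / p) ^ K ≤ Real.exp (∑ q ∈ P, ((12 * K : ℕ) : ℝ) / (q : ℝ)) := by
      rw [Real.exp_sum]
      refine prod_le_prod (fun q _ => by positivity) (fun q _ => ?_)
      have h2 := Real.add_one_le_exp (4 * ((3 : ℕ) : ℝ) / q)
      calc (1 + 4 * ((3 : ℕ) : ℝ) / q) ^ K ≤ Real.exp (4 * ((3 : ℕ) : ℝ) / q) ^ K :=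
            pow_le_pow_left₀ (by positivity) (by linarith) _
        _ = Real.exp (((12 * K : ℕ) : ℝ) / (q : ℝ)) := by
            rw [← Real.exp_nat_mul]
            congr 1
            push_cast
            ring
    refine h1.trans ((m6_prod C hCh (12 * K) n hn2 P (fun q hq => ⟨(hy.Pp q hq).1, by exact_mod_cast hPn q hq⟩)).trans ?_)
    rw [pow_succ, mul_comm (L ^ (12 * K)) L]
    exact mul_le_mul_of_nonneg_right a3 (by positivity)
  have hD1n : (Lv n θ : ℝ) ≤ (n : ℝ) ^ (1 / 2 - 4 * θ) := by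
    unfold Lv
    exact Nat.floor_le (by positivity)
  have hn1' : (1 : ℝ) ≤ n := by linarith
  have hLvn : (Lv n θ : ℝ) ≤ n := by
    refine hD1n.trans ?_
    calc (n : ℝ) ^ (1 / 2 - 4 * θ) ≤ (n : ℝ) ^ (1 : ℝ) :=
          Real.rpow_le_rpow_of_exponent_le hn1' (by linarith)
      _ = n := Real.rpow_one _
  have hG : ∑ d ∈ (Icc 1 (Lv n θ)).filter Squarefree, (8 * (k : ℝ)) ^ d.primeFactors.card / d ≤
      L ^ (8 * k + 1) := by
    refine (m6_sqf (Lv n θ) (8 * (k : ℝ)) (by positivity)).trans ?_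
    have h1 := m6_prod C hCh (8 * k) n hn2 ((Icc 1 (Lv n θ)).filter Nat.Prime) (fun q hq => by
      rw [mem_filter, mem_Icc] at hq
      refine ⟨hq.2, ?_⟩
      have : (q : ℝ) ≤ (Lv n θ : ℝ) := by exact_mod_cast hq.1.2
      linarith)
    push_cast at h1 a4
    refine h1.trans ?_
    rw [pow_succ, mul_comm (L ^ (8 * k)) L]
    exact mul_le_mul_of_nonneg_right a4 (by positivity)
  have hτ : Sieve.poly (Sieve.cE (r + 1)) (fun q : ℕ => 2 * (k : ℝ) / q) (Ps W p1) ≤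
      L / L ^ (2 * M) := by
    have h1 := Sieve.rankinE (f := fun q : ℕ => 2 * (k : ℝ) / q) (Q := Ps W p1)
      (fun p _ => by positivity) (r + 1) (l := Real.exp 1) (Real.exp_pos _).le
    have h2 : ∏ p ∈ Ps W p1, (1 + Real.exp 1 * (2 * (k : ℝ) / p)) ≤
        Real.exp (∑ q ∈ Ps W p1, ((6 * k : ℕ) : ℝ) / (q : ℝ)) := by
      rw [Real.exp_sum]
      refine prod_le_prod (fun q _ => by positivity) (fun q _ => ?_)
      have h3 := Real.add_one_le_exp (((6 * k : ℕ) : ℝ) / (q : ℝ))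
      refine le_trans ?_ h3
      have h4 : Real.exp 1 * (2 * (k : ℝ) / q) ≤ ((6 * k : ℕ) : ℝ) / (q : ℝ) := by
        have h5 : Real.exp 1 ≤ 3 := by
          have := Real.exp_one_lt_d9
          linarith
        calc Real.exp 1 * (2 * (k : ℝ) / q) ≤ 3 * (2 * (k : ℝ) / q) :=
              mul_le_mul_of_nonneg_right h5 (by positivity)
          _ = ((6 * k : ℕ) : ℝ) / (q : ℝ) := by
              push_cast
              ring
      linarith
    have h3 := m6_prod C hCh (6 * k) W hW2 (Ps W p1) (fun q hq => by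
      unfold Ps at hq
      rw [mem_filter, mem_Icc] at hq
      exact ⟨hq.2.1, by exact_mod_cast hq.1.2⟩)
    have h4 : Real.exp ((6 * k : ℕ) * C) * Real.log W ^ (6 * k) ≤ L := by
      refine le_trans ?_ a5
      refine mul_le_mul_of_nonneg_left ?_ (Real.exp_pos _).le
      exact pow_le_pow_left₀ hlW0.le hlW' _
    have h5 : Real.exp 1 ^ (r + 1) * Sieve.poly (Sieve.cE (r + 1)) (fun q : ℕ => 2 * (k : ℝ) / q)
        (Ps W p1) ≤ L := h1.trans (h2.trans (h3.trans h4))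
    have h6 : L ^ (2 * M) ≤ Real.exp 1 ^ (r + 1) := by
      rw [← Real.exp_nat_mul, mul_one]
      calc L ^ (2 * M) = Real.exp ((2 * M : ℕ) * Real.log L) := by
            rw [Real.exp_nat_mul, Real.exp_log hLp]
        _ ≤ Real.exp ((r + 1 : ℕ) : ℝ) := by
            apply Real.exp_le_exp.2
            push_cast
            linarith
    have h7 : 0 ≤ Sieve.poly (Sieve.cE (r + 1)) (fun q : ℕ => 2 * (k : ℝ) / q) (Ps W p1) := by
      apply Sieve.poly_nonneg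
      · intro D
        unfold Sieve.cE
        split_ifs <;> norm_num
      · intro p _
        positivity
    rw [le_div_iff₀ (by positivity), mul_comm]
    exact (mul_le_mul_of_nonneg_right h6 h7).trans h5
  -- the level
  have hWn : (W : ℝ) ^ (r + 1) ≤ (n : ℝ) ^ θ := by
    have h1 : (W : ℝ) ^ (r + 1) = Real.exp ((r + 1 : ℕ) * Real.log W) := by
      rw [Real.exp_nat_mul, Real.exp_log (by linarith)]
    rw [h1, Real.rpow_def_of_pos hn0]
    apply Real.exp_le_exp.2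
    rw [← hLdef]
    push_cast
    calc ((r : ℝ) + 1) * Real.log W ≤ (2 * (M : ℝ) * Real.log L + 3) * (B * Real.log L + Real.log 2) :=
          mul_le_mul hrhi hlW hlW0.le (by positivity)
      _ = (B * Real.log L + Real.log 2) * (2 * M * Real.log L + 3) := by ring
      _ ≤ θ * L := a6
      _ = L * θ := by ring
  have hDD : (n : ℝ) ^ (2 * θ) * (W : ℝ) ^ (r + 1) * (Lv n θ : ℕ) ≤ D := by
    refine le_trans ?_ hD
    calc (n : ℝ) ^ (2 * θ) * (W : ℝ) ^ (r + 1) * (Lv n θ : ℕ)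
        ≤ (n : ℝ) ^ (2 * θ) * (n : ℝ) ^ θ * (n : ℝ) ^ (1 / 2 - 4 * θ) := by
          apply mul_le_mul _ hD1n (Nat.cast_nonneg _) (by positivity)
          exact mul_le_mul_of_nonneg_left hWn (by positivity)
      _ = (n : ℝ) ^ (1 / 2 - θ) := by
          rw [← Real.rpow_add hn0, ← Real.rpow_add hn0]
          congr 1
          ring
  have hmt := mt s P H i W p1 R T P' k b K 3 r D (Lv n θ) hy hr hr0 hr2 hrq hKc hK (by norm_num) hk hre
    F F0 (L ^ cF) ((n : ℝ) ^ (2 * θ)) (by positivity) (by positivity) hF hDD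
    (n / L ^ (A0 + cF + 1)) hLv (L ^ (12 * K + 1)) (L ^ (8 * k + 1)) (L / L ^ (2 * M)) hPi hG hτ
  refine hmt.trans ?_
  have hfin := m6_final K k cF A0 B L n s.X b W a1 a2 (Nat.cast_nonneg _) hy.X0 (Nat.cast_nonneg _)
    hX hb hWr.2 hB
  rw [← hM] at hfin
  push_cast at hfin ⊢
  exact hfin

end Pool.Agent.Lib.H57C
end

-- from Lib.H57C.RB
section

/-!
# Chunk RB: the remainder terms for the sequence `t + h` prime
-/

open Finset

namespace Pool.Agent.Lib.H57C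

open Pool.Agent.Lib.H57M

theorem RB_ev (k : ℕ) (s C : ℝ) (hs : 0 < s) (hC : 0 < C) : ∃ n0 : ℕ, ∀ N : ℕ, n0 ≤ N →
    C * Real.log N ^ k ≤ (N : ℝ) ^ s := by
  have h1 : ∀ᶠ x : ℝ in Filter.atTop, C * Real.log x ^ k ≤ x ^ s := by
    have e1 := (isLittleO_log_rpow_rpow_atTop (k : ℝ) hs).def (show (0 : ℝ) < 1 / C by positivity)
    filter_upwards [e1, Filter.eventually_ge_atTop (1 : ℝ)] with x hx1 hx2
    have hl : 0 ≤ Real.log x := Real.log_nonneg hx2
    rw [Real.rpow_natCast, Real.norm_eq_abs, Real.norm_eq_abs, abs_of_nonneg (pow_nonneg hl _),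
      abs_of_nonneg (Real.rpow_nonneg (by linarith) _)] at hx1
    calc C * Real.log x ^ k ≤ C * (1 / C * x ^ s) := mul_le_mul_of_nonneg_left hx1 hC.le
      _ = x ^ s := by
          field_simp
  obtain ⟨n0, hn0⟩ := Filter.eventually_atTop.1
    ((tendsto_natCast_atTop_atTop (R := ℝ)).eventually h1)
  exact ⟨n0, hn0⟩

theorem RB_DD (B : ℕ) (θ : ℝ) (hθ : 0 < θ) (hθ1 : θ ≤ 1 / 100) : ∃ n0 : ℕ, ∀ n : ℕ, n0 ≤ n →
    (n : ℝ) ^ (1 / 2 - θ) ≤ (H59C.DD n B : ℕ) := by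
  obtain ⟨n0, hn0⟩ := RB_ev B θ 2 hθ (by norm_num)
  refine ⟨max n0 3, fun n hn => ?_⟩
  have h1 := hn0 n (le_trans (le_max_left _ _) hn)
  have hn3 : 3 ≤ n := le_trans (le_max_right _ _) hn
  have hnr : (3 : ℝ) ≤ n := by exact_mod_cast hn3
  have hL : 0 < Real.log n := Real.log_pos (by linarith)
  unfold H59C.DD
  have h2 : (n : ℝ) ^ (1 / 2 - θ) + 1 ≤ Real.sqrt n / Real.log n ^ B := by
    rw [le_div_iff₀ (by positivity)]
    have h3 : 1 ≤ (n : ℝ) ^ (1 / 2 - θ) := Real.one_le_rpow (by linarith) (by linarith)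
    have h4 : (n : ℝ) ^ (1 / 2 - θ) * (n : ℝ) ^ θ = Real.sqrt n := by
      rw [Real.sqrt_eq_rpow, ← Real.rpow_add (by linarith)]
      congr 1
      ring
    calc ((n : ℝ) ^ (1 / 2 - θ) + 1) * Real.log n ^ B
        ≤ ((n : ℝ) ^ (1 / 2 - θ) * 2) * Real.log n ^ B := by
          apply mul_le_mul_of_nonneg_right _ (by positivity)
          linarith
      _ = (n : ℝ) ^ (1 / 2 - θ) * (2 * Real.log n ^ B) := by ring
      _ ≤ (n : ℝ) ^ (1 / 2 - θ) * (n : ℝ) ^ θ := mul_le_mul_of_nonneg_left h1 (by linarith)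
      _ = Real.sqrt n := h4
  have h5 := Nat.lt_floor_add_one (Real.sqrt n / Real.log n ^ B)
  linarith

theorem RB_FC {K : ℕ} (w : Par K) (H : Finset ℕ) (S : {h // h ∈ H} → Finset {p // p ∈ w.P}) :
    0 ≤ FC w H S := by
  have hz : 0 ≤ w.z := by
    unfold Par.z
    have : 0 ≤ ∑ i, H15P.ex (H15P.qq w.P K) (fun A => w.D i A ^ 2) :=
      Finset.sum_nonneg fun i _ => H15P.ex_nonneg _ w.good.q0 w.good.q1 _ fun A => sq_nonneg _
    linarith
  unfold FC
  exact div_nonneg (sq_nonneg _) (pow_nonneg hz _)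

theorem RB_gq0 (q : ℕ) (hq : q.Prime) : 0 ≤ H59C.gq q := by
  have h2 : (2 : ℝ) ≤ q := by exact_mod_cast hq.two_le
  unfold H59C.gq
  exact div_nonneg zero_le_one (by linarith)

theorem RB_gq2 (q : ℕ) (hq : q.Prime) : H59C.gq q ≤ 2 / q := by
  have h2 : (2 : ℝ) ≤ q := by exact_mod_cast hq.two_le
  unfold H59C.gq
  rw [div_le_div_iff₀ (by linarith) (by linarith)]
  linarith

theorem RB_gqq (q : ℕ) (hq : q.Prime) : |H59C.gq q - 1 / q| ≤ 2 / (q : ℝ) ^ 2 := by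
  have h2 : (2 : ℝ) ≤ q := by exact_mod_cast hq.two_le
  have h3 : (q : ℝ) - 1 ≠ 0 := by linarith
  have h4 : (q : ℝ) ≠ 0 := by linarith
  have h1 : H59C.gq q - 1 / q = 1 / (((q : ℝ) - 1) * q) := by
    unfold H59C.gq
    field_simp
    ring
  have h5 : 0 < ((q : ℝ) - 1) * q := mul_pos (by linarith) (by linarith)
  rw [h1, abs_of_nonneg (by positivity), div_le_div_iff₀ h5 (by positivity)]
  nlinarith

theorem RB_XX (n y1 y2 : ℕ) (h2 : y2 ≤ n) (hL : 1 ≤ Real.log n) :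
    H59C.XX y1 y2 ≤ n * Real.log n ^ 2 := by
  unfold H59C.XX
  have h1 : ∀ p ∈ H59C.Sq y1 y2, H59C.lg p ≤ Real.log n := by
    intro p hp
    rw [Pool.Agent.Lib.H59C.mem_Sq] at hp
    unfold H59C.lg
    apply Real.log_le_log (by exact_mod_cast hp.2.pos)
    exact_mod_cast (by omega : p ≤ n)
  have h3 := Finset.sum_le_card_nsmul _ _ _ h1
  rw [nsmul_eq_mul] at h3
  have h4 : ((H59C.Sq y1 y2).card : ℝ) ≤ n := by
    have h5 : (H59C.Sq y1 y2).card ≤ n := by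
      unfold H59C.Sq
      refine le_trans (card_filter_le _ _) ?_
      rw [Nat.card_Ioc]
      omega
    exact_mod_cast h5
  refine le_trans h3 ?_
  have h6 : Real.log n ≤ Real.log n ^ 2 := by nlinarith
  exact mul_le_mul h4 h6 (by linarith) (Nat.cast_nonneg _)

theorem RB_large (B : ℕ) : ∃ n0 : ℕ, ∀ N : ℕ, n0 ≤ N →
    1000 ≤ N ∧ 1 ≤ Real.log N ∧ 100 * (Real.log N ^ B + 1) ≤ (N : ℝ) ∧
      10 * (N : ℝ) ^ (1 / 100 : ℝ) ≤ N := by
  have h1 : ∀ᶠ x : ℝ in Filter.atTop, 1 ≤ Real.log x ∧ 100 * (Real.log x ^ B + 1) ≤ x := by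
    have e1 := (Real.isLittleO_pow_log_id_atTop (n := B)).def (show (0 : ℝ) < 1 / 200 by norm_num)
    filter_upwards [e1, Filter.eventually_ge_atTop (200 : ℝ),
      Real.tendsto_log_atTop.eventually_ge_atTop 1] with x hx1 hx2 hx3
    refine ⟨hx3, ?_⟩
    rw [Real.norm_eq_abs, Real.norm_eq_abs, abs_of_nonneg (pow_nonneg (by linarith) _), id, abs_of_nonneg (by linarith)] at hx1
    linarith
  obtain ⟨n0, hn0⟩ := Filter.eventually_atTop.1
    ((tendsto_natCast_atTop_atTop (R := ℝ)).eventually h1)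
  refine ⟨max n0 1000, fun N hN => ?_⟩
  obtain ⟨a1, a2⟩ := hn0 N (le_trans (le_max_left _ _) hN)
  have a3 : 1000 ≤ N := le_trans (le_max_right _ _) hN
  have a4 : (1000 : ℝ) ≤ N := by exact_mod_cast a3
  refine ⟨a3, a1, a2, ?_⟩
  have h2 : (N : ℝ) ^ (1 / 100 : ℝ) ≤ (N : ℝ) ^ (1 / 2 : ℝ) :=
    Real.rpow_le_rpow_of_exponent_le (by linarith) (by norm_num)
  have h3 : 10 ≤ (N : ℝ) ^ (1 / 2 : ℝ) := by
    rw [← Real.sqrt_eq_rpow]
    apply Real.le_sqrt_of_sq_le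
    linarith
  have h4 : (N : ℝ) ^ (1 / 2 : ℝ) * (N : ℝ) ^ (1 / 2 : ℝ) = N := by
    rw [← Real.rpow_add (by linarith)]
    norm_num
  nlinarith

/-- The hypotheses of the transfer theorem. -/
theorem RB_Hy (B cF K k : ℕ) (θ : ℝ) (n : ℕ) (w : Par K) (H : Finset ℕ) (p1 : ℕ)
    (R T : ℕ → Finset ℕ) (P' : Finset ℕ) (hP : Pre0 B cF θ w H n p1)
    (hT : HRT K k w.W p1 H R T P') (h : ℕ) (hh : h ∈ H) (hn : 1000 ≤ n)
    (hl : 100 * (Real.log n ^ B + 1) ≤ (n : ℝ)) (hL : 1 ≤ Real.log n)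
    (hr : 10 * (n : ℝ) ^ (1 / 100 : ℝ) ≤ n) :
    Hy (sB h (Ya n + h) (Yb n + h)) w.P H (some h) w.W p1 R T P' (K + k) 0 := by
  have hW : 100 * w.W ≤ n := by
    have h1 : (w.W : ℝ) ≤ Real.log n ^ B + 1 := by
      rw [hP.Wdef]
      exact (Nat.ceil_lt_add_one (by positivity)).le
    have h3 : (100 * w.W : ℝ) ≤ n := by linarith
    exact_mod_cast h3
  have hPs : ∀ q ∈ Ps w.W p1, q.Prime := fun q hq => a2_Ps hq
  refine ⟨?_, ?_, ?_, ?_, RB_gq0, RB_gq2, fun q hq _ => RB_gqq q hq,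
    fun p hp => ⟨w.prime p hp, w.big p hp⟩, hP.p1p, hP.p1W, hP.HW, ?_, hT.Rr, hT.Rk, ?_,
    hT.P'p, hT.Tr, ?_, ?_, ?_, ?_⟩
  · intro j _
    show 0 ≤ H59C.lg j
    unfold H59C.lg
    exact Real.log_natCast_nonneg _
  · show 0 ≤ H59C.XX (Ya n + h) (Yb n + h)
    unfold H59C.XX H59C.lg
    exact sum_nonneg fun p _ => Real.log_natCast_nonneg _
  · intro q c c' hc
    show ¬ q ∣ c + h ↔ ¬ q ∣ c' + h
    have h1 : c + h ≡ c' + h [MOD q] := hc.add_right h
    rw [h1.dvd_iff (dvd_refl q)]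
  · intro j hj _ q hq hqq
    show ¬ q ∣ j - h + h
    have hj' : j ∈ H59C.Sq (Ya n + h) (Yb n + h) := hj
    rw [Pool.Agent.Lib.H59C.mem_Sq] at hj'
    obtain ⟨⟨h1, h2⟩, h3⟩ := hj'
    rw [Nat.sub_add_cancel (by omega)]
    intro hd
    have h4 : q = j := (Nat.prime_dvd_prime_iff_eq hq h3).1 hd
    have h5 : 10 * q ≤ n := by
      rcases hqq with hqq | hqq
      · have h6 := hP.PN q hqq
        have h7 : (10 * q : ℝ) ≤ n := by linarith
        exact_mod_cast h7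
      · omega
    unfold Ya at h1
    omega
  · intro h' hh'
    rw [Option.some.injEq] at hh'
    rw [← hh']
    exact hh
  · classical
    intro q hq
    have hqp := hPs q hq
    have h0 : ∀ S : Finset ℕ, S ⊆ R q → (S.card : ℝ) * H59C.gq q ≤ 1 := by
      intro S hS
      have h1 : S.card + 1 ≤ q := by
        have h2 := hT.Rq q hq
        have h3 := card_le_card hS
        omega
      have h2 : (S.card : ℝ) + 1 ≤ q := by exact_mod_cast h1
      have h3 : (2 : ℝ) ≤ q := by exact_mod_cast hqp.two_le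
      unfold H59C.gq
      rw [mul_one_div, div_le_one (by linarith)]
      linarith
    exact h0 _ (filter_subset _ _)
  · intro q hq
    have := hT.Tk q hq
    omega
  · intro q hq t ht
    exact hT.TH q hq t ht h hh
  · intro q hq t ht h' hh' _
    exact hT.TH q hq t ht h' hh'
  · classical
    rw [Nat.le_zero, card_eq_zero]
    refine Finset.eq_empty_of_forall_notMem fun p hpf => ?_
    rw [mem_filter] at hpf
    obtain ⟨hp, h', hh', hne, c, hc1, hc2⟩ := hpf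
    have hc3 : p ∣ c + h := by
      by_contra hcon
      exact hc2 hcon
    have hpW := w.big p hp
    have hW1 := hP.HW h hh
    have hW2 := hP.HW h' hh'
    have hne' : h ≠ h' := fun he => hne (by rw [he])
    rcases Nat.lt_or_ge h h' with hlt | hge
    · have h5 : p ∣ (c + h') - (c + h) := Nat.dvd_sub hc1 hc3
      have h6 := Nat.le_of_dvd (by omega) h5
      omega
    · have h5 : p ∣ (c + h) - (c + h') := Nat.dvd_sub hc3 hc1
      have h6 := Nat.le_of_dvd (by omega) h5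
      omega

/-- Proof. `mta` with `k` replaced by `K + k`, for the sequence `sB h (Ya n + h) (Yb n + h)`, `i = some h`, `P = w.P`, `F = FC w H`,
`b = 0`, `hr = gq`, `D = DD n B1` from `lvlB A (3 K + 2 (K + k))` (`n^(1/2 - θ) ≤ DD n B1` for large `n`). `A'` is the one of `lvlB`. The hypotheses `Hy`:
* `nev`: `t = p - h`, `t + h = p > Ya n` prime, and the primes of `w.P` and those `≤ W` are `≤ n^(1/100) < p` (`Pre0.PN`, `Wdef`).
* `hd = gq`: `1/(q-1) - 1/q = 1/(q(q-1)) ≤ 2/q^2`.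
* `R1`: `#R < q` and the class `-h` (which is in `R q` by `RH`) is not allowed: `#.. ≤ q - 1` (even `q - 2`), `gq q = 1/(q-1)`.
* `TA`, `TH`: `HRT.TH`. `bad`: empty (`p ∣ c + h'`, `p ∣ c + h`, `h ≠ h'`, `|h - h'| ≤ W < p`).
`FC w H (cfg ..) = FF`; `VS = VbR` (`vs_BR`); `0 ≤ XX ≤ n log^2 n`. -/
theorem rBR (K k cF A0 : ℕ) (hK : 1 ≤ K) (hk : 1 ≤ k) : ∃ A' B0 : ℕ, ∀ B : ℕ, B0 ≤ B → ∀ θ : ℝ,
    0 < θ → θ ≤ 1 / 100 → ∃ n0 : ℕ, ∀ n : ℕ, n0 ≤ n → ∀ (w : Par K) (H : Finset ℕ) (p1 : ℕ)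
    (R T : ℕ → Finset ℕ) (P' : Finset ℕ), Pre0 B cF θ w H n p1 → HRT K k w.W p1 H R T P' →
    H59C.SWp A' n p1 → ∀ h ∈ H, ∑ d ∈ Dv P' (Lv n θ),
    |∑ p ∈ (H59C.Sq (Ya n + h) (Yb n + h)).filter (fun p => inT T d (p - h)),
        H59C.lg p * (FF w H (some h) (p - h) * Sg (Ps w.W p1) R (p - h)) -
      H59C.XX (Ya n + h) (Yb n + h) * (AE w.P H (some h) (FC w H) * VbR (Ps w.W p1) R) *
        ∏ q ∈ d.primeFactors, (((T q).card : ℝ) * H59C.gq q)| ≤ n / Real.log n ^ A0 := by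
  obtain ⟨A, B0, hm⟩ := mta K (K + k) cF A0 hK (by omega)
  obtain ⟨A', B1, n1, hl⟩ := lvlB A (K * 3 + 2 * (K + k))
  refine ⟨A', B0, fun B hB θ hθ hθ1 => ?_⟩
  obtain ⟨n2, hm2⟩ := hm B hB θ hθ hθ1
  obtain ⟨n3, hn3⟩ := RB_DD B1 θ hθ hθ1
  obtain ⟨n4, hn4⟩ := RB_large B
  refine ⟨max (max n1 n2) (max n3 n4), fun n hn w H p1 R T P' hP hT hSW h hh => ?_⟩
  have hN1 : n1 ≤ n := le_trans (le_trans (le_max_left _ _) (le_max_left _ _)) hn
  have hN2 : n2 ≤ n := le_trans (le_trans (le_max_right _ _) (le_max_left _ _)) hn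
  have hN3 : n3 ≤ n := le_trans (le_trans (le_max_left _ _) (le_max_right _ _)) hn
  have hN4 : n4 ≤ n := le_trans (le_trans (le_max_right _ _) (le_max_right _ _)) hn
  obtain ⟨g1, g2, g3, g4⟩ := hn4 n hN4
  have hnr : (1000 : ℝ) ≤ n := by exact_mod_cast g1
  have hHy := RB_Hy B cF K k θ n w H p1 R T P' hP hT h hh g1 g3 g2 g4
  have hW : 100 * w.W ≤ n := by
    have h1 : (w.W : ℝ) ≤ Real.log n ^ B + 1 := by
      rw [hP.Wdef]
      exact (Nat.ceil_lt_add_one (by positivity)).le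
    have h3 : (100 * w.W : ℝ) ≤ n := by linarith
    exact_mod_cast h3
  have hhW := hP.HW h hh
  have hYn : Yb n + h ≤ n := by
    unfold Yb
    omega
  have hYY : Ya n ≤ Yb n := by
    unfold Ya Yb
    omega
  have hlvl := hl n hN1 p1 hSW h (Ya n + h) (Yb n + h) (by omega) (by omega) (by omega)
  have hPn : ∀ p ∈ w.P, p ≤ n := by
    intro p hp
    have h1 := hP.PN p hp
    have h2 : (p : ℝ) ≤ n := by
      have h3 : 0 ≤ (n : ℝ) ^ (1 / 100 : ℝ) := Real.rpow_nonneg (by linarith) _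
      linarith
    exact_mod_cast h2
  have hX : (sB h (Ya n + h) (Yb n + h)).X ≤ n * Real.log n ^ 2 := RB_XX n _ _ hYn g2
  have hb : ((0 : ℕ) : ℝ) ≤ Real.log n ^ 2 := by
    rw [Nat.cast_zero]
    exact sq_nonneg _
  have key := hm2 n hN2 (sB h (Ya n + h) (Yb n + h)) w.P H (some h) w.W p1 R T P' 0 H59C.gq
    (FC w H) (H59C.DD n B1) hHy RB_gq0 RB_gq2 (fun q hq _ => RB_gqq q hq) hP.cardH hP.Wdef hPn hX hb
    (RB_FC w H) hP.exF (hn3 n hN3) hlvl
  have hVS : VS (Ps w.W p1) R H59C.gq (fun q c => ¬ q ∣ c + h) = VbR (Ps w.W p1) R :=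
    vs_BR _ R h (fun q hq => a2_Ps hq) (fun q _ => hT.Rr q) (fun q hq => hT.RH q hq h hh)
  rw [← hVS]
  exact key

/-- Proof. `rBR` with `k = 1`, `A0 = 10`, `R = Rb N H`, `T q = {N % q}`, `P' = Pg N w.W H` (`pre_hrt`, `Pre.to0`). `inT T d (p - h)` iff `d ∣ N - (p - h) =
Nat.dist (N + h) p` (`inT_iff`; `h ≤ p ≤ N + h`), `∏ gq = 1/φ(d)` (`prod_gq`). -/
theorem rB (K cF : ℕ) (hK : 1 ≤ K) : ∃ A' B0 : ℕ, ∀ B : ℕ, B0 ≤ B → ∀ θ : ℝ, 0 < θ →
    θ ≤ 1 / 100 → ∃ n0 : ℕ, ∀ N : ℕ, n0 ≤ N → ∀ (w : Par K) (H : Finset ℕ) (p1 : ℕ),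
    Pre B cF θ w H N p1 → H59C.SWp A' N p1 → ∀ h ∈ H, ∑ d ∈ Dv (Pg N w.W H) (Lv N θ),
    |∑ p ∈ (H59C.Sq (Ya N + h) (Yb N + h)).filter (fun p => d ∣ Nat.dist (N + h) p),
        H59C.lg p * Fs w H N p1 (some h) (p - h) -
      Xh w H N p1 h / (Nat.totient d : ℝ)| ≤ N / Real.log N ^ 10 := by
  obtain ⟨A', B0, hm⟩ := rBR K 1 cF 10 hK (le_refl 1)
  refine ⟨A', B0, fun B hB θ hθ hθ1 => ?_⟩
  obtain ⟨n0, hn0⟩ := hm B hB θ hθ hθ1
  refine ⟨n0, fun N hN w H p1 hP hSW h hh => ?_⟩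
  have key := hn0 N hN w H p1 (Rb N H) (fun q => {N % q}) (Pg N w.W H) hP.to0
    (pre_hrt B cF θ w H N p1 hP) hSW h hh
  refine le_trans (le_of_eq ?_) key
  refine sum_congr rfl fun d hd => ?_
  have hsq : Squarefree d := by
    unfold Dv at hd
    exact (mem_filter.1 hd).2.1
  have hYb : Yb N ≤ N := by
    unfold Yb
    omega
  have hf : (H59C.Sq (Ya N + h) (Yb N + h)).filter (fun p => d ∣ Nat.dist (N + h) p) =
      (H59C.Sq (Ya N + h) (Yb N + h)).filter (fun p => inT (fun q => {N % q}) d (p - h)) := by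
    refine filter_congr fun p hp => ?_
    rw [Pool.Agent.Lib.H59C.mem_Sq] at hp
    rw [inT_iff N d (p - h) hsq (by omega)]
    have h1 : Nat.dist (N + h) p = N - (p - h) := by
      unfold Nat.dist
      omega
    rw [h1]
  have hg : ∏ q ∈ d.primeFactors, (((({N % q} : Finset ℕ)).card : ℝ) * H59C.gq q) =
      1 / (Nat.totient d : ℝ) := by
    rw [← prod_gq d hsq]
    refine prod_congr rfl fun q _ => ?_
    rw [card_singleton, Nat.cast_one, one_mul]
  rw [hf, hg, mul_one_div]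
  rfl

end Pool.Agent.Lib.H57C
end

-- from Lib.H57C.RI
section

/-!
# Chunk RI: the remainder terms for the integers
-/

open Finset

namespace Pool.Agent.Lib.H57C

open Pool.Agent.Lib.H57M

theorem ri_Ps {W p1 q : ℕ} (hq : q ∈ Ps W p1) : q.Prime ∧ q ≤ W ∧ q ≠ p1 := by
  unfold Ps at hq
  rw [mem_filter, mem_Icc] at hq
  exact ⟨hq.2.1, hq.1.2, hq.2.2⟩

theorem ri_FC {K : ℕ} (w : Par K) (H : Finset ℕ) (S : {h // h ∈ H} → Finset {p // p ∈ w.P}) :
    0 ≤ FC w H S := by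
  unfold FC
  have := w.z_bounds.1
  positivity

/-- The hypotheses for the integers. -/
theorem ri_hy {B cF : ℕ} {θ : ℝ} {K k : ℕ} {w : Par K} {H : Finset ℕ} {n p1 : ℕ}
    {R T : ℕ → Finset ℕ} {P' : Finset ℕ} (h0 : Pre0 B cF θ w H n p1)
    (h1 : HRT K k w.W p1 H R T P') (N r y1 y2 : ℕ) (hy : y1 ≤ y2) (i : Option ℕ)
    (hi : ∀ h, i = some h → h ∈ H) (T' : ℕ → Finset ℕ) (k' : ℕ) (hk : K + k ≤ k')
    (Tr : ∀ q ∈ P', T' q ⊆ range q) (Tk : ∀ q ∈ P', (T' q).card ≤ k')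
    (TH : ∀ q ∈ P', ∀ t ∈ T' q, ∀ h ∈ H, i ≠ some h → ¬ q ∣ t + h) :
    Hy (sI N r y1 y2) w.P H i w.W p1 R T' P' k' 0 where
  w0 := fun j _ => zero_le_one
  X0 := by
    have : (y1 : ℝ) ≤ y2 := by exact_mod_cast hy
    have h2 : (0 : ℝ) ≤ (y2 : ℝ) - y1 := by linarith
    exact div_nonneg h2 (Nat.cast_nonneg r)
  al := fun q c c' _ => Iff.rfl
  nev := fun j _ _ q _ _ => trivial
  hd0 := fun q _ => by
    show (0 : ℝ) ≤ 1 / (q : ℝ)
    positivity
  hd2 := fun q _ => by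
    show 1 / (q : ℝ) ≤ 2 / (q : ℝ)
    gcongr
    norm_num
  hdq := fun q _ _ => by
    show |1 / (q : ℝ) - 1 / (q : ℝ)| ≤ 2 / (q : ℝ) ^ 2
    rw [sub_self, abs_zero]
    positivity
  Pp := fun p hp => ⟨w.prime p hp, w.big p hp⟩
  p1p := h0.p1p
  p1W := h0.p1W
  HW := h0.HW
  iH := hi
  Rr := h1.Rr
  Rk := fun q hq => (h1.Rk q hq).trans hk
  R1 := fun q hq => by
    classical
    have h2 : (((R q).filter (fun c => (sI N r y1 y2).Al q c)).card : ℝ) ≤ q := by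
      have h3 : ((R q).filter (fun c => (sI N r y1 y2).Al q c)).card ≤ q :=
        (card_filter_le _ _).trans (h1.Rq q hq).le
      exact_mod_cast h3
    have hq0 : (0 : ℝ) < q := by exact_mod_cast (ri_Ps hq).1.pos
    show _ * (1 / (q : ℝ)) ≤ 1
    rw [mul_one_div, div_le_one hq0]
    exact h2
  P'p := h1.P'p
  Tr := Tr
  Tk := Tk
  TA := fun q _ t _ => trivial
  TH := TH
  bad := by
    classical
    rw [Nat.le_zero, card_eq_zero, filter_eq_empty_iff]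
    rintro p _ ⟨h, _, _, c, _, hn⟩
    exact hn trivial

theorem ri_Ya (n : ℕ) : Ya n ≤ Yb n := by
  unfold Ya Yb
  omega

theorem ri_Yb (n : ℕ) : Yb n ≤ n := by
  unfold Yb
  omega

/-- The total weight. -/
theorem ri_X (n N r : ℕ) (hr : 1 ≤ r) (hn : 3 ≤ n) :
    (sI N r (Ya n) (Yb n)).X ≤ n * Real.log n ^ 2 := by
  show ((Yb n : ℝ) - Ya n) / r ≤ _
  have h1 : ((Yb n : ℝ) - Ya n) ≤ n := by
    have h2 : (Yb n : ℝ) ≤ n := by exact_mod_cast ri_Yb n
    have h3 : (0 : ℝ) ≤ Ya n := Nat.cast_nonneg _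
    linarith
  have h2 : (1 : ℝ) ≤ r := by exact_mod_cast hr
  have hn0 : (0 : ℝ) ≤ n := Nat.cast_nonneg n
  have h3 : (1 : ℝ) ≤ Real.log n := by
    rw [Real.le_log_iff_exp_le (by positivity)]
    have h4 : (3 : ℝ) ≤ n := by exact_mod_cast hn
    linarith [Real.exp_one_lt_d9]
  calc ((Yb n : ℝ) - Ya n) / r ≤ n / r := by gcongr
    _ ≤ n / 1 := by gcongr
    _ = n * 1 ^ 2 := by ring
    _ ≤ n * Real.log n ^ 2 := by gcongr

/-- The level. -/
theorem ri_lev (θ : ℝ) (hθ : 0 < θ) : ∃ n0 : ℕ, ∀ n : ℕ, n0 ≤ n →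
    (n : ℝ) ^ (1 / 2 - θ) ≤ (⌊Real.sqrt n⌋₊ : ℕ) := by
  have h1 : Filter.Tendsto (fun n : ℕ => (n : ℝ) ^ θ) Filter.atTop Filter.atTop :=
    (tendsto_rpow_atTop hθ).comp tendsto_natCast_atTop_atTop
  obtain ⟨n0, hn0⟩ := Filter.eventually_atTop.1 (h1.eventually_ge_atTop 2)
  refine ⟨max n0 4, fun n hn => ?_⟩
  have h2 := hn0 n ((le_max_left _ _).trans hn)
  have h3 : 4 ≤ n := (le_max_right _ _).trans hn
  have h3' : (4 : ℝ) ≤ n := by exact_mod_cast h3
  have hn0' : (0 : ℝ) < n := by linarith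
  have h4 : Real.sqrt n < ⌊Real.sqrt n⌋₊ + 1 := Nat.lt_floor_add_one _
  have h5 : (2 : ℝ) ≤ Real.sqrt n := by
    rw [show (2 : ℝ) = Real.sqrt 4 by rw [show (4 : ℝ) = 2 ^ 2 by norm_num]; simp]
    exact Real.sqrt_le_sqrt h3'
  have h6 : (n : ℝ) ^ (1 / 2 - θ) * (n : ℝ) ^ θ = Real.sqrt n := by
    rw [← Real.rpow_add hn0', Real.sqrt_eq_rpow]
    congr 1
    ring
  have h7 : 0 ≤ (n : ℝ) ^ (1 / 2 - θ) := by positivity
  nlinarith

/-- Proof. `mta` with `k` replaced by `K + k`, for the sequence `sI 0 1 (Ya n) (Yb n)` (`lvlI`, `D = ⌊√n⌋₊ ≥ n^(1/2 - θ)`), `i = none`, `b = 0`.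
All classes are allowed. `TH`: `HRT.TH`. `R1`: `#R ≤ q`, `hd = 1/q`. `VS = VaR` (`vs_IR`), the condition `t ≡ 0 [MOD 1]` is empty. -/
theorem rIR (K k cF A0 : ℕ) (hK : 1 ≤ K) (hk : 1 ≤ k) : ∃ B0 : ℕ, ∀ B : ℕ, B0 ≤ B → ∀ θ : ℝ,
    0 < θ → θ ≤ 1 / 100 → ∃ n0 : ℕ, ∀ n : ℕ, n0 ≤ n → ∀ (w : Par K) (H : Finset ℕ) (p1 : ℕ)
    (R T : ℕ → Finset ℕ) (P' : Finset ℕ), Pre0 B cF θ w H n p1 → HRT K k w.W p1 H R T P' →
    ∀ hr : ℕ → ℝ, (∀ q : ℕ, q.Prime → 0 ≤ hr q) → (∀ q : ℕ, q.Prime → hr q ≤ 2 / q) →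
    (∀ q : ℕ, q.Prime → w.W < q → |hr q - 1 / q| ≤ 2 / (q : ℝ) ^ 2) →
    ∑ d ∈ Dv P' (Lv n θ),
    |∑ t ∈ (Ioc (Ya n) (Yb n)).filter (fun t => inT T d t),
        FF w H none t * Sg (Ps w.W p1) R t -
      ((Yb n : ℝ) - Ya n) * (AE w.P H none (FC w H) * VaR (Ps w.W p1) R) *
        ∏ q ∈ d.primeFactors, (((T q).card : ℝ) * hr q)| ≤ n / Real.log n ^ A0 := by
  obtain ⟨A, B0, hB0⟩ := mta K (K + k) cF A0 hK (by omega)
  refine ⟨B0, fun B hB θ hθ hθ' => ?_⟩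
  obtain ⟨n1, hn1⟩ := hB0 B hB θ hθ hθ'
  obtain ⟨n2, hn2⟩ := lvlI A (K * 3 + 2 * (K + k))
  obtain ⟨n3, hn3⟩ := ri_lev θ hθ
  refine ⟨max (max n1 n2) (max n3 3), fun n hn w H p1 R T P' h0 h1 hr hr0 hr2 hrq => ?_⟩
  have hn1' : n1 ≤ n := ((le_max_left _ _).trans (le_max_left _ _)).trans hn
  have hn2' : n2 ≤ n := ((le_max_right _ _).trans (le_max_left _ _)).trans hn
  have hn3' : n3 ≤ n := ((le_max_left _ _).trans (le_max_right _ _)).trans hn
  have hn4' : 3 ≤ n := ((le_max_right _ _).trans (le_max_right _ _)).trans hn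
  have hn0 : (1 : ℝ) ≤ n := by
    have : 1 ≤ n := by omega
    exact_mod_cast this
  have hHy := ri_hy h0 h1 0 1 (Ya n) (Yb n) (ri_Ya n) none (by simp) T (K + k) le_rfl h1.Tr
    (fun q hq => (h1.Tk q hq).trans (by omega)) (fun q hq t ht h hh _ => h1.TH q hq t ht h hh)
  have key := hn1 n hn1' (sI 0 1 (Ya n) (Yb n)) w.P H none w.W p1 R T P' 0 hr (FC w H)
    ⌊Real.sqrt n⌋₊ hHy hr0 hr2 hrq h0.cardH h0.Wdef
    (fun p hp => by
      have h2 := h0.PN p hp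
      have h3 : (n : ℝ) ^ (1 / 100 : ℝ) ≤ (n : ℝ) ^ (1 : ℝ) :=
        Real.rpow_le_rpow_of_exponent_le hn0 (by norm_num)
      rw [Real.rpow_one] at h3
      exact_mod_cast h2.trans h3)
    (ri_X n 0 1 le_rfl hn4') (by push_cast; positivity) (ri_FC w H) h0.exF (hn3 n hn3')
    (hn2 n hn2' p1 0 1 (Ya n) (Yb n) h0.p1p (Or.inl rfl) (ri_Ya n))
  refine le_trans (le_of_eq ?_) key
  refine sum_congr rfl fun d _ => ?_
  have e1 : (sI 0 1 (Ya n) (Yb n)).S = Ioc (Ya n) (Yb n) := by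
    show (Ioc (Ya n) (Yb n)).filter (fun t => t ≡ 0 [MOD 1]) = _
    rw [filter_true_of_mem]
    intro t _
    exact Nat.modEq_one
  have e2 : VS (Ps w.W p1) R (sI 0 1 (Ya n) (Yb n)).hd (sI 0 1 (Ya n) (Yb n)).Al =
      VaR (Ps w.W p1) R := vs_IR _ _
  rw [e1, e2]
  congr 1
  congr 1
  · refine sum_congr rfl fun t _ => ?_
    show _ = 1 * _
    rw [one_mul]
    rfl
  · congr 2
    show _ = ((Yb n : ℝ) - Ya n) / ((1 : ℕ) : ℝ)
    rw [Nat.cast_one, div_one]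

/-- Proof. `rIR` with `k = 1`, `A0 = 10`, `R = Rb N H`, `T q = {N % q}`, `P' = Pg N w.W H`, `hr = gq` (`pre_hrt`, `Pre.to0`, `inT_iff`, `prod_gq`). -/
theorem rI (K cF : ℕ) (hK : 1 ≤ K) : ∃ B0 : ℕ, ∀ B : ℕ, B0 ≤ B → ∀ θ : ℝ, 0 < θ →
    θ ≤ 1 / 100 → ∃ n0 : ℕ, ∀ N : ℕ, n0 ≤ N → ∀ (w : Par K) (H : Finset ℕ) (p1 : ℕ),
    Pre B cF θ w H N p1 → ∑ d ∈ Dv (Pg N w.W H) (Lv N θ),
    |∑ t ∈ (Ioc (Ya N) (Yb N)).filter (fun t => d ∣ N - t), Fs w H N p1 none t -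
      Xi w H N p1 / (Nat.totient d : ℝ)| ≤ N / Real.log N ^ 10 := by
  obtain ⟨B0, hB0⟩ := rIR K 1 cF 10 hK le_rfl
  refine ⟨B0, fun B hB θ hθ hθ' => ?_⟩
  obtain ⟨n0, hn0⟩ := hB0 B hB θ hθ hθ'
  refine ⟨n0, fun N hN w H p1 hp => ?_⟩
  have h1 := hn0 N hN w H p1 (Rb N H) (fun q => {N % q}) (Pg N w.W H) hp.to0
    (pre_hrt B cF θ w H N p1 hp) H59C.gq ?_ ?_ ?_
  · refine le_trans (le_of_eq ?_) h1
    refine sum_congr rfl fun d hd => ?_
    have hsq : Squarefree d := by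
      unfold Dv at hd
      exact (mem_filter.1 hd).2.1
    have e1 : (Ioc (Ya N) (Yb N)).filter (fun t => d ∣ N - t) =
        (Ioc (Ya N) (Yb N)).filter (fun t => inT (fun q => {N % q}) d t) := by
      refine filter_congr fun t ht => ?_
      rw [mem_Ioc] at ht
      exact (inT_iff N d t hsq (ht.2.trans (ri_Yb N))).symm
    rw [e1]
    congr 1
    congr 1
    have e2 : ∏ q ∈ d.primeFactors, (((({N % q} : Finset ℕ).card : ℕ) : ℝ) * H59C.gq q) =
        1 / (Nat.totient d : ℝ) := by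
      rw [← prod_gq d hsq]
      refine prod_congr rfl fun q _ => ?_
      rw [card_singleton, Nat.cast_one, one_mul]
    rw [e2, mul_one_div]
    rfl
  · intro q hq
    unfold H59C.gq
    have : (2 : ℝ) ≤ q := by exact_mod_cast hq.two_le
    have h2 : (0 : ℝ) ≤ (q : ℝ) - 1 := by linarith
    positivity
  · intro q hq
    unfold H59C.gq
    have : (2 : ℝ) ≤ q := by exact_mod_cast hq.two_le
    rw [div_le_div_iff₀ (by linarith) (by linarith)]
    linarith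
  · intro q hq _
    unfold H59C.gq
    have h2 : (2 : ℝ) ≤ q := by exact_mod_cast hq.two_le
    have h3 : 1 / ((q : ℝ) - 1) - 1 / q = 1 / (((q : ℝ) - 1) * q) := by
      have : (q : ℝ) - 1 ≠ 0 := by linarith
      have : (q : ℝ) ≠ 0 := by linarith
      field_simp
      ring
    have h4 : (0 : ℝ) < ((q : ℝ) - 1) * q := by nlinarith
    rw [h3, abs_of_nonneg (by positivity), div_le_div_iff₀ h4 (by positivity)]
    nlinarith

end Pool.Agent.Lib.H57C
end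

-- from Lib.H57C.RJ
section

/-!
# Chunk RJ: the remainder terms for the integers in one class modulo `p1`, with the additional class `-h`
-/

open Finset

namespace Pool.Agent.Lib.H57C

open Pool.Agent.Lib.H57M

theorem rj_cls {q c h : ℕ} (hq : 0 < q) (hc : c < q) : q ∣ c + h ↔ c = (q - h % q) % q := by
  constructor
  · intro hd
    exact (RA_res hc hd).symm
  · intro h2
    have h3 : (q - h % q) % q ≡ q - h % q [MOD q] := Nat.mod_modEq _ _
    have h4 : h % q ≡ h [MOD q] := Nat.mod_modEq _ _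
    have h5 : (q - h % q) % q + h % q ≡ (q - h % q) + h % q [MOD q] := h3.add_right _
    have h6 : (q - h % q) % q + h ≡ (q - h % q) % q + h % q [MOD q] := (h4.symm).add_left _
    have h7 : (q - h % q) + h % q = q := Nat.sub_add_cancel (Nat.mod_lt _ hq).le
    rw [h7] at h5
    have h8 : c + h ≡ q [MOD q] := by
      rw [h2]
      exact h6.trans h5
    exact (Nat.modEq_zero_iff_dvd.1 (h8.trans (Nat.modEq_zero_iff_dvd.2 (dvd_refl q))))

theorem rj_card {K k W p1 : ℕ} {H : Finset ℕ} {R T : ℕ → Finset ℕ} {P' : Finset ℕ}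
    (h1 : HRT K k W p1 H R T P') {h q : ℕ} (hh : h ∈ H) (hq : q ∈ P') :
    (Tp T h q).card = (T q).card + 1 := by
  classical
  have hq0 := (h1.P'p q hq).1.pos
  have hlt : (q - h % q) % q < q := Nat.mod_lt _ hq0
  have h2 : Tp T h q = insert ((q - h % q) % q) (T q) := by
    unfold Tp
    ext c
    rw [mem_filter, mem_range, mem_insert]
    constructor
    · rintro ⟨hc, h3 | h3⟩
      · exact Or.inr h3
      · exact Or.inl ((rj_cls hq0 hc).1 h3)
    · rintro (h3 | h3)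
      · rw [h3]
        exact ⟨hlt, Or.inr ((rj_cls hq0 hlt).2 rfl)⟩
      · have h4 := h1.Tr q hq h3
        rw [mem_range] at h4
        exact ⟨h4, Or.inl h3⟩
  rw [h2, card_insert_of_notMem]
  intro hmem
  exact h1.TH q hq _ hmem h hh ((rj_cls hq0 hlt).2 rfl)

/-- Proof. `mta` with `k` replaced by `K + k + 1`, for the sequence `sI c0 p1 (Ya n) (Yb n)` (`lvlI`), `i = some h`, the target classes
`Tp T h q` (exactly `#T q + 1` elements for `q ∈ P'`, since the class `-h` is not in `T q` by `TH`), `b = 0`, `hr q = 1/q`.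
`Hy.TH`: for `h' ≠ h`: `HRT.TH`, and `q ∤ h - h'` as `|h - h'| ≤ W < q`. `VS = VaR`. -/
theorem rJR (K k cF A0 : ℕ) (hK : 1 ≤ K) (hk : 1 ≤ k) : ∃ B0 : ℕ, ∀ B : ℕ, B0 ≤ B → ∀ θ : ℝ,
    0 < θ → θ ≤ 1 / 100 → ∃ n0 : ℕ, ∀ n : ℕ, n0 ≤ n → ∀ (w : Par K) (H : Finset ℕ) (p1 : ℕ)
    (R T : ℕ → Finset ℕ) (P' : Finset ℕ), Pre0 B cF θ w H n p1 → HRT K k w.W p1 H R T P' →
    ∀ h ∈ H, ∀ c0 : ℕ, ∑ d ∈ Dv P' (Lv n θ),
    |∑ t ∈ (Ioc (Ya n) (Yb n)).filter (fun t => t ≡ c0 [MOD p1] ∧ inT (Tp T h) d t),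
        FF w H (some h) t * Sg (Ps w.W p1) R t -
      ((Yb n : ℝ) - Ya n) / p1 * (AE w.P H (some h) (FC w H) * VaR (Ps w.W p1) R) *
        ∏ q ∈ d.primeFactors, ((((T q).card : ℝ) + 1) * (1 / (q : ℝ)))| ≤
      n / Real.log n ^ A0 := by
  obtain ⟨A, B0, hB0⟩ := mta K (K + k + 1) cF A0 hK (by omega)
  refine ⟨B0, fun B hB θ hθ hθ' => ?_⟩
  obtain ⟨n1, hn1⟩ := hB0 B hB θ hθ hθ'
  obtain ⟨n2, hn2⟩ := lvlI A (K * 3 + 2 * (K + k + 1))
  obtain ⟨n3, hn3⟩ := ri_lev θ hθ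
  refine ⟨max (max n1 n2) (max n3 3), fun n hn w H p1 R T P' h0 h1 h hh c0 => ?_⟩
  have hn1' : n1 ≤ n := ((le_max_left _ _).trans (le_max_left _ _)).trans hn
  have hn2' : n2 ≤ n := ((le_max_right _ _).trans (le_max_left _ _)).trans hn
  have hn3' : n3 ≤ n := ((le_max_left _ _).trans (le_max_right _ _)).trans hn
  have hn4' : 3 ≤ n := ((le_max_right _ _).trans (le_max_right _ _)).trans hn
  have hn0 : (1 : ℝ) ≤ n := by
    have : 1 ≤ n := by omega
    exact_mod_cast this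
  have hHy := ri_hy h0 h1 c0 p1 (Ya n) (Yb n) (ri_Ya n) (some h)
    (fun h' hh' => by rw [Option.some.injEq] at hh'; rw [← hh']; exact hh) (Tp T h) (K + k + 1)
    (by omega) (fun q _ => filter_subset _ _)
    (fun q hq => by
      rw [rj_card h1 hh hq]
      have := h1.Tk q hq
      omega)
    (fun q hq t ht h' hh' hne hd => by
      unfold Tp at ht
      rw [mem_filter, mem_range] at ht
      obtain ⟨htq, h3 | h3⟩ := ht
      · exact h1.TH q hq t h3 h' hh' hd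
      · have hW := (h1.P'p q hq).2
        have b1 := h0.HW h hh
        have b2 := h0.HW h' hh'
        apply hne
        congr 1
        rcases le_total h h' with hle | hle
        · have h4 : q ∣ h' - h := by
            have := Nat.dvd_sub hd h3
            rwa [Nat.add_sub_add_left] at this
          have := Nat.eq_zero_of_dvd_of_lt h4 (by omega)
          omega
        · have h4 : q ∣ h - h' := by
            have := Nat.dvd_sub h3 hd
            rwa [Nat.add_sub_add_left] at this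
          have := Nat.eq_zero_of_dvd_of_lt h4 (by omega)
          omega)
  have key := hn1 n hn1' (sI c0 p1 (Ya n) (Yb n)) w.P H (some h) w.W p1 R (Tp T h) P' 0
    (fun q => 1 / (q : ℝ)) (FC w H) ⌊Real.sqrt n⌋₊ hHy (fun q _ => by positivity)
    (fun q _ => by
      show 1 / (q : ℝ) ≤ 2 / (q : ℝ)
      gcongr
      norm_num)
    (fun q _ _ => by
      show |1 / (q : ℝ) - 1 / (q : ℝ)| ≤ 2 / (q : ℝ) ^ 2
      rw [sub_self, abs_zero]
      positivity) h0.cardH h0.Wdef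
    (fun p hp => by
      have h2 := h0.PN p hp
      have h3 : (n : ℝ) ^ (1 / 100 : ℝ) ≤ (n : ℝ) ^ (1 : ℝ) :=
        Real.rpow_le_rpow_of_exponent_le hn0 (by norm_num)
      rw [Real.rpow_one] at h3
      exact_mod_cast h2.trans h3)
    (ri_X n c0 p1 h0.p1p.one_le hn4') (by push_cast; positivity) (ri_FC w H) h0.exF (hn3 n hn3')
    (hn2 n hn2' p1 c0 p1 (Ya n) (Yb n) h0.p1p (Or.inr rfl) (ri_Ya n))
  refine le_trans (le_of_eq ?_) key
  refine sum_congr rfl fun d hd => ?_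
  have e1 : (Ioc (Ya n) (Yb n)).filter (fun t => t ≡ c0 [MOD p1] ∧ inT (Tp T h) d t) =
      (sI c0 p1 (Ya n) (Yb n)).S.filter (fun j => inT (Tp T h) d
        ((sI c0 p1 (Ya n) (Yb n)).x j)) := by
    show _ = ((Ioc (Ya n) (Yb n)).filter (fun t => t ≡ c0 [MOD p1])).filter _
    rw [filter_filter]
    rfl
  have e2 : VS (Ps w.W p1) R (sI c0 p1 (Ya n) (Yb n)).hd (sI c0 p1 (Ya n) (Yb n)).Al =
      VaR (Ps w.W p1) R := vs_IR _ _
  rw [e1, e2]
  congr 1
  congr 1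
  · refine sum_congr rfl fun t _ => ?_
    show _ = 1 * _
    rw [one_mul]
    rfl
  · congr 1
    refine prod_congr rfl fun q hq => ?_
    have hqP : q ∈ P' := by
      unfold Dv at hd
      exact (mem_filter.1 hd).2.2 q hq
    rw [rj_card h1 hh hqP, Nat.cast_add, Nat.cast_one]

/-- Proof. `rJR` with `k = 1`, `A0 = 10`, `R = Rb N H`, `T q = {N % q}`, `P' = Pg N w.W H`, `c0 = N` (`pre_hrt`, `Pre.to0`). `inT (Tp T h) d t` iff
`∀ q ∈ d.primeFactors, q ∣ N - t ∨ q ∣ t + h` (`t ≤ N`). `∏_{q ∣ d} (2/q) = 2^ω(d)/d`. -/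
theorem rJ (K cF : ℕ) (hK : 1 ≤ K) : ∃ B0 : ℕ, ∀ B : ℕ, B0 ≤ B → ∀ θ : ℝ, 0 < θ →
    θ ≤ 1 / 100 → ∃ n0 : ℕ, ∀ N : ℕ, n0 ≤ N → ∀ (w : Par K) (H : Finset ℕ) (p1 : ℕ),
    Pre B cF θ w H N p1 → ∀ h ∈ H, ∑ d ∈ Dv (Pg N w.W H) (Lv N θ),
    |∑ t ∈ (Ioc (Ya N) (Yb N)).filter
        (fun t => t ≡ N [MOD p1] ∧ ∀ q ∈ d.primeFactors, q ∣ N - t ∨ q ∣ t + h),
        Fs w H N p1 (some h) t -
      ((Yb N : ℝ) - Ya N) / p1 * (AE w.P H (some h) (FC w H) * Va N w.W p1 H) *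
        ((2 : ℝ) ^ d.primeFactors.card / d)| ≤ N / Real.log N ^ 10 := by
  obtain ⟨B0, hB0⟩ := rJR K 1 cF 10 hK le_rfl
  refine ⟨B0, fun B hB θ hθ hθ' => ?_⟩
  obtain ⟨n0, hn0⟩ := hB0 B hB θ hθ hθ'
  refine ⟨n0, fun N hN w H p1 hp h hh => ?_⟩
  have h1 := hn0 N hN w H p1 (Rb N H) (fun q => {N % q}) (Pg N w.W H) hp.to0
    (pre_hrt B cF θ w H N p1 hp) h hh N
  refine le_trans (le_of_eq ?_) h1
  refine sum_congr rfl fun d hd => ?_
  have hsq : Squarefree d := by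
    unfold Dv at hd
    exact (mem_filter.1 hd).2.1
  have e1 : (Ioc (Ya N) (Yb N)).filter
        (fun t => t ≡ N [MOD p1] ∧ ∀ q ∈ d.primeFactors, q ∣ N - t ∨ q ∣ t + h) =
      (Ioc (Ya N) (Yb N)).filter
        (fun t => t ≡ N [MOD p1] ∧ inT (Tp (fun q => {N % q}) h) d t) := by
    refine filter_congr fun t ht => ?_
    rw [mem_Ioc] at ht
    have htN : t ≤ N := ht.2.trans (ri_Yb N)
    refine and_congr Iff.rfl ?_
    unfold inT Tp
    refine forall_congr' fun q => forall_congr' fun hq => ?_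
    have hq0 : 0 < q := (Nat.prime_of_mem_primeFactors hq).pos
    rw [mem_filter, mem_range, mem_singleton]
    have a1 : t % q = N % q ↔ q ∣ N - t := Nat.modEq_iff_dvd' htN
    have a2 : q ∣ t % q + h ↔ q ∣ t + h := by
      have : t + h = (t % q + h) + q * (t / q) := by
        have := Nat.mod_add_div t q
        omega
      rw [this]
      exact (Nat.dvd_add_left (Dvd.intro _ rfl)).symm
    rw [a1, a2]
    constructor
    · intro h3
      exact ⟨Nat.mod_lt _ hq0, h3⟩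
    · intro h3
      exact h3.2
  rw [e1]
  congr 1
  congr 1
  have e2 : ∏ q ∈ d.primeFactors, (((((({N % q} : Finset ℕ).card : ℕ) : ℝ)) + 1) *
      (1 / (q : ℝ))) = (2 : ℝ) ^ d.primeFactors.card / d := by
    have e3 : ∀ q ∈ d.primeFactors, ((((({N % q} : Finset ℕ).card : ℕ) : ℝ)) + 1) *
      (1 / (q : ℝ)) = 2 / (q : ℝ) := by
      intro q _
      rw [card_singleton, Nat.cast_one]
      ring
    rw [prod_congr rfl e3, prod_div_distrib, prod_const]
    congr 1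
    have h4 := Nat.prod_primeFactors_of_squarefree hsq
    have h5 : ((∏ q ∈ d.primeFactors, q : ℕ) : ℝ) = (d : ℝ) := by rw [h4]
    rw [← h5]
    push_cast
    rfl
  rw [e2]
  rfl

end Pool.Agent.Lib.H57C
end

-- from Lib.H57C.RC
section

/-!
# Chunk RC: the remainder terms for the switched sequence
-/

open Finset

namespace Pool.Agent.Lib.H57C

open Pool.Agent.Lib.H57M

/-- The target class `-h`. -/
def rc_T (h q : ℕ) : Finset ℕ := (range q).filter (fun c => q ∣ c + h)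

theorem rc_mod {q h t : ℕ} : q ∣ t % q + h ↔ q ∣ t + h := by
  rw [Nat.dvd_iff_mod_eq_zero, Nat.dvd_iff_mod_eq_zero, Nat.add_mod t h, Nat.add_mod (t % q) h, Nat.mod_mod]

theorem rc_T_mem {h q t : ℕ} (hq : 0 < q) : t % q ∈ rc_T h q ↔ q ∣ t + h := by
  unfold rc_T
  rw [mem_filter, mem_range, rc_mod]
  exact ⟨fun h => h.2, fun h => ⟨Nat.mod_lt _ hq, h⟩⟩

theorem rc_T_card {h q : ℕ} (hq : 0 < q) : (rc_T h q).card = 1 := by
  rw [Finset.card_eq_one]
  refine ⟨(q - h % q) % q, ?_⟩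
  ext c
  unfold rc_T
  rw [mem_filter, mem_range, mem_singleton]
  constructor
  · rintro ⟨h1, h2⟩
    exact (a2_cls hq h1).1 h2
  · intro h1
    have hlt : c < q := by rw [h1]; exact Nat.mod_lt _ hq
    exact ⟨hlt, (a2_cls hq hlt).2 h1⟩

theorem rc_inT (d t h : ℕ) (hd : Squarefree d) : inT (rc_T h) d t ↔ d ∣ t + h := by
  unfold inT
  constructor
  · intro h1
    rw [← Nat.prod_primeFactors_of_squarefree hd]
    refine Finset.prod_primes_dvd _ (fun p hp => (Nat.prime_of_mem_primeFactors hp).prime) fun p hp => ?_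
    exact (rc_T_mem (Nat.prime_of_mem_primeFactors hp).pos).1 (h1 p hp)
  · intro h1 q hq
    exact (rc_T_mem (Nat.prime_of_mem_primeFactors hq).pos).2 ((Nat.dvd_of_mem_primeFactors hq).trans h1)

/-- the density `1/(q-1)` -/
theorem rc_gq (q : ℕ) (hq : q.Prime) : 0 ≤ H59C.gq q ∧ H59C.gq q ≤ 2 / q ∧
    |H59C.gq q - 1 / q| ≤ 2 / (q : ℝ) ^ 2 := by
  have hq2 : (2 : ℝ) ≤ q := by exact_mod_cast hq.two_le
  have h1 : (0 : ℝ) < (q : ℝ) - 1 := by linarith
  have h0 : (0 : ℝ) < q := by linarith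
  unfold H59C.gq
  refine ⟨by positivity, ?_, ?_⟩
  · rw [div_le_div_iff₀ h1 h0]; linarith
  · have h2 : 1 / ((q : ℝ) - 1) - 1 / q = 1 / (((q : ℝ) - 1) * q) := by
      field_simp
      ring
    rw [h2, abs_of_nonneg (by positivity), div_le_div_iff₀ (by positivity) (by positivity)]
    nlinarith

/-- sizes for large `N` -/
theorem rc_large (K B B1 : ℕ) (θ : ℝ) (hθ : 0 < θ) (hθ1 : θ ≤ 1 / 100) : ∃ n0 : ℕ, ∀ N : ℕ, n0 ≤ N →
    2 ≤ N ∧ 8 * (N : ℝ) * Real.log (8 * N) ≤ N * Real.log N ^ 2 ∧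
    (K : ℝ) * (Real.log (2 * N) / Real.log 2) ≤ Real.log N ^ 2 ∧
    (N : ℝ) ^ (1 / 2 - θ) ≤ (H59C.DD N B1 : ℕ) ∧ (⌈Real.log N ^ B⌉₊ : ℝ) < (N : ℝ) ^ (1 / 10 : ℝ) := by
  have hev : ∀ᶠ x : ℝ in Filter.atTop, 2 ≤ x ∧ 8 * x * Real.log (8 * x) ≤ x * Real.log x ^ 2 ∧
      (K : ℝ) * (Real.log (2 * x) / Real.log 2) ≤ Real.log x ^ 2 ∧
      x ^ (1 / 2 - θ) + 1 ≤ Real.sqrt x / Real.log x ^ B1 ∧ Real.log x ^ B + 1 < x ^ (1 / 10 : ℝ) := by
    have hlog : Filter.Tendsto Real.log Filter.atTop Filter.atTop := Real.tendsto_log_atTop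
    have e1 : ∀ᶠ x : ℝ in Filter.atTop, 16 ≤ Real.log x := hlog.eventually_ge_atTop 16
    have e2 : ∀ᶠ x : ℝ in Filter.atTop, 2 * (K : ℝ) / Real.log 2 ≤ Real.log x := hlog.eventually_ge_atTop _
    have e3 := (isLittleO_log_rpow_rpow_atTop (s := θ / 2) (B1 : ℝ) (by positivity)).def
      (show (0 : ℝ) < 1 by norm_num)
    have e4 := (isLittleO_log_rpow_rpow_atTop (s := (1 / 10 : ℝ)) (B : ℝ) (by norm_num)).def
      (show (0 : ℝ) < 1 / 2 by norm_num)
    have e5 : ∀ᶠ x : ℝ in Filter.atTop, (2 : ℝ) ≤ x ^ (θ / 2) :=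
      (tendsto_rpow_atTop (by positivity)).eventually_ge_atTop 2
    have e6 : ∀ᶠ x : ℝ in Filter.atTop, (4 : ℝ) ≤ x ^ (1 / 10 : ℝ) :=
      (tendsto_rpow_atTop (by norm_num)).eventually_ge_atTop 4
    filter_upwards [e1, e2, e3, e4, e5, e6, Filter.eventually_ge_atTop (8 : ℝ)] with x h1 h2 h3 h4 h5 h6 h7
    have hx0 : 0 < x := by linarith
    have hl0 : 0 < Real.log x := by linarith
    have hl2 : 0 < Real.log 2 := Real.log_pos (by norm_num)
    refine ⟨by linarith, ?_, ?_, ?_, ?_⟩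
    · have h8 : Real.log (8 * x) ≤ 2 * Real.log x := by
        rw [Real.log_mul (by norm_num) hx0.ne']
        have := Real.log_le_log (by norm_num) h7
        linarith
      have h9 : 8 * Real.log (8 * x) ≤ Real.log x ^ 2 := by nlinarith
      have := mul_le_mul_of_nonneg_left h9 hx0.le
      linarith
    · have h8 : Real.log (2 * x) ≤ 2 * Real.log x := by
        rw [Real.log_mul (by norm_num) hx0.ne']
        have := Real.log_le_log (by norm_num) (show (2 : ℝ) ≤ x by linarith)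
        linarith
      have h9 : (K : ℝ) * (Real.log (2 * x) / Real.log 2) ≤ (2 * (K : ℝ) / Real.log 2) * Real.log x := by
        have h10 : (K : ℝ) * (Real.log (2 * x) / Real.log 2) ≤ K * (2 * Real.log x / Real.log 2) :=
          mul_le_mul_of_nonneg_left (div_le_div_of_nonneg_right h8 hl2.le) (Nat.cast_nonneg K)
        refine h10.trans (le_of_eq ?_)
        ring
      refine h9.trans ?_
      have := mul_le_mul_of_nonneg_right h2 hl0.le
      rw [sq]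
      exact this
    · rw [Real.norm_eq_abs, Real.norm_eq_abs, Real.rpow_natCast, abs_of_nonneg (by positivity),
        abs_of_nonneg (by positivity), one_mul] at h3
      rw [le_div_iff₀ (by positivity)]
      have hs : Real.sqrt x = x ^ (1 / 2 - θ) * x ^ (θ / 2) * x ^ (θ / 2) := by
        rw [Real.sqrt_eq_rpow, ← Real.rpow_add hx0, ← Real.rpow_add hx0]
        congr 1
        ring
      have h8 : (x ^ (1 / 2 - θ) + 1) ≤ x ^ (1 / 2 - θ) * x ^ (θ / 2) := by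
        have h9 : 1 ≤ x ^ (1 / 2 - θ) := Real.one_le_rpow (by linarith) (by linarith)
        nlinarith
      rw [hs]
      exact mul_le_mul h8 h3 (by positivity) (by positivity)
    · rw [Real.norm_eq_abs, Real.norm_eq_abs, Real.rpow_natCast, abs_of_nonneg (by positivity),
        abs_of_nonneg (by positivity)] at h4
      linarith
  obtain ⟨n0, hn0⟩ := Filter.eventually_atTop.1 (tendsto_natCast_atTop_atTop.eventually hev)
  refine ⟨n0, fun N hN => ?_⟩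
  obtain ⟨h1, h2, h3, h4, h5⟩ := hn0 N hN
  refine ⟨by exact_mod_cast h1, h2, h3, ?_, ?_⟩
  · unfold H59C.DD
    have := Nat.lt_floor_add_one (Real.sqrt N / Real.log N ^ B1)
    linarith
  · have := Nat.ceil_lt_add_one (show 0 ≤ Real.log N ^ B by
      have : (1 : ℝ) ≤ N := by linarith
      have := Real.log_nonneg this
      positivity)
    linarith

/-- number of prime factors -/
theorem rc_omega (n : ℕ) (hn : n ≠ 0) : (n.primeFactors.card : ℝ) ≤ Real.log n / Real.log 2 := by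
  have hl2 : 0 < Real.log 2 := Real.log_pos (by norm_num)
  rw [le_div_iff₀ hl2]
  have h1 : 2 ^ n.primeFactors.card ≤ n := by
    calc 2 ^ n.primeFactors.card = ∏ _p ∈ n.primeFactors, 2 := by rw [Finset.prod_const]
      _ ≤ ∏ p ∈ n.primeFactors, p :=
          Finset.prod_le_prod' fun p hp => (Nat.prime_of_mem_primeFactors hp).two_le
      _ ≤ n := Nat.le_of_dvd (Nat.pos_of_ne_zero hn) (Nat.prod_primeFactors_dvd n)
  have h2 : ((2 : ℝ)) ^ n.primeFactors.card ≤ n := by exact_mod_cast h1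
  have h3 := Real.log_le_log (by positivity) h2
  rwa [Real.log_pow] at h3

theorem rc_bad (N K : ℕ) (P H : Finset ℕ) (Q : ℕ → Prop) [DecidablePred Q] (hP : ∀ p ∈ P, p.Prime) (hH : H.card = K)
    (hN : 1 ≤ N) (hHN : ∀ h ∈ H, h ≤ N) (hQ : ∀ p ∈ P, Q p → ∃ h ∈ H, p ∣ N + h) :
    ((P.filter Q).card : ℝ) ≤ (K : ℝ) * (Real.log (2 * N) / Real.log 2) := by
  have hl2 : 0 < Real.log 2 := Real.log_pos (by norm_num)
  have hsub : P.filter Q ⊆ H.biUnion (fun h => (N + h).primeFactors) := by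
    intro p hp
    rw [mem_filter] at hp
    obtain ⟨h, hh, hd⟩ := hQ p hp.1 hp.2
    rw [mem_biUnion]
    exact ⟨h, hh, Nat.mem_primeFactors.2 ⟨hP p hp.1, hd, by omega⟩⟩
  have h1 : ((P.filter Q).card : ℝ) ≤ ∑ h ∈ H, ((N + h).primeFactors.card : ℝ) := by
    exact_mod_cast (Finset.card_le_card hsub).trans Finset.card_biUnion_le
  refine h1.trans ?_
  have hN1 : (1 : ℝ) ≤ N := by exact_mod_cast hN
  calc ∑ h ∈ H, ((N + h).primeFactors.card : ℝ) ≤ ∑ _h ∈ H, Real.log (2 * N) / Real.log 2 := by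
        refine Finset.sum_le_sum fun h hh => (rc_omega (N + h) (by omega)).trans ?_
        refine div_le_div_of_nonneg_right (Real.log_le_log (by positivity) ?_) hl2.le
        have : (h : ℝ) ≤ N := by exact_mod_cast hHN h hh
        push_cast
        linarith
    _ = (K : ℝ) * (Real.log (2 * N) / Real.log 2) := by rw [Finset.sum_const, nsmul_eq_mul, hH]

theorem rc_XB (N M u v : ℕ) (α : ℕ → ℝ) (hα : ∀ m, 0 ≤ α m ∧ α m ≤ 1) (hM : 1 ≤ M) (huv : u ≤ v) (hv : 1 ≤ v)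
    (hMv : M * v ≤ 8 * N) : 0 ≤ H59C.XB M u v α ∧ H59C.XB M u v α ≤ 8 * (N : ℝ) * Real.log (8 * N) := by
  have hx0 := H59C.CBR_XX_nonneg u v
  have hx1 := H59C.CBR_XX_le u v huv
  have hs0 : 0 ≤ ∑ m ∈ Icc 1 M, α m := Finset.sum_nonneg fun m _ => (hα m).1
  have hs1 : ∑ m ∈ Icc 1 M, α m ≤ M := by
    calc ∑ m ∈ Icc 1 M, α m ≤ ∑ _m ∈ Icc 1 M, (1 : ℝ) := Finset.sum_le_sum fun m _ => (hα m).2
      _ = M := by simp
  have hv1 : (1 : ℝ) ≤ v := by exact_mod_cast hv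
  have hM1 : (1 : ℝ) ≤ M := by exact_mod_cast hM
  have hMv' : (M : ℝ) * v ≤ 8 * N := by exact_mod_cast hMv
  have hlv : 0 ≤ Real.log v := Real.log_nonneg hv1
  have hv8 : (v : ℝ) ≤ 8 * N := by nlinarith
  have hl : Real.log v ≤ Real.log (8 * N) := Real.log_le_log (by linarith) hv8
  unfold H59C.XB
  refine ⟨mul_nonneg hs0 hx0, ?_⟩
  calc (∑ m ∈ Icc 1 M, α m) * H59C.XX u v ≤ (M : ℝ) * (v * Real.log v) :=
        mul_le_mul hs1 hx1 hx0 (by linarith)
    _ = (M * v) * Real.log v := by ring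
    _ ≤ (8 * N) * Real.log (8 * N) := mul_le_mul hMv' hl hlv (by positivity)

theorem rc_nev {N M u v q : ℕ} {α : ℕ → ℝ} {x : ℕ × ℕ} (hx : x ∈ H59C.BX M u v)
    (hw : H59C.wB α x ≠ 0) (hα : ∀ m, α m ≠ 0 → ∀ r : ℕ, r.Prime → r ∣ m → (N : ℝ) ^ (1 / 10 : ℝ) ≤ r)
    (hu : (N : ℝ) ^ (1 / 4 : ℝ) ≤ u) (hN : 2 ≤ N) (hq : q.Prime) (hqN : (q : ℝ) < (N : ℝ) ^ (1 / 10 : ℝ)) :
    ¬ xv N x ≡ N [MOD q] := by
  intro hc
  have hN1 : (1 : ℝ) ≤ N := by exact_mod_cast (by omega : 1 ≤ N)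
  have hqN' : (q : ℝ) ≤ N := hqN.le.trans (by
    calc (N : ℝ) ^ (1 / 10 : ℝ) ≤ (N : ℝ) ^ (1 : ℝ) := Real.rpow_le_rpow_of_exponent_le hN1 (by norm_num)
      _ = N := Real.rpow_one _)
  have hqN2 : q ≤ N := by exact_mod_cast hqN'
  have hfac : q ∣ N.factorial := Nat.dvd_factorial hq.pos hqN2
  have hfp : 0 < N.factorial := Nat.factorial_pos N
  have h1 : q ∣ (N.factorial - 1) * (x.1 * x.2) := by
    have h2 := (Nat.modEq_iff_dvd' (show N ≤ xv N x by unfold xv; omega)).1 hc.symm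
    unfold xv at h2
    rwa [Nat.add_sub_cancel_left] at h2
  have h3 : ¬ q ∣ N.factorial - 1 := by
    intro h4
    have h5 : q ∣ 1 := by
      have h6 := Nat.dvd_sub hfac h4
      have h7 : N.factorial - (N.factorial - 1) = 1 := by omega
      rwa [h7] at h6
    exact hq.one_lt.ne' (Nat.dvd_one.1 h5)
  have h4 : q ∣ x.1 * x.2 := (hq.dvd_mul.1 h1).resolve_left h3
  have hα0 : α x.1 ≠ 0 := by
    intro h5
    apply hw
    unfold H59C.wB
    rw [h5, zero_mul]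
  unfold H59C.BX at hx
  rw [mem_product, H59C.mem_Sq] at hx
  rcases hq.dvd_mul.1 h4 with h5 | h5
  · exact absurd (hα _ hα0 q hq h5) (not_le.2 hqN)
  · have h6 : q = x.2 := (Nat.prime_dvd_prime_iff_eq hq hx.2.2).1 h5
    have h7 : u < q := by rw [h6]; exact hx.2.1.1
    have h8 : (u : ℝ) < q := by exact_mod_cast h7
    have h9 : (N : ℝ) ^ (1 / 10 : ℝ) ≤ (N : ℝ) ^ (1 / 4 : ℝ) :=
      Real.rpow_le_rpow_of_exponent_le hN1 (by norm_num)
    linarith

open Classical in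
/-- Proof. `mta` with `k = K + 2`, `A0 = 10`, for the sequence `sC N M u v α` (with `lvlC`), `i = some h`, `P = w.P`, `F = FC w H`, `R = Rb N H`,
`T q = {c < q : q ∣ c + h}` (one element), `P' = Pg N W H`, `hr = gq`, `b` = the number of primes `> W` dividing some `N + h'`:
at most `K log (2N)/log 2 ≤ log^2 N`. The hypotheses `Hy`:
* `nev`: if `xv N x ≡ N [MOD q]`, `q ≤ N^(1/100)` a prime (`q ∣ N!`), then `q ∣ x1 x2`; `wt ≠ 0` implies `α x1 ≠ 0`, so the prime factors of `x1` are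
  `≥ N^(1/10)`, and `x2` is a prime `> u ≥ N^(1/4)`: impossible.
* `TA`: `q ∣ t + h` and `t ≡ N` imply `q ∣ N + h`. `TH`: `q ∣ t + h`, `q ∣ t + h'`, `|h - h'| ≤ W < q`.
* `R1`: the class of `N` is not allowed, so `#.. ≤ q - 1`... (`#Rb < q`).
* `XB ≤ 8 N log (8 N) ≤ N log^2 N`, `XB ≥ 0`.
`remd` has the additional condition `q < z` and `d ≤ Lv N θ` (floor of a cast), a subset of `Dv` (`sum_le_sum_of_subset_of_nonneg`);
`d ∣ xv N x + h` iff `inT T d (xv N x)` for squarefree `d`; `VS = Vb` (`vs_C`). -/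
theorem rC (K cF : ℕ) (hK : 1 ≤ K) : ∃ A' B0 : ℕ, ∀ B : ℕ, B0 ≤ B → ∀ θ : ℝ, 0 < θ →
    θ ≤ 1 / 100 → ∃ n0 : ℕ, ∀ N : ℕ, n0 ≤ N → ∀ (w : Par K) (H : Finset ℕ) (p1 : ℕ),
    Pre B cF θ w H N p1 → H59C.SWp A' N p1 → ∀ h ∈ H, ∀ (M u v : ℕ) (α : ℕ → ℝ),
    (∀ m, 0 ≤ α m ∧ α m ≤ 1) →
    (∀ m, α m ≠ 0 → ∀ r : ℕ, r.Prime → r ∣ m → (N : ℝ) ^ (1 / 10 : ℝ) ≤ r) →
    (N : ℝ) ^ (1 / 4 : ℝ) ≤ M → (N : ℝ) ^ (1 / 4 : ℝ) ≤ u → u ≤ v → M * v ≤ 8 * N → ∀ z : ℝ,
    H59C.remd (H59C.BX M u v) (fun x => H59C.wB α x * Fs w H N p1 (some h) (xv N x))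
      (fun x => xv N x + h) (Pg N w.W H) z
      (H59C.XB M u v α * (AE w.P H (some h) (FC w H) * Vb N w.W p1 H)) (Lv N θ) ≤
      N / Real.log N ^ 10 := by
  obtain ⟨A, B0, hm⟩ := mta K (K + 2) cF 10 hK (by omega)
  obtain ⟨A', B1, nC, hC⟩ := lvlC A (K * 3 + 2 * (K + 2))
  refine ⟨A', B0, fun B hB θ hθ hθ1 => ?_⟩
  obtain ⟨nM, hM⟩ := hm B hB θ hθ hθ1
  obtain ⟨nL, hL⟩ := rc_large K B B1 θ hθ hθ1
  refine ⟨max nC (max nM nL), fun N hN w H p1 hpre hSW h hh M u v α hα hα2 hMN hu huv hMv z => ?_⟩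
  have hNC : nC ≤ N := le_trans (le_max_left _ _) hN
  have hNM : nM ≤ N := le_trans (le_trans (le_max_left _ _) (le_max_right _ _)) hN
  have hNL : nL ≤ N := le_trans (le_trans (le_max_right _ _) (le_max_right _ _)) hN
  obtain ⟨hN2, hX, hbb, hD, hW10⟩ := hL N hNL
  have hN1 : (1 : ℝ) ≤ N := by exact_mod_cast (by omega : 1 ≤ N)
  have huv' : (u : ℝ) ≤ v := by exact_mod_cast huv
  have hv4 : (N : ℝ) ^ (1 / 4 : ℝ) ≤ v := hu.trans huv'
  have h14 : 1 ≤ (N : ℝ) ^ (1 / 4 : ℝ) := Real.one_le_rpow hN1 (by norm_num)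
  have hM1 : 1 ≤ M := by exact_mod_cast h14.trans hMN
  have hv1 : 1 ≤ v := by exact_mod_cast h14.trans hv4
  obtain ⟨hX0, hX1⟩ := rc_XB N M u v α hα hM1 huv hv1 hMv
  have hWr : (w.W : ℝ) < (N : ℝ) ^ (1 / 10 : ℝ) := by rw [hpre.Wdef]; exact hW10
  have h10N : (N : ℝ) ^ (1 / 10 : ℝ) ≤ N := by
    calc (N : ℝ) ^ (1 / 10 : ℝ) ≤ (N : ℝ) ^ (1 : ℝ) := Real.rpow_le_rpow_of_exponent_le hN1 (by norm_num)
      _ = N := Real.rpow_one _
  have hWN : w.W ≤ N := by exact_mod_cast (hWr.le.trans h10N)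
  have hPN : ∀ p ∈ w.P, (p : ℝ) < (N : ℝ) ^ (1 / 10 : ℝ) := by
    intro p hp
    refine (hpre.PN p hp).trans_lt ?_
    exact Real.rpow_lt_rpow_of_exponent_lt (by exact_mod_cast (by omega : 1 < N)) (by norm_num)
  have hHN : ∀ h ∈ H, h ≤ N := fun h hh => (hpre.HW h hh).trans hWN
  have hPg : ∀ q ∈ Pg N w.W H, q.Prime ∧ w.W < q ∧ ∀ h ∈ H, ¬ q ∣ N + h := by
    intro q hq
    unfold Pg at hq
    rw [mem_filter, mem_Ioc] at hq
    exact ⟨hq.2.1, hq.1.1, hq.2.2⟩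
  have hPs : ∀ q ∈ Ps w.W p1, q.Prime := fun q hq => a2_Ps hq
  obtain ⟨b, hbdef⟩ : ∃ b : ℕ, b = (w.P.filter (fun p => ∃ h' ∈ H, some h ≠ some h' ∧
      ∃ c : ℕ, p ∣ c + h' ∧ ¬ (sC N M u v α).Al p c)).card := ⟨_, rfl⟩
  have hb2 : (b : ℝ) ≤ Real.log N ^ 2 := by
    rw [hbdef]
    refine (rc_bad N K w.P H _ w.prime hpre.cardH (by omega) hHN ?_).trans hbb
    rintro p _ ⟨h', hh', _, c, hc1, hc2⟩
    refine ⟨h', hh', ?_⟩
    have hc3 : c ≡ N [MOD p] := not_not.1 hc2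
    exact (Nat.ModEq.dvd_iff (hc3.add_right h') dvd_rfl).1 hc1
  have hy : Hy (sC N M u v α) w.P H (some h) w.W p1 (Rb N H) (rc_T h) (Pg N w.W H) (K + 2) b := by
    refine ⟨?_, hX0, ?_, ?_, fun q hq => (rc_gq q hq).1, fun q hq => (rc_gq q hq).2.1,
      fun q hq _ => (rc_gq q hq).2.2, fun p hp => ⟨w.prime p hp, w.big p hp⟩, hpre.p1p, hpre.p1W,
      hpre.HW, ?_, fun q => a2_Rb, ?_, ?_, fun q hq => ⟨(hPg q hq).1, (hPg q hq).2.1⟩, ?_, ?_, ?_, ?_, ?_⟩
    · rintro ⟨x1, x2⟩ _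
      exact mul_nonneg (hα x1).1 (Real.log_natCast_nonneg x2)
    · intro q c c' hcc
      exact not_congr ⟨fun h1 => hcc.symm.trans h1, fun h1 => hcc.trans h1⟩
    · intro x hx hwx q hq hq2
      refine rc_nev hx hwx hα2 hu hN2 hq ?_
      rcases hq2 with h1 | ⟨h1, _⟩
      · exact hPN q h1
      · exact lt_of_le_of_lt (by exact_mod_cast h1) hWr
    · intro h' hh'
      exact Option.some_injective _ hh' ▸ hh
    · intro q hq
      have h1 := rb_card N H q (hPs q hq)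
      rw [hpre.cardH] at h1
      omega
    · intro q hq
      have hqp := hPs q hq
      have hq2 : (2 : ℝ) ≤ q := by exact_mod_cast hqp.two_le
      have h1 : ((Rb N H q).filter (fun c => (sC N M u v α).Al q c)).card ≤ q - 1 := by
        have h2 := hpre.nf q hqp
        have h3 := Finset.card_filter_le (Rb N H q) (fun c => (sC N M u v α).Al q c)
        omega
      have h4 : (((Rb N H q).filter (fun c => (sC N M u v α).Al q c)).card : ℝ) ≤ (q : ℝ) - 1 := by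
        have h5 : (((Rb N H q).filter (fun c => (sC N M u v α).Al q c)).card : ℝ) ≤ ((q - 1 : ℕ) : ℝ) := by
          exact_mod_cast h1
        rwa [Nat.cast_sub hqp.one_le, Nat.cast_one] at h5
      have h5 : (sC N M u v α).hd q = 1 / ((q : ℝ) - 1) := rfl
      rw [h5, mul_one_div, div_le_one (by linarith)]
      exact h4
    · intro q hq
      exact Finset.filter_subset _ _
    · intro q hq
      rw [rc_T_card (hPg q hq).1.pos]
      omega
    · intro q hq t ht htN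
      unfold rc_T at ht
      rw [mem_filter] at ht
      exact (hPg q hq).2.2 h hh ((Nat.ModEq.dvd_iff (htN.add_right h) dvd_rfl).1 ht.2)
    · intro q hq t ht h' hh' hne hd
      unfold rc_T at ht
      rw [mem_filter] at ht
      have hne' : h ≠ h' := fun h1 => hne (by rw [h1])
      have h1 : t + h ≡ t + h' [MOD q] := by
        rw [Nat.modEq_iff_dvd]
        exact dvd_sub (Int.natCast_dvd_natCast.2 hd) (Int.natCast_dvd_natCast.2 ht.2)
      have h2 : h ≡ h' [MOD q] := Nat.ModEq.add_left_cancel' t h1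
      have hW1 := hpre.HW h hh
      have hW2 := hpre.HW h' hh'
      have hWq := (hPg q hq).2.1
      exact hne' (Nat.ModEq.eq_of_lt_of_lt h2 (by omega) (by omega))
    · exact le_of_eq hbdef.symm
  have hz : 0 ≤ w.z := by
    unfold Par.z
    have : 0 ≤ ∑ i, H15P.ex (H15P.qq w.P K) (fun A => w.D i A ^ 2) :=
      Finset.sum_nonneg fun i _ => H15P.ex_nonneg _ w.good.q0 w.good.q1 _ fun A => sq_nonneg _
    linarith
  have hF0 : ∀ S, 0 ≤ FC w H S := by
    intro S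
    unfold FC
    exact div_nonneg (sq_nonneg _) (pow_nonneg hz _)
  have hlvl := hC N hNC p1 hpre.p1p hSW M u v α hα hα2 hMN hv4 huv hMv
  have hmain := hM N hNM (sC N M u v α) w.P H (some h) w.W p1 (Rb N H) (rc_T h) (Pg N w.W H) b H59C.gq
    (FC w H) (H59C.DD N B1) hy (fun q hq => (rc_gq q hq).1) (fun q hq => (rc_gq q hq).2.1)
    (fun q hq _ => (rc_gq q hq).2.2) hpre.cardH hpre.Wdef
    (fun p hp => by exact_mod_cast ((hPN p hp).le.trans h10N)) (hX1.trans hX) hb2 hF0 hpre.exF hD hlvl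
  refine le_trans ?_ hmain
  have hVS : VS (Ps w.W p1) (Rb N H) (sC N M u v α).hd (sC N M u v α).Al = Vb N w.W p1 H := vs_C N w.W p1 H
  rw [hVS]
  unfold H59C.remd Dv
  rw [Nat.floor_natCast]
  refine (Finset.sum_le_sum fun d hd => le_of_eq ?_).trans (Finset.sum_le_sum_of_subset_of_nonneg ?_ fun d _ _ => abs_nonneg _)
  · rw [mem_filter] at hd
    have hsq := hd.2.1
    have h1 : ∏ q ∈ d.primeFactors, (((rc_T h q).card : ℝ) * H59C.gq q) = 1 / (Nat.totient d : ℝ) := by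
      rw [← prod_gq d hsq]
      refine Finset.prod_congr rfl fun q hq => ?_
      rw [rc_T_card (Nat.prime_of_mem_primeFactors hq).pos]
      push_cast
      ring
    rw [h1]
    congr 1
    have h2 : (H59C.BX M u v).filter (fun x => d ∣ xv N x + h) =
        (sC N M u v α).S.filter (fun j => inT (rc_T h) d ((sC N M u v α).x j)) := by
      refine Finset.filter_congr fun x _ => ?_
      exact (rc_inT d (xv N x) h hsq).symm
    have h3 : ∑ x ∈ (H59C.BX M u v).filter (fun x => d ∣ xv N x + h),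
        H59C.wB α x * Fs w H N p1 (some h) (xv N x) =
        ∑ j ∈ (sC N M u v α).S.filter (fun j => inT (rc_T h) d ((sC N M u v α).x j)),
          (sC N M u v α).wt j * (FC w H (cfg w.P H (some h) ((sC N M u v α).x j)) *
            Sg (Ps w.W p1) (Rb N H) ((sC N M u v α).x j)) := by
      rw [h2]
      rfl
    have h4 : H59C.XB M u v α * (AE w.P H (some h) (FC w H) * Vb N w.W p1 H) / (Nat.totient d : ℝ) =
        (sC N M u v α).X * (AE w.P H (some h) (FC w H) * Vb N w.W p1 H) * (1 / (Nat.totient d : ℝ)) := by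
      rw [mul_one_div]
      rfl
    rw [← h4, ← h3]
  · intro d hd
    rw [mem_filter] at hd ⊢
    exact ⟨hd.1, hd.2.1, fun q hq => (hd.2.2 q hq).1⟩

end Pool.Agent.Lib.H57C
end

-- from Lib.H57T.V4
section

/-!
# Chunk V4: level of distribution of the switched sequence
-/

open Finset

namespace Pool.Agent.Lib.H57T

open Pool.Agent.Lib.H57C


open Pool.Agent.Lib.H59C
theorem V4_iff (n a0 m : ℕ) (hm1 : 1 ≤ m) (hmn : m ≤ n) (x : ℕ × ℕ) (c : ℕ) :
    xv n a0 x ≡ c [MOD m] ↔ x.1 * x.2 ≡ c + a0 [MOD m] := by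
  rw [← ZMod.natCast_eq_natCast_iff, ← ZMod.natCast_eq_natCast_iff]
  unfold xv
  rw [Nat.cast_add, Nat.cast_mul (n.factorial - 1), V4_cast n m hm1 hmn, Nat.cast_add c]
  constructor
  · intro h
    linear_combination h
  · intro h
    linear_combination h

open Classical in
theorem V4_S (n a0 M u v m c a : ℕ) (α : ℕ → ℝ)
    (h : ∀ x : ℕ × ℕ, xv n a0 x ≡ c [MOD m] ↔ x.1 * x.2 ≡ a [MOD m]) :
    ∑ x ∈ (BX M u v).filter (fun x => xv n a0 x ≡ c [MOD m]), wB α x =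
      ∑ k ∈ Icc 1 M, α k * ∑ q ∈ (Ioc u v).filter (fun q => q.Prime ∧ k * q ≡ a [MOD m]),
        Real.log q := by
  unfold BX
  rw [sum_filter, sum_product]
  refine sum_congr rfl fun k _ => ?_
  unfold Sq wB lg
  rw [mul_sum, ← filter_filter, sum_filter (s := (Ioc u v).filter Nat.Prime)]
  refine sum_congr rfl fun q _ => ?_
  by_cases hq : k * q ≡ a [MOD m]
  · rw [if_pos hq, if_pos ((h (k, q)).2 hq)]
  · rw [if_neg hq, if_neg (fun h' => hq ((h (k, q)).1 h'))]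

/-- Proof. `bilw (A + 1) E`. Let `m ≤ DD n B` be squarefree (so `m ≤ n`, `m ∣ n!`), `c` a class with `¬ c ≡ n [MOD q]` for all
`q ∣ m`. `xv n x = n + (n! - 1) x1 x2 ≡ c` mod `m` iff `x1 x2 ≡ a`, `a = n + (n! - 1) c` (both sides times `-1 ≡ n! - 1`), and `a` is prime
to `m` (`a ≡ n - c`). So the sum over the class is the sum of `bilw` (`CBR_S`-like), and the main terms
`XB M u v α/φ(m)` and `(1/φ(m)) (∑_{(m',m)=1} α)(∑_{(q,m)=1} log q)` differ by at most `(1/φ(m)) 40 (log n)^2 n^(9/10)`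
(`CBR_A`, `CBR_Q`, `CBR_main`, `CBR_num` in `H59C/CBR.lean`, with `y = n^(1/10)`). So `rr m = rr_bil m + 40 L^2 n^(9/10)/φ(m)`,
and `∑_{m ≤ n} E^ω(m)/φ(m) ≤ n^(1/100)` for large `n` (as in V1, or `E^ω(m) ≤ C m^(1/1000)`). -/
theorem lvlC (A E : ℕ) : ∃ A' B n0 : ℕ, ∀ n : ℕ, n0 ≤ n → ∀ p1 : ℕ, p1.Prime → SWp A' n p1 →
    ∀ (a0 M u v : ℕ) (α : ℕ → ℝ), (∀ m, 0 ≤ α m ∧ α m ≤ 1) →
    (∀ m, α m ≠ 0 → ∀ r : ℕ, r.Prime → r ∣ m → (n : ℝ) ^ (1 / 10 : ℝ) ≤ r) →
    (n : ℝ) ^ (1 / 4 : ℝ) ≤ M → (n : ℝ) ^ (1 / 4 : ℝ) ≤ v → u ≤ v → M * v ≤ 8 * n →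
      Lvl (sC n a0 M u v α) p1 (DD n B) E (n / Real.log n ^ A) := by
  obtain ⟨A', B, n1, hbil⟩ := bilw (A + 1) E
  obtain ⟨n2, hn2⟩ := bv2_large 500 (A + 4 * E + 6)
  refine ⟨A', B, max n1 (max n2 8), fun n hn p1 hp1 hSW a0 M u v α hα hαr hM hv huv hMv => ?_⟩
  have hn1' : n1 ≤ n := (le_max_left _ _).trans hn
  have hn2' : n2 ≤ n := ((le_max_left _ _).trans (le_max_right _ _)).trans hn
  have hn8 : 8 ≤ n := ((le_max_right _ _).trans (le_max_right _ _)).trans hn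
  obtain ⟨hL, hLn⟩ := hn2 n hn2'
  have hn1 : (1 : ℝ) ≤ n := by
    have : 1 ≤ n := by omega
    exact_mod_cast this
  have hn0 : (0 : ℝ) < n := by linarith
  obtain ⟨rb, hrb0, hrb, hrbs⟩ := hbil n hn1' p1 hSW M u v α (fun m => by
    rw [abs_of_nonneg (hα m).1]; exact (hα m).2) hM hv huv hMv
  set D := DD n B with hD
  set L := Real.log n with hLdef
  have hL0 : 0 < L := by linarith
  have hDn : D ≤ n := by
    have h1 : (D : ℝ) ≤ Real.sqrt n / L ^ B := by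
      rw [hD]
      unfold DD
      exact Nat.floor_le (by positivity)
    have h2 : Real.sqrt n / L ^ B ≤ Real.sqrt n :=
      div_le_self (Real.sqrt_nonneg _) (one_le_pow₀ (by linarith))
    have h3 : Real.sqrt n ≤ n := by
      rw [Real.sqrt_le_left (by linarith)]
      nlinarith
    have h4 : (D : ℝ) ≤ n := by linarith
    exact_mod_cast h4
  set W : ℝ := 40 * L ^ 2 * ((n : ℝ) / (n : ℝ) ^ (1 / 10 : ℝ)) with hW
  have hW0 : 0 ≤ W := by positivity
  refine ⟨fun m => rb m + 1 / (Nat.totient m : ℝ) * W, fun m => add_nonneg (hrb0 m)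
    (by positivity), ?_, ?_⟩
  · intro m hm hmD hpm c hc
    have hd1 : 1 ≤ m := Nat.pos_of_ne_zero hm.ne_zero
    have hmn : m ≤ n := hmD.trans hDn
    obtain ⟨a, ha⟩ : ∃ a : ℕ, a = c + a0 := ⟨_, rfl⟩
    have ha1 : ∀ x : ℕ × ℕ, xv n a0 x ≡ c [MOD m] ↔ x.1 * x.2 ≡ a [MOD m] := by
      intro x
      rw [ha]
      exact V4_iff n a0 m hd1 hmn x c
    have hcop : a.Coprime m := by
      rw [ha]
      exact V3_coprime _ _ hm.ne_zero hc
    have hb := hrb m hd1 hmD hpm a hcop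
    have hph : (0 : ℝ) < Nat.totient m := by exact_mod_cast Nat.totient_pos.2 hd1
    have hAd0 : 0 ≤ ∑ k ∈ (Icc 1 M).filter (fun k => k.Coprime m), α k :=
      sum_nonneg fun k _ => (hα k).1
    have hAdM : ∑ k ∈ (Icc 1 M).filter (fun k => k.Coprime m), α k ≤ M := by
      refine (sum_le_sum fun k _ => (hα k).2).trans ?_
      rw [sum_const, nsmul_eq_mul, mul_one]
      have : ((Icc 1 M).filter (fun k => k.Coprime m)).card ≤ M := by
        refine (card_filter_le _ _).trans ?_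
        simp
      exact_mod_cast this
    have hAA : 0 ≤ ∑ k ∈ Icc 1 M, α k - ∑ k ∈ (Icc 1 M).filter (fun k => k.Coprime m), α k := by
      rw [sub_nonneg]
      exact sum_le_sum_of_subset_of_nonneg (filter_subset _ _) fun k _ _ => (hα k).1
    have hAA' := CBR_A M m hd1 α hα ((n : ℝ) ^ (1 / 10 : ℝ)) (Real.rpow_pos_of_pos hn0 _) hαr
    obtain ⟨hQ1, hQ2⟩ := CBR_Q u v m hd1
    have hmain := CBR_main hAA (by convert hAA' using 2) (CBR_XX_nonneg u v)
      (by convert hQ1 using 2) (by convert hQ2 using 2) hAd0 hAdM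
    have hnum := CBR_num hn8 (by linarith) hd1 hmn hv hMv u huv
    have hm2 := hmain.trans hnum
    have hS : ∑ x ∈ (sC n a0 M u v α).S.filter (fun x => (sC n a0 M u v α).x x ≡ c [MOD m]),
        (sC n a0 M u v α).wt x = ∑ k ∈ Icc 1 M, α k *
          ∑ q ∈ (Ioc u v).filter (fun q => q.Prime ∧ k * q ≡ a [MOD m]), Real.log q := by
      have h := V4_S n a0 M u v m c a α ha1
      change ∑ x ∈ (BX M u v).filter (fun x => xv n a0 x ≡ c [MOD m]), wB α x = _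
      convert h using 2
    have hprod : (sC n a0 M u v α).X * ∏ q ∈ m.primeFactors, (sC n a0 M u v α).hd q =
        H59C.XB M u v α / (Nat.totient m : ℝ) := by
      change H59C.XB M u v α * ∏ q ∈ m.primeFactors, gq q = _
      rw [V3_gq m hm]
      ring
    rw [hS, hprod]
    set S := ∑ k ∈ Icc 1 M, α k *
      ∑ q ∈ (Ioc u v).filter (fun q => q.Prime ∧ k * q ≡ a [MOD m]), Real.log q with hSd
    set Ad := ∑ k ∈ (Icc 1 M).filter (fun k => k.Coprime m), α k with hAdd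
    set Qd := ∑ q ∈ (Ioc u v).filter (fun q => q.Prime ∧ q.Coprime m), Real.log q with hQdd
    have e : S - H59C.XB M u v α / (Nat.totient m : ℝ) =
        (S - 1 / (Nat.totient m : ℝ) * (Ad * Qd)) -
        1 / (Nat.totient m : ℝ) * ((∑ k ∈ Icc 1 M, α k) * XX u v - Ad * Qd) := by
      unfold H59C.XB
      ring
    rw [e]
    refine (abs_sub _ _).trans ?_
    apply add_le_add
    · exact hb
    · rw [abs_mul, abs_of_nonneg (by positivity : (0 : ℝ) ≤ 1 / (Nat.totient m : ℝ))]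
      exact mul_le_mul_of_nonneg_left hm2 (by positivity)
  · have e1 : ∑ m ∈ (Icc 1 D).filter (fun m => Squarefree m ∧ ¬ p1 ∣ m),
        (E : ℝ) ^ m.primeFactors.card * (rb m + 1 / (Nat.totient m : ℝ) * W) ≤
        ∑ m ∈ (Icc 1 D).filter (fun m => ¬ p1 ∣ m),
          (E : ℝ) ^ m.primeFactors.card * (rb m + 1 / (Nat.totient m : ℝ) * W) := by
      apply sum_le_sum_of_subset_of_nonneg
      · exact monotone_filter_right _ fun m _ hm => hm.2
      · intro m _ _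
        have := hrb0 m
        positivity
    refine e1.trans ?_
    simp only [mul_add]
    rw [sum_add_distrib]
    have e2 : ∑ m ∈ (Icc 1 D).filter (fun m => ¬ p1 ∣ m),
        (E : ℝ) ^ m.primeFactors.card * (1 / (Nat.totient m : ℝ) * W) ≤
        ((1 + L) * (500 * L) ^ (2 * E)) * W := by
      have h1 : ∀ m ∈ (Icc 1 D).filter (fun m => ¬ p1 ∣ m),
          (E : ℝ) ^ m.primeFactors.card * (1 / (Nat.totient m : ℝ) * W) =
          (E : ℝ) ^ m.primeFactors.card / (Nat.totient m : ℝ) * W := by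
        intro m _
        ring
      rw [sum_congr rfl h1, ← sum_mul]
      apply mul_le_mul_of_nonneg_right _ hW0
      refine le_trans ?_ (V1_w E n (by omega))
      apply sum_le_sum_of_subset_of_nonneg
      · intro m hm
        rw [mem_filter, mem_Icc] at hm
        rw [mem_Icc]
        exact ⟨hm.1.1, hm.1.2.trans hDn⟩
      · intro m _ _
        positivity
    refine (add_le_add hrbs e2).trans ?_
    have h3 : ((1 + L) * (500 * L) ^ (2 * E)) * W ≤ n / L ^ (A + 1) := by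
      have hy0 : (0 : ℝ) < (n : ℝ) ^ (1 / 10 : ℝ) := Real.rpow_pos_of_pos hn0 _
      have h4 : (n : ℝ) ^ (1 / 20 : ℝ) ≤ (n : ℝ) ^ (1 / 10 : ℝ) :=
        Real.rpow_le_rpow_of_exponent_le hn1 (by norm_num)
      have h5 : ((1 + L) * (500 * L) ^ (2 * E)) * (40 * L ^ 2) * L ^ (A + 1) ≤
          (n : ℝ) ^ (1 / 10 : ℝ) := by
        have h6 : (1 + L) * (500 * L) ^ (2 * E) ≤ L ^ 2 * (L ^ 2) ^ (2 * E) := by
          apply mul_le_mul _ _ (by positivity) (by positivity)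
          · nlinarith
          · apply pow_le_pow_left₀ (by positivity)
            nlinarith
        calc ((1 + L) * (500 * L) ^ (2 * E)) * (40 * L ^ 2) * L ^ (A + 1)
            ≤ (L ^ 2 * (L ^ 2) ^ (2 * E)) * (L * L ^ 2) * L ^ (A + 1) := by
              apply mul_le_mul_of_nonneg_right _ (by positivity)
              apply mul_le_mul h6 _ (by positivity) (by positivity)
              apply mul_le_mul_of_nonneg_right _ (by positivity)
              linarith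
          _ = 1 * L ^ (A + 4 * E + 6) := by
              rw [← pow_mul]
              ring
          _ ≤ 500 * L ^ (A + 4 * E + 6) :=
              mul_le_mul_of_nonneg_right (by norm_num) (by positivity)
          _ ≤ _ := hLn.trans h4
      rw [hW, le_div_iff₀ (by positivity)]
      calc (1 + L) * (500 * L) ^ (2 * E) * (40 * L ^ 2 * ((n : ℝ) / (n : ℝ) ^ (1 / 10 : ℝ))) *
            L ^ (A + 1) = (((1 + L) * (500 * L) ^ (2 * E)) * (40 * L ^ 2) * L ^ (A + 1)) *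
              ((n : ℝ) / (n : ℝ) ^ (1 / 10 : ℝ)) := by ring
        _ ≤ (n : ℝ) ^ (1 / 10 : ℝ) * ((n : ℝ) / (n : ℝ) ^ (1 / 10 : ℝ)) :=
            mul_le_mul_of_nonneg_right h5 (by positivity)
        _ = n := by rw [mul_comm, div_mul_cancel₀ _ hy0.ne']
    have e2' : (n : ℝ) / L ^ (A + 1) + n / L ^ (A + 1) = n / L ^ A * (2 / L) := by
      rw [pow_succ]
      field_simp
      ring
    have e3 : 2 / L ≤ 1 := by
      rw [div_le_one hL0]
      linarith
    calc (n : ℝ) / L ^ (A + 1) + ((1 + L) * (500 * L) ^ (2 * E)) * W ≤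
          (n : ℝ) / L ^ (A + 1) + n / L ^ (A + 1) := by linarith
      _ = n / L ^ A * (2 / L) := e2'
      _ ≤ n / L ^ A * 1 := mul_le_mul_of_nonneg_left e3 (by positivity)
      _ = _ := mul_one _

end Pool.Agent.Lib.H57T
end
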