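import Pool.Agent.Lib.H1M.RV3.M006
import Pool.Agent.Lib.H1M.RV3.M042
import Pool.Agent.Lib.H1M.RV3.M068
import Pool.Agent.Lib.H1M.RV3.M070

/-! Merged copies (to shorten the build) of Lib.H24P.P0, Lib.H24P.P2, Lib.H24P.B1, Lib.H24P.B3, Lib.H24P.B4, Lib.H59P.F1, Lib.H59P.F, Lib.H24P.T1, Lib.H59P.M2, Lib.H24P.P1, Lib.H59P.Z1A, Lib.H59P.Z1B, Lib.H59P.Z2A, Lib.H24P.ZDefs. -/

-- from Lib.H24P.P0
section

/-!
# Project H24P, chunk P0 (S/M): bounds (port of H59P/M3A, second half)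
-/

open Finset

namespace Pool.Agent.Lib.H24P

open Pool.Agent.Lib.H68T Pool.Agent.Lib.H18Q Pool.Agent.Lib.H59P

/-- Proof. As `M3a_Ph`: `‖cj‖ ≤ 1`, `0 ≤ uu`. -/
theorem P0_Ph {k : ℕ} (p : Fin k → Ch) (P : Finset ℕ) (hP : ∀ l ∈ P, l.Prime) (m : Fin k → ℤ) :
    ‖Phf p P m‖ ≤ ∏ i, uu P (m i) := by
  unfold Phf
  rw [norm_prod]
  apply Finset.prod_le_prod (fun i _ => norm_nonneg _)
  intro i _
  have h0 := M3a_uu_nonneg P hP (m i)
  rw [norm_mul, Complex.norm_real, Real.norm_of_nonneg h0]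
  have h1 : ‖cj (p i) (m i)‖ ≤ 1 := by
    unfold cj
    rw [RCLike.norm_conj]
    exact DirichletCharacter.norm_le_one _ _
  calc ‖cj (p i) (m i)‖ * uu P (m i) ≤ 1 * uu P (m i) :=
        mul_le_mul_of_nonneg_right h1 h0
    _ = uu P (m i) := one_mul _

/-- Proof. `P0_Ph` and `M3a_uu` (`uu R.primeFactors m ≤ R/φ(R)`). -/
theorem P0_PhR {k : ℕ} (p : Fin k → Ch) (R : ℕ) (hR : 0 < R) (m : Fin k → ℤ) :
    ‖Phf p R.primeFactors m‖ ≤ ((R : ℝ) / (Nat.totient R : ℝ)) ^ k := by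
  refine (P0_Ph p R.primeFactors (fun l hl => Nat.prime_of_mem_primeFactors hl) m).trans ?_
  calc ∏ i, uu R.primeFactors (m i) ≤ ∏ _i : Fin k, ((R : ℝ) / (Nat.totient R : ℝ)) :=
        Finset.prod_le_prod (fun i _ => (M3a_uu R hR _).1) (fun i _ => (M3a_uu R hR _).2)
    _ = ((R : ℝ) / (Nat.totient R : ℝ)) ^ k := by
        rw [Finset.prod_const, Finset.card_univ, Fintype.card_fin]

theorem P0_one {k : ℕ} (l : ℕ) (hl : l.Prime) (m : Fin k → ℤ) : 0 ≤ ∏ i, (1 + gl l (m i)) ∧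
    ∏ i, (1 + gl l (m i)) ≤ ((l : ℝ) / ((l : ℝ) - 1)) ^ k := by
  constructor
  · exact Finset.prod_nonneg fun i _ => (M3a_gl l hl _).1
  · calc ∏ i, (1 + gl l (m i)) ≤ ∏ _i : Fin k, ((l : ℝ) / ((l : ℝ) - 1)) :=
        Finset.prod_le_prod (fun i _ => (M3a_gl l hl _).1) (fun i _ => (M3a_gl l hl _).2)
      _ = ((l : ℝ) / ((l : ℝ) - 1)) ^ k := by
        rw [Finset.prod_const, Finset.card_univ, Fintype.card_fin]

/-- Proof. As `M3a_tp`, `M3a_td`. -/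
theorem P0_W {k : ℕ} (d : ℕ) (hd : Squarefree d) (m : Fin k → ℤ) :
    |Wdf d m| ≤ ((d : ℝ) / (Nat.totient d : ℝ)) ^ k := by
  have hd0 : 0 < d := Nat.pos_of_ne_zero hd.ne_zero
  rw [← M3a_prod d hd0, ← Finset.prod_pow]
  unfold Wdf
  rw [Finset.abs_prod]
  refine Finset.prod_le_prod (fun l _ => abs_nonneg _) (fun l hl => ?_)
  have hl' := Nat.prime_of_mem_primeFactors hl
  have hc : (1 : ℝ) ≤ ((l : ℝ) / ((l : ℝ) - 1)) ^ k := one_le_pow₀ (M3a_ratio l hl')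
  have h := P0_one l hl' m
  unfold Wf
  rw [abs_le]
  constructor <;> linarith [h.1, h.2]

/-- Proof. Mean of products between `0` and `(l/(l-1))^k`. -/
theorem P0_tp {k : ℕ} (l : ℕ) (hl : l.Prime) (φ : Fin k → ℤ → ℤ) :
    0 ≤ 1 + tpf l φ ∧ 1 + tpf l φ ≤ ((l : ℝ) / ((l : ℝ) - 1)) ^ k := by
  have hl0 : (0 : ℝ) < l := by exact_mod_cast hl.pos
  unfold tpf
  rw [add_sub_cancel]
  constructor
  · exact div_nonneg (Finset.sum_nonneg fun n _ => (P0_one l hl fun i => φ i n).1) hl0.le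
  · rw [div_le_iff₀ hl0]
    calc ∑ n ∈ range l, ∏ i, (1 + gl l (φ i n))
        ≤ ∑ _n ∈ range l, ((l : ℝ) / ((l : ℝ) - 1)) ^ k :=
          Finset.sum_le_sum fun n _ => (P0_one l hl fun i => φ i n).2
      _ = ((l : ℝ) / ((l : ℝ) - 1)) ^ k * l := by
        rw [Finset.sum_const, Finset.card_range, nsmul_eq_mul, mul_comm]

/-- Proof. `P0_PhR`, a mean of `R` terms. -/
theorem P0_MR {k : ℕ} (p : Fin k → Ch) (R : ℕ) (hR : 0 < R) (φ : Fin k → ℤ → ℤ) :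
    ‖MRf p R φ‖ ≤ ((R : ℝ) / (Nat.totient R : ℝ)) ^ k := by
  have hR0 : (0 : ℝ) < R := by exact_mod_cast hR
  unfold MRf
  rw [norm_div, Complex.norm_natCast, div_le_iff₀ hR0]
  calc ‖∑ n ∈ range R, Phf p R.primeFactors (at' φ n)‖
      ≤ ∑ _n ∈ range R, ((R : ℝ) / (Nat.totient R : ℝ)) ^ k :=
        norm_sum_le_of_le _ fun n _ => P0_PhR p R hR _
    _ = ((R : ℝ) / (Nat.totient R : ℝ)) ^ k * R := by
      rw [Finset.sum_const, Finset.card_range, nsmul_eq_mul, mul_comm]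

end Pool.Agent.Lib.H24P
end

-- from Lib.H24P.P2
section

/-!
# Project H24P, chunk P2 (S/M): congruence preserving maps, periodicity
-/

open Finset Polynomial

namespace Pool.Agent.Lib.H24P

open Pool.Agent.Lib.H68T Pool.Agent.Lib.H18Q Pool.Agent.Lib.H59P



/-- Proof. `l ∣ N ∣ φ i (n + N) - φ i n`; definition of `gl`. -/
theorem P2_gl {k : ℕ} (φ : Fin k → ℤ → ℤ) (hφ : Cp φ) (l N : ℕ) (hl : l ∣ N) (i : Fin k) (n : ℤ) :
    gl l (φ i (n + N)) = gl l (φ i n) := by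
  have h1 : (l : ℤ) ∣ φ i (n + N) - φ i n := (Int.natCast_dvd_natCast.2 hl).trans (hφ i N n)
  obtain ⟨c, hc⟩ := h1
  have h2 : φ i (n + N) = φ i n + c * l := by linarith
  rw [h2, gl_per]

/-- Proof. `P2_gl`. -/
theorem P2_Wd {k : ℕ} (φ : Fin k → ℤ → ℤ) (hφ : Cp φ) (d N : ℕ) (hd : d ∣ N) (n : ℤ) :
    Wdf d (at' φ (n + N)) = Wdf d (at' φ n) := by
  unfold Wdf
  refine Finset.prod_congr rfl fun l hl => ?_
  unfold Wf
  congr 1
  refine Finset.prod_congr rfl fun i _ => ?_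
  congr 1
  exact P2_gl φ hφ l N ((Nat.dvd_of_mem_primeFactors hl).trans hd) i n

/-- Proof. As `M3f_per`. -/
theorem P2_Ph {k : ℕ} (φ : Fin k → ℤ → ℤ) (hφ : Cp φ) (p : Fin k → Ch) (R N : ℕ) (hN : R ∣ N)
    (hd : ∀ i, (p i).1 ∣ R) (n : ℤ) :
    Phf p R.primeFactors (at' φ (n + N)) = Phf p R.primeFactors (at' φ n) := by
  unfold Phf
  refine Finset.prod_congr rfl fun i _ => ?_
  have h1 : uu R.primeFactors (at' φ (n + N) i) = uu R.primeFactors (at' φ n i) := by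
    unfold uu
    refine Finset.prod_congr rfl fun l hl => ?_
    congr 1
    exact P2_gl φ hφ l N ((Nat.dvd_of_mem_primeFactors hl).trans hN) i n
  have h2 : cj (p i) (at' φ (n + N) i) = cj (p i) (at' φ n i) := by
    unfold cj
    have h3 : ((at' φ (n + N) i : ℤ) : ZMod (p i).1) = ((at' φ n i : ℤ) : ZMod (p i).1) := by
      have h4 : ((p i).1 : ℤ) ∣ φ i (n + N) - φ i n :=
        (Int.natCast_dvd_natCast.2 ((hd i).trans hN)).trans (hφ i N n)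
      have h5 := (ZMod.intCast_zmod_eq_zero_iff_dvd (φ i (n + N) - φ i n) (p i).1).2 h4
      rw [Int.cast_sub] at h5
      exact sub_eq_zero.1 h5
    rw [h3]
  rw [h1, h2]

end Pool.Agent.Lib.H24P
end

-- from Lib.H24P.B1
section

/-!
# Project H24P, chunk B1 (M): the deterministic coordinate, local identities
-/

open Finset Polynomial

namespace Pool.Agent.Lib.H24P

open Pool.Agent.Lib.H68T Pool.Agent.Lib.H18Q Pool.Agent.Lib.H59P

/-- Proof. `gk p κ m = (r/φ(r)) cj p m ∏_{l ∣ κ} gl l m` (`M2a`), `M2c`, `M2b` (`H59P`). -/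
theorem B1_SD (N : ℕ) (hN : 0 < N) (p : Ch) (hd : p.1 ∣ N) (m : ℤ) :
    ∑ κ ∈ SD N p.1, gk p κ m = cj p m * ((uu N.primeFactors m : ℝ) : ℂ) := by
  classical
  have h1 : ∀ κ ∈ SD N p.1, gk p κ m =
      (((p.1 : ℝ) / (Nat.totient p.1 : ℝ) : ℝ) : ℂ) * cj p m * ∏ l ∈ κ.primeFactors, ((gl l m : ℝ) : ℂ) := by
    intro κ hκ
    rw [SD, Finset.mem_filter] at hκ
    unfold gk
    rw [M2a κ hκ.2.1 m, Complex.ofReal_prod]
    rfl
  rw [Finset.sum_congr rfl h1, ← Finset.mul_sum, M2c (fun l => ((gl l m : ℝ) : ℂ)) N p.1 hN, ← M2b N hN p hd m]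
  congr 1
  rw [Complex.ofReal_prod]
  refine Finset.prod_congr rfl fun l _ => ?_
  push_cast
  rfl

/-- The mean of a product of periodic functions over the primes of a set. -/
theorem b1_set (F : ℕ → ℤ → ℝ) (hF : ∀ l : ℕ, ∀ n, F l (n + l) = F l n) (S : Finset ℕ) : (∀ l ∈ S, l.Prime) →
    ∑ n ∈ range (∏ l ∈ S, l), ∏ l ∈ S, F l n = ∏ l ∈ S, ∑ n ∈ range l, F l n := by
  have hper : ∀ (l c : ℕ) (n : ℤ), F l (n + ((c * l : ℕ) : ℤ)) = F l n := by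
    intro l c
    induction c with
    | zero => intro n; simp
    | succ c ih =>
      intro n
      have e : n + (((c + 1) * l : ℕ) : ℤ) = (n + ((c * l : ℕ) : ℤ)) + l := by push_cast; ring
      rw [e, hF, ih]
  induction S using Finset.induction_on with
  | empty => intro _; simp
  | insert a s ha ih =>
    intro hS
    have hap : a.Prime := hS a (Finset.mem_insert_self _ _)
    have hs : ∀ l ∈ s, l.Prime := fun l hl => hS l (Finset.mem_insert_of_mem hl)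
    have hcop : Nat.Coprime a (∏ l ∈ s, l) := by
      apply Nat.Coprime.prod_right
      intro l hl
      rw [Nat.coprime_primes hap (hs l hl)]
      rintro rfl
      exact ha hl
    have hpos : 0 < ∏ l ∈ s, l := Finset.prod_pos fun l hl => (hs l hl).pos
    have key := M3d (fun n => ((F a n : ℝ) : ℂ)) (fun n => ((∏ l ∈ s, F l n : ℝ) : ℂ)) a
      (∏ l ∈ s, l) hap.pos hpos hcop
      (fun m => by
        show ((F a (m + a) : ℝ) : ℂ) = ((F a m : ℝ) : ℂ)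
        rw [hF])
      (fun m => by
        show ((∏ l ∈ s, F l (m + ((∏ l ∈ s, l : ℕ) : ℤ)) : ℝ) : ℂ) = ((∏ l ∈ s, F l m : ℝ) : ℂ)
        congr 1
        refine Finset.prod_congr rfl fun l hl => ?_
        obtain ⟨c, hc⟩ := Finset.dvd_prod_of_mem (fun l => l) hl
        have e : (∏ l ∈ s, l : ℕ) = c * l := by
          rw [mul_comm]
          exact hc
        rw [e, hper])
    have key' : ∑ n ∈ range (a * ∏ l ∈ s, l), F a n * ∏ l ∈ s, F l n =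
        (∑ n ∈ range a, F a n) * ∑ n ∈ range (∏ l ∈ s, l), ∏ l ∈ s, F l n := by
      have : ((∑ n ∈ range (a * ∏ l ∈ s, l), F a n * ∏ l ∈ s, F l n : ℝ) : ℂ) =
          (((∑ n ∈ range a, F a n) * ∑ n ∈ range (∏ l ∈ s, l), ∏ l ∈ s, F l n : ℝ) : ℂ) := by
        rw [Complex.ofReal_sum, Complex.ofReal_mul, Complex.ofReal_sum, Complex.ofReal_sum]
        rw [← key]
        apply Finset.sum_congr rfl
        intro n _
        rw [Complex.ofReal_mul]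
      exact_mod_cast this
    rw [Finset.prod_insert ha, Finset.prod_insert ha]
    have e1 : ∑ n ∈ range (a * ∏ l ∈ s, l), ∏ l ∈ insert a s, F l n =
        ∑ n ∈ range (a * ∏ l ∈ s, l), F a n * ∏ l ∈ s, F l n := by
      apply Finset.sum_congr rfl
      intro n _
      rw [Finset.prod_insert ha]
    rw [e1, key', ih hs]

/-- The values of a linear polynomial run through all classes. -/
theorem b1_lin (l : ℕ) (hl : l.Prime) (a b : ℤ) (ha : ¬ (l : ℤ) ∣ a) :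
    ∑ n ∈ range l, (1 + gl l (b + a * (n : ℤ))) = l := by
  classical
  have hl1 : (1 : ℝ) < l := by exact_mod_cast hl.one_lt
  have hlp : Prime (l : ℤ) := Nat.prime_iff_prime_int.1 hl
  have hl0 : (0 : ℤ) < l := by exact_mod_cast hl.pos
  have hcop : IsCoprime (l : ℤ) a := (Int.isCoprime_iff_gcd_eq_one).2 (by
    rw [← Int.isCoprime_iff_gcd_eq_one]
    exact (Prime.coprime_iff_not_dvd hlp).2 ha)
  obtain ⟨u, c, huc⟩ := hcop
  -- the solution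
  obtain ⟨n0, hn0⟩ : ∃ n0 : ℕ, ((n0 : ℕ) : ℤ) = (-b * c) % l :=
    ⟨((-b * c) % l).toNat, Int.toNat_of_nonneg (Int.emod_nonneg _ hl0.ne')⟩
  have hn0l : n0 < l := by
    have := Int.emod_lt_of_pos (-b * c) hl0
    omega
  have hdiv0 : (l : ℤ) ∣ b + a * (n0 : ℤ) := by
    obtain ⟨t, ht⟩ : ∃ t : ℤ, (n0 : ℤ) = -b * c - l * t := ⟨(-b * c) / l, by
      rw [hn0]
      have := Int.emod_add_mul_ediv (-b * c) l
      linarith⟩
    refine ⟨b * u - a * t, ?_⟩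
    rw [ht]
    linear_combination (-b) * huc
  have hfil : (range l).filter (fun n : ℕ => (l : ℤ) ∣ b + a * (n : ℤ)) = {n0} := by
    ext n
    rw [Finset.mem_filter, Finset.mem_range, Finset.mem_singleton]
    constructor
    · rintro ⟨h1, h2⟩
      have h3 : (l : ℤ) ∣ a * ((n : ℤ) - n0) := by
        have := dvd_sub h2 hdiv0
        have e : b + a * (n : ℤ) - (b + a * (n0 : ℤ)) = a * ((n : ℤ) - n0) := by ring
        rwa [e] at this
      rcases hlp.dvd_or_dvd h3 with h4 | h4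
      · exact absurd h4 ha
      · obtain ⟨t, ht⟩ := h4
        have h5 : t = 0 := by
          by_contra h6
          rcases lt_or_gt_of_ne h6 with h7 | h7
          · have : (l : ℤ) * t ≤ -l := by nlinarith
            omega
          · have : (l : ℤ) ≤ l * t := by nlinarith
            omega
        rw [h5, mul_zero] at ht
        omega
    · rintro rfl
      exact ⟨hn0l, hdiv0⟩
  have e1 : ∀ n ∈ range l, (1 + gl l (b + a * (n : ℤ))) =
      (l : ℝ) / (l - 1) - if (l : ℤ) ∣ b + a * (n : ℤ) then (l : ℝ) / (l - 1) else 0 := by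
    intro n _
    unfold gl
    split_ifs
    · ring
    · have : (l : ℝ) - 1 ≠ 0 := by linarith
      field_simp
      ring
  rw [Finset.sum_congr rfl e1, Finset.sum_sub_distrib, ← Finset.sum_filter, hfil, Finset.sum_singleton,
    Finset.sum_const, Finset.card_range, nsmul_eq_mul]
  have : (l : ℝ) - 1 ≠ 0 := by linarith
  field_simp


end Pool.Agent.Lib.H24P
end

-- from Lib.H24P.B3
section

/-!
# Project H24P, chunk B3 (M): components have mean zero in progressions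
-/

open Finset Polynomial

namespace Pool.Agent.Lib.H24P

open Pool.Agent.Lib.H68T Pool.Agent.Lib.H18Q Pool.Agent.Lib.H59P

theorem b3_perZ (G : ℤ → ℂ) (q : ℤ) (hG : ∀ t, G (t + q) = G t) (j : ℤ) (t : ℤ) :
    G (t + q * j) = G t := by
  induction j using Int.induction_on with
  | zero => simp
  | succ i ih =>
    rw [← ih, ← hG (t + q * i)]
    congr 1
    ring
  | pred i ih =>
    rw [← ih, ← hG (t + q * (-(i : ℤ) - 1))]
    congr 1
    ring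

/-- the sum over a period does not depend on the starting point -/
theorem b3_shift (G : ℤ → ℂ) (q : ℕ) (hq : 0 < q) (hG : ∀ t, G (t + q) = G t) (c : ℤ) :
    ∑ t ∈ range q, G ((t : ℤ) + c) = ∑ t ∈ range q, G (t : ℤ) := by
  have h0 : (0 : ℤ) < q := by exact_mod_cast hq
  have h1 : 0 ≤ c % (q : ℤ) := Int.emod_nonneg _ h0.ne'
  obtain ⟨a, ha⟩ := Int.eq_ofNat_of_zero_le h1
  have h2 : ∀ t ∈ range q, G ((t : ℤ) + c) = G ((a : ℤ) + t) := by
    intro t _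
    have h3 := Int.emod_add_mul_ediv c (q : ℤ)
    have h4 : (t : ℤ) + c = ((a : ℤ) + t) + q * (c / q) := by
      rw [← ha]
      linarith
    rw [h4, b3_perZ G q hG]
  rw [sum_congr rfl h2]
  exact m3c_start G q hG a

/-- Proof. Let `q = r κ`, `g = gcd(N, q)`, a proper divisor of `q`; let `l` be a prime dividing `q/g`. Then `g` divides
`q' = q/l`, so `q' ≡ s N` modulo `q` for some integer `s ≥ 0`. `F = gk p κ` has period `q` (`gk_period`), so the sum over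
`t` of `F(m + t N)` over a complete system of residues modulo `q` is invariant under `t ↦ t + j s`, and so
`l ∑_t F(m + t N) = ∑_t ∑_{j<l} F(m + t N + j q') = 0` by `gk_prim` (`H18Q/CA.lean`). -/
theorem B3_zero (Q : ℕ) (p : Ch) (hp : p ∈ PC Q) (κ : ℕ) (hκ : κ ∈ KS Q p.1) (N : ℤ)
    (hN : ¬ ((p.1 * κ : ℕ) : ℤ) ∣ N) (m : ℤ) :
    ∑ t ∈ range (p.1 * κ), gk p κ (m + (t : ℤ) * N) = 0 := by
  obtain ⟨hr1, hrQ, -⟩ := mem_PC.1 hp
  obtain ⟨⟨hk1, -⟩, -, -⟩ := CA_mem_KS.1 hκ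
  have hq : 0 < p.1 * κ := Nat.mul_pos hr1 hk1
  have hgz : ((Int.gcd N ((p.1 * κ : ℕ) : ℤ) : ℕ) : ℤ) =
      N * Int.gcdA N ((p.1 * κ : ℕ) : ℤ) + ((p.1 * κ : ℕ) : ℤ) * Int.gcdB N ((p.1 * κ : ℕ) : ℤ) :=
    Int.gcd_eq_gcd_ab _ _
  have hgN : ((Int.gcd N ((p.1 * κ : ℕ) : ℤ) : ℕ) : ℤ) ∣ N := Int.gcd_dvd_left _ _
  have hgq : ((Int.gcd N ((p.1 * κ : ℕ) : ℤ) : ℕ) : ℤ) ∣ ((p.1 * κ : ℕ) : ℤ) := Int.gcd_dvd_right _ _
  generalize Int.gcd N ((p.1 * κ : ℕ) : ℤ) = g at hgz hgN hgq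
  generalize Int.gcdA N ((p.1 * κ : ℕ) : ℤ) = x at hgz
  generalize Int.gcdB N ((p.1 * κ : ℕ) : ℤ) = y at hgz
  have hgq' : g ∣ p.1 * κ := by exact_mod_cast hgq
  obtain ⟨c, hc⟩ := hgq'
  have hc1 : c ≠ 1 := by
    intro h
    rw [h, mul_one] at hc
    rw [hc] at hN
    exact hN hgN
  obtain ⟨l, hl, hlc⟩ := Nat.exists_prime_and_dvd hc1
  obtain ⟨c', hc'⟩ := hlc
  have hlq : l ∣ p.1 * κ := ⟨g * c', by rw [hc, hc']; ring⟩
  have hdiv : p.1 * κ / l = g * c' := by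
    rw [hc, hc']
    have : g * (l * c') = l * (g * c') := by ring
    rw [this, Nat.mul_div_cancel_left _ hl.pos]
  have hprim := gk_prim Q p hp κ hκ l hl hlq
  rw [hdiv] at hprim
  have hper := gk_period p κ
  -- G t = F(m + t N)
  have hGper : ∀ t : ℤ, gk p κ (m + (t + ((p.1 * κ : ℕ) : ℤ)) * N) = gk p κ (m + t * N) := by
    intro t
    have : m + (t + ((p.1 * κ : ℕ) : ℤ)) * N = (m + t * N) + ((p.1 * κ : ℕ) : ℤ) * N := by ring
    rw [this, hper]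
  have hsh := fun c0 : ℤ => b3_shift (fun t : ℤ => gk p κ (m + t * N)) (p.1 * κ) hq hGper c0
  have h1 : ∑ j ∈ range l, ∑ t ∈ range (p.1 * κ), gk p κ (m + ((t : ℤ) + (j : ℤ) * (x * c')) * N) =
      (l : ℂ) * ∑ t ∈ range (p.1 * κ), gk p κ (m + (t : ℤ) * N) := by
    have hh : ∀ j ∈ range l,
        ∑ t ∈ range (p.1 * κ), gk p κ (m + ((t : ℤ) + (j : ℤ) * (x * c')) * N) =
        ∑ t ∈ range (p.1 * κ), gk p κ (m + (t : ℤ) * N) := fun j _ => hsh ((j : ℤ) * (x * c'))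
    rw [sum_congr rfl hh, sum_const, card_range, nsmul_eq_mul]
  have h2 : ∑ j ∈ range l, ∑ t ∈ range (p.1 * κ), gk p κ (m + ((t : ℤ) + (j : ℤ) * (x * c')) * N) = 0 := by
    rw [sum_comm]
    refine sum_eq_zero fun t _ => ?_
    rw [← hprim (m + (t : ℤ) * N)]
    refine sum_congr rfl fun j _ => ?_
    have h3 : m + ((t : ℤ) + (j : ℤ) * (x * c')) * N =
        (m + (t : ℤ) * N + (j : ℤ) * ((g * c' : ℕ) : ℤ)) +
          ((p.1 * κ : ℕ) : ℤ) * (-((j : ℤ) * c' * y)) := by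
      rw [Nat.cast_mul g c', hgz]
      ring
    rw [h3, hper]
  rw [h2] at h1
  have hl0 : (l : ℂ) ≠ 0 := by exact_mod_cast hl.ne_zero
  exact (mul_eq_zero.1 h1.symm).resolve_left hl0

/-- the sum over `q N` consecutive numbers -/
theorem b3_blocks (f : ℕ → ℂ) (q N : ℕ) :
    ∑ n ∈ range (q * N), f n = ∑ t ∈ range q, ∑ v ∈ range N, f (t * N + v) := by
  induction q with
  | zero => simp
  | succ q ih =>
    rw [Nat.succ_mul, sum_range_add, ih, sum_range_succ]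

/-- Proof. `n = v + t N`, `v < N`, `t < q = r κ`, `B(v + t N) = B(v) + t a N` (`B` linear), `ψ(v + t N) = ψ(v)`;
`B3_zero` for `a N`. So the sum over the period `q N` vanishes; `M3c` (`H59P/M3C.lean`; `‖gk‖ ≤ Q`: `gk_bound`). -/
theorem B3_int (Q : ℕ) (p : Ch) (hp : p ∈ PC Q) (κ : ℕ) (hκ : κ ∈ KS Q p.1) (B : ℤ[X])
    (hB : B.natDegree = 1) (N : ℕ) (hN : 0 < N) (ψ : ℤ → ℂ) (hψ : ∀ n, ψ (n + N) = ψ n) (Φ : ℝ)
    (hΦ : ∀ n, ‖ψ n‖ ≤ Φ) (hn : ¬ ((p.1 * κ : ℕ) : ℤ) ∣ B.leadingCoeff * N) (a H : ℕ) :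
    ‖∑ n ∈ Ico a (a + H), gk p κ (B.eval (n : ℤ)) * ψ n‖ ≤ 2 * (Q * N) * (Q * Φ) := by
  obtain ⟨hr1, hrQ, -⟩ := mem_PC.1 hp
  obtain ⟨⟨hk1, hk2⟩, -, -⟩ := CA_mem_KS.1 hκ
  have hq : 0 < p.1 * κ := Nat.mul_pos hr1 hk1
  have hqQ : p.1 * κ ≤ Q := (Nat.mul_le_mul_left _ hk2).trans (Nat.mul_div_le _ _)
  have hΦ0 : 0 ≤ Φ := le_trans (norm_nonneg _) (hΦ 0)
  have hev : ∀ z w : ℤ, B.eval (z + w) = B.eval z + w * B.leadingCoeff := by
    intro z w
    have h1 : ∀ u : ℤ, B.eval u = B.coeff 0 + B.leadingCoeff * u := by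
      intro u
      rw [eval_eq_sum_range, hB, sum_range_succ, sum_range_one, leadingCoeff, hB]
      simp
    rw [h1, h1]
    ring
  have hper := gk_period p κ
  have hf : ∀ n : ℤ, gk p κ (B.eval (n + ((p.1 * κ * N : ℕ) : ℤ))) * ψ (n + ((p.1 * κ * N : ℕ) : ℤ)) =
      gk p κ (B.eval n) * ψ n := by
    intro n
    have h1 : gk p κ (B.eval (n + ((p.1 * κ * N : ℕ) : ℤ))) = gk p κ (B.eval n) := by
      rw [hev]
      have : B.eval n + ((p.1 * κ * N : ℕ) : ℤ) * B.leadingCoeff =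
          B.eval n + ((p.1 * κ : ℕ) : ℤ) * (N * B.leadingCoeff) := by
        push_cast
        ring
      rw [this, hper]
    have h2 : ψ (n + ((p.1 * κ * N : ℕ) : ℤ)) = ψ n := by
      have := b3_perZ ψ N hψ ((p.1 * κ : ℕ) : ℤ) n
      rw [← this]
      congr 1
      push_cast
      ring
    rw [h1, h2]
  have hbd : ∀ n : ℤ, ‖gk p κ (B.eval n) * ψ n‖ ≤ Q * Φ := by
    intro n
    rw [norm_mul]
    exact mul_le_mul (gk_bound Q p hp κ hκ _) (hΦ n) (norm_nonneg _) (Nat.cast_nonneg _)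
  have hP : 0 < p.1 * κ * N := Nat.mul_pos hq hN
  have hM := M3c (fun n : ℤ => gk p κ (B.eval n) * ψ n) (p.1 * κ * N) hP hf (Q * Φ) hbd a H
  have hzero : ∑ n ∈ range (p.1 * κ * N), (fun n : ℤ => gk p κ (B.eval n) * ψ n) (n : ℤ) = 0 := by
    rw [b3_blocks (fun n : ℕ => (fun n : ℤ => gk p κ (B.eval n) * ψ n) (n : ℤ)), sum_comm]
    refine sum_eq_zero fun v _ => ?_
    have h1 : ∀ t ∈ range (p.1 * κ), (fun n : ℤ => gk p κ (B.eval n) * ψ n) ((t * N + v : ℕ) : ℤ) =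
        gk p κ (B.eval (v : ℤ) + (t : ℤ) * (B.leadingCoeff * N)) * ψ v := by
      intro t _
      have h2 : ((t * N + v : ℕ) : ℤ) = (v : ℤ) + (t : ℤ) * N := by
        push_cast
        ring
      simp only
      rw [h2, hev]
      have h3 : ψ ((v : ℤ) + (t : ℤ) * N) = ψ v := by
        have := b3_perZ ψ N hψ (t : ℤ) v
        rw [← this]
        congr 1
        ring
      rw [h3]
      congr 2
      ring
    rw [sum_congr rfl h1, ← sum_mul, B3_zero Q p hp κ hκ _ hn, zero_mul]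
  rw [hzero, zero_div, mul_zero, sub_zero] at hM
  refine hM.trans ?_
  have h1 : ((p.1 * κ * N : ℕ) : ℝ) ≤ Q * N := by
    exact_mod_cast Nat.mul_le_mul_right N hqQ
  have h2 : 0 ≤ (Q : ℝ) * Φ := by positivity
  nlinarith [mul_le_mul_of_nonneg_right h1 h2]

end Pool.Agent.Lib.H24P
end

-- from Lib.H24P.B4
section

/-!
# Project H24P, chunk B4 (M): the deterministic coordinate against periodic functions
-/

open Finset Polynomial

namespace Pool.Agent.Lib.H24P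

open Pool.Agent.Lib.H68T Pool.Agent.Lib.H18Q Pool.Agent.Lib.H59P

theorem b4_card (Q : ℕ) (r : ℕ) (S : Finset ℕ) (hS : S ⊆ KS Q r) : (S.card : ℝ) ≤ Q := by
  have h1 : S ⊆ Icc 1 Q := by
    intro κ hκ
    have h2 := (CA_mem_KS.1 (hS hκ)).1
    rw [Finset.mem_Icc]
    exact ⟨h2.1, h2.2.trans (Nat.div_le_self _ _)⟩
  have h3 := Finset.card_le_card h1
  rw [Nat.card_Icc, Nat.add_sub_cancel] at h3
  exact_mod_cast h3

theorem b4_sum (Q N : ℕ) (p : Ch) (hp : p ∈ PC Q) (B : ℤ[X]) (hB : B.natDegree = 1) (hN : 0 < N)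
    (ψ : ℤ → ℂ) (hψ : ∀ n, ψ (n + N) = ψ n) (Φ : ℝ) (hΦ : ∀ n, ‖ψ n‖ ≤ Φ) (a H : ℕ)
    (S : Finset ℕ) (hS : S ⊆ KS Q p.1)
    (hn : ∀ κ ∈ S, ¬ ((p.1 * κ : ℕ) : ℤ) ∣ B.leadingCoeff * N) :
    ‖∑ n ∈ Ico a (a + H), (∑ κ ∈ S, gk p κ (B.eval (n : ℤ))) * ψ n‖ ≤ 2 * (Q : ℝ) ^ 3 * N * Φ := by
  have hΦ0 : 0 ≤ Φ := le_trans (norm_nonneg _) (hΦ 0)
  have h1 : ∑ n ∈ Ico a (a + H), (∑ κ ∈ S, gk p κ (B.eval (n : ℤ))) * ψ n =
      ∑ κ ∈ S, ∑ n ∈ Ico a (a + H), gk p κ (B.eval (n : ℤ)) * ψ n := by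
    rw [Finset.sum_comm]
    refine Finset.sum_congr rfl fun n _ => ?_
    rw [Finset.sum_mul]
  rw [h1]
  calc ‖∑ κ ∈ S, ∑ n ∈ Ico a (a + H), gk p κ (B.eval (n : ℤ)) * ψ n‖
      ≤ ∑ _κ ∈ S, 2 * ((Q : ℝ) * N) * (Q * Φ) :=
        norm_sum_le_of_le _ fun κ hκ => B3_int Q p hp κ (hS hκ) B hB N hN ψ hψ Φ hΦ (hn κ hκ) a H
    _ = S.card * (2 * ((Q : ℝ) * N) * (Q * Φ)) := by rw [Finset.sum_const, nsmul_eq_mul]
    _ ≤ Q * (2 * ((Q : ℝ) * N) * (Q * Φ)) :=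
        mul_le_mul_of_nonneg_right (b4_card Q p.1 S hS) (by positivity)
    _ = 2 * (Q : ℝ) ^ 3 * N * Φ := by ring

theorem b4_lc (B : ℤ[X]) (hB : B.natDegree = 1) : 0 < B.leadingCoeff.natAbs := by
  rw [Int.natAbs_pos, Polynomial.leadingCoeff_ne_zero]
  intro h
  rw [h] at hB
  simp at hB

theorem b4_ndvd (N a κ : ℕ) (hN : 0 < N) (ha : a ∣ N) (hκ : Squarefree κ) (h : κ ∣ a * N) : κ ∣ N := by
  have h1 := Nat.prod_primeFactors_of_squarefree hκ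
  rw [← h1]
  refine Finset.prod_primes_dvd N (fun l hl => (Nat.prime_of_mem_primeFactors hl).prime)
    (fun l hl => ?_)
  have h2 := (Nat.dvd_of_mem_primeFactors hl).trans h
  rcases (Nat.Prime.dvd_mul (Nat.prime_of_mem_primeFactors hl)).1 h2 with h3 | h3
  · exact h3.trans ha
  · exact h3

/-- Proof. `Fc Q p = ∑_{κ ∈ KS Q r} gk p κ`. If `κ ∈ KS Q r` does not divide `N` then `r κ` does not divide `a N`, `a` the
leading coefficient (`κ` is squarefree and `a ∣ N`, so `κ ∣ a N` would imply `κ ∣ N`); `B3_int`; there are at most `Q` of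
them: total error `2 Q^3 N Φ`. The `κ ∈ KS Q r` dividing `N` are the elements of `SD N r` (`r κ ≤ N^2 ≤ Q`); their sum is
`cj uu` (`B1_SD`), of period `N` (in `n`; `r ∣ N`, primes of `N`), bounded by `N` (`M3a_uu`, `N/φ(N) ≤ N`):
`M3c`: error `2 N · N Φ`. `N ≤ Q`. -/
theorem B4_small (Q N : ℕ) (p : Ch) (hp : p ∈ PC Q) (hr : p.1 ∣ N) (B : ℤ[X]) (hB : B.natDegree = 1)
    (ha : B.leadingCoeff.natAbs ∣ N) (hN : 0 < N) (hNQ : N * N ≤ Q) (ψ : ℤ → ℂ)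
    (hψ : ∀ n, ψ (n + N) = ψ n) (Φ : ℝ) (hΦ : ∀ n, ‖ψ n‖ ≤ Φ) (a H : ℕ) :
    ‖∑ n ∈ Ico a (a + H), Fc Q p (B.eval (n : ℤ)) * ψ n -
      H * ((∑ n ∈ range N, cj p (B.eval (n : ℤ)) * ((uu N.primeFactors (B.eval (n : ℤ)) : ℝ) : ℂ) *
        ψ n) / N)‖ ≤ 4 * (Q : ℝ) ^ 4 * Φ := by
  classical
  have hΦ0 : 0 ≤ Φ := le_trans (norm_nonneg _) (hΦ 0)
  obtain ⟨hr1, hrQ, -⟩ := mem_PC.1 hp
  have hNN : N ≤ N * N := Nat.le_mul_of_pos_left N hN
  have hNQ1 : (N : ℝ) ≤ Q := by exact_mod_cast hNN.trans hNQ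
  have hNQ2 : (N : ℝ) * N ≤ Q := by exact_mod_cast hNQ
  have hQ1 : (1 : ℝ) ≤ Q := by
    have : 1 ≤ Q := by
      have := Nat.mul_pos hN hN
      omega
    exact_mod_cast this
  -- splitting
  have hfil : (KS Q p.1).filter (fun κ => κ ∣ N) = SD N p.1 := by
    ext κ
    rw [Finset.mem_filter, CA_mem_KS, SD, Finset.mem_filter, Nat.mem_divisors]
    constructor
    · rintro ⟨⟨-, h2, h3⟩, h4⟩
      exact ⟨⟨h4, hN.ne'⟩, h2, h3⟩
    · rintro ⟨⟨h4, -⟩, h2, h3⟩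
      have hκ0 : 0 < κ := Nat.pos_of_dvd_of_pos h4 hN
      refine ⟨⟨⟨hκ0, ?_⟩, h2, h3⟩, h4⟩
      rw [Nat.le_div_iff_mul_le (by omega)]
      exact (Nat.mul_le_mul (Nat.le_of_dvd hN h4) (Nat.le_of_dvd hN hr)).trans hNQ
  have hsplit : ∀ m : ℤ, Fc Q p m = cj p m * ((uu N.primeFactors m : ℝ) : ℂ) +
      ∑ κ ∈ (KS Q p.1).filter (fun κ => ¬ κ ∣ N), gk p κ m := by
    intro m
    unfold Fc
    rw [← Finset.sum_filter_add_sum_filter_not (KS Q p.1) (fun κ => κ ∣ N), hfil, B1_SD N hN p hr m]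
  -- the large part
  have hlarge := b4_sum Q N p hp B hB hN ψ hψ Φ hΦ a H ((KS Q p.1).filter (fun κ => ¬ κ ∣ N))
    (Finset.filter_subset _ _) (by
      intro κ hκ hdvd
      rw [Finset.mem_filter] at hκ
      apply hκ.2
      have h1 : p.1 * κ ∣ B.leadingCoeff.natAbs * N := by
        have h2 := Int.natAbs_dvd_natAbs.2 hdvd
        rw [Int.natAbs_mul, Int.natAbs_natCast, Int.natAbs_natCast] at h2
        exact h2
      exact b4_ndvd N _ κ hN ha (CA_mem_KS.1 hκ.1).2.1 ((dvd_mul_left _ _).trans h1))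
  -- the main part
  set f : ℤ → ℂ := fun n => cj p (B.eval n) * ((uu N.primeFactors (B.eval n) : ℝ) : ℂ) * ψ n with hf
  have hPh : ∀ n : ℤ, Phf (fun _ : Fin 1 => p) N.primeFactors (at' (fun _ : Fin 1 => fun n => B.eval n) n) =
      cj p (B.eval n) * ((uu N.primeFactors (B.eval n) : ℝ) : ℂ) := by
    intro n
    unfold Phf at'
    rw [Fin.prod_univ_one]
  have hCp : Cp (fun _ : Fin 1 => fun n : ℤ => B.eval n) := by
    intro i q n
    have h1 := Polynomial.sub_dvd_eval_sub (n + q) n B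
    have h2 : n + q - n = q := by ring
    rw [h2] at h1
    exact h1
  have hper : ∀ m, f (m + N) = f m := by
    intro m
    have h1 := P2_Ph _ hCp (fun _ : Fin 1 => p) N N dvd_rfl (fun _ => hr) m
    rw [hPh, hPh] at h1
    simp only [hf]
    rw [h1, hψ]
  have hbd : ∀ m, ‖f m‖ ≤ N * Φ := by
    intro m
    have h1 := P0_PhR (fun _ : Fin 1 => p) N hN (at' (fun _ : Fin 1 => fun n => B.eval n) m)
    rw [hPh, pow_one] at h1
    have h2 : (N : ℝ) / (Nat.totient N : ℝ) ≤ N := by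
      have h4 : (1 : ℝ) ≤ (Nat.totient N : ℝ) := by exact_mod_cast Nat.totient_pos.2 hN
      exact div_le_self (by positivity) h4
    simp only [hf]
    rw [norm_mul]
    exact mul_le_mul (h1.trans h2) (hΦ m) (norm_nonneg _) (by positivity)
  have hmain := M3c f N hN hper (N * Φ) hbd a H
  have heq : ∑ n ∈ Ico a (a + H), Fc Q p (B.eval (n : ℤ)) * ψ n -
      H * ((∑ n ∈ range N, f n) / N) =
      (∑ n ∈ Ico a (a + H), f n - H * ((∑ n ∈ range N, f n) / N)) +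
      ∑ n ∈ Ico a (a + H), (∑ κ ∈ (KS Q p.1).filter (fun κ => ¬ κ ∣ N), gk p κ (B.eval (n : ℤ))) * ψ n := by
    have h1 : ∑ n ∈ Ico a (a + H), Fc Q p (B.eval (n : ℤ)) * ψ n = ∑ n ∈ Ico a (a + H), f n +
        ∑ n ∈ Ico a (a + H), (∑ κ ∈ (KS Q p.1).filter (fun κ => ¬ κ ∣ N), gk p κ (B.eval (n : ℤ))) *
          ψ n := by
      rw [← Finset.sum_add_distrib]
      refine Finset.sum_congr rfl fun n _ => ?_
      rw [hsplit]
      simp only [hf]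
      ring
    rw [h1]
    ring
  have hgoal : ∑ n ∈ range N, cj p (B.eval (n : ℤ)) * ((uu N.primeFactors (B.eval (n : ℤ)) : ℝ) : ℂ) *
        ψ n = ∑ n ∈ range N, f n := rfl
  rw [hgoal, heq]
  refine (norm_add_le _ _).trans ?_
  have h3 : (2 : ℝ) * N * (N * Φ) ≤ 2 * (Q : ℝ) ^ 4 * Φ := by
    have h4 : (Q : ℝ) ≤ (Q : ℝ) ^ 4 := le_self_pow₀ hQ1 (by norm_num)
    calc (2 : ℝ) * N * (N * Φ) = 2 * (N * N) * Φ := by ring
      _ ≤ 2 * (Q : ℝ) ^ 4 * Φ := by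
        apply mul_le_mul_of_nonneg_right _ hΦ0
        linarith
  have h5 : 2 * (Q : ℝ) ^ 3 * N * Φ ≤ 2 * (Q : ℝ) ^ 4 * Φ := by
    apply mul_le_mul_of_nonneg_right _ hΦ0
    calc 2 * (Q : ℝ) ^ 3 * N ≤ 2 * (Q : ℝ) ^ 3 * Q := mul_le_mul_of_nonneg_left hNQ1 (by positivity)
      _ = 2 * (Q : ℝ) ^ 4 := by ring
  linarith

/-- Proof. `r κ ≥ r > |a| N > 0`, so `r κ` does not divide `a N`: `B3_int` for all (at most `Q`) `κ ∈ KS Q r`. -/
theorem B4_large (Q N : ℕ) (p : Ch) (hp : p ∈ PC Q) (B : ℤ[X]) (hB : B.natDegree = 1) (hN : 0 < N)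
    (hr : B.leadingCoeff.natAbs * N < p.1) (ψ : ℤ → ℂ) (hψ : ∀ n, ψ (n + N) = ψ n) (Φ : ℝ)
    (hΦ : ∀ n, ‖ψ n‖ ≤ Φ) (a H : ℕ) :
    ‖∑ n ∈ Ico a (a + H), Fc Q p (B.eval (n : ℤ)) * ψ n‖ ≤ 2 * (Q : ℝ) ^ 3 * N * Φ := by
  refine b4_sum Q N p hp B hB hN ψ hψ Φ hΦ a H (KS Q p.1) (Finset.Subset.refl _) fun κ hκ hdvd => ?_
  have h1 : p.1 * κ ∣ B.leadingCoeff.natAbs * N := by
    have h2 := Int.natAbs_dvd_natAbs.2 hdvd
    rw [Int.natAbs_mul, Int.natAbs_natCast, Int.natAbs_natCast] at h2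
    exact h2
  have h3 := Nat.le_of_dvd (Nat.mul_pos (b4_lc B hB) hN) h1
  have h4 : p.1 ≤ p.1 * κ := Nat.le_mul_of_pos_right _ (CA_mem_KS.1 hκ).1.1
  omega

end Pool.Agent.Lib.H24P
end

-- from Lib.H59P.F1
section

/-!
# Project H59P, chunk F1: Fourier expansion of a component
-/

open Finset

namespace Pool.Agent.Lib.H59P

open Pool.Agent.Lib.H68T Pool.Agent.Lib.H18Q

/-- **F1.** Proof. `gk p κ m = (r/φ(r)) conj χ(m) (μ(κ)/φ(κ)) c_κ(m)`; `F1a`, `cq_eq_sum` (`H68T/CQ1.lean`),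
`F1b`; the coefficient is `(r/φ(r)) (μ(κ)/φ(κ)) d y`, of absolute value at most
`(r/φ(r)) (1/φ(κ)) r^(-1/2) = √r/φ(r κ)`. -/
theorem F1 (Q : ℕ) (p : Ch) (hp : p ∈ PC Q) : ∃ c : ℕ → ℕ → ℂ, ∀ κ ∈ KS Q p.1,
    (∀ x, ‖c κ x‖ ^ 2 ≤ (p.1 : ℝ) / (Nat.totient (p.1 * κ) : ℝ) ^ 2) ∧
    ∀ m : ℤ, gk p κ m = ∑ x ∈ UR (p.1 * κ), c κ x * e ((m : ℝ) * fr p.1 (κ, x)) := by
  rw [mem_PC] at hp
  obtain ⟨r, χ⟩ := p
  obtain ⟨hr, -, hχ⟩ := hp
  simp only at hr hχ ⊢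
  have : NeZero r := ⟨by omega⟩
  obtain ⟨d, hd, hdm⟩ := F1a r χ hχ
  have hr0 : (0 : ℝ) < r := by exact_mod_cast hr
  have hφr : (0 : ℝ) < Nat.totient r := by exact_mod_cast Nat.totient_pos.2 hr
  have H : ∀ κ : ℕ, ∃ c : ℕ → ℂ, κ ∈ KS Q r → (∀ x, ‖c x‖ ^ 2 ≤ (r : ℝ) / (Nat.totient (r * κ) : ℝ) ^ 2) ∧
      ∀ m : ℤ, gk ⟨r, χ⟩ κ m = ∑ x ∈ UR (r * κ), c x * e ((m : ℝ) * fr r (κ, x)) := by
    intro κ
    by_cases hκ : κ ∈ KS Q r
    swap
    · exact ⟨fun _ => 0, fun h => absurd h hκ⟩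
    have hκ' := hκ
    unfold KS at hκ'
    rw [mem_filter, mem_Icc] at hκ'
    obtain ⟨⟨hκ1, -⟩, -, hcop⟩ := hκ'
    have hφκ : (0 : ℝ) < Nat.totient κ := by exact_mod_cast Nat.totient_pos.2 hκ1
    obtain ⟨c', hc', hcm⟩ := F1b r κ hr hκ1 hcop d
    refine ⟨fun x => (((r : ℝ) / (Nat.totient r : ℝ) *
      ((ArithmeticFunction.moebius κ : ℝ) / (Nat.totient κ : ℝ)) : ℝ) : ℂ) * c' x, fun _ => ⟨?_, ?_⟩⟩
    · intro x
      obtain ⟨y, hy⟩ := hc' x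
      simp only
      rw [hy, norm_mul, mul_pow, Complex.norm_real, Real.norm_eq_abs, sq_abs]
      have hμ : (ArithmeticFunction.moebius κ : ℝ) ^ 2 ≤ 1 := by
        have h1 : |ArithmeticFunction.moebius κ| ≤ 1 := ArithmeticFunction.abs_moebius_le_one
        have h2 : |(ArithmeticFunction.moebius κ : ℝ)| ≤ 1 := by exact_mod_cast h1
        rw [← sq_abs]
        exact pow_le_one₀ (abs_nonneg _) h2
      have htot : (Nat.totient (r * κ) : ℝ) = Nat.totient r * Nat.totient κ := by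
        rw [Nat.totient_mul hcop.symm]
        push_cast
        ring
      rw [htot]
      have e1 : ((r : ℝ) / (Nat.totient r : ℝ) * ((ArithmeticFunction.moebius κ : ℝ) / (Nat.totient κ : ℝ))) ^ 2 *
          ‖d y‖ ^ 2 = (r : ℝ) ^ 2 / ((Nat.totient r : ℝ) * Nat.totient κ) ^ 2 *
          ((ArithmeticFunction.moebius κ : ℝ) ^ 2 * ‖d y‖ ^ 2) := by
        field_simp
      have e2 : (r : ℝ) / ((Nat.totient r : ℝ) * Nat.totient κ) ^ 2 =
          (r : ℝ) ^ 2 / ((Nat.totient r : ℝ) * Nat.totient κ) ^ 2 * (1 * (1 / (r : ℝ))) := by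
        field_simp
      rw [e1, e2]
      refine mul_le_mul_of_nonneg_left ?_ (by positivity)
      exact mul_le_mul hμ (hd y) (sq_nonneg _) zero_le_one
    · intro m
      have h1 : ((cq κ m : ℝ) : ℂ) = ∑ z ∈ UR κ, e ((m : ℝ) * ((z : ℝ) / κ)) := by
        rw [cq_eq_sum κ hκ1 m]
        unfold UR
        refine sum_congr rfl fun z _ => ?_
        congr 1
        ring
      unfold gk
      simp only
      rw [hdm m]
      push_cast
      rw [h1]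
      have h2 := hcm m
      calc _ = ((r : ℂ) / (Nat.totient r : ℂ) * ((ArithmeticFunction.moebius κ : ℂ) / (Nat.totient κ : ℂ))) *
            ((∑ y ∈ UR r, d y * e ((m : ℝ) * ((y : ℝ) / r))) * ∑ z ∈ UR κ, e ((m : ℝ) * ((z : ℝ) / κ))) := by
            ring
        _ = _ := by
            rw [h2, mul_sum]
            refine sum_congr rfl fun x _ => ?_
            ring
  choose c hc using H
  exact ⟨c, fun κ hκ => hc κ hκ⟩

end Pool.Agent.Lib.H59P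
end

-- from Lib.H59P.F
section

/-!
# Project H59P, chunk F: conclusion of module F
-/

open Finset

namespace Pool.Agent.Lib.H59P

open Pool.Agent.Lib.H68T Pool.Agent.Lib.H18Q


theorem f_q_le {Q : ℕ} {p : Ch} (hp : p ∈ PC Q) {κ : ℕ} (hκ : κ ∈ KS Q p.1) :
    1 ≤ p.1 * κ ∧ p.1 * κ ≤ Q := by
  obtain ⟨hr1, hrQ, -⟩ := mem_PC.1 hp
  obtain ⟨⟨hk1, hk2⟩, -, -⟩ := CA_mem_KS.1 hκ
  refine ⟨Nat.one_le_iff_ne_zero.2 (by positivity), ?_⟩
  calc p.1 * κ ≤ p.1 * (Q / p.1) := Nat.mul_le_mul_left _ hk2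
    _ ≤ Q := Nat.mul_div_le _ _






end Pool.Agent.Lib.H59P
end

-- from Lib.H24P.T1
section

/-!
# Project H24P, chunk T1 (M): size of the local factors
-/

open Finset Polynomial

namespace Pool.Agent.Lib.H24P

open Pool.Agent.Lib.H68T Pool.Agent.Lib.H18Q Pool.Agent.Lib.H59P

/-- The local factor as a count. Proof. `1 + gl l m = l/(l-1)` if `l ∤ m`, else `0`. -/
theorem T1_count {k : ℕ} (l : ℕ) (hl : l.Prime) (φ : Fin k → ℤ → ℤ) :
    1 + tpf l φ = (((range l).filter (fun n : ℕ => ∀ i, ¬ (l : ℤ) ∣ φ i n)).card : ℝ) / l *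
      ((l : ℝ) / ((l : ℝ) - 1)) ^ k := by
  classical
  have hl1 : (1 : ℝ) < l := by exact_mod_cast hl.one_lt
  have hl2 : (l : ℝ) - 1 ≠ 0 := by linarith
  have hg : ∀ m : ℤ, 1 + gl l m = if (l : ℤ) ∣ m then 0 else (l : ℝ) / ((l : ℝ) - 1) := by
    intro m
    unfold gl
    split_ifs
    · ring
    · field_simp
      ring
  have h1 : ∀ n ∈ range l, ∏ i, (1 + gl l (φ i (n : ℤ))) =
      if (∀ i, ¬ (l : ℤ) ∣ φ i (n : ℤ)) then ((l : ℝ) / ((l : ℝ) - 1)) ^ k else 0 := by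
    intro n _
    split_ifs with h
    · have h2 : ∀ i ∈ (univ : Finset (Fin k)), (1 + gl l (φ i (n : ℤ))) = (l : ℝ) / ((l : ℝ) - 1) := by
        intro i _
        rw [hg, if_neg (h i)]
      rw [Finset.prod_congr rfl h2, Finset.prod_const, card_univ, Fintype.card_fin]
    · push Not at h
      obtain ⟨i, hi⟩ := h
      refine Finset.prod_eq_zero (mem_univ i) ?_
      rw [hg, if_pos hi]
  unfold tpf
  rw [add_sub_cancel, Finset.sum_congr rfl h1, ← Finset.sum_filter, Finset.sum_const, nsmul_eq_mul]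
  ring


theorem t1_pow (n : ℕ) (x : ℝ) (hx : 0 ≤ x) (hx1 : x ≤ 1) : (1 + x) ^ n ≤ 1 + (2 ^ n - 1) * x := by
  induction n with
  | zero => simp
  | succ n ih =>
    have h1 : (1 : ℝ) ≤ 2 ^ n := one_le_pow₀ (by norm_num)
    calc (1 + x) ^ (n + 1) = (1 + x) ^ n * (1 + x) := pow_succ _ _
      _ ≤ (1 + (2 ^ n - 1) * x) * (1 + x) := mul_le_mul_of_nonneg_right ih (by linarith)
      _ ≤ 1 + (2 ^ (n + 1) - 1) * x := by
        have h2 : x * x ≤ 1 * x := mul_le_mul_of_nonneg_right hx1 hx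
        have h3 : (2 ^ n - 1) * (x * x) ≤ (2 ^ n - 1) * (1 * x) :=
          mul_le_mul_of_nonneg_left h2 (by linarith)
        rw [pow_succ]
        linarith



end Pool.Agent.Lib.H24P
end

-- from Lib.H59P.M2
section

/-!
# Project H59P, chunk M2: the part of the product with bounded least common multiple
-/

open Finset

namespace Pool.Agent.Lib.H59P

open Pool.Agent.Lib.H68T Pool.Agent.Lib.H18Q

/-- **M2.** The part of the product of the components with `lcm(R, κ_1, …, κ_k) ≤ D`, for a common multiple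
`R` of the conductors.

Proof. `gk p κ m = (r/φ(r)) conj χ(m) ∏_{l ∣ κ} gl l m` for squarefree `κ` (`M2a`; definition of `gk`). So the
left side is `∏_i (r_i/φ(r_i)) conj χ_i(n+h_i)` times the left side of `M2d` with `a l i = gl l (n + h_i)`
(`Finset.mul_sum`); then `M2c` for each `i`, `M2b` for each `i`, and `M1` for the second factor
(`D / R` for `E`); `Wd d h n = ∏_{l ∣ d} (∏_i (1 + gl l (n+h_i)) - 1)`. -/
theorem M2 {k : ℕ} (Q D R : ℕ) (hDQ : D ≤ Q) (hR : 0 < R) (p : Fin k → Ch) (hp : ∀ i, p i ∈ PC Q)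
    (hd : ∀ i, (p i).1 ∣ R) (h : Fin k → ℕ) (n : ℤ) :
    ∑ κ ∈ (Fintype.piFinset fun i => KS Q (p i).1).filter (fun κ => R.lcm (univ.lcm κ) ≤ D),
      ∏ i, gk (p i) (κ i) (n + h i) =
    Ph p R.primeFactors h n * ∑ d ∈ SF (D / R) R, ((Wd d h n : ℝ) : ℂ) := by
  have hr : ∀ i, 1 ≤ (p i).1 := fun i => Nat.pos_of_dvd_of_pos (hd i) hR
  have hL : ∑ κ ∈ (Fintype.piFinset fun i => KS Q (p i).1).filter
        (fun κ => R.lcm (univ.lcm κ) ≤ D), ∏ i, gk (p i) (κ i) (n + h i) =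
      (∏ i, ((((p i).1 : ℝ) / (Nat.totient (p i).1 : ℝ) : ℝ) : ℂ) * cj (p i) (n + h i)) *
      ∑ κ ∈ (Fintype.piFinset fun i => KS Q (p i).1).filter (fun κ => R.lcm (univ.lcm κ) ≤ D),
        ∏ i, ∏ l ∈ (κ i).primeFactors, ((gl l (n + h i) : ℝ) : ℂ) := by
    rw [Finset.mul_sum]
    refine Finset.sum_congr rfl fun κ hκ => ?_
    rw [← Finset.prod_mul_distrib]
    refine Finset.prod_congr rfl fun i _ => ?_
    rw [Finset.mem_filter, Fintype.mem_piFinset] at hκ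
    have hκi := hκ.1 i
    rw [KS, Finset.mem_filter] at hκi
    rw [gk, M2a (κ i) hκi.2.1 (n + h i), Complex.ofReal_prod]
    rfl
  rw [hL, M2d (fun l i => ((gl l (n + h i) : ℝ) : ℂ)) Q D R hDQ hR (fun i => (p i).1) hr hd,
    ← mul_assoc, ← Finset.prod_mul_distrib]
  congr 1
  · rw [Ph]
    refine Finset.prod_congr rfl fun i _ => ?_
    rw [M2c (fun l => ((gl l (n + h i) : ℝ) : ℂ)) R (p i).1 hR, ← M2b R hR (p i) (hd i) (n + h i),
      Complex.ofReal_prod]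
    congr 1
    refine Finset.prod_congr rfl fun l _ => ?_
    rw [Complex.ofReal_add, Complex.ofReal_one]
  · rw [M1 (fun l i => ((gl l (n + h i) : ℝ) : ℂ)) (D / R) R]
    refine Finset.sum_congr rfl fun d _ => ?_
    rw [Wd, Complex.ofReal_prod]
    refine Finset.prod_congr rfl fun l _ => ?_
    rw [Wl, Complex.ofReal_sub, Complex.ofReal_one, Complex.ofReal_prod]
    congr 1
    refine Finset.prod_congr rfl fun i _ => ?_
    rw [Complex.ofReal_add, Complex.ofReal_one]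

end Pool.Agent.Lib.H59P
end

-- from Lib.H24P.P1
section

/-!
# Project H24P, chunk P1 (S/M): the part of the product with bounded least common multiple
-/

open Finset

namespace Pool.Agent.Lib.H24P

open Pool.Agent.Lib.H68T Pool.Agent.Lib.H18Q Pool.Agent.Lib.H59P

/-- Every tuple of integers is `n + h_i` with natural numbers `h_i`. Proof. `n = - ∑_j |m_j|`,
`h_i = (m_i - n).toNat`. -/
theorem P1_shift {k : ℕ} (m : Fin k → ℤ) : ∃ (n : ℤ) (h : Fin k → ℕ), ∀ i, n + h i = m i := by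
  refine ⟨-∑ j, |m j|, fun i => (m i - -∑ j, |m j|).toNat, fun i => ?_⟩
  have h1 : |m i| ≤ ∑ j, |m j| :=
    Finset.single_le_sum (f := fun j => |m j|) (fun j _ => abs_nonneg _) (Finset.mem_univ i)
  have h2 : -|m i| ≤ m i := neg_abs_le (m i)
  rw [Int.toNat_of_nonneg (by linarith)]
  ring

/-- Proof. `P1_shift` and `M2` of H59P (`Ph`, `Wd` there are `Phf`, `Wdf` at the tuple `n + h_i`; unfold
`Ph`, `Wd`, `Wl`, `Phf`, `Wdf`, `Wf` and rewrite `n + h i = m i`). -/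
theorem P1_M2 {k : ℕ} (Q D R : ℕ) (hDQ : D ≤ Q) (hR : 0 < R) (p : Fin k → Ch) (hp : ∀ i, p i ∈ PC Q)
    (hd : ∀ i, (p i).1 ∣ R) (m : Fin k → ℤ) :
    ∑ κ ∈ (Fintype.piFinset fun i => KS Q (p i).1).filter (fun κ => R.lcm (univ.lcm κ) ≤ D),
      ∏ i, gk (p i) (κ i) (m i) =
    Phf p R.primeFactors m * ∑ d ∈ SF (D / R) R, ((Wdf d m : ℝ) : ℂ) := by
  obtain ⟨n, h, hm⟩ := P1_shift m
  have key := M2 Q D R hDQ hR p hp hd h n
  simp only [Ph, H59P.Wd, H59P.Wl, hm] at key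
  exact key

/-- For squarefree `d`: `Wdf d m` is the sum over the tuples of divisors of `d` with least common
multiple `d` of the products of the components of the trivial character.

Proof. `M1a` of H59P with `a l i = gl l (m i)`, and `gk p0 κ m = ∏_{l ∣ κ} gl l m` (`M2a`; `p0.1 = 1`, the
character is `1`: `cj p0 m = 1`, `Nat.totient 1 = 1`). -/
theorem P1_Wd {k : ℕ} (d : ℕ) (hd : Squarefree d) (m : Fin k → ℤ) :
    ∑ κ ∈ (Fintype.piFinset fun _ : Fin k => d.divisors).filter (fun κ => univ.lcm κ = d),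
      ∏ i, gk p0 (κ i) (m i) = ((Wdf d m : ℝ) : ℂ) := by
  have key := M1a (fun l i => ((gl l (m i) : ℝ) : ℂ)) d hd
  have h1 : ((Wdf d m : ℝ) : ℂ) =
      ∏ l ∈ d.primeFactors, (∏ i, (1 + ((gl l (m i) : ℝ) : ℂ)) - 1) := by
    simp only [Wdf, Wf]
    push_cast
    rfl
  rw [h1, ← key]
  refine Finset.sum_congr rfl fun κ hκ => ?_
  refine Finset.prod_congr rfl fun i _ => ?_
  rw [Finset.mem_filter, Fintype.mem_piFinset] at hκ
  have hκi : Squarefree (κ i) := hd.squarefree_of_dvd (Nat.dvd_of_mem_divisors (hκ.1 i))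
  have h2 : cj p0 (m i) = 1 := by
    have hz : ((m i : ℤ) : ZMod 1) = 1 := Subsingleton.elim _ _
    show (starRingEnd ℂ) ((1 : DirichletCharacter ℂ 1) ((m i : ℤ) : ZMod 1)) = 1
    rw [hz, map_one, map_one]
  rw [← Complex.ofReal_prod, ← M2a (κ i) hκi (m i), gk]
  have h3 : (starRingEnd ℂ) (p0.2 ((m i : ℤ) : ZMod p0.1)) = 1 := h2
  rw [h3]
  have h4 : (p0.1 : ℕ) = 1 := rfl
  rw [h4]
  simp

end Pool.Agent.Lib.H24P
end

-- from Lib.H59P.Z1A
section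

/-!
# Project H59P, chunk Z1a
-/

open Finset

namespace Pool.Agent.Lib.H59P

open Pool.Agent.Lib.H68T Pool.Agent.Lib.H18Q

/-- **Z1a.** Expansion of the product into tuples of characters and components.

Proof. `SG Q c m = ∑_{p ∈ PC Q} (∑_{κ ∈ KS Q p.1} gk p κ m) c p` (`gam_expand`, `H18Q/CA.lean`),
`Finset.prod_univ_sum` twice. -/
theorem Z1a {k : ℕ} (Q : ℕ) (c : Fin k → Ch → ℂ) (h : Fin k → ℕ) (n : ℤ) :
    ∏ i, SG Q (c i) (n + h i) =
      ∑ p ∈ Fintype.piFinset fun _ : Fin k => PC Q, (∏ i, c i (p i)) *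
        ∑ κ ∈ Fintype.piFinset fun i => KS Q (p i).1, ∏ i, gk (p i) (κ i) (n + h i) := by
  classical
  have h1 : ∀ i : Fin k, SG Q (c i) (n + h i) =
      ∑ p ∈ PC Q, c i p * ∑ κ ∈ KS Q p.1, gk p κ (n + h i) := by
    intro i
    unfold SG
    refine sum_congr rfl fun p hp => ?_
    rw [gam_expand Q p hp, mul_comm]
  rw [prod_congr rfl fun i _ => h1 i, Finset.prod_univ_sum]
  refine sum_congr rfl fun p _ => ?_
  rw [prod_mul_distrib, Finset.prod_univ_sum]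

end Pool.Agent.Lib.H59P
end

-- from Lib.H59P.Z1B
section

/-!
# Project H59P, chunk Z1b
-/

open Finset

namespace Pool.Agent.Lib.H59P

open Pool.Agent.Lib.H68T Pool.Agent.Lib.H18Q

/-- **Z1b.** If `lcm(R, κ) > D` with `R = Rp px p`, then `D < px.1 · lcm(r_i κ_i)`; and
`Rp px p ≤ px.1 · lcm(r_i κ_i)`.

Proof. `R = lcm(px.1, lcm r_i)` and all `κ_i` divide `lcm(px.1, lcm (r_i κ_i)) ≤ px.1 · lcm(r_i κ_i)` (the `κ_i`,
`r_i` are positive, so this is positive). -/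
theorem Z1b {k : ℕ} (Q D : ℕ) (px : Ch) (hpx : px ∈ PC Q) (p : Fin k → Ch) (hp : ∀ i, p i ∈ PC Q)
    (κ : Fin k → ℕ) (hκ : ∀ i, κ i ∈ KS Q (p i).1) :
    (D < (Rp px p).lcm (univ.lcm κ) → D < px.1 * univ.lcm (fun i => (p i).1 * κ i)) ∧
    Rp px p ≤ px.1 * univ.lcm (fun i => (p i).1 * κ i) := by
  have hx1 : 0 < px.1 := (mem_PC.mp hpx).1
  have hpi : ∀ i, 0 < (p i).1 := fun i => (mem_PC.mp (hp i)).1
  have hκi : ∀ i, 0 < κ i := by
    intro i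
    have h1 := hκ i
    unfold KS at h1
    rw [Finset.mem_filter, Finset.mem_Icc] at h1
    exact h1.1.1
  set L : ℕ := univ.lcm (fun i => (p i).1 * κ i) with hL
  have hL0 : L ≠ 0 := by
    intro h0
    rw [hL, Finset.lcm_eq_zero_iff] at h0
    obtain ⟨i, _, h1⟩ := h0
    exact (Nat.mul_pos (hpi i) (hκi i)).ne' h1
  have hpos : 0 < px.1 * L := Nat.mul_pos hx1 (Nat.pos_of_ne_zero hL0)
  have hdi : ∀ i, (p i).1 * κ i ∣ L := fun i => Finset.dvd_lcm (Finset.mem_univ i)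
  have hR : Rp px p ∣ px.1 * L := by
    unfold Rp
    refine Nat.lcm_dvd (Nat.dvd_mul_right _ _) ?_
    refine Dvd.dvd.mul_left ?_ _
    refine Finset.lcm_dvd fun i _ => ?_
    exact (Nat.dvd_mul_right _ _).trans (hdi i)
  have hK : univ.lcm κ ∣ px.1 * L := by
    refine Dvd.dvd.mul_left ?_ _
    refine Finset.lcm_dvd fun i _ => ?_
    exact (Nat.dvd_mul_left _ _).trans (hdi i)
  refine ⟨fun h => ?_, Nat.le_of_dvd hpos hR⟩
  exact lt_of_lt_of_le h (Nat.le_of_dvd hpos (Nat.lcm_dvd hR hK))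

end Pool.Agent.Lib.H59P
end

-- from Lib.H59P.Z2A
section

/-!
# Project H59P, chunk Z2a
-/

open Finset

namespace Pool.Agent.Lib.H59P

open Pool.Agent.Lib.H68T Pool.Agent.Lib.H18Q

/-- Triangle inequality in `ℓ²`: a combination of functions with mean square at most `W²` and coefficients of
total size at most `c`. Proof. Minkowski, or Cauchy-Schwarz: `‖∑_p γ_p f_p(h)‖² ≤ (∑ |γ_p|) ∑_p |γ_p| ‖f_p(h)‖²`. -/
theorem Z2a {α β : Type*} (S : Finset α) (P : Finset β) (γ : β → ℂ) (f : β → α → ℂ) (c W : ℝ)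
    (hW : 0 ≤ W) (hγ : ∑ p ∈ P, ‖γ p‖ ≤ c) (hf : ∀ p ∈ P, ∑ h ∈ S, ‖f p h‖ ^ 2 ≤ W) :
    ∑ h ∈ S, ‖∑ p ∈ P, γ p * f p h‖ ^ 2 ≤ c ^ 2 * W := by
  have h0 : 0 ≤ ∑ p ∈ P, ‖γ p‖ := Finset.sum_nonneg fun p _ => norm_nonneg _
  have hc : 0 ≤ c := h0.trans hγ
  have h1 : ∀ h ∈ S, ‖∑ p ∈ P, γ p * f p h‖ ^ 2 ≤ c * ∑ p ∈ P, ‖γ p‖ * ‖f p h‖ ^ 2 := by
    intro h _
    have e1 : ‖∑ p ∈ P, γ p * f p h‖ ≤ ∑ p ∈ P, ‖γ p‖ * ‖f p h‖ := by
      refine (norm_sum_le _ _).trans (le_of_eq ?_)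
      exact Finset.sum_congr rfl fun p _ => norm_mul _ _
    have e2 : (∑ p ∈ P, ‖γ p‖ * ‖f p h‖) ^ 2 ≤
        (∑ p ∈ P, ‖γ p‖) * ∑ p ∈ P, ‖γ p‖ * ‖f p h‖ ^ 2 := by
      have h2 := Finset.sum_mul_sq_le_sq_mul_sq P (fun p => Real.sqrt ‖γ p‖)
        (fun p => Real.sqrt ‖γ p‖ * ‖f p h‖)
      have h3 : ∀ p ∈ P, Real.sqrt ‖γ p‖ * (Real.sqrt ‖γ p‖ * ‖f p h‖) = ‖γ p‖ * ‖f p h‖ := by
        intro p _
        rw [← mul_assoc, Real.mul_self_sqrt (norm_nonneg _)]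
      have h4 : ∀ p ∈ P, Real.sqrt ‖γ p‖ ^ 2 = ‖γ p‖ := fun p _ => Real.sq_sqrt (norm_nonneg _)
      have h5 : ∀ p ∈ P, (Real.sqrt ‖γ p‖ * ‖f p h‖) ^ 2 = ‖γ p‖ * ‖f p h‖ ^ 2 := by
        intro p hp
        rw [mul_pow, h4 p hp]
      rw [Finset.sum_congr rfl h3, Finset.sum_congr rfl h4, Finset.sum_congr rfl h5] at h2
      exact h2
    have e3 : 0 ≤ ∑ p ∈ P, ‖γ p‖ * ‖f p h‖ ^ 2 :=
      Finset.sum_nonneg fun p _ => mul_nonneg (norm_nonneg _) (sq_nonneg _)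
    calc ‖∑ p ∈ P, γ p * f p h‖ ^ 2 ≤ (∑ p ∈ P, ‖γ p‖ * ‖f p h‖) ^ 2 :=
          pow_le_pow_left₀ (norm_nonneg _) e1 2
      _ ≤ (∑ p ∈ P, ‖γ p‖) * ∑ p ∈ P, ‖γ p‖ * ‖f p h‖ ^ 2 := e2
      _ ≤ c * ∑ p ∈ P, ‖γ p‖ * ‖f p h‖ ^ 2 := mul_le_mul_of_nonneg_right hγ e3
  refine (Finset.sum_le_sum h1).trans ?_
  rw [← Finset.mul_sum, Finset.sum_comm]
  have h6 : ∑ p ∈ P, ∑ h ∈ S, ‖γ p‖ * ‖f p h‖ ^ 2 ≤ ∑ p ∈ P, ‖γ p‖ * W := by
    refine Finset.sum_le_sum fun p hp => ?_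
    rw [← Finset.mul_sum]
    exact mul_le_mul_of_nonneg_left (hf p hp) (norm_nonneg _)
  rw [← Finset.sum_mul] at h6
  calc c * ∑ p ∈ P, ∑ h ∈ S, ‖γ p‖ * ‖f p h‖ ^ 2 ≤ c * ((∑ p ∈ P, ‖γ p‖) * W) :=
        mul_le_mul_of_nonneg_left h6 hc
    _ ≤ c * (c * W) := mul_le_mul_of_nonneg_left (mul_le_mul_of_nonneg_right hγ hW) hc
    _ = c ^ 2 * W := by ring

end Pool.Agent.Lib.H59P
end

-- from Lib.H24P.ZDefs
section

/-!
# Project H24P: definitions for module Z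
-/

open Finset Polynomial

namespace Pool.Agent.Lib.H24P

open Pool.Agent.Lib.H68T Pool.Agent.Lib.H18Q Pool.Agent.Lib.H59P

noncomputable section

/-- The truncated main term of a cell with coefficients `c`. -/
def MCf {k : ℕ} (Q m0 : ℕ) (c : Fin k → Ch → ℂ) (φ : Fin k → ℤ → ℤ) : ℂ :=
  ∑ p ∈ TSf k Q (fl Q (1 / 16)) m0, (∏ i, c i (p i)) * (MRf p (Rf m0 p) φ *
    ((∑ d ∈ SF (fl Q (1 / 2) / Rf m0 p) (Rf m0 p), tdf d φ : ℝ) : ℂ))




end

end Pool.Agent.Lib.H24P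
end
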