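import Pool.Agent.Lib.H1M.RV3.M059
import Pool.Agent.Lib.H1M.RV3.M068
import Pool.Agent.Lib.H1M.RV3.M070
import Pool.Agent.Lib.H1M.RV3.M071

/-! Merged copies (to shorten the build) of Lib.H59T.E7, Lib.H59T.UD, Lib.H59T.U3B, Lib.H59T.UC, Lib.H59T.UE, Lib.H59T.F4, Lib.H59T.F5, Lib.H59T.UF, Lib.H59T.UBA, Lib.H59T.UB. -/

-- from Lib.H59T.E7
section

/-!
# Project H59T, chunk E7 (M): the local bounds for the four forms
-/

open Finset

namespace Pool.Agent.Lib.H59T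

open Pool.Agent.Lib.H68T Pool.Agent.Lib.H18Q Pool.Agent.Lib.H59P

theorem e7_lcm {ι : Type*} [DecidableEq ι] (s : Finset ι) (f : ι → ℕ) (l : ℕ) (hf : ∀ i, f i ≠ 0) :
    s.lcm f ≠ 0 ∧ (s.Nonempty → ∃ i ∈ s, (f i).factorization l = (s.lcm f).factorization l) := by
  induction s using Finset.induction_on with
  | empty =>
    refine ⟨by simp, fun h => ?_⟩
    exact absurd h (by simp)
  | insert a s ha ih =>
    rw [Finset.lcm_insert]
    have h1 : GCDMonoid.lcm (f a) (s.lcm f) = Nat.lcm (f a) (s.lcm f) := rfl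
    rw [h1]
    refine ⟨Nat.lcm_ne_zero (hf a) ih.1, fun _ => ?_⟩
    rw [Nat.factorization_lcm (hf a) ih.1, Finsupp.sup_apply]
    rcases le_total ((s.lcm f).factorization l) ((f a).factorization l) with h2 | h2
    · exact ⟨a, Finset.mem_insert_self _ _, (sup_eq_left.2 h2).symm⟩
    · rcases s.eq_empty_or_nonempty with hs | hs
      · subst hs
        refine ⟨a, Finset.mem_insert_self _ _, ?_⟩
        rw [Finset.lcm_empty, Nat.factorization_one]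
        simp
      · obtain ⟨i, hi, he⟩ := ih.2 hs
        refine ⟨i, Finset.mem_insert_of_mem hi, ?_⟩
        rw [he, sup_eq_right.2 h2]

theorem E7_attained {k : ℕ} (p : Fin k → Ch) (hp : Pm p) (l : ℕ) (hl : l.Prime) (hd : l ∣ Rm p) :
    1 ≤ (Rm p).factorization l ∧ (∀ i, (p i).1.factorization l ≤ (Rm p).factorization l) ∧
      ∃ i, (p i).1.factorization l = (Rm p).factorization l ∧ l ∣ (p i).1 := by
  have h0 : ∀ i, (p i).1 ≠ 0 := fun i => (hp i).1.ne'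
  have h1 := e7_lcm (univ : Finset (Fin k)) (fun i => (p i).1) l h0
  have hR : Rm p ≠ 0 := h1.1
  have h2 : 1 ≤ (Rm p).factorization l := (hl.dvd_iff_one_le_factorization hR).1 hd
  refine ⟨h2, fun i => ?_, ?_⟩
  · exact (Nat.factorization_le_iff_dvd (h0 i) hR).2 (Finset.dvd_lcm (Finset.mem_univ i)) l
  · have hne : (univ : Finset (Fin k)).Nonempty := by
      by_contra hc
      rw [Finset.not_nonempty_iff_eq_empty] at hc
      have h3 : Rm p = 1 := by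
        unfold Rm
        rw [hc, Finset.lcm_empty]
      rw [h3] at hd
      exact hl.one_lt.ne' (Nat.dvd_one.1 hd)
    obtain ⟨i, _, hi⟩ := h1.2 hne
    refine ⟨i, hi, ?_⟩
    rw [hl.dvd_iff_one_le_factorization (h0 i)]
    have h4 : (p i).1.factorization l = (Rm p).factorization l := hi
    rw [h4]
    exact h2

theorem E7_four : LocB ff 10 (1 / 18) := by
  intro p hp κ κ' hκ hκ' l hl
  have hl2 : (2 : ℝ) ≤ l := by exact_mod_cast hl.two_le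
  refine ⟨fun hd => ?_, fun hd hex => ?_⟩
  · obtain ⟨h1, h2, i0, h3, h4⟩ := E7_attained p hp l hl hd
    have hch := L4_char (p i0) (hp i0).1 (hp i0).2 l hl h4
    rw [h3] at hch
    obtain ⟨χ, hχ, hlf⟩ := hch
    have hc : |(l : ℝ) / ((l : ℝ) - 1)| ≤ 2 := by
      rw [abs_of_nonneg (by apply div_nonneg <;> linarith), div_le_iff₀ (by linarith)]
      linarith
    have hper : ∀ (K : Fin 4 → ℕ) (i : Fin 4) (m : ℤ),
        lf (p i) (K i) l (m + ((l ^ (Rm p).factorization l : ℕ) : ℤ)) = lf (p i) (K i) l m := by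
      intro K i m
      have := L4_per (p i) (hp i).1 (hp i).2 (K i) l ((Rm p).factorization l) hl h1 (h2 i) m 1
      rw [mul_one] at this
      rw [← this]
      push_cast
      rfl
    exact E2_four l ((Rm p).factorization l) hl h1 χ hχ _ hc (fun i => lf (p i) (κ i) l) (fun i => lf (p i) (κ' i) l)
      (fun i m => hper κ i m) (fun i m => hper κ' i m) (fun i m => L4_norm _ _ _ hl m) (fun i m => L4_norm _ _ _ hl m) i0
      (fun m => hlf (κ i0) m) (fun m => hlf (κ' i0) m)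
  · have hnd : ∀ i, ¬ l ∣ (p i).1 := fun i h => hd (h.trans (Finset.dvd_lcm (Finset.mem_univ i)))
    have hg : ∀ (K : Fin 4 → ℕ), (fun i => lf (p i) (K i) l) =
        (fun i (m : ℤ) => if l ∣ K i then ((gl l m : ℝ) : ℂ) else 1) := by
      intro K
      funext i m
      unfold lf
      rw [if_neg (hnd i)]
    rw [hg κ, hg κ']
    have h5 := E5_four l hl (fun i => l ∣ κ i) (fun i => l ∣ κ' i) hex
    refine h5.trans ?_
    have h6 : (l : ℝ) ^ 4 * (2 ^ 10 / (l : ℝ) ^ 2) = 2 ^ 10 * (l : ℝ) ^ 2 := by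
      have : (l : ℝ) ≠ 0 := by positivity
      field_simp
    rw [h6]
    have h7 : 0 ≤ (l : ℝ) ^ 2 := by positivity
    nlinarith

theorem E7_cp : CpF ff := by
  intro i q y y' z
  fin_cases i
  · show q ∣ ((y + q) + z) - (y + z) ∧ q ∣ (y + z) - (y + z) ∧ q ∣ (y + (z + q)) - (y + z)
    exact ⟨⟨1, by ring⟩, ⟨0, by ring⟩, ⟨1, by ring⟩⟩
  · show q ∣ ((y + q) - z) - (y - z) ∧ q ∣ (y - z) - (y - z) ∧ q ∣ (y - (z + q)) - (y - z)
    exact ⟨⟨1, by ring⟩, ⟨0, by ring⟩, ⟨-1, by ring⟩⟩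
  · show q ∣ (y' + z) - (y' + z) ∧ q ∣ ((y' + q) + z) - (y' + z) ∧ q ∣ (y' + (z + q)) - (y' + z)
    exact ⟨⟨0, by ring⟩, ⟨1, by ring⟩, ⟨1, by ring⟩⟩
  · show q ∣ (y' - z) - (y' - z) ∧ q ∣ ((y' + q) - z) - (y' - z) ∧ q ∣ (y' - (z + q)) - (y' - z)
    exact ⟨⟨0, by ring⟩, ⟨1, by ring⟩, ⟨-1, by ring⟩⟩

end Pool.Agent.Lib.H59T
end

-- from Lib.H59T.UD
section

/-!
# Project H59T, chunk UD (M): the forms `uf e` at a prime not dividing the conductors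
-/

open Finset

namespace Pool.Agent.Lib.H59T

open Pool.Agent.Lib.H68T Pool.Agent.Lib.H18Q Pool.Agent.Lib.H59P

/-- The rows of the eight forms. -/
def ud_U : Fin 8 → Fin 4 → ℤ := ![![0, 0, 2, 0], ![1, 0, 2, 0], ![0, 1, 2, 0], ![1, 1, 2, 0],
  ![0, 0, 0, 2], ![1, 0, 0, 2], ![0, 1, 0, 2], ![1, 1, 0, 2]]

theorem ud_minor : ∀ i j : Fin 8, i ≠ j →
    ∃ a b, (ud_U i a * ud_U j b - ud_U i b * ud_U j a) ∣ 4 := by
  decide +kernel

theorem ud_row : ∀ i : Fin 8, ∃ a, ud_U i a ∣ 4 := by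
  decide +kernel

theorem ud_cast (l : ℕ) (hl : l.Prime) (h2 : l ≠ 2) (v : ℤ) (hv : v ∣ 4) : (v : ZMod l) ≠ 0 := by
  intro h
  rw [ZMod.intCast_zmod_eq_zero_iff_dvd] at h
  have h4 : (l : ℤ) ∣ ((4 : ℕ) : ℤ) := h.trans (by exact_mod_cast hv)
  have h5 : l ∣ 2 ^ 2 := by exact_mod_cast h4
  exact h2 ((Nat.prime_dvd_prime_iff_eq hl Nat.prime_two).1 (hl.dvd_of_dvd_pow h5))

theorem ud_g (p : Prop) [Decidable p] (x : ℝ) :
    (starRingEnd ℂ) (if p then (x : ℂ) else 1) = if p then (x : ℂ) else 1 := by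
  split_ifs
  · exact Complex.conj_ofReal _
  · exact map_one _

theorem ud_two (p : Prop) [Decidable p] (m : ℤ) :
    ‖(if p then ((gl 2 m : ℝ) : ℂ) else 1)‖ ≤ 1 := by
  split_ifs
  · rw [Complex.norm_real]
    unfold gl
    split_ifs <;> norm_num
  · simp

/-- Proof. As `E5_four` (`E5.lean`): `l = 2` trivial (`16 ≤ 28`); `l` odd: `C3_fin`, `C3_gl`, `E4_gl` for the eight forms with linear
parts `(0,0,2,0), (1,0,2,0), (0,1,2,0), (1,1,2,0), (0,0,0,2), (1,0,0,2), (0,1,0,2), (1,1,0,2)` in `(y,y',z,z')` and the constants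
`e i`: each pair has a minor `±1`, `±2` or `±4` (`decide` over the integers). -/
theorem UD_cube (l : ℕ) (hl : l.Prime) (e : Fin 4 → ℤ) (s s' : Fin 4 → Prop) [DecidablePred s]
    [DecidablePred s'] (hs : ∃ i, s i ∨ s' i) :
    ‖S4 l (Db (uf e) (fun i m => if s i then ((gl l m : ℝ) : ℂ) else 1)
      (fun i m => if s' i then ((gl l m : ℝ) : ℂ) else 1))‖ ≤ 7 * (l : ℝ) ^ 2 := by
  classical
  by_cases h2 : l = 2
  · subst h2
    refine le_trans (C3_triv 2 _ 1 ?_) (by norm_num)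
    intro y y' z z'
    unfold Db
    rw [norm_prod]
    refine Finset.prod_le_one (fun i _ => norm_nonneg _) fun i _ => ?_
    rw [norm_mul, RCLike.norm_conj]
    exact mul_le_one₀ (ud_two _ _) (norm_nonneg _) (ud_two _ _)
  have : Fact l.Prime := ⟨hl⟩
  obtain ⟨t, ht⟩ : ∃ t : Fin 8 → Prop, t = ![s 0, s 1, s 2, s 3, s' 0, s' 1, s' 2, s' 3] := ⟨_, rfl⟩
  obtain ⟨w, hw⟩ : ∃ w : Fin 8 → ZMod l, w = ![(e 0 : ZMod l), (e 1 : ZMod l), (e 2 : ZMod l), (e 3 : ZMod l),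
    (e 0 : ZMod l), (e 1 : ZMod l), (e 2 : ZMod l), (e 3 : ZMod l)] := ⟨_, rfl⟩
  have hS : (univ.filter fun j : Fin 8 => t j).Nonempty := by
    obtain ⟨i, hi⟩ := hs
    rw [ht]
    rcases hi with hi | hi
    · fin_cases i
      · exact ⟨0, by simpa using hi⟩
      · exact ⟨1, by simpa using hi⟩
      · exact ⟨2, by simpa using hi⟩
      · exact ⟨3, by simpa using hi⟩
    · fin_cases i
      · exact ⟨4, by simpa using hi⟩
      · exact ⟨5, by simpa using hi⟩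
      · exact ⟨6, by simpa using hi⟩
      · exact ⟨7, by simpa using hi⟩
  have h4 := E4_gl l 8 (fun i k => ((ud_U i k : ℤ) : ZMod l)) w
    (fun i j hij => by
      obtain ⟨a, b, hab⟩ := ud_minor i j hij
      refine ⟨a, b, ?_⟩
      have h := ud_cast l hl h2 _ hab
      push_cast at h
      exact h)
    (fun i => by
      obtain ⟨a, ha⟩ := ud_row i
      exact ⟨a, ud_cast l hl h2 _ ha⟩) (univ.filter fun j : Fin 8 => t j) hS
  have h5 := C3_fin l (fun a b c d => ∏ i ∈ univ.filter (fun j : Fin 8 => t j),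
    ((glz l (∑ k, ((ud_U i k : ℤ) : ZMod l) * ![a, b, c, d] k + w i) : ℝ) : ℂ))
  have h6 : S4 l (Db (uf e) (fun i m => if s i then ((gl l m : ℝ) : ℂ) else 1)
      (fun i m => if s' i then ((gl l m : ℝ) : ℂ) else 1)) =
      S4 l (fun y y' z z' => ∏ i ∈ univ.filter (fun j : Fin 8 => t j),
        ((glz l (∑ k, ((ud_U i k : ℤ) : ZMod l) *
          ![(y : ZMod l), (y' : ZMod l), (z : ZMod l), (z' : ZMod l)] k + w i) : ℝ) : ℂ)) := by
    congr 1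
    funext y y' z z'
    rw [Finset.prod_filter, Fin.prod_univ_eight]
    unfold Db uf
    rw [Fin.prod_univ_four]
    simp only [ud_g, C3_gl, ht, hw, ud_U, Fin.sum_univ_four]
    simp [-mul_ite, -ite_mul]
    ring_nf
  rw [h6, h5]
  have h7 : ∀ x : Fin 4 → ZMod l, ![x 0, x 1, x 2, x 3] = x := by
    intro x
    funext k
    fin_cases k <;> rfl
  simp only [h7]
  exact h4

end Pool.Agent.Lib.H59T
end

-- from Lib.H59T.U3B
section

/-!
# Project H59T, chunk U3B (M): the same for the forms `2z + e_0`, …, and any of the four functions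
-/

open Finset

namespace Pool.Agent.Lib.H59T

theorem u3b_neg (N : ℕ) [NeZero N] (H : ZMod N → ℝ) : ∑ y : ZMod N, H (-y) = ∑ y : ZMod N, H y :=
  Equiv.sum_comp (Equiv.neg (ZMod N)) H

theorem u3b_add (N : ℕ) [NeZero N] (c : ZMod N) (H : ZMod N → ℂ) : ∑ z : ZMod N, H (z + c) = ∑ z : ZMod N, H z :=
  Equiv.sum_comp (Equiv.addRight c) H

/-- Proof. `i = 3`: `U3_top`. `i = 0`: substitute `z → z + y + y'`, `y → -y`, `y' → -y'` (inner resp. outer sum); `i = 1`: `z → z + y'`,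
`y' → -y'`; `i = 2`: `z → z + y`, `y → -y`. -/
theorem U3B_any (N : ℕ) [NeZero N] (f : Fin 4 → ZMod N → ℂ) (hf : ∀ i t, ‖f i t‖ ≤ 1) (i : Fin 4) :
    ∑ y : ZMod N, ∑ y' : ZMod N,
      ‖∑ z : ZMod N, f 0 z * f 1 (z + y) * f 2 (z + y') * f 3 (z + y + y')‖ ^ 2 ≤
      (N : ℝ) ^ 3 * (UU (f i)) ^ (1 / 4 : ℝ) := by
  fin_cases i
  · refine le_trans (le_of_eq ?_) (U3_top N (f 3) (f 2) (f 1) (f 0) (hf 3) (hf 2) (hf 1) (hf 0))
    rw [← u3b_neg N]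
    refine Finset.sum_congr rfl fun y _ => ?_
    rw [← u3b_neg N]
    refine Finset.sum_congr rfl fun y' _ => ?_
    rw [← u3b_add N (y + y')]
    refine congrArg (fun w : ℂ => ‖w‖ ^ 2) ?_
    refine Finset.sum_congr rfl fun z _ => ?_
    have e1 : z + (y + y') + -y = z + y' := by ring
    have e2 : z + (y + y') + -y' = z + y := by ring
    have e3 : z + y' + -y' = z := by ring
    have e4 : z + (y + y') = z + y + y' := by ring
    rw [e1, e2, e3, e4]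
    ring
  · refine le_trans (le_of_eq ?_) (U3_top N (f 2) (f 3) (f 0) (f 1) (hf 2) (hf 3) (hf 0) (hf 1))
    refine Finset.sum_congr rfl fun y _ => ?_
    rw [← u3b_neg N]
    refine Finset.sum_congr rfl fun y' _ => ?_
    rw [← u3b_add N y']
    refine congrArg (fun w : ℂ => ‖w‖ ^ 2) ?_
    refine Finset.sum_congr rfl fun z _ => ?_
    have e1 : z + y' + y = z + y + y' := by ring
    have e2 : z + y' + -y' = z := by ring
    have e3 : z + y + y' + -y' = z + y := by ring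
    rw [e1, e2, e3]
    ring
  · refine le_trans (le_of_eq ?_) (U3_top N (f 1) (f 0) (f 3) (f 2) (hf 1) (hf 0) (hf 3) (hf 2))
    rw [← u3b_neg N]
    refine Finset.sum_congr rfl fun y _ => ?_
    refine Finset.sum_congr rfl fun y' _ => ?_
    rw [← u3b_add N y]
    refine congrArg (fun w : ℂ => ‖w‖ ^ 2) ?_
    refine Finset.sum_congr rfl fun z _ => ?_
    have e1 : z + y + -y = z := by ring
    rw [e1]
    ring
  · exact U3_top N (f 0) (f 1) (f 2) (f 3) (hf 0) (hf 1) (hf 2) (hf 3)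

/-- The sign of the parity of `s`. -/
def u3b_e {N : ℕ} (s : ZMod N) : ℂ := (-1) ^ s.val


theorem u3b_e_norm {N : ℕ} (s : ZMod N) : ‖u3b_e s‖ = 1 := by
  unfold u3b_e
  rw [norm_pow, norm_neg, norm_one, one_pow]

theorem u3b_e_add {N : ℕ} [NeZero N] (hN : Even N) (s t : ZMod N) : u3b_e (s + t) = u3b_e s * u3b_e t := by
  unfold u3b_e
  rw [ZMod.val_add, ← pow_add, neg_one_pow_eq_pow_mod_two, Nat.mod_mod_of_dvd _ hN.two_dvd, ← neg_one_pow_eq_pow_mod_two]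

theorem u3b_e_cast {N : ℕ} [NeZero N] (hN : Even N) (k : ℕ) : u3b_e (k : ZMod N) = (-1) ^ k := by
  unfold u3b_e
  rw [ZMod.val_natCast, neg_one_pow_eq_pow_mod_two, Nat.mod_mod_of_dvd _ hN.two_dvd, ← neg_one_pow_eq_pow_mod_two]

theorem u3b_range (N : ℕ) [NeZero N] (H : ZMod N → ℂ) :
    ∑ z : ZMod N, H z = ∑ k ∈ range N, H (k : ZMod N) := by
  symm
  refine Finset.sum_nbij' (fun k : ℕ => (k : ZMod N)) (fun z : ZMod N => z.val) ?_ ?_ ?_ ?_ ?_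
  · intro k _
    exact Finset.mem_univ _
  · intro z _
    exact Finset.mem_range.2 (ZMod.val_lt z)
  · intro k hk
    exact ZMod.val_cast_of_lt (Finset.mem_range.1 hk)
  · intro z _
    exact ZMod.natCast_zmod_val z
  · intro k _
    rfl

theorem u3b_double (h : ℕ → ℂ) (M : ℕ) : ∑ k ∈ range (M + M), h k = ∑ k ∈ range M, (h (2 * k) + h (2 * k + 1)) := by
  induction M with
  | zero => simp
  | succ M ih =>
    have e : M + 1 + (M + 1) = M + M + 1 + 1 := by ring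
    rw [e, Finset.sum_range_succ, Finset.sum_range_succ, ih, Finset.sum_range_succ, ← two_mul M]
    ring

theorem u3b_even (N : ℕ) [NeZero N] (hN : Even N) (G : ZMod N → ℂ) :
    ∑ z : ZMod N, G (2 * z) = ∑ s : ZMod N, G s + ∑ s : ZMod N, u3b_e s * G s := by
  obtain ⟨M, hM⟩ := id hN
  rw [u3b_range N (fun z => G (2 * z)), u3b_range N G, u3b_range N (fun s => u3b_e s * G s), ← Finset.sum_add_distrib]
  have h1 : ∑ k ∈ range N, G (2 * ((k : ℕ) : ZMod N)) = 2 * ∑ k ∈ range M, G (2 * ((k : ℕ) : ZMod N)) := by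
    have h2 : ∑ k ∈ range (M + M), G (2 * ((k : ℕ) : ZMod N)) = 2 * ∑ k ∈ range M, G (2 * ((k : ℕ) : ZMod N)) := by
      rw [Finset.sum_range_add, two_mul]
      refine congrArg (fun w : ℂ => (∑ k ∈ range M, G (2 * ((k : ℕ) : ZMod N))) + w) ?_
      refine Finset.sum_congr rfl fun k _ => ?_
      have e : 2 * (((M + k : ℕ)) : ZMod N) = 2 * (k : ZMod N) := by
        have e1 : ((M + M : ℕ) : ZMod N) = 0 := by
          rw [← hM]
          exact ZMod.natCast_self N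
        push_cast at e1 ⊢
        linear_combination e1
      rw [e]
    rw [← h2, ← hM]
  have h3 : ∑ k ∈ range N, (G ((k : ℕ) : ZMod N) + u3b_e ((k : ℕ) : ZMod N) * G ((k : ℕ) : ZMod N)) =
      2 * ∑ k ∈ range M, G (2 * ((k : ℕ) : ZMod N)) := by
    have h4 : ∑ k ∈ range (M + M), (G ((k : ℕ) : ZMod N) + u3b_e ((k : ℕ) : ZMod N) * G ((k : ℕ) : ZMod N)) =
        2 * ∑ k ∈ range M, G (2 * ((k : ℕ) : ZMod N)) := by
      rw [u3b_double, Finset.mul_sum]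
      refine Finset.sum_congr rfl fun k _ => ?_
      rw [u3b_e_cast hN, u3b_e_cast hN, pow_succ, pow_mul]
      push_cast
      ring
    rw [← h4, ← hM]
  exact h1.trans h3.symm

theorem u3b_odd (N : ℕ) [NeZero N] (hN : ¬ Even N) (G : ZMod N → ℂ) :
    ∑ z : ZMod N, G (2 * z) = ∑ s : ZMod N, G s := by
  have h1 : Nat.Coprime 2 N := (Nat.coprime_two_left).2 (Nat.not_even_iff_odd.1 hN)
  have h2 : ((ZMod.unitOfCoprime 2 h1 : (ZMod N)ˣ) : ZMod N) = 2 := by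
    rw [ZMod.coe_unitOfCoprime]
    norm_num
  have h3 := Equiv.sum_comp (Units.mulLeft (ZMod.unitOfCoprime 2 h1)) G
  rw [← h3]
  refine Finset.sum_congr rfl fun z _ => ?_
  rw [Units.mulLeft_apply, h2]

theorem u3b_UU (N : ℕ) [NeZero N] (f : ZMod N → ℂ) (c : ZMod N) : UU (fun t => f (t + c)) = UU f := by
  unfold UU
  refine Finset.sum_congr rfl fun A _ => ?_
  refine Finset.sum_congr rfl fun B _ => ?_
  rw [← u3b_add N c (fun s => f s * star (f (s + A)) * star (f (s + B)) * f (s + A + B))]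
  refine congrArg (fun w : ℂ => ‖w‖ ^ 2) ?_
  refine Finset.sum_congr rfl fun z _ => ?_
  show f (z + c) * star (f (z + A + c)) * star (f (z + B + c)) * f (z + A + B + c) = _
  have e1 : z + A + c = z + c + A := by ring
  have e2 : z + B + c = z + c + B := by ring
  have e3 : z + A + B + c = z + c + A + B := by ring
  rw [e1, e2, e3]

theorem u3b_UU_nonneg (N : ℕ) [NeZero N] (f : ZMod N → ℂ) : 0 ≤ UU f :=
  Finset.sum_nonneg fun _ _ => Finset.sum_nonneg fun _ _ => sq_nonneg _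

/-- The sum with the sign. -/
theorem u3b_sign (N : ℕ) [NeZero N] (hN : Even N) (g : Fin 4 → ZMod N → ℂ) (hg : ∀ i t, ‖g i t‖ ≤ 1) (i : Fin 4) :
    ∑ y : ZMod N, ∑ y' : ZMod N,
      ‖∑ z : ZMod N, u3b_e z * (g 0 z * g 1 (z + y) * g 2 (z + y') * g 3 (z + y + y'))‖ ^ 2 ≤
      (N : ℝ) ^ 3 * (UU (g i)) ^ (1 / 4 : ℝ) := by
  by_cases hi : i = 0
  · subst hi
    have hg' : ∀ i t, ‖(![g 0, fun t => u3b_e t * g 1 t, g 2, g 3] : Fin 4 → ZMod N → ℂ) i t‖ ≤ 1 := by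
      intro i t
      fin_cases i
      · exact hg 0 t
      · show ‖u3b_e t * g 1 t‖ ≤ 1
        rw [norm_mul, u3b_e_norm, one_mul]
        exact hg 1 t
      · exact hg 2 t
      · exact hg 3 t
    refine le_trans (le_of_eq ?_) (U3B_any N ![g 0, fun t => u3b_e t * g 1 t, g 2, g 3] hg' 0)
    refine Finset.sum_congr rfl fun y _ => ?_
    refine Finset.sum_congr rfl fun y' _ => ?_
    refine congrArg (fun w : ℝ => w ^ 2) ?_
    rw [← one_mul (‖∑ z : ZMod N, u3b_e z * (g 0 z * g 1 (z + y) * g 2 (z + y') * g 3 (z + y + y'))‖), ← u3b_e_norm y,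
      ← norm_mul, Finset.mul_sum]
    refine congrArg (fun w : ℂ => ‖w‖) ?_
    refine Finset.sum_congr rfl fun z _ => ?_
    show u3b_e y * (u3b_e z * (g 0 z * g 1 (z + y) * g 2 (z + y') * g 3 (z + y + y'))) =
      g 0 z * (u3b_e (z + y) * g 1 (z + y)) * g 2 (z + y') * g 3 (z + y + y')
    rw [u3b_e_add hN]
    ring
  · have hg' : ∀ i t, ‖(![fun t => u3b_e t * g 0 t, g 1, g 2, g 3] : Fin 4 → ZMod N → ℂ) i t‖ ≤ 1 := by
      intro i t
      fin_cases i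
      · show ‖u3b_e t * g 0 t‖ ≤ 1
        rw [norm_mul, u3b_e_norm, one_mul]
        exact hg 0 t
      · exact hg 1 t
      · exact hg 2 t
      · exact hg 3 t
    have h1 : (![fun t => u3b_e t * g 0 t, g 1, g 2, g 3] : Fin 4 → ZMod N → ℂ) i = g i := by
      fin_cases i
      · exact absurd rfl hi
      · rfl
      · rfl
      · rfl
    have h2 := U3B_any N ![fun t => u3b_e t * g 0 t, g 1, g 2, g 3] hg' i
    rw [h1] at h2
    refine le_trans (le_of_eq ?_) h2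
    refine Finset.sum_congr rfl fun y _ => ?_
    refine Finset.sum_congr rfl fun y' _ => ?_
    refine congrArg (fun w : ℂ => ‖w‖ ^ 2) ?_
    refine Finset.sum_congr rfl fun z _ => ?_
    show u3b_e z * (g 0 z * g 1 (z + y) * g 2 (z + y') * g 3 (z + y + y')) =
      (u3b_e z * g 0 z) * g 1 (z + y) * g 2 (z + y') * g 3 (z + y + y')
    ring

/-- Proof. Replace `f j` by its translate `f j (· + e j)` (the same `UU`). `N` odd: `z ↦ 2 z` is a bijection. `N` even: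
`∑_z G(2z) = ∑_s (1 + ε(s)) G(s)` with the sign `ε(s) = (-1)^(s.val)` (multiplicative: `ε(s+y) = ε(s) ε(y)`), so
`‖∑_z G(2z)‖² ≤ 2 ‖∑_s G(s)‖² + 2 ‖∑_s ε(s) G(s)‖²`; in the second sum multiply the function with some index `j ≠ i` by `ε`
(`ε(s) = ε(s+y) ε(y)` etc., the sign `ε(y)` does not matter). -/
theorem U3B_two (N : ℕ) [NeZero N] (f : Fin 4 → ZMod N → ℂ) (hf : ∀ i t, ‖f i t‖ ≤ 1) (e : Fin 4 → ZMod N)
    (i : Fin 4) :
    ∑ y : ZMod N, ∑ y' : ZMod N, ‖∑ z : ZMod N, f 0 (2 * z + e 0) * f 1 (2 * z + y + e 1) *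
      f 2 (2 * z + y' + e 2) * f 3 (2 * z + y + y' + e 3)‖ ^ 2 ≤
      4 * (N : ℝ) ^ 3 * (UU (f i)) ^ (1 / 4 : ℝ) := by
  set g : Fin 4 → ZMod N → ℂ := fun j t => f j (t + e j) with hgdef
  have hg : ∀ i t, ‖g i t‖ ≤ 1 := fun i t => hf i _
  have hU : UU (g i) = UU (f i) := u3b_UU N (f i) (e i)
  rw [← hU]
  have hX := U3B_any N g hg i
  have hX0 : 0 ≤ (N : ℝ) ^ 3 * (UU (g i)) ^ (1 / 4 : ℝ) :=
    mul_nonneg (by positivity) (Real.rpow_nonneg (u3b_UU_nonneg N _) _)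
  have e0 : ∀ y y' : ZMod N, ∑ z : ZMod N, f 0 (2 * z + e 0) * f 1 (2 * z + y + e 1) *
      f 2 (2 * z + y' + e 2) * f 3 (2 * z + y + y' + e 3) =
      ∑ z : ZMod N, (fun s => g 0 s * g 1 (s + y) * g 2 (s + y') * g 3 (s + y + y')) (2 * z) := fun y y' => rfl
  by_cases hN : Even N
  · have hY := u3b_sign N hN g hg i
    have h1 : ∀ y y' : ZMod N, ‖∑ z : ZMod N, f 0 (2 * z + e 0) * f 1 (2 * z + y + e 1) *
        f 2 (2 * z + y' + e 2) * f 3 (2 * z + y + y' + e 3)‖ ^ 2 ≤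
        2 * ‖∑ z : ZMod N, g 0 z * g 1 (z + y) * g 2 (z + y') * g 3 (z + y + y')‖ ^ 2 +
        2 * ‖∑ z : ZMod N, u3b_e z * (g 0 z * g 1 (z + y) * g 2 (z + y') * g 3 (z + y + y'))‖ ^ 2 := by
      intro y y'
      rw [e0, u3b_even N hN (fun s => g 0 s * g 1 (s + y) * g 2 (s + y') * g 3 (s + y + y'))]
      have h2 := norm_add_le (∑ z : ZMod N, g 0 z * g 1 (z + y) * g 2 (z + y') * g 3 (z + y + y'))
        (∑ z : ZMod N, u3b_e z * (g 0 z * g 1 (z + y) * g 2 (z + y') * g 3 (z + y + y')))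
      have h3 := norm_nonneg (∑ z : ZMod N, g 0 z * g 1 (z + y) * g 2 (z + y') * g 3 (z + y + y') +
        ∑ z : ZMod N, u3b_e z * (g 0 z * g 1 (z + y) * g 2 (z + y') * g 3 (z + y + y')))
      have h4 := pow_le_pow_left₀ h3 h2 2
      refine h4.trans ?_
      nlinarith [sq_nonneg (‖∑ z : ZMod N, g 0 z * g 1 (z + y) * g 2 (z + y') * g 3 (z + y + y')‖ -
        ‖∑ z : ZMod N, u3b_e z * (g 0 z * g 1 (z + y) * g 2 (z + y') * g 3 (z + y + y'))‖)]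
    refine (Finset.sum_le_sum fun y _ => Finset.sum_le_sum fun y' _ => h1 y y').trans ?_
    simp only [Finset.sum_add_distrib, ← Finset.mul_sum]
    linarith
  · refine le_trans (le_of_eq ?_) (hX.trans ?_)
    · refine Finset.sum_congr rfl fun y _ => ?_
      refine Finset.sum_congr rfl fun y' _ => ?_
      rw [e0, u3b_odd N hN (fun s => g 0 s * g 1 (s + y) * g 2 (s + y') * g 3 (s + y + y'))]
    · linarith

end Pool.Agent.Lib.H59T
end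

-- from Lib.H59T.UC
section

/-!
# Project H59T, chunk UC (M): the forms `uf e` at a prime dividing the conductors
-/

open Finset

namespace Pool.Agent.Lib.H59T

/-- the `U³` norm of a multiple of the conjugate of a character -/
theorem uc_UU (N : ℕ) [NeZero N] (χ : DirichletCharacter ℂ N) (c : ℝ) (hc : |c| ≤ 2) (f : ZMod N → ℂ)
    (hf : ∀ t, f t = c * (starRingEnd ℂ) (χ t) / 2) : UU f ≤ UU (fun s => χ s) := by
  unfold UU
  refine Finset.sum_le_sum fun A _ => Finset.sum_le_sum fun B _ => ?_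
  have e1 : ∑ s : ZMod N, f s * star (f (s + A)) * star (f (s + B)) * f (s + A + B) =
      (((c / 2) ^ 4 : ℝ) : ℂ) * star (∑ s : ZMod N, χ s * star (χ (s + A)) * star (χ (s + B)) * χ (s + A + B)) := by
    rw [star_sum, Finset.mul_sum]
    refine Finset.sum_congr rfl fun s _ => ?_
    rw [hf, hf, hf, hf]
    simp only [← starRingEnd_apply]
    simp only [map_mul, map_div₀, Complex.conj_conj, Complex.conj_ofReal, map_ofNat]
    push_cast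
    ring
  rw [e1, norm_mul, norm_star, Complex.norm_real, Real.norm_eq_abs, mul_pow]
  have h1 : |(c / 2) ^ 4| ≤ 1 := by
    rw [abs_pow, abs_div, abs_two]
    exact pow_le_one₀ (by positivity) (by linarith)
  calc _ ≤ 1 ^ 2 * _ := mul_le_mul_of_nonneg_right (pow_le_pow_left₀ (abs_nonneg _) h1 2) (by positivity)
    _ = _ := by rw [one_pow, one_mul]

/-- Proof. `N = l^a`, `C3_fun`, `C3_nest`: the sum is `∑_{y,y'} A(y,y') conj A'(y,y')`, `A = ∑_z ∏ g_w`, `‖A'‖ ≤ 16 N`. So it is at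
most `16 N · N (∑ ‖A‖²)^(1/2)`, and `∑ ‖A‖² = 256 ∑ ‖∑_z ∏ (g_w/2)‖² ≤ 256 · 4 N³ UU(g_{i0}/2)^(1/4)` (`U3B_two`),
`UU(g_{i0}/2) ≤ UU(χ) ≤ 13 N⁴ l^(-a/9)` (`U1_all`; the factor `|c/2|^8 ≤ 1` and the conjugation do not matter): total
`16 N² (1024 · 2 N⁴ N^(-1/36))^(1/2) ≤ 2^10 N⁴ N^(-1/72)`. -/
theorem UC_cube (l a : ℕ) (hl : l.Prime) (ha : 1 ≤ a) (χ : DirichletCharacter ℂ (l ^ a))
    (hχ : χ.IsPrimitive) (c : ℝ) (hc : |c| ≤ 2) (g g' : Fin 4 → ℤ → ℂ)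
    (hp : ∀ i m, g i (m + (l ^ a : ℕ)) = g i m) (hp' : ∀ i m, g' i (m + (l ^ a : ℕ)) = g' i m)
    (hb : ∀ i m, ‖g i m‖ ≤ 2) (hb' : ∀ i m, ‖g' i m‖ ≤ 2) (i0 : Fin 4)
    (h : ∀ m : ℤ, g i0 m = c * (starRingEnd ℂ) (χ (m : ZMod (l ^ a)))) (e : Fin 4 → ℤ) :
    ‖S4 (l ^ a) (Db (uf e) g g')‖ ≤ ((l ^ a : ℕ) : ℝ) ^ 4 * (2 ^ 12 * ((l ^ a : ℕ) : ℝ) ^ (-(1 / 72 : ℝ))) := by
  have hne : NeZero (l ^ a) := ⟨pow_ne_zero _ hl.ne_zero⟩
  have hl0 : (0 : ℝ) < l := by exact_mod_cast hl.pos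
  have hq0 : (0 : ℝ) < ((l ^ a : ℕ) : ℝ) := by exact_mod_cast pow_pos hl.pos a
  choose G hG using fun i => C3_fun (l ^ a) (g i) (hp i)
  choose G' hG' using fun i => C3_fun (l ^ a) (g' i) (hp' i)
  have hs : ∀ t : ZMod (l ^ a), ∃ m : ℤ, (m : ZMod (l ^ a)) = t := fun t => ZMod.intCast_surjective t
  have bG : ∀ i t, ‖G i t‖ ≤ 2 := by
    intro i t
    obtain ⟨m, rfl⟩ := hs t
    rw [← hG]
    exact hb i m
  have bG' : ∀ i t, ‖G' i t‖ ≤ 2 := by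
    intro i t
    obtain ⟨m, rfl⟩ := hs t
    rw [← hG']
    exact hb' i m
  have hG0 : ∀ t, G i0 t = c * (starRingEnd ℂ) (χ t) := by
    intro t
    obtain ⟨m, rfl⟩ := hs t
    rw [← hG]
    exact h m
  obtain ⟨Pg, hPg⟩ : ∃ Pg : (Fin 4 → ZMod (l ^ a) → ℂ) → ZMod (l ^ a) → ZMod (l ^ a) → ZMod (l ^ a) → ℂ,
      ∀ F y y' z, Pg F y y' z = F 0 (2 * z + (e 0 : ZMod (l ^ a))) * F 1 (2 * z + y + (e 1 : ZMod (l ^ a))) *
        F 2 (2 * z + y' + (e 2 : ZMod (l ^ a))) * F 3 (2 * z + y + y' + (e 3 : ZMod (l ^ a))) :=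
    ⟨_, fun _ _ _ _ => rfl⟩
  have e1 : Db (uf e) g g' = fun y y' z z' : ℤ =>
      (fun y y' z z' : ZMod (l ^ a) => Pg G y y' z * (starRingEnd ℂ) (Pg G' y y' z')) y y' z z' := by
    funext y y' z z'
    unfold Db
    rw [Fin.prod_univ_four]
    simp only [uf, hG, hG', Matrix.cons_val_zero, Matrix.cons_val_one, Matrix.cons_val, hPg, map_mul]
    push_cast
    ring
  have e2 : S4 (l ^ a) (Db (uf e) g g') = ∑ y : ZMod (l ^ a), ∑ y' : ZMod (l ^ a),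
      (∑ z : ZMod (l ^ a), Pg G y y' z) * (starRingEnd ℂ) (∑ z' : ZMod (l ^ a), Pg G' y y' z') := by
    rw [e1, C3_nest (l ^ a) (fun y y' z z' : ZMod (l ^ a) => Pg G y y' z * (starRingEnd ℂ) (Pg G' y y' z'))]
    refine Finset.sum_congr rfl fun y _ => Finset.sum_congr rfl fun y' _ => ?_
    rw [map_sum, Finset.sum_mul_sum]
  have hA' : ∀ y y' : ZMod (l ^ a), ‖∑ z' : ZMod (l ^ a), Pg G' y y' z'‖ ≤ 16 * ((l ^ a : ℕ) : ℝ) := by
    intro y y'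
    calc _ ≤ ∑ z' : ZMod (l ^ a), ‖Pg G' y y' z'‖ := norm_sum_le _ _
      _ ≤ ∑ _z' : ZMod (l ^ a), (16 : ℝ) := by
        refine Finset.sum_le_sum fun z' _ => ?_
        rw [hPg, norm_mul, norm_mul, norm_mul]
        calc _ ≤ ((2 : ℝ) * 2 * 2) * 2 :=
              mul_le_mul (mul_le_mul (mul_le_mul (bG' 0 _) (bG' 1 _) (norm_nonneg _) (by norm_num)) (bG' 2 _)
                (norm_nonneg _) (by norm_num)) (bG' 3 _) (norm_nonneg _) (by norm_num)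
          _ = 16 := by norm_num
      _ = 16 * ((l ^ a : ℕ) : ℝ) := by rw [Finset.sum_const, Finset.card_univ, ZMod.card, nsmul_eq_mul, mul_comm]
  have hA : ∑ y : ZMod (l ^ a), ∑ y' : ZMod (l ^ a), ‖∑ z : ZMod (l ^ a), Pg G y y' z‖ ^ 2 ≤
      2048 * (((l ^ a : ℕ) : ℝ) ^ 4 * ((l ^ a : ℕ) : ℝ) ^ (-(1 / 36 : ℝ))) := by
    have u1 := U3B_two (l ^ a) (fun i t => G i t / 2) (fun i t => by
      have hn2 : ‖(2 : ℂ)‖ = 2 := by simp
      rw [norm_div, hn2]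
      have := bG i t
      linarith) (fun i => (e i : ZMod (l ^ a))) i0
    have u2 : ∑ y : ZMod (l ^ a), ∑ y' : ZMod (l ^ a), ‖∑ z : ZMod (l ^ a), Pg G y y' z‖ ^ 2 =
        256 * ∑ y : ZMod (l ^ a), ∑ y' : ZMod (l ^ a), ‖∑ z : ZMod (l ^ a),
          G 0 (2 * z + (e 0 : ZMod (l ^ a))) / 2 * (G 1 (2 * z + y + (e 1 : ZMod (l ^ a))) / 2) *
          (G 2 (2 * z + y' + (e 2 : ZMod (l ^ a))) / 2) * (G 3 (2 * z + y + y' + (e 3 : ZMod (l ^ a))) / 2)‖ ^ 2 := by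
      rw [Finset.mul_sum]
      refine Finset.sum_congr rfl fun y _ => ?_
      rw [Finset.mul_sum]
      refine Finset.sum_congr rfl fun y' _ => ?_
      have u3 : ∑ z : ZMod (l ^ a), Pg G y y' z = 16 * ∑ z : ZMod (l ^ a),
          G 0 (2 * z + (e 0 : ZMod (l ^ a))) / 2 * (G 1 (2 * z + y + (e 1 : ZMod (l ^ a))) / 2) *
          (G 2 (2 * z + y' + (e 2 : ZMod (l ^ a))) / 2) *
          (G 3 (2 * z + y + y' + (e 3 : ZMod (l ^ a))) / 2) := by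
        rw [Finset.mul_sum]
        refine Finset.sum_congr rfl fun z _ => ?_
        rw [hPg]
        ring
      have hn16 : ‖(16 : ℂ)‖ = 16 := by simp
      rw [u3, norm_mul, hn16, mul_pow]
      norm_num
    have u4 : UU (fun t => G i0 t / 2) ≤ 13 * ((l ^ a : ℕ) : ℝ) ^ 4 * (l : ℝ) ^ (-(a / 9 : ℝ)) :=
      (uc_UU (l ^ a) χ c hc (fun t => G i0 t / 2) (fun t => by rw [hG0])).trans (U1_all l a hl ha χ hχ)
    have hUU0 : 0 ≤ UU (fun t => G i0 t / 2) :=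
      Finset.sum_nonneg fun _ _ => Finset.sum_nonneg fun _ _ => by positivity
    have u5 : (UU (fun t => G i0 t / 2)) ^ (1 / 4 : ℝ) ≤
        2 * (((l ^ a : ℕ) : ℝ) * ((l ^ a : ℕ) : ℝ) ^ (-(1 / 36 : ℝ))) := by
      have v0 : ((l ^ a : ℕ) : ℝ) ^ (-(1 / 9 : ℝ)) = (l : ℝ) ^ (-(a / 9 : ℝ)) := by
        push_cast
        rw [← Real.rpow_natCast, ← Real.rpow_mul hl0.le]
        congr 1
        ring
      have v1 : 13 * ((l ^ a : ℕ) : ℝ) ^ 4 * (l : ℝ) ^ (-(a / 9 : ℝ)) ≤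
          (2 * (((l ^ a : ℕ) : ℝ) * ((l ^ a : ℕ) : ℝ) ^ (-(1 / 36 : ℝ)))) ^ (4 : ℝ) := by
        have v2 : (2 * (((l ^ a : ℕ) : ℝ) * ((l ^ a : ℕ) : ℝ) ^ (-(1 / 36 : ℝ)))) ^ (4 : ℝ) =
            16 * (((l ^ a : ℕ) : ℝ) ^ 4 * ((l ^ a : ℕ) : ℝ) ^ (-(1 / 9 : ℝ))) := by
          rw [Real.mul_rpow (by norm_num) (by positivity), Real.mul_rpow hq0.le (by positivity),
            ← Real.rpow_mul hq0.le]
          have v3 : (4 : ℝ) = ((4 : ℕ) : ℝ) := by norm_num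
          have v4 : (-(1 / 36 : ℝ)) * 4 = -(1 / 9 : ℝ) := by norm_num
          rw [v4]
          rw [v3, Real.rpow_natCast, Real.rpow_natCast]
          norm_num
        rw [v2, v0]
        have v5 : 0 ≤ ((l ^ a : ℕ) : ℝ) ^ 4 * (l : ℝ) ^ (-(a / 9 : ℝ)) := by positivity
        nlinarith
      calc (UU (fun t => G i0 t / 2)) ^ (1 / 4 : ℝ) ≤
          ((2 * (((l ^ a : ℕ) : ℝ) * ((l ^ a : ℕ) : ℝ) ^ (-(1 / 36 : ℝ)))) ^ (4 : ℝ)) ^ (1 / 4 : ℝ) :=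
            Real.rpow_le_rpow hUU0 (u4.trans v1) (by norm_num)
        _ = 2 * (((l ^ a : ℕ) : ℝ) * ((l ^ a : ℕ) : ℝ) ^ (-(1 / 36 : ℝ))) := by
          rw [← Real.rpow_mul (by positivity)]
          norm_num
    rw [u2]
    calc _ ≤ 256 * (4 * ((l ^ a : ℕ) : ℝ) ^ 3 * (UU (fun t => G i0 t / 2)) ^ (1 / 4 : ℝ)) :=
          mul_le_mul_of_nonneg_left u1 (by norm_num)
      _ ≤ 256 * (4 * ((l ^ a : ℕ) : ℝ) ^ 3 * (2 * (((l ^ a : ℕ) : ℝ) * ((l ^ a : ℕ) : ℝ) ^ (-(1 / 36 : ℝ))))) := by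
        gcongr
      _ = 2048 * (((l ^ a : ℕ) : ℝ) ^ 4 * ((l ^ a : ℕ) : ℝ) ^ (-(1 / 36 : ℝ))) := by ring
  have h1 : ‖S4 (l ^ a) (Db (uf e) g g')‖ ≤
      16 * ((l ^ a : ℕ) : ℝ) * ∑ y : ZMod (l ^ a), ∑ y' : ZMod (l ^ a), ‖∑ z : ZMod (l ^ a), Pg G y y' z‖ := by
    rw [e2, Finset.mul_sum]
    refine (norm_sum_le _ _).trans (Finset.sum_le_sum fun y _ => ?_)
    rw [Finset.mul_sum]
    refine (norm_sum_le _ _).trans (Finset.sum_le_sum fun y' _ => ?_)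
    rw [norm_mul, RCLike.norm_conj, mul_comm]
    exact mul_le_mul_of_nonneg_right (hA' y y') (norm_nonneg _)
  have h2 := u3_cs (l ^ a) (fun y y' => ‖∑ z : ZMod (l ^ a), Pg G y y' z‖)
  have hsq : (((l ^ a : ℕ) : ℝ) ^ (-(1 / 72 : ℝ))) ^ 2 = ((l ^ a : ℕ) : ℝ) ^ (-(1 / 36 : ℝ)) := by
    rw [← Real.rpow_natCast, ← Real.rpow_mul hq0.le]
    norm_num
  have h3 : ∑ y : ZMod (l ^ a), ∑ y' : ZMod (l ^ a), ‖∑ z : ZMod (l ^ a), Pg G y y' z‖ ≤
      64 * (((l ^ a : ℕ) : ℝ) ^ 3 * ((l ^ a : ℕ) : ℝ) ^ (-(1 / 72 : ℝ))) := by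
    refine (pow_le_pow_iff_left₀ (Finset.sum_nonneg fun _ _ => Finset.sum_nonneg fun _ _ => norm_nonneg _)
      (by positivity) two_ne_zero).1 (h2.trans ?_)
    calc _ ≤ ((l ^ a : ℕ) : ℝ) ^ 2 * (2048 * (((l ^ a : ℕ) : ℝ) ^ 4 * ((l ^ a : ℕ) : ℝ) ^ (-(1 / 36 : ℝ)))) :=
          mul_le_mul_of_nonneg_left hA (by positivity)
      _ ≤ (64 * (((l ^ a : ℕ) : ℝ) ^ 3 * ((l ^ a : ℕ) : ℝ) ^ (-(1 / 72 : ℝ)))) ^ 2 := by
        rw [← hsq]
        have h5 : 0 ≤ ((l ^ a : ℕ) : ℝ) ^ 6 * (((l ^ a : ℕ) : ℝ) ^ (-(1 / 72 : ℝ))) ^ 2 := by positivity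
        nlinarith
  refine h1.trans ((mul_le_mul_of_nonneg_left h3 (by positivity)).trans ?_)
  have h6 : 0 ≤ ((l ^ a : ℕ) : ℝ) ^ 4 * ((l ^ a : ℕ) : ℝ) ^ (-(1 / 72 : ℝ)) := by positivity
  nlinarith

end Pool.Agent.Lib.H59T
end

-- from Lib.H59T.UE
section

/-!
# Project H59T, chunk UE (S/M): the local bounds for the forms `uf e`
-/

open Finset

namespace Pool.Agent.Lib.H59T

/-- Proof. As `E7_four` (`E7.lean`), with `UC_cube` and `UD_cube`. -/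
theorem UE_loc (e : Fin 4 → ℤ) : LocB (uf e) 12 (1 / 72) := by
  intro p hp κ κ' hκ hκ' l hl
  have hl2 : (2 : ℝ) ≤ l := by exact_mod_cast hl.two_le
  refine ⟨fun hd => ?_, fun hd hex => ?_⟩
  · obtain ⟨h1, h2, i0, h3, h4⟩ := E7_attained p hp l hl hd
    have hch := L4_char (p i0) (hp i0).1 (hp i0).2 l hl h4
    rw [h3] at hch
    obtain ⟨χ, hχ, hlf⟩ := hch
    have hc : |(l : ℝ) / ((l : ℝ) - 1)| ≤ 2 := by
      rw [abs_of_nonneg (by apply div_nonneg <;> linarith), div_le_iff₀ (by linarith)]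
      linarith
    have hper : ∀ (K : Fin 4 → ℕ) (i : Fin 4) (m : ℤ),
        lf (p i) (K i) l (m + ((l ^ (Rm p).factorization l : ℕ) : ℤ)) = lf (p i) (K i) l m := by
      intro K i m
      have := L4_per (p i) (hp i).1 (hp i).2 (K i) l ((Rm p).factorization l) hl h1 (h2 i) m 1
      rw [mul_one] at this
      rw [← this]
      push_cast
      rfl
    exact UC_cube l ((Rm p).factorization l) hl h1 χ hχ _ hc (fun i => lf (p i) (κ i) l) (fun i => lf (p i) (κ' i) l)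
      (fun i m => hper κ i m) (fun i m => hper κ' i m) (fun i m => L4_norm _ _ _ hl m) (fun i m => L4_norm _ _ _ hl m) i0
      (fun m => hlf (κ i0) m) e
  · have hnd : ∀ i, ¬ l ∣ (p i).1 := fun i h => hd (h.trans (Finset.dvd_lcm (Finset.mem_univ i)))
    have hg : ∀ (K : Fin 4 → ℕ), (fun i => lf (p i) (K i) l) =
        (fun i (m : ℤ) => if l ∣ K i then ((Pool.Agent.Lib.H59P.gl l m : ℝ) : ℂ) else 1) := by
      intro K
      funext i m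
      unfold lf
      rw [if_neg (hnd i)]
    rw [hg κ, hg κ']
    have h5 := UD_cube l hl e (fun i => l ∣ κ i) (fun i => l ∣ κ' i) hex
    refine h5.trans ?_
    have h6 : (l : ℝ) ^ 4 * (2 ^ 12 / (l : ℝ) ^ 2) = 2 ^ 12 * (l : ℝ) ^ 2 := by
      have : (l : ℝ) ≠ 0 := by positivity
      field_simp
    rw [h6]
    have h7 : 0 ≤ (l : ℝ) ^ 2 := by positivity
    nlinarith

/-- Proof. Differences of the values. -/
theorem UE_cp (e : Fin 4 → ℤ) : CpF (uf e) := by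
  intro i q y y' z
  fin_cases i
  · show q ∣ (2 * z + e 0) - (2 * z + e 0) ∧ q ∣ (2 * z + e 0) - (2 * z + e 0) ∧ q ∣ (2 * (z + q) + e 0) - (2 * z + e 0)
    exact ⟨⟨0, by ring⟩, ⟨0, by ring⟩, ⟨2, by ring⟩⟩
  · show q ∣ (2 * z + (y + q) + e 1) - (2 * z + y + e 1) ∧ q ∣ (2 * z + y + e 1) - (2 * z + y + e 1) ∧
      q ∣ (2 * (z + q) + y + e 1) - (2 * z + y + e 1)
    exact ⟨⟨1, by ring⟩, ⟨0, by ring⟩, ⟨2, by ring⟩⟩
  · show q ∣ (2 * z + y' + e 2) - (2 * z + y' + e 2) ∧ q ∣ (2 * z + (y' + q) + e 2) - (2 * z + y' + e 2) ∧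
      q ∣ (2 * (z + q) + y' + e 2) - (2 * z + y' + e 2)
    exact ⟨⟨0, by ring⟩, ⟨1, by ring⟩, ⟨2, by ring⟩⟩
  · show q ∣ (2 * z + (y + q) + y' + e 3) - (2 * z + y + y' + e 3) ∧ q ∣ (2 * z + y + (y' + q) + e 3) - (2 * z + y + y' + e 3) ∧
      q ∣ (2 * (z + q) + y + y' + e 3) - (2 * z + y + y' + e 3)
    exact ⟨⟨1, by ring⟩, ⟨1, by ring⟩, ⟨2, by ring⟩⟩

end Pool.Agent.Lib.H59T
end

-- from Lib.H59T.F4
section

/-!
# Project H59T, chunk F4 (S/M): the four forms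
-/

open Finset

namespace Pool.Agent.Lib.H59T

open Pool.Agent.Lib.H68T Pool.Agent.Lib.H18Q Pool.Agent.Lib.H59P

/-- **The four forms.** Proof. `F3_gen` with `E7_four`, `E7_cp`, `Fin.prod_univ_four`. -/
theorem F4_four : ∃ C : ℝ, 0 < C ∧ ∀ Q D : ℕ, 1 ≤ D → ∀ p : Fin 4 → Ch, (∀ i, p i ∈ PC Q) →
    ∀ T : Finset (Fin 4 → ℕ), T ⊆ Fintype.piFinset (fun i => KS Q (p i).1) →
    (∀ κ ∈ T, D < univ.lcm (fun i => (p i).1 * κ i)) → ∀ a a' b s s' H : ℕ,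
    Q ^ 40 ≤ s → Q ^ 40 ≤ s' → Q ^ 40 ≤ H →
    ∑ y ∈ Ico a (a + s), ∑ y' ∈ Ico a' (a' + s'), ‖∑ z ∈ Ico b (b + H), ∑ κ ∈ T,
      ∏ i, gk (p i) (κ i) ((![(y : ℤ) + z, y - z, y' + z, y' - z] : Fin 4 → ℤ) i)‖ ^ 2 ≤
      C * ((s : ℝ) * s' * H ^ 2) * (D : ℝ) ^ (-(1 / 36 : ℝ)) := by
  obtain ⟨C, hC, h0⟩ := F3_gen 4 10 (1 / 18) (by norm_num) (by norm_num)
  have h := h0 ff E7_cp E7_four
  refine ⟨C, hC, fun Q D hD p hp T hT hTD a a' b s s' H hs hs' hH => ?_⟩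
  have h1 := h Q D hD p hp T hT hTD a a' b s s' H hs hs' hH
  have e1 : -(1 / 18 / 2 : ℝ) = -(1 / 36 : ℝ) := by norm_num
  rw [e1] at h1
  refine le_trans (le_of_eq ?_) h1
  refine sum_congr rfl fun y _ => sum_congr rfl fun y' _ => ?_
  have h2 : ∀ (z : ℕ) (κ : Fin 4 → ℕ),
      ∏ i, gk (p i) (κ i) ((![(y : ℤ) + z, y - z, y' + z, y' - z] : Fin 4 → ℤ) i) =
        ∏ i, gk (p i) (κ i) (ff i y y' z) := by
    intro z κ
    rw [Fin.prod_univ_four, Fin.prod_univ_four]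
    rfl
  simp only [h2]

end Pool.Agent.Lib.H59T
end

-- from Lib.H59T.F5
section

/-!
# Project H59T, chunk F5 (M): the weighted version for two forms
-/

open Finset

namespace Pool.Agent.Lib.H59T

open Pool.Agent.Lib.H68T Pool.Agent.Lib.H18Q Pool.Agent.Lib.H59P

/-- The conjugate character. -/
noncomputable def cjp (p : Ch) : Ch := ⟨p.1, p.2⁻¹⟩

theorem f5_inv_prim {r : ℕ} (χ : DirichletCharacter ℂ r) (h : χ.IsPrimitive) :
    (χ⁻¹).IsPrimitive := by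
  have key : ∀ ψ : DirichletCharacter ℂ r, ψ.conductorSet ⊆ (ψ⁻¹).conductorSet := by
    rintro ψ d ⟨hd, ξ, hξ⟩
    exact ⟨hd, ξ⁻¹, by rw [map_inv, ← hξ]⟩
  have e : (χ⁻¹).conductorSet = χ.conductorSet := by
    apply Set.Subset.antisymm
    · have := key χ⁻¹
      rwa [inv_inv] at this
    · exact key χ
  unfold DirichletCharacter.IsPrimitive DirichletCharacter.conductor at *
  rw [e]
  exact h

/-- Proof. The inverse of a primitive character is primitive, `conj χ = χ⁻¹` (`MulChar.star_apply'`-type lemma or values of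
absolute value `1` on units), the other factors of `gk` are real. -/
theorem F5_conj (Q : ℕ) (p : Ch) (hp : p ∈ PC Q) (κ : ℕ) (m : ℤ) :
    cjp p ∈ PC Q ∧ (starRingEnd ℂ) (gk p κ m) = gk (cjp p) κ m := by
  obtain ⟨h1, h2, h3⟩ := mem_PC.1 hp
  refine ⟨mem_PC.2 ⟨h1, h2, f5_inv_prim p.2 h3⟩, ?_⟩
  have hne : NeZero p.1 := ⟨by omega⟩
  have hs : ∀ (χ : DirichletCharacter ℂ p.1) (a : ZMod p.1), (starRingEnd ℂ) (χ a) = χ⁻¹ a :=
    fun χ a => χ.star_apply' a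
  unfold gk cjp
  dsimp only
  rw [map_mul, map_mul, Complex.conj_ofReal, Complex.conj_ofReal, Complex.conj_conj, hs, inv_inv]

theorem f5_neg (p : Ch) (κ : ℕ) (m : ℤ) :
    gk p κ (-m) = (starRingEnd ℂ) (p.2 (((-1 : ℤ)) : ZMod p.1)) * gk p κ m := by
  have h : ((-m : ℤ) : ZMod p.1) = ((-1 : ℤ) : ZMod p.1) * (m : ZMod p.1) := by
    push_cast
    ring
  have hc : cq κ (-m) = cq κ m := by
    unfold cq
    simp only [dvd_neg]
  unfold gk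
  rw [h, map_mul, map_mul, hc]
  ring

theorem f5_eps (p : Ch) :
    (starRingEnd ℂ) (p.2 (((-1 : ℤ)) : ZMod p.1)) *
      (starRingEnd ℂ) ((starRingEnd ℂ) (p.2 (((-1 : ℤ)) : ZMod p.1))) = 1 := by
  have h1 : p.2 (((-1 : ℤ)) : ZMod p.1) * p.2 (((-1 : ℤ)) : ZMod p.1) = 1 := by
    rw [← map_mul]
    have : (((-1 : ℤ)) : ZMod p.1) * (((-1 : ℤ)) : ZMod p.1) = 1 := by
      push_cast
      ring
    rw [this, map_one]
  have h2 : ‖p.2 (((-1 : ℤ)) : ZMod p.1)‖ = 1 := by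
    have h3 : ‖p.2 (((-1 : ℤ)) : ZMod p.1)‖ * ‖p.2 (((-1 : ℤ)) : ZMod p.1)‖ = 1 := by
      rw [← norm_mul, h1, norm_one]
    nlinarith [norm_nonneg (p.2 (((-1 : ℤ)) : ZMod p.1))]
  rw [Complex.conj_conj, mul_comm, Complex.mul_conj', h2]
  norm_num

/-- The embedding of pairs of index vectors. -/
def f5_emb (q : (Fin 2 → ℕ) × (Fin 2 → ℕ)) : Fin 4 → ℕ := ![q.1 0, q.1 1, q.2 0, q.2 1]

theorem f5_emb_inj : Function.Injective f5_emb := by
  rintro ⟨a, b⟩ ⟨c, d⟩ h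
  have h0 := congrFun h 0
  have h1 := congrFun h 1
  have h2 := congrFun h 2
  have h3 := congrFun h 3
  simp [f5_emb] at h0 h1 h2 h3
  ext i
  · fin_cases i <;> simp [h0, h1]
  · fin_cases i <;> simp [h2, h3]

theorem f5_kernel (Q : ℕ) (p : Fin 2 → Ch) (hp : ∀ i, p i ∈ PC Q) (T : Finset (Fin 2 → ℕ)) (I : Finset ℕ)
    (y1 y2 : ℕ) :
    ∑ x ∈ I, (∑ κ ∈ T, ∏ i, gk (p i) (κ i) ((![(x : ℤ) + y1, x - y1] : Fin 2 → ℤ) i)) *
      (starRingEnd ℂ) (∑ κ ∈ T, ∏ i, gk (p i) (κ i) ((![(x : ℤ) + y2, x - y2] : Fin 2 → ℤ) i)) =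
    ∑ z ∈ I, ∑ κ ∈ (T ×ˢ T).image f5_emb,
      ∏ i, gk ((![p 0, p 1, cjp (p 0), cjp (p 1)] : Fin 4 → Ch) i) (κ i)
        ((![(y1 : ℤ) + z, y1 - z, y2 + z, y2 - z] : Fin 4 → ℤ) i) := by
  refine sum_congr rfl fun x _ => ?_
  rw [sum_image (fun a _ b _ h => f5_emb_inj h), sum_product, map_sum, sum_mul_sum]
  refine sum_congr rfl fun κ _ => sum_congr rfl fun κ' _ => ?_
  rw [Fin.prod_univ_two, Fin.prod_univ_two, Fin.prod_univ_four, map_mul,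
    (F5_conj Q (p 0) (hp 0) (κ' 0) _).2, (F5_conj Q (p 1) (hp 1) (κ' 1) _).2]
  have e1 : ((![(x : ℤ) + y1, x - y1] : Fin 2 → ℤ) 0) = (y1 : ℤ) + x := by
    change (x : ℤ) + y1 = _
    ring
  have e2 : ((![(x : ℤ) + y1, x - y1] : Fin 2 → ℤ) 1) = -((y1 : ℤ) - x) := by
    change (x : ℤ) - y1 = _
    ring
  have e3 : ((![(x : ℤ) + y2, x - y2] : Fin 2 → ℤ) 0) = (y2 : ℤ) + x := by
    change (x : ℤ) + y2 = _
    ring
  have e4 : ((![(x : ℤ) + y2, x - y2] : Fin 2 → ℤ) 1) = -((y2 : ℤ) - x) := by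
    change (x : ℤ) - y2 = _
    ring
  rw [e1, e2, e3, e4, ← (F5_conj Q (p 1) (hp 1) (κ' 1) (-((y2 : ℤ) - x))).2, f5_neg, f5_neg, map_mul,
    (F5_conj Q (p 1) (hp 1) (κ' 1) ((y2 : ℤ) - x)).2]
  have h := f5_eps (p 1)
  change gk (p 0) (κ 0) ((y1 : ℤ) + x) *
      ((starRingEnd ℂ) ((p 1).2 (((-1 : ℤ)) : ZMod (p 1).1)) * gk (p 1) (κ 1) ((y1 : ℤ) - x)) *
      (gk (cjp (p 0)) (κ' 0) ((y2 : ℤ) + x) *
        ((starRingEnd ℂ) ((starRingEnd ℂ) ((p 1).2 (((-1 : ℤ)) : ZMod (p 1).1))) *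
          gk (cjp (p 1)) (κ' 1) ((y2 : ℤ) - x))) =
    gk (p 0) (κ 0) ((y1 : ℤ) + x) * gk (p 1) (κ 1) ((y1 : ℤ) - x) *
      gk (cjp (p 0)) (κ' 0) ((y2 : ℤ) + x) * gk (cjp (p 1)) (κ' 1) ((y2 : ℤ) - x)
  linear_combination (gk (p 0) (κ 0) ((y1 : ℤ) + x) * gk (p 1) (κ 1) ((y1 : ℤ) - x) *
      gk (cjp (p 0)) (κ' 0) ((y2 : ℤ) + x) * gk (cjp (p 1)) (κ' 1) ((y2 : ℤ) - x)) * h

theorem f5_cs (I J : Finset ℕ) (w : ℕ → ℂ) (F : ℕ → ℕ → ℂ) :
    ∑ x ∈ I, ‖∑ y ∈ J, w y * F x y‖ ^ 2 ≤ (∑ y ∈ J, ‖w y‖ ^ 2) *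
      Real.sqrt (∑ y1 ∈ J, ∑ y2 ∈ J, ‖∑ x ∈ I, F x y1 * (starRingEnd ℂ) (F x y2)‖ ^ 2) := by
  set A : ℝ := ∑ x ∈ I, ‖∑ y ∈ J, w y * F x y‖ ^ 2 with hA
  have hA0 : 0 ≤ A := sum_nonneg fun _ _ => sq_nonneg _
  set K : ℕ → ℕ → ℂ := fun y1 y2 => ∑ x ∈ I, F x y1 * (starRingEnd ℂ) (F x y2) with hK
  have e1 : (A : ℂ) = ∑ y1 ∈ J, ∑ y2 ∈ J, w y1 * (starRingEnd ℂ) (w y2) * K y1 y2 := by
    rw [hA]
    push_cast
    have h1 : ∀ x ∈ I, ((‖∑ y ∈ J, w y * F x y‖ : ℝ) : ℂ) ^ 2 =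
        ∑ y1 ∈ J, ∑ y2 ∈ J, w y1 * (starRingEnd ℂ) (w y2) * (F x y1 * (starRingEnd ℂ) (F x y2)) := by
      intro x _
      rw [← Complex.mul_conj', map_sum, sum_mul_sum]
      refine sum_congr rfl fun y1 _ => sum_congr rfl fun y2 _ => ?_
      rw [map_mul]
      ring
    rw [sum_congr rfl h1, sum_comm]
    refine sum_congr rfl fun y1 _ => ?_
    rw [sum_comm]
    refine sum_congr rfl fun y2 _ => ?_
    rw [hK, mul_sum]
  have e2 : A ≤ ∑ q ∈ J ×ˢ J, (‖w q.1‖ * ‖w q.2‖) * ‖K q.1 q.2‖ := by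
    have h2 : A = ‖(A : ℂ)‖ := by
      rw [Complex.norm_real, Real.norm_of_nonneg hA0]
    rw [h2, e1, sum_product]
    refine (norm_sum_le _ _).trans (sum_le_sum fun y1 _ => (norm_sum_le _ _).trans
      (sum_le_sum fun y2 _ => le_of_eq ?_))
    rw [norm_mul, norm_mul, RCLike.norm_conj]
  have e3 : (∑ q ∈ J ×ˢ J, (‖w q.1‖ * ‖w q.2‖) * ‖K q.1 q.2‖) ^ 2 ≤
      (∑ q ∈ J ×ˢ J, (‖w q.1‖ * ‖w q.2‖) ^ 2) * ∑ q ∈ J ×ˢ J, ‖K q.1 q.2‖ ^ 2 :=
    sum_mul_sq_le_sq_mul_sq _ _ _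
  have e4 : ∑ q ∈ J ×ˢ J, (‖w q.1‖ * ‖w q.2‖) ^ 2 = (∑ y ∈ J, ‖w y‖ ^ 2) ^ 2 := by
    rw [sum_product, sq, sum_mul_sum]
    refine sum_congr rfl fun y1 _ => sum_congr rfl fun y2 _ => ?_
    ring
  have e5 : ∑ q ∈ J ×ˢ J, ‖K q.1 q.2‖ ^ 2 = ∑ y1 ∈ J, ∑ y2 ∈ J, ‖K y1 y2‖ ^ 2 := by
    rw [sum_product]
  rw [e4, e5] at e3
  have hW : 0 ≤ ∑ y ∈ J, ‖w y‖ ^ 2 := sum_nonneg fun _ _ => sq_nonneg _
  have hS : 0 ≤ ∑ y1 ∈ J, ∑ y2 ∈ J, ‖K y1 y2‖ ^ 2 :=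
    sum_nonneg fun _ _ => sum_nonneg fun _ _ => sq_nonneg _
  refine e2.trans (abs_le_of_sq_le_sq' ?_ (mul_nonneg hW (Real.sqrt_nonneg _))).2
  rw [mul_pow, Real.sq_sqrt hS]
  exact e3

theorem f5_lcm (Q D : ℕ) (p : Fin 2 → Ch) (hp : ∀ i, p i ∈ PC Q) (κ κ' : Fin 2 → ℕ)
    (hκ : κ ∈ Fintype.piFinset (fun i => KS Q (p i).1)) (hκ' : κ' ∈ Fintype.piFinset (fun i => KS Q (p i).1))
    (h : D < univ.lcm (fun i => (p i).1 * κ i)) :
    D < univ.lcm (fun i => ((![p 0, p 1, cjp (p 0), cjp (p 1)] : Fin 4 → Ch) i).1 * f5_emb (κ, κ') i) := by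
  have hpos : ∀ (μ : Fin 2 → ℕ), μ ∈ Fintype.piFinset (fun i => KS Q (p i).1) → ∀ i, 1 ≤ μ i := by
    intro μ hμ i
    have h1 := Fintype.mem_piFinset.1 hμ i
    unfold KS at h1
    classical
    rw [mem_filter, mem_Icc] at h1
    exact h1.1.1
  have hp1 : ∀ i, 1 ≤ (p i).1 := fun i => (mem_PC.1 (hp i)).1
  refine lt_of_lt_of_le h (Nat.le_of_dvd ?_ ?_)
  · apply Nat.pos_of_ne_zero
    intro h0
    rw [Finset.lcm_eq_zero_iff] at h0
    obtain ⟨i, _, hi⟩ := h0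
    fin_cases i
    · simp [f5_emb] at hi
      rcases hi with hi | hi
      · have := hp1 0; omega
      · have := hpos κ hκ 0; omega
    · simp [f5_emb] at hi
      rcases hi with hi | hi
      · have := hp1 1; omega
      · have := hpos κ hκ 1; omega
    · simp [f5_emb, cjp] at hi
      rcases hi with hi | hi
      · have := hp1 0; omega
      · have := hpos κ' hκ' 0; omega
    · simp [f5_emb, cjp] at hi
      rcases hi with hi | hi
      · have := hp1 1; omega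
      · have := hpos κ' hκ' 1; omega
  · apply Finset.lcm_dvd
    intro i _
    fin_cases i
    · exact Finset.dvd_lcm (f := fun i => ((![p 0, p 1, cjp (p 0), cjp (p 1)] : Fin 4 → Ch) i).1 *
        f5_emb (κ, κ') i) (mem_univ (0 : Fin 4))
    · exact Finset.dvd_lcm (f := fun i => ((![p 0, p 1, cjp (p 0), cjp (p 1)] : Fin 4 → Ch) i).1 *
        f5_emb (κ, κ') i) (mem_univ (1 : Fin 4))

/-- **Weights.** Here `x` is random and `y` is the summation variable with arbitrary weights. Proof. `F(x,y) = ∑_{κ ∈ T} gk gk`. The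
left side is `∑_{y1,y2} w(y1) conj w(y2) K(y1,y2)`, `K(y1,y2) = ∑_x F(x,y1) conj F(x,y2)`, at most
`(∑ |w|²) (∑_{y1,y2} |K|²)^(1/2)` (Cauchy-Schwarz). The forms are `y + x`, `x - y`; `gk p κ (x - y)` differs from
`gk p κ (y - x)` by the sign `χ(-1)` of the character, which is `±1` and constant. So `K` is, up to a sign, the inner sum in `F4_four` (with
`y = y1`, `y' = y2`, `z = x`) for `![p1, p2, cjp p1, cjp p2]` and `T × T` (image under `(κ, κ') ↦ ![κ 0, κ 1, κ' 0, κ' 1]`),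
`F5_conj`; `lcm` over four is at least the `lcm` over the first two. `(C D^(-1/36))^(1/2)`. -/
theorem F5_weights : ∃ C : ℝ, 0 < C ∧ ∀ Q D : ℕ, 1 ≤ D → ∀ p : Fin 2 → Ch, (∀ i, p i ∈ PC Q) →
    ∀ T : Finset (Fin 2 → ℕ), T ⊆ Fintype.piFinset (fun i => KS Q (p i).1) →
    (∀ κ ∈ T, D < univ.lcm (fun i => (p i).1 * κ i)) → ∀ (w : ℕ → ℂ) (a b s H : ℕ),
    Q ^ 40 ≤ s → Q ^ 40 ≤ H →
    ∑ x ∈ Ico a (a + s), ‖∑ y ∈ Ico b (b + H), w y * ∑ κ ∈ T,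
      ∏ i, gk (p i) (κ i) ((![(x : ℤ) + y, x - y] : Fin 2 → ℤ) i)‖ ^ 2 ≤
      C * ((s : ℝ) * H * ∑ y ∈ Ico b (b + H), ‖w y‖ ^ 2) * (D : ℝ) ^ (-(1 / 72 : ℝ)) := by
  obtain ⟨C, hC, hF⟩ := F4_four
  refine ⟨Real.sqrt C, Real.sqrt_pos.2 hC, ?_⟩
  intro Q D hD p hp T hT hlcm w a b s H hs hH
  have hp' : ∀ i, (![p 0, p 1, cjp (p 0), cjp (p 1)] : Fin 4 → Ch) i ∈ PC Q := by
    intro i
    fin_cases i
    · exact hp 0
    · exact hp 1
    · exact (F5_conj Q (p 0) (hp 0) 0 0).1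
    · exact (F5_conj Q (p 1) (hp 1) 0 0).1
  have hT' : (T ×ˢ T).image f5_emb ⊆ Fintype.piFinset
      (fun i => KS Q ((![p 0, p 1, cjp (p 0), cjp (p 1)] : Fin 4 → Ch) i).1) := by
    intro κ hκ
    obtain ⟨⟨κ1, κ2⟩, hq, rfl⟩ := mem_image.1 hκ
    rw [mem_product] at hq
    have h1 := Fintype.mem_piFinset.1 (hT hq.1)
    have h2 := Fintype.mem_piFinset.1 (hT hq.2)
    rw [Fintype.mem_piFinset]
    intro i
    fin_cases i
    · exact h1 0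
    · exact h1 1
    · exact h2 0
    · exact h2 1
  have hl' : ∀ κ ∈ (T ×ˢ T).image f5_emb, D < univ.lcm
      (fun i => ((![p 0, p 1, cjp (p 0), cjp (p 1)] : Fin 4 → Ch) i).1 * κ i) := by
    intro κ hκ
    obtain ⟨⟨κ1, κ2⟩, hq, rfl⟩ := mem_image.1 hκ
    rw [mem_product] at hq
    exact f5_lcm Q D p hp κ1 κ2 (hT hq.1) (hT hq.2) (hlcm κ1 hq.1)
  have h4 := hF Q D hD _ hp' _ hT' hl' b b a H H s hH hH hs
  have hcs := f5_cs (Ico a (a + s)) (Ico b (b + H)) w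
    (fun x y => ∑ κ ∈ T, ∏ i, gk (p i) (κ i) ((![(x : ℤ) + y, x - y] : Fin 2 → ℤ) i))
  have hker : ∑ y1 ∈ Ico b (b + H), ∑ y2 ∈ Ico b (b + H), ‖∑ x ∈ Ico a (a + s),
      (∑ κ ∈ T, ∏ i, gk (p i) (κ i) ((![(x : ℤ) + y1, x - y1] : Fin 2 → ℤ) i)) *
      (starRingEnd ℂ) (∑ κ ∈ T, ∏ i, gk (p i) (κ i) ((![(x : ℤ) + y2, x - y2] : Fin 2 → ℤ) i))‖ ^ 2 ≤
      C * ((H : ℝ) * H * (s : ℝ) ^ 2) * (D : ℝ) ^ (-(1 / 36 : ℝ)) := by
    refine le_trans (le_of_eq ?_) h4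
    refine sum_congr rfl fun y1 _ => sum_congr rfl fun y2 _ => ?_
    rw [f5_kernel Q p hp T (Ico a (a + s)) y1 y2]
  have hD0 : (0 : ℝ) ≤ (D : ℝ) := Nat.cast_nonneg D
  have hr : Real.sqrt (C * ((H : ℝ) * H * (s : ℝ) ^ 2) * (D : ℝ) ^ (-(1 / 36 : ℝ))) =
      Real.sqrt C * ((s : ℝ) * H) * (D : ℝ) ^ (-(1 / 72 : ℝ)) := by
    have e1 : C * ((H : ℝ) * H * (s : ℝ) ^ 2) * (D : ℝ) ^ (-(1 / 36 : ℝ)) =
        (Real.sqrt C * ((s : ℝ) * H) * (D : ℝ) ^ (-(1 / 72 : ℝ))) ^ 2 := by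
      have e2 : ((D : ℝ) ^ (-(1 / 72 : ℝ))) ^ 2 = (D : ℝ) ^ (-(1 / 36 : ℝ)) := by
        rw [← Real.rpow_natCast, ← Real.rpow_mul hD0]
        norm_num
      rw [mul_pow, mul_pow, Real.sq_sqrt hC.le, e2]
      ring
    rw [e1, Real.sqrt_sq (by positivity)]
  refine hcs.trans ?_
  refine (mul_le_mul_of_nonneg_left (Real.sqrt_le_sqrt hker)
    (sum_nonneg fun _ _ => sq_nonneg _)).trans (le_of_eq ?_)
  rw [hr]
  ring

end Pool.Agent.Lib.H59T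
end

-- from Lib.H59T.UF
section

/-!
# Project H59T, chunk UF (M): small cubes
-/

open Finset

namespace Pool.Agent.Lib.H59T

open Pool.Agent.Lib.H68T Pool.Agent.Lib.H18Q Pool.Agent.Lib.H59P

/-- Proof. `‖gk p κ m‖ ≤ p.1 ≤ Q` (see `F3_sup`), at most `Q` values of `κ`. -/
theorem UF_sup (Q Q' : ℕ) (p : Ch) (hp : p ∈ PC Q) (m : ℤ) : ‖Vl Q Q' p m‖ ≤ (Q : ℝ) ^ 2 := by
  unfold Vl
  refine (norm_sum_le _ _).trans ?_
  have h1 : ∀ κ ∈ (KS Q p.1).filter (fun κ => Q' < p.1 * κ), ‖gk p κ m‖ ≤ (Q : ℝ) := fun κ hκ =>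
    f3_gk Q p hp κ (mem_filter.1 hκ).1 m
  refine (Finset.sum_le_sum h1).trans ?_
  rw [sum_const, nsmul_eq_mul, pow_two]
  refine mul_le_mul_of_nonneg_right ?_ (Nat.cast_nonneg _)
  have h2 : ((KS Q p.1).filter (fun κ => Q' < p.1 * κ)).card ≤ Q := by
    have h3 : (KS Q p.1).filter (fun κ => Q' < p.1 * κ) ⊆ Icc 1 Q := by
      intro κ hκ
      have h4 := CA_mem_KS.1 (mem_filter.1 hκ).1
      exact mem_Icc.2 ⟨h4.1.1, h4.1.2.trans (Nat.div_le_self _ _)⟩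
    have h5 := card_le_card h3
    rwa [Nat.card_Icc, Nat.add_sub_cancel] at h5
  exact_mod_cast h2

/-- the four characters -/
noncomputable def uf_p (p : Ch) : Fin 4 → Ch := ![p, cjp p, cjp p, p]


theorem uf_conj (Q Q' : ℕ) (p : Ch) (hp : p ∈ PC Q) (m : ℤ) :
    (starRingEnd ℂ) (Vl Q Q' p m) = Vl Q Q' (cjp p) m := by
  unfold Vl
  rw [map_sum]
  have h1 : (cjp p).1 = p.1 := rfl
  refine Finset.sum_congr rfl fun κ _ => (F5_conj Q p hp κ m).2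

/-- the set of moduli -/
noncomputable def uf_T (Q Q' : ℕ) (p : Ch) : Finset (Fin 4 → ℕ) :=
  Fintype.piFinset fun i : Fin 4 => (KS Q (uf_p p i).1).filter (fun κ => Q' < (uf_p p i).1 * κ)

theorem uf_expand (Q Q' : ℕ) (p : Ch) (hp : p ∈ PC Q) (h h' k k' t m : ℤ) :
    P4 (Vl Q Q' p) h h' k k' (m + 2 * t) = ∑ κ ∈ uf_T Q Q' p,
      ∏ i, gk (uf_p p i) (κ i) (uf ![m + h + k, m + k, m + h, m] i h' k' t) := by
  unfold uf_T
  rw [← Finset.prod_univ_sum (fun i : Fin 4 => (KS Q (uf_p p i).1).filter (fun κ => Q' < (uf_p p i).1 * κ))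
    (fun i κ => gk (uf_p p i) κ (uf ![m + h + k, m + k, m + h, m] i h' k' t))]
  rw [Fin.prod_univ_four]
  unfold P4
  rw [uf_conj Q Q' p hp, uf_conj Q Q' p hp]
  have e0 : uf ![m + h + k, m + k, m + h, m] 0 h' k' t = m + 2 * t + h + k := by
    show 2 * t + (m + h + k) = _
    ring
  have e1 : uf ![m + h + k, m + k, m + h, m] 1 h' k' t = m + 2 * t + h' + k := by
    show 2 * t + h' + (m + k) = _
    ring
  have e2 : uf ![m + h + k, m + k, m + h, m] 2 h' k' t = m + 2 * t + h + k' := by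
    show 2 * t + k' + (m + h) = _
    ring
  have e3 : uf ![m + h + k, m + k, m + h, m] 3 h' k' t = m + 2 * t + h' + k' := by
    show 2 * t + h' + k' + m = _
    ring
  rw [e0, e1, e2, e3]
  rfl

theorem uf_lcm (Q Q' : ℕ) (p : Ch) (hp : p ∈ PC Q) (κ : Fin 4 → ℕ) (hκ : κ ∈ uf_T Q Q' p) :
    Q' < univ.lcm (fun i => (uf_p p i).1 * κ i) := by
  have h1 : ∀ i, κ i ∈ KS Q (uf_p p i).1 ∧ Q' < (uf_p p i).1 * κ i := fun i =>
    mem_filter.1 (Fintype.mem_piFinset.1 hκ i)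
  refine (h1 0).2.trans_le (Nat.le_of_dvd ?_ (Finset.dvd_lcm (mem_univ 0)))
  refine Nat.pos_of_ne_zero ?_
  rw [Ne, Finset.lcm_eq_zero_iff]
  rintro ⟨i, -, hi⟩
  have h2 := (h1 i).2
  omega

/-- Proof. For fixed `h, k` put `y = h'`, `y' = k'`, `z = t`: `P4 V h h' k k' (m + 2t)` is the product of `V`, `conj V`, `conj V`, `V` at the
forms `uf e` with `e = ![m+h+k, m+k, m+h, m]`. Expand `V = Vl Q Q' p` (and its conjugate, `F5_conj`): it is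
`∑_{κ ∈ T} ∏_i gk (p_i) (κ i) (uf e i …)` with `p_i = ![p, cjp p, cjp p, p]`, `T` = the product (`Fintype.piFinset`) of the sets
`(KS Q p.1).filter (Q' < p.1 κ)` (`Finset.prod_univ_sum`), and `Q' < p.1 κ_0 ≤ lcm`. `F3_gen` with `k = 4`, `A = 12`, `c = 1/72`,
`D = Q'`, `a = a' = b = 0`, `s = s' = H` (`Q^40 ≤ H`): at most `C H⁴ Q'^(-1/144)` for each of the `H²` pairs `(h, k)`. -/
theorem UF_cube : ∃ C : ℝ, 0 < C ∧ ∀ Q Q' H : ℕ, 1 ≤ Q' → Q ^ 40 ≤ H → ∀ p ∈ PC Q, ∀ m : ℤ,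
    ∑ h ∈ range H, ∑ h' ∈ range H, ∑ k ∈ range H, ∑ k' ∈ range H,
      ‖∑ t ∈ range H, P4 (Vl Q Q' p) h h' k k' (m + 2 * t)‖ ^ 2 ≤
      C * (H : ℝ) ^ 6 * (Q' : ℝ) ^ (-(1 / 144 : ℝ)) := by
  obtain ⟨C, hC, hF⟩ := F3_gen 4 12 (1 / 72) (by norm_num) (by norm_num)
  refine ⟨C, hC, fun Q Q' H hQ' hH p hp m => ?_⟩
  have hpp : ∀ i, uf_p p i ∈ PC Q := by
    intro i
    have h1 := (F5_conj Q p hp 1 0).1
    fin_cases i
    · exact hp
    · exact h1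
    · exact h1
    · exact hp
  have key : ∀ h k : ℕ, ∑ h' ∈ range H, ∑ k' ∈ range H,
      ‖∑ t ∈ range H, P4 (Vl Q Q' p) h h' k k' (m + 2 * t)‖ ^ 2 ≤
      C * ((H : ℝ) * H * (H : ℝ) ^ 2) * (Q' : ℝ) ^ (-(1 / 144 : ℝ)) := by
    intro h k
    have h1 := hF (uf ![m + h + k, m + k, m + h, m]) (UE_cp _) (UE_loc _) Q Q' hQ' (uf_p p) hpp
      (uf_T Q Q' p) (fun κ hκ => Fintype.mem_piFinset.2 fun i =>
        (mem_filter.1 (Fintype.mem_piFinset.1 hκ i)).1) (fun κ hκ => uf_lcm Q Q' p hp κ hκ)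
      0 0 0 H H H (by simpa using hH) (by simpa using hH) (by simpa using hH)
    have e1 : (-((1 : ℝ) / 72 / 2)) = -(1 / 144) := by norm_num
    rw [e1] at h1
    simp only [zero_add, ← Finset.range_eq_Ico] at h1
    refine le_trans (le_of_eq ?_) h1
    refine Finset.sum_congr rfl fun h' _ => Finset.sum_congr rfl fun k' _ => ?_
    congr 2
    refine Finset.sum_congr rfl fun t _ => ?_
    exact uf_expand Q Q' p hp h h' k k' t m
  have e2 : ∀ h ∈ range H, ∑ h' ∈ range H, ∑ k ∈ range H, ∑ k' ∈ range H,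
      ‖∑ t ∈ range H, P4 (Vl Q Q' p) h h' k k' (m + 2 * t)‖ ^ 2 ≤
      H * (C * ((H : ℝ) * H * (H : ℝ) ^ 2) * (Q' : ℝ) ^ (-(1 / 144 : ℝ))) := by
    intro h _
    rw [Finset.sum_comm]
    refine (Finset.sum_le_sum fun k _ => key h k).trans ?_
    rw [Finset.sum_const, Finset.card_range, nsmul_eq_mul]
  refine (Finset.sum_le_sum e2).trans (le_of_eq ?_)
  rw [Finset.sum_const, Finset.card_range, nsmul_eq_mul]
  ring

end Pool.Agent.Lib.H59T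
end

-- from Lib.H59T.UBA
section

/-!
# Project H59T, chunk UBA (M): small cubes for a kernel with slowly varying coefficient
-/

open Finset

namespace Pool.Agent.Lib.H59T

open Pool.Agent.Lib.H68T Pool.Agent.Lib.H18Q Pool.Agent.Lib.H59P

theorem uba_lip (β : ℤ → ℂ) (u v : ℤ) (δ : ℝ) (hδ : ∀ m, u ≤ m → m + 1 ≤ v → ‖β (m + 1) - β m‖ ≤ δ)
    (m : ℤ) (hm : u ≤ m) (j : ℕ) : m + j ≤ v → ‖β (m + j) - β m‖ ≤ j * δ := by
  induction j with
  | zero =>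
    intro _
    simp
  | succ j ih =>
    intro hj
    push_cast at hj
    have h1 := ih (by omega)
    have h2 := hδ (m + j) (by omega) (by omega)
    have h3 : β (m + ((j + 1 : ℕ) : ℤ)) - β m = (β (m + j + 1) - β (m + j)) + (β (m + j) - β m) := by
      push_cast
      rw [← add_assoc]
      ring
    rw [h3]
    refine (norm_add_le _ _).trans ?_
    push_cast
    linarith

theorem uba_prod {B e : ℝ} (hB : 0 ≤ B) {a b c d a' b' c' d' : ℂ} (hb : ‖b‖ ≤ B) (hc : ‖c‖ ≤ B) (hd : ‖d‖ ≤ B)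
    (ha' : ‖a'‖ ≤ B) (hb' : ‖b'‖ ≤ B) (hc' : ‖c'‖ ≤ B) (h1 : ‖a - a'‖ ≤ e) (h2 : ‖b - b'‖ ≤ e)
    (h3 : ‖c - c'‖ ≤ e) (h4 : ‖d - d'‖ ≤ e) : ‖a * b * c * d - a' * b' * c' * d'‖ ≤ 4 * e * B ^ 3 := by
  have he : 0 ≤ e := (norm_nonneg _).trans h1
  have h0 : a * b * c * d - a' * b' * c' * d' = (a - a') * b * c * d + a' * (b - b') * c * d +
      a' * b' * (c - c') * d + a' * b' * c' * (d - d') := by ring
  have e1 : ‖(a - a') * b * c * d‖ ≤ e * B * B * B := by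
    rw [norm_mul, norm_mul, norm_mul]
    gcongr
  have e2 : ‖a' * (b - b') * c * d‖ ≤ B * e * B * B := by
    rw [norm_mul, norm_mul, norm_mul]
    gcongr
  have e3 : ‖a' * b' * (c - c') * d‖ ≤ B * B * e * B := by
    rw [norm_mul, norm_mul, norm_mul]
    gcongr
  have e4 : ‖a' * b' * c' * (d - d')‖ ≤ B * B * B * e := by
    rw [norm_mul, norm_mul, norm_mul]
    gcongr
  rw [h0]
  have n1 := norm_add_le ((a - a') * b * c * d + a' * (b - b') * c * d + a' * b' * (c - c') * d) (a' * b' * c' * (d - d'))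
  have n2 := norm_add_le ((a - a') * b * c * d + a' * (b - b') * c * d) (a' * b' * (c - c') * d)
  have n3 := norm_add_le ((a - a') * b * c * d) (a' * (b - b') * c * d)
  have h5 : 4 * e * B ^ 3 = e * B * B * B + B * e * B * B + B * B * e * B + B * B * B * e := by ring
  rw [h5]
  linarith

theorem uba_G (b : ℂ) (hb : ‖b‖ ≤ 1) (V : ℤ → ℂ) (H : ℕ) (h h' k k' m : ℤ) :
    ‖∑ t ∈ range H, P4 (fun x => b * V x) h h' k k' (m + 2 * t)‖ ≤
      ‖∑ t ∈ range H, P4 V h h' k k' (m + 2 * t)‖ := by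
  have h1 : ∀ x, P4 (fun x => b * V x) h h' k k' x =
      (b * (starRingEnd ℂ) b * (starRingEnd ℂ) b * b) * P4 V h h' k k' x := by
    intro x
    unfold P4
    simp only [map_mul]
    ring
  rw [Finset.sum_congr rfl fun t _ => h1 _, ← Finset.mul_sum, norm_mul]
  refine mul_le_of_le_one_left (norm_nonneg _) ?_
  rw [norm_mul, norm_mul, norm_mul, Complex.norm_conj]
  calc ‖b‖ * ‖b‖ * ‖b‖ * ‖b‖ ≤ 1 * 1 * 1 * 1 := by gcongr
    _ = 1 := by norm_num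

theorem uba_const (H : ℕ) (a : ℝ) : ∑ _h ∈ range H, ∑ _h' ∈ range H, ∑ _k ∈ range H, ∑ _k' ∈ range H, a =
    (H : ℝ) ^ 4 * a := by
  simp only [Finset.sum_const, Finset.card_range, nsmul_eq_mul]
  ring

/-- all points in the interval -/
theorem uba_in {B δ : ℝ} (hB : 0 ≤ B) (hδ0 : 0 ≤ δ) (V : ℤ → ℂ) (hV : ∀ m, ‖V m‖ ≤ B) (β : ℤ → ℂ) (u v : ℤ)
    (hβ : ∀ m, u ≤ m → m ≤ v → ‖β m‖ ≤ 1)
    (hδ : ∀ m, u ≤ m → m + 1 ≤ v → ‖β (m + 1) - β m‖ ≤ δ) (H : ℕ) (m : ℤ) (h1 : u ≤ m) (h2 : m + 4 * H ≤ v)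
    (h h' k k' : ℕ) (hh : h < H) (hh' : h' < H) (hk : k < H) (hk' : k' < H) :
    ‖∑ t ∈ range H, P4 (fun m => if u ≤ m ∧ m ≤ v then β m * V m else 0) h h' k k' (m + 2 * t)‖ ^ 2 ≤
      2 * ‖∑ t ∈ range H, P4 V h h' k k' (m + 2 * t)‖ ^ 2 + 512 * (H : ℝ) ^ 4 * δ ^ 2 * B ^ 8 := by
  obtain ⟨F, hF⟩ : ∃ F : ℤ → ℂ, F = fun m => if u ≤ m ∧ m ≤ v then β m * V m else 0 := ⟨_, rfl⟩
  rw [← hF]
  have hFx : ∀ j : ℕ, j ≤ 4 * H → F (m + j) = β (m + j) * V (m + j) ∧ ‖F (m + j)‖ ≤ B ∧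
      ‖β m * V (m + j)‖ ≤ B ∧ ‖F (m + j) - β m * V (m + j)‖ ≤ 4 * H * δ * B := by
    intro j hj
    have e0 : F (m + j) = β (m + j) * V (m + j) := by
      rw [hF]
      exact if_pos ⟨by omega, by omega⟩
    refine ⟨e0, ?_, ?_, ?_⟩
    · rw [e0, norm_mul]
      calc ‖β (m + j)‖ * ‖V (m + j)‖ ≤ 1 * B :=
            mul_le_mul (hβ _ (by omega) (by omega)) (hV _) (norm_nonneg _) zero_le_one
        _ = B := one_mul _
    · rw [norm_mul]
      calc ‖β m‖ * ‖V (m + j)‖ ≤ 1 * B :=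
            mul_le_mul (hβ _ (by omega) (by omega)) (hV _) (norm_nonneg _) zero_le_one
        _ = B := one_mul _
    · rw [e0, ← sub_mul, norm_mul]
      have e1 := uba_lip β u v δ hδ m h1 j (by omega)
      have e2 : (j : ℝ) * δ ≤ 4 * H * δ := by
        refine mul_le_mul_of_nonneg_right ?_ hδ0
        exact_mod_cast hj
      exact mul_le_mul (e1.trans e2) (hV _) (norm_nonneg _) (by positivity)
  have hpt : ∀ t ∈ range H, ‖P4 F h h' k k' (m + 2 * t) - P4 (fun x => β m * V x) h h' k k' (m + 2 * t)‖ ≤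
      4 * (4 * H * δ * B) * B ^ 3 := by
    intro t ht
    rw [mem_range] at ht
    have a1 : (m + 2 * (t : ℤ) + h + k : ℤ) = m + ((2 * t + h + k : ℕ) : ℤ) := by push_cast; ring
    have a2 : (m + 2 * (t : ℤ) + h' + k : ℤ) = m + ((2 * t + h' + k : ℕ) : ℤ) := by push_cast; ring
    have a3 : (m + 2 * (t : ℤ) + h + k' : ℤ) = m + ((2 * t + h + k' : ℕ) : ℤ) := by push_cast; ring
    have a4 : (m + 2 * (t : ℤ) + h' + k' : ℤ) = m + ((2 * t + h' + k' : ℕ) : ℤ) := by push_cast; ring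
    obtain ⟨-, b1, c1, d1⟩ := hFx (2 * t + h + k) (by omega)
    obtain ⟨-, b2, c2, d2⟩ := hFx (2 * t + h' + k) (by omega)
    obtain ⟨-, b3, c3, d3⟩ := hFx (2 * t + h + k') (by omega)
    obtain ⟨-, b4, c4, d4⟩ := hFx (2 * t + h' + k') (by omega)
    unfold P4
    rw [a1, a2, a3, a4]
    refine uba_prod hB ?_ ?_ b4 c1 ?_ ?_ d1 ?_ ?_ d4
    · rw [Complex.norm_conj]; exact b2
    · rw [Complex.norm_conj]; exact b3
    · rw [Complex.norm_conj]; exact c2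
    · rw [Complex.norm_conj]; exact c3
    · rw [← map_sub, Complex.norm_conj]; exact d2
    · rw [← map_sub, Complex.norm_conj]; exact d3
  have hdiff : ‖∑ t ∈ range H, P4 F h h' k k' (m + 2 * t) - ∑ t ∈ range H, P4 (fun x => β m * V x) h h' k k' (m + 2 * t)‖ ≤
      16 * (H : ℝ) ^ 2 * δ * B ^ 4 := by
    rw [← Finset.sum_sub_distrib]
    refine (norm_sum_le _ _).trans ((Finset.sum_le_sum hpt).trans (le_of_eq ?_))
    rw [Finset.sum_const, Finset.card_range, nsmul_eq_mul]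
    ring
  have hG := uba_G (β m) (hβ m h1 (by omega)) V H h h' k k' m
  generalize ∑ t ∈ range H, P4 F h h' k k' (m + 2 * t) = X at hdiff ⊢
  generalize ∑ t ∈ range H, P4 (fun x => β m * V x) h h' k k' (m + 2 * t) = Y at hdiff hG
  generalize ‖∑ t ∈ range H, P4 V h h' k k' (m + 2 * t)‖ = Z at hG ⊢
  have e1 : ‖X‖ ≤ ‖X - Y‖ + ‖Y‖ := by
    have := norm_add_le (X - Y) Y
    rwa [sub_add_cancel] at this
  have e2 : ‖X‖ ≤ 16 * (H : ℝ) ^ 2 * δ * B ^ 4 + Z := by linarith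
  have e3 := pow_le_pow_left₀ (norm_nonneg _) e2 2
  refine e3.trans ?_
  nlinarith [sq_nonneg (16 * (H : ℝ) ^ 2 * δ * B ^ 4 - Z)]

theorem uba_triv {B : ℝ} (F : ℤ → ℂ) (hF : ∀ m, ‖F m‖ ≤ B) (H : ℕ) (m h h' k k' : ℤ) :
    ‖∑ t ∈ range H, P4 F h h' k k' (m + 2 * t)‖ ^ 2 ≤ (H : ℝ) ^ 2 * B ^ 8 := by
  have hB : 0 ≤ B := (norm_nonneg _).trans (hF 0)
  have h1 : ∀ x, ‖P4 F h h' k k' x‖ ≤ B ^ 4 := by
    intro x
    unfold P4
    rw [norm_mul, norm_mul, norm_mul, Complex.norm_conj, Complex.norm_conj]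
    calc _ ≤ B * B * B * B := by
          gcongr
          · exact hF _
          · exact hF _
          · exact hF _
          · exact hF _
      _ = B ^ 4 := by ring
  have h2 : ‖∑ t ∈ range H, P4 F h h' k k' (m + 2 * t)‖ ≤ H * B ^ 4 := by
    refine (norm_sum_le _ _).trans ((Finset.sum_le_sum fun t _ => h1 _).trans (le_of_eq ?_))
    rw [Finset.sum_const, Finset.card_range, nsmul_eq_mul]
  refine (pow_le_pow_left₀ (norm_nonneg _) h2 2).trans (le_of_eq ?_)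
  ring

theorem uba_ind (S A : Finset ℤ) (a : ℝ) (ha : 0 ≤ a) : ∑ m ∈ S, (if m ∈ A then a else 0) ≤ A.card * a := by
  classical
  rw [← Finset.sum_filter, Finset.sum_const, nsmul_eq_mul]
  refine mul_le_mul_of_nonneg_right ?_ ha
  have h1 : S.filter (fun m => m ∈ A) ⊆ A := fun m hm => (Finset.mem_filter.1 hm).2
  exact_mod_cast Finset.card_le_card h1

/-- The sum over the small cubes for a kernel with slowly varying coefficient and sharp cutoffs. Proof. `H = Q^40`. If the interval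
`[m, m + 4H]` lies in `[u, v]`: the coefficients at the points `m + j`, `0 ≤ j ≤ 4H`, differ from `β(m)` by at most `4 H δ`, so the inner
sum is `|β(m)|⁴`-type constant times the sum for `V = Vl Q Q' p` up to `H · 4 (4 H δ) B⁴`, `B = Q²` (`UF_sup`), and by `UF_cube` and
`‖x+y‖² ≤ 2‖x‖² + 2‖y‖²` the contribution of `m` is at most `2 C H⁶ Q'^(-1/144) + 2 H⁴ (16 H² δ Q^8)²`. If `[m, m+4H]` does not
meet `[u, v]` it is `0`. At most `8 H + 2` other `m`, each at most `H⁶ B^8 = H⁶ Q^16`. -/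
theorem UB_cubes : ∃ C : ℝ, 0 < C ∧ ∀ Q Q' : ℕ, 1 ≤ Q' → 1 ≤ Q → ∀ p ∈ PC Q, ∀ (β : ℤ → ℂ) (u v : ℤ)
    (δ : ℝ), u ≤ v → 0 ≤ δ → (∀ m, u ≤ m → m ≤ v → ‖β m‖ ≤ 1) →
    (∀ m, u ≤ m → m + 1 ≤ v → ‖β (m + 1) - β m‖ ≤ δ) → ∀ S : Finset ℤ,
    ∑ m ∈ S, ∑ h ∈ range (Q ^ 40), ∑ h' ∈ range (Q ^ 40), ∑ k ∈ range (Q ^ 40), ∑ k' ∈ range (Q ^ 40),
      ‖∑ t ∈ range (Q ^ 40), P4 (fun m => if u ≤ m ∧ m ≤ v then β m * Vl Q Q' p m else 0) h h' k k'
        (m + 2 * t)‖ ^ 2 ≤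
      (Q : ℝ) ^ 240 * (((v : ℝ) - u + 1) * (C * (Q' : ℝ) ^ (-(1 / 144 : ℝ)) + 512 * δ ^ 2 * (Q : ℝ) ^ 96) +
        10 * (Q : ℝ) ^ 56) := by
  classical
  obtain ⟨C, hC, hcube⟩ := UF_cube
  refine ⟨2 * C, by positivity, ?_⟩
  intro Q Q' hQ' hQ p hp β u v δ huv hδ0 hβ hδ S
  obtain ⟨H, hH⟩ : ∃ H : ℕ, H = Q ^ 40 := ⟨_, rfl⟩
  have hHR : (H : ℝ) = (Q : ℝ) ^ 40 := by rw [hH]; push_cast; rfl
  rw [← hH]
  have hQ0 : (0 : ℝ) < Q := by exact_mod_cast hQ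
  have hV : ∀ m, ‖Vl Q Q' p m‖ ≤ (Q : ℝ) ^ 2 := UF_sup Q Q' p hp
  have hB : (0 : ℝ) ≤ (Q : ℝ) ^ 2 := by positivity
  obtain ⟨F, hF⟩ : ∃ F : ℤ → ℂ, F = fun m => if u ≤ m ∧ m ≤ v then β m * Vl Q Q' p m else 0 := ⟨_, rfl⟩
  have hFB : ∀ m, ‖F m‖ ≤ (Q : ℝ) ^ 2 := by
    intro m
    rw [hF]
    simp only
    split_ifs with hm
    · rw [norm_mul]
      calc ‖β m‖ * ‖Vl Q Q' p m‖ ≤ 1 * (Q : ℝ) ^ 2 :=
            mul_le_mul (hβ m hm.1 hm.2) (hV m) (norm_nonneg _) zero_le_one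
        _ = _ := one_mul _
    · rw [norm_zero]
      exact hB
  obtain ⟨q, hq⟩ : ∃ q : ℝ, q = (Q' : ℝ) ^ (-(1 / 144 : ℝ)) := ⟨_, rfl⟩
  have hq0 : 0 ≤ q := by rw [hq]; exact Real.rpow_nonneg (Nat.cast_nonneg _) _
  obtain ⟨aa, haa⟩ : ∃ aa : ℝ, aa = (H : ℝ) ^ 6 * (2 * C * q + 512 * δ ^ 2 * (Q : ℝ) ^ 96) := ⟨_, rfl⟩
  obtain ⟨bb, hbb⟩ : ∃ bb : ℝ, bb = (H : ℝ) ^ 6 * (Q : ℝ) ^ 16 := ⟨_, rfl⟩
  have haa0 : 0 ≤ aa := by rw [haa]; positivity
  have hbb0 : 0 ≤ bb := by rw [hbb]; positivity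
  have hE : ∀ m : ℤ, ∑ h ∈ range H, ∑ h' ∈ range H, ∑ k ∈ range H, ∑ k' ∈ range H,
      ‖∑ t ∈ range H, P4 F h h' k k' (m + 2 * t)‖ ^ 2 ≤
      (if m ∈ Icc u v then aa else 0) + (if m ∈ Ico (u - 4 * H) u ∪ Ioc (v - 4 * H) v then bb else 0) := by
    intro m
    have hy0 : 0 ≤ (if m ∈ Icc u v then aa else 0) := by split_ifs; exacts [haa0, le_rfl]
    have hz0 : 0 ≤ (if m ∈ Ico (u - 4 * H) u ∪ Ioc (v - 4 * H) v then bb else 0) := by
      split_ifs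
      exacts [hbb0, le_rfl]
    by_cases hA : u ≤ m ∧ m + 4 * H ≤ v
    · have h1 : m ∈ Icc u v := Finset.mem_Icc.2 ⟨hA.1, by omega⟩
      rw [if_pos h1]
      refine le_trans ?_ (le_add_of_nonneg_right hz0)
      have h2 : ∑ h ∈ range H, ∑ h' ∈ range H, ∑ k ∈ range H, ∑ k' ∈ range H,
          ‖∑ t ∈ range H, P4 F h h' k k' (m + 2 * t)‖ ^ 2 ≤
          ∑ h ∈ range H, ∑ h' ∈ range H, ∑ k ∈ range H, ∑ k' ∈ range H,
          (2 * ‖∑ t ∈ range H, P4 (Vl Q Q' p) h h' k k' (m + 2 * t)‖ ^ 2 +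
            512 * (H : ℝ) ^ 4 * δ ^ 2 * ((Q : ℝ) ^ 2) ^ 8) := by
        refine Finset.sum_le_sum fun h hh => Finset.sum_le_sum fun h' hh' => Finset.sum_le_sum fun k hk =>
          Finset.sum_le_sum fun k' hk' => ?_
        rw [hF]
        exact uba_in hB hδ0 (Vl Q Q' p) hV β u v hβ hδ H m hA.1 hA.2 h h' k k' (mem_range.1 hh)
          (mem_range.1 hh') (mem_range.1 hk) (mem_range.1 hk')
      refine h2.trans ?_
      have h4 : (H : ℝ) ^ 4 * (512 * (H : ℝ) ^ 4 * δ ^ 2 * ((Q : ℝ) ^ 2) ^ 8) =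
          (H : ℝ) ^ 6 * (512 * δ ^ 2 * (Q : ℝ) ^ 96) := by
        rw [hHR]
        ring
      have h3 := hcube Q Q' H hQ' (le_of_eq hH.symm) p hp m
      rw [← hq] at h3
      generalize 512 * (H : ℝ) ^ 4 * δ ^ 2 * ((Q : ℝ) ^ 2) ^ 8 = cst at h4 ⊢
      simp only [Finset.sum_add_distrib, ← Finset.mul_sum]
      rw [uba_const, h4, haa]
      linarith
    · by_cases hC' : m ∈ Ico (u - 4 * H) u ∪ Ioc (v - 4 * H) v
      · rw [if_pos hC']
        refine le_trans ?_ (le_add_of_nonneg_left hy0)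
        have h2 : ∑ h ∈ range H, ∑ h' ∈ range H, ∑ k ∈ range H, ∑ k' ∈ range H,
            ‖∑ t ∈ range H, P4 F h h' k k' (m + 2 * t)‖ ^ 2 ≤
            ∑ _h ∈ range H, ∑ _h' ∈ range H, ∑ _k ∈ range H, ∑ _k' ∈ range H,
            ((H : ℝ) ^ 2 * ((Q : ℝ) ^ 2) ^ 8) :=
          Finset.sum_le_sum fun h _ => Finset.sum_le_sum fun h' _ => Finset.sum_le_sum fun k _ =>
            Finset.sum_le_sum fun k' _ => uba_triv F hFB H m h h' k k'
        refine h2.trans (le_of_eq ?_)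
        rw [uba_const, hbb]
        ring
      · refine le_trans (le_of_eq ?_) (add_nonneg hy0 hz0)
        have hout : ∀ j : ℕ, j < 4 * H → F (m + j) = 0 := by
          intro j hj
          rw [hF]
          refine if_neg fun hcon => ?_
          rw [Finset.mem_union, Finset.mem_Ico, Finset.mem_Ioc] at hC'
          omega
        refine Finset.sum_eq_zero fun h hh => Finset.sum_eq_zero fun h' _ => Finset.sum_eq_zero fun k hk =>
          Finset.sum_eq_zero fun k' _ => ?_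
        rw [mem_range] at hh hk
        have h3 : ∑ t ∈ range H, P4 F h h' k k' (m + 2 * t) = 0 := by
          refine Finset.sum_eq_zero fun t ht => ?_
          rw [mem_range] at ht
          have a1 : (m + 2 * (t : ℤ) + h + k : ℤ) = m + ((2 * t + h + k : ℕ) : ℤ) := by push_cast; ring
          unfold P4
          rw [a1, hout _ (by omega), zero_mul, zero_mul, zero_mul]
        rw [h3, norm_zero]
        norm_num
  rw [← hF]
  refine (Finset.sum_le_sum fun m _ => hE m).trans ?_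
  rw [Finset.sum_add_distrib]
  have h1 := uba_ind S (Icc u v) aa haa0
  have h2 := uba_ind S (Ico (u - 4 * H) u ∪ Ioc (v - 4 * H) v) bb hbb0
  have h3 : ((Icc u v).card : ℝ) = (v : ℝ) - u + 1 := by
    rw [Int.card_Icc]
    have h4 : (((v + 1 - u).toNat : ℕ) : ℤ) = v + 1 - u := Int.toNat_of_nonneg (by omega)
    have h5 : (((v + 1 - u).toNat : ℕ) : ℝ) = (((v + 1 - u).toNat : ℤ) : ℝ) := by push_cast; rfl
    rw [h5, h4]
    push_cast
    ring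
  have h4 : ((Ico (u - 4 * H) u ∪ Ioc (v - 4 * H) v).card : ℝ) ≤ 8 * H := by
    have h5 := Finset.card_union_le (Ico (u - 4 * (H : ℤ)) u) (Ioc (v - 4 * (H : ℤ)) v)
    rw [Int.card_Ico, Int.card_Ioc] at h5
    have h6 : (Ico (u - 4 * (H : ℤ)) u ∪ Ioc (v - 4 * (H : ℤ)) v).card ≤ 8 * H := by omega
    exact_mod_cast h6
  rw [h3] at h1
  have h5 := h2.trans (mul_le_mul_of_nonneg_right h4 hbb0)
  have h6 : 8 * (H : ℝ) * bb = (Q : ℝ) ^ 240 * (8 * (Q : ℝ) ^ 56) := by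
    rw [hbb, hHR]
    ring
  have h7 : ((v : ℝ) - u + 1) * aa = (Q : ℝ) ^ 240 * (((v : ℝ) - u + 1) * (2 * C * q + 512 * δ ^ 2 * (Q : ℝ) ^ 96)) := by
    rw [haa, hHR]
    ring
  rw [← hq]
  rw [h6] at h5
  rw [h7] at h1
  have h8 : (Q : ℝ) ^ 240 * (8 * (Q : ℝ) ^ 56) ≤ (Q : ℝ) ^ 240 * (10 * (Q : ℝ) ^ 56) := by
    refine mul_le_mul_of_nonneg_left ?_ (by positivity)
    have : (0 : ℝ) ≤ (Q : ℝ) ^ 56 := by positivity
    linarith
  rw [mul_add]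
  linarith

end Pool.Agent.Lib.H59T
end

-- from Lib.H59T.UB
section

/-!
# Project H59T, chunk UB (M): one character
-/

open Finset

namespace Pool.Agent.Lib.H59T

open Pool.Agent.Lib.H68T Pool.Agent.Lib.H18Q Pool.Agent.Lib.H59P

/-- the representative of an integer in the middle range -/
theorem ub_rep (n : ℕ) (x : ℤ) (hx : -(2 * n : ℤ) ≤ x ∧ x ≤ 2 * n) :
    ((x : ZMod (4 * n + 1))).valMinAbs = x := by
  rw [ZMod.valMinAbs_spec]
  refine ⟨rfl, ?_, ?_⟩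
  · push_cast
    omega
  · push_cast
    omega

theorem ub_mem (n : ℕ) (x : ZMod (4 * n + 1)) : -(2 * n : ℤ) ≤ x.valMinAbs ∧ x.valMinAbs ≤ 2 * n := by
  have h := ZMod.valMinAbs_mem_Ioc x
  rw [Set.mem_Ioc] at h
  push_cast at h
  omega

/-- sums over `ZMod (4n+1)` -/
theorem ub_sum {A : Type*} [AddCommMonoid A] (n : ℕ) (G : ZMod (4 * n + 1) → A) :
    ∑ x : ZMod (4 * n + 1), G x = ∑ x ∈ Icc (-(2 * n : ℤ)) (2 * n), G (x : ZMod (4 * n + 1)) := by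
  refine Finset.sum_bij' (fun x _ => x.valMinAbs) (fun (x : ℤ) _ => (x : ZMod (4 * n + 1))) (fun x _ => ?_)
    (fun _ _ => mem_univ _) (fun x _ => ZMod.coe_valMinAbs x) (fun x hx => ?_) (fun x _ => ?_)
  · exact mem_Icc.2 (ub_mem n x)
  · exact ub_rep n x (mem_Icc.1 hx)
  · rw [ZMod.coe_valMinAbs]

/-- the kernel with the cutoff, near the range of the representatives -/
theorem ub_F (n H : ℕ) (hH : 4 * H ≤ 2 * n) (u v : ℤ) (hu : 1 ≤ u) (hv : v ≤ 2 * n) (g : ℤ → ℂ) (m : ℤ)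
    (hm : -(2 * n : ℤ) ≤ m ∧ m ≤ 2 * n) (j : ℕ) (hj : j ≤ 4 * H) :
    (fun x : ZMod (4 * n + 1) => if u ≤ x.valMinAbs ∧ x.valMinAbs ≤ v then g x.valMinAbs else 0)
      ((m + j : ℤ) : ZMod (4 * n + 1)) = if u ≤ m + j ∧ m + j ≤ v then g (m + j) else 0 := by
  by_cases h : m + j ≤ 2 * n
  · have h1 := ub_rep n (m + j) ⟨by omega, h⟩
    simp only [h1]
  · have h1 : ((m + j : ℤ) : ZMod (4 * n + 1)) = ((m + j - (4 * n + 1 : ℕ) : ℤ) : ZMod (4 * n + 1)) := by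
      have h2 : (((4 * n + 1 : ℕ) : ℤ) : ZMod (4 * n + 1)) = 0 := by
        rw [Int.cast_natCast]
        exact ZMod.natCast_self _
      rw [Int.cast_sub (m + (j : ℤ)), h2, sub_zero]
    have h3 := ub_rep n (m + j - (4 * n + 1 : ℕ)) ⟨by push_cast; omega, by push_cast; omega⟩
    simp only [h1, h3]
    rw [if_neg, if_neg]
    · omega
    · push_cast
      omega

/-- the left side as a sum over `ZMod (4n+1)` -/
theorem ub_lhs (n : ℕ) (u v : ℤ) (f g W B : ℤ → ℂ) :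
    ∑ x ∈ Icc (-(n : ℤ)) n, ∑ y ∈ Icc (-(n : ℤ)) n, f x * g y *
      (if u ≤ x + y ∧ x + y ≤ min v (2 * n) then B (x + y) else 0) * W (x - y) =
    ∑ x : ZMod (4 * n + 1), ∑ y : ZMod (4 * n + 1),
      (if x.valMinAbs ∈ Icc (-(n : ℤ)) n then f x.valMinAbs else 0) *
      (if y.valMinAbs ∈ Icc (-(n : ℤ)) n then g y.valMinAbs else 0) *
      (fun x : ZMod (4 * n + 1) => if u ≤ x.valMinAbs ∧ x.valMinAbs ≤ min v (2 * n) then B x.valMinAbs else 0)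
        (x + y) * W ((x - y).valMinAbs) := by
  have hsub : Icc (-(n : ℤ)) n ⊆ Icc (-(2 * n : ℤ)) (2 * n) := by
    intro x hx
    rw [mem_Icc] at hx ⊢
    omega
  rw [ub_sum]
  have h0 : ∀ x ∈ Icc (-(2 * n : ℤ)) (2 * n), x ∉ Icc (-(n : ℤ)) n → ∑ y : ZMod (4 * n + 1),
      (if (x : ZMod (4 * n + 1)).valMinAbs ∈ Icc (-(n : ℤ)) n then f (x : ZMod (4 * n + 1)).valMinAbs else 0) *
      (if y.valMinAbs ∈ Icc (-(n : ℤ)) n then g y.valMinAbs else 0) *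
      (fun x : ZMod (4 * n + 1) => if u ≤ x.valMinAbs ∧ x.valMinAbs ≤ min v (2 * n) then B x.valMinAbs else 0)
        (x + y) * W (((x : ZMod (4 * n + 1)) - y).valMinAbs) = 0 := by
    intro x hx hx'
    refine Finset.sum_eq_zero fun y _ => ?_
    rw [ub_rep n x (mem_Icc.1 hx), if_neg hx', zero_mul, zero_mul, zero_mul]
  rw [← Finset.sum_subset hsub h0]
  refine Finset.sum_congr rfl fun x hx => ?_
  rw [ub_sum]
  have h1 : ∀ y ∈ Icc (-(2 * n : ℤ)) (2 * n), y ∉ Icc (-(n : ℤ)) n →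
      (if (x : ZMod (4 * n + 1)).valMinAbs ∈ Icc (-(n : ℤ)) n then f (x : ZMod (4 * n + 1)).valMinAbs else 0) *
      (if (y : ZMod (4 * n + 1)).valMinAbs ∈ Icc (-(n : ℤ)) n then g (y : ZMod (4 * n + 1)).valMinAbs else 0) *
      (fun x : ZMod (4 * n + 1) => if u ≤ x.valMinAbs ∧ x.valMinAbs ≤ min v (2 * n) then B x.valMinAbs else 0)
        (x + y) * W (((x : ZMod (4 * n + 1)) - y).valMinAbs) = 0 := by
    intro y hy hy'
    rw [ub_rep n y (mem_Icc.1 hy), if_neg hy', mul_zero, zero_mul, zero_mul]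
  rw [← Finset.sum_subset hsub h1]
  refine Finset.sum_congr rfl fun y hy => ?_
  have hx1 := mem_Icc.1 hx
  have hy1 := mem_Icc.1 hy
  rw [ub_rep n x ⟨by omega, by omega⟩, ub_rep n y ⟨by omega, by omega⟩, if_pos hx, if_pos hy,
    ← Int.cast_add, ← Int.cast_sub, ub_rep n (x - y) ⟨by omega, by omega⟩]
  simp only [ub_rep n (x + y) ⟨by omega, by omega⟩]

/-- the right side of `UA_main` -/
theorem ub_rhs (n H : ℕ) (hH : 4 * H ≤ 2 * n) (u v : ℤ) (hu : 1 ≤ u) (hv : v ≤ 2 * n) (g : ℤ → ℂ)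
    (F : ZMod (4 * n + 1) → ℂ)
    (hF : F = fun x : ZMod (4 * n + 1) => if u ≤ x.valMinAbs ∧ x.valMinAbs ≤ v then g x.valMinAbs else 0) :
    ∑ m : ZMod (4 * n + 1), ∑ h ∈ range H, ∑ h' ∈ range H, ∑ k ∈ range H,
        ∑ k' ∈ range H, ‖∑ t ∈ range H, F (m + 2 * (t : ZMod (4 * n + 1)) + h + k) *
          star (F (m + 2 * (t : ZMod (4 * n + 1)) + h' + k)) * star (F (m + 2 * (t : ZMod (4 * n + 1)) + h + k')) *
          F (m + 2 * (t : ZMod (4 * n + 1)) + h' + k')‖ ^ 2 =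
    ∑ m ∈ Icc (-(2 * n : ℤ)) (2 * n), ∑ h ∈ range H, ∑ h' ∈ range H, ∑ k ∈ range H, ∑ k' ∈ range H,
      ‖∑ t ∈ range H, P4 (fun m => if u ≤ m ∧ m ≤ v then g m else 0) h h' k k' (m + 2 * t)‖ ^ 2 := by
  rw [ub_sum]
  refine Finset.sum_congr rfl fun m hm => Finset.sum_congr rfl fun h hh => Finset.sum_congr rfl fun h' hh' =>
    Finset.sum_congr rfl fun k hk => Finset.sum_congr rfl fun k' hk' => ?_
  rw [mem_range] at hh hh' hk hk'
  have key : ∀ t ∈ range H, ∀ a b : ℕ, a < H → b < H →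
      F ((m : ZMod (4 * n + 1)) + 2 * (t : ZMod (4 * n + 1)) + a + b) =
        (fun m => if u ≤ m ∧ m ≤ v then g m else 0) (m + 2 * t + a + b) := by
    intro t ht a b ha hb
    rw [mem_range] at ht
    have e1 : (m : ZMod (4 * n + 1)) + 2 * (t : ZMod (4 * n + 1)) + a + b =
        ((m + ((2 * t + a + b : ℕ) : ℤ) : ℤ) : ZMod (4 * n + 1)) := by
      push_cast
      ring
    have e2 := ub_F n H hH u v hu hv g m (mem_Icc.1 hm) (2 * t + a + b) (by omega)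
    rw [e1, hF, e2]
    have e3 : m + ((2 * t + a + b : ℕ) : ℤ) = m + 2 * t + a + b := by
      push_cast
      ring
    rw [e3]
  congr 2
  refine Finset.sum_congr rfl fun t ht => ?_
  unfold P4
  rw [key t ht h k hh hk, key t ht h' k hh' hk, key t ht h k' hh hk', key t ht h' k' hh' hk']
  rfl

/-- **One character.** Proof. `M = 4 n + 1`; represent the elements of `ZMod M` by the integers in `[-2n, 2n]` (`ZMod.valMinAbs`).
`f, g` cut off to `[-n, n]`, `F` to `[X, min(4X, 2n)]`: the sum is that of `UA_main` (`|x|, |y| ≤ n` imply `|x ± y| ≤ 2n`, so no wrap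
around). In `UA_main` the arguments are `m + j`, `0 ≤ j ≤ 4H`, `m ∈ [-2n, 2n]`; if `m + j > 2n` it is represented by a negative
integer, where `F = 0`, in agreement with the cutoff at `2n` (`4H ≤ 2n`). So `UB_cubes` with `u = X`, `v = min(4X, 2n)`,
`δ = Q^6/X`, `S = [-2n, 2n]` (if `v < u` everything is `0`): `|T|^8 ≤ (5n)^15 (4n (C Q'^(-1/144) + 512 Q^108/X²) + 10 Q^56)`;
`X ≥ Q^100` and `Q' ≤ Q`: at most `C' n^16 Q'^(-1/144)`. -/
theorem UB_one : ∃ C : ℝ, 0 < C ∧ ∀ Q Q' X n : ℕ, 1 ≤ Q' → Q' ≤ Q → Q ^ 100 ≤ X → X ≤ n →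
    ∀ p ∈ PC Q, ∀ β : ℤ → ℂ, (∀ m : ℤ, (X : ℤ) ≤ m → m ≤ 4 * X → ‖β m‖ ≤ 1) →
    (∀ m : ℤ, (X : ℤ) ≤ m → m + 1 ≤ 4 * X → ‖β (m + 1) - β m‖ ≤ (Q : ℝ) ^ 6 / X) →
    ∀ f g W : ℤ → ℂ, (∀ x, ‖f x‖ ≤ 1) → (∀ x, ‖g x‖ ≤ 1) → (∀ x, ‖W x‖ ≤ 1) →
    ‖∑ x ∈ Icc (-(n : ℤ)) n, ∑ y ∈ Icc (-(n : ℤ)) n, f x * g y *
      (if (X : ℤ) ≤ x + y ∧ x + y ≤ 4 * X then β (x + y) * Vl Q Q' p (x + y) else 0) * W (x - y)‖ ≤
      C * (n : ℝ) ^ 2 * (Q' : ℝ) ^ (-(1 / 1152 : ℝ)) := by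
  obtain ⟨C, hC, hU⟩ := UB_cubes
  refine ⟨5 ^ 15 * (2 * C + 1034) + 9, by positivity, ?_⟩
  intro Q Q' X n hQ' hQQ hX hn p hp β hβ hβ' f g W hf hg hW
  have hQ1 : 1 ≤ Q := hQ'.trans hQQ
  have hX1 : 1 ≤ X := (Nat.one_le_pow _ _ hQ1).trans hX
  have hn1 : 1 ≤ n := hX1.trans hn
  have hnR : (1 : ℝ) ≤ n := by exact_mod_cast hn1
  have hQR : (1 : ℝ) ≤ Q := by exact_mod_cast hQ1
  have hQ'R : (1 : ℝ) ≤ Q' := by exact_mod_cast hQ'
  have hQQR : (Q' : ℝ) ≤ Q := by exact_mod_cast hQQ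
  have hXR : (Q : ℝ) ^ 100 ≤ X := by exact_mod_cast hX
  have hXnR : (X : ℝ) ≤ n := by exact_mod_cast hn
  have hXR1 : (1 : ℝ) ≤ X := by exact_mod_cast hX1
  by_cases hQ2 : Q = 1
  · -- the trivial case
    have hQ'1 : Q' = 1 := by omega
    have e1 : (Q' : ℝ) ^ (-(1 / 1152 : ℝ)) = 1 := by
      rw [hQ'1, Nat.cast_one, Real.one_rpow]
    rw [e1, mul_one]
    have h1 : ‖∑ x ∈ Icc (-(n : ℤ)) n, ∑ y ∈ Icc (-(n : ℤ)) n, f x * g y *
      (if (X : ℤ) ≤ x + y ∧ x + y ≤ 4 * X then β (x + y) * Vl Q Q' p (x + y) else 0) * W (x - y)‖ ≤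
        ∑ x ∈ Icc (-(n : ℤ)) n, ∑ y ∈ Icc (-(n : ℤ)) n, (1 : ℝ) := by
      refine (norm_sum_le _ _).trans (Finset.sum_le_sum fun x _ => ?_)
      refine (norm_sum_le _ _).trans (Finset.sum_le_sum fun y _ => ?_)
      have h2 : ‖(if (X : ℤ) ≤ x + y ∧ x + y ≤ 4 * X then β (x + y) * Vl Q Q' p (x + y) else 0)‖ ≤ 1 := by
        split_ifs with h3
        · rw [norm_mul]
          have h4 := UF_sup Q Q' p hp (x + y)
          rw [hQ2, Nat.cast_one, one_pow] at h4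
          rw [hQ2]
          exact mul_le_one₀ (hβ _ h3.1 h3.2) (norm_nonneg _) h4
        · simp
      rw [norm_mul, norm_mul, norm_mul]
      exact mul_le_one₀ (mul_le_one₀ (mul_le_one₀ (hf _) (norm_nonneg _) (hg _)) (norm_nonneg _) h2)
        (norm_nonneg _) (hW _)
    refine h1.trans ?_
    rw [Finset.sum_const, Finset.sum_const, Int.card_Icc, smul_smul, nsmul_eq_mul, mul_one]
    have h5 : ((n : ℤ) + 1 - -(n : ℤ)).toNat = 2 * n + 1 := by omega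
    rw [h5]
    push_cast
    have h6 : 0 ≤ 5 ^ 15 * (2 * C + 1034) * (n : ℝ) ^ 2 := by positivity
    nlinarith
  -- the main case
  have hQ22 : 2 ≤ Q := by omega
  set H : ℕ := Q ^ 40 with hH
  have hHpos : 0 < H := by
    rw [hH]
    positivity
  have hHn : 4 * H ≤ 2 * n := by
    have h1 : Q ^ 42 ≤ Q ^ 100 := Nat.pow_le_pow_right hQ1 (by norm_num)
    have h2 : 4 * H ≤ Q ^ 42 := by
      rw [hH, pow_add Q 2 40]
      exact Nat.mul_le_mul_right _ (by nlinarith)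
    omega
  set v : ℤ := min (4 * (X : ℤ)) (2 * n) with hv
  have hv1 : v ≤ 2 * n := min_le_right _ _
  have hv2 : v ≤ 4 * X := min_le_left _ _
  have huv : (X : ℤ) ≤ v := by
    rw [hv]
    refine le_min (by omega) (by omega)
  set B : ℤ → ℂ := fun m => β m * Vl Q Q' p m with hB
  set F : ZMod (4 * n + 1) → ℂ := fun x : ZMod (4 * n + 1) =>
    if (X : ℤ) ≤ x.valMinAbs ∧ x.valMinAbs ≤ v then B x.valMinAbs else 0 with hF
  have hne : NeZero (4 * n + 1) := ⟨by omega⟩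
  set T : ℂ := ∑ x ∈ Icc (-(n : ℤ)) n, ∑ y ∈ Icc (-(n : ℤ)) n, f x * g y *
      (if (X : ℤ) ≤ x + y ∧ x + y ≤ 4 * X then β (x + y) * Vl Q Q' p (x + y) else 0) * W (x - y) with hT
  have hT1 : T = ∑ x : ZMod (4 * n + 1), ∑ y : ZMod (4 * n + 1),
      (if x.valMinAbs ∈ Icc (-(n : ℤ)) n then f x.valMinAbs else 0) *
      (if y.valMinAbs ∈ Icc (-(n : ℤ)) n then g y.valMinAbs else 0) * F (x + y) * W ((x - y).valMinAbs) := by
    rw [hF, ← ub_lhs n X (4 * X) f g W B, hT]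
    refine Finset.sum_congr rfl fun x hx => Finset.sum_congr rfl fun y hy => ?_
    have hx1 := mem_Icc.1 hx
    have hy1 := mem_Icc.1 hy
    have h1 : ((X : ℤ) ≤ x + y ∧ x + y ≤ 4 * X) ↔ ((X : ℤ) ≤ x + y ∧ x + y ≤ min (4 * (X : ℤ)) (2 * n)) := by
      rw [le_min_iff]
      constructor
      · rintro ⟨h1, h2⟩
        exact ⟨h1, h2, by omega⟩
      · rintro ⟨h1, h2, h3⟩
        exact ⟨h1, h2⟩
    simp only [h1, hB]
  have hmain := UA_main (4 * n + 1) H hHpos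
    (fun x => if x.valMinAbs ∈ Icc (-(n : ℤ)) n then f x.valMinAbs else 0)
    (fun y => if y.valMinAbs ∈ Icc (-(n : ℤ)) n then g y.valMinAbs else 0) F (fun d => W d.valMinAbs)
    (fun x => by
      split_ifs
      · exact hf _
      · simp)
    (fun x => by
      split_ifs
      · exact hg _
      · simp) (fun x => hW _)
  rw [← hT1, ub_rhs n H hHn X v (by exact_mod_cast hX1) hv1 B F hF] at hmain
  have hcub := hU Q Q' hQ' hQ1 p hp β X v ((Q : ℝ) ^ 6 / X) huv (by positivity)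
    (fun m h1 h2 => hβ m h1 (h2.trans hv2)) (fun m h1 h2 => hβ' m h1 (h2.trans hv2))
    (Icc (-(2 * n : ℤ)) (2 * n))
  rw [← hH] at hcub
  have hQ0 : (0 : ℝ) < Q := by linarith
  have hH6 : ((H : ℕ) : ℝ) ^ 6 = (Q : ℝ) ^ 240 := by
    rw [hH]
    push_cast
    rw [← pow_mul]
  set y : ℝ := (Q' : ℝ) ^ (-(1 / 144 : ℝ)) with hy
  have hy0 : 0 < y := Real.rpow_pos_of_pos (by linarith) _
  have hQy : 1 / (Q : ℝ) ≤ y := by
    have h1 : 1 / (Q : ℝ) ≤ 1 / (Q' : ℝ) := one_div_le_one_div_of_le (by linarith) hQQR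
    refine h1.trans ?_
    rw [hy, one_div, ← Real.rpow_neg_one]
    exact Real.rpow_le_rpow_of_exponent_le hQ'R (by norm_num)
  have hvR : (v : ℝ) - X + 1 ≤ 2 * n := by
    have h1 : (v : ℝ) ≤ 2 * n := by exact_mod_cast hv1
    linarith
  have hb1 : 512 * ((Q : ℝ) ^ 6 / X) ^ 2 * (Q : ℝ) ^ 96 ≤ 512 * y := by
    have h1 : ((Q : ℝ) ^ 6 / X) ^ 2 * (Q : ℝ) ^ 96 ≤ 1 / Q := by
      have h2 : ((Q : ℝ) ^ 6 / X) ^ 2 * (Q : ℝ) ^ 96 = (Q : ℝ) ^ 108 / (X : ℝ) ^ 2 := by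
        rw [div_pow]
        ring
      rw [h2, div_le_div_iff₀ (by positivity) hQ0]
      calc (Q : ℝ) ^ 108 * Q = (Q : ℝ) ^ 109 := by ring
        _ ≤ (Q : ℝ) ^ 200 := pow_le_pow_right₀ hQR (by norm_num)
        _ = ((Q : ℝ) ^ 100) ^ 2 := by ring
        _ ≤ (X : ℝ) ^ 2 := pow_le_pow_left₀ (by positivity) hXR 2
        _ = 1 * (X : ℝ) ^ 2 := by ring
    linarith [h1.trans hQy]
  have hb2 : 10 * (Q : ℝ) ^ 56 ≤ 10 * (n * y) := by
    have h1 : (Q : ℝ) ^ 56 ≤ n * (1 / Q) := by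
      rw [mul_one_div, le_div_iff₀ hQ0]
      calc (Q : ℝ) ^ 56 * Q = (Q : ℝ) ^ 57 := by ring
        _ ≤ (Q : ℝ) ^ 100 := pow_le_pow_right₀ hQR (by norm_num)
        _ ≤ n := hXR.trans hXnR
    have h2 : n * (1 / (Q : ℝ)) ≤ n * y := mul_le_mul_of_nonneg_left hQy (by linarith)
    linarith
  have hS : ‖T‖ ^ 8 ≤ 5 ^ 15 * (2 * C + 1034) * (n : ℝ) ^ 16 * y := by
    refine hmain.trans ?_
    have h1 : ((4 * n + 1 : ℕ) : ℝ) ^ 15 ≤ 5 ^ 15 * (n : ℝ) ^ 15 := by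
      rw [← mul_pow]
      refine pow_le_pow_left₀ (by positivity) ?_ 15
      push_cast
      linarith
    have h2 : (((v : ℝ) - X + 1) * (C * y + 512 * ((Q : ℝ) ^ 6 / X) ^ 2 * (Q : ℝ) ^ 96) + 10 * (Q : ℝ) ^ 56) ≤
        (2 * C + 1034) * (n * y) := by
      have h3 : C * y + 512 * ((Q : ℝ) ^ 6 / X) ^ 2 * (Q : ℝ) ^ 96 ≤ C * y + 512 * y := by linarith
      have h4 : 0 ≤ C * y + 512 * ((Q : ℝ) ^ 6 / X) ^ 2 * (Q : ℝ) ^ 96 := by positivity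
      calc _ ≤ 2 * n * (C * y + 512 * y) + 10 * (n * y) := by
            refine add_le_add ?_ hb2
            exact (mul_le_mul_of_nonneg_right hvR h4).trans (mul_le_mul_of_nonneg_left h3 (by linarith))
        _ = (2 * C + 1034) * (n * y) := by ring
    have h5 : ((4 * n + 1 : ℕ) : ℝ) ^ 15 / ((H : ℕ) : ℝ) ^ 6 * ((Q : ℝ) ^ 240 *
        (((v : ℝ) - X + 1) * (C * y + 512 * ((Q : ℝ) ^ 6 / X) ^ 2 * (Q : ℝ) ^ 96) + 10 * (Q : ℝ) ^ 56)) =
        ((4 * n + 1 : ℕ) : ℝ) ^ 15 *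
        (((v : ℝ) - X + 1) * (C * y + 512 * ((Q : ℝ) ^ 6 / X) ^ 2 * (Q : ℝ) ^ 96) + 10 * (Q : ℝ) ^ 56) := by
      rw [hH6]
      have h6 : (Q : ℝ) ^ 240 ≠ 0 := by positivity
      field_simp
    calc _ ≤ ((4 * n + 1 : ℕ) : ℝ) ^ 15 / ((H : ℕ) : ℝ) ^ 6 * ((Q : ℝ) ^ 240 *
        (((v : ℝ) - X + 1) * (C * y + 512 * ((Q : ℝ) ^ 6 / X) ^ 2 * (Q : ℝ) ^ 96) + 10 * (Q : ℝ) ^ 56)) :=
          mul_le_mul_of_nonneg_left hcub (by positivity)
      _ = _ := h5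
      _ ≤ (5 ^ 15 * (n : ℝ) ^ 15) * ((2 * C + 1034) * (n * y)) :=
        (mul_le_mul_of_nonneg_left h2 (by positivity)).trans (mul_le_mul_of_nonneg_right h1 (by positivity))
      _ = 5 ^ 15 * (2 * C + 1034) * (n : ℝ) ^ 16 * y := by ring
  have hy8 : ((Q' : ℝ) ^ (-(1 / 1152 : ℝ))) ^ 8 = y := by
    rw [hy, ← Real.rpow_natCast, ← Real.rpow_mul (by linarith)]
    norm_num
  refine (pow_le_pow_iff_left₀ (norm_nonneg _) (by positivity) (by norm_num : (8 : ℕ) ≠ 0)).1 (hS.trans ?_)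
  rw [mul_pow, mul_pow, hy8]
  have h7 : 5 ^ 15 * (2 * C + 1034) ≤ (5 ^ 15 * (2 * C + 1034) + 9) ^ 8 := by
    have h8 : 0 ≤ 5 ^ 15 * (2 * C + 1034) := by positivity
    calc 5 ^ 15 * (2 * C + 1034) ≤ 5 ^ 15 * (2 * C + 1034) + 9 := by linarith
      _ ≤ (5 ^ 15 * (2 * C + 1034) + 9) ^ 8 := le_self_pow₀ (by linarith) (by norm_num)
  have h9 : ((n : ℝ) ^ 2) ^ 8 = (n : ℝ) ^ 16 := by ring
  rw [h9]
  exact mul_le_mul_of_nonneg_right (mul_le_mul_of_nonneg_right h7 (by positivity)) hy0.le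

end Pool.Agent.Lib.H59T
end
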