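import Pool.Agent.Lib.H1M.RV3.M003
import Pool.Agent.Lib.H1M.RV3.M004
import Pool.Agent.Lib.H1M.RV3.M006
import Pool.Agent.Lib.H1M.RV3.M068
import Pool.Agent.Lib.H1M.RV3.M070
import Pool.Agent.Lib.H1M.RV3.M080
import Pool.Agent.Lib.H1M.RV3.M081

/-! Merged copies (to shorten the build) of Lib.H59P.Z2, Lib.H24P.E1, Lib.H24P.W1, Lib.H24P.P3, Lib.H59P.C3A, Lib.H24P.P5, Lib.H59P.C3, Lib.H24P.X1A, Lib.H24Q.Defs, Lib.H24Q.A1, Lib.H24Q.Defs2, Lib.H24P.P4, Lib.H24P.Z3, Lib.H24P.Z2B, Lib.H24Q.D2, Lib.H24Q.R0, Lib.H24Q.D0, Lib.H24Q.R1, Lib.H24P.T2, Lib.H24P.T3, Lib.H24P.T5, Lib.H24Q.A2. -/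

-- from Lib.H59P.Z2
section

/-!
# Project H59P, chunk Z2
-/

open Finset

namespace Pool.Agent.Lib.H59P

open Pool.Agent.Lib.H68T Pool.Agent.Lib.H18Q


/-- sums over a long interval split into cells -/
theorem z2_cells {M : Type*} [AddCommMonoid M] (A H N : ℕ) (f : ℕ → M) :
    ∑ n ∈ Ico A (A + N * H), f n = ∑ j ∈ range N, ∑ n ∈ Ico (A + j * H) (A + j * H + H), f n := by
  induction N with
  | zero => simp
  | succ N ih =>
    rw [Finset.sum_range_succ, ← ih]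
    have h1 : A + (N + 1) * H = A + N * H + H := by ring
    rw [h1]
    exact (Finset.sum_Ico_consecutive f (by omega) (by omega)).symm

theorem z2_bs {H : ℕ} (hH : 0 < H) (c m : ℕ) (h1 : c * H ≤ m) (h2 : m < c * H + H) : bs H m = c * H := by
  unfold bs
  have h3 : m / H = c := by
    rw [Nat.div_eq_iff hH]
    constructor
    · exact h1
    · omega
  rw [h3]

theorem z2_cs (N : ℕ) (z : ℕ → ℂ) : ‖∑ j ∈ range N, z j‖ ^ 2 ≤ N * ∑ j ∈ range N, ‖z j‖ ^ 2 := by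
  have h1 : ‖∑ j ∈ range N, z j‖ ≤ ∑ j ∈ range N, ‖z j‖ := norm_sum_le _ _
  have h2 := sq_sum_le_card_mul_sum_sq (s := range N) (f := fun j => ‖z j‖)
  rw [card_range] at h2
  exact (pow_le_pow_left₀ (norm_nonneg _) h1 2).trans h2


end Pool.Agent.Lib.H59P
end

-- from Lib.H24P.E1
section

/-!
# Project H24P, chunk E1 (M): cells
-/

open Finset Polynomial

namespace Pool.Agent.Lib.H24P

open Pool.Agent.Lib.H68T Pool.Agent.Lib.H18Q Pool.Agent.Lib.H59P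



/-- The base points. Proof. `bs s x = x / s * s`; `z2_bs`. `Hc = Hf N'`. -/
theorem E1_bs {s m t x : ℕ} (hs : 0 < s) (hm : s ∣ m) (hx : x ∈ Ico (m + t * s) (m + t * s + s)) :
    bs s x = m + t * s := by
  obtain ⟨c, rfl⟩ := hm
  have h1 := mem_Ico.mp hx
  have h2 : s * c + t * s = (c + t) * s := by ring
  rw [h2] at h1 ⊢
  exact z2_bs hs (c + t) x h1.1 h1.2

/-- The base point for long cells is constant on short cells. Proof. `X1 = Hc N = Hf N' N`; both `n` and the left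
end of the short cell are in the same interval `[c Hc, (c+1) Hc)`. -/
theorem E1_fine {X1 Hc Hf N' j n : ℕ} (hf : 0 < Hf) (hN : 0 < N') (hc : Hc = Hf * N') (hX : Hc ∣ X1)
    (hn : n ∈ Ico (X1 + j * Hf) (X1 + j * Hf + Hf)) : bs Hc n = bs Hc (X1 + j * Hf) := by
  have h1 := mem_Ico.mp hn
  obtain ⟨c, rfl⟩ := hX
  have h2 : Hc * c + j * Hf = (N' * c + j) * Hf := by rw [hc]; ring
  rw [h2] at h1 ⊢
  have h3 : n / Hf = N' * c + j := by
    rw [Nat.div_eq_iff hf]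
    constructor
    · exact h1.1
    · omega
  unfold bs
  have h4 : n / Hc = (N' * c + j) * Hf / Hc := by
    rw [hc, ← Nat.div_div_eq_div_mul, ← Nat.div_div_eq_div_mul, h3, Nat.mul_div_cancel _ hf]
  rw [h4]

end Pool.Agent.Lib.H24P
end

-- from Lib.H24P.W1
section

/-!
# Project H24P, chunk W1 (M): Fourier uniform weights
-/

open Finset Polynomial

namespace Pool.Agent.Lib.H24P

open Pool.Agent.Lib.H68T Pool.Agent.Lib.H18Q Pool.Agent.Lib.H59P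

theorem w1_mul (f : ℤ → ℂ) (q : ℕ) (hf : ∀ m, f (m + q) = f m) (m k : ℤ) :
    f (m + k * q) = f m := by
  induction k using Int.induction_on with
  | zero => simp
  | succ i ih =>
    rw [show m + ((i : ℤ) + 1) * q = m + i * q + q by ring, hf, ih]
  | pred i ih =>
    have := hf (m + (-(i : ℤ) - 1) * q)
    rw [← this, show m + (-(i : ℤ) - 1) * q + q = m + -(i : ℤ) * q by ring, ih]

/-- A weight without correlation with additive characters against a periodic function. Proof. With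
`S_c = ∑_n f(n) e(n c/N)`: `∑_{n ≡ m} f(n) = (1/N) ∑_{c<N} e(-c m/N) S_c`, so the sum is
`∑_{m<N} ψ(m) (1/N) ∑_c e(-c m/N) S_c`, at most `N Φ δ`. -/
theorem W1_per (f : ℕ → ℂ) (I : Finset ℕ) (δ : ℝ)
    (hf : ∀ θ : ℝ, ‖∑ n ∈ I, f n * e ((n : ℝ) * θ)‖ ≤ δ) (N : ℕ) (hN : 0 < N) (ψ : ℤ → ℂ)
    (hψ : ∀ n, ψ (n + N) = ψ n) (Φ : ℝ) (hΦ : ∀ n, ‖ψ n‖ ≤ Φ) :
    ‖∑ n ∈ I, f n * ψ n‖ ≤ N * Φ * δ := by
  have hδ : 0 ≤ δ := (norm_nonneg _).trans (hf 0)
  have hΦ0 : 0 ≤ Φ := (norm_nonneg _).trans (hΦ 0)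
  have hNr : (0 : ℝ) < N := by exact_mod_cast hN
  have hNc : (N : ℂ) ≠ 0 := by exact_mod_cast hN.ne'
  have h1 : ∀ n : ℕ, ψ (n : ℤ) = ∑ m ∈ range N, if (N : ℤ) ∣ (n : ℤ) - m then ψ (m : ℤ) else 0 := by
    intro n
    have h2 : ψ (n : ℤ) = ψ ((n % N : ℕ) : ℤ) := by
      have h3 : (n : ℤ) = ((n % N : ℕ) : ℤ) + ((n / N : ℕ) : ℤ) * N := by
        have h4 := Nat.mod_add_div' n N
        exact_mod_cast h4.symm
      rw [h3]
      exact w1_mul ψ N hψ _ _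
    rw [sum_eq_single (n % N)]
    · rw [if_pos, h2]
      have h4 : ((n : ℤ) - ((n % N : ℕ) : ℤ)) = N * ((n / N : ℕ) : ℤ) := by
        have h5 := Nat.mod_add_div n N
        have h6 : ((n % N : ℕ) : ℤ) + N * ((n / N : ℕ) : ℤ) = n := by exact_mod_cast h5
        linarith
      rw [h4]
      exact dvd_mul_right _ _
    · intro m hm hne
      rw [if_neg]
      intro hd
      apply hne
      have h4 := mem_range.mp hm
      have h5 : m % N = n % N := by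
        have h6 : (m : ℤ) ≡ n [ZMOD N] := Int.modEq_iff_dvd.mpr hd
        have h7 : m ≡ n [MOD N] := (Int.natCast_modEq_iff).mp h6
        exact h7
      rw [← h5, Nat.mod_eq_of_lt h4]
    · intro h
      exact absurd (mem_range.mpr (Nat.mod_lt n hN)) h
  have h2 : ∀ n : ℕ, ψ (n : ℤ) = (N : ℂ)⁻¹ * ∑ c ∈ range N,
      (∑ m ∈ range N, ψ (m : ℤ) * e (-(c * ((m : ℝ) / N)))) * e ((n : ℝ) * (c / N)) := by
    intro n
    have h3 : ∑ c ∈ range N, (∑ m ∈ range N, ψ (m : ℤ) * e (-(c * ((m : ℝ) / N)))) * e ((n : ℝ) * (c / N))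
        = ∑ m ∈ range N, ψ (m : ℤ) * ∑ c ∈ range N, e (c * ((((n : ℤ) - m : ℤ) : ℝ) / N)) := by
      simp_rw [sum_mul, mul_sum]
      rw [sum_comm]
      refine sum_congr rfl fun m _ => sum_congr rfl fun c _ => ?_
      rw [mul_assoc, ← CQ1_e_add]
      congr 2
      push_cast
      field_simp
      ring
    rw [h3, h1 n, mul_sum]
    refine sum_congr rfl fun m _ => ?_
    rw [CQ1_geom N hN]
    split_ifs
    · field_simp
    · simp
  have h3 : ∑ n ∈ I, f n * ψ n = (N : ℂ)⁻¹ * ∑ c ∈ range N,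
      (∑ m ∈ range N, ψ (m : ℤ) * e (-(c * ((m : ℝ) / N)))) * ∑ n ∈ I, f n * e ((n : ℝ) * (c / N)) := by
    have h4 : ∀ n ∈ I, f n * ψ n = ∑ c ∈ range N, (N : ℂ)⁻¹ *
        ((∑ m ∈ range N, ψ (m : ℤ) * e (-(c * ((m : ℝ) / N)))) * (f n * e ((n : ℝ) * (c / N)))) := by
      intro n _
      rw [h2 n, ← mul_sum, mul_left_comm, mul_sum]
      congr 1
      refine sum_congr rfl fun c _ => ?_
      ring
    rw [sum_congr rfl h4, sum_comm, mul_sum]
    refine sum_congr rfl fun c _ => ?_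
    rw [← mul_sum, ← mul_sum]
  rw [h3, norm_mul, norm_inv]
  have h5 : ‖∑ c ∈ range N, (∑ m ∈ range N, ψ (m : ℤ) * e (-(c * ((m : ℝ) / N)))) *
      ∑ n ∈ I, f n * e ((n : ℝ) * (c / N))‖ ≤ N * (N * Φ * δ) := by
    refine (norm_sum_le _ _).trans ?_
    have h6 : ∀ c ∈ range N, ‖(∑ m ∈ range N, ψ (m : ℤ) * e (-(c * ((m : ℝ) / N)))) *
        ∑ n ∈ I, f n * e ((n : ℝ) * (c / N))‖ ≤ N * Φ * δ := by
      intro c _
      rw [norm_mul]
      refine mul_le_mul ?_ (hf _) (norm_nonneg _) (by positivity)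
      refine (norm_sum_le _ _).trans ?_
      have h7 : ∀ m ∈ range N, ‖ψ (m : ℤ) * e (-(c * ((m : ℝ) / N)))‖ ≤ Φ := by
        intro m _
        have h8 : ‖e (-(c * ((m : ℝ) / N)))‖ = 1 := by
          unfold e
          have h9 : (2 * Real.pi * ((-(c * ((m : ℝ) / N)) : ℝ) : ℂ) * Complex.I : ℂ)
              = ((2 * Real.pi * (-(c * ((m : ℝ) / N))) : ℝ) : ℂ) * Complex.I := by push_cast; ring
          rw [h9, Complex.norm_exp_ofReal_mul_I]
        rw [norm_mul, h8, mul_one]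
        exact hΦ _
      refine (sum_le_sum h7).trans ?_
      rw [sum_const, card_range, nsmul_eq_mul]
    refine (sum_le_sum h6).trans ?_
    rw [sum_const, card_range, nsmul_eq_mul]
  have h10 : ‖(N : ℂ)‖ = N := by simp
  rw [h10]
  calc (N : ℝ)⁻¹ * _ ≤ (N : ℝ)⁻¹ * (N * (N * Φ * δ)) :=
        mul_le_mul_of_nonneg_left h5 (by positivity)
    _ = N * Φ * δ := by field_simp



end Pool.Agent.Lib.H24P
end

-- from Lib.H24P.P3
section

/-!
# Project H24P, chunk P3 (M): mean values over complete periods (port of H59P/M5A, M5B, M5)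
-/

open Finset

namespace Pool.Agent.Lib.H24P

open Pool.Agent.Lib.H68T Pool.Agent.Lib.H18Q Pool.Agent.Lib.H59P

/-- the local factors at one prime -/
noncomputable def p3_g {k : ℕ} (φ : Fin k → ℤ → ℤ) (l : ℕ) (n : ℤ) : ℂ :=
  ∏ i, (((1 + gl l (φ i n) : ℝ)) : ℂ)

theorem p3_g_per {k : ℕ} (φ : Fin k → ℤ → ℤ) (hφ : Cp φ) (l N : ℕ) (h : l ∣ N) (n : ℤ) :
    p3_g φ l (n + N) = p3_g φ l n := by
  unfold p3_g
  refine prod_congr rfl fun i _ => ?_
  rw [P2_gl φ hφ l N h]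

theorem p3_g_sum {k : ℕ} (φ : Fin k → ℤ → ℤ) (l : ℕ) (hl : 0 < l) :
    ∑ n ∈ range l, p3_g φ l n = l * (((1 + tpf l φ : ℝ)) : ℂ) := by
  have hl0 : (l : ℂ) ≠ 0 := by exact_mod_cast hl.ne'
  unfold tpf p3_g
  push_cast
  field_simp
  ring

theorem p3_ph {k : ℕ} (p : Fin k → Ch) (A S : Finset ℕ) (hd : Disjoint A S) (φ : Fin k → ℤ → ℤ)
    (n : ℤ) :
    Phf p (A ∪ S) (at' φ n) = Phf p A (at' φ n) * ∏ l ∈ S, p3_g φ l n := by
  unfold Phf p3_g uu at'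
  rw [prod_comm (s := S), ← prod_mul_distrib]
  refine prod_congr rfl fun i _ => ?_
  rw [prod_union hd]
  push_cast
  ring

theorem p3_main {k : ℕ} (φ : Fin k → ℤ → ℤ) (hφ : Cp φ) (R : ℕ) (hR : 0 < R) (p : Fin k → Ch)
    (hd : ∀ i, (p i).1 ∣ R) (S : Finset ℕ) (hS : ∀ l ∈ S, l.Prime ∧ ¬ l ∣ R) :
    ∑ n ∈ range (R * ∏ l ∈ S, l), Phf p R.primeFactors (at' φ n) * ∏ l ∈ S, p3_g φ l n =
      (∑ n ∈ range R, Phf p R.primeFactors (at' φ n)) * ∏ l ∈ S, (l * (((1 + tpf l φ : ℝ)) : ℂ)) := by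
  induction S using Finset.induction_on with
  | empty => simp
  | insert l S hl ih =>
    have ih := ih fun q hq => hS q (mem_insert_of_mem hq)
    obtain ⟨hlp, hlR⟩ := hS l (mem_insert_self _ _)
    have hSpos : 0 < ∏ q ∈ S, q := prod_pos fun q hq => (hS q (mem_insert_of_mem hq)).1.pos
    have hco : Nat.Coprime (R * ∏ q ∈ S, q) l := by
      rw [Nat.coprime_comm, Nat.Prime.coprime_iff_not_dvd hlp]
      intro hdvd
      rcases (Nat.Prime.dvd_mul hlp).1 hdvd with h1 | h1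
      · exact hlR h1
      · obtain ⟨q, hq, hlq⟩ := (Prime.dvd_finsetProd_iff hlp.prime _).1 h1
        have := (Nat.prime_dvd_prime_iff_eq hlp (hS q (mem_insert_of_mem hq)).1).1 hlq
        exact hl (this ▸ hq)
    have e1 : R * ∏ q ∈ insert l S, q = (R * ∏ q ∈ S, q) * l := by
      rw [prod_insert hl]; ring
    have h3 := M3d (fun n => Phf p R.primeFactors (at' φ n) * ∏ q ∈ S, p3_g φ q n) (p3_g φ l)
      (R * ∏ q ∈ S, q) l (Nat.mul_pos hR hSpos) hlp.pos hco (by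
        intro m
        have a1 : Phf p R.primeFactors (at' φ (m + (R * ∏ q ∈ S, q : ℕ))) =
            Phf p R.primeFactors (at' φ m) :=
          P2_Ph φ hφ p R _ (Dvd.intro _ rfl) hd m
        have a2 : ∀ q ∈ S, p3_g φ q (m + (R * ∏ q ∈ S, q : ℕ)) = p3_g φ q m := by
          intro q hq
          exact p3_g_per φ hφ q _ ((Finset.dvd_prod_of_mem (fun q => q) hq).trans (dvd_mul_left _ _)) m
        rw [a1, prod_congr rfl a2]) (p3_g_per φ hφ l l dvd_rfl)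
    rw [e1, prod_insert hl]
    have e2 : ∑ n ∈ range (R * (∏ q ∈ S, q) * l),
        Phf p R.primeFactors (at' φ n) * ∏ q ∈ insert l S, p3_g φ q n =
        ∑ n ∈ range (R * (∏ q ∈ S, q) * l),
          (Phf p R.primeFactors (at' φ n) * ∏ q ∈ S, p3_g φ q n) * p3_g φ l n := by
      refine sum_congr rfl fun n _ => ?_
      rw [prod_insert hl]
      ring
    rw [e2, h3, ih, p3_g_sum φ l hlp.pos]
    ring

/-- **M5.** The mean modulo `R` times the local factors at the other primes is the mean over `Q!`.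

Proof. As `M5` in `H59P/M5A.lean` with `n + h_i` replaced by `φ i n`:
`Phf p (pr Q) (at' φ n) = Phf p R.primeFactors (at' φ n) * ∏_{l ∈ pr Q, l ∤ R} ∏_i (1 + gl l (φ i n))` (the prime
factors of `R` are at most `Q`, since `R ∣ Q!`). By `M3d` and induction over the primes `l` the sum over a
period `N = R ∏_{l ≤ Q, l ∤ R} l` is `R MRf p R φ ∏ l (1 + tpf l φ)`; `N` divides `Q!`, so the mean over `Q!` is the
mean over `N` (full periods). -/
theorem P3_M5 {k : ℕ} (φ : Fin k → ℤ → ℤ) (hφ : Cp φ) (Q R : ℕ) (hR : 0 < R) (hRQ : R ∣ Q.factorial)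
    (p : Fin k → Ch) (hd : ∀ i, (p i).1 ∣ R) :
    MRf p R φ * ((SSf ((pr Q).filter (fun l => ¬ l ∣ R)) φ : ℝ) : ℂ) = MQf Q p φ := by
  obtain ⟨S, hSdef⟩ : ∃ S, S = (pr Q).filter (fun l => ¬ l ∣ R) := ⟨_, rfl⟩
  rw [← hSdef]
  have hS : ∀ l ∈ S, (l ≤ Q ∧ l.Prime) ∧ ¬ l ∣ R := by
    intro l hl
    rw [hSdef, mem_filter, pr, mem_filter, mem_Icc] at hl
    exact ⟨⟨hl.1.1.2, hl.1.2⟩, hl.2⟩
  have hSpos : 0 < ∏ q ∈ S, q := prod_pos fun q hq => (hS q hq).1.2.pos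
  have hdisj : Disjoint R.primeFactors S := by
    rw [disjoint_left]
    intro l h1 h2
    exact (hS l h2).2 (Nat.dvd_of_mem_primeFactors h1)
  have hunion : R.primeFactors ∪ S = pr Q := by
    ext l
    rw [mem_union, hSdef, mem_filter, Nat.mem_primeFactors]
    constructor
    · rintro (⟨h1, h2, -⟩ | h1)
      · rw [pr, mem_filter, mem_Icc]
        exact ⟨⟨h1.one_le, (Nat.Prime.dvd_factorial h1).1 (h2.trans hRQ)⟩, h1⟩
      · exact h1.1
    · intro h1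
      by_cases h2 : l ∣ R
      · left
        rw [pr, mem_filter] at h1
        exact ⟨h1.2, h2, hR.ne'⟩
      · exact Or.inr ⟨h1, h2⟩
  have hper : ∀ m : ℤ, Phf p (pr Q) (at' φ (m + (R * ∏ q ∈ S, q : ℕ))) = Phf p (pr Q) (at' φ m) := by
    intro m
    rw [← hunion, p3_ph p _ _ hdisj, p3_ph p _ _ hdisj,
      P2_Ph φ hφ p R _ (Dvd.intro _ rfl) hd m]
    congr 1
    refine prod_congr rfl fun q hq => ?_
    exact p3_g_per φ hφ q _ ((Finset.dvd_prod_of_mem (fun q => q) hq).trans (dvd_mul_left _ _)) m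
  have hcop : Nat.Coprime R (∏ q ∈ S, q) := by
    apply Nat.Coprime.prod_right
    intro q hq
    rw [Nat.coprime_comm, Nat.Prime.coprime_iff_not_dvd (hS q hq).1.2]
    exact (hS q hq).2
  have hdvdN : R * ∏ q ∈ S, q ∣ Q.factorial := by
    apply hcop.mul_dvd_of_dvd_of_dvd hRQ
    apply Finset.prod_primes_dvd
    · intro q hq
      exact (hS q hq).1.2.prime
    · intro q hq
      exact (Nat.Prime.dvd_factorial (hS q hq).1.2).2 (hS q hq).1.1
  obtain ⟨j, hj⟩ := hdvdN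
  have hfac : 0 < Q.factorial := Nat.factorial_pos Q
  have hj0 : 0 < j := by
    rcases Nat.eq_zero_or_pos j with rfl | h1
    · rw [mul_zero] at hj
      omega
    · exact h1
  have hsum : ∑ n ∈ range (R * ∏ l ∈ S, l), Phf p (pr Q) (at' φ n) =
      (∑ n ∈ range R, Phf p R.primeFactors (at' φ n)) *
        ∏ l ∈ S, (l * (((1 + tpf l φ : ℝ)) : ℂ)) := by
    rw [← p3_main φ hφ R hR p hd S fun l hl => ⟨(hS l hl).1.2, (hS l hl).2⟩]
    refine sum_congr rfl fun n _ => ?_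
    rw [← hunion, p3_ph p _ _ hdisj]
  have hfull := m5a_full (fun n => Phf p (pr Q) (at' φ n)) _ hper j
  unfold MQf MRf SSf
  rw [hj, hfull, hsum, prod_mul_distrib]
  have r0 : (R : ℂ) ≠ 0 := by exact_mod_cast hR.ne'
  have j0 : (j : ℂ) ≠ 0 := by exact_mod_cast hj0.ne'
  have s0 : (∏ l ∈ S, (l : ℂ)) ≠ 0 := by
    rw [← Nat.cast_prod]
    exact_mod_cast hSpos.ne'
  push_cast
  field_simp

theorem p3_ph0 {k : ℕ} (m : Fin k → ℤ) : Phf (fun _ => p0) ∅ m = 1 := by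
  unfold Phf uu
  refine prod_eq_one fun i _ => ?_
  rw [m5b_cj]
  simp

/-- Proof. As `M5_SS`: `P3_M5` with `R = 1` and the trivial characters (`cj p0 m = 1`), or directly. -/
theorem P3_SS {k : ℕ} (φ : Fin k → ℤ → ℤ) (hφ : Cp φ) (Q : ℕ) :
    (∑ n ∈ range Q.factorial, ∏ i, uu (pr Q) (φ i n)) / (Q.factorial : ℝ) = SSf (pr Q) φ := by
  have h1 := P3_M5 φ hφ Q 1 one_pos (one_dvd _) (fun _ : Fin k => p0) (fun _ => one_dvd _)
  have h2 : (pr Q).filter (fun l => ¬ l ∣ 1) = pr Q := by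
    refine Finset.filter_true_of_mem fun l hl h => ?_
    rw [pr, mem_filter] at hl
    exact hl.2.one_lt.ne' (Nat.dvd_one.1 h)
  have h3 : MRf (fun _ : Fin k => p0) 1 φ = 1 := by
    unfold MRf
    rw [Nat.primeFactors_one, Finset.sum_range_one, p3_ph0]
    simp
  rw [h2, h3, one_mul] at h1
  have h4 : MQf Q (fun _ : Fin k => p0) φ =
      (((∑ n ∈ range Q.factorial, ∏ i, uu (pr Q) (φ i n)) / (Q.factorial : ℝ) : ℝ) : ℂ) := by
    unfold MQf Phf at'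
    push_cast
    congr 1
    refine Finset.sum_congr rfl fun n _ => Finset.prod_congr rfl fun i _ => ?_
    rw [m5b_cj, one_mul]
  rw [h4] at h1
  exact (Complex.ofReal_injective h1).symm

/-- Proof. As `M5_loc` in `H59P/M5B.lean`. -/
theorem P3_loc {k : ℕ} (φ : Fin k → ℤ → ℤ) (hφ : Cp φ) (R : ℕ) (hR : 0 < R) :
    MRf (fun _ => p0) R φ = ((SSf R.primeFactors φ : ℝ) : ℂ) := by
  have hp1 : ∀ l ∈ R.primeFactors, l.Prime ∧ ¬ l ∣ 1 := by
    intro l hl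
    have h1 := Nat.prime_of_mem_primeFactors hl
    exact ⟨h1, fun h2 => h1.one_lt.ne' (Nat.dvd_one.1 h2)⟩
  have hpos : 0 < ∏ l ∈ R.primeFactors, l := prod_pos fun q hq => (hp1 q hq).1.pos
  have hPh : ∀ n : ℤ, Phf (fun _ : Fin k => p0) R.primeFactors (at' φ n) =
      ∏ l ∈ R.primeFactors, p3_g φ l n := by
    intro n
    have h1 := p3_ph (fun _ : Fin k => p0) ∅ R.primeFactors (disjoint_empty_left _) φ n
    rw [empty_union, p3_ph0, one_mul] at h1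
    exact h1
  have hmain := p3_main φ hφ 1 one_pos (fun _ : Fin k => p0) (fun _ => one_dvd _) R.primeFactors hp1
  rw [one_mul, Nat.primeFactors_one] at hmain
  have hone : ∑ n ∈ range 1, Phf (fun _ : Fin k => p0) ∅ (at' φ n) = 1 := by
    rw [sum_range_one]
    exact p3_ph0 _
  rw [hone, one_mul] at hmain
  have hmain2 : ∑ n ∈ range (∏ l ∈ R.primeFactors, l),
      Phf (fun _ : Fin k => p0) R.primeFactors (at' φ n) =
      ∏ l ∈ R.primeFactors, (l * (((1 + tpf l φ : ℝ)) : ℂ)) := by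
    rw [← hmain]
    refine sum_congr rfl fun n _ => ?_
    rw [hPh, p3_ph0, one_mul]
  have hper : ∀ m : ℤ, Phf (fun _ : Fin k => p0) R.primeFactors
      (at' φ (m + (∏ l ∈ R.primeFactors, l : ℕ))) =
      Phf (fun _ : Fin k => p0) R.primeFactors (at' φ m) := by
    intro m
    rw [hPh, hPh]
    refine prod_congr rfl fun q hq => ?_
    exact p3_g_per φ hφ q _ (Finset.dvd_prod_of_mem (fun q => q) hq) m
  obtain ⟨j, hj⟩ := Nat.prod_primeFactors_dvd R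
  have hj0 : 0 < j := by
    rcases Nat.eq_zero_or_pos j with rfl | h1
    · rw [mul_zero] at hj
      omega
    · exact h1
  have hsum : ∑ n ∈ range R, Phf (fun _ : Fin k => p0) R.primeFactors (at' φ n) =
      j * ∏ l ∈ R.primeFactors, (l * (((1 + tpf l φ : ℝ)) : ℂ)) := by
    have h1 := m5a_full (fun n => Phf (fun _ : Fin k => p0) R.primeFactors (at' φ n)) _ hper j
    rw [← hj, hmain2] at h1
    exact h1
  have hRc : (R : ℂ) = (∏ l ∈ R.primeFactors, (l : ℂ)) * j := by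
    have h1 : ((R : ℕ) : ℂ) = (((∏ l ∈ R.primeFactors, l) * j : ℕ) : ℂ) := by rw [← hj]
    rw [h1]
    push_cast
    rfl
  have hR0 : (R : ℂ) ≠ 0 := by exact_mod_cast hR.ne'
  unfold MRf SSf
  rw [hsum, prod_mul_distrib, div_eq_iff hR0, hRc]
  push_cast
  ring

end Pool.Agent.Lib.H24P
end

-- from Lib.H59P.C3A
section

/-!
# Project H59P, chunk C3a
-/

open Finset

namespace Pool.Agent.Lib.H59P

open Pool.Agent.Lib.H68T Pool.Agent.Lib.H18Q

/-- A real character has real values `-1, 0, 1`. Proof. `ψ ^ 2 = 1`; compare `XDA_real` in `H68X`. -/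
theorem C3a (px : Ch) (hreal : px.2 ^ 2 = 1) (m : ℤ) :
    cj px m = ((cj px m).re : ℂ) ∧ |(cj px m).re| ≤ 1 := by
  unfold cj
  by_cases ha : IsUnit (m : ZMod px.1)
  · have h1 : (px.2 (m : ZMod px.1)) ^ 2 = 1 := by
      rw [← MulChar.pow_apply' px.2 (by norm_num : (2:ℕ) ≠ 0) _, hreal, MulChar.one_apply ha]
    have h2 : (px.2 (m : ZMod px.1) - 1) * (px.2 (m : ZMod px.1) + 1) = 0 := by
      have : (px.2 (m : ZMod px.1) - 1) * (px.2 (m : ZMod px.1) + 1) = (px.2 (m : ZMod px.1)) ^ 2 - 1 := by ring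
      rw [this, h1, sub_self]
    rcases mul_eq_zero.mp h2 with h3 | h3
    · have : px.2 (m : ZMod px.1) = 1 := by linear_combination h3
      rw [this, map_one]
      simp
    · have : px.2 (m : ZMod px.1) = -1 := by linear_combination h3
      rw [this, map_neg, map_one]
      simp
  · rw [MulChar.map_nonunit px.2 ha, map_zero]
    simp

end Pool.Agent.Lib.H59P
end

-- from Lib.H24P.P5
section

/-!
# Project H24P, chunk P5 (M): lower bounds for the main term (port of H59P/X2A, X2)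
-/

open Finset

namespace Pool.Agent.Lib.H24P

open Pool.Agent.Lib.H68T Pool.Agent.Lib.H18Q Pool.Agent.Lib.H59P

/-- The expansion of the main term (port of `X2a`). -/
theorem p5_X2a {k : ℕ} (φ : Fin k → ℤ → ℤ) (hφ : Cp φ) (Q : ℕ) (px : Ch) (hpx : px ∈ PC Q)
    (hreal : px.2 ^ 2 = 1) (th : Fin k → ℝ) :
    ((PMf Q px th φ : ℝ) : ℂ) = ∑ B ∈ (univ : Finset (Fin k)).powerset,
      ((∏ i ∈ B, -(th i) : ℝ) : ℂ) * (MRf (pB px B) px.1 φ *
        ((SSf ((pr Q).filter (fun l => ¬ l ∣ px.1)) φ : ℝ) : ℂ)) := by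
  classical
  obtain ⟨hr1, hrQ, hprim⟩ := mem_PC.1 hpx
  have h1 : ∀ B : Finset (Fin k), MRf (pB px B) px.1 φ *
        ((SSf ((pr Q).filter (fun l => ¬ l ∣ px.1)) φ : ℝ) : ℂ) = MQf Q (pB px B) φ := by
    intro B
    refine P3_M5 φ hφ Q px.1 (by omega) (Nat.dvd_factorial (by omega) hrQ) (pB px B) ?_
    intro i
    unfold pB
    split_ifs
    · exact dvd_rfl
    · exact one_dvd _
  rw [sum_congr rfl fun B _ => by rw [h1 B]]
  have h2 : ∀ n : ℤ, ((fPf Q px th (at' φ n) : ℝ) : ℂ) = ∑ B ∈ (univ : Finset (Fin k)).powerset,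
      ((∏ i ∈ B, -(th i) : ℝ) : ℂ) * Phf (pB px B) (pr Q) (at' φ n) := by
    intro n
    unfold fPf at'
    rw [Complex.ofReal_prod]
    have e1 : ∀ i : Fin k, ((uu (pr Q) (φ i n) * (1 - th i * (cj px (φ i n)).re) : ℝ) : ℂ) =
        ((uu (pr Q) (φ i n) : ℝ) : ℂ) * ((((-(th i) : ℝ)) : ℂ) * cj px (φ i n) + 1) := by
      intro i
      push_cast
      rw [← (C3a px hreal (φ i n)).1]
      ring
    rw [prod_congr rfl fun i _ => e1 i, prod_mul_distrib, Finset.prod_add, mul_sum]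
    refine sum_congr rfl fun B hB => ?_
    unfold Phf
    rw [prod_mul_distrib, prod_mul_distrib, prod_const_one, mul_one, Complex.ofReal_prod]
    have e2 : ∏ i, cj (pB px B i) (φ i n) = ∏ i ∈ B, cj px (φ i n) := by
      rw [← prod_subset (subset_univ B)]
      · refine prod_congr rfl fun i hi => ?_
        unfold pB
        rw [if_pos hi]
      · intro i _ hi
        unfold pB
        rw [if_neg hi, m5b_cj]
    rw [e2]
    ring
  unfold PMf MQf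
  rw [Complex.ofReal_div, Complex.ofReal_sum, sum_congr rfl fun (n : ℕ) _ => h2 (n : ℤ), sum_comm,
    sum_div]
  refine sum_congr rfl fun B _ => ?_
  rw [← mul_sum, mul_div_assoc]
  norm_cast

theorem p5_mem_pr {Q l : ℕ} : l ∈ pr Q ↔ l.Prime ∧ l ≤ Q := by
  unfold pr
  rw [Finset.mem_filter, Finset.mem_Icc]
  constructor
  · rintro ⟨⟨_, h2⟩, h3⟩
    exact ⟨h3, h2⟩
  · rintro ⟨h1, h2⟩
    exact ⟨⟨h1.one_lt.le, h2⟩, h1⟩

theorem p5_SS_nonneg {k : ℕ} (P : Finset ℕ) (hP : ∀ l ∈ P, l.Prime) (φ : Fin k → ℤ → ℤ) :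
    0 ≤ SSf P φ :=
  Finset.prod_nonneg fun l hl => (P0_tp l (hP l hl) φ).1

/-- Proof. As `X2a`, `X2` in `H59P`: with `n + h_i` replaced by `φ i n`; `pB` is in `H59P/X1.lean`; `M5` is `P3_M5`
(`R = px.1`, `px.1 ∣ Q!` as `1 ≤ px.1 ≤ Q`), `M5_loc` is `P3_loc`. -/
theorem P5_X2 {k : ℕ} (φ : Fin k → ℤ → ℤ) (hφ : Cp φ) (Q : ℕ) (px : Ch) (hpx : px ∈ PC Q)
    (hreal : px.2 ^ 2 = 1) (th : Fin k → ℝ) (hth0 : ∀ i, 0 ≤ th i) (hth : ∀ i, th i ≤ 1)
    (hm : ∀ B : Finset (Fin k), B.Nonempty →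
      2 ^ (k + 1) * ‖MRf (pB px B) px.1 φ‖ ≤ SSf px.1.primeFactors φ) :
    1 / 2 * SSf (pr Q) φ ≤ PMf Q px th φ := by
  classical
  have hpc := mem_PC.mp hpx
  have hr : 0 < px.1 := hpc.1
  set S : ℝ := SSf px.1.primeFactors φ with hS
  set S' : ℝ := SSf ((pr Q).filter (fun l => ¬ l ∣ px.1)) φ with hS'
  have hS0 : 0 ≤ S := p5_SS_nonneg _ (fun l hl => Nat.prime_of_mem_primeFactors hl) φ
  have hS'0 : 0 ≤ S' := p5_SS_nonneg _ (fun l hl => (p5_mem_pr.mp (Finset.mem_filter.mp hl).1).1) φ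
  have hsplit : SSf (pr Q) φ = S * S' := by
    have h1 : (pr Q).filter (fun l => l ∣ px.1) = px.1.primeFactors := by
      ext l
      rw [Finset.mem_filter, p5_mem_pr, Nat.mem_primeFactors]
      constructor
      · rintro ⟨⟨h1, _⟩, h3⟩
        exact ⟨h1, h3, hr.ne'⟩
      · rintro ⟨h1, h3, _⟩
        exact ⟨⟨h1, (Nat.le_of_dvd hr h3).trans hpc.2.1⟩, h3⟩
    rw [hS, hS', ← h1]
    unfold SSf
    exact (Finset.prod_filter_mul_prod_filter_not (pr Q) (fun l => l ∣ px.1)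
      (fun l => 1 + tpf l φ)).symm
  have hempty : MRf (pB px (∅ : Finset (Fin k))) px.1 φ = ((S : ℝ) : ℂ) := by
    have h1 : (pB px (∅ : Finset (Fin k))) = fun _ => p0 := by
      funext i
      simp [pB]
    rw [h1]
    exact P3_loc φ hφ px.1 hr
  have hX := p5_X2a φ hφ Q px hpx hreal th
  -- take real parts
  set E : Finset (Fin k) → ℂ := fun B => ((∏ i ∈ B, -(th i) : ℝ) : ℂ) * MRf (pB px B) px.1 φ with hE
  have hX' : ((PMf Q px th φ : ℝ) : ℂ) = (∑ B ∈ (univ : Finset (Fin k)).powerset, E B) * (S' : ℂ) := by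
    rw [hX, Finset.sum_mul]
    refine Finset.sum_congr rfl fun B _ => ?_
    simp only [hE]
    ring
  have hne : (∅ : Finset (Fin k)) ∈ (univ : Finset (Fin k)).powerset := by simp
  rw [← Finset.add_sum_erase _ E hne] at hX'
  have hE0 : E ∅ = ((S : ℝ) : ℂ) := by
    simp only [hE, Finset.prod_empty, hempty]
    simp
  rw [hE0] at hX'
  have hre : PMf Q px th φ = (S + (∑ B ∈ (univ : Finset (Fin k)).powerset.erase ∅, E B).re) * S' := by
    have h1 := congrArg Complex.re hX'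
    rw [Complex.ofReal_re, Complex.re_mul_ofReal, Complex.add_re, Complex.ofReal_re] at h1
    exact h1
  have hbound : ‖∑ B ∈ (univ : Finset (Fin k)).powerset.erase ∅, E B‖ ≤ S / 2 := by
    refine (norm_sum_le _ _).trans ?_
    have h1 : ∀ B ∈ (univ : Finset (Fin k)).powerset.erase ∅, ‖E B‖ ≤ S / 2 ^ (k + 1) := by
      intro B hB
      have hBn : B.Nonempty := Finset.nonempty_iff_ne_empty.mpr (Finset.mem_erase.mp hB).1
      simp only [hE]
      rw [norm_mul, Complex.norm_real]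
      have h2 : ‖(∏ i ∈ B, -(th i) : ℝ)‖ ≤ 1 := by
        rw [norm_prod]
        refine Finset.prod_le_one (fun i _ => norm_nonneg _) fun i _ => ?_
        rw [norm_neg, Real.norm_eq_abs, abs_of_nonneg (hth0 i)]
        exact hth i
      have h3 := hm B hBn
      have h4 : ‖MRf (pB px B) px.1 φ‖ ≤ S / 2 ^ (k + 1) := by
        rw [le_div_iff₀ (by positivity), mul_comm]
        exact h3
      calc ‖(∏ i ∈ B, -(th i) : ℝ)‖ * ‖MRf (pB px B) px.1 φ‖ ≤ 1 * ‖MRf (pB px B) px.1 φ‖ :=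
            mul_le_mul_of_nonneg_right h2 (norm_nonneg _)
        _ ≤ S / 2 ^ (k + 1) := by rw [one_mul]; exact h4
    refine (Finset.sum_le_sum h1).trans ?_
    rw [Finset.sum_const, nsmul_eq_mul]
    have h5 : (((univ : Finset (Fin k)).powerset.erase ∅).card : ℝ) ≤ 2 ^ k := by
      have h6 : ((univ : Finset (Fin k)).powerset.erase ∅).card ≤
          (univ : Finset (Fin k)).powerset.card := Finset.card_erase_le
      rw [Finset.card_powerset, Finset.card_univ, Fintype.card_fin] at h6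
      exact_mod_cast h6
    have h7 : 0 ≤ S / 2 ^ (k + 1) := by positivity
    calc (((univ : Finset (Fin k)).powerset.erase ∅).card : ℝ) * (S / 2 ^ (k + 1))
        ≤ 2 ^ k * (S / 2 ^ (k + 1)) := mul_le_mul_of_nonneg_right h5 h7
      _ = S / 2 := by rw [pow_succ]; field_simp
  have hre2 : -(S / 2) ≤ (∑ B ∈ (univ : Finset (Fin k)).powerset.erase ∅, E B).re := by
    have h1 := Complex.abs_re_le_norm (∑ B ∈ (univ : Finset (Fin k)).powerset.erase ∅, E B)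
    have h2 := (abs_le.mp (h1.trans hbound)).1
    exact h2
  rw [hre, hsplit]
  have h3 : S / 2 * S' ≤
      (S + (∑ B ∈ (univ : Finset (Fin k)).powerset.erase ∅, E B).re) * S' :=
    mul_le_mul_of_nonneg_right (by linarith) hS'0
  linarith

/-- Proof. `1 - th_i ψ ≥ 1 - th_i ≥ η` (`|ψ| ≤ 1`: `C3a`), `uu ≥ 0` (`M3a_uu_nonneg`), so
`fPf ≥ η^k ∏ uu` pointwise; `P3_SS`. -/
theorem P5_eta {k : ℕ} (φ : Fin k → ℤ → ℤ) (hφ : Cp φ) (Q : ℕ) (px : Ch) (hreal : px.2 ^ 2 = 1)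
    (η : ℝ) (hη : 0 ≤ η) (th : Fin k → ℝ) (hth0 : ∀ i, 0 ≤ th i) (hth : ∀ i, th i ≤ 1 - η) :
    η ^ k * SSf (pr Q) φ ≤ PMf Q px th φ := by
  have hQ0 : (0 : ℝ) < (Q.factorial : ℝ) := by exact_mod_cast Nat.factorial_pos Q
  rw [← P3_SS φ hφ Q]
  unfold PMf
  rw [mul_div_assoc']
  refine div_le_div_of_nonneg_right ?_ hQ0.le
  rw [Finset.mul_sum]
  refine Finset.sum_le_sum fun n _ => ?_
  unfold fPf at'
  have h1 : η ^ k = ∏ _i : Fin k, η := by
    rw [Finset.prod_const, Finset.card_univ, Fintype.card_fin]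
  rw [h1, ← Finset.prod_mul_distrib]
  refine Finset.prod_le_prod (fun i _ => ?_) (fun i _ => ?_)
  · exact mul_nonneg hη (M3a_uu_nonneg _ (fun l hl => (p5_mem_pr.1 hl).1) _)
  · rw [mul_comm]
    refine mul_le_mul_of_nonneg_left ?_ (M3a_uu_nonneg _ (fun l hl => (p5_mem_pr.1 hl).1) _)
    have h2 := (abs_le.mp (C3a px hreal (φ i n)).2).2
    have h3 := mul_le_mul_of_nonneg_left h2 (hth0 i)
    have h4 := hth i
    linarith

end Pool.Agent.Lib.H24P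
end

-- from Lib.H59P.C3
section

/-!
# Project H59P, chunk C3
-/

open Finset

namespace Pool.Agent.Lib.H59P

open Pool.Agent.Lib.H68T Pool.Agent.Lib.H18Q

theorem c3_cj_p0 (m : ℤ) : cj p0 m = 1 := by
  unfold cj p0
  have h : IsUnit ((m : ℤ) : ZMod 1) := isUnit_of_subsingleton _
  rw [MulChar.one_apply h, map_one]

theorem c3_cj_norm (p : Ch) (m : ℤ) : ‖cj p m‖ ≤ 1 := by
  unfold cj
  rw [RCLike.norm_conj]
  exact DirichletCharacter.norm_le_one _ _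

theorem c3_lcm {k : ℕ} (px : Ch) (J : Finset (Fin k)) (p p' : Fin k → Ch) (h1 : ∀ i ∈ J, p i = p' i)
    (h2 : ∀ i, i ∉ J → p i = p0 ∨ p i = px) :
    px.1.lcm (univ.lcm fun i => (p i).1) ∣ px.1.lcm (univ.lcm fun i => (p' i).1) := by
  refine Nat.lcm_dvd (Nat.dvd_lcm_left _ _) (Finset.lcm_dvd fun i _ => ?_)
  by_cases hi : i ∈ J
  · rw [h1 i hi]
    exact (Finset.dvd_lcm (f := fun i => (p' i).1) (Finset.mem_univ i)).trans (Nat.dvd_lcm_right _ _)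
  · rcases h2 i hi with h | h
    · rw [h]
      exact one_dvd _
    · rw [h]
      exact Nat.dvd_lcm_left _ _

theorem c3_sumA (Q : ℕ) (hQ : 1 ≤ Q) (px : Ch) (hpx : px ∈ PC Q) (t : ℝ) (htriv : px = p0 → t = 0)
    (hreal : px.2 ^ 2 = 1) (m : ℤ) :
    ∑ p ∈ PC Q, MX px (fun _ => t) 0 p * cj p m = ((1 - t * (cj px m).re : ℝ) : ℂ) := by
  classical
  by_cases hp : px = p0
  · have ht := htriv hp
    rw [Finset.sum_eq_single p0]
    · simp [MX, c3_cj_p0, ht]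
    · intro p _ hne
      have h0 : MX px (fun _ => t) 0 p = 0 := by
        simp only [MX]
        rw [if_neg hne, if_neg (by rw [hp]; exact hne)]
      rw [h0, zero_mul]
    · intro h
      exact absurd (p0_mem hQ) h
  · have hsub : ({p0, px} : Finset Ch) ⊆ PC Q := by
      intro p h
      rw [Finset.mem_insert, Finset.mem_singleton] at h
      rcases h with h | h
      · rw [h]; exact p0_mem hQ
      · rw [h]; exact hpx
    rw [← Finset.sum_subset hsub]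
    · rw [Finset.sum_pair (Ne.symm hp)]
      have e1 : MX px (fun _ => t) 0 p0 = 1 := by simp [MX]
      have e2 : MX px (fun _ => t) 0 px = -((t : ℝ) : ℂ) := by simp [MX, hp]
      rw [e1, e2, c3_cj_p0]
      have e3 := (C3a px hreal m).1
      rw [e3]
      push_cast
      simp
      ring
    · intro p _ hne
      rw [Finset.mem_insert, Finset.mem_singleton, not_or] at hne
      have h0 : MX px (fun _ => t) 0 p = 0 := by
        simp only [MX]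
        rw [if_neg hne.1, if_neg hne.2]
      rw [h0, zero_mul]

/-- the pointwise bound -/
theorem c3_pt {k : ℕ} (Q D1 : ℕ) (hQ : 1 ≤ Q) (η E0 : ℝ) (px : Ch) (hpx : px ∈ PC Q) (hreal : px.2 ^ 2 = 1)
    (hcond : px.1 ≤ D1) (hη : 0 < η) (hE0 : 0 ≤ E0) (hE : 4 * k * E0 ≤ 1) (th : Fin k → ℝ)
    (hth0 : ∀ i, 0 ≤ th i) (hth : ∀ i, th i ≤ 1 - η) (htriv : px = p0 → ∀ i, th i = 0)
    (e : Fin k → Ch → ℂ) (he : ∀ i, ∑ p ∈ PC Q, ‖e i p‖ ≤ η * E0) (m : Fin k → ℤ) :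
    ‖∑ p ∈ TS k Q D1 px, ∏ i, ((MX px (fun _ => th i) 0 (p i) + e i (p i)) * cj (p i) (m i)) -
      ((∏ i, (1 - th i * (cj px (m i)).re) : ℝ) : ℂ)‖ ≤ 1 / 2 * ∏ i, (1 - th i * (cj px (m i)).re) := by
  classical
  have ha : ∀ i, η ≤ 1 - th i * (cj px (m i)).re := by
    intro i
    have h1 := (abs_le.mp (C3a px hreal (m i)).2).2
    have h2 := mul_le_mul_of_nonneg_left h1 (hth0 i)
    have h3 := hth i
    linarith
  have ha0 : ∀ i, 0 ≤ 1 - th i * (cj px (m i)).re := fun i => hη.le.trans (ha i)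
  have hsum : ∀ i, ∑ p ∈ PC Q, MX px (fun _ => th i) 0 p * cj p (m i) =
      ((1 - th i * (cj px (m i)).re : ℝ) : ℂ) := fun i =>
    c3_sumA Q hQ px hpx (th i) (fun h => htriv h i) hreal (m i)
  have hC1 := C1 (PC Q) ({p0, px} : Finset Ch) (fun p : Fin k → Ch => px.1.lcm (univ.lcm fun i => (p i).1) ≤ D1)
    (fun i p => MX px (fun _ => th i) 0 p * cj p (m i)) (fun i p => e i p * cj p (m i)) ?_ ?_ ?_
  rotate_left
  · intro i p _ hne
    rw [Finset.mem_insert, Finset.mem_singleton, not_or] at hne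
    have h0 : MX px (fun _ => th i) 0 p = 0 := by
      simp only [MX]
      rw [if_neg hne.1, if_neg hne.2]
    show MX px (fun _ => th i) 0 p * cj p (m i) = 0
    rw [h0, zero_mul]
  · intro J p p' h1 h2 h3
    have k1 := c3_lcm px J p p' h1 (fun i hi => by simpa using h2 i hi)
    have k2 := c3_lcm px J p' p (fun i hi => (h1 i hi).symm) (fun i hi => by simpa using h3 i hi)
    show px.1.lcm (univ.lcm fun i => (p i).1) ≤ D1 ↔ px.1.lcm (univ.lcm fun i => (p' i).1) ≤ D1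
    rw [Nat.dvd_antisymm k1 k2]
  · intro p hp
    have k1 := c3_lcm px ∅ p (fun _ => p0) (fun i hi => by simp at hi) (fun i _ => by simpa using hp i)
    have k2 : px.1.lcm (univ.lcm fun i : Fin k => ((fun _ => p0 : Fin k → Ch) i).1) ∣ px.1 := by
      refine Nat.lcm_dvd dvd_rfl (Finset.lcm_dvd fun i _ => ?_)
      exact one_dvd _
    have hpos : 0 < px.1 := (mem_PC.mp hpx).1
    exact (Nat.le_of_dvd hpos (k1.trans k2)).trans hcond
  have e1 : ∀ p : Fin k → Ch, ∏ i, ((MX px (fun _ => th i) 0 (p i) + e i (p i)) * cj (p i) (m i)) =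
      ∏ i, (MX px (fun _ => th i) 0 (p i) * cj (p i) (m i) + e i (p i) * cj (p i) (m i)) := fun p =>
    Finset.prod_congr rfl fun i _ => by ring
  have e2 : ∏ i, ∑ p ∈ PC Q, MX px (fun _ => th i) 0 p * cj p (m i) =
      ((∏ i, (1 - th i * (cj px (m i)).re) : ℝ) : ℂ) := by
    rw [Complex.ofReal_prod]
    exact Finset.prod_congr rfl fun i _ => hsum i
  have e3 : ∀ i, ‖∑ p ∈ PC Q, MX px (fun _ => th i) 0 p * cj p (m i)‖ = 1 - th i * (cj px (m i)).re := by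
    intro i
    rw [hsum i, Complex.norm_real, Real.norm_eq_abs, abs_of_nonneg (ha0 i)]
  have hC2 := C2 (fun i => 1 - th i * (cj px (m i)).re) (fun i => ∑ p ∈ PC Q, ‖e i p * cj p (m i)‖) η E0 hη hE0 hE ha
    (fun i => Finset.sum_nonneg fun _ _ => norm_nonneg _) (fun i => ?_)
  swap
  · refine (Finset.sum_le_sum fun p _ => ?_).trans (he i)
    rw [norm_mul]
    exact mul_le_of_le_one_right (norm_nonneg _) (c3_cj_norm p (m i))
  simp only [e3] at hC1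
  rw [e2] at hC1
  unfold TS
  simp only [e1]
  exact hC1.trans hC2

theorem c3_pr (Q : ℕ) : ∀ l ∈ pr Q, l.Prime := fun l hl => (Finset.mem_filter.mp hl).2

/-- **C3.** `c i p = MX px (th i) p + e i p`.

Proof. Both sides are means over `n < Q!` of `∏_i uu(n+h_i)` (`≥ 0`, `M3a_uu_nonneg`) times
`∑_{p ∈ TS} ∏_i c_i(p_i) cj (p_i)(n+h_i)` and `∏_i (1 - th_i ψ(n+h_i))` respectively. For fixed `n` apply `C1` with
`S = PC Q`, `V = {p0, px}`, `φ p = (px.1.lcm (lcm p_i.1) ≤ D1)`, `A i p = MX px (th i) p · cj p (n+h_i)`,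
`B i p = e i p · cj p (n+h_i)`: `∑_p A i p = 1 - th_i ψ(n+h_i)` (`cj p0 = 1`; `C3a`; if `px = p0` then `th_i = 0`)
which is real and `≥ 1 - th_i ≥ η`, `∑ ‖B‖ ≤ ∑ ‖e i p‖ ≤ η E0`; `dep`: coordinates in `V` have modulus `1` or
`px.1`, which does not change `px.1.lcm (…)`; `hV`: then the lcm is `px.1 ≤ D1`. `C2`. -/
theorem C3 {k : ℕ} (Q D1 : ℕ) (hQ : 1 ≤ Q) (η E0 : ℝ) (px : Ch) (hpx : px ∈ PC Q) (hreal : px.2 ^ 2 = 1)
    (hcond : px.1 ≤ D1) (hη : 0 < η) (hE0 : 0 ≤ E0) (hE : 4 * k * E0 ≤ 1) (th : Fin k → ℝ)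
    (hth0 : ∀ i, 0 ≤ th i) (hth : ∀ i, th i ≤ 1 - η) (htriv : px = p0 → ∀ i, th i = 0)
    (e : Fin k → Ch → ℂ) (he : ∀ i, ∑ p ∈ PC Q, ‖e i p‖ ≤ η * E0) (h : Fin k → ℕ) :
    ‖∑ p ∈ TS k Q D1 px, (∏ i, (MX px (fun _ => th i) 0 (p i) + e i (p i))) * MQ Q p h -
      ((PM Q px th h : ℝ) : ℂ)‖ ≤ 1 / 2 * PM Q px th h := by
  have hQ0 : (0 : ℝ) < (Q.factorial : ℝ) := by exact_mod_cast Nat.factorial_pos Q
  have hU : ∀ n : ℤ, 0 ≤ ∏ i : Fin k, uu (pr Q) (n + h i) := fun n =>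
    Finset.prod_nonneg fun i _ => M3a_uu_nonneg _ (c3_pr Q) _
  have h1 : ∑ p ∈ TS k Q D1 px, (∏ i, (MX px (fun _ => th i) 0 (p i) + e i (p i))) * MQ Q p h =
      (∑ n ∈ range Q.factorial, ((∏ i : Fin k, uu (pr Q) ((n : ℤ) + h i) : ℝ) : ℂ) *
        ∑ p ∈ TS k Q D1 px, ∏ i, ((MX px (fun _ => th i) 0 (p i) + e i (p i)) * cj (p i) ((n : ℤ) + h i))) /
        ((Q.factorial : ℝ) : ℂ) := by
    unfold MQ
    rw [Finset.sum_div]
    simp only [Finset.mul_sum, Finset.sum_div, mul_div_assoc']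
    rw [Finset.sum_comm]
    refine Finset.sum_congr rfl fun n _ => ?_
    refine Finset.sum_congr rfl fun p _ => ?_
    unfold Ph
    rw [Finset.prod_mul_distrib, Finset.prod_mul_distrib, Complex.ofReal_prod]
    push_cast
    ring
  have h2 : PM Q px th h = (∑ n ∈ range Q.factorial, (∏ i : Fin k, uu (pr Q) ((n : ℤ) + h i)) *
        ∏ i, (1 - th i * (cj px ((n : ℤ) + h i)).re)) / (Q.factorial : ℝ) := by
    unfold PM fP
    congr 1
    refine Finset.sum_congr rfl fun n _ => ?_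
    rw [Finset.prod_mul_distrib]
  rw [h1, h2]
  rw [Complex.ofReal_div, ← sub_div, norm_div, Complex.norm_real, Real.norm_eq_abs, abs_of_pos hQ0, mul_div_assoc']
  refine div_le_div_of_nonneg_right ?_ hQ0.le
  rw [Complex.ofReal_sum, ← Finset.sum_sub_distrib, Finset.mul_sum]
  refine (norm_sum_le _ _).trans (Finset.sum_le_sum fun n _ => ?_)
  rw [Complex.ofReal_mul, ← mul_sub, norm_mul, Complex.norm_real, Real.norm_eq_abs, abs_of_nonneg (hU n)]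
  have hpt := c3_pt Q D1 hQ η E0 px hpx hreal hcond hη hE0 hE th hth0 hth htriv e he (fun i => (n : ℤ) + h i)
  have := mul_le_mul_of_nonneg_left hpt (hU n)
  refine this.trans (le_of_eq ?_)
  ring

end Pool.Agent.Lib.H59P
end

-- from Lib.H24P.X1A
section

/-!
# Project H24P, chunk X1A (M): a twisted mean value with a random coordinate twisted
-/

open Finset Polynomial

namespace Pool.Agent.Lib.H24P

open Pool.Agent.Lib.H68T Pool.Agent.Lib.H18Q Pool.Agent.Lib.H59P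

/-- The set of the `κ` for the level `r`: `κ i = 1` at twisted coordinates, a divisor of the radical of `r` at the others.
(Chunks X1A, X1B.) -/
noncomputable def KT {k : ℕ} (px : Ch) (Bs : Finset (Fin k)) : Finset (Fin k → ℕ) :=
  open Classical in Fintype.piFinset fun i =>
    if i ∈ Bs then {1} else (∏ l ∈ px.1.primeFactors, l).divisors

theorem x1a_SD1 (r : ℕ) (hr : 1 ≤ r) : SD r r = {1} := by
  classical
  ext s
  rw [SD, Finset.mem_filter, Finset.mem_singleton, Nat.mem_divisors]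
  constructor
  · rintro ⟨⟨h1, _⟩, _, h3⟩
    exact Nat.Coprime.eq_one_of_dvd h3 h1
  · rintro rfl
    exact ⟨⟨one_dvd _, by omega⟩, squarefree_one, Nat.coprime_one_left r⟩

theorem x1a_rad (r : ℕ) : Squarefree (∏ l ∈ r.primeFactors, l) := by
  rw [← Nat.radical_eq_prod_primeFactors]
  exact UniqueFactorizationMonoid.squarefree_radical

theorem x1a_SD2 (r : ℕ) (hr : 1 ≤ r) : SD r 1 = (∏ l ∈ r.primeFactors, l).divisors := by
  classical
  ext s
  rw [SD, Finset.mem_filter, Nat.mem_divisors, Nat.mem_divisors]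
  constructor
  · rintro ⟨⟨h1, _⟩, h2, _⟩
    refine ⟨?_, (x1a_rad r).ne_zero⟩
    rw [← Nat.prod_primeFactors_of_squarefree h2]
    exact Finset.prod_dvd_prod_of_subset _ _ _ (Nat.primeFactors_mono h1 (by omega))
  · rintro ⟨h1, _⟩
    exact ⟨⟨h1.trans (Nat.prod_primeFactors_dvd r), by omega⟩, (x1a_rad r).squarefree_of_dvd h1,
      Nat.coprime_one_right s⟩

/-- Proof. `r = px.1`. For `i ∈ Bs`: `cj px m uu r.primeFactors m = gk px 1 m` (both are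
`(r/φ(r)) cj px m`: if `cj px m ≠ 0` then `m` is coprime to `r`: `x1_uu_unit`; `gk` with `κ = 1`: `M2a` of `H59P` or
`B1_SD` with `N = r`, `SD r r = {1}`). For `i ∉ Bs`: `uu r.primeFactors m = ∑_{κ ∣ rad r} gk p0 κ m` (`B1_SD` with `p = p0`,
`N = r` or directly `Finset.prod_one_add`-type expansion, `M2a`). `Finset.prod_univ_sum`. -/
theorem X1A_expand {k : ℕ} (Q : ℕ) (px : Ch) (hpx : px ∈ PC Q) (Bs : Finset (Fin k)) (m : Fin k → ℤ) :
    ∏ i, (cj (pB px Bs i) (m i) * ((uu px.1.primeFactors (m i) : ℝ) : ℂ)) =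
      ∑ κ ∈ KT px Bs, ∏ i, gk (pB px Bs i) (κ i) (m i) := by
  classical
  obtain ⟨hr1, -, -⟩ := mem_PC.1 hpx
  unfold KT
  refine Eq.trans ?_ (Finset.prod_univ_sum (fun i : Fin k => if i ∈ Bs then ({1} : Finset ℕ) else
    (∏ l ∈ px.1.primeFactors, l).divisors) (fun i κ => gk (pB px Bs i) κ (m i)))
  refine Finset.prod_congr rfl fun i _ => ?_
  by_cases hi : i ∈ Bs
  · have hp : pB px Bs i = px := by
      unfold pB
      rw [if_pos hi]
    rw [if_pos hi, hp, ← B1_SD px.1 hr1 px dvd_rfl (m i), x1a_SD1 px.1 hr1]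
  · have hp : pB px Bs i = p0 := by
      unfold pB
      rw [if_neg hi]
    rw [if_neg hi, hp, ← B1_SD px.1 hr1 p0 (one_dvd _) (m i)]
    have h0 : (p0 : Ch).1 = 1 := rfl
    rw [h0, x1a_SD2 px.1 hr1]

/-- `KT` at the level `r`. Proof. `KS r r = {1}`, `KS r 1` = the squarefree numbers up to `r`; divisors of the radical of
`r` are squarefree and at most `r`. -/
theorem X1A_sub {k : ℕ} (Q : ℕ) (px : Ch) (hpx : px ∈ PC Q) (Bs : Finset (Fin k)) :
    KT px Bs ⊆ Fintype.piFinset (fun i => KS px.1 (pB px Bs i).1) ∧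
      ∀ i, pB px Bs i ∈ PC px.1 := by
  classical
  obtain ⟨hr1, -, hprim⟩ := mem_PC.1 hpx
  refine ⟨?_, ?_⟩
  · unfold KT
    refine Fintype.piFinset_subset _ _ fun i => ?_
    by_cases hi : i ∈ Bs
    · have hp : pB px Bs i = px := by
        unfold pB
        rw [if_pos hi]
      rw [if_pos hi, hp, Finset.singleton_subset_iff, KS, Finset.mem_filter, Finset.mem_Icc]
      refine ⟨⟨le_rfl, ?_⟩, squarefree_one, Nat.coprime_one_left _⟩
      rw [Nat.div_self hr1]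
    · have hp : pB px Bs i = p0 := by
        unfold pB
        rw [if_neg hi]
      have h0 : (p0 : Ch).1 = 1 := rfl
      rw [if_neg hi, hp, h0]
      intro s hs
      rw [Nat.mem_divisors] at hs
      have h1 := hs.1.trans (Nat.prod_primeFactors_dvd px.1)
      rw [KS, Finset.mem_filter, Finset.mem_Icc, Nat.div_one]
      refine ⟨⟨?_, Nat.le_of_dvd hr1 h1⟩, (x1a_rad px.1).squarefree_of_dvd hs.1, Nat.coprime_one_right s⟩
      exact Nat.pos_of_dvd_of_pos h1 hr1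
  · intro i
    by_cases hi : i ∈ Bs
    · have hp : pB px Bs i = px := by
        unfold pB
        rw [if_pos hi]
      rw [hp]
      exact mem_PC.2 ⟨hr1, le_rfl, hprim⟩
    · have hp : pB px Bs i = p0 := by
        unfold pB
        rw [if_neg hi]
      rw [hp]
      exact p0_mem hr1


end Pool.Agent.Lib.H24P
end

-- from Lib.H24Q.Defs
section

/-!
# Project H24Q (MP_443e5f_co, candidate T, main terms): definitions

A family of systems of congruence preserving maps `φ ω : Fin m → ℤ → ℤ`, `ω ∈ S` (finite set of parameters). The only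
analytic input is the property `FG` (mean squares of the parts with large moduli).
-/

open Finset

namespace Pool.Agent.Lib.H24Q

open Pool.Agent.Lib.H68T Pool.Agent.Lib.H18Q Pool.Agent.Lib.H59P Pool.Agent.Lib.H24P

noncomputable section

/-- **The property FG** (proved in module H59T for the two families used). -/
def FG (C c : ℝ) (Q H0 : ℕ) {m : ℕ} {Ω : Type} (S : Finset Ω) (φ : Ω → Fin m → ℤ → ℤ) : Prop :=
  ∀ p : Fin m → Ch, (∀ i, p i ∈ PC Q) →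
  ∀ T : Finset (Fin m → ℕ), T ⊆ Fintype.piFinset (fun i => KS Q (p i).1) →
  ∀ D : ℕ, 1 ≤ D → (∀ κ ∈ T, D < univ.lcm (fun i => (p i).1 * κ i)) →
  ∀ a H : ℕ, H0 ≤ H →
  ∑ ω ∈ S, ‖∑ n ∈ Ico a (a + H), ∑ κ ∈ T, ∏ i, gk (p i) (κ i) (φ ω i (n : ℤ))‖ ^ 2 ≤
    C * (1 + Real.log Q) ^ C * S.card * (H : ℝ) ^ 2 * (D : ℝ) ^ (-c)

/-- The local factors are close to `1`, the maps preserve congruences. -/
structure FB (C : ℝ) {m : ℕ} {Ω : Type} (S : Finset Ω) (φ : Ω → Fin m → ℤ → ℤ) : Prop where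
  cp : ∀ ω ∈ S, Cp (φ ω)
  tp : ∀ ω ∈ S, ∀ l : ℕ, l.Prime → |tpf l (φ ω)| ≤ C / l

/-- All the hypotheses on the family at the level `Q`. -/
structure Fam (C c : ℝ) (Q H0 : ℕ) {m : ℕ} {Ω : Type} (S : Finset Ω) (φ : Ω → Fin m → ℤ → ℤ) :
    Prop where
  fg1 : FG C c Q H0 S φ
  fg2 : FG C c (Q ^ 2) H0 S φ
  fb : FB C S φ

end

end Pool.Agent.Lib.H24Q
end

-- from Lib.H24Q.A1
section

/-!
# Project H24Q, chunk A1 (M): mean values of the bounded part (ports of H59P/M3E, M3F, M4)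
-/

open Finset

namespace Pool.Agent.Lib.H24Q

open Pool.Agent.Lib.H68T Pool.Agent.Lib.H18Q Pool.Agent.Lib.H59P Pool.Agent.Lib.H24P

theorem a1_per {m : ℕ} (φ : Fin m → ℤ → ℤ) (hφ : Cp φ) (l P : ℕ) (hlP : l ∣ P) (n : ℤ) :
    Wf l (at' φ (n + P)) = Wf l (at' φ n) := by
  unfold Wf
  congr 1
  refine Finset.prod_congr rfl fun i _ => ?_
  congr 1
  exact P2_gl φ hφ l P hlP i n

theorem a1_per_prod {m : ℕ} (φ : Fin m → ℤ → ℤ) (hφ : Cp φ) (S : Finset ℕ) (P : ℕ) (hP : ∀ l ∈ S, l ∣ P) (n : ℤ) :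
    ∏ l ∈ S, Wf l (at' φ (n + P)) = ∏ l ∈ S, Wf l (at' φ n) :=
  Finset.prod_congr rfl fun l hl => a1_per φ hφ l P (hP l hl) n

theorem a1_prime {m : ℕ} (l : ℕ) (hl : l.Prime) (φ : Fin m → ℤ → ℤ) :
    ∑ n ∈ range l, Wf l (at' φ (n : ℤ)) = l * tpf l φ := by
  have hl0 : (l : ℝ) ≠ 0 := by exact_mod_cast hl.pos.ne'
  unfold tpf Wf at'
  rw [Finset.sum_sub_distrib, Finset.sum_const, Finset.card_range, nsmul_eq_mul, mul_one]
  field_simp

theorem a1_set {m : ℕ} (φ : Fin m → ℤ → ℤ) (hφ : Cp φ) (S : Finset ℕ) : (∀ l ∈ S, l.Prime) →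
    ∑ n ∈ range (∏ l ∈ S, l), ∏ l ∈ S, Wf l (at' φ (n : ℤ)) = ((∏ l ∈ S, l : ℕ) : ℝ) * ∏ l ∈ S, tpf l φ := by
  induction S using Finset.induction_on with
  | empty => intro _; simp
  | insert a s ha ih =>
    intro hS
    have hap : a.Prime := hS a (Finset.mem_insert_self _ _)
    have hs : ∀ l ∈ s, l.Prime := fun l hl => hS l (Finset.mem_insert_of_mem hl)
    have hcop : Nat.Coprime a (∏ l ∈ s, l) := by
      apply Nat.Coprime.prod_right
      intro l hl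
      rw [Nat.coprime_primes hap (hs l hl)]
      rintro rfl
      exact ha hl
    have hpos : 0 < ∏ l ∈ s, l := Finset.prod_pos fun l hl => (hs l hl).pos
    have key := M3d (fun n => ((Wf a (at' φ n) : ℝ) : ℂ)) (fun n => ((∏ l ∈ s, Wf l (at' φ n) : ℝ) : ℂ)) a
      (∏ l ∈ s, l) hap.pos hpos hcop
      (fun m => by
        show ((Wf a (at' φ (m + a)) : ℝ) : ℂ) = ((Wf a (at' φ m) : ℝ) : ℂ)
        rw [a1_per φ hφ a a dvd_rfl m])
      (fun m => by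
        show ((∏ l ∈ s, Wf l (at' φ (m + ((∏ l ∈ s, l : ℕ) : ℤ))) : ℝ) : ℂ) = ((∏ l ∈ s, Wf l (at' φ m) : ℝ) : ℂ)
        rw [a1_per_prod φ hφ s _ (fun l hl => Finset.dvd_prod_of_mem _ hl) m])
    have key' : ∑ n ∈ range (a * ∏ l ∈ s, l), Wf a (at' φ (n : ℤ)) * ∏ l ∈ s, Wf l (at' φ (n : ℤ)) =
        (∑ n ∈ range a, Wf a (at' φ (n : ℤ))) * ∑ n ∈ range (∏ l ∈ s, l), ∏ l ∈ s, Wf l (at' φ (n : ℤ)) := by
      have : ((∑ n ∈ range (a * ∏ l ∈ s, l), Wf a (at' φ (n : ℤ)) * ∏ l ∈ s, Wf l (at' φ (n : ℤ)) : ℝ) : ℂ) =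
          (((∑ n ∈ range a, Wf a (at' φ (n : ℤ))) * ∑ n ∈ range (∏ l ∈ s, l), ∏ l ∈ s, Wf l (at' φ (n : ℤ)) : ℝ) : ℂ) := by
        rw [Complex.ofReal_sum, Complex.ofReal_mul, Complex.ofReal_sum, Complex.ofReal_sum]
        rw [← key]
        apply Finset.sum_congr rfl
        intro n _
        rw [Complex.ofReal_mul]
      exact_mod_cast this
    rw [Finset.prod_insert ha, Finset.prod_insert ha]
    have e1 : ∑ n ∈ range (a * ∏ l ∈ s, l), ∏ l ∈ insert a s, Wf l (at' φ (n : ℤ)) =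
        ∑ n ∈ range (a * ∏ l ∈ s, l), Wf a (at' φ (n : ℤ)) * ∏ l ∈ s, Wf l (at' φ (n : ℤ)) := by
      apply Finset.sum_congr rfl
      intro n _
      rw [Finset.prod_insert ha]
    rw [e1, key', ih hs, a1_prime a hap φ, Nat.cast_mul]
    ring

/-- Proof. As `M3e` (`H59P/M3E.lean`) with `n + h i` replaced by `φ i n`: induction over the prime factors with `M3d`,
`P2_Wd` for the periods. -/
theorem A1_mean {m : ℕ} (φ : Fin m → ℤ → ℤ) (hφ : Cp φ) (d : ℕ) (hd : Squarefree d) :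
    ∑ n ∈ range d, Wdf d (at' φ (n : ℤ)) = d * tdf d φ := by
  have h1 := a1_set φ hφ d.primeFactors (fun l hl => Nat.prime_of_mem_primeFactors hl)
  rw [Nat.prod_primeFactors_of_squarefree hd] at h1
  exact h1

/-- Proof. As `M3f` (`H59P/M3F.lean`): period `R d` (`P2_Ph`, `P2_Wd`), bounds `P0_PhR`, `P0_W`, mean
`MRf p R φ * tdf d φ` (`M3d`, `A1_mean`), `M3c`. -/
theorem A1_one {m : ℕ} (φ : Fin m → ℤ → ℤ) (hφ : Cp φ) (p : Fin m → Ch) (R d : ℕ) (hR : 0 < R)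
    (hd : ∀ i, (p i).1 ∣ R) (hsq : Squarefree d) (hc : Nat.Coprime d R) (a H : ℕ) :
    ‖∑ n ∈ Ico a (a + H), Phf p R.primeFactors (at' φ (n : ℤ)) * ((Wdf d (at' φ (n : ℤ)) : ℝ) : ℂ) -
      H * (MRf p R φ * ((tdf d φ : ℝ) : ℂ))‖ ≤
      2 * (R * d) * (((R : ℝ) / (Nat.totient R : ℝ)) * ((d : ℝ) / (Nat.totient d : ℝ))) ^ m := by
  have hd0 : 0 < d := Nat.pos_of_ne_zero hsq.ne_zero
  obtain ⟨f, hf⟩ : ∃ f : ℤ → ℂ, f = fun n => Phf p R.primeFactors (at' φ n) := ⟨_, rfl⟩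
  obtain ⟨g, hg⟩ : ∃ g : ℤ → ℂ, g = fun n => ((Wdf d (at' φ n) : ℝ) : ℂ) := ⟨_, rfl⟩
  have hfper : ∀ x, f (x + R) = f x := fun x => by
    rw [hf]
    exact P2_Ph φ hφ p R R dvd_rfl hd x
  have hgper : ∀ x, g (x + d) = g x := by
    intro x
    rw [hg]
    show ((Wdf d (at' φ (x + d)) : ℝ) : ℂ) = ((Wdf d (at' φ x) : ℝ) : ℂ)
    rw [P2_Wd φ hφ d d dvd_rfl x]
  have hfgper : ∀ x : ℤ, f (x + ((R * d : ℕ) : ℤ)) * g (x + ((R * d : ℕ) : ℤ)) = f x * g x := by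
    intro x
    have e1 : f (x + ((R * d : ℕ) : ℤ)) = f x := by
      have := m3c_per f R hfper d x
      rw [← this]
      congr 1
      push_cast
      ring
    have e2 : g (x + ((R * d : ℕ) : ℤ)) = g x := by
      have := m3c_per g d hgper R x
      rw [← this]
      congr 1
    rw [e1, e2]
  have hbd : ∀ x : ℤ, ‖f x * g x‖ ≤
      (((R : ℝ) / (Nat.totient R : ℝ)) * ((d : ℝ) / (Nat.totient d : ℝ))) ^ m := by
    intro x
    rw [norm_mul, mul_pow]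
    apply mul_le_mul
    · rw [hf]
      exact P0_PhR p R hR _
    · rw [hg]
      show ‖((Wdf d (at' φ x) : ℝ) : ℂ)‖ ≤ _
      rw [Complex.norm_real, Real.norm_eq_abs]
      exact P0_W d hsq _
    · exact norm_nonneg _
    · positivity
  have key := M3c (fun x => f x * g x) (R * d) (Nat.mul_pos hR hd0) hfgper _ hbd a H
  have hprod : ∑ n ∈ range (R * d), f n * g n = (∑ n ∈ range R, f n) * ∑ n ∈ range d, g n :=
    M3d f g R d hR hd0 hc.symm hfper hgper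
  have hgsum : ∑ n ∈ range d, g n = d * ((tdf d φ : ℝ) : ℂ) := by
    have := A1_mean φ hφ d hsq
    have h2 : ((∑ n ∈ range d, Wdf d (at' φ (n : ℤ)) : ℝ) : ℂ) = ((d * tdf d φ : ℝ) : ℂ) := by rw [this]
    rw [Complex.ofReal_sum] at h2
    rw [hg]
    rw [show ∑ n ∈ range d, (fun n : ℤ => ((Wdf d (at' φ n) : ℝ) : ℂ)) n = ∑ n ∈ range d, ((Wdf d (at' φ (n : ℤ)) : ℝ) : ℂ) from rfl, h2]
    push_cast
    rfl
  have hRc : (R : ℂ) ≠ 0 := by exact_mod_cast hR.ne'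
  have hdc : (d : ℂ) ≠ 0 := by exact_mod_cast hd0.ne'
  have hmean : (∑ n ∈ range (R * d), f n * g n) / ((R * d : ℕ) : ℂ) =
      MRf p R φ * ((tdf d φ : ℝ) : ℂ) := by
    rw [hprod, hgsum]
    have e3 : ∑ n ∈ range R, f n = ∑ n ∈ range R, Phf p R.primeFactors (at' φ (n : ℤ)) := by rw [hf]
    rw [e3]
    unfold MRf
    push_cast
    field_simp
  have key2 : ‖∑ n ∈ Ico a (a + H), f n * g n - H * (MRf p R φ * ((tdf d φ : ℝ) : ℂ))‖ ≤
      2 * ((R * d : ℕ) : ℝ) * (((R : ℝ) / (Nat.totient R : ℝ)) * ((d : ℝ) / (Nat.totient d : ℝ))) ^ m := by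
    rw [← hmean]
    exact key
  rw [Nat.cast_mul, hf, hg] at key2
  exact key2

/-- Proof. As `M4` (`H59P/M4.lean`): `P1_M2` for each `n`, `A1_one` for each `d ∈ SF (D/R) R`, `M3b`. -/
theorem A1_M4 {m : ℕ} (φ : Fin m → ℤ → ℤ) (hφ : Cp φ) (Q D R : ℕ) (hDQ : D ≤ Q) (hR : 0 < R)
    (p : Fin m → Ch) (hp : ∀ i, p i ∈ PC Q) (hd : ∀ i, (p i).1 ∣ R) (a H : ℕ) :
    ‖∑ n ∈ Ico a (a + H),
      ∑ κ ∈ (Fintype.piFinset fun i => KS Q (p i).1).filter (fun κ => R.lcm (univ.lcm κ) ≤ D),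
        ∏ i, gk (p i) (κ i) (φ i (n : ℤ)) -
      H * (MRf p R φ * ((∑ d ∈ SF (D / R) R, tdf d φ : ℝ) : ℂ))‖ ≤
      2 * (D : ℝ) ^ 2 * (2 * (1 + Real.log Q)) ^ (2 * m) := by
  have e1 : ∑ n ∈ Ico a (a + H),
      ∑ κ ∈ (Fintype.piFinset fun i => KS Q (p i).1).filter (fun κ => R.lcm (univ.lcm κ) ≤ D),
        ∏ i, gk (p i) (κ i) (φ i (n : ℤ)) =
      ∑ d ∈ SF (D / R) R, ∑ n ∈ Ico a (a + H), Phf p R.primeFactors (at' φ (n : ℤ)) * ((Wdf d (at' φ (n : ℤ)) : ℝ) : ℂ) := by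
    symm
    rw [sum_comm]
    refine sum_congr rfl fun n _ => ?_
    have h := P1_M2 Q D R hDQ hR p hp hd (at' φ (n : ℤ))
    rw [mul_sum] at h
    exact h.symm
  have e2 : (H : ℂ) * (MRf p R φ * ((∑ d ∈ SF (D / R) R, tdf d φ : ℝ) : ℂ)) =
      ∑ d ∈ SF (D / R) R, (H : ℂ) * (MRf p R φ * ((tdf d φ : ℝ) : ℂ)) := by
    push_cast
    rw [mul_sum, mul_sum]
  rw [e1, e2, ← sum_sub_distrib]
  have key : ∀ d ∈ SF (D / R) R, ‖∑ n ∈ Ico a (a + H), Phf p R.primeFactors (at' φ (n : ℤ)) * ((Wdf d (at' φ (n : ℤ)) : ℝ) : ℂ) -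
      (H : ℂ) * (MRf p R φ * ((tdf d φ : ℝ) : ℂ))‖ ≤
      2 * (D : ℝ) * (2 * (1 + Real.log Q)) ^ (2 * m) := by
    intro d hdm
    have hdm' : (1 ≤ d ∧ d ≤ D / R) ∧ Squarefree d ∧ Nat.Coprime d R := by
      simpa [SF] using hdm
    obtain ⟨⟨h1, h2⟩, h3, h4⟩ := hdm'
    have h5 := A1_one φ hφ p R d hR hd h3 h4 a H
    have h6 : R * d ≤ D := by
      have := (Nat.le_div_iff_mul_le hR).1 h2
      rwa [mul_comm] at this
    have hRD : R ≤ D := le_trans (Nat.le_mul_of_pos_right R h1) h6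
    have hdD : d ≤ D := le_trans (Nat.le_mul_of_pos_left d hR) h6
    have hlog : ∀ m : ℕ, 1 ≤ m → m ≤ D → (m : ℝ) / (Nat.totient m : ℝ) ≤ 2 * (1 + Real.log Q) := by
      intro m hm hmD
      refine (M3b m hm).trans ?_
      have hm0 : (0 : ℝ) < m := by exact_mod_cast hm
      have : Real.log m ≤ Real.log Q :=
        Real.log_le_log hm0 (by exact_mod_cast hmD.trans hDQ)
      linarith
    have b1 := hlog R hR hRD
    have b2 := hlog d h1 hdD
    have b0 : (0 : ℝ) ≤ (R : ℝ) / (Nat.totient R : ℝ) := by positivity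
    have b0' : (0 : ℝ) ≤ (d : ℝ) / (Nat.totient d : ℝ) := by positivity
    refine h5.trans ?_
    have b3 : (((R : ℝ) / (Nat.totient R : ℝ)) * ((d : ℝ) / (Nat.totient d : ℝ))) ^ m ≤
        (2 * (1 + Real.log Q)) ^ (2 * m) := by
      rw [pow_mul]
      apply pow_le_pow_left₀ (mul_nonneg b0 b0')
      rw [sq]
      exact mul_le_mul b1 b2 b0' (b0.trans b1)
    have b4 : (R : ℝ) * d ≤ D := by exact_mod_cast h6
    have b5 : (0 : ℝ) ≤ (((R : ℝ) / (Nat.totient R : ℝ)) * ((d : ℝ) / (Nat.totient d : ℝ))) ^ m := by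
      positivity
    calc 2 * ((R : ℝ) * d) * (((R : ℝ) / (Nat.totient R : ℝ)) * ((d : ℝ) / (Nat.totient d : ℝ))) ^ m
        ≤ 2 * (D : ℝ) * (((R : ℝ) / (Nat.totient R : ℝ)) * ((d : ℝ) / (Nat.totient d : ℝ))) ^ m := by
          gcongr
      _ ≤ 2 * (D : ℝ) * (2 * (1 + Real.log Q)) ^ (2 * m) := by gcongr
  have hcard : ((SF (D / R) R).card : ℝ) ≤ D := by
    have h1 : (SF (D / R) R).card ≤ (Icc 1 (D / R)).card := by
      unfold SF
      exact card_filter_le _ _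
    rw [Nat.card_Icc] at h1
    have h2 : D / R ≤ D := Nat.div_le_self _ _
    exact_mod_cast (by omega : (SF (D / R) R).card ≤ D)
  calc ‖∑ d ∈ SF (D / R) R, (∑ n ∈ Ico a (a + H), Phf p R.primeFactors (at' φ (n : ℤ)) * ((Wdf d (at' φ (n : ℤ)) : ℝ) : ℂ) -
      (H : ℂ) * (MRf p R φ * ((tdf d φ : ℝ) : ℂ)))‖
      ≤ ∑ d ∈ SF (D / R) R, ‖∑ n ∈ Ico a (a + H), Phf p R.primeFactors (at' φ (n : ℤ)) * ((Wdf d (at' φ (n : ℤ)) : ℝ) : ℂ) -
      (H : ℂ) * (MRf p R φ * ((tdf d φ : ℝ) : ℂ))‖ := norm_sum_le _ _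
    _ ≤ ∑ d ∈ SF (D / R) R, 2 * (D : ℝ) * (2 * (1 + Real.log Q)) ^ (2 * m) := sum_le_sum key
    _ = ((SF (D / R) R).card : ℝ) * (2 * (D : ℝ) * (2 * (1 + Real.log Q)) ^ (2 * m)) := by
        rw [sum_const, nsmul_eq_mul]
    _ ≤ (D : ℝ) * (2 * (D : ℝ) * (2 * (1 + Real.log Q)) ^ (2 * m)) := by
        apply mul_le_mul_of_nonneg_right hcard
        have : (0 : ℝ) ≤ (2 * (1 + Real.log Q)) ^ (2 * m) := by
          rw [pow_mul]; positivity
        positivity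
    _ = 2 * (D : ℝ) ^ 2 * (2 * (1 + Real.log Q)) ^ (2 * m) := by ring

end Pool.Agent.Lib.H24Q
end

-- from Lib.H24Q.Defs2
section

/-!
# Project H24Q: families of linear forms
-/

open Finset

namespace Pool.Agent.Lib.H24Q

open Pool.Agent.Lib.H68T Pool.Agent.Lib.H18Q Pool.Agent.Lib.H59P Pool.Agent.Lib.H24P

noncomputable section

/-- `m` linear forms `u_i ω(g_i) + v_i n + t_i` in `n`, depending on the parameters `ω : Fin g → ℕ`. -/
structure LF (m g : ℕ) where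
  gi : Fin m → Fin g
  u : Fin m → ℤ
  v : Fin m → ℤ
  t : Fin m → ℤ

/-- The forms. -/
def LF.map {m g : ℕ} (F : LF m g) (ω : Fin g → ℕ) : Fin m → ℤ → ℤ :=
  fun i n => F.u i * (ω (F.gi i) : ℤ) + F.v i * n + F.t i

/-- `x + n`, `x - n`, `x' + n`, `x' - n` -/
def L4 : LF 4 2 := ⟨![0, 0, 1, 1], ![1, 1, 1, 1], ![1, -1, 1, -1], ![0, 0, 0, 0]⟩

/-- `x + n`, `x - n` -/
def L2 : LF 2 1 := ⟨![0, 0], ![1, 1], ![1, -1], ![0, 0]⟩

/-- The hypothesis on the family: `Fam` for all boxes with large sides. -/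
def HF (C c : ℝ) (B : ℕ) {m g : ℕ} (F : LF m g) : Prop :=
  ∀ Q : ℕ, 2 ≤ Q → ∀ b s : Fin g → ℕ, (∀ j, Q ^ B ≤ s j) → Fam C c Q (Q ^ B) (cub b s) F.map

/-- The base point of the cell of `ω`. -/
def bw {g : ℕ} (Q : ℕ) (X : Fin g → ℕ) (ω : Fin g → ℕ) : Fin g → ℕ :=
  fun j => bs (X j / Q ^ 40) (ω j)

/-- The point where the coefficients of the `i`-th form are frozen. -/
def fp {m g : ℕ} (F : LF m g) (Q Z : ℕ) (X : Fin g → ℕ) (ω : Fin g → ℕ) (n : ℕ) (i : Fin m) : ℤ :=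
  F.map (bw Q X ω) i ((bs (Z / Q ^ 40) n : ℕ) : ℤ)

/-- The geometry: `ω ∈ ∏ [2 X_j, 3 X_j)`, `n ∈ [Z, 2Z)`, the values of the `i`-th form in `[Y_i, 4 Y_i)`. -/
structure Gm {m g : ℕ} (F : LF m g) (Q N Z : ℕ) (X : Fin g → ℕ) (Y : Fin m → ℕ) : Prop where
  dvdZ : Q ^ 40 ∣ Z
  dvdX : ∀ j, Q ^ 40 ∣ X j
  Zlo : N ≤ Z ^ 2
  Zhi : Z ≤ N
  Xlo : ∀ j, N ≤ X j ^ 2
  Xhi : ∀ j, X j ≤ N
  Ylo : ∀ i, N ≤ Y i ^ 2
  Yhi : ∀ i, Y i ≤ N ^ 2
  u2 : ∀ i, |F.u i| ≤ 2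
  v2 : ∀ i, |F.v i| ≤ 2
  uX : ∀ i, |F.u i| * X (F.gi i) ≤ 4 * Y i
  vZ : ∀ i, |F.v i| * Z ≤ 4 * Y i
  lo : ∀ i, ∀ ω ∈ cub (fun j => 2 * X j) X, ∀ n ∈ Ico Z (2 * Z), (Y i : ℤ) ≤ F.map ω i (n : ℤ)
  hi : ∀ i, ∀ ω ∈ cub (fun j => 2 * X j) X, ∀ n ∈ Ico Z (2 * Z), F.map ω i (n : ℤ) < 4 * Y i

/-- The sum of the products of the projections. -/
def MF {m g : ℕ} (F : LF m g) (Q Z : ℕ) (Y : Fin m → ℕ) (ω : Fin g → ℕ) : ℝ :=
  ∑ n ∈ Ico Z (2 * Z), ∏ i, Lk Q (Y i / Q ^ 2) (F.map ω i (n : ℤ))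

/-- The main term with coefficients `Cc i` frozen on cells, modulus `r`. -/
def MZ {m g : ℕ} (F : LF m g) (Q Z r : ℕ) (X : Fin g → ℕ) (Cc : Fin m → ℤ → Ch → ℂ)
    (ω : Fin g → ℕ) : ℂ :=
  ∑ n ∈ Ico Z (2 * Z), MDf Q r (fun i => Cc i (fp F Q Z X ω n i)) (F.map ω)

end

end Pool.Agent.Lib.H24Q
end

-- from Lib.H24P.P4
section

/-!
# Project H24P, chunk P4 (M): domination by the model (port of H59P/C3)
-/

open Finset

namespace Pool.Agent.Lib.H24P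

open Pool.Agent.Lib.H68T Pool.Agent.Lib.H18Q Pool.Agent.Lib.H59P

theorem p4_lcm {k : ℕ} (px : Ch) (m0 : ℕ) (hm0 : px.1 ∣ m0) (J : Finset (Fin k)) (p p' : Fin k → Ch)
    (h1 : ∀ i ∈ J, p i = p' i) (h2 : ∀ i, i ∉ J → p i = p0 ∨ p i = px) :
    m0.lcm (univ.lcm fun i => (p i).1) ∣ m0.lcm (univ.lcm fun i => (p' i).1) := by
  refine Nat.lcm_dvd (Nat.dvd_lcm_left _ _) (Finset.lcm_dvd fun i _ => ?_)
  by_cases hi : i ∈ J
  · rw [h1 i hi]
    exact (Finset.dvd_lcm (f := fun i => (p' i).1) (Finset.mem_univ i)).trans (Nat.dvd_lcm_right _ _)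
  · rcases h2 i hi with h | h
    · rw [h]
      exact one_dvd _
    · rw [h]
      exact hm0.trans (Nat.dvd_lcm_left _ _)

/-- the pointwise bound -/
theorem p4_pt {k : ℕ} (Q D1 m0 : ℕ) (hQ : 1 ≤ Q) (η E0 : ℝ) (px : Ch) (hpx : px ∈ PC Q)
    (hreal : px.2 ^ 2 = 1) (hm0 : px.1 ∣ m0) (hmpos : 0 < m0)
    (hcond : m0 ≤ D1) (hη : 0 < η) (hE0 : 0 ≤ E0) (hE : 4 * k * E0 ≤ 1) (th : Fin k → ℝ)
    (hth0 : ∀ i, 0 ≤ th i) (hth : ∀ i, th i ≤ 1 - η) (htriv : px = p0 → ∀ i, th i = 0)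
    (e : Fin k → Ch → ℂ) (he : ∀ i, ∑ p ∈ PC Q, ‖e i p‖ ≤ η * E0) (m : Fin k → ℤ) :
    ‖∑ p ∈ TSf k Q D1 m0, ∏ i, ((MX px (fun _ => th i) 0 (p i) + e i (p i)) * cj (p i) (m i)) -
      ((∏ i, (1 - th i * (cj px (m i)).re) : ℝ) : ℂ)‖ ≤ 1 / 2 * ∏ i, (1 - th i * (cj px (m i)).re) := by
  classical
  have ha : ∀ i, η ≤ 1 - th i * (cj px (m i)).re := by
    intro i
    have h1 := (abs_le.mp (C3a px hreal (m i)).2).2
    have h2 := mul_le_mul_of_nonneg_left h1 (hth0 i)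
    have h3 := hth i
    linarith
  have ha0 : ∀ i, 0 ≤ 1 - th i * (cj px (m i)).re := fun i => hη.le.trans (ha i)
  have hsum : ∀ i, ∑ p ∈ PC Q, MX px (fun _ => th i) 0 p * cj p (m i) =
      ((1 - th i * (cj px (m i)).re : ℝ) : ℂ) := fun i =>
    c3_sumA Q hQ px hpx (th i) (fun h => htriv h i) hreal (m i)
  have hC1 := C1 (PC Q) ({p0, px} : Finset Ch) (fun p : Fin k → Ch => m0.lcm (univ.lcm fun i => (p i).1) ≤ D1)
    (fun i p => MX px (fun _ => th i) 0 p * cj p (m i)) (fun i p => e i p * cj p (m i)) ?_ ?_ ?_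
  rotate_left
  · intro i p _ hne
    rw [Finset.mem_insert, Finset.mem_singleton, not_or] at hne
    have h0 : MX px (fun _ => th i) 0 p = 0 := by
      simp only [MX]
      rw [if_neg hne.1, if_neg hne.2]
    show MX px (fun _ => th i) 0 p * cj p (m i) = 0
    rw [h0, zero_mul]
  · intro J p p' h1 h2 h3
    have k1 := p4_lcm px m0 hm0 J p p' h1 (fun i hi => by simpa using h2 i hi)
    have k2 := p4_lcm px m0 hm0 J p' p (fun i hi => (h1 i hi).symm) (fun i hi => by simpa using h3 i hi)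
    show m0.lcm (univ.lcm fun i => (p i).1) ≤ D1 ↔ m0.lcm (univ.lcm fun i => (p' i).1) ≤ D1
    rw [Nat.dvd_antisymm k1 k2]
  · intro p hp
    have k1 := p4_lcm px m0 hm0 ∅ p (fun _ => p0) (fun i hi => by simp at hi) (fun i _ => by simpa using hp i)
    have k2 : m0.lcm (univ.lcm fun i : Fin k => ((fun _ => p0 : Fin k → Ch) i).1) ∣ m0 := by
      refine Nat.lcm_dvd dvd_rfl (Finset.lcm_dvd fun i _ => ?_)
      exact one_dvd _
    exact (Nat.le_of_dvd hmpos (k1.trans k2)).trans hcond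
  have e1 : ∀ p : Fin k → Ch, ∏ i, ((MX px (fun _ => th i) 0 (p i) + e i (p i)) * cj (p i) (m i)) =
      ∏ i, (MX px (fun _ => th i) 0 (p i) * cj (p i) (m i) + e i (p i) * cj (p i) (m i)) := fun p =>
    Finset.prod_congr rfl fun i _ => by ring
  have e2 : ∏ i, ∑ p ∈ PC Q, MX px (fun _ => th i) 0 p * cj p (m i) =
      ((∏ i, (1 - th i * (cj px (m i)).re) : ℝ) : ℂ) := by
    rw [Complex.ofReal_prod]
    exact Finset.prod_congr rfl fun i _ => hsum i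
  have e3 : ∀ i, ‖∑ p ∈ PC Q, MX px (fun _ => th i) 0 p * cj p (m i)‖ = 1 - th i * (cj px (m i)).re := by
    intro i
    rw [hsum i, Complex.norm_real, Real.norm_eq_abs, abs_of_nonneg (ha0 i)]
  have hC2 := C2 (fun i => 1 - th i * (cj px (m i)).re) (fun i => ∑ p ∈ PC Q, ‖e i p * cj p (m i)‖) η E0 hη hE0 hE ha
    (fun i => Finset.sum_nonneg fun _ _ => norm_nonneg _) (fun i => ?_)
  swap
  · refine (Finset.sum_le_sum fun p _ => ?_).trans (he i)
    rw [norm_mul]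
    exact mul_le_of_le_one_right (norm_nonneg _) (c3_cj_norm p (m i))
  simp only [e3] at hC1
  rw [e2] at hC1
  unfold TSf
  simp only [e1]
  exact hC1.trans hC2

/-- Proof. As `C3` (`H59P/C3.lean`), with `n + h_i` replaced by `φ i n` and `TS k Q D1 px` by `TSf k Q D1 m0`
(`px.1 ∣ m0 ≤ D1`): in `c3_pt` the condition `φ p` is now `m0.lcm (univ.lcm fun i => (p i).1) ≤ D1`; coordinates
in `{p0, px}` have a modulus dividing `m0`, which does not change this least common multiple; if all coordinates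
are in `{p0, px}` it is `m0 ≤ D1`. -/
theorem P4_C3 {k : ℕ} (φ : Fin k → ℤ → ℤ) (Q D1 m0 : ℕ) (hQ : 1 ≤ Q) (η E0 : ℝ) (px : Ch)
    (hpx : px ∈ PC Q) (hreal : px.2 ^ 2 = 1) (hm0 : px.1 ∣ m0) (hm : 0 < m0) (hcond : m0 ≤ D1)
    (hη : 0 < η) (hE0 : 0 ≤ E0) (hE : 4 * k * E0 ≤ 1) (th : Fin k → ℝ)
    (hth0 : ∀ i, 0 ≤ th i) (hth : ∀ i, th i ≤ 1 - η) (htriv : px = p0 → ∀ i, th i = 0)
    (e : Fin k → Ch → ℂ) (he : ∀ i, ∑ p ∈ PC Q, ‖e i p‖ ≤ η * E0) :
    ‖∑ p ∈ TSf k Q D1 m0, (∏ i, (MX px (fun _ => th i) 0 (p i) + e i (p i))) * MQf Q p φ -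
      ((PMf Q px th φ : ℝ) : ℂ)‖ ≤ 1 / 2 * PMf Q px th φ := by
  have hQ0 : (0 : ℝ) < (Q.factorial : ℝ) := by exact_mod_cast Nat.factorial_pos Q
  have hU : ∀ n : ℤ, 0 ≤ ∏ i : Fin k, uu (pr Q) (φ i n) := fun n =>
    Finset.prod_nonneg fun i _ => M3a_uu_nonneg _ (c3_pr Q) _
  have h1 : ∑ p ∈ TSf k Q D1 m0, (∏ i, (MX px (fun _ => th i) 0 (p i) + e i (p i))) * MQf Q p φ =
      (∑ n ∈ range Q.factorial, ((∏ i : Fin k, uu (pr Q) (φ i (n : ℤ)) : ℝ) : ℂ) *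
        ∑ p ∈ TSf k Q D1 m0, ∏ i, ((MX px (fun _ => th i) 0 (p i) + e i (p i)) *
          cj (p i) (φ i (n : ℤ)))) /
        ((Q.factorial : ℝ) : ℂ) := by
    unfold MQf
    rw [Finset.sum_div]
    simp only [Finset.mul_sum, Finset.sum_div, mul_div_assoc']
    rw [Finset.sum_comm]
    refine Finset.sum_congr rfl fun n _ => ?_
    refine Finset.sum_congr rfl fun p _ => ?_
    unfold Phf at'
    rw [Finset.prod_mul_distrib, Finset.prod_mul_distrib, Complex.ofReal_prod]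
    push_cast
    ring
  have h2 : PMf Q px th φ = (∑ n ∈ range Q.factorial, (∏ i : Fin k, uu (pr Q) (φ i (n : ℤ))) *
        ∏ i, (1 - th i * (cj px (φ i (n : ℤ))).re)) / (Q.factorial : ℝ) := by
    unfold PMf fPf at'
    congr 1
    refine Finset.sum_congr rfl fun n _ => ?_
    rw [Finset.prod_mul_distrib]
  rw [h1, h2]
  rw [Complex.ofReal_div, ← sub_div, norm_div, Complex.norm_real, Real.norm_eq_abs, abs_of_pos hQ0, mul_div_assoc']
  refine div_le_div_of_nonneg_right ?_ hQ0.le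
  rw [Complex.ofReal_sum, ← Finset.sum_sub_distrib, Finset.mul_sum]
  refine (norm_sum_le _ _).trans (Finset.sum_le_sum fun n _ => ?_)
  rw [Complex.ofReal_mul, ← mul_sub, norm_mul, Complex.norm_real, Real.norm_eq_abs, abs_of_nonneg (hU n)]
  have hpt := p4_pt Q D1 m0 hQ η E0 px hpx hreal hm0 hm hcond hη hE0 hE th hth0 hth htriv e he
    (fun i => φ i (n : ℤ))
  have := mul_le_mul_of_nonneg_left hpt (hU n)
  refine this.trans (le_of_eq ?_)
  ring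

end Pool.Agent.Lib.H24P
end

-- from Lib.H24P.Z3
section

/-!
# Project H24P, chunk Z3 (S/M): lower bound for the main term (compare H59P/Z3)
-/

open Finset Polynomial

namespace Pool.Agent.Lib.H24P

open Pool.Agent.Lib.H68T Pool.Agent.Lib.H18Q Pool.Agent.Lib.H59P

/-- One cell. Proof. `P4_C3` with `D1 = fl Q (1/16)`, `k + 1` coordinates: `‖MDf - PMf‖ ≤ PMf/2`, so
`Re MDf ≥ PMf/2 ≥ m/2`. -/
theorem Z3_cell {k : ℕ} (Q m0 : ℕ) (hQ : 1 ≤ Q) (η E0 : ℝ) (px : Ch) (hpx : px ∈ PC Q)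
    (hreal : px.2 ^ 2 = 1) (hm0 : px.1 ∣ m0) (hm : 0 < m0) (hcond : m0 ≤ fl Q (1 / 16)) (hη : 0 < η)
    (hE0 : 0 ≤ E0) (hE : 4 * k * E0 ≤ 1) (φ : Fin k → ℤ → ℤ) (th : Fin k → ℝ) (hth0 : ∀ i, 0 ≤ th i)
    (hth : ∀ i, th i ≤ 1 - η) (htriv : px = p0 → ∀ i, th i = 0) (e c : Fin k → Ch → ℂ)
    (he : ∀ i, ∑ p ∈ PC Q, ‖e i p‖ ≤ η * E0)
    (hc : ∀ i p, c i p = MX px (fun _ => th i) 0 p + e i p) (m : ℝ)
    (hm' : ∀ th' : Fin k → ℝ, (∀ i, 0 ≤ th' i) → (∀ i, th' i ≤ 1 - η) →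
      (px = p0 → ∀ i, th' i = 0) → m ≤ PMf Q px th' φ) :
    m / 2 ≤ (MDf Q m0 c φ).re := by
  have z := P4_C3 φ Q (fl Q (1 / 16)) m0 hQ η E0 px hpx hreal hm0 hm hcond hη hE0 hE th hth0 hth htriv e he
  have hS : MDf Q m0 c φ = ∑ p ∈ TSf k Q (fl Q (1 / 16)) m0,
      (∏ i, (MX px (fun _ => th i) 0 (p i) + e i (p i))) * MQf Q p φ := by
    unfold MDf
    refine Finset.sum_congr rfl fun p _ => ?_
    congr 1
    exact Finset.prod_congr rfl fun i _ => hc i (p i)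
  rw [← hS] at z
  have h1 := hm' th hth0 hth htriv
  have h2 : -(1 / 2 * PMf Q px th φ) ≤ (MDf Q m0 c φ - ((PMf Q px th φ : ℝ) : ℂ)).re :=
    (abs_le.1 ((Complex.abs_re_le_norm _).trans z)).1
  rw [Complex.sub_re, Complex.ofReal_re] at h2
  linarith


end Pool.Agent.Lib.H24P
end

-- from Lib.H24P.Z2B
section

/-!
# Project H24P, chunk Z2B (M): the truncated and the complete main term (compare H59P/Z3A)
-/

open Finset Polynomial

namespace Pool.Agent.Lib.H24P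

open Pool.Agent.Lib.H68T Pool.Agent.Lib.H18Q Pool.Agent.Lib.H59P

theorem z2b_R {k : ℕ} (Q D m0 : ℕ) (hm0 : 1 ≤ m0) (p : Fin (k + 1) → Ch)
    (hp : p ∈ TSf (k + 1) Q D m0) : 0 < Rf m0 p ∧ Rf m0 p ≤ D ∧ (∀ i, (p i).1 ∣ Rf m0 p) ∧
      m0 ∣ Rf m0 p := by
  classical
  unfold TSf at hp
  rw [Finset.mem_filter, Fintype.mem_piFinset] at hp
  obtain ⟨hp1, hp2⟩ := hp
  refine ⟨?_, hp2, ?_, ?_⟩
  · have h1 : (univ.lcm fun i => (p i).1) ≠ 0 := by
      intro h0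
      rw [Finset.lcm_eq_zero_iff] at h0
      obtain ⟨i, _, h2⟩ := h0
      have h3 : 0 < (p i).1 := (mem_PC.mp (hp1 i)).1
      exact h3.ne' h2
    unfold Rf
    exact Nat.lcm_pos hm0 (Nat.pos_of_ne_zero h1)
  · intro i
    unfold Rf
    exact (Finset.dvd_lcm (f := fun i => (p i).1) (Finset.mem_univ i)).trans (Nat.dvd_lcm_right _ _)
  · unfold Rf
    exact Nat.dvd_lcm_left _ _

/-- the size of the mean modulo `R` -/
theorem z2b_MR {k : ℕ} (Q : ℕ) (p : Fin (k + 1) → Ch) (R : ℕ) (hR : 0 < R) (hRQ : R ≤ Q)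
    (φ : Fin (k + 1) → ℤ → ℤ) : ‖MRf p R φ‖ ≤ (2 * (1 + Real.log Q)) ^ (k + 1) := by
  refine (P0_MR p R hR φ).trans ?_
  refine pow_le_pow_left₀ (by positivity) ((M3b R hR).trans ?_) _
  have h1 : Real.log R ≤ Real.log Q :=
    Real.log_le_log (by exact_mod_cast hR) (by exact_mod_cast hRQ)
  linarith

theorem z2b_gam {k : ℕ} (Q D m0 : ℕ) (c' : Fin (k + 1) → Ch → ℂ)
    (hc' : ∀ i, ∑ p ∈ PC Q, ‖c' i p‖ ≤ 3) :
    ∑ p ∈ TSf (k + 1) Q D m0, ‖∏ i, c' i (p i)‖ ≤ 3 ^ (k + 1) := by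
  classical
  calc ∑ p ∈ TSf (k + 1) Q D m0, ‖∏ i, c' i (p i)‖
      = ∑ p ∈ TSf (k + 1) Q D m0, ∏ i, ‖c' i (p i)‖ :=
        Finset.sum_congr rfl fun p _ => norm_prod _ _
    _ ≤ ∑ p ∈ Fintype.piFinset fun _ : Fin (k + 1) => PC Q, ∏ i, ‖c' i (p i)‖ := by
        refine Finset.sum_le_sum_of_subset_of_nonneg ?_ ?_
        · intro p hp
          unfold TSf at hp
          exact (Finset.mem_filter.mp hp).1
        · intro p _ _
          exact Finset.prod_nonneg fun i _ => norm_nonneg _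
    _ = ∏ i, ∑ q ∈ PC Q, ‖c' i q‖ := by
        rw [Finset.prod_univ_sum]
    _ ≤ ∏ _i : Fin (k + 1), (3 : ℝ) :=
        Finset.prod_le_prod (fun i _ => Finset.sum_nonneg fun _ _ => norm_nonneg _) fun i _ => hc' i
    _ = 3 ^ (k + 1) := by
        rw [Finset.prod_const, Finset.card_univ, Fintype.card_fin]


end Pool.Agent.Lib.H24P
end

-- from Lib.H24Q.D2
section

/-!
# Project H24Q, chunk D2 (M): cells (compare H24P/E1)
-/

open Finset

namespace Pool.Agent.Lib.H24Q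

open Pool.Agent.Lib.H68T Pool.Agent.Lib.H18Q Pool.Agent.Lib.H59P Pool.Agent.Lib.H24P

theorem d2_fib {k : ℕ} (b M s : Fin k → ℕ) (q : ℕ) (hs : ∀ i, M i = s i * q) (hpos : ∀ i, 0 < s i)
    (t : Fin k → ℕ) (ht : ∀ i, t i < q) :
    (cub b M).filter (fun h => (fun i => (h i - b i) / s i) = t) = cub (fun i => b i + t i * s i) s := by
  classical
  ext h
  unfold cub
  rw [mem_filter, Fintype.mem_piFinset, Fintype.mem_piFinset]
  constructor
  · rintro ⟨h1, h2⟩ i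
    have h3 : (h i - b i) / s i = t i := congrFun h2 i
    have h0 := mem_Ico.mp (h1 i)
    rw [mem_Ico]
    change b i + t i * s i ≤ h i ∧ h i < b i + t i * s i + s i
    have h4 := Nat.div_mul_le_self (h i - b i) (s i)
    have h5 := Nat.lt_div_mul_add (hpos i) (a := h i - b i)
    rw [h3] at h4 h5
    constructor
    · omega
    · omega
  · intro h1
    have h3 : ∀ i, b i + t i * s i ≤ h i ∧ h i < b i + t i * s i + s i := fun i => mem_Ico.mp (h1 i)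
    refine ⟨fun i => ?_, ?_⟩
    · rw [mem_Ico]
      have h4 : (t i + 1) * s i ≤ q * s i := Nat.mul_le_mul_right (s i) (ht i)
      have h5 : q * s i = M i := by rw [hs i]; ring
      have h6 : (t i + 1) * s i = t i * s i + s i := by ring
      have h7 := h3 i
      constructor
      · omega
      · omega
    · funext i
      have h4 := h3 i
      rw [Nat.div_eq_iff (hpos i)]
      constructor
      · omega
      · have h5 := hpos i
        omega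

/-- Proof. As `E1_cells` in `H24P/E1.lean`, the box `cub b M` (with `M i = s i q`) being the disjoint union of the `q^k` boxes
`cub (b + t s) s`. -/
theorem D2_cells {k : ℕ} (b M s : Fin k → ℕ) (q : ℕ) (hs : ∀ i, M i = s i * q) (X1 H N : ℕ)
    (hX : X1 = H * N) (W : ℝ) (hW : 0 ≤ W) (F : (Fin k → ℕ) → ℕ → ℂ)
    (hF : ∀ t : Fin k → ℕ, (∀ i, t i < q) → ∀ j < N,
      ∑ h ∈ cub (fun i => b i + t i * s i) s,
        ‖∑ n ∈ Ico (X1 + j * H) (X1 + j * H + H), F h n‖ ^ 2 ≤ vol s * H ^ 2 * W) :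
    ∑ h ∈ cub b M, ‖∑ n ∈ Ico X1 (2 * X1), F h n‖ ^ 2 ≤ vol M * X1 ^ 2 * W := by
  classical
  have hvM : 0 ≤ vol M := Finset.prod_nonneg (fun i _ => Nat.cast_nonneg _)
  by_cases hz : ∃ i, s i = 0
  · obtain ⟨i, hi⟩ := hz
    have h0 : cub b M = ∅ := by
      rw [Finset.eq_empty_iff_forall_notMem]
      intro h hh
      unfold cub at hh
      rw [Fintype.mem_piFinset] at hh
      have h1 := mem_Ico.mp (hh i)
      have h2 : M i = 0 := by rw [hs i, hi, zero_mul]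
      omega
    rw [h0, Finset.sum_empty]
    positivity
  · push Not at hz
    have hpos : ∀ i, 0 < s i := fun i => Nat.pos_of_ne_zero (hz i)
    have hcube : ∀ t ∈ Fintype.piFinset (fun _ : Fin k => range q),
        ∑ h ∈ cub (fun i => b i + t i * s i) s, ‖∑ n ∈ Ico X1 (2 * X1), F h n‖ ^ 2
          ≤ (N : ℝ) * (N * (vol s * H ^ 2 * W)) := by
      intro t ht
      rw [Fintype.mem_piFinset] at ht
      have ht' : ∀ i, t i < q := fun i => mem_range.mp (ht i)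
      have h2 : 2 * X1 = X1 + N * H := by
        have : N * H = X1 := by rw [hX]; ring
        omega
      calc ∑ h ∈ cub (fun i => b i + t i * s i) s, ‖∑ n ∈ Ico X1 (2 * X1), F h n‖ ^ 2
          ≤ ∑ h ∈ cub (fun i => b i + t i * s i) s, (N : ℝ) * ∑ j ∈ range N,
              ‖∑ n ∈ Ico (X1 + j * H) (X1 + j * H + H), F h n‖ ^ 2 := by
            refine Finset.sum_le_sum (fun h _ => ?_)
            rw [h2, z2_cells]
            exact z2_cs _ _
        _ = (N : ℝ) * ∑ j ∈ range N, ∑ h ∈ cub (fun i => b i + t i * s i) s,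
              ‖∑ n ∈ Ico (X1 + j * H) (X1 + j * H + H), F h n‖ ^ 2 := by
            rw [← Finset.mul_sum, Finset.sum_comm]
        _ ≤ (N : ℝ) * ∑ j ∈ range N, vol s * H ^ 2 * W := by
            refine mul_le_mul_of_nonneg_left ?_ (by positivity)
            exact Finset.sum_le_sum (fun j hj => hF t ht' j (mem_range.mp hj))
        _ = (N : ℝ) * (N * (vol s * H ^ 2 * W)) := by
            rw [Finset.sum_const, card_range, nsmul_eq_mul]
    have hmaps : ∀ h ∈ cub b M,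
        (fun i => (h i - b i) / s i) ∈ Fintype.piFinset (fun _ : Fin k => range q) := by
      intro h hh
      unfold cub at hh
      rw [Fintype.mem_piFinset] at hh ⊢
      intro i
      have h1 := mem_Ico.mp (hh i)
      rw [mem_range, Nat.div_lt_iff_lt_mul (hpos i)]
      have h5 : q * s i = M i := by rw [hs i]; ring
      omega
    rw [← Finset.sum_fiberwise_of_maps_to hmaps]
    have hfib : ∀ t ∈ Fintype.piFinset (fun _ : Fin k => range q),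
        ∑ h ∈ (cub b M).filter (fun h => (fun i => (h i - b i) / s i) = t),
          ‖∑ n ∈ Ico X1 (2 * X1), F h n‖ ^ 2 ≤ (N : ℝ) * (N * (vol s * H ^ 2 * W)) := by
      intro t ht
      have ht' : ∀ i, t i < q := fun i => mem_range.mp ((Fintype.mem_piFinset.mp ht) i)
      rw [d2_fib b M s q hs hpos t ht']
      exact hcube t ht
    refine (Finset.sum_le_sum hfib).trans (le_of_eq ?_)
    rw [Finset.sum_const, Fintype.card_piFinset, nsmul_eq_mul]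
    simp only [card_range, Finset.prod_const, card_univ, Fintype.card_fin]
    have hv : vol M = vol s * (q : ℝ) ^ k := by
      unfold vol
      have h1 : ∀ i, (M i : ℝ) = (s i : ℝ) * (q : ℝ) := fun i => by rw [hs i]; push_cast; ring
      simp only [h1]
      rw [Finset.prod_mul_distrib, Finset.prod_const, card_univ, Fintype.card_fin]
    rw [hv, hX]
    push_cast
    ring

end Pool.Agent.Lib.H24Q
end

-- from Lib.H24Q.R0
section

/-!
# Project H24Q: definitions for the system with a deterministic linear coordinate (modules R, M)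
-/

open Finset Polynomial

namespace Pool.Agent.Lib.H24Q

open Pool.Agent.Lib.H68T Pool.Agent.Lib.H18Q Pool.Agent.Lib.H59P Pool.Agent.Lib.H24P

noncomputable section

/-- **The property FW**: `FG` with an arbitrary weight (proved in module H59T for `L2`). -/
def FW (C c : ℝ) (Q H0 : ℕ) {m : ℕ} {Ω : Type} (S : Finset Ω) (φ : Ω → Fin m → ℤ → ℤ) : Prop :=
  ∀ p : Fin m → Ch, (∀ i, p i ∈ PC Q) →
  ∀ T : Finset (Fin m → ℕ), T ⊆ Fintype.piFinset (fun i => KS Q (p i).1) →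
  ∀ D : ℕ, 1 ≤ D → (∀ κ ∈ T, D < univ.lcm (fun i => (p i).1 * κ i)) →
  ∀ (w : ℕ → ℂ) (a H : ℕ), H0 ≤ H →
  ∑ ω ∈ S, ‖∑ n ∈ Ico a (a + H), w n * ∑ κ ∈ T, ∏ i, gk (p i) (κ i) (φ ω i (n : ℤ))‖ ^ 2 ≤
    C * (1 + Real.log Q) ^ C * S.card * (H * ∑ n ∈ Ico a (a + H), ‖w n‖ ^ 2) * (D : ℝ) ^ (-c)

/-- The system: the deterministic linear coordinate `B` and the random coordinates `φ`. -/
def sy {k : ℕ} (B : ℤ[X]) (φ : Fin k → ℤ → ℤ) : Fin (k + 1) → ℤ → ℤ :=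
  Fin.cons (fun n => B.eval n) φ

/-- All the hypotheses on a family together with the linear coordinate `B`, at the level `Q`. -/
structure FamW (C c : ℝ) (Q H0 : ℕ) (B : ℤ[X]) {k : ℕ} {Ω : Type} (S : Finset Ω)
    (φ : Ω → Fin k → ℤ → ℤ) : Prop where
  fw1 : FW C c Q H0 S φ
  fw2 : FW C c (Q ^ 2) H0 S φ
  cp : ∀ ω ∈ S, Cp (φ ω)
  tp : ∀ ω ∈ S, ∀ l : ℕ, l.Prime → |tpf l (sy B (φ ω))| ≤ C / l

/-- The hypothesis on the family `F` with the linear coordinate `B`, for all boxes with large sides. -/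
def HW (C c : ℝ) (b0 : ℕ) (B : ℤ[X]) {m g : ℕ} (F : LF m g) : Prop :=
  ∀ Q : ℕ, 2 ≤ Q → ∀ b s : Fin g → ℕ, (∀ j, Q ^ b0 ≤ s j) →
    FamW C c Q (Q ^ b0) B (cub b s) F.map

/-- The linear coordinate `2 n - 3`. -/
def B23 : ℤ[X] := C 2 * X - C 3

end

end Pool.Agent.Lib.H24Q
end

-- from Lib.H24Q.D0
section

/-!
# Project H24Q, chunk D0 (M): the families `L4`, `L2`, and `L2` with the linear coordinate `2n - 3`
-/

open Finset Polynomial

namespace Pool.Agent.Lib.H24Q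

open Pool.Agent.Lib.H68T Pool.Agent.Lib.H18Q Pool.Agent.Lib.H59P Pool.Agent.Lib.H24P

theorem d0_eq (l a b : ℕ) (ha : a < l) (hb : b < l) (h : (l : ℤ) ∣ (a : ℤ) - b) : a = b := by
  have h1 : (a : ℤ) ≡ b [ZMOD l] := (Int.modEq_iff_dvd.2 (by
    obtain ⟨c, hc⟩ := h
    exact ⟨-c, by linarith⟩))
  have h2 : a ≡ b [MOD l] := (Int.natCast_modEq_iff).1 h1
  exact Nat.ModEq.eq_of_lt_of_lt h2 ha hb

theorem d0_one (f : ℤ → ℤ) (l : ℕ) (hl : l.Prime) (v w : ℤ) (hf : ∀ n, f n = v * n + w)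
    (hv : v = 1 ∨ v = -1) : ((range l).filter (fun n : ℕ => (l : ℤ) ∣ f n)).card ≤ 1 := by
  rw [Finset.card_le_one]
  intro a ha b hb
  obtain ⟨ha1, ha2⟩ := mem_filter.1 ha
  obtain ⟨hb1, hb2⟩ := mem_filter.1 hb
  rw [hf] at ha2 hb2
  refine d0_eq l a b (mem_range.1 ha1) (mem_range.1 hb1) ?_
  have h3 := dvd_sub ha2 hb2
  rcases hv with rfl | rfl
  · have h4 : (1 * (a : ℤ) + w) - (1 * (b : ℤ) + w) = (a : ℤ) - b := by ring
    rwa [h4] at h3
  · have h4 : (-1 * (a : ℤ) + w) - (-1 * (b : ℤ) + w) = -((a : ℤ) - b) := by ring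
    rw [h4] at h3
    exact (dvd_neg).1 h3

theorem d0_L2 (ω : Fin 1 → ℕ) (i : Fin 2) (l : ℕ) (hl : l.Prime) :
    ((range l).filter (fun n : ℕ => (l : ℤ) ∣ L2.map ω i n)).card ≤ 1 := by
  refine d0_one (L2.map ω i) l hl (L2.v i) (L2.u i * (ω (L2.gi i) : ℤ) + L2.t i) ?_ ?_
  · intro n
    unfold LF.map
    ring
  · fin_cases i
    · exact Or.inl rfl
    · exact Or.inr rfl

theorem d0_lin : ∀ n : ℤ, B23.eval n = 2 * n - 3 := by
  intro n
  unfold B23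
  rw [eval_sub, eval_mul, eval_C, eval_X, eval_C]

theorem d0_deg : B23.natDegree = 1 := by
  unfold B23
  rw [natDegree_sub_C]
  exact natDegree_C_mul_X 2 (by norm_num)

theorem d0_lc : B23.leadingCoeff = 2 := by
  unfold leadingCoeff
  rw [d0_deg]
  unfold B23
  rw [coeff_sub, coeff_C_mul, coeff_X_one, coeff_C, if_neg (by norm_num)]
  norm_num

theorem d0_c (C C' : ℝ) (Q : ℕ) (hC : C ≤ C') (h0 : 0 ≤ C) (hQ : 1 ≤ Q) :
    C * (1 + Real.log Q) ^ C ≤ C' * (1 + Real.log Q) ^ C' := by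
  have h1 : 0 ≤ Real.log Q := Real.log_nonneg (by exact_mod_cast hQ)
  have h2 : (1 + Real.log Q) ^ C ≤ (1 + Real.log Q) ^ C' :=
    Real.rpow_le_rpow_of_exponent_le (by linarith) hC
  exact mul_le_mul hC h2 (by positivity) (h0.trans hC)

theorem d0_fgm {C C' c : ℝ} {Q H0 H1 m : ℕ} {Ω : Type} {S : Finset Ω} {φ : Ω → Fin m → ℤ → ℤ}
    (h : FG C c Q H0 S φ) (hC : C ≤ C') (h0 : 0 ≤ C) (hH : H0 ≤ H1) (hQ : 1 ≤ Q) :
    FG C' c Q H1 S φ := by
  intro p hp T hT D hD hTD a H hH1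
  refine (h p hp T hT D hD hTD a H (hH.trans hH1)).trans ?_
  refine mul_le_mul_of_nonneg_right ?_ (Real.rpow_nonneg (Nat.cast_nonneg _) _)
  refine mul_le_mul_of_nonneg_right ?_ (by positivity)
  refine mul_le_mul_of_nonneg_right ?_ (Nat.cast_nonneg _)
  exact d0_c C C' Q hC h0 hQ

theorem d0_fwm {C C' c : ℝ} {Q H0 H1 m : ℕ} {Ω : Type} {S : Finset Ω} {φ : Ω → Fin m → ℤ → ℤ}
    (h : FW C c Q H0 S φ) (hC : C ≤ C') (h0 : 0 ≤ C) (hH : H0 ≤ H1) (hQ : 1 ≤ Q) :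
    FW C' c Q H1 S φ := by
  intro p hp T hT D hD hTD w a H hH1
  refine (h p hp T hT D hD hTD w a H (hH.trans hH1)).trans ?_
  refine mul_le_mul_of_nonneg_right ?_ (Real.rpow_nonneg (Nat.cast_nonneg _) _)
  refine mul_le_mul_of_nonneg_right ?_
    (mul_nonneg (Nat.cast_nonneg _) (Finset.sum_nonneg fun n _ => by positivity))
  refine mul_le_mul_of_nonneg_right ?_ (Nat.cast_nonneg _)
  exact d0_c C C' Q hC h0 hQ

/-- At most one zero modulo each prime. Proof. `T1_count`: the count is between `l - m` and `l`. Upper bound: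
`1 + tpf ≤ (l/(l-1))^m ≤ 1 + 4^m/l` (`l/(l-1) = 1 + 1/(l-1) ≤ 1 + 2/l`, `t1_pow` of `H24P/T1.lean`). Lower bound:
`1 + tpf ≥ (l - m)/l = 1 - m/l` if `l > m` (and `≥ 0 ≥ 1 - m/l` if `l ≤ m`). So `C = 4^m + m` for instance. -/
theorem D0_tp (m : ℕ) : ∃ C : ℝ, 1 ≤ C ∧ ∀ φ : Fin m → ℤ → ℤ,
    (∀ i, ∀ l : ℕ, l.Prime → ((range l).filter (fun n : ℕ => (l : ℤ) ∣ φ i n)).card ≤ 1) →
    ∀ l : ℕ, l.Prime → |tpf l φ| ≤ C / l := by
  classical
  refine ⟨2 * 2 ^ m + m, ?_, ?_⟩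
  · have h1 : (1 : ℝ) ≤ 2 ^ m := one_le_pow₀ (by norm_num)
    have h2 : (0 : ℝ) ≤ m := Nat.cast_nonneg _
    linarith
  intro φ hφ l hl
  have h2k : (1 : ℝ) ≤ 2 ^ m := one_le_pow₀ (by norm_num)
  have hm0 : (0 : ℝ) ≤ m := Nat.cast_nonneg _
  have hl2 : (2 : ℝ) ≤ l := by exact_mod_cast hl.two_le
  have hl0 : (0 : ℝ) < l := by linarith
  have hl1 : (0 : ℝ) < l - 1 := by linarith
  obtain ⟨e1, e2⟩ := P0_tp l hl φ
  rw [abs_le]
  constructor
  · set good := (range l).filter (fun n : ℕ => ∀ i, ¬ (l : ℤ) ∣ φ i n) with hgood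
    set bad := univ.biUnion (fun i : Fin m => (range l).filter
      (fun n : ℕ => (l : ℤ) ∣ φ i n)) with hbad
    have hb : bad.card ≤ m := by
      refine card_biUnion_le.trans ?_
      calc ∑ i : Fin m, ((range l).filter (fun n : ℕ => (l : ℤ) ∣ φ i n)).card
          ≤ ∑ _i : Fin m, 1 := Finset.sum_le_sum fun i _ => hφ i l hl
        _ = m := by
            rw [Finset.sum_const, card_univ, Fintype.card_fin, smul_eq_mul, mul_one]
    have hcov : l ≤ good.card + bad.card := by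
      have h1 : range l ⊆ good ∪ bad := by
        intro n hn
        by_cases h2 : ∀ i, ¬ (l : ℤ) ∣ φ i n
        · exact mem_union_left _ (mem_filter.2 ⟨hn, h2⟩)
        · push Not at h2
          obtain ⟨i, hi⟩ := h2
          exact mem_union_right _ (mem_biUnion.2 ⟨i, mem_univ i, mem_filter.2 ⟨hn, hi⟩⟩)
      have h2 := (card_le_card h1).trans (card_union_le _ _)
      rwa [card_range] at h2
    have h3 : (l : ℝ) ≤ good.card + m := by
      have h4 : l ≤ good.card + m := by omega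
      exact_mod_cast h4
    have h5 := T1_count l hl φ
    rw [← hgood] at h5
    have h6 : (1 : ℝ) ≤ ((l : ℝ) / (l - 1)) ^ m := one_le_pow₀ (M3a_ratio l hl)
    have h7 : (0 : ℝ) ≤ (good.card : ℝ) / l := by positivity
    have h8 : (good.card : ℝ) / l * 1 ≤ (good.card : ℝ) / l * ((l : ℝ) / (l - 1)) ^ m :=
      mul_le_mul_of_nonneg_left h6 h7
    have h9 : 1 - m / (l : ℝ) ≤ (good.card : ℝ) / l := by
      rw [le_div_iff₀ hl0]
      have h10 : (1 - m / (l : ℝ)) * l = l - m := by field_simp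
      rw [h10]
      linarith
    have h11 : (0 : ℝ) ≤ 2 * 2 ^ m / (l : ℝ) := by positivity
    rw [add_div]
    linarith
  · have h1 : (l : ℝ) / (l - 1) = 1 + 1 / ((l : ℝ) - 1) := by
      field_simp
      ring
    have h2 : 1 / ((l : ℝ) - 1) ≤ 1 := by
      rw [div_le_one hl1]
      linarith
    have h3 := t1_pow m (1 / ((l : ℝ) - 1)) (by positivity) h2
    rw [← h1] at h3
    have h4 : 1 / ((l : ℝ) - 1) ≤ 2 / l := by
      rw [div_le_div_iff₀ hl1 hl0]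
      linarith
    have h5 : ((2 : ℝ) ^ m - 1) * (1 / ((l : ℝ) - 1)) ≤ 2 ^ m * (2 / l) := by
      refine mul_le_mul (by linarith) h4 (by positivity) (by linarith)
    have h6 : (2 : ℝ) ^ m * (2 / l) ≤ (2 * 2 ^ m + m) / l := by
      rw [← mul_div_assoc]
      refine div_le_div_of_nonneg_right ?_ hl0.le
      linarith
    linarith

/-- Proof. Definitions. -/
theorem D0_cp {m g : ℕ} (F : LF m g) (ω : Fin g → ℕ) : Cp (F.map ω) := by
  intro i q n
  exact ⟨F.v i, by unfold LF.map; ring⟩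

/-- Proof. `D0_tp`, `D0_cp`; `l` divides at most one of the numbers `x + n`, `n < l` (`x - n` likewise). -/
theorem D0_fb4 : ∃ C : ℝ, 1 ≤ C ∧ ∀ S : Finset (Fin 2 → ℕ), FB C S L4.map := by
  obtain ⟨C, hC, h⟩ := D0_tp 4
  refine ⟨C, hC, fun S => ⟨fun ω _ => D0_cp L4 ω, fun ω _ l hl => h _ (fun i l hl => ?_) l hl⟩⟩
  refine d0_one (L4.map ω i) l hl (L4.v i) (L4.u i * (ω (L4.gi i) : ℤ) + L4.t i) ?_ ?_
  · intro n
    unfold LF.map
    ring
  · fin_cases i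
    · exact Or.inl rfl
    · exact Or.inr rfl
    · exact Or.inl rfl
    · exact Or.inr rfl

/-- Proof. As `D0_fb4`. -/
theorem D0_fb2 : ∃ C : ℝ, 1 ≤ C ∧ ∀ S : Finset (Fin 1 → ℕ), FB C S L2.map := by
  obtain ⟨C, hC, h⟩ := D0_tp 2
  refine ⟨C, hC, fun S => ⟨fun ω _ => D0_cp L2 ω, fun ω _ l hl => h _ (fun i l hl => ?_) l hl⟩⟩
  exact d0_L2 ω i l hl

/-- Proof. As `D0_fb4`, with three coordinates (`Fin.cons`, `Fin.cases`): `2 n - 3` is odd, and for an odd prime `l`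
at most one `n < l` satisfies `l ∣ 2 n - 3`. -/
theorem D0_fw2 : ∃ C : ℝ, 1 ≤ C ∧ ∀ (ω : Fin 1 → ℕ) (l : ℕ), l.Prime →
    |tpf l (sy B23 (L2.map ω))| ≤ C / l := by
  obtain ⟨C, hC, h⟩ := D0_tp 3
  refine ⟨C, hC, fun ω l hl => h _ (fun i l hl => ?_) l hl⟩
  refine Fin.cases ?_ (fun i => ?_) i
  · show ((range l).filter (fun n : ℕ => (l : ℤ) ∣ B23.eval (n : ℤ))).card ≤ 1
    rw [Finset.card_le_one]
    intro a ha b hb
    obtain ⟨ha1, ha2⟩ := mem_filter.1 ha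
    obtain ⟨hb1, hb2⟩ := mem_filter.1 hb
    rw [d0_lin] at ha2 hb2
    have h2 : (l : ℤ) ∣ 2 * ((a : ℤ) - b) := by
      have h3 := dvd_sub ha2 hb2
      have h4 : (2 * (a : ℤ) - 3) - (2 * (b : ℤ) - 3) = 2 * ((a : ℤ) - b) := by ring
      rwa [h4] at h3
    have hlp : Prime (l : ℤ) := Nat.prime_iff_prime_int.1 hl
    have hl2 : ¬ (l : ℤ) ∣ 2 := by
      intro h3
      have h4 : (l : ℤ) ∣ 2 * (a : ℤ) := Dvd.dvd.mul_right h3 _
      have h5 : (l : ℤ) ∣ 3 := by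
        have h6 := dvd_sub h4 ha2
        have h7 : 2 * (a : ℤ) - (2 * (a : ℤ) - 3) = 3 := by ring
        rwa [h7] at h6
      have h8 : (l : ℤ) ∣ 1 := by
        have h9 := dvd_sub h5 h3
        norm_num at h9
        exact h9
      exact hlp.not_dvd_one h8
    have h5 := (hlp.dvd_or_dvd h2).resolve_left hl2
    exact d0_eq l a b (mem_range.1 ha1) (mem_range.1 hb1) h5
  · exact d0_L2 ω i l hl

/-- Proof. `B23 = 2 X - 3`. -/
theorem D0_lin : Lin 2 B23 ∧ B23.leadingCoeff = 2 ∧ ∀ n : ℤ, B23.eval n = 2 * n - 3 := by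
  refine ⟨⟨?_, ?_, ?_⟩, ?_, d0_lin⟩
  · exact d0_deg
  · rw [d0_lc]
    norm_num
  · have h0 : B23.coeff 0 = -3 := by
      unfold B23
      rw [coeff_sub, coeff_C_mul, coeff_X_zero, coeff_C_zero]
      norm_num
    have h1 : B23.coeff 1 = 2 := by
      have h2 := d0_lc
      unfold leadingCoeff at h2
      rwa [d0_deg] at h2
    rw [h0, h1]
    exact ⟨-1, -1, by norm_num⟩
  · exact d0_lc

/-- Proof. `B' = 2 B`: the property at the level `Q` with `Q^B ≤ Q^(2B)`, and at the level `Q²` with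
`(Q²)^B = Q^(2B)`. `C' = max C C0`; `C (1 + log Q)^C` is monotone in `C` (`1 ≤ 1 + log Q`). -/
theorem D0_HF {m g : ℕ} (F : LF m g) (C c C0 : ℝ) (B : ℕ) (hC : 1 ≤ C) (hC0 : 1 ≤ C0)
    (hfb : ∀ S : Finset (Fin g → ℕ), FB C0 S F.map)
    (h : ∀ Q : ℕ, 2 ≤ Q → ∀ b s : Fin g → ℕ, (∀ j, Q ^ B ≤ s j) → FG C c Q (Q ^ B) (cub b s) F.map) :
    HF (max C C0) c (2 * B) F := by
  intro Q hQ b s hs
  have hQ1 : 1 ≤ Q := by omega
  have hB : Q ^ B ≤ Q ^ (2 * B) := Nat.pow_le_pow_right (by omega) (by omega)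
  have e2 : (Q ^ 2) ^ B = Q ^ (2 * B) := (pow_mul Q 2 B).symm
  have hQ2 : 2 ≤ Q ^ 2 := by nlinarith
  refine ⟨?_, ?_, ?_⟩
  · exact d0_fgm (h Q hQ b s (fun j => hB.trans (hs j))) (le_max_left _ _) (by linarith) hB hQ1
  · exact d0_fgm (h (Q ^ 2) hQ2 b s (fun j => by rw [e2]; exact hs j)) (le_max_left _ _)
      (by linarith) e2.le (by omega)
  · have h1 := hfb (cub b s)
    refine ⟨h1.cp, fun ω hω l hl => (h1.tp ω hω l hl).trans ?_⟩
    exact div_le_div_of_nonneg_right (le_max_right _ _) (Nat.cast_nonneg _)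

/-- Proof. As `D0_HF`. -/
theorem D0_HW {m g : ℕ} (F : LF m g) (P : ℤ[X]) (C c C0 : ℝ) (B : ℕ) (hC : 1 ≤ C) (hC0 : 1 ≤ C0)
    (htp : ∀ (ω : Fin g → ℕ) (l : ℕ), l.Prime → |tpf l (sy P (F.map ω))| ≤ C0 / l)
    (h : ∀ Q : ℕ, 2 ≤ Q → ∀ b s : Fin g → ℕ, (∀ j, Q ^ B ≤ s j) → FW C c Q (Q ^ B) (cub b s) F.map) :
    HW (max C C0) c (2 * B) P F := by
  intro Q hQ b s hs
  have hQ1 : 1 ≤ Q := by omega
  have hB : Q ^ B ≤ Q ^ (2 * B) := Nat.pow_le_pow_right (by omega) (by omega)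
  have e2 : (Q ^ 2) ^ B = Q ^ (2 * B) := (pow_mul Q 2 B).symm
  have hQ2 : 2 ≤ Q ^ 2 := by nlinarith
  refine ⟨?_, ?_, fun ω _ => D0_cp F ω, ?_⟩
  · exact d0_fwm (h Q hQ b s (fun j => hB.trans (hs j))) (le_max_left _ _) (by linarith) hB hQ1
  · exact d0_fwm (h (Q ^ 2) hQ2 b s (fun j => by rw [e2]; exact hs j)) (le_max_left _ _)
      (by linarith) e2.le (by omega)
  · intro ω hω l hl
    exact (htp ω l hl).trans (div_le_div_of_nonneg_right (le_max_right _ _) (Nat.cast_nonneg _))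

end Pool.Agent.Lib.H24Q
end

-- from Lib.H24Q.R1
section

/-!
# Project H24Q, chunk R1 (S/M): the linear coordinate, mean values (port of `H24P/B1`, `H24P/B2`)
-/

open Finset Polynomial

namespace Pool.Agent.Lib.H24Q

open Pool.Agent.Lib.H68T Pool.Agent.Lib.H18Q Pool.Agent.Lib.H59P Pool.Agent.Lib.H24P

/-- Proof. `Fin.cases`, `Polynomial.sub_dvd_eval_sub` (compare `P2_sys`). -/
theorem R1_cp {k : ℕ} (B : ℤ[X]) (φ : Fin k → ℤ → ℤ) (hφ : Cp φ) : Cp (sy B φ) := by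
  intro i q n
  refine Fin.cases ?_ (fun j => ?_) i
  · have h1 := Polynomial.sub_dvd_eval_sub (n + q) n B
    have h2 : n + q - n = q := by ring
    rw [h2] at h1
    exact h1
  · exact hφ j q n

/-- Proof. Copy the proof of `B1_mean` (`H24P/B1.lean`) with `ran P h` replaced by `φ` and `sys B P h` by `sy B φ` (`hφ`
instead of `P2_ran`). -/
theorem R1_mean {k : ℕ} (B : ℤ[X]) (hB : B.natDegree = 1) (φ : Fin k → ℤ → ℤ) (hφ : Cp φ) (d : ℕ)
    (hd : Squarefree d) (hc : Nat.Coprime d B.leadingCoeff.natAbs) :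
    ∑ n ∈ range d, uu d.primeFactors (B.eval (n : ℤ)) * Wdf d (at' φ n) = d * tdf d (sy B φ) := by
  classical
  have hBe : ∀ x : ℤ, B.eval x = B.coeff 0 + B.leadingCoeff * x := by
    intro x
    rw [eval_eq_sum_range, hB, Finset.sum_range_succ, Finset.sum_range_one, leadingCoeff, hB]
    ring
  have hperF : ∀ (l : ℕ) (n : ℤ), (1 + gl l (B.eval (n + l))) * Wf l (at' φ (n + l)) =
      (1 + gl l (B.eval n)) * Wf l (at' φ n) := by
    intro l n
    have h1 : gl l (B.eval (n + l)) = gl l (B.eval n) :=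
      P2_gl (sy B φ) (R1_cp B φ hφ) l l dvd_rfl 0 n
    have h2 : ∀ i, gl l (φ i (n + l)) = gl l (φ i n) := fun i =>
      P2_gl φ hφ l l dvd_rfl i n
    rw [h1]
    unfold Wf at'
    simp only [h2]
  have h1 := b1_set (fun l n => (1 + gl l (B.eval n)) * Wf l (at' φ n)) hperF d.primeFactors
    (fun l hl => Nat.prime_of_mem_primeFactors hl)
  rw [Nat.prod_primeFactors_of_squarefree hd] at h1
  have h2 : ∑ n ∈ range d, uu d.primeFactors (B.eval (n : ℤ)) * Wdf d (at' φ n) =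
      ∑ n ∈ range d, ∏ l ∈ d.primeFactors, (1 + gl l (B.eval (n : ℤ))) * Wf l (at' φ n) := by
    refine Finset.sum_congr rfl fun n _ => ?_
    unfold uu Wdf
    rw [← Finset.prod_mul_distrib]
  rw [h2]
  refine h1.trans ?_
  have h3 : ∀ l ∈ d.primeFactors, ∑ n ∈ range l, (1 + gl l (B.eval (n : ℤ))) * Wf l (at' φ n) =
      l * tpf l (sy B φ) := by
    intro l hl
    have hlp := Nat.prime_of_mem_primeFactors hl
    have hl0 : (l : ℝ) ≠ 0 := by exact_mod_cast hlp.pos.ne'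
    have hna : ¬ (l : ℤ) ∣ B.leadingCoeff := by
      intro hdv
      have h4 : l ∣ B.leadingCoeff.natAbs := Int.natCast_dvd.1 hdv
      have h5 := Nat.dvd_gcd (Nat.dvd_of_mem_primeFactors hl) h4
      rw [hc] at h5
      exact hlp.one_lt.ne' (Nat.dvd_one.1 h5)
    have h6 := b1_lin l hlp B.leadingCoeff (B.coeff 0) hna
    simp only [← hBe] at h6
    have h7 : ∀ n ∈ range l, (1 + gl l (B.eval (n : ℤ))) * Wf l (at' φ n) =
        ∏ i, (1 + gl l (sy B φ i (n : ℤ))) - (1 + gl l (B.eval (n : ℤ))) := by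
      intro n _
      rw [Fin.prod_univ_succ]
      unfold Wf at' sy
      simp only [Fin.cons_zero, Fin.cons_succ]
      ring
    rw [Finset.sum_congr rfl h7, Finset.sum_sub_distrib, h6]
    unfold tpf
    field_simp
  rw [Finset.prod_congr rfl h3, Finset.prod_mul_distrib]
  unfold tdf
  congr 1
  have h8 := Nat.prod_primeFactors_of_squarefree hd
  rw [← Nat.cast_prod, h8]

/-- Proof. Copy the proof of `B2_fac` (`H24P/B2.lean`), with the same replacements, `R1_cp`, `R1_mean`. -/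
theorem R1_fac {k : ℕ} (B : ℤ[X]) (hB : B.natDegree = 1) (φ : Fin k → ℤ → ℤ) (hφ : Cp φ)
    (p : Fin (k + 1) → Ch) (R d : ℕ) (hR : 0 < R) (ha : B.leadingCoeff.natAbs ∣ R)
    (hp : ∀ i, (p i).1 ∣ R) (hd : Squarefree d) (hc : Nat.Coprime d R) :
    (∑ n ∈ range (R * d), cj (p 0) (B.eval (n : ℤ)) * ((uu (R * d).primeFactors (B.eval (n : ℤ)) : ℝ) : ℂ) *
      (Phf (fun i : Fin k => p i.succ) R.primeFactors (at' φ n) *
        ((Wdf d (at' φ n) : ℝ) : ℂ))) / ((R * d : ℕ) : ℂ) =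
    MRf p R (sy B φ) * ((tdf d (sy B φ) : ℝ) : ℂ) := by
  classical
  have hd0 : 0 < d := Nat.pos_of_ne_zero hd.ne_zero
  have hRd : (R * d).primeFactors = R.primeFactors ∪ d.primeFactors := Nat.primeFactors_mul hR.ne' hd0.ne'
  have hdis : Disjoint R.primeFactors d.primeFactors := hc.symm.disjoint_primeFactors
  have huu : ∀ m : ℤ, uu (R * d).primeFactors m = uu R.primeFactors m * uu d.primeFactors m := by
    intro m
    unfold uu
    rw [hRd, Finset.prod_union hdis]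
  have hPh : ∀ n : ℤ, cj (p 0) (B.eval n) * ((uu R.primeFactors (B.eval n) : ℝ) : ℂ) *
      Phf (fun i : Fin k => p i.succ) R.primeFactors (at' φ n) =
      Phf p R.primeFactors (at' (sy B φ) n) := by
    intro n
    unfold Phf
    rw [Fin.prod_univ_succ]
    unfold at' sy
    simp only [Fin.cons_zero, Fin.cons_succ]
  have e1 : ∀ n ∈ range (R * d), cj (p 0) (B.eval (n : ℤ)) * ((uu (R * d).primeFactors (B.eval (n : ℤ)) : ℝ) : ℂ) *
      (Phf (fun i : Fin k => p i.succ) R.primeFactors (at' φ n) *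
        ((Wdf d (at' φ n) : ℝ) : ℂ)) =
      Phf p R.primeFactors (at' (sy B φ) n) *
        ((uu d.primeFactors (B.eval (n : ℤ)) * Wdf d (at' φ n) : ℝ) : ℂ) := by
    intro n _
    rw [huu, ← hPh]
    push_cast
    ring
  have hper1 : ∀ m : ℤ, Phf p R.primeFactors (at' (sy B φ) (m + R)) =
      Phf p R.primeFactors (at' (sy B φ) m) := fun m =>
    P2_Ph (sy B φ) (R1_cp B φ hφ) p R R dvd_rfl hp m
  have hper2 : ∀ m : ℤ, ((uu d.primeFactors (B.eval (m + d)) * Wdf d (at' φ (m + d)) : ℝ) : ℂ) =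
      ((uu d.primeFactors (B.eval m) * Wdf d (at' φ m) : ℝ) : ℂ) := by
    intro m
    congr 1
    rw [P2_Wd φ hφ d d dvd_rfl m]
    congr 1
    unfold uu
    refine Finset.prod_congr rfl fun l hl => ?_
    have h1 : gl l (B.eval (m + d)) = gl l (B.eval m) :=
      P2_gl (sy B φ) (R1_cp B φ hφ) l d (Nat.dvd_of_mem_primeFactors hl) 0 m
    rw [h1]
  have key := M3d (fun n => Phf p R.primeFactors (at' (sy B φ) n))
    (fun n => ((uu d.primeFactors (B.eval n) * Wdf d (at' φ n) : ℝ) : ℂ)) R d hR hd0 hc.symm hper1 hper2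
  have h2 := R1_mean B hB φ hφ d hd (hc.coprime_dvd_right ha)
  have h3 : ∑ n ∈ range d, ((uu d.primeFactors (B.eval (n : ℤ)) * Wdf d (at' φ n) : ℝ) : ℂ) =
      (d : ℂ) * ((tdf d (sy B φ) : ℝ) : ℂ) := by
    rw [← Complex.ofReal_sum, h2]
    push_cast
    rfl
  rw [Finset.sum_congr rfl e1]
  refine (congrArg (fun z => z / ((R * d : ℕ) : ℂ)) key).trans ?_
  rw [h3]
  unfold MRf
  have hR' : (R : ℂ) ≠ 0 := by exact_mod_cast hR.ne'
  have hd' : (d : ℂ) ≠ 0 := by exact_mod_cast hd0.ne'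
  push_cast
  field_simp

end Pool.Agent.Lib.H24Q
end

-- from Lib.H24P.T2
section

/-!
# Project H24P, chunk T2 (M): the twisted sums as means over a complete period
-/

open Finset Polynomial

namespace Pool.Agent.Lib.H24P

open Pool.Agent.Lib.H68T Pool.Agent.Lib.H18Q Pool.Agent.Lib.H59P

theorem t2_eval (B : ℤ[X]) (hB : B.natDegree = 1) (x : ℤ) :
    B.eval x = B.coeff 0 + B.leadingCoeff * x := by
  rw [eval_eq_sum_range, hB, Finset.sum_range_succ, Finset.sum_range_one, leadingCoeff, hB]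
  ring

theorem t2_not (B : ℤ[X]) (l : ℕ) (h : ¬ l ∣ B.leadingCoeff.natAbs) : ¬ (l : ℤ) ∣ B.leadingCoeff :=
  fun hd => h (Int.natCast_dvd.1 hd)

/-- One prime. -/
theorem t2_one (B : ℤ[X]) (hB : B.natDegree = 1) (l : ℕ) (hl : l.Prime)
    (h : ¬ l ∣ B.leadingCoeff.natAbs) :
    ∑ n ∈ range l, (1 + gl l (B.eval (n : ℤ))) = l := by
  have h1 := b1_lin l hl B.leadingCoeff (B.coeff 0) (t2_not B l h)
  refine (Finset.sum_congr rfl fun n _ => ?_).trans h1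
  rw [t2_eval B hB]

/-- Proof. Induction over `S` (`Finset.induction_on`) with `M3d` of `H59P` (the moduli `l` and `∏_{S'} l` are coprime; `uu` is a
product, `gl_per`); for a prime `l ∤ lc B` the values `B(n)`, `n < l`, run through all classes modulo `l`, so
`∑_{n<l} (1 + gl l (B n)) = (l-1) l/(l-1) = l` and `∑_{n<l} (1 + gl l (B n))² = l²/(l-1)`. -/
theorem T2_unit (B : ℤ[X]) (hB : B.natDegree = 1) (S : Finset ℕ)
    (hS : ∀ l ∈ S, l.Prime ∧ ¬ l ∣ B.leadingCoeff.natAbs) :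
    ∑ n ∈ range (∏ l ∈ S, l), uu S (B.eval (n : ℤ)) = ((∏ l ∈ S, l : ℕ) : ℝ) ∧
    ∑ n ∈ range (∏ l ∈ S, l), (uu S (B.eval (n : ℤ))) ^ 2 =
      ((∏ l ∈ S, l : ℕ) : ℝ) * ∏ l ∈ S, ((l : ℝ) / ((l : ℝ) - 1)) := by
  have hper : ∀ l : ℕ, ∀ n : ℤ, gl l (B.eval (n + l)) = gl l (B.eval n) := by
    intro l n
    rw [t2_eval B hB, t2_eval B hB]
    have h1 : B.coeff 0 + B.leadingCoeff * (n + l) =
        (B.coeff 0 + B.leadingCoeff * n) + B.leadingCoeff * l := by ring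
    rw [h1, gl_per]
  constructor
  · have h1 := b1_set (fun l n => 1 + gl l (B.eval n)) (fun l n => by rw [hper]) S
      (fun l hl => (hS l hl).1)
    unfold uu
    rw [h1, Nat.cast_prod]
    exact Finset.prod_congr rfl fun l hl => t2_one B hB l (hS l hl).1 (hS l hl).2
  · have h1 := b1_set (fun l n => (1 + gl l (B.eval n)) ^ 2) (fun l n => by rw [hper]) S
      (fun l hl => (hS l hl).1)
    unfold uu
    have h2 : ∀ n ∈ range (∏ l ∈ S, l), (∏ l ∈ S, (1 + gl l (B.eval (n : ℤ)))) ^ 2 =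
        ∏ l ∈ S, (1 + gl l (B.eval (n : ℤ))) ^ 2 := fun n _ => (Finset.prod_pow _ _ _).symm
    rw [Finset.sum_congr rfl h2, h1, Nat.cast_prod, ← Finset.prod_mul_distrib]
    refine Finset.prod_congr rfl fun l hl => ?_
    obtain ⟨hlp, hlB⟩ := hS l hl
    have hl1 : (1 : ℝ) < l := by exact_mod_cast hlp.one_lt
    have hl2 : (l : ℝ) - 1 ≠ 0 := by linarith
    have h3 : ∀ m : ℤ, (1 + gl l m) ^ 2 = (1 + gl l m) * ((l : ℝ) / ((l : ℝ) - 1)) := by
      intro m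
      unfold gl
      split_ifs
      · ring
      · have h4 : 1 + 1 / ((l : ℝ) - 1) = (l : ℝ) / ((l : ℝ) - 1) := by
          field_simp
          ring
        rw [h4]
        ring
    simp only [h3]
    rw [← Finset.sum_mul, t2_one B hB l hlp hlB]


/-- `j` periods. -/
theorem t2_per (f : ℤ → ℂ) (N : ℕ) (hf : ∀ m, f (m + N) = f m) (j : ℕ) :
    ∑ n ∈ Ico 0 (0 + N * j), f ((n : ℕ) : ℤ) = j * ∑ n ∈ range N, f n := by
  rw [zero_add, ← Finset.range_eq_Ico]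
  induction j with
  | zero => simp
  | succ j ih =>
    rw [mul_add, mul_one, Finset.sum_range_add, ih]
    have h1 : ∀ n ∈ range N, f (((N * j + n : ℕ)) : ℤ) = f n := by
      intro n _
      have h2 := m3c_per f N hf j (n : ℤ)
      rw [← h2]
      congr 1
      push_cast
      ring
    rw [Finset.sum_congr rfl h1]
    push_cast
    ring

/-- The components of the trivial character. -/
theorem t2_comp {k : ℕ} (Z : ℕ) (Δ : Finset ℕ) (hΔ : ∀ d ∈ Δ, Squarefree d ∧ d ≤ Z)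
    (m : Fin k → ℤ) :
    ∑ κ ∈ (Fintype.piFinset fun _ : Fin k => KS Z 1).filter (fun κ => univ.lcm κ ∈ Δ),
      ∏ i, gk p0 (κ i) (m i) = ((∑ d ∈ Δ, Wdf d m : ℝ) : ℂ) := by
  classical
  have h0 : ∑ κ ∈ (Fintype.piFinset fun _ : Fin k => KS Z 1).filter (fun κ => univ.lcm κ ∈ Δ),
      ∏ i, gk p0 (κ i) (m i) = ∑ d ∈ Δ, ∑ κ ∈ ((Fintype.piFinset fun _ : Fin k => KS Z 1).filter
        (fun κ => univ.lcm κ ∈ Δ)).filter (fun κ => univ.lcm κ = d), ∏ i, gk p0 (κ i) (m i) :=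
    (Finset.sum_fiberwise_of_maps_to (fun κ hκ => (mem_filter.1 hκ).2) _).symm
  rw [h0, Complex.ofReal_sum]
  refine Finset.sum_congr rfl fun d hd => ?_
  obtain ⟨hsq, hdZ⟩ := hΔ d hd
  rw [← P1_Wd d hsq m]
  refine Finset.sum_congr ?_ fun _ _ => rfl
  ext κ
  simp only [mem_filter, Fintype.mem_piFinset]
  constructor
  · rintro ⟨⟨h1, h2⟩, h3⟩
    refine ⟨fun i => ?_, h3⟩
    rw [Nat.mem_divisors]
    exact ⟨h3 ▸ Finset.dvd_lcm (mem_univ i), hsq.ne_zero⟩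
  · rintro ⟨h1, h2⟩
    refine ⟨⟨fun i => ?_, h2 ▸ hd⟩, h2⟩
    have h3 := Nat.dvd_of_mem_divisors (h1 i)
    rw [CA_mem_KS, Nat.div_one]
    exact ⟨⟨Nat.pos_of_dvd_of_pos h3 (Nat.pos_of_ne_zero hsq.ne_zero),
      (Nat.le_of_dvd (Nat.pos_of_ne_zero hsq.ne_zero) h3).trans hdZ⟩, hsq.squarefree_of_dvd h3,
      Nat.coprime_one_right _⟩


end Pool.Agent.Lib.H24P
end

-- from Lib.H24P.T3
section

/-!
# Project H24P, chunk T3 (M): mean square of the twisted sums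
-/

open Finset Polynomial

namespace Pool.Agent.Lib.H24P

open Pool.Agent.Lib.H68T Pool.Agent.Lib.H18Q Pool.Agent.Lib.H59P

theorem t3_per (B : ℤ[X]) (S : Finset ℕ) (v t : ℕ) :
    uu S (B.eval (((t * (∏ l ∈ S, l) + v : ℕ)) : ℤ)) = uu S (B.eval (v : ℤ)) := by
  unfold uu
  refine prod_congr rfl fun l hl => ?_
  congr 1
  have h1 : (l : ℤ) ∣ ((∏ l ∈ S, l : ℕ) : ℤ) := by
    exact_mod_cast dvd_prod_of_mem (fun l : ℕ => l) hl
  have h2 := Polynomial.sub_dvd_eval_sub (((t * (∏ l ∈ S, l) + v : ℕ)) : ℤ) (v : ℤ) B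
  have h3 : ((((t * (∏ l ∈ S, l) + v : ℕ)) : ℤ) - (v : ℤ)) = ((∏ l ∈ S, l : ℕ) : ℤ) * t := by
    push_cast
    ring
  rw [h3] at h2
  obtain ⟨c, hc⟩ := (h1.mul_right _).trans h2
  have h4 : B.eval (((t * (∏ l ∈ S, l) + v : ℕ)) : ℤ) = B.eval (v : ℤ) + c * l := by
    linarith
  rw [h4, gl_per]

/-- the mean square of the weight -/
theorem t3_sq (B : ℤ[X]) (hB : B.natDegree = 1) (Q : ℕ) (hQ : 2 ≤ Q) (j : ℕ) (S : Finset ℕ)
    (hS : ∀ l ∈ S, l.Prime ∧ l ≤ Q ∧ ¬ l ∣ B.leadingCoeff.natAbs) :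
    ∑ n ∈ Ico 0 (0 + (∏ l ∈ S, l) * j), ‖((uu S (B.eval (n : ℤ)) : ℝ) : ℂ)‖ ^ 2 ≤
      (((∏ l ∈ S, l) * j : ℕ) : ℝ) * (500 * Real.log Q) := by
  have h1 : ∀ n ∈ Ico 0 (0 + (∏ l ∈ S, l) * j), ‖((uu S (B.eval (n : ℤ)) : ℝ) : ℂ)‖ ^ 2 =
      (uu S (B.eval (n : ℤ))) ^ 2 := by
    intro n _
    rw [Complex.norm_real, Real.norm_eq_abs, sq_abs]
  rw [sum_congr rfl h1, zero_add, ← range_eq_Ico, mul_comm (∏ l ∈ S, l) j]
  have h2 : ∀ q N : ℕ, ∀ f : ℕ → ℝ,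
      ∑ n ∈ range (q * N), f n = ∑ t ∈ range q, ∑ v ∈ range N, f (t * N + v) := by
    intro q N f
    induction q with
    | zero => simp
    | succ q ih => rw [Nat.succ_mul, sum_range_add, ih, sum_range_succ]
  rw [h2]
  have h3 := (T2_unit B hB S fun l hl => ⟨(hS l hl).1, (hS l hl).2.2⟩).2
  have h4 : ∀ t ∈ range j, ∑ v ∈ range (∏ l ∈ S, l),
      (uu S (B.eval (((t * (∏ l ∈ S, l) + v : ℕ)) : ℤ))) ^ 2 =
      ((∏ l ∈ S, l : ℕ) : ℝ) * ∏ l ∈ S, ((l : ℝ) / ((l : ℝ) - 1)) := by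
    intro t _
    rw [← h3]
    exact sum_congr rfl fun v _ => by rw [t3_per]
  rw [sum_congr rfl h4, sum_const, card_range, nsmul_eq_mul]
  have h5 : ∏ l ∈ S, ((l : ℝ) / ((l : ℝ) - 1)) ≤ 500 * Real.log Q := by
    have h6 : ∀ l : ℕ, l.Prime → ((l : ℝ) / ((l : ℝ) - 1)) = (1 - 1 / (l : ℝ))⁻¹ ∧
        1 ≤ (1 - 1 / (l : ℝ))⁻¹ := by
      intro l hl
      have h7 : (2 : ℝ) ≤ l := by exact_mod_cast hl.two_le
      have h8 : (0 : ℝ) < (l : ℝ) - 1 := by linarith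
      have h9 : ((l : ℝ) / ((l : ℝ) - 1)) = (1 - 1 / (l : ℝ))⁻¹ := by
        field_simp
      refine ⟨h9, ?_⟩
      rw [← h9, le_div_iff₀ h8]
      linarith
    have h10 : S ⊆ Pool.Agent.Lib.Sieve.primesUpTo Q := fun l hl =>
      Pool.Agent.Lib.Sieve.mem_primesUpTo.mpr ⟨(hS l hl).1, (hS l hl).2.1⟩
    rw [prod_congr rfl fun l hl => (h6 l (hS l hl).1).1]
    refine le_trans ?_ (Pool.Agent.Lib.Helper57.prod_one_sub_inv_inv_le Q hQ)
    rw [← prod_sdiff h10]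
    have h13 : (1 : ℝ) ≤ ∏ l ∈ Pool.Agent.Lib.Sieve.primesUpTo Q \ S, (1 - 1 / (l : ℝ))⁻¹ := by
      calc (1 : ℝ) = ∏ _l ∈ Pool.Agent.Lib.Sieve.primesUpTo Q \ S, (1 : ℝ) := prod_const_one.symm
        _ ≤ _ := prod_le_prod (fun _ _ => zero_le_one) (fun l hl =>
          (h6 l (Pool.Agent.Lib.Sieve.mem_primesUpTo.mp (mem_sdiff.mp hl).1).1).2)
    have h14 : (0 : ℝ) ≤ ∏ l ∈ S, (1 - 1 / (l : ℝ))⁻¹ :=
      prod_nonneg fun l hl => zero_le_one.trans (h6 l (hS l hl).1).2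
    exact le_mul_of_one_le_left h14 h13
  have h11 : (0 : ℝ) ≤ ((∏ l ∈ S, l : ℕ) : ℝ) := by positivity
  have h12 : (0 : ℝ) ≤ (j : ℝ) := by positivity
  calc (j : ℝ) * (((∏ l ∈ S, l : ℕ) : ℝ) * ∏ l ∈ S, ((l : ℝ) / ((l : ℝ) - 1)))
      ≤ (j : ℝ) * (((∏ l ∈ S, l : ℕ) : ℝ) * (500 * Real.log Q)) := by gcongr
    _ = _ := by push_cast; ring


end Pool.Agent.Lib.H24P
end

-- from Lib.H24P.T5
section

/-!
# Project H24P, chunk T5 (M): truncation of the singular series, assembly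
-/

open Finset Polynomial

namespace Pool.Agent.Lib.H24P

open Pool.Agent.Lib.H68T Pool.Agent.Lib.H18Q Pool.Agent.Lib.H59P

theorem t5_ratio {l : ℕ} (hl : l.Prime) : 1 ≤ (l : ℝ) / ((l : ℝ) - 1) ∧
    (l : ℝ) / ((l : ℝ) - 1) = (1 - 1 / (l : ℝ))⁻¹ := by
  have h2 : (2 : ℝ) ≤ l := by exact_mod_cast hl.two_le
  have h1 : (0 : ℝ) < (l : ℝ) - 1 := by linarith
  have h0 : (l : ℝ) ≠ 0 := by linarith
  refine ⟨?_, ?_⟩
  · rw [le_div_iff₀ h1]
    linarith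
  · rw [one_sub_div h0, inv_div]

/-- Upper bound for products of local factors. Proof. `P0_tp`: `0 ≤ 1 + tpf ≤ (l/(l-1))^(k+1)`, all primes are `≤ Q`:
`Helper57.prod_one_sub_inv_inv_le`. -/
theorem T5_up {k : ℕ} (φ : Fin k → ℤ → ℤ) (Q : ℕ) (hQ : 2 ≤ Q) (P : Finset ℕ) (hP : P ⊆ pr Q) :
    0 ≤ SSf P φ ∧ SSf P φ ≤ (500 * Real.log Q) ^ k := by
  have hpr : ∀ l ∈ P, l.Prime := fun l hl => (Finset.mem_filter.1 (hP hl)).2
  unfold SSf
  refine ⟨Finset.prod_nonneg fun l hl => (P0_tp l (hpr l hl) φ).1, ?_⟩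
  have h1 : ∏ l ∈ P, (1 + tpf l φ) ≤ ∏ l ∈ P, ((l : ℝ) / ((l : ℝ) - 1)) ^ k :=
    Finset.prod_le_prod (fun l hl => (P0_tp l (hpr l hl) φ).1)
      (fun l hl => (P0_tp l (hpr l hl) φ).2)
  have h2 : ∏ l ∈ P, ((l : ℝ) / ((l : ℝ) - 1)) ^ k ≤ ∏ l ∈ pr Q, ((l : ℝ) / ((l : ℝ) - 1)) ^ k := by
    rw [← Finset.prod_sdiff hP]
    refine le_mul_of_one_le_left (Finset.prod_nonneg fun l hl => ?_) ?_
    · exact pow_nonneg (zero_le_one.trans (t5_ratio (hpr l hl)).1) _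
    · have h5 : ∏ _l ∈ pr Q \ P, (1 : ℝ) ≤ ∏ l ∈ pr Q \ P, ((l : ℝ) / ((l : ℝ) - 1)) ^ k :=
        Finset.prod_le_prod (fun _ _ => zero_le_one) fun l hl =>
          one_le_pow₀ (t5_ratio (Finset.mem_filter.1 (Finset.mem_sdiff.1 hl).1).2).1
      rwa [Finset.prod_const_one] at h5
  have h3 : ∏ l ∈ pr Q, ((l : ℝ) / ((l : ℝ) - 1)) ^ k =
      (∏ l ∈ pr Q, (1 - 1 / (l : ℝ))⁻¹) ^ k := by
    rw [Finset.prod_pow]
    congr 1
    exact Finset.prod_congr rfl fun l hl => (t5_ratio (Finset.mem_filter.1 hl).2).2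
  have h4 : pr Q = Sieve.primesUpTo Q := by
    ext l
    rw [Sieve.mem_primesUpTo]
    unfold pr
    rw [Finset.mem_filter, Finset.mem_Icc]
    constructor
    · rintro ⟨⟨_, h⟩, h'⟩
      exact ⟨h', h⟩
    · rintro ⟨h', h⟩
      exact ⟨⟨h'.one_le, h⟩, h'⟩
  rw [h3] at h2
  refine h1.trans (h2.trans ?_)
  rw [h4]
  refine pow_le_pow_left₀ (Finset.prod_nonneg fun l hl => ?_) (Helper57.prod_one_sub_inv_inv_le Q hQ) k
  have hl' := (Sieve.mem_primesUpTo.1 hl).1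
  rw [← (t5_ratio hl').2]
  exact zero_le_one.trans (t5_ratio hl').1

theorem t5_SF {Q E R : ℕ} (hE : E ≤ Q) :
    SF E R = dv ((pr Q).filter (fun l => ¬ l ∣ R)) Q E := by
  unfold SF dv
  refine Finset.filter_congr fun d hd => ?_
  rw [Finset.mem_Icc] at hd
  refine and_congr_right fun hsq => ?_
  constructor
  · intro h l hl
    have hlp := Nat.prime_of_mem_primeFactors hl
    have hld := Nat.dvd_of_mem_primeFactors hl
    have hlQ : l ≤ Q := (Nat.le_of_dvd (by omega) hld).trans (hd.2.trans hE)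
    refine ⟨Finset.mem_filter.2 ⟨Finset.mem_filter.2 ⟨Finset.mem_Icc.2 ⟨hlp.one_le, hlQ⟩, hlp⟩, ?_⟩, hlQ⟩
    intro hlR
    exact hlp.one_lt.ne' (Nat.dvd_one.1 (h ▸ Nat.dvd_gcd hld hlR))
  · intro h
    by_contra hnc
    obtain ⟨l, hlp, h1, h2⟩ := Nat.Prime.not_coprime_iff_dvd.1 hnc
    exact (Finset.mem_filter.1 (h l (Nat.mem_primeFactors.2 ⟨hlp, h1, by omega⟩)).1).2 h2

/-- Minkowski with one distinguished term. -/
theorem t5_mink {α : Type*} (S : Finset α) (P : Finset ℕ) (γ : ℕ → ℝ) (hγ : ∀ q ∈ P, 0 ≤ γ q)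
    (g : α → ℝ) (f : ℕ → α → ℝ) (D : α → ℝ) (c W : ℝ) (hW : 0 ≤ W)
    (hc : 1 + ∑ q ∈ P, γ q ≤ c) (hg : ∑ h ∈ S, g h ^ 2 ≤ W)
    (hf : ∀ q ∈ P, ∑ h ∈ S, f q h ^ 2 ≤ W)
    (hD : ∀ h ∈ S, |D h| ≤ |g h| + ∑ q ∈ P, γ q * |f q h|) :
    ∑ h ∈ S, D h ^ 2 ≤ c ^ 2 * W := by
  classical
  let γ' : Option ℕ → ℂ := fun o => match o with
    | none => 1
    | some q => (γ q : ℂ)
  let f' : Option ℕ → α → ℂ := fun o h => match o with
    | none => ((|g h| : ℝ) : ℂ)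
    | some q => ((|f q h| : ℝ) : ℂ)
  have h1 := Z2a S (Finset.insertNone P) γ' f' c W hW ?_ ?_
  · refine le_trans (Finset.sum_le_sum fun h hh => ?_) h1
    have h2 : ∑ o ∈ Finset.insertNone P, γ' o * f' o h =
        ((|g h| + ∑ q ∈ P, γ q * |f q h| : ℝ) : ℂ) := by
      rw [Finset.sum_insertNone]
      simp only [γ', f']
      push_cast
      rw [one_mul]
    rw [h2, Complex.norm_real, ← sq_abs (D h)]
    refine pow_le_pow_left₀ (abs_nonneg _) ?_ 2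
    rw [Real.norm_eq_abs]
    exact (hD h hh).trans (le_abs_self _)
  · rw [Finset.sum_insertNone]
    simp only [γ', norm_one, Complex.norm_real, Real.norm_eq_abs]
    refine le_trans (le_of_eq ?_) hc
    congr 1
    exact Finset.sum_congr rfl fun q hq => abs_of_nonneg (hγ q hq)
  · intro o ho
    rw [Finset.mem_insertNone] at ho
    rcases o with _ | q
    · simp only [f', Complex.norm_real, Real.norm_eq_abs, abs_abs, sq_abs]
      exact hg
    · simp only [f', Complex.norm_real, Real.norm_eq_abs, abs_abs, sq_abs]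
      exact hf q (ho q rfl)

theorem t5_harm (Q : ℕ) (P : Finset ℕ) (hP : P ⊆ pr Q) : ∑ q ∈ P, 1 / (q : ℝ) ≤ 1 + Real.log Q := by
  have h1 : ∑ q ∈ P, 1 / (q : ℝ) ≤ ∑ q ∈ Icc 1 Q, 1 / (q : ℝ) := by
    refine Finset.sum_le_sum_of_subset_of_nonneg ?_ (fun q _ _ => by positivity)
    exact hP.trans (Finset.filter_subset _ _)
  have h2 : ∑ q ∈ Icc 1 Q, 1 / (q : ℝ) = ((harmonic Q : ℚ) : ℝ) := by
    rw [harmonic_eq_sum_Icc]
    push_cast
    exact Finset.sum_congr rfl fun q _ => one_div _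
  rw [h2] at h1
  exact h1.trans (harmonic_le_one_add_log Q)

/-- The members of `mv`. -/
theorem t5_mv {Q E R a j : ℕ} (hE : E ≤ Q) (ha : a ∣ R) (hj : j ≤ Q) :
    ∀ d ∈ mv ((pr Q).filter (fun l => ¬ l ∣ R)) j E, Squarefree d ∧ E < d ∧ d ≤ Q ^ 2 ∧
      ∀ l ∈ d.primeFactors, l ≤ Q ∧ ¬ l ∣ a := by
  intro d hd
  unfold mv at hd
  rw [Finset.mem_filter, Finset.mem_Ioc] at hd
  obtain ⟨⟨h1, h2⟩, h3, h4, -⟩ := hd
  refine ⟨h3, h1, ?_, fun l hl => ⟨(h4 l hl).2.trans hj, fun h => ?_⟩⟩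
  · calc d ≤ E * j := h2
      _ ≤ Q * Q := Nat.mul_le_mul hE hj
      _ = Q ^ 2 := (pow_two Q).symm
  · exact (Finset.mem_filter.1 (h4 l hl).1).2 (h.trans ha)

/-- The difference of the truncated and the complete singular series, pointwise. -/
theorem t5_point {k : ℕ} (φ : Fin k → ℤ → ℤ) (C1 : ℝ) (hC1 : ∀ l : ℕ, l.Prime → |tpf l φ| ≤ C1 / l)
    {Q E R : ℕ} (hQ : 2 ≤ Q) (hE1 : 1 ≤ E) (hE : E ≤ Q) (hR : 1 ≤ R) :
    |∑ d ∈ SF E R, tdf d φ - SSf ((pr Q).filter (fun l => ¬ l ∣ R)) φ| ≤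
      |∑ m ∈ mv ((pr Q).filter (fun l => ¬ l ∣ R)) Q E, tdf m φ| +
      ∑ q ∈ (pr Q).filter (fun l => ¬ l ∣ R), (C1 / q * (500 * Real.log Q) ^ k) *
        |∑ m ∈ mv ((pr Q).filter (fun l => ¬ l ∣ R)) (q - 1) E, tdf m φ| := by
  classical
  set P' := (pr Q).filter (fun l => ¬ l ∣ R) with hP'
  have hpr : ∀ l ∈ P', l.Prime := fun l hl => (Finset.mem_filter.1 (Finset.mem_filter.1 hl).1).2
  have hsub : P' ⊆ pr Q := Finset.filter_subset _ _
  have hPQ : P'.filter (fun l => l ≤ Q) = P' := by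
    refine Finset.filter_true_of_mem fun l hl => ?_
    exact (Finset.mem_Icc.1 (Finset.mem_filter.1 (hsub hl)).1).2
  have h4 := T4_main (fun l => tpf l φ) P' hpr E hE1 Q
  rw [hPQ] at h4
  have htt : ∀ d, tt (fun l => tpf l φ) d = tdf d φ := fun d => rfl
  simp only [htt] at h4
  rw [t5_SF hE, ← hP', abs_sub_comm]
  have h5 : SSf P' φ - ∑ d ∈ dv P' Q E, tdf d φ =
      ∑ m ∈ mv P' Q E, tdf m φ +
      ∑ q ∈ P', tpf q φ * (∑ m ∈ mv P' (q - 1) E, tdf m φ) *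
        ∏ l ∈ P'.filter (fun l => q < l ∧ l ≤ Q), (1 + tpf l φ) := h4
  rw [h5]
  refine (abs_add_le _ _).trans (add_le_add le_rfl ?_)
  refine (Finset.abs_sum_le_sum_abs _ _).trans (Finset.sum_le_sum fun q hq => ?_)
  rw [abs_mul, abs_mul]
  have h6 := T5_up φ Q hQ (P'.filter (fun l => q < l ∧ l ≤ Q)) ((Finset.filter_subset _ _).trans hsub)
  have h7 : |∏ l ∈ P'.filter (fun l => q < l ∧ l ≤ Q), (1 + tpf l φ)| ≤ (500 * Real.log Q) ^ k := by
    have h8 : |SSf (P'.filter (fun l => q < l ∧ l ≤ Q)) φ| ≤ (500 * Real.log Q) ^ k := by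
      rw [abs_of_nonneg h6.1]
      exact h6.2
    exact h8
  have h9 := hC1 q (hpr q hq)
  calc |tpf q φ| * |∑ m ∈ mv P' (q - 1) E, tdf m φ| *
        |∏ l ∈ P'.filter (fun l => q < l ∧ l ≤ Q), (1 + tpf l φ)|
      ≤ (C1 / q) * |∑ m ∈ mv P' (q - 1) E, tdf m φ| * (500 * Real.log Q) ^ k := by
        refine mul_le_mul (mul_le_mul_of_nonneg_right h9 (abs_nonneg _)) h7 (abs_nonneg _) ?_
        exact mul_nonneg ((abs_nonneg _).trans h9) (abs_nonneg _)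
    _ = (C1 / q * (500 * Real.log Q) ^ k) * |∑ m ∈ mv P' (q - 1) E, tdf m φ| := by ring


end Pool.Agent.Lib.H24P
end

-- from Lib.H24Q.A2
section

/-!
# Project H24Q, chunk A2 (M): truncation of the singular series from FG (compare H24P/T2, T3, T5)
-/

open Finset

namespace Pool.Agent.Lib.H24Q

open Pool.Agent.Lib.H68T Pool.Agent.Lib.H18Q Pool.Agent.Lib.H59P Pool.Agent.Lib.H24P

/-- Proof. `P1_Wd` for each `d ∈ Δ` (compare `T2_iden` in `H24P/T2.lean`), so the inner sum is `∑_{d ∈ Δ} Wdf d (at' φ n)`;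
`d ∣ N`, so the sum over `n < N` is `(N/d)` periods (`P2_Wd`), each with sum `d tdf d φ` (`A1_mean`). -/
theorem A2_iden {m : ℕ} (φ : Fin m → ℤ → ℤ) (hφ : Cp φ) (Z N : ℕ) (Δ : Finset ℕ)
    (hΔ : ∀ d ∈ Δ, Squarefree d ∧ d ≤ Z ∧ d ∣ N) :
    ∑ n ∈ Ico 0 (0 + N), ∑ κ ∈ (Fintype.piFinset fun _ : Fin m => KS Z 1).filter
        (fun κ => univ.lcm κ ∈ Δ), ∏ i, gk p0 (κ i) (φ i (n : ℤ)) =
      (N : ℂ) * ((∑ d ∈ Δ, tdf d φ : ℝ) : ℂ) := by
  have h1 : ∀ n ∈ Ico 0 (0 + N), ∑ κ ∈ (Fintype.piFinset fun _ : Fin m => KS Z 1).filter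
        (fun κ => univ.lcm κ ∈ Δ), ∏ i, gk p0 (κ i) (φ i ((n : ℕ) : ℤ)) =
      ∑ d ∈ Δ, ((Wdf d (at' φ ((n : ℕ) : ℤ)) : ℝ) : ℂ) := by
    intro n _
    have h2 := t2_comp Z Δ (fun d hd => ⟨(hΔ d hd).1, (hΔ d hd).2.1⟩) (at' φ ((n : ℕ) : ℤ))
    rw [Complex.ofReal_sum] at h2
    exact h2
  rw [Finset.sum_congr rfl h1, Finset.sum_comm, Complex.ofReal_sum, Finset.mul_sum]
  refine Finset.sum_congr rfl fun d hd => ?_
  obtain ⟨hsq, -, j, hj⟩ := hΔ d hd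
  have hper : ∀ n : ℤ, (fun n : ℤ => ((Wdf d (at' φ n) : ℝ) : ℂ)) (n + d) = (fun n : ℤ => ((Wdf d (at' φ n) : ℝ) : ℂ)) n := by
    intro n
    show ((Wdf d (at' φ (n + d)) : ℝ) : ℂ) = ((Wdf d (at' φ n) : ℝ) : ℂ)
    rw [P2_Wd φ hφ d d dvd_rfl n]
  have h3 := t2_per (fun n : ℤ => ((Wdf d (at' φ n) : ℝ) : ℂ)) d hper j
  rw [← hj] at h3
  have h4 : ∑ n ∈ range d, ((Wdf d (at' φ (n : ℤ)) : ℝ) : ℂ) = d * ((tdf d φ : ℝ) : ℂ) := by
    rw [← Complex.ofReal_sum, A1_mean φ hφ d hsq]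
    push_cast
    rfl
  refine h3.trans ?_
  have h5 : ∑ n ∈ range d, (fun n : ℤ => ((Wdf d (at' φ n) : ℝ) : ℂ)) n = d * ((tdf d φ : ℝ) : ℂ) := h4
  rw [h5, hj]
  push_cast
  ring

/-- Proof. `N = (Q^2)! (H0 + 1)`, `Z = Q^2`: `A2_iden`, and `FG` at the level `Q^2` with `p = p0`, `D = E`, `a = 0`,
`H = N ≥ H0` (`univ.lcm (fun i => 1 * κ i) ∈ Δ`, so it is `> E`); divide by `N²`. `1 + log Q² ≤ 2 (1 + log Q)`,
`(2 x)^C = 2^C x^C`. -/
theorem A2_ms {C c : ℝ} (hC : 1 ≤ C) {Q H0 : ℕ} (hQ : 1 ≤ Q) {m : ℕ} {Ω : Type} {S : Finset Ω}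
    {φ : Ω → Fin m → ℤ → ℤ} (hF : Fam C c Q H0 S φ) (Δ : Finset ℕ) (E : ℕ) (hE : 1 ≤ E)
    (hΔ : ∀ d ∈ Δ, Squarefree d ∧ E < d ∧ d ≤ Q ^ 2) :
    ∑ ω ∈ S, (∑ d ∈ Δ, tdf d (φ ω)) ^ 2 ≤
      C * 2 ^ C * (1 + Real.log Q) ^ C * S.card * (E : ℝ) ^ (-c) := by
  classical
  have hQr : (1 : ℝ) ≤ Q := by exact_mod_cast hQ
  have hlQ : 0 ≤ Real.log Q := Real.log_nonneg hQr
  have hQ2 : 1 ≤ Q ^ 2 := Nat.one_le_pow _ _ (by omega)
  obtain ⟨N, hN⟩ : ∃ N : ℕ, N = (Q ^ 2).factorial * (H0 + 1) := ⟨_, rfl⟩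
  have hN0 : 0 < N := by
    rw [hN]
    exact Nat.mul_pos (Nat.factorial_pos _) (Nat.succ_pos _)
  have hNH : H0 ≤ N := by
    rw [hN]
    exact (Nat.le_succ H0).trans (Nat.le_mul_of_pos_left _ (Nat.factorial_pos _))
  have hNr : (0 : ℝ) < N := by exact_mod_cast hN0
  have hΔ' : ∀ d ∈ Δ, Squarefree d ∧ d ≤ Q ^ 2 ∧ d ∣ N := by
    intro d hd
    obtain ⟨h1, h2, h3⟩ := hΔ d hd
    refine ⟨h1, h3, ?_⟩
    rw [hN]
    exact (Nat.dvd_factorial (by omega) h3).mul_right _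
  obtain ⟨T, hT⟩ : ∃ T : Finset (Fin m → ℕ), T = (Fintype.piFinset fun _ : Fin m => KS (Q ^ 2) 1).filter
    (fun κ => univ.lcm κ ∈ Δ) := ⟨_, rfl⟩
  have hFg := hF.fg2 (fun _ => p0) (fun _ => p0_mem hQ2) T (by rw [hT]; exact filter_subset _ _) E hE
    (by
      intro κ hκ
      rw [hT] at hκ
      have h1 := (mem_filter.mp hκ).2
      have h2 : (fun i => (p0).1 * κ i) = κ := by
        funext i
        exact one_mul _
      rw [h2]
      exact (hΔ _ h1).2.1)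
    0 N hNH
  have hL : ∀ ω ∈ S, ‖∑ n ∈ Ico 0 (0 + N), ∑ κ ∈ T, ∏ i, gk p0 (κ i) (φ ω i (n : ℤ))‖ ^ 2 =
      (N : ℝ) ^ 2 * (∑ d ∈ Δ, tdf d (φ ω)) ^ 2 := by
    intro ω hω
    rw [hT, A2_iden (φ ω) (hF.fb.cp ω hω) (Q ^ 2) N Δ hΔ', norm_mul, Complex.norm_natCast, Complex.norm_real,
      mul_pow, Real.norm_eq_abs, sq_abs]
  have hlog2 : Real.log ((Q ^ 2 : ℕ) : ℝ) = 2 * Real.log Q := by
    rw [Nat.cast_pow, Real.log_pow]
    norm_num
  have hE0 : (0 : ℝ) ≤ (E : ℝ) ^ (-c) := Real.rpow_nonneg (Nat.cast_nonneg E) _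
  have hpw : (1 + Real.log ((Q ^ 2 : ℕ) : ℝ)) ^ C ≤ 2 ^ C * (1 + Real.log Q) ^ C := by
    rw [hlog2, ← Real.mul_rpow (by norm_num) (by linarith)]
    exact Real.rpow_le_rpow (by linarith) (by linarith) (by linarith)
  have hb1 : (N : ℝ) ^ 2 * ∑ ω ∈ S, (∑ d ∈ Δ, tdf d (φ ω)) ^ 2 ≤
      (N : ℝ) ^ 2 * (C * 2 ^ C * (1 + Real.log Q) ^ C * S.card * (E : ℝ) ^ (-c)) := by
    rw [mul_sum, ← sum_congr rfl hL]
    refine hFg.trans ?_
    have hS0 : (0 : ℝ) ≤ S.card := Nat.cast_nonneg _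
    calc C * (1 + Real.log ((Q ^ 2 : ℕ) : ℝ)) ^ C * S.card * (N : ℝ) ^ 2 * (E : ℝ) ^ (-c)
        ≤ C * (2 ^ C * (1 + Real.log Q) ^ C) * S.card * (N : ℝ) ^ 2 * (E : ℝ) ^ (-c) := by
          gcongr
      _ = _ := by ring
  exact le_of_mul_le_mul_left hb1 (by positivity)

/-- **A2.** Proof. As `T5_main` (`H24P/T5.lean`): `t5_point`, `t5_mink`, `t5_harm`, `t5_mv` (with `a = 1`), `A2_ms`, `G1_size`,
`G1_rlog`. (`c > 0`, `C ≥ 1` given.) -/
theorem A2_TM (m : ℕ) (C c : ℝ) (hC : 1 ≤ C) (hc : 0 < c) : ∃ c' : ℝ, 0 < c' ∧ ∃ Q0 : ℕ, ∀ Q : ℕ,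
    Q0 ≤ Q → ∀ (H0 : ℕ) (Ω : Type) (S : Finset Ω) (φ : Ω → Fin m → ℤ → ℤ), Fam C c Q H0 S φ →
    ∀ R : ℕ, 1 ≤ R → R ≤ fl Q (1 / 16) →
    ∑ ω ∈ S, (∑ d ∈ SF (fl Q (1 / 2) / R) R, tdf d (φ ω) -
      SSf ((pr Q).filter (fun l => ¬ l ∣ R)) (φ ω)) ^ 2 ≤ S.card * (Q : ℝ) ^ (-c') := by
  obtain ⟨Q1, hQ1, hlog⟩ := G1_rlog ((1 + C * 500 ^ m) ^ 2 * (C * 2 ^ C)) (2 * (m + 1) + C) (c / 8)
    (by linarith)
  obtain ⟨Q2, hQ2, hsize⟩ := G1_size 1
  refine ⟨c / 8, by linarith, max 3 (max Q1 Q2), fun Q hQ H0 Ω S φ hF R hR1 hR => ?_⟩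
  have hQ3 : 3 ≤ Q := (le_max_left _ _).trans hQ
  have hQQ1 : Q1 ≤ Q := (le_max_left _ _).trans ((le_max_right _ _).trans hQ)
  have hQQ2 : Q2 ≤ Q := (le_max_right _ _).trans ((le_max_right _ _).trans hQ)
  have hQr : (1 : ℝ) ≤ Q := by exact_mod_cast (show 1 ≤ Q by omega)
  have hQ0 : (0 : ℝ) < Q := by linarith
  have hL : 0 ≤ Real.log Q := Real.log_nonneg hQr
  obtain ⟨-, -, -, hEE, hEbig⟩ := hsize Q hQQ2 1 1 le_rfl le_rfl (by rw [one_pow]; omega)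
  have hEb := hEbig R hR1 hR
  have hone : (1 : ℝ) ≤ (Q : ℝ) ^ (1 / 4 : ℝ) := Real.one_le_rpow hQr (by norm_num)
  have hE1 : 1 ≤ fl Q (1 / 2) / R := by exact_mod_cast hone.trans hEb
  have hEQ : fl Q (1 / 2) / R ≤ Q := by
    refine (Nat.div_le_self _ _).trans ?_
    exact G1_le (by omega) (by norm_num) (by norm_num)
  set E := fl Q (1 / 2) / R with hE
  set P' := (pr Q).filter (fun l => ¬ l ∣ R) with hP'
  have hsub : P' ⊆ pr Q := Finset.filter_subset _ _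
  have hS0 : (0 : ℝ) ≤ S.card := Nat.cast_nonneg _
  have hE0 : (0 : ℝ) < E := by exact_mod_cast hE1
  have hmvs : ∀ j, j ≤ Q → ∑ ω ∈ S, (∑ d ∈ mv P' j E, tdf d (φ ω)) ^ 2 ≤
      C * 2 ^ C * (1 + Real.log Q) ^ C * S.card * (E : ℝ) ^ (-c) := fun j hj =>
    A2_ms hC (by omega) hF (mv P' j E) E hE1 fun d hd =>
      ⟨(t5_mv hEQ (one_dvd R) hj d hd).1, (t5_mv hEQ (one_dvd R) hj d hd).2.1, (t5_mv hEQ (one_dvd R) hj d hd).2.2.1⟩
  have hW : 0 ≤ C * 2 ^ C * (1 + Real.log Q) ^ C * S.card * (E : ℝ) ^ (-c) := by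
    have : 0 ≤ (1 + Real.log Q) ^ C := Real.rpow_nonneg (by linarith) _
    have : 0 ≤ (E : ℝ) ^ (-c) := Real.rpow_nonneg hE0.le _
    positivity
  have hkey := t5_mink S P' (fun q => C / q * (500 * Real.log Q) ^ m)
    (fun q _ => by positivity)
    (fun ω => ∑ n ∈ mv P' Q E, tdf n (φ ω))
    (fun q ω => ∑ n ∈ mv P' (q - 1) E, tdf n (φ ω))
    (fun ω => ∑ d ∈ SF E R, tdf d (φ ω) - SSf P' (φ ω))
    ((1 + C * 500 ^ m) * (1 + Real.log Q) ^ (m + 1)) _ hW ?_ (hmvs Q le_rfl)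
    (fun q hq => hmvs (q - 1) ?_) (fun ω hω => t5_point (φ ω) C (fun l hl => hF.fb.tp ω hω l hl)
      (by omega) hE1 hEQ hR1)
  · refine hkey.trans ?_
    have e1 : (E : ℝ) ^ (-c) ≤ (Q : ℝ) ^ (-(c / 4)) := by
      calc (E : ℝ) ^ (-c) ≤ ((Q : ℝ) ^ (1 / 4 : ℝ)) ^ (-c) :=
            Real.rpow_le_rpow_of_nonpos (by linarith) hEb (by linarith)
        _ = (Q : ℝ) ^ (-(c / 4)) := by
            rw [← Real.rpow_mul hQ0.le]
            congr 1
            ring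
    have e2 := hlog Q hQQ1
    have e3 : ((1 + C * 500 ^ m) * (1 + Real.log Q) ^ (m + 1)) ^ 2 *
        (C * 2 ^ C * (1 + Real.log Q) ^ C) =
        (1 + C * 500 ^ m) ^ 2 * (C * 2 ^ C) * (1 + Real.log Q) ^ (2 * ((m : ℝ) + 1) + C) := by
      have hp : 0 < 1 + Real.log Q := by linarith
      have e4 : (1 + Real.log Q) ^ (2 * ((m : ℝ) + 1) + C) =
          ((1 + Real.log Q) ^ (m + 1)) ^ 2 * (1 + Real.log Q) ^ C := by
        rw [Real.rpow_add hp]
        congr 1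
        rw [← pow_mul, ← Real.rpow_natCast]
        congr 1
        push_cast
        ring
      rw [e4]
      ring
    calc ((1 + C * 500 ^ m) * (1 + Real.log Q) ^ (m + 1)) ^ 2 *
          (C * 2 ^ C * (1 + Real.log Q) ^ C * S.card * (E : ℝ) ^ (-c))
        = (((1 + C * 500 ^ m) * (1 + Real.log Q) ^ (m + 1)) ^ 2 *
          (C * 2 ^ C * (1 + Real.log Q) ^ C)) * S.card * (E : ℝ) ^ (-c) := by ring
      _ ≤ (Q : ℝ) ^ (c / 8) * S.card * (Q : ℝ) ^ (-(c / 4)) := by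
          rw [e3]
          refine mul_le_mul (mul_le_mul_of_nonneg_right e2 hS0) e1 (Real.rpow_nonneg hE0.le _) ?_
          exact mul_nonneg (Real.rpow_nonneg hQ0.le _) hS0
      _ = S.card * ((Q : ℝ) ^ (c / 8) * (Q : ℝ) ^ (-(c / 4))) := by ring
      _ = S.card * (Q : ℝ) ^ (-(c / 8)) := by
          rw [← Real.rpow_add hQ0]
          congr 2
          ring
  · have f1 := t5_harm Q P' hsub
    have f2 : ∑ q ∈ P', C / (q : ℝ) * (500 * Real.log Q) ^ m =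
        (C * (500 * Real.log Q) ^ m) * ∑ q ∈ P', 1 / (q : ℝ) := by
      rw [Finset.mul_sum]
      refine Finset.sum_congr rfl fun q _ => ?_
      ring
    rw [f2]
    have f3 : (500 * Real.log Q) ^ m ≤ 500 ^ m * (1 + Real.log Q) ^ m := by
      rw [mul_pow]
      refine mul_le_mul_of_nonneg_left ?_ (by positivity)
      exact pow_le_pow_left₀ hL (by linarith) _
    have f4 : (1 : ℝ) ≤ (1 + Real.log Q) ^ (m + 1) := one_le_pow₀ (by linarith)
    have f6 : C * (500 * Real.log Q) ^ m * ∑ q ∈ P', 1 / (q : ℝ) ≤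
        C * (500 ^ m * (1 + Real.log Q) ^ m) * (1 + Real.log Q) := by
      refine mul_le_mul (mul_le_mul_of_nonneg_left f3 (by linarith)) f1 ?_ ?_
      · exact Finset.sum_nonneg fun q _ => by positivity
      · have : 0 ≤ 1 + Real.log Q := by linarith
        positivity
    calc 1 + C * (500 * Real.log Q) ^ m * ∑ q ∈ P', 1 / (q : ℝ)
        ≤ (1 + Real.log Q) ^ (m + 1) +
          C * (500 ^ m * (1 + Real.log Q) ^ m) * (1 + Real.log Q) := add_le_add f4 f6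
      _ = (1 + C * 500 ^ m) * (1 + Real.log Q) ^ (m + 1) := by ring
  · have h7 := (Finset.mem_Icc.1 (Finset.mem_filter.1 (hsub hq)).1).2
    omega

end Pool.Agent.Lib.H24Q
end
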