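import Pool.Agent.Lib.H1M.RV3.M006
import Pool.Agent.Lib.H1M.RV3.M014
import Pool.Agent.Lib.H1M.RV3.M015
import Pool.Agent.Lib.H1M.RV3.M039
import Pool.Agent.Lib.H1M.RV3.M042
import Pool.Agent.Lib.H1M.RV3.M044
import Pool.Agent.Lib.H1M.RV3.M067
import Pool.Agent.Lib.H1M.RV3.M068
import Pool.Agent.Lib.H1M.RV3.M070
import Pool.Agent.Lib.H1M.RV3.M078
import Pool.Agent.Lib.H1M.RV3.M080
import Pool.Agent.Lib.H1M.RV3.M081
import Pool.Agent.Lib.H1M.RV3.M082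

/-! Merged copies (to shorten the build) of Lib.H59P.S1B, Lib.H24P.B5, Lib.H24P.Z1L, Lib.H24P.Z1S, Lib.H9S.BDL, Lib.H59T.UL, Lib.H59T.UV, Lib.H9S.O3. -/

-- from Lib.H59P.S1B
section

/-!
# Project H59P, chunk S1b
-/

open Finset

namespace Pool.Agent.Lib.H59P

open Pool.Agent.Lib.H68T Pool.Agent.Lib.H18Q

/-- The size of `SG` with coefficients of total size at most `b`. Proof. `qp_SG_le` in `H18Q/QP.lean`. -/
theorem S1b (Q : ℕ) (hQ : 1 ≤ Q) (B : Ch → ℂ) (mb : Ch → ℝ) (hB : ∀ p ∈ PC Q, ‖B p‖ ≤ mb p) (m : ℤ) :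
    ‖SG Q B m‖ ≤ 100 * (1 + Real.log Q) ^ 3 * dQ Q m * ∑ p ∈ PC Q, mb p :=
  qp_SG_le hQ B mb hB m

end Pool.Agent.Lib.H59P
end

-- from Lib.H24P.B5
section

/-!
# Project H24P, chunk B5 (M): mean squares of the linear coordinate
-/

open Finset Polynomial

namespace Pool.Agent.Lib.H24P

open Pool.Agent.Lib.H68T Pool.Agent.Lib.H18Q Pool.Agent.Lib.H59P

theorem b5_per (Q : ℕ) (x t : ℤ) : dQ Q (x + (Q.factorial : ℤ) * t) = dQ Q x := by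
  unfold dQ
  congr 2
  refine Finset.filter_congr fun d hd => ?_
  rw [Finset.mem_Icc] at hd
  have h1 : (d : ℤ) ∣ (Q.factorial : ℤ) * t :=
    Dvd.dvd.mul_right (Int.natCast_dvd_natCast.2 (Nat.dvd_factorial (by omega) hd.2)) t
  constructor
  · intro h
    exact (Int.dvd_add_left h1).1 h
  · intro h
    exact (Int.dvd_add_left h1).2 h

theorem b5_core (Q W H : ℕ) (hW : 0 < W) (x : ℤ) (hx : IsCoprime x (W : ℤ)) :
    ∑ c ∈ range H, dQ Q (x + W * (c : ℤ)) ^ 2 ≤ H * (1 + Real.log Q) ^ 3 + (Q : ℝ) ^ 2 := by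
  have hW' : (1 : ℤ) ≤ W := by exact_mod_cast hW
  have hF : (1 : ℤ) ≤ (Q.factorial : ℤ) := by exact_mod_cast Nat.succ_le_of_lt (Nat.factorial_pos Q)
  have h0 : 0 ≤ x + (Q.factorial : ℤ) * (W * |x|) := by
    have h1 : |x| ≤ (Q.factorial : ℤ) * (W * |x|) := by
      have h2 := abs_nonneg x
      calc |x| = 1 * (1 * |x|) := by ring
        _ ≤ (Q.factorial : ℤ) * (W * |x|) := by gcongr
    have h3 := neg_abs_le x
    linarith
  obtain ⟨b, hb⟩ := Int.eq_ofNat_of_zero_le h0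
  have hbW : Nat.Coprime b W := by
    rw [← Nat.isCoprime_iff_coprime]
    have h4 : (b : ℤ) = x + (W : ℤ) * ((Q.factorial : ℤ) * |x|) := by
      rw [← hb]
      ring
    rw [h4]
    exact (IsCoprime.add_mul_left_left_iff).2 hx
  have h5 := dQ_moment Q H W b 0 hW hbW
  refine le_trans (le_of_eq ?_) h5
  refine Finset.sum_congr rfl fun c _ => ?_
  have h6 : (b : ℤ) + W * ((0 + c : ℕ) : ℤ) = (x + W * (c : ℤ)) + (Q.factorial : ℤ) * (W * |x|) := by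
    rw [← hb, Nat.zero_add]
    ring
  rw [h6, b5_per]

/-- Proof. `B(n) = b + a n`, `gcd(a, b) = 1`. `dQ Q m` depends only on `m` modulo `Q!` and `dQ Q (-m) = dQ Q m`. If `a < 0`
reflect the interval (`n ↦ 2 a0 + H - 1 - n`). So the sum is `∑_{c < H} dQ(x + W c)^2` with `W = |a| ≥ 1` and an
integer `x` coprime to `W`, which may be replaced by `x + W Q! t ≥ 0`; then `x = b' + W s` with naturals, `b' = x % W`:
`dQ_moment` (`H68T/CG2.lean`). -/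
theorem B5_dQ (Q A : ℕ) (B : ℤ[X]) (hB : Lin A B) (a H : ℕ) :
    ∑ n ∈ Ico a (a + H), dQ Q (B.eval (n : ℤ)) ^ 2 ≤ H * (1 + Real.log Q) ^ 3 + (Q : ℝ) ^ 2 := by
  have hev : ∀ n : ℤ, B.eval n = B.coeff 0 + B.coeff 1 * n := by
    intro n
    rw [Polynomial.eval_eq_sum_range, hB.deg]
    simp [Finset.sum_range_succ]
  have hc1 : B.coeff 1 ≠ 0 := by
    have h1 : B.leadingCoeff ≠ 0 := by
      rw [Polynomial.leadingCoeff_ne_zero]
      intro h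
      have h2 := hB.deg
      rw [h] at h2
      simp at h2
    rwa [Polynomial.leadingCoeff, hB.deg] at h1
  rcases lt_or_gt_of_ne hc1 with hneg | hpos
  · -- negative
    obtain ⟨W, hW⟩ : ∃ W : ℕ, (W : ℤ) = -B.coeff 1 := ⟨(-B.coeff 1).toNat, by
      rw [Int.toNat_of_nonneg (by linarith)]⟩
    have hW0 : 0 < W := by
      have : (0 : ℤ) < W := by rw [hW]; linarith
      exact_mod_cast this
    have hx : IsCoprime (B.coeff 0 + (W : ℤ) * (-((a : ℤ) + H - 1))) (W : ℤ) := by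
      rw [IsCoprime.add_mul_left_left_iff, hW]
      exact (IsCoprime.neg_right_iff _ _).2 hB.cop
    have h1 := b5_core Q W H hW0 _ hx
    refine le_trans (le_of_eq ?_) h1
    rw [Finset.sum_Ico_eq_sum_range, Nat.add_sub_cancel_left]
    rw [← Finset.sum_range_reflect]
    refine Finset.sum_congr rfl fun c hc => ?_
    rw [Finset.mem_range] at hc
    have h2 : ((a + (H - 1 - c) : ℕ) : ℤ) = a + H - 1 - c := by
      have : 1 + c ≤ H := by omega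
      rw [Nat.sub_sub]
      push_cast [this]
      ring
    have h4 : B.eval ((a + (H - 1 - c) : ℕ) : ℤ) =
        B.coeff 0 + (W : ℤ) * (-((a : ℤ) + H - 1)) + W * (c : ℤ) := by
      rw [hev, h2, hW]
      ring
    rw [h4]
  · obtain ⟨W, hW⟩ : ∃ W : ℕ, (W : ℤ) = B.coeff 1 := ⟨(B.coeff 1).toNat, by
      rw [Int.toNat_of_nonneg (by linarith)]⟩
    have hW0 : 0 < W := by
      have : (0 : ℤ) < W := by rw [hW]; linarith
      exact_mod_cast this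
    have hx : IsCoprime (B.coeff 0 + (W : ℤ) * a) (W : ℤ) := by
      rw [IsCoprime.add_mul_left_left_iff, hW]
      exact hB.cop
    have h1 := b5_core Q W H hW0 _ hx
    refine le_trans (le_of_eq ?_) h1
    rw [Finset.sum_Ico_eq_sum_range, Nat.add_sub_cancel_left]
    refine Finset.sum_congr rfl fun c hc => ?_
    have h4 : B.eval ((a + c : ℕ) : ℤ) = B.coeff 0 + (W : ℤ) * a + W * (c : ℤ) := by
      rw [hev, hW]
      push_cast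
      ring
    rw [h4]

/-- Proof. `Fc Q p m = Gam Q p.1 m conj χ(m)` (`gam_expand`) `= SG Q b m` with `b = 1` at `p` and `0` else, so
`‖Fc‖ ≤ 100 (1 + log Q)^3 dQ Q m` (`S1b` with `mb = b`). -/
theorem B5_Fc (Q : ℕ) (hQ : 1 ≤ Q) (p : Ch) (hp : p ∈ PC Q) (m : ℤ) :
    ‖Fc Q p m‖ ≤ 100 * (1 + Real.log Q) ^ 3 * dQ Q m := by
  classical
  have h1 := S1b Q hQ (fun q => if q = p then 1 else 0) (fun q => if q = p then 1 else 0)
    (fun q _ => by split_ifs <;> simp) m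
  have h2 : SG Q (fun q => if q = p then 1 else 0) m = Fc Q p m := by
    unfold SG Fc
    rw [← gam_expand Q p hp m, Finset.sum_eq_single_of_mem p hp]
    · beta_reduce
      rw [if_pos rfl, mul_one]
    · intro q _ hq
      beta_reduce
      rw [if_neg hq, mul_zero]
  have h3 : ∑ q ∈ PC Q, (if q = p then (1 : ℝ) else 0) = 1 := by
    rw [Finset.sum_ite_eq' (PC Q) p (fun _ => (1 : ℝ)), if_pos hp]
  rw [h2, h3, mul_one] at h1
  exact h1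

/-- Proof. `B5_Fc`, `B5_dQ`. -/
theorem B5_sq (Q A : ℕ) (hQ : 1 ≤ Q) (p : Ch) (hp : p ∈ PC Q) (B : ℤ[X]) (hB : Lin A B) (a H : ℕ)
    (hH : Q ^ 2 ≤ H) :
    ∑ n ∈ Ico a (a + H), ‖Fc Q p (B.eval (n : ℤ))‖ ^ 2 ≤ 20000 * (1 + Real.log Q) ^ 9 * H := by
  have hL : 0 ≤ Real.log Q := Real.log_nonneg (by exact_mod_cast hQ)
  have hH' : (Q : ℝ) ^ 2 ≤ H := by exact_mod_cast hH
  have h1 : ∑ n ∈ Ico a (a + H), ‖Fc Q p (B.eval (n : ℤ))‖ ^ 2 ≤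
      ∑ n ∈ Ico a (a + H), (100 * (1 + Real.log Q) ^ 3) ^ 2 * dQ Q (B.eval (n : ℤ)) ^ 2 := by
    refine Finset.sum_le_sum fun n _ => ?_
    rw [← mul_pow]
    exact pow_le_pow_left₀ (norm_nonneg _) (B5_Fc Q hQ p hp _) 2
  rw [← Finset.mul_sum] at h1
  have h2 := B5_dQ Q A B hB a H
  have h3 : (H : ℝ) * (1 + Real.log Q) ^ 3 + (Q : ℝ) ^ 2 ≤ 2 * ((1 + Real.log Q) ^ 3 * H) := by
    have h4 : (1 : ℝ) ≤ (1 + Real.log Q) ^ 3 := one_le_pow₀ (by linarith)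
    have h5 : (H : ℝ) ≤ (1 + Real.log Q) ^ 3 * H := le_mul_of_one_le_left (Nat.cast_nonneg H) h4
    nlinarith
  calc ∑ n ∈ Ico a (a + H), ‖Fc Q p (B.eval (n : ℤ))‖ ^ 2
      ≤ (100 * (1 + Real.log Q) ^ 3) ^ 2 * ∑ n ∈ Ico a (a + H), dQ Q (B.eval (n : ℤ)) ^ 2 := h1
    _ ≤ (100 * (1 + Real.log Q) ^ 3) ^ 2 * (2 * ((1 + Real.log Q) ^ 3 * H)) :=
        mul_le_mul_of_nonneg_left (h2.trans h3) (by positivity)
    _ = 20000 * (1 + Real.log Q) ^ 9 * H := by ring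

end Pool.Agent.Lib.H24P
end

-- from Lib.H24P.Z1L
section

/-!
# Project H24P, chunk Z1L (M): tuples of characters with large modulus
-/

open Finset Polynomial

namespace Pool.Agent.Lib.H24P

open Pool.Agent.Lib.H68T Pool.Agent.Lib.H18Q Pool.Agent.Lib.H59P

theorem z1l_sq (x y : ℂ) : ‖x + y‖ ^ 2 ≤ 2 * ‖x‖ ^ 2 + 2 * ‖y‖ ^ 2 := by
  have h1 : ‖x + y‖ ≤ ‖x‖ + ‖y‖ := norm_add_le x y
  have h2 : 0 ≤ ‖x + y‖ := norm_nonneg _
  nlinarith [sq_nonneg (‖x‖ - ‖y‖)]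





end Pool.Agent.Lib.H24P
end

-- from Lib.H24P.Z1S
section

/-!
# Project H24P, chunk Z1S (M/L): tuples of characters with small modulus
-/

open Finset Polynomial

namespace Pool.Agent.Lib.H24P

open Pool.Agent.Lib.H68T Pool.Agent.Lib.H18Q Pool.Agent.Lib.H59P

theorem z1s_mem_SF {D R d : ℕ} : d ∈ SF D R ↔ (1 ≤ d ∧ d ≤ D) ∧ Squarefree d ∧ Nat.Coprime d R := by
  unfold SF
  rw [mem_filter, mem_Icc]

theorem z1s_PC {Q : ℕ} (hQ : 1 ≤ Q) {p : Ch} (hp : p ∈ PC Q) : p ∈ PC (Q ^ 100) := by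
  rw [mem_PC] at hp ⊢
  refine ⟨hp.1, hp.2.1.trans ?_, hp.2.2⟩
  calc Q = Q ^ 1 := (pow_one Q).symm
    _ ≤ Q ^ 100 := Nat.pow_le_pow_right hQ (by norm_num)






end Pool.Agent.Lib.H24P
end

-- from Lib.H9S.BDL
section
/-!
H9S: pointwise bound for the projections.
-/
namespace Pool.Agent.H9S
open Finset
open Pool.Agent.Lib.H68T Pool.Agent.Lib.H18Q Pool.Agent.Lib.H59P

theorem BDL_dQ (Q : ℕ) (m : ℤ) (hm : 1 ≤ m) : dQ Q m ≤ (m.toNat.divisors.card : ℝ) := by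
  unfold dQ
  have h : (Icc 1 Q).filter (fun d : ℕ => (d : ℤ) ∣ m) ⊆ m.toNat.divisors := by
    intro d hd
    rw [mem_filter, mem_Icc] at hd
    rw [Nat.mem_divisors]
    refine ⟨?_, by omega⟩
    have h1 : ((m.toNat : ℕ) : ℤ) = m := Int.toNat_of_nonneg (by omega)
    rw [← h1] at hd
    exact_mod_cast hd.2
  exact_mod_cast Finset.card_le_card h

/-- `|Lk Q (X/Q²)| ≤ n^ε` on `[X, 4X]`. -/
theorem BDL_bd : ∃ K : ℝ, 1 ≤ K ∧ ∀ ε : ℝ, 0 < ε → ∃ n0 : ℕ, ∀ n : ℕ, n0 ≤ n → ∀ Q X : ℕ, RegP K Q X →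
    1 ≤ Q → Q ≤ n → 1 ≤ X → X ≤ n → ∀ m : ℤ, (X : ℤ) ≤ m → m ≤ 4 * X → |Lk Q (X / Q ^ 2) m| ≤ (n:ℝ) ^ ε := by
  obtain ⟨K1, C1, hK1, hC1, hmass⟩ := Pool.Agent.Lib.H59T.UM_mass
  obtain ⟨K2, hK2, hSG⟩ := Lk_SG
  refine ⟨max K1 K2, hK1.trans (le_max_left _ _), fun ε hε => ?_⟩
  obtain ⟨C, hC, hdiv⟩ := Pool.Agent.Lib.H21AP.divisor_bound (ε := ε / 2) (by positivity)
  obtain ⟨c3, hc3⟩ : ∃ c3 : ℝ, c3 = 100 * (1 + 12 / ε) ^ 3 * (C * 4 ^ (ε / 2)) * C1 := ⟨_, rfl⟩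
  have ht1 : ∀ᶠ n : ℕ in Filter.atTop, c3 ≤ (n:ℝ) ^ (ε / 4) :=
    ((tendsto_rpow_atTop (by positivity : 0 < ε / 4)).comp tendsto_natCast_atTop_atTop).eventually_ge_atTop _
  obtain ⟨n1, hn1⟩ := Filter.eventually_atTop.1 ht1
  refine ⟨max n1 1, fun n hn Q X hreg hQ hQn hX hXn m hm1 hm2 => ?_⟩
  have hn1' := hn1 n (by omega)
  have hnp : (0:ℝ) < n := by
    have : 0 < n := by omega
    exact_mod_cast this
  have hn1r : (1:ℝ) ≤ n := by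
    have : 1 ≤ n := by omega
    exact_mod_cast this
  have hK0 : 0 ≤ max K1 K2 := zero_le_one.trans (hK1.trans (le_max_left _ _))
  obtain ⟨mb, hmb0, hmbs, hmb⟩ := hmass Q X (hreg.mono hK0 (le_max_left _ _))
  have h1 := hSG Q X (hreg.mono hK0 (le_max_right _ _)) m hm1 hm2
  have h2 := S1b Q hQ (fun p => Bc Q X p m) mb (hmb m hm1 hm2) m
  have hm1' : (1:ℤ) ≤ m := by omega
  have h3 : |Lk Q (X / Q ^ 2) m| ≤ 100 * (1 + Real.log Q) ^ 3 * dQ Q m * C1 := by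
    rw [← Real.norm_eq_abs, ← Complex.norm_real, h1]
    refine h2.trans ?_
    refine mul_le_mul_of_nonneg_left hmbs ?_
    have : 0 ≤ dQ Q m := by unfold dQ; positivity
    have : 0 ≤ Real.log Q := Real.log_natCast_nonneg Q
    positivity
  refine h3.trans ?_
  have hlogQ0 : 0 ≤ Real.log Q := Real.log_natCast_nonneg Q
  have hdq0 : 0 ≤ dQ Q m := by unfold dQ; positivity
  -- divisors
  have h4 : dQ Q m ≤ (C * 4 ^ (ε / 2)) * (n:ℝ) ^ (ε / 2) := by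
    refine (BDL_dQ Q m hm1').trans ?_
    refine (hdiv m.toNat (by omega)).trans ?_
    rw [mul_assoc, ← Real.mul_rpow (by norm_num) hnp.le]
    refine mul_le_mul_of_nonneg_left ?_ hC.le
    refine Real.rpow_le_rpow (Nat.cast_nonneg _) ?_ (by positivity)
    have h5 : m.toNat ≤ 4 * n := by omega
    exact_mod_cast h5
  -- logarithm
  have h5 : (1 + Real.log Q) ^ 3 ≤ (1 + 12 / ε) ^ 3 * (n:ℝ) ^ (ε / 4) := by
    have h6 : Real.log Q ≤ Real.log n := Real.log_le_log (by exact_mod_cast hQ) (by exact_mod_cast hQn)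
    have h7 : Real.log n ≤ (n:ℝ) ^ (ε / 12) / (ε / 12) := Real.log_le_rpow_div hnp.le (by positivity)
    have h8 : (n:ℝ) ^ (ε / 12) / (ε / 12) = 12 / ε * (n:ℝ) ^ (ε / 12) := by
      field_simp
    have h9 : (1:ℝ) ≤ (n:ℝ) ^ (ε / 12) := Real.one_le_rpow hn1r (by positivity)
    have h10 : 1 + Real.log Q ≤ (1 + 12 / ε) * (n:ℝ) ^ (ε / 12) := by
      rw [h8] at h7
      have : 0 < 12 / ε := by positivity
      nlinarith
    have h11 : ((n:ℝ) ^ (ε / 12)) ^ 3 = (n:ℝ) ^ (ε / 4) := by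
      rw [← Real.rpow_natCast, ← Real.rpow_mul hnp.le]
      congr 1
      push_cast
      ring
    calc (1 + Real.log Q) ^ 3 ≤ ((1 + 12 / ε) * (n:ℝ) ^ (ε / 12)) ^ 3 := pow_le_pow_left₀ (by linarith) h10 3
      _ = (1 + 12 / ε) ^ 3 * (n:ℝ) ^ (ε / 4) := by rw [mul_pow, h11]
  have hC1' : 0 ≤ C1 := by linarith
  have hP0 : 0 ≤ (n:ℝ) ^ (ε / 2) := Real.rpow_nonneg hnp.le _
  have hP1 : 0 ≤ (n:ℝ) ^ (ε / 4) := Real.rpow_nonneg hnp.le _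
  calc 100 * (1 + Real.log Q) ^ 3 * dQ Q m * C1
      ≤ 100 * ((1 + 12 / ε) ^ 3 * (n:ℝ) ^ (ε / 4)) * ((C * 4 ^ (ε / 2)) * (n:ℝ) ^ (ε / 2)) * C1 := by
        refine mul_le_mul_of_nonneg_right ?_ hC1'
        refine mul_le_mul (mul_le_mul_of_nonneg_left h5 (by norm_num)) h4 hdq0 (by positivity)
    _ = c3 * ((n:ℝ) ^ (ε / 4) * (n:ℝ) ^ (ε / 2)) := by rw [hc3]; ring
    _ ≤ (n:ℝ) ^ (ε / 4) * ((n:ℝ) ^ (ε / 4) * (n:ℝ) ^ (ε / 2)) :=
        mul_le_mul_of_nonneg_right hn1' (mul_nonneg hP1 hP0)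
    _ = (n:ℝ) ^ ε := by
        rw [← Real.rpow_add hnp, ← Real.rpow_add hnp]
        congr 1
        ring

end Pool.Agent.H9S
end

-- from Lib.H59T.UL
section

/-!
# Project H59T, chunk UL (M): the difference of the projections at two levels
-/

open Finset

namespace Pool.Agent.Lib.H59T

open Pool.Agent.Lib.H68T Pool.Agent.Lib.H18Q Pool.Agent.Lib.H59P

/-- Proof. `DA_expand` (`H68T/DA.lean`) for `Q` and for `Q'`, both with `Y = X/Q²` (see `Lk_SG` in `H18Q/CL1.lean` for the regime); the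
coefficients are `Bc Q X p m` in both cases. `PC Q' ⊆ PC Q`. `gam_expand` (`H18Q/CA.lean`): `Gam Q p.1 m conj χ(m) = ∑_{KS Q p.1} gk`, and for
`Q'` the sum over `KS Q' p.1 = {κ ∈ KS Q p.1 : p.1 κ ≤ Q'}` (`κ ≤ Q'/r` iff `r κ ≤ Q'`), empty if `p.1 > Q'`. -/
theorem UL_expand : ∃ K : ℝ, 1 ≤ K ∧ ∀ Q Q' X : ℕ, RegP K Q X → 1 ≤ Q' → Q' ≤ Q → ∀ m : ℤ,
    (X : ℤ) ≤ m → m ≤ 4 * X →
    ((Lk Q (X / Q ^ 2) m - Lk Q' (X / Q ^ 2) m : ℝ) : ℂ) = ∑ p ∈ PC Q, Bc Q X p m * Vl Q Q' p m := by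
  obtain ⟨K1, hK1, h1⟩ := BPS_regimeP
  obtain ⟨K2, hK2, h2⟩ := regp_pow_le 2 1 1 one_pos
  refine ⟨max K1 K2, hK1.trans (le_max_left _ _), fun Q Q' X hreg hQ'1 hQ'Q m hm hm4 => ?_⟩
  have hK0 : 0 ≤ max K1 K2 := by linarith [le_max_left K1 K2]
  obtain ⟨hQ, hX, hY, hYX, hXY, -⟩ := h1 Q X (hreg.mono hK0 (le_max_left _ _))
  have hlog := h2 Q X (hreg.mono hK0 (le_max_right _ _))
  rw [Real.rpow_one, Real.rpow_one] at hlog
  have h3 : 2 * Q ≤ X := by exact_mod_cast hlog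
  have hA : (Lk Q (X / Q ^ 2) m : ℂ) = ∑ p ∈ PC Q, (∑ k ∈ KS Q p.1, gk p k m) * Bc Q X p m := by
    rw [DA_expand Q X (X / Q ^ 2) m hm hm4 (by omega) (by omega)]
    refine Finset.sum_congr rfl fun p hp => ?_
    rw [gam_expand Q p hp m]
    rfl
  have hB : (Lk Q' (X / Q ^ 2) m : ℂ) = ∑ p ∈ PC Q, (∑ k ∈ KS Q' p.1, gk p k m) * Bc Q X p m := by
    rw [DA_expand Q' X (X / Q ^ 2) m hm hm4 (by omega) (by omega)]
    have hsub : PC Q' ⊆ PC Q := by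
      intro p hp
      obtain ⟨a, b, c⟩ := mem_PC.1 hp
      exact mem_PC.2 ⟨a, b.trans hQ'Q, c⟩
    rw [← Finset.sum_subset hsub (f := fun p => (∑ k ∈ KS Q' p.1, gk p k m) * Bc Q X p m)]
    · refine Finset.sum_congr rfl fun p hp => ?_
      rw [gam_expand Q' p hp m]
      rfl
    · intro p hp hp'
      have h4 : KS Q' p.1 = ∅ := by
        rw [Finset.eq_empty_iff_forall_notMem]
        intro k hk
        have h5 := (CA_mem_KS.1 hk).1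
        obtain ⟨a, b, c⟩ := mem_PC.1 hp
        have h6 : ¬ p.1 ≤ Q' := fun h => hp' (mem_PC.2 ⟨a, h, c⟩)
        have h7 : Q' / p.1 = 0 := Nat.div_eq_of_lt (by omega)
        omega
      rw [h4, Finset.sum_empty, zero_mul]
  push_cast
  rw [hA, hB, ← Finset.sum_sub_distrib]
  refine Finset.sum_congr rfl fun p hp => ?_
  obtain ⟨a, b, c⟩ := mem_PC.1 hp
  have h8 : ∑ k ∈ KS Q p.1, gk p k m = Vl Q Q' p m + ∑ k ∈ KS Q' p.1, gk p k m := by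
    rw [← Finset.sum_filter_add_sum_filter_not (KS Q p.1) (fun κ => Q' < p.1 * κ)]
    unfold Vl
    congr 1
    refine Finset.sum_congr ?_ fun _ _ => rfl
    ext k
    rw [Finset.mem_filter, CA_mem_KS, CA_mem_KS]
    constructor
    · rintro ⟨⟨h9, h10⟩, h11⟩
      refine ⟨⟨h9.1, ?_⟩, h10⟩
      rw [Nat.le_div_iff_mul_le (by omega)]
      rw [mul_comm]
      omega
    · rintro ⟨⟨h9, h9'⟩, h10⟩
      have h11 : k * p.1 ≤ Q' := (Nat.le_div_iff_mul_le (by omega)).1 h9'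
      refine ⟨⟨⟨h9, ?_⟩, h10⟩, ?_⟩
      · rw [Nat.le_div_iff_mul_le (by omega)]
        omega
      · rw [mul_comm p.1 k]
        omega
  rw [h8]
  ring

/-- **Module LK.** Proof. `UL_expand`; `UM_mass`: `‖Bc Q X p m‖ ≤ mb p`, put `w_p = mb p + Q^(-3)`, `β_p(m) = Bc Q X p m/w_p`: at most `1`,
and `Bc_lip` (`H18Q/CL1.lean`) gives `‖β_p(m+1) - β_p(m)‖ ≤ Q³/(2X) · Q³`. `UB_one` for each `p`, times `w_p`;
`∑_p w_p ≤ C + Q² Q^(-3)` (`card_PC_le`). `Q^100 ≤ X` from `RegP K` with `K ≥ 100`. -/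
theorem LK_diff : ∃ K C : ℝ, 1 ≤ K ∧ 0 < C ∧ ∀ Q Q' X n : ℕ, RegP K Q X → 1 ≤ Q' → Q' ≤ Q → X ≤ n →
    ∀ f g W : ℤ → ℂ, (∀ x, ‖f x‖ ≤ 1) → (∀ x, ‖g x‖ ≤ 1) → (∀ x, ‖W x‖ ≤ 1) →
    ‖∑ x ∈ Icc (-(n : ℤ)) n, ∑ y ∈ Icc (-(n : ℤ)) n, f x * g y *
      (if (X : ℤ) ≤ x + y ∧ x + y ≤ 4 * X then
        ((Lk Q (X / Q ^ 2) (x + y) - Lk Q' (X / Q ^ 2) (x + y) : ℝ) : ℂ) else 0) * W (x - y)‖ ≤
      C * (n : ℝ) ^ 2 * (Q' : ℝ) ^ (-(1 / 1152 : ℝ)) := by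
  obtain ⟨K1, hK1, h1⟩ := UL_expand
  obtain ⟨K2, C2, hK2, hC2, h2⟩ := UM_mass
  obtain ⟨K3, hK3, h3⟩ := Bc_lip
  obtain ⟨K4, hK4, h4⟩ := regp_pow_le 1 100 1 one_pos
  obtain ⟨C5, hC5, h5⟩ := UB_one
  refine ⟨max (max K1 K2) (max K3 K4), C5 * (C2 + 1), hK1.trans ((le_max_left _ _).trans (le_max_left _ _)), by positivity, ?_⟩
  intro Q Q' X n hreg hQ'1 hQ'Q hXn f g W hf hg hW
  have hK0 : 0 ≤ max (max K1 K2) (max K3 K4) := by
    have := (le_max_left K1 K2).trans (le_max_left (max K1 K2) (max K3 K4))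
    linarith
  have r1 := hreg.mono hK0 ((le_max_left K1 K2).trans (le_max_left _ _))
  have r2 := hreg.mono hK0 ((le_max_right K1 K2).trans (le_max_left _ _))
  have r3 := hreg.mono hK0 ((le_max_left K3 K4).trans (le_max_right _ _))
  have r4 := hreg.mono hK0 ((le_max_right K3 K4).trans (le_max_right _ _))
  have hQ1 : 1 ≤ Q := hQ'1.trans hQ'Q
  have hQR : (1 : ℝ) ≤ Q := by exact_mod_cast hQ1
  have hQ0 : (0 : ℝ) < Q := by linarith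
  have hX0 : 0 < X := r1.X_pos (by linarith)
  have hX0' : (0 : ℝ) < X := by exact_mod_cast hX0
  have hQ100 : Q ^ 100 ≤ X := by
    have h6 := h4 Q X r4
    rw [one_mul, Real.rpow_one] at h6
    have h7 : (Q : ℝ) ^ (100 : ℝ) = (Q : ℝ) ^ (100 : ℕ) := by
      rw [← Real.rpow_natCast]
      norm_num
    rw [h7] at h6
    exact_mod_cast h6
  obtain ⟨mb, hmb0, hmbs, hmb⟩ := h2 Q X r2
  have hwp : ∀ p ∈ PC Q, 0 < mb p + ((Q : ℝ) ^ 3)⁻¹ := fun p hp => by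
    have := hmb0 p hp
    positivity
  have hsum : ∑ p ∈ PC Q, (mb p + ((Q : ℝ) ^ 3)⁻¹) ≤ C2 + 1 := by
    rw [Finset.sum_add_distrib, Finset.sum_const, nsmul_eq_mul]
    have h8 : ((PC Q).card : ℝ) * ((Q : ℝ) ^ 3)⁻¹ ≤ 1 := by
      rw [← div_eq_mul_inv, div_le_one (by positivity)]
      have h9 : ((PC Q).card : ℝ) ≤ (Q : ℝ) ^ 2 := by exact_mod_cast card_PC_le Q
      refine h9.trans ?_
      exact pow_le_pow_right₀ hQR (by norm_num)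
    linarith
  have hexp : ∀ x y : ℤ, f x * g y * (if (X : ℤ) ≤ x + y ∧ x + y ≤ 4 * X then
        ((Lk Q (X / Q ^ 2) (x + y) - Lk Q' (X / Q ^ 2) (x + y) : ℝ) : ℂ) else 0) * W (x - y) =
      ∑ p ∈ PC Q, ((mb p + ((Q : ℝ) ^ 3)⁻¹ : ℝ) : ℂ) * (f x * g y * (if (X : ℤ) ≤ x + y ∧ x + y ≤ 4 * X then
        (Bc Q X p (x + y) / ((mb p + ((Q : ℝ) ^ 3)⁻¹ : ℝ) : ℂ)) * Vl Q Q' p (x + y) else 0) * W (x - y)) := by
    intro x y
    by_cases hxy : (X : ℤ) ≤ x + y ∧ x + y ≤ 4 * X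
    · rw [if_pos hxy, h1 Q Q' X r1 hQ'1 hQ'Q (x + y) hxy.1 hxy.2, Finset.mul_sum, Finset.sum_mul]
      refine Finset.sum_congr rfl fun p hp => ?_
      rw [if_pos hxy]
      have h10 : ((mb p + ((Q : ℝ) ^ 3)⁻¹ : ℝ) : ℂ) ≠ 0 := by exact_mod_cast (hwp p hp).ne'
      generalize ((mb p + ((Q : ℝ) ^ 3)⁻¹ : ℝ) : ℂ) = c at h10 ⊢
      have h11 : Bc Q X p (x + y) = c * (Bc Q X p (x + y) / c) := by rw [mul_div_cancel₀ _ h10]
      rw [h11]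
      rw [mul_div_cancel_left₀ _ h10]
      ring
    · rw [if_neg hxy, mul_zero, zero_mul]
      symm
      refine Finset.sum_eq_zero fun p hp => ?_
      rw [if_neg hxy, mul_zero, zero_mul, mul_zero]
  have heq : (∑ x ∈ Icc (-(n : ℤ)) n, ∑ y ∈ Icc (-(n : ℤ)) n, f x * g y *
      (if (X : ℤ) ≤ x + y ∧ x + y ≤ 4 * X then
        ((Lk Q (X / Q ^ 2) (x + y) - Lk Q' (X / Q ^ 2) (x + y) : ℝ) : ℂ) else 0) * W (x - y)) =
      ∑ p ∈ PC Q, ((mb p + ((Q : ℝ) ^ 3)⁻¹ : ℝ) : ℂ) * ∑ x ∈ Icc (-(n : ℤ)) n, ∑ y ∈ Icc (-(n : ℤ)) n,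
        f x * g y * (if (X : ℤ) ≤ x + y ∧ x + y ≤ 4 * X then
        (Bc Q X p (x + y) / ((mb p + ((Q : ℝ) ^ 3)⁻¹ : ℝ) : ℂ)) * Vl Q Q' p (x + y) else 0) * W (x - y) := by
    rw [Finset.sum_congr rfl fun x _ => Finset.sum_congr rfl fun y _ => hexp x y]
    rw [Finset.sum_congr rfl fun x _ => Finset.sum_comm, Finset.sum_comm]
    refine Finset.sum_congr rfl fun p _ => ?_
    rw [Finset.mul_sum]
    refine Finset.sum_congr rfl fun x _ => ?_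
    rw [Finset.mul_sum]
  rw [heq]
  have hQ'0 : (0 : ℝ) ≤ (n : ℝ) ^ 2 * (Q' : ℝ) ^ (-(1 / 1152 : ℝ)) :=
    mul_nonneg (by positivity) (Real.rpow_nonneg (Nat.cast_nonneg _) _)
  have hone : ∀ p ∈ PC Q, ‖((mb p + ((Q : ℝ) ^ 3)⁻¹ : ℝ) : ℂ) * ∑ x ∈ Icc (-(n : ℤ)) n, ∑ y ∈ Icc (-(n : ℤ)) n,
        f x * g y * (if (X : ℤ) ≤ x + y ∧ x + y ≤ 4 * X then
        (Bc Q X p (x + y) / ((mb p + ((Q : ℝ) ^ 3)⁻¹ : ℝ) : ℂ)) * Vl Q Q' p (x + y) else 0) * W (x - y)‖ ≤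
      (mb p + ((Q : ℝ) ^ 3)⁻¹) * (C5 * (n : ℝ) ^ 2 * (Q' : ℝ) ^ (-(1 / 1152 : ℝ))) := by
    intro p hp
    have hw := hwp p hp
    rw [norm_mul, Complex.norm_real, Real.norm_eq_abs, abs_of_pos hw]
    refine mul_le_mul_of_nonneg_left ?_ hw.le
    refine h5 Q Q' X n hQ'1 hQ'Q hQ100 hXn p hp (fun m => Bc Q X p m / ((mb p + ((Q : ℝ) ^ 3)⁻¹ : ℝ) : ℂ)) ?_ ?_
      f g W hf hg hW
    · intro m hm hm4
      rw [norm_div, Complex.norm_real, Real.norm_eq_abs, abs_of_pos hw, div_le_one hw]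
      have h11 := hmb m hm hm4 p hp
      have h12 : 0 ≤ ((Q : ℝ) ^ 3)⁻¹ := by positivity
      linarith
    · intro m hm hm4
      rw [← sub_div, norm_div, Complex.norm_real, Real.norm_eq_abs, abs_of_pos hw]
      have h13 := h3 Q X r3 p m hm (by omega)
      have h14 : ((Q : ℝ) ^ 3)⁻¹ ≤ mb p + ((Q : ℝ) ^ 3)⁻¹ := by linarith [hmb0 p hp]
      have h15 : 0 < ((Q : ℝ) ^ 3)⁻¹ := by positivity
      calc ‖Bc Q X p (m + 1) - Bc Q X p m‖ / (mb p + ((Q : ℝ) ^ 3)⁻¹)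
          ≤ ((Q : ℝ) ^ 3 / (2 * X)) / ((Q : ℝ) ^ 3)⁻¹ :=
            div_le_div₀ (by positivity) h13 h15 h14
        _ = (Q : ℝ) ^ 6 / X * (1 / 2) := by
            field_simp
        _ ≤ (Q : ℝ) ^ 6 / X := by
            have h16 : 0 ≤ (Q : ℝ) ^ 6 / X := by positivity
            linarith
  refine (norm_sum_le _ _).trans ((Finset.sum_le_sum hone).trans ?_)
  rw [← Finset.sum_mul]
  calc (∑ p ∈ PC Q, (mb p + ((Q : ℝ) ^ 3)⁻¹)) * (C5 * (n : ℝ) ^ 2 * (Q' : ℝ) ^ (-(1 / 1152 : ℝ)))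
      ≤ (C2 + 1) * (C5 * (n : ℝ) ^ 2 * (Q' : ℝ) ^ (-(1 / 1152 : ℝ))) := by
        refine mul_le_mul_of_nonneg_right hsum ?_
        have := mul_nonneg hC5.le hQ'0
        linarith
    _ = C5 * (C2 + 1) * (n : ℝ) ^ 2 * (Q' : ℝ) ^ (-(1 / 1152 : ℝ)) := by ring

end Pool.Agent.Lib.H59T
end

-- from Lib.H59T.UV
section

/-!
# Project H59T, chunk UV (S): the form of `LK_diff` used in module STAR (H9S)
-/

open Finset

namespace Pool.Agent.Lib.H59T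

open Pool.Agent.Lib.H68T Pool.Agent.Lib.H18Q Pool.Agent.Lib.H59P

/-- Proof. `LK_diff` with `n = 3 X`, `f` cut off to `[2X, 3X)` and `g` to `(-X, X)`: then `x + y ∈ [X, 4X]` for the terms which are not `0`
(`Finset.sum_subset`, `Finset.sum_filter`-type manipulations); the constant is `9 C`. -/
theorem LK_box : ∃ K C : ℝ, 1 ≤ K ∧ 0 < C ∧ ∀ Q Q' X : ℕ, RegP K Q X → 1 ≤ Q' → Q' ≤ Q →
    ∀ f g W : ℤ → ℂ, (∀ x, ‖f x‖ ≤ 1) → (∀ x, ‖g x‖ ≤ 1) → (∀ x, ‖W x‖ ≤ 1) →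
    ‖∑ x ∈ Ico (2 * (X : ℤ)) (3 * X), ∑ y ∈ Ioo (-(X : ℤ)) X, f x * g y *
      ((Lk Q (X / Q ^ 2) (x + y) - Lk Q' (X / Q ^ 2) (x + y) : ℝ) : ℂ) * W (x - y)‖ ≤
      C * (X : ℝ) ^ 2 * (Q' : ℝ) ^ (-(1 / 1152 : ℝ)) := by
  classical
  obtain ⟨K, C, hK, hC, h⟩ := LK_diff
  refine ⟨K, 9 * C, hK, by positivity, ?_⟩
  intro Q Q' X hR hQ' hQQ f g W hf hg hW
  obtain ⟨f', hf'⟩ : ∃ f' : ℤ → ℂ, ∀ x, f' x = if x ∈ Ico (2 * (X : ℤ)) (3 * X) then f x else 0 := ⟨_, fun _ => rfl⟩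
  obtain ⟨g', hg'⟩ : ∃ g' : ℤ → ℂ, ∀ y, g' y = if y ∈ Ioo (-(X : ℤ)) X then g y else 0 := ⟨_, fun _ => rfl⟩
  have hf1 : ∀ x, ‖f' x‖ ≤ 1 := by
    intro x
    rw [hf' x]
    split_ifs
    · exact hf x
    · rw [norm_zero]
      exact zero_le_one
  have hg1 : ∀ y, ‖g' y‖ ≤ 1 := by
    intro y
    rw [hg' y]
    split_ifs
    · exact hg y
    · rw [norm_zero]
      exact zero_le_one
  have h1 := h Q Q' X (3 * X) hR hQ' hQQ (by omega) f' g' W hf1 hg1 hW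
  have h2 : ∑ x ∈ Icc (-((3 * X : ℕ) : ℤ)) ((3 * X : ℕ) : ℤ), ∑ y ∈ Icc (-((3 * X : ℕ) : ℤ)) ((3 * X : ℕ) : ℤ), f' x * g' y *
      (if (X : ℤ) ≤ x + y ∧ x + y ≤ 4 * X then
        ((Lk Q (X / Q ^ 2) (x + y) - Lk Q' (X / Q ^ 2) (x + y) : ℝ) : ℂ) else 0) * W (x - y) =
      ∑ x ∈ Ico (2 * (X : ℤ)) (3 * X), ∑ y ∈ Ioo (-(X : ℤ)) X, f x * g y *
      ((Lk Q (X / Q ^ 2) (x + y) - Lk Q' (X / Q ^ 2) (x + y) : ℝ) : ℂ) * W (x - y) := by
    have hs1 : Ico (2 * (X : ℤ)) (3 * X) ⊆ Icc (-((3 * X : ℕ) : ℤ)) ((3 * X : ℕ) : ℤ) := by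
      intro x hx
      rw [mem_Ico] at hx
      rw [mem_Icc]
      push_cast
      omega
    have hs2 : Ioo (-(X : ℤ)) X ⊆ Icc (-((3 * X : ℕ) : ℤ)) ((3 * X : ℕ) : ℤ) := by
      intro x hx
      rw [mem_Ioo] at hx
      rw [mem_Icc]
      push_cast
      omega
    rw [← Finset.sum_subset hs1 (fun x _ hx => Finset.sum_eq_zero fun y _ => by
      rw [hf' x, if_neg hx, zero_mul, zero_mul, zero_mul])]
    refine Finset.sum_congr rfl fun x hx => ?_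
    rw [← Finset.sum_subset hs2 (fun y _ hy => by
      rw [hg' y, if_neg hy, mul_zero, zero_mul, zero_mul])]
    refine Finset.sum_congr rfl fun y hy => ?_
    rw [hf' x, if_pos hx, hg' y, if_pos hy]
    rw [mem_Ico] at hx
    rw [mem_Ioo] at hy
    rw [if_pos (by constructor <;> omega)]
  rw [h2] at h1
  refine h1.trans (le_of_eq ?_)
  push_cast
  ring

end Pool.Agent.Lib.H59T
end

-- from Lib.H9S.O3
section
/-!
H9S, final theorem of module STAR: the operator bound for `lp(x+y) lp(x-y) - Lk(x+y) Lk(x-y)`.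
-/
namespace Pool.Agent.H9S
open Finset
open Pool.Agent.H44W (ee)
open Pool.Agent.Lib.H68T (Lk)
open Pool.Agent.Lib.H18Q (RegP fourier_smallP)
open Pool.Agent.Lib.H96G (kp km)

/-- The operator bound and the bound for the projections, with the absolute constant `K0` in the regime. -/
def OPS (K0 : ℝ) : Prop :=
  ∀ Cr : ℝ, 1 ≤ Cr → ∃ c : ℝ, 0 < c ∧ ∃ n0 : ℕ, ∀ n Q : ℕ, n0 ≤ n →
    K0 * Real.log Q ≤ Real.log n → Real.log n ≤ Cr * Real.log Q → ∀ X Z : ℕ, RegP K0 Q X →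
    1 ≤ Z → 2 * Z ≤ X → X ≤ n → ∀ f g : ℕ → ℝ, (∀ x, |f x| ≤ 1) → (∀ y, |g y| ≤ 1) →
    |∑ x ∈ Ico (2 * X) (3 * X), ∑ y ∈ Ico Z (2 * Z), f x * g y * (kp x y - km (Lk Q (X / Q ^ 2)) x y)| ≤
      (n:ℝ) ^ (2 - c)

/-- **STAR.** -/
theorem OP_main (hI : INV) : ∃ K0 : ℝ, 1 ≤ K0 ∧ ∀ K : ℝ, K0 ≤ K → OPS K := by
  obtain ⟨K1, hK1, hbd⟩ := BDL_bd
  obtain ⟨K2, C2, hK2, hC2, hLK⟩ := Pool.Agent.Lib.H59T.LK_box
  obtain ⟨K3, hfs⟩ := fourier_smallP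
  have hO2 := O2_two (O1_op (E1_inv (K3_inv (T2_box (P2_inv hI)))))
  refine ⟨max (max K1 K2) (max K3 4), hK1.trans ((le_max_left _ _).trans (le_max_left _ _)), fun K hK Cr hCr => ?_⟩
  have hKK1 : K1 ≤ K := ((le_max_left _ _).trans (le_max_left _ _)).trans hK
  have hKK2 : K2 ≤ K := ((le_max_right _ _).trans (le_max_left _ _)).trans hK
  have hKK3 : K3 ≤ K := ((le_max_left _ _).trans (le_max_right _ _)).trans hK
  have hKK4 : (4:ℝ) ≤ K := ((le_max_right _ _).trans (le_max_right _ _)).trans hK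
  have hK0 : 0 ≤ K := by linarith
  obtain ⟨c, hc, n1, h1⟩ := hO2 Cr C2 hCr hC2
  obtain ⟨n2, h2⟩ := hbd c hc
  refine ⟨c, hc, max (max n1 n2) 1, fun n Q hn hKQ hlog X Z hreg hZ hZX hXn f g hf hg => ?_⟩
  have hn1 : n1 ≤ n := by omega
  have hn2 : n2 ≤ n := by omega
  have hnp : (0:ℝ) < n := by
    have : 0 < n := by omega
    exact_mod_cast this
  have hX1 : 1 ≤ X := by omega
  have hQ4 : (4:ℝ) ≤ Q := (hreg.mono hK0 hKK4).Q_ge (by norm_num)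
  have hQ2 : 2 ≤ Q := by
    have : (2:ℝ) ≤ Q := by linarith
    exact_mod_cast this
  have hQn : Q ≤ n := by
    have hlQ : 0 ≤ Real.log Q := Real.log_natCast_nonneg Q
    have h3 : Real.log Q ≤ Real.log n := by nlinarith
    have h4 : (Q:ℝ) ≤ n := (Real.log_le_log_iff (by linarith) hnp).1 h3
    exact_mod_cast h4
  refine h1 n hn1 Q X Z hQ2 hlog hZ hZX hXn ?_ ?_ ?_ f g hf hg
  · intro Q' hQ1 hQQ W f g hW hf hg
    have h3 := hLK Q Q' X (hreg.mono hK0 hKK2) hQ1 hQQ f g W hf hg hW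
    refine le_trans (le_of_eq ?_) h3
    rw [BF, Sx, Sy]
    simp only [Lc, Complex.ofReal_sub]
  · intro th u v hu hv
    have h3 := hfs Q X (hreg.mono hK0 hKK3) th u v hu hv
    refine le_trans (le_of_eq ?_) h3
    congr 1
    refine Finset.sum_congr rfl fun m _ => ?_
    rw [Ec, lc, Lc, Complex.ofReal_sub, mul_comm th (m:ℝ)]
    rfl
  · exact h2 n hn2 Q X (hreg.mono hK0 hKK1) (by omega) hQn hX1 hXn

end Pool.Agent.H9S
end
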