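import Mathlib
import Pool.Agent.Lib.H1M.RV3.D_Goldbach_Defs
import Pool.Agent.Lib.H1M.RV3.D_H18C_ChenDefs
import Pool.Agent.Lib.H1M.RV3.M001
import Pool.Agent.Lib.H1M.RV3.M003
import Pool.Agent.Lib.H1M.RV3.M028
import Pool.Agent.Lib.H1M.RV3.M039
import Pool.Agent.Lib.H1M.RV3.M045
import Pool.Agent.Lib.H1M.RV3.M049
import Pool.Agent.Lib.H1M.RV3.M070
import Pool.Agent.Lib.H1M.RV3.M075
import Pool.Agent.Lib.H1M.RV3.M082
import Pool.Agent.Lib.H1M.RV3.M088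

/-! Merged copies (to shorten the build) of Lib.H18GB.Defs, Lib.H18GB.STRe, Lib.H18GB.Majo, Lib.H18GB.Tool1, Lib.H18GB.GR2, Lib.H18GB.GR6, Lib.H18C.Defs, Lib.H18C.RG, Lib.H59V.Defs, Lib.H59V.A1, Lib.H59V.A2, Lib.H59V.O1, Lib.H59V.O2, Lib.H59V.G0, Lib.H59V.G1, Lib.H59V.G2, Lib.H59V.G3, Lib.H59V.G4, Lib.H59C.CF, Lib.H18C.Fin, Lib.H59V.A3, Lib.H59V.A4, Lib.H59V.G5, Lib.H59V.O3, Lib.H59V.WDefs, Lib.H59V.W1, Lib.H59V.W2, Lib.H59V.W3, Lib.H59V.W4, Lib.H59V.W5, Lib.H59V.W6, Lib.H59V.W7. -/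

-- from Lib.H18GB.Defs
section

/-!
# Project GB (problem `MP_443e5f_co`): basic definitions

* `e x = exp (2 π i x)`, `nr x` distance to the nearest integer.
* `IsW w W`: the prime factors of `W` are exactly the primes `≤ w`.
* `PSet w z S`: `S` is a set of primes in `(w, z]`.
* `rho S v`: the indicator of `no p ∈ S divides v`, divided by its density `VV S`.
* `er C A w = 2 ^ (-A / C) + w ^ (-1 / C)`: the generic error.
* `lamv W v = φ(W)/W log |v|` if `|v|` is prime, `lam W r n = lamv W (r + W n)`, `uu = lam - 1`.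
-/

namespace Pool.Agent.Lib.H18GB

open Finset Pool.Agent.Lib.Sieve



/-- the prime factors of `W` are exactly the primes `≤ w` -/
def IsW (w W : ℕ) : Prop := 0 < W ∧ ∀ p : ℕ, p.Prime → (p ∣ W ↔ p ≤ w)

/-- `S` is a set of primes in `(w, z]` -/
def PSet (w z : ℕ) (S : Finset ℕ) : Prop := ∀ p ∈ S, p.Prime ∧ w < p ∧ p ≤ z





























end Pool.Agent.Lib.H18GB
end

-- from Lib.H18GB.STRe
section

/-!
# Chunk STR, part e: averages of the errors over the shifts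
-/

namespace Pool.Agent.Lib.H18GB

open Finset Pool.Agent.Lib.Sieve

/-- coprime to the sieving primes -/
def Cop (S : Finset ℕ) (α : ℤ) : Prop := ∀ p ∈ S, ¬ (p : ℤ) ∣ α

theorem Cop.mul {S : Finset ℕ} (hS : ∀ p ∈ S, p.Prime) {α β : ℤ} (h1 : Cop S α) (h2 : Cop S β) :
    Cop S (α * β) := by
  intro p hp h
  rcases (Nat.prime_iff_prime_int.mp (hS p hp)).dvd_or_dvd h with h | h
  · exact h1 p hp h
  · exact h2 p hp h










end Pool.Agent.Lib.H18GB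
end

-- from Lib.H18GB.Majo
section

/-!
# Project GB: MAJO
-/

namespace Pool.Agent.Lib.H18GB

open Finset Pool.Agent.Lib.Sieve

theorem IsW.primeFactors {w W : ℕ} (hW : IsW w W) : W.primeFactors = primesUpTo w := by
  ext p
  rw [Nat.mem_primeFactors, mem_primesUpTo]
  constructor
  · rintro ⟨h1, h2, -⟩
    exact ⟨h1, (hW.2 p h1).mp h2⟩
  · rintro ⟨h1, h2⟩
    exact ⟨h1, (hW.2 p h1).mpr h2, hW.1.ne'⟩




end Pool.Agent.Lib.H18GB
end

-- from Lib.H18GB.Tool1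
section

/-!
# Project GB: tools (helper82)

* `er_mono`, `er_le_sq` (`er C <= (er (2 C))^2`), `er_two_pow`, `er_rpow`, `er_le_two`;
* `Stp C A w z W N S`: the standing assumptions as a structure (`mono`, `zpow`: powers of `z` are
  negligible, `unitW`, `unit_small`, `unit_mul`, `unit_neg`, `unit_one`);
* `corr_sub`, `corr0_sub`, `corrAP_sub`: the correlation theorems for subfamilies of a family of forms
  indexed by arbitrary finite types, with one constant (for expanding products of `1 + rho`).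
-/

namespace Pool.Agent.Lib.H18GB

open Finset Pool.Agent.Lib.Sieve






/-! ## the setup -/

/-- standing assumptions -/
structure Stp (C A w z W N : ℕ) (S : Finset ℕ) : Prop where
  hA : C ≤ A
  hw : C ≤ w
  hz : 2 ≤ z
  hS : PSet w z S
  hW : IsW w W
  hN : z ^ (C * A) ≤ N

theorem Stp.mono {C C' A w z W N : ℕ} {S : Finset ℕ} (h : Stp C A w z W N S) (hC : C' ≤ C) :
    Stp C' A w z W N S := by
  refine ⟨hC.trans h.hA, hC.trans h.hw, h.hz, h.hS, h.hW, le_trans ?_ h.hN⟩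
  exact Nat.pow_le_pow_right (by have := h.hz; omega) (Nat.mul_le_mul_right _ hC)














end Pool.Agent.Lib.H18GB
end

-- from Lib.H18GB.GR2
section

/-!
# Project GB: GR2

Vertices are halved: `X` stands for the vertex `2 X`; `hadj X Y`: `X + Y`, `|X - Y|` odd primes.
-/

namespace Pool.Agent.Lib.H18GB

open Finset Pool.Agent.Lib.Sieve Pool.Agent.Lib.GoldbachGraph

/-- `∏_{p ∣ x, p > 2} (p - 1) / (p - 2)` -/
noncomputable def SH (x : ℕ) : ℝ :=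
  ∏ p ∈ x.primeFactors.filter (fun p => 2 < p), (((p : ℝ) - 1) / (p - 2))








theorem gr2_factor {p : ℝ} (hp : 3 ≤ p) : 1 ≤ (p - 1) / (p - 2) ∧ p / (p - 1) ≤ (p - 1) / (p - 2) := by
  constructor
  · rw [le_div_iff₀ (by linarith)]; linarith
  · rw [div_le_div_iff₀ (by linarith) (by linarith)]
    nlinarith

theorem SH_ge_one (X : ℕ) : 1 ≤ SH X := by
  unfold SH
  have : ∏ p ∈ X.primeFactors.filter (fun p => 2 < p), (1 : ℝ) ≤
      ∏ p ∈ X.primeFactors.filter (fun p => 2 < p), (((p : ℝ) - 1) / (p - 2)) := by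
    apply prod_le_prod
    · intro _ _; norm_num
    · intro p hp
      have h3 : 2 < p := (mem_filter.1 hp).2
      exact (gr2_factor (by exact_mod_cast h3)).1
  simpa using this






end Pool.Agent.Lib.H18GB
end

-- from Lib.H18GB.GR6
section

/-!
# Project GB: GR6
-/

namespace Pool.Agent.Lib.H18GB

open Finset Pool.Agent.Lib.Sieve Pool.Agent.Lib.GoldbachGraph

/-- the halved Goldbach graph on `[1, n]` -/
def HG (n : ℕ) : SimpleGraph ℕ where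
  Adj x y := hadj x y ∧ x ∈ Finset.Icc 1 n ∧ y ∈ Finset.Icc 1 n
  symm := ⟨fun _ _ h => ⟨(hadj_comm _ _).mp h.1, h.2.2, h.2.1⟩⟩
  loopless := ⟨fun x h => by
    have := h.1.2.2.1
    rw [Nat.dist_self] at this
    exact Nat.not_prime_zero this⟩



















end Pool.Agent.Lib.H18GB
end

-- from Lib.H18C.Defs
section

/-!
# Project H18C (MP_443e5f_co, graph part of H59C): definitions

Halved vertices: `X ~ Y` iff `X + Y`, `|X - Y|` are odd primes (`hadj`); `HG n` is the graph on `[1, n]`.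
The weights of H18GB2 (`Adm`) are supplemented by weights of pairs of rough numbers.
-/

open Finset Pool.Agent.Lib.Sieve Pool.Agent.Lib.GoldbachGraph Pool.Agent.Lib.H18GB

namespace Pool.Agent.Lib.H18C

noncomputable section





/-- All prime factors of `X + y` and of `X - y` are at least `n^(1/10)`. -/
def RoughPair (n X y : ℕ) : Prop :=
  ∀ p : ℕ, p.Prime → ((p : ℤ) ∣ (X : ℤ) + y ∨ (p : ℤ) ∣ (X : ℤ) - y) →
    (n : ℝ) ^ (1 / 10 : ℝ) ≤ p

/-- `A` is a large set of rough neighbours of `X`, or a large set of primes if `X = 0`. -/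
def Large (ε : ℝ) (n X : ℕ) (A : Finset ℕ) : Prop :=
  A ⊆ Finset.Icc 1 n ∧
    ((1 ≤ X ∧ (∀ y ∈ A, RoughPair n X y) ∧ ε * SH X * n / Real.log n ^ 2 ≤ A.card) ∨
      (X = 0 ∧ (∀ y ∈ A, y.Prime) ∧ ε * n / Real.log n ≤ A.card))

end

end Pool.Agent.Lib.H18C
end

-- from Lib.H18C.RG
section

/-!
# Chunk RG: assembly (large sets are connected in at most `5` steps)
-/

open Finset Pool.Agent.Lib.Sieve Pool.Agent.Lib.GoldbachGraph Pool.Agent.Lib.H18GB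

namespace Pool.Agent.Lib.H18C



/-- `A` and `A'` are at distance at most `k` -/
def Joined (n : ℕ) (A A' : Finset ℕ) (k : ℕ) : Prop :=
  ∃ y ∈ A, ∃ y' ∈ A', (HG n).edist y y' ≤ (k : ℕ∞)

theorem Joined.symm {n : ℕ} {A A' : Finset ℕ} {k : ℕ} (h : Joined n A A' k) : Joined n A' A k := by
  obtain ⟨y, hy, y', hy', h⟩ := h
  exact ⟨y', hy', y, hy, by rwa [SimpleGraph.edist_comm]⟩

theorem Joined.mono {n : ℕ} {A A' : Finset ℕ} {k l : ℕ} (h : Joined n A A' k) (hkl : k ≤ l) :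
    Joined n A A' l := by
  obtain ⟨y, hy, y', hy', h⟩ := h
  exact ⟨y, hy, y', hy', h.trans (by exact_mod_cast hkl)⟩


























end Pool.Agent.Lib.H18C
end

-- from Lib.H59V.Defs
section

/-!
# Project H59V (MP_443e5f_co): few Chen edges give diameter five

The graph of project T (`H96G`, halved coordinates) with few Chen edges added. Besides the edges of type `OT` one uses
cross edges: `x + y = p`, `x - y = 3 q`, between numbers `x ≡ y` modulo `3` not divisible by `3`.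

`GC n M L c B b` is the input: `GIn` (project T) and the two facts on the mixed kernels, the operator bound `opC` and the
lower bound `m4C` for the correlation of the model of `x ± y` (`3 ∣ x`) and of the model of `x' + y`, `(x' - y)/3`.
-/

open Finset

namespace Pool.Agent.Lib.H59V

open Pool.Agent.Lib.H68T (lp)
open Pool.Agent.Lib.GoldbachGraph (hadj hadj_comm)
open Pool.Agent.Lib.H96G
open Pool.Agent.Lib.H18C (IsOddPrime IsOddAlmostPrime)

noncomputable section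

/-- The cross kernel of the primes: `x + y` and `(x - y)/3`. -/
def kpC (x y : ℕ) : ℝ := if (3:ℤ) ∣ (x:ℤ) - y then lp ((x:ℤ) + y) * lp (((x:ℤ) - y) / 3) else 0

/-- The cross kernel of the models `l` (for `x + y`) and `l3` (for `(x - y)/3`). -/
def kmC (l l3 : ℤ → ℝ) (x y : ℕ) : ℝ := if (3:ℤ) ∣ (x:ℤ) - y then l ((x:ℤ) + y) * l3 (((x:ℤ) - y) / 3) else 0

/-- Cross edges: `x + y` an odd prime, `|x - y|` three times an odd prime. -/
def cadj (x y : ℕ) : Prop :=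
  (x + y).Prime ∧ Odd (x + y) ∧ ∃ q : ℕ, q.Prime ∧ Odd q ∧ Nat.dist x y = 3 * q

/-- Chen edges in halved coordinates. -/
def chA (x y : ℕ) : Prop := x ≠ y ∧
  ((IsOddPrime (x + y) ∧ IsOddAlmostPrime (Nat.dist x y)) ∨
    (IsOddAlmostPrime (x + y) ∧ IsOddPrime (Nat.dist x y)))

/-- Same parity, `x` divisible by `3`, `x'` not. -/
def MX (x x' : ℕ) : Prop := x % 2 = x' % 2 ∧ 3 ∣ x ∧ ¬ 3 ∣ x'

open Classical in
/-- The input. -/
structure GC (n M : ℕ) (L : ℕ → ℤ → ℝ) (c B b : ℝ) : Prop extends GIn n M L c B b where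
  M3 : 3 ∣ M
  bd3 : ∀ X Z : ℕ, Sc n M B X Z → ∀ m : ℤ, ((X / 3 : ℕ) : ℤ) ≤ m → m ≤ 4 * ((X / 3 : ℕ) : ℤ) →
    |L (X / 3) m| ≤ (n : ℝ) ^ b
  opC : ∀ X Z : ℕ, Sc n M B X Z → ∀ f g : ℕ → ℝ, (∀ x, |f x| ≤ 1) → (∀ y, |g y| ≤ 1) →
    |∑ x ∈ Ico (2 * X) (3 * X), ∑ y ∈ Ico Z (2 * Z), f x * g y * (kpC x y - kmC (L X) (L (X / 3)) x y)| ≤
      (n : ℝ) ^ (2 - c)
  m4C : ∀ X X' Z : ℕ, Sc n M B X Z → Sc n M B X' Z →
    (((Ico (2 * X) (3 * X) ×ˢ Ico (2 * X') (3 * X')).filter fun p => MX p.1 p.2 ∧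
      ∑ y ∈ Ico Z (2 * Z), km (L X) p.1 y * kmC (L X') (L (X' / 3)) p.2 y < Z * (n : ℝ) ^ (-b)).card : ℝ) ≤
      (n : ℝ) ^ (2 - c)

/-- No mixed common neighbour in `[Z, 2Z)`. -/
def FC (Z x x' : ℕ) : Prop := MX x x' ∧ ¬ ∃ y ∈ Ico Z (2 * Z), hadj x y ∧ cadj x' y

open Classical in
/-- `Γ` is a set of generic vertices of `[4Z, n]` for the mixed relation. -/
structure PC (n Z : ℕ) (s : ℝ) (Γ : Finset ℕ) : Prop where
  sub : Γ ⊆ Icc (4 * Z) n
  co : ((Icc (4 * Z) n \ Γ).card : ℝ) ≤ s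
  b1 : ∀ x ∈ Γ, (((Icc (4 * Z) n).filter fun x' => FC Z x x').card : ℝ) ≤ s
  b2 : ∀ x ∈ Γ, (((Icc (4 * Z) n).filter fun x' => FC Z x' x).card : ℝ) ≤ s

/-- The pair `h, h'` has no common neighbour of the right kind in `[Z, 2Z)`. -/
def BP (Z h h' : ℕ) : Prop :=
  (ST h h' ∧ ¬ ∃ y ∈ Ico Z (2 * Z), hadj h y ∧ hadj h' y) ∨ FC Z h h' ∨ FC Z h' h

open Classical in
/-- `Γ` is a set of hubs: contained in `[32 Z, n]`, few bad partners, many neighbours in `[8Z, 16Z)`. -/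
structure Hb (n Z : ℕ) (s t : ℝ) (Γ : Finset ℕ) : Prop where
  sub : Γ ⊆ Icc (32 * Z) n
  fw : ∀ h ∈ Γ, (((Icc (4 * Z) n).filter fun h' => BP Z h h').card : ℝ) ≤ s
  dg : ∀ h ∈ Γ, t ≤ (nb (8 * Z) h).card

/-- The graph of a finite set of pairs. -/
def EG (E : Finset (ℕ × ℕ)) : SimpleGraph ℕ := SimpleGraph.fromRel fun x y => (x, y) ∈ E

/-- The graph `HL lo n` with the pairs of `E` added. -/
def HE (lo n : ℕ) (E : Finset (ℕ × ℕ)) : SimpleGraph ℕ := HL lo n ⊔ EG E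

/-- All pairs of `E` are Chen edges inside `[lo, n]`. -/
def ChE (lo n : ℕ) (E : Finset (ℕ × ℕ)) : Prop :=
  ∀ p ∈ E, p.1 ∈ Icc lo n ∧ p.2 ∈ Icc lo n ∧ chA p.1 p.2

end

end Pool.Agent.Lib.H59V
end

-- from Lib.H59V.A1
section

/-!
# Project H59V, chunk A1 (S/M): elementary bounds for the cross kernels
-/

open Finset

namespace Pool.Agent.Lib.H59V

open Pool.Agent.Lib.H68T (lp)
open Pool.Agent.Lib.GoldbachGraph (hadj hadj_comm)
open Pool.Agent.Lib.H96G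



/-- Proof. `x + y ∈ [X, 4X]` (field `bd`); if `3 ∣ x - y` then `(x - y)/3 ∈ [X/3, 4 (X/3)]` because `3 ∣ M ∣ X` and
`X ≤ x - y ≤ 4X` (field `bd3`); `n^b * n^b = n^(2b)`. -/
theorem a1_kmC_abs {n M : ℕ} {L : ℕ → ℤ → ℝ} {c B b : ℝ} (hN : Nm n b) (h : GC n M L c B b)
    {X Z : ℕ} (hs : Sc n M B X Z) {x y : ℕ}
    (hx : x ∈ Ico (2 * X) (3 * X)) (hy : y ∈ Ico Z (2 * Z)) :
    |kmC (L X) (L (X / 3)) x y| ≤ (n : ℝ) ^ (2 * b) := by
  have h1 := Finset.mem_Ico.1 hx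
  have h2 := Finset.mem_Ico.1 hy
  have h3 := hs.le
  have h4 := hs.hi
  have h5 : 3 ∣ X := dvd_trans h.M3 hs.dX
  unfold kmC
  split_ifs with hd
  · have k1 := h.bd X Z hs ((x : ℤ) + y) (by omega) (by omega)
    have k2 := h.bd3 X Z hs (((x : ℤ) - y) / 3) (by omega) (by omega)
    rw [abs_mul, two_mul, ← hN.mul]
    exact mul_le_mul k1 k2 (abs_nonneg _) (hN.ppos b).le
  · rw [abs_zero]
    exact (hN.ppos _).le

/-- Proof. As `a1_kp_hadj`: `x + y` and `q = (x - y)/3` are primes; `x + y ≥ 2 X + Z > 2` is odd, so `x - y = 3 q` is odd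
and `q` is odd. (`Z ≥ 1`, `2 Z ≤ X`; `Nat.dist x y = x - y`.) -/
theorem a1_kpC_cadj {n M : ℕ} {B : ℝ} {X Z : ℕ} (hn : 1 ≤ n) (h : Sc n M B X Z) {x y : ℕ}
    (hx : x ∈ Ico (2 * X) (3 * X)) (hy : y ∈ Ico Z (2 * Z)) (hk : kpC x y ≠ 0) : cadj x y := by
  have h1 := Finset.mem_Ico.1 hx
  have h2 := Finset.mem_Ico.1 hy
  have h3 := h.le
  have h4 : 1 ≤ Z := a1_Z_pos hn h
  unfold kpC at hk
  by_cases hd : (3:ℤ) ∣ (x:ℤ) - y
  · rw [if_pos hd] at hk
    have k1 := left_ne_zero_of_mul hk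
    have k2 := right_ne_zero_of_mul hk
    have e1 : ((x : ℤ) + y).toNat = x + y := by omega
    have p1 : (x + y).Prime := by
      by_contra hc
      apply k1
      unfold Pool.Agent.Lib.H68T.lp
      rw [e1, if_neg hc]
    have p2 : ((((x : ℤ) - y) / 3).toNat).Prime := by
      by_contra hc
      apply k2
      unfold Pool.Agent.Lib.H68T.lp
      rw [if_neg hc]
    have o1 : Odd (x + y) := p1.odd_of_ne_two (by omega)
    obtain ⟨q, hq⟩ : ∃ q : ℕ, q = (((x : ℤ) - y) / 3).toNat := ⟨_, rfl⟩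
    have hxy : x - y = 3 * q := by omega
    have e3 : Nat.dist x y = x - y := Nat.dist_eq_sub_of_le_right (by omega)
    refine ⟨p1, o1, q, by rw [hq]; exact p2, ?_, by rw [e3, hxy]⟩
    rw [Nat.odd_iff] at o1 ⊢
    omega
  · rw [if_neg hd] at hk
    exact absurd rfl hk

end Pool.Agent.Lib.H59V
end

-- from Lib.H59V.A2
section

/-!
# Project H59V, chunk A2 (S/M): the operator bound for the cross kernel, scaled and on sets
-/

open Finset

namespace Pool.Agent.Lib.H59V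

open Pool.Agent.Lib.H96G

/-- Proof. As `A0_scale` (`H96G/A0.lean`), with the field `opC`. -/
theorem A2_scale {n M : ℕ} {L : ℕ → ℤ → ℝ} {c B b : ℝ} (h : GC n M L c B b) {X Z : ℕ}
    (hs : Sc n M B X Z) (f g : ℕ → ℝ) (F G : ℝ) (hF : 0 < F) (hG : 0 < G)
    (hf : ∀ x ∈ Ico (2 * X) (3 * X), |f x| ≤ F) (hg : ∀ y ∈ Ico Z (2 * Z), |g y| ≤ G) :
    |∑ x ∈ Ico (2 * X) (3 * X), ∑ y ∈ Ico Z (2 * Z),
      f x * g y * (kpC x y - kmC (L X) (L (X / 3)) x y)| ≤ F * G * (n : ℝ) ^ (2 - c) := by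
  classical
  have h1 := h.opC X Z hs (fun x => if x ∈ Ico (2 * X) (3 * X) then f x / F else 0)
    (fun y => if y ∈ Ico Z (2 * Z) then g y / G else 0)
    (fun x => by
      by_cases hx : x ∈ Ico (2 * X) (3 * X)
      · simp only [if_pos hx]
        rw [abs_div, abs_of_pos hF, div_le_one hF]
        exact hf x hx
      · simp only [if_neg hx]
        rw [abs_zero]
        exact zero_le_one)
    (fun y => by
      by_cases hy : y ∈ Ico Z (2 * Z)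
      · simp only [if_pos hy]
        rw [abs_div, abs_of_pos hG, div_le_one hG]
        exact hg y hy
      · simp only [if_neg hy]
        rw [abs_zero]
        exact zero_le_one)
  have e1 : ∑ x ∈ Ico (2 * X) (3 * X), ∑ y ∈ Ico Z (2 * Z),
        f x * g y * (kpC x y - kmC (L X) (L (X / 3)) x y) =
      F * G * ∑ x ∈ Ico (2 * X) (3 * X), ∑ y ∈ Ico Z (2 * Z),
        (if x ∈ Ico (2 * X) (3 * X) then f x / F else 0) *
        (if y ∈ Ico Z (2 * Z) then g y / G else 0) * (kpC x y - kmC (L X) (L (X / 3)) x y) := by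
    rw [Finset.mul_sum]
    refine Finset.sum_congr rfl fun x hx => ?_
    rw [Finset.mul_sum]
    refine Finset.sum_congr rfl fun y hy => ?_
    rw [if_pos hx, if_pos hy]
    field_simp
  rw [e1, abs_mul, abs_of_pos (mul_pos hF hG)]
  exact mul_le_mul_of_nonneg_left h1 (mul_pos hF hG).le

/-- Proof. As `a7_set` (`H96G/A7.lean`), with `A2_scale`. -/
theorem A2_set {n M : ℕ} {L : ℕ → ℤ → ℝ} {c B b : ℝ} (h : GC n M L c B b) {X Z : ℕ}
    (hs : Sc n M B X Z) {A : Finset ℕ} (hA : A ⊆ Ico (2 * X) (3 * X)) (g : ℕ → ℝ) (G : ℝ)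
    (hG : 0 < G) (hg : ∀ y ∈ Ico Z (2 * Z), |g y| ≤ G) :
    |∑ x ∈ A, ∑ y ∈ Ico Z (2 * Z), g y * (kpC x y - kmC (L X) (L (X / 3)) x y)| ≤
      G * (n : ℝ) ^ (2 - c) := by
  classical
  have e := A2_scale h hs (fun x => if x ∈ A then 1 else 0) g 1 G one_pos hG
    (fun x _ => by
      split_ifs
      · rw [abs_one]
      · rw [abs_zero]; exact zero_le_one) hg
  have e2 : ∑ x ∈ Ico (2 * X) (3 * X), ∑ y ∈ Ico Z (2 * Z),
      (fun x => if x ∈ A then (1 : ℝ) else 0) x * g y * (kpC x y - kmC (L X) (L (X / 3)) x y) =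
      ∑ x ∈ A, ∑ y ∈ Ico Z (2 * Z), g y * (kpC x y - kmC (L X) (L (X / 3)) x y) := by
    rw [← sum_subset hA]
    · refine sum_congr rfl fun x hx => sum_congr rfl fun y _ => ?_
      dsimp only
      rw [if_pos hx, one_mul]
    · intro x _ hx
      refine sum_eq_zero fun y _ => ?_
      dsimp only
      rw [if_neg hx, zero_mul, zero_mul]
  rw [e2, one_mul] at e
  exact e

end Pool.Agent.Lib.H59V
end

-- from Lib.H59V.O1
section

/-!
# Project H59V, chunk O1 (M): the cross kernels as two bilinear forms of H9S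
-/

open Finset

namespace Pool.Agent.Lib.H59V

open Pool.Agent.H9S Pool.Agent.H44W
open Pool.Agent.Lib.H68T (lp Lk)

noncomputable section

/-- The weight of the first form. -/
def Wa (v : ℤ) : ℂ := if (3:ℤ) ∣ v then lc (v / 3) else 0

/-- The weights of the second forms. -/
def Wb (Q X : ℕ) (r : ℕ) (v : ℤ) : ℂ := if 3 * v + 2 * r ≤ 4 * X then Lc Q (X / Q ^ 2) (3 * v + 2 * r) else 0

/-- `f` on the class of `r` modulo `3`. -/
def fb (f : ℕ → ℝ) (r : ℕ) (s : ℤ) : ℂ := ((f (3 * s + r).toNat : ℝ) : ℂ)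

/-- `g` on the class of `r` modulo `3`, reflected. -/
def gb (Z : ℕ) (g : ℕ → ℝ) (r : ℕ) (t : ℤ) : ℂ :=
  if ((Z / 3 : ℕ) : ℤ) ≤ -t ∧ -t < 2 * ((Z / 3 : ℕ) : ℤ) then ((g (3 * (-t) + r).toNat : ℝ) : ℂ) else 0

end

/-- First form. Proof. As `e1` in `o2_split` (`H9S/O2.lean`): `o2_x`, `o2_y1`. -/
theorem O1_a (Q X Z : ℕ) (h : 2 * Z ≤ X) (f g : ℕ → ℝ) :
    BF (Sx X) (Sy X) (Ec Q X) Wa (fun x => ((f x.toNat : ℝ) : ℂ))
        (fun y => if (Z:ℤ) ≤ y ∧ y < 2 * Z then ((g y.toNat : ℝ) : ℂ) else 0) =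
      ∑ x ∈ Ico (2 * X) (3 * X), ∑ y ∈ Ico Z (2 * Z), (f x : ℂ) * (g y : ℂ) *
        (lc ((x:ℤ) + y) - Lc Q (X / Q ^ 2) ((x:ℤ) + y)) * Wa ((x:ℤ) - y) := by
  rw [BF, o2_x]
  refine Finset.sum_congr rfl fun x _ => ?_
  rw [Int.toNat_natCast]
  have h1 : ∀ y ∈ Sy X, (f x : ℂ) * (if (Z:ℤ) ≤ y ∧ y < 2 * Z then ((g y.toNat : ℝ) : ℂ) else 0) * Ec Q X ((x:ℤ) + y) *
      Wa ((x:ℤ) - y) = (if (Z:ℤ) ≤ y ∧ y < 2 * Z then ((fun y : ℤ => ((g y.toNat : ℝ) : ℂ)) y) else 0) *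
        ((fun y : ℤ => (f x : ℂ) * Ec Q X ((x:ℤ) + y) * Wa ((x:ℤ) - y)) y) := by
    intro y _
    ring
  rw [Finset.sum_congr rfl h1, o2_y1 X Z h (fun y : ℤ => ((g y.toNat : ℝ) : ℂ))]
  refine Finset.sum_congr rfl fun y _ => ?_
  rw [Int.toNat_natCast, Ec]
  ring

/-- Second form, class `r`. Proof. `o2_x` and `o2_y2` of `H9S` for `X/3`, `Z/3` (`2 (Z/3) ≤ X/3`): the left hand side is
`∑_s ∑_w f(3s+r) g(3w+r) Ec Q (X/3) (s - w) Wb (s + w)` over `s ∈ [2(X/3), 3(X/3))`, `w ∈ [Z/3, 2(Z/3))`. There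
`3 (s + w) + 2r ≤ 4X` (`s + w ≤ 4 (X/3) - 2`), so `Wb = Lc Q (X/Q²) (3(s+w)+2r)`. -/
theorem O1_b (Q X Z r : ℕ) (hr : r < 3) (hX : 3 ∣ X) (hZ : 3 ∣ Z) (h : 2 * Z ≤ X) (f g : ℕ → ℝ) :
    BF (Sx (X / 3)) (Sy (X / 3)) (Ec Q (X / 3)) (Wb Q X r) (fb f r) (gb Z g r) =
      ∑ s ∈ Ico (2 * (X / 3)) (3 * (X / 3)), ∑ w ∈ Ico (Z / 3) (2 * (Z / 3)),
        (f (3 * s + r) : ℂ) * (g (3 * w + r) : ℂ) *
        (lc ((s:ℤ) - w) - Lc Q (X / 3 / Q ^ 2) ((s:ℤ) - w)) * Lc Q (X / Q ^ 2) (3 * ((s:ℤ) + w) + 2 * r) := by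
  obtain ⟨a, rfl⟩ := hX
  obtain ⟨z, rfl⟩ := hZ
  have ha : 3 * a / 3 = a := by omega
  have hz : 3 * z / 3 = z := by omega
  rw [ha, hz]
  have hza : 2 * z ≤ a := by omega
  rw [BF, o2_x]
  refine Finset.sum_congr rfl fun s hs => ?_
  have h1 : ∀ y ∈ Sy a, fb f r (s:ℤ) * gb (3 * z) g r y * Ec Q a ((s:ℤ) + y) * Wb Q (3 * a) r ((s:ℤ) - y) =
      (if (z:ℤ) ≤ -y ∧ -y < 2 * z then ((fun t : ℤ => ((g (3 * t + r).toNat : ℝ) : ℂ)) (-y)) else 0) *
        ((fun y : ℤ => fb f r (s:ℤ) * Ec Q a ((s:ℤ) + y) * Wb Q (3 * a) r ((s:ℤ) - y)) y) := by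
    intro y _
    rw [gb, hz]
    ring
  rw [Finset.sum_congr rfl h1, o2_y2 a z hza (fun t : ℤ => ((g (3 * t + r).toNat : ℝ) : ℂ))]
  refine Finset.sum_congr rfl fun w hw => ?_
  have e1 : (3 * (s:ℤ) + r).toNat = 3 * s + r := by omega
  have e2 : (3 * (w:ℤ) + r).toNat = 3 * w + r := by omega
  have e3 : 3 * ((s:ℤ) + w) + 2 * (r:ℤ) ≤ 4 * ((3 * a : ℕ) : ℤ) := by
    rw [mem_Ico] at hs hw
    push_cast
    omega
  simp only [fb, Wb, Ec, e1, e2, sub_neg_eq_add, ← sub_eq_add_neg]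
  rw [if_pos e3]
  ring

theorem o1_blk (a b : ℕ) (hab : a ≤ b) (F : ℕ → ℂ) :
    ∑ x ∈ Ico (3 * a) (3 * b), F x = ∑ r ∈ range 3, ∑ s ∈ Ico a b, F (3 * s + r) := by
  induction b, hab using Nat.le_induction with
  | base => simp
  | succ b hb ih =>
    have e1 : 3 * (b + 1) = 3 * b + 1 + 1 + 1 := by ring
    rw [e1, sum_Ico_succ_top (by omega), sum_Ico_succ_top (by omega), sum_Ico_succ_top (by omega), ih]
    have e2 : ∀ r ∈ range 3, ∑ s ∈ Ico a (b + 1), F (3 * s + r) = ∑ s ∈ Ico a b, F (3 * s + r) + F (3 * b + r) :=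
      fun r _ => sum_Ico_succ_top hb _
    rw [sum_congr rfl e2, sum_add_distrib, sum_range_succ (fun r => F (3 * b + r)), sum_range_succ (fun r => F (3 * b + r)),
      sum_range_succ (fun r => F (3 * b + r)), sum_range_zero]
    ring_nf

/-- Sums over pairs congruent modulo `3`. Proof. `[2X, 3X)` is the disjoint union over `r < 3` of the sets
`{3 s + r : s ∈ [2(X/3), 3(X/3))}`, `[Z, 2Z)` likewise (`3 ∣ X`, `3 ∣ Z`); `3 ∣ x - y` iff the classes are equal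
(`Finset.sum_nbij'` with `x ↦ (x % 3, x / 3)`). -/
theorem O1_class (X Z : ℕ) (hX : 3 ∣ X) (hZ : 3 ∣ Z) (φ : ℕ → ℕ → ℂ) :
    ∑ x ∈ Ico (2 * X) (3 * X), ∑ y ∈ Ico Z (2 * Z), (if (3:ℤ) ∣ (x:ℤ) - y then φ x y else 0) =
      ∑ r ∈ range 3, ∑ s ∈ Ico (2 * (X / 3)) (3 * (X / 3)), ∑ w ∈ Ico (Z / 3) (2 * (Z / 3)),
        φ (3 * s + r) (3 * w + r) := by
  obtain ⟨a, rfl⟩ := hX
  obtain ⟨z, rfl⟩ := hZ
  have ha : 3 * a / 3 = a := by omega
  have hz : 3 * z / 3 = z := by omega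
  have e1 : 2 * (3 * a) = 3 * (2 * a) := by ring
  have e2 : 3 * (3 * a) = 3 * (3 * a) := rfl
  have e3 : 2 * (3 * z) = 3 * (2 * z) := by ring
  rw [ha, hz, e1, e3, o1_blk (2 * a) (3 * a) (by omega)]
  refine sum_congr rfl fun r hr => ?_
  refine sum_congr rfl fun s _ => ?_
  rw [o1_blk z (2 * z) (by omega), sum_eq_single r]
  · refine sum_congr rfl fun w _ => ?_
    rw [if_pos]
    push_cast
    exact ⟨(s:ℤ) - w, by ring⟩
  · intro r' hr' hne
    refine sum_eq_zero fun w _ => ?_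
    rw [if_neg]
    rw [mem_range] at hr hr'
    push_cast
    omega
  · intro h1
    exact absurd hr h1

/-- **The cross kernels.** Proof. If `3 ∣ x - y`, `v = (x - y)/3`: `lp(x+y) lp(v) - L(x+y) L3(v) =
(lp(x+y) - L(x+y)) lp(v) + L(x+y) (lp(v) - L3(v))`; else both kernels are `0`. The first part is `O1_a`; the second part by
`O1_class` and `O1_b` (for `x = 3s + r`, `y = 3w + r`: `x + y = 3(s+w) + 2r`, `v = s - w`). -/
theorem O1_split (Q X Z : ℕ) (hX : 3 ∣ X) (hZ : 3 ∣ Z) (h : 2 * Z ≤ X) (f g : ℕ → ℝ) :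
    ((∑ x ∈ Ico (2 * X) (3 * X), ∑ y ∈ Ico Z (2 * Z),
      f x * g y * (kpC x y - kmC (Lk Q (X / Q ^ 2)) (Lk Q (X / 3 / Q ^ 2)) x y) : ℝ) : ℂ) =
      BF (Sx X) (Sy X) (Ec Q X) Wa (fun x => ((f x.toNat : ℝ) : ℂ))
        (fun y => if (Z:ℤ) ≤ y ∧ y < 2 * Z then ((g y.toNat : ℝ) : ℂ) else 0) +
      ∑ r ∈ range 3, BF (Sx (X / 3)) (Sy (X / 3)) (Ec Q (X / 3)) (Wb Q X r) (fb f r) (gb Z g r) := by
  have e1 : ∑ r ∈ range 3, BF (Sx (X / 3)) (Sy (X / 3)) (Ec Q (X / 3)) (Wb Q X r) (fb f r) (gb Z g r) =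
      ∑ x ∈ Ico (2 * X) (3 * X), ∑ y ∈ Ico Z (2 * Z), (if (3:ℤ) ∣ (x:ℤ) - y then
        (fun x y : ℕ => (f x : ℂ) * (g y : ℂ) * (lc (((x:ℤ) - y) / 3) - Lc Q (X / 3 / Q ^ 2) (((x:ℤ) - y) / 3)) *
          Lc Q (X / Q ^ 2) ((x:ℤ) + y)) x y else 0) := by
    rw [O1_class X Z hX hZ]
    refine sum_congr rfl fun r hr => ?_
    rw [O1_b Q X Z r (mem_range.1 hr) hX hZ h]
    refine sum_congr rfl fun s _ => sum_congr rfl fun w _ => ?_
    have e2 : (((3 * s + r : ℕ) : ℤ) - ((3 * w + r : ℕ) : ℤ)) / 3 = (s:ℤ) - w := by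
      push_cast
      omega
    have e3 : (((3 * s + r : ℕ) : ℤ) + ((3 * w + r : ℕ) : ℤ)) = 3 * ((s:ℤ) + w) + 2 * r := by
      push_cast
      ring
    simp only [e2, e3]
  rw [e1, O1_a Q X Z h, ← sum_add_distrib, Complex.ofReal_sum]
  refine sum_congr rfl fun x _ => ?_
  rw [← sum_add_distrib, Complex.ofReal_sum]
  refine sum_congr rfl fun y _ => ?_
  by_cases h3 : (3:ℤ) ∣ (x:ℤ) - y
  · simp only [kpC, kmC, Wa, if_pos h3, lc, Lc]
    push_cast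
    ring
  · simp only [kpC, kmC, Wa, if_neg h3]
    push_cast
    ring

end Pool.Agent.Lib.H59V
end

-- from Lib.H59V.O2
section

/-!
# Project H59V, chunk O2 (M): the operator bound for the cross kernels
-/

open Finset

namespace Pool.Agent.Lib.H59V

open Pool.Agent.H9S Pool.Agent.H44W
open Pool.Agent.Lib.H68T (lp Lk)

/-- **The cross operator bound.** Proof. As `O2_two` (`H9S/O2.lean`), with the constants `c'`, `n0'` of `OPW` for `(Cr, C)` and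
`c = c'/4`, `O1_split`: four forms, each at most `n^(2-c')` by `OPW`: the first one at the scale `X` with the weight `Wa`
(`‖Wa v‖ ≤ log (4n) ≤ n^c'` for `v < 4X`), the others at the scale `X/3` (`1 ≤ X/3 ≤ n`) with the weights `Wb Q X r`:
for `X/3 < v`: `3 v + 2 r ≥ X`, so `‖Wb‖ ≤ n^c ≤ n^c'` (bound for `Lk Q (X/Q²)` on `[X, 4X]`). `‖Ec Q X‖`, `‖Ec Q (X/3)‖ ≤ n^c'`
as there. `Bd` for `fb`, `gb`. `4 n^(2-c') ≤ n^(2-c)`. (`3 ∣ X`: `3 (X/3) = X`; `3 ≤ Z` gives `1 ≤ X/3`.) -/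
theorem O2_cross (h : OPW) : ∀ Cr C : ℝ, 1 ≤ Cr → 0 < C → ∃ c : ℝ, 0 < c ∧ ∃ n0 : ℕ, ∀ n : ℕ, n0 ≤ n →
    ∀ Q X Z : ℕ, 2 ≤ Q → Real.log n ≤ Cr * Real.log Q → 3 ∣ X → 3 ∣ Z → 1 ≤ Z → 2 * Z ≤ X → X ≤ n →
    LKd C Q X → LKd C Q (X / 3) →
    (∀ th : ℝ, ∀ u v : ℤ, (X:ℤ) ≤ u → v ≤ 4 * X →
      ‖∑ m ∈ Ico u v, Ec Q X m * ee (th * m)‖ ≤ X * (Q:ℝ) ^ (-(1 / 4) : ℝ)) →
    (∀ th : ℝ, ∀ u v : ℤ, ((X / 3 : ℕ):ℤ) ≤ u → v ≤ 4 * ((X / 3 : ℕ):ℤ) →
      ‖∑ m ∈ Ico u v, Ec Q (X / 3) m * ee (th * m)‖ ≤ ((X / 3 : ℕ):ℝ) * (Q:ℝ) ^ (-(1 / 4) : ℝ)) →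
    (∀ m : ℤ, (X:ℤ) ≤ m → m ≤ 4 * X → |Lk Q (X / Q ^ 2) m| ≤ (n:ℝ) ^ c) →
    (∀ m : ℤ, ((X / 3 : ℕ):ℤ) ≤ m → m ≤ 4 * ((X / 3 : ℕ):ℤ) → |Lk Q (X / 3 / Q ^ 2) m| ≤ (n:ℝ) ^ c) →
    ∀ f g : ℕ → ℝ, (∀ x, |f x| ≤ 1) → (∀ y, |g y| ≤ 1) →
    |∑ x ∈ Ico (2 * X) (3 * X), ∑ y ∈ Ico Z (2 * Z),
      f x * g y * (kpC x y - kmC (Lk Q (X / Q ^ 2)) (Lk Q (X / 3 / Q ^ 2)) x y)| ≤ (n:ℝ) ^ (2 - c) := by
  intro Cr C hCr hC
  obtain ⟨c', hc', n0', hO⟩ := h Cr C hCr hC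
  have ht1 : ∀ᶠ n : ℕ in Filter.atTop, (8:ℝ) * (4 / c') ≤ (n:ℝ) ^ (c' / 4) :=
    ((tendsto_rpow_atTop (by positivity : 0 < c' / 4)).comp tendsto_natCast_atTop_atTop).eventually_ge_atTop _
  have ht2 : ∀ᶠ n : ℕ in Filter.atTop, (8:ℝ) ≤ (n:ℝ) ^ (c' / 4) :=
    ((tendsto_rpow_atTop (by positivity : 0 < c' / 4)).comp tendsto_natCast_atTop_atTop).eventually_ge_atTop _
  obtain ⟨n1, hn1⟩ := Filter.eventually_atTop.1 (ht1.and ht2)
  refine ⟨c' / 4, by positivity, max (max n0' n1) 4,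
    fun n hn Q X Z hQ hlog hX3 hZ3 hZ hZX hXn hLK hLK3 hF hF3 hL hL3 f g hf hg => ?_⟩
  have hn0 : n0' ≤ n := by omega
  have hn4 : 4 ≤ n := by omega
  obtain ⟨hp1, hp2⟩ := hn1 n (by omega)
  have hnp : (0:ℝ) < n := by
    have : 0 < n := by omega
    exact_mod_cast this
  have hn1' : (1:ℝ) ≤ n := by
    have : 1 ≤ n := by omega
    exact_mod_cast this
  have hX1 : 1 ≤ X := by omega
  have hX31 : 1 ≤ X / 3 := by omega
  have hX3n : X / 3 ≤ n := by omega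
  set P : ℝ := (n:ℝ) ^ (c' / 4) with hP
  have hP0 : 0 < P := by rw [hP]; positivity
  have hPc : (n:ℝ) ^ c' = P ^ 4 := by
    rw [hP, ← Real.rpow_natCast, ← Real.rpow_mul hnp.le]
    congr 1
    push_cast
    ring
  -- the logarithm
  have hlog4 : Real.log (4 * n) ≤ P ^ 2 / 4 := by
    have h1 : Real.log (4 * n) ≤ 2 * Real.log n := by
      have h2 : Real.log (4 * (n:ℝ)) = Real.log 4 + Real.log n := Real.log_mul (by norm_num) hnp.ne'
      have h3 : Real.log 4 ≤ Real.log n := Real.log_le_log (by norm_num) (by exact_mod_cast hn4)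
      linarith
    have h2 : Real.log n ≤ (n:ℝ) ^ (c' / 4) / (c' / 4) := Real.log_le_rpow_div hnp.le (by positivity)
    have h3 : (n:ℝ) ^ (c' / 4) / (c' / 4) = P * (4 / c') := by
      rw [← hP]
      field_simp
    rw [h3] at h2
    have h4 : P * (4 / c') ≤ P * (P / 8) := by
      refine mul_le_mul_of_nonneg_left ?_ hP0.le
      linarith
    nlinarith
  have hlpb : ∀ m : ℤ, m ≤ 4 * X → ‖lc m‖ ≤ P ^ 2 / 4 := by
    intro m hm
    rw [lc, Complex.norm_real, Real.norm_eq_abs, Pool.Agent.Lib.H68T.lp]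
    split_ifs with hpr
    · have hm1 : (1:ℤ) ≤ m := by
        have := hpr.pos
        omega
      have hm1' : (1:ℝ) ≤ (m:ℝ) := by exact_mod_cast hm1
      rw [abs_of_nonneg (Real.log_nonneg hm1')]
      refine le_trans (Real.log_le_log (by linarith) ?_) hlog4
      have h5 : (m:ℝ) ≤ 4 * (X:ℝ) := by exact_mod_cast hm
      have h6 : (X:ℝ) ≤ n := by exact_mod_cast hXn
      linarith
    · rw [abs_zero]
      positivity
  have hLb : ∀ m : ℤ, (X:ℤ) ≤ m → m ≤ 4 * X → ‖Lc Q (X / Q ^ 2) m‖ ≤ P := by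
    intro m h1 h2
    rw [Lc, Complex.norm_real, Real.norm_eq_abs]
    exact hL m h1 h2
  have hLb3 : ∀ m : ℤ, ((X / 3 : ℕ):ℤ) ≤ m → m ≤ 4 * ((X / 3 : ℕ):ℤ) → ‖Lc Q (X / 3 / Q ^ 2) m‖ ≤ P := by
    intro m h1 h2
    rw [Lc, Complex.norm_real, Real.norm_eq_abs]
    exact hL3 m h1 h2
  have hP24 : P ^ 2 ≤ P ^ 4 := pow_le_pow_right₀ (by linarith) (by norm_num)
  have hP4 : P ^ 2 / 4 ≤ P ^ 4 := by
    have := sq_nonneg P
    linarith
  have hPP4 : P ≤ P ^ 4 := by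
    have h1 : P ^ 1 ≤ P ^ 4 := pow_le_pow_right₀ (by linarith) (by norm_num)
    rwa [pow_one] at h1
  have hP4n : (0:ℝ) ≤ P ^ 4 := by positivity
  have hE : ∀ m : ℤ, (X:ℤ) ≤ m → m ≤ 4 * X → ‖Ec Q X m‖ ≤ (n:ℝ) ^ c' := by
    intro m h1 h2
    rw [hPc, Ec]
    refine (norm_sub_le _ _).trans ?_
    have a1 := hlpb m h2
    have a2 := hLb m h1 h2
    have a3 : P ≤ P ^ 2 / 8 := by nlinarith
    linarith
  have hE3 : ∀ m : ℤ, ((X / 3 : ℕ):ℤ) ≤ m → m ≤ 4 * ((X / 3 : ℕ):ℤ) → ‖Ec Q (X / 3) m‖ ≤ (n:ℝ) ^ c' := by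
    intro m h1 h2
    rw [hPc, Ec]
    refine (norm_sub_le _ _).trans ?_
    have a1 := hlpb m (by omega)
    have a2 := hLb3 m h1 h2
    have a3 : P ≤ P ^ 2 / 8 := by nlinarith
    linarith
  have hf1 : Bd (fun x : ℤ => ((f x.toNat : ℝ) : ℂ)) := by
    intro x
    show ‖((f x.toNat : ℝ) : ℂ)‖ ≤ 1
    rw [Complex.norm_real, Real.norm_eq_abs]
    exact hf _
  have hg1 : Bd (fun y : ℤ => if (Z:ℤ) ≤ y ∧ y < 2 * Z then ((g y.toNat : ℝ) : ℂ) else 0) := by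
    intro y
    show ‖(if (Z:ℤ) ≤ y ∧ y < 2 * Z then ((g y.toNat : ℝ) : ℂ) else 0)‖ ≤ 1
    split_ifs
    · rw [Complex.norm_real, Real.norm_eq_abs]
      exact hg _
    · rw [norm_zero]
      exact zero_le_one
  have hfb : ∀ r : ℕ, Bd (fb f r) := by
    intro r x
    rw [fb, Complex.norm_real, Real.norm_eq_abs]
    exact hf _
  have hgb : ∀ r : ℕ, Bd (gb Z g r) := by
    intro r y
    rw [gb]
    split_ifs
    · rw [Complex.norm_real, Real.norm_eq_abs]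
      exact hg _
    · rw [norm_zero]
      exact zero_le_one
  have hWa : ∀ v : ℤ, (X:ℤ) < v → v < 4 * X → ‖Wa v‖ ≤ (n:ℝ) ^ c' := by
    intro v hv1 hv2
    rw [hPc, Wa]
    split_ifs
    · exact (hlpb (v / 3) (by omega)).trans hP4
    · rw [norm_zero]
      exact hP4n
  have hWb : ∀ r : ℕ, ∀ v : ℤ, ((X / 3 : ℕ):ℤ) < v → v < 4 * ((X / 3 : ℕ):ℤ) → ‖Wb Q X r v‖ ≤ (n:ℝ) ^ c' := by
    intro r v hv1 hv2
    rw [hPc, Wb]
    split_ifs with hle
    · exact (hLb _ (by omega) hle).trans hPP4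
    · rw [norm_zero]
      exact hP4n
  have r1 := hO n hn0 Q X hQ hlog hX1 hXn hLK hF hE Wa _ _ hWa hf1 hg1
  have r2 := fun r : ℕ => hO n hn0 Q (X / 3) hQ hlog hX31 hX3n hLK3 hF3 hE3 (Wb Q X r) _ _ (hWb r) (hfb r) (hgb r)
  have r3 := O1_split Q X Z hX3 hZ3 hZX f g
  have r4 : |∑ x ∈ Ico (2 * X) (3 * X), ∑ y ∈ Ico Z (2 * Z),
      f x * g y * (kpC x y - kmC (Lk Q (X / Q ^ 2)) (Lk Q (X / 3 / Q ^ 2)) x y)| ≤
      (n:ℝ) ^ (2 - c') + 3 * (n:ℝ) ^ (2 - c') := by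
    rw [← Real.norm_eq_abs, ← Complex.norm_real, r3]
    refine (norm_add_le _ _).trans (add_le_add r1 ?_)
    refine (norm_sum_le _ _).trans ?_
    refine (Finset.sum_le_sum fun r _ => r2 r).trans ?_
    rw [Finset.sum_const, Finset.card_range, nsmul_eq_mul]
    push_cast
    exact le_rfl
  refine r4.trans ?_
  have r5 : (n:ℝ) ^ (2 - c' / 4) = (n:ℝ) ^ (2 - c') * P ^ 3 := by
    rw [hP, ← Real.rpow_natCast, ← Real.rpow_mul hnp.le, ← Real.rpow_add hnp]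
    congr 1
    push_cast
    ring
  rw [r5]
  have r6 : 0 ≤ (n:ℝ) ^ (2 - c') := Real.rpow_nonneg hnp.le _
  have r7 : (4:ℝ) ≤ P ^ 3 := by
    have : (8:ℝ) ^ 3 ≤ P ^ 3 := pow_le_pow_left₀ (by norm_num) hp2 3
    linarith
  nlinarith

end Pool.Agent.Lib.H59V
end

-- from Lib.H59V.G0
section

/-!
# Project H59V, chunk G0 (S): elementary facts on the graph with added pairs
-/

open Finset

namespace Pool.Agent.Lib.H59V

open Pool.Agent.Lib.GoldbachGraph (hadj hadj_comm)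
open Pool.Agent.Lib.H96G
open Pool.Agent.Lib.H18C (IsOddPrime IsOddAlmostPrime)

/-- Proof. `3 q` is a product of the odd primes `3`, `q`; `x ≠ y` because `Nat.dist x x = 0`. -/
theorem g0_cadj {x y : ℕ} (h : cadj x y) : chA x y := by
  obtain ⟨h1, h2, q, h3, h4, h5⟩ := h
  refine ⟨?_, Or.inl ⟨⟨h1, h2⟩, ?_⟩⟩
  · rintro rfl
    rw [Nat.dist_self] at h5
    have := h3.pos
    omega
  · right
    exact ⟨3, q, ⟨Nat.prime_three, by decide⟩, ⟨h3, h4⟩, h5⟩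

/-- Proof. Definitions of `hadj` (both numbers odd primes) and `chA`. -/
theorem g0_hadj {x y : ℕ} (h : hadj x y) : chA x y := by
  obtain ⟨h1, h2, h3, h4⟩ := h
  refine ⟨?_, Or.inl ⟨⟨h1, h2⟩, Or.inl ⟨h3, h4⟩⟩⟩
  rintro rfl
  rw [Nat.dist_self] at h3
  exact Nat.not_prime_zero h3


/-- Proof. `SimpleGraph.edist_anti`; `EG` is monotone (`SimpleGraph.fromRel_adj`). -/
theorem g0_sub {lo n x y k : ℕ} {E E' : Finset (ℕ × ℕ)} (hE : E ⊆ E') (h : (HE lo n E).edist x y ≤ k) :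
    (HE lo n E').edist x y ≤ k := by
  have h1 : EG E ≤ EG E' := by
    intro a b hab
    unfold EG at hab ⊢
    rw [SimpleGraph.fromRel_adj] at hab ⊢
    exact ⟨hab.1, hab.2.imp (fun h => hE h) (fun h => hE h)⟩
  have h2 : HE lo n E ≤ HE lo n E' := sup_le_sup_left h1 _
  exact (SimpleGraph.edist_anti h2).trans h

/-- Proof. The walk with one edge (`SimpleGraph.fromRel_adj`). -/
theorem g0_e {lo n x y : ℕ} {E : Finset (ℕ × ℕ)} (h : (x, y) ∈ E ∨ (y, x) ∈ E) (hne : x ≠ y) :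
    (HE lo n E).edist x y ≤ 1 := by
  refine le_of_eq (SimpleGraph.edist_eq_one_iff_adj.2 ?_)
  unfold HE
  rw [SimpleGraph.sup_adj]
  right
  unfold EG
  rw [SimpleGraph.fromRel_adj]
  exact ⟨hne, h⟩

/-- Proof. `c0_one` of `H96G`, `g0_HL` (or directly). -/
theorem g0_a {lo n x y : ℕ} {E : Finset (ℕ × ℕ)} (h : hadj x y) (hx : x ∈ Icc lo n) (hy : y ∈ Icc lo n) :
    (HE lo n E).edist x y ≤ 1 := by
  exact (SimpleGraph.edist_anti (le_sup_left : HL lo n ≤ HE lo n E)).trans (c0_one h hx hy)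

/-- Proof. Triangle inequality. -/
theorem g0_tri {lo n x y z i j k : ℕ} {E : Finset (ℕ × ℕ)} (h : (HE lo n E).edist x y ≤ i)
    (h' : (HE lo n E).edist y z ≤ j) (hk : i + j ≤ k) : (HE lo n E).edist x z ≤ k := by
  refine (SimpleGraph.edist_triangle (v := y)).trans ((add_le_add h h').trans ?_)
  exact_mod_cast hk

/-- Proof. `hadj_comm`; definitions (`ST`, `FC`). -/
theorem g0_BP {Z h h' : ℕ} (hb : BP Z h h') : BP Z h' h := by
  rcases hb with ⟨h1, h2⟩ | h1 | h1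
  · refine Or.inl ⟨c0_ST_symm h1, fun h3 => h2 ?_⟩
    obtain ⟨y, hy, h4, h5⟩ := h3
    exact ⟨y, hy, h5, h4⟩
  · exact Or.inr (Or.inr h1)
  · exact Or.inr (Or.inl h1)

end Pool.Agent.Lib.H59V
end

-- from Lib.H59V.G1
section

/-!
# Project H59V, chunk G1 (S/M): two vertices of the same parity
-/

open Finset

namespace Pool.Agent.Lib.H59V

open Pool.Agent.Lib.GoldbachGraph (hadj hadj_comm)
open Pool.Agent.Lib.H96G

/-- **Same parity.** Proof. Three cases. (a) `3 ∣ x ↔ 3 ∣ x'`: then `ST x x'`, and `¬ BP` gives `y ∈ [Z, 2Z)` with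
`hadj x y`, `hadj x' y`; `E = ∅`, `g0_a` twice. (b) `3 ∣ x`, `¬ 3 ∣ x'`: `MX x x'`, and `¬ FC Z x x'` gives `y ∈ [Z, 2Z)`
with `hadj x y`, `cadj x' y`; `E = {(x', y)}` (`g0_cadj`; `y ≠ x'` since `chA`), `g0_a`, `g0_e`. (c) `¬ 3 ∣ x`, `3 ∣ x'`:
the same with `x`, `x'` exchanged, `E = {(x, y)}`. All points are in `Icc lo n` (`c0_mem` of `H96G`). -/
theorem G1_same {lo n Z : ℕ} (hlo : lo ≤ 1) {x x' : ℕ} (hx : x ∈ Icc (4 * Z) n)
    (hx' : x' ∈ Icc (4 * Z) n) (hpar : x % 2 = x' % 2) (hg : ¬ BP Z x x') :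
    ∃ E : Finset (ℕ × ℕ), E.card ≤ 1 ∧ ChE lo n E ∧ (HE lo n E).edist x x' ≤ 2 := by
  classical
  have hmix : ∀ u v : ℕ, u ∈ Icc (4 * Z) n → v ∈ Icc (4 * Z) n → MX u v → ¬ FC Z u v →
      ∃ y, y ∈ Icc lo n ∧ u ∈ Icc lo n ∧ v ∈ Icc lo n ∧ hadj u y ∧ cadj v y := by
    intro u v hu hv hm hf
    have h1 : ∃ y ∈ Ico Z (2 * Z), hadj u y ∧ cadj v y := by
      by_contra h2
      exact hf ⟨hm, h2⟩
    obtain ⟨y, hy, h3, h4⟩ := h1
    exact ⟨y, (c0_mem hlo hy hu).2, (c0_mem hlo hy hu).1, (c0_mem hlo hy hv).1, h3, h4⟩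
  by_cases h3 : 3 ∣ x
  · by_cases h3' : 3 ∣ x'
    · have h1 : ∃ y ∈ Ico Z (2 * Z), hadj x y ∧ hadj x' y := by
        by_contra h2
        exact hg (Or.inl ⟨⟨hpar, ⟨fun _ => h3', fun _ => h3⟩⟩, h2⟩)
      obtain ⟨y, hy, ha, hb⟩ := h1
      have e1 := c0_mem hlo hy hx
      have e2 := c0_mem hlo hy hx'
      refine ⟨∅, by simp, fun p hp => absurd hp (Finset.notMem_empty p), ?_⟩
      exact g0_tri (g0_a ha e1.1 e1.2) (g0_a ((hadj_comm _ _).mp hb) e2.2 e2.1) (le_refl 2)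
    · obtain ⟨y, hy, hxn, hxn', ha, hb⟩ := hmix x x' hx hx' ⟨hpar, h3, h3'⟩ (fun h => hg (Or.inr (Or.inl h)))
      have hc := g0_cadj hb
      refine ⟨{(x', y)}, by simp, ?_, ?_⟩
      · intro p hp
        rw [Finset.mem_singleton] at hp
        rw [hp]
        exact ⟨hxn', hy, hc⟩
      · exact g0_tri (g0_a ha hxn hy) (g0_e (Or.inr (Finset.mem_singleton_self _)) hc.1.symm) (le_refl 2)
  · by_cases h3' : 3 ∣ x'
    · obtain ⟨y, hy, hxn', hxn, ha, hb⟩ := hmix x' x hx' hx ⟨hpar.symm, h3', h3⟩ (fun h => hg (Or.inr (Or.inr h)))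
      have hc := g0_cadj hb
      refine ⟨{(x, y)}, by simp, ?_, ?_⟩
      · intro p hp
        rw [Finset.mem_singleton] at hp
        rw [hp]
        exact ⟨hxn, hy, hc⟩
      · exact g0_tri (g0_e (Or.inl (Finset.mem_singleton_self _)) hc.1) (g0_a ((hadj_comm _ _).mp ha) hy hxn')
          (le_refl 2)
    · have h1 : ∃ y ∈ Ico Z (2 * Z), hadj x y ∧ hadj x' y := by
        by_contra h2
        exact hg (Or.inl ⟨⟨hpar, ⟨fun h => absurd h h3, fun h => absurd h h3'⟩⟩, h2⟩)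
      obtain ⟨y, hy, ha, hb⟩ := h1
      have e1 := c0_mem hlo hy hx
      have e2 := c0_mem hlo hy hx'
      refine ⟨∅, by simp, fun p hp => absurd hp (Finset.notMem_empty p), ?_⟩
      exact g0_tri (g0_a ha e1.1 e1.2) (g0_a ((hadj_comm _ _).mp hb) e2.2 e2.1) (le_refl 2)

end Pool.Agent.Lib.H59V
end

-- from Lib.H59V.G2
section

/-!
# Project H59V, chunk G2 (S/M): hubs
-/

open Finset

namespace Pool.Agent.Lib.H59V

open Pool.Agent.Lib.GoldbachGraph (hadj hadj_comm)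
open Pool.Agent.Lib.H96G

/-- Proof. `nb (8 Z) h'` has at least `t > s + 3` elements, all of them in `Icc (4 Z) n` (`16 Z ≤ 32 Z ≤ h' ≤ n`); at
most `3` of them are not of opposite type (`c0_exc` of `H96G`) and at most `s` satisfy `BP Z h w` (field `fw`). -/
theorem G2_w {n Z : ℕ} {s t : ℝ} {Γ : Finset ℕ} (hΓ : Hb n Z s t Γ) (hst : s + 3 < t) {h h' : ℕ}
    (hh : h ∈ Γ) (hh' : h' ∈ Γ) : ∃ w ∈ Icc (4 * Z) n, hadj h' w ∧ OT h' w ∧ ¬ BP Z h w := by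
  classical
  by_contra hcon
  push Not at hcon
  have h1 := mem_Icc.1 (hΓ.sub hh')
  have hsub : nb (8 * Z) h' ⊆ ((Icc (4 * Z) n).filter fun y => hadj h' y ∧ ¬ OT h' y) ∪
      ((Icc (4 * Z) n).filter fun w => BP Z h w) := by
    intro w hw
    rw [nb, mem_filter, mem_Ico] at hw
    have hwI : w ∈ Icc (4 * Z) n := by
      rw [mem_Icc]
      omega
    rw [mem_union, mem_filter, mem_filter]
    by_cases h2 : OT h' w
    · right
      exact ⟨hwI, hcon w hwI hw.2 h2⟩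
    · left
      exact ⟨hwI, hw.2, h2⟩
  have h3 := (card_le_card hsub).trans (card_union_le _ _)
  have h4 : ((Icc (4 * Z) n).filter fun y => hadj h' y ∧ ¬ OT h' y).card ≤ 3 := by
    have := c0_exc h' (Icc (4 * Z) n)
    refine le_trans (le_of_eq ?_) this
    congr
  have h5 : (((Icc (4 * Z) n).filter fun w => BP Z h w).card : ℝ) ≤ s := by
    have := hΓ.fw h hh
    refine le_trans (le_of_eq ?_) this
    congr
  have h6 := hΓ.dg h' hh'
  have h7 : ((nb (8 * Z) h').card : ℝ) ≤ 3 + s := by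
    have h8 : ((nb (8 * Z) h').card : ℝ) ≤ (((Icc (4 * Z) n).filter fun y => hadj h' y ∧ ¬ OT h' y).card : ℝ) +
        (((Icc (4 * Z) n).filter fun w => BP Z h w).card : ℝ) := by
      exact_mod_cast h3
    have h9 : (((Icc (4 * Z) n).filter fun y => hadj h' y ∧ ¬ OT h' y).card : ℝ) ≤ 3 := by
      exact_mod_cast h4
    linarith
  linarith

/-- **Two hubs.** Proof. Same parity: `G1_same`. Different parity: `w` from `G2_w`; `w` has the parity of `h` (`OT h' w`),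
`G1_same` for `h`, `w` gives `E`, and `w ~ h'` is an edge (`g0_a`): `2 + 1`. (`Γ ⊆ Icc (32 Z) n ⊆ Icc (4 Z) n`;
`Icc (4 Z) n ⊆ Icc lo n` as `1 ≤ Z`.) -/
theorem G2_hubs {lo n Z : ℕ} (hlo : lo ≤ 1) (hZ : 1 ≤ Z) {s t : ℝ} {Γ : Finset ℕ} (hΓ : Hb n Z s t Γ)
    (hst : s + 3 < t) {h h' : ℕ} (hh : h ∈ Γ) (hh' : h' ∈ Γ) (hg : ¬ BP Z h h') :
    ∃ E : Finset (ℕ × ℕ), E.card ≤ 1 ∧ ChE lo n E ∧ (HE lo n E).edist h h' ≤ 3 ∧
      (h % 2 = h' % 2 → (HE lo n E).edist h h' ≤ 2) := by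
  have h1 := mem_Icc.1 (hΓ.sub hh)
  have h1' := mem_Icc.1 (hΓ.sub hh')
  have hI : h ∈ Icc (4 * Z) n := by
    rw [mem_Icc]
    omega
  have hI' : h' ∈ Icc (4 * Z) n := by
    rw [mem_Icc]
    omega
  by_cases hpar : h % 2 = h' % 2
  · obtain ⟨E, e1, e2, e3⟩ := G1_same hlo hI hI' hpar hg
    exact ⟨E, e1, e2, e3.trans (by norm_num), fun _ => e3⟩
  · obtain ⟨w, hw, w1, w2, w3⟩ := G2_w hΓ hst hh hh'
    have hpw : h % 2 = w % 2 := by
      have := w2.1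
      omega
    obtain ⟨E, e1, e2, e3⟩ := G1_same hlo hI hw hpw w3
    refine ⟨E, e1, e2, ?_, fun h2 => absurd h2 hpar⟩
    have hw' := mem_Icc.1 hw
    have h4 : (HE lo n E).edist w h' ≤ 1 := by
      refine g0_a ((hadj_comm _ _).1 w1) ?_ ?_
      · rw [mem_Icc]
        omega
      · rw [mem_Icc]
        omega
    have h5 := g0_tri (i := 2) (j := 1) (k := 3) (by exact_mod_cast e3) (by exact_mod_cast h4) le_rfl
    exact_mod_cast h5

end Pool.Agent.Lib.H59V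
end

-- from Lib.H59V.G3
section

/-!
# Project H59V, chunk G3 (S/M, ONLY MATHLIB): a small dominating set avoiding bad pairs
-/

open Finset

namespace Pool.Agent.Lib.H59V

/-- One step. Proof. Double counting: `∑_{h ∈ G \ F} #{u ∈ U : h ∈ S u} = ∑_{u ∈ U} (S u \ F).card ≥ U.card * (τ/2)`
(`S u ⊆ G`, `F.card ≤ τ/2`). If all `h ∈ G \ F` had `#{u ∈ U : h ∈ S u} < U.card * τ/(2 G.card)`, the sum would be
`< G.card * U.card * τ/(2 G.card)` (the set `G \ F` is not empty: `S u \ F` has at least `τ/2 > 0` elements for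
`u ∈ U`), a contradiction. And `#{u : h ∉ S u} = U.card - #{u : h ∈ S u}`. -/
theorem G3_step {U G F : Finset ℕ} (S : ℕ → Finset ℕ) (hU : U.Nonempty) (hS : ∀ u ∈ U, S u ⊆ G) {τ : ℝ}
    (hτ0 : 0 < τ) (hτ : ∀ u ∈ U, τ ≤ (S u).card) (hF : (F.card : ℝ) ≤ τ / 2) :
    ∃ h ∈ G, h ∉ F ∧ ((U.filter fun u => h ∉ S u).card : ℝ) ≤ U.card * (1 - τ / (2 * G.card)) := by
  by_contra hcon
  push Not at hcon
  have hGpos : 0 < (G.card : ℝ) := by
    obtain ⟨u, hu⟩ := hU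
    have h1 := hτ u hu
    have h2 : ((S u).card : ℝ) ≤ G.card := by exact_mod_cast card_le_card (hS u hu)
    linarith
  have hUpos : 0 < (U.card : ℝ) := by exact_mod_cast card_pos.2 hU
  have h1 : ∀ h ∈ G \ F, ((U.filter fun u => h ∈ S u).card : ℝ) < U.card * (τ / (2 * G.card)) := by
    intro h hh
    rw [mem_sdiff] at hh
    have h2 := hcon h hh.1 hh.2
    have h3 := Finset.card_filter_add_card_filter_not (s := U) (fun u => h ∈ S u)
    have h4 : ((U.filter fun u => h ∈ S u).card : ℝ) + ((U.filter fun u => h ∉ S u).card : ℝ) = U.card := by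
      exact_mod_cast h3
    rw [mul_sub, mul_one] at h2
    linarith
  have h4 : ∑ h ∈ G \ F, (U.filter fun u => h ∈ S u).card = ∑ u ∈ U, (S u \ F).card := by
    have e1 : ∀ h ∈ G \ F, (U.filter fun u => h ∈ S u).card = ∑ u ∈ U, if h ∈ S u then 1 else 0 :=
      fun h _ => card_filter _ _
    rw [sum_congr rfl e1, sum_comm]
    refine sum_congr rfl fun u hu => ?_
    rw [← card_filter]
    congr 1
    ext h
    have := @hS u hu h
    rw [mem_filter, mem_sdiff, mem_sdiff]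
    tauto
  have h5 : (U.card : ℝ) * (τ / 2) ≤ ∑ u ∈ U, ((S u \ F).card : ℝ) := by
    rw [← nsmul_eq_mul]
    refine card_nsmul_le_sum _ _ _ fun u hu => ?_
    have h6 : (S u).card ≤ (S u \ F).card + F.card := by
      have := le_card_sdiff F (S u)
      omega
    have h7 : ((S u).card : ℝ) ≤ ((S u \ F).card : ℝ) + F.card := by exact_mod_cast h6
    have h8 := hτ u hu
    linarith
  have h6 : ∑ h ∈ G \ F, ((U.filter fun u => h ∈ S u).card : ℝ) = ∑ u ∈ U, ((S u \ F).card : ℝ) := by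
    exact_mod_cast h4
  have hne : (G \ F).Nonempty := by
    rw [nonempty_iff_ne_empty]
    intro h7
    rw [h7, sum_empty] at h6
    rw [← h6] at h5
    have : 0 < (U.card : ℝ) * (τ / 2) := by positivity
    linarith
  have h7 := sum_lt_sum_of_nonempty hne h1
  rw [sum_const, nsmul_eq_mul, h6] at h7
  have h8 : ((G \ F).card : ℝ) ≤ G.card := by exact_mod_cast card_le_card sdiff_subset
  have h9 : ((G \ F).card : ℝ) * (U.card * (τ / (2 * G.card))) ≤ G.card * (U.card * (τ / (2 * G.card))) :=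
    mul_le_mul_of_nonneg_right h8 (by positivity)
  have h10 : (G.card : ℝ) * (U.card * (τ / (2 * G.card))) = U.card * (τ / 2) := by
    field_simp
  linarith

open Classical in
theorem g3_ind {U G : Finset ℕ} (S : ℕ → Finset ℕ) (bad : ℕ → ℕ → Prop) (hsym : ∀ h h', bad h h' → bad h' h)
    (hS : ∀ u ∈ U, S u ⊆ G) {τ σ : ℝ} (hτ0 : 0 < τ) (hτ : ∀ u ∈ U, τ ≤ (S u).card) (hσ : 0 ≤ σ)
    (hb : ∀ h ∈ G, ((G.filter fun h' => bad h h').card : ℝ) ≤ σ) {r : ℕ} (hr : r * σ ≤ τ / 2)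
    (hx : 0 ≤ 1 - τ / (2 * G.card)) (i : ℕ) (hi : i ≤ r) :
    ∃ R : Finset ℕ, R ⊆ G ∧ R.card ≤ i ∧
      ((U.filter fun u => ∀ h ∈ R, h ∉ S u).card : ℝ) ≤ U.card * (1 - τ / (2 * G.card)) ^ i ∧
      ∀ h ∈ R, ∀ h' ∈ R, h ≠ h' → ¬ bad h h' := by
  induction i with
  | zero =>
    refine ⟨∅, empty_subset _, by simp, ?_, by simp⟩
    rw [pow_zero, mul_one]
    exact_mod_cast card_le_card (filter_subset _ _)
  | succ i ih =>
    obtain ⟨R, hR, hc, hf, hbad⟩ := ih (by omega)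
    rcases (U.filter fun u => ∀ h ∈ R, h ∉ S u).eq_empty_or_nonempty with hE | hE
    · refine ⟨R, hR, by omega, ?_, hbad⟩
      rw [hE, card_empty, Nat.cast_zero]
      positivity
    · have hF : ((R.biUnion fun h => G.filter fun h' => bad h h').card : ℝ) ≤ τ / 2 := by
        have h1 : ((R.biUnion fun h => G.filter fun h' => bad h h').card : ℝ) ≤
            ∑ h ∈ R, ((G.filter fun h' => bad h h').card : ℝ) := by
          exact_mod_cast card_biUnion_le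
        have h2 : ∑ h ∈ R, ((G.filter fun h' => bad h h').card : ℝ) ≤ R.card • σ :=
          sum_le_card_nsmul _ _ _ fun h hh => hb h (hR hh)
        rw [nsmul_eq_mul] at h2
        have h3 : (R.card : ℝ) * σ ≤ r * σ := by
          refine mul_le_mul_of_nonneg_right ?_ hσ
          have : R.card ≤ r := by omega
          exact_mod_cast this
        linarith
      obtain ⟨h, hG, hhF, hcard⟩ := G3_step S hE (fun u hu => hS u (mem_filter.1 hu).1) hτ0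
        (fun u hu => hτ u (mem_filter.1 hu).1) hF
      refine ⟨insert h R, insert_subset hG hR, (card_insert_le _ _).trans (by omega), ?_, ?_⟩
      · have e1 : (U.filter fun u => ∀ h' ∈ insert h R, h' ∉ S u) =
            (U.filter fun u => ∀ h' ∈ R, h' ∉ S u).filter fun u => h ∉ S u := by
          ext u
          rw [mem_filter, mem_filter, mem_filter]
          simp only [mem_insert, forall_eq_or_imp]
          tauto
        rw [e1]
        refine hcard.trans ?_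
        rw [pow_succ, ← mul_assoc]
        exact mul_le_mul_of_nonneg_right hf hx
      · intro h1 hh1 h2 hh2 hne hb12
        rw [mem_insert] at hh1 hh2
        rcases hh1 with hh1 | hh1 <;> rcases hh2 with hh2 | hh2
        · exact hne (hh1.trans hh2.symm)
        · rw [hh1] at hb12
          exact hhF (mem_biUnion.2 ⟨h2, hh2, mem_filter.2 ⟨hG, hsym _ _ hb12⟩⟩)
        · rw [hh2] at hb12
          exact hhF (mem_biUnion.2 ⟨h1, hh1, mem_filter.2 ⟨hG, hb12⟩⟩)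
        · exact hbad h1 hh1 h2 hh2 hne hb12

open Classical in
/-- **The dominating set.** Proof. By induction on `i ≤ r` there is `R ⊆ G` with `R.card ≤ i`, no bad pairs of different
elements, and at most `U.card * (1 - τ/(2 G.card))^i` elements `u ∈ U` with `S u ∩ R = ∅`. Step: if no such `u` is left
keep `R`; otherwise `G3_step` for the remaining `u` and `F = ⋃_{h ∈ R} {h' ∈ G : bad h h'}` (at most
`r σ ≤ τ/2` elements; `i < r`), the new element `h` is not in `F` (`bad` is symmetric). (`τ ≤ G.card` when `U` is not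
empty, so `0 ≤ 1 - τ/(2 G.card)`; the case of empty `U`: `R = ∅`.) For `i = r` at most
`U.card * exp (- r τ/(2 G.card)) < 1` remain (`1 - x ≤ exp (-x)`, `Real.add_one_le_exp`, hypothesis `hl`). -/
theorem G3_dom {U G : Finset ℕ} (S : ℕ → Finset ℕ) (bad : ℕ → ℕ → Prop) (hsym : ∀ h h', bad h h' → bad h' h)
    (hS : ∀ u ∈ U, S u ⊆ G) {τ σ : ℝ} (hτ0 : 0 < τ) (hτ : ∀ u ∈ U, τ ≤ (S u).card) (hσ : 0 ≤ σ)
    (hb : ∀ h ∈ G, ((G.filter fun h' => bad h h').card : ℝ) ≤ σ) {r : ℕ} (hr : r * σ ≤ τ / 2)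
    (hl : Real.log U.card * (2 * G.card) < r * τ) :
    ∃ R : Finset ℕ, R ⊆ G ∧ R.card ≤ r ∧ (∀ u ∈ U, ∃ h ∈ R, h ∈ S u) ∧
      ∀ h ∈ R, ∀ h' ∈ R, h ≠ h' → ¬ bad h h' := by
  rcases U.eq_empty_or_nonempty with hU | hU
  · refine ⟨∅, empty_subset _, by simp, ?_, by simp⟩
    rw [hU]
    simp
  have hUpos : 0 < (U.card : ℝ) := by exact_mod_cast card_pos.2 hU
  have hτG : τ ≤ G.card := by
    obtain ⟨u, hu⟩ := hU
    have h1 := hτ u hu
    have h2 : ((S u).card : ℝ) ≤ G.card := by exact_mod_cast card_le_card (hS u hu)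
    linarith
  have hGpos : 0 < (G.card : ℝ) := by linarith
  have hx : 0 ≤ 1 - τ / (2 * G.card) := by
    rw [sub_nonneg, div_le_one (by positivity)]
    linarith
  obtain ⟨R, hR, hc, hf, hbad⟩ := g3_ind S bad hsym hS hτ0 hτ hσ hb hr hx r le_rfl
  refine ⟨R, hR, hc, ?_, hbad⟩
  have h1 : (1 - τ / (2 * G.card)) ^ r ≤ Real.exp (-(r * (τ / (2 * G.card)))) := by
    have h2 : 1 - τ / (2 * G.card) ≤ Real.exp (-(τ / (2 * G.card))) := by
      have := Real.add_one_le_exp (-(τ / (2 * (G.card : ℝ))))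
      linarith
    refine (pow_le_pow_left₀ hx h2 r).trans (le_of_eq ?_)
    rw [← Real.exp_nat_mul]
    congr 1
    ring
  have h2 : (U.card : ℝ) * Real.exp (-(r * (τ / (2 * G.card)))) < 1 := by
    have h3 : Real.log U.card < r * (τ / (2 * G.card)) := by
      rw [← mul_div_assoc, lt_div_iff₀ (by positivity)]
      exact hl
    have h4 : (U.card : ℝ) < Real.exp (r * (τ / (2 * G.card))) := by
      rwa [← Real.log_lt_iff_lt_exp hUpos]
    rw [Real.exp_neg, ← div_eq_mul_inv, div_lt_one (Real.exp_pos _)]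
    exact h4
  have h3 : ((U.filter fun u => ∀ h ∈ R, h ∉ S u).card : ℝ) < 1 :=
    (hf.trans (mul_le_mul_of_nonneg_left h1 hUpos.le)).trans_lt h2
  have h4 : (U.filter fun u => ∀ h ∈ R, h ∉ S u).card = 0 := by
    have : (U.filter fun u => ∀ h ∈ R, h ∉ S u).card < 1 := by exact_mod_cast h3
    omega
  rw [card_eq_zero] at h4
  intro u hu
  by_contra h5
  push Not at h5
  have h6 : u ∈ U.filter fun u => ∀ h ∈ R, h ∉ S u := mem_filter.2 ⟨hu, h5⟩
  rw [h4] at h6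
  exact absurd h6 (notMem_empty u)

end Pool.Agent.Lib.H59V
end

-- from Lib.H59V.G4
section

/-!
# Project H59V, chunk G4 (M): the added edges
-/

open Finset

namespace Pool.Agent.Lib.H59V

open Pool.Agent.Lib.GoldbachGraph (hadj hadj_comm)
open Pool.Agent.Lib.H96G

/-- **The added edges.** Proof. `G3_dom` with `U = Icc lo n` (at most `n + 1` elements), `G = Γ` (at most `n` elements:
`Γ ⊆ Icc (32 Z) n`, `1 ≤ Z`), `bad = BP Z` (`g0_BP`; `Γ ⊆ Icc (4 Z) n`, field `fw`), `σ = s`: the set `R` of at most `r`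
hubs. For `u ∈ Icc lo n` choose `g u ∈ R ∩ S u`. For different `h, h' ∈ R` choose the set `D h h'` of at most one pair
given by `G2_hubs` (`D h h = ∅`). Let `E` be the union of the `D h h'`, `h, h' ∈ R`, and of the pairs `(u, g u)`,
`u ∈ Bd`: at most `r² + Bd.card` pairs. Distances: `u` and `g u` are at distance at most `1` (`g0_a` if `u ∉ Bd`, else
`g0_e`; `chA` contains `u ≠ g u`), `g u` and `g v` at distance at most `3`, and at most `2` if they have the same parity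
(`g0_sub`; distance `0` if `g u = g v`), i.e. if `u` and `v` have the same parity (`OT u (g u)`, `OT v (g v)`). -/
theorem G4_add {lo n Z : ℕ} (hlo : lo ≤ 1) (hZ : 1 ≤ Z) {s t τ : ℝ} {Γ : Finset ℕ} (hs0 : 0 ≤ s)
    (hΓ : Hb n Z s t Γ) (hst : s + 3 < t) (S : ℕ → Finset ℕ) (hτ0 : 0 < τ)
    (hS : ∀ u ∈ Icc lo n, S u ⊆ Γ ∧ τ ≤ (S u).card ∧ ∀ h ∈ S u, OT u h ∧ chA u h) (Bd : Finset ℕ)
    (hBs : Bd ⊆ Icc lo n) (hBd : ∀ u ∈ Icc lo n, u ∉ Bd → ∀ h ∈ S u, hadj u h) {r : ℕ}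
    (hr : r * s ≤ τ / 2) (hl : Real.log (n + 1) * (2 * n) < r * τ) :
    ∃ E : Finset (ℕ × ℕ), (E.card : ℝ) ≤ Bd.card + (r : ℝ) ^ 2 ∧ ChE lo n E ∧
      ∀ u ∈ Icc lo n, ∀ v ∈ Icc lo n, (HE lo n E).edist u v ≤ 5 ∧
        (u % 2 = v % 2 → (HE lo n E).edist u v ≤ 4) := by
  classical
  have hsub4 : Γ ⊆ Icc (4 * Z) n := by
    intro h hh
    have h1 := Finset.mem_Icc.1 (hΓ.sub hh)
    exact Finset.mem_Icc.2 ⟨by omega, h1.2⟩
  have hsubl : Γ ⊆ Icc lo n := by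
    intro h hh
    have h1 := Finset.mem_Icc.1 (hΓ.sub hh)
    exact Finset.mem_Icc.2 ⟨by omega, h1.2⟩
  have hcU : ((Icc lo n).card : ℝ) ≤ n + 1 := by
    have h1 : (Icc lo n).card ≤ n + 1 := by
      rw [Nat.card_Icc]
      omega
    exact_mod_cast h1
  have hcG : (Γ.card : ℝ) ≤ n := by
    have h1 : Γ.card ≤ (Icc (32 * Z) n).card := Finset.card_le_card hΓ.sub
    rw [Nat.card_Icc] at h1
    have h2 : Γ.card ≤ n := by omega
    exact_mod_cast h2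
  have hlog0 : 0 ≤ Real.log ((n : ℝ) + 1) := Real.log_nonneg (by
    have h1 : (0 : ℝ) ≤ n := Nat.cast_nonneg n
    linarith)
  have hlogU : Real.log ((Icc lo n).card : ℝ) ≤ Real.log ((n : ℝ) + 1) := by
    rcases Nat.eq_zero_or_pos (Icc lo n).card with h1 | h1
    · rw [h1, Nat.cast_zero, Real.log_zero]
      exact hlog0
    · exact Real.log_le_log (by exact_mod_cast h1) hcU
  have hl' : Real.log ((Icc lo n).card : ℝ) * (2 * (Γ.card : ℝ)) < r * τ := by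
    refine lt_of_le_of_lt ?_ hl
    exact mul_le_mul hlogU (by linarith) (by positivity) hlog0
  obtain ⟨R, hRΓ, hRr, hdom, hgood⟩ := G3_dom (U := Icc lo n) (G := Γ) S (BP Z) (fun h h' hb => g0_BP hb)
    (fun u hu => (hS u hu).1) hτ0 (fun u hu => (hS u hu).2.1) hs0
    (fun h hh => by
      refine le_trans ?_ (hΓ.fw h hh)
      have h1 : (Γ.filter fun h' => BP Z h h').card ≤ ((Icc (4 * Z) n).filter fun h' => BP Z h h').card :=
        Finset.card_le_card (Finset.filter_subset_filter _ hsub4)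
      exact_mod_cast h1) hr hl'
  choose! g hg using hdom
  have hD : ∀ h h' : ℕ, ∃ E : Finset (ℕ × ℕ), E.card ≤ 1 ∧ ChE lo n E ∧ (h ∈ R → h' ∈ R →
      (HE lo n E).edist h h' ≤ (3 : ℕ) ∧ (h % 2 = h' % 2 → (HE lo n E).edist h h' ≤ (2 : ℕ))) := by
    intro h h'
    by_cases hh : h ∈ R ∧ h' ∈ R
    · by_cases heq : h = h'
      · subst heq
        refine ⟨∅, by simp, fun p hp => absurd hp (Finset.notMem_empty p), fun _ _ => ?_⟩
        rw [SimpleGraph.edist_self]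
        exact ⟨zero_le, fun _ => zero_le⟩
      · obtain ⟨E, h1, h2, h3, h4⟩ := G2_hubs hlo hZ hΓ hst (hRΓ hh.1) (hRΓ hh.2) (hgood h hh.1 h' hh.2 heq)
        exact ⟨E, h1, h2, fun _ _ => ⟨h3, h4⟩⟩
    · refine ⟨∅, by simp, fun p hp => absurd hp (Finset.notMem_empty p), fun h1 h2 => absurd ⟨h1, h2⟩ hh⟩
  choose D hD1 hD2 hD3 using hD
  have hE1 : ∀ h ∈ R, ∀ h' ∈ R, D h h' ⊆ (R ×ˢ R).biUnion (fun p => D p.1 p.2) ∪ Bd.image (fun u => (u, g u)) := by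
    intro h hh h' hh'
    refine Finset.Subset.trans ?_ Finset.subset_union_left
    have hm : (h, h') ∈ R ×ˢ R := Finset.mem_product.2 ⟨hh, hh'⟩
    exact Finset.subset_biUnion_of_mem (fun p : ℕ × ℕ => D p.1 p.2) hm
  have hgl : ∀ u ∈ Icc lo n, g u ∈ Icc lo n := fun u hu => hsubl (hRΓ (hg u hu).1)
  have hone : ∀ u ∈ Icc lo n, (HE lo n ((R ×ˢ R).biUnion (fun p => D p.1 p.2) ∪ Bd.image (fun u => (u, g u)))).edist u (g u) ≤ (1 : ℕ) := by
    intro u hu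
    by_cases hb : u ∈ Bd
    · exact g0_e (Or.inl (Finset.mem_union_right _ (Finset.mem_image_of_mem _ hb)))
        ((hS u hu).2.2 (g u) (hg u hu).2).2.1
    · exact g0_a (hBd u hu hb (g u) (hg u hu).2) hu (hgl u hu)
  refine ⟨(R ×ˢ R).biUnion (fun p => D p.1 p.2) ∪ Bd.image (fun u => (u, g u)), ?_, ?_, ?_⟩
  · have h1 : ((R ×ˢ R).biUnion (fun p => D p.1 p.2) ∪ Bd.image (fun u => (u, g u))).card ≤ r * r + Bd.card := by
      refine (Finset.card_union_le _ _).trans (Nat.add_le_add ?_ Finset.card_image_le)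
      refine (Finset.card_biUnion_le_card_mul _ _ 1 (fun p _ => hD1 p.1 p.2)).trans ?_
      rw [mul_one, Finset.card_product]
      exact Nat.mul_le_mul hRr hRr
    have h2 : (((R ×ˢ R).biUnion (fun p => D p.1 p.2) ∪ Bd.image (fun u => (u, g u))).card : ℝ) ≤ r * r + Bd.card := by
      exact_mod_cast h1
    rw [sq]
    linarith
  · intro p hp
    rcases Finset.mem_union.1 hp with hp | hp
    · obtain ⟨q, hq, hpq⟩ := Finset.mem_biUnion.1 hp
      exact hD2 q.1 q.2 p hpq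
    · obtain ⟨u, hu, rfl⟩ := Finset.mem_image.1 hp
      exact ⟨hBs hu, hgl u (hBs hu), ((hS u (hBs hu)).2.2 (g u) (hg u (hBs hu)).2).2⟩
  · intro u hu v hv
    have du := hone u hu
    have dv := hone v hv
    rw [SimpleGraph.edist_comm] at dv
    have hR := hD3 (g u) (g v) (hg u hu).1 (hg v hv).1
    have h3 := g0_sub (hE1 (g u) (hg u hu).1 (g v) (hg v hv).1) hR.1
    refine ⟨g0_tri (g0_tri du h3 (le_refl 4)) dv (le_refl 5), fun hpar => ?_⟩
    have ou := ((hS u hu).2.2 (g u) (hg u hu).2).1.1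
    have ov := ((hS v hv).2.2 (g v) (hg v hv).2).1.1
    have h2 := g0_sub (hE1 (g u) (hg u hu).1 (g v) (hg v hv).1) (hR.2 (by omega))
    exact g0_tri (g0_tri du h2 (le_refl 3)) dv (le_refl 4)

end Pool.Agent.Lib.H59V
end

-- from Lib.H59C.CF
section

/-!
# CF: neighbours in the Chen graph
-/

open Finset

namespace Pool.Agent.Lib.H59C

/-- A prime or a product of two primes. -/
def P2 (a : ℕ) : Prop := a.Prime ∨ ∃ r s : ℕ, r.Prime ∧ s.Prime ∧ a = r * s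

/-- Chen neighbours (in halved form): one of `X + y`, `|X - y|` is a prime and the other one a prime or a product of two
primes, without prime factors below `n^(1/10)`. -/
def ChenAdj (n X y : ℕ) : Prop :=
  (((X + y).Prime ∧ P2 (Nat.dist X y)) ∨ ((Nat.dist X y).Prime ∧ P2 (X + y))) ∧
    ∀ p : ℕ, p.Prime → (p ∣ X + y ∨ p ∣ Nat.dist X y) → (n : ℝ) ^ (1 / 10 : ℝ) ≤ p

theorem CF_hl (X : ℕ) (hX : X ≠ 0) : hl (2 * X) = hl X := by
  unfold hl
  refine Finset.prod_congr ?_ fun q _ => rfl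
  ext q
  rw [Finset.mem_filter, Finset.mem_filter, Nat.mem_primeFactors, Nat.mem_primeFactors]
  constructor
  · rintro ⟨⟨h1, h2, _⟩, h4⟩
    refine ⟨⟨h1, ?_, hX⟩, h4⟩
    rcases h1.dvd_mul.1 h2 with h | h
    · have := Nat.le_of_dvd (by norm_num) h
      omega
    · exact h
  · rintro ⟨⟨h1, h2, _⟩, h4⟩
    exact ⟨⟨h1, dvd_mul_of_dvd_right h2 2, by omega⟩, h4⟩

theorem CF_pow (n p : ℕ) (hn : 256 ≤ n) (h : n ≤ 16 * p) : (n : ℝ) ^ (1 / 10 : ℝ) ≤ p := by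
  have hn1 : (256 : ℝ) ≤ n := by exact_mod_cast hn
  have h1 : (n : ℝ) ^ (1 / 10 : ℝ) ≤ (n : ℝ) ^ (1 / 2 : ℝ) :=
    Real.rpow_le_rpow_of_exponent_le (by linarith) (by norm_num)
  rw [← Real.sqrt_eq_rpow] at h1
  have h2 : (16 : ℝ) ≤ Real.sqrt n := by
    rw [Real.le_sqrt (by norm_num) (by linarith)]
    norm_num
    exact_mod_cast hn
  have h3 := Real.mul_self_sqrt (show (0 : ℝ) ≤ n by linarith)
  have h4 : (n : ℝ) ≤ 16 * p := by exact_mod_cast h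
  nlinarith

open Classical in
theorem CF_good {n N y1 y2 p : ℕ} (h : p ∈ Good n N y1 y2) : (y1 < p ∧ p ≤ y2 ∧ p.Prime) ∧
    (∀ q : ℕ, q.Prime → q ∣ Nat.dist N p → (n : ℝ) ^ (1 / 10 : ℝ) ≤ q) ∧ P2 (Nat.dist N p) := by
  unfold Good at h
  rw [Finset.mem_filter, mem_Sq] at h
  exact ⟨⟨h.1.1.1, h.1.1.2, h.1.2⟩, h.2⟩

theorem CF_win1 (n X : ℕ) (hn : 256 ≤ n) (hX : 1 ≤ X) (h : 4 * X ≤ n) :
    Win n (2 * X) (3 * n / 4) n :=
  ⟨by omega, ⟨X, rfl⟩, by omega, by omega, le_rfl, by omega, by omega, Or.inr ⟨by omega, by omega⟩⟩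

theorem CF_win2 (n X : ℕ) (hn : 256 ≤ n) (hX : X ≤ n) (h : n < 4 * X) :
    Win n (2 * X) (X / 2) (X - 1) :=
  ⟨by omega, ⟨X, rfl⟩, by omega, by omega, by omega, by omega, by omega,
    Or.inl ⟨by omega, by omega⟩⟩

open Classical in
/-- **Every vertex has many Chen neighbours.**

Proof. `chen_window` with `N = 2 X` (`hl (2 X) = hl X`). If `4 X ≤ n`: the window `y1 = 3 n/4`, `y2 = n`, and `y = p - X`
(`X + y = p`, `|X - y| = p - 2 X`). Otherwise `y1 = X/2`, `y2 = X - 1` and `y = X - p` (`|X - y| = p`, `X + y = 2 X - p`). The map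
`p ↦ y` is injective, `1 ≤ y ≤ n`, and `p ≥ n/16 ≥ n^(1/10)`. -/
theorem chen_nbrs : ∃ c : ℝ, 0 < c ∧ ∃ n0 : ℕ, ∀ n : ℕ, n0 ≤ n → ∀ X ∈ Icc 1 n,
    c * hl X * n / Real.log n ^ 2 ≤ (((Icc 1 n).filter (fun y => ChenAdj n X y)).card : ℝ) := by
  obtain ⟨c, hc, n0, h⟩ := chen_window
  refine ⟨c, hc, max n0 256, fun n hn X hX => ?_⟩
  have hn0 : n0 ≤ n := (le_max_left _ _).trans hn
  have hn1 : 256 ≤ n := (le_max_right _ _).trans hn
  rw [Finset.mem_Icc] at hX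
  rw [← CF_hl X (by omega)]
  by_cases h4 : 4 * X ≤ n
  · have hW := CF_win1 n X hn1 hX.1 h4
    refine (h n hn0 _ _ _ hW).trans ?_
    have hcard : (Good n (2 * X) (3 * n / 4) n).card ≤
        ((Icc 1 n).filter (fun y => ChenAdj n X y)).card := by
      refine Finset.card_le_card_of_injOn (fun p => p - X) ?_ ?_
      · intro p hp
        obtain ⟨⟨h1, h2, h3⟩, h5, h6⟩ := CF_good hp
        have e1 : X + (p - X) = p := by omega
        have e2 : Nat.dist X (p - X) = Nat.dist (2 * X) p := by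
          unfold Nat.dist
          omega
        simp only [Finset.coe_filter, Set.mem_setOf_eq, Finset.mem_Icc]
        refine ⟨⟨by omega, by omega⟩, Or.inl ⟨?_, ?_⟩, ?_⟩
        · rw [e1]; exact h3
        · rw [e2]; exact h6
        · intro q hq hqd
          rw [e1, e2] at hqd
          rcases hqd with hd | hd
          · rw [Nat.prime_dvd_prime_iff_eq hq h3] at hd
            rw [hd]
            exact CF_pow n p hn1 (by omega)
          · exact h5 q hq hd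
      · intro p hp q hq hpq
        obtain ⟨⟨h1, h2, h3⟩, _⟩ := CF_good hp
        obtain ⟨⟨h1', h2', h3'⟩, _⟩ := CF_good hq
        simp only at hpq
        omega
    exact_mod_cast hcard
  · push Not at h4
    have hW := CF_win2 n X hn1 hX.2 h4
    refine (h n hn0 _ _ _ hW).trans ?_
    have hcard : (Good n (2 * X) (X / 2) (X - 1)).card ≤
        ((Icc 1 n).filter (fun y => ChenAdj n X y)).card := by
      refine Finset.card_le_card_of_injOn (fun p => X - p) ?_ ?_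
      · intro p hp
        obtain ⟨⟨h1, h2, h3⟩, h5, h6⟩ := CF_good hp
        have e1 : Nat.dist X (X - p) = p := by
          unfold Nat.dist
          omega
        have e2 : X + (X - p) = Nat.dist (2 * X) p := by
          unfold Nat.dist
          omega
        simp only [Finset.coe_filter, Set.mem_setOf_eq, Finset.mem_Icc]
        refine ⟨⟨by omega, by omega⟩, Or.inr ⟨?_, ?_⟩, ?_⟩
        · rw [e1]; exact h3
        · rw [e2]; exact h6
        · intro q hq hqd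
          rw [e1, e2] at hqd
          rcases hqd with hd | hd
          · exact h5 q hq hd
          · rw [Nat.prime_dvd_prime_iff_eq hq h3] at hd
            rw [hd]
            exact CF_pow n p hn1 (by omega)
      · intro p hp q hq hpq
        obtain ⟨⟨h1, h2, h3⟩, _⟩ := CF_good hp
        obtain ⟨⟨h1', h2', h3'⟩, _⟩ := CF_good hq
        simp only at hpq
        omega
    exact_mod_cast hcard

end Pool.Agent.Lib.H59C
end

-- from Lib.H18C.Fin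
section

/-!
# Chen edges and Goldbach edges: assembly for both families of graphs
-/

open Finset Pool.Agent.Lib.H18GB Pool.Agent.Lib.GoldbachGraph Pool.Agent.Goldbach

namespace Pool.Agent.Lib.H18C

theorem fin_pow (b b' C D : ℝ) (hb' : 0 < b') (h : b' < b) :
    ∀ᶠ y : ℝ in Filter.atTop, C * y ^ b' + D ≤ y ^ b := by
  have h1 := tendsto_rpow_atTop (show 0 < b - b' by linarith)
  filter_upwards [h1.eventually_ge_atTop (|C| + |D|), Filter.eventually_ge_atTop (1 : ℝ)] with y hy hy1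
  have hy0 : 0 < y := by linarith
  have h2 : y ^ b = y ^ b' * y ^ (b - b') := by
    rw [← Real.rpow_add hy0]; congr 1; ring
  have h3 : 1 ≤ y ^ b' := Real.one_le_rpow hy1 hb'.le
  rw [h2]
  have h4 : y ^ b' * (|C| + |D|) ≤ y ^ b' * y ^ (b - b') :=
    mul_le_mul_of_nonneg_left hy (by linarith)
  have h5 : C * y ^ b' ≤ |C| * y ^ b' := mul_le_mul_of_nonneg_right (le_abs_self C) (by linarith)
  have h6 : D ≤ |D| * y ^ b' := by
    have := abs_nonneg D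
    have := le_abs_self D
    nlinarith
  nlinarith

theorem fin_log (b C D : ℝ) (hb : 0 < b) :
    ∀ᶠ y : ℝ in Filter.atTop, C * Real.log y + D ≤ y ^ b := by
  filter_upwards [fin_pow b (b / 2) (|C| * (2 / b)) D (by linarith) (by linarith),
    Filter.eventually_ge_atTop (1 : ℝ)] with y hy hy1
  have h1 := Real.log_le_rpow_div (by linarith : (0 : ℝ) ≤ y) (by linarith : 0 < b / 2)
  have h2 : 0 ≤ Real.log y := Real.log_nonneg hy1
  have h3 : C * Real.log y ≤ |C| * Real.log y := mul_le_mul_of_nonneg_right (le_abs_self C) h2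
  have h4 : |C| * Real.log y ≤ |C| * (y ^ (b / 2) / (b / 2)) :=
    mul_le_mul_of_nonneg_left h1 (abs_nonneg C)
  have h5 : |C| * (y ^ (b / 2) / (b / 2)) = |C| * (2 / b) * y ^ (b / 2) := by
    field_simp
  linarith

theorem fin_primes : ∃ n0 : ℕ, ∀ n : ℕ, n0 ≤ n → 2 ≤ n ∧
    (n : ℝ) / 2 ≤ (((Icc 1 n).filter Nat.Prime).card : ℝ) * Real.log n ∧ 100 * Real.log n ≤ n := by
  have hev : ∀ᶠ y : ℝ in Filter.atTop, 100 * Real.log y + 10 ≤ y ^ (1 / 4 : ℝ) ∧ 100 ≤ y := by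
    filter_upwards [fin_log (1 / 4) 100 10 (by norm_num), Filter.eventually_ge_atTop (100 : ℝ)]
      with y h1 h2
    exact ⟨h1, h2⟩
  obtain ⟨n0, hn0⟩ := Filter.eventually_atTop.1 (tendsto_natCast_atTop_atTop.eventually hev)
  refine ⟨n0, fun n hn => ?_⟩
  obtain ⟨h1, h2⟩ := hn0 n hn
  have hn0' : (0 : ℝ) < n := by linarith
  have hn2 : 2 ≤ n := by
    have : (2 : ℝ) ≤ n := by linarith
    exact_mod_cast this
  have hq : (n : ℝ) ^ (1 / 4 : ℝ) ≤ n := by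
    calc (n : ℝ) ^ (1 / 4 : ℝ) ≤ (n : ℝ) ^ (1 : ℝ) :=
          Real.rpow_le_rpow_of_exponent_le (by linarith) (by norm_num)
      _ = n := Real.rpow_one _
  have hL0 : 0 ≤ Real.log n := Real.log_natCast_nonneg n
  refine ⟨hn2, ?_, by linarith⟩
  have hth := Chebyshev.theta_ge n
  have h3 : 2 * Real.sqrt n * Real.log n ≤ n / 50 := by
    have h4 : Real.sqrt n * (n : ℝ) ^ (1 / 4 : ℝ) ≤ n := by
      rw [Real.sqrt_eq_rpow, ← Real.rpow_add hn0']
      calc (n : ℝ) ^ (1 / 2 + 1 / 4 : ℝ) ≤ (n : ℝ) ^ (1 : ℝ) :=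
            Real.rpow_le_rpow_of_exponent_le (by linarith) (by norm_num)
        _ = n := Real.rpow_one _
    have h5 : 0 ≤ Real.sqrt n := Real.sqrt_nonneg _
    nlinarith
  have h4 : Real.log ((n : ℝ) + 1) ≤ n / 50 := by
    have h5 : Real.log ((n : ℝ) + 1) ≤ Real.log (2 * n) := by
      apply Real.log_le_log (by linarith)
      linarith
    rw [Real.log_mul (by norm_num) hn0'.ne'] at h5
    have h6 := Real.log_two_lt_d9
    linarith
  have h5 : (n : ℝ) / 2 ≤ Chebyshev.theta n := by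
    have h6 := Real.log_two_gt_d9
    nlinarith
  refine h5.trans ?_
  have h6 : Chebyshev.theta n = ∑ p ∈ (Icc 1 n).filter Nat.Prime, Real.log p := by
    unfold Chebyshev.theta
    rw [Nat.floor_natCast]
    rfl
  rw [h6, ← nsmul_eq_mul]
  apply Finset.sum_le_card_nsmul
  intro p hp
  rw [mem_filter, mem_Icc] at hp
  apply Real.log_le_log
  · exact_mod_cast hp.2.pos
  · exact_mod_cast hp.1.2

/-- Every vertex has a large set of Chen neighbours. -/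
theorem fin_large : ∃ ε : ℝ, 0 < ε ∧ ∃ n0 : ℕ, ∀ n : ℕ, n0 ≤ n → ∀ X : ℕ, X ≤ n →
    ∃ A : Finset ℕ, Large ε n X A ∧ ∀ y ∈ A, X ≠ y ∧
      ((IsOddPrime (X + y) ∧ IsOddAlmostPrime (Nat.dist X y)) ∨
        (IsOddAlmostPrime (X + y) ∧ IsOddPrime (Nat.dist X y))) := by
  classical
  obtain ⟨c, hc, n1, h1⟩ := Pool.Agent.Lib.H59C.chen_nbrs
  obtain ⟨n2, h2⟩ := fin_primes
  refine ⟨min c (1 / 4), lt_min hc (by norm_num), max (max n1 n2) 2000, fun n hn X hX => ?_⟩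
  have hn1 : n1 ≤ n := ((le_max_left _ _).trans (le_max_left _ _)).trans hn
  have hn2 : n2 ≤ n := ((le_max_right _ _).trans (le_max_left _ _)).trans hn
  have hn3 : 2000 ≤ n := (le_max_right _ _).trans hn
  have hnR : (2000 : ℝ) ≤ n := by exact_mod_cast hn3
  have hlog : 0 < Real.log n := Real.log_pos (by linarith)
  have h10 : 2 < (n : ℝ) ^ (1 / 10 : ℝ) := by
    have h3 : ((2 : ℝ) ^ (10 : ℕ)) ^ (1 / 10 : ℝ) < (n : ℝ) ^ (1 / 10 : ℝ) := by
      apply Real.rpow_lt_rpow (by positivity) _ (by norm_num)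
      norm_num
      linarith
    have h4 : ((2 : ℝ) ^ (10 : ℕ)) ^ (1 / 10 : ℝ) = 2 := by
      rw [← Real.rpow_natCast, ← Real.rpow_mul (by norm_num)]
      norm_num
    linarith
  by_cases hX0 : X = 0
  · subst hX0
    obtain ⟨_, h3, h4⟩ := h2 n hn2
    refine ⟨((Icc 1 n).filter Nat.Prime).erase 2, ⟨?_, Or.inr ⟨rfl, ?_, ?_⟩⟩, ?_⟩
    · exact (erase_subset _ _).trans (filter_subset _ _)
    · intro y hy
      exact (mem_filter.1 (mem_of_mem_erase hy)).2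
    · have h5 : (((Icc 1 n).filter Nat.Prime).card : ℝ) - 1 ≤
          (((Icc 1 n).filter Nat.Prime).erase 2).card := by
        have h6 := Finset.pred_card_le_card_erase (s := (Icc 1 n).filter Nat.Prime) (a := 2)
        have h7 : ((Icc 1 n).filter Nat.Prime).card ≤
            (((Icc 1 n).filter Nat.Prime).erase 2).card + 1 := by omega
        have h8 : (((Icc 1 n).filter Nat.Prime).card : ℝ) ≤
            (((Icc 1 n).filter Nat.Prime).erase 2).card + 1 := by exact_mod_cast h7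
        linarith
      refine le_trans ?_ h5
      rw [div_le_iff₀ hlog]
      have h6 : min c (1 / 4) * (n : ℝ) ≤ 1 / 4 * n :=
        mul_le_mul_of_nonneg_right (min_le_right _ _) (by linarith)
      nlinarith
    · intro y hy
      rw [mem_erase, mem_filter] at hy
      have hodd : IsOddPrime y := ⟨hy.2.2, hy.2.2.odd_of_ne_two hy.1⟩
      refine ⟨hy.2.2.ne_zero.symm, Or.inl ⟨?_, ?_⟩⟩
      · simpa using hodd
      · left
        simpa [Nat.dist] using hodd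
  · have hX1 : X ∈ Icc 1 n := mem_Icc.2 ⟨by omega, hX⟩
    refine ⟨(Icc 1 n).filter (fun y => Pool.Agent.Lib.H59C.ChenAdj n X y),
      ⟨filter_subset _ _, Or.inl ⟨by omega, ?_, ?_⟩⟩, ?_⟩
    · intro y hy p hp hd
      rw [mem_filter] at hy
      apply hy.2.2 p hp
      rcases hd with hd | hd
      · left
        have : (p : ℤ) ∣ ((X + y : ℕ) : ℤ) := by push_cast; exact hd
        exact Int.natCast_dvd_natCast.1 this
      · right
        have h5 : Nat.dist X y = ((X : ℤ) - y).natAbs := by unfold Nat.dist; omega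
        rw [h5]
        exact Int.natCast_dvd.1 hd
    · have h5 := h1 n hn1 X hX1
      refine le_trans ?_ h5
      have h6 : Pool.Agent.Lib.H59C.hl X = SH X := rfl
      rw [h6]
      have hSH := SH_ge_one X
      apply div_le_div_of_nonneg_right _ (by positivity)
      apply mul_le_mul_of_nonneg_right _ (by linarith)
      exact mul_le_mul_of_nonneg_right (min_le_left _ _) (by linarith)
    · intro y hy
      rw [mem_filter] at hy
      obtain ⟨_, hadj1, hrough⟩ := hy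
      have hodd : ∀ p : ℕ, p.Prime → (p ∣ X + y ∨ p ∣ Nat.dist X y) → IsOddPrime p := by
        intro p hp hd
        refine ⟨hp, hp.odd_of_ne_two ?_⟩
        rintro rfl
        have := hrough 2 hp hd
        norm_num at this h10
        linarith
      have hP1 : ∀ v : ℕ, v.Prime → (v = X + y ∨ v = Nat.dist X y) → IsOddPrime v := by
        intro v hv h
        apply hodd v hv
        rcases h with h | h
        · left; rw [← h]
        · right; rw [← h]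
      have hP2 : ∀ v : ℕ, Pool.Agent.Lib.H59C.P2 v → (v = X + y ∨ v = Nat.dist X y) →
          IsOddAlmostPrime v := by
        intro v hv h
        rcases hv with hv | ⟨r, s, hr, hs, hrs⟩
        · exact Or.inl (hP1 v hv h)
        · right
          refine ⟨r, s, hodd r hr ?_, hodd s hs ?_, hrs⟩
          · have hd : r ∣ v := hrs ▸ dvd_mul_right r s
            rcases h with h | h
            · left; rw [← h]; exact hd
            · right; rw [← h]; exact hd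
          · have hd : s ∣ v := hrs ▸ dvd_mul_left s r
            rcases h with h | h
            · left; rw [← h]; exact hd
            · right; rw [← h]; exact hd
      refine ⟨?_, ?_⟩
      · rintro rfl
        rw [Nat.dist_self] at hadj1
        rcases hadj1 with ⟨_, h⟩ | ⟨h, _⟩
        · rcases h with h | ⟨r, s, hr, hs, hrs⟩
          · exact Nat.not_prime_zero h
          · have := Nat.mul_pos hr.pos hs.pos
            omega
        · exact Nat.not_prime_zero h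
      · rcases hadj1 with ⟨h, h'⟩ | ⟨h, h'⟩
        · exact Or.inl ⟨hP1 _ h (Or.inl rfl), hP2 _ h' (Or.inr rfl)⟩
        · exact Or.inr ⟨hP2 _ h' (Or.inl rfl), hP1 _ h (Or.inr rfl)⟩


end Pool.Agent.Lib.H18C
end

-- from Lib.H59V.A3
section

/-!
# Project H59V, chunk A3 (M): few pairs of a box have no mixed common neighbour
-/

open Finset

namespace Pool.Agent.Lib.H59V

open Pool.Agent.Lib.GoldbachGraph (hadj hadj_comm)
open Pool.Agent.Lib.H96G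

open Classical in
theorem a3_fib (P : Finset (ℕ × ℕ)) (I J : Finset ℕ) (hP : P ⊆ I ×ˢ J) (f : ℕ → ℕ → ℝ) :
    ∑ p ∈ P, f p.1 p.2 = ∑ x ∈ I, ∑ x' ∈ J.filter (fun x' => (x, x') ∈ P), f x x' := by
  have h1 : P = (I ×ˢ J).filter (fun p => p ∈ P) := by
    ext p
    rw [mem_filter]
    exact ⟨fun h => ⟨hP h, h⟩, fun h => h.2⟩
  calc ∑ p ∈ P, f p.1 p.2 = ∑ p ∈ (I ×ˢ J).filter (fun p => p ∈ P), f p.1 p.2 := by rw [← h1]
    _ = ∑ p ∈ I ×ˢ J, if p ∈ P then f p.1 p.2 else 0 := by rw [sum_filter]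
    _ = ∑ x ∈ I, ∑ x' ∈ J, if (x, x') ∈ P then f x x' else 0 := by rw [sum_product]
    _ = _ := sum_congr rfl fun x _ => by rw [sum_filter]

open Classical in
theorem a3_fib' (P : Finset (ℕ × ℕ)) (I J : Finset ℕ) (hP : P ⊆ I ×ˢ J) (f : ℕ → ℕ → ℝ) :
    ∑ p ∈ P, f p.1 p.2 = ∑ x' ∈ J, ∑ x ∈ I.filter (fun x => (x, x') ∈ P), f x x' := by
  have h1 : P = (I ×ˢ J).filter (fun p => p ∈ P) := by
    ext p
    rw [mem_filter]
    exact ⟨fun h => ⟨hP h, h⟩, fun h => h.2⟩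
  calc ∑ p ∈ P, f p.1 p.2 = ∑ p ∈ (I ×ˢ J).filter (fun p => p ∈ P), f p.1 p.2 := by rw [← h1]
    _ = ∑ p ∈ I ×ˢ J, if p ∈ P then f p.1 p.2 else 0 := by rw [sum_filter]
    _ = ∑ x' ∈ J, ∑ x ∈ I, if (x, x') ∈ P then f x x' else 0 := by rw [sum_product_right]
    _ = _ := sum_congr rfl fun x _ => by rw [sum_filter]

open Classical in
/-- The mixed correlations over a set `P` of pairs without mixed common neighbour. Proof. Compare the proof of `A7`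
(`H96G/A7.lean`), here with fibres of `P` instead of products. `l = log (8n)`, `W x = {x' : (x, x') ∈ P}`,
`W' x' = {x : (x, x') ∈ P}`. For `(x, x') ∈ P` and `y ∈ [Z, 2Z)`: `kp x y * kpC x' y = 0` (`a1_kp_hadj`, `a1_kpC_cadj`,
definition of `FC`).
(1) For fixed `x`: `A2_set` at the scale `X'`, `A = W x`, `g y = kp x y` (`|g| ≤ l²`, `a1_kp_le`, `a1_kp_nonneg`):
`|∑_{x' ∈ W x} ∑_y kp x y * kmC x' y| ≤ l² n^(2-c)`. At most `X ≤ n` values of `x`:
`|∑_P ∑_y kp x y * kmC x' y| ≤ l² n^(3-c)`.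
(2) For fixed `x'`: `a7_set` at the scale `X`, `A = W' x'`, `g y = kmC x' y` (`|g| ≤ n^(2b)`, `a1_kmC_abs`):
`|∑_{x ∈ W' x'} ∑_y kmC x' y * (kp x y - km x y)| ≤ n^(2b) n^(2-c)`, in total `≤ n^(2b) n^(3-c)`.
The difference of the two sums over `P` is the sum to be estimated. (Sums over `P` fibrewise: `Finset.sum_fiberwise_of_maps_to`,
or write the sum over `P` as the sum over the product of the intervals with an indicator function,
`Finset.sum_product`, `Finset.sum_product_right`.) -/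
theorem A3_sum {n M : ℕ} {L : ℕ → ℤ → ℝ} {c B b : ℝ} (hN : Nm n b) (h : GC n M L c B b)
    {X X' Z : ℕ} (hs : Sc n M B X Z) (hs' : Sc n M B X' Z) (P : Finset (ℕ × ℕ))
    (hP : P ⊆ Ico (2 * X) (3 * X) ×ˢ Ico (2 * X') (3 * X')) (hFC : ∀ p ∈ P, FC Z p.1 p.2) :
    ∑ p ∈ P, ∑ y ∈ Ico Z (2 * Z), km (L X) p.1 y * kmC (L X') (L (X' / 3)) p.2 y ≤
      (Real.log (8 * n)) ^ 2 * (n : ℝ) ^ (3 - c) + (n : ℝ) ^ (3 - c + 2 * b) := by
  have hn1 : 1 ≤ n := hN.n_pos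
  have hnp := hN.pos
  obtain ⟨l, hl⟩ : ∃ l, l = Real.log (8 * n) := ⟨_, rfl⟩
  have hl1 : 1 ≤ l := by rw [hl]; exact hN.ell
  obtain ⟨S1, hS1⟩ : ∃ S : ℝ, S = ∑ p ∈ P, ∑ y ∈ Ico Z (2 * Z),
      kp p.1 y * (kpC p.2 y - kmC (L X') (L (X' / 3)) p.2 y) := ⟨_, rfl⟩
  obtain ⟨S2, hS2⟩ : ∃ S : ℝ, S = ∑ p ∈ P, ∑ y ∈ Ico Z (2 * Z),
      kmC (L X') (L (X' / 3)) p.2 y * (kp p.1 y - km (L X) p.1 y) := ⟨_, rfl⟩
  have hcard : ∀ {X : ℕ}, Sc n M B X Z → ((Ico (2 * X) (3 * X)).card : ℝ) ≤ n := by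
    intro X hs
    rw [Nat.card_Ico]
    have g2 := hs.hi
    exact_mod_cast (by omega : 3 * X - 2 * X ≤ n)
  have e0 : ∑ p ∈ P, ∑ y ∈ Ico Z (2 * Z), km (L X) p.1 y * kmC (L X') (L (X' / 3)) p.2 y =
      -S1 - S2 := by
    rw [hS1, hS2, ← sum_neg_distrib, ← sum_sub_distrib]
    refine sum_congr rfl fun p hp => ?_
    rw [← sum_neg_distrib, ← sum_sub_distrib]
    refine sum_congr rfl fun y hy => ?_
    have g1 : kp p.1 y * kpC p.2 y = 0 := by
      by_contra hne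
      have g1 := left_ne_zero_of_mul hne
      have g2 := right_ne_zero_of_mul hne
      have g3 := mem_product.mp (hP hp)
      exact (hFC p hp).2 ⟨y, hy, a1_kp_hadj hn1 hs g3.1 hy g1, a1_kpC_cadj hn1 hs' g3.2 hy g2⟩
    linear_combination g1
  have e1 : |S1| ≤ n * (l ^ 2 * (n : ℝ) ^ (2 - c)) := by
    rw [hS1, a3_fib P _ _ hP (fun x x' => ∑ y ∈ Ico Z (2 * Z),
      kp x y * (kpC x' y - kmC (L X') (L (X' / 3)) x' y))]
    calc _ ≤ ∑ x ∈ Ico (2 * X) (3 * X), |∑ x' ∈ (Ico (2 * X') (3 * X')).filter (fun x' => (x, x') ∈ P),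
          ∑ y ∈ Ico Z (2 * Z), kp x y * (kpC x' y - kmC (L X') (L (X' / 3)) x' y)| :=
            abs_sum_le_sum_abs _ _
      _ ≤ ∑ x ∈ Ico (2 * X) (3 * X), l ^ 2 * (n : ℝ) ^ (2 - c) := by
          refine sum_le_sum fun x hx => ?_
          refine A2_set h hs' (filter_subset _ _) (fun y => kp x y) (l ^ 2) (by positivity) fun y hy => ?_
          rw [abs_of_nonneg (a1_kp_nonneg x y), hl]
          exact a1_kp_le hn1 hs hx hy
      _ = (Ico (2 * X) (3 * X)).card * (l ^ 2 * (n : ℝ) ^ (2 - c)) := by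
          rw [sum_const, nsmul_eq_mul]
      _ ≤ n * (l ^ 2 * (n : ℝ) ^ (2 - c)) :=
          mul_le_mul_of_nonneg_right (hcard hs) (mul_nonneg (by positivity) (hN.ppos _).le)
  have e2 : |S2| ≤ n * ((n : ℝ) ^ (2 * b) * (n : ℝ) ^ (2 - c)) := by
    rw [hS2, a3_fib' P _ _ hP (fun x x' => ∑ y ∈ Ico Z (2 * Z),
      kmC (L X') (L (X' / 3)) x' y * (kp x y - km (L X) x y))]
    calc _ ≤ ∑ x' ∈ Ico (2 * X') (3 * X'), |∑ x ∈ (Ico (2 * X) (3 * X)).filter (fun x => (x, x') ∈ P),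
          ∑ y ∈ Ico Z (2 * Z), kmC (L X') (L (X' / 3)) x' y * (kp x y - km (L X) x y)| :=
            abs_sum_le_sum_abs _ _
      _ ≤ ∑ x' ∈ Ico (2 * X') (3 * X'), (n : ℝ) ^ (2 * b) * (n : ℝ) ^ (2 - c) := by
          refine sum_le_sum fun x' hx' => ?_
          exact a7_set h.toGIn hs (filter_subset _ _) (fun y => kmC (L X') (L (X' / 3)) x' y)
            ((n : ℝ) ^ (2 * b)) (hN.ppos _) fun y hy => a1_kmC_abs hN h hs' hx' hy
      _ = (Ico (2 * X') (3 * X')).card * ((n : ℝ) ^ (2 * b) * (n : ℝ) ^ (2 - c)) := by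
          rw [sum_const, nsmul_eq_mul]
      _ ≤ n * ((n : ℝ) ^ (2 * b) * (n : ℝ) ^ (2 - c)) :=
          mul_le_mul_of_nonneg_right (hcard hs') (mul_nonneg (hN.ppos _).le (hN.ppos _).le)
  have k1 : n * (l ^ 2 * (n : ℝ) ^ (2 - c)) = l ^ 2 * (n : ℝ) ^ (3 - c) := by
    have : (n : ℝ) ^ (3 - c) = (n : ℝ) ^ (1 : ℝ) * (n : ℝ) ^ (2 - c) := by
      rw [hN.mul]
      congr 1
      ring
    rw [this, Real.rpow_one]
    ring
  have k2 : n * ((n : ℝ) ^ (2 * b) * (n : ℝ) ^ (2 - c)) = (n : ℝ) ^ (3 - c + 2 * b) := by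
    have : (n : ℝ) ^ (3 - c + 2 * b) = (n : ℝ) ^ (1 : ℝ) * ((n : ℝ) ^ (2 * b) * (n : ℝ) ^ (2 - c)) := by
      rw [hN.mul, hN.mul]
      congr 1
      ring
    rw [this, Real.rpow_one]
  rw [e0, ← hl]
  rw [k1] at e1
  rw [k2] at e2
  have g1 := (abs_le.mp e1).1
  have g2 := (abs_le.mp e2).1
  linarith

open Classical in
/-- **A3.** Proof. `P` = the set in question, `A3_sum`. The pairs of `P` outside of the exceptional set of the field `m4C`
(at most `n^(2-c)` pairs; the pairs of `P` satisfy `MX`) have inner sum `≥ Z n^(-b)`, the others `≥ - Z n^(4b)`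
(`a1_km_abs`, `a1_kmC_abs`), so `P.card * Z n^(-b) ≤ l² n^(3-c) + n^(3-c+2b) + n^(2-c) (Z n^(-b) + Z n^(4b))`. Divide by
`Z n^(-b)`, `Z ≥ n^(1-B)`: `P.card ≤ l² n^(2-c+B+b) + n^(2-c+B+3b) + n^(2-c) + n^(2-c+5b) ≤ n^(2-c/2)` (`Nm.lg`,
`Nm.cst`; `c ≥ 100 B`, `B ≥ 100 b`). -/
theorem A3_pairs {n M : ℕ} {L : ℕ → ℤ → ℝ} {c B b : ℝ} (hN : Nm n b) (h : GC n M L c B b)
    {X X' Z : ℕ} (hs : Sc n M B X Z) (hs' : Sc n M B X' Z) :
    (((Ico (2 * X) (3 * X) ×ˢ Ico (2 * X') (3 * X')).filter fun p => FC Z p.1 p.2).card : ℝ) ≤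
      (n : ℝ) ^ (2 - c / 2) := by
  have hn1 : 1 ≤ n := hN.n_pos
  have hnp := hN.pos
  obtain ⟨l, hl⟩ : ∃ l, l = Real.log (8 * n) := ⟨_, rfl⟩
  have hl1 : 1 ≤ l := by rw [hl]; exact hN.ell
  obtain ⟨P, hPd⟩ : ∃ P : Finset (ℕ × ℕ), P = (Ico (2 * X) (3 * X) ×ˢ Ico (2 * X') (3 * X')).filter
    fun p => FC Z p.1 p.2 := ⟨_, rfl⟩
  rw [← hPd]
  have hP : P ⊆ Ico (2 * X) (3 * X) ×ˢ Ico (2 * X') (3 * X') := by
    rw [hPd]
    exact filter_subset _ _
  have hFC : ∀ p ∈ P, FC Z p.1 p.2 := by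
    intro p hp
    rw [hPd, mem_filter] at hp
    exact hp.2
  have e3 := A3_sum hN h hs hs' P hP hFC
  rw [← hl] at e3
  obtain ⟨s, hsd⟩ : ∃ s : ℕ × ℕ → ℝ, ∀ p, s p =
      ∑ y ∈ Ico Z (2 * Z), km (L X) p.1 y * kmC (L X') (L (X' / 3)) p.2 y := ⟨_, fun _ => rfl⟩
  have e4 : ∑ p ∈ P, s p ≤ l ^ 2 * (n : ℝ) ^ (3 - c) + (n : ℝ) ^ (3 - c + 2 * b) := by
    rw [sum_congr rfl fun p _ => hsd p]
    exact e3
  have hZn : (Z : ℝ) ≤ n := by
    have g1 := hs.le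
    have g2 := hs.hi
    exact_mod_cast (by omega : Z ≤ n)
  have hZ0 : (0 : ℝ) ≤ Z := Nat.cast_nonneg _
  have hZp : (0 : ℝ) < Z := lt_of_lt_of_le (hN.ppos _) hs.lo
  have key : ∀ E : Finset (ℕ × ℕ), (∀ p, p ∈ E ↔ p ∈ Ico (2 * X) (3 * X) ×ˢ Ico (2 * X') (3 * X') ∧
      (MX p.1 p.2 ∧ ∑ y ∈ Ico Z (2 * Z), km (L X) p.1 y * kmC (L X') (L (X' / 3)) p.2 y <
        Z * (n : ℝ) ^ (-b))) →
      (E.card : ℝ) ≤ (n : ℝ) ^ (2 - c) → (P.card : ℝ) ≤ (n : ℝ) ^ (2 - c / 2) := by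
    intro E hE hEc
    obtain ⟨W, hW⟩ : ∃ W : ℝ, W = Z * (n : ℝ) ^ (-b) + Z * (n : ℝ) ^ (4 * b) := ⟨_, rfl⟩
    have hW0 : 0 ≤ W := by
      rw [hW]
      exact add_nonneg (mul_nonneg hZ0 (hN.ppos _).le) (mul_nonneg hZ0 (hN.ppos _).le)
    have g1 : ∀ p ∈ P, Z * (n : ℝ) ^ (-b) - (if p ∈ E then W else 0) ≤ s p := by
      intro p hp
      have hp2 := mem_product.mp (hP hp)
      split_ifs with hpE
      · rw [hW, hsd]
        have g2 : |∑ y ∈ Ico Z (2 * Z), km (L X) p.1 y * kmC (L X') (L (X' / 3)) p.2 y| ≤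
            Z * (n : ℝ) ^ (4 * b) := by
          calc |∑ y ∈ Ico Z (2 * Z), km (L X) p.1 y * kmC (L X') (L (X' / 3)) p.2 y|
              ≤ ∑ y ∈ Ico Z (2 * Z), |km (L X) p.1 y * kmC (L X') (L (X' / 3)) p.2 y| :=
                abs_sum_le_sum_abs _ _
            _ ≤ ∑ y ∈ Ico Z (2 * Z), (n : ℝ) ^ (4 * b) := by
                refine sum_le_sum fun y hy => ?_
                rw [abs_mul]
                calc |km (L X) p.1 y| * |kmC (L X') (L (X' / 3)) p.2 y| ≤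
                      (n : ℝ) ^ (2 * b) * (n : ℝ) ^ (2 * b) :=
                      mul_le_mul (a1_km_abs hN h.toGIn hs hp2.1 hy) (a1_kmC_abs hN h hs' hp2.2 hy)
                        (abs_nonneg _) (hN.ppos _).le
                  _ = (n : ℝ) ^ (4 * b) := by rw [hN.mul]; congr 1; ring
            _ = Z * (n : ℝ) ^ (4 * b) := by
                rw [sum_const, nsmul_eq_mul, Nat.card_Ico]
                congr 2
                omega
        have g3 := (abs_le.mp g2).1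
        linarith
      · rw [sub_zero]
        by_contra hlt
        push Not at hlt
        apply hpE
        rw [hE]
        refine ⟨hP hp, (hFC p hp).1, ?_⟩
        rw [← hsd]
        exact hlt
    have g2 := sum_le_sum g1
    rw [sum_sub_distrib, sum_const, nsmul_eq_mul] at g2
    have g3 : ∑ p ∈ P, (if p ∈ E then W else 0) ≤ (n : ℝ) ^ (2 - c) * W := by
      rw [← sum_filter, sum_const, nsmul_eq_mul]
      refine mul_le_mul_of_nonneg_right (le_trans ?_ hEc) hW0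
      exact_mod_cast card_le_card fun p hp => (mem_filter.mp hp).2
    have g5 : (n : ℝ) ^ (2 - c) * W ≤ (n : ℝ) ^ (3 - c - b) + (n : ℝ) ^ (3 - c + 4 * b) := by
      rw [hW, mul_add]
      have g6 : ∀ t : ℝ, (n : ℝ) ^ (2 - c) * (Z * (n : ℝ) ^ t) ≤ (n : ℝ) ^ (3 - c + t) := by
        intro t
        calc (n : ℝ) ^ (2 - c) * (Z * (n : ℝ) ^ t) ≤ (n : ℝ) ^ (2 - c) * ((n : ℝ) ^ (1 : ℝ) * (n : ℝ) ^ t) := by
              refine mul_le_mul_of_nonneg_left (mul_le_mul_of_nonneg_right ?_ (hN.ppos _).le) (hN.ppos _).le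
              rw [Real.rpow_one]
              exact hZn
          _ = (n : ℝ) ^ (3 - c + t) := by
              rw [hN.mul, hN.mul]
              congr 1
              ring
      have g7 := g6 (-b)
      have g8 := g6 (4 * b)
      rw [← sub_eq_add_neg] at g7
      linarith
    have hbB := h.hb
    have hBc := h.hB
    have hb0 := h.b_pos
    have k1 : 8 * (n : ℝ) ^ (3 - c - b) ≤ (n : ℝ) ^ (3 - c / 2 - B - b) :=
      hN.cst (by norm_num) (by linarith)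
    have k2 : 8 * (n : ℝ) ^ (3 - c + 4 * b) ≤ (n : ℝ) ^ (3 - c / 2 - B - b) :=
      hN.cst (by norm_num) (by linarith)
    have k3 : 8 * l ^ 2 * (n : ℝ) ^ (3 - c) ≤ (n : ℝ) ^ (3 - c / 2 - B - b) := by
      rw [hl]
      exact hN.lg (by norm_num) (by norm_num) (by linarith)
    have k4 : 8 * (n : ℝ) ^ (3 - c + 2 * b) ≤ (n : ℝ) ^ (3 - c / 2 - B - b) :=
      hN.cst (by norm_num) (by linarith)
    have k7 := hN.ppos (3 - c / 2 - B - b)
    have k8 : (n : ℝ) ^ (3 - c / 2 - B - b) ≤ (n : ℝ) ^ (2 - c / 2) * (Z * (n : ℝ) ^ (-b)) := by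
      calc (n : ℝ) ^ (3 - c / 2 - B - b) =
            (n : ℝ) ^ (2 - c / 2) * ((n : ℝ) ^ (1 - B) * (n : ℝ) ^ (-b)) := by
            rw [hN.mul, hN.mul]
            congr 1
            ring
        _ ≤ _ := by
            refine mul_le_mul_of_nonneg_left (mul_le_mul_of_nonneg_right hs.lo (hN.ppos _).le) (hN.ppos _).le
    have k9 : 0 < Z * (n : ℝ) ^ (-b) := mul_pos hZp (hN.ppos _)
    refine le_of_mul_le_mul_right ?_ k9
    refine le_trans ?_ k8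
    linarith
  refine key _ (fun p => mem_filter) (h.m4C X X' Z hs hs')

end Pool.Agent.Lib.H59V
end

-- from Lib.H59V.A4
section

/-!
# Project H59V, chunk A4 (S/M): few pairs without mixed common neighbour
-/

open Finset

namespace Pool.Agent.Lib.H59V

open Pool.Agent.Lib.H96G

theorem a4_card {α : Type*} [DecidableEq α] {S : Finset ℕ} {f : ℕ → Finset α} {l K : ℝ}
    (hS : (S.card : ℝ) ≤ l) (hK : 0 ≤ K)
    (hf : ∀ X ∈ S, ((f X).card : ℝ) ≤ K) : ((S.biUnion f).card : ℝ) ≤ l * K := by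
  have h1 : ((S.biUnion f).card : ℝ) ≤ ∑ X ∈ S, ((f X).card : ℝ) := by
    have := card_biUnion_le (s := S) (t := f)
    exact_mod_cast this
  have h2 : ∑ X ∈ S, ((f X).card : ℝ) ≤ ∑ _X ∈ S, K := sum_le_sum hf
  rw [sum_const, nsmul_eq_mul] at h2
  exact (h1.trans h2).trans (mul_le_mul_of_nonneg_right hS hK)

open Classical in
/-- **A4.** Proof. `8 M ≤ Z` as in `B2` of `H96G`; the scales `S` from `B1` of `H96G` (at most `5 log (8n)` of them, all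
with `Sc n M B X Z`). The set is contained in the union over `X, X' ∈ S` of the sets of `A3_pairs` (the intervals
`Ico (2X) (3X)` cover `Icc (4Z) n`): at most `25 (log (8n))² n^(2-c/2) ≤ n^(2-c/3)` (`Nm.lg`). -/
theorem A4_pairs {n M : ℕ} {L : ℕ → ℤ → ℝ} {c B b : ℝ} (hN : Nm n b) (h : GC n M L c B b)
    {Z : ℕ} (hZ : M ∣ Z) (hlo : (n : ℝ) ^ (1 - B) ≤ Z) :
    (((Icc (4 * Z) n ×ˢ Icc (4 * Z) n).filter fun p => FC Z p.1 p.2).card : ℝ) ≤
      (n : ℝ) ^ (2 - c / 3) := by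
  have hb := h.hb
  have hB := h.hB
  have hc := h.hc
  have hb0 := h.b_pos
  have hl := hN.ell
  have hl0 : 0 ≤ Real.log (8 * n) := by linarith
  have h8 : 8 * M ≤ Z := by
    have h1 : 8 * (n : ℝ) ^ (1 / 2 : ℝ) ≤ (n : ℝ) ^ (1 - B) := hN.cst (by norm_num) (by linarith)
    have h2 : (8 : ℝ) * M ≤ Z := by linarith [h.Mn]
    exact_mod_cast h2
  obtain ⟨S, hS1, hS2, hS3⟩ := B1 n M Z h.M1 hZ h8
  have hSc : ∀ X ∈ S, Sc n M B X Z := fun X hX => ⟨(hS1 X hX).1, hZ, hlo, (hS1 X hX).2.1, (hS1 X hX).2.2⟩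
  have hp1 := hN.ppos (2 - c / 2)
  obtain ⟨f, hf⟩ : ∃ f : ℕ → ℕ → Finset (ℕ × ℕ), f = fun X X' =>
      (Ico (2 * X) (3 * X) ×ˢ Ico (2 * X') (3 * X')).filter fun p => FC Z p.1 p.2 := ⟨_, rfl⟩
  have hsub : ((Icc (4 * Z) n ×ˢ Icc (4 * Z) n).filter fun p => FC Z p.1 p.2) ⊆
      S.biUnion fun X => S.biUnion (f X) := by
    intro p hp
    rw [mem_filter, mem_product, mem_Icc, mem_Icc] at hp
    obtain ⟨⟨h1, h2⟩, h3⟩ := hp
    obtain ⟨X, hX, hX2⟩ := hS3 _ h1.1 h1.2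
    obtain ⟨X', hX', hX2'⟩ := hS3 _ h2.1 h2.2
    rw [mem_biUnion]
    refine ⟨X, hX, ?_⟩
    rw [mem_biUnion]
    refine ⟨X', hX', ?_⟩
    rw [hf]
    simp only [mem_filter, mem_product]
    exact ⟨⟨hX2, hX2'⟩, h3⟩
  have h2 : ((S.biUnion fun X => S.biUnion (f X)).card : ℝ) ≤
      5 * Real.log (8 * n) * (5 * Real.log (8 * n) * (n : ℝ) ^ (2 - c / 2)) := by
    refine a4_card hS2 (by positivity) fun X hX => a4_card hS2 hp1.le fun X' hX' => ?_
    rw [hf]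
    exact A3_pairs hN h (hSc X hX) (hSc X' hX')
  have h1 : (((Icc (4 * Z) n ×ˢ Icc (4 * Z) n).filter fun p => FC Z p.1 p.2).card : ℝ) ≤
      (S.biUnion fun X => S.biUnion (f X)).card := by
    exact_mod_cast card_le_card hsub
  have h3 : 25 * (Real.log (8 * n)) ^ 2 * (n : ℝ) ^ (2 - c / 2) ≤ (n : ℝ) ^ (2 - c / 3) :=
    hN.lg (by norm_num) (by norm_num) (by linarith)
  have h4 : 5 * Real.log (8 * n) * (5 * Real.log (8 * n) * (n : ℝ) ^ (2 - c / 2)) =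
      25 * (Real.log (8 * n)) ^ 2 * (n : ℝ) ^ (2 - c / 2) := by ring
  rw [h4] at h2
  exact (h1.trans h2).trans h3

open Classical in
/-- Markov's inequality. Proof. Double counting (`Finset.card_filter`, `Finset.sum_product`): the number of `x ∈ I` with more
than `K` partners times `K` is at most the number of pairs. -/
theorem A4_markov (I : Finset ℕ) (R : ℕ → ℕ → Prop) (T K : ℝ) (hK : 0 < K)
    (h : (((I ×ˢ I).filter fun p => R p.1 p.2).card : ℝ) ≤ T) :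
    ((I.filter fun x => ¬ ((I.filter fun x' => R x x').card : ℝ) ≤ K).card : ℝ) ≤ T / K := by
  obtain ⟨G, hG⟩ : ∃ G : Finset ℕ, G = I.filter fun x => ¬ ((I.filter fun x' => R x x').card : ℝ) ≤ K :=
    ⟨_, rfl⟩
  rw [← hG, le_div_iff₀ hK]
  refine le_trans ?_ h
  have h1 : ((I ×ˢ I).filter fun p => R p.1 p.2).card = ∑ x ∈ I, (I.filter fun x' => R x x').card := by
    rw [card_filter, sum_product]
    exact sum_congr rfl fun x _ => by rw [card_filter]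
  rw [h1]
  push_cast
  have h2 : ∑ x ∈ G, ((I.filter fun x' => R x x').card : ℝ) ≤
      ∑ x ∈ I, ((I.filter fun x' => R x x').card : ℝ) := by
    refine sum_le_sum_of_subset_of_nonneg ?_ fun x _ _ => Nat.cast_nonneg _
    rw [hG]
    exact filter_subset _ _
  refine le_trans ?_ h2
  have h3 : ∑ _x ∈ G, K ≤ ∑ x ∈ G, ((I.filter fun x' => R x x').card : ℝ) := by
    refine sum_le_sum fun x hx => ?_
    rw [hG, mem_filter] at hx
    exact (not_le.mp hx.2).le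
  rw [sum_const, nsmul_eq_mul] at h3
  exact h3

/-- **Generic vertices for the mixed relation.** Proof. `A4_pairs`; `A4_markov` with `I = Icc (4Z) n`, `T = n^(2-c/3)`,
`K = n^(1-c/6)`, for `R = FC Z` and for the transposed relation: `Γ` = the `x ∈ I` with at most `n^(1-c/6)` partners on
both sides, `(I \ Γ).card ≤ 2 n^(1-c/6) ≤ n^(1-c/7)` (`Nm.cst`; `c/6 - c/7 = c/42 ≥ b/2`). -/
theorem A4_gen {n M : ℕ} {L : ℕ → ℤ → ℝ} {c B b : ℝ} (hN : Nm n b) (h : GC n M L c B b)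
    {Z : ℕ} (hZ : M ∣ Z) (hlo : (n : ℝ) ^ (1 - B) ≤ Z) :
    ∃ Γ : Finset ℕ, PC n Z ((n : ℝ) ^ (1 - c / 7)) Γ := by
  classical
  have hb := h.hb
  have hB := h.hB
  have hc := h.hc
  have hb0 := h.b_pos
  have e1 := A4_pairs hN h hZ hlo
  have e2 : (((Icc (4 * Z) n ×ˢ Icc (4 * Z) n).filter fun p : ℕ × ℕ => FC Z p.2 p.1).card : ℝ) ≤
      (n : ℝ) ^ (2 - c / 3) := by
    refine le_trans ?_ e1
    have : ((Icc (4 * Z) n ×ˢ Icc (4 * Z) n).filter fun p : ℕ × ℕ => FC Z p.2 p.1).card ≤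
        ((Icc (4 * Z) n ×ˢ Icc (4 * Z) n).filter fun p : ℕ × ℕ => FC Z p.1 p.2).card := by
      refine card_le_card_of_injOn Prod.swap ?_ Prod.swap_injective.injOn
      intro p hp
      rw [mem_coe, mem_filter, mem_product] at hp
      rw [mem_coe, mem_filter, mem_product]
      exact ⟨⟨hp.1.2, hp.1.1⟩, hp.2⟩
    exact_mod_cast this
  have hK := hN.ppos (1 - c / 6)
  have m1 := A4_markov (Icc (4 * Z) n) (FC Z) _ _ hK e1
  have m2 := A4_markov (Icc (4 * Z) n) (fun x x' => FC Z x' x) _ _ hK e2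
  have hq : (n : ℝ) ^ (2 - c / 3) / (n : ℝ) ^ (1 - c / 6) = (n : ℝ) ^ (1 - c / 6) := by
    rw [div_eq_iff hK.ne', hN.mul]
    congr 1
    ring
  rw [hq] at m1 m2
  have hn : (n : ℝ) ^ (1 - c / 6) ≤ (n : ℝ) ^ (1 - c / 7) := hN.mono (by linarith)
  have hn2 : 2 * (n : ℝ) ^ (1 - c / 6) ≤ (n : ℝ) ^ (1 - c / 7) := hN.cst (by norm_num) (by linarith)
  refine ⟨(Icc (4 * Z) n).filter fun x =>
    (((Icc (4 * Z) n).filter fun x' => FC Z x x').card : ℝ) ≤ (n : ℝ) ^ (1 - c / 6) ∧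
    (((Icc (4 * Z) n).filter fun x' => FC Z x' x).card : ℝ) ≤ (n : ℝ) ^ (1 - c / 6), ?_, ?_, ?_, ?_⟩
  · exact filter_subset _ _
  · have hsub : (Icc (4 * Z) n) \ ((Icc (4 * Z) n).filter fun x =>
        (((Icc (4 * Z) n).filter fun x' => FC Z x x').card : ℝ) ≤ (n : ℝ) ^ (1 - c / 6) ∧
        (((Icc (4 * Z) n).filter fun x' => FC Z x' x).card : ℝ) ≤ (n : ℝ) ^ (1 - c / 6)) ⊆
        ((Icc (4 * Z) n).filter fun x => ¬ (((Icc (4 * Z) n).filter fun x' => FC Z x x').card : ℝ) ≤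
          (n : ℝ) ^ (1 - c / 6)) ∪
        ((Icc (4 * Z) n).filter fun x => ¬ (((Icc (4 * Z) n).filter fun x' => FC Z x' x).card : ℝ) ≤
          (n : ℝ) ^ (1 - c / 6)) := by
      intro u hu
      rw [mem_sdiff, mem_filter] at hu
      obtain ⟨hu1, hu2⟩ := hu
      rw [mem_union, mem_filter, mem_filter]
      by_cases hc1 : (((Icc (4 * Z) n).filter fun x' => FC Z u x').card : ℝ) ≤ (n : ℝ) ^ (1 - c / 6)
      · right
        exact ⟨hu1, fun hc2 => hu2 ⟨hu1, hc1, hc2⟩⟩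
      · left
        exact ⟨hu1, hc1⟩
    have h1 := (card_le_card hsub).trans (card_union_le _ _)
    have h2 : (((Icc (4 * Z) n) \ ((Icc (4 * Z) n).filter fun x =>
        (((Icc (4 * Z) n).filter fun x' => FC Z x x').card : ℝ) ≤ (n : ℝ) ^ (1 - c / 6) ∧
        (((Icc (4 * Z) n).filter fun x' => FC Z x' x).card : ℝ) ≤ (n : ℝ) ^ (1 - c / 6))).card : ℝ) ≤
        (((Icc (4 * Z) n).filter fun x => ¬ (((Icc (4 * Z) n).filter fun x' => FC Z x x').card : ℝ) ≤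
          (n : ℝ) ^ (1 - c / 6)).card : ℝ) +
        (((Icc (4 * Z) n).filter fun x => ¬ (((Icc (4 * Z) n).filter fun x' => FC Z x' x).card : ℝ) ≤
          (n : ℝ) ^ (1 - c / 6)).card : ℝ) := by exact_mod_cast h1
    linarith
  · intro x hx
    rw [mem_filter] at hx
    exact hx.2.1.trans hn
  · intro x hx
    rw [mem_filter] at hx
    exact hx.2.2.trans hn

end Pool.Agent.Lib.H59V
end

-- from Lib.H59V.G5
section

/-!
# Project H59V, chunk G5 (M): the set of hubs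
-/

open Finset

namespace Pool.Agent.Lib.H59V

open Pool.Agent.Lib.GoldbachGraph (hadj hadj_comm)
open Pool.Agent.Lib.H96G

theorem g5_far {Z u w : ℕ} {I : Finset ℕ} (hw : w ∈ I)
    (h : ST u w ∧ ¬ ∃ y ∈ Ico Z (2 * Z), hadj u y ∧ hadj w y) : w ∈ far Z u I := by
  rw [far]
  simp only [mem_filter]
  exact ⟨hw, h⟩

/-- **Hubs.** Proof. `D2_Z` of `H96G` with `e = B` gives `Z`; `B2` of `H96G` for the base scales `Z`, `8 Z`, `64 Z` (multiples
of `M`, at least `n^(1-B)`): `PZ` with `Γ0`, `Γ1`, `Γ2`; `A4_gen` for `Z`: `ΓC`. Put `Γ = Γ0 ∩ Γ1 ∩ ΓC`.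
`Hb`: `sub` from `Γ1 ⊆ Icc (4 (8 Z)) n`; `fw`: for `h ∈ Γ` the `h' ∈ Icc (4 Z) n` with `BP Z h h'` are in
`far Z h (Icc (4 Z) n)` (at most `n^(1-c/2+3B)`) or in one of the two sets of `PC` (at most `n^(1-c/7)` each), in total
`≤ n^(1-c/8)`; `dg`: field `al` of `Γ1`, `8 Z n^(-4b) ≥ n^(1-B-4b)`. The complement of `Γ` in `Icc (32 Z) n` is contained
in the union of three complements, `≤ 2 n^(1-c/2+3B) + n^(1-c/7) ≤ n^(1-c/8)`. `Γ2`: fields `sub`, `co`, `al` of `PZ`.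
`256 Z ≤ 512 n^(1-B) ≤ n`. `1 ≤ Z` as `n^(1-B) > 0`. (`Nm.cst`; `c ≥ 100 B`, `B ≥ 100 b`.) -/
theorem G5_hubs {n M : ℕ} {L : ℕ → ℤ → ℝ} {c B b : ℝ} (hN : Nm n b) (h : GC n M L c B b) :
    ∃ (Z : ℕ) (Γ Γ2 : Finset ℕ), 1 ≤ Z ∧ (Z : ℝ) ≤ 2 * (n : ℝ) ^ (1 - B) ∧ 256 * Z ≤ n ∧
      Hb n Z ((n : ℝ) ^ (1 - c / 8)) ((n : ℝ) ^ (1 - B - 4 * b)) Γ ∧
      ((Icc (32 * Z) n \ Γ).card : ℝ) ≤ (n : ℝ) ^ (1 - c / 8) ∧ Γ2 ⊆ Icc (256 * Z) n ∧
      ((Icc (256 * Z) n \ Γ2).card : ℝ) ≤ (n : ℝ) ^ (1 - c / 8) ∧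
      ∀ u ∈ Γ2, (n : ℝ) ^ (1 - B - 4 * b) ≤ (nb (64 * Z) u).card := by
  classical
  have hb := h.b_pos
  have hbB := h.hb
  have hBc := h.hB
  have hc := h.hc
  have hI := h.toGIn
  obtain ⟨Z, hMZ, hlo, hhi⟩ := D2_Z hN hI B (by linarith)
  have hZ1 : 1 ≤ Z := by
    by_contra h0
    have h1 : Z = 0 := by omega
    rw [h1] at hlo
    have := hN.ppos (1 - B)
    push_cast at hlo
    linarith
  have key : ∀ W : ℕ, M ∣ W → Z ≤ W → ∃ Γ : Finset ℕ,
      PZ n W ((n : ℝ) ^ (1 - c / 2 + 3 * B)) ((n : ℝ) ^ (1 - B - 4 * b)) Γ := by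
    intro W hMW hZW
    have hZW' : (Z : ℝ) ≤ W := by exact_mod_cast hZW
    obtain ⟨Γ, hΓ⟩ := B2 hN hI hMW (hlo.trans hZW')
    refine ⟨Γ, D2_mono hΓ ?_⟩
    have h1 : (n : ℝ) ^ (1 - B - 4 * b) = (n : ℝ) ^ (1 - B) * (n : ℝ) ^ (-(4 * b)) := by
      rw [hN.mul]
      congr 1
    rw [h1]
    exact mul_le_mul_of_nonneg_right (hlo.trans hZW') (hN.ppos _).le
  obtain ⟨Γ0, h0⟩ := key Z hMZ le_rfl
  obtain ⟨Γ1, h1⟩ := key (8 * Z) (Dvd.dvd.mul_left hMZ 8) (by omega)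
  obtain ⟨Γ2, h2⟩ := key (64 * Z) (Dvd.dvd.mul_left hMZ 64) (by omega)
  obtain ⟨ΓC, hC⟩ := A4_gen hN h hMZ hlo
  have s1 : (n : ℝ) ^ (1 - c / 2 + 3 * B) ≤ (n : ℝ) ^ (1 - c / 7) := hN.mono (by linarith)
  have s2 : (3 : ℝ) * (n : ℝ) ^ (1 - c / 7) ≤ (n : ℝ) ^ (1 - c / 8) := hN.cst (by norm_num) (by linarith)
  have s3 := hN.ppos (1 - c / 7)
  have e4 : 4 * (8 * Z) = 32 * Z := by ring
  have e5 : 4 * (64 * Z) = 256 * Z := by ring
  have i1 : Icc (32 * Z) n ⊆ Icc (4 * Z) n := Icc_subset_Icc (by omega) le_rfl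
  refine ⟨Z, Γ0 ∩ Γ1 ∩ ΓC, Γ2, hZ1, hhi, ?_, ⟨?_, ?_, ?_⟩, ?_, ?_, ?_, ?_⟩
  · have h3 : (512 : ℝ) * (n : ℝ) ^ (1 - B) ≤ (n : ℝ) ^ (1 : ℝ) := hN.cst (by norm_num) (by linarith)
    rw [Real.rpow_one] at h3
    have h4 : (256 : ℝ) * (Z : ℝ) ≤ n := by linarith
    exact_mod_cast h4
  · intro u hu
    rw [mem_inter, mem_inter] at hu
    rw [← e4]
    exact h1.sub hu.1.2
  · intro u hu
    rw [mem_inter, mem_inter] at hu
    have hsub : ((Icc (4 * Z) n).filter fun h' => BP Z u h') ⊆ far Z u (Icc (4 * Z) n) ∪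
        (((Icc (4 * Z) n).filter fun x' => FC Z u x') ∪ ((Icc (4 * Z) n).filter fun x' => FC Z x' u)) := by
      intro w hw
      rw [mem_filter] at hw
      rw [mem_union, mem_union, mem_filter, mem_filter]
      rcases hw.2 with h3 | h3 | h3
      · exact Or.inl (g5_far hw.1 h3)
      · exact Or.inr (Or.inl ⟨hw.1, h3⟩)
      · exact Or.inr (Or.inr ⟨hw.1, h3⟩)
    have h3 := (card_le_card hsub).trans ((card_union_le _ _).trans (Nat.add_le_add_left (card_union_le _ _) _))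
    have h4 : (((Icc (4 * Z) n).filter fun h' => BP Z u h').card : ℝ) ≤ ((far Z u (Icc (4 * Z) n)).card : ℝ) +
        ((((Icc (4 * Z) n).filter fun x' => FC Z u x').card : ℝ) +
          (((Icc (4 * Z) n).filter fun x' => FC Z x' u).card : ℝ)) := by
      exact_mod_cast h3
    have h5 := h0.be u hu.1.1
    have h6 : (((Icc (4 * Z) n).filter fun x' => FC Z u x').card : ℝ) ≤ (n : ℝ) ^ (1 - c / 7) := by
      refine le_trans (le_of_eq ?_) (hC.b1 u hu.2)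
      congr
    have h7 : (((Icc (4 * Z) n).filter fun x' => FC Z x' u).card : ℝ) ≤ (n : ℝ) ^ (1 - c / 7) := by
      refine le_trans (le_of_eq ?_) (hC.b2 u hu.2)
      congr
    have h8 : (((Icc (4 * Z) n).filter fun h' => BP Z u h').card : ℝ) ≤ (n : ℝ) ^ (1 - c / 8) := by
      linarith
    refine le_trans (le_of_eq ?_) h8
    congr
  · intro u hu
    rw [mem_inter, mem_inter] at hu
    exact h1.al u hu.1.2
  · have hsub : Icc (32 * Z) n \ (Γ0 ∩ Γ1 ∩ ΓC) ⊆ (Icc (4 * Z) n \ Γ0) ∪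
        ((Icc (4 * (8 * Z)) n \ Γ1) ∪ (Icc (4 * Z) n \ ΓC)) := by
      intro w hw
      rw [mem_sdiff, mem_inter, mem_inter] at hw
      rw [mem_union, mem_union, mem_sdiff, mem_sdiff, mem_sdiff, e4]
      have := i1 hw.1
      have := hw.1
      tauto
    have h3 := (card_le_card hsub).trans ((card_union_le _ _).trans (Nat.add_le_add_left (card_union_le _ _) _))
    have h4 : ((Icc (32 * Z) n \ (Γ0 ∩ Γ1 ∩ ΓC)).card : ℝ) ≤ ((Icc (4 * Z) n \ Γ0).card : ℝ) +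
        (((Icc (4 * (8 * Z)) n \ Γ1).card : ℝ) + ((Icc (4 * Z) n \ ΓC).card : ℝ)) := by
      exact_mod_cast h3
    have h5 := h0.co
    have h6 := h1.co
    have h7 := hC.co
    linarith
  · have := h2.sub
    rwa [e5] at this
  · have := h2.co
    rw [e5] at this
    linarith
  · exact fun u hu => h2.al u hu

end Pool.Agent.Lib.H59V
end

-- from Lib.H59V.O3
section

/-!
# Project H59V, chunk O3 (S/M): the cross operator bound in the regime of the main terms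
-/

open Finset

namespace Pool.Agent.Lib.H59V

open Pool.Agent.H9S
open Pool.Agent.H44W (ee)
open Pool.Agent.Lib.H68T (Lk)
open Pool.Agent.Lib.H18Q (RegP fourier_smallP)

/-- The cross operator bound, with the absolute constant `K0` in the regime. -/
def OPC (K0 : ℝ) : Prop :=
  ∀ Cr : ℝ, 1 ≤ Cr → ∃ c : ℝ, 0 < c ∧ ∃ n0 : ℕ, ∀ n Q : ℕ, n0 ≤ n →
    K0 * Real.log Q ≤ Real.log n → Real.log n ≤ Cr * Real.log Q → ∀ X Z : ℕ, 3 ∣ X → 3 ∣ Z → RegP K0 Q X →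
    RegP K0 Q (X / 3) → 1 ≤ Z → 2 * Z ≤ X → X ≤ n → ∀ f g : ℕ → ℝ, (∀ x, |f x| ≤ 1) → (∀ y, |g y| ≤ 1) →
    |∑ x ∈ Ico (2 * X) (3 * X), ∑ y ∈ Ico Z (2 * Z),
      f x * g y * (kpC x y - kmC (Lk Q (X / Q ^ 2)) (Lk Q (X / 3 / Q ^ 2)) x y)| ≤ (n:ℝ) ^ (2 - c)

/-- Proof. As `OP_main` (`H9S/O3.lean`), with `O2_cross` for `O2_two`; the hypotheses on `X` and on `X/3` are verified in
the same way (`LK_box`, `fourier_smallP`, `BDL_bd`). -/
theorem O3_main (hI : INV) : ∃ K0 : ℝ, 1 ≤ K0 ∧ ∀ K : ℝ, K0 ≤ K → OPC K := by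
  obtain ⟨K1, hK1, hbd⟩ := BDL_bd
  obtain ⟨K2, C2, hK2, hC2, hLK⟩ := Pool.Agent.Lib.H59T.LK_box
  obtain ⟨K3, hfs⟩ := fourier_smallP
  have hO2 := O2_cross (O1_op (E1_inv (K3_inv (T2_box (P2_inv hI)))))
  refine ⟨max (max K1 K2) (max K3 4), hK1.trans ((le_max_left _ _).trans (le_max_left _ _)), fun K hK Cr hCr => ?_⟩
  have hKK1 : K1 ≤ K := ((le_max_left _ _).trans (le_max_left _ _)).trans hK
  have hKK2 : K2 ≤ K := ((le_max_right _ _).trans (le_max_left _ _)).trans hK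
  have hKK3 : K3 ≤ K := ((le_max_left _ _).trans (le_max_right _ _)).trans hK
  have hKK4 : (4:ℝ) ≤ K := ((le_max_right _ _).trans (le_max_right _ _)).trans hK
  have hK0 : 0 ≤ K := by linarith
  obtain ⟨c, hc, n1, h1⟩ := hO2 Cr C2 hCr hC2
  obtain ⟨n2, h2⟩ := hbd c hc
  refine ⟨c, hc, max (max n1 n2) 1, fun n Q hn hKQ hlog X Z hX3 hZ3 hreg hreg3 hZ hZX hXn f g hf hg => ?_⟩
  have hn1 : n1 ≤ n := by omega
  have hn2 : n2 ≤ n := by omega
  have hnp : (0:ℝ) < n := by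
    have : 0 < n := by omega
    exact_mod_cast this
  have hX1 : 1 ≤ X := by omega
  have hX13 : 1 ≤ X / 3 := by omega
  have hXn3 : X / 3 ≤ n := by omega
  have hQ4 : (4:ℝ) ≤ Q := (hreg.mono hK0 hKK4).Q_ge (by norm_num)
  have hQ2 : 2 ≤ Q := by
    have : (2:ℝ) ≤ Q := by linarith
    exact_mod_cast this
  have hQn : Q ≤ n := by
    have hlQ : 0 ≤ Real.log Q := Real.log_natCast_nonneg Q
    have h3 : Real.log Q ≤ Real.log n := by nlinarith
    have h4 : (Q:ℝ) ≤ n := (Real.log_le_log_iff (by linarith) hnp).1 h3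
    exact_mod_cast h4
  have o3_L : ∀ Y : ℕ, RegP K Q Y → LKd C2 Q Y := by
    intro Y hY Q' hQ1 hQQ W f g hW hf hg
    have h3 := hLK Q Q' Y (hY.mono hK0 hKK2) hQ1 hQQ f g W hf hg hW
    refine le_trans (le_of_eq ?_) h3
    rw [BF, Sx, Sy]
    simp only [Lc, Complex.ofReal_sub]
  have o3_F : ∀ Y : ℕ, RegP K Q Y → ∀ th : ℝ, ∀ u v : ℤ, (Y:ℤ) ≤ u → v ≤ 4 * Y →
      ‖∑ m ∈ Ico u v, Ec Q Y m * ee (th * m)‖ ≤ Y * (Q:ℝ) ^ (-(1 / 4) : ℝ) := by
    intro Y hY th u v hu hv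
    have h3 := hfs Q Y (hY.mono hK0 hKK3) th u v hu hv
    refine le_trans (le_of_eq ?_) h3
    refine congrArg norm (Finset.sum_congr rfl fun m _ => ?_)
    rw [Ec, lc, Lc, Complex.ofReal_sub, mul_comm th (m:ℝ)]
    rfl
  exact h1 n hn1 Q X Z hQ2 hlog hX3 hZ3 hZ hZX hXn (o3_L X hreg) (o3_L (X / 3) hreg3) (o3_F X hreg)
    (o3_F (X / 3) hreg3) (h2 n hn2 Q X (hreg.mono hK0 hKK1) (by omega) hQn hX1 hXn)
    (h2 n hn2 Q (X / 3) (hreg3.mono hK0 hKK1) (by omega) hQn hX13 hXn3) f g hf hg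

end Pool.Agent.Lib.H59V
end

-- from Lib.H59V.WDefs
section

/-!
# Project H59V: the mixed forms

`x = 3 y`, `x' = 3 y' + ρ`, common neighbour `3 z + ρ`: the forms `x ± (3z + ρ)`, `x' + (3z + ρ)`, `(x' - (3z + ρ))/3`.
-/

open Finset

namespace Pool.Agent.Lib.H59V

open Pool.Agent.Lib.H68T Pool.Agent.Lib.H18Q Pool.Agent.Lib.H59P Pool.Agent.Lib.H59T

noncomputable section

/-- The forms `3y + 3z + ρ`, `3y - 3z - ρ`, `3y' + 3z + 2ρ`, `y' - z`. -/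
def mf (ρ : ℤ) : Fm 4 := ![fun y _ z => 3 * y + 3 * z + ρ, fun y _ z => 3 * y - 3 * z - ρ,
  fun _ y' z => 3 * y' + 3 * z + 2 * ρ, fun _ y' z => y' - z]

/-- The functions `g 0, g 1, g 2` and `m ↦ g 3 (e m)`. -/
def sc3 (e : ℤ) (g : Fin 4 → ℤ → ℂ) : Fin 4 → ℤ → ℂ := ![g 0, g 1, g 2, fun m => g 3 (e * m)]

end

end Pool.Agent.Lib.H59V
end

-- from Lib.H59V.W1
section

/-!
# Project H59V, chunk W1 (M): substitution modulo numbers prime to 3
-/

open Finset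

namespace Pool.Agent.Lib.H59V

open Pool.Agent.Lib.H68T Pool.Agent.Lib.H18Q Pool.Agent.Lib.H59P Pool.Agent.Lib.H59T

/-- Translations and multiplications by `3` are bijections modulo `N`. Proof. `a ↦ 3 a + c` is injective on `ZMod N`
(`e` is the inverse of `3`), so bijective; `Equiv.sum_comp` (or `Function.Bijective.sum_comp`, `Finite.injective_iff_bijective`). -/
theorem W1_bij (N : ℕ) [NeZero N] (e : ℤ) (he : (N : ℤ) ∣ 3 * e - 1) (c : ZMod N) (F : ZMod N → ℂ) :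
    ∑ a : ZMod N, F (3 * a + c) = ∑ a : ZMod N, F a := by
  have h3 : (3 : ZMod N) * (e : ZMod N) = 1 := by
    have h1 := (ZMod.intCast_zmod_eq_zero_iff_dvd (3 * e - 1) N).2 he
    push_cast at h1
    exact sub_eq_zero.1 h1
  have hinj : Function.Injective (fun a : ZMod N => 3 * a + c) := by
    intro a b hab
    have h1 : 3 * a = 3 * b := add_right_cancel hab
    calc a = (3 * (e : ZMod N)) * a := by rw [h3, one_mul]
      _ = (e : ZMod N) * (3 * a) := by ring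
      _ = (e : ZMod N) * (3 * b) := by rw [h1]
      _ = (3 * (e : ZMod N)) * b := by ring
      _ = b := by rw [h3, one_mul]
  exact Function.Bijective.sum_comp (Finite.injective_iff_bijective.1 hinj) F

/-- **Substitution.** Proof. `C3_fun` for the eight functions `g i`, `g' i` (functions `Gi`, `Gi'` on `ZMod N`), then `C3_nest`
for both sides. On the left the summand at `(y, y', z, z')` is the summand of the right hand side at
`(3y, 3y' + ρ, 3z + ρ, 3z' + ρ)`: `3y + (3z + ρ)`, `3y - (3z + ρ)`, `(3y' + ρ) + (3z + ρ) = 3y' + 3z + 2ρ`,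
`e ((3y' + ρ) - (3z + ρ)) = 3 e (y' - z) = y' - z` in `ZMod N`. `W1_bij` in each of the four variables. (`Db`,
`Fin.prod_univ_four`.) -/
theorem W1_subst (N : ℕ) (hN : 0 < N) (e ρ : ℤ) (he : (N : ℤ) ∣ 3 * e - 1) (g g' : Fin 4 → ℤ → ℂ)
    (hp : ∀ i m, g i (m + N) = g i m) (hp' : ∀ i m, g' i (m + N) = g' i m) :
    S4 N (Db (mf ρ) g g') = S4 N (Db ff (sc3 e g) (sc3 e g')) := by
  have : NeZero N := ⟨hN.ne'⟩
  have h3 : (3 : ZMod N) * (e : ZMod N) = 1 := by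
    have h1 := (ZMod.intCast_zmod_eq_zero_iff_dvd (3 * e - 1) N).2 he
    push_cast at h1
    exact sub_eq_zero.1 h1
  choose G hG using fun i => C3_fun N (g i) (hp i)
  choose G' hG' using fun i => C3_fun N (g' i) (hp' i)
  set H : ZMod N → ZMod N → ZMod N → ZMod N → ℂ := fun a a' b b' =>
    (G 0 (a + b) * (starRingEnd ℂ) (G' 0 (a + b'))) * (G 1 (a - b) * (starRingEnd ℂ) (G' 1 (a - b'))) *
      (G 2 (a' + b) * (starRingEnd ℂ) (G' 2 (a' + b'))) *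
      (G 3 (e * (a' - b)) * (starRingEnd ℂ) (G' 3 (e * (a' - b')))) with hH
  have hR : Db ff (sc3 e g) (sc3 e g') = fun y y' z z' : ℤ => H (y : ZMod N) (y' : ZMod N) (z : ZMod N) (z' : ZMod N) := by
    funext y y' z z'
    rw [Db, Fin.prod_univ_four]
    show (g 0 (y + z) * (starRingEnd ℂ) (g' 0 (y + z'))) * (g 1 (y - z) * (starRingEnd ℂ) (g' 1 (y - z'))) *
      (g 2 (y' + z) * (starRingEnd ℂ) (g' 2 (y' + z'))) * (g 3 (e * (y' - z)) * (starRingEnd ℂ) (g' 3 (e * (y' - z')))) = _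
    rw [hH]
    simp only [hG, hG']
    push_cast
    rfl
  have hL : Db (mf ρ) g g' = fun y y' z z' : ℤ => (fun a a' b b' : ZMod N => H (3 * a + 0) (3 * a' + ρ) (3 * b + ρ) (3 * b' + ρ))
      (y : ZMod N) (y' : ZMod N) (z : ZMod N) (z' : ZMod N) := by
    funext y y' z z'
    rw [Db, Fin.prod_univ_four]
    show (g 0 (3 * y + 3 * z + ρ) * (starRingEnd ℂ) (g' 0 (3 * y + 3 * z' + ρ))) *
      (g 1 (3 * y - 3 * z - ρ) * (starRingEnd ℂ) (g' 1 (3 * y - 3 * z' - ρ))) *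
      (g 2 (3 * y' + 3 * z + 2 * ρ) * (starRingEnd ℂ) (g' 2 (3 * y' + 3 * z' + 2 * ρ))) *
      (g 3 (y' - z) * (starRingEnd ℂ) (g' 3 (y' - z'))) = _
    rw [hH]
    simp only [hG, hG']
    push_cast
    have e1 : ∀ a b c : ZMod N, 3 * a + 0 + (3 * b + c) = 3 * a + 3 * b + c := fun a b c => by ring
    have e2 : ∀ a b c : ZMod N, 3 * a + 0 - (3 * b + c) = 3 * a - 3 * b - c := fun a b c => by ring
    have e3 : ∀ a b c : ZMod N, 3 * a + c + (3 * b + c) = 3 * a + 3 * b + 2 * c := fun a b c => by ring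
    have e4 : ∀ a b c : ZMod N, (e : ZMod N) * (3 * a + c - (3 * b + c)) = a - b := fun a b c => by
      have e5 : (e : ZMod N) * (3 * a + c - (3 * b + c)) = (3 * (e : ZMod N)) * (a - b) := by ring
      rw [e5, h3, one_mul]
    rw [e1, e1, e2, e2, e3, e3, e4, e4]
  rw [hL, hR, C3_nest N H]
  refine (C3_nest N (fun a a' b b' : ZMod N => H (3 * a + 0) (3 * a' + ρ) (3 * b + ρ) (3 * b' + ρ))).trans ?_
  rw [W1_bij N e he 0 (fun a => ∑ a', ∑ b, ∑ b', H a (3 * a' + ρ) (3 * b + ρ) (3 * b' + ρ))]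
  refine Finset.sum_congr rfl fun y _ => ?_
  rw [W1_bij N e he ρ (fun a' => ∑ b, ∑ b', H y a' (3 * b + ρ) (3 * b' + ρ))]
  refine Finset.sum_congr rfl fun y' _ => ?_
  rw [W1_bij N e he ρ (fun b => ∑ b', H y y' b (3 * b' + ρ))]
  refine Finset.sum_congr rfl fun z _ => ?_
  rw [W1_bij N e he ρ (fun b' => H y y' z b')]

end Pool.Agent.Lib.H59V
end

-- from Lib.H59V.W2
section

/-!
# Project H59V, chunk W2 (M): the primes different from 3
-/

open Finset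

namespace Pool.Agent.Lib.H59V

open Pool.Agent.Lib.H68T Pool.Agent.Lib.H18Q Pool.Agent.Lib.H59P Pool.Agent.Lib.H59T

theorem w2_inv (N : ℕ) (h : Nat.Coprime 3 N) : ∃ e : ℤ, (N : ℤ) ∣ 3 * e - 1 := by
  have h1 : IsCoprime (3 : ℤ) (N : ℤ) := by
    have := Nat.isCoprime_iff_coprime.mpr h
    exact_mod_cast this
  obtain ⟨u, v, huv⟩ := h1
  exact ⟨u, -v, by linarith⟩

theorem w2_cop (l : ℕ) (hl : l.Prime) (h3 : l ≠ 3) : Nat.Coprime 3 l :=
  (Nat.coprime_primes (by norm_num) hl).mpr (Ne.symm h3)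

/-- A conductor. Proof. `W1_subst` with `N = l^a`, `e` an inverse of `3` modulo `l^a` (`l ≠ 3`:
`Int.isCoprime`/`ZMod` inverse). If `i0 ≠ 3`: `E2_four` for `sc3 e g`, `sc3 e g'` (`i0` is `0`, `1` or `2`, where `sc3 e g i0 = g i0`).
If `i0 = 3`: `sc3 e g 3 m = c conj χ(e m) = u c conj χ(m)`, `u = conj χ(e)`, `‖u‖ = 1` (`e` is a unit modulo `l^a`;
`DirichletCharacter`: `norm_eq_one` on units or `χ(3) χ(e) = 1` and norms `≤ 1`). In `Db` the factor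
`u conj u = 1` cancels: `Db ff (sc3 e g) (sc3 e g') = Db ff k k'` with `k 3 m = k' 3 m = c conj χ(m)`, `k i = g i`,
`k' i = g' i` for `i ≠ 3`; `E2_four`. -/
theorem W2_char (l a : ℕ) (hl : l.Prime) (h3 : l ≠ 3) (ha : 1 ≤ a) (ρ : ℤ) (χ : DirichletCharacter ℂ (l ^ a))
    (hχ : χ.IsPrimitive) (c : ℝ) (hc : |c| ≤ 2) (g g' : Fin 4 → ℤ → ℂ)
    (hp : ∀ i m, g i (m + (l ^ a : ℕ)) = g i m) (hp' : ∀ i m, g' i (m + (l ^ a : ℕ)) = g' i m)
    (hb : ∀ i m, ‖g i m‖ ≤ 2) (hb' : ∀ i m, ‖g' i m‖ ≤ 2) (i0 : Fin 4)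
    (h : ∀ m : ℤ, g i0 m = c * (starRingEnd ℂ) (χ (m : ZMod (l ^ a))))
    (h' : ∀ m : ℤ, g' i0 m = c * (starRingEnd ℂ) (χ (m : ZMod (l ^ a)))) :
    ‖S4 (l ^ a) (Db (mf ρ) g g')‖ ≤ ((l ^ a : ℕ) : ℝ) ^ 4 * (2 ^ 10 * ((l ^ a : ℕ) : ℝ) ^ (-(1 / 18 : ℝ))) := by
  have hN : 0 < l ^ a := pow_pos hl.pos _
  obtain ⟨e, he⟩ := w2_inv (l ^ a) ((w2_cop l hl h3).pow_right a)
  rw [W1_subst (l ^ a) hN e ρ he g g' hp hp']
  have hper : ∀ (f : Fin 4 → ℤ → ℂ), (∀ i m, f i (m + (l ^ a : ℕ)) = f i m) →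
      ∀ i m, sc3 e f i (m + (l ^ a : ℕ)) = sc3 e f i m := by
    intro f hf i m
    fin_cases i
    · exact hf 0 m
    · exact hf 1 m
    · exact hf 2 m
    · have h5 : Function.Periodic (f 3) ((l ^ a : ℕ) : ℤ) := hf 3
      have h6 := h5.int_mul e (e * m)
      change f 3 (e * (m + (l ^ a : ℕ))) = f 3 (e * m)
      rw [mul_add]
      exact h6
  have hbd : ∀ (f : Fin 4 → ℤ → ℂ), (∀ i m, ‖f i m‖ ≤ 2) → ∀ i m, ‖sc3 e f i m‖ ≤ 2 := by
    intro f hf i m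
    fin_cases i
    · exact hf 0 m
    · exact hf 1 m
    · exact hf 2 m
    · exact hf 3 (e * m)
  by_cases hi : i0 = 3
  · subst hi
    have hu : (starRingEnd ℂ) (χ ((e : ℤ) : ZMod (l ^ a))) * χ ((e : ℤ) : ZMod (l ^ a)) = 1 := by
      have h5 : ((3 : ℤ) : ZMod (l ^ a)) * ((e : ℤ) : ZMod (l ^ a)) = 1 := by
        have h6 := (ZMod.intCast_zmod_eq_zero_iff_dvd (3 * e - 1) (l ^ a)).mpr he
        push_cast at h6
        push_cast
        linear_combination h6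
      have h6 : χ ((3 : ℤ) : ZMod (l ^ a)) * χ ((e : ℤ) : ZMod (l ^ a)) = 1 := by
        rw [← map_mul, h5, map_one]
      have h7 := congrArg norm h6
      rw [norm_mul, norm_one] at h7
      have h8 := DirichletCharacter.norm_le_one χ ((3 : ℤ) : ZMod (l ^ a))
      have h9 := DirichletCharacter.norm_le_one χ ((e : ℤ) : ZMod (l ^ a))
      have h10 : ‖χ ((e : ℤ) : ZMod (l ^ a))‖ = 1 := by
        refine le_antisymm h9 ?_
        nlinarith [norm_nonneg (χ ((e : ℤ) : ZMod (l ^ a)))]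
      rw [mul_comm, Complex.mul_conj, Complex.normSq_eq_norm_sq, h10]
      norm_num
    have hDb : Db ff (sc3 e g) (sc3 e g') = Db ff g g' := by
      funext y y' z z'
      unfold Db
      rw [Fin.prod_univ_four, Fin.prod_univ_four]
      congr 1
      change g 3 (e * (y' - z)) * (starRingEnd ℂ) (g' 3 (e * (y' - z'))) =
        g 3 (y' - z) * (starRingEnd ℂ) (g' 3 (y' - z'))
      rw [h, h, h', h', Int.cast_mul, Int.cast_mul, map_mul χ, map_mul χ]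
      simp only [map_mul, Complex.conj_conj, Complex.conj_ofReal]
      linear_combination ((c : ℂ) * (starRingEnd ℂ) (χ ((y' - z : ℤ) : ZMod (l ^ a))) *
        (c * χ ((y' - z' : ℤ) : ZMod (l ^ a)))) * hu
    rw [hDb]
    exact E2_four l a hl ha χ hχ c hc g g' hp hp' hb hb' 3 h h'
  · refine E2_four l a hl ha χ hχ c hc (sc3 e g) (sc3 e g') (hper g hp) (hper g' hp') (hbd g hb)
      (hbd g' hb') i0 ?_ ?_
    · intro m
      rw [← h m]
      fin_cases i0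
      · rfl
      · rfl
      · rfl
      · exact absurd rfl hi
    · intro m
      rw [← h' m]
      fin_cases i0
      · rfl
      · rfl
      · rfl
      · exact absurd rfl hi

/-- No conductor. Proof. `W1_subst` with `N = l` (the functions have period `l`: `gl l m` depends only on `l ∣ m`);
`gl l (e m) = gl l m` because `l ∣ e m ↔ l ∣ m` (`l` does not divide `e`). So `sc3 e` does not change the functions and
`E5_four` applies. -/
theorem W2_gl (l : ℕ) (hl : l.Prime) (h3 : l ≠ 3) (ρ : ℤ) (s s' : Fin 4 → Prop) [DecidablePred s]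
    [DecidablePred s'] (hs : ∃ i, s i ∨ s' i) :
    ‖S4 l (Db (mf ρ) (fun i m => if s i then ((gl l m : ℝ) : ℂ) else 1)
      (fun i m => if s' i then ((gl l m : ℝ) : ℂ) else 1))‖ ≤ 7 * (l : ℝ) ^ 2 := by
  obtain ⟨e, he⟩ := w2_inv l (w2_cop l hl h3)
  have hle : ¬ (l : ℤ) ∣ e := by
    intro hd
    have h5 : (l : ℤ) ∣ 1 := by
      have h6 : (1 : ℤ) = 3 * e - (3 * e - 1) := by ring
      rw [h6]
      exact dvd_sub (Dvd.dvd.mul_left hd 3) he
    have h7 : (l : ℤ) ≤ 1 := Int.le_of_dvd one_pos h5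
    have h8 := hl.two_le
    omega
  have hlp : Prime (l : ℤ) := Nat.prime_iff_prime_int.mp hl
  have hg1 : ∀ m : ℤ, gl l (m + l) = gl l m := by
    intro m
    unfold gl
    have : ((l : ℤ) ∣ m + l) ↔ ((l : ℤ) ∣ m) := dvd_add_self_right
    simp only [this]
  have hg2 : ∀ m : ℤ, gl l (e * m) = gl l m := by
    intro m
    unfold gl
    have : ((l : ℤ) ∣ e * m) ↔ ((l : ℤ) ∣ m) :=
      ⟨fun h => (hlp.dvd_or_dvd h).resolve_left hle, fun h => Dvd.dvd.mul_left h e⟩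
    simp only [this]
  rw [W1_subst l hl.pos e ρ he _ _ (fun i m => by simp only [hg1]) (fun i m => by simp only [hg1])]
  have hsc : ∀ (t : Fin 4 → Prop) [DecidablePred t],
      sc3 e (fun i m => if t i then ((gl l m : ℝ) : ℂ) else 1) =
        fun i m => if t i then ((gl l m : ℝ) : ℂ) else 1 := by
    intro t _
    funext i m
    fin_cases i
    · rfl
    · rfl
    · rfl
    · change (if t 3 then ((gl l (e * m) : ℝ) : ℂ) else 1) = if t 3 then ((gl l m : ℝ) : ℂ) else 1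
      rw [hg2]
  rw [hsc, hsc]
  exact E5_four l hl s s' hs

end Pool.Agent.Lib.H59V
end

-- from Lib.H59V.W3
section

/-!
# Project H59V, chunk W3 (S/M): sums over the multiples of 3 modulo a power of 3
-/

open Finset

namespace Pool.Agent.Lib.H59V

open Pool.Agent.Lib.H68T Pool.Agent.Lib.H18Q Pool.Agent.Lib.H59P Pool.Agent.Lib.H59T

theorem w3_ker (b : ℕ) (hb : 1 ≤ b) [NeZero (3 ^ b)] :
    (univ.filter fun z : ZMod (3 ^ b) => 3 * z = 0).card = 3 := by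
  classical
  obtain ⟨a, rfl⟩ : ∃ a, b = a + 1 := ⟨b - 1, by omega⟩
  have hpos : 0 < 3 ^ a := by positivity
  have hN : 3 ^ (a + 1) = 3 * 3 ^ a := by rw [pow_succ]; ring
  have h1 : (univ.filter fun z : ZMod (3 ^ (a + 1)) => 3 * z = 0) =
      (range 3).image (fun k => ((3 ^ a * k : ℕ) : ZMod (3 ^ (a + 1)))) := by
    ext z
    rw [mem_filter, mem_image]
    constructor
    · rintro ⟨-, hz⟩
      have h2 : ((3 * z.val : ℕ) : ZMod (3 ^ (a + 1))) = 0 := by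
        push_cast
        rw [ZMod.natCast_zmod_val]
        exact hz
      rw [ZMod.natCast_eq_zero_iff] at h2
      have h3 : 3 ^ a ∣ z.val := by
        have h2' : 3 * 3 ^ a ∣ 3 * z.val := by
          rw [← hN]
          exact h2
        exact Nat.dvd_of_mul_dvd_mul_left (by norm_num) h2'
      obtain ⟨k, hk⟩ := h3
      have h4 := ZMod.val_lt z
      refine ⟨k, ?_, ?_⟩
      · rw [mem_range]
        rw [hk] at h4
        have h5 : 3 ^ a * k < 3 ^ a * 3 := by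
          calc 3 ^ a * k < 3 ^ (a + 1) := h4
            _ = 3 ^ a * 3 := by rw [pow_succ]
        exact Nat.lt_of_mul_lt_mul_left h5
      · rw [← hk, ZMod.natCast_zmod_val]
    · rintro ⟨k, -, rfl⟩
      refine ⟨mem_univ _, ?_⟩
      have h2 : (3 : ZMod (3 ^ (a + 1))) * ((3 ^ a * k : ℕ) : ZMod (3 ^ (a + 1))) =
          ((3 ^ (a + 1) * k : ℕ) : ZMod (3 ^ (a + 1))) := by
        rw [pow_succ]
        push_cast
        ring
      rw [h2, ZMod.natCast_eq_zero_iff]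
      exact dvd_mul_right _ _
  rw [h1, card_image_of_injOn, card_range]
  intro k hk k' hk' h
  rw [mem_coe, mem_range] at hk hk'
  have h2 : ((3 ^ a * k : ℕ) : ZMod (3 ^ (a + 1))) = ((3 ^ a * k' : ℕ) : ZMod (3 ^ (a + 1))) := h
  rw [ZMod.natCast_eq_natCast_iff', Nat.mod_eq_of_lt, Nat.mod_eq_of_lt] at h2
  · exact Nat.eq_of_mul_eq_mul_left hpos h2
  · rw [pow_succ]
    exact Nat.mul_lt_mul_of_pos_left hk' hpos
  · rw [pow_succ]
    exact Nat.mul_lt_mul_of_pos_left hk hpos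

theorem w3_fib (b : ℕ) (hb : 1 ≤ b) [NeZero (3 ^ b)] (c y0 : ZMod (3 ^ b)) :
    (univ.filter fun y : ZMod (3 ^ b) => 3 * y + c = 3 * y0 + c).card = 3 := by
  classical
  refine Eq.trans ?_ (w3_ker b hb)
  refine card_nbij' (fun y => y - y0) (fun z => z + y0) ?_ ?_ ?_ ?_
  · intro y hy
    rw [mem_coe, mem_filter] at hy ⊢
    refine ⟨mem_univ _, ?_⟩
    have h1 := hy.2
    linear_combination h1
  · intro z hz
    rw [mem_coe, mem_filter] at hz ⊢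
    refine ⟨mem_univ _, ?_⟩
    have h1 := hz.2
    linear_combination h1
  · intro y _
    show y - y0 + y0 = y
    ring
  · intro z _
    show z + y0 - y0 = z
    ring

/-- Proof. The map `y ↦ 3 y + c` of `ZMod N`, `N = 3^b`, `b ≥ 1`: each `t` with `t - c ∈ 3 ZMod N` has exactly `3` preimages
(`y`, `y + N/3`, `y + 2N/3`), the other `t` none. Direct: by `Finset.sum_comp`-type fibre counting, or with natural
representatives: `∑_{y < 3M} F(3y + c) = 3 ∑_{y < M} F(3 y + c)` (`N = 3 M`, `3 (y + M) = 3 y` in `ZMod N`), and the numbers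
`3 y`, `y < M`, are the multiples of `3` below `N`. Here `hF` says that `F` vanishes outside of the image. -/
theorem W3_sum (b : ℕ) (hb : 1 ≤ b) [NeZero (3 ^ b)] (c : ZMod (3 ^ b)) (F : ZMod (3 ^ b) → ℂ)
    (hF : ∀ t : ZMod (3 ^ b), (∀ y : ZMod (3 ^ b), t ≠ 3 * y + c) → F t = 0) :
    ∑ y : ZMod (3 ^ b), F (3 * y + c) = 3 * ∑ t : ZMod (3 ^ b), F t := by
  classical
  rw [← sum_fiberwise univ (fun y : ZMod (3 ^ b) => 3 * y + c), mul_sum]
  refine sum_congr rfl fun t _ => ?_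
  have h1 : ∑ y ∈ univ.filter (fun y : ZMod (3 ^ b) => 3 * y + c = t), F (3 * y + c) =
      ((univ.filter (fun y : ZMod (3 ^ b) => 3 * y + c = t)).card : ℂ) * F t := by
    rw [← nsmul_eq_mul, ← sum_const]
    refine sum_congr rfl fun y hy => ?_
    rw [(mem_filter.1 hy).2]
  rw [h1]
  by_cases h2 : ∀ y : ZMod (3 ^ b), t ≠ 3 * y + c
  · rw [hF t h2, mul_zero, mul_zero]
  · push Not at h2
    obtain ⟨y0, rfl⟩ := h2
    rw [w3_fib b hb c y0]
    norm_num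

/-- Proof. The same for nonnegative functions, as an inequality (each `t` has at most `3` preimages). -/
theorem W3_le (b : ℕ) (hb : 1 ≤ b) [NeZero (3 ^ b)] (c : ZMod (3 ^ b)) (F : ZMod (3 ^ b) → ℝ)
    (hF : ∀ t, 0 ≤ F t) : ∑ y : ZMod (3 ^ b), F (3 * y + c) ≤ 3 * ∑ t : ZMod (3 ^ b), F t := by
  classical
  rw [← sum_fiberwise univ (fun y : ZMod (3 ^ b) => 3 * y + c), mul_sum]
  refine sum_le_sum fun t _ => ?_
  have h1 : ∑ y ∈ univ.filter (fun y : ZMod (3 ^ b) => 3 * y + c = t), F (3 * y + c) =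
      ((univ.filter (fun y : ZMod (3 ^ b) => 3 * y + c = t)).card : ℝ) * F t := by
    rw [← nsmul_eq_mul, ← sum_const]
    refine sum_congr rfl fun y hy => ?_
    rw [(mem_filter.1 hy).2]
  rw [h1]
  refine mul_le_mul_of_nonneg_right ?_ (hF t)
  by_cases h2 : ∀ y : ZMod (3 ^ b), t ≠ 3 * y + c
  · rw [filter_eq_empty_iff.2 (fun y _ h => h2 y h.symm), card_empty]
    norm_num
  · push Not at h2
    obtain ⟨y0, rfl⟩ := h2
    rw [w3_fib b hb c y0]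
    norm_num

/-- Proof. `W3_le` twice. -/
theorem W3_le2 (b : ℕ) (hb : 1 ≤ b) [NeZero (3 ^ b)] (c : ZMod (3 ^ b))
    (F : ZMod (3 ^ b) → ZMod (3 ^ b) → ℝ) (hF : ∀ t t', 0 ≤ F t t') :
    ∑ z : ZMod (3 ^ b), ∑ z' : ZMod (3 ^ b), F (3 * z + c) (3 * z' + c) ≤
      9 * ∑ t : ZMod (3 ^ b), ∑ t' : ZMod (3 ^ b), F t t' := by
  have h1 : ∀ z ∈ (univ : Finset (ZMod (3 ^ b))), ∑ z' : ZMod (3 ^ b), F (3 * z + c) (3 * z' + c) ≤
      3 * ∑ t' : ZMod (3 ^ b), F (3 * z + c) t' :=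
    fun z _ => W3_le b hb c (F (3 * z + c)) (hF _)
  refine (sum_le_sum h1).trans ?_
  rw [← mul_sum]
  have h2 := W3_le b hb c (fun t => ∑ t' : ZMod (3 ^ b), F t t') (fun t => sum_nonneg fun t' _ => hF t t')
  linarith

end Pool.Agent.Lib.H59V
end

-- from Lib.H59V.W4
section

/-!
# Project H59V, chunk W4 (M): the prime 3, conductor at the fourth form, and the general step
-/

open Finset

namespace Pool.Agent.Lib.H59V

open Pool.Agent.Lib.H68T Pool.Agent.Lib.H18Q Pool.Agent.Lib.H59P Pool.Agent.Lib.H59T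

/-- **The last step.** Proof. `E1_cs` with `A`, `B`, `M = 36`, `C = 16 q`, `q = 3^b`: at most
`10 · 16 q · 36 · q³ q^(-1/18) = 5760 q⁴ q^(-1/18) ≤ 2^13 q⁴ q^(-1/18)`. -/
theorem W4_fin (b : ℕ) [NeZero (3 ^ b)] (A B : ZMod (3 ^ b) → ZMod (3 ^ b) → ℂ)
    (hA : ∑ z, ∑ z', ‖A z z'‖ ^ 2 ≤ 36 ^ 2 * (96 * ((3 ^ b : ℕ) : ℝ) ^ 4 * (3 : ℝ) ^ (-(b / 9 : ℝ))))
    (hB : ∀ z z', ‖B z z'‖ ≤ 16 * ((3 ^ b : ℕ) : ℝ)) :
    ‖∑ z, ∑ z', A z z' * B z z'‖ ≤
      ((3 ^ b : ℕ) : ℝ) ^ 4 * (2 ^ 13 * ((3 ^ b : ℕ) : ℝ) ^ (-(1 / 18 : ℝ))) := by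
  have h3 : ((3 : ℕ) : ℝ) = 3 := by norm_num
  have hA' : ∑ z, ∑ z', ‖A z z'‖ ^ 2 ≤
      36 ^ 2 * (96 * ((3 ^ b : ℕ) : ℝ) ^ 4 * ((3 : ℕ) : ℝ) ^ (-(b / 9 : ℝ))) := by
    rw [h3]
    exact hA
  refine (E1_cs 3 b Nat.prime_three A B 36 (16 * ((3 ^ b : ℕ) : ℝ)) (by positivity) (by norm_num) hA' hB).trans ?_
  have e4 : 10 * (16 * ((3 ^ b : ℕ) : ℝ)) * 36 * ((3 ^ b : ℕ) : ℝ) ^ 3 * ((3 ^ b : ℕ) : ℝ) ^ (-(1 / 18 : ℝ)) =
      5760 * (((3 ^ b : ℕ) : ℝ) ^ 4 * ((3 ^ b : ℕ) : ℝ) ^ (-(1 / 18 : ℝ))) := by ring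
  have e5 : ((3 ^ b : ℕ) : ℝ) ^ 4 * (2 ^ 13 * ((3 ^ b : ℕ) : ℝ) ^ (-(1 / 18 : ℝ))) =
      8192 * (((3 ^ b : ℕ) : ℝ) ^ 4 * ((3 ^ b : ℕ) : ℝ) ^ (-(1 / 18 : ℝ))) := by ring
  rw [e4, e5]
  exact mul_le_mul_of_nonneg_right (by norm_num) (by positivity)

/-- **The fourth form.** Proof. `C3_fun` for all functions, `C3_nest`: the sum is over `z, z'` of
`B(z, z') = ∑_y (forms 0 and 1)` times `A(z, z') = ∑_{y'} (G2 (3y' + 3z + 2ρ) conj G2' (3y' + 3z' + 2ρ))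
(G3 (y' - z) conj G3' (y' - z'))`. `A` is the sum in `e2_minus` (`H59T/E2.lean`, `l = 3`) for the functions
`G0 t = G2 (3 t + 2ρ)`, `G0' t = G2' (3 t + 2ρ)`, `G1 = G3 = c conj χ`, `G1' = G3'`: `∑∑ ‖A‖² ≤ 4² (96 …) ≤ 36² (96 …)`.
`‖B‖ ≤ 16 · 3^b` (four factors at most `2`). `W4_fin`. -/
theorem W4_three (b : ℕ) (hb1 : 1 ≤ b) (ρ : ℤ) (χ : DirichletCharacter ℂ (3 ^ b))
    (hχ : χ.IsPrimitive) (c : ℝ) (hc : |c| ≤ 2) (g g' : Fin 4 → ℤ → ℂ)
    (hp : ∀ i m, g i (m + (3 ^ b : ℕ)) = g i m) (hp' : ∀ i m, g' i (m + (3 ^ b : ℕ)) = g' i m)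
    (hb : ∀ i m, ‖g i m‖ ≤ 2) (hb' : ∀ i m, ‖g' i m‖ ≤ 2)
    (h : ∀ m : ℤ, g 3 m = c * (starRingEnd ℂ) (χ (m : ZMod (3 ^ b))))
    (h' : ∀ m : ℤ, g' 3 m = c * (starRingEnd ℂ) (χ (m : ZMod (3 ^ b)))) :
    ‖S4 (3 ^ b) (Db (mf ρ) g g')‖ ≤ ((3 ^ b : ℕ) : ℝ) ^ 4 * (2 ^ 13 * ((3 ^ b : ℕ) : ℝ) ^ (-(1 / 18 : ℝ))) := by
  haveI : NeZero (3 ^ b) := ⟨pow_ne_zero _ (by norm_num)⟩
  choose G hG using fun i => C3_fun (3 ^ b) (g i) (hp i)
  choose G' hG' using fun i => C3_fun (3 ^ b) (g' i) (hp' i)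
  have hs : ∀ t : ZMod (3 ^ b), ∃ m : ℤ, (m : ZMod (3 ^ b)) = t := fun t => ZMod.intCast_surjective t
  have bG : ∀ i t, ‖G i t‖ ≤ 2 := by
    intro i t
    obtain ⟨m, rfl⟩ := hs t
    rw [← hG]
    exact hb i m
  have bG' : ∀ i t, ‖G' i t‖ ≤ 2 := by
    intro i t
    obtain ⟨m, rfl⟩ := hs t
    rw [← hG']
    exact hb' i m
  have hG3 : ∀ t, G 3 t = c * (starRingEnd ℂ) (χ t) := by
    intro t
    obtain ⟨m, rfl⟩ := hs t
    rw [← hG]
    exact h m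
  have hG3' : ∀ t, G' 3 t = c * (starRingEnd ℂ) (χ t) := by
    intro t
    obtain ⟨m, rfl⟩ := hs t
    rw [← hG']
    exact h' m
  obtain ⟨F, hF⟩ : ∃ F : Fin 4 → ZMod (3 ^ b) → ℂ, F = ![fun t => G 0 (3 * t + (ρ : ZMod (3 ^ b))),
    fun t => G 1 (3 * t - (ρ : ZMod (3 ^ b))), fun t => G 2 (3 * t + 2 * (ρ : ZMod (3 ^ b))), G 3] := ⟨_, rfl⟩
  obtain ⟨F', hF'⟩ : ∃ F' : Fin 4 → ZMod (3 ^ b) → ℂ, F' = ![fun t => G' 0 (3 * t + (ρ : ZMod (3 ^ b))),
    fun t => G' 1 (3 * t - (ρ : ZMod (3 ^ b))), fun t => G' 2 (3 * t + 2 * (ρ : ZMod (3 ^ b))), G' 3] := ⟨_, rfl⟩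
  have f0 : ∀ t, F 0 t = G 0 (3 * t + (ρ : ZMod (3 ^ b))) := fun t => by rw [hF]; rfl
  have f1 : ∀ t, F 1 t = G 1 (3 * t - (ρ : ZMod (3 ^ b))) := fun t => by rw [hF]; rfl
  have f2 : ∀ t, F 2 t = G 2 (3 * t + 2 * (ρ : ZMod (3 ^ b))) := fun t => by rw [hF]; rfl
  have f3 : ∀ t, F 3 t = G 3 t := fun t => by rw [hF]; rfl
  have f0' : ∀ t, F' 0 t = G' 0 (3 * t + (ρ : ZMod (3 ^ b))) := fun t => by rw [hF']; rfl
  have f1' : ∀ t, F' 1 t = G' 1 (3 * t - (ρ : ZMod (3 ^ b))) := fun t => by rw [hF']; rfl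
  have f2' : ∀ t, F' 2 t = G' 2 (3 * t + 2 * (ρ : ZMod (3 ^ b))) := fun t => by rw [hF']; rfl
  have f3' : ∀ t, F' 3 t = G' 3 t := fun t => by rw [hF']; rfl
  have e1 : Db (mf ρ) g g' = fun y y' z z' : ℤ =>
      (fun y y' z z' : ZMod (3 ^ b) =>
        ((F 0 (y + z) * (starRingEnd ℂ) (F' 0 (y + z'))) * (F 1 (y - z) * (starRingEnd ℂ) (F' 1 (y - z')))) *
        ((F 2 (y' + z) * (starRingEnd ℂ) (F' 2 (y' + z'))) * (F 3 (y' - z) * (starRingEnd ℂ) (F' 3 (y' - z')))))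
        y y' z z' := by
    funext y y' z z'
    rw [Db, Fin.prod_univ_four]
    show (g 0 (3 * y + 3 * z + ρ) * (starRingEnd ℂ) (g' 0 (3 * y + 3 * z' + ρ))) *
      (g 1 (3 * y - 3 * z - ρ) * (starRingEnd ℂ) (g' 1 (3 * y - 3 * z' - ρ))) *
      (g 2 (3 * y' + 3 * z + 2 * ρ) * (starRingEnd ℂ) (g' 2 (3 * y' + 3 * z' + 2 * ρ))) *
      (g 3 (y' - z) * (starRingEnd ℂ) (g' 3 (y' - z'))) = _
    simp only [hG, hG', f0, f1, f2, f3, f0', f1', f2', f3']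
    push_cast
    have e1 : ∀ x u t : ZMod (3 ^ b), 3 * (x + u) + t = 3 * x + 3 * u + t := fun x u t => by ring
    have e2 : ∀ x u t : ZMod (3 ^ b), 3 * (x - u) - t = 3 * x - 3 * u - t := fun x u t => by ring
    rw [e1, e1, e2, e2, e1, e1]
    ring
  have e2 : S4 (3 ^ b) (Db (mf ρ) g g') = ∑ z : ZMod (3 ^ b), ∑ z' : ZMod (3 ^ b),
      (∑ y : ZMod (3 ^ b), (F 0 (y + z) * (starRingEnd ℂ) (F' 0 (y + z'))) *
        (F 1 (y - z) * (starRingEnd ℂ) (F' 1 (y - z')))) *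
      ∑ y' : ZMod (3 ^ b), (F 2 (y' + z) * (starRingEnd ℂ) (F' 2 (y' + z'))) *
        (F 3 (y' - z) * (starRingEnd ℂ) (F' 3 (y' - z'))) := by
    rw [e1, C3_nest (3 ^ b) (fun y y' z z' : ZMod (3 ^ b) =>
        ((F 0 (y + z) * (starRingEnd ℂ) (F' 0 (y + z'))) * (F 1 (y - z) * (starRingEnd ℂ) (F' 1 (y - z')))) *
        ((F 2 (y' + z) * (starRingEnd ℂ) (F' 2 (y' + z'))) * (F 3 (y' - z) * (starRingEnd ℂ) (F' 3 (y' - z')))))]
    have e3 : ∀ y : ZMod (3 ^ b), ∑ y' : ZMod (3 ^ b), ∑ z : ZMod (3 ^ b), ∑ z' : ZMod (3 ^ b),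
        ((F 0 (y + z) * (starRingEnd ℂ) (F' 0 (y + z'))) * (F 1 (y - z) * (starRingEnd ℂ) (F' 1 (y - z')))) *
        ((F 2 (y' + z) * (starRingEnd ℂ) (F' 2 (y' + z'))) * (F 3 (y' - z) * (starRingEnd ℂ) (F' 3 (y' - z')))) =
        ∑ z : ZMod (3 ^ b), ∑ z' : ZMod (3 ^ b), ∑ y' : ZMod (3 ^ b),
        ((F 0 (y + z) * (starRingEnd ℂ) (F' 0 (y + z'))) * (F 1 (y - z) * (starRingEnd ℂ) (F' 1 (y - z')))) *
        ((F 2 (y' + z) * (starRingEnd ℂ) (F' 2 (y' + z'))) * (F 3 (y' - z) * (starRingEnd ℂ) (F' 3 (y' - z')))) := by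
      intro y
      rw [Finset.sum_comm]
      exact Finset.sum_congr rfl fun z _ => Finset.sum_comm
    rw [Finset.sum_congr rfl fun y _ => e3 y, Finset.sum_comm]
    refine Finset.sum_congr rfl fun z _ => ?_
    rw [Finset.sum_comm]
    refine Finset.sum_congr rfl fun z' _ => ?_
    rw [Finset.sum_mul_sum]
  have hsw : ∀ A B : ZMod (3 ^ b) → ZMod (3 ^ b) → ℂ, ∑ z, ∑ z', A z z' * B z z' = ∑ z, ∑ z', B z z' * A z z' :=
    fun A B => Finset.sum_congr rfl fun z _ => Finset.sum_congr rfl fun z' _ => mul_comm _ _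
  rw [e2, hsw]
  refine W4_fin b _ _ ?_ ?_
  · refine (e2_minus 3 b Nat.prime_three hb1 χ hχ c hc (F 2) (F' 2) (F 3) (F' 3) (fun t => by rw [f3, hG3])
      (fun t => by rw [f3', hG3']) (fun t => by rw [f2]; exact bG 2 _) (fun t => by rw [f2']; exact bG' 2 _)).trans ?_
    have h3 : ((3 : ℕ) : ℝ) = 3 := by norm_num
    rw [h3]
    exact mul_le_mul_of_nonneg_right (by norm_num) (by positivity)
  · intro z z'
    exact e2_triv (3 ^ b) (F 0) (F' 0) (F 1) (F' 1) (fun t => by rw [f0]; exact bG 0 _)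
      (fun t => by rw [f0']; exact bG' 0 _) (fun t => by rw [f1]; exact bG 1 _)
      (fun t => by rw [f1']; exact bG' 1 _) z z'

end Pool.Agent.Lib.H59V
end

-- from Lib.H59V.W5
section

/-!
# Project H59V, chunk W5 (M): the prime 3, conductor at the first or second form
-/

open Finset

namespace Pool.Agent.Lib.H59V

open Pool.Agent.Lib.H68T Pool.Agent.Lib.H18Q Pool.Agent.Lib.H59P Pool.Agent.Lib.H59T

/-- the trivial bound -/
theorem w5_triv (q : ℕ) [NeZero q] (F0 F1 F2 F3 : ZMod q → ℂ) (b0 : ∀ t, ‖F0 t‖ ≤ 2) (b1 : ∀ t, ‖F1 t‖ ≤ 2)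
    (b2 : ∀ t, ‖F2 t‖ ≤ 2) (b3 : ∀ t, ‖F3 t‖ ≤ 2) :
    ‖∑ y : ZMod q, (F0 y * (starRingEnd ℂ) (F1 y)) * (F2 y * (starRingEnd ℂ) (F3 y))‖ ≤ 16 * (q : ℝ) := by
  calc _ ≤ ∑ y : ZMod q, ‖(F0 y * (starRingEnd ℂ) (F1 y)) * (F2 y * (starRingEnd ℂ) (F3 y))‖ := norm_sum_le _ _
    _ ≤ ∑ _y : ZMod q, (16 : ℝ) := by
      refine Finset.sum_le_sum fun y _ => ?_
      rw [norm_mul, norm_mul, norm_mul, RCLike.norm_conj, RCLike.norm_conj]
      calc _ ≤ ((2 : ℝ) * 2) * (2 * 2) :=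
            mul_le_mul (mul_le_mul (b0 _) (b1 _) (norm_nonneg _) (by norm_num))
              (mul_le_mul (b2 _) (b3 _) (norm_nonneg _) (by norm_num)) (by positivity) (by norm_num)
        _ = 16 := by norm_num
    _ = 16 * (q : ℝ) := by rw [Finset.sum_const, Finset.card_univ, ZMod.card, nsmul_eq_mul, mul_comm]

/-- the sum over the multiples of 3 -/
theorem w5_one (b : ℕ) (hb : 1 ≤ b) [NeZero (3 ^ b)] (F H : ZMod (3 ^ b) → ℂ)
    (h1 : ∀ y : ZMod (3 ^ b), F (3 * y) = H (3 * y))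
    (h2 : ∀ t : ZMod (3 ^ b), (∀ y : ZMod (3 ^ b), t ≠ 3 * y) → H t = 0) :
    ‖∑ y : ZMod (3 ^ b), F (3 * y)‖ ^ 2 = 9 * ‖∑ t : ZMod (3 ^ b), H t‖ ^ 2 := by
  have e2 := W3_sum b hb 0 H (fun t ht => by
    refine h2 t fun y hy => ht y ?_
    rw [hy, add_zero])
  have e3 : ∑ y : ZMod (3 ^ b), F (3 * y) = 3 * ∑ t : ZMod (3 ^ b), H t := by
    rw [← e2]
    refine Finset.sum_congr rfl fun y _ => ?_
    rw [h1 y, add_zero]
  rw [e3, norm_mul, mul_pow, Complex.norm_ofNat]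
  ring

theorem w5_A (b : ℕ) (hb : 1 ≤ b) [NeZero (3 ^ b)] (r : ZMod (3 ^ b))
    (F H : ZMod (3 ^ b) → ZMod (3 ^ b) → ZMod (3 ^ b) → ℂ)
    (h1 : ∀ z z' y : ZMod (3 ^ b), F (3 * z + r) (3 * z' + r) (3 * y) = H (3 * z + r) (3 * z' + r) (3 * y))
    (h2 : ∀ z z' t : ZMod (3 ^ b), (∀ y : ZMod (3 ^ b), t ≠ 3 * y) → H (3 * z + r) (3 * z' + r) t = 0)
    (C : ℝ) (hC : ∑ z : ZMod (3 ^ b), ∑ z' : ZMod (3 ^ b), ‖∑ y : ZMod (3 ^ b), H z z' y‖ ^ 2 ≤ 4 ^ 2 * C) :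
    ∑ z : ZMod (3 ^ b), ∑ z' : ZMod (3 ^ b), ‖∑ y : ZMod (3 ^ b), F (3 * z + r) (3 * z' + r) (3 * y)‖ ^ 2 ≤
      36 ^ 2 * C := by
  have e1 : ∀ z z' : ZMod (3 ^ b), ‖∑ y : ZMod (3 ^ b), F (3 * z + r) (3 * z' + r) (3 * y)‖ ^ 2 =
      9 * ‖∑ y : ZMod (3 ^ b), H (3 * z + r) (3 * z' + r) y‖ ^ 2 := fun z z' =>
    w5_one b hb _ _ (h1 z z') (h2 z z')
  have e2 := W3_le2 b hb r (fun t t' => 9 * ‖∑ y : ZMod (3 ^ b), H t t' y‖ ^ 2) (fun t t' => by positivity)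
  have e3 : ∑ z : ZMod (3 ^ b), ∑ z' : ZMod (3 ^ b), ‖∑ y : ZMod (3 ^ b), F (3 * z + r) (3 * z' + r) (3 * y)‖ ^ 2 =
      ∑ z : ZMod (3 ^ b), ∑ z' : ZMod (3 ^ b), 9 * ‖∑ y : ZMod (3 ^ b), H (3 * z + r) (3 * z' + r) y‖ ^ 2 :=
    Finset.sum_congr rfl fun z _ => Finset.sum_congr rfl fun z' _ => e1 z z'
  have e4 : ∑ t : ZMod (3 ^ b), ∑ t' : ZMod (3 ^ b), 9 * ‖∑ y : ZMod (3 ^ b), H t t' y‖ ^ 2 =
      9 * ∑ t : ZMod (3 ^ b), ∑ t' : ZMod (3 ^ b), ‖∑ y : ZMod (3 ^ b), H t t' y‖ ^ 2 := by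
    rw [Finset.mul_sum]
    exact Finset.sum_congr rfl fun z _ => by rw [Finset.mul_sum]
  rw [e3]
  refine e2.trans ?_
  rw [e4]
  linarith

/-- **The first two forms.** Proof. `C3_fun`, `C3_nest`: the sum is over `z, z'` of
`A(z, z') = ∑_y (G0 (3y + 3z + ρ) conj G0' (3y + 3z' + ρ)) (G1 (3y - 3z - ρ) conj G1' (3y - 3z' - ρ))` times
`B(z, z') = ∑_{y'} (forms 2 and 3)`, `‖B‖ ≤ 16 · 3^b`. Let `Z = 3z + ρ`, `Z' = 3z' + ρ`. Case `i0 = 0`: put
`H1 t = G1 t` if `t + ρ` is a multiple of `3` in `ZMod (3^b)` (`∃ s, t + ρ = 3 * s`), `0` else, `H1'` likewise. For `Y = 3y` the number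
`Y - Z + ρ = 3 (y - z)` is a multiple of `3`, and `H1 (Y - Z) = 0` if `Y` is not a multiple of `3`. So by `W3_sum` (`c = 0`)
`A(z, z') = 3 Ã(Z, Z')`, `Ã(Z, Z') = ∑_Y (G0 (Y + Z) conj G0' (Y + Z')) (H1 (Y - Z) conj H1' (Y - Z'))`, the sum in
`e2_plus` (`H59T/E2.lean`, `l = 3`), and by `W3_le2` (`c = ρ`) `∑∑ ‖A‖² ≤ 9 · 9 · ∑∑ ‖Ã‖² ≤ 81 · 4² (96 …) = 36² (96 …)`.
Case `i0 = 1`: the same with `H0 t = G0 t` if `t - ρ` is a multiple of `3`, `0` else, and `e2_minus`. `W4_fin`. -/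
theorem W5_three (b : ℕ) (hb1 : 1 ≤ b) (ρ : ℤ) (χ : DirichletCharacter ℂ (3 ^ b))
    (hχ : χ.IsPrimitive) (c : ℝ) (hc : |c| ≤ 2) (g g' : Fin 4 → ℤ → ℂ)
    (hp : ∀ i m, g i (m + (3 ^ b : ℕ)) = g i m) (hp' : ∀ i m, g' i (m + (3 ^ b : ℕ)) = g' i m)
    (hb : ∀ i m, ‖g i m‖ ≤ 2) (hb' : ∀ i m, ‖g' i m‖ ≤ 2) (i0 : Fin 4) (hi0 : i0 = 0 ∨ i0 = 1)
    (h : ∀ m : ℤ, g i0 m = c * (starRingEnd ℂ) (χ (m : ZMod (3 ^ b))))
    (h' : ∀ m : ℤ, g' i0 m = c * (starRingEnd ℂ) (χ (m : ZMod (3 ^ b)))) :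
    ‖S4 (3 ^ b) (Db (mf ρ) g g')‖ ≤ ((3 ^ b : ℕ) : ℝ) ^ 4 * (2 ^ 13 * ((3 ^ b : ℕ) : ℝ) ^ (-(1 / 18 : ℝ))) := by
  classical
  have : NeZero (3 ^ b) := ⟨pow_ne_zero _ (by norm_num)⟩
  choose G hG using fun i => C3_fun (3 ^ b) (g i) (hp i)
  choose G' hG' using fun i => C3_fun (3 ^ b) (g' i) (hp' i)
  have hs : ∀ t : ZMod (3 ^ b), ∃ m : ℤ, (m : ZMod (3 ^ b)) = t := fun t => ZMod.intCast_surjective t
  have bG : ∀ i t, ‖G i t‖ ≤ 2 := by
    intro i t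
    obtain ⟨m, rfl⟩ := hs t
    rw [← hG]
    exact hb i m
  have bG' : ∀ i t, ‖G' i t‖ ≤ 2 := by
    intro i t
    obtain ⟨m, rfl⟩ := hs t
    rw [← hG']
    exact hb' i m
  have hG0 : ∀ t, G i0 t = c * (starRingEnd ℂ) (χ t) := by
    intro t
    obtain ⟨m, rfl⟩ := hs t
    rw [← hG]
    exact h m
  have hG0' : ∀ t, G' i0 t = c * (starRingEnd ℂ) (χ t) := by
    intro t
    obtain ⟨m, rfl⟩ := hs t
    rw [← hG']
    exact h' m
  obtain ⟨r, hr⟩ : ∃ r : ZMod (3 ^ b), r = (ρ : ZMod (3 ^ b)) := ⟨_, rfl⟩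
  have e1 : Db (mf ρ) g g' = fun y y' z z' : ℤ =>
      (fun y y' z z' : ZMod (3 ^ b) =>
        ((G 0 (3 * y + (3 * z + r)) * (starRingEnd ℂ) (G' 0 (3 * y + (3 * z' + r)))) *
          (G 1 (3 * y - (3 * z + r)) * (starRingEnd ℂ) (G' 1 (3 * y - (3 * z' + r))))) *
        ((G 2 (3 * y' + 3 * z + 2 * r) * (starRingEnd ℂ) (G' 2 (3 * y' + 3 * z' + 2 * r))) *
          (G 3 (y' - z) * (starRingEnd ℂ) (G' 3 (y' - z')))))
        y y' z z' := by
    funext y y' z z'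
    unfold Db
    rw [Fin.prod_univ_four]
    simp only [mf, hG, hG', Matrix.cons_val_zero, Matrix.cons_val_one, Matrix.cons_val]
    push_cast
    rw [← hr]
    have a1 : ∀ y z : ZMod (3 ^ b), 3 * y + 3 * z + r = 3 * y + (3 * z + r) := fun y z => by ring
    have a2 : ∀ y z : ZMod (3 ^ b), 3 * y - 3 * z - r = 3 * y - (3 * z + r) := fun y z => by ring
    rw [a1, a1, a2, a2]
    ring
  have e2 : S4 (3 ^ b) (Db (mf ρ) g g') = ∑ z : ZMod (3 ^ b), ∑ z' : ZMod (3 ^ b),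
      (∑ y : ZMod (3 ^ b), (G 0 (3 * y + (3 * z + r)) * (starRingEnd ℂ) (G' 0 (3 * y + (3 * z' + r)))) *
          (G 1 (3 * y - (3 * z + r)) * (starRingEnd ℂ) (G' 1 (3 * y - (3 * z' + r))))) *
      ∑ y' : ZMod (3 ^ b), (G 2 (3 * y' + 3 * z + 2 * r) * (starRingEnd ℂ) (G' 2 (3 * y' + 3 * z' + 2 * r))) *
          (G 3 (y' - z) * (starRingEnd ℂ) (G' 3 (y' - z'))) := by
    rw [e1, C3_nest (3 ^ b) (fun y y' z z' : ZMod (3 ^ b) =>
        ((G 0 (3 * y + (3 * z + r)) * (starRingEnd ℂ) (G' 0 (3 * y + (3 * z' + r)))) *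
          (G 1 (3 * y - (3 * z + r)) * (starRingEnd ℂ) (G' 1 (3 * y - (3 * z' + r))))) *
        ((G 2 (3 * y' + 3 * z + 2 * r) * (starRingEnd ℂ) (G' 2 (3 * y' + 3 * z' + 2 * r))) *
          (G 3 (y' - z) * (starRingEnd ℂ) (G' 3 (y' - z')))))]
    have e3 : ∀ F : ZMod (3 ^ b) → ZMod (3 ^ b) → ZMod (3 ^ b) → ZMod (3 ^ b) → ℂ,
        ∑ y, ∑ y', ∑ z, ∑ z', F y y' z z' = ∑ z, ∑ z', ∑ y, ∑ y', F y y' z z' := by
      intro F
      have e4 : ∀ y, ∑ y', ∑ z, ∑ z', F y y' z z' = ∑ z, ∑ z', ∑ y', F y y' z z' := by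
        intro y
        rw [Finset.sum_comm]
        exact Finset.sum_congr rfl fun z _ => Finset.sum_comm
      rw [Finset.sum_congr rfl fun y _ => e4 y, Finset.sum_comm]
      exact Finset.sum_congr rfl fun z _ => Finset.sum_comm
    rw [e3]
    refine Finset.sum_congr rfl fun z _ => Finset.sum_congr rfl fun z' _ => ?_
    rw [Finset.sum_mul_sum]
  rw [e2]
  refine W4_fin b _ _ ?_ (fun z z' => w5_triv (3 ^ b) (fun y' => G 2 (3 * y' + 3 * z + 2 * r))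
    (fun y' => G' 2 (3 * y' + 3 * z' + 2 * r)) (fun y' => G 3 (y' - z)) (fun y' => G' 3 (y' - z'))
    (fun _ => bG 2 _) (fun _ => bG' 2 _) (fun _ => bG 3 _) (fun _ => bG' 3 _))
  rcases hi0 with rfl | rfl
  · obtain ⟨K, hK⟩ : ∃ K : ZMod (3 ^ b) → ℂ, K = fun t => if ∃ s, t + r = 3 * s then G 1 t else 0 := ⟨_, rfl⟩
    obtain ⟨K', hK'⟩ : ∃ K : ZMod (3 ^ b) → ℂ, K = fun t => if ∃ s, t + r = 3 * s then G' 1 t else 0 := ⟨_, rfl⟩
    refine w5_A b hb1 r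
      (fun u v y => (G 0 (y + u) * (starRingEnd ℂ) (G' 0 (y + v))) * (G 1 (y - u) * (starRingEnd ℂ) (G' 1 (y - v))))
      (fun u v y => (G 0 (y + u) * (starRingEnd ℂ) (G' 0 (y + v))) * (K (y - u) * (starRingEnd ℂ) (K' (y - v))))
      (fun z z' y => ?_) (fun z z' t ht => ?_) _ ?_
    · have a1 : ∃ s, 3 * y - (3 * z + r) + r = 3 * s := ⟨y - z, by ring⟩
      have a2 : ∃ s, 3 * y - (3 * z' + r) + r = 3 * s := ⟨y - z', by ring⟩
      rw [hK, hK']
      simp only [if_pos a1, if_pos a2]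
    · have a1 : ¬ ∃ s, t - (3 * z + r) + r = 3 * s := by
        rintro ⟨s, hs'⟩
        exact ht (s + z) (by linear_combination hs')
      rw [hK]
      simp only [if_neg a1, zero_mul, mul_zero]
    · have h5 := e2_plus 3 b Nat.prime_three hb1 χ hχ c hc (G 0) (G' 0) K K' hG0 hG0' (fun t => by
        rw [hK]
        beta_reduce
        split_ifs
        · exact bG 1 t
        · rw [norm_zero]; norm_num) (fun t => by
        rw [hK']
        beta_reduce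
        split_ifs
        · exact bG' 1 t
        · rw [norm_zero]; norm_num)
      rw [Nat.cast_ofNat] at h5
      exact h5
  · obtain ⟨K, hK⟩ : ∃ K : ZMod (3 ^ b) → ℂ, K = fun t => if ∃ s, t - r = 3 * s then G 0 t else 0 := ⟨_, rfl⟩
    obtain ⟨K', hK'⟩ : ∃ K : ZMod (3 ^ b) → ℂ, K = fun t => if ∃ s, t - r = 3 * s then G' 0 t else 0 := ⟨_, rfl⟩
    refine w5_A b hb1 r
      (fun u v y => (G 0 (y + u) * (starRingEnd ℂ) (G' 0 (y + v))) * (G 1 (y - u) * (starRingEnd ℂ) (G' 1 (y - v))))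
      (fun u v y => (K (y + u) * (starRingEnd ℂ) (K' (y + v))) * (G 1 (y - u) * (starRingEnd ℂ) (G' 1 (y - v))))
      (fun z z' y => ?_) (fun z z' t ht => ?_) _ ?_
    · have a1 : ∃ s, 3 * y + (3 * z + r) - r = 3 * s := ⟨y + z, by ring⟩
      have a2 : ∃ s, 3 * y + (3 * z' + r) - r = 3 * s := ⟨y + z', by ring⟩
      rw [hK, hK']
      simp only [if_pos a1, if_pos a2]
    · have a1 : ¬ ∃ s, t + (3 * z + r) - r = 3 * s := by
        rintro ⟨s, hs'⟩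
        exact ht (s - z) (by linear_combination hs')
      rw [hK]
      simp only [if_neg a1, zero_mul]
    · have h5 := e2_minus 3 b Nat.prime_three hb1 χ hχ c hc K K' (G 1) (G' 1) hG0 hG0' (fun t => by
        rw [hK]
        beta_reduce
        split_ifs
        · exact bG 0 t
        · rw [norm_zero]; norm_num) (fun t => by
        rw [hK']
        beta_reduce
        split_ifs
        · exact bG' 0 t
        · rw [norm_zero]; norm_num)
      rw [Nat.cast_ofNat] at h5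
      exact h5

end Pool.Agent.Lib.H59V
end

-- from Lib.H59V.W6
section

/-!
# Project H59V, chunk W6 (M): the prime 3, conductor at the third form
-/

open Finset

namespace Pool.Agent.Lib.H59V

open Pool.Agent.Lib.H68T Pool.Agent.Lib.H18Q Pool.Agent.Lib.H59P Pool.Agent.Lib.H59T

/-- A function of period `3^(b-1)`, read at the multiples of `3` modulo `3^b`. -/
theorem w6_fun (b : ℕ) (hb1 : 1 ≤ b) [NeZero (3 ^ b)] (f : ℤ → ℂ)
    (hq : ∀ m, f (m + (3 ^ (b - 1) : ℕ)) = f m) (hb : ∀ m, ‖f m‖ ≤ 2) :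
    ∃ H : ZMod (3 ^ b) → ℂ, (∀ m : ℤ, H (3 * (m : ZMod (3 ^ b))) = f m) ∧ (∀ t, ‖H t‖ ≤ 2) ∧
      ∀ t, (∀ s : ZMod (3 ^ b), t ≠ 3 * s) → H t = 0 := by
  classical
  have hN : 3 ^ b = 3 * 3 ^ (b - 1) := by
    obtain ⟨c, rfl⟩ : ∃ c, b = c + 1 := ⟨b - 1, by omega⟩
    rw [Nat.add_sub_cancel, pow_succ, mul_comm]
  have h1 : ∀ (k : ℕ) (m : ℤ), f (m + (k : ℤ) * (3 ^ (b - 1) : ℕ)) = f m := by
    intro k
    induction k with
    | zero => intro m; simp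
    | succ k ih =>
      intro m
      have : m + ((k + 1 : ℕ) : ℤ) * (3 ^ (b - 1) : ℕ) =
          (m + (k : ℤ) * (3 ^ (b - 1) : ℕ)) + (3 ^ (b - 1) : ℕ) := by push_cast; ring
      rw [this, hq, ih]
  refine ⟨fun t => if 3 ∣ t.val then f ((t.val / 3 : ℕ) : ℤ) else 0, ?_, ?_, ?_⟩
  · intro m
    obtain ⟨n, hn⟩ : ∃ n : ℕ, ((n : ℕ) : ZMod (3 ^ b)) = (m : ZMod (3 ^ b)) ∧ f m = f n := by
      refine ⟨(m % ((3 ^ b : ℕ) : ℤ)).toNat, ?_, ?_⟩
      · have hpos : (0 : ℤ) < ((3 ^ b : ℕ) : ℤ) := by positivity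
        have h0 : 0 ≤ m % ((3 ^ b : ℕ) : ℤ) := Int.emod_nonneg _ hpos.ne'
        have : (((m % ((3 ^ b : ℕ) : ℤ)).toNat : ℕ) : ZMod (3 ^ b)) =
            ((m % ((3 ^ b : ℕ) : ℤ) : ℤ) : ZMod (3 ^ b)) := by
          conv_rhs => rw [← Int.toNat_of_nonneg h0]
          rw [Int.cast_natCast]
        rw [this, ZMod.intCast_mod]
      · have hpos : (0 : ℤ) < ((3 ^ b : ℕ) : ℤ) := by positivity
        have h0 : 0 ≤ m % ((3 ^ b : ℕ) : ℤ) := Int.emod_nonneg _ hpos.ne'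
        rw [Int.toNat_of_nonneg h0]
        have h2 : ∀ (k m : ℤ), f (m + k * (3 ^ (b - 1) : ℕ)) = f m := by
          intro k m
          obtain ⟨n, rfl | rfl⟩ := k.eq_nat_or_neg
          · exact h1 n m
          · have := h1 n (m + (-(n : ℤ)) * (3 ^ (b - 1) : ℕ))
            rw [← this]
            congr 1
            ring
        have h3 : m = m % ((3 ^ b : ℕ) : ℤ) + (m / ((3 ^ b : ℕ) : ℤ) * 3) * ((3 ^ (b - 1) : ℕ) : ℤ) := by
          have h4 := Int.emod_add_mul_ediv m ((3 ^ b : ℕ) : ℤ)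
          have h5 : ((3 ^ b : ℕ) : ℤ) = 3 * ((3 ^ (b - 1) : ℕ) : ℤ) := by exact_mod_cast hN
          calc m = m % ((3 ^ b : ℕ) : ℤ) + ((3 ^ b : ℕ) : ℤ) * (m / ((3 ^ b : ℕ) : ℤ)) := h4.symm
            _ = m % ((3 ^ b : ℕ) : ℤ) + (3 * ((3 ^ (b - 1) : ℕ) : ℤ)) * (m / ((3 ^ b : ℕ) : ℤ)) := by
              rw [← h5]
            _ = _ := by ring
        conv_lhs => rw [h3]
        exact h2 _ _
    obtain ⟨hn1, hn2⟩ := hn
    have hv : ((3 : ZMod (3 ^ b)) * (m : ZMod (3 ^ b))).val = 3 * (n % 3 ^ (b - 1)) := by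
      have : (3 : ZMod (3 ^ b)) * (m : ZMod (3 ^ b)) = ((3 * n : ℕ) : ZMod (3 ^ b)) := by
        rw [← hn1]; push_cast; ring
      rw [this, ZMod.val_natCast, hN, Nat.mul_mod_mul_left]
    simp only
    rw [hv, if_pos (dvd_mul_right 3 _), Nat.mul_div_cancel_left _ (by norm_num : 0 < 3), hn2]
    have h6 := h1 (n / 3 ^ (b - 1)) ((n % 3 ^ (b - 1) : ℕ) : ℤ)
    rw [← h6]
    congr 1
    have h7 := Nat.mod_add_div n (3 ^ (b - 1))
    have h8 : ((n % 3 ^ (b - 1) : ℕ) : ℤ) + ((3 ^ (b - 1) : ℕ) : ℤ) * ((n / 3 ^ (b - 1) : ℕ) : ℤ) = (n : ℤ) := by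
      exact_mod_cast h7
    rw [← h8]
    ring
  · intro t
    simp only
    split_ifs
    · exact hb _
    · simp
  · intro t ht
    simp only
    rw [if_neg]
    intro hd
    obtain ⟨k, hk⟩ := hd
    refine ht (k : ZMod (3 ^ b)) ?_
    rw [← ZMod.natCast_zmod_val t, hk]
    push_cast
    ring

/-- **The third form.** Here the fourth function has the smaller period `3^(b-1)`. Proof. `C3_fun`, `C3_nest`: the sum is over
`z, z'` of `B(z, z') = ∑_y (forms 0 and 1)`, `‖B‖ ≤ 16 · 3^b`, times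
`A(z, z') = ∑_{y'} (G2 (3y' + 3z + 2ρ) conj G2' (3y' + 3z' + 2ρ)) (g 3 (y' - z) conj (g' 3 (y' - z')))`.
Define `H3 : ZMod (3^b) → ℂ` by `H3 t = g 3 (t.val / 3)` if `3 ∣ t.val`, `0` else; then `H3 (3 s) = g 3 s` for all integers
`s` (the number `(3 s mod 3^b)/3` is `s` modulo `3^(b-1)`, period of `g 3`), and `H3 t = 0` if `t` is not a multiple of `3`;
`H3'` likewise. With `Z = 3z + ρ`, `Z' = 3z' + ρ`, `Y' = 3y' + ρ`: `Y' + Z = 3y' + 3z + 2ρ`, `Y' - Z = 3 (y' - z)`. The product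
vanishes unless `Y' - Z` is a multiple of `3`, i.e. unless `Y' = 3y' + ρ` for some `y'`; by `W3_sum` (`c = ρ`)
`A(z, z') = 3 Ã(Z, Z')`, `Ã(Z, Z') = ∑_{Y'} (G2 (Y' + Z) conj G2' (Y' + Z')) (H3 (Y' - Z) conj H3' (Y' - Z'))`, the sum in
`e2_plus` (`l = 3`); `W3_le2` (`c = ρ`), `W4_fin` as in `W5_three`. -/
theorem W6_three (b : ℕ) (hb2 : 2 ≤ b) (ρ : ℤ) (χ : DirichletCharacter ℂ (3 ^ b))
    (hχ : χ.IsPrimitive) (c : ℝ) (hc : |c| ≤ 2) (g g' : Fin 4 → ℤ → ℂ)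
    (hp : ∀ i m, g i (m + (3 ^ b : ℕ)) = g i m) (hp' : ∀ i m, g' i (m + (3 ^ b : ℕ)) = g' i m)
    (hq : ∀ m, g 3 (m + (3 ^ (b - 1) : ℕ)) = g 3 m) (hq' : ∀ m, g' 3 (m + (3 ^ (b - 1) : ℕ)) = g' 3 m)
    (hb : ∀ i m, ‖g i m‖ ≤ 2) (hb' : ∀ i m, ‖g' i m‖ ≤ 2)
    (h : ∀ m : ℤ, g 2 m = c * (starRingEnd ℂ) (χ (m : ZMod (3 ^ b))))
    (h' : ∀ m : ℤ, g' 2 m = c * (starRingEnd ℂ) (χ (m : ZMod (3 ^ b)))) :
    ‖S4 (3 ^ b) (Db (mf ρ) g g')‖ ≤ ((3 ^ b : ℕ) : ℝ) ^ 4 * (2 ^ 13 * ((3 ^ b : ℕ) : ℝ) ^ (-(1 / 18 : ℝ))) := by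
  haveI : NeZero (3 ^ b) := ⟨pow_ne_zero _ (by norm_num)⟩
  choose G hG using fun i => C3_fun (3 ^ b) (g i) (hp i)
  choose G' hG' using fun i => C3_fun (3 ^ b) (g' i) (hp' i)
  obtain ⟨H, hH1, hH2, hH3⟩ := w6_fun b (by omega) (g 3) hq (hb 3)
  obtain ⟨H', hH1', hH2', hH3'⟩ := w6_fun b (by omega) (g' 3) hq' (hb' 3)
  have hs : ∀ t : ZMod (3 ^ b), ∃ m : ℤ, (m : ZMod (3 ^ b)) = t := fun t => ZMod.intCast_surjective t
  have bG : ∀ i t, ‖G i t‖ ≤ 2 := by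
    intro i t
    obtain ⟨m, rfl⟩ := hs t
    rw [← hG]
    exact hb i m
  have bG' : ∀ i t, ‖G' i t‖ ≤ 2 := by
    intro i t
    obtain ⟨m, rfl⟩ := hs t
    rw [← hG']
    exact hb' i m
  have hG0 : ∀ t, G 2 t = c * (starRingEnd ℂ) (χ t) := by
    intro t
    obtain ⟨m, rfl⟩ := hs t
    rw [← hG]
    exact h m
  have hG0' : ∀ t, G' 2 t = c * (starRingEnd ℂ) (χ t) := by
    intro t
    obtain ⟨m, rfl⟩ := hs t
    rw [← hG']
    exact h' m
  have hH : ∀ s : ZMod (3 ^ b), H (3 * s) = G 3 s := by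
    intro s
    obtain ⟨m, rfl⟩ := hs s
    rw [hH1, hG]
  have hH' : ∀ s : ZMod (3 ^ b), H' (3 * s) = G' 3 s := by
    intro s
    obtain ⟨m, rfl⟩ := hs s
    rw [hH1', hG']
  obtain ⟨r, hr⟩ : ∃ r : ZMod (3 ^ b), r = (ρ : ZMod (3 ^ b)) := ⟨_, rfl⟩
  have e1 : Db (mf ρ) g g' = fun y y' z z' : ℤ =>
      (fun y y' z z' : ZMod (3 ^ b) =>
        ((G 0 (3 * (y + z) + r) * (starRingEnd ℂ) (G' 0 (3 * (y + z') + r))) *
          (G 1 (3 * (y - z) - r) * (starRingEnd ℂ) (G' 1 (3 * (y - z') - r)))) *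
        ((G 2 (3 * y' + r + (3 * z + r)) * (starRingEnd ℂ) (G' 2 (3 * y' + r + (3 * z' + r)))) *
          (H (3 * y' + r - (3 * z + r)) * (starRingEnd ℂ) (H' (3 * y' + r - (3 * z' + r))))))
        y y' z z' := by
    funext y y' z z'
    unfold Db
    rw [Fin.prod_univ_four]
    have k1 : ∀ u v : ZMod (3 ^ b), 3 * u + r - (3 * v + r) = 3 * (u - v) := fun u v => by ring
    simp only [mf, k1, hH, hH', Matrix.cons_val_zero, Matrix.cons_val_one, Matrix.cons_val]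
    have k2 : ∀ u v : ℤ, ((3 * u + 3 * v + ρ : ℤ) : ZMod (3 ^ b)) = 3 * ((u : ZMod (3 ^ b)) + v) + r := by
      intro u v; rw [hr]; push_cast; ring
    have k3 : ∀ u v : ℤ, ((3 * u - 3 * v - ρ : ℤ) : ZMod (3 ^ b)) = 3 * ((u : ZMod (3 ^ b)) - v) - r := by
      intro u v; rw [hr]; push_cast; ring
    have k4 : ∀ u v : ℤ, ((3 * u + 3 * v + 2 * ρ : ℤ) : ZMod (3 ^ b)) =
        3 * (u : ZMod (3 ^ b)) + r + (3 * (v : ZMod (3 ^ b)) + r) := by
      intro u v; rw [hr]; push_cast; ring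
    have k5 : ∀ u v : ℤ, ((u - v : ℤ) : ZMod (3 ^ b)) = (u : ZMod (3 ^ b)) - v := by
      intro u v; push_cast; ring
    rw [hG, hG, hG, hG, hG', hG', hG', hG', k2, k2, k3, k3, k4, k4, k5, k5]
    ring
  let B : ZMod (3 ^ b) → ZMod (3 ^ b) → ℂ := fun z z' => ∑ y : ZMod (3 ^ b),
    (G 0 (3 * (y + z) + r) * (starRingEnd ℂ) (G' 0 (3 * (y + z') + r))) *
      (G 1 (3 * (y - z) - r) * (starRingEnd ℂ) (G' 1 (3 * (y - z') - r)))
  let At : ZMod (3 ^ b) → ZMod (3 ^ b) → ℂ := fun t t' => ∑ y : ZMod (3 ^ b),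
    (G 2 (y + t) * (starRingEnd ℂ) (G' 2 (y + t'))) * (H (y - t) * (starRingEnd ℂ) (H' (y - t')))
  let A : ZMod (3 ^ b) → ZMod (3 ^ b) → ℂ := fun z z' => ∑ y' : ZMod (3 ^ b),
    (G 2 (3 * y' + r + (3 * z + r)) * (starRingEnd ℂ) (G' 2 (3 * y' + r + (3 * z' + r)))) *
          (H (3 * y' + r - (3 * z + r)) * (starRingEnd ℂ) (H' (3 * y' + r - (3 * z' + r))))
  have hAt : ∀ z z', A z z' = 3 * At (3 * z + r) (3 * z' + r) := by
    intro z z'
    have := W3_sum b (by omega) r (fun y => (G 2 (y + (3 * z + r)) * (starRingEnd ℂ) (G' 2 (y + (3 * z' + r)))) *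
      (H (y - (3 * z + r)) * (starRingEnd ℂ) (H' (y - (3 * z' + r))))) (by
        intro t ht
        have : H (t - (3 * z + r)) = 0 := by
          refine hH3 _ fun s hs2 => ht (s + z) ?_
          rw [eq_add_of_sub_eq hs2]
          ring
        simp only [this, zero_mul, mul_zero])
    exact this
  have e2 : S4 (3 ^ b) (Db (mf ρ) g g') = ∑ z : ZMod (3 ^ b), ∑ z' : ZMod (3 ^ b), A z z' * B z z' := by
    rw [e1, C3_nest (3 ^ b) (fun y y' z z' : ZMod (3 ^ b) =>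
        ((G 0 (3 * (y + z) + r) * (starRingEnd ℂ) (G' 0 (3 * (y + z') + r))) *
          (G 1 (3 * (y - z) - r) * (starRingEnd ℂ) (G' 1 (3 * (y - z') - r)))) *
        ((G 2 (3 * y' + r + (3 * z + r)) * (starRingEnd ℂ) (G' 2 (3 * y' + r + (3 * z' + r)))) *
          (H (3 * y' + r - (3 * z + r)) * (starRingEnd ℂ) (H' (3 * y' + r - (3 * z' + r))))))]
    have e3 : ∀ y : ZMod (3 ^ b), ∑ y' : ZMod (3 ^ b), ∑ z : ZMod (3 ^ b), ∑ z' : ZMod (3 ^ b),
        ((G 0 (3 * (y + z) + r) * (starRingEnd ℂ) (G' 0 (3 * (y + z') + r))) *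
          (G 1 (3 * (y - z) - r) * (starRingEnd ℂ) (G' 1 (3 * (y - z') - r)))) *
        ((G 2 (3 * y' + r + (3 * z + r)) * (starRingEnd ℂ) (G' 2 (3 * y' + r + (3 * z' + r)))) *
          (H (3 * y' + r - (3 * z + r)) * (starRingEnd ℂ) (H' (3 * y' + r - (3 * z' + r))))) =
        ∑ z : ZMod (3 ^ b), ∑ z' : ZMod (3 ^ b), ∑ y' : ZMod (3 ^ b),
        ((G 0 (3 * (y + z) + r) * (starRingEnd ℂ) (G' 0 (3 * (y + z') + r))) *
          (G 1 (3 * (y - z) - r) * (starRingEnd ℂ) (G' 1 (3 * (y - z') - r)))) *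
        ((G 2 (3 * y' + r + (3 * z + r)) * (starRingEnd ℂ) (G' 2 (3 * y' + r + (3 * z' + r)))) *
          (H (3 * y' + r - (3 * z + r)) * (starRingEnd ℂ) (H' (3 * y' + r - (3 * z' + r))))) := by
      intro y
      rw [Finset.sum_comm]
      exact Finset.sum_congr rfl fun z _ => Finset.sum_comm
    rw [Finset.sum_congr rfl fun y _ => e3 y, Finset.sum_comm]
    refine Finset.sum_congr rfl fun z _ => ?_
    rw [Finset.sum_comm]
    refine Finset.sum_congr rfl fun z' _ => ?_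
    rw [mul_comm (A z z'), Finset.sum_mul_sum]
  have hB : ∀ z z', ‖B z z'‖ ≤ 16 * ((3 ^ b : ℕ) : ℝ) := fun z z' =>
    e2_triv (3 ^ b) (fun t => G 0 (3 * t + r)) (fun t => G' 0 (3 * t + r)) (fun t => G 1 (3 * t - r))
      (fun t => G' 1 (3 * t - r)) (fun t => bG 0 _) (fun t => bG' 0 _) (fun t => bG 1 _) (fun t => bG' 1 _) z z'
  have hA : ∑ z, ∑ z', ‖A z z'‖ ^ 2 ≤ 36 ^ 2 * (96 * ((3 ^ b : ℕ) : ℝ) ^ 4 * (3 : ℝ) ^ (-(b / 9 : ℝ))) := by
    have a1 := e2_plus 3 b Nat.prime_three (by omega) χ hχ c hc (G 2) (G' 2) H H' hG0 hG0' hH2 hH2'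
    have a2 := W3_le2 b (by omega) r (fun t t' => ‖At t t'‖ ^ 2) (fun t t' => by positivity)
    have a3 : ∀ z z', ‖A z z'‖ ^ 2 = 9 * ‖At (3 * z + r) (3 * z' + r)‖ ^ 2 := by
      intro z z'
      rw [hAt, norm_mul, mul_pow]
      norm_num
    calc ∑ z, ∑ z', ‖A z z'‖ ^ 2 = 9 * ∑ z, ∑ z', ‖At (3 * z + r) (3 * z' + r)‖ ^ 2 := by
          rw [Finset.mul_sum]
          refine Finset.sum_congr rfl fun z _ => ?_
          rw [Finset.mul_sum]
          exact Finset.sum_congr rfl fun z' _ => a3 z z'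
      _ ≤ 9 * (9 * ∑ t, ∑ t', ‖At t t'‖ ^ 2) := by
          exact mul_le_mul_of_nonneg_left a2 (by norm_num)
      _ ≤ 9 * (9 * (4 ^ 2 * (96 * ((3 ^ b : ℕ) : ℝ) ^ 4 * ((3 : ℕ) : ℝ) ^ (-(b / 9 : ℝ))))) := by
          exact mul_le_mul_of_nonneg_left (mul_le_mul_of_nonneg_left a1 (by norm_num)) (by norm_num)
      _ = 36 ^ 2 * (96 * ((3 ^ b : ℕ) : ℝ) ^ 4 * (3 : ℝ) ^ (-(b / 9 : ℝ))) := by
          rw [Nat.cast_ofNat]
          ring
  rw [e2]
  exact W4_fin b A B hA hB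

end Pool.Agent.Lib.H59V
end

-- from Lib.H59V.W7
section

/-!
# Project H59V, chunk W7 (M): the local bounds for the mixed forms
-/

open Finset

namespace Pool.Agent.Lib.H59V

open Pool.Agent.Lib.H68T Pool.Agent.Lib.H18Q Pool.Agent.Lib.H59P Pool.Agent.Lib.H59T

/-- **Local bounds.** Proof. Compare `E7_four` (`H59T/E7.lean`). First part (`l ∣ Rm p`, `b = (Rm p).factorization l ≥ 1`):
`l ≠ 3`: `E7_attained`, `L4_char`, `L4_per`, `L4_norm`, `W2_char` (`2^10 ≤ 2^13`).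
`l = 3`, `b = 1`: trivially at most `3^4 · 2^8` (`C3_triv`, `L4_norm`), and `2^8 ≤ 2^13 3^(-1/18)`.
`l = 3`, `b ≥ 2`: if `(p 3).1.factorization 3 = b` then (`3 ∣ (p 3).1` as `b ≥ 1`) `L4_char` for `i = 3` and `W4_three`. Otherwise
`(p 3).1.factorization 3 ≤ b - 1`, so the fourth functions have period `3^(b-1)` (`L4_per` with `b - 1 ≥ 1`), and the index
`i0` of `E7_attained` is `0`, `1` (`W5_three`) or `2` (`W6_three`).
Second part (`l` does not divide `Rm p`): `lf = gl` or `1` as in `E7_four`; `l ≠ 3`: `W2_gl`, `7 l² ≤ l⁴ (2^13/l²)`;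
`l = 3`: trivially at most `3^4 · 2^8 ≤ 3^4 (2^13/9)` (`2^8 · 9 = 2304`). -/
theorem W7_loc (ρ : ℤ) : LocB (mf ρ) 13 (1 / 18) := by
  intro p hp κ κ' hκ hκ' l hl
  have hl2 : (2 : ℝ) ≤ l := by exact_mod_cast hl.two_le
  have hn : ∀ (y y' z z' : ℤ), ‖Db (mf ρ) (fun i => lf (p i) (κ i) l) (fun i => lf (p i) (κ' i) l) y y' z z'‖ ≤ 2 ^ 8 := by
    intro y y' z z'
    unfold Db
    rw [norm_prod]
    have h1 : ∀ i ∈ (univ : Finset (Fin 4)), ‖lf (p i) (κ i) l (mf ρ i y y' z) *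
        (starRingEnd ℂ) (lf (p i) (κ' i) l (mf ρ i y y' z'))‖ ≤ 4 := by
      intro i _
      rw [norm_mul, RCLike.norm_conj]
      have h2 := L4_norm (p i) (κ i) l hl (mf ρ i y y' z)
      have h3 := L4_norm (p i) (κ' i) l hl (mf ρ i y y' z')
      nlinarith [norm_nonneg (lf (p i) (κ i) l (mf ρ i y y' z)), norm_nonneg (lf (p i) (κ' i) l (mf ρ i y y' z'))]
    refine (Finset.prod_le_prod (fun i _ => norm_nonneg _) h1).trans ?_
    rw [Finset.prod_const, Finset.card_univ, Fintype.card_fin]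
    norm_num
  refine ⟨fun hd => ?_, fun hd hex => ?_⟩
  · obtain ⟨h1, h2, i0, h3, h4⟩ := E7_attained p hp l hl hd
    have hch := L4_char (p i0) (hp i0).1 (hp i0).2 l hl h4
    rw [h3] at hch
    obtain ⟨χ, hχ, hlf⟩ := hch
    have hc : |(l : ℝ) / ((l : ℝ) - 1)| ≤ 2 := by
      rw [abs_of_nonneg (by apply div_nonneg <;> linarith), div_le_iff₀ (by linarith)]
      linarith
    have hper : ∀ (K : Fin 4 → ℕ) (i : Fin 4) (m : ℤ),
        lf (p i) (K i) l (m + ((l ^ (Rm p).factorization l : ℕ) : ℤ)) = lf (p i) (K i) l m := by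
      intro K i m
      have := L4_per (p i) (hp i).1 (hp i).2 (K i) l ((Rm p).factorization l) hl h1 (h2 i) m 1
      rw [mul_one] at this
      rw [← this]
      push_cast
      rfl
    by_cases hl3 : l = 3
    · subst hl3
      generalize hbdef : (Rm p).factorization 3 = b at *
      by_cases hb1 : b = 1
      · subst hb1
        refine (C3_triv _ _ _ hn).trans ?_
        refine mul_le_mul_of_nonneg_left ?_ (by positivity)
        have h5 : (3 : ℝ) ^ (-1 : ℝ) ≤ (3 : ℝ) ^ (-(1 / 18 : ℝ)) :=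
          Real.rpow_le_rpow_of_exponent_le (by norm_num) (by norm_num)
        rw [Real.rpow_neg_one] at h5
        have h6 : (((3 ^ 1 : ℕ) : ℝ)) = 3 := by norm_num
        rw [h6]
        have h7 : (2 : ℝ) ^ 13 * (3 : ℝ)⁻¹ ≤ 2 ^ 13 * (3 : ℝ) ^ (-(1 / 18 : ℝ)) :=
          mul_le_mul_of_nonneg_left h5 (by positivity)
        refine le_trans ?_ h7
        norm_num
      · have hb2 : 2 ≤ b := by omega
        by_cases h33 : (p 3).1.factorization 3 = b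
        · have hd3 : 3 ∣ (p 3).1 := by
            rw [hl.dvd_iff_one_le_factorization (hp 3).1.ne', h33]
            exact h1
          have hch3 := L4_char (p 3) (hp 3).1 (hp 3).2 3 hl hd3
          rw [h33] at hch3
          obtain ⟨χ3, hχ3, hlf3⟩ := hch3
          exact W4_three b h1 ρ χ3 hχ3 _ hc (fun i => lf (p i) (κ i) 3) (fun i => lf (p i) (κ' i) 3)
            (fun i m => hper κ i m) (fun i m => hper κ' i m) (fun i m => L4_norm _ _ _ hl m) (fun i m => L4_norm _ _ _ hl m)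
            (fun m => hlf3 (κ 3) m) (fun m => hlf3 (κ' 3) m)
        · have h34 : (p 3).1.factorization 3 ≤ b - 1 := by
            have := h2 3
            omega
          have hq : ∀ (K : Fin 4 → ℕ) (m : ℤ),
              lf (p 3) (K 3) 3 (m + ((3 ^ (b - 1) : ℕ) : ℤ)) = lf (p 3) (K 3) 3 m := by
            intro K m
            have := L4_per (p 3) (hp 3).1 (hp 3).2 (K 3) 3 (b - 1) hl (by omega) h34 m 1
            rw [mul_one] at this
            rw [← this]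
            push_cast
            rfl
          have hcase : i0 = 0 ∨ i0 = 1 ∨ i0 = 2 ∨ i0 = 3 := by
            fin_cases i0 <;> simp
          rcases hcase with h5 | h5 | h5 | h5
          · exact W5_three b h1 ρ χ hχ _ hc (fun i => lf (p i) (κ i) 3) (fun i => lf (p i) (κ' i) 3)
              (fun i m => hper κ i m) (fun i m => hper κ' i m) (fun i m => L4_norm _ _ _ hl m) (fun i m => L4_norm _ _ _ hl m)
              i0 (Or.inl h5) (fun m => hlf (κ i0) m) (fun m => hlf (κ' i0) m)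
          · exact W5_three b h1 ρ χ hχ _ hc (fun i => lf (p i) (κ i) 3) (fun i => lf (p i) (κ' i) 3)
              (fun i m => hper κ i m) (fun i m => hper κ' i m) (fun i m => L4_norm _ _ _ hl m) (fun i m => L4_norm _ _ _ hl m)
              i0 (Or.inr h5) (fun m => hlf (κ i0) m) (fun m => hlf (κ' i0) m)
          · subst h5
            exact W6_three b hb2 ρ χ hχ _ hc (fun i => lf (p i) (κ i) 3) (fun i => lf (p i) (κ' i) 3)
              (fun i m => hper κ i m) (fun i m => hper κ' i m) (fun m => hq κ m) (fun m => hq κ' m)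
              (fun i m => L4_norm _ _ _ hl m) (fun i m => L4_norm _ _ _ hl m)
              (fun m => hlf (κ 2) m) (fun m => hlf (κ' 2) m)
          · subst h5
            exact absurd h3 h33
    · refine (W2_char l ((Rm p).factorization l) hl hl3 h1 ρ χ hχ _ hc (fun i => lf (p i) (κ i) l) (fun i => lf (p i) (κ' i) l)
        (fun i m => hper κ i m) (fun i m => hper κ' i m) (fun i m => L4_norm _ _ _ hl m) (fun i m => L4_norm _ _ _ hl m) i0
        (fun m => hlf (κ i0) m) (fun m => hlf (κ' i0) m)).trans ?_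
      refine mul_le_mul_of_nonneg_left ?_ (by positivity)
      refine mul_le_mul_of_nonneg_right ?_ (by positivity)
      norm_num
  · by_cases hl3 : l = 3
    · subst hl3
      refine (C3_triv _ _ _ hn).trans ?_
      refine mul_le_mul_of_nonneg_left ?_ (by positivity)
      norm_num
    · have hnd : ∀ i, ¬ l ∣ (p i).1 := fun i h => hd (h.trans (Finset.dvd_lcm (Finset.mem_univ i)))
      have hg : ∀ (K : Fin 4 → ℕ), (fun i => lf (p i) (K i) l) =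
          (fun i (m : ℤ) => if l ∣ K i then ((gl l m : ℝ) : ℂ) else 1) := by
        intro K
        funext i m
        unfold lf
        rw [if_neg (hnd i)]
      rw [hg κ, hg κ']
      have h5 := W2_gl l hl hl3 ρ (fun i => l ∣ κ i) (fun i => l ∣ κ' i) hex
      refine h5.trans ?_
      have h6 : (l : ℝ) ^ 4 * (2 ^ 13 / (l : ℝ) ^ 2) = 2 ^ 13 * (l : ℝ) ^ 2 := by
        have : (l : ℝ) ≠ 0 := by positivity
        field_simp
      rw [h6]
      have h7 : 0 ≤ (l : ℝ) ^ 2 := by positivity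
      nlinarith

/-- Proof. As `E7_cp`: differences of the values are multiples of `q`. -/
theorem W7_cp (ρ : ℤ) : CpF (mf ρ) := by
  intro i q y y' z
  fin_cases i
  · show q ∣ (3 * (y + q) + 3 * z + ρ) - (3 * y + 3 * z + ρ) ∧ q ∣ (3 * y + 3 * z + ρ) - (3 * y + 3 * z + ρ) ∧
      q ∣ (3 * y + 3 * (z + q) + ρ) - (3 * y + 3 * z + ρ)
    exact ⟨⟨3, by ring⟩, ⟨0, by ring⟩, ⟨3, by ring⟩⟩
  · show q ∣ (3 * (y + q) - 3 * z - ρ) - (3 * y - 3 * z - ρ) ∧ q ∣ (3 * y - 3 * z - ρ) - (3 * y - 3 * z - ρ) ∧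
      q ∣ (3 * y - 3 * (z + q) - ρ) - (3 * y - 3 * z - ρ)
    exact ⟨⟨3, by ring⟩, ⟨0, by ring⟩, ⟨-3, by ring⟩⟩
  · show q ∣ (3 * y' + 3 * z + 2 * ρ) - (3 * y' + 3 * z + 2 * ρ) ∧ q ∣ (3 * (y' + q) + 3 * z + 2 * ρ) - (3 * y' + 3 * z + 2 * ρ) ∧
      q ∣ (3 * y' + 3 * (z + q) + 2 * ρ) - (3 * y' + 3 * z + 2 * ρ)
    exact ⟨⟨0, by ring⟩, ⟨3, by ring⟩, ⟨3, by ring⟩⟩
  · show q ∣ (y' - z) - (y' - z) ∧ q ∣ ((y' + q) - z) - (y' - z) ∧ q ∣ (y' - (z + q)) - (y' - z)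
    exact ⟨⟨0, by ring⟩, ⟨1, by ring⟩, ⟨-1, by ring⟩⟩

end Pool.Agent.Lib.H59V
end
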