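import Pool.Agent.Lib.H1M.RV3.M003
import Pool.Agent.Lib.H1M.RV3.M014
import Pool.Agent.Lib.H1M.RV3.M030
import Pool.Agent.Lib.H1M.RV3.M032
import Pool.Agent.Lib.H1M.RV3.M043
import Pool.Agent.Lib.H1M.RV3.M067
import Pool.Agent.Lib.H1M.RV3.M068
import Pool.Agent.Lib.H1M.RV3.M076
import Pool.Agent.Lib.H1M.RV3.M080
import Pool.Agent.Lib.H1M.RV3.M081
import Pool.Agent.Lib.H1M.RV3.M087
import Pool.Agent.Lib.H1M.RV3.M088

/-! Merged copies (to shorten the build) of Lib.H18Q.MPA, Lib.H24Q.C1, Lib.H59P.V1A, Lib.H59P.V1B, Lib.H24P.V1A, Lib.H24P.V2, Lib.H24Q.D1. -/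

-- from Lib.H18Q.MPA
section

/-!
# Project H18Q, chunk MPA: parameters, and the distance of a real zero from 1
-/

open Finset

namespace Pool.Agent.Lib.H18Q

open Pool.Agent.Lib.H68T Pool.Agent.Lib.H18E Pool.Agent.Lib.H18P Pool.Agent.Lib.GoldbachGraph

/-- A real zero is not too close to `1`: `1 - β ≥ c/(r (1 + log r)²)`.

Proof. `r ≤ 100`: `zero_elementary` (`H68X/XSIE`). `r ≥ 100`: if `β < 1 - 1/log r` clear; else
`1/(100 r) ≤ ‖L(1, ψ)‖` (`L1_lower`, `H68X/XL1`) `≤ C (1 - β) (log r)²` (`L1_upper`, `H68X/XRL`). -/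
theorem zero_lower : ∃ c : ℝ, 0 < c ∧ ∀ (r : ℕ) [NeZero r] (ψ : DirichletCharacter ℂ r), ψ ≠ 1 →
    ψ ^ 2 = 1 → ∀ β : ℝ, β < 1 → ψ.LFunction (β : ℂ) = 0 →
    c / (r * (1 + Real.log r) ^ 2) ≤ 1 - β := by
  obtain ⟨c1, hc1, H1⟩ := Pool.Agent.Lib.H68T.zero_elementary
  obtain ⟨C, hC, H2⟩ := Pool.Agent.Lib.H68T.L1_upper
  refine ⟨min (c1 / 100) (min 1 (1 / (100 * C))), by positivity, ?_⟩
  intro r _ ψ hψ hψ2 β hβ h0
  set c := min (c1 / 100) (min 1 (1 / (100 * C))) with hc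
  have hcc1 : c ≤ c1 / 100 := min_le_left _ _
  have hcc2 : c ≤ 1 := (min_le_right _ _).trans (min_le_left _ _)
  have hcc3 : c ≤ 1 / (100 * C) := (min_le_right _ _).trans (min_le_right _ _)
  have hc0 : 0 < c := by positivity
  have hr1 : (1 : ℝ) ≤ r := by
    have : 0 < r := Nat.pos_of_ne_zero (NeZero.ne r)
    exact_mod_cast this
  have hlog : 0 ≤ Real.log r := Real.log_nonneg hr1
  have hsq : 1 ≤ (1 + Real.log r) ^ 2 := by nlinarith
  by_cases hr : r < 100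
  · refine le_trans ?_ (H1 r ψ hψ hψ2 β hβ h0)
    have hr' : (r : ℝ) ≤ 100 := by exact_mod_cast hr.le
    rw [div_le_div_iff₀ (by positivity) (by positivity)]
    have h1 : c * (r : ℝ) ≤ c1 := by
      have : c * (r : ℝ) ≤ c1 / 100 * 100 := mul_le_mul hcc1 hr' (by positivity) (by positivity)
      linarith
    calc c * (r : ℝ) ^ 2 = (c * r) * r := by ring
      _ ≤ c1 * r := mul_le_mul_of_nonneg_right h1 (by positivity)
      _ = c1 * (r * 1) := by ring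
      _ ≤ c1 * (r * (1 + Real.log r) ^ 2) := by
        apply mul_le_mul_of_nonneg_left _ hc1.le
        exact mul_le_mul_of_nonneg_left hsq (by positivity)
  · have hr100 : 100 ≤ r := not_lt.mp hr
    have hrR : (100 : ℝ) ≤ r := by exact_mod_cast hr100
    have hlogp : 0 < Real.log r := Real.log_pos (by linarith)
    by_cases hb : β < 1 - 1 / Real.log r
    · refine le_trans ?_ (show 1 / Real.log r ≤ 1 - β by linarith)
      rw [div_le_div_iff₀ (by positivity) hlogp]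
      have h1 : Real.log r ≤ (1 + Real.log r) ^ 2 := by nlinarith
      have h2 : (1 + Real.log r) ^ 2 ≤ r * (1 + Real.log r) ^ 2 := by nlinarith
      nlinarith
    · have h1 := H2 r ψ hr100 hψ β (not_lt.mp hb) hβ.le h0
      have h2 := Pool.Agent.Lib.H68T.L1_lower r ψ hψ hψ2
      have h3 : 1 / (100 * (r : ℝ)) ≤ C * (1 - β) * (Real.log r) ^ 2 := h2.trans h1
      have hb1 : 0 < 1 - β := by linarith
      rw [div_le_iff₀ (by positivity)] at h3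
      rw [div_le_iff₀ (by positivity)]
      have h4 : C * (1 - β) * (Real.log r) ^ 2 * (100 * r) ≤
          (100 * C) * ((1 - β) * (r * (1 + Real.log r) ^ 2)) := by
        have h5 : (Real.log r) ^ 2 ≤ (1 + Real.log r) ^ 2 := by nlinarith
        calc C * (1 - β) * (Real.log r) ^ 2 * (100 * r) = (100 * C) * ((1 - β) * (r * (Real.log r) ^ 2)) := by ring
          _ ≤ (100 * C) * ((1 - β) * (r * (1 + Real.log r) ^ 2)) := by
            apply mul_le_mul_of_nonneg_left _ (by positivity)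
            apply mul_le_mul_of_nonneg_left _ hb1.le
            exact mul_le_mul_of_nonneg_left h5 (by positivity)
      refine hcc3.trans ?_
      rw [div_le_iff₀ (by positivity)]
      linarith

/-- Parameters. For `K ≥ 1`, `δ = 1/(2 K)`, `Q = ⌊n^δ⌋` and `n` large: the regime `RegP K Q n`, also
for the level `r - 1` if `r^100 > Q`, `r ≤ Q`; and the powers of `Q` and `n`. -/
theorem MP_par (K : ℝ) (hK : 1 ≤ K) : ∃ n0 : ℕ, ∀ n : ℕ, n0 ≤ n →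
    RegP K ⌊(n : ℝ) ^ (1 / (2 * K))⌋₊ n ∧ K ≤ ⌊(n : ℝ) ^ (1 / (2 * K))⌋₊ ∧
    (n : ℝ) ^ (1 / (4 * K)) ≤ ⌊(n : ℝ) ^ (1 / (2 * K))⌋₊ ∧
    ∀ r : ℕ, ⌊(n : ℝ) ^ (1 / (2 * K))⌋₊ < r ^ 100 → r ≤ ⌊(n : ℝ) ^ (1 / (2 * K))⌋₊ →
      RegP K (r - 1) n ∧ K ≤ r ∧ (n : ℝ) ^ (1 / (500 * K)) ≤ ((r - 1 : ℕ) : ℝ) := by
  have hK0 : 0 < K := by linarith
  -- eventual facts
  have e1 : ∀ᶠ n : ℕ in Filter.atTop, max 2 K ≤ (n : ℝ) ^ (1 / (2000 * K)) :=
    (((tendsto_rpow_atTop (show 0 < 1 / (2000 * K) by positivity)).comp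
      tendsto_natCast_atTop_atTop)).eventually_ge_atTop _
  have e2 : ∀ᶠ n : ℕ in Filter.atTop, K ≤ Real.log (Real.log n) :=
    ((Real.tendsto_log_atTop.comp Real.tendsto_log_atTop).comp
      tendsto_natCast_atTop_atTop).eventually_ge_atTop _
  have e3 : ∀ᶠ n : ℕ in Filter.atTop, ‖Real.log (Real.log n)‖ ≤ 1 / (500 * K ^ 2) * ‖Real.log n‖ := by
    have h1 := (Real.isLittleO_log_id_atTop.comp_tendsto Real.tendsto_log_atTop).comp_tendsto
      (tendsto_natCast_atTop_atTop (R := ℝ))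
    exact h1.bound (show 0 < 1 / (500 * K ^ 2) by positivity)
  have e4 : ∀ᶠ n : ℕ in Filter.atTop, 3 ≤ n := Filter.eventually_ge_atTop 3
  obtain ⟨n0, hn0⟩ := Filter.eventually_atTop.mp (e1.and (e2.and (e3.and e4)))
  refine ⟨n0, fun n hn => ?_⟩
  obtain ⟨h1, h2, h3, h4⟩ := hn0 n hn
  have hnR : (3 : ℝ) ≤ n := by exact_mod_cast h4
  have hn0' : (0 : ℝ) ≤ n := by linarith
  have hnp : (0 : ℝ) < n := by linarith
  have hlogn : 0 < Real.log n := Real.log_pos (by linarith)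
  set z : ℝ := (n : ℝ) ^ (1 / (2000 * K)) with hz
  have hz2 : 2 ≤ z := (le_max_left _ _).trans h1
  have hzK : K ≤ z := (le_max_right _ _).trans h1
  have hz0 : 0 ≤ z := by linarith
  have hpw : ∀ m : ℕ, z ^ m = (n : ℝ) ^ ((m : ℝ) / (2000 * K)) := by
    intro m
    rw [hz, ← Real.rpow_natCast, ← Real.rpow_mul hn0']
    congr 1
    ring
  have hll0 : 0 ≤ Real.log (Real.log n) := by linarith
  have h3' : K * Real.log (Real.log n) ≤ Real.log n / (500 * K) := by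
    rw [Real.norm_of_nonneg hll0, Real.norm_of_nonneg hlogn.le] at h3
    calc K * Real.log (Real.log n) ≤ K * (1 / (500 * K ^ 2) * Real.log n) :=
          mul_le_mul_of_nonneg_left h3 hK0.le
      _ = Real.log n / (500 * K) := by
        field_simp
  set Q : ℕ := ⌊(n : ℝ) ^ (1 / (2 * K))⌋₊ with hQ
  have hz1000 : (n : ℝ) ^ (1 / (2 * K)) = z ^ 1000 := by
    rw [hpw]
    congr 1
    field_simp
    norm_num
  have hz500 : (n : ℝ) ^ (1 / (4 * K)) = z ^ 500 := by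
    rw [hpw]
    congr 1
    field_simp
    norm_num
  have hz4 : (n : ℝ) ^ (1 / (500 * K)) = z ^ 4 := by
    rw [hpw]
    congr 1
    field_simp
    norm_num
  have hQle : (Q : ℝ) ≤ (n : ℝ) ^ (1 / (2 * K)) := Nat.floor_le (by positivity)
  have hQge : z ^ 500 ≤ Q := by
    have h5 : (n : ℝ) ^ (1 / (2 * K)) < Q + 1 := Nat.lt_floor_add_one _
    have h6 : 2 ≤ z ^ 500 := hz2.trans (le_self_pow₀ (by linarith) (by norm_num))
    have h7 : z ^ 1000 = z ^ 500 * z ^ 500 := by rw [← pow_add]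
    rw [hz1000, h7] at h5
    nlinarith
  have hz500K : z ≤ z ^ 500 := le_self_pow₀ (by linarith) (by norm_num)
  have hQp : (0 : ℝ) < Q := by linarith
  have hlogz : 500 * K * (4 * Real.log z) = Real.log n := by
    have h5 : 4 * Real.log z = Real.log n / (500 * K) := by
      rw [← Real.log_rpow (by linarith), show (4 : ℝ) = ((4 : ℕ) : ℝ) by norm_num, Real.rpow_natCast, ← hz4,
        Real.log_rpow hnp]
      ring
    rw [h5]
    field_simp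
  have hlz : Real.log n / (500 * K) = 4 * Real.log z := by
    rw [← hlogz]
    field_simp
  have hlz4 : 4 * Real.log z = Real.log (z ^ 4) := by
    rw [Real.log_pow]
    norm_num
  have hKQ : K * Real.log Q ≤ Real.log n := by
    have h5 : Real.log Q ≤ Real.log ((n : ℝ) ^ (1 / (2 * K))) := Real.log_le_log hQp hQle
    rw [Real.log_rpow hnp] at h5
    calc K * Real.log Q ≤ K * (1 / (2 * K) * Real.log n) := mul_le_mul_of_nonneg_left h5 hK0.le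
      _ = Real.log n / 2 := by field_simp
      _ ≤ Real.log n := by linarith
  have hmain : ∀ m : ℕ, z ^ 4 ≤ m → (m : ℝ) ≤ Q → RegP K m n := by
    intro m hm1 hm2
    have hz4p : 0 < z ^ 4 := by positivity
    refine ⟨h2, ?_, ?_⟩
    · refine h3'.trans ?_
      rw [hlz, hlz4]
      exact Real.log_le_log hz4p hm1
    · refine le_trans ?_ hKQ
      exact mul_le_mul_of_nonneg_left (Real.log_le_log (lt_of_lt_of_le hz4p hm1) hm2) hK0.le
  have hz45 : z ^ 4 ≤ z ^ 500 := pow_le_pow_right₀ (by linarith) (by norm_num)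
  refine ⟨hmain Q (hz45.trans hQge) le_rfl, hzK.trans (hz500K.trans hQge), ?_, ?_⟩
  · rw [hz500]
    exact hQge
  · intro r hr1 hr2
    have h5 : z ^ 500 < (r : ℝ) ^ 100 := by
      refine lt_of_le_of_lt hQge ?_
      exact_mod_cast hr1
    have h6 : z ^ 5 < r := by
      rw [show (500 : ℕ) = 5 * 100 by norm_num, pow_mul] at h5
      exact lt_of_pow_lt_pow_left₀ 100 (by positivity) h5
    have h7 : 1 ≤ z ^ 5 := one_le_pow₀ (by linarith)
    have hr0 : 1 ≤ r := by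
      have : (1 : ℝ) < r := by linarith
      have := Nat.one_lt_cast.mp this
      omega
    have h8 : z ^ 4 ≤ ((r - 1 : ℕ) : ℝ) := by
      rw [Nat.cast_sub hr0, Nat.cast_one]
      have h9 : 1 ≤ z ^ 4 := one_le_pow₀ (by linarith)
      have h10 : z ^ 5 = z ^ 4 * z := by ring
      nlinarith
    have h11 : ((r - 1 : ℕ) : ℝ) ≤ Q := by
      have : r - 1 ≤ Q := by omega
      exact_mod_cast this
    refine ⟨hmain (r - 1) h8 h11, ?_, ?_⟩
    · have h12 : z ≤ z ^ 5 := le_self_pow₀ (by linarith) (by norm_num)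
      linarith
    · rw [hz4]
      exact h8


end Pool.Agent.Lib.H18Q
end

-- from Lib.H24Q.C1
section

/-!
# Project H24Q, chunk C1 (M): exceptional characters, lower bounds for the model (compare H24P/X1A, X2, K1)
-/

open Finset

namespace Pool.Agent.Lib.H24Q

open Pool.Agent.Lib.H68T Pool.Agent.Lib.H18Q Pool.Agent.Lib.H59P Pool.Agent.Lib.H24P

/-- the least common multiple is large -/
theorem c1_lcm {m : ℕ} {Q : ℕ} (px : Ch) (hpx : px ∈ PC Q) (Bs : Finset (Fin m)) (hBs : Bs.Nonempty)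
    (κ : Fin m → ℕ) (hκ : κ ∈ KT px Bs) : px.1 - 1 < univ.lcm (fun i => (pB px Bs i).1 * κ i) := by
  classical
  obtain ⟨hr1, -, -⟩ := mem_PC.1 hpx
  obtain ⟨i0, hi0⟩ := hBs
  have hsub := X1A_sub Q px hpx Bs
  have hκ' := Fintype.mem_piFinset.1 (hsub.1 hκ)
  have hpos : ∀ i, (pB px Bs i).1 * κ i ≠ 0 := by
    intro i
    have h1 := f_q_le (hsub.2 i) (hκ' i)
    exact (Nat.one_le_iff_ne_zero).1 h1.1
  have hκ0 : κ i0 = 1 := by
    unfold KT at hκ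
    have h1 := Fintype.mem_piFinset.1 hκ i0
    rw [if_pos hi0, Finset.mem_singleton] at h1
    exact h1
  have hp0 : pB px Bs i0 = px := by
    unfold pB
    rw [if_pos hi0]
  have hdvd : px.1 ∣ univ.lcm (fun i => (pB px Bs i).1 * κ i) := by
    have h1 : (pB px Bs i0).1 * κ i0 ∣ univ.lcm (fun i => (pB px Bs i).1 * κ i) :=
      Finset.dvd_lcm (f := fun i => (pB px Bs i).1 * κ i) (Finset.mem_univ i0)
    rw [hκ0, mul_one, hp0] at h1
    exact h1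
  have hne : univ.lcm (fun i => (pB px Bs i).1 * κ i) ≠ 0 := by
    rw [Ne, Finset.lcm_eq_zero_iff]
    rintro ⟨i, _, hi⟩
    exact hpos i hi
  have := Nat.le_of_dvd (Nat.pos_of_ne_zero hne) hdvd
  omega

/-- the mean as a sum over a longer interval -/
theorem c1_mean {m : ℕ} {Q : ℕ} (φ : Fin m → ℤ → ℤ) (hφ : Cp φ) (px : Ch) (hpx : px ∈ PC Q)
    (Bs : Finset (Fin m)) (q : ℕ) (hq : 0 < q) :
    MRf (pB px Bs) px.1 φ = (∑ n ∈ Ico 0 (0 + px.1 * q), ∑ κ ∈ KT px Bs,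
      ∏ i, gk (pB px Bs i) (κ i) (φ i (n : ℤ))) / ((px.1 * q : ℕ) : ℂ) := by
  classical
  obtain ⟨hr1, -, -⟩ := mem_PC.1 hpx
  have h1 : ∀ n : ℕ, ∑ κ ∈ KT px Bs, ∏ i, gk (pB px Bs i) (κ i) (φ i (n : ℤ)) =
      Phf (pB px Bs) px.1.primeFactors (at' φ (n : ℤ)) := fun n =>
    (X1A_expand Q px hpx Bs (fun i => φ i (n : ℤ))).symm
  have hd : ∀ i, (pB px Bs i).1 ∣ px.1 := by
    intro i
    unfold pB
    split_ifs
    · exact dvd_rfl
    · exact one_dvd _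
  rw [zero_add, Nat.Ico_zero_eq_range, Finset.sum_congr rfl fun n _ => h1 n,
    x1_sum_mul px.1 q (fun n => Phf (pB px Bs) px.1.primeFactors (at' φ (n : ℤ))) (fun s => by
      have := P2_Ph φ hφ (pB px Bs) px.1 px.1 dvd_rfl hd (s : ℤ)
      push_cast
      exact this)]
  unfold MRf
  have hq0 : (q : ℂ) ≠ 0 := by exact_mod_cast hq.ne'
  have hr0 : (px.1 : ℂ) ≠ 0 := by
    have : px.1 ≠ 0 := by omega
    exact_mod_cast this
  push_cast
  field_simp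

theorem c1_rc {r : ℕ} (hr : 2 ≤ r) {c : ℝ} (hc : 0 < c) :
    (((r - 1 : ℕ) : ℝ)) ^ (-c) ≤ 2 ^ c * (r : ℝ) ^ (-c) := by
  have hrR : (2 : ℝ) ≤ r := by exact_mod_cast hr
  have hr0 : (0 : ℝ) < r := by linarith
  have h1 : (((r - 1 : ℕ) : ℝ)) = (r : ℝ) - 1 := by
    rw [Nat.cast_sub (by omega), Nat.cast_one]
  rw [h1]
  have h2 : (r : ℝ) / 2 ≤ (r : ℝ) - 1 := by linarith
  have h3 : ((r : ℝ) - 1) ^ (-c) ≤ ((r : ℝ) / 2) ^ (-c) :=
    Real.rpow_le_rpow_of_nonpos (by positivity) h2 (by linarith)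
  refine h3.trans (le_of_eq ?_)
  rw [Real.div_rpow hr0.le (by norm_num), div_eq_mul_inv, mul_comm, ← Real.rpow_neg (by norm_num), neg_neg]

/-- Proof. Let `r = px.1`. `MRf (pB px Bs) r (φ ω)` is a mean over `n < r` of a function of period `r` (`P2_Ph`), hence over
`n < H`, `H = r (H0 + 1)`. By `X1A_expand` it is `(1/H) ∑_{n<H} ∑_{κ ∈ KT px Bs} ∏ gk (pB px Bs i) (κ i) (φ ω i n)`.
`KT px Bs ⊆ piFinset (KS Q (pB px Bs i).1)` (`X1A_sub` gives the level `r`; `KS r _ ⊆ KS Q _` since `r ≤ Q`). `FG` with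
`D = r - 1 ≥ 1` (the lcm is a multiple of `r` as `Bs` is nonempty, and positive), `(r-1)^(-c) ≤ 2^c r^(-c)`. -/
theorem C1_MR {C c : ℝ} (hC : 1 ≤ C) (hc : 0 < c) {Q H0 : ℕ} {m : ℕ} {Ω : Type} {S : Finset Ω}
    {φ : Ω → Fin m → ℤ → ℤ} (hF : FG C c Q H0 S φ) (hcp : ∀ ω ∈ S, Cp (φ ω)) (px : Ch)
    (hpx : px ∈ PC Q) (hr : 2 ≤ px.1) (Bs : Finset (Fin m)) (hBs : Bs.Nonempty) :
    ∑ ω ∈ S, ‖MRf (pB px Bs) px.1 (φ ω)‖ ^ 2 ≤
      C * 2 ^ c * (1 + Real.log Q) ^ C * S.card * (px.1 : ℝ) ^ (-c) := by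
  classical
  obtain ⟨hr1, hrQ, hprim⟩ := mem_PC.1 hpx
  have hQ1 : 1 ≤ Q := by omega
  have hlog : 0 ≤ Real.log Q := Real.log_natCast_nonneg Q
  have hsub := X1A_sub Q px hpx Bs
  have hPC : ∀ i, pB px Bs i ∈ PC Q := by
    intro i
    obtain ⟨e1, e2, e3⟩ := mem_PC.1 (hsub.2 i)
    exact mem_PC.2 ⟨e1, e2.trans hrQ, e3⟩
  have hKS : KT px Bs ⊆ Fintype.piFinset (fun i => KS Q (pB px Bs i).1) := by
    refine hsub.1.trans (Fintype.piFinset_subset _ _ fun i => ?_)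
    intro κ hκ
    rw [KS, Finset.mem_filter, Finset.mem_Icc] at hκ ⊢
    exact ⟨⟨hκ.1.1, hκ.1.2.trans (Nat.div_le_div_right hrQ)⟩, hκ.2⟩
  have hH : H0 ≤ px.1 * (H0 + 1) := by nlinarith
  have hmain := hF (pB px Bs) hPC (KT px Bs) hKS (px.1 - 1) (by omega)
    (fun κ hκ => c1_lcm px hpx Bs hBs κ hκ) 0 (px.1 * (H0 + 1)) hH
  have hHpos : (0 : ℝ) < ((px.1 * (H0 + 1) : ℕ) : ℝ) := by
    have : 0 < px.1 * (H0 + 1) := Nat.mul_pos (by omega) (Nat.succ_pos _)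
    exact_mod_cast this
  have hnorm : ∀ ω ∈ S, ‖MRf (pB px Bs) px.1 (φ ω)‖ ^ 2 = (1 / ((px.1 * (H0 + 1) : ℕ) : ℝ) ^ 2) *
      ‖∑ n ∈ Ico 0 (0 + px.1 * (H0 + 1)), ∑ κ ∈ KT px Bs,
        ∏ i, gk (pB px Bs i) (κ i) (φ ω i (n : ℤ))‖ ^ 2 := by
    intro ω hω
    rw [c1_mean (φ ω) (hcp ω hω) px hpx Bs (H0 + 1) (Nat.succ_pos _), norm_div, Complex.norm_natCast, div_pow]
    ring
  rw [Finset.sum_congr rfl hnorm, ← Finset.mul_sum]
  have h5 := mul_le_mul_of_nonneg_left hmain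
    (by positivity : (0 : ℝ) ≤ 1 / ((px.1 * (H0 + 1) : ℕ) : ℝ) ^ 2)
  refine h5.trans ?_
  have h6 : (1 / ((px.1 * (H0 + 1) : ℕ) : ℝ) ^ 2) * (C * (1 + Real.log Q) ^ C * S.card *
      ((px.1 * (H0 + 1) : ℕ) : ℝ) ^ 2 * (((px.1 - 1 : ℕ) : ℝ)) ^ (-c)) =
      C * (1 + Real.log Q) ^ C * S.card * (((px.1 - 1 : ℕ) : ℝ)) ^ (-c) := by
    field_simp
  rw [h6]
  have hC0 : 0 ≤ C * (1 + Real.log Q) ^ C * S.card := by
    have : 0 ≤ (1 + Real.log Q) ^ C := Real.rpow_nonneg (by linarith) _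
    positivity
  refine (mul_le_mul_of_nonneg_left (c1_rc hr hc) hC0).trans (le_of_eq ?_)
  ring

theorem c1_low1 {k : ℕ} (φ : Fin k → ℤ → ℤ) (hφ : Cp φ) (hN : NoFix φ) (l : ℕ)
    (hl : l.Prime) : 1 / (l : ℝ) ≤ 1 + tpf l φ := by
  classical
  have hl2 : (2 : ℝ) ≤ l := by exact_mod_cast hl.two_le
  have hl0 : (0 : ℝ) < l := by linarith
  have hlz : (0 : ℤ) < l := by exact_mod_cast hl.pos
  obtain ⟨n, hn⟩ := hN l hl
  set n' : ℕ := (n % l).toNat with hn'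
  have h1 : (n' : ℤ) = n % l := Int.toNat_of_nonneg (Int.emod_nonneg _ hlz.ne')
  have h2 : n' < l := by
    have := Int.emod_lt_of_pos n hlz
    omega
  have h3 : n' ∈ (range l).filter (fun n : ℕ => ∀ i, ¬ (l : ℤ) ∣ φ i n) := by
    refine mem_filter.2 ⟨mem_range.2 h2, fun i hi => hn i ?_⟩
    have h4 := hφ i (l * (n / l)) (n' : ℤ)
    have h5 : (n' : ℤ) + l * (n / l) = n := by
      rw [h1]
      exact Int.emod_add_mul_ediv n l
    rw [h5] at h4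
    have h6 : (l : ℤ) ∣ φ i n - φ i n' := (Dvd.intro _ rfl).trans h4
    exact (dvd_sub_left hi).1 h6
  rw [T1_count l hl]
  have h4 : (1 : ℝ) ≤ (((range l).filter (fun n : ℕ => ∀ i, ¬ (l : ℤ) ∣ φ i n)).card : ℝ) := by
    exact_mod_cast Finset.card_pos.2 ⟨n', h3⟩
  have h5 : (1 : ℝ) ≤ ((l : ℝ) / (l - 1)) ^ k := one_le_pow₀ (M3a_ratio l hl)
  calc 1 / (l : ℝ) = 1 / (l : ℝ) * 1 := (mul_one _).symm
    _ ≤ _ := mul_le_mul (div_le_div_of_nonneg_right h4 hl0.le) h5 (by norm_num) (by positivity)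

/-- the local lower bound -/
theorem c1_loc {k : ℕ} (φ : Fin k → ℤ → ℤ) (hφ : Cp φ) (hN : NoFix φ) (C : ℝ) (hC : 1 ≤ C)
    (l : ℕ) (hl : l.Prime) (ht : |tpf l φ| ≤ C / l) :
    (if (l : ℝ) ≤ 2 * C then 1 / (2 * C) else 1) * Real.exp (-(2 * C) * (1 / l)) ≤ 1 + tpf l φ := by
  have hl2 : (2 : ℝ) ≤ l := by exact_mod_cast hl.two_le
  have hl0 : (0 : ℝ) < l := by linarith
  split_ifs with h
  · have h1 : Real.exp (-(2 * C) * (1 / l)) ≤ 1 := by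
      rw [Real.exp_le_one_iff]
      have : 0 ≤ 2 * C * (1 / (l : ℝ)) := by positivity
      linarith
    have h2 : 1 / (2 * C) ≤ 1 / (l : ℝ) := one_div_le_one_div_of_le hl0 h
    calc _ ≤ 1 / (2 * C) * 1 := mul_le_mul_of_nonneg_left h1 (by positivity)
      _ = 1 / (2 * C) := mul_one _
      _ ≤ 1 / (l : ℝ) := h2
      _ ≤ _ := c1_low1 φ hφ hN l hl
  · push Not at h
    rw [one_mul]
    set x : ℝ := C / l with hx
    have hx0 : 0 ≤ x := by positivity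
    have hx1 : 2 * x ≤ 1 := by
      rw [hx, mul_div_assoc', div_le_one hl0]
      exact h.le
    have h1 : 1 - x ≤ 1 + tpf l φ := by
      have := (abs_le.1 ht).1
      linarith
    refine le_trans ?_ h1
    have h2 : -(2 * C) * (1 / (l : ℝ)) = -(2 * x) := by
      rw [hx]
      ring
    rw [h2, Real.exp_neg]
    have h3 : 1 + 2 * x ≤ Real.exp (2 * x) := by
      have := Real.add_one_le_exp (2 * x)
      linarith
    have h4 : (Real.exp (2 * x))⁻¹ ≤ (1 + 2 * x)⁻¹ := inv_anti₀ (by linarith) h3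
    refine h4.trans ?_
    rw [inv_le_iff_one_le_mul₀ (by linarith)]
    nlinarith [mul_nonneg hx0 (by linarith : (0 : ℝ) ≤ 1 - 2 * x)]

theorem c1_exp (Q : ℕ) (hQ : 2 ≤ Q) :
    Real.exp (∑ l ∈ pr Q, 1 / (l : ℝ)) ≤ 500 * (1 + Real.log Q) := by
  have h1 := Pool.Agent.Lib.Helper57.prod_one_sub_inv_inv_le Q hQ
  have h2 : pr Q = Pool.Agent.Lib.Sieve.primesUpTo Q := by
    ext l
    rw [p5_mem_pr, Pool.Agent.Lib.Sieve.mem_primesUpTo]
  rw [← h2] at h1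
  rw [Real.exp_sum]
  have h3 : ∏ l ∈ pr Q, Real.exp (1 / (l : ℝ)) ≤ ∏ p ∈ pr Q, (1 - 1 / (p : ℝ))⁻¹ := by
    refine Finset.prod_le_prod (fun l _ => (Real.exp_pos _).le) fun l hl => ?_
    have hlp := (p5_mem_pr.1 hl).1
    have hl2 : (2 : ℝ) ≤ l := by exact_mod_cast hlp.two_le
    have h4 : 1 / (l : ℝ) ≤ 1 / 2 := one_div_le_one_div_of_le (by norm_num) hl2
    have h5 := Real.one_sub_le_exp_neg (1 / (l : ℝ))
    rw [Real.exp_neg] at h5
    have h6 : Real.exp (1 / (l : ℝ)) = ((Real.exp (1 / (l : ℝ)))⁻¹)⁻¹ := (inv_inv _).symm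
    rw [h6]
    exact inv_anti₀ (by linarith) h5
  have h7 : (500 : ℝ) * Real.log Q ≤ 500 * (1 + Real.log Q) := by linarith
  exact h3.trans (h1.trans h7)

/-- Proof. As `X2_low` in `H24P` (see its docstring); the lower bound `1 + tpf ≥ 1/l` without fixed divisor as in `T1_low`
(`T1_count`, reduction of `n` modulo `l` by `Cp`). -/
theorem C1_low (m : ℕ) (C : ℝ) (hC : 1 ≤ C) : ∃ C' c' : ℝ, 1 ≤ C' ∧ 0 < c' ∧ ∀ φ : Fin m → ℤ → ℤ,
    Cp φ → (∀ l : ℕ, l.Prime → |tpf l φ| ≤ C / l) → NoFix φ → ∀ Q : ℕ, 2 ≤ Q →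
    ∀ P' : Finset ℕ, P' ⊆ pr Q → c' * (1 + Real.log Q) ^ (-C') ≤ SSf P' φ := by
  classical
  have hC0 : 0 < C := by linarith
  have hb0 : 0 < 1 / (2 * C) := by positivity
  have hb1 : 1 / (2 * C) ≤ 1 := by
    rw [div_le_one (by linarith)]
    linarith
  refine ⟨2 * C, (1 / (2 * C)) ^ ⌊2 * C⌋₊ * (500 : ℝ) ^ (-(2 * C)), by linarith, by positivity, ?_⟩
  intro φ hφ ht hN Q hQ P' hP'
  have hlog : 0 ≤ Real.log Q := Real.log_natCast_nonneg Q
  have hprime : ∀ l ∈ P', l.Prime := fun l hl => (p5_mem_pr.1 (hP' hl)).1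
  have h1 : ∏ l ∈ P', ((if (l : ℝ) ≤ 2 * C then 1 / (2 * C) else 1) * Real.exp (-(2 * C) * (1 / l))) ≤
      SSf P' φ := by
    unfold SSf
    refine Finset.prod_le_prod (fun l _ => ?_) fun l hl => c1_loc φ hφ hN C hC l (hprime l hl) (ht l (hprime l hl))
    have : 0 ≤ Real.exp (-(2 * C) * (1 / (l : ℝ))) := (Real.exp_pos _).le
    split_ifs <;> positivity
  refine le_trans ?_ h1
  rw [Finset.prod_mul_distrib]
  have h2 : (1 / (2 * C)) ^ ⌊2 * C⌋₊ ≤ ∏ l ∈ P', (if (l : ℝ) ≤ 2 * C then 1 / (2 * C) else 1) := by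
    rw [← Finset.prod_filter, Finset.prod_const]
    refine pow_le_pow_of_le_one hb0.le hb1 ?_
    have h3 : P'.filter (fun l : ℕ => (l : ℝ) ≤ 2 * C) ⊆ (Finset.Icc 1 ⌊2 * C⌋₊ : Finset ℕ) := by
      intro l hl
      rw [Finset.mem_filter] at hl
      rw [Finset.mem_Icc]
      exact ⟨(hprime l hl.1).one_lt.le, Nat.le_floor hl.2⟩
    have h4 := Finset.card_le_card h3
    rwa [Nat.card_Icc, Nat.add_sub_cancel] at h4
  have h5 : (500 : ℝ) ^ (-(2 * C)) * (1 + Real.log Q) ^ (-(2 * C)) ≤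
      ∏ l ∈ P', Real.exp (-(2 * C) * (1 / l)) := by
    rw [← Real.exp_sum, ← Finset.mul_sum, ← Real.mul_rpow (by norm_num) (by linarith)]
    have h6 : ∑ l ∈ P', 1 / (l : ℝ) ≤ ∑ l ∈ pr Q, 1 / (l : ℝ) :=
      Finset.sum_le_sum_of_subset_of_nonneg hP' fun l _ _ => by positivity
    have h7 : Real.exp (-(2 * C) * ∑ l ∈ pr Q, 1 / (l : ℝ)) ≤
        Real.exp (-(2 * C) * ∑ l ∈ P', 1 / (l : ℝ)) := by
      rw [Real.exp_le_exp]
      nlinarith
    refine le_trans ?_ h7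
    have h8 : Real.exp (-(2 * C) * ∑ l ∈ pr Q, 1 / (l : ℝ)) =
        (Real.exp (∑ l ∈ pr Q, 1 / (l : ℝ))) ^ (-(2 * C)) := by
      rw [← Real.exp_mul]
      congr 1
      ring
    rw [h8]
    exact Real.rpow_le_rpow_of_nonpos (Real.exp_pos _) (c1_exp Q hQ) (by linarith)
  calc (1 / (2 * C)) ^ ⌊2 * C⌋₊ * (500 : ℝ) ^ (-(2 * C)) * (1 + Real.log Q) ^ (-(2 * C))
      = (1 / (2 * C)) ^ ⌊2 * C⌋₊ * ((500 : ℝ) ^ (-(2 * C)) * (1 + Real.log Q) ^ (-(2 * C))) := by ring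
    _ ≤ _ := by
        refine mul_le_mul h2 h5 ?_ ?_
        · have : 0 ≤ (1 + Real.log Q) ^ (-(2 * C)) := Real.rpow_nonneg (by linarith) _
          positivity
        · exact Finset.prod_nonneg fun l _ => by split_ifs <;> positivity

/-- logarithms are smaller than powers -/
theorem c1_small (K b e : ℝ) (he : 0 < e) (hK : 0 < K) : ∃ Q0 : ℕ, 2 ≤ Q0 ∧ ∀ Q : ℕ, Q0 ≤ Q →
    (Q : ℝ) ^ (-e) ≤ K * (1 + Real.log Q) ^ (-b) := by
  obtain ⟨Q0, hQ01, h⟩ := G1_rlog (1 / K) b e he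
  refine ⟨max Q0 2, le_max_right _ _, fun Q hQ => ?_⟩
  have h1 := h Q ((le_max_left _ _).trans hQ)
  have hQ2 : 2 ≤ Q := (le_max_right _ _).trans hQ
  have hQ0 : (0 : ℝ) < Q := by
    have : 0 < Q := by omega
    exact_mod_cast this
  have hlog : 0 ≤ Real.log Q := Real.log_natCast_nonneg Q
  have hL : 0 < (1 + Real.log Q) ^ b := Real.rpow_pos_of_pos (by linarith) _
  rw [Real.rpow_neg hQ0.le, Real.rpow_neg (by linarith)]
  have h2 : ((Q : ℝ) ^ e)⁻¹ ≤ (1 / K * (1 + Real.log Q) ^ b)⁻¹ := inv_anti₀ (by positivity) h1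
  refine h2.trans (le_of_eq ?_)
  field_simp

/-- Proof. `P5_eta` with `η = 1`, `C1_low` with `P' = pr Q`, `G1_rlog`. -/
theorem C1_good (m : ℕ) (C c1 : ℝ) (hC : 1 ≤ C) (hc1 : 0 < c1) : ∃ Q0 : ℕ, ∀ Q : ℕ, Q0 ≤ Q →
    ∀ φ : Fin m → ℤ → ℤ, Cp φ → (∀ l : ℕ, l.Prime → |tpf l φ| ≤ C / l) → NoFix φ →
    ∀ th' : Fin m → ℝ, (∀ i, 0 ≤ th' i) → (∀ i, th' i ≤ 1 - 1) →
    (Q : ℝ) ^ (-c1) ≤ PMf Q p0 th' φ := by
  obtain ⟨C', c', hC', hc', hlow⟩ := C1_low m C hC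
  obtain ⟨Q0, hQ02, h⟩ := c1_small c' C' c1 hc1 hc'
  refine ⟨Q0, ?_⟩
  intro Q hQ φ hφ ht hN th' h0 h1
  have h2 := P5_eta φ hφ Q p0 (by
    have : (p0 : Ch).2 = 1 := rfl
    rw [this, one_pow]) 1 zero_le_one th' h0 h1
  rw [one_pow, one_mul] at h2
  exact (h Q hQ).trans ((hlow φ hφ ht hN Q (hQ02.trans hQ) (pr Q) (Finset.Subset.refl _)).trans h2)

/-- **C1.** Proof. Compare `K1_exc` in `H24P` (see its docstring), with `C1_MR` instead of `X1A_main`, `X1B_main`, and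
`C1_low` instead of `X2_low`.
(i) `2 η ≥ 1 - β ≥ c/(r (1+log r)²)` (`zero_lower`, `H18Q/MPA.lean`), `r ≤ Q^c6`, and `PMf ≥ η^m SSf (pr Q)` (`P5_eta`), `C1_low`;
logarithms and constants are at most `Q^ε` (`G1_rlog`).
(ii) `Bad` is the set of the `ω` with `2^(m+1) ‖MRf (pB px Bs) r (φ ω)‖ > c' (1+log Q)^(-C')` for some nonempty `Bs` (`c'`, `C'` from
`C1_low`; `r.primeFactors ⊆ pr Q`); by Chebyshev and `C1_MR` at most
`2^m 4^(m+1) c'^(-2) C 2^c (1+log Q)^(C + 2 C') |S| r^(-c) ≤ |S| Q^(-c c6/2)` of them. For the others `P5_X2`, `C1_low`.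
(`r ≥ 2` as `ψ ≠ 1`; `⟨r, ψ⟩ ∈ PC Q` by `mem_PC`.) -/
theorem C1_exc (m : ℕ) (C c c6 ε : ℝ) (hC : 1 ≤ C) (hc : 0 < c) (hc6 : 0 < c6) (hε : 0 < ε) :
    ∃ Q0 : ℕ, ∀ Q : ℕ, Q0 ≤ Q → ∀ (H0 : ℕ) (Ω : Type) (S : Finset Ω) (φ : Ω → Fin m → ℤ → ℤ),
    Fam C c Q H0 S φ → ∀ (r : ℕ) [NeZero r] (ψ : DirichletCharacter ℂ r) (β η : ℝ), r ^ 100 ≤ Q →
    ψ.IsPrimitive → ψ ≠ 1 → ψ ^ 2 = 1 → β < 1 → ψ.LFunction (β : ℂ) = 0 → 1 - β ≤ 2 * η → η ≤ 1 →
    (((r : ℝ) ≤ (Q : ℝ) ^ c6 → ∀ ω ∈ S, NoFix (φ ω) → ∀ th' : Fin m → ℝ, (∀ i, 0 ≤ th' i) →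
        (∀ i, th' i ≤ 1 - η) → (Q : ℝ) ^ (-(m * c6 + ε)) ≤ PMf Q ⟨r, ψ⟩ th' (φ ω)) ∧
      ((Q : ℝ) ^ c6 < r → ∃ Bad : Finset Ω, Bad ⊆ S ∧ (Bad.card : ℝ) ≤ S.card * (Q : ℝ) ^ (-(c * c6 / 2)) ∧
        ∀ ω ∈ S, ω ∉ Bad → NoFix (φ ω) → ∀ th' : Fin m → ℝ, (∀ i, 0 ≤ th' i) →
          (∀ i, th' i ≤ 1 - η) → (Q : ℝ) ^ (-ε) ≤ PMf Q ⟨r, ψ⟩ th' (φ ω))) := by
  classical
  obtain ⟨C', c', hC', hc', hlow⟩ := C1_low m C hC
  obtain ⟨c0, hc0, hzero⟩ := zero_lower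
  have hKpos : 0 < (c0 / 2) ^ m * c' := by positivity
  obtain ⟨Q1, hQ12, hs1⟩ := c1_small ((c0 / 2) ^ m * c') (2 * m + C') ε hε hKpos
  obtain ⟨Q2, hQ22, hs2⟩ := c1_small (1 / 2 * c') C' ε hε (by positivity)
  obtain ⟨Q3, hQ31, hs3⟩ := G1_rlog (2 ^ m * (C * 2 ^ c) * (2 ^ (m + 1) / c') ^ 2) (C + 2 * C') (c * c6 / 2)
    (by positivity)
  refine ⟨max Q1 (max Q2 Q3), ?_⟩
  intro Q hQ H0 Ω S φ hF r _ ψ β η hr100 hprim hψ1 hψ2 hβ hL hη hη1
  have hQQ1 : Q1 ≤ Q := (le_max_left _ _).trans hQ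
  have hQQ2 : Q2 ≤ Q := (le_max_left _ _).trans ((le_max_right _ _).trans hQ)
  have hQQ3 : Q3 ≤ Q := (le_max_right _ _).trans ((le_max_right _ _).trans hQ)
  have hQ2 : 2 ≤ Q := hQ12.trans hQQ1
  have hQR : (2 : ℝ) ≤ Q := by exact_mod_cast hQ2
  have hQ0 : (0 : ℝ) < Q := by linarith
  have hlog : 0 ≤ Real.log Q := Real.log_natCast_nonneg Q
  have hr0 : 0 < r := Nat.pos_of_ne_zero (NeZero.ne r)
  have hrQ : r ≤ Q := (Nat.le_self_pow (by norm_num) r).trans hr100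
  have hr2 : 2 ≤ r := by
    by_contra h
    have : r = 1 := by omega
    subst this
    exact hψ1 (DirichletCharacter.level_one ψ)
  have hrR : (2 : ℝ) ≤ r := by exact_mod_cast hr2
  have hrR0 : (0 : ℝ) < r := by linarith
  have hη0 : 0 < η := by linarith
  have hpx : (⟨r, ψ⟩ : Ch) ∈ PC Q := mem_PC.2 ⟨hr0, hrQ, hprim⟩
  have hLpos : 0 < 1 + Real.log Q := by linarith
  constructor
  · intro hrc ω hω hN th' h0 h1
    have hcp := hF.fb.cp ω hω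
    have h2 := P5_eta (φ ω) hcp Q ⟨r, ψ⟩ hψ2 η hη0.le th' h0 h1
    refine le_trans ?_ h2
    have h3 := hlow (φ ω) hcp (hF.fb.tp ω hω) hN Q hQ2 (pr Q) (Finset.Subset.refl _)
    have h4 : c0 / (r * (1 + Real.log r) ^ 2) ≤ 1 - β := hzero r ψ hψ1 hψ2 β hβ hL
    have hlogr : Real.log r ≤ Real.log Q := Real.log_le_log hrR0 (by exact_mod_cast hrQ)
    have hlogr0 : 0 ≤ Real.log r := Real.log_natCast_nonneg r
    have h5 : (c0 / 2) * ((Q : ℝ) ^ (-c6) * (1 + Real.log Q) ^ (-(2 : ℝ))) ≤ η := by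
      have h6 : (r : ℝ) * (1 + Real.log r) ^ 2 ≤ (Q : ℝ) ^ c6 * (1 + Real.log Q) ^ 2 := by
        refine mul_le_mul hrc ?_ (by positivity) (by positivity)
        exact pow_le_pow_left₀ (by linarith) (by linarith) 2
      have h7 : c0 / ((Q : ℝ) ^ c6 * (1 + Real.log Q) ^ 2) ≤ c0 / (r * (1 + Real.log r) ^ 2) :=
        div_le_div_of_nonneg_left hc0.le (by positivity) h6
      have h8 : (c0 / 2) * ((Q : ℝ) ^ (-c6) * (1 + Real.log Q) ^ (-(2 : ℝ))) =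
          c0 / ((Q : ℝ) ^ c6 * (1 + Real.log Q) ^ 2) / 2 := by
        rw [Real.rpow_neg hQ0.le, Real.rpow_neg hLpos.le, Real.rpow_two]
        have : (Q : ℝ) ^ c6 ≠ 0 := (Real.rpow_pos_of_pos hQ0 _).ne'
        field_simp
      rw [h8]
      linarith
    have h9 : ((c0 / 2) * ((Q : ℝ) ^ (-c6) * (1 + Real.log Q) ^ (-(2 : ℝ)))) ^ m *
        (c' * (1 + Real.log Q) ^ (-C')) ≤ η ^ m * SSf (pr Q) (φ ω) := by
      refine mul_le_mul (pow_le_pow_left₀ (by positivity) h5 m) h3 (by positivity) (by positivity)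
    refine le_trans ?_ h9
    have h10 := hs1 Q hQQ1
    have h11 : (Q : ℝ) ^ (-(m * c6 + ε)) = (Q : ℝ) ^ (-(m * c6 : ℝ)) * (Q : ℝ) ^ (-ε) := by
      rw [← Real.rpow_add hQ0]
      congr 1
      ring
    rw [h11]
    have h12 : ((c0 / 2) * ((Q : ℝ) ^ (-c6) * (1 + Real.log Q) ^ (-(2 : ℝ)))) ^ m *
        (c' * (1 + Real.log Q) ^ (-C')) = (Q : ℝ) ^ (-(m * c6 : ℝ)) *
          ((c0 / 2) ^ m * c' * (1 + Real.log Q) ^ (-(2 * m + C' : ℝ))) := by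
      have e1 : ((Q : ℝ) ^ (-c6)) ^ m = (Q : ℝ) ^ (-(m * c6 : ℝ)) := by
        rw [← Real.rpow_natCast, ← Real.rpow_mul hQ0.le]
        congr 1
        ring
      have e2 : ((1 + Real.log Q) ^ (-(2 : ℝ))) ^ m = (1 + Real.log Q) ^ (-(2 * m : ℝ)) := by
        rw [← Real.rpow_natCast, ← Real.rpow_mul hLpos.le]
        congr 1
        ring
      have e3 : (1 + Real.log Q) ^ (-(2 * m + C' : ℝ)) =
          (1 + Real.log Q) ^ (-(2 * m : ℝ)) * (1 + Real.log Q) ^ (-C') := by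
        rw [← Real.rpow_add hLpos]
        congr 1
        ring
      rw [mul_pow, mul_pow, e1, e2, e3]
      ring
    rw [h12]
    exact mul_le_mul_of_nonneg_left h10 (by positivity)
  · intro hrc
    set t : ℝ := c' * (1 + Real.log Q) ^ (-C') with ht
    have ht0 : 0 < t := by positivity
    set Bad : Finset Ω := S.filter (fun ω => ∃ Bs : Finset (Fin m), Bs.Nonempty ∧
      t < 2 ^ (m + 1) * ‖MRf (pB ⟨r, ψ⟩ Bs) r (φ ω)‖) with hBad
    refine ⟨Bad, Finset.filter_subset _ _, ?_, ?_⟩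
    · -- the number of the exceptions
      have hms : ∀ Bs : Finset (Fin m), Bs.Nonempty → ∑ ω ∈ S, ‖MRf (pB ⟨r, ψ⟩ Bs) r (φ ω)‖ ^ 2 ≤
          C * 2 ^ c * (1 + Real.log Q) ^ C * S.card * (r : ℝ) ^ (-c) := fun Bs hBs =>
        C1_MR hC hc hF.fg1 hF.fb.cp ⟨r, ψ⟩ hpx hr2 Bs hBs
      set X : ℝ := C * 2 ^ c * (1 + Real.log Q) ^ C * S.card * (r : ℝ) ^ (-c) with hX
      have hX0 : 0 ≤ X := by positivity
      have hpt : ∀ ω ∈ Bad, (t / 2 ^ (m + 1)) ^ 2 ≤ ∑ Bs ∈ (univ : Finset (Finset (Fin m))).filter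
          (fun Bs => Bs.Nonempty), ‖MRf (pB ⟨r, ψ⟩ Bs) r (φ ω)‖ ^ 2 := by
        intro ω hω
        rw [hBad, Finset.mem_filter] at hω
        obtain ⟨-, Bs, hBs, hlt⟩ := hω
        have h1 : t / 2 ^ (m + 1) ≤ ‖MRf (pB ⟨r, ψ⟩ Bs) r (φ ω)‖ := by
          rw [div_le_iff₀ (by positivity)]
          linarith
        refine (pow_le_pow_left₀ (by positivity) h1 2).trans ?_
        exact Finset.single_le_sum (f := fun Bs => ‖MRf (pB ⟨r, ψ⟩ Bs) r (φ ω)‖ ^ 2)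
          (fun _ _ => sq_nonneg _) (Finset.mem_filter.2 ⟨Finset.mem_univ Bs, hBs⟩)
      have h1 : (Bad.card : ℝ) * (t / 2 ^ (m + 1)) ^ 2 ≤ 2 ^ m * X := by
        calc (Bad.card : ℝ) * (t / 2 ^ (m + 1)) ^ 2 = ∑ _ω ∈ Bad, (t / 2 ^ (m + 1)) ^ 2 := by
              rw [Finset.sum_const, nsmul_eq_mul]
          _ ≤ ∑ ω ∈ Bad, ∑ Bs ∈ (univ : Finset (Finset (Fin m))).filter
              (fun Bs => Bs.Nonempty), ‖MRf (pB ⟨r, ψ⟩ Bs) r (φ ω)‖ ^ 2 := Finset.sum_le_sum hpt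
          _ ≤ ∑ ω ∈ S, ∑ Bs ∈ (univ : Finset (Finset (Fin m))).filter
              (fun Bs => Bs.Nonempty), ‖MRf (pB ⟨r, ψ⟩ Bs) r (φ ω)‖ ^ 2 :=
              Finset.sum_le_sum_of_subset_of_nonneg (Finset.filter_subset _ _)
                fun _ _ _ => Finset.sum_nonneg fun _ _ => sq_nonneg _
          _ = ∑ Bs ∈ (univ : Finset (Finset (Fin m))).filter
              (fun Bs => Bs.Nonempty), ∑ ω ∈ S, ‖MRf (pB ⟨r, ψ⟩ Bs) r (φ ω)‖ ^ 2 := Finset.sum_comm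
          _ ≤ ∑ Bs ∈ (univ : Finset (Finset (Fin m))).filter (fun Bs => Bs.Nonempty), X :=
              Finset.sum_le_sum fun Bs hBs => hms Bs (Finset.mem_filter.1 hBs).2
          _ ≤ 2 ^ m * X := by
              rw [Finset.sum_const, nsmul_eq_mul]
              refine mul_le_mul_of_nonneg_right ?_ hX0
              have h2 := Finset.card_filter_le (univ : Finset (Finset (Fin m))) (fun Bs => Bs.Nonempty)
              rw [Finset.card_univ, Fintype.card_finset, Fintype.card_fin] at h2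
              exact_mod_cast h2
      have h2 : (Bad.card : ℝ) ≤ 2 ^ m * X * (2 ^ (m + 1) / t) ^ 2 := by
        have e : (t / 2 ^ (m + 1)) ^ 2 * (2 ^ (m + 1) / t) ^ 2 = 1 := by
          rw [← mul_pow]
          have : t / 2 ^ (m + 1) * (2 ^ (m + 1) / t) = 1 := by
            field_simp
          rw [this, one_pow]
        calc (Bad.card : ℝ) = (Bad.card : ℝ) * (t / 2 ^ (m + 1)) ^ 2 * (2 ^ (m + 1) / t) ^ 2 := by
              rw [mul_assoc, e, mul_one]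
          _ ≤ _ := mul_le_mul_of_nonneg_right h1 (sq_nonneg _)
      refine h2.trans ?_
      have h3 : (r : ℝ) ^ (-c) ≤ (Q : ℝ) ^ (-(c * c6)) := by
        have e : (Q : ℝ) ^ (-(c * c6)) = ((Q : ℝ) ^ c6) ^ (-c) := by
          rw [← Real.rpow_mul hQ0.le]
          congr 1
          ring
        rw [e]
        exact Real.rpow_le_rpow_of_nonpos (Real.rpow_pos_of_pos hQ0 _) hrc.le (by linarith)
      have h4 : 2 ^ m * X * (2 ^ (m + 1) / t) ^ 2 = (2 ^ m * (C * 2 ^ c) * (2 ^ (m + 1) / c') ^ 2 *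
          (1 + Real.log Q) ^ (C + 2 * C')) * (S.card * (r : ℝ) ^ (-c)) := by
        have e1 : (1 + Real.log Q) ^ (C + 2 * C') = (1 + Real.log Q) ^ C * ((1 + Real.log Q) ^ C') ^ 2 := by
          rw [Real.rpow_add hLpos, ← Real.rpow_natCast ((1 + Real.log Q) ^ C') 2, ← Real.rpow_mul hLpos.le]
          congr 2
          push_cast
          ring
        have hne : (1 + Real.log Q) ^ C' ≠ 0 := (Real.rpow_pos_of_pos hLpos _).ne'
        rw [e1, hX, ht, Real.rpow_neg hLpos.le]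
        field_simp
      rw [h4]
      have h5 := hs3 Q hQQ3
      calc (2 ^ m * (C * 2 ^ c) * (2 ^ (m + 1) / c') ^ 2 * (1 + Real.log Q) ^ (C + 2 * C')) *
            (S.card * (r : ℝ) ^ (-c))
          ≤ (Q : ℝ) ^ (c * c6 / 2) * (S.card * (Q : ℝ) ^ (-(c * c6))) := by
            refine mul_le_mul h5 (mul_le_mul_of_nonneg_left h3 (Nat.cast_nonneg _)) (by positivity)
              (by positivity)
        _ = S.card * ((Q : ℝ) ^ (c * c6 / 2) * (Q : ℝ) ^ (-(c * c6))) := by ring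
        _ = S.card * (Q : ℝ) ^ (-(c * c6 / 2)) := by
            rw [← Real.rpow_add hQ0]
            congr 2
            ring
    · intro ω hω hωB hN th' h0 h1
      have hcp := hF.fb.cp ω hω
      have hsub : r.primeFactors ⊆ pr Q := by
        intro l hl
        rw [p5_mem_pr]
        exact ⟨Nat.prime_of_mem_primeFactors hl, (Nat.le_of_mem_primeFactors hl).trans hrQ⟩
      have h2 := hlow (φ ω) hcp (hF.fb.tp ω hω) hN Q hQ2 r.primeFactors hsub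
      have h3 := P5_X2 (φ ω) hcp Q ⟨r, ψ⟩ hpx hψ2 th' h0 (fun i => (h1 i).trans (by linarith)) (by
        intro Bs hBs
        by_contra hcon
        apply hωB
        rw [hBad, Finset.mem_filter]
        refine ⟨hω, Bs, hBs, ?_⟩
        push Not at hcon
        exact lt_of_le_of_lt h2 hcon)
      refine le_trans ?_ h3
      have h4 := hlow (φ ω) hcp (hF.fb.tp ω hω) hN Q hQ2 (pr Q) (Finset.Subset.refl _)
      have h5 := hs2 Q hQQ2
      linarith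

end Pool.Agent.Lib.H24Q
end

-- from Lib.H59P.V1A
section

/-!
# Project H59P, chunk V1a
-/

open Finset

namespace Pool.Agent.Lib.H59P

open Pool.Agent.Lib.H68T Pool.Agent.Lib.H18Q

/-- Slow variation over a distance less than `2 H`. Proof. Induction on the distance (`Cf.slow`),
both points in `[X, 4X]`. -/
theorem V1a (Q X : ℕ) (B : ℤ → Ch → ℂ) (mb : Ch → ℝ) (hB : Cf Q X B mb) (m m' : ℤ)
    (hm : (X : ℤ) ≤ m) (hmm : m ≤ m') (hm' : m' ≤ 4 * X) (p : Ch) (hp : p ∈ PC Q) :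
    ‖B m' p - B m p‖ ≤ (m' - m) * (2 * (Q : ℝ) ^ 3 / X) := by
  have hQ0 : (0 : ℝ) ≤ 2 * (Q : ℝ) ^ 3 / X := by positivity
  obtain ⟨d, rfl⟩ : ∃ d : ℕ, m' = m + d := ⟨(m' - m).toNat, by
    rw [Int.toNat_of_nonneg (by omega)]
    ring⟩
  clear hmm
  induction d with
  | zero => simp
  | succ d ih =>
    have h1 := ih (by push_cast at hm'; omega)
    have h2 := hB.slow (m + d) (by omega) (by push_cast at hm'; omega) p hp
    have h3 : m + ((d + 1 : ℕ) : ℤ) = m + d + 1 := by push_cast; ring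
    rw [h3]
    have h4 : B (m + d + 1) p - B m p = (B (m + d + 1) p - B (m + d) p) + (B (m + d) p - B m p) := by
      ring
    rw [h4]
    refine (norm_add_le _ _).trans ?_
    push_cast at h1 ⊢
    have h5 : ((m : ℝ) + d - m) = d := by ring
    have h6 : ((m : ℝ) + d + 1 - m) = d + 1 := by ring
    rw [h5] at h1
    rw [h6]
    linarith

end Pool.Agent.Lib.H59P
end

-- from Lib.H59P.V1B
section

/-!
# Project H59P, chunk V1b
-/

open Finset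

namespace Pool.Agent.Lib.H59P

open Pool.Agent.Lib.H68T Pool.Agent.Lib.H18Q

/-- difference of two products -/
theorem v1b_prod {ι : Type*} (s : Finset ι) (x y : ι → ℂ) (M : ι → ℝ) (δ : ℝ) (hδ : 0 ≤ δ)
    (hM : ∀ i, 0 ≤ M i) (hx : ∀ i ∈ s, ‖x i‖ ≤ M i) (hy : ∀ i ∈ s, ‖y i‖ ≤ M i)
    (hd : ∀ i ∈ s, ‖x i - y i‖ ≤ δ * M i) :
    ‖∏ i ∈ s, x i - ∏ i ∈ s, y i‖ ≤ s.card * δ * ∏ i ∈ s, M i := by
  classical
  induction s using Finset.induction_on with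
  | empty => simp
  | insert a s ha ih =>
    have ih' := ih (fun i hi => hx i (Finset.mem_insert_of_mem hi))
      (fun i hi => hy i (Finset.mem_insert_of_mem hi)) (fun i hi => hd i (Finset.mem_insert_of_mem hi))
    rw [Finset.prod_insert ha, Finset.prod_insert ha, Finset.prod_insert ha,
      Finset.card_insert_of_notMem ha]
    have e1 : x a * ∏ i ∈ s, x i - y a * ∏ i ∈ s, y i =
        (x a - y a) * ∏ i ∈ s, x i + y a * (∏ i ∈ s, x i - ∏ i ∈ s, y i) := by ring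
    rw [e1]
    have hP : ‖∏ i ∈ s, x i‖ ≤ ∏ i ∈ s, M i := by
      rw [norm_prod]
      exact Finset.prod_le_prod (fun i _ => norm_nonneg _)
        (fun i hi => hx i (Finset.mem_insert_of_mem hi))
    have hP0 : 0 ≤ ∏ i ∈ s, M i := Finset.prod_nonneg fun i _ => hM i
    have h1 := hd a (Finset.mem_insert_self a s)
    have h2 := hy a (Finset.mem_insert_self a s)
    calc ‖(x a - y a) * ∏ i ∈ s, x i + y a * (∏ i ∈ s, x i - ∏ i ∈ s, y i)‖
        ≤ ‖x a - y a‖ * ‖∏ i ∈ s, x i‖ + ‖y a‖ * ‖∏ i ∈ s, x i - ∏ i ∈ s, y i‖ := by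
          refine (norm_add_le _ _).trans ?_
          rw [norm_mul, norm_mul]
      _ ≤ (δ * M a) * ∏ i ∈ s, M i + M a * (s.card * δ * ∏ i ∈ s, M i) := by
          have hMa := hM a
          apply add_le_add
          · exact mul_le_mul h1 hP (norm_nonneg _) (by positivity)
          · exact mul_le_mul h2 ih' (norm_nonneg _) hMa
      _ = ((s.card + 1 : ℕ) : ℝ) * δ * (M a * ∏ i ∈ s, M i) := by
          push_cast
          ring

/-- `SG` is additive in the coefficients -/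
theorem v1b_sub (Q : ℕ) (b c : Ch → ℂ) (m : ℤ) :
    SG Q b m - SG Q c m = SG Q (fun p => b p - c p) m := by
  unfold SG
  rw [← Finset.sum_sub_distrib]
  refine Finset.sum_congr rfl fun p _ => ?_
  ring


end Pool.Agent.Lib.H59P
end

-- from Lib.H24P.V1A
section

/-!
# Project H24P, chunk V1A (M): freezing the coefficients of the random coordinates
-/

open Finset Polynomial

namespace Pool.Agent.Lib.H24P

open Pool.Agent.Lib.H68T Pool.Agent.Lib.H18Q Pool.Agent.Lib.H59P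

theorem v1a_bs (H q m A : ℕ) (hH : 0 < H) (hA : A = H * q) (hm : m ∈ Ico A (2 * A)) :
    bs H m ∈ Ico A (2 * A) ∧ bs H m ≤ m ∧ m < bs H m + H := by
  rw [Finset.mem_Ico] at hm ⊢
  have h1 : A ≤ bs H m := by
    unfold bs
    have h1 : q ≤ m / H := by
      rw [Nat.le_div_iff_mul_le hH]
      calc q * H = A := by rw [hA]; ring
        _ ≤ m := hm.1
    calc A = q * H := by rw [hA]; ring
      _ ≤ m / H * H := Nat.mul_le_mul_right _ h1
  have h2 : bs H m ≤ m := Nat.div_mul_le_self m H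
  have h3 : m < bs H m + H := by
    unfold bs
    have h1 := Nat.div_add_mod' m H
    have h2 := Nat.mod_lt m hH
    omega
  exact ⟨⟨h1, by omega⟩, h2, h3⟩

/-- slow variation, in both directions -/
theorem v1a_slow (Q Y : ℕ) (B : ℤ → Ch → ℂ) (mb : Ch → ℝ) (hB : Cf Q Y B mb) (m m' : ℤ)
    (hm : (Y : ℤ) ≤ m) (hm2 : m ≤ 4 * Y) (hm' : (Y : ℤ) ≤ m') (hm2' : m' ≤ 4 * Y) (p : Ch)
    (hp : p ∈ PC Q) : ‖B m' p - B m p‖ ≤ |(m' : ℝ) - m| * (2 * (Q : ℝ) ^ 3 / Y) := by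
  rcases le_total m m' with h | h
  · have h1 := V1a Q Y B mb hB m m' hm h hm2' p hp
    rw [abs_of_nonneg (sub_nonneg.2 (by exact_mod_cast h))]
    exact h1
  · have h1 := V1a Q Y B mb hB m' m hm' h hm2 p hp
    rw [norm_sub_rev, abs_sub_comm, abs_of_nonneg (sub_nonneg.2 (by exact_mod_cast h))]
    exact h1


end Pool.Agent.Lib.H24P
end

-- from Lib.H24P.V2
section

/-!
# Project H24P, chunk V2 (S/M): freezing the coefficients of the linear coordinate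
-/

open Finset Polynomial

namespace Pool.Agent.Lib.H24P

open Pool.Agent.Lib.H68T Pool.Agent.Lib.H18Q Pool.Agent.Lib.H59P

/-- The frozen linear coordinate: cells of length `X1/Q^800`. -/
noncomputable def gB (Q X1 : ℕ) (B : ℤ[X]) (C0 : ℤ → Ch → ℂ) (n : ℕ) : ℂ :=
  SG (Q ^ 100) (C0 (B.eval ((bs (X1 / Q ^ 800) n : ℕ) : ℤ))) (B.eval (n : ℤ))

theorem v2_slow (Q X : ℕ) (B : ℤ → Ch → ℂ) (mb : Ch → ℝ) (hB : Cf Q X B mb) (m m' : ℤ)
    (hm : (X : ℤ) ≤ m) (hm4 : m ≤ 4 * X) (hm' : (X : ℤ) ≤ m') (hm4' : m' ≤ 4 * X) (p : Ch)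
    (hp : p ∈ PC Q) : ‖B m p - B m' p‖ ≤ |((m - m' : ℤ) : ℝ)| * (2 * (Q : ℝ) ^ 3 / X) := by
  rcases le_total m m' with h | h
  · have h1 := V1a Q X B mb hB m m' hm h hm4' p hp
    have h2 : |((m - m' : ℤ) : ℝ)| = (m' : ℝ) - m := by
      rw [abs_of_nonpos]
      · push_cast
        ring
      · have : m - m' ≤ 0 := by linarith
        exact_mod_cast this
    rw [h2, ← norm_neg, neg_sub]
    exact h1
  · have h1 := V1a Q X B mb hB m' m hm' h hm4 p hp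
    have h2 : |((m - m' : ℤ) : ℝ)| = (m : ℝ) - m' := by
      rw [abs_of_nonneg]
      · push_cast
        ring
      · have : 0 ≤ m - m' := by linarith
        exact_mod_cast this
    rw [h2]
    exact h1

theorem v2_SG (Q : ℕ) (hQ : 1 ≤ Q) (b b' : Ch → ℂ) (D : ℝ) (hD : ∀ p ∈ PC Q, ‖b p - b' p‖ ≤ D)
    (hD0 : 0 ≤ D) (m : ℤ) :
    ‖SG Q b m - SG Q b' m‖ ≤ 100 * (1 + Real.log Q) ^ 3 * Q * ((Q : ℝ) ^ 2 * D) := by
  have h1 : SG Q b m - SG Q b' m = SG Q (fun p => b p - b' p) m := by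
    unfold SG
    rw [← sum_sub_distrib]
    refine sum_congr rfl fun p _ => ?_
    ring
  rw [h1]
  have h2 := S1b Q hQ (fun p => b p - b' p) (fun _ => D) hD m
  refine h2.trans ?_
  have h3 : dQ Q m ≤ Q := by
    unfold dQ
    have h4 : ((Icc 1 Q).filter (fun d : ℕ => (d : ℤ) ∣ m)).card ≤ Q := by
      refine (card_filter_le _ _).trans ?_
      simp
    exact_mod_cast h4
  have h4 : ∑ p ∈ PC Q, D ≤ (Q : ℝ) ^ 2 * D := by
    rw [sum_const, nsmul_eq_mul]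
    refine mul_le_mul_of_nonneg_right ?_ hD0
    exact_mod_cast card_PC_le Q
  have hl : 0 ≤ Real.log Q := Real.log_natCast_nonneg Q
  have h5 : 0 ≤ dQ Q m := by
    unfold dQ
    positivity
  have h6 : 0 ≤ ∑ p ∈ PC Q, D := sum_nonneg fun _ _ => hD0
  gcongr

/-- Proof. `Lk = SG (C0 (B n)) (B n)` (`Cf.eq`); by `S1b` of `H59P` for the difference of the coefficients the left side is
at most `100 (1+log Q^100)³ dQ (Q^100) (B n) ∑_p ‖…‖`; `dQ ≤ Q^100`, at most `Q^200` characters (`card_PC_le`), each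
difference at most `|B(n) - B(bs n)| 2 Q^300/Y` (`V1a` of `H59P` in the right order; both arguments are in `[Y, 3Y)` as
`bs n ∈ [X1, 2 X1)`: `Q^800 ∣ X1`), `|B(n) - B(bs n)| ≤ A X1/Q^800` and `X1 ≤ 2 Y`. Total
`400 A (1+log Q^100)³ Q^600/Q^800 ≤ Q^(-10)`. -/
theorem V2_pt (A : ℕ) : ∃ Q0 : ℕ, ∀ (Q X X1 Y : ℕ) (B : ℤ[X]) (C0 : ℤ → Ch → ℂ) (mb : Ch → ℝ),
    Q0 ≤ Q → Q ^ 800 ∣ X1 → GeoB A X X1 Y B → Cf (Q ^ 100) Y C0 mb → ∀ n ∈ Ico X1 (2 * X1),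
    ‖((Lk (Q ^ 100) (Y / (Q ^ 100) ^ 2) (B.eval (n : ℤ)) : ℝ) : ℂ) - gB Q X1 B C0 n‖ ≤
      (Q : ℝ) ^ (-(10) : ℝ) := by
  refine ⟨400000000 * A + 1, ?_⟩
  intro Q X X1 Y B C0 mb hQ hdvd hG hC n hn
  obtain ⟨hn1, hn2⟩ := mem_Ico.mp hn
  have hX1 : 0 < X1 := by omega
  have hQ1 : 1 ≤ Q := by omega
  obtain ⟨s0, hs0⟩ := hdvd
  have hQp : 0 < Q ^ 800 := pow_pos hQ1 _
  have hs : X1 / Q ^ 800 = s0 := by rw [hs0, Nat.mul_div_cancel_left _ hQp]
  have hs0p : 0 < s0 := by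
    rcases Nat.eq_zero_or_pos s0 with h | h
    · rw [h, mul_zero] at hs0
      omega
    · exact h
  set b : ℕ := bs (X1 / Q ^ 800) n with hb
  have hbn : b ≤ n := by
    rw [hb, hs]
    exact Nat.div_mul_le_self n s0
  have hnb : n - b < s0 := by
    rw [hb, hs]
    unfold bs
    have := Nat.mod_lt n hs0p
    have h2 := Nat.div_add_mod' n s0
    omega
  have hX1b : X1 ≤ b := by
    rw [hb, hs]
    unfold bs
    have h1 : Q ^ 800 ≤ n / s0 := by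
      rw [Nat.le_div_iff_mul_le hs0p, ← hs0]
      exact hn1
    calc X1 = Q ^ 800 * s0 := hs0
      _ ≤ n / s0 * s0 := Nat.mul_le_mul_right _ h1
  have hbI : b ∈ Ico X1 (2 * X1) := mem_Ico.mpr ⟨hX1b, by omega⟩
  have hYn := hG.lo n hn
  have hYn' := hG.hi n hn
  have hYb := hG.lo b hbI
  have hYb' := hG.hi b hbI
  have hY0 : 0 < Y := by
    have := hG.Ylo
    omega
  have hlin : B.eval (n : ℤ) - B.eval (b : ℤ) = B.coeff 1 * ((n : ℤ) - b) := by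
    rw [eval_eq_sum_range, eval_eq_sum_range, hG.lin.deg, sum_range_succ, sum_range_one,
      sum_range_succ, sum_range_one]
    ring
  have hA : |B.coeff 1| ≤ A := by
    have h1 := hG.lin.lc
    unfold leadingCoeff at h1
    rw [hG.lin.deg] at h1
    have h2 : ((B.coeff 1).natAbs : ℤ) ≤ A := by exact_mod_cast h1
    rwa [Int.natCast_natAbs] at h2
  have hdiff : |((B.eval (n : ℤ) - B.eval (b : ℤ) : ℤ) : ℝ)| ≤ A * s0 := by
    have h1 : |B.eval (n : ℤ) - B.eval (b : ℤ)| ≤ (A : ℤ) * s0 := by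
      rw [hlin, abs_mul]
      refine mul_le_mul hA ?_ (abs_nonneg _) (by positivity)
      rw [abs_of_nonneg (by omega)]
      omega
    have h2 : ((|B.eval (n : ℤ) - B.eval (b : ℤ)| : ℤ) : ℝ) ≤ ((A : ℤ) * s0 : ℤ) := by
      exact_mod_cast h1
    push_cast at h2 ⊢
    exact h2
  have hQ100 : 1 ≤ Q ^ 100 := Nat.one_le_pow _ _ hQ1
  have hYr : (0 : ℝ) < Y := by exact_mod_cast hY0
  have hQr : (1 : ℝ) ≤ Q := by exact_mod_cast hQ1
  have e1 : ((Lk (Q ^ 100) (Y / (Q ^ 100) ^ 2) (B.eval (n : ℤ)) : ℝ) : ℂ)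
      = SG (Q ^ 100) (C0 (B.eval (n : ℤ))) (B.eval (n : ℤ)) := hC.eq _ hYn (by linarith)
  rw [e1]
  unfold gB
  have hD0 : (0 : ℝ) ≤ A * s0 * (2 * ((Q ^ 100 : ℕ) : ℝ) ^ 3 / Y) := by positivity
  have h3 := v2_SG (Q ^ 100) hQ100 (C0 (B.eval (n : ℤ))) (C0 (B.eval (b : ℤ)))
    (A * s0 * (2 * ((Q ^ 100 : ℕ) : ℝ) ^ 3 / Y)) (fun p hp => by
      refine (v2_slow (Q ^ 100) Y C0 mb hC (B.eval (n : ℤ)) (B.eval (b : ℤ)) hYn (by linarith)
        hYb (by linarith) p hp).trans ?_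
      exact mul_le_mul_of_nonneg_right hdiff (by positivity)) hD0 (B.eval (n : ℤ))
  refine h3.trans ?_
  have hlog : Real.log ((Q ^ 100 : ℕ) : ℝ) = 100 * Real.log Q := by
    rw [Nat.cast_pow, Real.log_pow]
    norm_num
  rw [hlog]
  have hl0 : 0 ≤ Real.log Q := Real.log_natCast_nonneg Q
  have hl1 : 1 + 100 * Real.log Q ≤ 100 * Q := by
    have := Real.log_le_sub_one_of_pos (by linarith : (0 : ℝ) < Q)
    linarith
  have hl3 : (1 + 100 * Real.log Q) ^ 3 ≤ (100 * Q) ^ 3 :=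
    pow_le_pow_left₀ (by linarith) hl1 3
  have hsY : (s0 : ℝ) * (Q : ℝ) ^ 800 ≤ 2 * Y := by
    have h1 : X1 ≤ 2 * Y := hG.Ylo
    have h2 : ((s0 * Q ^ 800 : ℕ) : ℝ) ≤ ((2 * Y : ℕ) : ℝ) := by
      have : s0 * Q ^ 800 ≤ 2 * Y := by
        rw [mul_comm, ← hs0]
        exact h1
      exact_mod_cast this
    push_cast at h2
    exact h2
  have hAQ : 400000000 * (A : ℝ) ≤ Q := by
    have : 400000000 * A ≤ Q := by omega
    exact_mod_cast this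
  have hrp : (Q : ℝ) ^ (-(10) : ℝ) = ((Q : ℝ) ^ 10)⁻¹ := by
    rw [Real.rpow_neg (by linarith), Real.rpow_ofNat]
  rw [hrp, ← one_div, le_div_iff₀ (by positivity)]
  have h7 : 100 * (1 + 100 * Real.log Q) ^ 3 * ((Q ^ 100 : ℕ) : ℝ) *
      (((Q ^ 100 : ℕ) : ℝ) ^ 2 * (A * s0 * (2 * ((Q ^ 100 : ℕ) : ℝ) ^ 3 / Y))) * (Q : ℝ) ^ 10
      = 200 * (1 + 100 * Real.log Q) ^ 3 * A * ((Q : ℝ) ^ 610 * s0 / Y) := by
    push_cast
    ring
  rw [h7]
  have h8 : (Q : ℝ) ^ 610 * s0 / Y ≤ 2 / (Q : ℝ) ^ 190 := by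
    rw [div_le_div_iff₀ hYr (by positivity)]
    have h11 : (Q : ℝ) ^ 610 * s0 * (Q : ℝ) ^ 190 = s0 * (Q : ℝ) ^ 800 := by ring
    rw [h11]
    exact hsY
  have h9 : 200 * (1 + 100 * Real.log Q) ^ 3 * A * ((Q : ℝ) ^ 610 * s0 / Y)
      ≤ 200 * (100 * Q) ^ 3 * A * (2 / (Q : ℝ) ^ 190) := by
    gcongr
  refine h9.trans ?_
  have h10 : 200 * (100 * (Q : ℝ)) ^ 3 * A * (2 / (Q : ℝ) ^ 190)
      = 400000000 * (A : ℝ) * (Q : ℝ) ^ 3 / (Q : ℝ) ^ 190 := by ring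
  rw [h10, div_le_one (by positivity)]
  calc 400000000 * (A : ℝ) * (Q : ℝ) ^ 3 ≤ Q * (Q : ℝ) ^ 3 :=
        mul_le_mul_of_nonneg_right hAQ (by positivity)
    _ = (Q : ℝ) ^ 4 := by ring
    _ ≤ (Q : ℝ) ^ 190 := pow_le_pow_right₀ hQr (by norm_num)


end Pool.Agent.Lib.H24P
end

-- from Lib.H24Q.D1
section

/-!
# Project H24Q, chunk D1 (M): freezing the coefficients (compare H24P/V1A, V2)
-/

open Finset

namespace Pool.Agent.Lib.H24Q

open Pool.Agent.Lib.H68T Pool.Agent.Lib.H18Q Pool.Agent.Lib.H59P Pool.Agent.Lib.H24P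

theorem d1_bs (s a m : ℕ) (hs : 0 < s) (h : s * a ≤ m) :
    s * a ≤ bs s m ∧ bs s m ≤ m ∧ m < bs s m + s := by
  have h1 : a ≤ m / s := by
    rw [Nat.le_div_iff_mul_le hs, mul_comm]
    exact h
  unfold bs
  refine ⟨?_, Nat.div_mul_le_self m s, ?_⟩
  · rw [mul_comm]
    exact Nat.mul_le_mul_right _ h1
  · have h2 := Nat.div_add_mod' m s
    have h3 := Nat.mod_lt m hs
    omega

/-- Proof. `Q^40` divides `X j > 0` (`N ≤ X j ^ 2`, `1 ≤ N`), so `bw Q X ω ∈ cub (2X) X` and `bs (Z/Q^40) n ∈ Ico Z (2Z)`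
(`bs s x ≤ x < bs s x + s`, and `s` divides the left end of the interval). -/
theorem D1_base {m g : ℕ} {F : LF m g} {Q N Z : ℕ} {X : Fin g → ℕ} {Y : Fin m → ℕ}
    (hG : Gm F Q N Z X Y) (hQ : 1 ≤ Q) (hN : 1 ≤ N) (ω : Fin g → ℕ)
    (hω : ω ∈ cub (fun j => 2 * X j) X) (n : ℕ) (hn : n ∈ Ico Z (2 * Z)) :
    bw Q X ω ∈ cub (fun j => 2 * X j) X ∧ bs (Z / Q ^ 40) n ∈ Ico Z (2 * Z) ∧
      ∀ i, (Q : ℤ) ^ 40 * |F.map ω i (n : ℤ) - fp F Q Z X ω n i| ≤ 8 * Y i := by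
  have hq : 0 < Q ^ 40 := pow_pos (by omega) _
  have hZ0 : 0 < Z := by
    rcases Nat.eq_zero_or_pos Z with h | h
    · have := hG.Zlo
      rw [h] at this
      omega
    · exact h
  have hX0 : ∀ j, 0 < X j := by
    intro j
    rcases Nat.eq_zero_or_pos (X j) with h | h
    · have := hG.Xlo j
      rw [h] at this
      omega
    · exact h
  have hZe : Z = Q ^ 40 * (Z / Q ^ 40) := (Nat.mul_div_cancel' hG.dvdZ).symm
  have hXe : ∀ j, X j = Q ^ 40 * (X j / Q ^ 40) := fun j => (Nat.mul_div_cancel' (hG.dvdX j)).symm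
  have hZs : 0 < Z / Q ^ 40 := Nat.div_pos (Nat.le_of_dvd hZ0 hG.dvdZ) hq
  have hXs : ∀ j, 0 < X j / Q ^ 40 := fun j => Nat.div_pos (Nat.le_of_dvd (hX0 j) (hG.dvdX j)) hq
  have hω' : ∀ j, ω j ∈ Ico (2 * X j) (2 * X j + X j) := fun j => Fintype.mem_piFinset.1 hω j
  have hb : ∀ j, 2 * X j ≤ bw Q X ω j ∧ bw Q X ω j ≤ ω j ∧ ω j < bw Q X ω j + X j / Q ^ 40 := by
    intro j
    have h1 := mem_Ico.1 (hω' j)
    have h2 : (X j / Q ^ 40) * (2 * Q ^ 40) = 2 * X j := by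
      calc (X j / Q ^ 40) * (2 * Q ^ 40) = 2 * (Q ^ 40 * (X j / Q ^ 40)) := by ring
        _ = 2 * X j := by rw [← hXe j]
    have h3 := d1_bs (X j / Q ^ 40) (2 * Q ^ 40) (ω j) (hXs j) (by rw [h2]; exact h1.1)
    rw [h2] at h3
    exact h3
  have hn' := mem_Ico.1 hn
  have hc : Z ≤ bs (Z / Q ^ 40) n ∧ bs (Z / Q ^ 40) n ≤ n ∧ n < bs (Z / Q ^ 40) n + Z / Q ^ 40 := by
    have h2 : (Z / Q ^ 40) * Q ^ 40 = Z := by
      rw [mul_comm]
      exact hZe.symm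
    have h3 := d1_bs (Z / Q ^ 40) (Q ^ 40) n hZs (by rw [h2]; exact hn'.1)
    rw [h2] at h3
    exact h3
  refine ⟨?_, ?_, ?_⟩
  · refine Fintype.mem_piFinset.2 fun j => mem_Ico.2 ⟨(hb j).1, ?_⟩
    exact lt_of_le_of_lt (hb j).2.1 (mem_Ico.1 (hω' j)).2
  · exact mem_Ico.2 ⟨hc.1, lt_of_le_of_lt hc.2.1 hn'.2⟩
  · intro i
    have e1 : F.map ω i (n : ℤ) - fp F Q Z X ω n i =
        F.u i * ((ω (F.gi i) : ℤ) - (bw Q X ω (F.gi i) : ℤ)) +
          F.v i * ((n : ℤ) - ((bs (Z / Q ^ 40) n : ℕ) : ℤ)) := by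
      unfold fp LF.map
      ring
    rw [e1]
    have e2 : |(ω (F.gi i) : ℤ) - (bw Q X ω (F.gi i) : ℤ)| ≤ ((X (F.gi i) / Q ^ 40 : ℕ) : ℤ) := by
      have h1 := hb (F.gi i)
      rw [abs_of_nonneg (by omega)]
      omega
    have e3 : |(n : ℤ) - ((bs (Z / Q ^ 40) n : ℕ) : ℤ)| ≤ ((Z / Q ^ 40 : ℕ) : ℤ) := by
      rw [abs_of_nonneg (by omega)]
      omega
    have e4 : (Q : ℤ) ^ 40 * ((X (F.gi i) / Q ^ 40 : ℕ) : ℤ) = X (F.gi i) := by
      have := hXe (F.gi i)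
      exact_mod_cast this.symm
    have e5 : (Q : ℤ) ^ 40 * ((Z / Q ^ 40 : ℕ) : ℤ) = Z := by
      exact_mod_cast hZe.symm
    have hQp : (0 : ℤ) ≤ (Q : ℤ) ^ 40 := by positivity
    calc (Q : ℤ) ^ 40 * |F.u i * ((ω (F.gi i) : ℤ) - (bw Q X ω (F.gi i) : ℤ)) +
          F.v i * ((n : ℤ) - ((bs (Z / Q ^ 40) n : ℕ) : ℤ))|
        ≤ (Q : ℤ) ^ 40 * (|F.u i| * ((X (F.gi i) / Q ^ 40 : ℕ) : ℤ) +
          |F.v i| * ((Z / Q ^ 40 : ℕ) : ℤ)) := by
          refine mul_le_mul_of_nonneg_left ((abs_add_le _ _).trans ?_) hQp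
          rw [abs_mul, abs_mul]
          exact add_le_add (mul_le_mul_of_nonneg_left e2 (abs_nonneg _))
            (mul_le_mul_of_nonneg_left e3 (abs_nonneg _))
      _ = |F.u i| * ((Q : ℤ) ^ 40 * ((X (F.gi i) / Q ^ 40 : ℕ) : ℤ)) +
          |F.v i| * ((Q : ℤ) ^ 40 * ((Z / Q ^ 40 : ℕ) : ℤ)) := by ring
      _ = |F.u i| * X (F.gi i) + |F.v i| * Z := by rw [e4, e5]
      _ ≤ 8 * Y i := by
          have h1 := hG.uX i
          have h2 := hG.vZ i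
          linarith

/-- **D1.** Proof. Compare `V1_pt` in `H24P/V1A.lean`. `Lk = SG (Cc i x) x` at `x = F.map ω i n ∈ [Y_i, 4 Y_i)` (`Cf.eq`), the
frozen point `fp` is in `[Y_i, 4 Y_i)` too (`D1_base`, `Gm.lo`, `Gm.hi`), the distance is at most `8 Y_i/Q^40`, so the
coefficients differ by at most `16 Q³/Q^40` (`V1a` in the right order); `S1b`, at most `Q²` characters (`card_PC_le`),
`dQ ≤ Q`: each factor changes by at most `1600 (1+log Q)³ Q^6/Q^40`, and all factors are at most `300 (1+log Q)³ Q`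
(`Cf.le`, `Cf.sum`): `v1b_prod`. For `Q ≥ Q0(m)`... the powers of `Q` depend on `m`: `≤ Q^(-10)` for `m ≤ 4`. -/
theorem D1_pt (m : ℕ) (hm : m ≤ 4) : ∃ Q0 : ℕ, ∀ (g : ℕ) (F : LF m g) (Q N Z : ℕ) (X : Fin g → ℕ)
    (Y : Fin m → ℕ), Q0 ≤ Q → 1 ≤ N → Gm F Q N Z X Y → ∀ (Cc : Fin m → ℤ → Ch → ℂ)
    (mb : Fin m → Ch → ℝ), (∀ i, Cf Q (Y i) (Cc i) (mb i)) →
    ∀ ω ∈ cub (fun j => 2 * X j) X, ∀ n ∈ Ico Z (2 * Z),
    ‖((∏ i, Lk Q (Y i / Q ^ 2) (F.map ω i (n : ℤ)) : ℝ) : ℂ) -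
      ∏ i, SG Q (Cc i (fp F Q Z X ω n i)) (F.map ω i (n : ℤ))‖ ≤ (Q : ℝ) ^ (-(10) : ℝ) := by
  obtain ⟨Q1, hQ1, hlog⟩ := G1_rlog (64 * 300 ^ 4) 12 1 one_pos
  refine ⟨max Q1 1, fun g F Q N Z X Y hQ hN hG Cc mb hC ω hω n hn => ?_⟩
  have hQge : Q1 ≤ Q := (le_max_left _ _).trans hQ
  have hQ' : 1 ≤ Q := (le_max_right _ _).trans hQ
  have hQr : (1 : ℝ) ≤ Q := by exact_mod_cast hQ'
  have hQ0 : (0 : ℝ) < Q := by linarith
  have hlogQ : 0 ≤ Real.log Q := Real.log_nonneg hQr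
  obtain ⟨b1, b2, b3⟩ := D1_base hG hQ' hN ω hω n hn
  have hY0 : ∀ i, (0 : ℝ) < Y i := by
    intro i
    have h1 := hG.Ylo i
    rcases Nat.eq_zero_or_pos (Y i) with h | h
    · rw [h] at h1
      omega
    · exact_mod_cast h
  have hval : ∀ i, (Y i : ℤ) ≤ F.map ω i (n : ℤ) ∧ F.map ω i (n : ℤ) ≤ 4 * Y i :=
    fun i => ⟨hG.lo i ω hω n hn, (hG.hi i ω hω n hn).le⟩
  have hbase : ∀ i, (Y i : ℤ) ≤ fp F Q Z X ω n i ∧ fp F Q Z X ω n i ≤ 4 * Y i :=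
    fun i => ⟨hG.lo i _ b1 _ b2, (hG.hi i _ b1 _ b2).le⟩
  set W : ℝ := 300 * (1 + Real.log Q) ^ 3 * Q with hW
  have hW1 : 1 ≤ W := by
    have h1 : (1 : ℝ) ≤ (1 + Real.log Q) ^ 3 := one_le_pow₀ (by linarith)
    rw [hW]
    nlinarith
  have hdq : ∀ x : ℤ, dQ Q x ≤ Q := by
    intro x
    unfold dQ
    have h4 : ((Icc 1 Q).filter (fun d : ℕ => (d : ℤ) ∣ x)).card ≤ Q := by
      refine (card_filter_le _ _).trans ?_
      simp
    exact_mod_cast h4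
  have hdq0 : ∀ x : ℤ, 0 ≤ dQ Q x := fun x => by
    unfold dQ
    exact Nat.cast_nonneg _
  have hC0 : 0 ≤ 100 * (1 + Real.log Q) ^ 3 := by positivity
  have hsg : ∀ (x : ℤ) (i : Fin m), (Y i : ℤ) ≤ x → x ≤ 4 * Y i →
      ‖SG Q (Cc i x) (F.map ω i (n : ℤ))‖ ≤ W := by
    intro x i h1 h2
    refine (S1b Q hQ' (Cc i x) (mb i) ((hC i).le x h1 h2) _).trans ?_
    have h3 : 0 ≤ 100 * (1 + Real.log Q) ^ 3 * dQ Q (F.map ω i (n : ℤ)) := mul_nonneg hC0 (hdq0 _)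
    calc 100 * (1 + Real.log Q) ^ 3 * dQ Q (F.map ω i (n : ℤ)) * ∑ p ∈ PC Q, mb i p
        ≤ 100 * (1 + Real.log Q) ^ 3 * dQ Q (F.map ω i (n : ℤ)) * 3 :=
          mul_le_mul_of_nonneg_left (hC i).sum h3
      _ ≤ 100 * (1 + Real.log Q) ^ 3 * Q * 3 :=
          mul_le_mul_of_nonneg_right (mul_le_mul_of_nonneg_left (hdq _) hC0) (by norm_num)
      _ = W := by rw [hW]; ring
  have hLk : ((∏ i, Lk Q (Y i / Q ^ 2) (F.map ω i (n : ℤ)) : ℝ) : ℂ) =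
      ∏ i, SG Q (Cc i (F.map ω i (n : ℤ))) (F.map ω i (n : ℤ)) := by
    rw [Complex.ofReal_prod]
    exact Finset.prod_congr rfl fun i _ => (hC i).eq _ (hval i).1 (hval i).2
  rw [hLk]
  have key := v1b_prod (Finset.univ : Finset (Fin m))
    (fun i => SG Q (Cc i (F.map ω i (n : ℤ))) (F.map ω i (n : ℤ)))
    (fun i => SG Q (Cc i (fp F Q Z X ω n i)) (F.map ω i (n : ℤ)))
    (fun _ => W) (16 / (Q : ℝ) ^ 35)
    (by positivity) (fun i => by linarith)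
    (fun i _ => hsg _ i (hval i).1 (hval i).2)
    (fun i _ => hsg _ i (hbase i).1 (hbase i).2)
    (fun i _ => ?_)
  · refine key.trans ?_
    rw [Finset.prod_const, Finset.card_univ, Fintype.card_fin]
    have hm4 : (m : ℝ) ≤ 4 := by exact_mod_cast hm
    have hWm : W ^ m ≤ W ^ 4 := pow_le_pow_right₀ hW1 hm
    have hl := hlog Q hQge
    have e12 : (1 + Real.log Q) ^ (12 : ℝ) = (1 + Real.log Q) ^ 12 := by
      exact_mod_cast Real.rpow_natCast (1 + Real.log Q) 12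
    rw [e12, Real.rpow_one] at hl
    have hneg : (Q : ℝ) ^ (-(10) : ℝ) = 1 / (Q : ℝ) ^ 10 := by
      rw [Real.rpow_neg hQ0.le, one_div]
      congr 1
      exact_mod_cast Real.rpow_natCast (Q : ℝ) 10
    rw [hneg]
    calc (m : ℝ) * (16 / (Q : ℝ) ^ 35) * W ^ m ≤ 4 * (16 / (Q : ℝ) ^ 35) * W ^ 4 := by
          refine mul_le_mul ?_ hWm (by positivity) (by positivity)
          exact mul_le_mul_of_nonneg_right hm4 (by positivity)
      _ = (64 * 300 ^ 4 * (1 + Real.log Q) ^ 12) * (Q : ℝ) ^ 4 / (Q : ℝ) ^ 35 := by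
          rw [hW]
          ring
      _ ≤ (Q : ℝ) * (Q : ℝ) ^ 4 / (Q : ℝ) ^ 35 := by
          refine div_le_div_of_nonneg_right ?_ (by positivity)
          exact mul_le_mul_of_nonneg_right hl (by positivity)
      _ ≤ 1 / (Q : ℝ) ^ 10 := by
          rw [div_le_div_iff₀ (by positivity) (by positivity)]
          have h1 : (Q : ℝ) * (Q : ℝ) ^ 4 * (Q : ℝ) ^ 10 = (Q : ℝ) ^ 15 := by ring
          rw [h1, one_mul]
          exact pow_le_pow_right₀ hQr (by norm_num)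
  · have h1 : ∀ p ∈ PC Q, ‖Cc i (F.map ω i (n : ℤ)) p - Cc i (fp F Q Z X ω n i) p‖ ≤
        16 / (Q : ℝ) ^ 37 := by
      intro p hp
      refine (v1a_slow Q (Y i) (Cc i) (mb i) (hC i) _ _ (hbase i).1 (hbase i).2
        (hval i).1 (hval i).2 p hp).trans ?_
      have h2 : (Q : ℝ) ^ 40 * |((F.map ω i (n : ℤ) : ℤ) : ℝ) - ((fp F Q Z X ω n i : ℤ) : ℝ)| ≤
          8 * Y i := by
        exact_mod_cast b3 i
      have h4 : |((F.map ω i (n : ℤ) : ℤ) : ℝ) - ((fp F Q Z X ω n i : ℤ) : ℝ)| ≤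
          (8 * Y i) / (Q : ℝ) ^ 40 := by
        rw [le_div_iff₀ (by positivity), mul_comm]
        exact h2
      have hYi := hY0 i
      calc |((F.map ω i (n : ℤ) : ℤ) : ℝ) - ((fp F Q Z X ω n i : ℤ) : ℝ)| *
            (2 * (Q : ℝ) ^ 3 / Y i)
          ≤ (8 * Y i) / (Q : ℝ) ^ 40 * (2 * (Q : ℝ) ^ 3 / Y i) :=
            mul_le_mul_of_nonneg_right h4 (by positivity)
        _ = 16 / (Q : ℝ) ^ 37 := by
            field_simp
            ring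
    refine (v2_SG Q hQ' _ _ (16 / (Q : ℝ) ^ 37) h1 (by positivity) _).trans ?_
    have h5 : (0 : ℝ) ≤ (1 + Real.log Q) ^ 3 * Q := by positivity
    calc 100 * (1 + Real.log Q) ^ 3 * Q * ((Q : ℝ) ^ 2 * (16 / (Q : ℝ) ^ 37))
        = 16 / (Q : ℝ) ^ 35 * (100 * (1 + Real.log Q) ^ 3 * Q) := by
          field_simp
      _ ≤ 16 / (Q : ℝ) ^ 35 * W := by
          refine mul_le_mul_of_nonneg_left ?_ (by positivity)
          rw [hW]
          nlinarith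

end Pool.Agent.Lib.H24Q
end
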