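import Pool.Agent.Lib.H1M.RV3.M044
import Pool.Agent.Lib.H1M.RV3.M058
import Pool.Agent.Lib.H1M.RV3.M080
import Pool.Agent.Lib.H1M.RV3.M081
import Pool.Agent.Lib.H1M.RV3.M087
import Pool.Agent.Lib.H1M.RV3.M088

/-! Merged copies (to shorten the build) of Lib.H24P.W2, Lib.H24P.W3, Lib.H24P.Z2A, Lib.H24Q.B1. -/

-- from Lib.H24P.W2
section

/-!
# Project H24P, chunk W2 (M): the linear coordinate minus its projection
-/

open Finset Polynomial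

namespace Pool.Agent.Lib.H24P

open Pool.Agent.Lib.H68T Pool.Agent.Lib.H18Q Pool.Agent.Lib.H59P

/-- The primes minus the projection at level `Q^100` at the linear coordinate. -/
noncomputable def fB (Q Y : ℕ) (B : ℤ[X]) (n : ℕ) : ℝ :=
  lp (B.eval (n : ℤ)) - Lk (Q ^ 100) (Y / (Q ^ 100) ^ 2) (B.eval (n : ℤ))

/-- A sum along a progression in `[Y, 3Y)`, with a linear phase. -/
theorem w2_ap (g : ℤ → ℂ) (Y : ℕ) (δ : ℝ)
    (hg : ∀ θ : ℝ, ∀ u v : ℤ, (Y : ℤ) ≤ u → v ≤ 4 * Y → ‖∑ m ∈ Ico u v, g m * e (m * θ)‖ ≤ δ)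
    (W : ℕ) (hW : 0 < W) (x : ℤ) (H : ℕ)
    (hx : ∀ c : ℕ, c < H → (Y : ℤ) ≤ x + W * c ∧ x + W * c < 3 * Y) (θ : ℝ) :
    ‖∑ c ∈ range H, g (x + W * c) * e (c * θ)‖ ≤ δ := by
  have hδ : 0 ≤ δ := (norm_nonneg _).trans (hg 0 Y Y le_rfl (by omega))
  rcases Nat.eq_zero_or_pos H with h0 | h0
  · rw [h0, Finset.sum_range_zero, norm_zero]
    exact hδ
  have hxY : (Y : ℤ) ≤ x := by
    have := (hx 0 h0).1
    simpa using this
  set u : ℤ → ℂ := fun m => if m < 3 * Y then g m else 0 with hu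
  have h1 := BA1_prog u W H hW x θ
  have h2 : ∑ c ∈ range H, u (x + W * c) * e (c * θ) = ∑ c ∈ range H, g (x + W * c) * e (c * θ) := by
    refine Finset.sum_congr rfl fun c hc => ?_
    have h3 := (hx c (mem_range.mp hc)).2
    rw [hu]
    beta_reduce
    rw [if_pos h3]
  rw [h2] at h1
  have h4 : ∀ j ∈ range W, ‖e (-(x : ℝ) * ((j + θ) / W)) *
      ∑ m ∈ Ico x (x + W * H), u m * e (m * ((j + θ) / W))‖ ≤ δ := by
    intro j _
    rw [norm_mul, BA1_norm_e, one_mul]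
    have h5 : ∑ m ∈ Ico x (x + W * H), u m * e (m * ((j + θ) / W)) =
        ∑ m ∈ Ico x (min (x + W * H) (3 * Y)), g m * e (m * ((j + θ) / W)) := by
      have h6 : (Ico x (min (x + (W : ℤ) * (H : ℤ)) (3 * (Y : ℤ))) : Finset ℤ) =
          (Ico x (x + (W : ℤ) * (H : ℤ)) : Finset ℤ).filter (fun m : ℤ => m < 3 * (Y : ℤ)) := by
        ext m
        rw [mem_filter, mem_Ico, mem_Ico, lt_min_iff]
        tauto
      rw [h6, Finset.sum_filter]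
      refine Finset.sum_congr rfl fun m _ => ?_
      rw [hu]
      beta_reduce
      split_ifs
      · rfl
      · rw [zero_mul]
    rw [h5]
    refine hg _ _ _ hxY ?_
    have := min_le_right (x + W * H) (3 * (Y : ℤ))
    omega
  have h7 : (W : ℝ) * ‖∑ c ∈ range H, g (x + W * c) * e (c * θ)‖ ≤ W * δ := by
    calc (W : ℝ) * ‖∑ c ∈ range H, g (x + W * c) * e (c * θ)‖
        = ‖(W : ℂ) * ∑ c ∈ range H, g (x + W * c) * e (c * θ)‖ := by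
          rw [norm_mul, Complex.norm_natCast]
      _ = ‖∑ j ∈ range W, e (-(x : ℝ) * ((j + θ) / W)) *
            ∑ m ∈ Ico x (x + W * H), u m * e (m * ((j + θ) / W))‖ := by rw [h1]
      _ ≤ ∑ j ∈ range W, δ := (norm_sum_le _ _).trans (Finset.sum_le_sum h4)
      _ = W * δ := by rw [Finset.sum_const, card_range, nsmul_eq_mul]
  have hW' : (0 : ℝ) < W := by exact_mod_cast hW
  exact le_of_mul_le_mul_left h7 hW'

theorem w2_lin {A : ℕ} {B : ℤ[X]} (hB : Lin A B) :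
    (∀ n : ℤ, B.eval n = B.coeff 0 + B.coeff 1 * n) ∧ B.coeff 1 ≠ 0 := by
  constructor
  · intro n
    rw [Polynomial.eval_eq_sum_range, hB.deg]
    simp [Finset.sum_range_succ]
  · have h1 : B.leadingCoeff ≠ 0 := by
      rw [Polynomial.leadingCoeff_ne_zero]
      intro h
      have h2 := hB.deg
      rw [h] at h2
      simp at h2
    rwa [Polynomial.leadingCoeff, hB.deg] at h1

/-- The Fourier transform along a linear polynomial. -/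
theorem w2_four (g : ℤ → ℂ) (Y : ℕ) (δ : ℝ)
    (hg : ∀ θ : ℝ, ∀ u v : ℤ, (Y : ℤ) ≤ u → v ≤ 4 * Y → ‖∑ m ∈ Ico u v, g m * e (m * θ)‖ ≤ δ)
    {A : ℕ} {B : ℤ[X]} (hB : Lin A B) (a H : ℕ)
    (hx : ∀ n ∈ Ico a (a + H), (Y : ℤ) ≤ B.eval (n : ℤ) ∧ B.eval (n : ℤ) < 3 * Y) (θ : ℝ) :
    ‖∑ n ∈ Ico a (a + H), g (B.eval (n : ℤ)) * e ((n : ℝ) * θ)‖ ≤ δ := by
  obtain ⟨hev, hc1⟩ := w2_lin hB
  have hfac : ∀ (s : Finset ℕ) (f : ℕ → ℂ) (t : ℝ), ‖∑ c ∈ s, f c * e t‖ = ‖∑ c ∈ s, f c‖ := by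
    intro s f t
    rw [← Finset.sum_mul, norm_mul, BA1_norm_e, mul_one]
  rcases lt_or_gt_of_ne hc1 with hneg | hpos
  · obtain ⟨W, hW⟩ : ∃ W : ℕ, (W : ℤ) = -B.coeff 1 := ⟨(-B.coeff 1).toNat, by
      rw [Int.toNat_of_nonneg (by linarith)]⟩
    have hW0 : 0 < W := by
      have : (0 : ℤ) < W := by rw [hW]; linarith
      exact_mod_cast this
    have hval : ∀ c : ℕ, c < H → B.eval ((a + (H - 1 - c) : ℕ) : ℤ) =
        B.coeff 0 + (W : ℤ) * (-((a : ℤ) + H - 1)) + W * (c : ℤ) := by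
      intro c hc
      have h2 : ((a + (H - 1 - c) : ℕ) : ℤ) = a + H - 1 - c := by
        have : 1 + c ≤ H := by omega
        rw [Nat.sub_sub]
        push_cast [this]
        ring
      rw [hev, h2, hW]
      ring
    have h1 := w2_ap g Y δ hg W hW0 (B.coeff 0 + (W : ℤ) * (-((a : ℤ) + H - 1))) H
      (fun c hc => by
        rw [← hval c hc]
        exact hx _ (by rw [mem_Ico]; omega)) (-θ)
    rw [Finset.sum_Ico_eq_sum_range, Nat.add_sub_cancel_left, ← Finset.sum_range_reflect]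
    rw [← hfac _ _ (((a : ℝ) + H - 1) * θ)] at h1
    refine le_trans (le_of_eq ?_) h1
    congr 1
    refine Finset.sum_congr rfl fun c hc => ?_
    rw [mem_range] at hc
    rw [hval c hc, mul_assoc (g _), ← BA1_e_add]
    congr 2
    have h3 : ((a + (H - 1 - c) : ℕ) : ℝ) = a + H - 1 - c := by
      have : 1 + c ≤ H := by omega
      rw [Nat.sub_sub]
      push_cast [this]
      ring
    rw [h3]
    ring
  · obtain ⟨W, hW⟩ : ∃ W : ℕ, (W : ℤ) = B.coeff 1 := ⟨(B.coeff 1).toNat, by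
      rw [Int.toNat_of_nonneg (by linarith)]⟩
    have hW0 : 0 < W := by
      have : (0 : ℤ) < W := by rw [hW]; linarith
      exact_mod_cast this
    have hval : ∀ c : ℕ, B.eval ((a + c : ℕ) : ℤ) = B.coeff 0 + (W : ℤ) * a + W * (c : ℤ) := by
      intro c
      rw [hev, hW]
      push_cast
      ring
    have h1 := w2_ap g Y δ hg W hW0 (B.coeff 0 + (W : ℤ) * a) H
      (fun c hc => by
        rw [← hval c]
        exact hx _ (by rw [mem_Ico]; omega)) θ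
    rw [Finset.sum_Ico_eq_sum_range, Nat.add_sub_cancel_left]
    rw [← hfac _ _ ((a : ℝ) * θ)] at h1
    refine le_trans (le_of_eq ?_) h1
    congr 1
    refine Finset.sum_congr rfl fun c hc => ?_
    rw [hval c, mul_assoc (g _), ← BA1_e_add]
    congr 2
    push_cast
    ring

/-- Fourier transform on intervals. Proof. `B(n) = b + a n`, `a ≠ 0`; if `a < 0` reflect. The `B(n)`, `n ∈ Ico a0 (a0+H)`, are
the `m ≡ b` modulo `|a|` in an interval contained in `[Y, 3Y)` (`GeoB`), so the sum is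
`(1/|a|) ∑_{j < |a|} ∑_m (lp m - Lk m) e((m - b) (θ + j)/a)`, each inner sum is at most `Y (Q^100)^(-1/4)`
(`fourier_smallP` with `X = Y`, `Q = Q^100`; empty intervals are trivial). `(Q^100)^(-1/4) = Q^(-25)`. -/
theorem W2_fourier : ∃ K : ℝ, 1 ≤ K ∧ ∀ (A Q X X1 Y : ℕ) (B : ℤ[X]), 1 ≤ Q → RegP K (Q ^ 100) Y →
    GeoB A X X1 Y B → ∀ a H : ℕ, X1 ≤ a → a + H ≤ 2 * X1 → ∀ θ : ℝ,
    ‖∑ n ∈ Ico a (a + H), ((fB Q Y B n : ℝ) : ℂ) * e ((n : ℝ) * θ)‖ ≤ Y * (Q : ℝ) ^ (-(25) : ℝ) := by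
  obtain ⟨K, hK⟩ := fourier_smallP
  refine ⟨max K 1, le_max_right _ _, ?_⟩
  intro A Q X X1 Y B hQ hR hG a H ha haH θ
  have hR' : RegP K (Q ^ 100) Y := hR.mono (le_trans zero_le_one (le_max_right _ _)) (le_max_left _ _)
  have hQ0 : (0 : ℝ) ≤ Q := Nat.cast_nonneg Q
  have hpow : (((Q ^ 100 : ℕ) : ℝ)) ^ (-(1 / 4) : ℝ) = (Q : ℝ) ^ (-(25) : ℝ) := by
    rw [Nat.cast_pow, ← Real.rpow_natCast, ← Real.rpow_mul hQ0]
    norm_num
  have h1 := w2_four (fun m => ((lp m - Lk (Q ^ 100) (Y / (Q ^ 100) ^ 2) m : ℝ) : ℂ)) Y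
    (Y * (Q : ℝ) ^ (-(25) : ℝ)) (fun θ u v hu hv => by
      rw [← hpow]
      exact hK (Q ^ 100) Y hR' θ u v hu hv) hG.lin a H
    (fun n hn => by
      rw [mem_Ico] at hn
      have hn' : n ∈ Ico X1 (2 * X1) := by rw [mem_Ico]; omega
      exact ⟨hG.lo n hn', hG.hi n hn'⟩) θ
  exact h1

/-- Mean squares. Proof. `|lp m| ≤ log(3 Y)` for `m < 3 Y`, `3 Y ≤ 3 A X`; `Lk = SG (C0 m) m` (`Cf.eq`), at most
`300 (1+log Q^100)³ dQ (Q^100) m` (`S1b` of `H59P`, `Cf.le`, `Cf.sum`); `B5_dQ` at level `Q^100`,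
`(Q^100)² ≤ H` (`X1 ≤ H Q^800`, `X ≤ X1 Q`, `K` large: `Q^1001 ≤ X` etc.); logarithms: `log Q ≤ log X`. -/
theorem W2_ms (A : ℕ) : ∃ K : ℝ, 1 ≤ K ∧ ∀ C : ℝ, ∃ Q0 : ℕ, ∀ (Q X X1 Y : ℕ) (B : ℤ[X])
    (C0 : ℤ → Ch → ℂ) (mb : Ch → ℝ), Q0 ≤ Q → Rg K C Q X → 0 < X1 → X1 ≤ X → X ≤ X1 * Q →
    GeoB A X X1 Y B → Cf (Q ^ 100) Y C0 mb → ∀ a H : ℕ, X1 ≤ a → a + H ≤ 2 * X1 → X1 ≤ H * Q ^ 800 →
    ∑ n ∈ Ico a (a + H), ‖((fB Q Y B n : ℝ) : ℂ)‖ ^ 2 ≤ H * (Real.log X) ^ 20 ∧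
    ∀ n ∈ Ico X1 (2 * X1), |lp (B.eval (n : ℤ))| ≤ (Real.log X) ^ 2 := by
  refine ⟨1001, by norm_num, fun C => ⟨3 * A + 3, ?_⟩⟩
  intro Q X X1 Y B C0 mb hQ hRg hX1 hX1X hXQ hG hC a H ha haH hH
  have hQ3 : 3 ≤ Q := by omega
  have hQA : 3 * A ≤ Q := by omega
  have hlogQ : 1 ≤ Real.log Q := G1_log1 hQ3
  have hlogX : 1001 * Real.log Q ≤ Real.log X := hRg.1
  set l := Real.log X with hl
  have hl1 : 1001 ≤ l := by linarith
  have hXpos : 0 < X := lt_of_lt_of_le hX1 hX1X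
  have hQr : (0 : ℝ) < Q := by exact_mod_cast (show 0 < Q by omega)
  have hXr : (0 : ℝ) < X := by exact_mod_cast hXpos
  have hQX : Q ^ 1001 ≤ X := by
    have h1 : Real.log ((Q : ℝ) ^ 1001) ≤ Real.log X := by
      rw [Real.log_pow]
      push_cast
      exact hlogX
    have h2 : (Q : ℝ) ^ 1001 ≤ X := (Real.log_le_log_iff (by positivity) hXr).1 h1
    exact_mod_cast h2
  have hH200 : (Q ^ 100) ^ 2 ≤ H := by
    have h1 : Q ^ 1001 ≤ H * Q ^ 801 := by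
      calc Q ^ 1001 ≤ X := hQX
        _ ≤ X1 * Q := hXQ
        _ ≤ H * Q ^ 800 * Q := Nat.mul_le_mul_right Q hH
        _ = H * Q ^ 801 := by ring
    have h2 : Q ^ 200 * Q ^ 801 ≤ H * Q ^ 801 := by
      rw [← pow_add]
      exact h1
    have h3 : Q ^ 200 ≤ H := Nat.le_of_mul_le_mul_right h2 (Nat.pow_pos (by omega))
    rw [← pow_mul]
    exact h3
  have hAX : Real.log (3 * (A : ℝ) * X) ≤ 2 * l := by
    rcases Nat.eq_zero_or_pos A with hA | hA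
    · rw [hA]
      simp only [Nat.cast_zero, mul_zero, zero_mul, Real.log_zero]
      linarith
    have hA' : (0 : ℝ) < A := by exact_mod_cast hA
    rw [Real.log_mul (by positivity) hXr.ne']
    have h1 : Real.log (3 * (A : ℝ)) ≤ Real.log Q := by
      refine Real.log_le_log (by positivity) ?_
      exact_mod_cast hQA
    linarith
  have hlp : ∀ n ∈ Ico X1 (2 * X1), |lp (B.eval (n : ℤ))| ≤ 2 * l := by
    intro n hn
    have h1 := hG.lo n hn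
    have h2 := hG.hi n hn
    unfold Pool.Agent.Lib.H68T.lp
    split_ifs with hp
    · have h3 : 2 ≤ (B.eval (n : ℤ)).toNat := hp.two_le
      have h4 : (2 : ℤ) ≤ B.eval (n : ℤ) := by omega
      have h5 : (2 : ℝ) ≤ ((B.eval (n : ℤ) : ℤ) : ℝ) := by exact_mod_cast h4
      rw [abs_of_nonneg (Real.log_nonneg (by linarith))]
      refine le_trans (Real.log_le_log (by linarith) ?_) hAX
      have h6 : B.eval (n : ℤ) ≤ ((3 * A * X : ℕ) : ℤ) := by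
        have h7 : 3 * Y ≤ 3 * A * X := by
          have := hG.Yhi
          calc 3 * Y ≤ 3 * (A * X) := Nat.mul_le_mul_left 3 this
            _ = 3 * A * X := by ring
        have h8 : ((3 * Y : ℕ) : ℤ) ≤ ((3 * A * X : ℕ) : ℤ) := by exact_mod_cast h7
        push_cast at h8 ⊢
        linarith
      calc ((B.eval (n : ℤ) : ℤ) : ℝ) ≤ (((3 * A * X : ℕ) : ℤ) : ℝ) := by exact_mod_cast h6
        _ = 3 * (A : ℝ) * X := by push_cast; ring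
    · rw [abs_zero]
      linarith
  refine ⟨?_, fun n hn => (hlp n hn).trans ?_⟩
  · -- the mean square
    set l1 := 1 + Real.log ((Q ^ 100 : ℕ) : ℝ) with hl1d
    have hl1' : l1 = 1 + 100 * Real.log Q := by
      rw [hl1d, Nat.cast_pow, Real.log_pow]
      push_cast
      ring
    have hl1one : 1 ≤ l1 := by rw [hl1']; linarith
    have hl1l : l1 ≤ l := by rw [hl1']; linarith
    have hQ100 : 1 ≤ Q ^ 100 := Nat.one_le_pow _ _ (by omega)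
    have hLk : ∀ n ∈ Ico X1 (2 * X1), |Lk (Q ^ 100) (Y / (Q ^ 100) ^ 2) (B.eval (n : ℤ))| ≤
        300 * l1 ^ 3 * dQ (Q ^ 100) (B.eval (n : ℤ)) := by
      intro n hn
      have h1 := hG.lo n hn
      have h2 := hG.hi n hn
      have h3 : B.eval (n : ℤ) ≤ 4 * Y := by
        have : (0 : ℤ) ≤ Y := Int.natCast_nonneg Y
        linarith
      have h4 := hC.eq _ h1 h3
      have h5 := S1b (Q ^ 100) hQ100 (C0 (B.eval (n : ℤ))) mb (fun p hp => hC.le _ h1 h3 p hp)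
        (B.eval (n : ℤ))
      rw [← h4, Complex.norm_real, Real.norm_eq_abs] at h5
      refine h5.trans ?_
      have hd : 0 ≤ dQ (Q ^ 100) (B.eval (n : ℤ)) := Nat.cast_nonneg _
      calc 100 * (1 + Real.log ((Q ^ 100 : ℕ) : ℝ)) ^ 3 * dQ (Q ^ 100) (B.eval (n : ℤ)) *
            ∑ p ∈ PC (Q ^ 100), mb p
          ≤ 100 * l1 ^ 3 * dQ (Q ^ 100) (B.eval (n : ℤ)) * 3 :=
            mul_le_mul_of_nonneg_left hC.sum (by positivity)
        _ = 300 * l1 ^ 3 * dQ (Q ^ 100) (B.eval (n : ℤ)) := by ring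
    have hpt : ∀ n ∈ Ico a (a + H), ‖((fB Q Y B n : ℝ) : ℂ)‖ ^ 2 ≤
        8 * l ^ 2 + 2 * (300 * l1 ^ 3) ^ 2 * dQ (Q ^ 100) (B.eval (n : ℤ)) ^ 2 := by
      intro n hn
      have hn' : n ∈ Ico X1 (2 * X1) := by
        rw [mem_Ico] at hn ⊢
        omega
      have h1 := hlp n hn'
      have h2 := hLk n hn'
      rw [Complex.norm_real, Real.norm_eq_abs, sq_abs]
      unfold fB
      have h3 : (lp (B.eval (n : ℤ))) ^ 2 ≤ (2 * l) ^ 2 := by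
        rw [← sq_abs]
        exact pow_le_pow_left₀ (abs_nonneg _) h1 2
      have h4 : (Lk (Q ^ 100) (Y / (Q ^ 100) ^ 2) (B.eval (n : ℤ))) ^ 2 ≤
          (300 * l1 ^ 3 * dQ (Q ^ 100) (B.eval (n : ℤ))) ^ 2 := by
        rw [← sq_abs]
        exact pow_le_pow_left₀ (abs_nonneg _) h2 2
      nlinarith [sq_nonneg (lp (B.eval (n : ℤ)) + Lk (Q ^ 100) (Y / (Q ^ 100) ^ 2) (B.eval (n : ℤ)))]
    have hms := B5_dQ (Q ^ 100) A B hG.lin a H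
    have hms2 : ∑ n ∈ Ico a (a + H), dQ (Q ^ 100) (B.eval (n : ℤ)) ^ 2 ≤ 2 * H * l1 ^ 3 := by
      refine hms.trans ?_
      have h1 : (((Q ^ 100 : ℕ) : ℝ)) ^ 2 ≤ H := by exact_mod_cast hH200
      have h2 : (1 : ℝ) ≤ l1 ^ 3 := one_le_pow₀ hl1one
      have h3 : (H : ℝ) ≤ H * l1 ^ 3 := le_mul_of_one_le_right (Nat.cast_nonneg H) h2
      linarith
    calc ∑ n ∈ Ico a (a + H), ‖((fB Q Y B n : ℝ) : ℂ)‖ ^ 2
        ≤ ∑ n ∈ Ico a (a + H), (8 * l ^ 2 + 2 * (300 * l1 ^ 3) ^ 2 *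
            dQ (Q ^ 100) (B.eval (n : ℤ)) ^ 2) := Finset.sum_le_sum hpt
      _ = H * (8 * l ^ 2) + 2 * (300 * l1 ^ 3) ^ 2 *
            ∑ n ∈ Ico a (a + H), dQ (Q ^ 100) (B.eval (n : ℤ)) ^ 2 := by
          rw [Finset.sum_add_distrib, Finset.sum_const, Nat.card_Ico, Nat.add_sub_cancel_left,
            nsmul_eq_mul, ← Finset.mul_sum]
      _ ≤ H * (8 * l ^ 2) + 2 * (300 * l1 ^ 3) ^ 2 * (2 * H * l1 ^ 3) := by
          have : 0 ≤ 2 * (300 * l1 ^ 3) ^ 2 := by positivity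
          have := mul_le_mul_of_nonneg_left hms2 this
          linarith
      _ = H * (8 * l ^ 2 + 360000 * l1 ^ 9) := by ring
      _ ≤ H * l ^ 20 := by
          refine mul_le_mul_of_nonneg_left ?_ (Nat.cast_nonneg H)
          have hl0 : 0 ≤ l := by linarith
          have h1 : l1 ^ 9 ≤ l ^ 9 := pow_le_pow_left₀ (by linarith) hl1l 9
          have h2 : l ^ 2 ≤ l ^ 9 := pow_le_pow_right₀ (by linarith) (by norm_num)
          have h3 : (1001 : ℝ) ^ 11 ≤ l ^ 11 := pow_le_pow_left₀ (by norm_num) hl1 11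
          have h4 : (0 : ℝ) ≤ l ^ 9 := by positivity
          have h5 : (360008 : ℝ) ≤ l ^ 11 := le_trans (by norm_num) h3
          calc 8 * l ^ 2 + 360000 * l1 ^ 9 ≤ 360008 * l ^ 9 := by linarith
            _ ≤ l ^ 11 * l ^ 9 := mul_le_mul_of_nonneg_right h5 h4
            _ = l ^ 20 := by ring
  · nlinarith

end Pool.Agent.Lib.H24P
end

-- from Lib.H24P.W3
section

/-!
# Project H24P, chunk W3 (M): from primes to the projection in the linear coordinate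
-/

open Finset Polynomial

namespace Pool.Agent.Lib.H24P

open Pool.Agent.Lib.H68T Pool.Agent.Lib.H18Q Pool.Agent.Lib.H59P

/-- Expansion. Proof. Definitions of `SG`, `Fc`, `gam_expand` (`H18Q/CA.lean`), `Finset.prod_univ_sum`. -/
theorem W3_SG {k : ℕ} (Q : ℕ) (c : Fin k → Ch → ℂ) (m : Fin k → ℤ) :
    ∏ i, SG Q (c i) (m i) =
      ∑ p ∈ Fintype.piFinset fun _ : Fin k => PC Q, (∏ i, c i (p i)) * ∏ i, Fc Q (p i) (m i) := by
  classical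
  have h1 : ∀ i, SG Q (c i) (m i) = ∑ p ∈ PC Q, c i p * Fc Q p (m i) := by
    intro i
    unfold SG Fc
    refine Finset.sum_congr rfl fun p hp => ?_
    rw [gam_expand Q p hp, mul_comm]
  calc ∏ i, SG Q (c i) (m i) = ∏ i, ∑ p ∈ PC Q, c i p * Fc Q p (m i) :=
        Finset.prod_congr rfl fun i _ => h1 i
    _ = ∑ p ∈ Fintype.piFinset fun _ : Fin k => PC Q, ∏ i, c i (p i) * Fc Q (p i) (m i) :=
        Finset.prod_univ_sum _ _
    _ = _ := Finset.sum_congr rfl fun p _ => Finset.prod_mul_distrib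




end Pool.Agent.Lib.H24P
end

-- from Lib.H24P.Z2A
section

/-!
# Project H24P, chunk Z2A (M): one cell, truncated main term (compare H59P/Z2B)
-/

open Finset Polynomial

namespace Pool.Agent.Lib.H24P

open Pool.Agent.Lib.H68T Pool.Agent.Lib.H18Q Pool.Agent.Lib.H59P

theorem z2a_SG (Q : ℕ) (c : Ch → ℂ) (m : ℤ) : SG Q c m = ∑ p ∈ PC Q, c p * Fc Q p m := by
  unfold SG Fc
  refine Finset.sum_congr rfl fun p hp => ?_
  rw [gam_expand Q p hp, mul_comm]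

/-- the index set of the tuples of characters -/
noncomputable def z2a_I (k Q : ℕ) : Finset (Fin (k + 1) → Ch) :=
  Fintype.piFinset (Fin.cons (PC (Q ^ 100)) (fun _ : Fin k => PC Q) : Fin (k + 1) → Finset Ch)

theorem z2a_mem {k Q : ℕ} {p : Fin (k + 1) → Ch} :
    p ∈ z2a_I k Q ↔ p 0 ∈ PC (Q ^ 100) ∧ ∀ i : Fin k, p i.succ ∈ PC Q := by
  unfold z2a_I
  rw [Fintype.mem_piFinset, Fin.forall_fin_succ]
  simp only [Fin.cons_zero, Fin.cons_succ]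

/-- Proof. `SG Q c m = ∑_{p ∈ PC Q} c p Fc Q p m` (definitions, `gam_expand`), `Finset.prod_univ_sum`,
`Fin.consEquiv`/`Fin.prod_univ_succ`: index set `Fintype.piFinset (Fin.cons (PC (Q^100)) fun _ => PC Q)`. -/
theorem Z2A_expand {k : ℕ} (Q : ℕ) (c0 : Ch → ℂ) (c' : Fin k → Ch → ℂ) (m0 : ℤ) (m : Fin k → ℤ) :
    SG (Q ^ 100) c0 m0 * ∏ i, SG Q (c' i) (m i) =
      ∑ p ∈ Fintype.piFinset (Fin.cons (PC (Q ^ 100)) (fun _ : Fin k => PC Q) :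
          Fin (k + 1) → Finset Ch),
        (∏ i, (Fin.cons c0 c' : Fin (k + 1) → Ch → ℂ) i (p i)) *
          (Fc (Q ^ 100) (p 0) m0 * ∏ i : Fin k, Fc Q (p i.succ) (m i)) := by
  classical
  have key := Finset.prod_univ_sum (Fin.cons (PC (Q ^ 100)) (fun _ : Fin k => PC Q) :
    Fin (k + 1) → Finset Ch)
    (fun (i : Fin (k + 1)) (q : Ch) => (Fin.cons c0 c' : Fin (k + 1) → Ch → ℂ) i q *
      (Fin.cons (fun q => Fc (Q ^ 100) q m0) (fun i q => Fc Q q (m i)) :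
        Fin (k + 1) → Ch → ℂ) i q)
  rw [Fin.prod_univ_succ] at key
  simp only [Fin.cons_zero, Fin.cons_succ] at key
  have e1 : SG (Q ^ 100) c0 m0 = ∑ q ∈ PC (Q ^ 100), c0 q * Fc (Q ^ 100) q m0 := z2a_SG _ _ _
  have e2 : ∏ i, SG Q (c' i) (m i) = ∏ i, ∑ q ∈ PC Q, c' i q * Fc Q q (m i) :=
    Finset.prod_congr rfl fun i _ => z2a_SG _ _ _
  rw [e1, e2, key]
  refine Finset.sum_congr rfl fun p _ => ?_
  rw [Finset.prod_mul_distrib]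
  congr 1
  rw [Fin.prod_univ_succ]
  simp only [Fin.cons_zero, Fin.cons_succ]

theorem z2a_gam {k : ℕ} (Q : ℕ) (c0 : Ch → ℂ) (h0 : ∑ p ∈ PC (Q ^ 100), ‖c0 p‖ ≤ 3)
    (c' : Fin k → Ch → ℂ) (hc' : ∀ i, ∑ p ∈ PC Q, ‖c' i p‖ ≤ 3) :
    ∑ p ∈ z2a_I k Q, ‖∏ i, (Fin.cons c0 c' : Fin (k + 1) → Ch → ℂ) i (p i)‖ ≤ 3 ^ (k + 1) := by
  classical
  have key := Finset.prod_univ_sum (Fin.cons (PC (Q ^ 100)) (fun _ : Fin k => PC Q) :
    Fin (k + 1) → Finset Ch)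
    (fun (i : Fin (k + 1)) (q : Ch) => ‖(Fin.cons c0 c' : Fin (k + 1) → Ch → ℂ) i q‖)
  have e1 : ∑ p ∈ z2a_I k Q, ‖∏ i, (Fin.cons c0 c' : Fin (k + 1) → Ch → ℂ) i (p i)‖ =
      ∏ i, ∑ q ∈ (Fin.cons (PC (Q ^ 100)) (fun _ : Fin k => PC Q) : Fin (k + 1) → Finset Ch) i,
        ‖(Fin.cons c0 c' : Fin (k + 1) → Ch → ℂ) i q‖ := by
    rw [key]
    refine Finset.sum_congr rfl fun p _ => ?_
    rw [norm_prod]
  rw [e1]
  have e2 : ∏ i, ∑ q ∈ (Fin.cons (PC (Q ^ 100)) (fun _ : Fin k => PC Q) :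
      Fin (k + 1) → Finset Ch) i, ‖(Fin.cons c0 c' : Fin (k + 1) → Ch → ℂ) i q‖ ≤
      ∏ _i : Fin (k + 1), (3 : ℝ) := by
    refine Finset.prod_le_prod (fun i _ => Finset.sum_nonneg fun p _ => norm_nonneg _) (fun i _ => ?_)
    refine Fin.cases ?_ (fun j => ?_) i
    · simp only [Fin.cons_zero]
      exact h0
    · simp only [Fin.cons_succ]
      exact hc' j
  refine e2.trans (le_of_eq ?_)
  rw [Finset.prod_const, Finset.card_univ, Fintype.card_fin]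



theorem z2a_sub {k Q D m0 : ℕ} (hQ : 1 ≤ Q) : TSf (k + 1) Q D m0 ⊆ z2a_I k Q := by
  intro p hp
  unfold TSf at hp
  have h1 := (Finset.mem_filter.1 hp).1
  rw [Fintype.mem_piFinset] at h1
  exact z2a_mem.2 ⟨z1s_PC hQ (h1 0), fun i => h1 i.succ⟩



end Pool.Agent.Lib.H24P
end

-- from Lib.H24Q.B1
section

/-!
# Project H24Q, chunk B1 (M): tuples of characters (compare H24P/Z1S, Z1L, H59P/Z1D, Z1E)
-/

open Finset

namespace Pool.Agent.Lib.H24Q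

open Pool.Agent.Lib.H68T Pool.Agent.Lib.H18Q Pool.Agent.Lib.H59P Pool.Agent.Lib.H24P

theorem b1_sq (x y : ℂ) : ‖x + y‖ ^ 2 ≤ 2 * ‖x‖ ^ 2 + 2 * ‖y‖ ^ 2 := by
  have h1 : ‖x + y‖ ≤ ‖x‖ + ‖y‖ := norm_add_le x y
  have h2 : 0 ≤ ‖x + y‖ := norm_nonneg _
  nlinarith [sq_nonneg (‖x‖ - ‖y‖)]

theorem b1_prod {m : ℕ} (Q : ℕ) (p : Fin m → Ch) (v : Fin m → ℤ) :
    ∏ i, Fc Q (p i) (v i) =
      ∑ κ ∈ Fintype.piFinset (fun i => KS Q (p i).1), ∏ i, gk (p i) (κ i) (v i) := by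
  unfold Fc
  rw [Finset.prod_univ_sum]

theorem b1_lcm {m : ℕ} {Q : ℕ} {p : Fin m → Ch} (hp : ∀ i, p i ∈ PC Q) {κ : Fin m → ℕ}
    (hκ : κ ∈ Fintype.piFinset (fun i => KS Q (p i).1)) :
    0 < univ.lcm (fun i => (p i).1 * κ i) := by
  rw [Fintype.mem_piFinset] at hκ
  refine Nat.pos_of_ne_zero ?_
  rw [Finset.lcm_ne_zero_iff]
  intro i _
  have e1 := (mem_PC.1 (hp i)).1
  have e2 := (CA_mem_KS.1 (hκ i)).1.1
  have := Nat.mul_pos e1 e2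
  omega

/-- The numerical estimate of the part with large moduli. -/
theorem b1_num {C δ x : ℝ} (hC : 0 ≤ C) {Q D H : ℕ} {s : ℝ} (hs : 0 ≤ s) (hQ : 1 ≤ Q)
    (hl : 4 * C * (1 + Real.log Q) ^ C ≤ (Q : ℝ) ^ δ) (hD : (D : ℝ) ^ (-x) ≤ (Q : ℝ) ^ (-(2 * δ))) :
    C * (1 + Real.log Q) ^ C * s * (H : ℝ) ^ 2 * (D : ℝ) ^ (-x) ≤
      1 / 4 * (s * (H : ℝ) ^ 2 * (Q : ℝ) ^ (-δ)) := by
  have hQ1 : (1 : ℝ) ≤ Q := by exact_mod_cast hQ
  have hQ0 : (0 : ℝ) < Q := by linarith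
  have hlQ : 0 ≤ Real.log Q := Real.log_nonneg hQ1
  calc C * (1 + Real.log Q) ^ C * s * (H : ℝ) ^ 2 * (D : ℝ) ^ (-x)
      ≤ C * (1 + Real.log Q) ^ C * s * (H : ℝ) ^ 2 * (Q : ℝ) ^ (-(2 * δ)) :=
        mul_le_mul_of_nonneg_left hD (by positivity)
    _ = 1 / 4 * (s * (H : ℝ) ^ 2 * ((4 * C * (1 + Real.log Q) ^ C) * (Q : ℝ) ^ (-(2 * δ)))) := by ring
    _ ≤ 1 / 4 * (s * (H : ℝ) ^ 2 * ((Q : ℝ) ^ δ * (Q : ℝ) ^ (-(2 * δ)))) := by gcongr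
    _ = 1 / 4 * (s * (H : ℝ) ^ 2 * (Q : ℝ) ^ (-δ)) := by
        rw [← Real.rpow_add hQ0]
        congr 3
        ring

/-- Small modulus. Proof. `R = Rf m0 p ≤ D1 = fl Q (1/16)`, `D = fl Q (1/2)`, `D² ≤ Q`. `∏ Fc = ∑_κ ∏ gk`
(`Finset.prod_univ_sum`). The `κ` with `lcm(R, κ) ≤ D`: `A1_M4`, for each `ω`: error `≤ 2 D² (2(1+log Q))^(2m) ≤ Q^2`, and
`Q^4 ≤ H`. For the others `D/R < lcm κ ≤ lcm(r_i κ_i)`: `FG` at the level `Q` with `D/R ≥ Q^(1/4)`. -/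
theorem B1_small (m : ℕ) (C c : ℝ) (hC : 1 ≤ C) (hc : 0 < c) : ∃ c' : ℝ, 0 < c' ∧ ∃ Q0 : ℕ, ∀ Q : ℕ,
    Q0 ≤ Q → ∀ (H0 : ℕ) (Ω : Type) (S : Finset Ω) (φ : Ω → Fin m → ℤ → ℤ), Fam C c Q H0 S φ →
    ∀ m0 : ℕ, 1 ≤ m0 → ∀ p ∈ TSf m Q (fl Q (1 / 16)) m0, ∀ a H : ℕ, H0 ≤ H → Q ^ 4 ≤ H →
    ∑ ω ∈ S, ‖∑ n ∈ Ico a (a + H), ∏ i, Fc Q (p i) (φ ω i (n : ℤ)) -
      H * (MRf p (Rf m0 p) (φ ω) *
        ((∑ d ∈ SF (fl Q (1 / 2) / Rf m0 p) (Rf m0 p), tdf d (φ ω) : ℝ) : ℂ))‖ ^ 2 ≤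
      S.card * (H : ℝ) ^ 2 * (Q : ℝ) ^ (-c') := by
  classical
  obtain ⟨Q1, -, hlog2⟩ := G1_rlog (2 ^ (2 * m)) ((2 * m : ℕ) : ℝ) 1 one_pos
  obtain ⟨Q2, -, hsize⟩ := G1_size 1
  obtain ⟨δ, hδ⟩ : ∃ δ : ℝ, δ = min (c / 8) 1 := ⟨_, rfl⟩
  have hδ0 : 0 < δ := by
    rw [hδ]
    exact lt_min (by positivity) one_pos
  have hδ1 : δ ≤ 1 := by
    rw [hδ]
    exact min_le_right _ _
  have hδc : δ ≤ c / 8 := by
    rw [hδ]
    exact min_le_left _ _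
  obtain ⟨Q3, -, hlog⟩ := G1_rlog (4 * C) C δ hδ0
  refine ⟨δ, hδ0, max 4 (max Q1 (max Q2 Q3)), ?_⟩
  intro Q hQ H0 Ω S φ hF m0 hm0 p hp a H hH0 hH
  have hQ4 : 4 ≤ Q := (le_max_left _ _).trans hQ
  have hQ1' : Q1 ≤ Q := ((le_max_left _ _).trans (le_max_right _ _)).trans hQ
  have hQ2' : Q2 ≤ Q :=
    ((le_max_left _ _).trans ((le_max_right _ _).trans (le_max_right _ _))).trans hQ
  have hQ3' : Q3 ≤ Q :=
    ((le_max_right _ _).trans ((le_max_right _ _).trans (le_max_right _ _))).trans hQ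
  have hQr : (4 : ℝ) ≤ Q := by exact_mod_cast hQ4
  have hQ0 : (0 : ℝ) < Q := by linarith
  have hQr1 : (1 : ℝ) ≤ Q := by linarith
  have hlQ : 0 ≤ Real.log Q := Real.log_nonneg hQr1
  have hp' : (∀ i, p i ∈ PC Q) ∧ Rf m0 p ≤ fl Q (1 / 16) := by
    unfold TSf at hp
    rw [mem_filter, Fintype.mem_piFinset] at hp
    exact hp
  obtain ⟨hpPC, hRle⟩ := hp'
  obtain ⟨R, hRdef⟩ : ∃ R, R = Rf m0 p := ⟨_, rfl⟩
  rw [← hRdef] at hRle ⊢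
  have hpR : ∀ i, (p i).1 ∣ R := by
    intro i
    rw [hRdef]
    exact (Finset.dvd_lcm (f := fun i => (p i).1) (mem_univ i)).trans (Nat.dvd_lcm_right _ _)
  have hR1 : 1 ≤ R := by
    rw [hRdef]
    refine Nat.pos_of_ne_zero (Nat.lcm_ne_zero (by omega) ?_)
    rw [Finset.lcm_ne_zero_iff]
    intro i _
    have := (mem_PC.1 (hpPC i)).1
    omega
  obtain ⟨-, -, -, hDD, hDR⟩ := hsize Q hQ2' 1 1 (le_refl _) (le_refl _) (by rw [one_pow]; omega)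
  have hDR' := hDR R hR1 hRle
  obtain ⟨D, hD⟩ : ∃ D, D = fl Q (1 / 2) := ⟨_, rfl⟩
  rw [← hD] at hDD hDR' ⊢
  have hDQ1 : D ≤ Q := by
    rcases Nat.eq_zero_or_pos D with h0 | h0
    · omega
    · exact (Nat.le_mul_of_pos_left D h0).trans hDD
  obtain ⟨K, hK⟩ : ∃ K : Finset (Fin m → ℕ), K = Fintype.piFinset fun i => KS Q (p i).1 := ⟨_, rfl⟩
  obtain ⟨T, hT⟩ : ∃ T : Finset (Fin m → ℕ), T = K.filter (fun κ => ¬ R.lcm (univ.lcm κ) ≤ D) :=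
    ⟨_, rfl⟩
  have hF' := hF.fg1 p hpPC T (by
      rw [hT, ← hK]
      exact Finset.filter_subset _ _) (D / R) (by
      have h1 : (0 : ℝ) < (Q : ℝ) ^ (1 / 4 : ℝ) := Real.rpow_pos_of_pos hQ0 _
      have h2 : (0 : ℝ) < ((D / R : ℕ) : ℝ) := lt_of_lt_of_le h1 hDR'
      exact_mod_cast h2) (by
      intro κ hκ
      rw [hT, mem_filter] at hκ
      have h1 : D < R.lcm (univ.lcm κ) := not_le.1 hκ.2
      have h2 : univ.lcm κ ∣ univ.lcm (fun i => (p i).1 * κ i) :=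
        Finset.lcm_dvd fun i _ => (dvd_mul_left (κ i) _).trans
          (Finset.dvd_lcm (f := fun i => (p i).1 * κ i) (mem_univ i))
      have h3 : 0 < univ.lcm (fun i => (p i).1 * κ i) := b1_lcm hpPC (by rw [← hK]; exact hκ.1)
      have h4 := Nat.le_of_dvd h3 h2
      have h5 : R.lcm (univ.lcm κ) ≤ R * univ.lcm κ :=
        Nat.le_of_dvd (Nat.mul_pos (by omega) (Nat.pos_of_dvd_of_pos h2 h3)) (Nat.lcm_dvd_mul _ _)
      refine lt_of_lt_of_le ?_ h4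
      rw [Nat.div_lt_iff_lt_mul (by omega), mul_comm]
      omega) a H hH0
  have hDneg : ((D / R : ℕ) : ℝ) ^ (-c) ≤ (Q : ℝ) ^ (-(2 * δ)) := by
    calc ((D / R : ℕ) : ℝ) ^ (-c) ≤ ((Q : ℝ) ^ (1 / 4 : ℝ)) ^ (-c) :=
          Real.rpow_le_rpow_of_nonpos (Real.rpow_pos_of_pos hQ0 _) hDR' (by linarith)
      _ = (Q : ℝ) ^ (-(c / 4)) := by
          rw [← Real.rpow_mul hQ0.le]
          congr 1
          ring
      _ ≤ (Q : ℝ) ^ (-(2 * δ)) := Real.rpow_le_rpow_of_exponent_le hQr1 (by linarith)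
  have hlarge := hF'.trans (b1_num (by linarith) (Nat.cast_nonneg _) (by omega) (hlog Q hQ3') hDneg)
  -- the main part
  have hsmall : ∀ ω ∈ S, ‖∑ n ∈ Ico a (a + H), ∑ κ ∈ K.filter (fun κ => R.lcm (univ.lcm κ) ≤ D),
          ∏ i, gk (p i) (κ i) (φ ω i (n : ℤ)) -
      H * (MRf p R (φ ω) * ((∑ d ∈ SF (D / R) R, tdf d (φ ω) : ℝ) : ℂ))‖ ^ 2 ≤
      1 / 4 * ((H : ℝ) ^ 2 * (Q : ℝ) ^ (-δ)) := by
    intro ω hω
    have h1 := A1_M4 (φ ω) (hF.fb.cp ω hω) Q D R hDQ1 (by omega) p hpPC hpR a H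
    rw [← hK] at h1
    refine (pow_le_pow_left₀ (norm_nonneg _) h1 2).trans ?_
    have h2 : (Q : ℝ) ^ (-(1 : ℝ)) ≤ (Q : ℝ) ^ (-δ) :=
      Real.rpow_le_rpow_of_exponent_le hQr1 (by linarith)
    have h3 : (Q : ℝ) ^ (-(1 : ℝ)) = (Q : ℝ)⁻¹ := Real.rpow_neg_one _
    have hHr : (Q : ℝ) ^ 4 ≤ H := by exact_mod_cast hH
    have hDr : (D : ℝ) ^ 2 ≤ Q := by
      rw [sq]
      exact_mod_cast hDD
    have hbd : (2 * (1 + Real.log Q)) ^ (2 * m) ≤ (Q : ℝ) := by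
      have h1 := hlog2 Q hQ1'
      rw [Real.rpow_natCast, Real.rpow_one, ← mul_pow] at h1
      exact h1
    calc (2 * (D : ℝ) ^ 2 * (2 * (1 + Real.log Q)) ^ (2 * m)) ^ 2 ≤ (2 * Q * Q) ^ 2 := by
          gcongr
      _ = 1 / 4 * (16 * (Q : ℝ) ^ 4) := by ring
      _ ≤ 1 / 4 * ((Q : ℝ) ^ 2 * (Q : ℝ) ^ 4) := by
          have : (16 : ℝ) ≤ Q ^ 2 := by nlinarith
          gcongr
      _ ≤ 1 / 4 * (((Q : ℝ) ^ 4) ^ 2 * (Q : ℝ)⁻¹) := by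
          rw [← pow_mul, ← pow_add]
          have : (Q : ℝ) ^ (4 * 2) * (Q : ℝ)⁻¹ = (Q : ℝ) ^ 7 := by
            field_simp
          rw [this]
          have : (Q : ℝ) ^ (2 + 4) ≤ (Q : ℝ) ^ 7 := pow_le_pow_right₀ hQr1 (by norm_num)
          exact mul_le_mul_of_nonneg_left this (by norm_num)
      _ ≤ 1 / 4 * ((H : ℝ) ^ 2 * (Q : ℝ) ^ (-δ)) := by
          rw [← h3]
          have h5 : 0 ≤ (Q : ℝ) ^ (-(1 : ℝ)) := Real.rpow_nonneg hQ0.le _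
          have h4 : ((Q : ℝ) ^ 4) ^ 2 ≤ (H : ℝ) ^ 2 := pow_le_pow_left₀ (by positivity) hHr 2
          have := mul_le_mul h4 h2 h5 (by positivity)
          linarith
  have hsplit : ∀ ω ∈ S, ‖∑ n ∈ Ico a (a + H), ∏ i, Fc Q (p i) (φ ω i (n : ℤ)) -
      H * (MRf p R (φ ω) * ((∑ d ∈ SF (D / R) R, tdf d (φ ω) : ℝ) : ℂ))‖ ^ 2 ≤
      2 * (1 / 4 * ((H : ℝ) ^ 2 * (Q : ℝ) ^ (-δ))) + 2 * ‖∑ n ∈ Ico a (a + H),
        ∑ κ ∈ T, ∏ i, gk (p i) (κ i) (φ ω i (n : ℤ))‖ ^ 2 := by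
    intro ω hω
    have e1 : ∑ n ∈ Ico a (a + H), ∏ i, Fc Q (p i) (φ ω i (n : ℤ)) -
      H * (MRf p R (φ ω) * ((∑ d ∈ SF (D / R) R, tdf d (φ ω) : ℝ) : ℂ)) =
      (∑ n ∈ Ico a (a + H), ∑ κ ∈ K.filter (fun κ => R.lcm (univ.lcm κ) ≤ D),
          ∏ i, gk (p i) (κ i) (φ ω i (n : ℤ)) -
      H * (MRf p R (φ ω) * ((∑ d ∈ SF (D / R) R, tdf d (φ ω) : ℝ) : ℂ))) +
      ∑ n ∈ Ico a (a + H), ∑ κ ∈ T, ∏ i, gk (p i) (κ i) (φ ω i (n : ℤ)) := by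
      have e2 : ∑ n ∈ Ico a (a + H), ∏ i, Fc Q (p i) (φ ω i (n : ℤ)) =
          ∑ n ∈ Ico a (a + H), ∑ κ ∈ K.filter (fun κ => R.lcm (univ.lcm κ) ≤ D),
            ∏ i, gk (p i) (κ i) (φ ω i (n : ℤ)) +
          ∑ n ∈ Ico a (a + H), ∑ κ ∈ T, ∏ i, gk (p i) (κ i) (φ ω i (n : ℤ)) := by
        rw [← Finset.sum_add_distrib]
        refine Finset.sum_congr rfl fun n _ => ?_
        rw [b1_prod, ← hK, hT, Finset.sum_filter_add_sum_filter_not]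
      rw [e2]
      ring
    rw [e1]
    refine (b1_sq _ _).trans ?_
    have := hsmall ω hω
    linarith
  refine (Finset.sum_le_sum hsplit).trans ?_
  rw [Finset.sum_add_distrib, Finset.sum_const, nsmul_eq_mul, ← Finset.mul_sum]
  have e3 : (S.card : ℝ) * (2 * (1 / 4 * ((H : ℝ) ^ 2 * (Q : ℝ) ^ (-δ)))) =
      1 / 2 * (S.card * (H : ℝ) ^ 2 * (Q : ℝ) ^ (-δ)) := by ring
  rw [e3]
  linarith

/-- Large modulus. Proof. `p ∉ TSf`: `fl Q (1/16) < lcm(r, lcm r_i) ≤ r lcm r_i`, so `lcm(r_i κ_i) ≥ lcm r_i > fl Q (1/32)`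
for `Q` large (`r ≤ Q^(1/100)`; `G1_size`): `FG` with `T` = everything. -/
theorem B1_large (m : ℕ) (C c : ℝ) (hC : 1 ≤ C) (hc : 0 < c) : ∃ c' : ℝ, 0 < c' ∧ ∃ Q0 : ℕ, ∀ Q : ℕ,
    Q0 ≤ Q → ∀ (H0 : ℕ) (Ω : Type) (S : Finset Ω) (φ : Ω → Fin m → ℤ → ℤ), Fam C c Q H0 S φ →
    ∀ r : ℕ, 1 ≤ r → r ^ 100 ≤ Q → ∀ p : Fin m → Ch, (∀ i, p i ∈ PC Q) →
    p ∉ TSf m Q (fl Q (1 / 16)) r → ∀ a H : ℕ, H0 ≤ H →
    ∑ ω ∈ S, ‖∑ n ∈ Ico a (a + H), ∏ i, Fc Q (p i) (φ ω i (n : ℤ))‖ ^ 2 ≤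
      S.card * (H : ℝ) ^ 2 * (Q : ℝ) ^ (-c') := by
  classical
  obtain ⟨Q2, -, hsize⟩ := G1_size 1
  obtain ⟨Q3, -, hlog⟩ := G1_rlog (4 * (C * 2 ^ c)) C (c / 64) (by positivity)
  refine ⟨c / 64, by positivity, max 1 (max Q2 Q3), ?_⟩
  intro Q hQ H0 Ω S φ hF r hr hrQ p hp hpT a H hH0
  have hQ1 : 1 ≤ Q := (le_max_left _ _).trans hQ
  have hQ2' : Q2 ≤ Q := ((le_max_left _ _).trans (le_max_right _ _)).trans hQ
  have hQ3' : Q3 ≤ Q := ((le_max_right _ _).trans (le_max_right _ _)).trans hQ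
  have hQr1 : (1 : ℝ) ≤ Q := by exact_mod_cast hQ1
  have hQ0 : (0 : ℝ) < Q := by linarith
  have hlQ : 0 ≤ Real.log Q := Real.log_nonneg hQr1
  obtain ⟨-, -, hs3, -, -⟩ := hsize Q hQ2' r 1 (le_refl _) (le_refl _) hrQ
  obtain ⟨h51, -, -⟩ := G1_one (Q := Q) (x := 1 / 32) hQ1 (by norm_num)
  obtain ⟨h71, -, -⟩ := G1_one (Q := Q) (x := 1 / 128) hQ1 (by norm_num)
  have hnot : ¬ r.lcm (univ.lcm fun i => (p i).1) ≤ fl Q (1 / 16) := by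
    intro hle
    apply hpT
    unfold TSf
    rw [mem_filter, Fintype.mem_piFinset]
    exact ⟨hp, hle⟩
  have hlt : fl Q (1 / 32) < univ.lcm (fun i => (p i).1) := by
    by_contra hcon
    rw [not_lt] at hcon
    apply hnot
    have hl1 : 0 < univ.lcm (fun i => (p i).1) := by
      refine Nat.pos_of_ne_zero ?_
      rw [Finset.lcm_ne_zero_iff]
      intro i _
      have := (mem_PC.1 (hp i)).1
      omega
    have h1 : r.lcm (univ.lcm fun i => (p i).1) ≤ r * univ.lcm (fun i => (p i).1) :=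
      Nat.le_of_dvd (Nat.mul_pos hr hl1) (Nat.lcm_dvd_mul _ _)
    have h2 : r * univ.lcm (fun i => (p i).1) ≤ r * fl Q (1 / 32) := Nat.mul_le_mul_left _ hcon
    have h3 : r * fl Q (1 / 32) ≤ 1 * r * fl Q (1 / 32) * (1 * fl Q (1 / 128)) := by
      rw [one_mul, one_mul]
      exact Nat.le_mul_of_pos_right _ h71
    omega
  have hF' := hF.fg1 p hp (Fintype.piFinset (fun i => KS Q (p i).1)) (Finset.Subset.refl _)
    (fl Q (1 / 32)) h51 (by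
      intro κ hκ
      refine lt_of_lt_of_le hlt ?_
      exact Nat.le_of_dvd (b1_lcm hp hκ) (Finset.lcm_dvd fun i _ => (dvd_mul_right _ (κ i)).trans
          (Finset.dvd_lcm (f := fun i => (p i).1 * κ i) (mem_univ i)))) a H hH0
  have e1 : ∑ ω ∈ S, ‖∑ n ∈ Ico a (a + H), ∏ i, Fc Q (p i) (φ ω i (n : ℤ))‖ ^ 2 =
      ∑ ω ∈ S, ‖∑ n ∈ Ico a (a + H), ∑ κ ∈ Fintype.piFinset (fun i => KS Q (p i).1),
        ∏ i, gk (p i) (κ i) (φ ω i (n : ℤ))‖ ^ 2 := by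
    refine Finset.sum_congr rfl fun ω _ => ?_
    congr 2
    exact Finset.sum_congr rfl fun n _ => b1_prod Q p _
  rw [e1]
  refine hF'.trans ?_
  have hlogv := hlog Q hQ3'
  have hneg := G1_neg (Q := Q) (x := 1 / 32) (c := c) hQ1 (by norm_num) hc.le
  have hL0 : 0 < 1 + Real.log Q := by linarith
  have h0 : 0 ≤ (S.card : ℝ) * (H : ℝ) ^ 2 := by positivity
  calc C * (1 + Real.log Q) ^ C * S.card * (H : ℝ) ^ 2 * (fl Q (1 / 32) : ℝ) ^ (-c)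
      ≤ C * (1 + Real.log Q) ^ C * S.card * (H : ℝ) ^ 2 * (2 ^ c * (Q : ℝ) ^ (-(c * (1 / 32)))) :=
        mul_le_mul_of_nonneg_left hneg (by positivity)
    _ = 1 / 4 * (S.card * (H : ℝ) ^ 2 * ((4 * (C * 2 ^ c) * (1 + Real.log Q) ^ C) *
          (Q : ℝ) ^ (-(c * (1 / 32))))) := by ring
    _ ≤ 1 / 4 * (S.card * (H : ℝ) ^ 2 * ((Q : ℝ) ^ (c / 64) * (Q : ℝ) ^ (-(c * (1 / 32))))) := by
        gcongr
    _ = 1 / 4 * (S.card * (H : ℝ) ^ 2 * (Q : ℝ) ^ (-(c / 64))) := by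
        rw [← Real.rpow_add hQ0]
        congr 3
        ring
    _ ≤ S.card * (H : ℝ) ^ 2 * (Q : ℝ) ^ (-(c / 64)) := by
        have : 0 ≤ (S.card : ℝ) * (H : ℝ) ^ 2 * (Q : ℝ) ^ (-(c / 64)) := by positivity
        linarith

end Pool.Agent.Lib.H24Q
end
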