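import Pool.Agent.Lib.H1M.RV3.M059
import Pool.Agent.Lib.H1M.RV3.M068
import Pool.Agent.Lib.H1M.RV3.M070
import Pool.Agent.Lib.H1M.RV3.M071
import Pool.Agent.Lib.H1M.RV3.M078
import Pool.Agent.Lib.H1M.RV3.M079
import Pool.Agent.Lib.H1M.RV3.M080
import Pool.Agent.Lib.H1M.RV3.M081
import Pool.Agent.Lib.H1M.RV3.M087
import Pool.Agent.Lib.H1M.RV3.M088

/-! Merged copies (to shorten the build) of Lib.H9U.Defs, Lib.H9U.M3, Lib.H9U.M5, Lib.H9U.C3, Lib.H9U.T1, Lib.H9U.ZDefs, Lib.H9U.Z3, Lib.H9U.T2, Lib.H9U.T4, Lib.H9U.Z4B, Lib.H9U.LDefs, Lib.H9U.L2T, Lib.H9U.T6, Lib.H9U.L4, Lib.H9U.U1B, Lib.H9U.M2, Lib.H9U.U0A, Lib.H9U.U0B. -/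

-- from Lib.H9U.Defs
section

/-!
# Project H9U: power saving for the `U³` norm of the primes, and linear families of half dimension (definitions)

`φ_i(n, t) = a_i n + ∑_j c_ij t_j + b_i`. See `PROOF.md`.
-/

open Finset

namespace Pool.Agent.H9U

open Pool.Agent.H44W (ee)
open Pool.Agent.H9S (Bd lc Lc BF Sx Sy)
open Pool.Agent.Lib.H68T (lp Lk PC p0 tent dQ)
open Pool.Agent.Lib.H18Q (gk KS Bc RegP)
open Pool.Agent.Lib.H59P (Ch cj uu gl pr SF MX bx TS Rp)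
open Pool.Agent.Lib.H59T (UU Rm Pm Kp dof tau)

noncomputable section

/-! ## Systems of forms -/

/-- A system of `k` integral linear forms in `n` and `t_1, …, t_d`. -/
structure Sys (k d : ℕ) where
  a : Fin k → ℤ
  c : Fin k → Fin d → ℤ

/-- The `i`-th linear form at `(s, u)`. -/
def Sys.lin {k d : ℕ} (S : Sys k d) (i : Fin k) (s : ℤ) (u : Fin d → ℤ) : ℤ :=
  S.a i * s + ∑ j, S.c i j * u j

/-- The `i`-th affine form at `(n, t)`. -/
def Sys.val {k d : ℕ} (S : Sys k d) (b : Fin k → ℤ) (n : ℤ) (t : Fin d → ℤ) (i : Fin k) : ℤ :=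
  S.lin i n t + b i

/-- Every form depends on `n`, and for each form `i` there are two vectors `(s, u)`, `(s', u')` on which it does not
vanish, while every other form vanishes on one of them (Cauchy-Schwarz complexity two, with arbitrary weights in `t`). -/
def Sys.Half {k d : ℕ} (S : Sys k d) : Prop :=
  (∀ i, S.a i ≠ 0) ∧ ∀ i, ∃ (s s' : ℤ) (u u' : Fin d → ℤ), S.lin i s u ≠ 0 ∧ S.lin i s' u' ≠ 0 ∧
    ∀ j, j ≠ i → S.lin j s u = 0 ∨ S.lin j s' u' = 0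

/-- A vector of natural numbers as a vector of integers. -/
def iv {d : ℕ} (t : Fin d → ℕ) : Fin d → ℤ := fun j => (t j : ℤ)

/-- `t` is admissible: for every prime `l` some `n` makes all values prime to `l`. -/
def Sys.Adm {k d : ℕ} (S : Sys k d) (b : Fin k → ℤ) (t : Fin d → ℤ) : Prop :=
  ∀ l : ℕ, l.Prime → ∃ n : ℤ, ∀ i, ¬ (l : ℤ) ∣ S.val b n t i

/-! ## Module U: functions with small `U³` norm at scale `X` -/

/-- The interval `[2X, 9X/4)`. -/
def JJ (X : ℕ) : Finset ℤ := Ico (2 * (X : ℤ)) (2 * X + X / 4)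

/-- The function cut off to the interval `JJ X`. -/
def cutJ (X : ℕ) (F : ℤ → ℂ) (m : ℤ) : ℂ := if m ∈ JJ X then F m else 0

/-- `F` is uniform at scale `X` with exponent `κ`: the bilinear forms are at most `X^(2-κ)`, and the values on
`[X, 4X]` at most `X^(κ/100)`. -/
structure Unif (X : ℕ) (κ : ℝ) (F : ℤ → ℂ) : Prop where
  bf : ∀ W f g : ℤ → ℂ, Bd W → Bd f → Bd g → ‖BF (Sx X) (Sy X) F W f g‖ ≤ (X : ℝ) ^ (2 - κ)
  bd : ∀ m : ℤ, (X : ℤ) ≤ m → m ≤ 4 * X → ‖F m‖ ≤ (X : ℝ) ^ (κ / 100)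

/-- The regime: level `Q = X^(1/Cr)` or larger, small level `Q'` between `X^θ` and `Q`. -/
structure Rgm (K Cr θ : ℝ) (Q Q' X : ℕ) : Prop where
  reg : RegP K Q X
  log : Real.log X ≤ Cr * Real.log Q
  low : (X : ℝ) ^ θ ≤ Q'
  le : Q' ≤ Q

/-- The error of the projection of small level `Q'` (with the window of the level `Q`). -/
def Er (Q Q' X : ℕ) (m : ℤ) : ℂ := lc m - Lc Q' (X / Q ^ 2) m

/-! ## Main terms -/

/-- The periodic function: `∏_i conj χ_i(m_i) ∏_{l ∈ P} (1 + gl l (m_i))`. -/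
def PhV {k : ℕ} (p : Fin k → Ch) (P : Finset ℕ) (m : Fin k → ℤ) : ℂ :=
  ∏ i, (cj (p i) (m i) * ((uu P (m i) : ℝ) : ℂ))

/-- `∏_i (1 + gl l (m_i)) - 1` -/
def WlV {k : ℕ} (l : ℕ) (m : Fin k → ℤ) : ℝ := ∏ i, (1 + gl l (m i)) - 1

/-- `∏_{l ∣ d} WlV l m` -/
def WdV {k : ℕ} (d : ℕ) (m : Fin k → ℤ) : ℝ := ∏ l ∈ d.primeFactors, WlV l m

/-- The mean of a function of the values over `n < N`. -/
def mn {k d : ℕ} (S : Sys k d) (b : Fin k → ℤ) (t : Fin d → ℤ) (N : ℕ) (G : (Fin k → ℤ) → ℂ) : ℂ :=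
  (∑ n ∈ range N, G (fun i => S.val b n t i)) / N

/-- The local factor of the singular series at `l`, minus `1`. -/
def tpS {k d : ℕ} (S : Sys k d) (b : Fin k → ℤ) (t : Fin d → ℤ) (l : ℕ) : ℝ :=
  (∑ n ∈ range l, ∏ i, (1 + gl l (S.val b n t i))) / l - 1

/-- `∏_{l ∣ d} tpS l` -/
def tdS {k d : ℕ} (S : Sys k d) (b : Fin k → ℤ) (t : Fin d → ℤ) (q : ℕ) : ℝ := ∏ l ∈ q.primeFactors, tpS S b t l

/-- The product of the local factors over the primes in `P`. -/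
def SSS {k d : ℕ} (S : Sys k d) (b : Fin k → ℤ) (t : Fin d → ℤ) (P : Finset ℕ) : ℝ := ∏ l ∈ P, (1 + tpS S b t l)

/-- The mean modulo `R` for the primes dividing `R`. -/
def MRS {k d : ℕ} (S : Sys k d) (b : Fin k → ℤ) (t : Fin d → ℤ) (p : Fin k → Ch) (R : ℕ) : ℂ :=
  mn S b t R (PhV p R.primeFactors)

/-- The mean over a complete period `Q!` for all primes up to `Q`. -/
def MQS {k d : ℕ} (S : Sys k d) (b : Fin k → ℤ) (t : Fin d → ℤ) (Q : ℕ) (p : Fin k → Ch) : ℂ :=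
  mn S b t Q.factorial (PhV p (pr Q))

/-- The mean over `Q!` of `∏_i uu(m_i) (1 - th_i ψ(m_i))`, `ψ` the real character of `px`. -/
def PMS {k d : ℕ} (S : Sys k d) (b : Fin k → ℤ) (t : Fin d → ℤ) (Q : ℕ) (px : Ch) (th : Fin k → ℝ) : ℝ :=
  (∑ n ∈ range Q.factorial, ∏ i, (uu (pr Q) (S.val b n t i) * (1 - th i * (cj px (S.val b n t i)).re))) /
    (Q.factorial : ℝ)

/-- The model with the explicit coefficients `Bc`, at the common level `Q`, for the length `X`: as `Mdl` in `H59P/Defs`. -/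
structure MdB (Q X : ℕ) (η E0 : ℝ) (px : Ch) (th : ℤ → ℝ) : Prop where
  eta_pos : 0 < η
  eta_le : η ≤ 1
  mem : px ∈ PC Q
  real : px.2 ^ 2 = 1
  triv : px = p0 → ∀ m, th m = 0
  nonneg : ∀ m, (X : ℤ) ≤ m → m ≤ 4 * X → 0 ≤ th m
  le : ∀ m, (X : ℤ) ≤ m → m ≤ 4 * X → th m ≤ 1 - η
  cf : ∃ eb : Ch → ℝ, (∀ p ∈ PC Q, 0 ≤ eb p) ∧ ∑ p ∈ PC Q, eb p ≤ η * E0 ∧
    ∀ m : ℤ, (X : ℤ) ≤ m → m ≤ 4 * X → ∀ p ∈ PC Q, ‖Bc Q X p m - MX px th m p‖ ≤ eb p

end

end Pool.Agent.H9U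
end

-- from Lib.H9U.M3
section

/-!
# H9U, chunk M3 (M): the mean of the main term modulo `R e`
-/

open Finset

namespace Pool.Agent.H9U

open Pool.Agent.Lib.H68T (PC p0)
open Pool.Agent.Lib.H59P (Ch cj uu gl pr SF)

variable {k d : ℕ} (S : Sys k d) (b : Fin k → ℤ) (t : Fin d → ℤ)

theorem m3_val (n N : ℤ) (i : Fin k) : S.val b (n + N) t i = S.val b n t i + S.a i * N := by
  unfold Sys.val Sys.lin
  ring

/-- Proof. `val (n + N) i = val n i + a_i N`; `gl_per` (`H59P/M3A.lean`), `l ∣ P`. -/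
theorem M3S_W (l P : ℕ) (hlP : l ∣ P) (n : ℤ) :
    WlV l (fun i => S.val b (n + P) t i) = WlV l (fun i => S.val b n t i) := by
  obtain ⟨c, rfl⟩ := hlP
  unfold WlV
  congr 1
  apply Finset.prod_congr rfl
  intro i _
  have h1 : S.val b (n + ((l * c : ℕ) : ℤ)) t i = S.val b n t i + (S.a i * c) * l := by
    rw [m3_val]; push_cast; ring
  beta_reduce
  rw [h1, Pool.Agent.Lib.H59P.gl_per]

theorem m3_uu (R : ℕ) (m j : ℤ) : uu R.primeFactors (m + j * R) = uu R.primeFactors m := by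
  unfold uu
  apply Finset.prod_congr rfl
  intro l hl
  obtain ⟨c, hc⟩ := Nat.dvd_of_mem_primeFactors hl
  have h1 : m + j * (R : ℤ) = m + (j * c) * l := by
    rw [show (R : ℤ) = ((l * c : ℕ) : ℤ) from by rw [← hc]]
    push_cast; ring
  rw [h1, Pool.Agent.Lib.H59P.gl_per]

theorem m3_cj (p : Ch) (R : ℕ) (hd : p.1 ∣ R) (m j : ℤ) : cj p (m + j * R) = cj p m := by
  unfold cj
  have h1 : (((m + j * (R : ℤ) : ℤ)) : ZMod p.1) = (m : ZMod p.1) := by
    push_cast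
    rw [(ZMod.natCast_eq_zero_iff R p.1).2 hd, mul_zero, add_zero]
  rw [h1]

/-- Proof. As `M3f_per` (`H59P/M3F.lean`): `cj (p i)` has period `(p i).1 ∣ R`, `uu R.primeFactors` has period `R`. -/
theorem M3S_P (p : Fin k → Ch) (R : ℕ) (hd : ∀ i, (p i).1 ∣ R) (n : ℤ) :
    PhV p R.primeFactors (fun i => S.val b (n + R) t i) = PhV p R.primeFactors (fun i => S.val b n t i) := by
  unfold PhV
  apply Finset.prod_congr rfl
  intro i _
  beta_reduce
  rw [m3_val, m3_uu, m3_cj (p i) R (hd i)]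

theorem m3_per_prod (T : Finset ℕ) (P : ℕ) (hP : ∀ l ∈ T, l ∣ P) (n : ℤ) :
    ∏ l ∈ T, WlV l (fun i => S.val b (n + P) t i) = ∏ l ∈ T, WlV l (fun i => S.val b n t i) :=
  Finset.prod_congr rfl fun l hl => M3S_W S b t l P (hP l hl) n

theorem m3_prime (l : ℕ) (hl : l.Prime) :
    ∑ n ∈ range l, WlV l (fun i => S.val b n t i) = l * tpS S b t l := by
  have hl0 : (l : ℝ) ≠ 0 := by exact_mod_cast hl.pos.ne'
  unfold tpS WlV
  rw [Finset.sum_sub_distrib, Finset.sum_const, Finset.card_range, nsmul_eq_mul, mul_one]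
  field_simp

theorem m3_set (T : Finset ℕ) : (∀ l ∈ T, l.Prime) →
    ∑ n ∈ range (∏ l ∈ T, l), ∏ l ∈ T, WlV l (fun i => S.val b n t i) = ((∏ l ∈ T, l : ℕ) : ℝ) * ∏ l ∈ T, tpS S b t l := by
  induction T using Finset.induction_on with
  | empty => intro _; simp
  | insert a s ha ih =>
    intro hS
    have hap : a.Prime := hS a (Finset.mem_insert_self _ _)
    have hs : ∀ l ∈ s, l.Prime := fun l hl => hS l (Finset.mem_insert_of_mem hl)
    have hcop : Nat.Coprime a (∏ l ∈ s, l) := by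
      apply Nat.Coprime.prod_right
      intro l hl
      rw [Nat.coprime_primes hap (hs l hl)]
      rintro rfl
      exact ha hl
    have hpos : 0 < ∏ l ∈ s, l := Finset.prod_pos fun l hl => (hs l hl).pos
    have key := Pool.Agent.Lib.H59P.M3d (fun n => ((WlV a (fun i => S.val b n t i) : ℝ) : ℂ))
      (fun n => ((∏ l ∈ s, WlV l (fun i => S.val b n t i) : ℝ) : ℂ)) a
      (∏ l ∈ s, l) hap.pos hpos hcop
      (fun m => by
        show ((WlV a (fun i => S.val b (m + a) t i) : ℝ) : ℂ) = ((WlV a (fun i => S.val b m t i) : ℝ) : ℂ)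
        rw [M3S_W S b t a a dvd_rfl m])
      (fun m => by
        show ((∏ l ∈ s, WlV l (fun i => S.val b (m + ((∏ l ∈ s, l : ℕ) : ℤ)) t i) : ℝ) : ℂ) = ((∏ l ∈ s, WlV l (fun i => S.val b m t i) : ℝ) : ℂ)
        rw [m3_per_prod S b t s _ (fun l hl => Finset.dvd_prod_of_mem _ hl) m])
    have key' : ∑ n ∈ range (a * ∏ l ∈ s, l), WlV a (fun i => S.val b n t i) * ∏ l ∈ s, WlV l (fun i => S.val b n t i) =
        (∑ n ∈ range a, WlV a (fun i => S.val b n t i)) * ∑ n ∈ range (∏ l ∈ s, l), ∏ l ∈ s, WlV l (fun i => S.val b n t i) := by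
      have : ((∑ n ∈ range (a * ∏ l ∈ s, l), WlV a (fun i => S.val b n t i) * ∏ l ∈ s, WlV l (fun i => S.val b n t i) : ℝ) : ℂ) =
          (((∑ n ∈ range a, WlV a (fun i => S.val b n t i)) * ∑ n ∈ range (∏ l ∈ s, l), ∏ l ∈ s, WlV l (fun i => S.val b n t i) : ℝ) : ℂ) := by
        rw [Complex.ofReal_sum, Complex.ofReal_mul, Complex.ofReal_sum, Complex.ofReal_sum]
        rw [← key]
        apply Finset.sum_congr rfl
        intro n _
        rw [Complex.ofReal_mul]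
      exact_mod_cast this
    rw [Finset.prod_insert ha, Finset.prod_insert ha]
    have e1 : ∑ n ∈ range (a * ∏ l ∈ s, l), ∏ l ∈ insert a s, WlV l (fun i => S.val b n t i) =
        ∑ n ∈ range (a * ∏ l ∈ s, l), WlV a (fun i => S.val b n t i) * ∏ l ∈ s, WlV l (fun i => S.val b n t i) := by
      apply Finset.sum_congr rfl
      intro n _
      rw [Finset.prod_insert ha]
    rw [e1, key', ih hs, m3_prime S b t a hap, Nat.cast_mul]
    ring

/-- Proof. As `M3e` (`H59P/M3E.lean`): induction over the prime factors with `M3d`. -/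
theorem M3S_e (e : ℕ) (he : Squarefree e) :
    ∑ n ∈ range e, WdV e (fun i => S.val b n t i) = e * tdS S b t e := by
  have h1 := m3_set S b t e.primeFactors (fun l hl => Nat.prime_of_mem_primeFactors hl)
  rw [Nat.prod_primeFactors_of_squarefree he] at h1
  exact h1

theorem m3_Ph (p : Fin k → Ch) (R : ℕ) (hR : 0 < R) (m : Fin k → ℤ) :
    ‖PhV p R.primeFactors m‖ ≤ ((R : ℝ) / (Nat.totient R : ℝ)) ^ k := by
  have h2 : ‖PhV p R.primeFactors m‖ ≤ ∏ _i : Fin k, ((R : ℝ) / (Nat.totient R : ℝ)) := by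
    unfold PhV
    rw [norm_prod]
    apply Finset.prod_le_prod (fun i _ => norm_nonneg _)
    intro i _
    have h0 := Pool.Agent.Lib.H59P.M3a_uu R hR (m i)
    rw [norm_mul, Complex.norm_real, Real.norm_of_nonneg h0.1]
    have h1 : ‖cj (p i) (m i)‖ ≤ 1 := by
      unfold cj
      rw [RCLike.norm_conj]
      exact DirichletCharacter.norm_le_one _ _
    calc ‖cj (p i) (m i)‖ * uu R.primeFactors (m i) ≤ 1 * uu R.primeFactors (m i) :=
          mul_le_mul_of_nonneg_right h1 h0.1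
      _ = uu R.primeFactors (m i) := one_mul _
      _ ≤ _ := h0.2
  rwa [Finset.prod_const, Finset.card_univ, Fintype.card_fin] at h2

theorem m3_W (l : ℕ) (hl : l.Prime) (m : Fin k → ℤ) :
    |WlV l m| ≤ ((l : ℝ) / ((l : ℝ) - 1)) ^ k := by
  have hc : (1 : ℝ) ≤ ((l : ℝ) / ((l : ℝ) - 1)) ^ k := one_le_pow₀ (Pool.Agent.Lib.H59P.M3a_ratio l hl)
  have h1 : 0 ≤ ∏ i, (1 + gl l (m i)) := Finset.prod_nonneg fun i _ => (Pool.Agent.Lib.H59P.M3a_gl l hl _).1
  have h2 : ∏ i, (1 + gl l (m i)) ≤ ((l : ℝ) / ((l : ℝ) - 1)) ^ k := by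
    calc ∏ i, (1 + gl l (m i)) ≤ ∏ _i : Fin k, ((l : ℝ) / ((l : ℝ) - 1)) :=
          Finset.prod_le_prod (fun i _ => (Pool.Agent.Lib.H59P.M3a_gl l hl _).1) (fun i _ => (Pool.Agent.Lib.H59P.M3a_gl l hl _).2)
      _ = ((l : ℝ) / ((l : ℝ) - 1)) ^ k := by
          rw [Finset.prod_const, Finset.card_univ, Fintype.card_fin]
  unfold WlV
  rw [abs_le]
  constructor <;> linarith

theorem m3_tp (l : ℕ) (hl : l.Prime) : |tpS S b t l| ≤ ((l : ℝ) / ((l : ℝ) - 1)) ^ k := by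
  have hl0 : (0 : ℝ) < l := by exact_mod_cast hl.pos
  have h1 := m3_prime S b t l hl
  have h2 : |(l:ℝ) * tpS S b t l| ≤ l * ((l : ℝ) / ((l : ℝ) - 1)) ^ k := by
    rw [← h1]
    refine le_trans (Finset.abs_sum_le_sum_abs _ _) ?_
    refine le_trans (Finset.sum_le_sum fun n _ => m3_W l hl _) ?_
    rw [Finset.sum_const, Finset.card_range, nsmul_eq_mul]
  rw [abs_mul, abs_of_pos hl0] at h2
  exact le_of_mul_le_mul_left h2 hl0

/-- Proof. Bounds as `M3a_Ph`, `M3a_uu`, `M3a_td` (`H59P/M3A.lean`): `‖PhV p R.primeFactors m‖ ≤ (R/φ(R))^k`, `|WdV e m| ≤ (e/φ(e))^k`,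
`|tdS e| ≤ (e/φ(e))^k` for squarefree `e`, `‖MRS‖ ≤ (R/φ(R))^k`. -/
theorem M3S_bd (p : Fin k → Ch) (R e : ℕ) (hR : 0 < R) (he : Squarefree e) (m : Fin k → ℤ) :
    ‖PhV p R.primeFactors m‖ ≤ ((R : ℝ) / (Nat.totient R : ℝ)) ^ k ∧
    |WdV e m| ≤ ((e : ℝ) / (Nat.totient e : ℝ)) ^ k ∧ |tdS S b t e| ≤ ((e : ℝ) / (Nat.totient e : ℝ)) ^ k ∧
    ‖MRS S b t p R‖ ≤ ((R : ℝ) / (Nat.totient R : ℝ)) ^ k := by
  have he0 : 0 < e := Nat.pos_of_ne_zero he.ne_zero
  refine ⟨m3_Ph p R hR m, ?_, ?_, ?_⟩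
  · rw [← Pool.Agent.Lib.H59P.M3a_prod e he0, ← Finset.prod_pow]
    unfold WdV
    rw [Finset.abs_prod]
    exact Finset.prod_le_prod (fun l _ => abs_nonneg _)
      (fun l hl => m3_W l (Nat.prime_of_mem_primeFactors hl) m)
  · rw [← Pool.Agent.Lib.H59P.M3a_prod e he0, ← Finset.prod_pow]
    unfold tdS
    rw [Finset.abs_prod]
    exact Finset.prod_le_prod (fun l _ => abs_nonneg _)
      (fun l hl => m3_tp S b t l (Nat.prime_of_mem_primeFactors hl))
  · unfold MRS mn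
    rw [norm_div, Complex.norm_natCast, div_le_iff₀ (by exact_mod_cast hR)]
    refine le_trans (norm_sum_le _ _) ?_
    refine le_trans (Finset.sum_le_sum fun n _ => m3_Ph p R hR _) ?_
    rw [Finset.sum_const, Finset.card_range, nsmul_eq_mul, mul_comm]

/-- Proof. As `M3f` (`H59P/M3F.lean`): the summand has period `R e`, is bounded by the product of the bounds `M3S_bd` and has mean
`MRS * tdS e` (`M3d`, coprime moduli, `M3S_e`); `M3c`. -/
theorem M3S (p : Fin k → Ch) (R e : ℕ) (hR : 0 < R) (hd : ∀ i, (p i).1 ∣ R) (hsq : Squarefree e)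
    (hc : Nat.Coprime e R) (a H : ℕ) :
    ‖∑ n ∈ Ico a (a + H), PhV p R.primeFactors (fun i => S.val b n t i) * ((WdV e (fun i => S.val b n t i) : ℝ) : ℂ) -
      H * (MRS S b t p R * ((tdS S b t e : ℝ) : ℂ))‖ ≤
      2 * (R * e) * (((R : ℝ) / (Nat.totient R : ℝ)) * ((e : ℝ) / (Nat.totient e : ℝ))) ^ k := by
  have he0 : 0 < e := Nat.pos_of_ne_zero hsq.ne_zero
  set f : ℤ → ℂ := fun n => PhV p R.primeFactors (fun i => S.val b n t i) with hf
  set g : ℤ → ℂ := fun n => ((WdV e (fun i => S.val b n t i) : ℝ) : ℂ) with hg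
  have hfper : ∀ m, f (m + R) = f m := fun m => M3S_P S b t p R hd m
  have hgper : ∀ m, g (m + e) = g m := by
    intro m
    show ((WdV e (fun i => S.val b (m + e) t i) : ℝ) : ℂ) = ((WdV e (fun i => S.val b m t i) : ℝ) : ℂ)
    have : WdV e (fun i => S.val b (m + e) t i) = WdV e (fun i => S.val b m t i) :=
      m3_per_prod S b t e.primeFactors e (fun l hl => Nat.dvd_of_mem_primeFactors hl) m
    rw [this]
  have hfgper : ∀ m : ℤ, f (m + ((R * e : ℕ) : ℤ)) * g (m + ((R * e : ℕ) : ℤ)) = f m * g m := by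
    intro m
    have e1 : f (m + ((R * e : ℕ) : ℤ)) = f m := by
      have := Pool.Agent.Lib.H59P.m3c_per f R hfper e m
      rw [← this]
      congr 1
      push_cast
      ring
    have e2 : g (m + ((R * e : ℕ) : ℤ)) = g m := by
      have := Pool.Agent.Lib.H59P.m3c_per g e hgper R m
      rw [← this]
      congr 1
    rw [e1, e2]
  have hbd : ∀ m : ℤ, ‖f m * g m‖ ≤
      (((R : ℝ) / (Nat.totient R : ℝ)) * ((e : ℝ) / (Nat.totient e : ℝ))) ^ k := by
    intro m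
    have hb := M3S_bd S b t p R e hR hsq (fun i => S.val b m t i)
    rw [norm_mul, mul_pow]
    apply mul_le_mul
    · exact hb.1
    · show ‖((WdV e (fun i => S.val b m t i) : ℝ) : ℂ)‖ ≤ _
      rw [Complex.norm_real, Real.norm_eq_abs]
      exact hb.2.1
    · exact norm_nonneg _
    · positivity
  have key := Pool.Agent.Lib.H59P.M3c (fun m => f m * g m) (R * e) (Nat.mul_pos hR he0) hfgper _ hbd a H
  have hprod : ∑ n ∈ range (R * e), f n * g n = (∑ n ∈ range R, f n) * ∑ n ∈ range e, g n :=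
    Pool.Agent.Lib.H59P.M3d f g R e hR he0 hc.symm hfper hgper
  have hgsum : ∑ n ∈ range e, g n = e * ((tdS S b t e : ℝ) : ℂ) := by
    have := M3S_e S b t e hsq
    have h2 : ((∑ n ∈ range e, WdV e (fun i => S.val b n t i) : ℝ) : ℂ) = ((e * tdS S b t e : ℝ) : ℂ) := by rw [this]
    rw [Complex.ofReal_sum] at h2
    rw [show ∑ n ∈ range e, g n = ∑ n ∈ range e, ((WdV e (fun i => S.val b (n : ℤ) t i) : ℝ) : ℂ) from rfl, h2]
    push_cast
    rfl
  have hRc : (R : ℂ) ≠ 0 := by exact_mod_cast hR.ne'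
  have hec : (e : ℂ) ≠ 0 := by exact_mod_cast he0.ne'
  have hmean : (∑ n ∈ range (R * e), f n * g n) / ((R * e : ℕ) : ℂ) =
      MRS S b t p R * ((tdS S b t e : ℝ) : ℂ) := by
    rw [hprod, hgsum]
    unfold MRS mn
    push_cast
    field_simp
    rw [mul_comm]
  have key2 : ‖∑ n ∈ Ico a (a + H), f n * g n - H * (MRS S b t p R * ((tdS S b t e : ℝ) : ℂ))‖ ≤
      2 * ((R * e : ℕ) : ℝ) * (((R : ℝ) / (Nat.totient R : ℝ)) * ((e : ℝ) / (Nat.totient e : ℝ))) ^ k := by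
    rw [← hmean]
    exact key
  rw [Nat.cast_mul] at key2
  exact key2

end Pool.Agent.H9U
end

-- from Lib.H9U.M5
section

/-!
# H9U, chunk M5 (M): complete means
-/

open Finset

namespace Pool.Agent.H9U

open Pool.Agent.Lib.H68T (PC p0)
open Pool.Agent.Lib.H59P (Ch cj uu gl pr SF)

variable {k d : ℕ} (S : Sys k d) (b : Fin k → ℤ) (t : Fin d → ℤ)

/-- the local factors at one prime -/
noncomputable def m5_g (l : ℕ) (n : ℤ) : ℂ :=
  ∏ i, (((1 + gl l (S.val b n t i) : ℝ)) : ℂ)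

theorem m5_val (n N : ℤ) (i : Fin k) : S.val b (n + N) t i = S.val b n t i + S.a i * N := by
  unfold Sys.val Sys.lin
  ring

theorem m5_g_per' (l c : ℕ) (n : ℤ) : m5_g S b t l (n + (l * c : ℕ)) = m5_g S b t l n := by
  unfold m5_g
  refine prod_congr rfl fun i _ => ?_
  have e : S.val b n t i + S.a i * ((l * c : ℕ) : ℤ) = S.val b n t i + (S.a i * c) * l := by push_cast; ring
  rw [m5_val, e, Pool.Agent.Lib.H59P.gl_per]

theorem m5_g_per (l : ℕ) (n : ℤ) : m5_g S b t l (n + l) = m5_g S b t l n := by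
  have h1 := m5_g_per' S b t l 1 n
  rwa [mul_one] at h1

theorem m5_g_sum (l : ℕ) (hl : 0 < l) :
    ∑ n ∈ range l, m5_g S b t l n = l * (((1 + tpS S b t l : ℝ)) : ℂ) := by
  have hl0 : (l : ℂ) ≠ 0 := by exact_mod_cast hl.ne'
  unfold tpS m5_g
  push_cast
  field_simp
  ring

theorem m5_ph (p : Fin k → Ch) (A P : Finset ℕ) (hd : Disjoint A P) (n : ℤ) :
    PhV p (A ∪ P) (fun i => S.val b n t i) = PhV p A (fun i => S.val b n t i) * ∏ l ∈ P, m5_g S b t l n := by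
  unfold PhV m5_g uu
  rw [prod_comm (s := P), ← prod_mul_distrib]
  refine prod_congr rfl fun i _ => ?_
  rw [prod_union hd]
  push_cast
  ring

theorem m5_per (p : Fin k → Ch) (R : ℕ) (hd : ∀ i, (p i).1 ∣ R) (j : ℕ) (m : ℤ) :
    PhV p R.primeFactors (fun i => S.val b (m + (R * j : ℕ)) t i) =
      PhV p R.primeFactors (fun i => S.val b m t i) := by
  induction j generalizing m with
  | zero => simp
  | succ j ihj =>
    have e : m + ((R * (j + 1) : ℕ) : ℤ) = (m + ((R * j : ℕ) : ℤ)) + R := by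
      push_cast; ring
    rw [e, M3S_P S b t p R hd, ihj m]

theorem m5_main (R : ℕ) (hR : 0 < R) (p : Fin k → Ch) (hd : ∀ i, (p i).1 ∣ R)
    (P : Finset ℕ) (hP : ∀ l ∈ P, l.Prime ∧ ¬ l ∣ R) :
    ∑ n ∈ range (R * ∏ l ∈ P, l), PhV p R.primeFactors (fun i => S.val b n t i) * ∏ l ∈ P, m5_g S b t l n =
      (∑ n ∈ range R, PhV p R.primeFactors (fun i => S.val b n t i)) *
        ∏ l ∈ P, (l * (((1 + tpS S b t l : ℝ)) : ℂ)) := by
  induction P using Finset.induction_on with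
  | empty => simp
  | insert l P hl ih =>
    have ih := ih fun q hq => hP q (mem_insert_of_mem hq)
    obtain ⟨hlp, hlR⟩ := hP l (mem_insert_self _ _)
    have hSpos : 0 < ∏ q ∈ P, q := prod_pos fun q hq => (hP q (mem_insert_of_mem hq)).1.pos
    have hco : Nat.Coprime (R * ∏ q ∈ P, q) l := by
      rw [Nat.coprime_comm, Nat.Prime.coprime_iff_not_dvd hlp]
      intro hdvd
      rcases (Nat.Prime.dvd_mul hlp).1 hdvd with h1 | h1
      · exact hlR h1
      · obtain ⟨q, hq, hlq⟩ := (Prime.dvd_finsetProd_iff hlp.prime _).1 h1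
        have := (Nat.prime_dvd_prime_iff_eq hlp (hP q (mem_insert_of_mem hq)).1).1 hlq
        exact hl (this ▸ hq)
    have e1 : R * ∏ q ∈ insert l P, q = (R * ∏ q ∈ P, q) * l := by
      rw [prod_insert hl]; ring
    have h3 := Pool.Agent.Lib.H59P.M3d
      (fun n => PhV p R.primeFactors (fun i => S.val b n t i) * ∏ q ∈ P, m5_g S b t q n) (m5_g S b t l)
      (R * ∏ q ∈ P, q) l (Nat.mul_pos hR hSpos) hlp.pos hco (by
        intro m
        have a2 : ∀ q ∈ P, m5_g S b t q (m + (R * ∏ q ∈ P, q : ℕ)) = m5_g S b t q m := by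
          intro q hq
          have : R * ∏ q ∈ P, q = q * (R * ∏ t ∈ P.erase q, t) := by
            rw [← mul_prod_erase P (fun t => t) hq]; ring
          rw [this]
          exact m5_g_per' S b t q _ m
        rw [m5_per S b t p R hd, prod_congr rfl a2]) (m5_g_per S b t l)
    rw [e1, prod_insert hl]
    have e2 : ∑ n ∈ range (R * (∏ q ∈ P, q) * l),
        PhV p R.primeFactors (fun i => S.val b n t i) * ∏ q ∈ insert l P, m5_g S b t q n =
        ∑ n ∈ range (R * (∏ q ∈ P, q) * l),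
          (PhV p R.primeFactors (fun i => S.val b n t i) * ∏ q ∈ P, m5_g S b t q n) * m5_g S b t l n := by
      refine sum_congr rfl fun n _ => ?_
      rw [prod_insert hl]
      ring
    rw [e2, h3, ih, m5_g_sum S b t l hlp.pos]
    ring

/-- Proof. As `M5` (`H59P/M5A.lean`, `M5.lean`): `PhV p (pr Q) m = PhV p R.primeFactors m * ∏_{l ≤ Q, l ∤ R} ∏_i (1 + gl l (m i))`; induction over
the primes `l` with `M3d`. -/
theorem M5S (Q R : ℕ) (hR : 0 < R) (hRQ : R ∣ Q.factorial) (p : Fin k → Ch) (hd : ∀ i, (p i).1 ∣ R) :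
    MRS S b t p R * ((SSS S b t ((pr Q).filter (fun l => ¬ l ∣ R)) : ℝ) : ℂ) = MQS S b t Q p := by
  obtain ⟨P, hSdef⟩ : ∃ P, P = (pr Q).filter (fun l => ¬ l ∣ R) := ⟨_, rfl⟩
  rw [← hSdef]
  have hS : ∀ l ∈ P, (l ≤ Q ∧ l.Prime) ∧ ¬ l ∣ R := by
    intro l hl
    rw [hSdef, mem_filter, pr, mem_filter, mem_Icc] at hl
    exact ⟨⟨hl.1.1.2, hl.1.2⟩, hl.2⟩
  have hSpos : 0 < ∏ q ∈ P, q := prod_pos fun q hq => (hS q hq).1.2.pos
  have hdisj : Disjoint R.primeFactors P := by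
    rw [disjoint_left]
    intro l h1 h2
    exact (hS l h2).2 (Nat.dvd_of_mem_primeFactors h1)
  have hunion : R.primeFactors ∪ P = pr Q := by
    ext l
    rw [mem_union, hSdef, mem_filter, Nat.mem_primeFactors]
    constructor
    · rintro (⟨h1, h2, -⟩ | h1)
      · rw [pr, mem_filter, mem_Icc]
        exact ⟨⟨h1.one_le, (Nat.Prime.dvd_factorial h1).1 (h2.trans hRQ)⟩, h1⟩
      · exact h1.1
    · intro h1
      by_cases h2 : l ∣ R
      · left
        rw [pr, mem_filter] at h1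
        exact ⟨h1.2, h2, hR.ne'⟩
      · exact Or.inr ⟨h1, h2⟩
  have hper : ∀ m : ℤ, PhV p (pr Q) (fun i => S.val b (m + (R * ∏ q ∈ P, q : ℕ)) t i) =
      PhV p (pr Q) (fun i => S.val b m t i) := by
    intro m
    rw [← hunion, m5_ph S b t p _ _ hdisj, m5_ph S b t p _ _ hdisj, m5_per S b t p R hd]
    congr 1
    refine prod_congr rfl fun q hq => ?_
    have : R * ∏ q ∈ P, q = q * (R * ∏ t ∈ P.erase q, t) := by
      rw [← mul_prod_erase P (fun t => t) hq]; ring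
    rw [this]
    exact m5_g_per' S b t q _ m
  have hcop : Nat.Coprime R (∏ q ∈ P, q) := by
    apply Nat.Coprime.prod_right
    intro q hq
    rw [Nat.coprime_comm, Nat.Prime.coprime_iff_not_dvd (hS q hq).1.2]
    exact (hS q hq).2
  have hdvdN : R * ∏ q ∈ P, q ∣ Q.factorial := by
    apply hcop.mul_dvd_of_dvd_of_dvd hRQ
    apply Finset.prod_primes_dvd
    · intro q hq
      exact (hS q hq).1.2.prime
    · intro q hq
      exact (Nat.Prime.dvd_factorial (hS q hq).1.2).2 (hS q hq).1.1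
  obtain ⟨j, hj⟩ := hdvdN
  have hfac : 0 < Q.factorial := Nat.factorial_pos Q
  have hj0 : 0 < j := by
    rcases Nat.eq_zero_or_pos j with rfl | h1
    · rw [mul_zero] at hj
      omega
    · exact h1
  have hsum : ∑ n ∈ range (R * ∏ l ∈ P, l), PhV p (pr Q) (fun i => S.val b n t i) =
      (∑ n ∈ range R, PhV p R.primeFactors (fun i => S.val b n t i)) *
        ∏ l ∈ P, (l * (((1 + tpS S b t l : ℝ)) : ℂ)) := by
    rw [← m5_main S b t R hR p hd P fun l hl => ⟨(hS l hl).1.2, (hS l hl).2⟩]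
    refine sum_congr rfl fun n _ => ?_
    rw [← hunion, m5_ph S b t p _ _ hdisj]
  have hfull := Pool.Agent.Lib.H59P.m5a_full (fun m : ℤ => PhV p (pr Q) (fun i => S.val b m t i))
    (R * ∏ q ∈ P, q) hper j
  unfold MQS MRS SSS mn
  rw [hj, hfull, hsum, prod_mul_distrib]
  have r0 : (R : ℂ) ≠ 0 := by exact_mod_cast hR.ne'
  have j0 : (j : ℂ) ≠ 0 := by exact_mod_cast hj0.ne'
  have s0 : (∏ l ∈ P, (l : ℂ)) ≠ 0 := by
    rw [← Nat.cast_prod]
    exact_mod_cast hSpos.ne'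
  push_cast
  field_simp

/-- Proof. `M5S` with `R = 1`, `p i = p0` (`cj p0 m = 1`), or directly; compare `M5_SS` (`H59P/M5.lean`). -/
theorem M5S_SS (Q : ℕ) :
    (∑ n ∈ range Q.factorial, ∏ i, uu (pr Q) (S.val b n t i)) / (Q.factorial : ℝ) = SSS S b t (pr Q) := by
  have hc : ∀ m : ℤ, cj p0 m = 1 := by
    intro m
    unfold cj p0
    rw [MulChar.one_apply (isUnit_of_subsingleton _), map_one]
  have h1 := M5S S b t Q 1 one_pos (one_dvd _) (fun _ : Fin k => p0) (fun _ => dvd_rfl)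
  have h2 : (pr Q).filter (fun l => ¬ l ∣ 1) = pr Q := by
    apply filter_true_of_mem
    intro l hl h3
    rw [pr, mem_filter] at hl
    exact hl.2.one_lt.ne' (Nat.dvd_one.1 h3)
  have h3 : MRS S b t (fun _ : Fin k => p0) 1 = 1 := by
    unfold MRS mn PhV
    rw [sum_range_one, Nat.primeFactors_one]
    simp [uu, hc]
  rw [h2, h3, one_mul] at h1
  have h4 : MQS S b t Q (fun _ : Fin k => p0) =
      (((∑ n ∈ range Q.factorial, ∏ i, uu (pr Q) (S.val b n t i)) / (Q.factorial : ℝ) : ℝ) : ℂ) := by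
    unfold MQS mn PhV
    push_cast
    congr 1
    refine sum_congr rfl fun n _ => prod_congr rfl fun i _ => ?_
    rw [hc, one_mul]
  rw [h4] at h1
  exact (Complex.ofReal_injective h1).symm

end Pool.Agent.H9U
end

-- from Lib.H9U.C3
section

/-!
# H9U, chunk C3 (M): the sum over the characters against the main term, and a lower bound for the main term
-/

open Finset

namespace Pool.Agent.H9U

open Pool.Agent.Lib.H68T (PC p0)
open Pool.Agent.Lib.H59P (Ch cj uu gl pr SF MX TS)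

variable {k d : ℕ} (S : Sys k d) (b : Fin k → ℤ) (t : Fin d → ℤ)

/-- Proof. As `C3` (`H59P/C3.lean`): both sides are means over `n < Q!` of `∏_i uu (pr Q) (val i) ≥ 0` times the two sides of `c3_pt` at
`m i = val i`. -/
theorem C3S (Q D1 : ℕ) (hQ : 1 ≤ Q) (η E0 : ℝ) (px : Ch) (hpx : px ∈ PC Q) (hreal : px.2 ^ 2 = 1)
    (hcond : px.1 ≤ D1) (hη : 0 < η) (hE0 : 0 ≤ E0) (hE : 4 * k * E0 ≤ 1) (th : Fin k → ℝ)
    (hth0 : ∀ i, 0 ≤ th i) (hth : ∀ i, th i ≤ 1 - η) (htriv : px = p0 → ∀ i, th i = 0)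
    (e : Fin k → Ch → ℂ) (he : ∀ i, ∑ p ∈ PC Q, ‖e i p‖ ≤ η * E0) :
    ‖∑ p ∈ TS k Q D1 px, (∏ i, (MX px (fun _ => th i) 0 (p i) + e i (p i))) * MQS S b t Q p -
      ((PMS S b t Q px th : ℝ) : ℂ)‖ ≤ 1 / 2 * PMS S b t Q px th := by
  have hQ0 : (0 : ℝ) < (Q.factorial : ℝ) := by exact_mod_cast Nat.factorial_pos Q
  have hU : ∀ n : ℤ, 0 ≤ ∏ i : Fin k, uu (pr Q) (S.val b n t i) := fun n =>
    Finset.prod_nonneg fun i _ => Pool.Agent.Lib.H59P.M3a_uu_nonneg _ (Pool.Agent.Lib.H59P.c3_pr Q) _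
  have h1 : ∑ p ∈ TS k Q D1 px, (∏ i, (MX px (fun _ => th i) 0 (p i) + e i (p i))) * MQS S b t Q p =
      (∑ n ∈ range Q.factorial, ((∏ i : Fin k, uu (pr Q) (S.val b (n : ℤ) t i) : ℝ) : ℂ) *
        ∑ p ∈ TS k Q D1 px, ∏ i, ((MX px (fun _ => th i) 0 (p i) + e i (p i)) * cj (p i) (S.val b (n : ℤ) t i))) /
        ((Q.factorial : ℝ) : ℂ) := by
    unfold MQS mn
    rw [Finset.sum_div]
    simp only [Finset.mul_sum, Finset.sum_div, mul_div_assoc']
    rw [Finset.sum_comm]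
    refine Finset.sum_congr rfl fun n _ => ?_
    refine Finset.sum_congr rfl fun p _ => ?_
    unfold PhV
    rw [Finset.prod_mul_distrib, Finset.prod_mul_distrib, Complex.ofReal_prod]
    push_cast
    ring
  have h2 : PMS S b t Q px th = (∑ n ∈ range Q.factorial, (∏ i : Fin k, uu (pr Q) (S.val b (n : ℤ) t i)) *
        ∏ i, (1 - th i * (cj px (S.val b (n : ℤ) t i)).re)) / (Q.factorial : ℝ) := by
    unfold PMS
    congr 1
    refine Finset.sum_congr rfl fun n _ => ?_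
    rw [Finset.prod_mul_distrib]
  rw [h1, h2]
  rw [Complex.ofReal_div, ← sub_div, norm_div, Complex.norm_real, Real.norm_eq_abs, abs_of_pos hQ0, mul_div_assoc']
  refine div_le_div_of_nonneg_right ?_ hQ0.le
  rw [Complex.ofReal_sum, ← Finset.sum_sub_distrib, Finset.mul_sum]
  refine (norm_sum_le _ _).trans (Finset.sum_le_sum fun n _ => ?_)
  rw [Complex.ofReal_mul, ← mul_sub, norm_mul, Complex.norm_real, Real.norm_eq_abs, abs_of_nonneg (hU n)]
  have hpt := Pool.Agent.Lib.H59P.c3_pt Q D1 hQ η E0 px hpx hreal hcond hη hE0 hE th hth0 hth htriv e he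
    (fun i => S.val b (n : ℤ) t i)
  have := mul_le_mul_of_nonneg_left hpt (hU n)
  refine this.trans (le_of_eq ?_)
  ring

/-- Proof. As `Y1` (`H59P/Y1.lean`): `1 - th_i ψ ≥ 1 - th_i ≥ η`, `uu ≥ 0`, `M5S_SS`. -/
theorem Y1S (Q : ℕ) (px : Ch) (hreal : px.2 ^ 2 = 1) (η : ℝ) (hη : 0 < η) (th : Fin k → ℝ) (h0 : ∀ i, 0 ≤ th i)
    (h1 : ∀ i, th i ≤ 1 - η) : η ^ k * SSS S b t (pr Q) ≤ PMS S b t Q px th := by
  have hpr : ∀ l ∈ pr Q, l.Prime := Pool.Agent.Lib.H59P.c3_pr Q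
  have hQ0 : (0 : ℝ) < (Q.factorial : ℝ) := by exact_mod_cast Nat.factorial_pos Q
  have hpt : ∀ n : ℕ, η ^ k * ∏ i, uu (pr Q) (S.val b (n : ℤ) t i) ≤
      ∏ i, (uu (pr Q) (S.val b (n : ℤ) t i) * (1 - th i * (cj px (S.val b (n : ℤ) t i)).re)) := by
    intro n
    have e1 : η ^ k * ∏ i, uu (pr Q) (S.val b (n : ℤ) t i) = ∏ i : Fin k, (uu (pr Q) (S.val b (n : ℤ) t i) * η) := by
      rw [Finset.prod_mul_distrib, Finset.prod_const, Finset.card_univ, Fintype.card_fin, mul_comm]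
    rw [e1]
    refine Finset.prod_le_prod (fun i _ => mul_nonneg (Pool.Agent.Lib.H59P.M3a_uu_nonneg _ hpr _) hη.le) (fun i _ => ?_)
    refine mul_le_mul_of_nonneg_left ?_ (Pool.Agent.Lib.H59P.M3a_uu_nonneg _ hpr _)
    have hc := (Pool.Agent.Lib.H59P.C3a px hreal (S.val b (n : ℤ) t i)).2
    have h2 := (abs_le.mp hc).2
    have h3 := mul_le_mul_of_nonneg_left h2 (h0 i)
    linarith [h1 i]
  rw [← M5S_SS S b t Q]
  unfold PMS
  rw [← mul_div_assoc]
  refine div_le_div_of_nonneg_right ?_ hQ0.le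
  rw [Finset.mul_sum]
  exact Finset.sum_le_sum fun n _ => hpt n

end Pool.Agent.H9U
end

-- from Lib.H9U.T1
section

/-!
# H9U, chunk T1 (M): the local factors of the singular series, lower bound
-/

open Finset

namespace Pool.Agent.H9U

open Pool.Agent.Lib.H59P (Ch cj uu gl pr SF)

variable {k d : ℕ} (S : Sys k d) (b : Fin k → ℤ) (t : Fin d → ℤ)

/-- The number of classes `n` modulo `l` with `l ∣ val n i` for some `i`. -/
noncomputable def nuS (l : ℕ) : ℕ := by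
  classical exact ((range l).filter (fun n : ℕ => ∃ i, (l : ℤ) ∣ S.val b n t i)).card

theorem t1_gl (l : ℕ) (hl : l.Prime) (m : ℤ) :
    1 + gl l m = if (l : ℤ) ∣ m then 0 else (l : ℝ) / ((l : ℝ) - 1) := by
  have h1 : (1 : ℝ) < l := by exact_mod_cast hl.one_lt
  have h2 : (l : ℝ) - 1 ≠ 0 := by linarith
  rw [gl]
  by_cases h : (l : ℤ) ∣ m
  · rw [if_pos h, if_pos h]
    norm_num
  · rw [if_neg h, if_neg h]
    field_simp
    ring

theorem t1_prod (l : ℕ) (hl : l.Prime) (n : ℕ) [Decidable (∃ i, (l : ℤ) ∣ S.val b n t i)] :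
    ∏ i, (1 + gl l (S.val b n t i)) =
      if ∃ i, (l : ℤ) ∣ S.val b n t i then 0 else ((l : ℝ) / ((l : ℝ) - 1)) ^ k := by
  rw [Finset.prod_congr rfl fun i _ => t1_gl l hl (S.val b n t i)]
  split_ifs with hex
  · obtain ⟨i, hi⟩ := hex
    exact Finset.prod_eq_zero (Finset.mem_univ i) (if_pos hi)
  · have h2 : ∀ i ∈ (univ : Finset (Fin k)), (if (l : ℤ) ∣ S.val b n t i then 0 else (l : ℝ) / ((l : ℝ) - 1)) =
        (l : ℝ) / ((l : ℝ) - 1) := fun i _ => if_neg fun hd => hex ⟨i, hd⟩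
    rw [Finset.prod_congr rfl h2, Finset.prod_const, Finset.card_univ, Fintype.card_fin]

theorem t1_nuS (l : ℕ) [DecidablePred fun n : ℕ => ∃ i, (l : ℤ) ∣ S.val b n t i] :
    nuS S b t l = ((range l).filter (fun n : ℕ => ∃ i, (l : ℤ) ∣ S.val b n t i)).card := by
  unfold nuS
  congr

/-- Proof. As `T0_tp` (`H59P/T0.lean`): `∏_i (1 + gl l (val i))` is `0` if `l` divides some value and `(l/(l-1))^k` else. -/
theorem T0S_tp (l : ℕ) (hl : l.Prime) :
    1 + tpS S b t l = (1 - (nuS S b t l : ℝ) / l) * ((l : ℝ) / ((l : ℝ) - 1)) ^ k := by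
  classical
  have hl0 : (l : ℝ) ≠ 0 := by exact_mod_cast hl.ne_zero
  rw [tpS, Finset.sum_congr rfl fun n _ => t1_prod S b t l hl n, Finset.sum_ite, Finset.sum_const_zero,
    zero_add, Finset.sum_const, nsmul_eq_mul]
  have h1 := Finset.card_filter_add_card_filter_not (s := range l) (fun n : ℕ => ∃ i, (l : ℤ) ∣ S.val b n t i)
  rw [card_range] at h1
  have h2 : ((nuS S b t l : ℕ) : ℝ) +
      ((((range l).filter (fun n : ℕ => ¬ ∃ i, (l : ℤ) ∣ S.val b n t i)).card : ℕ) : ℝ) = l := by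
    rw [t1_nuS]
    exact_mod_cast h1
  rw [← eq_sub_iff_add_eq'] at h2
  rw [h2]
  field_simp
  ring

/-- Proof. For each `i` there is at most one class with `l ∣ a_i n + …` if `l ∤ a_i`; if `l ∣ a_i` the divisibility does not depend on `n`, so by
admissibility it never holds. Hence at most `k` classes, and by admissibility not all (`n` may be replaced by its residue). -/
theorem T0S_nu (l : ℕ) (hl : l.Prime) (hA : S.Adm b t) : nuS S b t l ≤ k ∧ nuS S b t l < l := by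
  classical
  obtain ⟨m, hm⟩ := hA l hl
  have hdiff : ∀ (n n' : ℤ) (i : Fin k), S.val b n t i - S.val b n' t i = S.a i * (n - n') := by
    intro n n' i
    simp only [Sys.val, Sys.lin]
    ring
  constructor
  · rw [t1_nuS]
    have h1 : (range l).filter (fun n : ℕ => ∃ i, (l : ℤ) ∣ S.val b n t i) ⊆
        (univ : Finset (Fin k)).biUnion fun i => (range l).filter fun n : ℕ => (l : ℤ) ∣ S.val b n t i := by
      intro n hn
      obtain ⟨h2, i, hi⟩ := mem_filter.1 hn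
      exact mem_biUnion.2 ⟨i, mem_univ i, mem_filter.2 ⟨h2, hi⟩⟩
    refine (card_le_card h1).trans (card_biUnion_le.trans ?_)
    have h3 : ∀ i ∈ (univ : Finset (Fin k)),
        ((range l).filter fun n : ℕ => (l : ℤ) ∣ S.val b n t i).card ≤ 1 := by
      intro i _
      refine card_le_one.2 fun n hn n' hn' => ?_
      obtain ⟨hn1, hn2⟩ := mem_filter.1 hn
      obtain ⟨hn1', hn2'⟩ := mem_filter.1 hn'
      have h4 : (l : ℤ) ∣ S.a i * ((n : ℤ) - n') := by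
        rw [← hdiff]
        exact dvd_sub hn2 hn2'
      have hlp : Prime (l : ℤ) := Nat.prime_iff_prime_int.1 hl
      rcases hlp.dvd_or_dvd h4 with h5 | h5
      · exfalso
        refine hm i ?_
        have h6 : (l : ℤ) ∣ S.val b m t i - S.val b n t i := by
          rw [hdiff]
          exact Dvd.dvd.mul_right h5 _
        have h7 := dvd_add h6 hn2
        rwa [sub_add_cancel] at h7
      · have h6 : (n : ℤ) ≡ n' [ZMOD l] := by
          rw [Int.modEq_iff_dvd]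
          have h7 := (dvd_neg (α := ℤ)).2 h5
          rwa [neg_sub] at h7
        have h7 : n ≡ n' [MOD l] := Int.natCast_modEq_iff.1 h6
        exact Nat.ModEq.eq_of_lt_of_lt h7 (mem_range.1 hn1) (mem_range.1 hn1')
    refine (Finset.sum_le_sum h3).trans ?_
    simp
  · rw [t1_nuS]
    have h1 : ((range l).filter (fun n : ℕ => ∃ i, (l : ℤ) ∣ S.val b n t i)).card < (range l).card := by
      have hl0 : (0 : ℤ) < l := by exact_mod_cast hl.pos
      have hnn : 0 ≤ m % (l : ℤ) := Int.emod_nonneg _ hl0.ne'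
      have hlt : m % (l : ℤ) < l := Int.emod_lt_of_pos _ hl0
      refine Finset.card_lt_card (Finset.filter_ssubset.2 ⟨(m % (l : ℤ)).toNat, mem_range.2 ?_, ?_⟩)
      · have h8 : (((m % (l : ℤ)).toNat : ℕ) : ℤ) < l := by
          rw [Int.toNat_of_nonneg hnn]
          exact hlt
        exact_mod_cast h8
      · rintro ⟨i, hi⟩
        refine hm i ?_
        rw [Int.toNat_of_nonneg hnn] at hi
        have h2 : (l : ℤ) ∣ S.val b m t i - S.val b (m % (l : ℤ)) t i := by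
          rw [hdiff]
          refine Dvd.dvd.mul_left ?_ _
          exact Int.dvd_self_sub_emod
        have h7 := dvd_add h2 hi
        rwa [sub_add_cancel] at h7
    rwa [card_range] at h1

theorem t1_small (hA : S.Adm b t) {l : ℕ} (hl : l.Prime) : ((l : ℝ))⁻¹ ≤ 1 + tpS S b t l := by
  have h1 : (1 : ℝ) < l := by exact_mod_cast hl.one_lt
  have h2 : nuS S b t l + 1 ≤ l := (T0S_nu S b t l hl hA).2
  have h3 : (nuS S b t l : ℝ) + 1 ≤ l := by exact_mod_cast h2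
  have h4 : ((l : ℝ))⁻¹ ≤ 1 - (nuS S b t l : ℝ) / l := by
    rw [inv_eq_one_div, div_le_iff₀ (by linarith), sub_mul, div_mul_cancel₀ _ (by linarith)]
    linarith
  rw [T0S_tp S b t l hl]
  calc ((l : ℝ))⁻¹ = (l : ℝ)⁻¹ * 1 := (mul_one _).symm
    _ ≤ (1 - (nuS S b t l : ℝ) / l) * ((l : ℝ) / ((l : ℝ) - 1)) ^ k :=
      mul_le_mul h4 (Lib.H59P.t1_B hl).1 zero_le_one (le_trans (by positivity) h4)

theorem t1_large (hA : S.Adm b t) {l : ℕ} (hl : l.Prime) (hk : 2 * k < l) :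
    Real.exp (-(2 * (k : ℝ) ^ 2 * ((l : ℝ) ^ 2)⁻¹)) ≤ 1 + tpS S b t l := by
  have h1 : (1 : ℝ) < l := by exact_mod_cast hl.one_lt
  have h0 : (0 : ℝ) < l := by linarith
  have h2 : (nuS S b t l : ℝ) ≤ k := by exact_mod_cast (T0S_nu S b t l hl hA).1
  have h3 : 2 * (k : ℝ) ≤ l := by exact_mod_cast hk.le
  have h4 : (k : ℝ) / l ≤ 1 / 2 := by
    rw [div_le_iff₀ h0]
    linarith
  have h4' : 0 ≤ (k : ℝ) / l := by positivity
  have h5 : Real.exp (-(2 * ((k : ℝ) / l) ^ 2)) ≤ 1 - ((k : ℝ) / l) ^ 2 :=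
    Lib.H59P.t1_exp (by positivity) (by nlinarith)
  have h6 : 2 * (k : ℝ) ^ 2 * ((l : ℝ) ^ 2)⁻¹ = 2 * ((k : ℝ) / l) ^ 2 := by
    rw [div_pow, div_eq_mul_inv, mul_assoc]
  rw [h6]
  refine h5.trans ?_
  rw [T0S_tp S b t l hl]
  have h7 : 1 - (k : ℝ) / l ≤ 1 - (nuS S b t l : ℝ) / l := by
    have := div_le_div_of_nonneg_right h2 h0.le
    linarith
  calc 1 - ((k : ℝ) / l) ^ 2 = (1 - (k : ℝ) / l) * (1 + (k : ℝ) / l) := by ring
    _ ≤ (1 - (nuS S b t l : ℝ) / l) * ((l : ℝ) / ((l : ℝ) - 1)) ^ k :=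
      mul_le_mul h7 (Lib.H59P.t1_B hl).2 (by linarith) (by linarith)

/-- Proof. As `T_lower` (`H59P/T1.lean`), which uses only `nu ≤ k`, `nu < l` and the formula `T0_tp`: for `l ≤ 2k` the factor is at least `1/l`, for
`l > 2k` at least `exp(-2 k²/l²)`. -/
theorem T1S_low (hA : S.Adm b t) (P : Finset ℕ) (hP : ∀ l ∈ P, l.Prime) : Real.exp (-(4 * k : ℝ)) ≤ SSS S b t P := by
  have h0 : SSS S b t P = (∏ l ∈ P.filter (fun l => l ≤ 2 * k), (1 + tpS S b t l)) *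
      ∏ l ∈ P.filter (fun l => ¬ l ≤ 2 * k), (1 + tpS S b t l) := by
    rw [SSS]
    exact (Finset.prod_filter_mul_prod_filter_not P (fun l => l ≤ 2 * k) _).symm
  have h1 : Real.exp (-(2 * k * Real.log 4)) ≤
      ∏ l ∈ P.filter (fun l => l ≤ 2 * k), (1 + tpS S b t l) := by
    refine (Lib.H59P.t1_prodSmall k P hP).trans (Finset.prod_le_prod (fun l _ => by positivity) fun l hl => ?_)
    exact t1_small S b t hA (hP l (mem_filter.1 hl).1)
  have h2 : Real.exp (-(k : ℝ)) ≤ ∏ l ∈ P.filter (fun l => ¬ l ≤ 2 * k), (1 + tpS S b t l) := by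
    have h3 : Real.exp (-(k : ℝ)) ≤
        ∏ l ∈ P.filter (fun l => ¬ l ≤ 2 * k), Real.exp (-(2 * (k : ℝ) ^ 2 * ((l : ℝ) ^ 2)⁻¹)) := by
      rw [← Real.exp_sum, Finset.sum_neg_distrib, ← Finset.mul_sum]
      exact Real.exp_le_exp.2 (neg_le_neg (Lib.H59P.t1_sum k P))
    refine h3.trans (Finset.prod_le_prod (fun l _ => (Real.exp_pos _).le) fun l hl => ?_)
    have h4 := mem_filter.1 hl
    exact t1_large S b t hA (hP l h4.1) (by omega)
  rw [h0]
  refine le_trans ?_ (mul_le_mul h1 h2 (Real.exp_pos _).le (le_trans (Real.exp_pos _).le h1))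
  rw [← Real.exp_add]
  refine Real.exp_le_exp.2 ?_
  have h5 : Real.log 4 = 2 * Real.log 2 := by
    have h6 : (4 : ℝ) = 2 ^ 2 := by norm_num
    rw [h6, Real.log_pow]
    norm_num
  have h7 := Real.log_two_lt_d9
  have h8 : (0 : ℝ) ≤ k := Nat.cast_nonneg k
  rw [h5]
  nlinarith

end Pool.Agent.H9U
end

-- from Lib.H9U.ZDefs
section

/-!
# Project H9U: definitions for modules Z, A and the assembly
-/

open Finset

namespace Pool.Agent.H9U

open Pool.Agent.Lib.H68T (lp Lk PC p0)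
open Pool.Agent.Lib.H18Q (gk KS Bc)
open Pool.Agent.Lib.H59P (Ch SF MX bx TS Rp)

noncomputable section

/-- **The conclusion of module L**: tuples of components whose moduli have a large least common multiple contribute little
on average over `t`. -/
def LBig {k d : ℕ} (S : Sys k d) : Prop :=
  ∃ c C : ℝ, 0 < c ∧ 1 ≤ C ∧ ∀ Q D : ℕ, 1 ≤ D → D ≤ Q → ∀ p : Fin k → Ch, (∀ i, p i ∈ PC Q) →
    ∀ TT : Finset (Fin k → ℕ), TT ⊆ Fintype.piFinset (fun i => KS Q (p i).1) →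
    (∀ κ ∈ TT, D < univ.lcm (fun i => (p i).1 * κ i)) →
    ∀ (b : Fin k → ℤ) (a H T : ℕ), Q ^ (10 * (k + 1)) ≤ H → Q ^ (10 * (k + 1)) ≤ T →
    ∑ t ∈ bx d T, ‖∑ n ∈ Ico a (a + H), ∑ κ ∈ TT, ∏ i, gk (p i) (κ i) (S.val b n (iv t) i)‖ ≤
      C * (1 + Real.log Q) ^ C * ((T : ℝ) ^ d * H) * (D : ℝ) ^ (-c)

/-- The main term of a cell with coefficients `c`, moduli up to `D`, conductors up to `D1`. -/
def MCS {k d : ℕ} (S : Sys k d) (b : Fin k → ℤ) (t : Fin d → ℤ) (Q D D1 : ℕ) (px : Ch) (c : Fin k → Ch → ℂ) : ℂ :=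
  ∑ p ∈ TS k Q D1 px, (∏ i, c i (p i)) *
    (MRS S b t p (Rp px p) * ((∑ e ∈ SF (D / Rp px p) (Rp px p), tdS S b t e : ℝ) : ℂ))

/-- The data of a small level `Q'`: moduli up to `D`, conductors up to `D1`; the coefficients of the characters of conductor
at most `D1` are given by the model `MX px th` up to `η E0`. -/
structure Dat (k Q Q' D D1 D2 : ℕ) (η E0 : ℝ) (px : Ch) (th : ℤ → ℝ) (Xs : Fin k → ℕ) : Prop where
  D2_pos : 1 ≤ D2
  hD2 : px.1 * D2 ≤ D1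
  hD1 : D1 * D1 ≤ D
  hD : D ≤ Q'
  mem : px ∈ PC Q'
  real : px.2 ^ 2 = 1
  eta_pos : 0 < η
  eta_le : η ≤ 1
  E0_nonneg : 0 ≤ E0
  E0_le : 4 * k * E0 ≤ 1
  triv : px = p0 → ∀ m, th m = 0
  nonneg : ∀ i, ∀ m, (Xs i : ℤ) ≤ m → m ≤ 4 * Xs i → 0 ≤ th m
  le : ∀ i, ∀ m, (Xs i : ℤ) ≤ m → m ≤ 4 * Xs i → th m ≤ 1 - η
  cf : ∀ i, ∃ eb : Ch → ℝ, (∀ p ∈ PC Q', 0 ≤ eb p) ∧ ∑ p ∈ PC Q', eb p ≤ η * E0 ∧
    ∀ m : ℤ, (Xs i : ℤ) ≤ m → m ≤ 4 * Xs i → ∀ p ∈ PC Q', p.1 ≤ D1 → ‖Bc Q (Xs i) p m - MX px th m p‖ ≤ eb p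

end

end Pool.Agent.H9U
end

-- from Lib.H9U.Z3
section

/-!
# H9U, chunk Z3 (M): lower bound for the main term of a cell
-/

open Finset

namespace Pool.Agent.H9U

open Pool.Agent.Lib.H68T (PC p0)
open Pool.Agent.Lib.H18Q (gk KS SG)
open Pool.Agent.Lib.H59P (Ch SF bx TS Rp MX pr)

/-- The modulus of a tuple in `TS`. -/
theorem z3_Rp {k : ℕ} (Q D1 : ℕ) (px : Ch) (hpx : px ∈ PC Q) (p : Fin k → Ch) (hp : p ∈ TS k Q D1 px) :
    0 < Rp px p ∧ Rp px p ≤ D1 ∧ (∀ i, (p i).1 ∣ Rp px p) ∧ Rp px p ∣ Q.factorial ∧ ∀ i, p i ∈ PC Q := by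
  unfold TS at hp
  rw [Finset.mem_filter, Fintype.mem_piFinset] at hp
  obtain ⟨hp1, hp2⟩ := hp
  refine ⟨?_, hp2, ?_, ?_, hp1⟩
  · have h1 : (univ.lcm fun i => (p i).1) ≠ 0 := by
      intro h0
      rw [Finset.lcm_eq_zero_iff] at h0
      obtain ⟨i, _, h2⟩ := h0
      have h3 : 0 < (p i).1 := (Pool.Agent.Lib.H68T.mem_PC.mp (hp1 i)).1
      exact h3.ne' h2
    unfold Rp
    exact Nat.lcm_pos (Pool.Agent.Lib.H68T.mem_PC.mp hpx).1 (Nat.pos_of_ne_zero h1)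
  · intro i
    unfold Rp
    exact (Finset.dvd_lcm (f := fun i => (p i).1) (Finset.mem_univ i)).trans (Nat.dvd_lcm_right _ _)
  · unfold Rp
    refine Nat.lcm_dvd (Nat.dvd_factorial (Pool.Agent.Lib.H68T.mem_PC.mp hpx).1
      (Pool.Agent.Lib.H68T.mem_PC.mp hpx).2.1) ?_
    refine Finset.lcm_dvd fun i _ => ?_
    exact Nat.dvd_factorial (Pool.Agent.Lib.H68T.mem_PC.mp (hp1 i)).1 (Pool.Agent.Lib.H68T.mem_PC.mp (hp1 i)).2.1

/-- The truncated and the complete main term of a cell. -/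
theorem z3_trunc {k d : ℕ} (S : Sys k d) (b : Fin k → ℤ) (t : Fin d → ℤ) (Q D D1 : ℕ)
    (hDQ : D ≤ Q) (hD1 : D1 ≤ D) (px : Ch) (hpx : px ∈ PC Q) (hcond : px.1 ≤ D1) (M : ℝ)
    (c : Fin k → Ch → ℂ) (hc : ∀ i, ∑ p ∈ PC Q, ‖c i p‖ ≤ M) (τ : ℝ)
    (hτ : ∀ R : ℕ, 1 ≤ R → R ≤ D1 →
      |∑ e ∈ SF (D / R) R, tdS S b t e - SSS S b t ((pr Q).filter (fun l : ℕ => ¬ l ∣ R))| ≤ τ) :
    ‖MCS S b t Q D D1 px c - ∑ p ∈ TS k Q D1 px, (∏ i, c i (p i)) * MQS S b t Q p‖ ≤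
      (2 * M * (1 + Real.log Q)) ^ k * τ := by
  classical
  have hpos : 0 < D1 := lt_of_lt_of_le (Pool.Agent.Lib.H68T.mem_PC.mp hpx).1 hcond
  have hτ0 : 0 ≤ τ := (abs_nonneg _).trans (hτ 1 le_rfl hpos)
  have hlog0 : 0 ≤ Real.log Q := Real.log_natCast_nonneg Q
  have hterm : ∀ p ∈ TS k Q D1 px,
      ‖(∏ i, c i (p i)) * (MRS S b t p (Rp px p) *
          ((∑ e ∈ SF (D / Rp px p) (Rp px p), tdS S b t e : ℝ) : ℂ)) -
        (∏ i, c i (p i)) * MQS S b t Q p‖ ≤ (∏ i, ‖c i (p i)‖) * ((2 * (1 + Real.log Q)) ^ k * τ) := by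
    intro p hp
    obtain ⟨hR0, hRle, hd, hfac, -⟩ := z3_Rp Q D1 px hpx p hp
    have hRQ : Rp px p ≤ Q := hRle.trans (hD1.trans hDQ)
    have hR0' : (0 : ℝ) < (Rp px p : ℝ) := by exact_mod_cast hR0
    have h1 : ‖MRS S b t p (Rp px p)‖ ≤ (2 * (1 + Real.log Q)) ^ k := by
      refine (M3S_bd S b t p (Rp px p) 1 hR0 squarefree_one (fun _ => 0)).2.2.2.trans ?_
      refine pow_le_pow_left₀ (by positivity) ?_ k
      refine (Pool.Agent.Lib.H59P.M3b (Rp px p) hR0).trans ?_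
      have hlog : Real.log (Rp px p : ℝ) ≤ Real.log Q := Real.log_le_log hR0' (by exact_mod_cast hRQ)
      linarith
    rw [← M5S S b t Q (Rp px p) hR0 hfac p hd, ← mul_sub, ← mul_sub, norm_mul, norm_mul, norm_prod,
      ← Complex.ofReal_sub, Complex.norm_real, Real.norm_eq_abs]
    have h2 := hτ (Rp px p) hR0 hRle
    have h3 : ‖MRS S b t p (Rp px p)‖ * |∑ e ∈ SF (D / Rp px p) (Rp px p), tdS S b t e -
        SSS S b t ((pr Q).filter (fun l => ¬ l ∣ Rp px p))| ≤ (2 * (1 + Real.log Q)) ^ k * τ :=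
      mul_le_mul h1 h2 (abs_nonneg _) (by positivity)
    exact mul_le_mul_of_nonneg_left h3 (Finset.prod_nonneg fun i _ => norm_nonneg _)
  have hsum : ∑ p ∈ TS k Q D1 px, ∏ i, ‖c i (p i)‖ ≤ M ^ k := by
    calc ∑ p ∈ TS k Q D1 px, ∏ i, ‖c i (p i)‖
        ≤ ∑ p ∈ Fintype.piFinset fun _ : Fin k => PC Q, ∏ i, ‖c i (p i)‖ := by
          refine Finset.sum_le_sum_of_subset_of_nonneg ?_ ?_
          · intro p hp
            unfold TS at hp
            exact (Finset.mem_filter.mp hp).1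
          · intro p _ _
            exact Finset.prod_nonneg fun i _ => norm_nonneg _
      _ = ∏ i, ∑ q ∈ PC Q, ‖c i q‖ := by
          rw [Finset.prod_univ_sum]
      _ ≤ ∏ _i : Fin k, M :=
          Finset.prod_le_prod (fun i _ => Finset.sum_nonneg fun _ _ => norm_nonneg _) fun i _ => hc i
      _ = M ^ k := by
          rw [Finset.prod_const, Finset.card_univ, Fintype.card_fin]
  unfold MCS
  rw [← Finset.sum_sub_distrib]
  refine (norm_sum_le _ _).trans ?_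
  refine (Finset.sum_le_sum hterm).trans ?_
  rw [← Finset.sum_mul]
  have h6 : (2 * M * (1 + Real.log Q)) ^ k * τ = M ^ k * ((2 * (1 + Real.log Q)) ^ k * τ) := by
    rw [← mul_assoc, ← mul_pow]
    ring
  rw [h6]
  exact mul_le_mul_of_nonneg_right hsum (by positivity)

/-- Proof. As `Z3a` and `Z3` (`H59P/Z3A.lean`, `Z3.lean`). For `p ∈ TS k Q D1 px`, `R = Rp px p` (`1 ≤ R ≤ D1`, all conductors divide `R`, so are `≤ D1`; `R ∣ Q!`):
`‖MRS‖ ≤ (R/φ(R))^k ≤ (2(1+log Q))^k` (`M3S_bd`, `M3b`), and `MRS · SSS(primes ∤ R) = MQS` (`M5S`). So `MCS` is `∑_{p ∈ TS} ∏ c_i(p_i) MQS` up to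
`(2 M (1+log Q))^k τ`. With `e i p = c i p - MX px (fun _ => th i) 0 p` if `p ∈ PC Q` and `p.1 ≤ D1`, and `0` else (this does not change the sum over `TS`), `C3S`: the real part of
that sum is at least `PMS/2`, and `PMS ≥ η^k SSS (pr Q) ≥ η^k exp(-4k)` (`Y1S`, `T1S_low`; `px.1 ≤ D1`). -/
theorem Z3S {k d : ℕ} (S : Sys k d) (b : Fin k → ℤ) (t : Fin d → ℤ) (hA : S.Adm b t) (Q D D1 : ℕ) (hQ : 1 ≤ Q)
    (hDQ : D ≤ Q) (hD1 : D1 ≤ D) (px : Ch) (hpx : px ∈ PC Q) (hreal : px.2 ^ 2 = 1) (hcond : px.1 ≤ D1)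
    (η E0 : ℝ) (hη : 0 < η) (hE0 : 0 ≤ E0) (hE : 4 * k * E0 ≤ 1) (th : Fin k → ℝ) (hth0 : ∀ i, 0 ≤ th i)
    (hth : ∀ i, th i ≤ 1 - η) (htriv : px = p0 → ∀ i, th i = 0) (M : ℝ) (hM : 1 ≤ M)
    (c : Fin k → Ch → ℂ) (hc : ∀ i, ∑ p ∈ PC Q, ‖c i p‖ ≤ M) (eb : Fin k → Ch → ℝ)
    (heb0 : ∀ i, ∀ p ∈ PC Q, 0 ≤ eb i p) (heb : ∀ i, ∑ p ∈ PC Q, eb i p ≤ η * E0)
    (hce : ∀ i, ∀ p ∈ PC Q, p.1 ≤ D1 → ‖c i p - MX px (fun _ => th i) 0 p‖ ≤ eb i p) (τ : ℝ)
    (hτ : ∀ R : ℕ, 1 ≤ R → R ≤ D1 →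
      |∑ e ∈ SF (D / R) R, tdS S b t e - SSS S b t ((pr Q).filter (fun l : ℕ => ¬ l ∣ R))| ≤ τ) :
    η ^ k * Real.exp (-(4 * k : ℝ)) / 2 - (2 * M * (1 + Real.log Q)) ^ k * τ ≤ (MCS S b t Q D D1 px c).re := by
  classical
  have z1 := z3_trunc S b t Q D D1 hDQ hD1 px hpx hcond M c hc τ hτ
  let e : Fin k → Ch → ℂ := fun i p => if p.1 ≤ D1 then c i p - MX px (fun _ => th i) 0 p else 0
  have he : ∀ i, ∑ p ∈ PC Q, ‖e i p‖ ≤ η * E0 := by
    intro i
    refine (Finset.sum_le_sum fun p hp => ?_).trans (heb i)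
    show ‖if p.1 ≤ D1 then c i p - MX px (fun _ => th i) 0 p else 0‖ ≤ eb i p
    split_ifs with h1
    · exact hce i p hp h1
    · rw [norm_zero]
      exact heb0 i p hp
  have z2 := C3S S b t Q D1 hQ η E0 px hpx hreal hcond hη hE0 hE th hth0 hth htriv e he
  have hS : ∑ p ∈ TS k Q D1 px, (∏ i, (MX px (fun _ => th i) 0 (p i) + e i (p i))) * MQS S b t Q p =
      ∑ p ∈ TS k Q D1 px, (∏ i, c i (p i)) * MQS S b t Q p := by
    refine Finset.sum_congr rfl fun p hp => ?_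
    obtain ⟨hR0, hRle, hd, -, -⟩ := z3_Rp Q D1 px hpx p hp
    congr 1
    refine Finset.prod_congr rfl fun i _ => ?_
    have h1 : (p i).1 ≤ D1 := (Nat.le_of_dvd hR0 (hd i)).trans hRle
    show MX px (fun _ => th i) 0 (p i) + (if (p i).1 ≤ D1 then c i (p i) - MX px (fun _ => th i) 0 (p i) else 0) = c i (p i)
    rw [if_pos h1]
    ring
  rw [hS] at z2
  obtain ⟨T, hT⟩ : ∃ T, T = ∑ p ∈ TS k Q D1 px, (∏ i, c i (p i)) * MQS S b t Q p := ⟨_, rfl⟩
  obtain ⟨P, hP⟩ : ∃ P, P = PMS S b t Q px th := ⟨_, rfl⟩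
  rw [← hT, ← hP] at z2
  rw [← hT] at z1
  have y2 : -(1 / 2 * P) ≤ (T - ((P : ℝ) : ℂ)).re := by
    have := (Complex.abs_re_le_norm (T - ((P : ℝ) : ℂ))).trans z2
    exact (abs_le.1 this).1
  rw [Complex.sub_re, Complex.ofReal_re] at y2
  have y1 := (abs_le.1 ((Complex.abs_re_le_norm _).trans z1)).1
  rw [Complex.sub_re] at y1
  have y3 : η ^ k * Real.exp (-(4 * k : ℝ)) ≤ P := by
    rw [hP]
    refine le_trans ?_ (Y1S S b t Q px hreal η hη th hth0 hth)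
    exact mul_le_mul_of_nonneg_left (T1S_low S b t hA (pr Q) (Pool.Agent.Lib.H59P.c3_pr Q)) (by positivity)
  linarith

end Pool.Agent.H9U
end

-- from Lib.H9U.T2
section

/-!
# H9U, chunk T2 (M): the local factors of the singular series, upper bounds; the tail (Rankin)
-/

open Finset

namespace Pool.Agent.H9U

open Pool.Agent.Lib.H59P (Ch cj uu gl pr SF)

variable {k d : ℕ} (S : Sys k d) (b : Fin k → ℤ) (t : Fin d → ℤ)

/-- The minor `a_i φ_j - a_j φ_i`, a function of `t` only. -/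
def Sys.minr (i j : Fin k) : ℤ := S.a i * S.val b 0 t j - S.a j * S.val b 0 t i

theorem t2_val (n : ℤ) (i : Fin k) : S.val b n t i = S.a i * n + S.val b 0 t i := by
  unfold Sys.val Sys.lin
  ring

theorem t2_root (l : ℕ) (hl : l.Prime) (a c : ℤ) (ha : ¬ (l : ℤ) ∣ a) : ∃ r : ℕ, r < l ∧ (l : ℤ) ∣ a * r + c := by
  have hco : IsCoprime a (l : ℤ) := by
    rw [isCoprime_comm]
    exact (Nat.prime_iff_prime_int.1 hl).coprime_iff_not_dvd.2 ha
  obtain ⟨u, v, huv⟩ := hco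
  have hl0 : (0 : ℤ) < l := by exact_mod_cast hl.pos
  refine ⟨((-(c * u)) % l).toNat, ?_, ?_⟩
  · have h1 := Int.emod_lt_of_pos (-(c * u)) hl0
    have h2 := Int.emod_nonneg (-(c * u)) hl0.ne'
    omega
  · rw [Int.toNat_of_nonneg (Int.emod_nonneg _ hl0.ne')]
    have h1 := Int.emod_add_mul_ediv (-(c * u)) l
    have h2 : (-(c * u)) % (l : ℤ) = -(c * u) - l * (-(c * u) / l) := by linarith
    rw [h2]
    refine ⟨c * v - a * (-(c * u) / l), ?_⟩
    linear_combination (-c) * huv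

theorem t2_uniq (l : ℕ) (hl : l.Prime) (a c : ℤ) (ha : ¬ (l : ℤ) ∣ a) {r s : ℕ} (hr : r < l) (hs : s < l)
    (h1 : (l : ℤ) ∣ a * r + c) (h2 : (l : ℤ) ∣ a * s + c) : r = s := by
  have h3 : (l : ℤ) ∣ a * ((r : ℤ) - s) := by
    have := dvd_sub h1 h2
    rwa [show a * (r : ℤ) + c - (a * s + c) = a * ((r : ℤ) - s) by ring] at this
  have h4 := ((Nat.prime_iff_prime_int.1 hl).dvd_or_dvd h3).resolve_left ha
  have h5 : (r : ℤ) - s = 0 := Int.eq_zero_of_abs_lt_dvd h4 (by rw [abs_lt]; constructor <;> omega)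
  omega

theorem t2_nu (l : ℕ) (hl : l.Prime) (ha : ∀ i, ¬ (l : ℤ) ∣ S.a i) :
    nuS S b t l ≤ k ∧ ((∀ i j, i ≠ j → ¬ (l : ℤ) ∣ S.minr b t i j) → nuS S b t l = k) := by
  classical
  choose r hr1 hr2 using fun i => t2_root l hl (S.a i) (S.val b 0 t i) (ha i)
  have hcard : nuS S b t l = (univ.image r).card := by
    unfold nuS
    congr 1
    ext n
    rw [mem_filter, mem_image, mem_range]
    constructor
    · rintro ⟨hn, i, hi⟩
      rw [t2_val] at hi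
      exact ⟨i, mem_univ _, t2_uniq l hl _ _ (ha i) (hr1 i) hn (hr2 i) hi⟩
    · rintro ⟨i, -, rfl⟩
      refine ⟨hr1 i, i, ?_⟩
      rw [t2_val]
      exact hr2 i
  refine ⟨?_, fun hm => ?_⟩
  · rw [hcard]
    exact card_image_le.trans (by rw [card_univ, Fintype.card_fin])
  · rw [hcard, card_image_of_injective _ ?_, card_univ, Fintype.card_fin]
    intro i j hij
    by_contra hne
    apply hm i j hne
    have h1 := hr2 i
    have h2 := hr2 j
    rw [← hij] at h2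
    have h3 := dvd_sub (Dvd.dvd.mul_left h2 (S.a i)) (Dvd.dvd.mul_left h1 (S.a j))
    unfold Sys.minr
    rwa [show S.a i * (S.a j * (r i : ℤ) + S.val b 0 t j) - S.a j * (S.a i * (r i : ℤ) + S.val b 0 t i) =
      S.a i * S.val b 0 t j - S.a j * S.val b 0 t i by ring] at h3

theorem t2_nule (l : ℕ) : nuS S b t l ≤ l := by
  unfold nuS
  exact (card_filter_le _ _).trans (by rw [card_range])

/-- Proof. `T0S_tp`; `l > 2k` prime to all `a_i`: every form has exactly one root modulo `l`, so `1 ≤ ν ≤ k` (or `k = 0`), and `ν = k` if no minor is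
divisible by `l` (the roots of `i` and `j` agree iff `l ∣ minr i j`). `(1 - ν/l)(1 + 1/(l-1))^k`: `|…- 1| ≤ C/l` in general and `≤ C/l²` if `ν = k`,
with `C = 2^(k+3) (k+1)^2` or any explicit bound (`(1+1/(l-1))^k ≤ 1 + k/(l-1) + 2^k/(l-1)²`-type estimates; compare `T2_large`). For the other
`l` (`l ≤ 2k` or `l` divides some `a_i`) `|tpS| ≤ 2^k`. -/
theorem T2S_bd (l : ℕ) (hl : l.Prime) :
    |tpS S b t l| ≤ 2 ^ k ∧
    (2 * k < l → (∀ i, ¬ (l : ℤ) ∣ S.a i) → |tpS S b t l| ≤ 4 ^ (k + 3) / l ∧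
      ((∀ i j, i ≠ j → ¬ (l : ℤ) ∣ S.minr b t i j) → |tpS S b t l| ≤ 4 ^ (k + 3) / (l : ℝ) ^ 2)) := by
  have hl1 : (1 : ℝ) < l := by exact_mod_cast hl.one_lt
  have hl2' : (2 : ℝ) ≤ l := by exact_mod_cast hl.two_le
  have hl0 : (0 : ℝ) < l := by linarith
  have hl2 : (0 : ℝ) < (l : ℝ) - 1 := by linarith
  have hT := T0S_tp S b t l hl
  have hnl : (nuS S b t l : ℝ) ≤ l := by exact_mod_cast t2_nule S b t l
  have hn0 : (0 : ℝ) ≤ nuS S b t l := Nat.cast_nonneg _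
  obtain ⟨hB1, hB2⟩ := Pool.Agent.Lib.H59P.t2_B (k := k) hl
  set B := ((l : ℝ) / ((l : ℝ) - 1)) ^ k with hB
  have hB0 : 0 ≤ B := by linarith
  have hq0 : 0 ≤ 1 - (nuS S b t l : ℝ) / l := by
    rw [sub_nonneg, div_le_one hl0]; exact hnl
  have hq1 : 1 - (nuS S b t l : ℝ) / l ≤ 1 := by
    have : 0 ≤ (nuS S b t l : ℝ) / l := by positivity
    linarith
  refine ⟨?_, fun hk ha => ?_⟩
  · have hB4 : B ≤ 2 ^ k := by
      refine pow_le_pow_left₀ (by positivity) ?_ k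
      rw [div_le_iff₀ hl2]
      linarith
    have h1 : 0 ≤ 1 + tpS S b t l := by rw [hT]; exact mul_nonneg hq0 hB0
    have h2 : 1 + tpS S b t l ≤ B := by
      rw [hT]
      exact mul_le_of_le_one_left hB0 hq1
    rw [abs_le]
    constructor <;> linarith
  · obtain ⟨hnk, hnk'⟩ := t2_nu S b t l hl ha
    have hB3 : B ≤ 3 := by
      have h3 : (l : ℝ) / ((l : ℝ) - 1) = 1 / ((l : ℝ) - 1) + 1 := by
        field_simp
        ring
      have h4 : (l : ℝ) / ((l : ℝ) - 1) ≤ Real.exp (1 / ((l : ℝ) - 1)) := by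
        rw [h3]
        exact Real.add_one_le_exp _
      have h5 : B ≤ Real.exp (1 / ((l : ℝ) - 1)) ^ k :=
        pow_le_pow_left₀ (by positivity) h4 k
      refine h5.trans ?_
      rw [← Real.exp_nat_mul]
      have h6 : (k : ℝ) * (1 / ((l : ℝ) - 1)) ≤ 1 := by
        rw [mul_one_div, div_le_one hl2]
        have h7 : k + 1 ≤ l := by omega
        have h8 : ((k + 1 : ℕ) : ℝ) ≤ l := by exact_mod_cast h7
        push_cast at h8
        linarith
      refine (Real.exp_le_exp.2 h6).trans ?_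
      linarith [Real.exp_one_lt_d9]
    have h1 : (nuS S b t l : ℝ) ≤ k := by exact_mod_cast hnk
    have hkl : (k : ℝ) / l ≤ 1 := by
      rw [div_le_one hl0]
      have h9 : k ≤ l := by omega
      exact_mod_cast h9
    have hb1 : (1 - (k : ℝ) / l) * B ≤ 1 := by
      have h3 : 1 - (k : ℝ) / l ≤ (1 + -(1 / (l : ℝ))) ^ k := by
        refine le_trans (le_of_eq ?_) (one_add_mul_le_pow (a := -(1 / (l : ℝ))) ?_ k)
        · ring
        · have h4 : 1 / (l : ℝ) ≤ 1 := (div_le_one hl0).2 hl1.le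
          linarith
      have h5 : (1 + -(1 / (l : ℝ))) ^ k * B = 1 := by
        rw [hB, ← mul_pow]
        have h6 : (1 + -(1 / (l : ℝ))) * ((l : ℝ) / ((l : ℝ) - 1)) = 1 := by
          field_simp
          ring
        rw [h6, one_pow]
      calc (1 - (k : ℝ) / l) * B ≤ (1 + -(1 / (l : ℝ))) ^ k * B :=
            mul_le_mul_of_nonneg_right h3 hB0
        _ = 1 := h5
    have hb2 : 1 - (k : ℝ) ^ 2 / (l : ℝ) ^ 2 ≤ (1 - (k : ℝ) / l) * B := by
      have h3 : (1 - (k : ℝ) / l) * (1 + (k : ℝ) / l) ≤ (1 - (k : ℝ) / l) * B :=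
        mul_le_mul_of_nonneg_left hB2 (by linarith)
      refine le_trans (le_of_eq ?_) h3
      ring
    have htp : tpS S b t l = ((1 - (k : ℝ) / l) * B - 1) + ((k : ℝ) - nuS S b t l) / l * B := by
      have h4 : tpS S b t l = (1 - (nuS S b t l : ℝ) / l) * B - 1 := by linarith
      rw [h4]
      ring
    have hg0 : 0 ≤ ((k : ℝ) - nuS S b t l) / l * B := mul_nonneg (div_nonneg (by linarith) hl0.le) hB0
    have hk4 : (k : ℝ) ≤ 4 ^ k := by
      have : k < 4 ^ k := Nat.lt_pow_self (by norm_num)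
      exact_mod_cast this.le
    have hk0 : (0 : ℝ) ≤ k := Nat.cast_nonneg k
    have hk22 : (k : ℝ) ^ 2 ≤ 4 ^ (k + 3) := by
      have h2k : (k : ℝ) ≤ 2 ^ k := by
        have : k < 2 ^ k := Nat.lt_two_pow_self
        exact_mod_cast this.le
      have h4k : (k : ℝ) ^ 2 ≤ 4 ^ k := by
        have h5 : (k : ℝ) ^ 2 ≤ (2 ^ k) ^ 2 := pow_le_pow_left₀ hk0 h2k 2
        have h6 : ((2 : ℝ) ^ k) ^ 2 = 4 ^ k := by
          rw [← pow_mul, mul_comm, pow_mul]
          norm_num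
        rwa [h6] at h5
      have h7 : (4 : ℝ) ^ k ≤ 4 ^ (k + 3) := pow_le_pow_right₀ (by norm_num) (by omega)
      linarith
    have hk2l : 0 ≤ (k : ℝ) ^ 2 / (l : ℝ) ^ 2 := by positivity
    refine ⟨?_, fun hm => ?_⟩
    · have e1 : (k : ℝ) ^ 2 / (l : ℝ) ^ 2 ≤ (k : ℝ) / l := by
        have : (k : ℝ) ^ 2 / (l : ℝ) ^ 2 = (k : ℝ) / l * ((k : ℝ) / l) := by ring
        rw [this]
        exact mul_le_of_le_one_right (by positivity) hkl
      have e2 : ((k : ℝ) - nuS S b t l) / l * B ≤ (k : ℝ) / l * 3 :=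
        mul_le_mul (div_le_div_of_nonneg_right (by linarith) hl0.le) hB3 hB0 (by positivity)
      have e3 : 4 * ((k : ℝ) / l) ≤ 4 ^ (k + 3) / l := by
        rw [mul_div_assoc']
        refine div_le_div_of_nonneg_right ?_ hl0.le
        have : (4 : ℝ) ^ (k + 3) = 64 * 4 ^ k := by rw [pow_add]; norm_num; ring
        rw [this]
        linarith
      have e4 : 0 ≤ (k : ℝ) / l := by positivity
      rw [htp, abs_le]
      constructor <;> linarith
    · have hν : (nuS S b t l : ℝ) = k := by exact_mod_cast hnk' hm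
      have e5 : (k : ℝ) ^ 2 / (l : ℝ) ^ 2 ≤ 4 ^ (k + 3) / (l : ℝ) ^ 2 :=
        div_le_div_of_nonneg_right hk22 (by positivity)
      rw [htp, hν, sub_self, zero_div, zero_mul, add_zero, abs_le]
      constructor <;> linarith

/-- `∏_{l ≤ X} (1 + l^η |tpS l|)` -/
noncomputable def RPS (η : ℝ) (X : ℕ) : ℝ := ∏ l ∈ pr X, (1 + (l : ℝ) ^ η * |tpS S b t l|)

theorem t2_SS (P : Finset ℕ) :
    SSS S b t P = ∑ V ∈ P.powerset, ∏ l ∈ V, tpS S b t l := by
  rw [SSS, Finset.prod_one_add]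

theorem t2_tail (η E0 : ℝ) (hη : 0 ≤ η) (hE0 : 0 < E0) (X : ℕ) (T : Finset ℕ)
    (hT : ∀ e ∈ T, Squarefree e ∧ (∀ l ∈ e.primeFactors, l ≤ X) ∧ E0 ≤ (e : ℝ)) :
    ∑ e ∈ T, |tdS S b t e| ≤ E0 ^ (-η) * RPS S b t η X := by
  classical
  have h1 : ∀ e ∈ T, |tdS S b t e| ≤ E0 ^ (-η) * ∏ l ∈ e.primeFactors, ((l : ℝ) ^ η * |tpS S b t l|) := by
    intro e hd
    obtain ⟨hsq, -, hle⟩ := hT e hd
    have h2 : ∏ l ∈ e.primeFactors, ((l : ℝ) ^ η * |tpS S b t l|) = (e : ℝ) ^ η * |tdS S b t e| := by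
      rw [Finset.prod_mul_distrib, tdS, Finset.abs_prod]
      congr 1
      rw [Real.finsetProd_rpow _ _ fun l _ => Nat.cast_nonneg l]
      congr 1
      have h3 := Nat.prod_primeFactors_of_squarefree hsq
      rw [← Nat.cast_prod, h3]
    rw [h2, ← mul_assoc]
    have h4 : 1 ≤ E0 ^ (-η) * (e : ℝ) ^ η := by
      rw [Real.rpow_neg hE0.le, inv_mul_eq_div, le_div_iff₀ (Real.rpow_pos_of_pos hE0 _), one_mul]
      exact Real.rpow_le_rpow hE0.le hle hη
    exact le_mul_of_one_le_left (abs_nonneg _) h4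
  refine (Finset.sum_le_sum h1).trans ?_
  rw [← Finset.mul_sum]
  refine mul_le_mul_of_nonneg_left ?_ (Real.rpow_nonneg hE0.le _)
  have hinj : Set.InjOn Nat.primeFactors (T : Set ℕ) := by
    intro e hd e' hd' hdd
    have h2 := Nat.prod_primeFactors_of_squarefree (hT e hd).1
    have h3 := Nat.prod_primeFactors_of_squarefree (hT e' hd').1
    rw [← h2, ← h3, hdd]
  rw [RPS, Finset.prod_one_add,
    ← Finset.sum_image (f := fun V : Finset ℕ => ∏ l ∈ V, ((l : ℝ) ^ η * |tpS S b t l|)) hinj]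
  refine Finset.sum_le_sum_of_subset_of_nonneg ?_ ?_
  · intro V hS
    obtain ⟨e, hd, rfl⟩ := mem_image.1 hS
    rw [mem_powerset]
    intro l hl
    exact Pool.Agent.Lib.H59P.mem_pr.2 ⟨(hT e hd).2.1 l hl, Nat.prime_of_mem_primeFactors hl⟩
  · intro V _ _
    exact Finset.prod_nonneg fun l _ => mul_nonneg (Real.rpow_nonneg (Nat.cast_nonneg l) _)
      (abs_nonneg _)

theorem t2_diff (η E0 : ℝ) (hη : 0 ≤ η) (hE0 : 0 < E0) (X z R E : ℕ) (hz : z ≤ X) (hE : E ≤ X)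
    (h1 : E0 ≤ (z : ℝ)) (h2 : E0 ≤ (E : ℝ)) :
    |∑ e ∈ SF E R, tdS S b t e - SSS S b t ((pr z).filter (fun l : ℕ => ¬ l ∣ R))| ≤ E0 ^ (-η) * RPS S b t η X := by
  classical
  set P : Finset ℕ := (pr z).filter (fun l : ℕ => ¬ l ∣ R) with hP
  have hPm : ∀ l, l ∈ P ↔ (l ≤ z ∧ l.Prime) ∧ ¬ l ∣ R := by
    intro l
    rw [hP, mem_filter, Pool.Agent.Lib.H59P.mem_pr]
  set A : Finset ℕ := P.powerset.image fun V => ∏ l ∈ V, l with hA
  have hpf : ∀ V ∈ P.powerset, (∏ l ∈ V, l).primeFactors = V := by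
    intro V hS
    exact Nat.primeFactors_prod fun l hl => ((hPm l).1 (mem_powerset.1 hS hl)).1.2
  have hSA : SSS S b t P = ∑ e ∈ A, tdS S b t e := by
    rw [t2_SS, hA, Finset.sum_image]
    · refine Finset.sum_congr rfl fun V hS => ?_
      rw [tdS, hpf V hS]
    · intro V hS V' hS' hSS
      have h3 := congrArg Nat.primeFactors hSS
      rwa [hpf V hS, hpf V' hS'] at h3
  have hAm : ∀ e, e ∈ A ↔ Squarefree e ∧ e.primeFactors ⊆ P := by
    intro e
    rw [hA, mem_image]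
    constructor
    · rintro ⟨V, hS, rfl⟩
      refine ⟨?_, ?_⟩
      · refine Finset.squarefree_prod_of_pairwise_isCoprime ?_ ?_
        · intro a ha c hb hab
          have ha' := ((hPm a).1 (mem_powerset.1 hS ha)).1.2
          have hb' := ((hPm c).1 (mem_powerset.1 hS hb)).1.2
          exact Nat.coprime_iff_isRelPrime.1 ((Nat.coprime_primes ha' hb').2 hab)
        · intro a ha
          exact ((hPm a).1 (mem_powerset.1 hS ha)).1.2.prime.squarefree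
      · rw [hpf V hS]
        exact mem_powerset.1 hS
    · rintro ⟨hsq, hsub⟩
      exact ⟨e.primeFactors, mem_powerset.2 hsub, Nat.prod_primeFactors_of_squarefree hsq⟩
  rw [hSA, ← Finset.sum_sdiff_sub_sum_sdiff]
  have hT : ∀ e ∈ (SF E R \ A) ∪ (A \ SF E R),
      Squarefree e ∧ (∀ l ∈ e.primeFactors, l ≤ X) ∧ E0 ≤ (e : ℝ) := by
    intro e hd
    rcases mem_union.1 hd with hd | hd
    · obtain ⟨hd1, hd2⟩ := mem_sdiff.1 hd
      obtain ⟨h3, h4, h5, h6⟩ := Pool.Agent.Lib.H59P.t3_mem.1 hd1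
      have hd0 : e ≠ 0 := by omega
      refine ⟨h5, fun l hl => (Nat.le_of_dvd (by omega) (Nat.dvd_of_mem_primeFactors hl)).trans
        (h4.trans hE), ?_⟩
      by_contra hlt
      push Not at hlt
      apply hd2
      rw [hAm]
      refine ⟨h5, fun l hl => (hPm l).2 ⟨⟨?_, Nat.prime_of_mem_primeFactors hl⟩,
        (Pool.Agent.Lib.H59P.t3_coprime hd0).1 h6 l hl⟩⟩
      have h7 : l ≤ e := Nat.le_of_dvd (by omega) (Nat.dvd_of_mem_primeFactors hl)
      have h8 : (e : ℝ) ≤ z := by linarith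
      exact h7.trans (by exact_mod_cast h8)
    · obtain ⟨hd1, hd2⟩ := mem_sdiff.1 hd
      obtain ⟨h3, h4⟩ := (hAm e).1 hd1
      refine ⟨h3, fun l hl => (((hPm l).1 (h4 hl)).1.1).trans hz, ?_⟩
      by_contra hlt
      push Not at hlt
      apply hd2
      have hd0 : e ≠ 0 := h3.ne_zero
      have h8 : (e : ℝ) ≤ E := by linarith
      exact Pool.Agent.Lib.H59P.t3_mem.2 ⟨by omega, by exact_mod_cast h8, h3,
        (Pool.Agent.Lib.H59P.t3_coprime hd0).2 fun l hl => ((hPm l).1 (h4 hl)).2⟩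
  refine le_trans ?_ (t2_tail S b t η E0 hη hE0 X _ hT)
  have hdisj : Disjoint (SF E R \ A) (A \ SF E R) := by
    rw [Finset.disjoint_left]
    intro e hd hd'
    exact (mem_sdiff.1 hd).2 (mem_sdiff.1 hd').1
  rw [Finset.sum_union hdisj]
  refine (abs_sub _ _).trans ?_
  exact add_le_add (Finset.abs_sum_le_sum_abs _ _) (Finset.abs_sum_le_sum_abs _ _)

/-- Proof. As `T3_diff` (`H59P/T3.lean`): the difference is a sum of `tdS e` over squarefree `e > E` (with prime factors at most `Q`) and the rest. -/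
theorem T3S_diff (η : ℝ) (hη : 0 ≤ η) (Q R E : ℕ) (hE : 1 ≤ E) (hEQ : E ≤ Q) :
    |∑ e ∈ SF E R, tdS S b t e - SSS S b t ((pr Q).filter (fun l : ℕ => ¬ l ∣ R))| ≤
      (E : ℝ) ^ (-η) * RPS S b t η Q := by
  have hE0 : (0 : ℝ) < E := by exact_mod_cast hE
  exact t2_diff S b t η E hη hE0 Q Q R E le_rfl hEQ (by exact_mod_cast hEQ) le_rfl

end Pool.Agent.H9U
end

-- from Lib.H9U.T4
section

/-!
# H9U, chunk T4 (M): the Rankin product is small for every `t` without vanishing minors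
-/

open Finset

namespace Pool.Agent.H9U

open Pool.Agent.Lib.H59P (Ch cj uu gl pr SF)

theorem t4_card (m : ℤ) (hm : m ≠ 0) (X : ℕ) (h : |m| ≤ (X : ℤ) ^ 3) :
    (m.natAbs.primeFactors.card : ℝ) * Real.log 2 ≤ 3 * Real.log X := by
  have h1 : 2 ^ m.natAbs.primeFactors.card ≤ m.natAbs := by
    calc 2 ^ m.natAbs.primeFactors.card = ∏ _p ∈ m.natAbs.primeFactors, 2 := by rw [prod_const]
      _ ≤ ∏ p ∈ m.natAbs.primeFactors, p :=
        prod_le_prod (fun _ _ => Nat.zero_le _) fun p hp => (Nat.prime_of_mem_primeFactors hp).two_le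
      _ ≤ m.natAbs := Nat.le_of_dvd (Int.natAbs_pos.2 hm) (Nat.prod_primeFactors_dvd _)
  have h2 : m.natAbs ≤ X ^ 3 := by
    have h3 : (m.natAbs : ℤ) ≤ ((X ^ 3 : ℕ) : ℤ) := by
      rw [Int.natCast_natAbs]
      push_cast
      exact h
    exact_mod_cast h3
  have h4 : ((2 : ℝ) ^ m.natAbs.primeFactors.card) ≤ (X : ℝ) ^ 3 := by
    have h5 := h1.trans h2
    exact_mod_cast h5
  have h6 := Real.log_le_log (by positivity) h4
  rw [Real.log_pow, Real.log_pow] at h6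
  exact_mod_cast h6

/-- The number of primes dividing one of the minors. -/
theorem t4_D {k d : ℕ} (S : Sys k d) (X Q : ℕ) (b : Fin k → ℤ) (t : Fin d → ℤ)
    (hm : ∀ i j, i ≠ j → S.minr b t i j ≠ 0 ∧ |S.minr b t i j| ≤ (X : ℤ) ^ 3) [DecidablePred fun l : ℕ => ∃ i j, i ≠ j ∧ (l : ℤ) ∣ S.minr b t i j] :
    (((pr Q).filter (fun l : ℕ => ∃ i j, i ≠ j ∧ (l : ℤ) ∣ S.minr b t i j)).card : ℝ) * Real.log 2 ≤ (k : ℝ) ^ 2 * (3 * Real.log X) := by
  classical
  have h0 : (0 : ℝ) ≤ Real.log X := Real.log_natCast_nonneg X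
  have hsub : (pr Q).filter (fun l : ℕ => ∃ i j, i ≠ j ∧ (l : ℤ) ∣ S.minr b t i j) ⊆
      (univ : Finset (Fin k × Fin k)).biUnion (fun q => if q.1 ≠ q.2 then (S.minr b t q.1 q.2).natAbs.primeFactors else ∅) := by
    intro l hl
    rw [mem_filter] at hl
    obtain ⟨hl1, i, j, hij, hd⟩ := hl
    rw [mem_biUnion]
    refine ⟨(i, j), mem_univ _, ?_⟩
    rw [if_pos hij]
    exact Nat.mem_primeFactors.2 ⟨(Pool.Agent.Lib.H59P.mem_pr.1 hl1).2, Int.natCast_dvd.1 hd, Int.natAbs_ne_zero.2 (hm i j hij).1⟩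
  have h1 : (((pr Q).filter (fun l : ℕ => ∃ i j, i ≠ j ∧ (l : ℤ) ∣ S.minr b t i j)).card : ℝ) ≤
      ∑ q : Fin k × Fin k, ((if q.1 ≠ q.2 then (S.minr b t q.1 q.2).natAbs.primeFactors else ∅).card : ℝ) := by
    exact_mod_cast (card_le_card hsub).trans card_biUnion_le
  have h2 : ∀ q : Fin k × Fin k, ((if q.1 ≠ q.2 then (S.minr b t q.1 q.2).natAbs.primeFactors else ∅).card : ℝ) * Real.log 2 ≤ 3 * Real.log X := by
    intro q
    by_cases hq : q.1 ≠ q.2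
    · rw [if_pos hq]
      exact t4_card _ (hm _ _ hq).1 X (hm _ _ hq).2
    · rw [if_neg hq, card_empty, Nat.cast_zero, zero_mul]
      positivity
  have hlog2 : (0 : ℝ) ≤ Real.log 2 := Real.log_nonneg (by norm_num)
  calc (((pr Q).filter (fun l : ℕ => ∃ i j, i ≠ j ∧ (l : ℤ) ∣ S.minr b t i j)).card : ℝ) * Real.log 2
      ≤ (∑ q : Fin k × Fin k, ((if q.1 ≠ q.2 then (S.minr b t q.1 q.2).natAbs.primeFactors else ∅).card : ℝ)) * Real.log 2 :=
        mul_le_mul_of_nonneg_right h1 hlog2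
    _ ≤ ∑ _q : Fin k × Fin k, 3 * Real.log X := by
        rw [sum_mul]
        exact sum_le_sum fun q _ => h2 q
    _ = (k : ℝ) ^ 2 * (3 * Real.log X) := by
        rw [sum_const, card_univ, Fintype.card_prod, Fintype.card_fin, nsmul_eq_mul]
        push_cast
        ring

/-- Proof. `η = 1/4`. By `T2S_bd` the product `RPS (1/4) Q` is at most the product over the primes `l ≤ Q` of: `1 + l 2^k` for the finitely many `l`
with `l ≤ 2k` or `l ∣ ∏ a_i` (a constant depending on `S`), `1 + 4^(k+3) l^(-7/4)` (product bounded by a constant), and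
`1 + 4^(k+3) l^(-3/4) ≤ exp(4^(k+3) l^(-3/4))` for the `l` dividing some minor. The product `Δ` of the nonzero minors is at most `X^(3k²)`, so it has at most
`ω ≤ 3 k² log X/log 2` prime factors, and `∑_{l ∣ Δ} l^(-3/4) ≤ ∑_{j ≤ ω} j^(-3/4) ≤ 4 ω^(1/4)` (the `j`-th prime factor is at least `j`). So the
product is at most `C exp(C (log X)^(1/4)) ≤ X^ε` for `X` large. Then `T3S_diff`. -/
theorem T4S_tail {k d : ℕ} (S : Sys k d) (ha : ∀ i, S.a i ≠ 0) (ε : ℝ) (hε : 0 < ε) : ∃ X0 : ℕ, ∀ X Q : ℕ, X0 ≤ X → Q ≤ X →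
    ∀ (b : Fin k → ℤ) (t : Fin d → ℤ), (∀ i j, i ≠ j → S.minr b t i j ≠ 0 ∧ |S.minr b t i j| ≤ (X : ℤ) ^ 3) →
    ∀ R E : ℕ, 1 ≤ E → E ≤ Q →
      |∑ e ∈ SF E R, tdS S b t e - SSS S b t ((pr Q).filter (fun l : ℕ => ¬ l ∣ R))| ≤
        (E : ℝ) ^ (-(1 / 4) : ℝ) * (X : ℝ) ^ ε := by
  classical
  set M : ℝ := (4 : ℝ) ^ (k + 3) with hM
  have hM0 : 0 < M := by positivity
  set L0 : ℕ := 2 * k + ∑ i, (S.a i).natAbs with hL0
  have hLa : ∀ l : ℕ, L0 < l → ∀ i, ¬ (l : ℤ) ∣ S.a i := by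
    intro l hl i hd
    have h1 : l ≤ (S.a i).natAbs := Nat.le_of_dvd (Int.natAbs_pos.2 (ha i)) (Int.natCast_dvd.1 hd)
    have h2 : (S.a i).natAbs ≤ ∑ i, (S.a i).natAbs := single_le_sum (f := fun i => (S.a i).natAbs) (fun _ _ => Nat.zero_le _) (mem_univ i)
    omega
  set c0 : ℝ := (L0 : ℝ) * 2 ^ k with hc0
  have hc00 : 0 ≤ c0 := by positivity
  -- the threshold
  obtain ⟨W, hW1, hW2⟩ : ∃ W : ℕ, 1 ≤ W ∧ M * (W : ℝ) ^ (-(3 / 4) : ℝ) * ((k : ℝ) ^ 2 * 3) / Real.log 2 ≤ ε / 2 := by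
    have h1 : Filter.Tendsto (fun W : ℕ => M * (W : ℝ) ^ (-(3 / 4) : ℝ) * ((k : ℝ) ^ 2 * 3) / Real.log 2) Filter.atTop (nhds (M * 0 * ((k : ℝ) ^ 2 * 3) / Real.log 2)) := by
      have h2 : Filter.Tendsto (fun W : ℕ => (W : ℝ) ^ (-(3 / 4) : ℝ)) Filter.atTop (nhds 0) :=
        (tendsto_rpow_neg_atTop (by norm_num)).comp tendsto_natCast_atTop_atTop
      exact ((h2.const_mul M).mul_const _).div_const _
    rw [mul_zero, zero_mul, zero_div] at h1
    have h3 := (h1.eventually (gt_mem_nhds (half_pos hε))).and (Filter.eventually_ge_atTop 1)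
    obtain ⟨W, h4, h5⟩ := h3.exists
    exact ⟨W, h5, h4.le⟩
  obtain ⟨X0, hX0⟩ : ∃ X0 : ℕ, ∀ X : ℕ, X0 ≤ X → ((L0 : ℝ) + 1) * c0 + 3 * M + ((W : ℝ) + 1) * M ≤ ε / 2 * Real.log X := by
    have h1 : Filter.Tendsto (fun X : ℕ => ε / 2 * Real.log X) Filter.atTop Filter.atTop :=
      (Real.tendsto_log_atTop.comp tendsto_natCast_atTop_atTop).const_mul_atTop (half_pos hε)
    exact Filter.eventually_atTop.1 (h1.eventually_ge_atTop _)
  refine ⟨max X0 1, fun X Q hX hQX b t hm R E hE hEQ => ?_⟩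
  have hX1 : (1 : ℝ) ≤ X := by exact_mod_cast (le_max_right X0 1).trans hX
  have hX00 := hX0 X ((le_max_left X0 1).trans hX)
  refine (T3S_diff S b t (1 / 4) (by norm_num) Q R E hE hEQ).trans (mul_le_mul_of_nonneg_left ?_ (Real.rpow_nonneg (Nat.cast_nonneg E) _))
  -- the Rankin product
  have hexp : RPS S b t (1 / 4) Q ≤ Real.exp (∑ l ∈ pr Q, (l : ℝ) ^ (1 / 4 : ℝ) * |tpS S b t l|) := by
    rw [RPS, Real.exp_sum]
    refine prod_le_prod (fun l _ => by positivity) fun l _ => ?_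
    rw [add_comm]
    exact Real.add_one_le_exp _
  refine hexp.trans ?_
  have hXe : (X : ℝ) ^ ε = Real.exp (ε * Real.log X) := by
    rw [Real.rpow_def_of_pos (by linarith), mul_comm]
  rw [hXe]
  refine Real.exp_le_exp.2 ?_
  set DD : ℕ → Prop := fun l : ℕ => ∃ i j, i ≠ j ∧ (l : ℤ) ∣ S.minr b t i j with hDD
  have hterm : ∀ l ∈ pr Q, (l : ℝ) ^ (1 / 4 : ℝ) * |tpS S b t l| ≤
      (if l ≤ L0 then c0 else 0) + M * (l : ℝ) ^ ((1 / 4 : ℝ) - 2) + (if l ≤ W then M else 0) +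
        (if DD l then M * (W : ℝ) ^ (-(3 / 4) : ℝ) else 0) := by
    intro l hl
    have hlp := (Pool.Agent.Lib.H59P.mem_pr.1 hl).2
    have hl1 : (1 : ℝ) ≤ l := by exact_mod_cast hlp.one_lt.le
    have hl0 : (0 : ℝ) < l := by linarith
    obtain ⟨hb1, hb2⟩ := T2S_bd S b t l hlp
    have hp1 : 0 ≤ M * (l : ℝ) ^ ((1 / 4 : ℝ) - 2) := by positivity
    have hp2 : 0 ≤ (if l ≤ W then M else 0) := by split_ifs <;> linarith
    have hp3 : 0 ≤ (if DD l then M * (W : ℝ) ^ (-(3 / 4) : ℝ) else 0) := by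
      split_ifs
      · positivity
      · exact le_rfl
    by_cases h1 : l ≤ L0
    · rw [if_pos h1]
      have h2 : (l : ℝ) ^ (1 / 4 : ℝ) ≤ (L0 : ℝ) := by
        calc (l : ℝ) ^ (1 / 4 : ℝ) ≤ (l : ℝ) ^ (1 : ℝ) := Real.rpow_le_rpow_of_exponent_le hl1 (by norm_num)
          _ = l := Real.rpow_one _
          _ ≤ L0 := by exact_mod_cast h1
      have h3 : (l : ℝ) ^ (1 / 4 : ℝ) * |tpS S b t l| ≤ c0 :=
        mul_le_mul h2 hb1 (abs_nonneg _) (Nat.cast_nonneg _)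
      linarith
    · rw [if_neg h1]
      push Not at h1
      obtain ⟨hb3, hb4⟩ := hb2 (by omega) (hLa l h1)
      by_cases h2 : DD l
      · rw [if_pos h2]
        have h3 : (l : ℝ) ^ (1 / 4 : ℝ) * |tpS S b t l| ≤ M * (l : ℝ) ^ (-(3 / 4) : ℝ) := by
          calc (l : ℝ) ^ (1 / 4 : ℝ) * |tpS S b t l| ≤ (l : ℝ) ^ (1 / 4 : ℝ) * (M / l) :=
              mul_le_mul_of_nonneg_left hb3 (by positivity)
            _ = M * (l : ℝ) ^ (-(3 / 4) : ℝ) := by
              have e : (l : ℝ) ^ (-(3 / 4) : ℝ) = (l : ℝ) ^ (1 / 4 : ℝ) / l := by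
                rw [← Real.rpow_sub_one hl0.ne']
                norm_num
              rw [e]
              ring
        by_cases h4 : l ≤ W
        · rw [if_pos h4]
          have h5 : (l : ℝ) ^ (-(3 / 4) : ℝ) ≤ 1 := Real.rpow_le_one_of_one_le_of_nonpos hl1 (by norm_num)
          have h6 : M * (l : ℝ) ^ (-(3 / 4) : ℝ) ≤ M := mul_le_of_le_one_right hM0.le h5
          have h7 : 0 ≤ M * (W : ℝ) ^ (-(3 / 4) : ℝ) := by positivity
          linarith
        · rw [if_neg h4]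
          push Not at h4
          have hW0 : (0 : ℝ) < W := by exact_mod_cast hW1
          have h5 : (l : ℝ) ^ (-(3 / 4) : ℝ) ≤ (W : ℝ) ^ (-(3 / 4) : ℝ) :=
            Real.rpow_le_rpow_of_nonpos hW0 (by exact_mod_cast h4.le) (by norm_num)
          have h6 := mul_le_mul_of_nonneg_left h5 hM0.le
          linarith
      · rw [if_neg h2]
        have h3 : (l : ℝ) ^ (1 / 4 : ℝ) * |tpS S b t l| ≤ M * (l : ℝ) ^ ((1 / 4 : ℝ) - 2) := by
          calc (l : ℝ) ^ (1 / 4 : ℝ) * |tpS S b t l| ≤ (l : ℝ) ^ (1 / 4 : ℝ) * (M / (l : ℝ) ^ 2) :=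
              mul_le_mul_of_nonneg_left (hb4 fun i j hij hd => h2 ⟨i, j, hij, hd⟩) (by positivity)
            _ = M * (l : ℝ) ^ ((1 / 4 : ℝ) - 2) := by
              have e : (l : ℝ) ^ ((1 / 4 : ℝ) - 2) = (l : ℝ) ^ (1 / 4 : ℝ) / (l : ℝ) ^ 2 := by
                rw [Real.rpow_sub hl0, Real.rpow_two]
              rw [e]
              ring
        linarith
  refine (sum_le_sum hterm).trans ?_
  rw [sum_add_distrib, sum_add_distrib, sum_add_distrib]
  have hs1 : ∀ (V : ℕ) (c : ℝ), 0 ≤ c → ∑ l ∈ pr Q, (if l ≤ V then c else 0) ≤ ((V : ℝ) + 1) * c := by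
    intro V c hc
    rw [← sum_filter, sum_const, nsmul_eq_mul]
    refine mul_le_mul_of_nonneg_right ?_ hc
    have h1 : ((pr Q).filter (fun l : ℕ => l ≤ V)).card ≤ V + 1 := by
      calc ((pr Q).filter (fun l : ℕ => l ≤ V)).card ≤ (range (V + 1)).card := card_le_card fun l hl => by
            rw [mem_filter] at hl
            rw [mem_range]
            omega
        _ = V + 1 := card_range _
    exact_mod_cast h1
  have hs2 : ∑ l ∈ pr Q, M * (l : ℝ) ^ ((1 / 4 : ℝ) - 2) ≤ 3 * M := by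
    rw [← mul_sum]
    have h1 := Pool.Agent.Lib.H59P.T4A_int (1 / 4) 1 (by norm_num) (by norm_num) le_rfl Q
    rw [Real.one_rpow, mul_one] at h1
    have h2 : (pr Q).filter (fun l : ℕ => (1 : ℝ) < (l : ℝ)) = pr Q := by
      refine filter_true_of_mem fun l hl => ?_
      exact_mod_cast (Pool.Agent.Lib.H59P.mem_pr.1 hl).2.one_lt
    rw [h2] at h1
    calc M * ∑ l ∈ pr Q, (l : ℝ) ^ ((1 / 4 : ℝ) - 2) ≤ M * 3 := mul_le_mul_of_nonneg_left h1 hM0.le
      _ = 3 * M := mul_comm _ _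
  have hs3 : ∑ l ∈ pr Q, (if DD l then M * (W : ℝ) ^ (-(3 / 4) : ℝ) else 0) ≤ ε / 2 * Real.log X := by
    rw [← sum_filter, sum_const, nsmul_eq_mul]
    have h1 := t4_D S X Q b t hm
    have hlog2 : (0 : ℝ) < Real.log 2 := Real.log_pos (by norm_num)
    have h0 : (0 : ℝ) ≤ Real.log X := Real.log_natCast_nonneg X
    have h2 : (((pr Q).filter DD).card : ℝ) ≤ (k : ℝ) ^ 2 * (3 * Real.log X) / Real.log 2 := by
      rw [le_div_iff₀ hlog2]
      exact h1
    calc (((pr Q).filter DD).card : ℝ) * (M * (W : ℝ) ^ (-(3 / 4) : ℝ))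
        ≤ ((k : ℝ) ^ 2 * (3 * Real.log X) / Real.log 2) * (M * (W : ℝ) ^ (-(3 / 4) : ℝ)) :=
          mul_le_mul_of_nonneg_right h2 (by positivity)
      _ = (M * (W : ℝ) ^ (-(3 / 4) : ℝ) * ((k : ℝ) ^ 2 * 3) / Real.log 2) * Real.log X := by ring
      _ ≤ ε / 2 * Real.log X := mul_le_mul_of_nonneg_right hW2 h0
  have hs4 := hs1 L0 c0 hc00
  have hs5 := hs1 W M hM0.le
  linarith

end Pool.Agent.H9U
end

-- from Lib.H9U.Z4B
section

/-!
# H9U, chunk Z4B (M): the main terms of all cells are large for every good `t`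
-/

open Finset

namespace Pool.Agent.H9U

open Pool.Agent.Lib.H68T (lp Lk PC p0)
open Pool.Agent.Lib.H18Q (gk KS SG Bc RegP)
open Pool.Agent.Lib.H59P (Ch SF bx TS Rp MX pr)

theorem z4b_log (M : ℝ) (hM : 1 ≤ M) (k : ℕ) (β : ℝ) (hβ : 0 < β) : ∃ X0 : ℕ, ∀ X : ℕ, X0 ≤ X →
    (2 * M * (1 + Real.log X)) ^ k * (4 * Real.exp (4 * k)) ≤ (X : ℝ) ^ β := by
  obtain ⟨γ, hγ⟩ : ∃ γ : ℝ, γ = β / (2 * (k + 1)) := ⟨_, rfl⟩
  have hγ0 : 0 < γ := by rw [hγ]; positivity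
  obtain ⟨C', hC'⟩ : ∃ C' : ℝ, C' = (2 * M * (1 + 1 / γ)) ^ k * (4 * Real.exp (4 * k)) := ⟨_, rfl⟩
  have h1 := ((tendsto_rpow_atTop (half_pos hβ)).comp tendsto_natCast_atTop_atTop).eventually (Filter.eventually_ge_atTop C')
  obtain ⟨X1, hX1⟩ := Filter.eventually_atTop.1 h1
  refine ⟨max X1 1, fun X hX => ?_⟩
  have hX0 : (1 : ℝ) ≤ X := by exact_mod_cast (le_max_right _ _).trans hX
  have hXp : (0 : ℝ) < X := by linarith
  have h2 : C' ≤ (X : ℝ) ^ (β / 2) := hX1 X ((le_max_left _ _).trans hX)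
  have h3 : 1 + Real.log X ≤ (1 + 1 / γ) * (X : ℝ) ^ γ := by
    have h4 := Real.log_le_rpow_div hXp.le hγ0
    have h5 : (1 : ℝ) ≤ (X : ℝ) ^ γ := Real.one_le_rpow hX0 hγ0.le
    have h6 : (1 + 1 / γ) * (X : ℝ) ^ γ = (X : ℝ) ^ γ + (X : ℝ) ^ γ / γ := by ring
    rw [h6]
    linarith
  have h6 : 0 ≤ Real.log X := Real.log_nonneg hX0
  have h7 : ((X : ℝ) ^ γ) ^ k ≤ (X : ℝ) ^ (β / 2) := by
    rw [← Real.rpow_natCast, ← Real.rpow_mul hXp.le]
    refine Real.rpow_le_rpow_of_exponent_le hX0 ?_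
    have hk1 : (0 : ℝ) < 2 * ((k : ℝ) + 1) := by positivity
    rw [hγ, div_mul_eq_mul_div, div_le_div_iff₀ hk1 two_pos]
    nlinarith
  calc (2 * M * (1 + Real.log X)) ^ k * (4 * Real.exp (4 * k))
      ≤ (2 * M * ((1 + 1 / γ) * (X : ℝ) ^ γ)) ^ k * (4 * Real.exp (4 * k)) := by
        gcongr
    _ = C' * ((X : ℝ) ^ γ) ^ k := by
        rw [hC', ← mul_assoc (2 * M), mul_pow (2 * M * (1 + 1 / γ))]
        ring
    _ ≤ (X : ℝ) ^ (β / 2) * (X : ℝ) ^ (β / 2) :=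
        mul_le_mul h2 h7 (by positivity) (by positivity)
    _ = (X : ℝ) ^ β := by
        rw [← Real.rpow_add hXp]
        ring_nf

/-- Proof. `ε1 = θ δ3/(32 (k+1))`, `H = X / Q^8`. For each cell `j` the point `m_i = val b (jH) t i` is in `JJ (Xs i) ⊆ [Xs i, 4 Xs i]` (`jH < L`). `Z3S` with `Q := Q'`,
`th i := th m_i` (`MX px (fun _ => th m_i) 0 p = MX px th m_i p` by definition), `c i p = Bc Q (Xs i) p m_i`, `M` from `UM_mass`, `eb` from `Dat.cf`, and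
`τ = X^(-θ δ3/8)`: for `1 ≤ R ≤ D1`, `E = D/R ≥ D1 ≥ D2 ≥ Q'^δ3 ≥ X^(θ δ3)` (`D1 D1 ≤ D`, `1 ≤ px.1`), `E ≤ D ≤ Q' ≤ X`, `T4S_tail` with
`ε = θ δ3/8`. The error `(2M(1+log Q'))^k τ` is at most `η^k exp(-4k)/4` for `X` large (`η^k ≥ X^(-k ε1)`), so each cell is at least `H η^k exp(-4k)/4`, and the number of
cells times `H` is at least `L - H ≥ X/2`. -/
theorem Z4B_low {k d : ℕ} (hk : 1 ≤ k) (S : Sys k d) (ha : ∀ i, S.a i ≠ 0) : ∃ K : ℝ, 1 ≤ K ∧
    ∀ Cr θ δ3 : ℝ, 1 ≤ Cr → 0 < θ → 0 < δ3 → ∀ C0 : ℕ, ∃ ε1 : ℝ, 0 < ε1 ∧ ∃ X0 : ℕ, ∀ Q Q' X : ℕ, X0 ≤ X →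
    ∀ Xs : Fin k → ℕ, (∀ i, X ≤ Xs i ∧ Xs i ≤ C0 * X) → (∀ i, Rgm K Cr θ Q Q' (Xs i)) →
    ∀ (D D1 D2 : ℕ) (η E0 : ℝ) (px : Ch) (th : ℤ → ℝ), Dat k Q Q' D D1 D2 η E0 px th Xs → (Q' : ℝ) ^ δ3 ≤ D2 →
    (X : ℝ) ^ (-ε1) ≤ η → ∀ (b : Fin k → ℤ) (L : ℕ) (t : Fin d → ℤ), X ≤ L → S.Adm b t →
    (∀ i j, i ≠ j → S.minr b t i j ≠ 0) → (∀ i, ∀ n ∈ range L, S.val b n t i ∈ JJ (Xs i)) →
    X * (η ^ k * Real.exp (-(4 * k : ℝ))) / 8 ≤
      (∑ j ∈ range (L / (X / Q ^ 8)), ((X / Q ^ 8 : ℕ) : ℂ) * MCS S b t Q' D D1 px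
        (fun i p => Bc Q (Xs i) p (S.val b ((j * (X / Q ^ 8) : ℕ) : ℤ) t i))).re := by
  obtain ⟨K1, C1, hK1, hC1, hmass⟩ := Pool.Agent.Lib.H59T.UM_mass
  refine ⟨max K1 16, hK1.trans (le_max_left _ _), fun Cr θ δ3 hCr hθ hδ3 C0 => ?_⟩
  obtain ⟨ε1, hε1⟩ : ∃ ε1 : ℝ, ε1 = θ * δ3 / (32 * (k + 1)) := ⟨_, rfl⟩
  have hε10 : 0 < ε1 := by rw [hε1]; positivity
  obtain ⟨XT, hXT⟩ := T4S_tail S ha (θ * δ3 / 8) (by positivity)
  obtain ⟨XL, hXL⟩ := z4b_log C1 hC1 k (3 * (θ * δ3) / 32) (by positivity)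
  obtain ⟨A, hA⟩ : ∃ A : ℕ, ∀ i, |S.a i| ≤ (A : ℤ) := by
    refine ⟨∑ i, (S.a i).natAbs, fun i => ?_⟩
    rw [Int.abs_eq_natAbs]
    exact_mod_cast Finset.single_le_sum (f := fun i => (S.a i).natAbs) (fun _ _ => Nat.zero_le _) (mem_univ i)
  refine ⟨ε1, hε10, max (max XT XL) (max (C0 + 2) (8 * A * C0)), ?_⟩
  intro Q Q' X hX Xs hXs hR D D1 D2 η E0 px th hD hD2 hη b L t hL hAdm hmin hJ
  have hXT' : XT ≤ X := ((le_max_left _ _).trans (le_max_left _ _)).trans hX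
  have hXL' : XL ≤ X := ((le_max_right _ _).trans (le_max_left _ _)).trans hX
  have hXC : C0 + 2 ≤ X := ((le_max_left _ _).trans (le_max_right _ _)).trans hX
  have hXA : 8 * A * C0 ≤ X := ((le_max_right _ _).trans (le_max_right _ _)).trans hX
  have hX2 : 2 ≤ X := (Nat.le_add_left _ _).trans hXC
  have hXr : (1 : ℝ) ≤ X := by exact_mod_cast (by omega : 1 ≤ X)
  have hXp : (0 : ℝ) < X := by linarith
  let i0 : Fin k := ⟨0, hk⟩
  have hreg : RegP 16 Q (Xs i0) := (hR i0).reg.mono (by positivity) (le_max_right _ _)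
  have hQ16 : (16 : ℝ) ≤ Q := hreg.Q_ge (by norm_num)
  have hQn : 16 ≤ Q := by exact_mod_cast hQ16
  have hXs0 : 0 < Xs i0 := by
    have := (hXs i0).1
    omega
  have hlog : Real.log (Xs i0) ≤ 2 * Real.log X := by
    have h1 : ((Xs i0 : ℕ) : ℝ) ≤ (X : ℝ) * X := by
      have h2 : Xs i0 ≤ X * X := (hXs i0).2.trans (Nat.mul_le_mul_right X (by omega))
      exact_mod_cast h2
    have h2 := Real.log_le_log (by exact_mod_cast hXs0) h1
    rw [Real.log_mul hXp.ne' hXp.ne'] at h2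
    linarith
  have hQX : Q ^ 8 ≤ X := by
    have h1 := hreg.logQ_le (by norm_num)
    have h2 : Real.log ((Q : ℝ) ^ 8) ≤ Real.log X := by
      rw [Real.log_pow]
      push_cast
      linarith
    have h3 : (Q : ℝ) ^ 8 ≤ X := (Real.log_le_log_iff (by positivity) hXp).1 h2
    exact_mod_cast h3
  obtain ⟨H, hH⟩ : ∃ H : ℕ, H = X / Q ^ 8 := ⟨_, rfl⟩
  have hQ8 : 0 < Q ^ 8 := by positivity
  have hH1 : 1 ≤ H := by
    rw [hH]
    exact Nat.div_pos hQX hQ8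
  have hH2 : 2 * H ≤ X := by
    have h1 : 2 ≤ Q ^ 8 := by
      calc 2 ≤ Q := by omega
        _ = Q ^ 1 := (pow_one Q).symm
        _ ≤ Q ^ 8 := Nat.pow_le_pow_right (by omega) (by norm_num)
    have h2 : X / Q ^ 8 ≤ X / 2 := Nat.div_le_div_left h1 (by norm_num)
    rw [hH]
    omega
  rw [← hH]
  have hnH : X ≤ 2 * (L / H * H) := by
    have h1 := Nat.div_add_mod L H
    have h2 := Nat.mod_lt L hH1
    rw [mul_comm H] at h1
    omega
  obtain ⟨E, hE⟩ : ∃ E : ℝ, E = η ^ k * Real.exp (-(4 * k : ℝ)) := ⟨_, rfl⟩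
  have hη0 := hD.eta_pos
  have hE0 : 0 < E := by rw [hE]; positivity
  -- bounds for the levels
  have hQ'1 : 1 ≤ Q' := by
    have h1 := (hR i0).low
    have h2 : (0 : ℝ) < ((Xs i0 : ℕ) : ℝ) ^ θ := Real.rpow_pos_of_pos (by exact_mod_cast hXs0) θ
    have h3 : (0 : ℝ) < Q' := lt_of_lt_of_le h2 h1
    exact_mod_cast h3
  have hQ'Q : Q' ≤ Q := (hR i0).le
  have hQ'X : Q' ≤ X := by
    refine hQ'Q.trans (le_trans ?_ hQX)
    calc Q = Q ^ 1 := (pow_one Q).symm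
      _ ≤ Q ^ 8 := Nat.pow_le_pow_right (by omega) (by norm_num)
  have hpx := (Pool.Agent.Lib.H68T.mem_PC.1 hD.mem)
  have hD2D1 : D2 ≤ D1 := (Nat.le_mul_of_pos_left D2 hpx.1).trans hD.hD2
  have hpxD1 : px.1 ≤ D1 := (Nat.le_mul_of_pos_right px.1 hD.D2_pos).trans hD.hD2
  have hD11 : 1 ≤ D1 := hD.D2_pos.trans hD2D1
  have hD1D : D1 ≤ D := (Nat.le_mul_of_pos_left D1 hD11).trans hD.hD1
  have hXQ' : (X : ℝ) ^ θ ≤ Q' := by
    refine le_trans ?_ (hR i0).low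
    exact Real.rpow_le_rpow hXp.le (by exact_mod_cast (hXs i0).1) hθ.le
  have hXD2 : (X : ℝ) ^ (θ * δ3) ≤ D2 := by
    rw [Real.rpow_mul hXp.le]
    exact (Real.rpow_le_rpow (by positivity) hXQ' hδ3.le).trans hD2
  have hPC : PC Q' ⊆ PC Q := by
    intro p hp
    have h1 := Pool.Agent.Lib.H68T.mem_PC.1 hp
    exact Pool.Agent.Lib.H68T.mem_PC.2 ⟨h1.1, h1.2.1.trans hQ'Q, h1.2.2⟩
  -- the values
  have hval : ∀ i, ∀ n ∈ range L, (Xs i : ℤ) ≤ S.val b n t i ∧ S.val b n t i ≤ 4 * Xs i := by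
    intro i n hn
    have h1 := hJ i n hn
    unfold JJ at h1
    rw [mem_Ico] at h1
    omega
  have h0L : 0 ∈ range L := mem_range.2 (by omega)
  have hmin' : ∀ i j, i ≠ j → S.minr b t i j ≠ 0 ∧ |S.minr b t i j| ≤ (X : ℤ) ^ 3 := by
    intro i j hij
    refine ⟨hmin i j hij, ?_⟩
    have hv : ∀ i, |S.val b 0 t i| ≤ 4 * (C0 : ℤ) * X := by
      intro i
      have h1 := hval i 0 h0L
      have h2 : (Xs i : ℤ) ≤ C0 * X := by exact_mod_cast (hXs i).2
      rw [Nat.cast_zero] at h1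
      rw [abs_le]
      constructor
      · have h3 : (0 : ℤ) ≤ Xs i := Int.natCast_nonneg _
        nlinarith
      · linarith
    have hA0 : (0 : ℤ) ≤ A := Int.natCast_nonneg A
    have h3 : |S.minr b t i j| ≤ A * (4 * (C0 : ℤ) * X) + A * (4 * (C0 : ℤ) * X) := by
      unfold Sys.minr
      refine (abs_sub _ _).trans (add_le_add ?_ ?_)
      · rw [abs_mul]
        exact mul_le_mul (hA i) (hv j) (abs_nonneg _) hA0
      · rw [abs_mul]
        exact mul_le_mul (hA j) (hv i) (abs_nonneg _) hA0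
    have h4 : (8 * A * C0 : ℤ) ≤ X := by exact_mod_cast hXA
    have h5 : (1 : ℤ) ≤ X := by exact_mod_cast (by omega : 1 ≤ X)
    calc |S.minr b t i j| ≤ A * (4 * (C0 : ℤ) * X) + A * (4 * (C0 : ℤ) * X) := h3
      _ = (8 * A * C0 : ℤ) * X := by ring
      _ ≤ X * X := mul_le_mul_of_nonneg_right h4 (by linarith)
      _ ≤ (X : ℤ) ^ 3 := by nlinarith [mul_nonneg (by linarith : (0 : ℤ) ≤ X) (by linarith : (0 : ℤ) ≤ X)]
  -- the tail of the singular series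
  have hτ : ∀ R : ℕ, 1 ≤ R → R ≤ D1 →
      |∑ e ∈ SF (D / R) R, tdS S b t e - SSS S b t ((Pool.Agent.Lib.H59P.pr Q').filter (fun l : ℕ => ¬ l ∣ R))| ≤
        (X : ℝ) ^ (-(θ * δ3 / 8)) := by
    intro R hR1 hRD
    have h1 : D1 ≤ D / R := by
      rw [Nat.le_div_iff_mul_le hR1]
      exact (Nat.mul_le_mul_left D1 hRD).trans hD.hD1
    have h2 : 1 ≤ D / R := hD11.trans h1
    have h3 : D / R ≤ Q' := (Nat.div_le_self _ _).trans hD.hD
    refine (hXT X Q' hXT' hQ'X b t hmin' R (D / R) h2 h3).trans ?_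
    have h4 : (X : ℝ) ^ (θ * δ3) ≤ ((D / R : ℕ) : ℝ) := hXD2.trans (by exact_mod_cast hD2D1.trans h1)
    have h5 : ((D / R : ℕ) : ℝ) ^ (-(1 / 4) : ℝ) ≤ ((X : ℝ) ^ (θ * δ3)) ^ (-(1 / 4) : ℝ) :=
      Real.rpow_le_rpow_of_nonpos (Real.rpow_pos_of_pos hXp _) h4 (by norm_num)
    calc ((D / R : ℕ) : ℝ) ^ (-(1 / 4) : ℝ) * (X : ℝ) ^ (θ * δ3 / 8)
        ≤ ((X : ℝ) ^ (θ * δ3)) ^ (-(1 / 4) : ℝ) * (X : ℝ) ^ (θ * δ3 / 8) :=
          mul_le_mul_of_nonneg_right h5 (by positivity)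
      _ = (X : ℝ) ^ (-(θ * δ3 / 8)) := by
          rw [← Real.rpow_mul hXp.le, ← Real.rpow_add hXp]
          ring_nf
  have herr : (2 * C1 * (1 + Real.log Q')) ^ k * (X : ℝ) ^ (-(θ * δ3 / 8)) ≤ E / 4 := by
    have h1 := hXL X hXL'
    have hlQ : Real.log Q' ≤ Real.log X := Real.log_le_log (by exact_mod_cast hQ'1) (by exact_mod_cast hQ'X)
    have hlQ0 : 0 ≤ Real.log Q' := Real.log_nonneg (by exact_mod_cast hQ'1)
    have h2 : (2 * C1 * (1 + Real.log Q')) ^ k ≤ (2 * C1 * (1 + Real.log X)) ^ k := by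
      gcongr
    have h3 : (X : ℝ) ^ (-(θ * δ3) / 32) ≤ η ^ k := by
      calc (X : ℝ) ^ (-(θ * δ3) / 32) ≤ ((X : ℝ) ^ (-ε1)) ^ k := by
            rw [← Real.rpow_natCast, ← Real.rpow_mul hXp.le]
            refine Real.rpow_le_rpow_of_exponent_le hXr ?_
            have h5 : ε1 * k ≤ θ * δ3 / 32 := by
              have hk1 : (0 : ℝ) < 32 * ((k : ℝ) + 1) := by positivity
              rw [hε1, div_mul_eq_mul_div, div_le_div_iff₀ hk1 (by norm_num)]
              nlinarith [mul_pos hθ hδ3]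
            linarith
        _ ≤ η ^ k := pow_le_pow_left₀ (by positivity) hη k
    have h4 : Real.exp (4 * k) * Real.exp (-(4 * k : ℝ)) = 1 := by
      rw [← Real.exp_add, add_neg_cancel, Real.exp_zero]
    have h5 : (X : ℝ) ^ (3 * (θ * δ3) / 32) * (X : ℝ) ^ (-(θ * δ3 / 8)) = (X : ℝ) ^ (-(θ * δ3) / 32) := by
      rw [← Real.rpow_add hXp]
      ring_nf
    have hx8 : (0 : ℝ) < (X : ℝ) ^ (-(θ * δ3 / 8)) := Real.rpow_pos_of_pos hXp _
    have he : (0 : ℝ) < Real.exp (-(4 * k : ℝ)) := Real.exp_pos _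
    calc (2 * C1 * (1 + Real.log Q')) ^ k * (X : ℝ) ^ (-(θ * δ3 / 8))
        ≤ (2 * C1 * (1 + Real.log X)) ^ k * (X : ℝ) ^ (-(θ * δ3 / 8)) := mul_le_mul_of_nonneg_right h2 hx8.le
      _ = ((2 * C1 * (1 + Real.log X)) ^ k * (4 * Real.exp (4 * k))) * (X : ℝ) ^ (-(θ * δ3 / 8)) * Real.exp (-(4 * k : ℝ)) / 4 := by
          linear_combination (-((2 * C1 * (1 + Real.log X)) ^ k * (X : ℝ) ^ (-(θ * δ3 / 8)))) * h4
      _ ≤ (X : ℝ) ^ (3 * (θ * δ3) / 32) * (X : ℝ) ^ (-(θ * δ3 / 8)) * Real.exp (-(4 * k : ℝ)) / 4 := by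
          gcongr
      _ ≤ η ^ k * Real.exp (-(4 * k : ℝ)) / 4 := by
          rw [h5]
          gcongr
      _ = E / 4 := by rw [hE]
  -- one cell
  have hcell : ∀ j ∈ range (L / H), (H : ℝ) * (E / 4) ≤
      (((H : ℕ) : ℂ) * MCS S b t Q' D D1 px
        (fun i p => Bc Q (Xs i) p (S.val b ((j * H : ℕ) : ℤ) t i))).re := by
    intro j hj
    rw [mem_range] at hj
    have hjL : j * H ∈ range L := by
      rw [mem_range]
      have h1 : (j + 1) * H ≤ L := (Nat.mul_le_mul_right H hj).trans (Nat.div_mul_le_self L H)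
      have h2 : (j + 1) * H = j * H + H := by ring
      omega
    have hm := fun i => hval i (j * H) hjL
    choose mb hmb1 hmb2 hmb3 using fun i => hmass Q (Xs i) ((hR i).reg.mono (by positivity) (le_max_left _ _))
    choose eb heb1 heb2 heb3 using hD.cf
    have hZ := Z3S S b t hAdm Q' D D1 hQ'1 hD.hD hD1D px hD.mem hD.real hpxD1 η E0 hη0 hD.E0_nonneg hD.E0_le
      (fun i => th (S.val b ((j * H : ℕ) : ℤ) t i)) (fun i => hD.nonneg i _ (hm i).1 (hm i).2)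
      (fun i => hD.le i _ (hm i).1 (hm i).2) (fun h i => hD.triv h _) C1 hC1
      (fun i p => Bc Q (Xs i) p (S.val b ((j * H : ℕ) : ℤ) t i))
      (fun i => by
        refine (Finset.sum_le_sum fun p hp => hmb3 i _ (hm i).1 (hm i).2 p (hPC hp)).trans ?_
        exact (Finset.sum_le_sum_of_subset_of_nonneg hPC fun p hp _ => hmb1 i p hp).trans (hmb2 i))
      eb heb1 heb2 (fun i p hp hp1 => heb3 i _ (hm i).1 (hm i).2 p hp hp1) _ hτ
    rw [← Complex.ofReal_natCast, Complex.re_ofReal_mul]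
    refine mul_le_mul_of_nonneg_left ?_ (Nat.cast_nonneg H)
    rw [← hE] at hZ
    linarith
  rw [Complex.re_sum]
  have hnH' : (X : ℝ) ≤ 2 * (((L / H : ℕ) : ℝ) * H) := by exact_mod_cast hnH
  calc (X : ℝ) * (η ^ k * Real.exp (-(4 * k : ℝ))) / 8 ≤ ((L / H : ℕ) : ℝ) * ((H : ℝ) * (E / 4)) := by
        rw [← hE]
        nlinarith
    _ = ∑ _j ∈ range (L / H), (H : ℝ) * (E / 4) := by rw [sum_const, card_range, nsmul_eq_mul]
    _ ≤ _ := Finset.sum_le_sum hcell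

end Pool.Agent.H9U
end

-- from Lib.H9U.LDefs
section

/-!
# Project H9U, module L (local factors): definitions
-/

open Finset

namespace Pool.Agent.H9U

open Pool.Agent.Lib.H59P (Ch bx)

noncomputable section

/-- The `i`-th affine form at `(n, t)` over `ZMod q`. -/
def Sys.vz {k d : ℕ} (S : Sys k d) (q : ℕ) (b : Fin k → ℤ) (n : ZMod q) (t : Fin d → ZMod q) (i : Fin k) : ZMod q :=
  (S.a i : ZMod q) * n + ∑ j, (S.c i j : ZMod q) * t j + (b i : ZMod q)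

/-- The first moment over `t` of the sums over `n`, for functions on `ZMod q`. -/
def FZ {k d : ℕ} (S : Sys k d) (q : ℕ) [NeZero q] (b : Fin k → ℤ) (G : Fin k → ZMod q → ℂ) : ℝ :=
  ∑ t : Fin d → ZMod q, ‖∑ n : ZMod q, ∏ i, G i (S.vz q b n t i)‖

/-- The first moment over a complete period, for functions on the integers. -/
def FM {k d : ℕ} (S : Sys k d) (q : ℕ) (b : Fin k → ℤ) (F : Fin k → ℤ → ℂ) : ℝ :=
  ∑ t ∈ bx d q, ‖∑ n ∈ range q, ∏ i, F i (S.val b n (iv t) i)‖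

/-- The product over the four points `s, s + A, s + B, s + A + B`. -/
def P4z {q : ℕ} (F : ZMod q → ℂ) (A B s : ZMod q) : ℂ :=
  F s * star (F (s + A)) * star (F (s + B)) * F (s + A + B)

/-- The box sum with base point `c` and steps `e0, e1, e2`. -/
def Bq {q : ℕ} [NeZero q] (F : ZMod q → ℂ) (e0 e1 e2 c : ZMod q) : ℝ :=
  ∑ n : ZMod q, ∑ n' : ZMod q, ∑ x : ZMod q, ∑ x' : ZMod q,
    ‖∑ y : ZMod q, F (e0 * n + e1 * x + e2 * y + c) * star (F (e0 * n' + e1 * x + e2 * y + c)) *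
      star (F (e0 * n + e1 * x' + e2 * y + c)) * F (e0 * n' + e1 * x' + e2 * y + c)‖ ^ 2

/-- The sum over all base points and all differences `e0 h, e1 h', e2 h''` (real part). -/
def Vq {q : ℕ} [NeZero q] (F : ZMod q → ℂ) (e0 e1 e2 : ZMod q) : ℝ :=
  (∑ h : ZMod q, ∑ h' : ZMod q, ∑ h'' : ZMod q, ∑ s : ZMod q,
    P4z F (e0 * h) (e1 * h') s * star (P4z F (e0 * h) (e1 * h') (s + e2 * h''))).re

end

end Pool.Agent.H9U
end

-- from Lib.H9U.L2T
section

/-!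
# H9U, chunk L2T (S/M): functions on the integers and on `ZMod q`
-/

open Finset

namespace Pool.Agent.H9U

open Pool.Agent.Lib.H59P (Ch bx)

/-- Proof. `CA_range` (`H18Q/CA.lean`, used in `C3_nest` of `H59T/C3.lean`) for the sum over `n`; for `t` the bijection `t ↦ fun j => (t j : ZMod q)` from
`bx d q` to `Fin d → ZMod q` (inverse `fun j => (t j).val`; `Finset.sum_bij'` or `Finset.sum_nbij'`). -/
theorem L2T {k d : ℕ} (S : Sys k d) (q : ℕ) [NeZero q] (b : Fin k → ℤ) (F : Fin k → ℤ → ℂ) (G : Fin k → ZMod q → ℂ)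
    (h : ∀ i (m : ℤ), F i m = G i (m : ZMod q)) : FM S q b F = FZ S q b G := by
  unfold FM FZ bx
  refine Finset.sum_bij' (fun (t : Fin d → ℕ) _ => fun j => (t j : ZMod q)) (fun (z : Fin d → ZMod q) _ => fun j => (z j).val)
    (fun _ _ => mem_univ _) (fun z _ => Fintype.mem_piFinset.2 fun j => mem_range.2 (ZMod.val_lt (z j))) (fun t ht => ?_)
    (fun z _ => funext fun j => ZMod.natCast_zmod_val (z j)) (fun t _ => ?_)
  · funext j
    have h1 := mem_range.1 (Fintype.mem_piFinset.1 ht j)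
    show (((t j : ℕ) : ZMod q)).val = t j
    rw [ZMod.val_natCast, Nat.mod_eq_of_lt h1]
  · rw [← Pool.Agent.Lib.H18Q.CA_range q (fun n => ∏ i, G i (S.vz q b n (fun j => (t j : ZMod q)) i))]
    congr 1
    refine Finset.sum_congr rfl fun n _ => Finset.prod_congr rfl fun i _ => ?_
    rw [h]
    congr 1
    unfold Sys.val Sys.lin Sys.vz iv
    push_cast
    rfl

end Pool.Agent.H9U
end

-- from Lib.H9U.T6
section

/-!
# H9U, chunk T6 (S/M): few `t` with a vanishing minor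
-/

open Finset

namespace Pool.Agent.H9U

open Pool.Agent.Lib.H59P (bx)

/-- Proof. If `a_i c_j = a_j c_i` in all coordinates then `a_j lin_i = a_i lin_j`, and since `a_i, a_j ≠ 0` both forms vanish on the same vectors; but
`lin_i` vanishes on neither vector of `Sys.Half` for `i`, and `lin_j` vanishes on one of them. -/
theorem T6S_ne {k d : ℕ} (S : Sys k d) (hS : S.Half) (i j : Fin k) (hij : i ≠ j) :
    ∃ r : Fin d, S.a i * S.c j r - S.a j * S.c i r ≠ 0 := by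
  by_contra hc
  push Not at hc
  have key : ∀ (s : ℤ) (u : Fin d → ℤ), S.a i * S.lin j s u = S.a j * S.lin i s u := by
    intro s u
    unfold Sys.lin
    rw [mul_add, mul_add, Finset.mul_sum, Finset.mul_sum]
    have h1 : ∀ r, S.a i * (S.c j r * u r) = S.a j * (S.c i r * u r) := by
      intro r
      have h2 := hc r
      linear_combination u r * h2
    rw [Finset.sum_congr rfl fun r _ => h1 r]
    ring
  obtain ⟨ha, hh⟩ := hS
  obtain ⟨s, s', u, u', h1, h2, h3⟩ := hh i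
  rcases h3 j (Ne.symm hij) with h4 | h4
  · have h5 := key s u
    rw [h4, mul_zero] at h5
    rcases mul_eq_zero.1 h5.symm with h6 | h6
    · exact ha j h6
    · exact h1 h6
  · have h5 := key s' u'
    rw [h4, mul_zero] at h5
    rcases mul_eq_zero.1 h5.symm with h6 | h6
    · exact ha j h6
    · exact h2 h6

open Classical in
/-- Proof. `minr b t i j = ∑_r (a_i c_jr - a_j c_ir) t_r + const` with a nonzero coefficient at `r0` (`T6S_ne`): for given other coordinates at most one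
value of `t_{r0}` (the map to the other coordinates, e.g. `t ↦ Function.update t r0 0`, is injective on the set). -/
theorem T6S_card {k d : ℕ} (S : Sys k d) (hS : S.Half) (i j : Fin k) (hij : i ≠ j) (b : Fin k → ℤ) (T : ℕ) :
    ((bx d T).filter (fun t => S.minr b (iv t) i j = 0)).card * T ≤ T ^ d := by
  obtain ⟨r0, hr0⟩ := T6S_ne S hS i j hij
  have hcard : (bx d T).card = T ^ d := by
    unfold bx
    rw [Fintype.card_piFinset, Finset.prod_const, Finset.card_univ, Fintype.card_fin, Finset.card_range]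
  obtain ⟨A, hA⟩ : ∃ A, A = (bx d T).filter (fun t => S.minr b (iv t) i j = 0) := ⟨_, rfl⟩
  rw [← hA]
  have hlin : ∀ t : Fin d → ℕ, S.minr b (iv t) i j =
      ∑ r, (S.a i * S.c j r - S.a j * S.c i r) * (t r : ℤ) + (S.a i * b j - S.a j * b i) := by
    intro t
    unfold Sys.minr Sys.val Sys.lin iv
    rw [mul_add, mul_add, mul_add, mul_add, Finset.mul_sum, Finset.mul_sum]
    have h1 : ∀ r, (S.a i * S.c j r - S.a j * S.c i r) * (t r : ℤ) =
        S.a i * (S.c j r * (t r : ℤ)) - S.a j * (S.c i r * (t r : ℤ)) := fun r => by ring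
    rw [Finset.sum_congr rfl fun r _ => h1 r, Finset.sum_sub_distrib]
    ring
  have hmem : ∀ t, t ∈ bx d T ↔ ∀ r, t r < T := by
    intro t
    unfold bx
    rw [Fintype.mem_piFinset]
    exact forall_congr' fun r => Finset.mem_range
  have h2 : (A ×ˢ range T).card ≤ (bx d T).card := by
    refine Finset.card_le_card_of_injOn (fun x => Function.update x.1 r0 x.2) ?_ ?_
    · rintro ⟨t, y⟩ hx
      have hx' := Finset.mem_product.1 (Finset.mem_coe.1 hx)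
      rw [Finset.mem_coe, hmem]
      intro r
      have ht : t ∈ bx d T := by
        have := hx'.1
        rw [hA, Finset.mem_filter] at this
        exact this.1
      show Function.update t r0 y r < T
      by_cases hr : r = r0
      · rw [hr, Function.update_self]
        exact Finset.mem_range.1 hx'.2
      · rw [Function.update_of_ne hr]
        exact (hmem t).1 ht r
    · rintro ⟨t, y⟩ hx ⟨t', y'⟩ hx' he
      have he' : Function.update t r0 y = Function.update t' r0 y' := he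
      have h3 := (Finset.mem_product.1 (Finset.mem_coe.1 hx)).1
      have h4 := (Finset.mem_product.1 (Finset.mem_coe.1 hx')).1
      rw [hA, Finset.mem_filter] at h3 h4
      have hy : y = y' := by
        have := congrFun he' r0
        rwa [Function.update_self, Function.update_self] at this
      have hother : ∀ r, r ≠ r0 → t r = t' r := by
        intro r hr
        have := congrFun he' r
        rwa [Function.update_of_ne hr, Function.update_of_ne hr] at this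
      have h5 : ∑ r, (S.a i * S.c j r - S.a j * S.c i r) * (t r : ℤ) =
          ∑ r, (S.a i * S.c j r - S.a j * S.c i r) * (t' r : ℤ) := by
        have h6 := h3.2
        have h7 := h4.2
        rw [hlin] at h6 h7
        linarith
      have h8 : (S.a i * S.c j r0 - S.a j * S.c i r0) * (t r0 : ℤ) =
          (S.a i * S.c j r0 - S.a j * S.c i r0) * (t' r0 : ℤ) := by
        rw [← Finset.add_sum_erase _ _ (Finset.mem_univ r0), ← Finset.add_sum_erase _ _ (Finset.mem_univ r0)] at h5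
        have h9 : ∑ r ∈ univ.erase r0, (S.a i * S.c j r - S.a j * S.c i r) * (t r : ℤ) =
            ∑ r ∈ univ.erase r0, (S.a i * S.c j r - S.a j * S.c i r) * (t' r : ℤ) :=
          Finset.sum_congr rfl fun r hr => by rw [hother r (Finset.ne_of_mem_erase hr)]
        rw [h9] at h5
        exact add_right_cancel h5
      have h10 : t r0 = t' r0 := by
        have := mul_left_cancel₀ hr0 h8
        exact_mod_cast this
      have h11 : t = t' := by
        funext r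
        by_cases hr : r = r0
        · rw [hr]
          exact h10
        · exact hother r hr
      rw [h11, hy]
  rw [Finset.card_product, Finset.card_range, hcard] at h2
  exact h2

end Pool.Agent.H9U
end

-- from Lib.H9U.L4
section

/-!
# H9U, chunk L4 (M): the local factors at the other primes
-/

open Finset

namespace Pool.Agent.H9U

open Pool.Agent.Lib.H59P (Ch bx)
open Pool.Agent.Lib.H59T (UU Rm Pm Kp dof tau lf glz)

/-- Two forms which are not proportional modulo `l` have few common zeros. Proof. For given `t` there is at most one `n` with `vz n t i = 0`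
(`a_i` is invertible), and then `a_i vz j - a_j vz i = ∑_r (a_i c_jr - a_j c_ir) t_r + const = 0`; the number of such `t` is at most `l^(d-1)`
(the coordinate `r0` is determined by the others). -/
theorem L4_zero {k d : ℕ} (S : Sys k d) (l : ℕ) [Fact l.Prime] (b : Fin k → ℤ) (i j : Fin k)
    (ha : ((S.a i : ℤ) : ZMod l) ≠ 0) (r : Fin d) (hr : ((S.a i * S.c j r - S.a j * S.c i r : ℤ) : ZMod l) ≠ 0) :
    (((univ : Finset ((Fin d → ZMod l) × ZMod l)).filter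
      (fun x => S.vz l b x.2 x.1 i = 0 ∧ S.vz l b x.2 x.1 j = 0)).card : ℝ) * l ≤ (l : ℝ) ^ d := by
  obtain ⟨A, hA⟩ : ∃ A, A = (univ : Finset ((Fin d → ZMod l) × ZMod l)).filter
      (fun x => S.vz l b x.2 x.1 i = 0 ∧ S.vz l b x.2 x.1 j = 0) := ⟨_, rfl⟩
  rw [← hA]
  have hlin : ∀ (n : ZMod l) (t : Fin d → ZMod l), (S.a i : ZMod l) * S.vz l b n t j - (S.a j : ZMod l) * S.vz l b n t i =
      ∑ r, ((S.a i : ZMod l) * S.c j r - (S.a j : ZMod l) * S.c i r) * t r +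
        ((S.a i : ZMod l) * b j - (S.a j : ZMod l) * b i) := by
    intro n t
    unfold Sys.vz
    have h1 : ∀ r, ((S.a i : ZMod l) * S.c j r - (S.a j : ZMod l) * S.c i r) * t r =
        (S.a i : ZMod l) * (S.c j r * t r) - (S.a j : ZMod l) * (S.c i r * t r) := fun r => by ring
    rw [Finset.sum_congr rfl fun r _ => h1 r, Finset.sum_sub_distrib, ← Finset.mul_sum, ← Finset.mul_sum]
    ring
  have h2 : (A ×ˢ (univ : Finset (ZMod l))).card ≤ (univ : Finset (Fin d → ZMod l)).card := by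
    refine Finset.card_le_card_of_injOn (fun x => Function.update x.1.1 r x.2) (fun _ _ => Finset.mem_coe.2 (Finset.mem_univ _)) ?_
    rintro ⟨⟨t, n⟩, y⟩ hx ⟨⟨t', n'⟩, y'⟩ hx' he
    have he' : Function.update t r y = Function.update t' r y' := he
    have h3 := (Finset.mem_product.1 (Finset.mem_coe.1 hx)).1
    have h4 := (Finset.mem_product.1 (Finset.mem_coe.1 hx')).1
    rw [hA, Finset.mem_filter] at h3 h4
    have hy : y = y' := by
      have := congrFun he' r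
      rwa [Function.update_self, Function.update_self] at this
    have hother : ∀ s, s ≠ r → t s = t' s := by
      intro s hs
      have := congrFun he' s
      rwa [Function.update_of_ne hs, Function.update_of_ne hs] at this
    have e1 : S.vz l b n t i = 0 := h3.2.1
    have e2 : S.vz l b n t j = 0 := h3.2.2
    have e3 : S.vz l b n' t' i = 0 := h4.2.1
    have e4 : S.vz l b n' t' j = 0 := h4.2.2
    have h5 : ∑ s, ((S.a i : ZMod l) * S.c j s - (S.a j : ZMod l) * S.c i s) * t s =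
        ∑ s, ((S.a i : ZMod l) * S.c j s - (S.a j : ZMod l) * S.c i s) * t' s := by
      have h6 := hlin n t
      have h7 := hlin n' t'
      rw [e1, e2, mul_zero, mul_zero, sub_zero] at h6
      rw [e3, e4, mul_zero, mul_zero, sub_zero] at h7
      exact add_right_cancel (h6.symm.trans h7)
    have h8 : ((S.a i : ZMod l) * S.c j r - (S.a j : ZMod l) * S.c i r) * t r =
        ((S.a i : ZMod l) * S.c j r - (S.a j : ZMod l) * S.c i r) * t' r := by
      rw [← Finset.add_sum_erase _ _ (Finset.mem_univ r), ← Finset.add_sum_erase _ _ (Finset.mem_univ r)] at h5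
      have h9 : ∑ s ∈ univ.erase r, ((S.a i : ZMod l) * S.c j s - (S.a j : ZMod l) * S.c i s) * t s =
          ∑ s ∈ univ.erase r, ((S.a i : ZMod l) * S.c j s - (S.a j : ZMod l) * S.c i s) * t' s :=
        Finset.sum_congr rfl fun s hs => by rw [hother s (Finset.ne_of_mem_erase hs)]
      rw [h9] at h5
      exact add_right_cancel h5
    have hr' : (S.a i : ZMod l) * S.c j r - (S.a j : ZMod l) * S.c i r ≠ 0 := by
      intro h
      apply hr
      push_cast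
      exact h
    have h10 : t r = t' r := mul_left_cancel₀ hr' h8
    have h11 : t = t' := by
      funext s
      by_cases hs : s = r
      · rw [hs]
        exact h10
      · exact hother s hs
    have h12 : n = n' := by
      rw [← h11] at e3
      have h13 : (S.a i : ZMod l) * n = (S.a i : ZMod l) * n' := by
        unfold Sys.vz at e1 e3
        linear_combination e1 - e3
      exact mul_left_cancel₀ ha h13
    rw [h11, h12, hy]
  rw [Finset.card_product, Finset.card_univ, Finset.card_univ, ZMod.card, Fintype.card_fun, Fintype.card_fin,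
    ZMod.card] at h2
  exact_mod_cast h2

theorem l4_abs (l : ℕ) [Fact l.Prime] (s : ZMod l) : |glz l s| ≤ (if s = 0 then 1 else 0) + 1 / ((l : ℝ) - 1) := by
  have h2 : (2:ℝ) ≤ l := by exact_mod_cast (Fact.out : l.Prime).two_le
  have h3 : 0 < 1 / ((l : ℝ) - 1) := by
    apply div_pos one_pos
    linarith
  unfold glz
  split_ifs
  · rw [abs_neg, abs_one]
    linarith
  · rw [abs_of_pos h3]
    linarith

theorem l4_abs1 (l : ℕ) [Fact l.Prime] (s : ZMod l) : |glz l s| ≤ 1 := by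
  have h2 : (2:ℝ) ≤ l := by exact_mod_cast (Fact.out : l.Prime).two_le
  have h3 : 0 < 1 / ((l : ℝ) - 1) := by
    apply div_pos one_pos
    linarith
  unfold glz
  split_ifs
  · rw [abs_neg, abs_one]
  · rw [abs_of_pos h3, div_le_one (by linarith)]
    linarith

/-- For given `t` exactly one `n` makes the form `i` vanish; general sums over `n`. -/
theorem l4_bij {k d : ℕ} (S : Sys k d) (l : ℕ) [Fact l.Prime] (b : Fin k → ℤ) (i : Fin k)
    (ha : ((S.a i : ℤ) : ZMod l) ≠ 0) (t : Fin d → ZMod l) {M : Type*} [AddCommMonoid M] (f : ZMod l → M) :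
    ∑ n : ZMod l, f (S.vz l b n t i) = ∑ s : ZMod l, f s := by
  have hinj : Function.Injective fun n : ZMod l => S.vz l b n t i := by
    intro n n' h
    have h' : S.vz l b n t i = S.vz l b n' t i := h
    unfold Sys.vz at h'
    have h1 : (S.a i : ZMod l) * n = (S.a i : ZMod l) * n' := by
      linear_combination h'
    exact mul_left_cancel₀ ha h1
  have hbij : Function.Bijective fun n : ZMod l => S.vz l b n t i := Finite.injective_iff_bijective.1 hinj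
  exact hbij.sum_comp f

theorem l4_triv {k d : ℕ} (S : Sys k d) (l : ℕ) [Fact l.Prime] (b : Fin k → ℤ) (I : Finset (Fin k)) :
    ∑ t : Fin d → ZMod l, ‖∑ n : ZMod l, ∏ i ∈ I, ((glz l (S.vz l b n t i) : ℝ) : ℂ)‖ ≤ (l : ℝ) ^ (d + 1) := by
  have h1 : ∀ t : Fin d → ZMod l, ‖∑ n : ZMod l, ∏ i ∈ I, ((glz l (S.vz l b n t i) : ℝ) : ℂ)‖ ≤ (l : ℝ) := by
    intro t
    refine (norm_sum_le _ _).trans ?_
    have h2 : ∀ n ∈ (univ : Finset (ZMod l)), ‖∏ i ∈ I, ((glz l (S.vz l b n t i) : ℝ) : ℂ)‖ ≤ 1 := by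
      intro n _
      rw [norm_prod]
      refine Finset.prod_le_one (fun _ _ => norm_nonneg _) fun i _ => ?_
      rw [Complex.norm_real, Real.norm_eq_abs]
      exact l4_abs1 l _
    refine (Finset.sum_le_sum h2).trans ?_
    rw [Finset.sum_const, Finset.card_univ, ZMod.card, nsmul_eq_mul, mul_one]
  refine (Finset.sum_le_sum fun t _ => h1 t).trans ?_
  rw [Finset.sum_const, Finset.card_univ, Fintype.card_fun, Fintype.card_fin, ZMod.card, nsmul_eq_mul]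
  push_cast
  rw [pow_succ]

theorem l4_two {k d : ℕ} (S : Sys k d) (l : ℕ) [Fact l.Prime] (b : Fin k → ℤ) (I : Finset (Fin k)) {i j : Fin k}
    (hi : i ∈ I) (hj : j ∈ I) (hij : i ≠ j) (hai : ((S.a i : ℤ) : ZMod l) ≠ 0) (haj : ((S.a j : ℤ) : ZMod l) ≠ 0)
    (r : Fin d) (hr : ((S.a i * S.c j r - S.a j * S.c i r : ℤ) : ZMod l) ≠ 0) :
    ∑ t : Fin d → ZMod l, ‖∑ n : ZMod l, ∏ i ∈ I, ((glz l (S.vz l b n t i) : ℝ) : ℂ)‖ ≤
      (l : ℝ) ^ (d + 1) * (9 / (l : ℝ) ^ 2) := by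
  have h2 : (2:ℝ) ≤ l := by exact_mod_cast (Fact.out : l.Prime).two_le
  obtain ⟨δ, hδ⟩ : ∃ δ : ℝ, δ = 1 / ((l : ℝ) - 1) := ⟨_, rfl⟩
  have hδ0 : 0 < δ := by
    rw [hδ]
    apply div_pos one_pos
    linarith
  have hδ2 : δ * l ≤ 2 := by
    rw [hδ, div_mul_eq_mul_div, one_mul, div_le_iff₀ (by linarith)]
    linarith
  have hpt : ∀ (t : Fin d → ZMod l) (n : ZMod l), ‖∏ i ∈ I, ((glz l (S.vz l b n t i) : ℝ) : ℂ)‖ ≤
      (if S.vz l b n t i = 0 ∧ S.vz l b n t j = 0 then (1:ℝ) else 0) +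
      δ * ((if S.vz l b n t i = 0 then (1:ℝ) else 0) + (if S.vz l b n t j = 0 then (1:ℝ) else 0)) + δ ^ 2 := by
    intro t n
    rw [norm_prod, ← Finset.mul_prod_erase I _ hi,
      ← Finset.mul_prod_erase (I.erase i) _ (Finset.mem_erase.2 ⟨hij.symm, hj⟩), ← mul_assoc]
    have h3 : ∏ m ∈ (I.erase i).erase j, ‖((glz l (S.vz l b n t m) : ℝ) : ℂ)‖ ≤ 1 :=
      Finset.prod_le_one (fun _ _ => norm_nonneg _) fun m _ => by
        rw [Complex.norm_real, Real.norm_eq_abs]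
        exact l4_abs1 l _
    have h4 : ‖((glz l (S.vz l b n t i) : ℝ) : ℂ)‖ * ‖((glz l (S.vz l b n t j) : ℝ) : ℂ)‖ ≤
        ((if S.vz l b n t i = 0 then (1:ℝ) else 0) + δ) * ((if S.vz l b n t j = 0 then (1:ℝ) else 0) + δ) := by
      rw [Complex.norm_real, Real.norm_eq_abs, Complex.norm_real, Real.norm_eq_abs, hδ]
      exact mul_le_mul (l4_abs l _) (l4_abs l _) (abs_nonneg _) ((abs_nonneg _).trans (l4_abs l _))
    calc _ ≤ ‖((glz l (S.vz l b n t i) : ℝ) : ℂ)‖ * ‖((glz l (S.vz l b n t j) : ℝ) : ℂ)‖ * 1 :=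
          mul_le_mul_of_nonneg_left h3 (by positivity)
      _ ≤ _ := by
          rw [mul_one]
          refine h4.trans (le_of_eq ?_)
          by_cases hi0 : S.vz l b n t i = 0 <;> by_cases hj0 : S.vz l b n t j = 0 <;> simp [hi0, hj0] <;> ring
  have hone : ∀ (m : Fin k), ((S.a m : ℤ) : ZMod l) ≠ 0 → ∀ t : Fin d → ZMod l,
      ∑ n : ZMod l, (if S.vz l b n t m = 0 then (1:ℝ) else 0) = 1 := by
    intro m hm t
    rw [l4_bij S l b m hm t (fun s => if s = 0 then (1:ℝ) else 0)]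
    simp
  have hZ : ∑ t : Fin d → ZMod l, ∑ n : ZMod l, (if S.vz l b n t i = 0 ∧ S.vz l b n t j = 0 then (1:ℝ) else 0) =
      ((((univ : Finset ((Fin d → ZMod l) × ZMod l)).filter
      (fun x => S.vz l b x.2 x.1 i = 0 ∧ S.vz l b x.2 x.1 j = 0)).card : ℕ) : ℝ) := by
    rw [Finset.card_filter, Nat.cast_sum, Fintype.sum_prod_type]
    refine Finset.sum_congr rfl fun t _ => Finset.sum_congr rfl fun n _ => ?_
    split_ifs <;> simp
  obtain ⟨Z, hZe⟩ : ∃ Z : ℝ, Z = ((((univ : Finset ((Fin d → ZMod l) × ZMod l)).filter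
      (fun x => S.vz l b x.2 x.1 i = 0 ∧ S.vz l b x.2 x.1 j = 0)).card : ℕ) : ℝ) := ⟨_, rfl⟩
  have hZl := L4_zero S l b i j hai r hr
  rw [← hZe] at hZ hZl
  have hsum : ∑ t : Fin d → ZMod l, ‖∑ n : ZMod l, ∏ i ∈ I, ((glz l (S.vz l b n t i) : ℝ) : ℂ)‖ ≤
      Z + (l : ℝ) ^ d * (2 * δ + δ ^ 2 * l) := by
    calc _ ≤ ∑ t : Fin d → ZMod l, ∑ n : ZMod l, ((if S.vz l b n t i = 0 ∧ S.vz l b n t j = 0 then (1:ℝ) else 0) +
          δ * ((if S.vz l b n t i = 0 then (1:ℝ) else 0) + (if S.vz l b n t j = 0 then (1:ℝ) else 0)) + δ ^ 2) :=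
          Finset.sum_le_sum fun t _ => (norm_sum_le _ _).trans (Finset.sum_le_sum fun n _ => hpt t n)
      _ = Z + (l : ℝ) ^ d * (2 * δ + δ ^ 2 * l) := by
          have h5 : ∀ t : Fin d → ZMod l, ∑ n : ZMod l, ((if S.vz l b n t i = 0 ∧ S.vz l b n t j = 0 then (1:ℝ) else 0) +
              δ * ((if S.vz l b n t i = 0 then (1:ℝ) else 0) + (if S.vz l b n t j = 0 then (1:ℝ) else 0)) + δ ^ 2) =
              ∑ n : ZMod l, (if S.vz l b n t i = 0 ∧ S.vz l b n t j = 0 then (1:ℝ) else 0) + (2 * δ + δ ^ 2 * l) := by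
            intro t
            rw [Finset.sum_add_distrib, Finset.sum_add_distrib, ← Finset.mul_sum, Finset.sum_add_distrib,
              hone i hai t, hone j haj t, Finset.sum_const, Finset.card_univ, ZMod.card, nsmul_eq_mul]
            ring
          rw [Finset.sum_congr rfl fun t _ => h5 t, Finset.sum_add_distrib, hZ, Finset.sum_const, Finset.card_univ,
            Fintype.card_fun, Fintype.card_fin, ZMod.card, nsmul_eq_mul]
          push_cast
          ring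
  refine hsum.trans ?_
  have hl0 : (0:ℝ) < l := by linarith
  have hld : (0:ℝ) < (l : ℝ) ^ d := pow_pos hl0 _
  have h6 : (l : ℝ) ^ (d + 1) * (9 / (l : ℝ) ^ 2) = (l : ℝ) ^ d * 9 / l := by
    rw [pow_succ]
    field_simp
  rw [h6, le_div_iff₀ hl0]
  have h7 : (2 * δ + δ ^ 2 * l) * l ≤ 8 := by
    have h8 : (2 * δ + δ ^ 2 * l) * l = 2 * (δ * l) + (δ * l) ^ 2 := by ring
    rw [h8]
    have h9 : 0 ≤ δ * l := by positivity
    nlinarith
  have h10 : (l : ℝ) ^ d * ((2 * δ + δ ^ 2 * l) * l) ≤ (l : ℝ) ^ d * 8 := mul_le_mul_of_nonneg_left h7 hld.le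
  nlinarith

/-- Proof. `M0 = ∏_i |a_i| · ∏_{i ≠ j} |m_ij|`, `m_ij = a_i c_jr - a_j c_ir ≠ 0` for some `r` (`T6S_ne`). `l ∣ M0`: `l ≤ M0`, trivial bound
`l^(d+1)` (`|glz| ≤ 1`) and `2^A ≥ M0²`. `l ∤ M0`: if `I = {i}`, the sum over `n` vanishes (`n ↦ vz n t i` is a bijection,
`E3_glz` in `H59T/E3.lean`). Else take `i ≠ j` in `I`: `|∏_{I} glz| ≤ |glz(vz i)| |glz(vz j)|`; the sum over `(t, n)` of this is at most the number of
common zeros (`L4_zero`) plus `2 l^d/(l-1)` (exactly one is zero, the other factor is `1/(l-1)`; for given `t` at most two `n`) plus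
`l^(d+1)/(l-1)²`: at most `l^(d-1) + 4 l^(d-1) + 4 l^(d-1)`, and `2^A ≥ 9`. -/
theorem L4_gl {k d : ℕ} (S : Sys k d) (hS : S.Half) : ∃ A : ℕ, ∀ (l : ℕ) [Fact l.Prime] (b : Fin k → ℤ)
    (I : Finset (Fin k)), I.Nonempty →
    ∑ t : Fin d → ZMod l, ‖∑ n : ZMod l, ∏ i ∈ I, ((glz l (S.vz l b n t i) : ℝ) : ℂ)‖ ≤
      (l : ℝ) ^ (d + 1) * (2 ^ A / (l : ℝ) ^ 2) := by
  have hex : ∀ i j : Fin k, ∃ m : ℤ, m ≠ 0 ∧ (i ≠ j → ∃ r : Fin d, S.a i * S.c j r - S.a j * S.c i r = m) := by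
    intro i j
    by_cases hij : i = j
    · exact ⟨1, one_ne_zero, fun h => absurd hij h⟩
    · obtain ⟨r, hr⟩ := T6S_ne S hS i j hij
      exact ⟨_, hr, fun _ => ⟨r, rfl⟩⟩
  choose m hm0 hm using hex
  obtain ⟨M, hM⟩ : ∃ M : ℤ, M = (∏ i, S.a i) * ∏ i, ∏ j, m i j := ⟨_, rfl⟩
  have hM0 : M ≠ 0 := by
    rw [hM]
    exact mul_ne_zero (Finset.prod_ne_zero_iff.2 fun i _ => hS.1 i)
      (Finset.prod_ne_zero_iff.2 fun i _ => Finset.prod_ne_zero_iff.2 fun j _ => hm0 i j)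
  refine ⟨M.natAbs ^ 2 + 4, fun l hlf b I hI => ?_⟩
  have hl := hlf.out
  have h2 : (2:ℝ) ≤ l := by exact_mod_cast hl.two_le
  have hl0 : (0:ℝ) < l := by linarith
  by_cases hlM : (l : ℤ) ∣ M
  · have h3 : l ≤ M.natAbs := Nat.le_of_dvd (Int.natAbs_pos.2 hM0) (Int.natCast_dvd.1 hlM)
    have h4 : l ^ 2 ≤ 2 ^ (M.natAbs ^ 2 + 4) := by
      calc l ^ 2 ≤ M.natAbs ^ 2 := Nat.pow_le_pow_left h3 2
        _ ≤ 2 ^ (M.natAbs ^ 2) := Nat.lt_two_pow_self.le
        _ ≤ 2 ^ (M.natAbs ^ 2 + 4) := Nat.pow_le_pow_right (by norm_num) (by omega)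
    have h5 : (l : ℝ) ^ 2 ≤ 2 ^ (M.natAbs ^ 2 + 4) := by exact_mod_cast h4
    refine (l4_triv S l b I).trans ?_
    have h6 : 1 ≤ (2:ℝ) ^ (M.natAbs ^ 2 + 4) / (l : ℝ) ^ 2 := by
      rw [le_div_iff₀ (by positivity), one_mul]
      exact h5
    calc (l : ℝ) ^ (d + 1) = (l : ℝ) ^ (d + 1) * 1 := (mul_one _).symm
      _ ≤ _ := mul_le_mul_of_nonneg_left h6 (by positivity)
  · have hla : ∀ i, ((S.a i : ℤ) : ZMod l) ≠ 0 := by
      intro i h
      rw [ZMod.intCast_zmod_eq_zero_iff_dvd] at h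
      apply hlM
      rw [hM]
      exact dvd_mul_of_dvd_left (h.trans (Finset.dvd_prod_of_mem _ (Finset.mem_univ i))) _
    have hlm : ∀ i j, ((m i j : ℤ) : ZMod l) ≠ 0 := by
      intro i j h
      rw [ZMod.intCast_zmod_eq_zero_iff_dvd] at h
      apply hlM
      rw [hM]
      refine dvd_mul_of_dvd_right ?_ _
      have h3 : m i j ∣ ∏ j, m i j := Finset.dvd_prod_of_mem _ (Finset.mem_univ j)
      have h4 : ∏ j, m i j ∣ ∏ i, ∏ j, m i j := Finset.dvd_prod_of_mem (fun i => ∏ j, m i j) (Finset.mem_univ i)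
      exact h.trans (h3.trans h4)
    obtain ⟨i, hi⟩ := hI
    by_cases hone : ∃ j ∈ I, i ≠ j
    · obtain ⟨j, hj, hij⟩ := hone
      obtain ⟨r, hr⟩ := hm i j hij
      refine (l4_two S l b I hi hj hij (hla i) (hla j) r (by rw [hr]; exact hlm i j)).trans ?_
      refine mul_le_mul_of_nonneg_left ?_ (by positivity)
      refine div_le_div_of_nonneg_right ?_ (by positivity)
      calc (9:ℝ) ≤ 2 ^ 4 := by norm_num
        _ ≤ 2 ^ (M.natAbs ^ 2 + 4) := pow_le_pow_right₀ (by norm_num) (by omega)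
    · push Not at hone
      have hIi : I = {i} := by
        ext j
        rw [Finset.mem_singleton]
        constructor
        · intro hj
          exact (hone j hj).symm
        · intro hj
          rw [hj]
          exact hi
      have h7 : ∑ t : Fin d → ZMod l, ‖∑ n : ZMod l, ∏ i ∈ I, ((glz l (S.vz l b n t i) : ℝ) : ℂ)‖ = 0 := by
        refine Finset.sum_eq_zero fun t _ => ?_
        rw [hIi]
        simp only [Finset.prod_singleton]
        rw [l4_bij S l b i (hla i) t (fun s => ((glz l s : ℝ) : ℂ)), ← Complex.ofReal_sum, Pool.Agent.Lib.H59T.E3_glz]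
        simp
      rw [h7]
      positivity

/-- Proof. `l ∤ Rm p`, so `l` divides no `(p i).1` and `lf (p i) (κ i) l m` is `gl l m` if `l ∣ κ i` and `1` else; `C3_gl`, `L2T` with
`G i = if l ∣ κ i then glz l else 1`, and `L4_gl` with `I = {i : l ∣ κ i}` (`Finset.prod_filter`). -/
theorem L4_out {k d : ℕ} (S : Sys k d) (hS : S.Half) : ∃ A : ℕ, ∀ (b : Fin k → ℤ) (p : Fin k → Ch), Pm p →
    ∀ κ : Fin k → ℕ, Kp p κ → ∀ l : ℕ, l.Prime → ¬ l ∣ Rm p → (∃ i, l ∣ κ i) →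
    FM S l b (fun i => lf (p i) (κ i) l) ≤ (l : ℝ) ^ (d + 1) * (2 ^ A / (l : ℝ) ^ 2) := by
  obtain ⟨A, hA⟩ := L4_gl S hS
  refine ⟨A, fun b p hp κ hκ l hl hlR hex => ?_⟩
  have hlf : Fact l.Prime := ⟨hl⟩
  have hl0 : NeZero l := ⟨hl.ne_zero⟩
  have hlp : ∀ i, ¬ l ∣ (p i).1 := fun i h =>
    hlR (h.trans (Finset.dvd_lcm (Finset.mem_univ i)))
  rw [L2T S l b (fun i => lf (p i) (κ i) l) (fun i s => if l ∣ κ i then ((glz l s : ℝ) : ℂ) else 1) (fun i m => by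
    unfold Pool.Agent.Lib.H59T.lf
    rw [if_neg (hlp i), Pool.Agent.Lib.H59T.C3_gl])]
  have h := hA l b (univ.filter fun i => l ∣ κ i) (by
    obtain ⟨i, hi⟩ := hex
    exact ⟨i, Finset.mem_filter.2 ⟨Finset.mem_univ i, hi⟩⟩)
  refine le_trans (le_of_eq ?_) h
  unfold FZ
  refine Finset.sum_congr rfl fun t _ => congrArg norm (Finset.sum_congr rfl fun n _ => ?_)
  rw [Finset.prod_filter]

end Pool.Agent.H9U
end

-- from Lib.H9U.U1B
section

/-!
# H9U, chunk U1B (S/M): cutoff of the kernel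
-/

open Finset

namespace Pool.Agent.H9U

open Pool.Agent.H44W (ee)
open Pool.Agent.H9S (Bd BF Sx Sy)

/-- Proof. `x + y ∈ (X, 4X) ⊆ [0, M)` with `M = 4 X + 1` for `x ∈ Sx X`, `y ∈ Sy X`. Insert `U1A_ind M u v`; `ee(j (x+y)/M) = ee(j x/M) ee(j y/M)`
(`ee_add`) is absorbed in `f` and `g` (still bounded by `1`). Triangle inequality. -/
theorem U1B_cut (X : ℕ) (F : ℤ → ℂ) (B : ℝ) (hF : ∀ W f g : ℤ → ℂ, Bd W → Bd f → Bd g → ‖BF (Sx X) (Sy X) F W f g‖ ≤ B)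
    (u v : ℤ) (W f g : ℤ → ℂ) (hW : Bd W) (hf : Bd f) (hg : Bd g) :
    ‖BF (Sx X) (Sy X) (fun m => if u ≤ m ∧ m < v then F m else 0) W f g‖ ≤
      4 * (1 + Real.log ((4 * X + 1 : ℕ) : ℝ)) * B := by
  obtain ⟨c, hc1, hc2⟩ := U1A_ind (4 * X + 1) (by omega) u v
  have hB0 : 0 ≤ B := le_trans (norm_nonneg _) (hF W f g hW hf hg)
  have key : BF (Sx X) (Sy X) (fun m => if u ≤ m ∧ m < v then F m else 0) W f g =
      ∑ j ∈ range (4 * X + 1), c j * BF (Sx X) (Sy X) F W (fun x => f x * ee ((j:ℝ) * x / ((4 * X + 1 : ℕ) : ℝ)))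
        (fun y => g y * ee ((j:ℝ) * y / ((4 * X + 1 : ℕ) : ℝ))) := by
    simp only [BF, mul_sum]
    symm
    rw [sum_comm]
    refine sum_congr rfl fun x hx => ?_
    rw [sum_comm]
    refine sum_congr rfl fun y hy => ?_
    symm
    rw [Sx, mem_Ico] at hx
    rw [Sy, mem_Ioo] at hy
    have h1 := hc1 (x + y) (by omega) (by push_cast; omega)
    have h2 : (if u ≤ x + y ∧ x + y < v then F (x + y) else 0) = F (x + y) * (if u ≤ x + y ∧ x + y < v then (1:ℂ) else 0) := by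
      split_ifs <;> simp
    rw [h2, h1, mul_sum, mul_sum, sum_mul]
    refine sum_congr rfl fun j _ => ?_
    have h3 : ee ((j : ℝ) * ((x + y : ℤ) : ℝ) / ((4 * X + 1 : ℕ) : ℝ)) =
        ee ((j:ℝ) * x / ((4 * X + 1 : ℕ) : ℝ)) * ee ((j:ℝ) * y / ((4 * X + 1 : ℕ) : ℝ)) := by
      rw [← Pool.Agent.H44W.ee_add]
      congr 1
      push_cast
      ring
    rw [h3]
    ring
  rw [key]
  refine le_trans (norm_sum_le _ _) ?_
  have h4 : ∀ j ∈ range (4 * X + 1), ‖c j * BF (Sx X) (Sy X) F W (fun x => f x * ee ((j:ℝ) * x / ((4 * X + 1 : ℕ) : ℝ)))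
        (fun y => g y * ee ((j:ℝ) * y / ((4 * X + 1 : ℕ) : ℝ)))‖ ≤ ‖c j‖ * B := by
    intro j _
    rw [norm_mul]
    refine mul_le_mul_of_nonneg_left (hF _ _ _ hW ?_ ?_) (norm_nonneg _)
    · intro x
      change ‖f x * _‖ ≤ 1
      rw [norm_mul, Pool.Agent.H44W.norm_ee, mul_one]
      exact hf x
    · intro y
      change ‖g y * _‖ ≤ 1
      rw [norm_mul, Pool.Agent.H44W.norm_ee, mul_one]
      exact hg y
  refine le_trans (sum_le_sum h4) ?_
  rw [← sum_mul]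
  exact mul_le_mul_of_nonneg_right hc2 hB0

end Pool.Agent.H9U
end

-- from Lib.H9U.M2
section

/-!
# H9U, chunk M2 (S): the pointwise identities of H59P at arbitrary values
-/

open Finset

namespace Pool.Agent.H9U

open Pool.Agent.Lib.H68T (PC p0)
open Pool.Agent.Lib.H18Q (gk KS SG)
open Pool.Agent.Lib.H59P (Ch cj uu gl pr SF)

/-- Proof. `M2` (`H59P/M2.lean`) with `n := 0` and `h i := (m i).toNat`; `Ph` and `Wd` at `n = 0` are `PhV` and `WdV`. -/
theorem M2S {k : ℕ} (Q D R : ℕ) (hDQ : D ≤ Q) (hR : 0 < R) (p : Fin k → Ch) (hp : ∀ i, p i ∈ PC Q)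
    (hd : ∀ i, (p i).1 ∣ R) (m : Fin k → ℤ) (hm : ∀ i, 0 ≤ m i) :
    ∑ κ ∈ (Fintype.piFinset fun i => KS Q (p i).1).filter (fun κ => R.lcm (univ.lcm κ) ≤ D),
      ∏ i, gk (p i) (κ i) (m i) =
    PhV p R.primeFactors m * ∑ e ∈ SF (D / R) R, ((WdV e m : ℝ) : ℂ) := by
  have e : ∀ i, (0 : ℤ) + (((m i).toNat : ℕ) : ℤ) = m i := fun i => by rw [zero_add, Int.toNat_of_nonneg (hm i)]
  have h := Pool.Agent.Lib.H59P.M2 Q D R hDQ hR p hp hd (fun i => (m i).toNat) 0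
  unfold Pool.Agent.Lib.H59P.Ph Pool.Agent.Lib.H59P.Wd Pool.Agent.Lib.H59P.Wl at h
  simp only [e] at h
  exact h

/-- Proof. `Z1a` (`H59P/Z1A.lean`) with `n := 0` and `h i := (m i).toNat`. -/
theorem Z1S {k : ℕ} (Q : ℕ) (c : Fin k → Ch → ℂ) (m : Fin k → ℤ) (hm : ∀ i, 0 ≤ m i) :
    ∏ i, SG Q (c i) (m i) =
      ∑ p ∈ Fintype.piFinset fun _ : Fin k => PC Q, (∏ i, c i (p i)) *
        ∑ κ ∈ Fintype.piFinset fun i => KS Q (p i).1, ∏ i, gk (p i) (κ i) (m i) := by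
  have e : ∀ i, (0 : ℤ) + (((m i).toNat : ℕ) : ℤ) = m i := fun i => by rw [zero_add, Int.toNat_of_nonneg (hm i)]
  have h := Pool.Agent.Lib.H59P.Z1a Q c (fun i => (m i).toNat) 0
  simp only [e] at h
  exact h

end Pool.Agent.H9U
end

-- from Lib.H9U.U0A
section

/-!
# H9U, chunk U0A (S/M): the projection of small level as a sum over characters, and its size
-/

open Finset

namespace Pool.Agent.H9U

open Pool.Agent.H44W (ee)
open Pool.Agent.H9S (Bd lc Lc BF Sx Sy)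
open Pool.Agent.Lib.H68T (lp Lk PC p0 dQ)
open Pool.Agent.Lib.H18Q (gk KS Bc RegP SG)
open Pool.Agent.Lib.H59P (Ch)

/-- Proof. This is `hB` in the proof of `UL_expand` (`H59T/UL.lean`): `DA_expand Q' X (X / Q ^ 2) m` (regime as there), coefficients `Bc Q X p m`
(definition of `Bc`, window `X / Q ^ 2`). `SG Q' b m` is `∑ p ∈ PC Q', Gam Q' p.1 m * conj (χ m) * b p`. -/
theorem Lk_two : ∃ K : ℝ, 1 ≤ K ∧ ∀ Q Q' X : ℕ, RegP K Q X → 1 ≤ Q' → Q' ≤ Q → ∀ m : ℤ,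
    (X : ℤ) ≤ m → m ≤ 4 * X → ((Lk Q' (X / Q ^ 2) m : ℝ) : ℂ) = SG Q' (fun p => Bc Q X p m) m := by
  obtain ⟨K1, hK1, h1⟩ := Pool.Agent.Lib.H18Q.BPS_regimeP
  obtain ⟨K2, hK2, h2⟩ := Pool.Agent.Lib.H18Q.regp_pow_le 2 1 1 one_pos
  refine ⟨max K1 K2, hK1.trans (le_max_left _ _), fun Q Q' X hreg hQ'1 hQ'Q m hm hm4 => ?_⟩
  have hK0 : 0 ≤ max K1 K2 := by linarith [le_max_left K1 K2]
  obtain ⟨hQ, hX, hY, hYX, hXY, -⟩ := h1 Q X (hreg.mono hK0 (le_max_left _ _))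
  have hlog := h2 Q X (hreg.mono hK0 (le_max_right _ _))
  rw [Real.rpow_one, Real.rpow_one] at hlog
  have h3 : 2 * Q ≤ X := by exact_mod_cast hlog
  unfold SG Bc
  exact Pool.Agent.Lib.H68T.DA_expand Q' X (X / Q ^ 2) m hm hm4 (by omega) (by omega)

/-- Proof. As `BDL_bd` (`H9S/BDL.lean`): `Lk_two`, `S1b Q'` (`H59P/S1B.lean`) with the coefficients `Bc Q X p m`, `p ∈ PC Q' ⊆ PC Q`, bounded by
`mb p` (`UM_mass`, total at most `C`; the sum over the subset `PC Q'` is at most the sum over `PC Q`), `dQ Q' m ≤` number of divisors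
(`BDL_dQ`), divisor bound, `m ≤ 4 X`, `Q' ≤ Q ≤ X` (`RegP`). -/
theorem U0_size : ∃ K : ℝ, 1 ≤ K ∧ ∀ ε : ℝ, 0 < ε → ∃ X0 : ℕ, ∀ Q Q' X : ℕ, X0 ≤ X → RegP K Q X → 1 ≤ Q' →
    Q' ≤ Q → ∀ m : ℤ, (X : ℤ) ≤ m → m ≤ 4 * X → |Lk Q' (X / Q ^ 2) m| ≤ (X : ℝ) ^ ε := by
  obtain ⟨K1, C1, hK1, hC1, hmass⟩ := Pool.Agent.Lib.H59T.UM_mass
  obtain ⟨K2, hK2, hSG⟩ := Lk_two
  obtain ⟨K3, hK3, hpow⟩ := Pool.Agent.Lib.H18Q.regp_pow_le 1 1 1 one_pos
  refine ⟨max (max K1 K2) K3, hK1.trans ((le_max_left _ _).trans (le_max_left _ _)), fun ε hε => ?_⟩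
  obtain ⟨C, hC, hdiv⟩ := Pool.Agent.Lib.H21AP.divisor_bound (ε := ε / 2) (by positivity)
  obtain ⟨c3, hc3⟩ : ∃ c3 : ℝ, c3 = 100 * (1 + 12 / ε) ^ 3 * (C * 4 ^ (ε / 2)) * C1 := ⟨_, rfl⟩
  have ht1 : ∀ᶠ n : ℕ in Filter.atTop, c3 ≤ (n:ℝ) ^ (ε / 4) :=
    ((tendsto_rpow_atTop (by positivity : 0 < ε / 4)).comp tendsto_natCast_atTop_atTop).eventually_ge_atTop _
  obtain ⟨n1, hn1⟩ := Filter.eventually_atTop.1 ht1
  refine ⟨max n1 1, fun Q Q' X hX hreg hQ' hQQ m hm1 hm2 => ?_⟩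
  have hn1' := hn1 X (by omega)
  have hX1 : 1 ≤ X := by omega
  have hnp : (0:ℝ) < X := by exact_mod_cast hX1
  have hn1r : (1:ℝ) ≤ X := by exact_mod_cast hX1
  have hK0 : 0 ≤ max (max K1 K2) K3 := zero_le_one.trans (hK1.trans ((le_max_left _ _).trans (le_max_left _ _)))
  have hQX : Q ≤ X := by
    have h := hpow Q X (hreg.mono hK0 (le_max_right _ _))
    rw [Real.rpow_one, Real.rpow_one, one_mul] at h
    exact_mod_cast h
  obtain ⟨mb, hmb0, hmbs, hmb⟩ := hmass Q X (hreg.mono hK0 ((le_max_left _ _).trans (le_max_left _ _)))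
  have h1 := hSG Q Q' X (hreg.mono hK0 ((le_max_right _ _).trans (le_max_left _ _))) hQ' hQQ m hm1 hm2
  have hsub : PC Q' ⊆ PC Q := by
    intro p hp
    obtain ⟨a, b, c⟩ := Pool.Agent.Lib.H68T.mem_PC.1 hp
    exact Pool.Agent.Lib.H68T.mem_PC.2 ⟨a, b.trans hQQ, c⟩
  have h2 := Pool.Agent.Lib.H59P.S1b Q' hQ' (fun p => Bc Q X p m) mb (fun p hp => hmb m hm1 hm2 p (hsub hp)) m
  have hmbs' : ∑ p ∈ PC Q', mb p ≤ C1 :=
    (Finset.sum_le_sum_of_subset_of_nonneg hsub fun p hp _ => hmb0 p hp).trans hmbs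
  have hm1' : (1:ℤ) ≤ m := by omega
  have h3 : |Lk Q' (X / Q ^ 2) m| ≤ 100 * (1 + Real.log Q') ^ 3 * dQ Q' m * C1 := by
    rw [← Real.norm_eq_abs, ← Complex.norm_real, h1]
    refine h2.trans ?_
    refine mul_le_mul_of_nonneg_left hmbs' ?_
    have : 0 ≤ dQ Q' m := by unfold dQ; positivity
    have : 0 ≤ Real.log Q' := Real.log_natCast_nonneg Q'
    positivity
  refine h3.trans ?_
  have hlogQ0 : 0 ≤ Real.log Q' := Real.log_natCast_nonneg Q'
  have hdq0 : 0 ≤ dQ Q' m := by unfold dQ; positivity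
  have h4 : dQ Q' m ≤ (C * 4 ^ (ε / 2)) * (X:ℝ) ^ (ε / 2) := by
    refine (Pool.Agent.H9S.BDL_dQ Q' m hm1').trans ?_
    refine (hdiv m.toNat (by omega)).trans ?_
    rw [mul_assoc, ← Real.mul_rpow (by norm_num) hnp.le]
    refine mul_le_mul_of_nonneg_left ?_ hC.le
    refine Real.rpow_le_rpow (Nat.cast_nonneg _) ?_ (by positivity)
    have h5 : m.toNat ≤ 4 * X := by omega
    exact_mod_cast h5
  have h5 : (1 + Real.log Q') ^ 3 ≤ (1 + 12 / ε) ^ 3 * (X:ℝ) ^ (ε / 4) := by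
    have h6 : Real.log Q' ≤ Real.log X :=
      Real.log_le_log (by exact_mod_cast hQ') (by exact_mod_cast hQQ.trans hQX)
    have h7 : Real.log X ≤ (X:ℝ) ^ (ε / 12) / (ε / 12) := Real.log_le_rpow_div hnp.le (by positivity)
    have h8 : (X:ℝ) ^ (ε / 12) / (ε / 12) = 12 / ε * (X:ℝ) ^ (ε / 12) := by
      field_simp
    have h9 : (1:ℝ) ≤ (X:ℝ) ^ (ε / 12) := Real.one_le_rpow hn1r (by positivity)
    have h10 : 1 + Real.log Q' ≤ (1 + 12 / ε) * (X:ℝ) ^ (ε / 12) := by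
      rw [h8] at h7
      have : 0 < 12 / ε := by positivity
      nlinarith
    have h11 : ((X:ℝ) ^ (ε / 12)) ^ 3 = (X:ℝ) ^ (ε / 4) := by
      rw [← Real.rpow_natCast, ← Real.rpow_mul hnp.le]
      congr 1
      push_cast
      ring
    calc (1 + Real.log Q') ^ 3 ≤ ((1 + 12 / ε) * (X:ℝ) ^ (ε / 12)) ^ 3 := pow_le_pow_left₀ (by linarith) h10 3
      _ = (1 + 12 / ε) ^ 3 * (X:ℝ) ^ (ε / 4) := by rw [mul_pow, h11]
  have hC1' : 0 ≤ C1 := by linarith
  have hP0 : 0 ≤ (X:ℝ) ^ (ε / 2) := Real.rpow_nonneg hnp.le _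
  have hP1 : 0 ≤ (X:ℝ) ^ (ε / 4) := Real.rpow_nonneg hnp.le _
  calc 100 * (1 + Real.log Q') ^ 3 * dQ Q' m * C1
      ≤ 100 * ((1 + 12 / ε) ^ 3 * (X:ℝ) ^ (ε / 4)) * ((C * 4 ^ (ε / 2)) * (X:ℝ) ^ (ε / 2)) * C1 := by
        refine mul_le_mul_of_nonneg_right ?_ hC1'
        refine mul_le_mul (mul_le_mul_of_nonneg_left h5 (by norm_num)) h4 hdq0 (by positivity)
    _ = c3 * ((X:ℝ) ^ (ε / 4) * (X:ℝ) ^ (ε / 2)) := by rw [hc3]; ring
    _ ≤ (X:ℝ) ^ (ε / 4) * ((X:ℝ) ^ (ε / 4) * (X:ℝ) ^ (ε / 2)) :=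
        mul_le_mul_of_nonneg_right hn1' (mul_nonneg hP1 hP0)
    _ = (X:ℝ) ^ ε := by
        rw [← Real.rpow_add hnp, ← Real.rpow_add hnp]
        congr 1
        ring

/-- Proof. `lp m` is `0` or `log m`, `m ≤ 4X`. -/
theorem U0_lp (ε : ℝ) (hε : 0 < ε) : ∃ X0 : ℕ, ∀ X : ℕ, X0 ≤ X → ∀ m : ℤ, m ≤ 4 * X → |lp m| ≤ (X : ℝ) ^ ε := by
  have ht1 : ∀ᶠ n : ℕ in Filter.atTop, 4 ^ (ε / 2) / (ε / 2) ≤ (n:ℝ) ^ (ε / 2) :=
    ((tendsto_rpow_atTop (by positivity : 0 < ε / 2)).comp tendsto_natCast_atTop_atTop).eventually_ge_atTop _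
  obtain ⟨n1, hn1⟩ := Filter.eventually_atTop.1 ht1
  refine ⟨max n1 1, fun X hX m hm => ?_⟩
  have h1 := hn1 X (by omega)
  have hX1 : 1 ≤ X := by omega
  have hnp : (0:ℝ) < X := by exact_mod_cast hX1
  have hXe : 0 ≤ (X:ℝ) ^ ε := Real.rpow_nonneg hnp.le _
  unfold Pool.Agent.Lib.H68T.lp
  by_cases hp : m.toNat.Prime
  · rw [if_pos hp]
    have hm1 : 1 ≤ m.toNat := hp.one_le
    have hm2 : (1:ℤ) ≤ m := by omega
    have hmr : (1:ℝ) ≤ (m:ℝ) := by exact_mod_cast hm2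
    have hm4 : (m:ℝ) ≤ 4 * X := by exact_mod_cast hm
    rw [abs_of_nonneg (Real.log_nonneg hmr)]
    calc Real.log m ≤ Real.log (4 * X) := Real.log_le_log (by linarith) hm4
      _ ≤ (4 * (X:ℝ)) ^ (ε / 2) / (ε / 2) := Real.log_le_rpow_div (by positivity) (by positivity)
      _ = 4 ^ (ε / 2) / (ε / 2) * (X:ℝ) ^ (ε / 2) := by
          rw [Real.mul_rpow (by norm_num) hnp.le]
          ring
      _ ≤ (X:ℝ) ^ (ε / 2) * (X:ℝ) ^ (ε / 2) := mul_le_mul_of_nonneg_right h1 (Real.rpow_nonneg hnp.le _)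
      _ = (X:ℝ) ^ ε := by
          rw [← Real.rpow_add hnp]
          congr 1
          ring
  · rw [if_neg hp, abs_zero]
    exact hXe

end Pool.Agent.H9U
end

-- from Lib.H9U.U0B
section

/-!
# H9U, chunk U0B (M): the error of the projection of small level is uniform
-/

open Finset

namespace Pool.Agent.H9U

open Pool.Agent.H44W (ee)
open Pool.Agent.H9S (Bd lc Lc BF Sx Sy)
open Pool.Agent.Lib.H68T (lp Lk)
open Pool.Agent.Lib.H18Q (RegP)

theorem u0b_add (S T : Finset ℤ) (F1 F2 W f g : ℤ → ℂ) :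
    BF S T (fun m => F1 m + F2 m) W f g = BF S T F1 W f g + BF S T F2 W f g := by
  unfold BF
  rw [← Finset.sum_add_distrib]
  refine Finset.sum_congr rfl fun x _ => ?_
  rw [← Finset.sum_add_distrib]
  refine Finset.sum_congr rfl fun y _ => ?_
  ring

/-- Proof. Compare the proof of `H9S.OP_main` (`H9S/O3.lean`). `OPW` is `O1_op (E1_inv (K3_inv (T2_box (P2_inv hI))))`; its hypotheses at `(Q, X)`,
with `n := X`: `LKd C2 Q X` from `LK_box` (as in `OP_main`), the Fourier bound from `fourier_smallP`, the size of `Ec Q X` from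
`BDL_bd` (with `n := X`) and `|lp| ≤ log (4 X)`, `W` bounded by `1 ≤ X^c`. So `‖BF (Ec Q X) W f g‖ ≤ X^(2-c)`. And
`Er Q Q' X m = Ec Q X m + (Lc Q (X/Q²) m - Lc Q' (X/Q²) m)` (`BF` is additive in the kernel), the second part is at most
`C2 X² Q'^(-1/1152) ≤ C2 X^(2 - θ/1152)` (`LK_box`, `Rgm.low`). `κ = min (min c (θ/1152)) 1 / 2`, `X` large. Size: `U0_size`, `U0_lp` with
`ε = κ/200` (`2 X^(κ/200) ≤ X^(κ/100)`). `1 ≤ Q'` from `Rgm.low` (`X^θ ≥ 1`). -/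
theorem U0_unif (hI : Pool.Agent.H9S.INV) : ∃ K : ℝ, 1 ≤ K ∧ ∀ Cr θ : ℝ, 1 ≤ Cr → 0 < θ → ∃ κ : ℝ, 0 < κ ∧ κ ≤ 1 ∧
    ∃ X0 : ℕ, ∀ Q Q' X : ℕ, X0 ≤ X → Rgm K Cr θ Q Q' X → Unif X κ (Er Q Q' X) := by
  obtain ⟨K1, hK1, hbd⟩ := U0_size
  obtain ⟨K2, C2, hK2, hC2, hLK⟩ := Pool.Agent.Lib.H59T.LK_box
  obtain ⟨K3, hfs⟩ := Pool.Agent.Lib.H18Q.fourier_smallP
  have hO := Pool.Agent.H9S.O1_op (Pool.Agent.H9S.E1_inv (Pool.Agent.H9S.K3_inv (Pool.Agent.H9S.T2_box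
    (Pool.Agent.H9S.P2_inv hI))))
  refine ⟨max (max K1 K2) (max K3 4), hK1.trans ((le_max_left _ _).trans (le_max_left _ _)), fun Cr θ hCr hθ => ?_⟩
  obtain ⟨K, hK⟩ : ∃ K : ℝ, K = max (max K1 K2) (max K3 4) := ⟨_, rfl⟩
  rw [← hK]
  have hKK1 : K1 ≤ K := by rw [hK]; exact (le_max_left _ _).trans (le_max_left _ _)
  have hKK2 : K2 ≤ K := by rw [hK]; exact (le_max_right _ _).trans (le_max_left _ _)
  have hKK3 : K3 ≤ K := by rw [hK]; exact (le_max_left _ _).trans (le_max_right _ _)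
  have hKK4 : (4:ℝ) ≤ K := by rw [hK]; exact (le_max_right _ _).trans (le_max_right _ _)
  have hK0 : 0 ≤ K := by linarith
  clear hK
  obtain ⟨c, hc, n1, h1⟩ := hO Cr C2 hCr hC2
  obtain ⟨κ, hκ⟩ : ∃ κ : ℝ, κ = min (min c (θ / 1152)) 1 / 2 := ⟨_, rfl⟩
  have hm0 : 0 < min (min c (θ / 1152)) 1 := lt_min (lt_min hc (by positivity)) one_pos
  have hκ0 : 0 < κ := by rw [hκ]; linarith
  have hκc : 2 * κ ≤ c := by
    have := (min_le_left (min c (θ / 1152)) 1).trans (min_le_left c (θ / 1152))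
    rw [hκ]; linarith
  have hκθ : 2 * κ ≤ θ / 1152 := by
    have := (min_le_left (min c (θ / 1152)) 1).trans (min_le_right c (θ / 1152))
    rw [hκ]; linarith
  have hκ1 : 2 * κ ≤ 1 := by
    have := min_le_right (min c (θ / 1152)) 1
    rw [hκ]; linarith
  clear hκ
  obtain ⟨n2, h2⟩ := hbd (κ / 200) (by positivity)
  obtain ⟨n3, h3⟩ := U0_lp (κ / 200) (by positivity)
  have ht : ∀ᶠ n : ℕ in Filter.atTop, max (1 + C2) 2 ≤ (n:ℝ) ^ (κ / 200) :=
    ((tendsto_rpow_atTop (by positivity : 0 < κ / 200)).comp tendsto_natCast_atTop_atTop).eventually_ge_atTop _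
  obtain ⟨n4, h4⟩ := Filter.eventually_atTop.1 ht
  refine ⟨κ, hκ0, by linarith, max (max (max n1 n2) (max n3 n4)) 1, fun Q Q' X hX hR => ?_⟩
  have hreg := hR.reg
  have hX1 : 1 ≤ X := by omega
  have hXp : (0:ℝ) < X := by exact_mod_cast hX1
  have hXr : (1:ℝ) ≤ X := by exact_mod_cast hX1
  have h4' := h4 X (by omega)
  have h4a : 1 + C2 ≤ (X:ℝ) ^ (κ / 200) := (le_max_left _ _).trans h4'
  have h4b : (2:ℝ) ≤ (X:ℝ) ^ (κ / 200) := (le_max_right _ _).trans h4'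
  have hQ4 : (4:ℝ) ≤ Q := (hreg.mono hK0 hKK4).Q_ge (by norm_num)
  have hQ2 : 2 ≤ Q := by
    have : (2:ℝ) ≤ Q := by linarith
    exact_mod_cast this
  have hQ'1 : 1 ≤ Q' := by
    have h5 : (1:ℝ) ≤ (X:ℝ) ^ θ := Real.one_le_rpow hXr hθ.le
    have h6 := h5.trans hR.low
    exact_mod_cast h6
  have hQ'r : (0:ℝ) < Q' := by exact_mod_cast hQ'1
  -- sizes
  have hsz : ∀ Q'' : ℕ, 1 ≤ Q'' → Q'' ≤ Q → ∀ m : ℤ, (X:ℤ) ≤ m → m ≤ 4 * X →
      ‖lc m - Lc Q'' (X / Q ^ 2) m‖ ≤ (X:ℝ) ^ (κ / 100) := by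
    intro Q'' hQ1 hQQ m hm1 hm2
    have e1 := h2 Q Q'' X (by omega) (hreg.mono hK0 hKK1) hQ1 hQQ m hm1 hm2
    have e2 := h3 X (by omega) m hm2
    have e3 : ‖lc m - Lc Q'' (X / Q ^ 2) m‖ ≤ ‖lc m‖ + ‖Lc Q'' (X / Q ^ 2) m‖ := norm_sub_le _ _
    have e4 : ‖lc m‖ = |lp m| := by
      rw [lc, Complex.norm_real, Real.norm_eq_abs]
    have e5 : ‖Lc Q'' (X / Q ^ 2) m‖ = |Lk Q'' (X / Q ^ 2) m| := by
      rw [Lc, Complex.norm_real, Real.norm_eq_abs]
    have e6 : (X:ℝ) ^ (κ / 100) = (X:ℝ) ^ (κ / 200) * (X:ℝ) ^ (κ / 200) := by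
      rw [← Real.rpow_add hXp]
      congr 1
      ring
    have e7 : 0 ≤ (X:ℝ) ^ (κ / 200) := Real.rpow_nonneg hXp.le _
    rw [e6]
    rw [e4, e5] at e3
    nlinarith
  have hLKd : Pool.Agent.H9S.LKd C2 Q X := by
    intro Q'' hQ1 hQQ W f g hW hf hg
    have h3 := hLK Q Q'' X (hreg.mono hK0 hKK2) hQ1 hQQ f g W hf hg hW
    refine le_trans (le_of_eq ?_) h3
    rw [BF, Sx, Sy]
    simp only [Lc, Complex.ofReal_sub]
  constructor
  · intro W f g hW hf hg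
    have hA : ‖BF (Sx X) (Sy X) (Pool.Agent.H9S.Ec Q X) W f g‖ ≤ (X:ℝ) ^ (2 - c) := by
      refine h1 X (by omega) Q X hQ2 hR.log hX1 le_rfl hLKd ?_ ?_ W f g ?_ hf hg
      · intro th u v hu hv
        have h3 := hfs Q X (hreg.mono hK0 hKK3) th u v hu hv
        refine le_trans (le_of_eq ?_) h3
        congr 1
        refine Finset.sum_congr rfl fun m _ => ?_
        rw [Pool.Agent.H9S.Ec, lc, Lc, Complex.ofReal_sub, mul_comm th (m:ℝ)]
        rfl
      · intro m hm1 hm2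
        refine (hsz Q (by omega) le_rfl m hm1 hm2).trans ?_
        exact Real.rpow_le_rpow_of_exponent_le hXr (by linarith)
      · intro v _ _
        exact (hW v).trans (Real.one_le_rpow hXr hc.le)
    have hB := hLKd Q' hQ'1 hR.le W f g hW hf hg
    have hE : BF (Sx X) (Sy X) (Er Q Q' X) W f g = BF (Sx X) (Sy X) (Pool.Agent.H9S.Ec Q X) W f g +
        BF (Sx X) (Sy X) (fun m => Lc Q (X / Q ^ 2) m - Lc Q' (X / Q ^ 2) m) W f g := by
      rw [← u0b_add]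
      congr 1
      funext m
      rw [Er, Pool.Agent.H9S.Ec]
      ring
    have hC : (Q':ℝ) ^ (-(1 / 1152 : ℝ)) ≤ (X:ℝ) ^ (-(2 * κ)) := by
      calc (Q':ℝ) ^ (-(1 / 1152 : ℝ)) ≤ ((X:ℝ) ^ θ) ^ (-(1 / 1152 : ℝ)) :=
            Real.rpow_le_rpow_of_nonpos (Real.rpow_pos_of_pos hXp _) hR.low (by norm_num)
        _ = (X:ℝ) ^ (θ * (-(1 / 1152 : ℝ))) := (Real.rpow_mul hXp.le _ _).symm
        _ ≤ (X:ℝ) ^ (-(2 * κ)) := Real.rpow_le_rpow_of_exponent_le hXr (by linarith)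
    have hD : C2 * (X:ℝ) ^ 2 * (Q':ℝ) ^ (-(1 / 1152 : ℝ)) ≤ C2 * (X:ℝ) ^ (2 - 2 * κ) := by
      have e1 : (X:ℝ) ^ (2 - 2 * κ) = (X:ℝ) ^ 2 * (X:ℝ) ^ (-(2 * κ)) := by
        rw [← Real.rpow_natCast (X:ℝ) 2, ← Real.rpow_add hXp]
        congr 1
      rw [e1, ← mul_assoc]
      exact mul_le_mul_of_nonneg_left hC (by positivity)
    have hF : (X:ℝ) ^ (2 - c) ≤ (X:ℝ) ^ (2 - 2 * κ) := Real.rpow_le_rpow_of_exponent_le hXr (by linarith)
    have hG : (1 + C2) * (X:ℝ) ^ (2 - 2 * κ) ≤ (X:ℝ) ^ (2 - κ) := by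
      have e1 : (X:ℝ) ^ (2 - κ) = (X:ℝ) ^ κ * (X:ℝ) ^ (2 - 2 * κ) := by
        rw [← Real.rpow_add hXp]
        congr 1
        ring
      rw [e1]
      refine mul_le_mul_of_nonneg_right ?_ (Real.rpow_nonneg hXp.le _)
      exact h4a.trans (Real.rpow_le_rpow_of_exponent_le hXr (by linarith))
    rw [hE]
    refine (norm_add_le _ _).trans ?_
    linarith
  · intro m hm1 hm2
    exact hsz Q' hQ'1 hR.le m hm1 hm2

end Pool.Agent.H9U
end
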