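import Pool.Agent.Lib.H1M.RV3.M019
import Pool.Agent.Lib.H1M.RV3.M044
import Pool.Agent.Lib.H1M.RV3.M067
import Pool.Agent.Lib.H1M.RV3.M068
import Pool.Agent.Lib.H1M.RV3.M077
import Pool.Agent.Lib.H1M.RV3.M078
import Pool.Agent.Lib.H1M.RV3.M080
import Pool.Agent.Lib.H1M.RV3.M087
import Pool.Agent.Lib.H1M.RV3.M088
import Pool.Agent.Lib.H1M.RV3.M093
import Pool.Agent.Lib.H1M.RV3.M094

/-! Merged copies (to shorten the build) of Lib.H24Q.B2, Lib.H59P.Z4, Lib.H24Q.D3, Lib.H24Q.D4, Lib.H24Q.D5, Lib.H24Q.D6, Lib.H24Q.D7, Lib.H24Q.MDefs, Lib.H24Q.M1. -/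

-- from Lib.H24Q.B2
section

/-!
# Project H24Q, chunk B2 (M): one cell (compare H24P/Z2A, Z2B)
-/

open Finset

namespace Pool.Agent.Lib.H24Q

open Pool.Agent.Lib.H68T Pool.Agent.Lib.H18Q Pool.Agent.Lib.H59P Pool.Agent.Lib.H24P

theorem b2_gam {m : ℕ} (Q : ℕ) (T : Finset (Fin m → Ch))
    (hT : T ⊆ Fintype.piFinset fun _ : Fin m => PC Q) (cf : Fin m → Ch → ℂ)
    (hcf : ∀ i, ∑ p ∈ PC Q, ‖cf i p‖ ≤ 3) : ∑ p ∈ T, ‖∏ i, cf i (p i)‖ ≤ 3 ^ m := by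
  classical
  calc ∑ p ∈ T, ‖∏ i, cf i (p i)‖ = ∑ p ∈ T, ∏ i, ‖cf i (p i)‖ :=
        Finset.sum_congr rfl fun p _ => norm_prod _ _
    _ ≤ ∑ p ∈ Fintype.piFinset fun _ : Fin m => PC Q, ∏ i, ‖cf i (p i)‖ :=
        Finset.sum_le_sum_of_subset_of_nonneg hT fun p _ _ => Finset.prod_nonneg fun i _ => norm_nonneg _
    _ = ∏ i, ∑ q ∈ PC Q, ‖cf i q‖ := (Finset.prod_univ_sum (fun _ : Fin m => PC Q)
        (fun i q => ‖cf i q‖)).symm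
    _ ≤ ∏ _i : Fin m, (3 : ℝ) :=
        Finset.prod_le_prod (fun i _ => Finset.sum_nonneg fun _ _ => norm_nonneg _) fun i _ => hcf i
    _ = 3 ^ m := by
        rw [Finset.prod_const, Finset.card_univ, Fintype.card_fin]

theorem b2_TS {m : ℕ} (Q D m0 : ℕ) : TSf m Q D m0 ⊆ Fintype.piFinset fun _ : Fin m => PC Q := by
  intro p hp
  unfold TSf at hp
  exact (Finset.mem_filter.1 hp).1

theorem b2_R {m : ℕ} (Q D m0 : ℕ) (hm0 : 1 ≤ m0) (p : Fin m → Ch) (hp : p ∈ TSf m Q D m0) :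
    0 < Rf m0 p ∧ Rf m0 p ≤ D ∧ (∀ i, (p i).1 ∣ Rf m0 p) := by
  classical
  unfold TSf at hp
  rw [Finset.mem_filter, Fintype.mem_piFinset] at hp
  obtain ⟨hp1, hp2⟩ := hp
  refine ⟨?_, hp2, ?_⟩
  · have h1 : (univ.lcm fun i => (p i).1) ≠ 0 := by
      intro h0
      rw [Finset.lcm_eq_zero_iff] at h0
      obtain ⟨i, _, h2⟩ := h0
      have h3 : 0 < (p i).1 := (mem_PC.mp (hp1 i)).1
      exact h3.ne' h2
    unfold Rf
    exact Nat.lcm_pos hm0 (Nat.pos_of_ne_zero h1)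
  · intro i
    unfold Rf
    exact (Finset.dvd_lcm (f := fun i => (p i).1) (Finset.mem_univ i)).trans (Nat.dvd_lcm_right _ _)

/-- Proof. `W3_SG`; `Z2a` of `H59P` with `γ_p = ∏ c_i(p_i)` (total size `≤ 3^m`), `f_p` the difference in `B1_small` for
`p ∈ TSf m Q _ r`, the sum in `B1_large` else. Compare `Z2A_cell` in `H24P/Z2A.lean`. -/
theorem B2_trunc (m : ℕ) (C c : ℝ) (hC : 1 ≤ C) (hc : 0 < c) : ∃ c' : ℝ, 0 < c' ∧ ∃ Q0 : ℕ, ∀ Q : ℕ,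
    Q0 ≤ Q → ∀ (H0 : ℕ) (Ω : Type) (S : Finset Ω) (φ : Ω → Fin m → ℤ → ℤ), Fam C c Q H0 S φ →
    ∀ r : ℕ, 1 ≤ r → r ^ 100 ≤ Q → ∀ cf : Fin m → Ch → ℂ, (∀ i, ∑ p ∈ PC Q, ‖cf i p‖ ≤ 3) →
    ∀ a H : ℕ, H0 ≤ H → Q ^ 4 ≤ H →
    ∑ ω ∈ S, ‖∑ n ∈ Ico a (a + H), ∏ i, SG Q (cf i) (φ ω i (n : ℤ)) - H * MCf Q r cf (φ ω)‖ ^ 2 ≤
      S.card * (H : ℝ) ^ 2 * (Q : ℝ) ^ (-c') := by
  classical
  obtain ⟨c1, hc1, Q1, h1⟩ := B1_small m C c hC hc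
  obtain ⟨c2, hc2, Q2, h2⟩ := B1_large m C c hC hc
  have hcm : 0 < min c1 c2 := lt_min hc1 hc2
  obtain ⟨Q3, hQ31, h3⟩ := G1_rlog (9 ^ m) 0 (min c1 c2 / 2) (by linarith)
  refine ⟨min c1 c2 / 2, by linarith, max 1 (max Q1 (max Q2 Q3)), ?_⟩
  intro Q hQ H0 Ω S φ hF r hr1 hr cf hcf a H hH0 hH
  have hQ1 : 1 ≤ Q := (le_max_left _ _).trans hQ
  have hQQ1 : Q1 ≤ Q := (le_max_left _ _).trans ((le_max_right _ _).trans hQ)
  have hQQ2 : Q2 ≤ Q := (le_max_left _ _).trans ((le_max_right _ _).trans ((le_max_right _ _).trans hQ))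
  have hQQ3 : Q3 ≤ Q := (le_max_right _ _).trans ((le_max_right _ _).trans ((le_max_right _ _).trans hQ))
  have hQ1r : (1 : ℝ) ≤ Q := by exact_mod_cast hQ1
  have hQ0r : (0 : ℝ) < Q := by linarith
  have hV : 0 ≤ (S.card : ℝ) * (H : ℝ) ^ 2 := mul_nonneg (Nat.cast_nonneg _) (sq_nonneg _)
  have h9 : (9 : ℝ) ^ m ≤ (Q : ℝ) ^ (min c1 c2 / 2) := by
    have := h3 Q hQQ3
    rwa [Real.rpow_zero, mul_one] at this
  set W : ℝ := (S.card : ℝ) * (H : ℝ) ^ 2 * (Q : ℝ) ^ (-(min c1 c2)) with hW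
  have hW0 : 0 ≤ W := mul_nonneg hV (Real.rpow_nonneg hQ0r.le _)
  have hWle : ∀ c : ℝ, min c1 c2 ≤ c → (S.card : ℝ) * (H : ℝ) ^ 2 * (Q : ℝ) ^ (-c) ≤ W := by
    intro c hc
    exact mul_le_mul_of_nonneg_left (Real.rpow_le_rpow_of_exponent_le hQ1r (by linarith)) hV
  set F : (Fin m → Ch) → Ω → ℂ := fun p ω => ∑ n ∈ Ico a (a + H), ∏ i, Fc Q (p i) (φ ω i (n : ℤ)) with hFd
  set G : (Fin m → Ch) → Ω → ℂ := fun p ω => H * (MRf p (Rf r p) (φ ω) *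
    ((∑ d ∈ SF (fl Q (1 / 2) / Rf r p) (Rf r p), tdf d (φ ω) : ℝ) : ℂ)) with hGd
  set f : (Fin m → Ch) → Ω → ℂ := fun p ω =>
    if p ∈ TSf m Q (fl Q (1 / 16)) r then F p ω - G p ω else F p ω with hfdef
  have hf1 : ∀ p ∈ TSf m Q (fl Q (1 / 16)) r, ∀ ω, f p ω = F p ω - G p ω := by
    intro p hp ω
    rw [hfdef]
    exact if_pos hp
  have hf2 : ∀ p, p ∉ TSf m Q (fl Q (1 / 16)) r → ∀ ω, f p ω = F p ω := by
    intro p hp ω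
    rw [hfdef]
    exact if_neg hp
  have hdec : ∀ ω ∈ S, ‖∑ n ∈ Ico a (a + H), ∏ i, SG Q (cf i) (φ ω i (n : ℤ)) - H * MCf Q r cf (φ ω)‖ ^ 2 =
      ‖∑ p ∈ Fintype.piFinset fun _ : Fin m => PC Q, (∏ i, cf i (p i)) * f p ω‖ ^ 2 := by
    intro ω _
    have e1 : ∑ n ∈ Ico a (a + H), ∏ i, SG Q (cf i) (φ ω i (n : ℤ)) =
        ∑ p ∈ Fintype.piFinset fun _ : Fin m => PC Q, (∏ i, cf i (p i)) * F p ω := by
      have e2 : ∀ n ∈ Ico a (a + H), ∏ i, SG Q (cf i) (φ ω i (n : ℤ)) =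
          ∑ p ∈ Fintype.piFinset fun _ : Fin m => PC Q, (∏ i, cf i (p i)) *
            ∏ i, Fc Q (p i) (φ ω i (n : ℤ)) := fun n _ => W3_SG Q cf (fun i => φ ω i (n : ℤ))
      rw [Finset.sum_congr rfl e2, Finset.sum_comm]
      refine Finset.sum_congr rfl fun p _ => ?_
      rw [hFd, Finset.mul_sum]
    have e3 : (H : ℂ) * MCf Q r cf (φ ω) = ∑ p ∈ Fintype.piFinset fun _ : Fin m => PC Q,
        (if p ∈ TSf m Q (fl Q (1 / 16)) r then (∏ i, cf i (p i)) * G p ω else 0) := by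
      rw [← Finset.sum_filter, Finset.filter_mem_eq_inter, Finset.inter_eq_right.mpr (b2_TS Q _ r)]
      unfold MCf
      rw [Finset.mul_sum, hGd]
      refine Finset.sum_congr rfl fun p _ => ?_
      ring
    rw [e1, e3, ← Finset.sum_sub_distrib]
    apply congrArg (fun z : ℂ => ‖z‖ ^ 2)
    refine Finset.sum_congr rfl fun p _ => ?_
    by_cases hp : p ∈ TSf m Q (fl Q (1 / 16)) r
    · rw [if_pos hp, hf1 p hp]
      ring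
    · rw [if_neg hp, hf2 p hp, sub_zero]
  rw [Finset.sum_congr rfl hdec]
  have hmain := Z2a S (Fintype.piFinset fun _ : Fin m => PC Q) (fun p => ∏ i, cf i (p i)) f (3 ^ m) W hW0
    (b2_gam Q _ (Finset.Subset.refl _) cf hcf) ?_
  · refine hmain.trans ?_
    have e1 : ((3 : ℝ) ^ m) ^ 2 = 9 ^ m := by
      rw [← pow_mul, mul_comm, pow_mul]
      norm_num
    have e2 : (Q : ℝ) ^ (-(min c1 c2 / 2)) = (Q : ℝ) ^ (min c1 c2 / 2) * (Q : ℝ) ^ (-(min c1 c2)) := by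
      rw [← Real.rpow_add hQ0r]
      congr 1
      ring
    rw [e1, e2]
    have e3 := mul_le_mul_of_nonneg_right h9 hW0
    refine e3.trans (le_of_eq ?_)
    rw [hW]
    ring
  · intro p hp
    have hps : ∀ i, p i ∈ PC Q := Fintype.mem_piFinset.1 hp
    by_cases hpT : p ∈ TSf m Q (fl Q (1 / 16)) r
    · have e1 := h1 Q hQQ1 H0 Ω S φ hF r hr1 p hpT a H hH0 hH
      have e2 : ∑ ω ∈ S, ‖f p ω‖ ^ 2 = ∑ ω ∈ S, ‖∑ n ∈ Ico a (a + H), ∏ i, Fc Q (p i) (φ ω i (n : ℤ)) -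
          H * (MRf p (Rf r p) (φ ω) *
            ((∑ d ∈ SF (fl Q (1 / 2) / Rf r p) (Rf r p), tdf d (φ ω) : ℝ) : ℂ))‖ ^ 2 :=
        Finset.sum_congr rfl fun ω _ => by rw [hf1 p hpT ω]
      rw [e2]
      exact e1.trans (hWle c1 (min_le_left _ _))
    · have e1 := h2 Q hQQ2 H0 Ω S φ hF r hr1 hr p hps hpT a H hH0
      have e2 : ∑ ω ∈ S, ‖f p ω‖ ^ 2 = ∑ ω ∈ S, ‖∑ n ∈ Ico a (a + H), ∏ i, Fc Q (p i) (φ ω i (n : ℤ))‖ ^ 2 :=
        Finset.sum_congr rfl fun ω _ => by rw [hf2 p hpT ω]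
      rw [e2]
      exact e1.trans (hWle c2 (min_le_right _ _))

/-- Proof. As `Z2B_main` in `H24P/Z2B.lean`, with `A2_TM` instead of `TMf`. -/
theorem B2_compl (m : ℕ) (C c : ℝ) (hC : 1 ≤ C) (hc : 0 < c) : ∃ c' : ℝ, 0 < c' ∧ ∃ Q0 : ℕ, ∀ Q : ℕ,
    Q0 ≤ Q → ∀ (H0 : ℕ) (Ω : Type) (S : Finset Ω) (φ : Ω → Fin m → ℤ → ℤ), Fam C c Q H0 S φ →
    ∀ r : ℕ, 1 ≤ r → r ^ 100 ≤ Q → ∀ cf : Fin m → Ch → ℂ, (∀ i, ∑ p ∈ PC Q, ‖cf i p‖ ≤ 3) →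
    ∑ ω ∈ S, ‖MCf Q r cf (φ ω) - MDf Q r cf (φ ω)‖ ^ 2 ≤ S.card * (Q : ℝ) ^ (-c') := by
  classical
  obtain ⟨c1, hc1, Q1, h1⟩ := A2_TM m C c hC hc
  obtain ⟨Q3, hQ31, h3⟩ := G1_rlog (36 ^ m) ((2 * m : ℕ) : ℝ) (c1 / 2) (by linarith)
  refine ⟨c1 / 2, by linarith, max 1 (max Q1 Q3), ?_⟩
  intro Q hQ H0 Ω S φ hF r hr1 hr cf hcf
  have hQ1 : 1 ≤ Q := (le_max_left _ _).trans hQ
  have hQQ1 : Q1 ≤ Q := (le_max_left _ _).trans ((le_max_right _ _).trans hQ)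
  have hQQ3 : Q3 ≤ Q := (le_max_right _ _).trans ((le_max_right _ _).trans hQ)
  have hQ0r : (0 : ℝ) < Q := by exact_mod_cast hQ1
  have hlog0 : 0 ≤ Real.log Q := Real.log_natCast_nonneg Q
  have hV : (0 : ℝ) ≤ (S.card : ℝ) := Nat.cast_nonneg _
  set D1 : ℕ := fl Q (1 / 16) with hD1
  have hD1Q : D1 ≤ Q := G1_le hQ1 (by norm_num) (by norm_num)
  set L1 : ℝ := (2 * (1 + Real.log Q)) ^ m with hL1
  have hL10 : 0 ≤ L1 := by positivity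
  set W : ℝ := L1 ^ 2 * ((S.card : ℝ) * (Q : ℝ) ^ (-c1)) with hW
  have hQc0 : 0 ≤ (Q : ℝ) ^ (-c1) := Real.rpow_nonneg hQ0r.le _
  have hW0 : 0 ≤ W := mul_nonneg (sq_nonneg _) (mul_nonneg hV hQc0)
  set f : (Fin m → Ch) → Ω → ℂ := fun p ω =>
    MRf p (Rf r p) (φ ω) *
      (((∑ d ∈ SF (fl Q (1 / 2) / Rf r p) (Rf r p), tdf d (φ ω) -
        SSf ((pr Q).filter (fun l => ¬ l ∣ Rf r p)) (φ ω) : ℝ) : ℂ)) with hfdef
  have hdec : ∀ ω ∈ S, ‖MCf Q r cf (φ ω) - MDf Q r cf (φ ω)‖ ^ 2 =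
      ‖∑ p ∈ TSf m Q D1 r, (∏ i, cf i (p i)) * f p ω‖ ^ 2 := by
    intro ω hω
    apply congrArg (fun z : ℂ => ‖z‖ ^ 2)
    unfold MCf MDf
    rw [← Finset.sum_sub_distrib]
    refine Finset.sum_congr rfl fun p hp => ?_
    obtain ⟨hR0, hRD, hd⟩ := b2_R Q D1 r hr1 p hp
    have hfac : Rf r p ∣ Q.factorial := Nat.dvd_factorial hR0 (hRD.trans hD1Q)
    have e1 := P3_M5 (φ ω) (hF.fb.cp ω hω) Q (Rf r p) hR0 hfac p hd
    rw [← e1, hfdef]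
    beta_reduce
    rw [Complex.ofReal_sub]
    ring
  rw [Finset.sum_congr rfl hdec]
  have hmain := Z2a S (TSf m Q D1 r) (fun p => ∏ i, cf i (p i)) f (3 ^ m) W hW0
    (b2_gam Q _ (b2_TS Q D1 r) cf hcf) ?_
  · refine hmain.trans ?_
    have e1 : ((3 : ℝ) ^ m) ^ 2 * L1 ^ 2 = 36 ^ m * (1 + Real.log Q) ^ ((2 * m : ℕ) : ℝ) := by
      rw [hL1, Real.rpow_natCast, ← mul_pow, ← mul_pow, ← pow_mul, mul_comm m 2, pow_mul,
        pow_mul, ← mul_pow]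
      congr 1
      ring
    have e2 : (Q : ℝ) ^ (-(c1 / 2)) = (Q : ℝ) ^ (c1 / 2) * (Q : ℝ) ^ (-c1) := by
      rw [← Real.rpow_add hQ0r]
      congr 1
      ring
    have e3 := h3 Q hQQ3
    have e4 : ((3 : ℝ) ^ m) ^ 2 * W = (((3 : ℝ) ^ m) ^ 2 * L1 ^ 2) * ((S.card : ℝ) * (Q : ℝ) ^ (-c1)) := by
      rw [hW]
      ring
    rw [e4, e1, e2]
    have e5 := mul_le_mul_of_nonneg_right e3 (mul_nonneg hV hQc0)
    refine e5.trans (le_of_eq ?_)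
    ring
  · intro p hp
    obtain ⟨hR0, hRD, hd⟩ := b2_R Q D1 r hr1 p hp
    have hRQ : Rf r p ≤ Q := hRD.trans hD1Q
    have e1 := h1 Q hQQ1 H0 Ω S φ hF (Rf r p) hR0 hRD
    rw [hW]
    refine le_trans ?_ (mul_le_mul_of_nonneg_left e1 (sq_nonneg L1))
    rw [Finset.mul_sum]
    refine Finset.sum_le_sum fun ω _ => ?_
    rw [hfdef]
    beta_reduce
    rw [norm_mul, Complex.norm_real, mul_pow, Real.norm_eq_abs, sq_abs]
    refine mul_le_mul_of_nonneg_right ?_ (sq_nonneg _)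
    refine pow_le_pow_left₀ (norm_nonneg _) ?_ 2
    refine (P0_MR p (Rf r p) hR0 (φ ω)).trans ?_
    refine pow_le_pow_left₀ (by positivity) ((M3b _ hR0).trans ?_) _
    have h5 : Real.log (Rf r p) ≤ Real.log Q :=
      Real.log_le_log (by exact_mod_cast hR0) (by exact_mod_cast hRQ)
    linarith

/-- **B2.** Proof. `B2_trunc`, `B2_compl`, `‖x + y‖² ≤ 2‖x‖² + 2‖y‖²`. -/
theorem B2_cell (m : ℕ) (C c : ℝ) (hC : 1 ≤ C) (hc : 0 < c) : ∃ c' : ℝ, 0 < c' ∧ ∃ Q0 : ℕ, ∀ Q : ℕ,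
    Q0 ≤ Q → ∀ (H0 : ℕ) (Ω : Type) (S : Finset Ω) (φ : Ω → Fin m → ℤ → ℤ), Fam C c Q H0 S φ →
    ∀ r : ℕ, 1 ≤ r → r ^ 100 ≤ Q → ∀ cf : Fin m → Ch → ℂ, (∀ i, ∑ p ∈ PC Q, ‖cf i p‖ ≤ 3) →
    ∀ a H : ℕ, H0 ≤ H → Q ^ 4 ≤ H →
    ∑ ω ∈ S, ‖∑ n ∈ Ico a (a + H), ∏ i, SG Q (cf i) (φ ω i (n : ℤ)) - H * MDf Q r cf (φ ω)‖ ^ 2 ≤
      S.card * (H : ℝ) ^ 2 * (Q : ℝ) ^ (-c') := by
  classical
  obtain ⟨c1, hc1, Q1, h1⟩ := B2_trunc m C c hC hc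
  obtain ⟨c2, hc2, Q2, h2⟩ := B2_compl m C c hC hc
  have hcm : 0 < min c1 c2 := lt_min hc1 hc2
  obtain ⟨Q3, hQ31, h3⟩ := G1_rlog 4 0 (min c1 c2 / 2) (by linarith)
  refine ⟨min c1 c2 / 2, by linarith, max 1 (max Q1 (max Q2 Q3)), ?_⟩
  intro Q hQ H0 Ω S φ hF r hr1 hr cf hcf a H hH0 hH
  have hQ1 : 1 ≤ Q := (le_max_left _ _).trans hQ
  have hQQ1 : Q1 ≤ Q := (le_max_left _ _).trans ((le_max_right _ _).trans hQ)
  have hQQ2 : Q2 ≤ Q := (le_max_left _ _).trans ((le_max_right _ _).trans ((le_max_right _ _).trans hQ))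
  have hQQ3 : Q3 ≤ Q := (le_max_right _ _).trans ((le_max_right _ _).trans ((le_max_right _ _).trans hQ))
  have hQ1r : (1 : ℝ) ≤ Q := by exact_mod_cast hQ1
  have hQ0r : (0 : ℝ) < Q := by linarith
  have hV : 0 ≤ (S.card : ℝ) * (H : ℝ) ^ 2 := mul_nonneg (Nat.cast_nonneg _) (sq_nonneg _)
  have h4 : (4 : ℝ) ≤ (Q : ℝ) ^ (min c1 c2 / 2) := by
    have := h3 Q hQQ3
    rwa [Real.rpow_zero, mul_one] at this
  have hWle : ∀ c : ℝ, min c1 c2 ≤ c → (S.card : ℝ) * (H : ℝ) ^ 2 * (Q : ℝ) ^ (-c) ≤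
      (S.card : ℝ) * (H : ℝ) ^ 2 * (Q : ℝ) ^ (-(min c1 c2)) := by
    intro c hc
    exact mul_le_mul_of_nonneg_left (Real.rpow_le_rpow_of_exponent_le hQ1r (by linarith)) hV
  have e1 := (h1 Q hQQ1 H0 Ω S φ hF r hr1 hr cf hcf a H hH0 hH).trans (hWle c1 (min_le_left _ _))
  have e2 := mul_le_mul_of_nonneg_left (h2 Q hQQ2 H0 Ω S φ hF r hr1 hr cf hcf) (sq_nonneg (H : ℝ))
  have e2' : (H : ℝ) ^ 2 * ∑ ω ∈ S, ‖MCf Q r cf (φ ω) - MDf Q r cf (φ ω)‖ ^ 2 ≤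
      (S.card : ℝ) * (H : ℝ) ^ 2 * (Q : ℝ) ^ (-(min c1 c2)) := by
    refine e2.trans (le_trans (le_of_eq ?_) (hWle c2 (min_le_right _ _)))
    ring
  have hpt : ∀ ω ∈ S, ‖∑ n ∈ Ico a (a + H), ∏ i, SG Q (cf i) (φ ω i (n : ℤ)) - H * MDf Q r cf (φ ω)‖ ^ 2 ≤
      2 * ‖∑ n ∈ Ico a (a + H), ∏ i, SG Q (cf i) (φ ω i (n : ℤ)) - H * MCf Q r cf (φ ω)‖ ^ 2 +
      2 * ((H : ℝ) ^ 2 * ‖MCf Q r cf (φ ω) - MDf Q r cf (φ ω)‖ ^ 2) := by
    intro ω _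
    have e3 : ∑ n ∈ Ico a (a + H), ∏ i, SG Q (cf i) (φ ω i (n : ℤ)) - H * MDf Q r cf (φ ω) =
        (∑ n ∈ Ico a (a + H), ∏ i, SG Q (cf i) (φ ω i (n : ℤ)) - H * MCf Q r cf (φ ω)) +
        H * (MCf Q r cf (φ ω) - MDf Q r cf (φ ω)) := by ring
    rw [e3]
    generalize (∑ n ∈ Ico a (a + H), ∏ i, SG Q (cf i) (φ ω i (n : ℤ)) - H * MCf Q r cf (φ ω)) = x
    generalize MCf Q r cf (φ ω) - MDf Q r cf (φ ω) = y
    have e4 : ‖x + (H : ℂ) * y‖ ≤ ‖x‖ + H * ‖y‖ := by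
      refine (norm_add_le _ _).trans ?_
      rw [norm_mul, Complex.norm_natCast]
    have e5 := pow_le_pow_left₀ (norm_nonneg _) e4 2
    nlinarith [sq_nonneg (‖x‖ - H * ‖y‖)]
  refine (Finset.sum_le_sum hpt).trans ?_
  rw [Finset.sum_add_distrib, ← Finset.mul_sum, ← Finset.mul_sum, ← Finset.mul_sum]
  have e6 : (Q : ℝ) ^ (-(min c1 c2 / 2)) = (Q : ℝ) ^ (min c1 c2 / 2) * (Q : ℝ) ^ (-(min c1 c2)) := by
    rw [← Real.rpow_add hQ0r]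
    congr 1
    ring
  have hW0 : 0 ≤ (S.card : ℝ) * (H : ℝ) ^ 2 * (Q : ℝ) ^ (-(min c1 c2)) :=
    mul_nonneg hV (Real.rpow_nonneg hQ0r.le _)
  have e7 := mul_le_mul_of_nonneg_right h4 hW0
  rw [e6]
  calc _ ≤ 4 * ((S.card : ℝ) * (H : ℝ) ^ 2 * (Q : ℝ) ^ (-(min c1 c2))) := by linarith
    _ ≤ (Q : ℝ) ^ (min c1 c2 / 2) * ((S.card : ℝ) * (H : ℝ) ^ 2 * (Q : ℝ) ^ (-(min c1 c2))) := e7
    _ = _ := by ring

end Pool.Agent.Lib.H24Q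
end

-- from Lib.H59P.Z4
section

/-!
# Project H59P, chunk Z4: the core theorem
-/

open Finset

namespace Pool.Agent.Lib.H59P

open Pool.Agent.Lib.H68T Pool.Agent.Lib.H18Q



/-- Chebyshev's inequality for the exceptional set -/
theorem z4_cheb {ι : Type*} (S : Finset ι) (A : ι → ℝ) (T V : ℝ) (hT : 0 < T)
    (hV : ∑ h ∈ S, A h ^ 2 ≤ V) (hA : ∀ h, 0 ≤ A h) :
    (((S.filter fun h => T < A h).card : ℕ) : ℝ) ≤ V / T ^ 2 := by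
  rw [le_div_iff₀ (by positivity)]
  refine le_trans ?_ hV
  calc (((S.filter fun h => T < A h).card : ℕ) : ℝ) * T ^ 2
      = ∑ _h ∈ S.filter (fun h => T < A h), T ^ 2 := by rw [Finset.sum_const, nsmul_eq_mul]
    _ ≤ ∑ h ∈ S.filter (fun h => T < A h), A h ^ 2 := by
        apply Finset.sum_le_sum
        intro h hh
        have h1 := (Finset.mem_filter.1 hh).2
        exact pow_le_pow_left₀ hT.le h1.le 2
    _ ≤ ∑ h ∈ S, A h ^ 2 := by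
        apply Finset.sum_le_sum_of_subset_of_nonneg (Finset.filter_subset _ _)
        intro h _ _
        positivity


end Pool.Agent.Lib.H59P
end

-- from Lib.H24Q.D3
section

/-!
# Project H24Q, chunk D3 (M): the sums MF and their main terms (compare H24P/Z2, Z3, Z4)
-/

open Finset

namespace Pool.Agent.Lib.H24Q

open Pool.Agent.Lib.H68T Pool.Agent.Lib.H18Q Pool.Agent.Lib.H59P Pool.Agent.Lib.H24P

theorem d3_card {g : ℕ} (b s : Fin g → ℕ) : ((cub b s).card : ℝ) = vol s := by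
  unfold cub vol
  rw [Fintype.card_piFinset]
  push_cast
  refine Finset.prod_congr rfl fun i _ => ?_
  rw [Nat.card_Ico, Nat.add_sub_cancel_left]

theorem d3_N (Q N B : ℕ) (hQ : 2 ≤ Q) (hK : 2 * ((B : ℝ) + 50) * Real.log Q ≤ Real.log N) :
    1 ≤ N ∧ ∀ x : ℕ, N ≤ x ^ 2 → Q ^ (B + 50) ≤ x := by
  have hQr : (0 : ℝ) < Q := by exact_mod_cast (show 0 < Q by omega)
  have hlQ : 0 < Real.log Q := Real.log_pos (by exact_mod_cast (show 1 < Q by omega))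
  have hB0 : (0 : ℝ) ≤ B := Nat.cast_nonneg _
  have hN : 1 ≤ N := by
    rcases Nat.eq_zero_or_pos N with h | h
    · rw [h, Nat.cast_zero, Real.log_zero] at hK
      have : 0 < 2 * ((B : ℝ) + 50) * Real.log Q := by positivity
      linarith
    · exact h
  refine ⟨hN, fun x hx => ?_⟩
  have hNr : (0 : ℝ) < N := by exact_mod_cast hN
  have h1 : Real.log ((Q : ℝ) ^ (2 * (B + 50))) ≤ Real.log N := by
    rw [Real.log_pow]
    refine le_trans (le_of_eq ?_) hK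
    push_cast
    ring
  have h2 : (Q : ℝ) ^ (2 * (B + 50)) ≤ N := (Real.log_le_log_iff (by positivity) hNr).1 h1
  have h3 : Q ^ (2 * (B + 50)) ≤ N := by exact_mod_cast h2
  have h4 : (Q ^ (B + 50)) ^ 2 ≤ x ^ 2 := by
    rw [← pow_mul, mul_comm]
    exact h3.trans hx
  exact (Nat.pow_le_pow_iff_left (by norm_num)).1 h4

/-- The mean square. Proof. `D1_pt`: up to `Z Q^(-10)` for each `ω` (square at most `Z² Q^(-20)`) `MF ω` is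
`∑_n ∏ SG Q (Cc i (fp …)) (F.map ω i n)`. `D2_cells` with `b = 2X`, `M = X`, `s j = X j/Q^40`, `q = N = Q^40`, `H = Z/Q^40`,
`F h n = ∏ SG … - MDf …`: on a cell the frozen points are constant (`E1_bs` of `H24P`: base points `2 X j + t j s j` and
`Z + j H`), the coefficients there have total size `≤ 3` (`Cf.le`, `Cf.sum`, `D1_base`, `Gm.lo`, `Gm.hi`): `B2_cell` with
`S = cub (2X + t s) s`, `Fam` from `HF` (`Q^B ≤ s j`: `X j ≥ N^(1/2)`, `N ≥ Q^K`, `K ≥ 2 (B + 50)`; the same for `H`),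
`card (cub _ s) = vol s`. -/
theorem D3_ms (m g B : ℕ) (hm : m ≤ 4) (F : LF m g) (C c : ℝ) (hC : 1 ≤ C) (hc : 0 < c)
    (hF : HF C c B F) : ∃ c' K : ℝ, 0 < c' ∧ 1 ≤ K ∧ ∃ Q0 : ℕ, ∀ (Q N Z : ℕ) (X : Fin g → ℕ)
    (Y : Fin m → ℕ), Q0 ≤ Q → K * Real.log Q ≤ Real.log N → Gm F Q N Z X Y →
    ∀ (Cc : Fin m → ℤ → Ch → ℂ) (mb : Fin m → Ch → ℝ), (∀ i, Cf Q (Y i) (Cc i) (mb i)) →
    ∀ r : ℕ, 1 ≤ r → r ^ 100 ≤ Q →
    ∑ ω ∈ cub (fun j => 2 * X j) X, ‖((MF F Q Z Y ω : ℝ) : ℂ) - MZ F Q Z r X Cc ω‖ ^ 2 ≤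
      vol X * (Z : ℝ) ^ 2 * (Q : ℝ) ^ (-c') := by
  classical
  obtain ⟨c1, hc1, Q1, hcell⟩ := B2_cell m C c hC hc
  obtain ⟨Q2, hpt⟩ := D1_pt m hm
  have hcm : 0 < min c1 20 := lt_min hc1 (by norm_num)
  obtain ⟨Q3, hQ3, hlog⟩ := G1_rlog 4 0 (min c1 20 / 2) (by positivity)
  refine ⟨min c1 20 / 2, 2 * (B + 50), by positivity, ?_, max (max Q1 Q2) (max Q3 2), ?_⟩
  · have hB0 : (0 : ℝ) ≤ B := Nat.cast_nonneg _
    linarith
  intro Q N Z X Y hQ hK hG Cc mb hCf r hr hr100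
  have q1 : Q1 ≤ Q := (le_max_left _ _).trans ((le_max_left _ _).trans hQ)
  have q2 : Q2 ≤ Q := (le_max_right _ _).trans ((le_max_left _ _).trans hQ)
  have q3 : Q3 ≤ Q := (le_max_left _ _).trans ((le_max_right _ _).trans hQ)
  have q4 : 2 ≤ Q := (le_max_right _ _).trans ((le_max_right _ _).trans hQ)
  have hQ1 : 1 ≤ Q := by omega
  have hQr : (1 : ℝ) ≤ Q := by exact_mod_cast hQ1
  have hQr0 : (0 : ℝ) < Q := by linarith
  have hq40 : 0 < Q ^ 40 := Nat.pow_pos (by omega)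
  obtain ⟨hN, hsq⟩ := d3_N Q N B q4 hK
  have hZ : Q ^ (B + 50) ≤ Z := hsq Z hG.Zlo
  have hX : ∀ j, Q ^ (B + 50) ≤ X j := fun j => hsq (X j) (hG.Xlo j)
  have hdv : ∀ x : ℕ, Q ^ 40 ∣ x → Q ^ (B + 50) ≤ x → Q ^ (B + 10) ≤ x / Q ^ 40 := by
    intro x _ hx
    rw [Nat.le_div_iff_mul_le hq40, ← pow_add]
    exact hx
  set H : ℕ := Z / Q ^ 40 with hH
  set s : Fin g → ℕ := fun j => X j / Q ^ 40 with hs
  have hHlo : Q ^ (B + 10) ≤ H := hdv Z hG.dvdZ hZ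
  have hslo : ∀ j, Q ^ (B + 10) ≤ s j := fun j => hdv (X j) (hG.dvdX j) (hX j)
  have hHpos : 0 < H := lt_of_lt_of_le (Nat.pow_pos (by omega)) hHlo
  have hspos : ∀ j, 0 < s j := fun j => lt_of_lt_of_le (Nat.pow_pos (by omega)) (hslo j)
  have hZH : Z = H * Q ^ 40 := (Nat.div_mul_cancel hG.dvdZ).symm
  have hXs : ∀ j, X j = s j * Q ^ 40 := fun j => (Nat.div_mul_cancel (hG.dvdX j)).symm
  have hv0 : 0 ≤ vol X := Finset.prod_nonneg fun i _ => Nat.cast_nonneg _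
  -- the two parts
  set F2 : (Fin g → ℕ) → ℕ → ℂ := fun ω n =>
    ∏ i, SG Q (Cc i (fp F Q Z X ω n i)) (F.map ω i (n : ℤ)) -
      MDf Q r (fun i => Cc i (fp F Q Z X ω n i)) (F.map ω) with hF2
  set F1 : (Fin g → ℕ) → ℕ → ℂ := fun ω n =>
    ((∏ i, Lk Q (Y i / Q ^ 2) (F.map ω i (n : ℤ)) : ℝ) : ℂ) -
      ∏ i, SG Q (Cc i (fp F Q Z X ω n i)) (F.map ω i (n : ℤ)) with hF1
  have hdiff : ∀ ω, ((MF F Q Z Y ω : ℝ) : ℂ) - MZ F Q Z r X Cc ω =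
      ∑ n ∈ Ico Z (2 * Z), F1 ω n + ∑ n ∈ Ico Z (2 * Z), F2 ω n := by
    intro ω
    unfold MF MZ
    rw [Complex.ofReal_sum, ← Finset.sum_sub_distrib, ← Finset.sum_add_distrib]
    refine Finset.sum_congr rfl fun n _ => ?_
    rw [hF1, hF2]
    ring
  have hZc : ((Ico Z (2 * Z)).card : ℝ) = Z := by
    rw [Nat.card_Ico]
    congr 1
    omega
  have hone : ∀ ω ∈ cub (fun j => 2 * X j) X, ‖∑ n ∈ Ico Z (2 * Z), F1 ω n‖ ^ 2 ≤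
      (Z : ℝ) ^ 2 * (Q : ℝ) ^ (-(20) : ℝ) := by
    intro ω hω
    have h1 : ‖∑ n ∈ Ico Z (2 * Z), F1 ω n‖ ≤ Z * (Q : ℝ) ^ (-(10) : ℝ) := by
      refine (norm_sum_le _ _).trans ?_
      refine (Finset.sum_le_sum fun n hn => hpt g F Q N Z X Y q2 hN hG Cc mb hCf ω hω n hn).trans ?_
      rw [Finset.sum_const, nsmul_eq_mul, hZc]
    refine (pow_le_pow_left₀ (norm_nonneg _) h1 2).trans (le_of_eq ?_)
    rw [mul_pow]
    congr 1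
    rw [← Real.rpow_natCast, ← Real.rpow_mul hQr0.le]
    norm_num
  have hcard : ((cub (fun j => 2 * X j) X).card : ℝ) = vol X := d3_card _ _
  have hsum1 : ∑ ω ∈ cub (fun j => 2 * X j) X, ‖∑ n ∈ Ico Z (2 * Z), F1 ω n‖ ^ 2 ≤
      vol X * (Z : ℝ) ^ 2 * (Q : ℝ) ^ (-(20) : ℝ) := by
    refine (Finset.sum_le_sum hone).trans (le_of_eq ?_)
    rw [Finset.sum_const, nsmul_eq_mul, hcard]
    ring
  have hsum2 : ∑ ω ∈ cub (fun j => 2 * X j) X, ‖∑ n ∈ Ico Z (2 * Z), F2 ω n‖ ^ 2 ≤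
      vol X * (Z : ℝ) ^ 2 * (Q : ℝ) ^ (-c1) := by
    refine D2_cells (fun j => 2 * X j) X s (Q ^ 40) hXs Z H (Q ^ 40) hZH ((Q : ℝ) ^ (-c1))
      (Real.rpow_nonneg (Nat.cast_nonneg _) _) F2 ?_
    intro t ht j hj
    set w0 : Fin g → ℕ := fun i => 2 * X i + t i * s i with hw0
    have hw0m : w0 ∈ cub (fun j => 2 * X j) X := by
      refine Fintype.mem_piFinset.2 fun i => mem_Ico.2 ⟨Nat.le_add_right _ _, ?_⟩
      have h1 : t i * s i < X i := by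
        calc t i * s i < Q ^ 40 * s i := Nat.mul_lt_mul_of_pos_right (ht i) (hspos i)
          _ = X i := by rw [mul_comm]; exact (hXs i).symm
      show 2 * X i + t i * s i < 2 * X i + X i
      omega
    have hn0 : Z + j * H ∈ Ico Z (2 * Z) := by
      have h1 : j * H < Z := by
        calc j * H < Q ^ 40 * H := Nat.mul_lt_mul_of_pos_right hj hHpos
          _ = Z := by rw [mul_comm]; exact hZH.symm
      rw [mem_Ico]
      omega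
    have hbw : ∀ ω ∈ cub w0 s, bw Q X ω = w0 := by
      intro ω hω
      funext i
      have h1 := Fintype.mem_piFinset.1 hω i
      exact E1_bs (hspos i) (Dvd.dvd.mul_left ⟨Q ^ 40, hXs i⟩ 2) h1
    have hbn : ∀ n ∈ Ico (Z + j * H) (Z + j * H + H), bs (Z / Q ^ 40) n = Z + j * H := by
      intro n hn
      exact E1_bs hHpos ⟨Q ^ 40, hZH⟩ hn
    have hfp : ∀ ω ∈ cub w0 s, ∀ n ∈ Ico (Z + j * H) (Z + j * H + H), ∀ i,
        fp F Q Z X ω n i = F.map w0 i ((Z + j * H : ℕ) : ℤ) := by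
      intro ω hω n hn i
      unfold fp
      rw [hbw ω hω, hbn n hn]
    have hval : ∀ i, (Y i : ℤ) ≤ F.map w0 i ((Z + j * H : ℕ) : ℤ) ∧
        F.map w0 i ((Z + j * H : ℕ) : ℤ) ≤ 4 * Y i :=
      fun i => ⟨hG.lo i _ hw0m _ hn0, (hG.hi i _ hw0m _ hn0).le⟩
    set cf : Fin m → Ch → ℂ := fun i => Cc i (F.map w0 i ((Z + j * H : ℕ) : ℤ)) with hcf
    have hcf3 : ∀ i, ∑ p ∈ PC Q, ‖cf i p‖ ≤ 3 := by
      intro i
      refine (Finset.sum_le_sum fun p hp => (hCf i).le _ (hval i).1 (hval i).2 p hp).trans (hCf i).sum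
    have hB0 : Q ^ B ≤ H := (Nat.pow_le_pow_right hQ1 (by omega)).trans hHlo
    have hB4 : Q ^ 4 ≤ H := (Nat.pow_le_pow_right hQ1 (by omega)).trans hHlo
    have hFam := hF Q q4 w0 s (fun j => (Nat.pow_le_pow_right hQ1 (by omega)).trans (hslo j))
    have key := hcell Q q1 (Q ^ B) (Fin g → ℕ) (cub w0 s) F.map hFam r hr hr100 cf hcf3 (Z + j * H) H
      hB0 hB4
    rw [d3_card] at key
    refine le_trans (le_of_eq ?_) key
    refine Finset.sum_congr rfl fun ω hω => ?_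
    congr 2
    have h1 : ∀ n ∈ Ico (Z + j * H) (Z + j * H + H), F2 ω n =
        ∏ i, SG Q (cf i) (F.map ω i (n : ℤ)) - MDf Q r cf (F.map ω) := by
      intro n hn
      have h2 : (fun i => Cc i (fp F Q Z X ω n i)) = cf := by
        funext i
        rw [hcf]
        beta_reduce
        rw [hfp ω hω n hn i]
      have h3 : F2 ω n = ∏ i, SG Q ((fun i => Cc i (fp F Q Z X ω n i)) i) (F.map ω i (n : ℤ)) -
          MDf Q r (fun i => Cc i (fp F Q Z X ω n i)) (F.map ω) := rfl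
      rw [h3, h2]
    rw [Finset.sum_congr rfl h1, Finset.sum_sub_distrib, Finset.sum_const, Nat.card_Ico, nsmul_eq_mul,
      Nat.add_sub_cancel_left]
  have hV0 : 0 ≤ vol X * (Z : ℝ) ^ 2 := by positivity
  have hle : ∀ c' : ℝ, min c1 20 ≤ c' → vol X * (Z : ℝ) ^ 2 * (Q : ℝ) ^ (-c') ≤
      vol X * (Z : ℝ) ^ 2 * (Q : ℝ) ^ (-(min c1 20)) := by
    intro c' hc'
    exact mul_le_mul_of_nonneg_left (Real.rpow_le_rpow_of_exponent_le hQr (by linarith)) hV0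
  have f1 := hsum1.trans (hle _ (min_le_right _ _))
  have f2 := hsum2.trans (hle _ (min_le_left _ _))
  have hpt2 : ∀ ω ∈ cub (fun j => 2 * X j) X, ‖((MF F Q Z Y ω : ℝ) : ℂ) - MZ F Q Z r X Cc ω‖ ^ 2 ≤
      2 * ‖∑ n ∈ Ico Z (2 * Z), F1 ω n‖ ^ 2 + 2 * ‖∑ n ∈ Ico Z (2 * Z), F2 ω n‖ ^ 2 := by
    intro ω _
    rw [hdiff ω]
    have h1 := norm_add_le (∑ n ∈ Ico Z (2 * Z), F1 ω n) (∑ n ∈ Ico Z (2 * Z), F2 ω n)
    refine (pow_le_pow_left₀ (norm_nonneg _) h1 2).trans ?_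
    nlinarith [sq_nonneg (‖∑ n ∈ Ico Z (2 * Z), F1 ω n‖ - ‖∑ n ∈ Ico Z (2 * Z), F2 ω n‖)]
  refine (Finset.sum_le_sum hpt2).trans ?_
  rw [Finset.sum_add_distrib, ← Finset.mul_sum, ← Finset.mul_sum]
  have hfin : 4 * (vol X * (Z : ℝ) ^ 2 * (Q : ℝ) ^ (-(min c1 20))) ≤
      vol X * (Z : ℝ) ^ 2 * (Q : ℝ) ^ (-(min c1 20 / 2)) := by
    have h3 : (Q : ℝ) ^ (-(min c1 20 / 2)) = (Q : ℝ) ^ (min c1 20 / 2) * (Q : ℝ) ^ (-(min c1 20)) := by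
      rw [← Real.rpow_add hQr0]
      congr 1
      ring
    have h4 := hlog Q q3
    rw [Real.rpow_zero, mul_one] at h4
    have h5 : 0 ≤ vol X * (Z : ℝ) ^ 2 * (Q : ℝ) ^ (-(min c1 20)) :=
      mul_nonneg hV0 (Real.rpow_nonneg hQr0.le _)
    rw [h3]
    nlinarith [mul_le_mul_of_nonneg_right h4 h5]
  linarith

/-- **D3.** Proof. Compare `Z4_main`, `Z3_main` in `H24P`. `CF0` of `H59P` for all `i` (`E0 ≤ 1`), `D3_ms` with `r = px.1`;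
`z4_cheb`: `Bad` = the `ω` with `‖MF - MZ‖ > Z Q^(-c'/4)`, at most `vol X Q^(-c'/2)` of them. For the others, for each `n`
`Z3_cell` of `H24P` (`m0 = px.1 ≤ fl Q (1/16)` by `G1_size` with `a = 1`; `th i` = `th` at the frozen point `fp`, which is in
`[Y_i, 4Y_i)`; `MX px th x p = MX px (fun _ => th x) 0 p` by unfolding), so `Re MZ ≥ Z m0/2`. -/
theorem D3_main (m g B : ℕ) (hm : m ≤ 4) (F : LF m g) (C c : ℝ) (hC : 1 ≤ C) (hc : 0 < c)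
    (hF : HF C c B F) : ∃ c' K : ℝ, 0 < c' ∧ 1 ≤ K ∧ ∃ Q0 : ℕ, ∀ (Q N Z : ℕ) (X : Fin g → ℕ)
    (Y : Fin m → ℕ) (η E0 : ℝ) (px : Ch) (th : ℤ → ℝ), Q0 ≤ Q → K * Real.log Q ≤ Real.log N →
    Gm F Q N Z X Y → px ∈ PC Q → px.1 ^ 100 ≤ Q → (∀ i, Mdl Q (Y i) η E0 px th) → 0 < η →
    px.2 ^ 2 = 1 → 0 ≤ E0 → 4 * m * E0 ≤ 1 → E0 ≤ 1 →
    ∃ Bad : Finset (Fin g → ℕ), Bad ⊆ cub (fun j => 2 * X j) X ∧
      (Bad.card : ℝ) ≤ vol X * (Q : ℝ) ^ (-c') ∧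
      ∀ ω ∈ cub (fun j => 2 * X j) X, ω ∉ Bad → ∀ m0 : ℝ, (∀ th' : Fin m → ℝ, (∀ i, 0 ≤ th' i) →
        (∀ i, th' i ≤ 1 - η) → (px = p0 → ∀ i, th' i = 0) → m0 ≤ PMf Q px th' (F.map ω)) →
        Z * (m0 / 2 - (Q : ℝ) ^ (-c')) ≤ MF F Q Z Y ω := by
  obtain ⟨c1, K, hc1, hK, Q0, hms⟩ := D3_ms m g B hm F C c hC hc hF
  obtain ⟨Q1, hQ1, hsize⟩ := G1_size 1
  refine ⟨c1 / 4, K, by positivity, hK, max Q0 Q1, ?_⟩
  intro Q N Z X Y η E0 px th hQ hKN hG hpx hpx100 hM hη hreal hE0 hmE hE1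
  have q0 : Q0 ≤ Q := (le_max_left _ _).trans hQ
  have q1 : Q1 ≤ Q := (le_max_right _ _).trans hQ
  have q2 : 1 ≤ Q := hQ1.trans q1
  have hQr : (1 : ℝ) ≤ Q := by exact_mod_cast q2
  have hQr0 : (0 : ℝ) < Q := by linarith
  choose e eb mb b1 b2 b3 b4 using fun i => CF0 Q (Y i) η E0 px th q2 (hM i) hE1
  have hms' := hms Q N Z X Y q0 hKN hG (fun i m p => MX px th m p + e i m p) mb b4 px.1
    (mem_PC.1 hpx).1 hpx100
  have hv0 : 0 ≤ vol X := prod_nonneg fun i _ => Nat.cast_nonneg _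
  rcases Nat.eq_zero_or_pos Z with hZ0 | hZpos
  · refine ⟨∅, empty_subset _, ?_, ?_⟩
    · rw [card_empty, Nat.cast_zero]
      exact mul_nonneg hv0 (Real.rpow_nonneg hQr0.le _)
    · intro ω _ _ m0 _
      unfold MF
      rw [hZ0]
      simp
  have hZr : (0 : ℝ) < Z := by exact_mod_cast hZpos
  have hTpos : 0 < (Z : ℝ) * (Q : ℝ) ^ (-(c1 / 4)) := by positivity
  have hch := z4_cheb (cub (fun j => 2 * X j) X) (fun ω => ‖((MF F Q Z Y ω : ℝ) : ℂ) -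
    MZ F Q Z px.1 X (fun i m p => MX px th m p + e i m p) ω‖) _ _ hTpos hms' (fun _ => norm_nonneg _)
  refine ⟨_, filter_subset _ _, hch.trans ?_, ?_⟩
  · have h1 : ((Z : ℝ) * (Q : ℝ) ^ (-(c1 / 4))) ^ 2 = (Z : ℝ) ^ 2 * (Q : ℝ) ^ (-(c1 / 2)) := by
      rw [mul_pow, ← Real.rpow_natCast ((Q : ℝ) ^ (-(c1 / 4))), ← Real.rpow_mul hQr0.le]
      congr 2
      push_cast
      ring
    have h2 : (Q : ℝ) ^ (-c1) = (Q : ℝ) ^ (-(c1 / 2)) * (Q : ℝ) ^ (-(c1 / 2)) := by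
      rw [← Real.rpow_add hQr0]
      congr 1
      ring
    have h3 : (0 : ℝ) < (Q : ℝ) ^ (-(c1 / 2)) := Real.rpow_pos_of_pos hQr0 _
    have h4 : vol X * (Z : ℝ) ^ 2 * (Q : ℝ) ^ (-c1) / ((Z : ℝ) * (Q : ℝ) ^ (-(c1 / 4))) ^ 2 =
        vol X * (Q : ℝ) ^ (-(c1 / 2)) := by
      rw [h1, h2]
      field_simp
    rw [h4]
    exact mul_le_mul_of_nonneg_left (Real.rpow_le_rpow_of_exponent_le hQr (by linarith)) hv0
  · intro ω hω hbad m0 hm0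
    rw [mem_filter, not_and, not_lt] at hbad
    have h1 := hbad hω
    have hcond := (hsize Q q1 px.1 1 le_rfl le_rfl hpx100).1
    rw [one_mul] at hcond
    have hN : 1 ≤ N := by
      rcases Nat.eq_zero_or_pos N with h | h
      · have h2 := hG.Zhi
        omega
      · exact h
    have hcell : ∀ n ∈ Ico Z (2 * Z), m0 / 2 ≤
        (MDf Q px.1 (fun i => (fun (i : Fin m) (x : ℤ) (p : Ch) => MX px th x p + e i x p) i
          (fp F Q Z X ω n i)) (F.map ω)).re := by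
      intro n hn
      obtain ⟨d1, d2, -⟩ := D1_base hG q2 hN ω hω n hn
      have hval : ∀ i, (Y i : ℤ) ≤ fp F Q Z X ω n i ∧ fp F Q Z X ω n i ≤ 4 * Y i :=
        fun i => ⟨hG.lo i _ d1 _ d2, (hG.hi i _ d1 _ d2).le⟩
      refine Z3_cell Q px.1 q2 η E0 px hpx hreal dvd_rfl (mem_PC.1 hpx).1 hcond hη hE0 hmE (F.map ω)
        (fun i => th (fp F Q Z X ω n i)) ?_ ?_ ?_ (fun i => e i (fp F Q Z X ω n i)) _ ?_ ?_ m0 hm0
      · intro i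
        exact (hM i).nonneg _ (hval i).1 (hval i).2
      · intro i
        exact (hM i).le _ (hval i).1 (hval i).2
      · intro h0 i
        exact (hM i).triv h0 _
      · intro i
        exact (Finset.sum_le_sum fun p hp => b3 i _ (hval i).1 (hval i).2 p hp).trans (b2 i)
      · intro i p
        rfl
    have hZ3 : Z * (m0 / 2) ≤ (MZ F Q Z px.1 X (fun i m p => MX px th m p + e i m p) ω).re := by
      unfold MZ
      rw [Complex.re_sum]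
      have h2 := Finset.sum_le_sum hcell
      rw [Finset.sum_const, Nat.card_Ico, nsmul_eq_mul] at h2
      have h3 : 2 * Z - Z = Z := by omega
      rw [h3] at h2
      exact h2
    have h5 : (MZ F Q Z px.1 X (fun i m p => MX px th m p + e i m p) ω).re - MF F Q Z Y ω ≤
        Z * (Q : ℝ) ^ (-(c1 / 4)) := by
      refine le_trans ?_ h1
      have h6 := Complex.abs_re_le_norm (((MF F Q Z Y ω : ℝ) : ℂ) -
        MZ F Q Z px.1 X (fun i m p => MX px th m p + e i m p) ω)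
      refine le_trans ?_ h6
      rw [Complex.sub_re, Complex.ofReal_re]
      have h7 := neg_abs_le (MF F Q Z Y ω -
        (MZ F Q Z px.1 X (fun i m p => MX px th m p + e i m p) ω).re)
      linarith
    have h8 : (Z : ℝ) * (m0 / 2 - (Q : ℝ) ^ (-(c1 / 4))) =
        Z * (m0 / 2) - Z * (Q : ℝ) ^ (-(c1 / 4)) := by ring
    rw [h8]
    linarith

end Pool.Agent.Lib.H24Q
end

-- from Lib.H24Q.D4
section

/-!
# Project H24Q, chunk D4 (M): lower bounds for MF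
-/

open Finset

namespace Pool.Agent.Lib.H24Q

open Pool.Agent.Lib.H68T Pool.Agent.Lib.H18Q Pool.Agent.Lib.H59P Pool.Agent.Lib.H24P

/-- The exceptional level structure of `L_levels` (with `A = 1`), `R` a condition on the conductor. -/
def Exc (Q N : ℕ) (E0 : ℝ) (R : ℕ → Prop) : Prop :=
  ∃ (r : ℕ) (_ : NeZero r) (ψ : DirichletCharacter ℂ r) (β η : ℝ), R r ∧ r ^ 100 ≤ Q ∧
    ψ.IsPrimitive ∧ ψ ≠ 1 ∧ ψ ^ 2 = 1 ∧ β < 1 ∧ ψ.LFunction (β : ℂ) = 0 ∧ 1 - β ≤ 2 * η ∧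
    ∀ Y : ℕ, N ≤ Y ^ 2 → Y ≤ N ^ 2 → Mdl Q Y η E0 ⟨r, ψ⟩ (fun m => (m : ℝ) ^ (β - 1)) ∧
      Mdl (Q ^ 100) Y η E0 ⟨r, ψ⟩ (fun m => (m : ℝ) ^ (β - 1))

/-- Good, or exceptional with conductor at most `Q^c6`. -/
def LvA (Q N : ℕ) (E0 c6 : ℝ) : Prop :=
  (∀ Y : ℕ, N ≤ Y ^ 2 → Y ≤ N ^ 2 →
      Mdl Q Y 1 E0 p0 (fun _ => 0) ∧ Mdl (Q ^ 100) Y 1 E0 p0 (fun _ => 0)) ∨
    Exc Q N E0 (fun r => (r : ℝ) ≤ (Q : ℝ) ^ c6)

/-- Exceptional with conductor larger than `Q^c6`. -/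
def LvB (Q N : ℕ) (E0 c6 : ℝ) : Prop := Exc Q N E0 (fun r => (Q : ℝ) ^ c6 < r)

/-- The conclusion for the family `F`: exceptional set `Q^(-c)`, loss `Q^(-b)`. -/
def LowF {m g : ℕ} (F : LF m g) (Q N : ℕ) (c b : ℝ) : Prop :=
  ∀ (Z : ℕ) (X : Fin g → ℕ) (Y : Fin m → ℕ), Gm F Q N Z X Y →
    ∃ Bad : Finset (Fin g → ℕ), Bad ⊆ cub (fun j => 2 * X j) X ∧
      (Bad.card : ℝ) ≤ vol X * (Q : ℝ) ^ (-c) ∧
      ∀ ω ∈ cub (fun j => 2 * X j) X, ω ∉ Bad → NoFix (F.map ω) →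
        Z * (Q : ℝ) ^ (-b) ≤ MF F Q Z Y ω

/-- Proof. Directly (`1 ≤ Q`). -/
theorem LowF_mono {m g : ℕ} {F : LF m g} {Q N : ℕ} (hQ : 1 ≤ Q) {c c' b b' : ℝ} (h : LowF F Q N c b)
    (hc : c' ≤ c) (hb : b ≤ b') : LowF F Q N c' b' := by
  intro Z X Y hG
  obtain ⟨Bad, hB1, hB2, hB3⟩ := h Z X Y hG
  have hQr : (1 : ℝ) ≤ Q := by exact_mod_cast hQ
  refine ⟨Bad, hB1, hB2.trans ?_, fun ω hω hωB hN => le_trans ?_ (hB3 ω hω hωB hN)⟩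
  · exact mul_le_mul_of_nonneg_left (Real.rpow_le_rpow_of_exponent_le hQr (by linarith))
      (Finset.prod_nonneg fun i _ => Nat.cast_nonneg _)
  · exact mul_le_mul_of_nonneg_left (Real.rpow_le_rpow_of_exponent_le hQr (by linarith))
      (Nat.cast_nonneg _)

theorem d4_fam {m g B : ℕ} {F : LF m g} {C c : ℝ} (hF : HF C c B F) {Q N Z : ℕ} {X : Fin g → ℕ}
    {Y : Fin m → ℕ} {K : ℝ} (hQ : 2 ≤ Q) (hK : max K (2 * (B + 50)) * Real.log Q ≤ Real.log N)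
    (hG : Gm F Q N Z X Y) : K * Real.log Q ≤ Real.log N ∧
      Fam C c Q (Q ^ B) (cub (fun j => 2 * X j) X) F.map := by
  have hl : 0 ≤ Real.log Q := Real.log_natCast_nonneg Q
  have h1 : K * Real.log Q ≤ Real.log N :=
    (mul_le_mul_of_nonneg_right (le_max_left _ _) hl).trans hK
  have h2 : 2 * ((B : ℝ) + 50) * Real.log Q ≤ Real.log N :=
    (mul_le_mul_of_nonneg_right (le_max_right _ _) hl).trans hK
  refine ⟨h1, hF Q hQ _ _ fun j => ?_⟩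
  exact (Nat.pow_le_pow_right (by omega) (by omega)).trans ((d3_N Q N B hQ h2).2 (X j) (hG.Xlo j))

theorem d4_fin {Q : ℕ} {a ε c1 : ℝ} (hQ : (1 : ℝ) ≤ Q) (h4 : (4 : ℝ) ≤ (Q : ℝ) ^ ε)
    (hc : a + ε ≤ c1) : (Q : ℝ) ^ (-(a + ε)) ≤ (Q : ℝ) ^ (-a) / 2 - (Q : ℝ) ^ (-c1) := by
  have hQ0 : (0 : ℝ) < Q := by linarith
  have h1 : (Q : ℝ) ^ (-c1) ≤ (Q : ℝ) ^ (-(a + ε)) :=
    Real.rpow_le_rpow_of_exponent_le hQ (by linarith)
  have h2 : (Q : ℝ) ^ (-a) = (Q : ℝ) ^ ε * (Q : ℝ) ^ (-(a + ε)) := by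
    rw [← Real.rpow_add hQ0]
    congr 1
    ring
  have h3 : 0 ≤ (Q : ℝ) ^ (-(a + ε)) := Real.rpow_nonneg hQ0.le _
  have h5 := mul_le_mul_of_nonneg_right h4 h3
  rw [← h2] at h5
  linarith

/-- **D4A.** Proof. `D3_main` with `c1 = c'`, `E0 = 1/16`. Good levels: `px = p0`, `η = 1`, `m0 = Q^(-ε)` (`C1_good`, `FB` from `HF`
for the family over `S = cub (2X) X`). Exceptional ones: `m0 = Q^(-(m c6 + ε))` (`C1_exc`, first part). So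
`MF ≥ Z (Q^(-(m c6 + ε))/2 - Q^(-c1)) ≥ Z Q^(-(m c6 + 2 ε))` for `Q` large, as `m c6 + 2 ε < c1`. (`η ≤ 1`, `0 < η` from
`Mdl`, for instance with `Y = N`.) -/
theorem D4_A (m g B : ℕ) (hm : m ≤ 4) (F : LF m g) (C c : ℝ) (hC : 1 ≤ C) (hc : 0 < c)
    (hF : HF C c B F) : ∃ c1 K : ℝ, 0 < c1 ∧ 1 ≤ K ∧ ∀ c6 ε : ℝ, 0 < c6 → 0 < ε →
    m * c6 + 2 * ε < c1 → ∃ Q0 : ℕ, ∀ (Q N : ℕ), Q0 ≤ Q → K * Real.log Q ≤ Real.log N →
    LvA Q N (1 / 16) c6 → LowF F Q N c1 (m * c6 + 2 * ε) := by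
  obtain ⟨c1, K, hc1, hK, Qa, hmain⟩ := D3_main m g B hm F C c hC hc hF
  refine ⟨c1, max K (2 * (B + 50)), hc1, le_max_of_le_left hK, fun c6 ε hc6 hε hlt => ?_⟩
  obtain ⟨Qb, hgood⟩ := C1_good m C ε hC hε
  obtain ⟨Qc, hexc⟩ := C1_exc m C c c6 ε hC hc hc6 hε
  obtain ⟨Qd, hQd1, hlog⟩ := G1_rlog 4 0 ε hε
  refine ⟨max (max Qa Qb) (max Qc (max Qd 2)), fun Q N hQ hKN hLv Z X Y hG => ?_⟩
  have qa : Qa ≤ Q := (le_max_left _ _).trans ((le_max_left _ _).trans hQ)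
  have qb : Qb ≤ Q := (le_max_right _ _).trans ((le_max_left _ _).trans hQ)
  have qc : Qc ≤ Q := (le_max_left _ _).trans ((le_max_right _ _).trans hQ)
  have qd : Qd ≤ Q := (le_max_left _ _).trans ((le_max_right _ _).trans ((le_max_right _ _).trans hQ))
  have q2 : 2 ≤ Q := (le_max_right _ _).trans ((le_max_right _ _).trans ((le_max_right _ _).trans hQ))
  have hQr : (1 : ℝ) ≤ Q := by exact_mod_cast (show 1 ≤ Q by omega)
  obtain ⟨hKN', hFam⟩ := d4_fam hF q2 hKN hG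
  have hm1 : 4 * (m : ℝ) * (1 / 16) ≤ 1 := by
    have : (m : ℝ) ≤ 4 := by exact_mod_cast hm
    linarith
  have hm0 : (0 : ℝ) ≤ m := Nat.cast_nonneg _
  have hmc : (0 : ℝ) ≤ m * c6 := mul_nonneg hm0 hc6.le
  have hfin := d4_fin (Q := Q) (a := m * c6 + ε) (ε := ε) (c1 := c1) hQr
    (by have := hlog Q qd; rwa [Real.rpow_zero, mul_one] at this) (by linarith)
  rcases hLv with hL | ⟨r, hr, ψ, β, η, hrc, hr100, hprim, hψ1, hψ2, hβ, hzero, hη, hM⟩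
  · have hMN := (hL N (Nat.le_self_pow (by norm_num) N) (Nat.le_self_pow (by norm_num) N)).1
    obtain ⟨Bad, hB1, hB2, hB3⟩ := hmain Q N Z X Y 1 (1 / 16) p0 (fun _ => 0) qa hKN' hG hMN.mem
      hMN.cond (fun i => (hL (Y i) (hG.Ylo i) (hG.Yhi i)).1) one_pos hMN.real (by norm_num) hm1
      (by norm_num)
    refine ⟨Bad, hB1, hB2, fun ω hω hωB hNF => ?_⟩
    have h1 := hB3 ω hω hωB ((Q : ℝ) ^ (-(m * c6 + ε))) (fun th' h0 h1 _ => ?_)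
    · refine le_trans ?_ h1
      refine mul_le_mul_of_nonneg_left ?_ (Nat.cast_nonneg _)
      have e1 : m * c6 + ε + ε = m * c6 + 2 * ε := by ring
      rw [e1] at hfin
      exact hfin
    · refine le_trans ?_ (hgood Q qb (F.map ω) (hFam.fb.cp ω hω) (hFam.fb.tp ω hω) hNF th' h0 h1)
      exact Real.rpow_le_rpow_of_exponent_le hQr (by linarith)
  · have hMN := (hM N (Nat.le_self_pow (by norm_num) N) (Nat.le_self_pow (by norm_num) N)).1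
    obtain ⟨Bad, hB1, hB2, hB3⟩ := hmain Q N Z X Y η (1 / 16) ⟨r, ψ⟩ _ qa hKN' hG hMN.mem
      hMN.cond (fun i => (hM (Y i) (hG.Ylo i) (hG.Yhi i)).1) hMN.eta_pos hMN.real (by norm_num) hm1
      (by norm_num)
    refine ⟨Bad, hB1, hB2, fun ω hω hωB hNF => ?_⟩
    have h1 := hB3 ω hω hωB ((Q : ℝ) ^ (-(m * c6 + ε))) (fun th' h0 h1 _ => ?_)
    · refine le_trans ?_ h1
      refine mul_le_mul_of_nonneg_left ?_ (Nat.cast_nonneg _)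
      have e1 : m * c6 + ε + ε = m * c6 + 2 * ε := by ring
      rw [e1] at hfin
      exact hfin
    · exact (hexc Q qc (Q ^ B) (Fin g → ℕ) (cub (fun j => 2 * X j) X) F.map hFam r ψ β η hr100 hprim
        hψ1 hψ2 hβ hzero hη hMN.eta_le).1 hrc ω hω hNF th' h0 h1

/-- **D4B.** Proof. `D3_main` (`c1 = c'`) and `C1_exc`, second part: the union of the two bad sets has at most
`vol X (Q^(-c1) + Q^(-c c6/2)) ≤ vol X Q^(-min(c1, c c6/2)/2)` elements (`card (cub _ X) = vol X`), `m0 = Q^(-ε)`. -/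
theorem D4_B (m g B : ℕ) (hm : m ≤ 4) (F : LF m g) (C c : ℝ) (hC : 1 ≤ C) (hc : 0 < c)
    (hF : HF C c B F) : ∃ c1 K : ℝ, 0 < c1 ∧ 1 ≤ K ∧ ∀ c6 ε : ℝ, 0 < c6 → 0 < ε →
    2 * ε < c1 → ∃ Q0 : ℕ, ∀ (Q N : ℕ), Q0 ≤ Q → K * Real.log Q ≤ Real.log N →
    LvB Q N (1 / 16) c6 → LowF F Q N (min c1 (c * c6 / 2) / 2) (2 * ε) := by
  classical
  obtain ⟨c1, K, hc1, hK, Qa, hmain⟩ := D3_main m g B hm F C c hC hc hF
  refine ⟨c1, max K (2 * (B + 50)), hc1, le_max_of_le_left hK, fun c6 ε hc6 hε hlt => ?_⟩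
  obtain ⟨Qc, hexc⟩ := C1_exc m C c c6 ε hC hc hc6 hε
  obtain ⟨Qd, hQd1, hlog⟩ := G1_rlog 4 0 ε hε
  have hcc : 0 < min c1 (c * c6 / 2) := lt_min hc1 (by positivity)
  obtain ⟨Qe, hQe1, hlog2⟩ := G1_rlog 2 0 (min c1 (c * c6 / 2) / 2) (by positivity)
  refine ⟨max (max Qa Qe) (max Qc (max Qd 2)), fun Q N hQ hKN hLv Z X Y hG => ?_⟩
  have qa : Qa ≤ Q := (le_max_left _ _).trans ((le_max_left _ _).trans hQ)
  have qe : Qe ≤ Q := (le_max_right _ _).trans ((le_max_left _ _).trans hQ)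
  have qc : Qc ≤ Q := (le_max_left _ _).trans ((le_max_right _ _).trans hQ)
  have qd : Qd ≤ Q := (le_max_left _ _).trans ((le_max_right _ _).trans ((le_max_right _ _).trans hQ))
  have q2 : 2 ≤ Q := (le_max_right _ _).trans ((le_max_right _ _).trans ((le_max_right _ _).trans hQ))
  have hQr : (1 : ℝ) ≤ Q := by exact_mod_cast (show 1 ≤ Q by omega)
  have hQr0 : (0 : ℝ) < Q := by linarith
  obtain ⟨hKN', hFam⟩ := d4_fam hF q2 hKN hG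
  have hm1 : 4 * (m : ℝ) * (1 / 16) ≤ 1 := by
    have : (m : ℝ) ≤ 4 := by exact_mod_cast hm
    linarith
  have hfin := d4_fin (Q := Q) (a := ε) (ε := ε) (c1 := c1) hQr
    (by have := hlog Q qd; rwa [Real.rpow_zero, mul_one] at this) (by linarith)
  obtain ⟨r, hr, ψ, β, η, hrc, hr100, hprim, hψ1, hψ2, hβ, hzero, hη, hM⟩ := hLv
  have hMN := (hM N (Nat.le_self_pow (by norm_num) N) (Nat.le_self_pow (by norm_num) N)).1
  obtain ⟨Bad, hB1, hB2, hB3⟩ := hmain Q N Z X Y η (1 / 16) ⟨r, ψ⟩ _ qa hKN' hG hMN.mem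
    hMN.cond (fun i => (hM (Y i) (hG.Ylo i) (hG.Yhi i)).1) hMN.eta_pos hMN.real (by norm_num) hm1
    (by norm_num)
  obtain ⟨Bad', hC1, hC2, hC3⟩ := (hexc Q qc (Q ^ B) (Fin g → ℕ) (cub (fun j => 2 * X j) X) F.map hFam
    r ψ β η hr100 hprim hψ1 hψ2 hβ hzero hη hMN.eta_le).2 hrc
  have hv0 : 0 ≤ vol X := Finset.prod_nonneg fun i _ => Nat.cast_nonneg _
  refine ⟨Bad ∪ Bad', Finset.union_subset hB1 hC1, ?_, ?_⟩
  · rw [d3_card] at hC2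
    have h1 : ((Bad ∪ Bad').card : ℝ) ≤ Bad.card + Bad'.card := by
      exact_mod_cast Finset.card_union_le _ _
    set μ : ℝ := min c1 (c * c6 / 2) with hμ
    have h2 : vol X * (Q : ℝ) ^ (-c1) ≤ vol X * (Q : ℝ) ^ (-μ) :=
      mul_le_mul_of_nonneg_left (Real.rpow_le_rpow_of_exponent_le hQr
        (neg_le_neg (min_le_left _ _))) hv0
    have h3 : vol X * (Q : ℝ) ^ (-(c * c6 / 2)) ≤ vol X * (Q : ℝ) ^ (-μ) :=
      mul_le_mul_of_nonneg_left (Real.rpow_le_rpow_of_exponent_le hQr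
        (neg_le_neg (min_le_right _ _))) hv0
    have h4 := hlog2 Q qe
    rw [Real.rpow_zero, mul_one] at h4
    have h5 : (Q : ℝ) ^ (-(μ / 2)) = (Q : ℝ) ^ (μ / 2) * (Q : ℝ) ^ (-μ) := by
      rw [← Real.rpow_add hQr0]
      congr 1
      ring
    have h6 : 0 ≤ vol X * (Q : ℝ) ^ (-μ) := mul_nonneg hv0 (Real.rpow_nonneg hQr0.le _)
    rw [h5]
    nlinarith [mul_le_mul_of_nonneg_right h4 h6]
  · intro ω hω hωB hNF
    rw [Finset.mem_union, not_or] at hωB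
    have h1 := hB3 ω hω hωB.1 ((Q : ℝ) ^ (-ε)) (fun th' h0 h1 _ => hC3 ω hω hωB.2 hNF th' h0 h1)
    refine le_trans ?_ h1
    refine mul_le_mul_of_nonneg_left ?_ (Nat.cast_nonneg _)
    have e1 : ε + ε = 2 * ε := by ring
    rw [e1] at hfin
    exact hfin

end Pool.Agent.Lib.H24Q
end

-- from Lib.H24Q.D5
section

/-!
# Project H24Q, chunk D5 (M): the families, geometry and local conditions
-/

open Finset

namespace Pool.Agent.Lib.H24Q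

open Pool.Agent.Lib.H68T Pool.Agent.Lib.H18Q Pool.Agent.Lib.H59P Pool.Agent.Lib.H24P

/-- `Lk(x+y) Lk(x-y)` at the scale `X`. -/
noncomputable def KL (Q X x y : ℕ) : ℝ :=
  Lk Q (X / Q ^ 2) ((x : ℤ) + y) * Lk Q (X / Q ^ 2) ((x : ℤ) - y)

theorem d5_eq (l a b : ℕ) (ha : a < l) (hb : b < l) (h : (l : ℤ) ∣ (a : ℤ) - b) : a = b := by
  have h1 : (a : ℤ) ≡ b [ZMOD l] := (Int.modEq_iff_dvd.2 (by
    obtain ⟨c, hc⟩ := h
    exact ⟨-c, by linarith⟩))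
  have h2 : a ≡ b [MOD l] := (Int.natCast_modEq_iff).1 h1
  exact Nat.ModEq.eq_of_lt_of_lt h2 ha hb

theorem d5_one (f : ℤ → ℤ) (l : ℕ) (v w : ℤ) (hf : ∀ n, f n = v * n + w)
    (hv : v = 1 ∨ v = -1) : ((range l).filter (fun n : ℕ => (l : ℤ) ∣ f n)).card ≤ 1 := by
  rw [Finset.card_le_one]
  intro a ha b hb
  obtain ⟨ha1, ha2⟩ := mem_filter.1 ha
  obtain ⟨hb1, hb2⟩ := mem_filter.1 hb
  rw [hf] at ha2 hb2
  refine d5_eq l a b (mem_range.1 ha1) (mem_range.1 hb1) ?_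
  have h3 := dvd_sub ha2 hb2
  rcases hv with rfl | rfl
  · have h4 : (1 * (a : ℤ) + w) - (1 * (b : ℤ) + w) = (a : ℤ) - b := by ring
    rwa [h4] at h3
  · have h4 : (-1 * (a : ℤ) + w) - (-1 * (b : ℤ) + w) = -((a : ℤ) - b) := by ring
    rw [h4] at h3
    exact (dvd_neg).1 h3

/-- Fewer coordinates than residue classes. -/
theorem d5_free {m : ℕ} (φ : Fin m → ℤ → ℤ) (l : ℕ) (hm : m < l)
    (h : ∀ i, ∃ v w : ℤ, (∀ n, φ i n = v * n + w) ∧ (v = 1 ∨ v = -1)) :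
    ∃ n : ℤ, ∀ i, ¬ (l : ℤ) ∣ φ i n := by
  classical
  have h1 : (univ.biUnion (fun i : Fin m => (range l).filter
      (fun n : ℕ => (l : ℤ) ∣ φ i n))).card ≤ m := by
    refine card_biUnion_le.trans ?_
    calc ∑ i : Fin m, ((range l).filter (fun n : ℕ => (l : ℤ) ∣ φ i n)).card
        ≤ ∑ _i : Fin m, 1 := Finset.sum_le_sum fun i _ => by
          obtain ⟨v, w, hv, hv1⟩ := h i
          exact d5_one (φ i) l v w hv hv1
      _ = m := by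
          rw [Finset.sum_const, card_univ, Fintype.card_fin, smul_eq_mul, mul_one]
  have h2 : ∃ n ∈ range l, n ∉ univ.biUnion (fun i : Fin m => (range l).filter
      (fun n : ℕ => (l : ℤ) ∣ φ i n)) := by
    by_contra hc
    push Not at hc
    have h3 := card_le_card (show range l ⊆ _ from hc)
    rw [card_range] at h3
    omega
  obtain ⟨n, hn, hn2⟩ := h2
  refine ⟨(n : ℤ), fun i hi => hn2 ?_⟩
  exact mem_biUnion.2 ⟨i, mem_univ i, mem_filter.2 ⟨hn, hi⟩⟩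

theorem d5_L4 (ω : Fin 2 → ℕ) (n : ℤ) : L4.map ω 0 n = (ω 0 : ℤ) + n ∧
    L4.map ω 1 n = (ω 0 : ℤ) - n ∧ L4.map ω 2 n = (ω 1 : ℤ) + n ∧ L4.map ω 3 n = (ω 1 : ℤ) - n := by
  refine ⟨?_, ?_, ?_, ?_⟩
  · show (1 : ℤ) * (ω 0 : ℤ) + 1 * n + 0 = _
    ring
  · show (1 : ℤ) * (ω 0 : ℤ) + (-1) * n + 0 = _
    ring
  · show (1 : ℤ) * (ω 1 : ℤ) + 1 * n + 0 = _
    ring
  · show (1 : ℤ) * (ω 1 : ℤ) + (-1) * n + 0 = _
    ring

theorem d5_L2 (ω : Fin 1 → ℕ) (n : ℤ) : L2.map ω 0 n = (ω 0 : ℤ) + n ∧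
    L2.map ω 1 n = (ω 0 : ℤ) - n := by
  refine ⟨?_, ?_⟩
  · show (1 : ℤ) * (ω 0 : ℤ) + 1 * n + 0 = _
    ring
  · show (1 : ℤ) * (ω 0 : ℤ) + (-1) * n + 0 = _
    ring

theorem d5_L4a (ω : Fin 2 → ℕ) (i : Fin 4) : ∃ v w : ℤ, (∀ n, L4.map ω i n = v * n + w) ∧
    (v = 1 ∨ v = -1) := by
  refine ⟨L4.v i, L4.u i * (ω (L4.gi i) : ℤ) + L4.t i, ?_, ?_⟩
  · intro n
    unfold LF.map
    ring
  · fin_cases i
    · exact Or.inl rfl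
    · exact Or.inr rfl
    · exact Or.inl rfl
    · exact Or.inr rfl

theorem d5_L2a (ω : Fin 1 → ℕ) (i : Fin 2) : ∃ v w : ℤ, (∀ n, L2.map ω i n = v * n + w) ∧
    (v = 1 ∨ v = -1) := by
  refine ⟨L2.v i, L2.u i * (ω (L2.gi i) : ℤ) + L2.t i, ?_, ?_⟩
  · intro n
    unfold LF.map
    ring
  · fin_cases i
    · exact Or.inl rfl
    · exact Or.inr rfl

/-- Proof. Let `l` be a prime; choose `n` modulo `l`: `l = 2`: `n ≡ x + 1 ≡ x' + 1`. `l = 3`: if `3 ∣ x`, then `3 ∣ x'`, `n = 1`; else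
`n = 0`. `l ≥ 5`: the four classes `± x, ± x'` do not cover all (`l > 4`). `L4.map ω = ![x+n, x-n, x'+n, x'-n]`. -/
theorem D5_fix4 (ω : Fin 2 → ℕ) (h2 : ω 0 % 2 = ω 1 % 2) (h3 : 3 ∣ ω 0 ↔ 3 ∣ ω 1) :
    NoFix (L4.map ω) := by
  intro l hl
  rcases Nat.lt_or_ge l 5 with h5 | h5
  · have h6 : l = 2 ∨ l = 3 := by
      have := hl.two_le
      interval_cases l
      · exact Or.inl rfl
      · exact Or.inr rfl
      · exact absurd hl (by norm_num)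
    rcases h6 with rfl | rfl
    · refine ⟨(ω 0 : ℤ) + 1, fun i => ?_⟩
      obtain ⟨a0, a1, a2, a3⟩ := d5_L4 ω ((ω 0 : ℤ) + 1)
      fin_cases i
      · show ¬ ((2 : ℕ) : ℤ) ∣ L4.map ω 0 ((ω 0 : ℤ) + 1)
        rw [a0]
        omega
      · show ¬ ((2 : ℕ) : ℤ) ∣ L4.map ω 1 ((ω 0 : ℤ) + 1)
        rw [a1]
        omega
      · show ¬ ((2 : ℕ) : ℤ) ∣ L4.map ω 2 ((ω 0 : ℤ) + 1)
        rw [a2]
        omega
      · show ¬ ((2 : ℕ) : ℤ) ∣ L4.map ω 3 ((ω 0 : ℤ) + 1)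
        rw [a3]
        omega
    · by_cases h7 : 3 ∣ ω 0
      · have h8 := h3.1 h7
        refine ⟨1, fun i => ?_⟩
        obtain ⟨a0, a1, a2, a3⟩ := d5_L4 ω 1
        fin_cases i
        · show ¬ ((3 : ℕ) : ℤ) ∣ L4.map ω 0 1
          rw [a0]
          omega
        · show ¬ ((3 : ℕ) : ℤ) ∣ L4.map ω 1 1
          rw [a1]
          omega
        · show ¬ ((3 : ℕ) : ℤ) ∣ L4.map ω 2 1
          rw [a2]
          omega
        · show ¬ ((3 : ℕ) : ℤ) ∣ L4.map ω 3 1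
          rw [a3]
          omega
      · have h8 : ¬ 3 ∣ ω 1 := fun h => h7 (h3.2 h)
        refine ⟨0, fun i => ?_⟩
        obtain ⟨a0, a1, a2, a3⟩ := d5_L4 ω 0
        fin_cases i
        · show ¬ ((3 : ℕ) : ℤ) ∣ L4.map ω 0 0
          rw [a0]
          omega
        · show ¬ ((3 : ℕ) : ℤ) ∣ L4.map ω 1 0
          rw [a1]
          omega
        · show ¬ ((3 : ℕ) : ℤ) ∣ L4.map ω 2 0
          rw [a2]
          omega
        · show ¬ ((3 : ℕ) : ℤ) ∣ L4.map ω 3 0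
          rw [a3]
          omega
  · exact d5_free (L4.map ω) l (by omega) (d5_L4a ω)

/-- Proof. `l = 2`: `n = x + 1`; `l = 3`: `n = 1` if `3 ∣ x`, else `n = 0`; `l ≥ 5`: two bad classes. -/
theorem D5_fix2 (ω : Fin 1 → ℕ) : NoFix (L2.map ω) := by
  intro l hl
  rcases Nat.lt_or_ge l 3 with h5 | h5
  · have h6 : l = 2 := by
      have := hl.two_le
      omega
    subst h6
    refine ⟨(ω 0 : ℤ) + 1, fun i => ?_⟩
    obtain ⟨a0, a1⟩ := d5_L2 ω ((ω 0 : ℤ) + 1)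
    fin_cases i
    · show ¬ ((2 : ℕ) : ℤ) ∣ L2.map ω 0 ((ω 0 : ℤ) + 1)
      rw [a0]
      omega
    · show ¬ ((2 : ℕ) : ℤ) ∣ L2.map ω 1 ((ω 0 : ℤ) + 1)
      rw [a1]
      omega
  · exact d5_free (L2.map ω) l (by omega) (d5_L2a ω)

/-- Proof. `y < 2 Z ≤ X`, `2X ≤ x < 3X`: `x ± y ∈ (X, 4X)`. -/
theorem D5_Gm4 (Q N Z X X' : ℕ) (hZ : Q ^ 40 ∣ Z) (hX : Q ^ 40 ∣ X) (hX' : Q ^ 40 ∣ X')
    (h1 : N ≤ Z ^ 2) (h2 : 2 * Z ≤ X) (h3 : 2 * Z ≤ X') (h4 : X ≤ N) (h5 : X' ≤ N) :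
    Gm L4 Q N Z ![X, X'] ![X, X, X', X'] := by
  have hZX : Z ≤ X := by omega
  have hZX' : Z ≤ X' := by omega
  have hNX : N ≤ X ^ 2 := h1.trans (Nat.pow_le_pow_left hZX 2)
  have hNX' : N ≤ X' ^ 2 := h1.trans (Nat.pow_le_pow_left hZX' 2)
  have hNN : N ≤ N ^ 2 := Nat.le_self_pow (by norm_num) N
  refine ⟨hZ, ?_, h1, by omega, ?_, ?_, ?_, ?_, ?_, ?_, ?_, ?_, ?_, ?_⟩
  · intro j
    fin_cases j
    · exact hX
    · exact hX'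
  · intro j
    fin_cases j
    · exact hNX
    · exact hNX'
  · intro j
    fin_cases j
    · exact h4
    · exact h5
  · intro i
    fin_cases i
    · exact hNX
    · exact hNX
    · exact hNX'
    · exact hNX'
  · intro i
    fin_cases i
    · exact h4.trans hNN
    · exact h4.trans hNN
    · exact h5.trans hNN
    · exact h5.trans hNN
  · intro i
    fin_cases i <;> simp [L4]
  · intro i
    fin_cases i <;> simp [L4]
  · intro i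
    fin_cases i
    · show |(1 : ℤ)| * ((X : ℕ) : ℤ) ≤ 4 * ((X : ℕ) : ℤ)
      rw [abs_one]
      omega
    · show |(1 : ℤ)| * ((X : ℕ) : ℤ) ≤ 4 * ((X : ℕ) : ℤ)
      rw [abs_one]
      omega
    · show |(1 : ℤ)| * ((X' : ℕ) : ℤ) ≤ 4 * ((X' : ℕ) : ℤ)
      rw [abs_one]
      omega
    · show |(1 : ℤ)| * ((X' : ℕ) : ℤ) ≤ 4 * ((X' : ℕ) : ℤ)
      rw [abs_one]
      omega
  · intro i
    fin_cases i
    · show |(1 : ℤ)| * (Z : ℤ) ≤ 4 * ((X : ℕ) : ℤ)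
      rw [abs_one]
      omega
    · show |(-1 : ℤ)| * (Z : ℤ) ≤ 4 * ((X : ℕ) : ℤ)
      rw [abs_neg, abs_one]
      omega
    · show |(1 : ℤ)| * (Z : ℤ) ≤ 4 * ((X' : ℕ) : ℤ)
      rw [abs_one]
      omega
    · show |(-1 : ℤ)| * (Z : ℤ) ≤ 4 * ((X' : ℕ) : ℤ)
      rw [abs_neg, abs_one]
      omega
  · intro i ω hω n hn
    have w0 := mem_Ico.1 (Fintype.mem_piFinset.1 hω 0)
    have w1 := mem_Ico.1 (Fintype.mem_piFinset.1 hω 1)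
    have hn' := mem_Ico.1 hn
    have w0' : 2 * X ≤ ω 0 ∧ ω 0 < 2 * X + X := w0
    have w1' : 2 * X' ≤ ω 1 ∧ ω 1 < 2 * X' + X' := w1
    obtain ⟨a0, a1, a2, a3⟩ := d5_L4 ω (n : ℤ)
    fin_cases i
    · show ((X : ℕ) : ℤ) ≤ L4.map ω 0 (n : ℤ)
      rw [a0]
      omega
    · show ((X : ℕ) : ℤ) ≤ L4.map ω 1 (n : ℤ)
      rw [a1]
      omega
    · show ((X' : ℕ) : ℤ) ≤ L4.map ω 2 (n : ℤ)
      rw [a2]
      omega
    · show ((X' : ℕ) : ℤ) ≤ L4.map ω 3 (n : ℤ)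
      rw [a3]
      omega
  · intro i ω hω n hn
    have w0 := mem_Ico.1 (Fintype.mem_piFinset.1 hω 0)
    have w1 := mem_Ico.1 (Fintype.mem_piFinset.1 hω 1)
    have hn' := mem_Ico.1 hn
    have w0' : 2 * X ≤ ω 0 ∧ ω 0 < 2 * X + X := w0
    have w1' : 2 * X' ≤ ω 1 ∧ ω 1 < 2 * X' + X' := w1
    obtain ⟨a0, a1, a2, a3⟩ := d5_L4 ω (n : ℤ)
    fin_cases i
    · show L4.map ω 0 (n : ℤ) < 4 * ((X : ℕ) : ℤ)
      rw [a0]
      omega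
    · show L4.map ω 1 (n : ℤ) < 4 * ((X : ℕ) : ℤ)
      rw [a1]
      omega
    · show L4.map ω 2 (n : ℤ) < 4 * ((X' : ℕ) : ℤ)
      rw [a2]
      omega
    · show L4.map ω 3 (n : ℤ) < 4 * ((X' : ℕ) : ℤ)
      rw [a3]
      omega

/-- Proof. As `D5_Gm4`. -/
theorem D5_Gm2 (Q N Z X : ℕ) (hZ : Q ^ 40 ∣ Z) (hX : Q ^ 40 ∣ X)
    (h1 : N ≤ Z ^ 2) (h2 : 2 * Z ≤ X) (h4 : X ≤ N) : Gm L2 Q N Z ![X] ![X, X] := by
  have hZX : Z ≤ X := by omega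
  have hNX : N ≤ X ^ 2 := h1.trans (Nat.pow_le_pow_left hZX 2)
  have hNN : N ≤ N ^ 2 := Nat.le_self_pow (by norm_num) N
  refine ⟨hZ, ?_, h1, by omega, ?_, ?_, ?_, ?_, ?_, ?_, ?_, ?_, ?_, ?_⟩
  · intro j
    fin_cases j
    exact hX
  · intro j
    fin_cases j
    exact hNX
  · intro j
    fin_cases j
    exact h4
  · intro i
    fin_cases i
    · exact hNX
    · exact hNX
  · intro i
    fin_cases i
    · exact h4.trans hNN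
    · exact h4.trans hNN
  · intro i
    fin_cases i <;> simp [L2]
  · intro i
    fin_cases i <;> simp [L2]
  · intro i
    fin_cases i
    · show |(1 : ℤ)| * ((X : ℕ) : ℤ) ≤ 4 * ((X : ℕ) : ℤ)
      rw [abs_one]
      omega
    · show |(1 : ℤ)| * ((X : ℕ) : ℤ) ≤ 4 * ((X : ℕ) : ℤ)
      rw [abs_one]
      omega
  · intro i
    fin_cases i
    · show |(1 : ℤ)| * (Z : ℤ) ≤ 4 * ((X : ℕ) : ℤ)
      rw [abs_one]
      omega
    · show |(-1 : ℤ)| * (Z : ℤ) ≤ 4 * ((X : ℕ) : ℤ)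
      rw [abs_neg, abs_one]
      omega
  · intro i ω hω n hn
    have w0 := mem_Ico.1 (Fintype.mem_piFinset.1 hω 0)
    have hn' := mem_Ico.1 hn
    have w0' : 2 * X ≤ ω 0 ∧ ω 0 < 2 * X + X := w0
    obtain ⟨a0, a1⟩ := d5_L2 ω (n : ℤ)
    fin_cases i
    · show ((X : ℕ) : ℤ) ≤ L2.map ω 0 (n : ℤ)
      rw [a0]
      omega
    · show ((X : ℕ) : ℤ) ≤ L2.map ω 1 (n : ℤ)
      rw [a1]
      omega
  · intro i ω hω n hn
    have w0 := mem_Ico.1 (Fintype.mem_piFinset.1 hω 0)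
    have hn' := mem_Ico.1 hn
    have w0' : 2 * X ≤ ω 0 ∧ ω 0 < 2 * X + X := w0
    obtain ⟨a0, a1⟩ := d5_L2 ω (n : ℤ)
    fin_cases i
    · show L2.map ω 0 (n : ℤ) < 4 * ((X : ℕ) : ℤ)
      rw [a0]
      omega
    · show L2.map ω 1 (n : ℤ) < 4 * ((X : ℕ) : ℤ)
      rw [a1]
      omega

/-- Proof. `Fin.prod_univ_four`, definitions. -/
theorem D5_MF4 (Q Z X X' : ℕ) (ω : Fin 2 → ℕ) : MF L4 Q Z ![X, X, X', X'] ω =
    ∑ y ∈ Ico Z (2 * Z), KL Q X (ω 0) y * KL Q X' (ω 1) y := by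
  unfold MF KL
  refine Finset.sum_congr rfl fun y _ => ?_
  obtain ⟨a0, a1, a2, a3⟩ := d5_L4 ω (y : ℤ)
  rw [Fin.prod_univ_four, a0, a1, a2, a3]
  show Lk Q (X / Q ^ 2) ((ω 0 : ℤ) + y) * Lk Q (X / Q ^ 2) ((ω 0 : ℤ) - y) *
    Lk Q (X' / Q ^ 2) ((ω 1 : ℤ) + y) * Lk Q (X' / Q ^ 2) ((ω 1 : ℤ) - y) = _
  ring

/-- Proof. `Fin.prod_univ_two`, definitions. -/
theorem D5_MF2 (Q Z X : ℕ) (ω : Fin 1 → ℕ) : MF L2 Q Z ![X, X] ω =
    ∑ y ∈ Ico Z (2 * Z), KL Q X (ω 0) y := by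
  unfold MF KL
  refine Finset.sum_congr rfl fun y _ => ?_
  obtain ⟨a0, a1⟩ := d5_L2 ω (y : ℤ)
  rw [Fin.prod_univ_two, a0, a1]
  rfl

end Pool.Agent.Lib.H24Q
end

-- from Lib.H24Q.D6
section

/-!
# Project H24Q, chunk D6 (M): the main terms of module F
-/

open Finset

namespace Pool.Agent.Lib.H24Q

open Pool.Agent.Lib.H68T Pool.Agent.Lib.H18Q Pool.Agent.Lib.H59P Pool.Agent.Lib.H24P

/-- The three-fold lower bound, with true primes `2 y - 3`: exceptional set `Q^(-c)`, loss `Q^(-b)`. -/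
def Low3 (Q N : ℕ) (c b : ℝ) : Prop :=
  ∀ Z X : ℕ, Q ^ 800 ∣ Z → Q ^ 40 ∣ X → N ≤ Z ^ 2 → 2 * Z ≤ X → X ≤ N →
    ∃ Bad : Finset ℕ, Bad ⊆ Ico (2 * X) (3 * X) ∧ (Bad.card : ℝ) ≤ X * (Q : ℝ) ^ (-c) ∧
      ∀ x ∈ Ico (2 * X) (3 * X), x ∉ Bad → 3 ∣ x →
        Z * (Q : ℝ) ^ (-b) ≤ ∑ y ∈ Ico Z (2 * Z), KL Q X x y * lp (2 * (y : ℤ) - 3)

/-- The lower bounds for the main terms (interface of module F): exceptional sets `Q^(-c)`, loss `Q^(-b)`. -/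
structure MT (Q N : ℕ) (c b : ℝ) : Prop where
  m4 : ∀ Z X X' : ℕ, Q ^ 40 ∣ Z → Q ^ 40 ∣ X → Q ^ 40 ∣ X' → N ≤ Z ^ 2 → 2 * Z ≤ X → 2 * Z ≤ X' →
    X ≤ N → X' ≤ N → ∃ Bad : Finset (ℕ × ℕ), Bad ⊆ Ico (2 * X) (3 * X) ×ˢ Ico (2 * X') (3 * X') ∧
      (Bad.card : ℝ) ≤ X * X' * (Q : ℝ) ^ (-c) ∧
      ∀ x ∈ Ico (2 * X) (3 * X), ∀ x' ∈ Ico (2 * X') (3 * X'), (x, x') ∉ Bad → x % 2 = x' % 2 →
        (3 ∣ x ↔ 3 ∣ x') →
        Z * (Q : ℝ) ^ (-b) ≤ ∑ y ∈ Ico Z (2 * Z), KL Q X x y * KL Q X' x' y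
  m3 : Low3 Q N c b
  m2 : ∀ Z X : ℕ, Q ^ 40 ∣ Z → Q ^ 40 ∣ X → N ≤ Z ^ 2 → 2 * Z ≤ X → X ≤ N →
    ∃ Bad : Finset ℕ, Bad ⊆ Ico (2 * X) (3 * X) ∧ (Bad.card : ℝ) ≤ X * (Q : ℝ) ^ (-c) ∧
      ∀ x ∈ Ico (2 * X) (3 * X), x ∉ Bad →
        Z * (Q : ℝ) ^ (-b) ≤ ∑ y ∈ Ico Z (2 * Z), KL Q X x y

/-- Proof. Directly (`1 ≤ Q`). -/
theorem Low3_mono {Q N : ℕ} (hQ : 1 ≤ Q) {c c' b b' : ℝ} (h : Low3 Q N c b)
    (hc : c' ≤ c) (hb : b ≤ b') : Low3 Q N c' b' := by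
  intro Z X h1 h2 h3 h4 h5
  obtain ⟨Bad, hB1, hB2, hB3⟩ := h Z X h1 h2 h3 h4 h5
  have hQr : (1 : ℝ) ≤ Q := by exact_mod_cast hQ
  refine ⟨Bad, hB1, hB2.trans ?_, fun x hx hxB h3x => le_trans ?_ (hB3 x hx hxB h3x)⟩
  · exact mul_le_mul_of_nonneg_left (Real.rpow_le_rpow_of_exponent_le hQr (by linarith))
      (Nat.cast_nonneg _)
  · exact mul_le_mul_of_nonneg_left (Real.rpow_le_rpow_of_exponent_le hQr (by linarith))
      (Nat.cast_nonneg _)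

/-- From `LowF` to `MT`. Proof. `D5_Gm4`, `D5_Gm2`, `D5_MF4`, `D5_MF2`, `D5_fix4`, `D5_fix2`; the maps
`ω ↦ (ω 0, ω 1)` and `ω ↦ ω 0` are bijections from the boxes `cub (2X) X` to the product of intervals and the interval
(`Fin 2 → ℕ`, `Fin 1 → ℕ`), `vol ![X, X'] = X X'`. -/
theorem D6_MT (Q N : ℕ) (c b : ℝ) (h4 : LowF L4 Q N c b) (h3 : Low3 Q N c b)
    (h2 : LowF L2 Q N c b) : MT Q N c b := by
  classical
  refine ⟨?_, h3, ?_⟩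
  · intro Z X X' hZ hX hX' hN hZX hZX' hXN hXN'
    have hG := D5_Gm4 Q N Z X X' hZ hX hX' hN hZX hZX' hXN hXN'
    obtain ⟨Bad, hB1, hB2, hB3⟩ := h4 Z ![X, X'] ![X, X, X', X'] hG
    have hmem : ∀ ω : Fin 2 → ℕ, ω ∈ cub (fun j => 2 * (![X, X'] : Fin 2 → ℕ) j) ![X, X'] ↔
        ω 0 ∈ Ico (2 * X) (3 * X) ∧ ω 1 ∈ Ico (2 * X') (3 * X') := by
      intro ω
      unfold cub
      rw [Fintype.mem_piFinset, Fin.forall_fin_two]
      have e1 : 2 * X + X = 3 * X := by ring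
      have e2 : 2 * X' + X' = 3 * X' := by ring
      simp only [Matrix.cons_val_zero, Matrix.cons_val_one, e1, e2]
    refine ⟨Bad.image (fun ω => (ω 0, ω 1)), ?_, ?_, ?_⟩
    · intro z hz
      obtain ⟨ω, hω, rfl⟩ := mem_image.mp hz
      have := (hmem ω).mp (hB1 hω)
      exact mem_product.mpr this
    · have hv : vol (![X, X'] : Fin 2 → ℕ) = X * X' := by
        unfold vol
        rw [Fin.prod_univ_two]
        rfl
      rw [hv] at hB2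
      refine le_trans ?_ hB2
      exact_mod_cast card_image_le
    · intro x hx x' hx' hnot hpar h3x
      have hω : (![x, x'] : Fin 2 → ℕ) ∉ Bad := by
        intro hin
        apply hnot
        exact mem_image.mpr ⟨![x, x'], hin, rfl⟩
      have h6 := hB3 ![x, x'] ((hmem ![x, x']).mpr ⟨hx, hx'⟩) hω
        (D5_fix4 ![x, x'] hpar h3x)
      rw [D5_MF4] at h6
      exact h6
  · intro Z X hZ hX hN hZX hXN
    have hG := D5_Gm2 Q N Z X hZ hX hN hZX hXN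
    obtain ⟨Bad, hB1, hB2, hB3⟩ := h2 Z ![X] ![X, X] hG
    have hmem : ∀ ω : Fin 1 → ℕ, ω ∈ cub (fun j => 2 * (![X] : Fin 1 → ℕ) j) ![X] ↔
        ω 0 ∈ Ico (2 * X) (3 * X) := by
      intro ω
      unfold cub
      rw [Fintype.mem_piFinset]
      have e1 : 2 * X + X = 3 * X := by ring
      constructor
      · intro h
        have h7 := h 0
        simp only [Matrix.cons_val_zero, e1] at h7
        exact h7
      · intro h i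
        have hi : i = 0 := Subsingleton.elim _ _
        subst hi
        simp only [Matrix.cons_val_zero, e1]
        exact h
    refine ⟨Bad.image (fun ω => ω 0), ?_, ?_, ?_⟩
    · intro z hz
      obtain ⟨ω, hω, rfl⟩ := mem_image.mp hz
      exact (hmem ω).mp (hB1 hω)
    · have hv : vol (![X] : Fin 1 → ℕ) = X := by
        unfold vol
        simp
      rw [hv] at hB2
      refine le_trans ?_ hB2
      exact_mod_cast card_image_le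
    · intro x hx hnot
      have hω : (![x] : Fin 1 → ℕ) ∉ Bad := by
        intro hin
        apply hnot
        exact mem_image.mpr ⟨![x], hin, rfl⟩
      have h6 := hB3 ![x] ((hmem ![x]).mpr hx) hω (D5_fix2 ![x])
      rw [D5_MF2] at h6
      exact h6

end Pool.Agent.Lib.H24Q
end

-- from Lib.H24Q.D7
section

/-!
# Project H24Q, chunk D7 (M): conclusion of module F
-/

open Finset

namespace Pool.Agent.Lib.H24Q

open Pool.Agent.Lib.H68T Pool.Agent.Lib.H18Q Pool.Agent.Lib.H59P Pool.Agent.Lib.H24P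

/-- The three-fold bound, first case (theorem `M9_A`). -/
def Thm3A : Prop := ∃ c1 K : ℝ, 0 < c1 ∧ 1 ≤ K ∧ ∀ c6 ε : ℝ, 0 < c6 → 0 < ε → 3 * c6 + 2 * ε < c1 →
  ∀ Cr : ℝ, ∃ Q0 : ℕ, ∀ Q N : ℕ, Q0 ≤ Q → K * Real.log Q ≤ Real.log N →
    Real.log N ≤ Cr * Real.log Q → LvA Q N (1 / 16) c6 → Low3 Q N c1 (3 * c6 + 2 * ε)

/-- The three-fold bound, second case (theorem `M9_B`). -/
def Thm3B : Prop := ∃ c1 c K : ℝ, 0 < c1 ∧ 0 < c ∧ 1 ≤ K ∧ ∀ c6 ε : ℝ, 0 < c6 → 0 < ε → 2 * ε < c1 →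
  ∀ Cr : ℝ, ∃ Q0 : ℕ, ∀ Q N : ℕ, Q0 ≤ Q → K * Real.log Q ≤ Real.log N →
    Real.log N ≤ Cr * Real.log Q → LvB Q N (1 / 16) c6 → Low3 Q N (min c1 (c * c6 / 2) / 2) (2 * ε)

/-- **D7, conclusion of module F.** Proof. `L_levels` of `H24P` with `A = 1`, `E0 = 1/16`, `K0' = max K0 K` (`K` the
maximum of the constants of `D4_A`, `D4_B` for `L4`, `L2` and of `hA`, `hB`; `RegP` is monotone in its constant, or
apply `L_levels` with `K0'` and weaken) gives `Cr` and the level; `LvA … c6` if the level is good or the exceptional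
conductor is `≤ Q^c6`, else `LvB … c6`. Let `c1` be the minimum of `cb` and of the six constants `c1`;
`c6 = min(ρ, 1) c1/16`, `ε = c6/8`: in the case `LvA` all losses are `≤ 4 c6 + 2 ε ≤ ρ c1`, exponent `c = c1`
(`LowF_mono`, `Low3_mono`). In the case `LvB`: `cB = min(c1, c* c6/2)/2` with `c*` the smallest of the constants `c`
(of `D4_B` for `L4`, `L2` and of `hB`), `ε = min(ρ, 1) cB/4`: loss `2 ε ≤ ρ cB`, exponent `c = cB`. So `c0 = min(c1, cB)`.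
`Q ≥ Q0` for `N` large because `log N ≤ Cr log Q`. `D6_MT`. -/
theorem main_terms (C4 c4 C2 c2 : ℝ) (B : ℕ) (hC4 : 1 ≤ C4) (hc4 : 0 < c4) (hC2 : 1 ≤ C2)
    (hc2 : 0 < c2) (h4 : HF C4 c4 B L4) (h2 : HF C2 c2 B L2) (hA : Thm3A) (hB : Thm3B)
    (K0 : ℝ) (hK0 : 1 ≤ K0) : ∃ Cr : ℝ, 1 ≤ Cr ∧ ∀ ρ cb : ℝ, 0 < ρ → 0 < cb →
    ∃ c0 : ℝ, 0 < c0 ∧ ∃ N0 : ℕ, ∀ N : ℕ, N0 ≤ N → ∃ Q : ℕ, K0 * Real.log Q ≤ Real.log N ∧
      Real.log N ≤ Cr * Real.log Q ∧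
      (∀ Y : ℕ, N ≤ Y ^ 2 → Y ≤ N ^ 2 → RegP K0 Q Y ∧ RegP K0 (Q ^ 100) Y) ∧
      (∀ Y : ℕ, N ≤ Y ^ 2 → Y ≤ N ^ 2 → ∃ (η : ℝ) (px : Ch) (th : ℤ → ℝ), Mdl Q Y η (1 / 16) px th) ∧
      ∃ c : ℝ, c0 ≤ c ∧ c ≤ cb ∧ MT Q N c (ρ * c) := by
  obtain ⟨a1, k1, ha1, hk1, A4⟩ := D4_A 4 2 B (by norm_num) L4 C4 c4 hC4 hc4 h4
  obtain ⟨a2, k2, ha2, hk2, A2⟩ := D4_A 2 1 B (by norm_num) L2 C2 c2 hC2 hc2 h2
  obtain ⟨a3, k3, ha3, hk3, A3⟩ := hA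
  obtain ⟨b1, l1, hb1, hl1, B4⟩ := D4_B 4 2 B (by norm_num) L4 C4 c4 hC4 hc4 h4
  obtain ⟨b2, l2, hb2, hl2, B2⟩ := D4_B 2 1 B (by norm_num) L2 C2 c2 hC2 hc2 h2
  obtain ⟨b3, c3, l3, hb3, hc3, hl3, B3⟩ := hB
  obtain ⟨K, hKd⟩ : ∃ K : ℝ, K = max K0 (max (max k1 (max k2 k3)) (max l1 (max l2 l3))) := ⟨_, rfl⟩
  have hK1 : K0 ≤ K := by rw [hKd]; exact le_max_left _ _
  have hk1K : k1 ≤ K := by
    rw [hKd]; exact le_max_of_le_right (le_max_of_le_left (le_max_left _ _))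
  have hk2K : k2 ≤ K := by
    rw [hKd]; exact le_max_of_le_right (le_max_of_le_left (le_max_of_le_right (le_max_left _ _)))
  have hk3K : k3 ≤ K := by
    rw [hKd]; exact le_max_of_le_right (le_max_of_le_left (le_max_of_le_right (le_max_right _ _)))
  have hl1K : l1 ≤ K := by
    rw [hKd]; exact le_max_of_le_right (le_max_of_le_right (le_max_left _ _))
  have hl2K : l2 ≤ K := by
    rw [hKd]; exact le_max_of_le_right (le_max_of_le_right (le_max_of_le_right (le_max_left _ _)))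
  have hl3K : l3 ≤ K := by
    rw [hKd]; exact le_max_of_le_right (le_max_of_le_right (le_max_of_le_right (le_max_right _ _)))
  have hK : 1 ≤ K := hK0.trans hK1
  obtain ⟨Cr, hCr, X0, hlev⟩ := L_levels 1 (1 / 16) K (by norm_num) hK
  refine ⟨Cr, hCr, fun ρ cb hρ hcb => ?_⟩
  -- the parameters
  obtain ⟨ρ1, hρ1⟩ : ∃ ρ1 : ℝ, ρ1 = min ρ 1 := ⟨_, rfl⟩
  have hρ10 : 0 < ρ1 := by rw [hρ1]; exact lt_min hρ one_pos
  have hρ1ρ : ρ1 ≤ ρ := by rw [hρ1]; exact min_le_left _ _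
  have hρ11 : ρ1 ≤ 1 := by rw [hρ1]; exact min_le_right _ _
  obtain ⟨c1, hc1, hc1cb, hca1, hca2, hca3, hcb1, hcb2, hcb3⟩ : ∃ c1 : ℝ, 0 < c1 ∧ c1 ≤ cb ∧ c1 ≤ a1 ∧
      c1 ≤ a2 ∧ c1 ≤ a3 ∧ c1 ≤ b1 ∧ c1 ≤ b2 ∧ c1 ≤ b3 :=
    ⟨min cb (min (min a1 (min a2 a3)) (min b1 (min b2 b3))),
      lt_min hcb (lt_min (lt_min ha1 (lt_min ha2 ha3)) (lt_min hb1 (lt_min hb2 hb3))),
      min_le_left _ _,
      (min_le_right _ _).trans ((min_le_left _ _).trans (min_le_left _ _)),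
      (min_le_right _ _).trans ((min_le_left _ _).trans ((min_le_right _ _).trans (min_le_left _ _))),
      (min_le_right _ _).trans ((min_le_left _ _).trans ((min_le_right _ _).trans (min_le_right _ _))),
      (min_le_right _ _).trans ((min_le_right _ _).trans (min_le_left _ _)),
      (min_le_right _ _).trans ((min_le_right _ _).trans ((min_le_right _ _).trans (min_le_left _ _))),
      (min_le_right _ _).trans ((min_le_right _ _).trans ((min_le_right _ _).trans (min_le_right _ _)))⟩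
  obtain ⟨cs, hcs, hcs4, hcs2, hcs3⟩ : ∃ cs : ℝ, 0 < cs ∧ cs ≤ c4 ∧ cs ≤ c2 ∧ cs ≤ c3 :=
    ⟨min c4 (min c2 c3), lt_min hc4 (lt_min hc2 hc3), min_le_left _ _,
      (min_le_right _ _).trans (min_le_left _ _), (min_le_right _ _).trans (min_le_right _ _)⟩
  obtain ⟨c6, hc6⟩ : ∃ c6 : ℝ, c6 = ρ1 * c1 / 16 := ⟨_, rfl⟩
  have hc60 : 0 < c6 := by rw [hc6]; positivity
  have hρc : ρ1 * c1 ≤ c1 := by nlinarith
  have hρc0 : 0 < ρ1 * c1 := by positivity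
  have hρc2 : ρ1 * c1 ≤ ρ * c1 := mul_le_mul_of_nonneg_right hρ1ρ hc1.le
  obtain ⟨cB, hcB⟩ : ∃ cB : ℝ, cB = min c1 (cs * c6 / 2) / 2 := ⟨_, rfl⟩
  have hcB0 : 0 < cB := by
    rw [hcB]
    have : 0 < min c1 (cs * c6 / 2) := lt_min hc1 (by positivity)
    linarith
  have hcB1 : 2 * cB ≤ c1 := by
    rw [hcB]
    linarith [min_le_left c1 (cs * c6 / 2)]
  obtain ⟨ε, hε⟩ : ∃ ε : ℝ, ε = ρ1 * cB / 4 := ⟨_, rfl⟩
  have hε0 : 0 < ε := by rw [hε]; positivity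
  have hρB : ρ1 * cB ≤ cB := by nlinarith
  have hρB2 : ρ1 * cB ≤ ρ * cB := mul_le_mul_of_nonneg_right hρ1ρ hcB0.le
  obtain ⟨Q1, A4⟩ := A4 c6 (c6 / 8) hc60 (by positivity) (by push_cast; linarith)
  obtain ⟨Q2, A2⟩ := A2 c6 (c6 / 8) hc60 (by positivity) (by push_cast; linarith)
  obtain ⟨Q3, A3⟩ := A3 c6 (c6 / 8) hc60 (by positivity) (by linarith) Cr
  obtain ⟨Q4, B4⟩ := B4 c6 ε hc60 hε0 (by linarith)
  obtain ⟨Q5, B2⟩ := B2 c6 ε hc60 hε0 (by linarith)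
  obtain ⟨Q6, B3⟩ := B3 c6 ε hc60 hε0 (by linarith) Cr
  obtain ⟨Qm, hQm2, hq1, hq2, hq3, hq4, hq5, hq6⟩ : ∃ Qm : ℕ, 2 ≤ Qm ∧ Q1 ≤ Qm ∧ Q2 ≤ Qm ∧ Q3 ≤ Qm ∧
      Q4 ≤ Qm ∧ Q5 ≤ Qm ∧ Q6 ≤ Qm := ⟨2 + Q1 + Q2 + Q3 + Q4 + Q5 + Q6, by omega, by omega, by omega,
        by omega, by omega, by omega, by omega⟩
  refine ⟨cB, hcB0, max X0 ⌈Real.exp (Cr * Real.log Qm)⌉₊, fun N hN => ?_⟩
  obtain ⟨Q, hKQ, hCQ, hReg, hL⟩ := hlev N ((le_max_left _ _).trans hN)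
  have hlQ0 : 0 ≤ Real.log Q := Real.log_natCast_nonneg Q
  have hQQ : Qm ≤ Q := by
    have h1 : Real.exp (Cr * Real.log Qm) ≤ N :=
      (Nat.le_ceil _).trans (by exact_mod_cast (le_max_right _ _).trans hN)
    have hN0 : (0 : ℝ) < N := lt_of_lt_of_le (Real.exp_pos _) h1
    have h2 : Cr * Real.log Qm ≤ Real.log N := (Real.le_log_iff_exp_le hN0).2 h1
    have h3 : Real.log Qm ≤ Real.log Q := by
      have h4 : Cr * Real.log Qm ≤ Cr * Real.log Q := h2.trans hCQ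
      exact le_of_mul_le_mul_left h4 (by linarith)
    have h5 : 0 < Real.log Qm := Real.log_pos (by exact_mod_cast (show 1 < Qm by omega))
    have hQ0 : 0 < Q := by
      rcases Nat.eq_zero_or_pos Q with h | h
      · rw [h, Nat.cast_zero, Real.log_zero] at h3
        linarith
      · exact h
    have h6 : (Qm : ℝ) ≤ Q := (Real.log_le_log_iff (by exact_mod_cast (show 0 < Qm by omega))
      (by exact_mod_cast hQ0)).1 h3
    exact_mod_cast h6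
  have hQ1 : 1 ≤ Q := by omega
  have hk : ∀ k : ℝ, k ≤ K → k * Real.log Q ≤ Real.log N := fun k hk =>
    (mul_le_mul_of_nonneg_right hk hlQ0).trans hKQ
  have hK00 : (0 : ℝ) ≤ K := by linarith
  refine ⟨Q, hk K0 hK1, hCQ, fun Y h1 h2 => ?_, ?_, ?_⟩
  · obtain ⟨e1, e2⟩ := hReg Y h1 h2
    exact ⟨e1.mono hK00 hK1, e2.mono hK00 hK1⟩
  · intro Y h1 h2
    rcases hL with hg | ⟨r, hr, ψ, β, η, -, -, -, -, -, -, -, hM⟩
    · exact ⟨1, p0, _, (hg Y h1 h2).1⟩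
    · exact ⟨η, ⟨r, ψ⟩, _, (hM Y h1 h2).1⟩
  · have hAB : LvA Q N (1 / 16) c6 ∨ LvB Q N (1 / 16) c6 := by
      rcases hL with hg | ⟨r, hr, ψ, β, η, e1, e2, e3, e4, e5, e6, e7, hM⟩
      · exact Or.inl (Or.inl hg)
      · rcases le_or_gt (r : ℝ) ((Q : ℝ) ^ c6) with h | h
        · exact Or.inl (Or.inr ⟨r, hr, ψ, β, η, h, e1, e2, e3, e4, e5, e6, e7, hM⟩)
        · exact Or.inr ⟨r, hr, ψ, β, η, h, e1, e2, e3, e4, e5, e6, e7, hM⟩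
    rcases hAB with hLA | hLB
    · refine ⟨c1, by linarith, hc1cb, D6_MT Q N c1 (ρ * c1) ?_ ?_ ?_⟩
      · refine LowF_mono hQ1 (A4 Q N (by omega) (hk k1 hk1K) hLA) hca1 ?_
        push_cast
        linarith
      · refine Low3_mono hQ1 (A3 Q N (by omega) (hk k3 hk3K) hCQ hLA) hca3 ?_
        linarith
      · refine LowF_mono hQ1 (A2 Q N (by omega) (hk k2 hk2K) hLA) hca2 ?_
        push_cast
        linarith
    · have hmin : ∀ b c : ℝ, c1 ≤ b → cs ≤ c → cB ≤ min b (c * c6 / 2) / 2 := by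
        intro b c hb hc
        rw [hcB]
        have h1 : cs * c6 / 2 ≤ c * c6 / 2 := by
          have := mul_le_mul_of_nonneg_right hc hc60.le
          linarith
        have h2 := min_le_min hb h1
        linarith
      refine ⟨cB, le_rfl, by linarith, D6_MT Q N cB (ρ * cB) ?_ ?_ ?_⟩
      · exact LowF_mono hQ1 (B4 Q N (by omega) (hk l1 hl1K) hLB) (hmin b1 c4 hcb1 hcs4) (by linarith)
      · exact Low3_mono hQ1 (B3 Q N (by omega) (hk l3 hl3K) hCQ hLB) (hmin b3 c3 hcb3 hcs3) (by linarith)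
      · exact LowF_mono hQ1 (B2 Q N (by omega) (hk l2 hl2K) hLB) (hmin b2 c2 hcb2 hcs2) (by linarith)

end Pool.Agent.Lib.H24Q
end

-- from Lib.H24Q.MDefs
section

/-!
# Project H24Q: definitions for the three-fold count (modules M)

`x = ω 0 ∈ [2X, 3X)`, forms `x + n`, `x - n` (`L2`), linear coordinate `2n - 3` (`B23`), `n ∈ [Z, 2Z)`.
-/

open Finset Polynomial

namespace Pool.Agent.Lib.H24Q

open Pool.Agent.Lib.H68T Pool.Agent.Lib.H18Q Pool.Agent.Lib.H59P Pool.Agent.Lib.H24P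

noncomputable section

/-- The box of the parameters: `ω 0 ∈ [2X, 3X)`. -/
def bx (X : ℕ) : Finset (Fin 1 → ℕ) := cub (fun _ => 2 * X) (fun _ => X)

/-- The base point of the cell of `ω`, cells of length `X/Q^8`. -/
def bw8 (Q X : ℕ) (ω : Fin 1 → ℕ) : Fin 1 → ℕ := fun j => bs (X / Q ^ 8) (ω j)

/-- The point where the coefficients of the forms `x + n`, `x - n` are frozen. -/
def fp8 (Q Z X : ℕ) (ω : Fin 1 → ℕ) (n : ℕ) (i : Fin 2) : ℤ :=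
  L2.map (bw8 Q X ω) i ((bs (Z / Q ^ 8) n : ℕ) : ℤ)

/-- The sum with the projections in the two random coordinates and the weight `w`. -/
def T3w (Q Z X : ℕ) (w : ℕ → ℂ) (ω : Fin 1 → ℕ) : ℂ :=
  ∑ n ∈ Ico Z (2 * Z), w n * ∏ i, ((Lk Q (X / Q ^ 2) (L2.map ω i (n : ℤ)) : ℝ) : ℂ)

/-- The same with frozen coefficients. -/
def T3z (Q Z X : ℕ) (Cc : ℤ → Ch → ℂ) (w : ℕ → ℂ) (ω : Fin 1 → ℕ) : ℂ :=
  ∑ n ∈ Ico Z (2 * Z), w n * ∏ i, SG Q (Cc (fp8 Q Z X ω n i)) (L2.map ω i (n : ℤ))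

/-- The main term. -/
def M3z (Q Z X r : ℕ) (C0 Cc : ℤ → Ch → ℂ) (ω : Fin 1 → ℕ) : ℂ :=
  ∑ n ∈ Ico Z (2 * Z), MDf Q (B23.leadingCoeff.natAbs * r)
    (Fin.cons (C0 (B23.eval ((bs (Z / Q ^ 800) n : ℕ) : ℤ)))
      (fun i : Fin 2 => Cc (fp8 Q Z X ω n i)) : Fin 3 → Ch → ℂ) (sy B23 (L2.map ω))

/-- The geometry. -/
structure G3 (Q N Z X : ℕ) : Prop where
  dvdZ : Q ^ 800 ∣ Z
  dvdX : Q ^ 40 ∣ X
  nine : 9 ≤ N
  Zlo : N ≤ Z ^ 2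
  ZX : 2 * Z ≤ X
  Xhi : X ≤ N

end

end Pool.Agent.Lib.H24Q
end

-- from Lib.H24Q.M1
section

/-!
# Project H24Q, chunk M1 (M): geometry and pointwise freezing, cells of length `X/Q^8`, `Z/Q^8`
-/

open Finset Polynomial

namespace Pool.Agent.Lib.H24Q

open Pool.Agent.Lib.H68T Pool.Agent.Lib.H18Q Pool.Agent.Lib.H59P Pool.Agent.Lib.H24P

theorem m1_map0 (ω : Fin 1 → ℕ) (n : ℤ) : L2.map ω 0 n = (ω 0 : ℤ) + n := by
  unfold LF.map L2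
  simp

theorem m1_map1 (ω : Fin 1 → ℕ) (n : ℤ) : L2.map ω 1 n = (ω 0 : ℤ) - n := by
  unfold LF.map L2
  simp
  ring

/-- Proof. `Z ≥ 3` since `9 ≤ N ≤ Z²`; `Z > 0`, `Q^8 ∣ Q^40 ∣ X`, `Q^8 ∣ Q^800 ∣ Z`, so `bs (X/Q^8) (ω 0) ∈ [2X, 3X)`,
`bs (Z/Q^8) n ∈ [Z, 2Z)` (`v1a_bs` of `H24P/V1A.lean` is such a statement; here the box starts at `2X`, a multiple of
`X/Q^8`); `x ± y` with `x ∈ [2X,3X)`, `y < 2Z ≤ X` is in `[X, 4X)`. -/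
theorem M1_geo {Q N Z X : ℕ} (hQ : 1 ≤ Q) (hG : G3 Q N Z X) (ω : Fin 1 → ℕ) (hω : ω ∈ bx X) (n : ℕ)
    (hn : n ∈ Ico Z (2 * Z)) (i : Fin 2) :
    ((X : ℤ) ≤ L2.map ω i (n : ℤ) ∧ L2.map ω i (n : ℤ) < 4 * X) ∧
    ((X : ℤ) ≤ fp8 Q Z X ω n i ∧ fp8 Q Z X ω n i < 4 * X) ∧
    (Q : ℤ) ^ 8 * |L2.map ω i (n : ℤ) - fp8 Q Z X ω n i| ≤ 2 * X := by
  have hq : 0 < Q ^ 8 := pow_pos (by omega) _
  have h9 := hG.nine
  have hZN := hG.Zlo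
  have hZX := hG.ZX
  have hZ3 : 3 ≤ Z := by
    by_contra h
    have h1 : Z ≤ 2 := by omega
    have h2 : Z ^ 2 ≤ 2 ^ 2 := Nat.pow_le_pow_left h1 2
    omega
  have hX0 : 0 < X := by omega
  have hdX : Q ^ 8 ∣ X := (pow_dvd_pow Q (by norm_num : 8 ≤ 40)).trans hG.dvdX
  have hdZ : Q ^ 8 ∣ Z := (pow_dvd_pow Q (by norm_num : 8 ≤ 800)).trans hG.dvdZ
  have hXe : Q ^ 8 * (X / Q ^ 8) = X := Nat.mul_div_cancel' hdX
  have hZe : Q ^ 8 * (Z / Q ^ 8) = Z := Nat.mul_div_cancel' hdZ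
  have hXs : 0 < X / Q ^ 8 := Nat.div_pos (Nat.le_of_dvd hX0 hdX) hq
  have hZs : 0 < Z / Q ^ 8 := Nat.div_pos (Nat.le_of_dvd (by omega) hdZ) hq
  have hω0 : ω 0 ∈ Ico (2 * X) (2 * X + X) := Fintype.mem_piFinset.1 hω 0
  have h1 := mem_Ico.1 hω0
  have h2 := mem_Ico.1 hn
  have h3 := d1_bs (X / Q ^ 8) (2 * Q ^ 8) (ω 0) hXs (by
    have : X / Q ^ 8 * (2 * Q ^ 8) = 2 * X := by
      calc X / Q ^ 8 * (2 * Q ^ 8) = 2 * (Q ^ 8 * (X / Q ^ 8)) := by ring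
        _ = 2 * X := by rw [hXe]
    rw [this]
    exact h1.1)
  have h3e : X / Q ^ 8 * (2 * Q ^ 8) = 2 * X := by
    calc X / Q ^ 8 * (2 * Q ^ 8) = 2 * (Q ^ 8 * (X / Q ^ 8)) := by ring
      _ = 2 * X := by rw [hXe]
  rw [h3e] at h3
  have h4e : Z / Q ^ 8 * Q ^ 8 = Z := by rw [mul_comm]; exact hZe
  have h4 := d1_bs (Z / Q ^ 8) (Q ^ 8) n hZs (by rw [h4e]; exact h2.1)
  rw [h4e] at h4
  have hb : bw8 Q X ω 0 = bs (X / Q ^ 8) (ω 0) := rfl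
  have e5 : (Q : ℤ) ^ 8 * ((X / Q ^ 8 : ℕ) : ℤ) = X := by exact_mod_cast hXe
  have e6 : (Q : ℤ) ^ 8 * ((Z / Q ^ 8 : ℕ) : ℤ) = Z := by exact_mod_cast hZe
  have hQp : (0 : ℤ) ≤ (Q : ℤ) ^ 8 := by positivity
  have hA : |(ω 0 : ℤ) - (bs (X / Q ^ 8) (ω 0) : ℤ)| ≤ ((X / Q ^ 8 : ℕ) : ℤ) := by
    rw [abs_of_nonneg (by omega)]
    omega
  have hB : |(n : ℤ) - (bs (Z / Q ^ 8) n : ℤ)| ≤ ((Z / Q ^ 8 : ℕ) : ℤ) := by
    rw [abs_of_nonneg (by omega)]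
    omega
  have hdist : ∀ u v : ℤ, |u| ≤ ((X / Q ^ 8 : ℕ) : ℤ) → |v| ≤ ((Z / Q ^ 8 : ℕ) : ℤ) →
      (Q : ℤ) ^ 8 * |u + v| ≤ 2 * X := by
    intro u v hu hv
    calc (Q : ℤ) ^ 8 * |u + v| ≤ (Q : ℤ) ^ 8 * (((X / Q ^ 8 : ℕ) : ℤ) + ((Z / Q ^ 8 : ℕ) : ℤ)) :=
          mul_le_mul_of_nonneg_left ((abs_add_le _ _).trans (add_le_add hu hv)) hQp
      _ = X + Z := by rw [mul_add, e5, e6]
      _ ≤ 2 * X := by
          have : (Z : ℤ) ≤ X := by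
            have : Z ≤ X := by omega
            exact_mod_cast this
          linarith
  have hi : i = 0 ∨ i = 1 := by
    fin_cases i
    · exact Or.inl rfl
    · exact Or.inr rfl
  rcases hi with rfl | rfl
  · unfold fp8
    rw [m1_map0, m1_map0, hb]
    refine ⟨⟨by omega, by omega⟩, ⟨by omega, by omega⟩, ?_⟩
    have e7 : (ω 0 : ℤ) + n - ((bs (X / Q ^ 8) (ω 0) : ℤ) + ((bs (Z / Q ^ 8) n : ℕ) : ℤ)) =
        ((ω 0 : ℤ) - (bs (X / Q ^ 8) (ω 0) : ℤ)) + ((n : ℤ) - (bs (Z / Q ^ 8) n : ℤ)) := by ring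
    rw [e7]
    exact hdist _ _ hA hB
  · unfold fp8
    rw [m1_map1, m1_map1, hb]
    refine ⟨⟨by omega, by omega⟩, ⟨by omega, by omega⟩, ?_⟩
    have e7 : (ω 0 : ℤ) - n - ((bs (X / Q ^ 8) (ω 0) : ℤ) - ((bs (Z / Q ^ 8) n : ℕ) : ℤ)) =
        ((ω 0 : ℤ) - (bs (X / Q ^ 8) (ω 0) : ℤ)) + (-((n : ℤ) - (bs (Z / Q ^ 8) n : ℤ))) := by ring
    rw [e7]
    exact hdist _ _ hA (by rw [abs_neg]; exact hB)

/-- Proof. `B23.eval n = 2 n - 3` (`D0_lin`): `Y = 2 Z - 3`, `3 Y = 6 Z - 9 > 4 Z - 5` as `Z ≥ 3`. -/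
theorem M1_GeoB {Q N Z X : ℕ} (hG : G3 Q N Z X) : GeoB 2 Z Z (2 * Z - 3) B23 ∧
    N ≤ (2 * Z - 3) ^ 2 ∧ 2 * Z - 3 ≤ N ^ 2 ∧ N ≤ X ^ 2 ∧ X ≤ N ^ 2 := by
  have h9 := hG.nine
  have hZN := hG.Zlo
  have hZX := hG.ZX
  have hXN := hG.Xhi
  have hZ3 : 3 ≤ Z := by
    by_contra h
    have h1 : Z ≤ 2 := by omega
    have h2 : Z ^ 2 ≤ 2 ^ 2 := Nat.pow_le_pow_left h1 2
    omega
  obtain ⟨hlin, _, hev⟩ := D0_lin
  refine ⟨⟨hlin, ?_, ?_, by omega, by omega⟩, ?_, ?_, ?_, ?_⟩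
  · intro n hn
    have h1 := mem_Ico.1 hn
    rw [hev]
    omega
  · intro n hn
    have h1 := mem_Ico.1 hn
    rw [hev]
    omega
  · exact hZN.trans (Nat.pow_le_pow_left (by omega) 2)
  · have : N ≤ N ^ 2 := by nlinarith
    omega
  · exact hZN.trans (Nat.pow_le_pow_left (by omega) 2)
  · have : N ≤ N ^ 2 := by nlinarith
    omega

/-- **M1.** Proof. `Lk = SG (Cc x) x` at `x = L2.map ω i n` (`Cf.eq`), the frozen point is at distance `≤ 2X/Q^8`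
(`M1_geo`): the coefficients differ by at most `(2X/Q^8) (2 Q³/X) = 4/Q^5` (`v2_slow` of `H24P/V2.lean`), so
`‖SG - SG‖ ≤ 400 (1+log Q)³/Q²` (`v2_SG`); each factor is at most `300 (1+log Q)³ Q` (`S1b` of `H59P`, `Cf.le`, `Cf.sum`,
`dQ ≤ Q`), so the products of two factors differ by at most `240000 (1+log Q)^6/Q ≤ Q^(-1/2)`, and are at most
`90000 (1+log Q)^6 Q² ≤ Q³` (`G1_rlog`). -/
theorem M1_pt : ∃ Q0 : ℕ, ∀ (Q N Z X : ℕ), Q0 ≤ Q → G3 Q N Z X → ∀ (Cc : ℤ → Ch → ℂ) (mb : Ch → ℝ),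
    Cf Q X Cc mb → ∀ ω ∈ bx X, ∀ n ∈ Ico Z (2 * Z),
    ‖∏ i, ((Lk Q (X / Q ^ 2) (L2.map ω i (n : ℤ)) : ℝ) : ℂ) -
      ∏ i, SG Q (Cc (fp8 Q Z X ω n i)) (L2.map ω i (n : ℤ))‖ ≤ (Q : ℝ) ^ (-(1 / 2) : ℝ) ∧
    ‖∏ i, SG Q (Cc (fp8 Q Z X ω n i)) (L2.map ω i (n : ℤ))‖ ≤ (Q : ℝ) ^ 3 := by
  obtain ⟨Q1, hQ1, hlog⟩ := G1_rlog 720000 6 (1 / 2) (by norm_num)
  refine ⟨max Q1 1, fun Q N Z X hQ hG Cc mb hC ω hω n hn => ?_⟩
  have hQge : Q1 ≤ Q := (le_max_left _ _).trans hQ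
  have hQ' : 1 ≤ Q := (le_max_right _ _).trans hQ
  have hQr : (1 : ℝ) ≤ Q := by exact_mod_cast hQ'
  have hQ0 : (0 : ℝ) < Q := by linarith
  have hlogQ : 0 ≤ Real.log Q := Real.log_nonneg hQr
  have hgeo := fun i => M1_geo hQ' hG ω hω n hn i
  have hX0 : (0 : ℝ) < X := by
    have h1 := (hgeo 0).1
    have h2 : (0 : ℤ) < X := by omega
    exact_mod_cast h2
  have hval : ∀ i, (X : ℤ) ≤ L2.map ω i (n : ℤ) ∧ L2.map ω i (n : ℤ) ≤ 4 * X :=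
    fun i => ⟨(hgeo i).1.1, (hgeo i).1.2.le⟩
  have hbase : ∀ i, (X : ℤ) ≤ fp8 Q Z X ω n i ∧ fp8 Q Z X ω n i ≤ 4 * X :=
    fun i => ⟨(hgeo i).2.1.1, (hgeo i).2.1.2.le⟩
  set W : ℝ := 300 * (1 + Real.log Q) ^ 3 * Q with hW
  have hW1 : 1 ≤ W := by
    have h1 : (1 : ℝ) ≤ (1 + Real.log Q) ^ 3 := one_le_pow₀ (by linarith)
    rw [hW]
    nlinarith
  have hdq : ∀ x : ℤ, dQ Q x ≤ Q := by
    intro x
    unfold dQ
    have h4 : ((Icc 1 Q).filter (fun d : ℕ => (d : ℤ) ∣ x)).card ≤ Q := by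
      refine (card_filter_le _ _).trans ?_
      simp
    exact_mod_cast h4
  have hdq0 : ∀ x : ℤ, 0 ≤ dQ Q x := fun x => by
    unfold dQ
    exact Nat.cast_nonneg _
  have hC0 : 0 ≤ 100 * (1 + Real.log Q) ^ 3 := by positivity
  have hsg : ∀ (x : ℤ) (i : Fin 2), (X : ℤ) ≤ x → x ≤ 4 * X →
      ‖SG Q (Cc x) (L2.map ω i (n : ℤ))‖ ≤ W := by
    intro x i h1 h2
    refine (S1b Q hQ' (Cc x) mb (hC.le x h1 h2) _).trans ?_
    have h3 : 0 ≤ 100 * (1 + Real.log Q) ^ 3 * dQ Q (L2.map ω i (n : ℤ)) := mul_nonneg hC0 (hdq0 _)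
    calc 100 * (1 + Real.log Q) ^ 3 * dQ Q (L2.map ω i (n : ℤ)) * ∑ p ∈ PC Q, mb p
        ≤ 100 * (1 + Real.log Q) ^ 3 * dQ Q (L2.map ω i (n : ℤ)) * 3 :=
          mul_le_mul_of_nonneg_left hC.sum h3
      _ ≤ 100 * (1 + Real.log Q) ^ 3 * Q * 3 :=
          mul_le_mul_of_nonneg_right (mul_le_mul_of_nonneg_left (hdq _) hC0) (by norm_num)
      _ = W := by rw [hW]; ring
  have hLk : ∏ i, ((Lk Q (X / Q ^ 2) (L2.map ω i (n : ℤ)) : ℝ) : ℂ) =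
      ∏ i, SG Q (Cc (L2.map ω i (n : ℤ))) (L2.map ω i (n : ℤ)) :=
    Finset.prod_congr rfl fun i _ => hC.eq _ (hval i).1 (hval i).2
  rw [hLk]
  have hl := hlog Q hQge
  have e6 : (1 + Real.log Q) ^ (6 : ℝ) = (1 + Real.log Q) ^ 6 := by
    exact_mod_cast Real.rpow_natCast (1 + Real.log Q) 6
  rw [e6] at hl
  have key := v1b_prod (Finset.univ : Finset (Fin 2))
    (fun i => SG Q (Cc (L2.map ω i (n : ℤ))) (L2.map ω i (n : ℤ)))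
    (fun i => SG Q (Cc (fp8 Q Z X ω n i)) (L2.map ω i (n : ℤ)))
    (fun _ => W) (4 / (Q : ℝ) ^ 3)
    (by positivity) (fun i => by linarith)
    (fun i _ => hsg _ i (hval i).1 (hval i).2)
    (fun i _ => hsg _ i (hbase i).1 (hbase i).2)
    (fun i _ => ?_)
  · refine ⟨?_, ?_⟩
    · refine key.trans ?_
      rw [Finset.prod_const, Finset.card_univ, Fintype.card_fin]
      have hneg : (Q : ℝ) ^ (-(1 / 2) : ℝ) = (Q : ℝ) ^ (1 / 2 : ℝ) / Q := by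
        rw [eq_div_iff hQ0.ne', ← Real.rpow_add_one hQ0.ne']
        norm_num
      rw [hneg]
      calc ((2 : ℕ) : ℝ) * (4 / (Q : ℝ) ^ 3) * W ^ 2
          = (720000 * (1 + Real.log Q) ^ 6) / Q := by
            rw [hW]
            field_simp
            push_cast
            ring
        _ ≤ (Q : ℝ) ^ (1 / 2 : ℝ) / Q := div_le_div_of_nonneg_right hl hQ0.le
    · rw [norm_prod]
      calc ∏ i : Fin 2, ‖SG Q (Cc (fp8 Q Z X ω n i)) (L2.map ω i (n : ℤ))‖ ≤ ∏ _i : Fin 2, W :=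
            Finset.prod_le_prod (fun _ _ => norm_nonneg _)
              (fun i _ => hsg _ i (hbase i).1 (hbase i).2)
        _ = 90000 * (1 + Real.log Q) ^ 6 * Q ^ 2 := by
            rw [Finset.prod_const, Finset.card_univ, Fintype.card_fin, hW]
            ring
        _ ≤ (Q : ℝ) * Q ^ 2 := by
            refine mul_le_mul_of_nonneg_right ?_ (by positivity)
            have h1 : (0 : ℝ) ≤ (1 + Real.log Q) ^ 6 := by positivity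
            have h2 : (Q : ℝ) ^ (1 / 2 : ℝ) ≤ Q := by
              calc (Q : ℝ) ^ (1 / 2 : ℝ) ≤ (Q : ℝ) ^ (1 : ℝ) :=
                    Real.rpow_le_rpow_of_exponent_le hQr (by norm_num)
                _ = Q := Real.rpow_one _
            linarith
        _ = (Q : ℝ) ^ 3 := by ring
  · have h1 : ∀ p ∈ PC Q, ‖Cc (L2.map ω i (n : ℤ)) p - Cc (fp8 Q Z X ω n i) p‖ ≤
        4 / (Q : ℝ) ^ 5 := by
      intro p hp
      refine (v1a_slow Q X Cc mb hC _ _ (hbase i).1 (hbase i).2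
        (hval i).1 (hval i).2 p hp).trans ?_
      have h2 : (Q : ℝ) ^ 8 * |((L2.map ω i (n : ℤ) : ℤ) : ℝ) - ((fp8 Q Z X ω n i : ℤ) : ℝ)| ≤
          2 * X := by
        exact_mod_cast (hgeo i).2.2
      have h4 : |((L2.map ω i (n : ℤ) : ℤ) : ℝ) - ((fp8 Q Z X ω n i : ℤ) : ℝ)| ≤
          (2 * X) / (Q : ℝ) ^ 8 := by
        rw [le_div_iff₀ (by positivity), mul_comm]
        exact h2
      calc |((L2.map ω i (n : ℤ) : ℤ) : ℝ) - ((fp8 Q Z X ω n i : ℤ) : ℝ)| *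
            (2 * (Q : ℝ) ^ 3 / X)
          ≤ (2 * X) / (Q : ℝ) ^ 8 * (2 * (Q : ℝ) ^ 3 / X) :=
            mul_le_mul_of_nonneg_right h4 (by positivity)
        _ = 4 / (Q : ℝ) ^ 5 := by
            field_simp
            ring
    refine (v2_SG Q hQ' _ _ (4 / (Q : ℝ) ^ 5) h1 (by positivity) _).trans ?_
    have h5 : (0 : ℝ) ≤ (1 + Real.log Q) ^ 3 * Q := by positivity
    calc 100 * (1 + Real.log Q) ^ 3 * Q * ((Q : ℝ) ^ 2 * (4 / (Q : ℝ) ^ 5))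
        = 4 / (Q : ℝ) ^ 3 * (100 * (1 + Real.log Q) ^ 3 * Q) := by
          field_simp
      _ ≤ 4 / (Q : ℝ) ^ 3 * W := by
          refine mul_le_mul_of_nonneg_left ?_ (by positivity)
          rw [hW]
          nlinarith

end Pool.Agent.Lib.H24Q
end
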