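import Pool.Agent.Lib.H1M.RV3.M069
import Pool.Agent.Lib.H1M.RV3.M070
import Pool.Agent.Lib.H1M.RV3.M078
import Pool.Agent.Lib.H1M.RV3.M079
import Pool.Agent.Lib.H1M.RV3.M093
import Pool.Agent.Lib.H1M.RV3.M096

/-! Merged copies (to shorten the build) of Lib.H18F.Sys5, Lib.H9U.A1, Lib.H9U.A2, Lib.H9U.L5A, Lib.H9U.L6A, Lib.H9U.U2, Lib.H9U.U3, Lib.H9U.U4, Lib.H9U.U5, Lib.H9U.L0, Lib.H9U.L1C, Lib.H9U.L1A, Lib.H9U.L1B, Lib.H9U.L1, Lib.H9U.L2, Lib.H9U.V1. -/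

-- from Lib.H18F.Sys5
section

/-!
# H18F (MP_443e5f_co): the system of five forms

`y + a`, `s₁ (y - a)`, `2 y - 3`, `y - 3 + d`, `s₂ (y - 3 - d)` in residue classes modulo `30`.
-/

open Finset

namespace Pool.Agent.Lib.H18F

open Pool.Agent.H9U (Sys iv JJ)

/-- The system of the five linear forms in `n, t₀, t₁`. -/
def S5 (s1 s2 : ℤ) : Sys 5 2 where
  a := ![30, 30 * s1, 60, 30, 30 * s2]
  c := ![![30, 0], ![-(30 * s1), 0], ![0, 0], ![0, 30], ![0, -(30 * s2)]]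

/-- The constant terms. -/
def b5 (s1 s2 Y A D : ℤ) : Fin 5 → ℤ := ![Y + A, s1 * (Y - A), 2 * Y - 3, Y - 3 + D, s2 * (Y - 3 - D)]

theorem S5_lin (s1 s2 s : ℤ) (u : Fin 2 → ℤ) :
    (S5 s1 s2).lin 0 s u = 30 * (s + u 0) ∧ (S5 s1 s2).lin 1 s u = 30 * s1 * (s - u 0) ∧
    (S5 s1 s2).lin 2 s u = 60 * s ∧ (S5 s1 s2).lin 3 s u = 30 * (s + u 1) ∧
    (S5 s1 s2).lin 4 s u = 30 * s2 * (s - u 1) := by
  unfold Sys.lin S5
  refine ⟨?_, ?_, ?_, ?_, ?_⟩ <;> simp [Fin.sum_univ_two] <;> ring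

theorem S5_val (s1 s2 Y A D n : ℤ) (t : Fin 2 → ℤ) :
    (S5 s1 s2).val (b5 s1 s2 Y A D) n t 0 = (30 * n + Y) + (30 * t 0 + A) ∧
    (S5 s1 s2).val (b5 s1 s2 Y A D) n t 1 = s1 * ((30 * n + Y) - (30 * t 0 + A)) ∧
    (S5 s1 s2).val (b5 s1 s2 Y A D) n t 2 = 2 * (30 * n + Y) - 3 ∧
    (S5 s1 s2).val (b5 s1 s2 Y A D) n t 3 = (30 * n + Y) - 3 + (30 * t 1 + D) ∧
    (S5 s1 s2).val (b5 s1 s2 Y A D) n t 4 = s2 * ((30 * n + Y) - 3 - (30 * t 1 + D)) := by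
  obtain ⟨h0, h1, h2, h3, h4⟩ := S5_lin s1 s2 n t
  unfold Sys.val
  rw [h0, h1, h2, h3, h4]
  unfold b5
  refine ⟨?_, ?_, ?_, ?_, ?_⟩ <;> simp <;> ring

theorem S5_half (s1 s2 : ℤ) (h1 : s1 = 1 ∨ s1 = -1) (h2 : s2 = 1 ∨ s2 = -1) : (S5 s1 s2).Half := by
  have e1 : s1 ≠ 0 := by rcases h1 with h | h <;> rw [h] <;> norm_num
  have e2 : s2 ≠ 0 := by rcases h2 with h | h <;> rw [h] <;> norm_num
  have key : ∀ (i : Fin 5) (s : ℤ) (u : Fin 2 → ℤ), (S5 s1 s2).lin i s u =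
      ![30 * (s + u 0), 30 * s1 * (s - u 0), 60 * s, 30 * (s + u 1), 30 * s2 * (s - u 1)] i := by
    intro i s u
    obtain ⟨h0, h1, h2, h3, h4⟩ := S5_lin s1 s2 s u
    fin_cases i
    · exact h0
    · exact h1
    · exact h2
    · exact h3
    · exact h4
  refine ⟨?_, ?_⟩
  · intro i
    fin_cases i <;> simp [S5, e1, e2]
  · intro i
    fin_cases i
    · refine ⟨0, 1, ![1, 0], ![1, 0], ?_, ?_, ?_⟩
      · rw [key]; simp
      · rw [key]; simp
      · intro j hj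
        rw [key, key]
        fin_cases j
        · exact absurd rfl hj
        · right; simp
        · left; simp
        · left; simp
        · left; simp
    · refine ⟨0, 1, ![1, 0], ![-1, 0], ?_, ?_, ?_⟩
      · rw [key]; simp [e1]
      · rw [key]; simp [e1]
      · intro j hj
        rw [key, key]
        fin_cases j
        · right; simp
        · exact absurd rfl hj
        · left; simp
        · left; simp
        · left; simp
    · refine ⟨1, 1, ![1, 1], ![-1, -1], ?_, ?_, ?_⟩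
      · rw [key]; simp
      · rw [key]; simp
      · intro j hj
        rw [key, key]
        fin_cases j
        · right; simp
        · left; simp
        · exact absurd rfl hj
        · right; simp
        · left; simp
    · refine ⟨0, 1, ![0, 1], ![0, 1], ?_, ?_, ?_⟩
      · rw [key]; simp
      · rw [key]; simp
      · intro j hj
        rw [key, key]
        fin_cases j
        · left; simp
        · left; simp
        · left; simp
        · exact absurd rfl hj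
        · right; simp
    · refine ⟨0, 1, ![0, 1], ![0, -1], ?_, ?_, ?_⟩
      · rw [key]; simp [e2]
      · rw [key]; simp [e2]
      · intro j hj
        rw [key, key]
        fin_cases j
        · left; simp
        · left; simp
        · left; simp
        · right; simp
        · exact absurd rfl hj

/-- The residues are good. -/
structure Gd (y a d : ℕ) : Prop where
  a3 : a % 3 = 0
  d3 : d % 3 = 0
  y3 : y % 3 = 1
  ya : (y + a) % 2 = 1
  yd : (y + d) % 2 = 0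
  pa : (y + a) % 5 ≠ 0
  ma : (y + 4 * a) % 5 ≠ 0
  y5 : y % 5 ≠ 4
  pd : (y + d) % 5 ≠ 3
  md : (y + 4 * d) % 5 ≠ 3

theorem Gd_ex (a d : ℕ) (ha : a % 3 = 0) (hd : d % 3 = 0) (h2 : a % 2 ≠ d % 2)
    (h5 : ¬ ((a % 5 = 2 ∨ a % 5 = 3) ∧ (d % 5 = 2 ∨ d % 5 = 3))) : ∃ y : ℕ, y < 30 ∧ Gd y a d := by
  have key : ∀ a5 d5 : Fin 5, ¬ ((a5.val = 2 ∨ a5.val = 3) ∧ (d5.val = 2 ∨ d5.val = 3)) →
      ∃ r : Fin 5, (r.val + a5.val) % 5 ≠ 0 ∧ (r.val + 4 * a5.val) % 5 ≠ 0 ∧ r.val ≠ 4 ∧ (r.val + d5.val) % 5 ≠ 3 ∧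
        (r.val + 4 * d5.val) % 5 ≠ 3 := by
    decide
  obtain ⟨⟨r, hr⟩, h3, h4, h6, h7, h8⟩ := key ⟨a % 5, Nat.mod_lt _ (by norm_num)⟩ ⟨d % 5, Nat.mod_lt _ (by norm_num)⟩ h5
  simp only at h3 h4 h6 h7 h8
  refine ⟨(15 * d + 10 + 6 * r) % 30, Nat.mod_lt _ (by norm_num), ?_⟩
  constructor <;> omega

/-- Five forms of slopes `30`, `±30`, `60` can be made prime to a prime `l ≥ 7`. -/
theorem S5_big (s1 s2 Y A D : ℤ) (h1 : s1 = 1 ∨ s1 = -1) (h2 : s2 = 1 ∨ s2 = -1) (t : Fin 2 → ℤ) (l : ℕ) (hl : l.Prime)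
    (h7 : 7 ≤ l) : ∃ n : ℤ, ∀ i, ¬ (l : ℤ) ∣ (S5 s1 s2).val (b5 s1 s2 Y A D) n t i := by
  by_contra hcon
  push Not at hcon
  choose f hf using hcon
  have hcard : (univ : Finset (Fin 5)).card < (range l).card := by
    rw [card_range, card_fin]
    omega
  obtain ⟨x, hx, y, hy, hxy, hfxy⟩ := Finset.exists_ne_map_eq_of_card_lt_of_maps_to hcard
    (f := fun n : ℕ => f (n : ℤ)) (fun _ _ => mem_univ _)
  have hd : (l : ℤ) ∣ (S5 s1 s2).a (f x) * ((x : ℤ) - y) := by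
    have e1 := hf x
    have e2 := hf y
    have hfxy' : f (x : ℤ) = f (y : ℤ) := hfxy
    rw [← hfxy'] at e2
    have e3 := dvd_sub e1 e2
    have e4 : (S5 s1 s2).val (b5 s1 s2 Y A D) x t (f x) - (S5 s1 s2).val (b5 s1 s2 Y A D) y t (f x) =
        (S5 s1 s2).a (f x) * ((x : ℤ) - y) := by
      unfold Sys.val Sys.lin
      ring
    rwa [e4] at e3
  have hlp : Prime (l : ℤ) := Nat.prime_iff_prime_int.mp hl
  have hnd : ¬ (l : ℤ) ∣ 60 := by
    intro h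
    have h' : l ∣ 60 := by exact_mod_cast h
    have h'' : l ∣ 2 * 2 * 3 * 5 := by simpa using h'
    have q2 : ¬ l ∣ 2 := fun h => by have := Nat.le_of_dvd (by norm_num) h; omega
    have q3 : ¬ l ∣ 3 := fun h => by have := Nat.le_of_dvd (by norm_num) h; omega
    have q5 : ¬ l ∣ 5 := fun h => by have := Nat.le_of_dvd (by norm_num) h; omega
    rcases (Nat.Prime.dvd_mul hl).mp h'' with h | h
    · rcases (Nat.Prime.dvd_mul hl).mp h with h | h
      · rcases (Nat.Prime.dvd_mul hl).mp h with h | h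
        · exact q2 h
        · exact q2 h
      · exact q3 h
    · exact q5 h
  have ha : (S5 s1 s2).a (f x) ∣ 60 := by
    generalize f x = i
    fin_cases i
    · simp only [S5]; norm_num
    · rcases h1 with h | h <;> simp only [S5, h] <;> norm_num
    · simp only [S5]; norm_num
    · simp only [S5]; norm_num
    · rcases h2 with h | h <;> simp only [S5, h] <;> norm_num
  rcases hlp.dvd_or_dvd hd with h | h
  · exact hnd (h.trans ha)
  · have hx' := mem_range.mp hx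
    have hy' := mem_range.mp hy
    have habs : |(x : ℤ) - y| < l := by
      rw [abs_lt]
      constructor <;> omega
    have := Int.eq_zero_of_abs_lt_dvd h habs
    apply hxy
    omega

theorem red30 (l : ℕ) (hl : l = 2 ∨ l = 3 ∨ l = 5) (K r : ℤ) (h : (l : ℤ) ∣ 30 * K + r) : (l : ℤ) ∣ r := by
  have h30 : (l : ℤ) ∣ 30 * K := by
    apply Dvd.dvd.mul_right
    rcases hl with h | h | h <;> rw [h] <;> norm_num
  exact (dvd_add_right h30).mp h

theorem rd0 (y a l : ℕ) (hl : l = 2 ∨ l = 3 ∨ l = 5) (a3 : a % 3 = 0) (y3 : y % 3 = 1) (ya : (y + a) % 2 = 1)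
    (pa : (y + a) % 5 ≠ 0) : ¬ (l : ℤ) ∣ (y : ℤ) + a := by
  intro h
  have h' : l ∣ y + a := by exact_mod_cast h
  rcases hl with e | e | e <;> subst e <;> omega

theorem rd1 (y a l : ℕ) (hl : l = 2 ∨ l = 3 ∨ l = 5) (a3 : a % 3 = 0) (y3 : y % 3 = 1) (ya : (y + a) % 2 = 1)
    (ma : (y + 4 * a) % 5 ≠ 0) : ¬ (l : ℤ) ∣ (y : ℤ) - a := by
  intro h
  rcases hl with e | e | e <;> subst e <;> push_cast at h <;> omega

theorem rd2 (y l : ℕ) (hl : l = 2 ∨ l = 3 ∨ l = 5) (y3 : y % 3 = 1) (y5 : y % 5 ≠ 4) : ¬ (l : ℤ) ∣ 2 * (y : ℤ) - 3 := by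
  intro h
  rcases hl with e | e | e <;> subst e <;> push_cast at h <;> omega

theorem rd3 (y d l : ℕ) (hl : l = 2 ∨ l = 3 ∨ l = 5) (d3 : d % 3 = 0) (y3 : y % 3 = 1) (yd : (y + d) % 2 = 0)
    (pd : (y + d) % 5 ≠ 3) : ¬ (l : ℤ) ∣ (y : ℤ) - 3 + d := by
  intro h
  rcases hl with e | e | e <;> subst e <;> push_cast at h <;> omega

theorem rd4 (y d l : ℕ) (hl : l = 2 ∨ l = 3 ∨ l = 5) (d3 : d % 3 = 0) (y3 : y % 3 = 1) (yd : (y + d) % 2 = 0)
    (md : (y + 4 * d) % 5 ≠ 3) : ¬ (l : ℤ) ∣ (y : ℤ) - 3 - d := by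
  intro h
  rcases hl with e | e | e <;> subst e <;> push_cast at h <;> omega

theorem sgn_dvd (s x l : ℤ) (hs : s = 1 ∨ s = -1) (h : l ∣ s * x) : l ∣ x := by
  rcases hs with e | e
  · rwa [e, one_mul] at h
  · rwa [e, neg_one_mul, dvd_neg] at h

/-- Admissibility. -/
theorem S5_adm (s1 s2 : ℤ) (h1 : s1 = 1 ∨ s1 = -1) (h2 : s2 = 1 ∨ s2 = -1) (P A' D' : ℤ) (y a d : ℕ) (hG : Gd y a d)
    (t : Fin 2 → ℤ) : (S5 s1 s2).Adm (b5 s1 s2 (30 * P + y) (30 * A' + a) (30 * D' + d)) t := by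
  intro l hl
  by_cases h7 : 7 ≤ l
  · exact S5_big s1 s2 _ _ _ h1 h2 t l hl h7
  refine ⟨0, ?_⟩
  obtain ⟨v0, v1, v2, v3, v4⟩ := S5_val s1 s2 (30 * P + y) (30 * A' + a) (30 * D' + d) 0 t
  have hl2 : l = 2 ∨ l = 3 ∨ l = 5 := by
    have := hl.two_le
    interval_cases l
    · left; rfl
    · right; left; rfl
    · exact absurd hl (by norm_num)
    · right; right; rfl
    · exact absurd hl (by norm_num)
  intro i
  fin_cases i
  · change ¬ (l : ℤ) ∣ (S5 s1 s2).val _ _ _ 0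
    rw [v0]
    intro h
    apply rd0 y a l hl2 hG.a3 hG.y3 hG.ya hG.pa
    apply red30 l hl2 (P + t 0 + A')
    have e : 30 * (P + t 0 + A') + ((y : ℤ) + a) = 30 * 0 + (30 * P + y) + (30 * t 0 + (30 * A' + a)) := by ring
    rwa [e]
  · change ¬ (l : ℤ) ∣ (S5 s1 s2).val _ _ _ 1
    rw [v1]
    intro h
    have h := sgn_dvd _ _ _ h1 h
    apply rd1 y a l hl2 hG.a3 hG.y3 hG.ya hG.ma
    apply red30 l hl2 (P - t 0 - A')
    have e : 30 * (P - t 0 - A') + ((y : ℤ) - a) = 30 * 0 + (30 * P + y) - (30 * t 0 + (30 * A' + a)) := by ring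
    rwa [e]
  · change ¬ (l : ℤ) ∣ (S5 s1 s2).val _ _ _ 2
    rw [v2]
    intro h
    apply rd2 y l hl2 hG.y3 hG.y5
    apply red30 l hl2 (2 * P)
    have e : 30 * (2 * P) + (2 * (y : ℤ) - 3) = 2 * (30 * 0 + (30 * P + y)) - 3 := by ring
    rwa [e]
  · change ¬ (l : ℤ) ∣ (S5 s1 s2).val _ _ _ 3
    rw [v3]
    intro h
    apply rd3 y d l hl2 hG.d3 hG.y3 hG.yd hG.pd
    apply red30 l hl2 (P + t 1 + D')
    have e : 30 * (P + t 1 + D') + ((y : ℤ) - 3 + d) = 30 * 0 + (30 * P + y) - 3 + (30 * t 1 + (30 * D' + d)) := by ring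
    rwa [e]
  · change ¬ (l : ℤ) ∣ (S5 s1 s2).val _ _ _ 4
    rw [v4]
    intro h
    have h := sgn_dvd _ _ _ h2 h
    apply rd4 y d l hl2 hG.d3 hG.y3 hG.yd hG.md
    apply red30 l hl2 (P - t 1 - D')
    have e : 30 * (P - t 1 - D') + ((y : ℤ) - 3 - d) = 30 * 0 + (30 * P + y) - 3 - (30 * t 1 + (30 * D' + d)) := by ring
    rwa [e]

end Pool.Agent.Lib.H18F
end

-- from Lib.H9U.A1
section

/-!
# H9U, chunk A1 (S/M): the model with explicit coefficients at good and at exceptional levels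
-/

open Finset

namespace Pool.Agent.H9U

open Pool.Agent.Lib.H68T Pool.Agent.Lib.H18Q Pool.Agent.Lib.H59P

/-- Proof. Copy `mdl_good` (`H59P/A3.lean`): there `LevE` is proved with `e m p = Bc Q X p m - MX p0 _ m p`, which is exactly `MdB.cf` with the same `eb`. -/
theorem mdb_good (c : ℝ) (hc : 0 < c) : ∃ K C : ℝ, 1 ≤ K ∧ 1 ≤ C ∧ ∀ kp : ℝ, K ≤ kp →
    ∀ Q X : ℕ, RegP K Q X → kp * Real.log Q ≤ Real.log X → Good c Q →
    MdB Q X 1 (C * Real.exp (-(kp / C)) + (Q : ℝ) ^ (-(1 / 4) : ℝ)) p0 (fun _ => 0) := by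
  classical
  obtain ⟨K1, C, hK1, hC, hL1⟩ := L1_good_q c hc
  obtain ⟨K2, hK2, hLip⟩ := Bc_lip
  obtain ⟨K3, hK3, hLk⟩ := Lk_SG
  obtain ⟨K4, hK4, hB0⟩ := cl1_B0
  obtain ⟨K5, hK5, hB⟩ := B_leP
  refine ⟨max (max (max K1 K2) (max K3 K4)) (max K5 16), C,
    hK1.trans ((le_max_left _ _).trans ((le_max_left _ _).trans (le_max_left _ _))), hC, ?_⟩
  intro kp hkp Q X hreg hkQ hgood
  obtain ⟨K, hKd⟩ : ∃ K, K = max (max (max K1 K2) (max K3 K4)) (max K5 16) := ⟨_, rfl⟩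
  rw [← hKd] at hreg hkp
  have k1 : K1 ≤ K := by rw [hKd]; exact (le_max_left _ _).trans ((le_max_left _ _).trans (le_max_left _ _))
  have k2 : K2 ≤ K := by rw [hKd]; exact (le_max_right _ _).trans ((le_max_left _ _).trans (le_max_left _ _))
  have k3 : K3 ≤ K := by rw [hKd]; exact (le_max_left _ _).trans ((le_max_right _ _).trans (le_max_left _ _))
  have k4 : K4 ≤ K := by rw [hKd]; exact (le_max_right _ _).trans ((le_max_right _ _).trans (le_max_left _ _))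
  have k5 : K5 ≤ K := by rw [hKd]; exact (le_max_left _ _).trans (le_max_right _ _)
  have k6 : 16 ≤ K := by rw [hKd]; exact (le_max_right _ _).trans (le_max_right _ _)
  clear hKd
  have hKp : 1 ≤ K := hK1.trans k1
  have hK0 : 0 ≤ K := by linarith
  have hQ1 : 1 ≤ Q := hreg.Q_pos hKp
  have hQ1' : (1 : ℝ) ≤ Q := by exact_mod_cast hQ1
  have hQK := hreg.Q_ge hKp
  have hX0 : (0 : ℝ) < X := by exact_mod_cast hreg.X_pos (by linarith)
  have hL := hL1 kp (by linarith) Q X (hreg.mono hK0 k1) hkQ hgood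
  obtain ⟨q, hq⟩ : ∃ q, q = (Q : ℝ) ^ (-(5 / 2) : ℝ) := ⟨_, rfl⟩
  have hq0 : 0 ≤ q := by rw [hq]; positivity
  obtain ⟨eb, heb⟩ : ∃ eb : (Σ r : ℕ, DirichletCharacter ℂ r) → ℝ, eb = fun p =>
    (if p = p0 then ∫ t in (-(Q : ℝ) ^ 7)..((Q : ℝ) ^ 7), ‖FL X p0 t - F0 X t‖
      else ∫ t in (-(Q : ℝ) ^ 7)..((Q : ℝ) ^ 7), ‖FL X p t‖) + q := ⟨_, rfl⟩
  have heb0 : ∀ p, 0 ≤ eb p := by
    intro p
    rw [heb]
    simp only
    split_ifs
    · exact add_nonneg (cl1_int_nonneg Q _) hq0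
    · exact add_nonneg (cl1_int_nonneg Q _) hq0
  have hsum : ∑ p ∈ PC Q, eb p ≤ C * Real.exp (-(kp / C)) + (Q : ℝ) ^ (-(1 / 4) : ℝ) := by
    have h1 : ∑ p ∈ PC Q, eb p =
        (∑ p ∈ PC Q, (if p = p0 then ∫ t in (-(Q : ℝ) ^ 7)..((Q : ℝ) ^ 7), ‖FL X p0 t - F0 X t‖
          else ∫ t in (-(Q : ℝ) ^ 7)..((Q : ℝ) ^ 7), ‖FL X p t‖)) + (PC Q).card * q := by
      rw [heb, Finset.sum_add_distrib, Finset.sum_const, nsmul_eq_mul]
    rw [h1, ph_split (PC Q) p0 (p0_mem hQ1) (fun p => p ≠ p0) (fun _ => Iff.rfl), if_pos rfl]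
    have h2 : ∑ p ∈ (PC Q).filter (fun p => p ≠ p0),
        (if p = p0 then ∫ t in (-(Q : ℝ) ^ 7)..((Q : ℝ) ^ 7), ‖FL X p0 t - F0 X t‖
          else ∫ t in (-(Q : ℝ) ^ 7)..((Q : ℝ) ^ 7), ‖FL X p t‖) =
        ∑ p ∈ (PC Q).filter (fun p => p ≠ p0), ∫ t in (-(Q : ℝ) ^ 7)..((Q : ℝ) ^ 7), ‖FL X p t‖ :=
      Finset.sum_congr rfl fun p hp => by rw [if_neg (mem_filter.1 hp).2]
    rw [h2]
    have h3 : ((PC Q).card : ℝ) * q ≤ 1 / Real.sqrt Q := by
      rw [← (cl1_Qpow hQ1).1, ← hq]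
      apply mul_le_mul_of_nonneg_right _ hq0
      exact_mod_cast card_PC_le Q
    have h4 := a3_q4 (Q := Q) (by linarith)
    have h5 := a3_inv (Q := Q) (by linarith)
    have h6 : 2 / Real.sqrt Q = 1 / Real.sqrt Q + 1 / Real.sqrt Q := by ring
    linarith
  refine ⟨one_pos, le_rfl, p0_mem hQ1, ?_, fun _ _ => rfl, fun _ _ _ => le_rfl, ?_, ?_⟩
  · have : p0.2 = 1 := rfl
    rw [this, one_pow]
  · intro m _ _
    simp
  · have hMX : ∀ m p, MX p0 (fun _ => 0) m p = if p = p0 then 1 else 0 := by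
      intro m p
      unfold MX
      split_ifs <;> simp
    refine ⟨eb, fun p _ => heb0 p, ?_, ?_⟩
    · rw [one_mul]
      exact hsum
    · intro m hm hm4 p hp
      rw [hMX, heb]
      simp only
      split_ifs with h
      · rw [h, hq]
        exact hB0 Q X (hreg.mono hK0 k4) m hm hm4
      · rw [sub_zero, hq]
        exact hB Q X (hreg.mono hK0 k5) p (mem_PC.1 hp).1 m hm hm4

/-- Proof. Copy `mdl_exc` (`H59P/A4.lean`): there `LevE` is proved with `e m p = Bc Q X p m - MX ⟨r, ψ⟩ _ m p`. -/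
theorem mdb_exc : ∃ c1 K C : ℝ, 0 < c1 ∧ c1 < 1 ∧ 1 ≤ K ∧ 1 ≤ C ∧ ∀ kp : ℝ, K ≤ kp →
    ∀ Q X : ℕ, RegP K Q X → kp * Real.log Q ≤ Real.log X →
    ∀ (r : ℕ) [NeZero r] (ψ : DirichletCharacter ℂ r), r ^ 100 ≤ Q →
    ψ.IsPrimitive → ψ ≠ 1 → ψ ^ 2 = 1 → ∀ β : ℝ, β < 1 → ψ.LFunction (β : ℂ) = 0 →
    (1 - β) * Real.log Q ≤ c1 →
    (1 - β) * Real.log Q / 2 ≤ 1 - (X : ℝ) ^ (β - 1) ∧
    MdB Q X (1 - (X : ℝ) ^ (β - 1)) (C * Real.exp (-(kp / C)) + (Q : ℝ) ^ (-(1 / 4) : ℝ)) ⟨r, ψ⟩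
      (fun m => (m : ℝ) ^ (β - 1)) := by
  classical
  obtain ⟨c1, K1, C1, hc1, hc11, hK1, hC1, hL1⟩ := L1_exceptional_q
  obtain ⟨K2, hK2, hLip⟩ := Bc_lip
  obtain ⟨K3, hK3, hLk⟩ := Lk_SG
  obtain ⟨K4, hK4, hB0⟩ := cl1_B0
  obtain ⟨K5, hK5, hB⟩ := B_leP
  obtain ⟨K6, hK6, hB1⟩ := B1_leP
  obtain ⟨ce, hce, hel⟩ := zero_elementary
  refine ⟨c1, max (max (max K1 K2) (max K3 K4)) (max (max K5 K6) (max 256 ((8 / ce) ^ 8))),
    2 * C1, hc1, hc11,
    hK1.trans ((le_max_left _ _).trans ((le_max_left _ _).trans (le_max_left _ _))),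
    by linarith, ?_⟩
  intro kp hkp Q X hreg hkQ r _ ψ hr100 hprim hψ1 hψ2 β hβ hLβ hsmall
  obtain ⟨K, hKd⟩ : ∃ K, K = max (max (max K1 K2) (max K3 K4)) (max (max K5 K6)
    (max 256 ((8 / ce) ^ 8))) := ⟨_, rfl⟩
  rw [← hKd] at hreg hkp
  have k1 : K1 ≤ K := by rw [hKd]; exact (le_max_left _ _).trans ((le_max_left _ _).trans (le_max_left _ _))
  have k2 : K2 ≤ K := by rw [hKd]; exact (le_max_right _ _).trans ((le_max_left _ _).trans (le_max_left _ _))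
  have k3 : K3 ≤ K := by rw [hKd]; exact (le_max_left _ _).trans ((le_max_right _ _).trans (le_max_left _ _))
  have k4 : K4 ≤ K := by rw [hKd]; exact (le_max_right _ _).trans ((le_max_right _ _).trans (le_max_left _ _))
  have k5 : K5 ≤ K := by rw [hKd]; exact (le_max_left _ _).trans ((le_max_left _ _).trans (le_max_right _ _))
  have k6 : K6 ≤ K := by rw [hKd]; exact (le_max_right _ _).trans ((le_max_left _ _).trans (le_max_right _ _))
  have k7 : 256 ≤ K := by rw [hKd]; exact (le_max_left _ _).trans ((le_max_right _ _).trans (le_max_right _ _))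
  have k8 : (8 / ce) ^ 8 ≤ K := by
    rw [hKd]; exact (le_max_right _ _).trans ((le_max_right _ _).trans (le_max_right _ _))
  clear hKd
  have hKp : 1 ≤ K := hK1.trans k1
  have hK0 : 0 ≤ K := by linarith
  have hQ1 : 1 ≤ Q := hreg.Q_pos hKp
  have hQ1' : (1 : ℝ) ≤ Q := by exact_mod_cast hQ1
  have hQK := hreg.Q_ge hKp
  have hlQ := hreg.logQ_ge hKp
  have hX1 : 1 ≤ X := hreg.X_pos (by linarith)
  have hX0 : (0 : ℝ) < X := by exact_mod_cast hX1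
  have hr0 : 1 ≤ r := Nat.pos_of_ne_zero (NeZero.ne r)
  have hr : r ≤ Q := (Nat.le_self_pow (by norm_num) r).trans hr100
  have hη : 0 < 1 - β := by linarith
  have hβ12 : 1 / 2 ≤ β := by
    by_contra hcon
    have h1 : (1 / 2 : ℝ) ≤ 1 - β := by linarith [not_le.1 hcon]
    have h2 : (1 / 2 : ℝ) * 3 ≤ (1 - β) * Real.log Q :=
      mul_le_mul h1 (by linarith) (by norm_num) hη.le
    linarith
  have hL := hL1 kp (by linarith) Q X (hreg.mono hK0 k1) hkQ r ψ hr hprim hψ1 hψ2 β hβ hLβ hsmall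
  have hmemψ : (⟨r, ψ⟩ : Σ r : ℕ, DirichletCharacter ℂ r) ∈ PC Q :=
    mem_PC.2 ⟨hr0, hr, hprim⟩
  have hneψ : (⟨r, ψ⟩ : Σ r : ℕ, DirichletCharacter ℂ r) ≠ p0 := by
    intro h
    unfold p0 at h
    obtain ⟨h1, h2⟩ := Sigma.mk.inj_iff.1 h
    subst h1
    exact hψ1 (eq_of_heq h2)
  obtain ⟨x, hxd⟩ : ∃ x, x = (1 - β) * Real.log Q := ⟨_, rfl⟩
  have hx0 : 0 < x := by rw [hxd]; exact mul_pos hη (by linarith)
  rw [← hxd] at hsmall hL ⊢
  obtain ⟨q, hq⟩ : ∃ q, q = (Q : ℝ) ^ (-(5 / 2) : ℝ) := ⟨_, rfl⟩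
  have hq0 : 0 ≤ q := by rw [hq]; positivity
  obtain ⟨q', hq'⟩ : ∃ q', q' = (Q : ℝ) ^ (-(3 / 2) : ℝ) := ⟨_, rfl⟩
  have hq'0 : 0 ≤ q' := by rw [hq']; positivity
  obtain ⟨I, hI⟩ : ∃ I : (Σ r : ℕ, DirichletCharacter ℂ r) → ℝ, I = fun p =>
    (if p = p0 then ∫ t in (-(Q : ℝ) ^ 7)..((Q : ℝ) ^ 7), ‖FL X p0 t - F0 X t‖
      else if p = ⟨r, ψ⟩ then ∫ t in (-(Q : ℝ) ^ 7)..((Q : ℝ) ^ 7), ‖FL X ⟨r, ψ⟩ t + Fb X β t‖
      else ∫ t in (-(Q : ℝ) ^ 7)..((Q : ℝ) ^ 7), ‖FL X p t‖) := ⟨_, rfl⟩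
  have hI0 : ∀ p, 0 ≤ I p := by
    intro p
    rw [hI]
    simp only
    split_ifs
    · exact cl1_int_nonneg Q _
    · exact cl1_int_nonneg Q _
    · exact cl1_int_nonneg Q _
  obtain ⟨eb, heb⟩ : ∃ eb : (Σ r : ℕ, DirichletCharacter ℂ r) → ℝ, eb = fun p =>
    I p + q + (if p = ⟨r, ψ⟩ then q' else 0) := ⟨_, rfl⟩
  have heb0 : ∀ p, 0 ≤ eb p := by
    intro p
    rw [heb]
    have := hI0 p
    simp only
    split_ifs <;> linarith
  have hIsum : ∑ p ∈ PC Q, I p ≤ (C1 * Real.exp (-(kp / C1)) + 1 / Q) * x := by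
    rw [ph_split (PC Q) p0 (p0_mem hQ1) (fun p => p ≠ p0) (fun _ => Iff.rfl),
      ph_split ((PC Q).filter (fun p => p ≠ p0)) ⟨r, ψ⟩ (mem_filter.2 ⟨hmemψ, hneψ⟩)
        (fun p => p ≠ ⟨r, ψ⟩) (fun _ => Iff.rfl)]
    have hfilt : ((PC Q).filter (fun p => p ≠ p0)).filter (fun p => p ≠ ⟨r, ψ⟩) =
        (PC Q).filter (fun p => p ≠ p0 ∧ p ≠ ⟨r, ψ⟩) := by
      ext p
      simp only [mem_filter]
      tauto
    rw [hfilt]
    have e1 : I p0 = ∫ t in (-(Q : ℝ) ^ 7)..((Q : ℝ) ^ 7), ‖FL X p0 t - F0 X t‖ := by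
      rw [hI]
      beta_reduce
      rw [if_pos rfl]
    have e2 : I ⟨r, ψ⟩ = ∫ t in (-(Q : ℝ) ^ 7)..((Q : ℝ) ^ 7), ‖FL X ⟨r, ψ⟩ t + Fb X β t‖ := by
      rw [hI]
      beta_reduce
      rw [if_neg hneψ, if_pos rfl]
    have e3 : ∑ p ∈ (PC Q).filter (fun p => p ≠ p0 ∧ p ≠ ⟨r, ψ⟩), I p =
        ∑ p ∈ (PC Q).filter (fun p => p ≠ p0 ∧ p ≠ ⟨r, ψ⟩),
          ∫ t in (-(Q : ℝ) ^ 7)..((Q : ℝ) ^ 7), ‖FL X p t‖ := by
      refine Finset.sum_congr rfl fun p hp => ?_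
      rw [hI]
      simp only
      rw [if_neg (mem_filter.1 hp).2.1, if_neg (mem_filter.1 hp).2.2]
    rw [e1, e2, e3]
    linarith
  obtain ⟨η, hηd⟩ : ∃ η, η = 1 - (X : ℝ) ^ (β - 1) := ⟨_, rfl⟩
  have hlQX : Real.log Q ≤ Real.log X := by
    have h1 : 1 * Real.log Q ≤ kp * Real.log Q :=
      mul_le_mul_of_nonneg_right (by linarith) (by linarith)
    linarith
  have hηx : x / 2 ≤ η := by
    rw [hηd, hxd]
    exact a4_eta hX1 hβ hlQX (by rw [← hxd]; linarith)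
  have hη0 : 0 < η := by linarith
  -- the size of η
  have hηQ : 4 * (Q : ℝ) ^ (-(1 / 4) : ℝ) ≤ η := by
    have hr1 : (1 : ℝ) ≤ r := by exact_mod_cast hr0
    have h6 := hel r ψ hψ1 hψ2 β hβ hLβ
    have h7 : ce / (r : ℝ) ^ 2 ≤ x := by
      rw [hxd]
      have h8 : 0 ≤ ce / (r : ℝ) ^ 2 := by positivity
      calc ce / (r : ℝ) ^ 2 = ce / (r : ℝ) ^ 2 * 1 := (mul_one _).symm
        _ ≤ (1 - β) * Real.log Q := mul_le_mul h6 (by linarith) zero_le_one hη.le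
    have h8 : 8 / ce * (r : ℝ) ^ 2 ≤ (Q : ℝ) ^ (1 / 4 : ℝ) := by
      have h9 : (8 / ce * (r : ℝ) ^ 2) ^ 8 ≤ (Q : ℝ) ^ 2 := by
        have h10 : (r : ℝ) ^ 16 ≤ Q := by
          have : r ^ 16 ≤ Q := (Nat.pow_le_pow_right hr0 (by norm_num)).trans hr100
          exact_mod_cast this
        calc (8 / ce * (r : ℝ) ^ 2) ^ 8 = (8 / ce) ^ 8 * (r : ℝ) ^ 16 := by ring
          _ ≤ (Q : ℝ) * (Q : ℝ) := mul_le_mul (k8.trans hQK) h10 (by positivity) (by positivity)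
          _ = _ := by ring
      have h11 : ((Q : ℝ) ^ (1 / 4 : ℝ)) ^ 8 = (Q : ℝ) ^ 2 := by
        rw [← Real.rpow_natCast, ← Real.rpow_mul (by linarith)]
        norm_num
      rw [← h11] at h9
      exact le_of_pow_le_pow_left₀ (by norm_num) (by positivity) h9
    have h12 : (0 : ℝ) < (Q : ℝ) ^ (1 / 4 : ℝ) := by positivity
    have h13 : 4 * (Q : ℝ) ^ (-(1 / 4) : ℝ) ≤ ce / (r : ℝ) ^ 2 / 2 := by
      have h14 : 4 * (Q : ℝ) ^ (-(1 / 4) : ℝ) = 4 / (Q : ℝ) ^ (1 / 4 : ℝ) := by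
        rw [Real.rpow_neg (by linarith)]
        exact (div_eq_mul_inv _ _).symm
      have h15 : ce / (r : ℝ) ^ 2 / 2 = 4 / (8 / ce * (r : ℝ) ^ 2) := by
        have hr2 : (0 : ℝ) < (r : ℝ) ^ 2 := by positivity
        rw [eq_div_iff (by positivity)]
        have e1 : ce / (r : ℝ) ^ 2 / 2 * (8 / ce * (r : ℝ) ^ 2) =
            4 * (ce / ce) * ((r : ℝ) ^ 2 / (r : ℝ) ^ 2) := by ring
        rw [e1, div_self hce.ne', div_self hr2.ne']
        norm_num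
      rw [h14, h15]
      exact div_le_div_of_nonneg_left (by norm_num) (by positivity) h8
    linarith
  have hsum : ∑ p ∈ PC Q, eb p ≤
      η * (2 * C1 * Real.exp (-(kp / (2 * C1))) + (Q : ℝ) ^ (-(1 / 4) : ℝ)) := by
    have h1 : ∑ p ∈ PC Q, eb p = ∑ p ∈ PC Q, I p + (PC Q).card * q + q' := by
      rw [heb, Finset.sum_add_distrib, Finset.sum_add_distrib, Finset.sum_const, nsmul_eq_mul,
        Finset.sum_ite_eq' (PC Q) _ (fun _ => q'), if_pos hmemψ]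
    have h3 : ((PC Q).card : ℝ) * q ≤ 1 / Real.sqrt Q := by
      rw [← (cl1_Qpow hQ1).1, ← hq]
      apply mul_le_mul_of_nonneg_right _ hq0
      exact_mod_cast card_PC_le Q
    have h4 : q' ≤ 1 / Real.sqrt Q := by rw [hq']; exact (cl1_Qpow hQ1).2
    have hq4 : 0 < (Q : ℝ) ^ (-(1 / 4) : ℝ) := by positivity
    have hsq : 1 / Real.sqrt Q = (Q : ℝ) ^ (-(1 / 4) : ℝ) * (Q : ℝ) ^ (-(1 / 4) : ℝ) := by
      rw [Real.sqrt_eq_rpow, one_div, ← Real.rpow_neg (by linarith), ← Real.rpow_add (by linarith)]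
      norm_num
    have h5 : 2 / Real.sqrt Q ≤ η / 2 * (Q : ℝ) ^ (-(1 / 4) : ℝ) := by
      have e1 : 2 / Real.sqrt Q = 2 * (Q : ℝ) ^ (-(1 / 4) : ℝ) * (Q : ℝ) ^ (-(1 / 4) : ℝ) := by
        rw [mul_assoc, ← hsq]; ring
      rw [e1]
      exact mul_le_mul_of_nonneg_right (by linarith) hq4.le
    have h6 : 1 / (Q : ℝ) * x ≤ η / 2 * (Q : ℝ) ^ (-(1 / 4) : ℝ) := by
      have e1 : 1 / (Q : ℝ) ≤ 1 / 4 * (Q : ℝ) ^ (-(1 / 4) : ℝ) := by
        have e2 : 1 / (Q : ℝ) ≤ 1 / Real.sqrt Q := a3_inv (by linarith)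
        have e3 : (Q : ℝ) ^ (-(1 / 4) : ℝ) ≤ 1 / 4 := by
          have e4 : (256 : ℝ) ^ (1 / 4 : ℝ) ≤ (Q : ℝ) ^ (1 / 4 : ℝ) :=
            Real.rpow_le_rpow (by norm_num) (by linarith) (by norm_num)
          have e5 : (256 : ℝ) ^ (1 / 4 : ℝ) = 4 := by
            rw [show (256 : ℝ) = 4 ^ (4 : ℝ) by norm_num, ← Real.rpow_mul (by norm_num)]
            norm_num
          rw [e5] at e4
          rw [Real.rpow_neg (by linarith), ← one_div]
          exact one_div_le_one_div_of_le (by norm_num) e4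
        rw [hsq] at e2
        exact e2.trans (mul_le_mul_of_nonneg_right e3 hq4.le)
      calc 1 / (Q : ℝ) * x ≤ (1 / 4 * (Q : ℝ) ^ (-(1 / 4) : ℝ)) * (2 * η) :=
            mul_le_mul e1 (by linarith) hx0.le (by positivity)
        _ = η / 2 * (Q : ℝ) ^ (-(1 / 4) : ℝ) := by ring
    have h7 : C1 * Real.exp (-(kp / C1)) * x ≤ η * (2 * C1 * Real.exp (-(kp / (2 * C1)))) := by
      have e1 : Real.exp (-(kp / C1)) ≤ Real.exp (-(kp / (2 * C1))) := by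
        apply Real.exp_le_exp.2
        have : kp / (2 * C1) ≤ kp / C1 :=
          div_le_div_of_nonneg_left (by linarith) (by linarith) (by linarith)
        linarith
      calc C1 * Real.exp (-(kp / C1)) * x ≤ C1 * Real.exp (-(kp / (2 * C1))) * (2 * η) := by
            apply mul_le_mul _ (by linarith) hx0.le (by positivity)
            exact mul_le_mul_of_nonneg_left e1 (by linarith)
        _ = η * (2 * C1 * Real.exp (-(kp / (2 * C1)))) := by ring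
    have h8 : 2 / Real.sqrt Q = 1 / Real.sqrt Q + 1 / Real.sqrt Q := by ring
    have h9 : (C1 * Real.exp (-(kp / C1)) + 1 / Q) * x = C1 * Real.exp (-(kp / C1)) * x + 1 / Q * x := by
      ring
    rw [h9] at hIsum
    rw [h1]
    linarith
  obtain ⟨μ, hμ⟩ : ∃ μ : ℤ → (Σ r : ℕ, DirichletCharacter ℂ r) → ℂ, μ = fun (m : ℤ) p =>
    if p = p0 then 1 else if p = ⟨r, ψ⟩ then -(((m : ℝ) ^ (β - 1) : ℝ) : ℂ) else 0 := ⟨_, rfl⟩
  have hμ0 : ∀ m, μ m p0 = 1 := fun m => by rw [hμ]; beta_reduce; rw [if_pos rfl]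
  have hμ1 : ∀ m, μ m ⟨r, ψ⟩ = -(((m : ℝ) ^ (β - 1) : ℝ) : ℂ) := fun m => by
    rw [hμ]; beta_reduce; rw [if_neg hneψ, if_pos rfl]
  have hμ2 : ∀ m p, p ≠ p0 → p ≠ ⟨r, ψ⟩ → μ m p = 0 := fun m p h h' => by
    rw [hμ]; beta_reduce; rw [if_neg h, if_neg h']
  have hμX : ∀ m p, MX ⟨r, ψ⟩ (fun m => (m : ℝ) ^ (β - 1)) m p = μ m p := by
    intro m p
    rw [hμ]
    rfl
  have hXr : (1 : ℝ) ≤ X := by exact_mod_cast hX1
  refine ⟨by rw [← hηd]; exact hηx, ?_⟩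
  rw [← hηd]
  refine ⟨hη0, ?_, hmemψ, hψ2, fun h => absurd h hneψ, ?_, ?_, ?_⟩
  · rw [hηd]
    have : 0 ≤ (X : ℝ) ^ (β - 1) := by positivity
    linarith
  · intro m hm _
    have hm1 : (1 : ℝ) ≤ (m : ℝ) := by
      have : (1 : ℤ) ≤ m := by omega
      exact_mod_cast this
    exact Real.rpow_nonneg (by linarith) _
  · intro m hm _
    have hmX : (X : ℝ) ≤ (m : ℝ) := by exact_mod_cast hm
    rw [hηd]
    have : (m : ℝ) ^ (β - 1) ≤ (X : ℝ) ^ (β - 1) :=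
      Real.rpow_le_rpow_of_nonpos hX0 hmX (by linarith)
    linarith
  · refine ⟨eb, fun p _ => heb0 p, hsum, ?_⟩
    intro m hm hm4 p hp
    rw [hμX, heb, hI]
    simp only
    by_cases h : p = p0
    · have h'' : p0 ≠ (⟨r, ψ⟩ : Σ r : ℕ, DirichletCharacter ℂ r) := fun h3 => hneψ h3.symm
      rw [h, hμ0, if_pos rfl, if_neg h'', add_zero, hq]
      exact hB0 Q X (hreg.mono hK0 k4) m hm hm4
    · by_cases h' : p = ⟨r, ψ⟩
      · rw [h', hμ1, if_neg hneψ, if_pos rfl, if_pos rfl, sub_neg_eq_add]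
        have h1 := hB1 Q X (hreg.mono hK0 k6) ⟨r, ψ⟩ hr0 β hβ12 hβ.le m hm hm4
        rw [← hq'] at h1
        refine le_trans h1 ?_
        linarith
      · rw [hμ2 _ p h h', if_neg h, if_neg h', if_neg h', sub_zero, add_zero, hq]
        exact hB Q X (hreg.mono hK0 k5) p (mem_PC.1 hp).1 m hm hm4

end Pool.Agent.H9U
end

-- from Lib.H9U.A2
section

/-!
# H9U, chunk A2 (S/M): the level
-/

open Finset

namespace Pool.Agent.H9U

open Pool.Agent.Lib.H68T Pool.Agent.Lib.H18Q Pool.Agent.Lib.H59P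

/-- Proof. Copy `mdl_level` (`H59P/A6.lean`) with `mdb_good`, `mdb_exc`. -/
theorem mdb_level : ∃ c1 K C : ℝ, 0 < c1 ∧ c1 < 1 ∧ 1 ≤ K ∧ 1 ≤ C ∧ ∀ Q1 : ℕ, K ≤ Real.log Q1 →
    ∃ Q : ℕ, Q ≤ Q1 ∧ Real.log Q1 ≤ 200 * Real.log Q ∧
      ((∀ kp : ℝ, K ≤ kp → ∀ X : ℕ, RegP K Q X → kp * Real.log Q ≤ Real.log X →
        MdB Q X 1 (C * Real.exp (-(kp / C)) + (Q : ℝ) ^ (-(1 / 4) : ℝ)) p0 (fun _ => 0)) ∨
      ∃ (r : ℕ) (_ : NeZero r) (ψ : DirichletCharacter ℂ r) (β : ℝ), ExcZ c1 Q r ψ β ∧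
        ∀ kp : ℝ, K ≤ kp → ∀ X : ℕ, RegP K Q X → kp * Real.log Q ≤ Real.log X →
        (1 - β) * Real.log Q / 2 ≤ 1 - (X : ℝ) ^ (β - 1) ∧
        MdB Q X (1 - (X : ℝ) ^ (β - 1)) (C * Real.exp (-(kp / C)) + (Q : ℝ) ^ (-(1 / 4) : ℝ)) ⟨r, ψ⟩
          (fun m => (m : ℝ) ^ (β - 1))) := by
  obtain ⟨c1, K1, C1, hc1, hc11, hK1, hC1, hexc⟩ := mdb_exc
  obtain ⟨c2, K2, hc2, hgb⟩ := good_below
  obtain ⟨c, hcd⟩ : ∃ c, c = min c1 c2 := ⟨_, rfl⟩
  have hc0 : 0 < c := by rw [hcd]; exact lt_min hc1 hc2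
  have hcc1 : c ≤ c1 := by rw [hcd]; exact min_le_left _ _
  have hcc2 : c ≤ c2 := by rw [hcd]; exact min_le_right _ _
  obtain ⟨K3, C3, hK3, hC3, hg3⟩ := mdb_good c hc0
  obtain ⟨K4, C4, hK4, hC4, hg4⟩ := mdb_good c2 hc2
  obtain ⟨K, hKd⟩ : ∃ K, K = K1 + 200 * |K2| + K3 + K4 + 400 := ⟨_, rfl⟩
  obtain ⟨C, hCd⟩ : ∃ C, C = C1 + C3 + C4 := ⟨_, rfl⟩
  have ha2 := abs_nonneg K2
  have hle2 := le_abs_self K2
  have he2 : (2 : ℝ) ≤ Real.exp 1 := by linarith [Real.exp_one_gt_d9]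
  refine ⟨c1, K, C, hc1, hc11, by linarith, by linarith, ?_⟩
  intro Q1 hQ1
  have hK0 : 0 ≤ K := by linarith
  have hQ1pos : (0 : ℝ) < Q1 := by
    have h1 : Q1 ≠ 0 := by
      rintro rfl
      rw [Nat.cast_zero, Real.log_zero] at hQ1
      linarith
    exact_mod_cast Nat.pos_of_ne_zero h1
  -- errors
  have herr : ∀ C' : ℝ, 1 ≤ C' → C' ≤ C → ∀ kp : ℝ, 0 ≤ kp → ∀ Q : ℕ,
      C' * Real.exp (-(kp / C')) + (Q : ℝ) ^ (-(1 / 4) : ℝ) ≤
      C * Real.exp (-(kp / C)) + (Q : ℝ) ^ (-(1 / 4) : ℝ) := by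
    intro C' h1 h2 kp hkp Q
    have h3 : Real.exp (-(kp / C')) ≤ Real.exp (-(kp / C)) := by
      apply Real.exp_le_exp.2
      have : kp / C ≤ kp / C' := div_le_div_of_nonneg_left hkp (by linarith) h2
      linarith
    have h4 := mul_le_mul h2 h3 (Real.exp_pos _).le (by linarith)
    linarith
  have hmono : ∀ (Q X : ℕ) (η E E' : ℝ) (px : Ch) (th : ℤ → ℝ), E ≤ E' → MdB Q X η E px th →
      MdB Q X η E' px th := by
    intro Q X η E E' px th hE h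
    refine ⟨h.eta_pos, h.eta_le, h.mem, h.real, h.triv, h.nonneg, h.le, ?_⟩
    obtain ⟨eb, h1, h2, h3⟩ := h.cf
    exact ⟨eb, h1, h2.trans (mul_le_mul_of_nonneg_left hE h.eta_pos.le), h3⟩
  by_cases hG : Good c Q1
  · refine ⟨Q1, le_rfl, by linarith, Or.inl ?_⟩
    intro kp hkp X hreg hkQ
    exact hmono _ _ _ _ _ _ _ (herr C3 hC3 (by linarith) kp (by linarith) Q1)
      (hg3 kp (by linarith) Q1 X (hreg.mono hK0 (by linarith)) hkQ hG)
  · unfold Good at hG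
    push Not at hG
    obtain ⟨r, hr, ψ, hrQ, hprim, hne, hsq, β, hβ1, hβ2, hz⟩ := hG
    have hβ : β < 1 := by
      rcases lt_or_eq_of_le hβ2 with h | h
      · exact h
      · exfalso
        rw [h] at hz
        refine DirichletCharacter.LFunction_ne_zero_of_one_le_re ψ (Or.inl hne) ?_ hz
        simp
    by_cases hr100 : r ^ 100 ≤ Q1
    · have hsm : (1 - β) * Real.log Q1 ≤ c1 := by
        have h1 : 1 - β ≤ c / Real.log Q1 := by linarith
        rw [le_div_iff₀ (by linarith)] at h1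
        linarith
      refine ⟨Q1, le_rfl, by linarith, Or.inr ⟨r, hr, ψ, β,
        ⟨hr100, hprim, hne, hsq, hβ, hz, hsm⟩, ?_⟩⟩
      intro kp hkp X hreg hkQ
      obtain ⟨h1, h2⟩ := hexc kp (by linarith) Q1 X (hreg.mono hK0 (by linarith)) hkQ r ψ hr100
        hprim hne hsq β hβ hz hsm
      exact ⟨h1, hmono _ _ _ _ _ _ _ (herr C1 hC1 (by linarith) kp (by linarith) Q1) h2⟩
    · -- large conductor
      push Not at hr100
      have hr100' : (Q1 : ℝ) < (r : ℝ) ^ 100 := by exact_mod_cast hr100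
      have hrpos : (0 : ℝ) < r := by exact_mod_cast Nat.pos_of_ne_zero (NeZero.ne r)
      have hlr : Real.log Q1 ≤ 100 * Real.log r := by
        have h1 := Real.log_le_log hQ1pos hr100'.le
        rw [Real.log_pow] at h1
        exact_mod_cast h1
      obtain ⟨u, hu⟩ : ∃ u, u = Real.log Q1 / 200 := ⟨_, rfl⟩
      have hu1 : 2 ≤ u := by rw [hu, le_div_iff₀ (by norm_num)]; linarith
      have hlr' : u + 1 ≤ Real.log r := by
        have : Real.log Q1 = 200 * u := by rw [hu]; ring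
        linarith
      have hexplr : Real.exp 1 ≤ r := by
        rw [← Real.le_log_iff_exp_le hrpos]
        linarith
      have hr2 : (2 : ℝ) ≤ r := by linarith
      have hr2' : 2 ≤ r := by exact_mod_cast hr2
      have hcast : ((r - 1 : ℕ) : ℝ) = r - 1 := by
        rw [Nat.cast_sub (by omega), Nat.cast_one]
      have hr1pos : (0 : ℝ) < ((r - 1 : ℕ) : ℝ) := by rw [hcast]; linarith
      have hlow : u ≤ Real.log ((r - 1 : ℕ) : ℝ) := by
        rw [Real.le_log_iff_exp_le hr1pos, hcast]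
        have h1 : Real.exp (u + 1) ≤ r := by
          rw [← Real.le_log_iff_exp_le hrpos]; exact hlr'
        rw [Real.exp_add] at h1
        have h2 : Real.exp u * 2 ≤ Real.exp u * Real.exp 1 :=
          mul_le_mul_of_nonneg_left he2 (Real.exp_pos _).le
        have h3 : 1 ≤ Real.exp u := Real.one_le_exp (by linarith)
        linarith
      have hKr : K2 ≤ r := by
        have h1 : |K2| ≤ u := by
          rw [hu, le_div_iff₀ (by norm_num)]
          linarith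
        have h3 : u + 1 ≤ Real.exp u := Real.add_one_le_exp _
        have h4 : Real.exp u ≤ ((r - 1 : ℕ) : ℝ) := by
          rw [← Real.le_log_iff_exp_le hr1pos]; exact hlow
        rw [hcast] at h4
        linarith
      have hexc' : Exc c2 Q1 r ψ β := by
        refine ⟨hrQ, hprim, hne, hsq, ?_, hβ, hz⟩
        have : c / Real.log Q1 ≤ c2 / Real.log Q1 :=
          div_le_div_of_nonneg_right hcc2 (by linarith)
        linarith
      have hG2 := hgb Q1 r ψ β hKr hexc'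
      refine ⟨r - 1, by omega, ?_, Or.inl ?_⟩
      · have : Real.log Q1 = 200 * u := by rw [hu]; ring
        linarith
      · intro kp hkp X hreg hkQ
        exact hmono _ _ _ _ _ _ _ (herr C4 hC4 (by linarith) kp (by linarith) (r - 1))
          (hg4 kp (by linarith) (r - 1) X (hreg.mono hK0 (by linarith)) hkQ hG2)

end Pool.Agent.H9U
end

-- from Lib.H9U.L5A
section

/-!
# H9U, chunk L5A (M): the first moment is multiplicative
-/

open Finset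

namespace Pool.Agent.H9U

open Pool.Agent.Lib.H59P (Ch bx)

/-- Proof. `t ↦ (t mod a, t mod b)` (coordinatewise) is a bijection from `bx d (a b)` to `bx d a × bx d b` (`Nat.chineseRemainder` in each coordinate;
or injective and equal cardinalities), and `f` and `g` depend only on the residues. -/
theorem L5A_box (d a b : ℕ) (ha : 0 < a) (hb : 0 < b) (hab : Nat.Coprime a b) (f g : (Fin d → ℤ) → ℝ)
    (hf : ∀ t t' : Fin d → ℤ, (∀ j, (a : ℤ) ∣ t j - t' j) → f t = f t')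
    (hg : ∀ t t' : Fin d → ℤ, (∀ j, (b : ℤ) ∣ t j - t' j) → g t = g t') :
    ∑ t ∈ bx d (a * b), f (iv t) * g (iv t) = (∑ t ∈ bx d a, f (iv t)) * ∑ t ∈ bx d b, g (iv t) := by
  classical
  have hmod : ∀ (c : ℕ) (t : Fin d → ℕ) (j : Fin d), (c : ℤ) ∣ iv t j - iv (fun j => t j % c) j := by
    intro c t j
    refine ⟨((t j / c : ℕ) : ℤ), ?_⟩
    have h := Nat.mod_add_div (t j) c
    have h2 : (t j : ℤ) = ((t j % c : ℕ) : ℤ) + (c : ℤ) * ((t j / c : ℕ) : ℤ) := by exact_mod_cast h.symm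
    change (t j : ℤ) - ((t j % c : ℕ) : ℤ) = _
    rw [h2]
    ring
  rw [Finset.sum_mul_sum, ← Finset.sum_product']
  refine Finset.sum_bij (fun (t : Fin d → ℕ) _ => ((fun j => t j % a : Fin d → ℕ), (fun j => t j % b : Fin d → ℕ))) ?_ ?_ ?_ ?_
  · intro t _
    rw [Finset.mem_product]
    refine ⟨Fintype.mem_piFinset.2 fun j => Finset.mem_range.2 (Nat.mod_lt _ ha), Fintype.mem_piFinset.2 fun j => Finset.mem_range.2 (Nat.mod_lt _ hb)⟩
  · intro t ht t' ht' h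
    funext j
    have h1 : t j % a = t' j % a := congrFun (congrArg Prod.fst h) j
    have h2 : t j % b = t' j % b := congrFun (congrArg Prod.snd h) j
    have h3 : t j ≡ t' j [MOD (a * b)] := (Nat.modEq_and_modEq_iff_modEq_mul hab).1 ⟨h1, h2⟩
    exact Nat.ModEq.eq_of_lt_of_lt h3 (Finset.mem_range.1 (Fintype.mem_piFinset.1 ht j)) (Finset.mem_range.1 (Fintype.mem_piFinset.1 ht' j))
  · rintro ⟨x, y⟩ hxy
    rw [Finset.mem_product] at hxy
    have hx : ∀ j, x j < a := fun j => Finset.mem_range.1 (Fintype.mem_piFinset.1 hxy.1 j)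
    have hy : ∀ j, y j < b := fun j => Finset.mem_range.1 (Fintype.mem_piFinset.1 hxy.2 j)
    refine ⟨fun j => (Nat.chineseRemainder hab (x j) (y j) : ℕ), ?_, ?_⟩
    · exact Fintype.mem_piFinset.2 fun j => Finset.mem_range.2 (Nat.chineseRemainder_lt_mul hab (x j) (y j) ha.ne' hb.ne')
    · refine Prod.ext (funext fun j => ?_) (funext fun j => ?_)
      · have h1 := (Nat.chineseRemainder hab (x j) (y j)).2.1
        unfold Nat.ModEq at h1
        change (Nat.chineseRemainder hab (x j) (y j) : ℕ) % a = x j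
        rw [h1, Nat.mod_eq_of_lt (hx j)]
      · have h1 := (Nat.chineseRemainder hab (x j) (y j)).2.2
        unfold Nat.ModEq at h1
        change (Nat.chineseRemainder hab (x j) (y j) : ℕ) % b = y j
        rw [h1, Nat.mod_eq_of_lt (hy j)]
  · intro t _
    change f (iv t) * g (iv t) = f (iv fun j => t j % a) * g (iv fun j => t j % b)
    rw [hf _ _ (hmod a t), hg _ _ (hmod b t)]

theorem l5a_per (f : ℤ → ℂ) (P : ℕ) (hf : ∀ m, f (m + P) = f m) (m m' : ℤ) (h : (P : ℤ) ∣ m - m') : f m = f m' := by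
  obtain ⟨c, hc⟩ := h
  have h1 : ∀ (j : ℕ) (m : ℤ), f (m + j * P) = f m := fun j m => Pool.Agent.Lib.H59P.m3c_per f P hf j m
  rcases Int.eq_nat_or_neg c with ⟨j, hj | hj⟩
  · have e : m = m' + j * P := by
      rw [hj] at hc
      linear_combination hc
    rw [e, h1]
  · have e : m' = m + j * P := by
      rw [hj] at hc
      linear_combination -hc
    rw [e, h1]

theorem l5a_fper {k d : ℕ} (S : Sys k d) (a : ℕ) (β : Fin k → ℤ) (F : Fin k → ℤ → ℂ) (hF : ∀ i m, F i (m + a) = F i m)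
    (n : ℤ) (t : Fin d → ℤ) : ∏ i, F i (S.val β (n + a) t i) = ∏ i, F i (S.val β n t i) := by
  refine Finset.prod_congr rfl fun i _ => l5a_per (F i) a (hF i) _ _ ⟨S.a i, ?_⟩
  unfold Sys.val Sys.lin
  ring

theorem l5a_tper {k d : ℕ} (S : Sys k d) (a : ℕ) (β : Fin k → ℤ) (F : Fin k → ℤ → ℂ) (hF : ∀ i m, F i (m + a) = F i m)
    (n : ℤ) (t t' : Fin d → ℤ) (h : ∀ j, (a : ℤ) ∣ t j - t' j) : ∏ i, F i (S.val β n t i) = ∏ i, F i (S.val β n t' i) := by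
  refine Finset.prod_congr rfl fun i _ => l5a_per (F i) a (hF i) _ _ ?_
  have e : S.val β n t i - S.val β n t' i = ∑ j, S.c i j * (t j - t' j) := by
    unfold Sys.val Sys.lin
    simp only [mul_sub, Finset.sum_sub_distrib]
    ring
  rw [e]
  exact Finset.dvd_sum fun j _ => Dvd.dvd.mul_left (h j) _

/-- Proof. For fixed `t`: `M3d` (`H59P/M3D.lean`) for the sum over `n`, the norm of a product; then `L5A_box`. -/
theorem L5A_two {k d : ℕ} (S : Sys k d) (a b : ℕ) (ha : 0 < a) (hb : 0 < b) (hab : Nat.Coprime a b) (β : Fin k → ℤ)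
    (F G : Fin k → ℤ → ℂ) (hF : ∀ i m, F i (m + a) = F i m) (hG : ∀ i m, G i (m + b) = G i m) :
    FM S (a * b) β (fun i m => F i m * G i m) = FM S a β F * FM S b β G := by
  unfold FM
  rw [← L5A_box d a b ha hb hab (fun t => ‖∑ n ∈ range a, ∏ i, F i (S.val β n t i)‖) (fun t => ‖∑ n ∈ range b, ∏ i, G i (S.val β n t i)‖)
    (fun t t' h => by
      refine congrArg _ (Finset.sum_congr rfl fun n _ => l5a_tper S a β F hF n t t' h))
    (fun t t' h => by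
      refine congrArg _ (Finset.sum_congr rfl fun n _ => l5a_tper S b β G hG n t t' h))]
  refine Finset.sum_congr rfl fun t _ => ?_
  rw [← norm_mul, ← Pool.Agent.Lib.H59P.M3d (fun n => ∏ i, F i (S.val β n (iv t) i)) (fun n => ∏ i, G i (S.val β n (iv t) i)) a b ha hb hab
    (fun m => l5a_fper S a β F hF m (iv t)) (fun m => l5a_fper S b β G hG m (iv t))]
  refine congrArg _ (Finset.sum_congr rfl fun n _ => ?_)
  exact Finset.prod_mul_distrib

/-- Proof. Induction over `P` with `L5A_two`, as `C1_prod` (`H59T/C1.lean`); `FM S 1 β (fun _ _ => 1) = 1`. -/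
theorem L5A_prod {k d : ℕ} (S : Sys k d) (β : Fin k → ℤ) (P : Finset ℕ) (q : ℕ → ℕ) (hq : ∀ l ∈ P, 0 < q l)
    (hc : ∀ l ∈ P, ∀ l' ∈ P, l ≠ l' → Nat.Coprime (q l) (q l')) (F : ℕ → Fin k → ℤ → ℂ)
    (hF : ∀ l ∈ P, ∀ i m, F l i (m + q l) = F l i m) :
    (∀ i m, (∏ l ∈ P, F l i (m + (∏ l ∈ P, q l : ℕ))) = ∏ l ∈ P, F l i m) ∧
    FM S (∏ l ∈ P, q l) β (fun i m => ∏ l ∈ P, F l i m) = ∏ l ∈ P, FM S (q l) β (F l) := by
  classical
  induction P using Finset.induction_on with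
  | empty =>
    refine ⟨fun i m => by simp, ?_⟩
    have e : ∀ t ∈ bx d 1, ‖∑ n ∈ range 1, ∏ i : Fin k, (fun _ _ => (1 : ℂ)) i (S.val β n (iv t) i)‖ = 1 := by
      intro t _
      simp
    have hc1 : (bx d 1).card = 1 := by
      unfold Pool.Agent.Lib.H59P.bx
      rw [Fintype.card_piFinset]
      simp
    have h2 : FM S 1 β (fun _ _ => (1 : ℂ)) = 1 := by
      unfold FM
      rw [Finset.sum_congr rfl e, Finset.sum_const, hc1]
      simp
    rw [Finset.prod_empty, Finset.prod_empty]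
    simpa using h2
  | insert l P hl ih =>
    obtain ⟨i1, i2⟩ := ih (fun m hm => hq m (mem_insert_of_mem hm))
      (fun m hm m' hm' => hc m (mem_insert_of_mem hm) m' (mem_insert_of_mem hm'))
      (fun m hm => hF m (mem_insert_of_mem hm))
    have hl1 : ∀ i m, F l i (m + q l) = F l i m := hF l (mem_insert_self _ _)
    refine ⟨fun i m => ?_, ?_⟩
    · rw [Finset.prod_insert hl, Finset.prod_insert hl, Finset.prod_insert hl]
      have h1 : F l i (m + ((q l * ∏ l ∈ P, q l : ℕ) : ℤ)) = F l i m := by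
        refine l5a_per (F l i) (q l) (hl1 i) _ _ ⟨((∏ l ∈ P, q l : ℕ) : ℤ), ?_⟩
        push_cast
        ring
      have h2 : (∏ x ∈ P, F x i (m + ((q l * ∏ l ∈ P, q l : ℕ) : ℤ))) = ∏ x ∈ P, F x i m := by
        refine l5a_per (fun m => ∏ x ∈ P, F x i m) (∏ l ∈ P, q l) (i1 i) _ _ ⟨(q l : ℤ), ?_⟩
        push_cast
        ring
      rw [h1, h2]
    · have e1 : (fun i m => ∏ x ∈ insert l P, F x i m) = fun i m => F l i m * ∏ x ∈ P, F x i m := by
        funext i m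
        rw [Finset.prod_insert hl]
      rw [e1, Finset.prod_insert hl, Finset.prod_insert hl, ← i2]
      refine L5A_two S (q l) (∏ m ∈ P, q m) (hq l (mem_insert_self _ _))
        (Finset.prod_pos fun m hm => hq m (mem_insert_of_mem hm)) ?_ β (F l) _ hl1 i1
      refine Nat.Coprime.prod_right fun m hm => ?_
      refine hc l (mem_insert_self _ _) m (mem_insert_of_mem hm) ?_
      intro h
      rw [h] at hl
      exact hl hm

end Pool.Agent.H9U
end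

-- from Lib.H9U.L6A
section

/-!
# H9U, chunk L6A (S/M): the first moment over a box
-/

open Finset

namespace Pool.Agent.H9U

open Pool.Agent.Lib.H59P (Ch bx)

/-- Proof. `r = L/N + 1 ≤ 2 L/N`: `bx d L ⊆ bx d (r N)`, and `t ↦ (t / N, t % N)` (coordinatewise) is a bijection from `bx d (r N)` to `bx d r × bx d N`, and `f` depends
only on the residues. -/
theorem L6A_box (d N L : ℕ) (hN : 0 < N) (hL : N ≤ L) (f : (Fin d → ℤ) → ℝ) (h0 : ∀ t, 0 ≤ f t)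
    (hf : ∀ t t' : Fin d → ℤ, (∀ j, (N : ℤ) ∣ t j - t' j) → f t = f t') :
    ∑ t ∈ bx d L, f (iv t) ≤ (2 * (L : ℝ) / N) ^ d * ∑ t ∈ bx d N, f (iv t) := by
  classical
  obtain ⟨r, hr⟩ : ∃ r, r = L / N + 1 := ⟨_, rfl⟩
  have hN0 : (0 : ℝ) < N := by exact_mod_cast hN
  have e1 : ∀ t ∈ bx d L, f (iv t) = f (iv (fun j => t j % N)) := by
    intro t _
    refine hf _ _ fun j => ?_
    unfold iv
    refine ⟨((t j / N : ℕ) : ℤ), ?_⟩
    have h1 := Nat.div_add_mod (t j) N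
    have h2 : ((t j : ℕ) : ℤ) = ((N * (t j / N) + t j % N : ℕ) : ℤ) := by rw [h1]
    push_cast at h2 ⊢
    linarith
  rw [Finset.sum_congr rfl e1]
  have hinj : Set.InjOn (fun t : Fin d → ℕ => ((fun j => t j / N, fun j => t j % N) : (Fin d → ℕ) × (Fin d → ℕ)))
      (bx d L : Set (Fin d → ℕ)) := by
    intro t _ t' _ h
    simp only [Prod.mk.injEq] at h
    funext j
    have h1 := congrFun h.1 j
    have h2 := congrFun h.2 j
    have h3 := Nat.div_add_mod (t j) N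
    have h4 := Nat.div_add_mod (t' j) N
    rw [← h3, ← h4, h1, h2]
  have e2 : ∑ t ∈ bx d L, f (iv (fun j => t j % N)) =
      ∑ x ∈ (bx d L).image (fun t : Fin d → ℕ => ((fun j => t j / N, fun j => t j % N) : (Fin d → ℕ) × (Fin d → ℕ))),
        f (iv x.2) := by
    rw [Finset.sum_image hinj]
  have hsub : (bx d L).image (fun t : Fin d → ℕ => ((fun j => t j / N, fun j => t j % N) : (Fin d → ℕ) × (Fin d → ℕ))) ⊆
      bx d r ×ˢ bx d N := by
    intro x hx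
    rw [mem_image] at hx
    obtain ⟨t, ht, rfl⟩ := hx
    unfold bx at ht ⊢
    rw [Fintype.mem_piFinset] at ht
    rw [mem_product, Fintype.mem_piFinset, Fintype.mem_piFinset]
    refine ⟨fun j => ?_, fun j => ?_⟩
    · have h1 := mem_range.1 (ht j)
      rw [mem_range, hr]
      exact Nat.lt_succ_of_le (Nat.div_le_div_right h1.le)
    · exact mem_range.2 (Nat.mod_lt _ hN)
  rw [e2]
  refine (Finset.sum_le_sum_of_subset_of_nonneg hsub fun x _ _ => h0 _).trans ?_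
  rw [Finset.sum_product]
  show ∑ _x ∈ bx d r, ∑ y ∈ bx d N, f (iv y) ≤ _
  rw [Finset.sum_const, nsmul_eq_mul]
  refine mul_le_mul_of_nonneg_right ?_ (Finset.sum_nonneg fun t _ => h0 _)
  have h3 : (bx d r).card = r ^ d := by
    unfold bx
    rw [Fintype.card_piFinset_const, card_range]
  rw [h3]
  push_cast
  refine pow_le_pow_left₀ (by positivity) ?_ d
  rw [hr]
  push_cast
  have h4 : ((L / N : ℕ) : ℝ) ≤ (L : ℝ) / N := Nat.cast_div_le
  have h5 : (1 : ℝ) ≤ (L : ℝ) / N := by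
    rw [le_div_iff₀ hN0, one_mul]
    exact_mod_cast hL
  have h6 : 2 * (L : ℝ) / N = (L : ℝ) / N + (L : ℝ) / N := by ring
  rw [h6]
  linarith

/-- the value of the forms at points congruent modulo `N` -/
theorem l6a_val {k d : ℕ} (S : Sys k d) (b : Fin k → ℤ) (N : ℤ) (n : ℤ) (t t' : Fin d → ℤ)
    (h : ∀ j, N ∣ t j - t' j) (i : Fin k) : ∃ m : ℤ, S.val b n t i = S.val b n t' i + m * N := by
  choose c hc using h
  refine ⟨∑ j, S.c i j * c j, ?_⟩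
  unfold Sys.val Sys.lin
  have h1 : ∑ j, S.c i j * t j = ∑ j, S.c i j * t' j + (∑ j, S.c i j * c j) * N := by
    rw [Finset.sum_mul, ← Finset.sum_add_distrib]
    refine Finset.sum_congr rfl fun j _ => ?_
    have := hc j
    have h2 : t j = t' j + N * c j := by linarith
    rw [h2]
    ring
  rw [h1]
  ring

/-- periodic functions at integer multiples of the period -/
theorem l6a_per (F : ℤ → ℂ) (N : ℕ) (hF : ∀ m, F (m + N) = F m) (j m : ℤ) : F (m + j * N) = F m := by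
  have h1 : ∀ (j : ℕ) (m : ℤ), F (m + (j : ℤ) * N) = F m := by
    intro j
    induction j with
    | zero => intro m; simp
    | succ j ih =>
      intro m
      have : m + ((j + 1 : ℕ) : ℤ) * N = (m + (j : ℤ) * N) + N := by push_cast; ring
      rw [this, hF, ih]
  obtain ⟨n, rfl | rfl⟩ := j.eq_nat_or_neg
  · exact h1 n m
  · have := h1 n (m + (-(n : ℤ)) * N)
    rw [← this]
    congr 1
    ring

/-- the norm of a sum over an interval, for a periodic function -/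
theorem l6a_int (f : ℤ → ℂ) (N : ℕ) (hN : 0 < N) (hf : ∀ m, f (m + N) = f m) (B : ℝ) (hB : ∀ m, ‖f m‖ ≤ B) (H : ℕ) :
    ‖∑ n ∈ range H, f n‖ ≤ ((H : ℝ) / N) * ‖∑ n ∈ range N, f n‖ + 2 * N * B := by
  have h1 := Pool.Agent.Lib.H59P.M3c f N hN hf B hB 0 H
  rw [zero_add, ← Finset.range_eq_Ico] at h1
  have h2 : ∑ n ∈ range H, f n = (∑ n ∈ range H, f n - H * ((∑ n ∈ range N, f n) / N)) +
      H * ((∑ n ∈ range N, f n) / N) := by ring
  rw [h2]
  refine (norm_add_le _ _).trans ?_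
  have h3 : ‖(H : ℂ) * ((∑ n ∈ range N, f n) / N)‖ = ((H : ℝ) / N) * ‖∑ n ∈ range N, f n‖ := by
    rw [norm_mul, norm_div, Complex.norm_natCast, Complex.norm_natCast]
    ring
  rw [h3, add_comm]
  exact add_le_add le_rfl h1

/-- Proof. For each `t`: `M3c` (`H59P/M3C.lean`) with `a = 0`, so `‖∑_{n<H}‖ ≤ (H/N) ‖∑_{n<N}‖ + 2 N B`; sum over `t ∈ bx d L` (`L^d` elements), `L6A_box` with
`f t = ‖∑_{n<N} ∏_i F i (val b n t i)‖` (periodic: `val` changes by multiples of `N`). -/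
theorem L6A_mom {k d : ℕ} (S : Sys k d) (N L H : ℕ) (hN : 0 < N) (hL : N ≤ L) (b : Fin k → ℤ) (F : Fin k → ℤ → ℂ)
    (hF : ∀ i m, F i (m + N) = F i m) (B : ℝ) (hB : ∀ m : Fin k → ℤ, ‖∏ i, F i (m i)‖ ≤ B) :
    ∑ t ∈ bx d L, ‖∑ n ∈ range H, ∏ i, F i (S.val b n (iv t) i)‖ ≤
      (2 * (L : ℝ) / N) ^ d * ((H : ℝ) / N) * FM S N b F + (L : ℝ) ^ d * (2 * N * B) := by
  classical
  have hN0 : (0 : ℝ) < N := by exact_mod_cast hN
  have h1 : ∀ t ∈ bx d L, ‖∑ n ∈ range H, ∏ i, F i (S.val b n (iv t) i)‖ ≤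
      ((H : ℝ) / N) * ‖∑ n ∈ range N, ∏ i, F i (S.val b n (iv t) i)‖ + 2 * N * B := by
    intro t _
    have hper : ∀ m : ℤ, (fun n : ℤ => ∏ i, F i (S.val b n (iv t) i)) (m + N) =
        (fun n : ℤ => ∏ i, F i (S.val b n (iv t) i)) m := by
      intro m
      refine Finset.prod_congr rfl fun i _ => ?_
      have h2 : S.val b (m + N) (iv t) i = S.val b m (iv t) i + S.a i * N := by
        unfold Sys.val Sys.lin
        ring
      rw [h2]
      exact l6a_per (F i) N (hF i) _ _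
    have h3 := l6a_int (fun n : ℤ => ∏ i, F i (S.val b n (iv t) i)) N hN hper B (fun m => hB _) H
    exact h3
  refine (Finset.sum_le_sum h1).trans ?_
  rw [Finset.sum_add_distrib, ← Finset.mul_sum, Finset.sum_const, nsmul_eq_mul]
  have h3 : (bx d L).card = L ^ d := by
    unfold bx
    rw [Fintype.card_piFinset_const, card_range]
  rw [h3]
  have h4 := L6A_box d N L hN hL (fun t => ‖∑ n ∈ range N, ∏ i, F i (S.val b n t i)‖) (fun t => norm_nonneg _)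
    (fun t t' h => by
      show ‖∑ n ∈ range N, ∏ i, F i (S.val b n t i)‖ = ‖∑ n ∈ range N, ∏ i, F i (S.val b n t' i)‖
      congr 1
      refine Finset.sum_congr rfl fun n _ => Finset.prod_congr rfl fun i _ => ?_
      obtain ⟨m, hm⟩ := l6a_val S b N n t t' h i
      rw [hm]
      exact l6a_per (F i) N (hF i) _ _)
  have h5 : ((H : ℝ) / N) * ∑ t ∈ bx d L, ‖∑ n ∈ range N, ∏ i, F i (S.val b n (iv t) i)‖ ≤
      ((H : ℝ) / N) * ((2 * (L : ℝ) / N) ^ d * FM S N b F) :=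
    mul_le_mul_of_nonneg_left h4 (by positivity)
  push_cast
  refine add_le_add (h5.trans (le_of_eq (by ring))) le_rfl

end Pool.Agent.H9U
end

-- from Lib.H9U.U2
section

/-!
# H9U, chunk U2 (M): parallelograms. The trick: on the parallelograms with `h - l = s` the form is the bilinear form `BF`.
-/

open Finset

namespace Pool.Agent.H9U

open Pool.Agent.H44W (ee)
open Pool.Agent.H9S (Bd BF Sx Sy)

theorem u2_cut_ne {X : ℕ} {f : ℤ → ℂ} {m : ℤ} (h : cutJ X f m ≠ 0) : m ∈ JJ X := by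
  by_contra h1
  exact h (if_neg h1)

theorem u2_cut_pos {X : ℕ} {f : ℤ → ℂ} {m : ℤ} (h : m ∈ JJ X) : cutJ X f m = f m := if_pos h

theorem u2_JJ {X : ℕ} {m : ℤ} (h : m ∈ JJ X) : 2 * (X : ℤ) ≤ m ∧ m < 2 * X + X / 4 := by
  unfold JJ at h
  rwa [Finset.mem_Ico] at h

theorem u2_Sx {X : ℕ} {m : ℤ} (h : m ∈ JJ X) : m ∈ Sx X := by
  have h1 := u2_JJ h
  unfold Sx
  rw [Finset.mem_Ico]
  omega

theorem u2_bdcut {X : ℕ} {f : ℤ → ℂ} (hf : Bd f) (m : ℤ) : ‖cutJ X f m‖ ≤ 1 := by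
  unfold cutJ
  split_ifs
  · exact hf m
  · simp

theorem u2_inner (X : ℕ) (F f1 f2 f3 : ℤ → ℂ) (w : ℂ) (l s : ℤ) :
    w * ∑ m ∈ JJ X, f1 m * cutJ X f2 (m + (l + s)) * cutJ X f3 (m + l) * cutJ X F (m + (l + s) + l) =
    ∑ x ∈ Sx X, (cutJ X f2 x * cutJ X f3 (x - s)) * w * cutJ X F (x + l) * cutJ X f1 (x - l - s) := by
  rw [Finset.mul_sum]
  refine Finset.sum_bij_ne_zero (fun m _ _ => m + (l + s)) ?_ ?_ ?_ ?_
  · intro m hm h0
    apply u2_Sx
    apply u2_cut_ne (f := f2)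
    intro h1
    exact h0 (by rw [h1]; ring)
  · intro a _ _ b _ _ hab
    have h1 : a + (l + s) = b + (l + s) := hab
    omega
  · intro x hx h0
    have h1 : x - l - s ∈ JJ X := by
      apply u2_cut_ne (f := f1)
      intro h1
      exact h0 (by rw [h1]; ring)
    refine ⟨x - l - s, h1, ?_, by ring⟩
    intro h2
    apply h0
    rw [u2_cut_pos h1, ← h2]
    have e1 : x - l - s + (l + s) = x := by ring
    have e2 : x - l - s + l = x - s := by ring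
    rw [e1, e2]
    ring
  · intro m hm h0
    have e1 : m + (l + s) - l - s = m := by ring
    have e2 : m + (l + s) - s = m + l := by ring
    rw [e1, e2, u2_cut_pos hm]
    ring

theorem u2_shift (X : ℕ) (F f1 f2 f3 : ℤ → ℂ) (W : ℤ → ℤ → ℂ) (l : ℤ) :
    ∑ h ∈ Sy X, W h l *
      ∑ m ∈ JJ X, f1 m * cutJ X f2 (m + h) * cutJ X f3 (m + l) * cutJ X F (m + h + l) =
    ∑ s ∈ Sy X, (if l + s ∈ Sy X then W (l + s) l else 0) *
      ∑ m ∈ JJ X, f1 m * cutJ X f2 (m + (l + s)) * cutJ X f3 (m + l) * cutJ X F (m + (l + s) + l) := by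
  refine Finset.sum_bij_ne_zero (fun h _ _ => h - l) ?_ ?_ ?_ ?_
  · intro h hh h0
    have h1 : ∑ m ∈ JJ X, f1 m * cutJ X f2 (m + h) * cutJ X f3 (m + l) * cutJ X F (m + h + l) ≠ 0 := by
      intro h2
      exact h0 (by rw [h2]; ring)
    obtain ⟨m, hm, hm0⟩ := Finset.exists_ne_zero_of_sum_ne_zero h1
    have h2 : m + h ∈ JJ X := by
      apply u2_cut_ne (f := f2)
      intro h3
      exact hm0 (by rw [h3]; ring)
    have h3 : m + l ∈ JJ X := by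
      apply u2_cut_ne (f := f3)
      intro h4
      exact hm0 (by rw [h4]; ring)
    have h4 := u2_JJ h2
    have h5 := u2_JJ h3
    show h - l ∈ Sy X
    unfold Sy
    rw [Finset.mem_Ioo]
    omega
  · intro a _ _ b _ _ hab
    have h1 : a - l = b - l := hab
    omega
  · intro s hs h0
    have h1 : l + s ∈ Sy X := by
      by_contra h1
      exact h0 (by rw [if_neg h1]; ring)
    refine ⟨l + s, h1, ?_, by ring⟩
    rw [if_pos h1] at h0
    exact h0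
  · intro h hh h0
    have e1 : l + (h - l) = h := by ring
    rw [e1, if_pos hh]

theorem u2_id (X : ℕ) (F : ℤ → ℂ) (W : ℤ → ℤ → ℂ) (f1 f2 f3 : ℤ → ℂ) :
    ∑ h ∈ Sy X, ∑ l ∈ Sy X, W h l *
      ∑ m ∈ JJ X, f1 m * cutJ X f2 (m + h) * cutJ X f3 (m + l) * cutJ X F (m + h + l) =
    ∑ s ∈ Sy X, BF (Sx X) (Sy X) (cutJ X F) (fun z => cutJ X f1 (z - s))
      (fun x => cutJ X f2 x * cutJ X f3 (x - s)) (fun y => if y + s ∈ Sy X then W (y + s) y else 0) := by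
  rw [Finset.sum_comm]
  rw [Finset.sum_congr rfl fun l _ => u2_shift X F f1 f2 f3 W l]
  rw [Finset.sum_comm]
  refine Finset.sum_congr rfl fun s _ => ?_
  unfold BF
  rw [Finset.sum_comm (s := Sx X)]
  refine Finset.sum_congr rfl fun l _ => ?_
  exact u2_inner X F f1 f2 f3 _ l s

theorem u2_num (κ : ℝ) (hκ : 0 < κ) : ∃ X0 : ℕ, ∀ X : ℕ, X0 ≤ X → 1 ≤ X ∧
    8 * (1 + Real.log ((4 * X + 1 : ℕ) : ℝ)) ≤ (X : ℝ) ^ (κ / 2) := by
  have h1 : ∀ᶠ X : ℕ in Filter.atTop, 8 * (1 + 4 / κ * 5 ^ (κ / 4)) ≤ (X : ℝ) ^ (κ / 4) :=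
    ((tendsto_rpow_atTop (by positivity : 0 < κ / 4)).comp
      tendsto_natCast_atTop_atTop).eventually_ge_atTop _
  obtain ⟨X0, hX0⟩ := Filter.eventually_atTop.1 (h1.and (Filter.eventually_ge_atTop 1))
  refine ⟨X0, fun X hX => ?_⟩
  obtain ⟨h2, h3⟩ := hX0 X hX
  refine ⟨h3, ?_⟩
  have hX1 : (1 : ℝ) ≤ X := by exact_mod_cast h3
  have h4 : Real.log ((4 * X + 1 : ℕ) : ℝ) ≤ (5 * (X : ℝ)) ^ (κ / 4) / (κ / 4) := by
    have h5 : Real.log ((4 * X + 1 : ℕ) : ℝ) ≤ Real.log (5 * (X : ℝ)) := by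
      apply Real.log_le_log (by positivity)
      push_cast
      linarith
    exact h5.trans (Real.log_le_rpow_div (by positivity) (by positivity))
  rw [Real.mul_rpow (by norm_num) (by positivity)] at h4
  have h6 : (1 : ℝ) ≤ (X : ℝ) ^ (κ / 4) := Real.one_le_rpow hX1 (by positivity)
  have h7 : (X : ℝ) ^ (κ / 2) = (X : ℝ) ^ (κ / 4) * (X : ℝ) ^ (κ / 4) := by
    rw [← Real.rpow_add (by linarith)]
    congr 1
    ring
  have h8 : (5 : ℝ) ^ (κ / 4) * (X : ℝ) ^ (κ / 4) / (κ / 4) =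
      4 / κ * 5 ^ (κ / 4) * (X : ℝ) ^ (κ / 4) := by
    field_simp
  rw [h8] at h4
  rw [h7]
  have h9 : 8 * (1 + Real.log ((4 * X + 1 : ℕ) : ℝ)) ≤
      8 * (1 + 4 / κ * 5 ^ (κ / 4)) * (X : ℝ) ^ (κ / 4) := by
    nlinarith
  exact h9.trans (mul_le_mul_of_nonneg_right h2 (by linarith))

/-- Proof. Put `s = h - l` (the terms with `s ∉ (-X, X)` vanish: `m + h` and `m + l` are both in `JJ X`, an interval of length `≤ X/4`). For fixed
`s` substitute `x = m + h = m + l + s`, `y = l`: `x + y = m + h + l`, `x - y = m + s`. The terms are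
`[cutJ f2 x * cutJ f3 (x - s)] * [W (y + s) y, if y + s ∈ (-X, X), else 0] * cutJ F (x + y) * [cutJ f1 (x - y - s)]`, summed over
`x ∈ Sx X` (`x ∈ JJ X ⊆ Sx X`, else the term is `0`), `y ∈ Sy X`: a value of `BF (Sx X) (Sy X) (cutJ X F)` at bounded functions.
`U1B_cut` with `u = 2X`, `v = 2X + X/4` (`cutJ X F m = if u ≤ m ∧ m < v then F m else 0`) and `Unif.bf`: each `s` contributes at most
`4 (1 + log (4X+1)) X^(2-κ)`, and there are at most `2X` values of `s`. `X` large in terms of `κ`. -/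
theorem U2_par (κ : ℝ) (hκ : 0 < κ) : ∃ X0 : ℕ, ∀ X : ℕ, X0 ≤ X → ∀ F : ℤ → ℂ, Unif X κ F →
    ∀ (W : ℤ → ℤ → ℂ) (f1 f2 f3 : ℤ → ℂ), (∀ h l, ‖W h l‖ ≤ 1) → Bd f1 → Bd f2 → Bd f3 →
    ‖∑ h ∈ Ioo (-(X : ℤ)) X, ∑ l ∈ Ioo (-(X : ℤ)) X, W h l *
      ∑ m ∈ JJ X, f1 m * cutJ X f2 (m + h) * cutJ X f3 (m + l) * cutJ X F (m + h + l)‖ ≤ (X : ℝ) ^ (3 - κ / 2) := by
  obtain ⟨X0, hX0⟩ := u2_num κ hκ
  refine ⟨X0, fun X hX F hF W f1 f2 f3 hW h1 h2 h3 => ?_⟩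
  obtain ⟨hX1, hnum⟩ := hX0 X hX
  have hXr : (1 : ℝ) ≤ X := by exact_mod_cast hX1
  have hid := u2_id X F W f1 f2 f3
  have hS : Sy X = Ioo (-(X : ℤ)) X := rfl
  rw [hS] at hid
  rw [hid]
  have hcut : cutJ X F = fun m => if 2 * (X : ℤ) ≤ m ∧ m < 2 * X + X / 4 then F m else 0 := by
    funext m
    unfold cutJ JJ
    simp only [Finset.mem_Ico]
  have hone : ∀ s : ℤ, ‖BF (Sx X) (Sy X) (cutJ X F) (fun z => cutJ X f1 (z - s))
      (fun x => cutJ X f2 x * cutJ X f3 (x - s))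
      (fun y => if y + s ∈ Ioo (-(X : ℤ)) X then W (y + s) y else 0)‖ ≤
      4 * (1 + Real.log ((4 * X + 1 : ℕ) : ℝ)) * (X : ℝ) ^ (2 - κ) := by
    intro s
    rw [hcut]
    apply U1B_cut X F _ hF.bf
    · intro z
      exact u2_bdcut h1 _
    · intro x
      rw [norm_mul]
      calc ‖cutJ X f2 x‖ * ‖cutJ X f3 (x - s)‖ ≤ 1 * 1 :=
            mul_le_mul (u2_bdcut h2 _) (u2_bdcut h3 _) (norm_nonneg _) zero_le_one
        _ = 1 := one_mul 1
    · intro y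
      show ‖if y + s ∈ Ioo (-(X : ℤ)) X then W (y + s) y else 0‖ ≤ 1
      split_ifs
      · exact hW _ _
      · simp
  have hcard : ((Ioo (-(X : ℤ)) X).card : ℝ) ≤ 2 * X := by
    rw [Int.card_Ioo]
    have h4 : ((X : ℤ) - -(X : ℤ) - 1).toNat ≤ 2 * X := by omega
    exact_mod_cast h4
  have hlog : 0 ≤ 1 + Real.log ((4 * X + 1 : ℕ) : ℝ) := by
    have h4 : 0 ≤ Real.log ((4 * X + 1 : ℕ) : ℝ) := Real.log_natCast_nonneg _
    linarith
  have hp : 0 ≤ (X : ℝ) ^ (2 - κ) := by positivity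
  calc ‖∑ s ∈ Ioo (-(X : ℤ)) X, BF (Sx X) (Sy X) (cutJ X F) (fun z => cutJ X f1 (z - s))
        (fun x => cutJ X f2 x * cutJ X f3 (x - s))
        (fun y => if y + s ∈ Ioo (-(X : ℤ)) X then W (y + s) y else 0)‖
      ≤ ∑ s ∈ Ioo (-(X : ℤ)) X, 4 * (1 + Real.log ((4 * X + 1 : ℕ) : ℝ)) * (X : ℝ) ^ (2 - κ) :=
        (norm_sum_le _ _).trans (Finset.sum_le_sum fun s _ => hone s)
    _ = ((Ioo (-(X : ℤ)) X).card : ℝ) * (4 * (1 + Real.log ((4 * X + 1 : ℕ) : ℝ)) * (X : ℝ) ^ (2 - κ)) := by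
        rw [Finset.sum_const, nsmul_eq_mul]
    _ ≤ (2 * X) * (4 * (1 + Real.log ((4 * X + 1 : ℕ) : ℝ)) * (X : ℝ) ^ (2 - κ)) := by
        apply mul_le_mul_of_nonneg_right hcard
        positivity
    _ = 8 * (1 + Real.log ((4 * X + 1 : ℕ) : ℝ)) * ((X : ℝ) * (X : ℝ) ^ (2 - κ)) := by ring
    _ ≤ (X : ℝ) ^ (κ / 2) * ((X : ℝ) * (X : ℝ) ^ (2 - κ)) := by
        apply mul_le_mul_of_nonneg_right hnum
        positivity
    _ = (X : ℝ) ^ (3 - κ / 2) := by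
        have h5 : (X : ℝ) * (X : ℝ) ^ (2 - κ) = (X : ℝ) ^ (3 - κ) := by
          nth_rewrite 1 [← Real.rpow_one (X : ℝ)]
          rw [← Real.rpow_add (by linarith)]
          congr 1
          ring
        rw [h5, ← Real.rpow_add (by linarith)]
        congr 1
        ring

end Pool.Agent.H9U
end

-- from Lib.H9U.U3
section

/-!
# H9U, chunk U3 (M): Fourier coefficients of `F(m) conj F(m+h)` on average over `h`; the `U³` norm
-/

open Finset

namespace Pool.Agent.H9U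

open Pool.Agent.H44W (ee)
open Pool.Agent.H9S (Bd BF Sx Sy)

theorem u3_mem {X : ℕ} {m : ℤ} (hm : m ∈ JJ X) : (X:ℤ) ≤ m ∧ m ≤ 4 * X ∧ 2 * (X:ℤ) ≤ m ∧ m < 2 * X + X / 4 := by
  unfold JJ at hm
  rw [mem_Ico] at hm
  have : (X:ℤ) / 4 ≤ X := by omega
  omega

/-- The sum over parallelograms, with the sizes. -/
theorem u3_par (κ : ℝ) (hκ : 0 < κ) : ∃ X0 : ℕ, ∀ X : ℕ, X0 ≤ X → ∀ F : ℤ → ℂ, Unif X κ F →
    ∀ W : ℤ → ℤ → ℂ, (∀ h l, ‖W h l‖ ≤ 1) →
    ‖∑ h ∈ Ioo (-(X : ℤ)) X, ∑ l ∈ Ioo (-(X : ℤ)) X, W h l *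
      ∑ m ∈ JJ X, F m * (starRingEnd ℂ) (cutJ X F (m + h)) * (starRingEnd ℂ) (cutJ X F (m + l)) *
        cutJ X F (m + h + l)‖ ≤ ((X : ℝ) ^ (κ / 100)) ^ 3 * (X : ℝ) ^ (3 - κ / 2) := by
  obtain ⟨X0, h0⟩ := U2_par κ hκ
  refine ⟨max X0 1, fun X hX F hF W hW => ?_⟩
  have hX1 : 1 ≤ X := by omega
  have hXp : (0:ℝ) < X := by exact_mod_cast hX1
  obtain ⟨B, hB⟩ : ∃ B : ℝ, B = (X:ℝ) ^ (κ / 100) := ⟨_, rfl⟩
  have hB0 : 0 < B := by rw [hB]; exact Real.rpow_pos_of_pos hXp _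
  have hBc : (B:ℂ) ≠ 0 := by exact_mod_cast hB0.ne'
  rw [← hB]
  obtain ⟨f1, hf1⟩ : ∃ f1 : ℤ → ℂ, ∀ m, f1 m = if (X:ℤ) ≤ m ∧ m ≤ 4 * X then F m / B else 0 := ⟨_, fun _ => rfl⟩
  obtain ⟨f2, hf2⟩ : ∃ f2 : ℤ → ℂ, ∀ m, f2 m = (starRingEnd ℂ) (f1 m) := ⟨_, fun _ => rfl⟩
  have hb1 : Bd f1 := by
    intro m
    rw [hf1]
    by_cases h : (X:ℤ) ≤ m ∧ m ≤ 4 * X
    · rw [if_pos h, norm_div, Complex.norm_real, Real.norm_of_nonneg hB0.le, div_le_one hB0, hB]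
      exact hF.bd m h.1 h.2
    · rw [if_neg h, norm_zero]
      exact zero_le_one
  have hb2 : Bd f2 := by
    intro m
    rw [hf2, RCLike.norm_conj]
    exact hb1 m
  have hFm : ∀ m ∈ JJ X, F m = B * f1 m := by
    intro m hm
    have h := u3_mem hm
    rw [hf1, if_pos ⟨h.1, h.2.1⟩]
    field_simp
  have hcm : ∀ m, (starRingEnd ℂ) (cutJ X F m) = B * cutJ X f2 m := by
    intro m
    unfold cutJ
    by_cases hm : m ∈ JJ X
    · rw [if_pos hm, if_pos hm, hFm m hm, map_mul, Complex.conj_ofReal, hf2]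
    · rw [if_neg hm, if_neg hm, map_zero, mul_zero]
  have h1 := h0 X (by omega) F hF W f1 f2 f2 hW hb1 hb2 hb2
  have h2 : (∑ h ∈ Ioo (-(X : ℤ)) X, ∑ l ∈ Ioo (-(X : ℤ)) X, W h l *
      ∑ m ∈ JJ X, F m * (starRingEnd ℂ) (cutJ X F (m + h)) * (starRingEnd ℂ) (cutJ X F (m + l)) *
        cutJ X F (m + h + l)) = ((B ^ 3 : ℝ) : ℂ) * ∑ h ∈ Ioo (-(X : ℤ)) X, ∑ l ∈ Ioo (-(X : ℤ)) X, W h l *
      ∑ m ∈ JJ X, f1 m * cutJ X f2 (m + h) * cutJ X f2 (m + l) * cutJ X F (m + h + l) := by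
    rw [Finset.mul_sum]
    refine Finset.sum_congr rfl fun h _ => ?_
    rw [Finset.mul_sum]
    refine Finset.sum_congr rfl fun l _ => ?_
    rw [mul_left_comm, Finset.mul_sum (s := JJ X) (a := ((B ^ 3 : ℝ) : ℂ))]
    congr 1
    refine Finset.sum_congr rfl fun m hm => ?_
    rw [hcm, hcm, hFm m hm]
    push_cast
    ring
  rw [h2, norm_mul, Complex.norm_real, Real.norm_of_nonneg (by positivity)]
  exact mul_le_mul_of_nonneg_left h1 (by positivity)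

/-- The square of a sum over `JJ X`. -/
theorem u3_sq (X : ℕ) (hX : 1 ≤ X) (a : ℤ → ℂ) : ((‖∑ m ∈ JJ X, a m‖ ^ 2 : ℝ) : ℂ) =
    ∑ l ∈ Ioo (-(X : ℤ)) X, ∑ m ∈ JJ X, a m * (starRingEnd ℂ) (cutJ X a (m + l)) := by
  have h1 : ((‖∑ m ∈ JJ X, a m‖ ^ 2 : ℝ) : ℂ) = (∑ m ∈ JJ X, a m) * (starRingEnd ℂ) (∑ m ∈ JJ X, a m) := by
    rw [Complex.mul_conj, Complex.normSq_eq_norm_sq]
  rw [h1, Finset.sum_comm, Finset.sum_mul]
  refine Finset.sum_congr rfl fun m hm => ?_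
  rw [← Finset.mul_sum, map_sum]
  congr 1
  have h2 : ∀ l : ℤ, (starRingEnd ℂ) (cutJ X a (m + l)) =
      if m + l ∈ JJ X then (starRingEnd ℂ) (a (m + l)) else 0 := by
    intro l
    unfold cutJ
    by_cases h : m + l ∈ JJ X
    · rw [if_pos h, if_pos h]
    · rw [if_neg h, if_neg h, map_zero]
  rw [Finset.sum_congr rfl fun l _ => h2 l, ← Finset.sum_filter]
  have hm' := u3_mem hm
  refine Finset.sum_nbij' (fun m' => m' - m) (fun l => m + l) ?_ ?_ ?_ ?_ ?_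
  · intro m' hm2
    have h3 := u3_mem hm2
    rw [mem_filter, mem_Ioo]
    refine ⟨by omega, ?_⟩
    rw [show m + (m' - m) = m' by ring]
    exact hm2
  · intro l hl
    exact (mem_filter.1 hl).2
  · intro m' _
    ring
  · intro l _
    ring
  · intro m' _
    rw [show m + (m' - m) = m' by ring]

/-- Proof. Let `a_h(m) = F m conj(cutJ F (m+h)) ee(θ_h m)`. Cauchy-Schwarz over `h` (at most `2X` values):
`(∑_h ‖∑_m a_h(m)‖)² ≤ 2X ∑_h ‖∑_m a_h(m)‖²`, and `‖∑_{m ∈ JJ} a(m)‖² = ∑_l ∑_m a(m) conj(a(m+l))` (both points in `JJ`, `|l| < X`), with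
`a(m) conj a(m+l) = F(m) conj(cutJ F(m+h)) conj(cutJ F(m+l)) cutJ F(m+h+l) ee(-θ_h l)`. Apply `U2_par` with `W h l = ee(-θ_h l)`,
`f1 = F/B`, `f2 = f3 = conj F/B` on `[X, 4X]` (and `0` elsewhere: only values on `JJ X ⊆ [X, 4X]` matter), `B = X^(κ/100)` (`Unif.bd`):
`(…)² ≤ 2X · X^(3κ/100) · X^(3 - κ/2)`, so the sum is at most `√2 X^(2 - κ/4 + 3κ/200) ≤ X^(2 - κ/8)` for `X` large. -/
theorem U3_sup (κ : ℝ) (hκ : 0 < κ) : ∃ X0 : ℕ, ∀ X : ℕ, X0 ≤ X → ∀ F : ℤ → ℂ, Unif X κ F → ∀ θ : ℤ → ℝ,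
    ∑ h ∈ Ioo (-(X : ℤ)) X, ‖∑ m ∈ JJ X, F m * (starRingEnd ℂ) (cutJ X F (m + h)) * ee (θ h * m)‖ ≤
      (X : ℝ) ^ (2 - κ / 8) := by
  obtain ⟨X0, h0⟩ := u3_par κ hκ
  have ht : ∀ᶠ n : ℕ in Filter.atTop, 2 ≤ (n:ℝ) ^ (κ * 22 / 100) :=
    ((tendsto_rpow_atTop (by positivity : 0 < κ * 22 / 100)).comp tendsto_natCast_atTop_atTop).eventually_ge_atTop _
  obtain ⟨n1, hn1⟩ := Filter.eventually_atTop.1 ht
  refine ⟨max (max X0 n1) 1, fun X hX F hF θ => ?_⟩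
  have hX1 : 1 ≤ X := by omega
  have hXp : (0:ℝ) < X := by exact_mod_cast hX1
  have hn1' := hn1 X (by omega)
  have h1 := h0 X (by omega) F hF (fun h l => ee (-(θ h * l))) (fun h l => by
    rw [Pool.Agent.H44W.norm_ee])
  -- the squares
  have h2 : ((∑ h ∈ Ioo (-(X : ℤ)) X,
      ‖∑ m ∈ JJ X, F m * (starRingEnd ℂ) (cutJ X F (m + h)) * ee (θ h * m)‖ ^ 2 : ℝ) : ℂ) =
      ∑ h ∈ Ioo (-(X : ℤ)) X, ∑ l ∈ Ioo (-(X : ℤ)) X, ee (-(θ h * l)) *
      ∑ m ∈ JJ X, F m * (starRingEnd ℂ) (cutJ X F (m + h)) * (starRingEnd ℂ) (cutJ X F (m + l)) *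
        cutJ X F (m + h + l) := by
    rw [Complex.ofReal_sum]
    refine Finset.sum_congr rfl fun h _ => ?_
    rw [u3_sq X hX1]
    refine Finset.sum_congr rfl fun l _ => ?_
    rw [Finset.mul_sum]
    refine Finset.sum_congr rfl fun m hm => ?_
    unfold cutJ
    by_cases hl : m + l ∈ JJ X
    · rw [if_pos hl, if_pos hl, map_mul, map_mul, Complex.conj_conj, ← Pool.Agent.H44W.ee_neg]
      have e1 : ee (-(θ h * l)) = ee (θ h * m) * ee (-(θ h * ((m + l : ℤ) : ℝ))) := by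
        rw [← Pool.Agent.H44W.ee_add]
        congr 1
        push_cast
        ring
      rw [e1, show m + l + h = m + h + l by ring]
      ring
    · rw [if_neg hl, if_neg hl, map_zero, mul_zero, mul_zero, zero_mul, mul_zero]
  have h3 : ∑ h ∈ Ioo (-(X : ℤ)) X,
      ‖∑ m ∈ JJ X, F m * (starRingEnd ℂ) (cutJ X F (m + h)) * ee (θ h * m)‖ ^ 2 ≤
      ((X : ℝ) ^ (κ / 100)) ^ 3 * (X : ℝ) ^ (3 - κ / 2) := by
    refine le_trans (le_of_eq ?_) h1
    rw [← h2, Complex.norm_real, Real.norm_of_nonneg (Finset.sum_nonneg fun _ _ => by positivity)]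
  have h5 : (∑ h ∈ Ioo (-(X : ℤ)) X,
      ‖∑ m ∈ JJ X, F m * (starRingEnd ℂ) (cutJ X F (m + h)) * ee (θ h * m)‖) ^ 2 ≤
      ((Ioo (-(X : ℤ)) X).card : ℝ) * ∑ h ∈ Ioo (-(X : ℤ)) X,
      ‖∑ m ∈ JJ X, F m * (starRingEnd ℂ) (cutJ X F (m + h)) * ee (θ h * m)‖ ^ 2 := sq_sum_le_card_mul_sum_sq
  have h6 : ((Ioo (-(X : ℤ)) X).card : ℝ) ≤ 2 * X := by
    rw [Int.card_Ioo]
    have : ((X:ℤ) - -(X:ℤ) - 1).toNat ≤ 2 * X := by omega
    exact_mod_cast this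
  have h7 : (∑ h ∈ Ioo (-(X : ℤ)) X,
      ‖∑ m ∈ JJ X, F m * (starRingEnd ℂ) (cutJ X F (m + h)) * ee (θ h * m)‖) ^ 2 ≤ ((X : ℝ) ^ (2 - κ / 8)) ^ 2 := by
    refine h5.trans ((mul_le_mul h6 h3 (Finset.sum_nonneg fun _ _ => by positivity) (by positivity)).trans ?_)
    have e1 : 2 * (X:ℝ) * (((X : ℝ) ^ (κ / 100)) ^ 3 * (X : ℝ) ^ (3 - κ / 2)) =
        2 * (X:ℝ) ^ (4 - κ / 2 + 3 * κ / 100) := by
      have : (X:ℝ) ^ (4 - κ / 2 + 3 * κ / 100) = X * (((X : ℝ) ^ (κ / 100)) ^ 3 * (X : ℝ) ^ (3 - κ / 2)) := by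
        rw [← Real.rpow_natCast, ← Real.rpow_mul hXp.le, ← Real.rpow_add hXp]
        nth_rewrite 2 [← Real.rpow_one (X:ℝ)]
        rw [← Real.rpow_add hXp]
        congr 1
        push_cast
        ring
      rw [this]
      ring
    have e2 : ((X : ℝ) ^ (2 - κ / 8)) ^ 2 = (X:ℝ) ^ (κ * 22 / 100) * (X:ℝ) ^ (4 - κ / 2 + 3 * κ / 100) := by
      rw [← Real.rpow_natCast, ← Real.rpow_mul hXp.le, ← Real.rpow_add hXp]
      congr 1
      push_cast
      ring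
    rw [e1, e2]
    exact mul_le_mul_of_nonneg_right hn1' (Real.rpow_nonneg hXp.le _)
  exact (pow_le_pow_iff_left₀ (Finset.sum_nonneg fun _ _ => norm_nonneg _) (Real.rpow_nonneg hXp.le _)
    two_ne_zero).1 h7


end Pool.Agent.H9U
end

-- from Lib.H9U.U4
section

/-!
# H9U, chunk U4 (M/L): the box form with three arbitrary functions
-/

open Finset

namespace Pool.Agent.H9U

open Pool.Agent.H44W (ee)
open Pool.Agent.H9S (Bd BF Sx Sy)

theorem u4_cs (X : ℕ) (W g : ℕ → ℕ → ℂ) (hW : ∀ x y, ‖W x y‖ ≤ 1) :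
    ‖∑ x ∈ range X, ∑ y ∈ range X, W x y * g x y‖ ^ 2 ≤
      (X : ℝ) ^ 2 * ∑ x ∈ range X, ∑ y ∈ range X, ‖g x y‖ ^ 2 := by
  have h1 : ‖∑ x ∈ range X, ∑ y ∈ range X, W x y * g x y‖ ≤
      ∑ p ∈ range X ×ˢ range X, ‖g p.1 p.2‖ := by
    rw [← Finset.sum_product']
    refine (norm_sum_le _ _).trans (Finset.sum_le_sum fun p _ => ?_)
    rw [norm_mul]
    exact mul_le_of_le_one_left (norm_nonneg _) (hW _ _)
  have h2 : (∑ p ∈ range X ×ˢ range X, ‖g p.1 p.2‖) ^ 2 ≤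
      ((range X ×ˢ range X).card : ℝ) * ∑ p ∈ range X ×ˢ range X, ‖g p.1 p.2‖ ^ 2 :=
    sq_sum_le_card_mul_sum_sq
  have h3 : ∑ p ∈ range X ×ˢ range X, ‖g p.1 p.2‖ ^ 2 = ∑ x ∈ range X, ∑ y ∈ range X, ‖g x y‖ ^ 2 :=
    Finset.sum_product' _ _ (fun x y => ‖g x y‖ ^ 2)
  rw [Finset.card_product, Finset.card_range, h3] at h2
  calc _ ≤ (∑ p ∈ range X ×ˢ range X, ‖g p.1 p.2‖) ^ 2 := pow_le_pow_left₀ (norm_nonneg _) h1 2
    _ ≤ _ := h2
    _ = _ := by push_cast; ring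

theorem u4_sq (N : Finset ℤ) (f : ℤ → ℂ) :
    ((‖∑ n ∈ N, f n‖ ^ 2 : ℝ) : ℂ) = ∑ n ∈ N, ∑ n' ∈ N, f n * (starRingEnd ℂ) (f n') := by
  rw [← Finset.sum_mul_sum, ← map_sum, Complex.mul_conj']
  push_cast
  rfl

theorem u4_sw (X : ℕ) (N : Finset ℤ) (t : ℕ → ℕ → ℤ → ℂ) :
    ∑ x ∈ range X, ∑ y ∈ range X, ‖∑ n ∈ N, t x y n‖ ^ 2 ≤
      ∑ n ∈ N, ∑ n' ∈ N, ‖∑ x ∈ range X, ∑ y ∈ range X, t x y n * (starRingEnd ℂ) (t x y n')‖ := by
  have h1 : (((∑ x ∈ range X, ∑ y ∈ range X, ‖∑ n ∈ N, t x y n‖ ^ 2 : ℝ)) : ℂ) =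
      ∑ n ∈ N, ∑ n' ∈ N, ∑ x ∈ range X, ∑ y ∈ range X, t x y n * (starRingEnd ℂ) (t x y n') := by
    rw [Complex.ofReal_sum]
    have e : ∀ x ∈ range X, (((∑ y ∈ range X, ‖∑ n ∈ N, t x y n‖ ^ 2 : ℝ)) : ℂ) =
        ∑ n ∈ N, ∑ n' ∈ N, ∑ y ∈ range X, t x y n * (starRingEnd ℂ) (t x y n') := by
      intro x _
      rw [Complex.ofReal_sum, Finset.sum_congr rfl (fun y _ => u4_sq N (t x y)), Finset.sum_comm]
      refine Finset.sum_congr rfl fun n _ => ?_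
      rw [Finset.sum_comm]
    rw [Finset.sum_congr rfl e, Finset.sum_comm]
    refine Finset.sum_congr rfl fun n _ => ?_
    rw [Finset.sum_comm]
  have h0 : 0 ≤ ∑ x ∈ range X, ∑ y ∈ range X, ‖∑ n ∈ N, t x y n‖ ^ 2 :=
    Finset.sum_nonneg fun x _ => Finset.sum_nonneg fun y _ => by positivity
  rw [← Complex.norm_of_nonneg h0, h1]
  refine (norm_sum_le _ _).trans (Finset.sum_le_sum fun n _ => norm_sum_le _ _)

theorem u4_inj (N : Finset ℤ) (e0 n : ℤ) (he : e0 ≠ 0) (bb : ℤ → ℝ) (h0 : ∀ h, 0 ≤ bb h) (X : ℤ)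
    (hz : ∀ h, h ∉ Ioo (-X) X → bb h = 0) :
    ∑ n' ∈ N, bb (e0 * (n' - n)) ≤ ∑ h ∈ Ioo (-X) X, bb h := by
  classical
  have hinj : Set.InjOn (fun n' : ℤ => e0 * (n' - n)) N := by
    intro x _ y _ hxy
    have := mul_left_cancel₀ he hxy
    linarith
  rw [← Finset.sum_image (f := bb) (g := fun n' : ℤ => e0 * (n' - n)) hinj]
  have h1 : ∑ h ∈ N.image (fun n' : ℤ => e0 * (n' - n)), bb h =
      ∑ h ∈ (N.image (fun n' : ℤ => e0 * (n' - n))) ∩ Ioo (-X) X, bb h := by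
    symm
    refine Finset.sum_subset Finset.inter_subset_left ?_
    intro h h1 h2
    exact hz h fun h3 => h2 (Finset.mem_inter.2 ⟨h1, h3⟩)
  rw [h1]
  exact Finset.sum_le_sum_of_subset_of_nonneg Finset.inter_subset_right fun h _ _ => h0 h

/-- the correlation function -/
noncomputable def u4G (X : ℕ) (F : ℤ → ℂ) (h m : ℤ) : ℂ := cutJ X F m * (starRingEnd ℂ) (cutJ X F (m + h))

theorem u4_G0 (X : ℕ) (F : ℤ → ℂ) (h m : ℤ) (hm : m ∉ JJ X) : u4G X F h m = 0 := by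
  unfold u4G cutJ
  rw [if_neg hm, zero_mul]

theorem u4_far (X : ℕ) (F : ℤ → ℂ) (h m : ℤ) (hh : h ∉ Ioo (-(X : ℤ)) X) (hm : m ∈ JJ X) :
    cutJ X F (m + h) = 0 := by
  unfold cutJ
  rw [if_neg]
  intro h1
  unfold JJ at hm h1
  rw [mem_Ico] at hm h1
  apply hh
  rw [mem_Ioo]
  constructor <;> omega

theorem u4_four (X E : ℕ) (F : ℤ → ℂ) (h : ℤ) (j : ℕ) :
    ∑ m ∈ Ico (2 * (X : ℤ) - 5 * (E + 1) * X) (2 * (X : ℤ) - 5 * (E + 1) * X + ((10 * (E + 1) * X : ℕ) : ℤ)),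
      u4G X F h m * ee (-((j : ℝ) * m / ((10 * (E + 1) * X : ℕ) : ℝ))) =
    ∑ m ∈ JJ X, F m * (starRingEnd ℂ) (cutJ X F (m + h)) * ee ((-((j : ℝ) / ((10 * (E + 1) * X : ℕ) : ℝ))) * m) := by
  have hsub : JJ X ⊆ Ico (2 * (X : ℤ) - 5 * (E + 1) * X)
      (2 * (X : ℤ) - 5 * (E + 1) * X + ((10 * (E + 1) * X : ℕ) : ℤ)) := by
    intro m hm
    unfold JJ at hm
    rw [mem_Ico] at hm ⊢
    push_cast
    have h1 : (0 : ℤ) ≤ (E : ℤ) * X := by positivity
    constructor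
    · nlinarith
    · have h2 : (X : ℤ) / 4 ≤ X := by omega
      nlinarith
  rw [← Finset.sum_subset hsub]
  · refine Finset.sum_congr rfl fun m hm => ?_
    unfold u4G
    have e : cutJ X F m = F m := by
      unfold cutJ
      rw [if_pos hm]
    rw [e]
    congr 2
    ring
  · intro m _ hm
    rw [u4_G0 X F h m hm, zero_mul]

theorem u4_T (X E : ℕ) (hX : 0 < X) (F : ℤ → ℂ) (h c e1 e2 : ℤ) (h1 : e1 ≠ 0) (h2 : e2 ≠ 0)
    (he1 : |e1| ≤ E) (he2 : |e2| ≤ E) (B : ℝ) (hB0 : 0 ≤ B)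
    (hB : ∀ j ∈ range (10 * (E + 1) * X), ‖∑ m ∈ JJ X, F m * (starRingEnd ℂ) (cutJ X F (m + h)) *
      ee ((-((j : ℝ) / ((10 * (E + 1) * X : ℕ) : ℝ))) * m)‖ ≤ B)
    (a b : ℕ → ℂ) (ha : ∀ x, ‖a x‖ ≤ 1) (hb : ∀ y, ‖b y‖ ≤ 1) :
    ‖∑ x ∈ range X, ∑ y ∈ range X, a x * b y * u4G X F h (c + e1 * x + e2 * y)‖ ≤ X * B := by
  by_cases hc : ∀ x ∈ range X, ∀ y ∈ range X, c + e1 * x + e2 * y ∉ JJ X
  · have : ∑ x ∈ range X, ∑ y ∈ range X, a x * b y * u4G X F h (c + e1 * x + e2 * y) = 0 := by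
      refine Finset.sum_eq_zero fun x hx => Finset.sum_eq_zero fun y hy => ?_
      rw [u4_G0 X F h _ (hc x hx y hy), mul_zero]
    rw [this, norm_zero]
    positivity
  · push Not at hc
    obtain ⟨x0, hx0, y0, hy0, h0⟩ := hc
    have hE : ((10 * (E + 1) * X : ℕ) : ℤ) = 10 * ((E : ℤ) + 1) * X := by push_cast; ring
    have hX' : (1 : ℤ) ≤ X := by exact_mod_cast hX
    refine U4A_bil (10 * (E + 1) * X) X e1 e2 c (2 * (X : ℤ) - 5 * (E + 1) * X) h1 h2 ?_ ?_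
      (u4G X F h) B hB0 ?_ ?_ a b ha hb
    · rw [hE]
      nlinarith [mul_le_mul_of_nonneg_right he1 (by positivity : (0 : ℤ) ≤ X)]
    · rw [hE]
      nlinarith [mul_le_mul_of_nonneg_right he2 (by positivity : (0 : ℤ) ≤ X)]
    · intro j hj
      rw [u4_four]
      exact hB j hj
    · intro x hx y hy
      rw [mem_range] at hx hy hx0 hy0
      unfold JJ at h0
      rw [mem_Ico] at h0
      have k1 : |e1 * ((x : ℤ) - x0)| ≤ E * X := by
        rw [abs_mul]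
        exact mul_le_mul he1 (abs_le.2 ⟨by omega, by omega⟩) (abs_nonneg _) (by positivity)
      have k2 : |e2 * ((y : ℤ) - y0)| ≤ E * X := by
        rw [abs_mul]
        exact mul_le_mul he2 (abs_le.2 ⟨by omega, by omega⟩) (abs_nonneg _) (by positivity)
      rw [abs_le] at k1 k2
      have k3 : c + e1 * x + e2 * y = (c + e1 * x0 + e2 * y0) + e1 * ((x : ℤ) - x0) + e2 * ((y : ℤ) - y0) := by
        ring
      rw [k3, hE]
      have k4 : (X : ℤ) / 4 ≤ X := by omega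
      have k5 : (0 : ℤ) ≤ (E : ℤ) * X := by positivity
      constructor <;> nlinarith [k1.1, k1.2, k2.1, k2.2, h0.1, h0.2]

/-- Proof. `N = Ico n1 n2` has at most `E X` elements. Cauchy-Schwarz over `(x, y)` (removes `W`):
`|S|² ≤ X² ∑_{x,y} |∑_n A(n,y) B(n,x) cutJ F(e0 n + e1 x + e2 y + c)|²
     = X² ∑_{n, n' ∈ N} ∑_{x,y} [A(n,y) conj A(n',y)] [B(n,x) conj B(n',x)] G_h(e0 n + c + e1 x + e2 y)`, `h = e0 (n' - n)`,
`G_h(m) = cutJ F(m) conj(cutJ F(m + h))`. For fixed `n, n'` either all arguments avoid `JJ X` (then the term is `0`), or all of them are in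
`[u, u + M)`, `u = 2X - 5 (E+1) X`, `M = 10 (E+1) X` (they differ by at most `2 E X` from a point of `JJ X`): `U4A_bil` with
`B = max_{j<M} ‖∑_{m ∈ Ico u (u+M)} G_h(m) ee(-jm/M)‖ = ‖∑_{m ∈ JJ X} F m conj(cutJ F(m+h)) ee(θ_h m)‖`, `θ_h = -j_h/M`, `j_h` a maximum
(`Finset.exists_max_image`); it vanishes unless `|h| < X`. So
`|S|² ≤ X² · X · ∑_{n} ∑_{n'} ‖…‖ ≤ X³ · E X · ∑_{|h| < X} ‖…‖ ≤ E X⁴ X^(2 - κ/8)` (for fixed `n` the map `n' ↦ h` is injective; `U3_sup`), i.e.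
`|S| ≤ √E X^(3 - κ/16) ≤ X^(3 - κ/20)` for `X` large in terms of `E`, `κ`. -/
theorem U4_box (κ : ℝ) (hκ : 0 < κ) (E : ℕ) : ∃ X0 : ℕ, ∀ X : ℕ, X0 ≤ X → ∀ F : ℤ → ℂ, Unif X κ F →
    ∀ e0 e1 e2 c : ℤ, e0 ≠ 0 → e1 ≠ 0 → e2 ≠ 0 → |e1| ≤ E → |e2| ≤ E →
    ∀ n1 n2 : ℤ, n2 - n1 ≤ E * X → ∀ (W : ℕ → ℕ → ℂ) (A B : ℤ → ℕ → ℂ), (∀ x y, ‖W x y‖ ≤ 1) →
    (∀ n y, ‖A n y‖ ≤ 1) → (∀ n x, ‖B n x‖ ≤ 1) →
    ‖∑ x ∈ range X, ∑ y ∈ range X, ∑ n ∈ Ico n1 n2, W x y * A n y * B n x *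
      cutJ X F (e0 * n + e1 * x + e2 * y + c)‖ ≤ (X : ℝ) ^ (3 - κ / 20) := by
  obtain ⟨X1, hX1⟩ := U3_sup κ hκ
  have hk : 0 < κ / 40 := by positivity
  obtain ⟨X2, hX2⟩ := Filter.eventually_atTop.1
    (((tendsto_rpow_atTop hk).comp tendsto_natCast_atTop_atTop).eventually_ge_atTop (E : ℝ))
  refine ⟨max (max X1 X2) 1, fun X hX F hF e0 e1 e2 c h0 h1 h2 he1 he2 n1 n2 hn W A B hW hA hB => ?_⟩
  have hXa : X1 ≤ X := le_trans (le_trans (le_max_left _ _) (le_max_left _ _)) hX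
  have hXb : X2 ≤ X := le_trans (le_trans (le_max_right _ _) (le_max_left _ _)) hX
  have hXc : 0 < X := lt_of_lt_of_le Nat.one_pos (le_trans (le_max_right _ _) hX)
  have hE : (E : ℝ) ≤ (X : ℝ) ^ (κ / 40) := hX2 X hXb
  have hXr : (0 : ℝ) < X := by exact_mod_cast hXc
  have hM : (range (10 * (E + 1) * X)).Nonempty := by
    rw [Finset.nonempty_range_iff]
    positivity
  choose j hj hmax using fun h : ℤ => Finset.exists_max_image (range (10 * (E + 1) * X))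
    (fun j : ℕ => ‖∑ m ∈ JJ X, F m * (starRingEnd ℂ) (cutJ X F (m + h)) *
      ee ((-((j : ℝ) / ((10 * (E + 1) * X : ℕ) : ℝ))) * m)‖) hM
  set θ : ℤ → ℝ := fun h => -((j h : ℝ) / ((10 * (E + 1) * X : ℕ) : ℝ)) with hθ
  set bb : ℤ → ℝ := fun h => ‖∑ m ∈ JJ X, F m * (starRingEnd ℂ) (cutJ X F (m + h)) * ee (θ h * m)‖
    with hbb
  have bb0 : ∀ h, 0 ≤ bb h := fun h => norm_nonneg _
  have bbz : ∀ h, h ∉ Ioo (-(X : ℤ)) X → bb h = 0 := by
    intro h hh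
    have : ∑ m ∈ JJ X, F m * (starRingEnd ℂ) (cutJ X F (m + h)) * ee (θ h * m) = 0 := by
      refine Finset.sum_eq_zero fun m hm => ?_
      rw [u4_far X F h m hh hm, map_zero, mul_zero, zero_mul]
    rw [hbb]
    simp only
    rw [this, norm_zero]
  have hsup : ∑ h ∈ Ioo (-(X : ℤ)) X, bb h ≤ (X : ℝ) ^ (2 - κ / 8) := hX1 X hXa F hF θ
  set t : ℕ → ℕ → ℤ → ℂ := fun x y n => A n y * B n x * cutJ X F (e0 * n + e1 * x + e2 * y + c) with ht
  have e1' : ∑ x ∈ range X, ∑ y ∈ range X, ∑ n ∈ Ico n1 n2, W x y * A n y * B n x *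
      cutJ X F (e0 * n + e1 * x + e2 * y + c) =
      ∑ x ∈ range X, ∑ y ∈ range X, W x y * ∑ n ∈ Ico n1 n2, t x y n := by
    refine Finset.sum_congr rfl fun x _ => Finset.sum_congr rfl fun y _ => ?_
    rw [Finset.mul_sum]
    refine Finset.sum_congr rfl fun n _ => ?_
    rw [ht]
    ring
  rw [e1']
  have key : ∀ n n' : ℤ, ‖∑ x ∈ range X, ∑ y ∈ range X, t x y n * (starRingEnd ℂ) (t x y n')‖ ≤
      X * bb (e0 * (n' - n)) := by
    intro n n'
    have e2' : ∑ x ∈ range X, ∑ y ∈ range X, t x y n * (starRingEnd ℂ) (t x y n') =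
        ∑ x ∈ range X, ∑ y ∈ range X, (B n x * (starRingEnd ℂ) (B n' x)) *
          (A n y * (starRingEnd ℂ) (A n' y)) * u4G X F (e0 * (n' - n)) ((e0 * n + c) + e1 * x + e2 * y) := by
      refine Finset.sum_congr rfl fun x _ => Finset.sum_congr rfl fun y _ => ?_
      unfold u4G
      have a1 : (e0 * n + c) + e1 * x + e2 * y = e0 * n + e1 * x + e2 * y + c := by ring
      have a2 : e0 * n + e1 * x + e2 * y + c + e0 * (n' - n) = e0 * n' + e1 * x + e2 * y + c := by ring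
      rw [a1, a2, ht]
      simp only [map_mul]
      ring
    rw [e2']
    refine u4_T X E hXc F (e0 * (n' - n)) (e0 * n + c) e1 e2 h1 h2 he1 he2 _ (bb0 _) ?_ _ _ ?_ ?_
    · intro i hi
      exact hmax (e0 * (n' - n)) i hi
    · intro x
      rw [norm_mul, RCLike.norm_conj]
      exact mul_le_one₀ (hB _ _) (norm_nonneg _) (hB _ _)
    · intro y
      rw [norm_mul, RCLike.norm_conj]
      exact mul_le_one₀ (hA _ _) (norm_nonneg _) (hA _ _)
  have hcard : ((Ico n1 n2).card : ℝ) ≤ E * X := by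
    rw [Int.card_Ico]
    have h3 : (n2 - n1).toNat ≤ E * X := Int.toNat_le.2 (by push_cast; exact hn)
    exact_mod_cast h3
  have hpp : (0 : ℝ) ≤ (X : ℝ) ^ (2 - κ / 8) := by positivity
  have hsq : ‖∑ x ∈ range X, ∑ y ∈ range X, W x y * ∑ n ∈ Ico n1 n2, t x y n‖ ^ 2 ≤
      ((X : ℝ) ^ (3 - κ / 20)) ^ 2 := by
    calc _ ≤ (X : ℝ) ^ 2 * ∑ x ∈ range X, ∑ y ∈ range X, ‖∑ n ∈ Ico n1 n2, t x y n‖ ^ 2 :=
          u4_cs X W (fun x y => ∑ n ∈ Ico n1 n2, t x y n) hW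
      _ ≤ (X : ℝ) ^ 2 * ∑ n ∈ Ico n1 n2, ∑ n' ∈ Ico n1 n2,
          ‖∑ x ∈ range X, ∑ y ∈ range X, t x y n * (starRingEnd ℂ) (t x y n')‖ :=
          mul_le_mul_of_nonneg_left (u4_sw X _ t) (by positivity)
      _ ≤ (X : ℝ) ^ 2 * ∑ n ∈ Ico n1 n2, (X * (X : ℝ) ^ (2 - κ / 8)) := by
          refine mul_le_mul_of_nonneg_left (Finset.sum_le_sum fun n _ => ?_) (by positivity)
          calc _ ≤ ∑ n' ∈ Ico n1 n2, X * bb (e0 * (n' - n)) := Finset.sum_le_sum fun n' _ => key n n'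
            _ = X * ∑ n' ∈ Ico n1 n2, bb (e0 * (n' - n)) := by rw [Finset.mul_sum]
            _ ≤ X * ∑ h ∈ Ioo (-(X : ℤ)) X, bb h :=
                mul_le_mul_of_nonneg_left (u4_inj _ e0 n h0 bb bb0 X bbz) hXr.le
            _ ≤ _ := mul_le_mul_of_nonneg_left hsup hXr.le
      _ = (X : ℝ) ^ 2 * ((Ico n1 n2).card * (X * (X : ℝ) ^ (2 - κ / 8))) := by
          rw [Finset.sum_const, nsmul_eq_mul]
      _ ≤ (X : ℝ) ^ 2 * ((E * X) * (X * (X : ℝ) ^ (2 - κ / 8))) := by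
          refine mul_le_mul_of_nonneg_left (mul_le_mul_of_nonneg_right hcard ?_) (by positivity)
          positivity
      _ ≤ (X : ℝ) ^ 2 * (((X : ℝ) ^ (κ / 40) * X) * (X * (X : ℝ) ^ (2 - κ / 8))) := by
          refine mul_le_mul_of_nonneg_left (mul_le_mul_of_nonneg_right
            (mul_le_mul_of_nonneg_right hE hXr.le) ?_) (by positivity)
          positivity
      _ = ((X : ℝ) ^ (3 - κ / 20)) ^ 2 := by
          have r2 : (X : ℝ) ^ 2 = (X : ℝ) ^ (2 : ℝ) := by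
            rw [← Real.rpow_natCast]
            norm_num
          have r1 : (X : ℝ) = (X : ℝ) ^ (1 : ℝ) := (Real.rpow_one _).symm
          have r3 : ((X : ℝ) ^ (3 - κ / 20)) ^ 2 = (X : ℝ) ^ (6 - κ / 10) := by
            rw [← Real.rpow_natCast, ← Real.rpow_mul hXr.le]
            congr 1
            push_cast
            ring
          rw [r3]
          calc (X : ℝ) ^ 2 * (((X : ℝ) ^ (κ / 40) * X) * (X * (X : ℝ) ^ (2 - κ / 8)))
              = (X : ℝ) ^ (2 : ℝ) * (((X : ℝ) ^ (κ / 40) * (X : ℝ) ^ (1 : ℝ)) *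
                ((X : ℝ) ^ (1 : ℝ) * (X : ℝ) ^ (2 - κ / 8))) := by rw [r2, ← r1]
            _ = (X : ℝ) ^ (6 - κ / 10) := by
                rw [← Real.rpow_add hXr, ← Real.rpow_add hXr, ← Real.rpow_add hXr,
                  ← Real.rpow_add hXr]
                congr 1
                ring
  exact le_of_sq_le_sq hsq (by positivity)

end Pool.Agent.H9U
end

-- from Lib.H9U.U5
section

/-!
# H9U, chunk U5 (M): the inner sum of the generalised von Neumann inequality (fixed base point `t`), with the cutoff in `n`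
-/

open Finset

namespace Pool.Agent.H9U

open Pool.Agent.H44W (ee)
open Pool.Agent.H9S (Bd BF Sx Sy)

/-- auxiliary: a logarithm is smaller than a small power -/
theorem u5_lim (K : ℕ) (r : ℝ) (hr : 0 < r) :
    ∃ X0 : ℕ, ∀ X : ℕ, X0 ≤ X → 4 * (1 + Real.log ((K * X : ℕ) : ℝ)) ≤ (X : ℝ) ^ r := by
  have h1 : ∀ᶠ x : ℝ in Filter.atTop, ‖Real.log x‖ ≤ (1 / 8) * ‖x ^ r‖ :=
    (isLittleO_log_rpow_atTop hr).bound (by norm_num)
  have h2 : ∀ᶠ x : ℝ in Filter.atTop, 8 * (1 + Real.log K) ≤ x ^ r :=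
    (tendsto_rpow_atTop hr).eventually_ge_atTop _
  have h3 : ∀ᶠ x : ℝ in Filter.atTop, (1 : ℝ) ≤ x := Filter.eventually_ge_atTop 1
  have h4 : ∀ᶠ X : ℕ in Filter.atTop, 4 * (1 + Real.log ((K * X : ℕ) : ℝ)) ≤ (X : ℝ) ^ r := by
    filter_upwards [(tendsto_natCast_atTop_atTop (R := ℝ)).eventually h1,
      (tendsto_natCast_atTop_atTop (R := ℝ)).eventually h2, (tendsto_natCast_atTop_atTop (R := ℝ)).eventually h3] with X g1 g2 g3
    have hX : (0 : ℝ) < X := by linarith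
    have hp : 0 ≤ (X : ℝ) ^ r := Real.rpow_nonneg hX.le r
    rw [Real.norm_of_nonneg (Real.log_nonneg g3), Real.norm_of_nonneg hp] at g1
    rcases Nat.eq_zero_or_pos K with hK | hK
    · subst hK
      rw [Nat.zero_mul, Nat.cast_zero, Real.log_zero, add_zero]
      rw [Nat.cast_zero, Real.log_zero, add_zero] at g2
      linarith
    · have hK' : (0 : ℝ) < K := by exact_mod_cast hK
      rw [Nat.cast_mul, Real.log_mul hK'.ne' hX.ne']
      linarith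
  exact Filter.eventually_atTop.1 h4

/-- auxiliary: a product of bounded functions is bounded -/
theorem u5_prod (I : Finset ℕ) (f : ℕ → ℂ) (h : ∀ i ∈ I, ‖f i‖ ≤ 1) : ‖∏ i ∈ I, f i‖ ≤ 1 := by
  rw [norm_prod]
  exact Finset.prod_le_one (fun i _ => norm_nonneg _) h

/-- `g i` are functions of the value of a form: form `i ≠ i0` at the point is `w i n + x * α i + y * β i`, `α i = 0` or `β i = 0`.

Proof. The product over `i ≠ i0` is `A(n,y) B(n,x)`, `A` the product over the `i` with `α i = 0`, `B` over the others (`β i = 0`). The indicator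
`[p ≤ n + s x + s' y < q]` is expanded by `U1A_ind` (`M = (10 E + 10) X`, after the shift by `ν = n1 - 2 E X`: for `n ∈ Ico n1 n2`, `x, y < X` the
number `n + s x + s' y - ν` is in `[0, M)`, `|s|, |s'| ≤ E`): `∑_j c_j ee(j (n + s x + s' y - ν)/M)`, and the exponential is a product of a function
of `(n, x)` (absorbed in `B`) and of `y` (absorbed in `A`). `U4_box` for each `j`; `4 (1 + log M) X^(3 - κ/20) ≤ X^(3 - κ/30)`. -/
theorem U5_inner (κ : ℝ) (hκ : 0 < κ) (E : ℕ) : ∃ X0 : ℕ, ∀ X : ℕ, X0 ≤ X → ∀ F : ℤ → ℂ, Unif X κ F →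
    ∀ e0 e1 e2 c s s' : ℤ, e0 ≠ 0 → e1 ≠ 0 → e2 ≠ 0 → |e1| ≤ E → |e2| ≤ E → |s| ≤ E → |s'| ≤ E →
    ∀ n1 n2 p q : ℤ, n2 - n1 ≤ E * X → ∀ (W : ℕ → ℕ → ℂ), (∀ x y, ‖W x y‖ ≤ 1) → ∀ (I : Finset ℕ) (G : ℕ → ℤ → ℂ)
    (w : ℕ → ℤ → ℤ) (α β : ℕ → ℤ), (∀ i, Bd (G i)) → (∀ i ∈ I, α i = 0 ∨ β i = 0) →
    ‖∑ x ∈ range X, ∑ y ∈ range X, ∑ n ∈ Ico n1 n2, (if p ≤ n + s * x + s' * y ∧ n + s * x + s' * y < q then (1 : ℂ) else 0) *
      W x y * (∏ i ∈ I, G i (w i n + α i * x + β i * y)) *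
      cutJ X F (e0 * n + e1 * x + e2 * y + c)‖ ≤ (X : ℝ) ^ (3 - κ / 30) := by
  obtain ⟨X1, hX1⟩ := U4_box κ hκ E
  obtain ⟨X2, hX2⟩ := u5_lim (10 * E + 10) (κ / 60) (by positivity)
  refine ⟨max (max X1 X2) 1, fun X hX F hF e0 e1 e2 c s s' he0 he1 he2 hE1 hE2 hs hs' n1 n2 p q hn W hW I G w α β hG hab => ?_⟩
  have hXa : X1 ≤ X := le_trans (le_trans (le_max_left _ _) (le_max_left _ _)) hX
  have hXb : X2 ≤ X := le_trans (le_trans (le_max_right _ _) (le_max_left _ _)) hX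
  have hXc : 1 ≤ X := le_trans (le_max_right _ _) hX
  obtain ⟨M, hM⟩ : ∃ M : ℕ, M = (10 * E + 10) * X := ⟨_, rfl⟩
  have hM1 : 1 ≤ M := by
    rw [hM]
    exact Nat.one_le_iff_ne_zero.2 (Nat.mul_ne_zero (by omega) (by omega))
  obtain ⟨ν, hν⟩ : ∃ ν : ℤ, ν = n1 - 2 * E * X := ⟨_, rfl⟩
  obtain ⟨cc, hcc, hcs⟩ := U1A_ind M hM1 (p - ν) (q - ν)
  have hM0 : (M : ℝ) ≠ 0 := by
    have : (0 : ℝ) < M := by exact_mod_cast hM1
    exact this.ne'
  -- the factors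
  let A : ℕ → ℤ → ℕ → ℂ := fun j n y =>
    (∏ i ∈ I.filter (fun i => α i = 0), G i (w i n + β i * y)) * ee ((j : ℝ) * (s' * y) / M)
  let B : ℕ → ℤ → ℕ → ℂ := fun j n x =>
    (∏ i ∈ I.filter (fun i => ¬ α i = 0), G i (w i n + α i * x)) * ee ((j : ℝ) * (n + s * x - ν) / M)
  have hA : ∀ j n y, ‖A j n y‖ ≤ 1 := by
    intro j n y
    show ‖(∏ i ∈ I.filter (fun i => α i = 0), G i (w i n + β i * y)) * ee ((j : ℝ) * (s' * y) / M)‖ ≤ 1
    rw [norm_mul, Pool.Agent.H44W.norm_ee, mul_one]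
    exact u5_prod _ _ (fun i _ => hG i _)
  have hB : ∀ j n x, ‖B j n x‖ ≤ 1 := by
    intro j n x
    show ‖(∏ i ∈ I.filter (fun i => ¬ α i = 0), G i (w i n + α i * x)) * ee ((j : ℝ) * (n + s * x - ν) / M)‖ ≤ 1
    rw [norm_mul, Pool.Agent.H44W.norm_ee, mul_one]
    exact u5_prod _ _ (fun i _ => hG i _)
  have hpr : ∀ (n : ℤ) (x y : ℕ), ∏ i ∈ I, G i (w i n + α i * x + β i * y) =
      (∏ i ∈ I.filter (fun i => α i = 0), G i (w i n + β i * y)) *
        ∏ i ∈ I.filter (fun i => ¬ α i = 0), G i (w i n + α i * x) := by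
    intro n x y
    rw [← Finset.prod_filter_mul_prod_filter_not I (fun i => α i = 0)]
    refine congrArg₂ (· * ·) (Finset.prod_congr rfl fun i hi => ?_) (Finset.prod_congr rfl fun i hi => ?_)
    · rw [(Finset.mem_filter.1 hi).2, zero_mul, add_zero]
    · have h1 := hab i (Finset.mem_filter.1 hi).1
      rcases h1 with h1 | h1
      · exact absurd h1 (Finset.mem_filter.1 hi).2
      · rw [h1, zero_mul, add_zero]
  have key : ∀ x ∈ range X, ∀ y ∈ range X, ∀ n ∈ Ico n1 n2,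
      (if p ≤ n + s * x + s' * y ∧ n + s * x + s' * y < q then (1 : ℂ) else 0) *
        W x y * (∏ i ∈ I, G i (w i n + α i * x + β i * y)) * cutJ X F (e0 * n + e1 * x + e2 * y + c) =
      ∑ j ∈ range M, cc j * (W x y * A j n y * B j n x * cutJ X F (e0 * n + e1 * x + e2 * y + c)) := by
    intro x hx y hy n hn'
    rw [Finset.mem_range] at hx hy
    rw [Finset.mem_Ico] at hn'
    have hx' : (x : ℤ) ≤ X := by exact_mod_cast hx.le
    have hy' : (y : ℤ) ≤ X := by exact_mod_cast hy.le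
    have hx0 : (0 : ℤ) ≤ x := Int.natCast_nonneg x
    have hy0 : (0 : ℤ) ≤ y := Int.natCast_nonneg y
    have hE0 : (0 : ℤ) ≤ E := Int.natCast_nonneg E
    have hX0 : (1 : ℤ) ≤ X := by exact_mod_cast hXc
    have a1 : |s * x| ≤ E * X := by
      rw [abs_mul, abs_of_nonneg hx0]
      exact mul_le_mul hs hx' hx0 hE0
    have a2 : |s' * y| ≤ E * X := by
      rw [abs_mul, abs_of_nonneg hy0]
      exact mul_le_mul hs' hy' hy0 hE0
    have b1 := abs_le.1 a1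
    have b2 := abs_le.1 a2
    have hMz : (M : ℤ) = 10 * (E * X) + 10 * X := by
      rw [hM]
      push_cast
      ring
    have hν' : ν = n1 - 2 * (E * X) := by
      rw [hν]
      ring
    have hEX : (0 : ℤ) ≤ E * X := by positivity
    have c0 : (0 : ℤ) ≤ n + s * x + s' * y - ν := by
      rw [hν']
      linarith [b1.1, b2.1, hn'.1]
    have c1 : n + s * x + s' * y - ν < M := by
      rw [hν', hMz]
      linarith [b1.2, b2.2, hn'.2]
    have hind := hcc (n + s * x + s' * y - ν) c0 c1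
    have hif : (if p ≤ n + s * x + s' * y ∧ n + s * x + s' * y < q then (1 : ℂ) else 0) =
        (if p - ν ≤ n + s * x + s' * y - ν ∧ n + s * x + s' * y - ν < q - ν then (1 : ℂ) else 0) := by
      refine if_congr ?_ rfl rfl
      constructor
      · rintro ⟨d1, d2⟩
        exact ⟨by linarith, by linarith⟩
      · rintro ⟨d1, d2⟩
        exact ⟨by linarith, by linarith⟩
    rw [hif, hind, hpr, Finset.sum_mul, Finset.sum_mul, Finset.sum_mul]
    refine Finset.sum_congr rfl fun j _ => ?_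
    have he : ee ((j : ℝ) * ((n + s * x + s' * y - ν : ℤ) : ℝ) / M) =
        ee ((j : ℝ) * (n + s * x - ν) / M) * ee ((j : ℝ) * (s' * y) / M) := by
      rw [← Pool.Agent.H44W.ee_add]
      refine congrArg ee ?_
      push_cast
      ring
    rw [he]
    show _ = cc j * (W x y * ((∏ i ∈ I.filter (fun i => α i = 0), G i (w i n + β i * y)) * ee ((j : ℝ) * (s' * y) / M)) *
      ((∏ i ∈ I.filter (fun i => ¬ α i = 0), G i (w i n + α i * x)) * ee ((j : ℝ) * (n + s * x - ν) / M)) *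
      cutJ X F (e0 * n + e1 * x + e2 * y + c))
    ring
  have hsum : ∑ x ∈ range X, ∑ y ∈ range X, ∑ n ∈ Ico n1 n2,
      (if p ≤ n + s * x + s' * y ∧ n + s * x + s' * y < q then (1 : ℂ) else 0) *
        W x y * (∏ i ∈ I, G i (w i n + α i * x + β i * y)) * cutJ X F (e0 * n + e1 * x + e2 * y + c) =
      ∑ j ∈ range M, cc j * ∑ x ∈ range X, ∑ y ∈ range X, ∑ n ∈ Ico n1 n2,
        W x y * A j n y * B j n x * cutJ X F (e0 * n + e1 * x + e2 * y + c) := by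
    calc _ = ∑ x ∈ range X, ∑ y ∈ range X, ∑ n ∈ Ico n1 n2, ∑ j ∈ range M,
          cc j * (W x y * A j n y * B j n x * cutJ X F (e0 * n + e1 * x + e2 * y + c)) :=
        Finset.sum_congr rfl fun x hx => Finset.sum_congr rfl fun y hy => Finset.sum_congr rfl fun n hn' => key x hx y hy n hn'
      _ = ∑ x ∈ range X, ∑ y ∈ range X, ∑ j ∈ range M, ∑ n ∈ Ico n1 n2,
          cc j * (W x y * A j n y * B j n x * cutJ X F (e0 * n + e1 * x + e2 * y + c)) :=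
        Finset.sum_congr rfl fun x _ => Finset.sum_congr rfl fun y _ => Finset.sum_comm
      _ = ∑ x ∈ range X, ∑ j ∈ range M, ∑ y ∈ range X, ∑ n ∈ Ico n1 n2,
          cc j * (W x y * A j n y * B j n x * cutJ X F (e0 * n + e1 * x + e2 * y + c)) :=
        Finset.sum_congr rfl fun x _ => Finset.sum_comm
      _ = ∑ j ∈ range M, ∑ x ∈ range X, ∑ y ∈ range X, ∑ n ∈ Ico n1 n2,
          cc j * (W x y * A j n y * B j n x * cutJ X F (e0 * n + e1 * x + e2 * y + c)) := Finset.sum_comm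
      _ = _ := by
        refine Finset.sum_congr rfl fun j _ => ?_
        rw [Finset.mul_sum]
        refine Finset.sum_congr rfl fun x _ => ?_
        rw [Finset.mul_sum]
        refine Finset.sum_congr rfl fun y _ => ?_
        rw [Finset.mul_sum]
  rw [hsum]
  have hXr : (0 : ℝ) < X := by exact_mod_cast hXc
  have hb : ∀ j ∈ range M, ‖cc j * ∑ x ∈ range X, ∑ y ∈ range X, ∑ n ∈ Ico n1 n2,
      W x y * A j n y * B j n x * cutJ X F (e0 * n + e1 * x + e2 * y + c)‖ ≤ ‖cc j‖ * (X : ℝ) ^ (3 - κ / 20) := by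
    intro j _
    rw [norm_mul]
    exact mul_le_mul_of_nonneg_left (hX1 X hXa F hF e0 e1 e2 c he0 he1 he2 hE1 hE2 n1 n2 hn W (A j) (B j) hW (hA j) (hB j))
      (norm_nonneg _)
  have hlog := hX2 X hXb
  rw [← hM] at hlog
  have hpow : (X : ℝ) ^ (κ / 60) * (X : ℝ) ^ (3 - κ / 20) = (X : ℝ) ^ (3 - κ / 30) := by
    rw [← Real.rpow_add hXr]
    refine congrArg (fun t => (X : ℝ) ^ t) ?_
    ring
  calc _ ≤ ∑ j ∈ range M, ‖cc j‖ * (X : ℝ) ^ (3 - κ / 20) := norm_sum_le_of_le _ hb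
    _ = (∑ j ∈ range M, ‖cc j‖) * (X : ℝ) ^ (3 - κ / 20) := by rw [Finset.sum_mul]
    _ ≤ (4 * (1 + Real.log M)) * (X : ℝ) ^ (3 - κ / 20) := mul_le_mul_of_nonneg_right hcs (Real.rpow_nonneg hXr.le _)
    _ ≤ (X : ℝ) ^ (κ / 60) * (X : ℝ) ^ (3 - κ / 20) := mul_le_mul_of_nonneg_right hlog (Real.rpow_nonneg hXr.le _)
    _ = _ := hpow

end Pool.Agent.H9U
end

-- from Lib.H9U.L0
section

/-!
# H9U, chunk L0 (S): fibres of the multiplication by `e` on `ZMod q`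
-/

open Finset

namespace Pool.Agent.H9U

/-- the fibres have at most `|e|` elements -/
theorem l0_card (q : ℕ) [NeZero q] (e : ℤ) (he : e ≠ 0) (c y : ZMod q) :
    ((univ : Finset (ZMod q)).filter (fun m => (e : ZMod q) * m + c = y)).card ≤ e.natAbs := by
  classical
  have hq0 : 0 < q := Nat.pos_of_ne_zero (NeZero.ne q)
  have he0 : 0 < e.natAbs := Int.natAbs_pos.2 he
  rw [← Finset.card_range e.natAbs]
  refine Finset.card_le_card_of_injOn (fun m => m.val * e.natAbs / q) ?_ ?_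
  · intro m _
    simp only [Finset.coe_range, Set.mem_Iio]
    rw [Nat.div_lt_iff_lt_mul hq0, mul_comm]
    exact Nat.mul_lt_mul_of_pos_left (ZMod.val_lt m) he0
  · intro m hm m' hm' heq
    simp only [coe_filter, mem_univ, true_and, Set.mem_setOf_eq] at hm hm'
    have h1 : (e : ZMod q) * m = (e : ZMod q) * m' := by
      have := hm.trans hm'.symm
      exact add_right_cancel this
    have h2 : ((m.val * e.natAbs : ℕ) : ZMod q) = ((m'.val * e.natAbs : ℕ) : ZMod q) := by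
      push_cast
      rw [ZMod.natCast_zmod_val, ZMod.natCast_zmod_val]
      rcases Int.natAbs_eq e with h3 | h3
      · have h4 : (e : ZMod q) = (e.natAbs : ZMod q) := by
          conv_lhs => rw [h3]
          rw [Int.cast_natCast]
        rw [← h4, mul_comm m, mul_comm m']
        exact h1
      · have h4 : (e : ZMod q) = -(e.natAbs : ZMod q) := by
          conv_lhs => rw [h3]
          rw [Int.cast_neg, Int.cast_natCast]
        rw [h4, neg_mul, neg_mul, neg_inj] at h1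
        rw [mul_comm m, mul_comm m']
        exact h1
    rw [ZMod.natCast_eq_natCast_iff] at h2
    have h3 : m.val * e.natAbs = m'.val * e.natAbs := by
      have h4 := Nat.div_add_mod (m.val * e.natAbs) q
      have h5 := Nat.div_add_mod (m'.val * e.natAbs) q
      have h6 : m.val * e.natAbs / q = m'.val * e.natAbs / q := heq
      have h7 : m.val * e.natAbs % q = m'.val * e.natAbs % q := h2
      rw [← h4, ← h5, h6, h7]
    exact ZMod.val_injective q (Nat.eq_of_mul_eq_mul_right he0 h3)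

/-- Proof. The fibres of `m ↦ e m + c` have at most `|e|` elements: on `{m : e m + c = y}` the residue of `m.val * |e|` modulo `q` is constant, so
`m ↦ (m.val * e.natAbs) / q`, with values in `range e.natAbs`, is injective. Then `Finset.sum_fiberwise`-type rearrangement
(`∑_m g(e m + c) = ∑_y #{m : e m + c = y} g(y)`). -/
theorem L0_fib (q : ℕ) [NeZero q] (e : ℤ) (he : e ≠ 0) (c : ZMod q) (g : ZMod q → ℝ) (hg : ∀ x, 0 ≤ g x) :
    ∑ m : ZMod q, g ((e : ZMod q) * m + c) ≤ |(e : ℝ)| * ∑ x : ZMod q, g x := by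
  classical
  rw [← Finset.sum_fiberwise univ (fun m : ZMod q => (e : ZMod q) * m + c), Finset.mul_sum]
  refine Finset.sum_le_sum fun y _ => ?_
  have h1 : ∑ m ∈ univ.filter (fun m : ZMod q => (e : ZMod q) * m + c = y), g ((e : ZMod q) * m + c) =
      ∑ m ∈ univ.filter (fun m : ZMod q => (e : ZMod q) * m + c = y), g y := by
    refine Finset.sum_congr rfl fun m hm => ?_
    rw [(mem_filter.1 hm).2]
  rw [h1, Finset.sum_const, nsmul_eq_mul]
  refine mul_le_mul_of_nonneg_right ?_ (hg y)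
  have h2 : ((e.natAbs : ℕ) : ℝ) = |(e : ℝ)| := by
    rw [← Int.cast_abs, ← Int.natCast_natAbs, Int.cast_natCast]
  rw [← h2]
  exact_mod_cast l0_card q e he c y

end Pool.Agent.H9U
end

-- from Lib.H9U.L1C
section

/-!
# H9U, chunk L1C (M): removing the steps
-/

open Finset

namespace Pool.Agent.H9U

open Pool.Agent.Lib.H59T (UU)

/-- Proof. Both sides are sums over the eight points `s + ε·(e0 h, e1 h', e2 h'')`; rename the variables (`Finset.sum_comm`, `ring`). -/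
theorem L1C_symm (q : ℕ) [NeZero q] (F : ZMod q → ℂ) (e0 e1 e2 : ZMod q) :
    Vq F e0 e1 e2 = Vq F e0 e2 e1 ∧ Vq F e0 e1 e2 = Vq F e1 e0 e2 := by
  constructor
  · unfold Vq
    congr 1
    refine Finset.sum_congr rfl fun h _ => ?_
    rw [Finset.sum_comm]
    refine Finset.sum_congr rfl fun h' _ => Finset.sum_congr rfl fun h'' _ => Finset.sum_congr rfl fun s _ => ?_
    unfold P4z
    have a1 : s + e0 * h + e2 * h' = s + e2 * h' + e0 * h := by ring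
    have a2 : s + e2 * h' + e1 * h'' = s + e1 * h'' + e2 * h' := by ring
    have a3 : s + e2 * h' + e0 * h + e1 * h'' = s + e1 * h'' + e0 * h + e2 * h' := by ring
    have a4 : s + e0 * h + e1 * h'' = s + e1 * h'' + e0 * h := by ring
    rw [a2, a3, a4, a1]
    simp only [star_mul', star_star]
    ring
  · unfold Vq
    congr 1
    rw [Finset.sum_comm]
    refine Finset.sum_congr rfl fun h _ => Finset.sum_congr rfl fun h' _ => Finset.sum_congr rfl fun h'' _ =>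
      Finset.sum_congr rfl fun s _ => ?_
    have a : ∀ A B s : ZMod q, P4z F A B s = P4z F B A s := by
      intro A B s
      unfold P4z
      rw [add_right_comm]
      ring
    rw [a (e0 * h') (e1 * h), a (e0 * h') (e1 * h)]

/-- autocorrelations along multiples of `e` -/
theorem l1c_pos (q : ℕ) [NeZero q] (R : ZMod q → ℂ) (e : ZMod q) :
    0 ≤ (∑ h : ZMod q, ∑ s : ZMod q, R s * star (R (s + e * h))).re := by
  have hq0 : (0 : ℝ) < q := by exact_mod_cast Nat.pos_of_ne_zero (NeZero.ne q)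
  have h1 : ((∑ s : ZMod q, ‖∑ u : ZMod q, R (s + e * u)‖ ^ 2 : ℝ) : ℂ) =
      (q : ℂ) * ∑ h : ZMod q, ∑ s : ZMod q, R s * star (R (s + e * h)) := by
    have e1 : ∀ s : ZMod q, ((‖∑ u : ZMod q, R (s + e * u)‖ ^ 2 : ℝ) : ℂ) =
        ∑ u : ZMod q, ∑ u' : ZMod q, R (s + e * u) * star (R (s + e * u')) := by
      intro s
      rw [← Complex.normSq_eq_norm_sq, ← Complex.mul_conj, map_sum, Finset.sum_mul_sum]
      rfl
    rw [Complex.ofReal_sum, Finset.sum_congr rfl fun s _ => e1 s, Finset.sum_comm]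
    have e2 : ∀ u : ZMod q, ∑ s : ZMod q, ∑ u' : ZMod q, R (s + e * u) * star (R (s + e * u')) =
        ∑ h : ZMod q, ∑ s : ZMod q, R s * star (R (s + e * h)) := by
      intro u
      rw [Finset.sum_comm, ← Equiv.sum_comp (Equiv.addRight u)]
      refine Finset.sum_congr rfl fun h _ => ?_
      rw [← Equiv.sum_comp (Equiv.addRight (-(e * u)))]
      refine Finset.sum_congr rfl fun s _ => ?_
      simp only [Equiv.coe_addRight]
      congr 2
      · ring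
      · congr 1
        ring
    rw [Finset.sum_congr rfl fun u _ => e2 u, Finset.sum_const, Finset.card_univ, ZMod.card, nsmul_eq_mul]
  have h2 := congrArg Complex.re h1
  rw [Complex.ofReal_re, ← Complex.ofReal_natCast, Complex.re_ofReal_mul] at h2
  have h3 : 0 ≤ (q : ℝ) * (∑ h : ZMod q, ∑ s : ZMod q, R s * star (R (s + e * h))).re := by
    rw [← h2]
    positivity
  exact nonneg_of_mul_nonneg_right h3 hq0

/-- the average over the first two differences is not negative -/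
theorem l1c_g (q : ℕ) [NeZero q] (F : ZMod q → ℂ) (e0 e1 m : ZMod q) :
    0 ≤ (∑ h : ZMod q, ∑ h' : ZMod q, ∑ s : ZMod q,
      P4z F (e0 * h) (e1 * h') s * star (P4z F (e0 * h) (e1 * h') (s + m))).re := by
  rw [Finset.sum_comm, Complex.re_sum]
  refine Finset.sum_nonneg fun h' _ => ?_
  have h1 := l1c_pos q (fun s => (F s * star (F (s + m))) * star (F (s + e1 * h') * star (F (s + e1 * h' + m)))) e0
  refine le_of_le_of_eq h1 (congrArg Complex.re ?_)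
  refine Finset.sum_congr rfl fun h _ => Finset.sum_congr rfl fun s _ => ?_
  unfold P4z
  have a1 : s + e0 * h + e1 * h' + m = s + m + e0 * h + e1 * h' := by ring
  have a2 : s + e0 * h + m = s + m + e0 * h := by ring
  have a3 : s + e1 * h' + m = s + m + e1 * h' := by ring
  rw [a1, a2, a3]
  simp only [star_mul', star_star]
  ring

/-- Proof. `Vq F e0 e1 e2 = ∑_{h''} g(e2 h'')` with `g(m) = Re ∑_{h,h',s} P4z F (e0 h) (e1 h') s star (P4z F (e0 h) (e1 h') (s + m))`. With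
`P(s) = F(s) star F(s + m)` this is `Re ∑_{h,h',s} P(s) star P(s + e0 h) star P(s + e1 h') P(s + e0 h + e1 h')
= ∑_{h'} Re ∑_{h,s} R(s) star R(s + e0 h)`, `R(s) = P(s) star P(s + e1 h')`, and `q ∑_{h,s} R(s) star R(s + e0 h) =
∑_s ‖∑_u R(s + e0 u)‖² ≥ 0` (substitute `s → s + e0 u`, `h → u' - u`). So `g ≥ 0` and `L0_fib` (with `c = 0`) gives the claim. -/
theorem L1C_step (q : ℕ) [NeZero q] (F : ZMod q → ℂ) (e0 e1 : ZMod q) (e2 : ℤ) (he : e2 ≠ 0) :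
    Vq F e0 e1 (e2 : ZMod q) ≤ |(e2 : ℝ)| * Vq F e0 e1 1 := by
  have h1 : ∀ e : ZMod q, Vq F e0 e1 e = ∑ h'' : ZMod q, (∑ h : ZMod q, ∑ h' : ZMod q, ∑ s : ZMod q,
      P4z F (e0 * h) (e1 * h') s * star (P4z F (e0 * h) (e1 * h') (s + e * h''))).re := by
    intro e
    unfold Vq
    rw [← Complex.re_sum]
    congr 1
    rw [Finset.sum_congr rfl fun h _ => Finset.sum_comm, Finset.sum_comm]
  rw [h1, h1]
  have h2 := L0_fib q e2 he 0 (fun m => (∑ h : ZMod q, ∑ h' : ZMod q, ∑ s : ZMod q,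
      P4z F (e0 * h) (e1 * h') s * star (P4z F (e0 * h) (e1 * h') (s + m))).re) (fun m => l1c_g q F e0 e1 m)
  simp only [add_zero] at h2
  simp only [one_mul]
  exact h2

/-- Proof. `Vq F 1 1 1 = UU F`: `∑_{h'',s} G(s) star G(s + h'') = ‖∑_s G(s)‖²`. Then `L1C_step` three times, with `L1C_symm`. -/
theorem L1C_le (q : ℕ) [NeZero q] (F : ZMod q → ℂ) (e0 e1 e2 : ℤ) (h0 : e0 ≠ 0) (h1 : e1 ≠ 0) (h2 : e2 ≠ 0) :
    Vq F (e0 : ZMod q) (e1 : ZMod q) (e2 : ZMod q) ≤ |(e0 : ℝ)| * |(e1 : ℝ)| * |(e2 : ℝ)| * UU F := by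
  have hU : Vq F 1 1 1 = UU F := by
    have e1 : ((UU F : ℝ) : ℂ) = ∑ h : ZMod q, ∑ h' : ZMod q, ∑ h'' : ZMod q, ∑ s : ZMod q,
        P4z F (1 * h) (1 * h') s * star (P4z F (1 * h) (1 * h') (s + 1 * h'')) := by
      unfold UU
      rw [Complex.ofReal_sum]
      refine Finset.sum_congr rfl fun h _ => ?_
      rw [Complex.ofReal_sum]
      refine Finset.sum_congr rfl fun h' _ => ?_
      rw [← Complex.normSq_eq_norm_sq, ← Complex.mul_conj, Finset.sum_mul, Finset.sum_comm]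
      refine Finset.sum_congr rfl fun s _ => ?_
      rw [← Finset.mul_sum, one_mul, one_mul]
      congr 1
      rw [map_sum, ← Equiv.sum_comp (Equiv.addLeft s)]
      refine Finset.sum_congr rfl fun h'' _ => ?_
      rw [Equiv.coe_addLeft, one_mul]
      rfl
    have e2 := congrArg Complex.re e1
    rw [Complex.ofReal_re] at e2
    rw [e2]
    rfl
  have s1 := L1C_step q F (e0 : ZMod q) (e1 : ZMod q) e2 h2
  have s2 := L1C_step q F (e0 : ZMod q) 1 e1 h1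
  have s3 := L1C_step q F 1 1 e0 h0
  have t1 : Vq F (e0 : ZMod q) (e1 : ZMod q) 1 = Vq F (e0 : ZMod q) 1 (e1 : ZMod q) := (L1C_symm q F _ _ _).1
  have t2 : Vq F (e0 : ZMod q) 1 1 = Vq F 1 1 (e0 : ZMod q) := ((L1C_symm q F _ _ _).2).trans (L1C_symm q F _ _ _).1
  rw [hU] at s3
  rw [t1] at s1
  rw [t2] at s2
  have a1 : (0 : ℝ) ≤ |(e1 : ℝ)| := abs_nonneg _
  have a2 : (0 : ℝ) ≤ |(e2 : ℝ)| := abs_nonneg _
  calc _ ≤ |(e2 : ℝ)| * Vq F (e0 : ZMod q) 1 (e1 : ZMod q) := s1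
    _ ≤ |(e2 : ℝ)| * (|(e1 : ℝ)| * (|(e0 : ℝ)| * UU F)) :=
        mul_le_mul_of_nonneg_left (s2.trans (mul_le_mul_of_nonneg_left s3 a1)) a2
    _ = _ := by ring

end Pool.Agent.H9U
end

-- from Lib.H9U.L1A
section

/-!
# H9U, chunk L1A (M): three applications of the inequality of Cauchy and Schwarz
-/

open Finset

namespace Pool.Agent.H9U

theorem l1a_c {ι : Type*} [Fintype ι] (u v : ι → ℂ) (hu : ∀ i, ‖u i‖ ≤ 1) :
    ‖∑ i, u i * v i‖ ^ 2 ≤ Fintype.card ι * ∑ i, ‖v i‖ ^ 2 := by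
  have h1 : ‖∑ i, u i * v i‖ ≤ ∑ i, ‖v i‖ := by
    refine (norm_sum_le _ _).trans (Finset.sum_le_sum fun i _ => ?_)
    rw [norm_mul]
    exact mul_le_of_le_one_left (norm_nonneg _) (hu i)
  have h2 : (∑ i, ‖v i‖) ^ 2 ≤ Fintype.card ι * ∑ i, ‖v i‖ ^ 2 := by
    have := sq_sum_le_card_mul_sum_sq (s := (univ : Finset ι)) (f := fun i => ‖v i‖)
    rwa [Finset.card_univ] at this
  exact (pow_le_pow_left₀ (norm_nonneg _) h1 2).trans h2

theorem l1a_sq {ι : Type*} [Fintype ι] (a : ι → ℂ) : ((‖∑ i, a i‖ ^ 2 : ℝ) : ℂ) = ∑ i, ∑ j, a i * star (a j) := by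
  have h2 : ((‖∑ i, a i‖ ^ 2 : ℝ) : ℂ) = (∑ i, a i) * star (∑ i, a i) := by
    rw [Complex.star_def, Complex.mul_conj, Complex.normSq_eq_norm_sq]
  rw [h2, star_sum, Finset.sum_mul_sum]

theorem l1a_m (u v : ℂ) (hu : ‖u‖ ≤ 1) (hv : ‖v‖ ≤ 1) : ‖u * v‖ ≤ 1 := by
  rw [norm_mul]
  exact mul_le_one₀ hu (norm_nonneg _) hv

/-- Proof. `T` = the sum. (1) Over `(x, y)`, with `‖W‖ ≤ 1`: `|T|² ≤ q² T1`, `T1 = ∑_{x,y} |∑_n A(n,y) B(n,x) F|²
= ∑_{y,n,n'} A(n,y) star A(n',y) ∑_x B(n,x) star B(n',x) F(n,x,y) star F(n',x,y)`. (2) Over `(y, n, n')`: `T1² ≤ q³ T2`,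
`T2 = ∑_{y,n,n'} |∑_x …|² = ∑_{n,n',x,x'} B(n,x) star B(n',x) star B(n,x') B(n',x') ∑_y F F F F`. (3) Over `(n,n',x,x')`:
`T2² ≤ q⁴ Bq`. So `|T|^8 ≤ q^8 T1^4 ≤ q^8 q^6 T2² ≤ q^18 Bq`. (`u3_sq`, `ua_cs`, `ua_sq` in `H59T/U3.lean`, `UA.lean` are similar.) -/
theorem L1A_cs (q : ℕ) [NeZero q] (F : ZMod q → ℂ) (A B W : ZMod q → ZMod q → ℂ) (hA : ∀ x y, ‖A x y‖ ≤ 1)
    (hB : ∀ x y, ‖B x y‖ ≤ 1) (hW : ∀ x y, ‖W x y‖ ≤ 1) (e0 e1 e2 c : ZMod q) :
    ‖∑ x : ZMod q, ∑ y : ZMod q, ∑ n : ZMod q, W x y * A n y * B n x * F (e0 * n + e1 * x + e2 * y + c)‖ ^ 8 ≤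
      (q : ℝ) ^ 18 * Bq F e0 e1 e2 c := by
  obtain ⟨G, hG⟩ : ∃ G : ZMod q → ZMod q → ZMod q → ℂ, ∀ n x y, G n x y = F (e0 * n + e1 * x + e2 * y + c) :=
    ⟨_, fun _ _ _ => rfl⟩
  have hs : ∀ z : ℂ, ‖star z‖ = ‖z‖ := fun z => norm_star z
  set T1 : ℝ := ∑ x : ZMod q, ∑ y : ZMod q, ‖∑ n : ZMod q, A n y * (B n x * G n x y)‖ ^ 2 with hT1
  set T2 : ℝ := ∑ y : ZMod q, ∑ n : ZMod q, ∑ n' : ZMod q,
    ‖∑ x : ZMod q, B n x * star (B n' x) * (G n x y * star (G n' x y))‖ ^ 2 with hT2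
  have h1 : ‖∑ x : ZMod q, ∑ y : ZMod q, ∑ n : ZMod q, W x y * A n y * B n x * F (e0 * n + e1 * x + e2 * y + c)‖ ^ 2 ≤
      (q : ℝ) ^ 2 * T1 := by
    have e := l1a_c (ι := ZMod q × ZMod q) (fun p => W p.1 p.2) (fun p => ∑ n : ZMod q, A n p.2 * (B n p.1 * G n p.1 p.2))
      (fun p => hW p.1 p.2)
    rw [Fintype.card_prod, ZMod.card, Fintype.sum_prod_type, Fintype.sum_prod_type] at e
    have e2 : ∑ x : ZMod q, ∑ y : ZMod q, ∑ n : ZMod q, W x y * A n y * B n x * F (e0 * n + e1 * x + e2 * y + c) =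
        ∑ x : ZMod q, ∑ y : ZMod q, W x y * ∑ n : ZMod q, A n y * (B n x * G n x y) := by
      refine sum_congr rfl fun x _ => sum_congr rfl fun y _ => ?_
      rw [mul_sum]
      refine sum_congr rfl fun n _ => ?_
      rw [hG]
      ring
    rw [e2]
    refine e.trans (le_of_eq ?_)
    push_cast
    ring
  have hT1n : 0 ≤ T1 := Finset.sum_nonneg fun x _ => Finset.sum_nonneg fun y _ => by positivity
  have hT2n : 0 ≤ T2 := Finset.sum_nonneg fun x _ => Finset.sum_nonneg fun y _ => Finset.sum_nonneg fun _ _ => by positivity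
  have h2 : T1 ^ 2 ≤ (q : ℝ) ^ 3 * T2 := by
    have e := l1a_c (ι := ZMod q × ZMod q × ZMod q) (fun p => A p.2.1 p.1 * star (A p.2.2 p.1))
      (fun p => ∑ x : ZMod q, B p.2.1 x * star (B p.2.2 x) * (G p.2.1 x p.1 * star (G p.2.2 x p.1)))
      (fun p => l1a_m _ _ (hA _ _) (by rw [hs]; exact hA _ _))
    rw [Fintype.card_prod, Fintype.card_prod, ZMod.card, Fintype.sum_prod_type, Fintype.sum_prod_type] at e
    simp only [Fintype.sum_prod_type] at e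
    have e2 : ((T1 : ℝ) : ℂ) = ∑ y : ZMod q, ∑ n : ZMod q, ∑ n' : ZMod q, A n y * star (A n' y) *
        ∑ x : ZMod q, B n x * star (B n' x) * (G n x y * star (G n' x y)) := by
      rw [hT1]
      push_cast [l1a_sq]
      rw [Finset.sum_comm]
      refine sum_congr rfl fun y _ => ?_
      have e3 : ∀ x : ZMod q, ((‖∑ n : ZMod q, A n y * (B n x * G n x y)‖ : ℝ) : ℂ) ^ 2 =
          ∑ n : ZMod q, ∑ n' : ZMod q, A n y * star (A n' y) * (B n x * star (B n' x) * (G n x y * star (G n' x y))) := by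
        intro x
        have := l1a_sq (fun n : ZMod q => A n y * (B n x * G n x y))
        push_cast at this
        rw [this]
        refine sum_congr rfl fun n _ => sum_congr rfl fun n' _ => ?_
        rw [star_mul', star_mul']
        ring
      rw [sum_congr rfl fun x _ => e3 x, Finset.sum_comm]
      refine sum_congr rfl fun n _ => ?_
      rw [Finset.sum_comm]
      refine sum_congr rfl fun n' _ => ?_
      rw [mul_sum]
    rw [← e2, Complex.norm_real, Real.norm_of_nonneg hT1n] at e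
    refine e.trans (le_of_eq ?_)
    push_cast
    ring
  have h3 : T2 ^ 2 ≤ (q : ℝ) ^ 4 * Bq F e0 e1 e2 c := by
    have e := l1a_c (ι := ZMod q × ZMod q × ZMod q × ZMod q)
      (fun p => (B p.1 p.2.2.1 * star (B p.2.1 p.2.2.1)) * (star (B p.1 p.2.2.2) * B p.2.1 p.2.2.2))
      (fun p => ∑ y : ZMod q, G p.1 p.2.2.1 y * star (G p.2.1 p.2.2.1 y) * star (G p.1 p.2.2.2 y) * G p.2.1 p.2.2.2 y)
      (fun p => l1a_m _ _ (l1a_m _ _ (hB _ _) (by rw [hs]; exact hB _ _)) (l1a_m _ _ (by rw [hs]; exact hB _ _) (hB _ _)))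
    rw [Fintype.card_prod, Fintype.card_prod, Fintype.card_prod, ZMod.card, Fintype.sum_prod_type, Fintype.sum_prod_type] at e
    simp only [Fintype.sum_prod_type] at e
    have f2 : ((T2 : ℝ) : ℂ) = ∑ n : ZMod q, ∑ n' : ZMod q, ∑ x : ZMod q, ∑ x' : ZMod q,
        (B n x * star (B n' x)) * (star (B n x') * B n' x') *
        ∑ y : ZMod q, G n x y * star (G n' x y) * star (G n x' y) * G n' x' y := by
      rw [hT2]
      push_cast
      have e3 : ∀ y n n' : ZMod q, ((‖∑ x : ZMod q, B n x * star (B n' x) * (G n x y * star (G n' x y))‖ : ℝ) : ℂ) ^ 2 =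
          ∑ x : ZMod q, ∑ x' : ZMod q, (B n x * star (B n' x)) * (star (B n x') * B n' x') *
            (G n x y * star (G n' x y) * star (G n x' y) * G n' x' y) := by
        intro y n n'
        have := l1a_sq (fun x : ZMod q => B n x * star (B n' x) * (G n x y * star (G n' x y)))
        push_cast at this
        rw [this]
        refine sum_congr rfl fun x _ => sum_congr rfl fun x' _ => ?_
        rw [star_mul', star_mul', star_mul', star_star, star_star]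
        ring
      rw [sum_congr rfl fun y _ => sum_congr rfl fun n _ => sum_congr rfl fun n' _ => e3 y n n', Finset.sum_comm]
      refine sum_congr rfl fun n _ => ?_
      rw [Finset.sum_comm]
      refine sum_congr rfl fun n' _ => ?_
      rw [Finset.sum_comm]
      refine sum_congr rfl fun x _ => ?_
      rw [Finset.sum_comm]
      refine sum_congr rfl fun x' _ => ?_
      rw [mul_sum]
    rw [← f2, Complex.norm_real, Real.norm_of_nonneg hT2n] at e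
    refine e.trans (le_of_eq ?_)
    have e4 : Bq F e0 e1 e2 c = ∑ n : ZMod q, ∑ n' : ZMod q, ∑ x : ZMod q, ∑ x' : ZMod q,
        ‖∑ y : ZMod q, G n x y * star (G n' x y) * star (G n x' y) * G n' x' y‖ ^ 2 := by
      unfold Bq
      simp only [hG]
    rw [e4]
    push_cast
    ring
  have hB0 : 0 ≤ Bq F e0 e1 e2 c := by
    unfold Bq
    exact Finset.sum_nonneg fun _ _ => Finset.sum_nonneg fun _ _ => Finset.sum_nonneg fun _ _ =>
      Finset.sum_nonneg fun _ _ => by positivity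
  have hq0 : (0 : ℝ) ≤ q := Nat.cast_nonneg _
  set T := ‖∑ x : ZMod q, ∑ y : ZMod q, ∑ n : ZMod q, W x y * A n y * B n x * F (e0 * n + e1 * x + e2 * y + c)‖ with hT
  calc T ^ 8 = (T ^ 2) ^ 4 := by ring
    _ ≤ ((q : ℝ) ^ 2 * T1) ^ 4 := pow_le_pow_left₀ (by positivity) h1 4
    _ = (q : ℝ) ^ 8 * (T1 ^ 2) ^ 2 := by ring
    _ ≤ (q : ℝ) ^ 8 * ((q : ℝ) ^ 3 * T2) ^ 2 :=
        mul_le_mul_of_nonneg_left (pow_le_pow_left₀ (by positivity) h2 2) (by positivity)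
    _ = (q : ℝ) ^ 14 * T2 ^ 2 := by ring
    _ ≤ (q : ℝ) ^ 14 * ((q : ℝ) ^ 4 * Bq F e0 e1 e2 c) := mul_le_mul_of_nonneg_left h3 (by positivity)
    _ = _ := by ring

end Pool.Agent.H9U
end

-- from Lib.H9U.L1B
section

/-!
# H9U, chunk L1B (S/M): the average of the box sum over the base point
-/

open Finset

namespace Pool.Agent.H9U

/-- Proof. Replace `n, n'` by `n + m, n' + m` (`Equiv.sum_comp (Equiv.addRight m)`). -/
theorem L1B_shift (q : ℕ) [NeZero q] (F : ZMod q → ℂ) (e0 e1 e2 c m : ZMod q) :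
    Bq F e0 e1 e2 (e0 * m + c) = Bq F e0 e1 e2 c := by
  unfold Bq
  symm
  rw [← Equiv.sum_comp (Equiv.addRight m)]
  refine sum_congr rfl fun n _ => ?_
  rw [← Equiv.sum_comp (Equiv.addRight m)]
  refine sum_congr rfl fun n' _ => sum_congr rfl fun x _ => sum_congr rfl fun x' _ => ?_
  congr 2
  refine sum_congr rfl fun y _ => ?_
  simp only [Equiv.coe_addRight]
  have h : ∀ n x : ZMod q, e0 * (n + m) + e1 * x + e2 * y + c = e0 * n + e1 * x + e2 * y + (e0 * m + c) := by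
    intro n x
    ring
  rw [h, h, h, h]

theorem l1b_sq (q : ℕ) [NeZero q] (g : ZMod q → ℂ) :
    (((‖∑ z : ZMod q, g z‖ ^ 2 : ℝ)) : ℂ) = ∑ h : ZMod q, ∑ z : ZMod q, g z * star (g (z + h)) := by
  have e2 : (((‖∑ z : ZMod q, g z‖ ^ 2 : ℝ)) : ℂ) = (∑ z : ZMod q, g z) * star (∑ z : ZMod q, g z) := by
    rw [Complex.star_def, Complex.mul_conj, Complex.normSq_eq_norm_sq]
  rw [e2, star_sum, Finset.sum_mul_sum, Finset.sum_comm]
  have e3 : ∀ z : ZMod q, ∑ h : ZMod q, g z * star (g (z + h)) = ∑ w : ZMod q, g z * star (g w) := by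
    intro z
    rw [← Equiv.sum_comp (Equiv.addLeft z) (fun w => g z * star (g w))]
    rfl
  rw [Finset.sum_comm, Finset.sum_comm (f := fun h z => g z * star (g (z + h)))]
  exact (Finset.sum_congr rfl fun z _ => e3 z).symm

/-- the sum over the base point of the squares -/
theorem l1b_R (q : ℕ) [NeZero q] (P : ZMod q → ℂ) (e2 : ZMod q) :
    ((∑ c : ZMod q, ‖∑ y : ZMod q, P (c + e2 * y)‖ ^ 2 : ℝ) : ℂ) =
      q * ∑ h : ZMod q, ∑ s : ZMod q, P s * star (P (s + e2 * h)) := by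
  push_cast
  have h1 : ∀ c : ZMod q, ((‖∑ y : ZMod q, P (c + e2 * y)‖ : ℝ) : ℂ) ^ 2 =
      ∑ h : ZMod q, ∑ y : ZMod q, P (c + e2 * y) * star (P (c + e2 * y + e2 * h)) := by
    intro c
    have := l1b_sq q (fun y => P (c + e2 * y))
    push_cast at this
    rw [this]
    refine sum_congr rfl fun h _ => sum_congr rfl fun y _ => ?_
    rw [mul_add, ← add_assoc]
  rw [sum_congr rfl fun c _ => h1 c, Finset.sum_comm, mul_sum]
  refine sum_congr rfl fun h _ => ?_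
  rw [Finset.sum_comm]
  have h2 : ∀ y : ZMod q, ∑ c : ZMod q, P (c + e2 * y) * star (P (c + e2 * y + e2 * h)) =
      ∑ s : ZMod q, P s * star (P (s + e2 * h)) := by
    intro y
    exact Equiv.sum_comp (Equiv.addRight (e2 * y)) (fun s => P s * star (P (s + e2 * h)))
  rw [sum_congr rfl fun y _ => h2 y, Finset.sum_const, Finset.card_univ, ZMod.card, nsmul_eq_mul]

/-- differences -/
theorem l1b_diff (q : ℕ) [NeZero q] {M : Type*} [AddCommMonoid M] (f : ZMod q → M) :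
    ∑ n : ZMod q, ∑ n' : ZMod q, f (n' - n) = q • ∑ h : ZMod q, f h := by
  have h1 : ∀ n : ZMod q, ∑ n' : ZMod q, f (n' - n) = ∑ h : ZMod q, f h := by
    intro n
    exact Equiv.sum_comp (Equiv.subRight n) f
  rw [sum_congr rfl fun n _ => h1 n, Finset.sum_const, Finset.card_univ, ZMod.card]

/-- Proof. For fixed `n, n', x, x'` replace `c` by `c - e0 n - e1 x`: `∑_c ‖∑_y P4z F A B (c + e2 y)‖²` with `A = e0 (n' - n)`,
`B = e1 (x' - x)`; this is `∑_{y,y'} ∑_c P4z F A B (c + e2 y) star (P4z F A B (c + e2 y')) = q ∑_{h''} ∑_s P4z F A B s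
star (P4z F A B (s + e2 h''))` (`c = s - e2 y`, `y' = y + h''`). Then `n' = n + h`, `x' = x + h'`, the sums over `n` and `x` give `q²`. All is
real, so one may compute in the complex numbers and take real parts. -/
theorem L1B_avg (q : ℕ) [NeZero q] (F : ZMod q → ℂ) (e0 e1 e2 : ZMod q) :
    ∑ c : ZMod q, Bq F e0 e1 e2 c = (q : ℝ) ^ 3 * Vq F e0 e1 e2 := by
  obtain ⟨R, hR⟩ : ∃ R : ZMod q → ZMod q → ℝ, ∀ A B, R A B = ∑ c : ZMod q, ‖∑ y : ZMod q, P4z F A B (c + e2 * y)‖ ^ 2 :=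
    ⟨_, fun _ _ => rfl⟩
  have h1 : ∑ c : ZMod q, Bq F e0 e1 e2 c = ∑ n : ZMod q, ∑ n' : ZMod q, ∑ x : ZMod q, ∑ x' : ZMod q,
      R (e0 * (n' - n)) (e1 * (x' - x)) := by
    unfold Bq
    rw [Finset.sum_comm]
    refine sum_congr rfl fun n _ => ?_
    rw [Finset.sum_comm]
    refine sum_congr rfl fun n' _ => ?_
    rw [Finset.sum_comm]
    refine sum_congr rfl fun x _ => ?_
    rw [Finset.sum_comm]
    refine sum_congr rfl fun x' _ => ?_
    rw [hR, ← Equiv.sum_comp (Equiv.addRight (e0 * n + e1 * x))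
      (fun c => ‖∑ y : ZMod q, P4z F (e0 * (n' - n)) (e1 * (x' - x)) (c + e2 * y)‖ ^ 2)]
    refine sum_congr rfl fun c _ => ?_
    simp only [Equiv.coe_addRight]
    congr 2
    refine sum_congr rfl fun y _ => ?_
    unfold P4z
    have a1 : e0 * n + e1 * x + e2 * y + c = c + (e0 * n + e1 * x) + e2 * y := by ring
    have a2 : e0 * n' + e1 * x + e2 * y + c = c + (e0 * n + e1 * x) + e2 * y + e0 * (n' - n) := by ring
    have a3 : e0 * n + e1 * x' + e2 * y + c = c + (e0 * n + e1 * x) + e2 * y + e1 * (x' - x) := by ring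
    have a4 : e0 * n' + e1 * x' + e2 * y + c = c + (e0 * n + e1 * x) + e2 * y + e0 * (n' - n) + e1 * (x' - x) := by ring
    rw [a1, a2, a3, a4]
  have h2 : ∑ n : ZMod q, ∑ n' : ZMod q, ∑ x : ZMod q, ∑ x' : ZMod q,
      R (e0 * (n' - n)) (e1 * (x' - x)) = (q : ℝ) ^ 2 * ∑ h : ZMod q, ∑ h' : ZMod q, R (e0 * h) (e1 * h') := by
    rw [l1b_diff q (fun h => ∑ x : ZMod q, ∑ x' : ZMod q, R (e0 * h) (e1 * (x' - x))), nsmul_eq_mul]
    have h3 : ∀ h : ZMod q, ∑ x : ZMod q, ∑ x' : ZMod q, R (e0 * h) (e1 * (x' - x)) = (q : ℝ) * ∑ h' : ZMod q, R (e0 * h) (e1 * h') := by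
      intro h
      rw [l1b_diff q (fun h' => R (e0 * h) (e1 * h')), nsmul_eq_mul]
    rw [sum_congr rfl fun h _ => h3 h, ← mul_sum]
    ring
  rw [h1, h2]
  have h4 : ((∑ h : ZMod q, ∑ h' : ZMod q, R (e0 * h) (e1 * h') : ℝ) : ℂ) =
      q * ∑ h : ZMod q, ∑ h' : ZMod q, ∑ h'' : ZMod q, ∑ s : ZMod q,
        P4z F (e0 * h) (e1 * h') s * star (P4z F (e0 * h) (e1 * h') (s + e2 * h'')) := by
    rw [Complex.ofReal_sum, mul_sum]
    refine sum_congr rfl fun h _ => ?_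
    rw [Complex.ofReal_sum, mul_sum]
    refine sum_congr rfl fun h' _ => ?_
    rw [hR, l1b_R q (P4z F (e0 * h) (e1 * h')) e2]
  have h5 : ∑ h : ZMod q, ∑ h' : ZMod q, R (e0 * h) (e1 * h') = (q : ℝ) * Vq F e0 e1 e2 := by
    have h6 := congrArg Complex.re h4
    rw [Complex.ofReal_re, ← Complex.ofReal_natCast, Complex.re_ofReal_mul] at h6
    rw [h6]
    rfl
  rw [h5]
  ring

end Pool.Agent.H9U
end

-- from Lib.H9U.L1
section

/-!
# H9U, chunk L1 (S): the box lemma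
-/

open Finset

namespace Pool.Agent.H9U

open Pool.Agent.Lib.H59T (UU)

/-- **The box lemma.** Proof. `L1A_cs`; `q Bq(c) = ∑_m Bq(e0 m + c)` (`L1B_shift`) `≤ |e0| ∑_x Bq(x)` (`L0_fib`, `Bq ≥ 0`)
`= |e0| q³ Vq ≤ |e0| q³ |e0 e1 e2| UU F` (`L1B_avg`, `L1C_le`); divide by `q`. -/
theorem L1_box (q : ℕ) [NeZero q] (F : ZMod q → ℂ) (A B W : ZMod q → ZMod q → ℂ) (hA : ∀ x y, ‖A x y‖ ≤ 1)
    (hB : ∀ x y, ‖B x y‖ ≤ 1) (hW : ∀ x y, ‖W x y‖ ≤ 1) (e0 e1 e2 : ℤ) (h0 : e0 ≠ 0) (h1 : e1 ≠ 0) (h2 : e2 ≠ 0)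
    (c : ZMod q) :
    ‖∑ x : ZMod q, ∑ y : ZMod q, ∑ n : ZMod q, W x y * A n y * B n x *
        F ((e0 : ZMod q) * n + (e1 : ZMod q) * x + (e2 : ZMod q) * y + c)‖ ^ 8 ≤
      |(e0 : ℝ)| ^ 2 * |(e1 : ℝ)| * |(e2 : ℝ)| * (q : ℝ) ^ 20 * UU F := by
  have hq0 : (0 : ℝ) < q := by exact_mod_cast Nat.pos_of_ne_zero (NeZero.ne q)
  refine (L1A_cs q F A B W hA hB hW (e0 : ZMod q) (e1 : ZMod q) (e2 : ZMod q) c).trans ?_
  have hB0 : ∀ x, 0 ≤ Bq F (e0 : ZMod q) (e1 : ZMod q) (e2 : ZMod q) x := by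
    intro x
    unfold Bq
    positivity
  have h3 : (q : ℝ) * Bq F (e0 : ZMod q) (e1 : ZMod q) (e2 : ZMod q) c ≤
      |(e0 : ℝ)| * ((q : ℝ) ^ 3 * (|(e0 : ℝ)| * |(e1 : ℝ)| * |(e2 : ℝ)| * UU F)) := by
    have h4 : (q : ℝ) * Bq F (e0 : ZMod q) (e1 : ZMod q) (e2 : ZMod q) c =
        ∑ m : ZMod q, Bq F (e0 : ZMod q) (e1 : ZMod q) (e2 : ZMod q) ((e0 : ZMod q) * m + c) := by
      rw [Finset.sum_congr rfl fun m _ => L1B_shift q F (e0 : ZMod q) (e1 : ZMod q) (e2 : ZMod q) c m, Finset.sum_const,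
        Finset.card_univ, ZMod.card, nsmul_eq_mul]
    rw [h4]
    refine (L0_fib q e0 h0 c _ hB0).trans ?_
    refine mul_le_mul_of_nonneg_left ?_ (abs_nonneg _)
    rw [L1B_avg]
    exact mul_le_mul_of_nonneg_left (L1C_le q F e0 e1 e2 h0 h1 h2) (by positivity)
  have h5 : (q : ℝ) * ((q : ℝ) ^ 18 * Bq F (e0 : ZMod q) (e1 : ZMod q) (e2 : ZMod q) c) ≤
      (q : ℝ) * (|(e0 : ℝ)| ^ 2 * |(e1 : ℝ)| * |(e2 : ℝ)| * (q : ℝ) ^ 20 * UU F) := by
    have h6 := mul_le_mul_of_nonneg_left h3 (by positivity : (0 : ℝ) ≤ (q : ℝ) ^ 18)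
    refine le_trans (le_of_eq ?_) (h6.trans (le_of_eq ?_))
    · ring
    · ring
  exact le_of_mul_le_mul_left h5 hq0

end Pool.Agent.H9U
end

-- from Lib.H9U.L2
section

/-!
# H9U, chunk L2 (M): the first moment is bounded by the `U³` norm of each function
-/

open Finset

namespace Pool.Agent.H9U

open Pool.Agent.Lib.H59T (UU)

/-- the affine forms along the two directions -/
theorem l2_vz {k d : ℕ} (S : Sys k d) (s s' : ℤ) (u u' : Fin d → ℤ) (q : ℕ) (b : Fin k → ℤ) (n x y : ZMod q)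
    (t : Fin d → ZMod q) (i : Fin k) :
    S.vz q b (n + (x * s + y * s')) (fun j => t j + (x * u j + y * u' j)) i =
      S.vz q b n t i + x * (S.lin i s u : ZMod q) + y * (S.lin i s' u' : ZMod q) := by
  unfold Sys.vz Sys.lin
  push_cast
  simp only [mul_add, Finset.sum_add_distrib, Finset.mul_sum]
  have h1 : ∀ v : Fin d → ℤ, ∀ z : ZMod q, ∑ j, (S.c i j : ZMod q) * (z * (v j : ZMod q)) =
      ∑ j, z * ((S.c i j : ZMod q) * (v j : ZMod q)) := by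
    intro v z
    exact Finset.sum_congr rfl fun j _ => by ring
  rw [h1 u x, h1 u' y]
  ring

/-- unimodular factors -/
theorem l2_w {ι : Type*} (z : ι → ℂ) : ∃ w : ι → ℂ, (∀ t, ‖w t‖ ≤ 1) ∧ ∀ t, ((‖z t‖ : ℝ) : ℂ) = w t * z t := by
  classical
  refine ⟨fun t => if z t = 0 then 0 else ((‖z t‖ : ℝ) : ℂ) / z t, fun t => ?_, fun t => ?_⟩
  · show ‖(if z t = 0 then 0 else ((‖z t‖ : ℝ) : ℂ) / z t)‖ ≤ 1
    split_ifs with h
    · rw [norm_zero]
      exact zero_le_one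
    · rw [norm_div, Complex.norm_real, norm_norm, div_self (norm_ne_zero_iff.2 h)]
  · show ((‖z t‖ : ℝ) : ℂ) = (if z t = 0 then 0 else ((‖z t‖ : ℝ) : ℂ) / z t) * z t
    split_ifs with h
    · rw [h, norm_zero, Complex.ofReal_zero, zero_mul]
    · rw [div_mul_cancel₀ _ h]

/-- a product of functions bounded by one -/
theorem l2_prod {ι : Type*} (s : Finset ι) (f : ι → ℂ) (hf : ∀ i ∈ s, ‖f i‖ ≤ 1) : ‖∏ i ∈ s, f i‖ ≤ 1 := by
  rw [norm_prod]
  exact Finset.prod_le_one (fun i _ => norm_nonneg _) hf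

/-- the bound for one base point -/
theorem l2_pt {k d : ℕ} (S : Sys k d) (i0 : Fin k) (s s' : ℤ) (u u' : Fin d → ℤ) (h0 : S.a i0 ≠ 0)
    (h1 : S.lin i0 s u ≠ 0) (h2 : S.lin i0 s' u' ≠ 0) (h : ∀ j, j ≠ i0 → S.lin j s u = 0 ∨ S.lin j s' u' = 0)
    (q : ℕ) [NeZero q] (b : Fin k → ℤ) (G : Fin k → ZMod q → ℂ) (hG : ∀ i x, ‖G i x‖ ≤ 1)
    (W : ZMod q → ZMod q → ℂ) (hW : ∀ x y, ‖W x y‖ ≤ 1) (t : Fin d → ZMod q) :
    ‖∑ x : ZMod q, ∑ y : ZMod q, ∑ n : ZMod q, W x y *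
        ∏ i, G i (S.vz q b n t i + x * (S.lin i s u : ZMod q) + y * (S.lin i s' u' : ZMod q))‖ ^ 8 ≤
      |(S.a i0 : ℝ)| ^ 2 * |(S.lin i0 s u : ℝ)| * |(S.lin i0 s' u' : ℝ)| * (q : ℝ) ^ 20 * UU (G i0) := by
  classical
  obtain ⟨I1, hI1⟩ : ∃ I1 : Finset (Fin k), I1 = (univ.erase i0).filter (fun i => S.lin i s u = 0) := ⟨_, rfl⟩
  obtain ⟨I2, hI2⟩ : ∃ I2 : Finset (Fin k), I2 = (univ.erase i0).filter (fun i => ¬ S.lin i s u = 0) := ⟨_, rfl⟩
  obtain ⟨A, hA⟩ : ∃ A : ZMod q → ZMod q → ℂ, ∀ n y, A n y =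
      ∏ i ∈ I1, G i (S.vz q b n t i + y * (S.lin i s' u' : ZMod q)) := ⟨fun n y => _, fun n y => rfl⟩
  obtain ⟨B, hB⟩ : ∃ B : ZMod q → ZMod q → ℂ, ∀ n x, B n x =
      ∏ i ∈ I2, G i (S.vz q b n t i + x * (S.lin i s u : ZMod q)) := ⟨fun n x => _, fun n x => rfl⟩
  have key := L1_box q (G i0) A B W (fun n y => by rw [hA]; exact l2_prod _ _ fun i _ => hG i _)
    (fun n x => by rw [hB]; exact l2_prod _ _ fun i _ => hG i _) hW (S.a i0) (S.lin i0 s u) (S.lin i0 s' u') h0 h1 h2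
    (S.vz q b 0 t i0)
  have e : ∀ x y n : ZMod q, W x y *
        ∏ i, G i (S.vz q b n t i + x * (S.lin i s u : ZMod q) + y * (S.lin i s' u' : ZMod q)) =
      W x y * A n y * B n x * G i0 ((S.a i0 : ZMod q) * n + (S.lin i0 s u : ZMod q) * x +
        (S.lin i0 s' u' : ZMod q) * y + S.vz q b 0 t i0) := by
    intro x y n
    rw [← Finset.mul_prod_erase univ _ (mem_univ i0),
      ← Finset.prod_filter_mul_prod_filter_not (univ.erase i0) (fun i => S.lin i s u = 0), ← hI1, ← hI2]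
    have e1 : ∏ i ∈ I1, G i (S.vz q b n t i + x * (S.lin i s u : ZMod q) + y * (S.lin i s' u' : ZMod q)) = A n y := by
      rw [hA]
      refine Finset.prod_congr rfl fun i hi => ?_
      rw [hI1, mem_filter] at hi
      rw [hi.2, Int.cast_zero, mul_zero, add_zero]
    have e2 : ∏ i ∈ I2, G i (S.vz q b n t i + x * (S.lin i s u : ZMod q) + y * (S.lin i s' u' : ZMod q)) = B n x := by
      rw [hB]
      refine Finset.prod_congr rfl fun i hi => ?_
      rw [hI2, mem_filter] at hi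
      have h3 : S.lin i s' u' = 0 := by
        rcases h i (Finset.ne_of_mem_erase hi.1) with h4 | h4
        · exact absurd h4 hi.2
        · exact h4
      rw [h3, Int.cast_zero, mul_zero, add_zero]
    have e3 : S.vz q b n t i0 + x * (S.lin i0 s u : ZMod q) + y * (S.lin i0 s' u' : ZMod q) =
        (S.a i0 : ZMod q) * n + (S.lin i0 s u : ZMod q) * x + (S.lin i0 s' u' : ZMod q) * y + S.vz q b 0 t i0 := by
      unfold Sys.vz
      ring
    rw [e1, e2, e3]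
    ring
  rw [Finset.sum_congr rfl fun x _ => Finset.sum_congr rfl fun y _ => Finset.sum_congr rfl fun n _ => e x y n]
  exact key

/-- Proof. The vectors `(s, u)`, `(s', u')` of `Sys.Half` for `i0`; `e0 = a_{i0}`, `e1 = lin i0 s u`, `e2 = lin i0 s' u'`,
`E = a² |e1| |e2|`. Let `w t` be of absolute value `≤ 1` with `‖z_t‖ = w t * z_t`, `z_t = ∑_n ∏_i G i (vz n t i)`, so `FZ = Σ := ∑_{t,n} w t ∏_i G i (vz n t i)`.
For every `(x, y)` the map `(t, n) ↦ (t + x u + y u', n + x s + y s')` is a bijection, so `q² Σ = ∑_t ∑_{x,y,n} w(t + x u + y u')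
∏_i G i (vz n t i + x lin_i(s,u) + y lin_i(s',u'))`. For fixed `t` this is a sum as in `L1_box`: `W x y = w(..)`, the factor `i0` is
`F(e0 n + e1 x + e2 y + c)`, `c = vz 0 t i0`, the factors `i ≠ i0` with `lin i s u = 0` do not depend on `x` (product `A n y`), the others do not
depend on `y` (product `B n x`; `Finset.prod_filter`-type splitting). So `‖∑_{x,y,n}‖ ≤ (E q^20 UU)^(1/8)` for each `t` and
`q² Σ ≤ q^d (E q^20 UU)^(1/8) = q^(d+3) (E UU/q⁴)^(1/8)`. -/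
theorem L2_one {k d : ℕ} (S : Sys k d) (i0 : Fin k) (s s' : ℤ) (u u' : Fin d → ℤ) (h0 : S.a i0 ≠ 0)
    (h1 : S.lin i0 s u ≠ 0) (h2 : S.lin i0 s' u' ≠ 0) (h : ∀ j, j ≠ i0 → S.lin j s u = 0 ∨ S.lin j s' u' = 0)
    (q : ℕ) [NeZero q] (b : Fin k → ℤ) (G : Fin k → ZMod q → ℂ) (hG : ∀ i x, ‖G i x‖ ≤ 1) :
    FZ S q b G ≤ (q : ℝ) ^ (d + 1) *
      ((|(S.a i0 : ℝ)| ^ 2 * |(S.lin i0 s u : ℝ)| * |(S.lin i0 s' u' : ℝ)|) * UU (G i0) / (q : ℝ) ^ 4) ^ (1 / 8 : ℝ) := by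
  classical
  have hq0 : (0 : ℝ) < q := by exact_mod_cast Nat.pos_of_ne_zero (NeZero.ne q)
  obtain ⟨z, hz⟩ : ∃ z : (Fin d → ZMod q) → ℂ, ∀ t, z t = ∑ n : ZMod q, ∏ i, G i (S.vz q b n t i) :=
    ⟨fun t => _, fun t => rfl⟩
  obtain ⟨w, hw1, hw⟩ := l2_w z
  obtain ⟨E, hE⟩ : ∃ E : ℝ, E = |(S.a i0 : ℝ)| ^ 2 * |(S.lin i0 s u : ℝ)| * |(S.lin i0 s' u' : ℝ)| := ⟨_, rfl⟩
  have hE0 : 0 ≤ E := by rw [hE]; positivity
  have hU0 : 0 ≤ UU (G i0) := by
    unfold UU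
    positivity
  rw [← hE]
  -- the sum as a complex number
  have e1 : ((FZ S q b G : ℝ) : ℂ) = ∑ t, w t * z t := by
    unfold FZ
    rw [Complex.ofReal_sum]
    refine Finset.sum_congr rfl fun t _ => ?_
    rw [← hz, hw]
  -- shifted sums
  have e2 : ∀ x y : ZMod q, ∑ t, w t * z t = ∑ t : Fin d → ZMod q, ∑ n : ZMod q,
      w (fun j => t j + (x * u j + y * u' j)) *
        ∏ i, G i (S.vz q b n t i + x * (S.lin i s u : ZMod q) + y * (S.lin i s' u' : ZMod q)) := by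
    intro x y
    rw [← Equiv.sum_comp (Equiv.addRight (fun j => x * (u j : ZMod q) + y * (u' j : ZMod q)))]
    refine Finset.sum_congr rfl fun t _ => ?_
    have e3 : (Equiv.addRight (fun j => x * (u j : ZMod q) + y * (u' j : ZMod q))) t =
        fun j => t j + (x * u j + y * u' j) := rfl
    rw [e3, hz, ← Equiv.sum_comp (Equiv.addRight (x * (s : ZMod q) + y * (s' : ZMod q))), Finset.mul_sum]
    refine Finset.sum_congr rfl fun n _ => ?_
    rw [Equiv.coe_addRight]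
    congr 1
    refine Finset.prod_congr rfl fun i _ => ?_
    rw [l2_vz]
  have e4 : ((q : ℂ) ^ 2) * ((FZ S q b G : ℝ) : ℂ) = ∑ t : Fin d → ZMod q, ∑ x : ZMod q, ∑ y : ZMod q, ∑ n : ZMod q,
      w (fun j => t j + (x * u j + y * u' j)) *
        ∏ i, G i (S.vz q b n t i + x * (S.lin i s u : ZMod q) + y * (S.lin i s' u' : ZMod q)) := by
    have e5 : ((q : ℂ) ^ 2) * ((FZ S q b G : ℝ) : ℂ) = ∑ x : ZMod q, ∑ y : ZMod q, ∑ t, w t * z t := by
      rw [Finset.sum_const, Finset.sum_const, Finset.card_univ, ZMod.card, e1, nsmul_eq_mul, nsmul_eq_mul]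
      ring
    rw [e5, Finset.sum_congr rfl fun x _ => Finset.sum_congr rfl fun y _ => e2 x y, Finset.sum_comm' (t' := univ)
      (s' := fun _ => univ) (by simp)]
    rw [Finset.sum_comm]
    rw [Finset.sum_congr rfl fun x _ => Finset.sum_comm, Finset.sum_comm]
  have e6 : ∀ t : Fin d → ZMod q, ‖∑ x : ZMod q, ∑ y : ZMod q, ∑ n : ZMod q,
      w (fun j => t j + (x * u j + y * u' j)) *
        ∏ i, G i (S.vz q b n t i + x * (S.lin i s u : ZMod q) + y * (S.lin i s' u' : ZMod q))‖ ≤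
      (E * (q : ℝ) ^ 20 * UU (G i0)) ^ (1 / 8 : ℝ) := by
    intro t
    have h3 := l2_pt S i0 s s' u u' h0 h1 h2 h q b G hG (fun x y => w (fun j => t j + (x * u j + y * u' j)))
      (fun x y => hw1 _) t
    rw [← hE] at h3
    have h4 := Real.rpow_le_rpow (by positivity) h3 (by norm_num : (0 : ℝ) ≤ 1 / 8)
    rw [← Real.rpow_natCast, ← Real.rpow_mul (norm_nonneg _)] at h4
    norm_num at h4
    norm_num
    exact h4
  have e7 : (q : ℝ) ^ 2 * FZ S q b G ≤ (q : ℝ) ^ d * (E * (q : ℝ) ^ 20 * UU (G i0)) ^ (1 / 8 : ℝ) := by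
    have hF0 : 0 ≤ FZ S q b G := by
      unfold FZ
      exact Finset.sum_nonneg fun t _ => norm_nonneg _
    have e8 : (q : ℝ) ^ 2 * FZ S q b G = ‖((q : ℂ) ^ 2) * ((FZ S q b G : ℝ) : ℂ)‖ := by
      rw [norm_mul, norm_pow, Complex.norm_natCast, Complex.norm_real, Real.norm_eq_abs, abs_of_nonneg hF0]
    rw [e8, e4]
    refine (norm_sum_le _ _).trans ((Finset.sum_le_sum fun t _ => e6 t).trans (le_of_eq ?_))
    rw [Finset.sum_const, Finset.card_univ, Fintype.card_fun, ZMod.card, Fintype.card_fin, nsmul_eq_mul]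
    push_cast
    ring
  have e9 : (E * (q : ℝ) ^ 20 * UU (G i0)) ^ (1 / 8 : ℝ) = (q : ℝ) ^ 3 * (E * UU (G i0) / (q : ℝ) ^ 4) ^ (1 / 8 : ℝ) := by
    have h5 : E * (q : ℝ) ^ 20 * UU (G i0) = (q : ℝ) ^ 24 * (E * UU (G i0) / (q : ℝ) ^ 4) := by
      field_simp
    have h6 : ((q : ℝ) ^ 24) ^ (1 / 8 : ℝ) = (q : ℝ) ^ 3 := by
      rw [← Real.rpow_natCast, ← Real.rpow_mul hq0.le, ← Real.rpow_natCast]
      norm_num
    rw [h5, Real.mul_rpow (by positivity) (by positivity), h6]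
  rw [e9] at e7
  have h7 : (q : ℝ) ^ 2 * FZ S q b G ≤ (q : ℝ) ^ 2 * ((q : ℝ) ^ (d + 1) * (E * UU (G i0) / (q : ℝ) ^ 4) ^ (1 / 8 : ℝ)) := by
    refine e7.trans (le_of_eq ?_)
    ring
  exact le_of_mul_le_mul_left h7 (by positivity)

/-- Proof. `E` = the sum over `i0` of the constants in `L2_one`, plus `1`. -/
theorem L2_all {k d : ℕ} (S : Sys k d) (hS : S.Half) : ∃ E : ℝ, 1 ≤ E ∧ ∀ (q : ℕ) [NeZero q] (b : Fin k → ℤ)
    (G : Fin k → ZMod q → ℂ), (∀ i x, ‖G i x‖ ≤ 1) → ∀ i0 : Fin k,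
    FZ S q b G ≤ (q : ℝ) ^ (d + 1) * (E * UU (G i0) / (q : ℝ) ^ 4) ^ (1 / 8 : ℝ) := by
  choose s s' u u' h1 h2 h using hS.2
  refine ⟨∑ i0, (|(S.a i0 : ℝ)| ^ 2 * |(S.lin i0 (s i0) (u i0) : ℝ)| * |(S.lin i0 (s' i0) (u' i0) : ℝ)|) + 1, ?_, ?_⟩
  · have : 0 ≤ ∑ i0, (|(S.a i0 : ℝ)| ^ 2 * |(S.lin i0 (s i0) (u i0) : ℝ)| * |(S.lin i0 (s' i0) (u' i0) : ℝ)|) :=
      Finset.sum_nonneg fun i _ => by positivity
    linarith
  · intro q _ b G hG i0
    refine (L2_one S i0 (s i0) (s' i0) (u i0) (u' i0) (hS.1 i0) (h1 i0) (h2 i0) (h i0) q b G hG).trans ?_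
    have hU0 : 0 ≤ UU (G i0) := by
      unfold UU
      positivity
    have h3 : |(S.a i0 : ℝ)| ^ 2 * |(S.lin i0 (s i0) (u i0) : ℝ)| * |(S.lin i0 (s' i0) (u' i0) : ℝ)| ≤
        ∑ i0, (|(S.a i0 : ℝ)| ^ 2 * |(S.lin i0 (s i0) (u i0) : ℝ)| * |(S.lin i0 (s' i0) (u' i0) : ℝ)|) + 1 := by
      have h4 := Finset.single_le_sum (f := fun i0 => |(S.a i0 : ℝ)| ^ 2 * |(S.lin i0 (s i0) (u i0) : ℝ)| *
        |(S.lin i0 (s' i0) (u' i0) : ℝ)|) (fun i _ => by positivity) (mem_univ i0)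
      linarith
    refine mul_le_mul_of_nonneg_left ?_ (by positivity)
    refine Real.rpow_le_rpow (by positivity) ?_ (by norm_num)
    refine div_le_div_of_nonneg_right ?_ (by positivity)
    exact mul_le_mul_of_nonneg_right h3 hU0

end Pool.Agent.H9U
end

-- from Lib.H9U.V1
section

/-!
# H9U, chunk V1 (M): the coefficients are frozen in cells
-/

open Finset

namespace Pool.Agent.H9U

open Pool.Agent.Lib.H68T (lp Lk PC p0 dQ)
open Pool.Agent.Lib.H18Q (gk KS Bc RegP SG)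
open Pool.Agent.Lib.H59P (Ch bx)

theorem v1_cells {β : Type*} [AddCommMonoid β] (f : ℕ → β) (H M : ℕ) :
    ∑ n ∈ range (M * H), f n = ∑ j ∈ range M, ∑ n ∈ Ico (j * H) (j * H + H), f n := by
  induction M with
  | zero => simp
  | succ M ih =>
    rw [Finset.sum_range_succ, ← ih, Finset.range_eq_Ico, Finset.range_eq_Ico,
      Finset.sum_Ico_consecutive f (Nat.zero_le (M * H)) (Nat.le_add_right (M * H) H), Nat.succ_mul]

theorem v1_lip (Q X : ℕ) (p : Ch) (hl : ∀ m : ℤ, (X : ℤ) ≤ m → m ≤ 4 * X →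
    ‖Bc Q X p (m + 1) - Bc Q X p m‖ ≤ (Q : ℝ) ^ 3 / (2 * X))
    (m : ℤ) (hm : (X : ℤ) ≤ m) (j : ℕ) (hj : m + j ≤ 4 * X) :
    ‖Bc Q X p (m + j) - Bc Q X p m‖ ≤ j * ((Q : ℝ) ^ 3 / (2 * X)) := by
  induction j with
  | zero => simp
  | succ j ih =>
    push_cast at hj ⊢
    have h1 := ih (by omega)
    have h2 := hl (m + j) (by omega) (by omega)
    have e : Bc Q X p (m + (j + 1)) - Bc Q X p m =
        (Bc Q X p (m + j + 1) - Bc Q X p (m + j)) + (Bc Q X p (m + j) - Bc Q X p m) := by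
      rw [← add_assoc m]
      ring
    rw [e]
    refine (norm_add_le _ _).trans ?_
    linarith

theorem v1_lip2 (Q X : ℕ) (p : Ch) (hl : ∀ m : ℤ, (X : ℤ) ≤ m → m ≤ 4 * X →
    ‖Bc Q X p (m + 1) - Bc Q X p m‖ ≤ (Q : ℝ) ^ 3 / (2 * X))
    (m m' : ℤ) (hm : (X : ℤ) ≤ m) (hm4 : m ≤ 4 * X) (hm' : (X : ℤ) ≤ m') (hm4' : m' ≤ 4 * X) (D : ℕ)
    (hD : |m' - m| ≤ D) :
    ‖Bc Q X p m' - Bc Q X p m‖ ≤ D * ((Q : ℝ) ^ 3 / (2 * X)) := by
  have hP : 0 ≤ (Q : ℝ) ^ 3 / (2 * X) := by positivity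
  rcases le_total m m' with h | h
  · have h1 := v1_lip Q X p hl m hm (m' - m).toNat (by omega)
    have e : m + ((m' - m).toNat : ℤ) = m' := by omega
    rw [e] at h1
    refine h1.trans (mul_le_mul_of_nonneg_right ?_ hP)
    have : (m' - m).toNat ≤ D := by
      have := (abs_le.1 hD).2
      omega
    exact_mod_cast this
  · have h1 := v1_lip Q X p hl m' hm' (m - m').toNat (by omega)
    have e : m' + ((m - m').toNat : ℤ) = m := by omega
    rw [e, norm_sub_rev] at h1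
    refine h1.trans (mul_le_mul_of_nonneg_right ?_ hP)
    have : (m - m').toNat ≤ D := by
      have := (abs_le.1 hD).1
      omega
    exact_mod_cast this

theorem v1_dQ (Q : ℕ) (m : ℤ) : dQ Q m ≤ Q := by
  unfold Pool.Agent.Lib.H68T.dQ
  have h : ((Icc 1 Q).filter (fun d : ℕ => (d : ℤ) ∣ m)).card ≤ Q := by
    refine (Finset.card_filter_le _ _).trans ?_
    rw [Nat.card_Icc]
    omega
  exact_mod_cast h

/-- size of `SG` with crude constants -/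
theorem v1_SG (Q : ℕ) (hQ : 1 ≤ Q) (B : Ch → ℂ) (mb : Ch → ℝ) (hB : ∀ p ∈ PC Q, ‖B p‖ ≤ mb p) (m : ℤ) (C : ℝ)
    (hC : ∑ p ∈ PC Q, mb p ≤ C) :
    ‖SG Q B m‖ ≤ 100 * (Q : ℝ) ^ 4 * C := by
  refine (Pool.Agent.Lib.H59P.S1b Q hQ B mb hB m).trans ?_
  have hQ1 : (1 : ℝ) ≤ Q := by exact_mod_cast hQ
  have hlog : 0 ≤ Real.log Q := Real.log_nonneg hQ1
  have hlog2 : Real.log Q ≤ Q - 1 := Real.log_le_sub_one_of_pos (by linarith)
  have h1 : (1 + Real.log Q) ^ 3 ≤ (Q : ℝ) ^ 3 := pow_le_pow_left₀ (by linarith) (by linarith) 3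
  have h2 := v1_dQ Q m
  have h3 : 0 ≤ dQ Q m := by
    unfold Pool.Agent.Lib.H68T.dQ
    positivity
  have h4 : 0 ≤ ∑ p ∈ PC Q, mb p := Finset.sum_nonneg fun p hp => (norm_nonneg _).trans (hB p hp)
  have h5 : 0 ≤ (1 + Real.log Q) ^ 3 := by positivity
  calc 100 * (1 + Real.log Q) ^ 3 * dQ Q m * ∑ p ∈ PC Q, mb p
      ≤ 100 * (1 + Real.log Q) ^ 3 * dQ Q m * C := mul_le_mul_of_nonneg_left hC (by positivity)
    _ ≤ 100 * (Q : ℝ) ^ 3 * Q * C := by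
        refine mul_le_mul_of_nonneg_right ?_ (h4.trans hC)
        refine mul_le_mul ?_ h2 h3 (by positivity)
        exact mul_le_mul_of_nonneg_left h1 (by norm_num)
    _ = 100 * (Q : ℝ) ^ 4 * C := by ring

/-- Proof. `Lk_two`: `Lk Q' (X_i/Q²) m = SG Q' (Bc Q X_i · m) m` for `m = val n t i ∈ [X_i, 4X_i]`. `UM_mass` for `(Q, X_i)`: bounds `mb` of total size
at most `C` (also over the subset `PC Q' ⊆ PC Q`). `S1b` (`H59P/S1B.lean`): `‖SG Q' c m‖ ≤ Z := 100 (1+log Q')^3 Q' C` (`dQ Q' m ≤ Q'`), and for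
`n` in the cell of `j H`: the difference of the two factors is `SG Q'` of `Bc Q X_i p (val n) - Bc Q X_i p (val (jH))`, where
`|val n - val (jH)| ≤ |a_i| H`, so by `Bc_lip` (`H18Q/CL1.lean`, induction over the steps) at most `|a_i| H Q³/(2 X_i) ≤ |a_i| Q^(-5)` for each of the at most
`Q'^2` characters (`card_PC_le`); `v1b_prod` (`H59P/V1B.lean`) for the product. The total over `n < L ≤ C0 X` is at most
`C0 X · k · max|a_i| Q'^2 Z^k Q^(-5) · 100(1+log Q')^3 Q'`; the rest `n ≥ (L/H) H` has at most `H ≤ X Q^(-8)` elements, at most `Z^k` each.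
`Q'^(20 (k+1)) ≤ Q` and `Q ≥ Q0`. -/
theorem V1S {k d : ℕ} (S : Sys k d) : ∃ K : ℝ, 1 ≤ K ∧ ∀ C0 : ℕ, ∃ Q0 : ℕ, ∀ Q Q' X H L : ℕ, Q0 ≤ Q → 1 ≤ Q' →
    Q' ^ (20 * (k + 1)) ≤ Q → 1 ≤ H → H * Q ^ 8 ≤ X → L ≤ C0 * X → ∀ Xs : Fin k → ℕ, (∀ i, X ≤ Xs i) →
    (∀ i, RegP K Q (Xs i)) → ∀ (b : Fin k → ℤ) (t : Fin d → ℤ),
    (∀ i, ∀ n ∈ range L, (Xs i : ℤ) ≤ S.val b n t i ∧ S.val b n t i ≤ 4 * Xs i) →
    ‖((∑ n ∈ range L, ∏ i, Lk Q' (Xs i / Q ^ 2) (S.val b n t i) : ℝ) : ℂ) -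
      ∑ j ∈ range (L / H), ∑ n ∈ Ico (j * H) (j * H + H),
        ∏ i, SG Q' (fun p => Bc Q (Xs i) p (S.val b ((j * H : ℕ) : ℤ) t i)) (S.val b n t i)‖ ≤ X / Q := by
  obtain ⟨K1, hK1, hLk⟩ := Lk_two
  obtain ⟨K2, C, hK2, hC, hmass⟩ := Pool.Agent.Lib.H59T.UM_mass
  obtain ⟨K3, hK3, hlip⟩ := Pool.Agent.Lib.H18Q.Bc_lip
  obtain ⟨A, hA⟩ : ∃ A : ℕ, ∀ i, |S.a i| ≤ A := by
    refine ⟨∑ i, (S.a i).natAbs, fun i => ?_⟩
    rw [Int.abs_eq_natAbs]
    have := Finset.single_le_sum (f := fun i => (S.a i).natAbs) (fun _ _ => Nat.zero_le _) (Finset.mem_univ i)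
    exact_mod_cast this
  refine ⟨max (max K1 K2) K3, hK1.trans ((le_max_left _ _).trans (le_max_left _ _)), fun C0 => ?_⟩
  have hK0 : 0 ≤ max (max K1 K2) K3 :=
    zero_le_one.trans (hK1.trans ((le_max_left _ _).trans (le_max_left _ _)))
  obtain ⟨W, hW⟩ : ∃ W : ℝ, W = (C0 * k * (50 * A) + 1) * (100 * C) ^ k := ⟨_, rfl⟩
  refine ⟨⌈W⌉₊ + 1, fun Q Q' X H L hQ0 hQ' hQQ hH hHX hL Xs hXs hreg b t hval => ?_⟩
  have hWQ : W ≤ Q := by
    have h1 : W ≤ ⌈W⌉₊ := Nat.le_ceil W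
    have h2 : ((⌈W⌉₊ + 1 : ℕ) : ℝ) ≤ Q := by exact_mod_cast hQ0
    push_cast at h2
    linarith
  have hQ1 : 1 ≤ Q := by omega
  have hQ1r : (1 : ℝ) ≤ Q := by exact_mod_cast hQ1
  have hQp : (0 : ℝ) < Q := by linarith
  have hQ'r : (1 : ℝ) ≤ Q' := by exact_mod_cast hQ'
  have hQ'Q : Q' ≤ Q := by
    refine le_trans ?_ hQQ
    exact Nat.le_self_pow (by omega) Q'
  have hHr : (1 : ℝ) ≤ H := by exact_mod_cast hH
  have hHXr : (H : ℝ) * (Q : ℝ) ^ 8 ≤ X := by exact_mod_cast hHX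
  have hXp : (0 : ℝ) < X := lt_of_lt_of_le (by positivity) hHXr
  have hsub : PC Q' ⊆ PC Q := by
    intro p hp
    obtain ⟨a, b, c⟩ := Pool.Agent.Lib.H68T.mem_PC.1 hp
    exact Pool.Agent.Lib.H68T.mem_PC.2 ⟨a, b.trans hQ'Q, c⟩
  have hC0' : 0 ≤ C := by linarith
  obtain ⟨Z, hZ⟩ : ∃ Z : ℝ, Z = 100 * (Q' : ℝ) ^ 4 * C := ⟨_, rfl⟩
  have hQ'4 : (1 : ℝ) ≤ (Q' : ℝ) ^ 4 := one_le_pow₀ hQ'r
  have hZ1 : 1 ≤ Z := by
    rw [hZ]
    nlinarith
  have hZ0 : 0 ≤ Z := by linarith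
  -- the factors
  have hfac : ∀ i, ∀ m m' : ℤ, (Xs i : ℤ) ≤ m → m ≤ 4 * Xs i →
      ‖SG Q' (fun p => Bc Q (Xs i) p m) m'‖ ≤ Z := by
    intro i m m' hm hm4
    obtain ⟨mb, hmb0, hmbs, hmb⟩ := hmass Q (Xs i)
      ((hreg i).mono hK0 ((le_max_right _ _).trans (le_max_left _ _)))
    rw [hZ]
    exact v1_SG Q' hQ' _ mb (fun p hp => hmb m hm hm4 p (hsub hp)) m' C
      ((Finset.sum_le_sum_of_subset_of_nonneg hsub fun p hp _ => hmb0 p hp).trans hmbs)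
  have hL1 : ∀ n ∈ range L, ((∏ i, Lk Q' (Xs i / Q ^ 2) (S.val b n t i) : ℝ) : ℂ) =
      ∏ i, SG Q' (fun p => Bc Q (Xs i) p (S.val b n t i)) (S.val b n t i) := by
    intro n hn
    rw [Complex.ofReal_prod]
    refine Finset.prod_congr rfl fun i _ => ?_
    exact hLk Q Q' (Xs i) ((hreg i).mono hK0 ((le_max_left _ _).trans (le_max_left _ _))) hQ' hQ'Q _
      (hval i n hn).1 (hval i n hn).2
  obtain ⟨M, hM⟩ : ∃ M, M = L / H := ⟨_, rfl⟩
  have hMH : M * H ≤ L := by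
    rw [hM]
    exact Nat.div_mul_le_self L H
  have hrest : L - M * H ≤ H := by
    have h1 := Nat.div_add_mod' L H
    have h2 := Nat.mod_lt L (show 0 < H by omega)
    rw [← hM] at h1
    omega
  rw [← hM, Complex.ofReal_sum, Finset.sum_congr rfl hL1, ← Finset.sum_range_add_sum_Ico _ hMH,
    v1_cells _ H M]
  -- the main difference
  obtain ⟨δ, hδ⟩ : ∃ δ : ℝ, δ = 100 * (Q' : ℝ) ^ 4 * ((Q' : ℝ) ^ 2 * (A / (2 * (Q : ℝ) ^ 5))) := ⟨_, rfl⟩
  have hδ0 : 0 ≤ δ := by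
    rw [hδ]
    positivity
  have hcell : ∀ j ∈ range M, ∀ n ∈ Ico (j * H) (j * H + H),
      ‖∏ i, SG Q' (fun p => Bc Q (Xs i) p (S.val b n t i)) (S.val b n t i) -
        ∏ i, SG Q' (fun p => Bc Q (Xs i) p (S.val b ((j * H : ℕ) : ℤ) t i)) (S.val b n t i)‖ ≤
      k * δ * Z ^ k := by
    intro j hj n hn
    rw [mem_range] at hj
    rw [mem_Ico] at hn
    have hjH : j * H + H ≤ M * H := by
      calc j * H + H = (j + 1) * H := by ring
        _ ≤ M * H := Nat.mul_le_mul_right H hj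
    have hnL : n ∈ range L := by
      rw [mem_range]
      omega
    have hjL : j * H ∈ range L := by
      rw [mem_range]
      omega
    have key := Pool.Agent.Lib.H59P.v1b_prod (Finset.univ : Finset (Fin k))
      (fun i => SG Q' (fun p => Bc Q (Xs i) p (S.val b n t i)) (S.val b n t i))
      (fun i => SG Q' (fun p => Bc Q (Xs i) p (S.val b ((j * H : ℕ) : ℤ) t i)) (S.val b n t i))
      (fun _ => Z) δ hδ0 (fun _ => hZ0)
      (fun i _ => hfac i _ _ (hval i n hnL).1 (hval i n hnL).2)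
      (fun i _ => hfac i _ _ (hval i (j * H) hjL).1 (hval i (j * H) hjL).2)
      (fun i _ => ?_)
    · rw [Finset.prod_const, Finset.card_univ, Fintype.card_fin] at key
      exact key
    · rw [Pool.Agent.Lib.H59P.v1b_sub]
      have hXi : (X : ℝ) ≤ Xs i := by exact_mod_cast hXs i
      have hd : |S.val b n t i - S.val b ((j * H : ℕ) : ℤ) t i| ≤ ((A * H : ℕ) : ℤ) := by
        have e : S.val b n t i - S.val b ((j * H : ℕ) : ℤ) t i = S.a i * ((n : ℤ) - ((j * H : ℕ) : ℤ)) := by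
          unfold Sys.val Sys.lin
          ring
        rw [e, abs_mul, Nat.cast_mul]
        have h1 : |(n : ℤ) - ((j * H : ℕ) : ℤ)| ≤ H := by
          rw [abs_le]
          constructor
          · omega
          · omega
        exact mul_le_mul (hA i) h1 (abs_nonneg _) (by positivity)
      have h1 : ∀ p ∈ PC Q', ‖Bc Q (Xs i) p (S.val b n t i) - Bc Q (Xs i) p (S.val b ((j * H : ℕ) : ℤ) t i)‖ ≤
          A / (2 * (Q : ℝ) ^ 5) := by
        intro p _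
        refine (v1_lip2 Q (Xs i) p (fun m hm hm4 => hlip Q (Xs i) ((hreg i).mono hK0 (le_max_right _ _)) p m hm hm4)
          _ _ (hval i (j * H) hjL).1 (hval i (j * H) hjL).2 (hval i n hnL).1 (hval i n hnL).2 (A * H) hd).trans ?_
        have h2 : (Q : ℝ) ^ 3 / (2 * (Xs i : ℝ)) ≤ (Q : ℝ) ^ 3 / (2 * (H * (Q : ℝ) ^ 8)) := by
          apply div_le_div_of_nonneg_left (by positivity) (by positivity)
          linarith
        push_cast
        calc (A : ℝ) * H * ((Q : ℝ) ^ 3 / (2 * (Xs i : ℝ))) ≤ A * H * ((Q : ℝ) ^ 3 / (2 * (H * (Q : ℝ) ^ 8))) :=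
              mul_le_mul_of_nonneg_left h2 (by positivity)
          _ = A / (2 * (Q : ℝ) ^ 5) := by
              have : (H : ℝ) ≠ 0 := by positivity
              field_simp
      refine (v1_SG Q' hQ' _ (fun _ => A / (2 * (Q : ℝ) ^ 5)) h1 _
        ((Q' : ℝ) ^ 2 * (A / (2 * (Q : ℝ) ^ 5))) ?_).trans ?_
      · rw [Finset.sum_const, nsmul_eq_mul]
        refine mul_le_mul_of_nonneg_right ?_ (by positivity)
        exact_mod_cast Pool.Agent.Lib.H68T.card_PC_le Q'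
      · rw [← hδ]
        exact le_mul_of_one_le_right hδ0 hZ1
  have hmain : ‖(∑ j ∈ range M, ∑ n ∈ Ico (j * H) (j * H + H),
        ∏ i, SG Q' (fun p => Bc Q (Xs i) p (S.val b n t i)) (S.val b n t i)) -
      ∑ j ∈ range M, ∑ n ∈ Ico (j * H) (j * H + H),
        ∏ i, SG Q' (fun p => Bc Q (Xs i) p (S.val b ((j * H : ℕ) : ℤ) t i)) (S.val b n t i)‖ ≤
      (M * H : ℕ) * (k * δ * Z ^ k) := by
    rw [← Finset.sum_sub_distrib]
    refine (norm_sum_le _ _).trans ?_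
    have h1 : ∀ j ∈ range M, ‖(∑ n ∈ Ico (j * H) (j * H + H),
        ∏ i, SG Q' (fun p => Bc Q (Xs i) p (S.val b n t i)) (S.val b n t i)) -
      ∑ n ∈ Ico (j * H) (j * H + H),
        ∏ i, SG Q' (fun p => Bc Q (Xs i) p (S.val b ((j * H : ℕ) : ℤ) t i)) (S.val b n t i)‖ ≤
        H * (k * δ * Z ^ k) := by
      intro j hj
      rw [← Finset.sum_sub_distrib]
      refine (norm_sum_le _ _).trans ((Finset.sum_le_sum (hcell j hj)).trans ?_)
      rw [Finset.sum_const, nsmul_eq_mul, Nat.card_Ico, Nat.add_sub_cancel_left]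
    refine (Finset.sum_le_sum h1).trans ?_
    rw [Finset.sum_const, nsmul_eq_mul, Finset.card_range]
    push_cast
    exact le_of_eq (by ring)
  have hrst : ‖∑ n ∈ Ico (M * H) L, ∏ i, SG Q' (fun p => Bc Q (Xs i) p (S.val b n t i)) (S.val b n t i)‖ ≤
      H * Z ^ k := by
    refine (norm_sum_le _ _).trans ?_
    have h1 : ∀ n ∈ Ico (M * H) L, ‖∏ i, SG Q' (fun p => Bc Q (Xs i) p (S.val b n t i)) (S.val b n t i)‖ ≤ Z ^ k := by
      intro n hn
      rw [mem_Ico] at hn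
      have hnL : n ∈ range L := mem_range.2 hn.2
      rw [norm_prod]
      refine (Finset.prod_le_prod (fun i _ => norm_nonneg _)
        (fun i _ => hfac i _ _ (hval i n hnL).1 (hval i n hnL).2)).trans ?_
      rw [Finset.prod_const, Finset.card_univ, Fintype.card_fin]
    refine (Finset.sum_le_sum h1).trans ?_
    rw [Finset.sum_const, nsmul_eq_mul, Nat.card_Ico]
    refine mul_le_mul_of_nonneg_right ?_ (by positivity)
    exact_mod_cast hrest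
  have htot : ‖(∑ j ∈ range M, ∑ n ∈ Ico (j * H) (j * H + H),
        ∏ i, SG Q' (fun p => Bc Q (Xs i) p (S.val b n t i)) (S.val b n t i)) +
      (∑ n ∈ Ico (M * H) L, ∏ i, SG Q' (fun p => Bc Q (Xs i) p (S.val b n t i)) (S.val b n t i)) -
      ∑ j ∈ range M, ∑ n ∈ Ico (j * H) (j * H + H),
        ∏ i, SG Q' (fun p => Bc Q (Xs i) p (S.val b ((j * H : ℕ) : ℤ) t i)) (S.val b n t i)‖ ≤
      (M * H : ℕ) * (k * δ * Z ^ k) + H * Z ^ k := by
    rw [add_sub_right_comm]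
    exact (norm_add_le _ _).trans (add_le_add hmain hrst)
  refine htot.trans ?_
  -- numerics
  have hMHr : ((M * H : ℕ) : ℝ) ≤ C0 * X := by exact_mod_cast hMH.trans hL
  have hZk : Z ^ k = (100 * C) ^ k * (Q' : ℝ) ^ (4 * k) := by
    rw [hZ, pow_mul, ← mul_pow]
    congr 1
    ring
  have hq1 : (Q' : ℝ) ^ (4 * k + 6) ≤ Q := by
    have h1 : Q' ^ (4 * k + 6) ≤ Q := (Nat.pow_le_pow_right hQ' (by omega)).trans hQQ
    exact_mod_cast h1
  have hq2 : (Q' : ℝ) ^ (4 * k) ≤ Q := by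
    have h1 : Q' ^ (4 * k) ≤ Q := (Nat.pow_le_pow_right hQ' (by omega)).trans hQQ
    exact_mod_cast h1
  have hHle : (H : ℝ) ≤ X / (Q : ℝ) ^ 8 := by
    rw [le_div_iff₀ (by positivity)]
    exact hHXr
  have t1 : (M * H : ℕ) * (k * δ * Z ^ k) ≤ C0 * k * (50 * A) * (100 * C) ^ k * (X / (Q : ℝ) ^ 4) := by
    calc ((M * H : ℕ) : ℝ) * (k * δ * Z ^ k) ≤ C0 * X * (k * δ * Z ^ k) :=
          mul_le_mul_of_nonneg_right hMHr (by positivity)
      _ = C0 * k * (50 * A) * (100 * C) ^ k * (X / (Q : ℝ) ^ 5) * (Q' : ℝ) ^ (4 * k + 6) := by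
          rw [hδ, hZk]
          field_simp
          ring
      _ ≤ C0 * k * (50 * A) * (100 * C) ^ k * (X / (Q : ℝ) ^ 5) * Q := by
          refine mul_le_mul_of_nonneg_left hq1 (by positivity)
      _ = C0 * k * (50 * A) * (100 * C) ^ k * (X / (Q : ℝ) ^ 4) := by
          field_simp
  have t2 : H * Z ^ k ≤ 1 * (100 * C) ^ k * (X / (Q : ℝ) ^ 4) := by
    calc H * Z ^ k ≤ X / (Q : ℝ) ^ 8 * Z ^ k := mul_le_mul_of_nonneg_right hHle (by positivity)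
      _ = 1 * (100 * C) ^ k * (X / (Q : ℝ) ^ 8) * (Q' : ℝ) ^ (4 * k) := by
          rw [hZk]
          ring
      _ ≤ 1 * (100 * C) ^ k * (X / (Q : ℝ) ^ 8) * Q := by
          refine mul_le_mul_of_nonneg_left hq2 (by positivity)
      _ = 1 * (100 * C) ^ k * (X / (Q : ℝ) ^ 7) := by
          field_simp
      _ ≤ 1 * (100 * C) ^ k * (X / (Q : ℝ) ^ 4) := by
          refine mul_le_mul_of_nonneg_left ?_ (by positivity)
          apply div_le_div_of_nonneg_left hXp.le (by positivity)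
          exact pow_le_pow_right₀ hQ1r (by norm_num)
  calc ((M * H : ℕ) : ℝ) * (k * δ * Z ^ k) + H * Z ^ k
      ≤ W * (X / (Q : ℝ) ^ 4) := by
        rw [hW]
        linarith
    _ ≤ Q * (X / (Q : ℝ) ^ 4) := mul_le_mul_of_nonneg_right hWQ (by positivity)
    _ = X / (Q : ℝ) ^ 3 := by
        field_simp
    _ ≤ X / Q := by
        apply div_le_div_of_nonneg_left hXp.le hQp
        exact le_self_pow₀ hQ1r (by norm_num)

end Pool.Agent.H9U
end
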