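import Pool.Agent.Lib.H1M.RV3.D_H18R_Defs
import Pool.Agent.Lib.H1M.RV3.D_H96G_E2
import Pool.Agent.Lib.H1M.RV3.M097

/-! Merged copies (to shorten the build) of Lib.H18F.J30, Lib.H18R.GL. -/

-- from Lib.H18F.J30
section

/-!
# H18F (MP_443e5f_co): the jump between scales, with multiples of `30`
-/

open Finset Pool.Agent.Lib.GoldbachGraph

namespace Pool.Agent.Lib.H18F

open Pool.Agent.Lib.H18P (greedy adm tuple pair_deg)

/-- **The jump**, with multiples of `30`. The same proof as `H18P.jump`: the differences are multiples of `k!`, `k ≥ 5`. -/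
theorem jump30 : ∃ c : ℝ, 0 < c ∧ ∃ B m0 n0 : ℕ, ∀ n : ℕ, n0 ≤ n → ∀ m : ℕ, m0 ≤ m → 1000 * m ≤ n →
    c * m ≤ (((Icc 1 m).filter (fun X => 30 ∣ X ∧ (n : ℝ) / (Real.log n) ^ B ≤ hdeg n X)).card : ℝ) := by
  classical
  obtain ⟨c1, hc1, k0, hmain⟩ := Pool.Agent.Lib.H57T.main
  set k : ℕ := max (max k0 5) ⌈Real.exp (2 / c1)⌉₊ with hk
  have hk0 : k0 ≤ k := (le_max_left _ _).trans (le_max_left _ _)
  have hk5 : 5 ≤ k := (le_max_right _ _).trans (le_max_left _ _)
  have hk2 : 2 ≤ k := by omega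
  have hke : Real.exp (2 / c1) ≤ k := (Nat.le_ceil _).trans (by exact_mod_cast le_max_right _ _)
  have hlk : 2 ≤ c1 * Real.log k := by
    have h1 : 2 / c1 ≤ Real.log k := by
      rw [Real.le_log_iff_exp_le (by exact_mod_cast (by omega : 0 < k))]
      exact hke
    rw [div_le_iff₀ hc1] at h1
    linarith
  obtain ⟨B1, x0, hB1⟩ := hmain k hk0
  set W := k.factorial with hW
  have hWpos : 0 < W := Nat.factorial_pos k
  have hW30 : 30 ∣ W := (by decide : 30 ∣ Nat.factorial 5).trans (Nat.factorial_dvd_factorial hk5)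
  have hkR : (2 : ℝ) ≤ k := by exact_mod_cast hk2
  have hWR : (1 : ℝ) ≤ W := by exact_mod_cast hWpos
  -- large n
  have hev : ∀ᶠ y : ℝ in Filter.atTop, max x0 3 ≤ y / 2 ∧ 4 * (k : ℝ) ^ 2 ≤ Real.log y ∧
      8 * (Real.log y) ^ (B1 + 1) ≤ y := by
    have h3 : Filter.Tendsto (fun y : ℝ => 8 * (Real.log y) ^ (B1 + 1) / y) Filter.atTop (nhds 0) := by
      have h4 : Filter.Tendsto (fun y : ℝ => (Real.log y) ^ (B1 + 1) / y) Filter.atTop (nhds 0) := by
        have h5 := (Real.isLittleO_pow_log_id_atTop (n := B1 + 1)).tendsto_div_nhds_zero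
        simpa using h5
      have h6 := h4.const_mul 8
      rw [mul_zero] at h6
      refine h6.congr fun y => ?_
      ring
    have h4 : ∀ᶠ y : ℝ in Filter.atTop, 8 * (Real.log y) ^ (B1 + 1) / y < 1 := h3.eventually (gt_mem_nhds one_pos)
    filter_upwards [Filter.eventually_ge_atTop (2 * max x0 3), Real.tendsto_log_atTop.eventually_ge_atTop (4 * (k : ℝ) ^ 2),
      h4, Filter.eventually_gt_atTop 0] with y h5 h6 h7 h8
    rw [div_lt_one h8] at h7
    exact ⟨by linarith, h6, h7.le⟩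
  obtain ⟨n0, hn0⟩ := Filter.eventually_atTop.1 (tendsto_natCast_atTop_atTop.eventually hev)
  refine ⟨1 / (8 * k * W), by positivity, B1 + 1, 4 * k * W, n0, fun n hn m hm hmn => ?_⟩
  obtain ⟨hx, hlog, hpow⟩ := hn0 n hn
  set J := m / W with hJ
  set D := (Icc 1 J).filter (fun d => (n : ℝ) / (Real.log n) ^ (B1 + 1) ≤ hdeg n (W * d)) with hD
  have hJW : J * W ≤ m := Nat.div_mul_le_self m W
  -- the main step: there is no tuple without good differences
  have hkey : J + 1 < k * (2 * D.card + 1) := by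
    by_contra hcon
    push Not at hcon
    obtain ⟨S, hS1, hS2, hS3⟩ := greedy D J k hcon
    set A := S.image (fun j => 2 * W * j) with hA
    have hinj : Function.Injective (fun j : ℕ => 2 * W * j) := fun a b h => by
      have h' : 2 * W * a = 2 * W * b := h
      exact Nat.eq_of_mul_eq_mul_left (by positivity) h'
    have hAc : A.card = k := by rw [hA, card_image_of_injective _ hinj, hS2]
    have hAm : ∀ b ∈ A, b ≤ 2 * m := by
      intro b hb
      rw [hA, mem_image] at hb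
      obtain ⟨j, hj, rfl⟩ := hb
      have h1 := mem_range.1 (hS1 hj)
      have h2 : W * j ≤ m := by
        calc W * j ≤ W * J := Nat.mul_le_mul_left _ (by omega)
          _ = J * W := by ring
          _ ≤ m := hJW
      calc 2 * W * j = 2 * (W * j) := by ring
        _ ≤ 2 * m := by omega
    have hne : A.Nonempty := by
      rw [← card_pos, hAc]; omega
    obtain ⟨a, ha⟩ := hne
    have hxn : x0 ≤ (n : ℝ) / 2 := (le_max_left _ _).trans hx
    have hx3 : (3 : ℝ) ≤ (n : ℝ) / 2 := (le_max_right _ _).trans hx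
    have hmnR : (1000 : ℝ) * m ≤ n := by exact_mod_cast hmn
    have hres := hB1 ((n : ℝ) / 2) hxn A hAc.ge (fun p hp => adm k A hAc (fun b hb => by
      rw [hA, mem_image] at hb
      obtain ⟨j, hj, rfl⟩ := hb
      exact dvd_mul_right _ _) p hp) (fun b hb => by
      have h1 : (b : ℝ) ≤ 2 * m := by exact_mod_cast hAm b hb
      linarith) a ha
    set N := ⌊(n : ℝ) / 2⌋₊ with hN
    have h2N : 2 * N ≤ n := by
      have h1 : (N : ℝ) ≤ (n : ℝ) / 2 := Nat.floor_le (by positivity)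
      have h2 : ((2 * N : ℕ) : ℝ) ≤ n := by push_cast; linarith
      exact_mod_cast h2
    set T := (Icc 1 N).filter (fun t =>
        ((∀ q : ℕ, q.Prime → q ∣ t + a → ((n : ℝ) / 2) ^ (1 / 11 : ℝ) ≤ q) ∧
          ((t + a).Prime ∨ ∃ r s : ℕ, r.Prime ∧ s.Prime ∧ t + a = r * s)) ∧
        c1 * Real.log k ≤ (((A.erase a).filter (fun b => (t + b).Prime)).card : ℝ)) with hT
    have hT2 : ∀ t ∈ T, t ∈ Icc 1 N ∧ 2 ≤ (A.filter (fun b => (t + b).Prime)).card := by
      intro t ht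
      rw [hT, mem_filter] at ht
      refine ⟨ht.1, ?_⟩
      have h1 : (2 : ℝ) ≤ (((A.erase a).filter (fun b => (t + b).Prime)).card : ℝ) := hlk.trans ht.2.2
      have h2 : 2 ≤ ((A.erase a).filter (fun b => (t + b).Prime)).card := by exact_mod_cast h1
      exact h2.trans (card_le_card (filter_subset_filter _ (erase_subset _ _)))
    obtain ⟨b, b', hbb, hcard⟩ := tuple k N A hAc.le T hT2
    -- sizes
    have hlogn : 0 < Real.log n := by
      have : (0 : ℝ) < 4 * (k : ℝ) ^ 2 := by positivity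
      linarith
    have hln2 : Real.log ((n : ℝ) / 2) ≤ Real.log n := Real.log_le_log (by linarith) (by linarith)
    have hln0 : 0 < Real.log ((n : ℝ) / 2) := Real.log_pos (by linarith)
    have hTcard : (n : ℝ) / 2 / (Real.log n) ^ B1 ≤ T.card := by
      refine le_trans ?_ hres
      apply div_le_div_of_nonneg_left (by linarith) (by positivity)
      exact pow_le_pow_left₀ hln0.le hln2 _
    have hTpos : T.card ≠ 0 := by
      intro h0
      rw [h0] at hTcard
      have : 0 < (n : ℝ) / 2 / (Real.log n) ^ B1 := by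
        have : (0 : ℝ) < (n : ℝ) / 2 := by linarith
        positivity
      simp at hTcard
      linarith
    obtain ⟨hbA, hbA', hlt⟩ := hbb.resolve_left hTpos
    rw [hA, mem_image] at hbA hbA'
    obtain ⟨i, hi, hib⟩ := hbA
    obtain ⟨j, hj, hjb⟩ := hbA'
    have hij : i < j := by
      rw [← hib, ← hjb] at hlt
      exact lt_of_mul_lt_mul_left hlt (Nat.zero_le _)
    have hdiff : b' - b = 2 * (W * (j - i)) := by
      rw [← hib, ← hjb, ← Nat.mul_sub]
      ring
    have hX : (b' - b) / 2 = W * (j - i) := by rw [hdiff]; exact Nat.mul_div_cancel_left _ two_pos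
    have hbm : b ≤ 2 * m := hAm b (by rw [hA, mem_image]; exact ⟨i, hi, hib⟩)
    have hbm' : b' ≤ 2 * m := hAm b' (by rw [hA, mem_image]; exact ⟨j, hj, hjb⟩)
    have hpd := pair_deg n m b b' N hbm hbm' hlt (by rw [hdiff]; exact even_two_mul _) h2N (by omega)
    rw [hX] at hpd
    have hfin : (T.card : ℝ) ≤ (k : ℝ) ^ 2 * (hdeg n (W * (j - i)) + 2) := by
      have h1 : T.card ≤ k ^ 2 * (hdeg n (W * (j - i)) + 2) := hcard.trans (Nat.mul_le_mul_left _ hpd)
      exact_mod_cast h1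
    have hgood : (n : ℝ) / (Real.log n) ^ (B1 + 1) ≤ hdeg n (W * (j - i)) := by
      have h1 : (n : ℝ) / 2 / (Real.log n) ^ B1 ≤ (k : ℝ) ^ 2 * (hdeg n (W * (j - i)) + 2) := hTcard.trans hfin
      set L := Real.log n with hL
      set z := (n : ℝ) / L ^ (B1 + 1) with hz
      have h2 : (n : ℝ) / 2 / L ^ B1 = z * L / 2 := by
        rw [hz, pow_succ]
        field_simp
      have h3 : 8 ≤ z := by
        rw [hz, le_div_iff₀ (by positivity)]
        exact hpow
      rw [h2] at h1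
      have h4 : z * (4 * (k : ℝ) ^ 2) ≤ z * L := mul_le_mul_of_nonneg_left hlog (by linarith)
      have h5 : (k : ℝ) ^ 2 * (2 * z) ≤ (k : ℝ) ^ 2 * (hdeg n (W * (j - i)) + 2) := by nlinarith
      have h6 : 2 * z ≤ hdeg n (W * (j - i)) + 2 := le_of_mul_le_mul_left h5 (by positivity)
      linarith
    apply hS3 i hi j hj hij
    rw [hD, mem_filter, mem_Icc]
    have hjJ := mem_range.1 (hS1 hj)
    exact ⟨⟨by omega, by omega⟩, hgood⟩
  -- counting
  have hDle : D.card ≤ ((Icc 1 m).filter (fun X => 30 ∣ X ∧ (n : ℝ) / (Real.log n) ^ (B1 + 1) ≤ hdeg n X)).card := by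
    refine card_le_card_of_injOn (fun d => W * d) ?_ ?_
    · intro d hd
      rw [mem_coe, hD, mem_filter, mem_Icc] at hd
      rw [mem_coe, mem_filter, mem_Icc]
      refine ⟨⟨Nat.mul_pos hWpos hd.1.1, ?_⟩, Dvd.dvd.mul_right hW30 d, hd.2⟩
      calc W * d ≤ W * J := Nat.mul_le_mul_left _ hd.1.2
        _ = J * W := by ring
        _ ≤ m := hJW
    · intro a _ b _ h
      exact Nat.eq_of_mul_eq_mul_left hWpos h
  have hmJ : m < (J + 1) * W := by
    rw [hJ]
    exact Nat.lt_mul_of_div_lt (Nat.lt_succ_self _) hWpos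
  have h1 : ((J : ℝ) + 1) ≤ k * (2 * D.card + 1) := by exact_mod_cast hkey.le
  have h2 : (m : ℝ) ≤ (J + 1) * W := by exact_mod_cast hmJ.le
  have h3 : (4 : ℝ) * k * W ≤ m := by exact_mod_cast hm
  have h4 : (D.card : ℝ) ≤ (((Icc 1 m).filter (fun X => 30 ∣ X ∧ (n : ℝ) / (Real.log n) ^ (B1 + 1) ≤ hdeg n X)).card : ℝ) := by
    exact_mod_cast hDle
  refine le_trans ?_ h4
  have h5 : (m : ℝ) ≤ k * (2 * D.card + 1) * W := h2.trans (mul_le_mul_of_nonneg_right h1 (by linarith))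
  rw [one_div, inv_mul_le_iff₀ (by positivity)]
  nlinarith

end Pool.Agent.Lib.H18F
end

-- from Lib.H18R.GL
section

/-!
# Project H18R (MP_443e5f_co): two vertices which are rich at two scales are at distance at most 13

Let `m ≤ m'` be scales, `u` a vertex with at least `m ^ (1 - b)` neighbours in `G m`, `v` a vertex with at least
`m' ^ (1 - b)` neighbours in `G m'`. If `1000 m ≤ m'`, the Maynard-Tao theorem (`H18P.jump`) gives a vertex `X` which is
generic at the scale `m` and has at least `m' / (log m') ^ B` neighbours at the scale `m'`. By project T (`Fin5`) `u` is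
at distance at most `1 + 5` from `X` in `G m`, and `X` and `v` are at distance at most `7` in `G m'`.
-/

open Finset

namespace Pool.Agent.Lib.H18R

open Pool.Agent.Goldbach Pool.Agent.Lib.H96G
open Pool.Agent.Lib.GoldbachGraph (hadj hdeg)
open Pool.Agent.Lib.H96G.Tr (finite_of_le deg_le le_deg)

/-- Larger graphs have smaller distances. -/
theorem gl_lift {V V' S S' : Set ℕ} (hV : V ⊆ V') (hS : S ⊆ S') (a b : V) :
    (halfGraph V' S').edist ⟨a, hV a.2⟩ ⟨b, hV b.2⟩ ≤ (halfGraph V S).edist a b := by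
  let f : halfGraph V S →g halfGraph V' S' :=
    { toFun := fun a => ⟨a, hV a.2⟩
      map_rel' := by
        rintro a b ⟨h1, h2, h3⟩
        refine ⟨fun h => h1 (Subtype.ext ?_), hS h2, hS h3⟩
        exact congrArg (fun x : V' => (x : ℕ)) h }
  refine le_iInf fun w => ?_
  have h := SimpleGraph.edist_le (w.map f)
  rw [SimpleGraph.Walk.length_map] at h
  exact h

/-- The family of graphs. -/
structure Fam (V S : ℕ → Set ℕ) : Prop where
  hV : ∀ n, ∀ a ∈ V n, Even a ∧ a ≤ 2 * n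
  hV2 : ∀ n, ∀ x ∈ Finset.Icc 1 n, 2 * x ∈ V n
  hS : ∀ n m, m.Prime → Odd m → m < 2 * n → m ∈ S n
  hS' : ∀ n, ∀ m ∈ S n, m = 1 ∨ (m.Prime ∧ Odd m)
  mV : ∀ m n, m ≤ n → V m ⊆ V n
  mS : ∀ m n, m ≤ n → S m ⊆ S n

theorem fam_gold : Fam goldbachVertices (fun n => {p | p.Prime ∧ Odd p ∧ p < 2 * n}) where
  hV := fun n a ha => ha
  hV2 := fun n x hx => by
    rw [Finset.mem_Icc] at hx
    exact ⟨even_two_mul x, by omega⟩
  hS := fun n m h1 h2 h3 => ⟨h1, h2, h3⟩
  hS' := fun n m hm => Or.inr ⟨hm.1, hm.2.1⟩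
  mV := fun m n h a ha => ⟨ha.1, ha.2.trans (by omega)⟩
  mS := fun m n h a ha => ⟨ha.1, ha.2.1, lt_of_lt_of_le ha.2.2 (by omega)⟩

theorem fam_near : Fam evenVertices (fun n => {1} ∪ {p | p.Prime ∧ Odd p ∧ p < 2 * n}) where
  hV := fun n a ha => ⟨ha.1, ha.2.2⟩
  hV2 := fun n x hx => by
    rw [Finset.mem_Icc] at hx
    exact ⟨even_two_mul x, by omega, by omega⟩
  hS := fun n m h1 h2 h3 => Or.inr ⟨h1, h2, h3⟩
  hS' := fun n m hm => by
    rcases hm with hm | hm
    · exact Or.inl hm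
    · exact Or.inr ⟨hm.1, hm.2.1⟩
  mV := fun m n h a ha => ⟨ha.1, ha.2.1, ha.2.2.trans (by omega)⟩
  mS := fun m n h a ha => by
    rcases ha with ha | ha
    · exact Or.inl ha
    · exact Or.inr ⟨ha.1, ha.2.1, lt_of_lt_of_le ha.2.2 (by omega)⟩



/-- A large set meets the generic set. -/
theorem gl_meet {V : Set ℕ} (hV : V.Finite) {Γ A : Set V} {t : ℝ} (h1 : (Γᶜ.ncard : ℝ) ≤ t)
    (h2 : t < (A.ncard : ℝ)) : ∃ x ∈ A, x ∈ Γ := by
  by_contra h
  push Not at h
  have : Finite V := hV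
  have h3 : A ⊆ Γᶜ := fun x hx => h x hx
  have h4 : A.ncard ≤ Γᶜ.ncard := Set.ncard_le_ncard h3 (Set.toFinite _)
  have h5 : (A.ncard : ℝ) ≤ Γᶜ.ncard := by exact_mod_cast h4
  linarith

/-- A set of numbers `x` gives a set of vertices `2 x` of the same size. -/
theorem gl_image {V : Set ℕ} (hV : V.Finite) (J : Finset ℕ) (hJ : ∀ x ∈ J, 2 * x ∈ V) :
    (J.card : ℝ) ≤ (({a : V | ∃ x ∈ J, (a : ℕ) = 2 * x}).ncard : ℝ) := by
  have : Finite V := hV
  have h : J.card ≤ ({a : V | ∃ x ∈ J, (a : ℕ) = 2 * x}).ncard := by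
    rw [← Set.ncard_coe_finset]
    have h1 : ((J : Set ℕ)) ⊆ (fun a : V => (a : ℕ) / 2) '' {a : V | ∃ x ∈ J, (a : ℕ) = 2 * x} := by
      intro x hx
      rw [Finset.mem_coe] at hx
      refine ⟨⟨2 * x, hJ x hx⟩, ⟨x, hx, rfl⟩, ?_⟩
      simp
    exact (Set.ncard_le_ncard h1 ((Set.toFinite _).image _)).trans (Set.ncard_image_le (Set.toFinite _))
  exact_mod_cast h

/-- A vertex with many neighbours is at distance at most `1 + 5` from every generic vertex. -/
theorem gl_six {V : Set ℕ} (hV : V.Finite) {G : SimpleGraph V} {Γ : Set V} {t : ℝ}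
    (h1 : (Γᶜ.ncard : ℝ) ≤ t) (h5 : ∀ a ∈ Γ, ∀ b ∈ Γ, G.edist a b ≤ 5) {u : V}
    (hu : t < ((G.neighborSet u).ncard : ℝ)) {x : V} (hx : x ∈ Γ) : G.edist u x ≤ 6 := by
  obtain ⟨y, hy, hyΓ⟩ := gl_meet hV h1 hu
  have hadj : G.Adj u y := hy
  have e1 : G.edist u y ≤ 1 := by
    refine (SimpleGraph.edist_le (.cons hadj .nil)).trans ?_
    norm_num
  calc G.edist u x ≤ G.edist u y + G.edist y x := SimpleGraph.edist_triangle
    _ ≤ 1 + 5 := add_le_add e1 (h5 y hyΓ x hx)
    _ = 6 := by norm_num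

/-- Thresholds. -/
theorem gl_thr (b d c : ℝ) (hbd : b < d) (hd : 0 < d) (hc : 0 < c) (B : ℕ) : ∃ n0 : ℕ, 1 ≤ n0 ∧
    ∀ m : ℕ, n0 ≤ m → (m : ℝ) ^ (1 - d) < (m : ℝ) ^ (1 - b) ∧ (m : ℝ) ^ (1 - d) < c * m ∧
      (m : ℝ) ^ (1 - 2 * d) ≤ m / (Real.log m) ^ B ∧ (m : ℝ) ^ (1 - 2 * d) ≤ (m : ℝ) ^ (1 - b) := by
  have h1 := (tendsto_rpow_atTop (show 0 < d - b by linarith)).eventually_gt_atTop 1
  have h2 : ∀ᶠ y : ℝ in Filter.atTop, y ^ (-d) < c :=
    (tendsto_rpow_neg_atTop hd).eventually (gt_mem_nhds hc)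
  have h3 : ∀ᶠ y : ℝ in Filter.atTop, (Real.log y) ^ B ≤ y ^ (2 * d) := by
    have k := (isLittleO_log_rpow_rpow_atTop (B : ℝ) (show 0 < 2 * d by linarith)).def one_pos
    filter_upwards [k, Filter.eventually_ge_atTop (1 : ℝ)] with y k hy
    have hL : 0 ≤ Real.log y := Real.log_nonneg hy
    rw [Real.rpow_natCast, Real.norm_of_nonneg (by positivity), Real.norm_of_nonneg (by positivity), one_mul] at k
    exact k
  obtain ⟨n0, hn0⟩ := Filter.eventually_atTop.1
    (tendsto_natCast_atTop_atTop.eventually (h1.and (h2.and h3)))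
  refine ⟨max n0 2, by omega, fun m hm => ?_⟩
  obtain ⟨e1, e2, e3⟩ := hn0 m (by omega)
  have hm2 : (2 : ℝ) ≤ m := by exact_mod_cast (by omega : 2 ≤ m)
  have hm0 : (0 : ℝ) < m := by linarith
  have hlog : 0 < Real.log m := Real.log_pos (by linarith)
  refine ⟨?_, ?_, ?_, ?_⟩
  · have k1 : (m : ℝ) ^ (1 - b) = (m : ℝ) ^ (1 - d) * (m : ℝ) ^ (d - b) := by
      rw [← Real.rpow_add hm0]
      congr 1
      ring
    rw [k1]
    have k2 : 0 < (m : ℝ) ^ (1 - d) := Real.rpow_pos_of_pos hm0 _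
    nlinarith
  · have k1 : (m : ℝ) ^ (1 - d) = m * (m : ℝ) ^ (-d) := by
      rw [sub_eq_add_neg, Real.rpow_add hm0, Real.rpow_one]
    rw [k1, mul_comm c]
    exact mul_lt_mul_of_pos_left e2 hm0
  · rw [le_div_iff₀ (by positivity)]
    have k1 : (m : ℝ) = (m : ℝ) ^ (1 - 2 * d) * (m : ℝ) ^ (2 * d) := by
      rw [← Real.rpow_add hm0]
      have : 1 - 2 * d + 2 * d = 1 := by ring
      rw [this, Real.rpow_one]
    calc (m : ℝ) ^ (1 - 2 * d) * Real.log m ^ B ≤ (m : ℝ) ^ (1 - 2 * d) * (m : ℝ) ^ (2 * d) :=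
          mul_le_mul_of_nonneg_left e3 (Real.rpow_nonneg hm0.le _)
      _ = m := k1.symm
  · exact Real.rpow_le_rpow_of_exponent_le (by linarith) (by linarith)


end Pool.Agent.Lib.H18R
end
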