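import Mathlib
import Pool.Agent.Lib.H1M.RV3.D_H59L_Defs

/-! Merged copies (to shorten the build) of Lib.H59L.K1, Lib.H59L.K2, Lib.H59L.K6A, Lib.H59L.K6, Lib.H59L.K3, Lib.H59L.K7A, Lib.H59L.K4, Lib.H59L.K7B, Lib.H59L.K7C, Lib.H59L.K5, Lib.H59L.K7D, Lib.H59L.K8. -/

-- from Lib.H59L.K1
section

/-!
# Project H59L, chunk K1 (M): pairs of the same type are at distance 2
-/

open Finset

namespace Pool.Agent.Lib.H59L

open Pool.Agent.Goldbach
open Pool.Agent.Lib.H96G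

theorem k1_far {Z u v : ℕ} {I : Finset ℕ} (hv : v ∈ I) (h : ST u v)
    (h' : ¬ ∃ y ∈ Ico Z (2 * Z), Pool.Agent.Lib.GoldbachGraph.hadj u y ∧ Pool.Agent.Lib.GoldbachGraph.hadj v y) : v ∈ far Z u I := by
  unfold far
  simp only [mem_filter]
  exact ⟨hv, h, h'⟩

/-- Proof. `D2` (`H96G/D2.lean`): `Z0`, `Γ0` with `P0 : PZ n Z0 s t Γ0`, `s = n^(1-c/2+3B)`, `Z0 ≤ 2 n^(1-B)`. Let `(u, v)` be in
`stFar n`. If `u ∈ Γ0` and `4 Z0 ≤ v`, then `v ∈ far Z0 u (Icc (4 Z0) n)`: else `v` and `u` have a common neighbour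
`y ∈ [Z0, 2 Z0)` (definition of `far`), and `c0_two` (`c0_mem` for the ranges, `lo = 1`; `Γ0 ⊆ Icc (4 Z0) n`). For each `u ∈ Γ0`
there are at most `s` such `v` (field `be`). The other pairs have `u < 4 Z0`, or `u ∈ Icc (4 Z0) n \ Γ0` (at most `s`, field
`co`), or `v < 4 Z0`. In total at most `n (4 Z0 + s) + n (4 Z0) + n s ≤ n (16 n^(1-B) + 2 n^(1-c/2+3B)) ≤ n^(2-B/10)`
(`Nm.cst` as in `E1`; `c ≥ 100 B`, `B ≥ 100 b`). -/
theorem K1_st {n M : ℕ} {L : ℕ → ℤ → ℝ} {c B b : ℝ} (hN : Nm n b) (h : GIn n M L c B b) :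
    ((stFar n).card : ℝ) ≤ (n : ℝ) ^ (2 - B / 10) := by
  classical
  have hb := h.b_pos
  have hbB := h.hb
  have hBc := h.hB
  have hc := h.hc
  obtain ⟨Z0, Z1, Z2, Γ0, Γ1, Γ2, hM0, hlo0, hhi0, hZ2, hT⟩ := D2 hN h
  have hP := hT.P0
  have h1 : stFar n ⊆ (Icc 1 (4 * Z0) ×ˢ Icc 1 n) ∪ (((Icc (4 * Z0) n \ Γ0) ×ˢ Icc 1 n) ∪ ((Icc 1 n ×ˢ Icc 1 (4 * Z0)) ∪
      Γ0.biUnion fun u => (far Z0 u (Icc (4 * Z0) n)).image (Prod.mk u))) := by
    rintro ⟨u, v⟩ huv
    unfold stFar at huv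
    rw [mem_filter, mem_product] at huv
    obtain ⟨⟨hu, hv⟩, hST, hd⟩ := huv
    have hu1 := mem_Icc.1 hu
    have hv1 := mem_Icc.1 hv
    by_cases hu4 : u ≤ 4 * Z0
    · exact mem_union_left _ (mem_product.2 ⟨mem_Icc.2 ⟨hu1.1, hu4⟩, hv⟩)
    refine mem_union_right _ ?_
    by_cases huΓ : u ∈ Γ0
    swap
    · exact mem_union_left _ (mem_product.2 ⟨mem_sdiff.2 ⟨mem_Icc.2 ⟨by omega, hu1.2⟩, huΓ⟩, hv⟩)
    refine mem_union_right _ ?_
    by_cases hv4 : v ≤ 4 * Z0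
    · exact mem_union_left _ (mem_product.2 ⟨hu, mem_Icc.2 ⟨hv1.1, hv4⟩⟩)
    refine mem_union_right _ ?_
    refine mem_biUnion.2 ⟨u, huΓ, mem_image.2 ⟨v, ?_, rfl⟩⟩
    have hv5 : v ∈ Icc (4 * Z0) n := mem_Icc.2 ⟨by omega, hv1.2⟩
    refine k1_far hv5 hST ?_
    rintro ⟨y, hy, hay, hay'⟩
    exact hd (c0_two hay hay' (c0_mem le_rfl hy (hP.sub huΓ)).1 (c0_mem le_rfl hy hv5).2 (c0_mem le_rfl hy hv5).1)
  have h2 := (card_le_card h1).trans ((card_union_le _ _).trans (Nat.add_le_add_left ((card_union_le _ _).trans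
    (Nat.add_le_add_left (card_union_le _ _) _)) _))
  rw [card_product, card_product, card_product, Nat.card_Icc, Nat.card_Icc] at h2
  have e1 : n + 1 - 1 = n := by omega
  have e2 : 4 * Z0 + 1 - 1 = 4 * Z0 := by omega
  rw [e1, e2] at h2
  have hs := hN.ppos (1 - c / 2 + 3 * B)
  have h3 : (((Γ0.biUnion fun u => (far Z0 u (Icc (4 * Z0) n)).image (Prod.mk u)).card : ℕ) : ℝ) ≤ n * (n : ℝ) ^ (1 - c / 2 + 3 * B) := by
    have h4 : ((Γ0.biUnion fun u => (far Z0 u (Icc (4 * Z0) n)).image (Prod.mk u)).card) ≤ ∑ u ∈ Γ0, (far Z0 u (Icc (4 * Z0) n)).card :=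
      card_biUnion_le.trans (sum_le_sum fun u _ => card_image_le)
    have h5 : ((∑ u ∈ Γ0, (far Z0 u (Icc (4 * Z0) n)).card : ℕ) : ℝ) ≤ ∑ u ∈ Γ0, (n : ℝ) ^ (1 - c / 2 + 3 * B) := by
      rw [Nat.cast_sum]
      exact sum_le_sum fun u hu => hP.be u hu
    rw [sum_const, nsmul_eq_mul] at h5
    have h6 : Γ0.card ≤ n := by
      have h7 := card_le_card hP.sub
      have h8 : (Icc (4 * Z0) n).card ≤ n := by
        rw [Nat.card_Icc]
        have hZ1 : 1 ≤ Z0 := by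
          by_contra h0
          have h9 : Z0 = 0 := by omega
          rw [h9] at hlo0
          have := hN.ppos (1 - B)
          push_cast at hlo0
          linarith
        omega
      exact h7.trans h8
    have h7 : (Γ0.card : ℝ) ≤ n := by exact_mod_cast h6
    have h8 : ((Γ0.biUnion fun u => (far Z0 u (Icc (4 * Z0) n)).image (Prod.mk u)).card : ℝ) ≤
        ((∑ u ∈ Γ0, (far Z0 u (Icc (4 * Z0) n)).card : ℕ) : ℝ) := by exact_mod_cast h4
    exact h8.trans (h5.trans (mul_le_mul_of_nonneg_right h7 hs.le))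
  have hn0 : (0 : ℝ) ≤ n := Nat.cast_nonneg n
  have h4 : ((stFar n).card : ℝ) ≤ 4 * Z0 * n + (((Icc (4 * Z0) n \ Γ0).card : ℝ) * n + (n * (4 * Z0) +
      (((Γ0.biUnion fun u => (far Z0 u (Icc (4 * Z0) n)).image (Prod.mk u)).card : ℕ) : ℝ))) := by exact_mod_cast h2
  have h5 : ((Icc (4 * Z0) n \ Γ0).card : ℝ) * n ≤ (n : ℝ) ^ (1 - c / 2 + 3 * B) * n := mul_le_mul_of_nonneg_right hP.co hn0
  have h6 : (Z0 : ℝ) * n ≤ 2 * (n : ℝ) ^ (1 - B) * n := mul_le_mul_of_nonneg_right hhi0 hn0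
  have h7 : (n : ℝ) ^ (1 - c / 2 + 3 * B) * n ≤ (n : ℝ) ^ (1 - B) * n := mul_le_mul_of_nonneg_right (hN.mono (by linarith)) hn0
  have h8 : (n : ℝ) ^ (1 - B) * n = (n : ℝ) ^ (2 - B) := by
    have h9 := hN.mul (1 - B) 1
    rw [Real.rpow_one] at h9
    rw [h9]
    congr 1
    ring
  have h9 : (18 : ℝ) * (n : ℝ) ^ (2 - B) ≤ (n : ℝ) ^ (2 - B / 10) := hN.cst (by norm_num) (by linarith)
  nlinarith [h3, h4, h5, h6, h7, h8, h9]

end Pool.Agent.Lib.H59L
end

-- from Lib.H59L.K2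
section

/-!
# Project H59L, chunk K2 (M): few pairs are too far apart
-/

open Finset

namespace Pool.Agent.Lib.H59L

open Pool.Agent.Goldbach
open Pool.Agent.Lib.H96G
open Pool.Agent.Lib.H18GB (dd)

/-- Proof. Let `Γ ⊆ Icc 1 n` be the set of `GOut 1 n B` (`E1` of `H96G` with `lo = 1`), and `(u, v)` in `farP n` with `u, v ∈ Γ`.
Cases of `dd u v` (`unfold dd`, `3 ∣ x ↔ x % 3 = 0`): value `2`: `ST u v`, the pair is in `stFar n`; value `4`: same parity,
`edist ≤ 4`, impossible; value `3`: `OT u v` (then `edist ≤ 3`) or the pair is in `ffFar n`; value `5`: `edist ≤ 5`,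
impossible. -/
theorem K2_cases {n : ℕ} {Γ : Finset ℕ} (hΓ : Γ ⊆ Icc 1 n)
    (h : ∀ u ∈ Γ, ∀ v ∈ Γ, (HL 1 n).edist u v ≤ 5 ∧ (u % 2 = v % 2 → (HL 1 n).edist u v ≤ 4) ∧
      (OT u v → (HL 1 n).edist u v ≤ 3)) :
    farP n ⊆ stFar n ∪ (ffFar n ∪ (((Icc 1 n \ Γ) ×ˢ Icc 1 n) ∪ (Icc 1 n ×ˢ (Icc 1 n \ Γ)))) := by
  classical
  rintro ⟨u, v⟩ hp
  unfold farP at hp
  rw [mem_filter, mem_product] at hp
  obtain ⟨⟨hu, hv⟩, hd⟩ := hp
  simp only at hu hv hd
  by_cases hu' : u ∈ Γ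
  · by_cases hv' : v ∈ Γ
    · obtain ⟨h5, h4, h3⟩ := h u hu' v hv'
      by_cases hpar : u % 2 = v % 2
      · by_cases h3' : (u % 3 = 0 ↔ v % 3 = 0)
        · have hdd : dd u v = 2 := by
            unfold dd
            rw [if_pos hpar, if_pos h3']
          rw [hdd] at hd
          refine mem_union_left _ ?_
          unfold stFar
          rw [mem_filter, mem_product]
          refine ⟨⟨hu, hv⟩, ⟨hpar, ?_⟩, hd⟩
          simp only [Nat.dvd_iff_mod_eq_zero]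
          exact h3'
        · have hdd : dd u v = 4 := by
            unfold dd
            rw [if_pos hpar, if_neg h3']
          rw [hdd] at hd
          exact absurd (h4 hpar) hd
      · by_cases h33 : u % 3 = 0 ∧ v % 3 = 0
        · by_cases h55 : (u % 5 = 2 ∨ u % 5 = 3) ∧ (v % 5 = 2 ∨ v % 5 = 3)
          · have hdd : dd u v = 5 := by
              unfold dd
              rw [if_neg hpar, if_pos h33, if_pos h55]
            rw [hdd] at hd
            exact absurd h5 hd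
          · have hdd : dd u v = 3 := by
              unfold dd
              rw [if_neg hpar, if_pos h33, if_neg h55]
            rw [hdd] at hd
            refine mem_union_right _ (mem_union_left _ ?_)
            unfold ffFar
            rw [mem_filter, mem_product]
            exact ⟨⟨hu, hv⟩, Nat.dvd_of_mod_eq_zero h33.1, Nat.dvd_of_mod_eq_zero h33.2, hpar, h55, hd⟩
        · by_cases h3n : u % 3 ≠ 0 ∧ v % 3 ≠ 0
          · have hdd : dd u v = 5 := by
              unfold dd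
              rw [if_neg hpar, if_neg h33, if_pos h3n]
            rw [hdd] at hd
            exact absurd h5 hd
          · have hdd : dd u v = 3 := by
              unfold dd
              rw [if_neg hpar, if_neg h33, if_neg h3n]
            rw [hdd] at hd
            refine absurd (h3 ⟨hpar, ?_⟩) hd
            simp only [Nat.dvd_iff_mod_eq_zero]
            tauto
    · refine mem_union_right _ (mem_union_right _ (mem_union_right _ ?_))
      rw [mem_product, mem_sdiff]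
      exact ⟨hu, hv, hv'⟩
  · refine mem_union_right _ (mem_union_right _ (mem_union_left _ ?_))
    rw [mem_product, mem_sdiff]
    exact ⟨⟨hu, hu'⟩, hv⟩

theorem k2_four (δ : ℝ) (hδ : 0 < δ) : ∃ n0 : ℕ, ∀ n : ℕ, n0 ≤ n → (4 : ℝ) ≤ (n : ℝ) ^ δ := by
  have h1 := (tendsto_rpow_atTop hδ).eventually (Filter.eventually_ge_atTop (4 : ℝ))
  have h2 := (tendsto_natCast_atTop_atTop (R := ℝ)).eventually h1
  obtain ⟨n0, hn0⟩ := Filter.eventually_atTop.mp h2
  exact ⟨n0, fun n hn => hn0 n hn⟩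

/-- Proof. `nm_ev` (`H96G`) gives `Nm n b` for `n` large (as in `H96G/Final.lean`). `B ≥ 100 b ≥ 100 c0`. `K1_st`:
`card (stFar n) ≤ n^(2-10 c0)`. `E1` (`lo = 1`) and `K2_cases`: `card (farP n) ≤ n^(2-10 c0) + n^(2-c1) + 2 n n^(1-10 c0)`.
`δ = min (min (5 c0) (c1/2)) 1`: all this is at most `4 n^(2-2δ) ≤ n^(2-δ)` as soon as `n^δ ≥ 4`. -/
theorem K2_far (c0 c1 : ℝ) (hc0 : 0 < c0) (hc1 : 0 < c1) (n1 : ℕ)
    (h : ∀ n : ℕ, n1 ≤ n → ∃ (M : ℕ) (L : ℕ → ℤ → ℝ) (c B b : ℝ), c0 ≤ b ∧ GIn n M L c B b)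
    (hff : ∀ n : ℕ, n1 ≤ n → ((ffFar n).card : ℝ) ≤ (n : ℝ) ^ (2 - c1)) :
    ∃ δ : ℝ, 0 < δ ∧ δ ≤ 1 ∧ ∃ n0 : ℕ, ∀ n : ℕ, n0 ≤ n →
      ((stFar n).card : ℝ) ≤ (n : ℝ) ^ (2 - δ) ∧ ((farP n).card : ℝ) ≤ (n : ℝ) ^ (2 - δ) := by
  obtain ⟨n2, hn2⟩ := nm_ev c0 hc0
  obtain ⟨δ, hδ⟩ : ∃ δ : ℝ, δ = min (min (5 * c0) (c1 / 2)) 1 := ⟨_, rfl⟩
  have hδ0 : 0 < δ := by
    rw [hδ]
    exact lt_min (lt_min (by positivity) (by positivity)) one_pos
  have hδ1 : δ ≤ 5 * c0 := by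
    rw [hδ]
    exact (min_le_left _ _).trans (min_le_left _ _)
  have hδ2 : δ ≤ c1 / 2 := by
    rw [hδ]
    exact (min_le_left _ _).trans (min_le_right _ _)
  have hδ3 : δ ≤ 1 := by
    rw [hδ]
    exact min_le_right _ _
  obtain ⟨n3, hn3⟩ := k2_four δ hδ0
  refine ⟨δ, hδ0, hδ3, max n1 (max n2 n3), fun n hn => ?_⟩
  have e1 : n1 ≤ n := le_trans (le_max_left _ _) hn
  have e2 : n2 ≤ n := le_trans (le_trans (le_max_left _ _) (le_max_right _ _)) hn
  have e3 : n3 ≤ n := le_trans (le_trans (le_max_right _ _) (le_max_right _ _)) hn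
  obtain ⟨M, L, c, B, b, hb, hG⟩ := h n e1
  have hN := hn2 n e2 b hb
  have hB := hG.hb
  have hst := K1_st hN hG
  have hff' := hff n e1
  obtain ⟨⟨Γ, hΓ1, hΓ2, -, hΓ4⟩, -⟩ := E1 (lo := 1) le_rfl hN hG
  have hp := hN.ppos (2 - 2 * δ)
  have h4 : 4 * (n : ℝ) ^ (2 - 2 * δ) ≤ (n : ℝ) ^ (2 - δ) := by
    have h5 := mul_le_mul_of_nonneg_right (hn3 n e3) hp.le
    rw [hN.mul] at h5
    have h6 : δ + (2 - 2 * δ) = 2 - δ := by ring
    rwa [h6] at h5
  have hst' : ((stFar n).card : ℝ) ≤ (n : ℝ) ^ (2 - 2 * δ) := hst.trans (hN.mono (by linarith))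
  have hff'' : ((ffFar n).card : ℝ) ≤ (n : ℝ) ^ (2 - 2 * δ) := hff'.trans (hN.mono (by linarith))
  refine ⟨by linarith, ?_⟩
  have hcard := card_le_card (K2_cases hΓ1 hΓ4)
  have hcard2 := hcard.trans ((card_union_le _ _).trans (Nat.add_le_add_left ((card_union_le _ _).trans
    (Nat.add_le_add_left (card_union_le _ _) _)) _))
  rw [card_product, card_product, card_sdiff_of_subset hΓ1, Nat.card_Icc, Nat.add_sub_cancel] at hcard2
  have hΓn : Γ.card ≤ n := by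
    have h7 := card_le_card hΓ1
    rwa [Nat.card_Icc, Nat.add_sub_cancel] at h7
  have h8 : ((farP n).card : ℝ) ≤ ((stFar n).card : ℝ) + (((ffFar n).card : ℝ) +
      (((n : ℝ) - Γ.card) * n + n * ((n : ℝ) - Γ.card))) := by
    have h9 : ((farP n).card : ℝ) ≤ (((stFar n).card + ((ffFar n).card +
      ((n - Γ.card) * n + n * (n - Γ.card))) : ℕ) : ℝ) := by exact_mod_cast hcard2
    rw [Nat.cast_add, Nat.cast_add, Nat.cast_add, Nat.cast_mul, Nat.cast_mul, Nat.cast_sub hΓn] at h9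
    exact h9
  have h10 : ((n : ℝ) - Γ.card) * n ≤ (n : ℝ) ^ (2 - 2 * δ) := by
    have h11 : (n : ℝ) - Γ.card ≤ (n : ℝ) ^ (1 - B / 10) := by linarith
    have h12 := mul_le_mul_of_nonneg_right h11 hN.pos.le
    refine h12.trans ?_
    have h13 : (n : ℝ) ^ (1 - B / 10) * (n : ℝ) = (n : ℝ) ^ (1 - B / 10 + 1) := by
      rw [Real.rpow_add_one hN.pos.ne']
    rw [h13]
    exact hN.mono (by linarith)
  have h14 : (n : ℝ) * ((n : ℝ) - Γ.card) ≤ (n : ℝ) ^ (2 - 2 * δ) := by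
    rw [mul_comm]
    exact h10
  linarith

end Pool.Agent.Lib.H59L
end

-- from Lib.H59L.K6A
section

/-!
# Project H59L, chunk K6A (S/M, ONLY MATHLIB): primes of the form 2x - 3
-/

open Finset

namespace Pool.Agent.Lib.H59L

theorem K6A_card (n : ℕ) (_hn : 3 ≤ n) :
    Nat.primeCounting n ≤ ((Finset.Icc 7 n).filter fun x => (2 * x - 3).Prime).card + 4 := by
  have h1 : Nat.primeCounting n = ((Finset.range (n + 1)).filter Nat.Prime).card := by
    rw [Nat.primeCounting, Nat.primeCounting', Nat.count_eq_card_filter_range]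
  rw [h1]
  have h2 : (Finset.range (n + 1)).filter Nat.Prime ⊆
      (((Finset.Icc 7 n).filter fun x => (2 * x - 3).Prime).image fun x => 2 * x - 3) ∪ {2, 3, 5, 7} := by
    intro p hp
    rw [mem_filter, mem_range] at hp
    obtain ⟨hpn, hpp⟩ := hp
    rw [mem_union]
    by_cases h7 : p ≤ 10
    · right
      interval_cases p <;> first | (simp; done) | (exfalso; revert hpp; norm_num)
    · left
      rw [mem_image]
      have hodd : p % 2 = 1 := by
        rcases hpp.eq_two_or_odd with h | h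
        · omega
        · exact h
      refine ⟨(p + 3) / 2, ?_, by omega⟩
      rw [mem_filter, mem_Icc]
      have e : 2 * ((p + 3) / 2) - 3 = p := by omega
      rw [e]
      exact ⟨⟨by omega, by omega⟩, hpp⟩
  refine (card_le_card h2).trans ((card_union_le _ _).trans ?_)
  have h3 : ({2, 3, 5, 7} : Finset ℕ).card = 4 := rfl
  rw [h3]
  exact Nat.add_le_add_right card_image_le 4

/-- Proof. The map `x ↦ 2 x - 3` is a bijection from the set onto the primes in `[11, 2 n - 3]`, so the number is at least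
`π (2 n - 3) - 4 ≥ π n - 4` (`n ≥ 3`; the primes `2, 3, 5, 7`), and `π n ≥ ψ n/log n ≥ (n log 2 - log (n+1))/log n`
(`Chebyshev.psi_le_primeCounting_mul_log`, `Chebyshev.psi_ge`). `c = 1/2` for instance (`log 2 > 0.69`). -/
theorem K6A_primes : ∃ c : ℝ, 0 < c ∧ ∃ n0 : ℕ, ∀ n : ℕ, n0 ≤ n →
    c * n / Real.log n ≤ (((Finset.Icc 7 n).filter fun x => (2 * x - 3).Prime).card : ℝ) := by
  refine ⟨1 / 2, by norm_num, 4096, fun n hn => ?_⟩
  have hnR : (4096 : ℝ) ≤ n := by exact_mod_cast hn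
  have hlog : 0 < Real.log n := Real.log_pos (by linarith)
  have h1 := Chebyshev.psi_le_primeCounting_mul_log n
  have h2 := Chebyshev.psi_ge n
  have h3 : (Nat.primeCounting n : ℝ) ≤ (((Finset.Icc 7 n).filter fun x => (2 * x - 3).Prime).card : ℝ) + 4 := by
    exact_mod_cast K6A_card n (by omega)
  rw [div_le_iff₀ hlog]
  have h4 : Real.log ((n : ℝ) + 1) ≤ 2 * Real.log n := by
    rw [← Real.log_rpow (by linarith)]
    apply Real.log_le_log (by linarith)
    norm_num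
    nlinarith
  have hs : (64 : ℝ) ≤ √(n : ℝ) := by
    rw [show (64 : ℝ) = √(4096 : ℝ) by
      rw [show (4096 : ℝ) = 64 ^ 2 by norm_num, Real.sqrt_sq (by norm_num)]]
    exact Real.sqrt_le_sqrt hnR
  have hss : √(n : ℝ) * √(n : ℝ) = n := Real.mul_self_sqrt (by linarith)
  have h5 : Real.log n ≤ 2 * √(n : ℝ) := by
    have h6 : Real.log (√(n : ℝ)) = Real.log n / 2 := Real.log_sqrt (by linarith)
    have h7 := Real.log_le_sub_one_of_pos (show (0 : ℝ) < √(n : ℝ) by linarith)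
    linarith
  have h8 : 6 * Real.log n ≤ 0.19 * n := by nlinarith
  have h9 : (0.69 : ℝ) * n ≤ n * Real.log 2 := by
    have := Real.log_two_gt_d9
    nlinarith
  have h10 : (Nat.primeCounting n : ℝ) * Real.log n ≤
      ((((Finset.Icc 7 n).filter fun x => (2 * x - 3).Prime).card : ℝ) + 4) * Real.log n :=
    mul_le_mul_of_nonneg_right h3 hlog.le
  nlinarith

end Pool.Agent.Lib.H59L
end

-- from Lib.H59L.K6
section

/-!
# Project H59L, chunk K6 (M): many pairs are closer than the typical distance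
-/

open Finset

namespace Pool.Agent.Lib.H59L

open Pool.Agent.Goldbach
open Pool.Agent.Lib.H96G
open Pool.Agent.Lib.H18GB (dd)

/-- Proof. `x ~ x - 3` (`c0_edge` of `H96G/C0.lean`: `3 ≤ x`, `2 x - 3` prime), `edist (x - 3) y ≤ 2` because the pair `(x - 3, y)`
is in `Icc 1 n ×ˢ Icc 1 n`, of the same type (`x` is not divisible by `3`: otherwise `3 ∣ 2 x - 3`, a prime `≥ 11`; parities) and
not in `stFar n`; `c0_one`, `c0_tri` (`lo = 1`). `dd x y = 5`: different parity, none divisible by `3`. -/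
theorem K6_pair {n x y : ℕ} (hx : x ∈ Icc 7 n) (hp : (2 * x - 3).Prime) (hy : y ∈ Icc 1 n)
    (h2 : x % 2 ≠ y % 2) (h3 : y % 3 ≠ 0) (hs : (x - 3, y) ∉ stFar n) : (x, y) ∈ closeP n := by
  classical
  rw [mem_Icc] at hx hy
  have hx3 : x % 3 ≠ 0 := by
    intro h0
    have h4 : 3 ∣ 2 * x - 3 := by omega
    have h5 := (Nat.prime_dvd_prime_iff_eq Nat.prime_three hp).1 h4
    omega
  have hST : ST (x - 3) y := by
    refine ⟨by omega, ?_⟩
    constructor
    · intro h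
      exact absurd h (by omega)
    · intro h
      exact absurd h (by omega)
  have hd2 : (HL 1 n).edist (x - 3) y ≤ 2 := by
    by_contra hne
    apply hs
    unfold stFar
    rw [mem_filter, mem_product, mem_Icc, mem_Icc]
    refine ⟨⟨?_, ?_⟩, hST, hne⟩
    · simp only
      omega
    · simp only
      omega
  have hd1 : (HL 1 n).edist x (x - 3) ≤ ((1 : ℕ) : ℕ∞) := by
    rw [Nat.cast_one]
    refine c0_one (c0_edge (by omega) hp) ?_ ?_
    · rw [mem_Icc]
      omega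
    · rw [mem_Icc]
      omega
  have hd3 : (HL 1 n).edist x y ≤ ((3 : ℕ) : ℕ∞) := c0_tri (k := 3) hd1 hd2 (by norm_num)
  unfold closeP
  rw [mem_filter, mem_product, mem_Icc, mem_Icc]
  refine ⟨⟨?_, ?_⟩, ?_, ?_⟩
  · simp only
    omega
  · simp only
    omega
  · simp only [dd]
    rw [if_neg h2, if_neg (by tauto), if_pos ⟨hx3, h3⟩]
  · exact_mod_cast hd3

/-- Proof. The number of `y ∈ Icc 1 n` of given parity and not divisible by `3` is at least `n/3 - 2` (two classes modulo `6`).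
-/
theorem K6_class (n r : ℕ) :
    (n : ℝ) / 3 - 2 ≤ (((Icc 1 n).filter fun y => r % 2 ≠ y % 2 ∧ y % 3 ≠ 0).card : ℝ) := by
  have hinj : ∀ a : ℕ, 1 ≤ a → a ≤ 6 → r % 2 ≠ a % 2 → a % 3 ≠ 0 →
      (range (n / 6)).image (fun k => 6 * k + a) ⊆
        (Icc 1 n).filter fun y => r % 2 ≠ y % 2 ∧ y % 3 ≠ 0 := by
    intro a ha1 ha6 hra ha3 y hy
    rw [mem_image] at hy
    obtain ⟨k, hk, rfl⟩ := hy
    rw [mem_range] at hk
    rw [mem_filter, mem_Icc]
    omega
  have key : 2 * (n / 6) ≤ ((Icc 1 n).filter fun y => r % 2 ≠ y % 2 ∧ y % 3 ≠ 0).card := by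
    have hcard : ∀ a : ℕ, ((range (n / 6)).image (fun k => 6 * k + a)).card = n / 6 := by
      intro a
      rw [card_image_of_injective _ (fun x y h => by have h9 : 6 * x + a = 6 * y + a := h; omega), card_range]
    have hdis : ∀ a b : ℕ, a < b → b < a + 6 →
        Disjoint ((range (n / 6)).image (fun k => 6 * k + a)) ((range (n / 6)).image (fun k => 6 * k + b)) := by
      intro a b hab hba
      rw [disjoint_left]
      intro y hy hy'
      rw [mem_image] at hy hy'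
      obtain ⟨k, hk, rfl⟩ := hy
      obtain ⟨k', hk', h⟩ := hy'
      omega
    rcases Nat.mod_two_eq_zero_or_one r with hr | hr
    · have h1 := hinj 1 (by omega) (by omega) (by omega) (by omega)
      have h2 := hinj 5 (by omega) (by omega) (by omega) (by omega)
      have h3 := card_le_card (union_subset h1 h2)
      rw [card_union_of_disjoint (hdis 1 5 (by omega) (by omega)), hcard, hcard] at h3
      omega
    · have h1 := hinj 2 (by omega) (by omega) (by omega) (by omega)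
      have h2 := hinj 4 (by omega) (by omega) (by omega) (by omega)
      have h3 := card_le_card (union_subset h1 h2)
      rw [card_union_of_disjoint (hdis 2 4 (by omega) (by omega)), hcard, hcard] at h3
      omega
  have h6 : (n : ℝ) ≤ 6 * ((n / 6 : ℕ) : ℝ) + 6 := by
    have : n ≤ 6 * (n / 6) + 6 := by omega
    exact_mod_cast this
  have h7 : (2 : ℝ) * ((n / 6 : ℕ) : ℝ) ≤
      (((Icc 1 n).filter fun y => r % 2 ≠ y % 2 ∧ y % 3 ≠ 0).card : ℝ) := by exact_mod_cast key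
  linarith

/-- Proof. The pairs `(x, y)` with `x ∈ Icc 7 n`, `2 x - 3` prime, `y` as in `K6_class` (for `r = x`) are at least
`(c n/log n) (n/3 - 2)` (`K6A_primes`), and `(x, y) ↦ (x - 3, y)` is injective, so for all but `n^(2-δ)` of them
`(x - 3, y) ∉ stFar n` and `(x, y) ∈ closeP n` (`K6_pair`). `n^(2-δ) ≤ (c/12) n²/log n` for `n` large. -/
theorem K6_close (δ : ℝ) (hδ : 0 < δ) (n1 : ℕ)
    (h : ∀ n : ℕ, n1 ≤ n → ((stFar n).card : ℝ) ≤ (n : ℝ) ^ (2 - δ)) :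
    ∃ c : ℝ, 0 < c ∧ ∃ n0 : ℕ, ∀ n : ℕ, n0 ≤ n → c * n ^ 2 / Real.log n ≤ ((closeP n).card : ℝ) := by
  classical
  obtain ⟨c, hc, n0, h0⟩ := K6A_primes
  have hlim : Filter.Tendsto (fun n : ℕ => (n : ℝ)) Filter.atTop Filter.atTop :=
    tendsto_natCast_atTop_atTop
  have hev := hlim.eventually ((isLittleO_log_rpow_atTop hδ).bound (show (0 : ℝ) < c / 12 by positivity))
  obtain ⟨n2, hn2⟩ := Filter.eventually_atTop.1 (hev.and (Filter.eventually_ge_atTop 24))
  refine ⟨c / 6, by positivity, max n0 (max n1 n2), fun n hn => ?_⟩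
  have hn0 : n0 ≤ n := (le_max_left _ _).trans hn
  have hn1 : n1 ≤ n := ((le_max_left _ _).trans (le_max_right _ _)).trans hn
  have hn2' : n2 ≤ n := ((le_max_right _ _).trans (le_max_right _ _)).trans hn
  obtain ⟨hlog, hn24'⟩ := hn2 n hn2'
  have hn24 : (24 : ℝ) ≤ n := by exact_mod_cast hn24'
  have hnpos : (0 : ℝ) < n := by linarith
  have hlogn : 0 < Real.log n := Real.log_pos (by linarith)
  set P := (Icc 7 n).filter fun x => (2 * x - 3).Prime with hP
  have hP0 := h0 n hn0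
  rw [← hP] at hP0
  let U : Finset (ℕ × ℕ) := P.biUnion fun x =>
    ({x} : Finset ℕ) ×ˢ ((Icc 1 n).filter fun y => x % 2 ≠ y % 2 ∧ y % 3 ≠ 0)
  have hU : (P.card : ℝ) * (n / 3 - 2) ≤ U.card := by
    have h1 : U.card = ∑ x ∈ P, ((Icc 1 n).filter fun y => x % 2 ≠ y % 2 ∧ y % 3 ≠ 0).card := by
      rw [card_biUnion]
      · refine sum_congr rfl fun x _ => ?_
        rw [card_product, card_singleton, one_mul]
      · intro x _ x' _ hxx
        rw [Function.onFun, disjoint_left]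
        rintro ⟨a, b⟩ hab hab'
        rw [mem_product, mem_singleton] at hab hab'
        exact hxx (hab.1.symm.trans hab'.1)
    rw [h1, Nat.cast_sum, ← nsmul_eq_mul, ← sum_const]
    exact sum_le_sum fun x _ => K6_class n x
  have hsub : U ⊆ closeP n ∪ (stFar n).image fun p => (p.1 + 3, p.2) := by
    rintro ⟨x, y⟩ hxy
    simp only [U, mem_biUnion, mem_product, mem_singleton] at hxy
    obtain ⟨x', hx', rfl, hy⟩ := hxy
    rw [hP, mem_filter] at hx'
    rw [mem_filter] at hy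
    rw [mem_union]
    by_cases hs : (x - 3, y) ∈ stFar n
    · right
      rw [mem_image]
      refine ⟨(x - 3, y), hs, ?_⟩
      have h7 := (mem_Icc.1 hx'.1).1
      simp only [Prod.mk.injEq, and_true]
      omega
    · left
      exact K6_pair hx'.1 hx'.2 hy.1 hy.2.1 hy.2.2 hs
  have hcard : (U.card : ℝ) ≤ (closeP n).card + (stFar n).card := by
    have h1 := (card_le_card hsub).trans (card_union_le _ _)
    have h2 : ((stFar n).image fun p => (p.1 + 3, p.2)).card ≤ (stFar n).card := card_image_le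
    have h3 : U.card ≤ (closeP n).card + (stFar n).card := by omega
    exact_mod_cast h3
  have hst := h n hn1
  have h5 : (n : ℝ) ^ (2 - δ) ≤ c / 12 * n ^ 2 / Real.log n := by
    rw [le_div_iff₀ hlogn, Real.rpow_sub hnpos, div_mul_eq_mul_div, div_le_iff₀ (Real.rpow_pos_of_pos hnpos _)]
    rw [Real.norm_of_nonneg hlogn.le, Real.norm_of_nonneg (Real.rpow_nonneg hnpos.le _)] at hlog
    have h6 : (n : ℝ) ^ (2 : ℝ) = n ^ 2 := by norm_cast
    rw [h6]
    nlinarith [sq_nonneg (n : ℝ)]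
  have h6 : c / 4 * n ^ 2 / Real.log n ≤ (P.card : ℝ) * (n / 3 - 2) := by
    have h7 : (n : ℝ) / 4 ≤ n / 3 - 2 := by linarith
    calc c / 4 * n ^ 2 / Real.log n = (c * n / Real.log n) * (n / 4) := by ring
      _ ≤ P.card * (n / 3 - 2) := mul_le_mul hP0 h7 (by positivity) (by positivity)
  have h8 : c / 4 * n ^ 2 / Real.log n = c / 6 * n ^ 2 / Real.log n + c / 12 * n ^ 2 / Real.log n := by ring
  linarith

end Pool.Agent.Lib.H59L
end

-- from Lib.H59L.K3
section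

/-!
# Project H59L, chunk K3 (S/M): Markov inequality
-/

open Finset

namespace Pool.Agent.Lib.H59L

/-- Proof. `Γ` = the `x ∈ Icc 1 n` with at most `n^(1-δ/2)` partners. `farP n` is the disjoint union of the fibres over the first
coordinate (`card_eq_sum_card_fiberwise` or `card_filter_product`), so (number of `x ∈ Icc 1 n \ Γ`) times `n^(1-δ/2)` is at
most `n^(2-δ) = n^(1-δ/2) n^(1-δ/2)`; divide by `n^(1-δ/2) > 0`. -/
theorem K3_markov (n : ℕ) (δ : ℝ) (hn : 1 ≤ n) (h : ((farP n).card : ℝ) ≤ (n : ℝ) ^ (2 - δ)) :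
    ∃ Γ ⊆ Icc 1 n, ((Icc 1 n \ Γ).card : ℝ) ≤ (n : ℝ) ^ (1 - δ / 2) ∧ ∀ x ∈ Γ,
      (((Icc 1 n).filter fun y => (x, y) ∈ farP n).card : ℝ) ≤ (n : ℝ) ^ (1 - δ / 2) := by
  have hn0 : (0 : ℝ) < n := by exact_mod_cast hn
  have hT : 0 < (n : ℝ) ^ (1 - δ / 2) := Real.rpow_pos_of_pos hn0 _
  refine ⟨(Icc 1 n).filter fun x => (((Icc 1 n).filter fun y => (x, y) ∈ farP n).card : ℝ) ≤ (n : ℝ) ^ (1 - δ / 2),
    filter_subset _ _, ?_, fun x hx => (mem_filter.1 hx).2⟩
  generalize hΓ : ((Icc 1 n).filter fun x => (((Icc 1 n).filter fun y => (x, y) ∈ farP n).card : ℝ) ≤ (n : ℝ) ^ (1 - δ / 2)) = Γ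
  have h1 : ((Icc 1 n \ Γ).card : ℝ) * (n : ℝ) ^ (1 - δ / 2) ≤ ∑ x ∈ Icc 1 n \ Γ, (((Icc 1 n).filter fun y => (x, y) ∈ farP n).card : ℝ) := by
    rw [← nsmul_eq_mul]
    refine card_nsmul_le_sum _ _ _ fun x hx => ?_
    rw [mem_sdiff, ← hΓ, mem_filter, not_and, not_le] at hx
    exact (hx.2 hx.1).le
  have h2 : ∀ x, ((Icc 1 n).filter fun y => (x, y) ∈ farP n).card ≤ ((farP n).filter fun p => p.1 = x).card := by
    intro x
    refine card_le_card_of_injOn (fun y => (x, y)) (fun y hy => ?_) (fun y _ y' _ h => (Prod.mk.inj h).2)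
    have hy' := (mem_filter.1 (mem_coe.1 hy)).2
    exact mem_coe.2 (mem_filter.2 ⟨hy', rfl⟩)
  have h3 : (farP n).card = ∑ x ∈ Icc 1 n, ((farP n).filter fun p => p.1 = x).card := by
    refine card_eq_sum_card_fiberwise fun p hp => ?_
    have hp' := mem_coe.1 hp
    unfold farP at hp'
    exact mem_coe.2 (mem_product.1 (mem_filter.1 hp').1).1
  have h4 : ∑ x ∈ Icc 1 n \ Γ, (((Icc 1 n).filter fun y => (x, y) ∈ farP n).card : ℝ) ≤ ((farP n).card : ℝ) := by
    rw [h3, Nat.cast_sum]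
    refine (sum_le_sum fun x _ => ?_).trans (sum_le_sum_of_subset_of_nonneg sdiff_subset fun x _ _ => Nat.cast_nonneg _)
    exact_mod_cast h2 x
  have h5 : (n : ℝ) ^ (2 - δ) = (n : ℝ) ^ (1 - δ / 2) * (n : ℝ) ^ (1 - δ / 2) := by
    rw [← Real.rpow_add hn0]
    congr 1
    ring
  rw [h5] at h
  exact le_of_mul_le_mul_right (h1.trans (h4.trans h)) hT

end Pool.Agent.Lib.H59L
end

-- from Lib.H59L.K7A
section

/-!
# Project H59L, chunk K7A (M): transfer to the Goldbach graphs, distances of the generic vertices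
-/

open Finset

namespace Pool.Agent.Lib.H59L

open Pool.Agent.Goldbach
open Pool.Agent.Lib.H96G
open Pool.Agent.Lib.H18GB (dd)

theorem k7a_num {δ : ℝ} (hδ : 0 < δ) (hδ1 : δ ≤ 1) : ∃ n0 : ℕ, ∀ n : ℕ, n0 ≤ n →
    1 ≤ n ∧ (n : ℝ) ^ (1 - δ / 2) + 1 ≤ (n : ℝ) ^ (1 - δ / 3) := by
  have h1 : ∀ᶠ n : ℕ in Filter.atTop, (2 : ℝ) ≤ (n : ℝ) ^ (δ / 6) :=
    ((tendsto_rpow_atTop (show 0 < δ / 6 by linarith)).comp tendsto_natCast_atTop_atTop).eventually_ge_atTop 2
  obtain ⟨n0, hn0⟩ := Filter.eventually_atTop.1 h1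
  refine ⟨max n0 1, fun n hn => ⟨(le_max_right _ _).trans hn, ?_⟩⟩
  have h2 := hn0 n ((le_max_left _ _).trans hn)
  have hn1 : (1 : ℝ) ≤ n := by exact_mod_cast (le_max_right _ _).trans hn
  have h3 : (1 : ℝ) ≤ (n : ℝ) ^ (1 - δ / 2) := Real.one_le_rpow hn1 (by linarith)
  have h4 : (n : ℝ) ^ (1 - δ / 3) = (n : ℝ) ^ (1 - δ / 2) * (n : ℝ) ^ (δ / 6) := by
    rw [← Real.rpow_add (by linarith)]
    congr 1
    ring
  rw [h4]
  nlinarith

/-- Proof. `V` is finite (`Tr.finite_of_le`). `K3_markov` gives `Γ0`; `Γ = {a : V | a/2 ∈ Γ0}`. `a ∈ V` is `2 x` with `x ≤ n`. The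
complement of `Γ` injects (by `a ↦ a/2`) into `Icc 1 n \ Γ0` and `{0}`: at most `n^(1-δ/2) + 1` (compare `e2_compl` in
`H96G/E2.lean`). For `a = 2 x ∈ Γ` and `b = 2 y` with `typicalDist a b < edist a b`: `typicalDist_two_mul`; `y = 0`, or
`(x, y) ∈ farP n` by `E2_edist` (`H96G/E2.lean`, `lo = 1`, `k = dd x y`): at most `n^(1-δ/2) + 1` such `b`. And
`n^(1-δ/2) + 1 ≤ n^(1-δ/3)` for `n` large (`1 ≤ n^(1-δ/2)`, `2 ≤ n^(δ/6)`). -/
theorem K7_near {δ : ℝ} (hδ : 0 < δ) (hδ1 : δ ≤ 1) : ∃ n0 : ℕ, ∀ n : ℕ, n0 ≤ n →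
    ((farP n).card : ℝ) ≤ (n : ℝ) ^ (2 - δ) → ∀ V S : Set ℕ, (∀ a ∈ V, Even a ∧ a ≤ 2 * n) →
    (∀ x ∈ Finset.Icc 1 n, 2 * x ∈ V) → (∀ m, m.Prime → Odd m → m < 2 * n → m ∈ S) →
    ∃ Γ : Set V, (Γᶜ.ncard : ℝ) ≤ (n : ℝ) ^ (1 - δ / 3) ∧ ∀ a ∈ Γ,
      ({b : V | (typicalDist a b : ℕ∞) < (halfGraph V S).edist a b}.ncard : ℝ) ≤
        (n : ℝ) ^ (1 - δ / 3) := by
  classical
  obtain ⟨n0, hn0⟩ := k7a_num hδ hδ1
  refine ⟨n0, fun n hn hfar V S hV hV2 hS => ?_⟩
  obtain ⟨hn1, hnum⟩ := hn0 n hn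
  obtain ⟨Γ0, hΓ1, hΓ2, hΓ3⟩ := K3_markov n δ hn1 hfar
  have : Finite V := Tr.finite_of_le hV
  refine ⟨{a : V | (a : ℕ) / 2 ∈ Γ0}, ?_, ?_⟩
  · refine (e2_compl hΓ1 hV).trans ?_
    have h1 : ((Icc 1 n \ Γ0).card : ℝ) = (n : ℝ) - Γ0.card := by
      rw [card_sdiff_of_subset hΓ1, Nat.card_Icc, Nat.add_sub_cancel, Nat.cast_sub]
      have := card_le_card hΓ1
      rwa [Nat.card_Icc, Nat.add_sub_cancel] at this
    linarith
  · intro a ha
    have hx' : (a : ℕ) / 2 ∈ Γ0 := ha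
    obtain ⟨a, haV⟩ := a
    obtain ⟨⟨x, hx⟩, ha2⟩ := hV a haV
    have hax : a = 2 * x := by omega
    subst hax
    have hx0 : x ∈ Γ0 := by
      have h1 : 2 * x / 2 ∈ Γ0 := hx'
      rwa [Nat.mul_div_cancel_left _ (by norm_num : 0 < 2)] at h1
    have hx1 : x ∈ Icc 1 n := hΓ1 hx0
    have h1 : {b : V | (typicalDist (2 * x) b : ℕ∞) < (halfGraph V S).edist ⟨2 * x, haV⟩ b}.ncard ≤
        (insert 0 ((Icc 1 n).filter fun y => (x, y) ∈ farP n)).card := by
      rw [← Set.ncard_coe_finset]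
      apply Set.ncard_le_ncard_of_injOn (fun b : V => (b : ℕ) / 2)
      · rintro ⟨b, hb⟩ h
        obtain ⟨⟨y, hy⟩, hb2⟩ := hV b hb
        have hby : b = 2 * y := by omega
        subst hby
        rw [Finset.mem_coe, mem_insert, mem_filter, mem_Icc]
        change 2 * y / 2 = 0 ∨ (1 ≤ 2 * y / 2 ∧ 2 * y / 2 ≤ n) ∧ (x, 2 * y / 2) ∈ farP n
        rw [Nat.mul_div_cancel_left _ (by norm_num : 0 < 2)]
        by_cases hy0 : y = 0
        · exact Or.inl hy0
        · refine Or.inr ⟨⟨by omega, by omega⟩, ?_⟩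
          have hyI : y ∈ Icc 1 n := by
            rw [mem_Icc]
            omega
          unfold farP
          rw [mem_filter, mem_product]
          refine ⟨⟨hx1, hyI⟩, fun hle => ?_⟩
          have h2 := E2_edist (V := V) (S := S) hV2 hS hx1 hyI hle
          have h3 : (typicalDist (2 * x) (2 * y) : ℕ∞) <
            (halfGraph V S).edist ⟨2 * x, haV⟩ ⟨2 * y, hb⟩ := h
          rw [typicalDist_two_mul] at h3
          exact absurd h2 (not_le.2 h3)
      · rintro ⟨b, hb⟩ - ⟨b', hb'⟩ - hbb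
        obtain ⟨k, hk⟩ := (hV b hb).1
        obtain ⟨l, hl⟩ := (hV b' hb').1
        simp only at hbb
        apply Subtype.ext
        change b = b'
        omega
    have h2 : (({b : V | (typicalDist (2 * x) b : ℕ∞) <
        (halfGraph V S).edist ⟨2 * x, haV⟩ b}.ncard : ℕ) : ℝ) ≤
        (((Icc 1 n).filter fun y => (x, y) ∈ farP n).card : ℝ) + 1 := by
      exact_mod_cast h1.trans (card_insert_le _ _)
    exact h2.trans ((add_le_add_left (hΓ3 x hx0) 1).trans hnum)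

end Pool.Agent.Lib.H59L
end

-- from Lib.H59L.K4
section

/-!
# Project H59L, chunk K4 (M): few pairs are closer than the typical distance
-/

open Finset

namespace Pool.Agent.Lib.H59L

open Pool.Agent.Goldbach
open Pool.Agent.Lib.H18GB (dd)

/-- Proof. `card_bad_le` (`Goldbach/Count.lean`) with `N = 2 n + 1`: at most `6 + 6 π (4 n + 7)`, and
`Chebyshev.eventually_primeCounting_le` (compare `bad_isLittle`-type proof in that file): `π (x) ≤ 3 x / log x` for large `x`;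
`(4 n + 7)/log (4 n + 7) ≤ 5 n/log n`, `6 ≤ n/log n` for large `n`. -/
theorem K4_bad : ∃ C : ℝ, 0 < C ∧ ∃ n0 : ℕ, ∀ n : ℕ, n0 ≤ n →
    (((Finset.range (2 * n + 1)).filter Bad).card : ℝ) ≤ C * n / Real.log n := by
  have h1 := Chebyshev.eventually_primeCounting_le (ε := 1) one_pos
  have h2 : Filter.Tendsto (fun n : ℕ => ((4 * n + 7 : ℕ) : ℝ)) Filter.atTop Filter.atTop := by
    apply tendsto_natCast_atTop_atTop.comp
    apply Filter.tendsto_atTop_mono (f := fun N : ℕ => N) (fun N => by omega)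
    exact Filter.tendsto_id
  have h3 := h2.eventually h1
  have h6 : Filter.Tendsto (fun N : ℕ => (N : ℝ)) Filter.atTop Filter.atTop :=
    tendsto_natCast_atTop_atTop
  have h7 := h6.eventually (Real.isLittleO_log_id_atTop.bound (show (0 : ℝ) < 1 / 6 by norm_num))
  have h8 := Filter.eventually_ge_atTop (2 : ℕ)
  obtain ⟨N₀, hN₀⟩ := Filter.eventually_atTop.mp (h3.and (h7.and h8))
  have hl4 : (0 : ℝ) < Real.log 4 + 1 := by
    have : (0 : ℝ) < Real.log 4 := Real.log_pos (by norm_num)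
    linarith
  refine ⟨6 * (Real.log 4 + 1) * 11 + 1, by positivity, N₀, fun n hn => ?_⟩
  obtain ⟨g1, g2, g3⟩ := hN₀ n hn
  rw [Nat.floor_natCast] at g1
  have hn2 : (2 : ℝ) ≤ n := by exact_mod_cast g3
  have hlogn : 0 < Real.log n := Real.log_pos (by linarith)
  have hlog2 : Real.log n ≤ Real.log ((4 * n + 7 : ℕ) : ℝ) := by
    apply Real.log_le_log (by linarith)
    push_cast
    linarith
  have e1 : ((Nat.primeCounting (4 * n + 7) : ℕ) : ℝ) ≤ (Real.log 4 + 1) * (11 * n) / Real.log n := by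
    refine g1.trans ?_
    apply div_le_div₀ (by positivity) _ hlogn hlog2
    apply mul_le_mul_of_nonneg_left _ hl4.le
    push_cast
    linarith
  have e2 : (6 : ℝ) ≤ n / Real.log n := by
    rw [le_div_iff₀ hlogn]
    rw [Real.norm_of_nonneg hlogn.le, id, Real.norm_of_nonneg (by linarith : (0 : ℝ) ≤ n)] at g2
    linarith
  have e3 : (((Finset.range (2 * n + 1)).filter Bad).card : ℝ) ≤
      6 + 6 * (Nat.primeCounting (4 * n + 7) : ℕ) := by
    have h9 := card_bad_le (2 * n + 1)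
    have h10 : 2 * (2 * n + 1) + 5 = 4 * n + 7 := by ring
    rw [h10] at h9
    exact_mod_cast h9
  have e4 : (6 * (Real.log 4 + 1) * 11 + 1) * n / Real.log n =
      6 * ((Real.log 4 + 1) * (11 * n) / Real.log n) + n / Real.log n := by ring
  rw [e4]
  linarith

/-- Proof. `distL_count` (`H18GB2/DistL.lean`); `range (n+1) ⊆ range (2n+1)`, `K4_bad`: at most
`3 (n+1) C n/log n + (n+1) ≤ C' n²/log n`. -/
theorem K4_lower : ∃ C : ℝ, 0 < C ∧ ∃ n0 : ℕ, ∀ n : ℕ, n0 ≤ n → ∀ V S : Set ℕ,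
    (∀ a ∈ V, Even a ∧ a ≤ 2 * n) → (∀ m ∈ S, m = 1 ∨ (m.Prime ∧ Odd m)) →
    ({p : V × V | (halfGraph V S).edist p.1 p.2 < (dd ((p.1 : ℕ) / 2) ((p.2 : ℕ) / 2) : ℕ∞)}.ncard :
      ℝ) ≤ C * n ^ 2 / Real.log n := by
  obtain ⟨C, hC, n0, h0⟩ := K4_bad
  refine ⟨6 * C + 2, by positivity, max n0 2, fun n hn V S hV hS => ?_⟩
  have hn0 : n0 ≤ n := (le_max_left _ _).trans hn
  have hn2' : 2 ≤ n := (le_max_right _ _).trans hn
  have hn2 : (2 : ℝ) ≤ n := by exact_mod_cast hn2'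
  have hlogn : 0 < Real.log n := Real.log_pos (by linarith)
  have hb := h0 n hn0
  have h1 := Pool.Agent.Lib.H18GB.distL_count hV hS
  have h2 : ((Finset.range (n + 1)).filter Bad).card ≤ ((Finset.range (2 * n + 1)).filter Bad).card :=
    Finset.card_le_card (Finset.filter_subset_filter _ (Finset.range_subset_range.2 (by omega)))
  set B := ((Finset.range (2 * n + 1)).filter Bad).card with hB
  have h3 : ({p : V × V | (halfGraph V S).edist p.1 p.2 <
      (dd ((p.1 : ℕ) / 2) ((p.2 : ℕ) / 2) : ℕ∞)}.ncard : ℝ) ≤ 3 * (n + 1) * B + (n + 1) := by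
    have h4 : {p : V × V | (halfGraph V S).edist p.1 p.2 <
      (dd ((p.1 : ℕ) / 2) ((p.2 : ℕ) / 2) : ℕ∞)}.ncard ≤ 3 * (n + 1) * B + (n + 1) := by
      refine h1.trans ?_
      have h5 : 2 * (n + 1) * ((Finset.range (n + 1)).filter Bad).card ≤ 2 * (n + 1) * B :=
        Nat.mul_le_mul_left _ h2
      nlinarith
    exact_mod_cast h4
  refine h3.trans ?_
  have h6 : (3 : ℝ) * (n + 1) * B ≤ 6 * C * n ^ 2 / Real.log n := by
    have h7 : (3 : ℝ) * (n + 1) ≤ 6 * n := by linarith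
    calc (3 : ℝ) * (n + 1) * B ≤ 6 * n * B := mul_le_mul_of_nonneg_right h7 (by positivity)
      _ ≤ 6 * n * (C * n / Real.log n) := mul_le_mul_of_nonneg_left hb (by positivity)
      _ = 6 * C * n ^ 2 / Real.log n := by ring
  have h7 : (n : ℝ) + 1 ≤ 2 * n ^ 2 / Real.log n := by
    rw [le_div_iff₀ hlogn]
    have h8 : Real.log n ≤ n := (Real.log_le_sub_one_of_pos (by linarith)).trans (by linarith)
    nlinarith
  have h8 : (6 * C + 2) * n ^ 2 / Real.log n =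
      6 * C * n ^ 2 / Real.log n + 2 * n ^ 2 / Real.log n := by ring
  rw [h8]
  linarith

end Pool.Agent.Lib.H59L
end

-- from Lib.H59L.K7B
section

/-!
# Project H59L, chunk K7B (M): transfer to the Goldbach graphs, the exceptional pairs
-/

open Finset

namespace Pool.Agent.Lib.H59L

open Pool.Agent.Goldbach
open Pool.Agent.Lib.H96G
open Pool.Agent.Lib.H18GB (dd)

/-- few pairs are at distance greater than the typical one -/
theorem k7b_upper {n : ℕ} {V S : Set ℕ} (hV : ∀ a ∈ V, Even a ∧ a ≤ 2 * n) (hV2 : ∀ x ∈ Finset.Icc 1 n, 2 * x ∈ V)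
    (hS : ∀ m, m.Prime → Odd m → m < 2 * n → m ∈ S) :
    {p : V × V | (dd ((p.1 : ℕ) / 2) ((p.2 : ℕ) / 2) : ℕ∞) < (halfGraph V S).edist p.1 p.2}.ncard ≤
      (farP n).card + 2 * (n + 1) := by
  classical
  have : Finite V := Tr.finite_of_le hV
  set B : Finset (ℕ × ℕ) := farP n ∪ (({0} ×ˢ Finset.range (n + 1)) ∪ (Finset.range (n + 1) ×ˢ {0}))
    with hB
  have h6 : {p : V × V | (dd ((p.1 : ℕ) / 2) ((p.2 : ℕ) / 2) : ℕ∞) <
      (halfGraph V S).edist p.1 p.2}.ncard ≤ B.card := by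
    rw [← Set.ncard_coe_finset]
    apply Set.ncard_le_ncard_of_injOn (fun p : V × V => ((p.1 : ℕ) / 2, (p.2 : ℕ) / 2))
    · rintro ⟨⟨a, ha⟩, ⟨b, hb⟩⟩ hab
      obtain ⟨⟨x, hx⟩, han⟩ := hV a ha
      obtain ⟨⟨y, hy⟩, hbn⟩ := hV b hb
      have hax : a = 2 * x := by omega
      have hby : b = 2 * y := by omega
      subst hax hby
      simp only [Set.mem_ofPred_eq] at hab
      simp only [Nat.mul_div_cancel_left _ (by norm_num : 0 < 2)] at hab ⊢
      rw [Finset.mem_coe, hB, farP]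
      simp only [Finset.mem_union, Finset.mem_filter, Finset.mem_product, Finset.mem_singleton,
        Finset.mem_range]
      by_cases hx0 : x = 0
      · exact Or.inr (Or.inl ⟨hx0, by omega⟩)
      by_cases hy0 : y = 0
      · exact Or.inr (Or.inr ⟨by omega, hy0⟩)
      left
      have hx1 : x ∈ Finset.Icc 1 n := Finset.mem_Icc.mpr ⟨by omega, by omega⟩
      have hy1 : y ∈ Finset.Icc 1 n := Finset.mem_Icc.mpr ⟨by omega, by omega⟩
      refine ⟨⟨hx1, hy1⟩, fun h7 => ?_⟩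
      exact absurd (E2_edist hV2 hS hx1 hy1 (k := dd x y) h7) (not_le.mpr hab)
    · rintro ⟨⟨a, ha⟩, ⟨b, hb⟩⟩ - ⟨⟨a', ha'⟩, ⟨b', hb'⟩⟩ - hab
      have h1 := (hV a ha).1
      have h2 := (hV b hb).1
      have h3 := (hV a' ha').1
      have h4 := (hV b' hb').1
      simp only [Prod.mk.injEq] at hab
      obtain ⟨k1, e1⟩ := h1
      obtain ⟨k2, e2⟩ := h2
      obtain ⟨k3, e3⟩ := h3
      obtain ⟨k4, e4⟩ := h4
      ext
      · simp only
        omega
      · simp only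
        omega
  have h7 : B.card ≤ (farP n).card + 2 * (n + 1) := by
    refine (Finset.card_union_le _ _).trans (Nat.add_le_add_left ?_ _)
    refine (Finset.card_union_le _ _).trans ?_
    rw [Finset.card_product, Finset.card_product, Finset.card_range, Finset.card_singleton]
    omega
  exact h6.trans h7

/-- Proof. `V` is finite (`Tr.finite_of_le`). With `a = 2 x`, `b = 2 y` (`x, y ≤ n`), `typicalDist_two_mul`: the pairs with
`edist < typicalDist` are counted by `K4_lower`; those with `typicalDist < edist` inject by halving into `farP n` and the pairs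
with `x = 0` or `y = 0` (`E2_edist` of `H96G/E2.lean` with `lo = 1`, `k = dd x y`; compare `distM_upper` in
`H18GB2/DistM.lean`): at most `n^(2-δ) + 2 (n+1) ≤ n²/log n` for `n` large. -/
theorem K7_exact {δ : ℝ} (hδ : 0 < δ) : ∃ C : ℝ, 0 < C ∧ ∃ n0 : ℕ, ∀ n : ℕ, n0 ≤ n →
    ((farP n).card : ℝ) ≤ (n : ℝ) ^ (2 - δ) → ∀ V S : Set ℕ, (∀ a ∈ V, Even a ∧ a ≤ 2 * n) →
    (∀ x ∈ Finset.Icc 1 n, 2 * x ∈ V) → (∀ m, m.Prime → Odd m → m < 2 * n → m ∈ S) →
    (∀ m ∈ S, m = 1 ∨ (m.Prime ∧ Odd m)) →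
    ({p : V × V | (halfGraph V S).edist p.1 p.2 ≠ (typicalDist p.1 p.2 : ℕ∞)}.ncard : ℝ) ≤
      C * n ^ 2 / Real.log n := by
  obtain ⟨C1, hC1, n1, h1⟩ := K4_lower
  have hlog1 : ∀ᶠ x : ℝ in Filter.atTop, ‖Real.log x‖ ≤ 1 * ‖x ^ δ‖ :=
    (isLittleO_log_rpow_atTop hδ).def one_pos
  have hlog2 : ∀ᶠ x : ℝ in Filter.atTop, ‖Real.log x‖ ≤ 1 / 4 * ‖x ^ (1 : ℝ)‖ :=
    (isLittleO_log_rpow_atTop one_pos).def (by norm_num)
  obtain ⟨x1, hx1⟩ := Filter.eventually_atTop.1 (hlog1.and hlog2)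
  obtain ⟨n2, hn2⟩ := exists_nat_ge x1
  refine ⟨C1 + 2, by positivity, max n1 (max n2 3), fun n hn hfar V S hV hV2 hS hS' => ?_⟩
  have hn1 : n1 ≤ n := le_trans (le_max_left _ _) hn
  have hn2' : n2 ≤ n := le_trans (le_max_left _ _) (le_trans (le_max_right _ _) hn)
  have hn3 : 3 ≤ n := le_trans (le_max_right _ _) (le_trans (le_max_right _ _) hn)
  have hnr : (3 : ℝ) ≤ n := by exact_mod_cast hn3
  have hn0 : (0 : ℝ) < n := by linarith
  have hx : x1 ≤ (n : ℝ) := hn2.trans (by exact_mod_cast hn2')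
  obtain ⟨a1, a2⟩ := hx1 n hx
  have hL : 0 < Real.log n := Real.log_pos (by linarith)
  rw [Real.norm_eq_abs, abs_of_pos hL, Real.norm_eq_abs, abs_of_pos (Real.rpow_pos_of_pos hn0 _), one_mul] at a1
  rw [Real.norm_eq_abs, abs_of_pos hL, Real.rpow_one, Real.norm_eq_abs, abs_of_pos hn0] at a2
  have b1 : (n : ℝ) ^ (2 - δ) ≤ n ^ 2 / Real.log n := by
    rw [le_div_iff₀ hL]
    calc (n : ℝ) ^ (2 - δ) * Real.log n ≤ (n : ℝ) ^ (2 - δ) * (n : ℝ) ^ δ :=
          mul_le_mul_of_nonneg_left a1 (Real.rpow_nonneg hn0.le _)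
      _ = (n : ℝ) ^ (2 : ℝ) := by rw [← Real.rpow_add hn0, sub_add_cancel]
      _ = (n : ℝ) ^ 2 := Real.rpow_two _
  have b2 : 2 * ((n : ℝ) + 1) ≤ n ^ 2 / Real.log n := by
    rw [le_div_iff₀ hL]
    have h5 : 2 * ((n : ℝ) + 1) ≤ 4 * n := by linarith
    calc 2 * ((n : ℝ) + 1) * Real.log n ≤ 4 * n * (1 / 4 * n) :=
          mul_le_mul h5 a2 hL.le (by positivity)
      _ = (n : ℝ) ^ 2 := by ring
  have e1 := k7b_upper hV hV2 hS
  have e2 := h1 n hn1 V S hV hS'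
  have : Finite V := Tr.finite_of_le hV
  have h3 : {p : V × V | (halfGraph V S).edist p.1 p.2 ≠ (typicalDist p.1 p.2 : ℕ∞)} ⊆
      {p : V × V | (dd ((p.1 : ℕ) / 2) ((p.2 : ℕ) / 2) : ℕ∞) < (halfGraph V S).edist p.1 p.2} ∪
      {p : V × V | (halfGraph V S).edist p.1 p.2 < (dd ((p.1 : ℕ) / 2) ((p.2 : ℕ) / 2) : ℕ∞)} := by
    rintro ⟨⟨a, ha⟩, ⟨b, hb⟩⟩ hp
    obtain ⟨⟨x, hx⟩, han⟩ := hV a ha
    obtain ⟨⟨y, hy⟩, hbn⟩ := hV b hb
    have hax : a = 2 * x := by omega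
    have hby : b = 2 * y := by omega
    subst hax hby
    have hp' : (halfGraph V S).edist ⟨2 * x, ha⟩ ⟨2 * y, hb⟩ ≠ (typicalDist (2 * x) (2 * y) : ℕ∞) := hp
    rw [typicalDist_two_mul] at hp'
    have d1 : 2 * x / 2 = x := by omega
    have d2 : 2 * y / 2 = y := by omega
    rcases lt_or_gt_of_ne hp' with h | h
    · right
      show (halfGraph V S).edist ⟨2 * x, ha⟩ ⟨2 * y, hb⟩ < (dd (2 * x / 2) (2 * y / 2) : ℕ∞)
      rw [d1, d2]
      exact h
    · left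
      show (dd (2 * x / 2) (2 * y / 2) : ℕ∞) < (halfGraph V S).edist ⟨2 * x, ha⟩ ⟨2 * y, hb⟩
      rw [d1, d2]
      exact h
  have h4 := (Set.ncard_le_ncard h3 (Set.toFinite _)).trans (Set.ncard_union_le _ _)
  have h5 : ({p : V × V | (halfGraph V S).edist p.1 p.2 ≠ (typicalDist p.1 p.2 : ℕ∞)}.ncard : ℝ) ≤
      ((farP n).card + 2 * (n + 1)) +
      ({p : V × V | (halfGraph V S).edist p.1 p.2 <
        (dd ((p.1 : ℕ) / 2) ((p.2 : ℕ) / 2) : ℕ∞)}.ncard : ℝ) := by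
    exact_mod_cast h4.trans (Nat.add_le_add_right e1 _)
  have h6 : (C1 + 2) * (n : ℝ) ^ 2 / Real.log n = C1 * n ^ 2 / Real.log n + n ^ 2 / Real.log n + n ^ 2 / Real.log n := by
    ring
  rw [h6]
  linarith

end Pool.Agent.Lib.H59L
end

-- from Lib.H59L.K7C
section

/-!
# Project H59L, chunk K7C (S/M): transfer to the Goldbach graphs, the close pairs
-/

open Finset

namespace Pool.Agent.Lib.H59L

open Pool.Agent.Goldbach
open Pool.Agent.Lib.H96G
open Pool.Agent.Lib.H18GB (dd)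

/-- Proof. `V` is finite (`Tr.finite_of_le`). The map `(x, y) ↦ (2 x, 2 y)` from `closeP n` to the set on the right is injective;
`typicalDist (2 x) (2 y) = dd x y = 5` (`typicalDist_two_mul`), `edist ≤ 3 < 5` by `E2_edist` (`lo = 1`, `k = 3`).
(`Set.ncard_le_ncard`, `Set.ncard_image_of_injOn`, or `Finset.card_le_card_of_injOn` with `Set.Finite.toFinset`.) -/
theorem K7_sharp {n : ℕ} {V S : Set ℕ} (hV : ∀ a ∈ V, Even a ∧ a ≤ 2 * n)
    (hV2 : ∀ x ∈ Finset.Icc 1 n, 2 * x ∈ V) (hS : ∀ m, m.Prime → Odd m → m < 2 * n → m ∈ S) :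
    (closeP n).card ≤
      {p : V × V | (halfGraph V S).edist p.1 p.2 < (typicalDist p.1 p.2 : ℕ∞)}.ncard := by
  classical
  have hfin : Finite V := Tr.finite_of_le hV
  have hfin2 : {p : V × V | (halfGraph V S).edist p.1 p.2 < (typicalDist p.1 p.2 : ℕ∞)}.Finite := Set.toFinite _
  rw [Set.ncard_eq_toFinset_card _ hfin2]
  have hmem : ∀ p ∈ closeP n, p.1 ∈ Finset.Icc 1 n ∧ p.2 ∈ Finset.Icc 1 n ∧ dd p.1 p.2 = 5 ∧ (HL 1 n).edist p.1 p.2 ≤ 3 := by
    intro p hp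
    unfold closeP at hp
    have h1 := mem_filter.1 hp
    have h2 := mem_product.1 h1.1
    exact ⟨h2.1, h2.2, h1.2.1, h1.2.2⟩
  rw [← card_attach]
  refine card_le_card_of_injOn (fun p : {p // p ∈ closeP n} => ((⟨2 * p.1.1, hV2 _ (hmem p.1 p.2).1⟩, ⟨2 * p.1.2, hV2 _ (hmem p.1 p.2).2.1⟩) : V × V))
    (fun p _ => ?_) (fun p _ q _ h => ?_)
  · rw [Set.Finite.coe_toFinset]
    obtain ⟨h1, h2, h3, h4⟩ := hmem p.1 p.2
    show (halfGraph V S).edist ⟨2 * p.1.1, hV2 _ h1⟩ ⟨2 * p.1.2, hV2 _ h2⟩ < (typicalDist (2 * p.1.1) (2 * p.1.2) : ℕ∞)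
    rw [typicalDist_two_mul, h3]
    refine lt_of_le_of_lt (E2_edist hV2 hS h1 h2 (k := 3) h4) ?_
    exact_mod_cast (by norm_num : (3 : ℕ) < 5)
  · have h1 := congrArg (fun z : V × V => (z.1 : ℕ)) h
    have h2 := congrArg (fun z : V × V => (z.2 : ℕ)) h
    have h3 : 2 * p.1.1 = 2 * q.1.1 := h1
    have h4 : 2 * p.1.2 = 2 * q.1.2 := h2
    refine Subtype.ext (Prod.ext ?_ ?_)
    · omega
    · omega

end Pool.Agent.Lib.H59L
end

-- from Lib.H59L.K5
section

/-!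
# Project H59L, chunk K5 (S): frequencies of the typical distances
-/

open Finset

namespace Pool.Agent.Lib.H59L

open Pool.Agent.Lib.H18GB (dd)

theorem k5_mod (x y : ℕ) : dd (x % 30) (y % 30) = dd x y := by
  unfold dd
  rw [show x % 30 % 2 = x % 2 by omega, show y % 30 % 2 = y % 2 by omega,
    show x % 30 % 3 = x % 3 by omega, show y % 30 % 3 = y % 3 by omega,
    show x % 30 % 5 = x % 5 by omega, show y % 30 % 5 = y % 5 by omega]

theorem k5_cls {a : ℕ} (ha : a < 30) (n : ℕ) :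
    ((Finset.Icc 1 n).filter fun x => x % 30 = a).card + (if a = 0 then 1 else 0) =
      (n + 30 - a) / 30 := by
  induction n with
  | zero =>
    simp only [Finset.Icc_eq_empty_of_lt Nat.zero_lt_one, Finset.filter_empty, Finset.card_empty]
    split_ifs <;> omega
  | succ n ih =>
    have e : Finset.Icc 1 (n + 1) = insert (n + 1) (Finset.Icc 1 n) := by
      ext x
      simp only [Finset.mem_insert, Finset.mem_Icc]
      omega
    rw [e, Finset.filter_insert]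
    by_cases h : (n + 1) % 30 = a
    · rw [if_pos h, Finset.card_insert_of_notMem (by simp)]
      split_ifs at ih ⊢ <;> omega
    · rw [if_neg h]
      split_ifs at ih ⊢ <;> omega

theorem k5_bound {a : ℕ} (ha : a < 30) (n : ℕ) :
    |((((Finset.Icc 1 n).filter fun x => x % 30 = a).card : ℕ) : ℝ) - (n : ℝ) / 30| ≤ 1 := by
  have h := k5_cls ha n
  set N := ((Finset.Icc 1 n).filter fun x => x % 30 = a).card with hN
  have h1 : 30 * N ≤ n + 30 := by
    split_ifs at h <;> omega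
  have h2 : n ≤ 30 * N + 30 := by
    split_ifs at h <;> omega
  have h1' : (30 : ℝ) * N ≤ n + 30 := by exact_mod_cast h1
  have h2' : (n : ℝ) ≤ 30 * N + 30 := by exact_mod_cast h2
  rw [abs_le]
  constructor <;> linarith

theorem k5_card (n k : ℕ) :
    ((Finset.Icc 1 n ×ˢ Finset.Icc 1 n).filter fun q => dd q.1 q.2 = k).card =
      ∑ t ∈ (Finset.range 30 ×ˢ Finset.range 30).filter (fun t => dd t.1 t.2 = k),
        ((Finset.Icc 1 n).filter fun x => x % 30 = t.1).card *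
          ((Finset.Icc 1 n).filter fun x => x % 30 = t.2).card := by
  rw [Finset.card_eq_sum_card_fiberwise (f := fun q : ℕ × ℕ => (q.1 % 30, q.2 % 30))
    (t := (Finset.range 30 ×ˢ Finset.range 30).filter (fun t => dd t.1 t.2 = k))]
  · refine Finset.sum_congr rfl fun t ht => ?_
    rw [← Finset.card_product]
    congr 1
    ext q
    rw [Finset.mem_filter, Finset.mem_filter, Finset.mem_product, Finset.mem_product,
      Finset.mem_filter, Finset.mem_filter]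
    rw [Finset.mem_filter] at ht
    constructor
    · rintro ⟨⟨⟨h1, h2⟩, _⟩, h3⟩
      have h4 := congrArg Prod.fst h3
      have h5 := congrArg Prod.snd h3
      exact ⟨⟨h1, h4⟩, h2, h5⟩
    · rintro ⟨⟨h1, h4⟩, h2, h5⟩
      refine ⟨⟨⟨h1, h2⟩, ?_⟩, Prod.ext h4 h5⟩
      rw [← k5_mod, h4, h5]
      exact ht.2
  · intro q hq
    have hq' := (Finset.mem_filter.1 (Finset.mem_coe.1 hq)).2
    refine Finset.mem_coe.2 (Finset.mem_filter.2 ⟨Finset.mem_product.2
      ⟨Finset.mem_range.2 (Nat.mod_lt _ (by norm_num)),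
      Finset.mem_range.2 (Nat.mod_lt _ (by norm_num))⟩, ?_⟩)
    rw [k5_mod]
    exact hq'

theorem k5_num : ∀ i : Fin 4,
    ((Finset.range 30 ×ˢ Finset.range 30).filter (fun t => dd t.1 t.2 = (i : ℕ) + 2)).card =
      ![250, 242, 200, 208] i := by
  decide +kernel

/-- Proof. Copy the file `H18GB2/DDCount.lean` (its auxiliary lemmas are private; the proof of `dd_count` shows exactly this
bound: at most `900` terms, each at most `2 n`). -/
theorem K5_count (n : ℕ) (hn : 1 ≤ n) (i : Fin 4) :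
    |((((Finset.Icc 1 n ×ˢ Finset.Icc 1 n).filter fun q => dd q.1 q.2 = (i : ℕ) + 2).card : ℝ)) -
      (![125, 121, 100, 104] i : ℝ) / 450 * n ^ 2| ≤ 1800 * (n : ℝ) := by
  have hnr : (1 : ℝ) ≤ n := by exact_mod_cast hn
  rw [k5_card]
  set T := (Finset.range 30 ×ˢ Finset.range 30).filter (fun t => dd t.1 t.2 = (i : ℕ) + 2) with hT
  have hc : (T.card : ℝ) = (![250, 242, 200, 208] i : ℕ) := by
    exact_mod_cast k5_num i
  have hTle : (T.card : ℝ) ≤ 900 := by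
    have h1 : T.card ≤ 900 := by
      refine (Finset.card_filter_le _ _).trans ?_
      rw [Finset.card_product, Finset.card_range]
    exact_mod_cast h1
  have hmain : (![125, 121, 100, 104] i : ℝ) / 450 * n ^ 2 =
      ∑ _t ∈ T, (n : ℝ) / 30 * ((n : ℝ) / 30) := by
    rw [Finset.sum_const, nsmul_eq_mul, hc]
    fin_cases i <;> · simp; ring
  rw [hmain]
  push_cast
  rw [← Finset.sum_sub_distrib]
  refine (Finset.abs_sum_le_sum_abs _ _).trans ?_
  have hterm : ∀ t ∈ T, |((((Finset.Icc 1 n).filter fun x => x % 30 = t.1).card : ℕ) : ℝ) *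
      ((((Finset.Icc 1 n).filter fun x => x % 30 = t.2).card : ℕ) : ℝ) -
        (n : ℝ) / 30 * ((n : ℝ) / 30)| ≤ 2 * n := by
    intro t ht
    rw [hT, Finset.mem_filter, Finset.mem_product, Finset.mem_range, Finset.mem_range] at ht
    have h1 := k5_bound ht.1.1 n
    have h2 := k5_bound ht.1.2 n
    have h3 : ((Finset.Icc 1 n).filter fun x => x % 30 = t.1).card ≤ n := by
      refine (Finset.card_filter_le _ _).trans ?_
      rw [Nat.card_Icc]
      omega
    have hA1 : ((((Finset.Icc 1 n).filter fun x => x % 30 = t.1).card : ℕ) : ℝ) ≤ n := by exact_mod_cast h3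
    set A := ((((Finset.Icc 1 n).filter fun x => x % 30 = t.1).card : ℕ) : ℝ) with hA
    set B := ((((Finset.Icc 1 n).filter fun x => x % 30 = t.2).card : ℕ) : ℝ) with hB
    have hA0 : 0 ≤ A := Nat.cast_nonneg _
    have e : A * B - (n : ℝ) / 30 * ((n : ℝ) / 30) = A * (B - (n : ℝ) / 30) + (n : ℝ) / 30 * (A - (n : ℝ) / 30) := by ring
    rw [e]
    refine (abs_add_le _ _).trans ?_
    rw [abs_mul, abs_mul, abs_of_nonneg hA0, abs_of_nonneg (by linarith : (0 : ℝ) ≤ (n : ℝ) / 30)]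
    have h4 : A * |B - (n : ℝ) / 30| ≤ A * 1 := mul_le_mul_of_nonneg_left h2 hA0
    have h5 : (n : ℝ) / 30 * |A - (n : ℝ) / 30| ≤ (n : ℝ) / 30 * 1 := mul_le_mul_of_nonneg_left h1 (by linarith)
    linarith
  refine (Finset.sum_le_sum hterm).trans ?_
  rw [Finset.sum_const, nsmul_eq_mul]
  nlinarith

end Pool.Agent.Lib.H59L
end

-- from Lib.H59L.K7D
section

/-!
# Project H59L, chunk K7D (M): transfer to the Goldbach graphs, the frequencies
-/

open Finset

namespace Pool.Agent.Lib.H59L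

open Pool.Agent.Goldbach
open Pool.Agent.Lib.H96G
open Pool.Agent.Lib.H18GB (dd)

/-- Proof. This is the second half of the proof of `main` in `Lib/H18C/Old/DistanceDistribution.lean` (the sets `A`, `F`, `Z`,
the injection `φ`, `hup`, `hlo`), with `K5_count` instead of `dd_count` and `E` (the set of the pairs with
`edist ≠ typicalDist`) of size at most `e`: the difference is at most `e + 2 (n + 1) + 1800 n ≤ e + 1804 n`
(`finite_of_le` is in `H96G/Tr.lean`). -/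
theorem K7_freq {n : ℕ} (hn : 1 ≤ n) {V S : Set ℕ} (hV : ∀ a ∈ V, Even a ∧ a ≤ 2 * n)
    (hV2 : ∀ x ∈ Finset.Icc 1 n, 2 * x ∈ V) (e : ℝ)
    (he : ({p : V × V | (halfGraph V S).edist p.1 p.2 ≠ (typicalDist p.1 p.2 : ℕ∞)}.ncard : ℝ) ≤ e)
    (i : Fin 4) :
    |({p : V × V | (halfGraph V S).edist p.1 p.2 = (((i : ℕ) + 2 : ℕ) : ℕ∞)}.ncard : ℝ) -
      (![125, 121, 100, 104] i : ℝ) / 450 * n ^ 2| ≤ e + 1804 * n := by
  have hnr : (1 : ℝ) ≤ n := by exact_mod_cast hn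
  have hfin : Finite V := Tr.finite_of_le hV
  have hty : ∀ p : V × V, typicalDist p.1 p.2 = dd ((p.1 : ℕ) / 2) ((p.2 : ℕ) / 2) := by
    rintro ⟨⟨a, ha⟩, ⟨b, hb⟩⟩
    obtain ⟨⟨x, hx⟩, -⟩ := hV a ha
    obtain ⟨⟨y, hy⟩, -⟩ := hV b hb
    have hax : a = 2 * x := by omega
    have hby : b = 2 * y := by omega
    subst hax hby
    simp only [Nat.mul_div_cancel_left _ (by norm_num : 0 < 2)]
    exact typicalDist_two_mul x y
  set E : Set (V × V) := {p : V × V | (halfGraph V S).edist p.1 p.2 ≠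
    (dd ((p.1 : ℕ) / 2) ((p.2 : ℕ) / 2) : ℕ∞)} with hE
  have hE' : {p : V × V | (halfGraph V S).edist p.1 p.2 ≠ (typicalDist p.1 p.2 : ℕ∞)} = E := by
    ext p
    rw [hE, Set.mem_ofPred_eq, Set.mem_ofPred_eq, hty p]
  rw [hE'] at he
  -- pairs of halves
  set A : Set (V × V) := {p : V × V | (halfGraph V S).edist p.1 p.2 = (((i : ℕ) + 2 : ℕ) : ℕ∞)}
    with hA
  set F : Finset (ℕ × ℕ) := (Finset.Icc 1 n ×ˢ Finset.Icc 1 n).filter fun q =>
    dd q.1 q.2 = (i : ℕ) + 2 with hF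
  set Z : Finset (ℕ × ℕ) := ({0} ×ˢ Finset.range (n + 1)) ∪ (Finset.range (n + 1) ×ˢ {0}) with hZ
  have hZc : Z.card ≤ 2 * (n + 1) := by
    refine (Finset.card_union_le _ _).trans ?_
    rw [Finset.card_product, Finset.card_product, Finset.card_range, Finset.card_singleton]
    omega
  set φ : V × V → ℕ × ℕ := fun p => ((p.1 : ℕ) / 2, (p.2 : ℕ) / 2) with hφ
  have hinj : Function.Injective φ := by
    rintro ⟨⟨a, ha⟩, ⟨b, hb⟩⟩ ⟨⟨a', ha'⟩, ⟨b', hb'⟩⟩ hab
    obtain ⟨k1, e1⟩ := (hV a ha).1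
    obtain ⟨k2, e2⟩ := (hV b hb).1
    obtain ⟨k3, e3⟩ := (hV a' ha').1
    obtain ⟨k4, e4⟩ := (hV b' hb').1
    simp only [hφ, Prod.mk.injEq] at hab
    ext
    · simp only
      omega
    · simp only
      omega
  have hrange : ∀ p : V × V, φ p ∉ Z → (φ p).1 ∈ Finset.Icc 1 n ∧ (φ p).2 ∈ Finset.Icc 1 n := by
    rintro ⟨⟨a, ha⟩, ⟨b, hb⟩⟩ hp
    have ha2 := (hV a ha).2
    have hb2 := (hV b hb).2
    simp only [hφ, hZ, Finset.mem_union, Finset.mem_product, Finset.mem_singleton,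
      Finset.mem_range, Finset.mem_Icc] at hp ⊢
    omega
  -- the upper bound
  have hup : A.ncard ≤ F.card + (E.ncard + Z.card) := by
    have h5 : φ '' A ⊆ ((F : Set (ℕ × ℕ)) ∪ (φ '' E ∪ (Z : Set (ℕ × ℕ)))) := by
      rintro q ⟨p, hp, rfl⟩
      by_cases hpE : p ∈ E
      · exact Or.inr (Or.inl ⟨p, hpE, rfl⟩)
      by_cases hpZ : φ p ∈ Z
      · exact Or.inr (Or.inr hpZ)
      left
      rw [Finset.mem_coe, hF, Finset.mem_filter, Finset.mem_product]
      refine ⟨hrange p hpZ, ?_⟩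
      rw [hE, Set.mem_ofPred_eq, not_not] at hpE
      rw [hA, Set.mem_ofPred_eq, hpE] at hp
      exact_mod_cast hp
    have h6 := Set.ncard_le_ncard h5 ((Finset.finite_toSet F).union
      (((Set.toFinite E).image φ).union (Finset.finite_toSet Z)))
    rw [Set.ncard_image_of_injective _ hinj] at h6
    refine h6.trans ((Set.ncard_union_le _ _).trans ?_)
    rw [Set.ncard_coe_finset]
    refine Nat.add_le_add_left ((Set.ncard_union_le _ _).trans ?_) _
    rw [Set.ncard_image_of_injective _ hinj, Set.ncard_coe_finset]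
  -- the lower bound
  have hlo : F.card ≤ A.ncard + E.ncard := by
    have h5 : (F : Set (ℕ × ℕ)) ⊆ φ '' (A ∪ E) := by
      rintro ⟨x, y⟩ hxy
      rw [Finset.mem_coe, hF, Finset.mem_filter, Finset.mem_product] at hxy
      refine ⟨(⟨2 * x, hV2 x hxy.1.1⟩, ⟨2 * y, hV2 y hxy.1.2⟩), ?_, by simp [hφ]⟩
      by_cases hpE : ((⟨2 * x, hV2 x hxy.1.1⟩, ⟨2 * y, hV2 y hxy.1.2⟩) : V × V) ∈ E
      · exact Or.inr hpE
      left
      rw [hE, Set.mem_ofPred_eq, not_not] at hpE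
      simp only [Nat.mul_div_cancel_left _ (by norm_num : 0 < 2)] at hpE
      rw [hA, Set.mem_ofPred_eq]
      simp only
      rw [hpE, hxy.2]
    have h6 := Set.ncard_le_ncard h5 ((Set.toFinite _).image _)
    rw [Set.ncard_coe_finset, Set.ncard_image_of_injective _ hinj] at h6
    exact h6.trans (Set.ncard_union_le _ _)
  have hup' : (A.ncard : ℝ) ≤ F.card + (E.ncard + 2 * (n + 1)) := by
    have : A.ncard ≤ F.card + (E.ncard + 2 * (n + 1)) := by omega
    exact_mod_cast this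
  have hlo' : (F.card : ℝ) ≤ A.ncard + E.ncard := by exact_mod_cast hlo
  have hFc := K5_count n hn i
  rw [abs_le] at hFc ⊢
  have hFc1 : -(1800 * (n : ℝ)) ≤ (F.card : ℝ) - (![125, 121, 100, 104] i : ℝ) / 450 * n ^ 2 := hFc.1
  have hFc2 : (F.card : ℝ) - (![125, 121, 100, 104] i : ℝ) / 450 * n ^ 2 ≤ 1800 * (n : ℝ) := hFc.2
  constructor
  · linarith
  · linarith

end Pool.Agent.Lib.H59L
end

-- from Lib.H59L.K8
section

/-!
# Project H59L, chunk K8 (S/M): both families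
-/

open Finset

namespace Pool.Agent.Lib.H59L

open Pool.Agent.Goldbach
open Pool.Agent.Lib.H96G

/-- Proof. `K2_far` (`δ0`), `K6_close`, `K7_near` (`δ = δ0/3`), `K7_exact` (`C1`), `K7_sharp`, `K7_freq` with `e = C1 n²/log n`,
`1804 n ≤ n²/log n` for `n` large: `C = C1 + 1`. The two families as in `H96G/Final.lean` (or in `result` of
`Lib/H18C/Old/DistanceDistribution.lean`). -/
theorem law_main (c0 c1 : ℝ) (hc0 : 0 < c0) (hc1 : 0 < c1) (n1 : ℕ)
    (h : ∀ n : ℕ, n1 ≤ n → ∃ (M : ℕ) (L : ℕ → ℤ → ℝ) (c B b : ℝ), c0 ≤ b ∧ GIn n M L c B b)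
    (hff : ∀ n : ℕ, n1 ≤ n → ((ffFar n).card : ℝ) ≤ (n : ℝ) ^ (2 - c1)) :
    ∃ δ C c : ℝ, 0 < δ ∧ 0 < C ∧ 0 < c ∧ ∃ n0 : ℕ, ∀ n : ℕ, n0 ≤ n →
      Law (goldbachGraph n) δ C c n ∧ Law (nearGoldbachGraph n) δ C c n := by
  obtain ⟨δ0, hδ0, hδ01, n2, h2⟩ := K2_far c0 c1 hc0 hc1 n1 h hff
  obtain ⟨c, hc, n3, h3⟩ := K6_close δ0 hδ0 n2 fun n hn => (h2 n hn).1
  obtain ⟨n4, h4⟩ := K7_near hδ0 hδ01
  obtain ⟨C1, hC1, n5, h5⟩ := K7_exact hδ0
  have hlog2 : ∀ᶠ x : ℝ in Filter.atTop, ‖Real.log x‖ ≤ 1 / 1804 * ‖x ^ (1 : ℝ)‖ :=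
    (isLittleO_log_rpow_atTop one_pos).def (by norm_num)
  obtain ⟨x1, hx1⟩ := Filter.eventually_atTop.1 hlog2
  obtain ⟨n6, hn6⟩ := exists_nat_ge x1
  have key : ∀ n : ℕ, max (max (max n2 n3) (max n4 n5)) (max n6 3) ≤ n → ∀ V S : Set ℕ,
      (∀ a ∈ V, Even a ∧ a ≤ 2 * n) → (∀ x ∈ Finset.Icc 1 n, 2 * x ∈ V) →
      (∀ m, m.Prime → Odd m → m < 2 * n → m ∈ S) → (∀ m ∈ S, m = 1 ∨ (m.Prime ∧ Odd m)) →
      Law (halfGraph V S) (δ0 / 3) (C1 + 1) c n := by
    intro n hn V S hV hV2 hS hS'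
    have g2 : n2 ≤ n := (((le_max_left _ _).trans (le_max_left _ _)).trans (le_max_left _ _)).trans hn
    have g3 : n3 ≤ n := (((le_max_right _ _).trans (le_max_left _ _)).trans (le_max_left _ _)).trans hn
    have g4 : n4 ≤ n := (((le_max_left _ _).trans (le_max_right _ _)).trans (le_max_left _ _)).trans hn
    have g5 : n5 ≤ n := (((le_max_right _ _).trans (le_max_right _ _)).trans (le_max_left _ _)).trans hn
    have g6 : n6 ≤ n := ((le_max_left _ _).trans (le_max_right _ _)).trans hn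
    have g7 : 3 ≤ n := ((le_max_right _ _).trans (le_max_right _ _)).trans hn
    have hnr : (3 : ℝ) ≤ n := by exact_mod_cast g7
    have hn0 : (0 : ℝ) < n := by linarith
    have hL : 0 < Real.log n := Real.log_pos (by linarith)
    have a2 := hx1 n (hn6.trans (by exact_mod_cast g6))
    rw [Real.norm_eq_abs, abs_of_pos hL, Real.rpow_one, Real.norm_eq_abs, abs_of_pos hn0] at a2
    have hfar := (h2 n g2).2
    have b2 : 1804 * (n : ℝ) ≤ n ^ 2 / Real.log n := by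
      rw [le_div_iff₀ hL]
      calc 1804 * (n : ℝ) * Real.log n ≤ 1804 * n * (1 / 1804 * n) :=
            mul_le_mul_of_nonneg_left a2 (by positivity)
        _ = (n : ℝ) ^ 2 := by ring
    have hpos : 0 ≤ (n : ℝ) ^ 2 / Real.log n := by positivity
    have e5 := h5 n g5 hfar V S hV hV2 hS hS'
    have e1 : (C1 + 1) * (n : ℝ) ^ 2 / Real.log n = C1 * n ^ 2 / Real.log n + n ^ 2 / Real.log n := by ring
    refine ⟨h4 n g4 hfar V S hV hV2 hS, ?_, ?_, ?_⟩
    · rw [e1]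
      linarith
    · refine (h3 n g3).trans ?_
      exact_mod_cast K7_sharp hV hV2 hS
    · intro i
      refine (K7_freq (by omega) hV hV2 _ e5 i).trans ?_
      rw [e1]
      linarith
  refine ⟨δ0 / 3, C1 + 1, c, by positivity, by positivity, hc, max (max (max n2 n3) (max n4 n5)) (max n6 3),
    fun n hn => ⟨?_, ?_⟩⟩
  · exact key n hn (goldbachVertices n) {p | p.Prime ∧ Odd p ∧ p < 2 * n} (fun a ha => ha)
      (fun x hx => by
        rw [Finset.mem_Icc] at hx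
        exact ⟨even_two_mul x, by omega⟩)
      (fun m h1 h2 h3 => ⟨h1, h2, h3⟩)
      (fun m hm => Or.inr ⟨hm.1, hm.2.1⟩)
  · exact key n hn (evenVertices n) ({1} ∪ {p | p.Prime ∧ Odd p ∧ p < 2 * n})
      (fun a ha => ⟨ha.1, ha.2.2⟩)
      (fun x hx => by
        rw [Finset.mem_Icc] at hx
        exact ⟨even_two_mul x, by omega, by omega⟩)
      (fun m h1 h2 h3 => Or.inr ⟨h1, h2, h3⟩)
      (fun m hm => by
        rcases hm with hm | hm
        · exact Or.inl hm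
        · exact Or.inr ⟨hm.1, hm.2.1⟩)

end Pool.Agent.Lib.H59L
end
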