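import Pool.Agent.Lib.H1M.RV3.M067
import Pool.Agent.Lib.H1M.RV3.M068
import Pool.Agent.Lib.H1M.RV3.M077
import Pool.Agent.Lib.H1M.RV3.M078
import Pool.Agent.Lib.H1M.RV3.M081
import Pool.Agent.Lib.H1M.RV3.M087
import Pool.Agent.Lib.H1M.RV3.M088
import Pool.Agent.Lib.H1M.RV3.M092
import Pool.Agent.Lib.H1M.RV3.M093
import Pool.Agent.Lib.H1M.RV3.M099
import Pool.Agent.Lib.H1M.RV3.M100

/-! Merged copies (to shorten the build) of Lib.H59V.M0, Lib.H59V.MD1, Lib.H59V.X3, Lib.H59V.MD3, Lib.H59V.MD4, Lib.H59V.X1, Lib.H59V.X2. -/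

-- from Lib.H59V.M0
section

/-!
# Project H59V: main terms for the mixed forms (definitions)

`Gq` is `Gm` of `H24Q` without the (unused) bounds for the coefficients.
-/

open Finset

namespace Pool.Agent.Lib.H59V

open Pool.Agent.Lib.H68T Pool.Agent.Lib.H18Q Pool.Agent.Lib.H59P Pool.Agent.Lib.H24P Pool.Agent.Lib.H24Q

noncomputable section

/-- The geometry. -/
structure Gq {m g : ℕ} (F : LF m g) (Q N Z : ℕ) (X : Fin g → ℕ) (Y : Fin m → ℕ) : Prop where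
  dvdZ : Q ^ 40 ∣ Z
  dvdX : ∀ j, Q ^ 40 ∣ X j
  Zlo : N ≤ Z ^ 2
  Zhi : Z ≤ N
  Xlo : ∀ j, N ≤ X j ^ 2
  Xhi : ∀ j, X j ≤ N
  Ylo : ∀ i, N ≤ Y i ^ 2
  Yhi : ∀ i, Y i ≤ N ^ 2
  uX : ∀ i, |F.u i| * X (F.gi i) ≤ 4 * Y i
  vZ : ∀ i, |F.v i| * Z ≤ 4 * Y i
  lo : ∀ i, ∀ ω ∈ cub (fun j => 2 * X j) X, ∀ n ∈ Ico Z (2 * Z), (Y i : ℤ) ≤ F.map ω i (n : ℤ)
  hi : ∀ i, ∀ ω ∈ cub (fun j => 2 * X j) X, ∀ n ∈ Ico Z (2 * Z), F.map ω i (n : ℤ) < 4 * Y i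

/-- The conclusion for the family `F`: exceptional set `Q^(-c)`, loss `Q^(-b)`. -/
def LowV {m g : ℕ} (F : LF m g) (Q N : ℕ) (c b : ℝ) : Prop :=
  ∀ (Z : ℕ) (X : Fin g → ℕ) (Y : Fin m → ℕ), Gq F Q N Z X Y →
    ∃ Bad : Finset (Fin g → ℕ), Bad ⊆ cub (fun j => 2 * X j) X ∧
      (Bad.card : ℝ) ≤ vol X * (Q : ℝ) ^ (-c) ∧
      ∀ ω ∈ cub (fun j => 2 * X j) X, ω ∉ Bad → NoFix (F.map ω) →
        Z * (Q : ℝ) ^ (-b) ≤ MF F Q Z Y ω

/-- The mixed forms: `3s + 3n + ρ`, `3s - 3n - ρ`, `3s' + 3n + 2ρ`, `s' - n` with `s = ω 0`, `s' = ω 1`. -/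
def LM (ρ : ℤ) : LF 4 2 := ⟨![0, 0, 1, 1], ![3, 3, 3, 1], ![3, -3, 3, -1], ![ρ, -ρ, 2 * ρ, 0]⟩

/-- The product of the projections at `x + y` and `(x - y)/3`. -/
def KC (Q X x y : ℕ) : ℝ :=
  if (3:ℤ) ∣ (x:ℤ) - y then Lk Q (X / Q ^ 2) ((x : ℤ) + y) * Lk Q (X / 3 / Q ^ 2) (((x : ℤ) - y) / 3) else 0

/-- The lower bound for the mixed correlations: exceptional set `Q^(-c)`, loss `Q^(-b)`. -/
def MixLow (Q N : ℕ) (c b : ℝ) : Prop :=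
  ∀ Z X X' : ℕ, 3 * Q ^ 40 ∣ Z → 3 * Q ^ 40 ∣ X → 3 * Q ^ 40 ∣ X' → 9 * N ≤ Z ^ 2 → 2 * Z ≤ X →
    2 * Z ≤ X' → X ≤ N → X' ≤ N →
    ∃ Bad : Finset (ℕ × ℕ), Bad ⊆ Ico (2 * X) (3 * X) ×ˢ Ico (2 * X') (3 * X') ∧
      (Bad.card : ℝ) ≤ X * X' * (Q : ℝ) ^ (-c) ∧
      ∀ x ∈ Ico (2 * X) (3 * X), ∀ x' ∈ Ico (2 * X') (3 * X'), (x, x') ∉ Bad → x % 2 = x' % 2 →
        3 ∣ x → ¬ 3 ∣ x' →
        Z / 3 * (Q : ℝ) ^ (-b) ≤ ∑ y ∈ Ico Z (2 * Z), KL Q X x y * KC Q X' x' y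

end

end Pool.Agent.Lib.H59V
end

-- from Lib.H59V.MD1
section

/-!
# Project H24Q, chunk D1 (M): freezing the coefficients (compare H24P/V1A, V2)
-/

open Finset

namespace Pool.Agent.Lib.H59V

open Pool.Agent.Lib.H68T Pool.Agent.Lib.H18Q Pool.Agent.Lib.H59P Pool.Agent.Lib.H24P Pool.Agent.Lib.H24Q

theorem md1_bs (s a m : ℕ) (hs : 0 < s) (h : s * a ≤ m) :
    s * a ≤ bs s m ∧ bs s m ≤ m ∧ m < bs s m + s := by
  have h1 : a ≤ m / s := by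
    rw [Nat.le_div_iff_mul_le hs, mul_comm]
    exact h
  unfold bs
  refine ⟨?_, Nat.div_mul_le_self m s, ?_⟩
  · rw [mul_comm]
    exact Nat.mul_le_mul_right _ h1
  · have h2 := Nat.div_add_mod' m s
    have h3 := Nat.mod_lt m hs
    omega

/-- Proof. `Q^40` divides `X j > 0` (`N ≤ X j ^ 2`, `1 ≤ N`), so `bw Q X ω ∈ cub (2X) X` and `bs (Z/Q^40) n ∈ Ico Z (2Z)`
(`bs s x ≤ x < bs s x + s`, and `s` divides the left end of the interval). -/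
theorem MD1_base {m g : ℕ} {F : LF m g} {Q N Z : ℕ} {X : Fin g → ℕ} {Y : Fin m → ℕ}
    (hG : Gq F Q N Z X Y) (hQ : 1 ≤ Q) (hN : 1 ≤ N) (ω : Fin g → ℕ)
    (hω : ω ∈ cub (fun j => 2 * X j) X) (n : ℕ) (hn : n ∈ Ico Z (2 * Z)) :
    bw Q X ω ∈ cub (fun j => 2 * X j) X ∧ bs (Z / Q ^ 40) n ∈ Ico Z (2 * Z) ∧
      ∀ i, (Q : ℤ) ^ 40 * |F.map ω i (n : ℤ) - fp F Q Z X ω n i| ≤ 8 * Y i := by
  have hq : 0 < Q ^ 40 := pow_pos (by omega) _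
  have hZ0 : 0 < Z := by
    rcases Nat.eq_zero_or_pos Z with h | h
    · have := hG.Zlo
      rw [h] at this
      omega
    · exact h
  have hX0 : ∀ j, 0 < X j := by
    intro j
    rcases Nat.eq_zero_or_pos (X j) with h | h
    · have := hG.Xlo j
      rw [h] at this
      omega
    · exact h
  have hZe : Z = Q ^ 40 * (Z / Q ^ 40) := (Nat.mul_div_cancel' hG.dvdZ).symm
  have hXe : ∀ j, X j = Q ^ 40 * (X j / Q ^ 40) := fun j => (Nat.mul_div_cancel' (hG.dvdX j)).symm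
  have hZs : 0 < Z / Q ^ 40 := Nat.div_pos (Nat.le_of_dvd hZ0 hG.dvdZ) hq
  have hXs : ∀ j, 0 < X j / Q ^ 40 := fun j => Nat.div_pos (Nat.le_of_dvd (hX0 j) (hG.dvdX j)) hq
  have hω' : ∀ j, ω j ∈ Ico (2 * X j) (2 * X j + X j) := fun j => Fintype.mem_piFinset.1 hω j
  have hb : ∀ j, 2 * X j ≤ bw Q X ω j ∧ bw Q X ω j ≤ ω j ∧ ω j < bw Q X ω j + X j / Q ^ 40 := by
    intro j
    have h1 := mem_Ico.1 (hω' j)
    have h2 : (X j / Q ^ 40) * (2 * Q ^ 40) = 2 * X j := by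
      calc (X j / Q ^ 40) * (2 * Q ^ 40) = 2 * (Q ^ 40 * (X j / Q ^ 40)) := by ring
        _ = 2 * X j := by rw [← hXe j]
    have h3 := md1_bs (X j / Q ^ 40) (2 * Q ^ 40) (ω j) (hXs j) (by rw [h2]; exact h1.1)
    rw [h2] at h3
    exact h3
  have hn' := mem_Ico.1 hn
  have hc : Z ≤ bs (Z / Q ^ 40) n ∧ bs (Z / Q ^ 40) n ≤ n ∧ n < bs (Z / Q ^ 40) n + Z / Q ^ 40 := by
    have h2 : (Z / Q ^ 40) * Q ^ 40 = Z := by
      rw [mul_comm]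
      exact hZe.symm
    have h3 := md1_bs (Z / Q ^ 40) (Q ^ 40) n hZs (by rw [h2]; exact hn'.1)
    rw [h2] at h3
    exact h3
  refine ⟨?_, ?_, ?_⟩
  · refine Fintype.mem_piFinset.2 fun j => mem_Ico.2 ⟨(hb j).1, ?_⟩
    exact lt_of_le_of_lt (hb j).2.1 (mem_Ico.1 (hω' j)).2
  · exact mem_Ico.2 ⟨hc.1, lt_of_le_of_lt hc.2.1 hn'.2⟩
  · intro i
    have e1 : F.map ω i (n : ℤ) - fp F Q Z X ω n i =
        F.u i * ((ω (F.gi i) : ℤ) - (bw Q X ω (F.gi i) : ℤ)) +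
          F.v i * ((n : ℤ) - ((bs (Z / Q ^ 40) n : ℕ) : ℤ)) := by
      unfold fp LF.map
      ring
    rw [e1]
    have e2 : |(ω (F.gi i) : ℤ) - (bw Q X ω (F.gi i) : ℤ)| ≤ ((X (F.gi i) / Q ^ 40 : ℕ) : ℤ) := by
      have h1 := hb (F.gi i)
      rw [abs_of_nonneg (by omega)]
      omega
    have e3 : |(n : ℤ) - ((bs (Z / Q ^ 40) n : ℕ) : ℤ)| ≤ ((Z / Q ^ 40 : ℕ) : ℤ) := by
      rw [abs_of_nonneg (by omega)]
      omega
    have e4 : (Q : ℤ) ^ 40 * ((X (F.gi i) / Q ^ 40 : ℕ) : ℤ) = X (F.gi i) := by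
      have := hXe (F.gi i)
      exact_mod_cast this.symm
    have e5 : (Q : ℤ) ^ 40 * ((Z / Q ^ 40 : ℕ) : ℤ) = Z := by
      exact_mod_cast hZe.symm
    have hQp : (0 : ℤ) ≤ (Q : ℤ) ^ 40 := by positivity
    calc (Q : ℤ) ^ 40 * |F.u i * ((ω (F.gi i) : ℤ) - (bw Q X ω (F.gi i) : ℤ)) +
          F.v i * ((n : ℤ) - ((bs (Z / Q ^ 40) n : ℕ) : ℤ))|
        ≤ (Q : ℤ) ^ 40 * (|F.u i| * ((X (F.gi i) / Q ^ 40 : ℕ) : ℤ) +
          |F.v i| * ((Z / Q ^ 40 : ℕ) : ℤ)) := by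
          refine mul_le_mul_of_nonneg_left ((abs_add_le _ _).trans ?_) hQp
          rw [abs_mul, abs_mul]
          exact add_le_add (mul_le_mul_of_nonneg_left e2 (abs_nonneg _))
            (mul_le_mul_of_nonneg_left e3 (abs_nonneg _))
      _ = |F.u i| * ((Q : ℤ) ^ 40 * ((X (F.gi i) / Q ^ 40 : ℕ) : ℤ)) +
          |F.v i| * ((Q : ℤ) ^ 40 * ((Z / Q ^ 40 : ℕ) : ℤ)) := by ring
      _ = |F.u i| * X (F.gi i) + |F.v i| * Z := by rw [e4, e5]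
      _ ≤ 8 * Y i := by
          have h1 := hG.uX i
          have h2 := hG.vZ i
          linarith

/-- **D1.** Proof. Compare `V1_pt` in `H24P/V1A.lean`. `Lk = SG (Cc i x) x` at `x = F.map ω i n ∈ [Y_i, 4 Y_i)` (`Cf.eq`), the
frozen point `fp` is in `[Y_i, 4 Y_i)` too (`MD1_base`, `Gq.lo`, `Gq.hi`), the distance is at most `8 Y_i/Q^40`, so the
coefficients differ by at most `16 Q³/Q^40` (`V1a` in the right order); `S1b`, at most `Q²` characters (`card_PC_le`),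
`dQ ≤ Q`: each factor changes by at most `1600 (1+log Q)³ Q^6/Q^40`, and all factors are at most `300 (1+log Q)³ Q`
(`Cf.le`, `Cf.sum`): `v1b_prod`. For `Q ≥ Q0(m)`... the powers of `Q` depend on `m`: `≤ Q^(-10)` for `m ≤ 4`. -/
theorem MD1_pt (m : ℕ) (hm : m ≤ 4) : ∃ Q0 : ℕ, ∀ (g : ℕ) (F : LF m g) (Q N Z : ℕ) (X : Fin g → ℕ)
    (Y : Fin m → ℕ), Q0 ≤ Q → 1 ≤ N → Gq F Q N Z X Y → ∀ (Cc : Fin m → ℤ → Ch → ℂ)
    (mb : Fin m → Ch → ℝ), (∀ i, Cf Q (Y i) (Cc i) (mb i)) →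
    ∀ ω ∈ cub (fun j => 2 * X j) X, ∀ n ∈ Ico Z (2 * Z),
    ‖((∏ i, Lk Q (Y i / Q ^ 2) (F.map ω i (n : ℤ)) : ℝ) : ℂ) -
      ∏ i, SG Q (Cc i (fp F Q Z X ω n i)) (F.map ω i (n : ℤ))‖ ≤ (Q : ℝ) ^ (-(10) : ℝ) := by
  obtain ⟨Q1, hQ1, hlog⟩ := G1_rlog (64 * 300 ^ 4) 12 1 one_pos
  refine ⟨max Q1 1, fun g F Q N Z X Y hQ hN hG Cc mb hC ω hω n hn => ?_⟩
  have hQge : Q1 ≤ Q := (le_max_left _ _).trans hQ
  have hQ' : 1 ≤ Q := (le_max_right _ _).trans hQ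
  have hQr : (1 : ℝ) ≤ Q := by exact_mod_cast hQ'
  have hQ0 : (0 : ℝ) < Q := by linarith
  have hlogQ : 0 ≤ Real.log Q := Real.log_nonneg hQr
  obtain ⟨b1, b2, b3⟩ := MD1_base hG hQ' hN ω hω n hn
  have hY0 : ∀ i, (0 : ℝ) < Y i := by
    intro i
    have h1 := hG.Ylo i
    rcases Nat.eq_zero_or_pos (Y i) with h | h
    · rw [h] at h1
      omega
    · exact_mod_cast h
  have hval : ∀ i, (Y i : ℤ) ≤ F.map ω i (n : ℤ) ∧ F.map ω i (n : ℤ) ≤ 4 * Y i :=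
    fun i => ⟨hG.lo i ω hω n hn, (hG.hi i ω hω n hn).le⟩
  have hbase : ∀ i, (Y i : ℤ) ≤ fp F Q Z X ω n i ∧ fp F Q Z X ω n i ≤ 4 * Y i :=
    fun i => ⟨hG.lo i _ b1 _ b2, (hG.hi i _ b1 _ b2).le⟩
  set W : ℝ := 300 * (1 + Real.log Q) ^ 3 * Q with hW
  have hW1 : 1 ≤ W := by
    have h1 : (1 : ℝ) ≤ (1 + Real.log Q) ^ 3 := one_le_pow₀ (by linarith)
    rw [hW]
    nlinarith
  have hdq : ∀ x : ℤ, dQ Q x ≤ Q := by
    intro x
    unfold dQ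
    have h4 : ((Icc 1 Q).filter (fun d : ℕ => (d : ℤ) ∣ x)).card ≤ Q := by
      refine (card_filter_le _ _).trans ?_
      simp
    exact_mod_cast h4
  have hdq0 : ∀ x : ℤ, 0 ≤ dQ Q x := fun x => by
    unfold dQ
    exact Nat.cast_nonneg _
  have hC0 : 0 ≤ 100 * (1 + Real.log Q) ^ 3 := by positivity
  have hsg : ∀ (x : ℤ) (i : Fin m), (Y i : ℤ) ≤ x → x ≤ 4 * Y i →
      ‖SG Q (Cc i x) (F.map ω i (n : ℤ))‖ ≤ W := by
    intro x i h1 h2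
    refine (S1b Q hQ' (Cc i x) (mb i) ((hC i).le x h1 h2) _).trans ?_
    have h3 : 0 ≤ 100 * (1 + Real.log Q) ^ 3 * dQ Q (F.map ω i (n : ℤ)) := mul_nonneg hC0 (hdq0 _)
    calc 100 * (1 + Real.log Q) ^ 3 * dQ Q (F.map ω i (n : ℤ)) * ∑ p ∈ Pool.Agent.Lib.H68T.PC Q, mb i p
        ≤ 100 * (1 + Real.log Q) ^ 3 * dQ Q (F.map ω i (n : ℤ)) * 3 :=
          mul_le_mul_of_nonneg_left (hC i).sum h3
      _ ≤ 100 * (1 + Real.log Q) ^ 3 * Q * 3 :=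
          mul_le_mul_of_nonneg_right (mul_le_mul_of_nonneg_left (hdq _) hC0) (by norm_num)
      _ = W := by rw [hW]; ring
  have hLk : ((∏ i, Lk Q (Y i / Q ^ 2) (F.map ω i (n : ℤ)) : ℝ) : ℂ) =
      ∏ i, SG Q (Cc i (F.map ω i (n : ℤ))) (F.map ω i (n : ℤ)) := by
    rw [Complex.ofReal_prod]
    exact Finset.prod_congr rfl fun i _ => (hC i).eq _ (hval i).1 (hval i).2
  rw [hLk]
  have key := v1b_prod (Finset.univ : Finset (Fin m))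
    (fun i => SG Q (Cc i (F.map ω i (n : ℤ))) (F.map ω i (n : ℤ)))
    (fun i => SG Q (Cc i (fp F Q Z X ω n i)) (F.map ω i (n : ℤ)))
    (fun _ => W) (16 / (Q : ℝ) ^ 35)
    (by positivity) (fun i => by linarith)
    (fun i _ => hsg _ i (hval i).1 (hval i).2)
    (fun i _ => hsg _ i (hbase i).1 (hbase i).2)
    (fun i _ => ?_)
  · refine key.trans ?_
    rw [Finset.prod_const, Finset.card_univ, Fintype.card_fin]
    have hm4 : (m : ℝ) ≤ 4 := by exact_mod_cast hm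
    have hWm : W ^ m ≤ W ^ 4 := pow_le_pow_right₀ hW1 hm
    have hl := hlog Q hQge
    have e12 : (1 + Real.log Q) ^ (12 : ℝ) = (1 + Real.log Q) ^ 12 := by
      exact_mod_cast Real.rpow_natCast (1 + Real.log Q) 12
    rw [e12, Real.rpow_one] at hl
    have hneg : (Q : ℝ) ^ (-(10) : ℝ) = 1 / (Q : ℝ) ^ 10 := by
      rw [Real.rpow_neg hQ0.le, one_div]
      congr 1
      exact_mod_cast Real.rpow_natCast (Q : ℝ) 10
    rw [hneg]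
    calc (m : ℝ) * (16 / (Q : ℝ) ^ 35) * W ^ m ≤ 4 * (16 / (Q : ℝ) ^ 35) * W ^ 4 := by
          refine mul_le_mul ?_ hWm (by positivity) (by positivity)
          exact mul_le_mul_of_nonneg_right hm4 (by positivity)
      _ = (64 * 300 ^ 4 * (1 + Real.log Q) ^ 12) * (Q : ℝ) ^ 4 / (Q : ℝ) ^ 35 := by
          rw [hW]
          ring
      _ ≤ (Q : ℝ) * (Q : ℝ) ^ 4 / (Q : ℝ) ^ 35 := by
          refine div_le_div_of_nonneg_right ?_ (by positivity)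
          exact mul_le_mul_of_nonneg_right hl (by positivity)
      _ ≤ 1 / (Q : ℝ) ^ 10 := by
          rw [div_le_div_iff₀ (by positivity) (by positivity)]
          have h1 : (Q : ℝ) * (Q : ℝ) ^ 4 * (Q : ℝ) ^ 10 = (Q : ℝ) ^ 15 := by ring
          rw [h1, one_mul]
          exact pow_le_pow_right₀ hQr (by norm_num)
  · have h1 : ∀ p ∈ Pool.Agent.Lib.H68T.PC Q, ‖Cc i (F.map ω i (n : ℤ)) p - Cc i (fp F Q Z X ω n i) p‖ ≤
        16 / (Q : ℝ) ^ 37 := by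
      intro p hp
      refine (v1a_slow Q (Y i) (Cc i) (mb i) (hC i) _ _ (hbase i).1 (hbase i).2
        (hval i).1 (hval i).2 p hp).trans ?_
      have h2 : (Q : ℝ) ^ 40 * |((F.map ω i (n : ℤ) : ℤ) : ℝ) - ((fp F Q Z X ω n i : ℤ) : ℝ)| ≤
          8 * Y i := by
        exact_mod_cast b3 i
      have h4 : |((F.map ω i (n : ℤ) : ℤ) : ℝ) - ((fp F Q Z X ω n i : ℤ) : ℝ)| ≤
          (8 * Y i) / (Q : ℝ) ^ 40 := by
        rw [le_div_iff₀ (by positivity), mul_comm]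
        exact h2
      have hYi := hY0 i
      calc |((F.map ω i (n : ℤ) : ℤ) : ℝ) - ((fp F Q Z X ω n i : ℤ) : ℝ)| *
            (2 * (Q : ℝ) ^ 3 / Y i)
          ≤ (8 * Y i) / (Q : ℝ) ^ 40 * (2 * (Q : ℝ) ^ 3 / Y i) :=
            mul_le_mul_of_nonneg_right h4 (by positivity)
        _ = 16 / (Q : ℝ) ^ 37 := by
            field_simp
            ring
    refine (v2_SG Q hQ' _ _ (16 / (Q : ℝ) ^ 37) h1 (by positivity) _).trans ?_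
    have h5 : (0 : ℝ) ≤ (1 + Real.log Q) ^ 3 * Q := by positivity
    calc 100 * (1 + Real.log Q) ^ 3 * Q * ((Q : ℝ) ^ 2 * (16 / (Q : ℝ) ^ 37))
        = 16 / (Q : ℝ) ^ 35 * (100 * (1 + Real.log Q) ^ 3 * Q) := by
          field_simp
      _ ≤ 16 / (Q : ℝ) ^ 35 * W := by
          refine mul_le_mul_of_nonneg_left ?_ (by positivity)
          rw [hW]
          nlinarith

end Pool.Agent.Lib.H59V
end

-- from Lib.H59V.X3
section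

/-!
# Project H59V, chunk X3 (S/M): geometry of the mixed forms
-/

open Finset

namespace Pool.Agent.Lib.H59V

open Pool.Agent.Lib.H68T Pool.Agent.Lib.H18Q Pool.Agent.Lib.H59P Pool.Agent.Lib.H24P
  Pool.Agent.Lib.H24Q

theorem x3_LM (ρ : ℤ) (ω : Fin 2 → ℕ) (n : ℤ) :
    (LM ρ).map ω 0 n = 3 * (ω 0 : ℤ) + 3 * n + ρ ∧
    (LM ρ).map ω 1 n = 3 * (ω 0 : ℤ) - 3 * n - ρ ∧
    (LM ρ).map ω 2 n = 3 * (ω 1 : ℤ) + 3 * n + 2 * ρ ∧
    (LM ρ).map ω 3 n = (ω 1 : ℤ) - n := by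
  refine ⟨?_, ?_, ?_, ?_⟩
  · show (3 : ℤ) * (ω 0 : ℤ) + 3 * n + ρ = _
    ring
  · show (3 : ℤ) * (ω 0 : ℤ) + (-3) * n + (-ρ) = _
    ring
  · show (3 : ℤ) * (ω 1 : ℤ) + 3 * n + 2 * ρ = _
    ring
  · show (1 : ℤ) * (ω 1 : ℤ) + (-1) * n + 0 = _
    ring

theorem x3_sq (N z a : ℕ) (h1 : N ≤ z ^ 2) (h2 : z ≤ a) : N ≤ a ^ 2 :=
  h1.trans (Nat.pow_le_pow_left h2 2)

theorem x3_dvd (Q m : ℕ) (h : 3 * Q ^ 40 ∣ m) : Q ^ 40 ∣ m / 3 ∧ 3 * (m / 3) = m := by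
  obtain ⟨c, hc⟩ := h
  have h1 : m / 3 = Q ^ 40 * c := by
    rw [hc, mul_assoc, Nat.mul_div_cancel_left _ (by norm_num)]
  refine ⟨⟨c, h1⟩, ?_⟩
  rw [h1, hc, mul_assoc]

/-- **Geometry.** Proof. As `D5_Gm4` (`H24Q/D5.lean`). Write `Z = 3 z`, `X = 3 a`, `X' = 3 a'` (`Q^40` divides `z`, `a`, `a'`); `N ≤ z²`
from `9 N ≤ 9 z²`, `2 z ≤ a`, `2 z ≤ a'`. For `s ∈ [2a, 3a)`, `s' ∈ [2a', 3a')`, `n ∈ [z, 2z)`: `3n + ρ ≤ 2Z - 1 < X`, so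
`X ≤ 3s ± (3n + ρ) < 4X`; `X' ≤ 3s' + 3n + 2ρ ≤ 3X' - 3 + 2Z - 3 + 4 < 4X'`; `a' ≤ s' - n < 4a'`. Coefficients:
`3 a = X`, `3 z = Z ≤ X`, etc. (`fin_cases` on the indices, `omega`, `nlinarith` for the squares.) -/
theorem X3_Gq (ρ : ℤ) (hρ : ρ = 1 ∨ ρ = 2) (Q N Z X X' : ℕ) (hZ : 3 * Q ^ 40 ∣ Z) (hX : 3 * Q ^ 40 ∣ X)
    (hX' : 3 * Q ^ 40 ∣ X') (h1 : 9 * N ≤ Z ^ 2) (h2 : 2 * Z ≤ X) (h3 : 2 * Z ≤ X') (h4 : X ≤ N)
    (h5 : X' ≤ N) : Gq (LM ρ) Q N (Z / 3) ![X / 3, X' / 3] ![X, X, X', X' / 3] := by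
  obtain ⟨dZ, eZ⟩ := x3_dvd Q Z hZ
  obtain ⟨dX, eX⟩ := x3_dvd Q X hX
  obtain ⟨dX', eX'⟩ := x3_dvd Q X' hX'
  obtain ⟨z, hz⟩ : ∃ z, z = Z / 3 := ⟨_, rfl⟩
  obtain ⟨a, ha⟩ : ∃ a, a = X / 3 := ⟨_, rfl⟩
  obtain ⟨a', ha'⟩ : ∃ a', a' = X' / 3 := ⟨_, rfl⟩
  rw [← hz] at dZ eZ
  rw [← ha] at dX eX
  rw [← ha'] at dX' eX'
  rw [← hz, ← ha, ← ha']
  clear hz ha ha' hZ hX hX'
  subst eZ eX eX'
  have k1 : N ≤ z ^ 2 := by nlinarith
  have k2 : 2 * z ≤ a := by omega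
  have k3 : 2 * z ≤ a' := by omega
  have ka : N ≤ a ^ 2 := x3_sq N z a k1 (by omega)
  have ka' : N ≤ a' ^ 2 := x3_sq N z a' k1 (by omega)
  have kX : N ≤ (3 * a) ^ 2 := x3_sq N z (3 * a) k1 (by omega)
  have kX' : N ≤ (3 * a') ^ 2 := x3_sq N z (3 * a') k1 (by omega)
  have hNN : N ≤ N ^ 2 := Nat.le_self_pow (by norm_num) N
  have hρ0 : 0 ≤ ρ ∧ ρ ≤ 2 := by rcases hρ with rfl | rfl <;> omega
  refine ⟨dZ, ?_, k1, by omega, ?_, ?_, ?_, ?_, ?_, ?_, ?_, ?_⟩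
  · intro j
    fin_cases j
    · exact dX
    · exact dX'
  · intro j
    fin_cases j
    · exact ka
    · exact ka'
  · intro j
    fin_cases j
    · show a ≤ N
      omega
    · show a' ≤ N
      omega
  · intro i
    fin_cases i
    · exact kX
    · exact kX
    · exact kX'
    · exact ka'
  · intro i
    fin_cases i
    · exact h4.trans hNN
    · exact h4.trans hNN
    · exact h5.trans hNN
    · show a' ≤ N ^ 2
      omega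
  · intro i
    fin_cases i
    · show |(3 : ℤ)| * ((a : ℕ) : ℤ) ≤ 4 * ((3 * a : ℕ) : ℤ)
      rw [abs_of_pos (by norm_num)]
      omega
    · show |(3 : ℤ)| * ((a : ℕ) : ℤ) ≤ 4 * ((3 * a : ℕ) : ℤ)
      rw [abs_of_pos (by norm_num)]
      omega
    · show |(3 : ℤ)| * ((a' : ℕ) : ℤ) ≤ 4 * ((3 * a' : ℕ) : ℤ)
      rw [abs_of_pos (by norm_num)]
      omega
    · show |(1 : ℤ)| * ((a' : ℕ) : ℤ) ≤ 4 * ((a' : ℕ) : ℤ)
      rw [abs_one]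
      omega
  · intro i
    fin_cases i
    · show |(3 : ℤ)| * ((z : ℕ) : ℤ) ≤ 4 * ((3 * a : ℕ) : ℤ)
      rw [abs_of_pos (by norm_num)]
      omega
    · show |(-3 : ℤ)| * ((z : ℕ) : ℤ) ≤ 4 * ((3 * a : ℕ) : ℤ)
      rw [abs_neg, abs_of_pos (by norm_num)]
      omega
    · show |(3 : ℤ)| * ((z : ℕ) : ℤ) ≤ 4 * ((3 * a' : ℕ) : ℤ)
      rw [abs_of_pos (by norm_num)]
      omega
    · show |(-1 : ℤ)| * ((z : ℕ) : ℤ) ≤ 4 * ((a' : ℕ) : ℤ)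
      rw [abs_neg, abs_one]
      omega
  · intro i ω hω n hn
    have w0 := mem_Ico.1 (Fintype.mem_piFinset.1 hω 0)
    have w1 := mem_Ico.1 (Fintype.mem_piFinset.1 hω 1)
    have hn' := mem_Ico.1 hn
    have w0' : 2 * a ≤ ω 0 ∧ ω 0 < 2 * a + a := w0
    have w1' : 2 * a' ≤ ω 1 ∧ ω 1 < 2 * a' + a' := w1
    obtain ⟨a0, a1, a2, a3⟩ := x3_LM ρ ω (n : ℤ)
    fin_cases i
    · show ((3 * a : ℕ) : ℤ) ≤ (LM ρ).map ω 0 (n : ℤ)
      rw [a0]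
      push_cast
      omega
    · show ((3 * a : ℕ) : ℤ) ≤ (LM ρ).map ω 1 (n : ℤ)
      rw [a1]
      push_cast
      omega
    · show ((3 * a' : ℕ) : ℤ) ≤ (LM ρ).map ω 2 (n : ℤ)
      rw [a2]
      push_cast
      omega
    · show ((a' : ℕ) : ℤ) ≤ (LM ρ).map ω 3 (n : ℤ)
      rw [a3]
      omega
  · intro i ω hω n hn
    have w0 := mem_Ico.1 (Fintype.mem_piFinset.1 hω 0)
    have w1 := mem_Ico.1 (Fintype.mem_piFinset.1 hω 1)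
    have hn' := mem_Ico.1 hn
    have w0' : 2 * a ≤ ω 0 ∧ ω 0 < 2 * a + a := w0
    have w1' : 2 * a' ≤ ω 1 ∧ ω 1 < 2 * a' + a' := w1
    obtain ⟨a0, a1, a2, a3⟩ := x3_LM ρ ω (n : ℤ)
    fin_cases i
    · show (LM ρ).map ω 0 (n : ℤ) < 4 * ((3 * a : ℕ) : ℤ)
      rw [a0]
      push_cast
      omega
    · show (LM ρ).map ω 1 (n : ℤ) < 4 * ((3 * a : ℕ) : ℤ)
      rw [a1]
      push_cast
      omega
    · show (LM ρ).map ω 2 (n : ℤ) < 4 * ((3 * a' : ℕ) : ℤ)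
      rw [a2]
      push_cast
      omega
    · show (LM ρ).map ω 3 (n : ℤ) < 4 * ((a' : ℕ) : ℤ)
      rw [a3]
      omega

end Pool.Agent.Lib.H59V
end

-- from Lib.H59V.MD3
section

/-!
# Project H24Q, chunk D3 (M): the sums MF and their main terms (compare H24P/Z2, Z3, Z4)
-/

open Finset

namespace Pool.Agent.Lib.H59V

open Pool.Agent.Lib.H68T Pool.Agent.Lib.H18Q Pool.Agent.Lib.H59P Pool.Agent.Lib.H24P Pool.Agent.Lib.H24Q

theorem md3_card {g : ℕ} (b s : Fin g → ℕ) : ((cub b s).card : ℝ) = vol s := by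
  unfold cub vol
  rw [Fintype.card_piFinset]
  push_cast
  refine Finset.prod_congr rfl fun i _ => ?_
  rw [Nat.card_Ico, Nat.add_sub_cancel_left]

theorem md3_N (Q N B : ℕ) (hQ : 2 ≤ Q) (hK : 2 * ((B : ℝ) + 50) * Real.log Q ≤ Real.log N) :
    1 ≤ N ∧ ∀ x : ℕ, N ≤ x ^ 2 → Q ^ (B + 50) ≤ x := by
  have hQr : (0 : ℝ) < Q := by exact_mod_cast (show 0 < Q by omega)
  have hlQ : 0 < Real.log Q := Real.log_pos (by exact_mod_cast (show 1 < Q by omega))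
  have hB0 : (0 : ℝ) ≤ B := Nat.cast_nonneg _
  have hN : 1 ≤ N := by
    rcases Nat.eq_zero_or_pos N with h | h
    · rw [h, Nat.cast_zero, Real.log_zero] at hK
      have : 0 < 2 * ((B : ℝ) + 50) * Real.log Q := by positivity
      linarith
    · exact h
  refine ⟨hN, fun x hx => ?_⟩
  have hNr : (0 : ℝ) < N := by exact_mod_cast hN
  have h1 : Real.log ((Q : ℝ) ^ (2 * (B + 50))) ≤ Real.log N := by
    rw [Real.log_pow]
    refine le_trans (le_of_eq ?_) hK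
    push_cast
    ring
  have h2 : (Q : ℝ) ^ (2 * (B + 50)) ≤ N := (Real.log_le_log_iff (by positivity) hNr).1 h1
  have h3 : Q ^ (2 * (B + 50)) ≤ N := by exact_mod_cast h2
  have h4 : (Q ^ (B + 50)) ^ 2 ≤ x ^ 2 := by
    rw [← pow_mul, mul_comm]
    exact h3.trans hx
  exact (Nat.pow_le_pow_iff_left (by norm_num)).1 h4

/-- The mean square. Proof. `MD1_pt`: up to `Z Q^(-10)` for each `ω` (square at most `Z² Q^(-20)`) `MF ω` is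
`∑_n ∏ SG Q (Cc i (fp …)) (F.map ω i n)`. `D2_cells` with `b = 2X`, `M = X`, `s j = X j/Q^40`, `q = N = Q^40`, `H = Z/Q^40`,
`F h n = ∏ SG … - MDf …`: on a cell the frozen points are constant (`E1_bs` of `H24P`: base points `2 X j + t j s j` and
`Z + j H`), the coefficients there have total size `≤ 3` (`Cf.le`, `Cf.sum`, `MD1_base`, `Gq.lo`, `Gq.hi`): `B2_cell` with
`S = cub (2X + t s) s`, `Fam` from `HF` (`Q^B ≤ s j`: `X j ≥ N^(1/2)`, `N ≥ Q^K`, `K ≥ 2 (B + 50)`; the same for `H`),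
`card (cub _ s) = vol s`. -/
theorem MD3_ms (m g B : ℕ) (hm : m ≤ 4) (F : LF m g) (C c : ℝ) (hC : 1 ≤ C) (hc : 0 < c)
    (hF : HF C c B F) : ∃ c' K : ℝ, 0 < c' ∧ 1 ≤ K ∧ ∃ Q0 : ℕ, ∀ (Q N Z : ℕ) (X : Fin g → ℕ)
    (Y : Fin m → ℕ), Q0 ≤ Q → K * Real.log Q ≤ Real.log N → Gq F Q N Z X Y →
    ∀ (Cc : Fin m → ℤ → Ch → ℂ) (mb : Fin m → Ch → ℝ), (∀ i, Cf Q (Y i) (Cc i) (mb i)) →
    ∀ r : ℕ, 1 ≤ r → r ^ 100 ≤ Q →
    ∑ ω ∈ cub (fun j => 2 * X j) X, ‖((MF F Q Z Y ω : ℝ) : ℂ) - MZ F Q Z r X Cc ω‖ ^ 2 ≤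
      vol X * (Z : ℝ) ^ 2 * (Q : ℝ) ^ (-c') := by
  classical
  obtain ⟨c1, hc1, Q1, hcell⟩ := B2_cell m C c hC hc
  obtain ⟨Q2, hpt⟩ := MD1_pt m hm
  have hcm : 0 < min c1 20 := lt_min hc1 (by norm_num)
  obtain ⟨Q3, hQ3, hlog⟩ := G1_rlog 4 0 (min c1 20 / 2) (by positivity)
  refine ⟨min c1 20 / 2, 2 * (B + 50), by positivity, ?_, max (max Q1 Q2) (max Q3 2), ?_⟩
  · have hB0 : (0 : ℝ) ≤ B := Nat.cast_nonneg _
    linarith
  intro Q N Z X Y hQ hK hG Cc mb hCf r hr hr100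
  have q1 : Q1 ≤ Q := (le_max_left _ _).trans ((le_max_left _ _).trans hQ)
  have q2 : Q2 ≤ Q := (le_max_right _ _).trans ((le_max_left _ _).trans hQ)
  have q3 : Q3 ≤ Q := (le_max_left _ _).trans ((le_max_right _ _).trans hQ)
  have q4 : 2 ≤ Q := (le_max_right _ _).trans ((le_max_right _ _).trans hQ)
  have hQ1 : 1 ≤ Q := by omega
  have hQr : (1 : ℝ) ≤ Q := by exact_mod_cast hQ1
  have hQr0 : (0 : ℝ) < Q := by linarith
  have hq40 : 0 < Q ^ 40 := Nat.pow_pos (by omega)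
  obtain ⟨hN, hsq⟩ := md3_N Q N B q4 hK
  have hZ : Q ^ (B + 50) ≤ Z := hsq Z hG.Zlo
  have hX : ∀ j, Q ^ (B + 50) ≤ X j := fun j => hsq (X j) (hG.Xlo j)
  have hdv : ∀ x : ℕ, Q ^ 40 ∣ x → Q ^ (B + 50) ≤ x → Q ^ (B + 10) ≤ x / Q ^ 40 := by
    intro x _ hx
    rw [Nat.le_div_iff_mul_le hq40, ← pow_add]
    exact hx
  set H : ℕ := Z / Q ^ 40 with hH
  set s : Fin g → ℕ := fun j => X j / Q ^ 40 with hs
  have hHlo : Q ^ (B + 10) ≤ H := hdv Z hG.dvdZ hZ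
  have hslo : ∀ j, Q ^ (B + 10) ≤ s j := fun j => hdv (X j) (hG.dvdX j) (hX j)
  have hHpos : 0 < H := lt_of_lt_of_le (Nat.pow_pos (by omega)) hHlo
  have hspos : ∀ j, 0 < s j := fun j => lt_of_lt_of_le (Nat.pow_pos (by omega)) (hslo j)
  have hZH : Z = H * Q ^ 40 := (Nat.div_mul_cancel hG.dvdZ).symm
  have hXs : ∀ j, X j = s j * Q ^ 40 := fun j => (Nat.div_mul_cancel (hG.dvdX j)).symm
  have hv0 : 0 ≤ vol X := Finset.prod_nonneg fun i _ => Nat.cast_nonneg _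
  -- the two parts
  set F2 : (Fin g → ℕ) → ℕ → ℂ := fun ω n =>
    ∏ i, SG Q (Cc i (fp F Q Z X ω n i)) (F.map ω i (n : ℤ)) -
      MDf Q r (fun i => Cc i (fp F Q Z X ω n i)) (F.map ω) with hF2
  set F1 : (Fin g → ℕ) → ℕ → ℂ := fun ω n =>
    ((∏ i, Lk Q (Y i / Q ^ 2) (F.map ω i (n : ℤ)) : ℝ) : ℂ) -
      ∏ i, SG Q (Cc i (fp F Q Z X ω n i)) (F.map ω i (n : ℤ)) with hF1
  have hdiff : ∀ ω, ((MF F Q Z Y ω : ℝ) : ℂ) - MZ F Q Z r X Cc ω =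
      ∑ n ∈ Ico Z (2 * Z), F1 ω n + ∑ n ∈ Ico Z (2 * Z), F2 ω n := by
    intro ω
    unfold MF MZ
    rw [Complex.ofReal_sum, ← Finset.sum_sub_distrib, ← Finset.sum_add_distrib]
    refine Finset.sum_congr rfl fun n _ => ?_
    rw [hF1, hF2]
    ring
  have hZc : ((Ico Z (2 * Z)).card : ℝ) = Z := by
    rw [Nat.card_Ico]
    congr 1
    omega
  have hone : ∀ ω ∈ cub (fun j => 2 * X j) X, ‖∑ n ∈ Ico Z (2 * Z), F1 ω n‖ ^ 2 ≤
      (Z : ℝ) ^ 2 * (Q : ℝ) ^ (-(20) : ℝ) := by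
    intro ω hω
    have h1 : ‖∑ n ∈ Ico Z (2 * Z), F1 ω n‖ ≤ Z * (Q : ℝ) ^ (-(10) : ℝ) := by
      refine (norm_sum_le _ _).trans ?_
      refine (Finset.sum_le_sum fun n hn => hpt g F Q N Z X Y q2 hN hG Cc mb hCf ω hω n hn).trans ?_
      rw [Finset.sum_const, nsmul_eq_mul, hZc]
    refine (pow_le_pow_left₀ (norm_nonneg _) h1 2).trans (le_of_eq ?_)
    rw [mul_pow]
    congr 1
    rw [← Real.rpow_natCast, ← Real.rpow_mul hQr0.le]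
    norm_num
  have hcard : ((cub (fun j => 2 * X j) X).card : ℝ) = vol X := md3_card _ _
  have hsum1 : ∑ ω ∈ cub (fun j => 2 * X j) X, ‖∑ n ∈ Ico Z (2 * Z), F1 ω n‖ ^ 2 ≤
      vol X * (Z : ℝ) ^ 2 * (Q : ℝ) ^ (-(20) : ℝ) := by
    refine (Finset.sum_le_sum hone).trans (le_of_eq ?_)
    rw [Finset.sum_const, nsmul_eq_mul, hcard]
    ring
  have hsum2 : ∑ ω ∈ cub (fun j => 2 * X j) X, ‖∑ n ∈ Ico Z (2 * Z), F2 ω n‖ ^ 2 ≤
      vol X * (Z : ℝ) ^ 2 * (Q : ℝ) ^ (-c1) := by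
    refine D2_cells (fun j => 2 * X j) X s (Q ^ 40) hXs Z H (Q ^ 40) hZH ((Q : ℝ) ^ (-c1))
      (Real.rpow_nonneg (Nat.cast_nonneg _) _) F2 ?_
    intro t ht j hj
    set w0 : Fin g → ℕ := fun i => 2 * X i + t i * s i with hw0
    have hw0m : w0 ∈ cub (fun j => 2 * X j) X := by
      refine Fintype.mem_piFinset.2 fun i => mem_Ico.2 ⟨Nat.le_add_right _ _, ?_⟩
      have h1 : t i * s i < X i := by
        calc t i * s i < Q ^ 40 * s i := Nat.mul_lt_mul_of_pos_right (ht i) (hspos i)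
          _ = X i := by rw [mul_comm]; exact (hXs i).symm
      show 2 * X i + t i * s i < 2 * X i + X i
      omega
    have hn0 : Z + j * H ∈ Ico Z (2 * Z) := by
      have h1 : j * H < Z := by
        calc j * H < Q ^ 40 * H := Nat.mul_lt_mul_of_pos_right hj hHpos
          _ = Z := by rw [mul_comm]; exact hZH.symm
      rw [mem_Ico]
      omega
    have hbw : ∀ ω ∈ cub w0 s, bw Q X ω = w0 := by
      intro ω hω
      funext i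
      have h1 := Fintype.mem_piFinset.1 hω i
      exact E1_bs (hspos i) (Dvd.dvd.mul_left ⟨Q ^ 40, hXs i⟩ 2) h1
    have hbn : ∀ n ∈ Ico (Z + j * H) (Z + j * H + H), bs (Z / Q ^ 40) n = Z + j * H := by
      intro n hn
      exact E1_bs hHpos ⟨Q ^ 40, hZH⟩ hn
    have hfp : ∀ ω ∈ cub w0 s, ∀ n ∈ Ico (Z + j * H) (Z + j * H + H), ∀ i,
        fp F Q Z X ω n i = F.map w0 i ((Z + j * H : ℕ) : ℤ) := by
      intro ω hω n hn i
      unfold fp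
      rw [hbw ω hω, hbn n hn]
    have hval : ∀ i, (Y i : ℤ) ≤ F.map w0 i ((Z + j * H : ℕ) : ℤ) ∧
        F.map w0 i ((Z + j * H : ℕ) : ℤ) ≤ 4 * Y i :=
      fun i => ⟨hG.lo i _ hw0m _ hn0, (hG.hi i _ hw0m _ hn0).le⟩
    set cf : Fin m → Ch → ℂ := fun i => Cc i (F.map w0 i ((Z + j * H : ℕ) : ℤ)) with hcf
    have hcf3 : ∀ i, ∑ p ∈ Pool.Agent.Lib.H68T.PC Q, ‖cf i p‖ ≤ 3 := by
      intro i
      refine (Finset.sum_le_sum fun p hp => (hCf i).le _ (hval i).1 (hval i).2 p hp).trans (hCf i).sum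
    have hB0 : Q ^ B ≤ H := (Nat.pow_le_pow_right hQ1 (by omega)).trans hHlo
    have hB4 : Q ^ 4 ≤ H := (Nat.pow_le_pow_right hQ1 (by omega)).trans hHlo
    have hFam := hF Q q4 w0 s (fun j => (Nat.pow_le_pow_right hQ1 (by omega)).trans (hslo j))
    have key := hcell Q q1 (Q ^ B) (Fin g → ℕ) (cub w0 s) F.map hFam r hr hr100 cf hcf3 (Z + j * H) H
      hB0 hB4
    rw [md3_card] at key
    refine le_trans (le_of_eq ?_) key
    refine Finset.sum_congr rfl fun ω hω => ?_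
    congr 2
    have h1 : ∀ n ∈ Ico (Z + j * H) (Z + j * H + H), F2 ω n =
        ∏ i, SG Q (cf i) (F.map ω i (n : ℤ)) - MDf Q r cf (F.map ω) := by
      intro n hn
      have h2 : (fun i => Cc i (fp F Q Z X ω n i)) = cf := by
        funext i
        rw [hcf]
        beta_reduce
        rw [hfp ω hω n hn i]
      have h3 : F2 ω n = ∏ i, SG Q ((fun i => Cc i (fp F Q Z X ω n i)) i) (F.map ω i (n : ℤ)) -
          MDf Q r (fun i => Cc i (fp F Q Z X ω n i)) (F.map ω) := rfl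
      rw [h3, h2]
    rw [Finset.sum_congr rfl h1, Finset.sum_sub_distrib, Finset.sum_const, Nat.card_Ico, nsmul_eq_mul,
      Nat.add_sub_cancel_left]
  have hV0 : 0 ≤ vol X * (Z : ℝ) ^ 2 := by positivity
  have hle : ∀ c' : ℝ, min c1 20 ≤ c' → vol X * (Z : ℝ) ^ 2 * (Q : ℝ) ^ (-c') ≤
      vol X * (Z : ℝ) ^ 2 * (Q : ℝ) ^ (-(min c1 20)) := by
    intro c' hc'
    exact mul_le_mul_of_nonneg_left (Real.rpow_le_rpow_of_exponent_le hQr (by linarith)) hV0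
  have f1 := hsum1.trans (hle _ (min_le_right _ _))
  have f2 := hsum2.trans (hle _ (min_le_left _ _))
  have hpt2 : ∀ ω ∈ cub (fun j => 2 * X j) X, ‖((MF F Q Z Y ω : ℝ) : ℂ) - MZ F Q Z r X Cc ω‖ ^ 2 ≤
      2 * ‖∑ n ∈ Ico Z (2 * Z), F1 ω n‖ ^ 2 + 2 * ‖∑ n ∈ Ico Z (2 * Z), F2 ω n‖ ^ 2 := by
    intro ω _
    rw [hdiff ω]
    have h1 := norm_add_le (∑ n ∈ Ico Z (2 * Z), F1 ω n) (∑ n ∈ Ico Z (2 * Z), F2 ω n)
    refine (pow_le_pow_left₀ (norm_nonneg _) h1 2).trans ?_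
    nlinarith [sq_nonneg (‖∑ n ∈ Ico Z (2 * Z), F1 ω n‖ - ‖∑ n ∈ Ico Z (2 * Z), F2 ω n‖)]
  refine (Finset.sum_le_sum hpt2).trans ?_
  rw [Finset.sum_add_distrib, ← Finset.mul_sum, ← Finset.mul_sum]
  have hfin : 4 * (vol X * (Z : ℝ) ^ 2 * (Q : ℝ) ^ (-(min c1 20))) ≤
      vol X * (Z : ℝ) ^ 2 * (Q : ℝ) ^ (-(min c1 20 / 2)) := by
    have h3 : (Q : ℝ) ^ (-(min c1 20 / 2)) = (Q : ℝ) ^ (min c1 20 / 2) * (Q : ℝ) ^ (-(min c1 20)) := by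
      rw [← Real.rpow_add hQr0]
      congr 1
      ring
    have h4 := hlog Q q3
    rw [Real.rpow_zero, mul_one] at h4
    have h5 : 0 ≤ vol X * (Z : ℝ) ^ 2 * (Q : ℝ) ^ (-(min c1 20)) :=
      mul_nonneg hV0 (Real.rpow_nonneg hQr0.le _)
    rw [h3]
    nlinarith [mul_le_mul_of_nonneg_right h4 h5]
  linarith

/-- **D3.** Proof. Compare `Z4_main`, `Z3_main` in `H24P`. `CF0` of `H59P` for all `i` (`E0 ≤ 1`), `MD3_ms` with `r = px.1`;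
`z4_cheb`: `Bad` = the `ω` with `‖MF - MZ‖ > Z Q^(-c'/4)`, at most `vol X Q^(-c'/2)` of them. For the others, for each `n`
`Z3_cell` of `H24P` (`m0 = px.1 ≤ fl Q (1/16)` by `G1_size` with `a = 1`; `th i` = `th` at the frozen point `fp`, which is in
`[Y_i, 4Y_i)`; `MX px th x p = MX px (fun _ => th x) 0 p` by unfolding), so `Re MZ ≥ Z m0/2`. -/
theorem MD3_main (m g B : ℕ) (hm : m ≤ 4) (F : LF m g) (C c : ℝ) (hC : 1 ≤ C) (hc : 0 < c)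
    (hF : HF C c B F) : ∃ c' K : ℝ, 0 < c' ∧ 1 ≤ K ∧ ∃ Q0 : ℕ, ∀ (Q N Z : ℕ) (X : Fin g → ℕ)
    (Y : Fin m → ℕ) (η E0 : ℝ) (px : Ch) (th : ℤ → ℝ), Q0 ≤ Q → K * Real.log Q ≤ Real.log N →
    Gq F Q N Z X Y → px ∈ Pool.Agent.Lib.H68T.PC Q → px.1 ^ 100 ≤ Q → (∀ i, Mdl Q (Y i) η E0 px th) → 0 < η →
    px.2 ^ 2 = 1 → 0 ≤ E0 → 4 * m * E0 ≤ 1 → E0 ≤ 1 →
    ∃ Bad : Finset (Fin g → ℕ), Bad ⊆ cub (fun j => 2 * X j) X ∧
      (Bad.card : ℝ) ≤ vol X * (Q : ℝ) ^ (-c') ∧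
      ∀ ω ∈ cub (fun j => 2 * X j) X, ω ∉ Bad → ∀ m0 : ℝ, (∀ th' : Fin m → ℝ, (∀ i, 0 ≤ th' i) →
        (∀ i, th' i ≤ 1 - η) → (px = p0 → ∀ i, th' i = 0) → m0 ≤ PMf Q px th' (F.map ω)) →
        Z * (m0 / 2 - (Q : ℝ) ^ (-c')) ≤ MF F Q Z Y ω := by
  obtain ⟨c1, K, hc1, hK, Q0, hms⟩ := MD3_ms m g B hm F C c hC hc hF
  obtain ⟨Q1, hQ1, hsize⟩ := G1_size 1
  refine ⟨c1 / 4, K, by positivity, hK, max Q0 Q1, ?_⟩
  intro Q N Z X Y η E0 px th hQ hKN hG hpx hpx100 hM hη hreal hE0 hmE hE1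
  have q0 : Q0 ≤ Q := (le_max_left _ _).trans hQ
  have q1 : Q1 ≤ Q := (le_max_right _ _).trans hQ
  have q2 : 1 ≤ Q := hQ1.trans q1
  have hQr : (1 : ℝ) ≤ Q := by exact_mod_cast q2
  have hQr0 : (0 : ℝ) < Q := by linarith
  choose e eb mb b1 b2 b3 b4 using fun i => CF0 Q (Y i) η E0 px th q2 (hM i) hE1
  have hms' := hms Q N Z X Y q0 hKN hG (fun i m p => Pool.Agent.Lib.H59P.MX px th m p + e i m p) mb b4 px.1
    (mem_PC.1 hpx).1 hpx100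
  have hv0 : 0 ≤ vol X := prod_nonneg fun i _ => Nat.cast_nonneg _
  rcases Nat.eq_zero_or_pos Z with hZ0 | hZpos
  · refine ⟨∅, empty_subset _, ?_, ?_⟩
    · rw [card_empty, Nat.cast_zero]
      exact mul_nonneg hv0 (Real.rpow_nonneg hQr0.le _)
    · intro ω _ _ m0 _
      unfold MF
      rw [hZ0]
      simp
  have hZr : (0 : ℝ) < Z := by exact_mod_cast hZpos
  have hTpos : 0 < (Z : ℝ) * (Q : ℝ) ^ (-(c1 / 4)) := by positivity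
  have hch := z4_cheb (cub (fun j => 2 * X j) X) (fun ω => ‖((MF F Q Z Y ω : ℝ) : ℂ) -
    MZ F Q Z px.1 X (fun i m p => Pool.Agent.Lib.H59P.MX px th m p + e i m p) ω‖) _ _ hTpos hms' (fun _ => norm_nonneg _)
  refine ⟨_, filter_subset _ _, hch.trans ?_, ?_⟩
  · have h1 : ((Z : ℝ) * (Q : ℝ) ^ (-(c1 / 4))) ^ 2 = (Z : ℝ) ^ 2 * (Q : ℝ) ^ (-(c1 / 2)) := by
      rw [mul_pow, ← Real.rpow_natCast ((Q : ℝ) ^ (-(c1 / 4))), ← Real.rpow_mul hQr0.le]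
      congr 2
      push_cast
      ring
    have h2 : (Q : ℝ) ^ (-c1) = (Q : ℝ) ^ (-(c1 / 2)) * (Q : ℝ) ^ (-(c1 / 2)) := by
      rw [← Real.rpow_add hQr0]
      congr 1
      ring
    have h3 : (0 : ℝ) < (Q : ℝ) ^ (-(c1 / 2)) := Real.rpow_pos_of_pos hQr0 _
    have h4 : vol X * (Z : ℝ) ^ 2 * (Q : ℝ) ^ (-c1) / ((Z : ℝ) * (Q : ℝ) ^ (-(c1 / 4))) ^ 2 =
        vol X * (Q : ℝ) ^ (-(c1 / 2)) := by
      rw [h1, h2]
      field_simp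
    rw [h4]
    exact mul_le_mul_of_nonneg_left (Real.rpow_le_rpow_of_exponent_le hQr (by linarith)) hv0
  · intro ω hω hbad m0 hm0
    rw [mem_filter, not_and, not_lt] at hbad
    have h1 := hbad hω
    have hcond := (hsize Q q1 px.1 1 le_rfl le_rfl hpx100).1
    rw [one_mul] at hcond
    have hN : 1 ≤ N := by
      rcases Nat.eq_zero_or_pos N with h | h
      · have h2 := hG.Zhi
        omega
      · exact h
    have hcell : ∀ n ∈ Ico Z (2 * Z), m0 / 2 ≤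
        (MDf Q px.1 (fun i => (fun (i : Fin m) (x : ℤ) (p : Ch) => Pool.Agent.Lib.H59P.MX px th x p + e i x p) i
          (fp F Q Z X ω n i)) (F.map ω)).re := by
      intro n hn
      obtain ⟨d1, d2, -⟩ := MD1_base hG q2 hN ω hω n hn
      have hval : ∀ i, (Y i : ℤ) ≤ fp F Q Z X ω n i ∧ fp F Q Z X ω n i ≤ 4 * Y i :=
        fun i => ⟨hG.lo i _ d1 _ d2, (hG.hi i _ d1 _ d2).le⟩
      refine Z3_cell Q px.1 q2 η E0 px hpx hreal dvd_rfl (mem_PC.1 hpx).1 hcond hη hE0 hmE (F.map ω)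
        (fun i => th (fp F Q Z X ω n i)) ?_ ?_ ?_ (fun i => e i (fp F Q Z X ω n i)) _ ?_ ?_ m0 hm0
      · intro i
        exact (hM i).nonneg _ (hval i).1 (hval i).2
      · intro i
        exact (hM i).le _ (hval i).1 (hval i).2
      · intro h0 i
        exact (hM i).triv h0 _
      · intro i
        exact (Finset.sum_le_sum fun p hp => b3 i _ (hval i).1 (hval i).2 p hp).trans (b2 i)
      · intro i p
        rfl
    have hZ3 : Z * (m0 / 2) ≤ (MZ F Q Z px.1 X (fun i m p => Pool.Agent.Lib.H59P.MX px th m p + e i m p) ω).re := by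
      unfold MZ
      rw [Complex.re_sum]
      have h2 := Finset.sum_le_sum hcell
      rw [Finset.sum_const, Nat.card_Ico, nsmul_eq_mul] at h2
      have h3 : 2 * Z - Z = Z := by omega
      rw [h3] at h2
      exact h2
    have h5 : (MZ F Q Z px.1 X (fun i m p => Pool.Agent.Lib.H59P.MX px th m p + e i m p) ω).re - MF F Q Z Y ω ≤
        Z * (Q : ℝ) ^ (-(c1 / 4)) := by
      refine le_trans ?_ h1
      have h6 := Complex.abs_re_le_norm (((MF F Q Z Y ω : ℝ) : ℂ) -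
        MZ F Q Z px.1 X (fun i m p => Pool.Agent.Lib.H59P.MX px th m p + e i m p) ω)
      refine le_trans ?_ h6
      rw [Complex.sub_re, Complex.ofReal_re]
      have h7 := neg_abs_le (MF F Q Z Y ω -
        (MZ F Q Z px.1 X (fun i m p => Pool.Agent.Lib.H59P.MX px th m p + e i m p) ω).re)
      linarith
    have h8 : (Z : ℝ) * (m0 / 2 - (Q : ℝ) ^ (-(c1 / 4))) =
        Z * (m0 / 2) - Z * (Q : ℝ) ^ (-(c1 / 4)) := by ring
    rw [h8]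
    linarith

end Pool.Agent.Lib.H59V
end

-- from Lib.H59V.MD4
section

/-!
# Project H24Q, chunk D4 (M): lower bounds for MF
-/

open Finset

namespace Pool.Agent.Lib.H59V

open Pool.Agent.Lib.H68T Pool.Agent.Lib.H18Q Pool.Agent.Lib.H59P Pool.Agent.Lib.H24P Pool.Agent.Lib.H24Q

/-- Proof. Directly (`1 ≤ Q`). -/
theorem LowV_mono {m g : ℕ} {F : LF m g} {Q N : ℕ} (hQ : 1 ≤ Q) {c c' b b' : ℝ} (h : LowV F Q N c b)
    (hc : c' ≤ c) (hb : b ≤ b') : LowV F Q N c' b' := by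
  intro Z X Y hG
  obtain ⟨Bad, hB1, hB2, hB3⟩ := h Z X Y hG
  have hQr : (1 : ℝ) ≤ Q := by exact_mod_cast hQ
  refine ⟨Bad, hB1, hB2.trans ?_, fun ω hω hωB hN => le_trans ?_ (hB3 ω hω hωB hN)⟩
  · exact mul_le_mul_of_nonneg_left (Real.rpow_le_rpow_of_exponent_le hQr (by linarith))
      (Finset.prod_nonneg fun i _ => Nat.cast_nonneg _)
  · exact mul_le_mul_of_nonneg_left (Real.rpow_le_rpow_of_exponent_le hQr (by linarith))
      (Nat.cast_nonneg _)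

theorem md4_fam {m g B : ℕ} {F : LF m g} {C c : ℝ} (hF : HF C c B F) {Q N Z : ℕ} {X : Fin g → ℕ}
    {Y : Fin m → ℕ} {K : ℝ} (hQ : 2 ≤ Q) (hK : max K (2 * (B + 50)) * Real.log Q ≤ Real.log N)
    (hG : Gq F Q N Z X Y) : K * Real.log Q ≤ Real.log N ∧
      Fam C c Q (Q ^ B) (cub (fun j => 2 * X j) X) F.map := by
  have hl : 0 ≤ Real.log Q := Real.log_natCast_nonneg Q
  have h1 : K * Real.log Q ≤ Real.log N :=
    (mul_le_mul_of_nonneg_right (le_max_left _ _) hl).trans hK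
  have h2 : 2 * ((B : ℝ) + 50) * Real.log Q ≤ Real.log N :=
    (mul_le_mul_of_nonneg_right (le_max_right _ _) hl).trans hK
  refine ⟨h1, hF Q hQ _ _ fun j => ?_⟩
  exact (Nat.pow_le_pow_right (by omega) (by omega)).trans ((md3_N Q N B hQ h2).2 (X j) (hG.Xlo j))

theorem md4_fin {Q : ℕ} {a ε c1 : ℝ} (hQ : (1 : ℝ) ≤ Q) (h4 : (4 : ℝ) ≤ (Q : ℝ) ^ ε)
    (hc : a + ε ≤ c1) : (Q : ℝ) ^ (-(a + ε)) ≤ (Q : ℝ) ^ (-a) / 2 - (Q : ℝ) ^ (-c1) := by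
  have hQ0 : (0 : ℝ) < Q := by linarith
  have h1 : (Q : ℝ) ^ (-c1) ≤ (Q : ℝ) ^ (-(a + ε)) :=
    Real.rpow_le_rpow_of_exponent_le hQ (by linarith)
  have h2 : (Q : ℝ) ^ (-a) = (Q : ℝ) ^ ε * (Q : ℝ) ^ (-(a + ε)) := by
    rw [← Real.rpow_add hQ0]
    congr 1
    ring
  have h3 : 0 ≤ (Q : ℝ) ^ (-(a + ε)) := Real.rpow_nonneg hQ0.le _
  have h5 := mul_le_mul_of_nonneg_right h4 h3
  rw [← h2] at h5
  linarith

/-- **D4A.** Proof. `MD3_main` with `c1 = c'`, `E0 = 1/16`. Good levels: `px = p0`, `η = 1`, `m0 = Q^(-ε)` (`C1_good`, `FB` from `HF`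
for the family over `S = cub (2X) X`). Exceptional ones: `m0 = Q^(-(m c6 + ε))` (`C1_exc`, first part). So
`MF ≥ Z (Q^(-(m c6 + ε))/2 - Q^(-c1)) ≥ Z Q^(-(m c6 + 2 ε))` for `Q` large, as `m c6 + 2 ε < c1`. (`η ≤ 1`, `0 < η` from
`Mdl`, for instance with `Y = N`.) -/
theorem MD4_A (m g B : ℕ) (hm : m ≤ 4) (F : LF m g) (C c : ℝ) (hC : 1 ≤ C) (hc : 0 < c)
    (hF : HF C c B F) : ∃ c1 K : ℝ, 0 < c1 ∧ 1 ≤ K ∧ ∀ c6 ε : ℝ, 0 < c6 → 0 < ε →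
    m * c6 + 2 * ε < c1 → ∃ Q0 : ℕ, ∀ (Q N : ℕ), Q0 ≤ Q → K * Real.log Q ≤ Real.log N →
    LvA Q N (1 / 16) c6 → LowV F Q N c1 (m * c6 + 2 * ε) := by
  obtain ⟨c1, K, hc1, hK, Qa, hmain⟩ := MD3_main m g B hm F C c hC hc hF
  refine ⟨c1, max K (2 * (B + 50)), hc1, le_max_of_le_left hK, fun c6 ε hc6 hε hlt => ?_⟩
  obtain ⟨Qb, hgood⟩ := C1_good m C ε hC hε
  obtain ⟨Qc, hexc⟩ := C1_exc m C c c6 ε hC hc hc6 hε
  obtain ⟨Qd, hQd1, hlog⟩ := G1_rlog 4 0 ε hε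
  refine ⟨max (max Qa Qb) (max Qc (max Qd 2)), fun Q N hQ hKN hLv Z X Y hG => ?_⟩
  have qa : Qa ≤ Q := (le_max_left _ _).trans ((le_max_left _ _).trans hQ)
  have qb : Qb ≤ Q := (le_max_right _ _).trans ((le_max_left _ _).trans hQ)
  have qc : Qc ≤ Q := (le_max_left _ _).trans ((le_max_right _ _).trans hQ)
  have qd : Qd ≤ Q := (le_max_left _ _).trans ((le_max_right _ _).trans ((le_max_right _ _).trans hQ))
  have q2 : 2 ≤ Q := (le_max_right _ _).trans ((le_max_right _ _).trans ((le_max_right _ _).trans hQ))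
  have hQr : (1 : ℝ) ≤ Q := by exact_mod_cast (show 1 ≤ Q by omega)
  obtain ⟨hKN', hFam⟩ := md4_fam hF q2 hKN hG
  have hm1 : 4 * (m : ℝ) * (1 / 16) ≤ 1 := by
    have : (m : ℝ) ≤ 4 := by exact_mod_cast hm
    linarith
  have hm0 : (0 : ℝ) ≤ m := Nat.cast_nonneg _
  have hmc : (0 : ℝ) ≤ m * c6 := mul_nonneg hm0 hc6.le
  have hfin := md4_fin (Q := Q) (a := m * c6 + ε) (ε := ε) (c1 := c1) hQr
    (by have := hlog Q qd; rwa [Real.rpow_zero, mul_one] at this) (by linarith)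
  rcases hLv with hL | ⟨r, hr, ψ, β, η, hrc, hr100, hprim, hψ1, hψ2, hβ, hzero, hη, hM⟩
  · have hMN := (hL N (Nat.le_self_pow (by norm_num) N) (Nat.le_self_pow (by norm_num) N)).1
    obtain ⟨Bad, hB1, hB2, hB3⟩ := hmain Q N Z X Y 1 (1 / 16) p0 (fun _ => 0) qa hKN' hG hMN.mem
      hMN.cond (fun i => (hL (Y i) (hG.Ylo i) (hG.Yhi i)).1) one_pos hMN.real (by norm_num) hm1
      (by norm_num)
    refine ⟨Bad, hB1, hB2, fun ω hω hωB hNF => ?_⟩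
    have h1 := hB3 ω hω hωB ((Q : ℝ) ^ (-(m * c6 + ε))) (fun th' h0 h1 _ => ?_)
    · refine le_trans ?_ h1
      refine mul_le_mul_of_nonneg_left ?_ (Nat.cast_nonneg _)
      have e1 : m * c6 + ε + ε = m * c6 + 2 * ε := by ring
      rw [e1] at hfin
      exact hfin
    · refine le_trans ?_ (hgood Q qb (F.map ω) (hFam.fb.cp ω hω) (hFam.fb.tp ω hω) hNF th' h0 h1)
      exact Real.rpow_le_rpow_of_exponent_le hQr (by linarith)
  · have hMN := (hM N (Nat.le_self_pow (by norm_num) N) (Nat.le_self_pow (by norm_num) N)).1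
    obtain ⟨Bad, hB1, hB2, hB3⟩ := hmain Q N Z X Y η (1 / 16) ⟨r, ψ⟩ _ qa hKN' hG hMN.mem
      hMN.cond (fun i => (hM (Y i) (hG.Ylo i) (hG.Yhi i)).1) hMN.eta_pos hMN.real (by norm_num) hm1
      (by norm_num)
    refine ⟨Bad, hB1, hB2, fun ω hω hωB hNF => ?_⟩
    have h1 := hB3 ω hω hωB ((Q : ℝ) ^ (-(m * c6 + ε))) (fun th' h0 h1 _ => ?_)
    · refine le_trans ?_ h1
      refine mul_le_mul_of_nonneg_left ?_ (Nat.cast_nonneg _)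
      have e1 : m * c6 + ε + ε = m * c6 + 2 * ε := by ring
      rw [e1] at hfin
      exact hfin
    · exact (hexc Q qc (Q ^ B) (Fin g → ℕ) (cub (fun j => 2 * X j) X) F.map hFam r ψ β η hr100 hprim
        hψ1 hψ2 hβ hzero hη hMN.eta_le).1 hrc ω hω hNF th' h0 h1

/-- **D4B.** Proof. `MD3_main` (`c1 = c'`) and `C1_exc`, second part: the union of the two bad sets has at most
`vol X (Q^(-c1) + Q^(-c c6/2)) ≤ vol X Q^(-min(c1, c c6/2)/2)` elements (`card (cub _ X) = vol X`), `m0 = Q^(-ε)`. -/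
theorem MD4_B (m g B : ℕ) (hm : m ≤ 4) (F : LF m g) (C c : ℝ) (hC : 1 ≤ C) (hc : 0 < c)
    (hF : HF C c B F) : ∃ c1 K : ℝ, 0 < c1 ∧ 1 ≤ K ∧ ∀ c6 ε : ℝ, 0 < c6 → 0 < ε →
    2 * ε < c1 → ∃ Q0 : ℕ, ∀ (Q N : ℕ), Q0 ≤ Q → K * Real.log Q ≤ Real.log N →
    LvB Q N (1 / 16) c6 → LowV F Q N (min c1 (c * c6 / 2) / 2) (2 * ε) := by
  classical
  obtain ⟨c1, K, hc1, hK, Qa, hmain⟩ := MD3_main m g B hm F C c hC hc hF
  refine ⟨c1, max K (2 * (B + 50)), hc1, le_max_of_le_left hK, fun c6 ε hc6 hε hlt => ?_⟩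
  obtain ⟨Qc, hexc⟩ := C1_exc m C c c6 ε hC hc hc6 hε
  obtain ⟨Qd, hQd1, hlog⟩ := G1_rlog 4 0 ε hε
  have hcc : 0 < min c1 (c * c6 / 2) := lt_min hc1 (by positivity)
  obtain ⟨Qe, hQe1, hlog2⟩ := G1_rlog 2 0 (min c1 (c * c6 / 2) / 2) (by positivity)
  refine ⟨max (max Qa Qe) (max Qc (max Qd 2)), fun Q N hQ hKN hLv Z X Y hG => ?_⟩
  have qa : Qa ≤ Q := (le_max_left _ _).trans ((le_max_left _ _).trans hQ)
  have qe : Qe ≤ Q := (le_max_right _ _).trans ((le_max_left _ _).trans hQ)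
  have qc : Qc ≤ Q := (le_max_left _ _).trans ((le_max_right _ _).trans hQ)
  have qd : Qd ≤ Q := (le_max_left _ _).trans ((le_max_right _ _).trans ((le_max_right _ _).trans hQ))
  have q2 : 2 ≤ Q := (le_max_right _ _).trans ((le_max_right _ _).trans ((le_max_right _ _).trans hQ))
  have hQr : (1 : ℝ) ≤ Q := by exact_mod_cast (show 1 ≤ Q by omega)
  have hQr0 : (0 : ℝ) < Q := by linarith
  obtain ⟨hKN', hFam⟩ := md4_fam hF q2 hKN hG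
  have hm1 : 4 * (m : ℝ) * (1 / 16) ≤ 1 := by
    have : (m : ℝ) ≤ 4 := by exact_mod_cast hm
    linarith
  have hfin := md4_fin (Q := Q) (a := ε) (ε := ε) (c1 := c1) hQr
    (by have := hlog Q qd; rwa [Real.rpow_zero, mul_one] at this) (by linarith)
  obtain ⟨r, hr, ψ, β, η, hrc, hr100, hprim, hψ1, hψ2, hβ, hzero, hη, hM⟩ := hLv
  have hMN := (hM N (Nat.le_self_pow (by norm_num) N) (Nat.le_self_pow (by norm_num) N)).1
  obtain ⟨Bad, hB1, hB2, hB3⟩ := hmain Q N Z X Y η (1 / 16) ⟨r, ψ⟩ _ qa hKN' hG hMN.mem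
    hMN.cond (fun i => (hM (Y i) (hG.Ylo i) (hG.Yhi i)).1) hMN.eta_pos hMN.real (by norm_num) hm1
    (by norm_num)
  obtain ⟨Bad', hC1, hC2, hC3⟩ := (hexc Q qc (Q ^ B) (Fin g → ℕ) (cub (fun j => 2 * X j) X) F.map hFam
    r ψ β η hr100 hprim hψ1 hψ2 hβ hzero hη hMN.eta_le).2 hrc
  have hv0 : 0 ≤ vol X := Finset.prod_nonneg fun i _ => Nat.cast_nonneg _
  refine ⟨Bad ∪ Bad', Finset.union_subset hB1 hC1, ?_, ?_⟩
  · rw [md3_card] at hC2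
    have h1 : ((Bad ∪ Bad').card : ℝ) ≤ Bad.card + Bad'.card := by
      exact_mod_cast Finset.card_union_le _ _
    set μ : ℝ := min c1 (c * c6 / 2) with hμ
    have h2 : vol X * (Q : ℝ) ^ (-c1) ≤ vol X * (Q : ℝ) ^ (-μ) :=
      mul_le_mul_of_nonneg_left (Real.rpow_le_rpow_of_exponent_le hQr
        (neg_le_neg (min_le_left _ _))) hv0
    have h3 : vol X * (Q : ℝ) ^ (-(c * c6 / 2)) ≤ vol X * (Q : ℝ) ^ (-μ) :=
      mul_le_mul_of_nonneg_left (Real.rpow_le_rpow_of_exponent_le hQr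
        (neg_le_neg (min_le_right _ _))) hv0
    have h4 := hlog2 Q qe
    rw [Real.rpow_zero, mul_one] at h4
    have h5 : (Q : ℝ) ^ (-(μ / 2)) = (Q : ℝ) ^ (μ / 2) * (Q : ℝ) ^ (-μ) := by
      rw [← Real.rpow_add hQr0]
      congr 1
      ring
    have h6 : 0 ≤ vol X * (Q : ℝ) ^ (-μ) := mul_nonneg hv0 (Real.rpow_nonneg hQr0.le _)
    rw [h5]
    nlinarith [mul_le_mul_of_nonneg_right h4 h6]
  · intro ω hω hωB hNF
    rw [Finset.mem_union, not_or] at hωB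
    have h1 := hB3 ω hω hωB.1 ((Q : ℝ) ^ (-ε)) (fun th' h0 h1 _ => hC3 ω hω hωB.2 hNF th' h0 h1)
    refine le_trans ?_ h1
    refine mul_le_mul_of_nonneg_left ?_ (Nat.cast_nonneg _)
    have e1 : ε + ε = 2 * ε := by ring
    rw [e1] at hfin
    exact hfin

end Pool.Agent.Lib.H59V
end

-- from Lib.H59V.X1
section

/-!
# Project H59V, chunk X1 (S/M): the property FG for the mixed forms
-/

open Finset

namespace Pool.Agent.Lib.H59V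

open Pool.Agent.Lib.H68T Pool.Agent.Lib.H18Q Pool.Agent.Lib.H59P Pool.Agent.Lib.H24P
  Pool.Agent.Lib.H24Q Pool.Agent.Lib.H59T

/-- **FG.** Proof. As `F4_four` (`H59T/F4.lean`) and `F6_FG` (`H59T/F6.lean`): `F3_gen 4 13 (1/18)` with `W7_cp ρ`, `W7_loc ρ`;
`f6_two`, `f6_card2`, `f6_log`; `(LM ρ).map ![x, x'] i n = mf ρ i x x' n` for `i = 0, 1, 2, 3` (`Fin.prod_univ_four` or
`fin_cases i`, `push_cast`, `ring`). -/
theorem X1_FG (ρ : ℤ) : ∃ C : ℝ, 1 ≤ C ∧ ∀ Q : ℕ, 2 ≤ Q → ∀ b s : Fin 2 → ℕ, (∀ j, Q ^ 40 ≤ s j) →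
    FG C (1 / 36) Q (Q ^ 40) (cub b s) (LM ρ).map := by
  obtain ⟨C0, hC0, h0⟩ := F3_gen 4 13 (1 / 18) (by norm_num) (by norm_num)
  have h := h0 (mf ρ) (W7_cp ρ) (W7_loc ρ)
  refine ⟨max 1 C0, le_max_left _ _, ?_⟩
  intro Q hQ b s hs p hp T hT D hD hTD a H hH
  have h1 := h Q D hD p hp T hT hTD (b 0) (b 1) a (s 0) (s 1) H (hs 0) (hs 1) hH
  have e0 : -(1 / 18 / 2 : ℝ) = -(1 / 36 : ℝ) := by norm_num
  rw [e0] at h1
  rw [f6_two, f6_card2]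
  have e1 : ∑ x ∈ Ico (b 0) (b 0 + s 0), ∑ x' ∈ Ico (b 1) (b 1 + s 1),
      ‖∑ n ∈ Ico a (a + H), ∑ κ ∈ T, ∏ i, gk (p i) (κ i) ((LM ρ).map ![x, x'] i (n : ℤ))‖ ^ 2 =
      ∑ y ∈ Ico (b 0) (b 0 + s 0), ∑ y' ∈ Ico (b 1) (b 1 + s 1), ‖∑ z ∈ Ico a (a + H), ∑ κ ∈ T,
      ∏ i, gk (p i) (κ i) (mf ρ i (y : ℤ) (y' : ℤ) (z : ℤ))‖ ^ 2 := by
    refine sum_congr rfl fun x _ => sum_congr rfl fun x' _ => ?_
    have e2 : ∀ (n : ℕ) (i : Fin 4), (LM ρ).map ![x, x'] i (n : ℤ) =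
        mf ρ i (x : ℤ) (x' : ℤ) (n : ℤ) := by
      intro n i
      fin_cases i <;> simp [LF.map, LM, mf] <;> ring
    simp only [e2]
  rw [e1]
  refine h1.trans ?_
  have h2 := f6_log C0 Q hQ (((s 0 : ℝ) * s 1 * H ^ 2) * (D : ℝ) ^ (-(1 / 36 : ℝ))) (by positivity)
  calc _ = C0 * (((s 0 : ℝ) * s 1 * H ^ 2) * (D : ℝ) ^ (-(1 / 36 : ℝ))) := by ring
    _ ≤ _ := h2
    _ = _ := by ring

end Pool.Agent.Lib.H59V
end

-- from Lib.H59V.X2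
section

/-!
# Project H59V, chunk X2 (S/M): local factors and fixed divisors of the mixed forms
-/

open Finset

namespace Pool.Agent.Lib.H59V

open Pool.Agent.Lib.H68T Pool.Agent.Lib.H18Q Pool.Agent.Lib.H59P Pool.Agent.Lib.H24P
  Pool.Agent.Lib.H24Q

theorem x2_map (ρ : ℤ) (ω : Fin 2 → ℕ) :
    (∀ n : ℤ, (LM ρ).map ω 0 n = 3 * (ω 0 : ℤ) + 3 * n + ρ) ∧ (∀ n : ℤ, (LM ρ).map ω 1 n = 3 * (ω 0 : ℤ) - 3 * n - ρ) ∧
      (∀ n : ℤ, (LM ρ).map ω 2 n = 3 * (ω 1 : ℤ) + 3 * n + 2 * ρ) ∧ (∀ n : ℤ, (LM ρ).map ω 3 n = (ω 1 : ℤ) - n) := by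
  refine ⟨fun n => ?_, fun n => ?_, fun n => ?_, fun n => ?_⟩
  · show (3 : ℤ) * (ω 0 : ℤ) + 3 * n + ρ = _
    ring
  · show (3 : ℤ) * (ω 0 : ℤ) + (-3) * n + (-ρ) = _
    ring
  · show (3 : ℤ) * (ω 1 : ℤ) + 3 * n + 2 * ρ = _
    ring
  · show (1 : ℤ) * (ω 1 : ℤ) + (-1) * n + 0 = _
    ring

theorem x2_lin (l : ℕ) (hl : l.Prime) (f : ℤ → ℤ) (v w : ℤ) (hf : ∀ n, f n = v * n + w) (hv : ¬ (l : ℤ) ∣ v) :
    ((range l).filter (fun n : ℕ => (l : ℤ) ∣ f n)).card ≤ 1 := by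
  rw [Finset.card_le_one]
  intro a ha b hb
  obtain ⟨ha1, ha2⟩ := mem_filter.1 ha
  obtain ⟨hb1, hb2⟩ := mem_filter.1 hb
  rw [hf] at ha2 hb2
  refine d0_eq l a b (mem_range.1 ha1) (mem_range.1 hb1) ?_
  have h3 := dvd_sub ha2 hb2
  have h4 : (v * (a : ℤ) + w) - (v * (b : ℤ) + w) = v * ((a : ℤ) - b) := by ring
  rw [h4] at h3
  exact ((Nat.prime_iff_prime_int.1 hl).dvd_or_dvd h3).resolve_left hv

theorem x2_free {m : ℕ} (φ : Fin m → ℤ → ℤ) (l : ℕ) (hm : m < l)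
    (h : ∀ i, ((range l).filter (fun n : ℕ => (l : ℤ) ∣ φ i n)).card ≤ 1) :
    ∃ n : ℤ, ∀ i, ¬ (l : ℤ) ∣ φ i n := by
  classical
  have h1 : (univ.biUnion (fun i : Fin m => (range l).filter
      (fun n : ℕ => (l : ℤ) ∣ φ i n))).card ≤ m := by
    refine card_biUnion_le.trans ?_
    calc ∑ i : Fin m, ((range l).filter (fun n : ℕ => (l : ℤ) ∣ φ i n)).card
        ≤ ∑ _i : Fin m, 1 := Finset.sum_le_sum fun i _ => h i
      _ = m := by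
          rw [Finset.sum_const, card_univ, Fintype.card_fin, smul_eq_mul, mul_one]
  have h2 : ∃ n ∈ range l, n ∉ univ.biUnion (fun i : Fin m => (range l).filter
      (fun n : ℕ => (l : ℤ) ∣ φ i n)) := by
    by_contra hc
    push Not at hc
    have h3 := card_le_card (show range l ⊆ _ from hc)
    rw [card_range] at h3
    omega
  obtain ⟨n, hn, hn2⟩ := h2
  refine ⟨(n : ℤ), fun i hi => hn2 ?_⟩
  exact mem_biUnion.2 ⟨i, mem_univ i, mem_filter.2 ⟨hn, hi⟩⟩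

/-- Proof. `i = 3`: `ω 1 - n`, one class. `i = 0, 1, 2`: `± 3 n + w`: for `l ≠ 3` one class (if `l ∣ 3 (n - n')` then
`l ∣ n - n'`, `d0_eq` of `H24Q/D0.lean`), for `l = 3` the value is `≡ ρ, -ρ, 2ρ` modulo `3`, not divisible by `3`. -/
theorem X2_one (ρ : ℤ) (hρ : ¬ (3:ℤ) ∣ ρ) (ω : Fin 2 → ℕ) (i : Fin 4) (l : ℕ) (hl : l.Prime) :
    ((range l).filter (fun n : ℕ => (l : ℤ) ∣ (LM ρ).map ω i n)).card ≤ 1 := by
  obtain ⟨e0, e1, e2, e3⟩ := x2_map ρ ω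
  have h3 : (∃ v w : ℤ, (v = 3 ∨ v = -3) ∧ ¬ (3:ℤ) ∣ w ∧ ∀ n, (LM ρ).map ω i n = v * n + w) →
      ((range l).filter (fun n : ℕ => (l : ℤ) ∣ (LM ρ).map ω i n)).card ≤ 1 := by
    rintro ⟨v, w, hv, hw, hfv⟩
    by_cases hl3 : l = 3
    · subst hl3
      have h4 : (range 3).filter (fun n : ℕ => ((3 : ℕ) : ℤ) ∣ (LM ρ).map ω i n) = ∅ := by
        refine Finset.filter_eq_empty_iff.2 fun n _ hn => ?_
        rw [hfv] at hn
        rcases hv with rfl | rfl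
        · omega
        · omega
      rw [h4, Finset.card_empty]
      exact Nat.zero_le _
    · refine x2_lin l hl _ v w hfv fun hd => hl3 ?_
      have h5 : (l : ℤ) ∣ ((3 : ℕ) : ℤ) := by
        rcases hv with rfl | rfl
        · exact_mod_cast hd
        · have h6 : (l : ℤ) ∣ 3 := (dvd_neg).1 hd
          exact_mod_cast h6
      exact (Nat.prime_dvd_prime_iff_eq hl Nat.prime_three).1 (Int.natCast_dvd_natCast.1 h5)
  have hcase : i = 0 ∨ i = 1 ∨ i = 2 ∨ i = 3 := by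
    fin_cases i <;> simp
  rcases hcase with rfl | rfl | rfl | rfl
  · exact h3 ⟨3, 3 * (ω 0 : ℤ) + ρ, Or.inl rfl, by omega, fun n => by rw [e0]; ring⟩
  · exact h3 ⟨-3, 3 * (ω 0 : ℤ) - ρ, Or.inr rfl, by omega, fun n => by rw [e1]; ring⟩
  · exact h3 ⟨3, 3 * (ω 1 : ℤ) + 2 * ρ, Or.inl rfl, by omega, fun n => by rw [e2]; ring⟩
  · refine x2_lin l hl _ (-1) (ω 1 : ℤ) (fun n => by rw [e3]; ring) fun hd => ?_
    have h5 : (l : ℤ) ∣ ((1 : ℕ) : ℤ) := by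
      have h6 : (l : ℤ) ∣ 1 := (dvd_neg).1 hd
      exact_mod_cast h6
    exact hl.one_lt.ne' (Nat.dvd_one.1 (Int.natCast_dvd_natCast.1 h5))

/-- Proof. `D0_tp 4`, `D0_cp`, `X2_one` (compare `D0_fb4`). -/
theorem X2_fb (ρ : ℤ) (hρ : ¬ (3:ℤ) ∣ ρ) : ∃ C : ℝ, 1 ≤ C ∧ ∀ S : Finset (Fin 2 → ℕ), FB C S (LM ρ).map := by
  obtain ⟨C, hC, h⟩ := D0_tp 4
  exact ⟨C, hC, fun S => ⟨fun ω _ => D0_cp (LM ρ) ω, fun ω _ l hl => h _ (fun i l hl => X2_one ρ hρ ω i l hl) l hl⟩⟩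

/-- Proof. Let `l` be a prime. `l = 2`: the forms are modulo `2` congruent to `ω 0 + n + ρ`, `ω 0 + n + ρ`, `ω 1 + n`,
`ω 1 + n`; by hypothesis `ω 0 ≡ ω 1 + ρ`, so `n = ω 1 + 1` works. `l = 3`: the first three forms are never divisible by `3`,
`n = ω 1 + 1`. `l ≥ 5`: each form is divisible by `l` for at most one `n < l` (`X2_one`), so some `n < l` is left
(count; compare `d5_free` in `H24Q/D5.lean`). -/
theorem X2_fix (ρ : ℤ) (hρ : ¬ (3:ℤ) ∣ ρ) (ω : Fin 2 → ℕ) (h2 : (2:ℤ) ∣ (ω 0 : ℤ) - ω 1 - ρ) :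
    NoFix ((LM ρ).map ω) := by
  intro l hl
  rcases Nat.lt_or_ge l 5 with h5 | h5
  · have h6 : l = 2 ∨ l = 3 := by
      have := hl.two_le
      interval_cases l
      · exact Or.inl rfl
      · exact Or.inr rfl
      · exact absurd hl (by norm_num)
    obtain ⟨e0, e1, e2, e3⟩ := x2_map ρ ω
    refine ⟨(ω 1 : ℤ) + 1, fun i => ?_⟩
    have hcase : i = 0 ∨ i = 1 ∨ i = 2 ∨ i = 3 := by
      fin_cases i <;> simp
    rcases h6 with rfl | rfl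
    · rcases hcase with rfl | rfl | rfl | rfl
      · rw [e0]; omega
      · rw [e1]; omega
      · rw [e2]; omega
      · rw [e3]; omega
    · rcases hcase with rfl | rfl | rfl | rfl
      · rw [e0]; omega
      · rw [e1]; omega
      · rw [e2]; omega
      · rw [e3]; omega
  · exact x2_free _ l (by omega) fun i => X2_one ρ hρ ω i l hl

end Pool.Agent.Lib.H59V
end
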