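import Pool.Agent.Lib.H1M.RV3.M006
import Pool.Agent.Lib.H1M.RV3.M015
import Pool.Agent.Lib.H1M.RV3.M039
import Pool.Agent.Lib.H1M.RV3.M068
import Pool.Agent.Lib.H1M.RV3.M070
import Pool.Agent.Lib.H1M.RV3.M078
import Pool.Agent.Lib.H1M.RV3.M079
import Pool.Agent.Lib.H1M.RV3.M080
import Pool.Agent.Lib.H1M.RV3.M081
import Pool.Agent.Lib.H1M.RV3.M082
import Pool.Agent.Lib.H1M.RV3.M087
import Pool.Agent.Lib.H1M.RV3.M093
import Pool.Agent.Lib.H1M.RV3.M096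
import Pool.Agent.Lib.H1M.RV3.M100
import Pool.Agent.Lib.H1M.RV3.M102

/-! Merged copies (to shorten the build) of Lib.H9U.U6, Lib.H9U.U7, Lib.H9U.M4, Lib.H9U.Z1, Lib.H9U.Z2, Lib.H9U.Z4A, Lib.H9U.Z4, Lib.H59P.YD, Lib.H9U.A3, Lib.H9U.CORE, Lib.H9U.L3, Lib.H9U.L5, Lib.H9U.L6, Lib.H9U.LB, Lib.H18F.Cell, Lib.H18F.FF. -/

-- from Lib.H9U.U6
section

/-!
# H9U, chunk U6 (M/L): the generalised von Neumann inequality for systems
-/

open Finset

namespace Pool.Agent.H9U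

open Pool.Agent.H44W (ee)
open Pool.Agent.H9S (Bd BF Sx Sy)
open Pool.Agent.Lib.H59P (bx)

theorem u6_shift {d : ℕ} (A B : Finset (ℤ × (Fin d → ℤ))) (f : ℤ × (Fin d → ℤ) → ℂ) (v : ℤ × (Fin d → ℤ))
    (hf : ∀ p, p ∉ A → f p = 0) (hAB : ∀ p ∈ A, p - v ∈ B) : ∑ q ∈ B, f (q + v) = ∑ p ∈ A, f p := by
  have h1 : ∑ q ∈ B, f (q + v) = ∑ p ∈ B.map (addRightEmbedding v), f p := by
    rw [Finset.sum_map]
    rfl
  rw [h1]
  symm
  refine Finset.sum_subset (fun p hp => ?_) (fun p _ hp => hf p hp)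
  rw [Finset.mem_map]
  exact ⟨p - v, hAB p hp, sub_add_cancel p v⟩

theorem u6_range {L : ℕ} (g : ℤ → ℂ) : ∑ n ∈ range L, g (n : ℤ) = ∑ n ∈ Ico (0 : ℤ) L, g n := by
  refine Finset.sum_nbij' (fun n => (n : ℤ)) (fun n => n.toNat) ?_ ?_ ?_ ?_ ?_
  · intro n hn
    have := Finset.mem_range.1 hn
    rw [Finset.mem_Ico]
    omega
  · intro n hn
    rw [Finset.mem_Ico] at hn
    rw [Finset.mem_range]
    omega
  · intro n _
    exact Int.toNat_natCast n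
  · intro n hn
    rw [Finset.mem_Ico] at hn
    exact Int.toNat_of_nonneg hn.1
  · intro n _
    rfl

theorem u6_box {d T L : ℕ} (g : ℤ × (Fin d → ℤ) → ℂ) :
    ∑ t ∈ bx d T, ∑ n ∈ range L, g ((n : ℤ), iv t) =
      ∑ p ∈ (Ico (0 : ℤ) L) ×ˢ (Fintype.piFinset fun _ : Fin d => Ico (0 : ℤ) T), g p := by
  rw [Finset.sum_product_right]
  refine Finset.sum_nbij' (fun t => iv t) (fun t j => (t j).toNat) ?_ ?_ ?_ ?_ ?_
  · intro t ht
    rw [bx, Fintype.mem_piFinset] at ht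
    rw [Fintype.mem_piFinset]
    intro j
    have := Finset.mem_range.1 (ht j)
    rw [Finset.mem_Ico, iv]
    omega
  · intro t ht
    rw [Fintype.mem_piFinset] at ht
    rw [bx, Fintype.mem_piFinset]
    intro j
    have := Finset.mem_Ico.1 (ht j)
    rw [Finset.mem_range]
    omega
  · intro t _
    funext j
    exact Int.toNat_natCast (t j)
  · intro t ht
    rw [Fintype.mem_piFinset] at ht
    funext j
    have := Finset.mem_Ico.1 (ht j)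
    exact Int.toNat_of_nonneg this.1
  · intro t _
    exact u6_range (fun n => g (n, iv t))

theorem u6_lin {k d : ℕ} (S : Sys k d) (b : Fin k → ℤ) (n s s' x y : ℤ) (t u u' : Fin d → ℤ) (i : Fin k) :
    S.val b (n + (s * x + s' * y)) (t + fun j => x * u j + y * u' j) i =
      S.val b n t i + S.lin i s u * x + S.lin i s' u' * y := by
  unfold Sys.val Sys.lin
  have h1 : ∑ j, S.c i j * (t + fun j => x * u j + y * u' j) j =
      ∑ j, S.c i j * t j + (∑ j, S.c i j * u j) * x + (∑ j, S.c i j * u' j) * y := by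
    rw [Finset.sum_mul, Finset.sum_mul, ← Finset.sum_add_distrib, ← Finset.sum_add_distrib]
    refine Finset.sum_congr rfl fun j _ => ?_
    rw [Pi.add_apply]
    ring
  rw [h1]
  ring

theorem u6_abs {x X : ℕ} (hx : x < X) (s : ℤ) (c : ℕ) (hc : s.natAbs ≤ c) : |s * (x : ℤ)| ≤ (c : ℤ) * X := by
  rw [abs_mul, Int.abs_eq_natAbs, Int.abs_eq_natAbs, Int.natAbs_natCast]
  have h1 : s.natAbs * x ≤ c * X := Nat.mul_le_mul hc hx.le
  exact_mod_cast h1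

theorem u6_large (κ : ℝ) (hκ : 0 < κ) (A : ℝ) : ∃ X0 : ℕ, ∀ X : ℕ, X0 ≤ X → A ≤ (X : ℝ) ^ (κ / 120) := by
  have h1 : Filter.Tendsto (fun X : ℕ => (X : ℝ) ^ (κ / 120)) Filter.atTop Filter.atTop :=
    (tendsto_rpow_atTop (by positivity)).comp tendsto_natCast_atTop_atTop
  obtain ⟨X0, hX0⟩ := Filter.eventually_atTop.1 (h1.eventually_ge_atTop A)
  exact ⟨X0, hX0⟩

/-- the summand of the theorem as a function on `ℤ × ℤ^d` -/
noncomputable def u6_phi {k d : ℕ} (S : Sys k d) (b : Fin k → ℤ) (i0 : Fin k) (X L T : ℕ) (F : ℤ → ℂ) (G : Fin k → ℤ → ℂ)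
    (W : (Fin d → ℕ) → ℂ) (q : ℤ × (Fin d → ℤ)) : ℂ :=
  if (0 ≤ q.1 ∧ q.1 < (L : ℤ)) ∧ ∀ j, 0 ≤ q.2 j ∧ q.2 j < (T : ℤ) then
    W (fun j => (q.2 j).toNat) * ((∏ i ∈ univ.erase i0, G i (S.val b q.1 q.2 i)) * cutJ X F (S.val b q.1 q.2 i0))
  else 0

/-- Proof. Let `(s, u)`, `(s', u')` be the vectors of `Sys.Half` for `i0`, `e0 = a i0`, `e1 = lin i0 s u`, `e2 = lin i0 s' u'`, and
`Φ(n, t) = [0 ≤ n < L] [t ∈ [0,T)^d] W(t) ∏_{i ≠ i0} G_i(val n t i) cutJ F(val n t i0)` on `ℤ × ℤ^d` (finite support). The sum `S` of the theorem is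
`∑ Φ`. For all `x, y < X` also `S = ∑_{(n,t)} Φ(n + s x + s' y, t + x u + y u')`, where the sum may be restricted to
`t ∈ [-C X, C X]^d`, `n ∈ Ico (-C X) (C X)` (`C` depends on `S`, `C0` only: outside `Φ` vanishes). So
`X² S = ∑_{t} ∑_{x,y<X} ∑_n Φ(…)`, and for each `t` (at most `(2CX+1)^d` of them) the inner sum is of the form of `U5_inner` (`W x y` the cutoff
weight `[t + x u + y u' ∈ box] W(t + x u + y u')`, `G i`, `w i n = lin i n t + b i`, `α i = lin i s u`, `β i = lin i s' u'`, one of them `0` for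
`i ≠ i0`; index the `i ≠ i0` by natural numbers via `Fin.val`). Hence `|S| ≤ X^(-2) (2CX+1)^d X^(3-κ/30) ≤ X^(1 + d - κ/40)`.
Suggestion: write the sum over `t ∈ bx d T` as a sum over integer vectors in `Fintype.piFinset fun _ => Ico (0:ℤ) T`, extended by `0` to
`Fintype.piFinset fun _ => Icc (-(C X)) (C X)`, and use `Finset.sum_bij`/`Finset.sum_nbij'` for the shift. -/
theorem U6_vN {k d : ℕ} (S : Sys k d) (hS : S.Half) (i0 : Fin k) (κ : ℝ) (hκ : 0 < κ) (C0 : ℕ) :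
    ∃ X0 : ℕ, ∀ X : ℕ, X0 ≤ X → ∀ F : ℤ → ℂ, Unif X κ F → ∀ b : Fin k → ℤ, ∀ L T : ℕ, L ≤ C0 * X → T ≤ C0 * X →
    (∀ n ∈ range L, ∀ t ∈ bx d T, S.val b n (iv t) i0 ∈ JJ X) →
    ∀ (G : Fin k → ℤ → ℂ) (W : (Fin d → ℕ) → ℂ), (∀ i, Bd (G i)) → (∀ t, ‖W t‖ ≤ 1) →
    ‖∑ t ∈ bx d T, W t * ∑ n ∈ range L, (∏ i ∈ univ.erase i0, G i (S.val b n (iv t) i)) * F (S.val b n (iv t) i0)‖ ≤
      (X : ℝ) ^ (1 + d - κ / 40) := by
  obtain ⟨ha, hH⟩ := hS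
  obtain ⟨s, s', u, u', he1, he2, hj⟩ := hH i0
  set e1 := S.lin i0 s u with he1d
  set e2 := S.lin i0 s' u' with he2d
  set C : ℕ := C0 + s.natAbs + s'.natAbs + ∑ j, (u j).natAbs + ∑ j, (u' j).natAbs + 1 with hC
  set E : ℕ := 2 * C + e1.natAbs + e2.natAbs + s.natAbs + s'.natAbs with hE
  obtain ⟨X5, hX5⟩ := U5_inner κ hκ E
  obtain ⟨X1, hX1⟩ := u6_large κ hκ ((3 * (C : ℝ)) ^ d)
  refine ⟨X5 + X1 + 1, fun X hX F hF b L T hL hT hJ G W hG hW => ?_⟩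
  have hXpos : 0 < X := by omega
  have hXr : (0 : ℝ) < X := by exact_mod_cast hXpos
  set Φ := u6_phi S b i0 X L T F G W with hΦ
  set A : Finset (ℤ × (Fin d → ℤ)) := (Ico (0 : ℤ) L) ×ˢ (Fintype.piFinset fun _ : Fin d => Ico (0 : ℤ) T) with hA
  set P : Finset (Fin d → ℤ) := Fintype.piFinset fun _ : Fin d => Icc (-((C : ℤ) * X)) ((C : ℤ) * X) with hP
  set N : Finset ℤ := Ico (-((C : ℤ) * X)) ((C : ℤ) * X) with hN
  have h1 : ∑ t ∈ bx d T, W t * ∑ n ∈ range L, (∏ i ∈ univ.erase i0, G i (S.val b n (iv t) i)) * F (S.val b n (iv t) i0) =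
      ∑ p ∈ A, Φ p := by
    rw [hA, ← u6_box]
    refine Finset.sum_congr rfl fun t ht => ?_
    rw [Finset.mul_sum]
    refine Finset.sum_congr rfl fun n hn => ?_
    have hn' := Finset.mem_range.1 hn
    have hc : (0 ≤ (((n : ℤ), iv t) : ℤ × (Fin d → ℤ)).1 ∧ (((n : ℤ), iv t) : ℤ × (Fin d → ℤ)).1 < (L : ℤ)) ∧
        ∀ j, 0 ≤ (((n : ℤ), iv t) : ℤ × (Fin d → ℤ)).2 j ∧ (((n : ℤ), iv t) : ℤ × (Fin d → ℤ)).2 j < (T : ℤ) := by
      refine ⟨⟨Int.natCast_nonneg n, Int.ofNat_lt.2 hn'⟩, fun j => ?_⟩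
      have ht' := ht
      rw [bx, Fintype.mem_piFinset] at ht'
      have := Finset.mem_range.1 (ht' j)
      simp only [iv]
      omega
    rw [hΦ, u6_phi, if_pos hc]
    have e1 : (fun j => ((((n : ℤ), iv t) : ℤ × (Fin d → ℤ)).2 j).toNat) = t := by
      funext j
      exact Int.toNat_natCast (t j)
    rw [e1, cutJ, if_pos (hJ n hn t ht)]
  have h3 : ∀ x ∈ range X, ∀ y ∈ range X,
      ∑ t ∈ P, ∑ n ∈ N, Φ (n + (s * x + s' * y), t + fun j => (x : ℤ) * u j + y * u' j) = ∑ p ∈ A, Φ p := by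
    intro x hx y hy
    have hx' := Finset.mem_range.1 hx
    have hy' := Finset.mem_range.1 hy
    have h4 := u6_shift A (N ×ˢ P) Φ (s * x + s' * y, fun j => (x : ℤ) * u j + y * u' j) (by
      intro p hp
      rw [hΦ, u6_phi, if_neg]
      rintro ⟨⟨h5, h6⟩, h7⟩
      apply hp
      rw [hA, Finset.mem_product, Finset.mem_Ico, Fintype.mem_piFinset]
      exact ⟨⟨h5, h6⟩, fun j => Finset.mem_Ico.2 (h7 j)⟩) (by
      intro p hp
      rw [hA, Finset.mem_product, Finset.mem_Ico, Fintype.mem_piFinset] at hp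
      obtain ⟨⟨h5, h6⟩, h7⟩ := hp
      have hb1 := abs_le.1 (u6_abs hx' s s.natAbs le_rfl)
      have hb2 := abs_le.1 (u6_abs hy' s' s'.natAbs le_rfl)
      have hL' : (L : ℤ) ≤ C0 * X := by exact_mod_cast hL
      have hT' : (T : ℤ) ≤ C0 * X := by exact_mod_cast hT
      have hXz : (0 : ℤ) < X := by exact_mod_cast hXpos
      have hCz : (C : ℤ) = C0 + (s.natAbs : ℤ) + (s'.natAbs : ℤ) + ((∑ j, (u j).natAbs : ℕ) : ℤ) +
          ((∑ j, (u' j).natAbs : ℕ) : ℤ) + 1 := by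
        rw [hC]
        push_cast
        ring
      rw [Finset.mem_product, hN, Finset.mem_Ico, hP, Fintype.mem_piFinset]
      refine ⟨?_, fun j => ?_⟩
      · simp only [Prod.fst_sub]
        rw [hCz]
        have e1 : (0 : ℤ) ≤ ((∑ j, (u j).natAbs : ℕ) : ℤ) * X := by positivity
        have e2 : (0 : ℤ) ≤ ((∑ j, (u' j).natAbs : ℕ) : ℤ) * X := by positivity
        have e3 : (0 : ℤ) ≤ (C0 : ℤ) * X := by positivity
        have e4 : (0 : ℤ) ≤ (s.natAbs : ℤ) * X := by positivity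
        have e5 : (0 : ℤ) ≤ (s'.natAbs : ℤ) * X := by positivity
        constructor
        · linarith
        · linarith
      · have h8 := Finset.mem_Ico.1 (h7 j)
        have hc1 : (u j).natAbs ≤ ∑ j, (u j).natAbs := Finset.single_le_sum (f := fun j => (u j).natAbs) (fun _ _ => Nat.zero_le _) (Finset.mem_univ j)
        have hc2 : (u' j).natAbs ≤ ∑ j, (u' j).natAbs := Finset.single_le_sum (f := fun j => (u' j).natAbs) (fun _ _ => Nat.zero_le _) (Finset.mem_univ j)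
        have hb3 := abs_le.1 (u6_abs hx' (u j) _ hc1)
        have hb4 := abs_le.1 (u6_abs hy' (u' j) _ hc2)
        rw [Finset.mem_Icc]
        simp only [Prod.snd_sub, Pi.sub_apply]
        rw [hCz]
        have e3 : (0 : ℤ) ≤ (C0 : ℤ) * X := by positivity
        have e4 : (0 : ℤ) ≤ (s.natAbs : ℤ) * X := by positivity
        have e5 : (0 : ℤ) ≤ (s'.natAbs : ℤ) * X := by positivity
        rw [mul_comm (x : ℤ) (u j), mul_comm (y : ℤ) (u' j)]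
        constructor
        · linarith
        · linarith)
    rw [Finset.sum_product_right] at h4
    rw [← h4]
    rfl
  have h5 : ((X : ℂ) ^ 2) * ∑ p ∈ A, Φ p =
      ∑ t ∈ P, ∑ x ∈ range X, ∑ y ∈ range X, ∑ n ∈ N, Φ (n + (s * x + s' * y), t + fun j => (x : ℤ) * u j + y * u' j) := by
    have e1 : ∑ x ∈ range X, ∑ y ∈ range X, ∑ t ∈ P, ∑ n ∈ N,
        Φ (n + (s * x + s' * y), t + fun j => (x : ℤ) * u j + y * u' j) = ((X : ℂ) ^ 2) * ∑ p ∈ A, Φ p := by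
      rw [Finset.sum_congr rfl fun x hx => Finset.sum_congr rfl fun y hy => h3 x hx y hy]
      simp only [Finset.sum_const, Finset.card_range, nsmul_eq_mul]
      ring
    rw [← e1]
    have e2 : ∀ x ∈ range X, ∑ y ∈ range X, ∑ t ∈ P, ∑ n ∈ N,
        Φ (n + (s * x + s' * y), t + fun j => (x : ℤ) * u j + y * u' j) = ∑ t ∈ P, ∑ y ∈ range X, ∑ n ∈ N,
        Φ (n + (s * x + s' * y), t + fun j => (x : ℤ) * u j + y * u' j) := fun x _ => Finset.sum_comm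
    rw [Finset.sum_congr rfl e2, Finset.sum_comm]
  have hEz1 : |e1| ≤ (E : ℤ) := by
    rw [Int.abs_eq_natAbs]
    exact_mod_cast (show e1.natAbs ≤ E by omega)
  have hEz2 : |e2| ≤ (E : ℤ) := by
    rw [Int.abs_eq_natAbs]
    exact_mod_cast (show e2.natAbs ≤ E by omega)
  have hEz3 : |s| ≤ (E : ℤ) := by
    rw [Int.abs_eq_natAbs]
    exact_mod_cast (show s.natAbs ≤ E by omega)
  have hEz4 : |s'| ≤ (E : ℤ) := by
    rw [Int.abs_eq_natAbs]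
    exact_mod_cast (show s'.natAbs ≤ E by omega)
  have hEn : (C : ℤ) * X - (-((C : ℤ) * X)) ≤ (E : ℤ) * X := by
    have : (2 * C : ℕ) ≤ E := by omega
    have h6 : ((2 * C : ℕ) : ℤ) ≤ (E : ℤ) := by exact_mod_cast this
    have h7 : ((2 * C : ℕ) : ℤ) * X ≤ (E : ℤ) * X := mul_le_mul_of_nonneg_right h6 (by positivity)
    push_cast at h7
    linarith
  have h6 : ∀ t ∈ P, ‖∑ x ∈ range X, ∑ y ∈ range X, ∑ n ∈ N,
      Φ (n + (s * x + s' * y), t + fun j => (x : ℤ) * u j + y * u' j)‖ ≤ (X : ℝ) ^ (3 - κ / 30) := by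
    intro t _
    set G' : ℕ → ℤ → ℂ := fun i m => if h : i < k then G ⟨i, h⟩ m else 0 with hG'
    set W' : ℕ → ℕ → ℂ := fun x y => if ∀ j, 0 ≤ t j + ((x : ℤ) * u j + y * u' j) ∧ t j + ((x : ℤ) * u j + y * u' j) < (T : ℤ) then
      W (fun j => (t j + ((x : ℤ) * u j + y * u' j)).toNat) else 0 with hW'
    have h7 := hX5 X (by omega) F hF (S.a i0) e1 e2 (∑ j, S.c i0 j * t j + b i0) s s' (ha i0) he1 he2 hEz1 hEz2 hEz3 hEz4
      (-((C : ℤ) * X)) ((C : ℤ) * X) 0 L hEn W' (by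
        intro x y
        rw [hW']
        dsimp only
        split_ifs
        · exact hW _
        · rw [norm_zero]
          exact zero_le_one) ((univ.erase i0).map Fin.valEmbedding) G'
      (fun i n => if h : i < k then S.val b n t ⟨i, h⟩ else 0) (fun i => if h : i < k then S.lin ⟨i, h⟩ s u else 0)
      (fun i => if h : i < k then S.lin ⟨i, h⟩ s' u' else 0) (by
        intro i m
        rw [hG']
        dsimp only
        split_ifs with h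
        · exact hG ⟨i, h⟩ m
        · rw [norm_zero]
          exact zero_le_one) (by
        intro i hi
        rw [Finset.mem_map] at hi
        obtain ⟨i', hi', rfl⟩ := hi
        have h8 : (Fin.valEmbedding i' : ℕ) < k := i'.2
        simp only [dif_pos h8]
        exact hj i' (Finset.mem_erase.1 hi').1)
    refine le_trans (le_of_eq (congrArg _ ?_)) h7
    refine Finset.sum_congr rfl fun x _ => Finset.sum_congr rfl fun y _ => Finset.sum_congr rfl fun n _ => ?_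
    rw [Finset.prod_map, hΦ, u6_phi]
    have e3 : ∀ i : Fin k, S.val b (n + (s * x + s' * y)) (t + fun j => (x : ℤ) * u j + y * u' j) i =
        S.val b n t i + S.lin i s u * x + S.lin i s' u' * y := fun i => u6_lin S b n s s' x y t u u' i
    have e4 : ∏ i ∈ univ.erase i0, G' (Fin.valEmbedding i) ((if h : (Fin.valEmbedding i : ℕ) < k then S.val b n t ⟨Fin.valEmbedding i, h⟩ else 0) +
        (if h : (Fin.valEmbedding i : ℕ) < k then S.lin ⟨Fin.valEmbedding i, h⟩ s u else 0) * (x : ℤ) +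
        (if h : (Fin.valEmbedding i : ℕ) < k then S.lin ⟨Fin.valEmbedding i, h⟩ s' u' else 0) * (y : ℤ)) =
        ∏ i ∈ univ.erase i0, G i (S.val b n t i + S.lin i s u * x + S.lin i s' u' * y) := by
      refine Finset.prod_congr rfl fun i _ => ?_
      have h8 : (Fin.valEmbedding i : ℕ) < k := i.2
      rw [dif_pos h8, dif_pos h8, dif_pos h8, hG']
      dsimp only
      rw [dif_pos h8]
      rfl
    rw [e4]
    have e5 : S.a i0 * n + e1 * x + e2 * y + (∑ j, S.c i0 j * t j + b i0) = S.val b n t i0 + S.lin i0 s u * x + S.lin i0 s' u' * y := by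
      rw [he1d, he2d]
      unfold Sys.val
      unfold Sys.lin
      ring
    rw [e5]
    dsimp only
    simp only [e3]
    by_cases hc1 : 0 ≤ n + s * x + s' * y ∧ n + s * x + s' * y < (L : ℤ)
    · by_cases hc2 : ∀ j, 0 ≤ t j + ((x : ℤ) * u j + y * u' j) ∧ t j + ((x : ℤ) * u j + y * u' j) < (T : ℤ)
      · have hc : (0 ≤ n + (s * x + s' * y) ∧ n + (s * x + s' * y) < (L : ℤ)) ∧
            ∀ j, 0 ≤ (t + fun j => (x : ℤ) * u j + y * u' j) j ∧ (t + fun j => (x : ℤ) * u j + y * u' j) j < (T : ℤ) := by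
          refine ⟨⟨by linarith [hc1.1], by linarith [hc1.2]⟩, hc2⟩
        rw [if_pos hc, if_pos hc1, hW']
        dsimp only
        rw [if_pos hc2, one_mul, mul_assoc]
        rfl
      · have hc : ¬ ((0 ≤ n + (s * x + s' * y) ∧ n + (s * x + s' * y) < (L : ℤ)) ∧
            ∀ j, 0 ≤ (t + fun j => (x : ℤ) * u j + y * u' j) j ∧ (t + fun j => (x : ℤ) * u j + y * u' j) j < (T : ℤ)) :=
          fun h => hc2 h.2
        rw [if_neg hc, hW']
        dsimp only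
        rw [if_neg hc2, mul_zero, zero_mul, zero_mul]
    · have hc : ¬ ((0 ≤ n + (s * x + s' * y) ∧ n + (s * x + s' * y) < (L : ℤ)) ∧
          ∀ j, 0 ≤ (t + fun j => (x : ℤ) * u j + y * u' j) j ∧ (t + fun j => (x : ℤ) * u j + y * u' j) j < (T : ℤ)) :=
        fun h => hc1 ⟨by linarith [h.1.1], by linarith [h.1.2]⟩
      rw [if_neg hc, if_neg hc1, zero_mul, zero_mul, zero_mul]
  rw [h1]
  have hcard : (P.card : ℝ) ≤ (3 * (C : ℝ)) ^ d * (X : ℝ) ^ d := by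
    rw [hP, Fintype.card_piFinset]
    simp only [Int.card_Icc, Finset.prod_const, Finset.card_univ, Fintype.card_fin]
    rw [← mul_pow]
    push_cast
    refine pow_le_pow_left₀ (by positivity) ?_ d
    have h9 : ((C : ℤ) * X + 1 - -((C : ℤ) * X)).toNat = 2 * C * X + 1 := by
      have : (C : ℤ) * X + 1 - -((C : ℤ) * X) = ((2 * C * X + 1 : ℕ) : ℤ) := by
        push_cast
        ring
      rw [this, Int.toNat_natCast]
    rw [h9]
    have h10 : 1 ≤ C * X := Nat.one_le_iff_ne_zero.2 (Nat.mul_ne_zero (by omega) (by omega))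
    have h11 : 2 * C * X + 1 ≤ 3 * C * X := by nlinarith
    exact_mod_cast h11
  have h7 : (X : ℝ) ^ 2 * ‖∑ p ∈ A, Φ p‖ ≤ (3 * (C : ℝ)) ^ d * (X : ℝ) ^ d * (X : ℝ) ^ (3 - κ / 30) := by
    have e1 : (X : ℝ) ^ 2 * ‖∑ p ∈ A, Φ p‖ = ‖((X : ℂ) ^ 2) * ∑ p ∈ A, Φ p‖ := by
      rw [norm_mul, norm_pow, Complex.norm_natCast]
    rw [e1, h5]
    refine le_trans (norm_sum_le _ _) (le_trans (Finset.sum_le_sum h6) ?_)
    rw [Finset.sum_const, nsmul_eq_mul]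
    exact mul_le_mul_of_nonneg_right hcard (by positivity)
  have h8 : (3 * (C : ℝ)) ^ d * (X : ℝ) ^ d * (X : ℝ) ^ (3 - κ / 30) ≤ (X : ℝ) ^ 2 * (X : ℝ) ^ (1 + d - κ / 40) := by
    have e1 : (3 * (C : ℝ)) ^ d ≤ (X : ℝ) ^ (κ / 120) := hX1 X (by omega)
    have e2 : (X : ℝ) ^ (κ / 120) * (X : ℝ) ^ d * (X : ℝ) ^ (3 - κ / 30) = (X : ℝ) ^ 2 * (X : ℝ) ^ (1 + d - κ / 40) := by
      rw [← Real.rpow_natCast (X : ℝ) d, ← Real.rpow_natCast (X : ℝ) 2, ← Real.rpow_add hXr, ← Real.rpow_add hXr, ← Real.rpow_add hXr]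
      congr 1
      push_cast
      ring
    rw [← e2]
    exact mul_le_mul_of_nonneg_right (mul_le_mul_of_nonneg_right e1 (by positivity)) (by positivity)
  exact le_of_mul_le_mul_left (h7.trans h8) (by positivity)

end Pool.Agent.H9U
end

-- from Lib.H9U.U7
section

/-!
# H9U, chunk U7 (M): replacing the primes by their projections, for almost all `t`
-/

open Finset

namespace Pool.Agent.H9U

open Pool.Agent.H9S (Bd)
open Pool.Agent.Lib.H68T (lp Lk)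
open Pool.Agent.Lib.H59P (bx)

theorem u7_abs {ι : Type*} (s : Finset ι) (R : ι → ℝ) : ∃ W : ι → ℂ, (∀ t, ‖W t‖ ≤ 1) ∧
    ∑ t ∈ s, |R t| = ‖∑ t ∈ s, W t * ((R t : ℝ) : ℂ)‖ := by
  refine ⟨fun t => if 0 ≤ R t then 1 else -1, fun t => ?_, ?_⟩
  · dsimp only
    split_ifs <;> simp
  have h : ∑ t ∈ s, (if 0 ≤ R t then (1:ℂ) else -1) * ((R t : ℝ) : ℂ) =
      ((∑ t ∈ s, |R t| : ℝ) : ℂ) := by
    rw [Complex.ofReal_sum]
    refine Finset.sum_congr rfl fun t _ => ?_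
    split_ifs with h
    · rw [abs_of_nonneg h, one_mul]
    · rw [abs_of_neg (not_le.1 h)]; push_cast; ring
  rw [h, Complex.norm_real, Real.norm_of_nonneg (Finset.sum_nonneg fun _ _ => abs_nonneg _)]

theorem u7_one {k d : ℕ} (S : Sys k d) (j : Fin k) (Xs : Fin k → ℕ)
    (b : Fin k → ℤ) (L T : ℕ) (v : Fin k → ℤ → ℝ) (M : ℝ) (hM : 0 < M)
    (hv : ∀ i, ∀ m : ℤ, (Xs i : ℤ) ≤ m → m ≤ 4 * Xs i → |v i m| ≤ M)
    (F : ℤ → ℂ) (f : ℤ → ℝ) (hF : ∀ m, F m = ((f m : ℝ) : ℂ))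
    (hval : ∀ i, ∀ n ∈ range L, ∀ t ∈ bx d T, S.val b n (iv t) i ∈ JJ (Xs i))
    (B : ℝ) (hvN : ∀ (G : Fin k → ℤ → ℂ) (W : (Fin d → ℕ) → ℂ), (∀ i, Bd (G i)) → (∀ t, ‖W t‖ ≤ 1) →
      ‖∑ t ∈ bx d T, W t * ∑ n ∈ range L, (∏ i ∈ univ.erase j, G i (S.val b n (iv t) i)) *
        F (S.val b n (iv t) j)‖ ≤ B) :
    ∑ t ∈ bx d T, |∑ n ∈ range L, (∏ i ∈ univ.erase j, v i (S.val b n (iv t) i)) * f (S.val b n (iv t) j)| ≤
      M ^ (k - 1) * B := by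
  obtain ⟨W, hW, hWe⟩ := u7_abs (bx d T)
    (fun t => ∑ n ∈ range L, (∏ i ∈ univ.erase j, v i (S.val b n (iv t) i)) * f (S.val b n (iv t) j))
  rw [hWe]
  have hG := hvN (fun i m => if (Xs i : ℤ) ≤ m ∧ m ≤ 4 * Xs i then ((v i m / M : ℝ) : ℂ) else 0) W
    (fun i m => by
      dsimp only
      split_ifs with h
      · rw [Complex.norm_real, Real.norm_eq_abs, abs_div, abs_of_pos hM, div_le_one hM]
        exact hv i m h.1 h.2
      · simp) hW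
  have hMk : (0:ℝ) < M ^ (k - 1) := pow_pos hM _
  have hkey : ∑ t ∈ bx d T, W t * ((∑ n ∈ range L, (∏ i ∈ univ.erase j, v i (S.val b n (iv t) i)) *
      f (S.val b n (iv t) j) : ℝ) : ℂ) = ((M ^ (k - 1) : ℝ) : ℂ) * ∑ t ∈ bx d T, W t * ∑ n ∈ range L,
        (∏ i ∈ univ.erase j, (fun i (m : ℤ) => if (Xs i : ℤ) ≤ m ∧ m ≤ 4 * Xs i then
          ((v i m / M : ℝ) : ℂ) else 0) i (S.val b n (iv t) i)) * F (S.val b n (iv t) j) := by
    rw [Finset.mul_sum]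
    refine Finset.sum_congr rfl fun t ht => ?_
    rw [mul_left_comm, Finset.mul_sum, Complex.ofReal_sum]
    refine congrArg (fun z => W t * z) (Finset.sum_congr rfl fun n hn => ?_)
    have h1 : ∏ i ∈ univ.erase j, (fun i (m : ℤ) => if (Xs i : ℤ) ≤ m ∧ m ≤ 4 * Xs i then
          ((v i m / M : ℝ) : ℂ) else 0) i (S.val b n (iv t) i) =
        ((∏ i ∈ univ.erase j, (v i (S.val b n (iv t) i) / M) : ℝ) : ℂ) := by
      rw [Complex.ofReal_prod]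
      refine Finset.prod_congr rfl fun i _ => ?_
      have hm := Finset.mem_Ico.1 (hval i n hn t ht)
      have h2 : (Xs i : ℤ) ≤ S.val b n (iv t) i ∧ S.val b n (iv t) i ≤ 4 * Xs i := by
        constructor <;> omega
      dsimp only
      rw [if_pos h2]
    rw [h1, Finset.prod_div_distrib, Finset.prod_const, Finset.card_erase_of_mem (Finset.mem_univ j),
      Finset.card_univ, Fintype.card_fin, hF]
    have hne : ((M ^ (k - 1) : ℝ) : ℂ) ≠ 0 := by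
      exact_mod_cast hMk.ne'
    rw [Complex.ofReal_mul, Complex.ofReal_div]
    field_simp
  rw [hkey, norm_mul, Complex.norm_real, Real.norm_of_nonneg hMk.le]
  exact mul_le_mul_of_nonneg_left hG hMk.le

theorem u7_large (A c : ℝ) (hc : 0 < c) : ∃ X0 : ℕ, ∀ X : ℕ, X0 ≤ X → A ≤ (X : ℝ) ^ c := by
  have h := ((tendsto_rpow_atTop hc).comp tendsto_natCast_atTop_atTop).eventually
    (Filter.eventually_ge_atTop A)
  obtain ⟨X0, h0⟩ := Filter.eventually_atTop.1 h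
  exact ⟨X0, fun X hX => h0 X hX⟩

/-- Proof. `K` the maximum of the constants of `U0_unif`, `U0_size` (`RegP.mono`; `Rgm` with a larger `K` is stronger). Let `κ0` be the exponent of
`U0_unif Cr θ`, `ε = κ0/(1000 (k+1))`. Telescoping (`S3` in `H59P/S3.lean`) with `a i = lp (val i)`, `b i = Lk Q' (X_i/Q²) (val i)`: a sum of `k` terms,
in the `j`-th the factor at `j` is `Er Q Q' (X_j) (val j)` (a real number) and the others are `lp` or `Lk Q'`, bounded by `(4 C0 X)^ε ≤ X^(2ε)` on the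
relevant values (`U0_size`, `U0_lp`; `JJ X_i ⊆ [X_i, 4 X_i]`). The absolute value of the sum over `n` is the sum times a sign `W(t) = ±1`. `U6_vN` with
`X := X_j` (`L ≤ C0 X ≤ C0 X_j`), `F = Er Q Q' X_j`, `G i = (lp or Lk Q' (X_i/Q²), restricted to [X_i, 4X_i])/X^(2ε)`: at most
`X^(2kε) (C0 X)^(1 + d - κ0/40)`. Sum over `j`: `κ = κ0/50`, `X` large. -/
theorem U7_tel (hI : Pool.Agent.H9S.INV) {k d : ℕ} (S : Sys k d) (hS : S.Half) : ∃ K : ℝ, 1 ≤ K ∧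
    ∀ Cr θ : ℝ, 1 ≤ Cr → 0 < θ → ∀ C0 : ℕ, ∃ κ : ℝ, 0 < κ ∧ ∃ X0 : ℕ, ∀ Q Q' X : ℕ, X0 ≤ X → ∀ Xs : Fin k → ℕ,
    (∀ i, X ≤ Xs i ∧ Xs i ≤ C0 * X) → (∀ i, Rgm K Cr θ Q Q' (Xs i)) → ∀ (b : Fin k → ℤ) (L T : ℕ), L ≤ C0 * X → T ≤ C0 * X →
    (∀ i, ∀ n ∈ range L, ∀ t ∈ bx d T, S.val b n (iv t) i ∈ JJ (Xs i)) →
    ∑ t ∈ bx d T, |∑ n ∈ range L, (∏ i, lp (S.val b n (iv t) i) - ∏ i, Lk Q' (Xs i / Q ^ 2) (S.val b n (iv t) i))| ≤
      (X : ℝ) ^ (1 + d - κ) := by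
  obtain ⟨K1, hK1, hU⟩ := U0_unif hI
  obtain ⟨K2, hK2, hS2⟩ := U0_size
  refine ⟨max K1 K2, le_trans hK1 (le_max_left _ _), ?_⟩
  intro Cr θ hCr hθ C0
  obtain ⟨κ0, hκ0, hκ01, X1, hX1⟩ := hU Cr θ hCr hθ
  have hk0 : (0:ℝ) < (k:ℝ) + 1 := by positivity
  obtain ⟨ε, hεd⟩ : ∃ ε : ℝ, ε = κ0 / (1000 * ((k:ℝ) + 1)) := ⟨_, rfl⟩
  have hε : 0 < ε := by rw [hεd]; positivity
  obtain ⟨X2, hX2⟩ := hS2 ε hε
  obtain ⟨X3, hX3⟩ := U0_lp ε hε
  choose X4 hX4 using fun j : Fin k => U6_vN S hS j κ0 hκ0 C0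
  obtain ⟨X5, hX5⟩ := u7_large ((k:ℝ) * (C0:ℝ) ^ ((2:ℝ) + d)) (κ0 / 250) (by positivity)
  refine ⟨κ0 / 50, by positivity, max (max (max X1 X2) (max X3 X5)) (max 1 (∑ j, X4 j)), ?_⟩
  intro Q Q' X hX Xs hXs hR b L T hL hT hval
  have hXX1 : X1 ≤ X := le_trans (le_trans (le_trans (le_max_left _ _) (le_max_left _ _)) (le_max_left _ _)) hX
  have hXX2 : X2 ≤ X := le_trans (le_trans (le_trans (le_max_right _ _) (le_max_left _ _)) (le_max_left _ _)) hX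
  have hXX3 : X3 ≤ X := le_trans (le_trans (le_trans (le_max_left _ _) (le_max_right _ _)) (le_max_left _ _)) hX
  have hXX5 : X5 ≤ X := le_trans (le_trans (le_trans (le_max_right _ _) (le_max_right _ _)) (le_max_left _ _)) hX
  have hXone : 1 ≤ X := le_trans (le_trans (le_max_left _ _) (le_max_right _ _)) hX
  have hXX4 : ∀ j, X4 j ≤ X := fun j =>
    le_trans (Finset.single_le_sum (f := X4) (fun _ _ => Nat.zero_le _) (Finset.mem_univ j))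
      (le_trans (le_trans (le_max_right _ _) (le_max_right _ _)) hX)
  have hX1r : (1:ℝ) ≤ (X:ℝ) := by exact_mod_cast hXone
  have hX0r : (0:ℝ) < (X:ℝ) := by linarith
  -- reduction to the terms
  have hred : ∑ t ∈ bx d T, |∑ n ∈ range L, (∏ i, lp (S.val b n (iv t) i) -
      ∏ i, Lk Q' (Xs i / Q ^ 2) (S.val b n (iv t) i))| ≤
      ∑ j : Fin k, ∑ t ∈ bx d T, |∑ n ∈ range L, (∏ i ∈ univ.erase j,
        (fun i (m : ℤ) => if i < j then Lk Q' (Xs i / Q ^ 2) m else lp m) i (S.val b n (iv t) i)) *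
        (fun m : ℤ => lp m - Lk Q' (Xs j / Q ^ 2) m) (S.val b n (iv t) j)| := by
    rw [Finset.sum_comm]
    refine Finset.sum_le_sum fun t _ => ?_
    refine le_trans (le_of_eq (congrArg abs ?_)) (Finset.abs_sum_le_sum_abs _ _)
    rw [Finset.sum_comm]
    refine Finset.sum_congr rfl fun n _ => ?_
    rw [Pool.Agent.Lib.H59P.S3]
    refine Finset.sum_congr rfl fun j _ => ?_
    rw [← Finset.prod_erase_mul univ _ (Finset.mem_univ j)]
    dsimp only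
    rw [if_neg (lt_irrefl j), if_pos rfl]
    refine congrArg (fun z => z * _) (Finset.prod_congr rfl fun i hi => ?_)
    rw [if_neg (Finset.ne_of_mem_erase hi)]
  refine le_trans hred ?_
  have hterm : ∀ j : Fin k, ∑ t ∈ bx d T, |∑ n ∈ range L, (∏ i ∈ univ.erase j,
        (fun i (m : ℤ) => if i < j then Lk Q' (Xs i / Q ^ 2) m else lp m) i (S.val b n (iv t) i)) *
        (fun m : ℤ => lp m - Lk Q' (Xs j / Q ^ 2) m) (S.val b n (iv t) j)| ≤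
        (C0:ℝ) ^ ((2:ℝ) + d) * (X:ℝ) ^ (1 + d - κ0 * (6/250)) := by
    intro j
    have hC0 : 1 ≤ C0 := by
      rcases Nat.eq_zero_or_pos C0 with h | h
      · have := hXs j
        rw [h] at this
        omega
      · exact h
    have hC0r : (1:ℝ) ≤ (C0:ℝ) := by exact_mod_cast hC0
    have hCX : (1:ℝ) ≤ (C0:ℝ) * X := by nlinarith
    have hXi : ∀ i, (1:ℝ) ≤ (Xs i : ℝ) ∧ (Xs i : ℝ) ≤ (C0:ℝ) * X := fun i =>
      ⟨by exact_mod_cast le_trans hXone (hXs i).1, by exact_mod_cast (hXs i).2⟩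
    have hQ' : 1 ≤ Q' := by
      have h1 := (hR j).low
      have h2 : (1:ℝ) ≤ (Xs j : ℝ) ^ θ := Real.one_le_rpow (hXi j).1 hθ.le
      exact_mod_cast le_trans h2 h1
    have hM : (0:ℝ) < ((C0:ℝ) * X) ^ ε := Real.rpow_pos_of_pos (by linarith) _
    have hRj : ∀ i, Pool.Agent.Lib.H18Q.RegP K2 Q (Xs i) := fun i =>
      (hR i).reg.mono (by linarith [le_max_left K1 K2]) (le_max_right _ _)
    have hRg : Rgm K1 Cr θ Q Q' (Xs j) :=
      ⟨(hR j).reg.mono (by linarith [le_max_left K1 K2]) (le_max_left _ _), (hR j).log, (hR j).low, (hR j).le⟩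
    have h := u7_one S j Xs b L T (fun i (m : ℤ) => if i < j then Lk Q' (Xs i / Q ^ 2) m else lp m)
      (((C0:ℝ) * X) ^ ε) hM (fun i m hm1 hm2 => by
        have hle : (Xs i : ℝ) ^ ε ≤ ((C0:ℝ) * X) ^ ε :=
          Real.rpow_le_rpow (by linarith [(hXi i).1]) (hXi i).2 hε.le
        split_ifs
        · exact le_trans (hX2 Q Q' (Xs i) (le_trans hXX2 (hXs i).1) (hRj i) hQ' (hR i).le m hm1 hm2) hle
        · exact le_trans (hX3 (Xs i) (le_trans hXX3 (hXs i).1) m hm2) hle)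
      (Er Q Q' (Xs j)) (fun m : ℤ => lp m - Lk Q' (Xs j / Q ^ 2) m)
      (fun m => by simp [Er, Pool.Agent.H9S.lc, Pool.Agent.H9S.Lc]) hval
      ((Xs j : ℝ) ^ (1 + d - κ0 / 40))
      (fun G W hG hW => hX4 j (Xs j) (le_trans (hXX4 j) (hXs j).1) (Er Q Q' (Xs j))
        (hX1 Q Q' (Xs j) (le_trans hXX1 (hXs j).1) hRg) b L T
        (le_trans hL (Nat.mul_le_mul_left _ (hXs j).1)) (le_trans hT (Nat.mul_le_mul_left _ (hXs j).1))
        (fun n hn t ht => hval j n hn t ht) G W hG hW)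
    refine le_trans h ?_
    have hd0 : (0:ℝ) ≤ (d:ℝ) := Nat.cast_nonneg d
    have he1 : (0:ℝ) ≤ 1 + d - κ0 / 40 := by linarith
    have h2 : (Xs j : ℝ) ^ (1 + d - κ0 / 40) ≤ ((C0:ℝ) * X) ^ (1 + d - κ0 / 40) :=
      Real.rpow_le_rpow (by linarith [(hXi j).1]) (hXi j).2 he1
    have h3 : (((C0:ℝ) * X) ^ ε) ^ (k - 1) ≤ ((C0:ℝ) * X) ^ (κ0 / 1000) := by
      rw [← Real.rpow_natCast, ← Real.rpow_mul (by linarith)]
      refine Real.rpow_le_rpow_of_exponent_le hCX ?_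
      have h4 : ((k - 1 : ℕ) : ℝ) ≤ (k:ℝ) + 1 := by
        have : ((k - 1 : ℕ) : ℝ) ≤ (k:ℝ) := by exact_mod_cast Nat.sub_le k 1
        linarith
      calc ε * ((k - 1 : ℕ) : ℝ) ≤ ε * ((k:ℝ) + 1) := mul_le_mul_of_nonneg_left h4 hε.le
        _ = κ0 / 1000 := by rw [hεd]; field_simp
    calc (((C0:ℝ) * X) ^ ε) ^ (k - 1) * (Xs j : ℝ) ^ (1 + d - κ0 / 40)
        ≤ ((C0:ℝ) * X) ^ (κ0 / 1000) * ((C0:ℝ) * X) ^ (1 + d - κ0 / 40) :=
          mul_le_mul h3 h2 (by positivity) (by positivity)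
      _ = ((C0:ℝ) * X) ^ (1 + d - κ0 * (6/250)) := by
          rw [← Real.rpow_add (by linarith)]
          ring_nf
      _ = (C0:ℝ) ^ (1 + d - κ0 * (6/250)) * (X:ℝ) ^ (1 + d - κ0 * (6/250)) :=
          Real.mul_rpow (by linarith) (by linarith)
      _ ≤ (C0:ℝ) ^ ((2:ℝ) + d) * (X:ℝ) ^ (1 + d - κ0 * (6/250)) := by
          refine mul_le_mul_of_nonneg_right ?_ (by positivity)
          exact Real.rpow_le_rpow_of_exponent_le hC0r (by linarith)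
  refine le_trans (Finset.sum_le_sum fun j _ => hterm j) ?_
  rw [Finset.sum_const, Finset.card_univ, Fintype.card_fin, nsmul_eq_mul]
  have h5 := hX5 X hXX5
  calc (k:ℝ) * ((C0:ℝ) ^ ((2:ℝ) + d) * (X:ℝ) ^ (1 + d - κ0 * (6/250)))
      = (k:ℝ) * (C0:ℝ) ^ ((2:ℝ) + d) * (X:ℝ) ^ (1 + d - κ0 * (6/250)) := by ring
    _ ≤ (X:ℝ) ^ (κ0 / 250) * (X:ℝ) ^ (1 + d - κ0 * (6/250)) :=
        mul_le_mul_of_nonneg_right h5 (by positivity)
    _ = (X:ℝ) ^ (1 + d - κ0 / 50) := by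
        rw [← Real.rpow_add hX0r]
        ring_nf

end Pool.Agent.H9U
end

-- from Lib.H9U.M4
section

/-!
# H9U, chunk M4 (M): the sum over a cell of the components of small modulus
-/

open Finset

namespace Pool.Agent.H9U

open Pool.Agent.Lib.H68T (PC p0)
open Pool.Agent.Lib.H18Q (gk KS)
open Pool.Agent.Lib.H59P (Ch cj uu gl pr SF)

/-- Proof. As `M4` (`H59P/M4.lean`): `M2S` for each `n`, then `M3S` for each `e ∈ SF (D/R) R`, `M3b`. -/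
theorem M4S {k d : ℕ} (S : Sys k d) (b : Fin k → ℤ) (t : Fin d → ℤ) (Q D R : ℕ) (hDQ : D ≤ Q) (hR : 0 < R)
    (p : Fin k → Ch) (hp : ∀ i, p i ∈ PC Q) (hd : ∀ i, (p i).1 ∣ R) (a H : ℕ)
    (hv : ∀ n ∈ Ico a (a + H), ∀ i, 0 ≤ S.val b n t i) :
    ‖∑ n ∈ Ico a (a + H),
      ∑ κ ∈ (Fintype.piFinset fun i => KS Q (p i).1).filter (fun κ => R.lcm (univ.lcm κ) ≤ D),
        ∏ i, gk (p i) (κ i) (S.val b n t i) -
      H * (MRS S b t p R * ((∑ e ∈ SF (D / R) R, tdS S b t e : ℝ) : ℂ))‖ ≤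
      2 * (D : ℝ) ^ 2 * (2 * (1 + Real.log Q)) ^ (2 * k) := by
  have e1 : ∑ n ∈ Ico a (a + H),
      ∑ κ ∈ (Fintype.piFinset fun i => KS Q (p i).1).filter (fun κ => R.lcm (univ.lcm κ) ≤ D),
        ∏ i, gk (p i) (κ i) (S.val b n t i) =
      ∑ e ∈ SF (D / R) R, ∑ n ∈ Ico a (a + H), PhV p R.primeFactors (fun i => S.val b n t i) *
        ((WdV e (fun i => S.val b n t i) : ℝ) : ℂ) := by
    symm
    rw [sum_comm]
    refine sum_congr rfl fun n hn => ?_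
    rw [M2S Q D R hDQ hR p hp hd (fun i => S.val b n t i) (fun i => hv n hn i), mul_sum]
  have e2 : (H : ℂ) * (MRS S b t p R * ((∑ e ∈ SF (D / R) R, tdS S b t e : ℝ) : ℂ)) =
      ∑ e ∈ SF (D / R) R, (H : ℂ) * (MRS S b t p R * ((tdS S b t e : ℝ) : ℂ)) := by
    push_cast
    rw [mul_sum, mul_sum]
  rw [e1, e2, ← sum_sub_distrib]
  have key : ∀ e ∈ SF (D / R) R, ‖∑ n ∈ Ico a (a + H), PhV p R.primeFactors (fun i => S.val b n t i) *
      ((WdV e (fun i => S.val b n t i) : ℝ) : ℂ) -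
      (H : ℂ) * (MRS S b t p R * ((tdS S b t e : ℝ) : ℂ))‖ ≤
      2 * (D : ℝ) * (2 * (1 + Real.log Q)) ^ (2 * k) := by
    intro e hdm
    have hdm' : (1 ≤ e ∧ e ≤ D / R) ∧ Squarefree e ∧ Nat.Coprime e R := by
      simpa [SF] using hdm
    obtain ⟨⟨h1, h2⟩, h3, h4⟩ := hdm'
    have h5 := M3S S b t p R e hR hd h3 h4 a H
    have h6 : R * e ≤ D := by
      have := (Nat.le_div_iff_mul_le hR).1 h2
      rwa [mul_comm] at this
    have hRD : R ≤ D := le_trans (Nat.le_mul_of_pos_right R h1) h6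
    have hdD : e ≤ D := le_trans (Nat.le_mul_of_pos_left e hR) h6
    have hlog : ∀ m : ℕ, 1 ≤ m → m ≤ D → (m : ℝ) / (Nat.totient m : ℝ) ≤ 2 * (1 + Real.log Q) := by
      intro m hm hmD
      refine (Pool.Agent.Lib.H59P.M3b m hm).trans ?_
      have hm0 : (0 : ℝ) < m := by exact_mod_cast hm
      have : Real.log m ≤ Real.log Q :=
        Real.log_le_log hm0 (by exact_mod_cast hmD.trans hDQ)
      linarith
    have b1 := hlog R hR hRD
    have b2 := hlog e h1 hdD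
    have b0 : (0 : ℝ) ≤ (R : ℝ) / (Nat.totient R : ℝ) := by positivity
    have b0' : (0 : ℝ) ≤ (e : ℝ) / (Nat.totient e : ℝ) := by positivity
    refine h5.trans ?_
    have b3 : (((R : ℝ) / (Nat.totient R : ℝ)) * ((e : ℝ) / (Nat.totient e : ℝ))) ^ k ≤
        (2 * (1 + Real.log Q)) ^ (2 * k) := by
      rw [pow_mul]
      apply pow_le_pow_left₀ (mul_nonneg b0 b0')
      rw [sq]
      exact mul_le_mul b1 b2 b0' (b0.trans b1)
    have b4 : (R : ℝ) * e ≤ D := by exact_mod_cast h6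
    have b5 : (0 : ℝ) ≤ (((R : ℝ) / (Nat.totient R : ℝ)) * ((e : ℝ) / (Nat.totient e : ℝ))) ^ k := by
      positivity
    calc 2 * ((R : ℝ) * e) * (((R : ℝ) / (Nat.totient R : ℝ)) * ((e : ℝ) / (Nat.totient e : ℝ))) ^ k
        ≤ 2 * (D : ℝ) * (((R : ℝ) / (Nat.totient R : ℝ)) * ((e : ℝ) / (Nat.totient e : ℝ))) ^ k := by
          gcongr
      _ ≤ 2 * (D : ℝ) * (2 * (1 + Real.log Q)) ^ (2 * k) := by gcongr
  have hcard : ((SF (D / R) R).card : ℝ) ≤ D := by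
    have h1 : (SF (D / R) R).card ≤ (Icc 1 (D / R)).card := by
      unfold SF
      exact card_filter_le _ _
    rw [Nat.card_Icc] at h1
    have h2 : D / R ≤ D := Nat.div_le_self _ _
    exact_mod_cast (by omega : (SF (D / R) R).card ≤ D)
  calc ‖∑ e ∈ SF (D / R) R, (∑ n ∈ Ico a (a + H), PhV p R.primeFactors (fun i => S.val b n t i) *
        ((WdV e (fun i => S.val b n t i) : ℝ) : ℂ) -
      (H : ℂ) * (MRS S b t p R * ((tdS S b t e : ℝ) : ℂ)))‖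
      ≤ ∑ e ∈ SF (D / R) R, ‖∑ n ∈ Ico a (a + H), PhV p R.primeFactors (fun i => S.val b n t i) *
        ((WdV e (fun i => S.val b n t i) : ℝ) : ℂ) -
      (H : ℂ) * (MRS S b t p R * ((tdS S b t e : ℝ) : ℂ))‖ := norm_sum_le _ _
    _ ≤ ∑ e ∈ SF (D / R) R, 2 * (D : ℝ) * (2 * (1 + Real.log Q)) ^ (2 * k) := sum_le_sum key
    _ = ((SF (D / R) R).card : ℝ) * (2 * (D : ℝ) * (2 * (1 + Real.log Q)) ^ (2 * k)) := by
        rw [sum_const, nsmul_eq_mul]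
    _ ≤ (D : ℝ) * (2 * (D : ℝ) * (2 * (1 + Real.log Q)) ^ (2 * k)) := by
        apply mul_le_mul_of_nonneg_right hcard
        have : (0 : ℝ) ≤ (2 * (1 + Real.log Q)) ^ (2 * k) := by
          rw [pow_mul]; positivity
        positivity
    _ = 2 * (D : ℝ) ^ 2 * (2 * (1 + Real.log Q)) ^ (2 * k) := by ring

end Pool.Agent.H9U
end

-- from Lib.H9U.Z1
section

/-!
# H9U, chunk Z1 (M): a tuple of characters, small and large modulus
-/

open Finset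

namespace Pool.Agent.H9U

open Pool.Agent.Lib.H68T (PC p0)
open Pool.Agent.Lib.H18Q (gk KS)
open Pool.Agent.Lib.H59P (Ch SF bx TS Rp)

theorem z1_lcm_pos {k : ℕ} (d : Fin k → ℕ) (h : ∀ i, 0 < d i) : 0 < univ.lcm d :=
  Nat.pos_of_dvd_of_pos (Finset.lcm_dvd (fun i _ => Finset.dvd_prod_of_mem d (mem_univ i)))
    (Finset.prod_pos (fun i _ => h i))

/-- Proof. `c, C` from `LBig`; take `min c 1` and `max C (2k) + 8^k + 2`, say. (1) As `Z1d` (`H59P/Z1D.lean`), with `ℓ¹` in place of `ℓ²`: split the tuples `κ`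
into those with `lcm(R, κ) ≤ D` (`M4S` for each `t`: error `2 D² (2(1+log Q))^(2k)`, `D² ≤ Q²`, `H ≥ Q^10`, so at most `H (…) D2^(-1)`) and the others, for
which `D2 < lcm(r_i κ_i)` (`Z1b`: `D < px.1 · lcm(r_i κ_i)` and `px.1 D2 ≤ D1 ≤ D`), `LBig` with `D2`. (2) As `Z1e`: `Rp px p > D1` (or `p ∉ TS` for the
other reason, excluded by `hp`), `Z1b`, `LBig` with everything. -/
theorem Z1S_both {k d : ℕ} (S : Sys k d) (hL : LBig S) : ∃ c C : ℝ, 0 < c ∧ 1 ≤ C ∧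
    ∀ (Q D D1 D2 : ℕ) (px : Ch), 1 ≤ D2 → px.1 * D2 ≤ D1 → D1 ≤ D → D ≤ Q → px ∈ PC Q →
    ∀ (b : Fin k → ℤ) (a H T : ℕ), Q ^ (10 * (k + 1)) ≤ H → Q ^ (10 * (k + 1)) ≤ T →
    (∀ t ∈ bx d T, ∀ n ∈ Ico a (a + H), ∀ i, 0 ≤ S.val b n (iv t) i) →
    ∀ p : Fin k → Ch, (∀ i, p i ∈ PC Q) →
    (p ∈ TS k Q D1 px → ∑ t ∈ bx d T, ‖∑ n ∈ Ico a (a + H),
        ∑ κ ∈ Fintype.piFinset fun i => KS Q (p i).1, ∏ i, gk (p i) (κ i) (S.val b n (iv t) i) -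
      H * (MRS S b (iv t) p (Rp px p) *
        ((∑ e ∈ SF (D / Rp px p) (Rp px p), tdS S b (iv t) e : ℝ) : ℂ))‖ ≤
      C * (1 + Real.log Q) ^ C * ((T : ℝ) ^ d * H) * (D2 : ℝ) ^ (-c)) ∧
    (p ∉ TS k Q D1 px → ∑ t ∈ bx d T, ‖∑ n ∈ Ico a (a + H),
        ∑ κ ∈ Fintype.piFinset fun i => KS Q (p i).1, ∏ i, gk (p i) (κ i) (S.val b n (iv t) i)‖ ≤
      C * (1 + Real.log Q) ^ C * ((T : ℝ) ^ d * H) * (D2 : ℝ) ^ (-c)) := by
  classical
  obtain ⟨c0, C0, hc0, hC0, hL'⟩ := hL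
  refine ⟨min c0 1, C0 + 2 * k + 2 * 4 ^ k, lt_min hc0 one_pos, ?_, ?_⟩
  · have h1 : (0 : ℝ) ≤ 2 * k := by positivity
    have h2 : (0 : ℝ) ≤ 2 * 4 ^ k := by positivity
    linarith
  intro Q D D1 D2 px hD2 hpD hD1D hDQ hpx b a H T hH hT hv p hp
  have hpx1 : 1 ≤ px.1 := (Pool.Agent.Lib.H68T.mem_PC.mp hpx).1
  have hD2D1 : D2 ≤ D1 := le_trans (Nat.le_mul_of_pos_left D2 hpx1) hpD
  have hD2Q : D2 ≤ Q := hD2D1.trans (hD1D.trans hDQ)
  have hQ1 : 1 ≤ Q := hD2.trans hD2Q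
  have hQ1r : (1 : ℝ) ≤ Q := by exact_mod_cast hQ1
  have hlQ : 0 ≤ Real.log Q := Real.log_nonneg hQ1r
  have hD2r : (1 : ℝ) ≤ D2 := by exact_mod_cast hD2
  have hD20 : (0 : ℝ) < D2 := by linarith
  obtain ⟨y, hy⟩ : ∃ y : ℝ, y = 1 + Real.log Q := ⟨_, rfl⟩
  have hy1 : 1 ≤ y := by rw [hy]; linarith
  obtain ⟨q, hq⟩ : ∃ q : ℝ, q = (D2 : ℝ) ^ (-(min c0 1)) := ⟨_, rfl⟩
  have hq0 : 0 < q := by rw [hq]; exact Real.rpow_pos_of_pos hD20 _
  have hTd : (0 : ℝ) ≤ (T : ℝ) ^ d * H := by positivity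
  have h4k : (0 : ℝ) ≤ 2 * 4 ^ k := by positivity
  have h2k : (0 : ℝ) ≤ 2 * k := by positivity
  -- the exponent of the logarithm
  have hyC : y ^ C0 ≤ y ^ (C0 + 2 * k + 2 * 4 ^ k) := Real.rpow_le_rpow_of_exponent_le hy1 (by linarith)
  have hyk : y ^ (2 * k) ≤ y ^ (C0 + 2 * k + 2 * 4 ^ k) := by
    have h1 : y ^ (2 * k) = y ^ ((2 * k : ℕ) : ℝ) := (Real.rpow_natCast _ _).symm
    rw [h1]
    refine Real.rpow_le_rpow_of_exponent_le hy1 ?_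
    push_cast
    linarith
  have hq1 : (D2 : ℝ) ^ (-c0) ≤ q := by
    rw [hq]
    refine Real.rpow_le_rpow_of_exponent_le hD2r ?_
    have := min_le_left c0 1
    linarith
  -- the bound for the tuples of large modulus
  have hbig : ∀ TT : Finset (Fin k → ℕ), TT ⊆ Fintype.piFinset (fun i => KS Q (p i).1) →
      (∀ κ ∈ TT, D2 < univ.lcm (fun i => (p i).1 * κ i)) →
      ∑ t ∈ bx d T, ‖∑ n ∈ Ico a (a + H), ∑ κ ∈ TT, ∏ i, gk (p i) (κ i) (S.val b n (iv t) i)‖ ≤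
        C0 * y ^ (C0 + 2 * k + 2 * 4 ^ k) * ((T : ℝ) ^ d * H) * q := by
    intro TT hTT hlt
    have h1 := hL' Q D2 hD2 hD2Q p hp TT hTT hlt b a H T hH hT
    refine h1.trans ?_
    rw [← hy]
    have h2 : C0 * y ^ C0 ≤ C0 * y ^ (C0 + 2 * k + 2 * 4 ^ k) := mul_le_mul_of_nonneg_left hyC (by linarith)
    have h3 : C0 * y ^ C0 * ((T : ℝ) ^ d * H) ≤ C0 * y ^ (C0 + 2 * k + 2 * 4 ^ k) * ((T : ℝ) ^ d * H) :=
      mul_le_mul_of_nonneg_right h2 hTd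
    have h4 : 0 ≤ C0 * y ^ (C0 + 2 * k + 2 * 4 ^ k) * ((T : ℝ) ^ d * H) := by
      have : 0 ≤ y ^ (C0 + 2 * k + 2 * 4 ^ k) := Real.rpow_nonneg (by linarith) _
      have : 0 ≤ C0 := by linarith
      positivity
    exact mul_le_mul h3 hq1 (Real.rpow_nonneg hD20.le _) h4
  have hyp : 0 ≤ y ^ (C0 + 2 * k + 2 * 4 ^ k) := Real.rpow_nonneg (by linarith) _
  rw [← hy, ← hq]
  constructor
  · intro hpTS
    have hTS : (∀ i, p i ∈ PC Q) ∧ Rp px p ≤ D1 := by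
      unfold TS at hpTS
      rw [mem_filter, Fintype.mem_piFinset] at hpTS
      exact hpTS
    obtain ⟨_, hpR⟩ := hTS
    have hp1 : ∀ i, 1 ≤ (p i).1 := fun i => (Pool.Agent.Lib.H68T.mem_PC.mp (hp i)).1
    have hlcmpos : 0 < univ.lcm (fun i => (p i).1) := z1_lcm_pos _ hp1
    have hRpos : 0 < Rp px p := Nat.lcm_pos hpx1 hlcmpos
    have hdvd : ∀ i, (p i).1 ∣ Rp px p := fun i => by
      unfold Rp
      exact (Finset.dvd_lcm (f := fun i => (p i).1) (mem_univ i)).trans (Nat.dvd_lcm_right _ _)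
    obtain ⟨TT, hTT⟩ : ∃ TT : Finset (Fin k → ℕ), TT = (Fintype.piFinset fun i => KS Q (p i).1).filter
      (fun κ => ¬ (Rp px p).lcm (univ.lcm κ) ≤ D) := ⟨_, rfl⟩
    have hTsub : TT ⊆ Fintype.piFinset (fun i => KS Q (p i).1) := by
      rw [hTT]
      exact Finset.filter_subset _ _
    have hTlt : ∀ κ ∈ TT, D2 < univ.lcm (fun i => (p i).1 * κ i) := by
      intro κ hκ
      rw [hTT, mem_filter, Fintype.mem_piFinset] at hκ
      have h1 := (Pool.Agent.Lib.H59P.Z1b Q D px hpx p hp κ hκ.1).1 (not_le.mp hκ.2)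
      have h2 : px.1 * D2 < px.1 * univ.lcm (fun i => (p i).1 * κ i) :=
        lt_of_le_of_lt (hpD.trans hD1D) h1
      exact lt_of_mul_lt_mul_left h2 (Nat.zero_le _)
    have hB := hbig TT hTsub hTlt
    obtain ⟨W, hW⟩ : ∃ W : ℝ, W = 2 * (D : ℝ) ^ 2 * (2 * (1 + Real.log Q)) ^ (2 * k) := ⟨_, rfl⟩
    have hA : ∀ t ∈ bx d T, ‖∑ n ∈ Ico a (a + H),
        ∑ κ ∈ (Fintype.piFinset fun i => KS Q (p i).1).filter
          (fun κ => (Rp px p).lcm (univ.lcm κ) ≤ D),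
          ∏ i, gk (p i) (κ i) (S.val b n (iv t) i) -
        H * (MRS S b (iv t) p (Rp px p) *
          ((∑ e ∈ SF (D / Rp px p) (Rp px p), tdS S b (iv t) e : ℝ) : ℂ))‖ ≤ W := by
      intro t ht
      rw [hW]
      exact M4S S b (iv t) Q D (Rp px p) hDQ hRpos p hp hdvd a H (hv t ht)
    have hsplit : ∀ t : Fin d → ℕ, ∑ n ∈ Ico a (a + H),
          ∑ κ ∈ Fintype.piFinset fun i => KS Q (p i).1, ∏ i, gk (p i) (κ i) (S.val b n (iv t) i) -
        H * (MRS S b (iv t) p (Rp px p) *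
          ((∑ e ∈ SF (D / Rp px p) (Rp px p), tdS S b (iv t) e : ℝ) : ℂ)) =
        (∑ n ∈ Ico a (a + H),
        ∑ κ ∈ (Fintype.piFinset fun i => KS Q (p i).1).filter
          (fun κ => (Rp px p).lcm (univ.lcm κ) ≤ D),
          ∏ i, gk (p i) (κ i) (S.val b n (iv t) i) -
        H * (MRS S b (iv t) p (Rp px p) *
          ((∑ e ∈ SF (D / Rp px p) (Rp px p), tdS S b (iv t) e : ℝ) : ℂ))) +
        ∑ n ∈ Ico a (a + H), ∑ κ ∈ TT, ∏ i, gk (p i) (κ i) (S.val b n (iv t) i) := by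
      intro t
      have h1 : ∑ n ∈ Ico a (a + H),
          ∑ κ ∈ Fintype.piFinset fun i => KS Q (p i).1, ∏ i, gk (p i) (κ i) (S.val b n (iv t) i) =
          ∑ n ∈ Ico a (a + H),
          ∑ κ ∈ (Fintype.piFinset fun i => KS Q (p i).1).filter
            (fun κ => (Rp px p).lcm (univ.lcm κ) ≤ D),
            ∏ i, gk (p i) (κ i) (S.val b n (iv t) i) +
          ∑ n ∈ Ico a (a + H), ∑ κ ∈ TT, ∏ i, gk (p i) (κ i) (S.val b n (iv t) i) := by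
        rw [← Finset.sum_add_distrib]
        refine Finset.sum_congr rfl (fun n _ => ?_)
        rw [hTT]
        exact (Finset.sum_filter_add_sum_filter_not _ _ _).symm
      rw [h1]
      ring
    have hcard : ((bx d T).card : ℝ) = (T : ℝ) ^ d := by
      unfold bx
      rw [Fintype.card_piFinset]
      simp
    -- the bound of `W`
    have hWle : W ≤ 2 * 4 ^ k * y ^ (C0 + 2 * k + 2 * 4 ^ k) * (H * q) := by
      have hDr : (D : ℝ) ≤ Q := by exact_mod_cast hDQ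
      have e1 : (D : ℝ) ^ 2 ≤ (Q : ℝ) ^ 2 := pow_le_pow_left₀ (by positivity) hDr 2
      have e2 : (Q : ℝ) ^ 2 ≤ H * q := by
        have f1 : (Q : ℝ) ^ 3 ≤ H := by
          have f2 : Q ^ 3 ≤ H := le_trans (Nat.pow_le_pow_right hQ1 (by omega)) hH
          exact_mod_cast f2
        have f3 : (Q : ℝ)⁻¹ ≤ q := by
          have f4 : (D2 : ℝ) ^ (-1 : ℝ) ≤ q := by
            rw [hq]
            refine Real.rpow_le_rpow_of_exponent_le hD2r ?_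
            have := min_le_right c0 1
            linarith
          rw [Real.rpow_neg_one] at f4
          refine le_trans ?_ f4
          have f5 : (D2 : ℝ) ≤ Q := by exact_mod_cast hD2Q
          exact inv_anti₀ hD20 f5
        calc (Q : ℝ) ^ 2 = (Q : ℝ) ^ 3 * (Q : ℝ)⁻¹ := by
              field_simp
          _ ≤ H * q := mul_le_mul f1 f3 (by positivity) (by positivity)
      have e3 : (2 * (1 + Real.log Q)) ^ (2 * k) = 4 ^ k * y ^ (2 * k) := by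
        rw [← hy, mul_pow, pow_mul]
        norm_num
      rw [hW, e3]
      have e4 : y ^ (2 * k) * (H * q) ≤ y ^ (C0 + 2 * k + 2 * 4 ^ k) * (H * q) :=
        mul_le_mul_of_nonneg_right hyk (by positivity)
      have e5 : (D : ℝ) ^ 2 * y ^ (2 * k) ≤ (H * q) * y ^ (2 * k) :=
        mul_le_mul_of_nonneg_right (e1.trans e2) (by positivity)
      have e6 : (0 : ℝ) ≤ 2 * 4 ^ k := by positivity
      calc 2 * (D : ℝ) ^ 2 * (4 ^ k * y ^ (2 * k)) = 2 * 4 ^ k * ((D : ℝ) ^ 2 * y ^ (2 * k)) := by ring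
        _ ≤ 2 * 4 ^ k * (y ^ (C0 + 2 * k + 2 * 4 ^ k) * (H * q)) := by
            refine mul_le_mul_of_nonneg_left ?_ e6
            linarith
        _ = _ := by ring
    calc ∑ t ∈ bx d T, ‖∑ n ∈ Ico a (a + H),
          ∑ κ ∈ Fintype.piFinset fun i => KS Q (p i).1, ∏ i, gk (p i) (κ i) (S.val b n (iv t) i) -
        H * (MRS S b (iv t) p (Rp px p) *
          ((∑ e ∈ SF (D / Rp px p) (Rp px p), tdS S b (iv t) e : ℝ) : ℂ))‖
        ≤ ∑ t ∈ bx d T, (W + ‖∑ n ∈ Ico a (a + H), ∑ κ ∈ TT, ∏ i, gk (p i) (κ i) (S.val b n (iv t) i)‖) := by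
          refine Finset.sum_le_sum (fun t ht => ?_)
          rw [hsplit t]
          refine (norm_add_le _ _).trans ?_
          have h1 := hA t ht
          linarith
      _ = (T : ℝ) ^ d * W + ∑ t ∈ bx d T, ‖∑ n ∈ Ico a (a + H), ∑ κ ∈ TT,
            ∏ i, gk (p i) (κ i) (S.val b n (iv t) i)‖ := by
          rw [Finset.sum_add_distrib, Finset.sum_const, nsmul_eq_mul, hcard]
      _ ≤ (T : ℝ) ^ d * (2 * 4 ^ k * y ^ (C0 + 2 * k + 2 * 4 ^ k) * (H * q)) +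
            C0 * y ^ (C0 + 2 * k + 2 * 4 ^ k) * ((T : ℝ) ^ d * H) * q := by
          have h1 : (T : ℝ) ^ d * W ≤ (T : ℝ) ^ d * (2 * 4 ^ k * y ^ (C0 + 2 * k + 2 * 4 ^ k) * (H * q)) :=
            mul_le_mul_of_nonneg_left hWle (by positivity)
          linarith
      _ = (C0 + 2 * 4 ^ k) * (y ^ (C0 + 2 * k + 2 * 4 ^ k) * ((T : ℝ) ^ d * H) * q) := by ring
      _ ≤ (C0 + 2 * k + 2 * 4 ^ k) * (y ^ (C0 + 2 * k + 2 * 4 ^ k) * ((T : ℝ) ^ d * H) * q) := by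
          refine mul_le_mul_of_nonneg_right (by linarith) ?_
          exact mul_nonneg (mul_nonneg hyp hTd) hq0.le
      _ = _ := by ring
  · intro hpTS
    have hRp : D1 < Rp px p := by
      by_contra hcon
      refine hpTS ?_
      unfold TS
      rw [mem_filter]
      exact ⟨Fintype.mem_piFinset.mpr hp, not_lt.mp hcon⟩
    have h1 := hbig (Fintype.piFinset fun i => KS Q (p i).1) subset_rfl (by
      intro κ hκ
      have h5 := (Pool.Agent.Lib.H59P.Z1b Q 0 px hpx p hp κ (fun i => Fintype.mem_piFinset.mp hκ i)).2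
      by_contra hcon
      have h6 : px.1 * univ.lcm (fun i => (p i).1 * κ i) ≤ px.1 * D2 := Nat.mul_le_mul_left _ (not_lt.mp hcon)
      omega)
    refine h1.trans ?_
    have h2 : C0 * y ^ (C0 + 2 * k + 2 * 4 ^ k) ≤ (C0 + 2 * k + 2 * 4 ^ k) * y ^ (C0 + 2 * k + 2 * 4 ^ k) :=
      mul_le_mul_of_nonneg_right (by linarith) hyp
    exact mul_le_mul_of_nonneg_right (mul_le_mul_of_nonneg_right h2 hTd) hq0.le

end Pool.Agent.H9U
end

-- from Lib.H9U.Z2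
section

/-!
# H9U, chunk Z2 (S/M): one cell
-/

open Finset

namespace Pool.Agent.H9U

open Pool.Agent.Lib.H68T (PC p0)
open Pool.Agent.Lib.H18Q (gk KS SG)
open Pool.Agent.Lib.H59P (Ch SF bx TS Rp)

/-- Proof. As `Z2b` (`H59P/Z2B.lean`, `z2b_dec`), in `ℓ¹`: by `Z1S` (`M2.lean`) the difference is `∑_p (∏ c_i(p_i)) f_p(t)` over all tuples `p`, `f_p(t)` the
difference of `Z1S_both` for `p ∈ TS`, the sum for `p ∉ TS`; `‖∏ c_i(p_i)‖ ≤ ∏ mb i (p_i)`, `∑_p ∏ mb i (p_i) = ∏_i ∑_p mb i p ≤ M^k`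
(`Finset.prod_univ_sum`); exchange the sums over `t` and `p`. -/
theorem Z2S {k d : ℕ} (S : Sys k d) (hL : LBig S) : ∃ c C : ℝ, 0 < c ∧ 1 ≤ C ∧
    ∀ (Q D D1 D2 : ℕ) (px : Ch), 1 ≤ D2 → px.1 * D2 ≤ D1 → D1 ≤ D → D ≤ Q → px ∈ PC Q →
    ∀ (b : Fin k → ℤ) (a H T : ℕ), Q ^ (10 * (k + 1)) ≤ H → Q ^ (10 * (k + 1)) ≤ T →
    (∀ t ∈ bx d T, ∀ n ∈ Ico a (a + H), ∀ i, 0 ≤ S.val b n (iv t) i) →
    ∀ (M : ℝ) (mb : Fin k → Ch → ℝ), 1 ≤ M → (∀ i, ∀ p ∈ PC Q, 0 ≤ mb i p) → (∀ i, ∑ p ∈ PC Q, mb i p ≤ M) →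
    ∀ c' : (Fin d → ℕ) → Fin k → Ch → ℂ, (∀ t ∈ bx d T, ∀ i, ∀ p ∈ PC Q, ‖c' t i p‖ ≤ mb i p) →
    ∑ t ∈ bx d T, ‖∑ n ∈ Ico a (a + H), ∏ i, SG Q (c' t i) (S.val b n (iv t) i) -
        H * MCS S b (iv t) Q D D1 px (c' t)‖ ≤
      M ^ k * (C * (1 + Real.log Q) ^ C * ((T : ℝ) ^ d * H) * (D2 : ℝ) ^ (-c)) := by
  classical
  obtain ⟨c, C, hc, hC, hmain⟩ := Z1S_both S hL
  refine ⟨c, C, hc, hC, ?_⟩
  intro Q D D1 D2 px h1 h2 h3 h4 hpx b a H T hH hT hpos M mb hM hmb hmbM c' hc'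
  have hmain' := hmain Q D D1 D2 px h1 h2 h3 h4 hpx b a H T hH hT hpos
  obtain ⟨B, hB⟩ : ∃ B : ℝ, B = C * (1 + Real.log Q) ^ C * ((T : ℝ) ^ d * H) * (D2 : ℝ) ^ (-c) := ⟨_, rfl⟩
  rw [← hB] at hmain' ⊢
  have hB0 : 0 ≤ B := by
    have e1 : 0 ≤ Real.log Q := Real.log_natCast_nonneg Q
    have e2 : 0 ≤ (1 + Real.log Q) ^ C := Real.rpow_nonneg (by linarith) _
    have e3 : (0 : ℝ) ≤ (D2 : ℝ) ^ (-c) := Real.rpow_nonneg (Nat.cast_nonneg _) _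
    have e4 : (0 : ℝ) ≤ (T : ℝ) ^ d * H := mul_nonneg (pow_nonneg (Nat.cast_nonneg _) _) (Nat.cast_nonneg _)
    rw [hB]
    exact mul_nonneg (mul_nonneg (mul_nonneg (by linarith) e2) e4) e3
  obtain ⟨g, hg⟩ : ∃ g : (Fin k → Ch) → (Fin d → ℕ) → ℂ, ∀ p t, g p t = (∑ n ∈ Ico a (a + H),
      ∑ κ ∈ Fintype.piFinset fun i => KS Q (p i).1, ∏ i, gk (p i) (κ i) (S.val b n (iv t) i)) -
      (if p ∈ TS k Q D1 px then H * (MRS S b (iv t) p (Rp px p) *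
        ((∑ e ∈ SF (D / Rp px p) (Rp px p), tdS S b (iv t) e : ℝ) : ℂ)) else 0) := ⟨fun p t => _, fun p t => rfl⟩
  have hsub : TS k Q D1 px ⊆ Fintype.piFinset fun _ : Fin k => PC Q := by
    unfold TS
    exact Finset.filter_subset _ _
  have key : ∀ t ∈ bx d T, ∑ n ∈ Ico a (a + H), ∏ i, SG Q (c' t i) (S.val b n (iv t) i) -
      H * MCS S b (iv t) Q D D1 px (c' t) =
      ∑ p ∈ Fintype.piFinset fun _ : Fin k => PC Q, (∏ i, c' t i (p i)) * g p t := by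
    intro t ht
    have e1 : ∑ n ∈ Ico a (a + H), ∏ i, SG Q (c' t i) (S.val b n (iv t) i) =
        ∑ p ∈ Fintype.piFinset fun _ : Fin k => PC Q, (∏ i, c' t i (p i)) *
          ∑ n ∈ Ico a (a + H), ∑ κ ∈ Fintype.piFinset fun i => KS Q (p i).1,
            ∏ i, gk (p i) (κ i) (S.val b n (iv t) i) := by
      rw [Finset.sum_congr rfl fun (n : ℕ) hn => Z1S Q (c' t) (fun i => S.val b n (iv t) i) (hpos t ht n hn),
        Finset.sum_comm]
      refine Finset.sum_congr rfl fun p _ => ?_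
      rw [Finset.mul_sum]
    have e2 : (H : ℂ) * MCS S b (iv t) Q D D1 px (c' t) = ∑ p ∈ Fintype.piFinset fun _ : Fin k => PC Q,
        (∏ i, c' t i (p i)) * (if p ∈ TS k Q D1 px then H * (MRS S b (iv t) p (Rp px p) *
        ((∑ e ∈ SF (D / Rp px p) (Rp px p), tdS S b (iv t) e : ℝ) : ℂ)) else 0) := by
      simp only [mul_ite, mul_zero]
      rw [← Finset.sum_filter, Finset.filter_mem_eq_inter, Finset.inter_eq_right.mpr hsub]
      unfold MCS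
      rw [Finset.mul_sum]
      refine Finset.sum_congr rfl fun p _ => ?_
      ring
    rw [e1, e2, ← Finset.sum_sub_distrib]
    refine Finset.sum_congr rfl fun p _ => ?_
    rw [hg, mul_sub]
  have hgB : ∀ p ∈ Fintype.piFinset (fun _ : Fin k => PC Q), ∑ t ∈ bx d T, ‖g p t‖ ≤ B := by
    intro p hp
    have hp' : ∀ i, p i ∈ PC Q := fun i => Fintype.mem_piFinset.mp hp i
    by_cases hpT : p ∈ TS k Q D1 px
    · have e := (hmain' p hp').1 hpT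
      refine le_trans (le_of_eq (Finset.sum_congr rfl fun t _ => ?_)) e
      rw [hg, if_pos hpT]
    · have e := (hmain' p hp').2 hpT
      refine le_trans (le_of_eq (Finset.sum_congr rfl fun t _ => ?_)) e
      rw [hg, if_neg hpT, sub_zero]
  have hmbP : ∀ p ∈ Fintype.piFinset (fun _ : Fin k => PC Q), 0 ≤ ∏ i, mb i (p i) := fun p hp =>
    Finset.prod_nonneg fun i _ => hmb i _ (Fintype.mem_piFinset.mp hp i)
  have hsum : ∑ p ∈ Fintype.piFinset fun _ : Fin k => PC Q, ∏ i, mb i (p i) ≤ M ^ k := by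
    rw [← Finset.prod_univ_sum]
    have e2 : ∏ i : Fin k, ∑ p ∈ PC Q, mb i p ≤ ∏ _i : Fin k, M :=
      Finset.prod_le_prod (fun i _ => Finset.sum_nonneg fun p hp => hmb i p hp) (fun i _ => hmbM i)
    simpa using e2
  calc ∑ t ∈ bx d T, ‖∑ n ∈ Ico a (a + H), ∏ i, SG Q (c' t i) (S.val b n (iv t) i) -
        H * MCS S b (iv t) Q D D1 px (c' t)‖
      ≤ ∑ t ∈ bx d T, ∑ p ∈ Fintype.piFinset fun _ : Fin k => PC Q, (∏ i, mb i (p i)) * ‖g p t‖ := by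
        refine Finset.sum_le_sum fun t ht => ?_
        rw [key t ht]
        refine (norm_sum_le _ _).trans (Finset.sum_le_sum fun p hp => ?_)
        rw [norm_mul, norm_prod]
        refine mul_le_mul_of_nonneg_right ?_ (norm_nonneg _)
        exact Finset.prod_le_prod (fun i _ => norm_nonneg _)
          (fun i _ => hc' t ht i _ (Fintype.mem_piFinset.mp hp i))
    _ = ∑ p ∈ Fintype.piFinset fun _ : Fin k => PC Q, (∏ i, mb i (p i)) * ∑ t ∈ bx d T, ‖g p t‖ := by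
        rw [Finset.sum_comm]
        refine Finset.sum_congr rfl fun p _ => ?_
        rw [Finset.mul_sum]
    _ ≤ ∑ p ∈ Fintype.piFinset fun _ : Fin k => PC Q, (∏ i, mb i (p i)) * B :=
        Finset.sum_le_sum fun p hp => mul_le_mul_of_nonneg_left (hgB p hp) (hmbP p hp)
    _ ≤ M ^ k * B := by
        rw [← Finset.sum_mul]
        exact mul_le_mul_of_nonneg_right hsum hB0

end Pool.Agent.H9U
end

-- from Lib.H9U.Z4A
section

/-!
# H9U, chunk Z4A (M): the sum over `n` against the main terms of all cells, on average over `t`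
-/

open Finset

namespace Pool.Agent.H9U

open Pool.Agent.Lib.H68T (lp Lk PC p0)
open Pool.Agent.Lib.H18Q (gk KS SG Bc RegP)
open Pool.Agent.Lib.H59P (Ch SF bx TS Rp MX pr)

theorem z4a_card (d T : ℕ) : (bx d T).card = T ^ d := by
  unfold bx
  rw [Fintype.card_piFinset, Finset.prod_const, Finset.card_univ, Fintype.card_fin, Finset.card_range]

theorem z4a_sum {ι κ : Type*} (s : Finset ι) (J : Finset κ) (f g : κ → ι → ℂ) (B : ℝ)
    (h : ∀ j ∈ J, ∑ t ∈ s, ‖f j t - g j t‖ ≤ B) :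
    ∑ t ∈ s, ‖∑ j ∈ J, f j t - ∑ j ∈ J, g j t‖ ≤ J.card * B := by
  calc ∑ t ∈ s, ‖∑ j ∈ J, f j t - ∑ j ∈ J, g j t‖ ≤ ∑ t ∈ s, ∑ j ∈ J, ‖f j t - g j t‖ := by
        refine Finset.sum_le_sum fun t _ => ?_
        rw [← Finset.sum_sub_distrib]
        exact norm_sum_le _ _
    _ = ∑ j ∈ J, ∑ t ∈ s, ‖f j t - g j t‖ := Finset.sum_comm
    _ ≤ J.card * B := by
        refine le_trans (Finset.sum_le_sum h) ?_
        rw [Finset.sum_const, nsmul_eq_mul]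

theorem z4a_second (d C0 X Q T : ℕ) (Cr : ℝ) (hX : 1 ≤ X) (hT : T ≤ C0 * X)
    (hQ : (X : ℝ) ^ (1 / Cr) ≤ Q) :
    (T : ℝ) ^ d * ((X : ℝ) / Q) ≤ (C0 : ℝ) ^ d * (X : ℝ) ^ (1 + d - 1 / Cr) := by
  have hX0 : (0:ℝ) < X := by exact_mod_cast hX
  have hp : (0:ℝ) < (X : ℝ) ^ (1 / Cr) := Real.rpow_pos_of_pos hX0 _
  have hTr : (T : ℝ) ≤ (C0 : ℝ) * X := by exact_mod_cast hT
  have h1 : (T : ℝ) ^ d ≤ (C0 : ℝ) ^ d * (X : ℝ) ^ d := by
    rw [← mul_pow]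
    exact pow_le_pow_left₀ (Nat.cast_nonneg _) hTr d
  have h2 : (X : ℝ) / Q ≤ (X : ℝ) / (X : ℝ) ^ (1 / Cr) := div_le_div_of_nonneg_left hX0.le hp hQ
  have h3 : (X : ℝ) ^ (1 + (d:ℝ) - 1 / Cr) = (X : ℝ) ^ d * ((X : ℝ) / (X : ℝ) ^ (1 / Cr)) := by
    rw [Real.rpow_sub hX0, Real.rpow_add hX0, Real.rpow_one, Real.rpow_natCast]
    ring
  rw [h3, ← mul_assoc]
  exact mul_le_mul h1 h2 (by positivity) (by positivity)

theorem z4a_log (C e : ℝ) (hC : 1 ≤ C) (he : 0 < e) (Q' X : ℕ) (hQ : 1 ≤ Q') (hQX : Q' ≤ X) :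
    (1 + Real.log Q') ^ C ≤ (1 + C / e) ^ C * (X : ℝ) ^ e := by
  have hX1 : (1:ℝ) ≤ X := by exact_mod_cast le_trans hQ hQX
  have hX0 : (0:ℝ) < X := by linarith
  have hC0 : 0 < C := by linarith
  have h6 : Real.log Q' ≤ Real.log X :=
      Real.log_le_log (by exact_mod_cast hQ) (by exact_mod_cast hQX)
  have h7 : Real.log X ≤ (X:ℝ) ^ (e / C) / (e / C) := Real.log_le_rpow_div hX0.le (by positivity)
  have h8 : (X:ℝ) ^ (e / C) / (e / C) = C / e * (X:ℝ) ^ (e / C) := by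
    field_simp
  have h9 : (1:ℝ) ≤ (X:ℝ) ^ (e / C) := Real.one_le_rpow hX1 (by positivity)
  have h10 : 1 + Real.log Q' ≤ (1 + C / e) * (X:ℝ) ^ (e / C) := by
    rw [h8] at h7
    have : 0 < C / e := by positivity
    nlinarith
  have hl0 : 0 ≤ Real.log Q' := Real.log_natCast_nonneg Q'
  have h11 : ((X:ℝ) ^ (e / C)) ^ C = (X:ℝ) ^ e := by
    rw [← Real.rpow_mul hX0.le, div_mul_cancel₀ _ hC0.ne']
  calc (1 + Real.log Q') ^ C ≤ ((1 + C / e) * (X:ℝ) ^ (e / C)) ^ C :=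
        Real.rpow_le_rpow (by linarith) h10 hC0.le
    _ = (1 + C / e) ^ C * (X : ℝ) ^ e := by
        rw [Real.mul_rpow (by positivity) (by positivity), h11]

theorem z4a_third (k d C0 : ℕ) (c C CM θ δ3 : ℝ) (hc : 0 < c) (hC : 1 ≤ C) (hCM : 1 ≤ CM) (hθ : 0 < θ)
    (hδ : 0 < δ3) (X Q' T L H D2 : ℕ) (hQ' : 1 ≤ Q') (hQX : Q' ≤ X) (hT : T ≤ C0 * X)
    (hL : L ≤ C0 * X) (hlow : (X : ℝ) ^ θ ≤ Q') (hD2 : (Q' : ℝ) ^ δ3 ≤ D2) :
    ((L / H : ℕ) : ℝ) * (CM ^ k * (C * (1 + Real.log Q') ^ C * ((T : ℝ) ^ d * H) * (D2 : ℝ) ^ (-c))) ≤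
      (CM ^ k * C * (1 + C / (c * θ * δ3 / 2)) ^ C * (C0 : ℝ) ^ (d + 1)) *
        (X : ℝ) ^ (1 + d - c * θ * δ3 / 2) := by
  have hX1 : (1:ℝ) ≤ X := by exact_mod_cast le_trans hQ' hQX
  have hX0 : (0:ℝ) < X := by linarith
  have hQ0 : (0:ℝ) < Q' := by exact_mod_cast hQ'
  have hTr : (T : ℝ) ≤ (C0 : ℝ) * X := by exact_mod_cast hT
  have h1 : (T : ℝ) ^ d ≤ (C0 : ℝ) ^ d * (X : ℝ) ^ d := by
    rw [← mul_pow]
    exact pow_le_pow_left₀ (Nat.cast_nonneg _) hTr d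
  have h2 : ((L / H : ℕ) : ℝ) * H ≤ (C0 : ℝ) * X := by
    have : (L / H) * H ≤ C0 * X := le_trans (Nat.div_mul_le_self L H) hL
    exact_mod_cast this
  have he : 0 < c * θ * δ3 / 2 := by positivity
  have h3 := z4a_log C (c * θ * δ3 / 2) hC he Q' X hQ' hQX
  have h4 : (D2 : ℝ) ^ (-c) ≤ (X : ℝ) ^ (-(c * θ * δ3)) := by
    have h5 : ((X : ℝ) ^ θ) ^ δ3 ≤ D2 :=
      le_trans (Real.rpow_le_rpow (Real.rpow_nonneg hX0.le _) hlow hδ.le) hD2
    have h6 : (0:ℝ) < ((X : ℝ) ^ θ) ^ δ3 := Real.rpow_pos_of_pos (Real.rpow_pos_of_pos hX0 _) _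
    have h7 : (D2 : ℝ) ^ (-c) ≤ (((X : ℝ) ^ θ) ^ δ3) ^ (-c) :=
      Real.rpow_le_rpow_of_nonpos h6 h5 (by linarith)
    rw [← Real.rpow_mul hX0.le, ← Real.rpow_mul hX0.le] at h7
    refine le_trans h7 (le_of_eq ?_)
    ring_nf
  have hl0 : 0 ≤ Real.log Q' := Real.log_natCast_nonneg Q'
  have hd : (0:ℝ) ≤ (D2 : ℝ) ^ (-c) := Real.rpow_nonneg (Nat.cast_nonneg _) _
  have hA : (0:ℝ) ≤ (1 + Real.log Q') ^ C := Real.rpow_nonneg (by linarith) _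
  have hB : (0:ℝ) ≤ (1 + C / (c * θ * δ3 / 2)) ^ C := Real.rpow_nonneg (by positivity) _
  have hCM0 : (0:ℝ) ≤ CM ^ k := by positivity
  have hLH : (0:ℝ) ≤ ((L / H : ℕ) : ℝ) * H := by positivity
  calc ((L / H : ℕ) : ℝ) * (CM ^ k * (C * (1 + Real.log Q') ^ C * ((T : ℝ) ^ d * H) * (D2 : ℝ) ^ (-c)))
      = (CM ^ k * C) * (((1 + Real.log Q') ^ C * (T : ℝ) ^ d) * ((((L / H : ℕ) : ℝ) * H) * (D2 : ℝ) ^ (-c))) := by
        ring
    _ ≤ (CM ^ k * C) * ((((1 + C / (c * θ * δ3 / 2)) ^ C * (X : ℝ) ^ (c * θ * δ3 / 2)) *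
          ((C0 : ℝ) ^ d * (X : ℝ) ^ d)) * (((C0 : ℝ) * X) * (X : ℝ) ^ (-(c * θ * δ3)))) := by
        refine mul_le_mul_of_nonneg_left ?_ (by positivity)
        refine mul_le_mul (mul_le_mul h3 h1 (by positivity) (by positivity)) (mul_le_mul h2 h4 hd (by positivity))
          (by positivity) (by positivity)
    _ = (CM ^ k * C * (1 + C / (c * θ * δ3 / 2)) ^ C * (C0 : ℝ) ^ (d + 1)) *
        ((X : ℝ) ^ (c * θ * δ3 / 2) * (X : ℝ) ^ d * X * (X : ℝ) ^ (-(c * θ * δ3))) := by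
        rw [pow_succ]
        ring
    _ = (CM ^ k * C * (1 + C / (c * θ * δ3 / 2)) ^ C * (C0 : ℝ) ^ (d + 1)) *
        (X : ℝ) ^ (1 + d - c * θ * δ3 / 2) := by
        refine congrArg (fun z : ℝ => (CM ^ k * C * (1 + C / (c * θ * δ3 / 2)) ^ C * (C0 : ℝ) ^ (d + 1)) * z) ?_
        rw [← Real.rpow_natCast (X : ℝ) d, ← Real.rpow_add hX0]
        have h9 : (X:ℝ) ^ (c * θ * δ3 / 2 + (d:ℝ)) * X = (X:ℝ) ^ (c * θ * δ3 / 2 + (d:ℝ) + 1) := by
          rw [Real.rpow_add hX0 _ 1, Real.rpow_one]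
        rw [h9, ← Real.rpow_add hX0]
        ring_nf

theorem z4a_final (d : ℕ) (A1 A2 κ1 κ2 κ3 : ℝ) (h1 : 0 < κ1) (h2 : 0 < κ2) (h3 : 0 < κ3) (hA1 : 0 ≤ A1)
    (hA2 : 0 ≤ A2) : ∃ κ : ℝ, 0 < κ ∧
    ∃ X0 : ℕ, ∀ X : ℕ, X0 ≤ X → (X : ℝ) ^ (1 + d - κ1) + A1 * (X : ℝ) ^ (1 + d - κ2) +
      A2 * (X : ℝ) ^ (1 + d - κ3) ≤ (X : ℝ) ^ (1 + d - κ) := by
  obtain ⟨e, he⟩ : ∃ e : ℝ, e = min κ1 (min κ2 κ3) := ⟨_, rfl⟩
  have he0 : 0 < e := by rw [he]; exact lt_min h1 (lt_min h2 h3)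
  obtain ⟨X1, hX1⟩ := u7_large (1 + A1 + A2) (e / 2) (by positivity)
  refine ⟨e / 2, by positivity, max X1 1, fun X hX => ?_⟩
  have hX1' := hX1 X (le_trans (le_max_left _ _) hX)
  have hXr : (1:ℝ) ≤ X := by exact_mod_cast le_trans (le_max_right _ _) hX
  have hX0 : (0:ℝ) < X := by linarith
  have e1 : e ≤ κ1 := by rw [he]; exact min_le_left _ _
  have e2 : e ≤ κ2 := by rw [he]; exact (min_le_right _ _).trans (min_le_left _ _)
  have e3 : e ≤ κ3 := by rw [he]; exact (min_le_right _ _).trans (min_le_right _ _)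
  have q1 : (X : ℝ) ^ (1 + d - κ1) ≤ (X : ℝ) ^ (1 + d - e) :=
    Real.rpow_le_rpow_of_exponent_le hXr (by linarith)
  have q2 : (X : ℝ) ^ (1 + d - κ2) ≤ (X : ℝ) ^ (1 + d - e) :=
    Real.rpow_le_rpow_of_exponent_le hXr (by linarith)
  have q3 : (X : ℝ) ^ (1 + d - κ3) ≤ (X : ℝ) ^ (1 + d - e) :=
    Real.rpow_le_rpow_of_exponent_le hXr (by linarith)
  have hp : (0:ℝ) ≤ (X : ℝ) ^ (1 + d - e) := Real.rpow_nonneg hX0.le _
  calc (X : ℝ) ^ (1 + d - κ1) + A1 * (X : ℝ) ^ (1 + d - κ2) + A2 * (X : ℝ) ^ (1 + d - κ3)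
      ≤ (X : ℝ) ^ (1 + d - e) + A1 * (X : ℝ) ^ (1 + d - e) + A2 * (X : ℝ) ^ (1 + d - e) := by
        have := mul_le_mul_of_nonneg_left q2 hA1
        have := mul_le_mul_of_nonneg_left q3 hA2
        linarith
    _ = (1 + A1 + A2) * (X : ℝ) ^ (1 + d - e) := by ring
    _ ≤ (X : ℝ) ^ (e / 2) * (X : ℝ) ^ (1 + d - e) := mul_le_mul_of_nonneg_right hX1' hp
    _ = (X : ℝ) ^ (1 + d - e / 2) := by
        rw [← Real.rpow_add hX0]
        ring_nf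

theorem z4a_Qpow (Q X Y C0 : ℕ) (K : ℝ) (hK : 20 ≤ K) (h : RegP K Q Y) (hY : Y ≤ C0 * X)
    (hC : C0 ≤ X) : Q * Q ^ 8 ≤ X := by
  obtain ⟨h1, h2, h3⟩ := h
  have hl : 0 ≤ Real.log Q := Real.log_natCast_nonneg Q
  rcases Nat.eq_zero_or_pos Q with hq | hq
  · rw [hq]
    simp
  rcases Nat.eq_zero_or_pos Y with hy | hy
  · rw [hy] at h1
    simp at h1
    linarith
  have hqr : (0:ℝ) < Q := by exact_mod_cast hq
  have hyr : (0:ℝ) < Y := by exact_mod_cast hy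
  have h4 : Real.log ((Q:ℝ) ^ 20) ≤ Real.log Y := by
    rw [Real.log_pow]
    push_cast
    have : 20 * Real.log Q ≤ K * Real.log Q := mul_le_mul_of_nonneg_right hK hl
    linarith
  have h5 : (Q:ℝ) ^ 20 ≤ Y := (Real.log_le_log_iff (by positivity) hyr).1 h4
  have h6 : Q ^ 20 ≤ Y := by exact_mod_cast h5
  have h7 : Q ^ 20 ≤ X ^ 2 := by
    calc Q ^ 20 ≤ Y := h6
      _ ≤ C0 * X := hY
      _ ≤ X * X := Nat.mul_le_mul_right _ hC
      _ = X ^ 2 := by ring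
  have h8 : Q ^ 10 ≤ X := by
    have : (Q ^ 10) ^ 2 ≤ X ^ 2 := by
      rw [← pow_mul]
      exact h7
    exact (pow_le_pow_iff_left₀ (Nat.zero_le _) (Nat.zero_le _) two_ne_zero).1 this
  calc Q * Q ^ 8 = Q ^ 9 := by ring
    _ ≤ Q ^ 10 := Nat.pow_le_pow_right hq (by norm_num)
    _ ≤ X := h8

theorem z4a_Qlow (Q X Y : ℕ) (Cr : ℝ) (hCr : 1 ≤ Cr) (hX : 1 ≤ X) (hXY : X ≤ Y) (hQ : 1 ≤ Q)
    (h : Real.log Y ≤ Cr * Real.log Q) : (X : ℝ) ^ (1 / Cr) ≤ Q := by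
  have hX0 : (0:ℝ) < X := by exact_mod_cast hX
  have hQ0 : (0:ℝ) < Q := by exact_mod_cast hQ
  have hC0 : 0 < Cr := by linarith
  have h1 : Real.log X ≤ Real.log Y := Real.log_le_log hX0 (by exact_mod_cast hXY)
  rw [← Real.log_le_log_iff (Real.rpow_pos_of_pos hX0 _) hQ0, Real.log_rpow hX0, one_div,
    inv_mul_le_iff₀ hC0]
  linarith

theorem z4a_cells {k d : ℕ} (S : Sys k d) (c C : ℝ)
    (hZ : ∀ (Q D D1 D2 : ℕ) (px : Ch), 1 ≤ D2 → px.1 * D2 ≤ D1 → D1 ≤ D → D ≤ Q → px ∈ PC Q →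
    ∀ (b : Fin k → ℤ) (a H T : ℕ), Q ^ (10 * (k + 1)) ≤ H → Q ^ (10 * (k + 1)) ≤ T →
    (∀ t ∈ bx d T, ∀ n ∈ Ico a (a + H), ∀ i, 0 ≤ S.val b n (iv t) i) →
    ∀ (M : ℝ) (mb : Fin k → Ch → ℝ), 1 ≤ M → (∀ i, ∀ p ∈ PC Q, 0 ≤ mb i p) → (∀ i, ∑ p ∈ PC Q, mb i p ≤ M) →
    ∀ c' : (Fin d → ℕ) → Fin k → Ch → ℂ, (∀ t ∈ bx d T, ∀ i, ∀ p ∈ PC Q, ‖c' t i p‖ ≤ mb i p) →
    ∑ t ∈ bx d T, ‖∑ n ∈ Ico a (a + H), ∏ i, SG Q (c' t i) (S.val b n (iv t) i) -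
        H * MCS S b (iv t) Q D D1 px (c' t)‖ ≤
      M ^ k * (C * (1 + Real.log Q) ^ C * ((T : ℝ) ^ d * H) * (D2 : ℝ) ^ (-c)))
    (Q Q' D D1 D2 H L T : ℕ) (px : Ch) (hD2 : 1 ≤ D2) (hD21 : px.1 * D2 ≤ D1) (hD1 : D1 ≤ D)
    (hDQ : D ≤ Q') (hpx : px ∈ PC Q') (hQQ : Q' ≤ Q) (b : Fin k → ℤ) (hH1 : 1 ≤ H) (hH : Q' ^ (10 * (k + 1)) ≤ H)
    (hT : Q' ^ (10 * (k + 1)) ≤ T) (Xs : Fin k → ℕ)
    (hval : ∀ i, ∀ n ∈ range L, ∀ t ∈ bx d T, (Xs i : ℤ) ≤ S.val b n (iv t) i ∧ S.val b n (iv t) i ≤ 4 * Xs i)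
    (M : ℝ) (hM : 1 ≤ M) (mb : Fin k → Ch → ℝ) (hmb0 : ∀ i, ∀ p ∈ PC Q, 0 ≤ mb i p)
    (hmbs : ∀ i, ∑ p ∈ PC Q, mb i p ≤ M)
    (hmb : ∀ i, ∀ m : ℤ, (Xs i : ℤ) ≤ m → m ≤ 4 * Xs i → ∀ p ∈ PC Q, ‖Bc Q (Xs i) p m‖ ≤ mb i p) :
    ∑ t ∈ bx d T, ‖∑ j ∈ range (L / H), ∑ n ∈ Ico (j * H) (j * H + H),
        ∏ i, SG Q' (fun p => Bc Q (Xs i) p (S.val b ((j * H : ℕ) : ℤ) (iv t) i)) (S.val b n (iv t) i) -
      ∑ j ∈ range (L / H), ((H : ℕ) : ℂ) * MCS S b (iv t) Q' D D1 px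
        (fun i p => Bc Q (Xs i) p (S.val b ((j * H : ℕ) : ℤ) (iv t) i))‖ ≤
      ((L / H : ℕ) : ℝ) * (M ^ k * (C * (1 + Real.log Q') ^ C * ((T : ℝ) ^ d * H) * (D2 : ℝ) ^ (-c))) := by
  have hsub : PC Q' ⊆ PC Q := by
    intro p hp
    obtain ⟨a, b, c⟩ := Pool.Agent.Lib.H68T.mem_PC.1 hp
    exact Pool.Agent.Lib.H68T.mem_PC.2 ⟨a, b.trans hQQ, c⟩
  have h := z4a_sum (bx d T) (range (L / H))
    (fun j t => ∑ n ∈ Ico (j * H) (j * H + H),
        ∏ i, SG Q' (fun p => Bc Q (Xs i) p (S.val b ((j * H : ℕ) : ℤ) (iv t) i)) (S.val b n (iv t) i))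
    (fun j t => ((H : ℕ) : ℂ) * MCS S b (iv t) Q' D D1 px
        (fun i p => Bc Q (Xs i) p (S.val b ((j * H : ℕ) : ℤ) (iv t) i)))
    (M ^ k * (C * (1 + Real.log Q') ^ C * ((T : ℝ) ^ d * H) * (D2 : ℝ) ^ (-c))) (fun j hj => by
      have hj' : (j + 1) * H ≤ L :=
        le_trans (Nat.mul_le_mul_right _ (Finset.mem_range.1 hj)) (Nat.div_mul_le_self L H)
      have hj2 : j * H + H ≤ L := by
        rw [← Nat.succ_mul]
        exact hj'
      exact hZ Q' D D1 D2 px hD2 hD21 hD1 hDQ hpx b (j * H) H T hH hT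
        (fun t ht n hn i => by
          have hn' := Finset.mem_Ico.1 hn
          have := (hval i n (Finset.mem_range.2 (by omega)) t ht).1
          omega)
        M mb hM (fun i p hp => hmb0 i p (hsub hp))
        (fun i => (Finset.sum_le_sum_of_subset_of_nonneg hsub fun p hp _ => hmb0 i p hp).trans (hmbs i))
        (fun t i p => Bc Q (Xs i) p (S.val b ((j * H : ℕ) : ℤ) (iv t) i))
        (fun t ht i p hp => by
          have hv := hval i (j * H) (Finset.mem_range.2 (by omega)) t ht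
          exact hmb i _ hv.1 hv.2 p (hsub hp)))
  rw [Finset.card_range] at h
  exact h

/-- Proof. `K` the maximum of the constants of `U7_tel`, `V1S`, `UM_mass` and `20`. With `H = X / Q^8` (so `H Q^8 ≤ X`, `Q ≤ H` since `20 log Q ≤ log X`, hence
`Q'^(10 (k+1)) ≤ H`) add: `U7_tel` (exponent `κ4`); `V1S` for each `t` (`T^d X/Q`, `Q ≥ X^(1/(2 Cr))`); `Z2S` with `Q := Q'` for each cell `j < L/H`, `a = j H`,
`c' t i p = Bc Q (Xs i) p (val b (jH) (iv t) i)`, `mb` from `UM_mass` for `(Q, Xs i)` (restricted to `PC Q' ⊆ PC Q`): the sum over the cells is at most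
`(L/H) H T^d M^k C (1+log Q')^C D2^(-c)`, `L ≤ C0 X`, `T ≤ C0 X`, `D2 ≥ Q'^δ3 ≥ X^(θ δ3)` (`Rgm.low`, `X ≤ Xs i`). `κ = min (κ4) (1/(2Cr)) (c θ δ3)/2`. (`k = 0`: `Fin 0` has no
`Xs i`; then both products are `1`, the difference is at most `H`; or use `PS: 1 ≤ k`.) -/
theorem Z4A_avg (hI : Pool.Agent.H9S.INV) {k d : ℕ} (hk : 1 ≤ k) (S : Sys k d) (hS : S.Half) (hL : LBig S) : ∃ K : ℝ, 1 ≤ K ∧
    ∀ Cr θ δ3 : ℝ, 1 ≤ Cr → 0 < θ → 0 < δ3 → ∀ C0 : ℕ, ∃ κ : ℝ, 0 < κ ∧ ∃ X0 : ℕ, ∀ Q Q' X : ℕ, X0 ≤ X →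
    ∀ Xs : Fin k → ℕ, (∀ i, X ≤ Xs i ∧ Xs i ≤ C0 * X) → (∀ i, Rgm K Cr θ Q Q' (Xs i)) → Q' ^ (20 * (k + 1)) ≤ Q →
    ∀ (D D1 D2 : ℕ) (px : Ch), 1 ≤ D2 → px.1 * D2 ≤ D1 → D1 ≤ D → D ≤ Q' → px ∈ PC Q' → (Q' : ℝ) ^ δ3 ≤ D2 →
    ∀ (b : Fin k → ℤ) (L T : ℕ), L ≤ C0 * X → T ≤ C0 * X → Q' ^ (10 * (k + 1)) ≤ T →
    (∀ i, ∀ n ∈ range L, ∀ t ∈ bx d T, S.val b n (iv t) i ∈ JJ (Xs i)) →
    ∑ t ∈ bx d T, ‖((∑ n ∈ range L, ∏ i, lp (S.val b n (iv t) i) : ℝ) : ℂ) -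
      ∑ j ∈ range (L / (X / Q ^ 8)), ((X / Q ^ 8 : ℕ) : ℂ) * MCS S b (iv t) Q' D D1 px
        (fun i p => Bc Q (Xs i) p (S.val b ((j * (X / Q ^ 8) : ℕ) : ℤ) (iv t) i))‖ ≤ (X : ℝ) ^ (1 + d - κ) := by
  obtain ⟨K1, hK1, hU⟩ := U7_tel hI S hS
  obtain ⟨K2, hK2, hV⟩ := V1S S
  obtain ⟨K3, CM, hK3, hCM, hMs⟩ := Pool.Agent.Lib.H59T.UM_mass
  obtain ⟨c, C, hc, hC, hZ⟩ := Z2S S hL
  refine ⟨max (max K1 K2) (max K3 20), le_trans hK1 (le_trans (le_max_left _ _) (le_max_left _ _)), ?_⟩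
  intro Cr θ δ3 hCr hθ hδ C0
  obtain ⟨κ4, hκ4, X4, hX4⟩ := hU Cr θ hCr hθ C0
  obtain ⟨Q0, hQ0⟩ := hV C0
  have hCr0 : 0 < Cr := by linarith
  obtain ⟨X5, hX5⟩ := u7_large (Q0 : ℝ) (1 / Cr) (by positivity)
  obtain ⟨κ, hκ, X6, hX6⟩ := z4a_final d ((C0 : ℝ) ^ d)
    (CM ^ k * C * (1 + C / (c * θ * δ3 / 2)) ^ C * (C0 : ℝ) ^ (d + 1)) κ4 (1 / Cr) (c * θ * δ3 / 2)
    hκ4 (by positivity) (by positivity) (by positivity)
    (by
      have : (0:ℝ) ≤ (1 + C / (c * θ * δ3 / 2)) ^ C := Real.rpow_nonneg (by positivity) _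
      positivity)
  refine ⟨κ, hκ, max (max X4 X5) (max X6 (max 1 C0)), ?_⟩
  intro Q Q' X hX Xs hXs hR hQ20 D D1 D2 px hD2 hD21 hD1 hDQ hpx hD2b b L T hLX hTX hTQ hval
  have a4 : X4 ≤ X := le_trans (le_trans (le_max_left _ _) (le_max_left _ _)) hX
  have a5 : X5 ≤ X := le_trans (le_trans (le_max_right _ _) (le_max_left _ _)) hX
  have a6 : X6 ≤ X := le_trans (le_trans (le_max_left _ _) (le_max_right _ _)) hX
  have a7 : max 1 C0 ≤ X := le_trans (le_trans (le_max_right _ _) (le_max_right _ _)) hX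
  have hX1 : 1 ≤ X := le_trans (le_max_left _ _) a7
  have hXC : C0 ≤ X := le_trans (le_max_right _ _) a7
  have hX1r : (1:ℝ) ≤ X := by exact_mod_cast hX1
  obtain ⟨i0⟩ : Nonempty (Fin k) := ⟨⟨0, hk⟩⟩
  have hKpos : (0:ℝ) ≤ max (max K1 K2) (max K3 20) := by
    have := le_max_right K3 20
    have := le_max_right (max K1 K2) (max K3 20)
    linarith
  have hQ'1 : 1 ≤ Q' := by
    obtain ⟨p1, p2, -⟩ := Pool.Agent.Lib.H68T.mem_PC.1 hpx
    exact le_trans p1 p2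
  have hQQ : Q' ≤ Q := (hR i0).le
  have hQ1 : 1 ≤ Q := le_trans hQ'1 hQQ
  have hQpow : Q * Q ^ 8 ≤ X := z4a_Qpow Q X (Xs i0) C0 20 le_rfl
    ((hR i0).reg.mono hKpos (le_trans (le_max_right _ _) (le_max_right _ _))) (hXs i0).2 hXC
  have hQlow : (X : ℝ) ^ (1 / Cr) ≤ Q := z4a_Qlow Q X (Xs i0) Cr hCr hX1 (hXs i0).1 hQ1 (hR i0).log
  have hQ0' : Q0 ≤ Q := by exact_mod_cast le_trans (hX5 X a5) hQlow
  have hlow : (X : ℝ) ^ θ ≤ Q' := le_trans (Real.rpow_le_rpow (by linarith)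
    (by exact_mod_cast (hXs i0).1) hθ.le) (hR i0).low
  have hQX : Q ≤ X := by
    refine le_trans ?_ hQpow
    exact Nat.le_mul_of_pos_right _ (Nat.pow_pos hQ1)
  obtain ⟨H, hHd⟩ : ∃ H : ℕ, H = X / Q ^ 8 := ⟨_, rfl⟩
  rw [← hHd]
  have hQH : Q ≤ H := by
    rw [hHd, Nat.le_div_iff_mul_le (Nat.pow_pos hQ1)]
    exact hQpow
  have hH1 : 1 ≤ H := le_trans hQ1 hQH
  have hHX : H * Q ^ 8 ≤ X := by
    rw [hHd]
    exact Nat.div_mul_le_self _ _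
  have hH10 : Q' ^ (10 * (k + 1)) ≤ H := by
    refine le_trans (le_trans ?_ hQ20) hQH
    exact Nat.pow_le_pow_right hQ'1 (by omega)
  have hval' : ∀ i, ∀ n ∈ range L, ∀ t ∈ bx d T, (Xs i : ℤ) ≤ S.val b n (iv t) i ∧
      S.val b n (iv t) i ≤ 4 * Xs i := by
    intro i n hn t ht
    have h1 := hval i n hn t ht
    unfold JJ at h1
    have h2 := Finset.mem_Ico.1 h1
    constructor <;> omega
  have hms := fun i => hMs Q (Xs i) ((hR i).reg.mono hKpos (le_trans (le_max_left _ _) (le_max_right _ _)))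
  choose mb hmb0 hmbs hmb using hms
  have hR1 : ∀ i, Rgm K1 Cr θ Q Q' (Xs i) := fun i =>
    ⟨(hR i).reg.mono hKpos (le_trans (le_max_left _ _) (le_max_left _ _)), (hR i).log, (hR i).low, (hR i).le⟩
  have p1 := hX4 Q Q' X a4 Xs hXs hR1 b L T hLX hTX hval
  have p2 : ∀ t ∈ bx d T, _ := fun t ht => hQ0 Q Q' X H L hQ0' hQ'1 hQ20 hH1 hHX hLX Xs (fun i => (hXs i).1)
    (fun i => (hR i).reg.mono hKpos (le_trans (le_max_right _ _) (le_max_left _ _))) b (iv t)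
    (fun i n hn => hval' i n hn t ht)
  have p3 := z4a_cells S c C hZ Q Q' D D1 D2 H L T px hD2 hD21 hD1 hDQ hpx hQQ b hH1 hH10 hTQ Xs hval'
    CM hCM mb hmb0 hmbs hmb
  have q2 := z4a_second d C0 X Q T Cr hX1 hTX hQlow
  have q3 := z4a_third k d C0 c C CM θ δ3 hc hC hCM hθ hδ X Q' T L H D2 hQ'1 (le_trans hQQ hQX) hTX hLX hlow hD2b
  have q4 := hX6 X a6
  have tri : ∀ t ∈ bx d T, ‖((∑ n ∈ range L, ∏ i, lp (S.val b n (iv t) i) : ℝ) : ℂ) -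
      ∑ j ∈ range (L / H), ((H : ℕ) : ℂ) * MCS S b (iv t) Q' D D1 px
        (fun i p => Bc Q (Xs i) p (S.val b ((j * H : ℕ) : ℤ) (iv t) i))‖ ≤
      |∑ n ∈ range L, (∏ i, lp (S.val b n (iv t) i) - ∏ i, Lk Q' (Xs i / Q ^ 2) (S.val b n (iv t) i))| +
      (X / Q : ℝ) +
      ‖∑ j ∈ range (L / H), ∑ n ∈ Ico (j * H) (j * H + H),
        ∏ i, SG Q' (fun p => Bc Q (Xs i) p (S.val b ((j * H : ℕ) : ℤ) (iv t) i)) (S.val b n (iv t) i) -
      ∑ j ∈ range (L / H), ((H : ℕ) : ℂ) * MCS S b (iv t) Q' D D1 px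
        (fun i p => Bc Q (Xs i) p (S.val b ((j * H : ℕ) : ℤ) (iv t) i))‖ := by
    intro t ht
    have e1 : ‖((∑ n ∈ range L, ∏ i, lp (S.val b n (iv t) i) : ℝ) : ℂ) -
        ((∑ n ∈ range L, ∏ i, Lk Q' (Xs i / Q ^ 2) (S.val b n (iv t) i) : ℝ) : ℂ)‖ =
        |∑ n ∈ range L, (∏ i, lp (S.val b n (iv t) i) - ∏ i, Lk Q' (Xs i / Q ^ 2) (S.val b n (iv t) i))| := by
      rw [← Complex.ofReal_sub, ← Finset.sum_sub_distrib, Complex.norm_real, Real.norm_eq_abs]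
    have e2 := p2 t ht
    rw [← e1]
    refine le_trans (norm_sub_le_norm_sub_add_norm_sub _
      (((∑ n ∈ range L, ∏ i, Lk Q' (Xs i / Q ^ 2) (S.val b n (iv t) i) : ℝ) : ℂ)) _) ?_
    rw [add_assoc]
    refine add_le_add le_rfl ?_
    refine le_trans (norm_sub_le_norm_sub_add_norm_sub _ (∑ j ∈ range (L / H), ∑ n ∈ Ico (j * H) (j * H + H),
        ∏ i, SG Q' (fun p => Bc Q (Xs i) p (S.val b ((j * H : ℕ) : ℤ) (iv t) i)) (S.val b n (iv t) i)) _) ?_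
    exact add_le_add e2 le_rfl
  refine le_trans (Finset.sum_le_sum tri) ?_
  rw [Finset.sum_add_distrib, Finset.sum_add_distrib, Finset.sum_const, z4a_card, nsmul_eq_mul, Nat.cast_pow]
  refine le_trans ?_ q4
  exact add_le_add (add_le_add p1 q2) (le_trans p3 q3)

end Pool.Agent.H9U
end

-- from Lib.H9U.Z4
section

/-!
# H9U, chunk Z4 (M): few `t` with few prime values, for given data of the small level
-/

open Finset

namespace Pool.Agent.H9U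

open Pool.Agent.Lib.H68T (lp Lk PC p0)
open Pool.Agent.Lib.H18Q (gk KS SG Bc RegP)
open Pool.Agent.Lib.H59P (Ch SF bx TS Rp MX pr)

lemma z4_large (c M : ℝ) (hc : 0 < c) : ∃ X0 : ℕ, ∀ X : ℕ, X0 ≤ X → M ≤ (X : ℝ) ^ c := by
  have h1 : Filter.Tendsto (fun X : ℕ => (X : ℝ) ^ c) Filter.atTop Filter.atTop :=
    (tendsto_rpow_atTop hc).comp tendsto_natCast_atTop_atTop
  exact Filter.eventually_atTop.1 (h1.eventually_ge_atTop M)

lemma z4_rgm {K K' Cr θ : ℝ} {Q Q' X : ℕ} (h : Rgm K Cr θ Q Q' X) (h0 : 0 ≤ K) (hK : K' ≤ K) :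
    Rgm K' Cr θ Q Q' X := ⟨h.reg.mono h0 hK, h.log, h.low, h.le⟩

lemma z4_card_bx (d T : ℕ) : (bx d T).card = T ^ d := by
  unfold bx
  rw [Fintype.card_piFinset, Finset.prod_const, Finset.card_univ, Fintype.card_fin, Finset.card_range]

lemma z4_QX {K : ℝ} {Q X : ℕ} (h : RegP K Q X) (hK : 1 ≤ K) (hX : 0 < X) : Q ≤ X := by
  obtain ⟨h1, h2, h3⟩ := h
  rcases Nat.eq_zero_or_pos Q with h0 | h0
  · omega
  · have hQ0 : 0 ≤ Real.log Q := Real.log_natCast_nonneg Q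
    have h4 : Real.log Q ≤ Real.log X := by
      calc Real.log Q = 1 * Real.log Q := (one_mul _).symm
        _ ≤ K * Real.log Q := mul_le_mul_of_nonneg_right hK hQ0
        _ ≤ _ := h3
    have h5 := (Real.log_le_log_iff (by exact_mod_cast h0) (by exact_mod_cast hX)).1 h4
    exact_mod_cast h5

/-- the case of small `T`. -/
lemma z4_small {d : ℕ} (hd : 1 ≤ d) (C0 X T n : ℕ) (hX : 1 ≤ X) (κ : ℝ) (hκ : κ ≤ 1 / 4)
    (h1 : T * T ≤ C0 * X) (h2 : n ≤ T ^ d) (h3 : (C0 : ℝ) ^ d ≤ (X : ℝ) ^ (1 / 2 : ℝ)) :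
    (n : ℝ) ≤ (X : ℝ) ^ ((d : ℝ) - κ) := by
  have hX0 : (0 : ℝ) < X := by exact_mod_cast hX
  have hX1 : (1 : ℝ) ≤ X := by exact_mod_cast hX
  have hd1 : (1 : ℝ) ≤ d := by exact_mod_cast hd
  have e1 : n ^ 2 ≤ (C0 * X) ^ d := by
    calc n ^ 2 ≤ (T ^ d) ^ 2 := Nat.pow_le_pow_left h2 2
      _ = (T * T) ^ d := by rw [← pow_mul, mul_comm d 2, pow_mul, sq]
      _ ≤ (C0 * X) ^ d := Nat.pow_le_pow_left h1 d
  have e2 : (n : ℝ) ^ 2 ≤ (C0 : ℝ) ^ d * (X : ℝ) ^ d := by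
    rw [← mul_pow]
    exact_mod_cast e1
  have e3 : (n : ℝ) ^ 2 ≤ ((X : ℝ) ^ ((d : ℝ) - κ)) ^ 2 := by
    calc (n : ℝ) ^ 2 ≤ (C0 : ℝ) ^ d * (X : ℝ) ^ d := e2
      _ ≤ (X : ℝ) ^ (1 / 2 : ℝ) * (X : ℝ) ^ d := mul_le_mul_of_nonneg_right h3 (by positivity)
      _ = (X : ℝ) ^ (1 / 2 + (d : ℝ)) := by
        rw [Real.rpow_add hX0, Real.rpow_natCast]
      _ ≤ (X : ℝ) ^ (((d : ℝ) - κ) * 2) := Real.rpow_le_rpow_of_exponent_le hX1 (by linarith)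
      _ = _ := by
        rw [Real.rpow_mul hX0.le]
        norm_num
  exact (pow_le_pow_iff_left₀ (Nat.cast_nonneg n) (by positivity) two_ne_zero).1 e3

open Classical in
/-- the `t` with a vanishing minor. -/
lemma z4_minor {k d : ℕ} (S : Sys k d) (hS : S.Half) (hd : 1 ≤ d) (b : Fin k → ℤ) (T : ℕ) (hT : 0 < T) :
    ((bx d T).filter (fun t => ∃ i j, i ≠ j ∧ S.minr b (iv t) i j = 0)).card ≤ k * k * T ^ (d - 1) := by
  have h1 : (bx d T).filter (fun t => ∃ i j, i ≠ j ∧ S.minr b (iv t) i j = 0) ⊆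
      (univ : Finset (Fin k)).offDiag.biUnion
        (fun ij => (bx d T).filter (fun t => S.minr b (iv t) ij.1 ij.2 = 0)) := by
    intro t ht
    rw [Finset.mem_filter] at ht
    obtain ⟨h0, i, j, hij, hm⟩ := ht
    rw [Finset.mem_biUnion]
    exact ⟨(i, j), Finset.mem_offDiag.2 ⟨mem_univ _, mem_univ _, hij⟩, Finset.mem_filter.2 ⟨h0, hm⟩⟩
  refine (Finset.card_le_card h1).trans ?_
  refine (Finset.card_biUnion_le_card_mul _ _ (T ^ (d - 1)) ?_).trans ?_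
  · intro ij hij
    rw [Finset.mem_offDiag] at hij
    have h2 := T6S_card S hS ij.1 ij.2 hij.2.2 b T
    have h3 : T ^ d = T ^ (d - 1) * T := by
      rw [← pow_succ]
      congr 1
      omega
    rw [h3] at h2
    exact Nat.le_of_mul_le_mul_right h2 hT
  · refine Nat.mul_le_mul_right _ ?_
    rw [Finset.offDiag_card, Finset.card_univ, Fintype.card_fin]
    exact Nat.sub_le _ _

/-- the bound for the exceptional set. -/
lemma z4_exc {k d : ℕ} (X n : ℕ) (hX : 1 ≤ X) (η κ' : ℝ)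
    (hη : (X : ℝ) ^ (-(κ' / 4)) ≤ η ^ k)
    (h1 : (n : ℝ) * (X * (η ^ k * Real.exp (-(4 * k : ℝ))) / 16) ≤ (X : ℝ) ^ (1 + (d : ℝ) - κ'))
    (h2 : 32 * Real.exp (4 * k : ℝ) ≤ (X : ℝ) ^ (κ' / 2)) :
    (n : ℝ) ≤ (X : ℝ) ^ ((d : ℝ) - κ' / 4) / 2 := by
  have hX0 : (0 : ℝ) < X := by exact_mod_cast hX
  have hn : (0 : ℝ) ≤ n := Nat.cast_nonneg n
  have hW : 0 < (X : ℝ) ^ (1 - κ' / 4) := Real.rpow_pos_of_pos hX0 _
  have e0 : (X : ℝ) * (X : ℝ) ^ (-(κ' / 4)) = (X : ℝ) ^ (1 - κ' / 4) := by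
    rw [sub_eq_add_neg, Real.rpow_add hX0, Real.rpow_one]
  have e1 : (X : ℝ) ^ (1 - κ' / 4) * (n * (Real.exp (-(4 * k : ℝ)) / 16)) ≤
      (X : ℝ) ^ (1 - κ' / 4) * (X : ℝ) ^ ((d : ℝ) - 3 * κ' / 4) := by
    have e2 : (X : ℝ) ^ (1 - κ' / 4) * (X : ℝ) ^ ((d : ℝ) - 3 * κ' / 4) = (X : ℝ) ^ (1 + (d : ℝ) - κ') := by
      rw [← Real.rpow_add hX0]
      congr 1
      ring
    rw [e2]
    refine le_trans ?_ h1
    have e3 : (X : ℝ) ^ (1 - κ' / 4) * (n * (Real.exp (-(4 * k : ℝ)) / 16)) =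
        n * (X * ((X : ℝ) ^ (-(κ' / 4)) * Real.exp (-(4 * k : ℝ))) / 16) := by
      rw [← e0]
      ring
    rw [e3]
    refine mul_le_mul_of_nonneg_left ?_ hn
    refine div_le_div_of_nonneg_right ?_ (by norm_num)
    refine mul_le_mul_of_nonneg_left ?_ hX0.le
    exact mul_le_mul_of_nonneg_right hη (Real.exp_pos _).le
  have e4 := le_of_mul_le_mul_left e1 hW
  have e5 : (n : ℝ) ≤ 16 * Real.exp (4 * k : ℝ) * (X : ℝ) ^ ((d : ℝ) - 3 * κ' / 4) := by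
    have e6 : Real.exp (4 * k : ℝ) * Real.exp (-(4 * k : ℝ)) = 1 := by
      rw [← Real.exp_add, add_neg_cancel, Real.exp_zero]
    have e7 : (n : ℝ) = 16 * Real.exp (4 * k : ℝ) * (n * (Real.exp (-(4 * k : ℝ)) / 16)) := by
      have : 16 * Real.exp (4 * k : ℝ) * (n * (Real.exp (-(4 * k : ℝ)) / 16)) =
        n * (Real.exp (4 * k : ℝ) * Real.exp (-(4 * k : ℝ))) := by ring
      rw [this, e6, mul_one]
    rw [e7]
    exact mul_le_mul_of_nonneg_left e4 (by positivity)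
  have e8 : (X : ℝ) ^ ((d : ℝ) - κ' / 4) = (X : ℝ) ^ (κ' / 2) * (X : ℝ) ^ ((d : ℝ) - 3 * κ' / 4) := by
    rw [← Real.rpow_add hX0]
    congr 1
    ring
  rw [e8]
  have e9 : 0 ≤ (X : ℝ) ^ ((d : ℝ) - 3 * κ' / 4) := Real.rpow_nonneg hX0.le _
  have e10 := mul_le_mul_of_nonneg_right h2 e9
  linarith

open Classical in
/-- Proof. If `T < Q'^(10 (k+1)) ≤ Q ≤ X^(1/20)` the count is at most `T^d ≤ X^(d/2) ≤ X^(d-κ)` (`d ≥ 1`). Otherwise let `E(t)` be the summand of `Z4A_avg`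
(exponent `κ'`). By `Z4B_low` every `t` of the set has a vanishing minor (at most `k² T^(d-1)`, `T6S_card`) or `E(t) ≥ X η^k exp(-4k)/16`, and the number of the latter is at most
`16 e^(4k) X^(k ε1) X^(d - κ')`. `ε1` the minimum of that of `Z4B_low` and `κ'/(4k)` (the hypothesis `X^(-ε1) ≤ η` is stronger for a smaller `ε1`), `κ = min κ' 1/4`. -/
theorem Z4_count (hI : Pool.Agent.H9S.INV) {k d : ℕ} (hk : 1 ≤ k) (hd : 1 ≤ d) (S : Sys k d) (hS : S.Half) (hL : LBig S) :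
    ∃ K : ℝ, 1 ≤ K ∧
    ∀ Cr θ δ3 : ℝ, 1 ≤ Cr → 0 < θ → 0 < δ3 → ∀ C0 : ℕ, ∃ κ ε1 : ℝ, 0 < κ ∧ 0 < ε1 ∧ ∃ X0 : ℕ, ∀ Q Q' X : ℕ, X0 ≤ X →
    ∀ Xs : Fin k → ℕ, (∀ i, X ≤ Xs i ∧ Xs i ≤ C0 * X) → (∀ i, Rgm K Cr θ Q Q' (Xs i)) → Q' ^ (20 * (k + 1)) ≤ Q →
    ∀ (D D1 D2 : ℕ) (η E0 : ℝ) (px : Ch) (th : ℤ → ℝ), Dat k Q Q' D D1 D2 η E0 px th Xs → (Q' : ℝ) ^ δ3 ≤ D2 →
    (X : ℝ) ^ (-ε1) ≤ η → ∀ (b : Fin k → ℤ) (L T : ℕ), X ≤ L → L ≤ C0 * X → T ≤ C0 * X →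
    (∀ i, ∀ n ∈ range L, ∀ t ∈ bx d T, S.val b n (iv t) i ∈ JJ (Xs i)) →
    (((bx d T).filter (fun t => S.Adm b (iv t) ∧ ∑ n ∈ range L, ∏ i, lp (S.val b n (iv t) i) <
      X * (η ^ k * Real.exp (-(4 * k : ℝ))) / 16)).card : ℝ) ≤ (X : ℝ) ^ (d - κ) := by
  obtain ⟨K1, hK1, H1⟩ := Z4A_avg hI hk S hS hL
  obtain ⟨K2, hK2, H2⟩ := Z4B_low hk S hS.1
  have hKm : 1 ≤ max K1 K2 := hK1.trans (le_max_left _ _)
  refine ⟨max K1 K2, hKm, ?_⟩
  intro Cr θ δ3 hCr hθ hδ3 C0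
  obtain ⟨κ', hκ', Xa, H1⟩ := H1 Cr θ δ3 hCr hθ hδ3 C0
  obtain ⟨ε', hε', Xb, H2⟩ := H2 Cr θ δ3 hCr hθ hδ3 C0
  have hk0 : (0 : ℝ) < k := by exact_mod_cast hk
  have hε1 : 0 < min ε' (κ' / (4 * k)) := lt_min hε' (by positivity)
  have hκ : 0 < min κ' 1 / 4 := by
    have := lt_min hκ' one_pos
    positivity
  have hκa : min κ' 1 / 4 ≤ 1 / 4 := by
    have := min_le_right κ' (1 : ℝ)
    linarith
  have hκb : min κ' 1 / 4 ≤ κ' / 4 := by
    have := min_le_left κ' (1 : ℝ)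
    linarith
  obtain ⟨Xc, hXc⟩ := z4_large (1 / 2) ((C0 : ℝ) ^ d) (by norm_num)
  obtain ⟨Xd, hXd⟩ := z4_large (1 / 2) (2 * (k * k * (C0 : ℝ) ^ (d - 1))) (by norm_num)
  obtain ⟨Xe, hXe⟩ := z4_large (κ' / 2) (32 * Real.exp (4 * k : ℝ)) (by positivity)
  refine ⟨min κ' 1 / 4, min ε' (κ' / (4 * k)), hκ, hε1,
    max (max Xa Xb) (max (max Xc Xd) (max Xe 1)), ?_⟩
  intro Q Q' X hX Xs hXs hR hQQ D D1 D2 η E0 px th hDat hD2 hη b L T hXL hL1 hT hJ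
  have g1 : Xa ≤ X := le_trans (le_trans (le_max_left _ _) (le_max_left _ _)) hX
  have g2 : Xb ≤ X := le_trans (le_trans (le_max_right _ _) (le_max_left _ _)) hX
  have g3 : Xc ≤ X := le_trans (le_trans (le_trans (le_max_left _ _) (le_max_left _ _)) (le_max_right _ _)) hX
  have g4 : Xd ≤ X := le_trans (le_trans (le_trans (le_max_right _ _) (le_max_left _ _)) (le_max_right _ _)) hX
  have g5 : Xe ≤ X := le_trans (le_trans (le_trans (le_max_left _ _) (le_max_right _ _)) (le_max_right _ _)) hX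
  have hX1 : 1 ≤ X := le_trans (le_trans (le_trans (le_max_right _ _) (le_max_right _ _)) (le_max_right _ _)) hX
  have hX0r : (0 : ℝ) < X := by exact_mod_cast hX1
  have hX1r : (1 : ℝ) ≤ X := by exact_mod_cast hX1
  have f1 := hXc X g3
  have f2 := hXd X g4
  have f3 := hXe X g5
  have i0 : Fin k := ⟨0, hk⟩
  by_cases hT1 : T < Q' ^ (10 * (k + 1))
  · -- small `T`
    refine z4_small hd C0 X T _ hX1 _ hκa ?_ ((card_filter_le _ _).trans (z4_card_bx d T).le) f1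
    have h1 : T * T ≤ Q' ^ (20 * (k + 1)) := by
      calc T * T ≤ Q' ^ (10 * (k + 1)) * Q' ^ (10 * (k + 1)) := Nat.mul_le_mul hT1.le hT1.le
        _ = Q' ^ (20 * (k + 1)) := by
          rw [← pow_add]
          congr 1
          ring
    have h2 : Q ≤ Xs i0 := z4_QX (hR i0).reg hKm (lt_of_lt_of_le hX1 (hXs i0).1)
    exact h1.trans (hQQ.trans (h2.trans (hXs i0).2))
  · have hT1 : Q' ^ (10 * (k + 1)) ≤ T := not_lt.1 hT1
    -- `T` is positive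
    have hQ' : 0 < Q' := by
      have h1 := (hR i0).low
      have h2 : (0 : ℝ) < (Xs i0 : ℝ) := by exact_mod_cast lt_of_lt_of_le hX1 (hXs i0).1
      have h3 : (0 : ℝ) < (Q' : ℝ) := lt_of_lt_of_le (Real.rpow_pos_of_pos h2 θ) h1
      exact_mod_cast h3
    have hT0 : 0 < T := lt_of_lt_of_le (pow_pos hQ' _) hT1
    -- the error terms
    have hRa : ∀ i, Rgm K1 Cr θ Q Q' (Xs i) := fun i =>
      z4_rgm (hR i) (by linarith) (le_max_left _ _)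
    have hRb : ∀ i, Rgm K2 Cr θ Q Q' (Xs i) := fun i =>
      z4_rgm (hR i) (by linarith) (le_max_right _ _)
    have hD1D : D1 ≤ D := (Nat.le_mul_self D1).trans hDat.hD1
    have avg := H1 Q Q' X g1 Xs hXs hRa hQQ D D1 D2 px hDat.D2_pos hDat.hD2 hD1D hDat.hD hDat.mem
      hD2 b L T hL1 hT hT1 hJ
    have hη' : (X : ℝ) ^ (-ε') ≤ η := by
      refine le_trans (Real.rpow_le_rpow_of_exponent_le hX1r ?_) hη
      exact neg_le_neg (min_le_left _ _)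
    have hηk : (X : ℝ) ^ (-(κ' / 4)) ≤ η ^ k := by
      have h1 : (X : ℝ) ^ (-(κ' / (4 * k))) ≤ η := by
        refine le_trans (Real.rpow_le_rpow_of_exponent_le hX1r ?_) hη
        exact neg_le_neg (min_le_right _ _)
      have h2 := pow_le_pow_left₀ (Real.rpow_nonneg hX0r.le _) h1 k
      rw [← Real.rpow_natCast, ← Real.rpow_mul hX0r.le] at h2
      have h3 : -(κ' / (4 * k)) * (k : ℝ) = -(κ' / 4) := by
        field_simp
      rw [h3] at h2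
      exact h2
    obtain ⟨A, hA⟩ : ∃ A, A = (bx d T).filter (fun t => S.Adm b (iv t) ∧
      ∑ n ∈ range L, ∏ i, lp (S.val b n (iv t) i) < X * (η ^ k * Real.exp (-(4 * k : ℝ))) / 16) := ⟨_, rfl⟩
    rw [← hA]
    obtain ⟨G, hG⟩ : ∃ G, G = A.filter (fun t => ¬ ∃ i j, i ≠ j ∧ S.minr b (iv t) i j = 0) := ⟨_, rfl⟩
    have hcard : A.card ≤ k * k * T ^ (d - 1) + G.card := by
      rw [← Finset.card_filter_add_card_filter_not (s := A) (fun t => ∃ i j, i ≠ j ∧ S.minr b (iv t) i j = 0), ← hG]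
      refine Nat.add_le_add_right ?_ _
      refine le_trans (Finset.card_le_card ?_) (z4_minor S hS hd b T hT0)
      intro t ht
      rw [Finset.mem_filter, hA, Finset.mem_filter] at ht
      exact Finset.mem_filter.2 ⟨ht.1.1, ht.2⟩
    -- the set `G`
    have hGb : (G.card : ℝ) * (X * (η ^ k * Real.exp (-(4 * k : ℝ))) / 16) ≤ (X : ℝ) ^ (1 + (d : ℝ) - κ') := by
      refine le_trans ?_ avg
      have hsub : G ⊆ bx d T := by
        intro t ht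
        rw [hG, Finset.mem_filter, hA, Finset.mem_filter] at ht
        exact ht.1.1
      refine le_trans ?_ (Finset.sum_le_sum_of_subset_of_nonneg hsub fun _ _ _ => norm_nonneg _)
      rw [← nsmul_eq_mul]
      refine Finset.card_nsmul_le_sum _ _ _ ?_
      intro t ht
      have ht' := ht
      rw [hG, Finset.mem_filter, hA, Finset.mem_filter] at ht'
      obtain ⟨⟨htb, hadm, hlt⟩, hmin⟩ := ht'
      have hmin' : ∀ i j, i ≠ j → S.minr b (iv t) i j ≠ 0 := fun i j hij h0 => hmin ⟨i, j, hij, h0⟩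
      have low := H2 Q Q' X g2 Xs hXs hRb D D1 D2 η E0 px th hDat hD2 hη' b L (iv t) hXL hadm hmin'
        (fun i n hn => hJ i n hn t htb)
      have h1 := Complex.abs_re_le_norm (((∑ n ∈ range L, ∏ i, lp (S.val b n (iv t) i) : ℝ) : ℂ) -
        ∑ j ∈ range (L / (X / Q ^ 8)), ((X / Q ^ 8 : ℕ) : ℂ) * MCS S b (iv t) Q' D D1 px
        (fun i p => Bc Q (Xs i) p (S.val b ((j * (X / Q ^ 8) : ℕ) : ℤ) (iv t) i)))
      refine le_trans ?_ h1
      rw [Complex.sub_re, Complex.ofReal_re]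
      have h2 := neg_le_abs ((∑ n ∈ range L, ∏ i, lp (S.val b n (iv t) i) : ℝ) -
        (∑ j ∈ range (L / (X / Q ^ 8)), ((X / Q ^ 8 : ℕ) : ℂ) * MCS S b (iv t) Q' D D1 px
        (fun i p => Bc Q (Xs i) p (S.val b ((j * (X / Q ^ 8) : ℕ) : ℤ) (iv t) i))).re)
      refine le_trans ?_ h2
      linarith
    have hG2 := z4_exc (d := d) X G.card hX1 η κ' hηk hGb f3
    have hG3 : (X : ℝ) ^ ((d : ℝ) - κ' / 4) ≤ (X : ℝ) ^ ((d : ℝ) - min κ' 1 / 4) :=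
      Real.rpow_le_rpow_of_exponent_le hX1r (by linarith)
    have hB : ((k * k * T ^ (d - 1) : ℕ) : ℝ) ≤ (X : ℝ) ^ ((d : ℝ) - min κ' 1 / 4) / 2 := by
      have h1 : ((k * k * T ^ (d - 1) : ℕ) : ℝ) ≤ k * k * ((C0 : ℝ) * X) ^ (d - 1) := by
        push_cast
        refine mul_le_mul_of_nonneg_left ?_ (by positivity)
        exact pow_le_pow_left₀ (Nat.cast_nonneg T) (by exact_mod_cast hT) _
      have h2 : (X : ℝ) ^ (d - 1 : ℕ) = (X : ℝ) ^ ((d : ℝ) - 1) := by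
        rw [← Real.rpow_natCast]
        congr 1
        push_cast [hd]
        ring
      have h3 : (X : ℝ) ^ (1 / 2 : ℝ) * (X : ℝ) ^ ((d : ℝ) - 1) ≤ (X : ℝ) ^ ((d : ℝ) - min κ' 1 / 4) := by
        rw [← Real.rpow_add hX0r]
        exact Real.rpow_le_rpow_of_exponent_le hX1r (by linarith)
      rw [mul_pow, h2] at h1
      have h4 := mul_le_mul_of_nonneg_right f2 (Real.rpow_nonneg hX0r.le ((d : ℝ) - 1))
      linarith
    have hfin : (A.card : ℝ) ≤ ((k * k * T ^ (d - 1) : ℕ) : ℝ) + (G.card : ℝ) := by exact_mod_cast hcard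
    linarith

end Pool.Agent.H9U
end

-- from Lib.H59P.YD
section

/-!
# Project H59P, chunk YD: statement (d) for sets
-/

open Finset

namespace Pool.Agent.Lib.H59P

open Pool.Agent.Lib.H68T Pool.Agent.Lib.H18Q


/-- `1 - β ≥ v` for conductors at most `ρ`. -/
theorem yd_zero : ∃ m0 : ℝ, 0 < m0 ∧ m0 ≤ 1 ∧ ∀ ρ : ℝ, 1 ≤ ρ → ∀ (r : ℕ) [NeZero r] (ψ : DirichletCharacter ℂ r),
    (r : ℝ) ≤ ρ → ψ.IsPrimitive → ψ ≠ 1 → ψ ^ 2 = 1 → ∀ β : ℝ, β < 1 → ψ.LFunction (β : ℂ) = 0 →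
    m0 / (4 * ρ ^ 2) ≤ 1 - β := by
  obtain ⟨cz, hcz, H⟩ := zero_lower
  refine ⟨min 1 cz, by positivity, min_le_left _ _, ?_⟩
  intro ρ hρ r _ ψ hr _ hψ hψ2 β hβ h0
  refine le_trans ?_ (H r ψ hψ hψ2 β hβ h0)
  have hr1 : (1 : ℝ) ≤ r := by
    have : 0 < r := Nat.pos_of_ne_zero (NeZero.ne r)
    exact_mod_cast this
  have hlog : 0 ≤ Real.log r := Real.log_nonneg hr1
  have hs0 : 0 ≤ Real.sqrt r := Real.sqrt_nonneg _
  have hs1 : Real.sqrt r * Real.sqrt r = r := Real.mul_self_sqrt (by linarith)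
  have h1 : 1 + Real.log r ≤ 2 * Real.sqrt r := by
    have h2 : Real.log r = 2 * Real.log (Real.sqrt r) := by
      rw [Real.log_sqrt (by linarith)]; ring
    have h3 := Real.log_le_sub_one_of_pos (Real.sqrt_pos.2 (show (0 : ℝ) < r by linarith))
    linarith
  have h2 : (1 + Real.log r) ^ 2 ≤ 4 * r := by
    calc (1 + Real.log r) ^ 2 ≤ (2 * Real.sqrt r) ^ 2 := pow_le_pow_left₀ (by linarith) h1 2
      _ = 4 * r := by rw [mul_pow, sq (Real.sqrt _), hs1]; norm_num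
  have h3 : (r : ℝ) * (1 + Real.log r) ^ 2 ≤ 4 * ρ ^ 2 := by
    calc (r : ℝ) * (1 + Real.log r) ^ 2 ≤ r * (4 * r) := mul_le_mul_of_nonneg_left h2 (by linarith)
      _ = 4 * r ^ 2 := by ring
      _ ≤ 4 * ρ ^ 2 := by
        have := pow_le_pow_left₀ (show (0 : ℝ) ≤ r by linarith) hr 2
        linarith
  calc min 1 cz / (4 * ρ ^ 2) ≤ cz / (4 * ρ ^ 2) := by
        apply div_le_div_of_nonneg_right (min_le_right _ _) (by positivity)
    _ ≤ cz / (r * (1 + Real.log r) ^ 2) := by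
        apply div_le_div_of_nonneg_left hcz.le (by positivity) h3


end Pool.Agent.Lib.H59P
end

-- from Lib.H9U.A3
section

/-!
# H9U, chunk A3 (M): one level for all lengths between `X` and `C0 X`
-/

open Finset

namespace Pool.Agent.H9U

open Pool.Agent.Lib.H68T Pool.Agent.Lib.H18Q Pool.Agent.Lib.H59P

/-- **A3.** `K'` the constant of the regime, `E` the size of the error of the model.

Proof. `mdb_level` with constants `K, C`. Choose `kp ≥ max(K, K', 2) + 1` with `2 C exp(-(kp/C)) ≤ E/2`, `Q1 = ⌊X^(1/kp)⌋` (`X` large), which gives `Q ≤ Q1`, `log Q1 ≤ 200 log Q`;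
`Cr = 1000 kp`: `log (C0 X) ≤ 2 log X ≤ 4 kp log Q1 ≤ 800 kp log Q`. Also `2 Q^(-1/4) ≤ E/2` for `X` large (`log Q ≥ log X/Cr`), and `kp log Q ≤ kp log Q1 ≤ log X ≤ log Y`,
`RegP K'' Q Y` for `K'' ≤ kp` and `X` large (`K'' log log Y ≤ log Q`). First case (no exceptional zero): `px = p0`, `th = 0`, `η = 1`. Second case: `px = ⟨r, ψ⟩`,
`th m = m^(β-1)`, `η = 1 - X^(β-1)`: for `Y ∈ [X, C0 X]` the model of length `Y` gives `th m ≤ Y^(β-1) ≤ 1 - η` for `m ≥ Y` and coefficients of the error at most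
`(1 - Y^(β-1)) E/2 ≤ η E`: with `u = (1-β) log X`, `(1-β) log Y ≤ 2u`, `1 - e^(-2u) ≤ 2 (1 - e^(-u))`. `η ≥ (1-β) log Q/2 ≥ (1-β)/2` and
`1 - β ≥ m0/(4 r²)` (`yd_zero`, `H59P/YD.lean`, with `ρ = r`); `c0 = min(1, m0/8)`. `px.1^100 ≤ Q` from `ExcZ.cond`. (If `px = p0` were possible in the second case: no, `ψ ≠ 1` is
primitive, so `r ≠ 1`; compare `A4.lean`; this is in `MdB.triv` of the model anyway.) -/
theorem A3S (C0 : ℕ) (hC0 : 1 ≤ C0) (E K' : ℝ) (hE : 0 < E) : ∃ Cr c0 : ℝ, 1 ≤ Cr ∧ 0 < c0 ∧ ∃ X0 : ℕ,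
    ∀ X : ℕ, X0 ≤ X → ∃ Q : ℕ, (∀ Y : ℕ, X ≤ Y → Y ≤ C0 * X → RegP K' Q Y ∧ Real.log Y ≤ Cr * Real.log Q) ∧
    ∃ (px : Ch) (th : ℤ → ℝ) (η : ℝ), px.1 ^ 100 ≤ Q ∧ c0 / (px.1 : ℝ) ^ 2 ≤ η ∧
      ∀ Y : ℕ, X ≤ Y → Y ≤ C0 * X → MdB Q Y η E px th := by
  obtain ⟨c1, K, C, hc1, hc11, hK, hC, hlev⟩ := mdb_level
  obtain ⟨m0, hm0, hm1, hzero⟩ := yd_zero
  obtain ⟨E1, hE1⟩ : ∃ E1 : ℝ, E1 = E / 4 := ⟨_, rfl⟩
  have hE1p : 0 < E1 := by rw [hE1]; positivity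
  obtain ⟨Kr, hKr⟩ : ∃ Kr : ℝ, Kr = |K'| + K + 1 := ⟨_, rfl⟩
  have haK := abs_nonneg K'
  have hleK := le_abs_self K'
  have hKr1 : 1 ≤ Kr := by rw [hKr]; linarith
  have hKrK : K ≤ Kr := by rw [hKr]; linarith
  have hKrK' : K' ≤ Kr := by rw [hKr]; linarith
  obtain ⟨kp, hkpr, hkpe⟩ : ∃ kp : ℝ, Kr ≤ kp ∧ C * Real.exp (-(kp / C)) ≤ E1 := by
    refine ⟨max Kr (C * (C / E1)), le_max_left _ _, ?_⟩
    set kp := max Kr (C * (C / E1))
    have hCp : 0 < C := by linarith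
    have h1 : C / E1 ≤ kp / C := by
      rw [le_div_iff₀ hCp]
      calc C / E1 * C = C * (C / E1) := by ring
        _ ≤ kp := le_max_right _ _
    have h2 : C / E1 ≤ Real.exp (kp / C) := by
      have := Real.add_one_le_exp (kp / C)
      linarith
    rw [Real.exp_neg, ← div_eq_mul_inv, div_le_iff₀ (Real.exp_pos _)]
    rw [div_le_iff₀ hE1p] at h2
    linarith
  have hkp1 : 1 ≤ kp := hKr1.trans hkpr
  obtain ⟨D, hD⟩ : ∃ D : ℝ, D = 400 * kp := ⟨_, rfl⟩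
  have hD1 : 400 ≤ D := by rw [hD]; linarith
  have hlogC0 : 0 ≤ Real.log (C0 : ℝ) := Real.log_nonneg (by exact_mod_cast hC0)
  have hlogE : 0 ≤ Real.log (1 / E1 + 1) := Real.log_nonneg (by
    have : 0 < 1 / E1 := by positivity
    linarith)
  -- large `L`
  obtain ⟨L0, hL0⟩ := Filter.eventually_atTop.mp ((ev_log (2 * D * Kr) 1 one_pos).and
    (Filter.eventually_ge_atTop (Real.exp Kr + Real.log C0 + 2 * D * Kr + kp * (K + 2) +
      D * (4 * Real.log (1 / E1 + 1)) + D)))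
  refine ⟨2 * D, min 1 (m0 / 8), by linarith, lt_min one_pos (by positivity), ⌈Real.exp (max L0 1)⌉₊,
    fun X hX => ?_⟩
  obtain ⟨L, hL⟩ : ∃ L, L = Real.log X := ⟨_, rfl⟩
  have hXe : Real.exp (max L0 1) ≤ (X : ℝ) := (Nat.le_ceil _).trans (by exact_mod_cast hX)
  have hX0 : (0 : ℝ) < X := lt_of_lt_of_le (Real.exp_pos _) hXe
  have hLge : max L0 1 ≤ L := by
    rw [hL, Real.le_log_iff_exp_le hX0]; exact hXe
  have hL1 : 1 ≤ L := (le_max_right _ _).trans hLge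
  obtain ⟨e1, e2⟩ := hL0 L ((le_max_left _ _).trans hLge)
  rw [Real.rpow_one] at e1
  have p1 : 0 < Real.exp Kr := Real.exp_pos _
  have p2 : 0 ≤ 2 * D * Kr := by positivity
  have p3 : 0 ≤ kp * (K + 2) := by positivity
  have p4 : 0 ≤ D * (4 * Real.log (1 / E1 + 1)) := by positivity
  have hLa : Real.exp Kr ≤ L := by linarith
  have hLb : Real.log C0 ≤ L := by linarith
  have hLc : 2 * D * Kr ≤ L := by linarith
  have hLd : kp * (K + 2) ≤ L := by linarith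
  have hLe : D * (4 * Real.log (1 / E1 + 1)) ≤ L := by linarith
  have hLf : D ≤ L := by linarith
  -- the scales
  have hY : ∀ Y : ℕ, X ≤ Y → Y ≤ C0 * X → L ≤ Real.log Y ∧ Real.log Y ≤ 2 * L ∧ (0 : ℝ) < Y := by
    intro Y h1 h2
    have h1' : (X : ℝ) ≤ Y := by exact_mod_cast h1
    have h2' : (Y : ℝ) ≤ C0 * X := by exact_mod_cast h2
    have hY0 : (0 : ℝ) < Y := lt_of_lt_of_le hX0 h1'
    have hC0' : (0 : ℝ) < C0 := by exact_mod_cast hC0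
    have h3 := Real.log_le_log hX0 h1'
    have h4 := Real.log_le_log hY0 h2'
    rw [Real.log_mul hC0'.ne' hX0.ne'] at h4
    rw [← hL] at h3 h4
    exact ⟨h3, by linarith, hY0⟩
  -- the level
  obtain ⟨q, hq⟩ : ∃ q, q = L / kp := ⟨_, rfl⟩
  have hqL : kp * q = L := by rw [hq]; field_simp
  have hq0 : 0 < q := by rw [hq]; positivity
  have hqbig : K + 2 ≤ q := by
    rw [hq, le_div_iff₀ (by linarith)]
    linarith
  obtain ⟨Q1, hQ1⟩ : ∃ Q1, Q1 = ⌊Real.exp q⌋₊ := ⟨_, rfl⟩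
  have hexpq : Real.exp 1 ≤ Real.exp q := Real.exp_le_exp.2 (by linarith)
  have he2 : (2 : ℝ) ≤ Real.exp 1 := by linarith [Real.exp_one_gt_d9]
  have hQ1le : (Q1 : ℝ) ≤ Real.exp q := by rw [hQ1]; exact Nat.floor_le (Real.exp_pos q).le
  have hQ1ge : Real.exp q / 2 ≤ (Q1 : ℝ) := by
    have h1 := Nat.lt_floor_add_one (Real.exp q)
    rw [← hQ1] at h1
    linarith
  have hQ1pos : (0 : ℝ) < Q1 := by
    have := Real.exp_pos q
    linarith
  have hlQ1le : Real.log Q1 ≤ q := by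
    rw [Real.log_le_iff_le_exp hQ1pos]; exact hQ1le
  have hlQ1ge : q - 1 ≤ Real.log Q1 := by
    rw [Real.le_log_iff_exp_le hQ1pos]
    refine le_trans ?_ hQ1ge
    rw [Real.exp_sub, div_le_div_iff₀ (Real.exp_pos 1) (by norm_num)]
    have := mul_le_mul_of_nonneg_left he2 (Real.exp_pos q).le
    linarith
  obtain ⟨Q, hQQ1, hlQ, hcase⟩ := hlev Q1 (by linarith)
  have hQ1pos' : 0 < Q1 := by exact_mod_cast hQ1pos
  have hlQ0 : 0 < Real.log Q := by linarith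
  have hQ0 : (0 : ℝ) < Q := by
    rcases Nat.eq_zero_or_pos Q with h | h
    · rw [h, Nat.cast_zero, Real.log_zero] at hlQ0; exact absurd hlQ0 (lt_irrefl _)
    · exact_mod_cast h
  have hlQle : Real.log Q ≤ q := (Real.log_le_log hQ0 (by exact_mod_cast hQQ1)).trans hlQ1le
  have hLQ : L ≤ D * Real.log Q := by
    have h1 : q ≤ 400 * Real.log Q := by linarith
    calc L = kp * q := hqL.symm
      _ ≤ kp * (400 * Real.log Q) := mul_le_mul_of_nonneg_left h1 (by linarith)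
      _ = D * Real.log Q := by rw [hD]; ring
  have hlQ1' : 1 ≤ Real.log Q := by
    have h1 : D * 1 ≤ D * Real.log Q := by linarith
    exact le_of_mul_le_mul_left h1 (by linarith)
  have hreg : ∀ Y : ℕ, X ≤ Y → Y ≤ C0 * X → RegP Kr Q Y ∧ kp * Real.log Q ≤ Real.log Y := by
    intro Y h1 h2
    obtain ⟨y1, y2, y3⟩ := hY Y h1 h2
    have hkQ : kp * Real.log Q ≤ Real.log Y := by
      have := mul_le_mul_of_nonneg_left hlQle (by linarith : 0 ≤ kp)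
      linarith
    refine ⟨⟨?_, ?_, ?_⟩, hkQ⟩
    · rw [Real.le_log_iff_exp_le (by linarith)]
      linarith
    · have g0 : (0:ℝ) < Real.log Y := by linarith
      have g1 : Real.log (Real.log Y) ≤ 1 + Real.log L := by
        have g2 : Real.log (Real.log Y) ≤ Real.log (2 * L) := Real.log_le_log g0 y2
        rw [Real.log_mul (by norm_num) (by linarith)] at g2
        have g3 : Real.log 2 ≤ 1 := by linarith [Real.log_two_lt_d9]
        linarith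
      have g2 : Kr * Real.log (Real.log Y) ≤ Kr * (1 + Real.log L) :=
        mul_le_mul_of_nonneg_left g1 (by linarith)
      have g3 : D * (Kr * (1 + Real.log L)) ≤ L := by
        have : D * (Kr * (1 + Real.log L)) = (2 * D * Kr) / 2 + (2 * D * Kr * Real.log L) / 2 := by ring
        rw [this]
        linarith
      have g9 : Kr * (1 + Real.log L) ≤ Real.log Q :=
        le_of_mul_le_mul_left (g3.trans hLQ) (by linarith)
      linarith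
    · exact (mul_le_mul_of_nonneg_right hkpr hlQ0.le).trans hkQ
  have herr : C * Real.exp (-(kp / C)) + (Q : ℝ) ^ (-(1 / 4) : ℝ) ≤ E / 2 := by
    have g1 : 4 * Real.log (1 / E1 + 1) ≤ Real.log Q :=
      le_of_mul_le_mul_left (hLe.trans hLQ) (by linarith)
    have g2 : (Q : ℝ) ^ (-(1 / 4) : ℝ) ≤ E1 := by
      rw [Real.rpow_def_of_pos hQ0]
      have g3 : Real.exp (Real.log Q * -(1 / 4)) ≤ Real.exp (-Real.log (1 / E1 + 1)) :=
        Real.exp_le_exp.2 (by linarith)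
      refine g3.trans ?_
      have g4 : 0 < 1 / E1 + 1 := by positivity
      rw [Real.exp_neg, Real.exp_log g4, inv_eq_one_div, div_le_iff₀ g4]
      have g5 : E1 * (1 / E1 + 1) = 1 + E1 := by field_simp
      linarith
    rw [hE1] at hkpe g2
    linarith
  obtain ⟨e, he⟩ : ∃ e, e = C * Real.exp (-(kp / C)) + (Q : ℝ) ^ (-(1 / 4) : ℝ) := ⟨_, rfl⟩
  rw [← he] at herr
  have he0 : 0 ≤ e := by rw [he]; positivity
  refine ⟨Q, fun Y h1 h2 => ⟨(hreg Y h1 h2).1.mono (by linarith) hKrK', ?_⟩, ?_⟩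
  · obtain ⟨y1, y2, y3⟩ := hY Y h1 h2
    linarith
  rcases hcase with hgood | ⟨r, hr, ψ, β, hexz, hexc⟩
  · refine ⟨p0, fun _ => 0, 1, ?_, ?_, fun Y h1 h2 => ?_⟩
    · have : (1:ℕ) ≤ Q := by exact_mod_cast (by exact_mod_cast hQ0 : 0 < Q)
      show 1 ^ 100 ≤ Q
      rw [one_pow]; exact this
    · show min 1 (m0 / 8) / ((1 : ℕ) : ℝ) ^ 2 ≤ 1
      rw [Nat.cast_one, one_pow, div_one]
      exact min_le_left _ _
    · obtain ⟨g1, g2⟩ := hreg Y h1 h2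
      have h := hgood kp (hKrK.trans hkpr) Y (g1.mono (by linarith) hKrK) g2
      rw [← he] at h
      refine ⟨h.eta_pos, h.eta_le, h.mem, h.real, h.triv, h.nonneg, h.le, ?_⟩
      obtain ⟨eb, b1, b2, b3⟩ := h.cf
      exact ⟨eb, b1, b2.trans (by linarith), b3⟩
  · have hXX := hexc kp (hKrK.trans hkpr) X ((hreg X le_rfl (Nat.le_mul_of_pos_left _ hC0)).1.mono
      (by linarith) hKrK) (hreg X le_rfl (Nat.le_mul_of_pos_left _ hC0)).2
    obtain ⟨hη1, -⟩ := hXX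
    obtain ⟨x, hx⟩ : ∃ x : ℝ, x = (X : ℝ) ^ (β - 1) := ⟨_, rfl⟩
    rw [← hx] at hη1
    have hβ := hexz.lt
    have hx0 : 0 ≤ x := by rw [hx]; positivity
    have hr1 : (1 : ℝ) ≤ r := by
      have : 0 < r := Nat.pos_of_ne_zero hr.ne
      exact_mod_cast this
    have hη0 : (1 - β) / 2 ≤ 1 - x := by
      have h1 : (1 - β) * 1 ≤ (1 - β) * Real.log Q := mul_le_mul_of_nonneg_left hlQ1' (by linarith)
      linarith
    have hx1 : x ≤ 1 := by linarith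
    refine ⟨⟨r, ψ⟩, fun m => (m : ℝ) ^ (β - 1), 1 - x, hexz.cond, ?_, fun Y h1 h2 => ?_⟩
    · have h1 := hzero r hr1 r ψ le_rfl hexz.prim hexz.ne hexz.sq β hβ hexz.zero
      show min 1 (m0 / 8) / ((r : ℕ) : ℝ) ^ 2 ≤ 1 - x
      have hr2 : (0:ℝ) < (r:ℝ) ^ 2 := by positivity
      have h2 : min 1 (m0 / 8) / (r : ℝ) ^ 2 ≤ (m0 / 8) / (r : ℝ) ^ 2 :=
        div_le_div_of_nonneg_right (min_le_right _ _) hr2.le
      have h3 : (m0 / 8) / (r : ℝ) ^ 2 = m0 / (4 * (r : ℝ) ^ 2) / 2 := by field_simp; ring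
      linarith
    · obtain ⟨g1, g2⟩ := hreg Y h1 h2
      obtain ⟨y1, y2, y3⟩ := hY Y h1 h2
      obtain ⟨-, h⟩ := hexc kp (hKrK.trans hkpr) Y (g1.mono (by linarith) hKrK) g2
      rw [← he] at h
      obtain ⟨y, hy⟩ : ∃ y : ℝ, y = (Y : ℝ) ^ (β - 1) := ⟨_, rfl⟩
      rw [← hy] at h
      have hyx : y ≤ x := by
        rw [hy, hx]
        exact Real.rpow_le_rpow_of_nonpos hX0 (by exact_mod_cast h1) (by linarith)
      have hxy : x ^ 2 ≤ y := by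
        rw [hy, hx, ← Real.rpow_natCast, ← Real.rpow_mul hX0.le, Real.rpow_def_of_pos hX0,
          Real.rpow_def_of_pos y3, ← hL]
        apply Real.exp_le_exp.2
        have : Real.log Y * (1 - β) ≤ 2 * L * (1 - β) := mul_le_mul_of_nonneg_right y2 (by linarith)
        push_cast
        linarith
      refine ⟨by linarith, by linarith, h.mem, h.real, h.triv, h.nonneg, ?_, ?_⟩
      · intro m hm1 hm2
        have := h.le m hm1 hm2
        linarith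
      · obtain ⟨eb, b1, b2, b3⟩ := h.cf
        refine ⟨eb, b1, b2.trans ?_, b3⟩
        have h3 : 1 - y ≤ 2 * (1 - x) := by
          have g3 := mul_self_nonneg (1 - x)
          have g4 : (1 - x) * (1 - x) = 1 - 2 * x + x ^ 2 := by ring
          linarith
        have h4 : (1 - y) * e ≤ 2 * (1 - x) * e := mul_le_mul_of_nonneg_right h3 he0
        have h5 : (1 - x) * e ≤ (1 - x) * (E / 2) := mul_le_mul_of_nonneg_left herr (by linarith)
        linarith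

end Pool.Agent.H9U
end

-- from Lib.H9U.CORE
section

/-!
# H9U, chunk CORE (M/L): few `t` with few prime values
-/

open Finset

namespace Pool.Agent.H9U

open Pool.Agent.Lib.H68T (lp Lk PC p0)
open Pool.Agent.Lib.H18Q (gk KS SG Bc RegP)
open Pool.Agent.Lib.H59P (Ch SF bx TS Rp MX pr)

lemma core_large (c M : ℝ) (hc : 0 < c) : ∃ X0 : ℕ, ∀ X : ℕ, X0 ≤ X → M ≤ (X : ℝ) ^ c := by
  have h1 : Filter.Tendsto (fun X : ℕ => (X : ℝ) ^ c) Filter.atTop Filter.atTop :=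
    (tendsto_rpow_atTop hc).comp tendsto_natCast_atTop_atTop
  exact Filter.eventually_atTop.1 (h1.eventually_ge_atTop M)

lemma core_lp_nonneg (m : ℤ) : 0 ≤ lp m := by
  unfold Pool.Agent.Lib.H68T.lp
  split_ifs with h
  · have h1 := h.one_lt
    have h2 : (1 : ℤ) ≤ m := by omega
    exact Real.log_nonneg (by exact_mod_cast h2)
  · exact le_rfl

lemma core_lp_le (m : ℤ) (hm : 1 ≤ m) : lp m ≤ Real.log m := by
  unfold Pool.Agent.Lib.H68T.lp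
  split_ifs with h
  · exact le_rfl
  · exact Real.log_nonneg (by exact_mod_cast hm)

lemma core_PC {Q Q' : ℕ} (hQ : Q' ≤ Q) : PC Q' ⊆ PC Q := by
  intro p hp
  rw [Pool.Agent.Lib.H68T.mem_PC] at hp ⊢
  exact ⟨hp.1, hp.2.1.trans hQ, hp.2.2⟩

lemma core_dat2 {k : ℕ} (Q Q' D : ℕ) (hQ : Q' ≤ Q) (hD : 1 ≤ D) (hDQ : D ≤ Q') (Xs : Fin k → ℕ) (η E : ℝ) (px : Ch) (th : ℤ → ℝ)
    (hE : 0 ≤ E) (hkE : 4 * k * E ≤ 1) (hM : ∀ i, MdB Q (Xs i) η E px th) (hr : Nat.sqrt D < px.1) :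
    Dat k Q Q' D (Nat.sqrt D) (Nat.sqrt D) 1 E p0 (fun _ => 0) Xs where
  D2_pos := Nat.sqrt_pos.2 hD
  hD2 := by
    change 1 * Nat.sqrt D ≤ Nat.sqrt D
    rw [one_mul]
  hD1 := Nat.sqrt_le D
  hD := hDQ
  mem := Pool.Agent.Lib.H68T.p0_mem (hD.trans hDQ)
  real := by
    change (1 : DirichletCharacter ℂ 1) ^ 2 = 1
    exact one_pow 2
  eta_pos := one_pos
  eta_le := le_rfl
  E0_nonneg := hE
  E0_le := hkE
  triv := fun _ _ => rfl
  nonneg := fun _ _ _ _ => le_rfl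
  le := fun _ _ _ _ => by
    rw [sub_self]
  cf := by
    intro i
    obtain ⟨eb, h0, hs, hb⟩ := (hM i).cf
    refine ⟨eb, fun p hp => h0 p (core_PC hQ hp), ?_, ?_⟩
    · refine (Finset.sum_le_sum_of_subset_of_nonneg (core_PC hQ) fun p hp _ => h0 p hp).trans (hs.trans ?_)
      exact mul_le_mul_of_nonneg_right (hM i).eta_le hE
    · intro m h1 h2 p hp hpD
      have h3 : p ≠ px := by
        rintro rfl
        omega
      have h4 : MX p0 (fun _ => 0) m p = MX px th m p := by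
        unfold MX
        by_cases h5 : p = p0
        · rw [if_pos h5, if_pos h5]
        · rw [if_neg h5, if_neg h5, if_neg h5, if_neg h3]
      rw [h4]
      exact hb m h1 h2 p (core_PC hQ hp)

/-- From the model to the data of the small level, large conductor. Proof. `px := p0`, `th := 0`, `η := 1`, `D1 = D2 = √D`: for `p.1 ≤ D1 < px.1` we have `p ≠ px`, so
`MX p0 _ m p = MX px th m p`; `∑ eb ≤ η E ≤ E` over the subset `PC Q' ⊆ PC Q`. -/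
theorem CORE_dat2 {k : ℕ} (Q Q' D : ℕ) (hQ : Q' ≤ Q) (hD : 1 ≤ D) (hDQ : D ≤ Q') (Xs : Fin k → ℕ) (η E : ℝ) (px : Ch) (th : ℤ → ℝ)
    (hE : 0 ≤ E) (hkE : 4 * k * E ≤ 1) (hM : ∀ i, MdB Q (Xs i) η E px th) (hr : Nat.sqrt D < px.1) :
    Dat k Q Q' D (Nat.sqrt D) (Nat.sqrt D) 1 E p0 (fun _ => 0) Xs := by
  exact core_dat2 Q Q' D hQ hD hDQ Xs η E px th hE hkE hM hr

lemma core_dat1 {k : ℕ} (hk : 1 ≤ k) (Q Q' D2 : ℕ) (hQ : Q' ≤ Q) (hD2 : 1 ≤ D2) (Xs : Fin k → ℕ) (η E : ℝ) (px : Ch) (th : ℤ → ℝ)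
    (hE : 0 ≤ E) (hkE : 4 * k * E ≤ 1) (hM : ∀ i, MdB Q (Xs i) η E px th) (hr : px.1 * D2 ≤ Nat.sqrt Q') :
    Dat k Q Q' Q' (Nat.sqrt Q') D2 η E px th Xs where
  D2_pos := hD2
  hD2 := hr
  hD1 := Nat.sqrt_le Q'
  hD := le_rfl
  mem := by
    have h1 := (hM ⟨0, hk⟩).mem
    rw [Pool.Agent.Lib.H68T.mem_PC] at h1 ⊢
    refine ⟨h1.1, ?_, h1.2.2⟩
    calc px.1 ≤ px.1 * D2 := Nat.le_mul_of_pos_right _ hD2
      _ ≤ Nat.sqrt Q' := hr
      _ ≤ Q' := Nat.sqrt_le_self Q'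
  real := (hM ⟨0, hk⟩).real
  eta_pos := (hM ⟨0, hk⟩).eta_pos
  eta_le := (hM ⟨0, hk⟩).eta_le
  E0_nonneg := hE
  E0_le := hkE
  triv := (hM ⟨0, hk⟩).triv
  nonneg := fun i => (hM i).nonneg
  le := fun i => (hM i).le
  cf := by
    intro i
    obtain ⟨eb, h0, hs, hb⟩ := (hM i).cf
    refine ⟨eb, fun p hp => h0 p (core_PC hQ hp), ?_, ?_⟩
    · exact (Finset.sum_le_sum_of_subset_of_nonneg (core_PC hQ) fun p hp _ => h0 p hp).trans hs
    · intro m h1 h2 p hp _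
      exact hb m h1 h2 p (core_PC hQ hp)

/-- From the model to the data of the small level, small conductor. Proof. Direct; `px ∈ PC Q'` from `px ∈ PC Q` (`mem_PC`) and `px.1 ≤ Q'`. -/
theorem CORE_dat1 {k : ℕ} (hk : 1 ≤ k) (Q Q' D2 : ℕ) (hQ : Q' ≤ Q) (hD2 : 1 ≤ D2) (Xs : Fin k → ℕ) (η E : ℝ) (px : Ch) (th : ℤ → ℝ)
    (hE : 0 ≤ E) (hkE : 4 * k * E ≤ 1) (hM : ∀ i, MdB Q (Xs i) η E px th) (hr : px.1 * D2 ≤ Nat.sqrt Q') :
    Dat k Q Q' Q' (Nat.sqrt Q') D2 η E px th Xs := by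
  exact core_dat1 hk Q Q' D2 hQ hD2 Xs η E px th hE hkE hM hr

open Classical in
/-- the sum over the prime values. -/
lemma core_primes {k d : ℕ} (S : Sys k d) (b : Fin k → ℤ) (t : Fin d → ℤ) (L : ℕ) (M : ℝ)
    (h : ∀ i, ∀ n ∈ range L, 0 < S.val b n t i ∧ (S.val b n t i : ℝ) ≤ M) :
    ∑ n ∈ range L, ∏ i, lp (S.val b n t i) ≤
      (((range L).filter (fun n : ℕ => ∀ i, (S.val b n t i).toNat.Prime)).card : ℝ) * Real.log M ^ k := by
  have h1 : ∀ n ∈ range L, ∏ i, lp (S.val b n t i) ≤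
      if ∀ i, (S.val b n t i).toNat.Prime then Real.log M ^ k else 0 := by
    intro n hn
    by_cases hp : ∀ i, (S.val b n t i).toNat.Prime
    · rw [if_pos hp]
      calc ∏ i, lp (S.val b n t i) ≤ ∏ _i : Fin k, Real.log M := by
            refine Finset.prod_le_prod (fun i _ => core_lp_nonneg _) fun i _ => ?_
            obtain ⟨h2, h3⟩ := h i n hn
            refine (core_lp_le _ (by omega)).trans ?_
            exact Real.log_le_log (by exact_mod_cast h2) h3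
        _ = Real.log M ^ k := by
            rw [Finset.prod_const, Finset.card_univ, Fintype.card_fin]
    · rw [if_neg hp]
      push Not at hp
      obtain ⟨i, hi⟩ := hp
      refine le_of_eq (Finset.prod_eq_zero (mem_univ i) ?_)
      unfold Pool.Agent.Lib.H68T.lp
      rw [if_neg hi]
  refine (Finset.sum_le_sum h1).trans ?_
  rw [← Finset.sum_filter, Finset.sum_const, nsmul_eq_mul]

/-- few primes give a small sum. -/
lemma core_thr {k C0 X n : ℕ} (hk : 1 ≤ k) (hC0 : 1 ≤ C0) (hX : 1 ≤ X) (ε η Sm : ℝ) (hε : 0 < ε)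
    (hn : (n : ℝ) < (X : ℝ) ^ (1 - ε)) (hSm : Sm ≤ n * Real.log (4 * C0 * X) ^ k)
    (hη : (X : ℝ) ^ (-(ε / 4)) ≤ η ^ k)
    (hbig : 16 * Real.exp (4 * k : ℝ) * ((4 * C0 : ℝ) ^ (ε / 4) / (ε / (4 * k)) ^ k) + 1 ≤ (X : ℝ) ^ (ε / 2)) :
    Sm < X * (η ^ k * Real.exp (-(4 * k : ℝ))) / 16 := by
  have hX0 : (0 : ℝ) < X := by exact_mod_cast hX
  have hX1 : (1 : ℝ) ≤ X := by exact_mod_cast hX
  have hC1 : (1 : ℝ) ≤ C0 := by exact_mod_cast hC0
  have hk0 : (0 : ℝ) < k := by exact_mod_cast hk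
  have hs : 0 < ε / (4 * k) := by positivity
  have hy : (1 : ℝ) ≤ 4 * C0 * X := by nlinarith
  have hl0 : 0 ≤ Real.log (4 * C0 * X) := Real.log_nonneg hy
  have hl1 := Real.log_le_rpow_div (by linarith : (0 : ℝ) ≤ 4 * C0 * X) hs
  have hl2 := pow_le_pow_left₀ hl0 hl1 k
  obtain ⟨A, hA⟩ : ∃ A, A = (4 * C0 : ℝ) ^ (ε / 4) / (ε / (4 * k)) ^ k := ⟨_, rfl⟩
  rw [← hA] at hbig
  have hA0 : 0 < A := by
    rw [hA]
    positivity
  have hl3 : Real.log (4 * C0 * X) ^ k ≤ A * (X : ℝ) ^ (ε / 4) := by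
    refine hl2.trans (le_of_eq ?_)
    rw [div_pow, ← Real.rpow_natCast, ← Real.rpow_mul (by linarith)]
    have : ε / (4 * k) * (k : ℝ) = ε / 4 := by field_simp
    rw [this, Real.mul_rpow (by positivity) hX0.le, hA]
    ring
  have h1 : Sm ≤ (X : ℝ) ^ (1 - ε) * (A * (X : ℝ) ^ (ε / 4)) := by
    refine hSm.trans (mul_le_mul hn.le hl3 (by positivity) (Real.rpow_nonneg hX0.le _))
  have h2 : (X : ℝ) ^ (1 - ε) * (A * (X : ℝ) ^ (ε / 4)) = A * (X : ℝ) ^ (1 - 3 * ε / 4) := by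
    have : (X : ℝ) ^ (1 - 3 * ε / 4) = (X : ℝ) ^ (1 - ε) * (X : ℝ) ^ (ε / 4) := by
      rw [← Real.rpow_add hX0]
      congr 1
      ring
    rw [this]
    ring
  rw [h2] at h1
  have h3 : (X : ℝ) * (X : ℝ) ^ (-(ε / 4)) = (X : ℝ) ^ (1 - 3 * ε / 4) * (X : ℝ) ^ (ε / 2) := by
    rw [← Real.rpow_add hX0]
    nth_rewrite 1 [← Real.rpow_one (X : ℝ)]
    rw [← Real.rpow_add hX0]
    congr 1
    ring
  have h4 : (X : ℝ) ^ (1 - 3 * ε / 4) * (16 * Real.exp (4 * k : ℝ) * A + 1) ≤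
      (X : ℝ) * (X : ℝ) ^ (-(ε / 4)) := by
    rw [h3]
    exact mul_le_mul_of_nonneg_left hbig (Real.rpow_nonneg hX0.le _)
  have hW : 0 < (X : ℝ) ^ (1 - 3 * ε / 4) := Real.rpow_pos_of_pos hX0 _
  have h5 : (X : ℝ) ^ (1 - 3 * ε / 4) * (16 * Real.exp (4 * k : ℝ) * A) < (X : ℝ) * η ^ k := by
    have := mul_le_mul_of_nonneg_left hη hX0.le
    nlinarith
  have h6 : Real.exp (4 * k : ℝ) * Real.exp (-(4 * k : ℝ)) = 1 := by
    rw [← Real.exp_add, add_neg_cancel, Real.exp_zero]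
  have h7 := mul_lt_mul_of_pos_right h5 (Real.exp_pos (-(4 * k : ℝ)))
  have h8 : (X : ℝ) ^ (1 - 3 * ε / 4) * (16 * Real.exp (4 * k : ℝ) * A) * Real.exp (-(4 * k : ℝ)) =
      16 * (A * (X : ℝ) ^ (1 - 3 * ε / 4)) := by
    have : (X : ℝ) ^ (1 - 3 * ε / 4) * (16 * Real.exp (4 * k : ℝ) * A) * Real.exp (-(4 * k : ℝ)) =
      16 * (A * (X : ℝ) ^ (1 - 3 * ε / 4)) * (Real.exp (4 * k : ℝ) * Real.exp (-(4 * k : ℝ))) := by ring
    rw [this, h6, mul_one]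
  rw [h8] at h7
  have h9 : (X : ℝ) * (η ^ k * Real.exp (-(4 * k : ℝ))) / 16 = (X : ℝ) * η ^ k * Real.exp (-(4 * k : ℝ)) / 16 := by ring
  rw [h9]
  linarith

/-- the small level. -/
lemma core_level (k C0 : ℕ) (hC0 : 1 ≤ C0) (Cr : ℝ) (hCr : 1 ≤ Cr) : ∃ X0 : ℕ, ∀ X : ℕ, X0 ≤ X →
    ∀ Q : ℕ, Real.log ((C0 : ℝ) * X) ≤ Cr * Real.log Q → ∃ Q' : ℕ,
      ((C0 : ℝ) * X) ^ (1 / (100 * (k + 1) * Cr)) ≤ Q' ∧ Q' ^ (20 * (k + 1)) ≤ Q ∧ Q' ≤ X := by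
  have hk1 : (0 : ℝ) < (k : ℝ) + 1 := by positivity
  have hCr0 : 0 < Cr := by linarith
  obtain ⟨Xa, hXa⟩ := core_large (4 / (5 * Cr)) ((2 : ℝ) ^ (20 * (k + 1))) (by positivity)
  refine ⟨max Xa (max (4 * C0) 2), ?_⟩
  intro X hX Q hQ
  have g1 : Xa ≤ X := (le_max_left _ _).trans hX
  have g2 : 4 * C0 ≤ X := ((le_max_left _ _).trans (le_max_right _ _)).trans hX
  have g3 : 2 ≤ X := ((le_max_right _ _).trans (le_max_right _ _)).trans hX
  have f1 := hXa X g1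
  have hX2 : (2 : ℝ) ≤ X := by exact_mod_cast g3
  have hX0 : (0 : ℝ) < X := by linarith
  have hC1 : (1 : ℝ) ≤ C0 := by exact_mod_cast hC0
  have hX4 : 4 * (C0 : ℝ) ≤ X := by exact_mod_cast g2
  obtain ⟨Z, hZ⟩ : ∃ Z : ℝ, Z = (C0 : ℝ) * X := ⟨_, rfl⟩
  obtain ⟨θ, hθ⟩ : ∃ θ : ℝ, θ = 1 / (100 * ((k : ℝ) + 1) * Cr) := ⟨_, rfl⟩
  rw [← hZ] at hQ ⊢
  rw [← hθ]
  have hZX : (X : ℝ) ≤ Z := by rw [hZ]; nlinarith
  have hZ2 : 2 ≤ Z := by linarith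
  have hZ0 : 0 < Z := by linarith
  have hZ1 : 1 ≤ Z := by linarith
  have hθ0 : 0 < θ := by rw [hθ]; positivity
  have hθ1 : θ ≤ 1 / 2 := by
    rw [hθ]
    refine one_div_le_one_div_of_le (by norm_num) ?_
    have h1 : 1 ≤ ((k : ℝ) + 1) := by
      have : (0 : ℝ) ≤ k := Nat.cast_nonneg k
      linarith
    nlinarith
  have hlZ : 0 < Real.log Z := Real.log_pos (by linarith)
  have hlQ : 0 < Real.log Q := by
    by_contra hcon
    push Not at hcon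
    nlinarith
  have hQ0 : (0 : ℝ) < Q := by
    by_contra hcon
    have h0 : (Q : ℝ) = 0 := le_antisymm (not_lt.1 hcon) (Nat.cast_nonneg Q)
    rw [h0, Real.log_zero] at hlQ
    exact lt_irrefl _ hlQ
  have hZQ : Z ^ (1 / Cr) ≤ Q := by
    rw [← Real.log_le_log_iff (Real.rpow_pos_of_pos hZ0 _) hQ0, Real.log_rpow hZ0, one_div,
      inv_mul_le_iff₀ hCr0]
    exact hQ
  have hZθ : 1 ≤ Z ^ θ := Real.one_le_rpow hZ1 hθ0.le
  refine ⟨⌈Z ^ θ⌉₊, Nat.le_ceil _, ?_, ?_⟩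
  · have h1 : (⌈Z ^ θ⌉₊ : ℝ) ≤ 2 * Z ^ θ := by
      have := (Nat.ceil_lt_add_one (by linarith : (0 : ℝ) ≤ Z ^ θ)).le
      linarith
    have h2 : (⌈Z ^ θ⌉₊ : ℝ) ^ (20 * (k + 1)) ≤ (Q : ℝ) := by
      calc (⌈Z ^ θ⌉₊ : ℝ) ^ (20 * (k + 1)) ≤ (2 * Z ^ θ) ^ (20 * (k + 1)) :=
            pow_le_pow_left₀ (Nat.cast_nonneg _) h1 _
        _ = 2 ^ (20 * (k + 1)) * Z ^ (1 / (5 * Cr)) := by
            rw [mul_pow, ← Real.rpow_natCast (Z ^ θ), ← Real.rpow_mul hZ0.le]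
            congr 2
            rw [hθ]
            push_cast
            field_simp
            ring
        _ ≤ Z ^ (4 / (5 * Cr)) * Z ^ (1 / (5 * Cr)) := by
            refine mul_le_mul_of_nonneg_right ?_ (Real.rpow_nonneg hZ0.le _)
            exact f1.trans (Real.rpow_le_rpow hX0.le hZX (by positivity))
        _ = Z ^ (1 / Cr) := by
            rw [← Real.rpow_add hZ0]
            congr 1
            field_simp
            ring
        _ ≤ Q := hZQ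
    exact_mod_cast h2
  · have h1 : (⌈Z ^ θ⌉₊ : ℝ) ≤ 2 * Z ^ θ := by
      have := (Nat.ceil_lt_add_one (by linarith : (0 : ℝ) ≤ Z ^ θ)).le
      linarith
    have h2 : Z ^ θ ≤ Z ^ (1 / 2 : ℝ) := Real.rpow_le_rpow_of_exponent_le hZ1 hθ1
    have h3 : 2 * Z ^ (1 / 2 : ℝ) ≤ X := by
      rw [← Real.sqrt_eq_rpow]
      have h4 : Real.sqrt Z ≤ X / 2 := by
        rw [Real.sqrt_le_left (by positivity), hZ]
        nlinarith
      linarith
    have h5 : (⌈Z ^ θ⌉₊ : ℝ) ≤ X := by linarith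
    exact_mod_cast h5

/-- small conductor. -/
lemma core_case1 (Q' r : ℕ) (h4 : 4 ≤ (Q' : ℝ) ^ (23 / 40 : ℝ)) (hQ : 1 ≤ Q')
    (hr : (r : ℝ) ≤ (Q' : ℝ) ^ (1 / 80 : ℝ)) :
    1 ≤ ⌈(Q' : ℝ) ^ (1 / 5 : ℝ)⌉₊ ∧ r * ⌈(Q' : ℝ) ^ (1 / 5 : ℝ)⌉₊ ≤ Nat.sqrt Q' := by
  have hQ1 : (1 : ℝ) ≤ Q' := by exact_mod_cast hQ
  have hQ0 : (0 : ℝ) < Q' := by linarith
  have h1 : (1 : ℝ) ≤ (Q' : ℝ) ^ (1 / 5 : ℝ) := Real.one_le_rpow hQ1 (by norm_num)
  have h2 : (⌈(Q' : ℝ) ^ (1 / 5 : ℝ)⌉₊ : ℝ) ≤ 2 * (Q' : ℝ) ^ (1 / 5 : ℝ) := by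
    have := (Nat.ceil_lt_add_one (by linarith : (0 : ℝ) ≤ (Q' : ℝ) ^ (1 / 5 : ℝ))).le
    linarith
  constructor
  · rw [Nat.one_le_ceil_iff]
    linarith
  · rw [Nat.le_sqrt']
    have h3 : ((r * ⌈(Q' : ℝ) ^ (1 / 5 : ℝ)⌉₊ : ℕ) : ℝ) ^ 2 ≤ Q' := by
      push_cast
      calc ((r : ℝ) * (⌈(Q' : ℝ) ^ (1 / 5 : ℝ)⌉₊ : ℝ)) ^ 2
          ≤ ((Q' : ℝ) ^ (1 / 80 : ℝ) * (2 * (Q' : ℝ) ^ (1 / 5 : ℝ))) ^ 2 :=
            pow_le_pow_left₀ (by positivity) (mul_le_mul hr h2 (Nat.cast_nonneg _) (by positivity)) 2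
        _ = 4 * (Q' : ℝ) ^ (17 / 40 : ℝ) := by
            have e1 : (Q' : ℝ) ^ (17 / 40 : ℝ) = ((Q' : ℝ) ^ (1 / 80 : ℝ) * (Q' : ℝ) ^ (1 / 5 : ℝ)) ^ 2 := by
              rw [← Real.rpow_add hQ0, ← Real.rpow_natCast, ← Real.rpow_mul hQ0.le]
              norm_num
            rw [e1]
            ring
        _ ≤ (Q' : ℝ) ^ (23 / 40 : ℝ) * (Q' : ℝ) ^ (17 / 40 : ℝ) :=
            mul_le_mul_of_nonneg_right h4 (by positivity)
        _ = Q' := by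
            rw [← Real.rpow_add hQ0]
            norm_num
    exact_mod_cast h3

/-- large conductor. -/
lemma core_case2 (Q' r : ℕ) (δ : ℝ) (hδ : 0 < δ) (hδ1 : δ ≤ 1) (h2 : 2 ≤ (Q' : ℝ) ^ (δ / 4)) (hQ : 1 ≤ Q')
    (hr : (Q' : ℝ) ^ δ < r) :
    1 ≤ ⌊(Q' : ℝ) ^ δ⌋₊ ∧ ⌊(Q' : ℝ) ^ δ⌋₊ ≤ Q' ∧ Nat.sqrt ⌊(Q' : ℝ) ^ δ⌋₊ < r ∧
      (Q' : ℝ) ^ (δ / 4) ≤ Nat.sqrt ⌊(Q' : ℝ) ^ δ⌋₊ := by
  have hQ1 : (1 : ℝ) ≤ Q' := by exact_mod_cast hQ
  have hQ0 : (0 : ℝ) < Q' := by linarith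
  have h1 : (1 : ℝ) ≤ (Q' : ℝ) ^ δ := Real.one_le_rpow hQ1 hδ.le
  have hfl : (⌊(Q' : ℝ) ^ δ⌋₊ : ℝ) ≤ (Q' : ℝ) ^ δ := Nat.floor_le (by linarith)
  refine ⟨?_, ?_, ?_, ?_⟩
  · rw [Nat.one_le_floor_iff]
    exact h1
  · have h3 : (Q' : ℝ) ^ δ ≤ Q' := by
      have := Real.rpow_le_rpow_of_exponent_le hQ1 hδ1
      rwa [Real.rpow_one] at this
    exact_mod_cast hfl.trans h3
  · have h4 : ⌊(Q' : ℝ) ^ δ⌋₊ < r := by exact_mod_cast lt_of_le_of_lt hfl hr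
    exact lt_of_le_of_lt (Nat.sqrt_le_self _) h4
  · obtain ⟨D, hD⟩ : ∃ D, D = ⌊(Q' : ℝ) ^ δ⌋₊ := ⟨_, rfl⟩
    obtain ⟨y, hy⟩ : ∃ y, y = (Q' : ℝ) ^ (δ / 4) := ⟨_, rfl⟩
    rw [← hD, ← hy]
    rw [← hy] at h2
    have h5 : (Q' : ℝ) ^ δ = y ^ 4 := by
      rw [hy, ← Real.rpow_natCast, ← Real.rpow_mul hQ0.le]
      congr 1
      push_cast
      ring
    have h6 : y ^ 4 < D + 1 := by
      rw [← h5, hD]
      exact Nat.lt_floor_add_one _
    have h7 : D < (Nat.sqrt D + 1) * (Nat.sqrt D + 1) := Nat.lt_succ_sqrt D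
    have h8 : (D : ℝ) + 1 ≤ ((Nat.sqrt D : ℝ) + 1) * ((Nat.sqrt D : ℝ) + 1) := by
      exact_mod_cast h7
    by_contra hcon
    push Not at hcon
    have h9 : (0 : ℝ) ≤ (Nat.sqrt D : ℝ) := Nat.cast_nonneg _
    have h10 : ((Nat.sqrt D : ℝ) + 1) * ((Nat.sqrt D : ℝ) + 1) ≤ (y + 1) * (y + 1) :=
      mul_le_mul (by linarith) (by linarith) (by linarith) (by linarith)
    have h11 : y + 1 ≤ y ^ 2 := by nlinarith
    have h12 : (y + 1) * (y + 1) ≤ y ^ 2 * y ^ 2 := mul_le_mul h11 h11 (by linarith) (by positivity)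
    nlinarith

open Classical in
/-- **CORE.** Proof. `K` from `Z4_count`. `A3S` with `E = 1/(4k)` and `K' = K` gives `Cr, c0` and for each large `X` a level `Q` with a model `px, th, η`. `θ = 1/(100 (k+1) Cr)`,
`Q' = ⌈(C0 X)^θ⌉`: `Rgm K Cr θ Q Q' (Xs i)`, `Q'^(20 (k+1)) ≤ Q`, `Q' ≤ X` for `X` large. `Z4_count` with `δ3 = 1/5` gives `κa, εa`; `δ2 = min (min εa (ε/(4k))) (1/20) / 4`; `Z4_count` with
`δ3 = δ2/4` gives `κb, εb`. Case 1, `px.1 ≤ Q'^δ2`: `CORE_dat1` with `D2 = ⌈Q'^(1/5)⌉` (`px.1 D2 ≤ Q'^(1/20) · 2 Q'^(1/5) ≤ √Q'` rounded down), `η ≥ c0/px.1² ≥ c0 Q'^(-2 δ2) ≥ X^(-min(εa, ε/(4k)))`.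
Case 2, `px.1 > Q'^δ2`: `CORE_dat2` with `D = ⌊Q'^δ2⌋` (`Q'^(δ2/4) ≤ √D` rounded down), `η = 1`. In both cases `η^k exp(-4k)/16 ≥ X^(-ε/2)`, and fewer than `X^(1-ε)` prime values imply
`∑_n ∏ lp < X^(1-ε) (log (4 C0 X))^k ≤ X^(1-ε/2)` (`lp m ≤ log m`, and `0` unless `m` is a prime; `m ∈ JJ (Xs i)`). -/
theorem CORE (hI : Pool.Agent.H9S.INV) {k d : ℕ} (hk : 1 ≤ k) (hd : 1 ≤ d) (S : Sys k d) (hS : S.Half) (hL : LBig S) (C0 : ℕ) (hC0 : 1 ≤ C0)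
    (ε : ℝ) (hε : 0 < ε) : ∃ κ : ℝ, 0 < κ ∧ ∃ X0 : ℕ, ∀ X : ℕ, X0 ≤ X →
    ∀ Xs : Fin k → ℕ, (∀ i, X ≤ Xs i ∧ Xs i ≤ C0 * X) → ∀ (b : Fin k → ℤ) (L T : ℕ), X ≤ L → L ≤ C0 * X → T ≤ C0 * X →
    (∀ i, ∀ n ∈ range L, ∀ t ∈ bx d T, S.val b n (iv t) i ∈ JJ (Xs i)) →
    (((bx d T).filter (fun t => S.Adm b (iv t) ∧
      (((range L).filter (fun n : ℕ => ∀ i, (S.val b n (iv t) i).toNat.Prime)).card : ℝ) < (X : ℝ) ^ (1 - ε))).card : ℝ) ≤
      (X : ℝ) ^ (d - κ) := by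
  obtain ⟨K, hK, HZ⟩ := Z4_count hI hk hd S hS hL
  have hk0 : (0 : ℝ) < k := by exact_mod_cast hk
  have hC1 : (1 : ℝ) ≤ C0 := by exact_mod_cast hC0
  have hE : (0 : ℝ) < 1 / (4 * k) := by positivity
  have hkE : 4 * (k : ℝ) * (1 / (4 * k)) ≤ 1 := by
    rw [mul_one_div, div_self (by positivity)]
  obtain ⟨Cr, c0, hCr, hc0, Xa, HA⟩ := A3S C0 hC0 (1 / (4 * k)) K hE
  obtain ⟨θ, hθ⟩ : ∃ θ : ℝ, θ = 1 / (100 * ((k : ℝ) + 1) * Cr) := ⟨_, rfl⟩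
  have hθ0 : 0 < θ := by rw [hθ]; positivity
  obtain ⟨κa, εa, hκa, hεa, Xb, HZa⟩ := HZ Cr θ (1 / 5) hCr hθ0 (by norm_num) C0
  obtain ⟨mm, hmm⟩ : ∃ mm, mm = min εa (ε / (4 * k)) := ⟨_, rfl⟩
  have hmm0 : 0 < mm := by rw [hmm]; exact lt_min hεa (by positivity)
  have hmma : mm ≤ εa := by rw [hmm]; exact min_le_left _ _
  have hmmb : mm ≤ ε / (4 * k) := by rw [hmm]; exact min_le_right _ _
  obtain ⟨δ2, hδ2⟩ : ∃ δ2, δ2 = min mm (1 / 20) / 4 := ⟨_, rfl⟩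
  have hδ0 : 0 < δ2 := by
    rw [hδ2]
    have : 0 < min mm (1 / 20) := lt_min hmm0 (by norm_num)
    positivity
  have hδa : δ2 ≤ mm / 4 := by
    rw [hδ2]
    have := min_le_left mm (1 / 20)
    linarith
  have hδb : δ2 ≤ 1 / 80 := by
    rw [hδ2]
    have := min_le_right mm (1 / 20)
    linarith
  obtain ⟨κb, εb, hκb, hεb, Xc, HZb⟩ := HZ Cr θ (δ2 / 4) hCr hθ0 (by positivity) C0
  obtain ⟨Xd, HL⟩ := core_level k C0 hC0 Cr hCr
  obtain ⟨Xe, He⟩ := core_large (θ * (23 / 40)) 4 (by positivity)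
  obtain ⟨Xf, Hf⟩ := core_large (θ * (δ2 / 4)) 2 (by positivity)
  obtain ⟨Xg, Hg⟩ := core_large (mm / 2) (1 / c0) (by positivity)
  obtain ⟨Xh, Hh⟩ := core_large (ε / 2)
    (16 * Real.exp (4 * k : ℝ) * ((4 * C0 : ℝ) ^ (ε / 4) / (ε / (4 * k)) ^ k) + 1) (by positivity)
  refine ⟨min κa κb, lt_min hκa hκb,
    max (max (max Xa Xb) (max Xc Xd)) (max (max Xe Xf) (max (max Xg Xh) 1)), ?_⟩
  intro X hX Xs hXs b L T hXL hL1 hT hJ
  have g0 : max (max Xa Xb) (max Xc Xd) ≤ X := (le_max_left _ _).trans hX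
  have g0' : max (max Xe Xf) (max (max Xg Xh) 1) ≤ X := (le_max_right _ _).trans hX
  have ga : Xa ≤ X := ((le_max_left _ _).trans (le_max_left _ _)).trans g0
  have gb : Xb ≤ X := ((le_max_right _ _).trans (le_max_left _ _)).trans g0
  have gc : Xc ≤ X := ((le_max_left _ _).trans (le_max_right _ _)).trans g0
  have gd : Xd ≤ X := ((le_max_right _ _).trans (le_max_right _ _)).trans g0
  have ge : Xe ≤ X := ((le_max_left _ _).trans (le_max_left _ _)).trans g0'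
  have gf : Xf ≤ X := ((le_max_right _ _).trans (le_max_left _ _)).trans g0'
  have gg : Xg ≤ X := (((le_max_left _ _).trans (le_max_left _ _)).trans (le_max_right _ _)).trans g0'
  have gh : Xh ≤ X := (((le_max_right _ _).trans (le_max_left _ _)).trans (le_max_right _ _)).trans g0'
  have hX1 : 1 ≤ X := ((le_max_right _ _).trans (le_max_right _ _)).trans g0'
  have hX1r : (1 : ℝ) ≤ X := by exact_mod_cast hX1
  have hX0r : (0 : ℝ) < X := by linarith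
  have i0 : Fin k := ⟨0, hk⟩
  obtain ⟨Q, hQ, px, th, η, hpx, hη, hM⟩ := HA X ga
  have hXC : X ≤ C0 * X := Nat.le_mul_of_pos_left _ hC0
  have hlogQ : Real.log ((C0 : ℝ) * X) ≤ Cr * Real.log Q := by
    have := (hQ (C0 * X) hXC le_rfl).2
    push_cast at this
    exact this
  obtain ⟨Q', hQ'1, hQ'2, hQ'3⟩ := HL X gd Q hlogQ
  rw [← hθ] at hQ'1
  have hQ'X : (X : ℝ) ^ θ ≤ Q' := by
    refine (Real.rpow_le_rpow hX0r.le ?_ hθ0.le).trans hQ'1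
    nlinarith
  have hQ'one : (1 : ℝ) ≤ Q' := (Real.one_le_rpow hX1r hθ0.le).trans hQ'X
  have hQ'1n : 1 ≤ Q' := by exact_mod_cast hQ'one
  have hQ'Q : Q' ≤ Q := by
    refine le_trans ?_ hQ'2
    calc Q' = Q' ^ 1 := (pow_one _).symm
      _ ≤ Q' ^ (20 * (k + 1)) := Nat.pow_le_pow_right hQ'1n (by omega)
  have hR : ∀ i, Rgm K Cr θ Q Q' (Xs i) := by
    intro i
    obtain ⟨h1, h2⟩ := hQ (Xs i) (hXs i).1 (hXs i).2
    refine ⟨h1, h2, ?_, hQ'Q⟩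
    refine le_trans ?_ hQ'1
    refine Real.rpow_le_rpow (Nat.cast_nonneg _) ?_ hθ0.le
    exact_mod_cast (hXs i).2
  have hMi : ∀ i, MdB Q (Xs i) η (1 / (4 * k)) px th := fun i => hM (Xs i) (hXs i).1 (hXs i).2
  have hr1 : 1 ≤ px.1 := (Pool.Agent.Lib.H68T.mem_PC.1 (hMi i0).mem).1
  have hr1r : (1 : ℝ) ≤ (px.1 : ℝ) := by exact_mod_cast hr1
  have hbig := Hh X gh
  -- bounds for the values
  have hval : ∀ t ∈ bx d T, ∀ i, ∀ n ∈ range L, 0 < S.val b n (iv t) i ∧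
      (S.val b n (iv t) i : ℝ) ≤ 4 * C0 * X := by
    intro t ht i n hn
    have h1 := hJ i n hn t ht
    unfold JJ at h1
    rw [Finset.mem_Ico] at h1
    have h2 : X ≤ Xs i := (hXs i).1
    have h3 : Xs i ≤ C0 * X := (hXs i).2
    have h4 : S.val b n (iv t) i ≤ 4 * ((C0 * X : ℕ) : ℤ) := by omega
    refine ⟨by omega, ?_⟩
    have h5 : (S.val b n (iv t) i : ℝ) ≤ 4 * ((C0 * X : ℕ) : ℝ) := by exact_mod_cast h4
    push_cast at h5
    linarith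
  -- few primes give a small sum
  have hsub : ∀ η' : ℝ, (X : ℝ) ^ (-(ε / 4)) ≤ η' ^ k →
      ((bx d T).filter (fun t => S.Adm b (iv t) ∧
      (((range L).filter (fun n : ℕ => ∀ i, (S.val b n (iv t) i).toNat.Prime)).card : ℝ) < (X : ℝ) ^ (1 - ε))).card ≤
      ((bx d T).filter (fun t => S.Adm b (iv t) ∧ ∑ n ∈ range L, ∏ i, lp (S.val b n (iv t) i) <
      X * (η' ^ k * Real.exp (-(4 * k : ℝ))) / 16)).card := by
    intro η' hη'
    refine Finset.card_le_card ?_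
    intro t ht
    rw [Finset.mem_filter] at ht ⊢
    obtain ⟨h1, h2, h3⟩ := ht
    refine ⟨h1, h2, ?_⟩
    exact core_thr hk hC0 hX1 ε η' _ hε h3 (core_primes S b (iv t) L (4 * C0 * X) (hval t h1)) hη' hbig
  by_cases hc : (px.1 : ℝ) ≤ (Q' : ℝ) ^ δ2
  · -- small conductor
    have hr80 : (px.1 : ℝ) ≤ (Q' : ℝ) ^ (1 / 80 : ℝ) :=
      hc.trans (Real.rpow_le_rpow_of_exponent_le hQ'one hδb)
    have h4 : 4 ≤ (Q' : ℝ) ^ (23 / 40 : ℝ) := by
      refine (He X ge).trans ?_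
      rw [Real.rpow_mul hX0r.le]
      exact Real.rpow_le_rpow (Real.rpow_nonneg hX0r.le _) hQ'X (by norm_num)
    obtain ⟨d1, d2⟩ := core_case1 Q' px.1 h4 hQ'1n hr80
    have hdat := CORE_dat1 hk Q Q' ⌈(Q' : ℝ) ^ (1 / 5 : ℝ)⌉₊ hQ'Q d1 Xs η (1 / (4 * k)) px th hE.le hkE hMi d2
    have hηmm : (X : ℝ) ^ (-mm) ≤ η := by
      refine le_trans ?_ hη
      have h5 : ((px.1 : ℝ)) ^ 2 ≤ (X : ℝ) ^ (mm / 2) := by
        have h6 : (px.1 : ℝ) ≤ (X : ℝ) ^ (mm / 4) := by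
          refine hc.trans ?_
          have h7 : (Q' : ℝ) ≤ X := by exact_mod_cast hQ'3
          refine (Real.rpow_le_rpow (Nat.cast_nonneg _) h7 hδ0.le).trans ?_
          exact Real.rpow_le_rpow_of_exponent_le hX1r hδa
        calc ((px.1 : ℝ)) ^ 2 ≤ ((X : ℝ) ^ (mm / 4)) ^ 2 := pow_le_pow_left₀ (Nat.cast_nonneg _) h6 2
          _ = (X : ℝ) ^ (mm / 2) := by
            rw [← Real.rpow_natCast, ← Real.rpow_mul hX0r.le]
            congr 1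
            push_cast
            ring
      have hr2 : (0 : ℝ) < (px.1 : ℝ) ^ 2 := by positivity
      rw [le_div_iff₀ hr2]
      have h8 := Hg X gg
      rw [div_le_iff₀ hc0] at h8
      have h9 : 0 < (X : ℝ) ^ (-mm) := Real.rpow_pos_of_pos hX0r _
      calc (X : ℝ) ^ (-mm) * (px.1 : ℝ) ^ 2 ≤ (X : ℝ) ^ (-mm) * (X : ℝ) ^ (mm / 2) :=
            mul_le_mul_of_nonneg_left h5 h9.le
        _ = (X : ℝ) ^ (-mm) * (X : ℝ) ^ (mm / 2) * 1 := (mul_one _).symm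
        _ ≤ (X : ℝ) ^ (-mm) * (X : ℝ) ^ (mm / 2) * ((X : ℝ) ^ (mm / 2) * c0) :=
            mul_le_mul_of_nonneg_left h8 (by positivity)
        _ = c0 := by
            have h10 : (X : ℝ) ^ (-mm) * (X : ℝ) ^ (mm / 2) * (X : ℝ) ^ (mm / 2) = 1 := by
              rw [← Real.rpow_add hX0r, ← Real.rpow_add hX0r]
              have : -mm + mm / 2 + mm / 2 = 0 := by ring
              rw [this, Real.rpow_zero]
            rw [← mul_assoc, h10, one_mul]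
    have hηa : (X : ℝ) ^ (-εa) ≤ η :=
      (Real.rpow_le_rpow_of_exponent_le hX1r (neg_le_neg hmma)).trans hηmm
    have hηk : (X : ℝ) ^ (-(ε / 4)) ≤ η ^ k := by
      have h5 : (X : ℝ) ^ (-(ε / (4 * k))) ≤ η :=
        (Real.rpow_le_rpow_of_exponent_le hX1r (neg_le_neg hmmb)).trans hηmm
      have h6 := pow_le_pow_left₀ (Real.rpow_nonneg hX0r.le _) h5 k
      rw [← Real.rpow_natCast, ← Real.rpow_mul hX0r.le] at h6
      have h7 : -(ε / (4 * k)) * (k : ℝ) = -(ε / 4) := by field_simp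
      rw [h7] at h6
      exact h6
    have hfin := HZa Q Q' X gb Xs hXs hR hQ'2 Q' (Nat.sqrt Q') ⌈(Q' : ℝ) ^ (1 / 5 : ℝ)⌉₊ η
      (1 / (4 * k)) px th hdat (Nat.le_ceil _) hηa b L T hXL hL1 hT hJ
    have h11 : ((((bx d T).filter (fun t => S.Adm b (iv t) ∧
      (((range L).filter (fun n : ℕ => ∀ i, (S.val b n (iv t) i).toNat.Prime)).card : ℝ) <
        (X : ℝ) ^ (1 - ε))).card : ℕ) : ℝ) ≤ _ := Nat.cast_le.2 (hsub η hηk)
    refine h11.trans (hfin.trans (Real.rpow_le_rpow_of_exponent_le hX1r ?_))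
    have := min_le_left κa κb
    linarith
  · -- large conductor
    push Not at hc
    have h2 : 2 ≤ (Q' : ℝ) ^ (δ2 / 4) := by
      refine (Hf X gf).trans ?_
      rw [Real.rpow_mul hX0r.le]
      exact Real.rpow_le_rpow (Real.rpow_nonneg hX0r.le _) hQ'X (by positivity)
    obtain ⟨d1, d2, d3, d4⟩ := core_case2 Q' px.1 δ2 hδ0 (by linarith) h2 hQ'1n hc
    have hdat := CORE_dat2 Q Q' ⌊(Q' : ℝ) ^ δ2⌋₊ hQ'Q d1 d2 Xs η (1 / (4 * k)) px th hE.le hkE hMi d3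
    have hη1 : (X : ℝ) ^ (-εb) ≤ 1 := Real.rpow_le_one_of_one_le_of_nonpos hX1r (by linarith)
    have hηk : (X : ℝ) ^ (-(ε / 4)) ≤ (1 : ℝ) ^ k := by
      rw [one_pow]
      exact Real.rpow_le_one_of_one_le_of_nonpos hX1r (by linarith)
    have hfin := HZb Q Q' X gc Xs hXs hR hQ'2 ⌊(Q' : ℝ) ^ δ2⌋₊ (Nat.sqrt ⌊(Q' : ℝ) ^ δ2⌋₊)
      (Nat.sqrt ⌊(Q' : ℝ) ^ δ2⌋₊) 1 (1 / (4 * k)) p0 (fun _ => 0) hdat d4 hη1 b L T hXL hL1 hT hJ
    have h11 : ((((bx d T).filter (fun t => S.Adm b (iv t) ∧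
      (((range L).filter (fun n : ℕ => ∀ i, (S.val b n (iv t) i).toNat.Prime)).card : ℝ) <
        (X : ℝ) ^ (1 - ε))).card : ℕ) : ℝ) ≤ _ := Nat.cast_le.2 (hsub 1 hηk)
    refine h11.trans (hfin.trans (Real.rpow_le_rpow_of_exponent_le hX1r ?_))
    have := min_le_right κa κb
    linarith

end Pool.Agent.H9U
end

-- from Lib.H9U.L3
section

/-!
# H9U, chunk L3 (M): the local factors at the primes dividing the conductors
-/

open Finset

namespace Pool.Agent.H9U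

open Pool.Agent.Lib.H59P (Ch bx)
open Pool.Agent.Lib.H59T (UU Rm Pm Kp dof tau lf)

/-- functions bounded by two -/
theorem l3_scale {k d : ℕ} (S : Sys k d) (q : ℕ) [NeZero q] (b : Fin k → ℤ) (G : Fin k → ZMod q → ℂ) :
    FZ S q b G = 2 ^ k * FZ S q b (fun i t => G i t / 2) := by
  unfold FZ
  rw [Finset.mul_sum]
  refine Finset.sum_congr rfl fun t _ => ?_
  have h1 : ∑ n : ZMod q, ∏ i, G i (S.vz q b n t i) = (2 : ℂ) ^ k * ∑ n : ZMod q, ∏ i, G i (S.vz q b n t i) / 2 := by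
    rw [Finset.mul_sum]
    refine Finset.sum_congr rfl fun n _ => ?_
    rw [Finset.prod_div_distrib, Finset.prod_const, Finset.card_univ, Fintype.card_fin]
    field_simp
  have hn2 : ‖(2 : ℂ)‖ = 2 := by simp
  rw [h1, norm_mul, norm_pow, hn2]

/-- The bound for one prime power. -/
theorem l3_one {k d : ℕ} (S : Sys k d) (E : ℝ) (hE1 : 1 ≤ E) (hE : ∀ (q : ℕ) [NeZero q] (b : Fin k → ℤ)
    (G : Fin k → ZMod q → ℂ), (∀ i x, ‖G i x‖ ≤ 1) → ∀ i0 : Fin k,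
    FZ S q b G ≤ (q : ℝ) ^ (d + 1) * (E * UU (G i0) / (q : ℝ) ^ 4) ^ (1 / 8 : ℝ))
    (b : Fin k → ℤ) (l a : ℕ) (hl : l.Prime) (ha : 1 ≤ a) (χ : DirichletCharacter ℂ (l ^ a))
    (hχ : χ.IsPrimitive) (c : ℝ) (hc : |c| ≤ 2) (g : Fin k → ℤ → ℂ)
    (hp : ∀ i m, g i (m + (l ^ a : ℕ)) = g i m) (hb : ∀ i m, ‖g i m‖ ≤ 2) (i0 : Fin k)
    (h : ∀ m : ℤ, g i0 m = c * (starRingEnd ℂ) (χ (m : ZMod (l ^ a)))) :
    FM S (l ^ a) b g ≤ ((l ^ a : ℕ) : ℝ) ^ (d + 1) *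
      (2 ^ k * (13 * E) ^ (1 / 8 : ℝ) * ((l ^ a : ℕ) : ℝ) ^ (-(1 / 72) : ℝ)) := by
  have hne : NeZero (l ^ a) := ⟨pow_ne_zero _ hl.ne_zero⟩
  have hl0 : (0 : ℝ) < l := by exact_mod_cast hl.pos
  have hq0 : (0 : ℝ) < ((l ^ a : ℕ) : ℝ) := by exact_mod_cast pow_pos hl.pos a
  choose G hG using fun i => Pool.Agent.Lib.H59T.C3_fun (l ^ a) (g i) (hp i)
  have hs : ∀ t : ZMod (l ^ a), ∃ m : ℤ, (m : ZMod (l ^ a)) = t := fun t => ZMod.intCast_surjective t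
  have bG : ∀ i t, ‖G i t‖ ≤ 2 := by
    intro i t
    obtain ⟨m, rfl⟩ := hs t
    rw [← hG]
    exact hb i m
  have hG0 : ∀ t, G i0 t = c * (starRingEnd ℂ) (χ t) := by
    intro t
    obtain ⟨m, rfl⟩ := hs t
    rw [← hG]
    exact h m
  have u4 : UU (fun t => G i0 t / 2) ≤ 13 * ((l ^ a : ℕ) : ℝ) ^ 4 * (l : ℝ) ^ (-(a / 9 : ℝ)) :=
    (Pool.Agent.Lib.H59T.uc_UU (l ^ a) χ c hc (fun t => G i0 t / 2) (fun t => by rw [hG0])).trans
      (Pool.Agent.Lib.H59T.U1_all l a hl ha χ hχ)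
  have hUU0 : 0 ≤ UU (fun t => G i0 t / 2) :=
    Finset.sum_nonneg fun _ _ => Finset.sum_nonneg fun _ _ => by positivity
  have v0 : ((l ^ a : ℕ) : ℝ) ^ (-(1 / 9 : ℝ)) = (l : ℝ) ^ (-(a / 9 : ℝ)) := by
    push_cast
    rw [← Real.rpow_natCast, ← Real.rpow_mul hl0.le]
    congr 1
    ring
  have u1 := hE (l ^ a) b (fun i t => G i t / 2) (fun i t => by
    have hn2 : ‖(2 : ℂ)‖ = 2 := by simp
    rw [norm_div, hn2]
    have := bG i t
    linarith) i0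
  have u5 : (E * UU (fun t => G i0 t / 2) / ((l ^ a : ℕ) : ℝ) ^ 4) ^ (1 / 8 : ℝ) ≤
      (13 * E) ^ (1 / 8 : ℝ) * ((l ^ a : ℕ) : ℝ) ^ (-(1 / 72) : ℝ) := by
    have w1 : E * UU (fun t => G i0 t / 2) / ((l ^ a : ℕ) : ℝ) ^ 4 ≤ 13 * E * ((l ^ a : ℕ) : ℝ) ^ (-(1 / 9 : ℝ)) := by
      rw [div_le_iff₀ (by positivity), v0]
      calc E * UU (fun t => G i0 t / 2) ≤ E * (13 * ((l ^ a : ℕ) : ℝ) ^ 4 * (l : ℝ) ^ (-(a / 9 : ℝ))) :=
            mul_le_mul_of_nonneg_left u4 (by linarith)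
        _ = 13 * E * (l : ℝ) ^ (-(a / 9 : ℝ)) * ((l ^ a : ℕ) : ℝ) ^ 4 := by ring
    have w2 : (13 * E * ((l ^ a : ℕ) : ℝ) ^ (-(1 / 9 : ℝ))) ^ (1 / 8 : ℝ) =
        (13 * E) ^ (1 / 8 : ℝ) * ((l ^ a : ℕ) : ℝ) ^ (-(1 / 72) : ℝ) := by
      rw [Real.mul_rpow (by linarith) (by positivity), ← Real.rpow_mul hq0.le]
      norm_num
    rw [← w2]
    refine Real.rpow_le_rpow (by positivity) w1 (by norm_num)
  rw [L2T S (l ^ a) b g G (fun i m => hG i m), l3_scale]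
  have h2k : (0 : ℝ) ≤ 2 ^ k := by positivity
  calc (2 : ℝ) ^ k * FZ S (l ^ a) b (fun i t => G i t / 2) ≤
      2 ^ k * (((l ^ a : ℕ) : ℝ) ^ (d + 1) * ((13 * E) ^ (1 / 8 : ℝ) * ((l ^ a : ℕ) : ℝ) ^ (-(1 / 72) : ℝ))) := by
        refine mul_le_mul_of_nonneg_left (u1.trans ?_) h2k
        exact mul_le_mul_of_nonneg_left u5 (by positivity)
    _ = _ := by ring

/-- Proof. `a = (Rm p).factorization l`, `q = l^a`. `E7_attained`: `a ≥ 1`, all `(p i).1.factorization l ≤ a`, with equality and `l ∣ (p i0).1` for some `i0`.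
`L4_per`, `L4_norm` (`H59T/L4.lean`): the functions `lf (p i) (κ i) l` have period `q` and are bounded by `2`; `C3_fun`: functions `G i` on `ZMod q`; `L2T`.
`FZ S q b G = 2^k FZ S q b (G/2) ≤ 2^k q^(d+1) (E UU(G i0/2)/q⁴)^(1/8)` (`L2_all`), `G i0 = c conj χ` with `|c| ≤ 2` (`L4_char`), `uc_UU`
(`H59T/UC.lean`), `U1_all`: `UU ≤ 13 q⁴ l^(-a/9)`, and `(l^(-a/9))^(1/8) = q^(-1/72)`. `2^A ≥ 2^k (13 E)^(1/8)`. -/
theorem L3_pow {k d : ℕ} (S : Sys k d) (hS : S.Half) : ∃ A : ℕ, ∀ (b : Fin k → ℤ) (p : Fin k → Ch), Pm p →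
    ∀ κ : Fin k → ℕ, Kp p κ → ∀ l : ℕ, l.Prime → l ∣ Rm p →
    FM S (l ^ (Rm p).factorization l) b (fun i => lf (p i) (κ i) l) ≤
      ((l ^ (Rm p).factorization l : ℕ) : ℝ) ^ (d + 1) *
        (2 ^ A * ((l ^ (Rm p).factorization l : ℕ) : ℝ) ^ (-(1 / 72) : ℝ)) := by
  obtain ⟨E, hE1, hE⟩ := L2_all S hS
  obtain ⟨A, hA⟩ := pow_unbounded_of_one_lt (2 ^ k * (13 * E) ^ (1 / 8 : ℝ)) (by norm_num : (1 : ℝ) < 2)
  refine ⟨A, fun b p hp κ _hκ l hl hd => ?_⟩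
  have hl2 : (2 : ℝ) ≤ l := by exact_mod_cast hl.two_le
  obtain ⟨h1, h2, i0, h3, h4⟩ := Pool.Agent.Lib.H59T.E7_attained p hp l hl hd
  have hch := Pool.Agent.Lib.H59T.L4_char (p i0) (hp i0).1 (hp i0).2 l hl h4
  rw [h3] at hch
  obtain ⟨χ, hχ, hlf⟩ := hch
  have hc : |(l : ℝ) / ((l : ℝ) - 1)| ≤ 2 := by
    rw [abs_of_nonneg (by apply div_nonneg <;> linarith), div_le_iff₀ (by linarith)]
    linarith
  have hper : ∀ (i : Fin k) (m : ℤ),
      lf (p i) (κ i) l (m + ((l ^ (Rm p).factorization l : ℕ) : ℤ)) = lf (p i) (κ i) l m := by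
    intro i m
    have := Pool.Agent.Lib.H59T.L4_per (p i) (hp i).1 (hp i).2 (κ i) l ((Rm p).factorization l) hl h1 (h2 i) m 1
    rw [mul_one] at this
    rw [← this]
    push_cast
    rfl
  refine (l3_one S E hE1 hE b l ((Rm p).factorization l) hl h1 χ hχ _ hc (fun i => lf (p i) (κ i) l)
    (fun i m => hper i m) (fun i m => Pool.Agent.Lib.H59T.L4_norm _ _ _ hl m) i0 (fun m => hlf (κ i0) m)).trans ?_
  refine mul_le_mul_of_nonneg_left ?_ (by positivity)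
  exact mul_le_mul_of_nonneg_right hA.le (by positivity)

end Pool.Agent.H9U
end

-- from Lib.H9U.L5
section

/-!
# H9U, chunk L5 (M): the first moment of the components over a complete period
-/

open Finset

namespace Pool.Agent.H9U

open Pool.Agent.Lib.H59P (Ch bx)
open Pool.Agent.Lib.H18Q (gk KS)
open Pool.Agent.Lib.H59T (UU Rm Pm Kp dof tau lf)

/-- Proof. As `F1_glob` (`H59T/F1.lean`), with `κ' = κ`: `N = ∏_{l ∣ N} q l`, `q l = l^(N.factorization l)`, `L3_gk` (`H59T/L3.lean`), `L4_per` (`H59T/L4.lean`),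
`L5A_prod`; `L3_pow` at the primes dividing `Rm p`, `L4_out` at those dividing `dof`; `A` = the sum of the two constants; `F1_tau`. -/
theorem L5_glob {k d : ℕ} (S : Sys k d) (hS : S.Half) : ∃ A : ℕ, ∀ (b : Fin k → ℤ) (p : Fin k → Ch), Pm p →
    ∀ κ : Fin k → ℕ, Kp p κ →
    (∀ i m, gk (p i) (κ i) (m + (Rm p * dof (Rm p) κ κ : ℕ)) = gk (p i) (κ i) m) ∧
    FM S (Rm p * dof (Rm p) κ κ) b (fun i => gk (p i) (κ i)) ≤
      ((Rm p * dof (Rm p) κ κ : ℕ) : ℝ) ^ (d + 1) * (tau (Rm p) ^ A * (Rm p : ℝ) ^ (-(1 / 72) : ℝ) *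
        (tau (dof (Rm p) κ κ) ^ A / (dof (Rm p) κ κ : ℝ) ^ 2)) := by
  classical
  obtain ⟨A1, hA1⟩ := L3_pow S hS
  obtain ⟨A2, hA2⟩ := L4_out S hS
  refine ⟨A1 + A2, fun b p hp κ hκ => ?_⟩
  obtain ⟨A, hA⟩ : ∃ A, A = A1 + A2 := ⟨_, rfl⟩
  rw [← hA]
  obtain ⟨R, hR⟩ : ∃ R, R = Rm p := ⟨_, rfl⟩
  obtain ⟨e, hd⟩ : ∃ e, e = dof (Rm p) κ κ := ⟨_, rfl⟩
  rw [← hd, ← hR]
  obtain ⟨hd0, hdsq, hdR, hddv⟩ := Pool.Agent.Lib.H59T.F1_dof (Rm p) κ κ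
  rw [← hd] at hd0 hdsq hdR hddv
  rw [← hR] at hdR hddv
  have hR0 : R ≠ 0 := by
    rw [hR]
    unfold Rm
    intro h
    rw [Finset.lcm_eq_zero_iff] at h
    obtain ⟨i, _, hi⟩ := h
    exact absurd hi (hp i).1.ne'
  have hpR : ∀ i, (p i).1 ∣ R := fun i => by
    rw [hR]
    exact Finset.dvd_lcm (mem_univ i)
  have hN0 : R * e ≠ 0 := mul_ne_zero hR0 hd0.ne'
  obtain ⟨P, hP⟩ : ∃ P, P = (R * e).primeFactors := ⟨_, rfl⟩
  have hPp : ∀ l ∈ P, l.Prime := fun l hl => by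
    rw [hP] at hl
    exact Nat.prime_of_mem_primeFactors hl
  have hPU : P = R.primeFactors ∪ e.primeFactors := by
    rw [hP, Nat.primeFactors_mul hR0 hd0.ne']
  have hdisj : Disjoint R.primeFactors e.primeFactors := hdR.symm.disjoint_primeFactors
  have hsub : ∀ (κ₀ : ℕ) (h : ∀ l : ℕ, l.Prime → l ∣ κ₀ → κ₀ ≠ 0 → ¬ l ∣ R → l ∣ e), κ₀.primeFactors ⊆ P := by
    intro κ₀ h l hl
    rw [Nat.mem_primeFactors] at hl
    rw [hP, Nat.mem_primeFactors]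
    refine ⟨hl.1, ?_, hN0⟩
    by_cases h1 : l ∣ R
    · exact h1.mul_right e
    · exact (h l hl.1 hl.2.1 hl.2.2 h1).mul_left R
  have h1 : ∀ i, (p i).1.primeFactors ⊆ P := fun i => hsub _ fun l _ h2 _ h3 =>
    absurd (h2.trans (hpR i)) h3
  have h2 : ∀ i, (κ i).primeFactors ⊆ P := fun i => hsub _ fun l h3 h4 h5 h6 =>
    (hddv l h3).2 ⟨h6, i, Or.inl ⟨h4, h5⟩⟩
  obtain ⟨G, hG⟩ : ∃ G : ℕ → Fin k → ℤ → ℂ, G = fun l i => lf (p i) (κ i) l := ⟨_, rfl⟩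
  have hgk : ∀ i m, gk (p i) (κ i) m = ∏ l ∈ P, G l i m := by
    intro i m
    rw [hG]
    exact Pool.Agent.Lib.H59T.L3_gk (p i) (hp i).1 (hp i).2 (κ i) (hκ i).1 (hκ i).2 P hPp (h1 i) (h2 i) m
  obtain ⟨q, hq⟩ : ∃ q : ℕ → ℕ, q = fun l => l ^ (R * e).factorization l := ⟨_, rfl⟩
  have hfac : ∀ l, (R * e).factorization l = R.factorization l + e.factorization l := by
    intro l
    rw [Nat.factorization_mul hR0 hd0.ne']
    rfl
  have hqR : ∀ l ∈ R.primeFactors, q l = l ^ R.factorization l := by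
    intro l hl
    have h4 : e.factorization l = 0 := by
      apply Nat.factorization_eq_zero_of_not_dvd
      intro h5
      exact Finset.disjoint_left.1 hdisj hl
        (Nat.mem_primeFactors.2 ⟨Nat.prime_of_mem_primeFactors hl, h5, hd0.ne'⟩)
    rw [hq]
    show l ^ (R * e).factorization l = _
    rw [hfac, h4, add_zero]
  have hqd : ∀ l ∈ e.primeFactors, q l = l := by
    intro l hl
    have h4 : R.factorization l = 0 := by
      apply Nat.factorization_eq_zero_of_not_dvd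
      intro h5
      exact Finset.disjoint_right.1 hdisj hl
        (Nat.mem_primeFactors.2 ⟨Nat.prime_of_mem_primeFactors hl, h5, hR0⟩)
    have h5 : e.factorization l = 1 := by
      have h6 := (Nat.squarefree_iff_factorization_le_one hd0.ne').1 hdsq l
      have h7 : e.factorization l ≠ 0 := by
        rw [← Finsupp.mem_support_iff, Nat.support_factorization]
        exact hl
      omega
    rw [hq]
    show l ^ (R * e).factorization l = _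
    rw [hfac, h4, h5, zero_add, pow_one]
  have hprodq : ∏ l ∈ P, q l = R * e := by
    rw [hq, hP]
    exact (Nat.prod_primeFactors_pow_factorization hN0).symm
  have hq0 : ∀ l ∈ P, 0 < q l := fun l hl => by
    rw [hq]
    exact pow_pos (hPp l hl).pos _
  have hqc : ∀ l ∈ P, ∀ l' ∈ P, l ≠ l' → Nat.Coprime (q l) (q l') := by
    intro l hl l' hl' hne
    rw [hq]
    exact Nat.Coprime.pow _ _ ((Nat.coprime_primes (hPp l hl) (hPp l' hl')).2 hne)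
  have hfacle : ∀ i l, (p i).1.factorization l ≤ R.factorization l := fun i l =>
    (Nat.factorization_le_iff_dvd (hp i).1.ne' hR0).2 (hpR i) l
  have hper : ∀ l ∈ P, ∀ i m, G l i (m + q l) = G l i m := by
    intro l hl i m
    rw [hG]
    show lf (p i) (κ i) l (m + q l) = lf (p i) (κ i) l m
    rw [hPU, mem_union] at hl
    rcases hl with hl | hl
    · rw [hqR l hl]
      have h3 := Pool.Agent.Lib.H59T.L4_per (p i) (hp i).1 (hp i).2 (κ i) l (R.factorization l)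
        (Nat.prime_of_mem_primeFactors hl) (by
          rw [Nat.one_le_iff_ne_zero, ← Finsupp.mem_support_iff, Nat.support_factorization]
          exact hl) (hfacle i l) m 1
      rw [mul_one] at h3
      rw [← h3]
      push_cast
      rfl
    · rw [hqd l hl]
      have h3 := Pool.Agent.Lib.H59T.L4_per (p i) (hp i).1 (hp i).2 (κ i) l 1
        (Nat.prime_of_mem_primeFactors hl) le_rfl (by
          have h6 : R.factorization l = 0 := by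
            apply Nat.factorization_eq_zero_of_not_dvd
            intro h5
            exact Finset.disjoint_right.1 hdisj hl
              (Nat.mem_primeFactors.2 ⟨Nat.prime_of_mem_primeFactors hl, h5, hR0⟩)
          have := hfacle i l
          omega) m 1
      rw [mul_one, pow_one] at h3
      exact h3
  obtain ⟨hc1, hc2⟩ := L5A_prod S b P q hq0 hqc G hper
  rw [hprodq] at hc1 hc2
  have hfun : (fun i => gk (p i) (κ i)) = fun i m => ∏ l ∈ P, G l i m := by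
    funext i m
    exact hgk i m
  refine ⟨fun i m => ?_, ?_⟩
  · rw [hgk, hgk]
    exact hc1 i m
  rw [hfun, hc2, hPU, prod_union hdisj]
  have hFM0 : ∀ l, 0 ≤ FM S (q l) b (G l) := fun l =>
    Finset.sum_nonneg fun _ _ => norm_nonneg _
  have h2A1 : (2 : ℝ) ^ A1 ≤ 2 ^ A := pow_le_pow_right₀ (by norm_num) (by omega)
  have h2A2 : (2 : ℝ) ^ A2 ≤ 2 ^ A := pow_le_pow_right₀ (by norm_num) (by omega)
  have hbR : ∏ l ∈ R.primeFactors, FM S (q l) b (G l) ≤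
      (R : ℝ) ^ (d + 1) * (tau R ^ A * (R : ℝ) ^ (-(1 / 72) : ℝ)) := by
    have h4 : ∏ l ∈ R.primeFactors, FM S (q l) b (G l) ≤ ∏ l ∈ R.primeFactors,
        (((q l : ℕ) : ℝ) ^ (d + 1) * (2 ^ A * ((q l : ℕ) : ℝ) ^ (-(1 / 72) : ℝ))) := by
      refine Finset.prod_le_prod (fun l _ => hFM0 l) fun l hl => ?_
      have h5 := hA1 b p hp κ hκ l (Nat.prime_of_mem_primeFactors hl)
        (by rw [← hR]; exact Nat.dvd_of_mem_primeFactors hl)
      rw [← hR, ← hqR l hl] at h5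
      rw [hG]
      refine h5.trans ?_
      refine mul_le_mul_of_nonneg_left ?_ (by positivity)
      exact mul_le_mul_of_nonneg_right h2A1 (by positivity)
    have h6 : ∏ l ∈ R.primeFactors, ((q l : ℕ) : ℝ) = R := by
      rw [← Nat.cast_prod, Finset.prod_congr rfl hqR]
      rw [← Nat.prod_primeFactors_pow_factorization hR0]
    have h7 : ∏ l ∈ R.primeFactors, ((q l : ℕ) : ℝ) ^ (-(1 / 72) : ℝ) = (R : ℝ) ^ (-(1 / 72) : ℝ) := by
      rw [Real.finsetProd_rpow _ _ (fun l _ => Nat.cast_nonneg _), h6]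
    rw [Finset.prod_mul_distrib, Finset.prod_mul_distrib, Finset.prod_pow, h6, h7,
      Finset.prod_const, ← pow_mul] at h4
    refine h4.trans ?_
    have h8 := Pool.Agent.Lib.H59T.F1_tau R A (Nat.pos_of_ne_zero hR0)
    have h9 : (0 : ℝ) ≤ (R : ℝ) ^ (-(1 / 72) : ℝ) := by positivity
    exact mul_le_mul_of_nonneg_left (mul_le_mul_of_nonneg_right h8 h9) (by positivity)
  have hbd : ∏ l ∈ e.primeFactors, FM S (q l) b (G l) ≤ (e : ℝ) ^ (d + 1) * (tau e ^ A / (e : ℝ) ^ 2) := by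
    have h4 : ∏ l ∈ e.primeFactors, FM S (q l) b (G l) ≤ ∏ l ∈ e.primeFactors,
        ((l : ℝ) ^ (d + 1) * (2 ^ A / (l : ℝ) ^ 2)) := by
      refine Finset.prod_le_prod (fun l _ => hFM0 l) fun l hl => ?_
      have hlp := Nat.prime_of_mem_primeFactors hl
      have hld := (hddv l hlp).1 (Nat.dvd_of_mem_primeFactors hl)
      have h5 := hA2 b p hp κ hκ l hlp (by rw [← hR]; exact hld.1) (by
          obtain ⟨i, hi | hi⟩ := hld.2
          · exact ⟨i, hi.1⟩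
          · exact ⟨i, hi.1⟩)
      rw [hqd l hl, hG]
      refine h5.trans ?_
      refine mul_le_mul_of_nonneg_left ?_ (by positivity)
      exact div_le_div_of_nonneg_right h2A2 (by positivity)
    have h6 : ∏ l ∈ e.primeFactors, (l : ℝ) = e := by
      rw [← Nat.cast_prod, Nat.prod_primeFactors_of_squarefree hdsq]
    rw [Finset.prod_mul_distrib, Finset.prod_div_distrib, Finset.prod_pow (f := fun l : ℕ => (l : ℝ)) (n := d + 1),
      Finset.prod_pow (f := fun l : ℕ => (l : ℝ)) (n := 2), h6,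
      Finset.prod_const, ← pow_mul] at h4
    refine h4.trans ?_
    have h8 := Pool.Agent.Lib.H59T.F1_tau e A hd0
    have h9 : (0 : ℝ) ≤ (e : ℝ) ^ 2 := by positivity
    exact mul_le_mul_of_nonneg_left (div_le_div_of_nonneg_right h8 h9) (by positivity)
  calc (∏ l ∈ R.primeFactors, FM S (q l) b (G l)) * ∏ l ∈ e.primeFactors, FM S (q l) b (G l)
      ≤ ((R : ℝ) ^ (d + 1) * (tau R ^ A * (R : ℝ) ^ (-(1 / 72) : ℝ))) *
        ((e : ℝ) ^ (d + 1) * (tau e ^ A / (e : ℝ) ^ 2)) := by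
        refine mul_le_mul hbR hbd (Finset.prod_nonneg fun l _ => hFM0 l) ?_
        unfold tau
        positivity
    _ = _ := by
        push_cast
        rw [mul_pow]
        ring

end Pool.Agent.H9U
end

-- from Lib.H9U.L6
section

/-!
# H9U, chunk L6 (M): the components with large moduli are small on average over `t`
-/

open Finset

namespace Pool.Agent.H9U

open Pool.Agent.Lib.H68T (PC)
open Pool.Agent.Lib.H59P (Ch bx)
open Pool.Agent.Lib.H18Q (gk KS)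
open Pool.Agent.Lib.H59T (UU Rm Pm Kp dof tau lf)

/-- **The local factors.** Proof. As `F3_gen` (`H59T/F3.lean`). Exchange the sums over `n` and `κ`, triangle inequality. For each `κ ∈ T`: `L6A_mom` with
`N = Rm p * dof (Rm p) κ κ ≤ Q^(2k)` (`F2_size`), `B = Q^k` (`f3_gk`), `L5_glob`: at most
`2^d L^d H (τ(R)^A R^(-1/72) τ(d)^A/d²) + 2 L^d Q^(2k) Q^k`. Sum over `κ`: `F2_sum` with `c = 1/72` (its left side contains the diagonal `κ' = κ`, all terms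
are nonnegative), and at most `Q^k` elements: the rest is `2 L^d Q^(4k) ≤ 2 L^d H Q^(-6k) ≤ 2 L^d H D^(-1/144)` (`D ≤ Q^k` if `T` is not
empty). -/
theorem L6_main {k d : ℕ} (S : Sys k d) (hS : S.Half) : ∃ C : ℝ, 0 < C ∧ ∀ Q D : ℕ, 1 ≤ D →
    ∀ p : Fin k → Ch, (∀ i, p i ∈ PC Q) → ∀ T : Finset (Fin k → ℕ),
    T ⊆ Fintype.piFinset (fun i => KS Q (p i).1) → (∀ κ ∈ T, D < univ.lcm (fun i => (p i).1 * κ i)) →
    ∀ (b : Fin k → ℤ) (L H : ℕ), Q ^ (10 * k) ≤ L → Q ^ (10 * k) ≤ H →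
    ∑ t ∈ bx d L, ‖∑ n ∈ range H, ∑ κ ∈ T, ∏ i, gk (p i) (κ i) (S.val b n (iv t) i)‖ ≤
      C * ((L : ℝ) ^ d * H) * (D : ℝ) ^ (-(1 / 144) : ℝ) := by
  classical
  obtain ⟨A, hA⟩ := L5_glob S hS
  obtain ⟨C, hC, hsum⟩ := Pool.Agent.Lib.H59T.F2_sum k A (1 / 72) (by norm_num) (by norm_num)
  refine ⟨2 ^ d * C + 2, by positivity, fun Q D hD p hp T hT hTD b L H hL hH => ?_⟩
  have hexp : (-((1 / 72 : ℝ) / 2)) = (-(1 / 144) : ℝ) := by norm_num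
  have hDr : (1 : ℝ) ≤ (D : ℝ) := by exact_mod_cast hD
  have hDp : (0 : ℝ) < (D : ℝ) ^ (-(1 / 144) : ℝ) := Real.rpow_pos_of_pos (by linarith) _
  have hV : (0 : ℝ) ≤ (L : ℝ) ^ d * H := by positivity
  rcases T.eq_empty_or_nonempty with hT0 | ⟨κ₀, hκ₀⟩
  · subst hT0
    have h0 : ∑ t ∈ bx d L, ‖∑ n ∈ range H, ∑ κ ∈ (∅ : Finset (Fin k → ℕ)),
        ∏ i, gk (p i) (κ i) (S.val b n (iv t) i)‖ = 0 := by simp
    rw [h0]
    exact mul_nonneg (mul_nonneg (by positivity) hV) hDp.le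
  have hKS : ∀ κ ∈ T, ∀ i, κ i ∈ KS Q (p i).1 := fun κ hκ i => (Fintype.mem_piFinset.1 (hT hκ)) i
  have hPm : Pm p := fun i => ⟨by have := (Pool.Agent.Lib.H68T.mem_PC.1 (hp i)).1; omega,
    (Pool.Agent.Lib.H68T.mem_PC.1 (hp i)).2.2⟩
  have hKp : ∀ κ ∈ T, Kp p κ := fun κ hκ i => (Pool.Agent.Lib.H18Q.CA_mem_KS.1 (hKS κ hκ i)).2
  have hle1 : ∀ κ ∈ T, ∀ i, (p i).1 * κ i ≤ Q := by
    intro κ hκ i
    have h1 := (Pool.Agent.Lib.H18Q.CA_mem_KS.1 (hKS κ hκ i)).1.2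
    calc (p i).1 * κ i ≤ (p i).1 * (Q / (p i).1) := Nat.mul_le_mul_left _ h1
      _ ≤ Q := Nat.mul_div_le Q _
  have hpos : ∀ κ ∈ T, ∀ i, 0 < (p i).1 * κ i := by
    intro κ hκ i
    exact Nat.mul_pos (hPm i).1 (Pool.Agent.Lib.H18Q.CA_mem_KS.1 (hKS κ hκ i)).1.1
  have hDQ : D ≤ Q ^ k := by
    have h1 : (univ.lcm fun i => (p i).1 * κ₀ i) ≤ ∏ i, (p i).1 * κ₀ i := by
      refine Nat.le_of_dvd (Finset.prod_pos fun i _ => hpos κ₀ hκ₀ i) ?_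
      exact Finset.lcm_dvd fun i hi => Finset.dvd_prod_of_mem (fun i => (p i).1 * κ₀ i) hi
    have h2 : ∏ i, (p i).1 * κ₀ i ≤ ∏ _i : Fin k, Q := Finset.prod_le_prod' fun i _ => hle1 κ₀ hκ₀ i
    rw [Finset.prod_const, Finset.card_univ, Fintype.card_fin] at h2
    exact (hTD κ₀ hκ₀).le.trans (h1.trans h2)
  have hQk : 1 ≤ Q ^ k := hD.trans hDQ
  have hQkr : (1 : ℝ) ≤ (Q : ℝ) ^ k := by exact_mod_cast hQk
  have hcard : T.card ≤ Q ^ k := by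
    calc T.card ≤ (Fintype.piFinset (fun i => KS Q (p i).1)).card := Finset.card_le_card hT
      _ = ∏ i, (KS Q (p i).1).card := Fintype.card_piFinset _
      _ ≤ ∏ _i : Fin k, Q := by
          refine Finset.prod_le_prod' fun i _ => ?_
          unfold KS
          refine (Finset.card_filter_le _ _).trans ?_
          rw [Nat.card_Icc, Nat.add_sub_cancel]
          exact Nat.div_le_self _ _
      _ = Q ^ k := by rw [Finset.prod_const, Finset.card_univ, Fintype.card_fin]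
  have hone : ∀ κ ∈ T, ∑ t ∈ bx d L, ‖∑ n ∈ range H, ∏ i, gk (p i) (κ i) (S.val b n (iv t) i)‖ ≤
      (2 ^ d * ((L : ℝ) ^ d * H)) * (tau (Rm p) ^ A * (Rm p : ℝ) ^ (-(1 / 72) : ℝ) *
        (tau (dof (Rm p) κ κ) ^ A / (dof (Rm p) κ κ : ℝ) ^ 2)) + (L : ℝ) ^ d * (2 * ((Q : ℝ) ^ k) ^ 3) := by
    intro κ hκ
    obtain ⟨hper, hb4⟩ := hA b p hPm κ (hKp κ hκ)
    obtain ⟨hN, hNQ⟩ := Pool.Agent.Lib.H59T.F2_size Q p hp κ κ (hKS κ hκ) (hKS κ hκ)
    set N := Rm p * dof (Rm p) κ κ with hNdef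
    have hNL : N ≤ L := by
      refine hNQ.trans (le_trans ?_ hL)
      calc Q ^ (2 * k) = (Q ^ k) ^ 2 := by rw [← pow_mul, mul_comm]
        _ ≤ (Q ^ k) ^ 10 := Nat.pow_le_pow_right hQk (by norm_num)
        _ = Q ^ (10 * k) := by rw [← pow_mul, mul_comm]
    have hB : ∀ m : Fin k → ℤ, ‖∏ i, gk (p i) (κ i) (m i)‖ ≤ (Q : ℝ) ^ k := by
      intro m
      rw [norm_prod]
      calc ∏ i : Fin k, ‖gk (p i) (κ i) (m i)‖ ≤ ∏ _i : Fin k, (Q : ℝ) :=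
            Finset.prod_le_prod (fun i _ => norm_nonneg _)
              (fun i _ => Pool.Agent.Lib.H59T.f3_gk Q (p i) (hp i) _ (hKS κ hκ i) _)
        _ = (Q : ℝ) ^ k := by rw [Finset.prod_const, Finset.card_univ, Fintype.card_fin]
    have h1 := L6A_mom S N L H hN hNL b (fun i => gk (p i) (κ i)) hper ((Q : ℝ) ^ k) hB
    refine h1.trans (add_le_add ?_ ?_)
    · have hNr : (0 : ℝ) < (N : ℝ) := by exact_mod_cast hN
      have hw0 : (0 : ℝ) ≤ (2 * (L : ℝ) / N) ^ d * ((H : ℝ) / N) := by positivity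
      refine (mul_le_mul_of_nonneg_left hb4 hw0).trans (le_of_eq ?_)
      rw [div_pow, mul_pow, pow_succ]
      field_simp
    · refine mul_le_mul_of_nonneg_left ?_ (by positivity)
      have h2 : (N : ℝ) ≤ ((Q : ℝ) ^ k) ^ 2 := by
        have h3 : (N : ℝ) ≤ ((Q ^ (2 * k) : ℕ) : ℝ) := by exact_mod_cast hNQ
        rw [Nat.cast_pow, mul_comm, pow_mul] at h3
        exact h3
      have h3 : (N : ℝ) * (Q : ℝ) ^ k ≤ ((Q : ℝ) ^ k) ^ 2 * (Q : ℝ) ^ k :=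
        mul_le_mul_of_nonneg_right h2 (by positivity)
      calc 2 * (N : ℝ) * (Q : ℝ) ^ k = 2 * ((N : ℝ) * (Q : ℝ) ^ k) := by ring
        _ ≤ 2 * (((Q : ℝ) ^ k) ^ 2 * (Q : ℝ) ^ k) := by linarith
        _ = 2 * ((Q : ℝ) ^ k) ^ 3 := by ring
  have hreal : ∑ t ∈ bx d L, ‖∑ n ∈ range H, ∑ κ ∈ T, ∏ i, gk (p i) (κ i) (S.val b n (iv t) i)‖ ≤
      ∑ κ ∈ T, ∑ t ∈ bx d L, ‖∑ n ∈ range H, ∏ i, gk (p i) (κ i) (S.val b n (iv t) i)‖ := by
    rw [Finset.sum_comm]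
    refine Finset.sum_le_sum fun t _ => ?_
    rw [Finset.sum_comm]
    exact norm_sum_le _ _
  refine hreal.trans ((Finset.sum_le_sum fun κ hκ => hone κ hκ).trans ?_)
  rw [Finset.sum_add_distrib, ← Finset.mul_sum, Finset.sum_const, nsmul_eq_mul]
  have hterm0 : ∀ κ κ' : Fin k → ℕ, 0 ≤ tau (Rm p) ^ A * (Rm p : ℝ) ^ (-(1 / 72) : ℝ) *
      (tau (dof (Rm p) κ κ') ^ A / (dof (Rm p) κ κ' : ℝ) ^ 2) := by
    intro κ κ'
    unfold tau
    positivity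
  have hdiag : ∑ κ ∈ T, tau (Rm p) ^ A * (Rm p : ℝ) ^ (-(1 / 72) : ℝ) *
      (tau (dof (Rm p) κ κ) ^ A / (dof (Rm p) κ κ : ℝ) ^ 2) ≤ C * (D : ℝ) ^ (-(1 / 144) : ℝ) := by
    have h1 := hsum Q D hD p hp T hT hTD
    rw [hexp] at h1
    refine le_trans (Finset.sum_le_sum fun κ hκ => ?_) h1
    exact Finset.single_le_sum (f := fun κ' => tau (Rm p) ^ A * (Rm p : ℝ) ^ (-(1 / 72) : ℝ) *
      (tau (dof (Rm p) κ κ') ^ A / (dof (Rm p) κ κ' : ℝ) ^ 2)) (fun κ' _ => hterm0 κ κ') hκ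
  have herr : (T.card : ℝ) * ((L : ℝ) ^ d * (2 * ((Q : ℝ) ^ k) ^ 3)) ≤
      2 * ((L : ℝ) ^ d * H) * (D : ℝ) ^ (-(1 / 144) : ℝ) := by
    have h1 : (T.card : ℝ) ≤ (Q : ℝ) ^ k := by exact_mod_cast hcard
    have h2 : (0 : ℝ) < (Q : ℝ) ^ k := by linarith
    have h4 : ((Q : ℝ) ^ k)⁻¹ ≤ (D : ℝ) ^ (-(1 / 144) : ℝ) := by
      have h5 : (D : ℝ) ≤ (Q : ℝ) ^ k := by exact_mod_cast hDQ
      rw [Real.rpow_neg (by linarith)]
      refine inv_anti₀ (Real.rpow_pos_of_pos (by linarith) _) ?_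
      calc (D : ℝ) ^ ((1 / 144 : ℝ)) ≤ (D : ℝ) ^ (1 : ℝ) := Real.rpow_le_rpow_of_exponent_le hDr (by norm_num)
        _ = (D : ℝ) := Real.rpow_one _
        _ ≤ (Q : ℝ) ^ k := h5
    have h5 : ((Q : ℝ) ^ k) ^ 10 ≤ (H : ℝ) := by
      have h6 : ((Q ^ (10 * k) : ℕ) : ℝ) ≤ (H : ℝ) := by exact_mod_cast hH
      rw [Nat.cast_pow, mul_comm, pow_mul] at h6
      exact h6
    have h6 : ((Q : ℝ) ^ k) ^ 4 ≤ (H : ℝ) * ((Q : ℝ) ^ k)⁻¹ := by
      rw [le_mul_inv_iff₀ h2]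
      calc ((Q : ℝ) ^ k) ^ 4 * (Q : ℝ) ^ k = ((Q : ℝ) ^ k) ^ 5 := by ring
        _ ≤ ((Q : ℝ) ^ k) ^ 10 := pow_le_pow_right₀ hQkr (by norm_num)
        _ ≤ (H : ℝ) := h5
    have h7 : (H : ℝ) * ((Q : ℝ) ^ k)⁻¹ ≤ (H : ℝ) * (D : ℝ) ^ (-(1 / 144) : ℝ) :=
      mul_le_mul_of_nonneg_left h4 (Nat.cast_nonneg _)
    calc (T.card : ℝ) * ((L : ℝ) ^ d * (2 * ((Q : ℝ) ^ k) ^ 3))
        ≤ (Q : ℝ) ^ k * ((L : ℝ) ^ d * (2 * ((Q : ℝ) ^ k) ^ 3)) :=
          mul_le_mul_of_nonneg_right h1 (by positivity)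
      _ = 2 * (L : ℝ) ^ d * ((Q : ℝ) ^ k) ^ 4 := by ring
      _ ≤ 2 * (L : ℝ) ^ d * ((H : ℝ) * (D : ℝ) ^ (-(1 / 144) : ℝ)) :=
          mul_le_mul_of_nonneg_left (h6.trans h7) (by positivity)
      _ = 2 * ((L : ℝ) ^ d * H) * (D : ℝ) ^ (-(1 / 144) : ℝ) := by ring
  calc _ ≤ (2 ^ d * ((L : ℝ) ^ d * H)) * (C * (D : ℝ) ^ (-(1 / 144) : ℝ)) +
        2 * ((L : ℝ) ^ d * H) * (D : ℝ) ^ (-(1 / 144) : ℝ) :=
        add_le_add (mul_le_mul_of_nonneg_left hdiag (by positivity)) herr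
    _ = (2 ^ d * C + 2) * ((L : ℝ) ^ d * H) * (D : ℝ) ^ (-(1 / 144) : ℝ) := by ring

/-- Arbitrary base points. Proof. `val b (v + n) (u + t) i = val b' n t i` with `b' i = val b v u i`; `L6_main`. -/
theorem L6_base {k d : ℕ} (S : Sys k d) (hS : S.Half) : ∃ C : ℝ, 0 < C ∧ ∀ Q D : ℕ, 1 ≤ D →
    ∀ p : Fin k → Ch, (∀ i, p i ∈ PC Q) → ∀ T : Finset (Fin k → ℕ),
    T ⊆ Fintype.piFinset (fun i => KS Q (p i).1) → (∀ κ ∈ T, D < univ.lcm (fun i => (p i).1 * κ i)) →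
    ∀ (b : Fin k → ℤ) (v : ℤ) (u : Fin d → ℤ) (L H : ℕ), Q ^ (10 * k) ≤ L → Q ^ (10 * k) ≤ H →
    ∑ t ∈ bx d L, ‖∑ n ∈ range H, ∑ κ ∈ T, ∏ i, gk (p i) (κ i) (S.val b (v + n) (fun j => u j + t j) i)‖ ≤
      C * ((L : ℝ) ^ d * H) * (D : ℝ) ^ (-(1 / 144) : ℝ) := by
  obtain ⟨C, hC, h⟩ := L6_main S hS
  refine ⟨C, hC, fun Q D hD p hp T hT hTD b v u L H hL hH => ?_⟩
  have h1 := h Q D hD p hp T hT hTD (fun i => S.val b v u i) L H hL hH
  have h2 : ∀ (t : Fin d → ℕ) (n : ℕ) (i : Fin k), S.val b (v + n) (fun j => u j + t j) i =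
      S.val (fun i => S.val b v u i) n (iv t) i := by
    intro t n i
    unfold Sys.val Sys.lin iv
    simp only [mul_add, Finset.sum_add_distrib]
    ring
  simp only [h2]
  exact h1

end Pool.Agent.H9U
end

-- from Lib.H9U.LB
section

/-!
# H9U, chunk LB (S): the conclusion of module L in the form used by module Z
-/

open Finset

namespace Pool.Agent.H9U

/-- Proof. `L6_base` with `v = a`, `u = 0` (`∑ n ∈ Ico a (a + H)` as a sum over `range H`: `Finset.sum_Ico_eq_sum_range`), `c = 1/144`, `C` replaced by `max C 1`, and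
`1 ≤ (1 + log Q)^C` (`1 ≤ D ≤ Q`); `Q^(10 k) ≤ Q^(10 (k+1))`. -/
theorem LB_of {k d : ℕ} (S : Sys k d) (hS : S.Half) : LBig S := by
  obtain ⟨C, hC, h⟩ := L6_base S hS
  refine ⟨1 / 144, max C 1, by norm_num, le_max_right _ _, ?_⟩
  intro Q D hD hDQ p hp TT hTT hTD b a H T hH hT
  have hQ : 1 ≤ Q := le_trans hD hDQ
  have hpow : Q ^ (10 * k) ≤ Q ^ (10 * (k + 1)) := Nat.pow_le_pow_right hQ (by omega)
  have h1 := h Q D hD p hp TT hTT hTD b (a : ℤ) (fun _ => 0) T H (le_trans hpow hT) (le_trans hpow hH)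
  have e1 : ∀ t : Fin d → ℕ, ∑ n ∈ Ico a (a + H), ∑ κ ∈ TT, ∏ i, Pool.Agent.Lib.H18Q.gk (p i) (κ i) (S.val b n (iv t) i)
      = ∑ n ∈ range H, ∑ κ ∈ TT, ∏ i, Pool.Agent.Lib.H18Q.gk (p i) (κ i) (S.val b ((a : ℤ) + n) (fun j => 0 + (t j : ℤ)) i) := by
    intro t
    rw [Finset.sum_Ico_eq_sum_range, Nat.add_sub_cancel_left]
    refine Finset.sum_congr rfl (fun n _ => Finset.sum_congr rfl (fun κ _ => Finset.prod_congr rfl (fun i _ => ?_)))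
    have e2 : (fun j => 0 + (t j : ℤ)) = iv t := by
      funext j
      simp [iv]
    rw [e2]
    push_cast
    rfl
  simp only [e1]
  refine le_trans h1 ?_
  have hlog : 0 ≤ Real.log Q := Real.log_nonneg (by exact_mod_cast hQ)
  have h2 : (1 : ℝ) ≤ (1 + Real.log Q) ^ (max C 1) :=
    Real.one_le_rpow (by linarith) (le_trans zero_le_one (le_max_right _ _))
  have h3 : C ≤ max C 1 * (1 + Real.log Q) ^ (max C 1) := by
    calc C ≤ max C 1 := le_max_left _ _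
      _ = max C 1 * 1 := (mul_one _).symm
      _ ≤ max C 1 * (1 + Real.log Q) ^ (max C 1) :=
        mul_le_mul_of_nonneg_left h2 (le_trans zero_le_one (le_max_right _ _))
  have h4 : (0 : ℝ) ≤ (T : ℝ) ^ d * H := by positivity
  have h5 : (0 : ℝ) ≤ (D : ℝ) ^ (-(1 / 144) : ℝ) := Real.rpow_nonneg (Nat.cast_nonneg _) _
  exact mul_le_mul_of_nonneg_right (mul_le_mul_of_nonneg_right h3 h4) h5

end Pool.Agent.H9U
end

-- from Lib.H18F.Cell
section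

/-!
# H18F (MP_443e5f_co): one cell
-/

open Finset

namespace Pool.Agent.Lib.H18F

open Pool.Agent.H9U (Sys iv JJ CORE LB_of)
open Pool.Agent.Lib.H59P (bx)
open Pool.Agent.Lib.GoldbachGraph (hadj)

theorem jj_of (X v z : ℤ) (hX : 100 ≤ X) (hv : 560 * X ≤ v) (h1 : v ≤ z) (h2 : z < v + 60 * X) :
    z ∈ JJ (v / 2).toNat := by
  have h0 : 0 ≤ v / 2 := by omega
  unfold JJ
  rw [Int.toNat_of_nonneg h0, mem_Ico]
  omega

/-- The lower ends of the values. -/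
def lo5 (s1 s2 X m i j y a d : ℤ) : Fin 5 → ℤ :=
  ![30 * (X * m) + y + (30 * (X * i) + a), s1 * (30 * (X * m) + y - (30 * (X * i) + a)) - 30 * (X - 1),
    2 * (30 * (X * m) + y) - 3, 30 * (X * m) + y - 3 + (30 * (X * j) + d),
    s2 * (30 * (X * m) + y - 3 - (30 * (X * j) + d)) - 30 * (X - 1)]

/-- The path through `y` and `y - 3`. -/
def Pth (y a d : ℕ) : Prop := hadj y a ∧ (2 * y - 3).Prime ∧ hadj (y - 3) d

open Classical in
theorem cell_s (hI : Pool.Agent.H9S.INV) (s1 s2 : ℤ) (h1 : s1 = 1 ∨ s1 = -1) (h2 : s2 = 1 ∨ s2 = -1) :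
    ∃ κ : ℝ, 0 < κ ∧ ∃ X0 : ℕ, ∀ X : ℕ, X0 ≤ X → ∀ m i j y a d : ℕ, 20 ≤ m → m ≤ 130 → i ≤ 130 → j ≤ 130 →
    20 ≤ s1 * ((m : ℤ) - i) → 20 ≤ s2 * ((m : ℤ) - j) → y < 30 → a < 30 → d < 30 → Gd y a d →
    (((range X ×ˢ range X).filter fun t => ¬ ∃ n < X, Pth (30 * n + 30 * (X * m) + y) (30 * t.1 + 30 * (X * i) + a)
      (30 * t.2 + 30 * (X * j) + d)).card : ℝ) ≤ (X : ℝ) ^ (2 - κ) := by
  obtain ⟨κ, hκ, X0, hX⟩ := CORE hI (by norm_num : 1 ≤ 5) (by norm_num : 1 ≤ 2) (S5 s1 s2) (S5_half s1 s2 h1 h2)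
    (LB_of _ (S5_half s1 s2 h1 h2)) 10000 (by norm_num) (1 / 2) (by norm_num)
  refine ⟨κ, hκ, max X0 100, ?_⟩
  intro X hXX m i j y a d hm hm' hi hj hsi hsj hy ha hd hG
  have hX0 : X0 ≤ X := le_trans (le_max_left _ _) hXX
  have hX100 : 100 ≤ X := le_trans (le_max_right _ _) hXX
  set Y : ℤ := 30 * ((X : ℤ) * m) + y with hY
  set A : ℤ := 30 * ((X : ℤ) * i) + a with hA
  set D : ℤ := 30 * ((X : ℤ) * j) + d with hD
  have hXz : (100 : ℤ) ≤ X := by exact_mod_cast hX100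
  -- bounds for the products
  have pm1 : 20 * (X : ℤ) ≤ X * m := by
    have : (20 : ℤ) ≤ m := by exact_mod_cast hm
    nlinarith
  have pm2 : (X : ℤ) * m ≤ 130 * X := by
    have : (m : ℤ) ≤ 130 := by exact_mod_cast hm'
    nlinarith
  have pi1 : 0 ≤ (X : ℤ) * i := by positivity
  have pi2 : (X : ℤ) * i ≤ 130 * X := by
    have : (i : ℤ) ≤ 130 := by exact_mod_cast hi
    nlinarith
  have pj1 : 0 ≤ (X : ℤ) * j := by positivity
  have pj2 : (X : ℤ) * j ≤ 130 * X := by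
    have : (j : ℤ) ≤ 130 := by exact_mod_cast hj
    nlinarith
  have ps1 : 20 * (X : ℤ) ≤ s1 * ((X : ℤ) * m - X * i) := by
    have e : s1 * ((X : ℤ) * m - X * i) = X * (s1 * ((m : ℤ) - i)) := by ring
    rw [e]
    nlinarith
  have ps2 : 20 * (X : ℤ) ≤ s2 * ((X : ℤ) * m - X * j) := by
    have e : s2 * ((X : ℤ) * m - X * j) = X * (s2 * ((m : ℤ) - j)) := by ring
    rw [e]
    nlinarith
  have hlo : ∀ r : Fin 5, 560 * (X : ℤ) ≤ lo5 s1 s2 X m i j y a d r ∧ lo5 s1 s2 X m i j y a d r ≤ 10000 * X := by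
    intro r
    unfold lo5
    fin_cases r
    · simp
      omega
    · simp
      rcases h1 with e | e <;> rw [e] at ps1 ⊢ <;> omega
    · simp
      omega
    · simp
      omega
    · simp
      rcases h2 with e | e <;> rw [e] at ps2 ⊢ <;> omega
  have hval : ∀ r : Fin 5, ∀ n : ℕ, n < X → ∀ t : Fin 2 → ℕ, (∀ q, t q < X) →
      lo5 s1 s2 X m i j y a d r ≤ (S5 s1 s2).val (b5 s1 s2 Y A D) n (iv t) r ∧
      (S5 s1 s2).val (b5 s1 s2 Y A D) n (iv t) r < lo5 s1 s2 X m i j y a d r + 60 * X := by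
    intro r n hn t ht
    obtain ⟨v0, v1, v2, v3, v4⟩ := S5_val s1 s2 Y A D n (iv t)
    have ht0 := ht 0
    have ht1 := ht 1
    have et0 : iv t 0 = (t 0 : ℤ) := rfl
    have et1 : iv t 1 = (t 1 : ℤ) := rfl
    rw [et0] at v0 v1
    rw [et1] at v3 v4
    fin_cases r
    · change lo5 s1 s2 X m i j y a d 0 ≤ (S5 s1 s2).val _ _ _ 0 ∧ (S5 s1 s2).val _ _ _ 0 < lo5 s1 s2 X m i j y a d 0 + _
      rw [v0]
      simp only [lo5, Matrix.cons_val_zero]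
      omega
    · change lo5 s1 s2 X m i j y a d 1 ≤ (S5 s1 s2).val _ _ _ 1 ∧ (S5 s1 s2).val _ _ _ 1 < lo5 s1 s2 X m i j y a d 1 + _
      rw [v1]
      simp only [lo5, Matrix.cons_val_one, Matrix.cons_val_zero]
      rcases h1 with e | e <;> rw [e] <;> omega
    · change lo5 s1 s2 X m i j y a d 2 ≤ (S5 s1 s2).val _ _ _ 2 ∧ (S5 s1 s2).val _ _ _ 2 < lo5 s1 s2 X m i j y a d 2 + _
      rw [v2]
      simp only [lo5, Matrix.cons_val]
      omega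
    · change lo5 s1 s2 X m i j y a d 3 ≤ (S5 s1 s2).val _ _ _ 3 ∧ (S5 s1 s2).val _ _ _ 3 < lo5 s1 s2 X m i j y a d 3 + _
      rw [v3]
      simp only [lo5, Matrix.cons_val]
      omega
    · change lo5 s1 s2 X m i j y a d 4 ≤ (S5 s1 s2).val _ _ _ 4 ∧ (S5 s1 s2).val _ _ _ 4 < lo5 s1 s2 X m i j y a d 4 + _
      rw [v4]
      simp only [lo5, Matrix.cons_val]
      rcases h2 with e | e <;> rw [e] <;> omega
  have hmain := hX X hX0 (fun r => (lo5 s1 s2 X m i j y a d r / 2).toNat) (by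
    intro r
    obtain ⟨q1, q2⟩ := hlo r
    constructor <;> omega) (b5 s1 s2 Y A D) X X le_rfl (by omega) (by omega) (by
    intro r n hn t ht
    have ht' : ∀ q, t q < X := fun q => mem_range.mp (Fintype.mem_piFinset.mp ht q)
    obtain ⟨q1, q2⟩ := hval r n (mem_range.mp hn) t ht'
    exact jj_of X _ _ hXz (hlo r).1 q1 q2)
  refine le_trans ?_ hmain
  rw [Nat.cast_le]
  apply Finset.card_le_card_of_injOn (fun t : ℕ × ℕ => (![t.1, t.2] : Fin 2 → ℕ))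
  · intro t ht
    rw [mem_coe, mem_filter, mem_product, mem_range, mem_range] at ht
    obtain ⟨⟨ht1, ht2⟩, hno⟩ := ht
    rw [mem_coe, mem_filter]
    refine ⟨?_, ?_, ?_⟩
    · unfold bx
      rw [Fintype.mem_piFinset]
      intro q
      fin_cases q
      · simpa using ht1
      · simpa using ht2
    · exact S5_adm s1 s2 h1 h2 ((X : ℤ) * m) (X * i) (X * j) y a d hG _
    · have hemp : ((range X).filter (fun n : ℕ => ∀ r, ((S5 s1 s2).val (b5 s1 s2 Y A D) n (iv ![t.1, t.2]) r).toNat.Prime)) = ∅ := by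
        rw [filter_eq_empty_iff]
        intro n hn hall
        apply hno
        refine ⟨n, mem_range.mp hn, ?_⟩
        have hn' := mem_range.mp hn
        obtain ⟨v0, v1, v2, v3, v4⟩ := S5_val s1 s2 Y A D n (iv ![t.1, t.2])
        have et0 : iv ![t.1, t.2] 0 = (t.1 : ℤ) := rfl
        have et1 : iv ![t.1, t.2] 1 = (t.2 : ℤ) := rfl
        rw [et0] at v0 v1
        rw [et1] at v3 v4
        have p0 := hall 0
        have p1 := hall 1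
        have p2 := hall 2
        have p3 := hall 3
        have p4 := hall 4
        rw [v0] at p0
        rw [v1] at p1
        rw [v2] at p2
        rw [v3] at p3
        rw [v4] at p4
        have em : ((X * m : ℕ) : ℤ) = (X : ℤ) * m := by push_cast; ring
        have ei : ((X * i : ℕ) : ℤ) = (X : ℤ) * i := by push_cast; ring
        have ej : ((X * j : ℕ) : ℤ) = (X : ℤ) * j := by push_cast; ring
        rw [← em] at hY pm1 pm2 ps1 ps2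
        rw [← ei] at hA pi1 pi2 ps1
        rw [← ej] at hD pj1 pj2 ps2
        have odd_of : ∀ p : ℕ, p.Prime → 3 ≤ p → Odd p := fun p hp h3 => hp.odd_of_ne_two (by omega)
        have q0 : (30 * (n : ℤ) + Y + (30 * (t.1 : ℤ) + A)).toNat = 30 * n + 30 * (X * m) + y + (30 * t.1 + 30 * (X * i) + a) := by
          omega
        have q1 : (s1 * (30 * (n : ℤ) + Y - (30 * (t.1 : ℤ) + A))).toNat =
            Nat.dist (30 * n + 30 * (X * m) + y) (30 * t.1 + 30 * (X * i) + a) := by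
          unfold Nat.dist
          rcases h1 with e | e <;> rw [e] at ps1 ⊢ <;> omega
        have q2 : (2 * (30 * (n : ℤ) + Y) - 3).toNat = 2 * (30 * n + 30 * (X * m) + y) - 3 := by
          omega
        have q3 : (30 * (n : ℤ) + Y - 3 + (30 * (t.2 : ℤ) + D)).toNat =
            30 * n + 30 * (X * m) + y - 3 + (30 * t.2 + 30 * (X * j) + d) := by
          omega
        have q4 : (s2 * (30 * (n : ℤ) + Y - 3 - (30 * (t.2 : ℤ) + D))).toNat =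
            Nat.dist (30 * n + 30 * (X * m) + y - 3) (30 * t.2 + 30 * (X * j) + d) := by
          unfold Nat.dist
          rcases h2 with e | e <;> rw [e] at ps2 ⊢ <;> omega
        have r1 : 3 ≤ Nat.dist (30 * n + 30 * (X * m) + y) (30 * t.1 + 30 * (X * i) + a) := by
          unfold Nat.dist
          rcases h1 with e | e <;> rw [e] at ps1 <;> omega
        have r4 : 3 ≤ Nat.dist (30 * n + 30 * (X * m) + y - 3) (30 * t.2 + 30 * (X * j) + d) := by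
          unfold Nat.dist
          rcases h2 with e | e <;> rw [e] at ps2 <;> omega
        rw [q0] at p0
        rw [q1] at p1
        rw [q2] at p2
        rw [q3] at p3
        rw [q4] at p4
        exact ⟨⟨p0, odd_of _ p0 (by omega), p1, odd_of _ p1 r1⟩, p2, ⟨p3, odd_of _ p3 (by omega), p4, odd_of _ p4 r4⟩⟩
      rw [hemp, card_empty, Nat.cast_zero]
      apply Real.rpow_pos_of_pos
      exact_mod_cast (by omega : 0 < X)
  · intro t _ t' _ h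
    have e0 := congrFun h 0
    have e1 := congrFun h 1
    simp at e0 e1
    exact Prod.ext e0 e1

end Pool.Agent.Lib.H18F
end

-- from Lib.H18F.FF
section

/-!
# H18F (MP_443e5f_co): typical distance three between vertices divisible by three

In halved coordinates: `a`, `d` divisible by `3`, of different parity, not both `±2` modulo `5`. Path `a, y, y - 3, d` with
`y + a, |y - a|, 2 y - 3, y - 3 + d, |y - 3 - d|` primes: five forms in three variables, theorem `CORE` of `H9U`.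
-/

open Finset

namespace Pool.Agent.Lib.H18F

open Pool.Agent.Lib.H96G (HL)
open Pool.Agent.Lib.GoldbachGraph (hadj hadj_comm)

open Classical in
theorem cell (hI : Pool.Agent.H9S.INV) : ∃ κ : ℝ, 0 < κ ∧ κ ≤ 1 ∧ ∃ X0 : ℕ, 1 ≤ X0 ∧ ∀ X : ℕ, X0 ≤ X → ∀ s1 s2 : ℤ, (s1 = 1 ∨ s1 = -1) → (s2 = 1 ∨ s2 = -1) →
    ∀ m i j y a d : ℕ, 20 ≤ m → m ≤ 130 → i ≤ 130 → j ≤ 130 →
    20 ≤ s1 * ((m : ℤ) - i) → 20 ≤ s2 * ((m : ℤ) - j) → y < 30 → a < 30 → d < 30 → Gd y a d →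
    (((range X ×ˢ range X).filter fun t => ¬ ∃ n < X, Pth (30 * n + 30 * (X * m) + y) (30 * t.1 + 30 * (X * i) + a)
      (30 * t.2 + 30 * (X * j) + d)).card : ℝ) ≤ (X : ℝ) ^ (2 - κ) := by
  obtain ⟨k1, hk1, x1, h1⟩ := cell_s hI 1 1 (Or.inl rfl) (Or.inl rfl)
  obtain ⟨k2, hk2, x2, h2⟩ := cell_s hI 1 (-1) (Or.inl rfl) (Or.inr rfl)
  obtain ⟨k3, hk3, x3, h3⟩ := cell_s hI (-1) 1 (Or.inr rfl) (Or.inl rfl)
  obtain ⟨k4, hk4, x4, h4⟩ := cell_s hI (-1) (-1) (Or.inr rfl) (Or.inr rfl)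
  refine ⟨min 1 (min (min k1 k2) (min k3 k4)), lt_min one_pos (lt_min (lt_min hk1 hk2) (lt_min hk3 hk4)), min_le_left _ _, max 1 (max (max x1 x2) (max x3 x4)),
    le_max_left _ _, ?_⟩
  intro X hX s1 s2 hs1 hs2 m i j y a d a1 a2 a3 a4 a5 a6 a7 a8 a9 a10
  have hX1 : 1 ≤ X := le_trans (le_max_left _ _) hX
  have hX' : max (max x1 x2) (max x3 x4) ≤ X := le_trans (le_max_right _ _) hX
  have e1 : x1 ≤ X := le_trans (le_trans (le_max_left _ _) (le_max_left _ _)) hX'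
  have e2 : x2 ≤ X := le_trans (le_trans (le_max_right _ _) (le_max_left _ _)) hX'
  have e3 : x3 ≤ X := le_trans (le_trans (le_max_left _ _) (le_max_right _ _)) hX'
  have e4 : x4 ≤ X := le_trans (le_trans (le_max_right _ _) (le_max_right _ _)) hX'
  have hXr : (1 : ℝ) ≤ X := by exact_mod_cast hX1
  have mono : ∀ k : ℝ, min (min k1 k2) (min k3 k4) ≤ k → (X : ℝ) ^ (2 - k) ≤ (X : ℝ) ^ (2 - min 1 (min (min k1 k2) (min k3 k4))) :=
    fun k hk => Real.rpow_le_rpow_of_exponent_le hXr (by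
      have := min_le_right 1 (min (min k1 k2) (min k3 k4))
      linarith)
  rcases hs1 with rfl | rfl <;> rcases hs2 with rfl | rfl
  · exact le_trans (h1 X e1 m i j y a d a1 a2 a3 a4 a5 a6 a7 a8 a9 a10) (mono k1 (le_trans (min_le_left _ _) (min_le_left _ _)))
  · exact le_trans (h2 X e2 m i j y a d a1 a2 a3 a4 a5 a6 a7 a8 a9 a10) (mono k2 (le_trans (min_le_left _ _) (min_le_right _ _)))
  · exact le_trans (h3 X e3 m i j y a d a1 a2 a3 a4 a5 a6 a7 a8 a9 a10) (mono k3 (le_trans (min_le_right _ _) (min_le_left _ _)))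
  · exact le_trans (h4 X e4 m i j y a d a1 a2 a3 a4 a5 a6 a7 a8 a9 a10) (mono k4 (le_trans (min_le_right _ _) (min_le_right _ _)))

/-- A path of length three. -/
theorem pth_edist (n y a d : ℕ) (h : Pth y a d) (hy : y ∈ Icc 4 n) (ha : a ∈ Icc 1 n) (hd : d ∈ Icc 1 n) :
    (HL 1 n).edist a d ≤ 3 := by
  rw [mem_Icc] at hy ha hd
  obtain ⟨h1, h2, h3⟩ := h
  have e1 : (HL 1 n).Adj a y := ⟨(hadj_comm _ _).mp h1, mem_Icc.mpr ⟨ha.1, ha.2⟩, mem_Icc.mpr ⟨by omega, hy.2⟩⟩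
  have e2 : (HL 1 n).Adj y (y - 3) := by
    refine ⟨⟨?_, ?_, ?_, ?_⟩, mem_Icc.mpr ⟨by omega, hy.2⟩, mem_Icc.mpr ⟨by omega, by omega⟩⟩
    · have : y + (y - 3) = 2 * y - 3 := by omega
      rw [this]
      exact h2
    · rw [Nat.odd_iff]
      omega
    · have : Nat.dist y (y - 3) = 3 := by
        unfold Nat.dist
        omega
      rw [this]
      norm_num
    · have : Nat.dist y (y - 3) = 3 := by
        unfold Nat.dist
        omega
      rw [this]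
      decide
  have e3 : (HL 1 n).Adj (y - 3) d := ⟨h3, mem_Icc.mpr ⟨by omega, by omega⟩, mem_Icc.mpr ⟨hd.1, hd.2⟩⟩
  have := SimpleGraph.edist_le (G := HL 1 n) (SimpleGraph.Walk.cons e1 (SimpleGraph.Walk.cons e2 (SimpleGraph.Walk.cons e3 SimpleGraph.Walk.nil)))
  simpa using this

open Classical in
/-- All but `n^(2-c)` pairs of vertices `a, d` divisible by `3`, of different parity and not both `±2` modulo `5` are at
distance at most `3`. -/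
theorem FF (hI : Pool.Agent.H9S.INV) : ∃ c : ℝ, 0 < c ∧ ∃ n0 : ℕ, ∀ n : ℕ, n0 ≤ n →
    (((Icc 1 n ×ˢ Icc 1 n).filter fun p => 3 ∣ p.1 ∧ 3 ∣ p.2 ∧ p.1 % 2 ≠ p.2 % 2 ∧
      ¬ ((p.1 % 5 = 2 ∨ p.1 % 5 = 3) ∧ (p.2 % 5 = 2 ∨ p.2 % 5 = 3)) ∧
      ¬ (HL 1 n).edist p.1 p.2 ≤ 3).card : ℝ) ≤ (n : ℝ) ^ (2 - c) := by
  obtain ⟨κ, hκ, hκ1, X0, hX01, hX⟩ := cell hI
  -- the constant absorbs the number of cells
  obtain ⟨n1, hn1⟩ : ∃ n1 : ℕ, ∀ n : ℕ, n1 ≤ n → (125 : ℝ) * 125 * 30 * 30 ≤ (n : ℝ) ^ (κ / 2) := by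
    have ht := (tendsto_rpow_atTop (by linarith : (0 : ℝ) < κ / 2)).comp (tendsto_natCast_atTop_atTop (R := ℝ))
    have he := ht.eventually_ge_atTop ((125 : ℝ) * 125 * 30 * 30)
    rw [Filter.eventually_atTop] at he
    exact he
  refine ⟨κ / 2, by linarith, max n1 (3600 * (X0 + 1200)), ?_⟩
  intro n hn
  have hn' : n1 ≤ n := le_trans (le_max_left _ _) hn
  have hn'' : 3600 * (X0 + 1200) ≤ n := le_trans (le_max_right _ _) hn
  obtain ⟨X, hXdef⟩ : ∃ X : ℕ, X = n / 3600 := ⟨_, rfl⟩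
  have hXX0 : X0 ≤ X := by omega
  have hX1200 : 1200 ≤ X := by omega
  have hXn : 3600 * X ≤ n := by omega
  have hnX : n < 3600 * X + 3600 := by omega
  set P : ℕ × ℕ → Prop := fun p => 3 ∣ p.1 ∧ 3 ∣ p.2 ∧ p.1 % 2 ≠ p.2 % 2 ∧
      ¬ ((p.1 % 5 = 2 ∨ p.1 % 5 = 3) ∧ (p.2 % 5 = 2 ∨ p.2 % 5 = 3)) ∧
      ¬ (HL 1 n).edist p.1 p.2 ≤ 3 with hP
  obtain ⟨I, hI'⟩ : ∃ I : Finset ((ℕ × ℕ) × (ℕ × ℕ)), I = (range 125 ×ˢ range 125) ×ˢ (range 30 ×ˢ range 30) := ⟨_, rfl⟩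
  set f : ((ℕ × ℕ) × (ℕ × ℕ)) → ℕ × ℕ → ℕ × ℕ := fun q t =>
    (30 * t.1 + 30 * (X * q.1.1) + q.2.1, 30 * t.2 + 30 * (X * q.1.2) + q.2.2) with hf
  set F : ((ℕ × ℕ) × (ℕ × ℕ)) → Finset (ℕ × ℕ) := fun q => (range X ×ˢ range X).filter fun t => f q t ∈ Icc 1 n ×ˢ Icc 1 n ∧ P (f q t) with hF
  have hcover : (Icc 1 n ×ˢ Icc 1 n).filter P ⊆ I.biUnion fun q => (F q).image (f q) := by
    intro p hp
    rw [mem_filter, mem_product, mem_Icc, mem_Icc] at hp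
    have a1 := hp.1.1.1
    have a2 := hp.1.1.2
    have a3 := hp.1.2.1
    have a4 := hp.1.2.2
    have hPp := hp.2
    have hXpos : 0 < X := by omega
    have key : ∀ u : ℕ, u ≤ n → ∃ i t r : ℕ, i < 125 ∧ t < X ∧ r < 30 ∧ u = 30 * t + 30 * (X * i) + r := by
      intro u hu
      refine ⟨u / 30 / X, u / 30 % X, u % 30, ?_, Nat.mod_lt _ hXpos, Nat.mod_lt _ (by norm_num), ?_⟩
      · rw [Nat.div_lt_iff_lt_mul hXpos]
        omega
      · have h1 := Nat.div_add_mod (u / 30) X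
        have h2 := Nat.div_add_mod u 30
        generalize X * (u / 30 / X) = w at *
        generalize u / 30 % X = w' at *
        omega
    obtain ⟨i, t, r, b1, b2, b3, b4⟩ := key p.1 a2
    obtain ⟨j, t', r', c1, c2, c3, c4⟩ := key p.2 a4
    rw [mem_biUnion]
    refine ⟨((i, j), (r, r')), ?_, ?_⟩
    · simp only [hI', mem_product, mem_range]
      exact ⟨⟨b1, c1⟩, b3, c3⟩
    · rw [mem_image]
      have e : f ((i, j), (r, r')) (t, t') = p := by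
        rw [hf]
        exact Prod.ext b4.symm c4.symm
      refine ⟨(t, t'), ?_, e⟩
      rw [hF]
      simp only [mem_filter, mem_product, mem_range]
      refine ⟨⟨b2, c2⟩, ?_, ?_⟩
      · rw [e]
        exact ⟨mem_Icc.mpr ⟨a1, a2⟩, mem_Icc.mpr ⟨a3, a4⟩⟩
      · rw [e]
        exact hPp
  have hcell : ∀ q ∈ I, ((F q).card : ℝ) ≤ (X : ℝ) ^ (2 - κ) := by
    rintro ⟨⟨i, j⟩, ⟨a, d⟩⟩ hq
    simp only [hI', mem_product, mem_range] at hq
    obtain ⟨⟨hi, hj⟩, ha, hd⟩ := hq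
    by_cases hcl : a % 3 = 0 ∧ d % 3 = 0 ∧ a % 2 ≠ d % 2 ∧ ¬ ((a % 5 = 2 ∨ a % 5 = 3) ∧ (d % 5 = 2 ∨ d % 5 = 3))
    · obtain ⟨c3, c4, c5, c6⟩ := hcl
      obtain ⟨y, hy, hG⟩ := Gd_ex a d c3 c4 c5 c6
      obtain ⟨m, hm1, hm2, hmi, hmj⟩ : ∃ m : ℕ, 20 ≤ m ∧ m ≤ 100 ∧ (i + 20 ≤ m ∨ m + 20 ≤ i) ∧ (j + 20 ≤ m ∨ m + 20 ≤ j) := by
        by_cases h1 : (i + 20 ≤ 20 ∨ 20 + 20 ≤ i) ∧ (j + 20 ≤ 20 ∨ 20 + 20 ≤ j)
        · exact ⟨20, by norm_num, by norm_num, h1.1, h1.2⟩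
        · by_cases h2 : (i + 20 ≤ 60 ∨ 60 + 20 ≤ i) ∧ (j + 20 ≤ 60 ∨ 60 + 20 ≤ j)
          · exact ⟨60, by norm_num, by norm_num, h2.1, h2.2⟩
          · exact ⟨100, by norm_num, by norm_num, by omega, by omega⟩
      obtain ⟨s1, hs1, hs1'⟩ : ∃ s1 : ℤ, (s1 = 1 ∨ s1 = -1) ∧ 20 ≤ s1 * ((m : ℤ) - i) := by
        rcases hmi with h | h
        · exact ⟨1, Or.inl rfl, by omega⟩
        · exact ⟨-1, Or.inr rfl, by omega⟩
      obtain ⟨s2, hs2, hs2'⟩ : ∃ s2 : ℤ, (s2 = 1 ∨ s2 = -1) ∧ 20 ≤ s2 * ((m : ℤ) - j) := by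
        rcases hmj with h | h
        · exact ⟨1, Or.inl rfl, by omega⟩
        · exact ⟨-1, Or.inr rfl, by omega⟩
      refine le_trans ?_ (hX X hXX0 s1 s2 hs1 hs2 m i j y a d hm1 (by omega) (by omega) (by omega) hs1' hs2' hy ha hd hG)
      rw [Nat.cast_le]
      apply card_le_card
      intro t ht
      rw [hF] at ht
      simp only [mem_filter, mem_product, mem_range] at ht ⊢
      refine ⟨ht.1, ?_⟩
      rintro ⟨w, hw, hpth⟩
      obtain ⟨⟨hf1, hf2⟩, hPt⟩ := ht.2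
      rw [hP] at hPt
      apply hPt.2.2.2.2
      have hXm : X * 20 ≤ X * m := Nat.mul_le_mul_left X hm1
      have hXm' : X * m ≤ X * 100 := Nat.mul_le_mul_left X hm2
      exact pth_edist n _ _ _ hpth (mem_Icc.mpr ⟨by omega, by omega⟩) hf1 hf2
    · have hemp : F ((i, j), (a, d)) = ∅ := by
        rw [hF]
        simp only
        rw [filter_eq_empty_iff]
        intro t _ hPt
        obtain ⟨_, h1, h2, h3, h4, h5⟩ := hPt
        rw [hf] at h1 h2 h3 h4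
        simp only at h1 h2 h3 h4
        apply hcl
        refine ⟨by omega, by omega, by omega, ?_⟩
        intro h
        apply h4
        omega
      rw [hemp, card_empty, Nat.cast_zero]
      positivity
  have hXle : (X : ℝ) ≤ n := by
    have : X ≤ n := by omega
    exact_mod_cast this
  have hnpos : (0 : ℝ) < n := by
    have : 0 < n := by omega
    exact_mod_cast this
  have hXpos : (0 : ℝ) < X := by
    have : 0 < X := by omega
    exact_mod_cast this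
  have hXr1 : (1 : ℝ) ≤ X := by
    have : 1 ≤ X := by omega
    exact_mod_cast this
  calc (((Icc 1 n ×ˢ Icc 1 n).filter P).card : ℝ)
      ≤ ((I.biUnion fun q => (F q).image (f q)).card : ℝ) := by exact_mod_cast card_le_card hcover
    _ ≤ ((∑ q ∈ I, ((F q).image (f q)).card : ℕ) : ℝ) := by exact_mod_cast card_biUnion_le
    _ = ∑ q ∈ I, (((F q).image (f q)).card : ℝ) := by push_cast; rfl
    _ ≤ ∑ q ∈ I, (X : ℝ) ^ (2 - κ) := by
        apply sum_le_sum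
        intro q hq
        refine le_trans ?_ (hcell q hq)
        exact_mod_cast card_image_le
    _ = (125 * 125 * 30 * 30) * (X : ℝ) ^ (2 - κ) := by
        have hIc : I.card = 125 * 125 * (30 * 30) := by
          simp only [hI', card_product, card_range]
        rw [sum_const, hIc, nsmul_eq_mul]
        push_cast
        ring
    _ ≤ (n : ℝ) ^ (κ / 2) * (n : ℝ) ^ (2 - κ) := by
        apply mul_le_mul (hn1 n hn') _ (by positivity) (by positivity)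
        exact Real.rpow_le_rpow hXpos.le hXle (by linarith)
    _ = (n : ℝ) ^ (2 - κ / 2) := by
        rw [← Real.rpow_add hnpos]
        congr 1
        ring

end Pool.Agent.Lib.H18F
end
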