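import Pool.Agent.Lib.H1M.RV3.D_Goldbach_Defs
import Pool.Agent.Lib.H1M.RV3.D_H96G_E2
import Pool.Agent.Lib.H1M.RV3.M001
import Pool.Agent.Lib.H1M.RV3.M003
import Pool.Agent.Lib.H1M.RV3.M013
import Pool.Agent.Lib.H1M.RV3.M032
import Pool.Agent.Lib.H1M.RV3.M039
import Pool.Agent.Lib.H1M.RV3.M043
import Pool.Agent.Lib.H1M.RV3.M045
import Pool.Agent.Lib.H1M.RV3.M058
import Pool.Agent.Lib.H1M.RV3.M086
import Pool.Agent.Lib.H1M.RV3.M092
import Pool.Agent.Lib.H1M.RV3.M097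
import Pool.Agent.Lib.H1M.RV3.M098
import Pool.Agent.Lib.H1M.RV3.M105
import Pool.Agent.Lib.H1M.RV3.M106

/-! Merged copies (to shorten the build) of Lib.H18C.Cluster, Lib.H59V.G6, Lib.H59V.G7, Lib.H59V.G8, Lib.H59V.X4, Lib.H59V.X5, Lib.H59V.X6, Lib.H59V.Asm. -/

-- from Lib.H18C.Cluster
section

/-!
# Chen edges and the cluster of a Goldbach graph

In both families of graphs one cluster `K` (pairwise distances at most `7`) has all but `n ^ (1 - b)`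
vertices within distance `1`, and every vertex is joined to it by many Chen edges.
-/

open Finset Pool.Agent.Lib.H18GB Pool.Agent.Lib.GoldbachGraph Pool.Agent.Goldbach

namespace Pool.Agent.Lib.H18C


theorem cl_ev (ε b : ℝ) (hε : 0 < ε) (hb : 0 < b) : ∃ n0 : ℕ, ∀ n : ℕ, n0 ≤ n →
    1 ≤ Real.log n ∧ (n : ℝ) ^ (1 - b) ≤ ε * n / (Real.log n) ^ 2 := by
  have hev : ∀ᶠ y : ℝ in Filter.atTop, (1 / ε + 1) * Real.log y + 0 ≤ y ^ (b / 2) ∧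
      Real.exp 1 ≤ y := by
    filter_upwards [fin_log (b / 2) (1 / ε + 1) 0 (by linarith),
      Filter.eventually_ge_atTop (Real.exp 1)] with y h1 h2
    exact ⟨h1, h2⟩
  obtain ⟨n0, hn0⟩ := Filter.eventually_atTop.1 (tendsto_natCast_atTop_atTop.eventually hev)
  refine ⟨n0, fun n hn => ?_⟩
  obtain ⟨h1, h2⟩ := hn0 n hn
  have hn : (0 : ℝ) < n := lt_of_lt_of_le (Real.exp_pos 1) h2
  have hlog : 1 ≤ Real.log n := by
    rw [← Real.log_exp 1]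
    exact Real.log_le_log (Real.exp_pos 1) h2
  refine ⟨hlog, ?_⟩
  rw [le_div_iff₀ (by positivity)]
  have h3 : (n : ℝ) ^ (1 - b) * ((n : ℝ) ^ (b / 2) * (n : ℝ) ^ (b / 2)) = n := by
    rw [← Real.rpow_add hn, ← Real.rpow_add hn]
    conv_rhs => rw [← Real.rpow_one (n : ℝ)]
    congr 1
    ring
  have h4 : 0 < (n : ℝ) ^ (1 - b) := Real.rpow_pos_of_pos hn _
  have h5 : 0 ≤ (n : ℝ) ^ (b / 2) := (Real.rpow_pos_of_pos hn _).le
  have h6 : Real.log n ≤ ε * (n : ℝ) ^ (b / 2) := by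
    have h7 : (1 / ε) * Real.log n ≤ (n : ℝ) ^ (b / 2) := by
      nlinarith
    calc Real.log n = ε * ((1 / ε) * Real.log n) := by field_simp
      _ ≤ ε * (n : ℝ) ^ (b / 2) := mul_le_mul_of_nonneg_left h7 hε.le
  have h7 : Real.log n ≤ (n : ℝ) ^ (b / 2) := by
    have h8 : 0 ≤ (1 / ε) * Real.log n := by positivity
    nlinarith
  have h8 : (Real.log n) ^ 2 ≤ ε * ((n : ℝ) ^ (b / 2) * (n : ℝ) ^ (b / 2)) := by
    calc (Real.log n) ^ 2 = Real.log n * Real.log n := sq _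
      _ ≤ (ε * (n : ℝ) ^ (b / 2)) * (n : ℝ) ^ (b / 2) :=
          mul_le_mul h6 h7 (by linarith) (by positivity)
      _ = ε * ((n : ℝ) ^ (b / 2) * (n : ℝ) ^ (b / 2)) := by ring
  calc (n : ℝ) ^ (1 - b) * (Real.log n) ^ 2
      ≤ (n : ℝ) ^ (1 - b) * (ε * ((n : ℝ) ^ (b / 2) * (n : ℝ) ^ (b / 2))) :=
        mul_le_mul_of_nonneg_left h8 h4.le
    _ = ε * ((n : ℝ) ^ (1 - b) * ((n : ℝ) ^ (b / 2) * (n : ℝ) ^ (b / 2))) := by ring
    _ = ε * n := by rw [h3]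

theorem Large.card_ge {ε : ℝ} (hε : 0 < ε) {n X : ℕ} {A : Finset ℕ} (h : Large ε n X A)
    (hlog : 1 ≤ Real.log n) : ε * n / (Real.log n) ^ 2 ≤ A.card := by
  have hl : 0 < Real.log n := by linarith
  rcases h.2 with ⟨_, _, h3⟩ | ⟨_, _, h3⟩
  · refine le_trans ?_ h3
    apply div_le_div_of_nonneg_right _ (by positivity)
    have := SH_ge_one X
    have h5 : ε * 1 ≤ ε * SH X := mul_le_mul_of_nonneg_left this hε.le
    have h6 : (0 : ℝ) ≤ n := Nat.cast_nonneg n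
    nlinarith
  · refine le_trans ?_ h3
    apply div_le_div_of_nonneg_left (by positivity) hl
    nlinarith

theorem Large.filter {ε : ℝ} (hε : 0 < ε) {n X : ℕ} {A : Finset ℕ} (h : Large ε n X A)
    (hlog : 1 ≤ Real.log n) {A' : Finset ℕ} (hA : A' ⊆ A)
    (hc : (A.card : ℝ) - ε / 2 * n / (Real.log n) ^ 2 ≤ A'.card) : Large (ε / 2) n X A' := by
  have hl : 0 < Real.log n := by linarith
  have hn : (0 : ℝ) ≤ n := Nat.cast_nonneg n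
  refine ⟨hA.trans h.1, ?_⟩
  rcases h.2 with ⟨h1, h2, h3⟩ | ⟨h1, h2, h3⟩
  · refine Or.inl ⟨h1, fun y hy => h2 y (hA hy), ?_⟩
    have h5 := SH_ge_one X
    have h6 : ε / 2 * n / (Real.log n) ^ 2 ≤ ε / 2 * SH X * n / (Real.log n) ^ 2 := by
      apply div_le_div_of_nonneg_right _ (by positivity)
      have h7 : ε / 2 * 1 ≤ ε / 2 * SH X := mul_le_mul_of_nonneg_left h5 (by positivity)
      nlinarith
    have h8 : ε * SH X * n / Real.log n ^ 2 = 2 * (ε / 2 * SH X * n / (Real.log n) ^ 2) := by ring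
    rw [h8] at h3
    linarith
  · refine Or.inr ⟨h1, fun y hy => h2 y (hA hy), ?_⟩
    have h6 : ε / 2 * n / (Real.log n) ^ 2 ≤ ε / 2 * n / Real.log n := by
      apply div_le_div_of_nonneg_left (by positivity) hl
      nlinarith
    have h8 : ε * n / Real.log n = 2 * (ε / 2 * n / Real.log n) := by ring
    rw [h8] at h3
    linarith



end Pool.Agent.Lib.H18C
end

-- from Lib.H59V.G6
section

/-!
# Project H59V, chunk G6 (S/M): hubs adjacent to a vertex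
-/

open Finset

namespace Pool.Agent.Lib.H59V

open Pool.Agent.Lib.GoldbachGraph (hadj hadj_comm)
open Pool.Agent.Lib.H96G
open Pool.Agent.Lib.H18C

/-- The type of rough neighbours. Proof. `u ≥ 1`: `RoughPair`: the primes `2` and `3` divide neither `u + y` nor `u - y`
(as integers), because they are `< n^(1/10)`; so `u + y` is odd, and `3` divides exactly one of `u`, `y` (residues modulo
`3`, `omega`). `u = 0`: `y > 3` is a prime, so it is odd and not divisible by `3`. -/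
theorem G6_type {ε : ℝ} {n u : ℕ} {A : Finset ℕ} (hA : Large ε n u A) (h10 : 3 < (n : ℝ) ^ (1 / 10 : ℝ))
    {y : ℕ} (hy : y ∈ A) (hy3 : 3 < y) : OT u y := by
  rcases hA.2 with ⟨h1, h2, -⟩ | ⟨h1, h2, -⟩
  · have h3 := h2 y hy
    have k2 : ¬ (2:ℤ) ∣ (u:ℤ) + y := fun hd => by
      have h4 := h3 2 Nat.prime_two (Or.inl (by exact_mod_cast hd))
      push_cast at h4
      linarith
    have k3 : ¬ (3:ℤ) ∣ (u:ℤ) + y := fun hd => by
      have h4 := h3 3 Nat.prime_three (Or.inl (by exact_mod_cast hd))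
      push_cast at h4
      linarith
    have k4 : ¬ (3:ℤ) ∣ (u:ℤ) - y := fun hd => by
      have h4 := h3 3 Nat.prime_three (Or.inr (by exact_mod_cast hd))
      push_cast at h4
      linarith
    have m1 : u % 3 = 0 ∨ u % 3 = 1 ∨ u % 3 = 2 := by omega
    have m2 : y % 3 = 0 ∨ y % 3 = 1 ∨ y % 3 = 2 := by omega
    refine ⟨by omega, ?_⟩
    rcases m1 with m1 | m1 | m1 <;> rcases m2 with m2 | m2 | m2 <;> constructor <;> intro h5 <;> omega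
  · have h3 := h2 y hy
    have k2 : ¬ 2 ∣ y := fun hd => by
      have := (Nat.prime_dvd_prime_iff_eq Nat.prime_two h3).1 hd
      omega
    have k3 : ¬ 3 ∣ y := fun hd => by
      have := (Nat.prime_dvd_prime_iff_eq Nat.prime_three h3).1 hd
      omega
    unfold OT
    omega

/-- **Chen neighbours among the hubs.** Proof. `T = A ∩ Γ`. `A ⊆ Icc 1 n`; the elements of `A` outside of `Γ` are `< 32 Z` or
in `Icc (32 Z) n \ Γ`: at most `64 n^(1-B) + n^(1-c/8)`. `Large.card_ge` of `H18C`: `A.card ≥ ε n/(log n)² ≥ n^(1-B/2)`.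
So `T.card ≥ n^(1-B/2) - 64 n^(1-B) - n^(1-c/8) ≥ n^(1-2B)` (`Nm.cst`, `c ≥ 100 B`). `G6_type` (`y ≥ 32 Z > 3`). -/
theorem G6_chen {ε : ℝ} (hε : 0 < ε) {n Z u : ℕ} {B b c : ℝ} (hN : Nm n b) (hbB : 100 * b ≤ B)
    (hBc : 100 * B ≤ c) (hc : c ≤ 1) (hZ : 1 ≤ Z) (hZ2 : (Z : ℝ) ≤ 2 * (n : ℝ) ^ (1 - B))
    (hlog : 1 ≤ Real.log n) (hbig : (n : ℝ) ^ (1 - B / 2) ≤ ε * n / (Real.log n) ^ 2)
    (h10 : 3 < (n : ℝ) ^ (1 / 10 : ℝ)) {Γ : Finset ℕ} (hΓ : Γ ⊆ Icc (32 * Z) n)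
    (hco : ((Icc (32 * Z) n \ Γ).card : ℝ) ≤ (n : ℝ) ^ (1 - c / 8)) {A : Finset ℕ}
    (hA : Large ε n u A) (hAy : ∀ y ∈ A, chA u y) :
    ∃ T : Finset ℕ, T ⊆ Γ ∧ (n : ℝ) ^ (1 - 2 * B) ≤ T.card ∧ ∀ h ∈ T, OT u h ∧ chA u h := by
  classical
  have hb := hN.b_pos
  refine ⟨A ∩ Γ, Finset.inter_subset_right, ?_, ?_⟩
  · have h1 : A \ Γ ⊆ Finset.range (32 * Z) ∪ (Icc (32 * Z) n \ Γ) := by
      intro y hy
      rw [Finset.mem_sdiff] at hy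
      have h2 := Finset.mem_Icc.1 (hA.1 hy.1)
      rw [Finset.mem_union, Finset.mem_range, Finset.mem_sdiff, Finset.mem_Icc]
      by_cases h3 : y < 32 * Z
      · exact Or.inl h3
      · exact Or.inr ⟨⟨by omega, h2.2⟩, hy.2⟩
    have h2 : (A \ Γ).card ≤ 32 * Z + (Icc (32 * Z) n \ Γ).card := by
      refine (Finset.card_le_card h1).trans ((Finset.card_union_le _ _).trans ?_)
      rw [Finset.card_range]
    have h3 : ((A \ Γ).card : ℝ) ≤ 32 * Z + ((Icc (32 * Z) n \ Γ).card : ℝ) := by exact_mod_cast h2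
    have h4 : (A \ Γ).card + (A ∩ Γ).card = A.card := Finset.card_sdiff_add_card_inter A Γ
    have h5 : ((A \ Γ).card : ℝ) + ((A ∩ Γ).card : ℝ) = A.card := by exact_mod_cast h4
    have h6 := hA.card_ge hε hlog
    have e1 : 256 * (n : ℝ) ^ (1 - B) ≤ (n : ℝ) ^ (1 - B / 2) := hN.cst (by norm_num) (by linarith)
    have e2 : 4 * (n : ℝ) ^ (1 - c / 8) ≤ (n : ℝ) ^ (1 - B / 2) := hN.cst (by norm_num) (by linarith)
    have e3 : 4 * (n : ℝ) ^ (1 - 2 * B) ≤ (n : ℝ) ^ (1 - B / 2) := hN.cst (by norm_num) (by linarith)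
    linarith
  · intro h hh
    rw [Finset.mem_inter] at hh
    have h1 := Finset.mem_Icc.1 (hΓ hh.2)
    exact ⟨G6_type hA h10 hh.1 (by omega), hAy h hh.1⟩

open Classical in
/-- **Neighbours among the hubs.** Proof. `T` = the `h ∈ nb (64 Z) u ∩ Γ` with `OT u h`. `nb (64 Z) u ⊆ Ico (64 Z) (128 Z) ⊆ Icc (32 Z) n`,
so at most `n^(1-c/8)` elements are lost by the intersection with `Γ`, and at most `3` by `OT` (`c0_exc` of `H96G`):
`T.card ≥ n^(1-B-4b) - n^(1-c/8) - 3 ≥ n^(1-2B)` (`Nm.cst`). -/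
theorem G6_near {n Z u : ℕ} {B b c : ℝ} (hN : Nm n b) (hbB : 100 * b ≤ B)
    (hBc : 100 * B ≤ c) (hc : c ≤ 1) (hZn : 256 * Z ≤ n) {Γ : Finset ℕ}
    (hco : ((Icc (32 * Z) n \ Γ).card : ℝ) ≤ (n : ℝ) ^ (1 - c / 8))
    (hu : (n : ℝ) ^ (1 - B - 4 * b) ≤ (nb (64 * Z) u).card) :
    ∃ T : Finset ℕ, T ⊆ Γ ∧ (n : ℝ) ^ (1 - 2 * B) ≤ T.card ∧ ∀ h ∈ T, OT u h ∧ hadj u h := by
  have hb := hN.b_pos
  refine ⟨(nb (64 * Z) u ∩ Γ).filter fun y => OT u y, (Finset.filter_subset _ _).trans Finset.inter_subset_right, ?_, ?_⟩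
  · have h1 : nb (64 * Z) u ⊆ ((nb (64 * Z) u ∩ Γ).filter fun y => OT u y) ∪
        ((Icc (32 * Z) n \ Γ) ∪ (Ico (64 * Z) (2 * (64 * Z))).filter fun y => hadj u y ∧ ¬ OT u y) := by
      intro y hy
      have hy2 := hy
      rw [nb, Finset.mem_filter, Finset.mem_Ico] at hy2
      rw [Finset.mem_union, Finset.mem_union, Finset.mem_filter, Finset.mem_filter, Finset.mem_inter, Finset.mem_sdiff,
        Finset.mem_Icc, Finset.mem_Ico]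
      by_cases h2 : y ∈ Γ
      · by_cases h3 : OT u y
        · exact Or.inl ⟨⟨hy, h2⟩, h3⟩
        · exact Or.inr (Or.inr ⟨hy2.1, hy2.2, h3⟩)
      · exact Or.inr (Or.inl ⟨⟨by omega, by omega⟩, h2⟩)
    have h2 : (nb (64 * Z) u).card ≤ ((nb (64 * Z) u ∩ Γ).filter fun y => OT u y).card +
        ((Icc (32 * Z) n \ Γ).card + 3) := by
      refine (Finset.card_le_card h1).trans ((Finset.card_union_le _ _).trans ?_)
      refine Nat.add_le_add_left ((Finset.card_union_le _ _).trans ?_) _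
      exact Nat.add_le_add_left (c0_exc u _) _
    have h3 : ((nb (64 * Z) u).card : ℝ) ≤ (((nb (64 * Z) u ∩ Γ).filter fun y => OT u y).card : ℝ) +
        (((Icc (32 * Z) n \ Γ).card : ℝ) + 3) := by exact_mod_cast h2
    have e1 : 12 * (n : ℝ) ^ (0 : ℝ) ≤ (n : ℝ) ^ (1 - B - 4 * b) := hN.cst (by norm_num) (by linarith)
    rw [Real.rpow_zero] at e1
    have e2 : 4 * (n : ℝ) ^ (1 - c / 8) ≤ (n : ℝ) ^ (1 - B - 4 * b) := hN.cst (by norm_num) (by linarith)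
    have e3 : 4 * (n : ℝ) ^ (1 - 2 * B) ≤ (n : ℝ) ^ (1 - B - 4 * b) := hN.cst (by norm_num) (by linarith)
    linarith
  · intro h hh
    rw [Finset.mem_filter, Finset.mem_inter, nb, Finset.mem_filter] at hh
    exact ⟨hh.2, hh.1.1.2⟩

end Pool.Agent.Lib.H59V
end

-- from Lib.H59V.G7
section

/-!
# Project H59V, chunk G7 (M): few Chen edges, halved coordinates
-/

open Finset

namespace Pool.Agent.Lib.H59V

open Pool.Agent.Lib.GoldbachGraph (hadj hadj_comm)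
open Pool.Agent.Lib.H96G
open Pool.Agent.Lib.H18C

/-- **Few Chen edges.** Proof. `G5_hubs`. For `u ∈ Icc lo n`: if `u ∈ Γ2` let `S u` be the set of `G6_near` (`g0_hadj`), else
the set of `G6_chen` (for the set `A` of `hC`). `Bd = Icc lo n \ Γ2`: it is contained in `range (256 Z)` and
`Icc (256 Z) n \ Γ2`, so it has at most `512 n^(1-B) + n^(1-c/8)` elements. `G4_add` with `s = n^(1-c/8)`,
`t = n^(1-B-4b)`, `τ = n^(1-2B)` and `r = ⌈n^(3B)⌉₊` (`n^(3B) ≤ r ≤ 2 n^(3B)`): `s + 3 < t`,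
`r s ≤ 2 n^(1-c/8+3B) ≤ n^(1-2B)/2`, `log (n+1) * 2 n ≤ 2 n log (8n) < n^(1+B) ≤ r τ` (`Nm.lg`, `Nm.cst`; `log (n+1) ≤
log (8n)`). So `E.card ≤ 512 n^(1-B) + n^(1-c/8) + 4 n^(6B) ≤ n^(1-B/3)` (`B ≤ 1/100`). -/
theorem G7_few {ε : ℝ} (hε : 0 < ε) {lo n M : ℕ} (hlo : lo ≤ 1) {L : ℕ → ℤ → ℝ} {c B b : ℝ}
    (hN : Nm n b) (h : GC n M L c B b) (hlog : 1 ≤ Real.log n)
    (hbig : (n : ℝ) ^ (1 - B / 2) ≤ ε * n / (Real.log n) ^ 2) (h10 : 3 < (n : ℝ) ^ (1 / 10 : ℝ))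
    (hC : ∀ u : ℕ, u ≤ n → ∃ A : Finset ℕ, Large ε n u A ∧ ∀ y ∈ A, chA u y) :
    ∃ E : Finset (ℕ × ℕ), (E.card : ℝ) ≤ (n : ℝ) ^ (1 - B / 3) ∧ ChE lo n E ∧
      ∀ u ∈ Icc lo n, ∀ v ∈ Icc lo n, (HE lo n E).edist u v ≤ 5 ∧
        (u % 2 = v % 2 → (HE lo n E).edist u v ≤ 4) := by
  classical
  obtain ⟨Z, Γ, Γ2, hZ1, hZ2, hZn, hHb, hco, hΓ2, hco2, hnb⟩ := G5_hubs hN h
  have hb0 := h.b_pos
  have hbB := h.hb
  have hBc := h.hB
  have hc1 := h.hc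
  have hB0 : 0 < B := by linarith
  have hn1 := hN.one_le
  -- the sets of hubs
  have hex : ∀ u : ℕ, ∃ T : Finset ℕ, u ∈ Icc lo n → T ⊆ Γ ∧ (n : ℝ) ^ (1 - 2 * B) ≤ T.card ∧
      (∀ h ∈ T, OT u h ∧ chA u h) ∧ (u ∈ Γ2 → ∀ h ∈ T, hadj u h) := by
    intro u
    by_cases hu : u ∈ Icc lo n
    · by_cases hu2 : u ∈ Γ2
      · obtain ⟨T, hT1, hT2, hT3⟩ := G6_near hN hbB hBc hc1 hZn hco (hnb u hu2)
        exact ⟨T, fun _ => ⟨hT1, hT2, fun h hh => ⟨(hT3 h hh).1, g0_hadj (hT3 h hh).2⟩, fun _ h hh => (hT3 h hh).2⟩⟩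
      · obtain ⟨A, hA, hAy⟩ := hC u (mem_Icc.1 hu).2
        obtain ⟨T, hT1, hT2, hT3⟩ := G6_chen hε hN hbB hBc hc1 hZ1 hZ2 hlog hbig h10 hHb.sub hco hA hAy
        exact ⟨T, fun _ => ⟨hT1, hT2, hT3, fun h1 => absurd h1 hu2⟩⟩
    · exact ⟨∅, fun h1 => absurd h1 hu⟩
  choose S hS using hex
  -- the numbers
  obtain ⟨s, hs⟩ : ∃ s : ℝ, s = (n : ℝ) ^ (1 - c / 8) := ⟨_, rfl⟩
  obtain ⟨r, hr⟩ : ∃ r : ℕ, r = ⌈(n : ℝ) ^ (3 * B)⌉₊ := ⟨_, rfl⟩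
  have hs0 : 0 ≤ s := by
    rw [hs]
    exact (hN.ppos _).le
  have hs1 : 1 ≤ s := by
    rw [hs]
    exact Real.one_le_rpow hn1 (by linarith)
  have hst : s + 3 < (n : ℝ) ^ (1 - B - 4 * b) := by
    have h1 : 5 * (n : ℝ) ^ (1 - c / 8) ≤ (n : ℝ) ^ (1 - B - 4 * b) := hN.cst (by norm_num) (by linarith)
    rw [← hs] at h1
    linarith
  have hr1 : (n : ℝ) ^ (3 * B) ≤ r := by
    rw [hr]
    exact Nat.le_ceil _
  have hr2 : (r : ℝ) ≤ 2 * (n : ℝ) ^ (3 * B) := by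
    have h1 : (r : ℝ) < (n : ℝ) ^ (3 * B) + 1 := by
      rw [hr]
      exact Nat.ceil_lt_add_one (hN.ppos _).le
    have h2 : 1 ≤ (n : ℝ) ^ (3 * B) := Real.one_le_rpow hn1 (by linarith)
    linarith
  have hrs : r * s ≤ (n : ℝ) ^ (1 - 2 * B) / 2 := by
    have h1 : r * s ≤ 2 * (n : ℝ) ^ (3 * B) * s := mul_le_mul_of_nonneg_right hr2 hs0
    have h2 : (n : ℝ) ^ (3 * B) * (n : ℝ) ^ (1 - c / 8) = (n : ℝ) ^ (3 * B + (1 - c / 8)) := hN.mul _ _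
    have h3 : 4 * (n : ℝ) ^ (3 * B + (1 - c / 8)) ≤ (n : ℝ) ^ (1 - 2 * B) := hN.cst (by norm_num) (by linarith)
    rw [← h2, ← hs] at h3
    linarith
  have hl : Real.log ((n : ℝ) + 1) * (2 * n) < r * (n : ℝ) ^ (1 - 2 * B) := by
    have h1 : Real.log ((n : ℝ) + 1) ≤ Real.log (8 * n) := Real.log_le_log (by linarith) (by linarith)
    have h2 := hN.lg (K := 3) (x := 1) (y := 1 + B) (j := 1) (by norm_num) (by norm_num) (by linarith)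
    rw [pow_one, Real.rpow_one] at h2
    have h3 : (n : ℝ) ^ (1 + B) ≤ r * (n : ℝ) ^ (1 - 2 * B) := by
      have h4 : (n : ℝ) ^ (1 + B) = (n : ℝ) ^ (3 * B) * (n : ℝ) ^ (1 - 2 * B) := by
        rw [hN.mul]
        congr 1
        ring
      rw [h4]
      exact mul_le_mul_of_nonneg_right hr1 (hN.ppos _).le
    have h4 : Real.log ((n : ℝ) + 1) * (2 * n) ≤ Real.log (8 * n) * (2 * n) :=
      mul_le_mul_of_nonneg_right h1 (by linarith)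
    have h5 : 0 < Real.log (8 * n) * n := mul_pos (by linarith [hN.ell]) hN.pos
    linarith
  obtain ⟨E, hE1, hE2, hE3⟩ := G4_add (n := n) (Z := Z) hlo hZ1 (s := s) (t := (n : ℝ) ^ (1 - B - 4 * b))
    (τ := (n : ℝ) ^ (1 - 2 * B)) (Γ := Γ) hs0 (by rw [hs]; exact hHb) hst S (hN.ppos _)
    (fun u hu => ⟨(hS u hu).1, (hS u hu).2.1, (hS u hu).2.2.1⟩) (Icc lo n \ Γ2) sdiff_subset
    (fun u hu hu2 => (hS u hu).2.2.2 (by
      by_contra h1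
      exact hu2 (mem_sdiff.2 ⟨hu, h1⟩))) (r := r) hrs hl
  refine ⟨E, ?_, hE2, hE3⟩
  have hBd : (((Icc lo n \ Γ2).card : ℕ) : ℝ) ≤ 256 * Z + s := by
    have h1 : Icc lo n \ Γ2 ⊆ range (256 * Z) ∪ (Icc (256 * Z) n \ Γ2) := by
      intro u hu
      rw [mem_sdiff, mem_Icc] at hu
      rw [mem_union, mem_range, mem_sdiff, mem_Icc]
      rcases lt_or_ge u (256 * Z) with h2 | h2
      · exact Or.inl h2
      · exact Or.inr ⟨⟨h2, hu.1.2⟩, hu.2⟩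
    have h2 := (card_le_card h1).trans (card_union_le _ _)
    rw [card_range] at h2
    have h3 : (((Icc lo n \ Γ2).card : ℕ) : ℝ) ≤ ((256 * Z + (Icc (256 * Z) n \ Γ2).card : ℕ) : ℝ) := by
      exact_mod_cast h2
    push_cast at h3
    rw [hs]
    linarith
  have hr3 : (r : ℝ) ^ 2 ≤ 4 * (n : ℝ) ^ (1 - B) := by
    have h1 : (r : ℝ) ^ 2 ≤ (2 * (n : ℝ) ^ (3 * B)) ^ 2 := pow_le_pow_left₀ (Nat.cast_nonneg _) hr2 2
    have h2 : (2 * (n : ℝ) ^ (3 * B)) ^ 2 = 4 * ((n : ℝ) ^ (3 * B) * (n : ℝ) ^ (3 * B)) := by ring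
    have h3 : (n : ℝ) ^ (3 * B) * (n : ℝ) ^ (3 * B) = (n : ℝ) ^ (3 * B + 3 * B) := hN.mul _ _
    have h4 : (n : ℝ) ^ (3 * B + 3 * B) ≤ (n : ℝ) ^ (1 - B) := hN.mono (by linarith)
    rw [h2, h3] at h1
    linarith
  have hs2 : s ≤ (n : ℝ) ^ (1 - B) := by
    rw [hs]
    exact hN.mono (by linarith)
  have hfin : 600 * (n : ℝ) ^ (1 - B) ≤ (n : ℝ) ^ (1 - B / 3) := hN.cst (by norm_num) (by linarith)
  have hp := hN.ppos (1 - B)
  linarith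

end Pool.Agent.Lib.H59V
end

-- from Lib.H59V.G8
section

/-!
# Project H59V, chunk G8 (M): transfer to the graphs on even numbers
-/

open Finset

namespace Pool.Agent.Lib.H59V

open Pool.Agent.Goldbach
open Pool.Agent.Lib.GoldbachGraph (hadj hadj_comm)
open Pool.Agent.Lib.H96G
open Pool.Agent.Lib.H18C

/-- Proof. See `hchen` in the proof of `fin_main` (`H18C/Fin.lean`). -/
theorem G8_chen {V : Set ℕ} {x y : ℕ} (hx : 2 * x ∈ V) (hy : 2 * y ∈ V) (h : chA x y) :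
    (chenGraph V).Adj ⟨2 * x, hx⟩ ⟨2 * y, hy⟩ := by
  obtain ⟨hne, h1⟩ := h
  refine ⟨fun h0 => hne ?_, ?_⟩
  · have := congrArg (fun v : V => (v : ℕ)) h0
    simp only at this
    omega
  · have e1 : (2 * x + 2 * y) / 2 = x + y := by omega
    have e2 : (((2 * x : ℕ) : ℤ) - ((2 * y : ℕ) : ℤ)).natAbs / 2 = Nat.dist x y := by
      unfold Nat.dist; omega
    simp only
    rw [e1, e2]
    exact h1

theorem g8_adj {V S : Set ℕ} {lo n : ℕ} (hV2 : ∀ x ∈ Finset.Icc lo n, 2 * x ∈ V)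
    (hS : ∀ m, m.Prime → Odd m → m < 2 * n → m ∈ S) {u v : ℕ} (h : (HL lo n).Adj u v)
    (h1 : u ∈ Finset.Icc lo n) (h2 : v ∈ Finset.Icc lo n) :
    (halfGraph V S).Adj ⟨2 * u, hV2 u h1⟩ ⟨2 * v, hV2 v h2⟩ := by
  have h' : hadj u v ∧ u ∈ Finset.Icc lo n ∧ v ∈ Finset.Icc lo n := h
  obtain ⟨hadj1, -, -⟩ := h'
  rw [halfGraph_adj_iff (x := u) (y := v) rfl rfl]
  obtain ⟨a1, a2, a3, a4⟩ := hadj1
  rw [Finset.mem_Icc] at h1 h2
  have hne : u ≠ v := by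
    rintro rfl
    rw [Nat.dist_self] at a3
    exact Nat.not_prime_zero a3
  have hd : ((u : ℤ) - v).natAbs = Nat.dist u v := by
    unfold Nat.dist
    omega
  obtain ⟨k, hk⟩ := a2
  refine ⟨hne, hS _ a1 ⟨k, hk⟩ (by omega), ?_⟩
  rw [hd]
  refine hS _ a3 a4 ?_
  unfold Nat.dist
  omega

open Classical in
/-- the edge of a pair -/
noncomputable def g8_f {V : Set ℕ} {lo n : ℕ} (hV2 : ∀ x ∈ Finset.Icc lo n, 2 * x ∈ V)
    {E : Finset (ℕ × ℕ)} (hE : ChE lo n E) (p : {p // p ∈ E}) : Sym2 V :=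
  s(⟨2 * p.1.1, hV2 _ (hE p.1 p.2).1⟩, ⟨2 * p.1.2, hV2 _ (hE p.1 p.2).2.1⟩)

theorem g8_walk {V S : Set ℕ} {lo n : ℕ} (hV2 : ∀ x ∈ Finset.Icc lo n, 2 * x ∈ V)
    (hS : ∀ m, m.Prime → Odd m → m < 2 * n → m ∈ S) {E : Finset (ℕ × ℕ)} (hE : ChE lo n E)
    {F : SimpleGraph V} (hF : ∀ (x y : ℕ) (hx : x ∈ Finset.Icc lo n) (hy : y ∈ Finset.Icc lo n),
      x ≠ y → (x, y) ∈ E → F.Adj ⟨2 * x, hV2 x hx⟩ ⟨2 * y, hV2 y hy⟩) {x y : ℕ}
    (p : (HE lo n E).Walk x y) :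
    ∀ (hx : x ∈ Finset.Icc lo n), ∃ hy : y ∈ Finset.Icc lo n,
    ∃ q : (halfGraph V S ⊔ F).Walk ⟨2 * x, hV2 x hx⟩ ⟨2 * y, hV2 y hy⟩, q.length = p.length := by
  induction p with
  | nil => exact fun hx => ⟨hx, .nil, rfl⟩
  | @cons u v w h p ih =>
    intro hx
    have hv : v ∈ Finset.Icc lo n ∧ ∀ hv : v ∈ Finset.Icc lo n,
        (halfGraph V S ⊔ F).Adj ⟨2 * u, hV2 u hx⟩ ⟨2 * v, hV2 v hv⟩ := by
      rcases h with h | h
      · have h' : hadj u v ∧ u ∈ Finset.Icc lo n ∧ v ∈ Finset.Icc lo n := h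
        exact ⟨h'.2.2, fun hv => (le_sup_left : halfGraph V S ≤ _) (g8_adj hV2 hS h hx hv)⟩
      · obtain ⟨hne, h1 | h1⟩ := (SimpleGraph.fromRel_adj _ _ _).mp h
        · exact ⟨(hE _ h1).2.1, fun hv => (le_sup_right : F ≤ _) (hF u v hx hv hne h1)⟩
        · exact ⟨(hE _ h1).1, fun hv =>
            (le_sup_right : F ≤ _) (hF v u hv hx (Ne.symm hne) h1).symm⟩
    obtain ⟨hy, q, hq⟩ := ih hv.1
    refine ⟨hy, .cons (hv.2 hv.1) q, ?_⟩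
    rw [SimpleGraph.Walk.length_cons, SimpleGraph.Walk.length_cons, hq]

/-- **Transfer.** Proof. `F = SimpleGraph.fromEdgeSet` of the set of the pairs `s(⟨2 x, _⟩, ⟨2 y, _⟩)`, `(x, y) ∈ E` (image of `E`
under a map to `Sym2 V`; as `2 x ∈ V` for `(x, y) ∈ E`, use `E.attach` or a `dite`): at most `E.card` edges
(`SimpleGraph.edgeSet_fromEdgeSet`, see the field `few` in `cluster_aux` of `H18C/Cluster.lean`), all of them Chen edges
(`G8_chen`, symmetric). A walk of `HE lo n E` between points of `Icc lo n` gives a walk of the same length in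
`halfGraph V S ⊔ F`: as `e2_walk` and `E2_edist` in `H96G/E2.lean`, an edge of `EG E` going to an edge of `F`
(`SimpleGraph.fromRel_adj`, `SimpleGraph.fromEdgeSet_adj`). -/
theorem G8_transfer {V S : Set ℕ} {lo n : ℕ} (hn : 1 ≤ n) (hV2 : ∀ x ∈ Finset.Icc lo n, 2 * x ∈ V)
    (hS : ∀ m, m.Prime → Odd m → m < 2 * n → m ∈ S) {E : Finset (ℕ × ℕ)} (hE : ChE lo n E) :
    ∃ F : SimpleGraph V, F ≤ chenGraph V ∧ F.edgeSet.ncard ≤ E.card ∧
      ∀ (x : ℕ) (hx : x ∈ Finset.Icc lo n) (y : ℕ) (hy : y ∈ Finset.Icc lo n) (k : ℕ),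
        (HE lo n E).edist x y ≤ k →
        (halfGraph V S ⊔ F).edist ⟨2 * x, hV2 x hx⟩ ⟨2 * y, hV2 y hy⟩ ≤ k := by
  classical
  set T : Finset (Sym2 V) := E.attach.image (g8_f hV2 hE) with hT
  refine ⟨SimpleGraph.fromEdgeSet (T : Set (Sym2 V)), ?_, ?_, ?_⟩
  · intro a b hab
    rw [SimpleGraph.fromEdgeSet_adj] at hab
    obtain ⟨h1, -⟩ := hab
    rw [Finset.mem_coe, hT, Finset.mem_image] at h1
    obtain ⟨p, -, hp⟩ := h1
    have h2 := (hE p.1 p.2).2.2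
    have h3 := G8_chen (hV2 _ (hE p.1 p.2).1) (hV2 _ (hE p.1 p.2).2.1) h2
    unfold g8_f at hp
    rw [Sym2.eq_iff] at hp
    rcases hp with ⟨ha, hb⟩ | ⟨ha, hb⟩
    · rw [← ha, ← hb]
      exact h3
    · rw [← ha, ← hb]
      exact h3.symm
  · rw [SimpleGraph.edgeSet_fromEdgeSet]
    calc ((T : Set (Sym2 V)) \ _).ncard ≤ (T : Set (Sym2 V)).ncard :=
          Set.ncard_le_ncard Set.diff_subset (Finset.finite_toSet T)
      _ = T.card := Set.ncard_coe_finset T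
      _ ≤ E.attach.card := Finset.card_image_le
      _ = E.card := Finset.card_attach
  · intro x hx y hy k h
    have hr : (HE lo n E).Reachable x y := by
      apply SimpleGraph.reachable_of_edist_ne_top
      intro h0
      rw [h0] at h
      exact absurd h (by simp)
    obtain ⟨p, hp⟩ := hr.exists_walk_length_eq_edist
    obtain ⟨hy', q, hq⟩ := g8_walk (S := S) hV2 hS hE
      (F := SimpleGraph.fromEdgeSet (T : Set (Sym2 V))) (by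
        intro u v hu hv hne huv
        rw [SimpleGraph.fromEdgeSet_adj]
        refine ⟨?_, ?_⟩
        · rw [Finset.mem_coe, hT, Finset.mem_image]
          exact ⟨⟨(u, v), huv⟩, Finset.mem_attach _ _, rfl⟩
        · intro h0
          have := congrArg (fun v : V => (v : ℕ)) h0
          simp only at this
          omega) p hx
    refine (SimpleGraph.edist_le q).trans ?_
    rw [hq, hp]
    exact h

end Pool.Agent.Lib.H59V
end

-- from Lib.H59V.X4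
section

/-!
# Project H59V, chunk X4 (M): the mixed correlations as sums MF
-/

open Finset

namespace Pool.Agent.Lib.H59V

open Pool.Agent.Lib.H68T Pool.Agent.Lib.H18Q Pool.Agent.Lib.H59P Pool.Agent.Lib.H24P
  Pool.Agent.Lib.H24Q

/-- Proof. `x = 3 s`, `x' = 3 s' + r`, `Z = 3 z`. `KC Q X' x' y = 0` unless `y ≡ r` modulo `3`; the `y ∈ [Z, 2Z)` with
`y % 3 = r` are the numbers `3 n + r`, `n ∈ [z, 2z)` (`Finset.sum_nbij'` with `y ↦ y / 3` after restriction to the filter). For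
`y = 3 n + r`: `x + y = 3s + 3n + r`, `x - y = 3s - 3n - r`, `x' + y = 3s' + 3n + 2r`, `(x' - y)/3 = s' - n`: the four
factors of `MF` (`Fin.prod_univ_four`, definitions of `KL`, `KC`, `LM`, `LF.map`). -/
theorem X4_MF (r : ℕ) (hr : r = 1 ∨ r = 2) (Q Z X X' s s' : ℕ) (hZ : 3 ∣ Z) :
    ∑ y ∈ Ico Z (2 * Z), KL Q X (3 * s) y * KC Q X' (3 * s' + r) y =
      MF (LM r) Q (Z / 3) ![X, X, X', X' / 3] ![s, s'] := by
  classical
  obtain ⟨z, rfl⟩ := hZ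
  have hz : 3 * z / 3 = z := by omega
  rw [hz]
  have hsub : (Ico z (2 * z)).image (fun n => 3 * n + r) ⊆ Ico (3 * z) (2 * (3 * z)) := by
    intro y hy
    obtain ⟨n, hn, rfl⟩ := mem_image.1 hy
    rw [mem_Ico] at hn ⊢
    rcases hr with rfl | rfl <;> constructor <;> omega
  rw [← Finset.sum_subset hsub, Finset.sum_image]
  · unfold MF
    refine Finset.sum_congr rfl fun n _ => ?_
    rw [Fin.prod_univ_four]
    have h3 : (3:ℤ) ∣ ((3 * s' + r : ℕ) : ℤ) - ((3 * n + r : ℕ) : ℤ) := ⟨(s' : ℤ) - n, by push_cast; ring⟩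
    have h4 : (((3 * s' + r : ℕ) : ℤ) - ((3 * n + r : ℕ) : ℤ)) / 3 = (s' : ℤ) - n := by
      rw [show ((3 * s' + r : ℕ) : ℤ) - ((3 * n + r : ℕ) : ℤ) = 3 * ((s' : ℤ) - n) by push_cast; ring]
      exact Int.mul_ediv_cancel_left _ (by norm_num)
    have m0 : (LM r).map ![s, s'] 0 n = ((3 * s : ℕ) : ℤ) + ((3 * n + r : ℕ) : ℤ) := by
      change (3:ℤ) * (s : ℤ) + 3 * n + (r : ℤ) = _
      push_cast; ring
    have m1 : (LM r).map ![s, s'] 1 n = ((3 * s : ℕ) : ℤ) - ((3 * n + r : ℕ) : ℤ) := by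
      change (3:ℤ) * (s : ℤ) + (-3) * n + (-(r : ℤ)) = _
      push_cast; ring
    have m2 : (LM r).map ![s, s'] 2 n = ((3 * s' + r : ℕ) : ℤ) + ((3 * n + r : ℕ) : ℤ) := by
      change (3:ℤ) * (s' : ℤ) + 3 * n + (2 * (r : ℤ)) = _
      push_cast; ring
    have m3 : (LM r).map ![s, s'] 3 n = (s' : ℤ) - n := by
      change (1:ℤ) * (s' : ℤ) + (-1) * n + 0 = _
      ring
    rw [m0, m1, m2, m3]
    unfold KL KC
    rw [if_pos h3, h4]
    change _ = Lk Q (X / Q ^ 2) _ * Lk Q (X / Q ^ 2) _ * Lk Q (X' / Q ^ 2) _ * Lk Q (X' / 3 / Q ^ 2) _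
    ring
  · intro a _ b _ hab
    have : 3 * a + r = 3 * b + r := hab
    omega
  · intro y hy hy'
    have h3 : ¬ (3:ℤ) ∣ ((3 * s' + r : ℕ) : ℤ) - (y : ℤ) := by
      rintro ⟨c, hc⟩
      apply hy'
      rw [mem_Ico] at hy
      rw [mem_image]
      refine ⟨y / 3, ?_, ?_⟩
      · rw [mem_Ico]
        rcases hr with rfl | rfl <;> constructor <;> omega
      · change 3 * (y / 3) + r = y
        rcases hr with rfl | rfl <;> omega
    unfold KC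
    rw [if_neg h3, mul_zero]

theorem x4_one (r : ℕ) (hr : r = 1 ∨ r = 2) (Q N : ℕ) (c b : ℝ) (h : LowV (LM r) Q N c b) (Z X X' : ℕ)
    (hZ : 3 * Q ^ 40 ∣ Z) (hX : 3 * Q ^ 40 ∣ X) (hX' : 3 * Q ^ 40 ∣ X') (h9 : 9 * N ≤ Z ^ 2) (hZX : 2 * Z ≤ X)
    (hZX' : 2 * Z ≤ X') (hXN : X ≤ N) (hXN' : X' ≤ N) :
    ∃ Bad : Finset (ℕ × ℕ), Bad ⊆ Ico (2 * X) (3 * X) ×ˢ Ico (2 * X') (3 * X') ∧
      (Bad.card : ℝ) ≤ X / 3 * (X' / 3) * (Q : ℝ) ^ (-c) ∧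
      ∀ x ∈ Ico (2 * X) (3 * X), ∀ x' ∈ Ico (2 * X') (3 * X'), (x, x') ∉ Bad → x % 2 = x' % 2 →
        3 ∣ x → x' % 3 = r →
        Z / 3 * (Q : ℝ) ^ (-b) ≤ ∑ y ∈ Ico Z (2 * Z), KL Q X x y * KC Q X' x' y := by
  classical
  have hG := X3_Gq (r : ℤ) (by rcases hr with rfl | rfl <;> simp) Q N Z X X' hZ hX hX' h9 hZX hZX' hXN hXN'
  obtain ⟨Bad, hB1, hB2, hB3⟩ := h _ _ _ hG
  have hZ3 : 3 ∣ Z := (Dvd.intro _ rfl).trans hZ
  obtain ⟨a, rfl⟩ : 3 ∣ X := (Dvd.intro _ rfl).trans hX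
  obtain ⟨a', rfl⟩ : 3 ∣ X' := (Dvd.intro _ rfl).trans hX'
  have ea : 3 * a / 3 = a := by omega
  have ea' : 3 * a' / 3 = a' := by omega
  rw [ea, ea'] at hB1 hB2 hB3
  have hmem : ∀ s s' : ℕ, ![s, s'] ∈ cub (fun j => 2 * ![a, a'] j) ![a, a'] ↔
      (2 * a ≤ s ∧ s < 2 * a + a) ∧ (2 * a' ≤ s' ∧ s' < 2 * a' + a') := by
    intro s s'
    unfold cub
    rw [Fintype.mem_piFinset, Fin.forall_fin_two, mem_Ico, mem_Ico]
    rfl
  have hform : ∀ ω : Fin 2 → ℕ, ω = ![ω 0, ω 1] := by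
    intro ω
    funext j
    fin_cases j <;> rfl
  refine ⟨Bad.image (fun ω => (3 * ω 0, 3 * ω 1 + r)), ?_, ?_, ?_⟩
  · intro p hp
    obtain ⟨ω, hω, rfl⟩ := mem_image.1 hp
    have h1 := hB1 hω
    rw [hform ω, hmem] at h1
    rw [mem_product, mem_Ico, mem_Ico]
    rcases hr with rfl | rfl
    · refine ⟨⟨?_, ?_⟩, ⟨?_, ?_⟩⟩ <;> dsimp only <;> omega
    · refine ⟨⟨?_, ?_⟩, ⟨?_, ?_⟩⟩ <;> dsimp only <;> omega
  · have h1 : ((Bad.image (fun ω => (3 * ω 0, 3 * ω 1 + r))).card : ℝ) ≤ Bad.card := by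
      exact_mod_cast card_image_le
    refine h1.trans (hB2.trans (le_of_eq ?_))
    have h2 : vol ![a, a'] = (a : ℝ) * a' := by
      unfold vol
      rw [Fin.prod_univ_two]
      rfl
    rw [h2]
    push_cast
    ring
  · intro x hx x' hx' hxB hpar h3 h3'
    obtain ⟨s, rfl⟩ := h3
    obtain ⟨s', rfl⟩ : ∃ s', x' = 3 * s' + r := ⟨x' / 3, by omega⟩
    rw [mem_Ico] at hx hx'
    have hω : ![s, s'] ∈ cub (fun j => 2 * ![a, a'] j) ![a, a'] := by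
      rw [hmem]
      rcases hr with rfl | rfl
      · refine ⟨⟨?_, ?_⟩, ⟨?_, ?_⟩⟩ <;> omega
      · refine ⟨⟨?_, ?_⟩, ⟨?_, ?_⟩⟩ <;> omega
    have hωB : ![s, s'] ∉ Bad := by
      intro hb
      apply hxB
      rw [mem_image]
      exact ⟨_, hb, rfl⟩
    have hNF : NoFix ((LM (r : ℤ)).map ![s, s']) := by
      refine X2_fix (r : ℤ) ?_ _ ?_
      · rcases hr with rfl | rfl <;> norm_num
      · change (2:ℤ) ∣ (s : ℤ) - (s' : ℤ) - (r : ℤ)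
        omega
    have h4 := hB3 _ hω hωB hNF
    have h5 := X4_MF r hr Q Z (3 * a) (3 * a') s s' hZ3
    rw [ea'] at h5
    rw [← h5] at h4
    have hZc : ((Z / 3 : ℕ) : ℝ) = (Z : ℝ) / 3 := by
      obtain ⟨z, rfl⟩ := hZ3
      rw [show 3 * z / 3 = z by omega]
      push_cast
      ring
    rw [hZc] at h4
    exact h4

/-- **MixLow.** Proof. For `r = 1, 2` let `Bad_r` be the exceptional set of `LowV (LM r)` for `Z/3`, `![X/3, X'/3]`,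
`![X, X, X', X'/3]` (`X3_Gq`). `Bad` = the union of the images of `Bad_1`, `Bad_2` under `ω ↦ (3 ω 0, 3 ω 1 + r)`: it is contained
in the product of the intervals, and has at most `2 (X/3)(X'/3) Q^(-c) ≤ X X' Q^(-c)` elements (`vol ![a, a'] = a a'`). For
`x = 3 s`, `x' = 3 s' + r` (`r = x' % 3`) of the same parity, `(x, x')` not in `Bad`: `![s, s']` is in the box `cub` and not in
`Bad_r`; `X2_fix`: `3 s ≡ 3 s' + r` modulo `2`; `X4_MF`. -/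
theorem X4_mix (Q N : ℕ) (c b : ℝ) (h1 : LowV (LM 1) Q N c b) (h2 : LowV (LM 2) Q N c b) : MixLow Q N c b := by
  classical
  intro Z X X' a1 a2 a3 a4 a5 a6 a7 a8
  obtain ⟨B1, p1, p2, p3⟩ := x4_one 1 (Or.inl rfl) Q N c b h1 Z X X' a1 a2 a3 a4 a5 a6 a7 a8
  obtain ⟨B2, q1, q2, q3⟩ := x4_one 2 (Or.inr rfl) Q N c b h2 Z X X' a1 a2 a3 a4 a5 a6 a7 a8
  refine ⟨B1 ∪ B2, union_subset p1 q1, ?_, ?_⟩
  · have h3 : ((B1 ∪ B2).card : ℝ) ≤ B1.card + B2.card := by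
      exact_mod_cast card_union_le _ _
    have h4 : (0:ℝ) ≤ X * X' * (Q : ℝ) ^ (-c) := by positivity
    have h5 : (X:ℝ) / 3 * (X' / 3) * (Q : ℝ) ^ (-c) = 1 / 9 * (X * X' * (Q : ℝ) ^ (-c)) := by ring
    rw [h5] at p2 q2
    linarith
  · intro x hx x' hx' hB hp h3 h3'
    rw [mem_union, not_or] at hB
    have h6 : x' % 3 = 1 ∨ x' % 3 = 2 := by omega
    rcases h6 with h6 | h6
    · exact p3 x hx x' hx' hB.1 hp h3 h6
    · exact q3 x hx x' hx' hB.2 hp h3 h6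

end Pool.Agent.Lib.H59V
end

-- from Lib.H59V.X5
section

/-!
# Project H59V, chunk X5 (S/M): the two cases for the mixed forms
-/

open Finset

namespace Pool.Agent.Lib.H59V

open Pool.Agent.Lib.H68T Pool.Agent.Lib.H18Q Pool.Agent.Lib.H59P Pool.Agent.Lib.H24P
  Pool.Agent.Lib.H24Q

/-- Proof. `D0_HF` (`H24Q/D0.lean`) with `B = 40`, `X1_FG`, `X2_fb`. -/
theorem X5_HF (ρ : ℤ) (hρ : ¬ (3:ℤ) ∣ ρ) : ∃ C : ℝ, 1 ≤ C ∧ HF C (1 / 36) 80 (LM ρ) := by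
  obtain ⟨C, hC, h⟩ := X1_FG ρ
  obtain ⟨C0, hC0, hfb⟩ := X2_fb ρ hρ
  exact ⟨max C C0, hC.trans (le_max_left _ _), D0_HF (LM ρ) C (1 / 36) C0 40 hC hC0 hfb h⟩

/-- Proof. `MD4_A` for `LM 1` and `LM 2` (`X5_HF`), `c1` the smaller one of the two constants, `K` the larger one; `LowV_mono`;
`X4_mix`. -/
theorem X5_A : ∃ c1 K : ℝ, 0 < c1 ∧ 1 ≤ K ∧ ∀ c6 ε : ℝ, 0 < c6 → 0 < ε → 4 * c6 + 2 * ε < c1 →
    ∃ Q0 : ℕ, ∀ Q N : ℕ, Q0 ≤ Q → K * Real.log Q ≤ Real.log N → LvA Q N (1 / 16) c6 →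
      MixLow Q N c1 (4 * c6 + 2 * ε) := by
  obtain ⟨Ca, hCa, hFa⟩ := X5_HF 1 (by norm_num)
  obtain ⟨Cb, hCb, hFb⟩ := X5_HF 2 (by norm_num)
  obtain ⟨c1, K1, hc1, hK1, h1⟩ := MD4_A 4 2 80 le_rfl (LM 1) Ca (1 / 36) hCa (by norm_num) hFa
  obtain ⟨c2, K2, hc2, hK2, h2⟩ := MD4_A 4 2 80 le_rfl (LM 2) Cb (1 / 36) hCb (by norm_num) hFb
  refine ⟨min c1 c2, max K1 K2, lt_min hc1 hc2, hK1.trans (le_max_left _ _), fun c6 ε hc6 hε hlt => ?_⟩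
  obtain ⟨Q1, hQ1⟩ := h1 c6 ε hc6 hε (lt_of_eq_of_lt (by norm_num) (lt_of_lt_of_le hlt (min_le_left _ _)))
  obtain ⟨Q2, hQ2⟩ := h2 c6 ε hc6 hε (lt_of_eq_of_lt (by norm_num) (lt_of_lt_of_le hlt (min_le_right _ _)))
  refine ⟨max (max Q1 Q2) 1, fun Q N hQ hK hLv => ?_⟩
  have q1 : Q1 ≤ Q := (le_max_left _ _).trans ((le_max_left _ _).trans hQ)
  have q2 : Q2 ≤ Q := (le_max_right _ _).trans ((le_max_left _ _).trans hQ)
  have q3 : 1 ≤ Q := (le_max_right _ _).trans hQ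
  have hl : 0 ≤ Real.log Q := Real.log_natCast_nonneg Q
  refine X4_mix Q N _ _ ?_ ?_
  · refine LowV_mono q3 (hQ1 Q N q1 ((mul_le_mul_of_nonneg_right (le_max_left _ _) hl).trans hK) hLv) (min_le_left _ _) ?_
    norm_num
  · refine LowV_mono q3 (hQ2 Q N q2 ((mul_le_mul_of_nonneg_right (le_max_right _ _) hl).trans hK) hLv) (min_le_right _ _) ?_
    norm_num

/-- Proof. `MD4_B` for `LM 1` and `LM 2`, likewise (`c = 1/36`; `min c1 (c c6/2)/2` is monotone in `c1`; `1 ≤ Q`). -/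
theorem X5_B : ∃ c1 K : ℝ, 0 < c1 ∧ 1 ≤ K ∧ ∀ c6 ε : ℝ, 0 < c6 → 0 < ε → 2 * ε < c1 →
    ∃ Q0 : ℕ, ∀ Q N : ℕ, Q0 ≤ Q → K * Real.log Q ≤ Real.log N → LvB Q N (1 / 16) c6 →
      MixLow Q N (min c1 (1 / 36 * c6 / 2) / 2) (2 * ε) := by
  obtain ⟨Ca, hCa, hFa⟩ := X5_HF 1 (by norm_num)
  obtain ⟨Cb, hCb, hFb⟩ := X5_HF 2 (by norm_num)
  obtain ⟨c1, K1, hc1, hK1, h1⟩ := MD4_B 4 2 80 le_rfl (LM 1) Ca (1 / 36) hCa (by norm_num) hFa
  obtain ⟨c2, K2, hc2, hK2, h2⟩ := MD4_B 4 2 80 le_rfl (LM 2) Cb (1 / 36) hCb (by norm_num) hFb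
  refine ⟨min c1 c2, max K1 K2, lt_min hc1 hc2, hK1.trans (le_max_left _ _), fun c6 ε hc6 hε hlt => ?_⟩
  obtain ⟨Q1, hQ1⟩ := h1 c6 ε hc6 hε (lt_of_lt_of_le hlt (min_le_left _ _))
  obtain ⟨Q2, hQ2⟩ := h2 c6 ε hc6 hε (lt_of_lt_of_le hlt (min_le_right _ _))
  refine ⟨max (max Q1 Q2) 1, fun Q N hQ hK hLv => ?_⟩
  have q1 : Q1 ≤ Q := (le_max_left _ _).trans ((le_max_left _ _).trans hQ)
  have q2 : Q2 ≤ Q := (le_max_right _ _).trans ((le_max_left _ _).trans hQ)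
  have q3 : 1 ≤ Q := (le_max_right _ _).trans hQ
  have hl : 0 ≤ Real.log Q := Real.log_natCast_nonneg Q
  refine X4_mix Q N _ _ ?_ ?_
  · refine LowV_mono q3 (hQ1 Q N q1 ((mul_le_mul_of_nonneg_right (le_max_left _ _) hl).trans hK) hLv) ?_ le_rfl
    exact div_le_div_of_nonneg_right (min_le_min_right _ (min_le_left _ _)) (by norm_num)
  · refine LowV_mono q3 (hQ2 Q N q2 ((mul_le_mul_of_nonneg_right (le_max_right _ _) hl).trans hK) hLv) ?_ le_rfl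
    exact div_le_div_of_nonneg_right (min_le_min_right _ (min_le_right _ _)) (by norm_num)

/-- Proof. Directly (`1 ≤ Q`). -/
theorem X5_mono {Q N : ℕ} (hQ : 1 ≤ Q) {c c' b b' : ℝ} (h : MixLow Q N c b) (hc : c' ≤ c) (hb : b ≤ b') :
    MixLow Q N c' b' := by
  intro Z X X' a1 a2 a3 a4 a5 a6 a7 a8
  obtain ⟨Bad, hB1, hB2, hB3⟩ := h Z X X' a1 a2 a3 a4 a5 a6 a7 a8
  have hQr : (1 : ℝ) ≤ Q := by exact_mod_cast hQ
  refine ⟨Bad, hB1, hB2.trans ?_, fun x hx x' hx' hB hp h3 h3' => le_trans ?_ (hB3 x hx x' hx' hB hp h3 h3')⟩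
  · exact mul_le_mul_of_nonneg_left (Real.rpow_le_rpow_of_exponent_le hQr (by linarith))
      (mul_nonneg (Nat.cast_nonneg _) (Nat.cast_nonneg _))
  · exact mul_le_mul_of_nonneg_left (Real.rpow_le_rpow_of_exponent_le hQr (by linarith))
      (by positivity)

end Pool.Agent.Lib.H59V
end

-- from Lib.H59V.X6
section

/-!
# Project H59V, chunk X6 (M): the main terms at one level
-/

open Finset

namespace Pool.Agent.Lib.H59V

open Pool.Agent.Lib.H68T Pool.Agent.Lib.H18Q Pool.Agent.Lib.H59P Pool.Agent.Lib.H24P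
  Pool.Agent.Lib.H24Q

/-- **D7 with the mixed forms.** Proof. Copy of `main_terms` (`H24Q/D7.lean`) with one more pair of hypotheses, `X5_A` and
`X5_B`, treated exactly as `A4` and `B4` there (constants `a4, k4`, `b4, l4`, `c = 1/36`): `K` is the maximum of all the
constants `k`, `l`, `c1` the minimum of `cb` and of all the constants `a`, `b`, `cs` the minimum of `c4, c2, c3, 1/36`; losses
`4 c6 + 2 ε`; `X5_mono` for `LowF_mono`. -/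
theorem X6_terms (C4 c4 C2 c2 : ℝ) (B : ℕ) (hC4 : 1 ≤ C4) (hc4 : 0 < c4) (hC2 : 1 ≤ C2)
    (hc2 : 0 < c2) (h4 : HF C4 c4 B L4) (h2 : HF C2 c2 B L2) (hA : Thm3A) (hB : Thm3B)
    (K0 : ℝ) (hK0 : 1 ≤ K0) : ∃ Cr : ℝ, 1 ≤ Cr ∧ ∀ ρ cb : ℝ, 0 < ρ → 0 < cb →
    ∃ c0 : ℝ, 0 < c0 ∧ ∃ N0 : ℕ, ∀ N : ℕ, N0 ≤ N → ∃ Q : ℕ, K0 * Real.log Q ≤ Real.log N ∧
      Real.log N ≤ Cr * Real.log Q ∧
      (∀ Y : ℕ, N ≤ Y ^ 2 → Y ≤ N ^ 2 → RegP K0 Q Y) ∧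
      ∃ c : ℝ, c0 ≤ c ∧ c ≤ cb ∧ MT Q N c (ρ * c) ∧ MixLow Q N c (ρ * c) := by
  obtain ⟨a1, k1, ha1, hk1, A4⟩ := D4_A 4 2 B (by norm_num) L4 C4 c4 hC4 hc4 h4
  obtain ⟨a2, k2, ha2, hk2, A2⟩ := D4_A 2 1 B (by norm_num) L2 C2 c2 hC2 hc2 h2
  obtain ⟨a3, k3, ha3, hk3, A3⟩ := hA
  obtain ⟨b1, l1, hb1, hl1, B4⟩ := D4_B 4 2 B (by norm_num) L4 C4 c4 hC4 hc4 h4
  obtain ⟨b2, l2, hb2, hl2, B2⟩ := D4_B 2 1 B (by norm_num) L2 C2 c2 hC2 hc2 h2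
  obtain ⟨b3, c3, l3, hb3, hc3, hl3, B3⟩ := hB
  obtain ⟨a4, k4, ha4, hk4, A5⟩ := X5_A
  obtain ⟨b4, l4, hb4, hl4, B5⟩ := X5_B
  obtain ⟨K', hKd⟩ : ∃ K : ℝ, K = max K0 (max (max k1 (max k2 k3)) (max l1 (max l2 l3))) := ⟨_, rfl⟩
  obtain ⟨K, hKd'⟩ : ∃ K : ℝ, K = max K' (max k4 l4) := ⟨_, rfl⟩
  have hKK : K' ≤ K := by rw [hKd']; exact le_max_left _ _
  have hk4K : k4 ≤ K := by rw [hKd']; exact le_max_of_le_right (le_max_left _ _)
  have hl4K : l4 ≤ K := by rw [hKd']; exact le_max_of_le_right (le_max_right _ _)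
  have hK1 : K0 ≤ K := by refine le_trans ?_ hKK; rw [hKd]; exact le_max_left _ _
  have hk1K : k1 ≤ K := by
    refine le_trans ?_ hKK
    rw [hKd]; exact le_max_of_le_right (le_max_of_le_left (le_max_left _ _))
  have hk2K : k2 ≤ K := by
    refine le_trans ?_ hKK
    rw [hKd]; exact le_max_of_le_right (le_max_of_le_left (le_max_of_le_right (le_max_left _ _)))
  have hk3K : k3 ≤ K := by
    refine le_trans ?_ hKK
    rw [hKd]; exact le_max_of_le_right (le_max_of_le_left (le_max_of_le_right (le_max_right _ _)))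
  have hl1K : l1 ≤ K := by
    refine le_trans ?_ hKK
    rw [hKd]; exact le_max_of_le_right (le_max_of_le_right (le_max_left _ _))
  have hl2K : l2 ≤ K := by
    refine le_trans ?_ hKK
    rw [hKd]; exact le_max_of_le_right (le_max_of_le_right (le_max_of_le_right (le_max_left _ _)))
  have hl3K : l3 ≤ K := by
    refine le_trans ?_ hKK
    rw [hKd]; exact le_max_of_le_right (le_max_of_le_right (le_max_of_le_right (le_max_right _ _)))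
  have hK : 1 ≤ K := hK0.trans hK1
  obtain ⟨Cr, hCr, X0, hlev⟩ := L_levels 1 (1 / 16) K (by norm_num) hK
  refine ⟨Cr, hCr, fun ρ cb hρ hcb => ?_⟩
  -- the parameters
  obtain ⟨ρ1, hρ1⟩ : ∃ ρ1 : ℝ, ρ1 = min ρ 1 := ⟨_, rfl⟩
  have hρ10 : 0 < ρ1 := by rw [hρ1]; exact lt_min hρ one_pos
  have hρ1ρ : ρ1 ≤ ρ := by rw [hρ1]; exact min_le_left _ _
  have hρ11 : ρ1 ≤ 1 := by rw [hρ1]; exact min_le_right _ _
  obtain ⟨c1', hc1', hc1cb', hca1', hca2', hca3', hcb1', hcb2', hcb3'⟩ : ∃ c1 : ℝ, 0 < c1 ∧ c1 ≤ cb ∧ c1 ≤ a1 ∧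
      c1 ≤ a2 ∧ c1 ≤ a3 ∧ c1 ≤ b1 ∧ c1 ≤ b2 ∧ c1 ≤ b3 :=
    ⟨min cb (min (min a1 (min a2 a3)) (min b1 (min b2 b3))),
      lt_min hcb (lt_min (lt_min ha1 (lt_min ha2 ha3)) (lt_min hb1 (lt_min hb2 hb3))),
      min_le_left _ _,
      (min_le_right _ _).trans ((min_le_left _ _).trans (min_le_left _ _)),
      (min_le_right _ _).trans ((min_le_left _ _).trans ((min_le_right _ _).trans (min_le_left _ _))),
      (min_le_right _ _).trans ((min_le_left _ _).trans ((min_le_right _ _).trans (min_le_right _ _))),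
      (min_le_right _ _).trans ((min_le_right _ _).trans (min_le_left _ _)),
      (min_le_right _ _).trans ((min_le_right _ _).trans ((min_le_right _ _).trans (min_le_left _ _))),
      (min_le_right _ _).trans ((min_le_right _ _).trans ((min_le_right _ _).trans (min_le_right _ _)))⟩
  obtain ⟨c1, hc1, hc1c, hca4, hcb4⟩ : ∃ c1 : ℝ, 0 < c1 ∧ c1 ≤ c1' ∧ c1 ≤ a4 ∧ c1 ≤ b4 :=
    ⟨min c1' (min a4 b4), lt_min hc1' (lt_min ha4 hb4), min_le_left _ _,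
      (min_le_right _ _).trans (min_le_left _ _), (min_le_right _ _).trans (min_le_right _ _)⟩
  have hc1cb := hc1c.trans hc1cb'
  have hca1 := hc1c.trans hca1'
  have hca2 := hc1c.trans hca2'
  have hca3 := hc1c.trans hca3'
  have hcb1 := hc1c.trans hcb1'
  have hcb2 := hc1c.trans hcb2'
  have hcb3 := hc1c.trans hcb3'
  obtain ⟨cs', hcs', hcs4', hcs2', hcs3'⟩ : ∃ cs : ℝ, 0 < cs ∧ cs ≤ c4 ∧ cs ≤ c2 ∧ cs ≤ c3 :=
    ⟨min c4 (min c2 c3), lt_min hc4 (lt_min hc2 hc3), min_le_left _ _,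
      (min_le_right _ _).trans (min_le_left _ _), (min_le_right _ _).trans (min_le_right _ _)⟩
  obtain ⟨cs, hcs, hcsc, hcs5⟩ : ∃ cs : ℝ, 0 < cs ∧ cs ≤ cs' ∧ cs ≤ 1 / 36 :=
    ⟨min cs' (1 / 36), lt_min hcs' (by norm_num), min_le_left _ _, min_le_right _ _⟩
  have hcs4 := hcsc.trans hcs4'
  have hcs2 := hcsc.trans hcs2'
  have hcs3 := hcsc.trans hcs3'
  obtain ⟨c6, hc6⟩ : ∃ c6 : ℝ, c6 = ρ1 * c1 / 16 := ⟨_, rfl⟩
  have hc60 : 0 < c6 := by rw [hc6]; positivity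
  have hρc : ρ1 * c1 ≤ c1 := by nlinarith
  have hρc0 : 0 < ρ1 * c1 := by positivity
  have hρc2 : ρ1 * c1 ≤ ρ * c1 := mul_le_mul_of_nonneg_right hρ1ρ hc1.le
  obtain ⟨cB, hcB⟩ : ∃ cB : ℝ, cB = min c1 (cs * c6 / 2) / 2 := ⟨_, rfl⟩
  have hcB0 : 0 < cB := by
    rw [hcB]
    have : 0 < min c1 (cs * c6 / 2) := lt_min hc1 (by positivity)
    linarith
  have hcB1 : 2 * cB ≤ c1 := by
    rw [hcB]
    linarith [min_le_left c1 (cs * c6 / 2)]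
  obtain ⟨ε, hε⟩ : ∃ ε : ℝ, ε = ρ1 * cB / 4 := ⟨_, rfl⟩
  have hε0 : 0 < ε := by rw [hε]; positivity
  have hρB : ρ1 * cB ≤ cB := by nlinarith
  have hρB2 : ρ1 * cB ≤ ρ * cB := mul_le_mul_of_nonneg_right hρ1ρ hcB0.le
  obtain ⟨Q1, A4⟩ := A4 c6 (c6 / 8) hc60 (by positivity) (by push_cast; linarith)
  obtain ⟨Q2, A2⟩ := A2 c6 (c6 / 8) hc60 (by positivity) (by push_cast; linarith)
  obtain ⟨Q3, A3⟩ := A3 c6 (c6 / 8) hc60 (by positivity) (by linarith) Cr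
  obtain ⟨Q4, B4⟩ := B4 c6 ε hc60 hε0 (by linarith)
  obtain ⟨Q5, B2⟩ := B2 c6 ε hc60 hε0 (by linarith)
  obtain ⟨Q6, B3⟩ := B3 c6 ε hc60 hε0 (by linarith) Cr
  obtain ⟨Q7, A5⟩ := A5 c6 (c6 / 8) hc60 (by positivity) (by linarith)
  obtain ⟨Q8, B5⟩ := B5 c6 ε hc60 hε0 (by linarith)
  obtain ⟨Qm, hQm2, hq1, hq2, hq3, hq4, hq5, hq6, hq7, hq8⟩ : ∃ Qm : ℕ, 2 ≤ Qm ∧ Q1 ≤ Qm ∧ Q2 ≤ Qm ∧ Q3 ≤ Qm ∧
      Q4 ≤ Qm ∧ Q5 ≤ Qm ∧ Q6 ≤ Qm ∧ Q7 ≤ Qm ∧ Q8 ≤ Qm := ⟨2 + Q1 + Q2 + Q3 + Q4 + Q5 + Q6 + Q7 + Q8, by omega, by omega,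
        by omega, by omega, by omega, by omega, by omega, by omega, by omega⟩
  refine ⟨cB, hcB0, max X0 ⌈Real.exp (Cr * Real.log Qm)⌉₊, fun N hN => ?_⟩
  obtain ⟨Q, hKQ, hCQ, hReg, hL⟩ := hlev N ((le_max_left _ _).trans hN)
  have hlQ0 : 0 ≤ Real.log Q := Real.log_natCast_nonneg Q
  have hQQ : Qm ≤ Q := by
    have h1 : Real.exp (Cr * Real.log Qm) ≤ N :=
      (Nat.le_ceil _).trans (by exact_mod_cast (le_max_right _ _).trans hN)
    have hN0 : (0 : ℝ) < N := lt_of_lt_of_le (Real.exp_pos _) h1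
    have h2 : Cr * Real.log Qm ≤ Real.log N := (Real.le_log_iff_exp_le hN0).2 h1
    have h3 : Real.log Qm ≤ Real.log Q := by
      have h4 : Cr * Real.log Qm ≤ Cr * Real.log Q := h2.trans hCQ
      exact le_of_mul_le_mul_left h4 (by linarith)
    have h5 : 0 < Real.log Qm := Real.log_pos (by exact_mod_cast (show 1 < Qm by omega))
    have hQ0 : 0 < Q := by
      rcases Nat.eq_zero_or_pos Q with h | h
      · rw [h, Nat.cast_zero, Real.log_zero] at h3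
        linarith
      · exact h
    have h6 : (Qm : ℝ) ≤ Q := (Real.log_le_log_iff (by exact_mod_cast (show 0 < Qm by omega))
      (by exact_mod_cast hQ0)).1 h3
    exact_mod_cast h6
  have hQ1 : 1 ≤ Q := by omega
  have hk : ∀ k : ℝ, k ≤ K → k * Real.log Q ≤ Real.log N := fun k hk =>
    (mul_le_mul_of_nonneg_right hk hlQ0).trans hKQ
  have hK00 : (0 : ℝ) ≤ K := by linarith
  refine ⟨Q, hk K0 hK1, hCQ, fun Y h1 h2 => ?_, ?_⟩
  · obtain ⟨e1, e2⟩ := hReg Y h1 h2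
    exact e1.mono hK00 hK1
  · have hAB : LvA Q N (1 / 16) c6 ∨ LvB Q N (1 / 16) c6 := by
      rcases hL with hg | ⟨r, hr, ψ, β, η, e1, e2, e3, e4, e5, e6, e7, hM⟩
      · exact Or.inl (Or.inl hg)
      · rcases le_or_gt (r : ℝ) ((Q : ℝ) ^ c6) with h | h
        · exact Or.inl (Or.inr ⟨r, hr, ψ, β, η, h, e1, e2, e3, e4, e5, e6, e7, hM⟩)
        · exact Or.inr ⟨r, hr, ψ, β, η, h, e1, e2, e3, e4, e5, e6, e7, hM⟩
    rcases hAB with hLA | hLB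
    · refine ⟨c1, by linarith, hc1cb, D6_MT Q N c1 (ρ * c1) ?_ ?_ ?_,
        X5_mono hQ1 (A5 Q N (by omega) (hk k4 hk4K) hLA) hca4 (by linarith)⟩
      · refine LowF_mono hQ1 (A4 Q N (by omega) (hk k1 hk1K) hLA) hca1 ?_
        push_cast
        linarith
      · refine Low3_mono hQ1 (A3 Q N (by omega) (hk k3 hk3K) hCQ hLA) hca3 ?_
        linarith
      · refine LowF_mono hQ1 (A2 Q N (by omega) (hk k2 hk2K) hLA) hca2 ?_
        push_cast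
        linarith
    · have hmin : ∀ b c : ℝ, c1 ≤ b → cs ≤ c → cB ≤ min b (c * c6 / 2) / 2 := by
        intro b c hb hc
        rw [hcB]
        have h1 : cs * c6 / 2 ≤ c * c6 / 2 := by
          have := mul_le_mul_of_nonneg_right hc hc60.le
          linarith
        have h2 := min_le_min hb h1
        linarith
      refine ⟨cB, le_rfl, by linarith, D6_MT Q N cB (ρ * cB) ?_ ?_ ?_,
        X5_mono hQ1 (B5 Q N (by omega) (hk l4 hl4K) hLB) (hmin b4 (1 / 36) hcb4 hcs5) (by linarith)⟩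
      · exact LowF_mono hQ1 (B4 Q N (by omega) (hk l1 hl1K) hLB) (hmin b1 c4 hcb1 hcs4) (by linarith)
      · exact Low3_mono hQ1 (B3 Q N (by omega) (hk l3 hl3K) hCQ hLB) (hmin b3 c3 hcb3 hcs3) (by linarith)
      · exact LowF_mono hQ1 (B2 Q N (by omega) (hk l2 hl2K) hLB) (hmin b2 c2 hcb2 hcs2) (by linarith)

/-- **The main terms.** Proof. As `module_F` and `F_all` (`H24Q/M8.lean`, `H24Q/M9.lean`), with `X6_terms`. -/
theorem X6_all (K0 : ℝ) (hK0 : 1 ≤ K0) : ∃ Cr : ℝ, 1 ≤ Cr ∧ ∀ ρ cb : ℝ, 0 < ρ → 0 < cb →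
    ∃ c0 : ℝ, 0 < c0 ∧ ∃ N0 : ℕ, ∀ N : ℕ, N0 ≤ N → ∃ Q : ℕ, K0 * Real.log Q ≤ Real.log N ∧
      Real.log N ≤ Cr * Real.log Q ∧
      (∀ Y : ℕ, N ≤ Y ^ 2 → Y ≤ N ^ 2 → RegP K0 Q Y) ∧
      ∃ c : ℝ, c0 ≤ c ∧ c ≤ cb ∧ MT Q N c (ρ * c) ∧ MixLow Q N c (ρ * c) := by
  obtain ⟨C4, hC4, hFG⟩ := H59T.F6_FG
  obtain ⟨C2, hC2, hFW⟩ := H59T.F6_FW
  obtain ⟨Ca, hCa, hfb4⟩ := D0_fb4
  obtain ⟨Cb, hCb, hfb2⟩ := D0_fb2
  obtain ⟨Cc, hCc, hfw2⟩ := D0_fw2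
  have h4 := D0_HF L4 C4 (1 / 36) Ca 40 hC4 hCa hfb4 hFG
  have h2 := D0_HF L2 C2 (1 / 72) Cb 40 hC2 hCb hfb2 (fun Q hQ b s hs => M8_FG (hFW Q hQ b s hs))
  have h3 := D0_HW L2 B23 C2 (1 / 72) Cc 40 hC2 hCc hfw2 hFW
  exact X6_terms (max C4 Ca) (1 / 36) (max C2 Cb) (1 / 72) (2 * 40) (le_max_of_le_left hC4) (by norm_num)
    (le_max_of_le_left hC2) (by norm_num) h4 h2
    (M7_A (2 * 40) (max C2 Cc) (1 / 72) (le_max_of_le_left hC2) (by norm_num) h3)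
    (M7_B (2 * 40) (max C2 Cc) (1 / 72) (le_max_of_le_left hC2) (by norm_num) h3) K0 hK0

end Pool.Agent.Lib.H59V
end

-- from Lib.H59V.Asm
section

/-!
# Project H59V, chunk Asm (M): the input at all large sizes
-/

open Finset

namespace Pool.Agent.Lib.H59V

open Pool.Agent.Lib.H68T (lp Lk)
open Pool.Agent.Lib.H18Q (RegP)
open Pool.Agent.Lib.H96G
open Pool.Agent.Lib.H24Q (KL MT)

/-- **The input.** Proof. As `gin` (`H37T/G0.lean`), with `K0 = max (max K1 K2) (max K3 1700)` (`K3` from `O3_main invS`), `X6_all` for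
`F_all`, `cop` the smaller one of the two constants of `hOP` and of `O3_main`, and `M = 3 * Q^800`, `L X = Lk Q (X / Q ^ 2)`,
`B = c/100`, `b = c/10000`; but `ρ = 1/20000` in `X6_all`, so that `Z Q^(-ρ cF)/3 ≥ Z n^(-c/20000)/3 ≥ Z n^(-c/10000)` for `n`
large (`n^(c/20000) ≥ n^(c00) ≥ 3` with a constant `c00 > 0` depending only on `cF0`, `Cr`), and also
`Z Q^(-ρ cF) ≥ Z n^(-c/10000)` in the fields `m4`, `m3`. The fields of `GIn` as there (`Sc n (3 * Q^800) B X Z` implies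
`Sc n (Q^800) B X Z`; `M3`; `3 Q^800 ≤ Q^801 ≤ n^(1/2)` because `3 ≤ Q` for `n` large and `K0 ≥ 1700`). `bd3`: `BDL_bd` for `X/3`
(`n ≤ (X/3)²`: `X/3 ≥ 2 n^(1-B)/3 ≥ n^(1/2)` for `n` large, so `RegP K0 Q (X/3)`). `opC`: `O3_main`. `m4C`: `MixLow` (`9 n ≤ Z²`
for `n` large; `3 Q^40 ∣ 3 Q^800`), `KC Q X' x' y = kmC (Lk Q (X'/Q²)) (Lk Q (X'/3/Q²)) x' y` and `KL = km` by definition. -/
theorem gc_all : ∃ c0 : ℝ, 0 < c0 ∧ ∃ n1 : ℕ, ∀ n : ℕ, n1 ≤ n →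
    ∃ (M : ℕ) (L : ℕ → ℤ → ℝ) (c B b : ℝ), c0 ≤ b ∧ GC n M L c B b := by
  have invS' : Pool.Agent.H9S.INV := Pool.Agent.H37T.inv
  obtain ⟨K1, hK1, hOP⟩ := Pool.Agent.H9S.OP_main invS'
  obtain ⟨K2, hK2, hbd⟩ := Pool.Agent.H9S.BDL_bd
  obtain ⟨K3, hK3, hOC⟩ := O3_main invS'
  obtain ⟨K0, hK0⟩ : ∃ K0 : ℝ, K0 = max (max K1 K2) (max K3 1700) := ⟨_, rfl⟩
  have hK01 : K1 ≤ K0 := by rw [hK0]; exact (le_max_left _ _).trans (le_max_left _ _)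
  have hK02 : K2 ≤ K0 := by rw [hK0]; exact (le_max_right _ _).trans (le_max_left _ _)
  have hK03 : K3 ≤ K0 := by rw [hK0]; exact (le_max_left _ _).trans (le_max_right _ _)
  have hK04 : 1700 ≤ K0 := by rw [hK0]; exact (le_max_right _ _).trans (le_max_right _ _)
  have hK0p : 0 ≤ K0 := by linarith
  obtain ⟨Cr, hCr, hF⟩ := X6_all K0 (by linarith)
  obtain ⟨cop1, hcop1, nop1, hop1⟩ := hOP K0 hK01 Cr hCr
  obtain ⟨cop2, hcop2, nop2, hop2⟩ := hOC K0 hK03 Cr hCr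
  obtain ⟨cF0, hcF0, nF, hF2⟩ := hF (1 / 20000) (min (min cop1 cop2) 1) (by norm_num)
    (lt_min (lt_min hcop1 hcop2) one_pos)
  have hc0 : 0 < cF0 / (10000 * Cr) := by positivity
  obtain ⟨nb, hnb⟩ := hbd (cF0 / (10000 * Cr)) hc0
  have hev : ∀ e : ℝ, 0 < e → ∃ n3 : ℕ, ∀ n : ℕ, n3 ≤ n → (3:ℝ) ≤ (n:ℝ) ^ e := by
    intro e he
    exact Filter.eventually_atTop.1
      (((tendsto_rpow_atTop he).comp tendsto_natCast_atTop_atTop).eventually_ge_atTop 3)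
  obtain ⟨n3, hn3⟩ := hev (cF0 / Cr / 20000) (by positivity)
  obtain ⟨n4, hn4⟩ := hev (1 / Cr) (by positivity)
  refine ⟨cF0 / (10000 * Cr), hc0, max (max (max nop1 nop2) nF) (max (max nb 81) (max n3 n4)), fun n hn => ?_⟩
  have hna : nop1 ≤ n := by omega
  have hnb' : nop2 ≤ n := by omega
  have hnc : nF ≤ n := by omega
  have hnd : nb ≤ n := by omega
  have hne : 81 ≤ n := by omega
  have hnf : n3 ≤ n := by omega
  have hng : n4 ≤ n := by omega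
  have hnR : (81:ℝ) ≤ n := by exact_mod_cast hne
  have hn0 : (0:ℝ) < n := by linarith
  have hn1' : (1:ℝ) ≤ n := by linarith
  have hlogn : 0 < Real.log n := Real.log_pos (by linarith)
  obtain ⟨Q, hQ1, hQ2, hreg, cF, hcF1, hcF2, hMT, hMix⟩ := hF2 n hnc
  have hcFp : 0 < cF := lt_of_lt_of_le hcF0 hcF1
  have hlogQ : 0 < Real.log Q := by
    by_contra hcon
    have : Cr * Real.log Q ≤ 0 := mul_nonpos_of_nonneg_of_nonpos (by linarith) (not_lt.1 hcon)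
    linarith
  have hQpos : 1 ≤ Q := by
    by_contra hcon
    have hQ0 : Q = 0 := by omega
    rw [hQ0, Nat.cast_zero, Real.log_zero] at hlogQ
    exact lt_irrefl _ hlogQ
  have hQR : (1:ℝ) ≤ Q := by exact_mod_cast hQpos
  have hQ0 : (0:ℝ) < Q := by linarith
  obtain ⟨lam, hlam⟩ : ∃ lam : ℝ, lam = Real.log Q / Real.log n := ⟨_, rfl⟩
  have hlamp : 0 < lam := by rw [hlam]; positivity
  have hlam1 : lam ≤ 1 := by
    rw [hlam, div_le_one hlogn]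
    nlinarith
  have hlamC : 1 / Cr ≤ lam := by
    rw [hlam, div_le_div_iff₀ (by linarith) hlogn]
    linarith
  have hnQ : (n:ℝ) ^ lam = Q := by
    rw [Real.rpow_def_of_pos hn0, hlam, mul_div_cancel₀ _ hlogn.ne', Real.exp_log hQ0]
  have hQn : ∀ x : ℝ, (Q:ℝ) ^ (-x) = (n:ℝ) ^ (-(x * lam)) := by
    intro x
    rw [← hnQ, ← Real.rpow_mul hn0.le]
    congr 1
    ring
  have hQ3 : (3:ℝ) ≤ Q := by
    rw [← hnQ]
    exact (hn4 n hng).trans (Real.rpow_le_rpow_of_exponent_le hn1' hlamC)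
  obtain ⟨c, hc⟩ : ∃ c : ℝ, c = cF * lam := ⟨_, rfl⟩
  have hcp : 0 < c := by rw [hc]; positivity
  have hccF : c ≤ cF := by rw [hc]; exact mul_le_of_le_one_right hcFp.le hlam1
  have hc1 : c ≤ 1 := hccF.trans (hcF2.trans (min_le_right _ _))
  have hcop1' : c ≤ cop1 := hccF.trans (hcF2.trans ((min_le_left _ _).trans (min_le_left _ _)))
  have hcop2' : c ≤ cop2 := hccF.trans (hcF2.trans ((min_le_left _ _).trans (min_le_right _ _)))
  have hcC : cF0 / Cr ≤ c := by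
    rw [hc]
    calc cF0 / Cr = cF0 * (1 / Cr) := by ring
      _ ≤ cF * lam := mul_le_mul hcF1 hlamC (by positivity) hcFp.le
  have hb0 : cF0 / (10000 * Cr) ≤ c / 10000 := by
    calc cF0 / (10000 * Cr) = cF0 / Cr / 10000 := by rw [div_div, mul_comm]
      _ ≤ c / 10000 := by linarith
  have hQc : (Q:ℝ) ^ (-cF) = (n:ℝ) ^ (-c) := by rw [hQn, hc]
  have hQb : (Q:ℝ) ^ (-(1 / 20000 * cF)) = (n:ℝ) ^ (-(c / 20000)) := by
    rw [hQn, hc]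
    congr 1
    ring
  have hn3b : (3:ℝ) ≤ (n:ℝ) ^ (c / 20000) :=
    (hn3 n hnf).trans (Real.rpow_le_rpow_of_exponent_le hn1' (by linarith))
  have hloss3 : (n:ℝ) ^ (-(c / 10000)) ≤ (n:ℝ) ^ (-(c / 20000)) / 3 := by
    have h1 : (n:ℝ) ^ (-(c / 20000)) = (n:ℝ) ^ (-(c / 10000)) * (n:ℝ) ^ (c / 20000) := by
      rw [← Real.rpow_add hn0]
      congr 1
      ring
    have h2 : 0 ≤ (n:ℝ) ^ (-(c / 10000)) := Real.rpow_nonneg hn0.le _
    rw [h1]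
    nlinarith
  have hloss : (n:ℝ) ^ (-(c / 10000)) ≤ (n:ℝ) ^ (-(c / 20000)) :=
    Real.rpow_le_rpow_of_exponent_le hn1' (by linarith)
  have hQX : Q ≤ n := by
    have h1 : Real.log Q ≤ Real.log n := by
      have : lam * Real.log n = Real.log Q := by rw [hlam, div_mul_cancel₀ _ hlogn.ne']
      nlinarith
    have h2 : (Q:ℝ) ≤ n := (Real.log_le_log_iff hQ0 hn0).1 h1
    exact_mod_cast h2
  -- scales
  have hsc : ∀ X Z : ℕ, Sc n (3 * Q ^ 800) (c / 100) X Z → 9 * n ≤ Z ^ 2 ∧ n ≤ Z ^ 2 ∧ n ≤ X ^ 2 ∧ X ≤ n ^ 2 ∧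
      1 ≤ Z ∧ 1 ≤ X ∧ n ≤ (X / 3) ^ 2 ∧ X / 3 ≤ n ^ 2 ∧ 1 ≤ X / 3 ∧ 3 ∣ X ∧ 3 ∣ Z := by
    intro X Z h
    have h1 : (n:ℝ) ^ (3 / 4 : ℝ) ≤ Z :=
      (Real.rpow_le_rpow_of_exponent_le hn1' (by linarith)).trans h.lo
    have h81 : (9:ℝ) ≤ (n:ℝ) ^ (1 / 2 : ℝ) := by
      have h0 : ((81:ℝ)) ^ (1 / 2 : ℝ) ≤ (n:ℝ) ^ (1 / 2 : ℝ) :=
        Real.rpow_le_rpow (by norm_num) hnR (by norm_num)
      have h9 : ((81:ℝ)) ^ (1 / 2 : ℝ) = 9 := by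
        rw [show (81:ℝ) = 9 ^ (2:ℝ) by norm_num, ← Real.rpow_mul (by norm_num)]
        norm_num
      linarith
    have h2 : 9 * (n:ℝ) ≤ (Z:ℝ) ^ 2 := by
      calc 9 * (n:ℝ) ≤ (n:ℝ) ^ (1 / 2 : ℝ) * n := by nlinarith
        _ = ((n:ℝ) ^ (3 / 4 : ℝ)) ^ 2 := by
            rw [← Real.rpow_natCast ((n:ℝ) ^ (3 / 4 : ℝ)), ← Real.rpow_mul hn0.le]
            nth_rewrite 2 [← Real.rpow_one (n:ℝ)]
            rw [← Real.rpow_add hn0]
            norm_num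
        _ ≤ (Z:ℝ) ^ 2 := pow_le_pow_left₀ (Real.rpow_nonneg hn0.le _) h1 2
    have h3 : 9 * n ≤ Z ^ 2 := by exact_mod_cast h2
    have h4 : 1 ≤ Z := by
      rcases Nat.eq_zero_or_pos Z with h5 | h5
      · rw [h5] at h3
        omega
      · exact h5
    have h5 := h.le
    have h6 := h.hi
    have h3X : 3 ∣ X := (Dvd.intro _ rfl).trans h.dX
    have h3Z : 3 ∣ Z := (Dvd.intro _ rfl).trans h.dZ
    obtain ⟨Y, hY⟩ := h3X
    have hXY : X / 3 = Y := by omega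
    have h7 : X ≤ n ^ 2 := h6.trans (Nat.le_self_pow (by norm_num) n)
    have h8 : Z ^ 2 ≤ X ^ 2 := Nat.pow_le_pow_left (by omega) 2
    refine ⟨h3, by omega, by omega, h7, h4, by omega, ?_, by omega, by omega, ⟨Y, hY⟩, h3Z⟩
    rw [hXY]
    have h9 : X ^ 2 = 9 * Y ^ 2 := by rw [hY]; ring
    omega
  have hregX : ∀ X Z : ℕ, Sc n (3 * Q ^ 800) (c / 100) X Z → RegP K0 Q X := by
    intro X Z h
    obtain ⟨-, h1, h2, h3, h4, h5, -⟩ := hsc X Z h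
    exact hreg X h2 h3
  have hregX3 : ∀ X Z : ℕ, Sc n (3 * Q ^ 800) (c / 100) X Z → RegP K0 Q (X / 3) := by
    intro X Z h
    obtain ⟨-, -, -, -, -, -, h1, h2, -⟩ := hsc X Z h
    exact hreg (X / 3) h1 h2
  have h40 : Q ^ 40 ∣ 3 * Q ^ 800 := (pow_dvd_pow Q (by norm_num)).trans (Dvd.intro_left _ rfl)
  have h800 : Q ^ 800 ∣ 3 * Q ^ 800 := Dvd.intro_left _ rfl
  have h340 : 3 * Q ^ 40 ∣ 3 * Q ^ 800 := mul_dvd_mul_left 3 (pow_dvd_pow Q (by norm_num))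
  refine ⟨3 * Q ^ 800, fun X => Lk Q (X / Q ^ 2), c, c / 100, c / 10000, hb0, ?_⟩
  refine ⟨⟨by positivity, by linarith, by linarith, hc1, ?_, ?_, ?_, ?_, ?_, ?_⟩, Dvd.intro _ rfl, ?_, ?_, ?_⟩
  · -- M1
    have := Nat.one_le_pow 800 Q hQpos
    omega
  · -- Mn
    push_cast
    have h1 : 3 * (Q:ℝ) ^ 800 ≤ (Q:ℝ) ^ 801 := by
      rw [pow_succ (Q:ℝ) 800, mul_comm]
      exact mul_le_mul_of_nonneg_left hQ3 (by positivity)
    have h2 : (Q:ℝ) ^ 801 = (n:ℝ) ^ (lam * 801) := by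
      rw [Real.rpow_mul hn0.le, hnQ]
      norm_cast
    refine h1.trans ?_
    rw [h2]
    refine Real.rpow_le_rpow_of_exponent_le hn1' ?_
    have h3 : lam * 1700 ≤ 1 := by
      rw [hlam, div_mul_eq_mul_div, div_le_one hlogn]
      nlinarith
    linarith
  · -- bd
    intro X Z h m hm1 hm2
    obtain ⟨-, h1, h2, h3, h4, h5, -⟩ := hsc X Z h
    have h6 := hnb n hnd Q X ((hregX X Z h).mono hK0p hK02) hQpos hQX h5 h.hi m hm1 hm2
    exact h6.trans (Real.rpow_le_rpow_of_exponent_le hn1' hb0)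
  · -- op
    intro X Z h f g hf hg
    obtain ⟨-, h1, h2, h3, h4, h5, -⟩ := hsc X Z h
    have h6 := hop1 n Q hna hQ1 hQ2 X Z (hregX X Z h) h4 h.le h.hi f g hf hg
    exact h6.trans (Real.rpow_le_rpow_of_exponent_le hn1' (by linarith))
  · -- m4
    intro X X' Z h h'
    obtain ⟨-, h1, h2, h3, h4, h5, -⟩ := hsc X Z h
    obtain ⟨Bad, hB1, hB2, hB3⟩ := hMT.m4 Z X X' (h40.trans h.dZ) (h40.trans h.dX) (h40.trans h'.dX) h1 h.le h'.le h.hi h'.hi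
    refine le_trans (Nat.cast_le.2 (Finset.card_le_card (t := Bad) ?_)) (hB2.trans ?_)
    · intro p hp
      simp only [Finset.mem_filter, Finset.mem_product] at hp
      obtain ⟨⟨hp1, hp2⟩, hp3, hp4⟩ := hp
      by_contra hcon
      have h7 := hB3 p.1 hp1 p.2 hp2 hcon hp3.1 hp3.2
      rw [hQb] at h7
      exact absurd hp4 (not_lt.2 ((mul_le_mul_of_nonneg_left hloss (Nat.cast_nonneg Z)).trans h7))
    rw [hQc]
    have hX : (X:ℝ) ≤ n := by exact_mod_cast h.hi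
    have hX' : (X':ℝ) ≤ n := by exact_mod_cast h'.hi
    have h8 : 0 ≤ (n:ℝ) ^ (-c) := Real.rpow_nonneg hn0.le _
    calc (X:ℝ) * X' * (n:ℝ) ^ (-c) ≤ (n:ℝ) * n * (n:ℝ) ^ (-c) := by gcongr
      _ = (n:ℝ) ^ (2 - c) := by
          rw [show (2:ℝ) - c = 2 + (-c) by ring, Real.rpow_add hn0, Real.rpow_two]
          ring
  · -- m3
    intro X Z h
    obtain ⟨-, h1, h2, h3, h4, h5, -⟩ := hsc X Z h
    obtain ⟨Bad, hB1, hB2, hB3⟩ := hMT.m3 Z X (h800.trans h.dZ) (h40.trans h.dX) h1 h.le h.hi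
    refine le_trans (Nat.cast_le.2 (Finset.card_le_card (t := Bad) ?_)) (hB2.trans ?_)
    · intro x hx
      simp only [Finset.mem_filter] at hx
      obtain ⟨hx1, hx2, hx3⟩ := hx
      by_contra hcon
      have h7 := hB3 x hx1 hcon hx2
      rw [hQb] at h7
      exact absurd hx3 (not_lt.2 ((mul_le_mul_of_nonneg_left hloss (Nat.cast_nonneg Z)).trans h7))
    rw [hQc]
    have hX : (X:ℝ) ≤ n := by exact_mod_cast h.hi
    have h8 : 0 ≤ (n:ℝ) ^ (-c) := Real.rpow_nonneg hn0.le _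
    calc (X:ℝ) * (n:ℝ) ^ (-c) ≤ (n:ℝ) * (n:ℝ) ^ (-c) := by gcongr
      _ = (n:ℝ) ^ (1 - c) := by
          rw [show (1:ℝ) - c = 1 + (-c) by ring, Real.rpow_add hn0, Real.rpow_one]
  · -- bd3
    intro X Z h m hm1 hm2
    obtain ⟨-, h1, h2, h3, h4, h5, h6, h7, h8, -⟩ := hsc X Z h
    have h9 : X / 3 ≤ n := (Nat.div_le_self X 3).trans h.hi
    have h10 := hnb n hnd Q (X / 3) ((hregX3 X Z h).mono hK0p hK02) hQpos hQX h8 h9 m hm1 hm2
    exact h10.trans (Real.rpow_le_rpow_of_exponent_le hn1' hb0)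
  · -- opC
    intro X Z h f g hf hg
    obtain ⟨-, h1, h2, h3, h4, h5, -, -, -, h6, h7⟩ := hsc X Z h
    have h8 := hop2 n Q hnb' hQ1 hQ2 X Z h6 h7 (hregX X Z h) (hregX3 X Z h) h4 h.le h.hi f g hf hg
    exact h8.trans (Real.rpow_le_rpow_of_exponent_le hn1' (by linarith))
  · -- m4C
    intro X X' Z h h'
    obtain ⟨h0, h1, h2, h3, h4, h5, -⟩ := hsc X Z h
    obtain ⟨Bad, hB1, hB2, hB3⟩ := hMix Z X X' (h340.trans h.dZ) (h340.trans h.dX) (h340.trans h'.dX) h0 h.le h'.le h.hi h'.hi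
    refine le_trans (Nat.cast_le.2 (Finset.card_le_card (t := Bad) ?_)) (hB2.trans ?_)
    · intro p hp
      simp only [Finset.mem_filter, Finset.mem_product] at hp
      obtain ⟨⟨hp1, hp2⟩, hp3, hp4⟩ := hp
      by_contra hcon
      have h7 := hB3 p.1 hp1 p.2 hp2 hcon hp3.1 hp3.2.1 hp3.2.2
      rw [hQb] at h7
      have h8 : (Z:ℝ) * (n:ℝ) ^ (-(c / 10000)) ≤ (Z:ℝ) / 3 * (n:ℝ) ^ (-(c / 20000)) := by
        have := mul_le_mul_of_nonneg_left hloss3 (Nat.cast_nonneg (α := ℝ) Z)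
        linarith
      exact absurd hp4 (not_lt.2 (h8.trans h7))
    rw [hQc]
    have hX : (X:ℝ) ≤ n := by exact_mod_cast h.hi
    have hX' : (X':ℝ) ≤ n := by exact_mod_cast h'.hi
    have h8 : 0 ≤ (n:ℝ) ^ (-c) := Real.rpow_nonneg hn0.le _
    calc (X:ℝ) * X' * (n:ℝ) ^ (-c) ≤ (n:ℝ) * n * (n:ℝ) ^ (-c) := by gcongr
      _ = (n:ℝ) ^ (2 - c) := by
          rw [show (2:ℝ) - c = 2 + (-c) by ring, Real.rpow_add hn0, Real.rpow_two]
          ring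

end Pool.Agent.Lib.H59V
end
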